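import Pool.Agent.Lib.MP_9cec2c_lc.AZMain

/-!
From partially commuting operators to a world.
-/

set_option autoImplicit false
set_option linter.unusedSectionVars false

namespace Pool.Agent.MP_9cec2c_lc.AZ

open Finset

variable {V : Type} {K : Type} [Field K] {W : Type} [AddCommGroup W] [Module K W]

/-- Operators `X v` for the variables on a space with an increasing sequence of subspaces: they shift
the subspaces by one, and are idempotent and commute as long as the level stays at most `A`. -/
structure IsFrame (N : ℕ → Submodule K W) (X : V → W →ₗ[K] W) (A : ℕ) : Prop where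
  mono : ∀ i j, i ≤ j → N i ≤ N j
  shift : ∀ i v w, i + 1 ≤ A → w ∈ N i → X v w ∈ N (i + 1)
  idem : ∀ i v w, i + 2 ≤ A → w ∈ N i → X v (X v w) = X v w
  comm : ∀ i u v w, i + 2 ≤ A → w ∈ N i → X u (X v w) = X v (X u w)

/-- The product of the variables of a list. -/
def act (X : V → W →ₗ[K] W) (l : List V) (w : W) : W := l.foldr (fun v w => X v w) w

theorem act_nil (X : V → W →ₗ[K] W) (w : W) : act X [] w = w := rfl

theorem act_cons (X : V → W →ₗ[K] W) (v : V) (l : List V) (w : W) :
    act X (v :: l) w = X v (act X l w) := rfl

/-- The product as a linear map. -/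
def actL (X : V → W →ₗ[K] W) (l : List V) : W →ₗ[K] W where
  toFun := act X l
  map_add' := by
    intro a b
    induction l with
    | nil => rfl
    | cons v l ih => rw [act_cons, act_cons, act_cons, ih, map_add]
  map_smul' := by
    intro c a
    induction l with
    | nil => rfl
    | cons v l ih => rw [act_cons, act_cons, ih, map_smul]

theorem actL_apply (X : V → W →ₗ[K] W) (l : List V) (w : W) : actL X l w = act X l w := rfl

section frame

variable {N : ℕ → Submodule K W} {X : V → W →ₗ[K] W} {A : ℕ}

theorem act_mem (hX : IsFrame N X A) (l : List V) {i : ℕ} {w : W} (hw : w ∈ N i)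
    (h : i + l.length ≤ A) : act X l w ∈ N (i + l.length) := by
  induction l with
  | nil => exact hw
  | cons v l ih =>
    rw [List.length_cons] at h ⊢
    rw [act_cons]
    exact hX.shift _ _ _ (by omega) (ih (by omega))

theorem act_perm (hX : IsFrame N X A) {l l' : List V} (hp : l.Perm l') {i : ℕ} {w : W}
    (hw : w ∈ N i) (h : i + l.length ≤ A) : act X l w = act X l' w := by
  induction hp with
  | nil => rfl
  | cons v hp ih =>
    rw [List.length_cons] at h
    rw [act_cons, act_cons, ih (by omega)]
  | swap u v l =>
    rw [List.length_cons, List.length_cons] at h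
    rw [act_cons, act_cons, act_cons, act_cons]
    exact hX.comm (i + l.length) _ _ _ (by omega) (act_mem hX l hw (by omega))
  | trans hp1 hp2 ih1 ih2 =>
    rw [ih1 h]
    exact ih2 (by rw [← hp1.length_eq]; exact h)

end frame

section fun_space

variable [DecidableEq V]

/-- The monomial `∏ v ∈ T, x v`. -/
def mono (K : Type) [Field K] (T : Finset V) : (V → Bool) → K :=
  fun x => if ∀ v ∈ T, x v = true then 1 else 0

theorem mono_empty : mono K (∅ : Finset V) = 1 := by
  funext x
  simp [mono]

theorem mono_mul (S T : Finset V) : mono K S * mono K T = mono K (S ∪ T) := by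
  funext x
  rw [Pi.mul_apply]
  unfold mono
  by_cases h1 : ∀ v ∈ S, x v = true
  · by_cases h2 : ∀ v ∈ T, x v = true
    · rw [if_pos h1, if_pos h2, if_pos, mul_one]
      intro v hv
      rcases mem_union.1 hv with h | h
      · exact h1 v h
      · exact h2 v h
    · rw [if_neg h2, mul_zero, if_neg]
      intro h
      exact h2 fun v hv => h v (mem_union_right _ hv)
  · rw [if_neg h1, zero_mul, if_neg]
    intro h
    exact h1 fun v hv => h v (mem_union_left _ hv)

theorem mono_singleton (v : V) : mono K {v} = xf K v := by
  funext x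
  unfold mono xf
  simp

/-- The functions of degree at most `e`. -/
def Pd (K : Type) [Field K] (V : Type) [DecidableEq V] (e : ℕ) :
    Submodule K ((V → Bool) → K) :=
  Submodule.span K {f | ∃ T : Finset V, T.card ≤ e ∧ f = mono K T}

theorem mono_mem {T : Finset V} {e : ℕ} (h : T.card ≤ e) : mono K T ∈ Pd K V e :=
  Submodule.subset_span ⟨T, h, rfl⟩

theorem Pd_mono {a b : ℕ} (h : a ≤ b) : Pd K V a ≤ Pd K V b :=
  Submodule.span_mono fun _ ⟨T, hT, hf⟩ => ⟨T, hT.trans h, hf⟩

theorem Pd_mul {a b : ℕ} {p q : (V → Bool) → K} (hp : p ∈ Pd K V a) (hq : q ∈ Pd K V b) :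
    p * q ∈ Pd K V (a + b) := by
  have h1 : Pd K V a * Pd K V b ≤ Pd K V (a + b) := by
    unfold Pd
    rw [Submodule.span_mul_span]
    refine Submodule.span_le.2 ?_
    rintro f ⟨_, ⟨S, hS, rfl⟩, _, ⟨T, hT, rfl⟩, rfl⟩
    change mono K S * mono K T ∈ _
    rw [mono_mul]
    exact mono_mem ((card_union_le _ _).trans (Nat.add_le_add hS hT))
  exact h1 (Submodule.mul_mem_mul hp hq)

/-- The point with the ones at `S`. -/
def pt (S : Finset V) : V → Bool := fun v => decide (v ∈ S)

theorem mono_pt (T S : Finset V) : mono K T (pt S) = if T ⊆ S then 1 else 0 := by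
  unfold mono pt
  congr 1
  simp [Finset.subset_iff]

/-- The coefficient of `mono T`. -/
def coef (F : (V → Bool) → W) (T : Finset V) : W :=
  ∑ S ∈ T.powerset, (-1 : ℤ) ^ (T.card - S.card) • F (pt S)

theorem coef_mono (U T : Finset V) (w : W) :
    coef (fun x => mono K U x • w) T = if T = U then w else 0 := by
  unfold coef
  have h1 : ∀ S : Finset V, (-1 : ℤ) ^ (T.card - S.card) • (mono K U (pt S) • w) =
      if U ⊆ S then (-1 : ℤ) ^ (T.card - S.card) • w else 0 := by
    intro S
    rw [mono_pt]
    split_ifs
    · rw [one_smul]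
    · rw [zero_smul, smul_zero]
  simp only [h1]
  by_cases hUT : U ⊆ T
  · have h2 : ∑ S ∈ T.powerset, (if U ⊆ S then (-1 : ℤ) ^ (T.card - S.card) • w else 0) =
        ∑ R ∈ (T \ U).powerset, (-1 : ℤ) ^ R.card • w := by
      rw [← sum_filter]
      refine sum_nbij' (fun S => T \ S) (fun R => T \ R) ?_ ?_ ?_ ?_ ?_
      · intro S hS
        rw [mem_filter, mem_powerset] at hS
        rw [mem_powerset]
        exact sdiff_subset_sdiff subset_rfl hS.2
      · intro R hR
        rw [mem_powerset] at hR
        rw [mem_filter, mem_powerset]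
        refine ⟨sdiff_subset, fun v hv => mem_sdiff.2 ⟨hUT hv, fun h => ?_⟩⟩
        exact (mem_sdiff.1 (hR h)).2 hv
      · intro S hS
        rw [mem_filter, mem_powerset] at hS
        exact Finset.sdiff_sdiff_eq_self hS.1
      · intro R hR
        rw [mem_powerset] at hR
        exact Finset.sdiff_sdiff_eq_self (hR.trans sdiff_subset)
      · intro S hS
        rw [mem_filter, mem_powerset] at hS
        rw [card_sdiff_of_subset hS.1]
    rw [h2, ← sum_smul, Finset.sum_powerset_neg_one_pow_card]
    by_cases hTU : T = U
    · rw [if_pos hTU, if_pos (by rw [hTU, sdiff_self]; rfl), one_smul]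
    · rw [if_neg hTU, if_neg, zero_smul]
      intro h
      exact hTU (Subset.antisymm (sdiff_eq_empty_iff_subset.1 h) hUT)
  · have h2 : ∀ S ∈ T.powerset, (if U ⊆ S then (-1 : ℤ) ^ (T.card - S.card) • w else 0) = 0 := by
      intro S hS
      rw [if_neg]
      exact fun h => hUT (h.trans (mem_powerset.1 hS))
    rw [sum_congr rfl h2, sum_const_zero, if_neg]
    rintro rfl
    exact hUT subset_rfl

variable [Fintype V]

/-- The value of a function with values in `W`: the variables are replaced by the operators. -/
noncomputable def ev (X : V → W →ₗ[K] W) : ((V → Bool) → W) →ₗ[K] W where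
  toFun F := ∑ T : Finset V, actL X T.toList (coef F T)
  map_add' F G := by
    rw [← sum_add_distrib]
    refine sum_congr rfl fun T _ => ?_
    rw [← map_add]
    congr 1
    unfold coef
    rw [← sum_add_distrib]
    refine sum_congr rfl fun S _ => ?_
    rw [Pi.add_apply, smul_add]
  map_smul' c F := by
    rw [RingHom.id_apply, smul_sum]
    refine sum_congr rfl fun T _ => ?_
    rw [← map_smul]
    congr 1
    unfold coef
    rw [smul_sum]
    refine sum_congr rfl fun S _ => ?_
    rw [Pi.smul_apply, smul_comm]

/-- The function `x ↦ p x • w`. -/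
def tens (p : (V → Bool) → K) (w : W) : (V → Bool) → W := fun x => p x • w

theorem smul_tens (p q : (V → Bool) → K) (w : W) : p • tens q w = tens (p * q) w := by
  funext x
  change p x • (q x • w) = (p x * q x) • w
  rw [smul_smul]

theorem ev_tens (X : V → W →ₗ[K] W) (T : Finset V) (w : W) :
    ev X (tens (mono K T) w) = act X T.toList w := by
  change ∑ U : Finset V, actL X U.toList (coef (tens (mono K T) w) U) = _
  rw [sum_eq_single T]
  · unfold tens
    rw [coef_mono, if_pos rfl, actL_apply]
  · intro U _ hU
    unfold tens
    rw [coef_mono, if_neg hU, map_zero]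
  · intro h
    exact absurd (mem_univ T) h

/-- The levels in the space of functions. -/
def Md (N : ℕ → Submodule K W) (a : ℕ) : Submodule K ((V → Bool) → W) :=
  Submodule.span K {F | ∃ (T : Finset V) (i : ℕ) (w : W), w ∈ N i ∧ T.card + i ≤ a ∧
    F = tens (mono K T) w}

end fun_space

section bridge

variable [DecidableEq V] [Fintype V] {N : ℕ → Submodule K W} {X : V → W →ₗ[K] W} {A : ℕ}

theorem ev_mono_tens (hX : IsFrame N X A) (S T : Finset V) {i : ℕ} {w : W} (hw : w ∈ N i)
    (h : T.card + i + S.card ≤ A) :
    ev X (tens (mono K S * mono K T) w) = act X S.toList (act X T.toList w) := by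
  rw [mono_mul, ev_tens]
  induction S using Finset.induction_on with
  | empty => rw [empty_union, toList_empty, act_nil]
  | insert v S hv ih =>
    rw [card_insert_of_notMem hv] at h
    have h1 := ih (by omega)
    have h2 : act X (insert v S).toList (act X T.toList w) =
        X v (act X S.toList (act X T.toList w)) := by
      rw [← act_cons]
      refine act_perm hX (toList_insert hv) (i := i + T.toList.length)
        (act_mem hX _ hw (by rw [length_toList]; omega)) ?_
      rw [length_toList, length_toList, card_insert_of_notMem hv]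
      omega
    rw [h2, ← h1]
    by_cases hvT : v ∈ S ∪ T
    · have h3 : insert v S ∪ T = S ∪ T := by
        rw [insert_union, insert_eq_of_mem hvT]
      rw [h3]
      -- `X v` is idempotent
      have h4 : act X (S ∪ T).toList w = X v (act X ((S ∪ T).erase v).toList w) := by
        rw [← act_cons]
        refine act_perm hX ?_ hw ?_
        · have h5 := toList_insert (notMem_erase v (S ∪ T))
          rwa [insert_erase hvT] at h5
        · rw [length_toList]
          have := card_union_le S T
          omega
      have hcard : ((S ∪ T).erase v).card + 1 ≤ S.card + T.card := by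
        rw [card_erase_add_one hvT]
        exact card_union_le S T
      rw [h4]
      refine (hX.idem (i + ((S ∪ T).erase v).toList.length) v _ ?_
        (act_mem hX _ hw ?_)).symm
      · rw [length_toList]; omega
      · rw [length_toList]; omega
    · rw [insert_union, ← act_cons]
      refine act_perm hX (toList_insert hvT) hw ?_
      rw [length_toList, card_insert_of_notMem hvT]
      have := card_union_le S T
      omega

theorem ev_mono_smul (hX : IsFrame N X A) (S : Finset V) {a : ℕ} {F : (V → Bool) → W}
    (hF : F ∈ Md (V := V) N a) (h : a + S.card ≤ A) :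
    ev X (mono K S • F) = actL X S.toList (ev X F) := by
  induction hF using Submodule.span_induction with
  | mem F hF =>
    obtain ⟨T, i, w, hw, hTi, rfl⟩ := hF
    rw [smul_tens, ev_mono_tens hX S T hw (by omega), ev_tens, actL_apply]
  | zero => rw [smul_zero, map_zero, map_zero]
  | add F G _ _ hF hG => rw [smul_add, map_add, map_add, map_add, hF, hG]
  | smul c F _ hF =>
    rw [smul_comm (mono K S) c F, map_smul (ev X) c, map_smul (ev X) c,
      map_smul (actL X S.toList) c, hF]

theorem smul_mem_Md {a e : ℕ} {F : (V → Bool) → W} {p : (V → Bool) → K} (hF : F ∈ Md (V := V) N a)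
    (hp : p ∈ Pd K V e) : p • F ∈ Md (V := V) N (a + e) := by
  induction hp using Submodule.span_induction with
  | mem p hp =>
    obtain ⟨S, hS, rfl⟩ := hp
    induction hF using Submodule.span_induction with
    | mem F hF =>
      obtain ⟨T, i, w, hw, hTi, rfl⟩ := hF
      rw [smul_tens, mono_mul]
      refine Submodule.subset_span ⟨S ∪ T, i, w, hw, ?_, rfl⟩
      have := card_union_le S T
      omega
    | zero => rw [smul_zero]; exact Submodule.zero_mem _
    | add F G _ _ hF hG => rw [smul_add]; exact Submodule.add_mem _ hF hG
    | smul c F _ hF =>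
      rw [smul_comm (mono K S) c F]
      exact Submodule.smul_mem _ _ hF
  | zero => rw [zero_smul]; exact Submodule.zero_mem _
  | add p q _ _ hp hq => rw [add_smul]; exact Submodule.add_mem _ hp hq
  | smul c p _ hp => rw [smul_assoc]; exact Submodule.smul_mem _ _ hp

theorem ev_smul_eq_zero (hX : IsFrame N X A) {a e : ℕ} {F : (V → Bool) → W}
    {p : (V → Bool) → K} (hF : F ∈ Md (V := V) N a) (hp : p ∈ Pd K V e) (h : a + e ≤ A)
    (h0 : ev X F = 0) : ev X (p • F) = 0 := by
  induction hp using Submodule.span_induction with
  | mem p hp =>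
    obtain ⟨S, hS, rfl⟩ := hp
    rw [ev_mono_smul hX S hF (by omega), h0, map_zero]
  | zero => rw [zero_smul, map_zero]
  | add p q _ _ hp hq => rw [add_smul, map_add, hp, hq, add_zero]
  | smul c p _ hp => rw [smul_assoc, map_smul, hp, smul_zero]

/-- **The world of a frame.** -/
theorem isWorld (hX : IsFrame N X A) :
    World.IsWorld (Pd K V) (Md (V := V) N) (LinearMap.ker (ev X)) A where
  one_mem := by rw [← mono_empty]; exact mono_mem (card_empty.le)
  P_mono := fun a b h => Pd_mono h
  P_mul := fun a b p q hp hq => Pd_mul hp hq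
  M_mono := fun a b h => Submodule.span_mono fun _ ⟨T, i, w, hw, hTi, hF⟩ =>
    ⟨T, i, w, hw, hTi.trans h, hF⟩
  M_mul := fun a e F p _ hF hp => smul_mem_Md hF hp
  J_mul := fun a e F p h hJ hF hp => by
    rw [LinearMap.mem_ker] at hJ ⊢
    exact ev_smul_eq_zero hX hF hp h hJ

theorem map_ev (hX : IsFrame N X A) {a : ℕ} (ha : a ≤ A) :
    (Md (V := V) N a).map (ev X) = N a := by
  refine le_antisymm ?_ fun w hw => ?_
  · rw [Submodule.map_le_iff_le_comap]
    refine Submodule.span_le.2 ?_
    rintro F ⟨T, i, w, hw, hTi, rfl⟩
    change ev X _ ∈ N a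
    rw [ev_tens]
    refine hX.mono (i + T.toList.length) a ?_ (act_mem hX _ hw ?_)
    · rw [length_toList]; omega
    · rw [length_toList]; omega
  · refine ⟨tens (mono K ∅) w, Submodule.subset_span ⟨∅, a, w, hw, ?_, rfl⟩, ?_⟩
    · rw [card_empty, Nat.zero_add]
    · rw [ev_tens, toList_empty, act_nil]

theorem rk_eq (hX : IsFrame N X A) [FiniteDimensional K W] {a : ℕ} (ha : a ≤ A) :
    World.rk (LinearMap.ker (ev X)) (1 : (V → Bool) → K) (Md (V := V) N a) =
      Module.finrank K (N a) := by
  rw [← map_ev hX ha]
  unfold World.rk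
  refine le_antisymm ?_ ?_
  · refine World.finrank_map_le_of_ker _ _ _ fun F _ h => ?_
    rw [World.mq_eq_zero, one_smul]
    exact h
  · refine World.finrank_map_le_of_ker _ _ _ fun F _ h => ?_
    rw [World.mq_eq_zero, one_smul] at h
    exact h

/-- The operator of 'the literal is false'. -/
def litOp (X : V → W →ₗ[K] W) (l : V × Bool) : W →ₗ[K] W :=
  if l.2 then LinearMap.id - X l.1 else X l.1

theorem ev_lit_smul (hX : IsFrame N X A) (l : V × Bool) {a : ℕ} {F : (V → Bool) → W}
    (hF : F ∈ Md (V := V) N a) (h : a + 1 ≤ A) : ev X ((1 - lf K l) • F) = litOp X l (ev X F) := by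
  obtain ⟨v, b⟩ := l
  have h1 : ev X (xf K v • F) = X v (ev X F) := by
    have h2 := ev_mono_smul hX {v} hF (by rw [card_singleton]; exact h)
    rw [mono_singleton, toList_singleton, actL_apply, act_cons, act_nil] at h2
    exact h2
  cases b with
  | true =>
    have h2 : (lf K (v, true) : (V → Bool) → K) = xf K v := rfl
    rw [h2, sub_smul, one_smul, map_sub, h1]
    rfl
  | false =>
    have h2 : 1 - (lf K (v, false) : (V → Bool) → K) = xf K v := by
      funext x
      rw [Pi.sub_apply, Pi.one_apply]
      unfold lf xf
      cases x v <;> simp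
    rw [h2, h1]
    rfl

/-- A clause holds if the product of the operators of its literals is 0 on `N i`. -/
theorem fals_smul_mem (hX : IsFrame N X A) {C : Clause V} {l : List (V × Bool)}
    (hl : l.Nodup) (hC : l.toFinset = C) {a : ℕ} (ha : a + l.length ≤ A)
    (h0 : ∀ w ∈ N a, l.foldr (fun b w => litOp X b w) w = 0) {F : (V → Bool) → W}
    (hF : F ∈ Md (V := V) N a) : fals K C • F ∈ LinearMap.ker (ev X) := by
  rw [LinearMap.mem_ker]
  have hprod : fals K C = (l.map fun b => 1 - lf K b).prod := by
    unfold fals
    rw [← hC, List.prod_toFinset _ hl]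
  rw [hprod]
  have key : ∀ l : List (V × Bool), a + l.length ≤ A →
      (l.map fun b => 1 - lf K b).prod • F ∈ Md (V := V) N (a + l.length) ∧
      ev X ((l.map fun b => 1 - lf K b).prod • F) = l.foldr (fun b w => litOp X b w) (ev X F) := by
    intro l
    induction l with
    | nil =>
      intro _
      rw [List.map_nil, List.prod_nil, one_smul]
      exact ⟨hF, rfl⟩
    | cons b l ih =>
      intro h
      rw [List.length_cons] at h
      obtain ⟨h1, h2⟩ := ih (by omega)
      rw [List.map_cons, List.prod_cons, mul_smul, List.length_cons, List.foldr_cons]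
      refine ⟨?_, ?_⟩
      · rw [← Nat.add_assoc]
        refine smul_mem_Md h1 (Submodule.sub_mem _ ?_ ?_)
        · rw [← mono_empty]
          exact mono_mem (by rw [card_empty]; exact Nat.zero_le _)
        · obtain ⟨v, c⟩ := b
          cases c with
          | true =>
            have h3 : (lf K (v, true) : (V → Bool) → K) = mono K {v} := by
              rw [mono_singleton]; rfl
            rw [h3]
            exact mono_mem (card_singleton v).le
          | false =>
            have h3 : (lf K (v, false) : (V → Bool) → K) = mono K ∅ - mono K {v} := by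
              rw [mono_singleton, mono_empty]
              funext x
              rw [Pi.sub_apply, Pi.one_apply]
              unfold lf xf
              cases x v <;> simp
            rw [h3]
            exact Submodule.sub_mem _ (mono_mem (by rw [card_empty]; exact Nat.zero_le _))
              (mono_mem (card_singleton v).le)
      · rw [ev_lit_smul hX b h1 (by omega), h2]
  rw [(key l ha).2]
  refine h0 _ ?_
  rw [← map_ev hX (a := a) (by omega)]
  exact ⟨F, hF, rfl⟩

end bridge

end Pool.Agent.MP_9cec2c_lc.AZ
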