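import Pool.Agent.Lib.MP_9cec2c_lc.AZDefs

/-!
Soundness and completeness of the sequent calculus with counting gates: a line has a derivation
from a set of clauses if and only if it is implied by it; refutations exist exactly for
unsatisfiable sets of clauses.
-/

set_option autoImplicit false

namespace Pool.Agent.MP_9cec2c_lc.AZ

open Finset

variable {V : Type} {p b d : ℕ} {F : Set (Clause V)}

theorem Step.imp {P Q : Line V p → Prop} (h : ∀ Γ, P Γ → Q Γ) {Γ : Line V p}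
    (hs : Step b F P Γ) : Step b F Q Γ := by
  cases hs with
  | clause hC h1 => exact Step.clause hC h1
  | ax hb h1 => exact Step.ax hb h1
  | weak h1 h2 => exact Step.weak (h _ h1) h2
  | cut φ h1 h2 => exact Step.cut φ (h _ h1) (h _ h2)
  | or i h1 => exact Step.or i (h _ h1)
  | negOr h1 => exact Step.negOr fun i => h _ (h1 i)
  | and h1 => exact Step.and fun i => h _ (h1 i)
  | negAnd i h1 => exact Step.negAnd i (h _ h1)

/-! ### Soundness -/

theorem respects_holds (x : V → Bool) : Respects {φ : Fm V p | φ.Holds x} :=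
  ⟨fun _ => Iff.rfl, fun _ _ _ => Iff.rfl⟩

theorem lit_holds {x : V → Bool} {l : V × Bool} (h : x l.1 = l.2) :
    (Fm.lit l : Fm V p).Holds x := by
  obtain ⟨v, s⟩ := l
  cases s with
  | true => exact h
  | false =>
    show ¬ (x v = true)
    rw [show x v = false from h]
    exact Bool.false_ne_true

theorem Step.sound {P : Line V p → Prop} {x : V → Bool} (hF : ∀ C ∈ F, Holds x C)
    (hP : ∀ Γ, P Γ → ∃ φ ∈ Γ, φ.Holds x) {Γ : Line V p} (h : Step b F P Γ) :
    ∃ φ ∈ Γ, φ.Holds x := by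
  cases h with
  | clause hC h1 =>
    obtain ⟨l, h2, h3⟩ := hF _ hC
    exact ⟨_, h1 l h2, lit_holds h3⟩
  | ax hb h1 =>
    obtain ⟨φ, h2, h3⟩ := h1 _ (respects_holds x)
    exact ⟨φ, h2, h3⟩
  | weak h1 h2 =>
    obtain ⟨φ, h3, h4⟩ := hP _ h1
    exact ⟨φ, h2 h3, h4⟩
  | cut φ h1 h2 =>
    obtain ⟨ψ, h3, h4⟩ := hP _ h1
    obtain ⟨ψ', h3', h4'⟩ := hP _ h2
    rcases List.mem_cons.1 h3 with rfl | h3
    · rcases List.mem_cons.1 h3' with rfl | h3'
      · exact absurd h4 h4'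
      · exact ⟨ψ', h3', h4'⟩
    · exact ⟨ψ, h3, h4⟩
  | or i h1 =>
    obtain ⟨ψ, h3, h4⟩ := hP _ h1
    rcases List.mem_cons.1 h3 with rfl | h3
    · exact ⟨_, List.mem_cons_self, ⟨i, h4⟩⟩
    · exact ⟨ψ, List.mem_cons_of_mem _ h3, h4⟩
  | @negOr Γ k f h1 =>
    by_cases h2 : ∃ ψ ∈ Γ, ψ.Holds x
    · obtain ⟨ψ, h3, h4⟩ := h2
      exact ⟨ψ, List.mem_cons_of_mem _ h3, h4⟩
    · refine ⟨_, List.mem_cons_self, ?_⟩
      rintro ⟨i, h3⟩
      obtain ⟨ψ, h4, h5⟩ := hP _ (h1 i)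
      rcases List.mem_cons.1 h4 with rfl | h4
      · exact h5 h3
      · exact h2 ⟨ψ, h4, h5⟩
  | @and Γ k f h1 =>
    by_cases h2 : ∃ ψ ∈ Γ, ψ.Holds x
    · obtain ⟨ψ, h3, h4⟩ := h2
      exact ⟨ψ, List.mem_cons_of_mem _ h3, h4⟩
    · refine ⟨_, List.mem_cons_self, fun i => ?_⟩
      obtain ⟨ψ, h4, h5⟩ := hP _ (h1 i)
      rcases List.mem_cons.1 h4 with rfl | h4
      · exact h5
      · exact absurd ⟨ψ, h4, h5⟩ h2
  | negAnd i h1 =>
    obtain ⟨ψ, h3, h4⟩ := hP _ h1
    rcases List.mem_cons.1 h3 with rfl | h3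
    · exact ⟨_, List.mem_cons_self, fun h5 => h4 (h5 i)⟩
    · exact ⟨ψ, List.mem_cons_of_mem _ h3, h4⟩

/-- **Soundness.** -/
theorem IsDerivation.sound {l : ℕ} {L : Fin l → Line V p} {Γ : Line V p}
    (hL : IsDerivation b F d L Γ) {x : V → Bool} (hF : ∀ C ∈ F, Holds x C) :
    ∃ φ ∈ Γ, φ.Holds x := by
  obtain ⟨h, -, ⟨i, rfl⟩⟩ := hL
  have key : ∀ n : ℕ, ∀ i : Fin l, i.1 = n → ∃ φ ∈ L i, φ.Holds x := by
    intro n
    induction n using Nat.strong_induction_on with
    | _ n ih =>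
      intro i hi
      refine (h i).sound hF ?_
      rintro Δ ⟨j, hj, rfl⟩
      exact ih j.1 (by rw [← hi]; exact hj) j rfl
  exact key i.1 i rfl

/-! ### Derivations as lists, the last line first -/

/-- The list `Λ`, read backwards, is a derivation. -/
inductive Deriv (b : ℕ) (F : Set (Clause V)) (d : ℕ) : List (Line V p) → Prop
  | nil : Deriv b F d []
  | cons {Λ : List (Line V p)} {Γ : Line V p} (h : Deriv b F d Λ)
      (hd : ∀ φ ∈ Γ, φ.depth ≤ d) (hs : Step b F (fun Δ => Δ ∈ Λ) Γ) : Deriv b F d (Γ :: Λ)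

theorem Deriv.append {Λ Λ' : List (Line V p)} (h : Deriv b F d Λ) (h' : Deriv b F d Λ') :
    Deriv b F d (Λ ++ Λ') := by
  induction h with
  | nil => exact h'
  | cons _ hd hs ih => exact Deriv.cons ih hd (hs.imp fun Δ hΔ => List.mem_append_left _ hΔ)

theorem Deriv.get {Λ : List (Line V p)} (h : Deriv b F d Λ) : ∀ i : Fin Λ.length,
    (∀ φ ∈ Λ.get i, φ.depth ≤ d) ∧ Step b F (fun Δ => ∃ j, i < j ∧ Λ.get j = Δ) (Λ.get i) := by
  induction h with
  | nil => exact fun i => i.elim0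
  | @cons Λ Γ h hd hs ih =>
    intro i
    refine Fin.cases ?_ (fun i => ?_) i
    · refine ⟨hd, hs.imp ?_⟩
      intro Δ hΔ
      obtain ⟨j, rfl⟩ := List.mem_iff_get.1 hΔ
      exact ⟨j.succ, Fin.succ_pos j, rfl⟩
    · refine ⟨(ih i).1, (ih i).2.imp ?_⟩
      rintro Δ ⟨j, hj, rfl⟩
      exact ⟨j.succ, Fin.succ_lt_succ_iff.2 hj, rfl⟩

/-- The line `Γ` has a derivation. -/
def Prov (b : ℕ) (F : Set (Clause V)) (d : ℕ) (Γ : Line V p) : Prop :=
  ∃ Λ, Deriv b F d Λ ∧ Γ ∈ Λ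

theorem Prov.exists_derivation {Γ : Line V p} (h : Prov b F d Γ) :
    ∃ (l : ℕ) (L : Fin l → Line V p), IsDerivation b F d L Γ := by
  obtain ⟨Λ, h1, h2⟩ := h
  obtain ⟨i, rfl⟩ := List.mem_iff_get.1 h2
  refine ⟨Λ.length, fun i => Λ.get i.rev, fun i => ?_, fun i => (h1.get i.rev).1, ⟨i.rev, ?_⟩⟩
  · refine (h1.get i.rev).2.imp ?_
    rintro Δ ⟨j, hj, rfl⟩
    refine ⟨j.rev, ?_, ?_⟩
    · rw [← Fin.rev_lt_rev, Fin.rev_rev]
      exact hj
    · simp only [Fin.rev_rev]
  · simp only [Fin.rev_rev]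

theorem exists_common {m : ℕ} {X : Fin m → Line V p} (h : ∀ i, Prov b F d (X i)) :
    ∃ Λ, Deriv b F d Λ ∧ ∀ i, X i ∈ Λ := by
  induction m with
  | zero => exact ⟨[], Deriv.nil, fun i => i.elim0⟩
  | succ m ih =>
    obtain ⟨Λ, h1, h2⟩ := ih (X := fun i => X i.castSucc) fun i => h i.castSucc
    obtain ⟨Λ', h1', h2'⟩ := h (Fin.last m)
    refine ⟨Λ' ++ Λ, h1'.append h1, fun i => ?_⟩
    refine Fin.lastCases ?_ (fun i => ?_) i
    · exact List.mem_append_left _ h2'
    · exact List.mem_append_right _ (h2 i)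

/-- The lines with derivations are closed under the rules. -/
theorem Prov.step {Γ : Line V p} (hd : ∀ φ ∈ Γ, φ.depth ≤ d)
    (h : Step b F (Prov b F d) Γ) : Prov b F d Γ := by
  cases h with
  | clause hC h1 =>
    exact ⟨[Γ], Deriv.cons Deriv.nil hd (Step.clause hC h1), List.mem_cons_self⟩
  | ax hb h1 => exact ⟨[Γ], Deriv.cons Deriv.nil hd (Step.ax hb h1), List.mem_cons_self⟩
  | weak h1 h2 =>
    obtain ⟨Λ, h3, h4⟩ := h1
    exact ⟨Γ :: Λ, Deriv.cons h3 hd (Step.weak h4 h2), List.mem_cons_self⟩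
  | cut φ h1 h2 =>
    obtain ⟨Λ, h3, h4⟩ := h1
    obtain ⟨Λ', h3', h4'⟩ := h2
    exact ⟨Γ :: (Λ ++ Λ'), Deriv.cons (h3.append h3') hd (Step.cut φ
      (List.mem_append_left _ h4) (List.mem_append_right _ h4')), List.mem_cons_self⟩
  | or i h1 =>
    obtain ⟨Λ, h3, h4⟩ := h1
    exact ⟨_ :: Λ, Deriv.cons h3 hd (Step.or i h4), List.mem_cons_self⟩
  | negOr h1 =>
    obtain ⟨Λ, h3, h4⟩ := exists_common h1
    exact ⟨_ :: Λ, Deriv.cons h3 hd (Step.negOr h4), List.mem_cons_self⟩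
  | and h1 =>
    obtain ⟨Λ, h3, h4⟩ := exists_common h1
    exact ⟨_ :: Λ, Deriv.cons h3 hd (Step.and h4), List.mem_cons_self⟩
  | negAnd i h1 =>
    obtain ⟨Λ, h3, h4⟩ := h1
    exact ⟨_ :: Λ, Deriv.cons h3 hd (Step.negAnd i h4), List.mem_cons_self⟩

theorem Prov.weaken {Γ Δ : Line V p} (h : Prov b F d Δ) (hs : Δ ⊆ Γ)
    (hd : ∀ φ ∈ Γ, φ.depth ≤ d) : Prov b F d Γ :=
  Prov.step hd (Step.weak h hs)

theorem Prov.cutOn {Γ : Line V p} (φ : Fm V p) (h : Prov b F d (φ :: Γ))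
    (h' : Prov b F d (.neg φ :: Γ)) (hd : ∀ φ ∈ Γ, φ.depth ≤ d) : Prov b F d Γ :=
  Prov.step hd (Step.cut φ h h')

/-! ### Refutations -/

/-- The literal of the variable `v` that is false under `x`. -/
def fl (x : V → Bool) (v : V) : Fm V p := if x v = true then .neg (.var v) else .var v

theorem depth_fl (x : V → Bool) (v : V) : (fl x v : Fm V p).depth = 0 := by
  unfold fl
  split_ifs
  · rfl
  · rfl

theorem lit_mem_of_false {x : V → Bool} {l : V × Bool} (h : x l.1 ≠ l.2) :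
    (Fm.lit l : Fm V p) = fl x l.1 := by
  obtain ⟨v, s⟩ := l
  unfold fl
  cases s with
  | true => rw [if_neg h]; rfl
  | false =>
    have h1 : x v = true := by
      cases h2 : x v with
      | true => rfl
      | false => exact absurd h2 h
    rw [if_pos h1]
    rfl

/-- The removal of the variables. -/
theorem prov_of_forall [DecidableEq V] {Γ : Line V p} (hΓ : ∀ φ ∈ Γ, φ.depth ≤ d) (vs : List V)
    (hvs : vs.Nodup) (h : ∀ x : V → Bool, Prov b F d (vs.map (fl x) ++ Γ)) : Prov b F d Γ := by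
  induction vs with
  | nil => exact h fun _ => true
  | cons v vs ih =>
    rw [List.nodup_cons] at hvs
    refine ih hvs.2 fun x => ?_
    have h1 : ∀ c : Bool, (v :: vs).map (fl (Function.update x v c) : V → Fm V p) =
        (if c = true then .neg (.var v) else .var v) :: vs.map (fl x) := by
      intro c
      rw [List.map_cons]
      congr 1
      · unfold fl
        rw [Function.update_self]
      · refine List.map_congr_left fun u hu => ?_
        unfold fl
        rw [Function.update_of_ne]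
        rintro rfl
        exact hvs.1 hu
    have h2 := h (Function.update x v false)
    have h3 := h (Function.update x v true)
    rw [h1, List.cons_append] at h2 h3
    refine Prov.cutOn (.var v) h2 h3 fun φ hφ => ?_
    rcases List.mem_append.1 hφ with h4 | h4
    · obtain ⟨u, -, rfl⟩ := List.mem_map.1 h4
      rw [depth_fl]
      exact Nat.zero_le d
    · exact hΓ φ h4

/-- **Every unsatisfiable set of clauses has a refutation of depth 0.** -/
theorem exists_refutation [Fintype V] (p b : ℕ) {F : Set (Clause V)}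
    (hF : ∀ x, ∃ C ∈ F, ¬ Holds x C) : ∃ (l : ℕ) (L : Fin l → Line V p),
      IsRefutation b F 0 L := by
  classical
  refine Prov.exists_derivation (prov_of_forall (fun φ h => absurd h List.not_mem_nil)
    (univ : Finset V).toList (nodup_toList _) fun x => ?_)
  obtain ⟨C, hC, hx⟩ := hF x
  refine Prov.step (fun φ hφ => ?_) (Step.clause hC fun l hl => ?_)
  · rw [List.append_nil] at hφ
    obtain ⟨u, -, rfl⟩ := List.mem_map.1 hφ
    rw [depth_fl]
  · rw [List.append_nil, List.mem_map]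
    refine ⟨l.1, by rw [mem_toList]; exact mem_univ _, ?_⟩
    exact (lit_mem_of_false fun h => hx ⟨l, hl, h⟩).symm

end Pool.Agent.MP_9cec2c_lc.AZ
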