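import Mathlib

/-!
Frege systems with counting gates modulo `p`: formulas, the sequent calculus, size and depth.
-/

set_option autoImplicit false

namespace Pool.Agent.MP_9cec2c_lc.AZ

/-- A clause: a finite set of literals, read as their disjunction. The literal `l` is the variable
`l.1` if `l.2` is true, and its negation if `l.2` is false. -/
abbrev Clause (V : Type) : Type := Finset (V × Bool)

/-- The assignment `x` satisfies the clause `C`. -/
def Holds {V : Type} (x : V → Bool) (C : Clause V) : Prop := ∃ l ∈ C, x l.1 = l.2

/-- Formulas: variables, negations, disjunctions and conjunctions of any number of formulas, and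
counting gates: `mod r f` says that the number of true formulas among `f 0, ..., f (k - 1)` is
congruent to `r` modulo `p`. -/
inductive Fm (V : Type) (p : ℕ) : Type
  | var (v : V) : Fm V p
  | neg (φ : Fm V p) : Fm V p
  | or {k : ℕ} (f : Fin k → Fm V p) : Fm V p
  | and {k : ℕ} (f : Fin k → Fm V p) : Fm V p
  | mod (r : ZMod p) {k : ℕ} (f : Fin k → Fm V p) : Fm V p

variable {V : Type} {p : ℕ}

namespace Fm

/-- The literal `l` as a formula. -/
def lit (l : V × Bool) : Fm V p := if l.2 then var l.1 else neg (var l.1)

/-- The truth of a formula. -/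
def Holds (x : V → Bool) : Fm V p → Prop
  | var v => x v = true
  | neg φ => ¬ φ.Holds x
  | or f => ∃ i, (f i).Holds x
  | and f => ∀ i, (f i).Holds x
  | mod r f => ((Set.ncard {i | (f i).Holds x} : ℕ) : ZMod p) = r

/-- The depth: the number of nested disjunctions, conjunctions and counting gates. Negations are
not counted. -/
def depth : Fm V p → ℕ
  | var _ => 0
  | neg φ => φ.depth
  | or f => 1 + Finset.univ.sup fun i => (f i).depth
  | and f => 1 + Finset.univ.sup fun i => (f i).depth
  | mod _ f => 1 + Finset.univ.sup fun i => (f i).depth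

/-- The subformulas of a formula, itself included. -/
def subs : Fm V p → Set (Fm V p)
  | var v => {var v}
  | neg φ => {neg φ} ∪ φ.subs
  | or f => {or f} ∪ ⋃ i, (f i).subs
  | and f => {and f} ∪ ⋃ i, (f i).subs
  | mod r f => {mod r f} ∪ ⋃ i, (f i).subs

end Fm

/-- A line of a proof (cedent): a list of formulas, read as their disjunction. -/
abbrev Line (V : Type) (p : ℕ) : Type := List (Fm V p)

/-- A truth assignment to all formulas (the set of the true ones) that respects negations and
counting gates. The values of the variables, disjunctions and conjunctions are arbitrary. -/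
def Respects (ν : Set (Fm V p)) : Prop :=
  (∀ φ, Fm.neg φ ∈ ν ↔ φ ∉ ν) ∧
    ∀ (r : ZMod p) (k : ℕ) (f : Fin k → Fm V p),
      Fm.mod r f ∈ ν ↔ ((Set.ncard {i | f i ∈ ν} : ℕ) : ZMod p) = r

open Fm in
/-- The rules of the sequent calculus: `Step b F Prev Γ` says that the line `Γ` follows in one step
from lines with the property `Prev` and the clauses of `F`. -/
inductive Step (b : ℕ) (F : Set (Clause V)) (Prev : Line V p → Prop) : Line V p → Prop
  /-- A clause of `F`. -/
  | clause {C : Clause V} {Γ : Line V p} (hC : C ∈ F) (h : ∀ l ∈ C, lit l ∈ Γ) : Step b F Prev Γ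
  /-- Axioms: lines of at most `b` formulas, one of which is true under every truth assignment that
  respects negations and counting gates (`φ` or not `φ`; the defining axioms of the counting
  gates). -/
  | ax {Γ : Line V p} (hb : Γ.length ≤ b) (h : ∀ ν, Respects ν → ∃ φ ∈ Γ, φ ∈ ν) : Step b F Prev Γ
  /-- Weakening, contraction, exchange. -/
  | weak {Γ Δ : Line V p} (h : Prev Γ) (hs : Γ ⊆ Δ) : Step b F Prev Δ
  /-- The cut rule. -/
  | cut {Γ : Line V p} (φ : Fm V p) (h : Prev (φ :: Γ)) (h' : Prev (neg φ :: Γ)) : Step b F Prev Γ
  /-- Introduction of a disjunction. -/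
  | or {Γ : Line V p} {k : ℕ} {f : Fin k → Fm V p} (i : Fin k) (h : Prev (f i :: Γ)) :
      Step b F Prev (or f :: Γ)
  /-- Introduction of a negated disjunction, with any number of premises. -/
  | negOr {Γ : Line V p} {k : ℕ} {f : Fin k → Fm V p} (h : ∀ i, Prev (neg (f i) :: Γ)) :
      Step b F Prev (neg (or f) :: Γ)
  /-- Introduction of a conjunction, with any number of premises. -/
  | and {Γ : Line V p} {k : ℕ} {f : Fin k → Fm V p} (h : ∀ i, Prev (f i :: Γ)) :
      Step b F Prev (and f :: Γ)
  /-- Introduction of a negated conjunction. -/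
  | negAnd {Γ : Line V p} {k : ℕ} {f : Fin k → Fm V p} (i : Fin k) (h : Prev (neg (f i) :: Γ)) :
      Step b F Prev (neg (and f) :: Γ)

/-- The lines `L 0, ..., L (l - 1)` form a derivation of `Γ` from `F` of depth at most `d`: each
line follows from earlier lines and the clauses of `F` by a rule, all formulas have depth at most
`d`, and `Γ` occurs. -/
def IsDerivation (b : ℕ) (F : Set (Clause V)) (d : ℕ) {l : ℕ} (L : Fin l → Line V p)
    (Γ : Line V p) : Prop :=
  (∀ i, Step b F (fun Δ => ∃ j < i, L j = Δ) (L i)) ∧ (∀ i, ∀ φ ∈ L i, φ.depth ≤ d) ∧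
    ∃ i, L i = Γ

/-- A refutation: a derivation of the empty line. -/
def IsRefutation (b : ℕ) (F : Set (Clause V)) (d : ℕ) {l : ℕ} (L : Fin l → Line V p) : Prop :=
  IsDerivation b F d L []

/-- A proof of the formula `φ`: a derivation of `φ` without clauses. -/
def IsProof (b d : ℕ) {l : ℕ} (L : Fin l → Line V p) (φ : Fm V p) : Prop :=
  IsDerivation b ∅ d L [φ]

/-- The conjunction of the negations of the literals of a clause. -/
noncomputable def Clause.neg (C : Clause V) : Fm V p :=
  Fm.and fun j : Fin C.toList.length => Fm.lit ((C.toList.get j).1, !(C.toList.get j).2)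

/-- The formula 'some clause of `F` is false', a disjunction of conjunctions of literals; it is a
tautology if and only if `F` is unsatisfiable. -/
noncomputable def falsified (F : Finset (Clause V)) : Fm V p :=
  Fm.or fun i : Fin F.toList.length => (F.toList.get i).neg

/-- The size of a proof: the number of lines plus the number of different formulas that occur in
it, as members of lines or as subformulas of those. -/
noncomputable def size {l : ℕ} (L : Fin l → Line V p) : ℕ :=
  l + {ψ | ∃ i, ∃ φ ∈ L i, ψ ∈ φ.subs}.ncard

end Pool.Agent.MP_9cec2c_lc.AZ
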