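import Mathlib

/-!
Propositional formulas with negations, unbounded disjunctions and counting gates modulo `p`, and
the sequent calculus for formulas of bounded depth.
-/

set_option autoImplicit false

namespace Pool.Agent.MP_9cec2c_lc.Frege

/-- Formulas over the variables `V`: variables, negations, disjunctions of any number of formulas,
and counting gates `count r m F`, which say that the number of true formulas among
`F 0, ..., F (m - 1)` is congruent to `r`. -/
inductive Form (V : Type) : Type
  | var (v : V) : Form V
  | neg (φ : Form V) : Form V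
  | disj (m : ℕ) (F : Fin m → Form V) : Form V
  | count (r m : ℕ) (F : Fin m → Form V) : Form V

variable {V : Type}

/-- The truth value of a formula, where the counting gates count modulo `p`. -/
def Form.eval (p : ℕ) (x : V → Bool) : Form V → Prop
  | .var v => x v = true
  | .neg φ => ¬ φ.eval p x
  | .disj _ F => ∃ i, (F i).eval p x
  | .count r _ F => Nat.ModEq p {i | (F i).eval p x}.ncard r

/-- The depth of a formula: the largest number of nested disjunctions and counting gates.
Negations do not count. -/
def Form.depth : Form V → ℕ
  | .var _ => 0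
  | .neg φ => φ.depth
  | .disj _ F => 1 + Finset.univ.sup fun i => (F i).depth
  | .count _ _ F => 1 + Finset.univ.sup fun i => (F i).depth

/-- The subformulas of a formula, including the formula itself. -/
def Form.parts : Form V → Set (Form V)
  | .var v => {.var v}
  | .neg φ => insert (.neg φ) φ.parts
  | .disj m F => insert (.disj m F) (⋃ i, (F i).parts)
  | .count r m F => insert (.count r m F) (⋃ i, (F i).parts)

/-- A cedent: a finite set of formulas, read as their disjunction. -/
abbrev Cedent (V : Type) : Type := Finset (Form V)

/-- The assignment `x` satisfies the cedent `Γ`. -/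
def Holds (p : ℕ) (x : V → Bool) (Γ : Cedent V) : Prop := ∃ φ ∈ Γ, φ.eval p x

/-- A truth assignment to all formulas that respects negations and counting gates modulo `p`. The
values of the variables and of the disjunctions are arbitrary. -/
def Respects (p : ℕ) (ν : Set (Form V)) : Prop :=
  (∀ φ, Form.neg φ ∈ ν ↔ φ ∉ ν) ∧
    ∀ r m (F : Fin m → Form V), Form.count r m F ∈ ν ↔ Nat.ModEq p {i | F i ∈ ν}.ncard r

open Classical in
/-- The rules of the sequent calculus. The cedent `Γ` is one of the cedents in `Φ`; or it has at
most `b` formulas and one of them is true under all truth assignments that respect negations and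
counting gates; or it follows from cedents in `E` by weakening, by a cut, or by the introduction of
a disjunction or of a negated disjunction. -/
inductive Step (p b : ℕ) (Φ E : Set (Cedent V)) : Cedent V → Prop
  | ax (Γ : Cedent V) (h : Γ ∈ Φ) : Step p b Φ E Γ
  | taut (Γ : Cedent V) (hb : Γ.card ≤ b) (h : ∀ ν, Respects p ν → ∃ φ ∈ Γ, φ ∈ ν) :
      Step p b Φ E Γ
  | weak (Γ Δ : Cedent V) (h : Δ ∈ E) (hs : Δ ⊆ Γ) : Step p b Φ E Γ
  | cut (Γ : Cedent V) (φ : Form V) (h : insert φ Γ ∈ E) (h' : insert (.neg φ) Γ ∈ E) :
      Step p b Φ E Γ
  | right (Γ : Cedent V) (m : ℕ) (F : Fin m → Form V) (i : Fin m) (h : insert (F i) Γ ∈ E) :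
      Step p b Φ E (insert (.disj m F) Γ)
  | left (Γ : Cedent V) (m : ℕ) (F : Fin m → Form V)
      (h : ∀ i, insert (.neg (F i)) Γ ∈ E) : Step p b Φ E (insert (.neg (.disj m F)) Γ)

/-- The cedents `L 0, ..., L (l - 1)` form a refutation of `Φ` of depth at most `d`: all formulas
have depth at most `d`, each cedent follows from earlier cedents by one of the rules, and some
cedent is empty. -/
def IsRefutation (p b d : ℕ) (Φ : Set (Cedent V)) {l : ℕ} (L : Fin l → Cedent V) : Prop :=
  (∀ i, ∀ φ ∈ L i, φ.depth ≤ d) ∧ (∃ i, L i = ∅) ∧
    ∀ i, Step p b Φ {Δ | ∃ j, j < i ∧ L j = Δ} (L i)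

/-- The size: the number of cedents plus the number of different formulas that occur in them, also
as subformulas. -/
noncomputable def size {l : ℕ} (L : Fin l → Cedent V) : ℕ :=
  l + {ψ | ∃ i, ∃ φ ∈ L i, ψ ∈ φ.parts}.ncard

/-- The set of cedents `Φ` is unsatisfiable, and every refutation of `Φ` of depth at most `d` has
size at least `N`. -/
def Needs (p b d N : ℕ) (Φ : Set (Cedent V)) : Prop :=
  (∀ x, ∃ Γ ∈ Φ, ¬ Holds p x Γ) ∧ ∀ (l : ℕ) (L : Fin l → Cedent V),
    IsRefutation p b d Φ L → N ≤ size L

end Pool.Agent.MP_9cec2c_lc.Frege
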