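import Mathlib

/-!
Propositional formulas with negations, unbounded conjunctions and disjunctions and counting gates
modulo `p`, and Frege systems: finite sets of sound schematic rules.
-/

set_option autoImplicit false

namespace Pool.Agent.MP_9cec2c_lc.FG

/-- Formulas over the variables `V`: variables, negations, conjunctions and disjunctions of any
number of formulas, and counting gates `count r m F`, which say that the number of true formulas
among `F 0, ..., F (m - 1)` is congruent to `r`. The empty disjunction is the constant false and
the empty conjunction is the constant true. -/
inductive Form (V : Type) : Type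
  | var (v : V) : Form V
  | neg (φ : Form V) : Form V
  | conj (m : ℕ) (F : Fin m → Form V) : Form V
  | disj (m : ℕ) (F : Fin m → Form V) : Form V
  | count (r m : ℕ) (F : Fin m → Form V) : Form V

variable {V : Type}

/-- The truth value of a formula, where the counting gates count modulo `p`. -/
def Form.eval (p : ℕ) (x : V → Bool) : Form V → Prop
  | .var v => x v = true
  | .neg φ => ¬ φ.eval p x
  | .conj _ F => ∀ i, (F i).eval p x
  | .disj _ F => ∃ i, (F i).eval p x
  | .count r _ F => Nat.ModEq p {i | (F i).eval p x}.ncard r

/-- The formula is a conjunction. -/
def Form.IsConj : Form V → Prop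
  | .conj _ _ => True
  | _ => False

/-- The formula is a disjunction. -/
def Form.IsDisj : Form V → Prop
  | .disj _ _ => True
  | _ => False

open Classical in
/-- The depth of a formula: the largest number of nested conjunctions, disjunctions and counting
gates, where a conjunction directly inside a conjunction does not count, and a disjunction directly
inside a disjunction does not count. Negations do not count. -/
noncomputable def Form.depth : Form V → ℕ
  | .var _ => 0
  | .neg φ => φ.depth
  | .conj _ F => Finset.univ.sup fun i => (F i).depth + if (F i).IsConj then 0 else 1
  | .disj _ F => Finset.univ.sup fun i => (F i).depth + if (F i).IsDisj then 0 else 1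
  | .count _ _ F => Finset.univ.sup fun i => (F i).depth + 1

/-- The subformulas of a formula, including the formula itself. -/
def Form.parts : Form V → Set (Form V)
  | .var v => {.var v}
  | .neg φ => insert (.neg φ) φ.parts
  | .conj m F => insert (.conj m F) (⋃ i, (F i).parts)
  | .disj m F => insert (.disj m F) (⋃ i, (F i).parts)
  | .count r m F => insert (.count r m F) (⋃ i, (F i).parts)

/-- The constant false. -/
def falsum : Form V := .disj 0 Fin.elim0

/-- The conjunction of a list of formulas. -/
def conjL (Λ : List (Form V)) : Form V := .conj Λ.length Λ.get

/-- The disjunction of a list of formulas. -/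
def disjL (Λ : List (Form V)) : Form V := .disj Λ.length Λ.get

/-- The counting gate over a list of formulas. -/
def countL (r : ℕ) (Λ : List (Form V)) : Form V := .count r Λ.length Λ.get

/-- Schemes. An instance of a scheme is a list of formulas, most often with one member. The
metavariable `form i` stands for one formula, the metavariable `list i` stands for a list of
formulas. The negation of a list is the list of the negations. The instances of the arguments of
a connective are strung together to one list. -/
inductive Scheme : Type
  | form (i : ℕ) : Scheme
  | list (i : ℕ) : Scheme
  | neg (P : Scheme) : Scheme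
  | conj (m : ℕ) (P : Fin m → Scheme) : Scheme
  | disj (m : ℕ) (P : Fin m → Scheme) : Scheme
  | count (r m : ℕ) (P : Fin m → Scheme) : Scheme

/-- The instance of a scheme for the values `σ` and `τ` of the metavariables. -/
def Scheme.inst (σ : ℕ → Form V) (τ : ℕ → List (Form V)) : Scheme → List (Form V)
  | .form i => [σ i]
  | .list i => τ i
  | .neg P => (P.inst σ τ).map .neg
  | .conj m P => [conjL ((List.finRange m).flatMap fun i => (P i).inst σ τ)]
  | .disj m P => [disjL ((List.finRange m).flatMap fun i => (P i).inst σ τ)]
  | .count r m P => [countL r ((List.finRange m).flatMap fun i => (P i).inst σ τ)]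

/-- A rule: finitely many premises and a conclusion. -/
structure Rule : Type where
  premises : List Scheme
  conclusion : Scheme

/-- The rule is sound when the counting gates count modulo `p`: if all formulas in an instance of
the premises are true, then all formulas in the conclusion are true. -/
def Rule.Sound (p : ℕ) (R : Rule) : Prop :=
  ∀ (V : Type) (σ : ℕ → Form V) (τ : ℕ → List (Form V)) (x : V → Bool),
    (∀ P ∈ R.premises, ∀ φ ∈ P.inst σ τ, φ.eval p x) →
      ∀ φ ∈ R.conclusion.inst σ τ, φ.eval p x

/-- The formula `φ` is the conclusion of an instance of the rule `R`, where all members of the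
premises are in `E`. -/
def Rule.Derives (R : Rule) (E : Set (Form V)) (φ : Form V) : Prop :=
  ∃ (σ : ℕ → Form V) (τ : ℕ → List (Form V)),
    (∀ P ∈ R.premises, ∀ ψ ∈ P.inst σ τ, ψ ∈ E) ∧ R.conclusion.inst σ τ = [φ]

/-- The formulas `L 0, ..., L (l - 1)` form a derivation from `Φ` by the rules in `S`, in which
all formulas have depth at most `d`. -/
def IsDerivation (S : Set Rule) (d : ℕ) (Φ : Set (Form V)) {l : ℕ} (L : Fin l → Form V) : Prop :=
  ∀ i, (L i).depth ≤ d ∧ (L i ∈ Φ ∨ ∃ R ∈ S, R.Derives {ψ | ∃ j, j < i ∧ L j = ψ} (L i))

/-- The size: the number of lines plus the number of different subformulas. -/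
noncomputable def size {l : ℕ} (L : Fin l → Form V) : ℕ :=
  l + {ψ | ∃ i, ψ ∈ (L i).parts}.ncard

/-- A literal as a formula. -/
def lit : V × Bool → Form V
  | (v, true) => .var v
  | (v, false) => .neg (.var v)

/-- A clause as a formula. -/
def clause (C : List (V × Bool)) : Form V := disjL (C.map lit)

/-- A formula in conjunctive normal form as a formula. -/
def cnf (F : List (List (V × Bool))) : Form V := conjL (F.map clause)

end Pool.Agent.MP_9cec2c_lc.FG
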