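import Mathlib
import Pool.Agent.Lib.MP_9cec2c_lc.FGDefs

/-!
The formulas: the Tseitin contradictions modulo `r` on the complete graph `K_N` in conjunctive
normal form, and the disjunction of two of them.
-/

set_option autoImplicit false

namespace Pool.Agent.MP_9cec2c_lc.Flat

open Finset

/-- Edges of the complete graph on `Fin N`. -/
abbrev Edge (N : ℕ) : Type := {e : Fin N × Fin N // e.1 < e.2}

/-- The edge `{u,w}`. -/
def mkEdge {N : ℕ} (u w : Fin N) (h : u ≠ w) : Edge N :=
  if h' : u < w then ⟨(u, w), h'⟩ else ⟨(w, u), lt_of_le_of_ne (not_lt.1 h') (Ne.symm h)⟩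

/-- Variables: `x_e` for the edges, `y_{v,j}` for the sum over the edges from `v` to the vertices
`u < j`. -/
abbrev TVar (N : ℕ) : Type := Edge N ⊕ (Fin N × Fin (N + 1))

/-- The support of the equation `y_{v,u+1} = y_{v,u} + x_{vu}` (without `x` if `u = v`). -/
def stepSet {N : ℕ} (v u : Fin N) : Finset (TVar N) :=
  if h : v = u then {Sum.inr (v, u.castSucc), Sum.inr (v, u.succ)}
  else {Sum.inr (v, u.castSucc), Sum.inr (v, u.succ), Sum.inl (mkEdge v u h)}

section Equations

variable {V : Type} [DecidableEq V] {r : ℕ} [NeZero r]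

/-- The clauses which say that the variable `i` has exactly one value. -/
def valueClauses (r : ℕ) [NeZero r] (i : V) : Finset (Finset ((V × ZMod r) × Bool)) :=
  insert (univ.image fun c => ((i, c), true))
    ((univ.filter fun q : ZMod r × ZMod r => q.1 ≠ q.2).image
      fun q => {((i, q.1), false), ((i, q.2), false)})

/-- The clause which forbids that the variables `i` of the set `C` have the values `a i`. -/
def forbid2 (C : Finset V) (a : C → ZMod r) : Finset ((V × ZMod r) × Bool) :=
  univ.image fun i : C => (((i : V), a i), false)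

/-- The clauses of the linear equation `∑ i ∈ C, T i * i = c` modulo `r`. -/
def eqClauses (C : Finset V) (T : V → ZMod r) (c : ZMod r) :
    Finset (Finset ((V × ZMod r) × Bool)) :=
  (univ.filter fun a : C → ZMod r => ∑ i : C, T i * a i ≠ c).image (forbid2 C)

end Equations

/-- The coefficients of the equation `y_{v,u+1} - y_{v,u} - s * x_{vu} = 0`, where `s = 1` if
`v < u` and `s = -1` if `u < v` (and `s = 0` if `u = v`). -/
def stepVec {N : ℕ} (r : ℕ) (v u : Fin N) (i : TVar N) : ZMod r :=
  if i = Sum.inr (v, u.succ) then 1 else if i = Sum.inr (v, u.castSucc) then -1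
  else if v < u then -1 else 1

instance decidableEqOVar (N r : ℕ) : DecidableEq (TVar N × ZMod r) := inferInstance

/-- The Tseitin contradiction modulo `r`: `y_{v,0} = 0`, `y_{v,u+1} = y_{v,u} + x_{vu}` for `v < u`,
`y_{v,u+1} = y_{v,u} - x_{vu}` for `u < v`, `y_{v,v+1} = y_{v,v}`, `y_{v,N} = b_v`. -/
def tseitinMod (N r : ℕ) [NeZero r] (b : Fin N → ZMod r) :
    Finset (Finset ((TVar N × ZMod r) × Bool)) :=
  (univ.biUnion fun i : TVar N => valueClauses r i) ∪
  (univ.biUnion fun v : Fin N => eqClauses {Sum.inr (v, 0)} 1 0) ∪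
  (univ.biUnion fun q : Fin N × Fin N => eqClauses (stepSet q.1 q.2) (stepVec r q.1 q.2) 0) ∪
  (univ.biUnion fun v : Fin N => eqClauses {Sum.inr (v, Fin.last N)} 1 (b v))

/-- The disjunction of two CNFs on disjoint sets of variables: the clauses are the unions of a
clause of the first and a clause of the second. -/
def orCNF {V V' : Type} [DecidableEq V] [DecidableEq V'] (F : Finset (Finset (V × Bool)))
    (G : Finset (Finset (V' × Bool))) : Finset (Finset ((V ⊕ V') × Bool)) :=
  (F ×ˢ G).image fun q =>
    (q.1.image fun l => (Sum.inl l.1, l.2)) ∪ (q.2.image fun l => (Sum.inr l.1, l.2))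

end Pool.Agent.MP_9cec2c_lc.Flat

namespace Pool.Agent.MP_9cec2c_lc.FG

open Flat (TVar tseitinMod orCNF)

/-- A set of clauses as a list of lists. -/
noncomputable def listCNF {V : Type} (F : Finset (Finset (V × Bool))) : List (List (V × Bool)) :=
  F.toList.map Finset.toList

/-- The formula: the disjunction of the Tseitin contradictions modulo 2 and modulo 3 on the
complete graph `K_N`, on disjoint sets of variables. -/
noncomputable def theCNF (N : ℕ) (s : Fin N → ZMod 2) (s' : Fin N → ZMod 3) :
    List (List (((TVar N × ZMod 2) ⊕ (TVar N × ZMod 3)) × Bool)) :=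
  listCNF (orCNF (tseitinMod N 2 s) (tseitinMod N 3 s'))

/-- A refutation of the clauses of `F`, or a proof of the tautology `¬ F`, of depth at most `d`. -/
def Refutes {V : Type} (S : Set Rule) (d : ℕ) (F : List (List (V × Bool))) {l : ℕ}
    (L : Fin l → Form V) : Prop :=
  (IsDerivation S d {φ | ∃ D ∈ F, φ = clause D} L ∧ ∃ i, L i = falsum) ∨
    (IsDerivation S d ∅ L ∧ ∃ i, L i = .neg (cnf F))

/-- The residues of all counting gates are less than `p`. -/
def Form.Small {V : Type} (p : ℕ) : Form V → Prop
  | .var _ => True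
  | .neg φ => φ.Small p
  | .conj _ F => ∀ i, (F i).Small p
  | .disj _ F => ∀ i, (F i).Small p
  | .count r _ F => r < p ∧ ∀ i, (F i).Small p

end Pool.Agent.MP_9cec2c_lc.FG
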