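import Mathlib
import Pool.Agent.Lib.MP_9cec2c_lc.AZDefs
import Pool.Agent.Lib.MP_9cec2c_lc.Mg.G010

/-!
Short refutations with parity gates (the modulus 2): every unsatisfiable system of linear equations
modulo 2 with at most three variables in each equation and with the property that the sum of all
equations is `0 = 1` has a refutation of depth 1 with a linear number of lines; in particular the
Tseitin formulas on the complete graph have refutations of depth 1 and size `O(N^2)`.
-/

set_option autoImplicit false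

namespace Pool.Agent.MP_9cec2c_lc.AZ

open Flat

section general

variable {V : Type} {p : ℕ} {b : ℕ} {F : Set (Clause V)}

theorem easy_step_mono {P Q : Line V p → Prop} (hPQ : ∀ Γ, P Γ → Q Γ) {Γ : Line V p}
    (h : Step b F P Γ) : Step b F Q Γ := by
  cases h with
  | clause hC h => exact .clause hC h
  | ax hb h => exact .ax hb h
  | weak h hs => exact .weak (hPQ _ h) hs
  | cut φ h h' => exact .cut φ (hPQ _ h) (hPQ _ h')
  | or i h => exact .or i (hPQ _ h)
  | negOr h => exact .negOr fun i => hPQ _ (h i)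
  | and h => exact .and fun i => hPQ _ (h i)
  | negAnd i h => exact .negAnd i (hPQ _ h)

/-- Every line of the list follows from the later lines of the list. -/
def EOk (b : ℕ) (F : Set (Clause V)) : List (Line V p) → Prop
  | [] => True
  | Γ :: ls => Step b F (fun Δ => Δ ∈ ls) Γ ∧ EOk b F ls

theorem easy_ok_get {ls : List (Line V p)} (h : EOk b F ls) :
    ∀ (k : ℕ) (hk : k < ls.length),
      Step b F (fun Δ => ∃ (j : ℕ) (hj : j < ls.length), k < j ∧ ls[j] = Δ) ls[k] := by
  induction ls with
  | nil => intro k hk; simp at hk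
  | cons Γ ls ih =>
    intro k hk
    obtain ⟨h1, h2⟩ := h
    cases k with
    | zero =>
      refine easy_step_mono (fun Δ hΔ => ?_) h1
      obtain ⟨j, hj, hjΔ⟩ := List.getElem_of_mem hΔ
      exact ⟨j + 1, by simpa using hj, Nat.succ_pos _, by simpa using hjΔ⟩
    | succ k =>
      have hk' : k < ls.length := by simpa using hk
      refine easy_step_mono (fun Δ hΔ => ?_) (ih h2 k hk')
      obtain ⟨j, hj, hkj, hjΔ⟩ := hΔ
      exact ⟨j + 1, by simpa using hj, Nat.succ_lt_succ hkj, by simpa using hjΔ⟩

theorem easy_derivation {ls : List (Line V p)} (h : EOk b F ls) {d : ℕ}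
    (hd : ∀ Γ ∈ ls, ∀ φ ∈ Γ, φ.depth ≤ d) {Γ : Line V p} (hΓ : Γ ∈ ls) :
    IsDerivation b F d (fun i : Fin ls.length => ls.get (Fin.rev i)) Γ := by
  refine ⟨fun i => ?_, fun i φ hφ => hd _ (List.get_mem _ _) φ hφ, ?_⟩
  · refine easy_step_mono (fun Δ hΔ => ?_) (easy_ok_get h (Fin.rev i).1 (Fin.rev i).2)
    obtain ⟨j, hj, hkj, hjΔ⟩ := hΔ
    refine ⟨Fin.rev ⟨j, hj⟩, ?_, ?_⟩
    · rw [Fin.lt_def, Fin.val_rev]
      rw [Fin.val_rev] at hkj
      simp only
      omega
    · simp only [Fin.rev_rev]
      exact hjΔ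
  · obtain ⟨j, hj, hjΓ⟩ := List.getElem_of_mem hΓ
    refine ⟨Fin.rev ⟨j, hj⟩, ?_⟩
    simp only [Fin.rev_rev]
    exact hjΓ

/-- A line which is an axiom or contains a clause. -/
def EBase (b : ℕ) (F : Set (Clause V)) (Γ : Line V p) : Prop :=
  (∃ C ∈ F, ∀ l ∈ C, Fm.lit l ∈ Γ) ∨
    (Γ.length ≤ b ∧ ∀ ν : Set (Fm V p), Respects ν → ∃ φ ∈ Γ, φ ∈ ν)

theorem easy_base_step {Γ : Line V p} (h : EBase b F Γ) (P : Line V p → Prop) :
    Step b F P Γ := by
  rcases h with ⟨C, hC, h⟩ | ⟨hb, h⟩
  · exact .clause hC h
  · exact .ax hb h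

theorem easy_base_perm {Γ Δ : Line V p} (hp : Γ.Perm Δ) (h : EBase b F Γ) : EBase b F Δ := by
  rcases h with ⟨C, hC, h⟩ | ⟨hb, h⟩
  · exact Or.inl ⟨C, hC, fun l hl => hp.mem_iff.1 (h l hl)⟩
  · refine Or.inr ⟨hp.length_eq ▸ hb, fun ν hν => ?_⟩
    obtain ⟨φ, h1, h2⟩ := h ν hν
    exact ⟨φ, hp.mem_iff.1 h1, h2⟩

/-- The literals on the variables of `l` which are false under `a`. -/
def elits (l : List V) (a : V → Bool) : Line V p := l.map fun v => Fm.lit (v, !a v)

theorem easy_elits_congr {l : List V} {a a' : V → Bool} (h : ∀ v ∈ l, a v = a' v) :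
    (elits l a : Line V p) = elits l a' := by
  refine List.map_congr_left fun v hv => ?_
  rw [h v hv]

/-- Cuts on the variables of a list. -/
theorem easy_cuts [DecidableEq V] {l : List V} (hl : l.Nodup) :
    ∀ (Γ : Line V p), (∀ a : V → Bool, EBase b F (elits l a ++ Γ)) →
      ∀ ls : List (Line V p), EOk b F ls → ∃ ls' : List (Line V p),
        EOk b F (ls' ++ ls) ∧ Γ ∈ ls' ++ ls ∧ ls'.length + 1 ≤ 2 ^ (l.length + 1) ∧
          ∀ Δ ∈ ls', ∀ φ ∈ Δ, φ ∈ Γ ∨ ∃ v : V, φ = Fm.var v ∨ φ = Fm.neg (Fm.var v) := by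
  induction l with
  | nil =>
    intro Γ hΓ ls hls
    refine ⟨[Γ], ⟨easy_base_step ?_ _, hls⟩, by simp, by simp, ?_⟩
    · exact hΓ fun _ => true
    · intro Δ hΔ φ hφ
      rw [List.mem_singleton] at hΔ
      exact Or.inl (hΔ ▸ hφ)
  | cons v l ih =>
    intro Γ hΓ ls hls
    obtain ⟨hv, hl'⟩ := List.nodup_cons.1 hl
    have key : ∀ s : Bool, ∀ a : V → Bool, EBase b F (elits l a ++ Fm.lit (v, s) :: Γ) := by
      intro s a
      have h1 := hΓ (Function.update a v (!s))
      have h2 : (elits (v :: l) (Function.update a v (!s)) : Line V p) =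
          Fm.lit (v, s) :: elits l a := by
        change Fm.lit (v, !(Function.update a v (!s) v)) ::
          elits l (Function.update a v (!s)) = _
        rw [Function.update_self, Bool.not_not]
        congr 1
        refine easy_elits_congr fun w hw => ?_
        have hwv : w ≠ v := fun h => hv (h ▸ hw)
        rw [Function.update_of_ne hwv]
      rw [h2] at h1
      refine easy_base_perm ?_ h1
      exact List.perm_middle.symm
    obtain ⟨l1, h1, h2, h3, h4⟩ := ih hl' (Fm.lit (v, true) :: Γ) (key true) ls hls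
    obtain ⟨l2, g1, g2, g3, g4⟩ := ih hl' (Fm.lit (v, false) :: Γ) (key false) (l1 ++ ls) h1
    refine ⟨Γ :: (l2 ++ l1), ?_, by simp, ?_, ?_⟩
    · have e1 : (Γ :: (l2 ++ l1)) ++ ls = Γ :: (l2 ++ (l1 ++ ls)) := by simp
      rw [e1]
      refine ⟨.cut (Fm.var v) ?_ ?_, g1⟩
      · have : (Fm.lit (v, true) : Fm V p) :: Γ ∈ l2 ++ (l1 ++ ls) :=
          List.mem_append_right _ h2
        simpa [Fm.lit] using this
      · have : (Fm.lit (v, false) : Fm V p) :: Γ ∈ l2 ++ (l1 ++ ls) := g2
        simpa [Fm.lit] using this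
    · have e2 : (Γ :: (l2 ++ l1)).length = l2.length + l1.length + 1 := by simp
      have e3 : 2 ^ ((v :: l).length + 1) = 2 ^ (l.length + 1) + 2 ^ (l.length + 1) := by
        rw [List.length_cons, pow_succ 2 (l.length + 1)]
        ring
      rw [e2, e3]
      omega
    · intro Δ hΔ φ hφ
      rcases List.mem_cons.1 hΔ with rfl | hΔ
      · exact Or.inl hφ
      · rcases List.mem_append.1 hΔ with hΔ | hΔ
        · rcases g4 Δ hΔ φ hφ with h | h
          · rcases List.mem_cons.1 h with rfl | h
            · exact Or.inr ⟨v, Or.inr (by simp [Fm.lit])⟩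
            · exact Or.inl h
          · exact Or.inr h
        · rcases h4 Δ hΔ φ hφ with h | h
          · rcases List.mem_cons.1 h with rfl | h
            · exact Or.inr ⟨v, Or.inl (by simp [Fm.lit])⟩
            · exact Or.inl h
          · exact Or.inr h

end general

section two

variable {V : Type}

/-- The counting gate with residue `r` over the variables of the list `l`. -/
def ml (r : ZMod 2) (l : List V) : Fm V 2 :=
  Fm.mod r fun i : Fin l.length => Fm.var (l.get i)

open Classical in
/-- The value of a variable under a truth assignment. -/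
noncomputable def eval (ν : Set (Fm V 2)) (v : V) : ZMod 2 := if Fm.var v ∈ ν then 1 else 0

theorem easy_ml_mem {ν : Set (Fm V 2)} (hν : Respects ν) (r : ZMod 2) (l : List V) :
    ml r l ∈ ν ↔ (l.map (eval ν)).sum = r := by
  classical
  unfold ml
  rw [hν.2]
  have h1 : Set.ncard {i : Fin l.length | Fm.var (l.get i) ∈ ν} =
      (Finset.univ.filter fun i : Fin l.length => Fm.var (l.get i) ∈ ν).card := by
    rw [← Set.ncard_coe_finset]
    congr 1
    ext i
    simp
  have h2 : ((Set.ncard {i : Fin l.length | Fm.var (l.get i) ∈ ν} : ℕ) : ZMod 2) =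
      (l.map (eval ν)).sum := by
    rw [h1, Finset.card_filter]
    push_cast
    have h3 : (l.map (eval ν)) = List.ofFn fun i : Fin l.length => eval ν (l.get i) := by
      conv_lhs => rw [← List.ofFn_get l]
      rw [List.map_ofFn]
      rfl
    rw [h3, List.sum_ofFn]
    rfl
  rw [h2]

/-- An equation modulo 2: the support and the right side. -/
abbrev Eqn (V : Type) : Type := Finset V × ZMod 2

/-- The counting gate of an equation. -/
noncomputable def eM (e : Eqn V) : Fm V 2 := ml e.2 e.1.toList

/-- The counting gate of the sum of several equations. -/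
noncomputable def eP (es : List (Eqn V)) : Fm V 2 :=
  ml (es.map Prod.snd).sum (es.flatMap fun e => e.1.toList)

/-- The formulas of the refutation. -/
def eT (E : List (Eqn V)) : Set (Fm V 2) :=
  match E with
  | [] => {eP [], Fm.neg (eP [])}
  | e :: es => {eM e, Fm.neg (eM e), eP (e :: es), Fm.neg (eP (e :: es))} ∪ eT es

/-- The literals. -/
def eLit (V : Type) : Set (Fm V 2) :=
  Set.range (fun v : V => (Fm.var v : Fm V 2)) ∪ Set.range fun v : V => (Fm.neg (Fm.var v) : Fm V 2)

theorem easy_P_mem {ν : Set (Fm V 2)} (hν : Respects ν) (es : List (Eqn V)) :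
    eP es ∈ ν ↔ (es.map fun e => (e.1.toList.map (eval ν)).sum).sum = (es.map Prod.snd).sum := by
  unfold eP
  rw [easy_ml_mem hν]
  have h : ((es.flatMap fun e => e.1.toList).map (eval ν)).sum =
      (es.map fun e => (e.1.toList.map (eval ν)).sum).sum := by
    induction es with
    | nil => simp
    | cons e es ih => simp [List.flatMap_cons, List.map_append, List.sum_append, ih]
  rw [h]

theorem easy_M_mem {ν : Set (Fm V 2)} (hν : Respects ν) (e : Eqn V) :
    eM e ∈ ν ↔ (e.1.toList.map (eval ν)).sum = e.2 := easy_ml_mem hν _ _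

/-- The lines on which the gate of an equation is derived. -/
theorem easy_base_eqn [DecidableEq V] {b : ℕ} {F : Set (Clause V)} (hb : 4 ≤ b) {e : Eqn V}
    (he : e.1.card ≤ 3) (hF : ∀ K ∈ parityClauses e.1 e.2, K ∈ F) (a : V → Bool) :
    EBase b F (elits e.1.toList a ++ [eM e]) := by
  classical
  by_cases hA : (((e.1.filter fun v => a v = true).card : ℕ) : ZMod 2) = e.2
  · refine Or.inr ⟨?_, fun ν hν => ?_⟩
    · rw [List.length_append, elits, List.length_map, Finset.length_toList]
      simp only [List.length_singleton]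
      omega
    · by_contra hcon
      push Not at hcon
      have h1 : eM e ∉ ν := hcon _ (by simp)
      rw [easy_M_mem hν] at h1
      apply h1
      rw [← hA]
      have h2 : ∀ v ∈ e.1.toList, eval ν v = if a v = true then 1 else 0 := by
        intro v hv
        have h3 : (Fm.lit (v, !a v) : Fm V 2) ∉ ν := by
          refine hcon _ (List.mem_append_left _ ?_)
          exact List.mem_map.2 ⟨v, hv, rfl⟩
        unfold eval
        cases hav : a v with
        | true =>
          rw [hav] at h3
          simp only [Fm.lit, Bool.not_true, Bool.false_eq_true, if_false] at h3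
          have h4 : Fm.var v ∈ ν := by
            by_contra h5
            exact h3 ((hν.1 _).2 h5)
          rw [if_pos h4]
          simp
        | false =>
          rw [hav] at h3
          simp only [Fm.lit, Bool.not_false, if_true] at h3
          rw [if_neg h3]
          simp
      rw [List.map_congr_left h2, Finset.card_filter]
      push_cast
      rw [Finset.sum_map_toList]
  · refine Or.inl ⟨forbid e.1 (e.1.filter fun v => a v = true), hF _ ?_, fun l hl => ?_⟩
    · exact Finset.mem_image.2 ⟨_, Finset.mem_filter.2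
        ⟨Finset.mem_powerset.2 (Finset.filter_subset _ _), hA⟩, rfl⟩
    · obtain ⟨v, hv, rfl⟩ := Finset.mem_image.1 hl
      refine List.mem_append_left _ (List.mem_map.2 ⟨v, Finset.mem_toList.2 hv, ?_⟩)
      cases hav : a v with
      | true => simp [Fm.lit, hav, hv]
      | false => simp [Fm.lit, hav]

/-- The counting gate of the sum of the equations is derived. -/
theorem easy_chain [DecidableEq V] {b : ℕ} {F : Set (Clause V)} (hb : 4 ≤ b)
    (es : List (Eqn V)) (h3 : ∀ e ∈ es, e.1.card ≤ 3)
    (hF : ∀ e ∈ es, ∀ K ∈ parityClauses e.1 e.2, K ∈ F) :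
    ∃ ls : List (Line V 2), EOk b F ls ∧ [eP es] ∈ ls ∧ ls.length ≤ 20 * es.length + 1 ∧
      ∀ Δ ∈ ls, ∀ φ ∈ Δ, φ ∈ eLit V ∪ eT es := by
  induction es with
  | nil =>
    refine ⟨[[eP []]], ⟨.ax (by simp; omega) fun ν hν => ⟨_, List.mem_singleton_self _, ?_⟩,
      trivial⟩, by simp, by simp, fun Δ hΔ φ hφ => ?_⟩
    · rw [easy_P_mem hν]
      simp
    · rw [List.mem_singleton] at hΔ
      subst hΔ
      rw [List.mem_singleton] at hφ
      subst hφ
      exact Or.inr (Or.inl rfl)
  | cons e es ih =>
    obtain ⟨ls, g1, g2, g3, g4⟩ := ih (fun e' he' => h3 e' (List.mem_cons_of_mem _ he'))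
      fun e' he' => hF e' (List.mem_cons_of_mem _ he')
    obtain ⟨l1, k1, k2, k3, k4⟩ := easy_cuts (b := b) (F := F) (Finset.nodup_toList e.1) [eM e]
      (fun a => easy_base_eqn hb (h3 e (List.mem_cons_self ..))
        (hF e (List.mem_cons_self ..)) a) ls g1
    have hM : eM e ∈ eT (e :: es) := Or.inl (by simp)
    have hM' : Fm.neg (eM e) ∈ eT (e :: es) := Or.inl (by simp)
    have hP : eP (e :: es) ∈ eT (e :: es) := Or.inl (by simp)
    have hP0 : eP es ∈ eT (e :: es) := by
      refine Or.inr ?_
      cases es with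
      | nil => exact Or.inl rfl
      | cons e' es' => exact Or.inl (by simp)
    have hP0' : Fm.neg (eP es) ∈ eT (e :: es) := by
      refine Or.inr ?_
      cases es with
      | nil => exact Or.inr rfl
      | cons e' es' => exact Or.inl (by simp)
    obtain ⟨Γ1, hΓ1⟩ : ∃ Γ1 : Line V 2, Γ1 = [Fm.neg (eM e), Fm.neg (eP es), eP (e :: es)] :=
      ⟨_, rfl⟩
    obtain ⟨Γ2, hΓ2⟩ : ∃ Γ2 : Line V 2, Γ2 = [eM e, Fm.neg (eP es), eP (e :: es)] := ⟨_, rfl⟩
    obtain ⟨Γ3, hΓ3⟩ : ∃ Γ3 : Line V 2, Γ3 = [Fm.neg (eP es), eP (e :: es)] := ⟨_, rfl⟩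
    obtain ⟨Γ4, hΓ4⟩ : ∃ Γ4 : Line V 2, Γ4 = [eP es, eP (e :: es)] := ⟨_, rfl⟩
    refine ⟨[eP (e :: es)] :: Γ4 :: Γ3 :: Γ2 :: Γ1 :: (l1 ++ ls), ?_, by simp, ?_, ?_⟩
    · refine ⟨.cut (eP es) (by simp [hΓ4]) (by simp [hΓ3]),
        .weak (Γ := [eP es]) (by simp [g2]) (by simp [hΓ4]),
        .cut (eM e) (by simp [hΓ3, hΓ2]) (by simp [hΓ3, hΓ1]),
        .weak (Γ := [eM e]) ?_ (by simp [hΓ2]),
        .ax (by rw [hΓ1]; simp only [List.length_cons, List.length_nil]; omega) ?_, k1⟩
      · exact List.mem_cons_of_mem _ k2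
      · intro ν hν
        by_contra hcon
        push Not at hcon
        have h5 : Fm.neg (eM e) ∉ ν := hcon _ (by simp [hΓ1])
        have h6 : Fm.neg (eP es) ∉ ν := hcon _ (by simp [hΓ1])
        have h7 : eP (e :: es) ∉ ν := hcon _ (by simp [hΓ1])
        rw [hν.1, not_not, easy_M_mem hν] at h5
        rw [hν.1, not_not, easy_P_mem hν] at h6
        rw [easy_P_mem hν] at h7
        apply h7
        rw [List.map_cons, List.sum_cons, List.map_cons, List.sum_cons, h5, h6]
    · have e1 : ([eP (e :: es)] :: Γ4 :: Γ3 :: Γ2 :: Γ1 :: (l1 ++ ls)).length =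
          l1.length + ls.length + 5 := by
        simp only [List.length_cons, List.length_append]
      have e2 : 2 ^ (e.1.toList.length + 1) ≤ 16 := by
        rw [Finset.length_toList]
        calc 2 ^ (e.1.card + 1) ≤ 2 ^ (3 + 1) :=
              Nat.pow_le_pow_right (by norm_num) (Nat.succ_le_succ (h3 e (List.mem_cons_self ..)))
          _ = 16 := by norm_num
      rw [e1, List.length_cons]
      omega
    · intro Δ hΔ φ hφ
      have hsmall : ∀ Δ' ∈ [[eP (e :: es)], Γ4, Γ3, Γ2, Γ1], ∀ φ ∈ Δ', φ ∈ eT (e :: es) := by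
        intro Δ' hΔ' φ' hφ'
        simp only [List.mem_cons, List.not_mem_nil, or_false] at hΔ'
        rcases hΔ' with rfl | rfl | rfl | rfl | rfl
        · rw [List.mem_singleton] at hφ'
          rw [hφ']
          exact hP
        · simp only [hΓ4, List.mem_cons, List.not_mem_nil, or_false] at hφ'
          rcases hφ' with rfl | rfl
          · exact hP0
          · exact hP
        · simp only [hΓ3, List.mem_cons, List.not_mem_nil, or_false] at hφ'
          rcases hφ' with rfl | rfl
          · exact hP0'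
          · exact hP
        · simp only [hΓ2, List.mem_cons, List.not_mem_nil, or_false] at hφ'
          rcases hφ' with rfl | rfl | rfl
          · exact hM
          · exact hP0'
          · exact hP
        · simp only [hΓ1, List.mem_cons, List.not_mem_nil, or_false] at hφ'
          rcases hφ' with rfl | rfl | rfl
          · exact hM'
          · exact hP0'
          · exact hP
      have e3 : [eP (e :: es)] :: Γ4 :: Γ3 :: Γ2 :: Γ1 :: (l1 ++ ls) =
          [[eP (e :: es)], Γ4, Γ3, Γ2, Γ1] ++ (l1 ++ ls) := rfl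
      rw [e3] at hΔ
      rcases List.mem_append.1 hΔ with hΔ | hΔ
      · exact Or.inr (hsmall Δ hΔ φ hφ)
      · rcases List.mem_append.1 hΔ with hΔ | hΔ
        · rcases k4 Δ hΔ φ hφ with h | ⟨v, rfl | rfl⟩
          · rw [List.mem_singleton] at h
            rw [h]
            exact Or.inr hM
          · exact Or.inl (Or.inl ⟨v, rfl⟩)
          · exact Or.inl (Or.inr ⟨v, rfl⟩)
        · rcases g4 Δ hΔ φ hφ with h | h
          · exact Or.inl h
          · exact Or.inr (Or.inr h)

theorem easy_T_fin (es : List (Eqn V)) :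
    (eT es).Finite ∧ (eT es).ncard ≤ 4 * es.length + 2 := by
  induction es with
  | nil =>
    refine ⟨by unfold eT; exact Set.toFinite _, ?_⟩
    unfold eT
    refine (Set.ncard_insert_le _ _).trans ?_
    rw [Set.ncard_singleton]
    simp
  | cons e es ih =>
    unfold eT
    refine ⟨(Set.toFinite _).union ih.1, (Set.ncard_union_le _ _).trans ?_⟩
    have h1 : ({eM e, Fm.neg (eM e), eP (e :: es), Fm.neg (eP (e :: es))} :
        Set (Fm V 2)).ncard ≤ 4 := by
      refine (Set.ncard_insert_le _ _).trans ?_
      refine Nat.succ_le_succ ((Set.ncard_insert_le _ _).trans ?_)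
      refine Nat.succ_le_succ ((Set.ncard_insert_le _ _).trans ?_)
      rw [Set.ncard_singleton]
    have h2 := ih.2
    rw [List.length_cons]
    omega

theorem easy_lit_fin [Fintype V] :
    (eLit V).Finite ∧ (eLit V).ncard ≤ 2 * Fintype.card V := by
  unfold eLit
  refine ⟨(Set.finite_range _).union (Set.finite_range _), (Set.ncard_union_le _ _).trans ?_⟩
  have h : ∀ f : V → Fm V 2, (Set.range f).ncard ≤ Fintype.card V := by
    intro f
    rw [← Set.image_univ]
    refine (Set.ncard_image_le Set.finite_univ).trans ?_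
    rw [Set.ncard_univ, Nat.card_eq_fintype_card]
  have h1 := h fun v => Fm.var v
  have h2 := h fun v => Fm.neg (Fm.var v)
  omega

theorem easy_ml_subs (r : ZMod 2) (l : List V) {ψ : Fm V 2} (h : ψ ∈ (ml r l).subs) :
    ψ = ml r l ∨ ψ ∈ eLit V := by
  unfold ml at h
  rw [Fm.subs] at h
  rcases h with h | h
  · exact Or.inl h
  · rw [Set.mem_iUnion] at h
    obtain ⟨i, hi⟩ := h
    rw [Fm.subs] at hi
    exact Or.inr (Or.inl ⟨l.get i, hi.symm⟩)

theorem easy_neg_ml_subs (r : ZMod 2) (l : List V) {ψ : Fm V 2}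
    (h : ψ ∈ (Fm.neg (ml r l)).subs) : ψ = Fm.neg (ml r l) ∨ ψ = ml r l ∨ ψ ∈ eLit V := by
  rw [Fm.subs] at h
  rcases h with h | h
  · exact Or.inl h
  · exact Or.inr (easy_ml_subs r l h)

theorem easy_T_subs (es : List (Eqn V)) {φ ψ : Fm V 2} (hφ : φ ∈ eT es) (h : ψ ∈ φ.subs) :
    ψ ∈ eLit V ∪ eT es := by
  induction es with
  | nil =>
    rcases hφ with rfl | hφ
    · rcases easy_ml_subs _ _ h with h | h
      · exact Or.inr (Or.inl h)
      · exact Or.inl h
    · rw [Set.mem_singleton_iff] at hφ
      subst hφ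
      rcases easy_neg_ml_subs _ _ h with h | h | h
      · exact Or.inr (Or.inr h)
      · exact Or.inr (Or.inl h)
      · exact Or.inl h
  | cons e es ih =>
    rcases hφ with hφ | hφ
    · simp only [Set.mem_insert_iff, Set.mem_singleton_iff] at hφ
      rcases hφ with rfl | rfl | rfl | rfl
      · rcases easy_ml_subs _ _ h with h | h
        · refine Or.inr (Or.inl ?_)
          left
          exact h
        · exact Or.inl h
      · rcases easy_neg_ml_subs _ _ h with h | h | h
        · refine Or.inr (Or.inl ?_)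
          right; left
          exact h
        · refine Or.inr (Or.inl ?_)
          left
          exact h
        · exact Or.inl h
      · rcases easy_ml_subs _ _ h with h | h
        · refine Or.inr (Or.inl ?_)
          right; right; left
          exact h
        · exact Or.inl h
      · rcases easy_neg_ml_subs _ _ h with h | h | h
        · refine Or.inr (Or.inl ?_)
          right; right; right
          exact h
        · refine Or.inr (Or.inl ?_)
          right; right; left
          exact h
        · exact Or.inl h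
    · rcases ih hφ with h | h
      · exact Or.inl h
      · exact Or.inr (Or.inr h)

theorem easy_lit_subs {φ ψ : Fm V 2} (hφ : φ ∈ eLit V) (h : ψ ∈ φ.subs) : ψ ∈ eLit V := by
  rcases hφ with ⟨v, rfl⟩ | ⟨v, rfl⟩
  · simp only [Fm.subs, Set.mem_singleton_iff] at h
    exact Or.inl ⟨v, h.symm⟩
  · simp only [Fm.subs, Set.singleton_union, Set.mem_insert_iff, Set.mem_singleton_iff] at h
    rcases h with h | h
    · exact Or.inr ⟨v, h.symm⟩
    · exact Or.inl ⟨v, h.symm⟩

theorem easy_depth {es : List (Eqn V)} {φ : Fm V 2} (h : φ ∈ eLit V ∪ eT es) : φ.depth ≤ 1 := by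
  have hml : ∀ (r : ZMod 2) (l : List V), (ml r l).depth ≤ 1 := by
    intro r l
    unfold ml
    rw [Fm.depth]
    have : (Finset.univ.sup fun i : Fin l.length => (Fm.var (l.get i) : Fm V 2).depth) = 0 := by
      refine Nat.le_zero.1 (Finset.sup_le fun i _ => ?_)
      rw [Fm.depth]
    rw [this]
  have hPd : ∀ es : List (Eqn V), (eP es).depth ≤ 1 := fun es => by
    unfold eP
    exact hml _ _
  have hMd : ∀ e : Eqn V, (eM e).depth ≤ 1 := fun e => by
    unfold eM
    exact hml _ _
  rcases h with (⟨v, rfl⟩ | ⟨v, rfl⟩) | h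
  · simp [Fm.depth]
  · simp [Fm.depth]
  · induction es with
    | nil =>
      rcases h with rfl | h
      · exact hPd _
      · rw [Set.mem_singleton_iff] at h
        subst h
        exact hPd _
    | cons e es ih =>
      rcases h with h | h
      · simp only [Set.mem_insert_iff, Set.mem_singleton_iff] at h
        rcases h with rfl | rfl | rfl | rfl
        · exact hMd _
        · exact hMd _
        · exact hPd _
        · exact hPd _
      · exact ih h

/-- A system of equations modulo 2 with at most three variables in each equation whose sum is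
`0 = 1` has a refutation of depth 1 with parity gates, of linear size. -/
theorem easy_system [DecidableEq V] [Fintype V] {b : ℕ} {F : Set (Clause V)} (hb : 4 ≤ b)
    (es : List (Eqn V)) (h3 : ∀ e ∈ es, e.1.card ≤ 3)
    (hF : ∀ e ∈ es, ∀ K ∈ parityClauses e.1 e.2, K ∈ F)
    (hsum : (es.map Prod.snd).sum = 1)
    (hzero : ∀ g : V → ZMod 2, (es.map fun e => (e.1.toList.map g).sum).sum = 0) :
    ∃ (l : ℕ) (L : Fin l → Line V 2), IsRefutation b F 1 L ∧
      size L ≤ 24 * es.length + 2 * Fintype.card V + 5 := by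
  obtain ⟨ls, g1, g2, g3, g4⟩ := easy_chain hb es h3 hF
  have hP : eP es ∈ eT es := by
    cases es with
    | nil => exact Or.inl rfl
    | cons e' es' => exact Or.inl (by simp)
  have hP' : Fm.neg (eP es) ∈ eT es := by
    cases es with
    | nil => exact Or.inr rfl
    | cons e' es' => exact Or.inl (by simp)
  have k1 : EOk b F ([] :: [Fm.neg (eP es)] :: ls) := by
    refine ⟨.cut (eP es) (by simp [g2]) (by simp), .ax (by simp; omega) fun ν hν =>
      ⟨_, List.mem_singleton_self _, ?_⟩, g1⟩
    rw [hν.1, easy_P_mem hν, hzero, hsum]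
    decide
  have k2 : ∀ Δ ∈ ([] :: [Fm.neg (eP es)] :: ls : List (Line V 2)), ∀ φ ∈ Δ,
      φ ∈ eLit V ∪ eT es := by
    intro Δ hΔ φ hφ
    rcases List.mem_cons.1 hΔ with rfl | hΔ
    · simp at hφ
    · rcases List.mem_cons.1 hΔ with rfl | hΔ
      · rw [List.mem_singleton] at hφ
        rw [hφ]
        exact Or.inr hP'
      · exact g4 Δ hΔ φ hφ
  refine ⟨_, _, easy_derivation k1 (d := 1) (fun Δ hΔ φ hφ => easy_depth (k2 Δ hΔ φ hφ))
    (by simp), ?_⟩
  unfold size
  have h5 : {ψ | ∃ i : Fin ([] :: [Fm.neg (eP es)] :: ls : List (Line V 2)).length,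
      ∃ φ ∈ ([] :: [Fm.neg (eP es)] :: ls : List (Line V 2)).get (Fin.rev i), ψ ∈ φ.subs} ⊆
      eLit V ∪ eT es := by
    rintro ψ ⟨i, φ, hφ, hψ⟩
    rcases k2 _ (List.get_mem _ _) φ hφ with h | h
    · exact Or.inl (easy_lit_subs h hψ)
    · exact easy_T_subs es h hψ
  have h6 := Set.ncard_le_ncard h5 (easy_lit_fin.1.union (easy_T_fin es).1)
  have h7 := Set.ncard_union_le (eLit V) (eT es)
  have h8 := (easy_lit_fin (V := V)).2
  have h9 := (easy_T_fin es).2
  have h10 : ([] :: [Fm.neg (eP es)] :: ls : List (Line V 2)).length = ls.length + 2 := by simp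
  refine (Nat.add_le_add_left h6 _).trans ?_
  omega

end two

section tse

open Finset

/-- The equations of the Tseitin formula. -/
noncomputable def teqs (N : ℕ) (s : Fin N → ZMod 2) : List (Eqn (TVar N)) :=
  (univ : Finset (Fin N)).toList.map (fun v => ({Sum.inr (v, 0)}, 0)) ++
    ((univ : Finset (Fin N × Fin N)).toList.map (fun q => (stepSet q.1 q.2, 0)) ++
      (univ : Finset (Fin N)).toList.map fun v => ({Sum.inr (v, Fin.last N)}, s v))

theorem easy_char2 (x y : ZMod 2) : x + y + (x + y) = 0 := by
  revert x y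
  decide

theorem easy_step_sum {N : ℕ} (v u : Fin N) (g : TVar N → ZMod 2) :
    ((stepSet v u).toList.map g).sum = g (Sum.inr (v, u.castSucc)) + g (Sum.inr (v, u.succ)) +
      (if h : v = u then 0 else g (Sum.inl (mkEdge v u h))) := by
  have hne : (Sum.inr (v, u.castSucc) : TVar N) ≠ Sum.inr (v, u.succ) := by
    intro h
    have h1 := (Prod.mk.inj (Sum.inr.inj h)).2
    have h2 := congrArg Fin.val h1
    simp at h2
  rw [Finset.sum_map_toList]
  unfold stepSet
  by_cases h : v = u
  · rw [dif_pos h, dif_pos h, sum_pair hne, add_zero]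
  · rw [dif_neg h, dif_neg h, sum_insert (by simp [hne]), sum_pair (by simp), add_assoc]

theorem easy_row {N : ℕ} (v : Fin N) (g : TVar N → ZMod 2) :
    ∑ u : Fin N, (g (Sum.inr (v, u.castSucc)) + g (Sum.inr (v, u.succ))) =
      g (Sum.inr (v, 0)) + g (Sum.inr (v, Fin.last N)) := by
  have h1 := Fin.sum_univ_castSucc fun j : Fin (N + 1) => g (Sum.inr (v, j))
  have h2 := Fin.sum_univ_succ fun j : Fin (N + 1) => g (Sum.inr (v, j))
  rw [sum_add_distrib]
  set A := ∑ u : Fin N, g (Sum.inr (v, u.castSucc))
  set B := ∑ u : Fin N, g (Sum.inr (v, u.succ))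
  set x := g (Sum.inr (v, 0))
  set y := g (Sum.inr (v, Fin.last N))
  have h3 : A + y = x + B := h1.symm.trans h2
  have h4 : ∀ A B x y : ZMod 2, A + y = x + B → A + B = x + y := by decide
  exact h4 A B x y h3

/-- **The Tseitin formulas are easy with parity gates.** -/
theorem tseitin_easy (N : ℕ) (s : Fin N → ZMod 2) (hs : ∑ v, s v = 1) :
    ∃ (l : ℕ) (L : Fin l → Line (TVar N) 2),
      IsRefutation 4 (tseitin N s : Set (Clause (TVar N))) 1 L ∧ size L ≤ 50 * (N + 1) ^ 2 := by
  have key := easy_system (V := TVar N) (b := 4) (F := (tseitin N s : Set (Clause (TVar N))))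
    le_rfl (teqs N s) ?_ ?_ ?_ ?_
  · obtain ⟨l, L, h1, h2⟩ := key
    refine ⟨l, L, h1, h2.trans ?_⟩
    have h3 : (teqs N s).length = N ^ 2 + 2 * N := by
      unfold teqs
      simp only [List.length_append, List.length_map, Finset.length_toList, card_univ,
        Fintype.card_fin, Fintype.card_prod]
      ring
    have h4 : Fintype.card (TVar N) ≤ N ^ 2 + N * (N + 1) := by
      have h5 : Fintype.card (Edge N) ≤ N ^ 2 := by
        refine (Fintype.card_subtype_le _).trans ?_
        rw [Fintype.card_prod, Fintype.card_fin, sq]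
      rw [Fintype.card_sum, Fintype.card_prod, Fintype.card_fin, Fintype.card_fin]
      omega
    rw [h3]
    nlinarith [h4]
  · intro e he
    unfold teqs at he
    rcases List.mem_append.1 he with he | he
    · obtain ⟨v, _, rfl⟩ := List.mem_map.1 he
      simp
    · rcases List.mem_append.1 he with he | he
      · obtain ⟨q, _, rfl⟩ := List.mem_map.1 he
        exact card_stepSet _ _
      · obtain ⟨v, _, rfl⟩ := List.mem_map.1 he
        simp
  · intro e he K hK
    unfold teqs at he
    rcases List.mem_append.1 he with he | he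
    · obtain ⟨v, _, rfl⟩ := List.mem_map.1 he
      exact mem_union_left _ (mem_union_left _ (mem_biUnion.2 ⟨v, mem_univ _, hK⟩))
    · rcases List.mem_append.1 he with he | he
      · obtain ⟨q, _, rfl⟩ := List.mem_map.1 he
        exact mem_union_left _ (mem_union_right _ (mem_biUnion.2 ⟨q, mem_univ _, hK⟩))
      · obtain ⟨v, _, rfl⟩ := List.mem_map.1 he
        exact mem_union_right _ (mem_biUnion.2 ⟨v, mem_univ _, hK⟩)
  · unfold teqs
    rw [List.map_append, List.map_append, List.sum_append, List.sum_append, List.map_map,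
      List.map_map, List.map_map, Finset.sum_map_toList, Finset.sum_map_toList,
      Finset.sum_map_toList]
    simp only [Function.comp_apply, sum_const_zero, zero_add]
    exact hs
  · intro g
    unfold teqs
    rw [List.map_append, List.map_append, List.sum_append, List.sum_append, List.map_map,
      List.map_map, List.map_map, Finset.sum_map_toList, Finset.sum_map_toList,
      Finset.sum_map_toList]
    simp only [Function.comp_apply, Finset.toList_singleton, List.map_cons, List.map_nil,
      List.sum_cons, List.sum_nil, add_zero, easy_step_sum]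
    rw [Fintype.sum_prod_type]
    have h1 : ∀ v : Fin N, ∑ u : Fin N, (g (Sum.inr (v, u.castSucc)) + g (Sum.inr (v, u.succ)) +
        (if h : v = u then 0 else g (Sum.inl (mkEdge v u h)))) =
        (g (Sum.inr (v, 0)) + g (Sum.inr (v, Fin.last N))) +
          ∑ u : Fin N, (if h : v = u then 0 else g (Sum.inl (mkEdge v u h))) := by
      intro v
      rw [sum_add_distrib, easy_row]
    rw [sum_congr rfl fun v _ => h1 v, sum_add_distrib,
      sum_star_zero fun e => g (Sum.inl e), add_zero, sum_add_distrib]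
    set A := ∑ v : Fin N, g (Sum.inr (v, 0))
    set B := ∑ v : Fin N, g (Sum.inr (v, Fin.last N))
    have h4 : ∀ A B : ZMod 2, A + (A + B + B) = 0 := by decide
    exact h4 A B

end tse

end Pool.Agent.MP_9cec2c_lc.AZ
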