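import Pool.Agent.Lib.MP_9cec2c_lc.AZBridge

/-!
Frames whose dimensions grow by a bounded factor only: the size of refutations of depth `d` is
exponential in the `(d + 1)`-th root of the number of levels.
-/

set_option autoImplicit false
set_option linter.unusedSectionVars false

namespace Pool.Agent.MP_9cec2c_lc.AZ

open Finset

section numbers

theorem eps_bound {C S : ℝ} {κ : ℕ} (hC : 1 ≤ C) (hS : 1 ≤ S)
    (hκ : 8 * C * (Real.log S + 1) ≤ κ) :
    S ^ 2 * (2 * (1 - (2 * (2 * C))⁻¹) ^ κ + 2⁻¹ ^ κ) < 1 := by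
  have hS0 : 0 < S := by linarith
  have hlog : 0 ≤ Real.log S := Real.log_nonneg hS
  have hC0 : 0 < C := by linarith
  have h1 : (1 - (2 * (2 * C))⁻¹) ^ κ ≤ Real.exp (-(2 * (Real.log S + 1))) := by
    have h2 : 1 - (2 * (2 * C))⁻¹ ≤ Real.exp (-(2 * (2 * C))⁻¹) := by
      have := Real.add_one_le_exp (-(2 * (2 * C))⁻¹)
      linarith
    have h3 : (0 : ℝ) ≤ 1 - (2 * (2 * C))⁻¹ := by
      have : (2 * (2 * C))⁻¹ ≤ 1 := inv_le_one_of_one_le₀ (by linarith)
      linarith
    refine (pow_le_pow_left₀ h3 h2 κ).trans ?_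
    rw [← Real.exp_nat_mul]
    refine Real.exp_le_exp.2 ?_
    have h4 : 2 * (Real.log S + 1) ≤ κ * (2 * (2 * C))⁻¹ := by
      have h5 : 2 * (Real.log S + 1) = (8 * C * (Real.log S + 1)) * (2 * (2 * C))⁻¹ := by
        field_simp
        ring
      rw [h5]
      exact mul_le_mul_of_nonneg_right hκ (by positivity)
    linarith [h4, mul_neg (κ : ℝ) ((2 * (2 * C))⁻¹)]
  have h2 : (2⁻¹ : ℝ) ^ κ ≤ Real.exp (-(2 * (Real.log S + 1))) := by
    have h3 : (2⁻¹ : ℝ) ≤ Real.exp (-(2⁻¹ : ℝ)) := by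
      have := Real.add_one_le_exp (-(2⁻¹ : ℝ))
      linarith
    refine (pow_le_pow_left₀ (by norm_num) h3 κ).trans ?_
    rw [← Real.exp_nat_mul]
    refine Real.exp_le_exp.2 ?_
    have h4 : 8 * (Real.log S + 1) ≤ κ := by
      refine le_trans ?_ hκ
      have : 8 * 1 * (Real.log S + 1) ≤ 8 * C * (Real.log S + 1) :=
        mul_le_mul_of_nonneg_right (by linarith) (by linarith)
      linarith
    linarith
  have h3 : Real.exp (-(2 * (Real.log S + 1))) = S⁻¹ ^ 2 * Real.exp (-2) := by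
    have h4 : -(2 * (Real.log S + 1)) = -Real.log S + -Real.log S + -2 := by ring
    rw [h4, Real.exp_add, Real.exp_add, Real.exp_neg, Real.exp_log hS0]
    ring
  have h4 : Real.exp (-2) < 1 / 3 := by
    have h5 : Real.exp (-2) = (Real.exp 1)⁻¹ ^ 2 := by
      rw [← Real.exp_neg, ← Real.exp_nat_mul]
      norm_num
    have h6 : 2 ≤ Real.exp 1 := by
      have := Real.add_one_le_exp (1 : ℝ)
      linarith
    have h7 : (Real.exp 1)⁻¹ ≤ 2⁻¹ := inv_anti₀ (by norm_num) h6
    have h8 : (0 : ℝ) ≤ (Real.exp 1)⁻¹ := by positivity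
    rw [h5]
    have h9 : (Real.exp 1)⁻¹ ^ 2 ≤ 2⁻¹ ^ 2 := pow_le_pow_left₀ h8 h7 2
    refine h9.trans_lt (by norm_num)
  have h5 : S ^ 2 * (2 * (1 - (2 * (2 * C))⁻¹) ^ κ + 2⁻¹ ^ κ) ≤
      S ^ 2 * (3 * (S⁻¹ ^ 2 * Real.exp (-2))) := by
    refine mul_le_mul_of_nonneg_left ?_ (by positivity)
    rw [← h3]
    linarith
  refine h5.trans_lt ?_
  have h6 : S ^ 2 * (3 * (S⁻¹ ^ 2 * Real.exp (-2))) = 3 * Real.exp (-2) := by
    field_simp
  rw [h6]
  linarith

end numbers

variable {V : Type} {p : ℕ} {K : Type} [Field K] [Fintype K] {W : Type} [AddCommGroup W]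
  [Module K W] [FiniteDimensional K W]

/-- **Frames with bounded growth.** If the dimension of `N A` is at most `C` times the dimension of
`N 0 ≠ 0`, and the clauses of `F`, of width at most `w`, hold in the frame, then there are
approximations and a space `Z` without 1 for all lines of depth `d` and size at most
`exp ((A / (b + w + 7)) ^ (1 / (d + 1)) / (8 C |K|) - 2)`. -/
theorem frame_killer [CharP K p] [Fintype V] [DecidableEq V] {N : ℕ → Submodule K W}
    {X : V → W →ₗ[K] W} {A : ℕ} (hX : IsFrame N X A) {C : ℝ} (hC : 1 ≤ C)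
    (hpos : 0 < Module.finrank K (N 0))
    (hgrow : (Module.finrank K (N A) : ℝ) ≤ C * Module.finrank K (N 0))
    {F : Set (Clause V)} {b w : ℕ} (hw : ∀ D ∈ F, D.card ≤ w)
    (hF : ∀ D ∈ F, ∃ l : List (V × Bool), l.Nodup ∧ l.toFinset = D ∧
      ∀ x ∈ N 0, l.foldr (fun b x => litOp X b x) x = 0)
    {d : ℕ} {l : ℕ} {L : Fin l → Line V p} (hl : 0 < l) (hd : ∀ i, ∀ φ ∈ L i, φ.depth ≤ d)
    (hsize : (size L : ℝ) ≤
      Real.exp (((A : ℝ) / (b + w + 7)) ^ ((1 : ℝ) / (d + 1)) / (8 * C * Fintype.card K) - 2)) :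
    ∃ (hp : Choice V K) (Z : Submodule K ((V → Bool) → K)) (τ : ℕ → ℕ) (r : ℕ),
      Setting (Pd K V) Z τ b d w r hp ∧ Correct F Z hp d w L ∧ 1 ∉ Z := by
  classical
  have hQ : 1 < Fintype.card K := Fintype.one_lt_card
  obtain ⟨r, hr⟩ : ∃ r : ℝ, r = ((A : ℝ) / (b + w + 7)) ^ ((1 : ℝ) / (d + 1)) := ⟨_, rfl⟩
  rw [← hr] at hsize
  have hA0 : (0 : ℝ) ≤ (A : ℝ) / (b + w + 7) := by positivity
  have hr0 : 0 ≤ r := by rw [hr]; exact Real.rpow_nonneg hA0 _
  have hrpow : r ^ (d + 1) = (A : ℝ) / (b + w + 7) := by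
    rw [hr, ← Real.rpow_natCast, ← Real.rpow_mul hA0]
    push_cast
    rw [one_div, inv_mul_cancel₀ (by positivity), Real.rpow_one]
  have hCQ : 0 < 8 * C * Fintype.card K := by
    have : (0 : ℝ) < Fintype.card K := by exact_mod_cast (by omega : 0 < Fintype.card K)
    positivity
  have hsize1 : (1 : ℝ) ≤ size L := by
    have h1 : 1 ≤ size L := by
      unfold size
      omega
    exact_mod_cast h1
  by_cases hcase : r / (8 * C * Fintype.card K) - 2 < 0
  · have h1 := (Real.exp_lt_exp.2 hcase).trans_eq Real.exp_zero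
    linarith
  · push Not at hcase
    obtain ⟨S, hS⟩ : ∃ S, S = Real.exp (r / (8 * C * Fintype.card K) - 2) := ⟨_, rfl⟩
    rw [← hS] at hsize
    have hlogS : Real.log S = r / (8 * C * Fintype.card K) - 2 := by rw [hS, Real.log_exp]
    have hS1 : 1 ≤ S := by rw [hS]; exact Real.one_le_exp hcase
    obtain ⟨κ, hκ⟩ : ∃ κ, κ = ⌈8 * C * (Real.log S + 1)⌉₊ := ⟨_, rfl⟩
    have hκ1 : 8 * C * (Real.log S + 1) ≤ κ := by rw [hκ]; exact Nat.le_ceil _
    have hlog0 : 0 ≤ Real.log S := Real.log_nonneg hS1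
    have hκpos : 1 ≤ κ := by
      have h1 : (1 : ℝ) ≤ κ := by
        refine le_trans ?_ hκ1
        have h2 : 1 * 1 ≤ 8 * C * (Real.log S + 1) :=
          mul_le_mul (by linarith) (by linarith) (by norm_num) (by linarith)
        linarith
      exact_mod_cast h1
    have hκ2 : (κ : ℝ) ≤ 8 * C * (Real.log S + 2) := by
      have h1 : (κ : ℝ) < 8 * C * (Real.log S + 1) + 1 := by
        rw [hκ]
        exact Nat.ceil_lt_add_one (by positivity)
      nlinarith
    have hκ3 : (κ : ℝ) * Fintype.card K ≤ r := by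
      have h1 : (κ : ℝ) * Fintype.card K ≤ 8 * C * (Real.log S + 2) * Fintype.card K :=
        mul_le_mul_of_nonneg_right hκ2 (Nat.cast_nonneg _)
      have h2 : 8 * C * (Real.log S + 2) * Fintype.card K = r := by
        rw [hlogS]
        field_simp
        ring
      linarith
    have hA : 0 + (κ + 2 * (κ * (Fintype.card K - 1)) + b + 3) *
        (κ * (Fintype.card K - 1)) ^ d + w + 1 ≤ A := by
      obtain ⟨c, hc⟩ : ∃ c, c = κ * (Fintype.card K - 1) := ⟨_, rfl⟩
      have hc1 : 1 ≤ c := by rw [hc]; exact Nat.mul_pos hκpos (by omega)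
      have hκc : κ ≤ c := by rw [hc]; exact Nat.le_mul_of_pos_right _ (by omega)
      rw [← hc]
      have h1 : 0 + (κ + 2 * c + b + 3) * c ^ d + w + 1 ≤ (b + w + 7) * c ^ (d + 1) := by
        have h2 : (κ + 2 * c + b + 3) * c ^ d ≤ (b + 6) * c ^ (d + 1) := by
          rw [pow_succ, mul_comm (c ^ d) c, ← mul_assoc]
          refine Nat.mul_le_mul_right _ ?_
          have h6 : b ≤ b * c := Nat.le_mul_of_pos_right _ hc1
          have h7 : (b + 6) * c = b * c + 6 * c := by ring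
          omega
        have h3 : 1 ≤ c ^ (d + 1) := Nat.one_le_pow _ _ hc1
        have h4 : w + 1 ≤ (w + 1) * c ^ (d + 1) := Nat.le_mul_of_pos_right _ h3
        have h5 : (b + w + 7) * c ^ (d + 1) = (w + 1) * c ^ (d + 1) + (b + 6) * c ^ (d + 1) := by
          ring
        omega
      refine h1.trans ?_
      have h2 : (c : ℝ) ≤ r := by
        refine le_trans ?_ hκ3
        rw [hc]
        push_cast
        refine mul_le_mul_of_nonneg_left ?_ (Nat.cast_nonneg _)
        exact_mod_cast Nat.sub_le _ _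
      have h3 : (c : ℝ) ^ (d + 1) ≤ (A : ℝ) / (b + w + 7) := by
        rw [← hrpow]
        exact pow_le_pow_left₀ (Nat.cast_nonneg _) h2 _
      have h4 : ((b : ℝ) + w + 7) * (c : ℝ) ^ (d + 1) ≤ A := by
        rw [le_div_iff₀ (by positivity)] at h3
        linarith
      exact_mod_cast h4
    have hmonoN : ∀ b, b ≤ A → (Module.finrank K (N b) : ℝ) ≤ C * Module.finrank K (N 0) := by
      intro b hb
      refine le_trans ?_ hgrow
      exact_mod_cast Submodule.finrank_mono (hX.mono b A hb)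
    have hc1 : 1 ≤ κ * (Fintype.card K - 1) := Nat.mul_pos hκpos (by omega)
    refine exists_killer (isWorld hX) (fun v => ?_) (a := 0) (m := κ) (κ := κ) (d := d) (w := w)
      (Λ := 2 * C) (by linarith) hκpos (fun e he j hj => ?_) ?_ hw (fun D hD f hf => ?_) hA
      (eps_bound hC hS1 hκ1) hd hsize
    · rw [← mono_singleton]
      exact mono_mem (card_singleton v).le
    · have hle : 0 + j * (κ * (Fintype.card K - 1)) ^ e ≤ A := by
        have h1 : (κ * (Fintype.card K - 1)) ^ e ≤ (κ * (Fintype.card K - 1)) ^ d :=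
          Nat.pow_le_pow_right hc1 he
        have h2 : j * (κ * (Fintype.card K - 1)) ^ e ≤ κ * (κ * (Fintype.card K - 1)) ^ d :=
          Nat.mul_le_mul hj h1
        have h3 : (κ + 2 * (κ * (Fintype.card K - 1)) + b + 3) * (κ * (Fintype.card K - 1)) ^ d =
          κ * (κ * (Fintype.card K - 1)) ^ d +
            (2 * (κ * (Fintype.card K - 1)) + b + 3) * (κ * (Fintype.card K - 1)) ^ d := by ring
        omega
      rw [rk_eq hX hle, rk_eq hX (Nat.zero_le _)]
      have h1 : 2 * C / 2 = C := by ring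
      rw [h1]
      rcases Nat.eq_zero_or_pos j with rfl | hj0
      · rw [Nat.zero_mul, Nat.zero_add, pow_zero, one_mul]
      · refine (hmonoN _ hle).trans (mul_le_mul_of_nonneg_right ?_ (Nat.cast_nonneg _))
        calc C = C ^ 1 := (pow_one C).symm
          _ ≤ C ^ j := pow_le_pow_right₀ hC hj0
    · rw [rk_eq hX (Nat.zero_le _)]
      exact hpos
    · obtain ⟨l', h1, h2, h3⟩ := hF D hD
      refine fals_smul_mem hX h1 h2 (a := 0) ?_ h3 hf
      have h4 : l'.length ≤ w := by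
        rw [← List.toFinset_card_of_nodup h1, h2]
        exact hw D hD
      omega

/-- **Refutations.** In the situation of `frame_killer` every refutation of `F` of depth `d` has
size more than `exp ((A / (b + w + 7)) ^ (1 / (d + 1)) / (8 C |K|) - 2)`. -/
theorem frame_size [CharP K p] [Fintype V] [DecidableEq V] {N : ℕ → Submodule K W}
    {X : V → W →ₗ[K] W} {A : ℕ} (hX : IsFrame N X A) {C : ℝ} (hC : 1 ≤ C)
    (hpos : 0 < Module.finrank K (N 0))
    (hgrow : (Module.finrank K (N A) : ℝ) ≤ C * Module.finrank K (N 0))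
    {F : Set (Clause V)} {b w : ℕ} (hw : ∀ D ∈ F, D.card ≤ w)
    (hF : ∀ D ∈ F, ∃ l : List (V × Bool), l.Nodup ∧ l.toFinset = D ∧
      ∀ x ∈ N 0, l.foldr (fun b x => litOp X b x) x = 0)
    {d : ℕ} {l : ℕ} {L : Fin l → Line V p} (hL : IsRefutation b F d L) :
    Real.exp (((A : ℝ) / (b + w + 7)) ^ ((1 : ℝ) / (d + 1)) / (8 * C * Fintype.card K) - 2) <
      size L := by
  by_contra hsize
  push Not at hsize
  obtain ⟨i, hi⟩ := hL.2.2
  obtain ⟨hp, Z, τ, r, h1, h2, h3⟩ := frame_killer hX hC hpos hgrow hw hF (b := b) i.pos hL.2.1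
    hsize
  exact h3 (one_mem_Z h1 hL h2)

/-- **Proofs.** In the situation of `frame_killer` every proof of the formula 'some clause of `F` is
false' of depth `d` has size more than
`exp ((A / (b + w + 7)) ^ (1 / (d + 1)) / (8 C |K|) - 2)`. -/
theorem frame_size_proof [CharP K p] [Fintype V] [DecidableEq V] {N : ℕ → Submodule K W}
    {X : V → W →ₗ[K] W} {A : ℕ} (hX : IsFrame N X A) {C : ℝ} (hC : 1 ≤ C)
    (hpos : 0 < Module.finrank K (N 0))
    (hgrow : (Module.finrank K (N A) : ℝ) ≤ C * Module.finrank K (N 0))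
    {F : Finset (Clause V)} {b w : ℕ} (hw : ∀ D ∈ F, D.card ≤ w)
    (hF : ∀ D ∈ F, ∃ l : List (V × Bool), l.Nodup ∧ l.toFinset = D ∧
      ∀ x ∈ N 0, l.foldr (fun b x => litOp X b x) x = 0)
    {d : ℕ} {l : ℕ} {L : Fin l → Line V p} (hL : IsProof b d L (falsified F)) :
    Real.exp (((A : ℝ) / (b + w + 7)) ^ ((1 : ℝ) / (d + 1)) / (8 * C * Fintype.card K) - 2) <
      size L := by
  by_contra hsize
  push Not at hsize
  obtain ⟨i, hi⟩ := hL.2.2
  obtain ⟨hp, Z, τ, r, h1, h2, h3⟩ := frame_killer hX hC hpos hgrow (F := (F : Set (Clause V)))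
    hw hF (b := b) i.pos hL.2.1 hsize
  exact h3 (one_mem_Z_proof h1 hL h2)

/-- A frame from a partial action of the functions. -/
theorem isFrame_of_act [DecidableEq V] {M : ℕ → Submodule K W} {A : ℕ}
    (act : ((V → Bool) → K) → W →ₗ[K] W) (mono : ∀ i j, i ≤ j → M i ≤ M j)
    (shift : ∀ i v w, i + 1 ≤ A → w ∈ M i → act (xf K v) w ∈ M (i + 1))
    (assoc : ∀ i u v w, i + 2 ≤ A → w ∈ M i →
      act (xf K u * xf K v) w = act (xf K u) (act (xf K v) w)) :
    IsFrame M (fun v => act (xf K v)) A where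
  mono := mono
  shift := shift
  idem i v w hi hw := by
    rw [← assoc i v v w hi hw]
    congr 1
    congr 1
    funext x
    rw [Pi.mul_apply]
    unfold xf
    split_ifs
    · rw [mul_one]
    · rw [mul_zero]
  comm i u v w hi hw := by
    rw [← assoc i u v w hi hw, ← assoc i v u w hi hw, mul_comm]

/-- A frame from commuting involutions, in characteristic not 2. -/
theorem isFrame_of_invol (h2 : (2 : K) ≠ 0) {M : ℕ → Submodule K W} {A : ℕ}
    (χ : V → W →ₗ[K] W) (mono : ∀ i j, i ≤ j → M i ≤ M j)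
    (shift : ∀ i v w, i + 1 ≤ A → w ∈ M i → χ v w ∈ M (i + 1))
    (invol : ∀ i v w, i + 2 ≤ A → w ∈ M i → χ v (χ v w) = w)
    (comm : ∀ i u v w, i + 2 ≤ A → w ∈ M i → χ u (χ v w) = χ v (χ u w)) :
    IsFrame M (fun v => (2 : K)⁻¹ • (LinearMap.id - χ v)) A where
  mono := mono
  shift i v w hi hw := by
    rw [LinearMap.smul_apply, LinearMap.sub_apply, LinearMap.id_apply]
    exact Submodule.smul_mem _ _ (Submodule.sub_mem _ (mono i (i + 1) (Nat.le_succ i) hw)
      (shift i v w hi hw))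
  idem i v w hi hw := by
    simp only [LinearMap.smul_apply, LinearMap.sub_apply, LinearMap.id_apply, map_smul, map_sub,
      invol i v w hi hw]
    have h3 : w - χ v w - (χ v w - w) = (2 : K) • (w - χ v w) := by
      rw [two_smul]
      abel
    rw [← smul_sub, h3, smul_smul (2 : K)⁻¹ 2, inv_mul_cancel₀ h2, one_smul]
  comm i u v w hi hw := by
    simp only [LinearMap.smul_apply, LinearMap.sub_apply, LinearMap.id_apply, map_smul, map_sub,
      comm i u v w hi hw]
    rw [← smul_sub, ← smul_sub]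
    congr 2
    abel

end Pool.Agent.MP_9cec2c_lc.AZ
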