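import Mathlib

/-!
The window lemma: approximation of disjunctions in a world, that is a filtration `M 0 ≤ M 1 ≤ ...` of
spaces of functions and a space `J` that is closed under products of small degree. The only input is a
bound for the growth of the dimensions of `M a` modulo `J`.
-/

set_option autoImplicit false
set_option linter.unusedSectionVars false

namespace Pool.Agent.MP_9cec2c_lc.World

open Finset

variable {α : Type} {K : Type} [Field K] {E : Type} [AddCommGroup E] [Module K E]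
  [Module (α → K) E] [IsScalarTower K (α → K) E] [FiniteDimensional K E]

/-- A world of degree `A`: spaces `P e` of functions of degree at most `e`, an increasing sequence of
spaces `M a` in a module `E` over the ring of functions (for example `E` is the ring itself, or the
space of the functions with values in a vector space) that is shifted by `e` under multiplication
with functions of degree `e`, and a space `J` of elements that are considered to be zero; it is closed
under products inside `M A`. -/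
structure IsWorld (P : ℕ → Submodule K (α → K)) (M : ℕ → Submodule K E) (J : Submodule K E)
    (A : ℕ) : Prop where
  one_mem : 1 ∈ P 0
  P_mono : ∀ a b, a ≤ b → P a ≤ P b
  P_mul : ∀ a b p q, p ∈ P a → q ∈ P b → p * q ∈ P (a + b)
  M_mono : ∀ a b, a ≤ b → M a ≤ M b
  M_mul : ∀ a e h p, a + e ≤ A → h ∈ M a → p ∈ P e → p • h ∈ M (a + e)
  J_mul : ∀ a e h p, a + e ≤ A → h ∈ J → h ∈ M a → p ∈ P e → p • h ∈ J

/-- Multiplication by `u` modulo `J`. -/
noncomputable def mq (J : Submodule K E) (u : α → K) : E →ₗ[K] (E ⧸ J) :=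
  J.mkQ ∘ₗ Algebra.lsmul K K E u

theorem mq_eq_zero {J : Submodule K E} {u : α → K} {f : E} : mq J u f = 0 ↔ u • f ∈ J := by
  unfold mq
  rw [LinearMap.comp_apply, Algebra.lsmul_coe, Submodule.mkQ_apply,
    Submodule.Quotient.mk_eq_zero]

/-- The dimension of the space of the multiples of `u` by elements of `W`, modulo `J`. -/
noncomputable def rk (J : Submodule K E) (u : α → K) (W : Submodule K E) : ℕ :=
  Module.finrank K (W.map (mq J u))

theorem rk_mono (J : Submodule K E) (u : α → K) {W W' : Submodule K E} (h : W ≤ W') :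
    rk J u W ≤ rk J u W' :=
  Submodule.finrank_mono (Submodule.map_mono h)

theorem finrank_map_le_of_ker {V V' V'' : Type*} [AddCommGroup V] [Module K V] [AddCommGroup V']
    [Module K V'] [AddCommGroup V''] [Module K V''] [FiniteDimensional K V]
    (W : Submodule K V) (f : V →ₗ[K] V') (g : V →ₗ[K] V'')
    (h : ∀ x ∈ W, g x = 0 → f x = 0) :
    Module.finrank K (W.map f) ≤ Module.finrank K (W.map g) := by
  have h1 : Module.finrank K (W.map f) = Module.finrank K (LinearMap.range (f.domRestrict W)) := by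
    rw [LinearMap.range_domRestrict]
  have h2 : Module.finrank K (W.map g) = Module.finrank K (LinearMap.range (g.domRestrict W)) := by
    rw [LinearMap.range_domRestrict]
  have h3 := LinearMap.finrank_range_add_finrank_ker (f.domRestrict W)
  have h4 := LinearMap.finrank_range_add_finrank_ker (g.domRestrict W)
  have h5 : Module.finrank K (LinearMap.ker (g.domRestrict W)) ≤
      Module.finrank K (LinearMap.ker (f.domRestrict W)) := by
    refine Submodule.finrank_mono fun x hx => ?_
    rw [LinearMap.mem_ker, LinearMap.domRestrict_apply] at hx ⊢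
    exact h x x.2 hx
  omega

theorem finrank_map_add_map {V V' : Type*} [AddCommGroup V] [Module K V] [AddCommGroup V']
    [Module K V'] [FiniteDimensional K V] (W : Submodule K V) (f g : V →ₗ[K] V') :
    Module.finrank K (W.map (f + g)) ≤
      Module.finrank K (W.map f) + Module.finrank K (W.map g) := by
  have h1 : W.map (f + g) ≤ W.map f ⊔ W.map g := by
    rintro x ⟨y, hy, rfl⟩
    rw [LinearMap.add_apply]
    exact Submodule.add_mem_sup ⟨y, hy, rfl⟩ ⟨y, hy, rfl⟩
  have h2 := Submodule.finrank_sup_add_finrank_inf_eq (W.map f) (W.map g)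
  have h3 := Submodule.finrank_mono h1
  omega

/-- The space `W'` is mapped into `W` by `q`, and the elements of the image are killed by `g`: the
rank of `g` on `W` is at most the rank of `f` on `W` minus the rank of `f ∘ q` on `W'`. -/
theorem finrank_split {V V' V'' : Type*} [AddCommGroup V] [Module K V] [AddCommGroup V']
    [Module K V'] [AddCommGroup V''] [Module K V''] [FiniteDimensional K V]
    (W W' : Submodule K V) (q : V →ₗ[K] V) (f : V →ₗ[K] V') (g : V →ₗ[K] V'')
    (hq : ∀ x ∈ W', q x ∈ W) (hg : ∀ x ∈ W', g (q x) = 0)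
    (h : ∀ x ∈ W, f x = 0 → g x = 0) :
    Module.finrank K (W.map g) + Module.finrank K (W'.map (f ∘ₗ q)) ≤
      Module.finrank K (W.map f) := by
  -- `ker f ⊔ q W' ≤ ker g` inside `W`
  have h1 : Module.finrank K (W.map g) = Module.finrank K (LinearMap.range (g.domRestrict W)) := by
    rw [LinearMap.range_domRestrict]
  have h2 : Module.finrank K (W.map f) = Module.finrank K (LinearMap.range (f.domRestrict W)) := by
    rw [LinearMap.range_domRestrict]
  have h3 := LinearMap.finrank_range_add_finrank_ker (f.domRestrict W)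
  have h4 := LinearMap.finrank_range_add_finrank_ker (g.domRestrict W)
  -- the image of `ker (g|W)` under `f`
  have h5 : Module.finrank K ((LinearMap.ker (g.domRestrict W)).map (f.domRestrict W)) +
      Module.finrank K (LinearMap.ker (f.domRestrict W)) ≤
      Module.finrank K (LinearMap.ker (g.domRestrict W)) := by
    have h6 := LinearMap.finrank_range_add_finrank_ker
      ((f.domRestrict W).domRestrict (LinearMap.ker (g.domRestrict W)))
    rw [LinearMap.range_domRestrict] at h6
    have h7 : Module.finrank K (LinearMap.ker (f.domRestrict W)) ≤ Module.finrank K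
        (LinearMap.ker ((f.domRestrict W).domRestrict (LinearMap.ker (g.domRestrict W)))) := by
      have h8 : ∀ x : LinearMap.ker (f.domRestrict W), x.1 ∈ LinearMap.ker (g.domRestrict W) := by
        rintro ⟨x, hx⟩
        rw [LinearMap.mem_ker, LinearMap.domRestrict_apply] at hx ⊢
        exact h x x.2 hx
      let φ : LinearMap.ker (f.domRestrict W) →ₗ[K]
          LinearMap.ker ((f.domRestrict W).domRestrict (LinearMap.ker (g.domRestrict W))) :=
        { toFun := fun x => ⟨⟨x.1, h8 x⟩, by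
            rw [LinearMap.mem_ker, LinearMap.domRestrict_apply]
            exact x.2⟩
          map_add' := fun x y => rfl
          map_smul' := fun c x => rfl }
      refine LinearMap.finrank_le_finrank_of_injective (f := φ) fun x y hxy => ?_
      have h9 := congrArg (fun z => z.1.1) hxy
      exact Subtype.ext h9
    omega
  have h6 : Module.finrank K (W'.map (f ∘ₗ q)) ≤
      Module.finrank K ((LinearMap.ker (g.domRestrict W)).map (f.domRestrict W)) := by
    refine Submodule.finrank_mono ?_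
    rintro x ⟨y, hy, rfl⟩
    refine ⟨⟨q y, hq y hy⟩, ?_, rfl⟩
    have h7 : (g.domRestrict W) ⟨q y, hq y hy⟩ = 0 := hg y hy
    exact h7
  omega

section world

variable {P : ℕ → Submodule K (α → K)} {M : ℕ → Submodule K E} {J : Submodule K E} {A : ℕ}

theorem pow_mem (hW : IsWorld P M J A) {t : ℕ} {q : α → K} (hq : q ∈ P t) (m : ℕ) :
    q ^ m ∈ P (m * t) := by
  induction m with
  | zero =>
    rw [pow_zero, Nat.zero_mul]
    exact hW.one_mem
  | succ m ih =>
    rw [pow_succ, Nat.succ_mul]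
    exact hW.P_mul _ _ _ _ ih hq

theorem one_mem_P (hW : IsWorld P M J A) (t : ℕ) : 1 ∈ P t := hW.P_mono 0 t (Nat.zero_le _) hW.one_mem

variable [Fintype K]

/-- The function `1 - q ^ (|K| - 1)`: the indicator function of the zeros of `q`. -/
def cf (q : α → K) : α → K := 1 - q ^ (Fintype.card K - 1)

theorem cf_mem (hW : IsWorld P M J A) {t : ℕ} {q : α → K} (hq : q ∈ P t) :
    cf q ∈ P ((Fintype.card K - 1) * t) :=
  Submodule.sub_mem _ (one_mem_P hW _) (pow_mem hW hq _)

theorem cf_mul_self (q : α → K) : cf q * q = 0 := by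
  funext x
  unfold cf
  rw [Pi.mul_apply, Pi.sub_apply, Pi.one_apply, Pi.pow_apply, Pi.zero_apply]
  by_cases h : q x = 0
  · rw [h, mul_zero]
  · rw [FiniteField.pow_card_sub_one_eq_one _ h, sub_self, zero_mul]

theorem pow_card_fun (g : α → K) : g ^ Fintype.card K = g := by
  funext x
  rw [Pi.pow_apply, FiniteField.pow_card]

/-- Multiplication by `q` and by `q + g` has rank at least one half on the multiples of `g`. -/
theorem rk_half (hW : IsWorld P M J A) {s t a : ℕ} {w g q : α → K}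
    (hw : w ∈ P s) (hg : g ∈ P t) (hA : a + (t + s + t) + (Fintype.card K - 2) * t ≤ A) :
    rk J (g * w) (M a) ≤ rk J (g * w * q) (M a) + rk J (g * w * (q + g)) (M a) := by
  have hgp : g ^ (Fintype.card K - 2) ∈ P ((Fintype.card K - 2) * t) := pow_mem hW hg _
  have h1 : rk J (g * w) (M a) ≤ rk J (g * w * g) (M a) := by
    refine finrank_map_le_of_ker _ _ _ fun x hx h => ?_
    rw [mq_eq_zero] at h ⊢
    have h5 : (g * w * g) • x ∈ M (a + (t + s + t)) :=
      hW.M_mul _ _ _ _ (by omega) hx (hW.P_mul _ _ _ _ (hW.P_mul _ _ _ _ hg hw) hg)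
    have h2 := hW.J_mul (a + (t + s + t)) ((Fintype.card K - 2) * t) _
      (g ^ (Fintype.card K - 2)) hA h h5 hgp
    have h3 : g ^ (Fintype.card K - 2) • ((g * w * g) • x) = (g * w) • x := by
      have h4 : g * g * g ^ (Fintype.card K - 2) = g := by
        have h5 : 1 < Fintype.card K := Fintype.one_lt_card
        calc g * g * g ^ (Fintype.card K - 2) = g ^ (Fintype.card K - 2 + 2) := by ring
          _ = g ^ Fintype.card K := by congr 1; omega
          _ = g := pow_card_fun g
      rw [smul_smul]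
      congr 1
      calc g ^ (Fintype.card K - 2) * (g * w * g) =
          (g * g * g ^ (Fintype.card K - 2)) * w := by ring
        _ = g * w := by rw [h4]
    rwa [h3] at h2
  have h2 : mq J (g * w * g) = mq J (g * w * (q + g)) + mq J (-(g * w * q)) := by
    apply LinearMap.ext
    intro x
    unfold mq
    rw [LinearMap.add_apply, LinearMap.comp_apply, LinearMap.comp_apply, LinearMap.comp_apply,
      ← map_add]
    congr 1
    simp only [Algebra.lsmul_coe]
    rw [← add_smul]
    congr 1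
    ring
  have h3 : rk J (g * w * g) (M a) ≤ rk J (g * w * (q + g)) (M a) + rk J (-(g * w * q)) (M a) := by
    unfold rk
    rw [h2]
    exact finrank_map_add_map _ _ _
  have h4 : rk J (-(g * w * q)) (M a) ≤ rk J (g * w * q) (M a) := by
    refine finrank_map_le_of_ker _ _ _ fun x _ h => ?_
    rw [mq_eq_zero] at h ⊢
    rw [neg_smul]
    exact Submodule.neg_mem _ h
  omega

/-- The rank drops when the functions are multiplied by a function that kills `q`. -/
theorem rk_split (hW : IsWorld P M J A) {s t c a : ℕ} {w u q : α → K}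
    (hw : w ∈ P s) (hu : u ∈ P c) (hq : q ∈ P t) (huq : u * q = 0)
    (hA : a + t + s + c ≤ A) :
    rk J (w * u) (M (a + t)) + rk J (w * q) (M a) ≤ rk J w (M (a + t)) := by
  have h1 : mq J (w * q) = (mq J w) ∘ₗ (Algebra.lsmul K K E q : E →ₗ[K] E) := by
    apply LinearMap.ext
    intro x
    unfold mq
    simp only [LinearMap.comp_apply, Algebra.lsmul_coe, mul_smul]
  unfold rk
  rw [h1]
  refine finrank_split _ _ _ _ _ (fun x hx => ?_) (fun x hx => ?_) fun x hx h => ?_
  · rw [Algebra.lsmul_coe]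
    exact hW.M_mul _ _ _ _ (by omega) hx hq
  · rw [Algebra.lsmul_coe, mq_eq_zero, smul_smul, mul_assoc, huq, mul_zero, zero_smul]
    exact Submodule.zero_mem _
  · rw [mq_eq_zero] at h ⊢
    rw [mul_comm w u, mul_smul]
    exact hW.J_mul (a + t + s) c _ _ hA h (hW.M_mul _ _ _ _ (by omega) hx hw) hu

theorem rk_le (hW : IsWorld P M J A) {c a : ℕ} {u : α → K} (hu : u ∈ P c)
    (w : α → K) {s : ℕ} (hw : w ∈ P s) (hA2 : a + s + c ≤ A) :
    rk J (w * u) (M a) ≤ rk J w (M a) := by
  refine finrank_map_le_of_ker _ _ _ fun x hx h => ?_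
  rw [mq_eq_zero] at h ⊢
  rw [mul_comm w u, mul_smul]
  exact hW.J_mul (a + s) c _ _ hA2 h (hW.M_mul _ _ _ _ (by omega) hx hw) hu

/-- One combination `q` of the functions `g i` for which all the ranks at the levels
`a, a + t, ..., a + m t` drop, in a weighted sum. -/
theorem exists_step (hW : IsWorld P M J A) {β : Type} [Fintype β] {s t a m : ℕ} {Λ : ℝ}
    (hΛ : 0 < Λ) {w : α → K} {g : β → α → K} (hw : w ∈ P s) (hg : ∀ i, g i ∈ P t)
    (hA : a + m * t + (t + s + t) + (Fintype.card K - 1) * t ≤ A) :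
    ∃ q ∈ Submodule.span K (Set.range g),
      2 * ∑ j ∈ range (m + 1), ∑ i, Λ⁻¹ ^ j * (rk J (g i * w * cf q) (M (a + j * t)) : ℝ) +
        ∑ j ∈ range m, ∑ i, Λ⁻¹ ^ (j + 1) * (rk J (g i * w) (M (a + j * t)) : ℝ) ≤
      2 * ∑ j ∈ range (m + 1), ∑ i, Λ⁻¹ ^ j * (rk J (g i * w) (M (a + j * t)) : ℝ) := by
  classical
  have hsplit : (Fintype.card K - 1) * t = (Fintype.card K - 2) * t + t := by
    have h5 : 1 < Fintype.card K := Fintype.one_lt_card
    have h6 : Fintype.card K - 1 = Fintype.card K - 2 + 1 := by omega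
    rw [h6, add_mul, one_mul]
  have hqt : ∀ c : β → K, ∑ i, c i • g i ∈ P t := fun c =>
    Submodule.sum_mem _ fun i _ => Submodule.smul_mem _ _ (hg i)
  have hjm : ∀ j, j ≤ m → a + j * t ≤ a + m * t := fun j hj =>
    Nat.add_le_add_left (Nat.mul_le_mul_right t hj) a
  have hΛ' : (0 : ℝ) ≤ Λ⁻¹ := inv_nonneg.2 hΛ.le
  -- the average over all coefficients
  have h1 : ∀ (j : ℕ), j < m → ∀ i : β, Fintype.card (β → K) * rk J (g i * w) (M (a + j * t)) ≤
      2 * ∑ c : β → K, rk J (g i * w * ∑ l, c l • g l) (M (a + j * t)) := by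
    intro j hj i
    obtain ⟨δ, hδ⟩ : ∃ δ : β → K, δ = Pi.single i 1 := ⟨_, rfl⟩
    have h2 : ∑ c : β → K, rk J (g i * w * ∑ l, (c + δ) l • g l) (M (a + j * t)) =
        ∑ c : β → K, rk J (g i * w * ∑ l, c l • g l) (M (a + j * t)) :=
      Fintype.sum_equiv (Equiv.addRight δ) _ _ fun c => rfl
    have h3 : ∀ c : β → K, rk J (g i * w) (M (a + j * t)) ≤
        rk J (g i * w * ∑ l, c l • g l) (M (a + j * t)) +
        rk J (g i * w * ∑ l, (c + δ) l • g l) (M (a + j * t)) := by
      intro c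
      have h4 : ∑ l, (c + δ) l • g l = ∑ l, c l • g l + g i := by
        simp only [Pi.add_apply, add_smul, sum_add_distrib]
        congr 1
        rw [hδ, sum_eq_single i]
        · rw [Pi.single_eq_same, one_smul]
        · intro l _ hli
          rw [Pi.single_eq_of_ne hli, zero_smul]
        · intro hi
          exact absurd (mem_univ i) hi
      rw [h4]
      refine rk_half hW hw (hg i) ?_
      have := hjm j hj.le
      omega
    calc Fintype.card (β → K) * rk J (g i * w) (M (a + j * t)) =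
          ∑ _c : β → K, rk J (g i * w) (M (a + j * t)) := by
          rw [sum_const, smul_eq_mul, card_univ]
      _ ≤ ∑ c : β → K, (rk J (g i * w * ∑ l, c l • g l) (M (a + j * t)) +
          rk J (g i * w * ∑ l, (c + δ) l • g l) (M (a + j * t))) := sum_le_sum fun c _ => h3 c
      _ = 2 * ∑ c : β → K, rk J (g i * w * ∑ l, c l • g l) (M (a + j * t)) := by
          rw [sum_add_distrib, h2, two_mul]
  have h2 : ∃ c : β → K,
      ∑ j ∈ range m, ∑ i, Λ⁻¹ ^ (j + 1) * (rk J (g i * w) (M (a + j * t)) : ℝ) ≤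
      2 * ∑ j ∈ range m, ∑ i, Λ⁻¹ ^ (j + 1) *
        (rk J (g i * w * ∑ l, c l • g l) (M (a + j * t)) : ℝ) := by
    by_contra hcon
    push Not at hcon
    have h3 : ∑ c : β → K, (2 * ∑ j ∈ range m, ∑ i, Λ⁻¹ ^ (j + 1) *
        (rk J (g i * w * ∑ l, c l • g l) (M (a + j * t)) : ℝ)) <
        ∑ _c : β → K, ∑ j ∈ range m, ∑ i, Λ⁻¹ ^ (j + 1) *
          (rk J (g i * w) (M (a + j * t)) : ℝ) :=
      sum_lt_sum_of_nonempty ⟨0, mem_univ _⟩ fun c _ => hcon c
    have h4 : ∑ _c : β → K, ∑ j ∈ range m, ∑ i, Λ⁻¹ ^ (j + 1) *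
          (rk J (g i * w) (M (a + j * t)) : ℝ) ≤
        ∑ c : β → K, (2 * ∑ j ∈ range m, ∑ i, Λ⁻¹ ^ (j + 1) *
          (rk J (g i * w * ∑ l, c l • g l) (M (a + j * t)) : ℝ)) := by
      have h5 : ∑ c : β → K, (2 * ∑ j ∈ range m, ∑ i, Λ⁻¹ ^ (j + 1) *
          (rk J (g i * w * ∑ l, c l • g l) (M (a + j * t)) : ℝ)) =
          ∑ j ∈ range m, ∑ i, Λ⁻¹ ^ (j + 1) * ((2 * ∑ c : β → K,
            rk J (g i * w * ∑ l, c l • g l) (M (a + j * t)) : ℕ) : ℝ) := by
        rw [← mul_sum, sum_comm, mul_sum]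
        refine sum_congr rfl fun j _ => ?_
        rw [sum_comm, mul_sum]
        refine sum_congr rfl fun i _ => ?_
        push_cast
        rw [← mul_sum]
        ring
      rw [h5, sum_const, card_univ, nsmul_eq_mul, mul_sum]
      refine sum_le_sum fun j hj => ?_
      rw [mul_sum]
      refine sum_le_sum fun i _ => ?_
      have h6 : ((Fintype.card (β → K) * rk J (g i * w) (M (a + j * t)) : ℕ) : ℝ) ≤
          ((2 * ∑ c : β → K, rk J (g i * w * ∑ l, c l • g l) (M (a + j * t)) : ℕ) : ℝ) :=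
        Nat.cast_le.2 (h1 j (mem_range.1 hj) i)
      calc (Fintype.card (β → K) : ℝ) * (Λ⁻¹ ^ (j + 1) * (rk J (g i * w) (M (a + j * t)) : ℝ)) =
            Λ⁻¹ ^ (j + 1) * ((Fintype.card (β → K) * rk J (g i * w) (M (a + j * t)) : ℕ) : ℝ) := by
            push_cast
            ring
        _ ≤ _ := mul_le_mul_of_nonneg_left h6 (pow_nonneg hΛ' _)
    exact absurd (lt_of_lt_of_le h3 h4) (lt_irrefl _)
  obtain ⟨c, hc⟩ := h2
  obtain ⟨q, hq⟩ : ∃ q, q = ∑ l, c l • g l := ⟨_, rfl⟩
  rw [← hq] at hc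
  have hqP : q ∈ P t := by rw [hq]; exact hqt c
  refine ⟨q, ?_, ?_⟩
  · rw [hq]
    exact Submodule.sum_mem _ fun l _ =>
      Submodule.smul_mem _ _ (Submodule.subset_span ⟨l, rfl⟩)
  · -- the drop of the ranks
    have hcf := cf_mem hW hqP
    have h3 : ∀ j, j < m → ∀ i : β, (rk J (g i * w * cf q) (M (a + (j + 1) * t)) : ℝ) +
        rk J (g i * w * q) (M (a + j * t)) ≤ rk J (g i * w) (M (a + (j + 1) * t)) := by
      intro j hj i
      have h4 : a + (j + 1) * t = a + j * t + t := by ring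
      rw [h4]
      have h5 := rk_split hW (a := a + j * t) (hW.P_mul _ _ _ _ (hg i) hw) hcf hqP
        (cf_mul_self q) (by
          have := hjm (j + 1) hj
          rw [h4] at this
          omega)
      exact_mod_cast h5
    have h4 : ∀ i : β, (rk J (g i * w * cf q) (M (a + 0 * t)) : ℝ) ≤
        rk J (g i * w) (M (a + 0 * t)) := by
      intro i
      have h5 := rk_le hW (a := a + 0 * t) hcf (g i * w)
        (hW.P_mul _ _ _ _ (hg i) hw) (by omega)
      exact_mod_cast h5
    have h5 : ∑ j ∈ range (m + 1), ∑ i, Λ⁻¹ ^ j *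
          (rk J (g i * w * cf q) (M (a + j * t)) : ℝ) +
        ∑ j ∈ range m, ∑ i, Λ⁻¹ ^ (j + 1) * (rk J (g i * w * q) (M (a + j * t)) : ℝ) ≤
        ∑ j ∈ range (m + 1), ∑ i, Λ⁻¹ ^ j * (rk J (g i * w) (M (a + j * t)) : ℝ) := by
      rw [sum_range_succ' (fun j => ∑ i, Λ⁻¹ ^ j * (rk J (g i * w * cf q) (M (a + j * t)) : ℝ)),
        sum_range_succ' (fun j => ∑ i, Λ⁻¹ ^ j * (rk J (g i * w) (M (a + j * t)) : ℝ))]
      have h6 : ∑ i, Λ⁻¹ ^ 0 * (rk J (g i * w * cf q) (M (a + 0 * t)) : ℝ) ≤
          ∑ i, Λ⁻¹ ^ 0 * (rk J (g i * w) (M (a + 0 * t)) : ℝ) := by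
        refine sum_le_sum fun i _ => ?_
        exact mul_le_mul_of_nonneg_left (h4 i) (pow_nonneg hΛ' _)
      have h7 : ∑ j ∈ range m, ∑ i, Λ⁻¹ ^ (j + 1) *
            (rk J (g i * w * cf q) (M (a + (j + 1) * t)) : ℝ) +
          ∑ j ∈ range m, ∑ i, Λ⁻¹ ^ (j + 1) * (rk J (g i * w * q) (M (a + j * t)) : ℝ) ≤
          ∑ j ∈ range m, ∑ i, Λ⁻¹ ^ (j + 1) * (rk J (g i * w) (M (a + (j + 1) * t)) : ℝ) := by
        rw [← sum_add_distrib]
        refine sum_le_sum fun j hj => ?_
        rw [← sum_add_distrib]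
        refine sum_le_sum fun i _ => ?_
        rw [← mul_add]
        exact mul_le_mul_of_nonneg_left (h3 j (mem_range.1 hj) i) (pow_nonneg hΛ' _)
      linarith
    linarith

/-- **One disjunction.** If the dimensions of the spaces `M a` modulo `J` do not grow fast in the
window from `a` to `a + m t`, then there is a product `∏ (1 - q ^ (|K| - 1))` of `κ` factors, `q` in the
span of the `g i`, such that multiplication by the `g i` times the product has small rank. -/
theorem exists_prod (hW : IsWorld P M J A) {β : Type} [Fintype β] {t a m : ℕ} {Λ : ℝ}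
    (hΛ : 1 ≤ Λ)
    (hwin : ∀ j, j ≤ m → (rk J (1 : α → K) (M (a + j * t)) : ℝ) ≤ (Λ / 2) ^ j * rk J (1 : α → K) (M a))
    {g : β → α → K} (hg : ∀ i, g i ∈ P t) (κ : ℕ)
    (hA : a + m * t + 2 * t + κ * ((Fintype.card K - 1) * t) ≤ A) :
    ∃ q : Fin κ → α → K, (∀ j, q j ∈ Submodule.span K (Set.range g)) ∧
      (∏ j, cf (q j)) ∈ P (κ * ((Fintype.card K - 1) * t)) ∧
      ∑ i, (rk J (g i * ∏ j, cf (q j)) (M a) : ℝ) ≤
        (2 * (1 - (2 * Λ)⁻¹) ^ κ + 2⁻¹ ^ m) * (Fintype.card β * rk J (1 : α → K) (M a)) := by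
  classical
  have hΛ0 : (0 : ℝ) < Λ := by linarith
  have hΛ' : (0 : ℝ) ≤ Λ⁻¹ := inv_nonneg.2 hΛ0.le
  have hLt : Submodule.span K (Set.range g) ≤ P t := by
    rw [Submodule.span_le]
    rintro x ⟨i, rfl⟩
    exact hg i
  have hjm : ∀ j, j ≤ m → a + j * t ≤ a + m * t := fun j hj =>
    Nat.add_le_add_left (Nat.mul_le_mul_right t hj) a
  obtain ⟨R, hR⟩ : ∃ R : ℝ, R = Fintype.card β * rk J (1 : α → K) (M a) := ⟨_, rfl⟩
  have hR0 : 0 ≤ R := by rw [hR]; positivity
  have hone : ∀ u : α → K, ∀ c, u ∈ P c → ∀ b, b + c ≤ A → rk J u (M b) ≤ rk J (1 : α → K) (M b) := by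
    intro u c hu b hb
    have h1 := rk_le hW (a := b) hu 1 hW.one_mem (by omega)
    rwa [one_mul] at h1
  have key : ∀ κ' : ℕ, κ' ≤ κ → ∃ q : Fin κ' → α → K,
      (∀ j, q j ∈ Submodule.span K (Set.range g)) ∧
      (∏ j, cf (q j)) ∈ P (κ' * ((Fintype.card K - 1) * t)) ∧
      ∑ j ∈ range (m + 1), ∑ i, Λ⁻¹ ^ j * (rk J (g i * ∏ l, cf (q l)) (M (a + j * t)) : ℝ) ≤
        (2 * (1 - (2 * Λ)⁻¹) ^ κ' + 2⁻¹ ^ m) * R := by
    intro κ'
    induction κ' with
    | zero =>
      intro _
      refine ⟨fun j => j.elim0, fun j => j.elim0, ?_, ?_⟩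
      · rw [Fin.prod_univ_zero, Nat.zero_mul]
        exact hW.one_mem
      · have h1 : ∀ j ∈ range (m + 1), ∑ i, Λ⁻¹ ^ j * (rk J (g i * ∏ l : Fin 0,
            cf ((fun j => j.elim0 : Fin 0 → α → K) l)) (M (a + j * t)) : ℝ) ≤ 2⁻¹ ^ j * R := by
          intro j hj
          have hj' : j ≤ m := by
            have := mem_range.1 hj
            omega
          have h2 : ∀ i : β, Λ⁻¹ ^ j * (rk J (g i * ∏ l : Fin 0,
              cf ((fun j => j.elim0 : Fin 0 → α → K) l)) (M (a + j * t)) : ℝ) ≤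
              2⁻¹ ^ j * rk J (1 : α → K) (M a) := by
            intro i
            rw [Fin.prod_univ_zero, mul_one]
            have h3 : (rk J (g i) (M (a + j * t)) : ℝ) ≤ rk J (1 : α → K) (M (a + j * t)) := by
              have h4 := hone (g i) t (hg i) (a + j * t) (by
                have := hjm j hj'
                omega)
              exact_mod_cast h4
            calc Λ⁻¹ ^ j * (rk J (g i) (M (a + j * t)) : ℝ) ≤
                  Λ⁻¹ ^ j * ((Λ / 2) ^ j * rk J (1 : α → K) (M a)) :=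
                  mul_le_mul_of_nonneg_left (h3.trans (hwin j hj')) (pow_nonneg hΛ' _)
              _ = (Λ⁻¹ * (Λ / 2)) ^ j * rk J (1 : α → K) (M a) := by rw [mul_pow]; ring
              _ = 2⁻¹ ^ j * rk J (1 : α → K) (M a) := by
                  congr 2
                  field_simp
          refine (sum_le_sum fun i _ => h2 i).trans (le_of_eq ?_)
          rw [sum_const, card_univ, nsmul_eq_mul, hR]
          ring
        refine (sum_le_sum h1).trans ?_
        rw [← sum_mul, pow_zero, mul_one]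
        refine mul_le_mul_of_nonneg_right ?_ hR0
        have h2 : ∑ j ∈ range (m + 1), (2⁻¹ : ℝ) ^ j ≤ 2 := by
          have h3 := geom_sum_eq (x := (2⁻¹ : ℝ)) (by norm_num) (m + 1)
          rw [h3]
          have h4 : (0 : ℝ) ≤ 2⁻¹ ^ (m + 1) := by positivity
          rw [div_le_iff_of_neg (by norm_num)]
          linarith
        have h5 : (0 : ℝ) ≤ 2⁻¹ ^ m := by positivity
        linarith
    | succ κ' ih =>
      intro hκ
      obtain ⟨q, hq, hP, hΦ⟩ := ih (by omega)
      have hκ2 : (κ' + 1) * ((Fintype.card K - 1) * t) ≤ κ * ((Fintype.card K - 1) * t) :=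
        Nat.mul_le_mul_right _ hκ
      have hκ3 : (κ' + 1) * ((Fintype.card K - 1) * t) =
        κ' * ((Fintype.card K - 1) * t) + (Fintype.card K - 1) * t := by ring
      obtain ⟨q0, hq0, hstep⟩ := exists_step hW (a := a) (m := m) hΛ0 hP hg (by omega)
      refine ⟨Fin.snoc q q0, fun j => ?_, ?_, ?_⟩
      · refine Fin.lastCases ?_ (fun j => ?_) j
        · rw [Fin.snoc_last]
          exact hq0
        · rw [Fin.snoc_castSucc]
          exact hq j
      · rw [Fin.prod_univ_castSucc, Fin.snoc_last, hκ3]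
        simp only [Fin.snoc_castSucc]
        exact hW.P_mul _ _ _ _ hP (cf_mem hW (hLt hq0))
      · obtain ⟨w, hw⟩ : ∃ w, w = ∏ l, cf (q l) := ⟨_, rfl⟩
        have hw2 : ∏ l, cf ((Fin.snoc q q0 : Fin (κ' + 1) → α → K) l) = w * cf q0 := by
          rw [Fin.prod_univ_castSucc, Fin.snoc_last, hw]
          simp only [Fin.snoc_castSucc]
        rw [hw2]
        rw [← hw] at hstep hΦ hP
        have hassoc : ∀ i, g i * (w * cf q0) = g i * w * cf q0 := fun i => by ring
        simp only [hassoc]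
        obtain ⟨Φ, hΦ0⟩ : ∃ Φ : ℝ, Φ = ∑ j ∈ range (m + 1), ∑ i, Λ⁻¹ ^ j *
          (rk J (g i * w) (M (a + j * t)) : ℝ) := ⟨_, rfl⟩
        rw [← hΦ0] at hstep hΦ
        -- the last level
        have hlast : ∑ i, Λ⁻¹ ^ m * (rk J (g i * w) (M (a + m * t)) : ℝ) ≤ 2⁻¹ ^ m * R := by
          have h2 : ∀ i : β, Λ⁻¹ ^ m * (rk J (g i * w) (M (a + m * t)) : ℝ) ≤
              2⁻¹ ^ m * rk J (1 : α → K) (M a) := by
            intro i
            have h3 : (rk J (g i * w) (M (a + m * t)) : ℝ) ≤ rk J (1 : α → K) (M (a + m * t)) := by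
              have h4 := hone (g i * w) _ (hW.P_mul _ _ _ _ (hg i) hP) (a + m * t) (by omega)
              exact_mod_cast h4
            calc Λ⁻¹ ^ m * (rk J (g i * w) (M (a + m * t)) : ℝ) ≤
                  Λ⁻¹ ^ m * ((Λ / 2) ^ m * rk J (1 : α → K) (M a)) :=
                  mul_le_mul_of_nonneg_left (h3.trans (hwin m le_rfl)) (pow_nonneg hΛ' _)
              _ = (Λ⁻¹ * (Λ / 2)) ^ m * rk J (1 : α → K) (M a) := by rw [mul_pow]; ring
              _ = 2⁻¹ ^ m * rk J (1 : α → K) (M a) := by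
                  congr 2
                  field_simp
          refine (sum_le_sum fun i _ => h2 i).trans (le_of_eq ?_)
          rw [sum_const, card_univ, nsmul_eq_mul, hR]
          ring
        have hshift : ∑ j ∈ range m, ∑ i, Λ⁻¹ ^ (j + 1) *
            (rk J (g i * w) (M (a + j * t)) : ℝ) = Λ⁻¹ * (Φ - ∑ i, Λ⁻¹ ^ m *
              (rk J (g i * w) (M (a + m * t)) : ℝ)) := by
          rw [hΦ0, sum_range_succ, add_sub_cancel_right, mul_sum]
          refine sum_congr rfl fun j _ => ?_
          rw [mul_sum]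
          refine sum_congr rfl fun i _ => ?_
          rw [pow_succ]
          ring
        rw [hshift] at hstep
        have hx : (2 * Λ)⁻¹ = Λ⁻¹ / 2 := by
          field_simp
        obtain ⟨μ, hμ⟩ : ∃ μ : ℝ, μ = Λ⁻¹ / 2 := ⟨_, rfl⟩
        have hμ0 : 0 ≤ μ := by rw [hμ]; positivity
        have hμ1 : μ ≤ 1 := by
          have : Λ⁻¹ ≤ 1 := inv_le_one_of_one_le₀ hΛ
          rw [hμ]
          linarith
        rw [hx, ← hμ] at hΦ ⊢
        have hΛμ : Λ⁻¹ = 2 * μ := by rw [hμ]; ring
        rw [hΛμ] at hstep hlast ⊢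
        have h6 : μ * ∑ i, (2 * μ) ^ m * (rk J (g i * w) (M (a + m * t)) : ℝ) ≤
            μ * (2⁻¹ ^ m * R) := mul_le_mul_of_nonneg_left hlast hμ0
        have h7 : (1 - μ) * Φ ≤ (1 - μ) * ((2 * (1 - μ) ^ κ' + 2⁻¹ ^ m) * R) :=
          mul_le_mul_of_nonneg_left hΦ (by linarith)
        have h8 : (2 * (1 - μ) ^ (κ' + 1) + 2⁻¹ ^ m) * R =
            (1 - μ) * ((2 * (1 - μ) ^ κ' + 2⁻¹ ^ m) * R) + μ * (2⁻¹ ^ m * R) := by
          rw [pow_succ]
          ring
        rw [h8]
        linarith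
  obtain ⟨q, hq, hP, hΦ⟩ := key κ le_rfl
  rw [← hR]
  refine ⟨q, hq, hP, le_trans ?_ hΦ⟩
  rw [sum_range_succ']
  have h1 : (0 : ℝ) ≤ ∑ j ∈ range m, ∑ i, Λ⁻¹ ^ (j + 1) *
      (rk J (g i * ∏ l, cf (q l)) (M (a + (j + 1) * t)) : ℝ) :=
    sum_nonneg fun j _ => sum_nonneg fun i _ =>
      mul_nonneg (pow_nonneg hΛ' _) (Nat.cast_nonneg _)
  have h2 : ∑ i, (rk J (g i * ∏ l, cf (q l)) (M a) : ℝ) = ∑ i, Λ⁻¹ ^ 0 *
      (rk J (g i * ∏ l, cf (q l)) (M (a + 0 * t)) : ℝ) := by
    refine sum_congr rfl fun i _ => ?_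
    rw [pow_zero, one_mul, Nat.zero_mul, Nat.add_zero]
  rw [h2]
  linarith

end world

/-- **The window.** -/
theorem exists_window {r : ℕ → ℕ} {A L : ℕ} {l : ℝ} (hl : 1 ≤ l)
    (h : (r A : ℝ) ≤ l ^ (A - L) * r 0) (hr : ∀ a, a ≤ A → r a ≤ r A) :
    ∃ a, a ≤ A - L ∧ ∀ b, a ≤ b → b ≤ A → (r b : ℝ) ≤ l ^ (b - a) * r a := by
  have hl0 : (0 : ℝ) < l := by linarith
  obtain ⟨a, ha, hmax⟩ := Finset.exists_max_image (range (A + 1)) (fun a => (r a : ℝ) * l⁻¹ ^ a)
    ⟨0, by simp⟩
  have hconv : ∀ a b : ℕ, a ≤ b → (r b : ℝ) * l⁻¹ ^ b ≤ (r a : ℝ) * l⁻¹ ^ a →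
      (r b : ℝ) ≤ l ^ (b - a) * r a := by
    intro a b hab h1
    have h2 := mul_le_mul_of_nonneg_right h1 (pow_nonneg hl0.le b)
    have h3 : (r b : ℝ) * l⁻¹ ^ b * l ^ b = r b := by
      rw [mul_assoc, ← mul_pow, inv_mul_cancel₀ hl0.ne', one_pow, mul_one]
    have h4 : (r a : ℝ) * l⁻¹ ^ a * l ^ b = l ^ (b - a) * r a := by
      have h5 : l ^ b = l ^ a * l ^ (b - a) := by
        rw [← pow_add, Nat.add_sub_cancel' hab]
      rw [h5]
      have h6 : l⁻¹ ^ a * l ^ a = 1 := by rw [← mul_pow, inv_mul_cancel₀ hl0.ne', one_pow]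
      calc (r a : ℝ) * l⁻¹ ^ a * (l ^ a * l ^ (b - a)) =
          (r a : ℝ) * (l⁻¹ ^ a * l ^ a) * l ^ (b - a) := by ring
        _ = l ^ (b - a) * r a := by rw [h6]; ring
    rw [h3, h4] at h2
    exact h2
  by_cases haA : a ≤ A - L
  · exact ⟨a, haA, fun b hab hb => hconv a b hab (hmax b (by simp; omega))⟩
  · refine ⟨0, Nat.zero_le _, fun b _ hb => hconv 0 b (Nat.zero_le _) ?_⟩
    refine (hmax b (by simp; omega)).trans ?_
    have h1 : (r a : ℝ) * l⁻¹ ^ a ≤ (r A : ℝ) * l⁻¹ ^ (A - L) := by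
      have ha' : a ≤ A := by
        have := mem_range.1 ha
        omega
      have h2 : (r a : ℝ) ≤ r A := by exact_mod_cast hr a ha'
      have h3 : l⁻¹ ^ a ≤ l⁻¹ ^ (A - L) :=
        pow_le_pow_of_le_one (inv_nonneg.2 hl0.le) (inv_le_one_of_one_le₀ hl) (by omega)
      exact mul_le_mul h2 h3 (pow_nonneg (inv_nonneg.2 hl0.le) _) (Nat.cast_nonneg _)
    refine h1.trans ?_
    have h2 : (r A : ℝ) * l⁻¹ ^ (A - L) ≤ l ^ (A - L) * r 0 * l⁻¹ ^ (A - L) :=
      mul_le_mul_of_nonneg_right h (pow_nonneg (inv_nonneg.2 hl0.le) _)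
    refine h2.trans (le_of_eq ?_)
    rw [pow_zero, mul_one, mul_comm (l ^ (A - L)) _, mul_assoc, ← mul_pow,
      mul_inv_cancel₀ hl0.ne', one_pow, mul_one]

/-- **The multiplier.** If the sum of the ranks is smaller than the dimension of `W` modulo `J` then
some element of `W` outside `J` is killed by all the multiplications. -/
theorem exists_multiplier {J W : Submodule K E} {ι : Type} (s : Finset ι) (u : ι → α → K)
    (h : ∑ i ∈ s, rk J (u i) W < rk J (1 : α → K) W) :
    ∃ f ∈ W, f ∉ J ∧ ∀ i ∈ s, u i • f ∈ J := by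
  classical
  have key : ∀ s : Finset ι, ∃ W' ≤ W, (∀ f ∈ W', ∀ i ∈ s, u i • f ∈ J) ∧
      rk J (1 : α → K) W ≤ rk J (1 : α → K) W' + ∑ i ∈ s, rk J (u i) W := by
    intro s
    induction s using Finset.induction_on with
    | empty =>
      exact ⟨W, le_rfl, fun f _ i hi => absurd hi (notMem_empty i), by rw [sum_empty, add_zero]⟩
    | insert i s hi ih =>
      obtain ⟨W', h1, h2, h3⟩ := ih
      refine ⟨W' ⊓ LinearMap.ker (mq J (u i)), inf_le_left.trans h1, fun f hf j hj => ?_, ?_⟩
      · rcases mem_insert.1 hj with rfl | hj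
        · exact mq_eq_zero.1 hf.2
        · exact h2 f hf.1 j hj
      · rw [sum_insert hi]
        have h4 : rk J (1 : α → K) W' ≤ rk J (1 : α → K) (W' ⊓ LinearMap.ker (mq J (u i))) + rk J (u i) W' := by
          -- `W'.map f` modulo the image of the kernel
          obtain ⟨C, hC⟩ := Submodule.exists_isCompl
            ((W' ⊓ LinearMap.ker (mq J (u i))).comap W'.subtype)
          have h5 : W' = (W' ⊓ LinearMap.ker (mq J (u i))) ⊔ C.map W'.subtype := by
            have h6 := congrArg (Submodule.map W'.subtype) hC.sup_eq_top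
            rw [Submodule.map_sup, Submodule.map_comap_subtype, Submodule.map_top,
              Submodule.range_subtype] at h6
            rw [← inf_assoc, inf_idem] at h6
            exact h6.symm
          have h6 : rk J (1 : α → K) W' ≤ rk J (1 : α → K) (W' ⊓ LinearMap.ker (mq J (u i))) +
              rk J (1 : α → K) (C.map W'.subtype) := by
            have h7 : rk J (1 : α → K) W' = rk J (1 : α → K) ((W' ⊓ LinearMap.ker (mq J (u i))) ⊔
                C.map W'.subtype) := by rw [← h5]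
            rw [h7]
            unfold rk
            rw [Submodule.map_sup]
            have h8 := Submodule.finrank_sup_add_finrank_inf_eq
              ((W' ⊓ LinearMap.ker (mq J (u i))).map (mq J (1 : α → K)))
              ((C.map W'.subtype).map (mq J (1 : α → K)))
            omega
          have h7 : rk J (1 : α → K) (C.map W'.subtype) ≤ rk J (u i) (C.map W'.subtype) := by
            refine finrank_map_le_of_ker _ _ _ fun x hx h => ?_
            obtain ⟨y, hy, rfl⟩ := hx
            have h8 : y ∈ (W' ⊓ LinearMap.ker (mq J (u i))).comap W'.subtype :=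
              ⟨y.2, h⟩
            have h9 : y ∈ (W' ⊓ LinearMap.ker (mq J (u i))).comap W'.subtype ⊓ C := ⟨h8, hy⟩
            rw [hC.inf_eq_bot] at h9
            rw [(Submodule.mem_bot K).1 h9, map_zero, map_zero]
          have h8 : rk J (u i) (C.map W'.subtype) ≤ rk J (u i) W' := by
            refine rk_mono J (u i) ?_
            rintro x ⟨y, _, rfl⟩
            exact y.2
          omega
        have h5 : rk J (u i) W' ≤ rk J (u i) W := rk_mono J (u i) h1
        omega
  obtain ⟨W', h1, h2, h3⟩ := key s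
  have h4 : 0 < rk J (1 : α → K) W' := by omega
  by_contra hcon
  push Not at hcon
  have h5 : W'.map (mq J (1 : α → K)) = ⊥ := by
    rw [eq_bot_iff]
    rintro x ⟨f, hf, rfl⟩
    rw [Submodule.mem_bot, mq_eq_zero, one_smul]
    by_contra hfJ
    obtain ⟨i, hi, hne⟩ := hcon f (h1 hf) hfJ
    exact hne (h2 f hf i hi)
  unfold rk at h4
  rw [h5, finrank_bot] at h4
  exact lt_irrefl 0 h4

end Pool.Agent.MP_9cec2c_lc.World
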