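import Pool.Agent.Lib.MP_9cec2c_lc.AZSound
import Pool.Agent.Lib.MP_9cec2c_lc.WWin

/-!
Worlds whose dimensions grow slowly have no short refutations of constant depth.
-/

set_option autoImplicit false
set_option linter.unusedSectionVars false

namespace Pool.Agent.MP_9cec2c_lc.AZ

open Finset

variable {V : Type} {p : ℕ} {K : Type} [Field K] [Fintype K]

section subs

theorem subs_finite (φ : Fm V p) : φ.subs.Finite := by
  induction φ with
  | var v => exact Set.finite_singleton _
  | neg φ ih => exact (Set.finite_singleton _).union ih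
  | or f ih => exact (Set.finite_singleton _).union (Set.finite_iUnion ih)
  | and f ih => exact (Set.finite_singleton _).union (Set.finite_iUnion ih)
  | mod r f ih => exact (Set.finite_singleton _).union (Set.finite_iUnion ih)

theorem subs_trans {φ ψ : Fm V p} (h : ψ ∈ φ.subs) : ψ.subs ⊆ φ.subs := by
  induction φ with
  | var v => rw [Set.mem_singleton_iff.1 h]
  | neg φ ih =>
    rcases h with h | h
    · rw [Set.mem_singleton_iff.1 h]
    · exact (ih h).trans Set.subset_union_right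
  | or f ih =>
    rcases h with h | h
    · rw [Set.mem_singleton_iff.1 h]
    · obtain ⟨i, hi⟩ := Set.mem_iUnion.1 h
      exact ((ih i hi).trans (Set.subset_iUnion (fun i => (f i).subs) i)).trans
        Set.subset_union_right
  | and f ih =>
    rcases h with h | h
    · rw [Set.mem_singleton_iff.1 h]
    · obtain ⟨i, hi⟩ := Set.mem_iUnion.1 h
      exact ((ih i hi).trans (Set.subset_iUnion (fun i => (f i).subs) i)).trans
        Set.subset_union_right
  | mod r f ih =>
    rcases h with h | h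
    · rw [Set.mem_singleton_iff.1 h]
    · obtain ⟨i, hi⟩ := Set.mem_iUnion.1 h
      exact ((ih i hi).trans (Set.subset_iUnion (fun i => (f i).subs) i)).trans
        Set.subset_union_right

theorem mem_subs_or {k : ℕ} (f : Fin k → Fm V p) (i : Fin k) : f i ∈ (Fm.or f).subs :=
  Or.inr (Set.mem_iUnion.2 ⟨i, self_mem_subs _⟩)

theorem mem_subs_and {k : ℕ} (f : Fin k → Fm V p) (i : Fin k) : f i ∈ (Fm.and f).subs :=
  Or.inr (Set.mem_iUnion.2 ⟨i, self_mem_subs _⟩)

/-- The formulas of a proof. -/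
def allSubs {l : ℕ} (L : Fin l → Line V p) : Set (Fm V p) := {ψ | ∃ i, ∃ φ ∈ L i, ψ ∈ φ.subs}

theorem allSubs_finite {l : ℕ} (L : Fin l → Line V p) : (allSubs L).Finite := by
  classical
  have h1 : allSubs L = ⋃ i, ⋃ φ ∈ (L i).toFinset, φ.subs := by
    ext ψ
    simp [allSubs]
  rw [h1]
  exact Set.finite_iUnion fun i => Set.Finite.biUnion (Finset.finite_toSet _) fun φ _ =>
    subs_finite φ

end subs

section ideal

variable {P : ℕ → Submodule K ((V → Bool) → K)}

theorem prod_cf_idem {κ : ℕ} (q : Fin κ → (V → Bool) → K) (x : V → Bool) :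
    (∏ j, cf (q j)) x = 0 ∨ (∏ j, cf (q j)) x = 1 := by
  classical
  rw [Finset.prod_apply]
  by_cases h : ∃ j, q j x ≠ 0
  · obtain ⟨j, hj⟩ := h
    left
    exact prod_eq_zero (mem_univ j) (by rw [cf_apply, if_neg hj])
  · push Not at h
    right
    exact prod_eq_one fun j _ => by rw [cf_apply, if_pos (h j)]

theorem one_sub_prod_cf_mem (hP : IsDeg P) {κ t : ℕ} {G : Set ((V → Bool) → K)}
    (hG : ∀ g ∈ G, g ∈ P t) {q : Fin κ → (V → Bool) → K}
    (hq : ∀ j, q j ∈ Submodule.span K G) :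
    1 - ∏ j, cf (q j) ∈ P (κ * ((Fintype.card K - 1) * t)) * Submodule.span K G := by
  classical
  have hQ : 1 < Fintype.card K := Fintype.one_lt_card
  have hspan : Submodule.span K G ≤ P t := Submodule.span_le.2 hG
  have hprod : ∀ s : Finset (Fin κ), ∏ j ∈ s, cf (q j) ∈
      P (s.card * ((Fintype.card K - 1) * t)) := by
    intro s
    induction s using Finset.induction_on with
    | empty => rw [prod_empty, card_empty, Nat.zero_mul]; exact hP.one_mem
    | insert j s hj ih =>
      rw [prod_insert hj, card_insert_of_notMem hj, Nat.add_comm, add_mul, one_mul]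
      exact hP.mul _ _ _ _ (hP.cf_mem (hspan (hq j))) ih
  have key : ∀ s : Finset (Fin κ), 1 - ∏ j ∈ s, cf (q j) ∈
      P (κ * ((Fintype.card K - 1) * t)) * Submodule.span K G := by
    intro s
    induction s using Finset.induction_on with
    | empty => rw [prod_empty, sub_self]; exact Submodule.zero_mem _
    | insert j s hj ih =>
      have h1 : 1 - ∏ i ∈ insert j s, cf (q i) = (1 - ∏ i ∈ s, cf (q i)) +
          ((∏ i ∈ s, cf (q i)) * q j ^ (Fintype.card K - 2)) * q j := by
        rw [prod_insert hj]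
        have h2 : q j ^ (Fintype.card K - 1) = q j ^ (Fintype.card K - 2) * q j := by
          rw [← pow_succ]
          congr 1
          omega
        have h3 : cf (q j) = 1 - q j ^ (Fintype.card K - 2) * q j := by rw [← h2]; rfl
        rw [h3]
        ring
      rw [h1]
      refine Submodule.add_mem _ ih (Submodule.mul_mem_mul ?_ (hq j))
      have h2 := hP.mul _ _ _ _ (hprod s) (hP.pow_mem (hspan (hq j)) (Fintype.card K - 2))
      refine hP.mono _ _ ?_ h2
      have h3 : s.card + 1 ≤ κ := by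
        rw [← card_insert_of_notMem hj]
        exact (card_le_univ _).trans (by rw [Fintype.card_fin])
      calc s.card * ((Fintype.card K - 1) * t) + (Fintype.card K - 2) * t ≤
            s.card * ((Fintype.card K - 1) * t) + (Fintype.card K - 1) * t := by
            refine Nat.add_le_add_left (Nat.mul_le_mul_right _ (by omega)) _
        _ = (s.card + 1) * ((Fintype.card K - 1) * t) := by ring
        _ ≤ κ * ((Fintype.card K - 1) * t) := Nat.mul_le_mul_right _ h3
  exact key univ

end ideal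

section main

variable {E : Type} [AddCommGroup E] [Module K E] [Module ((V → Bool) → K) E]
  [IsScalarTower K ((V → Bool) → K) E] [FiniteDimensional K E]
  {P : ℕ → Submodule K ((V → Bool) → K)} {M : ℕ → Submodule K E} {J : Submodule K E} {A : ℕ}

/-- The multiples of `f` in `J`. -/
def zer (J : Submodule K E) (f : E) : Submodule K ((V → Bool) → K) :=
  J.comap ((LinearMap.toSpanSingleton ((V → Bool) → K) E f).restrictScalars K)

theorem mem_zer {J : Submodule K E} {f : E} {u : (V → Bool) → K} :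
    u ∈ zer (V := V) J f ↔ u • f ∈ J := Iff.rfl

/-- **The annihilator.** In a world of degree `A` with slow growth of the dimensions after the
level `a`, in which the clauses of `F` hold, and for lines of depth `d` and size at most `S`, there
are approximations of the lines and formulas and a space `Z` in which they are correct, but which
does not contain 1, as soon as `S ^ 2 (2 (1 - 1 / (2 Λ)) ^ κ + 2 ^ (- m)) < 1`. -/
theorem exists_killer [CharP K p] (hW : World.IsWorld P M J A) (hx : ∀ v, xf K v ∈ P 1)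
    {F : Set (Clause V)} {a b m κ d w : ℕ} {Λ : ℝ} (hΛ : 1 ≤ Λ) (hκ : 1 ≤ κ)
    (hgrow : ∀ e, e ≤ d → ∀ j, j ≤ m →
      (World.rk J (1 : (V → Bool) → K) (M (a + j * (κ * (Fintype.card K - 1)) ^ e)) : ℝ) ≤
        (Λ / 2) ^ j * World.rk J (1 : (V → Bool) → K) (M a))
    (hpos : 0 < World.rk J (1 : (V → Bool) → K) (M a))
    (hw : ∀ C ∈ F, C.card ≤ w) (hF : ∀ C ∈ F, ∀ f ∈ M a, fals K C • f ∈ J)
    (hA : a + (m + 2 * (κ * (Fintype.card K - 1)) + b + 3) * (κ * (Fintype.card K - 1)) ^ d + w +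
      1 ≤ A)
    {S : ℝ} (hS : S ^ 2 * (2 * (1 - (2 * Λ)⁻¹) ^ κ + 2⁻¹ ^ m) < 1) {l : ℕ}
    {L : Fin l → Line V p} (hd : ∀ i, ∀ φ ∈ L i, φ.depth ≤ d) (hsize : (size L : ℝ) ≤ S) :
    ∃ (hp : Choice V K) (Z : Submodule K ((V → Bool) → K)) (τ : ℕ → ℕ) (r : ℕ),
      Setting P Z τ b d w r hp ∧ Correct F Z hp d w L ∧ 1 ∉ Z := by
  classical
  have hQ : 1 < Fintype.card K := Fintype.one_lt_card
  obtain ⟨c, hc⟩ : ∃ c, c = κ * (Fintype.card K - 1) := ⟨_, rfl⟩
  have hc1 : 1 ≤ c := by
    rw [hc]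
    exact Nat.mul_pos hκ (by omega)
  rw [← hc] at hA
  simp only [← hc] at hgrow
  have hmono : ∀ e, e ≤ d → c ^ e ≤ c ^ d := fun e he => Nat.pow_le_pow_right hc1 he
  obtain ⟨ε, hε⟩ : ∃ ε : ℝ, ε = 2 * (1 - (2 * Λ)⁻¹) ^ κ + 2⁻¹ ^ m := ⟨_, rfl⟩
  rw [← hε] at hS
  have hε0 : 0 ≤ ε := by
    rw [hε]
    have h1 : (2 * Λ)⁻¹ ≤ 1 := inv_le_one_of_one_le₀ (by linarith)
    have h2 : 0 ≤ (1 - (2 * Λ)⁻¹) ^ κ := pow_nonneg (by linarith) _
    positivity
  have hP : IsDeg P := ⟨hW.one_mem, hW.P_mono, hW.P_mul, hx⟩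
  -- the approximations
  have hex : ∀ (e : ℕ) (G : Finset ((V → Bool) → K)), e ≤ d → (∀ g ∈ G, g ∈ P (c ^ e)) →
      ∃ h : (V → Bool) → K, h ∈ P (c ^ (e + 1)) ∧ (∀ x, h x = 0 ∨ h x = 1) ∧
        1 - h ∈ P (c ^ (e + 1)) * Submodule.span K (G : Set ((V → Bool) → K)) ∧
        ∑ g ∈ G, (World.rk J (g * h) (M a) : ℝ) ≤
          ε * (G.card * World.rk J (1 : (V → Bool) → K) (M a)) := by
    intro e G he hG
    have h1 : c ^ e ≤ c ^ d := hmono e he
    have h2 : κ * ((Fintype.card K - 1) * c ^ e) = c ^ (e + 1) := by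
      rw [← mul_assoc, ← hc, pow_succ, mul_comm]
    obtain ⟨q, hq1, hq2, hq3⟩ := World.exists_prod hW (β := {g // g ∈ G}) (t := c ^ e) (a := a)
      (m := m) hΛ (hgrow e he) (g := fun g => g.1) (fun g => hG g.1 g.2) κ (by
        rw [h2, pow_succ]
        have h3 : (m + 2 * c + b + 3) * c ^ e ≤ (m + 2 * c + b + 3) * c ^ d :=
          Nat.mul_le_mul_left _ h1
        have h4 : (m + 2 * c + b + 3) * c ^ e = m * c ^ e + 2 * c ^ e + c ^ e * c +
          c ^ e * (c + b + 1) := by ring
        omega)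
    have hrange : Set.range (fun g : {g // g ∈ G} => g.1) = (G : Set ((V → Bool) → K)) := by
      ext g
      simp
    rw [hrange] at hq1
    rw [h2] at hq2
    refine ⟨∏ j, World.cf (q j), hq2, prod_cf_idem q, ?_, ?_⟩
    · have h3 := one_sub_prod_cf_mem hP (fun g hg => hG g hg) hq1
      rw [h2] at h3
      exact h3
    · rw [← hε, Fintype.card_coe] at hq3
      rwa [← sum_coe_sort G (fun g => (World.rk J (g * ∏ j, World.cf (q j)) (M a) : ℝ))]
  obtain ⟨hp, hid, hhp⟩ : ∃ hp : Choice V K, (∀ e G x, hp e G x = 0 ∨ hp e G x = 1) ∧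
      ∀ (e : ℕ) (G : Finset ((V → Bool) → K)), e ≤ d → (∀ g ∈ G, g ∈ P (c ^ e)) →
        hp e G ∈ P (c ^ (e + 1)) ∧ ∑ g ∈ G, (World.rk J (g * hp e G) (M a) : ℝ) ≤
          ε * (G.card * World.rk J (1 : (V → Bool) → K) (M a)) ∧
        1 - hp e G ∈ P (c ^ (e + 1)) * Submodule.span K (G : Set ((V → Bool) → K)) := by
    refine ⟨fun e G => if h : e ≤ d ∧ ∀ g ∈ G, g ∈ P (c ^ e) then (hex e G h.1 h.2).choose else 1,
      fun e G x => ?_, fun e G he hG => ?_⟩
    · by_cases h : e ≤ d ∧ ∀ g ∈ G, g ∈ P (c ^ e)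
      · simp only [dif_pos h]
        exact (hex e G h.1 h.2).choose_spec.2.1 x
      · simp only [dif_neg h]
        exact Or.inr rfl
    · have h : e ≤ d ∧ ∀ g ∈ G, g ∈ P (c ^ e) := ⟨he, hG⟩
      simp only [dif_pos h]
      obtain ⟨h1, h2, h3, h4⟩ := (hex e G h.1 h.2).choose_spec
      exact ⟨h1, h4, h3⟩
  obtain ⟨τ, hτ⟩ : ∃ τ : ℕ → ℕ, τ = fun e => c ^ e := ⟨_, rfl⟩
  have hτe : ∀ e, τ e = c ^ e := fun e => by rw [hτ]
  have hgood : IsGood P τ d hp := by
    refine ⟨fun e he G hG => ?_, hid, fun e he G hG => ?_⟩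
    · rw [hτe] at hG ⊢
      exact (hhp e G he hG).1
    · rw [hτe] at hG ⊢
      exact (hhp e G he hG).2.2
  have hstep : ∀ e, (Fintype.card K - 1) * τ e ≤ τ (e + 1) := by
    intro e
    rw [hτe, hτe, pow_succ, mul_comm (c ^ e) c]
    refine Nat.mul_le_mul_right _ ?_
    rw [hc]
    exact Nat.le_mul_of_pos_left _ hκ
  have hzero : 1 ≤ τ 0 := by rw [hτe, pow_zero]
  have hmonoτ : Monotone τ := monotone_nat_of_le_succ fun e =>
    (Nat.le_mul_of_pos_left _ (by omega)).trans (hstep e)
  have hvalmem : ∀ φ : Fm V p, φ.depth ≤ d → ∀ e, φ.depth ≤ e → val hp φ ∈ P (c ^ e) := by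
    intro φ hφ e he
    rw [← hτe]
    exact hP.mono _ _ (hmonoτ he) (val_mem hP hgood hzero hstep φ (by omega))
  -- the gates of the proof
  obtain ⟨N, hN⟩ : ∃ N : Finset (Fm V p), N = (allSubs_finite L).toFinset := ⟨_, rfl⟩
  have hNmem : ∀ ψ, ψ ∈ N ↔ ψ ∈ allSubs L := fun ψ => by rw [hN, Set.Finite.mem_toFinset]
  have hsz : size L = l + N.card := by
    unfold size
    have h1 : {ψ | ∃ i, ∃ φ ∈ L i, ψ ∈ φ.subs} = allSubs L := rfl
    rw [h1, hN, Set.ncard_eq_toFinset_card _ (allSubs_finite L)]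
  have hdepsub : ∀ φ ψ : Fm V p, ψ ∈ φ.subs → ψ.depth ≤ φ.depth := by
    intro φ
    induction φ with
    | var v =>
      intro ψ h
      rw [Set.mem_singleton_iff.1 h]
    | neg φ ih =>
      intro ψ h
      rcases h with h | h
      · rw [Set.mem_singleton_iff.1 h]
      · exact ih ψ h
    | or f ih =>
      intro ψ h
      rcases h with h | h
      · rw [Set.mem_singleton_iff.1 h]
      · obtain ⟨i, hi⟩ := Set.mem_iUnion.1 h
        have := ih i ψ hi
        have := depth_or f i
        omega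
    | and f ih =>
      intro ψ h
      rcases h with h | h
      · rw [Set.mem_singleton_iff.1 h]
      · obtain ⟨i, hi⟩ := Set.mem_iUnion.1 h
        have := ih i ψ hi
        have := depth_and f i
        omega
    | mod r f ih =>
      intro ψ h
      rcases h with h | h
      · rw [Set.mem_singleton_iff.1 h]
      · obtain ⟨i, hi⟩ := Set.mem_iUnion.1 h
        have := ih i ψ hi
        have := depth_mod r f i
        omega
  have hNdep : ∀ ψ ∈ N, ψ.depth ≤ d := by
    intro ψ hψ
    obtain ⟨i, φ, hφ, h⟩ := (hNmem ψ).1 hψ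
    exact (hdepsub φ ψ h).trans (hd i φ hφ)
  have hLN : ∀ i, ∀ φ ∈ L i, φ ∈ N := fun i φ hφ =>
    (hNmem φ).2 ⟨i, φ, hφ, self_mem_subs φ⟩
  let key : Fm V p → ℕ × Finset ((V → Bool) → K) := fun ψ =>
    match ψ with
    | .var _ => (0, ∅)
    | .neg _ => (0, ∅)
    | .or f => (univ.sup fun i => (f i).depth, univ.image fun i => val hp (f i))
    | .and f => (univ.sup fun i => (f i).depth, univ.image fun i => 1 - val hp (f i))
    | .mod _ _ => (0, ∅)
  obtain ⟨𝒢, h𝒢⟩ : ∃ 𝒢 : Finset (ℕ × Finset ((V → Bool) → K)), 𝒢 =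
      (univ.image fun i : Fin l => (d, (L i).toFinset.image fun φ => val hp φ)) ∪ N.image key :=
    ⟨_, rfl⟩
  have h𝒢card : 𝒢.card ≤ size L := by
    rw [h𝒢, hsz]
    refine (card_union_le _ _).trans (Nat.add_le_add ?_ card_image_le)
    exact card_image_le.trans (by rw [card_univ, Fintype.card_fin])
  have h𝒢prop : ∀ x ∈ 𝒢, x.1 ≤ d ∧ (∀ g ∈ x.2, g ∈ P (c ^ x.1)) ∧ x.2.card ≤ size L := by
    intro x hx
    rw [h𝒢] at hx
    rcases mem_union.1 hx with hx | hx
    · obtain ⟨i, -, rfl⟩ := mem_image.1 hx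
      refine ⟨le_rfl, fun g hg => ?_, ?_⟩
      · obtain ⟨φ, hφ, rfl⟩ := mem_image.1 hg
        have h1 := hd i φ (List.mem_toFinset.1 hφ)
        exact hvalmem φ h1 d h1
      · refine card_image_le.trans ((card_le_card fun φ hφ => hLN i φ
          (List.mem_toFinset.1 hφ)).trans ?_)
        rw [hsz]
        omega
    · obtain ⟨ψ, hψ, rfl⟩ := mem_image.1 hx
      have hψd := hNdep ψ hψ
      cases ψ with
      | var v => exact ⟨Nat.zero_le _, fun g hg => absurd hg (notMem_empty g), Nat.zero_le _⟩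
      | neg φ => exact ⟨Nat.zero_le _, fun g hg => absurd hg (notMem_empty g), Nat.zero_le _⟩
      | mod r f => exact ⟨Nat.zero_le _, fun g hg => absurd hg (notMem_empty g), Nat.zero_le _⟩
      | or f =>
        have h0 : (Fm.or f).depth = 1 + univ.sup fun i => (f i).depth := rfl
        refine ⟨by change (univ.sup fun i => (f i).depth) ≤ d; omega, fun g hg => ?_, ?_⟩
        · obtain ⟨i, -, rfl⟩ := mem_image.1 hg
          have h1 := depth_or f i
          exact hvalmem (f i) (by omega) _ (le_sup (f := fun i => (f i).depth) (mem_univ i))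
        · have h1 : (univ.image fun i => val hp (f i)) ⊆ N.image (val hp) := by
            intro g hg
            obtain ⟨i, -, rfl⟩ := mem_image.1 hg
            refine mem_image_of_mem _ ((hNmem _).2 ?_)
            obtain ⟨i', φ, hφ, h⟩ := (hNmem _).1 hψ
            exact ⟨i', φ, hφ, subs_trans h (mem_subs_or f i)⟩
          refine (card_le_card h1).trans (card_image_le.trans ?_)
          rw [hsz]
          omega
      | and f =>
        have h0 : (Fm.and f).depth = 1 + univ.sup fun i => (f i).depth := rfl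
        refine ⟨by change (univ.sup fun i => (f i).depth) ≤ d; omega, fun g hg => ?_, ?_⟩
        · obtain ⟨i, -, rfl⟩ := mem_image.1 hg
          have h1 := depth_and f i
          exact Submodule.sub_mem _ (hP.one_mem' _)
            (hvalmem (f i) (by omega) _ (le_sup (f := fun i => (f i).depth) (mem_univ i)))
        · have h1 : (univ.image fun i => 1 - val hp (f i)) ⊆ N.image (fun φ => 1 - val hp φ) := by
            intro g hg
            obtain ⟨i, -, rfl⟩ := mem_image.1 hg
            refine mem_image_of_mem (fun φ => 1 - val hp φ) ((hNmem _).2 ?_)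
            obtain ⟨i', φ, hφ, h⟩ := (hNmem _).1 hψ
            exact ⟨i', φ, hφ, subs_trans h (mem_subs_and f i)⟩
          refine (card_le_card h1).trans (card_image_le.trans ?_)
          rw [hsz]
          omega
  -- the multiplier
  obtain ⟨s, hs⟩ : ∃ s : Finset (Σ _ : ℕ × Finset ((V → Bool) → K), (V → Bool) → K), s =
    𝒢.sigma fun x => x.2 := ⟨_, rfl⟩
  obtain ⟨R, hR⟩ : ∃ R : ℝ, R = World.rk J (1 : (V → Bool) → K) (M a) := ⟨_, rfl⟩
  have hR0 : 0 < R := by rw [hR]; exact_mod_cast hpos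
  have hsum : ((∑ x ∈ s, World.rk J (x.2 * hp x.1.1 x.1.2) (M a) : ℕ) : ℝ) < R := by
    rw [hs, sum_sigma]
    push_cast
    have h1 : ∀ x ∈ 𝒢, ∑ g ∈ x.2, (World.rk J (g * hp x.1 x.2) (M a) : ℝ) ≤
        ε * (size L * R) := by
      intro x hx
      obtain ⟨h2, h3, h4⟩ := h𝒢prop x hx
      have h5 := (hhp x.1 x.2 h2 h3).2.1
      rw [← hR] at h5
      refine h5.trans (mul_le_mul_of_nonneg_left (mul_le_mul_of_nonneg_right ?_ hR0.le) hε0)
      exact_mod_cast h4
    refine (sum_le_sum h1).trans_lt ?_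
    rw [sum_const, nsmul_eq_mul]
    have h2 : (𝒢.card : ℝ) ≤ size L := by exact_mod_cast h𝒢card
    have h3 : (0 : ℝ) ≤ size L := Nat.cast_nonneg _
    have h4 : (𝒢.card : ℝ) * (ε * (size L * R)) ≤ size L * (ε * (size L * R)) :=
      mul_le_mul_of_nonneg_right h2 (by positivity)
    refine h4.trans_lt ?_
    have h5 : (size L : ℝ) ^ 2 * ε ≤ S ^ 2 * ε :=
      mul_le_mul_of_nonneg_right (pow_le_pow_left₀ h3 hsize 2) hε0
    calc (size L : ℝ) * (ε * (size L * R)) = (size L : ℝ) ^ 2 * ε * R := by ring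
      _ ≤ S ^ 2 * ε * R := mul_le_mul_of_nonneg_right h5 hR0.le
      _ < 1 * R := mul_lt_mul_of_pos_right hS hR0
      _ = R := one_mul R
  have hsum' : ∑ x ∈ s, World.rk J (x.2 * hp x.1.1 x.1.2) (M a) <
      World.rk J (1 : (V → Bool) → K) (M a) := by
    rw [hR] at hsum
    exact_mod_cast hsum
  obtain ⟨f, hfM, hfJ, hf⟩ := World.exists_multiplier s (fun x => x.2 * hp x.1.1 x.1.2) hsum'
  have hgate : ∀ x ∈ 𝒢, ∀ g ∈ x.2, (g * hp x.1 x.2) • f ∈ J := by
    intro x hx g hg
    exact hf ⟨x, g⟩ (by rw [hs]; exact mem_sigma.2 ⟨hx, hg⟩)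
  -- the space of the functions that kill `f`
  have hZ : IsZ P (zer (V := V) J f) (A - a) := by
    intro i j u v hij hu hui hvj
    rw [mem_zer] at hu ⊢
    rw [mul_comm, mul_smul]
    refine hW.J_mul (a + i) j _ _ (by omega) hu ?_ hvj
    exact hW.M_mul a i f u (by omega) hfM hui
  have hset : Setting P (zer (V := V) J f) τ b d w (A - a) hp := by
    refine ⟨hP, hgood, hzero, hstep, hZ, ?_⟩
    rw [hτe, hτe, pow_succ]
    have h1 : (m + 2 * c + b + 3) * c ^ d = m * c ^ d + 2 * (c ^ d * c) + (b + 3) * c ^ d := by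
      ring
    omega
  have hcorr : Correct F (zer (V := V) J f) hp d w L := by
    refine ⟨hw, fun C hC => hF C hC f hfM, fun i φ hφ => ?_, fun k f' h j => ?_,
      fun k f' h j => ?_⟩
    · rw [mem_zer, mul_comm]
      exact hgate (d, (L i).toFinset.image fun φ => val hp φ) (by
        rw [h𝒢]
        exact mem_union_left _ (mem_image_of_mem _ (mem_univ i))) _
        (mem_image_of_mem _ (List.mem_toFinset.2 hφ))
    · have h1 : Fm.or f' ∈ N := by
        obtain ⟨i, φ, hφ, h⟩ := h
        exact (hNmem _).2 ⟨i, φ, hφ, h⟩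
      have h2 : 1 - val hp (Fm.or f') = hp (univ.sup fun i => (f' i).depth)
          (univ.image fun i => val hp (f' i)) := by
        change 1 - (1 - hp _ _) = _
        ring
      rw [h2, mem_zer, mul_comm]
      exact hgate (key (Fm.or f')) (by
        rw [h𝒢]
        exact mem_union_right _ (mem_image_of_mem _ h1)) _
        (mem_image_of_mem (fun i => val hp (f' i)) (mem_univ j))
    · have h1 : Fm.and f' ∈ N := by
        obtain ⟨i, φ, hφ, h⟩ := h
        exact (hNmem _).2 ⟨i, φ, hφ, h⟩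
      rw [mem_zer, mul_comm]
      exact hgate (key (Fm.and f')) (by
        rw [h𝒢]
        exact mem_union_right _ (mem_image_of_mem _ h1)) _
        (mem_image_of_mem (fun i => 1 - val hp (f' i)) (mem_univ j))
  refine ⟨hp, zer (V := V) J f, τ, A - a, hset, hcorr, fun hone => ?_⟩
  rw [mem_zer, one_smul] at hone
  exact hfJ hone

end main

end Pool.Agent.MP_9cec2c_lc.AZ
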