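import Pool.Agent.Lib.MP_9cec2c_lc.AZVal

/-!
Soundness of the sequent calculus in a space `Z` of functions that is closed under products of small
degree.
-/

set_option autoImplicit false
set_option linter.unusedSectionVars false

namespace Pool.Agent.MP_9cec2c_lc.AZ

open Finset

variable {V : Type} {p : ℕ} {K : Type} [Field K] [Fintype K]

/-- The space `Z` is closed under products, up to degree `r`. -/
def IsZ (P : ℕ → Submodule K ((V → Bool) → K)) (Z : Submodule K ((V → Bool) → K)) (r : ℕ) : Prop :=
  ∀ i j u v, i + j ≤ r → u ∈ Z → u ∈ P i → v ∈ P j → u * v ∈ Z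

/-- The indicator function of 'all literals of the clause are false'. -/
def fals (K : Type) [Field K] (C : Clause V) : (V → Bool) → K := ∏ l ∈ C, (1 - lf K l)

section

variable {P : ℕ → Submodule K ((V → Bool) → K)} {Z : Submodule K ((V → Bool) → K)} {r : ℕ}

theorem absorb (hP : IsDeg P) (hZ : IsZ P Z r) {s t D : ℕ} {u h : (V → Bool) → K}
    {G : Set ((V → Bool) → K)} (hu : u ∈ P s) (hG : ∀ g ∈ G, g ∈ P t)
    (hh : 1 - h ∈ P D * Submodule.span K G) (h1 : ∀ g ∈ G, u * g ∈ Z) (h2 : u * h ∈ Z)
    (hr : s + t + D ≤ r) : u ∈ Z := by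
  have hspan : Submodule.span K G ≤ P t := Submodule.span_le.2 hG
  have hq : ∀ q ∈ Submodule.span K G, u * q ∈ Z := by
    intro q hq
    induction hq using Submodule.span_induction with
    | mem x hx => exact h1 x hx
    | zero => rw [mul_zero]; exact Submodule.zero_mem _
    | add x y _ _ hx hy => rw [mul_add]; exact Submodule.add_mem _ hx hy
    | smul c x _ hx => rw [mul_smul_comm]; exact Submodule.smul_mem _ _ hx
  have h3 : u * (1 - h) ∈ Z := by
    refine Submodule.mul_induction_on hh (fun c hc q hqG => ?_) fun x y hx hy => ?_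
    · have h4 : u * (c * q) = u * q * c := by ring
      rw [h4]
      exact hZ (s + t) D _ _ hr (hq q hqG) (hP.mul _ _ _ _ hu (hspan hqG)) hc
    · rw [mul_add]
      exact Submodule.add_mem _ hx hy
  have h4 : u = u * h + u * (1 - h) := by ring
  rw [h4]
  exact Submodule.add_mem _ h2 h3

theorem lf_mem (hP : IsDeg P) (l : V × Bool) : lf K l ∈ P 1 := by
  obtain ⟨v, b⟩ := l
  cases b with
  | true => exact hP.var v
  | false =>
    have h1 : lf K (v, false) = 1 - xf K v := by
      funext x
      rw [Pi.sub_apply, Pi.one_apply]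
      unfold lf xf
      cases x v <;> simp
    rw [h1]
    exact Submodule.sub_mem _ (hP.one_mem' _) (hP.var v)

theorem fals_mem (hP : IsDeg P) (C : Clause V) : fals K C ∈ P C.card := by
  classical
  unfold fals
  induction C using Finset.induction_on with
  | empty => rw [prod_empty, card_empty]; exact hP.one_mem
  | insert l C hl ih =>
    rw [prod_insert hl, card_insert_of_notMem hl, Nat.add_comm]
    exact hP.mul _ _ _ _ (Submodule.sub_mem _ (hP.one_mem' _) (lf_mem hP l)) ih

theorem one_sub_fals_mem (hP : IsDeg P) (C : Clause V) :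
    1 - fals K C ∈ P C.card * Submodule.span K (lf K '' (C : Set (V × Bool))) := by
  classical
  have key : ∀ D : Clause V, D ⊆ C →
      1 - fals K D ∈ P C.card * Submodule.span K (lf K '' (C : Set (V × Bool))) := by
    intro D
    induction D using Finset.induction_on with
    | empty => intro _; unfold fals; rw [prod_empty, sub_self]; exact Submodule.zero_mem _
    | insert l D hl ih =>
      intro hD
      have h1 : 1 - fals K (insert l D) = (1 - fals K D) + fals K D * lf K l := by
        unfold fals
        rw [prod_insert hl]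
        ring
      rw [h1]
      refine Submodule.add_mem _ (ih ((subset_insert _ _).trans hD)) (Submodule.mul_mem_mul ?_ ?_)
      · exact hP.mono _ _ (card_le_card ((subset_insert _ _).trans hD)) (fals_mem hP D)
      · exact Submodule.subset_span ⟨l, hD (mem_insert_self _ _), rfl⟩
  exact key C subset_rfl

theorem val_lit (hp : Choice V K) (l : V × Bool) : val hp (Fm.lit l : Fm V p) = lf K l := by
  obtain ⟨v, b⟩ := l
  cases b with
  | true => rfl
  | false =>
    change 1 - xf K v = lf K (v, false)
    funext x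
    rw [Pi.sub_apply, Pi.one_apply]
    unfold lf xf
    cases x v <;> simp

/-- Functions of formulas one of which is 1 at every point. -/
theorem exact_list (hP : IsDeg P) (hZ : IsZ P Z r) {s t : ℕ} {u : (V → Bool) → K}
    (hu : u ∈ P s) (l : List ((V → Bool) → K)) (hl : ∀ a ∈ l, a ∈ P t) (hul : ∀ a ∈ l, u * a ∈ Z)
    (h : ∀ x, ∃ a ∈ l, a x = 1) (hr : s + l.length * t ≤ r) : u ∈ Z := by
  have hprod : ∀ l' : List ((V → Bool) → K), (∀ a ∈ l', a ∈ P t) →
      (l'.map fun a => 1 - a).prod ∈ P (l'.length * t) := by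
    intro l' hl'
    induction l' with
    | nil =>
      rw [List.map_nil, List.prod_nil, List.length_nil, Nat.zero_mul]
      exact hP.one_mem
    | cons a l' ih =>
      rw [List.map_cons, List.prod_cons, List.length_cons, Nat.add_comm, add_mul, one_mul]
      exact hP.mul _ _ _ _ (Submodule.sub_mem _ (hP.one_mem' _) (hl' a (by simp)))
        (ih fun a ha => hl' a (by simp [ha]))
  have key : ∀ l' : List ((V → Bool) → K), (∀ a ∈ l', a ∈ P t) → (∀ a ∈ l', u * a ∈ Z) →
      s + l'.length * t ≤ r → u * (1 - (l'.map fun a => 1 - a).prod) ∈ Z := by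
    intro l' hl' hul' hr'
    induction l' with
    | nil =>
      rw [List.map_nil, List.prod_nil, sub_self, mul_zero]
      exact Submodule.zero_mem _
    | cons a l' ih =>
      rw [List.length_cons, add_mul, one_mul] at hr'
      have h1 := ih (fun a ha => hl' a (by simp [ha])) (fun a ha => hul' a (by simp [ha]))
        (by omega)
      have h2 := hul' a (by simp)
      have h3 : u * (1 - ((a :: l').map fun a => 1 - a).prod) =
          u * (1 - (l'.map fun a => 1 - a).prod) + u * a * (l'.map fun a => 1 - a).prod := by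
        rw [List.map_cons, List.prod_cons]
        ring
      rw [h3]
      refine Submodule.add_mem _ h1 ?_
      exact hZ (s + t) (l'.length * t) _ _ (by omega) h2
        (hP.mul _ _ _ _ hu (hl' a (by simp))) (hprod l' fun a ha => hl' a (by simp [ha]))
  have h1 := key l hl hul hr
  have h2 : (l.map fun a => 1 - a).prod = 0 := by
    funext x
    obtain ⟨a, ha, hax⟩ := h x
    have h3 : ∀ l' : List ((V → Bool) → K), a ∈ l' →
        ((l'.map fun a => 1 - a).prod : (V → Bool) → K) x = 0 := by
      intro l' hl'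
      induction l' with
      | nil => exact absurd hl' List.not_mem_nil
      | cons c l' ih =>
        rw [List.map_cons, List.prod_cons, Pi.mul_apply]
        rcases List.mem_cons.1 hl' with rfl | h
        · rw [Pi.sub_apply, Pi.one_apply, hax, sub_self, zero_mul]
        · rw [ih h, mul_zero]
    exact h3 l ha
  rwa [h2, sub_zero, mul_one] at h1

end

/-- The conditions for a refutation: the approximations of the lines and of the disjunctions and
conjunctions are correct in `Z`, and the clauses hold in `Z`. -/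
structure Correct (F : Set (Clause V)) (Z : Submodule K ((V → Bool) → K)) (hp : Choice V K)
    (d w : ℕ) {l : ℕ} (L : Fin l → Line V p) : Prop where
  width : ∀ C ∈ F, C.card ≤ w
  clause : ∀ C ∈ F, fals K C ∈ Z
  line : ∀ i, ∀ φ ∈ L i, hline hp d (L i) * val hp φ ∈ Z
  or : ∀ (k : ℕ) (f : Fin k → Fm V p), (∃ i, ∃ φ ∈ L i, Fm.or f ∈ φ.subs) → ∀ j,
    (1 - val hp (Fm.or f)) * val hp (f j) ∈ Z
  and : ∀ (k : ℕ) (f : Fin k → Fm V p), (∃ i, ∃ φ ∈ L i, Fm.and f ∈ φ.subs) → ∀ j,
    val hp (Fm.and f) * (1 - val hp (f j)) ∈ Z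

section

variable {P : ℕ → Submodule K ((V → Bool) → K)} {Z : Submodule K ((V → Bool) → K)} {r : ℕ}
  {τ : ℕ → ℕ} {d : ℕ} {hp : Choice V K}

theorem self_mem_subs (φ : Fm V p) : φ ∈ φ.subs := by
  cases φ with
  | var v => exact rfl
  | neg φ => exact Or.inl rfl
  | or f => exact Or.inl rfl
  | and f => exact Or.inl rfl
  | mod r f => exact Or.inl rfl

/-- The setting for the induction. -/
structure Setting (P : ℕ → Submodule K ((V → Bool) → K)) (Z : Submodule K ((V → Bool) → K))
    (τ : ℕ → ℕ) (b d w r : ℕ) (hp : Choice V K) : Prop where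
  deg : IsDeg P
  good : IsGood P τ d hp
  zero : 1 ≤ τ 0
  step : ∀ e, (Fintype.card K - 1) * τ e ≤ τ (e + 1)
  isZ : IsZ P Z r
  r_le : 2 * τ (d + 1) + (b + 3) * τ d + w + 1 ≤ r

theorem Setting.mono {b w : ℕ} (S : Setting P Z τ b d w r hp) : Monotone τ :=
  monotone_nat_of_le_succ fun e =>
    (Nat.le_mul_of_pos_left _ (by
      have : 1 < Fintype.card K := Fintype.one_lt_card
      omega)).trans (S.step e)

theorem Setting.val_mem {b w : ℕ} (S : Setting P Z τ b d w r hp) {φ : Fm V p} (hφ : φ.depth ≤ d) :
    val hp φ ∈ P (τ d) :=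
  S.deg.mono _ _ (S.mono hφ) (AZ.val_mem S.deg S.good S.zero S.step φ (by omega))

theorem Setting.val_idem {b w : ℕ} (S : Setting P Z τ b d w r hp) (φ : Fm V p) :
    val hp φ * val hp φ = val hp φ := by
  funext x
  rw [Pi.mul_apply]
  rcases val_01 S.good.idem φ x with h | h <;> rw [h]
  · rw [mul_zero]
  · rw [mul_one]

theorem Setting.line_mem {b w : ℕ} (S : Setting P Z τ b d w r hp) {Γ : Line V p}
    (hΓ : ∀ φ ∈ Γ, φ.depth ≤ d) : hline hp d Γ ∈ P (τ (d + 1)) := by
  classical
  unfold hline
  refine S.good.mem d le_rfl _ fun g hg => ?_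
  obtain ⟨φ, hφ, rfl⟩ := mem_image.1 hg
  exact S.val_mem (hΓ φ (List.mem_toFinset.1 hφ))

/-- `u` is in `Z` if it is in `Z` after multiplication with the functions of the formulas of a line
and with the approximation of the line. -/
theorem Setting.absorb_line {b w : ℕ} (S : Setting P Z τ b d w r hp) {Γ : Line V p}
    (hΓ : ∀ φ ∈ Γ, φ.depth ≤ d) {s : ℕ} {u : (V → Bool) → K} (hu : u ∈ P s)
    (h1 : ∀ φ ∈ Γ, u * val hp φ ∈ Z) (h2 : hline hp d Γ ∈ Z) (hs : s ≤ τ (d + 1) + τ d) :
    u ∈ Z := by
  classical
  have hr := S.r_le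
  have hr2 : (b + 3) * τ d = b * τ d + 3 * τ d := by ring
  have hmem : ∀ g ∈ (Γ.toFinset.image fun φ => val hp φ), g ∈ P (τ d) := fun g hg => by
    obtain ⟨φ, hφ, rfl⟩ := mem_image.1 hg
    exact S.val_mem (hΓ φ (List.mem_toFinset.1 hφ))
  refine absorb S.deg S.isZ (t := τ d) (D := τ (d + 1)) hu (G := (Γ.toFinset.image fun φ =>
    val hp φ : Finset ((V → Bool) → K))) (fun g hg => hmem g hg)
    (S.good.ideal d le_rfl _ hmem) (fun g hg => ?_) ?_ (by omega)
  · obtain ⟨φ, hφ, rfl⟩ := mem_image.1 (mem_coe.1 hg)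
    exact h1 φ (List.mem_toFinset.1 hφ)
  · rw [mul_comm]
    have h3 := S.isZ (τ (d + 1)) s _ u (by omega) h2 (S.line_mem hΓ) hu
    exact h3

theorem depth_or {k : ℕ} (f : Fin k → Fm V p) (i : Fin k) :
    (f i).depth + 1 ≤ (Fm.or f).depth := by
  have h1 : (f i).depth ≤ univ.sup fun i => (f i).depth :=
    le_sup (f := fun i => (f i).depth) (mem_univ i)
  change (f i).depth + 1 ≤ 1 + _
  omega

theorem depth_and {k : ℕ} (f : Fin k → Fm V p) (i : Fin k) :
    (f i).depth + 1 ≤ (Fm.and f).depth := depth_or f i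

theorem depth_mod {k : ℕ} (r : ZMod p) (f : Fin k → Fm V p) (i : Fin k) :
    (f i).depth + 1 ≤ (Fm.mod r f).depth := depth_or f i

open Classical in
theorem val_mod [CharP K p] (hid : ∀ e (G : Finset ((V → Bool) → K)) x, hp e G x = 0 ∨ hp e G x = 1)
    (r : ZMod p) {k : ℕ} (f : Fin k → Fm V p) (x : V → Bool) :
    val hp (Fm.mod r f) x = 1 ↔ ((Set.ncard {i | val hp (f i) x = 1} : ℕ) : ZMod p) = r := by
  have h1 : ∑ i, val hp (f i) x = ((Set.ncard {i | val hp (f i) x = 1} : ℕ) : K) := by
    have h2 : ∀ i, val hp (f i) x = if val hp (f i) x = 1 then (1 : K) else 0 := by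
      intro i
      rcases val_01 hid (f i) x with h | h
      · rw [h, if_neg zero_ne_one]
      · rw [h, if_pos rfl]
    rw [sum_congr rfl fun i _ => h2 i, sum_boole]
    congr 1
    rw [Set.ncard_eq_toFinset_card']
    congr 1
    ext i
    simp
  have h2 : val hp (Fm.mod r f) x = if (∑ i, val hp (f i) x) - (ZMod.cast r : K) = 0 then 1 else 0 := by
    change cf _ x = _
    rw [cf_apply, Pi.sub_apply, Finset.sum_apply]
  rw [h2, h1, sub_eq_zero]
  have h3 : ((Set.ncard {i | val hp (f i) x = 1} : ℕ) : K) =
      (ZMod.castHom (dvd_refl p) K) ((Set.ncard {i | val hp (f i) x = 1} : ℕ) : ZMod p) := by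
    rw [map_natCast]
  have h4 : (ZMod.cast r : K) = (ZMod.castHom (dvd_refl p) K) r := by rw [ZMod.castHom_apply]
  rw [h3, h4]
  constructor
  · intro h
    by_contra hne
    rw [if_neg (fun h5 => hne (ZMod.castHom_injective K h5))] at h
    exact zero_ne_one h
  · intro h
    rw [h, if_pos rfl]

/-- The truth assignment of a point. -/
theorem respects_val [CharP K p]
    (hid : ∀ e (G : Finset ((V → Bool) → K)) x, hp e G x = 0 ∨ hp e G x = 1) (x : V → Bool) :
    Respects {φ : Fm V p | val hp φ x = 1} := by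
  refine ⟨fun φ => ?_, fun r k f => val_mod hid r f x⟩
  change 1 - val hp φ x = 1 ↔ ¬ val hp φ x = 1
  rcases val_01 hid φ x with h | h <;> rw [h]
  · simp
  · simp

/-- **Soundness.** All the approximations of the lines are in `Z`. -/
theorem line_mem_Z [CharP K p] {F : Set (Clause V)} {b w : ℕ} (S : Setting P Z τ b d w r hp)
    {l : ℕ} {L : Fin l → Line V p} (hL : ∀ i, Step b F (fun Γ => ∃ j < i, L j = Γ) (L i))
    (hd : ∀ i, ∀ φ ∈ L i, φ.depth ≤ d) (hC : Correct F Z hp d w L) (i : Fin l) :
    hline hp d (L i) ∈ Z := by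
  classical
  induction i using WellFoundedLT.induction with
  | ind i ih =>
    have hprev : ∀ Γ, (∃ j < i, L j = Γ) → hline hp d Γ ∈ Z ∧ ∀ φ ∈ Γ, φ.depth ≤ d := by
      rintro Γ ⟨j, hj, rfl⟩
      exact ⟨ih j hj, hd j⟩
    have hline' := hC.line i
    have hdep := hd i
    have hOr : ∀ (k : ℕ) (f : Fin k → Fm V p), (∃ φ ∈ L i, Fm.or f ∈ φ.subs) → ∀ j,
        (1 - val hp (Fm.or f)) * val hp (f j) ∈ Z := fun k f h => hC.or k f ⟨i, h⟩
    have hAnd : ∀ (k : ℕ) (f : Fin k → Fm V p), (∃ φ ∈ L i, Fm.and f ∈ φ.subs) → ∀ j,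
        val hp (Fm.and f) * (1 - val hp (f j)) ∈ Z := fun k f h => hC.and k f ⟨i, h⟩
    have hstep := hL i
    have hr := S.r_le
    have hr2 : (b + 3) * τ d = b * τ d + 3 * τ d := by ring
    clear ih hL
    revert hline' hdep hOr hAnd
    generalize L i = Δ at hstep
    intro hline' hdep hOr hAnd
    have hu := S.line_mem hdep
    obtain ⟨u, hu0⟩ : ∃ u, u = hline hp d Δ := ⟨_, rfl⟩
    rw [← hu0] at hline' hu ⊢
    have hone : ∀ {a : (V → Bool) → K} {t : ℕ}, a ∈ P t → 1 - a ∈ P t := fun ha =>
      Submodule.sub_mem _ (S.deg.one_mem' _) ha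
    cases hstep with
    | @clause C _ hCF h =>
      refine absorb S.deg S.isZ (t := 1) (D := C.card) hu (G := lf K '' (C : Set (V × Bool)))
        (fun g hg => ?_) (one_sub_fals_mem S.deg C) (fun g hg => ?_) ?_ ?_
      · obtain ⟨l, _, rfl⟩ := hg
        exact lf_mem S.deg l
      · obtain ⟨l, hl, rfl⟩ := hg
        rw [← val_lit (p := p) hp l]
        exact hline' _ (h l hl)
      · rw [mul_comm]
        refine S.isZ C.card (τ (d + 1)) _ _ ?_ (hC.clause C hCF) (fals_mem S.deg C) hu
        have := hC.width C hCF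
        omega
      · have := hC.width C hCF
        omega
    | ax hb h =>
      refine exact_list S.deg S.isZ (t := τ d) hu (Δ.map fun φ => val hp φ) (fun a ha => ?_)
        (fun a ha => ?_) (fun x => ?_) ?_
      · obtain ⟨φ, hφ, rfl⟩ := List.mem_map.1 ha
        exact S.val_mem (hdep φ hφ)
      · obtain ⟨φ, hφ, rfl⟩ := List.mem_map.1 ha
        exact hline' φ hφ
      · obtain ⟨φ, hφ, h1⟩ := h _ (respects_val S.good.idem x)
        exact ⟨val hp φ, List.mem_map.2 ⟨φ, hφ, rfl⟩, h1⟩
      · rw [List.length_map]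
        have := Nat.mul_le_mul_right (τ d) hb
        omega
    | @weak Γ _ h hs =>
      obtain ⟨h1, h2⟩ := hprev _ h
      exact S.absorb_line h2 hu (fun φ hφ => hline' φ (hs hφ)) h1 (by omega)
    | @cut _ φ h h' =>
      obtain ⟨h1, h2⟩ := hprev _ h
      obtain ⟨h3, h4⟩ := hprev _ h'
      have hφ : φ.depth ≤ d := h2 φ (by simp)
      have hv := S.val_mem hφ
      have hid := S.val_idem φ
      have h5 : u * (1 - val hp φ) ∈ Z := by
        refine S.absorb_line h2 (S.deg.mul _ _ _ _ hu (hone hv)) (fun ψ hψ => ?_) h1 le_rfl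
        rcases List.mem_cons.1 hψ with rfl | hψ
        · have h6 : u * (1 - val hp ψ) * val hp ψ = 0 := by
            rw [mul_assoc, sub_mul, one_mul, hid, sub_self, mul_zero]
          rw [h6]
          exact Submodule.zero_mem _
        · have h6 : u * (1 - val hp φ) * val hp ψ = u * val hp ψ * (1 - val hp φ) := by ring
          rw [h6]
          exact S.isZ (τ (d + 1) + τ d) (τ d) _ _ (by omega) (hline' ψ hψ)
            (S.deg.mul _ _ _ _ hu (S.val_mem (hdep ψ hψ))) (hone hv)
      have h7 : u * val hp φ ∈ Z := by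
        refine S.absorb_line h4 (S.deg.mul _ _ _ _ hu hv) (fun ψ hψ => ?_) h3 le_rfl
        rcases List.mem_cons.1 hψ with rfl | hψ
        · have h6 : u * val hp φ * val hp (Fm.neg φ) = 0 := by
            change u * val hp φ * (1 - val hp φ) = 0
            rw [mul_assoc, mul_sub, mul_one, hid, sub_self, mul_zero]
          rw [h6]
          exact Submodule.zero_mem _
        · have h6 : u * val hp φ * val hp ψ = u * val hp ψ * val hp φ := by ring
          rw [h6]
          exact S.isZ (τ (d + 1) + τ d) (τ d) _ _ (by omega) (hline' ψ hψ)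
            (S.deg.mul _ _ _ _ hu (S.val_mem (hdep ψ hψ))) hv
      have h8 : u = u * (1 - val hp φ) + u * val hp φ := by ring
      rw [h8]
      exact Submodule.add_mem _ h5 h7
    | @or Γ k f j h =>
      obtain ⟨h1, h2⟩ := hprev _ h
      have hor := hdep (Fm.or f) (by simp)
      have hfj := S.val_mem (h2 (f j) (by simp))
      refine S.absorb_line h2 hu (fun ψ hψ => ?_) h1 (by omega)
      rcases List.mem_cons.1 hψ with rfl | hψ
      · have h3 := hline' (Fm.or f) (by simp)
        have h4 := hOr k f ⟨Fm.or f, by simp, self_mem_subs _⟩ j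
        have h5 : u * val hp (f j) = u * val hp (Fm.or f) * val hp (f j) +
            (1 - val hp (Fm.or f)) * val hp (f j) * u := by ring
        rw [h5]
        refine Submodule.add_mem _ ?_ ?_
        · exact S.isZ (τ (d + 1) + τ d) (τ d) _ _ (by omega) h3
            (S.deg.mul _ _ _ _ hu (S.val_mem hor)) hfj
        · exact S.isZ (τ d + τ d) (τ (d + 1)) _ _ (by omega) h4
            (S.deg.mul _ _ _ _ (hone (S.val_mem hor)) hfj) hu
      · exact hline' ψ (List.mem_cons_of_mem _ hψ)
    | @negOr Γ k f h =>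
      have hor : (Fm.or f).depth ≤ d := hdep (Fm.neg (Fm.or f)) (by simp)
      have hfd : ∀ j, (f j).depth + 1 ≤ d := fun j => (depth_or f j).trans hor
      have h1 : ∀ j, u * val hp (f j) ∈ Z := by
        intro j
        obtain ⟨h2, h3⟩ := hprev _ (h j)
        have hfj := S.val_mem (by have := hfd j; omega : (f j).depth ≤ d)
        have hid := S.val_idem (f j)
        refine S.absorb_line h3 (S.deg.mul _ _ _ _ hu hfj) (fun ψ hψ => ?_) h2 le_rfl
        rcases List.mem_cons.1 hψ with rfl | hψ
        · have h6 : u * val hp (f j) * val hp (Fm.neg (f j)) = 0 := by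
            change u * val hp (f j) * (1 - val hp (f j)) = 0
            rw [mul_assoc, mul_sub, mul_one, hid, sub_self, mul_zero]
          rw [h6]
          exact Submodule.zero_mem _
        · have h6 : u * val hp (f j) * val hp ψ = u * val hp ψ * val hp (f j) := by ring
          rw [h6]
          have h7 := List.mem_cons_of_mem (Fm.neg (Fm.or f)) hψ
          exact S.isZ (τ (d + 1) + τ d) (τ d) _ _ (by omega) (hline' ψ h7)
            (S.deg.mul _ _ _ _ hu (S.val_mem (hdep ψ h7))) hfj
      have h2 := hline' (Fm.neg (Fm.or f)) (by simp)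
      obtain ⟨e, he⟩ : ∃ e, e = univ.sup fun i => (f i).depth := ⟨_, rfl⟩
      have hed : e + 1 ≤ d := by
        have h3 : (Fm.or f).depth = 1 + univ.sup fun i => (f i).depth := rfl
        rw [← he] at h3
        omega
      have hval : val hp (Fm.neg (Fm.or f)) = hp e (univ.image fun i => val hp (f i)) := by
        change 1 - (1 - hp _ _) = _
        rw [he]
        ring
      rw [hval] at h2
      have hmem : ∀ g ∈ (univ.image fun i => val hp (f i)), g ∈ P (τ e) := by
        intro g hg
        obtain ⟨j, -, rfl⟩ := mem_image.1 hg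
        have h4 : (f j).depth ≤ e := by
          rw [he]
          exact le_sup (f := fun i => (f i).depth) (mem_univ j)
        exact S.deg.mono _ _ (S.mono h4)
          (AZ.val_mem S.deg S.good S.zero S.step (f j) (by omega))
      have he1 : τ e ≤ τ d := S.mono (by omega)
      have he2 : τ (e + 1) ≤ τ d := S.mono hed
      refine absorb S.deg S.isZ (t := τ e) (D := τ (e + 1)) hu (G := (univ.image fun i =>
        val hp (f i) : Finset ((V → Bool) → K))) (fun g hg => hmem g hg)
        (S.good.ideal e (by omega) _ hmem) (fun g hg => ?_) h2 (by omega)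
      obtain ⟨j, -, rfl⟩ := mem_image.1 (mem_coe.1 hg)
      exact h1 j
    | @and Γ k f h =>
      have hand : (Fm.and f).depth ≤ d := hdep (Fm.and f) (by simp)
      have hfd : ∀ j, (f j).depth + 1 ≤ d := fun j => (depth_and f j).trans hand
      have h1 : ∀ j, u * (1 - val hp (f j)) ∈ Z := by
        intro j
        obtain ⟨h2, h3⟩ := hprev _ (h j)
        have hfj := S.val_mem (by have := hfd j; omega : (f j).depth ≤ d)
        have hid := S.val_idem (f j)
        refine S.absorb_line h3 (S.deg.mul _ _ _ _ hu (hone hfj)) (fun ψ hψ => ?_) h2 le_rfl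
        rcases List.mem_cons.1 hψ with rfl | hψ
        · have h6 : u * (1 - val hp (f j)) * val hp (f j) = 0 := by
            rw [mul_assoc, sub_mul, one_mul, hid, sub_self, mul_zero]
          rw [h6]
          exact Submodule.zero_mem _
        · have h6 : u * (1 - val hp (f j)) * val hp ψ = u * val hp ψ * (1 - val hp (f j)) := by
            ring
          rw [h6]
          have h7 := List.mem_cons_of_mem (Fm.and f) hψ
          exact S.isZ (τ (d + 1) + τ d) (τ d) _ _ (by omega) (hline' ψ h7)
            (S.deg.mul _ _ _ _ hu (S.val_mem (hdep ψ h7))) (hone hfj)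
      have h2 := hline' (Fm.and f) (by simp)
      obtain ⟨e, he⟩ : ∃ e, e = univ.sup fun i => (f i).depth := ⟨_, rfl⟩
      have hed : e + 1 ≤ d := by
        have h3 : (Fm.and f).depth = 1 + univ.sup fun i => (f i).depth := rfl
        rw [← he] at h3
        omega
      have hval : val hp (Fm.and f) = hp e (univ.image fun i => 1 - val hp (f i)) := by
        rw [he]
        rfl
      rw [hval] at h2
      have hmem : ∀ g ∈ (univ.image fun i => 1 - val hp (f i)), g ∈ P (τ e) := by
        intro g hg
        obtain ⟨j, -, rfl⟩ := mem_image.1 hg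
        have h4 : (f j).depth ≤ e := by
          rw [he]
          exact le_sup (f := fun i => (f i).depth) (mem_univ j)
        exact hone (S.deg.mono _ _ (S.mono h4)
          (AZ.val_mem S.deg S.good S.zero S.step (f j) (by omega)))
      have he1 : τ e ≤ τ d := S.mono (by omega)
      have he2 : τ (e + 1) ≤ τ d := S.mono hed
      refine absorb S.deg S.isZ (t := τ e) (D := τ (e + 1)) hu (G := (univ.image fun i =>
        1 - val hp (f i) : Finset ((V → Bool) → K))) (fun g hg => hmem g hg)
        (S.good.ideal e (by omega) _ hmem) (fun g hg => ?_) h2 (by omega)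
      obtain ⟨j, -, rfl⟩ := mem_image.1 (mem_coe.1 hg)
      exact h1 j
    | @negAnd Γ k f j h =>
      obtain ⟨h1, h2⟩ := hprev _ h
      have hand : (Fm.and f).depth ≤ d := hdep (Fm.neg (Fm.and f)) (by simp)
      have hfj : val hp (f j) ∈ P (τ d) := S.val_mem (h2 (Fm.neg (f j)) (by simp))
      refine S.absorb_line h2 hu (fun ψ hψ => ?_) h1 (by omega)
      rcases List.mem_cons.1 hψ with rfl | hψ
      · have h3 := hline' (Fm.neg (Fm.and f)) (by simp)
        have h4 := hAnd k f ⟨Fm.neg (Fm.and f), by simp, Or.inr (self_mem_subs _)⟩ j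
        have h3' : u * (1 - val hp (Fm.and f)) ∈ Z := h3
        change u * (1 - val hp (f j)) ∈ Z
        have h5 : u * (1 - val hp (f j)) = u * (1 - val hp (Fm.and f)) * (1 - val hp (f j)) +
            val hp (Fm.and f) * (1 - val hp (f j)) * u := by ring
        rw [h5]
        refine Submodule.add_mem _ ?_ ?_
        · exact S.isZ (τ (d + 1) + τ d) (τ d) _ _ (by omega) h3'
            (S.deg.mul _ _ _ _ hu (hone (S.val_mem hand))) (hone hfj)
        · exact S.isZ (τ d + τ d) (τ (d + 1)) _ _ (by omega) h4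
            (S.deg.mul _ _ _ _ (S.val_mem hand) (hone hfj)) hu
      · exact hline' ψ (List.mem_cons_of_mem _ hψ)

/-- **No refutation** in a space `Z` that does not contain 1. -/
theorem one_mem_Z [CharP K p] {F : Set (Clause V)} {b w : ℕ} (S : Setting P Z τ b d w r hp)
    {l : ℕ} {L : Fin l → Line V p} (hL : IsRefutation b F d L) (hC : Correct F Z hp d w L) :
    1 ∈ Z := by
  classical
  obtain ⟨h1, h2, i, hi⟩ := hL
  have h3 := line_mem_Z S h1 h2 hC i
  rw [hi] at h3
  have h4 := S.good.ideal d le_rfl ∅ (by simp)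
  rw [coe_empty, Submodule.span_empty, Submodule.mul_bot, Submodule.mem_bot, sub_eq_zero] at h4
  have h5 : hline hp d ([] : Line V p) = hp d ∅ := by
    unfold hline
    congr 1
  rw [h5, ← h4] at h3
  exact h3

theorem step_mono {F F' : Set (Clause V)} (hF : F ⊆ F') {b : ℕ} {Prev : Line V p → Prop}
    {Γ : Line V p} (h : Step b F Prev Γ) : Step b F' Prev Γ := by
  cases h with
  | clause hC h => exact .clause (hF hC) h
  | ax hb h => exact .ax hb h
  | weak h hs => exact .weak h hs
  | cut φ h h' => exact .cut φ h h'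
  | or i h => exact .or i h
  | negOr h => exact .negOr h
  | and h => exact .and h
  | negAnd i h => exact .negAnd i h

/-- **No proof** of 'some clause of `F` is false' in a space `Z` that does not contain 1. -/
theorem one_mem_Z_proof [CharP K p] {F : Finset (Clause V)} {b w : ℕ}
    (S : Setting P Z τ b d w r hp) {l : ℕ} {L : Fin l → Line V p}
    (hL : IsProof b d L (falsified F)) (hC : Correct (F : Set (Clause V)) Z hp d w L) :
    1 ∈ Z := by
  classical
  obtain ⟨h1, h2, i, hi⟩ := hL
  have h3 := line_mem_Z S (fun i => step_mono (Set.empty_subset _) (h1 i)) h2 hC i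
  have hline := hC.line i
  have hdep := h2 i
  have hAnd := fun k f h => hC.and k f ⟨i, h⟩
  rw [hi] at h3 hline hdep hAnd
  have hr := S.r_le
  have hr2 : (b + 3) * τ d = b * τ d + 3 * τ d := by ring
  have hone : (1 : (V → Bool) → K) ∈ P 0 := S.deg.one_mem
  obtain ⟨f, hf⟩ : ∃ f : Fin F.toList.length → Fm V p, f = fun i => (F.toList.get i).neg :=
    ⟨_, rfl⟩
  have hfal : (falsified F : Fm V p) = Fm.or f := by rw [hf]; rfl
  rw [hfal] at h3 hline hdep hAnd
  have hord : (Fm.or f).depth ≤ d := hdep _ (by simp)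
  -- every conjunction is in `Z`
  have hconj : ∀ j, val hp (f j) ∈ Z := by
    intro j
    obtain ⟨C, hCj⟩ : ∃ C, C = F.toList.get j := ⟨_, rfl⟩
    have hCF : C ∈ F := by
      rw [hCj]
      exact mem_toList.1 (List.get_mem _ _)
    obtain ⟨g, hg⟩ : ∃ g : Fin C.toList.length → Fm V p,
      g = fun j => Fm.lit ((C.toList.get j).1, !(C.toList.get j).2) := ⟨_, rfl⟩
    have hfj : f j = Fm.and g := by
      rw [hf, hg, hCj]
      rfl
    have hfjd : (f j).depth ≤ d := by
      have := depth_or f j
      omega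
    have hfm := S.val_mem hfjd
    have h4 : ∀ l ∈ C, val hp (f j) * lf K l ∈ Z := by
      intro l hl
      obtain ⟨m, hm⟩ := List.get_of_mem (mem_toList.2 hl)
      have h5 := hAnd _ g ⟨Fm.or f, by simp, ?_⟩ m
      · have h6 : 1 - val hp (g m) = lf K l := by
          rw [hg]
          simp only
          rw [val_lit, hm]
          obtain ⟨v, c⟩ := l
          funext x
          rw [Pi.sub_apply, Pi.one_apply]
          unfold lf
          cases c <;> cases x v <;> simp
        rw [hfj, ← h6]
        exact h5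
      · rw [← hfj]
        exact Or.inr (Set.mem_iUnion.2 ⟨j, self_mem_subs _⟩)
    have hw := hC.width C hCF
    refine absorb S.deg S.isZ (t := 1) (D := C.card) hfm (G := lf K '' (C : Set (V × Bool)))
      (fun g hg => ?_) (one_sub_fals_mem S.deg C) (fun g hg => ?_) ?_ (by omega)
    · obtain ⟨l, _, rfl⟩ := hg
      exact lf_mem S.deg l
    · obtain ⟨l, hl, rfl⟩ := hg
      exact h4 l hl
    · rw [mul_comm]
      exact S.isZ C.card (τ d) _ _ (by omega) (hC.clause C hCF) (fals_mem S.deg C) hfm
  -- hence the disjunction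
  have hdisj : val hp (Fm.or f) ∈ Z := by
    obtain ⟨e, he⟩ : ∃ e, e = univ.sup fun i => (f i).depth := ⟨_, rfl⟩
    have hed : e + 1 ≤ d := by
      have h3 : (Fm.or f).depth = 1 + univ.sup fun i => (f i).depth := rfl
      rw [← he] at h3
      omega
    have hval : val hp (Fm.or f) = 1 - hp e (univ.image fun i => val hp (f i)) := by
      rw [he]
      rfl
    have hmem : ∀ g ∈ (univ.image fun i => val hp (f i)), g ∈ P (τ e) := by
      intro g hg
      obtain ⟨j, -, rfl⟩ := mem_image.1 hg
      have h4 : (f j).depth ≤ e := by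
        rw [he]
        exact le_sup (f := fun i => (f i).depth) (mem_univ j)
      exact S.deg.mono _ _ (S.mono h4)
        (AZ.val_mem S.deg S.good S.zero S.step (f j) (by omega))
    have he1 : τ e ≤ τ d := S.mono (by omega)
    have he2 : τ (e + 1) ≤ τ d := S.mono hed
    have hspan : ∀ q ∈ Submodule.span K ((univ.image fun i =>
        val hp (f i) : Finset ((V → Bool) → K)) : Set ((V → Bool) → K)), q ∈ Z ∧ q ∈ P (τ e) := by
      intro q hq
      induction hq using Submodule.span_induction with
      | mem x hx =>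
        refine ⟨?_, hmem x hx⟩
        obtain ⟨j, -, rfl⟩ := mem_image.1 (mem_coe.1 hx)
        exact hconj j
      | zero => exact ⟨Submodule.zero_mem _, Submodule.zero_mem _⟩
      | add x y _ _ hx hy =>
        exact ⟨Submodule.add_mem _ hx.1 hy.1, Submodule.add_mem _ hx.2 hy.2⟩
      | smul c x _ hx => exact ⟨Submodule.smul_mem _ _ hx.1, Submodule.smul_mem _ _ hx.2⟩
    rw [hval]
    refine Submodule.mul_induction_on (S.good.ideal e (by omega) _ hmem) (fun c hc q hq => ?_)
      fun x y hx hy => Submodule.add_mem _ hx hy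
    obtain ⟨h4, h5⟩ := hspan q hq
    rw [mul_comm]
    exact S.isZ (τ e) (τ (e + 1)) _ _ (by omega) h4 h5 hc
  refine S.absorb_line hdep hone (fun φ hφ => ?_) h3 (Nat.zero_le _)
  rw [List.mem_singleton] at hφ
  rw [hφ, one_mul]
  exact hdisj

end

end Pool.Agent.MP_9cec2c_lc.AZ
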