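import Pool.Agent.Lib.MP_9cec2c_lc.AZDefs

/-!
The functions assigned to formulas, relative to a choice of approximations of disjunctions.
-/

set_option autoImplicit false
set_option linter.unusedSectionVars false

namespace Pool.Agent.MP_9cec2c_lc.AZ

open Finset

variable {V : Type} {p : ℕ} {K : Type} [Field K] [Fintype K]

/-- The variable `v` as a function. -/
def xf (K : Type) [Field K] (v : V) : (V → Bool) → K := fun x => if x v = true then 1 else 0

/-- The literal `l` as a function. -/
def lf (K : Type) [Field K] (l : V × Bool) : (V → Bool) → K := fun x => if x l.1 = l.2 then 1 else 0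

/-- The indicator function of the zeros of `q`. -/
def cf {α : Type} (q : α → K) : α → K := 1 - q ^ (Fintype.card K - 1)

theorem cf_apply {α : Type} [DecidableEq K] (q : α → K) (x : α) :
    cf q x = if q x = 0 then 1 else 0 := by
  unfold cf
  rw [Pi.sub_apply, Pi.one_apply, Pi.pow_apply]
  have h1 : 1 < Fintype.card K := Fintype.one_lt_card
  by_cases h : q x = 0
  · rw [if_pos h, h, zero_pow (by omega), sub_zero]
  · rw [if_neg h, FiniteField.pow_card_sub_one_eq_one _ h, sub_self]

/-- A choice of approximations: `hp e G` is the approximation of 'all functions in `G` are 0' for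
functions of formulas of depth `e`. -/
abbrev Choice (V K : Type) : Type := ℕ → Finset ((V → Bool) → K) → (V → Bool) → K

open Classical in
/-- The function of a formula. -/
noncomputable def val (hp : Choice V K) : Fm V p → (V → Bool) → K
  | .var v => xf K v
  | .neg φ => 1 - val hp φ
  | .or f => 1 - hp (univ.sup fun i => (f i).depth) (univ.image fun i => val hp (f i))
  | .and f => hp (univ.sup fun i => (f i).depth) (univ.image fun i => 1 - val hp (f i))
  | .mod r f => cf (∑ i, val hp (f i) - fun _ => (ZMod.cast r : K))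

open Classical in
/-- The approximation of 'all formulas of the line are false'. -/
noncomputable def hline (hp : Choice V K) (d : ℕ) (Γ : Line V p) : (V → Bool) → K :=
  hp d (Γ.toFinset.image fun φ => val hp φ)

/-- The properties of a good choice of approximations: `hp e G` is 0/1-valued, of small degree, and
`1 - hp e G` is a combination of the elements of `G` with coefficients of small degree. -/
structure IsGood (P : ℕ → Submodule K ((V → Bool) → K)) (τ : ℕ → ℕ) (d : ℕ)
    (hp : Choice V K) : Prop where
  mem : ∀ e, e ≤ d → ∀ G : Finset ((V → Bool) → K), (∀ g ∈ G, g ∈ P (τ e)) →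
    hp e G ∈ P (τ (e + 1))
  idem : ∀ e (G : Finset ((V → Bool) → K)) x, hp e G x = 0 ∨ hp e G x = 1
  ideal : ∀ e, e ≤ d → ∀ G : Finset ((V → Bool) → K), (∀ g ∈ G, g ∈ P (τ e)) →
    1 - hp e G ∈ P (τ (e + 1)) * Submodule.span K (G : Set ((V → Bool) → K))

/-- The algebra of the spaces of functions of bounded degree. -/
structure IsDeg (P : ℕ → Submodule K ((V → Bool) → K)) : Prop where
  one_mem : 1 ∈ P 0
  mono : ∀ a b, a ≤ b → P a ≤ P b
  mul : ∀ a b p q, p ∈ P a → q ∈ P b → p * q ∈ P (a + b)
  var : ∀ v, xf K v ∈ P 1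

section

variable {P : ℕ → Submodule K ((V → Bool) → K)} {τ : ℕ → ℕ} {d : ℕ} {hp : Choice V K}

theorem IsDeg.one_mem' (hP : IsDeg P) (t : ℕ) : (1 : (V → Bool) → K) ∈ P t :=
  hP.mono 0 t (Nat.zero_le _) hP.one_mem

theorem IsDeg.pow_mem (hP : IsDeg P) {t : ℕ} {q : (V → Bool) → K} (hq : q ∈ P t) (m : ℕ) :
    q ^ m ∈ P (m * t) := by
  induction m with
  | zero =>
    rw [pow_zero, Nat.zero_mul]
    exact hP.one_mem
  | succ m ih =>
    rw [pow_succ, Nat.succ_mul]
    exact hP.mul _ _ _ _ ih hq

theorem IsDeg.cf_mem (hP : IsDeg P) {t : ℕ} {q : (V → Bool) → K} (hq : q ∈ P t) :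
    cf q ∈ P ((Fintype.card K - 1) * t) :=
  Submodule.sub_mem _ (hP.one_mem' _) (hP.pow_mem hq _)

theorem IsDeg.const_mem (hP : IsDeg P) (c : K) (t : ℕ) : (fun _ => c : (V → Bool) → K) ∈ P t := by
  have h1 : (fun _ => c : (V → Bool) → K) = c • (1 : (V → Bool) → K) := by
    funext x
    rw [Pi.smul_apply, Pi.one_apply, smul_eq_mul, mul_one]
  rw [h1]
  exact Submodule.smul_mem _ _ (hP.one_mem' t)

/-- The functions of the formulas have the values 0 and 1. -/
theorem val_01 (hid : ∀ e (G : Finset ((V → Bool) → K)) x, hp e G x = 0 ∨ hp e G x = 1)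
    (φ : Fm V p) (x : V → Bool) : val hp φ x = 0 ∨ val hp φ x = 1 := by
  classical
  have hneg : ∀ a : K, a = 0 ∨ a = 1 → 1 - a = 0 ∨ 1 - a = 1 := by
    rintro a (h | h) <;> rw [h]
    · right; rw [sub_zero]
    · left; rw [sub_self]
  cases φ with
  | var v =>
    change xf K v x = 0 ∨ xf K v x = 1
    unfold xf
    split_ifs
    · exact Or.inr rfl
    · exact Or.inl rfl
  | neg φ => exact hneg _ (val_01 hid φ x)
  | or f => exact hneg _ (hid _ _ x)
  | and f => exact hid _ _ x
  | mod r f =>
    change cf _ x = 0 ∨ cf _ x = 1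
    rw [cf_apply]
    split_ifs
    · exact Or.inr rfl
    · exact Or.inl rfl

/-- The functions of the formulas of depth `e` have degree at most `τ e` and the values 0 and 1. -/
theorem val_mem (hP : IsDeg P) (hg : IsGood P τ d hp) (h0 : 1 ≤ τ 0)
    (hτ : ∀ e, (Fintype.card K - 1) * τ e ≤ τ (e + 1)) (φ : Fm V p) (hφ : φ.depth ≤ d + 1) :
    val hp φ ∈ P (τ φ.depth) := by
  classical
  have hmono : ∀ e, τ e ≤ τ (e + 1) := fun e =>
    (Nat.le_mul_of_pos_left _ (by have : 1 < Fintype.card K := Fintype.one_lt_card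
                                  omega)).trans (hτ e)
  have hmono' : Monotone τ := monotone_nat_of_le_succ hmono
  induction φ with
  | var v => exact hP.mono 1 _ h0 (hP.var v)
  | neg φ ih => exact Submodule.sub_mem _ (hP.one_mem' _) (ih hφ)
  | or f ih =>
    change 1 + (univ.sup fun i => (f i).depth) ≤ d + 1 at hφ
    have hle : ∀ i, (f i).depth ≤ univ.sup fun i => (f i).depth := fun i =>
      le_sup (f := fun i => (f i).depth) (mem_univ i)
    have hd : (univ.sup fun i => (f i).depth) ≤ d := by omega
    have hG : ∀ g ∈ univ.image (fun i => val hp (f i)),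
        g ∈ P (τ (univ.sup fun i => (f i).depth)) := by
      intro g hg'
      obtain ⟨i, -, rfl⟩ := mem_image.1 hg'
      exact hP.mono _ _ (hmono' (hle i)) (ih i (by have := hle i; omega))
    have hdep : (Fm.or f).depth = (univ.sup fun i => (f i).depth) + 1 := Nat.add_comm _ _
    rw [hdep]
    exact Submodule.sub_mem _ (hP.one_mem' _) (hg.mem _ hd _ hG)
  | and f ih =>
    change 1 + (univ.sup fun i => (f i).depth) ≤ d + 1 at hφ
    have hle : ∀ i, (f i).depth ≤ univ.sup fun i => (f i).depth := fun i =>
      le_sup (f := fun i => (f i).depth) (mem_univ i)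
    have hd : (univ.sup fun i => (f i).depth) ≤ d := by omega
    have hG : ∀ g ∈ univ.image (fun i => 1 - val hp (f i)),
        g ∈ P (τ (univ.sup fun i => (f i).depth)) := by
      intro g hg'
      obtain ⟨i, -, rfl⟩ := mem_image.1 hg'
      exact Submodule.sub_mem _ (hP.one_mem' _)
        (hP.mono _ _ (hmono' (hle i)) (ih i (by have := hle i; omega)))
    have hdep : (Fm.and f).depth = (univ.sup fun i => (f i).depth) + 1 := Nat.add_comm _ _
    rw [hdep]
    exact hg.mem _ hd _ hG
  | mod r f ih =>
    change 1 + (univ.sup fun i => (f i).depth) ≤ d + 1 at hφ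
    have hle : ∀ i, (f i).depth ≤ univ.sup fun i => (f i).depth := fun i =>
      le_sup (f := fun i => (f i).depth) (mem_univ i)
    have hdep : (Fm.mod r f).depth = (univ.sup fun i => (f i).depth) + 1 := Nat.add_comm _ _
    rw [hdep]
    exact hP.mono _ _ (hτ _) (hP.cf_mem (Submodule.sub_mem _ (Submodule.sum_mem _ fun i _ =>
      hP.mono _ _ (hmono' (hle i)) (ih i (by have := hle i; omega))) (hP.const_mem _ _)))

end

end Pool.Agent.MP_9cec2c_lc.AZ
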