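import Mathlib
import Pool.Agent.Lib.MP_9cec2c_lc.Mg.G001

/-!
FLAT, dimensions: the space of functions on the configurations which are supported in a gauge
invariant set `G` and are covariant under the `N` full row flips has dimension `#G / 2^(N-1)`.
-/

namespace Pool.Agent.MP_9cec2c_lc.Flat

/-! ### Abstract part: functions determined by a normal form -/

section Abstract

variable {X : Type*} {K : Type*} [Field K]

/-- Functions supported in `G` whose value at `b` is `c b` times the value at the normal form
`nf b` of `b`. -/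
def nfSpace (K : Type*) [Field K] (G : Finset X) (nf : X → X) (c : X → K) :
    Submodule K (X → K) where
  carrier := {f | (∀ b, b ∉ G → f b = 0) ∧ ∀ b, f b = c b * f (nf b)}
  add_mem' := by
    intro f g hf hg
    refine ⟨fun b hb => ?_, fun b => ?_⟩
    · rw [Pi.add_apply, hf.1 b hb, hg.1 b hb, add_zero]
    · rw [Pi.add_apply, Pi.add_apply, hf.2 b, hg.2 b, mul_add]
  zero_mem' := ⟨fun _ _ => rfl, fun b => by simp⟩
  smul_mem' := by
    intro r f hf
    refine ⟨fun b hb => ?_, fun b => ?_⟩
    · rw [Pi.smul_apply, hf.1 b hb, smul_zero]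
    · rw [Pi.smul_apply, Pi.smul_apply, hf.2 b, smul_eq_mul, smul_eq_mul]
      ring

theorem mem_nfSpace {G : Finset X} {nf : X → X} {c : X → K} {f : X → K} :
    f ∈ nfSpace K G nf c ↔ (∀ b, b ∉ G → f b = 0) ∧ ∀ b, f b = c b * f (nf b) := Iff.rfl

/-- The functions of `nfSpace` are the functions on the normal forms in `G`. -/
noncomputable def nfEquiv [DecidableEq X] (G : Finset X) (nf : X → X) (c : X → K)
    (h1 : ∀ b, nf (nf b) = nf b) (h2 : ∀ b, nf b = b → c b = 1) (h3 : ∀ b, b ∈ G ↔ nf b ∈ G) :
    nfSpace K G nf c ≃ₗ[K] ({b // b ∈ G.filter (fun b => nf b = b)} → K) where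
  toFun f := fun a => f.1 a.1
  map_add' f g := rfl
  map_smul' r f := rfl
  invFun g := ⟨fun b => if h : nf b ∈ G.filter (fun b => nf b = b) then c b * g ⟨nf b, h⟩ else 0, by
    refine ⟨fun b hb => ?_, fun b => ?_⟩
    · have h : ¬ nf b ∈ G.filter (fun b => nf b = b) := fun h =>
        hb ((h3 b).2 (Finset.mem_filter.1 h).1)
      exact dif_neg h
    · have hc : c (nf b) = 1 := h2 _ (h1 b)
      beta_reduce
      by_cases h : nf b ∈ G.filter (fun b => nf b = b)
      · have h' : nf (nf b) ∈ G.filter (fun b => nf b = b) := by rw [h1]; exact h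
        rw [dif_pos h, dif_pos h', hc, one_mul]
        congr 2
        exact Subtype.ext (h1 b).symm
      · have h' : ¬ nf (nf b) ∈ G.filter (fun b => nf b = b) := by rw [h1]; exact h
        rw [dif_neg h, dif_neg h', mul_zero]⟩
  left_inv := by
    intro f
    apply Subtype.ext
    funext b
    change (if h : nf b ∈ G.filter (fun b => nf b = b) then c b * f.1 (nf b) else 0) = f.1 b
    by_cases h : nf b ∈ G.filter (fun b => nf b = b)
    · rw [dif_pos h]
      exact (f.2.2 b).symm
    · rw [dif_neg h]
      have hb : b ∉ G := fun hb => h (Finset.mem_filter.2 ⟨(h3 b).1 hb, h1 b⟩)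
      exact (f.2.1 b hb).symm
  right_inv := by
    intro g
    funext a
    have ha := Finset.mem_filter.1 a.2
    have h' : nf a.1 ∈ G.filter (fun b => nf b = b) := by rw [ha.2]; exact a.2
    change (if h : nf a.1 ∈ G.filter (fun b => nf b = b) then c a.1 * g ⟨nf a.1, h⟩ else 0) = g a
    rw [dif_pos h', h2 _ ha.2, one_mul]
    congr 1
    exact Subtype.ext ha.2

theorem finrank_nfSpace [DecidableEq X] (G : Finset X) (nf : X → X) (c : X → K)
    (h1 : ∀ b, nf (nf b) = nf b) (h2 : ∀ b, nf b = b → c b = 1) (h3 : ∀ b, b ∈ G ↔ nf b ∈ G) :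
    Module.finrank K (nfSpace K G nf c) = (G.filter (fun b => nf b = b)).card := by
  rw [LinearEquiv.finrank_eq (nfEquiv G nf c h1 h2 h3), Module.finrank_fintype_fun_eq_card,
    Fintype.card_coe]

end Abstract

/-! ### Gauge transformations -/

/-- The gauge transformation with parameters `t`: the sum of the full flips of the rows `v` with
`t v = 1`. -/
def gs {N : ℕ} (t : Fin N → ZMod 2) : Cfg N := fun e => t e.1.1 + t e.1.2

theorem zmod2_add_self (z : ZMod 2) : z + z = 0 := by
  revert z
  decide

theorem gs_add {N : ℕ} (t s : Fin N → ZMod 2) : gs (t + s) = gs t + gs s := by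
  funext e
  simp only [gs, Pi.add_apply]
  ring

theorem gs_zero {N : ℕ} : gs (0 : Fin N → ZMod 2) = 0 := by
  funext e
  simp [gs]

theorem gs_const {N : ℕ} (z : ZMod 2) : gs (fun _ : Fin N => z) = 0 := by
  funext e
  exact zmod2_add_self z

theorem gs_single {N : ℕ} (v : Fin N) : gs (Pi.single v 1) = mvRow v Finset.univ := by
  funext e
  have h := ne_of_lt e.2
  unfold gs mvRow
  by_cases h1 : e.1.1 = v
  · have h2 : e.1.2 ≠ v := fun h2 => h (h1.trans h2.symm)
    simp [h1, h2]
  · by_cases h2 : e.1.2 = v
    · simp [h1, h2]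
    · simp [h1, h2]

theorem gs_mkEdge {N : ℕ} (t : Fin N → ZMod 2) (u w : Fin N) (h : u ≠ w) :
    gs t (mkEdge u w h) = t u + t w := by
  unfold gs mkEdge
  by_cases h1 : u < w
  · rw [dif_pos h1]
  · rw [dif_neg h1]
    exact add_comm _ _

/-- The values of the configuration on the edges at the root `o`. -/
def tb {N : ℕ} (o : Fin N) (b : Cfg N) : Fin N → ZMod 2 :=
  fun v => if h : o = v then 0 else b (mkEdge o v h)

theorem tb_root {N : ℕ} (o : Fin N) (b : Cfg N) : tb o b o = 0 := by
  simp [tb]

theorem tb_add_gs {N : ℕ} (o : Fin N) (b : Cfg N) (s : Fin N → ZMod 2) :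
    tb o (b + gs s) = tb o b + (s + fun _ => s o) := by
  funext v
  simp only [tb, Pi.add_apply]
  by_cases h : o = v
  · subst h
    simp [zmod2_add_self]
  · rw [dif_neg h, dif_neg h, gs_mkEdge]
    ring

/-- The normal form of a configuration: the gauge equivalent configuration which vanishes on the
edges at the root. -/
def nf {N : ℕ} (o : Fin N) (b : Cfg N) : Cfg N := b + gs (tb o b)

theorem nf_add_gs {N : ℕ} (o : Fin N) (b : Cfg N) (s : Fin N → ZMod 2) :
    nf o (b + gs s) = nf o b := by
  unfold nf
  rw [tb_add_gs, gs_add, gs_add, gs_const, add_zero]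
  calc b + gs s + (gs (tb o b) + gs s) = b + gs (tb o b) + (gs s + gs s) := by abel
    _ = b + gs (tb o b) := by rw [cfg_add_self, add_zero]

theorem nf_nf {N : ℕ} (o : Fin N) (b : Cfg N) : nf o (nf o b) = nf o b := by
  conv_lhs => rw [show nf o b = b + gs (tb o b) from rfl]
  exact nf_add_gs o b _

theorem nf_add_gs_self {N : ℕ} (o : Fin N) (b : Cfg N) : nf o b + gs (tb o b) = b := by
  unfold nf
  rw [add_assoc, cfg_add_self, add_zero]

/-- `b` is its own normal form iff it vanishes on the edges at the root. -/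
theorem nf_eq_self_iff {N : ℕ} (o : Fin N) (b : Cfg N) : nf o b = b ↔ tb o b = 0 := by
  constructor
  · intro h
    have h1 : gs (tb o b) = 0 := by
      have h2 : b + gs (tb o b) = b + 0 := by rw [add_zero]; exact h
      exact add_left_cancel h2
    funext v
    by_cases hv : o = v
    · subst hv
      exact tb_root o b
    · have h3 := congrFun h1 (mkEdge o v hv)
      rw [gs_mkEdge, tb_root, zero_add] at h3
      exact h3
  · intro h
    unfold nf
    rw [h, gs_zero, add_zero]

/-- The slice in terms of the edges at the root. -/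
theorem nf_eq_self_iff' {N : ℕ} (o : Fin N) (b : Cfg N) :
    nf o b = b ↔ ∀ v (h : o ≠ v), b (mkEdge o v h) = 0 := by
  rw [nf_eq_self_iff]
  constructor
  · intro h v hv
    have h1 := congrFun h v
    simp only [tb, dif_neg hv] at h1
    exact h1
  · intro h
    funext v
    by_cases hv : o = v
    · simp [tb, hv]
    · simp only [tb, dif_neg hv]
      exact h v hv

/-! ### The character -/

section Char

variable {K : Type*} [Field K]

/-- The value of the gauge character at `t`. -/
def kp {N : ℕ} (kap : Fin N → K) (t : Fin N → ZMod 2) : K :=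
  ∏ v, if t v = 0 then 1 else kap v

theorem kp_zero {N : ℕ} (kap : Fin N → K) : kp kap 0 = 1 := by
  simp [kp]

theorem kp_add {N : ℕ} (kap : Fin N → K) (h1 : ∀ v, kap v * kap v = 1) (t s : Fin N → ZMod 2) :
    kp kap (t + s) = kp kap t * kp kap s := by
  unfold kp
  rw [← Finset.prod_mul_distrib]
  refine Finset.prod_congr rfl fun v _ => ?_
  rw [Pi.add_apply]
  rcases zmod2_cases (t v) with ht | ht <;> rcases zmod2_cases (s v) with hs | hs
  · simp [ht, hs]
  · simp [ht, hs]
  · simp [ht, hs]
  · rw [ht, hs, zmod2_add_self]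
    simp [h1 v]

theorem kp_const {N : ℕ} (kap : Fin N → K) (h2 : ∏ v, kap v = 1) (z : ZMod 2) :
    kp kap (fun _ => z) = 1 := by
  unfold kp
  rcases zmod2_cases z with rfl | rfl
  · simp
  · simpa using h2

theorem kp_single {N : ℕ} (kap : Fin N → K) (v : Fin N) : kp kap (Pi.single v 1) = kap v := by
  unfold kp
  rw [Finset.prod_eq_single v]
  · simp
  · intro w _ hw
    simp [hw]
  · intro h
    exact absurd (Finset.mem_univ v) h

theorem kp_mul_self {N : ℕ} (kap : Fin N → K) (h1 : ∀ v, kap v * kap v = 1)
    (t : Fin N → ZMod 2) : kp kap t * kp kap t = 1 := by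
  rw [← kp_add kap h1, show t + t = 0 from funext fun v => zmod2_add_self (t v), kp_zero]

/-- Functions on the configurations, supported in `G`, covariant under the full row flips. -/
def covSpace (K : Type*) [Field K] {N : ℕ} (kap : Fin N → K) (G : Finset (Cfg N)) :
    Submodule K (Cfg N → K) where
  carrier := {f | (∀ b, b ∉ G → f b = 0) ∧
    ∀ b v, f (b + mvRow v Finset.univ) = kap v * f b}
  add_mem' := by
    intro f g hf hg
    refine ⟨fun b hb => ?_, fun b v => ?_⟩
    · rw [Pi.add_apply, hf.1 b hb, hg.1 b hb, add_zero]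
    · rw [Pi.add_apply, Pi.add_apply, hf.2 b v, hg.2 b v, mul_add]
  zero_mem' := ⟨fun _ _ => rfl, fun b v => by simp⟩
  smul_mem' := by
    intro r f hf
    refine ⟨fun b hb => ?_, fun b v => ?_⟩
    · rw [Pi.smul_apply, hf.1 b hb, smul_zero]
    · rw [Pi.smul_apply, Pi.smul_apply, hf.2 b v, smul_eq_mul, smul_eq_mul]
      ring

theorem mem_covSpace {N : ℕ} {kap : Fin N → K} {G : Finset (Cfg N)} {f : Cfg N → K} :
    f ∈ covSpace K kap G ↔ (∀ b, b ∉ G → f b = 0) ∧
      ∀ b v, f (b + mvRow v Finset.univ) = kap v * f b := Iff.rfl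

theorem covSpace_mono {N : ℕ} {kap : Fin N → K} {G G' : Finset (Cfg N)} (h : G ⊆ G') :
    covSpace K kap G ≤ covSpace K kap G' := fun _ hf =>
  ⟨fun b hb => hf.1 b (fun hb' => hb (h hb')), hf.2⟩

/-- Covariance under the row flips is covariance under all gauge transformations. -/
theorem cov_gs {N : ℕ} (kap : Fin N → K) (f : Cfg N → K)
    (hf : ∀ b v, f (b + mvRow v Finset.univ) = kap v * f b) (b : Cfg N) (t : Fin N → ZMod 2) :
    f (b + gs t) = kp kap t * f b := by
  have key : ∀ (S : Finset (Fin N)) (b : Cfg N),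
      f (b + gs (fun v => if v ∈ S then 1 else 0)) = (∏ v ∈ S, kap v) * f b := by
    intro S
    induction S using Finset.induction_on with
    | empty =>
      intro b
      have h : (fun v : Fin N => if v ∈ (∅ : Finset (Fin N)) then (1 : ZMod 2) else 0) = 0 := by
        funext v
        simp
      rw [h, gs_zero, add_zero, Finset.prod_empty, one_mul]
    | insert w S hw ih =>
      intro b
      have h : (fun v : Fin N => if v ∈ insert w S then (1 : ZMod 2) else 0)
          = (fun v => if v ∈ S then 1 else 0) + Pi.single w 1 := by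
        funext v
        by_cases hv : v = w
        · subst hv
          simp [hw]
        · simp [hv]
      rw [h, gs_add, gs_single, ← add_assoc, hf, ih, Finset.prod_insert hw, mul_assoc]
  have h1 : t = fun v => if v ∈ Finset.univ.filter (fun v => t v ≠ 0) then 1 else 0 := by
    funext v
    rcases zmod2_cases (t v) with h | h <;> simp [h]
  have h2 : kp kap t = ∏ v ∈ Finset.univ.filter (fun v => t v ≠ 0), kap v := by
    unfold kp
    rw [Finset.prod_filter]
    refine Finset.prod_congr rfl fun v _ => ?_
    by_cases h : t v = 0 <;> simp [h]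
  rw [h2, ← key]
  exact congrArg (fun s => f (b + gs s)) h1

/-- Covariance is determined by the normal form. -/
theorem covSpace_eq_nfSpace {N : ℕ} (o : Fin N) (kap : Fin N → K) (h1 : ∀ v, kap v * kap v = 1)
    (h2 : ∏ v, kap v = 1) (G : Finset (Cfg N)) :
    covSpace K kap G = nfSpace K G (nf o) (fun b => kp kap (tb o b)) := by
  ext f
  rw [mem_covSpace, mem_nfSpace]
  refine and_congr_right fun _ => ⟨fun h b => ?_, fun h b v => ?_⟩
  · change f b = kp kap (tb o b) * f (b + gs (tb o b))
    rw [cov_gs kap f h, ← mul_assoc, kp_mul_self kap h1, one_mul]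
  · rw [h (b + mvRow v Finset.univ), h b, ← gs_single, nf_add_gs, tb_add_gs, kp_add kap h1,
      kp_add kap h1, kp_const kap h2, kp_single]
    ring

end Char

/-! ### Counting -/

theorem add_gs_mem {N : ℕ} (G : Finset (Cfg N))
    (hG : ∀ b v, b ∈ G → b + mvRow v Finset.univ ∈ G) (b : Cfg N) (t : Fin N → ZMod 2)
    (hb : b ∈ G) : b + gs t ∈ G := by
  have key : ∀ (S : Finset (Fin N)) (b : Cfg N), b ∈ G →
      b + gs (fun v => if v ∈ S then 1 else 0) ∈ G := by
    intro S
    induction S using Finset.induction_on with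
    | empty =>
      intro b hb
      have h : (fun v : Fin N => if v ∈ (∅ : Finset (Fin N)) then (1 : ZMod 2) else 0) = 0 := by
        funext v
        simp
      rw [h, gs_zero, add_zero]
      exact hb
    | insert w S hw ih =>
      intro b hb
      have h : (fun v : Fin N => if v ∈ insert w S then (1 : ZMod 2) else 0)
          = (fun v => if v ∈ S then 1 else 0) + Pi.single w 1 := by
        funext v
        by_cases hv : v = w
        · subst hv
          simp [hw]
        · simp [hv]
      rw [h, gs_add, gs_single, ← add_assoc]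
      exact hG _ _ (ih b hb)
  have h1 : t = fun v => if v ∈ Finset.univ.filter (fun v => t v ≠ 0) then 1 else 0 := by
    funext v
    rcases zmod2_cases (t v) with h | h <;> simp [h]
  rw [h1]
  exact key _ b hb

theorem mem_iff_nf_mem {N : ℕ} (o : Fin N) (G : Finset (Cfg N))
    (hG : ∀ b v, b ∈ G → b + mvRow v Finset.univ ∈ G) (b : Cfg N) : b ∈ G ↔ nf o b ∈ G := by
  constructor
  · intro h
    exact add_gs_mem G hG b _ h
  · intro h
    have h1 := add_gs_mem G hG (nf o b) (tb o b) h
    rwa [nf_add_gs_self] at h1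

/-- A gauge invariant set has `2^(N-1)` times as many elements as its slice. -/
theorem card_eq_slice {N : ℕ} (o : Fin N) (G : Finset (Cfg N))
    (hG : ∀ b v, b ∈ G → b + mvRow v Finset.univ ∈ G) :
    G.card = 2 ^ (N - 1) * (G.filter (fun b => nf o b = b)).card := by
  classical
  let ex : ({v : Fin N // v ≠ o} → ZMod 2) → Fin N → ZMod 2 :=
    fun t v => if h : v = o then 0 else t ⟨v, h⟩
  have hex0 : ∀ t, ex t o = 0 := fun t => by simp [ex]
  have hex1 : ∀ b : Cfg N, ex (fun v => tb o b v.1) = tb o b := by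
    intro b
    funext v
    by_cases h : v = o
    · rw [h, tb_root]
      simp [ex]
    · simp [ex, h]
  have hcard : Fintype.card ({v : Fin N // v ≠ o} → ZMod 2) = 2 ^ (N - 1) := by
    rw [Fintype.card_fun, ZMod.card, Fintype.card_subtype_compl]
    simp
  have h := Finset.card_nbij' (s := G)
    (t := (G.filter (fun b => nf o b = b)) ×ˢ
      (Finset.univ : Finset ({v : Fin N // v ≠ o} → ZMod 2)))
    (fun b => (nf o b, fun v => tb o b v.1)) (fun q => q.1 + gs (ex q.2))
    (by
      intro b hb
      refine Finset.mem_coe.2 (Finset.mem_product.2 ⟨?_, Finset.mem_univ _⟩)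
      exact Finset.mem_filter.2 ⟨(mem_iff_nf_mem o G hG b).1 hb, nf_nf o b⟩)
    (by
      intro q hq
      have hq1 := Finset.mem_filter.1 (Finset.mem_product.1 (Finset.mem_coe.1 hq)).1
      exact Finset.mem_coe.2 (add_gs_mem G hG _ _ hq1.1))
    (by
      intro b _
      change nf o b + gs (ex (fun v => tb o b v.1)) = b
      rw [hex1, nf_add_gs_self])
    (by
      intro q hq
      have hq1 := Finset.mem_filter.1 (Finset.mem_product.1 (Finset.mem_coe.1 hq)).1
      refine Prod.ext ?_ ?_
      · change nf o (q.1 + gs (ex q.2)) = q.1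
        rw [nf_add_gs]
        exact hq1.2
      · funext v
        change tb o (q.1 + gs (ex q.2)) v.1 = q.2 v
        rw [tb_add_gs, (nf_eq_self_iff o q.1).1 hq1.2, zero_add, Pi.add_apply]
        rw [hex0, add_zero]
        simp [ex, v.2])
  rw [h, Finset.card_product, Finset.card_univ, hcard, mul_comm]

/-- The dimension of the space of covariant functions supported in `G` is the number of elements of
the slice of `G`. -/
theorem finrank_covSpace_eq {K : Type*} [Field K] {N : ℕ} (o : Fin N) (kap : Fin N → K)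
    (h1 : ∀ v, kap v * kap v = 1) (h2 : ∏ v, kap v = 1) (G : Finset (Cfg N))
    (hG : ∀ b v, b ∈ G → b + mvRow v Finset.univ ∈ G) :
    Module.finrank K (covSpace K kap G) = (G.filter (fun b => nf o b = b)).card := by
  rw [covSpace_eq_nfSpace o kap h1 h2 G]
  refine finrank_nfSpace G (nf o) _ (nf_nf o) (fun b hb => ?_) (mem_iff_nf_mem o G hG)
  rw [(nf_eq_self_iff o b).1 hb, kp_zero]

/-- `#G = 2^(N-1) dim`. -/
theorem card_eq_finrank_covSpace {K : Type*} [Field K] {N : ℕ} (o : Fin N) (kap : Fin N → K)
    (h1 : ∀ v, kap v * kap v = 1) (h2 : ∏ v, kap v = 1) (G : Finset (Cfg N))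
    (hG : ∀ b v, b ∈ G → b + mvRow v Finset.univ ∈ G) :
    G.card = 2 ^ (N - 1) * Module.finrank K (covSpace K kap G) := by
  rw [finrank_covSpace_eq o kap h1 h2 G hG]
  exact card_eq_slice o G hG

/-- The form used for the world: comparison of the dimensions over two gauge invariant sets. -/
theorem finrank_covSpace_le {K : Type*} [Field K] {N : ℕ} (o : Fin N) (kap : Fin N → K)
    (h1 : ∀ v, kap v * kap v = 1) (h2 : ∏ v, kap v = 1) (G G' : Finset (Cfg N))
    (hG : ∀ b v, b ∈ G → b + mvRow v Finset.univ ∈ G)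
    (hG' : ∀ b v, b ∈ G' → b + mvRow v Finset.univ ∈ G') (C : ℕ) (hC : G'.card ≤ C * G.card) :
    Module.finrank K (covSpace K kap G') ≤ C * Module.finrank K (covSpace K kap G) := by
  rw [card_eq_finrank_covSpace o kap h1 h2 G hG, card_eq_finrank_covSpace o kap h1 h2 G' hG'] at hC
  have hpos : 0 < 2 ^ (N - 1) := Nat.two_pow_pos _
  refine Nat.le_of_mul_le_mul_left ?_ hpos
  calc 2 ^ (N - 1) * Module.finrank K (covSpace K kap G')
      ≤ C * (2 ^ (N - 1) * Module.finrank K (covSpace K kap G)) := hC
    _ = 2 ^ (N - 1) * (C * Module.finrank K (covSpace K kap G)) := by ring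

theorem finrank_covSpace_pos {K : Type*} [Field K] {N : ℕ} (o : Fin N) (kap : Fin N → K)
    (h1 : ∀ v, kap v * kap v = 1) (h2 : ∏ v, kap v = 1) (G : Finset (Cfg N))
    (hG : ∀ b v, b ∈ G → b + mvRow v Finset.univ ∈ G) (hne : G.Nonempty) :
    0 < Module.finrank K (covSpace K kap G) := by
  have h := card_eq_finrank_covSpace o kap h1 h2 G hG
  have hpos := hne.card_pos
  rcases Nat.eq_zero_or_pos (Module.finrank K (covSpace K kap G)) with h0 | h0
  · rw [h0, mul_zero] at h
    omega
  · exact h0

end Pool.Agent.MP_9cec2c_lc.Flat
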