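import Pool.Agent.Lib.MP_9cec2c_lc.Mg.G001

/-!
FLAT, gauge: an exactly covariant choice of the top eigenvectors, the neighbourhoods of the good
set, and the sign of the transport between two configurations.
-/

set_option autoImplicit false

namespace Pool.Agent.MP_9cec2c_lc.Flat

open Finset

variable {N : ℕ}

/-! ### Gauge transformations -/

/-- The gauge transformation of the configurations with parameter `τ`. -/
def gau (τ : Fin N → ZMod 2) : Cfg N := fun e => τ e.1.1 + τ e.1.2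

theorem gau_add (τ τ' : Fin N → ZMod 2) : gau (τ + τ') = gau τ + gau τ' := by
  funext e
  show τ e.1.1 + τ' e.1.1 + (τ e.1.2 + τ' e.1.2) = τ e.1.1 + τ e.1.2 + (τ' e.1.1 + τ' e.1.2)
  ring

theorem gau_const (c : ZMod 2) : gau (fun _ : Fin N => c) = 0 := by
  funext e
  show c + c = 0
  exact CharTwo.add_self_eq_zero c

theorem gau_mkEdge (τ : Fin N → ZMod 2) (u w : Fin N) (h : u ≠ w) :
    gau τ (mkEdge u w h) = τ u + τ w := by
  unfold gau mkEdge
  rcases lt_or_gt_of_ne h with h1 | h1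
  · rw [dif_pos h1]
  · rw [dif_neg (not_lt.2 h1.le)]
    exact add_comm _ _

/-- The full flip of row `v` is a gauge transformation. -/
theorem mvRow_univ (v : Fin N) : mvRow v univ = gau (Pi.single v (1 : ZMod 2)) := by
  funext e
  show (if (e.1.1 = v ∧ e.1.2 ∈ univ) ∨ (e.1.2 = v ∧ e.1.1 ∈ univ) then (1 : ZMod 2) else 0) =
    (Pi.single v (1 : ZMod 2) : Fin N → ZMod 2) e.1.1 +
      (Pi.single v (1 : ZMod 2) : Fin N → ZMod 2) e.1.2
  have hne := ne_of_lt e.2
  by_cases h1 : e.1.1 = v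
  · have h2 : e.1.2 ≠ v := fun h => hne (h1.trans h.symm)
    simp [h1, h2]
  · by_cases h2 : e.1.2 = v
    · simp [h1, h2]
    · simp [h1, h2]

/-- The gauge transformation of the vectors. -/
noncomputable def gact (τ : Fin N → ZMod 2) (ψ : Fin N → ℝ) : Fin N → ℝ := fun u => sgn2 (τ u) * ψ u

theorem gact_add (τ τ' : Fin N → ZMod 2) (ψ : Fin N → ℝ) :
    gact (τ + τ') ψ = gact τ (gact τ' ψ) := by
  funext u
  show sgn2 (τ u + τ' u) * ψ u = sgn2 (τ u) * (sgn2 (τ' u) * ψ u)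
  rw [sgn2_add, mul_assoc]

theorem gact_inner (τ : Fin N → ZMod 2) (ψ φ : Fin N → ℝ) :
    ∑ v, gact τ ψ v * gact τ φ v = ∑ v, ψ v * φ v := by
  refine sum_congr rfl fun v _ => ?_
  show sgn2 (τ v) * ψ v * (sgn2 (τ v) * φ v) = ψ v * φ v
  have h := sgn2_mul_self (τ v)
  calc sgn2 (τ v) * ψ v * (sgn2 (τ v) * φ v) = (sgn2 (τ v) * sgn2 (τ v)) * (ψ v * φ v) := by ring
    _ = ψ v * φ v := by rw [h, one_mul]

theorem gact_sq (τ : Fin N → ZMod 2) (ψ : Fin N → ℝ) (v : Fin N) : gact τ ψ v ^ 2 = ψ v ^ 2 := by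
  show (sgn2 (τ v) * ψ v) ^ 2 = ψ v ^ 2
  rw [mul_pow, pow_two (sgn2 (τ v)), sgn2_mul_self, one_mul]

theorem Smat_add_gau (b : Cfg N) (τ : Fin N → ZMod 2) (u w : Fin N) :
    Smat (b + gau τ) u w = sgn2 (τ u) * Smat b u w * sgn2 (τ w) := by
  by_cases h : u = w
  · subst h
    rw [Smat_diag, Smat_diag, mul_zero, zero_mul]
  · rw [Smat_of_ne _ u w h, Smat_of_ne _ u w h, Pi.add_apply, sgn2_add, gau_mkEdge, sgn2_add]
    ring

theorem TopPair.gauge {b : Cfg N} {l g : ℝ} {ψ : Fin N → ℝ} (h : TopPair (Smat b) l g ψ)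
    (τ : Fin N → ZMod 2) : TopPair (Smat (b + gau τ)) l g (gact τ ψ) := by
  obtain ⟨h1, h2, h3⟩ := h
  refine ⟨?_, ?_, ?_⟩
  · rw [← h1]
    exact sum_congr rfl fun v _ => gact_sq τ ψ v
  · intro u
    have e1 : ∀ v, Smat (b + gau τ) u v * gact τ ψ v = sgn2 (τ u) * (Smat b u v * ψ v) := by
      intro v
      rw [Smat_add_gau]
      show sgn2 (τ u) * Smat b u v * sgn2 (τ v) * (sgn2 (τ v) * ψ v) = _
      have h := sgn2_mul_self (τ v)
      calc sgn2 (τ u) * Smat b u v * sgn2 (τ v) * (sgn2 (τ v) * ψ v) =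
          sgn2 (τ u) * (Smat b u v * ψ v) * (sgn2 (τ v) * sgn2 (τ v)) := by ring
        _ = sgn2 (τ u) * (Smat b u v * ψ v) := by rw [h, mul_one]
    rw [sum_congr rfl fun v _ => e1 v, ← mul_sum, h2 u]
    show sgn2 (τ u) * (l * ψ u) = l * (sgn2 (τ u) * ψ u)
    ring
  · intro w hw
    have hw' : ∑ v, ψ v * gact τ w v = 0 := by
      rw [← hw]
      refine sum_congr rfl fun v _ => ?_
      show ψ v * (sgn2 (τ v) * w v) = sgn2 (τ v) * ψ v * w v
      ring
    have e1 : ∑ u, ∑ v, w u * Smat (b + gau τ) u v * w v =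
        ∑ u, ∑ v, gact τ w u * Smat b u v * gact τ w v := by
      refine sum_congr rfl fun u _ => sum_congr rfl fun v _ => ?_
      rw [Smat_add_gau]
      show w u * (sgn2 (τ u) * Smat b u v * sgn2 (τ v)) * w v =
        sgn2 (τ u) * w u * Smat b u v * (sgn2 (τ v) * w v)
      ring
    have e2 : ∑ v, w v ^ 2 = ∑ v, gact τ w v ^ 2 := sum_congr rfl fun v _ => (gact_sq τ w v).symm
    rw [e1, e2]
    exact h3 _ hw'

/-! ### Uniqueness of the top eigenvector -/

theorem TopPair.unique {b : Cfg N} {l g l' g' : ℝ} {ψ ψ' : Fin N → ℝ} (hg : 0 < g) (hg' : 0 < g')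
    (h : TopPair (Smat b) l g ψ) (h' : TopPair (Smat b) l' g' ψ') :
    (∀ v, ψ' v = ψ v) ∨ ∀ v, ψ' v = -ψ v := by
  obtain ⟨c, hc⟩ : ∃ c, c = ∑ v, ψ v * ψ' v := ⟨_, rfl⟩
  have hc' : ∑ v, ψ' v * ψ v = c := by
    rw [hc]
    exact sum_congr rfl fun v _ => mul_comm _ _
  obtain ⟨h1, h2, h3⟩ := h
  obtain ⟨h1', h2', h3'⟩ := h'
  -- the mixed form
  have m1 : ∑ u, ∑ v, ψ u * Smat b u v * ψ' v = l' * c := by
    have : ∀ u, ∑ v, ψ u * Smat b u v * ψ' v = l' * (ψ u * ψ' u) := by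
      intro u
      have e : ∀ v, ψ u * Smat b u v * ψ' v = ψ u * (Smat b u v * ψ' v) := fun v => by ring
      rw [sum_congr rfl fun v _ => e v, ← mul_sum, h2' u]
      ring
    rw [sum_congr rfl fun u _ => this u, ← mul_sum, ← hc]
  have m2 : ∑ u, ∑ v, ψ' u * Smat b u v * ψ v = l * c := by
    have : ∀ u, ∑ v, ψ' u * Smat b u v * ψ v = l * (ψ' u * ψ u) := by
      intro u
      have e : ∀ v, ψ' u * Smat b u v * ψ v = ψ' u * (Smat b u v * ψ v) := fun v => by ring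
      rw [sum_congr rfl fun v _ => e v, ← mul_sum, h2 u]
      ring
    rw [sum_congr rfl fun u _ => this u, ← mul_sum, hc']
  have m3 : ∑ u, ∑ v, ψ u * Smat b u v * ψ' v = ∑ u, ∑ v, ψ' u * Smat b u v * ψ v := by
    rw [sum_comm]
    refine sum_congr rfl fun v _ => sum_congr rfl fun u _ => ?_
    rw [Smat_symm b u v]
    ring
  have hlc : l' * c = l * c := by rw [← m1, ← m2, m3]
  have q1 : ∑ u, ∑ v, ψ u * Smat b u v * ψ v = l := by
    have : ∀ u, ∑ v, ψ u * Smat b u v * ψ v = l * ψ u ^ 2 := by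
      intro u
      have e : ∀ v, ψ u * Smat b u v * ψ v = ψ u * (Smat b u v * ψ v) := fun v => by ring
      rw [sum_congr rfl fun v _ => e v, ← mul_sum, h2 u]
      ring
    rw [sum_congr rfl fun u _ => this u, ← mul_sum, h1, mul_one]
  have q2 : ∑ u, ∑ v, ψ' u * Smat b u v * ψ' v = l' := by
    have : ∀ u, ∑ v, ψ' u * Smat b u v * ψ' v = l' * ψ' u ^ 2 := by
      intro u
      have e : ∀ v, ψ' u * Smat b u v * ψ' v = ψ' u * (Smat b u v * ψ' v) := fun v => by ring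
      rw [sum_congr rfl fun v _ => e v, ← mul_sum, h2' u]
      ring
    rw [sum_congr rfl fun u _ => this u, ← mul_sum, h1', mul_one]
  -- squares of the components
  have n1 : ∑ v, (ψ' v - c * ψ v) ^ 2 = 1 - c ^ 2 := by
    have e : ∀ v, (ψ' v - c * ψ v) ^ 2 = ψ' v ^ 2 - 2 * c * (ψ v * ψ' v) + c ^ 2 * ψ v ^ 2 :=
      fun v => by ring
    rw [sum_congr rfl fun v _ => e v, sum_add_distrib, sum_sub_distrib, ← mul_sum, ← mul_sum, h1,
      h1', ← hc]
    ring
  have n2 : ∑ v, (ψ v - c * ψ' v) ^ 2 = 1 - c ^ 2 := by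
    have e : ∀ v, (ψ v - c * ψ' v) ^ 2 = ψ v ^ 2 - 2 * c * (ψ v * ψ' v) + c ^ 2 * ψ' v ^ 2 :=
      fun v => by ring
    rw [sum_congr rfl fun v _ => e v, sum_add_distrib, sum_sub_distrib, ← mul_sum, ← mul_sum, h1,
      h1', ← hc]
    ring
  have f1 : ∑ u, ∑ v, (ψ' u - c * ψ u) * Smat b u v * (ψ' v - c * ψ v) = l' * (1 - c ^ 2) := by
    have e : ∀ u v, (ψ' u - c * ψ u) * Smat b u v * (ψ' v - c * ψ v) =
        ψ' u * Smat b u v * ψ' v - c * (ψ u * Smat b u v * ψ' v) -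
          c * (ψ' u * Smat b u v * ψ v) + c ^ 2 * (ψ u * Smat b u v * ψ v) := fun u v => by ring
    simp only [e, sum_add_distrib, sum_sub_distrib, ← mul_sum]
    rw [q1, q2, m1, m2]
    have : c * (l * c) = c * (l' * c) := by rw [hlc]
    nlinarith
  have f2 : ∑ u, ∑ v, (ψ u - c * ψ' u) * Smat b u v * (ψ v - c * ψ' v) = l * (1 - c ^ 2) := by
    have e : ∀ u v, (ψ u - c * ψ' u) * Smat b u v * (ψ v - c * ψ' v) =
        ψ u * Smat b u v * ψ v - c * (ψ u * Smat b u v * ψ' v) -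
          c * (ψ' u * Smat b u v * ψ v) + c ^ 2 * (ψ' u * Smat b u v * ψ' v) := fun u v => by ring
    simp only [e, sum_add_distrib, sum_sub_distrib, ← mul_sum]
    rw [q1, q2, m1, m2]
    have : c * (l * c) = c * (l' * c) := by rw [hlc]
    nlinarith
  have i1 := h3 (fun v => ψ' v - c * ψ v) (by
    have e : ∀ v, ψ v * (ψ' v - c * ψ v) = ψ v * ψ' v - c * ψ v ^ 2 := fun v => by ring
    rw [sum_congr rfl fun v _ => e v, sum_sub_distrib, ← mul_sum, h1, ← hc]
    ring)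
  have i2 := h3' (fun v => ψ v - c * ψ' v) (by
    have e : ∀ v, ψ' v * (ψ v - c * ψ' v) = ψ' v * ψ v - c * ψ' v ^ 2 := fun v => by ring
    rw [sum_congr rfl fun v _ => e v, sum_sub_distrib, ← mul_sum, h1', hc']
    ring)
  simp only [f1, n1] at i1
  simp only [f2, n2] at i2
  have hnn : 0 ≤ 1 - c ^ 2 := by
    rw [← n1]
    exact sum_nonneg fun v _ => sq_nonneg _
  have hc1 : 1 - c ^ 2 = 0 := by
    by_contra hne
    have hpos : 0 < 1 - c ^ 2 := lt_of_le_of_ne hnn (Ne.symm hne)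
    have j1 : l' ≤ l - g := le_of_mul_le_mul_right i1 hpos
    have j2 : l ≤ l' - g' := le_of_mul_le_mul_right i2 hpos
    linarith
  have hz : ∀ v, ψ' v - c * ψ v = 0 := by
    rw [hc1] at n1
    intro v
    have := (sum_eq_zero_iff_of_nonneg fun v _ => sq_nonneg (ψ' v - c * ψ v)).1 n1 v (mem_univ v)
    exact pow_eq_zero_iff (two_ne_zero) |>.1 this
  have hcc : (c - 1) * (c + 1) = 0 := by linarith [hc1, sq c]
  rcases mul_eq_zero.1 hcc with h4 | h4
  · left
    intro v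
    have h5 : c = 1 := by linarith
    have := hz v
    rw [h5] at this
    linarith
  · right
    intro v
    have h5 : c = -1 := by linarith
    have := hz v
    rw [h5] at this
    linarith

/-! ### Three vectors -/

theorem sign_triple {a x y : Fin N → ℝ} (ha : ∑ v, a v ^ 2 = 1) (hx : ∑ v, x v ^ 2 = 1)
    (hy : ∑ v, y v ^ 2 = 1) (hax : 9 / 10 ≤ |∑ v, a v * x v|) (hay : 9 / 10 ≤ |∑ v, a v * y v|) :
    0 < (∑ v, x v * y v) * ((∑ v, a v * x v) * ∑ v, a v * y v) := by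
  obtain ⟨α, hα⟩ : ∃ α, α = ∑ v, a v * x v := ⟨_, rfl⟩
  obtain ⟨β, hβ⟩ : ∃ β, β = ∑ v, a v * y v := ⟨_, rfl⟩
  obtain ⟨γ, hγ⟩ : ∃ γ, γ = ∑ v, x v * y v := ⟨_, rfl⟩
  rw [← hα, ← hβ, ← hγ]
  rw [← hα] at hax
  rw [← hβ] at hay
  have n1 : ∑ v, (x v - α * a v) ^ 2 = 1 - α ^ 2 := by
    have e : ∀ v, (x v - α * a v) ^ 2 = x v ^ 2 - 2 * α * (a v * x v) + α ^ 2 * a v ^ 2 :=
      fun v => by ring
    rw [sum_congr rfl fun v _ => e v, sum_add_distrib, sum_sub_distrib, ← mul_sum, ← mul_sum, ha,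
      hx, ← hα]
    ring
  have n2 : ∑ v, (y v - β * a v) ^ 2 = 1 - β ^ 2 := by
    have e : ∀ v, (y v - β * a v) ^ 2 = y v ^ 2 - 2 * β * (a v * y v) + β ^ 2 * a v ^ 2 :=
      fun v => by ring
    rw [sum_congr rfl fun v _ => e v, sum_add_distrib, sum_sub_distrib, ← mul_sum, ← mul_sum, ha,
      hy, ← hβ]
    ring
  have n3 : ∑ v, (x v - α * a v) * (y v - β * a v) = γ - α * β := by
    have e : ∀ v, (x v - α * a v) * (y v - β * a v) =
        x v * y v - β * (a v * x v) - α * (a v * y v) + α * β * a v ^ 2 := fun v => by ring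
    rw [sum_congr rfl fun v _ => e v, sum_add_distrib, sum_sub_distrib, sum_sub_distrib,
      ← mul_sum, ← mul_sum, ← mul_sum, ha, ← hα, ← hβ, ← hγ]
    ring
  have cs := Finset.sum_mul_sq_le_sq_mul_sq univ (fun v => x v - α * a v) (fun v => y v - β * a v)
  simp only [n1, n2, n3] at cs
  have hα2 : 81 / 100 ≤ α ^ 2 := by
    have := mul_self_le_mul_self (by norm_num) hax
    rw [abs_mul_abs_self] at this
    nlinarith
  have hβ2 : 81 / 100 ≤ β ^ 2 := by
    have := mul_self_le_mul_self (by norm_num) hay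
    rw [abs_mul_abs_self] at this
    nlinarith
  have hα1 : 0 ≤ 1 - α ^ 2 := by
    rw [← n1]
    exact sum_nonneg fun v _ => sq_nonneg _
  have hβ1 : 0 ≤ 1 - β ^ 2 := by
    rw [← n2]
    exact sum_nonneg fun v _ => sq_nonneg _
  -- `(γ - αβ)² ≤ (19/100)²` and `(αβ)² ≥ (81/100)²`
  have h1 : (γ - α * β) ^ 2 ≤ (19 / 100) ^ 2 := by
    refine cs.trans ?_
    have : (1 - α ^ 2) * (1 - β ^ 2) ≤ 19 / 100 * (19 / 100) :=
      mul_le_mul (by linarith) (by linarith) hβ1 (by norm_num)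
    linarith
  have h2 : (81 / 100) ^ 2 ≤ (α * β) ^ 2 := by
    rw [mul_pow, pow_two (81 / 100 : ℝ)]
    exact mul_le_mul hα2 hβ2 (by norm_num) (by linarith)
  have h3 : |γ - α * β| ≤ 19 / 100 := abs_le_of_sq_le_sq h1 (by norm_num)
  have h4 : 81 / 100 ≤ |α * β| := by
    by_contra hcon
    rw [not_le] at hcon
    have := mul_self_lt_mul_self (abs_nonneg _) hcon
    rw [abs_mul_abs_self] at this
    nlinarith
  obtain ⟨δ, hδ⟩ : ∃ δ, δ = α * β := ⟨_, rfl⟩
  rw [← hδ] at h3 h4 ⊢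
  rw [abs_le] at h3
  rcases le_abs.1 h4 with h5 | h5
  · have : 0 < γ := by linarith
    exact mul_pos this (by linarith)
  · have : γ < 0 := by linarith
    exact mul_pos_of_neg_of_neg this (by linarith)

/-! ### The choice of the vectors -/

/-- A configuration with a simple top eigenvalue. -/
def Simple (b : Cfg N) : Prop := ∃ (l g : ℝ) (ψ : Fin N → ℝ), 0 < g ∧ TopPair (Smat b) l g ψ

theorem Simple.gauge {b : Cfg N} (h : Simple b) (τ : Fin N → ZMod 2) : Simple (b + gau τ) := by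
  obtain ⟨l, g, ψ, hg, hψ⟩ := h
  exact ⟨l, g, _, hg, hψ.gauge τ⟩

open Classical in
/-- A choice of the top eigenvector. -/
noncomputable def psi0 (b : Cfg N) : Fin N → ℝ :=
  if h : Simple b then Classical.choose (Classical.choose_spec (Classical.choose_spec h)) else 0

theorem psi0_spec {b : Cfg N} (h : Simple b) :
    ∃ l g, 0 < g ∧ TopPair (Smat b) l g (psi0 b) := by
  unfold psi0
  rw [dif_pos h]
  exact ⟨_, _, Classical.choose_spec (Classical.choose_spec (Classical.choose_spec h))⟩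

/-- The gauge parameter that moves a configuration to the slice `a (v0 v) = 0`. -/
def tau (v0 : Fin N) (b : Cfg N) : Fin N → ZMod 2 :=
  fun v => if h : v0 = v then 0 else b (mkEdge v0 v h)

theorem tau_gau (v0 : Fin N) (b : Cfg N) (τ : Fin N → ZMod 2) :
    tau v0 (b + gau τ) = (fun _ => τ v0) + (τ + tau v0 b) := by
  funext v
  show tau v0 (b + gau τ) v = τ v0 + (τ v + tau v0 b v)
  unfold tau
  by_cases h : v0 = v
  · rw [dif_pos h, dif_pos h, h, add_zero]
    exact (CharTwo.add_self_eq_zero _).symm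
  · rw [dif_neg h, dif_neg h, Pi.add_apply, gau_mkEdge]
    ring

/-- The covariant choice of the top eigenvector. -/
noncomputable def psi (v0 : Fin N) (b : Cfg N) : Fin N → ℝ :=
  gact (tau v0 b) (psi0 (b + gau (tau v0 b)))

/-- The choice is covariant. -/
theorem psi_gau (v0 : Fin N) (b : Cfg N) (τ : Fin N → ZMod 2) (u : Fin N) :
    psi v0 (b + gau τ) u = sgn2 (τ v0) * gact τ (psi v0 b) u := by
  have h1 : b + gau τ + gau (tau v0 (b + gau τ)) = b + gau (tau v0 b) := by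
    rw [tau_gau, gau_add, gau_add, gau_const, zero_add]
    have h2 : gau τ + gau τ = 0 := cfg_add_self _
    calc b + gau τ + (gau τ + gau (tau v0 b)) = b + (gau τ + gau τ) + gau (tau v0 b) := by abel
      _ = b + gau (tau v0 b) := by rw [h2, add_zero]
  unfold psi
  rw [h1, tau_gau, gact_add, gact_add]
  rfl

theorem psi_spec (v0 : Fin N) {b : Cfg N} (h : Simple b) :
    ∃ l g, 0 < g ∧ TopPair (Smat b) l g (psi v0 b) := by
  obtain ⟨l, g, hg, h1⟩ := psi0_spec (h.gauge (tau v0 b))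
  refine ⟨l, g, hg, ?_⟩
  have h2 := h1.gauge (tau v0 b)
  have h3 : b + gau (tau v0 b) + gau (tau v0 b) = b := by
    rw [add_assoc, cfg_add_self, add_zero]
  rw [h3] at h2
  exact h2

theorem psi_eq (v0 : Fin N) {b : Cfg N} {l g : ℝ} {ψ : Fin N → ℝ} (hg : 0 < g)
    (h : TopPair (Smat b) l g ψ) : (∀ v, psi v0 b v = ψ v) ∨ ∀ v, psi v0 b v = -ψ v := by
  obtain ⟨l', g', hg', h'⟩ := psi_spec v0 ⟨l, g, ψ, hg, h⟩
  exact h.unique hg hg' h'

/-- The inner product of the chosen vectors. -/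
noncomputable def inn (v0 : Fin N) (b c : Cfg N) : ℝ := ∑ v, psi v0 b v * psi v0 c v

theorem inn_comm (v0 : Fin N) (b c : Cfg N) : inn v0 b c = inn v0 c b :=
  sum_congr rfl fun _ _ => mul_comm _ _

theorem inn_gau (v0 : Fin N) (b c : Cfg N) (τ : Fin N → ZMod 2) :
    inn v0 (b + gau τ) (c + gau τ) = inn v0 b c := by
  unfold inn
  rw [← gact_inner τ (psi v0 b) (psi v0 c)]
  refine sum_congr rfl fun v _ => ?_
  rw [psi_gau, psi_gau]
  have h := sgn2_mul_self (τ v0)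
  calc sgn2 (τ v0) * gact τ (psi v0 b) v * (sgn2 (τ v0) * gact τ (psi v0 c) v) =
      (sgn2 (τ v0) * sgn2 (τ v0)) * (gact τ (psi v0 b) v * gact τ (psi v0 c) v) := by ring
    _ = gact τ (psi v0 b) v * gact τ (psi v0 c) v := by rw [h, one_mul]

open Classical in
/-- The sign of the transport. -/
noncomputable def sig (v0 : Fin N) (b c : Cfg N) : ℤ := if 0 ≤ inn v0 b c then 1 else -1

theorem sig_cases (v0 : Fin N) (b c : Cfg N) : sig v0 b c = 1 ∨ sig v0 b c = -1 := by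
  unfold sig
  split_ifs
  · exact Or.inl rfl
  · exact Or.inr rfl

theorem sig_comm (v0 : Fin N) (b c : Cfg N) : sig v0 b c = sig v0 c b := by
  unfold sig
  rw [inn_comm]

theorem sig_self (v0 : Fin N) (b : Cfg N) : sig v0 b b = 1 := by
  unfold sig
  rw [if_pos]
  exact sum_nonneg fun _ _ => mul_self_nonneg _

theorem sig_gau (v0 : Fin N) (b c : Cfg N) (τ : Fin N → ZMod 2) :
    sig v0 (b + gau τ) (c + gau τ) = sig v0 b c := by
  unfold sig
  rw [inn_gau]

/-! ### The neighbourhoods of the good set -/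

/-- The conclusion of the random matrix part, for the set `Gam`. -/
def GoodSet (L : ℕ) (Gam : Finset (Cfg N)) : Prop :=
  ∀ a ∈ Gam, ∀ l : List (Cfg N), (∀ m ∈ l, IsMove m) → l.length ≤ L →
    ∃ (ψa ψb : Fin N → ℝ) (la lb g : ℝ), 0 < g ∧ TopPair (Smat a) la g ψa ∧
      TopPair (Smat (a + l.sum)) lb g ψb ∧ 9 / 10 ≤ |∑ v, ψa v * ψb v| ∧
      ∀ v, ψb v ^ 2 ≤ 1 / 100

/-- The gauge closure of the set of the configurations at most `i` moves away from `Gam`. -/
def Nbh (Gam : Finset (Cfg N)) (i : ℕ) : Set (Cfg N) :=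
  {b | ∃ (τ : Fin N → ZMod 2) (a : Cfg N) (l : List (Cfg N)), a ∈ Gam ∧ (∀ m ∈ l, IsMove m) ∧
    l.length ≤ i ∧ b + gau τ = a + l.sum}

theorem subset_Nbh (Gam : Finset (Cfg N)) : ∀ a ∈ Gam, a ∈ Nbh Gam 0 := by
  intro a ha
  refine ⟨0, a, [], ha, by simp, by simp, ?_⟩
  have : gau (0 : Fin N → ZMod 2) = 0 := gau_const 0
  rw [this]
  simp

theorem Nbh_mono (Gam : Finset (Cfg N)) {i j : ℕ} (h : i ≤ j) : Nbh Gam i ⊆ Nbh Gam j := by
  rintro b ⟨τ, a, l, h1, h2, h3, h4⟩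
  exact ⟨τ, a, l, h1, h2, h3.trans h, h4⟩

theorem Nbh_add (Gam : Finset (Cfg N)) {i : ℕ} {b : Cfg N} (hb : b ∈ Nbh Gam i)
    {l : List (Cfg N)} (hl : ∀ m ∈ l, IsMove m) : b + l.sum ∈ Nbh Gam (i + l.length) := by
  obtain ⟨τ, a, l', h1, h2, h3, h4⟩ := hb
  refine ⟨τ, a, l' ++ l, h1, ?_, ?_, ?_⟩
  · intro m hm
    rcases List.mem_append.1 hm with h | h
    · exact h2 m h
    · exact hl m h
  · rw [List.length_append]
    omega
  · rw [List.sum_append, ← add_assoc, ← h4]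
    abel

theorem Nbh_gau (Gam : Finset (Cfg N)) {i : ℕ} {b : Cfg N} (hb : b ∈ Nbh Gam i)
    (τ' : Fin N → ZMod 2) : b + gau τ' ∈ Nbh Gam i := by
  obtain ⟨τ, a, l, h1, h2, h3, h4⟩ := hb
  refine ⟨τ' + τ, a, l, h1, h2, h3, ?_⟩
  rw [gau_add, ← h4]
  have : gau τ' + gau τ' = 0 := cfg_add_self _
  calc b + gau τ' + (gau τ' + gau τ) = b + (gau τ' + gau τ') + gau τ := by abel
    _ = b + gau τ := by rw [this, add_zero]

variable {L : ℕ} {Gam : Finset (Cfg N)}

theorem simple_of_mem (hG : GoodSet L Gam) {b : Cfg N} (hb : b ∈ Nbh Gam L) : Simple b := by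
  obtain ⟨τ, a, l, h1, h2, h3, h4⟩ := hb
  obtain ⟨ψa, ψb, la, lb, g, hg, -, hb, -, -⟩ := hG a h1 l h2 h3
  have h5 : Simple (b + gau τ) := by
    rw [h4]
    exact ⟨lb, g, ψb, hg, hb⟩
  have h6 := h5.gauge τ
  have h7 : b + gau τ + gau τ = b := by rw [add_assoc, cfg_add_self, add_zero]
  rwa [h7] at h6

theorem norm_psi (v0 : Fin N) (hG : GoodSet L Gam) {b : Cfg N} (hb : b ∈ Nbh Gam L) :
    ∑ v, psi v0 b v ^ 2 = 1 := by
  obtain ⟨l, g, _, h⟩ := psi_spec v0 (simple_of_mem hG hb)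
  exact h.1

/-- Delocalization. -/
theorem psi_small (v0 : Fin N) (hG : GoodSet L Gam) {b : Cfg N} (hb : b ∈ Nbh Gam L)
    (v : Fin N) : psi v0 b v ^ 2 ≤ 1 / 100 := by
  obtain ⟨τ, a, l, h1, h2, h3, h4⟩ := hb
  obtain ⟨ψa, ψb, la, lb, g, hg, -, hb, -, hs⟩ := hG a h1 l h2 h3
  have h5 : psi v0 b v ^ 2 = psi v0 (b + gau τ) v ^ 2 := by
    rw [psi_gau, mul_pow, pow_two (sgn2 (τ v0)), sgn2_mul_self, one_mul, gact_sq]
  rw [h5, h4]
  rcases psi_eq v0 hg hb with h6 | h6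
  · rw [h6]
    exact hs v
  · rw [h6, neg_sq]
    exact hs v

/-- The points of a ball are close to its centre. -/
theorem inn_large (v0 : Fin N) (hG : GoodSet L Gam) {a : Cfg N} (ha : a ∈ Gam)
    {l : List (Cfg N)} (hl : ∀ m ∈ l, IsMove m) (hL : l.length ≤ L) :
    9 / 10 ≤ |inn v0 a (a + l.sum)| := by
  obtain ⟨ψa, ψb, la, lb, g, hg, h1, h2, h3, -⟩ := hG a ha l hl hL
  unfold inn
  rcases psi_eq v0 hg h1 with h4 | h4 <;> rcases psi_eq v0 hg h2 with h5 | h5
  · simp only [h4, h5]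
    exact h3
  · simp only [h4, h5, mul_neg, sum_neg_distrib, abs_neg]
    exact h3
  · simp only [h4, h5, neg_mul, sum_neg_distrib, abs_neg]
    exact h3
  · simp only [h4, h5, neg_mul_neg]
    exact h3

/-- In a ball, the sign is the product of the signs to the centre. -/
theorem sig_ball (v0 : Fin N) (hG : GoodSet L Gam) {a : Cfg N} (ha : a ∈ Gam)
    {l l' : List (Cfg N)} (hl : ∀ m ∈ l, IsMove m) (hl' : ∀ m ∈ l', IsMove m) (hL : l.length ≤ L)
    (hL' : l'.length ≤ L) :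
    sig v0 (a + l.sum) (a + l'.sum) = sig v0 a (a + l.sum) * sig v0 a (a + l'.sum) := by
  have haN := subset_Nbh Gam a ha
  have h1 := norm_psi v0 hG (Nbh_mono Gam (Nat.zero_le L) haN)
  have h2 := norm_psi v0 hG (Nbh_mono Gam (by simpa using hL) (Nbh_add Gam haN hl))
  have h3 := norm_psi v0 hG (Nbh_mono Gam (by simpa using hL') (Nbh_add Gam haN hl'))
  have h4 := sign_triple h1 h2 h3 (inn_large v0 hG ha hl hL) (inn_large v0 hG ha hl' hL')
  obtain ⟨x, hx⟩ : ∃ x, x = inn v0 (a + l.sum) (a + l'.sum) := ⟨_, rfl⟩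
  obtain ⟨y, hy⟩ : ∃ y, y = inn v0 a (a + l.sum) := ⟨_, rfl⟩
  obtain ⟨z, hz⟩ : ∃ z, z = inn v0 a (a + l'.sum) := ⟨_, rfl⟩
  have h5 : 0 < x * (y * z) := by
    rw [hx, hy, hz]
    exact h4
  unfold sig
  rw [← hx, ← hy, ← hz]
  rcases le_or_gt 0 y with hy0 | hy0 <;> rcases le_or_gt 0 z with hz0 | hz0
  · have : 0 ≤ x := by
      by_contra hcon
      have := mul_nonneg hy0 hz0
      nlinarith
    rw [if_pos this, if_pos hy0, if_pos hz0, one_mul]
  · have : ¬ 0 ≤ x := by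
      intro hcon
      have : y * z ≤ 0 := mul_nonpos_of_nonneg_of_nonpos hy0 hz0.le
      nlinarith
    rw [if_neg this, if_pos hy0, if_neg (not_le.2 hz0), one_mul]
  · have : ¬ 0 ≤ x := by
      intro hcon
      have : y * z ≤ 0 := mul_nonpos_of_nonpos_of_nonneg hy0.le hz0
      nlinarith
    rw [if_neg this, if_neg (not_le.2 hy0), if_pos hz0, mul_one]
  · have : 0 ≤ x := by
      by_contra hcon
      have := mul_pos_of_neg_of_neg hy0 hz0
      nlinarith
    rw [if_pos this, if_neg (not_le.2 hy0), if_neg (not_le.2 hz0)]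
    norm_num

/-- The transport has no holonomy in a ball. -/
theorem sig_cocycle (v0 : Fin N) (hG : GoodSet L Gam) {i : ℕ} {c : Cfg N} (hc : c ∈ Nbh Gam i)
    {l l' : List (Cfg N)} (hl : ∀ m ∈ l, IsMove m) (hl' : ∀ m ∈ l', IsMove m)
    (hL : i + l.length + l'.length ≤ L) :
    sig v0 (c + l.sum + l'.sum) (c + l.sum) * sig v0 (c + l.sum) c =
      sig v0 (c + l.sum + l'.sum) c := by
  obtain ⟨τ, a, l₀, h1, h2, h3, h4⟩ := hc
  have e1 : c + l.sum + gau τ = a + (l₀ ++ l).sum := by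
    rw [List.sum_append, ← add_assoc, ← h4]
    abel
  have e2 : c + l.sum + l'.sum + gau τ = a + (l₀ ++ l ++ l').sum := by
    rw [List.sum_append, List.sum_append, ← add_assoc, ← add_assoc, ← h4]
    abel
  have m1 : ∀ m ∈ l₀ ++ l, IsMove m := by
    intro m hm
    rcases List.mem_append.1 hm with h | h
    · exact h2 m h
    · exact hl m h
  have m2 : ∀ m ∈ l₀ ++ l ++ l', IsMove m := by
    intro m hm
    rcases List.mem_append.1 hm with h | h
    · exact m1 m h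
    · exact hl' m h
  have n0 : l₀.length ≤ L := by omega
  have n1 : (l₀ ++ l).length ≤ L := by
    rw [List.length_append]
    omega
  have n2 : (l₀ ++ l ++ l').length ≤ L := by
    rw [List.length_append, List.length_append]
    omega
  rw [← sig_gau v0 (c + l.sum + l'.sum) (c + l.sum) τ, ← sig_gau v0 (c + l.sum) c τ,
    ← sig_gau v0 (c + l.sum + l'.sum) c τ, e1, e2, h4, sig_ball v0 hG h1 m2 m1 n2 n1,
    sig_ball v0 hG h1 m1 h2 n1 n0, sig_ball v0 hG h1 m2 h2 n2 n0]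
  rcases sig_cases v0 a (a + (l₀ ++ l).sum) with h | h <;> rw [h] <;> ring

/-- The full flip of a row changes the frame by the sign of the distinguished row. -/
theorem sig_row (v0 : Fin N) (hG : GoodSet L Gam) {b : Cfg N} (hb : b ∈ Nbh Gam L) (v : Fin N) :
    sig v0 b (b + mvRow v univ) = if v = v0 then -1 else 1 := by
  have h1 := norm_psi v0 hG hb
  have h2 := psi_small v0 hG hb v
  have h3 : ∑ u, psi v0 b u * gact (Pi.single v (1 : ZMod 2)) (psi v0 b) u =
      1 - 2 * psi v0 b v ^ 2 := by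
    have e : ∀ u, psi v0 b u * gact (Pi.single v (1 : ZMod 2)) (psi v0 b) u =
        psi v0 b u ^ 2 - (if u = v then 2 * psi v0 b v ^ 2 else 0) := by
      intro u
      show psi v0 b u * (sgn2 ((Pi.single v (1 : ZMod 2) : Fin N → ZMod 2) u) * psi v0 b u) = _
      by_cases h : u = v
      · rw [if_pos h, h, Pi.single_eq_same, sgn2_one]
        ring
      · rw [if_neg h, Pi.single_eq_of_ne h, sgn2_zero]
        ring
    rw [sum_congr rfl fun u _ => e u, sum_sub_distrib, h1, sum_ite_eq' univ v,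
      if_pos (mem_univ v)]
  have h4 : inn v0 b (b + mvRow v univ) =
      sgn2 ((Pi.single v (1 : ZMod 2) : Fin N → ZMod 2) v0) * (1 - 2 * psi v0 b v ^ 2) := by
    unfold inn
    rw [mvRow_univ, ← h3, mul_sum]
    refine sum_congr rfl fun u _ => ?_
    rw [psi_gau]
    ring
  unfold sig
  rw [h4]
  by_cases h : v = v0
  · subst h
    rw [if_pos rfl, Pi.single_eq_same, sgn2_one, if_neg]
    intro h5
    linarith
  · rw [if_neg h, Pi.single_eq_of_ne (Ne.symm h), sgn2_zero, if_pos]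
    linarith

/-! ### Families of moves -/

section Families

variable {V : Type} [Fintype V]

/-- The size of the support of `T`. -/
def supp (T : V → ZMod 2) : ℕ := (univ.filter fun v => T v ≠ 0).card

/-- The sum of the moves in `T`, as the sum of a list. -/
theorem exists_list {mv : V → Cfg N} (hmv : ∀ v, IsMove (mv v)) (T : V → ZMod 2) :
    ∃ l : List (Cfg N), (∀ m ∈ l, IsMove m) ∧ l.length = supp T ∧ l.sum = ∑ v, T v • mv v := by
  classical
  refine ⟨(univ.filter fun v => T v ≠ 0).toList.map mv, ?_, ?_, ?_⟩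
  · intro m hm
    obtain ⟨v, -, rfl⟩ := List.mem_map.1 hm
    exact hmv v
  · rw [List.length_map, length_toList]
    rfl
  · rw [sum_map_toList, sum_filter]
    refine sum_congr rfl fun v _ => ?_
    rcases zmod2_cases (T v) with h | h
    · rw [h, if_neg (by simp), zero_smul]
    · rw [h, if_pos one_ne_zero, one_smul]

theorem Nbh_move (Gam : Finset (Cfg N)) {mv : V → Cfg N} (hmv : ∀ v, IsMove (mv v)) {i : ℕ}
    {c : Cfg N} (hc : c ∈ Nbh Gam i) (T : V → ZMod 2) :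
    c + ∑ v, T v • mv v ∈ Nbh Gam (i + supp T) := by
  obtain ⟨l, h1, h2, h3⟩ := exists_list hmv T
  rw [← h2, ← h3]
  exact Nbh_add Gam hc h1

theorem sig_move (v0 : Fin N) (hG : GoodSet L Gam) {mv : V → Cfg N} (hmv : ∀ v, IsMove (mv v))
    {i : ℕ} {c : Cfg N} (hc : c ∈ Nbh Gam i) (T T' : V → ZMod 2) (hL : i + supp T + supp T' ≤ L) :
    sig v0 (c + ∑ v, T' v • mv v + ∑ v, T v • mv v) (c + ∑ v, T' v • mv v) *
        sig v0 (c + ∑ v, T' v • mv v) c =
      sig v0 (c + ∑ v, T' v • mv v + ∑ v, T v • mv v) c := by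
  obtain ⟨l, h1, h2, h3⟩ := exists_list hmv T
  obtain ⟨l', h1', h2', h3'⟩ := exists_list hmv T'
  rw [← h3, ← h3']
  exact sig_cocycle v0 hG hc h1' h1 (by omega)

end Families

end Pool.Agent.MP_9cec2c_lc.Flat
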