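import Pool.Agent.Lib.MP_9cec2c_lc.AZFlat
import Pool.Agent.Lib.MP_9cec2c_lc.Mg.G010
import Pool.Agent.Lib.MP_9cec2c_lc.FLGauge
import Pool.Agent.Lib.MP_9cec2c_lc.FLDim

/-!
From a good set of sign matrices to the size of refutations of the Tseitin formula modulo 2.
-/

set_option autoImplicit false
set_option linter.unusedSectionVars false

namespace Pool.Agent.MP_9cec2c_lc.AZ

open Finset Flat

section triples

variable {K : Type} [Field K] {W : Type} [AddCommGroup W] [Module K W]

/-- The sign of a literal. -/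
def es (K : Type) [Field K] (s : Bool) : K := if s = true then 1 else -1

theorem es_sq (s : Bool) : es K s * es K s = 1 := by
  unfold es
  split_ifs <;> ring

theorem litOp_invol (h2 : (2 : K) ≠ 0) {V : Type} (χ : V → W →ₗ[K] W) (l : V × Bool) (w : W) :
    litOp (fun v => (2 : K)⁻¹ • (LinearMap.id - χ v)) l w =
      (2 : K)⁻¹ • (w + es K l.2 • χ l.1 w) := by
  obtain ⟨v, s⟩ := l
  have h3 : (2 : K)⁻¹ • w + (2 : K)⁻¹ • w = w := by
    rw [← add_smul, ← two_mul, mul_inv_cancel₀ h2, one_smul]
  cases s with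
  | true =>
    change w - (2 : K)⁻¹ • (w - χ v w) = (2 : K)⁻¹ • (w + es K true • χ v w)
    unfold es
    rw [if_pos rfl, one_smul, smul_sub, smul_add]
    have h4 : w - ((2 : K)⁻¹ • w - (2 : K)⁻¹ • χ v w) =
      (w - (2 : K)⁻¹ • w) + (2 : K)⁻¹ • χ v w := by abel
    rw [h4]
    congr 1
    rw [sub_eq_iff_eq_add]
    exact h3.symm
  | false =>
    change (2 : K)⁻¹ • (w - χ v w) = (2 : K)⁻¹ • (w + es K false • χ v w)
    unfold es
    rw [if_neg (by simp), neg_smul, one_smul, sub_eq_add_neg]

variable {V : Type}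

theorem kill_one (h2 : (2 : K) ≠ 0) (χ : V → W →ₗ[K] W) {i : V} {w : W} {c : K}
    (hc : c * c = 1) (h : χ i w = c • w) {s : Bool} (hs : es K s = -c) :
    ([(i, s)] : List (V × Bool)).foldr
      (fun b x => litOp (fun v => (2 : K)⁻¹ • (LinearMap.id - χ v)) b x) w = 0 := by
  rw [List.foldr_cons, List.foldr_nil, litOp_invol h2]
  simp only
  rw [h, smul_smul, hs, neg_mul, hc, neg_smul, one_smul, add_neg_cancel, smul_zero]

theorem kill_two (h2 : (2 : K) ≠ 0) (χ : V → W →ₗ[K] W) {i j : V} {w : W}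
    (hi : χ i w = χ j w) (hij : χ i (χ j w) = w) {s t : Bool} (hs : es K s * es K t = -1) :
    ([(i, s), (j, t)] : List (V × Bool)).foldr
      (fun b x => litOp (fun v => (2 : K)⁻¹ • (LinearMap.id - χ v)) b x) w = 0 := by
  rw [List.foldr_cons, List.foldr_cons, List.foldr_nil, litOp_invol h2, litOp_invol h2]
  simp only [map_smul, map_add]
  have h3 : es K t = -es K s := by
    have h4 := es_sq (K := K) s
    have h5 : es K s * (es K s * es K t) = es K s * -1 := by rw [hs]
    rw [← mul_assoc, h4, one_mul] at h5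
    rw [h5]
    ring
  rw [hij, hi, h3]
  have h4 := es_sq (K := K) s
  have h5 : es K s • (2 : K)⁻¹ • (χ j w + -es K s • w) =
      (2 : K)⁻¹ • (es K s • χ j w - w) := by
    rw [smul_comm, smul_add, smul_smul, mul_neg, h4, neg_smul, one_smul, sub_eq_add_neg]
  rw [h5, ← smul_add]
  have h6 : w + -es K s • χ j w + (es K s • χ j w - w) = 0 := by
    rw [neg_smul]
    abel
  rw [h6, smul_zero, smul_zero]

theorem kill_three (h2 : (2 : K) ≠ 0) (χ : V → W →ₗ[K] W) {i j k : V} {w : W}
    (hij : χ i (χ j w) = χ k w) (hik : χ i (χ k w) = χ j w) (hjk : χ j (χ k w) = χ i w)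
    (hijk : χ i (χ i w) = w) {s t u : Bool} (hs : es K s * es K t * es K u = -1) :
    ([(i, s), (j, t), (k, u)] : List (V × Bool)).foldr
      (fun b x => litOp (fun v => (2 : K)⁻¹ • (LinearMap.id - χ v)) b x) w = 0 := by
  rw [List.foldr_cons, List.foldr_cons, List.foldr_cons, List.foldr_nil, litOp_invol h2,
    litOp_invol h2, litOp_invol h2]
  simp only [map_smul, map_add]
  rw [hij, hik, hjk, hijk]
  obtain ⟨a, ha⟩ : ∃ a, a = es K s := ⟨_, rfl⟩
  obtain ⟨b, hb⟩ : ∃ b, b = es K t := ⟨_, rfl⟩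
  obtain ⟨c, hc⟩ : ∃ c, c = es K u := ⟨_, rfl⟩
  have ha2 : a * a = 1 := by rw [ha]; exact es_sq s
  have hb2 : b * b = 1 := by rw [hb]; exact es_sq t
  have hc2 : c * c = 1 := by rw [hc]; exact es_sq u
  rw [← ha, ← hb, ← hc] at hs ⊢
  -- `a b = - c`, `a c = - b`, `b c = - a`
  have hab : a * b = -c := by
    calc a * b = a * b * (c * c) := by rw [hc2, mul_one]
      _ = (a * b * c) * c := by ring
      _ = -c := by rw [hs]; ring
  have hac : a * c = -b := by
    calc a * c = a * c * (b * b) := by rw [hb2, mul_one]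
      _ = (a * b * c) * b := by ring
      _ = -b := by rw [hs]; ring
  have hbc : b * c = -a := by
    calc b * c = b * c * (a * a) := by rw [ha2, mul_one]
      _ = (a * b * c) * a := by ring
      _ = -a := by rw [hs]; ring
  obtain ⟨x, hx⟩ : ∃ x, x = χ i w := ⟨_, rfl⟩
  obtain ⟨y, hy⟩ : ∃ y, y = χ j w := ⟨_, rfl⟩
  obtain ⟨z, hz⟩ : ∃ z, z = χ k w := ⟨_, rfl⟩
  rw [← hx, ← hy, ← hz]
  obtain ⟨q, hq⟩ : ∃ q : K, q = 2⁻¹ := ⟨_, rfl⟩
  rw [← hq]
  simp only [smul_add, smul_smul]
  have e1 : q * (b * q * c) = -(q * (q * a)) := by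
    calc q * (b * q * c) = q * q * (b * c) := by ring
      _ = _ := by rw [hbc]; ring
  match_scalars
  · linear_combination (q * q * q) * hs
  · linear_combination (q * q * q) * hab
  · linear_combination (q * q * q) * hac
  · linear_combination (q * q * q) * hbc

end triples

section world

variable {K : Type} [Field K] {N L : ℕ} {Gam : Finset (Cfg N)}

/-- The transport by the move of a variable. -/
noncomputable def chi (K : Type) [Field K] {N : ℕ} (v0 : Fin N) (i : TVar N) :
    (Cfg N → K) →ₗ[K] (Cfg N → K) where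
  toFun f := fun b => (sig v0 b (b + mvVar i) : K) * f (b + mvVar i)
  map_add' f g := by
    funext b
    rw [Pi.add_apply, Pi.add_apply, mul_add]
  map_smul' c f := by
    funext b
    rw [RingHom.id_apply, Pi.smul_apply, Pi.smul_apply, smul_eq_mul, smul_eq_mul]
    ring

theorem chi_apply (v0 : Fin N) (i : TVar N) (f : Cfg N → K) (b : Cfg N) :
    chi K v0 i f b = (sig v0 b (b + mvVar i) : K) * f (b + mvVar i) := rfl

/-- The signs of the gauge transformations. -/
def kap (K : Type) [Field K] {N : ℕ} (v0 : Fin N) (c : Fin N → ZMod 2) (v : Fin N) : K :=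
  (if v = v0 then -1 else 1) * (if c v = 0 then 1 else -1)

theorem kap_sq (v0 : Fin N) (c : Fin N → ZMod 2) (v : Fin N) :
    kap K v0 c v * kap K v0 c v = 1 := by
  unfold kap
  split_ifs <;> ring

theorem prod_kap (v0 : Fin N) (c : Fin N → ZMod 2) (hc : ∑ v, c v = 1) :
    ∏ v, kap K v0 c v = 1 := by
  unfold kap
  rw [prod_mul_distrib]
  have h1 : ∏ v : Fin N, (if v = v0 then (-1 : K) else 1) = -1 := by
    rw [prod_ite_eq' univ v0, if_pos (mem_univ _)]
  have h2 : ∀ s : Finset (Fin N), ∏ v ∈ s, (if c v = 0 then (1 : K) else -1) =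
      if ∑ v ∈ s, c v = 0 then 1 else -1 := by
    intro s
    induction s using Finset.induction_on with
    | empty => simp
    | insert v s hv ih =>
      rw [prod_insert hv, sum_insert hv, ih]
      rcases zmod2_cases (c v) with h | h <;>
        rcases zmod2_cases (∑ v ∈ s, c v) with h' | h' <;> rw [h, h']
      · simp
      · simp
      · simp
      · have h3 : (1 : ZMod 2) + 1 = 0 := by decide
        rw [h3]
        simp
  rw [h1, h2, hc, if_neg one_ne_zero]
  ring

open Classical in
/-- The neighbourhood of the good set as a finite set. -/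
noncomputable def Gf (Gam : Finset (Cfg N)) (i : ℕ) : Finset (Cfg N) :=
  univ.filter fun b => b ∈ Nbh Gam i

open Classical in
theorem mem_Gf {i : ℕ} {b : Cfg N} : b ∈ Gf Gam i ↔ b ∈ Nbh Gam i := by
  unfold Gf
  rw [mem_filter]
  exact and_iff_right (mem_univ _)

theorem Gf_gauge (i : ℕ) (b : Cfg N) (v : Fin N) (hb : b ∈ Gf Gam i) :
    b + mvRow v univ ∈ Gf Gam i := by
  rw [mem_Gf] at hb ⊢
  rw [mvRow_univ]
  exact Nbh_gau Gam hb _

/-- The levels of the world. -/
noncomputable def NN (K : Type) [Field K] {N : ℕ} (Gam : Finset (Cfg N)) (v0 : Fin N)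
    (c : Fin N → ZMod 2) (i : ℕ) : Submodule K (Cfg N → K) :=
  covSpace K (kap K v0 c) (Gf Gam i)

theorem NN_mono (v0 : Fin N) (c : Fin N → ZMod 2) {i j : ℕ} (h : i ≤ j) :
    NN K Gam v0 c i ≤ NN K Gam v0 c j :=
  covSpace_mono fun _ hb => mem_Gf.2 (Nbh_mono Gam h (mem_Gf.1 hb))

theorem add_add_self (b m : Cfg N) : b + m + m = b := by
  rw [add_assoc, cfg_add_self, add_zero]

theorem Nbh_add_one {i : ℕ} {b m : Cfg N} (hm : IsMove m) (hb : b ∈ Nbh Gam i) :
    b + m ∈ Nbh Gam (i + 1) := by
  have h := Nbh_add Gam hb (l := [m]) (by simpa using hm)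
  simpa using h

theorem chi_mem (v0 : Fin N) (c : Fin N → ZMod 2) (i : ℕ) (x : TVar N) (f : Cfg N → K)
    (hf : f ∈ NN K Gam v0 c i) : chi K v0 x f ∈ NN K Gam v0 c (i + 1) := by
  obtain ⟨h1, h2⟩ := hf
  refine ⟨fun b hb => ?_, fun b v => ?_⟩
  · rw [chi_apply, h1, mul_zero]
    intro h3
    apply hb
    rw [mem_Gf] at h3 ⊢
    have h4 := Nbh_add_one (mvVar_isMove x) h3
    rwa [add_add_self] at h4
  · rw [chi_apply, chi_apply]
    have h3 : b + mvRow v univ + mvVar x = b + mvVar x + mvRow v univ := by abel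
    rw [h3, h2, mvRow_univ, sig_gau]
    ring

theorem sig_sq (v0 : Fin N) (b c : Cfg N) : (sig v0 b c : K) * (sig v0 b c : K) = 1 := by
  rcases sig_cases v0 b c with h | h <;> rw [h] <;> push_cast <;> ring

theorem chi_chi_self (v0 : Fin N) (x : TVar N) (f : Cfg N → K) :
    chi K v0 x (chi K v0 x f) = f := by
  funext b
  rw [chi_apply, chi_apply, add_add_self, sig_comm v0 (b + mvVar x) b, ← mul_assoc, sig_sq,
    one_mul]

/-- Two moves in a row. -/
theorem chi_chi (hG : GoodSet L Gam) (v0 : Fin N) (c : Fin N → ZMod 2) {i : ℕ} (hi : i + 2 ≤ L)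
    (x y : TVar N) (f : Cfg N → K) (hf : f ∈ NN K Gam v0 c i) (b : Cfg N) :
    chi K v0 x (chi K v0 y f) b =
      (sig v0 b (b + (mvVar x + mvVar y)) : K) * f (b + (mvVar x + mvVar y)) := by
  rw [chi_apply, chi_apply, add_assoc]
  by_cases h0 : b + (mvVar x + mvVar y) ∈ Gf Gam i
  · have h1 := sig_cocycle v0 hG (c := b + (mvVar x + mvVar y)) (mem_Gf.1 h0)
      (l := [mvVar y]) (l' := [mvVar x]) (by simpa using mvVar_isMove y)
      (by simpa using mvVar_isMove x)
      (by simp only [List.length_singleton]; omega)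
    have h2 : b + (mvVar x + mvVar y) + [mvVar y].sum = b + mvVar x := by
      rw [List.sum_singleton, ← add_assoc, add_add_self]
    have h3 : b + mvVar x + [mvVar x].sum = b := by
      rw [List.sum_singleton, add_add_self]
    rw [h2, h3] at h1
    rw [← mul_assoc]
    congr 1
    rw [← h1]
    push_cast
    ring
  · rw [hf.1 _ h0, mul_zero, mul_zero, mul_zero]

theorem isFrame_world [Fintype K] (h2 : (2 : K) ≠ 0) (hG : GoodSet L Gam) (v0 : Fin N)
    (c : Fin N → ZMod 2) :
    IsFrame (NN K Gam v0 c) (fun x => (2 : K)⁻¹ • (LinearMap.id - chi K v0 x)) L :=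
  isFrame_of_invol h2 (chi K v0) (fun _ _ h => NN_mono v0 c h)
    (fun i x f _ hf => chi_mem v0 c i x f hf) (fun _ x f _ _ => chi_chi_self v0 x f)
    (fun i x y f hi hf => by
      funext b
      rw [chi_chi hG v0 c hi x y f hf, chi_chi hG v0 c hi y x f hf, add_comm (mvVar x)])

/-- The product of the variables of a step equation. -/
theorem chi_of_sum (hG : GoodSet L Gam) (v0 : Fin N) (c : Fin N → ZMod 2) (hL : 2 ≤ L)
    {x y z : TVar N} (h : mvVar x + mvVar y = mvVar z) (f : Cfg N → K)
    (hf : f ∈ NN K Gam v0 c 0) : chi K v0 x (chi K v0 y f) = chi K v0 z f := by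
  funext b
  rw [chi_chi hG v0 c (by omega) x y f hf, h, chi_apply]

theorem mvRow_univ_two (v : Fin N) : (2 : ℕ) • mvRow v univ = 0 := by
  rw [two_smul]
  exact cfg_add_self _

/-- The clauses of the parity of one, two or three variables. -/
theorem clause_list {C A : Finset (TVar N)} {cc : ZMod 2}
    (hA : ((A.card : ZMod 2) ≠ cc)) (hAC : A ⊆ C) :
    (∀ i, C = {i} → es K (decide (i ∉ A)) = -(if cc = 0 then 1 else -1)) ∧
    (∀ i j, i ≠ j → C = {i, j} → cc = 0 →
      es K (decide (i ∉ A)) * es K (decide (j ∉ A)) = -1) ∧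
    (∀ i j k, i ≠ j → i ≠ k → j ≠ k → C = {i, j, k} → cc = 0 →
      es K (decide (i ∉ A)) * es K (decide (j ∉ A)) * es K (decide (k ∉ A)) = -1) := by
  have hcard : (A.card : ZMod 2) = ∑ i ∈ C, if i ∈ A then 1 else 0 := by
    rw [sum_ite_mem, inter_eq_right.2 hAC, sum_const, nsmul_eq_mul, mul_one]
  rw [hcard] at hA
  have he : ∀ i : TVar N, es K (decide (i ∉ A)) = if i ∈ A then -1 else 1 := by
    intro i
    unfold es
    by_cases h : i ∈ A <;> simp [h]
  simp only [he]
  refine ⟨fun i hC => ?_, fun i j hij hC hc => ?_, fun i j k hij hik hjk hC hc => ?_⟩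
  · rw [hC, sum_singleton] at hA
    by_cases h : i ∈ A
    · rw [if_pos h] at hA ⊢
      rcases zmod2_cases cc with h' | h'
      · rw [if_pos h']
      · exact absurd h'.symm hA
    · rw [if_neg h] at hA ⊢
      rcases zmod2_cases cc with h' | h'
      · exact absurd h'.symm hA
      · rw [if_neg (by rw [h']; exact one_ne_zero)]
        ring
  · rw [hC, sum_pair hij, hc] at hA
    by_cases h : i ∈ A <;> by_cases h' : j ∈ A <;> simp only [h, h', if_true, if_false] at hA ⊢
    · exact absurd (by decide) hA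
    · ring
    · ring
    · exact absurd (by decide) hA
  · rw [hC, sum_insert (by simp [hij, hik]), sum_pair hjk, hc] at hA
    by_cases h : i ∈ A <;> by_cases h' : j ∈ A <;> by_cases h'' : k ∈ A <;>
      simp only [h, h', h'', if_true, if_false] at hA ⊢
    · ring
    · exact absurd (by decide) hA
    · exact absurd (by decide) hA
    · ring
    · exact absurd (by decide) hA
    · ring
    · ring
    · exact absurd (by decide) hA

theorem toFinset_two {V : Type} [DecidableEq V] (i j : V) (A : Finset V) :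
    ([(i, decide (i ∉ A)), (j, decide (j ∉ A))] : List (V × Bool)).toFinset =
      forbid {i, j} A := by
  unfold forbid
  rw [image_insert, image_singleton, List.toFinset_cons, List.toFinset_cons,
    List.toFinset_nil]
  rfl

theorem toFinset_three {V : Type} [DecidableEq V] (i j k : V) (A : Finset V) :
    ([(i, decide (i ∉ A)), (j, decide (j ∉ A)), (k, decide (k ∉ A))] :
      List (V × Bool)).toFinset = forbid {i, j, k} A := by
  unfold forbid
  rw [image_insert, image_insert, image_singleton, List.toFinset_cons, List.toFinset_cons,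
    List.toFinset_cons, List.toFinset_nil]
  rfl

/-- The clauses of the Tseitin formula hold in the world. -/
theorem clauses_hold (h2 : (2 : K) ≠ 0) (hG : GoodSet L Gam) (v0 : Fin N)
    (c : Fin N → ZMod 2) (hL : 2 ≤ L) :
    ∀ D ∈ tseitin N c, ∃ l : List (TVar N × Bool), l.Nodup ∧ l.toFinset = D ∧
      ∀ f ∈ NN K Gam v0 c 0, l.foldr (fun b x => litOp (fun x => (2 : K)⁻¹ •
        (LinearMap.id - chi K v0 x)) b x) f = 0 := by
  intro D hD
  unfold tseitin at hD
  rw [mem_union, mem_union, mem_biUnion, mem_biUnion, mem_biUnion] at hD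
  rcases hD with (⟨v, -, hD⟩ | ⟨⟨v, u⟩, -, hD⟩) | ⟨v, -, hD⟩
  · obtain ⟨A, hA, rfl⟩ := mem_image.1 hD
    rw [mem_filter, mem_powerset] at hA
    refine ⟨[(Sum.inr (v, 0), decide (Sum.inr (v, 0) ∉ A))], List.nodup_singleton _, ?_,
      fun f hf => ?_⟩
    · rfl
    · refine kill_one h2 (chi K v0) (c := 1) (by ring) ?_ ?_
      · rw [one_smul]
        funext b
        rw [chi_apply, mvVar_first, add_zero, sig_self]
        push_cast
        ring
      · rw [(clause_list (K := K) hA.2 hA.1).1 _ rfl, if_pos rfl]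
  · obtain ⟨A, hA, rfl⟩ := mem_image.1 hD
    rw [mem_filter, mem_powerset] at hA
    simp only at hA ⊢
    have hne : (Sum.inr (v, u.castSucc) : TVar N) ≠ Sum.inr (v, u.succ) := by
      intro h
      have h1 := (Prod.mk.inj (Sum.inr.inj h)).2
      have h2 := congrArg Fin.val h1
      simp at h2
    have hsum := sum_mvVar_step v u
    by_cases h : v = u
    · have hS : stepSet v u = {Sum.inr (v, u.castSucc), Sum.inr (v, u.succ)} := by
        unfold stepSet
        rw [dif_pos h]
      rw [hS] at hA hsum ⊢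
      rw [sum_pair hne] at hsum
      refine ⟨[(Sum.inr (v, u.castSucc), decide (Sum.inr (v, u.castSucc) ∉ A)),
        (Sum.inr (v, u.succ), decide (Sum.inr (v, u.succ) ∉ A))], ?_, ?_, fun f hf => ?_⟩
      · rw [List.nodup_cons]
        refine ⟨?_, List.nodup_singleton _⟩
        rw [List.mem_singleton]
        intro h3
        exact hne (Prod.mk.inj h3).1
      · exact toFinset_two _ _ _
      · have hmv : mvVar (Sum.inr (v, u.castSucc) : TVar N) =
            mvVar (Sum.inr (v, u.succ) : TVar N) := by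
          have h3 := congrArg (fun m => m + mvVar (Sum.inr (v, u.succ) : TVar N)) hsum
          rwa [add_add_self, zero_add] at h3
        refine kill_two h2 (chi K v0) ?_ ?_ ((clause_list (K := K) hA.2 hA.1).2.1 _ _ hne rfl rfl)
        · funext b
          rw [chi_apply, chi_apply, hmv]
        · have h3 : chi K v0 (Sum.inr (v, u.castSucc)) = chi K v0 (Sum.inr (v, u.succ)) := by
            apply LinearMap.ext
            intro g
            funext b
            rw [chi_apply, chi_apply, hmv]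
          rw [h3]
          exact chi_chi_self v0 _ f
    · have hS : stepSet v u = {Sum.inr (v, u.castSucc), Sum.inr (v, u.succ),
          Sum.inl (mkEdge v u h)} := by
        unfold stepSet
        rw [dif_neg h]
      rw [hS] at hA hsum ⊢
      rw [sum_insert (by simp [hne]), sum_pair (by simp)] at hsum
      refine ⟨[(Sum.inr (v, u.castSucc), decide (Sum.inr (v, u.castSucc) ∉ A)),
        (Sum.inr (v, u.succ), decide (Sum.inr (v, u.succ) ∉ A)),
        (Sum.inl (mkEdge v u h), decide (Sum.inl (mkEdge v u h) ∉ A))], ?_, ?_, fun f hf => ?_⟩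
      · rw [List.nodup_cons, List.nodup_cons]
        refine ⟨?_, ?_, List.nodup_singleton _⟩
        · intro h3
          rcases List.mem_cons.1 h3 with h3 | h3
          · exact hne (Prod.mk.inj h3).1
          · rw [List.mem_singleton] at h3
            exact absurd (Prod.mk.inj h3).1 (by simp)
        · intro h3
          rw [List.mem_singleton] at h3
          exact absurd (Prod.mk.inj h3).1 (by simp)
      · exact toFinset_three _ _ _ _
      · obtain ⟨x, hx⟩ : ∃ x : TVar N, x = Sum.inr (v, u.castSucc) := ⟨_, rfl⟩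
        obtain ⟨y, hy⟩ : ∃ y : TVar N, y = Sum.inr (v, u.succ) := ⟨_, rfl⟩
        obtain ⟨z, hz⟩ : ∃ z : TVar N, z = Sum.inl (mkEdge v u h) := ⟨_, rfl⟩
        rw [← hx, ← hy, ← hz] at hsum
        have hxy : mvVar x + mvVar y = mvVar z := by
          have h3 := congrArg (fun m => m + mvVar z) hsum
          rw [zero_add, ← add_assoc, add_add_self] at h3
          exact h3
        have hxz : mvVar x + mvVar z = mvVar y := by
          rw [← hxy, ← add_assoc, cfg_add_self, zero_add]
        have hyz : mvVar y + mvVar z = mvVar x := by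
          rw [← hxy, add_comm (mvVar x), ← add_assoc, cfg_add_self, zero_add]
        have hk := (clause_list (K := K) hA.2 hA.1).2.2 x y z (by rw [hx, hy]; exact hne)
          (by rw [hx, hz]; simp) (by rw [hy, hz]; simp) (by rw [hx, hy, hz]) rfl
        rw [← hx, ← hy, ← hz]
        exact kill_three h2 (chi K v0) (chi_of_sum hG v0 c hL hxy f hf)
          (chi_of_sum hG v0 c hL hxz f hf) (chi_of_sum hG v0 c hL hyz f hf)
          (chi_chi_self v0 x f) hk
  · obtain ⟨A, hA, rfl⟩ := mem_image.1 hD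
    rw [mem_filter, mem_powerset] at hA
    refine ⟨[(Sum.inr (v, Fin.last N), decide (Sum.inr (v, Fin.last N) ∉ A))],
      List.nodup_singleton _, ?_, fun f hf => ?_⟩
    · rfl
    · refine kill_one h2 (chi K v0) (c := if c v = 0 then 1 else -1)
        (by split_ifs <;> ring) ?_ ?_
      · funext b
        rw [chi_apply, mvVar_last, Pi.smul_apply, smul_eq_mul, hf.2]
        by_cases hb : b ∈ Gf Gam 0
        · rw [sig_row v0 hG (Nbh_mono Gam (Nat.zero_le L) (mem_Gf.1 hb))]
          unfold kap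
          by_cases hv : v = v0
          · rw [if_pos hv, if_pos hv]
            push_cast
            ring
          · rw [if_neg hv, if_neg hv]
            push_cast
            ring
        · rw [hf.1 b hb]
          ring
      · exact (clause_list (K := K) hA.2 hA.1).1 _ rfl

/-- **The size of refutations of the Tseitin formula modulo 2**, in characteristic not 2. -/
theorem tseitin_killer [Fintype K] {p : ℕ} [CharP K p] (h2 : (2 : K) ≠ 0) (hG : GoodSet L Gam)
    (hcard : 2 ^ Fintype.card (Edge N) ≤ 4 * Gam.card) (v0 : Fin N)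
    (c : Fin N → ZMod 2) (hc : ∑ v, c v = 1) (hL : 2 ≤ L) {b d l : ℕ}
    {Λ : Fin l → Line (TVar N) p} (hl : 0 < l) (hd : ∀ i, ∀ φ ∈ Λ i, φ.depth ≤ d)
    (hsize : (size Λ : ℝ) ≤ Real.exp (((L : ℝ) / (b + 3 + 7)) ^ ((1 : ℝ) / (d + 1)) /
      (8 * 4 * Fintype.card K) - 2)) :
    ∃ (hp : Choice (TVar N) K) (Z : Submodule K ((TVar N → Bool) → K)) (τ : ℕ → ℕ) (r : ℕ),
      Setting (Pd K (TVar N)) Z τ b d 3 r hp ∧
        Correct (tseitin N c : Set (Clause (TVar N))) Z hp d 3 Λ ∧ 1 ∉ Z := by
  classical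
  have hGam : Gam.Nonempty := by
    rw [← card_pos]
    have : 0 < 2 ^ Fintype.card (Edge N) := Nat.two_pow_pos _
    omega
  have hG0 : (Gf Gam 0).Nonempty := by
    obtain ⟨a, ha⟩ := hGam
    exact ⟨a, mem_Gf.2 (subset_Nbh Gam a ha)⟩
  have hcard0 : Gam.card ≤ (Gf Gam 0).card := card_le_card fun a ha =>
    mem_Gf.2 (subset_Nbh Gam a ha)
  have hgrow : Module.finrank K (NN K Gam v0 c L) ≤ 4 * Module.finrank K (NN K Gam v0 c 0) := by
    refine finrank_covSpace_le v0 (kap K v0 c) (kap_sq v0 c) (prod_kap v0 c hc) _ _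
      (fun b v hb => Gf_gauge 0 b v hb) (fun b v hb => Gf_gauge L b v hb) 4 ?_
    have h1 : (Gf Gam L).card ≤ 2 ^ Fintype.card (Edge N) := by
      rw [← card_cfg]
      exact card_le_univ _
    omega
  have key := frame_killer (isFrame_world h2 hG v0 c) (C := 4) (by norm_num)
    (finrank_covSpace_pos v0 (kap K v0 c) (kap_sq v0 c) (prod_kap v0 c hc) _
      (fun b v hb => Gf_gauge 0 b v hb) hG0) (by exact_mod_cast hgrow)
    (F := (tseitin N c : Set (Clause (TVar N)))) (b := b) (w := 3)
    (fun D hD => tseitin_width N c D hD) (fun D hD => clauses_hold h2 hG v0 c hL D hD)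
    (d := d) (L := Λ) hl hd (by exact_mod_cast hsize)
  exact key

/-- **Refutations of the Tseitin formula modulo 2**, in characteristic not 2. -/
theorem tseitin_size [Fintype K] {p : ℕ} [CharP K p] (h2 : (2 : K) ≠ 0) (hG : GoodSet L Gam)
    (hcard : 2 ^ Fintype.card (Edge N) ≤ 4 * Gam.card) (v0 : Fin N)
    (c : Fin N → ZMod 2) (hc : ∑ v, c v = 1) (hL : 2 ≤ L) {b d l : ℕ}
    {Λ : Fin l → Line (TVar N) p}
    (hΛ : IsRefutation b (tseitin N c : Set (Clause (TVar N))) d Λ) :
    Real.exp (((L : ℝ) / (b + 3 + 7)) ^ ((1 : ℝ) / (d + 1)) / (8 * 4 * Fintype.card K) - 2) <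
      size Λ := by
  by_contra hsize
  push Not at hsize
  obtain ⟨i, hi⟩ := hΛ.2.2
  obtain ⟨hp, Z, τ, r, h1, h3, h4⟩ := tseitin_killer h2 hG hcard v0 c hc hL (b := b) i.pos
    hΛ.2.1 hsize
  exact h4 (one_mem_Z h1 hΛ h3)

/-- **Proofs of the tautology 'some clause of the Tseitin formula is false'**, in characteristic
not 2. -/
theorem tseitin_size_proof [Fintype K] {p : ℕ} [CharP K p] (h2 : (2 : K) ≠ 0)
    (hG : GoodSet L Gam) (hcard : 2 ^ Fintype.card (Edge N) ≤ 4 * Gam.card) (v0 : Fin N)
    (c : Fin N → ZMod 2) (hc : ∑ v, c v = 1) (hL : 2 ≤ L) {b d l : ℕ}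
    {Λ : Fin l → Line (TVar N) p} (hΛ : IsProof b d Λ (falsified (tseitin N c))) :
    Real.exp (((L : ℝ) / (b + 3 + 7)) ^ ((1 : ℝ) / (d + 1)) / (8 * 4 * Fintype.card K) - 2) <
      size Λ := by
  by_contra hsize
  push Not at hsize
  obtain ⟨i, hi⟩ := hΛ.2.2
  obtain ⟨hp, Z, τ, r, h1, h3, h4⟩ := tseitin_killer h2 hG hcard v0 c hc hL (b := b) i.pos
    hΛ.2.1 hsize
  exact h4 (one_mem_Z_proof h1 hΛ h3)

end world

end Pool.Agent.MP_9cec2c_lc.AZ
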