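import Mathlib

set_option autoImplicit false

/-!
Constant depth circuits with unbounded fan-in AND, OR and MOD gates (bounded depth being a hypothesis
where the circuits are used).
-/

namespace Pool.Agent.Lib.MP_9cec2c_lc

/-- The three kinds of gates. -/
inductive GateKind
  | and
  | or
  | mod

/-- The Boolean function computed by a gate of unbounded fan-in `ℓ`; a `mod` gate outputs `true`
exactly when the number of its true inputs is divisible by `p`. -/
def GateKind.eval (p : ℕ) {ℓ : ℕ} (k : GateKind) (b : Fin ℓ → Bool) : Bool :=
  match k with
  | .and => decide (∀ i, b i = true)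
  | .or => decide (∃ i, b i = true)
  | .mod => decide (p ∣ (Finset.univ.filter (fun i => b i = true)).card)

/-- A Boolean circuit with `S` gates of unbounded fan-in over the input variables `ι`.  Gate `g` has
`arity g` incoming wires; a wire comes from an input variable or from an earlier gate and carries a
flag saying whether its value is negated (negations are free). The output is also such a wire. -/
structure Circuit (ι : Type) (S : ℕ) where
  /-- the kind of each gate -/
  kind : Fin S → GateKind
  /-- the fan-in of each gate -/
  arity : Fin S → ℕ
  /-- the incoming wires of each gate: source and negation flag -/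
  wire : (g : Fin S) → Fin (arity g) → (ι ⊕ Fin g.val) × Bool
  /-- the output wire -/
  out : (ι ⊕ Fin S) × Bool

namespace Circuit

variable {ι : Type} {S : ℕ}

/-- The value of gate `g` on input `x`. -/
def val (p : ℕ) (C : Circuit ι S) (x : ι → Bool) (g : Fin S) : Bool :=
  (C.kind g).eval p fun i => xor (C.wire g i).2
    (match (C.wire g i).1 with
    | .inl j => x j
    | .inr h => C.val p x ⟨h.val, h.isLt.trans g.isLt⟩)
termination_by g.val
decreasing_by exact h.isLt

/-- The value computed by the circuit on input `x`. -/
def eval (p : ℕ) (C : Circuit ι S) (x : ι → Bool) : Bool :=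
  xor C.out.2
    (match C.out.1 with
    | .inl j => x j
    | .inr g => C.val p x g)

/-- The depth of gate `g`: the largest number of gates on a path ending in `g`. -/
def depthAt (C : Circuit ι S) (g : Fin S) : ℕ :=
  (Finset.univ.sup fun i =>
    (match (C.wire g i).1 with
    | .inl _ => 0
    | .inr h => C.depthAt ⟨h.val, h.isLt.trans g.isLt⟩)) + 1
termination_by g.val
decreasing_by exact h.isLt

/-- The depth of the circuit. -/
def depth (C : Circuit ι S) : ℕ :=
  match C.out.1 with
  | .inl _ => 0
  | .inr g => C.depthAt g

end Circuit

end Pool.Agent.Lib.MP_9cec2c_lc
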