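import Mathlib

set_option autoImplicit false
set_option linter.unusedSectionVars false
set_option linter.unusedSimpArgs false

/-!
Low degree functions on the Boolean cube over a field, the weak degree lemma for counting modulo `q`,
and a separating polynomial lemma.
-/

namespace Pool.Agent.Lib.MP_9cec2c_lc

open Finset

section Basic

variable {ι : Type} [Fintype ι] [DecidableEq ι] {F : Type} [Field F]

/-- The indicator value of a Boolean in the field. -/
def ind (b : Bool) : F := if b then 1 else 0

/-- The monomial function of a set of coordinates. -/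
def mono (T : Finset ι) : (ι → Bool) → F := fun x => ∏ i ∈ T, (ind (x i) : F)

variable (F) in
/-- Functions on the cube of degree at most `t`. -/
def LowDeg (ι : Type) [Fintype ι] [DecidableEq ι] (t : ℕ) : Submodule F ((ι → Bool) → F) :=
  Submodule.span F {f | ∃ T : Finset ι, T.card ≤ t ∧ f = mono T}

lemma mono_apply (T : Finset ι) (x : ι → Bool) :
    (mono T x : F) = if ∀ i ∈ T, x i = true then 1 else 0 := by
  unfold mono ind
  rw [Finset.prod_ite_zero]
  simp

lemma mono_mul (T U : Finset ι) : (mono T * mono U : (ι → Bool) → F) = mono (T ∪ U) := by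
  funext x
  simp only [Pi.mul_apply, mono_apply]
  by_cases h1 : ∀ i ∈ T, x i = true <;> by_cases h2 : ∀ i ∈ U, x i = true
  · have h3 : ∀ i ∈ T ∪ U, x i = true := by
      intro i hi
      rcases Finset.mem_union.mp hi with h | h
      · exact h1 i h
      · exact h2 i h
    rw [if_pos h1, if_pos h2, if_pos h3, one_mul]
  · have h3 : ¬ ∀ i ∈ T ∪ U, x i = true := fun h => h2 fun i hi => h i (Finset.mem_union_right _ hi)
    rw [if_neg h2, if_neg h3, mul_zero]
  · have h3 : ¬ ∀ i ∈ T ∪ U, x i = true := fun h => h1 fun i hi => h i (Finset.mem_union_left _ hi)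
    rw [if_neg h1, if_neg h3, zero_mul]
  · have h3 : ¬ ∀ i ∈ T ∪ U, x i = true := fun h => h1 fun i hi => h i (Finset.mem_union_left _ hi)
    rw [if_neg h1, if_neg h3, zero_mul]

lemma mono_mem (T : Finset ι) {t : ℕ} (h : T.card ≤ t) : (mono T : (ι → Bool) → F) ∈ LowDeg F ι t :=
  Submodule.subset_span ⟨T, h, rfl⟩

lemma lowDeg_mono {s t : ℕ} (h : s ≤ t) : LowDeg F ι s ≤ LowDeg F ι t := by
  apply Submodule.span_mono
  rintro f ⟨T, hT, rfl⟩
  exact ⟨T, hT.trans h, rfl⟩

lemma one_mem_lowDeg (t : ℕ) : (1 : (ι → Bool) → F) ∈ LowDeg F ι t := by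
  have h : (mono ∅ : (ι → Bool) → F) ∈ LowDeg F ι t := mono_mem ∅ (by simp)
  have e : (mono ∅ : (ι → Bool) → F) = 1 := by
    funext x
    simp [mono]
  rwa [e] at h

lemma const_mem_lowDeg (t : ℕ) (c : F) : (fun _ => c : (ι → Bool) → F) ∈ LowDeg F ι t := by
  have h := (LowDeg F ι t).smul_mem c (one_mem_lowDeg t)
  have e : (c • (1 : (ι → Bool) → F)) = fun _ => c := by
    funext x
    simp
  rwa [e] at h

lemma mul_mem_lowDeg {s t : ℕ} {f g : (ι → Bool) → F} (hf : f ∈ LowDeg F ι s)
    (hg : g ∈ LowDeg F ι t) : f * g ∈ LowDeg F ι (s + t) := by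
  unfold LowDeg at hf
  induction hf using Submodule.span_induction with
  | mem f hf =>
    obtain ⟨T, hT, rfl⟩ := hf
    unfold LowDeg at hg
    induction hg using Submodule.span_induction with
    | mem g hg =>
      obtain ⟨U, hU, rfl⟩ := hg
      rw [mono_mul]
      exact mono_mem _ ((Finset.card_union_le _ _).trans (Nat.add_le_add hT hU))
    | zero => rw [mul_zero]; exact zero_mem _
    | add x y _ _ hx hy => rw [mul_add]; exact add_mem hx hy
    | smul a x _ hx => rw [mul_smul_comm]; exact Submodule.smul_mem _ _ hx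
  | zero => rw [zero_mul]; exact zero_mem _
  | add x y _ _ hx hy => rw [add_mul]; exact add_mem hx hy
  | smul a x _ hx => rw [smul_mul_assoc]; exact Submodule.smul_mem _ _ hx

lemma prod_mem_lowDeg {κ : Type} (s : Finset κ) (f : κ → (ι → Bool) → F) (a : ℕ)
    (hf : ∀ j ∈ s, f j ∈ LowDeg F ι a) : (∏ j ∈ s, f j) ∈ LowDeg F ι (s.card * a) := by
  classical
  induction s using Finset.induction_on with
  | empty => simpa using one_mem_lowDeg 0
  | insert j s hj ih =>
    rw [Finset.prod_insert hj, Finset.card_insert_of_notMem hj]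
    have h1 := hf j (Finset.mem_insert_self _ _)
    have h2 := ih fun k hk => hf k (Finset.mem_insert_of_mem hk)
    have h3 := mul_mem_lowDeg h1 h2
    have e : a + s.card * a = (s.card + 1) * a := by ring
    rwa [e] at h3

lemma pow_mem_lowDeg (f : (ι → Bool) → F) (a n : ℕ) (hf : f ∈ LowDeg F ι a) :
    f ^ n ∈ LowDeg F ι (n * a) := by
  have h := prod_mem_lowDeg (Finset.range n) (fun _ => f) a (fun _ _ => hf)
  simpa using h

lemma sum_mem_lowDeg {κ : Type} (s : Finset κ) (f : κ → (ι → Bool) → F) (a : ℕ)
    (hf : ∀ j ∈ s, f j ∈ LowDeg F ι a) : (∑ j ∈ s, f j) ∈ LowDeg F ι a :=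
  Submodule.sum_mem _ hf

/-- Any function of a single coordinate has degree at most one. -/
lemma coord_mem_lowDeg (i : ι) (g : Bool → F) : (fun x : ι → Bool => g (x i)) ∈ LowDeg F ι 1 := by
  have h1 : (mono {i} : (ι → Bool) → F) ∈ LowDeg F ι 1 := mono_mem {i} (by simp)
  have h2 := (LowDeg F ι 1).smul_mem (g true - g false) h1
  have h3 := add_mem (const_mem_lowDeg (ι := ι) 1 (g false)) h2
  have e : ((fun _ => g false) + (g true - g false) • (mono {i} : (ι → Bool) → F)) =
      fun x : ι → Bool => g (x i) := by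
    funext x
    simp only [Pi.add_apply, Pi.smul_apply, smul_eq_mul, mono, Finset.prod_singleton, ind]
    cases x i <;> simp
  rwa [e] at h3

end Basic

section Functional

variable {ι : Type} [Fintype ι] [DecidableEq ι] {F : Type} [Field F]

/-- Signed sum over the cube: reads off the top coefficient up to sign. -/
def topFun (f : (ι → Bool) → F) : F := ∑ x : ι → Bool, (∏ i, (if x i then (-1 : F) else 1)) * f x

lemma topFun_add (f g : (ι → Bool) → F) : topFun (f + g) = topFun f + topFun g := by
  unfold topFun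
  rw [← Finset.sum_add_distrib]
  exact Finset.sum_congr rfl fun x _ => by rw [Pi.add_apply, mul_add]

lemma topFun_smul (c : F) (f : (ι → Bool) → F) : topFun (c • f) = c * topFun f := by
  unfold topFun
  rw [Finset.mul_sum]
  exact Finset.sum_congr rfl fun x _ => by rw [Pi.smul_apply, smul_eq_mul]; ring

lemma topFun_mono (T : Finset ι) (hT : T.card < Fintype.card ι) :
    topFun (mono T : (ι → Bool) → F) = 0 := by
  unfold topFun
  have e : ∀ x : ι → Bool, (∏ i, (if x i then (-1 : F) else 1)) * mono T x =
      ∏ i, ((if x i then (-1 : F) else 1) * (if i ∈ T then ind (x i) else 1)) := by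
    intro x
    rw [Finset.prod_mul_distrib]
    congr 1
    unfold mono
    rw [Finset.prod_ite_mem, Finset.univ_inter]
  rw [Finset.sum_congr rfl fun x _ => e x]
  have e2 : (∑ x : ι → Bool, ∏ i, ((if x i then (-1 : F) else 1) * (if i ∈ T then ind (x i) else 1)))
      = ∏ i : ι, ∑ b : Bool, ((if b then (-1 : F) else 1) * (if i ∈ T then ind b else 1)) := by
    rw [Finset.prod_univ_sum, Fintype.piFinset_univ]
  rw [e2]
  obtain ⟨i, hi⟩ : ∃ i, i ∉ T := by
    by_contra h
    push Not at h
    have : T = Finset.univ := Finset.eq_univ_of_forall h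
    rw [this, Finset.card_univ] at hT
    exact lt_irrefl _ hT
  apply Finset.prod_eq_zero (Finset.mem_univ i)
  simp [hi]

lemma topFun_lowDeg {t : ℕ} (ht : t < Fintype.card ι) {f : (ι → Bool) → F}
    (hf : f ∈ LowDeg F ι t) : topFun f = 0 := by
  unfold LowDeg at hf
  induction hf using Submodule.span_induction with
  | mem f hf =>
    obtain ⟨T, hT, rfl⟩ := hf
    exact topFun_mono T (lt_of_le_of_lt hT ht)
  | zero => simp [topFun]
  | add x y _ _ hx hy => rw [topFun_add, hx, hy, add_zero]
  | smul a x _ hx => rw [topFun_smul, hx, mul_zero]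

/-- number of ones -/
def ones (x : ι → Bool) : ℕ := ∑ i, (x i).toNat

/-- **Weak degree lemma.**  A nonzero function supported on points whose number of ones is divisible
by `q`, where the field has a `q`-th root of unity different from one, has degree at least half the
dimension. -/
theorem weak_degree (q : ℕ) (ω : F) (hω : ω ^ q = 1) (hω1 : ω ≠ 1) {s : ℕ}
    {Q : (ι → Bool) → F} (hQ : Q ∈ LowDeg F ι s)
    (hsupp : ∀ x, Q x ≠ 0 → q ∣ ones x) (hne : ∃ x, Q x ≠ 0) :
    Fintype.card ι ≤ s + Fintype.card ι / 2 := by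
  by_contra hcon
  push Not at hcon
  have hq : q ≠ 0 ∨ q = 0 := by omega
  obtain ⟨v, hv⟩ := hne
  have hω0 : ω ≠ 0 ∨ q = 0 := by
    rcases hq with h | h
    · left
      rintro rfl
      rw [zero_pow h] at hω
      exact zero_ne_one hω
    · right; exact h
  -- treat the degenerate case q = 0 separately: support is the zero point only
  set N := Fintype.card ι with hN
  -- the characters
  have hsub : ω - 1 ≠ 0 := sub_ne_zero.mpr hω1
  by_cases hz : ω = 0
  · -- then q = 0
    have hq0 : q = 0 := by
      rcases hω0 with h | h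
      · exact absurd hz h
      · exact h
    -- support is contained in {0}
    have hs0 : ∀ x, Q x ≠ 0 → x = fun _ => false := by
      intro x hx
      have := hsupp x hx
      rw [hq0, zero_dvd_iff] at this
      unfold ones at this
      funext i
      have h2 := (Finset.sum_eq_zero_iff.mp this) i (Finset.mem_univ i)
      cases hxi : x i
      · rfl
      · rw [hxi] at h2; simp at h2
    have hvz := hs0 v hv
    have ht : topFun Q = 0 := topFun_lowDeg (by omega) hQ
    unfold topFun at ht
    rw [Finset.sum_eq_single v] at ht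
    · rw [hvz] at ht hv
      simp at ht
      exact hv ht
    · intro b _ hb
      by_cases hQb : Q b = 0
      · rw [hQb, mul_zero]
      · exact absurd ((hs0 b hQb).trans hvz.symm) hb
    · intro h
      exact absurd (Finset.mem_univ v) h
  -- main case
  let y : ι → (ι → Bool) → F := fun i x => if x i then ω else 1
  let yinv : ι → (ι → Bool) → F := fun i x => if x i then ω⁻¹ else 1
  have hy : ∀ i, y i ∈ LowDeg F ι 1 := fun i => coord_mem_lowDeg i (fun b => if b then ω else 1)
  have hyinv : ∀ i, yinv i ∈ LowDeg F ι 1 := fun i => coord_mem_lowDeg i (fun b => if b then ω⁻¹ else 1)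
  have hyy : ∀ i, y i * yinv i = 1 := by
    intro i
    funext x
    simp only [Pi.mul_apply, y, yinv, Pi.one_apply]
    cases x i <;> simp [hz]
  have hprod : ∀ x, (∏ i, y i) x = ω ^ (ones x) := by
    intro x
    rw [Finset.prod_apply]
    unfold ones
    rw [← Finset.prod_pow_eq_pow_sum]
    apply Finset.prod_congr rfl
    intro i _
    simp only [y]
    cases x i <;> simp
  have hQprod : Q * ∏ i, y i = Q := by
    funext x
    rw [Pi.mul_apply, hprod]
    by_cases hx : Q x = 0
    · rw [hx, zero_mul]
    · obtain ⟨m, hm⟩ := hsupp x hx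
      rw [hm, pow_mul, hω, one_pow, mul_one]
  have hQT : ∀ T : Finset ι, Q * ∏ i ∈ T, y i ∈ LowDeg F ι (s + N / 2) := by
    intro T
    by_cases hT : T.card ≤ N / 2
    · have h1 := prod_mem_lowDeg T y 1 (fun i _ => hy i)
      have h2 := mul_mem_lowDeg hQ h1
      exact lowDeg_mono (by omega) h2
    · have hc : Tᶜ.card ≤ N / 2 := by
        rw [Finset.card_compl]
        omega
      have e : Q * ∏ i ∈ T, y i = Q * ∏ i ∈ Tᶜ, yinv i := by
        have h1 : (∏ i, y i) = (∏ i ∈ T, y i) * ∏ i ∈ Tᶜ, y i := (Finset.prod_mul_prod_compl T y).symm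
        have h2 : (∏ i ∈ Tᶜ, y i) * (∏ i ∈ Tᶜ, yinv i) = 1 := by
          rw [← Finset.prod_mul_distrib]
          exact Finset.prod_eq_one fun i _ => hyy i
        calc Q * ∏ i ∈ T, y i = Q * (∏ i ∈ T, y i) * ((∏ i ∈ Tᶜ, y i) * (∏ i ∈ Tᶜ, yinv i)) := by
              rw [h2, mul_one]
          _ = (Q * ((∏ i ∈ T, y i) * ∏ i ∈ Tᶜ, y i)) * (∏ i ∈ Tᶜ, yinv i) := by ring
          _ = Q * ∏ i ∈ Tᶜ, yinv i := by rw [← h1, hQprod]
      rw [e]
      have h1 := prod_mem_lowDeg Tᶜ yinv 1 (fun i _ => hyinv i)
      have h2 := mul_mem_lowDeg hQ h1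
      exact lowDeg_mono (by omega) h2
  -- delta function at v
  let δ : (ι → Bool) → F := fun x => if x = v then 1 else 0
  let a : ι → F := fun i => if v i then 1 / (ω - 1) else -1 / (ω - 1)
  let b : ι → F := fun i => if v i then -1 / (ω - 1) else ω / (ω - 1)
  have hδ : δ = ∑ T ∈ (Finset.univ : Finset ι).powerset,
      ((∏ i ∈ T, a i) * ∏ i ∈ Finset.univ \ T, b i) • ∏ i ∈ T, y i := by
    have h1 : δ = ∏ i, (fun x : ι → Bool => a i * y i x + b i) := by
      funext x
      rw [Finset.prod_apply]
      have h2 : ∀ i, a i * y i x + b i = if x i = v i then 1 else 0 := by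
        intro i
        simp only [a, b, y]
        cases x i <;> cases v i <;> simp <;> field_simp <;> ring
      rw [Finset.prod_congr rfl fun i _ => h2 i]
      simp only [δ]
      rw [Finset.prod_ite_zero]
      simp only [Finset.mem_univ, true_implies, Finset.prod_const_one]
      by_cases hxv : x = v
      · subst hxv
        simp
      · rw [if_neg hxv, if_neg]
        intro h
        exact hxv (funext h)
    rw [h1]
    have h3 : ∀ i, (fun x : ι → Bool => a i * y i x + b i) = a i • y i + (fun _ => b i) := by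
      intro i
      funext x
      simp
    rw [Finset.prod_congr rfl fun i _ => h3 i, Finset.prod_add]
    apply Finset.sum_congr rfl
    intro T _
    funext x
    simp only [Pi.mul_apply, Finset.prod_apply, Pi.smul_apply, smul_eq_mul]
    rw [Finset.prod_mul_distrib]
    ring
  have hQδ : Q * δ ∈ LowDeg F ι (s + N / 2) := by
    rw [hδ, Finset.mul_sum]
    apply Submodule.sum_mem
    intro T _
    rw [mul_smul_comm]
    exact Submodule.smul_mem _ _ (hQT T)
  have ht := topFun_lowDeg hcon hQδ
  unfold topFun at ht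
  rw [Finset.sum_eq_single v] at ht
  · simp only [Pi.mul_apply, δ, if_true, mul_one] at ht
    rcases mul_eq_zero.mp ht with h | h
    · rw [Finset.prod_eq_zero_iff] at h
      obtain ⟨i, _, hi⟩ := h
      revert hi
      cases v i <;> simp
    · exact hv h
  · intro c _ hc
    simp [δ, hc]
  · intro h
    exact absurd (Finset.mem_univ v) h

end Functional

end Pool.Agent.Lib.MP_9cec2c_lc
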