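import Mathlib
import Pool.Agent.Lib.MP_9cec2c_lc.CubePoly
import Pool.Agent.Lib.MP_9cec2c_lc.Circuit

set_option autoImplicit false
set_option linter.unusedSectionVars false
set_option linter.unusedSimpArgs false
set_option linter.unusedVariables false

/-!
Razborov-Smolensky approximation of circuits with AND, OR and MOD `p` gates by low degree functions in
characteristic `p`.
-/

namespace Pool.Agent.Lib.MP_9cec2c_lc

open Finset

section Gate

variable {F : Type} [Field F]

/-- approximating value of a gate with seeds `r` -/
def gateApprox (p : ℕ) {κ ℓ : ℕ} (k : GateKind) (u : Fin ℓ → F) (r : Fin κ → Fin ℓ → Bool) : F :=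
  match k with
  | .and => ∏ j, (1 - (∑ i, ind (r j i) * (1 - u i)) ^ (p - 1))
  | .or => 1 - ∏ j, (1 - (∑ i, ind (r j i) * u i) ^ (p - 1))
  | .mod => 1 - (∑ i, u i) ^ (p - 1)

lemma natCast_pow_pred (p : ℕ) [hp : Fact p.Prime] [CharP F p] (n : ℕ) :
    ((n : F)) ^ (p - 1) = if p ∣ n then 0 else 1 := by
  have hp1 : p - 1 ≠ 0 := by
    have := hp.out.two_le
    omega
  by_cases h : p ∣ n
  · rw [if_pos h, (CharP.cast_eq_zero_iff F p n).mpr h, zero_pow hp1]
  · rw [if_neg h]
    have h1 : ((n : ZMod p)) ≠ 0 := by
      rw [Ne, ZMod.natCast_eq_zero_iff]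
      exact h
    have h2 := ZMod.pow_card_sub_one_eq_one h1
    have h3 := congrArg (ZMod.castHom (dvd_refl p) F) h2
    rw [map_pow, map_one] at h3
    simpa using h3

lemma sum_ind_eq_card {ℓ : ℕ} (b : Fin ℓ → Bool) :
    (∑ i, (ind (b i) : F)) = ((univ.filter (fun i => b i = true)).card : F) := by
  unfold ind
  rw [Finset.sum_boole]

lemma ind_mul_ind (a b : Bool) : (ind a * ind b : F) = ind (a && b) := by
  cases a <;> cases b <;> simp [ind]

lemma one_sub_ind (a : Bool) : (1 - ind a : F) = ind (!a) := by
  cases a <;> simp [ind]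

/-- number of random subsets for which the restricted count is divisible by `p` -/
lemma half_count (p : ℕ) (hp : 2 ≤ p) {ℓ : ℕ} (b : Fin ℓ → Bool) (hb : ∃ i, b i = true) :
    2 * (univ.filter (fun r : Fin ℓ → Bool =>
      p ∣ (univ.filter (fun i => (r i && b i) = true)).card)).card ≤ 2 ^ ℓ := by
  obtain ⟨i0, hi0⟩ := hb
  set D := univ.filter (fun r : Fin ℓ → Bool =>
      p ∣ (univ.filter (fun i => (r i && b i) = true)).card) with hD
  have hinj : D.card ≤ Dᶜ.card := by
    apply Finset.card_le_card_of_injOn (fun r => Function.update r i0 (!(r i0)))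
    · intro r hr
      rw [Finset.mem_coe, hD, Finset.mem_filter] at hr
      rw [Finset.mem_coe, Finset.mem_compl, hD, Finset.mem_filter]
      rintro ⟨_, h2⟩
      have h1 := hr.2
      -- the counts differ by one
      have hsplit : ∀ s : Fin ℓ → Bool, (univ.filter (fun i => (s i && b i) = true)).card =
          (if s i0 then 1 else 0) + ((univ.erase i0).filter (fun i => (s i && b i) = true)).card := by
        intro s
        rw [← Finset.insert_erase (Finset.mem_univ i0), Finset.filter_insert]
        simp only [hi0, Bool.and_true, Finset.erase_insert_eq_erase, Finset.erase_idem]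
        by_cases hs : s i0 = true
        · rw [if_pos hs, if_pos hs, Finset.card_insert_of_notMem]
          · ring
          · simp
        · rw [if_neg hs, if_neg hs, zero_add]
      rw [hsplit] at h1 h2
      have hsame : ((univ.erase i0).filter
          (fun i => ((Function.update r i0 (!(r i0))) i && b i) = true)).card =
          ((univ.erase i0).filter (fun i => (r i && b i) = true)).card := by
        congr 1
        apply Finset.filter_congr
        intro i hi
        rw [Function.update_of_ne (Finset.ne_of_mem_erase hi)]
      rw [hsame] at h2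
      simp only [Function.update_self] at h2
      rcases Bool.eq_false_or_eq_true (r i0) with h | h
      · rw [h] at h1 h2
        simp only [if_true, Bool.not_true, Bool.false_eq_true, if_false, zero_add] at h1 h2
        have h3 := (Nat.dvd_sub h1 h2)
        have h4 : 1 + ((univ.erase i0).filter (fun i => (r i && b i) = true)).card -
          ((univ.erase i0).filter (fun i => (r i && b i) = true)).card = 1 := by omega
        rw [h4, Nat.dvd_one] at h3
        omega
      · rw [h] at h1 h2
        simp only [if_true, Bool.not_false, Bool.false_eq_true, if_false, zero_add] at h1 h2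
        have h3 := (Nat.dvd_sub h2 h1)
        have h4 : 1 + ((univ.erase i0).filter (fun i => (r i && b i) = true)).card -
          ((univ.erase i0).filter (fun i => (r i && b i) = true)).card = 1 := by omega
        rw [h4, Nat.dvd_one] at h3
        omega
    · intro r _ s _ hrs
      simp only at hrs
      funext i
      by_cases hi : i = i0
      · subst hi
        have := congrFun hrs i
        rw [Function.update_self, Function.update_self] at this
        exact Bool.not_inj this
      · have := congrFun hrs i
        rwa [Function.update_of_ne hi, Function.update_of_ne hi] at this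
  have htot := Finset.card_add_card_compl D
  rw [Fintype.card_fun, Fintype.card_bool, Fintype.card_fin] at htot
  omega

lemma rows_count (p : ℕ) (hp : 2 ≤ p) {κ ℓ : ℕ} (b : Fin ℓ → Bool) (hb : ∃ i, b i = true) :
    (univ.filter (fun r : Fin κ → Fin ℓ → Bool =>
      ∀ j, p ∣ (univ.filter (fun i => (r j i && b i) = true)).card)).card * 2 ^ κ ≤
      Fintype.card (Fin κ → Fin ℓ → Bool) := by
  have e : univ.filter (fun r : Fin κ → Fin ℓ → Bool =>
      ∀ j, p ∣ (univ.filter (fun i => (r j i && b i) = true)).card) =
      Fintype.piFinset (fun _ => univ.filter (fun r : Fin ℓ → Bool =>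
      p ∣ (univ.filter (fun i => (r i && b i) = true)).card)) := by
    ext r
    rw [Finset.mem_filter, Fintype.mem_piFinset]
    simp
  rw [e, Fintype.card_piFinset_const, ← Nat.mul_pow, Fintype.card_fun, Fintype.card_fun,
    Fintype.card_bool, Fintype.card_fin, Fintype.card_fin]
  apply Nat.pow_le_pow_left
  rw [mul_comm]
  exact half_count p hp b hb

open Classical in
/-- For every fixed Boolean input of the gate, few seeds are bad. -/
lemma gate_bad (p : ℕ) [hp : Fact p.Prime] [CharP F p] {κ ℓ : ℕ} (k : GateKind) (b : Fin ℓ → Bool) :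
    (univ.filter (fun r : Fin κ → Fin ℓ → Bool =>
      gateApprox p k (fun i => (ind (b i) : F)) r ≠ ind (k.eval p b))).card * 2 ^ κ ≤
      Fintype.card (Fin κ → Fin ℓ → Bool) := by
  have hp2 := hp.out.two_le
  have hp1 : p - 1 ≠ 0 := by omega
  cases k with
  | and =>
    by_cases hb : ∃ i, (!(b i)) = true
    · refine le_trans ?_ (rows_count p hp2 (κ := κ) (fun i => !(b i)) hb)
      apply Nat.mul_le_mul_right
      apply Finset.card_le_card
      intro r hr
      rw [Finset.mem_filter] at hr ⊢
      refine ⟨Finset.mem_univ _, ?_⟩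
      intro j
      by_contra hj
      apply hr.2
      have hev : (GateKind.and).eval p b = false := by
        simp only [GateKind.eval, decide_eq_false_iff_not, not_forall]
        obtain ⟨i, hi⟩ := hb
        exact ⟨i, by cases hbi : b i <;> simp_all⟩
      rw [hev]
      simp only [gateApprox, ind, Bool.false_eq_true, if_false]
      apply Finset.prod_eq_zero (Finset.mem_univ j)
      have h1 : ∀ i, ((if r j i = true then (1 : F) else 0) * (1 - if b i = true then 1 else 0)) =
          ind (r j i && !(b i)) := by
        intro i
        cases r j i <;> cases b i <;> simp [ind]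
      rw [Finset.sum_congr rfl fun i _ => h1 i, sum_ind_eq_card, natCast_pow_pred, if_neg hj, sub_self]
    · push Not at hb
      have hb' : ∀ i, b i = true := by
        intro i
        have := hb i
        cases hbi : b i <;> simp_all
      have e : univ.filter (fun r : Fin κ → Fin ℓ → Bool =>
        gateApprox p GateKind.and (fun i => (ind (b i) : F)) r ≠ ind ((GateKind.and).eval p b)) = ∅ := by
        apply Finset.filter_eq_empty_iff.mpr
        intro r _
        rw [not_not]
        simp [gateApprox, ind, GateKind.eval, hb', hp1]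
      rw [e, Finset.card_empty, zero_mul]
      exact Nat.zero_le _
  | or =>
    by_cases hb : ∃ i, b i = true
    · refine le_trans ?_ (rows_count p hp2 (κ := κ) b hb)
      apply Nat.mul_le_mul_right
      apply Finset.card_le_card
      intro r hr
      rw [Finset.mem_filter] at hr ⊢
      refine ⟨Finset.mem_univ _, ?_⟩
      intro j
      by_contra hj
      apply hr.2
      have hev : (GateKind.or).eval p b = true := by
        simp only [GateKind.eval, decide_eq_true_eq]
        exact hb
      rw [hev]
      simp only [gateApprox, ind, if_true]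
      rw [sub_eq_self]
      apply Finset.prod_eq_zero (Finset.mem_univ j)
      have h1 : ∀ i, ((if r j i = true then (1 : F) else 0) * (if b i = true then 1 else 0)) =
          ind (r j i && (b i)) := by
        intro i
        cases r j i <;> cases b i <;> simp [ind]
      rw [Finset.sum_congr rfl fun i _ => h1 i, sum_ind_eq_card, natCast_pow_pred, if_neg hj, sub_self]
    · push Not at hb
      have hb' : ∀ i, b i = false := by
        intro i
        have := hb i
        cases hbi : b i <;> simp_all
      have e : univ.filter (fun r : Fin κ → Fin ℓ → Bool =>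
        gateApprox p GateKind.or (fun i => (ind (b i) : F)) r ≠ ind ((GateKind.or).eval p b)) = ∅ := by
        apply Finset.filter_eq_empty_iff.mpr
        intro r _
        rw [not_not]
        simp [gateApprox, ind, GateKind.eval, hb', hp1]
      rw [e, Finset.card_empty, zero_mul]
      exact Nat.zero_le _
  | mod =>
    have e : univ.filter (fun r : Fin κ → Fin ℓ → Bool =>
        gateApprox p GateKind.mod (fun i => (ind (b i) : F)) r ≠ ind ((GateKind.mod).eval p b)) = ∅ := by
      apply Finset.filter_eq_empty_iff.mpr
      intro r _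
      rw [not_not]
      simp only [gateApprox]
      rw [sum_ind_eq_card, natCast_pow_pred]
      simp only [GateKind.eval, ind, decide_eq_true_eq]
      by_cases h : p ∣ (univ.filter (fun i => b i = true)).card
      · rw [if_pos h, if_pos h, sub_zero]
      · rw [if_neg h, if_neg h, sub_self]
    rw [e, Finset.card_empty, zero_mul]
    exact Nat.zero_le _

end Gate

section Whole

variable {ι' : Type} {S : ℕ} {F : Type} [Field F]

/-- Seeds for all gates. -/
abbrev Seeds (C : Circuit ι' S) (κ : ℕ) : Type := (g : Fin S) → Fin κ → Fin (C.arity g) → Bool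

/-- true wire values -/
def wireVal (p : ℕ) (C : Circuit ι' S) (b : ι' → Bool) (g : Fin S) (i : Fin (C.arity g)) : Bool :=
  xor (C.wire g i).2
    (match (C.wire g i).1 with
    | .inl j => b j
    | .inr h => C.val p b ⟨h.val, h.isLt.trans g.isLt⟩)

lemma val_eq (p : ℕ) (C : Circuit ι' S) (b : ι' → Bool) (g : Fin S) :
    C.val p b g = (C.kind g).eval p (wireVal p C b g) := by
  rw [Circuit.val]
  rfl

/-- approximate values -/
def approxVal (F : Type) [Field F] (p : ℕ) {κ : ℕ} (C : Circuit ι' S) (ω : Seeds C κ) (b : ι' → Bool)
    (g : Fin S) : F :=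
  gateApprox p (C.kind g) (fun i =>
    let base : F := (match (C.wire g i).1 with
    | .inl j => ind (b j)
    | .inr h => approxVal F p C ω b ⟨h.val, h.isLt.trans g.isLt⟩)
    if (C.wire g i).2 then 1 - base else base) (ω g)
termination_by g.val
decreasing_by exact h.isLt

/-- approximate output -/
def approxEval (F : Type) [Field F] (p : ℕ) {κ : ℕ} (C : Circuit ι' S) (ω : Seeds C κ)
    (b : ι' → Bool) : F :=
  let base : F := (match C.out.1 with
    | .inl j => ind (b j)
    | .inr g => approxVal F p C ω b g)
  if C.out.2 then 1 - base else base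

lemma xor_ind (c a : Bool) : (if c then 1 - (ind a : F) else ind a) = ind (xor c a) := by
  cases c <;> cases a <;> simp [ind]

lemma approxVal_good (p : ℕ) {κ : ℕ} (C : Circuit ι' S) (ω : Seeds C κ) (b : ι' → Bool)
    (hgood : ∀ g, gateApprox p (C.kind g) (fun i => (ind (wireVal p C b g i) : F)) (ω g) =
      ind ((C.kind g).eval p (wireVal p C b g))) :
    ∀ n (g : Fin S), g.val = n → approxVal F p C ω b g = ind (C.val p b g) := by
  intro n
  induction n using Nat.strong_induction_on with
  | _ n ih =>
    intro g hg
    rw [approxVal, val_eq, ← hgood g]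
    congr 1
    funext i
    have hb : (match (C.wire g i).1 with
        | .inl j => (ind (b j) : F)
        | .inr h => approxVal F p C ω b ⟨h.val, h.isLt.trans g.isLt⟩) =
        ind (match (C.wire g i).1 with
        | .inl j => b j
        | .inr h => C.val p b ⟨h.val, h.isLt.trans g.isLt⟩) := by
      rcases (C.wire g i).1 with j | h
      · rfl
      · exact ih h.val (hg ▸ h.isLt) _ rfl
    simp only []
    rw [hb, xor_ind]
    rfl

lemma approxEval_good (p : ℕ) {κ : ℕ} (C : Circuit ι' S) (ω : Seeds C κ) (b : ι' → Bool)
    (hgood : ∀ g, gateApprox p (C.kind g) (fun i => (ind (wireVal p C b g i) : F)) (ω g) =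
      ind ((C.kind g).eval p (wireVal p C b g))) :
    approxEval F p C ω b = ind (C.eval p b) := by
  unfold approxEval Circuit.eval
  rcases hout : C.out.1 with j | g
  · simp only []
    rw [xor_ind]
  · simp only []
    rw [approxVal_good p C ω b hgood g.val g rfl, xor_ind]

lemma card_pi_coord {S : ℕ} {Ω : Fin S → Type} [∀ g, Fintype (Ω g)] [∀ g, DecidableEq (Ω g)]
    (g : Fin S) (B : Finset (Ω g)) (c : ℕ) (hB : B.card * c ≤ Fintype.card (Ω g)) :
    (univ.filter (fun ω : (∀ g, Ω g) => ω g ∈ B)).card * c ≤ Fintype.card (∀ g, Ω g) := by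
  have e : univ.filter (fun ω : (∀ g, Ω g) => ω g ∈ B) =
      Fintype.piFinset (Function.update (fun g' => (univ : Finset (Ω g'))) g B) := by
    ext ω
    rw [Finset.mem_filter, Fintype.mem_piFinset]
    constructor
    · rintro ⟨_, h⟩ g'
      by_cases hgg : g' = g
      · subst hgg
        rw [Function.update_self]
        exact h
      · rw [Function.update_of_ne hgg]
        exact Finset.mem_univ _
    · intro h
      refine ⟨Finset.mem_univ _, ?_⟩
      have := h g
      rwa [Function.update_self] at this
  rw [e, Fintype.card_piFinset, Fintype.card_pi]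
  rw [← Finset.mul_prod_erase univ _ (Finset.mem_univ g), ← Finset.mul_prod_erase univ
    (fun a => Fintype.card (Ω a)) (Finset.mem_univ g)]
  rw [Function.update_self]
  have e2 : ∏ x ∈ univ.erase g, (Function.update (fun g' => (univ : Finset (Ω g'))) g B x).card =
      ∏ x ∈ univ.erase g, Fintype.card (Ω x) := by
    apply Finset.prod_congr rfl
    intro x hx
    rw [Function.update_of_ne (Finset.ne_of_mem_erase hx), Finset.card_univ]
  rw [e2, mul_right_comm]
  exact Nat.mul_le_mul_right _ hB

open Classical in
/-- For every input, few seeds give a wrong value. -/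
theorem approx_error (p : ℕ) [hp : Fact p.Prime] [CharP F p] {κ : ℕ} (C : Circuit ι' S)
    (b : ι' → Bool) :
    (univ.filter (fun ω : Seeds C κ => approxEval F p C ω b ≠ ind (C.eval p b))).card * 2 ^ κ ≤
      S * Fintype.card (Seeds C κ) := by
  have hsub : univ.filter (fun ω : Seeds C κ => approxEval F p C ω b ≠ ind (C.eval p b)) ⊆
      univ.biUnion (fun g : Fin S => univ.filter (fun ω : Seeds C κ =>
        gateApprox p (C.kind g) (fun i => (ind (wireVal p C b g i) : F)) (ω g) ≠
        ind ((C.kind g).eval p (wireVal p C b g)))) := by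
    intro ω hω
    rw [Finset.mem_filter] at hω
    rw [Finset.mem_biUnion]
    by_contra hcon
    push Not at hcon
    apply hω.2
    apply approxEval_good
    intro g
    have := hcon g (Finset.mem_univ g)
    rw [Finset.mem_filter] at this
    push Not at this
    exact this (Finset.mem_univ _)
  have hg : ∀ g : Fin S, (univ.filter (fun ω : Seeds C κ =>
        gateApprox p (C.kind g) (fun i => (ind (wireVal p C b g i) : F)) (ω g) ≠
        ind ((C.kind g).eval p (wireVal p C b g)))).card * 2 ^ κ ≤ Fintype.card (Seeds C κ) := by
    intro g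
    have h1 := card_pi_coord (Ω := fun g : Fin S => Fin κ → Fin (C.arity g) → Bool) g
      (univ.filter (fun r : Fin κ → Fin (C.arity g) → Bool =>
          gateApprox p (C.kind g) (fun i => (ind (wireVal p C b g i) : F)) r ≠
          ind ((C.kind g).eval p (wireVal p C b g)))) (2 ^ κ)
          (gate_bad p (C.kind g) (wireVal p C b g))
    refine le_trans (le_of_eq ?_) h1
    congr 2
    ext ω
    simp only [Finset.mem_filter, Finset.mem_univ, true_and]
  calc (univ.filter (fun ω : Seeds C κ => approxEval F p C ω b ≠ ind (C.eval p b))).card * 2 ^ κ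
      ≤ (∑ g : Fin S, (univ.filter (fun ω : Seeds C κ =>
        gateApprox p (C.kind g) (fun i => (ind (wireVal p C b g i) : F)) (ω g) ≠
        ind ((C.kind g).eval p (wireVal p C b g)))).card) * 2 ^ κ := by
        apply Nat.mul_le_mul_right
        exact (Finset.card_le_card hsub).trans Finset.card_biUnion_le
    _ = ∑ g : Fin S, (univ.filter (fun ω : Seeds C κ =>
        gateApprox p (C.kind g) (fun i => (ind (wireVal p C b g i) : F)) (ω g) ≠
        ind ((C.kind g).eval p (wireVal p C b g)))).card * 2 ^ κ := by rw [Finset.sum_mul]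
    _ ≤ ∑ _g : Fin S, Fintype.card (Seeds C κ) := Finset.sum_le_sum fun g _ => hg g
    _ = S * Fintype.card (Seeds C κ) := by
        rw [Finset.sum_const, Finset.card_univ, Fintype.card_fin, smul_eq_mul]

end Whole

section Degree

variable {ι' : Type} {S : ℕ} {F : Type} [Field F] {ι : Type} [Fintype ι] [DecidableEq ι]

lemma gateApprox_mem (p : ℕ) (hp : 2 ≤ p) {κ ℓ : ℕ} (hκ : 1 ≤ κ) (k : GateKind)
    (u : Fin ℓ → (ι → Bool) → F) (r : Fin κ → Fin ℓ → Bool) (a : ℕ)
    (hu : ∀ i, u i ∈ LowDeg F ι a) :
    (fun x => gateApprox p k (fun i => u i x) r) ∈ LowDeg F ι ((p - 1) * κ * a) := by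
  have hone : ∀ f : (ι → Bool) → F, ∀ s, f ∈ LowDeg F ι s → (1 - f) ∈ LowDeg F ι s :=
    fun f s hf => sub_mem (one_mem_lowDeg s) hf
  cases k with
  | and =>
    have e : (fun x => gateApprox p GateKind.and (fun i => u i x) r) =
        ∏ j, (1 - (∑ i, (ind (r j i) : F) • (1 - u i)) ^ (p - 1)) := by
      funext x
      simp only [gateApprox, Finset.prod_apply, Pi.sub_apply, Pi.one_apply, Pi.pow_apply,
        Finset.sum_apply, Pi.smul_apply, smul_eq_mul]
    rw [e]
    have h := prod_mem_lowDeg (Finset.univ : Finset (Fin κ))
      (fun j => (1 - (∑ i, (ind (r j i) : F) • (1 - u i)) ^ (p - 1))) ((p - 1) * a) (by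
        intro j _
        apply hone
        apply pow_mem_lowDeg
        apply sum_mem_lowDeg
        intro i _
        exact Submodule.smul_mem _ _ (hone _ _ (hu i)))
    rw [Finset.card_univ, Fintype.card_fin] at h
    have e2 : κ * ((p - 1) * a) = (p - 1) * κ * a := by ring
    rwa [e2] at h
  | or =>
    have e : (fun x => gateApprox p GateKind.or (fun i => u i x) r) =
        1 - ∏ j, (1 - (∑ i, (ind (r j i) : F) • (u i)) ^ (p - 1)) := by
      funext x
      simp only [gateApprox, Finset.prod_apply, Pi.sub_apply, Pi.one_apply, Pi.pow_apply,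
        Finset.sum_apply, Pi.smul_apply, smul_eq_mul]
    rw [e]
    apply hone
    have h := prod_mem_lowDeg (Finset.univ : Finset (Fin κ))
      (fun j => (1 - (∑ i, (ind (r j i) : F) • (u i)) ^ (p - 1))) ((p - 1) * a) (by
        intro j _
        apply hone
        apply pow_mem_lowDeg
        apply sum_mem_lowDeg
        intro i _
        exact Submodule.smul_mem _ _ (hu i))
    rw [Finset.card_univ, Fintype.card_fin] at h
    have e2 : κ * ((p - 1) * a) = (p - 1) * κ * a := by ring
    rwa [e2] at h
  | mod =>
    have e : (fun x => gateApprox p GateKind.mod (fun i => u i x) r) =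
        1 - (∑ i, u i) ^ (p - 1) := by
      funext x
      simp only [gateApprox, Pi.sub_apply, Pi.one_apply, Pi.pow_apply, Finset.sum_apply]
    rw [e]
    apply hone
    have h1 := pow_mem_lowDeg (∑ i, u i) a (p - 1) (sum_mem_lowDeg _ _ _ fun i _ => hu i)
    refine lowDeg_mono ?_ h1
    calc (p - 1) * a = (p - 1) * 1 * a := by ring
      _ ≤ (p - 1) * κ * a := Nat.mul_le_mul_right _ (Nat.mul_le_mul_left _ hκ)

/-- The approximating functions have low degree. -/
theorem approxVal_mem (p : ℕ) (hp : 2 ≤ p) {κ : ℕ} (hκ : 1 ≤ κ) (C : Circuit ι' S) (ω : Seeds C κ)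
    (lam : ι' → (ι → Bool) → Bool)
    (hlam : ∀ j, (fun x => (ind (lam j x) : F)) ∈ LowDeg F ι 1) :
    ∀ n (g : Fin S), g.val = n →
      (fun x => approxVal F p C ω (fun j => lam j x) g) ∈ LowDeg F ι (((p - 1) * κ) ^ (C.depthAt g)) := by
  intro n
  have hb1 : 1 ≤ (p - 1) * κ := Nat.one_le_iff_ne_zero.mpr (Nat.mul_ne_zero (by omega) (by omega))
  induction n using Nat.strong_induction_on with
  | _ n ih =>
    intro g hg
    set dd := (Finset.univ.sup fun i =>
      (match (C.wire g i).1 with
      | .inl _ => 0
      | .inr h => C.depthAt ⟨h.val, h.isLt.trans g.isLt⟩)) with hdd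
    have hd : C.depthAt g = dd + 1 := by
      rw [Circuit.depthAt]
      rfl
    have hfun : (fun x => approxVal F p C ω (fun j => lam j x) g) =
        fun x => gateApprox p (C.kind g) (fun i =>
          (fun y : ι → Bool => (if (C.wire g i).2 then 1 - (match (C.wire g i).1 with
            | .inl j => (ind (lam j y) : F)
            | .inr h => approxVal F p C ω (fun j => lam j y) ⟨h.val, h.isLt.trans g.isLt⟩)
            else (match (C.wire g i).1 with
            | .inl j => (ind (lam j y) : F)
            | .inr h => approxVal F p C ω (fun j => lam j y) ⟨h.val, h.isLt.trans g.isLt⟩))) x) (ω g) := by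
      funext x
      rw [approxVal]
    rw [hfun, hd, pow_succ, mul_comm (((p - 1) * κ) ^ dd) _]
    apply gateApprox_mem p hp hκ
    intro i
    have hbase : (fun y : ι → Bool => (match (C.wire g i).1 with
            | .inl j => (ind (lam j y) : F)
            | .inr h => approxVal F p C ω (fun j => lam j y) ⟨h.val, h.isLt.trans g.isLt⟩)) ∈
            LowDeg F ι (((p - 1) * κ) ^ dd) := by
      have hle : (match (C.wire g i).1 with
        | .inl _ => 0
        | .inr h => C.depthAt ⟨h.val, h.isLt.trans g.isLt⟩) ≤ dd := by
        rw [hdd]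
        exact Finset.le_sup (f := fun i => (match (C.wire g i).1 with
        | .inl _ => 0
        | .inr h => C.depthAt ⟨h.val, h.isLt.trans g.isLt⟩)) (Finset.mem_univ i)
      revert hle
      rcases (C.wire g i).1 with j | h
      · intro _
        refine lowDeg_mono ?_ (hlam j)
        exact Nat.one_le_pow _ _ hb1
      · intro hle
        exact lowDeg_mono (Nat.pow_le_pow_right hb1 hle) (ih h.val (hg ▸ h.isLt) _ rfl)
    cases (C.wire g i).2
    · simpa using hbase
    · have h := sub_mem (one_mem_lowDeg (F := F) (ι := ι) (((p - 1) * κ) ^ dd)) hbase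
      convert h using 1
      funext y
      simp

theorem approxEval_mem (p : ℕ) (hp : 2 ≤ p) {κ : ℕ} (hκ : 1 ≤ κ) (C : Circuit ι' S) (ω : Seeds C κ)
    (lam : ι' → (ι → Bool) → Bool)
    (hlam : ∀ j, (fun x => (ind (lam j x) : F)) ∈ LowDeg F ι 1) (d : ℕ) (hd : C.depth ≤ d) :
    (fun x => approxEval F p C ω (fun j => lam j x)) ∈ LowDeg F ι (((p - 1) * κ) ^ d) := by
  have hb1 : 1 ≤ (p - 1) * κ := Nat.one_le_iff_ne_zero.mpr (Nat.mul_ne_zero (by omega) (by omega))
  have hbase : (fun y : ι → Bool => (match C.out.1 with
            | .inl j => (ind (lam j y) : F)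
            | .inr g => approxVal F p C ω (fun j => lam j y) g)) ∈
            LowDeg F ι (((p - 1) * κ) ^ d) := by
    unfold Circuit.depth at hd
    revert hd
    rcases C.out.1 with j | g
    · intro _
      refine lowDeg_mono ?_ (hlam j)
      exact Nat.one_le_pow _ _ hb1
    · intro hd
      exact lowDeg_mono (Nat.pow_le_pow_right hb1 hd) (approxVal_mem p hp hκ C ω lam hlam g.val g rfl)
  unfold approxEval
  cases C.out.2
  · simpa using hbase
  · have h := sub_mem (one_mem_lowDeg (F := F) (ι := ι) (((p - 1) * κ) ^ d)) hbase
    convert h using 1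
    funext y
    simp

end Degree

end Pool.Agent.Lib.MP_9cec2c_lc
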