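import Mathlib
import Pool.Agent.Lib.MP_9cec2c_lc.CubePoly

set_option autoImplicit false
set_option linter.unusedSectionVars false
set_option linter.unusedSimpArgs false

namespace Pool.Agent.Lib.MP_9cec2c_lc

open Finset

variable {ι : Type} [Fintype ι] [DecidableEq ι] {F : Type} [Field F]

/-- The number of sets of size at most `t`. -/
def ballCard (ι : Type) [Fintype ι] [DecidableEq ι] (t : ℕ) : ℕ :=
  ((Finset.univ : Finset (Finset ι)).filter (fun T => T.card ≤ t)).card

/-- translate of the indicator point of a set -/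
def pt (a : ι → Bool) (T : Finset ι) : ι → Bool := fun i => xor (decide (i ∈ T)) (a i)

/-- translated monomial -/
def monoT (a : ι → Bool) (T : Finset ι) : (ι → Bool) → F :=
  fun x => ∏ i ∈ T, (ind (xor (x i) (a i)) : F)

lemma monoT_mem (a : ι → Bool) (T : Finset ι) {t : ℕ} (h : T.card ≤ t) :
    (monoT a T : (ι → Bool) → F) ∈ LowDeg F ι t := by
  have h1 := prod_mem_lowDeg (F := F) T (fun i => fun x : ι → Bool => (ind (xor (x i) (a i)) : F)) 1
    (fun i _ => coord_mem_lowDeg i (fun b => ind (xor b (a i))))
  have e : (∏ i ∈ T, fun x : ι → Bool => (ind (xor (x i) (a i)) : F)) = monoT a T := by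
    funext x
    rw [Finset.prod_apply]
    rfl
  rw [e] at h1
  exact lowDeg_mono (by omega) h1

lemma monoT_pt (a : ι → Bool) (T U : Finset ι) :
    (monoT a T (pt a U) : F) = if T ⊆ U then 1 else 0 := by
  unfold monoT pt ind
  have e : ∀ i, (xor (xor (decide (i ∈ U)) (a i)) (a i)) = decide (i ∈ U) := by
    intro i
    cases a i <;> simp
  simp only [e]
  rw [Finset.prod_ite_zero]
  simp [Finset.subset_iff]

/-- Averaging over translations: some translate of the ball meets `A` in at least the expected
number of points. -/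
lemma exists_translate (A : Finset (ι → Bool)) (t : ℕ) :
    ∃ a : ι → Bool, A.card * ballCard ι t ≤
      ((Finset.univ : Finset (Finset ι)).filter (fun T => T.card ≤ t ∧ pt a T ∈ A)).card *
        2 ^ Fintype.card ι := by
  by_contra hcon
  push Not at hcon
  have hsum : ∑ a : ι → Bool,
      ((Finset.univ : Finset (Finset ι)).filter (fun T => T.card ≤ t ∧ pt a T ∈ A)).card =
      A.card * ballCard ι t := by
    have h1 : ∀ a : ι → Bool,
        ((Finset.univ : Finset (Finset ι)).filter (fun T => T.card ≤ t ∧ pt a T ∈ A)).card =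
        ∑ T ∈ (Finset.univ : Finset (Finset ι)).filter (fun T => T.card ≤ t),
          if pt a T ∈ A then 1 else 0 := by
      intro a
      rw [← Finset.sum_filter, Finset.filter_filter, Finset.card_eq_sum_ones]
    rw [Finset.sum_congr rfl fun a _ => h1 a, Finset.sum_comm]
    have h2 : ∀ T : Finset ι, (∑ a : ι → Bool, if pt a T ∈ A then 1 else 0) = A.card := by
      intro T
      rw [← Finset.sum_filter, ← Finset.card_eq_sum_ones]
      apply Finset.card_bij (fun a _ => pt a T)
      · intro a ha
        exact (Finset.mem_filter.mp ha).2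
      · intro a _ b _ hab
        funext i
        have := congrFun hab i
        simp only [pt] at this
        revert this
        cases a i <;> cases b i <;> cases (decide (i ∈ T)) <;> simp
      · intro b hb
        refine ⟨pt b T, ?_, ?_⟩
        · rw [Finset.mem_filter]
          refine ⟨Finset.mem_univ _, ?_⟩
          have : pt (pt b T) T = b := by
            funext i
            simp only [pt]
            cases b i <;> cases (decide (i ∈ T)) <;> simp
          rwa [this]
        · funext i
          simp only [pt]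
          cases b i <;> cases (decide (i ∈ T)) <;> simp
    rw [Finset.sum_congr rfl fun T _ => h2 T, Finset.sum_const, smul_eq_mul, mul_comm]
    rfl
  have hlt : ∑ a : ι → Bool,
      ((Finset.univ : Finset (Finset ι)).filter (fun T => T.card ≤ t ∧ pt a T ∈ A)).card *
        2 ^ Fintype.card ι < ∑ _a : ι → Bool, A.card * ballCard ι t := by
    apply Finset.sum_lt_sum_of_nonempty
    · exact Finset.univ_nonempty
    · intro a _
      exact hcon a
  rw [← Finset.sum_mul, hsum, Finset.sum_const, Finset.card_univ, smul_eq_mul] at hlt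
  rw [Fintype.card_fun, Fintype.card_bool] at hlt
  rw [mul_comm (2 ^ Fintype.card ι) _] at hlt
  exact lt_irrefl _ hlt

/-- **Separating polynomial.**  If `E` is much smaller than `A` there is a function of degree at most
`t` vanishing on `E` and not vanishing on all of `A`. -/
theorem exists_separating (A E : Finset (ι → Bool)) (t : ℕ)
    (h : E.card * 2 ^ Fintype.card ι < A.card * ballCard ι t) :
    ∃ R ∈ LowDeg F ι t, (∀ x ∈ E, R x = 0) ∧ ∃ x ∈ A, R x ≠ 0 := by
  classical
  obtain ⟨a, ha⟩ := exists_translate A t
  set good := (Finset.univ : Finset (Finset ι)).filter (fun T => T.card ≤ t ∧ pt a T ∈ A) with hgood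
  set bad := (Finset.univ : Finset (Finset ι)).filter (fun T => T.card ≤ t ∧ pt a T ∉ A) with hbad
  set all := (Finset.univ : Finset (Finset ι)).filter (fun T => T.card ≤ t) with hall
  have hEg : E.card < good.card := by
    have h1 := lt_of_lt_of_le h ha
    exact Nat.lt_of_mul_lt_mul_right h1
  have hcard : all.card = good.card + bad.card := by
    have := Finset.card_filter_add_card_filter_not (s := all) (fun T => pt a T ∈ A)
    rw [hall, Finset.filter_filter, Finset.filter_filter] at this
    rw [hgood, hbad, hall, ← this]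
  -- the linear map of constraints
  let R : (all → F) →ₗ[F] ((ι → Bool) → F) :=
    { toFun := fun c x => ∑ T : all, c T * monoT a T.1 x
      map_add' := by
        intro c d
        funext x
        simp only [Pi.add_apply, add_mul, Finset.sum_add_distrib]
      map_smul' := by
        intro r c
        funext x
        simp only [Pi.smul_apply, smul_eq_mul, RingHom.id_apply, Finset.mul_sum, mul_assoc] }
  let L : (all → F) →ₗ[F] ((E → F) × (bad → F)) :=
    { toFun := fun c => (fun e => R c e.1, fun T => R c (pt a T.1))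
      map_add' := by
        intro c d
        rw [map_add]
        rfl
      map_smul' := by
        intro r c
        rw [map_smul]
        rfl }
  have hdim : Module.finrank F ((E → F) × (bad → F)) < Module.finrank F (all → F) := by
    rw [Module.finrank_prod, Module.finrank_fintype_fun_eq_card, Module.finrank_fintype_fun_eq_card,
      Module.finrank_fintype_fun_eq_card, Fintype.card_coe, Fintype.card_coe, Fintype.card_coe]
    omega
  have hker := LinearMap.ker_ne_bot_of_finrank_lt hdim (f := L)
  obtain ⟨c, hc, hc0⟩ := (Submodule.ne_bot_iff _).mp hker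
  rw [LinearMap.mem_ker] at hc
  have hcE : ∀ x ∈ E, R c x = 0 := by
    intro x hx
    exact congrFun (congrArg Prod.fst hc) ⟨x, hx⟩
  have hcB : ∀ T ∈ bad, R c (pt a T) = 0 := by
    intro T hT
    exact congrFun (congrArg Prod.snd hc) ⟨T, hT⟩
  refine ⟨R c, ?_, hcE, ?_⟩
  · have e : R c = ∑ T : all, c T • monoT a T.1 := by
      funext x
      rw [Finset.sum_apply]
      rfl
    rw [e]
    apply Submodule.sum_mem
    intro T _
    apply Submodule.smul_mem
    exact monoT_mem a T.1 (Finset.mem_filter.mp T.2).2
  · -- minimal nonzero coefficient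
    have hne : ((Finset.univ : Finset all).filter (fun T => c T ≠ 0)).Nonempty := by
      by_contra hcon
      rw [Finset.not_nonempty_iff_eq_empty] at hcon
      apply hc0
      funext T
      by_contra hT
      have : T ∈ (Finset.univ : Finset all).filter (fun T => c T ≠ 0) :=
        Finset.mem_filter.mpr ⟨Finset.mem_univ _, hT⟩
      rw [hcon] at this
      exact absurd this (Finset.notMem_empty _)
    obtain ⟨T0, hT0, hmin⟩ := Finset.exists_min_image _ (fun T : all => T.1.card) hne
    have hcT0 : c T0 ≠ 0 := (Finset.mem_filter.mp hT0).2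
    have hval : R c (pt a T0.1) = c T0 := by
      change ∑ T : all, c T * monoT a T.1 (pt a T0.1) = c T0
      rw [Finset.sum_eq_single T0]
      · rw [monoT_pt, if_pos (Finset.Subset.refl _), mul_one]
      · intro T _ hT
        rw [monoT_pt]
        by_cases hsub : T.1 ⊆ T0.1
        · rw [if_pos hsub, mul_one]
          by_contra hcT
          have h1 := hmin T (Finset.mem_filter.mpr ⟨Finset.mem_univ _, hcT⟩)
          have h2 : T.1 = T0.1 := Finset.eq_of_subset_of_card_le hsub h1
          exact hT (Subtype.ext h2)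
        · rw [if_neg hsub, mul_zero]
      · intro hn
        exact absurd (Finset.mem_univ _) hn
    have hA : pt a T0.1 ∈ A := by
      by_contra hA
      have h1 : T0.1 ∈ bad :=
        Finset.mem_filter.mpr ⟨Finset.mem_univ _, (Finset.mem_filter.mp T0.2).2, hA⟩
      have h2 := hcB _ h1
      rw [hval] at h2
      exact hcT0 h2
    exact ⟨_, hA, by rw [hval]; exact hcT0⟩

/-- **One-sided bound.**  Suppose `V` is contained in the set of points whose number of ones is
divisible by `q`.  Let `P` be a finite family of functions of degree at most `ρ` such that every point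
of `A0 ⊆ V` is accepted (nonzero value) by at least `α` members and every point outside of `V` is
accepted by at most `β` members.  Then `A0` is small. -/
theorem one_sided [DecidableEq F] (q : ℕ) (ω : F) (hω : ω ^ q = 1) (hω1 : ω ≠ 1)
    {Ω : Type} [Fintype Ω] (P : Ω → (ι → Bool) → F) (ρ : ℕ) (hP : ∀ s, P s ∈ LowDeg F ι ρ)
    (V A0 : Finset (ι → Bool)) (hV : ∀ x ∈ V, q ∣ ones x) (hA0 : A0 ⊆ V) (α β : ℕ)
    (hα : ∀ x ∈ A0, α ≤ ((Finset.univ : Finset Ω).filter (fun s => P s x ≠ 0)).card)
    (hβ : ∀ x, x ∉ V → ((Finset.univ : Finset Ω).filter (fun s => P s x ≠ 0)).card ≤ β)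
    (m t : ℕ) (hmt : m * ρ + t + Fintype.card ι / 2 < Fintype.card ι) :
    A0.card * α ^ m * ballCard ι t ≤ 4 ^ Fintype.card ι * β ^ m := by
  by_contra hcon
  push Not at hcon
  set N := Fintype.card ι with hN
  -- products
  let PP : (Fin m → Ω) → (ι → Bool) → F := fun s => ∏ j, P (s j)
  have hcount : ∀ x, ((Finset.univ : Finset (Fin m → Ω)).filter (fun s => PP s x ≠ 0)).card =
      (((Finset.univ : Finset Ω).filter (fun s => P s x ≠ 0)).card) ^ m := by
    intro x
    have e : (Finset.univ : Finset (Fin m → Ω)).filter (fun s => PP s x ≠ 0) =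
        Fintype.piFinset (fun _ => (Finset.univ : Finset Ω).filter (fun s => P s x ≠ 0)) := by
      ext s
      rw [Finset.mem_filter, Fintype.mem_piFinset]
      simp only [Finset.mem_univ, true_and, Finset.mem_filter, PP, Finset.prod_apply]
      rw [Finset.prod_ne_zero_iff]
      simp
    rw [e, Fintype.card_piFinset_const]
  have hsumA : A0.card * α ^ m ≤
      ∑ s : Fin m → Ω, (V.filter (fun x => PP s x ≠ 0)).card := by
    have h1 : ∑ s : Fin m → Ω, (V.filter (fun x => PP s x ≠ 0)).card =
        ∑ x ∈ V, ((Finset.univ : Finset (Fin m → Ω)).filter (fun s => PP s x ≠ 0)).card := by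
      simp only [Finset.card_eq_sum_ones, Finset.sum_filter]
      rw [Finset.sum_comm]
    rw [h1]
    calc A0.card * α ^ m = ∑ _x ∈ A0, α ^ m := by rw [Finset.sum_const, smul_eq_mul]
      _ ≤ ∑ x ∈ A0, ((Finset.univ : Finset (Fin m → Ω)).filter (fun s => PP s x ≠ 0)).card := by
          apply Finset.sum_le_sum
          intro x hx
          rw [hcount]
          exact Nat.pow_le_pow_left (hα x hx) m
      _ ≤ _ := Finset.sum_le_sum_of_subset hA0
  have hsumE : ∑ s : Fin m → Ω, (Vᶜ.filter (fun x => PP s x ≠ 0)).card ≤ 2 ^ N * β ^ m := by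
    have h1 : ∑ s : Fin m → Ω, (Vᶜ.filter (fun x => PP s x ≠ 0)).card =
        ∑ x ∈ Vᶜ, ((Finset.univ : Finset (Fin m → Ω)).filter (fun s => PP s x ≠ 0)).card := by
      simp only [Finset.card_eq_sum_ones, Finset.sum_filter]
      rw [Finset.sum_comm]
    rw [h1]
    calc ∑ x ∈ Vᶜ, ((Finset.univ : Finset (Fin m → Ω)).filter (fun s => PP s x ≠ 0)).card
        ≤ ∑ _x ∈ Vᶜ, β ^ m := by
          apply Finset.sum_le_sum
          intro x hx
          rw [hcount]
          exact Nat.pow_le_pow_left (hβ x (Finset.mem_compl.mp hx)) m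
      _ = Vᶜ.card * β ^ m := by rw [Finset.sum_const, smul_eq_mul]
      _ ≤ 2 ^ N * β ^ m := by
          apply Nat.mul_le_mul_right
          have := Finset.card_le_univ Vᶜ
          rwa [Fintype.card_fun, Fintype.card_bool] at this
  -- find a good tuple
  obtain ⟨s, hs⟩ : ∃ s : Fin m → Ω, (Vᶜ.filter (fun x => PP s x ≠ 0)).card * 2 ^ N <
      (V.filter (fun x => PP s x ≠ 0)).card * ballCard ι t := by
    by_contra hno
    push Not at hno
    have h1 : ∑ s : Fin m → Ω, (V.filter (fun x => PP s x ≠ 0)).card * ballCard ι t ≤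
        ∑ s : Fin m → Ω, (Vᶜ.filter (fun x => PP s x ≠ 0)).card * 2 ^ N :=
      Finset.sum_le_sum fun s _ => hno s
    rw [← Finset.sum_mul, ← Finset.sum_mul] at h1
    have h2 : A0.card * α ^ m * ballCard ι t ≤ 2 ^ N * β ^ m * 2 ^ N :=
      (Nat.mul_le_mul_right _ hsumA).trans (h1.trans (Nat.mul_le_mul_right _ hsumE))
    have h3 : 2 ^ N * β ^ m * 2 ^ N = 4 ^ N * β ^ m := by
      have : (4 : ℕ) ^ N = 2 ^ N * 2 ^ N := by rw [← Nat.mul_pow]
      rw [this]; ring
    rw [h3] at h2
    exact absurd h2 (not_le.mpr hcon)
  obtain ⟨R, hR, hR0, x0, hx0, hRx0⟩ := exists_separating (F := F) _ _ t hs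
  rw [Finset.mem_filter] at hx0
  have hPPd : PP s ∈ LowDeg F ι (m * ρ) := by
    have := prod_mem_lowDeg (Finset.univ : Finset (Fin m)) (fun j => P (s j)) ρ (fun j _ => hP (s j))
    simpa using this
  have hQ := mul_mem_lowDeg hPPd hR
  have hw := weak_degree q ω hω hω1 hQ (by
    intro x hx
    have hx1 : PP s x ≠ 0 := fun h => hx (by rw [Pi.mul_apply, h, zero_mul])
    have hx2 : R x ≠ 0 := fun h => hx (by rw [Pi.mul_apply, h, mul_zero])
    by_cases hxV : x ∈ V
    · exact hV x hxV
    · exfalso
      exact hx2 (hR0 x (Finset.mem_filter.mpr ⟨Finset.mem_compl.mpr hxV, hx1⟩)))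
    ⟨x0, by rw [Pi.mul_apply]; exact mul_ne_zero hx0.2 hRx0⟩
  omega

end Pool.Agent.Lib.MP_9cec2c_lc
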