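import Mathlib
import Pool.Agent.Lib.MP_9cec2c_lc.Separate

set_option autoImplicit false
set_option linter.unusedSectionVars false
set_option linter.unusedSimpArgs false
set_option linter.unusedVariables false

namespace Pool.Agent.Lib.MP_9cec2c_lc

open Finset

lemma choose_le_ballCard (ι : Type) [Fintype ι] [DecidableEq ι] (t : ℕ) :
    (Fintype.card ι).choose t ≤ ballCard ι t := by
  unfold ballCard
  rw [← Finset.card_univ (α := ι), ← Finset.card_powersetCard]
  apply Finset.card_le_card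
  intro T hT
  rw [Finset.mem_powersetCard] at hT
  rw [Finset.mem_filter]
  exact ⟨Finset.mem_univ _, hT.2.le⟩

lemma choose_ratio (h s : ℕ) (hh : 0 < h) (hs : 2 * s ≤ h) :
    ∀ j, j ≤ s → ((2 * h).choose h : ℝ) * (1 - 2 * s / h) ^ j ≤ ((2 * h).choose (h - j) : ℝ) := by
  have hhR : (0 : ℝ) < h := by exact_mod_cast hh
  have hb0 : (0 : ℝ) ≤ 1 - 2 * s / h := by
    rw [sub_nonneg, div_le_one hhR]
    exact_mod_cast hs
  intro j
  induction j with
  | zero => intro _; simp
  | succ j ih =>
    intro hj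
    have h1 := ih (by omega)
    have h2 := Nat.choose_succ_right_eq (2 * h) (h - (j + 1))
    have e1 : h - (j + 1) + 1 = h - j := by omega
    have e2 : 2 * h - (h - (j + 1)) = h + (j + 1) := by omega
    rw [e1, e2] at h2
    have h3 : ((2 * h).choose (h - j) : ℝ) * ((h : ℝ) - j) =
        ((2 * h).choose (h - (j + 1)) : ℝ) * ((h : ℝ) + (j + 1)) := by
      have h4 : (((h - j : ℕ)) : ℝ) = (h : ℝ) - j := by
        rw [Nat.cast_sub (by omega)]
      rw [← h4]
      exact_mod_cast h2
    have hpos : (0 : ℝ) < (h : ℝ) + (j + 1) := by positivity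
    have hkey : (1 - 2 * (s : ℝ) / h) * ((h : ℝ) + (j + 1)) ≤ (h : ℝ) - j := by
      have hsj : (j : ℝ) + 1 ≤ s := by exact_mod_cast hj
      have : (1 - 2 * (s : ℝ) / h) * ((h : ℝ) + (j + 1)) =
          (h : ℝ) + (j + 1) - 2 * s - 2 * s * (j + 1) / h := by
        field_simp
        ring
      rw [this]
      have h5 : 0 ≤ 2 * (s : ℝ) * (j + 1) / h := by positivity
      linarith
    rw [pow_succ]
    have hc0 : (0 : ℝ) ≤ ((2 * h).choose (h - j) : ℝ) := by positivity
    have h6 : ((2 * h).choose h : ℝ) * (1 - 2 * s / h) ^ j * (1 - 2 * s / h) ≤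
        ((2 * h).choose (h - j) : ℝ) * (1 - 2 * s / h) := mul_le_mul_of_nonneg_right h1 hb0
    have h7 : ((2 * h).choose (h - j) : ℝ) * (1 - 2 * s / h) * ((h : ℝ) + (j + 1)) ≤
        ((2 * h).choose (h - (j + 1)) : ℝ) * ((h : ℝ) + (j + 1)) := by
      rw [← h3, mul_assoc]
      exact mul_le_mul_of_nonneg_left hkey hc0
    have h8 := le_of_mul_le_mul_right h7 hpos
    calc ((2 * h).choose h : ℝ) * ((1 - 2 * s / h) ^ j * (1 - 2 * s / h)) =
        ((2 * h).choose h : ℝ) * (1 - 2 * s / h) ^ j * (1 - 2 * s / h) := by ring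
      _ ≤ _ := h6
      _ ≤ _ := h8

/-- Lower bound for a binomial coefficient a little below the middle. -/
lemma choose_lower (h s g e : ℕ) (hh : 0 < h) (h1 : 4 * s * g ≤ h) (h2 : s ≤ g * e) (hg : 1 ≤ g) :
    4 ^ h ≤ (2 * h).choose (h - s) * 2 ^ e * (2 * h) := by
  have hs : 2 * s ≤ h := by nlinarith
  have hhR : (0 : ℝ) < h := by exact_mod_cast hh
  have hb0 : (0 : ℝ) ≤ 1 - 2 * s / h := by
    rw [sub_nonneg, div_le_one hhR]
    exact_mod_cast hs
  have hb1 : (1 : ℝ) - 2 * s / h ≤ 1 := by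
    have : (0 : ℝ) ≤ 2 * s / h := by positivity
    linarith
  have h3 := choose_ratio h s hh hs s le_rfl
  have h4 : ((1 : ℝ) / 2) ^ e ≤ (1 - 2 * s / h) ^ s := by
    calc ((1 : ℝ) / 2) ^ e ≤ ((1 - 2 * s / h) ^ g) ^ e := by
          apply pow_le_pow_left₀ (by norm_num)
          have hB := one_add_mul_le_pow (a := -(2 * (s : ℝ) / h)) (by
            have : (2 * (s : ℝ) / h) ≤ 1 := by
              rw [div_le_one hhR]
              exact_mod_cast hs
            linarith) g
          have h5 : (g : ℝ) * (2 * s / h) ≤ 1 / 2 := by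
            rw [← mul_div_assoc, div_le_iff₀ hhR]
            have : (4 * s * g : ℝ) ≤ h := by exact_mod_cast h1
            linarith
          have h6 : (1 : ℝ) + -(2 * (s : ℝ) / h) = 1 - 2 * s / h := by ring
          rw [h6] at hB
          linarith
      _ = (1 - 2 * s / h) ^ (g * e) := by rw [pow_mul]
      _ ≤ (1 - 2 * s / h) ^ s := pow_le_pow_of_le_one hb0 hb1 h2
  have h5 : (4 : ℝ) ^ h ≤ 2 * h * ((2 * h).choose h : ℝ) := by
    have := Nat.four_pow_le_two_mul_self_mul_centralBinom h hh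
    rw [Nat.centralBinom_eq_two_mul_choose] at this
    exact_mod_cast this
  have h6 : ((2 * h).choose h : ℝ) ≤ ((2 * h).choose (h - s) : ℝ) * 2 ^ e := by
    have h7 : ((2 * h).choose h : ℝ) * (1 / 2) ^ e ≤ ((2 * h).choose (h - s) : ℝ) :=
      (mul_le_mul_of_nonneg_left h4 (by positivity)).trans h3
    calc ((2 * h).choose h : ℝ) = ((2 * h).choose h : ℝ) * (1 / 2) ^ e * 2 ^ e := by
          rw [mul_assoc, ← mul_pow]
          norm_num
      _ ≤ _ := mul_le_mul_of_nonneg_right h7 (by positivity)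
  have h7 : (4 : ℝ) ^ h ≤ ((2 * h).choose (h - s) : ℝ) * 2 ^ e * (2 * h) := by
    calc (4 : ℝ) ^ h ≤ 2 * h * ((2 * h).choose h : ℝ) := h5
      _ ≤ 2 * h * (((2 * h).choose (h - s) : ℝ) * 2 ^ e) := mul_le_mul_of_nonneg_left h6 (by positivity)
      _ = _ := by ring
  exact_mod_cast h7

/-- The number of tables all of whose block sums are divisible by 6 is large. -/
lemma block_count (B : Type) [Fintype B] [DecidableEq B] (b' : ℕ) :
    2 ^ (Fintype.card B * b') ≤ ((Finset.univ : Finset (B × Fin (b' + 5) → Bool)).filter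
      (fun x => ∀ i, 6 ∣ ∑ t, (x (i, t)).toNat)).card := by
  have hcard : 2 ^ (Fintype.card B * b') = (Finset.univ : Finset (B × Fin b' → Bool)).card := by
    rw [Finset.card_univ, Fintype.card_fun, Fintype.card_bool, Fintype.card_prod, Fintype.card_fin]
  rw [hcard]
  let f : (B × Fin b' → Bool) → (B × Fin (b' + 5) → Bool) := fun x it =>
    Fin.append (fun t : Fin b' => x (it.1, t))
      (fun t : Fin 5 => decide (t.val < (6 - (∑ t', (x (it.1, t')).toNat) % 6) % 6)) it.2
  apply Finset.card_le_card_of_injOn f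
  · intro x _
    rw [Finset.mem_coe, Finset.mem_filter]
    refine ⟨Finset.mem_univ _, ?_⟩
    intro i
    simp only [f]
    rw [Fin.sum_univ_add]
    simp only [Fin.append_left, Fin.append_right]
    set s := ∑ t', (x (i, t')).toNat with hs
    have hlt : (6 - s % 6) % 6 < 6 := Nat.mod_lt _ (by norm_num)
    have h5 : ∀ c, c < 6 → ∑ t : Fin 5, (decide (t.val < c)).toNat = c := by
      intro c hc
      interval_cases c <;> decide
    rw [h5 _ hlt]
    omega
  · intro x _ y _ hxy
    funext it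
    have := congrFun hxy (it.1, Fin.castAdd 5 it.2)
    simp only [f, Fin.append_left] at this
    exact this

end Pool.Agent.Lib.MP_9cec2c_lc
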