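import Pool.Agent.Lib.MP_9cec2c_lc.CERules

/-!
Derivations by the rules `ceRules p` with bounds on the number of lines and their sizes.
-/

set_option autoImplicit false
set_option linter.unusedSectionVars false
set_option linter.unusedSimpArgs false

namespace Pool.Agent.MP_9cec2c_lc.CE

open FG

variable {V : Type} {p d P : ℕ} {Φ : Set (Form V)}

/-- The number of nodes of a formula. -/
def wt : Form V → ℕ
  | .var _ => 1
  | .neg φ => wt φ + 1
  | .conj _ F => (∑ i, wt (F i)) + 1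
  | .disj _ F => (∑ i, wt (F i)) + 1
  | .count _ _ F => (∑ i, wt (F i)) + 1

/-- The number of nodes of the formulas of a list. -/
def wtL (Λ : List (Form V)) : ℕ := (Λ.map wt).sum

theorem ncard_iUnion_le {m : ℕ} (F : Fin m → Form V) (h : ∀ i, (F i).parts.ncard ≤ wt (F i)) :
    (⋃ i, (F i).parts).ncard ≤ ∑ i, wt (F i) := by
  have key : ∀ s : Finset (Fin m), (⋃ i ∈ s, (F i).parts).ncard ≤ ∑ i ∈ s, wt (F i) := by
    intro s
    classical
    induction s using Finset.induction_on with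
    | empty => simp
    | insert i s hi ih =>
      rw [Finset.sum_insert hi, Finset.set_biUnion_insert]
      exact (Set.ncard_union_le _ _).trans (Nat.add_le_add (h i) ih)
  have := key Finset.univ
  simpa using this

theorem parts_le_wt (φ : Form V) : φ.parts.ncard ≤ wt φ := by
  induction φ with
  | var v => simp [Form.parts, wt]
  | neg φ ih => exact (Set.ncard_insert_le _ _).trans (Nat.add_le_add_right ih 1)
  | conj m F ih =>
    exact (Set.ncard_insert_le _ _).trans (Nat.add_le_add_right (ncard_iUnion_le F ih) 1)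
  | disj m F ih =>
    exact (Set.ncard_insert_le _ _).trans (Nat.add_le_add_right (ncard_iUnion_le F ih) 1)
  | count r m F ih =>
    exact (Set.ncard_insert_le _ _).trans (Nat.add_le_add_right (ncard_iUnion_le F ih) 1)

theorem sum_get (Λ : List (Form V)) : ∑ i, wt (Λ.get i) = wtL Λ := by
  unfold wtL
  conv_rhs => rw [← List.ofFn_get Λ]
  rw [List.map_ofFn, List.sum_ofFn]
  rfl

theorem wt_disjL (Λ : List (Form V)) : wt (disjL Λ) = wtL Λ + 1 := by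
  rw [← sum_get]
  rfl

theorem wt_conjL (Λ : List (Form V)) : wt (conjL Λ) = wtL Λ + 1 := by
  rw [← sum_get]
  rfl

theorem wt_countL (c : ℕ) (Λ : List (Form V)) : wt (countL c Λ) = wtL Λ + 1 := by
  rw [← sum_get]
  rfl

theorem wt_neg (φ : Form V) : wt (.neg φ) = wt φ + 1 := rfl

theorem wtL_nil : wtL ([] : List (Form V)) = 0 := rfl

theorem wtL_cons (φ : Form V) (Λ : List (Form V)) : wtL (φ :: Λ) = wt φ + wtL Λ := rfl

theorem wtL_append (Λ Λ' : List (Form V)) : wtL (Λ ++ Λ') = wtL Λ + wtL Λ' := by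
  unfold wtL
  rw [List.map_append, List.sum_append]

theorem wtL_replicate (n : ℕ) (φ : Form V) : wtL (List.replicate n φ) = n * wt φ := by
  unfold wtL
  rw [List.map_replicate, List.sum_replicate, smul_eq_mul]

theorem wtL_le {Λ : List (Form V)} {w : ℕ} (h : ∀ φ ∈ Λ, wt φ ≤ w) : wtL Λ ≤ Λ.length * w := by
  unfold wtL
  have := List.sum_le_card_nsmul (Λ.map wt) w (by
    intro n hn
    obtain ⟨φ, hφ, rfl⟩ := List.mem_map.1 hn
    exact h φ hφ)
  simpa using this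

/-- Bounds for one formula. -/
def Ok (P : ℕ) (φ : Form V) : Prop := φ.depth ≤ 3 ∧ wt φ ≤ P

/-- The formula has a derivation with at most `n` lines. -/
def DN (p P : ℕ) (Φ : Set (Form V)) (n : ℕ) (φ : Form V) : Prop :=
  ∃ Ls, Lin (ceRules p) 3 Φ Ls ∧ φ ∈ Ls ∧ Ls.length ≤ n ∧ ∀ ψ ∈ Ls, wt ψ ≤ P

theorem DN.mono {n m : ℕ} {φ : Form V} (h : DN p P Φ n φ) (hnm : n ≤ m) : DN p P Φ m φ := by
  obtain ⟨Ls, h1, h2, h3, h4⟩ := h
  exact ⟨Ls, h1, h2, h3.trans hnm, h4⟩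

theorem lin_depth {S : Set Rule} {Ls : List (Form V)} (h : Lin S d Φ Ls) :
    ∀ ψ ∈ Ls, ψ.depth ≤ d := by
  induction h with
  | nil => exact fun ψ hψ => absurd hψ List.not_mem_nil
  | cons φ Ls h hd hr ih =>
    intro ψ hψ
    rcases List.mem_cons.1 hψ with rfl | hψ
    · exact hd
    · exact ih ψ hψ

theorem DN.ok {n : ℕ} {φ : Form V} (h : DN p P Φ n φ) : Ok P φ := by
  obtain ⟨Ls, h1, h2, h3, h4⟩ := h
  exact ⟨lin_depth h1 φ h2, h4 φ h2⟩

theorem DN.ax {φ : Form V} (h : φ ∈ Φ) (hok : Ok P φ) : DN p P Φ 1 φ :=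
  ⟨[φ], Lin.cons φ [] Lin.nil hok.1 (Or.inl h), List.mem_singleton.2 rfl, by simp, by
    intro ψ hψ
    rw [List.mem_singleton.1 hψ]
    exact hok.2⟩

theorem DN.app0 {R : Rule} (hR : R ∈ ceRules p) {C : Scheme} (hRe : R = ⟨[], C⟩) (σ : ℕ → Form V)
    (τ : ℕ → List (Form V)) {φ : Form V} (hC : C.inst σ τ = [φ]) (hok : Ok P φ) :
    DN p P Φ 1 φ := by
  refine ⟨[φ], Lin.cons φ [] Lin.nil hok.1 (Or.inr ⟨R, hR, σ, τ, fun Q hQ => ?_, ?_⟩),
    List.mem_singleton.2 rfl, by simp, ?_⟩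
  · rw [hRe] at hQ
    exact absurd hQ List.not_mem_nil
  · rw [hRe]
    exact hC
  · intro ψ hψ
    rw [List.mem_singleton.1 hψ]
    exact hok.2

theorem DN.app1 {R : Rule} (hR : R ∈ ceRules p) {Q C : Scheme} (hRe : R = ⟨[Q], C⟩)
    (σ : ℕ → Form V) (τ : ℕ → List (Form V)) {φ ψ : Form V} (hQ : Q.inst σ τ = [ψ])
    (hC : C.inst σ τ = [φ]) (hok : Ok P φ) {n : ℕ} (h : DN p P Φ n ψ) : DN p P Φ (n + 1) φ := by
  obtain ⟨Ls, h1, h2, h3, h4⟩ := h
  refine ⟨φ :: Ls, Lin.cons φ Ls h1 hok.1 (Or.inr ⟨R, hR, σ, τ, fun Q' hQ' χ hχ => ?_, ?_⟩),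
    List.mem_cons_self, by rw [List.length_cons]; omega, ?_⟩
  · rw [hRe] at hQ'
    rw [List.mem_singleton.1 hQ', hQ, List.mem_singleton] at hχ
    rw [hχ]
    exact h2
  · rw [hRe]
    exact hC
  · intro χ hχ
    rcases List.mem_cons.1 hχ with rfl | hχ
    · exact hok.2
    · exact h4 χ hχ

theorem DN.app2 {R : Rule} (hR : R ∈ ceRules p) {Q Q' C : Scheme} (hRe : R = ⟨[Q, Q'], C⟩)
    (σ : ℕ → Form V) (τ : ℕ → List (Form V)) {φ ψ ψ' : Form V} (hQ : Q.inst σ τ = [ψ])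
    (hQ' : Q'.inst σ τ = [ψ']) (hC : C.inst σ τ = [φ]) (hok : Ok P φ) {n m : ℕ}
    (h : DN p P Φ n ψ) (h' : DN p P Φ m ψ') : DN p P Φ (n + m + 1) φ := by
  obtain ⟨Ls, h1, h2, h3, h4⟩ := h
  obtain ⟨Ls', h1', h2', h3', h4'⟩ := h'
  refine ⟨φ :: (Ls ++ Ls'), Lin.cons φ _ (h1.append h1') hok.1
    (Or.inr ⟨R, hR, σ, τ, fun Q'' hQ'' χ hχ => ?_, ?_⟩),
    List.mem_cons_self, by rw [List.length_cons, List.length_append]; omega, ?_⟩
  · rw [hRe] at hQ''
    have hQ3 : Q'' = Q ∨ Q'' = Q' := by simpa using hQ''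
    rcases hQ3 with rfl | rfl
    · rw [hQ, List.mem_singleton] at hχ
      rw [hχ]
      exact List.mem_append_left _ h2
    · rw [hQ', List.mem_singleton] at hχ
      rw [hχ]
      exact List.mem_append_right _ h2'
  · rw [hRe]
    exact hC
  · intro χ hχ
    rcases List.mem_cons.1 hχ with rfl | hχ
    · exact hok.2
    · rcases List.mem_append.1 hχ with hχ | hχ
      · exact h4 χ hχ
      · exact h4' χ hχ

/-- Values of the formula metavariables. -/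
def sg (a b c : Form V) : ℕ → Form V := fun i => if i = 0 then a else if i = 1 then b else c

/-- Values of the list metavariables. -/
def tg (a b c e : List (Form V)) : ℕ → List (Form V) :=
  fun i => if i = 0 then a else if i = 1 then b else if i = 2 then c else e

theorem ce_mem {R : Rule} (h : R ∈ [kW, kEl, kEm, kSw, kP, kC0, kC1, kA, kB, kWm, kPr, kX0, kX1,
    kX2, kOne, kTop, kS0]) : R ∈ ceRules p := Or.inl h

variable {n m : ℕ} {φ ψ χ : Form V} {Λ Γ Δ Ξ : List (Form V)}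

theorem r_w (h : DN p P Φ n (disjL Λ)) (hok : Ok P (disjL (Λ ++ Γ))) :
    DN p P Φ (n + 1) (disjL (Λ ++ Γ)) := by
  refine DN.app1 (ce_mem (R := kW) (by simp)) rfl (sg falsum falsum falsum) (tg Λ Γ [] []) ?_ ?_ hok h <;>
  simp [inst_orS, i_list, tg]

theorem r_el (h : DN p P Φ n (disjL (φ :: (Λ ++ Γ)))) (h' : DN p P Φ m (disjL (.neg φ :: Γ)))
    (hok : Ok P (disjL (Λ ++ Γ))) : DN p P Φ (n + m + 1) (disjL (Λ ++ Γ)) := by
  refine DN.app2 (ce_mem (R := kEl) (by simp)) rfl (sg φ φ φ) (tg Λ Γ [] []) ?_ ?_ ?_ hok h h' <;>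
  simp [inst_orS, i_list, i_form, i_neg, tg, sg]

theorem r_em (hok : Ok P (disjL (.neg φ :: (Λ ++ φ :: Γ)))) :
    DN p P Φ 1 (disjL (.neg φ :: (Λ ++ φ :: Γ))) := by
  refine DN.app0 (ce_mem (R := kEm) (by simp)) rfl (sg φ φ φ) (tg Λ Γ [] []) ?_ hok
  simp [inst_orS, i_list, i_form, i_neg, tg, sg]

theorem r_sw (h : DN p P Φ n (disjL [φ, ψ])) (hok : Ok P (disjL [ψ, φ])) :
    DN p P Φ (n + 1) (disjL [ψ, φ]) := by
  refine DN.app1 (ce_mem (R := kSw) (by simp)) rfl (sg φ ψ φ) (tg [] [] [] []) ?_ ?_ hok h <;>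
  simp [inst_orS, i_form, sg]

theorem r_p (h : DN p P Φ n (disjL [.neg φ, .neg ψ]))
    (hok : Ok P (disjL (.neg φ :: .neg (conjL (Λ ++ ψ :: Γ)) :: Δ))) :
    DN p P Φ (n + 1) (disjL (.neg φ :: .neg (conjL (Λ ++ ψ :: Γ)) :: Δ)) := by
  refine DN.app1 (ce_mem (R := kP) (by simp)) rfl (sg φ ψ φ) (tg Λ Γ Δ []) ?_ ?_ hok h <;>
  simp [inst_orS, inst_andS, i_form, i_list, i_neg, sg, tg]

theorem r_c0 (hok : Ok P (disjL [φ, ψ, conjL []])) : DN p P Φ 1 (disjL [φ, ψ, conjL []]) := by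
  refine DN.app0 (ce_mem (R := kC0) (by simp)) rfl (sg φ ψ φ) (tg [] [] [] []) ?_ hok
  simp [inst_orS, inst_andS, i_list, i_form, i_neg, tg, sg]

theorem r_c1 (h : DN p P Φ n (disjL [φ, ψ, conjL Λ])) (h' : DN p P Φ m (disjL [φ, ψ, χ]))
    (hok : Ok P (disjL [φ, ψ, conjL (χ :: Λ)])) :
    DN p P Φ (n + m + 1) (disjL [φ, ψ, conjL (χ :: Λ)]) := by
  refine DN.app2 (ce_mem (R := kC1) (by simp)) rfl (sg φ ψ χ) (tg Λ [] [] []) ?_ ?_ ?_ hok h h' <;>
  simp [inst_orS, inst_andS, i_list, i_form, i_neg, tg, sg]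

theorem r_a (hok : Ok P (disjL [.neg φ, ψ, φ])) : DN p P Φ 1 (disjL [.neg φ, ψ, φ]) := by
  refine DN.app0 (ce_mem (R := kA) (by simp)) rfl (sg φ ψ φ) (tg [] [] [] []) ?_ hok
  simp [inst_orS, inst_andS, i_list, i_form, i_neg, tg, sg]

theorem r_b (hok : Ok P (disjL [ψ, .neg (conjL (Λ ++ φ :: Γ)), φ])) :
    DN p P Φ 1 (disjL [ψ, .neg (conjL (Λ ++ φ :: Γ)), φ]) := by
  refine DN.app0 (ce_mem (R := kB) (by simp)) rfl (sg φ ψ φ) (tg Λ Γ [] []) ?_ hok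
  simp [inst_orS, inst_andS, i_list, i_form, i_neg, tg, sg]

theorem r_wm (h : DN p P Φ n (disjL [φ, ψ, χ])) (hok : Ok P (disjL (φ :: ψ :: (Λ ++ χ :: Γ)))) :
    DN p P Φ (n + 1) (disjL (φ :: ψ :: (Λ ++ χ :: Γ))) := by
  refine DN.app1 (ce_mem (R := kWm) (by simp)) rfl (sg φ ψ χ) (tg Λ Γ [] []) ?_ ?_ hok h <;>
  simp [inst_orS, i_form, i_list, sg, tg]

theorem r_pr (h : DN p P Φ n (disjL [.neg φ, .neg ψ]))
    (hok : Ok P (disjL [.neg (conjL (Λ ++ φ :: Γ)), .neg (conjL (Δ ++ ψ :: Ξ))])) :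
    DN p P Φ (n + 1) (disjL [.neg (conjL (Λ ++ φ :: Γ)), .neg (conjL (Δ ++ ψ :: Ξ))]) := by
  refine DN.app1 (ce_mem (R := kPr) (by simp)) rfl (sg φ ψ φ) (tg Λ Γ Δ Ξ) ?_ ?_ hok h <;>
  simp [inst_orS, inst_andS, i_form, i_list, i_neg, sg, tg]

theorem r_x0 (hok : Ok P (disjL [.neg φ, .neg (disjL [])])) :
    DN p P Φ 1 (disjL [.neg φ, .neg (disjL [])]) := by
  refine DN.app0 (ce_mem (R := kX0) (by simp)) rfl (sg φ φ φ) (tg [] [] [] []) ?_ hok
  simp [inst_orS, inst_andS, i_list, i_form, i_neg, tg, sg]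

theorem r_x1 (h : DN p P Φ n (disjL [.neg φ, .neg (disjL Λ)]))
    (h' : DN p P Φ m (disjL [.neg φ, .neg ψ])) (hok : Ok P (disjL [.neg φ, .neg (disjL (ψ :: Λ))])) :
    DN p P Φ (n + m + 1) (disjL [.neg φ, .neg (disjL (ψ :: Λ))]) := by
  refine DN.app2 (ce_mem (R := kX1) (by simp)) rfl (sg φ ψ φ) (tg Λ [] [] []) ?_ ?_ ?_ hok h h' <;>
  simp [inst_orS, inst_andS, i_list, i_form, i_neg, tg, sg]

theorem r_x2 (h : DN p P Φ n (disjL [.neg φ, .neg (disjL (Λ ++ Γ))]))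
    (hok : Ok P (disjL [.neg φ, countL 1 (Λ ++ φ :: Γ)])) :
    DN p P Φ (n + 1) (disjL [.neg φ, countL 1 (Λ ++ φ :: Γ)]) := by
  refine DN.app1 (ce_mem (R := kX2) (by simp)) rfl (sg φ φ φ) (tg Λ Γ [] []) ?_ ?_ hok h <;>
  simp [inst_orS, inst_modS, i_form, i_list, i_neg, sg, tg]

theorem r_one (h : DN p P Φ n (disjL [φ])) (hok : Ok P φ) : DN p P Φ (n + 1) φ := by
  refine DN.app1 (ce_mem (R := kOne) (by simp)) rfl (sg φ φ φ) (tg [] [] [] []) ?_ ?_ hok h <;>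
  simp [inst_orS, i_form, sg]

theorem r_top (hok : Ok P (disjL [conjL ([] : List (Form V))])) :
    DN p P Φ 1 (disjL [conjL ([] : List (Form V))]) := by
  refine DN.app0 (ce_mem (R := kTop) (by simp)) rfl (sg falsum falsum falsum) (tg [] [] [] []) ?_ hok
  simp [inst_orS, inst_andS, i_list, i_form, i_neg, tg, sg]

theorem r_s0 (hok : Ok P (countL 0 ([] : List (Form V)))) :
    DN p P Φ 1 (countL 0 ([] : List (Form V))) := by
  refine DN.app0 (ce_mem (R := kS0) (by simp)) rfl (sg falsum falsum falsum) (tg [] [] [] []) ?_ hok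
  simp [inst_modS]

theorem r_s1 {c : ℕ} (hc : c < p) (h : DN p P Φ n (countL c Λ)) (h' : DN p P Φ m (countL 1 Γ))
    (hok : Ok P (countL ((c + 1) % p) (Γ ++ Λ))) :
    DN p P Φ (n + m + 1) (countL ((c + 1) % p) (Γ ++ Λ)) := by
  refine DN.app2 (R := kS1 p c) (Or.inr ⟨c, hc, Or.inl rfl⟩) rfl (sg falsum falsum falsum)
    (tg Λ Γ [] []) ?_ ?_ ?_ hok h h' <;>
  simp [inst_modS, i_list, tg]

theorem r_mv {c : ℕ} (hc : c < p) (h : DN p P Φ n (countL c (Λ ++ φ :: Γ)))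
    (hok : Ok P (countL c (φ :: (Λ ++ Γ)))) : DN p P Φ (n + 1) (countL c (φ :: (Λ ++ Γ))) := by
  refine DN.app1 (R := kMv c) (Or.inr ⟨c, hc, Or.inr (Or.inl rfl)⟩) rfl (sg φ φ φ)
    (tg Λ Γ [] []) ?_ ?_ hok h <;>
  simp [inst_modS, i_list, i_form, tg, sg]

theorem r_del {c : ℕ} (hc : c < p) (h : DN p P Φ n (countL c (List.replicate p φ ++ Λ)))
    (hok : Ok P (countL c Λ)) : DN p P Φ (n + 1) (countL c Λ) := by
  refine DN.app1 (R := kDel p c) (Or.inr ⟨c, hc, Or.inr (Or.inr (Or.inl rfl))⟩) rfl (sg φ φ φ)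
    (tg Λ [] [] []) ?_ ?_ hok h
  · rw [inst_modS, List.flatMap_append, flatMap_replicate]
    simp [i_list, tg, sg]
  · simp [inst_modS, i_list, tg]

theorem r_end {c : ℕ} (hc : c < p) (hc0 : c ≠ 0) (h : DN p P Φ n (countL c [])) :
    DN p P Φ (n + 1) (falsum : Form V) := by
  refine DN.app1 (R := kEnd c) (Or.inr ⟨c, hc, Or.inr (Or.inr (Or.inr ⟨hc0, rfl⟩))⟩) rfl
    (sg falsum falsum falsum) (tg [] [] [] []) ?_ ?_ ⟨?_, ?_⟩ h
  · simp [inst_modS]
  · have h1 : (falsum : Form V) = disjL [] := by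
      unfold falsum disjL
      congr 1
      funext i
      exact i.elim0
    rw [h1]
    simp [inst_orS]
  · exact Nat.zero_le 3
  · have := h.ok.2
    rw [wt_countL] at this
    have h1 : wt (falsum : Form V) = 1 := by
      simp [falsum, wt]
    omega

end Pool.Agent.MP_9cec2c_lc.CE
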