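import Pool.Agent.Lib.MP_9cec2c_lc.CDDefs
import Pool.Agent.Lib.MP_9cec2c_lc.Mg.G060

/-!
The finite set of rules `stdRules p` is implicationally complete.
-/

set_option autoImplicit false
set_option linter.unusedSectionVars false
set_option linter.unusedSimpArgs false

namespace Pool.Agent.MP_9cec2c_lc.FG

open Finset

variable {V : Type} {p d : ℕ} {S : Set Rule} {Φ : Set (Form V)}

/-! ### Derivations as lists -/

/-- Derivations as lists, the last line first. -/
inductive Lin (S : Set Rule) (d : ℕ) (Φ : Set (Form V)) : List (Form V) → Prop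
  | nil : Lin S d Φ []
  | cons (φ : Form V) (Ls : List (Form V)) (h : Lin S d Φ Ls) (hd : φ.depth ≤ d)
      (hr : φ ∈ Φ ∨ ∃ R ∈ S, R.Derives {ψ | ψ ∈ Ls} φ) : Lin S d Φ (φ :: Ls)

theorem Rule.Derives.mono {R : Rule} {E E' : Set (Form V)} (h : E ⊆ E') {φ : Form V}
    (hR : R.Derives E φ) : R.Derives E' φ := by
  obtain ⟨σ, τ, h1, h2⟩ := hR
  exact ⟨σ, τ, fun P hP ψ hψ => h (h1 P hP ψ hψ), h2⟩

theorem Lin.append {A B : List (Form V)} (hA : Lin S d Φ A) (hB : Lin S d Φ B) :
    Lin S d Φ (A ++ B) := by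
  induction hA with
  | nil => exact hB
  | cons φ Ls h hd hr ih =>
    refine Lin.cons φ _ ih hd ?_
    rcases hr with hr | ⟨R, hR, hr⟩
    · exact Or.inl hr
    · exact Or.inr ⟨R, hR, hr.mono fun ψ hψ => List.mem_append.2 (Or.inl hψ)⟩

/-- The formula has a derivation. -/
def Der (S : Set Rule) (d : ℕ) (Φ : Set (Form V)) (φ : Form V) : Prop :=
  ∃ Ls, Lin S d Φ Ls ∧ φ ∈ Ls

theorem Der.ax {φ : Form V} (h : φ ∈ Φ) (hd : φ.depth ≤ d) : Der S d Φ φ :=
  ⟨[φ], Lin.cons φ [] Lin.nil hd (Or.inl h), List.mem_singleton.2 rfl⟩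

theorem der_all (Ψ : List (Form V)) (h : ∀ φ ∈ Ψ, Der S d Φ φ) :
    ∃ Ls, Lin S d Φ Ls ∧ ∀ φ ∈ Ψ, φ ∈ Ls := by
  induction Ψ with
  | nil => exact ⟨[], Lin.nil, fun φ hφ => absurd hφ List.not_mem_nil⟩
  | cons ψ Ψ ih =>
    obtain ⟨A, hA, hA'⟩ := ih fun φ hφ => h φ (List.mem_cons_of_mem _ hφ)
    obtain ⟨B, hB, hB'⟩ := h ψ List.mem_cons_self
    refine ⟨A ++ B, hA.append hB, fun φ hφ => ?_⟩
    rcases List.mem_cons.1 hφ with rfl | hφ
    · exact List.mem_append.2 (Or.inr hB')
    · exact List.mem_append.2 (Or.inl (hA' φ hφ))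

theorem Der.rule {R : Rule} (hR : R ∈ S) (σ : ℕ → Form V) (τ : ℕ → List (Form V))
    (h : ∀ P ∈ R.premises, ∀ ψ ∈ P.inst σ τ, Der S d Φ ψ) {φ : Form V}
    (hφ : R.conclusion.inst σ τ = [φ]) (hd : φ.depth ≤ d) : Der S d Φ φ := by
  obtain ⟨Ls, h1, h2⟩ := der_all (R.premises.flatMap fun P => P.inst σ τ) (by
    intro ψ hψ
    obtain ⟨P, hP, hψ⟩ := List.mem_flatMap.1 hψ
    exact h P hP ψ hψ)
  refine ⟨φ :: Ls, Lin.cons φ Ls h1 hd (Or.inr ⟨R, hR, σ, τ, fun P hP ψ hψ => ?_, hφ⟩),
    List.mem_cons_self⟩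
  exact h2 ψ (List.mem_flatMap.2 ⟨P, hP, hψ⟩)

theorem Lin.get {Ls : List (Form V)} (h : Lin S d Φ Ls) (i : Fin Ls.length) :
    (Ls.get i).depth ≤ d ∧ (Ls.get i ∈ Φ ∨ ∃ R ∈ S,
      R.Derives {ψ | ∃ j, i < j ∧ Ls.get j = ψ} (Ls.get i)) := by
  induction h with
  | nil => exact i.elim0
  | cons φ Ls h hd hr ih =>
    refine Fin.cases ?_ (fun i => ?_) i
    · refine ⟨hd, ?_⟩
      rcases hr with hr | ⟨R, hR, hr⟩
      · exact Or.inl hr
      · refine Or.inr ⟨R, hR, hr.mono fun ψ hψ => ?_⟩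
        obtain ⟨j, hj⟩ := List.get_of_mem hψ
        exact ⟨j.succ, Fin.succ_pos j, hj⟩
    · obtain ⟨h1, h2⟩ := ih i
      refine ⟨h1, ?_⟩
      rcases h2 with h2 | ⟨R, hR, h2⟩
      · exact Or.inl h2
      · refine Or.inr ⟨R, hR, h2.mono ?_⟩
        rintro ψ ⟨j, hj, hj'⟩
        exact ⟨j.succ, Fin.succ_lt_succ_iff.2 hj, hj'⟩

/-- From lists to sequences. -/
theorem Der.exists {φ : Form V} (h : Der S d Φ φ) :
    ∃ (l : ℕ) (L : Fin l → Form V), IsDerivation S d Φ L ∧ ∃ i, L i = φ := by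
  obtain ⟨Ls, h1, h2⟩ := h
  refine ⟨Ls.length, fun i => Ls.get i.rev, fun i => ?_, ?_⟩
  · obtain ⟨h3, h4⟩ := h1.get i.rev
    refine ⟨h3, ?_⟩
    rcases h4 with h4 | ⟨R, hR, h4⟩
    · exact Or.inl h4
    · refine Or.inr ⟨R, hR, h4.mono ?_⟩
      rintro ψ ⟨j, hj, hj'⟩
      refine ⟨j.rev, Fin.rev_lt_iff.1 hj, ?_⟩
      show Ls.get (Fin.rev (Fin.rev j)) = ψ
      rw [Fin.rev_rev]
      exact hj'
  · obtain ⟨i, hi⟩ := List.get_of_mem h2
    refine ⟨i.rev, ?_⟩
    show Ls.get (Fin.rev (Fin.rev i)) = φ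
    rw [Fin.rev_rev]
    exact hi

/-! ### Conversion between lists and families -/

theorem disj_eq (m : ℕ) (F : Fin m → Form V) : Form.disj m F = disjL (List.ofFn F) := by
  have key : ∀ (n : ℕ) (h : m = n) (G : Fin n → Form V), (∀ i, F i = G (Fin.cast h i)) →
      Form.disj m F = Form.disj n G := by
    intro n h G hG
    subst h
    congr 1
    funext i
    exact hG i
  refine key _ (List.length_ofFn).symm _ fun i => ?_
  simp

theorem conj_eq (m : ℕ) (F : Fin m → Form V) : Form.conj m F = conjL (List.ofFn F) := by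
  have key : ∀ (n : ℕ) (h : m = n) (G : Fin n → Form V), (∀ i, F i = G (Fin.cast h i)) →
      Form.conj m F = Form.conj n G := by
    intro n h G hG
    subst h
    congr 1
    funext i
    exact hG i
  refine key _ (List.length_ofFn).symm _ fun i => ?_
  simp

theorem count_eq (r m : ℕ) (F : Fin m → Form V) :
    Form.count r m F = countL r (List.ofFn F) := by
  have key : ∀ (n : ℕ) (h : m = n) (G : Fin n → Form V), (∀ i, F i = G (Fin.cast h i)) →
      Form.count r m F = Form.count r n G := by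
    intro n h G hG
    subst h
    congr 1
    funext i
    exact hG i
  refine key _ (List.length_ofFn).symm _ fun i => ?_
  simp

open Classical in
theorem depth_disjL_le {Λ : List (Form V)} {e : ℕ} :
    (disjL Λ).depth ≤ e ↔ ∀ φ ∈ Λ, φ.depth + (if φ.IsDisj then 0 else 1) ≤ e := by
  have h1 : (disjL Λ).depth = Finset.univ.sup fun i =>
    (Λ.get i).depth + if (Λ.get i).IsDisj then 0 else 1 := rfl
  rw [h1, Finset.sup_le_iff]
  constructor
  · intro h φ hφ
    obtain ⟨i, hi⟩ := List.get_of_mem hφ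
    rw [← hi]
    exact h i (mem_univ i)
  · intro h i _
    exact h _ (List.get_mem Λ i)

open Classical in
theorem depth_conjL_le {Λ : List (Form V)} {e : ℕ} :
    (conjL Λ).depth ≤ e ↔ ∀ φ ∈ Λ, φ.depth + (if φ.IsConj then 0 else 1) ≤ e := by
  have h1 : (conjL Λ).depth = Finset.univ.sup fun i =>
    (Λ.get i).depth + if (Λ.get i).IsConj then 0 else 1 := rfl
  rw [h1, Finset.sup_le_iff]
  constructor
  · intro h φ hφ
    obtain ⟨i, hi⟩ := List.get_of_mem hφ
    rw [← hi]
    exact h i (mem_univ i)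
  · intro h i _
    exact h _ (List.get_mem Λ i)

theorem depth_countL_le {r : ℕ} {Λ : List (Form V)} {e : ℕ} :
    (countL r Λ).depth ≤ e ↔ ∀ φ ∈ Λ, φ.depth + 1 ≤ e := by
  have h1 : (countL r Λ).depth = Finset.univ.sup fun i => (Λ.get i).depth + 1 := rfl
  rw [h1, Finset.sup_le_iff]
  constructor
  · intro h φ hφ
    obtain ⟨i, hi⟩ := List.get_of_mem hφ
    rw [← hi]
    exact h i (mem_univ i)
  · intro h i _
    exact h _ (List.get_mem Λ i)

open Classical in
/-- The formula or its negation, whichever is true. -/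
noncomputable def Form.tru (p : ℕ) (x : V → Bool) (φ : Form V) : Form V :=
  if φ.eval p x then φ else .neg φ

/-- The disjunction of the list `Γ` and one more formula. -/
def wk (Γ : List (Form V)) (φ : Form V) : Form V := disjL (Γ ++ [φ])

theorem depth_wk {Γ : List (Form V)} (hΓ : ∀ ψ ∈ Γ, ψ.depth = 0) {φ : Form V}
    (hd : φ.depth + 1 ≤ d) : (wk Γ φ).depth ≤ d := by
  classical
  unfold wk
  rw [depth_disjL_le]
  intro ψ hψ
  rcases List.mem_append.1 hψ with h | h
  · rw [hΓ ψ h]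
    split_ifs <;> omega
  · rw [List.mem_singleton.1 h]
    split_ifs <;> omega

section kalmar

variable {Γ : List (Form V)}

theorem std_mem {R : Rule} (h : R ∈ [rEm, rEm', rNeg, rOr, rOr0, rOr1, rAnd0, rAnd1, rAnd, rMod0,
    rCut, rAbs, rOne]) : R ∈ stdRules p := Or.inl h

/-- The values of the metavariables. -/
def sig (A B : Form V) : ℕ → Form V := fun i => if i = 0 then A else B

/-- The values of the metavariables. -/
def tau (G M N : List (Form V)) : ℕ → List (Form V) :=
  fun i => if i = 0 then G else if i = 1 then M else N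

theorem d_em (hΓ : ∀ ψ ∈ Γ, ψ.depth = 0) {φ : Form V} (hd : φ.depth + 1 ≤ d)
    (h : Form.neg φ ∈ Γ) : Der (stdRules p) d Φ (wk Γ φ) := by
  obtain ⟨Γ₁, Γ₂, h1⟩ := List.append_of_mem h
  refine Der.rule (R := rEm') (std_mem (by simp)) (sig φ φ) (tau Γ₁ Γ₂ []) ?_ ?_
    (depth_wk hΓ hd)
  · intro P hP
    exact absurd hP List.not_mem_nil
  · show (orS [lG, .neg fA, lM, fA]).inst _ _ = _
    rw [inst_orS]
    unfold wk
    rw [h1]
    simp [sig, tau, Scheme.inst]

theorem d_em' (hΓ : ∀ ψ ∈ Γ, ψ.depth = 0) {φ : Form V} (hd : φ.depth + 1 ≤ d)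
    (h : φ ∈ Γ) : Der (stdRules p) d Φ (wk Γ (.neg φ)) := by
  obtain ⟨Γ₁, Γ₂, h1⟩ := List.append_of_mem h
  refine Der.rule (R := rEm) (std_mem (by simp)) (sig φ φ) (tau Γ₁ Γ₂ []) ?_ ?_
    (depth_wk hΓ hd)
  · intro P hP
    exact absurd hP List.not_mem_nil
  · show (orS [lG, fA, lM, .neg fA]).inst _ _ = _
    rw [inst_orS]
    unfold wk
    rw [h1]
    simp [sig, tau, Scheme.inst]

/-- Rules with one premise. -/
theorem d_one {R : Rule} (hR : R ∈ stdRules p) {P Q : Scheme} (hP : R.premises = [P])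
    (hQ : R.conclusion = Q) (σ : ℕ → Form V) (τ : ℕ → List (Form V)) {φ ψ : Form V}
    (h1 : P.inst σ τ = [φ]) (h2 : Q.inst σ τ = [ψ]) (hd : ψ.depth ≤ d)
    (h : Der (stdRules p) d Φ φ) : Der (stdRules p) d Φ ψ := by
  refine Der.rule hR σ τ (fun P' hP' χ hχ => ?_) (by rw [hQ]; exact h2) hd
  rw [hP] at hP'
  rw [List.mem_singleton.1 hP', h1] at hχ
  rwa [List.mem_singleton.1 hχ]

/-- Rules with two premises. -/
theorem d_two {R : Rule} (hR : R ∈ stdRules p) {P P' Q : Scheme} (hP : R.premises = [P, P'])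
    (hQ : R.conclusion = Q) (σ : ℕ → Form V) (τ : ℕ → List (Form V)) {φ φ' ψ : Form V}
    (h1 : P.inst σ τ = [φ]) (h1' : P'.inst σ τ = [φ']) (h2 : Q.inst σ τ = [ψ])
    (hd : ψ.depth ≤ d)
    (h : Der (stdRules p) d Φ φ) (h' : Der (stdRules p) d Φ φ') :
    Der (stdRules p) d Φ ψ := by
  refine Der.rule hR σ τ (fun P'' hP'' χ hχ => ?_) (by rw [hQ]; exact h2) hd
  rw [hP] at hP''
  rcases List.mem_cons.1 hP'' with rfl | h3
  · rw [h1] at hχ
    rwa [List.mem_singleton.1 hχ]
  · rw [List.mem_singleton.1 h3, h1'] at hχ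
    rwa [List.mem_singleton.1 hχ]

theorem inst_ctx {σ : ℕ → Form V} {M N : List (Form V)} {X : Scheme} {φ : Form V}
    (h : X.inst σ (tau Γ M N) = [φ]) : (orS [lG, X]).inst σ (tau Γ M N) = [wk Γ φ] := by
  rw [inst_orS, List.flatMap_cons, List.flatMap_cons, List.flatMap_nil, h, List.append_nil]
  rfl

theorem inst_mid {Λ₁ Λ₂ : List (Form V)} {φ ψ : Form V} :
    ([lM, fA, lN].flatMap fun P => P.inst (sig φ ψ) (tau Γ Λ₁ Λ₂)) = Λ₁ ++ φ :: Λ₂ := by
  show Λ₁ ++ ([φ] ++ (Λ₂ ++ [])) = _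
  rw [List.append_nil]
  rfl

theorem inst_last {Λ : List (Form V)} {φ ψ : Form V} :
    ([lM, fA].flatMap fun P => P.inst (sig φ ψ) (tau Γ Λ [])) = Λ ++ [φ] := by
  show Λ ++ ([φ] ++ []) = _
  rw [List.append_nil]

theorem inst_only {Λ : List (Form V)} {φ ψ : Form V} :
    ([lM].flatMap fun P => P.inst (sig φ ψ) (tau Γ Λ [])) = Λ := by
  show Λ ++ [] = _
  rw [List.append_nil]

theorem map_neg_single {P : Scheme} {σ : ℕ → Form V} {τ : ℕ → List (Form V)} {φ : Form V}
    (h : P.inst σ τ = [φ]) : (Scheme.neg P).inst σ τ = [.neg φ] := by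
  show (P.inst σ τ).map Form.neg = _
  rw [h]
  rfl

theorem d_neg (hΓ : ∀ ψ ∈ Γ, ψ.depth = 0) {φ : Form V} (hd : φ.depth + 1 ≤ d)
    (h : Der (stdRules p) d Φ (wk Γ φ)) : Der (stdRules p) d Φ (wk Γ (.neg (.neg φ))) :=
  d_one (R := rNeg) (std_mem (by simp)) rfl rfl (sig φ φ) (tau Γ [] []) (inst_ctx rfl)
    (inst_ctx rfl) (depth_wk hΓ hd) h

theorem d_or (hΓ : ∀ ψ ∈ Γ, ψ.depth = 0) {φ : Form V} {Λ : List (Form V)}
    (hd : (disjL Λ).depth + 1 ≤ d) (hφ : φ ∈ Λ)
    (h : Der (stdRules p) d Φ (wk Γ φ)) : Der (stdRules p) d Φ (wk Γ (disjL Λ)) := by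
  obtain ⟨Λ₁, Λ₂, h1⟩ := List.append_of_mem hφ
  refine d_one (R := rOr) (std_mem (by simp)) rfl rfl (sig φ φ) (tau Γ Λ₁ Λ₂) (inst_ctx rfl)
    (inst_ctx ?_) (depth_wk hΓ hd) h
  rw [inst_orS, inst_mid, h1]

theorem d_and (hΓ : ∀ ψ ∈ Γ, ψ.depth = 0) {φ : Form V} {Λ : List (Form V)}
    (hd : (conjL Λ).depth + 1 ≤ d) (hφ : φ ∈ Λ)
    (h : Der (stdRules p) d Φ (wk Γ (.neg φ))) :
    Der (stdRules p) d Φ (wk Γ (.neg (conjL Λ))) := by
  obtain ⟨Λ₁, Λ₂, h1⟩ := List.append_of_mem hφ
  refine d_one (R := rAnd) (std_mem (by simp)) rfl rfl (sig φ φ) (tau Γ Λ₁ Λ₂)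
    (inst_ctx (map_neg_single rfl)) (inst_ctx (map_neg_single ?_)) (depth_wk hΓ hd) h
  rw [inst_andS, inst_mid, h1]

theorem d_or_false (hΓ : ∀ ψ ∈ Γ, ψ.depth = 0) (Λ : List (Form V))
    (hd : (disjL Λ).depth + 1 ≤ d)
    (h : ∀ φ ∈ Λ, Der (stdRules p) d Φ (wk Γ (.neg φ))) :
    Der (stdRules p) d Φ (wk Γ (.neg (disjL Λ))) := by
  classical
  induction Λ using List.reverseRecOn with
  | nil =>
    refine Der.rule (R := rOr0) (std_mem (by simp)) (sig (disjL []) (disjL [])) (tau Γ [] []) ?_ ?_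
      (depth_wk hΓ hd)
    · intro P hP
      exact absurd hP List.not_mem_nil
    · exact inst_ctx (map_neg_single rfl)
  | append_singleton Λ φ ih =>
    have h1 : (disjL Λ).depth ≤ (disjL (Λ ++ [φ])).depth := by
      rw [depth_disjL_le]
      intro ψ hψ
      exact depth_disjL_le.1 le_rfl ψ (List.mem_append.2 (Or.inl hψ))
    have h2 := ih (by omega) fun ψ hψ => h ψ (List.mem_append.2 (Or.inl hψ))
    refine d_two (R := rOr1) (std_mem (by simp)) rfl rfl (sig φ φ) (tau Γ Λ [])
      (inst_ctx (map_neg_single ?_)) (inst_ctx (map_neg_single rfl))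
      (inst_ctx (map_neg_single ?_)) (depth_wk hΓ hd) h2
      (h φ (List.mem_append.2 (Or.inr (List.mem_singleton.2 rfl))))
    · rw [inst_orS, inst_only]
    · rw [inst_orS, inst_last]

theorem d_and_true (hΓ : ∀ ψ ∈ Γ, ψ.depth = 0) (Λ : List (Form V))
    (hd : (conjL Λ).depth + 1 ≤ d)
    (h : ∀ φ ∈ Λ, Der (stdRules p) d Φ (wk Γ φ)) :
    Der (stdRules p) d Φ (wk Γ (conjL Λ)) := by
  classical
  induction Λ using List.reverseRecOn with
  | nil =>
    refine Der.rule (R := rAnd0) (std_mem (by simp)) (sig (disjL []) (disjL [])) (tau Γ [] []) ?_ ?_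
      (depth_wk hΓ hd)
    · intro P hP
      exact absurd hP List.not_mem_nil
    · exact inst_ctx rfl
  | append_singleton Λ φ ih =>
    have h1 : (conjL Λ).depth ≤ (conjL (Λ ++ [φ])).depth := by
      rw [depth_conjL_le]
      intro ψ hψ
      exact depth_conjL_le.1 le_rfl ψ (List.mem_append.2 (Or.inl hψ))
    have h2 := ih (by omega) fun ψ hψ => h ψ (List.mem_append.2 (Or.inl hψ))
    refine d_two (R := rAnd1) (std_mem (by simp)) rfl rfl (sig φ φ) (tau Γ Λ [])
      (inst_ctx ?_) (inst_ctx rfl)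
      (inst_ctx ?_) (depth_wk hΓ hd) h2
      (h φ (List.mem_append.2 (Or.inr (List.mem_singleton.2 rfl))))
    · rw [inst_andS, inst_only]
    · rw [inst_andS, inst_last]

theorem d_count (hΓ : ∀ ψ ∈ Γ, ψ.depth = 0) (x : V → Bool) (hp : 0 < p) (Λ : List (Form V))
    (hd : (countL 0 Λ).depth + 1 ≤ d)
    (h : ∀ φ ∈ Λ, Der (stdRules p) d Φ (wk Γ (φ.tru p x))) :
    Der (stdRules p) d Φ (wk Γ (countL (ct p x Λ % p) Λ)) := by
  classical
  have hdep : ∀ (r s : ℕ) (Λ : List (Form V)), (countL r Λ).depth = (countL s Λ).depth :=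
    fun r s Λ => rfl
  induction Λ using List.reverseRecOn with
  | nil =>
    have h0 : ct p x ([] : List (Form V)) % p = 0 := by
      rw [ct_nil, Nat.zero_mod]
    rw [h0]
    refine Der.rule (R := rMod0) (std_mem (by simp)) (sig (disjL []) (disjL [])) (tau Γ [] []) ?_ ?_
      (depth_wk hΓ hd)
    · intro P hP
      exact absurd hP List.not_mem_nil
    · exact inst_ctx rfl
  | append_singleton Λ φ ih =>
    have h1 : (countL 0 Λ).depth ≤ (countL 0 (Λ ++ [φ])).depth := by
      rw [depth_countL_le]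
      intro ψ hψ
      exact depth_countL_le.1 le_rfl ψ (List.mem_append.2 (Or.inl hψ))
    have h2 := ih (by omega) fun ψ hψ => h ψ (List.mem_append.2 (Or.inl hψ))
    have h3 := h φ (List.mem_append.2 (Or.inr (List.mem_singleton.2 rfl)))
    have hs : ct p x Λ % p < p := Nat.mod_lt _ hp
    by_cases hφ : φ.eval p x
    · have h4 : φ.tru p x = φ := if_pos hφ
      rw [h4] at h3
      have h5 : ct p x (Λ ++ [φ]) % p = (ct p x Λ % p + 1) % p := by
        rw [ct_append, ct_single, if_pos hφ, Nat.mod_add_mod]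
      rw [h5]
      refine d_two (R := rMod1 p (ct p x Λ % p))
        (Or.inr ⟨_, hs, _, hs, Or.inl rfl⟩) rfl rfl (sig φ φ) (tau Γ Λ [])
        (inst_ctx ?_) (inst_ctx rfl) (inst_ctx ?_)
        (depth_wk hΓ (by rw [hdep _ 0]; exact hd)) h2 h3
      · rw [inst_modS, inst_only]
      · rw [inst_modS, inst_last]
    · have h4 : φ.tru p x = .neg φ := if_neg hφ
      rw [h4] at h3
      have h5 : ct p x (Λ ++ [φ]) % p = ct p x Λ % p := by
        rw [ct_append, ct_single, if_neg hφ, add_zero]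
      rw [h5]
      refine d_two (R := rMod2 (ct p x Λ % p))
        (Or.inr ⟨_, hs, _, hs, Or.inr (Or.inl rfl)⟩) rfl rfl (sig φ φ) (tau Γ Λ [])
        (inst_ctx ?_) (inst_ctx (map_neg_single rfl)) (inst_ctx ?_)
        (depth_wk hΓ (by rw [hdep _ 0]; exact hd)) h2 h3
      · rw [inst_modS, inst_only]
      · rw [inst_modS, inst_last]

/-- All true formulas are derivable from the false literals. -/
theorem kalmar (hΓ : ∀ ψ ∈ Γ, ψ.depth = 0) (x : V → Bool) (hp : 0 < p)
    (h1 : ∀ v, x v = true → Form.neg (.var v) ∈ Γ) (h2 : ∀ v, x v = false → Form.var v ∈ Γ)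
    (φ : Form V) (hs : φ.Small p) (hd : φ.depth + 1 ≤ d) :
    Der (stdRules p) d Φ (wk Γ (φ.tru p x)) := by
  classical
  induction φ with
  | var v =>
    cases hv : x v with
    | true =>
      have h3 : (Form.var v).tru p x = .var v := if_pos hv
      rw [h3]
      exact d_em hΓ hd (h1 v hv)
    | false =>
      have h3 : (Form.var v).tru p x = .neg (.var v) := if_neg (by
        show ¬ x v = true
        rw [hv]
        exact Bool.noConfusion)
      rw [h3]
      exact d_em' hΓ hd (h2 v hv)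
  | neg φ ih =>
    have h3 := ih hs hd
    by_cases hφ : φ.eval p x
    · have h4 : φ.tru p x = φ := if_pos hφ
      have h5 : (Form.neg φ).tru p x = .neg (.neg φ) := if_neg fun h => h hφ
      rw [h4] at h3
      rw [h5]
      exact d_neg hΓ hd h3
    · have h4 : φ.tru p x = .neg φ := if_neg hφ
      have h5 : (Form.neg φ).tru p x = .neg φ := if_pos hφ
      rw [h5, ← h4]
      exact h3
  | conj m F ih =>
    have hF : ∀ i, (F i).depth + 1 ≤ d := by
      intro i
      have h3 := depth_parts (V := V) (φ := F i) (ψ := .conj m F)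
        (Set.mem_insert_of_mem _ (Set.mem_iUnion.2 ⟨i, self_mem_parts _⟩))
      omega
    have ih' := fun i => ih i (hs i) (hF i)
    rw [conj_eq] at hd ⊢
    have hmem : ∀ φ ∈ List.ofFn F, ∃ i, F i = φ := fun φ hφ => List.mem_ofFn.1 hφ
    by_cases hφ : (conjL (List.ofFn F)).eval p x
    · have h4 : (conjL (List.ofFn F)).tru p x = conjL (List.ofFn F) := if_pos hφ
      rw [h4]
      refine d_and_true hΓ _ hd fun φ hφ' => ?_
      obtain ⟨i, rfl⟩ := hmem φ hφ'
      have h5 : (F i).tru p x = F i := if_pos ((eval_conjL x _).1 hφ _ hφ')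
      rw [← h5]
      exact ih' i
    · have h4 : (conjL (List.ofFn F)).tru p x = .neg (conjL (List.ofFn F)) := if_neg hφ
      rw [h4]
      rw [eval_conjL] at hφ
      push Not at hφ
      obtain ⟨φ, hφ1, hφ2⟩ := hφ
      obtain ⟨i, rfl⟩ := hmem φ hφ1
      refine d_and hΓ hd hφ1 ?_
      have h5 : (F i).tru p x = .neg (F i) := if_neg hφ2
      rw [← h5]
      exact ih' i
  | disj m F ih =>
    have hF : ∀ i, (F i).depth + 1 ≤ d := by
      intro i
      have h3 := depth_parts (V := V) (φ := F i) (ψ := .disj m F)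
        (Set.mem_insert_of_mem _ (Set.mem_iUnion.2 ⟨i, self_mem_parts _⟩))
      omega
    have ih' := fun i => ih i (hs i) (hF i)
    rw [disj_eq] at hd ⊢
    have hmem : ∀ φ ∈ List.ofFn F, ∃ i, F i = φ := fun φ hφ => List.mem_ofFn.1 hφ
    by_cases hφ : (disjL (List.ofFn F)).eval p x
    · have h4 : (disjL (List.ofFn F)).tru p x = disjL (List.ofFn F) := if_pos hφ
      rw [h4]
      obtain ⟨φ, hφ1, hφ2⟩ := (eval_disjL x _).1 hφ
      obtain ⟨i, rfl⟩ := hmem φ hφ1
      refine d_or hΓ hd hφ1 ?_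
      have h5 : (F i).tru p x = F i := if_pos hφ2
      rw [← h5]
      exact ih' i
    · have h4 : (disjL (List.ofFn F)).tru p x = .neg (disjL (List.ofFn F)) := if_neg hφ
      rw [h4]
      refine d_or_false hΓ _ hd fun φ hφ' => ?_
      obtain ⟨i, rfl⟩ := hmem φ hφ'
      have h5 : (F i).tru p x = .neg (F i) :=
        if_neg fun h => hφ ((eval_disjL x _).2 ⟨_, hφ', h⟩)
      rw [← h5]
      exact ih' i
  | count r m F ih =>
    have hF : ∀ i, (F i).depth + 1 ≤ d := by
      intro i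
      have h3 := depth_parts (V := V) (φ := F i) (ψ := .count r m F)
        (Set.mem_insert_of_mem _ (Set.mem_iUnion.2 ⟨i, self_mem_parts _⟩))
      omega
    have ih' := fun i => ih i (hs.2 i) (hF i)
    have hr : r < p := hs.1
    rw [count_eq] at hd ⊢
    have h3 := d_count (Φ := Φ) hΓ x hp (List.ofFn F) hd fun φ hφ => by
      obtain ⟨i, rfl⟩ := List.mem_ofFn.1 hφ
      exact ih' i
    have h6 : ct p x (List.ofFn F) % p < p := Nat.mod_lt _ hp
    by_cases hφ : (countL r (List.ofFn F)).eval p x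
    · have h4 : (countL r (List.ofFn F)).tru p x = countL r (List.ofFn F) := if_pos hφ
      rw [h4]
      rw [eval_countL] at hφ
      unfold Nat.ModEq at hφ
      rw [Nat.mod_eq_of_lt hr] at hφ
      rwa [hφ] at h3
    · have h4 : (countL r (List.ofFn F)).tru p x = .neg (countL r (List.ofFn F)) := if_neg hφ
      rw [h4]
      have h5 : ct p x (List.ofFn F) % p ≠ r := by
        intro h
        apply hφ
        rw [eval_countL]
        unfold Nat.ModEq
        rwa [Nat.mod_eq_of_lt hr]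
      refine d_one (R := rMod3 (ct p x (List.ofFn F) % p) r)
        (Or.inr ⟨_, h6, _, hr, Or.inr (Or.inr ⟨h5, rfl⟩)⟩) rfl rfl (sig (disjL []) (disjL []))
        (tau Γ (List.ofFn F) []) (inst_ctx ?_) (inst_ctx (map_neg_single ?_))
        (depth_wk hΓ hd) h3
      · rw [inst_modS, inst_only]
      · rw [inst_modS, inst_only]

end kalmar

/-! ### Completeness -/

/-- The false literals of an assignment. -/
def flits (x : V → Bool) (vs : List V) : List (Form V) :=
  vs.map fun v => if x v = true then .neg (.var v) else .var v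

theorem flits_depth (x : V → Bool) (vs : List V) : ∀ ψ ∈ flits x vs, ψ.depth = 0 := by
  intro ψ hψ
  obtain ⟨v, -, rfl⟩ := List.mem_map.1 hψ
  by_cases h : x v = true
  · rw [if_pos h]
    rfl
  · rw [if_neg h]
    rfl

/-- The distinction of cases on all variables. -/
theorem der_of_cases {φ : Form V} (hd : φ.depth + 1 ≤ d) (vs : List V) (hvs : vs.Nodup)
    (h : ∀ x : V → Bool, Der (stdRules p) d Φ (wk (flits x vs) φ)) :
    Der (stdRules p) d Φ φ := by
  classical
  induction vs with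
  | nil =>
    have h1 := h fun _ => false
    refine d_one (R := rOne) (std_mem (by simp)) rfl rfl (sig φ φ) (tau [] [] []) (φ := wk [] φ)
      ?_ rfl (by omega) h1
    rw [inst_orS]
    rfl
  | cons v vs ih =>
    refine ih (List.nodup_cons.1 hvs).2 fun x => ?_
    have hv : v ∉ vs := (List.nodup_cons.1 hvs).1
    have hf : ∀ b, flits (Function.update x v b) vs = flits x vs := by
      intro b
      refine List.map_congr_left fun u hu => ?_
      have h1 : u ≠ v := fun h => hv (h ▸ hu)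
      show (if Function.update x v b u = true then _ else _) = _
      rw [Function.update_of_ne h1]
    have h1 := h (Function.update x v false)
    have h2 := h (Function.update x v true)
    have e1 : flits (Function.update x v false) (v :: vs) = .var v :: flits x vs := by
      have h3 : flits (Function.update x v false) (v :: vs) =
        (if Function.update x v false v = true then Form.neg (.var v) else .var v) ::
          flits (Function.update x v false) vs := rfl
      rw [h3, hf, Function.update_self, if_neg Bool.noConfusion]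
    have e2 : flits (Function.update x v true) (v :: vs) = .neg (.var v) :: flits x vs := by
      have h3 : flits (Function.update x v true) (v :: vs) =
        (if Function.update x v true v = true then Form.neg (.var v) else .var v) ::
          flits (Function.update x v true) vs := rfl
      rw [h3, hf, Function.update_self, if_pos rfl]
    rw [e1] at h1
    rw [e2] at h2
    refine d_two (R := rCut) (std_mem (by simp)) rfl rfl (sig (.var v) (.var v))
      (tau (flits x vs ++ [φ]) [] []) ?_ ?_ ?_ (depth_wk (flits_depth x vs) hd) h1 h2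
    · rw [inst_orS]
      show [disjL ([Form.var v] ++ ((flits x vs ++ [φ]) ++ []))] = _
      rw [List.append_nil]
      rfl
    · rw [inst_orS]
      show [disjL ([Form.neg (.var v)] ++ ((flits x vs ++ [φ]) ++ []))] = _
      rw [List.append_nil]
      rfl
    · change (orS [lG]).inst _ _ = _
      rw [inst_orS]
      show [disjL ((flits x vs ++ [φ]) ++ [])] = _
      rw [List.append_nil]
      rfl

/-- The rules `stdRules p` are sound, finitely many, and implicationally complete: if the formula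
`φ` holds under all assignments that satisfy the formulas in `Φ`, then it has a derivation
from `Φ`, of depth at most one more than the depths of `φ` and of the formulas in `Φ`. -/
theorem complete [Fintype V] (hp : 0 < p) {Φ : Set (Form V)} {φ : Form V} {d : ℕ}
    (hΦs : ∀ ψ ∈ Φ, ψ.Small p) (hφs : φ.Small p) (hΦd : ∀ ψ ∈ Φ, ψ.depth + 1 ≤ d)
    (hφd : φ.depth + 1 ≤ d)
    (h : ∀ x : V → Bool, (∀ ψ ∈ Φ, ψ.eval p x) → φ.eval p x) :
    ∃ (l : ℕ) (L : Fin l → Form V), IsDerivation (stdRules p) d Φ L ∧ ∃ i, L i = φ := by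
  classical
  refine Der.exists ?_
  refine der_of_cases hφd (Finset.univ : Finset V).toList (Finset.nodup_toList _) fun x => ?_
  have hΓ := flits_depth x (Finset.univ : Finset V).toList
  have h1 : ∀ v, x v = true → Form.neg (.var v) ∈ flits x (Finset.univ : Finset V).toList := by
    intro v hv
    refine List.mem_map.2 ⟨v, Finset.mem_toList.2 (mem_univ v), ?_⟩
    rw [if_pos hv]
  have h2 : ∀ v, x v = false → Form.var v ∈ flits x (Finset.univ : Finset V).toList := by
    intro v hv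
    refine List.mem_map.2 ⟨v, Finset.mem_toList.2 (mem_univ v), ?_⟩
    rw [if_neg (by rw [hv]; exact Bool.noConfusion)]
  by_cases hφ : φ.eval p x
  · have h3 := kalmar (Φ := Φ) (d := d) hΓ x hp h1 h2 φ hφs hφd
    have h4 : φ.tru p x = φ := if_pos hφ
    rwa [h4] at h3
  · have h3 : ∃ ψ ∈ Φ, ¬ ψ.eval p x := by
      by_contra hcon
      push Not at hcon
      exact hφ (h x hcon)
    obtain ⟨ψ, hψ, hψx⟩ := h3
    have h4 := kalmar (Φ := Φ) (d := d) hΓ x hp h1 h2 ψ (hΦs ψ hψ) (hΦd ψ hψ)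
    have h5 : ψ.tru p x = .neg ψ := if_neg hψx
    rw [h5] at h4
    have h6 : Der (stdRules p) d Φ ψ := Der.ax hψ (by have := hΦd ψ hψ; omega)
    exact d_two (R := rAbs) (std_mem (by simp)) rfl rfl (sig ψ φ)
      (tau (flits x (Finset.univ : Finset V).toList) [] []) (inst_ctx (map_neg_single rfl)) rfl
      (inst_ctx rfl) (depth_wk hΓ hφd) h4 h6

end Pool.Agent.MP_9cec2c_lc.FG
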