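import Pool.Agent.Lib.MP_9cec2c_lc.Mg.G061

/-!
The numbers: lower bounds for Frege systems for all depths at once.
-/

set_option autoImplicit false
set_option linter.unusedSectionVars false

namespace Pool.Agent.MP_9cec2c_lc.FG

open Finset Frege

/-- The choice of the number of factors. -/
theorem num_bound {A d q κ s : ℕ} {B : ℝ} (hB : 1 ≤ B) (hκ : 1 ≤ κ) (hq : 1 ≤ q) (hs : 1 ≤ s)
    (h : ∀ R N : ℕ, 1 ≤ R → q * (3 * R * κ) ^ (d + 1) ≤ A → B * N ≤ 2 ^ R → N < s) :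
    Real.exp (((A : ℝ) / q) ^ ((1 : ℝ) / (d + 1)) / (5 * κ) - Real.log (2 * B)) ≤ s := by
  have hκ0 : (0 : ℝ) < κ := by exact_mod_cast hκ
  have hq0 : (0 : ℝ) < q := by exact_mod_cast hq
  have hs0 : (1 : ℝ) ≤ s := by exact_mod_cast hs
  have hd0 : (0 : ℝ) < (d : ℝ) + 1 := by positivity
  obtain ⟨X, hX⟩ : ∃ X : ℝ, X = ((A : ℝ) / q) ^ ((1 : ℝ) / (d + 1)) := ⟨_, rfl⟩
  have hAq : 0 ≤ (A : ℝ) / q := by positivity
  have hX0 : 0 ≤ X := by
    rw [hX]
    exact Real.rpow_nonneg hAq _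
  have hXd : X ^ (d + 1) = (A : ℝ) / q := by
    rw [hX, ← Real.rpow_natCast, ← Real.rpow_mul hAq]
    have h1 : (1 : ℝ) / (d + 1) * ((d + 1 : ℕ) : ℝ) = 1 := by
      push_cast
      field_simp
    rw [h1, Real.rpow_one]
  have hlog : Real.log 2 ≤ Real.log (2 * B) := Real.log_le_log (by norm_num) (by linarith)
  have hlog2 : (0.69 : ℝ) < Real.log 2 := by
    have := Real.log_two_gt_d9
    linarith
  rw [← hX]
  obtain ⟨R, hR⟩ : ∃ R : ℕ, R = ⌊X / (3 * κ)⌋₊ := ⟨_, rfl⟩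
  have hR1 : (R : ℝ) ≤ X / (3 * κ) := by
    rw [hR]
    exact Nat.floor_le (by positivity)
  have hR2 : X / (3 * κ) < R + 1 := by
    rw [hR]
    exact Nat.lt_floor_add_one _
  rcases Nat.eq_zero_or_pos R with h0 | h0
  · rw [h0, Nat.cast_zero, zero_add, div_lt_one (by positivity)] at hR2
    have h1 : X / (5 * κ) < 0.6 := by
      rw [div_lt_iff₀ (by positivity)]
      linarith
    have h2 : X / (5 * κ) - Real.log (2 * B) ≤ 0 := by linarith
    calc Real.exp (X / (5 * κ) - Real.log (2 * B)) ≤ Real.exp 0 := Real.exp_le_exp.2 h2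
      _ = 1 := Real.exp_zero
      _ ≤ s := hs0
  · obtain ⟨N, hN⟩ : ∃ N : ℕ, N = ⌊(2 : ℝ) ^ R / B⌋₊ := ⟨_, rfl⟩
    have hN1 : (N : ℝ) ≤ 2 ^ R / B := by
      rw [hN]
      exact Nat.floor_le (by positivity)
    have hN2 : (2 : ℝ) ^ R / B < N + 1 := by
      rw [hN]
      exact Nat.lt_floor_add_one _
    have h1 : q * (3 * R * κ) ^ (d + 1) ≤ A := by
      have h2 : (3 : ℝ) * R * κ ≤ X := by
        rw [le_div_iff₀ (by positivity)] at hR1
        linarith
      have h3 : ((3 : ℝ) * R * κ) ^ (d + 1) ≤ (A : ℝ) / q := by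
        rw [← hXd]
        exact pow_le_pow_left₀ (by positivity) h2 _
      rw [le_div_iff₀ hq0] at h3
      have h4 : (q : ℝ) * (3 * R * κ) ^ (d + 1) ≤ A := by linarith
      exact_mod_cast h4
    have h2 := h R N h0 h1 (by
      rw [le_div_iff₀ (by linarith)] at hN1
      linarith)
    have h3 : (2 : ℝ) ^ R / B < s := by
      have h4 : (N : ℝ) + 1 ≤ s := by exact_mod_cast h2
      linarith
    have h4 : Real.exp (X / (5 * κ) - Real.log (2 * B)) ≤ 2 ^ R / B := by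
      have h5 : (2 : ℝ) ^ R = Real.exp (R * Real.log 2) := by
        rw [mul_comm, ← Real.rpow_natCast, Real.rpow_def_of_pos (by norm_num)]
      rw [Real.exp_sub, Real.exp_log (by linarith), h5, div_le_div_iff₀ (by linarith) (by linarith)]
      have h6 : X / (5 * κ) ≤ R * Real.log 2 + Real.log 2 := by
        have h7 : X / (5 * κ) = 3 / 5 * (X / (3 * κ)) := by
          field_simp
        have h8 : 0 ≤ X / (3 * κ) := by positivity
        have h9 : X / (3 * κ) * Real.log 2 ≤ (R + 1) * Real.log 2 :=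
          mul_le_mul_of_nonneg_right hR2.le (by linarith)
        have h10 : 3 / 5 * (X / (3 * κ)) ≤ X / (3 * κ) * Real.log 2 := by nlinarith
        rw [h7]
        linarith
      have h7 : Real.exp (X / (5 * κ)) ≤ Real.exp (R * Real.log 2) * 2 := by
        calc Real.exp (X / (5 * κ)) ≤ Real.exp (R * Real.log 2 + Real.log 2) :=
              Real.exp_le_exp.2 h6
          _ = Real.exp (R * Real.log 2) * 2 := by
            rw [Real.exp_add, Real.exp_log (by norm_num)]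
      calc Real.exp (X / (5 * κ)) * B ≤ Real.exp (R * Real.log 2) * 2 * B :=
            mul_le_mul_of_nonneg_right h7 (by linarith)
        _ = Real.exp (R * Real.log 2) * (2 * B) := by ring
    linarith

/-- One exponent for all depths. -/
theorem num_uniform (q κ : ℕ) (hκ : 1 ≤ κ) (hq : 1 ≤ q) {B c₀ : ℝ} (hB : 1 ≤ B) (hc₀ : 0 < c₀) :
    ∃ c : ℝ, 0 < c ∧ ∃ N₀ : ℕ, ∀ N ≥ N₀, ∀ A d s : ℕ, (N : ℝ) ^ c₀ - 1 ≤ A → 2 ≤ s →
      Real.exp (((A : ℝ) / q) ^ ((1 : ℝ) / (d + 1)) / (5 * κ) - Real.log (2 * B)) ≤ s →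
      Real.exp (c * (N : ℝ) ^ (c / (d + 1))) ≤ s := by
  have hκ0 : (0 : ℝ) < κ := by exact_mod_cast hκ
  have hκ1 : (1 : ℝ) ≤ κ := by exact_mod_cast hκ
  have hq0 : (0 : ℝ) < q := by exact_mod_cast hq
  have hq1 : (1 : ℝ) ≤ q := by exact_mod_cast hq
  obtain ⟨b, hb⟩ : ∃ b : ℝ, b = Real.log (2 * B) := ⟨_, rfl⟩
  have hlog2 : (0 : ℝ) < Real.log 2 := Real.log_pos (by norm_num)
  have hb0 : 0 < b := by
    rw [hb]
    exact Real.log_pos (by linarith)
  obtain ⟨c, hc⟩ : ∃ c : ℝ, c = min (c₀ / 2) (min (1 / (10 * κ)) (Real.log 2 / (10 * κ * b))) :=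
    ⟨_, rfl⟩
  have hc1 : c ≤ c₀ / 2 := by
    rw [hc]
    exact min_le_left _ _
  have hc2 : c ≤ 1 / (10 * κ) := by
    rw [hc]
    exact (min_le_right _ _).trans (min_le_left _ _)
  have hc3 : c ≤ Real.log 2 / (10 * κ * b) := by
    rw [hc]
    exact (min_le_right _ _).trans (min_le_right _ _)
  have hc0 : 0 < c := by
    rw [hc]
    exact lt_min (by positivity) (lt_min (by positivity) (by positivity))
  -- N ^ (c₀ / 2) is large
  have htend : Filter.Tendsto (fun N : ℕ => (N : ℝ) ^ (c₀ / 2)) Filter.atTop Filter.atTop :=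
    (tendsto_rpow_atTop (by positivity)).comp tendsto_natCast_atTop_atTop
  obtain ⟨N₀, hN₀⟩ := Filter.eventually_atTop.1
    (htend.eventually_ge_atTop (2 * (q : ℝ)))
  refine ⟨c, hc0, max N₀ 1, fun N hN A d s hA hs h => ?_⟩
  have hN1 : (1 : ℝ) ≤ N := by exact_mod_cast (le_max_right _ _).trans hN
  have hN2 := hN₀ N ((le_max_left _ _).trans hN)
  have hd0 : (0 : ℝ) < (d : ℝ) + 1 := by positivity
  have hd1 : (1 : ℝ) ≤ (d : ℝ) + 1 := by
    have : (0 : ℝ) ≤ d := Nat.cast_nonneg d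
    linarith
  have hsq : (N : ℝ) ^ c₀ = (N : ℝ) ^ (c₀ / 2) * (N : ℝ) ^ (c₀ / 2) := by
    rw [← Real.rpow_add (by linarith)]
    congr 1
    ring
  have hAq : (N : ℝ) ^ (c₀ / 2) ≤ (A : ℝ) / q := by
    rw [le_div_iff₀ hq0]
    have h1 : (2 * (q : ℝ)) * (N : ℝ) ^ (c₀ / 2) ≤ (N : ℝ) ^ c₀ := by
      rw [hsq]
      exact mul_le_mul_of_nonneg_right hN2 (by positivity)
    have h2 : 1 ≤ (N : ℝ) ^ (c₀ / 2) * q := by
      have h3 : (1 : ℝ) ≤ (N : ℝ) ^ (c₀ / 2) := Real.one_le_rpow hN1 (by positivity)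
      nlinarith
    nlinarith
  obtain ⟨Y, hY⟩ : ∃ Y : ℝ, Y = (N : ℝ) ^ (c₀ / 2 / (d + 1)) := ⟨_, rfl⟩
  have hXY : Y ≤ ((A : ℝ) / q) ^ ((1 : ℝ) / (d + 1)) := by
    have h1 : Y = ((N : ℝ) ^ (c₀ / 2)) ^ ((1 : ℝ) / (d + 1)) := by
      rw [hY, ← Real.rpow_mul (by linarith)]
      congr 1
      ring
    rw [h1]
    exact Real.rpow_le_rpow (by positivity) hAq (by positivity)
  have hcY : (N : ℝ) ^ (c / (d + 1)) ≤ Y := by
    rw [hY]
    exact Real.rpow_le_rpow_of_exponent_le hN1 (div_le_div_of_nonneg_right hc1 hd0.le)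
  have hY0 : 0 ≤ Y := by
    rw [hY]
    positivity
  have hs2 : (2 : ℝ) ≤ s := by exact_mod_cast hs
  by_cases hcase : Y < 10 * κ * b
  · have h1 : c * (N : ℝ) ^ (c / (d + 1)) ≤ Real.log 2 := by
      calc c * (N : ℝ) ^ (c / (d + 1)) ≤ c * (10 * κ * b) :=
            mul_le_mul_of_nonneg_left (hcY.trans hcase.le) hc0.le
        _ ≤ Real.log 2 := by
            rwa [le_div_iff₀ (by positivity)] at hc3
    calc Real.exp (c * (N : ℝ) ^ (c / (d + 1))) ≤ Real.exp (Real.log 2) := Real.exp_le_exp.2 h1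
      _ = 2 := Real.exp_log (by norm_num)
      _ ≤ s := hs2
  · push Not at hcase
    refine le_trans (Real.exp_le_exp.2 ?_) h
    rw [← hb]
    have h1 : c * (N : ℝ) ^ (c / (d + 1)) ≤ 1 / (10 * κ) * Y :=
      mul_le_mul hc2 hcY (by positivity) (by positivity)
    have h2 : 1 / (10 * κ) * Y = Y / (5 * κ) - Y / (10 * κ) := by
      field_simp
      ring
    have h3 : b ≤ Y / (10 * κ) := by
      rw [le_div_iff₀ (by positivity)]
      linarith
    have h4 : Y / (5 * κ) ≤ ((A : ℝ) / q) ^ ((1 : ℝ) / (d + 1)) / (5 * κ) :=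
      div_le_div_of_nonneg_right hXY (by positivity)
    linarith

theorem two_le_size {V : Type} {l : ℕ} {L : Fin l → Form V} (i : Fin l) : 2 ≤ size L := by
  have h1 : 1 ≤ l := Nat.one_le_iff_ne_zero.2 (fun h => by subst h; exact i.elim0)
  have h2 : 0 < {ψ | ∃ i, ψ ∈ (L i).parts}.ncard := by
    rw [Set.ncard_pos (parts_set_finite L)]
    exact ⟨L i, i, self_mem_parts _⟩
  unfold size
  omega

section flat

variable {K : Type} [Field K] [Fintype K]

/-- The lower bound for all depths, from flat worlds. The size of a refutation, and the size of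
a proof of the tautology that says that some clause is false. -/
theorem frege_num (K : Type) [Field K] [Fintype K] (p : ℕ) [CharP K p] {c₀ : ℝ} (hc₀ : 0 < c₀)
    (w C : ℕ) {S : Set Rule} (hS : S.Finite) (hsound : ∀ R ∈ S, R.Sound p) :
    ∃ c : ℝ, 0 < c ∧ ∃ N₀ : ℕ, ∀ N ≥ N₀, ∀ (V W : Type) [AddCommGroup W] [Module K W]
      [FiniteDimensional K W] (M : ℕ → Submodule K W) (act : Fun K V →ₗ[K] W →ₗ[K] W) (A : ℕ),
      World M act A → (N : ℝ) ^ c₀ - 1 ≤ A → 0 < Module.finrank K (M 0) →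
      Module.finrank K (M A) ≤ C * Module.finrank K (M 0) →
      ∀ F : List (List (V × Bool)),
      (∀ D ∈ F, D.length ≤ w ∧ ∀ u ∈ M 0, act (fals K D) u = 0) →
      ∀ (d l : ℕ) (L : Fin l → Form V),
      (IsDerivation S d {φ | ∃ D ∈ F, φ = clause D} L ∧ (∃ i, L i = falsum)) ∨
      (IsDerivation S d ∅ L ∧ ∃ i, L i = .neg (cnf F)) →
      Real.exp (c * (N : ℝ) ^ (c / (d + 1))) ≤ size L := by
  obtain ⟨k, hk⟩ := exists_cost hS
  obtain ⟨q, hq⟩ : ∃ q : ℕ, q = k + w + 4 := ⟨_, rfl⟩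
  obtain ⟨C', hC'⟩ : ∃ C' : ℝ, C' = max 1 (C : ℝ) := ⟨_, rfl⟩
  obtain ⟨B, hB⟩ : ∃ B : ℝ, B = 16 * (k + 1) * C' := ⟨_, rfl⟩
  have hC1 : 1 ≤ C' := by
    rw [hC']
    exact le_max_left _ _
  have hk0 : (0 : ℝ) ≤ k := Nat.cast_nonneg k
  have hB1 : 1 ≤ B := by
    rw [hB]
    nlinarith
  obtain ⟨c, hc, N₀, hN₀⟩ := num_uniform q (Fintype.card K - 1) card_sub_pos (by omega) hB1 hc₀
  refine ⟨c, hc, N₀, fun N hN V W _ _ _ M act A hW hA hpos hgrow F hF d l L hL => ?_⟩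
  have hi : ∃ i : Fin l, True := by
    rcases hL with ⟨-, i, -⟩ | ⟨-, i, -⟩ <;> exact ⟨i, trivial⟩
  obtain ⟨i, -⟩ := hi
  have h2 := two_le_size (L := L) i
  have hgrow' : (Module.finrank K (M A) : ℝ) ≤ C' * Module.finrank K (M 0) := by
    have h3 : (Module.finrank K (M A) : ℝ) ≤ C * Module.finrank K (M 0) := by exact_mod_cast hgrow
    refine h3.trans (mul_le_mul_of_nonneg_right ?_ (Nat.cast_nonneg _))
    rw [hC']
    exact le_max_right _ _
  have hS' : ∀ R ∈ S, R.Sound p ∧ R.cost + 5 ≤ k ∧ R.nodes.length ≤ k := fun R hR =>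
    ⟨hsound R hR, (hk R hR).1, (hk R hR).2⟩
  refine hN₀ N hN A d (size L) hA h2 (num_bound hB1 card_sub_pos (by omega) (by omega) ?_)
  intro R n hR1 hRA hRn
  rw [hq] at hRA
  rw [hB] at hRn
  rcases hL with ⟨hL, hf⟩ | ⟨hL, hf⟩
  · exact flat_refutation (p := p) (w := w) hW (by linarith) hpos hgrow' hS' hRn hR1 hRA
      (fun φ hφ => by
        obtain ⟨D, hD, rfl⟩ := hφ
        exact ⟨D, rfl, (hF D hD).1, (hF D hD).2⟩) hL hf
  · exact flat_tautology (p := p) (w := w) hW (by linarith) hpos hgrow' hS' hRn hR1 hRA hF hL hf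

end flat

end Pool.Agent.MP_9cec2c_lc.FG
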