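import Pool.Agent.Lib.MP_9cec2c_lc.FLBoth
import Pool.Agent.Lib.MP_9cec2c_lc.FGNum
import Pool.Agent.Lib.MP_9cec2c_lc.FGComp

/-!
The lower bound for all Frege systems with counting gates modulo `p`, for all primes `p` at once:
the disjunction of the Tseitin contradictions modulo 2 and modulo 3.
-/

set_option autoImplicit false
set_option linter.unusedSectionVars false

namespace Pool.Agent.MP_9cec2c_lc.FG

open Finset Filter
open Frege (Fun World)
open Flat (RMT2 TVar tseitinMod orCNF pull world_pull)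

theorem mem_listCNF {V : Type} {F : Finset (Finset (V × Bool))} {D : List (V × Bool)} :
    D ∈ listCNF F ↔ ∃ κ ∈ F, D = κ.toList := by
  unfold listCNF
  rw [List.mem_map]
  constructor
  · rintro ⟨κ, hκ, rfl⟩
    exact ⟨κ, Finset.mem_toList.1 hκ, rfl⟩
  · rintro ⟨κ, hκ, rfl⟩
    exact ⟨κ, Finset.mem_toList.2 hκ, rfl⟩

/-- The truth value of a clause. -/
theorem eval_clause {V : Type} (p : ℕ) (x : V → Bool) (D : List (V × Bool)) :
    (clause D).eval p x ↔ ∃ l ∈ D, x l.1 = l.2 := by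
  unfold clause
  rw [eval_disjL]
  have h1 : ∀ l : V × Bool, (lit l).eval p x ↔ x l.1 = l.2 := by
    rintro ⟨v, b⟩
    cases b
    · show ¬ x v = true ↔ x v = false
      rw [Bool.not_eq_true]
    · exact Iff.rfl
  constructor
  · rintro ⟨φ, hφ, h⟩
    obtain ⟨l, hl, rfl⟩ := List.mem_map.1 hφ
    exact ⟨l, hl, (h1 l).1 h⟩
  · rintro ⟨l, hl, h⟩
    exact ⟨_, List.mem_map.2 ⟨l, hl, rfl⟩, (h1 l).2 h⟩

/-- The truth value of a formula in conjunctive normal form. -/
theorem eval_cnf {V : Type} (p : ℕ) (x : V → Bool) (F : List (List (V × Bool))) :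
    (cnf F).eval p x ↔ ∀ D ∈ F, ∃ l ∈ D, x l.1 = l.2 := by
  unfold cnf
  rw [eval_conjL]
  constructor
  · intro h D hD
    exact (eval_clause p x D).1 (h _ (List.mem_map.2 ⟨D, hD, rfl⟩))
  · intro h φ hφ
    obtain ⟨D, hD, rfl⟩ := List.mem_map.1 hφ
    exact (eval_clause p x D).2 (h D hD)

theorem holds_false_iff {V : Type} (K : Type) [Field K] (D : List (V × Bool)) (x : V → Bool) :
    fals K D x = 0 ↔ ∃ l ∈ D, x l.1 = l.2 := by
  classical
  unfold fals
  by_cases h : ∀ l ∈ D, x l.1 ≠ l.2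
  · rw [if_pos h]
    refine ⟨fun h1 => absurd h1 one_ne_zero, ?_⟩
    rintro ⟨l, hl, h2⟩
    exact absurd h2 (h l hl)
  · rw [if_neg h]
    push Not at h
    exact ⟨fun _ => h, fun _ => rfl⟩

/-- The lower bound for every CNF on which a substitution `ρ` of the variables by variables and
constants gives clauses of the Tseitin contradiction modulo `r` and true clauses. -/
theorem fg_bound_subst (p r : ℕ) [hp : Fact p.Prime] [NeZero r] (hr : 1 < r)
    (hpr : Nat.Coprime p r) (hR : RMT2 r) (w : ℕ) {S : Set Rule} (hS : S.Finite)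
    (hsound : ∀ R ∈ S, R.Sound p) :
    ∃ c : ℝ, 0 < c ∧ ∃ N₀ : ℕ, ∀ N ≥ N₀, ∀ s : Fin N → ZMod r,
      ∀ {V' : Type} (ρ : (TVar N × ZMod r → Bool) → (V' → Bool)),
        (∀ u, ∃ Z : Finset (TVar N × ZMod r), Z.card ≤ 1 ∧
          ∀ x y, (∀ v ∈ Z, x v = y v) → ρ x u = ρ y u) →
        ∀ F : List (List (V' × Bool)), (∀ D ∈ F, D.length ≤ w ∧
          ((∀ x, ∃ l ∈ D, ρ x l.1 = l.2) ∨
            ∃ κ ∈ tseitinMod N r s, ∀ x, (∃ l ∈ D, ρ x l.1 = l.2) ↔ ∃ l ∈ κ, x l.1 = l.2)) →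
        ∀ (d l : ℕ) (L : Fin l → Form V'), Refutes S d F L →
          Real.exp (c * (N : ℝ) ^ (c / (d + 1))) ≤ size L := by
  classical
  obtain ⟨K, hK1, hK2, hK3, ω, hω⟩ := Flat.exists_field p r (by omega) hpr
  obtain ⟨ε, hε, hsmall⟩ := Flat.Herm.exists_small_unif r
  obtain ⟨x, hx, N₁, hN₁⟩ := hR ε hε
  obtain ⟨c, hc, N₂, hN₂⟩ := frege_num K p hx w 256 hS hsound
  have h6 : Tendsto (fun N : ℕ => (N : ℝ) ^ x) atTop atTop :=
    (tendsto_rpow_atTop hx).comp tendsto_natCast_atTop_atTop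
  obtain ⟨N₃, hN₃⟩ := (h6.eventually_ge_atTop ((max r 3 + 4 : ℕ) : ℝ)).exists_forall_of_atTop
  refine ⟨c, hc, max (max N₁ N₂) (max N₃ 1), ?_⟩
  intro N hN s V' ρ hρ F hF d l L hL
  have hN1' : N₁ ≤ N := (le_max_left _ _).trans ((le_max_left _ _).trans hN)
  have hN2' : N₂ ≤ N := (le_max_right _ _).trans ((le_max_left _ _).trans hN)
  have hN3' : N₃ ≤ N := (le_max_left _ _).trans ((le_max_right _ _).trans hN)
  have hN4' : 1 ≤ N := (le_max_right _ _).trans ((le_max_right _ _).trans hN)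
  obtain ⟨A, hA⟩ : ∃ A : ℕ, A = ⌊(N : ℝ) ^ x⌋₊ := ⟨_, rfl⟩
  have hA1 : (A : ℝ) ≤ (N : ℝ) ^ x := by
    rw [hA]
    exact Nat.floor_le (by positivity)
  have hA2 : (N : ℝ) ^ x - 1 ≤ A := by
    rw [hA]
    have := Nat.lt_floor_add_one ((N : ℝ) ^ x)
    linarith
  have hA3 : max r 3 + 3 ≤ A := by
    have h7 := hN₃ N hN3'
    have h8 : ((max r 3 + 4 : ℕ) : ℝ) ≤ A + 1 := by linarith
    have h9 : max r 3 + 4 ≤ A + 1 := by exact_mod_cast h8
    omega
  obtain ⟨m, hm, cc, Gam, hrm, hcard, hG⟩ := hN₁ N hN1' A hA1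
  obtain ⟨M, act, hW, hpos, hgrow, hsat⟩ := Flat.Herm.tseitinMod_world (K := K) p hω hr
    (hrm := hrm) (Flat.Herm.spectator_sum hrm fun u => Flat.ph (cc u)) (hsmall m hrm)
    ⟨0, by omega⟩ s hG hcard hA3
  refine hN₂ N hN2' V' _ M (act.comp (pull ρ)) A (world_pull hW hρ) hA2 hpos hgrow F ?_ d l L hL
  intro D hD
  obtain ⟨h1, h2⟩ := hF D hD
  refine ⟨h1, fun u hu => ?_⟩
  rcases h2 with h2 | ⟨κ, hκ, h2⟩
  · have h3 : pull ρ (fals K D) = 0 := by
      funext y
      exact (holds_false_iff K D (ρ y)).2 (h2 y)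
    rw [LinearMap.comp_apply, h3, map_zero, LinearMap.zero_apply]
  · have h3 : pull ρ (fals K D) = Frege.Fals K p (Flat.toCedent κ) := by
      funext y
      rw [Flat.pull_apply]
      have h5 := holds_false_iff K D (ρ y)
      rw [h2 y, ← Flat.holds_toCedent p] at h5
      unfold Frege.Fals
      by_cases h4 : Frege.Holds p y (Flat.toCedent κ)
      · rw [if_pos h4]
        exact h5.2 h4
      · rw [if_neg h4]
        have h6 : fals K D (ρ y) ≠ 0 := fun h => h4 (h5.1 h)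
        unfold fals at h6 ⊢
        by_cases h7 : ∀ l ∈ D, (ρ y) l.1 ≠ l.2
        · rw [if_pos h7]
        · rw [if_neg h7] at h6
          exact absurd rfl h6
    rw [LinearMap.comp_apply, h3]
    exact (hsat (Flat.toCedent κ) ⟨κ, hκ, rfl⟩).2 u hu

theorem theCNF_width {N : ℕ} {s : Fin N → ZMod 2} {s' : Fin N → ZMod 3} :
    ∀ D ∈ theCNF N s s', D.length ≤ 6 := by
  intro D hD
  obtain ⟨κ, hκ, rfl⟩ := mem_listCNF.1 hD
  rw [Finset.length_toList]
  exact Flat.width_orCNF (Flat.tseitinMod_width s) (Flat.tseitinMod_width s') κ hκ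

theorem theCNF_length {N : ℕ} {s : Fin N → ZMod 2} {s' : Fin N → ZMod 3} :
    (theCNF N s s').length ≤ 1701 * N ^ 4 := by
  unfold theCNF listCNF
  rw [List.length_map, Finset.length_toList]
  refine Flat.card_orCNF.trans ?_
  have h1 := Flat.tseitinMod_card s
  have h2 := Flat.tseitinMod_card s'
  have hN : N ≤ N ^ 2 := Nat.le_self_pow (by norm_num) N
  have h3 : (tseitinMod N 2 s).card ≤ 27 * N ^ 2 := by omega
  have h4 : (tseitinMod N 3 s').card ≤ 63 * N ^ 2 := by omega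
  calc (tseitinMod N 2 s).card * (tseitinMod N 3 s').card ≤ (27 * N ^ 2) * (63 * N ^ 2) :=
        Nat.mul_le_mul h3 h4
    _ = 1701 * N ^ 4 := by ring

theorem theCNF_unsat {N : ℕ} {s : Fin N → ZMod 2} {s' : Fin N → ZMod 3} (hs : ∑ v, s v ≠ 0)
    (hs' : ∑ v, s' v ≠ 0) (x : (TVar N × ZMod 2) ⊕ (TVar N × ZMod 3) → Bool) :
    ∃ D ∈ theCNF N s s', ∀ l ∈ D, x l.1 ≠ l.2 := by
  obtain ⟨κ, hκ, h⟩ := Flat.both_unsat s s' hs hs' x
  refine ⟨κ.toList, mem_listCNF.2 ⟨κ, hκ, rfl⟩, fun l hl => h l (Finset.mem_toList.1 hl)⟩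

/-- One family for all primes and all Frege systems. -/
theorem fg_both (h2 : RMT2 2) (h3 : RMT2 3) (p : ℕ) [hp : Fact p.Prime] {S : Set Rule}
    (hS : S.Finite) (hsound : ∀ R ∈ S, R.Sound p) :
    ∃ c : ℝ, 0 < c ∧ ∃ N₀ : ℕ, ∀ N ≥ N₀, ∀ (s : Fin N → ZMod 2) (s' : Fin N → ZMod 3)
      (d l : ℕ) (L : Fin l → Form ((TVar N × ZMod 2) ⊕ (TVar N × ZMod 3))),
      Refutes S d (theCNF N s s') L → Real.exp (c * (N : ℝ) ^ (c / (d + 1))) ≤ size L := by
  classical
  by_cases hpr : Nat.Coprime p 2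
  · obtain ⟨c, hc, N₀, hN₀⟩ := fg_bound_subst p 2 (by norm_num) hpr h2 6 hS hsound
    refine ⟨c, hc, N₀, fun N hN s s' d l L hL => ?_⟩
    refine hN₀ N hN s (fun x => Sum.elim x fun _ => false) ?_ _ ?_ d l L hL
    · rintro (v | v)
      · exact ⟨{v}, by rw [card_singleton], fun x y hxy => hxy v (mem_singleton_self v)⟩
      · exact ⟨∅, by simp, fun x y _ => rfl⟩
    · intro D hD
      refine ⟨theCNF_width D hD, ?_⟩
      obtain ⟨κ, hκ, rfl⟩ := mem_listCNF.1 hD
      obtain ⟨κ₁, h1, κ₂, h2, rfl⟩ := Flat.mem_orCNF.1 hκ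
      by_cases h4 : ∃ l ∈ κ₂, false = l.2
      · obtain ⟨l, hl, hl'⟩ := h4
        refine Or.inl fun x => ⟨(Sum.inr l.1, l.2), ?_, hl'⟩
        exact Finset.mem_toList.2 (mem_union_right _ (mem_image_of_mem _ hl))
      · refine Or.inr ⟨κ₁, h1, fun x => ?_⟩
        constructor
        · rintro ⟨l, hl, hl'⟩
          rcases mem_union.1 (Finset.mem_toList.1 hl) with h5 | h5
          · obtain ⟨l', h6, rfl⟩ := mem_image.1 h5
            exact ⟨l', h6, hl'⟩
          · obtain ⟨l', h6, rfl⟩ := mem_image.1 h5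
            exact absurd ⟨l', h6, hl'⟩ h4
        · rintro ⟨l, hl, hl'⟩
          exact ⟨(Sum.inl l.1, l.2), Finset.mem_toList.2 (mem_union_left _
            (mem_image_of_mem _ hl)), hl'⟩
  · have hp2 : p = 2 := by
      rw [Nat.Prime.coprime_iff_not_dvd hp.out, not_not] at hpr
      exact (Nat.prime_dvd_prime_iff_eq hp.out Nat.prime_two).1 hpr
    have hpr' : Nat.Coprime p 3 := by
      rw [hp2]
      norm_num
    obtain ⟨c, hc, N₀, hN₀⟩ := fg_bound_subst p 3 (by norm_num) hpr' h3 6 hS hsound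
    refine ⟨c, hc, N₀, fun N hN s s' d l L hL => ?_⟩
    refine hN₀ N hN s' (fun x => Sum.elim (fun _ => false) x) ?_ _ ?_ d l L hL
    · rintro (v | v)
      · exact ⟨∅, by simp, fun x y _ => rfl⟩
      · exact ⟨{v}, by rw [card_singleton], fun x y hxy => hxy v (mem_singleton_self v)⟩
    · intro D hD
      refine ⟨theCNF_width D hD, ?_⟩
      obtain ⟨κ, hκ, rfl⟩ := mem_listCNF.1 hD
      obtain ⟨κ₁, h1, κ₂, h2, rfl⟩ := Flat.mem_orCNF.1 hκ
      by_cases h4 : ∃ l ∈ κ₁, false = l.2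
      · obtain ⟨l, hl, hl'⟩ := h4
        refine Or.inl fun x => ⟨(Sum.inl l.1, l.2), ?_, hl'⟩
        exact Finset.mem_toList.2 (mem_union_left _ (mem_image_of_mem _ hl))
      · refine Or.inr ⟨κ₂, h2, fun x => ?_⟩
        constructor
        · rintro ⟨l, hl, hl'⟩
          rcases mem_union.1 (Finset.mem_toList.1 hl) with h5 | h5
          · obtain ⟨l', h6, rfl⟩ := mem_image.1 h5
            exact absurd ⟨l', h6, hl'⟩ h4
          · obtain ⟨l', h6, rfl⟩ := mem_image.1 h5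
            exact ⟨l', h6, hl'⟩
        · rintro ⟨l, hl, hl'⟩
          exact ⟨(Sum.inr l.1, l.2), Finset.mem_toList.2 (mem_union_right _
            (mem_image_of_mem _ hl)), hl'⟩

/-! ### Completeness for CNFs -/

theorem small_clause {V : Type} (p : ℕ) (D : List (V × Bool)) : (clause D).Small p := by
  intro i
  have h1 : ∀ l : V × Bool, (lit l).Small p := by
    rintro ⟨v, b⟩
    cases b <;> exact trivial
  obtain ⟨l, -, hl⟩ := List.mem_map.1 (List.get_mem (D.map lit) i)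
  rw [← hl]
  exact h1 l

theorem small_cnf {V : Type} (p : ℕ) (F : List (List (V × Bool))) : (cnf F).Small p := by
  intro i
  obtain ⟨D, -, hD⟩ := List.mem_map.1 (List.get_mem (F.map clause) i)
  rw [← hD]
  exact small_clause p D

theorem depth_clause {V : Type} (D : List (V × Bool)) : (clause D).depth ≤ 1 := by
  classical
  unfold clause
  rw [depth_disjL_le]
  intro φ hφ
  obtain ⟨⟨v, b⟩, -, rfl⟩ := List.mem_map.1 hφ
  have h1 : (lit (v, b)).depth = 0 := by
    cases b <;> rfl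
  rw [h1]
  split_ifs <;> omega

theorem depth_cnf {V : Type} (F : List (List (V × Bool))) : (cnf F).depth ≤ 2 := by
  classical
  unfold cnf
  rw [depth_conjL_le]
  intro φ hφ
  obtain ⟨D, -, rfl⟩ := List.mem_map.1 hφ
  have := depth_clause D
  split_ifs <;> omega

/-- Every unsatisfiable CNF has a refutation by the rules `stdRules p` of depth 2, and its negation
has a proof of depth 3. -/
theorem exists_refutes {V : Type} [Fintype V] {p : ℕ} (hp : 0 < p) {F : List (List (V × Bool))}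
    (hF : ∀ x : V → Bool, ∃ D ∈ F, ∀ l ∈ D, x l.1 ≠ l.2) :
    (∃ (l : ℕ) (L : Fin l → Form V),
      IsDerivation (stdRules p) 2 {φ | ∃ D ∈ F, φ = clause D} L ∧ ∃ i, L i = falsum) ∧
    ∃ (l : ℕ) (L : Fin l → Form V),
      IsDerivation (stdRules p) 3 ∅ L ∧ ∃ i, L i = .neg (cnf F) := by
  constructor
  · refine complete hp ?_ ?_ ?_ ?_ ?_
    · rintro ψ ⟨D, -, rfl⟩
      exact small_clause p D
    · exact fun i => i.elim0
    · rintro ψ ⟨D, -, rfl⟩
      have := depth_clause D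
      omega
    · have h1 : (falsum : Form V).depth = 0 := rfl
      omega
    · intro x hx
      obtain ⟨D, hD, h⟩ := hF x
      obtain ⟨l, hl, hl'⟩ := (eval_clause p x D).1 (hx _ ⟨D, hD, rfl⟩)
      exact absurd hl' (h l hl)
  · refine complete hp (fun ψ hψ => absurd hψ (Set.notMem_empty ψ)) (small_cnf p F)
      (fun ψ hψ => absurd hψ (Set.notMem_empty ψ)) ?_ ?_
    · have h1 := depth_cnf F
      have h2 : (Form.neg (cnf F)).depth = (cnf F).depth := rfl
      omega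
    · intro x _ h
      obtain ⟨D, hD, h'⟩ := hF x
      obtain ⟨l, hl, hl'⟩ := (eval_cnf p x F).1 h D hD
      exact h' l hl hl'

end Pool.Agent.MP_9cec2c_lc.FG
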