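import Pool.Agent.Lib.MP_9cec2c_lc.CEMain
import Pool.Agent.Lib.MP_9cec2c_lc.Mg.G006
import Pool.Agent.Lib.MP_9cec2c_lc.FGFinal

/-!
The polynomial bound for the refutations of the counting principles, if the number of points is not
divisible by the `p`-part of `r`.
-/

set_option autoImplicit false
set_option linter.unusedSectionVars false

namespace Pool.Agent.MP_9cec2c_lc.CE

open FG

/-! ### From lists to sequences -/

theorem _root_.Pool.Agent.MP_9cec2c_lc.FG.IsDerivation.mono_rules {V : Type} {S S' : Set Rule}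
    {d : ℕ} {Φ : Set (Form V)} {l : ℕ} {L : Fin l → Form V} (h : IsDerivation S d Φ L)
    (hS : S ⊆ S') : IsDerivation S' d Φ L := by
  intro i
  refine ⟨(h i).1, ?_⟩
  rcases (h i).2 with h1 | ⟨R, hR, h1⟩
  · exact Or.inl h1
  · exact Or.inr ⟨R, hS hR, h1⟩

theorem DN.exists {V : Type} {p P n : ℕ} {Φ : Set (Form V)} {φ : Form V} (h : DN p P Φ n φ) :
    ∃ (l : ℕ) (L : Fin l → Form V), (IsDerivation (ceRules p) 3 Φ L ∧ ∃ i, L i = φ) ∧
      size L ≤ n * (P + 1) := by
  obtain ⟨Ls, h1, h2, h3, h4⟩ := h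
  refine ⟨Ls.length, fun i => Ls.get i.rev, ⟨fun i => ?_, ?_⟩, ?_⟩
  · obtain ⟨h3, h4⟩ := h1.get i.rev
    refine ⟨h3, ?_⟩
    rcases h4 with h4 | ⟨R, hR, h4⟩
    · exact Or.inl h4
    · refine Or.inr ⟨R, hR, h4.mono ?_⟩
      rintro ψ ⟨j, hj, hj'⟩
      refine ⟨j.rev, Fin.rev_lt_iff.1 hj, ?_⟩
      show Ls.get (Fin.rev (Fin.rev j)) = ψ
      rw [Fin.rev_rev]
      exact hj'
  · obtain ⟨i, hi⟩ := List.get_of_mem h2
    refine ⟨i.rev, ?_⟩
    show Ls.get (Fin.rev (Fin.rev i)) = φ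
    rw [Fin.rev_rev]
    exact hi
  · unfold size
    have h5 : {ψ | ∃ i : Fin Ls.length, ψ ∈ (Ls.get i.rev).parts} =
        ⋃ i : Fin Ls.length, (Ls.get i.rev).parts := by
      ext ψ
      simp
    rw [h5]
    have h6 := ncard_iUnion_le (fun i : Fin Ls.length => Ls.get i.rev) fun i => parts_le_wt _
    have h7 : ∑ i : Fin Ls.length, wt (Ls.get i.rev) ≤ Ls.length * P := by
      have := Finset.sum_le_card_nsmul Finset.univ (fun i : Fin Ls.length => wt (Ls.get i.rev)) P
        fun i _ => h4 _ (List.get_mem Ls _)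
      simpa using this
    calc Ls.length + (⋃ i : Fin Ls.length, (Ls.get i.rev).parts).ncard ≤
          Ls.length + Ls.length * P := Nat.add_le_add_left (h6.trans h7) _
      _ = Ls.length * (P + 1) := by ring
      _ ≤ n * (P + 1) := Nat.mul_le_mul_right _ h3

/-! ### Polynomial bounds -/

/-- Bounded by a power of `M + 2`. -/
def PB (f : ℕ → ℕ) : Prop := ∃ k, ∀ M, f M ≤ (M + 2) ^ k

theorem PB.const (c : ℕ) : PB fun _ => c :=
  ⟨c, fun M => (Nat.lt_two_pow_self (n := c)).le.trans (Nat.pow_le_pow_left (by omega) c)⟩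

theorem PB.base : PB fun M => M + 2 := ⟨1, fun M => by rw [pow_one]⟩

theorem PB.mul {f g : ℕ → ℕ} (hf : PB f) (hg : PB g) : PB fun M => f M * g M := by
  obtain ⟨k, hk⟩ := hf
  obtain ⟨l, hl⟩ := hg
  exact ⟨k + l, fun M => by
    rw [pow_add]
    exact Nat.mul_le_mul (hk M) (hl M)⟩

theorem PB.add {f g : ℕ → ℕ} (hf : PB f) (hg : PB g) : PB fun M => f M + g M := by
  obtain ⟨k, hk⟩ := hf
  obtain ⟨l, hl⟩ := hg
  refine ⟨k + l + 1, fun M => ?_⟩
  have h1 : (M + 2) ^ k ≤ (M + 2) ^ (k + l) := Nat.pow_le_pow_right (by omega) (by omega)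
  have h2 : (M + 2) ^ l ≤ (M + 2) ^ (k + l) := Nat.pow_le_pow_right (by omega) (by omega)
  have h3 : (M + 2) ^ (k + l) * 2 ≤ (M + 2) ^ (k + l) * (M + 2) :=
    Nat.mul_le_mul_left _ (by omega)
  have h4 := hk M
  have h5 := hl M
  rw [pow_succ]
  show f M + g M ≤ _
  omega

theorem PB.pow {f : ℕ → ℕ} (hf : PB f) (e : ℕ) : PB fun M => f M ^ e := by
  obtain ⟨k, hk⟩ := hf
  exact ⟨k * e, fun M => by
    rw [pow_mul]
    exact Nat.pow_le_pow_left (hk M) e⟩

/-- The bound for the sizes of the formulas. -/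
def bd (v t F J : ℕ) : ℕ := v + 2 * F * (t + 1) + 3 * t + 10 + J * F * (t + 1)

/-- The bound for the size. -/
def bd2 (v t F J : ℕ) : ℕ := cost4 v t F J * (bd v t F J + 1)

theorem bd2_mono {v v' t t' F F' J J' : ℕ} (hv : v ≤ v') (ht : t ≤ t') (hF : F ≤ F')
    (hJ : J ≤ J') : bd2 v t F J ≤ bd2 v' t' F' J' := by
  unfold bd2 bd cost4 cost3 cost2 cost1
  gcongr

theorem pb_bd2 (r : ℕ) : PB fun M => bd2 ((M + 2) ^ r) r (((M + 2) ^ r + 1) ^ r) ((M + 2) ^ r) := by
  have hv : PB fun M => (M + 2) ^ r := PB.base.pow r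
  have hF : PB fun M => ((M + 2) ^ r + 1) ^ r := (hv.add (PB.const 1)).pow r
  have h1 : PB fun M => cost1 ((M + 2) ^ r) r := (PB.const 2).add (hv.mul (PB.const _))
  have h2 : PB fun M => cost2 ((M + 2) ^ r) r (((M + 2) ^ r + 1) ^ r) r :=
    (PB.const 1).add ((PB.const r).mul ((PB.const 1).add (hF.mul (h1.add (PB.const 1)))))
  have h3 : PB fun M => cost3 ((M + 2) ^ r) r (((M + 2) ^ r + 1) ^ r) :=
    (h2.add (PB.const 2)).add (hF.mul ((hF.mul (PB.const 4)).add (PB.const 3)))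
  have h4 : PB fun M => cost4 ((M + 2) ^ r) r (((M + 2) ^ r + 1) ^ r) ((M + 2) ^ r) :=
    (((PB.const 1).add (hv.mul (h3.add (PB.const 1)))).add ((PB.const 2).mul (hv.mul hF))).add
      (PB.const 1)
  have h5 : PB fun M => bd ((M + 2) ^ r) r (((M + 2) ^ r + 1) ^ r) ((M + 2) ^ r) :=
    (((hv.add (((PB.const 2).mul hF).mul (PB.const (r + 1)))).add (PB.const (3 * r))).add
      (PB.const 10)).add ((hv.mul hF).mul (PB.const (r + 1)))
  exact h4.mul (h5.add (PB.const 1))

/-! ### The clauses -/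

theorem cov_partition {M : ℕ} (H : Finset (Finset (Fin M))) :
    Cov {φ | ∃ D ∈ partitionCNF H, φ = clause D} (Subtype.val : {B // B ∈ H} → Finset (Fin M)) := by
  classical
  refine ⟨fun z => ?_, fun u v huv hd => ?_⟩
  · obtain ⟨κ, hκ⟩ : ∃ κ, κ = pointClause (Subtype.val : {B // B ∈ H} → Finset (Fin M)) z := ⟨_, rfl⟩
    have h1 : κ.toList ∈ partitionCNF H := mem_listCNF.2 ⟨κ, Finset.mem_union_left _
      (Finset.mem_image.2 ⟨z, Finset.mem_univ z, hκ.symm⟩), rfl⟩
    refine ⟨κ.toList.map Prod.fst, ?_, ?_, ⟨κ.toList, h1, ?_⟩⟩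
    · intro u hu
      obtain ⟨l, hl, rfl⟩ := List.mem_map.1 hu
      rw [Finset.mem_toList, hκ] at hl
      obtain ⟨v, hv, rfl⟩ := Finset.mem_image.1 hl
      exact (Finset.mem_filter.1 hv).2
    · rw [List.length_map, Finset.length_toList, hκ]
      exact Finset.card_image_le.trans (Finset.card_le_univ _)
    · unfold clause
      rw [List.map_map]
      refine congrArg disjL (List.map_congr_left fun l hl => ?_)
      rw [Finset.mem_toList, hκ] at hl
      obtain ⟨v, hv, rfl⟩ := Finset.mem_image.1 hl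
      rfl
  · obtain ⟨κ, hκ⟩ : ∃ κ : Finset ({B // B ∈ H} × Bool), κ = {(u, false), (v, false)} := ⟨_, rfl⟩
    have h1 : κ.toList ∈ partitionCNF H := mem_listCNF.2 ⟨κ, Finset.mem_union_right _
      (Finset.mem_image.2 ⟨(u, v), Finset.mem_filter.2 ⟨Finset.mem_univ _, huv, hd⟩, hκ.symm⟩), rfl⟩
    have hne : (u, false) ≠ (v, false) := fun h => huv (Prod.mk.inj h).1
    have h2 : κ.toList.Perm [(u, false), (v, false)] := by
      refine (List.perm_ext_iff_of_nodup (Finset.nodup_toList κ) ?_).2 fun l => ?_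
      · simpa using hne
      · rw [Finset.mem_toList, hκ]
        simp
    have h3 : κ.toList = [(u, false), (v, false)] ∨ κ.toList = [(v, false), (u, false)] := by
      have h4 := h2.length_eq
      obtain ⟨a, b, hab⟩ := List.length_eq_two.1 h4
      rw [hab] at h2 ⊢
      have ha : a ∈ [(u, false), (v, false)] := h2.mem_iff.1 List.mem_cons_self
      simp only [List.mem_cons, List.not_mem_nil, or_false] at ha
      rcases ha with rfl | rfl
      · have h5 := List.singleton_perm_singleton.1 ((List.perm_cons _).1 h2)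
        exact Or.inl (by rw [h5])
      · have h5 := List.singleton_perm_singleton.1
          ((List.perm_cons _).1 (h2.trans (List.Perm.swap _ _ _)))
        exact Or.inr (by rw [h5])
    rcases h3 with h3 | h3
    · refine Or.inl ⟨κ.toList, h1, ?_⟩
      rw [h3]
      rfl
    · refine Or.inr ⟨κ.toList, h1, ?_⟩
      rw [h3]
      rfl

/-- **Short refutations** of polynomial size. -/
theorem easy (p : ℕ) (hp : p.Prime) (r : ℕ) (hr : 2 ≤ r) : ∃ C : ℕ, ∀ (M : ℕ)
    (H : Finset (Finset (Fin M))), (∀ B ∈ H, B.card = r) → ¬ p ^ r.factorization p ∣ M →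
      ∃ (l : ℕ) (L : Fin l → Form {B // B ∈ H}),
        IsDerivation (ceRules p) 3 {φ | ∃ D ∈ partitionCNF H, φ = clause D} L ∧
        (∃ i, L i = falsum) ∧ size L ≤ (M + 2) ^ C := by
  obtain ⟨C, hC⟩ := pb_bd2 r
  refine ⟨C, fun M H hH hM => ?_⟩
  have hM0 : 0 < M := by
    rcases Nat.eq_zero_or_pos M with rfl | h
    · exact absurd (dvd_zero _) hM
    · exact h
  have hqr : p ^ r.factorization p ∣ r := Nat.ordProj_dvd r p
  have hqr' : p ^ r.factorization p ≤ r := Nat.le_of_dvd (by omega) hqr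
  obtain ⟨v, hv⟩ : ∃ v, v = (M + 2) ^ r := ⟨_, rfl⟩
  obtain ⟨F, hF⟩ : ∃ F, F = (v + 1) ^ r := ⟨_, rfl⟩
  have hC' : bd2 v r F v ≤ (M + 2) ^ C := by
    rw [hF, hv]
    exact hC M
  obtain ⟨t, ht, h⟩ := d_main (P := bd v r F v)
    (cov_partition H) hp (a := r.factorization p)
    (fun u => by rw [hH u.1 u.2]; exact hqr) (by rw [Fintype.card_fin]; exact hM0)
    (by rw [Fintype.card_fin]; exact hM)
  have htr : t ≤ r := (ht.le).trans hqr'
  have hcard : Fintype.card {B // B ∈ H} ≤ v := by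
    rw [Fintype.card_coe]
    have h1 : H ⊆ Finset.powersetCard r Finset.univ := fun B hB =>
      Finset.mem_powersetCard.2 ⟨Finset.subset_univ B, hH B hB⟩
    have h2 := Finset.card_le_card h1
    rw [Finset.card_powersetCard, Finset.card_univ, Fintype.card_fin] at h2
    rw [hv]
    exact h2.trans ((Nat.choose_le_pow M r).trans (Nat.pow_le_pow_left (by omega) r))
  have hJ : (Fintype.card (Fin M)).choose t ≤ v := by
    rw [Fintype.card_fin, hv]
    exact (Nat.choose_le_pow M t).trans ((Nat.pow_le_pow_left (by omega) t).trans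
      (Nat.pow_le_pow_right (by omega) htr))
  have hFam : ∀ T : Finset (Fin M), T.card ≤ t →
      (fam (Subtype.val : {B // B ∈ H} → Finset (Fin M)) T).card ≤ F := by
    intro T hT
    rw [hF]
    refine (card_fam _ T).trans ((Nat.pow_le_pow_left (hcard.trans (Nat.le_succ v)) _).trans
      (Nat.pow_le_pow_right (Nat.succ_pos v) (hT.trans htr)))
  have h1 : Fintype.card {B // B ∈ H} + 2 * F * (t + 1) + 3 * t + 10 ≤ bd v r F v := by
    have h2 : Fintype.card {B // B ∈ H} + 2 * F * (t + 1) + 3 * t + 10 ≤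
        v + 2 * F * (r + 1) + 3 * r + 10 := by gcongr
    unfold bd
    omega
  have h2 : (Fintype.card (Fin M)).choose t * F * (t + 1) + 1 ≤ bd v r F v := by
    have h3 : (Fintype.card (Fin M)).choose t * F * (t + 1) ≤ v * F * (r + 1) := by gcongr
    unfold bd
    omega
  obtain ⟨l, L, hL, hs⟩ := (h F hFam h1 h2).exists
  refine ⟨l, L, hL.1, hL.2, hs.trans (le_trans ?_ hC')⟩
  unfold bd2
  refine Nat.mul_le_mul_right _ ?_
  unfold cost4 cost3 cost2 cost1
  gcongr

end Pool.Agent.MP_9cec2c_lc.CE
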