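import Pool.Agent.Lib.MP_9cec2c_lc.CEDer

/-!
Derived rules for lists of formulas: elimination of cases, exactly one true formula, sums, and the
removal of formulas with multiplicities divisible by `p`.
-/

set_option autoImplicit false
set_option linter.unusedSectionVars false

namespace Pool.Agent.MP_9cec2c_lc.CE

open FG

variable {V : Type} {p P : ℕ} {Φ : Set (Form V)} {n m : ℕ} {φ ψ χ : Form V}
  {Λ Γ Δ Ξ : List (Form V)}

theorem dp_disj {e : ℕ} (h : ∀ φ ∈ Λ, φ.depth ≤ e) : (disjL Λ).depth ≤ e + 1 := by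
  classical
  rw [depth_disjL_le]
  intro φ hφ
  have := h φ hφ
  split_ifs <;> omega

theorem dp_conj {e : ℕ} (h : ∀ φ ∈ Λ, φ.depth ≤ e) : (conjL Λ).depth ≤ e + 1 := by
  classical
  rw [depth_conjL_le]
  intro φ hφ
  have := h φ hφ
  split_ifs <;> omega

theorem dp_count {c e : ℕ} (h : ∀ φ ∈ Λ, φ.depth ≤ e) : (countL c Λ).depth ≤ e + 1 := by
  rw [depth_countL_le]
  intro φ hφ
  have := h φ hφ
  omega

theorem dp_neg {e : ℕ} (h : φ.depth ≤ e) : (Form.neg φ).depth ≤ e := h

theorem ok_disj (h : ∀ φ ∈ Λ, φ.depth ≤ 2) (hw : wtL Λ + 1 ≤ P) : Ok P (disjL Λ) :=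
  ⟨dp_disj h, by rw [wt_disjL]; exact hw⟩

theorem ok_sub (h : Ok P (disjL Λ)) (hs : ∀ φ ∈ Γ, φ ∈ Λ) (hw : wtL Γ ≤ wtL Λ) :
    Ok P (disjL Γ) := by
  classical
  refine ⟨?_, ?_⟩
  · have h1 := h.1
    rw [depth_disjL_le] at h1 ⊢
    exact fun φ hφ => h1 φ (hs φ hφ)
  · have h1 := h.2
    rw [wt_disjL] at h1 ⊢
    omega

theorem elim_aux (Γ : List (Form V)) (m : ℕ) : ∀ (Δ : List (Form V)) (n : ℕ),
    DN p P Φ n (disjL (Δ ++ Γ)) → (∀ φ ∈ Δ, DN p P Φ m (disjL (.neg φ :: Γ))) →
      DN p P Φ (n + Δ.length * (m + 1)) (disjL Γ) := by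
  intro Δ
  induction Δ with
  | nil =>
    intro n h _
    exact h.mono (by simp)
  | cons φ Δ ih =>
    intro n h h'
    have h1 : Ok P (disjL (Δ ++ Γ)) := by
      refine ok_sub h.ok (fun ψ hψ => List.mem_cons_of_mem _ hψ) ?_
      rw [List.cons_append, wtL_cons]
      omega
    have h2 := r_el (Λ := Δ) (Γ := Γ) h (h' φ List.mem_cons_self) h1
    refine (ih _ h2 fun ψ hψ => h' ψ (List.mem_cons_of_mem _ hψ)).mono ?_
    rw [List.length_cons, Nat.add_mul, one_mul]
    omega

/-- Distinction of cases. -/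
theorem elim (h : DN p P Φ n (disjL Δ)) (hφ : ∀ φ ∈ Δ, DN p P Φ m (disjL (.neg φ :: Γ)))
    (hok : Ok P (disjL (Δ ++ Γ))) : DN p P Φ (n + 1 + Δ.length * (m + 1)) (disjL Γ) :=
  elim_aux Γ m Δ (n + 1) (r_w h hok) hφ

/-- Exactly one formula is true. -/
theorem exone (h : DN p P Φ n (disjL Γ))
    (hpair : ∀ Λ₁ Λ₂ φ, Γ = Λ₁ ++ φ :: Λ₂ → ∀ ψ ∈ Λ₁ ++ Λ₂,
      DN p P Φ m (disjL [.neg φ, .neg ψ]))
    (hd : ∀ φ ∈ Γ, φ.depth ≤ 1) (hw : 2 * wtL Γ + 5 ≤ P) :
    DN p P Φ (n + 2 + Γ.length * (Γ.length * (m + 1) + 3)) (countL 1 Γ) := by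
  have hwt : ∀ φ ∈ Γ, wt φ ≤ wtL Γ := by
    intro φ hφ
    obtain ⟨Λ₁, Λ₂, hΛ⟩ := List.append_of_mem hφ
    rw [hΛ, wtL_append, wtL_cons]
    omega
  have key : ∀ φ ∈ Γ, DN p P Φ (Γ.length * (m + 1) + 2)
      (disjL (.neg φ :: [countL 1 Γ])) := by
    intro φ hφ
    obtain ⟨Λ₁, Λ₂, hΛ⟩ := List.append_of_mem hφ
    have h1 : ∀ Ξ Ξ' : List (Form V), Ξ' ++ Ξ = Λ₁ ++ Λ₂ → DN p P Φ (Ξ.length * (m + 1) + 1)
        (disjL [.neg φ, .neg (disjL Ξ)]) := by
      intro Ξ
      induction Ξ with
      | nil =>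
        intro Ξ' _
        refine (r_x0 (ok_disj ?_ ?_)).mono (by simp)
        · intro χ hχ
          simp only [List.mem_cons, List.not_mem_nil, or_false] at hχ
          rcases hχ with rfl | rfl
          · exact (dp_neg (hd φ hφ)).trans (by omega)
          · exact dp_neg (dp_disj (e := 1) fun ψ hψ => absurd hψ List.not_mem_nil)
        · have := hwt φ hφ
          rw [wtL_cons, wtL_cons, wt_neg, wt_neg, wt_disjL, wtL_nil]
          omega
      | cons ψ Ξ ih =>
        intro Ξ' hΞ
        have hψ : ψ ∈ Λ₁ ++ Λ₂ := by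
          rw [← hΞ]
          exact List.mem_append_right _ List.mem_cons_self
        have h2 := ih (Ξ' ++ [ψ]) (by rw [← hΞ]; simp)
        have hsub : ∀ χ ∈ ψ :: Ξ, χ ∈ Γ := by
          intro χ hχ
          have h3 : χ ∈ Λ₁ ++ Λ₂ := by
            rw [← hΞ]
            exact List.mem_append_right _ hχ
          rw [hΛ]
          rcases List.mem_append.1 h3 with h3 | h3
          · exact List.mem_append_left _ h3
          · exact List.mem_append_right _ (List.mem_cons_of_mem _ h3)
        have hw3 : wtL (ψ :: Ξ) ≤ wtL Γ := by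
          have h3 : wtL (ψ :: Ξ) ≤ wtL (Λ₁ ++ Λ₂) := by
            rw [← hΞ, wtL_append]
            omega
          rw [hΛ, wtL_append, wtL_cons φ Λ₂]
          rw [wtL_append] at h3
          omega
        refine (r_x1 h2 (hpair Λ₁ Λ₂ φ hΛ ψ hψ) (ok_disj ?_ ?_)).mono ?_
        · intro χ hχ
          simp only [List.mem_cons, List.not_mem_nil, or_false] at hχ
          rcases hχ with rfl | rfl
          · exact (dp_neg (hd φ hφ)).trans (by omega)
          · exact dp_neg (dp_disj (e := 1) fun ψ hψ => hd _ (hsub _ hψ))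
        · have := hwt φ hφ
          rw [wtL_cons, wtL_cons, wt_neg, wt_neg, wt_disjL, wtL_nil]
          omega
        · rw [List.length_cons, Nat.add_mul, one_mul]
          omega
    have h2 := h1 (Λ₁ ++ Λ₂) [] rfl
    have h3 : Ok P (disjL [.neg φ, countL 1 (Λ₁ ++ φ :: Λ₂)]) := by
      rw [← hΛ]
      refine ok_disj ?_ ?_
      · intro χ hχ
        simp only [List.mem_cons, List.not_mem_nil, or_false] at hχ
        rcases hχ with rfl | rfl
        · exact (dp_neg (hd φ hφ)).trans (by omega)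
        · exact dp_count hd
      · have := hwt φ hφ
        rw [wtL_cons, wtL_cons, wt_neg, wt_countL, wtL_nil]
        omega
    have h4 := r_x2 h2 h3
    rw [← hΛ] at h4
    refine h4.mono ?_
    have h5 : (Λ₁ ++ Λ₂).length ≤ Γ.length := by
      rw [hΛ, List.length_append, List.length_append, List.length_cons]
      omega
    have := Nat.mul_le_mul_right (m + 1) h5
    omega
  have h1 := elim h key (ok_disj ?_ ?_)
  · refine (r_one h1 ⟨(dp_count hd).trans (by omega), ?_⟩).mono ?_
    · rw [wt_countL]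
      omega
    · have : Γ.length * (m + 1) + 2 + 1 = Γ.length * (m + 1) + 3 := rfl
      rw [this]
      omega
  · intro χ hχ
    rcases List.mem_append.1 hχ with hχ | hχ
    · exact (hd χ hχ).trans (by omega)
    · rw [List.mem_singleton.1 hχ]
      exact dp_count hd
  · rw [wtL_append, wtL_cons, wt_countL, wtL_nil]
    omega

/-- Sums. -/
theorem sums {T : Type} (Γ : T → List (Form V)) (hp : 1 < p) (Ts : List T)
    (h : ∀ t ∈ Ts, DN p P Φ m (countL 1 (Γ t)))
    (hd : ∀ t, ∀ φ ∈ Γ t, φ.depth ≤ 2) (hw : wtL (Ts.flatMap Γ) + 1 ≤ P) :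
    DN p P Φ (1 + Ts.length * (m + 1)) (countL (Ts.length % p) (Ts.flatMap Γ)) := by
  induction Ts with
  | nil =>
    refine (r_s0 ⟨?_, ?_⟩).mono (by simp)
    · exact (dp_count (e := 2) fun φ hφ => absurd hφ List.not_mem_nil)
    · rw [wt_countL, wtL_nil]
      omega
  | cons t Ts ih =>
    rw [List.flatMap_cons, wtL_append] at hw
    have h1 := ih (fun t' ht' => h t' (List.mem_cons_of_mem _ ht')) (by omega)
    have h2 := r_s1 (Nat.mod_lt _ (by omega)) h1 (h t List.mem_cons_self) (by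
      refine ⟨dp_count (e := 2) fun φ hφ => ?_, ?_⟩
      · rcases List.mem_append.1 hφ with hφ | hφ
        · exact hd t φ hφ
        · obtain ⟨t', -, hφ⟩ := List.mem_flatMap.1 hφ
          exact hd t' φ hφ
      · rw [wt_countL, wtL_append]
        omega)
    rw [Nat.mod_add_mod] at h2
    rw [List.length_cons, List.flatMap_cons]
    refine h2.mono ?_
    rw [Nat.add_mul, one_mul]
    omega

theorem wtL_perm (h : Λ.Perm Γ) : wtL Λ = wtL Γ := by
  unfold wtL
  exact (h.map wt).sum_eq

open Classical in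
/-- The removal of formulas with multiplicities divisible by `p`. -/
theorem remove (hp : 0 < p) {c : ℕ} (hc : c < p) : ∀ (k : ℕ) (Ω : List (Form V)) (n : ℕ),
    Ω.length ≤ k → (∀ φ, p ∣ Ω.count φ) → (∀ φ ∈ Ω, φ.depth ≤ 2) → wtL Ω + 1 ≤ P →
      DN p P Φ n (countL c Ω) → DN p P Φ (n + 2 * Ω.length) (countL c []) := by
  intro k
  induction k with
  | zero =>
    intro Ω n hk _ _ _ h
    have h1 : Ω = [] := List.length_eq_zero_iff.1 (Nat.le_zero.1 hk)
    rw [h1] at h ⊢
    exact h.mono (by simp)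
  | succ k ih =>
    intro Ω n hk hmul hd hw h
    rcases Ω with _ | ⟨φ, Ω₀⟩
    · exact h.mono (by simp)
    · obtain ⟨Ω, hΩ⟩ : ∃ Ω, Ω = φ :: Ω₀ := ⟨_, rfl⟩
      rw [← hΩ] at hk hmul hd hw h ⊢
      have hpos : 0 < Ω.count φ := by
        rw [List.count_pos_iff, hΩ]
        exact List.mem_cons_self
      have hple : p ≤ Ω.count φ := Nat.le_of_dvd hpos (hmul φ)
      have key : ∀ i ≤ p, ∃ Ω', DN p P Φ (n + i) (countL c (List.replicate i φ ++ Ω')) ∧
          (List.replicate i φ ++ Ω').Perm Ω := by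
        intro i
        induction i with
        | zero => exact fun _ => ⟨Ω, h, List.Perm.refl _⟩
        | succ i ih' =>
          intro hi
          obtain ⟨Ω', h1, h2⟩ := ih' (by omega)
          have h3 : φ ∈ Ω' := by
            rw [← List.count_pos_iff]
            have h4 := h2.count_eq φ
            rw [List.count_append, List.count_replicate_self] at h4
            omega
          obtain ⟨Λ₁, Λ₂, h4⟩ := List.append_of_mem h3
          rw [h4, ← List.append_assoc] at h1
          have h5 : (List.replicate (i + 1) φ ++ (Λ₁ ++ Λ₂)).Perm Ω := by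
            refine List.Perm.trans ?_ h2
            have h6 : List.replicate (i + 1) φ ++ (Λ₁ ++ Λ₂) =
                φ :: (List.replicate i φ ++ (Λ₁ ++ Λ₂)) := rfl
            rw [h6, h4]
            have h7 : (φ :: (Λ₁ ++ Λ₂)).Perm (Λ₁ ++ φ :: Λ₂) := List.perm_middle.symm
            exact List.perm_middle.symm.trans (List.Perm.append_left _ h7)
          refine ⟨Λ₁ ++ Λ₂, ?_, h5⟩
          have h6 := r_mv hc h1 ⟨dp_count (e := 2) fun ψ hψ => ?_, ?_⟩
          · rw [List.append_assoc] at h6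
            exact h6
          · have h7 : ψ ∈ List.replicate (i + 1) φ ++ (Λ₁ ++ Λ₂) := by
              rw [List.append_assoc] at hψ
              exact hψ
            exact hd ψ (h5.mem_iff.1 h7)
          · rw [wt_countL]
            have h7 := wtL_perm h5
            have h8 : φ :: (List.replicate i φ ++ Λ₁ ++ Λ₂) =
                List.replicate (i + 1) φ ++ (Λ₁ ++ Λ₂) := by
              rw [List.append_assoc]
              rfl
            rw [h8, h7]
            exact hw
      obtain ⟨Ω', h1, h2⟩ := key p le_rfl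
      have hlen := h2.length_eq
      rw [List.length_append, List.length_replicate] at hlen
      have hwt := wtL_perm h2
      rw [wtL_append] at hwt
      have hd' : ∀ ψ ∈ Ω', ψ.depth ≤ 2 := fun ψ hψ =>
        hd ψ (h2.mem_iff.1 (List.mem_append_right _ hψ))
      have h3 := r_del hc h1 ⟨dp_count (e := 2) hd', by rw [wt_countL]; omega⟩
      refine (ih Ω' (n + p + 1) (by omega) (fun ψ => ?_) hd' (by omega) h3).mono (by omega)
      have h4 := h2.count_eq ψ
      rw [List.count_append] at h4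
      have h5 := hmul ψ
      rw [← h4] at h5
      refine (Nat.dvd_add_right ?_).1 h5
      rw [List.count_replicate]
      split_ifs
      · exact dvd_rfl
      · exact dvd_zero p

end Pool.Agent.MP_9cec2c_lc.CE
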