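import Pool.Agent.Lib.MP_9cec2c_lc.CDDefs

/-!
Multigraphs, tree decompositions and the Tseitin formulas of all graphs.
-/

set_option autoImplicit false

namespace Pool.Agent.MP_9cec2c_lc.TT

open Finset
open Flat (valueClauses eqClauses)
open FG (listCNF)

section

variable {V E : Type} [Fintype V] [Fintype E] [DecidableEq V] [DecidableEq E]

/-- The edges with exactly one end point in `U`. A multigraph is given by the end points `src e`
and `tgt e` of the edges `e`. -/
def cut (src tgt : E → V) (U : Finset V) : Finset E :=
  univ.filter fun e => ¬ (src e ∈ U ↔ tgt e ∈ U)

/-- The graph is connected: some edge leaves each set of vertices, which is not empty and does not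
contain all vertices. -/
def Connected (src tgt : E → V) : Prop :=
  ∀ U : Finset V, U.Nonempty → U ≠ univ → (cut src tgt U).Nonempty

/-- The edges at the vertex `v`. -/
def inc (src tgt : E → V) (v : V) : Finset E := univ.filter fun e => src e = v ∨ tgt e = v

/-- The graph has a tree decomposition in which all bags have at most `k` vertices. The tree is
given by the parents of the nodes: the parent has smaller rank, and exactly one node, the root, has
no parent. Every vertex lies in some bag, the end points of every edge lie together in some bag, and
the nodes whose bags contain a vertex `v` form a subtree: only one of them is the root or has a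
parent whose bag does not contain `v`. -/
def HasTreeDec (src tgt : E → V) (k : ℕ) : Prop :=
  ∃ (I : Type) (_ : Fintype I) (par : I → Option I) (rank : I → ℕ) (bag : I → Finset V),
    (∀ i j, par i = some j → rank j < rank i) ∧
    (∀ i j, par i = none → par j = none → i = j) ∧
    (∀ i, (bag i).card ≤ k) ∧ (∀ v, ∃ i, v ∈ bag i) ∧
    (∀ e, ∃ i, src e ∈ bag i ∧ tgt e ∈ bag i) ∧
    ∀ v i j, v ∈ bag i → v ∈ bag j → (∀ i', par i = some i' → v ∉ bag i') →
      (∀ j', par j = some j' → v ∉ bag j') → i = j

/-- The coefficient of the edge `e` in the equation of the vertex `v`: the value of the edge is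
added at `src e` and subtracted at `tgt e`. -/
def coef (src tgt : E → V) (r : ℕ) (v : V) (e : E) : ZMod r :=
  (if src e = v then 1 else 0) - (if tgt e = v then 1 else 0)

/-- The Tseitin formula modulo `r` of the graph, with the charges `s`: every edge has a value modulo
`r`, and at every vertex `v` the sum of the values of the edges, with the signs `coef`, is `s v`. -/
def tseitin (src tgt : E → V) (r : ℕ) [NeZero r] (s : V → ZMod r) :
    Finset (Finset ((E × ZMod r) × Bool)) :=
  (univ.biUnion fun e : E => valueClauses r e) ∪
  (univ.biUnion fun v : V => eqClauses (inc src tgt v) (coef src tgt r v) (s v))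

/-- The clauses as a list of lists. -/
noncomputable def tseitinCNF (src tgt : E → V) (r : ℕ) [NeZero r] (s : V → ZMod r) :
    List (List ((E × ZMod r) × Bool)) :=
  listCNF (tseitin src tgt r s)

end

end Pool.Agent.MP_9cec2c_lc.TT
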