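import Pool.Agent.Lib.MP_9cec2c_lc.CEList
import Pool.Agent.Lib.MP_9cec2c_lc.Mg.G022

/-!
Short refutations of partition principles: all sets have a size divisible by `p ^ a`, and the number
of points is not divisible by `p ^ a`.
-/

set_option autoImplicit false
set_option linter.unusedSectionVars false

namespace Pool.Agent.MP_9cec2c_lc.CE

open FG

variable {V Q : Type} [Fintype V] [DecidableEq V] [Fintype Q] [DecidableEq Q] {p P : ℕ}
  {Φ : Set (Form V)} {blk : V → Finset Q}

/-- The conjunction of the variables of a set. -/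
noncomputable def cj (B : Finset V) : Form V := conjL (B.toList.map Form.var)

/-- The conjunctions of the families for a set of points. -/
noncomputable def gam (blk : V → Finset Q) (T : Finset Q) : List (Form V) :=
  (fam blk T).toList.map cj

/-- The axioms contain the clauses of the partition principle. -/
structure Cov (Φ : Set (Form V)) (blk : V → Finset Q) : Prop where
  pt : ∀ z : Q, ∃ D : List V, (∀ u ∈ D, z ∈ blk u) ∧ D.length ≤ Fintype.card V ∧
    disjL (D.map Form.var) ∈ Φ
  pair : ∀ u v : V, u ≠ v → ¬ Disjoint (blk u) (blk v) →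
    disjL [.neg (.var u), .neg (.var v)] ∈ Φ ∨ disjL [.neg (.var v), .neg (.var u)] ∈ Φ

theorem dp_var (v : V) : (Form.var v).depth = 0 := rfl

theorem wt_var (v : V) : wt (Form.var v) = 1 := rfl

theorem wtL_vars (D : List V) : wtL (D.map Form.var) = D.length := by
  induction D with
  | nil => rfl
  | cons v D ih =>
    rw [List.map_cons, wtL_cons, ih, wt_var, List.length_cons]
    omega

theorem dp_cj (B : Finset V) : (cj B).depth ≤ 1 := by
  refine dp_conj (e := 0) fun φ hφ => ?_
  obtain ⟨v, -, rfl⟩ := List.mem_map.1 hφ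
  exact le_rfl

theorem wt_cj (B : Finset V) : wt (cj B) = B.card + 1 := by
  unfold cj
  rw [wt_conjL, wtL_vars, Finset.length_toList]

theorem dp_gam {T : Finset Q} : ∀ φ ∈ gam blk T, φ.depth ≤ 1 := by
  intro φ hφ
  obtain ⟨B, -, rfl⟩ := List.mem_map.1 hφ
  exact dp_cj B

theorem length_gam (T : Finset Q) : (gam blk T).length = (fam blk T).card := by
  unfold gam
  rw [List.length_map, Finset.length_toList]

theorem wtL_gam (T : Finset Q) : wtL (gam blk T) ≤ (fam blk T).card * (T.card + 1) := by
  rw [← length_gam (blk := blk)]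
  refine wtL_le fun φ hφ => ?_
  obtain ⟨B, hB, rfl⟩ := List.mem_map.1 hφ
  rw [wt_cj]
  exact Nat.succ_le_succ (fam_card (Finset.mem_toList.1 hB))

theorem d_pair (hΦ : Cov Φ blk) {u v : V} (huv : u ≠ v) (hd : ¬ Disjoint (blk u) (blk v))
    (hP : 10 ≤ P) : DN p P Φ 2 (disjL [.neg (.var u), .neg (.var v)]) := by
  have hok : ∀ u v : V, Ok P (disjL [.neg (.var u), .neg (.var v)]) := by
    intro u v
    refine ok_disj ?_ ?_
    · intro φ hφ
      simp only [List.mem_cons, List.not_mem_nil, or_false] at hφ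
      rcases hφ with rfl | rfl <;> exact Nat.zero_le 2
    · rw [wtL_cons, wtL_cons, wtL_nil, wt_neg, wt_neg, wt_var, wt_var]
      omega
  rcases hΦ.pair u v huv hd with h | h
  · exact (DN.ax h (hok u v)).mono (by omega)
  · exact r_sw (DN.ax h (hok v u)) (hok u v)

theorem d_new {u : V} {B : Finset V} (hP : 2 * B.card + 10 ≤ P) :
    DN p P Φ (2 * B.card + 3) (disjL [.neg (.var u), .neg (cj B), cj (insert u B)]) := by
  have hok : ∀ ψ : Form V, ψ.depth ≤ 1 → wt ψ ≤ B.card + 2 →
      Ok P (disjL [.neg (.var u), .neg (cj B), ψ]) := by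
    intro ψ h1 h2
    refine ok_disj ?_ ?_
    · intro φ hφ
      simp only [List.mem_cons, List.not_mem_nil, or_false] at hφ
      rcases hφ with rfl | rfl | rfl
      · exact Nat.zero_le 2
      · exact (dp_neg (dp_cj B)).trans (by omega)
      · omega
    · rw [wtL_cons, wtL_cons, wtL_cons, wtL_nil, wt_neg, wt_neg, wt_var, wt_cj]
      omega
  have h1 : ∀ w, w = u ∨ w ∈ B → DN p P Φ 1 (disjL [.neg (.var u), .neg (cj B), .var w]) := by
    intro w hw
    have hok' := hok (.var w) (Nat.zero_le 1) (by rw [wt_var]; omega)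
    rcases hw with rfl | hw
    · exact r_a hok'
    · obtain ⟨L₁, L₂, hL⟩ := List.append_of_mem (Finset.mem_toList.2 hw)
      have h2 : cj B = conjL (L₁.map Form.var ++ Form.var w :: L₂.map Form.var) := by
        unfold cj
        rw [hL, List.map_append, List.map_cons]
      rw [h2] at hok' ⊢
      exact r_b hok'
  have h2 : ∀ Ξ : List V, (∀ w ∈ Ξ, w = u ∨ w ∈ B) → Ξ.length ≤ B.card + 1 →
      DN p P Φ (2 * Ξ.length + 1) (disjL [.neg (.var u), .neg (cj B), conjL (Ξ.map Form.var)]) := by
    intro Ξ
    induction Ξ with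
    | nil =>
      intro _ _
      refine (r_c0 (hok _ ?_ ?_)).mono (by simp)
      · exact dp_conj (e := 0) fun φ hφ => absurd hφ List.not_mem_nil
      · rw [wt_conjL, wtL_nil]
        omega
    | cons w Ξ ih =>
      intro hΞ hlen
      rw [List.length_cons] at hlen
      have h3 := ih (fun w' hw' => hΞ w' (List.mem_cons_of_mem _ hw')) (by omega)
      have h4 := r_c1 h3 (h1 w (hΞ w List.mem_cons_self)) (hok _ ?_ ?_)
      · refine h4.mono ?_
        rw [List.length_cons]
        omega
      · refine dp_conj (e := 0) fun φ hφ => ?_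
        rcases List.mem_cons.1 hφ with rfl | hφ
        · exact le_rfl
        · obtain ⟨v, -, rfl⟩ := List.mem_map.1 hφ
          exact le_rfl
      · rw [wt_conjL, wtL_cons, wtL_vars, wt_var]
        omega
  have h3 : (insert u B).toList.length ≤ B.card + 1 := by
    rw [Finset.length_toList]
    exact Finset.card_insert_le u B
  refine (h2 (insert u B).toList (fun w hw => ?_) h3).mono (by omega)
  exact Finset.mem_insert.1 (Finset.mem_toList.1 hw)

/-- The cost of one family. -/
def cost1 (v t : ℕ) : ℕ := 2 + v * (2 * t + 5)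

theorem d_step1 (hΦ : Cov Φ blk) {T : Finset Q} {B : Finset V} (hB : B ∈ fam blk T) (z : Q)
    {t F : ℕ} (hT : T.card + 1 ≤ t) (hF : (fam blk (insert z T)).card ≤ F)
    (hP : Fintype.card V + 2 * F * (t + 1) + 3 * t + 10 ≤ P) :
    DN p P Φ (cost1 (Fintype.card V) t) (disjL (.neg (cj B) :: gam blk (insert z T))) := by
  have hBt : B.card ≤ t := (fam_card hB).trans (by omega)
  have hTz : (insert z T).card ≤ t := (Finset.card_insert_le z T).trans hT
  have hwg : wtL (gam blk (insert z T)) ≤ F * (t + 1) :=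
    (wtL_gam _).trans (Nat.mul_le_mul hF (Nat.succ_le_succ hTz))
  have hF2 : 2 * F * (t + 1) = F * (t + 1) + F * (t + 1) := by ring
  by_cases hz : ∃ u ∈ B, z ∈ blk u
  · have h1 : cj B ∈ gam blk (insert z T) :=
      List.mem_map.2 ⟨B, Finset.mem_toList.2 (fam_in hB hz), rfl⟩
    obtain ⟨Λ, Γ, hΛ⟩ := List.append_of_mem h1
    have hok : Ok P (disjL (.neg (cj B) :: gam blk (insert z T))) := by
      refine ok_disj ?_ ?_
      · intro φ hφ
        rcases List.mem_cons.1 hφ with rfl | hφ
        · exact (dp_neg (dp_cj B)).trans (by omega)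
        · exact (dp_gam φ hφ).trans (by omega)
      · rw [wtL_cons, wt_neg, wt_cj]
        omega
    rw [hΛ] at hok ⊢
    exact (r_em hok).mono (by unfold cost1; omega)
  · obtain ⟨D, hD1, hD2, hD3⟩ := hΦ.pt z
    have hu : ∀ φ ∈ D.map Form.var, DN p P Φ (2 * t + 4)
        (disjL (.neg φ :: (.neg (cj B) :: gam blk (insert z T)))) := by
      intro φ hφ
      obtain ⟨u, hu, rfl⟩ := List.mem_map.1 hφ
      have hzu := hD1 u hu
      have huB : u ∉ B := fun h => hz ⟨u, h, hzu⟩
      have hok : Ok P (disjL (.neg (.var u) :: .neg (cj B) :: gam blk (insert z T))) := by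
        refine ok_disj ?_ ?_
        · intro φ hφ
          rcases List.mem_cons.1 hφ with rfl | hφ
          · exact Nat.zero_le 2
          rcases List.mem_cons.1 hφ with rfl | hφ
          · exact (dp_neg (dp_cj B)).trans (by omega)
          · exact (dp_gam φ hφ).trans (by omega)
        · rw [wtL_cons, wtL_cons, wt_neg, wt_neg, wt_cj, wt_var]
          omega
      by_cases hd : ∀ v ∈ B, Disjoint (blk u) (blk v)
      · have h1 : cj (insert u B) ∈ gam blk (insert z T) :=
          List.mem_map.2 ⟨_, Finset.mem_toList.2 (fam_new hB hzu hd), rfl⟩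
        obtain ⟨Λ, Γ, hΛ⟩ := List.append_of_mem h1
        rw [hΛ] at hok ⊢
        exact (r_wm (d_new (by omega)) hok).mono (by omega)
      · push Not at hd
        obtain ⟨v, hv, hd⟩ := hd
        have huv : u ≠ v := fun h => huB (h ▸ hv)
        obtain ⟨L₁, L₂, hL⟩ := List.append_of_mem (Finset.mem_toList.2 hv)
        have h2 : cj B = conjL (L₁.map Form.var ++ Form.var v :: L₂.map Form.var) := by
          unfold cj
          rw [hL, List.map_append, List.map_cons]
        rw [h2] at hok ⊢
        exact (r_p (d_pair hΦ huv hd (by omega)) hok).mono (by omega)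
    have hok1 : Ok P (disjL (D.map Form.var)) := by
      refine ok_disj ?_ ?_
      · intro φ hφ
        obtain ⟨u, hu, rfl⟩ := List.mem_map.1 hφ
        exact Nat.zero_le 2
      · rw [wtL_vars]
        omega
    refine (elim (DN.ax hD3 hok1) hu (ok_disj ?_ ?_)).mono ?_
    · intro φ hφ
      rcases List.mem_append.1 hφ with hφ | hφ
      · obtain ⟨u, hu, rfl⟩ := List.mem_map.1 hφ
        exact Nat.zero_le 2
      rcases List.mem_cons.1 hφ with rfl | hφ
      · exact (dp_neg (dp_cj B)).trans (by omega)
      · exact (dp_gam φ hφ).trans (by omega)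
    · rw [wtL_append, wtL_cons, wtL_vars, wt_neg, wt_cj]
      omega
    · unfold cost1
      rw [List.length_map]
      have h5 : D.length * (2 * t + 4 + 1) ≤ Fintype.card V * (2 * t + 5) :=
        Nat.mul_le_mul_right _ hD2
      omega

/-- The cost of the clause of a set of points. -/
def cost2 (v t F k : ℕ) : ℕ := 1 + k * (1 + F * (cost1 v t + 1))

theorem d_fam (hΦ : Cov Φ blk) {t F : ℕ} (hF : ∀ T : Finset Q, T.card ≤ t → (fam blk T).card ≤ F)
    (hP : Fintype.card V + 2 * F * (t + 1) + 3 * t + 10 ≤ P) (T : Finset Q) (hT : T.card ≤ t) :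
    DN p P Φ (cost2 (Fintype.card V) t F T.card) (disjL (gam blk T)) := by
  have hF2 : 2 * F * (t + 1) = F * (t + 1) + F * (t + 1) := by ring
  induction T using Finset.induction_on with
  | empty =>
    have h1 : gam blk (∅ : Finset Q) = [conjL ([] : List (Form V))] := by
      unfold gam
      rw [fam_empty, Finset.toList_singleton, List.map_cons, List.map_nil]
      unfold cj
      rw [Finset.toList_empty, List.map_nil]
    rw [h1]
    refine (r_top (ok_disj ?_ ?_)).mono (by unfold cost2; omega)
    · intro φ hφ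
      rw [List.mem_singleton.1 hφ]
      exact (dp_conj (e := 0) fun φ hφ => absurd hφ List.not_mem_nil).trans (by omega)
    · rw [wtL_cons, wtL_nil, wt_conjL, wtL_nil]
      omega
  | insert z T hz ih =>
    rw [Finset.card_insert_of_notMem hz] at hT ⊢
    have h1 := ih (by omega)
    have hFT := hF T (by omega)
    have hFz := hF (insert z T) (by rw [Finset.card_insert_of_notMem hz]; exact hT)
    have hw1 : wtL (gam blk T) ≤ F * (t + 1) :=
      (wtL_gam _).trans (Nat.mul_le_mul hFT (by omega))
    have hw2 : wtL (gam blk (insert z T)) ≤ F * (t + 1) :=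
      (wtL_gam _).trans (Nat.mul_le_mul hFz (by rw [Finset.card_insert_of_notMem hz]; omega))
    refine (elim (m := cost1 (Fintype.card V) t) h1 (fun φ hφ => ?_) (ok_disj ?_ ?_)).mono ?_
    · obtain ⟨B, hB, rfl⟩ := List.mem_map.1 hφ
      exact d_step1 hΦ (Finset.mem_toList.1 hB) z hT hFz hP
    · intro φ hφ
      rcases List.mem_append.1 hφ with hφ | hφ
      · exact (dp_gam φ hφ).trans (by omega)
      · exact (dp_gam φ hφ).trans (by omega)
    · rw [wtL_append]
      omega
    · rw [length_gam]
      have h5 := Nat.mul_le_mul_right (cost1 (Fintype.card V) t + 1) hFT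
      unfold cost2
      have h6 : (T.card + 1) * (1 + F * (cost1 (Fintype.card V) t + 1)) =
        T.card * (1 + F * (cost1 (Fintype.card V) t + 1)) +
          (1 + F * (cost1 (Fintype.card V) t + 1)) := by ring
      rw [h6]
      omega

/-- The members of a conjunction. -/
def args : Form V → List (Form V)
  | .conj _ F => List.ofFn F
  | _ => []

theorem args_conjL (Λ : List (Form V)) : args (conjL Λ) = Λ := List.ofFn_get Λ

theorem cj_inj {B B' : Finset V} (h : cj B = cj B') : B = B' := by
  have h1 : B.toList.map Form.var = B'.toList.map Form.var := by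
    have h2 := congrArg args h
    unfold cj at h2
    rwa [args_conjL, args_conjL] at h2
  have h2 : B.toList = B'.toList := by
    refine List.map_injective_iff.2 (fun u v huv => ?_) h1
    injection huv
  rw [← Finset.toList_toFinset B, h2, Finset.toList_toFinset]

theorem nodup_gam (T : Finset Q) : (gam blk T).Nodup :=
  (Finset.nodup_toList _).map fun _ _ h => cj_inj h

/-- The cost of the counting gate of a set of points. -/
def cost3 (v t F : ℕ) : ℕ := cost2 v t F t + 2 + F * (F * 4 + 3)

theorem d_one (hΦ : Cov Φ blk) {t F : ℕ} (hF : ∀ T : Finset Q, T.card ≤ t → (fam blk T).card ≤ F)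
    (hP : Fintype.card V + 2 * F * (t + 1) + 3 * t + 10 ≤ P) (T : Finset Q) (hT : T.card = t) :
    DN p P Φ (cost3 (Fintype.card V) t F) (countL 1 (gam blk T)) := by
  have hF2 : 2 * F * (t + 1) = 2 * (F * (t + 1)) := by ring
  have hFT := hF T hT.le
  have hw1 : wtL (gam blk T) ≤ F * (t + 1) :=
    (wtL_gam _).trans (Nat.mul_le_mul hFT (by omega))
  have h1 := d_fam hΦ hF hP T hT.le (p := p)
  rw [hT] at h1
  have h2 := exone (m := 3) h1 ?_ dp_gam (by omega)
  · refine h2.mono ?_
    rw [length_gam]
    unfold cost3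
    have h5 : (fam blk T).card * ((fam blk T).card * (3 + 1) + 3) ≤ F * (F * 4 + 3) :=
      Nat.mul_le_mul hFT (Nat.add_le_add_right (Nat.mul_le_mul_right 4 hFT) 3)
    omega
  · intro Λ₁ Λ₂ φ hΛ ψ hψ
    have hnd := nodup_gam (blk := blk) T
    rw [hΛ, List.nodup_middle, List.nodup_cons] at hnd
    have hne : φ ≠ ψ := fun h => hnd.1 (h ▸ hψ)
    have hφ : φ ∈ gam blk T := by
      rw [hΛ]
      exact List.mem_append_right _ List.mem_cons_self
    have hψ' : ψ ∈ gam blk T := by
      rw [hΛ]
      rcases List.mem_append.1 hψ with h | h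
      · exact List.mem_append_left _ h
      · exact List.mem_append_right _ (List.mem_cons_of_mem _ h)
    obtain ⟨B, hB, rfl⟩ := List.mem_map.1 hφ
    obtain ⟨B', hB', rfl⟩ := List.mem_map.1 hψ'
    have hBB : B ≠ B' := fun h => hne (by rw [h])
    obtain ⟨u, hu, v, hv, huv, hd⟩ := fam_pair (Finset.mem_toList.1 hB) (Finset.mem_toList.1 hB') hBB
    have hcB := fam_card (Finset.mem_toList.1 hB)
    have hcB' := fam_card (Finset.mem_toList.1 hB')
    have hok : Ok P (disjL [.neg (cj B), .neg (cj B')]) := by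
      refine ok_disj ?_ ?_
      · intro φ hφ
        simp only [List.mem_cons, List.not_mem_nil, or_false] at hφ
        rcases hφ with rfl | rfl
        · exact (dp_neg (dp_cj B)).trans (by omega)
        · exact (dp_neg (dp_cj B')).trans (by omega)
      · rw [wtL_cons, wtL_cons, wtL_nil, wt_neg, wt_neg, wt_cj, wt_cj]
        omega
    have hcj : ∀ (B : Finset V) (v : V), v ∈ B → ∃ L₁ L₂,
        cj B = conjL (L₁ ++ Form.var v :: L₂) := by
      intro B v hv
      obtain ⟨L₁, L₂, hL⟩ := List.append_of_mem (Finset.mem_toList.2 hv)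
      refine ⟨L₁.map Form.var, L₂.map Form.var, ?_⟩
      unfold cj
      rw [hL, List.map_append, List.map_cons]
    obtain ⟨L₁, L₂, hL⟩ := hcj B u hu
    obtain ⟨L₁', L₂', hL'⟩ := hcj B' v hv
    rw [hL, hL'] at hok ⊢
    exact r_pr (d_pair hΦ huv hd (by omega)) hok

open Classical in
theorem count_gam {t a : ℕ} (hp : p.Prime) (ht : 1 ≤ t) (hta : t < p ^ a)
    (hblk : ∀ u, p ^ a ∣ (blk u).card) (φ : Form V) :
    p ∣ (((Finset.univ : Finset Q).powersetCard t).toList.flatMap (gam blk)).count φ := by
  rw [List.count_flatMap]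
  by_cases hφ : ∃ B : Finset V, φ = cj B
  · obtain ⟨B, rfl⟩ := hφ
    have h1 : ∀ T : Finset Q, (gam blk T).count (cj B) = if B ∈ fam blk T then 1 else 0 := by
      intro T
      by_cases hB : B ∈ fam blk T
      · rw [if_pos hB]
        exact List.count_eq_one_of_mem (nodup_gam T)
          (List.mem_map.2 ⟨B, Finset.mem_toList.2 hB, rfl⟩)
      · rw [if_neg hB, List.count_eq_zero]
        intro h
        obtain ⟨B', hB', h2⟩ := List.mem_map.1 h
        rw [← cj_inj h2] at hB
        exact hB (Finset.mem_toList.1 hB')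
    have h2 : (List.map (List.count (cj B) ∘ gam blk)
        ((Finset.univ : Finset Q).powersetCard t).toList).sum =
        (((Finset.univ : Finset Q).powersetCard t).filter fun T => B ∈ fam blk T).card := by
      rw [Finset.card_filter, Finset.sum_map_toList]
      exact Finset.sum_congr rfl fun T _ => h1 T
    rw [h2]
    exact fam_count hp ht hta hblk B
  · have h1 : ∀ T : Finset Q, (gam blk T).count φ = 0 := by
      intro T
      rw [List.count_eq_zero]
      intro h
      obtain ⟨B, -, rfl⟩ := List.mem_map.1 h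
      exact hφ ⟨B, rfl⟩
    rw [Finset.sum_map_toList]
    have h2 : ∑ T ∈ (Finset.univ : Finset Q).powersetCard t, (List.count φ ∘ gam blk) T = 0 :=
      Finset.sum_eq_zero fun T _ => h1 T
    rw [h2]
    exact dvd_zero p

/-- The total cost. -/
def cost4 (v t F J : ℕ) : ℕ := 1 + J * (cost3 v t F + 1) + 2 * (J * F) + 1

/-- The refutation. -/
theorem d_main (hΦ : Cov Φ blk) {a : ℕ} (hp : p.Prime) (hblk : ∀ u, p ^ a ∣ (blk u).card)
    (hQ0 : 0 < Fintype.card Q) (hQ : ¬ p ^ a ∣ Fintype.card Q) :
    ∃ t < p ^ a, ∀ F, (∀ T : Finset Q, T.card ≤ t → (fam blk T).card ≤ F) →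
      Fintype.card V + 2 * F * (t + 1) + 3 * t + 10 ≤ P →
      (Fintype.card Q).choose t * F * (t + 1) + 1 ≤ P →
      DN p P Φ (cost4 (Fintype.card V) t F ((Fintype.card Q).choose t)) falsum := by
  classical
  obtain ⟨j, m, hm, hjm⟩ := Nat.exists_eq_pow_mul_and_not_dvd hQ0.ne' p hp.ne_one
  have hja : j < a := by
    by_contra hcon
    push Not at hcon
    apply hQ
    rw [hjm]
    exact Dvd.dvd.mul_right (pow_dvd_pow p hcon) m
  refine ⟨p ^ j, Nat.pow_lt_pow_right hp.one_lt hja, fun F hF hP hP' => ?_⟩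
  obtain ⟨t, ht⟩ : ∃ t, t = p ^ j := ⟨_, rfl⟩
  have ht1 : 1 ≤ t := by
    rw [ht]
    exact Nat.one_le_pow _ _ hp.pos
  have hta : t < p ^ a := by
    rw [ht]
    exact Nat.pow_lt_pow_right hp.one_lt hja
  have hJ : ¬ p ∣ (Fintype.card Q).choose t := by
    rw [hjm, ht]
    exact not_dvd_choose hp j m hm
  rw [← ht] at hF hP hP' ⊢
  obtain ⟨Ts, hTs⟩ : ∃ Ts, Ts = ((Finset.univ : Finset Q).powersetCard t).toList := ⟨_, rfl⟩
  have hlenT : Ts.length = (Fintype.card Q).choose t := by
    rw [hTs, Finset.length_toList, Finset.card_powersetCard, Finset.card_univ]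
  have hmT : ∀ T ∈ Ts, T.card = t := by
    intro T hT
    rw [hTs, Finset.mem_toList, Finset.mem_powersetCard] at hT
    exact hT.2
  have hlen : (Ts.flatMap (gam blk)).length ≤ (Fintype.card Q).choose t * F := by
    rw [List.length_flatMap, ← hlenT]
    have h1 := List.sum_le_card_nsmul (Ts.map fun T => (gam blk T).length) F (by
      intro n hn
      obtain ⟨T, hT, rfl⟩ := List.mem_map.1 hn
      rw [length_gam]
      exact hF T (hmT T hT).le)
    simpa using h1
  have hd : ∀ φ ∈ Ts.flatMap (gam blk), φ.depth ≤ 2 := by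
    intro φ hφ
    obtain ⟨T, -, hφ⟩ := List.mem_flatMap.1 hφ
    exact (dp_gam φ hφ).trans (by omega)
  have hwt : wtL (Ts.flatMap (gam blk)) ≤ (Fintype.card Q).choose t * F * (t + 1) := by
    refine (wtL_le (w := t + 1) fun φ hφ => ?_).trans (Nat.mul_le_mul_right _ hlen)
    obtain ⟨T, hT, hφ⟩ := List.mem_flatMap.1 hφ
    obtain ⟨B, hB, rfl⟩ := List.mem_map.1 hφ
    rw [wt_cj]
    have := fam_card (Finset.mem_toList.1 hB)
    rw [hmT T hT] at this
    omega
  have h1 := sums (gam blk) hp.one_lt Ts (fun T hT => d_one hΦ hF hP T (hmT T hT))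
    (fun T φ hφ => (dp_gam φ hφ).trans (by omega)) (by omega)
  have hc : Ts.length % p < p := Nat.mod_lt _ hp.pos
  have h2 := remove hp.pos hc _ _ _ le_rfl (fun φ => ?_) hd (by omega) h1
  · have h3 := r_end hc (fun h => hJ (by rw [← hlenT]; exact Nat.dvd_of_mod_eq_zero h)) h2
    refine h3.mono ?_
    unfold cost4
    rw [hlenT]
    omega
  · rw [hTs]
    exact count_gam hp ht1 hta hblk φ

end Pool.Agent.MP_9cec2c_lc.CE
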