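import Pool.Agent.Lib.MP_9cec2c_lc.FGComp

/-!
A finite set of sound rules for short refutations of counting principles.
-/

set_option autoImplicit false
set_option linter.unusedSectionVars false
set_option linter.unusedSimpArgs false

namespace Pool.Agent.MP_9cec2c_lc.CE

open FG

variable {V : Type} {p : ℕ}

theorem i_form (σ : ℕ → Form V) (τ : ℕ → List (Form V)) (i : ℕ) :
    (Scheme.form i).inst σ τ = [σ i] := rfl

theorem i_list (σ : ℕ → Form V) (τ : ℕ → List (Form V)) (i : ℕ) :
    (Scheme.list i).inst σ τ = τ i := rfl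

theorem i_neg (σ : ℕ → Form V) (τ : ℕ → List (Form V)) (P : Scheme) :
    (Scheme.neg P).inst σ τ = (P.inst σ τ).map .neg := rfl

theorem e_neg (x : V → Bool) (φ : Form V) : (Form.neg φ).eval p x ↔ ¬ φ.eval p x := Iff.rfl

/-- Formula metavariables. -/
abbrev f (i : ℕ) : Scheme := .form i
/-- List metavariables. -/
abbrev g (i : ℕ) : Scheme := .list i

/-- Weakening. -/
def kW : Rule := ⟨[orS [g 0]], orS [g 0, g 1]⟩
/-- Elimination of a case. -/
def kEl : Rule := ⟨[orS [f 0, g 0, g 1], orS [.neg (f 0), g 1]], orS [g 0, g 1]⟩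
/-- Excluded middle. -/
def kEm : Rule := ⟨[], orS [.neg (f 0), g 0, f 0, g 1]⟩
/-- Exchange. -/
def kSw : Rule := ⟨[orS [f 0, f 1]], orS [f 1, f 0]⟩
/-- Exclusion of a conjunction. -/
def kP : Rule := ⟨[orS [.neg (f 0), .neg (f 1)]],
  orS [.neg (f 0), .neg (andS [g 0, f 1, g 1]), g 2]⟩
/-- The empty conjunction. -/
def kC0 : Rule := ⟨[], orS [f 0, f 1, andS []]⟩
/-- One more member of a conjunction. -/
def kC1 : Rule := ⟨[orS [f 0, f 1, andS [g 0]], orS [f 0, f 1, f 2]],
  orS [f 0, f 1, andS [f 2, g 0]]⟩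
/-- Excluded middle. -/
def kA : Rule := ⟨[], orS [.neg (f 0), f 1, f 0]⟩
/-- A member of a true conjunction. -/
def kB : Rule := ⟨[], orS [f 1, .neg (andS [g 0, f 0, g 1]), f 0]⟩
/-- Weakening. -/
def kWm : Rule := ⟨[orS [f 0, f 1, f 2]], orS [f 0, f 1, g 0, f 2, g 1]⟩
/-- Exclusion of two conjunctions. -/
def kPr : Rule := ⟨[orS [.neg (f 0), .neg (f 1)]],
  orS [.neg (andS [g 0, f 0, g 1]), .neg (andS [g 2, f 1, g 3])]⟩
/-- The empty disjunction. -/
def kX0 : Rule := ⟨[], orS [.neg (f 0), .neg (orS [])]⟩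
/-- One more member of a false disjunction. -/
def kX1 : Rule := ⟨[orS [.neg (f 0), .neg (orS [g 0])], orS [.neg (f 0), .neg (f 1)]],
  orS [.neg (f 0), .neg (orS [f 1, g 0])]⟩
/-- Exactly one formula is true. -/
def kX2 : Rule := ⟨[orS [.neg (f 0), .neg (orS [g 0, g 1])]],
  orS [.neg (f 0), modS 1 [g 0, f 0, g 1]]⟩
/-- A disjunction with one member. -/
def kOne : Rule := ⟨[orS [f 0]], f 0⟩
/-- The empty conjunction. -/
def kTop : Rule := ⟨[], orS [andS []]⟩
/-- The empty counting gate. -/
def kS0 : Rule := ⟨[], modS 0 []⟩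
/-- Addition. -/
def kS1 (p c : ℕ) : Rule := ⟨[modS c [g 0], modS 1 [g 1]], modS ((c + 1) % p) [g 1, g 0]⟩
/-- A member is moved to the front. -/
def kMv (c : ℕ) : Rule := ⟨[modS c [g 0, f 0, g 1]], modS c [f 0, g 0, g 1]⟩
/-- The removal of `p` copies. -/
def kDel (p c : ℕ) : Rule := ⟨[modS c (List.replicate p (f 0) ++ [g 0])], modS c [g 0]⟩
/-- The contradiction. -/
def kEnd (c : ℕ) : Rule := ⟨[modS c []], orS []⟩

/-- The rules. -/
def ceRules (p : ℕ) : Set Rule :=
  {R | R ∈ [kW, kEl, kEm, kSw, kP, kC0, kC1, kA, kB, kWm, kPr, kX0, kX1, kX2, kOne, kTop, kS0]} ∪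
    {R | ∃ c < p, R = kS1 p c ∨ R = kMv c ∨ R = kDel p c ∨ (c ≠ 0 ∧ R = kEnd c)}

theorem ceRules_finite (p : ℕ) : (ceRules p).Finite := by
  refine Set.Finite.union (List.finite_toSet _) ?_
  have h1 : ({R | ∃ c < p, R = kS1 p c ∨ R = kMv c ∨ R = kDel p c ∨ (c ≠ 0 ∧ R = kEnd c)} :
      Set Rule) ⊆ ((fun c => kS1 p c) '' Set.Iio p ∪ (fun c => kMv c) '' Set.Iio p) ∪
        ((fun c => kDel p c) '' Set.Iio p ∪ (fun c => kEnd c) '' Set.Iio p) := by
    rintro R ⟨c, hc, h | h | h | ⟨-, h⟩⟩
    · exact Or.inl (Or.inl ⟨c, hc, h.symm⟩)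
    · exact Or.inl (Or.inr ⟨c, hc, h.symm⟩)
    · exact Or.inr (Or.inl ⟨c, hc, h.symm⟩)
    · exact Or.inr (Or.inr ⟨c, hc, h.symm⟩)
  exact ((((Set.finite_Iio p).image _).union ((Set.finite_Iio p).image _)).union
    (((Set.finite_Iio p).image _).union ((Set.finite_Iio p).image _))).subset h1

theorem snd0 {C : Scheme} (h : ∀ (V : Type) (σ : ℕ → Form V) (τ : ℕ → List (Form V))
    (x : V → Bool), ∀ φ ∈ C.inst σ τ, φ.eval p x) : Rule.Sound p ⟨[], C⟩ :=
  fun V σ τ x _ => h V σ τ x

theorem snd1 {P C : Scheme} (h : ∀ (V : Type) (σ : ℕ → Form V) (τ : ℕ → List (Form V))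
    (x : V → Bool), (∀ φ ∈ P.inst σ τ, φ.eval p x) → ∀ φ ∈ C.inst σ τ, φ.eval p x) :
    Rule.Sound p ⟨[P], C⟩ :=
  fun V σ τ x h1 => h V σ τ x (h1 P (List.mem_singleton_self P))

theorem snd2 {P Q C : Scheme} (h : ∀ (V : Type) (σ : ℕ → Form V) (τ : ℕ → List (Form V))
    (x : V → Bool), (∀ φ ∈ P.inst σ τ, φ.eval p x) → (∀ φ ∈ Q.inst σ τ, φ.eval p x) →
      ∀ φ ∈ C.inst σ τ, φ.eval p x) : Rule.Sound p ⟨[P, Q], C⟩ :=
  fun V σ τ x h1 => h V σ τ x (h1 P List.mem_cons_self)
    (h1 Q (List.mem_cons_of_mem _ (List.mem_singleton_self Q)))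

theorem ct_replicate (x : V → Bool) (φ : Form V) (n : ℕ) :
    ct p x (List.replicate n φ) = n * ct p x [φ] := by
  induction n with
  | zero => simp [ct]
  | succ n ih =>
    have h1 : List.replicate (n + 1) φ = [φ] ++ List.replicate n φ := rfl
    rw [h1, ct_append, ih]
    ring

theorem flatMap_replicate {σ : ℕ → Form V} {τ : ℕ → List (Form V)} (n : ℕ) :
    ((List.replicate n (f 0)).flatMap fun P => P.inst σ τ) = List.replicate n (σ 0) := by
  induction n with
  | zero => rfl
  | succ n ih =>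
    have h1 : List.replicate (n + 1) (f 0) = f 0 :: List.replicate n (f 0) := rfl
    rw [h1, List.flatMap_cons, ih]
    rfl

theorem ceRules_sound (p : ℕ) : ∀ R ∈ ceRules p, R.Sound p := by
  classical
  rintro R (hR | ⟨c, hc, h | h | h | ⟨hc0, h⟩⟩)
  · have hR' : R ∈ [kW, kEl, kEm, kSw, kP, kC0, kC1, kA, kB, kWm, kPr, kX0, kX1, kX2, kOne, kTop,
      kS0] := hR
    simp only [List.mem_cons, List.not_mem_nil, or_false] at hR'
    rcases hR' with rfl | rfl | rfl | rfl | rfl | rfl | rfl | rfl | rfl | rfl | rfl | rfl | rfl |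
      rfl | rfl | rfl | rfl
    · refine snd1 fun V σ τ x h => ?_
      simp only [inst_orS, List.flatMap_cons, List.flatMap_nil, i_list, List.mem_singleton,
        forall_eq, eval_disjL, List.mem_append, List.append_nil] at h ⊢
      obtain ⟨φ, h1, h2⟩ := h
      exact ⟨φ, Or.inl h1, h2⟩
    · refine snd2 fun V σ τ x h h' => ?_
      simp only [inst_orS, List.flatMap_cons, List.flatMap_nil, i_list, i_form, i_neg,
        List.map_cons, List.map_nil, List.mem_singleton,
        forall_eq, eval_disjL, List.mem_append, List.append_nil] at h h' ⊢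
      obtain ⟨φ, rfl | h1 | h1, h2⟩ := h
      · obtain ⟨ψ, rfl | h3, h4⟩ := h'
        · exact absurd h2 h4
        · exact ⟨ψ, Or.inr h3, h4⟩
      · exact ⟨φ, Or.inl h1, h2⟩
      · exact ⟨φ, Or.inr h1, h2⟩
    · refine snd0 fun V σ τ x => ?_
      simp only [inst_orS, List.flatMap_cons, List.flatMap_nil, i_list, i_form, i_neg,
        List.map_cons, List.map_nil, List.mem_singleton,
        forall_eq, eval_disjL, List.mem_append, List.append_nil]
      by_cases h : (σ 0).eval p x
      · exact ⟨σ 0, by tauto, h⟩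
      · exact ⟨.neg (σ 0), by tauto, h⟩
    · refine snd1 fun V σ τ x h => ?_
      simp only [inst_orS, List.flatMap_cons, List.flatMap_nil, i_form, List.mem_singleton,
        forall_eq, eval_disjL, List.mem_append, List.append_nil] at h ⊢
      obtain ⟨φ, h1 | h1, h2⟩ := h
      · exact ⟨φ, Or.inr h1, h2⟩
      · exact ⟨φ, Or.inl h1, h2⟩
    · refine snd1 fun V σ τ x h => ?_
      simp only [inst_orS, inst_andS, List.flatMap_cons, List.flatMap_nil, i_list, i_form, i_neg,
        List.map_cons, List.map_nil, List.mem_singleton,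
        forall_eq, eval_disjL, List.mem_append, List.append_nil] at h ⊢
      obtain ⟨φ, rfl | rfl, h2⟩ := h
      · exact ⟨_, Or.inl rfl, h2⟩
      · refine ⟨_, Or.inr (Or.inl rfl), fun h3 => h2 ((eval_conjL x _).1 h3 (σ 1) ?_)⟩
        simp
    · refine snd0 fun V σ τ x => ?_
      simp only [inst_orS, inst_andS, List.flatMap_cons, List.flatMap_nil, i_list, i_form, i_neg,
        List.map_cons, List.map_nil, List.mem_singleton,
        forall_eq, eval_disjL, List.mem_append, List.append_nil]
      exact ⟨_, Or.inr (Or.inr rfl), (eval_conjL x _).2 fun φ hφ => absurd hφ List.not_mem_nil⟩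
    · refine snd2 fun V σ τ x h h' => ?_
      simp only [inst_orS, inst_andS, List.flatMap_cons, List.flatMap_nil, i_list, i_form, i_neg,
        List.map_cons, List.map_nil, List.mem_singleton,
        forall_eq, eval_disjL, List.mem_append, List.append_nil] at h h' ⊢
      obtain ⟨φ, rfl | rfl | rfl, h2⟩ := h
      · exact ⟨_, Or.inl rfl, h2⟩
      · exact ⟨_, Or.inr (Or.inl rfl), h2⟩
      · obtain ⟨ψ, rfl | rfl | rfl, h4⟩ := h'
        · exact ⟨_, Or.inl rfl, h4⟩
        · exact ⟨_, Or.inr (Or.inl rfl), h4⟩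
        · refine ⟨_, Or.inr (Or.inr rfl), (eval_conjL x _).2 fun φ hφ => ?_⟩
          rcases List.mem_append.1 hφ with h5 | h5
          · rw [List.mem_singleton.1 h5]
            exact h4
          · exact (eval_conjL x _).1 h2 φ h5
    · refine snd0 fun V σ τ x => ?_
      simp only [inst_orS, List.flatMap_cons, List.flatMap_nil, i_list, i_form, i_neg,
        List.map_cons, List.map_nil, List.mem_singleton,
        forall_eq, eval_disjL, List.mem_append, List.append_nil]
      by_cases h : (σ 0).eval p x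
      · exact ⟨σ 0, by tauto, h⟩
      · exact ⟨.neg (σ 0), by tauto, h⟩
    · refine snd0 fun V σ τ x => ?_
      simp only [inst_orS, inst_andS, List.flatMap_cons, List.flatMap_nil, i_list, i_form, i_neg,
        List.map_cons, List.map_nil, List.mem_singleton,
        forall_eq, eval_disjL, List.mem_append, List.append_nil]
      by_cases h : (σ 0).eval p x
      · exact ⟨σ 0, by tauto, h⟩
      · exact ⟨_, Or.inr (Or.inl rfl), fun h3 => h ((eval_conjL x _).1 h3 (σ 0) (by simp))⟩
    · refine snd1 fun V σ τ x h => ?_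
      simp only [inst_orS, List.flatMap_cons, List.flatMap_nil, i_form, i_list, List.mem_singleton,
        forall_eq, eval_disjL, List.mem_append, List.append_nil] at h ⊢
      obtain ⟨φ, h1, h2⟩ := h
      exact ⟨φ, by tauto, h2⟩
    · refine snd1 fun V σ τ x h => ?_
      simp only [inst_orS, inst_andS, List.flatMap_cons, List.flatMap_nil, i_list, i_form, i_neg,
        List.map_cons, List.map_nil, List.mem_singleton,
        forall_eq, eval_disjL, List.mem_append, List.append_nil] at h ⊢
      obtain ⟨φ, rfl | rfl, h2⟩ := h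
      · exact ⟨_, Or.inl rfl, fun h3 => h2 ((eval_conjL x _).1 h3 (σ 0) (by simp))⟩
      · exact ⟨_, Or.inr rfl, fun h3 => h2 ((eval_conjL x _).1 h3 (σ 1) (by simp))⟩
    · refine snd0 fun V σ τ x => ?_
      simp only [inst_orS, List.flatMap_cons, List.flatMap_nil, i_list, i_form, i_neg,
        List.map_cons, List.map_nil, List.mem_singleton,
        forall_eq, eval_disjL, List.mem_append, List.append_nil]
      refine ⟨_, Or.inr rfl, fun h3 => ?_⟩
      obtain ⟨φ, hφ, -⟩ := (eval_disjL x _).1 h3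
      exact absurd hφ List.not_mem_nil
    · refine snd2 fun V σ τ x h h' => ?_
      simp only [inst_orS, List.flatMap_cons, List.flatMap_nil, i_list, i_form, i_neg,
        List.map_cons, List.map_nil, List.mem_singleton,
        forall_eq, eval_disjL, List.mem_append, List.append_nil] at h h' ⊢
      obtain ⟨φ, rfl | rfl, h2⟩ := h
      · exact ⟨_, Or.inl rfl, h2⟩
      · obtain ⟨ψ, rfl | rfl, h4⟩ := h'
        · exact ⟨_, Or.inl rfl, h4⟩
        · refine ⟨_, Or.inr rfl, fun h5 => ?_⟩
          obtain ⟨φ, h6, h7⟩ := (eval_disjL x _).1 h5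
          rcases List.mem_append.1 h6 with h8 | h8
          · rw [List.mem_singleton.1 h8] at h7
            exact h4 h7
          · exact h2 ((eval_disjL x _).2 ⟨φ, h8, h7⟩)
    · refine snd1 fun V σ τ x h => ?_
      simp only [inst_orS, inst_modS, List.flatMap_cons, List.flatMap_nil, i_list, i_form, i_neg,
        List.map_cons, List.map_nil, List.mem_singleton,
        forall_eq, eval_disjL, List.mem_append, List.append_nil] at h ⊢
      obtain ⟨φ, rfl | rfl, h2⟩ := h
      · exact ⟨_, Or.inl rfl, h2⟩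
      · by_cases h3 : (σ 0).eval p x
        · refine ⟨_, Or.inr rfl, (eval_countL x _ _).2 ?_⟩
          have h4 : ∀ Λ : List (Form V), (∀ φ ∈ Λ, ¬ φ.eval p x) → ct p x Λ = 0 := by
            intro Λ hΛ
            induction Λ with
            | nil => rfl
            | cons φ Λ ih =>
              have h5 : φ :: Λ = [φ] ++ Λ := rfl
              rw [h5, ct_append, ct_single, if_neg (hΛ φ List.mem_cons_self),
                ih fun ψ hψ => hΛ ψ (List.mem_cons_of_mem _ hψ)]
          have h5 : ∀ φ ∈ τ 0 ++ τ 1, ¬ φ.eval p x := fun φ hφ h6 =>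
            h2 ((eval_disjL x _).2 ⟨φ, hφ, h6⟩)
          rw [ct_append, ct_append, ct_single, if_pos h3,
            h4 _ fun φ hφ => h5 φ (List.mem_append_left _ hφ),
            h4 _ fun φ hφ => h5 φ (List.mem_append_right _ hφ)]
        · exact ⟨_, Or.inl rfl, h3⟩
    · refine snd1 fun V σ τ x h => ?_
      simp only [inst_orS, List.flatMap_cons, List.flatMap_nil, i_form, List.mem_singleton,
        forall_eq, eval_disjL, List.mem_append, List.append_nil] at h ⊢
      obtain ⟨φ, rfl, h2⟩ := h
      exact h2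
    · refine snd0 fun V σ τ x => ?_
      simp only [inst_orS, inst_andS, List.flatMap_cons, List.flatMap_nil, i_list, i_form, i_neg,
        List.map_cons, List.map_nil, List.mem_singleton,
        forall_eq, eval_disjL, List.mem_append, List.append_nil]
      exact ⟨_, rfl, (eval_conjL x _).2 fun φ hφ => absurd hφ List.not_mem_nil⟩
    · refine snd0 fun V σ τ x => ?_
      simp only [inst_modS, List.flatMap_cons, List.flatMap_nil, i_list, i_form, i_neg,
        List.mem_singleton, forall_eq, List.append_nil]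
      refine (eval_countL x 0 _).2 ?_
      rw [ct_nil]
  · subst h
    refine snd2 fun V σ τ x h h' => ?_
    simp only [inst_modS, List.flatMap_cons, List.flatMap_nil, i_list, i_form, i_neg,
      List.mem_singleton, forall_eq, List.append_nil, eval_countL, ct_append] at h h' ⊢
    have h1 := Nat.ModEq.add h' h
    rw [add_comm 1 c] at h1
    exact h1.trans (Nat.mod_modEq _ _).symm
  · subst h
    refine snd1 fun V σ τ x h => ?_
    simp only [inst_modS, List.flatMap_cons, List.flatMap_nil, i_list, i_form, i_neg,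
      List.mem_singleton, forall_eq, List.append_nil, eval_countL, ct_append] at h ⊢
    have h1 : ct p x [σ 0] + (ct p x (τ 0) + ct p x (τ 1)) =
        ct p x (τ 0) + (ct p x [σ 0] + ct p x (τ 1)) := by ring
    rw [h1]
    exact h
  · subst h
    refine snd1 fun V σ τ x h => ?_
    simp only [inst_modS, List.flatMap_append, flatMap_replicate, List.flatMap_cons,
      List.flatMap_nil, i_list, List.mem_singleton, forall_eq, List.append_nil, eval_countL,
      ct_append, ct_replicate] at h ⊢
    have h1 : Nat.ModEq p (p * ct p x [σ 0] + ct p x (τ 0)) (ct p x (τ 0)) := by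
      unfold Nat.ModEq
      rw [Nat.mul_add_mod]
    exact h1.symm.trans h
  · subst h
    refine snd1 fun V σ τ x h => ?_
    exfalso
    simp only [inst_modS, List.flatMap_cons, List.flatMap_nil,
      List.mem_singleton, forall_eq, eval_countL, ct_nil] at h
    unfold Nat.ModEq at h
    rw [Nat.zero_mod, Nat.mod_eq_of_lt hc] at h
    exact hc0 h.symm

end Pool.Agent.MP_9cec2c_lc.CE
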