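import Pool.Agent.Lib.MP_9cec2c_lc.Mg.G005

/-!
# FN6: the identity over all phase matrices, and the probability of a small gap, Hermitian case
-/

set_option autoImplicit false

open Matrix Finset

namespace Pool.Agent.MP_9cec2c_lc.Flat.Herm

theorem ph_gen4 {m : ℕ} [NeZero m] (hm : 4 ∣ m) : ph (gen m 4) = Complex.I := by
  obtain ⟨k, rfl⟩ := hm
  have hk : k ≠ 0 := by
    rintro rfl
    exact NeZero.ne (4 * 0) rfl
  unfold ph gen
  rw [Nat.mul_div_cancel_left k (by norm_num : 0 < 4)]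
  have h1 : ((k : ℕ) : ZMod (4 * k)) = (((k : ℤ)) : ZMod (4 * k)) := by push_cast; rfl
  rw [h1, ZMod.stdAddChar_coe]
  have hkc : (k : ℂ) ≠ 0 := by exact_mod_cast hk
  have h2 : 2 * (Real.pi : ℂ) * Complex.I * ((k : ℤ) : ℂ) / ((4 * k : ℕ) : ℂ)
      = (Real.pi : ℂ) / 2 * Complex.I := by
    push_cast
    field_simp
    ring
  rw [h2, Complex.exp_pi_div_two_mul_I]

/-- The configuration with the entry `(u,w)` multiplied by `i` (`4` divides `m`): add `m/4` to the edge if
`u < w`, subtract `m/4` if `w < u`. -/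
theorem Smat_flip {N m : ℕ} [NeZero m] (hm : 4 ∣ m) (a : Cfg2 N m) {u w : Fin N} (h : u ≠ w) :
    Smat2 (a + Pi.single (mkEdge u w h) (if u < w then gen m 4 else - gen m 4)) =
      flip (Smat2 a) u w := by
  have hg := ph_gen4 hm
  have hgn : ph (-gen m 4) = -Complex.I := by
    rw [ph_neg, hg, Complex.conj_I]
  ext i j
  unfold flip
  rcases lt_or_gt_of_ne h with huw | huw
  · -- `u < w`
    rw [mkEdge_of_lt u w huw, if_pos huw]
    rcases lt_trichotomy i j with hij | hij | hij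
    · rw [Smat2_lt _ hij, Smat2_lt _ hij, Pi.add_apply]
      by_cases h1 : i = u ∧ j = w
      · obtain ⟨rfl, rfl⟩ := h1
        rw [if_pos ⟨rfl, rfl⟩, Pi.single_eq_same, ph_add, hg, mul_comm]
      · have h2 : ¬ (i = w ∧ j = u) := by
          rintro ⟨rfl, rfl⟩
          exact lt_asymm hij huw
        rw [if_neg h1, if_neg h2, Pi.single_eq_of_ne, add_zero]
        intro h3
        exact h1 ⟨congrArg (fun e : Edge N => e.1.1) h3, congrArg (fun e : Edge N => e.1.2) h3⟩
    · subst hij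
      rw [Smat2_diag, Smat2_diag, mul_zero, mul_zero, ite_self, ite_self]
    · rw [Smat2_gt _ hij, Smat2_gt _ hij, Pi.add_apply]
      have h1 : ¬ (i = u ∧ j = w) := by
        rintro ⟨rfl, rfl⟩
        exact lt_asymm hij huw
      rw [if_neg h1]
      by_cases h2 : i = w ∧ j = u
      · obtain ⟨rfl, rfl⟩ := h2
        rw [if_pos ⟨rfl, rfl⟩, Pi.single_eq_same, ph_add, hg, map_mul, Complex.conj_I, mul_comm]
      · rw [if_neg h2, Pi.single_eq_of_ne, add_zero]
        intro h3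
        exact h2 ⟨congrArg (fun e : Edge N => e.1.2) h3, congrArg (fun e : Edge N => e.1.1) h3⟩
  · -- `w < u`
    rw [mkEdge_symm, mkEdge_of_lt w u huw, if_neg (not_lt.2 huw.le)]
    rcases lt_trichotomy i j with hij | hij | hij
    · rw [Smat2_lt _ hij, Smat2_lt _ hij, Pi.add_apply]
      have h1 : ¬ (i = u ∧ j = w) := by
        rintro ⟨rfl, rfl⟩
        exact lt_asymm hij huw
      rw [if_neg h1]
      by_cases h2 : i = w ∧ j = u
      · obtain ⟨rfl, rfl⟩ := h2
        rw [if_pos ⟨rfl, rfl⟩, Pi.single_eq_same, ph_add, hgn, mul_comm]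
      · rw [if_neg h2, Pi.single_eq_of_ne, add_zero]
        intro h3
        exact h2 ⟨congrArg (fun e : Edge N => e.1.1) h3, congrArg (fun e : Edge N => e.1.2) h3⟩
    · subst hij
      rw [Smat2_diag, Smat2_diag, mul_zero, mul_zero, ite_self, ite_self]
    · rw [Smat2_gt _ hij, Smat2_gt _ hij, Pi.add_apply]
      by_cases h1 : i = u ∧ j = w
      · obtain ⟨rfl, rfl⟩ := h1
        rw [if_pos ⟨rfl, rfl⟩, Pi.single_eq_same, ph_add, hgn, map_mul, map_neg, Complex.conj_I,
          neg_neg, mul_comm]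
      · have h2 : ¬ (i = w ∧ j = u) := by
          rintro ⟨rfl, rfl⟩
          exact lt_asymm hij huw
        rw [if_neg h1, if_neg h2, Pi.single_eq_of_ne, add_zero]
        intro h3
        exact h1 ⟨congrArg (fun e : Edge N => e.1.2) h3, congrArg (fun e : Edge N => e.1.1) h3⟩

/-- EXACT IDENTITY: the sum of `lamMax (flip S u w) - lamMax S` over all configurations is 0. -/
theorem sum_FF (N m : ℕ) [NeZero m] (hm : 4 ∣ m) :
    ∑ a : Cfg2 N m, FF (Smat2 a) = 4 * ∑ a : Cfg2 N m, lamMax (Smat2 a) := by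
  unfold FF
  rw [sum_add_distrib, ← mul_sum, ← mul_sum]
  have h0 : ∑ a : Cfg2 N m, ∑ u, ∑ w ∈ univ.erase u,
      (lamMax (flip (Smat2 a) u w) - lamMax (Smat2 a)) = 0 := by
    rw [sum_comm]
    refine sum_eq_zero fun u _ => ?_
    rw [sum_comm]
    refine sum_eq_zero fun w hw => ?_
    have huw : u ≠ w := (ne_of_mem_erase hw).symm
    rw [sum_sub_distrib]
    have h3 : ∑ a : Cfg2 N m, lamMax (flip (Smat2 a) u w) = ∑ a : Cfg2 N m, lamMax (Smat2 a) := by
      rw [← Equiv.sum_comp (Equiv.addRight (Pi.single (mkEdge u w huw)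
        (if u < w then gen m 4 else - gen m 4) : Cfg2 N m)) (fun a => lamMax (Smat2 a))]
      refine sum_congr rfl fun a _ => ?_
      rw [Equiv.coe_addRight, Smat_flip hm a huw]
    rw [h3, sub_self]
  rw [h0, mul_zero, zero_add]

/-- The number of configurations without the event `O`, divided by the number of all configurations. -/
noncomputable def badO (N m : ℕ) [NeZero m] (n K P δ : ℝ) : ℝ :=
  ({a : Cfg2 N m | ¬ OO (Smat2 a) n K P δ}.ncard : ℝ) / (m : ℝ) ^ Fintype.card (Edge N)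

theorem ncard_eq_sum {N m : ℕ} [NeZero m] (p : Cfg2 N m → Prop) [DecidablePred p] :
    ({a : Cfg2 N m | p a}.ncard : ℝ) = ∑ a : Cfg2 N m, if p a then (1 : ℝ) else 0 := by
  rw [sum_boole, ← Set.ncard_coe_finset]
  congr 2
  ext a
  simp

/-- LEMMA F, probability (see `FM6`). -/
theorem prob_gap {N m : ℕ} [NeZero m] (hm : 4 ∣ m) (hN : 0 < N) {n K P δ P' Γ : ℝ}
    (hp : Par (Fin N) n K P δ)
    (hP' : 2 * P ≤ P') (hP'n : 10 ^ 4 * P' ≤ n) (hΓ : 0 < Γ) :
    ({a : Cfg2 N m | OO (Smat2 a) n K P δ ∧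
        ¬ ∃ ψ, TP (Smat2 a) (lamMax (Smat2 a)) ψ (Γ / n)}.ncard : ℝ) /
        (m : ℝ) ^ Fintype.card (Edge N) ≤
      (2 * P + Γ) / 8 * (4 * δ + 16 * √(δ + 2 * K / √P' + 2 * P' / n ^ 2) + 16 / P' + 200 / n +
        badO N m n K P δ * (4 * n + 8)) := by
  classical
  have : Nonempty (Fin N) := ⟨⟨0, hN⟩⟩
  have hn := hp.n0
  have hK := hp.K1
  have hP0 : 0 < P := by rw [hp.P_eq]; positivity
  have hP'0 : 0 < P' := by linarith
  set κ : ℝ := √(δ + 2 * K / √P' + 2 * P' / n ^ 2) with hκ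
  have hκ0 : 0 ≤ κ := Real.sqrt_nonneg _
  set X : ℝ := 8 * n * (1 - 2 * κ - 2 / P') - 200 with hX
  set Y : ℝ := 8 * n / (2 * P + Γ) with hY
  have hY0 : 0 < Y := by rw [hY]; positivity
  set M : ℝ := (m : ℝ) ^ Fintype.card (Edge N) with hM
  have hm0 : (0 : ℝ) < m := by
    have := NeZero.ne m
    positivity
  have hM0 : 0 < M := by rw [hM]; positivity
  have hcard : (Fintype.card (Cfg2 N m) : ℝ) = M := by
    rw [card_cfg2, hM]
    push_cast
    ring
  set nO : ℝ := ∑ a : Cfg2 N m, if OO (Smat2 a) n K P δ then (1 : ℝ) else 0 with hnO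
  set nB : ℝ := ∑ a : Cfg2 N m, if ¬ OO (Smat2 a) n K P δ then (1 : ℝ) else 0 with hnB
  set nG : ℝ := ∑ a : Cfg2 N m, if OO (Smat2 a) n K P δ ∧
    ¬ ∃ ψ, TP (Smat2 a) (lamMax (Smat2 a)) ψ (Γ / n) then (1 : ℝ) else 0 with hnG
  have hnB0 : 0 ≤ nB := by
    rw [hnB]
    exact sum_nonneg fun a _ => by split_ifs <;> norm_num
  have hnO0 : 0 ≤ nO := by
    rw [hnO]
    exact sum_nonneg fun a _ => by split_ifs <;> norm_num
  have hOB : nO + nB = M := by
    rw [hnO, hnB, ← sum_add_distrib, ← hcard, ← card_univ, ← nsmul_one, ← sum_const]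
    refine sum_congr rfl fun a _ => ?_
    by_cases h : OO (Smat2 a) n K P δ
    · rw [if_pos h, if_neg (not_not.2 h), add_zero]
    · rw [if_neg h, if_pos h, zero_add]
  -- the lower bound
  have h1 : X * nO + Y * nG ≤ ∑ a : Cfg2 N m, FF (Smat2 a) := by
    rw [hnO, hnG, mul_sum, mul_sum, ← sum_add_distrib]
    refine sum_le_sum fun a _ => ?_
    by_cases h : OO (Smat2 a) n K P δ
    · have hF := FF_lower hp h hP' hP'n hΓ
      by_cases hg : ∃ ψ, TP (Smat2 a) (lamMax (Smat2 a)) ψ (Γ / n)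
      · rw [if_pos h, if_neg (fun hh => hh.2 hg)]
        have := hF.1
        rw [mul_one, mul_zero, add_zero]
        exact this
      · rw [if_pos h, if_pos ⟨h, hg⟩]
        have := hF.2 hg
        rw [mul_one, mul_one]
        exact this
    · rw [if_neg h, if_neg (fun hh => h hh.1), mul_zero, mul_zero, add_zero]
      exact FF_nonneg (isSign_Smat2 a)
  -- the upper bound
  have hNn : (N : ℝ) = n ^ 2 := by
    rw [hp.sq, Fintype.card_fin]
  have h2 : ∑ a : Cfg2 N m, lamMax (Smat2 a) ≤ (2 + δ) * n * nO + n ^ 2 * nB := by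
    rw [hnO, hnB, mul_sum, mul_sum, ← sum_add_distrib]
    refine sum_le_sum fun a _ => ?_
    by_cases h : OO (Smat2 a) n K P δ
    · rw [if_pos h, if_neg (not_not.2 h), mul_one, mul_zero, add_zero]
      exact h.top
    · rw [if_neg h, if_pos h, mul_zero, mul_one, zero_add]
      have := lamMax_le_card (isSign_Smat2 a)
      rw [Fintype.card_fin, hNn] at this
      exact this
  rw [sum_FF N m hm] at h1
  rw [ncard_eq_sum, ← hnG]
  unfold badO
  rw [ncard_eq_sum, ← hnB, ← hM]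
  have h3 : Y * nG ≤ nO * (4 * δ * n + 16 * n * κ + 16 * n / P' + 200) + 4 * n ^ 2 * nB := by
    have h4 : X * nO = nO * (8 * n) - nO * (16 * n * κ + 16 * n / P' + 200) := by
      rw [hX]; ring
    nlinarith [h1, h2]
  have hE : 0 ≤ 4 * δ * n + 16 * n * κ + 16 * n / P' + 200 := by
    have := hp.δ0
    positivity
  have h5 : Y * nG ≤ M * (4 * δ * n + 16 * n * κ + 16 * n / P' + 200) + 4 * n ^ 2 * nB := by
    have : nO ≤ M := by linarith
    nlinarith [mul_le_mul_of_nonneg_right this hE]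
  have h6 : nG / M ≤ (2 * P + Γ) / (8 * n) *
      ((4 * δ * n + 16 * n * κ + 16 * n / P' + 200) + 4 * n ^ 2 * (nB / M)) := by
    rw [div_le_iff₀ hM0]
    have h7 : nG = (2 * P + Γ) / (8 * n) * (Y * nG) := by
      rw [hY]
      field_simp
    rw [h7]
    have h8 : 0 ≤ (2 * P + Γ) / (8 * n) := by positivity
    have h9 : (2 * P + Γ) / (8 * n) *
      ((4 * δ * n + 16 * n * κ + 16 * n / P' + 200) + 4 * n ^ 2 * (nB / M)) * M
      = (2 * P + Γ) / (8 * n) * (M * (4 * δ * n + 16 * n * κ + 16 * n / P' + 200)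
        + 4 * n ^ 2 * nB) := by
      field_simp
    rw [h9]
    exact mul_le_mul_of_nonneg_left h5 h8
  refine h6.trans ?_
  have h10 : (2 * P + Γ) / (8 * n) *
      ((4 * δ * n + 16 * n * κ + 16 * n / P' + 200) + 4 * n ^ 2 * (nB / M))
      = (2 * P + Γ) / 8 * (4 * δ + 16 * κ + 16 / P' + 200 / n + nB / M * (4 * n)) := by
    field_simp
  rw [h10]
  have h11 : 0 ≤ nB / M := by positivity
  refine mul_le_mul_of_nonneg_left ?_ (by positivity)
  nlinarith

end Pool.Agent.MP_9cec2c_lc.Flat.Herm
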