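import Pool.Agent.Lib.MP_9cec2c_lc.Mg.G006

/-!
FLAT, FN9b: the choice of the parameters; all numerical inequalities, Hermitian case.
`K = 6 q`, `P = 10^6 K^2`, `Γ = A K^(4r)`, `δ = 1 / (1000 Γ^2)`, `P' = (2000 K Γ^2)^2`, `q' = 500 K Γ^2`.
-/

set_option autoImplicit false

namespace Pool.Agent.MP_9cec2c_lc.Flat.Herm

open Pool.Agent.MP_9cec2c_lc.Flat

/-- The choice of the parameter `K = 6 q`. -/
theorem num_choice2 (A0 : ℝ) (k : ℕ) : ∃ x : ℝ, 0 < x ∧ ∃ N0 : ℕ, ∀ N : ℕ, N0 ≤ N →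
    ∀ L : ℕ, (L : ℝ) ≤ (N : ℝ) ^ x →
    ∃ q : ℕ, 0 < q ∧ 100 * ((L : ℝ) + 4) * Real.log N ≤ 6 * q ∧ (L : ℝ) ^ 2 ≤ 6 * q ∧
      A0 * (6 * (q : ℝ)) ^ k ≤ N := by
  obtain ⟨e, he⟩ : ∃ e : ℕ, e = 4 * k + 1 := ⟨_, rfl⟩
  have he0 : e ≠ 0 := by omega
  have heR : (e : ℝ) ≠ 0 := by exact_mod_cast he0
  obtain ⟨B, hB⟩ : ∃ B : ℕ, B = 100 * e + ⌈|A0| * 12 ^ k⌉₊ + 1 := ⟨_, rfl⟩
  refine ⟨2 / e, by positivity, B ^ e, fun N hN L hL => ?_⟩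
  have hN1 : ((B : ℝ)) ^ e ≤ (N : ℝ) := by exact_mod_cast hN
  have hN0 : (0 : ℝ) ≤ (N : ℝ) := Nat.cast_nonneg N
  obtain ⟨s, hs⟩ : ∃ s : ℝ, s = (N : ℝ) ^ (1 / (e : ℝ)) := ⟨_, rfl⟩
  have hs0 : 0 ≤ s := by
    rw [hs]
    exact Real.rpow_nonneg hN0 _
  have hse : s ^ e = N := by
    rw [hs, ← Real.rpow_natCast, ← Real.rpow_mul hN0, one_div_mul_cancel heR, Real.rpow_one]
  have hs2 : (N : ℝ) ^ (2 / (e : ℝ)) = s ^ 2 := by
    rw [hs, ← Real.rpow_natCast, ← Real.rpow_mul hN0]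
    congr 1
    push_cast
    ring
  have hsB : (B : ℝ) ≤ s := by
    by_contra hc
    have hc' : s < B := not_le.1 hc
    have : s ^ e < (B : ℝ) ^ e := pow_lt_pow_left₀ hc' hs0 he0
    linarith
  have hceil : |A0| * 12 ^ k ≤ (⌈|A0| * 12 ^ k⌉₊ : ℝ) := Nat.le_ceil _
  have hc0 : (0 : ℝ) ≤ (⌈|A0| * 12 ^ k⌉₊ : ℝ) := Nat.cast_nonneg _
  have hBR : (B : ℝ) = 100 * e + (⌈|A0| * 12 ^ k⌉₊ : ℝ) + 1 := by
    rw [hB]
    push_cast
    ring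
  have heR1 : (1 : ℝ) ≤ e := by
    have : 1 ≤ e := by omega
    exact_mod_cast this
  have hs100 : 100 * (e : ℝ) ≤ s := by linarith
  have hsA : |A0| * 12 ^ k ≤ s := by linarith
  have hs1 : 1 ≤ s := by linarith
  have hspos : 0 < s := by linarith
  have hlog : Real.log N ≤ e * s := by
    rw [← hse, Real.log_pow]
    have := Real.log_le_sub_one_of_pos hspos
    exact mul_le_mul_of_nonneg_left (by linarith) (Nat.cast_nonneg _)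
  have hlog0 : 0 ≤ Real.log N := Real.log_nonneg (by
    rw [← hse]; exact one_le_pow₀ hs1)
  rw [hs2] at hL
  refine ⟨⌈s ^ 4⌉₊, ?_, ?_, ?_, ?_⟩
  · exact Nat.ceil_pos.2 (by positivity)
  · have h1 : s ^ 4 ≤ (⌈s ^ 4⌉₊ : ℝ) := Nat.le_ceil _
    have h2 : (L : ℝ) + 4 ≤ 5 * s ^ 2 := by nlinarith
    have h3 : 100 * ((L : ℝ) + 4) * Real.log N ≤ 100 * (5 * s ^ 2) * (e * s) := by
      apply mul_le_mul _ hlog hlog0 (by positivity)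
      exact mul_le_mul_of_nonneg_left h2 (by norm_num)
    have h4 : 100 * (5 * s ^ 2) * (e * s) ≤ 6 * s ^ 4 := by
      have : 100 * (5 * s ^ 2) * (e * s) = 5 * (s ^ 3 * (100 * e)) := by ring
      rw [this]
      have h5 : s ^ 3 * (100 * e) ≤ s ^ 3 * s := mul_le_mul_of_nonneg_left hs100 (by positivity)
      nlinarith [pow_pos hspos 4]
    linarith
  · have h1 : s ^ 4 ≤ (⌈s ^ 4⌉₊ : ℝ) := Nat.le_ceil _
    have h2 : (L : ℝ) ^ 2 ≤ (s ^ 2) ^ 2 := pow_le_pow_left₀ (Nat.cast_nonneg L) hL 2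
    have h3 : (s ^ 2) ^ 2 = s ^ 4 := by ring
    nlinarith [pow_pos hspos 4]
  · have h1 : (⌈s ^ 4⌉₊ : ℝ) < s ^ 4 + 1 := Nat.ceil_lt_add_one (by positivity)
    have h2 : (1 : ℝ) ≤ s ^ 4 := one_le_pow₀ hs1
    have h3 : 6 * (⌈s ^ 4⌉₊ : ℝ) ≤ 12 * s ^ 4 := by linarith
    calc A0 * (6 * (⌈s ^ 4⌉₊ : ℝ)) ^ k ≤ |A0| * (6 * (⌈s ^ 4⌉₊ : ℝ)) ^ k :=
          mul_le_mul_of_nonneg_right (le_abs_self _) (by positivity)
      _ ≤ |A0| * (12 * s ^ 4) ^ k := by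
          apply mul_le_mul_of_nonneg_left _ (abs_nonneg _)
          exact pow_le_pow_left₀ (by positivity) h3 k
      _ = (|A0| * 12 ^ k) * s ^ (4 * k) := by
          rw [mul_pow, ← pow_mul]
          ring
      _ ≤ s * s ^ (4 * k) := mul_le_mul_of_nonneg_right hsA (by positivity)
      _ = s ^ e := by
          rw [he]
          ring
      _ = N := hse

/-- Basic inequalities between the parameters. -/
theorem num_basic2 {K n Γ : ℝ} (hK : 6 ≤ K) (hΓ : 5 * 10 ^ 8 * K ^ 3 ≤ Γ)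
    (hn : 10 ^ 40 * K ^ 2 * Γ ^ 4 ≤ n) :
    0 < n ∧ 10 ^ 4 * (10 ^ 6 * K ^ 2) ≤ n ∧ 1 / (1000 * Γ ^ 2) ≤ 1 / 10 ^ 4 ∧
    5 * 10 ^ 8 ≤ Γ ∧ 10 ^ 40 * Γ ≤ n ∧
    2 * (10 ^ 6 * K ^ 2) ≤ (2000 * K * Γ ^ 2) ^ 2 ∧
    10 ^ 4 * (2000 * K * Γ ^ 2) ^ 2 ≤ n ∧
    2000 * (2000 * K * Γ ^ 2) ^ 2 * Γ ^ 2 ≤ n ^ 2 ∧
    10 * (500 * K * Γ ^ 2) ^ 4 ≤ n ^ 2 := by
  have hK1 : 1 ≤ K := by linarith
  have hK0 : 0 < K := by linarith
  have h3 : 1 ≤ K ^ 3 := one_le_pow₀ hK1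
  have hgam : 5 * 10 ^ 8 ≤ Γ := by nlinarith
  have hg1 : 1 ≤ Γ := by linarith
  have hg0 : 0 < Γ := by linarith
  have hn2 : 10 ^ 80 * K ^ 4 * Γ ^ 8 ≤ n ^ 2 := by
    have := pow_le_pow_left₀ (by positivity : (0 : ℝ) ≤ 10 ^ 40 * K ^ 2 * Γ ^ 4) hn 2
    calc (10 : ℝ) ^ 80 * K ^ 4 * Γ ^ 8 = (10 ^ 40 * K ^ 2 * Γ ^ 4) ^ 2 := by ring
      _ ≤ n ^ 2 := this
  have hK2 : (1 : ℝ) ≤ K ^ 2 := one_le_pow₀ hK1
  have hG4 : (1 : ℝ) ≤ Γ ^ 4 := one_le_pow₀ hg1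
  refine ⟨lt_of_lt_of_le (by positivity) hn, ?_, ?_, hgam, ?_, ?_, ?_, ?_, ?_⟩
  · calc 10 ^ 4 * (10 ^ 6 * K ^ 2) = 10 ^ 10 * K ^ 2 * 1 := by ring
      _ ≤ 10 ^ 40 * K ^ 2 * Γ ^ 4 := by
        apply mul_le_mul _ hG4 (by norm_num) (by positivity)
        exact mul_le_mul_of_nonneg_right (by norm_num) (by positivity)
      _ ≤ n := hn
  · apply one_div_le_one_div_of_le (by positivity)
    nlinarith
  · calc 10 ^ 40 * Γ = 10 ^ 40 * 1 * Γ ^ 1 := by ring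
      _ ≤ 10 ^ 40 * K ^ 2 * Γ ^ 4 := by
        apply mul_le_mul _ (pow_le_pow_right₀ hg1 (by norm_num)) (by positivity) (by positivity)
        exact mul_le_mul_of_nonneg_left hK2 (by positivity)
      _ ≤ n := hn
  · calc 2 * (10 ^ 6 * K ^ 2) = (2 * 10 ^ 6) * K ^ 2 * 1 := by ring
      _ ≤ (4 * 10 ^ 6) * K ^ 2 * Γ ^ 4 := by
        apply mul_le_mul _ hG4 (by norm_num) (by positivity)
        exact mul_le_mul_of_nonneg_right (by norm_num) (by positivity)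
      _ = (2000 * K * Γ ^ 2) ^ 2 := by ring
  · calc 10 ^ 4 * (2000 * K * Γ ^ 2) ^ 2 = (4 * 10 ^ 10) * K ^ 2 * Γ ^ 4 := by ring
      _ ≤ 10 ^ 40 * K ^ 2 * Γ ^ 4 := by
        apply mul_le_mul_of_nonneg_right _ (by positivity)
        exact mul_le_mul_of_nonneg_right (by norm_num) (by positivity)
      _ ≤ n := hn
  · calc 2000 * (2000 * K * Γ ^ 2) ^ 2 * Γ ^ 2 = (8 * 10 ^ 9) * K ^ 2 * Γ ^ 6 := by ring
      _ ≤ 10 ^ 80 * K ^ 4 * Γ ^ 8 := by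
        apply mul_le_mul _ (pow_le_pow_right₀ hg1 (by norm_num)) (by positivity) (by positivity)
        apply mul_le_mul (by norm_num) (pow_le_pow_right₀ hK1 (by norm_num)) (by positivity)
          (by positivity)
      _ ≤ n ^ 2 := hn2
  · calc 10 * (500 * K * Γ ^ 2) ^ 4 = (10 * 500 ^ 4) * K ^ 4 * Γ ^ 8 := by ring
      _ ≤ 10 ^ 80 * K ^ 4 * Γ ^ 8 := by
        apply mul_le_mul_of_nonneg_right _ (by positivity)
        exact mul_le_mul_of_nonneg_right (by norm_num) (by positivity)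
      _ ≤ n ^ 2 := hn2

/-- The right side of `prob_gap` is at most `1/2`. -/
theorem num_gap2 {K n Γ β : ℝ} (hK : 6 ≤ K) (hΓ : 5 * 10 ^ 8 * K ^ 3 ≤ Γ)
    (hn : 10 ^ 40 * K ^ 2 * Γ ^ 4 ≤ n) (hβ : β * n ^ 2 ≤ 1 / 100) (hβ0 : 0 ≤ β) :
    (2 * (10 ^ 6 * K ^ 2) + Γ) / 8 * (4 * (1 / (1000 * Γ ^ 2)) +
      16 * √(1 / (1000 * Γ ^ 2) + 2 * K / √((2000 * K * Γ ^ 2) ^ 2) +
        2 * (2000 * K * Γ ^ 2) ^ 2 / n ^ 2) + 16 / (2000 * K * Γ ^ 2) ^ 2 + 200 / n +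
        β * (4 * n + 8)) ≤ 1 / 2 := by
  obtain ⟨hn0, -, -, hg, hgn, -, -, h8, -⟩ := num_basic2 hK hΓ hn
  have hK0 : 0 < K := by linarith
  have hg0 : 0 < Γ := by linarith
  have hKg : 2 * (10 ^ 6 * K ^ 2) ≤ Γ / 10 := by
    nlinarith [pow_pos hK0 2]
  have hA0 : 0 ≤ (2 * (10 ^ 6 * K ^ 2) + Γ) / 8 := by positivity
  have hA : (2 * (10 ^ 6 * K ^ 2) + Γ) / 8 ≤ Γ / 7 := by linarith
  have hsq : √((2000 * K * Γ ^ 2) ^ 2) = 2000 * K * Γ ^ 2 := Real.sqrt_sq (by positivity)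
  rw [hsq]
  have h1 : 2 * K / (2000 * K * Γ ^ 2) = 1 / (1000 * Γ ^ 2) := by
    field_simp
    norm_num
  have h2 : 2 * (2000 * K * Γ ^ 2) ^ 2 / n ^ 2 ≤ 1 / (1000 * Γ ^ 2) := by
    rw [div_le_div_iff₀ (by positivity) (by positivity)]
    linarith
  have h3 : √(1 / (1000 * Γ ^ 2) + 2 * K / (2000 * K * Γ ^ 2) +
        2 * (2000 * K * Γ ^ 2) ^ 2 / n ^ 2) ≤ 7 / 125 / Γ := by
    rw [h1]
    apply Real.sqrt_le_iff.2
    refine ⟨by positivity, ?_⟩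
    have h4 : 1 / (1000 * Γ ^ 2) + 1 / (1000 * Γ ^ 2) + 1 / (1000 * Γ ^ 2) ≤
        (7 / 125 / Γ) ^ 2 := by
      have e : 1 / (1000 * Γ ^ 2) = 1 / 1000 * (1 / Γ ^ 2) := by
        field_simp
      have e2 : (7 / 125 / Γ) ^ 2 = (7 / 125) ^ 2 * (1 / Γ ^ 2) := by
        field_simp
      rw [e, e2]
      have : 0 < 1 / Γ ^ 2 := by positivity
      linarith
    linarith
  -- the five terms
  have t1 : Γ / 7 * (4 * (1 / (1000 * Γ ^ 2))) ≤ 1 / 100 := by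
    have e : Γ / 7 * (4 * (1 / (1000 * Γ ^ 2))) = 4 / (7000 * Γ) := by
      field_simp
      norm_num
    rw [e, div_le_iff₀ (by positivity)]
    linarith
  have t2 : Γ / 7 * (16 * √(1 / (1000 * Γ ^ 2) + 2 * K / (2000 * K * Γ ^ 2) +
        2 * (2000 * K * Γ ^ 2) ^ 2 / n ^ 2)) ≤ 13 / 100 := by
    have e : Γ / 7 * (16 * (7 / 125 / Γ)) = 16 / 125 := by
      field_simp
    calc Γ / 7 * (16 * √(1 / (1000 * Γ ^ 2) + 2 * K / (2000 * K * Γ ^ 2) +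
        2 * (2000 * K * Γ ^ 2) ^ 2 / n ^ 2)) ≤ Γ / 7 * (16 * (7 / 125 / Γ)) := by
          apply mul_le_mul_of_nonneg_left _ (by positivity)
          linarith
      _ = 16 / 125 := e
      _ ≤ 13 / 100 := by norm_num
  have t3 : Γ / 7 * (16 / (2000 * K * Γ ^ 2) ^ 2) ≤ 1 / 100 := by
    have e : Γ / 7 * (16 / (2000 * K * Γ ^ 2) ^ 2) = 16 / (7 * (4 * 10 ^ 6) * K ^ 2 * Γ ^ 3) := by
      field_simp
      ring
    rw [e, div_le_div_iff₀ (by positivity) (by norm_num)]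
    have e1 : 1 ≤ K ^ 2 := one_le_pow₀ (by linarith)
    have e2 : 1 ≤ Γ ^ 3 := one_le_pow₀ (by linarith)
    have e3 : 1 ≤ K ^ 2 * Γ ^ 3 := one_le_mul_of_one_le_of_one_le e1 e2
    nlinarith
  have t4 : Γ / 7 * (200 / n) ≤ 1 / 100 := by
    rw [div_mul_div_comm, div_le_div_iff₀ (by positivity) (by norm_num)]
    nlinarith
  have t5 : Γ / 7 * (β * (4 * n + 8)) ≤ 1 / 100 := by
    have e1 : Γ / 7 * (4 * n + 8) ≤ n ^ 2 := by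
      have e2 : Γ ≤ n := by nlinarith
      have e3 : 8 ≤ n := by nlinarith
      nlinarith
    calc Γ / 7 * (β * (4 * n + 8)) = β * (Γ / 7 * (4 * n + 8)) := by ring
      _ ≤ β * n ^ 2 := mul_le_mul_of_nonneg_left e1 hβ0
      _ ≤ 1 / 100 := hβ
  obtain ⟨R, hR⟩ : ∃ R, R = √(1 / (1000 * Γ ^ 2) + 2 * K / (2000 * K * Γ ^ 2) +
        2 * (2000 * K * Γ ^ 2) ^ 2 / n ^ 2) := ⟨_, rfl⟩
  rw [← hR] at t2 ⊢
  have hR0 : 0 ≤ R := by rw [hR]; exact Real.sqrt_nonneg _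
  have hB : 0 ≤ 4 * (1 / (1000 * Γ ^ 2)) + 16 * R + 16 / (2000 * K * Γ ^ 2) ^ 2 + 200 / n +
        β * (4 * n + 8) := by positivity
  calc (2 * (10 ^ 6 * K ^ 2) + Γ) / 8 * (4 * (1 / (1000 * Γ ^ 2)) +
      16 * R + 16 / (2000 * K * Γ ^ 2) ^ 2 + 200 / n + β * (4 * n + 8))
      ≤ Γ / 7 * (4 * (1 / (1000 * Γ ^ 2)) +
      16 * R + 16 / (2000 * K * Γ ^ 2) ^ 2 + 200 / n + β * (4 * n + 8)) :=
        mul_le_mul_of_nonneg_right hA hB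
    _ = Γ / 7 * (4 * (1 / (1000 * Γ ^ 2))) + Γ / 7 * (16 * R) +
        Γ / 7 * (16 / (2000 * K * Γ ^ 2) ^ 2) + Γ / 7 * (200 / n) +
        Γ / 7 * (β * (4 * n + 8)) := by ring
    _ ≤ 1 / 2 := by linarith

/-- The right side of `badO_le`. The number `q'` is at least `500 K Γ^2` and at most twice that. -/
theorem num_bad2 {N q q' : ℕ} {K n Γ : ℝ} (hq : 0 < q) (hKq : K = 6 * q)
    (hΓ : 5 * 10 ^ 8 * K ^ 3 ≤ Γ)
    (hn : 10 ^ 40 * K ^ 2 * Γ ^ 4 ≤ n) (hnN : n ^ 2 = N) (hq' : 500 * K * Γ ^ 2 ≤ (q' : ℝ))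
    (hq'2 : (q' : ℝ) ≤ 1000 * K * Γ ^ 2) :
    (N : ℝ) * (3 * N + 1) * (2 / 9) ^ q +
      (N : ℝ) * (1 + 10 * (q' : ℝ) ^ 3 / N) ^ q' /
        (1 + 1 / (1000 * Γ ^ 2) / 2) ^ (2 * q') ≤
      (N : ℝ) ^ 3 * Real.exp (-(3 / 2) * q) := by
  have hq1 : (1 : ℝ) ≤ q := by exact_mod_cast hq
  have hK : 6 ≤ K := by rw [hKq]; linarith
  have hK0 : 0 < K := by linarith
  obtain ⟨hn0, -, hδ, hg, hgn, -, -, -, -⟩ := num_basic2 hK hΓ hn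
  have hg0 : 0 < Γ := by linarith
  have hN0 : (0 : ℝ) < N := by rw [← hnN]; positivity
  have hn8 : 100 ≤ n := by nlinarith
  have hN8 : 100 ≤ (N : ℝ) := by rw [← hnN]; nlinarith
  have hn2 : 10 ^ 80 * K ^ 4 * Γ ^ 8 ≤ n ^ 2 := by
    have := pow_le_pow_left₀ (by positivity : (0 : ℝ) ≤ 10 ^ 40 * K ^ 2 * Γ ^ 4) hn 2
    calc (10 : ℝ) ^ 80 * K ^ 4 * Γ ^ 8 = (10 ^ 40 * K ^ 2 * Γ ^ 4) ^ 2 := by ring
      _ ≤ n ^ 2 := this
  have h1 : (2 / 9 : ℝ) ^ q ≤ Real.exp (-(3 / 2) * q) := tail_le q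
  have h2 : (1 + 10 * (q' : ℝ) ^ 3 / N) ^ q' ≤ Real.exp 1 := by
    refine (one_add_pow_le_exp _ (by positivity) q').trans ?_
    apply Real.exp_le_exp.2
    rw [div_mul_eq_mul_div, div_le_one hN0]
    calc 10 * (q' : ℝ) ^ 3 * q' = 10 * (q' : ℝ) ^ 4 := by ring
      _ ≤ 10 * (1000 * K * Γ ^ 2) ^ 4 :=
        mul_le_mul_of_nonneg_left (pow_le_pow_left₀ (Nat.cast_nonneg _) hq'2 4) (by norm_num)
      _ = 10 ^ 13 * (K ^ 4 * Γ ^ 8) := by ring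
      _ ≤ 10 ^ 80 * (K ^ 4 * Γ ^ 8) := mul_le_mul_of_nonneg_right (by norm_num) (by positivity)
      _ = 10 ^ 80 * K ^ 4 * Γ ^ 8 := by ring
      _ ≤ n ^ 2 := hn2
      _ = N := hnN
  have h3 : 1 / (1 + 1 / (1000 * Γ ^ 2) / 2) ^ (2 * q') ≤ Real.exp (-(3 / 2) * q) := by
    rw [one_div, ← inv_pow]
    refine (inv_one_add_pow_le _ (by positivity) (by linarith) (2 * q')).trans ?_
    apply Real.exp_le_exp.2
    push_cast
    have e : 1 / (1000 * Γ ^ 2) / 2 / 2 * (2 * (500 * K * Γ ^ 2)) = 3 / 2 * q := by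
      rw [hKq]
      field_simp
      norm_num
    have e2 : 1 / (1000 * Γ ^ 2) / 2 / 2 * (2 * (500 * K * Γ ^ 2)) ≤
        1 / (1000 * Γ ^ 2) / 2 / 2 * (2 * (q' : ℝ)) :=
      mul_le_mul_of_nonneg_left (by linarith) (by positivity)
    rw [e] at e2
    linarith
  have hE : 0 < Real.exp (-(3 / 2) * q) := Real.exp_pos _
  have he : Real.exp 1 ≤ 3 := by
    have := Real.exp_one_lt_d9
    linarith
  have h4 : (N : ℝ) * (1 + 10 * (q' : ℝ) ^ 3 / N) ^ q' /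
        (1 + 1 / (1000 * Γ ^ 2) / 2) ^ (2 * q') ≤ N * 3 * Real.exp (-(3 / 2) * q) := by
    calc (N : ℝ) * (1 + 10 * (q' : ℝ) ^ 3 / N) ^ q' /
        (1 + 1 / (1000 * Γ ^ 2) / 2) ^ (2 * q')
        = (N : ℝ) * (1 + 10 * (q' : ℝ) ^ 3 / N) ^ q' *
          (1 / (1 + 1 / (1000 * Γ ^ 2) / 2) ^ (2 * q')) := by rw [mul_one_div]
      _ ≤ (N : ℝ) * 3 * Real.exp (-(3 / 2) * q) := by
        apply mul_le_mul _ h3 (by positivity) (by positivity)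
        exact mul_le_mul_of_nonneg_left (h2.trans he) hN0.le
  have h5 : (N : ℝ) * (3 * N + 1) * (2 / 9) ^ q ≤
      (N : ℝ) * (3 * N + 1) * Real.exp (-(3 / 2) * q) :=
    mul_le_mul_of_nonneg_left h1 (by positivity)
  have h6 : (N : ℝ) * (3 * N + 1) + N * 3 ≤ (N : ℝ) ^ 3 := by nlinarith [mul_pos hN0 hN0]
  calc _ ≤ (N : ℝ) * (3 * N + 1) * Real.exp (-(3 / 2) * q) +
        N * 3 * Real.exp (-(3 / 2) * q) := add_le_add h5 h4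
    _ = ((N : ℝ) * (3 * N + 1) + N * 3) * Real.exp (-(3 / 2) * q) := by ring
    _ ≤ (N : ℝ) ^ 3 * Real.exp (-(3 / 2) * q) := mul_le_mul_of_nonneg_right h6 hE.le

/-- The number of lists of moves, times a polynomial, is beaten by the tail. -/
theorem union_num2 (N L q r : ℕ) (hN : 4 * r + 2 ≤ N)
    (hq : 100 * ((L : ℝ) + 4) * Real.log N ≤ 6 * q) :
    (((2 * N * N + N) * r + 1 : ℕ) : ℝ) ^ (L + 3) * Real.exp (-(3 / 2) * q) ≤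
      ((N : ℝ) ^ 20)⁻¹ := by
  have hN2 : 2 ≤ N := by omega
  have hN' : (2 : ℝ) ≤ N := by exact_mod_cast hN2
  have hNr : 4 * (r : ℝ) + 2 ≤ N := by exact_mod_cast hN
  have hNpos : (0 : ℝ) < N := by linarith
  have hlog0 : 0 ≤ Real.log N := Real.log_nonneg (by linarith)
  have hlog2 : Real.log 2 ≤ Real.log N := Real.log_le_log (by norm_num) hN'
  have h1 : (((2 * N * N + N) * r + 1 : ℕ) : ℝ) ≤ (N : ℝ) ^ 4 := by
    push_cast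
    have h2 : (N : ℝ) ^ 4 = N * N * (N * N) := by ring
    have h3 : (2 * (N : ℝ) * N + N) ≤ 3 * (N * N) := by nlinarith
    have h4 : (2 * (N : ℝ) * N + N) * r ≤ 3 * (N * N) * ((N - 2) / 4) := by
      apply mul_le_mul h3 (by linarith) (Nat.cast_nonneg _) (by positivity)
    have h5 : 3 * ((N : ℝ) * N) * ((N - 2) / 4) + 1 ≤ N * N * N := by
      nlinarith [mul_pos hNpos hNpos]
    have h6 : (N : ℝ) * N * N ≤ N * N * (N * N) := by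
      have : (1 : ℝ) ≤ N := by linarith
      have h7 : 0 < (N : ℝ) * N := mul_pos hNpos hNpos
      nlinarith
    linarith
  have h5 : ((N : ℝ) ^ 4) ^ (L + 3) = Real.exp (4 * (L + 3) * Real.log N) := by
    rw [← pow_mul, ← Real.exp_log (pow_pos hNpos (4 * (L + 3))), Real.log_pow]
    push_cast
    ring_nf
  have h6 : ((N : ℝ) ^ 20)⁻¹ = Real.exp (-(20 * Real.log N)) := by
    rw [Real.exp_neg, ← Real.exp_log (pow_pos hNpos 20), Real.log_pow]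
    push_cast
    ring_nf
  rw [h6]
  calc (((2 * N * N + N) * r + 1 : ℕ) : ℝ) ^ (L + 3) * Real.exp (-(3 / 2) * q)
      ≤ ((N : ℝ) ^ 4) ^ (L + 3) * Real.exp (-(3 / 2) * q) := by
        apply mul_le_mul_of_nonneg_right _ (Real.exp_pos _).le
        exact pow_le_pow_left₀ (Nat.cast_nonneg _) h1 _
    _ = Real.exp (4 * (L + 3) * Real.log N + (-(3 / 2) * q)) := by rw [h5, Real.exp_add]
    _ ≤ Real.exp (-(20 * Real.log N)) := by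
        apply Real.exp_le_exp.2
        have hL : (0 : ℝ) ≤ (L : ℝ) * Real.log N := mul_nonneg (Nat.cast_nonneg _) hlog0
        nlinarith

/-- The constant in `Γ = A K^(4r)`. -/
theorem num_A {r : ℕ} {ε1 A : ℝ} (hr : (1 : ℝ) ≤ r) (hε : 0 < ε1) (hε1 : ε1 ≤ 1)
    (hA : A = 5 * 10 ^ 20 * r ^ 2 * (10 ^ 7) ^ (2 * r) / ε1 ^ 2) : 5 * 10 ^ 20 ≤ A := by
  rw [hA, le_div_iff₀ (by positivity)]
  have e1 : ε1 ^ 2 ≤ 1 := pow_le_one₀ hε.le hε1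
  have e2 : (1 : ℝ) ≤ r ^ 2 := one_le_pow₀ hr
  have e3 : (1 : ℝ) ≤ (10 ^ 7) ^ (2 * r) := one_le_pow₀ (by norm_num)
  have e4 : (1 : ℝ) ≤ r ^ 2 * (10 ^ 7) ^ (2 * r) := one_le_mul_of_one_le_of_one_le e2 e3
  generalize (r : ℝ) ^ 2 * (10 ^ 7) ^ (2 * r) = u at e4
  generalize ε1 ^ 2 = w at e1
  nlinarith

/-- The number `q'`. -/
theorem num_q' {K Γ : ℝ} (hK : 6 ≤ K) (hΓ : 1 ≤ Γ) {q' : ℕ} (hq' : q' = ⌈500 * K * Γ ^ 2⌉₊) :
    500 * K * Γ ^ 2 ≤ (q' : ℝ) ∧ (q' : ℝ) ≤ 1000 * K * Γ ^ 2 ∧ 1 ≤ q' := by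
  have e1 : (1 : ℝ) ≤ Γ ^ 2 := one_le_pow₀ hΓ
  have hbig : 1 ≤ 500 * K * Γ ^ 2 := by
    have : (1 : ℝ) ≤ 500 * K := by linarith
    exact one_le_mul_of_one_le_of_one_le this e1
  have h1 : 500 * K * Γ ^ 2 ≤ (q' : ℝ) := by
    rw [hq']
    exact Nat.le_ceil _
  refine ⟨h1, ?_, ?_⟩
  · have : (q' : ℝ) < 500 * K * Γ ^ 2 + 1 := by
      rw [hq']
      exact Nat.ceil_lt_add_one (by linarith)
    linarith
  · have : (1 : ℝ) ≤ q' := hbig.trans h1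
    exact_mod_cast this

theorem num_sq_le {K L : ℝ} (hK : 6 ≤ K) (h : L ^ 2 ≤ K) : L ≤ K := by
  by_contra hc
  have hc' : K < L := not_le.1 hc
  nlinarith

theorem num_chain5 {K P Γ L : ℝ} (hK : 6 ≤ K) (hL : L ≤ K) (hP : 0 < P) (h : 500 * K * P ≤ Γ) :
    204 * P + 24 * L * P ≤ Γ := by
  refine le_trans ?_ h
  have e1 : (L : ℝ) * P ≤ K * P := mul_le_mul_of_nonneg_right hL hP.le
  have e2 : 6 * P ≤ K * P := mul_le_mul_of_nonneg_right hK hP.le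
  linarith

theorem num_chain6 {n Γ : ℝ} (hΓ : 5 * 10 ^ 8 ≤ Γ) (h : 10 ^ 40 * Γ ≤ n) : Γ ≤ n ^ 2 / 20 := by
  have h2 : 20 ≤ n := by linarith
  have h3 : n * 20 ≤ n * n := mul_le_mul_of_nonneg_left h2 (by linarith)
  have h4 : n ^ 2 = n * n := by ring
  rw [h4]
  linarith

/-- The numbers of the spectator part. -/
theorem num_tail {Q q L : ℕ} {N : ℝ} (hN : 2 ≤ N)
    (h : (Q : ℝ) ^ (L + 1) * Real.exp (-(3 / 2) * q) ≤ (N ^ 20)⁻¹) :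
    128 * (Q : ℝ) ^ (L + 1) * (1 / 2) ^ (3 * q) ≤ 1 := by
  have hN0 : 0 < N := by linarith
  have e1 : ((1 : ℝ) / 2) ^ (3 * q) ≤ Real.exp (-(3 / 2) * q) := by
    rw [pow_mul]
    have e2 : ((1 : ℝ) / 2) ^ 3 ≤ Real.exp (-(3 / 2)) := by
      have h := exp_three_half
      rw [Real.exp_neg, ← one_div, le_div_iff₀ (Real.exp_pos _)]
      linarith
    calc (((1 : ℝ) / 2) ^ 3) ^ q ≤ (Real.exp (-(3 / 2))) ^ q :=
          pow_le_pow_left₀ (by norm_num) e2 q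
      _ = Real.exp (-(3 / 2) * q) := by rw [← Real.exp_nat_mul]; ring_nf
  calc 128 * (Q : ℝ) ^ (L + 1) * (1 / 2) ^ (3 * q)
      ≤ 128 * (Q : ℝ) ^ (L + 1) * Real.exp (-(3 / 2) * q) :=
        mul_le_mul_of_nonneg_left e1 (by positivity)
    _ = 128 * ((Q : ℝ) ^ (L + 1) * Real.exp (-(3 / 2) * q)) := by ring
    _ ≤ 128 * (N ^ 20)⁻¹ := mul_le_mul_of_nonneg_left h (by norm_num)
    _ ≤ 1 := by
        rw [← div_eq_mul_inv, div_le_one (by positivity)]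
        calc (128 : ℝ) ≤ 2 ^ 20 := by norm_num
          _ ≤ N ^ 20 := pow_le_pow_left₀ (by norm_num) hN 20

theorem num_inv1 {N : ℝ} (hN : 2 ≤ N) : N ^ 3 * (N ^ 20)⁻¹ ≤ 1 / 4 := by
  have h0 : 0 < N := by linarith
  rw [← div_eq_mul_inv, div_le_div_iff₀ (by positivity) (by norm_num)]
  calc N ^ 3 * 4 ≤ N ^ 3 * N ^ 17 := by
        apply mul_le_mul_of_nonneg_left _ (by positivity)
        calc (4 : ℝ) ≤ 2 ^ 17 := by norm_num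
          _ ≤ N ^ 17 := pow_le_pow_left₀ (by norm_num) hN 17
    _ = 1 * N ^ 20 := by ring

theorem num_inv2 {N : ℝ} (hN : 2 ≤ N) : N ^ 3 * (N ^ 20)⁻¹ * N ≤ 1 / 100 := by
  have h0 : 0 < N := by linarith
  have e : N ^ 3 * (N ^ 20)⁻¹ * N = N ^ 4 / N ^ 20 := by
    rw [div_eq_mul_inv]; ring
  rw [e, div_le_div_iff₀ (by positivity) (by norm_num)]
  calc N ^ 4 * 100 ≤ N ^ 4 * N ^ 16 := by
        apply mul_le_mul_of_nonneg_left _ (by positivity)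
        calc (100 : ℝ) ≤ 2 ^ 16 := by norm_num
          _ ≤ N ^ 16 := pow_le_pow_left₀ (by norm_num) hN 16
    _ = 1 * N ^ 20 := by ring

/-- The main inequality of the spectator part: `Γ` is large. -/
theorem num_main {r : ℕ} (hr : 2 ≤ r) {K P Γ A ε1 κ : ℝ} (hK : 6 ≤ K) (hP : P = 10 ^ 6 * K ^ 2)
    (hε : 0 < ε1) (hΓ0 : 0 < Γ)
    (hA : A = 5 * 10 ^ 20 * r ^ 2 * (10 ^ 7) ^ (2 * r) / ε1 ^ 2) (hΓ : Γ = A * K ^ (4 * r))
    (hκ : κ = K / 2) :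
    K * (32 * κ * r ^ 2 * (12 / 5 * P) ^ (2 * (r - 1)) * (84 * P / Γ)) ≤ (ε1 / 8) ^ 2 := by
  have hK0 : 0 < K := by linarith
  have hP0 : 0 < P := by rw [hP]; positivity
  rw [hκ]
  have e2 : K * (32 * (K / 2) * r ^ 2 * (12 / 5 * P) ^ (2 * (r - 1)) * (84 * P / Γ)) =
      1344 * K ^ 2 * r ^ 2 * ((12 / 5 * P) ^ (2 * (r - 1)) * P) / Γ := by
    ring
  rw [e2, div_le_iff₀ hΓ0]
  have e3 : (12 / 5 * P) ^ (2 * (r - 1)) * P ≤ (12 / 5 * P) ^ (2 * r - 1) := by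
    have e4 : 2 * r - 1 = 2 * (r - 1) + 1 := by omega
    rw [e4, pow_succ]
    refine mul_le_mul_of_nonneg_left ?_ (by positivity)
    linarith
  have e5 : (12 / 5 * P) ^ (2 * r - 1) ≤ (10 ^ 7) ^ (2 * r) * K ^ (4 * r - 2) := by
    have e6 : 12 / 5 * P ≤ 10 ^ 7 * K ^ 2 := by
      rw [hP]
      nlinarith [pow_pos hK0 2]
    calc (12 / 5 * P) ^ (2 * r - 1) ≤ (10 ^ 7 * K ^ 2) ^ (2 * r - 1) :=
          pow_le_pow_left₀ (by positivity) e6 _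
      _ = (10 ^ 7) ^ (2 * r - 1) * K ^ (2 * (2 * r - 1)) := by
          rw [mul_pow, ← pow_mul K]
      _ = (10 ^ 7) ^ (2 * r - 1) * K ^ (4 * r - 2) := by
          congr 2
          omega
      _ ≤ (10 ^ 7) ^ (2 * r) * K ^ (4 * r - 2) := by
          refine mul_le_mul_of_nonneg_right ?_ (by positivity)
          exact pow_le_pow_right₀ (by norm_num) (by omega)
  have e7 : K ^ 2 * K ^ (4 * r - 2) = K ^ (4 * r) := by
    rw [← pow_add]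
    congr 1
    omega
  calc 1344 * K ^ 2 * r ^ 2 * ((12 / 5 * P) ^ (2 * (r - 1)) * P)
      ≤ 1344 * K ^ 2 * r ^ 2 * ((10 ^ 7) ^ (2 * r) * K ^ (4 * r - 2)) :=
        mul_le_mul_of_nonneg_left (e3.trans e5) (by positivity)
    _ = 1344 * (r ^ 2 * (10 ^ 7) ^ (2 * r) * (K ^ 2 * K ^ (4 * r - 2))) := by ring
    _ = 1344 * (r ^ 2 * (10 ^ 7) ^ (2 * r) * K ^ (4 * r)) := by rw [e7]
    _ ≤ 10 ^ 18 * (r ^ 2 * (10 ^ 7) ^ (2 * r) * K ^ (4 * r)) :=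
        mul_le_mul_of_nonneg_right (by norm_num) (by positivity)
    _ ≤ (ε1 / 8) ^ 2 * Γ := by
        rw [hΓ, hA]
        obtain ⟨B, hB⟩ : ∃ B : ℝ, B = (10 ^ 7) ^ (2 * r) := ⟨_, rfl⟩
        obtain ⟨C, hC⟩ : ∃ C : ℝ, C = K ^ (4 * r) := ⟨_, rfl⟩
        have hB0 : 0 < B := by rw [hB]; positivity
        have hC0 : 0 < C := by rw [hC]; positivity
        rw [← hB, ← hC]
        have e8 : (ε1 / 8) ^ 2 * (5 * 10 ^ 20 * r ^ 2 * B / ε1 ^ 2 * C) =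
            (5 * 10 ^ 20 / 64) * (r ^ 2 * B * C) := by
          have hne : ε1 ^ 2 ≠ 0 := by positivity
          calc (ε1 / 8) ^ 2 * (5 * 10 ^ 20 * r ^ 2 * B / ε1 ^ 2 * C)
              = (5 * 10 ^ 20 / 64) * (r ^ 2 * B * C) * (ε1 ^ 2 / ε1 ^ 2) := by ring
            _ = (5 * 10 ^ 20 / 64) * (r ^ 2 * B * C) := by rw [div_self hne, mul_one]
        rw [e8]
        exact mul_le_mul_of_nonneg_right (by norm_num) (by positivity)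

/-- Consequences of the main inequality. -/
theorem num_main2 {r : ℕ} {K P Γ ε1 κ L n : ℝ} (hr : (1 : ℝ) ≤ r) (hK : 6 ≤ K) (hP : 1 ≤ P)
    (hε : 0 < ε1) (hΓ0 : 0 < Γ) (hκ : 1 ≤ κ) (hL : L ^ 2 ≤ K) (hn : 1 ≤ n)
    (hΓn : 10 ^ 40 * Γ ≤ n)
    (h : K * (32 * κ * r ^ 2 * (12 / 5 * P) ^ (2 * (r - 1)) * (84 * P / Γ)) ≤ (ε1 / 8) ^ 2) :
    L * Real.sqrt (32 * κ * r ^ 2 * (12 / 5 * P) ^ (2 * (r - 1)) * (84 * P / Γ)) ≤ ε1 / 8 ∧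
    L * Real.sqrt (84 * P / Γ) ≤ ε1 / 8 ∧ 12 / 5 * P / n ^ 2 ≤ ε1 ^ 2 / 100 := by
  have hK0 : 0 < K := by linarith
  have hP0 : 0 < P := by linarith
  have hκ0 : 0 < κ := by linarith
  have hη0 : 0 ≤ 84 * P / Γ := by positivity
  have hsq : ∀ {a b : ℝ}, a ^ 2 ≤ b ^ 2 → 0 ≤ b → a ≤ b := fun h hb =>
    (abs_le_of_sq_le_sq' h hb).2
  have e2 : (1 : ℝ) ≤ (r : ℝ) ^ 2 := one_le_pow₀ hr
  have e3 : (1 : ℝ) ≤ (12 / 5 * P) ^ (2 * (r - 1)) := one_le_pow₀ (by linarith)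
  have e4 : (1 : ℝ) ≤ 32 * κ := by linarith
  have e5 : (1 : ℝ) ≤ 32 * κ * r ^ 2 * (12 / 5 * P) ^ (2 * (r - 1)) :=
    one_le_mul_of_one_le_of_one_le (one_le_mul_of_one_le_of_one_le e4 e2) e3
  have h2 : K * (84 * P / Γ) ≤ (ε1 / 8) ^ 2 := by
    refine le_trans ?_ h
    exact mul_le_mul_of_nonneg_left (le_mul_of_one_le_left hη0 e5) hK0.le
  refine ⟨?_, ?_, ?_⟩
  · refine hsq ?_ (by positivity)
    rw [mul_pow, Real.sq_sqrt (by positivity)]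
    exact (mul_le_mul_of_nonneg_right hL (by positivity)).trans h
  · refine hsq ?_ (by positivity)
    rw [mul_pow, Real.sq_sqrt hη0]
    exact (mul_le_mul_of_nonneg_right hL hη0).trans h2
  · have hn0 : 0 < n := by linarith
    have e1 : 12 / 5 * P / n ^ 2 ≤ 84 * P / Γ / 100 := by
      rw [div_div (84 * P) Γ 100, div_le_div_iff₀ (by positivity) (by positivity)]
      have e2 : 10 ^ 40 * Γ ≤ n ^ 2 := by
        refine hΓn.trans ?_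
        nlinarith
      have e3 : 12 / 5 * P * (Γ * 100) ≤ 84 * P * (10 ^ 40 * Γ) := by
        have : 0 < P * Γ := by positivity
        nlinarith
      exact e3.trans (mul_le_mul_of_nonneg_left e2 (by positivity))
    have e5 : 84 * P / Γ ≤ (ε1 / 8) ^ 2 := by
      refine le_trans ?_ h2
      exact le_mul_of_one_le_left hη0 (by linarith)
    have e7 : (ε1 / 8) ^ 2 ≤ ε1 ^ 2 := pow_le_pow_left₀ (by positivity) (by linarith) 2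
    linarith

end Pool.Agent.MP_9cec2c_lc.Flat.Herm
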