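import Pool.Agent.Lib.MP_9cec2c_lc.Mg.G005
import Pool.Agent.Lib.MP_9cec2c_lc.FN6
import Pool.Agent.Lib.MP_9cec2c_lc.Mg.G003
import Pool.Agent.Lib.MP_9cec2c_lc.Mg.G008
import Pool.Agent.Lib.MP_9cec2c_lc.Mg.G001
import Pool.Agent.Lib.MP_9cec2c_lc.FN9b

/-!
# FN9: good sets, numbers, main theorem of the random matrix part, Hermitian case
The spectator phases are `c : Fin N → ZMod m`, `T_c(ψ) = ∑ ph (c u) ψ_u^r`. `GoodSet` is the one of `FLGauge2`.
-/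

set_option autoImplicit false

open Matrix Finset

namespace Pool.Agent.MP_9cec2c_lc.Flat.Herm

/-- A move changes one row only: the minors agree. -/
theorem minor_add_mvRow {N m : ℕ} [NeZero m] (a : Cfg2 N m) (v : Fin N) (A : Finset (Fin N))
    (κ : ZMod m) : minor (Smat2 (a + mvRow2 v A κ)) v = minor (Smat2 a) v := by
  ext i j
  unfold minor
  by_cases h : i = v ∨ j = v
  · rw [if_pos h, if_pos h]
  · rw [if_neg h, if_neg h]
    rw [not_or] at h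
    exact Smat2_add_off a v A κ h.1 h.2

theorem pow_pos_m {N m : ℕ} [NeZero m] : (0 : ℝ) < (m : ℝ) ^ Fintype.card (Edge N) := by
  have : (0 : ℝ) < m := by exact_mod_cast Nat.pos_of_ne_zero (NeZero.ne m)
  positivity

/-- Union bound for the event `O`. -/
theorem badO_le {N m : ℕ} [NeZero m] (h2 : 2 ∣ m) (hN : 0 < N) {n K P δ : ℝ}
    (hp : Par (Fin N) n K P δ) {q q' : ℕ} (hq : 1 ≤ q)
    (hK : 6 * q ≤ K) (hq' : 1 ≤ q') (hm : 2 * q' < m) :
    badO N m n K P δ ≤ (N : ℝ) * (3 * N + 1) * (2 / 9) ^ q +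
      (N : ℝ) * (1 + 10 * (q' : ℝ) ^ 3 / N) ^ q' / (1 + δ / 2) ^ (2 * q') := by
  have hn2 : n ^ 2 = (N : ℝ) := by
    have := hp.sq
    rwa [Fintype.card_fin] at this
  have hsub : {a : Cfg2 N m | ¬ OO (Smat2 a) n K P δ} ⊆
      {a : Cfg2 N m | ¬ lamMax (Smat2 a) ≤ (2 + δ) * n} ∪
      ⋃ p ∈ (Finset.univ : Finset (Fin N)) ×ˢ Finset.range (3 * N + 1),
        {a : Cfg2 N m | ¬ Conc (Smat2 a) K p.1 (p.2 * (P / n))} := by
    intro a ha
    by_contra hc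
    rw [Set.mem_union, not_or] at hc
    obtain ⟨hc1, hc2⟩ := hc
    apply ha
    refine ⟨isSign_Smat2 a, ?_, ?_⟩
    · by_contra h
      exact hc1 h
    · intro v k hk
      by_contra h
      apply hc2
      rw [Fintype.card_fin] at hk
      simp only [Set.mem_iUnion]
      exact ⟨(v, k), Finset.mem_product.2 ⟨Finset.mem_univ _, Finset.mem_range.2 (by omega)⟩, h⟩
  have hfin : ∀ s : Set (Cfg2 N m), s.Finite := fun s => Set.toFinite s
  have h1 : ({a : Cfg2 N m | ¬ OO (Smat2 a) n K P δ}.ncard : ℝ) ≤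
      ({a : Cfg2 N m | ¬ lamMax (Smat2 a) ≤ (2 + δ) * n}.ncard : ℝ) +
      ∑ p ∈ (Finset.univ : Finset (Fin N)) ×ˢ Finset.range (3 * N + 1),
        ({a : Cfg2 N m | ¬ Conc (Smat2 a) K p.1 (p.2 * (P / n))}.ncard : ℝ) := by
    have h2 := (Set.ncard_le_ncard hsub (hfin _)).trans (Set.ncard_union_le _ _)
    have h3 := h2.trans (Nat.add_le_add_left (Finset.set_ncard_biUnion_le _ _) _)
    exact_mod_cast h3
  have h4 : ∑ p ∈ (Finset.univ : Finset (Fin N)) ×ˢ Finset.range (3 * N + 1),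
        ({a : Cfg2 N m | ¬ Conc (Smat2 a) K p.1 (p.2 * (P / n))}.ncard : ℝ) ≤
        (N : ℝ) * (3 * N + 1) * ((2 / 9) ^ q * (m : ℝ) ^ Fintype.card (Edge N)) := by
    refine (Finset.sum_le_sum fun p _ => prob_conc h2 p.1 (p.2 * (P / n)) hq hK).trans ?_
    rw [Finset.sum_const, Finset.card_product, Finset.card_univ, Fintype.card_fin,
      Finset.card_range, nsmul_eq_mul]
    push_cast
    exact le_refl _
  have h5 := prob_top (m := m) hN hq' hm hp.n0 hn2 hp.δ0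
  unfold badO
  rw [div_le_iff₀ pow_pos_m]
  calc _ ≤ _ := h1
    _ ≤ (N : ℝ) * (1 + 10 * (q' : ℝ) ^ 3 / N) ^ q' / (1 + δ / 2) ^ (2 * q') *
        (m : ℝ) ^ Fintype.card (Edge N) +
        (N : ℝ) * (3 * N + 1) * ((2 / 9) ^ q * (m : ℝ) ^ Fintype.card (Edge N)) :=
        add_le_add h5 h4
    _ = _ := by ring

/-- Configurations such that `O` holds after all sequences of at most `s` moves. -/
def Nice (r N m : ℕ) [NeZero m] (n K P δ : ℝ) (s : ℕ) : Set (Cfg2 N m) :=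
  {a | ∀ l : List (Cfg2 N m), (∀ x ∈ l, IsMove2 r x) → l.length ≤ s →
    OO (Smat2 (a + l.sum)) n K P δ}

/-- Union bound over the sequences of moves. -/
theorem not_nice_le {r N m : ℕ} [NeZero m] (hN : 0 < N) {n K P δ : ℝ} (s : ℕ) :
    ({a : Cfg2 N m | a ∉ Nice r N m n K P δ s}.ncard : ℝ) / (m : ℝ) ^ Fintype.card (Edge N) ≤
      ((2 * (N : ℝ) ^ 2 + N) * r + 1) ^ s * badO N m n K P δ := by
  classical
  have _ := hN
  have hfin : ∀ s : Set (Cfg2 N m), s.Finite := fun s => Set.toFinite s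
  obtain ⟨B, hB1, hB2⟩ := card_near2 r (hfin {a : Cfg2 N m | ¬ OO (Smat2 a) n K P δ}).toFinset s
  have hsub : {a : Cfg2 N m | a ∉ Nice r N m n K P δ s} ⊆ (B : Set (Cfg2 N m)) := by
    intro a ha
    have ha' : ¬ ∀ l : List (Cfg2 N m), (∀ x ∈ l, IsMove2 r x) → l.length ≤ s →
      OO (Smat2 (a + l.sum)) n K P δ := ha
    push Not at ha'
    obtain ⟨l, hl, hs, hO⟩ := ha'
    refine hB2 a l hl hs ?_
    rw [Set.Finite.mem_toFinset]
    exact hO
  have h1 := Set.ncard_le_ncard hsub (hfin _)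
  rw [Set.ncard_coe_finset] at h1
  have h2 := h1.trans hB1
  rw [← Set.ncard_eq_toFinset_card _ (hfin _)] at h2
  unfold badO
  rw [← mul_div_assoc]
  refine div_le_div_of_nonneg_right ?_ pow_pos_m.le
  have h3 : ({a : Cfg2 N m | a ∉ Nice r N m n K P δ s}.ncard : ℝ) ≤
      (((2 * N * N + N) * r + 1 : ℕ) : ℝ) ^ s *
        ({a : Cfg2 N m | ¬ OO (Smat2 a) n K P δ}.ncard : ℝ) := by
    exact_mod_cast h2
  refine h3.trans (le_of_eq ?_)
  push_cast
  ring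

/-- Along `j` moves the gap decreases by at most `12 j P / n`. -/
theorem chain_gap {r N m : ℕ} [NeZero m] (hN : 0 < N) {n K P δ Γ : ℝ}
    (hp : Par (Fin N) n K P δ) {s : ℕ}
    (hΓ : 204 * P + 24 * s * P ≤ Γ) (hΓn : Γ ≤ n ^ 2 / 20) {a : Cfg2 N m}
    (ha : a ∈ Nice r N m n K P δ s)
    {ψ : Fin N → ℂ} (h : TP (Smat2 a) (lamMax (Smat2 a)) ψ (Γ / n)) (l : List (Cfg2 N m))
    (hl : ∀ x ∈ l, IsMove2 r x) (hr : l.length ≤ s) :
    ∃ ψ', TP (Smat2 (a + l.sum)) (lamMax (Smat2 (a + l.sum))) ψ'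
      (Γ / n - 12 * l.length * P / n) := by
  have : Nonempty (Fin N) := ⟨⟨0, hN⟩⟩
  have hn := hp.n0
  have hP : 0 < P := by
    rw [hp.P_eq]
    have := hp.K1
    positivity
  have hmax : Γ / n ≤ n / 20 := by
    rw [div_le_iff₀ hn]
    nlinarith
  induction l using List.reverseRecOn with
  | nil =>
    refine ⟨ψ, ?_⟩
    rw [List.sum_nil, add_zero, List.length_nil, Nat.cast_zero, mul_zero, zero_mul, zero_div,
      sub_zero]
    exact h
  | append_singleton l x ih =>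
    rw [List.length_append, List.length_singleton] at hr
    have hl' : ∀ y ∈ l, IsMove2 r y := fun y hy => hl y (List.mem_append_left _ hy)
    have hx : IsMove2 r x := hl x (by simp)
    obtain ⟨ψ', h1⟩ := ih hl' (by omega)
    have e0 : a + (l ++ [x]).sum = a + l.sum + x := by
      rw [List.sum_append, List.sum_singleton, ← add_assoc]
    have hO := ha l hl' (by omega)
    have hO' := ha (l ++ [x]) hl (by rw [List.length_append, List.length_singleton]; omega)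
    rw [e0] at hO'
    rw [e0, List.length_append, List.length_singleton]
    obtain ⟨v, A, κ, rfl⟩ := isMove2_row x hx
    obtain ⟨ψ2, h3⟩ := exists_top (isSign_Smat2 (a + l.sum + mvRow2 v A κ)).symm
    have hlr : (l.length : ℝ) + 1 ≤ s := by exact_mod_cast hr
    have hPn : 0 ≤ 12 * (l.length : ℝ) * P / n := by positivity
    have hg1 : 102 * P / n ≤ Γ / n - 12 * l.length * P / n := by
      rw [← sub_div]
      refine div_le_div_of_nonneg_right ?_ hn.le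
      nlinarith
    have h4 := lemE hp hO hO' (minor_add_mvRow (a + l.sum) v A κ) hg1 (by linarith) h1 h3
    refine ⟨ψ2, ?_⟩
    have e : Γ / n - 12 * ((l.length + 1 : ℕ) : ℝ) * P / n =
        Γ / n - 12 * l.length * P / n - 12 * P / n := by
      push_cast
      ring
    rw [e]
    exact h4

/-- Alignment of two unit vectors. -/
theorem exists_align {N : ℕ} {x y : Fin N → ℂ} (hx : nsq x = 1) (hy : nsq y = 1) {t : ℝ}
    (ht : 1 - t ≤ ‖star x ⬝ᵥ y‖ ^ 2) :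
    ∃ z : ℂ, ‖z‖ = 1 ∧ ∑ v, ‖z * y v - x v‖ ^ 2 ≤ 2 * t := by
  obtain ⟨p, hp⟩ : ∃ p : ℂ, p = star x ⬝ᵥ y := ⟨_, rfl⟩
  rw [← hp] at ht
  have hp1 : ‖p‖ ≤ 1 := by
    have := dot_sq_le x y
    rw [hx, hy, mul_one, ← hp] at this
    exact (pow_le_one_iff_of_nonneg (norm_nonneg _) two_ne_zero).1 this
  obtain ⟨z, hz, hzp⟩ := exists_root one_pos p
  rw [pow_one] at hzp
  refine ⟨z, hz, ?_⟩
  have e : ∑ v, ‖z * y v - x v‖ ^ 2 = 2 - 2 * ‖p‖ := by
    have e1 : ((∑ v, ‖z * y v - x v‖ ^ 2 : ℝ) : ℂ) = ((2 - 2 * ‖p‖ : ℝ) : ℂ) := by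
      rw [Complex.ofReal_sum]
      have e2 : ∀ v, ((‖z * y v - x v‖ ^ 2 : ℝ) : ℂ) =
          ((starRingEnd ℂ) z * z) * ((starRingEnd ℂ) (y v) * y v) -
          (starRingEnd ℂ) (z * ((starRingEnd ℂ) (x v) * y v)) -
          z * ((starRingEnd ℂ) (x v) * y v) + (starRingEnd ℂ) (x v) * x v := fun v => by
        rw [norm_sq_conj_mul, map_sub, map_mul, map_mul, map_mul, Complex.conj_conj]
        ring
      rw [sum_congr rfl fun v _ => e2 v, sum_add_distrib, sum_sub_distrib, sum_sub_distrib,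
        ← mul_sum, ← map_sum, ← mul_sum]
      have u1 : ∑ v, (starRingEnd ℂ) (y v) * y v = 1 := by
        have := congrArg (fun x : ℝ => (x : ℂ)) hy
        unfold nsq at this
        simp only [Complex.ofReal_sum, Complex.ofReal_one] at this
        rw [← this]
        exact sum_congr rfl fun v _ => (norm_sq_conj_mul _).symm
      have u2 : ∑ v, (starRingEnd ℂ) (x v) * x v = 1 := by
        have := congrArg (fun x : ℝ => (x : ℂ)) hx
        unfold nsq at this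
        simp only [Complex.ofReal_sum, Complex.ofReal_one] at this
        rw [← this]
        exact sum_congr rfl fun v _ => (norm_sq_conj_mul _).symm
      have u3 : ∑ v, (starRingEnd ℂ) (x v) * y v = p := by
        rw [hp]
        rfl
      rw [u1, u2, u3, hzp, ← norm_sq_conj_mul, hz]
      rw [Complex.conj_ofReal]
      push_cast
      ring
    exact_mod_cast e1
  rw [e]
  nlinarith [norm_nonneg p]

/-- The output for one configuration. -/
theorem sgood_of {r N m : ℕ} [NeZero m] (hN : 0 < N) {n K P δ Γ : ℝ}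
    (hp : Par (Fin N) n K P δ) {s : ℕ}
    (hΓ : 204 * P + 24 * s * P ≤ Γ) (hΓn : Γ ≤ n ^ 2 / 20) {a : Cfg2 N m}
    (ha : a ∈ Nice r N m n K P δ s)
    (h : ∃ ψ, TP (Smat2 a) (lamMax (Smat2 a)) ψ (Γ / n)) :
    SGood2 r s (12 / 5 * P) (84 * P / Γ) a := by
  have : Nonempty (Fin N) := ⟨⟨0, hN⟩⟩
  have hn := hp.n0
  have hn2 : n ^ 2 = (N : ℝ) := by
    have := hp.sq
    rwa [Fintype.card_fin] at this
  have hP : 0 < P := by
    rw [hp.P_eq]
    have := hp.K1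
    positivity
  have hsP : 0 ≤ (s : ℝ) * P := by positivity
  have hΓ0 : 0 < Γ := by nlinarith
  have hg0 : 0 < Γ / n / 2 := by positivity
  have hmax : Γ / n ≤ n / 20 := by
    rw [div_le_iff₀ hn]
    nlinarith
  obtain ⟨ψ, h⟩ := h
  have key : ∀ l : List (Cfg2 N m), (∀ x ∈ l, IsMove2 r x) → l.length ≤ s →
      ∃ ψ', TP (Smat2 (a + l.sum)) (lamMax (Smat2 (a + l.sum))) ψ' (Γ / n / 2) := by
    intro l hl hs
    obtain ⟨ψ', h1⟩ := chain_gap hN hp hΓ hΓn ha h l hl hs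
    refine ⟨ψ', h1.mono ?_⟩
    have hlr : (l.length : ℝ) ≤ s := by exact_mod_cast hs
    have h2 : 12 * (l.length : ℝ) * P / n ≤ Γ / n / 2 := by
      rw [div_right_comm]
      refine div_le_div_of_nonneg_right ?_ hn.le
      nlinarith
    linarith
  intro l hl hs
  obtain ⟨ψ1, h1⟩ := key l hl hs
  have hO := ha l hl hs
  refine ⟨_, Γ / n / 2, ψ1, hg0, (topPair2_iff _ _ _ _).2 h1, fun v => ?_, ?_⟩
  · have h3 := lemC hp hO (h1.mono hg0.le) v
    rw [hn2] at h3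
    exact h3
  · intro x hx hs1
    have hl2 : ∀ y ∈ l ++ [x], IsMove2 r y := by
      intro y hy
      rcases List.mem_append.1 hy with hy | hy
      · exact hl y hy
      · rw [List.mem_singleton] at hy
        rw [hy]
        exact hx
    have hs2 : (l ++ [x]).length ≤ s := by
      rw [List.length_append, List.length_singleton]
      exact hs1
    obtain ⟨ψ2, h2⟩ := key (l ++ [x]) hl2 hs2
    have hO' := ha (l ++ [x]) hl2 hs2
    have e0 : a + (l ++ [x]).sum = a + l.sum + x := by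
      rw [List.sum_append, List.sum_singleton, ← add_assoc]
    rw [e0] at h2 hO'
    obtain ⟨v, A, κ, rfl⟩ := isMove2_row x hx
    have h5 := lemD hp hO hO' (minor_add_mvRow (a + l.sum) v A κ) hg0
      (by have : 0 ≤ Γ / n := by positivity
          linarith) h1 (h2.mono hg0.le)
    have e : 21 * P / (Γ / n / 2 * n) = 42 * P / Γ := by
      field_simp
      ring
    rw [e] at h5
    obtain ⟨z, hz, hzd⟩ := exists_align h1.unit h2.unit h5
    refine ⟨_, Γ / n / 2, fun u => z * ψ2 u, hg0, ((topPair2_iff _ _ _ _).2 h2).smul hz, ?_⟩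
    refine hzd.trans (le_of_eq ?_)
    ring

/-- Counting: the good configurations. -/
theorem card_good {r N m : ℕ} [NeZero m] {n K P δ : ℝ} (s : ℕ) (T : Cfg2 N m → Prop)
    (h1 : ({a : Cfg2 N m | a ∉ Nice r N m n K P δ s}.ncard : ℝ) /
      (m : ℝ) ^ Fintype.card (Edge N) ≤ 1 / 4)
    (h2 : ({a : Cfg2 N m | OO (Smat2 a) n K P δ ∧ ¬ T a}.ncard : ℝ) /
      (m : ℝ) ^ Fintype.card (Edge N) ≤ 1 / 2) :
    ∃ Gam : Finset (Cfg2 N m), (m : ℝ) ^ Fintype.card (Edge N) ≤ 4 * Gam.card ∧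
      ∀ a ∈ Gam, a ∈ Nice r N m n K P δ s ∧ T a := by
  classical
  have hfin : ∀ s : Set (Cfg2 N m), s.Finite := fun s => Set.toFinite s
  refine ⟨(hfin {a : Cfg2 N m | a ∈ Nice r N m n K P δ s ∧ T a}).toFinset, ?_, ?_⟩
  · have hpos : (0 : ℝ) < (m : ℝ) ^ Fintype.card (Edge N) := pow_pos_m
    rw [div_le_iff₀ hpos] at h1 h2
    have h3 : (Set.univ : Set (Cfg2 N m)) ⊆ ({a : Cfg2 N m | a ∉ Nice r N m n K P δ s} ∪
        {a : Cfg2 N m | OO (Smat2 a) n K P δ ∧ ¬ T a}) ∪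
        {a : Cfg2 N m | a ∈ Nice r N m n K P δ s ∧ T a} := by
      intro a _
      by_cases ha : a ∈ Nice r N m n K P δ s
      · by_cases hT : T a
        · exact Or.inr ⟨ha, hT⟩
        · refine Or.inl (Or.inr ⟨?_, hT⟩)
          have := ha [] (by simp) (by simp)
          simpa using this
      · exact Or.inl (Or.inl ha)
    have h4 := ((Set.ncard_le_ncard h3 (hfin _)).trans (Set.ncard_union_le _ _)).trans
      (Nat.add_le_add_right (Set.ncard_union_le _ _) _)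
    rw [Set.ncard_univ, Nat.card_eq_fintype_card, card_cfg2,
      Set.ncard_eq_toFinset_card _ (hfin {a : Cfg2 N m | a ∈ Nice r N m n K P δ s ∧ T a})] at h4
    have h5 : (m : ℝ) ^ Fintype.card (Edge N) ≤
        ({a : Cfg2 N m | a ∉ Nice r N m n K P δ s}.ncard : ℝ) +
        ({a : Cfg2 N m | OO (Smat2 a) n K P δ ∧ ¬ T a}.ncard : ℝ) +
        ((hfin {a : Cfg2 N m | a ∈ Nice r N m n K P δ s ∧ T a}).toFinset.card : ℝ) := by
      exact_mod_cast h4
    linarith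
  · intro a ha
    rw [Set.Finite.mem_toFinset] at ha
    exact ha

/-- The spectator sum. -/
noncomputable def spec {N m : ℕ} [NeZero m] (r : ℕ) (c : Fin N → ZMod m) (ψ : Fin N → ℂ) : ℂ :=
  ∑ u, ph (c u) * ψ u ^ r

/-- MAIN THEOREM of the random matrix part, Hermitian case. -/
theorem rmt_main (r : ℕ) (hr : 2 ≤ r) (ε : ℝ) (hε : 0 < ε) :
    ∃ x : ℝ, 0 < x ∧ ∃ N₀ : ℕ, ∀ N ≥ N₀, ∀ L : ℕ, (L : ℝ) ≤ (N : ℝ) ^ x →
    ∃ (m : ℕ) (_ : NeZero m) (c : Fin N → ZMod m) (Gam : Finset (Cfg2 N m)), r ∣ m ∧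
      m ^ Fintype.card (Edge N) ≤ 256 * Gam.card ∧ GoodSet (spec r c) r L ε Gam := by
  obtain ⟨ε1, hε1⟩ : ∃ ε1 : ℝ, ε1 = min ε 1 := ⟨_, rfl⟩
  have hε1pos : 0 < ε1 := by
    rw [hε1]
    exact lt_min hε one_pos
  have hε1le : ε1 ≤ ε := by
    rw [hε1]
    exact min_le_left _ _
  have hε11 : ε1 ≤ 1 := by
    rw [hε1]
    exact min_le_right _ _
  have hr0 : 0 < r := by omega
  have hrR : (1 : ℝ) ≤ r := by exact_mod_cast hr0
  -- the constant A
  obtain ⟨A, hA⟩ : ∃ A : ℝ, A = 5 * 10 ^ 20 * r ^ 2 * (10 ^ 7) ^ (2 * r) / ε1 ^ 2 := ⟨_, rfl⟩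
  have hA8 : 5 * 10 ^ 20 ≤ A := num_A hrR hε1pos hε11 hA
  have hA0 : 0 < A := lt_of_lt_of_le (by norm_num) hA8
  obtain ⟨x, hx, N0, hN0⟩ := num_choice2 (10 ^ 80 * A ^ 8) (32 * r + 4)
  refine ⟨x, hx, max N0 (4 * r + 2), fun N hN L hL => ?_⟩
  have hNr : 4 * r + 2 ≤ N := le_trans (le_max_right _ _) hN
  have hN2 : 2 ≤ N := by omega
  have hNpos : 0 < N := by omega
  have hN2R : (2 : ℝ) ≤ N := by exact_mod_cast hN2
  obtain ⟨q, hq, hqL, hqL2, hqN⟩ := hN0 N (le_trans (le_max_left _ _) hN) L hL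
  have hun := union_num2 N L q r hNr hqL
  have hq1 : (1 : ℝ) ≤ q := by exact_mod_cast hq
  obtain ⟨K, hK⟩ : ∃ K : ℝ, K = 6 * q := ⟨_, rfl⟩
  have hK6 : 6 ≤ K := by rw [hK]; linarith
  rw [← hK] at hqL2 hqN
  clear hqL hN0 hA0
  have hK0 : 0 < K := by linarith
  have hK1 : 1 ≤ K := by linarith
  obtain ⟨n, hn⟩ : ∃ n : ℝ, n = √(N : ℝ) := ⟨_, rfl⟩
  have hn2 : n ^ 2 = N := by rw [hn]; exact Real.sq_sqrt (Nat.cast_nonneg N)
  obtain ⟨Γ, hΓd⟩ : ∃ Γ : ℝ, Γ = A * K ^ (4 * r) := ⟨_, rfl⟩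
  have hΓ3 : 5 * 10 ^ 8 * K ^ 3 ≤ Γ := by
    rw [hΓd]
    exact mul_le_mul (le_trans (by norm_num) hA8) (pow_le_pow_right₀ hK1 (by omega))
      (by positivity) (le_trans (by norm_num) hA8)
  have hnK : 10 ^ 40 * K ^ 2 * Γ ^ 4 ≤ n := by
    rw [hn]
    apply Real.le_sqrt_of_sq_le
    refine le_trans (le_of_eq ?_) hqN
    rw [hΓd]
    have : K ^ (32 * r + 4) = (K ^ (4 * r)) ^ 8 * K ^ 4 := by
      rw [← pow_mul, ← pow_add]
      congr 1
      ring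
    rw [this]
    ring
  obtain ⟨hn0, hPn, hδ, hg, hgn, hPP, hPn', -, -⟩ := num_basic2 hK6 hΓ3 hnK
  have hg0 : 0 < Γ := lt_of_lt_of_le (by norm_num) hg
  obtain ⟨P, hPd⟩ : ∃ P : ℝ, P = 10 ^ 6 * K ^ 2 := ⟨_, rfl⟩
  have hP0 : 0 < P := by rw [hPd]; positivity
  have hP1 : 1 ≤ P := by
    rw [hPd]
    exact one_le_mul_of_one_le_of_one_le (by norm_num) (one_le_pow₀ hK1)
  have hΓK : 500 * K * P ≤ Γ := by
    rw [hPd]
    refine le_trans (le_of_eq ?_) hΓ3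
    ring
  -- the parameters
  have hp : Par (Fin N) n K P (1 / (1000 * Γ ^ 2)) := by
    refine ⟨hn0, ?_, hK1, hPd, by rw [hPd]; exact hPn, by positivity, hδ⟩
    rw [hn2, Fintype.card_fin]
  -- q' and m
  obtain ⟨q', hq'd⟩ : ∃ q' : ℕ, q' = ⌈500 * K * Γ ^ 2⌉₊ := ⟨_, rfl⟩
  obtain ⟨hq'1, hq'2, hq'pos⟩ := num_q' hK6 (le_trans (by norm_num) hg) hq'd
  obtain ⟨m, hmd⟩ : ∃ m : ℕ, m = 4 * r * q' := ⟨_, rfl⟩
  have hm0 : m ≠ 0 := by
    rw [hmd]
    positivity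
  have hNZ : NeZero m := ⟨hm0⟩
  have h4m : 4 ∣ m := ⟨r * q', by rw [hmd]; ring⟩
  have h2m : 2 ∣ m := ⟨2 * r * q', by rw [hmd]; ring⟩
  have hev : Even m := (even_iff_two_dvd).2 h2m
  have hrm : r ∣ m := ⟨4 * q', by rw [hmd]; ring⟩
  have hqm : 2 * q' < m := by
    rw [hmd]
    have : 1 * q' ≤ r * q' := Nat.mul_le_mul_right _ hr0
    have e : 4 * r * q' = 4 * (r * q') := by ring
    omega
  -- the bad set
  have hbad : badO N m n K P (1 / (1000 * Γ ^ 2)) ≤ (N : ℝ) ^ 3 * Real.exp (-(3 / 2) * q) :=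
    (badO_le h2m hNpos hp hq (by rw [hK]) hq'pos hqm).trans
      (num_bad2 hq hK hΓ3 hnK hn2 hq'1 hq'2)
  have hbad0 : 0 ≤ badO N m n K P (1 / (1000 * Γ ^ 2)) := by
    unfold badO
    positivity
  clear hq'1 hq'2 hq'd hqN hPn hmd hm0
  obtain ⟨Q, hQ⟩ : ∃ Q : ℕ, Q = (2 * N * N + N) * r + 1 := ⟨_, rfl⟩
  rw [← hQ] at hun
  have hpow1 : (1 : ℝ) ≤ (Q : ℝ) := by
    have : 1 ≤ Q := by rw [hQ]; exact Nat.le_add_left _ _
    exact_mod_cast this
  have hE0 : 0 < Real.exp (-(3 / 2) * (q : ℝ)) := Real.exp_pos _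
  have hun1 : Real.exp (-(3 / 2) * q) ≤ ((N : ℝ) ^ 20)⁻¹ := by
    refine le_trans ?_ hun
    exact le_mul_of_one_le_left hE0.le (one_le_pow₀ hpow1)
  have hun2 : (Q : ℝ) ^ L * Real.exp (-(3 / 2) * q) ≤ ((N : ℝ) ^ 20)⁻¹ := by
    refine le_trans ?_ hun
    exact mul_le_mul_of_nonneg_right (pow_le_pow_right₀ hpow1 (by omega)) hE0.le
  have hun3 : (Q : ℝ) ^ (L + 1) * Real.exp (-(3 / 2) * q) ≤ ((N : ℝ) ^ 20)⁻¹ := by
    refine le_trans ?_ hun
    exact mul_le_mul_of_nonneg_right (pow_le_pow_right₀ hpow1 (by omega)) hE0.le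
  have hnn : ({a : Cfg2 N m | a ∉ Nice r N m n K P (1 / (1000 * Γ ^ 2)) L}.ncard : ℝ) /
      (m : ℝ) ^ Fintype.card (Edge N) ≤ 1 / 4 := by
    refine (not_nice_le hNpos L).trans ?_
    have e : ((2 * (N : ℝ) ^ 2 + N) * r + 1) = (Q : ℝ) := by
      rw [hQ]
      push_cast
      ring
    rw [e]
    calc (Q : ℝ) ^ L * badO N m n K P (1 / (1000 * Γ ^ 2))
        ≤ (Q : ℝ) ^ L * ((N : ℝ) ^ 3 * Real.exp (-(3 / 2) * q)) :=
          mul_le_mul_of_nonneg_left hbad (by positivity)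
      _ = (N : ℝ) ^ 3 * ((Q : ℝ) ^ L * Real.exp (-(3 / 2) * q)) := by ring
      _ ≤ (N : ℝ) ^ 3 * ((N : ℝ) ^ 20)⁻¹ := mul_le_mul_of_nonneg_left hun2 (by positivity)
      _ ≤ 1 / 4 := num_inv1 hN2R
  have hβ : badO N m n K P (1 / (1000 * Γ ^ 2)) * n ^ 2 ≤ 1 / 100 := by
    rw [hn2]
    refine le_trans ?_ (num_inv2 hN2R)
    apply mul_le_mul_of_nonneg_right _ (by positivity)
    exact hbad.trans (mul_le_mul_of_nonneg_left hun1 (by positivity))
  have hgap0 := prob_gap h4m hNpos hp (by rw [hPd]; exact hPP) hPn' hg0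
  have hgap1 := num_gap2 hK6 hΓ3 hnK hβ hbad0
  rw [← hPd] at hgap1
  obtain ⟨Gam0, hG1, hG2⟩ := card_good L _ hnn (hgap0.trans hgap1)
  clear hgap0 hgap1 hnn hβ hbad hbad0 hun1 hun2 hun hPP hPn'
  -- the chain
  have hLK : (L : ℝ) ≤ K := num_sq_le hK6 hqL2
  have hΓ1 : 204 * P + 24 * L * P ≤ Γ := num_chain5 hK6 hLK hP0 hΓK
  have hΓn : Γ ≤ n ^ 2 / 20 := num_chain6 hg hgn
  have hS : ∀ a ∈ Gam0, SGood2 r L (12 / 5 * P) (84 * P / Γ) a := fun a ha =>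
    sgood_of hNpos hp hΓ1 hΓn (hG2 a ha).1 (hG2 a ha).2
  -- the numbers of the spectator part
  have hnum := num_tail hN2R hun3
  rw [hQ] at hnum
  have hη0 : 0 ≤ 84 * P / Γ := by positivity
  have hD0 : 0 ≤ 12 / 5 * P := by positivity
  have e1 : ((3 * q : ℕ) : ℝ) = K / 2 := by
    rw [hK]
    push_cast
    ring
  have e2 : (1 : ℝ) ≤ ((3 * q : ℕ) : ℝ) := by
    rw [e1]
    linarith
  have hn1 : 1 ≤ n := by
    refine le_trans ?_ hgn
    exact one_le_mul_of_one_le_of_one_le (by norm_num) (le_trans (by norm_num) hg)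
  have hmain := num_main hr hK6 hPd hε1pos hg0 hA hΓd e1
  obtain ⟨hε', hsq, hdel⟩ := num_main2 hrR hK6 hP1 hε1pos hg0 e2 hqL2 hn1 hgn hmain
  rw [hn2] at hdel
  obtain ⟨c, Gam, -, hGc, hGood⟩ := exists_spectator hev hr0 (q := 3 * q) (by omega) hD0 hη0
    hnum hε' (by linarith : ε1 / 8 ≤ 1 / 2) (by linarith : (L : ℝ) * Real.sqrt (84 * P / Γ) +
      4 * (ε1 / 8) ≤ ε1) hdel Gam0 hS
  refine ⟨m, hNZ, c, Gam, hrm, ?_, ?_⟩
  · have e1 : ((m ^ Fintype.card (Edge N) : ℕ) : ℝ) ≤ ((256 * Gam.card : ℕ) : ℝ) := by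
      push_cast
      linarith
    exact_mod_cast e1
  · intro a ha l hl hlL
    obtain ⟨ψa, ψb, la, lb, g, hg1, hTa, hTb, hpa, hpb, hd, hdb⟩ := hGood a ha l hl hlL
    refine ⟨ψa, ψb, ⟨⟨la, g, hg1, hTa⟩, ?_⟩, ⟨⟨lb, g, hg1, hTb⟩, ?_⟩, ?_, ?_⟩
    · obtain ⟨t, ht, ht2⟩ := hpa
      exact ⟨t, ht, ht2⟩
    · obtain ⟨t, ht, ht2⟩ := hpb
      exact ⟨t, ht, ht2⟩
    · unfold ds
      have e1 : ∑ v, ‖ψb v - ψa v‖ ^ 2 = ∑ v, ‖ψa v - ψb v‖ ^ 2 :=
        sum_congr rfl fun v _ => by rw [norm_sub_rev]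
      rw [e1]
      exact hd.trans (pow_le_pow_left₀ hε1pos.le hε1le 2)
    · intro v
      refine (hdb v).trans ?_
      have e1 : ε1 ^ 2 ≤ ε ^ 2 := pow_le_pow_left₀ hε1pos.le hε1le 2
      have e2 : 0 ≤ ε1 ^ 2 := sq_nonneg _
      linarith

end Pool.Agent.MP_9cec2c_lc.Flat.Herm
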