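import Pool.Agent.Lib.MP_9cec2c_lc.CQMain
import Pool.Agent.Lib.MP_9cec2c_lc.FN9

/-!
The counting principles.
-/

set_option autoImplicit false

namespace Pool.Agent.MP_9cec2c_lc.CQ

open Finset Frege Flat
open FG (exactCover listCNF mem_listCNF Rule Refutes partitionCNF pointClause pairClauses)

/-- A partition into sets of size `r` exists only if `r` divides the number of the points. -/
theorem exactCover_unsat {V P : Type} [Fintype V] [DecidableEq V] [Fintype P] [DecidableEq P]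
    {blk : V → Finset P} {r : ℕ} (hc : ∀ v, (blk v).card = r) (hr : ¬ r ∣ Fintype.card P)
    (x : V → Bool) : ∃ D ∈ listCNF (exactCover blk), ∀ l ∈ D, x l.1 ≠ l.2 := by
  classical
  by_contra hcon
  push Not at hcon
  have hc1 : ∀ κ ∈ exactCover blk, ∃ l ∈ κ, x l.1 = l.2 := by
    intro κ hκ
    obtain ⟨l, hl, hx⟩ := hcon κ.toList (mem_listCNF.2 ⟨κ, hκ, rfl⟩)
    exact ⟨l, Finset.mem_toList.1 hl, hx⟩
  apply hr
  have h1 : (univ : Finset P) = (univ.filter fun v => x v = true).biUnion blk := by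
    ext z
    refine ⟨fun _ => ?_, fun _ => mem_univ _⟩
    obtain ⟨l, hl, hx⟩ := hc1 (pointClause blk z) (mem_union_left _ (mem_image_of_mem _
      (mem_univ z)))
    obtain ⟨v, hv, rfl⟩ := mem_image.1 hl
    exact mem_biUnion.2 ⟨v, mem_filter.2 ⟨mem_univ _, hx⟩, (mem_filter.1 hv).2⟩
  have h2 : ((univ.filter fun v => x v = true).biUnion blk).card =
      ∑ v ∈ univ.filter fun v => x v = true, (blk v).card := by
    refine card_biUnion fun v hv v' hv' hne => ?_
    by_contra hdis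
    obtain ⟨l, hl, hx⟩ := hc1 {(v, false), (v', false)} (mem_union_right _
      (mem_image.2 ⟨(v, v'), mem_filter.2 ⟨mem_univ _, hne, hdis⟩, rfl⟩))
    rcases mem_insert.1 hl with rfl | hl
    · rw [(mem_filter.1 hv).2] at hx
      exact absurd hx (by simp)
    · rw [mem_singleton.1 hl, (mem_filter.1 hv').2] at hx
      exact absurd hx (by simp)
  rw [← card_univ, h1, h2, sum_congr rfl fun v _ => hc v, sum_const, smul_eq_mul]
  exact Dvd.intro_left _ rfl

/-- The counting principles are unsatisfiable. -/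
theorem partition_unsat {M r : ℕ} {H : Finset (Finset (Fin M))} (hH : ∀ B ∈ H, B.card = r)
    (hr : ¬ r ∣ M) (x : {B // B ∈ H} → Bool) : ∃ D ∈ partitionCNF H, ∀ l ∈ D, x l.1 ≠ l.2 := by
  have h1 : ∀ B : {B // B ∈ H}, ((Subtype.val : {B // B ∈ H} → Finset (Fin M)) B).card = r :=
    fun B => hH B.1 B.2
  have h2 : ¬ r ∣ Fintype.card (Fin M) := by
    rw [Fintype.card_fin]
    exact hr
  exact exactCover_unsat h1 h2 x

/-- **The counting principles** are exponentially hard for all Frege systems of constant depth with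
counting gates modulo `p`. -/
theorem partition_bound (p : ℕ) [hp : Fact p.Prime] (r : ℕ) (hr : 2 ≤ r) {S : Set Rule}
    (hS : S.Finite) (hsound : ∀ R ∈ S, R.Sound p) :
    ∃ c : ℝ, 0 < c ∧ ∃ M₀ : ℕ, ∀ M ≥ M₀, p ^ r.factorization p ∣ M → ¬ r ∣ M →
      ∃ H : Finset (Finset (Fin M)), (∀ B ∈ H, B.card = r) ∧
        (∀ i, (H.filter fun B => i ∈ B).card ≤ r ^ 3) ∧
        ∀ H' : Finset (Finset (Fin M)), H ⊆ H' →
          ∀ (d l : ℕ) (L : Fin l → FG.Form {B // B ∈ H'}), Refutes S d (partitionCNF H') L →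
            Real.exp (c * (M : ℝ) ^ (c / (d + 1))) ≤ FG.size L := by
  classical
  obtain ⟨k, hk⟩ : ∃ k, k = p ^ r.factorization p := ⟨_, rfl⟩
  obtain ⟨s, hs⟩ : ∃ s, s = r / p ^ r.factorization p := ⟨_, rfl⟩
  have hks : k * s = r := by
    rw [hk, hs]
    exact Nat.ordProj_mul_ordCompl_eq_self r p
  have hps : Nat.Coprime p s := by
    rw [hs]
    exact Nat.coprime_ordCompl hp.out (by omega)
  have hk0 : 0 < k := by
    rw [hk]
    exact pow_pos hp.out.pos _
  have hs0 : s ≠ 0 := by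
    rintro rfl
    rw [mul_zero] at hks
    omega
  have hsr : s ≤ r := by
    rw [← hks]
    exact Nat.le_mul_of_pos_left s hk0
  rw [← hk]
  by_cases hs1 : s = 1
  · refine ⟨1, one_pos, 0, fun M _ h1 h2 => absurd ?_ h2⟩
    rw [← hks, hs1, mul_one]
    exact h1
  · have : NeZero s := ⟨hs0⟩
    obtain ⟨c, hc, M₀, h⟩ := cover_bound p s k (by omega) hk0 hps
      (Herm.rmt_main s (by omega)) hS hsound
    refine ⟨c, hc, M₀, ?_⟩
    rintro M hM ⟨m, rfl⟩ -
    obtain ⟨H, hH, hH3, h2⟩ := h m hM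
    refine ⟨H, fun B hB => by rw [hH B hB, hks], fun i => (hH3 i).trans
      (Nat.pow_le_pow_left hsr 3), fun H' hHH' d l L hL => ?_⟩
    exact h2 _ Subtype.val Subtype.val_injective (fun B hB => ⟨⟨B, hHH' hB⟩, rfl⟩) d l L hL

end Pool.Agent.MP_9cec2c_lc.CQ
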