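import Mathlib
import Pool.Agent.Lib.MP_9cec2c_lc.FADefs
import Pool.Agent.Lib.MP_9cec2c_lc.Mg.G058
import Pool.Agent.Lib.MP_9cec2c_lc.Mg.G010

/-!
FLAT: the clauses of a linear equation modulo 2 act as zero on a world in which the character of
the equation acts as a sign.
-/

set_option autoImplicit false

namespace Pool.Agent.MP_9cec2c_lc.Flat

open Finset Frege

variable {K V W : Type} [Field K] [AddCommGroup W] [Module K W]
  {M : ℕ → Submodule K W} {act : Fun K V →ₗ[K] W →ₗ[K] W} {A : ℕ}

/-- The character of a set of variables: the product of the signs `(-1)^(x i)`. -/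
def chi (K : Type) [Field K] {V : Type} (C : Finset V) : Fun K V :=
  fun x => ∏ i ∈ C, (if x i = true then -1 else 1)

/-- The sign `(-1)^z` in the field `K`. -/
def ksgn (K : Type) [Field K] (z : ZMod 2) : K := if z = 0 then 1 else -1

theorem ksgn_add (x z : ZMod 2) : ksgn K (x + z) = ksgn K x * ksgn K z := by
  rcases zmod2_cases x with rfl | rfl <;> rcases zmod2_cases z with rfl | rfl
  · simp [ksgn]
  · simp [ksgn]
  · simp [ksgn]
  · have h : (1 : ZMod 2) + 1 = 0 := by decide
    rw [h]
    simp [ksgn]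

theorem ksgn_mul_self (z : ZMod 2) : ksgn K z * ksgn K z = 1 := by
  rcases zmod2_cases z with rfl | rfl <;> simp [ksgn]

theorem ksgn_injective (h2 : (2 : K) ≠ 0) {x z : ZMod 2} (h : ksgn K x = ksgn K z) : x = z := by
  have h1 : (1 : K) ≠ -1 := by
    intro h3
    apply h2
    have : (1 : K) + 1 = 0 := by
      nth_rewrite 2 [h3]
      ring
    rw [← this]
    norm_num
  rcases zmod2_cases x with rfl | rfl <;> rcases zmod2_cases z with rfl | rfl
  · rfl
  · simp [ksgn] at h
    exact absurd h h1
  · simp [ksgn] at h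
    exact absurd h.symm h1
  · rfl

theorem prod_sign (C : Finset V) (x : V → Bool) :
    ∏ i ∈ C, (if x i = true then (-1 : K) else 1) = ksgn K (∑ i ∈ C, bz (x i)) := by
  classical
  induction C using Finset.induction_on with
  | empty => simp [ksgn]
  | insert i C hi ih =>
    rw [prod_insert hi, sum_insert hi, ksgn_add, ih]
    congr 1
    unfold bz ksgn
    by_cases h : x i = true
    · simp [h]
    · simp [h]

theorem chi_apply (C : Finset V) (x : V → Bool) : chi K C x = ksgn K (∑ i ∈ C, bz (x i)) :=
  prod_sign C x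

theorem chi_mem [Fintype V] (C : Finset V) : chi K C ∈ Pol K V C.card := by
  refine mem_Pol_of_depends C fun x y h => ?_
  unfold chi
  exact prod_congr rfl fun i hi => by rw [h i hi]

open Classical in
/-- The indicator of the assignments which falsify the clause `forbid C B`. -/
noncomputable def falsK (K : Type) [Field K] {V : Type} (C B : Finset V) : Fun K V :=
  fun x => if ∀ i ∈ C, (x i = true ↔ i ∈ B) then 1 else 0

theorem falsK_mem [Fintype V] (C B : Finset V) : falsK K C B ∈ Pol K V C.card := by
  refine mem_Pol_of_depends C fun x y h => ?_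
  unfold falsK
  have : (∀ i ∈ C, (x i = true ↔ i ∈ B)) ↔ (∀ i ∈ C, (y i = true ↔ i ∈ B)) := by
    constructor
    · intro h1 i hi
      rw [← h i hi]
      exact h1 i hi
    · intro h1 i hi
      rw [h i hi]
      exact h1 i hi
  by_cases h1 : ∀ i ∈ C, (x i = true ↔ i ∈ B)
  · rw [if_pos h1, if_pos (this.1 h1)]
  · rw [if_neg h1, if_neg (fun h2 => h1 (this.2 h2))]

theorem falsK_mul_chi [DecidableEq V] (C B : Finset V) (hB : B ⊆ C) :
    falsK K C B * chi K C = ksgn K (B.card : ZMod 2) • falsK K C B := by
  funext x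
  rw [Pi.mul_apply, Pi.smul_apply, smul_eq_mul, chi_apply]
  unfold falsK
  by_cases h : ∀ i ∈ C, (x i = true ↔ i ∈ B)
  · rw [if_pos h, one_mul, mul_one, sum_bz_eq_card]
    congr 3
    ext i
    rw [mem_filter]
    constructor
    · rintro ⟨h1, h2⟩
      exact (h i h1).1 h2
    · intro h1
      exact ⟨hB h1, (h i (hB h1)).2 h1⟩
  · rw [if_neg h, zero_mul, mul_zero]

/-- A clause of the equation `sum of C = c` acts as zero if the character of `C` acts as
`(-1)^c`. -/
theorem act_falsK [Fintype V] [DecidableEq V] (hW : World M act A) (h2 : (2 : K) ≠ 0)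
    (C B : Finset V) (hB : B ⊆ C) (c : ZMod 2) (hne : (B.card : ZMod 2) ≠ c)
    (hchi : ∀ a w, a + C.card ≤ A → w ∈ M a → act (chi K C) w = ksgn K c • w)
    (a : ℕ) (w : W) (ha : a + 2 * C.card ≤ A) (hw : w ∈ M a) : act (falsK K C B) w = 0 := by
  have h1 := hW.act_mul a C.card C.card (falsK K C B) (chi K C) w (by omega)
    (falsK_mem C B) (chi_mem C) hw
  rw [hchi a w (by omega) hw, falsK_mul_chi C B hB, map_smul, map_smul, LinearMap.smul_apply] at h1
  by_contra h3
  apply hne
  apply ksgn_injective (K := K) h2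
  have h4 : (ksgn K (B.card : ZMod 2) - ksgn K c) • act (falsK K C B) w = 0 := by
    rw [sub_smul, h1, sub_self]
  rcases smul_eq_zero.1 h4 with h5 | h5
  · exact sub_eq_zero.1 h5
  · exact absurd h5 h3

/-- The cedent of literals of a clause. -/
noncomputable def toCedent {V : Type} (κ : Finset (V × Bool)) : Cedent V :=
  open Classical in κ.image (fun l => if l.2 = true then Form.var l.1 else Form.neg (Form.var l.1))

theorem holds_toCedent (p : ℕ) (x : V → Bool) (κ : Finset (V × Bool)) :
    Holds p x (toCedent κ) ↔ ∃ l ∈ κ, x l.1 = l.2 := by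
  classical
  unfold Holds toCedent
  constructor
  · rintro ⟨φ, hφ, hx⟩
    rcases mem_image.1 hφ with ⟨l, hl, rfl⟩
    refine ⟨l, hl, ?_⟩
    by_cases h : l.2 = true
    · rw [if_pos h] at hx
      rw [h]
      exact hx
    · rw [if_neg h] at hx
      have h3 : ¬ (x l.1 = true) := hx
      rw [Bool.not_eq_true] at h h3
      rw [h, h3]
  · rintro ⟨l, hl, hx⟩
    refine ⟨_, mem_image_of_mem _ hl, ?_⟩
    by_cases h : l.2 = true
    · rw [if_pos h]
      show x l.1 = true
      rw [hx, h]
    · rw [if_neg h]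
      show ¬ (x l.1 = true)
      rw [hx]
      exact h

theorem not_holds_forbid [DecidableEq V] (p : ℕ) (x : V → Bool) (C B : Finset V) :
    ¬ Holds p x (toCedent (forbid C B)) ↔ ∀ i ∈ C, (x i = true ↔ i ∈ B) := by
  rw [holds_toCedent]
  unfold forbid
  constructor
  · intro h i hi
    have h1 : ¬ (x i = decide (i ∉ B)) := by
      intro h2
      exact h ⟨(i, decide (i ∉ B)), mem_image_of_mem _ hi, h2⟩
    by_cases hb : i ∈ B
    · simp [hb] at h1
      simp [hb, h1]
    · simp [hb] at h1
      simp [hb, h1]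
  · rintro h ⟨l, hl, hx⟩
    rcases mem_image.1 hl with ⟨i, hi, rfl⟩
    have h1 := h i hi
    by_cases hb : i ∈ B
    · simp [hb] at hx h1
      rw [hx] at h1
      exact absurd h1 (by simp)
    · simp [hb] at hx h1
      rw [hx] at h1
      exact absurd h1 (by simp)

end Pool.Agent.MP_9cec2c_lc.Flat
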