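import Mathlib
import Pool.Agent.Lib.MP_9cec2c_lc.FLDim

/-!
FLAT, dimensions for a general modulus: functions on a finite abelian group `A` which are supported
in an invariant set `G` and are covariant under finitely many translations `D v`.
-/

namespace Pool.Agent.MP_9cec2c_lc.Flat

section Group

variable {A : Type*} [AddCommGroup A] {K : Type*} [Field K] {ι : Type*}

/-- Functions on `A`, supported in `G`, covariant under the translations `D v`. -/
def covR (K : Type*) [Field K] (D : ι → A) (kap : ι → K) (G : Finset A) :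
    Submodule K (A → K) where
  carrier := {f | (∀ b, b ∉ G → f b = 0) ∧ ∀ b v, f (b + D v) = kap v * f b}
  add_mem' := by
    intro f g hf hg
    refine ⟨fun b hb => ?_, fun b v => ?_⟩
    · rw [Pi.add_apply, hf.1 b hb, hg.1 b hb, add_zero]
    · rw [Pi.add_apply, Pi.add_apply, hf.2 b v, hg.2 b v, mul_add]
  zero_mem' := ⟨fun _ _ => rfl, fun b v => by simp⟩
  smul_mem' := by
    intro r f hf
    refine ⟨fun b hb => ?_, fun b v => ?_⟩
    · rw [Pi.smul_apply, hf.1 b hb, smul_zero]
    · rw [Pi.smul_apply, Pi.smul_apply, hf.2 b v, smul_eq_mul, smul_eq_mul]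
      ring

theorem mem_covR {D : ι → A} {kap : ι → K} {G : Finset A} {f : A → K} :
    f ∈ covR K D kap G ↔ (∀ b, b ∉ G → f b = 0) ∧
      ∀ b v, f (b + D v) = kap v * f b := Iff.rfl

theorem covR_mono {D : ι → A} {kap : ι → K} {G G' : Finset A} (h : G ⊆ G') :
    covR K D kap G ≤ covR K D kap G' := fun _ hf =>
  ⟨fun b hb => hf.1 b (fun hb' => hb (h hb')), hf.2⟩

/-- A representative of the coset of `b`. -/
noncomputable def rep (H : AddSubgroup A) (b : A) : A := Quotient.out (b : A ⧸ H)

theorem rep_coe (H : AddSubgroup A) (b : A) : ((rep H b : A) : A ⧸ H) = (b : A ⧸ H) :=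
  Quotient.out_eq _

theorem sub_rep_mem (H : AddSubgroup A) (b : A) : b - rep H b ∈ H := by
  have h := (QuotientAddGroup.eq (s := H)).1 (rep_coe H b)
  rwa [neg_add_eq_sub] at h

theorem rep_add (H : AddSubgroup A) (b h : A) (hh : h ∈ H) : rep H (b + h) = rep H b := by
  unfold rep
  congr 1
  refine (QuotientAddGroup.eq (s := H)).2 ?_
  have e : -(b + h) + b = -h := by abel
  rw [e]
  exact H.neg_mem hh

theorem rep_rep (H : AddSubgroup A) (b : A) : rep H (rep H b) = rep H b := by
  unfold rep
  congr 1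
  exact Quotient.out_eq _

theorem rep_mem_iff (H : AddSubgroup A) (G : Finset A) (hG : ∀ b ∈ G, ∀ h ∈ H, b + h ∈ G)
    (b : A) : b ∈ G ↔ rep H b ∈ G := by
  have h := sub_rep_mem H b
  constructor
  · intro hb
    have h1 := hG b hb _ (H.neg_mem h)
    have e : b + -(b - rep H b) = rep H b := by abel
    rwa [e] at h1
  · intro hb
    have h1 := hG _ hb _ h
    have e : rep H b + (b - rep H b) = b := by abel
    rwa [e] at h1

/-- An invariant set has `#H` times as many elements as a set of representatives. -/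
theorem card_eq_rep [DecidableEq A] (H : AddSubgroup A) [Fintype H] (G : Finset A)
    (hG : ∀ b ∈ G, ∀ h ∈ H, b + h ∈ G) :
    G.card = Fintype.card H * (G.filter (fun b => rep H b = b)).card := by
  have h := Finset.card_nbij' (s := G)
    (t := (G.filter (fun b => rep H b = b)) ×ˢ (Finset.univ : Finset H))
    (fun b => (rep H b, ⟨b - rep H b, sub_rep_mem H b⟩)) (fun q => q.1 + q.2.1)
    (by
      intro b hb
      refine Finset.mem_coe.2 (Finset.mem_product.2 ⟨?_, Finset.mem_univ _⟩)
      exact Finset.mem_filter.2 ⟨(rep_mem_iff H G hG b).1 hb, rep_rep H b⟩)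
    (by
      intro q hq
      have hq1 := Finset.mem_filter.1 (Finset.mem_product.1 (Finset.mem_coe.1 hq)).1
      exact Finset.mem_coe.2 (hG _ hq1.1 _ q.2.2))
    (by
      intro b _
      change rep H b + (b - rep H b) = b
      abel)
    (by
      intro q hq
      have hq1 := Finset.mem_filter.1 (Finset.mem_product.1 (Finset.mem_coe.1 hq)).1
      have e : rep H (q.1 + q.2.1) = q.1 := by
        rw [rep_add H _ _ q.2.2]
        exact hq1.2
      refine Prod.ext e ?_
      apply Subtype.ext
      change q.1 + q.2.1 - rep H (q.1 + q.2.1) = q.2.1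
      rw [e]
      abel)
  rw [h, Finset.card_product, Finset.card_univ, mul_comm]

/-- Covariance under generators implies covariance under the generated subgroup. -/
theorem cov_closure (D : ι → A) (kap : ι → K) (chi : A → K) (H : AddSubgroup A)
    (hH : H = AddSubgroup.closure (Set.range D))
    (h0 : chi 0 = 1) (hadd : ∀ h ∈ H, ∀ h' ∈ H, chi (h + h') = chi h * chi h')
    (hD : ∀ v, chi (D v) = kap v) (f : A → K) (hf : ∀ b v, f (b + D v) = kap v * f b)
    (h : A) (hh : h ∈ H) (b : A) : f (b + h) = chi h * f b := by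
  subst hH
  induction hh using AddSubgroup.closure_induction generalizing b with
  | mem x hx =>
    obtain ⟨v, rfl⟩ := hx
    rw [hf, hD]
  | zero => rw [add_zero, h0, one_mul]
  | add x y hx hy ihx ihy =>
    rw [← add_assoc, ihy, ihx, hadd x hx y hy]
    ring
  | neg x hx ih =>
    have h1 := ih (b + -x)
    have e : b + -x + x = b := by abel
    rw [e] at h1
    have h2 := hadd x hx (-x) ((AddSubgroup.closure _).neg_mem hx)
    rw [add_neg_cancel, h0] at h2
    rw [h1, ← mul_assoc, mul_comm (chi (-x)), ← h2, one_mul]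

theorem covR_eq_nfSpace (D : ι → A) (kap : ι → K) (chi : A → K) (H : AddSubgroup A)
    (hH : H = AddSubgroup.closure (Set.range D))
    (h0 : chi 0 = 1) (hadd : ∀ h ∈ H, ∀ h' ∈ H, chi (h + h') = chi h * chi h')
    (hD : ∀ v, chi (D v) = kap v) (G : Finset A) :
    covR K D kap G = nfSpace K G (rep H) (fun b => chi (b - rep H b)) := by
  have hmem : ∀ v, D v ∈ H := fun v => by
    rw [hH]
    exact AddSubgroup.subset_closure ⟨v, rfl⟩
  ext f
  rw [mem_covR, mem_nfSpace]
  refine and_congr_right fun _ => ⟨fun h b => ?_, fun h b v => ?_⟩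
  · have h1 := cov_closure D kap chi H hH h0 hadd hD f h _ (sub_rep_mem H b) (rep H b)
    have e : rep H b + (b - rep H b) = b := by abel
    rw [e] at h1
    exact h1
  · rw [h (b + D v), h b, rep_add H b _ (hmem v)]
    have e : b + D v - rep H b = D v + (b - rep H b) := by abel
    rw [e, hadd _ (hmem v) _ (sub_rep_mem H b), hD]
    ring

/-- `#G = #H dim`. -/
theorem card_eq_finrank_covR_of_char (D : ι → A) (kap : ι → K) (chi : A → K) (H : AddSubgroup A)
    [Fintype H] (hH : H = AddSubgroup.closure (Set.range D))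
    (h0 : chi 0 = 1) (hadd : ∀ h ∈ H, ∀ h' ∈ H, chi (h + h') = chi h * chi h')
    (hD : ∀ v, chi (D v) = kap v) (G : Finset A) (hG : ∀ b v, b ∈ G → b + D v ∈ G) :
    G.card = Fintype.card H * Module.finrank K (covR K D kap G) := by
  classical
  have hG' : ∀ h ∈ H, ∀ b, b ∈ G ↔ b + h ∈ G := by
    intro h hh
    subst hH
    induction hh using AddSubgroup.closure_induction with
    | mem x hx =>
      obtain ⟨v, rfl⟩ := hx
      -- an injective self map of the finite set `G` is surjective
      intro b
      refine ⟨hG b v, fun hb => ?_⟩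
      have hinj : Function.Injective (fun g : A => g + D v) := fun a a' haa => add_right_cancel haa
      have himg : G.image (fun g => g + D v) = G := by
        refine Finset.eq_of_subset_of_card_le ?_ ?_
        · intro x hx
          obtain ⟨g, hg, rfl⟩ := Finset.mem_image.1 hx
          exact hG g v hg
        · rw [Finset.card_image_of_injective _ hinj]
      rw [← himg] at hb
      obtain ⟨g, hg, hgb⟩ := Finset.mem_image.1 hb
      rwa [hinj hgb] at hg
    | zero => intro b; rw [add_zero]
    | add x y hx hy ihx ihy =>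
      intro b
      rw [ihx b, ihy (b + x), add_assoc]
    | neg x hx ih =>
      intro b
      have e : b + -x + x = b := by abel
      rw [ih (b + -x), e]
  have hG'' : ∀ b ∈ G, ∀ h ∈ H, b + h ∈ G := fun b hb h hh => (hG' h hh b).1 hb
  rw [covR_eq_nfSpace D kap chi H hH h0 hadd hD G, finrank_nfSpace G (rep H) _ (rep_rep H)
    (fun b hb => by rw [hb, sub_self, h0]) (rep_mem_iff H G hG'')]
  exact card_eq_rep H G hG''

end Group

section Mod

variable {A : Type*} [AddCommGroup A] {K : Type*} [Field K] {ι : Type*} [Fintype ι]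

/-- The combination of the translations with integer coefficients. -/
def comb (D : ι → A) (t : ι → ℤ) : A := ∑ v, t v • D v

theorem comb_add (D : ι → A) (t s : ι → ℤ) : comb D (t + s) = comb D t + comb D s := by
  unfold comb
  rw [← Finset.sum_add_distrib]
  exact Finset.sum_congr rfl fun v _ => by rw [Pi.add_apply, add_smul]

theorem comb_neg (D : ι → A) (t : ι → ℤ) : comb D (-t) = -comb D t := by
  unfold comb
  rw [← Finset.sum_neg_distrib]
  exact Finset.sum_congr rfl fun v _ => by rw [Pi.neg_apply, neg_smul]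

theorem comb_zero (D : ι → A) : comb D 0 = 0 := by
  simp [comb]

theorem comb_single [DecidableEq ι] (D : ι → A) (v : ι) : comb D (Pi.single v 1) = D v := by
  unfold comb
  rw [Finset.sum_eq_single v]
  · simp
  · intro w _ hw
    simp [hw]
  · intro h
    exact absurd (Finset.mem_univ v) h

/-- The group generated by the translations. -/
def combGroup (D : ι → A) : AddSubgroup A where
  carrier := Set.range (comb D)
  add_mem' := by
    rintro _ _ ⟨t, rfl⟩ ⟨s, rfl⟩
    exact ⟨t + s, comb_add D t s⟩
  zero_mem' := ⟨0, comb_zero D⟩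
  neg_mem' := by
    rintro _ ⟨t, rfl⟩
    exact ⟨-t, comb_neg D t⟩

theorem combGroup_eq (D : ι → A) : combGroup D = AddSubgroup.closure (Set.range D) := by
  classical
  apply le_antisymm
  · rintro _ ⟨t, rfl⟩
    refine AddSubgroup.sum_mem _ fun v _ => ?_
    exact AddSubgroup.zsmul_mem _ (AddSubgroup.subset_closure (Set.mem_range_self v)) _
  · rw [AddSubgroup.closure_le]
    rintro _ ⟨v, rfl⟩
    exact ⟨Pi.single v 1, comb_single D v⟩

/-- The value of the character on a combination. -/
def kpz (kap : ι → K) (t : ι → ℤ) : K := ∏ v, kap v ^ t v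

theorem kpz_add (kap : ι → K) (hk : ∀ v, kap v ≠ 0) (t s : ι → ℤ) :
    kpz kap (t + s) = kpz kap t * kpz kap s := by
  unfold kpz
  rw [← Finset.prod_mul_distrib]
  exact Finset.prod_congr rfl fun v _ => by rw [Pi.add_apply, zpow_add₀ (hk v)]

theorem kpz_zero (kap : ι → K) : kpz kap 0 = 1 := by
  simp [kpz]

theorem kpz_single [DecidableEq ι] (kap : ι → K) (v : ι) : kpz kap (Pi.single v 1) = kap v := by
  unfold kpz
  rw [Finset.prod_eq_single v]
  · simp
  · intro w _ hw
    simp [hw]
  · intro h
    exact absurd (Finset.mem_univ v) h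

/-- If all coefficients are congruent modulo `r`, the character is trivial. -/
theorem kpz_of_cong (r : ℕ) (kap : ι → K) (hk0 : ∀ v, kap v ≠ 0) (hk : ∀ v, kap v ^ r = 1)
    (hp : ∏ v, kap v = 1)
    (o : ι) (t : ι → ℤ) (ht : ∀ u w, (r : ℤ) ∣ t u - t w) : kpz kap t = 1 := by
  have h1 : ∀ v, kap v ^ t v = kap v ^ t o := by
    intro v
    obtain ⟨c, hc⟩ := ht v o
    have e : t v = (r : ℤ) * c + t o := by linarith
    rw [e, zpow_add₀ (hk0 v), zpow_mul, zpow_natCast, hk v, one_zpow, one_mul]
  unfold kpz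
  rw [Finset.prod_congr rfl fun v _ => h1 v, Finset.prod_zpow, hp, one_zpow]

/-- The number of combinations. -/
theorem card_combGroup [DecidableEq ι] (r : ℕ) [NeZero r] (D : ι → A) (o : ι)
    [Fintype (combGroup D)]
    (hD : ∀ v, r • D v = 0) (hsum : ∑ v, D v = 0)
    (hker : ∀ t : ι → ℤ, comb D t = 0 → ∀ u w, (r : ℤ) ∣ t u - t w) :
    Fintype.card (combGroup D) = r ^ (Fintype.card ι - 1) := by
  obtain ⟨ex, hexo, hexn⟩ : ∃ ex : ({v : ι // v ≠ o} → ZMod r) → ι → ℤ,
      (∀ t, ex t o = 0) ∧ ∀ t (v : {v : ι // v ≠ o}), ex t v.1 = ((t v).val : ℤ) :=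
    ⟨fun t v => if h : v = o then 0 else ((t ⟨v, h⟩).val : ℤ), fun t => by simp,
      fun t v => by simp [v.2]⟩
  let F : ({v : ι // v ≠ o} → ZMod r) → combGroup D := fun t => ⟨comb D (ex t), ex t, rfl⟩
  have hF : Function.Bijective F := by
    constructor
    · intro t s hts
      have h1 : comb D (ex t) = comb D (ex s) := congrArg Subtype.val hts
      have h2 : comb D (ex t + -ex s) = 0 := by
        rw [comb_add, comb_neg, h1, add_neg_cancel]
      funext v
      have h3 := hker _ h2 v.1 o
      rw [Pi.add_apply, Pi.add_apply, Pi.neg_apply, Pi.neg_apply, hexo, hexo, hexn, hexn] at h3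
      have h4 : (r : ℤ) ∣ ((t v).val : ℤ) - ((s v).val : ℤ) := by
        have e : ((t v).val : ℤ) + -((s v).val : ℤ) - (0 + -0) =
          ((t v).val : ℤ) - ((s v).val : ℤ) := by ring
        rwa [e] at h3
      have h5 : (((t v).val : ℤ) : ZMod r) = (((s v).val : ℤ) : ZMod r) := by
        rw [← sub_eq_zero, ← Int.cast_sub]
        exact (ZMod.intCast_zmod_eq_zero_iff_dvd _ _).2 h4
      simpa using h5
    · rintro ⟨_, n, rfl⟩
      refine ⟨fun v => ((n v.1 - n o : ℤ) : ZMod r), ?_⟩
      apply Subtype.ext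
      change comb D (ex (fun v => ((n v.1 - n o : ℤ) : ZMod r))) = comb D n
      have h1 : comb D n = comb D (fun v => n v - n o) := by
        have e : (fun v => n v - n o) = n + -(fun _ => n o) := by
          funext v
          rw [Pi.add_apply, Pi.neg_apply, sub_eq_add_neg]
        have e2 : comb D (fun _ => n o) = 0 := by
          unfold comb
          rw [← Finset.smul_sum, hsum, smul_zero]
        rw [e, comb_add, comb_neg, e2, neg_zero, add_zero]
      rw [h1]
      unfold comb
      refine Finset.sum_congr rfl fun v _ => ?_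
      change _ = (n v - n o) • D v
      by_cases hv : v = o
      · subst hv
        rw [hexo, sub_self, zero_smul]
      · have h2 : ex (fun v => ((n v.1 - n o : ℤ) : ZMod r)) v
            = ((((n v - n o : ℤ) : ZMod r)).val : ℤ) := hexn _ ⟨v, hv⟩
        rw [h2]
        rw [ZMod.val_intCast]
        have h3 : n v - n o = (n v - n o) % (r : ℤ) + ((n v - n o) / (r : ℤ)) * (r : ℤ) := by
          rw [Int.emod_add_ediv_mul]
        conv_rhs => rw [h3, add_smul, mul_smul, natCast_zsmul, hD, smul_zero, add_zero]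
  rw [← Fintype.card_of_bijective hF, Fintype.card_fun, ZMod.card, Fintype.card_subtype_compl]
  simp

/-- General modulus: `#G = r^(N-1) dim`. -/
theorem card_eq_finrank_covR [Finite A] (r : ℕ) [NeZero r] (D : ι → A) (kap : ι → K) (o : ι)
    (hD : ∀ v, r • D v = 0) (hsum : ∑ v, D v = 0)
    (hker : ∀ t : ι → ℤ, ∑ v, t v • D v = 0 → ∀ u w, (r : ℤ) ∣ t u - t w)
    (hk : ∀ v, kap v ^ r = 1) (hp : ∏ v, kap v = 1)
    (G : Finset A) (hG : ∀ b v, b ∈ G → b + D v ∈ G) :
    G.card = r ^ (Fintype.card ι - 1) * Module.finrank K (covR K D kap G) := by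
  classical
  have hr : r ≠ 0 := NeZero.ne r
  have hk0 : ∀ v, kap v ≠ 0 := by
    intro v h
    have h1 := hk v
    rw [h, zero_pow hr] at h1
    exact zero_ne_one h1
  have : Fintype (combGroup D) := Fintype.ofFinite _
  have hwd : ∀ t s : ι → ℤ, comb D t = comb D s → kpz kap t = kpz kap s := by
    intro t s hts
    have h1 : comb D (t + -s) = 0 := by rw [comb_add, comb_neg, hts, add_neg_cancel]
    have h2 := kpz_of_cong r kap hk0 hk hp o _ (hker _ h1)
    have h3 : t = (t + -s) + s := by
      rw [neg_add_cancel_right]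
    rw [h3, kpz_add kap hk0, h2, one_mul]
  let chi : A → K := fun h => if hh : ∃ t, comb D t = h then kpz kap hh.choose else 0
  have hchi : ∀ t, chi (comb D t) = kpz kap t := by
    intro t
    have hh : ∃ s, comb D s = comb D t := ⟨t, rfl⟩
    simp only [chi, dif_pos hh]
    exact hwd _ _ hh.choose_spec
  have h0 : chi 0 = 1 := by
    rw [← comb_zero D, hchi, kpz_zero]
  have hadd : ∀ h ∈ combGroup D, ∀ h' ∈ combGroup D, chi (h + h') = chi h * chi h' := by
    rintro _ ⟨t, rfl⟩ _ ⟨s, rfl⟩
    rw [← comb_add, hchi, hchi, hchi, kpz_add kap hk0]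
  have hDv : ∀ v, chi (D v) = kap v := by
    intro v
    rw [← comb_single D v, hchi, kpz_single]
  rw [← card_combGroup r D o hD hsum hker]
  exact card_eq_finrank_covR_of_char D kap chi (combGroup D) (combGroup_eq D) h0 hadd hDv G hG

/-- The form used for the world. -/
theorem finrank_covR_le [Finite A] (r : ℕ) [NeZero r] (D : ι → A) (kap : ι → K) (o : ι)
    (hD : ∀ v, r • D v = 0) (hsum : ∑ v, D v = 0)
    (hker : ∀ t : ι → ℤ, ∑ v, t v • D v = 0 → ∀ u w, (r : ℤ) ∣ t u - t w)
    (hk : ∀ v, kap v ^ r = 1) (hp : ∏ v, kap v = 1)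
    (G G' : Finset A) (hG : ∀ b v, b ∈ G → b + D v ∈ G) (hG' : ∀ b v, b ∈ G' → b + D v ∈ G')
    (C : ℕ) (hC : G'.card ≤ C * G.card) :
    Module.finrank K (covR K D kap G') ≤ C * Module.finrank K (covR K D kap G) := by
  rw [card_eq_finrank_covR r D kap o hD hsum hker hk hp G hG,
    card_eq_finrank_covR r D kap o hD hsum hker hk hp G' hG'] at hC
  have hpos : 0 < r ^ (Fintype.card ι - 1) := Nat.pos_of_ne_zero (pow_ne_zero _ (NeZero.ne r))
  refine Nat.le_of_mul_le_mul_left ?_ hpos
  calc r ^ (Fintype.card ι - 1) * Module.finrank K (covR K D kap G')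
      ≤ C * (r ^ (Fintype.card ι - 1) * Module.finrank K (covR K D kap G)) := hC
    _ = r ^ (Fintype.card ι - 1) * (C * Module.finrank K (covR K D kap G)) := by ring

theorem finrank_covR_pos [Finite A] (r : ℕ) [NeZero r] (D : ι → A) (kap : ι → K) (o : ι)
    (hD : ∀ v, r • D v = 0) (hsum : ∑ v, D v = 0)
    (hker : ∀ t : ι → ℤ, ∑ v, t v • D v = 0 → ∀ u w, (r : ℤ) ∣ t u - t w)
    (hk : ∀ v, kap v ^ r = 1) (hp : ∏ v, kap v = 1)
    (G : Finset A) (hG : ∀ b v, b ∈ G → b + D v ∈ G) (hne : G.Nonempty) :
    0 < Module.finrank K (covR K D kap G) := by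
  have h := card_eq_finrank_covR r D kap o hD hsum hker hk hp G hG
  have hpos := hne.card_pos
  rcases Nat.eq_zero_or_pos (Module.finrank K (covR K D kap G)) with h0 | h0
  · rw [h0, mul_zero] at h
    omega
  · exact h0

end Mod

end Pool.Agent.MP_9cec2c_lc.Flat
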