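import Pool.Agent.Lib.MP_9cec2c_lc.CQSize
import Pool.Agent.Lib.MP_9cec2c_lc.Mg.G011
import Pool.Agent.Lib.MP_9cec2c_lc.Mg.G002

/-!
The lower bound for partition principles in all Frege systems with counting gates modulo `p`, from
the random matrix theorem.
-/

set_option autoImplicit false
set_option linter.unusedSectionVars false

namespace Pool.Agent.MP_9cec2c_lc.CQ

open Finset Frege Flat Filter
open FG (exactCover listCNF Rule Refutes)
open CP (exists_good)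

/-- The numbers. -/
theorem exists_N {x : ℝ} (hx : 0 < x) (k s w N1 : ℕ) (hk : 0 < k) (hs : 1 < s) (hw : 2 ≤ w) :
    ∃ M0 : ℕ, ∀ M : ℕ, M0 ≤ M → ∃ N A : ℕ, N1 ≤ N ∧ 1 ≤ N ∧ 9 * (k * s) * N ^ 2 ≤ M ∧
      (A : ℝ) ≤ (N : ℝ) ^ x ∧ (M : ℝ) ^ (x / 6) - 1 ≤ ((A / (3 * s) : ℕ) : ℝ) ∧
      w ≤ A / (3 * s) ∧ 6 * s ≤ A := by
  have hks : 1 ≤ k * s := Nat.mul_pos hk (by omega)
  obtain ⟨M1, hM1⟩ := (((tendsto_rpow_atTop (by positivity : 0 < x / 6)).comp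
    tendsto_natCast_atTop_atTop).eventually_ge_atTop ((3 * s + 2 + w : ℕ) : ℝ)).exists_forall_of_atTop
  obtain ⟨M2, hM2⟩ := (((tendsto_rpow_atTop (by norm_num : (0 : ℝ) < 1 / 3)).comp
    tendsto_natCast_atTop_atTop).eventually_ge_atTop
      ((36 * (k * s) + N1 + 1 : ℕ) : ℝ)).exists_forall_of_atTop
  refine ⟨max (max M1 M2) 1, fun M hM => ?_⟩
  have h1 : ((3 * s + 2 + w : ℕ) : ℝ) ≤ (M : ℝ) ^ (x / 6) :=
    hM1 M ((le_max_left _ _).trans ((le_max_left _ _).trans hM))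
  have h2 : ((36 * (k * s) + N1 + 1 : ℕ) : ℝ) ≤ (M : ℝ) ^ ((1 : ℝ) / 3) :=
    hM2 M ((le_max_right _ _).trans ((le_max_left _ _).trans hM))
  have hMpos : (1 : ℝ) ≤ M := by exact_mod_cast (le_max_right _ _).trans hM
  obtain ⟨y, hy⟩ : ∃ y : ℝ, y = (M : ℝ) ^ ((1 : ℝ) / 3) := ⟨_, rfl⟩
  obtain ⟨N, hN⟩ : ∃ N : ℕ, N = Nat.sqrt (M / (9 * (k * s))) := ⟨_, rfl⟩
  rw [← hy] at h2
  have hy3 : y ^ 3 = M := by
    rw [hy, ← Real.rpow_natCast, ← Real.rpow_mul (by linarith)]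
    norm_num
  have hle : 9 * (k * s) * N ^ 2 ≤ M := by
    have h3 : N ^ 2 ≤ M / (9 * (k * s)) := by
      rw [hN]
      exact Nat.sqrt_le' _
    calc 9 * (k * s) * N ^ 2 ≤ 9 * (k * s) * (M / (9 * (k * s))) := Nat.mul_le_mul_left _ h3
      _ ≤ M := Nat.mul_div_le _ _
  have hyN : y ≤ N := by
    by_contra hcon
    push Not at hcon
    have h3 : M / (9 * (k * s)) < (N + 1) ^ 2 := by
      rw [hN]
      exact Nat.lt_succ_sqrt' _
    have h4 : M < 9 * (k * s) * (N + 1) ^ 2 := by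
      have h5 := Nat.lt_mul_div_succ M (show 0 < 9 * (k * s) by omega)
      exact h5.trans_le (Nat.mul_le_mul_left _ h3)
    have h5 : (M : ℝ) < 9 * ((k * s : ℕ) : ℝ) * ((N : ℝ) + 1) ^ 2 := by exact_mod_cast h4
    have h6 : (1 : ℝ) ≤ ((k * s : ℕ) : ℝ) := by exact_mod_cast hks
    have h7 : 36 * ((k * s : ℕ) : ℝ) ≤ y := by
      push_cast at h2 ⊢
      have : (0 : ℝ) ≤ N1 := Nat.cast_nonneg _
      linarith
    have h8 : (N : ℝ) + 1 ≤ 2 * y := by linarith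
    have h9 : ((N : ℝ) + 1) ^ 2 ≤ (2 * y) ^ 2 := pow_le_pow_left₀ (by positivity) h8 2
    have h10 : 9 * ((k * s : ℕ) : ℝ) * ((N : ℝ) + 1) ^ 2 ≤ 9 * ((k * s : ℕ) : ℝ) * (2 * y) ^ 2 :=
      mul_le_mul_of_nonneg_left h9 (by positivity)
    have h11 : 9 * ((k * s : ℕ) : ℝ) * (2 * y) ^ 2 ≤ y ^ 3 := by
      have h12 : 9 * ((k * s : ℕ) : ℝ) * (2 * y) ^ 2 = (36 * ((k * s : ℕ) : ℝ)) * y ^ 2 := by ring
      have h13 : y ^ 3 = y * y ^ 2 := by ring
      rw [h12, h13]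
      exact mul_le_mul_of_nonneg_right h7 (by positivity)
    rw [hy3] at h11
    linarith
  have hN1 : N1 + 1 ≤ N := by
    have h3 : ((N1 + 1 : ℕ) : ℝ) ≤ N := by
      push_cast at h2 ⊢
      have : (0 : ℝ) ≤ k * s := by positivity
      linarith
    exact_mod_cast h3
  obtain ⟨A, hA⟩ : ∃ A : ℕ, A = ⌊(N : ℝ) ^ x⌋₊ := ⟨_, rfl⟩
  have hA1 : (A : ℝ) ≤ (N : ℝ) ^ x := by
    rw [hA]
    exact Nat.floor_le (by positivity)
  have hA2 : (N : ℝ) ^ x - 1 ≤ A := by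
    rw [hA]
    have := Nat.lt_floor_add_one ((N : ℝ) ^ x)
    linarith
  obtain ⟨u, hu⟩ : ∃ u : ℝ, u = (M : ℝ) ^ (x / 6) := ⟨_, rfl⟩
  rw [← hu] at h1
  have hNx : u ^ 2 ≤ (N : ℝ) ^ x := by
    have h3 : y ^ x ≤ (N : ℝ) ^ x := Real.rpow_le_rpow (by rw [hy]; positivity) hyN hx.le
    have h4 : u ^ 2 = y ^ x := by
      rw [hu, hy, ← Real.rpow_natCast, ← Real.rpow_mul (by linarith), ← Real.rpow_mul (by linarith)]
      congr 1
      push_cast
      ring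
    rw [h4]
    exact h3
  have hs0 : (0 : ℝ) < 3 * s := by
    have : (0 : ℝ) < s := by exact_mod_cast (by omega : 0 < s)
    linarith
  have hdiv : u - 1 ≤ ((A / (3 * s) : ℕ) : ℝ) := by
    have h3 := Nat.lt_mul_div_succ A (show 0 < 3 * s by omega)
    have h4 : (A : ℝ) < 3 * s * (((A / (3 * s) : ℕ) : ℝ) + 1) := by exact_mod_cast h3
    have h5 : ((3 * s : ℕ) : ℝ) + 2 + w ≤ u := by exact_mod_cast h1
    have h6 : (0 : ℝ) ≤ w := Nat.cast_nonneg _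
    have h7 : 3 * (s : ℝ) * u ≤ A := by
      push_cast at h5
      nlinarith
    have h8 : 3 * (s : ℝ) * u < 3 * s * (((A / (3 * s) : ℕ) : ℝ) + 1) := lt_of_le_of_lt h7 h4
    have h9 := lt_of_mul_lt_mul_left h8 hs0.le
    linarith
  have hwA : w ≤ A / (3 * s) := by
    have h5 : ((3 * s : ℕ) : ℝ) + 2 + w ≤ u := by exact_mod_cast h1
    have h6 : (w : ℝ) ≤ ((A / (3 * s) : ℕ) : ℝ) := by
      have : (0 : ℝ) ≤ ((3 * s : ℕ) : ℝ) := Nat.cast_nonneg _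
      linarith
    exact_mod_cast h6
  refine ⟨N, A, by omega, by omega, hle, hA1, by rw [← hu]; exact hdiv, hwA, ?_⟩
  have h3 : 2 ≤ A / (3 * s) := hw.trans hwA
  rw [Nat.le_div_iff_mul_le (by omega)] at h3
  omega

/-- **The lower bound for partition principles**, from the random matrix theorem. -/
theorem cover_bound (p : ℕ) [hp : Fact p.Prime] (s k : ℕ) [NeZero s] (hs : 1 < s) (hk : 0 < k)
    (hps : Nat.Coprime p s) (hR : RMT2 s) {S : Set Rule} (hS : S.Finite)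
    (hsound : ∀ R ∈ S, R.Sound p) :
    ∃ c : ℝ, 0 < c ∧ ∃ M₀ : ℕ, ∀ m : ℕ, M₀ ≤ k * m → ∃ H : Finset (Finset (Fin (k * m))),
      (∀ B ∈ H, B.card = k * s) ∧ (∀ i, (H.filter fun B => i ∈ B).card ≤ s ^ 3) ∧
      ∀ (V : Type) [Fintype V] [DecidableEq V] (blk : V → Finset (Fin (k * m))),
        Function.Injective blk → (∀ B ∈ H, ∃ v, blk v = B) →
        ∀ (d l : ℕ) (L : Fin l → FG.Form V), Refutes S d (listCNF (exactCover blk)) L →
          Real.exp (c * ((k * m : ℕ) : ℝ) ^ (c / (d + 1))) ≤ FG.size L := by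
  classical
  obtain ⟨K, hK1, hK2, hK3, ω, hω⟩ := exists_field p s (by omega) hps
  obtain ⟨ε, hε, hsmall⟩ := Herm.exists_small_unif s
  obtain ⟨x, hx, N₁, hN₁⟩ := hR ε hε
  have hx6 : (0 : ℝ) < x / 6 := by positivity
  obtain ⟨c, hc, M₂, hM₂⟩ := FG.frege_num_sub K p hx6 (s ^ 3) 256 hS hsound
  have hw : 2 ≤ s ^ 3 := by
    calc 2 ≤ 2 ^ 3 := by norm_num
      _ ≤ s ^ 3 := Nat.pow_le_pow_left hs 3
  obtain ⟨M₃, hM₃⟩ := exists_N hx k s (s ^ 3) N₁ hk hs hw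
  refine ⟨c, hc, max (max M₂ M₃) 1, fun m hm => ?_⟩
  have h2 : M₂ ≤ k * m := (le_max_left _ _).trans ((le_max_left _ _).trans hm)
  have h3 : M₃ ≤ k * m := (le_max_right _ _).trans ((le_max_left _ _).trans hm)
  obtain ⟨N, A, hNN, hN1, hNM, hA1, hA2, hA3, hA4⟩ := hM₃ (k * m) h3
  have v0 : Fin N := ⟨0, by omega⟩
  -- the charges
  obtain ⟨b, hb⟩ : ∃ b : Fin N → ZMod s, b = Pi.single v0 (m : ZMod s) := ⟨_, rfl⟩
  have hsum : ∑ q, tchg b q = -(m : ZMod s) := by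
    rw [sum_tchg, hb, sum_pi_single' v0, if_pos (mem_univ _)]
  have hcard : 2 * (k * s) * Fintype.card (TVar N) + k * s * Fintype.card (TQ N) ≤ k * m := by
    refine le_trans ?_ hNM
    have h4 := card_TVar N
    have h5 : Fintype.card (TQ N) = N * N + (N + N) := by
      rw [Fintype.card_sum, Fintype.card_prod, Fintype.card_sum, Fintype.card_fin]
    rw [h5]
    have h6 : N ≤ N * N := Nat.le_mul_of_pos_left N hN1
    have h7 : 2 * (k * s) * Fintype.card (TVar N) ≤ 2 * (k * s) * (2 * N ^ 2 + N) :=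
      Nat.mul_le_mul_left _ h4
    have h8 : 2 * (k * s) * (2 * N ^ 2 + N) + k * s * (N * N + (N + N)) =
        k * s * (5 * (N * N) + 4 * N) := by ring
    have h9 : k * s * (5 * (N * N) + 4 * N) ≤ k * s * (9 * (N * N)) :=
      Nat.mul_le_mul_left _ (by omega)
    have h10 : 9 * (k * s) * N ^ 2 = k * s * (9 * (N * N)) := by ring
    omega
  obtain ⟨node, bl, hG⟩ := exists_good (src := tsrc) (tgt := ttgt) hk (tchg b) (D := 3)
    (fun q => ⟨tinc q, card_tinc q, fun i hi => mem_tinc hi⟩) hcard hsum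
  -- the world
  obtain ⟨m', hm', cc, Gam, hrm, hGcard, hGood⟩ := hN₁ N hNN A hA1
  obtain ⟨M, act, hW, hpos, hgrow, hsat⟩ := Herm.tseitinMod_world (K := K) p hω hs (hrm := hrm)
    (Herm.spectator_sum hrm fun u => ph (cc u)) (hsmall m' hrm) v0 b hGood hGcard (by
      have : max s 3 ≤ s + 3 := by omega
      omega)
  refine ⟨blocks bl, (card_blocks hG).1, (card_blocks hG).2, ?_⟩
  intro V _ _ blk hinj hH d l L hL
  obtain ⟨act', hW', hF'⟩ := cover_world hW (kills_of_satisfies hsat) hG hw hA4 hinj hH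
  refine hM₂ (k * m) h2 V _ (fun a => M (3 * s * a)) act' (A / (3 * s)) hW' hA2 ?_ ?_ _ hF' d l L hL
  · rw [mul_zero]
    exact hpos
  · rw [mul_zero]
    refine le_trans ?_ hgrow
    exact Submodule.finrank_mono (hW.mono (Nat.mul_div_le A (3 * s)) le_rfl)

end Pool.Agent.MP_9cec2c_lc.CQ
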