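import Pool.Agent.Lib.MP_9cec2c_lc.Mg.G008
import Pool.Agent.Lib.MP_9cec2c_lc.Mg.G011
import Pool.Agent.Lib.MP_9cec2c_lc.CQ1
import Pool.Agent.Lib.MP_9cec2c_lc.FGFinal

/-!
From a world of the Tseitin contradiction modulo `s` to a world of partition principles.
-/

set_option autoImplicit false
set_option linter.unusedSectionVars false

namespace Pool.Agent.MP_9cec2c_lc.CQ

open Finset Frege Flat
open FG (pointClause pairClauses exactCover listCNF mem_listCNF fals)
open CP (IsBl Good Same nodeSum)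

open Classical in
/-- The nonempty blocks of all states. -/
noncomputable def blocks {X P : Type} [Fintype X] [Fintype P] (bl : X → P → Finset P) :
    Finset (Finset P) :=
  ((univ : Finset (X × P)).image fun e => bl e.1 e.2).filter fun B => B ≠ ∅

theorem mem_blocks {X P : Type} [Fintype X] [Fintype P] {bl : X → P → Finset P} {B : Finset P} :
    B ∈ blocks bl ↔ (∃ x z, bl x z = B) ∧ B ≠ ∅ := by
  classical
  unfold blocks
  rw [mem_filter, mem_image]
  constructor
  · rintro ⟨⟨e, -, h⟩, h2⟩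
    exact ⟨⟨e.1, e.2, h⟩, h2⟩
  · rintro ⟨⟨x, z, h⟩, h2⟩
    exact ⟨⟨(x, z), mem_univ _, h⟩, h2⟩

theorem card_blocks {X Q P : Type} [Fintype X] [Fintype P] [DecidableEq P]
    {eqv : Q → X → X → Prop} {bad : Q → X → Prop}
    {r w : ℕ} {node : P → Option Q} {bl : X → P → Finset P} (h : Good eqv bad r w node bl) :
    (∀ B ∈ blocks bl, B.card = r) ∧ ∀ z, ((blocks bl).filter fun B => z ∈ B).card ≤ w := by
  classical
  refine ⟨fun B hB => ?_, fun z => ?_⟩
  · obtain ⟨⟨x, z, rfl⟩, h2⟩ := mem_blocks.1 hB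
    exact h.card x z h2
  · obtain ⟨S, hS, hS'⟩ := h.width z
    refine (card_le_card fun B hB => ?_).trans hS
    rw [mem_filter] at hB
    obtain ⟨⟨x, z', rfl⟩, -⟩ := mem_blocks.1 hB.1
    rw [← h.isBl.eq_of_mem x z' z hB.2]
    exact hS' x

/-- The indicator function of a false clause, for the two kinds of clauses. -/
theorem fals_toList {K V : Type} [Field K] (D : Clause V) :
    fals K D.toList = fun x => open Classical in if Holds x D then (0 : K) else 1 := by
  classical
  funext x
  have h1 := FG.holds_false_iff K D.toList x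
  by_cases h : Holds x D
  · simp only [if_pos h]
    refine h1.2 ?_
    obtain ⟨l, hl, hx⟩ := h
    exact ⟨l, Finset.mem_toList.2 hl, hx⟩
  · simp only [if_neg h]
    have h2 : fals K D.toList x ≠ 0 := by
      intro h3
      obtain ⟨l, hl, hx⟩ := h1.1 h3
      exact h ⟨l, Finset.mem_toList.1 hl, hx⟩
    unfold fals at h2 ⊢
    by_cases h3 : ∀ l ∈ D.toList, x l.1 ≠ l.2
    · rw [if_pos h3]
    · rw [if_neg h3] at h2
      exact absurd rfl h2

/-- The clauses of the Tseitin contradiction are killed in its world. -/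
theorem kills_of_satisfies {K V W : Type} [Field K] [AddCommGroup W] [Module K W]
    {M : ℕ → Submodule K W} {act : Fun K V →ₗ[K] W →ₗ[K] W} {p w : ℕ}
    {F : Finset (Finset (V × Bool))} (h : Satisfies p M act 0 w {Γ | ∃ κ ∈ F, Γ = toCedent κ}) :
    Kills M act (F : Set (Clause V)) := by
  classical
  intro D hD u hu
  have h1 := (h (toCedent D) ⟨D, hD, rfl⟩).2 u hu
  have h2 : (fun x : V → Bool => if Holds x D then (0 : K) else 1) =
      Fals K p (toCedent D) := by
    funext x
    unfold Fals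
    have h3 : Holds x D ↔ Frege.Holds p x (toCedent D) := (holds_toCedent p x D).symm
    by_cases h4 : Holds x D
    · rw [if_pos h4, if_pos (h3.1 h4)]
    · rw [if_neg h4, if_neg fun h5 => h4 (h3.2 h5)]
  rw [← h1, ← h2]

variable {K W P : Type} [Field K] [Fintype K] [AddCommGroup W] [Module K W]
  [FiniteDimensional K W] {N s : ℕ} [NeZero s] {M : ℕ → Submodule K W}
  {act : Fun K (TVar N × ZMod s) →ₗ[K] W →ₗ[K] W} {A : ℕ} [Fintype P] [DecidableEq P]

/-- **The world of a partition principle**, from a world of the Tseitin contradiction: every clause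
contains a short clause that is killed. -/
theorem cover_world (hW : World M act A) {b : Fin N → ZMod s}
    (hF : Kills M act (tseitinMod N s b : Set (Clause (TVar N × ZMod s))))
    {r w : ℕ} {node : P → Option (TQ N)} {bl : (TVar N → ZMod s) → P → Finset P}
    (hG : Good (Same tsrc ttgt) (fun q x => nodeSum tsrc ttgt x q ≠ tchg b q) r w node bl)
    (hw : 2 ≤ w) (hA : 6 * s ≤ A) {V : Type} [Fintype V] [DecidableEq V] {blk : V → Finset P}
    (hinj : Function.Injective blk) (hH : ∀ B ∈ blocks bl, ∃ v, blk v = B) :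
    ∃ act' : Fun K V →ₗ[K] W →ₗ[K] W, World (fun a => M (3 * s * a)) act' (A / (3 * s)) ∧
      ∀ D ∈ listCNF (exactCover blk), ∃ D' : List (V × Bool), (∀ l ∈ D', l ∈ D) ∧ D'.length ≤ w ∧
        ∀ u ∈ M (3 * s * 0), act' (fals K D') u = 0 := by
  classical
  have hs : 0 < s := Nat.pos_of_ne_zero (NeZero.ne s)
  obtain ⟨bl', hbl'⟩ : ∃ bl' : (TVar N × ZMod s → Bool) → P → Finset P,
      bl' = fun y z => bl (dec y) z := ⟨_, rfl⟩
  obtain ⟨Z, hZ⟩ : ∃ Z : P → Finset (TVar N × ZMod s), Z = fun z =>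
      match node z with
      | some q => (tinc q) ×ˢ (univ : Finset (ZMod s))
      | none => ∅ := ⟨_, rfl⟩
  have hZs : ∀ z q, node z = some q → Z z = (tinc q) ×ˢ (univ : Finset (ZMod s)) := by
    intro z q h
    rw [hZ]
    simp only [h]
  have hZc : ∀ z, (Z z).card ≤ 3 * s := by
    intro z
    rcases h : node z with _ | q
    · have h1 : Z z = ∅ := by
        rw [hZ]
        simp only [h]
      rw [h1, card_empty]
      exact Nat.zero_le _
    · rw [hZs z q h, card_product, card_univ, ZMod.card]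
      exact Nat.mul_le_mul_right _ (card_tinc q)
  have hb : IsBl bl' := by
    rw [hbl']
    exact ⟨fun y z => hG.isBl.mem_or (dec y) z, fun y z z' hz => hG.isBl.eq_of_mem (dec y) z z' hz⟩
  have hloc : ∀ z y y', (∀ u ∈ Z z, y u = y' u) → bl' y z = bl' y' z := by
    intro z y y' hy
    rw [hbl']
    refine hG.loc z (dec y) (dec y') fun q hq => ?_
    rw [hZs z q hq] at hy
    exact same_dec hy
  have hkill : ∀ y z, bl' y z = ∅ →
      ∃ D ∈ (tseitinMod N s b : Set (Clause (TVar N × ZMod s))), (∀ l ∈ D, l.1 ∈ Z z) ∧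
        ¬ Holds y D := by
    intro y z hz
    rw [hbl'] at hz
    obtain ⟨q, hq, hbad⟩ := hG.kill (dec y) z hz
    obtain ⟨D, hD, h1, h2⟩ := tse_kill b q y hbad
    refine ⟨D, hD, fun l hl => ?_, h2⟩
    rw [hZs z q hq]
    exact mem_product.2 ⟨h1 l hl, mem_univ _⟩
  have hcov : ∀ y z, bl' y z ≠ ∅ → ∃ v, blk v = bl' y z := by
    intro y z hz
    rw [hbl'] at hz ⊢
    exact hH _ (mem_blocks.2 ⟨⟨_, _, rfl⟩, hz⟩)
  have hwd : ∀ z, ∃ S : Finset (Finset P), S.card ≤ w ∧ ∀ y, bl' y z ∈ S := by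
    intro z
    obtain ⟨S, h1, h2⟩ := hG.width z
    refine ⟨S, h1, fun y => ?_⟩
    rw [hbl']
    exact h2 _
  refine ⟨act.comp (pull (sub bl' blk)), pull_world hW (narrow_sub hb (blk := blk) hZc hloc), ?_⟩
  intro D hD
  obtain ⟨κ, hκ, rfl⟩ := mem_listCNF.1 hD
  obtain ⟨κ', hκ', hsub⟩ := exists_narrow bl' blk κ hκ
  refine ⟨κ'.toList, fun l hl => Finset.mem_toList.2 (hsub (Finset.mem_toList.1 hl)), ?_, ?_⟩
  · rw [Finset.length_toList]
    exact narrow_width (bl := bl') (blk := blk) hinj hw hwd κ' hκ'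
  · intro u hu
    have h1 := kills_narrow hW hF hb hinj hZc hloc hkill hcov (by omega) κ' (mem_coe.2 hκ') u hu
    rw [fals_toList]
    convert h1

end Pool.Agent.MP_9cec2c_lc.CQ
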