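import Pool.Agent.Lib.MP_9cec2c_lc.CSDefs

/-!
Clones of Boolean functions.
-/

set_option autoImplicit false

namespace Pool.Agent.MP_9cec2c_lc.CS

variable {A : Type} {Γ : CLang A} {n m : ℕ}

theorem minor_mem (π : Fin n → Fin m) {f : (Fin n → A) → A} (hf : f ∈ Γ.Pol n) :
    minor π f ∈ Γ.Pol m := by
  intro i t ht
  exact hf i (fun k => t (π k)) fun k => ht (π k)

theorem comp_mem {f : (Fin n → A) → A} (hf : f ∈ Γ.Pol n) {g : Fin n → (Fin m → A) → A}
    (hg : ∀ k, g k ∈ Γ.Pol m) : (fun x => f fun k => g k x) ∈ Γ.Pol m := by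
  intro i t ht
  exact hf i (fun k j => g k fun k' => t k' j) fun k => hg k i t ht

theorem proj_mem (k : Fin n) : (fun x : Fin n → A => x k) ∈ Γ.Pol n := by
  intro i t ht
  exact ht k

/-! ### Private lemmas for the two tasks -/

/-- `f`, negated if it maps the all-true argument to `false`. -/
def CSClone_hat (f : (Fin n → Bool) → Bool) : (Fin n → Bool) → Bool :=
  fun x => xor (f x) (!f fun _ => true)

/-- The indicator of `k`. -/
def CSClone_ind (k : Fin n) : Fin n → Bool := fun j => decide (j = k)

theorem CSClone_ne {Γ : CLang Bool} (h0 : ∀ b, bConst b ∉ Γ.Pol 1)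
    {f : (Fin n → Bool) → Bool} (hf : f ∈ Γ.Pol n) :
    f (fun _ => false) = !f (fun _ => true) := by
  by_contra h
  have h1 : f (fun _ => false) = f fun _ => true := by
    revert h
    cases f (fun _ => false) <;> cases f (fun _ => true) <;> simp
  refine h0 (f fun _ => true) ?_
  have h2 : minor (fun _ : Fin n => (0 : Fin 1)) f = bConst (f fun _ => true) := by
    funext x
    change (f fun _ => x 0) = f fun _ => true
    cases x 0
    · exact h1
    · rfl
  rw [← h2]
  exact minor_mem _ hf

theorem CSClone_hat_mem {Γ : CLang Bool} (h0 : ∀ b, bConst b ∉ Γ.Pol 1)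
    {f : (Fin n → Bool) → Bool} (hf : f ∈ Γ.Pol n) : CSClone_hat f ∈ Γ.Pol n := by
  have h := CSClone_ne h0 hf
  cases h1 : f fun _ => true
  · rw [h1] at h
    have h2 : minor (fun _ : Fin n => (0 : Fin 1)) f ∈ Γ.Pol 1 := minor_mem _ hf
    have h3 := comp_mem h2 (g := fun _ => f) (fun _ => hf)
    have h4 : CSClone_hat f = fun x => minor (fun _ : Fin n => (0 : Fin 1)) f fun _ => f x := by
      funext x
      unfold CSClone_hat minor
      rw [h1]
      cases f x
      · rw [h]; rfl
      · rw [h1]; rfl
    rw [h4]
    exact h3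
  · have h4 : CSClone_hat f = f := by
      funext x
      unfold CSClone_hat
      rw [h1]
      cases f x <;> rfl
    rw [h4]
    exact hf

theorem CSClone_hat_true (f : (Fin n → Bool) → Bool) : CSClone_hat f (fun _ => true) = true := by
  unfold CSClone_hat
  cases f fun _ => true <;> rfl

theorem CSClone_hat_false {Γ : CLang Bool} (h0 : ∀ b, bConst b ∉ Γ.Pol 1)
    {f : (Fin n → Bool) → Bool} (hf : f ∈ Γ.Pol n) : CSClone_hat f (fun _ => false) = false := by
  unfold CSClone_hat
  rw [CSClone_ne h0 hf]
  cases f fun _ => true <;> rfl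

theorem CSClone_compl {Γ : CLang Bool} (h1 : bAnd ∉ Γ.Pol 2) (h2 : bOr ∉ Γ.Pol 2)
    {g : (Fin n → Bool) → Bool} (hg : g ∈ Γ.Pol n) (ht : g (fun _ => true) = true)
    (hf : g (fun _ => false) = false) (x : Fin n → Bool) : g (fun k => !x k) = !g x := by
  have key : ∀ y : Fin 2 → Bool, minor (fun k => cond (x k) (0 : Fin 2) 1) g y
      = g fun k => cond (x k) (y 0) (y 1) := by
    intro y
    unfold minor
    congr 1
    funext k
    change y (cond (x k) 0 1) = _
    cases x k <;> rfl
  have hm : minor (fun k => cond (x k) (0 : Fin 2) 1) g ∈ Γ.Pol 2 := minor_mem _ hg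
  have e1 : (fun k => cond (x k) true true) = fun _ => true := by
    funext k; cases x k <;> rfl
  have e2 : (fun k => cond (x k) false false) = fun _ => false := by
    funext k; cases x k <;> rfl
  have e3 : (fun k => cond (x k) true false) = x := by
    funext k; cases x k <;> rfl
  have e4 : (fun k => cond (x k) false true) = fun k => !x k := by
    funext k; cases x k <;> rfl
  by_contra h
  cases hx : g x
  · have hx' : g (fun k => !x k) = false := by
      rw [hx] at h
      revert h
      cases g (fun k => !x k) <;> simp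
    apply h1
    have e : minor (fun k => cond (x k) (0 : Fin 2) 1) g = bAnd := by
      funext y
      rw [key]
      unfold bAnd
      cases y 0 <;> cases y 1
      · rw [e2, hf]; rfl
      · rw [e4, hx']; rfl
      · rw [e3, hx]; rfl
      · rw [e1, ht]; rfl
    rw [← e]
    exact hm
  · have hx' : g (fun k => !x k) = true := by
      rw [hx] at h
      revert h
      cases g (fun k => !x k) <;> simp
    apply h2
    have e : minor (fun k => cond (x k) (0 : Fin 2) 1) g = bOr := by
      funext y
      rw [key]
      unfold bOr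
      cases y 0 <;> cases y 1
      · rw [e2, hf]; rfl
      · rw [e4, hx']; rfl
      · rw [e3, hx]; rfl
      · rw [e1, ht]; rfl
    rw [← e]
    exact hm

/-- The arguments of a ternary operation. -/
def CSClone_v (a b c : Bool) : Fin 3 → Bool := ![a, b, c]

theorem CSClone_v_eta (z : Fin 3 → Bool) : z = CSClone_v (z 0) (z 1) (z 2) := by
  funext k
  fin_cases k <;> rfl

theorem CSClone_not_v (a b c : Bool) :
    (fun k => !CSClone_v a b c k) = CSClone_v (!a) (!b) (!c) := by
  funext k
  fin_cases k <;> rfl

/-- Composition with a ternary operation. -/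
theorem CSClone_comp3 {Γ : CLang Bool} {f g0 g1 g2 : (Fin 3 → Bool) → Bool}
    (hf : f ∈ Γ.Pol 3) (h0 : g0 ∈ Γ.Pol 3) (h1 : g1 ∈ Γ.Pol 3) (h2 : g2 ∈ Γ.Pol 3) :
    (fun x => f (CSClone_v (g0 x) (g1 x) (g2 x))) ∈ Γ.Pol 3 := by
  have h := comp_mem hf (g := ![g0, g1, g2]) (by
    intro k
    fin_cases k
    · exact h0
    · exact h1
    · exact h2)
  have e : (fun x => f (CSClone_v (g0 x) (g1 x) (g2 x)))
      = fun x => f fun k => (![g0, g1, g2] : Fin 3 → (Fin 3 → Bool) → Bool) k x := by
    funext x
    congr 1
    funext k
    fin_cases k <;> rfl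
  rw [e]
  exact h

theorem CSClone_odd {Γ : CLang Bool} (h3 : bMaj ∉ Γ.Pol 3) {h : (Fin 3 → Bool) → Bool}
    (hh : h ∈ Γ.Pol 3) (ht : h (CSClone_v true true true) = true)
    (hd : ∀ x, h (fun k => !x k) = !h x) :
    xor (h (CSClone_v true false false))
      (xor (h (CSClone_v false true false)) (h (CSClone_v false false true))) = true := by
  have d0 : h (CSClone_v false false false) = false := by
    have := hd (CSClone_v true true true)
    rw [CSClone_not_v, ht] at this
    exact this
  have d1 : h (CSClone_v false true true) = !h (CSClone_v true false false) := by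
    have := hd (CSClone_v true false false)
    rw [CSClone_not_v] at this
    exact this
  have d2 : h (CSClone_v true false true) = !h (CSClone_v false true false) := by
    have := hd (CSClone_v false true false)
    rw [CSClone_not_v] at this
    exact this
  have d3 : h (CSClone_v true true false) = !h (CSClone_v false false true) := by
    have := hd (CSClone_v false false true)
    rw [CSClone_not_v] at this
    exact this
  have p0 : (fun x : Fin 3 → Bool => x 0) ∈ Γ.Pol 3 := proj_mem 0
  have p1 : (fun x : Fin 3 → Bool => x 1) ∈ Γ.Pol 3 := proj_mem 1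
  have p2 : (fun x : Fin 3 → Bool => x 2) ∈ Γ.Pol 3 := proj_mem 2
  have hv : ∀ z : Fin 3 → Bool, h z = h (CSClone_v (z 0) (z 1) (z 2)) := fun z => by
    rw [← CSClone_v_eta]
  cases ha : h (CSClone_v true false false) <;> cases hb : h (CSClone_v false true false) <;>
    cases hc : h (CSClone_v false false true) <;> rw [ha] at d1 <;> rw [hb] at d2 <;>
    rw [hc] at d3
  · exfalso
    apply h3
    have e : h = bMaj := by
      funext z
      rw [hv z]
      unfold bMaj
      cases z 0 <;> cases z 1 <;> cases z 2 <;> simp [ht, d0, d1, d2, d3, ha, hb, hc]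
    rw [← e]
    exact hh
  · rfl
  · rfl
  · exfalso
    apply h3
    have hm := CSClone_comp3 hh hh p1 p2
    have e : (fun x => h (CSClone_v (h x) (x 1) (x 2))) = bMaj := by
      funext z
      rw [hv z]
      unfold bMaj
      cases z 0 <;> cases z 1 <;> cases z 2 <;> simp [ht, d0, d1, d2, d3, ha, hb, hc]
    rw [← e]
    exact hm
  · rfl
  · exfalso
    apply h3
    have hm := CSClone_comp3 hh p0 hh p2
    have e : (fun x => h (CSClone_v (x 0) (h x) (x 2))) = bMaj := by
      funext z
      rw [hv z]
      unfold bMaj
      cases z 0 <;> cases z 1 <;> cases z 2 <;> simp [ht, d0, d1, d2, d3, ha, hb, hc]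
    rw [← e]
    exact hm
  · exfalso
    apply h3
    have hm := CSClone_comp3 hh p0 p1 hh
    have e : (fun x => h (CSClone_v (x 0) (x 1) (h x))) = bMaj := by
      funext z
      rw [hv z]
      unfold bMaj
      cases z 0 <;> cases z 1 <;> cases z 2 <;> simp [ht, d0, d1, d2, d3, ha, hb, hc]
    rw [← e]
    exact hm
  · rfl


/-- The ternary minor of `g` for two disjoint arguments. -/
theorem CSClone_tern {g : (Fin n → Bool) → Bool} {x y : Fin n → Bool} (z : Fin 3 → Bool) :
    minor (fun k => cond (x k) (0 : Fin 3) (cond (y k) 1 2)) g z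
      = g fun k => cond (x k) (z 0) (cond (y k) (z 1) (z 2)) := by
  unfold minor
  congr 1
  funext k
  change z (cond (x k) 0 (cond (y k) 1 2)) = _
  cases x k <;> cases y k <;> rfl

theorem CSClone_tern_val {g : (Fin n → Bool) → Bool} {x y : Fin n → Bool}
    (hxy : ∀ k, (x k && y k) = false) :
    minor (fun k => cond (x k) (0 : Fin 3) (cond (y k) 1 2)) g (CSClone_v true false false) = g x ∧
    minor (fun k => cond (x k) (0 : Fin 3) (cond (y k) 1 2)) g (CSClone_v false true false) = g y ∧
    minor (fun k => cond (x k) (0 : Fin 3) (cond (y k) 1 2)) g (CSClone_v false false true)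
      = g (fun k => !(x k || y k)) ∧
    minor (fun k => cond (x k) (0 : Fin 3) (cond (y k) 1 2)) g (CSClone_v true true true)
      = g (fun _ => true) ∧
    minor (fun k => cond (x k) (0 : Fin 3) (cond (y k) 1 2)) g (CSClone_v false false false)
      = g (fun _ => false) := by
  refine ⟨?_, ?_, ?_, ?_, ?_⟩ <;> rw [CSClone_tern] <;> congr 1 <;> funext k <;>
    have := hxy k <;> revert this <;> cases x k <;> cases y k <;> simp [CSClone_v]

section
variable {Γ : CLang Bool} (h0 : ∀ b, bConst b ∉ Γ.Pol 1) (h1 : bAnd ∉ Γ.Pol 2)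
    (h2 : bOr ∉ Γ.Pol 2) (h3 : bMaj ∉ Γ.Pol 3)
include h0 h1 h2 h3

/-- The three values of a ternary minor have an odd sum. -/
theorem CSClone_odd3 {f : (Fin n → Bool) → Bool} (hf : f ∈ Γ.Pol n) {x y : Fin n → Bool}
    (hxy : ∀ k, (x k && y k) = false) :
    xor (CSClone_hat f x) (xor (CSClone_hat f y) (CSClone_hat f fun k => !(x k || y k)))
      = true := by
  have hg := CSClone_hat_mem h0 hf
  have ht := CSClone_hat_true f
  have hn := CSClone_hat_false h0 hf
  have hm := minor_mem (fun k => cond (x k) (0 : Fin 3) (cond (y k) 1 2)) hg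
  obtain ⟨v1, v2, v3, v4, v5⟩ := CSClone_tern_val (g := CSClone_hat f) hxy
  have h := CSClone_odd h3 hm (by rw [v4, ht])
    (CSClone_compl h1 h2 hm (by
      have e : (fun _ : Fin 3 => true) = CSClone_v true true true := CSClone_v_eta _
      rw [e, v4, ht]) (by
      have e : (fun _ : Fin 3 => false) = CSClone_v false false false := CSClone_v_eta _
      rw [e, v5, hn]))
  rw [v1, v2, v3] at h
  exact h

theorem CSClone_add {f : (Fin n → Bool) → Bool} (hf : f ∈ Γ.Pol n) {x y : Fin n → Bool}
    (hxy : ∀ k, (x k && y k) = false) :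
    CSClone_hat f (fun k => x k || y k) = xor (CSClone_hat f x) (CSClone_hat f y) := by
  have h := CSClone_odd3 h0 h1 h2 h3 hf hxy
  have hc := CSClone_compl h1 h2 (CSClone_hat_mem h0 hf) (CSClone_hat_true f)
    (CSClone_hat_false h0 hf) (fun k => x k || y k)
  rw [hc] at h
  revert h
  cases CSClone_hat f x <;> cases CSClone_hat f y <;> cases CSClone_hat f (fun k => x k || y k) <;>
    simp

/-- The value at an indicator is the sum of the values at its elements. -/
theorem CSClone_sum {f : (Fin n → Bool) → Bool} (hf : f ∈ Γ.Pol n) (S : Finset (Fin n)) :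
    (if CSClone_hat f (fun k => decide (k ∈ S)) = true then (1 : ZMod 2) else 0)
      = ∑ k ∈ S, if CSClone_hat f (CSClone_ind k) = true then (1 : ZMod 2) else 0 := by
  induction S using Finset.induction_on with
  | empty =>
    have e : (fun k : Fin n => decide (k ∈ (∅ : Finset (Fin n)))) = fun _ => false := by
      funext k; simp
    rw [e, CSClone_hat_false h0 hf]
    simp
  | insert a S ha ih =>
    rw [Finset.sum_insert ha, ← ih]
    have e : (fun k : Fin n => decide (k ∈ insert a S))
        = fun k => CSClone_ind a k || decide (k ∈ S) := by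
      funext k
      unfold CSClone_ind
      by_cases h : k = a <;> simp [h]
    rw [e, CSClone_add h0 h1 h2 h3 hf (x := CSClone_ind a) (y := fun k => decide (k ∈ S))]
    · cases CSClone_hat f (CSClone_ind a) <;> cases CSClone_hat f (fun k => decide (k ∈ S)) <;>
        simp
      decide
    · intro k
      unfold CSClone_ind
      by_cases h : k = a
      · rw [h]; simp [ha]
      · simp [h]

end

theorem CSClone_hat_minor (f : (Fin n → Bool) → Bool) (π : Fin n → Fin m) (x : Fin m → Bool) :
    CSClone_hat (minor π f) x = CSClone_hat f fun k => x (π k) := rfl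

/-- A Boolean language that is not closed under the constants, the conjunction,
the disjunction and the majority. -/
theorem toAffine_of {Γ : CLang Bool} (h0 : ∀ b, bConst b ∉ Γ.Pol 1) (h1 : bAnd ∉ Γ.Pol 2)
    (h2 : bOr ∉ Γ.Pol 2) (h3 : bMaj ∉ Γ.Pol 3) : Γ.ToAffine 2 := by
  refine ⟨fun n f k => if CSClone_hat f (CSClone_ind k) = true then 1 else 0,
    fun n f hf => ⟨?_, fun m π j => ?_⟩⟩
  · have h := CSClone_sum h0 h1 h2 h3 hf Finset.univ
    rw [← h]
    have e : (fun k : Fin n => decide (k ∈ (Finset.univ : Finset (Fin n)))) = fun _ => true := by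
      funext k; simp
    rw [e, CSClone_hat_true]
    simp
  · have h := CSClone_sum h0 h1 h2 h3 hf (Finset.univ.filter fun k => π k = j)
    rw [← h]
    change (if CSClone_hat (minor π f) (CSClone_ind j) = true then (1 : ZMod 2) else 0) = _
    rw [CSClone_hat_minor]
    have e : (fun k : Fin n => decide (k ∈ Finset.univ.filter fun k => π k = j))
        = fun k => CSClone_ind j (π k) := by
      funext k
      unfold CSClone_ind
      simp
    rw [e]

/-- If it is not closed under `x + y + z` either. -/
theorem toProjections_of {Γ : CLang Bool} (h0 : ∀ b, bConst b ∉ Γ.Pol 1)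
    (h1 : bAnd ∉ Γ.Pol 2) (h2 : bOr ∉ Γ.Pol 2) (h3 : bMaj ∉ Γ.Pol 3) (h4 : bSum ∉ Γ.Pol 3) :
    Γ.ToProjections := by
  classical
  -- at most one value is true
  have huniq : ∀ (n : ℕ) (f : (Fin n → Bool) → Bool), f ∈ Γ.Pol n → ∀ j k : Fin n,
      CSClone_hat f (CSClone_ind j) = true → CSClone_hat f (CSClone_ind k) = true → j = k := by
    intro n f hf j k hj hk
    by_contra hjk
    have hxy : ∀ l, (CSClone_ind j l && CSClone_ind k l) = false := by
      intro l
      unfold CSClone_ind
      by_cases h : l = j
      · have : l ≠ k := fun h' => hjk (h.symm.trans h')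
        simp [this]
      · simp [h]
    have hg := CSClone_hat_mem h0 hf
    have hm := minor_mem
      (fun l => cond (CSClone_ind j l) (0 : Fin 3) (cond (CSClone_ind k l) 1 2)) hg
    have hn := CSClone_hat_false h0 hf
    have hodd := CSClone_odd3 h0 h1 h2 h3 hf hxy
    obtain ⟨v1, v2, v3, v4, v5⟩ := CSClone_tern_val (g := CSClone_hat f) hxy
    have ht := CSClone_hat_true f
    have hcomp := CSClone_compl h1 h2 hm (by
      have e : (fun _ : Fin 3 => true) = CSClone_v true true true := CSClone_v_eta _
      rw [e, v4, ht]) (by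
      have e : (fun _ : Fin 3 => false) = CSClone_v false false false := CSClone_v_eta _
      rw [e, v5, hn])
    rw [hj, hk] at hodd
    have hc : CSClone_hat f (fun l => !(CSClone_ind j l || CSClone_ind k l)) = true := by
      revert hodd
      cases CSClone_hat f (fun l => !(CSClone_ind j l || CSClone_ind k l)) <;> simp
    rw [hj] at v1
    rw [hk] at v2
    rw [hc] at v3
    rw [ht] at v4
    rw [hn] at v5
    refine h4 ?_
    generalize minor (fun l => cond (CSClone_ind j l) (0 : Fin 3) (cond (CSClone_ind k l) 1 2))
      (CSClone_hat f) = h at *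
    have d1 : h (CSClone_v false true true) = false := by
      have := hcomp (CSClone_v true false false)
      rw [CSClone_not_v, v1] at this
      exact this
    have d2 : h (CSClone_v true false true) = false := by
      have := hcomp (CSClone_v false true false)
      rw [CSClone_not_v, v2] at this
      exact this
    have d3 : h (CSClone_v true true false) = false := by
      have := hcomp (CSClone_v false false true)
      rw [CSClone_not_v, v3] at this
      exact this
    have e : h = bSum := by
      funext z
      have hv : h z = h (CSClone_v (z 0) (z 1) (z 2)) := by rw [← CSClone_v_eta]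
      rw [hv]
      unfold bSum
      cases z 0 <;> cases z 1 <;> cases z 2 <;> simp [v1, v2, v3, v4, v5, d1, d2, d3]
    rw [← e]
    exact hm
  -- some value is true
  have hex : ∀ (n : ℕ) (f : (Fin n → Bool) → Bool), f ∈ Γ.Pol n → ∀ S : Finset (Fin n),
      CSClone_hat f (fun k => decide (k ∈ S)) = true →
      ∃ k ∈ S, CSClone_hat f (CSClone_ind k) = true := by
    intro n f hf S hS
    have h := CSClone_sum h0 h1 h2 h3 hf S
    rw [if_pos hS] at h
    by_contra hcon
    push Not at hcon
    rw [Finset.sum_eq_zero fun k hk => if_neg (hcon k hk)] at h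
    exact one_ne_zero h
  refine ⟨fun n f => if h : ∃ k, CSClone_hat f (CSClone_ind k) = true then h.choose else 0,
    fun n m π f hf => ?_⟩
  have hk : ∃ k, CSClone_hat f (CSClone_ind k) = true := by
    obtain ⟨k, -, hk⟩ := hex _ f hf Finset.univ (by
      have e : (fun k : Fin (n + 1) => decide (k ∈ (Finset.univ : Finset (Fin (n + 1)))))
          = fun _ => true := by
        funext k; simp
      rw [e]
      exact CSClone_hat_true f)
    exact ⟨k, hk⟩
  have hf' := minor_mem π hf
  have hl : ∃ k, CSClone_hat (minor π f) (CSClone_ind k) = true := by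
    obtain ⟨k, -, hk⟩ := hex _ _ hf' Finset.univ (by
      have e : (fun k : Fin (m + 1) => decide (k ∈ (Finset.univ : Finset (Fin (m + 1)))))
          = fun _ => true := by
        funext k; simp
      rw [e]
      exact CSClone_hat_true _)
    exact ⟨k, hk⟩
  change (if h : ∃ k, CSClone_hat (minor π f) (CSClone_ind k) = true then h.choose else 0)
    = π (if h : ∃ k, CSClone_hat f (CSClone_ind k) = true then h.choose else 0)
  rw [dif_pos hk, dif_pos hl]
  have hls := hl.choose_spec
  have hks := hk.choose_spec
  generalize hl.choose = l at hls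
  generalize hk.choose = k at hks
  rw [CSClone_hat_minor] at hls
  have e : (fun k => CSClone_ind l (π k))
      = fun k => decide (k ∈ Finset.univ.filter fun k => π k = l) := by
    funext k
    unfold CSClone_ind
    simp
  rw [e] at hls
  obtain ⟨k', hk', hk''⟩ := hex _ f hf _ hls
  rw [huniq _ f hf k k' hks hk'']
  rw [Finset.mem_filter] at hk'
  exact hk'.2.symm

end Pool.Agent.MP_9cec2c_lc.CS
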