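import Pool.Agent.Lib.MP_9cec2c_lc.MXDefs

/-!
Constraint languages, instances of constraint satisfaction problems and their clauses, and
polymorphisms.
-/

set_option autoImplicit false

namespace Pool.Agent.MP_9cec2c_lc.CS

open FG MX

/-- A constraint language on the set `A`: finitely many relations `rel i`, where `rel i` is a set of
tuples of length `ar i`. -/
structure CLang (A : Type) : Type where
  m : ℕ
  ar : Fin m → ℕ
  rel : ∀ i, Set (Fin (ar i) → A)

/-- A constraint for the variables in `X`: the values of `scope 0, scope 1, ...`, which need not be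
different variables, form a tuple in `rel i`. -/
structure Constraint {A : Type} (Γ : CLang A) (X : Type) : Type where
  i : Fin Γ.m
  scope : Fin (Γ.ar i) → X

/-- The values `a` satisfy the constraint. -/
def Constraint.Holds {A : Type} {Γ : CLang A} {X : Type} (c : Constraint Γ X) (a : X → A) :
    Prop :=
  (fun j => a (c.scope j)) ∈ Γ.rel c.i

/-- Some values of the variables satisfy all constraints. -/
def Satisfiable {A : Type} {Γ : CLang A} {X : Type} (I : List (Constraint Γ X)) : Prop :=
  ∃ a : X → A, ∀ c ∈ I, c.Holds a

open Classical in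
/-- The clauses of the instance `I`, where the propositional variable `(x, a)` says that `x` has the
value `a`: every `x` has some value, no `x` has two values, and for every constraint and every tuple
that is not in its relation, the variables of the constraint do not have the values in the tuple. -/
noncomputable def cspCNF {A : Type} [Fintype A] {Γ : CLang A} {X : Type} [Fintype X]
    (I : List (Constraint Γ X)) : List (List ((X × A) × Bool)) :=
  ((Finset.univ : Finset X).toList.map fun x =>
    (Finset.univ : Finset A).toList.map fun a => ((x, a), true)) ++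
  ((Finset.univ.filter fun u : X × A × A => u.2.1 ≠ u.2.2).toList.map fun u =>
    [((u.1, u.2.1), false), ((u.1, u.2.2), false)]) ++
  I.flatMap fun c =>
    (Finset.univ.filter fun t : Fin (Γ.ar c.i) → A => t ∉ Γ.rel c.i).toList.map fun t =>
      (List.finRange (Γ.ar c.i)).map fun j => ((c.scope j, t j), false)

/-- The operations of arity `n` that are polymorphisms of `Γ`: applied to the coordinates of any `n`
tuples of a relation in `Γ` they give a tuple of the relation. -/
def CLang.Pol {A : Type} (Γ : CLang A) (n : ℕ) : Set ((Fin n → A) → A) :=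
  {f | ∀ i (t : Fin n → Fin (Γ.ar i) → A), (∀ k, t k ∈ Γ.rel i) →
    (fun j => f fun k => t k j) ∈ Γ.rel i}

/-- The minor `f (x (π 0), x (π 1), ...)` of the operation `f`. -/
def minor {A : Type} {n m : ℕ} (π : Fin n → Fin m) (f : (Fin n → A) → A) : (Fin m → A) → A :=
  fun x => f fun k => x (π k)

/-- There is a map from the polymorphisms of `Γ` to the projections that preserves arities and
minors. The projection to the coordinate `k` is given as `k`. -/
def CLang.ToProjections {A : Type} (Γ : CLang A) : Prop :=
  ∃ ξ : ∀ n : ℕ, ((Fin (n + 1) → A) → A) → Fin (n + 1),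
    ∀ (n m : ℕ) (π : Fin (n + 1) → Fin (m + 1)), ∀ f ∈ Γ.Pol (n + 1), ξ m (minor π f) = π (ξ n f)

/-- There is a map from the polymorphisms of `Γ` to the idempotent affine operations
`∑ k, u k * x k`, `∑ k, u k = 1`, modulo `r` that preserves arities and minors. The operation is
given as `u`. -/
def CLang.ToAffine {A : Type} (Γ : CLang A) (r : ℕ) : Prop :=
  ∃ ξ : ∀ n : ℕ, ((Fin n → A) → A) → Fin n → ZMod r,
    ∀ (n : ℕ), ∀ f ∈ Γ.Pol n, ∑ k, ξ n f k = 1 ∧
      ∀ (m : ℕ) (π : Fin n → Fin m) (j : Fin m),
        ξ m (minor π f) j = ∑ k ∈ Finset.univ.filter fun k => π k = j, ξ n f k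

/-- The language of the homomorphisms to the graph with the vertices `A` and the edges `E`: the only
relation is `E`, so an instance is a list of edges of a graph, given by their two end points. -/
def graphLang {A : Type} (E : A → A → Prop) : CLang A :=
  ⟨1, fun _ => 2, fun _ => {t | E (t 0) (t 1)}⟩

/-- The constant unary operation. -/
def bConst (b : Bool) : (Fin 1 → Bool) → Bool := fun _ => b

/-- The conjunction. -/
def bAnd : (Fin 2 → Bool) → Bool := fun x => x 0 && x 1

/-- The disjunction. -/
def bOr : (Fin 2 → Bool) → Bool := fun x => x 0 || x 1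

/-- The majority of three bits. -/
def bMaj : (Fin 3 → Bool) → Bool := fun x => (x 0 && x 1) || (x 0 && x 2) || (x 1 && x 2)

/-- The sum of three bits modulo 2. -/
def bSum : (Fin 3 → Bool) → Bool := fun x => xor (x 0) (xor (x 1) (x 2))

/-- The polymorphisms of `Γ` contain a constant operation, the conjunction, the disjunction or the
majority. -/
def CLang.Easy (Γ : CLang Bool) : Prop :=
  (∃ b, bConst b ∈ Γ.Pol 1) ∨ bAnd ∈ Γ.Pol 2 ∨ bOr ∈ Γ.Pol 2 ∨ bMaj ∈ Γ.Pol 3

/-- The unsatisfiable instances with the variables `X` and the constraints `I` have refutations without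
counting gates of depth 1 and size at most `(|X| + |I| + 2) ^ C` by the rules in `S q`, which are
refutations by the rules in `S q` for all primes `q` at once. -/
def CLang.Short {A : Type} [Fintype A] (Γ : CLang A) (S : ℕ → Set Rule) : Prop :=
  ∃ C : ℕ, ∀ (X : Type) [Fintype X] (I : List (Constraint Γ X)), ¬ Satisfiable I →
    ∃ (l : ℕ) (L : Fin l → Form (X × A)),
      (∀ q : ℕ, q.Prime → IsDerivation (S q) 1 {φ | ∃ D ∈ cspCNF I, φ = clause D} L) ∧
      (∃ i, L i = falsum) ∧ (∀ i, CountFree (L i)) ∧
      size L ≤ (Fintype.card X + I.length + 2) ^ C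

/-- The unsatisfiable instances with the variables `X` and the constraints `I` have mixed refutations
with the primes in `Q` by the rules in `S q`, `q ∈ Q`, of depth at most `d` and size at most
`(|X| + |I| + 2) ^ C`. -/
def CLang.Poly {A : Type} [Fintype A] (Γ : CLang A) (Q : Finset ℕ) (S : ℕ → Set Rule) (d : ℕ) :
    Prop :=
  ∃ C : ℕ, ∀ (X : Type) [Fintype X] (I : List (Constraint Γ X)), ¬ Satisfiable I →
    ∃ (l : ℕ) (τ : Fin l → ℕ) (L : Fin l → Form (X × A)),
      IsMixed Q S d {φ | ∃ D ∈ cspCNF I, φ = clause D} τ L ∧ (∃ i, L i = falsum) ∧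
      size L ≤ (Fintype.card X + I.length + 2) ^ C

/-- The constraint satisfaction problem of `Γ` is exponentially hard for mixed refutations with the
primes in `Q`, for all finite sets `Q` of primes with the property `H`: there are unsatisfiable
instances `I n` with at most `C (n + 1)` variables and constraints, the same for all `Q`, all finite
sets of sound rules and all depths, such that every mixed refutation of `I n` of depth `d` has size
at least `exp (c n ^ (c / (d + 1)))`, where `c > 0` depends on `Q` and the rules. -/
def CLang.Hard {A : Type} [Fintype A] (Γ : CLang A) (H : Finset ℕ → Prop) : Prop :=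
  ∃ (C : ℕ) (X : ℕ → Type) (_ : ∀ n, Fintype (X n)) (I : ∀ n, List (Constraint Γ (X n))),
    (∀ n, Fintype.card (X n) ≤ C * (n + 1) ∧ (I n).length ≤ C * (n + 1) ∧ ¬ Satisfiable (I n)) ∧
    ∀ Q : Finset ℕ, (∀ q ∈ Q, q.Prime) → H Q → ∀ S : ℕ → Set Rule, (∀ q ∈ Q, (S q).Finite) →
      (∀ q ∈ Q, ∀ R ∈ S q, R.Sound q) →
      ∃ c : ℝ, 0 < c ∧ ∀ (n d l : ℕ) (τ : Fin l → ℕ) (L : Fin l → Form (X n × A)),
        MixedRefutes Q S d (cspCNF (I n)) τ L →
        Real.exp (c * (n : ℝ) ^ (c / (d + 1))) ≤ size L

end Pool.Agent.MP_9cec2c_lc.CS
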