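import Pool.Agent.Lib.MP_9cec2c_lc.CSGad

/-!
Solutions of the gadget give solutions of the system of constraints, if there is a map from the
polymorphisms to the idempotent affine operations that preserves minors and the relations of the
system are affine.
-/

set_option autoImplicit false

namespace Pool.Agent.MP_9cec2c_lc.CS

variable {A U D K : Type}

/-- Operations with arguments indexed by `T` that preserve the relations of `Γ`. -/
def CSGadA_pol (Γ : CLang A) (T : Type) : Set ((T → A) → A) :=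
  {g | ∀ i (u : Fin (Γ.ar i) → T → A), (∀ t, (fun j => u j t) ∈ Γ.rel i) →
    (fun j => g (u j)) ∈ Γ.rel i}

theorem CSGadA_fin {Γ : CLang A} {T : Type} {g : (T → A) → A} (hg : g ∈ CSGadA_pol Γ T) {n : ℕ}
    (e : T ≃ Fin n) : (fun x : Fin n → A => g fun t => x (e t)) ∈ Γ.Pol n := by
  intro i t ht
  exact hg i (fun j s => t (e s) j) fun s => ht (e s)

theorem CSGadA_gadget [Finite A] [Finite D] [Finite K] {Γ : CLang A} {G : Src U D K}
    {z : GVar A G → A} (hz : ∀ C ∈ gadget Γ G, C.Holds z) (c : K) :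
    (fun u : G.rel c → A => z (nu G c u)) ∈ CSGadA_pol Γ (G.rel c) := by
  intro i u hu
  exact hz ⟨i, fun j => nu G c (u j)⟩ (mem_gadget.2 ⟨c, i, u, hu, rfl⟩)

/-- The map `ξ` for operations with arguments indexed by `T`. -/
noncomputable def CSGadA_xi {r : ℕ} (ξ : ∀ n : ℕ, ((Fin n → A) → A) → Fin n → ZMod r) (T : Type)
    [Finite T] (g : (T → A) → A) (t : T) : ZMod r :=
  ξ (Nat.card T) (fun x => g fun s => x (Finite.equivFin T s)) (Finite.equivFin T t)

theorem CSGadA_sum {r : ℕ} {Γ : CLang A} {ξ : ∀ n : ℕ, ((Fin n → A) → A) → Fin n → ZMod r}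
    (hξ : ∀ n : ℕ, ∀ f ∈ Γ.Pol n, ∑ k, ξ n f k = 1) {T : Type} [Fintype T] {g : (T → A) → A}
    (hg : g ∈ CSGadA_pol Γ T) : ∑ t, CSGadA_xi ξ T g t = 1 := by
  rw [← hξ _ _ (CSGadA_fin hg (Finite.equivFin T))]
  exact Equiv.sum_comp (Finite.equivFin T) fun k =>
    ξ (Nat.card T) (fun x => g fun s => x (Finite.equivFin T s)) k

open Classical in
theorem CSGadA_minor {r : ℕ} {Γ : CLang A} {ξ : ∀ n : ℕ, ((Fin n → A) → A) → Fin n → ZMod r}
    (hξ : ∀ n : ℕ, ∀ f ∈ Γ.Pol n, ∀ (m : ℕ) (π : Fin n → Fin m) (j : Fin m),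
      ξ m (minor π f) j = ∑ k ∈ Finset.univ.filter fun k => π k = j, ξ n f k)
    {T T' : Type} [Fintype T] [Fintype T'] (π : T → T') {g : (T → A) → A}
    (hg : g ∈ CSGadA_pol Γ T) (t' : T') :
    CSGadA_xi ξ T' (fun x => g fun t => x (π t)) t' =
      ∑ t ∈ Finset.univ.filter fun t => π t = t', CSGadA_xi ξ T g t := by
  have h := hξ _ _ (CSGadA_fin hg (Finite.equivFin T)) (Nat.card T')
    (fun k => Finite.equivFin T' (π ((Finite.equivFin T).symm k))) (Finite.equivFin T' t')
  unfold minor at h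
  simp only [Equiv.symm_apply_apply] at h
  unfold CSGadA_xi
  rw [h]
  symm
  refine Finset.sum_bij (fun t _ => Finite.equivFin T t) ?_ ?_ ?_ ?_
  · intro t ht
    rw [Finset.mem_filter] at ht ⊢
    refine ⟨Finset.mem_univ _, ?_⟩
    rw [Equiv.symm_apply_apply, ht.2]
  · intro t _ s _ hts
    exact (Finite.equivFin T).injective hts
  · intro k hk
    rw [Finset.mem_filter] at hk
    refine ⟨(Finite.equivFin T).symm k, ?_, Equiv.apply_symm_apply _ _⟩
    rw [Finset.mem_filter]
    exact ⟨Finset.mem_univ _, (Finite.equivFin T').injective hk.2⟩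
  · intro t _
    rfl

/-- Solutions of the gadget give solutions of the system of constraints. -/
theorem sol_aff [Finite A] [Finite D] [Finite K] {r : ℕ} [AddCommGroup D] [Module (ZMod r) D]
    {Γ : CLang A} {G : Src U D K} [∀ c, Fintype (G.rel c)] (hG : G.Free) (hΓ : Γ.ToAffine r)
    (haff : ∀ c (μ : G.rel c → ZMod r), ∑ t, μ t = 1 →
      (fun e => ∑ t, μ t • (t : {e // e ∈ G.scope c} → D) e) ∈ G.rel c)
    (h : Satisfiable (gadget Γ G)) : ∃ b : U → D, ∀ c, G.Solves b c := by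
  classical
  obtain ⟨ξ, hξ⟩ := hΓ
  obtain ⟨z, hz⟩ := h
  let _ : Fintype D := Fintype.ofFinite D
  refine ⟨fun e => ∑ x : D, CSGadA_xi ξ D (fun α => z (ed G e α)) x • x, fun c => ?_⟩
  have key : ∀ e : {e // e ∈ G.scope c},
      ∑ x : D, CSGadA_xi ξ D (fun α => z (ed G e.1 α)) x • x =
        ∑ t : G.rel c, CSGadA_xi ξ (G.rel c) (fun u => z (nu G c u)) t •
          (t : {e // e ∈ G.scope c} → D) e := by
    intro e
    have h1 : ∀ x : D, CSGadA_xi ξ D (fun α => z (ed G e.1 α)) x =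
        ∑ t ∈ Finset.univ.filter fun t : G.rel c => t.1 e = x,
          CSGadA_xi ξ (G.rel c) (fun u => z (nu G c u)) t := by
      intro x
      rw [← CSGadA_minor (fun n f hf => (hξ n f hf).2) (fun t : G.rel c => t.1 e)
        (CSGadA_gadget hz c) x]
      congr 1
      funext α
      rw [nu_ed hG c e α]
    rw [← Finset.sum_fiberwise (Finset.univ : Finset (G.rel c)) (fun t => t.1 e)
      fun t => CSGadA_xi ξ (G.rel c) (fun u => z (nu G c u)) t • t.1 e]
    refine Finset.sum_congr rfl fun x _ => ?_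
    rw [h1 x, Finset.sum_smul]
    refine Finset.sum_congr rfl fun t ht => ?_
    rw [(Finset.mem_filter.1 ht).2]
  unfold Src.Solves
  rw [funext key]
  exact haff c _ (CSGadA_sum (fun n f hf => (hξ n f hf).1) (CSGadA_gadget hz c))

end Pool.Agent.MP_9cec2c_lc.CS
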