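import Pool.Agent.Lib.MP_9cec2c_lc.CSGad

/-!
The size of the gadget.
-/

set_option autoImplicit false

namespace Pool.Agent.MP_9cec2c_lc.CS

variable {A U D K : Type}

/-- the variables of the gadget as elements of a sum of types -/
def CSGadC_emb (G : Src U D K) : GVar A G → A ⊕ ((U × (D → A)) ⊕ (Σ c, (G.rel c → A)))
  | .val a => Sum.inl a
  | .edge e α => Sum.inr (Sum.inl (e, α))
  | .node c u => Sum.inr (Sum.inr ⟨c, u⟩)

theorem CSGadC_inj (G : Src U D K) : Function.Injective (CSGadC_emb (A := A) G) := by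
  rintro (a | ⟨e, α⟩ | ⟨c, u⟩) (a' | ⟨e', α'⟩ | ⟨c', u'⟩) h <;> simp [CSGadC_emb] at h ⊢
  · exact h
  · exact h
  · exact h

/-- TASK CSGadC (1). -/
theorem card_gvar [Finite A] [Nonempty A] [Finite U] [Finite D] [Finite K] (G : Src U D K) (R : ℕ)
    (hR : ∀ c, Nat.card (G.rel c) ≤ R) :
    Fintype.card (GVar A G) ≤ Nat.card A + Nat.card U * Nat.card A ^ Nat.card D +
      Nat.card K * Nat.card A ^ R := by
  classical
  have hA : 0 < Nat.card A := Nat.card_pos
  have : Fintype K := Fintype.ofFinite K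
  have h1 : Fintype.card (GVar A G) ≤ Nat.card (A ⊕ ((U × (D → A)) ⊕ (Σ c, (G.rel c → A)))) := by
    rw [← Nat.card_eq_fintype_card]
    exact Nat.card_le_card_of_injective _ (CSGadC_inj G)
  have h2 : Nat.card (A ⊕ ((U × (D → A)) ⊕ (Σ c, (G.rel c → A)))) =
      Nat.card A + (Nat.card U * Nat.card A ^ Nat.card D +
        ∑ c : K, Nat.card A ^ Nat.card (G.rel c)) := by
    rw [Nat.card_sum, Nat.card_sum, Nat.card_prod, Nat.card_fun, Nat.card_sigma]
    congr 2
    refine Finset.sum_congr rfl fun c _ => ?_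
    rw [Nat.card_fun]
  have h3 : ∑ c : K, Nat.card A ^ Nat.card (G.rel c) ≤ Nat.card K * Nat.card A ^ R := by
    calc ∑ c : K, Nat.card A ^ Nat.card (G.rel c) ≤ ∑ _c : K, Nat.card A ^ R :=
          Finset.sum_le_sum fun c _ => Nat.pow_le_pow_right hA (hR c)
      _ = Nat.card K * Nat.card A ^ R := by
          rw [Finset.sum_const, Finset.card_univ, smul_eq_mul, Nat.card_eq_fintype_card (α := K)]
  rw [h2] at h1
  omega

/-- TASK CSGadC (2). -/
theorem length_gadget [Finite A] [Nonempty A] [Finite D] [Finite K] (Γ : CLang A)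
    (G : Src U D K) (R : ℕ) (hR : ∀ c, Nat.card (G.rel c) ≤ R) :
    (gadget Γ G).length ≤ Nat.card K * ∑ i, Nat.card A ^ (R * Γ.ar i) := by
  classical
  have hA : 0 < Nat.card A := Nat.card_pos
  have : Fintype K := Fintype.ofFinite K
  have h1 : (gadget Γ G).length = Nat.card (GIdx Γ G) := by
    unfold gadget
    rw [List.length_map, Finset.length_toList]
    let _ : Fintype (GIdx Γ G) := Fintype.ofFinite _
    rw [Finset.card_univ, Nat.card_eq_fintype_card]
  rw [h1, Nat.card_sigma]
  calc ∑ c : K, Nat.card (Σ i : Fin Γ.m,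
        {u : Fin (Γ.ar i) → G.rel c → A // ∀ t, (fun j => u j t) ∈ Γ.rel i})
      ≤ ∑ _c : K, ∑ i, Nat.card A ^ (R * Γ.ar i) := by
        refine Finset.sum_le_sum fun c _ => ?_
        rw [Nat.card_sigma]
        refine Finset.sum_le_sum fun i _ => ?_
        calc Nat.card {u : Fin (Γ.ar i) → G.rel c → A // ∀ t, (fun j => u j t) ∈ Γ.rel i}
            ≤ Nat.card (Fin (Γ.ar i) → G.rel c → A) :=
              Nat.card_le_card_of_injective _ Subtype.val_injective
          _ = (Nat.card A ^ Nat.card (G.rel c)) ^ Γ.ar i := by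
              rw [Nat.card_fun, Nat.card_fun, Nat.card_eq_fintype_card (α := Fin (Γ.ar i)),
                Fintype.card_fin]
          _ = Nat.card A ^ (Nat.card (G.rel c) * Γ.ar i) := by rw [pow_mul]
          _ ≤ Nat.card A ^ (R * Γ.ar i) :=
              Nat.pow_le_pow_right hA (Nat.mul_le_mul_right _ (hR c))
    _ = Nat.card K * ∑ i, Nat.card A ^ (R * Γ.ar i) := by
        rw [Finset.sum_const, Finset.card_univ, smul_eq_mul, Nat.card_eq_fintype_card (α := K)]

end Pool.Agent.MP_9cec2c_lc.CS
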