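import Pool.Agent.Lib.MP_9cec2c_lc.CSGad

/-!
Solutions of the gadget give solutions of the system of constraints, if there is a map from the
polymorphisms to the projections that preserves minors.
-/

set_option autoImplicit false

namespace Pool.Agent.MP_9cec2c_lc.CS

variable {A U D K : Type}

/-- Operations with arguments indexed by `T` that preserve the relations of `Γ`. -/
def CSGadP_pol (Γ : CLang A) (T : Type) : Set ((T → A) → A) :=
  {g | ∀ i (u : Fin (Γ.ar i) → T → A), (∀ t, (fun j => u j t) ∈ Γ.rel i) →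
    (fun j => g (u j)) ∈ Γ.rel i}

theorem CSGadP_fin {Γ : CLang A} {T : Type} {g : (T → A) → A} (hg : g ∈ CSGadP_pol Γ T) {n : ℕ}
    (e : T ≃ Fin n) : (fun x : Fin n → A => g fun t => x (e t)) ∈ Γ.Pol n := by
  intro i t ht
  exact hg i (fun j s => t (e s) j) fun s => ht (e s)

/-- The solutions of the gadget are operations that preserve the relations of `Γ`. -/
theorem CSGadP_gadget [Finite A] [Finite D] [Finite K] {Γ : CLang A} {G : Src U D K}
    {z : GVar A G → A} (hz : ∀ C ∈ gadget Γ G, C.Holds z) (c : K) :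
    (fun u : G.rel c → A => z (nu G c u)) ∈ CSGadP_pol Γ (G.rel c) := by
  intro i u hu
  exact hz ⟨i, fun j => nu G c (u j)⟩ (mem_gadget.2 ⟨c, i, u, hu, rfl⟩)

/-- A numbering of a finite nonempty type. -/
noncomputable def CSGadP_eq (T : Type) [Finite T] [Nonempty T] : T ≃ Fin (Nat.card T - 1 + 1) :=
  (Finite.equivFin T).trans (finCongr (by have := Nat.card_pos (α := T); omega))

/-- The map `ξ` for operations with arguments indexed by `T`. -/
noncomputable def CSGadP_xi (ξ : ∀ n : ℕ, ((Fin (n + 1) → A) → A) → Fin (n + 1)) (T : Type)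
    [Finite T] [Nonempty T] (g : (T → A) → A) : T :=
  (CSGadP_eq T).symm (ξ (Nat.card T - 1) fun x => g fun t => x (CSGadP_eq T t))

theorem CSGadP_minor {Γ : CLang A} {ξ : ∀ n : ℕ, ((Fin (n + 1) → A) → A) → Fin (n + 1)}
    (hξ : ∀ (n m : ℕ) (π : Fin (n + 1) → Fin (m + 1)), ∀ f ∈ Γ.Pol (n + 1),
      ξ m (minor π f) = π (ξ n f)) {T T' : Type} [Finite T] [Nonempty T] [Finite T'] [Nonempty T']
    (π : T → T') {g : (T → A) → A} (hg : g ∈ CSGadP_pol Γ T) :
    CSGadP_xi ξ T' (fun x => g fun t => x (π t)) = π (CSGadP_xi ξ T g) := by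
  have h := hξ _ (Nat.card T' - 1) (fun k => CSGadP_eq T' (π ((CSGadP_eq T).symm k))) _
    (CSGadP_fin hg (CSGadP_eq T))
  unfold minor at h
  simp only [Equiv.symm_apply_apply] at h
  unfold CSGadP_xi
  rw [h, Equiv.symm_apply_apply]

/-- Solutions of the gadget give solutions of the system of constraints. -/
theorem sol_proj [Finite A] [Finite D] [Finite K] [Nonempty D] {Γ : CLang A} {G : Src U D K}
    (hG : G.Free) (hΓ : Γ.ToProjections) (h : Satisfiable (gadget Γ G)) :
    ∃ b : U → D, ∀ c, G.Solves b c := by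
  obtain ⟨ξ, hξ⟩ := hΓ
  obtain ⟨z, hz⟩ := h
  refine ⟨fun e => CSGadP_xi ξ D fun α => z (ed G e α), fun c => ?_⟩
  have := hG.nonempty c
  have key : ∀ e : {e // e ∈ G.scope c}, CSGadP_xi ξ D (fun α => z (ed G e.1 α)) =
      (CSGadP_xi ξ (G.rel c) fun u => z (nu G c u)).1 e := by
    intro e
    have h1 := CSGadP_minor hξ (fun t : G.rel c => t.1 e) (CSGadP_gadget hz c)
    rw [← h1]
    congr 1
    funext α
    rw [nu_ed hG c e α]
  unfold Src.Solves
  rw [funext key]
  exact (CSGadP_xi ξ (G.rel c) fun u => z (nu G c u)).2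

end Pool.Agent.MP_9cec2c_lc.CS
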