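import Mathlib

/-!
The numbers: the side of the torus for an instance of size `n`.
-/

set_option autoImplicit false

namespace Pool.Agent.MP_9cec2c_lc.CS

/-- The side of the torus: about the `2 k`-th root of `n`. -/
noncomputable def side (k n : ℕ) : ℕ := max 2 ⌊(n : ℝ) ^ (1 / (2 * k : ℝ))⌋₊

theorem two_le_side (k n : ℕ) : 2 ≤ side k n := le_max_left _ _

theorem side_pow {k : ℕ} (hk : 1 ≤ k) (n : ℕ) : side k n ^ (2 * k) ≤ 4 ^ k * (n + 1) := by
  have hk0 : (0 : ℝ) < 2 * k := by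
    have : (1 : ℝ) ≤ k := by exact_mod_cast hk
    linarith
  unfold side
  rcases le_total 2 ⌊(n : ℝ) ^ (1 / (2 * k : ℝ))⌋₊ with h | h
  · rw [max_eq_right h]
    have h1 : ((⌊(n : ℝ) ^ (1 / (2 * k : ℝ))⌋₊ : ℕ) : ℝ) ≤ (n : ℝ) ^ (1 / (2 * k : ℝ)) :=
      Nat.floor_le (by positivity)
    have h2 : ((⌊(n : ℝ) ^ (1 / (2 * k : ℝ))⌋₊ : ℕ) : ℝ) ^ (2 * k) ≤ n := by
      refine (pow_le_pow_left₀ (Nat.cast_nonneg _) h1 _).trans (le_of_eq ?_)
      rw [← Real.rpow_natCast, ← Real.rpow_mul (Nat.cast_nonneg n)]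
      push_cast
      rw [one_div_mul_cancel hk0.ne', Real.rpow_one]
    have h3 : ⌊(n : ℝ) ^ (1 / (2 * k : ℝ))⌋₊ ^ (2 * k) ≤ n := by exact_mod_cast h2
    calc ⌊(n : ℝ) ^ (1 / (2 * k : ℝ))⌋₊ ^ (2 * k) ≤ n := h3
      _ ≤ 1 * (n + 1) := by omega
      _ ≤ 4 ^ k * (n + 1) := Nat.mul_le_mul_right _ (Nat.one_le_pow _ _ (by norm_num))
  · have h4 : (2 : ℕ) ^ 2 = 4 := rfl
    rw [max_eq_left h, pow_mul, h4]
    exact Nat.le_mul_of_pos_right _ (Nat.succ_pos n)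

theorem le_side (k n : ℕ) : (n : ℝ) ^ (1 / (2 * k : ℝ)) / 2 ≤ side k n := by
  unfold side
  set t : ℝ := (n : ℝ) ^ (1 / (2 * k : ℝ)) with ht
  have h0 : 0 ≤ t := by positivity
  have h1 : t < ⌊t⌋₊ + 1 := Nat.lt_floor_add_one t
  push_cast
  rcases le_total t 4 with h | h
  · exact le_max_of_le_left (by linarith)
  · exact le_max_of_le_right (by linarith)

theorem num_side {k : ℕ} (hk : 1 ≤ k) {c : ℝ} (hc : 0 < c) :
    ∃ c' : ℝ, 0 < c' ∧ ∀ n d : ℕ, Real.exp (c' * (n : ℝ) ^ (c' / (d + 1))) ≤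
      Real.exp (c * (side k n : ℝ) ^ (c / (d + 1))) := by
  have hk0 : (0 : ℝ) < 2 * k := by
    have : (1 : ℝ) ≤ k := by exact_mod_cast hk
    linarith
  have h2c : (0 : ℝ) < (2 : ℝ) ^ (-c) := by positivity
  refine ⟨min (c * (2 : ℝ) ^ (-c)) (c / (2 * k)), lt_min (by positivity) (by positivity), ?_⟩
  intro n d
  set c' : ℝ := min (c * (2 : ℝ) ^ (-c)) (c / (2 * k)) with hc'
  have hc'0 : 0 < c' := lt_min (by positivity) (by positivity)
  have hd : (1 : ℝ) ≤ (d : ℝ) + 1 := by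
    have : (0 : ℝ) ≤ d := Nat.cast_nonneg d
    linarith
  have hd0 : (0 : ℝ) < (d : ℝ) + 1 := by linarith
  refine Real.exp_le_exp.2 ?_
  rcases Nat.eq_zero_or_pos n with h0 | h0
  · subst h0
    have : ((0 : ℕ) : ℝ) ^ (c' / (d + 1)) = 0 := by
      rw [Nat.cast_zero, Real.zero_rpow (div_pos hc'0 hd0).ne']
    rw [this, mul_zero]
    positivity
  · have hn1 : (1 : ℝ) ≤ n := by exact_mod_cast h0
    have hn0 : (0 : ℝ) ≤ n := by linarith
    have h1 : ((n : ℝ) ^ (1 / (2 * k : ℝ)) / 2) ^ (c / (d + 1)) ≤ (side k n : ℝ) ^ (c / (d + 1)) :=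
      Real.rpow_le_rpow (by positivity) (le_side k n) (by positivity)
    have h2 : ((n : ℝ) ^ (1 / (2 * k : ℝ)) / 2) ^ (c / (d + 1)) =
        (n : ℝ) ^ (c / (2 * k) / (d + 1)) * (2 : ℝ) ^ (-(c / (d + 1))) := by
      rw [div_eq_mul_inv, Real.mul_rpow (by positivity) (by norm_num), ← Real.rpow_mul hn0,
        Real.rpow_neg (by norm_num), Real.inv_rpow (by norm_num)]
      congr 2
      field_simp
    have h3 : (2 : ℝ) ^ (-c) ≤ (2 : ℝ) ^ (-(c / (d + 1))) := by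
      refine Real.rpow_le_rpow_of_exponent_le (by norm_num) (neg_le_neg ?_)
      exact div_le_self hc.le hd
    have h4 : (n : ℝ) ^ (c' / (d + 1)) ≤ (n : ℝ) ^ (c / (2 * k) / (d + 1)) := by
      refine Real.rpow_le_rpow_of_exponent_le hn1 ?_
      exact div_le_div_of_nonneg_right (min_le_right _ _) hd0.le
    calc c' * (n : ℝ) ^ (c' / (d + 1))
        ≤ (c * (2 : ℝ) ^ (-c)) * (n : ℝ) ^ (c / (2 * k) / (d + 1)) :=
          mul_le_mul (min_le_left _ _) h4 (by positivity) (by positivity)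
      _ = c * ((n : ℝ) ^ (c / (2 * k) / (d + 1)) * (2 : ℝ) ^ (-c)) := by ring
      _ ≤ c * ((n : ℝ) ^ (c / (2 * k) / (d + 1)) * (2 : ℝ) ^ (-(c / (d + 1)))) := by
          refine mul_le_mul_of_nonneg_left ?_ hc.le
          exact mul_le_mul_of_nonneg_left h3 (by positivity)
      _ ≤ c * (side k n : ℝ) ^ (c / (d + 1)) := by
          rw [← h2]
          exact mul_le_mul_of_nonneg_left h1 hc.le

/-- A bound by a power of `n` contradicts the exponential lower bound. -/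
theorem num_contra {c : ℝ} (hc : 0 < c) (d C K : ℕ) :
    ∃ n : ℕ, (((K * (n + 1) + K * (n + 1) + 2) ^ C : ℕ) : ℝ) <
      Real.exp (c * (n : ℝ) ^ (c / (d + 1))) := by
  have hd0 : (0 : ℝ) < (d : ℝ) + 1 := by positivity
  set e : ℝ := c / (d + 1) with he
  have he0 : 0 < e := div_pos hc hd0
  have h1 : Filter.Tendsto (fun x : ℝ => Real.exp (c * x) / x ^ ((C : ℝ) / e)) Filter.atTop
      Filter.atTop := tendsto_exp_mul_div_rpow_atTop _ _ hc
  have h2 : Filter.Tendsto (fun n : ℕ => (n : ℝ) ^ e) Filter.atTop Filter.atTop :=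
    (tendsto_rpow_atTop he0).comp tendsto_natCast_atTop_atTop
  have h3 := ((h1.comp h2).eventually_gt_atTop (((4 * K + 2 : ℕ) : ℝ) ^ C)).and
    (Filter.eventually_ge_atTop 1)
  obtain ⟨n, hn, hn1⟩ := h3.exists
  refine ⟨n, ?_⟩
  have hn0 : (0 : ℝ) < n := by exact_mod_cast hn1
  have h4 : ((n : ℝ) ^ e) ^ ((C : ℝ) / e) = (n : ℝ) ^ C := by
    rw [← Real.rpow_mul hn0.le, mul_div_cancel₀ _ he0.ne', Real.rpow_natCast]
  have h5 : ((4 * K + 2 : ℕ) : ℝ) ^ C < Real.exp (c * (n : ℝ) ^ e) / (n : ℝ) ^ C := by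
    have h6 := hn
    simp only [Function.comp_apply] at h6
    rwa [h4] at h6
  rw [lt_div_iff₀ (by positivity), ← mul_pow] at h5
  refine lt_of_le_of_lt ?_ h5
  have h7 : K * (n + 1) + K * (n + 1) + 2 ≤ (4 * K + 2) * n := by nlinarith
  rw [Nat.cast_pow]
  refine pow_le_pow_left₀ (Nat.cast_nonneg _) ?_ _
  exact_mod_cast h7

end Pool.Agent.MP_9cec2c_lc.CS
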