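import Pool.Agent.Lib.MP_9cec2c_lc.CSLoc
import Pool.Agent.Lib.MP_9cec2c_lc.CSGadP
import Pool.Agent.Lib.MP_9cec2c_lc.CSGadA
import Pool.Agent.Lib.MP_9cec2c_lc.CSGadC
import Pool.Agent.Lib.MP_9cec2c_lc.CSNum
import Pool.Agent.Lib.MP_9cec2c_lc.FN9

/-!
The hard families of instances.
-/

set_option autoImplicit false
set_option linter.unusedSectionVars false

namespace Pool.Agent.MP_9cec2c_lc.CS

open Finset TT MX
open FG (Rule size Form)

variable {A : Type} [Fintype A] [Nonempty A] {Γ : CLang A} {J : Type} [Fintype J]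

/-- The charges: the charge of one vertex is 1. -/
def chg (r : J → ℕ) (N : ℕ) (j : J) : TV N → ZMod (r j) := Pi.single 0 1

theorem sum_chg (r : J → ℕ) (N : ℕ) [NeZero N] (j : J) : ∑ v, chg r N j v = 1 := by
  classical
  unfold chg
  rw [Finset.sum_pi_single']
  simp

theorem hard_family [Nonempty J] (r : J → ℕ) (hr : ∀ j, 2 ≤ r j)
    (hunsat : ∀ (N : ℕ) [NeZero N] [∀ j, NeZero (r j)], 2 ≤ N →
      ¬ Satisfiable (gadget Γ (tsys (chg r N)))) :
    Γ.Hard fun Q => ∃ j, ∀ q ∈ Q, q.Coprime (r j) := by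
  classical
  have hne : ∀ j, NeZero (r j) := fun j => ⟨by have := hr j; omega⟩
  obtain ⟨k, hk⟩ : ∃ k, k = Fintype.card J := ⟨_, rfl⟩
  have hk1 : 1 ≤ k := by
    rw [hk]
    exact Fintype.card_pos
  have hs : ∀ n, NeZero (side k n) := fun n => ⟨by have := two_le_side k n; omega⟩
  obtain ⟨R, hR⟩ : ∃ R, R = (∏ j, r j) ^ (4 * Fintype.card J) := ⟨_, rfl⟩
  obtain ⟨E, hE⟩ : ∃ E, E = Nat.card A + 2 * Nat.card A ^ Nat.card (∀ j, ZMod (r j)) +
    Nat.card A ^ R + ∑ i, Nat.card A ^ (R * Γ.ar i) := ⟨_, rfl⟩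
  refine ⟨E * 4 ^ k, fun n => GVar A (tsys (chg r (side k n))), fun n => inferInstance,
    fun n => gadget Γ (tsys (chg r (side k n))), fun n => ?_, ?_⟩
  · have hRc : ∀ ν, Nat.card ((tsys (chg r (side k n))).rel ν) ≤ R := by
      intro ν
      rw [hR]
      exact tsys_card _ ν
    have hTE : Nat.card (TE (side k n)) = 2 * side k n ^ 2 := by
      rw [Nat.card_prod, Nat.card_prod, Nat.card_eq_fintype_card, Nat.card_eq_fintype_card,
        ZMod.card, Fintype.card_bool]
      ring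
    have hK : Nat.card (J → TV (side k n)) = side k n ^ (2 * k) := by
      rw [Nat.card_fun, Nat.card_prod, Nat.card_eq_fintype_card, Nat.card_eq_fintype_card,
        ZMod.card, ← hk, pow_mul]
      ring
    have h1 := side_pow hk1 n
    have h2 : 1 ≤ side k n := by
      have := two_le_side k n
      omega
    have h3 : side k n ^ 2 ≤ side k n ^ (2 * k) := Nat.pow_le_pow_right h2 (by omega)
    have h4 : 1 ≤ side k n ^ (2 * k) := Nat.one_le_pow _ _ h2
    refine ⟨?_, ?_, hunsat (side k n) (two_le_side k n)⟩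
    · refine (card_gvar _ R hRc).trans ?_
      rw [hTE, hK]
      calc Nat.card A + 2 * side k n ^ 2 * Nat.card A ^ Nat.card (∀ j, ZMod (r j)) +
            side k n ^ (2 * k) * Nat.card A ^ R
          ≤ (Nat.card A + 2 * Nat.card A ^ Nat.card (∀ j, ZMod (r j)) + Nat.card A ^ R) *
            side k n ^ (2 * k) := by nlinarith [Nat.zero_le (Nat.card A), Nat.zero_le (Nat.card A ^ Nat.card (∀ j, ZMod (r j)))]
        _ ≤ E * (4 ^ k * (n + 1)) := Nat.mul_le_mul (by rw [hE]; exact Nat.le_add_right _ _) h1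
        _ = E * 4 ^ k * (n + 1) := by ring
    · refine (length_gadget Γ _ R hRc).trans ?_
      rw [hK]
      calc side k n ^ (2 * k) * ∑ i, Nat.card A ^ (R * Γ.ar i)
          ≤ (4 ^ k * (n + 1)) * E := Nat.mul_le_mul h1 (by rw [hE]; exact Nat.le_add_left _ _)
        _ = E * 4 ^ k * (n + 1) := by ring
  · intro Q hQ hj S hS hsound
    obtain ⟨j, hj⟩ := hj
    obtain ⟨B, hB⟩ := exists_local Γ r j
    obtain ⟨c, hc, h⟩ := torus_hard Q (r j) B (by have := hr j; omega)
      (fun q hq => ⟨hQ q hq, hj q hq⟩) (Flat.Herm.rmt_main (r j) (hr j)) hS hsound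
    obtain ⟨c', hc', h'⟩ := num_side hk1 hc
    refine ⟨c', hc', ?_⟩
    intro n d l τ L hL
    obtain ⟨g, hg⟩ := hB (side k n) (chg r (side k n))
    refine (h' n d).trans (h (side k n) (chg r (side k n) j) ?_ _ _ g hg d l τ L hL)
    rw [sum_chg]
    exact ZMod.addOrderOf_one (r j)

/-- Every language with a map to the projections is hard. -/
theorem hard_proj (hΓ : Γ.ToProjections) (P : Finset ℕ) (hP : P.Nonempty)
    (hp : ∀ p ∈ P, p.Prime) : Γ.Hard fun Q => ¬ P ⊆ Q := by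
  classical
  have : Nonempty {p // p ∈ P} := hP.coe_sort
  obtain ⟨C, X, hX, I, h1, h2⟩ := hard_family (Γ := Γ) (J := {p // p ∈ P}) (fun p => p.1)
    (fun p => (hp p.1 p.2).two_le) (fun N _ _ hN => by
      have : ∀ p : {p // p ∈ P}, Fact (1 < p.1) := fun p => ⟨(hp p.1 p.2).one_lt⟩
      intro hsat
      obtain ⟨b, hb⟩ := sol_proj (tsys_free hN _) hΓ hsat
      obtain ⟨ν, hν⟩ := tsys_unsat (chg (fun p : {p // p ∈ P} => p.1) N) (fun j => by
        rw [sum_chg]
        exact one_ne_zero) b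
      exact hν (hb ν))
  refine ⟨C, X, hX, I, h1, fun Q hQ hPQ => h2 Q hQ ?_⟩
  obtain ⟨p, hpP, hpQ⟩ := Finset.not_subset.1 hPQ
  refine ⟨⟨p, hpP⟩, fun q hq => (Nat.coprime_primes (hQ q hq) (hp p hpP)).2 ?_⟩
  rintro rfl
  exact hpQ hq

/-- Every language with a map to the affine operations modulo `r` is hard for the primes that do
not divide `r`. -/
theorem hard_aff {r : ℕ} (hr : 2 ≤ r) (hΓ : Γ.ToAffine r) :
    Γ.Hard fun Q => ∀ q ∈ Q, q.Coprime r := by
  classical
  have : NeZero r := ⟨by omega⟩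
  have : Fact (1 < r) := ⟨by omega⟩
  obtain ⟨C, X, hX, I, h1, h2⟩ := hard_family (Γ := Γ) (J := Unit) (fun _ => r)
    (fun _ => hr) (fun N _ _ hN => by
      intro hsat
      have : ∀ ν, Fintype ((tsys (chg (fun _ : Unit => r) N)).rel ν) := fun ν =>
        Fintype.ofFinite _
      obtain ⟨b, hb⟩ := sol_aff (r := r) (tsys_free hN _) hΓ (fun ν μ hμ => by
        have := tsys_affine (chg (fun _ : Unit => r) N) ν μ hμ
        exact this) hsat
      obtain ⟨ν, hν⟩ := tsys_unsat (chg (fun _ : Unit => r) N) (fun j => by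
        rw [sum_chg]
        exact one_ne_zero) b
      exact hν (hb ν))
  exact ⟨C, X, hX, I, h1, fun Q hQ hPQ => h2 Q hQ ⟨(), hPQ⟩⟩

end Pool.Agent.MP_9cec2c_lc.CS
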