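import Pool.Agent.Lib.MP_9cec2c_lc.CSDefs

/-!
The gadget: the instance over a language `Γ` for a system `G` of constraints with values in `D`.
Its solutions give polymorphisms of `Γ` whose arguments are indexed by the solutions `G.rel c` of
the constraints `c`, and whose minors along the variables of `c` depend on the variable only.
-/

set_option autoImplicit false

namespace Pool.Agent.MP_9cec2c_lc.CS

/-- A system of constraints `c` for variables in `U` with values in `D`: the values of the variables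
in `scope c` form a tuple in `rel c`. -/
structure Src (U D K : Type) : Type where
  scope : K → Finset U
  rel : ∀ c, Set ({e // e ∈ scope c} → D)

variable {A U D K : Type}

/-- Every constraint has at least two variables, and any two of its variables may have any two
values. -/
def Src.Free (G : Src U D K) : Prop :=
  ∀ c, (∃ e e' : {e // e ∈ G.scope c}, e ≠ e') ∧
    ∀ e e' : {e // e ∈ G.scope c}, e ≠ e' → ∀ x y : D, ∃ t ∈ G.rel c, t e = x ∧ t e' = y

/-- The values `b` satisfy the constraint `c`. -/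
def Src.Solves (G : Src U D K) (b : U → D) (c : K) : Prop :=
  (fun e : {e // e ∈ G.scope c} => b e) ∈ G.rel c

/-- The variables of the gadget. -/
inductive GVar (A : Type) {U D K : Type} (G : Src U D K) : Type
  | val (a : A) : GVar A G
  | edge (e : U) (α : D → A) : GVar A G
  | node (c : K) (u : G.rel c → A) : GVar A G

open Classical in
/-- The variable of the function `α` of the value of `e`. -/
noncomputable def ed (G : Src U D K) (e : U) (α : D → A) : GVar A G :=
  if h : ∃ a, ∀ x, α x = a then .val h.choose else .edge e α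

open Classical in
/-- The variable of the function `u` of the solution of the constraint `c`. -/
noncomputable def nu (G : Src U D K) (c : K) (u : G.rel c → A) : GVar A G :=
  if h : ∃ a, ∀ t, u t = a then .val h.choose
  else if h : ∃ p : {e // e ∈ G.scope c} × (D → A), ∀ t : G.rel c, u t = p.2 (t.1 p.1) then
    .edge h.choose.1.1 h.choose.2
  else .node c u

instance [Finite A] [Finite U] [Finite D] [Finite K] (G : Src U D K) : Finite (GVar A G) := by
  refine Finite.of_injective (β := A ⊕ ((U × (D → A)) ⊕ (Σ c, (G.rel c → A)))) (fun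
    | .val a => Sum.inl a
    | .edge e α => Sum.inr (Sum.inl (e, α))
    | .node c u => Sum.inr (Sum.inr ⟨c, u⟩)) ?_
  rintro (a | ⟨e, α⟩ | ⟨c, u⟩) (a' | ⟨e', α'⟩ | ⟨c', u'⟩) h <;> simp at h ⊢
  · exact h
  · exact h
  · exact h

noncomputable instance [Finite A] [Finite U] [Finite D] [Finite K] (G : Src U D K) :
    Fintype (GVar A G) := Fintype.ofFinite _

/-- The index set of the constraints of the gadget. -/
abbrev GIdx (Γ : CLang A) (G : Src U D K) : Type :=
  Σ c : K, Σ i : Fin Γ.m, {u : Fin (Γ.ar i) → G.rel c → A // ∀ t, (fun j => u j t) ∈ Γ.rel i}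

/-- The gadget. -/
noncomputable def gadget [Finite A] [Finite D] [Finite K] (Γ : CLang A) (G : Src U D K) :
    List (Constraint Γ (GVar A G)) :=
  (@Finset.univ (GIdx Γ G) (Fintype.ofFinite _)).toList.map fun q =>
    ⟨q.2.1, fun j => nu G q.1 (q.2.2.1 j)⟩

open Classical in
/-- The values of the variables of the gadget for values `b` of the variables in `U`. -/
noncomputable def gval (G : Src U D K) (a₀ : A) (b : U → D) : GVar A G → A
  | .val a => a
  | .edge e α => α (b e)
  | .node c u => if h : G.Solves b c then u ⟨_, h⟩ else a₀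

theorem mem_gadget [Finite A] [Finite D] [Finite K] {Γ : CLang A} {G : Src U D K}
    {C : Constraint Γ (GVar A G)} : C ∈ gadget Γ G ↔
      ∃ (c : K) (i : Fin Γ.m) (u : Fin (Γ.ar i) → G.rel c → A),
        (∀ t, (fun j => u j t) ∈ Γ.rel i) ∧ C = ⟨i, fun j => nu G c (u j)⟩ := by
  unfold gadget
  rw [List.mem_map]
  constructor
  · rintro ⟨⟨c, i, u, hu⟩, -, rfl⟩
    exact ⟨c, i, u, hu, rfl⟩
  · rintro ⟨c, i, u, hu, rfl⟩
    exact ⟨⟨c, i, u, hu⟩, Finset.mem_toList.2 (@Finset.mem_univ _ (Fintype.ofFinite _) _), rfl⟩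

/-- The values of the gadget variables. -/
theorem gval_nu (G : Src U D K) (a₀ : A) (b : U → D) (c : K) (h : G.Solves b c)
    (u : G.rel c → A) : gval G a₀ b (nu G c u) = u ⟨_, h⟩ := by
  classical
  unfold nu
  split_ifs with h1 h2
  · exact (h1.choose_spec _).symm
  · exact (h2.choose_spec ⟨_, h⟩).symm
  · show (if h : G.Solves b c then u ⟨_, h⟩ else a₀) = _
    rw [dif_pos h]

theorem Src.Free.nonempty [Nonempty D] {G : Src U D K} (hG : G.Free) (c : K) :
    Nonempty (G.rel c) := by
  obtain ⟨⟨e, e', hne⟩, h⟩ := hG c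
  obtain ⟨x⟩ := ‹Nonempty D›
  obtain ⟨t, ht, -⟩ := h e e' hne x x
  exact ⟨⟨t, ht⟩⟩

theorem Src.Free.onto [Nonempty D] {G : Src U D K} (hG : G.Free) (c : K)
    (e : {e // e ∈ G.scope c}) (x : D) : ∃ t ∈ G.rel c, t e = x := by
  obtain ⟨⟨e₁, e₂, hne⟩, h⟩ := hG c
  by_cases he : e = e₁
  · obtain ⟨t, ht, h1, -⟩ := h e e₂ (he ▸ hne) x x
    exact ⟨t, ht, h1⟩
  · obtain ⟨t, ht, h1, -⟩ := h e e₁ he x x
    exact ⟨t, ht, h1⟩

/-- The variable of a function of the value of one variable. -/
theorem nu_ed [Nonempty D] {G : Src U D K} (hG : G.Free) (c : K) (e : {e // e ∈ G.scope c})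
    (α : D → A) : nu G c (fun t => α (t.1 e)) = ed G e.1 α := by
  classical
  obtain ⟨t₀⟩ := hG.nonempty c
  unfold nu ed
  by_cases h : ∃ a, ∀ x, α x = a
  · have h' : ∃ a, ∀ t : G.rel c, α (t.1 e) = a := by
      obtain ⟨a, ha⟩ := h
      exact ⟨a, fun t => ha _⟩
    rw [dif_pos h', dif_pos h]
    congr 1
    rw [← h'.choose_spec t₀, h.choose_spec]
  · have h' : ¬ ∃ a, ∀ t : G.rel c, α (t.1 e) = a := by
      rintro ⟨a, ha⟩
      refine h ⟨a, fun x => ?_⟩
      obtain ⟨t, ht, rfl⟩ := hG.onto c e x
      exact ha ⟨t, ht⟩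
    have h2 : ∃ p : {e // e ∈ G.scope c} × (D → A), ∀ t : G.rel c, α (t.1 e) = p.2 (t.1 p.1) :=
      ⟨(e, α), fun t => rfl⟩
    rw [dif_neg h', dif_neg h, dif_pos h2]
    have h3 := h2.choose_spec
    generalize h2.choose = p at h3
    obtain ⟨e', α'⟩ := p
    have he : e' = e := by
      by_contra hne
      obtain ⟨x⟩ := ‹Nonempty D›
      refine h ⟨α' x, fun y => ?_⟩
      obtain ⟨t, ht, h4, h5⟩ := (hG c).2 e e' (Ne.symm hne) y x
      have h6 := h3 ⟨t, ht⟩
      simp only [h4, h5] at h6
      exact h6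
    subst he
    have hα : α' = α := by
      funext x
      obtain ⟨t, ht, h4⟩ := hG.onto c e' x
      have h6 := h3 ⟨t, ht⟩
      simp only [h4] at h6
      exact h6.symm
    subst hα
    rfl

end Pool.Agent.MP_9cec2c_lc.CS
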