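import Pool.Agent.Lib.MP_9cec2c_lc.TTDefs

/-!
Formulas whose clauses contain clauses of a Tseitin formula, and the square torus.
-/

set_option autoImplicit false

namespace Pool.Agent.MP_9cec2c_lc.TT

/-- Every clause of `F` has at most `B` literals and contains a clause of `T`, whose variables are
renamed by `ι`. -/
def Above {Y X : Type} (ι : Y → X) (T : Finset (Finset (Y × Bool))) (B : ℕ)
    (F : List (List (X × Bool))) : Prop :=
  ∀ D ∈ F, D.length ≤ B ∧ ∃ C ∈ T, ∀ l ∈ C, (ι l.1, l.2) ∈ D

/-- The disjunction of the Tseitin formulas modulo 2 and modulo 3 of the graph, on disjoint sets of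
variables: the clauses are the unions of a clause of the first and a clause of the second. -/
noncomputable def bothCNF {V E : Type} [Fintype V] [Fintype E] [DecidableEq V] [DecidableEq E]
    (src tgt : E → V) (s : V → ZMod 2) (s' : V → ZMod 3) :
    List (List (((E × ZMod 2) ⊕ (E × ZMod 3)) × Bool)) :=
  FG.listCNF (Flat.orCNF (tseitin src tgt 2 s) (tseitin src tgt 3 s'))

/-- The source of an edge of the `N × N` torus: the edge `(v, b)` leads from the vertex `v` to the
next vertex in the first direction (`b = true`) or in the second direction (`b = false`). -/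
def torusSrc (N : ℕ) (e : (ZMod N × ZMod N) × Bool) : ZMod N × ZMod N := e.1

/-- The target of an edge of the `N × N` torus. -/
def torusTgt (N : ℕ) (e : (ZMod N × ZMod N) × Bool) : ZMod N × ZMod N :=
  if e.2 then (e.1.1 + 1, e.1.2) else (e.1.1, e.1.2 + 1)

end Pool.Agent.MP_9cec2c_lc.TT
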