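import Pool.Agent.Lib.MP_9cec2c_lc.TVBram
import Pool.Agent.Lib.MP_9cec2c_lc.TVDefs

/-!
The square torus is connected, has degree 4 and large treewidth.
-/

set_option autoImplicit false
set_option linter.unusedSectionVars false

namespace Pool.Agent.MP_9cec2c_lc.TT

open Finset

variable {N : ℕ} [NeZero N]

/-- TASK TVGrid (1). The edges at `v` are `(v, true)`, `(v, false)`, `((v.1 - 1, v.2), true)`, `((v.1, v.2 - 1), false)`. -/
theorem torus_deg (v : ZMod N × ZMod N) : (inc (torusSrc N) (torusTgt N) v).card ≤ 4 := by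
  have h : inc (torusSrc N) (torusTgt N) v ⊆
      {(v, true), (v, false), ((v.1 - 1, v.2), true), ((v.1, v.2 - 1), false)} := by
    rintro ⟨⟨a, b⟩, c⟩ he
    obtain ⟨v1, v2⟩ := v
    have he' : (a, b) = (v1, v2) ∨ (if c = true then (a + 1, b) else (a, b + 1)) = (v1, v2) :=
      (mem_filter.1 he).2
    simp only [mem_insert, mem_singleton, Prod.mk.injEq]
    rcases he' with h1 | h1
    · rw [Prod.mk.injEq] at h1
      obtain ⟨rfl, rfl⟩ := h1
      cases c
      · right; left; simp
      · left; simp
    · cases c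
      · simp only [Bool.false_eq_true, if_false, Prod.mk.injEq] at h1
        obtain ⟨rfl, rfl⟩ := h1
        right; right; right; simp
      · simp only [if_true, Prod.mk.injEq] at h1
        obtain ⟨rfl, rfl⟩ := h1
        right; right; left; simp
  exact (card_le_card h).trans card_le_four

private theorem TVGrid_nat (x : ZMod N) : ∃ n : ℕ, (n : ZMod N) = x := ⟨x.val, ZMod.natCast_zmod_val x⟩

/-- TASK TVGrid (2). If no edge leaves `U` then `U` is closed under `+ (1, 0)` and `+ (0, 1)`, so it is everything (every element of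
`ZMod N` is a natural number). -/
theorem torus_conn : Connected (torusSrc N) (torusTgt N) := by
  intro U hU hne
  by_contra hc
  rw [Finset.not_nonempty_iff_eq_empty] at hc
  have h1 : ∀ e, torusSrc N e ∈ U ↔ torusTgt N e ∈ U := by
    intro e
    by_contra h
    have h2 : e ∈ cut (torusSrc N) (torusTgt N) U := mem_filter.2 ⟨mem_univ _, h⟩
    rw [hc] at h2
    exact absurd h2 (Finset.notMem_empty _)
  have ht : ∀ a b : ZMod N, (a, b) ∈ U ↔ (a + 1, b) ∈ U := fun a b => h1 ((a, b), true)
  have hf : ∀ a b : ZMod N, (a, b) ∈ U ↔ (a, b + 1) ∈ U := fun a b => h1 ((a, b), false)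
  have ht' : ∀ (n : ℕ) (a b : ZMod N), (a, b) ∈ U ↔ (a + n, b) ∈ U := by
    intro n
    induction n with
    | zero => intro a b; simp
    | succ n ih =>
      intro a b
      rw [ih a b, ht, Nat.cast_succ, add_assoc]
  have hf' : ∀ (n : ℕ) (a b : ZMod N), (a, b) ∈ U ↔ (a, b + n) ∈ U := by
    intro n
    induction n with
    | zero => intro a b; simp
    | succ n ih =>
      intro a b
      rw [ih a b, hf, Nat.cast_succ, add_assoc]
  obtain ⟨⟨a, b⟩, hab⟩ := hU
  apply hne
  rw [eq_univ_iff_forall]
  rintro ⟨c, d⟩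
  obtain ⟨n, hn⟩ := TVGrid_nat (c - a)
  obtain ⟨m, hm⟩ := TVGrid_nat (d - b)
  have h3 := (hf' m _ _).1 ((ht' n _ _).1 hab)
  rw [hn, hm, add_sub_cancel, add_sub_cancel] at h3
  exact h3

/-- The cross: a row and a column. -/
def cross (i j : ZMod N) : Finset (ZMod N × ZMod N) := univ.filter fun v => v.1 = i ∨ v.2 = j

private theorem TVGrid_row (i j : ZMod N) (n : ℕ) :
    Reach (torusSrc N) (torusTgt N) (cross i j) (i, j) (i, j + n) := by
  induction n with
  | zero =>
    rw [Nat.cast_zero, add_zero]
    exact Relation.ReflTransGen.refl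
  | succ n ih =>
    refine Relation.ReflTransGen.tail ih ⟨?_, ?_, ((i, j + n), false), Or.inl ⟨rfl, ?_⟩⟩
    · simp [cross]
    · simp [cross]
    · simp [torusTgt, add_assoc]

private theorem TVGrid_col (i j : ZMod N) (n : ℕ) :
    Reach (torusSrc N) (torusTgt N) (cross i j) (i, j) (i + n, j) := by
  induction n with
  | zero =>
    rw [Nat.cast_zero, add_zero]
    exact Relation.ReflTransGen.refl
  | succ n ih =>
    refine Relation.ReflTransGen.tail ih ⟨?_, ?_, ((i + n, j), true), Or.inl ⟨rfl, ?_⟩⟩
    · simp [cross]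
    · simp [cross]
    · simp [torusTgt, add_assoc]

/-- TASK TVGrid (3). Every vertex of the cross is joined to `(i, j)`: `(i, b)` by the edges `((i, b'), false)`, `(a, j)` by the edges
`((a', j), true)`. `reach_symm`. -/
theorem cross_conn (i j : ZMod N) : ConnOn (torusSrc N) (torusTgt N) (cross i j) := by
  have h : ∀ v ∈ cross i j, Reach (torusSrc N) (torusTgt N) (cross i j) (i, j) v := by
    rintro ⟨a, b⟩ hv
    simp only [cross, mem_filter, mem_univ, true_and] at hv
    rcases hv with rfl | rfl
    · obtain ⟨n, hn⟩ := TVGrid_nat (b - j)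
      have h1 := TVGrid_row a j n
      rwa [hn, add_sub_cancel] at h1
    · obtain ⟨n, hn⟩ := TVGrid_nat (a - i)
      have h1 := TVGrid_col i b n
      rwa [hn, add_sub_cancel] at h1
  intro u hu v hv
  exact Relation.ReflTransGen.trans (reach_symm (h u hu)) (h v hv)

/-- TASK TVGrid (4). The treewidth.

PROOF. `bramble` for the crosses `cross a.1 a.2`, `a : ZMod N × ZMod N`: `(a.1, b.2)` is in the crosses of `a` and of `b`. A set `X` of at most
`N - 1` vertices has `(X.image Prod.fst).card < N`, so some `i` is not a first coordinate, and some `j` is not a second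
coordinate; `X ∩ cross i j = ∅`. -/
theorem torus_tw : ¬ HasTreeDec (torusSrc N) (torusTgt N) (N - 1) := by
  intro h
  obtain ⟨X, hX, hX2⟩ := bramble h (L := ZMod N × ZMod N) (fun a => cross a.1 a.2)
    (fun a => cross_conn a.1 a.2) (fun a b => ⟨(a.1, b.2), by simp [cross]⟩)
  have hN : 0 < N := Nat.pos_of_ne_zero (NeZero.ne N)
  have key : ∀ f : ZMod N × ZMod N → ZMod N, ∃ i, ∀ v ∈ X, f v ≠ i := by
    intro f
    by_contra hcon
    push Not at hcon
    have h1 : (univ : Finset (ZMod N)) ⊆ X.image f := by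
      intro i _
      obtain ⟨v, hv, hvi⟩ := hcon i
      exact mem_image.2 ⟨v, hv, hvi⟩
    have h2 := (card_le_card h1).trans card_image_le
    rw [Finset.card_univ, ZMod.card] at h2
    omega
  obtain ⟨i, hi⟩ := key Prod.fst
  obtain ⟨j, hj⟩ := key Prod.snd
  obtain ⟨v, hv⟩ := hX2 (i, j)
  rw [mem_inter] at hv
  have h3 := hv.2
  simp only [cross, mem_filter, mem_univ, true_and] at h3
  rcases h3 with h3 | h3
  · exact hi v hv.1 h3
  · exact hj v hv.1 h3

end Pool.Agent.MP_9cec2c_lc.TT
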