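import Pool.Agent.Lib.MP_9cec2c_lc.Mg.G023
import Pool.Agent.Lib.MP_9cec2c_lc.TVGrid

/-!
The lower bound for formulas that are reduced to the Tseitin formulas of tori by functions of few
variables.
-/

set_option autoImplicit false
set_option linter.unusedSectionVars false

namespace Pool.Agent.MP_9cec2c_lc.CS

open Finset TT MX
open Flat (TVar tseitinMod RMT2 card_TVar)
open FG (Rule size Form fals)
open Frege (World Fun Pol)
open CQ (TQ tsrc ttgt tchg tinc card_tinc mem_tinc sum_tchg Narrow Kills pull pull_apply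
  pull_world act_eq_zero fals_toList)

/-- The map `g` from the values of the variables of `T` to the values of the variables of `F`
reduces `F` to `T`: every value depends on at most `B` variables, and if a clause of `F` is false,
then a clause of `T` is false whose variables are among the at most `B` variables on which the
clause of `F` depends. -/
structure LocalRed {Y X : Type} (T : Finset (Finset (Y × Bool))) (B : ℕ)
    (F : List (List (X × Bool))) (g : (Y → Bool) → (X → Bool)) : Prop where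
  narrow : ∀ x, ∃ Z : Finset Y, Z.card ≤ B ∧ ∀ y y', (∀ u ∈ Z, y u = y' u) → g y x = g y' x
  short : ∀ D ∈ F, D.length ≤ B
  loc : ∀ D ∈ F, ∃ Z : Finset Y, Z.card ≤ B ∧
    (∀ y y', (∀ u ∈ Z, y u = y' u) → ∀ l ∈ D, g y l.1 = g y' l.1) ∧
    ∀ y, (∀ l ∈ D, g y l.1 ≠ l.2) → ∃ C ∈ T, (∀ l ∈ C, l.1 ∈ Z) ∧ ∀ l ∈ C, y l.1 ≠ l.2

open Filter in
/-- Few edges. -/
theorem CSHard_edges {x : ℝ} (hx : 0 < x) (e : ℕ) : ∃ w₂ : ℕ, ∀ w : ℕ, w₂ ≤ w →
    3 * ((w : ℝ) + 2) ^ e ≤ Real.exp ((w : ℝ) ^ (x / 20)) := by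
  have hx20 : (0 : ℝ) < x / 20 := by positivity
  have hc : Tendsto (fun n : ℕ => (n : ℝ)) atTop atTop := tendsto_natCast_atTop_atTop
  have e0 : (0 : ℝ) ≤ e := Nat.cast_nonneg e
  have h1 := (isLittleO_log_rpow_atTop hx20).def (c := 1 / (2 * (e + 1))) (by positivity)
  have h2 : ∀ᶠ w : ℕ in atTop, ‖Real.log w‖ ≤ 1 / (2 * (e + 1)) * ‖(w : ℝ) ^ (x / 20)‖ :=
    hc.eventually h1
  have h3 : ∀ᶠ w : ℕ in atTop, 4 * (1 + (e : ℝ)) ≤ (w : ℝ) ^ (x / 20) :=
    ((tendsto_rpow_atTop hx20).comp hc).eventually_ge_atTop _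
  obtain ⟨w₀, hw₀⟩ := eventually_atTop.mp (h2.and h3)
  refine ⟨max w₀ 1, fun w hw => ?_⟩
  obtain ⟨h4, h5⟩ := hw₀ w ((le_max_left _ _).trans hw)
  have hw1 : (1 : ℝ) ≤ w := by exact_mod_cast (le_max_right _ _).trans hw
  have hy : 0 ≤ (w : ℝ) ^ (x / 20) := by positivity
  rw [Real.norm_of_nonneg (Real.log_nonneg hw1), Real.norm_of_nonneg hy] at h4
  have h10 : Real.log 3 ≤ 2 := by
    have := Real.log_le_sub_one_of_pos (show (0 : ℝ) < 3 by norm_num)
    linarith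
  have h6 : Real.log ((w : ℝ) + 2) ≤ 2 + Real.log w := by
    have h7 : Real.log ((w : ℝ) + 2) ≤ Real.log (3 * w) :=
      Real.log_le_log (by linarith) (by linarith)
    rw [Real.log_mul (by norm_num) (by linarith)] at h7
    linarith
  have h9 : Real.log (3 * ((w : ℝ) + 2) ^ e) ≤ (w : ℝ) ^ (x / 20) := by
    rw [Real.log_mul (by norm_num) (by positivity), Real.log_pow]
    have h11 : (e : ℝ) * Real.log ((w : ℝ) + 2) ≤ e * (2 + Real.log w) :=
      mul_le_mul_of_nonneg_left h6 e0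
    have h12 : (e : ℝ) * Real.log w ≤ e * (1 / (2 * (e + 1)) * (w : ℝ) ^ (x / 20)) :=
      mul_le_mul_of_nonneg_left h4 e0
    have h13 : (e : ℝ) * (1 / (2 * (e + 1)) * (w : ℝ) ^ (x / 20)) ≤ (w : ℝ) ^ (x / 20) / 2 := by
      have h14 : (e : ℝ) * (1 / (2 * (e + 1))) ≤ 1 / 2 := by
        rw [mul_one_div, div_le_div_iff₀ (by positivity) (by norm_num)]
        linarith
      calc (e : ℝ) * (1 / (2 * (e + 1)) * (w : ℝ) ^ (x / 20))
          = (e : ℝ) * (1 / (2 * (e + 1))) * (w : ℝ) ^ (x / 20) := by ring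
        _ ≤ 1 / 2 * (w : ℝ) ^ (x / 20) := mul_le_mul_of_nonneg_right h14 hy
        _ = (w : ℝ) ^ (x / 20) / 2 := by ring
    nlinarith
  rw [← Real.log_le_iff_le_exp (by positivity)]
  exact h9

/-- The bound for `N - 1`. -/
theorem CSHard_half {c : ℝ} (hc : 0 < c) (hc1 : c ≤ 1) (N d : ℕ) (hN : 2 ≤ N) :
    Real.exp (c / 2 * (N : ℝ) ^ (c / 2 / (d + 1))) ≤
      Real.exp (c * ((N - 1 : ℕ) : ℝ) ^ (c / (d + 1))) := by
  apply Real.exp_le_exp.2
  have hN1 : (1 : ℝ) ≤ N := by exact_mod_cast (by omega : 1 ≤ N)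
  have hd : (1 : ℝ) ≤ (d : ℝ) + 1 := by
    have : (0 : ℝ) ≤ d := Nat.cast_nonneg _
    linarith
  have h1 : (N : ℝ) / 2 ≤ ((N - 1 : ℕ) : ℝ) := by
    rw [Nat.cast_sub (by omega)]
    have : (2 : ℝ) ≤ N := by exact_mod_cast hN
    push_cast
    linarith
  have he : 0 ≤ c / ((d : ℝ) + 1) := by positivity
  have he1 : c / ((d : ℝ) + 1) ≤ 1 := by
    rw [div_le_one (by positivity)]
    linarith
  have h2 : ((N : ℝ) / 2) ^ (c / ((d : ℝ) + 1)) ≤ ((N - 1 : ℕ) : ℝ) ^ (c / ((d : ℝ) + 1)) :=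
    Real.rpow_le_rpow (by positivity) h1 he
  rw [Real.div_rpow (by positivity) (by norm_num)] at h2
  have h3 : (2 : ℝ) ^ (c / ((d : ℝ) + 1)) ≤ 2 := by
    calc (2 : ℝ) ^ (c / ((d : ℝ) + 1)) ≤ (2 : ℝ) ^ (1 : ℝ) :=
          Real.rpow_le_rpow_of_exponent_le (by norm_num) he1
      _ = 2 := Real.rpow_one 2
  have h4 : (N : ℝ) ^ (c / 2 / ((d : ℝ) + 1)) ≤ (N : ℝ) ^ (c / ((d : ℝ) + 1)) :=
    Real.rpow_le_rpow_of_exponent_le hN1 (by
      rw [div_div, div_le_div_iff₀ (by positivity) (by positivity)]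
      nlinarith)
  have hy : 0 ≤ (N : ℝ) ^ (c / ((d : ℝ) + 1)) := by positivity
  have h5 : (N : ℝ) ^ (c / ((d : ℝ) + 1)) / 2 ≤ (N : ℝ) ^ (c / ((d : ℝ) + 1)) /
      (2 : ℝ) ^ (c / ((d : ℝ) + 1)) :=
    div_le_div_of_nonneg_left hy (by positivity) h3
  calc c / 2 * (N : ℝ) ^ (c / 2 / ((d : ℝ) + 1)) ≤ c / 2 * (N : ℝ) ^ (c / ((d : ℝ) + 1)) :=
        mul_le_mul_of_nonneg_left h4 (by positivity)
    _ = c * ((N : ℝ) ^ (c / ((d : ℝ) + 1)) / 2) := by ring
    _ ≤ c * ((N - 1 : ℕ) : ℝ) ^ (c / ((d : ℝ) + 1)) :=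
        mul_le_mul_of_nonneg_left (h5.trans h2) hc.le

theorem CSHard_comp {U Y X : Type} [Fintype U] {k B : ℕ} {ρ : (U → Bool) → (Y → Bool)}
    (hn : Narrow k ρ) {g : (Y → Bool) → (X → Bool)} (hg : Narrow B g) :
    Narrow (k * B) fun u => g (ρ u) := by
  classical
  intro x
  obtain ⟨Z, hZ, hZ'⟩ := hg x
  choose Y' hY hY' using hn
  refine ⟨Z.biUnion Y', ?_, fun u u' h => ?_⟩
  · refine card_biUnion_le.trans ((sum_le_card_nsmul _ _ k fun y _ => hY y).trans ?_)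
    rw [smul_eq_mul, mul_comm]
    exact Nat.mul_le_mul_left k hZ
  · refine hZ' _ _ fun y hy => hY' y u u' fun v hv => h v ?_
    exact mem_biUnion.2 ⟨y, hy, hv⟩

/-- Every clause of `F` has at most `B` literals, and if it is false at `g y`, then a clause of `T`
over a set of at most `B` variables, which depends only on the clause of `F`, is false at `y`. -/
def CSHard_Below {Y X : Type} (g : (Y → Bool) → (X → Bool)) (T : Finset (Finset (Y × Bool)))
    (B : ℕ) (F : List (List (X × Bool))) : Prop :=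
  ∀ D ∈ F, D.length ≤ B ∧ ∃ Z : Finset Y, Z.card ≤ B ∧
    ∀ y, (∀ l ∈ D, g y l.1 ≠ l.2) → ∃ C ∈ T, (∀ l ∈ C, l.1 ∈ Z) ∧ ∀ l ∈ C, y l.1 ≠ l.2

/-- The substitution kills the clauses of `F`. -/
theorem CSHard_kill {U Y X : Type} [Fintype U] [Fintype Y] {k B : ℕ}
    {ρ : (U → Bool) → (Y → Bool)} (hn : Narrow k ρ) (hk : 0 < k) {g : (Y → Bool) → (X → Bool)}
    (hg : Narrow B g) {T : Finset (Finset (Y × Bool))} {F : List (List (X × Bool))}
    (hF : CSHard_Below g T B F) (K W : Type) [Field K] [AddCommGroup W] [Module K W]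
    (M : ℕ → Submodule K W) (act : Fun K U →ₗ[K] W →ₗ[K] W) (A : ℕ) (hW : World M act A)
    (hT : ∀ C ∈ T, ∀ u ∈ M 0, act (pull ρ (fals K C.toList)) u = 0)
    (hA : 2 * (k * (B * B + B)) ≤ A) :
    ∀ D ∈ F, ∀ u ∈ M 0, act (pull (fun u => g (ρ u)) (fals K D)) u = 0 := by
  classical
  intro D hD u hu
  obtain ⟨hlen, Z, hZ, hZ'⟩ := hF D hD
  have hW' := pull_world hW hn
  have hKill : Kills (fun a => M (k * a)) (act.comp (pull ρ)) (T : Set (CQ.Clause Y)) := by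
    intro C hC w hw
    have h1 : w ∈ M 0 := by
      have h2 : w ∈ M (k * 0) := hw
      rwa [mul_zero] at h2
    have h3 := hT C (mem_coe.1 hC) w h1
    rw [fals_toList] at h3
    show act (pull ρ _) w = 0
    convert h3
  choose G hG hG' using hg
  obtain ⟨Z', hZd⟩ : ∃ Z' : Finset Y, Z' = Z ∪ (D.map Prod.fst).toFinset.biUnion G := ⟨_, rfl⟩
  have hcard : Z'.card ≤ B * B + B := by
    rw [hZd]
    refine (card_union_le _ _).trans ?_
    have h1 : ((D.map Prod.fst).toFinset.biUnion G).card ≤ B * B := by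
      refine card_biUnion_le.trans ((sum_le_card_nsmul _ _ B fun x _ => hG x).trans ?_)
      rw [smul_eq_mul]
      refine Nat.mul_le_mul_right B ((List.toFinset_card_le _).trans ?_)
      rw [List.length_map]
      exact hlen
    omega
  have hdep : ∀ x y : Y → Bool, (∀ v ∈ Z', x v = y v) → ∀ l ∈ D, g x l.1 = g y l.1 := by
    intro x y hxy l hl
    refine hG' l.1 x y fun v hv => hxy v ?_
    rw [hZd]
    exact mem_union_right _ (mem_biUnion.2
      ⟨l.1, List.mem_toFinset.2 (List.mem_map.2 ⟨l, hl, rfl⟩), hv⟩)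
  have key := act_eq_zero hW' hKill Z' (pull g (fals K D)) ?_ ?_ ?_ (w := u) ?_
  · exact key
  · intro x y hxy
    rw [pull_apply, pull_apply]
    unfold fals
    have h3 : (∀ l ∈ D, g x l.1 ≠ l.2) ↔ ∀ l ∈ D, g y l.1 ≠ l.2 :=
      forall₂_congr fun l hl => by rw [hdep x y hxy l hl]
    simp only [h3]
  · intro y hy
    rw [pull_apply] at hy
    have h1 : ∀ l ∈ D, g y l.1 ≠ l.2 := by
      intro l hl h2
      exact hy ((FG.holds_false_iff K D (g y)).2 ⟨l, hl, h2⟩)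
    obtain ⟨C, hC, h2, h3⟩ := hZ' y h1
    refine ⟨C, mem_coe.2 hC, fun l hl => ?_, ?_⟩
    · rw [hZd]
      exact mem_union_left _ (h2 l hl)
    · rintro ⟨l, hl, hl'⟩
      exact h3 l hl hl'
  · rw [Nat.le_div_iff_mul_le hk]
    calc (Z'.card + Z'.card) * k ≤ (2 * (B * B + B)) * k := Nat.mul_le_mul_right k (by omega)
      _ = 2 * (k * (B * B + B)) := by ring
      _ ≤ A := hA
  · show u ∈ M (k * 0)
    rwa [mul_zero]

/-- The lower bound for the graphs whose total charge has order `r'` and that do not have too many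
edges. -/
theorem CSHard_graph (Q : Finset ℕ) (r r' Δ B e : ℕ) [NeZero r] [NeZero r'] (hr' : 1 < r')
    (hQ : ∀ q ∈ Q, q.Prime ∧ q.Coprime r') (hR : RMT2 r') {S : ℕ → Set Rule}
    (hS : ∀ q ∈ Q, (S q).Finite) (hsound : ∀ q ∈ Q, ∀ R ∈ S q, R.Sound q) :
    ∃ c : ℝ, 0 < c ∧ ∀ (V E : Type) [Fintype V] [Fintype E] [DecidableEq V] [DecidableEq E]
      (src tgt : E → V), Connected src tgt → (∀ v, (inc src tgt v).card ≤ Δ) →
      ∀ w : ℕ, ¬ HasTreeDec src tgt w → Fintype.card E ≤ (w + 2) ^ e →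
      ∀ s : V → ZMod r, addOrderOf (∑ v, s v) = r' →
      ∀ (X : Type) (g : (E × ZMod r → Bool) → (X → Bool)), Narrow B g →
      ∀ F : List (List (X × Bool)), CSHard_Below g (tseitin src tgt r s) B F →
      ∀ (d l : ℕ) (τ : Fin l → ℕ) (L : Fin l → Form X), MixedRefutes Q S d F τ L →
        Real.exp (c * (w : ℝ) ^ (c / (d + 1))) ≤ size L := by
  classical
  obtain ⟨Δ', hΔ'⟩ : ∃ Δ' : ℕ, Δ' = max Δ 1 := ⟨_, rfl⟩
  have hΔ'1 : 1 ≤ Δ' := by
    rw [hΔ']
    exact le_max_right _ _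
  obtain ⟨B', hB'⟩ : ∃ B' : ℕ, B' = max B 1 := ⟨_, rfl⟩
  have hB'1 : 1 ≤ B' := by
    rw [hB']
    exact le_max_right _ _
  have hBB : B ≤ B' := by
    rw [hB']
    exact le_max_left _ _
  obtain ⟨ι₀, hι₀, K, hK, o, iq, hKQ, x, hx, N₁, hN₁⟩ := fam_KN r' hr' hR Q hQ
  have hx20 : (0 : ℝ) < x / 20 := by positivity
  obtain ⟨c₁, hc₁, M₂, hM₂⟩ := mixed_num (K := K) o iq hKQ hx20 B 256 hS hsound
  obtain ⟨P, hP⟩ : ∃ P : ℕ, P = 2 * Δ' + 3 + 2 * (B' + 1) := ⟨_, rfl⟩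
  obtain ⟨w₁, hw₁⟩ := exists_num hx P (r' * B') N₁ (Nat.mul_pos (by omega) (by omega))
  -- few edges
  obtain ⟨w₂, hw₂⟩ := CSHard_edges hx e
  obtain ⟨w₀, hw₀⟩ : ∃ w₀ : ℕ, w₀ = max (max w₁ w₂) M₂ := ⟨_, rfl⟩
  obtain ⟨c, hc⟩ : ∃ c : ℝ, c = min c₁ (min 1 (Real.log 2 / (w₀ + 1))) := ⟨_, rfl⟩
  have hlog : 0 < Real.log 2 := Real.log_pos (by norm_num)
  have hw01 : (0 : ℝ) < (w₀ : ℝ) + 1 := by positivity
  have hcpos : 0 < c := by
    rw [hc]
    exact lt_min hc₁ (lt_min one_pos (div_pos hlog hw01))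
  have hcc1 : c ≤ c₁ := by
    rw [hc]
    exact min_le_left _ _
  have hc1 : c ≤ 1 := by
    rw [hc]
    exact (min_le_right _ _).trans (min_le_left _ _)
  have hcw : c * ((w₀ : ℝ) + 1) ≤ Real.log 2 := by
    have h1 : c ≤ Real.log 2 / (w₀ + 1) := by
      rw [hc]
      exact (min_le_right _ _).trans (min_le_right _ _)
    rwa [le_div_iff₀ hw01] at h1
  refine ⟨c, hcpos, ?_⟩
  intro V E _ _ _ _ src tgt hconn hΔ w hw hcardE s hord X g₀ hg₀ F hF d l τ L hL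
  have hΔ1 : ∀ v, (inc src tgt v).card ≤ Δ' := fun v => (hΔ v).trans (by
    rw [hΔ']
    exact le_max_left _ _)
  have hi : ∃ i : Fin l, True := by
    rcases hL with ⟨-, i, -⟩ | ⟨-, i, -⟩ <;> exact ⟨i, trivial⟩
  obtain ⟨i, -⟩ := hi
  have hsize2 : 2 ≤ size L := FG.two_le_size i
  rcases le_total w w₀ with hww | hww
  · exact exists_num_small w₀ hcpos hc1 hcw hww d hsize2
  have hww1 : w₁ ≤ w := ((le_max_left _ _).trans (le_max_left _ _)).trans (hw₀ ▸ hww)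
  have hww2 : w₂ ≤ w := ((le_max_right _ _).trans (le_max_left _ _)).trans (hw₀ ▸ hww)
  have hwwM : M₂ ≤ w := (le_max_right _ _).trans (hw₀ ▸ hww)
  have hm : (3 * (Fintype.card E : ℕ) : ℝ) ≤ Real.exp ((w : ℝ) ^ (x / 20)) := by
    refine le_trans ?_ (hw₂ w hww2)
    have h1 : (Fintype.card E : ℝ) ≤ ((w : ℝ) + 2) ^ e := by exact_mod_cast hcardE
    linarith
  obtain ⟨N, A, hNN, hN1, hA1, hA3, hcardT, hA2, hA4⟩ := hw₁ w hww1 _ hm
  obtain ⟨k, hk⟩ : ∃ k, k = Nat.log 2 (3 * Fintype.card E) + 3 := ⟨_, rfl⟩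
  rw [← hk] at hA2 hA4
  have hk1 : 1 ≤ k := by omega
  have hr1 : 1 ≤ r' := by omega
  have hkr : 1 ≤ k * r' := Nat.mul_pos (by omega) (by omega)
  have hkrB : 1 ≤ k * r' * B' := Nat.mul_pos hkr hB'1
  -- the heights
  have hA5 : 4 * ((Δ' * k + 3) * r') ≤ A := by
    refine le_trans ?_ hA4
    have h1 : 2 * (Δ' * k + 3) ≤ P * k + 3 := by
      rw [hP]
      nlinarith
    calc 4 * ((Δ' * k + 3) * r') = 2 * ((2 * (Δ' * k + 3)) * (r' * 1)) := by ring
      _ ≤ 2 * ((P * k + 3) * (r' * B')) :=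
        Nat.mul_le_mul_left 2 (Nat.mul_le_mul h1 (Nat.mul_le_mul_left _ hB'1))
  have hA6 : 4 * (k * r' * (B' * B' + B')) ≤ A := by
    refine le_trans ?_ hA4
    have h1 : 2 * (B' + 1) * k ≤ P * k + 3 := by
      rw [hP]
      nlinarith
    calc 4 * (k * r' * (B' * B' + B')) = 2 * ((2 * (B' + 1) * k) * (r' * B')) := by ring
      _ ≤ 2 * ((P * k + 3) * (r' * B')) := Nat.mul_le_mul_left 2 (Nat.mul_le_mul_right _ h1)
  obtain ⟨T, hTcard, hT⟩ := exists_wellLinked (t := 2 * w / 3) (by omega) hw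
  obtain ⟨φ, f, hφ, hf, hload⟩ := exists_flow hconn hΔ1 hΔ'1 hT (tsrc : TVar N → TQ N) ttgt
    (fun q => (card_le_card fun i hi => mem_tinc (mem_filter.1 hi).2).trans (card_tinc q))
    (s := 2 * N ^ 2 + N + 1) (by omega) ((card_TVar N).trans (by omega))
    (by
      rw [card_TQ, hTcard]
      refine le_trans ?_ hcardT
      refine Nat.mul_le_mul_left _ (Nat.mul_le_mul_right _ ?_)
      rw [hP]
      omega)
  rw [← hk] at hload
  have v0 : Fin N := ⟨0, by omega⟩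
  -- the homomorphism
  obtain ⟨ι, hι⟩ : ∃ ι : ZMod r' →+ ZMod r, ι 1 = ∑ v, s v := by
    refine ⟨ZMod.lift r' ⟨zmultiplesHom (ZMod r) (∑ v, s v), ?_⟩, ?_⟩
    · rw [zmultiplesHom_apply, natCast_zsmul, ← hord]
      exact addOrderOf_nsmul_eq_zero _
    · have h1 := ZMod.lift_coe r' (⟨zmultiplesHom (ZMod r) (∑ v, s v), by
        rw [zmultiplesHom_apply, natCast_zsmul, ← hord]
        exact addOrderOf_nsmul_eq_zero _⟩ : {f : ℤ →+ ZMod r // f r' = 0}) 1
      rw [Int.cast_one] at h1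
      rw [h1]
      show (zmultiplesHom (ZMod r) (∑ v, s v)) 1 = _
      rw [zmultiplesHom_apply, one_zsmul]
  -- the charges
  obtain ⟨b, hb⟩ : ∃ b : Fin N → ZMod r', b = Pi.single v0 (-1) := ⟨_, rfl⟩
  have hsum : ∑ q, tchg b q = 1 := by
    rw [sum_tchg, hb, sum_pi_single' v0, if_pos (mem_univ _), neg_neg]
  obtain ⟨g, hg⟩ := exists_pot hconn
    (fun v => s v - ∑ q, (if φ q = v then ι (tchg b q) else 0)) (by
      rw [sum_sub_distrib, sum_comm]
      have h1 : ∀ q : TQ N, ∑ v, (if φ q = v then ι (tchg b q) else 0) = ι (tchg b q) := by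
        intro q
        rw [sum_ite_eq, if_pos (mem_univ _)]
      rw [sum_congr rfl fun q _ => h1 q, ← map_sum, hsum, hι, sub_self])
  -- the substitutions
  obtain ⟨ρ, hρn, hρ⟩ := graph_rho (b := b) ι hφ hf hload g
    (s := s) (fun v => by rw [hg v]; ring) hΔ1
  have hg₀' : Narrow B' g₀ := fun x => by
    obtain ⟨Z, hZ, hZ'⟩ := hg₀ x
    exact ⟨Z, hZ.trans hBB, hZ'⟩
  have hF' : CSHard_Below g₀ (tseitin src tgt r s) B' F := fun D hD => by
    obtain ⟨h1, Z, hZ, hZ'⟩ := hF D hD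
    exact ⟨h1.trans hBB, Z, hZ.trans hBB, hZ'⟩
  have hρn' : Narrow (k * r' * B') fun u => g₀ (ρ u) := CSHard_comp hρn hg₀'
  -- the family
  obtain ⟨W, _, _, _, M, act, hfam, hpos, hgrow, hkills⟩ := hN₁ N hNN A hA1 hN1 (by
    refine le_trans ?_ hA3
    have h1 : r' ≤ r' * B' := Nat.le_mul_of_pos_right _ hB'1
    omega) b
  have hfam' := hfam.pull (Nat.lt_of_lt_of_le one_pos hkrB) hρn'
  have hfin := hM₂ w hwwM X W _ _ (A / (k * r' * B')) hfam' (by
      rw [mul_assoc]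
      exact hA2)
    (by
      show 0 < Module.finrank (K o) (M o (_ * 0))
      rw [mul_zero]
      exact hpos)
    (by
      show Module.finrank (K o) (M o (_ * _)) ≤ 256 * Module.finrank (K o) (M o (_ * 0))
      rw [mul_zero]
      refine le_trans ?_ hgrow
      exact Submodule.finrank_mono ((hfam.world o).mono (Nat.mul_div_le A _) le_rfl))
    F (fun D hD => ⟨(hF D hD).1, fun j a ha u hu => ?_⟩) d l τ L hL
  · exact (bound_mono hcpos hcc1 w d).trans hfin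
  · obtain ⟨t, ht⟩ : ∃ t, t = k * r' * B' * a := ⟨_, rfl⟩
    have h1 : 2 * t ≤ A := by
      have h2 : k * r' * B' * (2 * a) ≤ k * r' * B' * (A / (k * r' * B')) :=
        Nat.mul_le_mul_left _ ha
      have h3 : k * r' * B' * (2 * a) = 2 * t := by
        rw [ht]
        ring
      rw [h3] at h2
      exact h2.trans (Nat.mul_div_le A _)
    have h3 : 3 * r' ≤ (Δ' * k + 3) * r' := Nat.mul_le_mul_right _ (by omega)
    have hmax : max r' 3 ≤ 3 * r' := max_le (by omega) (by omega)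
    refine CSHard_kill hρn (by omega) hg₀' hF' (K j) (W j) (fun j' => M j (t + j')) (act j) (A - t)
      (world_shift (hfam.world j) (by omega)) ?_ (by omega) D hD u ?_
    · intro C hC u hu
      refine hρ (K j) (W j) (fun j' => M j (t + j')) (act j) (A - t)
        (world_shift (hfam.world j) (by omega)) (hkills j t (by omega)) (by omega)
        C.toList (FG.mem_listCNF.2 ⟨C, hC, rfl⟩) u hu
    · show u ∈ M j (t + 0)
      rw [add_zero, ht]
      exact hu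

/-- **The lower bound.** -/
theorem torus_hard (Q : Finset ℕ) (r B : ℕ) [NeZero r] (hr : 1 < r)
    (hQ : ∀ q ∈ Q, q.Prime ∧ q.Coprime r) (hR : Flat.RMT2 r) {S : ℕ → Set Rule}
    (hS : ∀ q ∈ Q, (S q).Finite) (hsound : ∀ q ∈ Q, ∀ R ∈ S q, R.Sound q) :
    ∃ c : ℝ, 0 < c ∧ ∀ (N : ℕ) [NeZero N] (s : ZMod N × ZMod N → ZMod r),
      addOrderOf (∑ v, s v) = r → ∀ (X : Type) (F : List (List (X × Bool)))
      (g : (((ZMod N × ZMod N) × Bool) × ZMod r → Bool) → (X → Bool)),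
      LocalRed (tseitin (torusSrc N) (torusTgt N) r s) B F g →
      ∀ (d l : ℕ) (τ : Fin l → ℕ) (L : Fin l → Form X), MixedRefutes Q S d F τ L →
        Real.exp (c * (N : ℝ) ^ (c / (d + 1))) ≤ size L := by
  obtain ⟨c, hc, h⟩ := CSHard_graph Q r r 4 B 3 hr hQ hR hS hsound
  obtain ⟨c₁, hc₁⟩ : ∃ c₁ : ℝ, c₁ = min c (Real.log 2) := ⟨_, rfl⟩
  have hlog : 0 < Real.log 2 := Real.log_pos (by norm_num)
  have hlog1 : Real.log 2 ≤ 1 := by
    have := Real.log_two_lt_d9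
    linarith
  have hpos : 0 < c₁ := by
    rw [hc₁]
    exact lt_min hc hlog
  have h1 : c₁ ≤ c := by
    rw [hc₁]
    exact min_le_left _ _
  have h2 : c₁ ≤ Real.log 2 := by
    rw [hc₁]
    exact min_le_right _ _
  refine ⟨c₁ / 2, by positivity, ?_⟩
  intro N _ s hs X F g hg d l τ L hL
  have hi : ∃ i : Fin l, True := by
    rcases hL with ⟨-, i, -⟩ | ⟨-, i, -⟩ <;> exact ⟨i, trivial⟩
  obtain ⟨i, -⟩ := hi
  have hsize2 : 2 ≤ size L := FG.two_le_size i
  have hN0 : N ≠ 0 := NeZero.ne N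
  rcases Nat.lt_or_ge N 2 with hN | hN
  · have hN1 : N = 1 := by omega
    have h3 : Real.exp (c₁ / 2 * (N : ℝ) ^ (c₁ / 2 / (d + 1))) = Real.exp (c₁ / 2) := by
      rw [hN1, Nat.cast_one, Real.one_rpow, mul_one]
    rw [h3]
    calc Real.exp (c₁ / 2) ≤ Real.exp (Real.log 2) := Real.exp_le_exp.2 (by linarith)
      _ = 2 := Real.exp_log (by norm_num)
      _ ≤ size L := by exact_mod_cast hsize2
  · refine (CSHard_half hpos (h2.trans hlog1) N d hN).trans
      ((bound_mono hpos h1 (N - 1) d).trans ?_)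
    refine h _ _ (torusSrc N) (torusTgt N) torus_conn torus_deg (N - 1) torus_tw ?_ s hs X
      g hg.narrow F ?_ d l τ L hL
    · rw [Fintype.card_prod, Fintype.card_prod, ZMod.card, Fintype.card_bool]
      have h3 : N - 1 + 2 = N + 1 := by omega
      rw [h3]
      nlinarith [Nat.zero_le (N * N), Nat.zero_le (N * N * N)]
    · intro D hD
      obtain ⟨Z, hZ, -, hZ'⟩ := hg.loc D hD
      exact ⟨hg.short D hD, Z, hZ, hZ'⟩

end Pool.Agent.MP_9cec2c_lc.CS
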