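import Pool.Agent.Lib.MP_9cec2c_lc.CSDefs

/-!
The polymorphisms of a finite graph without loops which is not bipartite have a minor-preserving map
to the projections (Hell, Nesetril, Bulatov). The proof uses actions of the polymorphisms on smaller
and smaller graphs, until no two triangles of the graph have a common edge. In such a graph all
homomorphic images of powers of the triangle are powers of the triangle.
-/

set_option autoImplicit false

namespace Pool.Agent.MP_9cec2c_lc.CS

/-- There is a walk with `n` steps. -/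
def HellW {V : Type} (R : V → V → Prop) : ℕ → V → V → Prop
  | 0 => fun x y => x = y
  | n + 1 => fun x y => ∃ z, R x z ∧ HellW R n z y

section walks

variable {V : Type} {R : V → V → Prop}

theorem HellW_add {m n : ℕ} {x y z : V} (h : HellW R m x y) (h' : HellW R n y z) :
    HellW R (m + n) x z := by
  induction m generalizing x with
  | zero =>
    have hxy : x = y := h
    rw [hxy, Nat.zero_add]
    exact h'
  | succ m ih =>
    obtain ⟨w, hw, hw'⟩ := h
    rw [Nat.succ_add]
    exact ⟨w, hw, ih hw'⟩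

theorem HellW_one {x y : V} (h : R x y) : HellW R 1 x y := ⟨y, h, rfl⟩

theorem HellW_snoc {n : ℕ} {x y z : V} (h : HellW R n x y) (h' : R y z) :
    HellW R (n + 1) x z := HellW_add h (HellW_one h')

theorem HellW_symm (hR : ∀ x y, R x y → R y x) {n : ℕ} {x y : V} (h : HellW R n x y) :
    HellW R n y x := by
  induction n generalizing x with
  | zero => exact Eq.symm (h : x = y)
  | succ n ih =>
    obtain ⟨w, hw, hw'⟩ := h
    exact HellW_snoc (ih hw') (hR _ _ hw)

theorem HellW_le (hR : ∀ x, R x x) {n m : ℕ} (hnm : n ≤ m) {x y : V} (h : HellW R n x y) :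
    HellW R m x y := by
  induction m, hnm using Nat.le_induction with
  | base => exact h
  | succ m _ ih => exact ⟨x, hR x, ih⟩

theorem HellW_split {m n : ℕ} {x z : V} (h : HellW R (m + n) x z) :
    ∃ y, HellW R m x y ∧ HellW R n y z := by
  induction m generalizing x with
  | zero =>
    rw [Nat.zero_add] at h
    exact ⟨x, rfl, h⟩
  | succ m ih =>
    rw [Nat.succ_add] at h
    obtain ⟨w, hw, hw'⟩ := h
    obtain ⟨y, h1, h2⟩ := ih hw'
    exact ⟨y, ⟨w, hw, h1⟩, h2⟩

theorem HellW_odd (hR : ∀ x y, R x y → R y x) (n : ℕ) {x y : V} (h : R x y) :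
    HellW R (2 * n + 1) x y := by
  induction n with
  | zero => exact HellW_one h
  | succ n ih =>
    have e : 2 * (n + 1) + 1 = (2 * n + 1) + 1 + 1 := by ring
    rw [e]
    exact ⟨y, h, x, hR _ _ h, ih⟩

/-- A graph without closed walks of odd length has a colouring with two colours. -/
theorem Hell_bip (hR : ∀ x y, R x y → R y x) (h : ∀ n x, ¬ HellW R (2 * n + 1) x x) :
    ∃ c : V → Bool, ∀ x y, R x y → c x ≠ c y := by
  classical
  let s : Setoid V :=
    { r := fun x y => ∃ n, HellW R n x y
      iseqv :=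
        ⟨fun x => ⟨0, rfl⟩, fun ⟨n, hn⟩ => ⟨n, HellW_symm hR hn⟩,
          fun ⟨n, hn⟩ ⟨m, hm⟩ => ⟨n + m, HellW_add hn hm⟩⟩ }
  let r : V → V := fun x => (Quotient.mk s x).out
  have hr : ∀ x, ∃ n, HellW R n (r x) x := fun x => Quotient.mk_out x
  refine ⟨fun x => decide (∃ n, HellW R (2 * n) (r x) x), fun x y hxy heq => ?_⟩
  have hrr : r x = r y := by
    change (Quotient.mk s x).out = (Quotient.mk s y).out
    rw [Quotient.sound (⟨1, HellW_one hxy⟩ : s.r x y)]
  have heq' : (∃ n, HellW R (2 * n) (r x) x) ↔ (∃ n, HellW R (2 * n) (r y) y) := by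
    simpa using heq
  by_cases hx : ∃ n, HellW R (2 * n) (r x) x
  · obtain ⟨m, hm⟩ := heq'.1 hx
    obtain ⟨n, hn⟩ := hx
    rw [← hrr] at hm
    have h1 := HellW_add (HellW_snoc hn hxy) (HellW_symm hR hm)
    apply h (n + m) (r x)
    have e : 2 * (n + m) + 1 = 2 * n + 1 + 2 * m := by ring
    rw [e]
    exact h1
  · obtain ⟨n, hn⟩ := hr x
    rcases Nat.even_or_odd' n with ⟨k, rfl | rfl⟩
    · exact hx ⟨k, hn⟩
    · apply hx
      rw [heq']
      refine ⟨k + 1, ?_⟩
      rw [← hrr]
      have h1 := HellW_snoc hn hxy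
      have e : 2 * (k + 1) = 2 * k + 1 + 1 := by ring
      rw [e]
      exact h1

end walks

section action

/-- An action of a family of operations, which are idempotent and closed under minors. -/
structure HellAct {M : ℕ → Type} (mn : ∀ n m : ℕ, (Fin (n + 1) → Fin (m + 1)) → M n → M m)
    (V : Type) : Type where
  op : ∀ n, M n → (Fin (n + 1) → V) → V
  op_mn : ∀ n m (π : Fin (n + 1) → Fin (m + 1)) (f : M n) (x : Fin (m + 1) → V),
    op m (mn n m π f) x = op n f fun k => x (π k)
  idem : ∀ n (f : M n) (v : V), op n f (fun _ => v) = v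

variable {M : ℕ → Type} {mn : ∀ n m : ℕ, (Fin (n + 1) → Fin (m + 1)) → M n → M m} {V : Type}

/-- The relation `R` is invariant. -/
def HellAct.Pres (ρ : HellAct mn V) (R : V → V → Prop) : Prop :=
  ∀ n (f : M n) (x y : Fin (n + 1) → V), (∀ k, R (x k) (y k)) → R (ρ.op n f x) (ρ.op n f y)

/-- The set `S` is invariant. -/
def HellAct.Sub (ρ : HellAct mn V) (S : V → Prop) : Prop :=
  ∀ n (f : M n) (x : Fin (n + 1) → V), (∀ k, S (x k)) → S (ρ.op n f x)

/-- The minor-preserving map. -/
def HellSol {M : ℕ → Type} (mn : ∀ n m : ℕ, (Fin (n + 1) → Fin (m + 1)) → M n → M m) : Prop :=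
  ∃ ξ : ∀ n, M n → Fin (n + 1), ∀ n m (π : Fin (n + 1) → Fin (m + 1)) (f : M n),
    ξ m (mn n m π f) = π (ξ n f)

variable (ρ : HellAct mn V) {R : V → V → Prop}

theorem HellAct.presW (hR : ρ.Pres R) (l : ℕ) : ρ.Pres (HellW R l) := by
  induction l with
  | zero =>
    intro n f x y h
    have hxy : x = y := funext h
    rw [hxy]
    rfl
  | succ l ih =>
    intro n f x y h
    choose z hz hz' using h
    exact ⟨ρ.op n f z, hR n f x z hz, ih n f z y hz'⟩

/-- The restriction to an invariant set. -/
def HellAct.restrict (S : V → Prop) (hS : ρ.Sub S) : HellAct mn {v // S v} where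
  op n f x := ⟨ρ.op n f fun k => (x k).1, hS n f _ fun k => (x k).2⟩
  op_mn n m π f x := Subtype.ext (ρ.op_mn n m π f fun k => (x k).1)
  idem n f v := Subtype.ext (ρ.idem n f v.1)

/-- The quotient by an invariant equivalence relation. -/
noncomputable def HellAct.quot (s : Setoid V) : HellAct mn (Quotient s) where
  op n f x := Quotient.mk s (ρ.op n f fun k => (x k).out)
  op_mn n m π f x := congrArg (Quotient.mk s) (ρ.op_mn n m π f fun k => (x k).out)
  idem n f v := by
    rw [ρ.idem]
    exact Quotient.out_eq v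

theorem HellAct.sub_nb (hR : ρ.Pres R) {S : V → Prop} (hS : ρ.Sub S) :
    ρ.Sub fun x => ∃ y, S y ∧ R x y := by
  intro n f x h
  choose y hy hxy using h
  exact ⟨ρ.op n f y, hS n f y hy, hR n f x y hxy⟩

theorem HellAct.sub_singleton (c : V) : ρ.Sub fun x => x = c := by
  intro n f x h
  have hx : x = fun _ => c := funext h
  rw [hx]
  exact ρ.idem n f c

end action

section kernel

variable {V J : Type} {E : V → V → Prop}

/-- Two triangles of `E` with a common edge are equal. -/
def DFree (E : V → V → Prop) : Prop :=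
  ∀ x y u v, E x u → E x v → E u v → E u y → E v y → x = y

/-- A homomorphism from a power of the triangle. -/
def HomK (E : V → V → Prop) (h : (J → Fin 3) → V) : Prop :=
  ∀ x y : J → Fin 3, (∀ j, x j ≠ y j) → E (h x) (h y)

private def th (a b : Fin 3) : Fin 3 := -(a + b)

private theorem th_left : ∀ a b : Fin 3, a ≠ b → th a b ≠ a := by decide

private theorem th_right : ∀ a b : Fin 3, a ≠ b → th a b ≠ b := by decide

private theorem th_th : ∀ a b : Fin 3, th a (th a b) = b := by decide

private theorem th_th' : ∀ a b : Fin 3, th b (th a b) = a := by decide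

private theorem th_ne : ∀ a b : Fin 3, b ≠ a → th a b ≠ a := by decide

private theorem ex_ne (a b : Fin 3) : ∃ c : Fin 3, c ≠ a ∧ c ≠ b := by
  revert a b
  decide

private theorem kerA (hD : DFree E) {h : (J → Fin 3) → V}
    (hh : HomK E h) {x y w : J → Fin 3} (hxy : h x = h y) (hx : ∀ j, x j ≠ w j)
    (hy : ∀ j, y j ≠ w j) : h (fun j => th (x j) (w j)) = h (fun j => th (y j) (w j)) := by
  apply hD _ _ (h x) (h w)
  · exact hh _ _ fun j => th_left _ _ (hx j)
  · exact hh _ _ fun j => th_right _ _ (hx j)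
  · exact hh _ _ hx
  · rw [hxy]
    exact hh _ _ fun j => (th_left _ _ (hy j)).symm
  · exact hh _ _ fun j => (th_right _ _ (hy j)).symm

private theorem kerA1 (hD : DFree E) {h : (J → Fin 3) → V}
    (hh : HomK E h) {x y u v : J → Fin 3} (hxy : h x = h y)
    (h1 : ∀ j, x j = y j → u j = v j ∧ u j ≠ x j)
    (h2 : ∀ j, x j ≠ y j → u j = y j ∧ v j = x j) : h u = h v := by
  have hw : ∀ j, th (x j) (u j) = th (y j) (v j) := by
    intro j
    by_cases c : x j = y j
    · rw [(h1 j c).1, c]
    · rw [(h2 j c).1, (h2 j c).2]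
      unfold th
      rw [add_comm]
  have e1 : (fun j => th (x j) (th (x j) (u j))) = u := funext fun j => th_th _ _
  have e2 : (fun j => th (y j) (th (x j) (u j))) = v := funext fun j => by
    rw [hw j]
    exact th_th _ _
  have key := kerA hD hh (w := fun j => th (x j) (u j)) hxy ?_ ?_
  · rw [e1, e2] at key
    exact key
  · intro j
    by_cases c : x j = y j
    · exact (th_left _ _ (h1 j c).2.symm).symm
    · rw [(h2 j c).1]
      exact (th_left _ _ c).symm
  · intro j
    rw [hw j]
    by_cases c : x j = y j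
    · have h3 := (h1 j c).2
      rw [(h1 j c).1, c] at h3
      exact (th_left _ _ h3.symm).symm
    · rw [(h2 j c).2]
      exact (th_left _ _ (Ne.symm c)).symm

private theorem kerA2 (hD : DFree E) {h : (J → Fin 3) → V}
    (hh : HomK E h) {x y u v : J → Fin 3} (hxy : h x = h y)
    (h1 : ∀ j, x j = y j → u j = v j)
    (h2 : ∀ j, x j ≠ y j → u j = x j ∧ v j = y j) : h u = h v := by
  choose q hq hq' using fun j => ex_ne (x j) (u j)
  have e : h (fun j => if x j = y j then q j else y j) =
      h (fun j => if x j = y j then q j else x j) := by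
    apply kerA1 hD hh hxy
    · intro j hj
      rw [if_pos hj, if_pos hj]
      exact ⟨rfl, hq j⟩
    · intro j hj
      rw [if_neg hj, if_neg hj]
      exact ⟨rfl, rfl⟩
  refine kerA1 hD hh e ?_ ?_
  · intro j hj
    by_cases c : x j = y j
    · rw [if_pos c]
      exact ⟨h1 j c, (hq' j).symm⟩
    · rw [if_neg c, if_neg c] at hj
      exact absurd hj.symm c
  · intro j hj
    by_cases c : x j = y j
    · rw [if_pos c, if_pos c] at hj
      exact absurd rfl hj
    · rw [if_neg c, if_neg c]
      exact h2 j c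

/-- If `h x = h y` then `h` does not depend on the coordinates at which `x` and `y` differ. -/
theorem ker_ind (hD : DFree E) {h : (J → Fin 3) → V}
    (hh : HomK E h) {x y : J → Fin 3} (hxy : h x = h y) {z z' : J → Fin 3}
    (hz : ∀ j, x j = y j → z j = z' j) : h z = h z' := by
  let F : (J → Fin 3) → V := fun q => h fun j => if x j = y j then q j else x j
  have hF : ∀ q, F q = h fun j => if x j = y j then q j else y j := by
    intro q
    apply kerA2 hD hh hxy
    · intro j hj
      rw [if_pos hj, if_pos hj]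
    · intro j hj
      rw [if_neg hj, if_neg hj]
      exact ⟨rfl, rfl⟩
  have hFE : ∀ p q : J → Fin 3, (∀ j, p j ≠ q j) → E (F p) (F q) := by
    intro p q hpq
    rw [hF q]
    apply hh
    intro j
    by_cases c : x j = y j
    · rw [if_pos c, if_pos c]
      exact hpq j
    · rw [if_neg c, if_neg c]
      exact c
  have step : ∀ d d' : J → Fin 3, (∀ q, (h fun j => if x j = y j then q j else d j) = F q) →
      (∀ j, d' j ≠ d j) → ∀ q, (h fun j => if x j = y j then q j else d' j) = F q := by
    intro d d' hd hdd q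
    choose p hp _ using fun j => ex_ne (q j) (q j)
    have hE : ∀ p : J → Fin 3, (∀ j, q j ≠ p j) →
        E (h fun j => if x j = y j then q j else d' j) (F p) := by
      intro p hp
      rw [← hd p]
      apply hh
      intro j
      by_cases c : x j = y j
      · rw [if_pos c, if_pos c]
        exact hp j
      · rw [if_neg c, if_neg c]
        exact hdd j
    have hr : ∀ j, q j ≠ th (q j) (p j) := fun j => (th_left _ _ (hp j).symm).symm
    have hr' : ∀ j, p j ≠ th (q j) (p j) := fun j => (th_right _ _ (hp j).symm).symm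
    exact hD _ _ (F p) (F fun j => th (q j) (p j)) (hE p fun j => (hp j).symm)
      (hE _ hr) (hFE _ _ hr') (hFE _ _ hp) (hFE _ _ fun j => (hr j).symm)
  have all : ∀ d q : J → Fin 3, (h fun j => if x j = y j then q j else d j) = F q := by
    intro d
    choose e he he' using fun j => ex_ne (x j) (d j)
    exact step e d (step x e (fun q => rfl) he) fun j => (he' j).symm
  have e1 : ∀ z : J → Fin 3, h z = F z := by
    intro z
    rw [← all z z]
    congr 1
    funext j
    rw [ite_self]
  rw [e1 z, e1 z']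
  change h _ = h _
  congr 1
  funext j
  by_cases c : x j = y j
  · rw [if_pos c, if_pos c]
    exact hz j c
  · rw [if_neg c, if_neg c]

/-- The function `h` depends on the coordinates in `I`, and its value determines them. -/
def KerIs (h : (J → Fin 3) → V) (I : Finset J) : Prop :=
  ∀ z z', h z = h z' ↔ ∀ j ∈ I, z j = z' j

theorem exists_ker [Finite J] (hD : DFree E) {h : (J → Fin 3) → V}
    (hh : HomK E h) : ∃ I : Finset J, KerIs h I := by
  classical
  have := Fintype.ofFinite J
  let I : Finset J := Finset.univ.filter fun j => ∀ x y, h x = h y → x j = y j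
  have key : ∀ S : Finset J, (∀ j ∈ S, j ∉ I) → ∀ z z' : J → Fin 3,
      (∀ j, j ∉ S → z j = z' j) → h z = h z' := by
    intro S
    induction S using Finset.induction_on with
    | empty =>
      intro _ z z' hz
      rw [show z = z' from funext fun j => hz j (Finset.notMem_empty j)]
    | insert a S ha ih =>
      intro hS z z' hz
      have h1 : a ∉ I := hS a (Finset.mem_insert_self _ _)
      have h2 : ∃ x y, h x = h y ∧ x a ≠ y a := by
        by_contra hcon
        push Not at hcon
        exact h1 (Finset.mem_filter.2 ⟨Finset.mem_univ _, hcon⟩)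
      obtain ⟨x, y, hxy, hne⟩ := h2
      have h3 : h z = h (Function.update z a (z' a)) := by
        apply ker_ind hD hh hxy
        intro j hj
        have hja : j ≠ a := by
          rintro rfl
          exact hne hj
        rw [Function.update_of_ne hja]
      rw [h3]
      apply ih (fun j hj => hS j (Finset.mem_insert_of_mem hj))
      intro j hj
      by_cases c : j = a
      · rw [c, Function.update_self]
      · rw [Function.update_of_ne c]
        exact hz j fun hm => (Finset.mem_insert.1 hm).elim c hj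
  refine ⟨I, fun z z' => ⟨fun hz j hj => (Finset.mem_filter.1 hj).2 z z' hz, fun hz => ?_⟩⟩
  apply key (Finset.univ \ I) (fun j hj => (Finset.mem_sdiff.1 hj).2)
  intro j hj
  apply hz
  by_contra hcon
  exact hj (Finset.mem_sdiff.2 ⟨Finset.mem_univ _, hcon⟩)

theorem KerIs.unique [DecidableEq J] {h : (J → Fin 3) → V} {I I' : Finset J} (hI : KerIs h I)
    (hI' : KerIs h I') : I = I' := by
  have key : ∀ I I' : Finset J, KerIs h I → KerIs h I' → I ⊆ I' := by
    intro I I' hI hI' j hj
    by_contra hcon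
    have h1 : h (fun _ => 0) = h (Function.update (fun _ => 0) j 1) := by
      rw [hI']
      intro i hi
      rw [Function.update_of_ne]
      rintro rfl
      exact hcon hi
    have h2 := (hI _ _).1 h1 j hj
    rw [Function.update_self] at h2
    exact absurd h2 (by decide)
  exact Finset.Subset.antisymm (key _ _ hI hI') (key _ _ hI' hI)

theorem KerIs.comp {J' : Type} [DecidableEq J'] {h : (J → Fin 3) → V} {I : Finset J}
    (hI : KerIs h I) (φ : J → J') : KerIs (fun x => h fun j => x (φ j)) (I.image φ) := by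
  intro z z'
  rw [hI]
  simp only [Finset.mem_image]
  constructor
  · rintro hz _ ⟨j, hj, rfl⟩
    exact hz j hj
  · intro hz j hj
    exact hz _ ⟨j, hj, rfl⟩

/-- There is an embedded power of the triangle. -/
def PowIn (E : V → V → Prop) (k : ℕ) : Prop :=
  ∃ σ : (Fin (k + 1) → Fin 3) → V, HomK E σ ∧ Function.Injective σ

theorem powIn_of_ker {h : (J → Fin 3) → V} (hh : HomK E h) {I : Finset J} (hI : KerIs h I)
    {k : ℕ} (hk : I.card = k + 1) : PowIn E k := by
  classical
  let e : I ≃ Fin (k + 1) := Finset.equivFinOfCardEq hk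
  let ext : Fin 3 → (Fin (k + 1) → Fin 3) → J → Fin 3 := fun a t j =>
    if hj : j ∈ I then t (e ⟨j, hj⟩) else a
  have h0 : ∀ a b t, h (ext a t) = h (ext b t) := by
    intro a b t
    rw [hI]
    intro j hj
    change (if hj : j ∈ I then t (e ⟨j, hj⟩) else a) = if hj : j ∈ I then t (e ⟨j, hj⟩) else b
    rw [dif_pos hj, dif_pos hj]
  refine ⟨fun t => h (ext 0 t), fun x y hxy => ?_, fun x y hxy => ?_⟩
  · change E (h (ext 0 x)) (h (ext 0 y))
    rw [h0 0 1 y]
    apply hh
    intro j
    change (if hj : j ∈ I then x (e ⟨j, hj⟩) else 0) ≠ if hj : j ∈ I then y (e ⟨j, hj⟩) else 1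
    by_cases c : j ∈ I
    · rw [dif_pos c, dif_pos c]
      exact hxy _
    · rw [dif_neg c, dif_neg c]
      decide
  · funext i
    have h1 := (hI _ _).1 hxy (e.symm i).1 (e.symm i).2
    change (if hj : (e.symm i).1 ∈ I then x (e ⟨(e.symm i).1, hj⟩) else 0) =
      if hj : (e.symm i).1 ∈ I then y (e ⟨(e.symm i).1, hj⟩) else 0 at h1
    rw [dif_pos (e.symm i).2, dif_pos (e.symm i).2] at h1
    have h2 : e ⟨(e.symm i).1, (e.symm i).2⟩ = i := e.apply_symm_apply i
    rw [h2] at h1
    exact h1

end kernel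

section final

variable {M : ℕ → Type} {mn : ∀ n m : ℕ, (Fin (n + 1) → Fin (m + 1)) → M n → M m} {V : Type}
  {E : V → V → Prop}

/-- The graph contains a triangle. -/
def Tri (E : V → V → Prop) : Prop := ∃ a b c, E a b ∧ E b c ∧ E a c

theorem powIn_zero (hs : ∀ x y, E x y → E y x) (hl : ∀ x, ¬ E x x) (hT : Tri E) :
    PowIn E 0 := by
  obtain ⟨a, b, c, hab, hbc, hac⟩ := hT
  let τ : Fin 3 → V := ![a, b, c]
  have hτ : ∀ i j : Fin 3, i ≠ j → E (τ i) (τ j) := by
    intro i j hij
    fin_cases i <;> fin_cases j <;> first | exact absurd rfl hij | skip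
    · exact hab
    · exact hac
    · exact hs _ _ hab
    · exact hbc
    · exact hs _ _ hac
    · exact hs _ _ hbc
  refine ⟨fun x => τ (x 0), fun x y hxy => hτ _ _ (hxy 0), fun x y hxy => ?_⟩
  funext i
  have hi : i = 0 := Fin.ext (by omega)
  rw [hi]
  by_contra hcon
  have h1 := hτ _ _ hcon
  have h2 : τ (x 0) = τ (y 0) := hxy
  rw [h2] at h1
  exact hl _ h1

theorem exists_max_pow [Finite V] (h0 : PowIn E 0) : ∃ k, PowIn E k ∧ ∀ m, PowIn E m → m ≤ k := by
  classical
  have := Fintype.ofFinite V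
  have hb : ∀ m, PowIn E m → m ≤ Fintype.card V := by
    rintro m ⟨σ, -, hσ⟩
    have h1 := Fintype.card_le_of_injective σ hσ
    rw [Fintype.card_fun, Fintype.card_fin, Fintype.card_fin] at h1
    have h2 : m + 1 < 3 ^ (m + 1) := Nat.lt_pow_self (by norm_num)
    omega
  refine ⟨Nat.findGreatest (PowIn E) (Fintype.card V), ?_, fun m hm => ?_⟩
  · exact Nat.findGreatest_spec (P := PowIn E) (Nat.zero_le _) h0
  · exact Nat.le_findGreatest (hb m hm) hm

/-- The case of a graph in which no two triangles have a common edge. -/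
theorem Hell_dfree [Finite V] (ρ : HellAct mn V) (hE : ρ.Pres E) (hs : ∀ x y, E x y → E y x)
    (hl : ∀ x, ¬ E x x) (hT : Tri E) (hD : DFree E) : HellSol mn := by
  classical
  obtain ⟨k, ⟨σ, hσ, hσi⟩, hmax⟩ := exists_max_pow (powIn_zero hs hl hT)
  let h : ∀ n, M n → (Fin (n + 1) × Fin (k + 1) → Fin 3) → V := fun n f x =>
    ρ.op n f fun i => σ fun j => x (i, j)
  have hh : ∀ n f, HomK E (h n f) := fun n f x y hxy =>
    hE n f _ _ fun i => hσ _ _ fun j => hxy (i, j)
  choose I hI using fun n f => exists_ker hD (hh n f)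
  have hidem : ∀ n f (z : Fin (k + 1) → Fin 3), h n f (fun p => z p.2) = σ z := fun n f z =>
    ρ.idem n f (σ z)
  have hsurj : ∀ n f j, ∃ i, (i, j) ∈ I n f := by
    intro n f j
    by_contra hcon
    push Not at hcon
    let z : Fin (k + 1) → Fin 3 := fun _ => 0
    have h1 : h n f (fun p => z p.2) = h n f (fun p => Function.update z j 1 p.2) := by
      refine (hI n f (fun p => z p.2) fun p => Function.update z j 1 p.2).2 ?_
      rintro ⟨i, j'⟩ hij
      change z j' = Function.update z j 1 j'
      rw [Function.update_of_ne]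
      rintro rfl
      exact hcon i hij
    rw [hidem n f z, hidem n f (Function.update z j 1)] at h1
    have h2 := congrFun (hσi h1) j
    rw [Function.update_self] at h2
    exact absurd h2 (by decide)
  have hcard : ∀ n f, (I n f).card ≤ k + 1 := by
    intro n f
    rcases Nat.eq_zero_or_pos (I n f).card with h0 | h0
    · omega
    · obtain ⟨m, hm⟩ : ∃ m, (I n f).card = m + 1 := ⟨(I n f).card - 1, by omega⟩
      have h1 := hmax m (powIn_of_ker (hh n f) (hI n f) hm)
      omega
  have hinj : ∀ n f i i' j, (i, j) ∈ I n f → (i', j) ∈ I n f → i = i' := by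
    intro n f i i' j hi hi'
    have h1 : Set.InjOn Prod.snd (I n f : Set (Fin (n + 1) × Fin (k + 1))) := by
      have h2 : ((I n f).image Prod.snd).card = (I n f).card := by
        have h3 : (I n f).image Prod.snd = Finset.univ := by
          rw [Finset.eq_univ_iff_forall]
          intro j
          obtain ⟨i, hi⟩ := hsurj n f j
          exact Finset.mem_image.2 ⟨(i, j), hi, rfl⟩
        apply le_antisymm Finset.card_image_le
        rw [h3, Finset.card_univ, Fintype.card_fin]
        exact hcard n f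
      exact Finset.card_image_iff.1 h2
    have h4 := h1 hi hi' rfl
    exact congrArg Prod.fst h4
  choose ξ hξ using fun n f => hsurj n f 0
  refine ⟨ξ, fun n m π f => ?_⟩
  have himg : I m (mn n m π f) = (I n f).image fun p => (π p.1, p.2) := by
    apply (hI m (mn n m π f)).unique
    have h1 := (hI n f).comp fun p : Fin (n + 1) × Fin (k + 1) => (π p.1, p.2)
    have h2 : h m (mn n m π f) = fun x => h n f fun p => x (π p.1, p.2) := by
      funext x
      exact ρ.op_mn n m π f fun i => σ fun j => x (i, j)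
    rw [h2]
    exact h1
  apply hinj m (mn n m π f) _ _ 0 (hξ m _)
  rw [himg]
  exact Finset.mem_image.2 ⟨(ξ n f, 0), hξ n f, rfl⟩

/-- The induction. -/
theorem Hell_main : ∀ (N : ℕ) (V : Type) [Finite V] (E : V → V → Prop) (ρ : HellAct mn V),
    Nat.card V ≤ N → ρ.Pres E → (∀ x y, E x y → E y x) → (∀ x, ¬ E x x) → Tri E →
    HellSol mn := by
  intro N
  induction N with
  | zero =>
    intro V _ E ρ hN _ _ _ hT
    obtain ⟨a, -⟩ := hT
    have : Nonempty V := ⟨a⟩
    have := Nat.card_pos (α := V)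
    omega
  | succ N ih =>
    intro V _ E ρ hN hE hs hl hT
    classical
    have := Fintype.ofFinite V
    have hN' : Fintype.card V ≤ N + 1 := by rwa [Nat.card_eq_fintype_card] at hN
    -- invariant proper subsets with a triangle
    have sub : ∀ S : V → Prop, ρ.Sub S → (∃ a, ¬ S a) →
        (∃ a b c, S a ∧ S b ∧ S c ∧ E a b ∧ E b c ∧ E a c) → HellSol mn := by
      rintro S hS ⟨a, ha⟩ ⟨x, y, z, hx, hy, hz, hxy, hyz, hxz⟩
      apply ih {v // S v} (fun u v => E u.1 v.1) (ρ.restrict S hS)
      · have h1 : Fintype.card {v // S v} < Fintype.card V :=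
          Fintype.card_subtype_lt (x := a) ha
        rw [Nat.card_eq_fintype_card]
        omega
      · exact fun n f x y hxy => hE n f _ _ hxy
      · exact fun x y h => hs _ _ h
      · exact fun x h => hl _ h
      · exact ⟨⟨x, hx⟩, ⟨y, hy⟩, ⟨z, hz⟩, hxy, hyz, hxz⟩
    by_contra hno
    have sub' : ∀ S : V → Prop, ρ.Sub S →
        (∃ a b c, S a ∧ S b ∧ S c ∧ E a b ∧ E b c ∧ E a c) → ∀ a, S a := by
      intro S hS h a
      by_contra hcon
      exact hno (sub S hS ⟨a, hcon⟩ h)
    -- every vertex is in a triangle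
    have htri : ∀ x, ∃ y z, E x y ∧ E y z ∧ E x z := by
      apply sub'
      · intro n f x h
        choose y z h1 h2 h3 using h
        exact ⟨ρ.op n f y, ρ.op n f z, hE n f _ _ h1, hE n f _ _ h2, hE n f _ _ h3⟩
      · obtain ⟨a, b, c, hab, hbc, hac⟩ := hT
        exact ⟨a, b, c, ⟨b, c, hab, hbc, hac⟩, ⟨a, c, hs _ _ hab, hac, hbc⟩,
          ⟨a, b, hs _ _ hac, hab, hs _ _ hbc⟩, hab, hbc, hac⟩
    -- no four vertices with all edges
    have hk4 : ∀ a b c d, E a b → E a c → E a d → E b c → E c d → E b d → False := by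
      intro a b c d hab hac had hbc hcd hbd
      apply hl a
      apply sub' (fun x => E a x)
      · intro n f x h
        have h1 := hE n f (fun _ => a) x h
        rwa [ρ.idem] at h1
      · exact ⟨b, c, d, hab, hac, had, hbc, hcd, hbd⟩
    -- two triangles with a common edge
    let R : V → V → Prop := fun x y => ∃ u v, E x u ∧ E x v ∧ E u v ∧ E u y ∧ E v y
    have hRr : ∀ x, R x x := by
      intro x
      obtain ⟨y, z, hy, hyz, hz⟩ := htri x
      exact ⟨y, z, hy, hz, hyz, hs _ _ hy, hs _ _ hz⟩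
    have hRs : ∀ x y, R x y → R y x := by
      rintro x y ⟨u, v, h1, h2, h3, h4, h5⟩
      exact ⟨u, v, hs _ _ h4, hs _ _ h5, h3, hs _ _ h1, hs _ _ h2⟩
    have hRp : ρ.Pres R := by
      intro n f x y h
      choose u v h1 h2 h3 h4 h5 using h
      exact ⟨ρ.op n f u, ρ.op n f v, hE n f _ _ h1, hE n f _ _ h2, hE n f _ _ h3,
        hE n f _ _ h4, hE n f _ _ h5⟩
    have hEp : ∀ {S : V → Prop}, ρ.Sub S → ρ.Sub fun x => ∃ y, S y ∧ E x y := fun hS =>
      ρ.sub_nb hE hS
    have hWp : ∀ (l : ℕ) {S : V → Prop}, ρ.Sub S → ρ.Sub fun x => ∃ y, S y ∧ HellW R l x y :=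
      fun l S hS => ρ.sub_nb (ρ.presW hRp l) hS
    -- the set of all neighbours of `T` contains a triangle if `T` contains an edge
    have hnb : ∀ (T : V → Prop) (a b : V), T a → T b → E a b →
        ∃ p q r, (∃ y, T y ∧ E p y) ∧ (∃ y, T y ∧ E q y) ∧ (∃ y, T y ∧ E r y) ∧
          E p q ∧ E q r ∧ E p r := by
      intro T a b ha hb hab
      obtain ⟨y, z, hy, hyz, hz⟩ := htri a
      exact ⟨a, y, z, ⟨b, hb, hab⟩, ⟨a, ha, hs _ _ hy⟩, ⟨a, ha, hs _ _ hz⟩, hy, hyz, hz⟩
    have hTE : ∀ l x y, HellW R l x y → ¬ E x y := by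
      by_contra hcon
      push Not at hcon
      have hex : ∃ l, ∃ x y, HellW R l x y ∧ E x y := hcon
      obtain ⟨x, y, hW, hxy⟩ := Nat.find_spec hex
      have hmin : ∀ l, l < Nat.find hex → ∀ x y, HellW R l x y → ¬ E x y := by
        intro l hlt x y h1 h2
        exact Nat.find_min hex hlt ⟨x, y, h1, h2⟩
      generalize Nat.find hex = l at hW hmin
      rcases Nat.even_or_odd' l with ⟨k, rfl | rfl⟩
      · rcases Nat.eq_zero_or_pos k with rfl | hk
        · have hxy' : x = y := hW
          rw [hxy'] at hxy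
          exact hl _ hxy
        · rw [two_mul] at hW
          obtain ⟨c, h1, h2⟩ := HellW_split hW
          have hc := sub' (fun x => ∃ y, (∃ z, z = c ∧ HellW R k y z) ∧ E x y)
            (hEp (hWp k (ρ.sub_singleton c)))
            (hnb _ x y ⟨c, rfl, h1⟩ ⟨c, rfl, HellW_symm hRs h2⟩ hxy) c
          obtain ⟨y', ⟨z, rfl, hz⟩, hz'⟩ := hc
          exact hmin k (by omega) _ _ hz (hs _ _ hz')
      · have e : 2 * k + 1 = k + (1 + k) := by ring
        rw [e] at hW
        obtain ⟨a, h1, h2⟩ := HellW_split hW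
        obtain ⟨b, h2, h3⟩ := HellW_split h2
        obtain ⟨b', ⟨u, v, hau, hav, huv, hub, hvb⟩, hbb⟩ := h2
        have hbb' : b' = b := hbb
        rw [hbb'] at hub hvb
        have hSS : ρ.Sub fun z => E z u ∧ E z v := by
          intro n f z h
          have h3 := hE n f z (fun _ => u) fun k => (h k).1
          have h4 := hE n f z (fun _ => v) fun k => (h k).2
          rw [ρ.idem] at h3 h4
          exact ⟨h3, h4⟩
        have hc := sub' (fun x => ∃ y, (∃ z, (E z u ∧ E z v) ∧ HellW R k y z) ∧ E x y)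
            (hEp (hWp k hSS))
            (hnb _ x y ⟨a, ⟨hau, hav⟩, h1⟩ ⟨b, ⟨hs _ _ hub, hs _ _ hvb⟩, HellW_symm hRs h3⟩ hxy) a
        obtain ⟨y', ⟨z, ⟨hzu, hzv⟩, hz⟩, hay⟩ := hc
        have hR : R a z := ⟨u, v, hau, hav, huv, hs _ _ hzu, hs _ _ hzv⟩
        have hW' : HellW R (k + 1) a y' := ⟨z, hR, HellW_symm hRs hz⟩
        rcases Nat.eq_zero_or_pos k with rfl | hk
        · have hyz : y' = z := hz
          rw [hyz] at hay
          exact hk4 a u v z hau hav hay huv (hs _ _ hzv) (hs _ _ hzu)
        · exact hmin (k + 1) (by omega) _ _ hW' hay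
    -- the equivalence relation
    let s : Setoid V :=
      { r := fun x y => ∃ n, HellW R n x y
        iseqv :=
          ⟨fun x => ⟨0, rfl⟩, fun ⟨n, hn⟩ => ⟨n, HellW_symm hRs hn⟩,
            fun ⟨n, hn⟩ ⟨m, hm⟩ => ⟨n + m, HellW_add hn hm⟩⟩ }
    have hsp : ρ.Pres s.r := by
      intro n f x y h
      choose l hl using (h : ∀ k, ∃ l, HellW R l (x k) (y k))
      refine ⟨Finset.univ.sup l, ρ.presW hRp _ n f x y fun k => ?_⟩
      exact HellW_le hRr (Finset.le_sup (Finset.mem_univ k)) (hl k)
    by_cases hinj : Function.Injective (Quotient.mk s)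
    · -- no two triangles have a common edge
      apply hno
      apply Hell_dfree ρ hE hs hl hT
      intro x y u v h1 h2 h3 h4 h5
      apply hinj
      exact Quotient.sound (⟨1, HellW_one ⟨u, v, h1, h2, h3, h4, h5⟩⟩ : s.r x y)
    · apply hno
      apply ih (Quotient s) (fun a b => ∃ x y, Quotient.mk s x = a ∧ Quotient.mk s y = b ∧ E x y)
        (ρ.quot s)
      · have h1 : Fintype.card (Quotient s) < Fintype.card V :=
          Fintype.card_lt_of_surjective_not_injective _ Quotient.mk_surjective hinj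
        rw [Nat.card_eq_fintype_card]
        omega
      · intro n f x y h
        choose x' y' hx hy hxy using h
        refine ⟨ρ.op n f x', ρ.op n f y', ?_, ?_, hE n f x' y' hxy⟩
        · apply Quotient.sound
          apply hsp n f
          intro k
          have h1 : Quotient.mk s (x' k) = Quotient.mk s (x k).out := by
            rw [hx k]
            exact (Quotient.out_eq _).symm
          exact Quotient.exact h1
        · apply Quotient.sound
          apply hsp n f
          intro k
          have h1 : Quotient.mk s (y' k) = Quotient.mk s (y k).out := by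
            rw [hy k]
            exact (Quotient.out_eq _).symm
          exact Quotient.exact h1
      · rintro a b ⟨x, y, hx, hy, hxy⟩
        exact ⟨y, x, hy, hx, hs _ _ hxy⟩
      · rintro a ⟨x, y, hx, hy, hxy⟩
        have h1 : Quotient.mk s x = Quotient.mk s y := hx.trans hy.symm
        obtain ⟨n, hn⟩ := Quotient.exact h1
        exact hTE n x y hn hxy
      · obtain ⟨a, b, c, hab, hbc, hac⟩ := hT
        exact ⟨Quotient.mk s a, Quotient.mk s b, Quotient.mk s c, ⟨a, b, rfl, rfl, hab⟩,
          ⟨b, c, rfl, rfl, hbc⟩, ⟨a, c, rfl, rfl, hac⟩⟩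

end final

section core

variable {A : Type} [Finite A] {H : A → A → Prop}

/-- A graph that is not bipartite and has an idempotent action has a minor-preserving map. -/
theorem Hell_odd {M : ℕ → Type} {mn : ∀ n m : ℕ, (Fin (n + 1) → Fin (m + 1)) → M n → M m}
    {V : Type} [Finite V] (E : V → V → Prop) (ρ : HellAct mn V) (hE : ρ.Pres E)
    (hs : ∀ x y, E x y → E y x) (hl : ∀ x, ¬ E x x)
    (hb : ∀ c : V → Bool, ∃ x y, E x y ∧ c x = c y) : HellSol mn := by
  classical
  have hex : ∃ n, ∃ x, HellW E (2 * n + 1) x x := by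
    by_contra hcon
    push Not at hcon
    obtain ⟨c, hc⟩ := Hell_bip hs hcon
    obtain ⟨x, y, hxy, h⟩ := hb c
    exact hc x y hxy h
  obtain ⟨x, hx⟩ := Nat.find_spec hex
  have hmin : ∀ l, l < Nat.find hex → ∀ x, ¬ HellW E (2 * l + 1) x x := by
    intro l hl x h1
    exact Nat.find_min hex hl ⟨x, h1⟩
  generalize Nat.find hex = l at hx hmin
  rcases Nat.eq_zero_or_pos l with rfl | hl0
  · obtain ⟨z, hz, hz'⟩ := hx
    have hzx : z = x := hz'
    rw [hzx] at hz
    exact absurd hz (hl x)
  · obtain ⟨l, rfl⟩ : ∃ l', l = l' + 1 := ⟨l - 1, by omega⟩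
    apply Hell_main (Nat.card V) V (HellW E (2 * l + 1)) ρ le_rfl (ρ.presW hE _)
    · exact fun x y h => HellW_symm hs h
    · exact hmin l (Nat.lt_succ_self l)
    · have e : 2 * (l + 1) + 1 = (2 * l + 1) + 1 + 1 := by ring
      rw [e] at hx
      obtain ⟨y, hxy, z, hyz, hzx⟩ := hx
      exact ⟨x, y, z, HellW_odd hs l hxy, HellW_odd hs l hyz, HellW_symm hs hzx⟩

/-- The operations that preserve `H`. -/
def HellPol (H : A → A → Prop) (n : ℕ) : Type :=
  {f : (Fin (n + 1) → A) → A // ∀ x y, (∀ k, H (x k) (y k)) → H (f x) (f y)}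

/-- The minors. -/
def HellMn (H : A → A → Prop) (n m : ℕ) (π : Fin (n + 1) → Fin (m + 1)) (f : HellPol H n) :
    HellPol H m :=
  ⟨minor π f.1, fun _ _ h => f.2 _ _ fun k => h (π k)⟩

omit [Finite A] in
/-- An endomorphism with the smallest image. -/
theorem exists_core (H : A → A → Prop) : ∃ h : A → A, (∀ x y, H x y → H (h x) (h y)) ∧
    ∀ g : A → A, (∀ x y, H x y → H (g x) (g y)) → (Set.range h).ncard ≤ (Set.range g).ncard := by
  classical
  have hex : ∃ n, ∃ h : A → A, (∀ x y, H x y → H (h x) (h y)) ∧ (Set.range h).ncard = n :=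
    ⟨_, id, fun _ _ h => h, rfl⟩
  obtain ⟨h, h1, h2⟩ := Nat.find_spec hex
  refine ⟨h, h1, fun g hg => ?_⟩
  rw [h2]
  exact Nat.find_min' hex ⟨g, hg, rfl⟩

theorem Hell_pol (hs : ∀ x y, H x y → H y x) (hl : ∀ x, ¬ H x x)
    (hb : ∀ c : A → Bool, ∃ x y, H x y ∧ c x = c y) : HellSol (HellMn H) := by
  classical
  obtain ⟨h, hh, hmin⟩ := exists_core H
  let C : Type := {a // a ∈ Set.range h}
  let e : ∀ n, HellPol H n → C → C := fun n f c => ⟨h (f.1 fun _ => c.1), ⟨_, rfl⟩⟩
  have he : ∀ n f, Function.Bijective (e n f) := by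
    intro n f
    rw [← Finite.surjective_iff_bijective]
    rintro ⟨a, ha⟩
    -- the endomorphism `x ↦ h (f (h x, ..., h x))` has the same image as `h`
    have h1 := hmin (fun x => h (f.1 fun _ => h x)) fun x y hxy =>
      hh _ _ (f.2 _ _ fun _ => hh _ _ hxy)
    have h2 : (Set.range fun x => h (f.1 fun _ => h x)) ⊆ Set.range h := by
      rintro _ ⟨x, rfl⟩
      exact ⟨_, rfl⟩
    have h3 := Set.eq_of_subset_of_ncard_le h2 h1 (Set.toFinite _)
    rw [← h3] at ha
    obtain ⟨x, hx⟩ := ha
    exact ⟨⟨h x, x, rfl⟩, Subtype.ext hx⟩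
  let ε : ∀ n, HellPol H n → C ≃ C := fun n f => Equiv.ofBijective (e n f) (he n f)
  have hε : ∀ n f c, ε n f c = e n f c := fun n f c => rfl
  -- the inverse of `e n f` is a homomorphism
  have hinv : ∀ n f (x y : C), H x.1 y.1 → H ((ε n f).symm x).1 ((ε n f).symm y).1 := by
    intro n f x y hxy
    let T : Type := {p : C × C // H p.1.1 p.2.1}
    let t : T → T := fun p => ⟨(e n f p.1.1, e n f p.1.2), hh _ _ (f.2 _ _ fun _ => p.2)⟩
    have ht : Function.Injective t := by
      rintro ⟨⟨a, b⟩, hab⟩ ⟨⟨a', b'⟩, hab'⟩ hp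
      have h1 := congrArg Subtype.val hp
      have h2 : e n f a = e n f a' := congrArg Prod.fst h1
      have h3 : e n f b = e n f b' := congrArg Prod.snd h1
      have h4 := (he n f).1 h2
      have h5 := (he n f).1 h3
      subst h4 h5
      rfl
    obtain ⟨⟨⟨a, b⟩, hab⟩, hp⟩ := Finite.surjective_of_injective ht ⟨(x, y), hxy⟩
    have h1 := congrArg Subtype.val hp
    have h2 : ε n f a = x := congrArg Prod.fst h1
    have h3 : ε n f b = y := congrArg Prod.snd h1
    rw [← h2, ← h3, Equiv.symm_apply_apply, Equiv.symm_apply_apply]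
    exact hab
  let ρ : HellAct (HellMn H) C :=
    { op := fun n f x => (ε n f).symm ⟨h (f.1 fun k => (x k).1), ⟨_, rfl⟩⟩
      op_mn := fun n m π f x => rfl
      idem := fun n f v => (ε n f).symm_apply_apply v }
  apply Hell_odd (fun x y : C => H x.1 y.1) ρ
  · intro n f x y hxy
    exact hinv n f _ _ (hh _ _ (f.2 _ _ hxy))
  · exact fun x y hxy => hs _ _ hxy
  · exact fun x => hl _
  · intro c
    obtain ⟨x, y, hxy, hc⟩ := hb fun a => c ⟨h a, a, rfl⟩
    exact ⟨⟨h x, x, rfl⟩, ⟨h y, y, rfl⟩, hh _ _ hxy, hc⟩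

end core

theorem mem_pol_graph {A : Type} {H : A → A → Prop} {n : ℕ} {f : (Fin n → A) → A} :
    f ∈ (graphLang H).Pol n ↔ ∀ x y : Fin n → A, (∀ k, H (x k) (y k)) → H (f x) (f y) := by
  constructor
  · intro hf x y hxy
    exact hf (0 : Fin 1) (fun k => (![x k, y k] : Fin 2 → A)) hxy
  · intro hf i t ht
    exact hf (fun k => t k (0 : Fin 2)) (fun k => t k (1 : Fin 2)) ht

/-- If the finite graph `E` has no loops and is not bipartite, then there is a minor-preserving map
from its polymorphisms to the projections. -/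
theorem hell_toProjections {A : Type} [Finite A] (E : A → A → Prop)
    (hsymm : ∀ a b, E a b → E b a) (hloop : ∀ a, ¬ E a a)
    (hbip : ¬ ∃ c : A → Bool, ∀ a b, E a b → c a ≠ c b) : (graphLang E).ToProjections := by
  classical
  obtain ⟨ξ, hξ⟩ := Hell_pol hsymm hloop (by
    intro c
    by_contra hcon
    push Not at hcon
    exact hbip ⟨c, hcon⟩)
  let mk : ∀ n (f : (Fin (n + 1) → A) → A), f ∈ (graphLang E).Pol (n + 1) → HellPol E n :=
    fun n f h => ⟨f, mem_pol_graph.1 h⟩
  let ξ' : ∀ n, ((Fin (n + 1) → A) → A) → Fin (n + 1) := fun n f =>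
    if h : f ∈ (graphLang E).Pol (n + 1) then ξ n (mk n f h) else 0
  have hξ' : ∀ n f (h : f ∈ (graphLang E).Pol (n + 1)), ξ' n f = ξ n (mk n f h) := fun n f h =>
    dif_pos h
  refine ⟨ξ', fun n m π f hf => ?_⟩
  have h1 : minor π f ∈ (graphLang E).Pol (m + 1) := by
    rw [mem_pol_graph] at hf ⊢
    exact fun x y hxy => hf _ _ fun k => hxy (π k)
  rw [hξ' m _ h1, hξ' n f hf]
  exact hξ n m π (mk n f hf)

end Pool.Agent.MP_9cec2c_lc.CS
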