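import Pool.Agent.Lib.MP_9cec2c_lc.CDDefs

/-!
Mixed derivations: the counting gates of every line count modulo one prime, but different lines may
count modulo different primes.
-/

set_option autoImplicit false

namespace Pool.Agent.MP_9cec2c_lc.MX

open FG

/-- The formula has no counting gates. -/
def CountFree {V : Type} : Form V → Prop
  | .var _ => True
  | .neg φ => CountFree φ
  | .conj _ F => ∀ i, CountFree (F i)
  | .disj _ F => ∀ i, CountFree (F i)
  | .count _ _ _ => False

/-- The formulas `L 0, ..., L (l - 1)` form a mixed derivation from `Φ`: the counting gates of the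
line `i` count modulo the prime `τ i`, which is in `Q`, the line has depth at most `d`, and it is
in `Φ` or follows by a rule in `S (τ i)` from earlier lines each of which counts modulo the same
prime or has no counting gates. -/
def IsMixed {V : Type} (Q : Finset ℕ) (S : ℕ → Set Rule) (d : ℕ) (Φ : Set (Form V)) {l : ℕ}
    (τ : Fin l → ℕ) (L : Fin l → Form V) : Prop :=
  ∀ i, τ i ∈ Q ∧ (L i).depth ≤ d ∧ (L i ∈ Φ ∨
    ∃ R ∈ S (τ i), R.Derives {ψ | ∃ j, j < i ∧ L j = ψ ∧ (τ j = τ i ∨ CountFree ψ)} (L i))

/-- A mixed refutation of the clauses of `F`, or a mixed proof of the tautology `¬ F`, of depth at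
most `d`. -/
def MixedRefutes {V : Type} (Q : Finset ℕ) (S : ℕ → Set Rule) (d : ℕ)
    (F : List (List (V × Bool))) {l : ℕ} (τ : Fin l → ℕ) (L : Fin l → Form V) : Prop :=
  (IsMixed Q S d {φ | ∃ D ∈ F, φ = clause D} τ L ∧ ∃ i, L i = falsum) ∨
    (IsMixed Q S d ∅ τ L ∧ ∃ i, L i = .neg (cnf F))

end Pool.Agent.MP_9cec2c_lc.MX
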