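import Pool.Agent.Lib.MP_9cec2c_lc.TTTriv
import Pool.Agent.Lib.MP_9cec2c_lc.Mg.G011

/-!
Elementary properties of the Tseitin formulas.
-/

set_option autoImplicit false
set_option linter.unusedSectionVars false

namespace Pool.Agent.MP_9cec2c_lc.TT

open Finset
open Flat (valueClauses eqClauses forbid2)
open FG (listCNF mem_listCNF Rule Refutes size Form)

variable {V E : Type} [Fintype V] [Fintype E] [DecidableEq V] [DecidableEq E] {src tgt : E → V}
  {r : ℕ} [NeZero r] {s : V → ZMod r}

theorem mem_tseitin {C : Finset ((E × ZMod r) × Bool)} : C ∈ tseitin src tgt r s ↔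
    (∃ e, C ∈ valueClauses r e) ∨ ∃ v, C ∈ eqClauses (inc src tgt v) (coef src tgt r v) (s v) := by
  unfold tseitin
  rw [mem_union, mem_biUnion, mem_biUnion]
  simp only [mem_univ, true_and]

/-- TASK TTCnf (1). The sum of an equation.

PROOF. `Finset.sum_filter`/`sum_subset`: outside `inc src tgt v` the coefficient is `0`. -/
theorem sum_inc (x : E → ZMod r) (v : V) :
    ∑ e ∈ inc src tgt v, coef src tgt r v e * x e = bd src tgt x v := by
  unfold inc bd coef
  rw [Finset.sum_filter_of_ne]
  intro e _ h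
  by_contra hcon
  push Not at hcon
  apply h
  rw [if_neg hcon.1, if_neg hcon.2, sub_zero, zero_mul]

/-- TASK TTCnf (2). The clauses of a family of values.

PROOF. `valueClauses`: the clause `{((e, c), true) | c}` is satisfied at `c = z e`, the clause
`{((e, q.1), false), ((e, q.2), false)}`, `q.1 ≠ q.2`, at the one of `q.1`, `q.2` which is not `z e`. -/
theorem holds_value (z : E → ZMod r) (e : E) :
    ∀ C ∈ valueClauses r e, ∃ l ∈ C, decide (z l.1.1 = l.1.2) = l.2 := by
  intro C hC
  rcases mem_insert.1 hC with rfl | hC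
  · refine ⟨((e, z e), true), mem_image.2 ⟨z e, mem_univ _, rfl⟩, ?_⟩
    exact decide_eq_true rfl
  · obtain ⟨q, hq, rfl⟩ := mem_image.1 hC
    have hq' : q.1 ≠ q.2 := (mem_filter.1 hq).2
    by_cases h : z e = q.1
    · refine ⟨((e, q.2), false), mem_insert_of_mem (mem_singleton_self _), ?_⟩
      exact decide_eq_false fun h' => hq' (h.symm.trans h')
    · exact ⟨((e, q.1), false), mem_insert_self _ _, decide_eq_false h⟩

/-- TASK TTCnf (3). The clauses of an equation which holds.

PROOF. `C = forbid2 (inc v) a` with `∑ i : inc v, coef i * a i ≠ s v`; if all its literals `((i, a i), false)` were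
false, then `z i = a i` for all `i ∈ inc v`, and the sum would be `bd z v = s v` (`sum_inc`, `Finset.sum_coe_sort`). -/
theorem holds_eq {z : E → ZMod r} {v : V} (h : bd src tgt z v = s v) :
    ∀ C ∈ eqClauses (inc src tgt v) (coef src tgt r v) (s v),
      ∃ l ∈ C, decide (z l.1.1 = l.1.2) = l.2 := by
  intro C hC
  obtain ⟨a, ha, rfl⟩ := mem_image.1 hC
  have ha' : ∑ i : inc src tgt v, coef src tgt r v i * a i ≠ s v := (mem_filter.1 ha).2
  by_contra hcon
  push Not at hcon
  apply ha'
  have h1 : ∀ i : inc src tgt v, z (i : E) = a i := by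
    intro i
    have h2 := hcon (((i : E), a i), false) (mem_image.2 ⟨i, mem_univ _, rfl⟩)
    by_contra h3
    exact h2 (decide_eq_false h3)
  rw [← h, ← sum_inc, ← Finset.sum_coe_sort (inc src tgt v)
    (fun e => coef src tgt r v e * z e)]
  exact Finset.sum_congr rfl fun i _ => by rw [h1 i]

/-- TASK TTCnf (4). The formula is unsatisfiable.

PROOF. Otherwise some `x` satisfies all clauses. By `Flat.value_of_sat` every edge has a value `z e`, and by
`CQ.eq_of_holds` (or `Flat.eq_of_sat`) and `sum_inc` `bd z v = s v` for all `v`. But the sum of `bd z v` over all `v` is `0`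
(exchange the sums). -/
theorem tseitin_unsat (hs : ∑ v, s v ≠ 0) (x : E × ZMod r → Bool) :
    ∃ D ∈ tseitinCNF src tgt r s, ∀ l ∈ D, x l.1 ≠ l.2 := by
  by_contra hcon
  push Not at hcon
  have hsat : ∀ C ∈ tseitin src tgt r s, ∃ l ∈ C, x l.1 = l.2 := by
    intro C hC
    obtain ⟨l, hl, hx⟩ := hcon C.toList (mem_listCNF.2 ⟨C, hC, rfl⟩)
    exact ⟨l, Finset.mem_toList.1 hl, hx⟩
  have hval : ∀ e : E, ∃ c : ZMod r, ∀ c' : ZMod r, x (e, c') = decide (c' = c) := fun e =>
    Flat.value_of_sat e x fun K hK => hsat K (mem_tseitin.2 (Or.inl ⟨e, hK⟩))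
  choose z hz using hval
  have h1 : ∀ v, bd src tgt z v = s v := by
    intro v
    rw [← sum_inc]
    exact Flat.eq_of_sat _ _ _ x z hz fun K hK => hsat K (mem_tseitin.2 (Or.inr ⟨v, hK⟩))
  apply hs
  rw [← Finset.sum_congr rfl fun v _ => h1 v]
  unfold bd
  rw [Finset.sum_comm]
  refine Finset.sum_eq_zero fun e _ => ?_
  rw [← Finset.sum_mul, Finset.sum_sub_distrib, Finset.sum_ite_eq, Finset.sum_ite_eq,
    if_pos (mem_univ _), if_pos (mem_univ _), sub_self, zero_mul]

/-- TASK TTCnf (5). The width.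

PROOF. See `Flat.tseitinMod_width`, `Flat.tseitinMod_card` in `FLForm2` for the same facts about `tseitinMod`. -/
theorem tseitin_width {Δ : ℕ} (hr : 2 ≤ r) (hΔ : ∀ v, (inc src tgt v).card ≤ Δ) :
    ∀ D ∈ tseitinCNF src tgt r s, D.length ≤ max r Δ := by
  intro D hD
  obtain ⟨κ, hκ, rfl⟩ := mem_listCNF.1 hD
  rw [Finset.length_toList]
  rcases mem_tseitin.1 hκ with ⟨e, h⟩ | ⟨v, h⟩
  · exact (Flat.width_valueClauses e κ h).trans (max_le (le_max_left _ _)
      (hr.trans (le_max_left _ _)))
  · obtain ⟨a, -, rfl⟩ := mem_image.1 h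
    exact (Flat.card_forbid2 _ a).trans ((hΔ v).trans (le_max_right _ _))

/-- TASK TTCnf (6). The number of clauses. -/
theorem tseitin_length {Δ : ℕ} (hΔ : ∀ v, (inc src tgt v).card ≤ Δ) :
    (tseitinCNF src tgt r s).length ≤
      (r ^ 2 + 1) * Fintype.card E + r ^ Δ * Fintype.card V := by
  unfold tseitinCNF listCNF
  rw [List.length_map, Finset.length_toList]
  unfold tseitin
  refine (card_union_le _ _).trans ?_
  have hr : 0 < r := Nat.pos_of_ne_zero (NeZero.ne r)
  have h0 : (univ.biUnion fun e : E => valueClauses r e).card ≤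
      (r ^ 2 + 1) * Fintype.card E := by
    refine (card_biUnion_le_card_mul _ _ (r ^ 2 + 1)
      (fun e _ => Flat.card_valueClauses e)).trans ?_
    rw [card_univ, mul_comm]
  have h1 : (univ.biUnion fun v : V =>
      eqClauses (inc src tgt v) (coef src tgt r v) (s v)).card ≤ r ^ Δ * Fintype.card V := by
    refine (card_biUnion_le_card_mul _ _ (r ^ Δ) (fun v _ => ?_)).trans ?_
    · exact (Flat.card_eqClauses _ _ _).trans (Nat.pow_le_pow_right hr (hΔ v))
    · rw [card_univ, mul_comm]
  exact Nat.add_le_add h0 h1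

end Pool.Agent.MP_9cec2c_lc.TT
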