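import Pool.Agent.Lib.MP_9cec2c_lc.TTDefs
import Pool.Agent.Lib.MP_9cec2c_lc.CEFinal

/-!
The clauses of the Tseitin formulas as formulas.
-/

set_option autoImplicit false
set_option linter.unusedSectionVars false

namespace Pool.Agent.MP_9cec2c_lc.TU

open Finset TT FG

variable {V E : Type} [Fintype V] [Fintype E] [DecidableEq V] [DecidableEq E]
  {src tgt : E → V} {r : ℕ} [NeZero r] {s : V → ZMod r}

/-- The clauses as formulas. -/
def Axs (src tgt : E → V) (r : ℕ) [NeZero r] (s : V → ZMod r) : Set (Form (E × ZMod r)) :=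
  {φ | ∃ D ∈ tseitinCNF src tgt r s, φ = clause D}

/-- TASK TUAx (1). The clauses of the equations. (See the proof of `CE.cov_partition` for a model of (1)-(3); `mem_listCNF`.)

PROOF. The clause is `forbid2 (inc src tgt v) (fun i => α i)`, and `Λ` is `(forbid2 ..).toList.map lit`. -/
theorem eq_axiom (v : V) (α : E → ZMod r)
    (h : ∑ i : inc src tgt v, coef src tgt r v i * α i ≠ s v) :
    ∃ Λ : List (Form (E × ZMod r)), disjL Λ ∈ Axs src tgt r s ∧ Λ.length ≤ (inc src tgt v).card ∧
      ∀ φ ∈ Λ, ∃ e ∈ inc src tgt v, φ = .neg (.var (e, α e)) := by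
  have h1 : Flat.forbid2 (inc src tgt v) (fun i => α i) ∈ tseitin src tgt r s := by
    unfold tseitin Flat.eqClauses
    refine Finset.mem_union_right _ (Finset.mem_biUnion.2 ⟨v, Finset.mem_univ v, ?_⟩)
    exact Finset.mem_image.2 ⟨fun i => α i, Finset.mem_filter.2 ⟨Finset.mem_univ _, h⟩, rfl⟩
  obtain ⟨κ, hκ⟩ : ∃ κ, κ = Flat.forbid2 (inc src tgt v) (fun i => α i) := ⟨_, rfl⟩
  rw [← hκ] at h1
  have h2 : κ.toList ∈ tseitinCNF src tgt r s := mem_listCNF.2 ⟨κ, h1, rfl⟩
  refine ⟨κ.toList.map lit, ⟨κ.toList, h2, rfl⟩, ?_, ?_⟩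
  · rw [List.length_map, Finset.length_toList, hκ]
    refine Finset.card_image_le.trans ?_
    simp
  · intro φ hφ
    obtain ⟨l, hl, rfl⟩ := List.mem_map.1 hφ
    rw [Finset.mem_toList, hκ] at hl
    obtain ⟨i, -, rfl⟩ := Finset.mem_image.1 hl
    exact ⟨i, i.2, rfl⟩

/-- TASK TUAx (2). Every edge has a value. `D = (the clause).toList.map fun l => l.1.2`; its length is at most `r` (`ZMod.card`,
`card_image_le`). -/
theorem value_axiom (e : E) : ∃ D : List (ZMod r), D.length ≤ r ∧
    disjL (D.map fun c => Form.var (e, c)) ∈ Axs src tgt r s := by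
  obtain ⟨κ, hκ⟩ : ∃ κ : Finset ((E × ZMod r) × Bool), κ = univ.image fun c => ((e, c), true) :=
    ⟨_, rfl⟩
  have h1 : κ ∈ tseitin src tgt r s := by
    unfold tseitin Flat.valueClauses
    refine Finset.mem_union_left _ (Finset.mem_biUnion.2 ⟨e, Finset.mem_univ e, ?_⟩)
    rw [← hκ]
    exact Finset.mem_insert_self _ _
  have h2 : κ.toList ∈ tseitinCNF src tgt r s := mem_listCNF.2 ⟨κ, h1, rfl⟩
  refine ⟨κ.toList.map fun l => l.1.2, ?_, ⟨κ.toList, h2, ?_⟩⟩
  · rw [List.length_map, Finset.length_toList, hκ]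
    refine Finset.card_image_le.trans ?_
    rw [Finset.card_univ, ZMod.card]
  · unfold clause
    rw [List.map_map]
    refine congrArg disjL (List.map_congr_left fun l hl => ?_)
    rw [Finset.mem_toList, hκ] at hl
    obtain ⟨c, -, rfl⟩ := Finset.mem_image.1 hl
    rfl

/-- TASK TUAx (3). Every edge has only one value. -/
theorem pair_axiom (e : E) (a a' : ZMod r) (h : a ≠ a') :
    disjL [.neg (.var (e, a)), .neg (.var (e, a'))] ∈ Axs src tgt r s ∨
      disjL [.neg (.var (e, a')), .neg (.var (e, a))] ∈ Axs src tgt r s := by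
  obtain ⟨κ, hκ⟩ : ∃ κ : Finset ((E × ZMod r) × Bool), κ = {((e, a), false), ((e, a'), false)} :=
    ⟨_, rfl⟩
  have h0 : κ ∈ tseitin src tgt r s := by
    unfold tseitin Flat.valueClauses
    refine Finset.mem_union_left _ (Finset.mem_biUnion.2 ⟨e, Finset.mem_univ e, ?_⟩)
    refine Finset.mem_insert_of_mem (Finset.mem_image.2 ⟨(a, a'), ?_, hκ.symm⟩)
    exact Finset.mem_filter.2 ⟨Finset.mem_univ _, h⟩
  have h1 : κ.toList ∈ tseitinCNF src tgt r s := mem_listCNF.2 ⟨κ, h0, rfl⟩
  have hne : ((e, a), false) ≠ ((e, a'), false) := fun h' => h (by simpa using h')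
  have h2 : κ.toList.Perm [((e, a), false), ((e, a'), false)] := by
    refine (List.perm_ext_iff_of_nodup (Finset.nodup_toList κ) ?_).2 fun l => ?_
    · simpa using hne
    · rw [Finset.mem_toList, hκ]
      simp
  have h3 : κ.toList = [((e, a), false), ((e, a'), false)] ∨
      κ.toList = [((e, a'), false), ((e, a), false)] := by
    have h4 := h2.length_eq
    obtain ⟨x, y, hab⟩ := List.length_eq_two.1 h4
    rw [hab] at h2 ⊢
    have ha : x ∈ [((e, a), false), ((e, a'), false)] := h2.mem_iff.1 List.mem_cons_self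
    simp only [List.mem_cons, List.not_mem_nil, or_false] at ha
    rcases ha with rfl | rfl
    · have h5 := List.singleton_perm_singleton.1 ((List.perm_cons _).1 h2)
      exact Or.inl (by rw [h5])
    · have h5 := List.singleton_perm_singleton.1
        ((List.perm_cons _).1 (h2.trans (List.Perm.swap _ _ _)))
      exact Or.inr (by rw [h5])
  rcases h3 with h3 | h3
  · refine Or.inl ⟨κ.toList, h1, ?_⟩
    rw [h3]
    rfl
  · refine Or.inr ⟨κ.toList, h1, ?_⟩
    rw [h3]
    rfl

end Pool.Agent.MP_9cec2c_lc.TU
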