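import Pool.Agent.Lib.MP_9cec2c_lc.TULoc2
import Pool.Agent.Lib.MP_9cec2c_lc.Mg.G022
import Pool.Agent.Lib.MP_9cec2c_lc.TUAx

/-!
Short refutations of the Tseitin formulas modulo `r` with counting gates modulo `p`, if `p` divides
the order of the total charge.
-/

set_option autoImplicit false
set_option linter.unusedSectionVars false

namespace Pool.Agent.MP_9cec2c_lc.TU

open Finset TT FG CE

/-! ### Polynomial bounds -/

theorem PB_comp {f g : ℕ → ℕ} (hf : PB f) (hg : PB g) : PB fun M => f (g M) := by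
  obtain ⟨k, hk⟩ := hf
  obtain ⟨l, hl⟩ := hg
  refine ⟨(l + 2) * k, fun M => (hk _).trans ?_⟩
  rw [pow_mul]
  refine Nat.pow_le_pow_left ?_ k
  have h1 : 1 ≤ (M + 2) ^ l := Nat.one_le_pow _ _ (by omega)
  have h2 : 2 ^ 2 ≤ (M + 2) ^ 2 := Nat.pow_le_pow_left (by omega) 2
  have h3 := hl M
  calc g M + 2 ≤ (M + 2) ^ l * 4 := by omega
    _ ≤ (M + 2) ^ l * (M + 2) ^ 2 := Nat.mul_le_mul_left _ h2
    _ = (M + 2) ^ (l + 2) := by rw [pow_add]

/-- The total bound. -/
def tot (r Δ n' v : ℕ) : ℕ :=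
  (cost4 v r ((v + 1) ^ r) v + (v + v * v) * n') *
    (bd v r ((v + 1) ^ r) v * (Δ + 2) + (v * (Δ + 2) + 6 * (Δ + 1) + r + 10) + 1)

theorem pb_tot (r Δ n' : ℕ) : PB (tot r Δ n') := by
  have hv : PB fun M => M := by
    obtain ⟨k, hk⟩ := PB.base
    exact ⟨k, fun M => (Nat.le_add_right M 2).trans (hk M)⟩
  have hF : PB fun M => (M + 1) ^ r := (hv.add (PB.const 1)).pow r
  have h1 : PB fun M => cost1 M r := (PB.const 2).add (hv.mul (PB.const _))
  have h2 : PB fun M => cost2 M r ((M + 1) ^ r) r :=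
    (PB.const 1).add ((PB.const r).mul ((PB.const 1).add (hF.mul (h1.add (PB.const 1)))))
  have h3 : PB fun M => cost3 M r ((M + 1) ^ r) :=
    (h2.add (PB.const 2)).add (hF.mul ((hF.mul (PB.const 4)).add (PB.const 3)))
  have h4 : PB fun M => cost4 M r ((M + 1) ^ r) M :=
    (((PB.const 1).add (hv.mul (h3.add (PB.const 1)))).add ((PB.const 2).mul (hv.mul hF))).add
      (PB.const 1)
  have h5 : PB fun M => bd M r ((M + 1) ^ r) M :=
    (((hv.add (((PB.const 2).mul hF).mul (PB.const (r + 1)))).add (PB.const (3 * r))).add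
      (PB.const 10)).add ((hv.mul hF).mul (PB.const (r + 1)))
  exact (h4.add ((hv.add (hv.mul hv)).mul (PB.const n'))).mul
    (((h5.mul (PB.const (Δ + 2))).add (((((hv.mul (PB.const (Δ + 2))).add
      (PB.const (6 * (Δ + 1)))).add (PB.const r)).add (PB.const 10)))).add (PB.const 1))

/-- The bound for the numbers of points and blocks. -/
def big (r Δ M : ℕ) : ℕ := (2 * r * M) + (r + r ^ Δ) * M + (2 * r * M + 1) ^ r

theorem pb_big (r Δ : ℕ) : PB (big r Δ) := by
  have hv : PB fun M => M := by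
    obtain ⟨k, hk⟩ := PB.base
    exact ⟨k, fun M => (Nat.le_add_right M 2).trans (hk M)⟩
  exact (((PB.const (2 * r)).mul hv).add ((PB.const (r + r ^ Δ)).mul hv)).add
    ((((PB.const (2 * r)).mul hv).add (PB.const 1)).pow r)

variable {V E : Type} [Fintype V] [Fintype E] [DecidableEq V] [DecidableEq E]
  {src tgt : E → V} {r : ℕ} [NeZero r] {s : V → ZMod r}

open Classical in
/-- The blocks of a point. -/
noncomputable def ptD (src tgt : E → V) (z : Pt V E r s) : List (Blk src tgt r s) :=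
  (univ.filter fun u => z ∈ blk u).toList

open Classical in
/-- The clauses of the partition principle as formulas. -/
noncomputable def axl (src tgt : E → V) (r : ℕ) [NeZero r] (s : V → ZMod r) :
    List (Form (Blk src tgt r s)) :=
  ((univ : Finset (Pt V E r s)).toList.map fun z => disjL ((ptD src tgt z).map .var)) ++
    ((univ.filter fun q : Blk src tgt r s × Blk src tgt r s =>
      q.1 ≠ q.2 ∧ ¬ Disjoint (blk q.1) (blk q.2)).toList.map
        fun q => disjL [.neg (.var q.1), .neg (.var q.2)])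

theorem mem_ptD {z : Pt V E r s} {u : Blk src tgt r s} : u ∈ ptD src tgt z ↔ z ∈ blk u := by
  unfold ptD
  rw [mem_toList, mem_filter]
  exact ⟨fun h => h.2, fun h => ⟨mem_univ _, h⟩⟩

theorem length_ptD (z : Pt V E r s) :
    (ptD src tgt z).length ≤ Fintype.card (Blk src tgt r s) := by
  unfold ptD
  rw [length_toList]
  exact card_le_univ _

theorem cov_axl : Cov {φ | φ ∈ axl src tgt r s} (blk (src := src) (tgt := tgt) (s := s)) := by
  classical
  refine ⟨fun z => ⟨ptD src tgt z, fun u hu => mem_ptD.1 hu, length_ptD z, ?_⟩,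
    fun u v huv hd => Or.inl ?_⟩
  · exact List.mem_append_left _ (List.mem_map.2 ⟨z, mem_toList.2 (mem_univ z), rfl⟩)
  · exact List.mem_append_right _ (List.mem_map.2 ⟨(u, v), mem_toList.2 (mem_filter.2
      ⟨mem_univ _, huv, hd⟩), rfl⟩)

theorem length_axl {v : ℕ} (h1 : Fintype.card (Pt V E r s) ≤ v)
    (h2 : Fintype.card (Blk src tgt r s) ≤ v) : (axl src tgt r s).length ≤ v + v * v := by
  classical
  unfold axl
  rw [List.length_append, List.length_map, List.length_map, length_toList, length_toList,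
    card_univ]
  refine Nat.add_le_add h1 ((card_le_univ _).trans ?_)
  rw [Fintype.card_prod]
  exact Nat.mul_le_mul h2 h2

theorem costB_pos (r m k : ℕ) (hm : 3 ≤ m) (hr : 1 ≤ r) : 3 ≤ costB r m k := by
  induction k with
  | zero => exact hm
  | succ k ih =>
    show 3 ≤ 2 + r * (costB r m k + 1)
    nlinarith

/-- The derivations of the clauses of the partition principle. -/
theorem der_axl {p Δ : ℕ} (hΔ : ∀ v, (inc src tgt v).card ≤ Δ) {P : ℕ}
    (hP : Fintype.card (Blk src tgt r s) * (Δ + 2) + 6 * (Δ + 1) + r + 10 ≤ P) :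
    ∀ φ ∈ axl src tgt r s, DN p P (Axs src tgt r s ∪ kNs (E × ZMod r))
      (costB r (2 + (Δ + 2) * 2) (Δ + 1)) (subst (psi lits) φ) := by
  classical
  have hr : 1 ≤ r := Nat.pos_of_ne_zero (NeZero.ne r)
  intro φ hφ
  rcases List.mem_append.1 hφ with hφ | hφ
  · obtain ⟨z, -, rfl⟩ := List.mem_map.1 hφ
    rw [subst_disjL, List.map_map]
    obtain ⟨v, hv⟩ := exists_block (src := src) (tgt := tgt) z
    refine d_pt hr Set.subset_union_right (inc src tgt v).toList (nodup_toList _) (b := Δ + 1)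
      (w := Fintype.card (Blk src tgt r s)) ?_ (fun e _ => ?_) (ptD src tgt z)
      (fun u _ => length_lits hΔ u) (length_ptD z) (fun α => ?_) hP
    · rw [length_toList]
      exact (hΔ v).trans (Nat.le_succ Δ)
    · obtain ⟨D, hD, hD'⟩ := value_axiom (src := src) (tgt := tgt) (s := s) e
      exact ⟨D, hD, Or.inl hD'⟩
    · by_cases h : ∑ i : inc src tgt v, coef src tgt r v i * α i = s v
      · obtain ⟨u, hu, hu'⟩ := hv α h
        exact Or.inr ⟨u, mem_ptD.2 hu, fun l hl => ⟨mem_toList.2 (hu' l hl).1, (hu' l hl).2⟩⟩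
      · obtain ⟨Λ, hΛ, hlen, hm⟩ := eq_axiom v α h
        refine Or.inl ⟨Λ, Or.inl hΛ, hlen.trans ((hΔ v).trans (Nat.le_succ Δ)), fun φ hφ => ?_⟩
        obtain ⟨e, he, rfl⟩ := hm φ hφ
        exact ⟨e, mem_toList.2 he, rfl⟩
  · obtain ⟨⟨u, u'⟩, hq, rfl⟩ := List.mem_map.1 hφ
    obtain ⟨-, huu, hd⟩ := mem_filter.1 (mem_toList.1 hq)
    rw [subst_disjL]
    obtain ⟨e, a, a', haa, hu, hu'⟩ := pair_lits huu hd
    refine (d_pr (fun e a a' h => ?_) haa hu hu' ?_).mono (costB_pos _ _ _ (by omega) hr)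
    · rcases pair_axiom (src := src) (tgt := tgt) (s := s) e a a' h with h | h
      · exact Or.inl (Or.inl h)
      · exact Or.inr (Or.inl h)
    · have h1 := length_lits hΔ u
      have h2 := length_lits hΔ u'
      show (lits u).length + (lits u').length + 10 ≤ P
      omega

theorem wt_psi {Δ : ℕ} (hΔ : ∀ v, (inc src tgt v).card ≤ Δ) (u : Blk src tgt r s) :
    wt (psi lits u) ≤ Δ + 2 := by
  unfold psi
  rw [wt_conjL, wtL_vars]
  exact Nat.succ_le_succ (length_lits hΔ u)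

theorem dp_psi (u : Blk src tgt r s) : (psi lits u).depth ≤ 1 := by
  unfold psi
  refine dp_conj (e := 0) fun φ hφ => ?_
  obtain ⟨l, -, rfl⟩ := List.mem_map.1 hφ
  exact le_rfl

/-- **Short refutations of the Tseitin formulas**, if `p` divides the order of the total charge. -/
theorem easy_lin (p : ℕ) (hp : p.Prime) (r Δ : ℕ) [NeZero r] : ∃ C : ℕ, ∀ (V E : Type)
    [Fintype V] [Fintype E] [DecidableEq V] [DecidableEq E] (src tgt : E → V),
    (∀ v, (inc src tgt v).card ≤ Δ) → ∀ s : V → ZMod r, p ∣ addOrderOf (∑ v, s v) →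
      ∃ (n P : ℕ) (Ls : List (Form (E × ZMod r))), Lin (insert kN (ceRules p)) 4
          {φ | ∃ D ∈ tseitinCNF src tgt r s, φ = clause D} Ls ∧
        falsum ∈ Ls ∧ Ls.length ≤ n ∧ (∀ φ ∈ Ls, wt φ ≤ P) ∧
        n * (P + 1) ≤ (Fintype.card V + Fintype.card E + 2) ^ C := by
  classical
  obtain ⟨n', hn'⟩ : ∃ n', n' = costB r (2 + (Δ + 2) * 2) (Δ + 1) := ⟨_, rfl⟩
  obtain ⟨C, hC⟩ := PB_comp (pb_tot r Δ n') (pb_big r Δ)
  refine ⟨C, fun V E _ _ _ _ src tgt hΔ s hs => ?_⟩
  obtain ⟨v, hv⟩ : ∃ v, v = big r Δ (Fintype.card V + Fintype.card E) := ⟨_, rfl⟩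
  have hC' : tot r Δ n' v ≤ (Fintype.card V + Fintype.card E + 2) ^ C := by
    rw [hv]
    exact hC _
  have hr : 1 ≤ r := Nat.pos_of_ne_zero (NeZero.ne r)
  have hnd : ¬ p ^ r.factorization p ∣ Fintype.card (Pt V E r s) := not_dvd_pt hp hs
  have hQ0 : 0 < Fintype.card (Pt V E r s) := by
    rcases Nat.eq_zero_or_pos (Fintype.card (Pt V E r s)) with h | h
    · exact absurd (h ▸ dvd_zero _) hnd
    · exact h
  have hqr : p ^ r.factorization p ∣ r := Nat.ordProj_dvd r p
  have hqr' : p ^ r.factorization p ≤ r := Nat.le_of_dvd hr hqr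
  obtain ⟨F, hF⟩ : ∃ F, F = (v + 1) ^ r := ⟨_, rfl⟩
  obtain ⟨t, ht, h⟩ := d_main (P := bd v r F v) (cov_axl (src := src) (tgt := tgt) (s := s)) hp
    (a := r.factorization p) (fun u => hqr.trans (card_blk u)) hQ0 hnd
  have htr : t ≤ r := (ht.le).trans hqr'
  have hcard : Fintype.card (Blk src tgt r s) ≤ v := by
    refine (card_Blk_le hΔ).trans ?_
    rw [hv]
    unfold big
    omega
  have hcardQ : Fintype.card (Pt V E r s) ≤ 2 * r * (Fintype.card V + Fintype.card E) :=
    card_pt_le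
  have hcardQ' : Fintype.card (Pt V E r s) ≤ v := by
    refine hcardQ.trans ?_
    rw [hv]
    unfold big
    omega
  have hJ : (Fintype.card (Pt V E r s)).choose t ≤ v := by
    refine (Nat.choose_le_pow _ t).trans ((Nat.pow_le_pow_left (Nat.le_succ _) t).trans
      ((Nat.pow_le_pow_right (Nat.succ_pos _) htr).trans
        ((Nat.pow_le_pow_left (Nat.succ_le_succ hcardQ) r).trans ?_)))
    rw [hv]
    unfold big
    exact Nat.le_add_left _ _
  have hFam : ∀ T : Finset (Pt V E r s), T.card ≤ t →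
      (fam (blk (src := src) (tgt := tgt) (s := s)) T).card ≤ F := by
    intro T hT
    rw [hF]
    refine (card_fam _ T).trans ((Nat.pow_le_pow_left (hcard.trans (Nat.le_succ v)) _).trans
      (Nat.pow_le_pow_right (Nat.succ_pos v) (hT.trans htr)))
  have h1 : Fintype.card (Blk src tgt r s) + 2 * F * (t + 1) + 3 * t + 10 ≤ bd v r F v := by
    have h2 : Fintype.card (Blk src tgt r s) + 2 * F * (t + 1) + 3 * t + 10 ≤
        v + 2 * F * (r + 1) + 3 * r + 10 := by gcongr
    unfold bd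
    omega
  have h2 : (Fintype.card (Pt V E r s)).choose t * F * (t + 1) + 1 ≤ bd v r F v := by
    have h3 : (Fintype.card (Pt V E r s)).choose t * F * (t + 1) ≤ v * F * (r + 1) := by gcongr
    unfold bd
    omega
  have h3 := h F hFam h1 h2
  obtain ⟨P', hP'⟩ : ∃ P', P' = v * (Δ + 2) + 6 * (Δ + 1) + r + 10 := ⟨_, rfl⟩
  obtain ⟨Ls, hLs, hf, hlen, hwt⟩ := main_subst (W := Δ + 2) (P' := P') dp_psi (wt_psi hΔ)
    (by omega) (axl src tgt r s) (fun φ hφ => hφ) h3 (der_axl (p := p) hΔ (by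
      rw [hP']
      have h4 := Nat.mul_le_mul_right (Δ + 2) hcard
      omega))
  refine ⟨_, _, Ls, Lin_kN hLs, hf, le_rfl, hwt, le_trans ?_ hC'⟩
  unfold tot
  rw [← hF, ← hP']
  refine Nat.mul_le_mul_right _ (hlen.trans ?_)
  have h4 := length_axl hcardQ' hcard
  rw [← hn']
  refine Nat.add_le_add ?_ (Nat.mul_le_mul_right _ h4)
  unfold cost4 cost3 cost2 cost1
  gcongr

/-- Short refutations as sequences. -/
theorem easy_tseitin (p : ℕ) (hp : p.Prime) (r Δ : ℕ) [NeZero r] : ∃ C : ℕ, ∀ (V E : Type)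
    [Fintype V] [Fintype E] [DecidableEq V] [DecidableEq E] (src tgt : E → V),
    (∀ v, (inc src tgt v).card ≤ Δ) → ∀ s : V → ZMod r, p ∣ addOrderOf (∑ v, s v) →
      ∃ (l : ℕ) (L : Fin l → Form (E × ZMod r)),
        IsDerivation (insert kN (ceRules p)) 4
          {φ | ∃ D ∈ tseitinCNF src tgt r s, φ = clause D} L ∧
        (∃ i, L i = falsum) ∧ size L ≤ (Fintype.card V + Fintype.card E + 2) ^ C := by
  obtain ⟨C, hC⟩ := easy_lin p hp r Δ
  refine ⟨C, fun V E _ _ _ _ src tgt hΔ s hs => ?_⟩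
  obtain ⟨n, P, Ls, h1, h2, h3, h4, h5⟩ := hC V E src tgt hΔ s hs
  obtain ⟨l, L, hL, hsize⟩ := Lin_exists h1 h2 h3 h4
  exact ⟨l, L, hL.1, hL.2, hsize.trans h5⟩

end Pool.Agent.MP_9cec2c_lc.TU
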