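import Pool.Agent.Lib.MP_9cec2c_lc.CTPair
import Pool.Agent.Lib.MP_9cec2c_lc.Mg.G025
import Pool.Agent.Lib.MP_9cec2c_lc.TUFin

/-!
Constraints closed under minority have short refutations with counting gates modulo 2.
-/

set_option autoImplicit false
set_option linter.unusedSectionVars false

namespace Pool.Agent.MP_9cec2c_lc.CT

open Finset FG
open TT (inc coef tseitin tseitinCNF mem_tseitin)
open Flat (valueClauses eqClauses forbid2)
open TY (tyRules Lines Lit lines_card lines_depth)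
open TU (subst subst_disjL Lin_subst subst_falsum kN Lin_exists easy_lin)
open CE (ceRules wt wtL)

/-! ### Derivations put together -/

/-- Derivations of all members of a list, with all lines in `U`. -/
theorem extend_all {V : Type} {S : Set Rule} {d : ℕ} {Φ U : Set (Form V)}
    (hd : ∀ ψ ∈ U, ψ.depth ≤ d) (Ψ : List (Form V)) (h : ∀ φ ∈ Ψ, TY.Der S Φ U φ) :
    ∃ Ls, Lin S d Φ Ls ∧ Ls.Nodup ∧ (∀ ψ ∈ Ls, ψ ∈ U) ∧ ∀ φ ∈ Ψ, φ ∈ Ls := by
  induction Ψ with
  | nil =>
    exact ⟨[], Lin.nil, List.nodup_nil, fun ψ hψ => absurd hψ List.not_mem_nil,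
      fun ψ hψ => absurd hψ List.not_mem_nil⟩
  | cons φ Ψ ih =>
    obtain ⟨Ls, h1, h2, h3, h4⟩ := ih fun φ hφ => h φ (List.mem_cons_of_mem _ hφ)
    obtain ⟨Ls', k1, k2, k3, k4, k5⟩ := (h φ List.mem_cons_self).extend hd Ls h1 h2 h3
    refine ⟨Ls', k1, k2, k3, fun ψ hψ => ?_⟩
    rcases List.mem_cons.1 hψ with rfl | hψ
    · exact k5
    · exact k4 ψ (h4 ψ hψ)

/-- The axioms of a derivation are replaced by their derivations. -/
theorem replace {V : Type} {S : Set Rule} {d : ℕ} {Φ Φ' : Set (Form V)} {Ls Ls₀ : List (Form V)}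
    (h₀ : Lin S d Φ Ls₀) (hΦ : ∀ φ ∈ Φ', φ ∈ Ls₀) (h : Lin S d Φ' Ls) :
    ∃ Ls', Lin S d Φ (Ls' ++ Ls₀) ∧ (∀ φ ∈ Ls, φ ∈ Ls' ++ Ls₀) ∧ Ls'.length ≤ Ls.length ∧
      ∀ φ ∈ Ls', φ ∈ Ls := by
  induction h with
  | nil =>
    exact ⟨[], h₀, fun φ hφ => absurd hφ List.not_mem_nil, le_rfl, fun φ hφ => hφ⟩
  | cons φ Ls h hd hr ih =>
    obtain ⟨Ls', h1, h2, h3, h4⟩ := ih
    rcases hr with hr | ⟨R, hR, hr⟩
    · refine ⟨Ls', h1, fun ψ hψ => ?_, h3.trans (Nat.le_succ _),
        fun ψ hψ => List.mem_cons_of_mem _ (h4 ψ hψ)⟩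
      rcases List.mem_cons.1 hψ with rfl | hψ
      · exact List.mem_append_right _ (hΦ _ hr)
      · exact h2 ψ hψ
    · refine ⟨φ :: Ls', Lin.cons φ _ h1 hd (Or.inr ⟨R, hR, hr.mono fun ψ hψ => h2 ψ hψ⟩),
        fun ψ hψ => ?_, Nat.succ_le_succ h3, fun ψ hψ => ?_⟩
      · rcases List.mem_cons.1 hψ with rfl | hψ
        · exact List.mem_cons_self
        · exact List.mem_cons_of_mem _ (h2 ψ hψ)
      · rcases List.mem_cons.1 hψ with rfl | hψ
        · exact List.mem_cons_self
        · exact List.mem_cons_of_mem _ (h4 ψ hψ)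

theorem wt_line {V : Type} {c : ℕ} {φ : Form V}
    (h : φ ∈ Lines (Set.range Form.var : Set (Form V)) c) : wt φ ≤ 2 * c + 1 := by
  obtain ⟨Λ, h1, h2, rfl⟩ := h
  rw [CE.wt_disjL]
  have h3 : wtL Λ ≤ Λ.length * 2 := by
    refine CE.wtL_le fun φ hφ => ?_
    rcases h2 φ hφ with ⟨v, rfl⟩ | ⟨ψ, ⟨v, rfl⟩, rfl⟩
    · show 1 ≤ 2
      omega
    · show 1 + 1 ≤ 2
      omega
  omega

/-! ### The renamed clauses -/

/-- The bit with a given value modulo 2. -/
def ofMod (c : ZMod 2) : Bool := decide (c = 1)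

theorem bit_ofMod (c : ZMod 2) : bit (ofMod c) = c := by
  revert c
  decide

theorem ofMod_inj {c c' : ZMod 2} (h : ofMod c = ofMod c') : c = c' := by
  rw [← bit_ofMod c, ← bit_ofMod c', h]

/-- The variable of the edge `e` for the value `c` becomes the variable `var e` with this value. -/
def ren {E X : Type} (var : E → X) (l : (E × ZMod 2) × Bool) : (X × Bool) × Bool :=
  ((var l.1.1, ofMod l.1.2), l.2)

theorem lit_ren {E X : Type} (var : E → X) (l : (E × ZMod 2) × Bool) :
    subst (fun u : E × ZMod 2 => Form.var (var u.1, ofMod u.2)) (lit l) = lit (ren var l) := by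
  rcases l with ⟨⟨e, c⟩, t⟩
  cases t <;> rfl

theorem clause_ren {E X : Type} (var : E → X) (D : List ((E × ZMod 2) × Bool)) :
    subst (fun u : E × ZMod 2 => Form.var (var u.1, ofMod u.2)) (clause D) =
      clause (D.map (ren var)) := by
  unfold clause
  rw [subst_disjL, List.map_map, List.map_map]
  congr 1
  exact List.map_congr_left fun l _ => lit_ren var l

section

variable {X J E : Type} [Fintype X] [DecidableEq X] [Fintype J] [DecidableEq J] [Fintype E]
  [DecidableEq E] {F : Set (List ((X × Bool) × Bool))} {b : ℕ}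

/-- **The renamed clauses of the Tseitin formula** are derived. -/
theorem res_ren (hF : Enc F b) (h2 : 2 ≤ b) {k : J → ℕ} {x : ∀ j, Fin (k j) → X}
    {R : ∀ j, Set (Fin (k j) → Bool)} (hR : ∀ j, Has F b (x j) (R j)) (hk : ∀ j, 3 * k j ≤ b)
    {e : J → (X → ZMod 2) × ZMod 2} (he : ∀ j, e j ∈ Eqs (x j) (R j)) {src tgt : E → J}
    {var : E → X} (h0 : ∀ e, src e ≠ tgt e)
    (h1 : ∀ j, ∀ i ∈ inc src tgt j, var i ∈ univ.filter fun v => (e j).1 v = 1)
    (h3 : ∀ j, ∀ i ∈ inc src tgt j, ∀ i' ∈ inc src tgt j, var i = var i' → i = i')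
    (h4 : ∀ j, ∀ v ∈ univ.filter (fun v => (e j).1 v = 1), ∃ i ∈ inc src tgt j, var i = v)
    {D : List ((E × ZMod 2) × Bool)}
    (hD : D ∈ tseitinCNF src tgt 2 fun j => (e j).2) : Res F b (D.map (ren var)) := by
  classical
  obtain ⟨κ, hκ, rfl⟩ := mem_listCNF.1 hD
  rcases mem_tseitin.1 hκ with ⟨i, hi⟩ | ⟨j, hj⟩
  · unfold valueClauses at hi
    rcases mem_insert.1 hi with rfl | hi
    · obtain ⟨C, hC, hCb, h5⟩ := hF.some (var i)
      refine (Res.ax hC hCb).sub (fun l hl => ?_) ?_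
      · obtain ⟨h6, h7⟩ := h5 l hl
        refine List.mem_map.2 ⟨((i, bit l.1.2), true), mem_toList.2 (mem_image.2
          ⟨bit l.1.2, mem_univ _, rfl⟩), ?_⟩
        show ((var i, ofMod (bit l.1.2)), true) = l
        have h8 : ofMod (bit l.1.2) = l.1.2 := bit_inj (bit_ofMod _)
        rw [h8]
        refine Prod.ext (Prod.ext h6.symm rfl) h7.symm
      · rw [List.length_map, length_toList]
        refine card_image_le.trans ?_
        rw [card_univ, ZMod.card]
        exact h2
    · obtain ⟨⟨c, c'⟩, hc, rfl⟩ := mem_image.1 hi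
      have hc' : c ≠ c' := (mem_filter.1 hc).2
      obtain ⟨C, hC, hCb, h5⟩ := hF.uniq (var i) (ofMod c) (ofMod c')
        fun h => hc' (ofMod_inj h)
      refine (Res.ax hC hCb).sub (fun l hl => ?_) ?_
      · rcases h5 l hl with rfl | rfl
        · exact List.mem_map.2 ⟨((i, c), false), mem_toList.2 (mem_insert_self _ _), rfl⟩
        · exact List.mem_map.2 ⟨((i, c'), false), mem_toList.2 (mem_insert_of_mem
            (mem_singleton_self _)), rfl⟩
      · rw [List.length_map, length_toList]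
        exact card_le_two.trans h2
  · unfold eqClauses at hj
    obtain ⟨a, ha, rfl⟩ := mem_image.1 hj
    have ha' := (mem_filter.1 ha).2
    have hmem := he j
    rw [mem_Eqs] at hmem
    obtain ⟨m1, m2⟩ := hmem
    have hscope : ∀ i ∈ inc src tgt j, ∃ i', x j i' = var i := by
      intro i hi
      by_contra h5
      push Not at h5
      have h6 := m1 _ h5
      rw [(mem_filter.1 (h1 j i hi)).2] at h6
      exact absurd h6 (by decide)
    have hcard : (inc src tgt j).card ≤ k j := by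
      have h5 : (inc src tgt j).card ≤ ((univ : Finset (Fin (k j))).image (x j)).card := by
        refine card_le_card_of_injOn var (fun i hi => ?_) fun i hi i' hi' h => h3 j i hi i' hi' h
        obtain ⟨i', hi'⟩ := hscope i hi
        exact mem_coe.2 (mem_image.2 ⟨i', mem_univ _, hi'⟩)
      refine h5.trans (card_image_le.trans ?_)
      rw [card_univ, Fintype.card_fin]
    refine hF.local (hR j) (List.ofFn (x j)) (fun i => List.mem_ofFn.2 ⟨i, rfl⟩) _ ?_ ?_ ?_
    · intro l hl
      obtain ⟨l', hl', rfl⟩ := List.mem_map.1 hl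
      obtain ⟨i, -, rfl⟩ := mem_image.1 (mem_toList.1 hl')
      exact List.mem_ofFn.2 (hscope _ i.2)
    · rw [List.length_ofFn, Fintype.card_bool, List.length_map, length_toList]
      have h5 := Flat.card_forbid2 (inc src tgt j) a
      have h6 := hk j
      omega
    · intro z hz
      by_contra hno
      refine ha' ?_
      have hza : ∀ i : inc src tgt j, a i = bit (z (var i)) := by
        intro i
        by_contra h5
        refine hno ⟨ren var ((i.1, a i), false), List.mem_map.2 ⟨_, mem_toList.2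
          (mem_image.2 ⟨i, mem_univ _, rfl⟩), rfl⟩, ?_⟩
        show z (var i) = ofMod (a i) ↔ false = true
        constructor
        · intro h6
          refine absurd ?_ h5
          rw [h6, bit_ofMod]
        · intro h6
          exact absurd h6 Bool.false_ne_true
      have h5 : ∑ i : inc src tgt j, coef src tgt 2 j i * a i =
          ∑ i : inc src tgt j, bit (z (var i)) := by
        refine sum_congr rfl fun i _ => ?_
        rw [coef_two h0 i.2, one_mul, hza]
      rw [h5, sum_coe_sort (inc src tgt j) fun i => bit (z (var i)),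
        sum_inc (S := fun j => univ.filter fun v => (e j).1 v = 1) (h1 j) (h3 j) (h4 j)
          fun v => bit (z v), sum_filter]
      rw [← m2 z hz]
      refine sum_congr rfl fun v _ => ?_
      by_cases h6 : (e j).1 v = 1
      · rw [if_pos h6, h6, one_mul]
      · have h7 : (e j).1 v = 0 := by
          revert h6
          generalize (e j).1 v = c
          revert c
          decide
        rw [if_neg h6, h7, zero_mul]

end

theorem pow_bound {N n₁ P₁ C₁ b w : ℕ} (hN : 2 ≤ N) (h : n₁ * (P₁ + 1) ≤ N ^ C₁) (hn : 1 ≤ n₁)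
    (hw : w ≤ N ^ (6 * b)) :
    (n₁ + w) * (P₁ + (4 * b + 1) + 1) ≤ N ^ ((C₁ + 6 * b + 1) + (C₁ + 4 * b + 2)) := by
  have hN1 : 1 ≤ N := by omega
  have h1 : n₁ ≤ N ^ C₁ := (Nat.le_mul_of_pos_right _ (by omega)).trans h
  have h2 : P₁ + 1 ≤ N ^ C₁ := (Nat.le_mul_of_pos_left _ hn).trans h
  rw [pow_add]
  refine Nat.mul_le_mul ?_ ?_
  · have h3 : N ^ C₁ ≤ N ^ (C₁ + 6 * b) := Nat.pow_le_pow_right hN1 (by omega)
    have h4 : N ^ (6 * b) ≤ N ^ (C₁ + 6 * b) := Nat.pow_le_pow_right hN1 (by omega)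
    calc n₁ + w ≤ N ^ (C₁ + 6 * b) * 2 := by omega
      _ ≤ N ^ (C₁ + 6 * b) * N := Nat.mul_le_mul_left _ hN
      _ = _ := (pow_succ _ _).symm
  · have h3 : 4 * b + 2 ≤ N ^ (4 * b + 2) :=
      (Nat.lt_pow_self (by omega : 1 < 2)).le.trans (Nat.pow_le_pow_left hN _)
    have h4 : 1 ≤ N ^ C₁ := Nat.one_le_pow _ _ hN1
    calc P₁ + (4 * b + 1) + 1 ≤ N ^ C₁ * (4 * b + 2) := by nlinarith
      _ ≤ N ^ C₁ * N ^ (4 * b + 2) := Nat.mul_le_mul_left _ h3
      _ = _ := by rw [← pow_add]; ring_nf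

/-- **Minority.** Unsatisfiable sets of constraints closed under minority have refutations of
polynomial size with counting gates modulo 2. -/
theorem affine (K b : ℕ) (h2 : 2 ≤ b) (hb : 3 * K ≤ b) : ∃ C : ℕ, ∀ (X : Type) [Fintype X]
    (F : Set (List ((X × Bool) × Bool))), Enc F b → ∀ (J : Type) [Fintype J] (k : J → ℕ)
    (x : ∀ j, Fin (k j) → X) (R : ∀ j, Set (Fin (k j) → Bool)), (∀ j, k j ≤ K) →
    (∀ j, Has F b (x j) (R j)) → ∀ mi : Bool → Bool → Bool → Bool,
    (∀ r s t, bit (mi r s t) = bit r + bit s + bit t) →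
    (∀ j, ∀ r ∈ R j, ∀ s ∈ R j, ∀ t ∈ R j, (fun i => mi (r i) (s i) (t i)) ∈ R j) →
    (∀ z : X → Bool, ∃ j, z ∘ x j ∉ R j) →
    ∃ (l : ℕ) (L : Fin l → Form (X × Bool)),
      IsDerivation (tyRules ∪ insert kN (ceRules 2)) 4 {φ | ∃ C ∈ F, φ = clause C} L ∧
      (∃ i, L i = falsum) ∧ size L ≤ (Fintype.card X + Fintype.card J + 2) ^ C := by
  classical
  obtain ⟨C₁, hC₁⟩ := easy_lin 2 Nat.prime_two 2 K
  refine ⟨(2 * C₁ + 6 * b + 1) + (2 * C₁ + 4 * b + 2), fun X _ F hF J _ k x R hkK hR mi hmi hcl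
    hun => ?_⟩
  obtain ⟨e, he, hsum⟩ := exists_eqs k x R mi hmi hcl hun
  have heven : ∀ v, Even (univ.filter fun j => v ∈ univ.filter fun v => (e j).1 v = 1).card := by
    intro v
    have h3 : ∑ j, (e j).1 v = 0 := by
      have h4 := congrArg (fun q : (X → ZMod 2) × ZMod 2 => q.1 v) hsum
      simpa [Prod.fst_sum, Finset.sum_apply] using h4
    have h4 : ((univ.filter fun j => v ∈ univ.filter fun v => (e j).1 v = 1).card : ZMod 2) =
        ∑ j, (e j).1 v := by
      rw [card_filter, Nat.cast_sum]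
      refine sum_congr rfl fun j _ => ?_
      simp only [mem_filter, mem_univ, true_and]
      by_cases h5 : (e j).1 v = 1
      · rw [if_pos h5, h5, Nat.cast_one]
      · have h7 : (e j).1 v = 0 := by
          revert h5
          generalize (e j).1 v = c
          revert c
          decide
        rw [if_neg h5, h7, Nat.cast_zero]
    rw [h3] at h4
    exact (ZMod.natCast_eq_zero_iff_even).1 h4
  obtain ⟨E, _, _, src, tgt, var, hE, g0, g1, g2, g3⟩ :=
    exists_graph (fun j => univ.filter fun v => (e j).1 v = 1) heven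
  have hdeg : ∀ j, (inc src tgt j).card ≤ K := by
    intro j
    have h5 : (inc src tgt j).card ≤ ((univ : Finset (Fin (k j))).image (x j)).card := by
      refine card_le_card_of_injOn var (fun i hi => ?_) fun i hi i' hi' h => g2 j i hi i' hi' h
      have hmem := he j
      rw [mem_Eqs] at hmem
      by_contra h5
      have h6 := hmem.1 (var i) fun i' hi' => h5 (mem_coe.2 (mem_image.2 ⟨i', mem_univ _, hi'⟩))
      rw [(mem_filter.1 (g1 j i hi)).2] at h6
      exact absurd h6 (by decide)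
    refine h5.trans (card_image_le.trans ?_)
    rw [card_univ, Fintype.card_fin]
    exact hkK j
  have hord : 2 ∣ addOrderOf (∑ j, (e j).2) := by
    have h3 : ∑ j, (e j).2 = 1 := by
      have h4 := congrArg (fun q : (X → ZMod 2) × ZMod 2 => q.2) hsum
      simpa [Prod.snd_sum] using h4
    rw [h3]
    have h4 : addOrderOf (1 : ZMod 2) = 2 := by
      rw [ZMod.addOrderOf_one]
    rw [h4]
  obtain ⟨n, P, Ls, l1, l2, l3, l4, l5⟩ := hC₁ J E src tgt hdeg (fun j => (e j).2) hord
  set ψ : E × ZMod 2 → Form (X × Bool) := fun u => Form.var (var u.1, ofMod u.2) with hψ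
  have m1 := Lin_subst l1 (ψ := ψ) (e := 0) fun u => le_rfl
  -- the renamed clauses
  set U := Lines (Set.range Form.var : Set (Form (X × Bool))) (2 * b) with hU
  obtain ⟨Ls₀, k1, k2, k3, k4⟩ := extend_all (S := tyRules) (d := 1)
    (Φ := {φ | ∃ C ∈ F, φ = clause C}) (U := U)
    (lines_depth vars_depth)
    (((tseitinCNF src tgt 2 fun j => (e j).2).map fun D => clause (D.map (ren var)))) (by
      intro φ hφ
      obtain ⟨D, hD, rfl⟩ := List.mem_map.1 hφ
      have hres := res_ren hF h2 hR (fun j => (Nat.mul_le_mul_left 3 (hkK j)).trans hb) he g0 g1 g2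
        g3 hD
      exact hres.2.2)
  have k1' : Lin (tyRules ∪ insert kN (ceRules 2)) 4 {φ | ∃ C ∈ F, φ = clause C} Ls₀ := by
    have hmono : ∀ {Ls : List (Form (X × Bool))},
        Lin tyRules 1 {φ | ∃ C ∈ F, φ = clause C} Ls →
        Lin (tyRules ∪ insert kN (ceRules 2)) 4 {φ | ∃ C ∈ F, φ = clause C} Ls := by
      intro Ls h
      induction h with
      | nil => exact Lin.nil
      | cons φ Ls h hd hr ih =>
        exact Lin.cons φ Ls ih (hd.trans (by omega))
          (hr.imp id fun ⟨R, hR, h'⟩ => ⟨R, Or.inl hR, h'⟩)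
    exact hmono k1
  obtain ⟨Ls', q1, q2, q3, q4⟩ := replace (S := tyRules ∪ insert kN (ceRules 2)) (d := 4)
    (Φ := {φ | ∃ C ∈ F, φ = clause C})
    (Φ' := subst ψ '' {φ | ∃ D ∈ tseitinCNF src tgt 2 (fun j => (e j).2), φ = clause D})
    (Ls := Ls.map (subst ψ)) (Ls₀ := Ls₀) k1' (by
      rintro _ ⟨φ, ⟨D, hD, rfl⟩, rfl⟩
      refine k4 _ (List.mem_map.2 ⟨D, hD, ?_⟩)
      exact (clause_ren var D).symm) (by
      have hmono : ∀ {Φ : Set (Form (X × Bool))} {Ls : List (Form (X × Bool))},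
          Lin (insert kN (ceRules 2)) (4 + 0) Φ Ls →
          Lin (tyRules ∪ insert kN (ceRules 2)) 4 Φ Ls := by
        intro Φ Ls h
        induction h with
        | nil => exact Lin.nil
        | cons φ Ls h hd hr ih =>
          exact Lin.cons φ Ls ih hd (hr.imp id fun ⟨R, hR, h'⟩ => ⟨R, Or.inr hR, h'⟩)
      exact hmono m1)
  have hfal : falsum ∈ Ls' ++ Ls₀ := q2 _ (List.mem_map.2 ⟨falsum, l2, subst_falsum ψ⟩)
  have hcard : (Set.range Form.var : Set (Form (X × Bool))).ncard ≤ 2 * Fintype.card X := by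
    refine vars_card.trans ?_
    rw [Fintype.card_prod, Fintype.card_bool, mul_comm]
  obtain ⟨u1, u2⟩ := lines_card (c := 2 * b) (Set.finite_range _) hcard
  have hlen₀ : Ls₀.length ≤ (2 * (2 * Fintype.card X) + 1) ^ (2 * b) := by
    refine le_trans ?_ u2
    rw [← List.toFinset_card_of_nodup k2, ← Set.ncard_coe_finset]
    refine Set.ncard_le_ncard ?_ u1
    intro φ hφ
    exact k3 φ (List.mem_toFinset.1 (mem_coe.1 hφ))
  obtain ⟨N, hN⟩ : ∃ N, N = Fintype.card X + Fintype.card J + 2 := ⟨_, rfl⟩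
  have hN2 : 2 ≤ N := by omega
  obtain ⟨l, L, hL, hsize⟩ := Lin_exists (n := n + (2 * (2 * Fintype.card X) + 1) ^ (2 * b))
    (P := P + (4 * b + 1)) q1 hfal (by
      rw [List.length_append]
      refine Nat.add_le_add (q3.trans ?_) hlen₀
      rw [List.length_map]
      exact l3) (by
      intro φ hφ
      rcases List.mem_append.1 hφ with h | h
      · obtain ⟨φ', hφ', rfl⟩ := List.mem_map.1 (q4 φ h)
        have h5 := TU.wt_subst (ψ := ψ) (W := 1) (fun u => le_rfl) le_rfl φ'
        have h6 := l4 φ' hφ'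
        omega
      · have h5 := wt_line (k3 φ h)
        omega)
  refine ⟨l, L, hL.1, hL.2, hsize.trans ?_⟩
  rw [← hN]
  have hn1 : 1 ≤ n := by
    refine le_trans ?_ l3
    rcases Ls with _ | ⟨φ, Ls⟩
    · exact absurd l2 List.not_mem_nil
    · rw [List.length_cons]
      omega
  refine pow_bound hN2 (C₁ := 2 * C₁) (l5.trans ?_) hn1 ?_
  · rw [pow_mul]
    refine Nat.pow_le_pow_left ?_ _
    have h5 : Fintype.card J + Fintype.card E + 2 ≤
        Fintype.card J + Fintype.card X * Fintype.card J + 2 := by omega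
    refine h5.trans ?_
    rw [hN]
    nlinarith [Nat.zero_le (Fintype.card X), Nat.zero_le (Fintype.card J),
      Nat.zero_le (Fintype.card X * Fintype.card J)]
  · have h5 : 2 * (2 * Fintype.card X) + 1 ≤ N ^ 3 := by
      have h6 : Fintype.card X + 2 ≤ N := by omega
      refine le_trans ?_ (Nat.pow_le_pow_left h6 3)
      nlinarith [Nat.zero_le (Fintype.card X), Nat.zero_le (Fintype.card X ^ 2),
        Nat.zero_le (Fintype.card X ^ 3)]
    calc (2 * (2 * Fintype.card X) + 1) ^ (2 * b) ≤ (N ^ 3) ^ (2 * b) :=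
          Nat.pow_le_pow_left h5 _
      _ = N ^ (6 * b) := by rw [← pow_mul]; ring_nf

end Pool.Agent.MP_9cec2c_lc.CT
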