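import Pool.Agent.Lib.MP_9cec2c_lc.CTLocal

/-!
Constraints closed under majority are refuted by clauses with two variables.
-/

set_option autoImplicit false
set_option linter.unusedSectionVars false

namespace Pool.Agent.MP_9cec2c_lc.CT

open FG TY MX

/-- A set closed under majority contains every tuple which agrees with a member at every two
places. -/
theorem baker_pixley {k : ℕ} {R : Set (Fin k → Bool)} (maj : Bool → Bool → Bool → Bool)
    (hm1 : ∀ s t, maj s s t = s) (hm2 : ∀ s t, maj s t s = s) (hm3 : ∀ s t, maj t s s = s)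
    (hcl : ∀ r ∈ R, ∀ s ∈ R, ∀ t ∈ R, (fun i => maj (r i) (s i) (t i)) ∈ R) (t : Fin k → Bool)
    (hne : R.Nonempty) (h : ∀ i j, ∃ s ∈ R, s i = t i ∧ s j = t j) : t ∈ R := by
  classical
  have key : ∀ (n : ℕ) (J : Finset (Fin k)), J.card ≤ n → ∃ s ∈ R, ∀ i ∈ J, s i = t i := by
    intro n
    induction n with
    | zero =>
      intro J hJ
      obtain ⟨s, hs⟩ := hne
      refine ⟨s, hs, fun i hi => ?_⟩
      have h1 : J = ∅ := Finset.card_eq_zero.1 (Nat.le_zero.1 hJ)
      rw [h1] at hi
      exact absurd hi (Finset.notMem_empty i)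
    | succ n ih =>
      intro J hJ
      by_cases h3 : 2 < J.card
      · obtain ⟨i₁, i₂, i₃, h1, h2, h3', h12, h13, h23⟩ := Finset.two_lt_card_iff.1 h3
        obtain ⟨s₁, hs₁, e₁⟩ := ih (J.erase i₁) (by rw [Finset.card_erase_of_mem h1]; omega)
        obtain ⟨s₂, hs₂, e₂⟩ := ih (J.erase i₂) (by rw [Finset.card_erase_of_mem h2]; omega)
        obtain ⟨s₃, hs₃, e₃⟩ := ih (J.erase i₃) (by rw [Finset.card_erase_of_mem h3']; omega)
        refine ⟨_, hcl _ hs₁ _ hs₂ _ hs₃, fun i hi => ?_⟩
        show maj (s₁ i) (s₂ i) (s₃ i) = t i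
        by_cases h4 : i = i₁
        · rw [e₂ i (Finset.mem_erase.2 ⟨by rw [h4]; exact h12, hi⟩),
            e₃ i (Finset.mem_erase.2 ⟨by rw [h4]; exact h13, hi⟩), hm3]
        · rw [e₁ i (Finset.mem_erase.2 ⟨h4, hi⟩)]
          by_cases h5 : i = i₂
          · rw [e₃ i (Finset.mem_erase.2 ⟨by rw [h5]; exact h23, hi⟩), hm2]
          · rw [e₂ i (Finset.mem_erase.2 ⟨h5, hi⟩), hm1]
      · rcases Nat.lt_or_ge 0 J.card with h4 | h4
        · obtain ⟨i, hi⟩ := Finset.card_pos.1 h4
          rcases Nat.lt_or_ge 1 J.card with h5 | h5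
          · obtain ⟨a, b, hab, hJ'⟩ := Finset.card_eq_two.1 (by omega : J.card = 2)
            obtain ⟨s, hs, h6, h7⟩ := h a b
            refine ⟨s, hs, fun i hi => ?_⟩
            rw [hJ', Finset.mem_insert, Finset.mem_singleton] at hi
            rcases hi with rfl | rfl
            · exact h6
            · exact h7
          · obtain ⟨a, hJ'⟩ := Finset.card_eq_one.1 (by omega : J.card = 1)
            obtain ⟨s, hs, h6, -⟩ := h a a
            refine ⟨s, hs, fun i hi => ?_⟩
            rw [hJ', Finset.mem_singleton] at hi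
            rw [hi]
            exact h6
        · exact ih J (by omega)
  obtain ⟨s, hs, h1⟩ := key _ Finset.univ le_rfl
  have h2 : s = t := funext fun i => h1 i (Finset.mem_univ i)
  rw [← h2]
  exact hs

variable {X : Type} {F : Set (List ((X × Bool) × Bool))} {b : ℕ}

/-- The clause `x ≠ a ∨ x' = a'`. -/
def Imp (F : Set (List ((X × Bool) × Bool))) (b : ℕ) (u u' : X × Bool) : Prop :=
  Res F b [((u.1, !u.2), true), (u', true)]

/-- Not both values. -/
theorem Enc.not_both (hF : Enc F b) (h4 : 4 ≤ b) (x : X) :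
    Res F b [((x, true), false), ((x, false), false)] := by
  obtain ⟨C, hC, hCb, h⟩ := hF.uniq x true false (by simp)
  refine (Res.ax hC hCb).sub (fun l hl => ?_) (by simp; omega)
  rcases h l hl with rfl | rfl
  · exact List.mem_cons_self
  · exact List.mem_cons_of_mem _ List.mem_cons_self

theorem Enc.some_value (hF : Enc F b) (h4 : 4 ≤ b) (x : X) (a : Bool) :
    Res F b [((x, !a), true), ((x, a), true)] := by
  obtain ⟨C, hC, hCb, h⟩ := hF.some x
  refine (Res.ax hC hCb).sub (fun l hl => ?_) (by simp; omega)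
  obtain ⟨h1, h2⟩ := h l hl
  rcases l with ⟨⟨v, c⟩, t⟩
  have h1' : v = x := h1
  have h2' : t = true := h2
  subst h1' h2'
  cases a <;> cases c <;> simp

theorem Enc.resolve (hF : Enc F b) (h4 : 4 ≤ b) {x : X} {a : Bool}
    {C D E : List ((X × Bool) × Bool)}
    (h : Res F b (((x, a), true) :: C)) (h' : Res F b (((x, !a), true) :: D))
    (hC : ∀ l ∈ C, l ∈ E) (hD : ∀ l ∈ D, l ∈ E) (hE : E.length + 2 ≤ b) : Res F b E := by
  have key : ∀ {x : X} {C D : List ((X × Bool) × Bool)},
      Res F b (((x, true), true) :: C) → Res F b (((x, false), true) :: D) →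
      (∀ l ∈ C, l ∈ E) → (∀ l ∈ D, l ∈ E) → Res F b E := by
    intro x C D h h' hC hD
    have h1 : Res F b (((x, true), false) :: E) := by
      refine Res.cut (v := (x, false)) (h'.sub ?_ ?_) ((hF.not_both h4 x).sub ?_ ?_)
      · intro l hl
        rcases List.mem_cons.1 hl with rfl | hl
        · exact List.mem_cons_self
        · exact List.mem_cons_of_mem _ (List.mem_cons_of_mem _ (hD l hl))
      · simp only [List.length_cons]
        omega
      · intro l hl
        simp only [List.mem_cons, List.not_mem_nil, or_false] at hl ⊢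
        tauto
      · simp only [List.length_cons]
        omega
    refine Res.cut (v := (x, true)) (h.sub ?_ ?_) h1
    · intro l hl
      rcases List.mem_cons.1 hl with rfl | hl
      · exact List.mem_cons_self
      · exact List.mem_cons_of_mem _ (hC l hl)
    · rw [List.length_cons]
      omega
  cases a
  · exact key h' h hD hC
  · exact key h h' hC hD

theorem Imp.refl (hF : Enc F b) (h4 : 4 ≤ b) (u : X × Bool) : Imp F b u u :=
  hF.some_value h4 u.1 u.2

theorem Imp.trans (hF : Enc F b) (h4 : 4 ≤ b) {u v w : X × Bool} (h : Imp F b u v)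
    (h' : Imp F b v w) : Imp F b u w := by
  have h1 : Res F b (((v.1, v.2), true) :: [((u.1, !u.2), true)]) :=
    Res.sub h (by intro l hl; simp only [List.mem_cons, List.not_mem_nil, or_false] at hl ⊢; tauto)
      (by simp; omega)
  exact hF.resolve h4 h1 h' (by intro l hl; simp only [List.mem_cons, List.not_mem_nil, or_false] at hl ⊢; tauto)
    (by intro l hl; simp only [List.mem_cons, List.not_mem_nil, or_false] at hl ⊢; tauto) (by simp; omega)

theorem Imp.contra {u v : X × Bool} (h4 : 4 ≤ b) (h : Imp F b u v) :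
    Imp F b (v.1, !v.2) (u.1, !u.2) := by
  refine Res.sub h ?_ (by simp; omega)
  intro l hl
  simp only [List.mem_cons, List.not_mem_nil, or_false, Bool.not_not] at hl ⊢
  tauto

/-- **The completeness of resolution for clauses with two variables.** If there is no refutation,
then there is an assignment which satisfies all derived clauses with two variables. -/
theorem two_sat [Fintype X] (hF : Enc F b) (h4 : 4 ≤ b) (hno : ¬ Res F b []) :
    ∃ z : X → Bool, ∀ x x', ¬ Res F b [((x, !(z x)), true), ((x', !(z x')), true)] := by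
  classical
  -- the closed and consistent sets of literals
  set P : Finset (X × Bool) → Prop := fun S =>
    (∀ u ∈ S, ∀ v, Imp F b u v → v ∈ S) ∧ ∀ x a, (x, a) ∈ S → (x, !a) ∉ S with hP
  obtain ⟨S, hS, hmax⟩ : ∃ S, P S ∧ ∀ S', P S' → S'.card ≤ S.card := by
    obtain ⟨S, hS, hmax⟩ := Finset.exists_max_image (Finset.univ.filter P) Finset.card
      ⟨∅, Finset.mem_filter.2 ⟨Finset.mem_univ _, fun u hu => absurd hu (Finset.notMem_empty _),
        fun x a hx => absurd hx (Finset.notMem_empty _)⟩⟩
    exact ⟨S, (Finset.mem_filter.1 hS).2, fun S' hS' =>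
      hmax S' (Finset.mem_filter.2 ⟨Finset.mem_univ _, hS'⟩)⟩
  have hdec : ∀ x, ∃ a, (x, a) ∈ S := by
    intro x
    by_contra hx
    push Not at hx
    have key : ∀ a : Bool, Res F b [((x, !a), true)] := by
      intro a
      by_contra hres
      set S' : Finset (X × Bool) := S ∪ Finset.univ.filter fun v => Imp F b (x, a) v with hS'
      have hmem : (x, a) ∈ S' :=
        Finset.mem_union_right _ (Finset.mem_filter.2 ⟨Finset.mem_univ _, Imp.refl hF h4 _⟩)
      have hPS' : P S' := by
        constructor
        · intro u hu v huv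
          rcases Finset.mem_union.1 hu with h1 | h1
          · exact Finset.mem_union_left _ (hS.1 u h1 v huv)
          · exact Finset.mem_union_right _ (Finset.mem_filter.2 ⟨Finset.mem_univ _,
              Imp.trans hF h4 (Finset.mem_filter.1 h1).2 huv⟩)
        · intro x' a' h1 h2
          rcases Finset.mem_union.1 h1 with h1 | h1
          · rcases Finset.mem_union.1 h2 with h2 | h2
            · exact hS.2 x' a' h1 h2
            · have h3 := (Finset.mem_filter.1 h2).2.contra h4
              have h5 : Imp F b (x', a') (x, !a) := by simpa using h3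
              exact hx _ (hS.1 _ h1 _ h5)
          · rcases Finset.mem_union.1 h2 with h2 | h2
            · have h3 := (Finset.mem_filter.1 h1).2.contra h4
              exact hx _ (hS.1 _ h2 _ h3)
            · refine hres ?_
              have h3 := (Finset.mem_filter.1 h1).2.contra h4
              have h5 := Imp.trans hF h4 (Finset.mem_filter.1 h2).2 h3
              refine Res.sub h5 ?_ (by simp; omega)
              intro l hl
              simp only [List.mem_cons, List.not_mem_nil, or_false] at hl ⊢
              tauto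
      have h1 : S.card < S'.card := by
        refine Finset.card_lt_card ⟨Finset.subset_union_left, fun h2 => ?_⟩
        exact hx a (h2 hmem)
      exact absurd (hmax S' hPS') (by omega)
    exact hno (hF.resolve h4 (C := []) (D := []) (key (!false)) (key (!true))
      (by simp) (by simp) (by simp; omega))
  choose z hz using hdec
  refine ⟨z, fun x x' h => ?_⟩
  have h1 : Imp F b (x, z x) (x', !(z x')) := h
  exact hS.2 _ _ (hz x') (hS.1 _ (hz x) _ h1)

/-- **Majority.** Constraints closed under majority have refutations of bounded width. -/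
theorem bijunctive [Fintype X] (maj : Bool → Bool → Bool → Bool)
    (hm1 : ∀ s t, maj s s t = s) (hm2 : ∀ s t, maj s t s = s) (hm3 : ∀ s t, maj t s s = s)
    (hF : Enc F b) {J : Type} (k : J → ℕ) (x : ∀ j, Fin (k j) → X)
    (R : ∀ j, Set (Fin (k j) → Bool)) (hR : ∀ j, Has F b (x j) (R j))
    (hcl : ∀ j, ∀ r ∈ R j, ∀ s ∈ R j, ∀ t ∈ R j, (fun i => maj (r i) (s i) (t i)) ∈ R j)
    (h4 : 4 ≤ b) (hb : ∀ j, 2 * k j + 2 ≤ b) (hun : ∀ z : X → Bool, ∃ j, z ∘ x j ∉ R j) :
    Res F b [] := by
  classical
  by_contra hno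
  obtain ⟨z, hz⟩ := two_sat hF h4 hno
  obtain ⟨j, hj⟩ := hun z
  refine hj ?_
  have hloc : ∀ D : List ((X × Bool) × Bool), D.length ≤ 2 → (∀ l ∈ D, ∃ i, x j i = l.1.1) →
      (∀ z : X → Bool, z ∘ x j ∈ R j → Holds z D) → Res F b D := by
    intro D hD hDx h
    refine hF.local (hR j) (List.ofFn (x j)) (fun i => List.mem_ofFn.2 ⟨i, rfl⟩) _ ?_ ?_ h
    · intro l hl
      exact List.mem_ofFn.2 (hDx l hl)
    · rw [List.length_ofFn, Fintype.card_bool]
      have := hb j
      omega
  set R' : Set (Fin (k j) → Bool) := {s | s ∈ R j ∧ ∃ z : X → Bool, s = z ∘ x j} with hR'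
  have h1 : z ∘ x j ∈ R' := by
    refine baker_pixley maj hm1 hm2 hm3 ?_ _ ?_ ?_
    · rintro r ⟨hr, zr, rfl⟩ s ⟨hs, zs, rfl⟩ t ⟨ht, zt, rfl⟩
      exact ⟨hcl j _ hr _ hs _ ht, fun v => maj (zr v) (zs v) (zt v), rfl⟩
    · by_contra h2
      refine hno (hloc [] (by simp) (fun l hl => absurd hl List.not_mem_nil) fun z' hz' => ?_)
      exact absurd ⟨z' ∘ x j, hz', z', rfl⟩ h2
    · intro i i'
      by_contra h2
      push Not at h2
      refine hz (x j i) (x j i') (hloc _ (by simp) ?_ fun z' hz' => ?_)
      · intro l hl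
        simp only [List.mem_cons, List.not_mem_nil, or_false] at hl
        rcases hl with rfl | rfl
        · exact ⟨i, rfl⟩
        · exact ⟨i', rfl⟩
      · by_cases h3 : z' (x j i) = z (x j i)
        · have h5 := h2 (z' ∘ x j) ⟨hz', z', rfl⟩ h3
          have h6 : z' (x j i') ≠ z (x j i') := h5
          refine ⟨((x j i', !(z (x j i'))), true),
            List.mem_cons_of_mem _ List.mem_cons_self, ?_⟩
          show (z' (x j i') = !(z (x j i')) ↔ true = true)
          revert h6
          cases z' (x j i') <;> cases z (x j i') <;> simp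
        · refine ⟨((x j i, !(z (x j i))), true), List.mem_cons_self, ?_⟩
          show (z' (x j i) = !(z (x j i)) ↔ true = true)
          revert h3
          cases z' (x j i) <;> cases z (x j i) <;> simp
  exact h1.1

end Pool.Agent.MP_9cec2c_lc.CT
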