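import Pool.Agent.Lib.MP_9cec2c_lc.CTLocal

/-!
Constraints closed under conjunction (or disjunction) are refuted by unit propagation.
-/

set_option autoImplicit false
set_option linter.unusedSectionVars false

namespace Pool.Agent.MP_9cec2c_lc.CT

open FG TY MX

variable {X : Type} {F : Set (List ((X × Bool) × Bool))} {b : ℕ}

/-- Units are cut off. -/
theorem Res.units {D : List ((X × Bool) × Bool)} {a : Bool} :
    ∀ (U : List X), (∀ x ∈ U, Res F b [((x, a), true)]) →
      Res F b (U.map (fun x => ((x, a), false)) ++ D) → Res F b D := by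
  intro U
  induction U with
  | nil => exact fun _ h => h
  | cons x U ih =>
    intro hU h
    have hlen : (U.map (fun x => ((x, a), false)) ++ D).length ≤ b := by
      have h1 := h.1
      rw [List.length_map, List.map_cons, List.cons_append, List.length_cons] at h1
      omega
    refine ih (fun x hx => hU x (List.mem_cons_of_mem _ hx)) ?_
    have hlen' : (((x, a), true) :: (U.map (fun x => ((x, a), false)) ++ D)).length ≤ b := by
      have h1 := h.1
      rw [List.length_map, List.map_cons, List.cons_append, List.length_cons] at h1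
      rw [List.length_cons]
      exact h1
    refine Res.cut (v := (x, a)) ((hU x List.mem_cons_self).sub ?_ hlen') h
    intro l hl
    rw [List.mem_singleton.1 hl]
    exact List.mem_cons_self

/-- **Unit propagation.** Suppose that all constraints `R` on the variables `x` are closed under
`op`, where `op s t = a` if and only if `s = t = a`. If no assignment satisfies all constraints, then the clauses have
a refutation of bounded width. -/
theorem horn (a : Bool) (op : Bool → Bool → Bool) (hop : ∀ s t, op s t = a ↔ s = a ∧ t = a)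
    (hF : Enc F b) {J : Type} (k : J → ℕ) (x : ∀ j, Fin (k j) → X)
    (R : ∀ j, Set (Fin (k j) → Bool)) (hR : ∀ j, Has F b (x j) (R j))
    (hcl : ∀ j, ∀ s ∈ R j, ∀ t ∈ R j, (fun i => op (s i) (t i)) ∈ R j)
    (hb : ∀ j, 3 * k j + 1 ≤ b) (hun : ∀ z : X → Bool, ∃ j, z ∘ x j ∉ R j) : Res F b [] := by
  classical
  by_contra hno
  set T : Set X := {v | Res F b [((v, a), true)]} with hT
  obtain ⟨j, hj⟩ := hun fun v => if v ∈ T then a else !a
  refine hj ?_
  -- the forced variables of the constraint
  set U : List X := (List.ofFn (x j)).filter fun v => decide (v ∈ T) with hU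
  have hUT : ∀ v ∈ U, Res F b [((v, a), true)] := by
    intro v hv
    have h1 := List.mem_filter.1 hv
    exact of_decide_eq_true h1.2
  have hUm : ∀ i, x j i ∈ T → x j i ∈ U := by
    intro i hi
    exact List.mem_filter.2 ⟨List.mem_ofFn.2 ⟨i, rfl⟩, decide_eq_true hi⟩
  have hUl : U.length ≤ k j := by
    refine (List.length_filter_le _ _).trans ?_
    rw [List.length_ofFn]
  have hUx : ∀ v ∈ U, ∃ i, x j i = v := by
    intro v hv
    exact List.mem_ofFn.1 (List.mem_filter.1 hv).1
  have hcardA : Fintype.card Bool = 2 := Fintype.card_bool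
  -- a solution above the forced variables
  have hloc : ∀ D : List ((X × Bool) × Bool), D.length ≤ 1 → (∀ l ∈ D, ∃ i, x j i = l.1.1) →
      (∀ z : X → Bool, z ∘ x j ∈ R j → (∀ v ∈ U, z v = a) → Holds z D) → Res F b D := by
    intro D hD hDx h
    refine Res.units U hUT ?_
    refine hF.local (hR j) (List.ofFn (x j)) (fun i => List.mem_ofFn.2 ⟨i, rfl⟩) _ ?_ ?_ ?_
    · intro l hl
      rcases List.mem_append.1 hl with h1 | h1
      · obtain ⟨v, hv, rfl⟩ := List.mem_map.1 h1
        exact List.mem_ofFn.2 (hUx v hv)
      · exact List.mem_ofFn.2 (hDx l h1)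
    · rw [List.length_ofFn, List.length_append, List.length_map, hcardA]
      have := hb j
      omega
    · intro z hz
      by_cases h1 : ∀ v ∈ U, z v = a
      · obtain ⟨l, hl, h2⟩ := h z hz h1
        exact ⟨l, List.mem_append_right _ hl, h2⟩
      · push Not at h1
        obtain ⟨v, hv, h2⟩ := h1
        refine ⟨((v, a), false), List.mem_append_left _ (List.mem_map.2 ⟨v, hv, rfl⟩), ?_⟩
        constructor
        · intro h3
          exact absurd h3 h2
        · intro h3
          exact absurd h3 Bool.false_ne_true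
  set S : Set (X → Bool) := {z | z ∘ x j ∈ R j ∧ ∀ v ∈ U, z v = a} with hS
  have hne : ∃ z, z ∈ S := by
    by_contra h1
    push Not at h1
    refine hno (hloc [] (by simp) (fun l hl => absurd hl List.not_mem_nil) fun z hz h2 => ?_)
    exact absurd ⟨hz, h2⟩ (h1 z)
  have hval : ∀ i, x j i ∉ T → ∃ z ∈ S, z (x j i) ≠ a := by
    intro i hi
    by_contra h1
    push Not at h1
    refine hi (hloc [((x j i, a), true)] (by simp) ?_ fun z hz h2 => ?_)
    · intro l hl
      rw [List.mem_singleton.1 hl]
      exact ⟨i, rfl⟩
    · exact ⟨_, List.mem_singleton.2 rfl, by simp [h1 z ⟨hz, h2⟩]⟩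
  have hopS : ∀ z ∈ S, ∀ z' ∈ S, (fun v => op (z v) (z' v)) ∈ S := by
    rintro z ⟨h1, h2⟩ z' ⟨h3, h4⟩
    refine ⟨hcl j _ h1 _ h3, fun v hv => (hop _ _).2 ⟨h2 v hv, h4 v hv⟩⟩
  -- all variables of a list which are not forced get another value
  have hall : ∀ I : List (Fin (k j)), ∃ z ∈ S, ∀ i ∈ I, x j i ∉ T → z (x j i) ≠ a := by
    intro I
    induction I with
    | nil =>
      obtain ⟨z, hz⟩ := hne
      exact ⟨z, hz, fun i hi => absurd hi List.not_mem_nil⟩
    | cons i I ih =>
      obtain ⟨z, hz, h1⟩ := ih
      by_cases hi : x j i ∈ T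
      · refine ⟨z, hz, fun i' hi' h2 => ?_⟩
        rcases List.mem_cons.1 hi' with rfl | hi'
        · exact absurd hi h2
        · exact h1 i' hi' h2
      · obtain ⟨z', hz', h2⟩ := hval i hi
        refine ⟨_, hopS z hz z' hz', fun i' hi' h3 h4 => ?_⟩
        obtain ⟨h5, h6⟩ := (hop _ _).1 h4
        rcases List.mem_cons.1 hi' with rfl | hi'
        · exact h2 h6
        · exact h1 i' hi' h3 h5
  obtain ⟨z, hz, h1⟩ := hall (List.finRange (k j))
  have h2 : (fun v => if v ∈ T then a else !a) ∘ x j = z ∘ x j := by
    funext i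
    show (if x j i ∈ T then a else !a) = z (x j i)
    split_ifs with h3
    · exact (hz.2 _ (hUm i h3)).symm
    · have h4 := h1 i (List.mem_finRange i) h3
      revert h4
      cases a <;> cases z (x j i) <;> simp
  rw [h2]
  exact hz.1

end Pool.Agent.MP_9cec2c_lc.CT
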