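import Pool.Agent.Lib.MP_9cec2c_lc.CSDefs
import Pool.Agent.Lib.MP_9cec2c_lc.CTHorn
import Pool.Agent.Lib.MP_9cec2c_lc.CTBij
import Pool.Agent.Lib.MP_9cec2c_lc.CTAff

/-!
Short refutations of the unsatisfiable instances of Boolean constraint languages that have a constant
operation, the conjunction, the disjunction, the majority or the sum of three bits as a polymorphism.
-/

set_option autoImplicit false
set_option linter.unusedSectionVars false

namespace Pool.Agent.MP_9cec2c_lc.CS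

open FG MX CT
open TY (tyRules)
open TU (kN)
open CE (ceRules)

/-- The largest arity of a relation. -/
def maxAr {A : Type} (Γ : CLang A) : ℕ := Finset.univ.sup Γ.ar

theorem ar_le {A : Type} (Γ : CLang A) (i : Fin Γ.m) : Γ.ar i ≤ maxAr Γ :=
  Finset.le_sup (f := Γ.ar) (Finset.mem_univ i)

section

variable {A X : Type} [Fintype A] [Fintype X] {Γ : CLang A} {I : List (Constraint Γ X)} {b : ℕ}

/-- The clauses which say that every variable has exactly one value. -/
theorem enc_csp (h2 : 2 ≤ b) (hA : Fintype.card A ≤ b) : Enc {D | D ∈ cspCNF I} b := by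
  classical
  constructor
  · intro x
    refine ⟨(Finset.univ : Finset A).toList.map fun a => ((x, a), true), ?_, ?_, ?_⟩
    · refine List.mem_append_left _ (List.mem_append_left _ (List.mem_map.2
        ⟨x, Finset.mem_toList.2 (Finset.mem_univ x), rfl⟩))
    · rw [List.length_map, Finset.length_toList]
      exact hA
    · intro l hl
      obtain ⟨a, -, rfl⟩ := List.mem_map.1 hl
      exact ⟨rfl, rfl⟩
  · intro x a a' ha
    refine ⟨[((x, a), false), ((x, a'), false)], ?_, by simpa using h2, ?_⟩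
    · refine List.mem_append_left _ (List.mem_append_right _ (List.mem_map.2
        ⟨(x, a, a'), Finset.mem_toList.2 (Finset.mem_filter.2 ⟨Finset.mem_univ _, ha⟩), rfl⟩))
    · intro l hl
      simpa using hl

/-- The clauses of a constraint. -/
theorem has_csp {c : Constraint Γ X} (hc : c ∈ I) (hb : Γ.ar c.i ≤ b) :
    Has {D | D ∈ cspCNF I} b c.scope (Γ.rel c.i) := by
  classical
  intro t ht
  refine ⟨(List.finRange (Γ.ar c.i)).map fun j => ((c.scope j, t j), false), ?_, ?_, ?_⟩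
  · refine List.mem_append_right _ (List.mem_flatMap.2 ⟨c, hc, List.mem_map.2 ⟨t,
      Finset.mem_toList.2 (Finset.mem_filter.2 ⟨Finset.mem_univ _, ht⟩), rfl⟩⟩)
  · rw [List.length_map, List.length_finRange]
    exact hb
  · intro l hl
    obtain ⟨j, -, rfl⟩ := List.mem_map.1 hl
    exact ⟨j, rfl⟩

theorem unsat_csp (h : ¬ Satisfiable I) (z : X → A) :
    ∃ j : Fin I.length, z ∘ (I.get j).scope ∉ Γ.rel (I.get j).i := by
  by_contra h1
  push Not at h1
  refine h ⟨z, fun c hc => ?_⟩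
  obtain ⟨j, rfl⟩ := List.get_of_mem hc
  exact h1 j

end

theorem pol_two {Γ : CLang Bool} {f : (Fin 2 → Bool) → Bool} (h : f ∈ Γ.Pol 2) (i : Fin Γ.m) :
    ∀ s ∈ Γ.rel i, ∀ t ∈ Γ.rel i, (fun j => f ![s j, t j]) ∈ Γ.rel i := by
  intro s hs t ht
  have h1 := h i ![s, t] (by
    intro k
    fin_cases k
    · exact hs
    · exact ht)
  have h2 : (fun j => f ![s j, t j]) = fun j => f fun k => (![s, t] : Fin 2 → _) k j := by
    funext j
    congr 1
    funext k
    fin_cases k <;> rfl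
  rw [h2]
  exact h1

theorem pol_three {Γ : CLang Bool} {f : (Fin 3 → Bool) → Bool} (h : f ∈ Γ.Pol 3)
    (i : Fin Γ.m) : ∀ r ∈ Γ.rel i, ∀ s ∈ Γ.rel i, ∀ t ∈ Γ.rel i,
      (fun j => f ![r j, s j, t j]) ∈ Γ.rel i := by
  intro r hr s hs t ht
  have h1 := h i ![r, s, t] (by
    intro k
    fin_cases k
    · exact hr
    · exact hs
    · exact ht)
  have h2 : (fun j => f ![r j, s j, t j]) = fun j => f fun k => (![r, s, t] : Fin 3 → _) k j := by
    funext j
    congr 1
    funext k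
    fin_cases k <;> rfl
  rw [h2]
  exact h1

/-- **Refutations of bounded width**: the constants, the conjunction, the disjunction and the
majority. -/
theorem width (Γ : CLang Bool) (h : (∃ a, bConst a ∈ Γ.Pol 1) ∨ bAnd ∈ Γ.Pol 2 ∨
    bOr ∈ Γ.Pol 2 ∨ bMaj ∈ Γ.Pol 3) : ∀ (X : Type) [Fintype X] (I : List (Constraint Γ X)),
      ¬ Satisfiable I → Res {D | D ∈ cspCNF I} (3 * maxAr Γ + 4) [] := by
  intro X _ I hI
  have hF : Enc {D | D ∈ cspCNF I} (3 * maxAr Γ + 4) :=
    enc_csp (by omega) (by rw [Fintype.card_bool]; omega)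
  have hk : ∀ j : Fin I.length, Γ.ar (I.get j).i ≤ maxAr Γ := fun j => ar_le Γ _
  have hR : ∀ j : Fin I.length, Has {D | D ∈ cspCNF I} (3 * maxAr Γ + 4) (I.get j).scope
      (Γ.rel (I.get j).i) := fun j => has_csp (List.get_mem I j) ((hk j).trans (by omega))
  rcases h with ⟨a, h⟩ | h | h | h
  · obtain ⟨j, hj⟩ := unsat_csp hI fun _ => a
    have hempty : ∀ t, t ∉ Γ.rel (I.get j).i := by
      intro t ht
      exact hj (h (I.get j).i (fun _ => t) fun _ => ht)
    refine hF.local (hR j) (List.ofFn (I.get j).scope) (fun i => List.mem_ofFn.2 ⟨i, rfl⟩) _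
      (fun l hl => absurd hl List.not_mem_nil) ?_ fun z hz => absurd hz (hempty _)
    rw [List.length_ofFn, Fintype.card_bool]
    have := hk j
    simp only [List.length_nil]
    omega
  · refine horn true (fun s t => s && t) (by decide) hF
      (fun j : Fin I.length => Γ.ar (I.get j).i) (fun j => (I.get j).scope)
      (fun j => Γ.rel (I.get j).i) hR (fun j => pol_two h _)
      (fun j => by have := hk j; omega) (unsat_csp hI)
  · refine horn false (fun s t => s || t) (by decide) hF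
      (fun j : Fin I.length => Γ.ar (I.get j).i) (fun j => (I.get j).scope)
      (fun j => Γ.rel (I.get j).i) hR (fun j => pol_two h _)
      (fun j => by have := hk j; omega) (unsat_csp hI)
  · refine bijunctive (fun r s t => bMaj ![r, s, t]) (by decide) (by decide) (by decide) hF
      (fun j : Fin I.length => Γ.ar (I.get j).i) (fun j => (I.get j).scope)
      (fun j => Γ.rel (I.get j).i) hR (fun j => pol_three h _) (by omega)
      (fun j => by have := hk j; omega) (unsat_csp hI)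

theorem width_size {N x b : ℕ} (hN : x + 2 ≤ N) :
    2 * (2 * (x * 2) + 1) ^ (2 * b) + 2 * (x * 2) ≤ N ^ (6 * b + 4) := by
  have h1 : 2 * (x * 2) + 1 ≤ N ^ 3 := by
    refine le_trans ?_ (Nat.pow_le_pow_left hN 3)
    nlinarith [Nat.zero_le x, Nat.zero_le (x ^ 2), Nat.zero_le (x ^ 3)]
  have h2 : (2 * (x * 2) + 1) ^ (2 * b) ≤ N ^ (6 * b) := by
    calc (2 * (x * 2) + 1) ^ (2 * b) ≤ (N ^ 3) ^ (2 * b) := Nat.pow_le_pow_left h1 _
      _ = N ^ (6 * b) := by rw [← pow_mul]; ring_nf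
  have h3 : 1 ≤ N ^ (6 * b) := Nat.one_le_pow _ _ (by omega)
  have h4 : 2 * (x * 2) ≤ N ^ 2 * 2 := by
    nlinarith [Nat.pow_le_pow_left hN 2]
  have h5 : N ^ (6 * b + 4) = N ^ (6 * b) * (N ^ 2 * N ^ 2) := by rw [pow_add]; ring
  have h6 : 4 ≤ N ^ 2 := by
    have := Nat.pow_le_pow_left (by omega : 2 ≤ N) 2
    omega
  calc 2 * (2 * (x * 2) + 1) ^ (2 * b) + 2 * (x * 2) ≤
        2 * N ^ (6 * b) + N ^ (6 * b) * (N ^ 2 * 2) := by nlinarith
    _ = N ^ (6 * b) * (N ^ 2 * 2 + 2) := by ring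
    _ ≤ N ^ (6 * b) * (N ^ 2 * N ^ 2) := Nat.mul_le_mul_left _ (by nlinarith)
    _ = _ := h5.symm

/-- **The easy cases without counting gates.** -/
theorem easy_width (Γ : CLang Bool) (h : (∃ a, bConst a ∈ Γ.Pol 1) ∨ bAnd ∈ Γ.Pol 2 ∨
    bOr ∈ Γ.Pol 2 ∨ bMaj ∈ Γ.Pol 3) : ∃ C : ℕ, ∀ (X : Type) [Fintype X]
      (I : List (Constraint Γ X)), ¬ Satisfiable I →
      ∃ (l : ℕ) (L : Fin l → Form (X × Bool)),
        IsDerivation tyRules 1 {φ | ∃ D ∈ cspCNF I, φ = clause D} L ∧
        (∃ i, L i = falsum) ∧ (∀ i, CountFree (L i)) ∧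
        size L ≤ (Fintype.card X + I.length + 2) ^ C := by
  refine ⟨6 * (3 * maxAr Γ + 4) + 4, fun X _ I hI => ?_⟩
  obtain ⟨l, L, h1, h2, h3, h4⟩ := (width Γ h X I hI).exists
  refine ⟨l, L, h1, h2, h3, h4.trans ?_⟩
  rw [Fintype.card_prod, Fintype.card_bool]
  exact width_size (by omega)

/-- **The easy case with counting gates modulo 2.** -/
theorem easy_affine (Γ : CLang Bool) (h : bSum ∈ Γ.Pol 3) : ∃ C : ℕ, ∀ (X : Type) [Fintype X]
      (I : List (Constraint Γ X)), ¬ Satisfiable I →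
      ∃ (l : ℕ) (L : Fin l → Form (X × Bool)),
        IsDerivation (tyRules ∪ insert kN (ceRules 2)) 4
          {φ | ∃ D ∈ cspCNF I, φ = clause D} L ∧
        (∃ i, L i = falsum) ∧ size L ≤ (Fintype.card X + I.length + 2) ^ C := by
  obtain ⟨C, hC⟩ := affine (maxAr Γ) (3 * maxAr Γ + 2) (by omega) (by omega)
  refine ⟨C, fun X _ I hI => ?_⟩
  have hF : Enc {D | D ∈ cspCNF I} (3 * maxAr Γ + 2) :=
    enc_csp (by omega) (by rw [Fintype.card_bool]; omega)
  obtain ⟨l, L, h1, h2, h3⟩ := hC X {D | D ∈ cspCNF I} hF (Fin I.length)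
    (fun j => Γ.ar (I.get j).i) (fun j => (I.get j).scope) (fun j => Γ.rel (I.get j).i)
    (fun j => ar_le Γ _) (fun j => has_csp (List.get_mem I j) ((ar_le Γ _).trans (by omega)))
    (fun r s t => bSum ![r, s, t]) (by decide) (fun j => pol_three h _) (unsat_csp hI)
  refine ⟨l, L, h1, h2, ?_⟩
  rw [Fintype.card_fin] at h3
  exact h3

end Pool.Agent.MP_9cec2c_lc.CS
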