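import Pool.Agent.Lib.MP_9cec2c_lc.CTFinal

/-!
Short refutations for the graphs with a loop and the bipartite graphs.
-/

set_option autoImplicit false
set_option linter.unusedSectionVars false

namespace Pool.Agent.MP_9cec2c_lc.CS

open FG MX CT
open TY (tyRules)

/-- Refutations of bounded width have polynomial size. -/
theorem easy_of_width {A : Type} [Fintype A] (Γ : CLang A) (b : ℕ)
    (h : ∀ (X : Type) [Fintype X] (I : List (Constraint Γ X)), ¬ Satisfiable I →
      Res {D | D ∈ cspCNF I} b []) : ∃ C : ℕ, ∀ (X : Type) [Fintype X]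
      (I : List (Constraint Γ X)), ¬ Satisfiable I →
      ∃ (l : ℕ) (L : Fin l → Form (X × A)),
        IsDerivation tyRules 1 {φ | ∃ D ∈ cspCNF I, φ = clause D} L ∧
        (∃ i, L i = falsum) ∧ (∀ i, CountFree (L i)) ∧
        size L ≤ (Fintype.card X + I.length + 2) ^ C := by
  obtain ⟨a, ha⟩ : ∃ a, a = Fintype.card A := ⟨_, rfl⟩
  refine ⟨(2 * a + 2) * (2 * b) + (2 * a + 2) + 2, fun X _ I hI => ?_⟩
  obtain ⟨l, L, h1, h2, h3, h4⟩ := (h X I hI).exists
  refine ⟨l, L, h1, h2, h3, h4.trans ?_⟩
  rw [Fintype.card_prod, ← ha]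
  obtain ⟨x, hx⟩ : ∃ x, x = Fintype.card X := ⟨_, rfl⟩
  obtain ⟨N, hN⟩ : ∃ N, N = Fintype.card X + I.length + 2 := ⟨_, rfl⟩
  rw [← hN, ← hx]
  have hxN : x + 2 ≤ N := by omega
  have hN1 : 1 ≤ N := by omega
  have k1 : 2 * (x * a) + 1 ≤ N ^ (2 * a + 2) := by
    have k2 : 2 * a + 1 ≤ 2 ^ (2 * a + 1) := (Nat.lt_pow_self (by omega : 1 < 2)).le
    have k3 : 2 ^ (2 * a + 1) ≤ N ^ (2 * a + 1) := Nat.pow_le_pow_left (by omega) _
    calc 2 * (x * a) + 1 ≤ (2 * a + 1) * N := by nlinarith
      _ ≤ N ^ (2 * a + 1) * N := Nat.mul_le_mul_right _ (k2.trans k3)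
      _ = N ^ (2 * a + 2) := (pow_succ _ _).symm
  have k4 : (2 * (x * a) + 1) ^ (2 * b) ≤ N ^ ((2 * a + 2) * (2 * b) + (2 * a + 2)) := by
    refine (Nat.pow_le_pow_left k1 _).trans ?_
    rw [← pow_mul]
    exact Nat.pow_le_pow_right hN1 (Nat.le_add_right _ _)
  have k5 : 2 * (x * a) ≤ N ^ ((2 * a + 2) * (2 * b) + (2 * a + 2)) :=
    (Nat.le_succ _).trans (k1.trans (Nat.pow_le_pow_right hN1 (Nat.le_add_left _ _)))
  have k6 : 4 ≤ N ^ 2 := Nat.pow_le_pow_left (by omega : 2 ≤ N) 2
  calc 2 * (2 * (x * a) + 1) ^ (2 * b) + 2 * (x * a) ≤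
        N ^ ((2 * a + 2) * (2 * b) + (2 * a + 2)) * 4 := by omega
    _ ≤ N ^ ((2 * a + 2) * (2 * b) + (2 * a + 2)) * N ^ 2 := Nat.mul_le_mul_left _ k6
    _ = _ := by rw [← pow_add]

section

variable {A X : Type} [Fintype A] {F : Set (List ((X × A) × Bool))} {b : ℕ}

/-- The values of one variable are distinguished. -/
theorem cut_values {D : List ((X × A) × Bool)} {y : X} (As : List A)
    (h : Res F b (As.map (fun a => ((y, a), true)) ++ D))
    (h' : ∀ a ∈ As, Res F b (((y, a), false) :: D)) : Res F b D := by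
  induction As with
  | nil => exact h
  | cons a As ih =>
    have hlen : (((y, a), true) :: (As.map (fun a => ((y, a), true)) ++ D)).length ≤ b := by
      have h1 := h.1
      rw [List.length_map, List.map_cons, List.cons_append] at h1
      exact h1
    rw [List.length_cons] at hlen
    refine ih ?_ fun a' ha' => h' a' (List.mem_cons_of_mem _ ha')
    refine Res.cut (v := (y, a)) h ((h' a List.mem_cons_self).sub ?_ ?_)
    · intro l hl
      rcases List.mem_cons.1 hl with rfl | hl
      · exact List.mem_cons_self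
      · exact List.mem_cons_of_mem _ (List.mem_append_right _ hl)
    · rw [List.length_cons]
      exact hlen

/-- The sum of the sides of the values of `x` and `y` is `t`. -/
def Side (F : Set (List ((X × A) × Bool))) (b : ℕ) (c : A → Bool) (t : Bool) (x y : X) : Prop :=
  ∀ a a', (c a ^^ c a') ≠ t → Res F b [((x, a), false), ((y, a'), false)]

variable {c : A → Bool}

theorem Side.symm (h2 : 2 ≤ b) {t : Bool} {x y : X} (h : Side F b c t x y) :
    Side F b c t y x := by
  intro a a' ha
  refine (h a' a (by rw [Bool.xor_comm]; exact ha)).sub ?_ (by simpa using h2)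
  intro l hl
  simp only [List.mem_cons, List.not_mem_nil, or_false] at hl ⊢
  tauto

theorem Side.refl (hF : Enc F b) (h2 : 2 ≤ b) (x : X) : Side F b c false x x := by
  intro a a' ha
  have hne : a ≠ a' := by
    rintro rfl
    exact ha (Bool.xor_self _)
  obtain ⟨C, hC, hCb, h⟩ := hF.uniq x a a' hne
  refine (Res.ax hC hCb).sub (fun l hl => ?_) (by simpa using h2)
  rcases h l hl with rfl | rfl
  · exact List.mem_cons_self
  · exact List.mem_cons_of_mem _ List.mem_cons_self

theorem value_clause (hF : Enc F b) {D : List ((X × A) × Bool)} (y : X)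
    (hb : Fintype.card A + D.length ≤ b) :
    Res F b ((Finset.univ : Finset A).toList.map (fun a => ((y, a), true)) ++ D) := by
  obtain ⟨C, hC, hCb, h⟩ := hF.some y
  refine (Res.ax hC hCb).sub (fun l hl => List.mem_append_left _ ?_) ?_
  · obtain ⟨h1, h2⟩ := h l hl
    refine List.mem_map.2 ⟨l.1.2, Finset.mem_toList.2 (Finset.mem_univ _), ?_⟩
    exact Prod.ext (Prod.ext h1.symm rfl) h2.symm
  · rw [List.length_append, List.length_map, Finset.length_toList, Finset.card_univ]
    exact hb

theorem Side.trans (hF : Enc F b) (hb : Fintype.card A + 3 ≤ b) {t s : Bool} {x y z : X}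
    (h : Side F b c t x y) (h' : Side F b c s y z) : Side F b c (t ^^ s) x z := by
  intro a a'' ha
  refine cut_values (y := y) _ (value_clause hF y (by simp only [List.length_cons, List.length_nil]; omega))
    fun a' _ => ?_
  by_cases h1 : (c a ^^ c a') = t
  · by_cases h2 : (c a' ^^ c a'') = s
    · refine absurd ?_ ha
      rw [← h1, ← h2]
      cases c a <;> cases c a' <;> cases c a'' <;> rfl
    · refine (h' a' a'' h2).sub ?_ (by simp only [List.length_cons, List.length_nil]; omega)
      intro l hl
      simp only [List.mem_cons, List.not_mem_nil, or_false] at hl ⊢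
      tauto
  · refine (h a a' h1).sub ?_ (by simp only [List.length_cons, List.length_nil]; omega)
    intro l hl
    simp only [List.mem_cons, List.not_mem_nil, or_false] at hl ⊢
    tauto

theorem Side.contra (hF : Enc F b) (hb : Fintype.card A + 3 ≤ b) {x : X}
    (h : Side F b c true x x) : Res F b [] := by
  refine cut_values (y := x) _ (value_clause hF x (by simp only [List.length_nil]; omega))
    fun a _ => ?_
  refine (h a a (by rw [Bool.xor_self]; simp)).sub ?_ (by
    simp only [List.length_cons, List.length_nil]; omega)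
  intro l hl
  simp only [List.mem_cons, List.not_mem_nil, or_false] at hl ⊢
  tauto

/-- The variables get sides such that all derived equations hold. -/
theorem exists_sides (hF : Enc F b) (hb : Fintype.card A + 3 ≤ b) (hno : ¬ Res F b []) :
    ∃ z : X → Bool, ∀ t x y, Side F b c t x y → (z x ^^ z y) = t := by
  classical
  have h2 : 2 ≤ b := by omega
  set s : Setoid X := ⟨fun x y => ∃ t, Side F b c t x y, fun x => ⟨false, Side.refl hF h2 x⟩,
    fun ⟨t, h⟩ => ⟨t, h.symm h2⟩, fun ⟨t, h⟩ ⟨t', h'⟩ => ⟨_, h.trans hF hb h'⟩⟩ with hs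
  have hrep : ∀ x : X, ∃ t, Side F b c t (Quotient.mk s x).out x := by
    intro x
    exact Quotient.exact (Quotient.out_eq (Quotient.mk s x))
  choose z hz using hrep
  refine ⟨z, fun t x y h => ?_⟩
  have h3 : Quotient.mk s x = Quotient.mk s y := Quotient.sound ⟨t, h⟩
  have h4 := hz x
  rw [h3] at h4
  have h5 := (h4.trans hF hb h).trans hF hb ((hz y).symm h2)
  by_contra hne
  refine hno (Side.contra hF hb (c := c) (x := (Quotient.mk s y).out) ?_)
  have h6 : ((z x ^^ t) ^^ z y) = true := by
    revert hne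
    cases z x <;> cases z y <;> cases t <;> simp
  rw [h6] at h5
  exact h5

end

/-- **Refutations of bounded width for bipartite graphs.** -/
theorem width_bipartite {A : Type} [Fintype A] (E : A → A → Prop) (hE : ∀ a b, E a b → E b a)
    (c : A → Bool) (hc : ∀ a b, E a b → c a ≠ c b) : ∀ (X : Type) [Fintype X]
      (I : List (Constraint (graphLang E) X)), ¬ Satisfiable I →
      Res {D | D ∈ cspCNF I} (3 * Fintype.card A + 5) [] := by
  classical
  intro X _ I hI
  have hF : Enc {D | D ∈ cspCNF I} (3 * Fintype.card A + 5) := enc_csp (by omega) (by omega)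
  rcases isEmpty_or_nonempty A with hA | hA
  · -- there are variables, which have no values
    have hX : ∃ x : X, True := by
      by_contra h1
      push Not at h1
      refine hI ⟨fun x => absurd (h1 x) not_false, fun c hc => ?_⟩
      exact absurd (h1 (c.scope (0 : Fin 2))) not_false
    obtain ⟨x, -⟩ := hX
    refine cut_values (y := x) _ (value_clause hF x (by simp only [List.length_nil]; omega))
      fun a _ => hA.elim a
  by_cases hedge : ∃ a b, E a b
  · obtain ⟨a₀, b₀, h0⟩ := hedge
    by_contra hno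
    obtain ⟨z, hz⟩ := exists_sides (c := c) hF (by omega) hno
    refine hI ⟨fun x => if z x = true then a₀ else b₀, fun q hq => ?_⟩
    have h1 : Side {D | D ∈ cspCNF I} (3 * Fintype.card A + 5) c true (q.scope (0 : Fin 2))
        (q.scope (1 : Fin 2)) := by
      intro a a' ha
      obtain ⟨C, hC, hCb, h2⟩ := has_csp (b := 3 * Fintype.card A + 5) hq (by
        show 2 ≤ _
        omega) (fun j : Fin 2 => if j = 0 then a else a') (by
          intro h3
          have h4 : E a a' := h3
          refine ha ?_
          have h5 := hc a a' h4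
          revert h5
          cases c a <;> cases c a' <;> simp)
      refine (Res.ax hC hCb).sub (fun l hl => ?_) (by simp only [List.length_cons, List.length_nil]; omega)
      obtain ⟨j, rfl⟩ := h2 l hl
      have hj : j = (0 : Fin 2) ∨ j = (1 : Fin 2) := by
        have : ∀ j : Fin 2, j = 0 ∨ j = 1 := by decide
        exact this j
      rcases hj with rfl | rfl
      · exact List.mem_cons_self
      · exact List.mem_cons_of_mem _ List.mem_cons_self
    have h2 := hz _ _ _ h1
    show E (if z (q.scope (0 : Fin 2)) = true then a₀ else b₀)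
      (if z (q.scope (1 : Fin 2)) = true then a₀ else b₀)
    revert h2
    cases z (q.scope (0 : Fin 2)) <;> cases z (q.scope (1 : Fin 2)) <;> intro h2
    · exact absurd h2 (by decide)
    · exact hE _ _ h0
    · exact h0
    · exact absurd h2 (by decide)
  · push Not at hedge
    have hI' : I ≠ [] := by
      rintro rfl
      exact hI ⟨fun _ => Classical.arbitrary A, fun q hq => absurd hq List.not_mem_nil⟩
    obtain ⟨q, hq⟩ := List.exists_mem_of_ne_nil I hI'
    refine hF.local (has_csp (b := 3 * Fintype.card A + 5) hq (by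
      show 2 ≤ _
      omega)) (List.ofFn q.scope) (fun i => List.mem_ofFn.2 ⟨i, rfl⟩) _
      (fun l hl => absurd hl List.not_mem_nil) ?_ fun z hz => absurd hz (hedge _ _)
    rw [List.length_ofFn]
    show 2 * Fintype.card A + 0 ≤ _
    omega

/-- **Graphs with a loop and bipartite graphs.** -/
theorem easy_graph {A : Type} [Fintype A] (E : A → A → Prop) (hE : ∀ a b, E a b → E b a)
    (h : (∃ a, E a a) ∨ ∃ c : A → Bool, ∀ a b, E a b → c a ≠ c b) :
    ∃ C : ℕ, ∀ (X : Type) [Fintype X] (I : List (Constraint (graphLang E) X)), ¬ Satisfiable I →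
      ∃ (l : ℕ) (L : Fin l → Form (X × A)),
        IsDerivation tyRules 1 {φ | ∃ D ∈ cspCNF I, φ = clause D} L ∧
        (∃ i, L i = falsum) ∧ (∀ i, CountFree (L i)) ∧
        size L ≤ (Fintype.card X + I.length + 2) ^ C := by
  rcases h with ⟨a, ha⟩ | ⟨c, hc⟩
  · exact ⟨0, fun X _ I hI => absurd ⟨fun _ => a, fun q _ => ha⟩ hI⟩
  · exact easy_of_width _ _ (width_bipartite E hE c hc)

end Pool.Agent.MP_9cec2c_lc.CS
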