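import Pool.Agent.Lib.MP_9cec2c_lc.CSFam
import Pool.Agent.Lib.MP_9cec2c_lc.CSClone
import Pool.Agent.Lib.MP_9cec2c_lc.CTFinal
import Pool.Agent.Lib.MP_9cec2c_lc.CTGraph
import Pool.Agent.Lib.MP_9cec2c_lc.CSHell

/-!
The classification of the Boolean languages and of the graphs.
-/

set_option autoImplicit false
set_option linter.unusedSectionVars false

namespace Pool.Agent.MP_9cec2c_lc.CS

open FG MX
open TY (tyRules)
open TU (kN)
open CE (ceRules)

/-- A derivation is a mixed derivation with a constant tag. -/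
theorem mixed_of_der {V : Type} {Q : Finset ℕ} {S : ℕ → Set Rule} {T : Set Rule} {d : ℕ}
    {Φ : Set (Form V)} {l : ℕ} {L : Fin l → Form V} {p : ℕ} (hp : p ∈ Q) (hT : T ⊆ S p)
    (h : IsDerivation T d Φ L) : IsMixed Q S d Φ (fun _ => p) L := by
  intro i
  obtain ⟨h1, h2⟩ := h i
  refine ⟨hp, h1, h2.imp id ?_⟩
  rintro ⟨R, hR, σ, τ, h3, h4⟩
  refine ⟨R, hT hR, σ, τ, fun P hP ψ hψ => ?_, h4⟩
  obtain ⟨j, hj, hL⟩ := h3 P hP ψ hψ
  exact ⟨j, hj, hL, Or.inl rfl⟩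

theorem exists_prime_notMem (Q : Finset ℕ) : ∃ p, p ∉ Q ∧ p.Prime := by
  obtain ⟨p, hp1, hp2⟩ := Nat.exists_infinite_primes (Q.sup id + 1)
  refine ⟨p, fun h => ?_, hp2⟩
  have := Finset.le_sup (f := id) h
  simp only [id] at this
  omega

/-- Hard problems have no refutations of polynomial size. -/
theorem CLang.Hard.not_poly {A : Type} [Fintype A] {Γ : CLang A} {H : Finset ℕ → Prop}
    (h : Γ.Hard H) {Q : Finset ℕ} (hQ : ∀ q ∈ Q, q.Prime) (hH : H Q) {S : ℕ → Set Rule}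
    (hS : ∀ q ∈ Q, (S q).Finite) (hsound : ∀ q ∈ Q, ∀ R ∈ S q, R.Sound q) (d : ℕ)
    (hp : Γ.Poly Q S d) : False := by
  obtain ⟨C, hp⟩ := hp
  obtain ⟨K, X, hX, I, h1, h2⟩ := h
  obtain ⟨c, hc, h3⟩ := h2 Q hQ hH S hS hsound
  obtain ⟨n, hn⟩ := num_contra hc d C K
  obtain ⟨h4, h5, h6⟩ := h1 n
  obtain ⟨l, τ, L, h7, h8, h9⟩ := hp (X n) (I n) h6
  have h10 := h3 n d l τ L (Or.inl ⟨h7, h8⟩)
  have h11 : size L ≤ (K * (n + 1) + K * (n + 1) + 2) ^ C :=
    h9.trans (Nat.pow_le_pow_left (by omega) C)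
  have h12 : (size L : ℝ) ≤ (((K * (n + 1) + K * (n + 1) + 2) ^ C : ℕ) : ℝ) := by exact_mod_cast h11
  linarith

/-- Mixed refutations with one prime are ordinary refutations. -/
theorem mixed_single {V : Type} {p : ℕ} {S : ℕ → Set Rule} {d : ℕ} {F : List (List (V × Bool))}
    {l : ℕ} {τ : Fin l → ℕ} {L : Fin l → Form V} :
    MixedRefutes {p} S d F τ L ↔ (∀ i, τ i = p) ∧ Refutes (S p) d F L := by
  have key : ∀ Φ : Set (Form V), IsMixed {p} S d Φ τ L ↔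
      (∀ i, τ i = p) ∧ IsDerivation (S p) d Φ L := by
    intro Φ
    constructor
    · intro h
      have hτ : ∀ i, τ i = p := fun i => Finset.mem_singleton.1 (h i).1
      refine ⟨hτ, fun i => ?_⟩
      obtain ⟨-, h1, h2⟩ := h i
      refine ⟨h1, h2.imp id ?_⟩
      rintro ⟨R, hR, σ, ρ, h3, h4⟩
      rw [hτ i] at hR
      refine ⟨R, hR, σ, ρ, fun P hP ψ hψ => ?_, h4⟩
      obtain ⟨j, hj, hL, -⟩ := h3 P hP ψ hψ
      exact ⟨j, hj, hL⟩
    · rintro ⟨hτ, h⟩ i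
      have e : τ = fun _ => p := funext hτ
      rw [e]
      exact mixed_of_der (Finset.mem_singleton_self p) subset_rfl h i
  unfold MixedRefutes Refutes
  rw [key, key]
  tauto

/-- On the empty set the only unary operation is a polymorphism. -/
theorem pol_empty {A : Type} [IsEmpty A] (Γ : CLang A) (f : (Fin 1 → A) → A) : f ∈ Γ.Pol 1 := by
  intro i t ht
  have h : (fun j => f fun k => t k j) = t 0 := by
    funext j
    exact isEmptyElim (t 0 j)
  rw [h]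
  exact ht 0

theorem nonempty_of_proj {A : Type} {Γ : CLang A} (h : Γ.ToProjections) : Nonempty A := by
  by_contra hA
  rw [not_nonempty_iff] at hA
  obtain ⟨ξ, hξ⟩ := h
  have h0 := hξ 0 1 (fun _ => 0) (fun x => x 0) (pol_empty Γ _)
  have h1 := hξ 0 1 (fun _ => 1) (fun x => x 0) (pol_empty Γ _)
  have h2 : minor (fun _ : Fin 1 => (0 : Fin 2)) (fun x : Fin 1 → A => x 0) =
      minor (fun _ : Fin 1 => (1 : Fin 2)) fun x : Fin 1 → A => x 0 := by
    funext x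
    exact isEmptyElim (x 0)
  rw [← h2, h0] at h1
  exact absurd h1 (by decide)

theorem nonempty_of_affine {A : Type} {Γ : CLang A} {r : ℕ} (hr : 2 ≤ r) (h : Γ.ToAffine r) :
    Nonempty A := by
  by_contra hA
  rw [not_nonempty_iff] at hA
  have : Fact (1 < r) := ⟨by omega⟩
  obtain ⟨ξ, hξ⟩ := h
  obtain ⟨h3, h4⟩ := hξ 1 (fun x => x 0) (pol_empty Γ _)
  rw [Fin.sum_univ_one] at h3
  have h0 := h4 2 (fun _ => 0) 0
  have h1 := h4 2 (fun _ => 1) 0
  have h2 : minor (fun _ : Fin 1 => (0 : Fin 2)) (fun x : Fin 1 → A => x 0) =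
      minor (fun _ : Fin 1 => (1 : Fin 2)) fun x : Fin 1 → A => x 0 := by
    funext x
    exact isEmptyElim (x 0)
  rw [← h2, h0] at h1
  simp [h3] at h1

variable {Γ : CLang Bool}

theorem hard_of_not_easy (h : ¬ Γ.Easy) : Γ.Hard fun Q => 2 ∉ Q := by
  have h1 : Γ.ToAffine 2 := toAffine_of (fun b hb => h (Or.inl ⟨b, hb⟩))
    (fun hb => h (Or.inr (Or.inl hb))) (fun hb => h (Or.inr (Or.inr (Or.inl hb))))
    (fun hb => h (Or.inr (Or.inr (Or.inr hb))))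
  obtain ⟨C, X, hX, I, h2, h3⟩ := hard_aff le_rfl h1
  refine ⟨C, X, hX, I, h2, fun Q hQ h2Q => h3 Q hQ fun q hq => ?_⟩
  refine (Nat.coprime_primes (hQ q hq) Nat.prime_two).2 ?_
  rintro rfl
  exact h2Q hq

theorem proj_of_not_easy (h : ¬ Γ.Easy) (hs : bSum ∉ Γ.Pol 3) : Γ.ToProjections :=
  toProjections_of (fun b hb => h (Or.inl ⟨b, hb⟩)) (fun hb => h (Or.inr (Or.inl hb)))
    (fun hb => h (Or.inr (Or.inr (Or.inl hb)))) (fun hb => h (Or.inr (Or.inr (Or.inr hb)))) hs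

/-- The classification. -/
theorem classify {S₀ : ℕ → Set Rule} (hty : ∀ q, tyRules ⊆ S₀ q)
    (hce : ∀ q, insert kN (ceRules q) ⊆ S₀ q) (Q : Finset ℕ) (hQ0 : Q.Nonempty)
    (hQ : ∀ q ∈ Q, q.Prime) (S : ℕ → Set Rule)
    (hS : ∀ q ∈ Q, (S q).Finite ∧ S₀ q ⊆ S q ∧ ∀ R ∈ S q, R.Sound q) (Γ : CLang Bool) :
    (∃ d, Γ.Poly Q S d) ↔ Γ.Easy ∨ (2 ∈ Q ∧ bSum ∈ Γ.Pol 3) := by
  constructor
  · rintro ⟨d, hp⟩
    by_contra hcon
    push Not at hcon
    obtain ⟨h1, h2⟩ := hcon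
    by_cases h3 : bSum ∈ Γ.Pol 3
    · exact (hard_of_not_easy h1).not_poly hQ (fun h => h2 h h3) (fun q hq => (hS q hq).1)
        (fun q hq => (hS q hq).2.2) d hp
    · obtain ⟨p, hpQ, hp'⟩ := exists_prime_notMem Q
      refine (hard_proj (proj_of_not_easy h1 h3) {p} (Finset.singleton_nonempty p) (by
        intro q hq
        rw [Finset.mem_singleton.1 hq]
        exact hp')).not_poly hQ (fun h => hpQ (h (Finset.mem_singleton_self p)))
        (fun q hq => (hS q hq).1) (fun q hq => (hS q hq).2.2) d hp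
  · rintro (h | ⟨h2, h⟩)
    · obtain ⟨q, hq⟩ := hQ0
      obtain ⟨C, hC⟩ := easy_width Γ h
      refine ⟨1, C, fun X _ I hI => ?_⟩
      obtain ⟨l, L, h1, h2, -, h4⟩ := hC X I hI
      exact ⟨l, _, L, mixed_of_der hq ((hty q).trans (hS q hq).2.1) h1, h2, h4⟩
    · obtain ⟨C, hC⟩ := easy_affine Γ h
      refine ⟨4, C, fun X _ I hI => ?_⟩
      obtain ⟨l, L, h1, h3, h4⟩ := hC X I hI
      refine ⟨l, _, L, mixed_of_der h2 ?_ h1, h3, h4⟩
      exact (Set.union_subset (hty 2) (hce 2)).trans (hS 2 h2).2.1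

/-- The hard graphs. -/
theorem hard_graph {A : Type} [Fintype A] {E : A → A → Prop} (hsymm : ∀ a b, E a b → E b a)
    (h : ¬ ((∃ a, E a a) ∨ ∃ c : A → Bool, ∀ a b, E a b → c a ≠ c b)) (P : Finset ℕ)
    (hP : P.Nonempty) (hp : ∀ p ∈ P, p.Prime) : (graphLang E).Hard fun Q => ¬ P ⊆ Q := by
  have hA : Nonempty A := by
    by_contra hA
    rw [not_nonempty_iff] at hA
    exact h (Or.inr ⟨fun _ => true, fun a => (hA.false a).elim⟩)
  exact hard_proj (hell_toProjections E hsymm (fun a ha => h (Or.inl ⟨a, ha⟩))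
    fun hc => h (Or.inr hc)) P hP hp

/-- The classification of the graphs. -/
theorem classify_graph {S₀ : ℕ → Set Rule} (hty : ∀ q, tyRules ⊆ S₀ q) (Q : Finset ℕ)
    (hQ0 : Q.Nonempty) (hQ : ∀ q ∈ Q, q.Prime) (S : ℕ → Set Rule)
    (hS : ∀ q ∈ Q, (S q).Finite ∧ S₀ q ⊆ S q ∧ ∀ R ∈ S q, R.Sound q) {A : Type} [Fintype A]
    (E : A → A → Prop) (hsymm : ∀ a b, E a b → E b a) :
    (∃ d, (graphLang E).Poly Q S d) ↔
      (∃ a, E a a) ∨ ∃ c : A → Bool, ∀ a b, E a b → c a ≠ c b := by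
  constructor
  · rintro ⟨d, hp⟩
    by_contra hcon
    obtain ⟨p, hpQ, hp'⟩ := exists_prime_notMem Q
    refine (hard_graph hsymm hcon {p} (Finset.singleton_nonempty p) (by
      intro q hq
      rw [Finset.mem_singleton.1 hq]
      exact hp')).not_poly hQ (fun h => hpQ (h (Finset.mem_singleton_self p)))
      (fun q hq => (hS q hq).1) (fun q hq => (hS q hq).2.2) d hp
  · intro h
    obtain ⟨q, hq⟩ := hQ0
    obtain ⟨C, hC⟩ := easy_graph E hsymm h
    refine ⟨1, C, fun X _ I hI => ?_⟩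
    obtain ⟨l, L, h1, h2, -, h4⟩ := hC X I hI
    exact ⟨l, _, L, mixed_of_der hq ((hty q).trans (hS q hq).2.1) h1, h2, h4⟩

end Pool.Agent.MP_9cec2c_lc.CS
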