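import Pool.Agent.Lib.MP_9cec2c_lc.CSTor
import Pool.Agent.Lib.MP_9cec2c_lc.CSHard

/-!
The gadget for the torus is reduced to the Tseitin formula modulo each of the numbers.
-/

set_option autoImplicit false
set_option linter.unusedSectionVars false

namespace Pool.Agent.MP_9cec2c_lc.CS

open Finset TT
open Flat (valueClauses eqClauses)
open CQ (dec dec_congr eq_of_holds vars_valueClauses vars_eqClauses)

section

variable {A U D K : Type} {G : Src U D K} {a₀ : A}

theorem CSLoc_node {b b' : U → D} {c : K} (h : ∀ e ∈ G.scope c, b e = b' e) (u : G.rel c → A) :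
    gval G a₀ b (.node c u) = gval G a₀ b' (.node c u) := by
  classical
  have h1 : (fun e : {e // e ∈ G.scope c} => b e) = fun e : {e // e ∈ G.scope c} => b' e :=
    funext fun e => h e.1 e.2
  unfold gval Src.Solves
  show (if h : (fun e : {e // e ∈ G.scope c} => b e) ∈ G.rel c then u ⟨_, h⟩ else a₀) =
    (if h : (fun e : {e // e ∈ G.scope c} => b' e) ∈ G.rel c then u ⟨_, h⟩ else a₀)
  generalize (fun e : {e // e ∈ G.scope c} => b e) = f at h1
  subst h1
  rfl

theorem CSLoc_nu {b b' : U → D} {c : K} (h : ∀ e ∈ G.scope c, b e = b' e) (u : G.rel c → A) :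
    gval G a₀ b (nu G c u) = gval G a₀ b' (nu G c u) := by
  classical
  unfold nu
  split_ifs with h1 h2
  · rfl
  · show h2.choose.2 (b h2.choose.1.1) = h2.choose.2 (b' h2.choose.1.1)
    rw [h _ h2.choose.1.2]
  · exact CSLoc_node h u

/-- The variables on which the value of a variable of the gadget depends. -/
def CSLoc_dep [DecidableEq U] (G : Src U D K) : GVar A G → Finset U
  | .val _ => ∅
  | .edge e _ => {e}
  | .node c _ => G.scope c

theorem CSLoc_congr [DecidableEq U] {b b' : U → D} {w : GVar A G}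
    (h : ∀ e ∈ CSLoc_dep G w, b e = b' e) : gval G a₀ b w = gval G a₀ b' w := by
  rcases w with a | ⟨e, α⟩ | ⟨c, u⟩
  · rfl
  · show α (b e) = α (b' e)
    rw [h e (mem_singleton_self e)]
  · exact CSLoc_node h u

end

variable {N : ℕ} [NeZero N] {J : Type} [Fintype J] {r : J → ℕ}

theorem CSLoc_scope (s : ∀ j, TV N → ZMod (r j)) (ν : J → TV N) :
    ((tsys s).scope ν).card ≤ 4 * Fintype.card J := by
  unfold tsys
  refine card_biUnion_le.trans ((sum_le_card_nsmul _ _ 4 fun j _ => torus_deg (ν j)).trans ?_)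
  rw [card_univ, smul_eq_mul, mul_comm]

/-- **The reduction.** The gadget for the torus is reduced to the Tseitin formula modulo `r j₀`. -/
theorem exists_local {A : Type} [Fintype A] [Nonempty A] (Γ : CLang A) {J : Type} [Fintype J]
    (r : J → ℕ) [∀ j, NeZero (r j)] (j₀ : J) :
    ∃ B : ℕ, ∀ (N : ℕ) [NeZero N] (s : ∀ j, TV N → ZMod (r j)),
      ∃ g, LocalRed (tseitin (torusSrc N) (torusTgt N) (r j₀) (s j₀)) B
        (cspCNF (gadget Γ (tsys s))) g := by
  classical
  obtain ⟨a₀⟩ := ‹Nonempty A›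
  obtain ⟨B, hB⟩ : ∃ B : ℕ, B = (4 * Fintype.card J + 1) * r j₀ + Fintype.card A + 2 +
      ∑ i, Γ.ar i := ⟨_, rfl⟩
  have hB1 : (4 * Fintype.card J + 1) * r j₀ ≤ B := by omega
  have hB2 : Fintype.card A ≤ B := by omega
  have hB3 : 2 ≤ B := by omega
  have hB4 : ∀ i, Γ.ar i ≤ B := by
    intro i
    have h1 : Γ.ar i ≤ ∑ i, Γ.ar i :=
      single_le_sum (f := fun i => Γ.ar i) (fun _ _ => Nat.zero_le _) (mem_univ i)
    omega
  refine ⟨B, fun N _ s => ?_⟩
  obtain ⟨G, hG⟩ : ∃ G : Src (TE N) (∀ j, ZMod (r j)) (J → TV N), G = tsys s := ⟨_, rfl⟩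
  obtain ⟨b, hb⟩ : ∃ b : (TE N × ZMod (r j₀) → Bool) → TE N → ∀ j, ZMod (r j),
      b = fun y e => Function.update (0 : ∀ j, ZMod (r j)) j₀ (dec y e) := ⟨_, rfl⟩
  obtain ⟨g, hg⟩ : ∃ g : (TE N × ZMod (r j₀) → Bool) → (GVar A G × A → Bool),
      g = fun y p => if gval G a₀ (b y) p.1 = p.2 then true else false := ⟨_, rfl⟩
  have hgt : ∀ y w a, g y (w, a) = true ↔ gval G a₀ (b y) w = a := by
    intro y w a
    rw [hg]
    by_cases h : gval G a₀ (b y) w = a
    · simp [h]
    · simp [h]
  have hbc : ∀ (Z : Finset (TE N)) (y y' : TE N × ZMod (r j₀) → Bool),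
      (∀ u ∈ Z ×ˢ (univ : Finset (ZMod (r j₀))), y u = y' u) → ∀ e ∈ Z, b y e = b y' e := by
    intro Z y y' h e he
    rw [hb]
    show Function.update (0 : ∀ j, ZMod (r j)) j₀ (dec y e) = Function.update (0 : ∀ j, ZMod (r j)) j₀ (dec y' e)
    rw [dec_congr fun c => h (e, c) (mem_product.2 ⟨he, mem_univ _⟩)]
  have hscope : ∀ ν, (G.scope ν).card ≤ 4 * Fintype.card J := by
    rw [hG]
    exact CSLoc_scope s
  have hdep : ∀ w : GVar A G, (CSLoc_dep G w).card ≤ 4 * Fintype.card J + 1 := by
    rintro (a | ⟨e, α⟩ | ⟨ν, u⟩)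
    · exact Nat.zero_le _
    · show ({e} : Finset (TE N)).card ≤ _
      rw [card_singleton]
      omega
    · exact (hscope ν).trans (Nat.le_succ _)
  have hZ : ∀ Z : Finset (TE N), Z.card ≤ 4 * Fintype.card J + 1 →
      (Z ×ˢ (univ : Finset (ZMod (r j₀)))).card ≤ B := by
    intro Z h
    rw [card_product, card_univ, ZMod.card]
    exact (Nat.mul_le_mul_right _ h).trans hB1
  have hgc : ∀ (w : GVar A G) (y y' : TE N × ZMod (r j₀) → Bool),
      (∀ u ∈ CSLoc_dep G w ×ˢ (univ : Finset (ZMod (r j₀))), y u = y' u) → ∀ a,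
      g y (w, a) = g y' (w, a) := by
    intro w y y' h a
    rw [Bool.eq_iff_iff, hgt, hgt, CSLoc_congr (hbc _ y y' h)]
  rw [← hG]
  refine ⟨g, ⟨?_, ?_, ?_⟩⟩
  · rintro ⟨w, a⟩
    exact ⟨CSLoc_dep G w ×ˢ (univ : Finset (ZMod (r j₀))), hZ _ (hdep w),
      fun y y' h => hgc w y y' h a⟩
  · intro D hD
    unfold cspCNF at hD
    rcases List.mem_append.1 hD with hD | hD
    · rcases List.mem_append.1 hD with hD | hD
      · obtain ⟨w, -, rfl⟩ := List.mem_map.1 hD
        rw [List.length_map, length_toList, card_univ]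
        exact hB2
      · obtain ⟨u, -, rfl⟩ := List.mem_map.1 hD
        exact hB3
    · obtain ⟨c, -, hD⟩ := List.mem_flatMap.1 hD
      obtain ⟨t, -, rfl⟩ := List.mem_map.1 hD
      rw [List.length_map, List.length_finRange]
      exact hB4 _
  · intro D hD
    unfold cspCNF at hD
    rcases List.mem_append.1 hD with hD | hD
    · rcases List.mem_append.1 hD with hD | hD
      · obtain ⟨w, -, rfl⟩ := List.mem_map.1 hD
        refine ⟨CSLoc_dep G w ×ˢ (univ : Finset (ZMod (r j₀))), hZ _ (hdep w),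
          fun y y' h l hl => ?_, fun y hy => ?_⟩
        · obtain ⟨a, -, rfl⟩ := List.mem_map.1 hl
          exact hgc w y y' h a
        · refine absurd ((hgt y w _).2 rfl) (hy ((w, _), true) (List.mem_map.2 ⟨_, ?_, rfl⟩))
          exact mem_toList.2 (mem_univ _)
      · obtain ⟨⟨w, a, a'⟩, hu, rfl⟩ := List.mem_map.1 hD
        have hne : a ≠ a' := (mem_filter.1 (mem_toList.1 hu)).2
        refine ⟨CSLoc_dep G w ×ˢ (univ : Finset (ZMod (r j₀))), hZ _ (hdep w),
          fun y y' h l hl => ?_, fun y hy => ?_⟩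
        · rcases List.mem_cons.1 hl with rfl | hl
          · exact hgc w y y' h a
          · rw [List.mem_singleton.1 hl]
            exact hgc w y y' h a'
        · have h1 : g y (w, a) ≠ false := hy ((w, a), false) (by simp)
          have h2 : g y (w, a') ≠ false := hy ((w, a'), false) (by simp)
          rw [Bool.ne_false_iff, hgt] at h1 h2
          exact absurd (h1.symm.trans h2) hne
    · obtain ⟨c, hc, hD⟩ := List.mem_flatMap.1 hD
      obtain ⟨t, ht, rfl⟩ := List.mem_map.1 hD
      obtain ⟨ν, i, u, hu, rfl⟩ := mem_gadget.1 hc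
      have ht' : t ∉ Γ.rel i := (mem_filter.1 (mem_toList.1 ht)).2
      refine ⟨G.scope ν ×ˢ (univ : Finset (ZMod (r j₀))), hZ _ ((hscope ν).trans (Nat.le_succ _)),
        fun y y' h l hl => ?_, fun y hy => ?_⟩
      · obtain ⟨j, -, rfl⟩ := List.mem_map.1 hl
        show g y (nu G ν (u j), t j) = g y' (nu G ν (u j), t j)
        rw [Bool.eq_iff_iff, hgt, hgt, CSLoc_nu (hbc _ y y' h)]
      · have h1 : ∀ j, gval G a₀ (b y) (nu G ν (u j)) = t j := by
          intro j
          have h2 : g y (nu G ν (u j), t j) ≠ false :=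
            hy ((nu G ν (u j), t j), false) (List.mem_map.2 ⟨j, List.mem_finRange j, rfl⟩)
          rwa [Bool.ne_false_iff, hgt] at h2
        have h2 : ¬ G.Solves (b y) ν := by
          intro h3
          refine ht' ?_
          have h4 : t = fun j => u j ⟨_, h3⟩ := by
            funext j
            rw [← h1 j, gval_nu G a₀ (b y) ν h3]
          rw [h4]
          exact hu _
        rw [hG, tsys_solves] at h2
        push Not at h2
        have h3 := h2 j₀
        have h4 : ∀ e, b y e j₀ = dec y e := by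
          intro e
          rw [hb]
          exact Function.update_self _ _ _
        simp only [h4] at h3
        by_contra hcon
        push Not at hcon
        have hsub : inc (torusSrc N) (torusTgt N) (ν j₀) ⊆ G.scope ν := by
          rw [hG]
          exact subset_biUnion_of_mem (fun j => inc (torusSrc N) (torusTgt N) (ν j))
            (mem_univ j₀)
        refine h3 (eq_of_holds _ _ _ y (fun e he K hK => ?_) fun K hK => ?_)
        · refine hcon K (mem_tseitin.2 (Or.inl ⟨e, hK⟩)) fun l hl => ?_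
          refine mem_product.2 ⟨?_, mem_univ _⟩
          rw [vars_valueClauses hK l hl]
          exact hsub he
        · refine hcon K (mem_tseitin.2 (Or.inr ⟨ν j₀, hK⟩)) fun l hl => ?_
          exact mem_product.2 ⟨hsub (vars_eqClauses hK l hl), mem_univ _⟩

end Pool.Agent.MP_9cec2c_lc.CS
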