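import Pool.Agent.Lib.MP_9cec2c_lc.CSGad
import Pool.Agent.Lib.MP_9cec2c_lc.TTCnf
import Pool.Agent.Lib.MP_9cec2c_lc.TVGrid

/-!
The system of constraints: every edge of the torus has a value modulo each of the numbers `r j`, and
for any choice of vertices `ν j` one of the equations of the vertices `ν j` modulo `r j` holds.
-/

set_option autoImplicit false
set_option linter.unusedSectionVars false

namespace Pool.Agent.MP_9cec2c_lc.CS

open Finset TT

/-- The vertices of the torus. -/
abbrev TV (N : ℕ) : Type := ZMod N × ZMod N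

/-- The edges of the torus. -/
abbrev TE (N : ℕ) : Type := (ZMod N × ZMod N) × Bool

variable {N : ℕ} [NeZero N] {J : Type} [Fintype J] {r : J → ℕ}

/-- The system of constraints. -/
noncomputable def tsys (s : ∀ j, TV N → ZMod (r j)) : Src (TE N) (∀ j, ZMod (r j)) (J → TV N) where
  scope ν := univ.biUnion fun j => inc (torusSrc N) (torusTgt N) (ν j)
  rel ν := {t | ∃ j, ∑ e, coef (torusSrc N) (torusTgt N) (r j) (ν j) e.1 * t e j = s j (ν j)}

private theorem CSTor_mem_scope (s : ∀ j, TV N → ZMod (r j)) (ν : J → TV N) (e : TE N) :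
    e ∈ (tsys s).scope ν ↔ ∃ j, e ∈ inc (torusSrc N) (torusTgt N) (ν j) := by
  change e ∈ univ.biUnion (fun j => inc (torusSrc N) (torusTgt N) (ν j)) ↔ _
  rw [mem_biUnion]
  simp only [mem_univ, true_and]

private theorem CSTor_coef_zero {k : ℕ} {v : TV N} {e : TE N}
    (he : e ∉ inc (torusSrc N) (torusTgt N) v) :
    coef (torusSrc N) (torusTgt N) k v e = 0 := by
  unfold inc at he
  rw [mem_filter] at he
  push Not at he
  have h := he (mem_univ _)
  unfold coef
  rw [if_neg h.1, if_neg h.2, sub_zero]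

/-- The sum over the scope is the sum over the edges at the vertex. -/
private theorem CSTor_sum_scope (s : ∀ j, TV N → ZMod (r j)) (ν : J → TV N) (j : J)
    (b : TE N → ZMod (r j)) :
    ∑ e : {e // e ∈ (tsys s).scope ν}, coef (torusSrc N) (torusTgt N) (r j) (ν j) e.1 * b e.1 =
      ∑ e ∈ inc (torusSrc N) (torusTgt N) (ν j),
        coef (torusSrc N) (torusTgt N) (r j) (ν j) e * b e := by
  rw [Finset.sum_coe_sort ((tsys s).scope ν)
    (fun e => coef (torusSrc N) (torusTgt N) (r j) (ν j) e * b e)]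
  symm
  apply Finset.sum_subset
  · intro e he
    exact (CSTor_mem_scope s ν e).2 ⟨j, he⟩
  · intro e _ he
    rw [CSTor_coef_zero he, zero_mul]

private theorem CSTor_sum_all {k : ℕ} (v : TV N) (b : TE N → ZMod k) :
    ∑ e ∈ inc (torusSrc N) (torusTgt N) v, coef (torusSrc N) (torusTgt N) k v e * b e =
      ∑ e, coef (torusSrc N) (torusTgt N) k v e * b e := by
  apply Finset.sum_subset (subset_univ _)
  intro e _ he
  rw [CSTor_coef_zero he, zero_mul]

private theorem CSTor_third (hN : 2 ≤ N) (v : TV N) (e e' : TE N) :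
    ∃ e'' ∈ inc (torusSrc N) (torusTgt N) v, e'' ≠ e ∧ e'' ≠ e' ∧
      ∀ k : ℕ, coef (torusSrc N) (torusTgt N) k v e'' * coef (torusSrc N) (torusTgt N) k v e'' =
        1 := by
  have : Fact (1 < N) := ⟨hN⟩
  obtain ⟨a, b⟩ := v
  have key : ∀ f ∈ ([((a, b), true), ((a, b), false), ((a - 1, b), true)] : List (TE N)),
      f ∈ inc (torusSrc N) (torusTgt N) (a, b) ∧
      ∀ k : ℕ, coef (torusSrc N) (torusTgt N) k (a, b) f *
        coef (torusSrc N) (torusTgt N) k (a, b) f = 1 := by
    intro f hf
    simp only [List.mem_cons, List.not_mem_nil, or_false] at hf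
    rcases hf with rfl | rfl | rfl
    · refine ⟨mem_filter.2 ⟨mem_univ _, Or.inl rfl⟩, fun k => ?_⟩
      simp [coef, torusSrc, torusTgt]
    · refine ⟨mem_filter.2 ⟨mem_univ _, Or.inl rfl⟩, fun k => ?_⟩
      simp [coef, torusSrc, torusTgt]
    · refine ⟨mem_filter.2 ⟨mem_univ _, Or.inr ?_⟩, fun k => ?_⟩
      · simp [torusTgt]
      · simp [coef, torusSrc, torusTgt]
  have hne : (((a, b), true) : TE N) ≠ ((a - 1, b), true) := by
    intro h
    rw [Prod.mk.injEq, Prod.mk.injEq] at h
    exact one_ne_zero (sub_eq_self.1 h.1.1.symm)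
  have h3 : ∃ f ∈ ([((a, b), true), ((a, b), false), ((a - 1, b), true)] : List (TE N)),
      f ≠ e ∧ f ≠ e' := by
    by_contra hcon
    push Not at hcon
    have h1 := hcon ((a, b), true) (by simp)
    have h2 := hcon ((a, b), false) (by simp)
    have h3 := hcon ((a - 1, b), true) (by simp)
    by_cases c1 : (((a, b), true) : TE N) = e
    · have c2 : (((a, b), false) : TE N) ≠ e := by rw [← c1]; simp
      have c3 : (((a - 1, b), true) : TE N) ≠ e := by rw [← c1]; exact hne.symm
      have d2 := h2 c2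
      have d3 := h3 c3
      rw [← d3] at d2
      simp at d2
    · have d1 := h1 c1
      have c2 : (((a, b), false) : TE N) = e := by
        by_contra c2
        have d2 := h2 c2
        rw [← d1] at d2
        simp at d2
      have c3 : (((a - 1, b), true) : TE N) ≠ e := by rw [← c2]; simp
      have d3 := h3 c3
      rw [← d1] at d3
      exact hne d3.symm
  obtain ⟨f, hf, h1, h2⟩ := h3
  exact ⟨f, (key f hf).1, h1, h2, (key f hf).2⟩

/-- TASK CSTor (1). Any two variables of a constraint are free: the torus has four edges at every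
vertex, with coefficients `1` and `-1`. -/
theorem tsys_free [Nonempty J] (hN : 2 ≤ N) (s : ∀ j, TV N → ZMod (r j)) : (tsys s).Free := by
  classical
  intro ν
  obtain ⟨j⟩ := (inferInstance : Nonempty J)
  constructor
  · refine ⟨⟨(ν j, true), (CSTor_mem_scope s ν _).2 ⟨j, mem_filter.2 ⟨mem_univ _, Or.inl rfl⟩⟩⟩,
      ⟨(ν j, false), (CSTor_mem_scope s ν _).2 ⟨j, mem_filter.2 ⟨mem_univ _, Or.inl rfl⟩⟩⟩, ?_⟩
    intro h
    have h2 := congrArg Subtype.val h
    simp at h2
  · intro e e' hee x y
    obtain ⟨e'', hm, h1, h2, h3⟩ := CSTor_third hN (ν j) e.1 e'.1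
    obtain ⟨f, hf⟩ : ∃ f : {e // e ∈ (tsys s).scope ν}, f.1 = e'' :=
      ⟨⟨e'', (CSTor_mem_scope s ν _).2 ⟨j, hm⟩⟩, rfl⟩
    have hfe : e ≠ f := fun h => h1 (by rw [← hf, h])
    have hfe' : e' ≠ f := fun h => h2 (by rw [← hf, h])
    have hk := h3 (r j)
    rw [← hf] at hk
    let t₀ : {e // e ∈ (tsys s).scope ν} → ∀ j, ZMod (r j) :=
      Function.update (Function.update (fun _ => 0) e x) e' y
    have ht₀e : t₀ e = x := by
      change Function.update (Function.update (fun _ => (0 : ∀ j, ZMod (r j))) e x) e' y e = x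
      rw [Function.update_of_ne hee, Function.update_self]
    have ht₀e' : t₀ e' = y := Function.update_self _ _ _
    let k := coef (torusSrc N) (torusTgt N) (r j) (ν j) f.1
    let S : ZMod (r j) := ∑ g ∈ univ.erase f,
      coef (torusSrc N) (torusTgt N) (r j) (ν j) g.1 * t₀ g j
    let z : ∀ j, ZMod (r j) := Function.update 0 j (k * (s j (ν j) - S))
    refine ⟨Function.update t₀ f z, ⟨j, ?_⟩, ?_, ?_⟩
    · change ∑ g : {e // e ∈ (tsys s).scope ν}, coef (torusSrc N) (torusTgt N) (r j) (ν j) g.1 *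
          Function.update t₀ f z g j = s j (ν j)
      rw [← Finset.add_sum_erase univ _ (mem_univ f), Function.update_self]
      have e1 : ∑ g ∈ univ.erase f, coef (torusSrc N) (torusTgt N) (r j) (ν j) g.1 *
          Function.update t₀ f z g j = S := by
        refine Finset.sum_congr rfl fun g hg => ?_
        rw [Function.update_of_ne (ne_of_mem_erase hg)]
      rw [e1]
      have e2 : z j = k * (s j (ν j) - S) := Function.update_self _ _ _
      rw [e2]
      change k * (k * (s j (ν j) - S)) + S = s j (ν j)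
      rw [← mul_assoc]
      change (k * k = 1) at hk
      rw [hk, one_mul, sub_add_cancel]
    · rw [Function.update_of_ne hfe, ht₀e]
    · rw [Function.update_of_ne hfe', ht₀e']

/-- TASK CSTor (2). The constraint `ν` is satisfied if and only if one of the equations is. -/
theorem tsys_solves (s : ∀ j, TV N → ZMod (r j)) (b : TE N → ∀ j, ZMod (r j)) (ν : J → TV N) :
    (tsys s).Solves b ν ↔
      ∃ j, ∑ e ∈ inc (torusSrc N) (torusTgt N) (ν j),
        coef (torusSrc N) (torusTgt N) (r j) (ν j) e * b e j = s j (ν j) := by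
  change (∃ j, ∑ e : {e // e ∈ (tsys s).scope ν},
    coef (torusSrc N) (torusTgt N) (r j) (ν j) e.1 * b e.1 j = s j (ν j)) ↔ _
  refine exists_congr fun j => ?_
  rw [CSTor_sum_scope s ν j fun e => b e j]

/-- TASK CSTor (3). The system has no solution. -/
theorem tsys_unsat (s : ∀ j, TV N → ZMod (r j)) (hs : ∀ j, ∑ v, s j v ≠ 0)
    (b : TE N → ∀ j, ZMod (r j)) : ∃ ν, ¬ (tsys s).Solves b ν := by
  have h : ∀ j, ∃ v, ∑ e ∈ inc (torusSrc N) (torusTgt N) v,
      coef (torusSrc N) (torusTgt N) (r j) v e * b e j ≠ s j v := by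
    intro j
    by_contra hcon
    push Not at hcon
    apply hs j
    rw [← Finset.sum_congr rfl fun v _ => hcon v]
    rw [Finset.sum_congr rfl fun v _ => CSTor_sum_all v fun e => b e j]
    rw [Finset.sum_comm]
    refine Finset.sum_eq_zero fun e _ => ?_
    unfold coef
    rw [← Finset.sum_mul, Finset.sum_sub_distrib, Finset.sum_ite_eq, Finset.sum_ite_eq,
      if_pos (mem_univ _), if_pos (mem_univ _), sub_self, zero_mul]
  choose ν hν using h
  refine ⟨ν, fun hsol => ?_⟩
  obtain ⟨j, hj⟩ := (tsys_solves s b ν).1 hsol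
  exact hν j hj

/-- TASK CSTor (4). The relations have boundedly many tuples. -/
theorem tsys_card [∀ j, NeZero (r j)] (s : ∀ j, TV N → ZMod (r j)) (ν : J → TV N) :
    Nat.card ((tsys s).rel ν) ≤ (∏ j, r j) ^ (4 * Fintype.card J) := by
  classical
  have h1 : Nat.card ((tsys s).rel ν) ≤
      Nat.card ({e // e ∈ (tsys s).scope ν} → ∀ j, ZMod (r j)) :=
    Nat.card_le_card_of_injective Subtype.val Subtype.val_injective
  have h2 : Nat.card ({e // e ∈ (tsys s).scope ν} → ∀ j, ZMod (r j)) =
      (∏ j, r j) ^ ((tsys s).scope ν).card := by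
    rw [Nat.card_eq_fintype_card, Fintype.card_fun, Fintype.card_coe, Fintype.card_pi]
    simp only [ZMod.card]
  have h3 : ((tsys s).scope ν).card ≤ 4 * Fintype.card J := by
    change (univ.biUnion fun j => inc (torusSrc N) (torusTgt N) (ν j)).card ≤ _
    refine (card_biUnion_le_card_mul _ _ 4 fun j _ => torus_deg (ν j)).trans ?_
    rw [card_univ, mul_comm]
  rw [h2] at h1
  refine h1.trans (Nat.pow_le_pow_right ?_ h3)
  exact Finset.prod_pos fun j _ => Nat.pos_of_ne_zero (NeZero.ne (r j))

/-- TASK CSTor (5). For one modulus the relations are affine. -/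
theorem tsys_affine {r : ℕ} [NeZero r] (s : Unit → TV N → ZMod r) (ν : Unit → TV N)
    [Fintype ((tsys (r := fun _ => r) s).rel ν)]
    (μ : (tsys (r := fun _ => r) s).rel ν → ZMod r) (hμ : ∑ t, μ t = 1) :
    (fun e => ∑ t, μ t • (t : {e // e ∈ (tsys (r := fun _ => r) s).scope ν} → Unit → ZMod r) e) ∈
      (tsys (r := fun _ => r) s).rel ν := by
  refine ⟨(), ?_⟩
  have h : ∀ t : (tsys (r := fun _ => r) s).rel ν,
      ∑ e : {e // e ∈ (tsys (r := fun _ => r) s).scope ν},
        coef (torusSrc N) (torusTgt N) r (ν ()) e.1 * t.1 e () = s () (ν ()) := by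
    intro t
    obtain ⟨j, hj⟩ := t.2
    exact hj
  calc ∑ e : {e // e ∈ (tsys (r := fun _ => r) s).scope ν},
        coef (torusSrc N) (torusTgt N) r (ν ()) e.1 *
          (∑ t, μ t • (t : {e // e ∈ (tsys (r := fun _ => r) s).scope ν} → Unit → ZMod r) e) ()
      = ∑ e : {e // e ∈ (tsys (r := fun _ => r) s).scope ν},
        ∑ t : (tsys (r := fun _ => r) s).rel ν,
          μ t * (coef (torusSrc N) (torusTgt N) r (ν ()) e.1 * t.1 e ()) := by
        refine Finset.sum_congr rfl fun e _ => ?_
        rw [Finset.sum_apply, Finset.mul_sum]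
        refine Finset.sum_congr rfl fun t _ => ?_
        rw [Pi.smul_apply, smul_eq_mul]
        ring
    _ = ∑ t : (tsys (r := fun _ => r) s).rel ν, μ t * s () (ν ()) := by
        rw [Finset.sum_comm]
        refine Finset.sum_congr rfl fun t _ => ?_
        rw [← Finset.mul_sum, h t]
    _ = s () (ν ()) := by
        rw [← Finset.sum_mul, hμ, one_mul]

end Pool.Agent.MP_9cec2c_lc.CS
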