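import Pool.Agent.Lib.MP_9cec2c_lc.CTLocal

/-!
Constraints closed under minority: if no assignment satisfies all constraints, then every
constraint implies a linear equation modulo 2 such that the sum of these equations is `0 = 1`.
-/

set_option autoImplicit false
set_option linter.unusedSectionVars false

namespace Pool.Agent.MP_9cec2c_lc.CT

open Finset

variable {X : Type} [Fintype X] [DecidableEq X]

/-- The value of a bit modulo 2. -/
def bit (a : Bool) : ZMod 2 := if a = true then 1 else 0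

theorem bit_inj {a a' : Bool} (h : bit a = bit a') : a = a' := by
  revert h
  cases a <;> cases a' <;> simp [bit]

theorem bit_surj (c : ZMod 2) : ∃ a, bit a = c := by
  revert c
  decide

theorem add_self2 (c : ZMod 2) : c + c = 0 := CharTwo.add_self_eq_zero c

/-- The values of a functional on vectors. -/
theorem functional (φ : (X → ZMod 2) →ₗ[ZMod 2] ZMod 2) (v : X → ZMod 2) :
    φ v = ∑ x, v x * φ (Pi.single x 1) := by
  conv_lhs => rw [← Finset.univ_sum_single v]
  rw [map_sum]
  refine sum_congr rfl fun x _ => ?_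
  have h : (Pi.single x (v x) : X → ZMod 2) = v x • Pi.single x 1 := by
    ext y
    by_cases hy : y = x
    · subst hy
      simp
    · simp [Pi.single_eq_of_ne hy]
  rw [h, map_smul, smul_eq_mul]

/-- The linear equations which follow from a constraint, and whose variables are variables of the
constraint. -/
def Eqs {k : ℕ} (x : Fin k → X) (R : Set (Fin k → Bool)) :
    Submodule (ZMod 2) ((X → ZMod 2) × ZMod 2) where
  carrier := {e | (∀ v, (∀ i, x i ≠ v) → e.1 v = 0) ∧
    ∀ z : X → Bool, z ∘ x ∈ R → ∑ v, e.1 v * bit (z v) = e.2}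
  zero_mem' := by
    refine ⟨fun _ _ => rfl, fun z _ => ?_⟩
    simp
  add_mem' := by
    rintro e e' ⟨h1, h2⟩ ⟨h3, h4⟩
    refine ⟨fun v hv => ?_, fun z hz => ?_⟩
    · show e.1 v + e'.1 v = 0
      rw [h1 v hv, h3 v hv, add_zero]
    · show ∑ v, (e.1 v + e'.1 v) * bit (z v) = e.2 + e'.2
      simp_rw [add_mul]
      rw [sum_add_distrib, h2 z hz, h4 z hz]
  smul_mem' := by
    rintro c e ⟨h1, h2⟩
    refine ⟨fun v hv => ?_, fun z hz => ?_⟩
    · show c * e.1 v = 0
      rw [h1 v hv, mul_zero]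
    · show ∑ v, (c * e.1 v) * bit (z v) = c * e.2
      simp_rw [mul_assoc]
      rw [← mul_sum, h2 z hz]

theorem mem_Eqs {k : ℕ} {x : Fin k → X} {R : Set (Fin k → Bool)} {e : (X → ZMod 2) × ZMod 2} :
    e ∈ Eqs x R ↔ (∀ v, (∀ i, x i ≠ v) → e.1 v = 0) ∧
      ∀ z : X → Bool, z ∘ x ∈ R → ∑ v, e.1 v * bit (z v) = e.2 := Iff.rfl

/-- A set of tuples closed under minority is given by its linear equations. -/
theorem mem_of_eqs {k : ℕ} {x : Fin k → X} {R : Set (Fin k → Bool)}
    {mi : Bool → Bool → Bool → Bool} (hmi : ∀ r s t, bit (mi r s t) = bit r + bit s + bit t)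
    (hcl : ∀ r ∈ R, ∀ s ∈ R, ∀ t ∈ R, (fun i => mi (r i) (s i) (t i)) ∈ R) {z : X → Bool}
    (h : ∀ e ∈ Eqs x R, ∑ v, e.1 v * bit (z v) = e.2) : z ∘ x ∈ R := by
  classical
  by_contra hz
  obtain ⟨z₀, hz₀⟩ : ∃ z₀ : X → Bool, z₀ ∘ x ∈ R := by
    by_contra h0
    push Not at h0
    have h1 : ((0, 1) : (X → ZMod 2) × ZMod 2) ∈ Eqs x R :=
      ⟨fun _ _ => rfl, fun z hz => absurd hz (h0 z)⟩
    have h2 := h _ h1
    simp at h2
  -- the differences
  set D : Submodule (ZMod 2) (X → ZMod 2) :=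
    { carrier := {u | ∃ z : X → Bool, z ∘ x ∈ R ∧
        ∀ v, u v = if ∃ i, x i = v then bit (z v) + bit (z₀ v) else 0}
      zero_mem' := by
        refine ⟨z₀, hz₀, fun v => ?_⟩
        split_ifs
        · exact (add_self2 _).symm
        · rfl
      add_mem' := by
        rintro u u' ⟨z, hz, hu⟩ ⟨z', hz', hu'⟩
        refine ⟨fun v => mi (z v) (z' v) (z₀ v), hcl _ hz _ hz' _ hz₀, fun v => ?_⟩
        show u v + u' v = _
        rw [hu v, hu' v]
        split_ifs
        · rw [hmi]
          ring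
        · exact add_zero 0
      smul_mem' := by
        rintro c u ⟨z, hz, hu⟩
        by_cases hc : c = 0
        · refine ⟨z₀, hz₀, fun v => ?_⟩
          show c * u v = _
          rw [hc, zero_mul]
          split_ifs
          · exact (add_self2 _).symm
          · rfl
        · have hc1 : c = 1 := by
            revert hc
            revert c
            decide
          refine ⟨z, hz, fun v => ?_⟩
          show c * u v = _
          rw [hc1, one_mul, hu v] } with hD
  set d : X → ZMod 2 := fun v => if ∃ i, x i = v then bit (z v) + bit (z₀ v) else 0 with hd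
  have hdD : d ∉ D := by
    rintro ⟨z', hz', h1⟩
    refine hz ?_
    have h2 : z ∘ x = z' ∘ x := by
      funext i
      have h3 := h1 (x i)
      rw [hd] at h3
      have h4 : ∃ i', x i' = x i := ⟨i, rfl⟩
      simp only [if_pos h4] at h3
      exact bit_inj (add_right_cancel h3)
    rw [h2]
    exact hz'
  obtain ⟨ψ, hψ, hψD⟩ := Submodule.exists_le_ker_of_notMem hdD
  have hψ0 : ∀ u ∈ D, ψ u = 0 := fun u hu => LinearMap.mem_ker.1 (hψD hu)
  set c : X → ZMod 2 := fun v => if ∃ i, x i = v then ψ (Pi.single v 1) else 0 with hc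
  have hsum : ∀ z' : X → Bool, ψ (fun v => if ∃ i, x i = v then bit (z' v) + bit (z₀ v) else 0) =
      ∑ v, c v * bit (z' v) + ∑ v, c v * bit (z₀ v) := by
    intro z'
    rw [functional, ← sum_add_distrib]
    refine sum_congr rfl fun v _ => ?_
    rw [hc]
    show (if ∃ i, x i = v then bit (z' v) + bit (z₀ v) else 0) * ψ (Pi.single v 1) =
      (if ∃ i, x i = v then ψ (Pi.single v 1) else 0) * bit (z' v) +
        (if ∃ i, x i = v then ψ (Pi.single v 1) else 0) * bit (z₀ v)
    split_ifs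
    · ring
    · simp
  have hceq : (c, ∑ v, c v * bit (z₀ v)) ∈ Eqs x R := by
    refine ⟨fun v hv => ?_, fun z' hz' => ?_⟩
    · show (if ∃ i, x i = v then ψ (Pi.single v 1) else 0) = 0
      rw [if_neg]
      rintro ⟨i, hi⟩
      exact hv i hi
    · show ∑ v, c v * bit (z' v) = ∑ v, c v * bit (z₀ v)
      have h1 := hsum z'
      rw [hψ0 _ ⟨z', hz', fun v => rfl⟩] at h1
      have h2 : ∑ v, c v * bit (z' v) =
          ∑ v, c v * bit (z' v) + ∑ v, c v * bit (z₀ v) + ∑ v, c v * bit (z₀ v) := by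
        rw [add_assoc, add_self2, add_zero]
      rw [h2, ← h1, zero_add]
  have h1 := h _ hceq
  have h2 : ψ d = 0 := by
    rw [hd, hsum z]
    have h3 : ∑ v, c v * bit (z v) = ∑ v, c v * bit (z₀ v) := h1
    rw [h3, add_self2]
  exact hψ h2

/-- **The contradictory sum of equations.** -/
theorem exists_eqs {J : Type} [Fintype J] (k : J → ℕ) (x : ∀ j, Fin (k j) → X)
    (R : ∀ j, Set (Fin (k j) → Bool)) (mi : Bool → Bool → Bool → Bool)
    (hmi : ∀ r s t, bit (mi r s t) = bit r + bit s + bit t)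
    (hcl : ∀ j, ∀ r ∈ R j, ∀ s ∈ R j, ∀ t ∈ R j, (fun i => mi (r i) (s i) (t i)) ∈ R j)
    (hun : ∀ z : X → Bool, ∃ j, z ∘ x j ∉ R j) :
    ∃ e : J → (X → ZMod 2) × ZMod 2, (∀ j, e j ∈ Eqs (x j) (R j)) ∧ ∑ j, e j = (0, 1) := by
  classical
  have key : ((0, 1) : (X → ZMod 2) × ZMod 2) ∈ ⨆ j ∈ (univ : Finset J), Eqs (x j) (R j) := by
    by_contra hno
    obtain ⟨φ, hφ, hφD⟩ := Submodule.exists_le_ker_of_notMem hno
    have h0 : ∀ j, ∀ e ∈ Eqs (x j) (R j), φ e = 0 := by
      intro j e he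
      refine LinearMap.mem_ker.1 (hφD ?_)
      exact Submodule.mem_iSup_of_mem j (Submodule.mem_iSup_of_mem (mem_univ j) he)
    have hφ1 : φ (0, 1) = 1 := by
      revert hφ
      generalize φ (0, 1) = c
      revert c
      decide
    have hφe : ∀ e : (X → ZMod 2) × ZMod 2,
        φ e = ∑ v, e.1 v * φ (Pi.single v 1, 0) + e.2 := by
      intro e
      have h1 : e = (e.1, 0) + e.2 • (0, 1) := by
        ext <;> simp
      have h2 : φ (e.1, 0) = ∑ v, e.1 v * φ (Pi.single v 1, 0) :=
        functional (φ.comp (LinearMap.inl (ZMod 2) (X → ZMod 2) (ZMod 2))) e.1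
      conv_lhs => rw [h1]
      rw [map_add, map_smul, hφ1, h2, smul_eq_mul, mul_one]
    choose z hz using fun v : X => bit_surj (φ (Pi.single v 1, 0))
    obtain ⟨j, hj⟩ := hun z
    refine hj (mem_of_eqs hmi (hcl j) fun e he => ?_)
    have h1 := h0 j e he
    rw [hφe] at h1
    have h2 : ∑ v, e.1 v * bit (z v) = ∑ v, e.1 v * φ (Pi.single v 1, 0) :=
      sum_congr rfl fun v _ => by rw [hz]
    rw [h2]
    have h3 : ∑ v, e.1 v * φ (Pi.single v 1, 0) =
        ∑ v, e.1 v * φ (Pi.single v 1, 0) + e.2 + e.2 := by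
      rw [add_assoc, add_self2, add_zero]
    rw [h3, h1, zero_add]
  obtain ⟨μ, hμ⟩ := (Submodule.mem_iSup_finset_iff_exists_sum _ _).1 key
  exact ⟨fun j => μ j, fun j => (μ j).2, hμ⟩

end Pool.Agent.MP_9cec2c_lc.CT
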