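import Pool.Agent.Lib.MP_9cec2c_lc.CTWidth

/-!
The clauses which follow from one constraint have derivations of bounded width.
-/

set_option autoImplicit false
set_option linter.unusedSectionVars false

namespace Pool.Agent.MP_9cec2c_lc.CT

open FG TY MX

variable {X A : Type} {F : Set (List ((X × A) × Bool))} {b : ℕ}

/-- The set `F` contains the clauses which say that every variable in `X` has exactly one value in
`A`. -/
structure Enc (F : Set (List ((X × A) × Bool))) (b : ℕ) : Prop where
  some : ∀ x, ∃ C ∈ F, C.length ≤ b ∧ ∀ l ∈ C, l.1.1 = x ∧ l.2 = true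
  uniq : ∀ x a a', a ≠ a' → ∃ C ∈ F, C.length ≤ b ∧ ∀ l ∈ C, l = ((x, a), false) ∨
    l = ((x, a'), false)

/-- The set `F` contains the clauses which exclude the tuples outside `R` at the variables `x`. -/
def Has (F : Set (List ((X × A) × Bool))) (b : ℕ) {k : ℕ} (x : Fin k → X)
    (R : Set (Fin k → A)) : Prop :=
  ∀ t, t ∉ R → ∃ C ∈ F, C.length ≤ b ∧ ∀ l ∈ C, ∃ j, l = ((x j, t j), false)

/-- The assignment `z` of the variables in `X` satisfies the clause `D`. -/
def Holds (z : X → A) (D : List ((X × A) × Bool)) : Prop :=
  ∃ l ∈ D, (z l.1.1 = l.1.2 ↔ l.2 = true)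

/-- **Local derivations.** A clause which holds for all assignments satisfying one constraint is
derived. -/
theorem Enc.local [Fintype A] [Nonempty A] (hF : Enc F b) {k : ℕ} {x : Fin k → X}
    {R : Set (Fin k → A)} (hR : Has F b x R) (W : List X) (hW : ∀ j, x j ∈ W)
    (D : List ((X × A) × Bool)) (hD : ∀ l ∈ D, l.1.1 ∈ W)
    (hb : W.length * Fintype.card A + D.length ≤ b)
    (h : ∀ z : X → A, z ∘ x ∈ R → Holds z D) : Res F b D := by
  classical
  refine Res.branch (W.flatMap fun x => Finset.univ.toList.map fun a : A => (x, a)) D ?_ ?_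
  · refine le_trans (Nat.add_le_add_right (le_of_eq ?_) _) hb
    clear hW hD hb
    induction W with
    | nil => simp
    | cons w W ih =>
      rw [List.flatMap_cons, List.length_append, ih, List.length_map, Finset.length_toList,
        List.length_cons, Nat.add_mul, one_mul, Finset.card_univ]
      omega
  · intro y hy
    have hmem : ∀ w ∈ W, ∀ a : A,
        (w, a) ∈ W.flatMap fun x => Finset.univ.toList.map fun a : A => (x, a) := by
      intro w hw a
      exact List.mem_flatMap.2 ⟨w, hw, List.mem_map.2 ⟨a, Finset.mem_toList.2 (Finset.mem_univ _),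
        rfl⟩⟩
    by_cases h1 : ∃ w ∈ W, ∀ a, y (w, a) = false
    · obtain ⟨w, hw, h2⟩ := h1
      obtain ⟨C, hC, hCb, h3⟩ := hF.some w
      refine ⟨C, hC, hCb, fun l hl h4 => ?_, fun l hl => Or.inl ?_⟩
      · obtain ⟨h5, h6⟩ := h3 l hl
        have h7 : l.1 = (w, l.1.2) := by rw [← h5]
        rw [h7, h2, h6] at h4
        exact Bool.false_ne_true h4
      · have h7 : l.1 = (w, l.1.2) := by rw [← (h3 l hl).1]
        rw [h7]
        exact hmem w hw _
    · by_cases h2 : ∃ w ∈ W, ∃ a a', a ≠ a' ∧ y (w, a) = true ∧ y (w, a') = true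
      · obtain ⟨w, hw, a, a', ha, h3, h4⟩ := h2
        obtain ⟨C, hC, hCb, h5⟩ := hF.uniq w a a' ha
        refine ⟨C, hC, hCb, fun l hl => ?_, fun l hl => Or.inl ?_⟩
        · rcases h5 l hl with rfl | rfl
          · rw [h3]
            simp
          · rw [h4]
            simp
        · rcases h5 l hl with rfl | rfl
          · exact hmem w hw _
          · exact hmem w hw _
      · have h3 : ∀ w ∈ W, ∃ a, y (w, a) = true := by
          intro w hw
          by_contra h4
          push Not at h4
          exact h1 ⟨w, hw, fun a => Bool.eq_false_of_not_eq_true (h4 a)⟩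
        obtain ⟨z, hz⟩ : ∃ z : X → A, ∀ w ∈ W, y (w, z w) = true := by
          refine ⟨fun w => if hw : w ∈ W then (h3 w hw).choose else Classical.arbitrary A,
            fun w hw => ?_⟩
          show y (w, if hw : w ∈ W then (h3 w hw).choose else Classical.arbitrary A) = true
          rw [dif_pos hw]
          exact (h3 w hw).choose_spec
        have hz' : ∀ w ∈ W, ∀ a, y (w, a) = true → a = z w := by
          intro w hw a ha
          by_contra h4
          exact h2 ⟨w, hw, a, z w, h4, ha, hz w hw⟩
        have h4 : z ∘ x ∉ R := by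
          intro h5
          obtain ⟨l, hl, h6⟩ := h z h5
          have h7 := hy l hl
          have h8 := hD l hl
          rcases hl2 : l.2 with _ | _
          · rw [hl2] at h6 h7
            have h9 : y l.1 = true := by
              rcases h10 : y l.1 with _ | _
              · exact absurd h10 h7
              · rfl
            have h11 : y (l.1.1, l.1.2) = true := h9
            have h12 := h6.1 (hz' _ h8 _ h11).symm
            exact Bool.false_ne_true h12
          · rw [hl2] at h6 h7
            have h9 : z l.1.1 = l.1.2 := h6.2 rfl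
            refine h7 ?_
            have h10 : l.1 = (l.1.1, z l.1.1) := by rw [h9]
            rw [h10]
            exact hz _ h8
        obtain ⟨C, hC, hCb, h5⟩ := hR _ h4
        refine ⟨C, hC, hCb, fun l hl => ?_, fun l hl => Or.inl ?_⟩
        · obtain ⟨j, rfl⟩ := h5 l hl
          show y (x j, z (x j)) ≠ false
          rw [hz _ (hW j)]
          simp
        · obtain ⟨j, rfl⟩ := h5 l hl
          exact hmem _ (hW j) _

end Pool.Agent.MP_9cec2c_lc.CT
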