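import Pool.Agent.Lib.MP_9cec2c_lc.CTAffEq
import Pool.Agent.Lib.MP_9cec2c_lc.TTDefs

/-!
The multigraph of a sum of equations in which everything cancels: its edges are pairs of occurrences
of one variable.
-/

set_option autoImplicit false
set_option linter.unusedSectionVars false

namespace Pool.Agent.MP_9cec2c_lc.CT

open Finset
open TT (inc coef)

/-- A set with an even number of members consists of pairs. -/
theorem pairs {J : Type} [DecidableEq J] (T : Finset J) (h : Even T.card) :
    ∃ n : ℕ, n ≤ T.card ∧ Nonempty (T ≃ Fin n ⊕ Fin n) := by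
  obtain ⟨n, hn⟩ := h
  refine ⟨n, by omega, ⟨?_⟩⟩
  exact (T.equivFinOfCardEq hn).trans finSumFinEquiv.symm

/-- **The multigraph.** `S j` is the set of the variables of the equation `j`. -/
theorem exists_graph {J X : Type} [Fintype J] [Fintype X] [DecidableEq J] [DecidableEq X]
    (S : J → Finset X) (h : ∀ v, Even (univ.filter fun j => v ∈ S j).card) :
    ∃ (E : Type) (_ : Fintype E) (_ : DecidableEq E) (src tgt : E → J) (var : E → X),
      Fintype.card E ≤ Fintype.card X * Fintype.card J ∧ (∀ e, src e ≠ tgt e) ∧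
      (∀ j, ∀ e ∈ inc src tgt j, var e ∈ S j) ∧
      (∀ j, ∀ e ∈ inc src tgt j, ∀ e' ∈ inc src tgt j, var e = var e' → e = e') ∧
      ∀ j, ∀ v ∈ S j, ∃ e ∈ inc src tgt j, var e = v := by
  classical
  choose n hn he using fun v => pairs _ (h v)
  set eq : ∀ v, {j // j ∈ univ.filter fun j => v ∈ S j} ≃ Fin (n v) ⊕ Fin (n v) :=
    fun v => (he v).some with heq
  refine ⟨Σ v, Fin (n v), inferInstance, inferInstance,
    fun e => ((eq e.1).symm (Sum.inl e.2)).1, fun e => ((eq e.1).symm (Sum.inr e.2)).1,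
    fun e => e.1, ?_, ?_, ?_, ?_, ?_⟩
  · rw [Fintype.card_sigma]
    simp only [Fintype.card_fin]
    calc ∑ v, n v ≤ ∑ _v : X, Fintype.card J :=
          sum_le_sum fun v _ => (hn v).trans (card_le_univ _)
      _ = _ := by rw [sum_const, card_univ, smul_eq_mul]
  · intro e h1
    have h2 := Subtype.ext h1
    have h3 := (eq e.1).symm.injective h2
    exact absurd h3 (by simp)
  · intro j e hej
    rcases (mem_filter.1 hej).2 with h1 | h1
    · have h2 := ((eq e.1).symm (Sum.inl e.2)).2
      rw [show ((eq e.1).symm (Sum.inl e.2)).1 = j from h1] at h2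
      exact (mem_filter.1 h2).2
    · have h2 := ((eq e.1).symm (Sum.inr e.2)).2
      rw [show ((eq e.1).symm (Sum.inr e.2)).1 = j from h1] at h2
      exact (mem_filter.1 h2).2
  · rintro j ⟨v, i⟩ h1 ⟨v', i'⟩ h2 h3
    have h3' : v = v' := h3
    subst h3'
    have h4 : i = i' := by
      rcases (mem_filter.1 h1).2 with h1 | h1 <;> rcases (mem_filter.1 h2).2 with h2 | h2
      · have h5 := (eq v).symm.injective (Subtype.ext (h1.trans h2.symm))
        simpa using h5
      · have h5 := (eq v).symm.injective (Subtype.ext (h1.trans h2.symm))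
        exact absurd h5 (by simp)
      · have h5 := (eq v).symm.injective (Subtype.ext (h1.trans h2.symm))
        exact absurd h5 (by simp)
      · have h5 := (eq v).symm.injective (Subtype.ext (h1.trans h2.symm))
        simpa using h5
    rw [h4]
  · intro j v hv
    have h1 : j ∈ univ.filter fun j => v ∈ S j := mem_filter.2 ⟨mem_univ _, hv⟩
    rcases h2 : eq v ⟨j, h1⟩ with i | i
    · refine ⟨⟨v, i⟩, mem_filter.2 ⟨mem_univ _, Or.inl ?_⟩, rfl⟩
      show ((eq v).symm (Sum.inl i)).1 = j
      rw [← h2, Equiv.symm_apply_apply]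
    · refine ⟨⟨v, i⟩, mem_filter.2 ⟨mem_univ _, Or.inr ?_⟩, rfl⟩
      show ((eq v).symm (Sum.inr i)).1 = j
      rw [← h2, Equiv.symm_apply_apply]

/-- The coefficients modulo 2. -/
theorem coef_two {J E : Type} [Fintype J] [Fintype E] [DecidableEq J] [DecidableEq E]
    {src tgt : E → J} (h : ∀ e, src e ≠ tgt e) {j : J} {e : E} (he : e ∈ inc src tgt j) :
    coef src tgt 2 j e = 1 := by
  unfold coef
  rcases (mem_filter.1 he).2 with h1 | h1
  · rw [if_pos h1, if_neg (fun h2 => h e (h1.trans h2.symm))]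
    simp
  · rw [if_pos h1, if_neg (fun h2 => h e (h2.trans h1.symm))]
    decide

/-- The sum over the edges at a vertex is the sum over the variables of its equation. -/
theorem sum_inc {J X E : Type} [Fintype J] [Fintype X] [DecidableEq J] [DecidableEq X]
    [Fintype E] [DecidableEq E] {S : J → Finset X} {src tgt : E → J} {var : E → X} {j : J}
    (h1 : ∀ e ∈ inc src tgt j, var e ∈ S j)
    (h2 : ∀ e ∈ inc src tgt j, ∀ e' ∈ inc src tgt j, var e = var e' → e = e')
    (h3 : ∀ v ∈ S j, ∃ e ∈ inc src tgt j, var e = v) (g : X → ZMod 2) :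
    ∑ e ∈ inc src tgt j, g (var e) = ∑ v ∈ S j, g v :=
  sum_bij (fun e _ => var e) h1 (fun e he e' he' h => h2 e he e' he' h)
    (fun v hv => by
      obtain ⟨e, he, hv⟩ := h3 v hv
      exact ⟨e, he, hv⟩) fun _ _ => rfl

theorem card_inc {J X E : Type} [Fintype J] [Fintype X] [DecidableEq J] [DecidableEq X]
    [Fintype E] [DecidableEq E] {S : J → Finset X} {src tgt : E → J} {var : E → X} {j : J}
    (h1 : ∀ e ∈ inc src tgt j, var e ∈ S j)
    (h2 : ∀ e ∈ inc src tgt j, ∀ e' ∈ inc src tgt j, var e = var e' → e = e') :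
    (inc src tgt j).card ≤ (S j).card :=
  card_le_card_of_injOn var h1 fun e he e' he' h => h2 e he e' he' h

end Pool.Agent.MP_9cec2c_lc.CT
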