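import Pool.Agent.Lib.MP_9cec2c_lc.Mg.G024
import Pool.Agent.Lib.MP_9cec2c_lc.MXDefs

/-!
Refutations of bounded width: all lines are clauses with few literals.
-/

set_option autoImplicit false
set_option linter.unusedSectionVars false

namespace Pool.Agent.MP_9cec2c_lc.CT

open FG TY MX

variable {V : Type} {F : Set (List (V × Bool))} {b : ℕ} {C D : List (V × Bool)}

/-- The clause `D` with at most `b` literals has a derivation from the clauses in `F` whose lines are
clauses with at most `2 * b` literals. -/
def Res (F : Set (List (V × Bool))) (b : ℕ) (D : List (V × Bool)) : Prop :=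
  Sb {φ | ∃ C ∈ F, φ = clause C} (Set.range Form.var) b (D.map lit)

theorem lit_isLit (l : V × Bool) : Lit (Set.range Form.var) (lit l) := by
  rcases l with ⟨v, t⟩
  cases t
  · exact Or.inr ⟨.var v, ⟨v, rfl⟩, rfl⟩
  · exact Or.inl ⟨v, rfl⟩

theorem lits_isLit (D : List (V × Bool)) : ∀ χ ∈ D.map lit, Lit (Set.range Form.var) χ := by
  intro χ hχ
  obtain ⟨l, -, rfl⟩ := List.mem_map.1 hχ
  exact lit_isLit l

theorem Res.ax (h : C ∈ F) (hb : C.length ≤ b) : Res F b C :=
  Sb.ax ⟨C, h, rfl⟩ (by rw [List.length_map]; exact hb) (lits_isLit C)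

theorem Res.sub (h : Res F b C) (hs : ∀ l ∈ C, l ∈ D) (hb : D.length ≤ b) : Res F b D := by
  refine Sb.sub h ?_ (by rw [List.length_map]; exact hb) (lits_isLit D)
  intro φ hφ
  obtain ⟨l, hl, rfl⟩ := List.mem_map.1 hφ
  exact List.mem_map.2 ⟨l, hs l hl, rfl⟩

theorem Res.cut {v : V} (h : Res F b ((v, true) :: D)) (h' : Res F b ((v, false) :: D)) :
    Res F b D := by
  have h1 : Sb {φ | ∃ C ∈ F, φ = clause C} (Set.range Form.var) b
      (.var v :: D.map lit) := h
  have h2 : Sb {φ | ∃ C ∈ F, φ = clause C} (Set.range Form.var) b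
      (.neg (.var v) :: D.map lit) := h'
  exact h1.cut h2

theorem Res.em (hb : 2 ≤ b) (v : V) : Res F b [(v, false), (v, true)] :=
  Sb.em hb ⟨v, rfl⟩

/-- **Local derivations.** The clause `D` is derived if every assignment which falsifies it
falsifies a clause in `F` whose variables are in `Z` or in `D`. -/
theorem Res.branch (Z : List V) : ∀ D : List (V × Bool), Z.length + D.length ≤ b →
    (∀ y : V → Bool, (∀ l ∈ D, y l.1 ≠ l.2) → ∃ C ∈ F, C.length ≤ b ∧
      (∀ l ∈ C, y l.1 ≠ l.2) ∧ ∀ l ∈ C, l.1 ∈ Z ∨ ∃ t, (l.1, t) ∈ D) → Res F b D := by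
  classical
  induction Z with
  | nil =>
    intro D hb h
    have hb' : D.length ≤ b := by simpa using hb
    by_cases hD : ∃ v, (v, true) ∈ D ∧ (v, false) ∈ D
    · obtain ⟨v, h1, h2⟩ := hD
      have h3 : 2 ≤ D.length := by
        by_contra h4
        have h5 : D.length ≤ 1 := by omega
        rcases D with _ | ⟨l, D⟩
        · exact absurd h1 List.not_mem_nil
        · have h6 : D = [] := List.eq_nil_of_length_eq_zero (by
            rw [List.length_cons] at h5
            omega)
          subst h6
          rw [List.mem_singleton] at h1 h2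
          have h7 := h1.trans h2.symm
          simp at h7
      refine (Res.em (h3.trans hb') v).sub ?_ hb'
      intro l hl
      simp only [List.mem_cons, List.not_mem_nil, or_false] at hl
      rcases hl with rfl | rfl
      · exact h2
      · exact h1
    · obtain ⟨C, hC, hCb, h1, h2⟩ := h (fun v => decide ((v, false) ∈ D)) (by
        rintro ⟨v, t⟩ hl h3
        cases t
        · have h4 : decide ((v, false) ∈ D) = true := decide_eq_true hl
          exact Bool.false_ne_true (h3.symm.trans h4)
        · exact hD ⟨v, hl, of_decide_eq_true h3⟩)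
      refine (Res.ax hC hCb).sub ?_ hb'
      rintro ⟨v, t⟩ hl
      rcases h2 _ hl with h3 | ⟨t', h3⟩
      · exact absurd h3 List.not_mem_nil
      · have h4 := h1 _ hl
        cases t
        · by_contra h5
          refine h4 ?_
          show decide ((v, false) ∈ D) = false
          exact decide_eq_false h5
        · cases t'
          · refine absurd ?_ h4
            show decide ((v, false) ∈ D) = true
            exact decide_eq_true h3
          · exact h3
  | cons v Z ih =>
    intro D hb h
    rw [List.length_cons] at hb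
    have key : ∀ t : Bool, Res F b ((v, t) :: D) := by
      intro t
      refine ih _ (by rw [List.length_cons]; omega) fun y hy => ?_
      obtain ⟨C, hC, hCb, h1, h2⟩ := h y fun l hl => hy l (List.mem_cons_of_mem _ hl)
      refine ⟨C, hC, hCb, h1, fun l hl => ?_⟩
      rcases h2 l hl with h3 | ⟨t', h3⟩
      · rcases List.mem_cons.1 h3 with h4 | h4
        · exact Or.inr ⟨t, by rw [h4]; exact List.mem_cons_self⟩
        · exact Or.inl h4
      · exact Or.inr ⟨t', List.mem_cons_of_mem _ h3⟩
    exact (key true).cut (key false)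

theorem vars_depth : ∀ φ ∈ (Set.range Form.var : Set (Form V)), φ.depth ≤ 0 := by
  rintro φ ⟨v, rfl⟩
  exact le_rfl

theorem vars_parts : ∀ φ ∈ (Set.range Form.var : Set (Form V)), ∀ ψ ∈ φ.parts,
    ψ ∈ (Set.range Form.var : Set (Form V)) := by
  rintro φ ⟨v, rfl⟩ ψ hψ
  have h1 : ψ = .var v := hψ
  exact ⟨v, h1.symm⟩

theorem vars_card [Fintype V] : (Set.range Form.var : Set (Form V)).ncard ≤ Fintype.card V := by
  rw [← Set.image_univ]
  refine (Set.ncard_image_le Set.finite_univ).trans ?_
  rw [Set.ncard_univ, Nat.card_eq_fintype_card]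

theorem lines_cf {c : ℕ} : ∀ φ ∈ Lines (Set.range Form.var : Set (Form V)) c, CountFree φ := by
  rintro φ ⟨Λ, -, h, rfl⟩
  intro i
  rcases h _ (List.get_mem Λ i) with ⟨v, hv⟩ | ⟨ψ, ⟨v, rfl⟩, hv⟩
  · rw [← hv]
    exact trivial
  · rw [hv]
    exact trivial

/-- **Refutations of bounded width have polynomial size.** -/
theorem Res.exists [Fintype V] (h : Res F b []) :
    ∃ (l : ℕ) (L : Fin l → Form V), IsDerivation tyRules 1 {φ | ∃ C ∈ F, φ = clause C} L ∧
      (∃ i, L i = falsum) ∧ (∀ i, CountFree (L i)) ∧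
      size L ≤ 2 * (2 * Fintype.card V + 1) ^ (2 * b) + 2 * Fintype.card V := by
  obtain ⟨l, L, h1, h2, h3, h4⟩ := sb_exists (Set.finite_range _) vars_card vars_depth vars_parts h
  exact ⟨l, L, h1, h2, fun i => lines_cf _ (h3 i), h4⟩

end Pool.Agent.MP_9cec2c_lc.CT
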