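import Mathlib
import Pool.Agent.Lib.MP_9cec2c_lc.Separate
import Pool.Agent.Lib.MP_9cec2c_lc.Approx

set_option autoImplicit false
set_option linter.unusedSectionVars false
set_option linter.unusedSimpArgs false
set_option linter.unusedVariables false

namespace Pool.Agent.Lib.MP_9cec2c_lc

open Finset

/-- leaf functions: instance bits, certificate bits, random bits -/
def leaf {α ι : Type} {w r : ℕ} (Φ : (ι → Bool) → α → Bool) (z : Fin w → Bool) (s : Fin r → Bool) :
    α ⊕ Fin w ⊕ Fin r → (ι → Bool) → Bool :=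
  fun j x => Sum.elim (Φ x) (Sum.elim z s) j

section Root

/-- A field of characteristic `p` with a nontrivial root of unity of order dividing 6 and prime to
`p`. -/
lemma exists_field (p : ℕ) [hp : Fact p.Prime] :
    ∃ (F : Type) (_ : Field F) (_ : CharP F p) (q : ℕ) (ω : F), q ∣ 6 ∧ ω ^ q = 1 ∧ ω ≠ 1 := by
  by_cases h2 : p = 2
  · subst h2
    obtain ⟨ω, hω⟩ := IsAlgClosed.exists_root (k := AlgebraicClosure (ZMod 2))
      (Polynomial.X ^ 2 + Polynomial.X + 1) (by
        have : (Polynomial.X ^ 2 + Polynomial.X + 1 : Polynomial (AlgebraicClosure (ZMod 2))).degree = 2 := by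
          compute_degree!
        rw [this]
        norm_num)
    refine ⟨AlgebraicClosure (ZMod 2), inferInstance, inferInstance, 3, ω, by norm_num, ?_, ?_⟩
    · simp only [Polynomial.IsRoot.def, Polynomial.eval_add, Polynomial.eval_pow, Polynomial.eval_X,
        Polynomial.eval_one] at hω
      have : ω ^ 3 - 1 = (ω - 1) * (ω ^ 2 + ω + 1) := by ring
      rw [hω, mul_zero] at this
      exact sub_eq_zero.mp this
    · rintro rfl
      simp only [Polynomial.IsRoot.def, Polynomial.eval_add, Polynomial.eval_pow, Polynomial.eval_X,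
        Polynomial.eval_one, one_pow] at hω
      have h3 : (1 : AlgebraicClosure (ZMod 2)) + 1 = 0 := CharTwo.add_self_eq_zero 1
      rw [h3, zero_add] at hω
      exact one_ne_zero hω
  · refine ⟨ZMod p, inferInstance, inferInstance, 2, -1, by norm_num, by norm_num, ?_⟩
    have : Fact (2 < p) := ⟨lt_of_le_of_ne hp.out.two_le (Ne.symm h2)⟩
    exact ZMod.neg_one_ne_one

end Root

section Cover

variable {α ι : Type} [Fintype ι] [DecidableEq ι] {S w r : ℕ}

/-- Bound for a single certificate. -/
theorem single_bound (p : ℕ) [hp : Fact p.Prime] (C : Circuit (α ⊕ Fin w ⊕ Fin r) S)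
    (d : ℕ) (hd : C.depth ≤ d) (Φ : (ι → Bool) → α → Bool)
    (hΦ : ∀ (F : Type) [Field F] (j : α), (fun x => (ind (Φ x j) : F)) ∈ LowDeg F ι 1)
    (κ : ℕ) (hκ : 1 ≤ κ) (hS : 24 * S ≤ 2 ^ κ)
    (V A0 : Finset (ι → Bool)) (hV : ∀ x ∈ V, 6 ∣ ones x) (hA0 : A0 ⊆ V) (z : Fin w → Bool)
    (hgood : ∀ x ∈ A0, 2 * 2 ^ r ≤ 3 * (univ.filter (fun s : Fin r → Bool =>
      C.eval p (fun j => leaf Φ z s j x) = true)).card)
    (hbad : ∀ x, x ∉ V → 3 * (univ.filter (fun s : Fin r → Bool =>
      C.eval p (fun j => leaf Φ z s j x) = true)).card ≤ 2 ^ r)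
    (m t : ℕ) (hmt : m * ((p - 1) * κ) ^ d + t + Fintype.card ι / 2 < Fintype.card ι) :
    A0.card * 5 ^ m * ballCard ι t ≤ 4 ^ Fintype.card ι * 3 ^ m := by
  classical
  obtain ⟨F, _, _, q, ω, hq6, hωq, hω1⟩ := exists_field p
  -- the family of approximating functions
  let P : (Fin r → Bool) × Seeds C κ → (ι → Bool) → F :=
    fun s x => approxEval F p C s.2 (fun j => leaf Φ z s.1 j x)
  have hP : ∀ s, P s ∈ LowDeg F ι (((p - 1) * κ) ^ d) := by
    intro s
    apply approxEval_mem p hp.out.two_le hκ C s.2 (leaf Φ z s.1) _ d hd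
    intro j
    rcases j with j | j | j
    · exact hΦ F j
    · exact const_mem_lowDeg (ι := ι) (F := F) 1 (ind (z j))
    · exact const_mem_lowDeg (ι := ι) (F := F) 1 (ind (s.1 j))
  set T := 2 ^ r * Fintype.card (Seeds C κ) with hT
  have hTpos : 0 < T := by
    rw [hT]
    exact Nat.mul_pos (by positivity) Fintype.card_pos
  -- error counts
  have herr : ∀ (x : ι → Bool) (s : Fin r → Bool),
      24 * (univ.filter (fun ω : Seeds C κ => approxEval F p C ω (fun j => leaf Φ z s j x) ≠
        ind (C.eval p (fun j => leaf Φ z s j x)))).card ≤ Fintype.card (Seeds C κ) := by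
    intro x s
    have h1 := approx_error (F := F) p (κ := κ) C (fun j => leaf Φ z s j x)
    have h2 : (univ.filter (fun ω : Seeds C κ => approxEval F p C ω (fun j => leaf Φ z s j x) ≠
        ind (C.eval p (fun j => leaf Φ z s j x)))).card * (24 * S) ≤ S * Fintype.card (Seeds C κ) :=
      (Nat.mul_le_mul_left _ hS).trans h1
    rcases Nat.eq_zero_or_pos S with hS0 | hSpos
    · -- no gates: no error at all
      subst hS0
      have h3 : (univ.filter (fun ω : Seeds C κ => approxEval F p C ω (fun j => leaf Φ z s j x) ≠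
        ind (C.eval p (fun j => leaf Φ z s j x)))).card * 2 ^ κ ≤ 0 := by simpa using h1
      have h4 : (univ.filter (fun ω : Seeds C κ => approxEval F p C ω (fun j => leaf Φ z s j x) ≠
        ind (C.eval p (fun j => leaf Φ z s j x)))).card = 0 := by
        by_contra hne
        have : 0 < (univ.filter (fun ω : Seeds C κ => approxEval F p C ω (fun j => leaf Φ z s j x) ≠
        ind (C.eval p (fun j => leaf Φ z s j x)))).card * 2 ^ κ :=
          Nat.mul_pos (Nat.pos_of_ne_zero hne) (by positivity)
        omega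
      rw [h4]
      omega
    · have h3 : S * (24 * (univ.filter (fun ω : Seeds C κ =>
          approxEval F p C ω (fun j => leaf Φ z s j x) ≠
          ind (C.eval p (fun j => leaf Φ z s j x)))).card) ≤ S * Fintype.card (Seeds C κ) := by
        calc _ = _ := by ring
          _ ≤ _ := h2
      exact Nat.le_of_mul_le_mul_left h3 hSpos
  have hcount : ∀ x, (univ.filter (fun s : (Fin r → Bool) × Seeds C κ => P s x ≠ 0)).card =
      ∑ s : Fin r → Bool, (univ.filter (fun ω : Seeds C κ =>
        approxEval F p C ω (fun j => leaf Φ z s j x) ≠ 0)).card := by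
    intro x
    rw [Finset.card_filter, Fintype.sum_prod_type]
    apply Finset.sum_congr rfl
    intro s _
    rw [Finset.card_filter]
  have hup : ∀ x, 24 * (univ.filter (fun s : (Fin r → Bool) × Seeds C κ => P s x ≠ 0)).card ≤
      24 * ((univ.filter (fun s : Fin r → Bool =>
      C.eval p (fun j => leaf Φ z s j x) = true)).card * Fintype.card (Seeds C κ)) + T := by
    intro x
    rw [hcount, Finset.mul_sum]
    have h1 : ∀ s : Fin r → Bool, 24 * (univ.filter (fun ω : Seeds C κ =>
        approxEval F p C ω (fun j => leaf Φ z s j x) ≠ 0)).card ≤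
        24 * ((if C.eval p (fun j => leaf Φ z s j x) = true then 1 else 0) *
          Fintype.card (Seeds C κ)) + Fintype.card (Seeds C κ) := by
      intro s
      by_cases hev : C.eval p (fun j => leaf Φ z s j x) = true
      · rw [if_pos hev, one_mul]
        have := Finset.card_le_univ (univ.filter (fun ω : Seeds C κ =>
          approxEval F p C ω (fun j => leaf Φ z s j x) ≠ 0))
        omega
      · rw [if_neg hev, zero_mul, mul_zero, zero_add]
        have h2 := herr x s
        rw [Bool.not_eq_true] at hev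
        rw [hev] at h2
        simpa [ind] using h2
    refine (Finset.sum_le_sum fun s _ => h1 s).trans (le_of_eq ?_)
    rw [Finset.sum_add_distrib, Finset.sum_const, Finset.card_univ, Fintype.card_fun,
      Fintype.card_bool, Fintype.card_fin, smul_eq_mul, ← Finset.mul_sum, ← Finset.sum_mul,
      ← Finset.card_filter]
  have hlow : ∀ x, 24 * ((univ.filter (fun s : Fin r → Bool =>
      C.eval p (fun j => leaf Φ z s j x) = true)).card * Fintype.card (Seeds C κ)) ≤
      24 * (univ.filter (fun s : (Fin r → Bool) × Seeds C κ => P s x ≠ 0)).card + T := by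
    intro x
    rw [hcount, Finset.mul_sum]
    have h1 : ∀ s : Fin r → Bool, 24 * ((if C.eval p (fun j => leaf Φ z s j x) = true then 1 else 0) *
          Fintype.card (Seeds C κ)) ≤ 24 * (univ.filter (fun ω : Seeds C κ =>
        approxEval F p C ω (fun j => leaf Φ z s j x) ≠ 0)).card + Fintype.card (Seeds C κ) := by
      intro s
      by_cases hev : C.eval p (fun j => leaf Φ z s j x) = true
      · rw [if_pos hev, one_mul]
        have h2 := herr x s
        rw [hev] at h2
        simp only [ind, if_true] at h2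
        -- complement: value zero implies value different from one
        have h3 : Fintype.card (Seeds C κ) ≤ (univ.filter (fun ω : Seeds C κ =>
            approxEval F p C ω (fun j => leaf Φ z s j x) ≠ 0)).card +
            (univ.filter (fun ω : Seeds C κ =>
            approxEval F p C ω (fun j => leaf Φ z s j x) ≠ 1)).card := by
          rw [← Finset.card_univ]
          refine (Finset.card_le_card ?_).trans (Finset.card_union_le _ _)
          intro ω _
          rw [Finset.mem_union, Finset.mem_filter, Finset.mem_filter]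
          by_cases h0 : approxEval F p C ω (fun j => leaf Φ z s j x) = 0
          · right
            refine ⟨Finset.mem_univ _, ?_⟩
            rw [h0]
            exact zero_ne_one
          · left
            exact ⟨Finset.mem_univ _, h0⟩
        omega
      · rw [if_neg hev, zero_mul, mul_zero]
        exact Nat.zero_le _
    have h2 := Finset.sum_le_sum fun s (_ : s ∈ (Finset.univ : Finset (Fin r → Bool))) => h1 s
    rw [Finset.sum_add_distrib, Finset.sum_const, Finset.card_univ, Fintype.card_fun,
      Fintype.card_bool, Fintype.card_fin, smul_eq_mul, ← Finset.mul_sum, ← Finset.sum_mul,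
      ← Finset.card_filter] at h2
    exact h2
  have hkey := one_sided q ω hωq hω1 P _ hP V A0 (fun x hx => hq6.trans (hV x hx)) hA0
    ((15 * T + 23) / 24) (9 * T / 24) (by
      intro x hx
      have h1 := hlow x
      have h2 := Nat.mul_le_mul_right (Fintype.card (Seeds C κ)) (hgood x hx)
      have h3 : 2 * T ≤ 3 * ((univ.filter (fun s : Fin r → Bool =>
        C.eval p (fun j => leaf Φ z s j x) = true)).card * Fintype.card (Seeds C κ)) := by
        calc 2 * T = 2 * 2 ^ r * Fintype.card (Seeds C κ) := by rw [hT]; ring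
          _ ≤ _ := h2
          _ = _ := by ring
      omega) (by
      intro x hx
      have h1 := hup x
      have h2 := Nat.mul_le_mul_right (Fintype.card (Seeds C κ)) (hbad x hx)
      have h3 : 3 * ((univ.filter (fun s : Fin r → Bool =>
        C.eval p (fun j => leaf Φ z s j x) = true)).card * Fintype.card (Seeds C κ)) ≤ T := by
        calc _ = 3 * (univ.filter (fun s : Fin r → Bool =>
            C.eval p (fun j => leaf Φ z s j x) = true)).card * Fintype.card (Seeds C κ) := by ring
          _ ≤ _ := h2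
          _ = T := by rw [hT]
      omega) m t hmt
  -- rescale
  have ha : 15 * T ≤ 24 * ((15 * T + 23) / 24) := by omega
  have hb : 24 * (9 * T / 24) ≤ 9 * T := by omega
  have hfin : (3 * T) ^ m * (A0.card * 5 ^ m * ballCard ι t) ≤
      (3 * T) ^ m * (4 ^ Fintype.card ι * 3 ^ m) := by
    calc (3 * T) ^ m * (A0.card * 5 ^ m * ballCard ι t) =
          A0.card * (15 * T) ^ m * ballCard ι t := by
            rw [show 15 * T = (3 * T) * 5 by ring, mul_pow (3 * T) 5]; ring
      _ ≤ A0.card * (24 * ((15 * T + 23) / 24)) ^ m * ballCard ι t :=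
          Nat.mul_le_mul_right _ (Nat.mul_le_mul_left _ (Nat.pow_le_pow_left ha m))
      _ = 24 ^ m * (A0.card * ((15 * T + 23) / 24) ^ m * ballCard ι t) := by
          rw [mul_pow]; ring
      _ ≤ 24 ^ m * (4 ^ Fintype.card ι * (9 * T / 24) ^ m) := Nat.mul_le_mul_left _ hkey
      _ = 4 ^ Fintype.card ι * (24 * (9 * T / 24)) ^ m := by rw [mul_pow]; ring
      _ ≤ 4 ^ Fintype.card ι * (9 * T) ^ m := Nat.mul_le_mul_left _ (Nat.pow_le_pow_left hb m)
      _ = (3 * T) ^ m * (4 ^ Fintype.card ι * 3 ^ m) := by
          rw [show 9 * T = (3 * T) * 3 by ring, mul_pow (3 * T) 3]; ring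
  exact Nat.le_of_mul_le_mul_left hfin (by positivity)

/-- Bound for the whole verifier. -/
theorem cover_bound (p : ℕ) [hp : Fact p.Prime] (C : Circuit (α ⊕ Fin w ⊕ Fin r) S)
    (d : ℕ) (hd : C.depth ≤ d) (Φ : (ι → Bool) → α → Bool)
    (hΦ : ∀ (F : Type) [Field F] (j : α), (fun x => (ind (Φ x j) : F)) ∈ LowDeg F ι 1)
    (κ : ℕ) (hκ : 1 ≤ κ) (hS : 24 * S ≤ 2 ^ κ)
    (V : Finset (ι → Bool)) (hV : ∀ x ∈ V, 6 ∣ ones x)
    (hgood : ∀ x ∈ V, ∃ z : Fin w → Bool, 2 * 2 ^ r ≤ 3 * (univ.filter (fun s : Fin r → Bool =>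
      C.eval p (fun j => leaf Φ z s j x) = true)).card)
    (hbad : ∀ x, x ∉ V → ∀ z : Fin w → Bool, 3 * (univ.filter (fun s : Fin r → Bool =>
      C.eval p (fun j => leaf Φ z s j x) = true)).card ≤ 2 ^ r)
    (m t : ℕ) (hmt : m * ((p - 1) * κ) ^ d + t + Fintype.card ι / 2 < Fintype.card ι) :
    V.card * 5 ^ m * ballCard ι t ≤ 2 ^ w * (4 ^ Fintype.card ι * 3 ^ m) := by
  classical
  let A : (Fin w → Bool) → Finset (ι → Bool) := fun z => V.filter (fun x =>
    2 * 2 ^ r ≤ 3 * (univ.filter (fun s : Fin r → Bool =>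
      C.eval p (fun j => leaf Φ z s j x) = true)).card)
  have hVA : V ⊆ univ.biUnion A := by
    intro x hx
    obtain ⟨z, hz⟩ := hgood x hx
    rw [Finset.mem_biUnion]
    exact ⟨z, Finset.mem_univ _, Finset.mem_filter.mpr ⟨hx, hz⟩⟩
  have hcard : V.card ≤ ∑ z : Fin w → Bool, (A z).card :=
    (Finset.card_le_card hVA).trans Finset.card_biUnion_le
  calc V.card * 5 ^ m * ballCard ι t ≤ (∑ z : Fin w → Bool, (A z).card) * 5 ^ m * ballCard ι t :=
        Nat.mul_le_mul_right _ (Nat.mul_le_mul_right _ hcard)
    _ = ∑ z : Fin w → Bool, (A z).card * 5 ^ m * ballCard ι t := by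
        rw [Finset.sum_mul, Finset.sum_mul]
    _ ≤ ∑ _z : Fin w → Bool, 4 ^ Fintype.card ι * 3 ^ m := by
        apply Finset.sum_le_sum
        intro z _
        exact single_bound p C d hd Φ hΦ κ hκ hS V (A z) hV (Finset.filter_subset _ _) z
          (fun x hx => (Finset.mem_filter.mp hx).2) (fun x hx => hbad x hx z) m t hmt
    _ = 2 ^ w * (4 ^ Fintype.card ι * 3 ^ m) := by
        rw [Finset.sum_const, Finset.card_univ, Fintype.card_fun, Fintype.card_bool,
          Fintype.card_fin, smul_eq_mul]

end Cover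

end Pool.Agent.Lib.MP_9cec2c_lc
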