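import Mathlib

/-!
A calculus for upper bounds on the rank of a two-argument function.
-/

set_option autoImplicit false

namespace Pool.Agent.MP_9cec2c_lc.DepthThree

open Finset

universe u1 u2 u3

variable {α : Type u1} {β : Type u2} {𝕜 : Type u3} [Field 𝕜]

/-- `M` is a sum of at most `r` products `u x * v y`. -/
def RankLE (M : α → β → 𝕜) (r : ℕ) : Prop :=
  ∃ (ι : Type) (_ : Fintype ι), Fintype.card ι ≤ r ∧
    ∃ (u : ι → α → 𝕜) (v : ι → β → 𝕜), ∀ x y, M x y = ∑ i, u i x * v i y

theorem RankLE.mono {M : α → β → 𝕜} {r s : ℕ} (h : RankLE M r) (hrs : r ≤ s) : RankLE M s := by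
  obtain ⟨ι, hι, hc, u, v, huv⟩ := h
  exact ⟨ι, hι, hc.trans hrs, u, v, huv⟩

theorem RankLE.congr {M M' : α → β → 𝕜} {r : ℕ} (h : RankLE M r) (e : ∀ x y, M' x y = M x y) :
    RankLE M' r := by
  obtain ⟨ι, hι, hc, u, v, huv⟩ := h
  exact ⟨ι, hι, hc, u, v, fun x y => by rw [e, huv]⟩

theorem rankLE_zero (r : ℕ) : RankLE (fun (_ : α) (_ : β) => (0 : 𝕜)) r :=
  ⟨Empty, inferInstance, by simp, fun i => i.elim, fun i => i.elim, fun x y => by simp⟩

theorem rankLE_one (u : α → 𝕜) (v : β → 𝕜) : RankLE (fun x y => u x * v y) 1 :=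
  ⟨Unit, inferInstance, by simp, fun _ => u, fun _ => v, fun x y => by simp⟩

theorem rankLE_left (u : α → 𝕜) : RankLE (fun x (_ : β) => u x) 1 :=
  (rankLE_one u (fun _ => 1)).congr (fun x y => by simp)

theorem rankLE_right (v : β → 𝕜) : RankLE (fun (_ : α) y => v y) 1 :=
  (rankLE_one (fun _ => 1) v).congr (fun x y => by simp)

theorem rankLE_const (c : 𝕜) : RankLE (fun (_ : α) (_ : β) => c) 1 :=
  (rankLE_one (fun _ => c) (fun _ => 1)).congr (fun x y => by simp)

theorem RankLE.add {M M' : α → β → 𝕜} {r s : ℕ} (h : RankLE M r) (h' : RankLE M' s) :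
    RankLE (fun x y => M x y + M' x y) (r + s) := by
  obtain ⟨ι, hι, hc, u, v, huv⟩ := h
  obtain ⟨κ, hκ, hc', u', v', huv'⟩ := h'
  refine ⟨ι ⊕ κ, inferInstance, by rw [Fintype.card_sum]; omega,
    Sum.elim u u', Sum.elim v v', fun x y => ?_⟩
  simp only [Fintype.sum_sum_type, huv, huv', Sum.elim_inl, Sum.elim_inr]

theorem RankLE.mul {M M' : α → β → 𝕜} {r s : ℕ} (h : RankLE M r) (h' : RankLE M' s) :
    RankLE (fun x y => M x y * M' x y) (r * s) := by
  obtain ⟨ι, hι, hc, u, v, huv⟩ := h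
  obtain ⟨κ, hκ, hc', u', v', huv'⟩ := h'
  refine ⟨ι × κ, inferInstance, by rw [Fintype.card_prod]; exact Nat.mul_le_mul hc hc',
    fun p x => u p.1 x * u' p.2 x, fun p y => v p.1 y * v' p.2 y, fun x y => ?_⟩
  simp only [huv, huv', Fintype.sum_mul_sum, Fintype.sum_prod_type]
  refine Finset.sum_congr rfl fun i _ => Finset.sum_congr rfl fun j _ => ?_
  ring

theorem RankLE.const_mul {M : α → β → 𝕜} {r : ℕ} (h : RankLE M r) (c : 𝕜) :
    RankLE (fun x y => c * M x y) r := by
  have := (rankLE_const (α := α) (β := β) c).mul h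
  rwa [one_mul] at this

theorem rankLE_sum {T : Type*} (s : Finset T) (M : T → α → β → 𝕜) (r : T → ℕ)
    (h : ∀ t ∈ s, RankLE (M t) (r t)) :
    RankLE (fun x y => ∑ t ∈ s, M t x y) (∑ t ∈ s, r t) := by
  classical
  induction s using Finset.induction_on with
  | empty => simpa using rankLE_zero (α := α) (β := β) (𝕜 := 𝕜) 0
  | insert a s ha ih =>
    simp only [Finset.sum_insert ha]
    exact (h a (mem_insert_self _ _)).add (ih fun t ht => h t (mem_insert_of_mem ht))

theorem rankLE_prod {T : Type*} (s : Finset T) (M : T → α → β → 𝕜) (r : T → ℕ)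
    (h : ∀ t ∈ s, RankLE (M t) (r t)) :
    RankLE (fun x y => ∏ t ∈ s, M t x y) (∏ t ∈ s, r t) := by
  classical
  induction s using Finset.induction_on with
  | empty => simpa using rankLE_const (α := α) (β := β) (1 : 𝕜)
  | insert a s ha ih =>
    simp only [Finset.prod_insert ha]
    exact (h a (mem_insert_self _ _)).mul (ih fun t ht => h t (mem_insert_of_mem ht))

theorem rankLE_list_sum {T : Type*} (l : List T) (M : T → α → β → 𝕜) (r : T → ℕ)
    (h : ∀ t ∈ l, RankLE (M t) (r t)) :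
    RankLE (fun x y => (l.map (fun t => M t x y)).sum) (l.map r).sum := by
  induction l with
  | nil => simpa using rankLE_zero (α := α) (β := β) (𝕜 := 𝕜) 0
  | cons a l ih =>
    simp only [List.map_cons, List.sum_cons]
    exact (h a (List.mem_cons_self)).add (ih fun t ht => h t (List.mem_cons_of_mem _ ht))

/-- Precomposition does not increase the rank. -/
theorem RankLE.comp {M : α → β → 𝕜} {r : ℕ} (h : RankLE M r) {α' : Type*} {β' : Type*}
    (f : α' → α) (g : β' → β) : RankLE (fun x y => M (f x) (g y)) r := by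
  obtain ⟨ι, hι, hc, u, v, huv⟩ := h
  exact ⟨ι, hι, hc, fun i x => u i (f x), fun i y => v i (g y), fun x y => huv _ _⟩

/-- Lower bound for the rank by a diagonal minor after a linear map on the left. -/
theorem card_le_of_rankLE [Fintype α] {M : α → β → 𝕜} {r : ℕ} (h : RankLE M r)
    {γ : Type*} [Fintype γ] [DecidableEq γ] (D : γ → α → 𝕜) (e : γ → β) (s : γ → 𝕜)
    (hs : ∀ c, s c ≠ 0) (hD : ∀ c c', ∑ x, D c x * M x (e c') = if c = c' then s c' else 0) :
    Fintype.card γ ≤ r := by
  obtain ⟨ι, hι, hc, u, v, huv⟩ := h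
  refine le_trans ?_ hc
  have h1 : (Matrix.of (fun c i => ∑ x, D c x * u i x) : Matrix γ ι 𝕜) *
      (Matrix.of (fun i c' => v i (e c')) : Matrix ι γ 𝕜) = Matrix.diagonal s := by
    ext c c'
    rw [Matrix.mul_apply, Matrix.diagonal_apply]
    simp only [Matrix.of_apply]
    have h2 : ∑ i, (∑ x, D c x * u i x) * v i (e c') = ∑ x, D c x * M x (e c') := by
      simp only [huv, Finset.sum_mul, Finset.mul_sum]
      rw [Finset.sum_comm]
      refine Finset.sum_congr rfl fun x _ => Finset.sum_congr rfl fun i _ => ?_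
      ring
    rw [h2, hD]
    by_cases hcc : c = c'
    · subst hcc; simp
    · simp [hcc]
  have h3 : (Matrix.diagonal s).rank = Fintype.card γ := by
    classical
    rw [Matrix.rank_diagonal]
    simp [hs]
  rw [← h3, ← h1]
  exact (Matrix.rank_mul_le_left _ _).trans (Matrix.rank_le_card_width _)

end Pool.Agent.MP_9cec2c_lc.DepthThree
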