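import Mathlib
import Pool.Agent.Lib.MP_9cec2c_lc.D3Rank

/-!
The quadratic gadget: signs, the matrix of the gadget, its rank and test functions.
-/

set_option autoImplicit false

namespace Pool.Agent.MP_9cec2c_lc.DepthThree

open Finset

/-- The sign of a bit. -/
def sgn (𝕜 : Type*) [Field 𝕜] (z : ZMod 2) : 𝕜 := if z = 0 then 1 else -1

section sgn

variable {𝕜 : Type*} [Field 𝕜]

theorem sgn_zero : sgn 𝕜 0 = 1 := by simp [sgn]

theorem sgn_add (a b : ZMod 2) : sgn 𝕜 (a + b) = sgn 𝕜 a * sgn 𝕜 b := by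
  have h : ∀ c : ZMod 2, c = 0 ∨ c = 1 := by decide
  have h10 : (1 : ZMod 2) ≠ 0 := by decide
  have h11 : (1 : ZMod 2) + 1 = 0 := by decide
  rcases h a with rfl | rfl <;> rcases h b with rfl | rfl <;> simp [sgn, h10, h11]

theorem sgn_sum {T : Type*} (s : Finset T) (f : T → ZMod 2) :
    sgn 𝕜 (∑ t ∈ s, f t) = ∏ t ∈ s, sgn 𝕜 (f t) := by
  classical
  induction s using Finset.induction_on with
  | empty => simp [sgn_zero]
  | insert a s ha ih => rw [Finset.sum_insert ha, Finset.prod_insert ha, sgn_add, ih]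

theorem sgn_mul_self (a : ZMod 2) : sgn 𝕜 a * sgn 𝕜 a = 1 := by
  unfold sgn; split_ifs <;> simp

theorem sgn_ne_zero (a : ZMod 2) : sgn 𝕜 a ≠ 0 := by
  intro h
  have := sgn_mul_self (𝕜 := 𝕜) a
  rw [h, mul_zero] at this
  exact zero_ne_one this

end sgn

/-- A Boolean as an element of `ZMod 2`. -/
def bz (b : Bool) : ZMod 2 := if b then 1 else 0

theorem bz_false : bz false = 0 := rfl

variable {κ : ℕ} {α : Type*} [DecidableEq α]

/-- The quadratic form. -/
def quad (L : Fin κ → Fin κ → ZMod 2) (u : Fin κ → ZMod 2) : ZMod 2 :=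
  ∑ a, ∑ c, L a c * u a * u c

/-- Combine two assignments according to `ρ`: the variables with `ρ = aX` come from `x`, those
with `ρ = aY` come from `y`, the others are `false`. -/
def mix (aX aY : α) (ρ : Fin κ → α) (x y : Fin κ → Bool) : Fin κ → Bool :=
  fun a => if ρ a = aX then x a else if ρ a = aY then y a else false

/-- The part of an assignment where `ρ = c`. -/
def part (c : α) (ρ : Fin κ → α) (x : Fin κ → Bool) : Fin κ → ZMod 2 :=
  fun a => if ρ a = c then bz (x a) else 0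

theorem bz_mix (aX aY : α) (hne : aX ≠ aY) (ρ : Fin κ → α) (x y : Fin κ → Bool) :
    (fun a => bz (mix aX aY ρ x y a)) = part aX ρ x + part aY ρ y := by
  funext a
  simp only [mix, part, Pi.add_apply]
  by_cases h1 : ρ a = aX
  · simp [h1, hne]
  · by_cases h2 : ρ a = aY
    · simp [h2, hne.symm]
    · simp [h1, h2, bz_false]

/-- The linear map of the gadget. -/
def wvec (L : Fin κ → Fin κ → ZMod 2) (aX aY : α) (ρ : Fin κ → α) (y : Fin κ → Bool) :
    Fin κ → ZMod 2 :=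
  fun a => if ρ a = aX then ∑ c, (L a c + L c a) * part aY ρ y c else 0

theorem quad_mix (L : Fin κ → Fin κ → ZMod 2) (aX aY : α) (hne : aX ≠ aY) (ρ : Fin κ → α)
    (x y : Fin κ → Bool) :
    quad L (fun a => bz (mix aX aY ρ x y a)) =
      quad L (part aX ρ x) + quad L (part aY ρ y) +
        ∑ a, part aX ρ x a * wvec L aX aY ρ y a := by
  rw [bz_mix aX aY hne]
  unfold quad
  have h1 : ∑ a, part aX ρ x a * wvec L aX aY ρ y a =
      ∑ a, ∑ c, (L a c + L c a) * part aX ρ x a * part aY ρ y c := by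
    refine Finset.sum_congr rfl fun a _ => ?_
    unfold wvec
    by_cases h : ρ a = aX
    · rw [if_pos h, Finset.mul_sum]
      refine Finset.sum_congr rfl fun c _ => ?_
      ring
    · rw [if_neg h]
      have : part aX ρ x a = 0 := by simp [part, h]
      simp [this]
  have h2 : ∑ a, ∑ c, L c a * part aX ρ x a * part aY ρ y c =
      ∑ a, ∑ c, L a c * part aY ρ y a * part aX ρ x c := by
    rw [Finset.sum_comm]
    refine Finset.sum_congr rfl fun a _ => Finset.sum_congr rfl fun c _ => ?_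
    ring
  have h3 : ∑ a, ∑ c, (L a c + L c a) * part aX ρ x a * part aY ρ y c =
      (∑ a, ∑ c, L a c * part aX ρ x a * part aY ρ y c) +
        ∑ a, ∑ c, L a c * part aY ρ y a * part aX ρ x c := by
    rw [← h2, ← Finset.sum_add_distrib]
    refine Finset.sum_congr rfl fun a _ => ?_
    rw [← Finset.sum_add_distrib]
    refine Finset.sum_congr rfl fun c _ => ?_
    ring
  rw [h1, h3]
  simp only [Pi.add_apply]
  have h4 : ∀ a c, L a c * (part aX ρ x a + part aY ρ y a) * (part aX ρ x c + part aY ρ y c) =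
      L a c * part aX ρ x a * part aX ρ x c + L a c * part aY ρ y a * part aY ρ y c +
      (L a c * part aX ρ x a * part aY ρ y c + L a c * part aY ρ y a * part aX ρ x c) := by
    intro a c; ring
  simp only [h4, Finset.sum_add_distrib]

/-- The image of the linear map of the gadget. -/
def wset (L : Fin κ → Fin κ → ZMod 2) (aX aY : α) (ρ : Fin κ → α) : Finset (Fin κ → ZMod 2) :=
  univ.image (wvec L aX aY ρ)

section field

variable {𝕜 : Type*} [Field 𝕜]

/-- The matrix of the gadget. -/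
def gmat (𝕜 : Type*) [Field 𝕜] (L : Fin κ → Fin κ → ZMod 2) (aX aY : α) (ρ : Fin κ → α)
    (x y : Fin κ → Bool) : 𝕜 :=
  sgn 𝕜 (quad L (fun a => bz (mix aX aY ρ x y a)))

theorem gmat_eq (L : Fin κ → Fin κ → ZMod 2) (aX aY : α) (hne : aX ≠ aY) (ρ : Fin κ → α)
    (x y : Fin κ → Bool) :
    gmat 𝕜 L aX aY ρ x y = sgn 𝕜 (quad L (part aX ρ x)) * sgn 𝕜 (quad L (part aY ρ y)) *
      sgn 𝕜 (∑ a, part aX ρ x a * wvec L aX aY ρ y a) := by
  unfold gmat
  rw [quad_mix L aX aY hne, sgn_add, sgn_add]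

theorem gmat_rankLE (L : Fin κ → Fin κ → ZMod 2) (aX aY : α) (hne : aX ≠ aY) (ρ : Fin κ → α) :
    RankLE (gmat 𝕜 L aX aY ρ) (wset L aX aY ρ).card := by
  classical
  have h := rankLE_sum (α := Fin κ → Bool) (β := Fin κ → Bool) (𝕜 := 𝕜) (wset L aX aY ρ)
    (fun w x y => (sgn 𝕜 (quad L (part aX ρ x)) * sgn 𝕜 (∑ a, part aX ρ x a * w a)) *
      (sgn 𝕜 (quad L (part aY ρ y)) * if wvec L aX aY ρ y = w then 1 else 0)) (fun _ => 1)
    (fun w _ => rankLE_one _ _)
  rw [Finset.sum_const, smul_eq_mul, mul_one] at h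
  refine h.congr fun x y => ?_
  rw [gmat_eq L aX aY hne]
  rw [Finset.sum_eq_single (wvec L aX aY ρ y)]
  · rw [if_pos rfl]; ring
  · intro w _ hw
    rw [if_neg (Ne.symm hw)]; ring
  · intro h
    exact absurd (mem_image_of_mem _ (mem_univ _)) h

/-- The raw test function. -/
def dfun (𝕜 : Type*) [Field 𝕜] (L : Fin κ → Fin κ → ZMod 2) (aX : α) (ρ : Fin κ → α)
    (w : Fin κ → ZMod 2) (x : Fin κ → Bool) : 𝕜 :=
  if (∀ a, ρ a ≠ aX → x a = false) then
    sgn 𝕜 (quad L (part aX ρ x)) * sgn 𝕜 (∑ a, part aX ρ x a * w a) else 0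

theorem sum_sign (aX : α) (ρ : Fin κ → α) (v : Fin κ → ZMod 2) (hv : ∀ a, ρ a ≠ aX → v a = 0) :
    ∑ x : Fin κ → Bool, (if (∀ a, ρ a ≠ aX → x a = false) then
      sgn 𝕜 (∑ a, part aX ρ x a * v a) else 0) =
      if v = 0 then (2 : 𝕜) ^ (univ.filter (fun a => ρ a = aX)).card else 0 := by
  classical
  have h1 : ∀ x : Fin κ → Bool, (if (∀ a, ρ a ≠ aX → x a = false) then
      sgn 𝕜 (∑ a, part aX ρ x a * v a) else 0) =
      ∏ a, (if ρ a = aX then sgn 𝕜 (bz (x a) * v a) else if x a then 0 else 1) := by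
    intro x
    by_cases h : ∀ a, ρ a ≠ aX → x a = false
    · rw [if_pos h, sgn_sum]
      refine Finset.prod_congr rfl fun a _ => ?_
      by_cases ha : ρ a = aX
      · simp [part, ha]
      · simp [part, ha, h a ha, sgn_zero]
    · rw [if_neg h]
      push Not at h
      obtain ⟨a, ha, hx⟩ := h
      symm
      apply Finset.prod_eq_zero (mem_univ a)
      rw [if_neg ha]
      simp only [ne_eq, Bool.not_eq_false] at hx
      simp [hx]
  simp only [h1]
  have h2 := Finset.prod_univ_sum (fun _ : Fin κ => (univ : Finset Bool))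
    (fun a b => (if ρ a = aX then sgn 𝕜 (bz b * v a) else if b then (0 : 𝕜) else 1))
  rw [Fintype.piFinset_univ] at h2
  rw [← h2]
  have h3 : ∀ a, ∑ b : Bool, (if ρ a = aX then sgn 𝕜 (bz b * v a) else if b then (0 : 𝕜) else 1) =
      if ρ a = aX then (if v a = 0 then 2 else 0) else 1 := by
    intro a
    by_cases ha : ρ a = aX
    · simp only [if_pos ha]
      rw [Fintype.sum_bool]
      by_cases hva : v a = 0
      · rw [if_pos hva, hva]
        simp [sgn_zero]
        norm_num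
      · have hv1 : v a = 1 := by
          have h : ∀ c : ZMod 2, c = 0 ∨ c = 1 := by decide
          exact (h (v a)).resolve_left hva
        rw [if_neg hva, hv1]
        simp [bz, sgn]
    · simp only [if_neg ha]
      rw [Fintype.sum_bool]
      simp
  simp only [h3]
  by_cases hv0 : v = 0
  · rw [if_pos hv0]
    subst hv0
    simp only [Pi.zero_apply, if_true]
    rw [Finset.prod_ite]
    simp
  · rw [if_neg hv0]
    have : ∃ a, v a ≠ 0 := by
      by_contra hcon
      push Not at hcon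
      exact hv0 (funext hcon)
    obtain ⟨a, ha⟩ := this
    apply Finset.prod_eq_zero (mem_univ a)
    have : ρ a = aX := by
      by_contra hcon
      exact ha (hv a hcon)
    rw [if_pos this, if_neg ha]

theorem sum_dfun_mul (L : Fin κ → Fin κ → ZMod 2) (aX aY : α) (hne : aX ≠ aY) (ρ : Fin κ → α)
    (w : Fin κ → ZMod 2) (hw : ∀ a, ρ a ≠ aX → w a = 0) (y : Fin κ → Bool) :
    ∑ x, dfun 𝕜 L aX ρ w x * gmat 𝕜 L aX aY ρ x y =
      if w = wvec L aX aY ρ y then
        sgn 𝕜 (quad L (part aY ρ y)) * 2 ^ (univ.filter (fun a => ρ a = aX)).card else 0 := by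
  have hv : ∀ a, ρ a ≠ aX → (w + wvec L aX aY ρ y) a = 0 := by
    intro a ha
    rw [Pi.add_apply, hw a ha]
    simp [wvec, ha]
  have h := sum_sign (𝕜 := 𝕜) aX ρ (w + wvec L aX aY ρ y) hv
  have h1 : ∀ x, dfun 𝕜 L aX ρ w x * gmat 𝕜 L aX aY ρ x y =
      sgn 𝕜 (quad L (part aY ρ y)) * (if (∀ a, ρ a ≠ aX → x a = false) then
      sgn 𝕜 (∑ a, part aX ρ x a * (w + wvec L aX aY ρ y) a) else 0) := by
    intro x
    rw [gmat_eq L aX aY hne]
    unfold dfun
    split_ifs with h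
    · have h2 : ∑ a, part aX ρ x a * (w + wvec L aX aY ρ y) a =
          ∑ a, part aX ρ x a * w a + ∑ a, part aX ρ x a * wvec L aX aY ρ y a := by
        rw [← Finset.sum_add_distrib]
        refine Finset.sum_congr rfl fun a _ => ?_
        rw [Pi.add_apply]; ring
      rw [h2, sgn_add]
      have h3 := sgn_mul_self (𝕜 := 𝕜) (quad L (part aX ρ x))
      linear_combination (sgn 𝕜 (quad L (part aY ρ y)) * sgn 𝕜 (∑ a, part aX ρ x a * w a) *
        sgn 𝕜 (∑ a, part aX ρ x a * wvec L aX aY ρ y a)) * h3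
    · ring
  simp only [h1]
  rw [← Finset.mul_sum, h]
  have h4 : (w + wvec L aX aY ρ y = 0) ↔ w = wvec L aX aY ρ y := by
    constructor
    · intro h5
      funext a
      have h6 := congrFun h5 a
      simp only [Pi.add_apply, Pi.zero_apply] at h6
      have : ∀ c d : ZMod 2, c + d = 0 → c = d := by decide
      exact this _ _ h6
    · intro h5
      rw [← h5]
      funext a
      have : ∀ c : ZMod 2, c + c = 0 := by decide
      exact this _
  by_cases h7 : w = wvec L aX aY ρ y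
  · rw [if_pos h7, if_pos (h4.2 h7)]
  · rw [if_neg h7, if_neg (fun h8 => h7 (h4.1 h8)), mul_zero]

theorem wset_supp (L : Fin κ → Fin κ → ZMod 2) (aX aY : α) (ρ : Fin κ → α)
    (w : Fin κ → ZMod 2) (hw : w ∈ wset L aX aY ρ) : ∀ a, ρ a ≠ aX → w a = 0 := by
  intro a ha
  obtain ⟨y, _, rfl⟩ := mem_image.1 hw
  simp [wvec, ha]

/-- Test functions for the gadget which vanish on constants. -/
theorem gadget_test (h2 : (2 : 𝕜) ≠ 0) (L : Fin κ → Fin κ → ZMod 2) (aX aY : α) (hne : aX ≠ aY)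
    (ρ : Fin κ → α) :
    ∃ (Γ : Finset (Fin κ → ZMod 2)) (D : (Fin κ → ZMod 2) → (Fin κ → Bool) → 𝕜)
      (e : (Fin κ → ZMod 2) → (Fin κ → Bool)) (s : (Fin κ → ZMod 2) → 𝕜),
      (wset L aX aY ρ).card ≤ Γ.card + 1 ∧ (∀ w, s w ≠ 0) ∧
      (∀ w ∈ Γ, ∑ x, D w x = 0) ∧
      (∀ w ∈ Γ, ∀ w' ∈ Γ, ∑ x, D w x * gmat 𝕜 L aX aY ρ x (e w') = if w = w' then s w' else 0) := by
  classical
  have he : ∀ w : Fin κ → ZMod 2, ∃ y : Fin κ → Bool, w ∈ wset L aX aY ρ →
      wvec L aX aY ρ y = w := by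
    intro w
    by_cases hw : w ∈ wset L aX aY ρ
    · obtain ⟨y, _, hy⟩ := mem_image.1 hw
      exact ⟨y, fun _ => hy⟩
    · exact ⟨fun _ => false, fun h => absurd h hw⟩
  choose e he using he
  obtain ⟨s, hs⟩ : ∃ s : (Fin κ → ZMod 2) → 𝕜, s = fun w => sgn 𝕜 (quad L (part aY ρ (e w))) *
    2 ^ (univ.filter (fun a => ρ a = aX)).card := ⟨_, rfl⟩
  have hs0 : ∀ w, s w ≠ 0 := by
    intro w
    rw [hs]
    exact mul_ne_zero (sgn_ne_zero _) (pow_ne_zero _ h2)
  have hbase : ∀ w ∈ wset L aX aY ρ, ∀ w' ∈ wset L aX aY ρ,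
      ∑ x, dfun 𝕜 L aX ρ w x * gmat 𝕜 L aX aY ρ x (e w') = if w = w' then s w' else 0 := by
    intro w hw w' hw'
    rw [sum_dfun_mul L aX aY hne ρ w (wset_supp L aX aY ρ w hw), he w' hw', hs]
  by_cases hcase : ∃ w0 ∈ wset L aX aY ρ, ∑ x, dfun 𝕜 L aX ρ w0 x ≠ 0
  · obtain ⟨w0, hw0, hne0⟩ := hcase
    refine ⟨(wset L aX aY ρ).erase w0, fun w x => dfun 𝕜 L aX ρ w x -
      ((∑ x, dfun 𝕜 L aX ρ w x) / ∑ x, dfun 𝕜 L aX ρ w0 x) * dfun 𝕜 L aX ρ w0 x, e, s, ?_, hs0,
      ?_, ?_⟩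
    · rw [card_erase_of_mem hw0]; omega
    · intro w _
      rw [Finset.sum_sub_distrib, ← Finset.mul_sum, div_mul_cancel₀ _ hne0, sub_self]
    · intro w hw w' hw'
      have hw1 := mem_of_mem_erase hw
      have hw1' := mem_of_mem_erase hw'
      have hne' : w0 ≠ w' := (ne_of_mem_erase hw').symm
      have h5 : ∑ x, (dfun 𝕜 L aX ρ w x -
          ((∑ x, dfun 𝕜 L aX ρ w x) / ∑ x, dfun 𝕜 L aX ρ w0 x) * dfun 𝕜 L aX ρ w0 x) *
          gmat 𝕜 L aX aY ρ x (e w') =
          ∑ x, dfun 𝕜 L aX ρ w x * gmat 𝕜 L aX aY ρ x (e w') -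
          ((∑ x, dfun 𝕜 L aX ρ w x) / ∑ x, dfun 𝕜 L aX ρ w0 x) *
          ∑ x, dfun 𝕜 L aX ρ w0 x * gmat 𝕜 L aX aY ρ x (e w') := by
        rw [Finset.mul_sum, ← Finset.sum_sub_distrib]
        refine Finset.sum_congr rfl fun x _ => ?_
        ring
      rw [h5, hbase w hw1 w' hw1', hbase w0 hw0 w' hw1', if_neg hne', mul_zero, sub_zero]
  · push Not at hcase
    exact ⟨wset L aX aY ρ, dfun 𝕜 L aX ρ, e, s, by omega, hs0, hcase, hbase⟩

end field

end Pool.Agent.MP_9cec2c_lc.DepthThree
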