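import Mathlib

/-!
Expectations over uniform random functions.
-/

set_option autoImplicit false

namespace Pool.Agent.MP_9cec2c_lc.DepthThree

open Finset

/-- The average of `f` over a finite type. -/
noncomputable def avg {Ω : Type*} [Fintype Ω] (f : Ω → ℝ) : ℝ := (∑ x, f x) / Fintype.card Ω

section basic

variable {Ω : Type*} [Fintype Ω]

theorem avg_mono {f g : Ω → ℝ} (h : ∀ x, f x ≤ g x) : avg f ≤ avg g := by
  unfold avg
  gcongr with x _
  exact h x

theorem avg_nonneg {f : Ω → ℝ} (h : ∀ x, 0 ≤ f x) : 0 ≤ avg f := by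
  unfold avg
  have : 0 ≤ ∑ x, f x := Finset.sum_nonneg fun x _ => h x
  positivity

theorem avg_add (f g : Ω → ℝ) : avg (fun x => f x + g x) = avg f + avg g := by
  unfold avg
  rw [Finset.sum_add_distrib, add_div]

theorem avg_sub (f g : Ω → ℝ) : avg (fun x => f x - g x) = avg f - avg g := by
  unfold avg
  rw [Finset.sum_sub_distrib, sub_div]

theorem avg_const_mul (c : ℝ) (f : Ω → ℝ) : avg (fun x => c * f x) = c * avg f := by
  unfold avg
  rw [← Finset.mul_sum, mul_div_assoc]

theorem avg_const [Nonempty Ω] (c : ℝ) : avg (fun _ : Ω => c) = c := by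
  unfold avg
  rw [Finset.sum_const, card_univ, nsmul_eq_mul]
  field_simp

theorem avg_sum {T : Type*} (s : Finset T) (f : T → Ω → ℝ) :
    avg (fun x => ∑ t ∈ s, f t x) = ∑ t ∈ s, avg (f t) := by
  unfold avg
  rw [Finset.sum_comm, Finset.sum_div]

theorem avg_list_sum {T : Type*} (l : List T) (f : T → Ω → ℝ) :
    avg (fun x => (l.map (fun t => f t x)).sum) = (l.map (fun t => avg (f t))).sum := by
  induction l with
  | nil => simp [avg]
  | cons a l ih =>
    simp only [List.map_cons, List.sum_cons]
    rw [avg_add, ih]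

end basic

section indep

variable {ι α : Type*} [Fintype ι] [DecidableEq ι] [Fintype α]

/-- `f` depends only on the coordinates in `B`. -/
def DependsOn' (f : (ι → α) → ℝ) (B : Finset ι) : Prop :=
  ∀ x y : ι → α, (∀ i ∈ B, x i = y i) → f x = f y

theorem sum_mul_indep (f g : (ι → α) → ℝ) (B : Finset ι) (hf : DependsOn' f B)
    (hg : DependsOn' g Bᶜ) :
    (∑ x, f x * g x) * Fintype.card (ι → α) = (∑ x, f x) * ∑ x, g x := by
  classical
  let σ : (ι → α) × (ι → α) → (ι → α) × (ι → α) := fun p =>
    (fun i => if i ∈ B then p.1 i else p.2 i, fun i => if i ∈ B then p.2 i else p.1 i)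
  have hσ : Function.Involutive σ := by
    intro p
    ext i <;> by_cases h : i ∈ B <;> simp [σ, h]
  have h1 : (∑ x, f x) * ∑ x, g x = ∑ p : (ι → α) × (ι → α), f p.1 * g p.2 := by
    rw [Fintype.sum_mul_sum, Fintype.sum_prod_type]
  have h2 : ∑ p : (ι → α) × (ι → α), f p.1 * g p.2 =
      ∑ p : (ι → α) × (ι → α), f (σ p).1 * g (σ p).1 := by
    refine Finset.sum_congr rfl fun p _ => ?_
    congr 1
    · exact hf _ _ fun i hi => by simp [σ, hi]
    · exact hg _ _ fun i hi => by
        have : i ∉ B := by simpa using hi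
        simp [σ, this]
  have h3 : ∑ p : (ι → α) × (ι → α), f (σ p).1 * g (σ p).1 =
      ∑ p : (ι → α) × (ι → α), f p.1 * g p.1 :=
    Fintype.sum_equiv (hσ.toPerm σ) _ _ fun p => rfl
  rw [h1, h2, h3, Fintype.sum_prod_type]
  simp only [Finset.sum_const, card_univ, nsmul_eq_mul]
  rw [← Finset.mul_sum]
  ring

theorem avg_mul_indep [Nonempty α] (f g : (ι → α) → ℝ) (B : Finset ι) (hf : DependsOn' f B)
    (hg : DependsOn' g Bᶜ) : avg (fun x => f x * g x) = avg f * avg g := by
  have h := sum_mul_indep f g B hf hg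
  have hc : (Fintype.card (ι → α) : ℝ) ≠ 0 := by
    exact_mod_cast Fintype.card_ne_zero
  unfold avg
  rw [div_mul_div_comm, ← h]
  field_simp

theorem DependsOn'.mono {f : (ι → α) → ℝ} {B C : Finset ι} (h : DependsOn' f B) (hBC : B ⊆ C) :
    DependsOn' f C := fun x y hxy => h x y fun i hi => hxy i (hBC hi)

theorem avg_prod_indep [Nonempty α] {T : Type*} [DecidableEq T] (s : Finset T)
    (f : T → (ι → α) → ℝ) (B : T → Finset ι) (hf : ∀ t ∈ s, DependsOn' (f t) (B t))
    (hB : ∀ t ∈ s, ∀ t' ∈ s, t ≠ t' → Disjoint (B t) (B t')) :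
    avg (fun x => ∏ t ∈ s, f t x) = ∏ t ∈ s, avg (f t) := by
  induction s using Finset.induction_on with
  | empty => simp [avg_const]
  | insert a s ha ih =>
    simp only [Finset.prod_insert ha]
    rw [avg_mul_indep (f a) (fun x => ∏ t ∈ s, f t x) (B a) (hf a (mem_insert_self _ _)),
      ih (fun t ht => hf t (mem_insert_of_mem ht))
        (fun t ht t' ht' => hB t (mem_insert_of_mem ht) t' (mem_insert_of_mem ht'))]
    intro x y hxy
    refine Finset.prod_congr rfl fun t ht => hf t (mem_insert_of_mem ht) x y fun i hi => hxy i ?_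
    rw [mem_compl]
    intro hia
    have hne : a ≠ t := fun h => ha (h ▸ ht)
    exact (Finset.disjoint_left.1 (hB a (mem_insert_self _ _) t (mem_insert_of_mem ht) hne) hia) hi

/-- The average of a function of one coordinate. -/
theorem avg_coord [Nonempty α] (i : ι) (φ : α → ℝ) :
    avg (fun x : ι → α => φ (x i)) = avg φ := by
  classical
  have hc : Fintype.card (ι → α) = Fintype.card α ^ Fintype.card ι := Fintype.card_fun
  unfold avg
  have h1 : ∑ x : ι → α, φ (x i) = ∑ a : α, ∑ x : ι → α, if x i = a then φ a else 0 := by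
    rw [Finset.sum_comm]
    refine Finset.sum_congr rfl fun x _ => ?_
    simp
  have h2 : ∀ a : α, ∑ x : ι → α, (if x i = a then φ a else 0) =
      (Fintype.card α : ℝ) ^ (Fintype.card ι - 1) * φ a := by
    intro a
    rw [← Finset.sum_filter, Finset.sum_const, nsmul_eq_mul]
    congr 1
    have h3 : (univ.filter (fun x : ι → α => x i = a)) =
        Fintype.piFinset (fun j => if j = i then {a} else univ) := by
      ext x
      simp only [mem_filter, mem_univ, true_and, Fintype.mem_piFinset]
      constructor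
      · intro h j
        by_cases hj : j = i
        · subst hj; simp [h]
        · simp [hj]
      · intro h
        simpa using h i
    rw [h3, Fintype.card_piFinset]
    have h4 : ∀ j, (if j = i then ({a} : Finset α) else univ).card =
        if j = i then 1 else Fintype.card α := by
      intro j
      by_cases hj : j = i <;> simp [hj]
    simp only [h4]
    rw [Finset.prod_ite]
    simp only [prod_const_one, one_mul, prod_const]
    have h5 : (univ.filter (fun j : ι => ¬ j = i)).card = Fintype.card ι - 1 := by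
      rw [Finset.filter_not, Finset.filter_eq' , if_pos (mem_univ _),
        Finset.card_sdiff_of_subset (by simp), card_univ, card_singleton]
    rw [h5]
    push_cast
    rfl
  rw [h1]
  simp only [h2]
  rw [← Finset.mul_sum, hc]
  have hpos : 0 < Fintype.card ι := Fintype.card_pos_iff.2 ⟨i⟩
  obtain ⟨c, hc'⟩ : ∃ c, Fintype.card ι = c + 1 := ⟨Fintype.card ι - 1, by omega⟩
  rw [hc']
  have hα : (Fintype.card α : ℝ) ≠ 0 := by exact_mod_cast Fintype.card_ne_zero
  simp only [Nat.add_sub_cancel]
  push_cast
  rw [pow_succ]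
  field_simp

theorem avg_prod_coord [Nonempty α] (s : Finset ι) (φ : α → ℝ) :
    avg (fun x : ι → α => ∏ i ∈ s, φ (x i)) = (avg φ) ^ s.card := by
  rw [avg_prod_indep s (fun i x => φ (x i)) (fun i => {i})]
  · simp only [avg_coord]
    rw [prod_const]
  · intro i _ x y hxy
    show φ (x i) = φ (y i)
    rw [hxy i (mem_singleton_self _)]
  · intro i _ j _ hij
    simpa using hij

end indep

end Pool.Agent.MP_9cec2c_lc.DepthThree
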