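import Mathlib
import Pool.Agent.Lib.MP_9cec2c_lc.Mg.G050
import Pool.Agent.Lib.MP_9cec2c_lc.D3Prob
import Pool.Agent.Lib.MP_9cec2c_lc.D3Gadget

/-!
Existence of a good quadratic gadget.
-/

set_option autoImplicit false

namespace Pool.Agent.MP_9cec2c_lc.DepthThree

open Finset
open Pool.Agent.MP_9cec2c_lc.SubstRed

theorem avg_indicator {Ω : Type*} [Fintype Ω] (p : Ω → Prop) [DecidablePred p] :
    avg (fun x => if p x then (1 : ℝ) else 0) = pr p := by
  rw [pr_eq]
  unfold avg
  simp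

section conc

variable {κ : ℕ} {α : Type*} [DecidableEq α] [Fintype α] [Nonempty α]

theorem avg_pow_indicator (a : α) (t : ℝ) :
    avg (fun x : α => if x = a then t else 1) = 1 - (1 - t) / Fintype.card α := by
  have hα : (Fintype.card α : ℝ) ≠ 0 := by exact_mod_cast Fintype.card_ne_zero
  have h1 : avg (fun x : α => if x = a then t else 1) =
      avg (fun x : α => 1 - (if x = a then (1 - t) else 0)) := by
    congr 1; ext x; split_ifs <;> ring
  rw [h1, avg_sub, avg_const]
  congr 1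
  unfold avg
  simp

/-- Few variables receive the value `a` only with small probability. -/
theorem conc (a : α) (β0 : ℕ) (hβ : 6 ≤ β0) (hκ : κ = Fintype.card α * β0 ^ 2) :
    avg (fun ρ : Fin κ → α =>
      if (univ.filter (fun i => ρ i = a)).card < β0 ^ 2 - 6 * β0 then (1 : ℝ) else 0) ≤ 1 / 8 := by
  have hα : (0 : ℝ) < Fintype.card α := by exact_mod_cast Fintype.card_pos
  have hβr : (6 : ℝ) ≤ β0 := by exact_mod_cast hβ
  obtain ⟨δ, hδ⟩ : ∃ δ : ℝ, δ = 3 / (2 * β0) := ⟨_, rfl⟩
  have hδ0 : 0 < δ := by rw [hδ]; positivity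
  have hδ1 : δ ≤ 1 / 4 := by
    rw [hδ, div_le_iff₀ (by positivity)]; linarith
  obtain ⟨b, hb⟩ : ∃ b : ℕ, b = β0 ^ 2 - 6 * β0 := ⟨_, rfl⟩
  have hbr : (b : ℝ) = (β0 : ℝ) ^ 2 - 6 * β0 := by
    rw [hb, Nat.cast_sub (by nlinarith)]; push_cast; ring
  rw [← hb]
  have ht : 0 < 1 - δ := by linarith
  have h1 : ∀ ρ : Fin κ → α,
      (if (univ.filter (fun i => ρ i = a)).card < b then (1 : ℝ) else 0) ≤
      ((1 - δ) ^ b)⁻¹ * ∏ i ∈ (univ : Finset (Fin κ)), (if ρ i = a then (1 - δ) else 1) := by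
    intro ρ
    have h2 : ∏ i ∈ (univ : Finset (Fin κ)), (if ρ i = a then (1 - δ) else 1) =
        (1 - δ) ^ (univ.filter (fun i => ρ i = a)).card := by
      rw [Finset.prod_ite]; simp
    rw [h2]
    split_ifs with h
    · rw [← div_eq_inv_mul, le_div_iff₀ (by positivity), one_mul]
      exact pow_le_pow_of_le_one ht.le (by linarith) h.le
    · positivity
  refine (avg_mono h1).trans ?_
  rw [avg_const_mul, avg_prod_coord (ι := Fin κ) (α := α) univ
    (fun x => if x = a then (1 - δ) else 1), avg_pow_indicator]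
  rw [card_univ, Fintype.card_fin]
  have h6 : 0 ≤ (1 - (1 - (1 - δ)) / (Fintype.card α : ℝ)) := by
    have h7 : (1 : ℝ) ≤ Fintype.card α := by exact_mod_cast Fintype.card_pos
    have h8 : (1 - (1 - δ)) / (Fintype.card α : ℝ) ≤ 1 := by
      rw [div_le_one hα]; linarith
    linarith
  have h3 : (1 - (1 - (1 - δ)) / (Fintype.card α : ℝ)) ^ κ ≤ Real.exp (-δ * (β0 : ℝ) ^ 2) := by
    have h4 : (1 - (1 - (1 - δ)) / (Fintype.card α : ℝ)) ≤ Real.exp (-(δ / Fintype.card α)) := by
      have := Real.add_one_le_exp (-(δ / (Fintype.card α : ℝ)))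
      have h5 : (1 - (1 - (1 - δ)) / (Fintype.card α : ℝ)) = -(δ / Fintype.card α) + 1 := by ring
      rw [h5]; exact this
    refine (pow_le_pow_left₀ h6 h4 κ).trans ?_
    rw [← Real.exp_nat_mul, hκ]
    apply le_of_eq
    congr 1
    push_cast
    field_simp
  have h9 : ((1 - δ) ^ b)⁻¹ ≤ Real.exp (b * (δ + 2 * δ ^ 2)) := by
    rw [inv_le_comm₀ (by positivity) (Real.exp_pos _), ← Real.exp_neg]
    have h10 : Real.exp (-(δ + 2 * δ ^ 2)) ≤ 1 - δ := by
      rw [← Real.le_log_iff_exp_le ht]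
      have h11 := Real.one_sub_inv_le_log_of_pos ht
      refine le_trans ?_ h11
      have h12 : 1 - (1 - δ)⁻¹ = -(δ / (1 - δ)) := by field_simp; ring
      rw [h12, neg_le_neg_iff, div_le_iff₀ ht]
      nlinarith [mul_pos hδ0 hδ0]
    have h13 := pow_le_pow_left₀ (Real.exp_pos _).le h10 b
    rw [← Real.exp_nat_mul] at h13
    refine le_trans (le_of_eq ?_) h13
    congr 1; ring
  calc ((1 - δ) ^ b)⁻¹ * (1 - (1 - (1 - δ)) / (Fintype.card α : ℝ)) ^ κ
      ≤ Real.exp (b * (δ + 2 * δ ^ 2)) * Real.exp (-δ * (β0 : ℝ) ^ 2) := by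
        have : 0 ≤ ((1 - δ) ^ b)⁻¹ := by positivity
        have h30 := pow_nonneg h6 κ
        gcongr
    _ = Real.exp (b * (δ + 2 * δ ^ 2) + -δ * (β0 : ℝ) ^ 2) := by rw [Real.exp_add]
    _ ≤ Real.exp (-3) := by
        apply Real.exp_le_exp.2
        have h14 : δ * β0 = 3 / 2 := by rw [hδ]; field_simp
        have h15 : (b : ℝ) ≤ (β0 : ℝ) ^ 2 := by rw [hbr]; nlinarith
        have h16 : (b : ℝ) * (2 * δ ^ 2) ≤ 9 / 2 := by
          have : (b : ℝ) * (2 * δ ^ 2) ≤ (β0 : ℝ) ^ 2 * (2 * δ ^ 2) := by gcongr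
          have h17 : (β0 : ℝ) ^ 2 * (2 * δ ^ 2) = 2 * (δ * β0) ^ 2 := by ring
          rw [h17, h14] at this
          linarith
        have h18 : (b : ℝ) * δ + -δ * (β0 : ℝ) ^ 2 = -6 * (δ * β0) := by rw [hbr]; ring
        rw [h14] at h18
        have h19 : (b : ℝ) * (δ + 2 * δ ^ 2) + -δ * (β0 : ℝ) ^ 2 =
          ((b : ℝ) * δ + -δ * (β0 : ℝ) ^ 2) + (b : ℝ) * (2 * δ ^ 2) := by ring
        rw [h19, h18]
        linarith
    _ ≤ 1 / 8 := by
        have h20 : (8 : ℝ) ≤ Real.exp 3 := by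
          have h21 : (2 : ℝ) ≤ Real.exp 1 := by
            have := Real.add_one_le_exp (1 : ℝ); linarith
          have h22 : Real.exp 3 = Real.exp 1 ^ 3 := by
            rw [← Real.exp_nat_mul]; norm_num
          rw [h22]
          calc (8 : ℝ) = 2 ^ 3 := by norm_num
            _ ≤ Real.exp 1 ^ 3 := by gcongr
        rw [Real.exp_neg, inv_eq_one_div]
        exact one_div_le_one_div_of_le (by norm_num) h20

end conc

section coll

variable {κ : ℕ} {α : Type*} [DecidableEq α]

/-- Assignments supported on the variables with `ρ = c`. -/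
def supp (c : α) (ρ : Fin κ → α) : Finset (Fin κ → Bool) :=
  univ.filter (fun y => ∀ a, ρ a ≠ c → y a = false)

theorem card_supp (c : α) (ρ : Fin κ → α) :
    (supp c ρ).card = 2 ^ (univ.filter (fun a => ρ a = c)).card := by
  classical
  have h : supp c ρ = Fintype.piFinset (fun a => if ρ a = c then univ else {false}) := by
    ext y
    simp only [supp, mem_filter, mem_univ, true_and, Fintype.mem_piFinset]
    constructor
    · intro h a
      by_cases ha : ρ a = c
      · simp [ha]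
      · simp [ha, h a ha]
    · intro h a ha
      have := h a
      simpa [ha] using this
  rw [h, Fintype.card_piFinset]
  have h2 : ∀ a, (if ρ a = c then (univ : Finset Bool) else {false}).card =
      if ρ a = c then 2 else 1 := by
    intro a; by_cases ha : ρ a = c <;> simp [ha]
  simp only [h2]
  rw [Finset.prod_ite]
  simp

theorem pr_linear (v : Fin κ → ZMod 2) (hv : v ≠ 0) (c : ZMod 2) :
    pr (fun r : Fin κ → ZMod 2 => ∑ i, r i * v i + c = 0) ≤ 1 / 2 := by
  classical
  obtain ⟨i0, hi0⟩ : ∃ i, v i ≠ 0 := by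
    by_contra hcon
    push Not at hcon
    exact hv (funext hcon)
  have hv1 : v i0 = 1 := by
    have h : ∀ c : ZMod 2, c = 0 ∨ c = 1 := by decide
    exact (h (v i0)).resolve_left hi0
  have h := indep (ι := Fin κ) (α := ZMod 2) {i0}
    (fun i H x => x + (∑ j ∈ univ.erase i, H j * v j + c) = 0) (1 / 2) ?_ ?_
  · rw [card_singleton, pow_one] at h
    refine le_trans (pr_mono fun r hr => ?_) h
    intro i hi
    rw [mem_singleton] at hi
    subst hi
    rw [← add_assoc]
    rw [← Finset.add_sum_erase _ _ (mem_univ i), hv1, mul_one] at hr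
    exact hr
  · intro i hi j hj H E x
    rw [mem_singleton] at hi hj
    rw [hi, hj]
    have : ∑ j ∈ univ.erase i0, Function.update H i0 E j * v j =
        ∑ j ∈ univ.erase i0, H j * v j := by
      refine Finset.sum_congr rfl fun j hj => ?_
      rw [Function.update_of_ne (ne_of_mem_erase hj)]
    rw [this]
  · intro i _ H
    have h1 : ∀ d : ZMod 2, pr (fun x : ZMod 2 => x + d = 0) ≤ 1 / 2 := by
      intro d
      rw [pr_eq]
      have h2 : (univ.filter (fun x : ZMod 2 => x + d = 0)).card = 1 := by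
        revert d; decide
      rw [h2]
      have : Fintype.card (ZMod 2) = 2 := by decide
      rw [this]; norm_num
    exact h1 _

/-- Collision probability. -/
theorem pr_coll (aX aY : α) (hne : aX ≠ aY) (ρ : Fin κ → α) (y y' : Fin κ → Bool)
    (hy : y ∈ supp aY ρ) (hy' : y' ∈ supp aY ρ) (hyy : y ≠ y') :
    pr (fun L : Fin κ → (Fin κ → ZMod 2) => wvec L aX aY ρ y = wvec L aX aY ρ y') ≤
      (1 / 2) ^ (univ.filter (fun a => ρ a = aX)).card := by
  classical
  obtain ⟨v, hv⟩ : ∃ v : Fin κ → ZMod 2, v = part aY ρ y + part aY ρ y' := ⟨_, rfl⟩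
  have hv0 : v ≠ 0 := by
    intro h0
    apply hyy
    funext a
    simp only [supp, mem_filter, mem_univ, true_and] at hy hy'
    by_cases ha : ρ a = aY
    · have h1 := congrFun h0 a
      rw [hv] at h1
      simp only [part, Pi.add_apply, ha, if_true, Pi.zero_apply] at h1
      revert h1
      cases y a <;> cases y' a <;> simp [bz]
    · rw [hy a ha, hy' a ha]
  have hvX : ∀ a, ρ a = aX → v a = 0 := by
    intro a ha
    rw [hv]
    have : ρ a ≠ aY := by rw [ha]; exact hne
    simp [part, this]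
  have h := indep (ι := Fin κ) (α := Fin κ → ZMod 2) (univ.filter (fun a => ρ a = aX))
    (fun a L r => ∑ c, r c * v c + ∑ c, L c a * v c = 0) (1 / 2) ?_ ?_
  · refine le_trans (pr_mono fun L hL => ?_) h
    intro a ha
    rw [mem_filter] at ha
    have h1 := congrFun hL a
    simp only [wvec, ha.2, if_true] at h1
    have h2 : ∀ c d : ZMod 2, c = d → c + d = 0 := by decide
    have h3 := h2 _ _ h1
    rw [← Finset.sum_add_distrib] at h3
    rw [← Finset.sum_add_distrib]
    rw [← h3]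
    refine Finset.sum_congr rfl fun c _ => ?_
    rw [hv]
    simp only [Pi.add_apply]
    ring
  · intro a ha b hb L E r
    rw [mem_filter] at ha hb
    have : ∑ c, Function.update L b E c a * v c = ∑ c, L c a * v c := by
      refine Finset.sum_congr rfl fun c _ => ?_
      by_cases hc : c = b
      · subst hc
        rw [hvX c hb.2, mul_zero, mul_zero]
      · rw [Function.update_of_ne hc]
    rw [this]
  · intro a _ L
    exact pr_linear v hv0 _

theorem card_sq_le (aX aY : α) (ρ : Fin κ → α) (L : Fin κ → Fin κ → ZMod 2) :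
    ((supp aY ρ).card : ℝ) ^ 2 ≤ (wset L aX aY ρ).card *
      ∑ y ∈ supp aY ρ, ∑ y' ∈ supp aY ρ,
        (if wvec L aX aY ρ y = wvec L aX aY ρ y' then (1 : ℝ) else 0) := by
  classical
  have h1 : ((supp aY ρ).card : ℝ) = ∑ w ∈ wset L aX aY ρ,
      (((supp aY ρ).filter (fun y => wvec L aX aY ρ y = w)).card : ℝ) := by
    rw [← Nat.cast_sum, ← Finset.card_eq_sum_card_fiberwise]
    intro y _
    exact mem_image_of_mem _ (mem_univ _)
  have h2 := sq_sum_le_card_mul_sum_sq (s := wset L aX aY ρ)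
    (f := fun w => (((supp aY ρ).filter (fun y => wvec L aX aY ρ y = w)).card : ℝ))
  rw [← h1] at h2
  refine h2.trans ?_
  have h3 : ∑ w ∈ wset L aX aY ρ,
      (((supp aY ρ).filter (fun y => wvec L aX aY ρ y = w)).card : ℝ) ^ 2 ≤
      ∑ y ∈ supp aY ρ, ∑ y' ∈ supp aY ρ,
        (if wvec L aX aY ρ y = wvec L aX aY ρ y' then (1 : ℝ) else 0) := by
    have h4 : ∀ y, ∑ y' ∈ supp aY ρ,
        (if wvec L aX aY ρ y = wvec L aX aY ρ y' then (1 : ℝ) else 0) =
        (((supp aY ρ).filter (fun y' => wvec L aX aY ρ y' = wvec L aX aY ρ y)).card : ℝ) := by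
      intro y
      rw [Finset.sum_ite, Finset.sum_const_zero, add_zero, Finset.sum_const, nsmul_eq_mul,
        mul_one]
      congr 2
      ext y'
      simp only [mem_filter, and_congr_right_iff]
      intro _
      exact eq_comm
    simp only [h4]
    have h5 := Finset.sum_fiberwise_of_maps_to (s := supp aY ρ) (t := wset L aX aY ρ)
      (g := wvec L aX aY ρ) (fun y _ => mem_image_of_mem _ (mem_univ _))
      (fun y => (((supp aY ρ).filter (fun y' => wvec L aX aY ρ y' =
        wvec L aX aY ρ y)).card : ℝ))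
    rw [← h5]
    apply le_of_eq
    refine Finset.sum_congr rfl fun w _ => ?_
    have h6 : ∀ y ∈ (supp aY ρ).filter (fun y => wvec L aX aY ρ y = w),
        (((supp aY ρ).filter (fun y' => wvec L aX aY ρ y' = wvec L aX aY ρ y)).card : ℝ) =
        (((supp aY ρ).filter (fun y => wvec L aX aY ρ y = w)).card : ℝ) := by
      intro y hy
      rw [mem_filter] at hy
      rw [hy.2]
    rw [Finset.sum_congr rfl h6, Finset.sum_const, nsmul_eq_mul, sq]
  exact mul_le_mul_of_nonneg_left h3 (Nat.cast_nonneg _)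

/-- For a fixed balanced pattern a random form is good. -/
theorem pr_bad_L (aX aY : α) (hne : aX ≠ aY) (ρ : Fin κ → α) (b : ℕ)
    (hX : b ≤ (univ.filter (fun a => ρ a = aX)).card)
    (hY : b ≤ (univ.filter (fun a => ρ a = aY)).card) :
    pr (fun L : Fin κ → (Fin κ → ZMod 2) => ¬ 2 ^ b ≤ 16 * (wset L aX aY ρ).card) ≤ 1 / 8 := by
  classical
  obtain ⟨D, hD⟩ : ∃ D : ℝ, D = ((supp aY ρ).card : ℝ) := ⟨_, rfl⟩
  have hDb : (2 : ℝ) ^ b ≤ D := by
    rw [hD, card_supp]
    push_cast
    exact pow_le_pow_right₀ (by norm_num) hY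
  have hD0 : 0 < D := lt_of_lt_of_le (by positivity) hDb
  obtain ⟨x, hx⟩ : ∃ x : ℝ, x = (1 / 2 : ℝ) ^ (univ.filter (fun a => ρ a = aX)).card := ⟨_, rfl⟩
  have hxb : x * 2 ^ b ≤ 1 := by
    rw [hx]
    have : (1 / 2 : ℝ) ^ (univ.filter (fun a => ρ a = aX)).card ≤ (1 / 2) ^ b :=
      pow_le_pow_of_le_one (by norm_num) (by norm_num) hX
    calc (1 / 2 : ℝ) ^ (univ.filter (fun a => ρ a = aX)).card * 2 ^ b
        ≤ (1 / 2) ^ b * 2 ^ b := by gcongr
      _ = 1 := by rw [← mul_pow]; norm_num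
  have hx0 : 0 ≤ x := by rw [hx]; positivity
  -- expected number of collisions
  have hE : avg (fun L : Fin κ → (Fin κ → ZMod 2) => ∑ y ∈ supp aY ρ, ∑ y' ∈ supp aY ρ,
      (if wvec L aX aY ρ y = wvec L aX aY ρ y' then (1 : ℝ) else 0)) ≤ D + D ^ 2 * x := by
    rw [avg_sum]
    have h1 : ∀ y ∈ supp aY ρ, avg (fun L : Fin κ → (Fin κ → ZMod 2) => ∑ y' ∈ supp aY ρ,
        (if wvec L aX aY ρ y = wvec L aX aY ρ y' then (1 : ℝ) else 0)) ≤ 1 + D * x := by
      intro y hy
      rw [avg_sum]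
      rw [← Finset.add_sum_erase _ _ hy]
      have h2 : avg (fun L : Fin κ → (Fin κ → ZMod 2) =>
          (if wvec L aX aY ρ y = wvec L aX aY ρ y then (1 : ℝ) else 0)) = 1 := by
        simp [avg_const]
      rw [h2]
      have h3 : ∑ y' ∈ (supp aY ρ).erase y, avg (fun L : Fin κ → (Fin κ → ZMod 2) =>
          (if wvec L aX aY ρ y = wvec L aX aY ρ y' then (1 : ℝ) else 0)) ≤
          ∑ y' ∈ (supp aY ρ).erase y, x := by
        refine Finset.sum_le_sum fun y' hy' => ?_
        rw [avg_indicator, hx]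
        exact pr_coll aX aY hne ρ y y' hy (mem_of_mem_erase hy') (ne_of_mem_erase hy').symm
      rw [Finset.sum_const, nsmul_eq_mul] at h3
      have h4 : (((supp aY ρ).erase y).card : ℝ) * x ≤ D * x := by
        rw [hD]
        gcongr
        exact erase_subset _ _
      linarith
    refine (Finset.sum_le_sum h1).trans ?_
    rw [Finset.sum_const, nsmul_eq_mul, ← hD]
    nlinarith
  -- Markov
  have hM : ∀ L : Fin κ → (Fin κ → ZMod 2),
      (if ¬ 2 ^ b ≤ 16 * (wset L aX aY ρ).card then (1 : ℝ) else 0) ≤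
      (2 ^ b / (16 * D ^ 2)) * ∑ y ∈ supp aY ρ, ∑ y' ∈ supp aY ρ,
      (if wvec L aX aY ρ y = wvec L aX aY ρ y' then (1 : ℝ) else 0) := by
    intro L
    have hc0 : 0 ≤ ∑ y ∈ supp aY ρ, ∑ y' ∈ supp aY ρ,
        (if wvec L aX aY ρ y = wvec L aX aY ρ y' then (1 : ℝ) else 0) :=
      Finset.sum_nonneg fun y _ => Finset.sum_nonneg fun y' _ => by split_ifs <;> norm_num
    by_cases h : 2 ^ b ≤ 16 * (wset L aX aY ρ).card
    swap
    · rw [if_pos h]
      push Not at h
      have h1 : (16 * ((wset L aX aY ρ).card : ℝ)) < 2 ^ b := by exact_mod_cast h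
      have h2 := card_sq_le aX aY ρ L
      rw [← hD] at h2
      rw [div_mul_eq_mul_div, le_div_iff₀ (by positivity), one_mul]
      nlinarith
    · rw [if_neg (not_not.2 h)]
      positivity
  rw [← avg_indicator]
  refine (avg_mono hM).trans ?_
  rw [avg_const_mul]
  calc 2 ^ b / (16 * D ^ 2) * avg _ ≤ 2 ^ b / (16 * D ^ 2) * (D + D ^ 2 * x) := by gcongr
    _ = (2 ^ b / D + x * 2 ^ b) / 16 := by field_simp
    _ ≤ (1 + 1) / 16 := by
        gcongr
        rw [div_le_one hD0]; exact hDb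
    _ = 1 / 8 := by norm_num

variable [Fintype α] [Nonempty α]

/-- There is a quadratic form which is good for at least half of all patterns. -/
theorem gadget_exists (aX aY : α) (hne : aX ≠ aY) (β0 : ℕ) (hβ : 6 ≤ β0)
    (hκ : κ = Fintype.card α * β0 ^ 2) :
    ∃ L : Fin κ → (Fin κ → ZMod 2),
      1 / 2 ≤ pr (fun ρ : Fin κ → α => 2 ^ (β0 ^ 2 - 6 * β0) ≤ 16 * (wset L aX aY ρ).card) := by
  classical
  obtain ⟨b, hb⟩ : ∃ b : ℕ, b = β0 ^ 2 - 6 * β0 := ⟨_, rfl⟩
  rw [← hb]
  have hX := conc aX β0 hβ hκ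
  have hY := conc aY β0 hβ hκ
  rw [← hb] at hX hY
  -- average of the bad indicator
  obtain ⟨bad, hbad⟩ : ∃ bad : (Fin κ → (Fin κ → ZMod 2)) → (Fin κ → α) → ℝ, bad = fun L ρ =>
    (if ¬ 2 ^ b ≤ 16 * (wset L aX aY ρ).card then (1 : ℝ) else 0) := ⟨_, rfl⟩
  have h1 : avg (fun L => avg (bad L)) ≤ 3 / 8 := by
    have h2 : avg (fun L => avg (bad L)) = avg (fun ρ => avg (fun L => bad L ρ)) := by
      unfold avg
      simp only [← Finset.sum_div]
      rw [Finset.sum_comm, div_right_comm]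
    rw [h2]
    have h3 : ∀ ρ, avg (fun L => bad L ρ) ≤
        (if (univ.filter (fun i => ρ i = aX)).card < b then (1 : ℝ) else 0) +
        (if (univ.filter (fun i => ρ i = aY)).card < b then (1 : ℝ) else 0) + 1 / 8 := by
      intro ρ
      have h4 : avg (fun L => bad L ρ) =
          pr (fun L : Fin κ → (Fin κ → ZMod 2) => ¬ 2 ^ b ≤ 16 * (wset L aX aY ρ).card) := by
        rw [← avg_indicator, hbad]
      rw [h4]
      by_cases hx : (univ.filter (fun i => ρ i = aX)).card < b
      · have := pr_le_one (fun L : Fin κ → (Fin κ → ZMod 2) =>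
          ¬ 2 ^ b ≤ 16 * (wset L aX aY ρ).card)
        rw [if_pos hx]
        split_ifs <;> linarith
      · by_cases hy : (univ.filter (fun i => ρ i = aY)).card < b
        · have := pr_le_one (fun L : Fin κ → (Fin κ → ZMod 2) =>
            ¬ 2 ^ b ≤ 16 * (wset L aX aY ρ).card)
          rw [if_pos hy]
          split_ifs <;> linarith
        · rw [if_neg hx, if_neg hy]
          have := pr_bad_L aX aY hne ρ b (not_lt.1 hx) (not_lt.1 hy)
          linarith
    refine (avg_mono h3).trans ?_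
    rw [avg_add, avg_add, avg_const]
    linarith
  -- pick a good form
  have h5 : ∃ L, avg (bad L) ≤ 3 / 8 := by
    by_contra hcon
    push Not at hcon
    have h6 : avg (fun _ : Fin κ → (Fin κ → ZMod 2) => (3 / 8 : ℝ)) <
        avg (fun L => avg (bad L)) := by
      unfold avg
      have hpos : (0 : ℝ) < Fintype.card (Fin κ → (Fin κ → ZMod 2)) := by
        exact_mod_cast Fintype.card_pos
      rw [div_lt_div_iff_of_pos_right hpos]
      exact Finset.sum_lt_sum_of_nonempty univ_nonempty fun L _ => hcon L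
    rw [avg_const] at h6
    linarith
  obtain ⟨L, hL⟩ := h5
  refine ⟨L, ?_⟩
  have h7 : avg (bad L) = 1 - pr (fun ρ : Fin κ → α => 2 ^ b ≤ 16 * (wset L aX aY ρ).card) := by
    rw [← avg_indicator, hbad]
    have h9 : ∀ ρ : Fin κ → α, (if ¬ 2 ^ b ≤ 16 * (wset L aX aY ρ).card then (1 : ℝ) else 0) =
        1 - (if 2 ^ b ≤ 16 * (wset L aX aY ρ).card then (1 : ℝ) else 0) := by
      intro ρ
      by_cases h : 2 ^ b ≤ 16 * (wset L aX aY ρ).card
      · rw [if_neg (not_not.2 h), if_pos h]; norm_num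
      · rw [if_pos h, if_neg h]; norm_num
    simp only [h9]
    rw [avg_sub, avg_const]
  linarith

end coll

end Pool.Agent.MP_9cec2c_lc.DepthThree
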