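import Mathlib
import Pool.Agent.Lib.MP_9cec2c_lc.Mg.G050
import Pool.Agent.Lib.MP_9cec2c_lc.D3Prob
import Pool.Agent.Lib.MP_9cec2c_lc.D3Gadget
import Pool.Agent.Lib.MP_9cec2c_lc.D3GadgetEx

/-!
Return probabilities of the random walk on the hypercube.
-/

set_option autoImplicit false

namespace Pool.Agent.MP_9cec2c_lc.DepthThree

open Finset
open Pool.Agent.MP_9cec2c_lc.SubstRed

/-- The average of `|1 - 2|A|/N|^m` over all subsets `A`. -/
noncomputable def ret (N m : ℕ) : ℝ :=
  (∑ A : Finset (Fin N), |1 - 2 * (A.card : ℝ) / N| ^ m) / 2 ^ N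

theorem ret_nonneg (N m : ℕ) : 0 ≤ ret N m := by
  unfold ret
  have : 0 ≤ ∑ A : Finset (Fin N), |1 - 2 * (A.card : ℝ) / N| ^ m :=
    Finset.sum_nonneg fun A _ => by positivity
  positivity

theorem sum_pow_compl (N : ℕ) (x : ℝ) :
    ∑ A : Finset (Fin N), x ^ (N - A.card) = (1 + x) ^ N := by
  classical
  have h : ∑ A : Finset (Fin N), x ^ (N - A.card) = ∑ A : Finset (Fin N), x ^ A.card := by
    refine Fintype.sum_equiv (Equiv.ofBijective (fun A : Finset (Fin N) => Aᶜ)
      (compl_bijective)) _ _ fun A => ?_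
    simp [card_compl]
  rw [h, sum_pow_card, Fintype.card_fin]

/-- Bound for many steps. -/
theorem ret_le_exp (N m : ℕ) (hN : 0 < N) :
    ret N m ≤ 2 * ((1 + Real.exp (-(2 * m / N))) / 2) ^ N := by
  have hNr : (0 : ℝ) < N := by exact_mod_cast hN
  obtain ⟨x, hx⟩ : ∃ x : ℝ, x = Real.exp (-(2 * m / N)) := ⟨_, rfl⟩
  rw [← hx]
  have h1 : ∀ A : Finset (Fin N), |1 - 2 * (A.card : ℝ) / N| ^ m ≤
      x ^ A.card + x ^ (N - A.card) := by
    intro A
    have hA : A.card ≤ N := by simpa using card_le_univ A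
    have hAr : (A.card : ℝ) ≤ N := by exact_mod_cast hA
    have hx0 : 0 ≤ x := by rw [hx]; positivity
    have h2 : x ^ A.card = (Real.exp (-(2 * (A.card : ℝ) / N))) ^ m := by
      rw [hx, ← Real.exp_nat_mul, ← Real.exp_nat_mul]; congr 1; ring
    have h3 : x ^ (N - A.card) = (Real.exp (-(2 * ((N : ℝ) - A.card) / N))) ^ m := by
      rw [hx, ← Real.exp_nat_mul, ← Real.exp_nat_mul, Nat.cast_sub hA]; congr 1; ring
    rcases le_total 0 (1 - 2 * (A.card : ℝ) / N) with h | h
    · rw [abs_of_nonneg h]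
      have h4 : 1 - 2 * (A.card : ℝ) / N ≤ Real.exp (-(2 * (A.card : ℝ) / N)) := by
        have := Real.add_one_le_exp (-(2 * (A.card : ℝ) / N)); linarith
      have h5 := pow_le_pow_left₀ h h4 m
      rw [← h2] at h5
      have : 0 ≤ x ^ (N - A.card) := by positivity
      linarith
    · rw [abs_of_nonpos h]
      have h4 : -(1 - 2 * (A.card : ℝ) / N) ≤ Real.exp (-(2 * ((N : ℝ) - A.card) / N)) := by
        have h6 := Real.add_one_le_exp (-(2 * ((N : ℝ) - A.card) / N))
        have h7 : -(2 * ((N : ℝ) - A.card) / N) + 1 = -(1 - 2 * (A.card : ℝ) / N) := by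
          field_simp; ring
        rw [← h7]; exact h6
      have h5 := pow_le_pow_left₀ (by linarith) h4 m
      rw [← h3] at h5
      have : 0 ≤ x ^ A.card := by positivity
      linarith
  unfold ret
  rw [div_le_iff₀ (by positivity)]
  refine (Finset.sum_le_sum fun A _ => h1 A).trans ?_
  rw [Finset.sum_add_distrib, sum_pow_card, sum_pow_compl, Fintype.card_fin, div_pow]
  apply le_of_eq
  field_simp
  ring

/-- Bound for few steps. -/
theorem ret_le_few (N μ : ℕ) (hN : 0 < N) (hμ : 0 < μ) :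
    ret N (2 * μ) ≤ 2 * (2 * Real.exp 1 * μ / N) ^ μ := by
  have hNr : (0 : ℝ) < N := by exact_mod_cast hN
  have hμr : (0 : ℝ) < μ := by exact_mod_cast hμ
  obtain ⟨θ, hθ⟩ : ∃ θ : ℝ, θ = Real.sqrt (2 * μ * N) := ⟨_, rfl⟩
  have hθ0 : 0 < θ := by rw [hθ]; positivity
  have hθ2 : θ ^ 2 = 2 * μ * N := by rw [hθ]; exact Real.sq_sqrt (by positivity)
  have hfact : (0 : ℝ) < (2 * μ).factorial := by exact_mod_cast Nat.factorial_pos _
  -- pointwise bound
  have h1 : ∀ y : ℝ, |y| ^ (2 * μ) ≤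
      ((2 * μ).factorial / θ ^ (2 * μ)) * (Real.exp (θ * y) + Real.exp (-(θ * y))) := by
    intro y
    have h2 := Real.pow_div_factorial_le_exp (θ * |y|) (by positivity) (2 * μ)
    have h3 : Real.exp (θ * |y|) ≤ Real.exp (θ * y) + Real.exp (-(θ * y)) := by
      rcases le_total 0 y with h | h
      · rw [abs_of_nonneg h]
        have := Real.exp_pos (-(θ * y)); linarith
      · rw [abs_of_nonpos h]
        have h4 : θ * -y = -(θ * y) := by ring
        rw [h4]
        have := Real.exp_pos (θ * y); linarith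
    have h5 := h2.trans h3
    rw [mul_pow, div_le_iff₀ hfact] at h5
    rw [div_mul_eq_mul_div, le_div_iff₀ (by positivity)]
    linarith
  -- the moment generating function
  have hmgf : ∀ τ : ℝ, ∑ A : Finset (Fin N), Real.exp (τ * (1 - 2 * (A.card : ℝ) / N)) ≤
      2 ^ N * Real.exp (τ ^ 2 / (2 * N)) := by
    intro τ
    have h2 : ∀ A : Finset (Fin N), Real.exp (τ * (1 - 2 * (A.card : ℝ) / N)) =
        Real.exp τ * (Real.exp (-(2 * τ / N))) ^ A.card := by
      intro A
      rw [← Real.exp_nat_mul, ← Real.exp_add]; congr 1; ring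
    simp only [h2]
    rw [← Finset.mul_sum, sum_pow_card, Fintype.card_fin]
    have h3 : Real.exp τ * (1 + Real.exp (-(2 * τ / N))) ^ N =
        2 ^ N * (Real.cosh (τ / N)) ^ N := by
      have h4 : Real.exp τ = (Real.exp (τ / N)) ^ N := by
        rw [← Real.exp_nat_mul]; congr 1; field_simp
      rw [h4, ← mul_pow, ← mul_pow, Real.cosh_eq]
      congr 1
      rw [mul_add, mul_one, ← Real.exp_add]
      have h5 : τ / (N : ℝ) + -(2 * τ / N) = -(τ / N) := by ring
      rw [h5]; ring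
    rw [h3]
    have h6 := Real.cosh_le_exp_half_sq (τ / N)
    have h7 := pow_le_pow_left₀ (Real.cosh_pos _).le h6 N
    rw [← Real.exp_nat_mul] at h7
    have h8 : (N : ℝ) * ((τ / N) ^ 2 / 2) = τ ^ 2 / (2 * N) := by field_simp
    rw [h8] at h7
    exact mul_le_mul_of_nonneg_left h7 (by positivity)
  have h10 := hmgf θ
  have h11 := hmgf (-θ)
  rw [neg_sq] at h11
  have h12 : θ ^ 2 / (2 * N) = μ := by rw [hθ2]; field_simp
  rw [h12] at h10 h11
  have h13 : ∑ A : Finset (Fin N), |1 - 2 * (A.card : ℝ) / N| ^ (2 * μ) ≤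
      ((2 * μ).factorial / θ ^ (2 * μ)) * (2 * (2 ^ N * Real.exp μ)) := by
    refine (Finset.sum_le_sum fun A _ => h1 (1 - 2 * (A.card : ℝ) / N)).trans ?_
    rw [← Finset.mul_sum, Finset.sum_add_distrib]
    have h14 : ∑ A : Finset (Fin N), Real.exp (-(θ * (1 - 2 * (A.card : ℝ) / N))) =
        ∑ A : Finset (Fin N), Real.exp (-θ * (1 - 2 * (A.card : ℝ) / N)) := by
      refine Finset.sum_congr rfl fun A _ => ?_
      congr 1; ring
    rw [h14]
    apply mul_le_mul_of_nonneg_left _ (by positivity)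
    linarith
  have h15 : ((2 * μ).factorial : ℝ) ≤ (2 * μ : ℝ) ^ (2 * μ) := by
    have := Nat.factorial_le_pow (2 * μ)
    exact_mod_cast this
  have h16 : θ ^ (2 * μ) = (2 * μ * N : ℝ) ^ μ := by rw [pow_mul, hθ2]
  unfold ret
  rw [div_le_iff₀ (by positivity)]
  refine h13.trans ?_
  rw [h16]
  have h17 : Real.exp μ = Real.exp 1 ^ μ := by rw [← Real.exp_nat_mul, mul_one]
  rw [h17]
  calc ((2 * μ).factorial : ℝ) / (2 * μ * N) ^ μ * (2 * (2 ^ N * Real.exp 1 ^ μ))
      ≤ (2 * μ : ℝ) ^ (2 * μ) / (2 * μ * N) ^ μ * (2 * (2 ^ N * Real.exp 1 ^ μ)) := by gcongr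
    _ = 2 * (2 * Real.exp 1 * μ / N) ^ μ * 2 ^ N := by
        rw [pow_mul, sq, mul_pow (2 * (μ : ℝ)) (2 * μ) μ, mul_pow (2 * (μ : ℝ)) (N : ℝ) μ,
          div_pow, mul_pow (2 * Real.exp 1) (μ : ℝ) μ, mul_pow 2 (Real.exp 1) μ,
          mul_pow 2 (μ : ℝ) μ]
        field_simp

section walk

variable {N k : ℕ}

/-- The parity vector of the chosen indices. -/
def vec (I : Finset (Fin (N + 1))) (J : Fin (N + 1) × Fin k → Fin N) : Fin N → ZMod 2 :=
  fun j => ∑ i ∈ I, ∑ l, if J (i, l) = j then 1 else 0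

theorem avg_sign_coord (hN : 0 < N) (A : Finset (Fin N)) :
    avg (fun j : Fin N => if j ∈ A then (-1 : ℝ) else 1) = 1 - 2 * (A.card : ℝ) / N := by
  have hNr : (0 : ℝ) < N := by exact_mod_cast hN
  have h1 : ∀ j : Fin N, (if j ∈ A then (-1 : ℝ) else 1) = 1 - (if j ∈ A then 2 else 0) := by
    intro j; split_ifs <;> norm_num
  unfold avg
  simp only [h1]
  rw [Finset.sum_sub_distrib, Finset.sum_ite_mem]
  simp
  field_simp

/-- The probability of a given value. -/
theorem pr_vec_eq (hN : 0 < N) (I : Finset (Fin (N + 1))) (v : Fin N → ZMod 2) :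
    pr (fun J : Fin (N + 1) × Fin k → Fin N => vec I J = v) ≤ ret N (I.card * k) := by
  classical
  have : Nonempty (Fin N) := ⟨⟨0, hN⟩⟩
  -- Fourier inversion
  have h1 : ∀ J : Fin (N + 1) × Fin k → Fin N, (if vec I J = v then (1 : ℝ) else 0) =
      (1 / 2 ^ N) * ∑ A : Finset (Fin N), (∏ j ∈ A, sgn ℝ (v j)) *
        ∏ p ∈ I ×ˢ (univ : Finset (Fin k)), (if J p ∈ A then (-1 : ℝ) else 1) := by
    intro J
    have h2 : ∀ A : Finset (Fin N), ∏ j ∈ A, sgn ℝ (vec I J j) =
        ∏ p ∈ I ×ˢ (univ : Finset (Fin k)), (if J p ∈ A then (-1 : ℝ) else 1) := by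
      intro A
      rw [← sgn_sum]
      have h3 : ∑ j ∈ A, vec I J j = ∑ p ∈ I ×ˢ (univ : Finset (Fin k)),
          (if J p ∈ A then (1 : ZMod 2) else 0) := by
        unfold vec
        rw [Finset.sum_comm, Finset.sum_product]
        refine Finset.sum_congr rfl fun i _ => ?_
        rw [Finset.sum_comm]
        refine Finset.sum_congr rfl fun l _ => ?_
        rw [Finset.sum_ite_eq]
      rw [h3, sgn_sum]
      refine Finset.prod_congr rfl fun p _ => ?_
      split_ifs
      · simp [sgn]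
      · exact sgn_zero
    have h4 : ∑ A : Finset (Fin N), (∏ j ∈ A, sgn ℝ (v j)) *
        ∏ p ∈ I ×ˢ (univ : Finset (Fin k)), (if J p ∈ A then (-1 : ℝ) else 1) =
        ∏ j : Fin N, (1 + sgn ℝ (vec I J j + v j)) := by
      rw [Finset.prod_one_add, powerset_univ]
      refine Finset.sum_congr rfl fun A _ => ?_
      rw [← h2, ← Finset.prod_mul_distrib]
      refine Finset.prod_congr rfl fun j _ => ?_
      rw [sgn_add, mul_comm]
    rw [h4]
    by_cases h : vec I J = v
    · rw [if_pos h]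
      have h5 : ∀ j, 1 + sgn ℝ (vec I J j + v j) = 2 := by
        intro j
        have h6 : vec I J j + v j = 0 := by
          rw [h]
          have : ∀ c : ZMod 2, c + c = 0 := by decide
          exact this _
        rw [h6, sgn_zero]; norm_num
      simp only [h5]
      simp
    · rw [if_neg h]
      have : ∃ j, vec I J j ≠ v j := by
        by_contra hcon
        push Not at hcon
        exact h (funext hcon)
      obtain ⟨j, hj⟩ := this
      have h7 : vec I J j + v j ≠ 0 := by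
        have : ∀ c d : ZMod 2, c ≠ d → c + d ≠ 0 := by decide
        exact this _ _ hj
      have h8 : ∏ j : Fin N, (1 + sgn ℝ (vec I J j + v j)) = 0 := by
        apply Finset.prod_eq_zero (mem_univ j)
        unfold sgn
        rw [if_neg h7]; norm_num
      rw [h8, mul_zero]
  rw [← avg_indicator]
  simp only [h1]
  rw [avg_const_mul, avg_sum]
  unfold ret
  rw [one_div, div_eq_inv_mul]
  apply mul_le_mul_of_nonneg_left _ (by positivity)
  refine Finset.sum_le_sum fun A _ => ?_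
  rw [avg_const_mul, avg_prod_coord (ι := Fin (N + 1) × Fin k) (α := Fin N)
    (I ×ˢ (univ : Finset (Fin k))) (fun j => if j ∈ A then (-1 : ℝ) else 1), avg_sign_coord hN,
    card_product, card_univ, Fintype.card_fin]
  have h9 : |∏ j ∈ A, sgn ℝ (v j)| = 1 := by
    rw [Finset.abs_prod]
    apply Finset.prod_eq_one
    intro j _
    unfold sgn; split_ifs <;> norm_num
  calc (∏ j ∈ A, sgn ℝ (v j)) * (1 - 2 * (A.card : ℝ) / N) ^ (I.card * k)
      ≤ |(∏ j ∈ A, sgn ℝ (v j)) * (1 - 2 * (A.card : ℝ) / N) ^ (I.card * k)| := le_abs_self _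
    _ = |1 - 2 * (A.card : ℝ) / N| ^ (I.card * k) := by rw [abs_mul, h9, one_mul, abs_pow]

end walk

end Pool.Agent.MP_9cec2c_lc.DepthThree
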