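import Mathlib
import Pool.Agent.Lib.MP_9cec2c_lc.D3Fourier

/-!
Existence of a linear system over `ZMod 2` with rows of constant width such that sums of few rows
are nonzero and sums of exactly `t` rows have almost half of all coordinates.
-/

set_option autoImplicit false

namespace Pool.Agent.MP_9cec2c_lc.DepthThree

open Finset
open Pool.Agent.MP_9cec2c_lc.SubstRed

/-- The number of small sets, weighted. -/
theorem count_small (M T t : ℕ) (hT : 0 < T) :
    (((univ : Finset (Finset (Fin M))).filter (fun I => I.card ≤ t)).card : ℝ) ≤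
      (T : ℝ) ^ t * (1 + 1 / (T : ℝ)) ^ M := by
  classical
  have hTr : (0 : ℝ) < T := by exact_mod_cast hT
  have hT1 : (1 : ℝ) ≤ T := by exact_mod_cast hT
  have h := sum_pow_card (ι := Fin M) (1 / (T : ℝ))
  rw [Fintype.card_fin] at h
  rw [← h, Finset.mul_sum, ← Finset.sum_boole]
  refine Finset.sum_le_sum fun I _ => ?_
  split_ifs with hI
  · have h1 : (1 / (T : ℝ)) ^ t ≤ (1 / (T : ℝ)) ^ I.card :=
      pow_le_pow_of_le_one (by positivity) (by rw [div_le_one hTr]; exact hT1) hI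
    calc (1 : ℝ) = (T : ℝ) ^ t * (1 / (T : ℝ)) ^ t := by
          rw [← mul_pow, mul_one_div_cancel hTr.ne', one_pow]
      _ ≤ (T : ℝ) ^ t * (1 / (T : ℝ)) ^ I.card := by gcongr
  · positivity

theorem count_small_exp (N : ℕ) (hN : 2 ^ 30 ≤ N) :
    (((univ : Finset (Finset (Fin (N + 1)))).filter (fun I => I.card ≤ N / 2 ^ 30)).card : ℝ) ≤
      Real.exp (N / 2 ^ 25) := by
  have h := count_small (N + 1) (2 ^ 30) (N / 2 ^ 30) (by positivity)
  refine h.trans ?_
  have hNr : (2 : ℝ) ^ 30 ≤ N := by exact_mod_cast hN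
  have h1 : (((2 ^ 30 : ℕ) : ℝ)) ^ (N / 2 ^ 30) ≤ Real.exp (30 * (N / 2 ^ 30)) := by
    have h2 : (2 : ℝ) ≤ Real.exp 1 := by
      have := Real.add_one_le_exp (1 : ℝ); linarith
    have h3 : (((2 ^ 30 : ℕ) : ℝ)) ^ (N / 2 ^ 30) = (2 : ℝ) ^ (30 * (N / 2 ^ 30)) := by
      rw [Nat.cast_pow, Nat.cast_ofNat, ← pow_mul]
    rw [h3]
    calc (2 : ℝ) ^ (30 * (N / 2 ^ 30)) ≤ Real.exp 1 ^ (30 * (N / 2 ^ 30)) := by gcongr
      _ = Real.exp (((30 * (N / 2 ^ 30) : ℕ) : ℝ)) := by rw [← Real.exp_nat_mul, mul_one]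
      _ ≤ Real.exp (30 * (N / 2 ^ 30)) := by
          apply Real.exp_le_exp.2
          rw [Nat.cast_mul]
          have h4 : (((N / 2 ^ 30 : ℕ)) : ℝ) ≤ (N : ℝ) / ((2 ^ 30 : ℕ) : ℝ) := Nat.cast_div_le
          rw [Nat.cast_pow] at h4
          push_cast
          push_cast at h4
          linarith
  have h5 : (1 + 1 / ((2 ^ 30 : ℕ) : ℝ)) ^ (N + 1) ≤ Real.exp (2 * (N / 2 ^ 30)) := by
    have h6 : (1 + 1 / ((2 ^ 30 : ℕ) : ℝ)) ≤ Real.exp (1 / 2 ^ 30) := by
      have := Real.add_one_le_exp (1 / (2 : ℝ) ^ 30)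
      push_cast; linarith
    calc (1 + 1 / ((2 ^ 30 : ℕ) : ℝ)) ^ (N + 1) ≤ Real.exp (1 / 2 ^ 30) ^ (N + 1) := by gcongr
      _ = Real.exp (((N + 1 : ℕ) : ℝ) * (1 / 2 ^ 30)) := by rw [← Real.exp_nat_mul]
      _ ≤ Real.exp (2 * (N / 2 ^ 30)) := by
          apply Real.exp_le_exp.2
          push_cast
          have : (1 : ℝ) ≤ N := by linarith [show (1 : ℝ) ≤ 2 ^ 30 by norm_num]
          rw [mul_one_div, ← mul_div_assoc]
          gcongr
          linarith
  calc (((2 ^ 30 : ℕ) : ℝ)) ^ (N / 2 ^ 30) * (1 + 1 / ((2 ^ 30 : ℕ) : ℝ)) ^ (N + 1)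
      ≤ Real.exp (30 * (N / 2 ^ 30)) * Real.exp (2 * (N / 2 ^ 30)) := by gcongr
    _ = Real.exp (N / 2 ^ 25) := by
        rw [← Real.exp_add]; congr 1; ring

theorem sum_pow_weight (N : ℕ) (x : ℝ) :
    ∑ v : Fin N → ZMod 2, x ^ (univ.filter (fun j => v j ≠ 0)).card = (1 + x) ^ N := by
  classical
  have h1 : ∀ v : Fin N → ZMod 2, x ^ (univ.filter (fun j => v j ≠ 0)).card =
      ∏ j, (if v j = 0 then 1 else x) := by
    intro v
    rw [Finset.prod_ite]
    simp
  simp only [h1]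
  have h2 := Finset.prod_univ_sum (fun _ : Fin N => (univ : Finset (ZMod 2)))
    (fun _ c => if c = 0 then (1 : ℝ) else x)
  rw [Fintype.piFinset_univ] at h2
  rw [← h2]
  have h3 : ∑ c : ZMod 2, (if c = 0 then (1 : ℝ) else x) = 1 + x := by
    have : (univ : Finset (ZMod 2)) = {0, 1} := by decide
    rw [this, Finset.sum_pair (by decide)]
    simp
  rw [h3]
  simp

/-- Few vectors are light. -/
theorem count_light (N : ℕ) :
    (((univ : Finset (Fin N → ZMod 2)).filter
      (fun v => 1000 * (univ.filter (fun j => v j ≠ 0)).card < 499 * N)).card : ℝ) ≤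
      2 ^ N * Real.exp (-(2 / 10 ^ 6) * N) := by
  classical
  obtain ⟨lam, hlam⟩ : ∃ l : ℝ, l = 4 / 1000 := ⟨_, rfl⟩
  have h1 : ∀ v : Fin N → ZMod 2,
      (if 1000 * (univ.filter (fun j => v j ≠ 0)).card < 499 * N then (1 : ℝ) else 0) ≤
      Real.exp (lam * (499 / 1000) * N) *
        (Real.exp (-lam)) ^ (univ.filter (fun j => v j ≠ 0)).card := by
    intro v
    split_ifs with h
    · rw [← Real.exp_nat_mul, ← Real.exp_add]
      apply Real.one_le_exp
      have h2 : (1000 * ((univ.filter (fun j => v j ≠ 0)).card : ℝ)) < 499 * N := by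
        exact_mod_cast h
      rw [hlam]
      nlinarith
    · positivity
  rw [← Finset.sum_boole]
  refine (Finset.sum_le_sum fun v _ => h1 v).trans ?_
  rw [← Finset.mul_sum, sum_pow_weight]
  have h3 : Real.exp (lam * (499 / 1000) * N) = (Real.exp (lam * (499 / 1000))) ^ N := by
    rw [← Real.exp_nat_mul]; congr 1; ring
  rw [h3, ← mul_pow]
  have h4 : Real.exp (lam * (499 / 1000)) * (1 + Real.exp (-lam)) ≤
      2 * Real.exp (-(2 / 10 ^ 6)) := by
    have h5 : Real.exp (lam * (499 / 1000)) * (1 + Real.exp (-lam)) =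
        Real.exp (-(lam / 1000)) * (2 * Real.cosh (lam / 2)) := by
      rw [Real.cosh_eq, mul_add, mul_one, ← Real.exp_add]
      have h6 : Real.exp (-(lam / 1000)) * (2 * ((Real.exp (lam / 2) + Real.exp (-(lam / 2))) / 2))
          = Real.exp (-(lam / 1000)) * Real.exp (lam / 2) +
            Real.exp (-(lam / 1000)) * Real.exp (-(lam / 2)) := by ring
      rw [h6, ← Real.exp_add, ← Real.exp_add]
      congr 1 <;> congr 1 <;> ring
    rw [h5]
    have h7 := Real.cosh_le_exp_half_sq (lam / 2)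
    calc Real.exp (-(lam / 1000)) * (2 * Real.cosh (lam / 2))
        ≤ Real.exp (-(lam / 1000)) * (2 * Real.exp ((lam / 2) ^ 2 / 2)) := by gcongr
      _ = 2 * Real.exp (-(lam / 1000) + (lam / 2) ^ 2 / 2) := by rw [Real.exp_add]; ring
      _ = 2 * Real.exp (-(2 / 10 ^ 6)) := by rw [hlam]; norm_num
  have h8 : 0 ≤ Real.exp (lam * (499 / 1000)) * (1 + Real.exp (-lam)) := by positivity
  refine (pow_le_pow_left₀ h8 h4 N).trans ?_
  rw [mul_pow, ← Real.exp_nat_mul]
  apply le_of_eq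
  congr 2
  ring

/-- The bound for small sets. -/
theorem small_bound (N s k' : ℕ) (hN : 0 < N) (hs : 0 < s) (hk : 2 ^ 10 ≤ k')
    (h : 16 * k' * s ≤ N) :
    ((N + 1).choose s : ℝ) * ret N (s * (2 * k')) ≤ 2 * (1 / 8) ^ s := by
  have hNr : (0 : ℝ) < N := by exact_mod_cast hN
  have hN1 : (1 : ℝ) ≤ N := by exact_mod_cast hN
  have hsr : (0 : ℝ) < s := by exact_mod_cast hs
  have hkr : (2 : ℝ) ^ 10 ≤ k' := by exact_mod_cast hk
  have hk0 : (0 : ℝ) < k' := by linarith [show (0 : ℝ) < 2 ^ 10 by norm_num]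
  have hr : (16 : ℝ) * k' * s ≤ N := by exact_mod_cast h
  have e1 : Real.exp 1 < 2.7182818286 := Real.exp_one_lt_d9
  have e2 : 2.7182818283 < Real.exp 1 := Real.exp_one_gt_d9
  have e0 : 0 < Real.exp 1 := Real.exp_pos 1
  have h1 : ((N + 1).choose s : ℝ) ≤ (2 * Real.exp 1 * N / s) ^ s := by
    have h2 := Nat.choose_le_pow_div (α := ℝ) s (N + 1)
    refine h2.trans ?_
    have hf : (0 : ℝ) < s.factorial := by exact_mod_cast Nat.factorial_pos s
    rw [div_le_iff₀ hf]
    have h3 := Real.pow_div_factorial_le_exp (s : ℝ) hsr.le s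
    rw [div_le_iff₀ hf] at h3
    have h4 : Real.exp (s : ℝ) = Real.exp 1 ^ s := by rw [← Real.exp_nat_mul, mul_one]
    rw [h4] at h3
    have h5 : (((N + 1 : ℕ) : ℝ)) ^ s ≤ (2 * N : ℝ) ^ s := by
      apply pow_le_pow_left₀ (by positivity)
      push_cast; linarith
    refine h5.trans ?_
    have h6 : (2 * Real.exp 1 * N / s) ^ s * (s.factorial : ℝ) =
        (2 * N : ℝ) ^ s * (Real.exp 1 ^ s * s.factorial) / (s : ℝ) ^ s := by
      rw [div_pow, mul_pow, mul_pow, mul_pow]; field_simp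
    rw [h6, le_div_iff₀ (by positivity)]
    exact mul_le_mul_of_nonneg_left h3 (by positivity)
  have h7 : ret N (s * (2 * k')) ≤ 2 * (2 * Real.exp 1 * (k' * s) / N) ^ (k' * s) := by
    have h8 := ret_le_few N (k' * s) hN (by positivity)
    have h9 : 2 * (k' * s) = s * (2 * k') := by ring
    rw [h9] at h8
    push_cast at h8
    exact h8
  obtain ⟨ζ, hζ⟩ : ∃ ζ : ℝ, ζ = 2 * Real.exp 1 * (k' * s) / N := ⟨_, rfl⟩
  have hζ0 : 0 < ζ := by rw [hζ]; positivity
  have hζ1 : ζ ≤ 1 / 2 := by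
    rw [hζ, div_le_iff₀ hNr]
    have h10 : (2 * Real.exp 1 * (k' * s) : ℝ) ≤ 8 * (k' * s) := by
      have : (0 : ℝ) < k' * s := by positivity
      nlinarith
    nlinarith
  rw [← hζ] at h7
  have hret := ret_nonneg N (s * (2 * k'))
  have h11 : (2 * Real.exp 1 * N / s) * ζ ^ k' ≤ 1 / 8 := by
    obtain ⟨j, hj⟩ : ∃ j, k' = j + 1 := ⟨k' - 1, by omega⟩
    have h12 : (2 * Real.exp 1 * N / s) * ζ = 4 * Real.exp 1 ^ 2 * k' := by
      rw [hζ]; field_simp; ring
    have h13 : (2 * Real.exp 1 * N / s) * ζ ^ k' = 4 * Real.exp 1 ^ 2 * k' * ζ ^ j := by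
      rw [← h12, hj, pow_succ]; ring
    rw [h13]
    have h14 : ζ ^ j ≤ (1 / 2) ^ j := pow_le_pow_left₀ hζ0.le hζ1 j
    have h15 : Real.exp 1 ^ 2 ≤ 8 := by nlinarith
    have h16 : (512 * k' : ℝ) ≤ 2 ^ j := by
      have h17 : ∀ m : ℕ, 512 * (m + 20) ≤ 2 ^ (m + 19) := by
        intro m
        induction m with
        | zero => norm_num
        | succ m ih => rw [show m + 1 + 19 = (m + 19) + 1 by ring, pow_succ]; omega
      have h18 := h17 (j - 19)
      have h19 : j - 19 + 19 = j := by omega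
      have h20 : j - 19 + 20 = k' := by omega
      rw [h19, h20] at h18
      exact_mod_cast h18
    calc 4 * Real.exp 1 ^ 2 * k' * ζ ^ j ≤ 4 * 8 * k' * (1 / 2) ^ j := by gcongr
      _ = (32 * k') / 2 ^ j := by rw [one_div, inv_pow]; ring
      _ ≤ 1 / 8 := by
          rw [div_le_iff₀ (by positivity)]
          linarith
  calc ((N + 1).choose s : ℝ) * ret N (s * (2 * k'))
      ≤ (2 * Real.exp 1 * N / s) ^ s * (2 * ζ ^ (k' * s)) := by gcongr
    _ = 2 * ((2 * Real.exp 1 * N / s) * ζ ^ k') ^ s := by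
        rw [mul_pow, pow_mul]; ring
    _ ≤ 2 * (1 / 8) ^ s := by gcongr

/-- Existence of the linear system. -/
theorem code_exists (N : ℕ) (hN : 2 ^ 30 ≤ N) :
    ∃ J : Fin (N + 1) × Fin (2 * 2 ^ 34) → Fin N,
      (∀ I : Finset (Fin (N + 1)), I.Nonempty → I.card ≤ N / 2 ^ 30 → vec I J ≠ 0) ∧
      (∀ I : Finset (Fin (N + 1)), I.card = N / 2 ^ 30 →
        499 * N ≤ 1000 * (univ.filter (fun j => vec I J j ≠ 0)).card) := by
  classical
  obtain ⟨k', hk'⟩ : ∃ k' : ℕ, k' = 2 ^ 34 := ⟨_, rfl⟩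
  rw [← hk']
  have hN0 : 0 < N := lt_of_lt_of_le (by positivity) hN
  have : Nonempty (Fin N) := ⟨⟨0, hN0⟩⟩
  have hNr : (2 : ℝ) ^ 30 ≤ N := by exact_mod_cast hN
  have hNr0 : (0 : ℝ) < N := by exact_mod_cast hN0
  obtain ⟨t, ht⟩ : ∃ t : ℕ, t = N / 2 ^ 30 := ⟨_, rfl⟩
  rw [← ht]
  have hcount := count_small_exp N hN
  rw [← ht] at hcount
  -- the tiny error
  have htiny : ∀ c : ℝ, 1 / 10 ^ 6 ≤ c → Real.exp (-(c * N)) ≤ 1 / 100 := by
    intro c hc
    rw [Real.exp_neg, inv_eq_one_div]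
    apply one_div_le_one_div_of_le (by norm_num)
    have h1 := Real.add_one_le_exp (c * N)
    have h2 : (1 / 10 ^ 6 : ℝ) * 2 ^ 30 ≤ c * N := by gcongr
    have h3 : (100 : ℝ) ≤ 1 / 10 ^ 6 * 2 ^ 30 := by norm_num
    linarith
  -- the bad events
  have hA : pr (fun J : Fin (N + 1) × Fin (2 * k') → Fin N =>
      ∃ I ∈ (univ : Finset (Finset (Fin (N + 1)))).filter
        (fun I => I.Nonempty ∧ 16 * k' * I.card ≤ N), vec I J = 0) ≤ 2 / 7 := by
    refine (pr_exists _ _).trans ?_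
    have h1 : ∀ I ∈ (univ : Finset (Finset (Fin (N + 1)))).filter
        (fun I => I.Nonempty ∧ 16 * k' * I.card ≤ N),
        pr (fun J : Fin (N + 1) × Fin (2 * k') → Fin N => vec I J = 0) ≤
        ret N (I.card * (2 * k')) := fun I _ => pr_vec_eq hN0 I 0
    refine (Finset.sum_le_sum h1).trans ?_
    have h2 : ∑ I ∈ (univ : Finset (Finset (Fin (N + 1)))).filter
        (fun I => I.Nonempty ∧ 16 * k' * I.card ≤ N), ret N (I.card * (2 * k')) =
        ∑ I : Finset (Fin (N + 1)), (fun s => if 0 < s ∧ 16 * k' * s ≤ N then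
          ret N (s * (2 * k')) else 0) I.card := by
      rw [Finset.sum_filter]
      refine Finset.sum_congr rfl fun I _ => ?_
      simp only [card_pos]
    rw [h2, ← powerset_univ, Finset.sum_powerset_apply_card
      (fun s => if 0 < s ∧ 16 * k' * s ≤ N then ret N (s * (2 * k')) else 0)]
    rw [card_univ, Fintype.card_fin]
    have h3 : ∀ s ∈ range (N + 1 + 1), (N + 1).choose s •
        (if 0 < s ∧ 16 * k' * s ≤ N then ret N (s * (2 * k')) else 0) ≤
        (if 0 < s then 2 * (1 / 8 : ℝ) ^ s else 0) := by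
      intro s _
      rw [nsmul_eq_mul]
      by_cases hs : 0 < s
      · rw [if_pos hs]
        by_cases hs2 : 16 * k' * s ≤ N
        · rw [if_pos ⟨hs, hs2⟩]
          exact small_bound N s k' hN0 hs (by rw [hk']; norm_num) hs2
        · rw [if_neg (fun h => hs2 h.2), mul_zero]
          positivity
      · rw [if_neg (fun h => hs h.1), if_neg hs, mul_zero]
    refine (Finset.sum_le_sum h3).trans ?_
    rw [Finset.sum_range_succ']
    simp only [Nat.succ_pos, if_true, lt_irrefl, if_false, add_zero]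
    rw [← Finset.mul_sum]
    have h4 : ∑ s ∈ range (N + 1), (1 / 8 : ℝ) ^ (s + 1) ≤ 1 / 7 := by
      have h5 : ∑ s ∈ range (N + 1), (1 / 8 : ℝ) ^ (s + 1) =
          (1 / 8) * ∑ s ∈ range (N + 1), (1 / 8 : ℝ) ^ s := by
        rw [Finset.mul_sum]
        refine Finset.sum_congr rfl fun s _ => ?_
        rw [pow_succ]; ring
      rw [h5, geom_sum_eq (by norm_num)]
      have : (0 : ℝ) ≤ (1 / 8) ^ (N + 1) := by positivity
      have h6 : ((1 / 8 : ℝ) ^ (N + 1) - 1) / (1 / 8 - 1) = (1 - (1 / 8) ^ (N + 1)) * (8 / 7) := by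
        ring
      rw [h6]
      nlinarith
    linarith
  have hB : pr (fun J : Fin (N + 1) × Fin (2 * k') → Fin N =>
      ∃ I ∈ (univ : Finset (Finset (Fin (N + 1)))).filter
        (fun I => I.card ≤ t ∧ N < 16 * k' * I.card), vec I J = 0) ≤ 1 / 8 := by
    refine (pr_exists _ _).trans ?_
    have h1 : ∀ I ∈ (univ : Finset (Finset (Fin (N + 1)))).filter
        (fun I => I.card ≤ t ∧ N < 16 * k' * I.card),
        pr (fun J : Fin (N + 1) × Fin (2 * k') → Fin N => vec I J = 0) ≤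
        2 * Real.exp (-(1 / 10) * N) := by
      intro I hI
      rw [mem_filter] at hI
      refine (pr_vec_eq hN0 I 0).trans ((ret_le_exp N _ hN0).trans ?_)
      have h2 : (N : ℝ) < 16 * k' * I.card := by exact_mod_cast hI.2.2
      have h3 : Real.exp (-(2 * ((I.card * (2 * k') : ℕ) : ℝ) / N)) ≤ Real.exp (-(1 / 4)) := by
        apply Real.exp_le_exp.2
        rw [neg_le_neg_iff, le_div_iff₀ hNr0]
        push_cast
        linarith
      have h4 : Real.exp (-(1 / 4)) ≤ 25 / 32 := by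
        rw [Real.exp_neg, inv_eq_one_div, div_le_iff₀ (Real.exp_pos _)]
        have := Real.quadratic_le_exp_of_nonneg (show (0 : ℝ) ≤ 1 / 4 by norm_num)
        linarith
      have h5 : (1 + Real.exp (-(2 * ((I.card * (2 * k') : ℕ) : ℝ) / N))) / 2 ≤
          Real.exp (-(1 / 10)) := by
        have h6 : (57 / 64 : ℝ) ≤ Real.exp (-(1 / 10)) := by
          have := Real.add_one_le_exp (-(1 / 10 : ℝ)); linarith
        linarith
      have h7 : 0 ≤ (1 + Real.exp (-(2 * ((I.card * (2 * k') : ℕ) : ℝ) / N))) / 2 := by positivity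
      have h8 := pow_le_pow_left₀ h7 h5 N
      rw [← Real.exp_nat_mul] at h8
      have h9 : (N : ℝ) * -(1 / 10) = -(1 / 10) * N := by ring
      rw [h9] at h8
      linarith
    refine (Finset.sum_le_sum h1).trans ?_
    rw [Finset.sum_const, nsmul_eq_mul]
    have h10 : ((((univ : Finset (Finset (Fin (N + 1)))).filter
        (fun I => I.card ≤ t ∧ N < 16 * k' * I.card)).card : ℕ) : ℝ) ≤
        Real.exp (N / 2 ^ 25) := by
      refine le_trans ?_ hcount
      exact_mod_cast card_le_card (fun I hI => by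
        rw [mem_filter] at hI ⊢
        exact ⟨hI.1, hI.2.1⟩)
    calc _ ≤ Real.exp (N / 2 ^ 25) * (2 * Real.exp (-(1 / 10) * N)) := by gcongr
      _ = 2 * Real.exp (-((1 / 10 - 1 / 2 ^ 25) * N)) := by
          rw [mul_left_comm, ← Real.exp_add]; congr 2; ring
      _ ≤ 2 * (1 / 100) := by
          have := htiny (1 / 10 - 1 / 2 ^ 25) (by norm_num)
          linarith
      _ ≤ 1 / 8 := by norm_num
  have hC : pr (fun J : Fin (N + 1) × Fin (2 * k') → Fin N =>
      ∃ I ∈ (univ : Finset (Finset (Fin (N + 1)))).filter (fun I => I.card = t),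
        1000 * (univ.filter (fun j => vec I J j ≠ 0)).card < 499 * N) ≤ 1 / 8 := by
    refine (pr_exists _ _).trans ?_
    have h1 : ∀ I ∈ (univ : Finset (Finset (Fin (N + 1)))).filter (fun I => I.card = t),
        pr (fun J : Fin (N + 1) × Fin (2 * k') → Fin N =>
          1000 * (univ.filter (fun j => vec I J j ≠ 0)).card < 499 * N) ≤
        2 * Real.exp (-(19 / 10 ^ 7) * N) := by
      intro I hI
      rw [mem_filter] at hI
      have h2 : pr (fun J : Fin (N + 1) × Fin (2 * k') → Fin N =>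
          1000 * (univ.filter (fun j => vec I J j ≠ 0)).card < 499 * N) ≤
          pr (fun J : Fin (N + 1) × Fin (2 * k') → Fin N =>
            ∃ v ∈ (univ : Finset (Fin N → ZMod 2)).filter
            (fun v => 1000 * (univ.filter (fun j => v j ≠ 0)).card < 499 * N), vec I J = v) := by
        refine pr_mono fun J hJ => ⟨vec I J, ?_, rfl⟩
        rw [mem_filter]
        exact ⟨mem_univ _, hJ⟩
      refine h2.trans ((pr_exists _ _).trans ?_)
      have h3 : ∀ v ∈ (univ : Finset (Fin N → ZMod 2)).filter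
          (fun v => 1000 * (univ.filter (fun j => v j ≠ 0)).card < 499 * N),
          pr (fun J : Fin (N + 1) × Fin (2 * k') → Fin N => vec I J = v) ≤
          ret N (I.card * (2 * k')) := fun v _ => pr_vec_eq hN0 I v
      refine (Finset.sum_le_sum h3).trans ?_
      rw [Finset.sum_const, nsmul_eq_mul]
      have h4 := count_light N
      have h5 : ret N (I.card * (2 * k')) ≤ 2 * (Real.exp (N / 2 ^ 32) / 2 ^ N) := by
        refine (ret_le_exp N _ hN0).trans ?_
        have h6 : Real.exp (-(2 * ((I.card * (2 * k') : ℕ) : ℝ) / N)) ≤ 1 / 2 ^ 32 := by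
          have h7 : (32 : ℝ) ≤ 2 * ((I.card * (2 * k') : ℕ) : ℝ) / N := by
            rw [le_div_iff₀ hNr0]
            have h8 : N ≤ 2 ^ 31 * t := by
              rw [ht]; omega
            have h9 : (N : ℝ) ≤ 2 ^ 31 * t := by exact_mod_cast h8
            rw [hI.2, hk']
            push_cast
            linarith
          have h10 : Real.exp (-(2 * ((I.card * (2 * k') : ℕ) : ℝ) / N)) ≤ Real.exp (-32) :=
            Real.exp_le_exp.2 (by linarith)
          refine h10.trans ?_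
          rw [Real.exp_neg, inv_eq_one_div]
          apply one_div_le_one_div_of_le (by positivity)
          have h11 : Real.exp 32 = Real.exp 1 ^ 32 := by
            rw [← Real.exp_nat_mul]; norm_num
          rw [h11]
          have h12 : (2 : ℝ) ≤ Real.exp 1 := by
            have := Real.add_one_le_exp (1 : ℝ); linarith
          gcongr
        have h13 : 1 + Real.exp (-(2 * ((I.card * (2 * k') : ℕ) : ℝ) / N)) ≤
            Real.exp (1 / 2 ^ 32) := by
          have := Real.add_one_le_exp (1 / 2 ^ 32 : ℝ); linarith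
        rw [div_pow]
        have h14 : (1 + Real.exp (-(2 * ((I.card * (2 * k') : ℕ) : ℝ) / N))) ^ N ≤
            Real.exp (N / 2 ^ 32) := by
          refine (pow_le_pow_left₀ (by positivity) h13 N).trans (le_of_eq ?_)
          rw [← Real.exp_nat_mul]; congr 1; ring
        gcongr
      have h15 : (0 : ℝ) ≤ 2 ^ N * Real.exp (-(2 / 10 ^ 6) * N) := by positivity
      calc _ ≤ (2 ^ N * Real.exp (-(2 / 10 ^ 6) * N)) * (2 * (Real.exp (N / 2 ^ 32) / 2 ^ N)) :=
            mul_le_mul h4 h5 (ret_nonneg _ _) h15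
        _ = 2 * Real.exp (-(2 / 10 ^ 6) * N + N / 2 ^ 32) := by
            rw [Real.exp_add]; field_simp
        _ ≤ 2 * Real.exp (-(19 / 10 ^ 7) * N) := by
            have : -(2 / 10 ^ 6) * (N : ℝ) + N / 2 ^ 32 ≤ -(19 / 10 ^ 7) * N := by
              have h16 : (N : ℝ) / 2 ^ 32 = (1 / 2 ^ 32) * N := by ring
              have h17 : -(2 / 10 ^ 6) * (N : ℝ) + (1 / 2 ^ 32) * N =
                (-(2 / 10 ^ 6) + (1 / 2 ^ 32)) * N := by ring
              rw [h16, h17]
              apply mul_le_mul_of_nonneg_right _ hNr0.le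
              norm_num
            have := Real.exp_le_exp.2 this
            linarith
    refine (Finset.sum_le_sum h1).trans ?_
    rw [Finset.sum_const, nsmul_eq_mul]
    have h10 : ((((univ : Finset (Finset (Fin (N + 1)))).filter
        (fun I => I.card = t)).card : ℕ) : ℝ) ≤ Real.exp (N / 2 ^ 25) := by
      refine le_trans ?_ hcount
      exact_mod_cast card_le_card (fun I hI => by
        rw [mem_filter] at hI ⊢
        exact ⟨hI.1, hI.2.le⟩)
    calc _ ≤ Real.exp (N / 2 ^ 25) * (2 * Real.exp (-(19 / 10 ^ 7) * N)) := by gcongr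
      _ = 2 * Real.exp (-((19 / 10 ^ 7 - 1 / 2 ^ 25) * N)) := by
          rw [mul_left_comm, ← Real.exp_add]; congr 2; ring
      _ ≤ 2 * (1 / 100) := by
          have := htiny (19 / 10 ^ 7 - 1 / 2 ^ 25) (by norm_num)
          linarith
      _ ≤ 1 / 8 := by norm_num
  have hbad := pr_or (fun J : Fin (N + 1) × Fin (2 * k') → Fin N =>
      ∃ I ∈ (univ : Finset (Finset (Fin (N + 1)))).filter
        (fun I => I.Nonempty ∧ 16 * k' * I.card ≤ N), vec I J = 0)
    (fun J => (∃ I ∈ (univ : Finset (Finset (Fin (N + 1)))).filter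
        (fun I => I.card ≤ t ∧ N < 16 * k' * I.card), vec I J = 0) ∨
      ∃ I ∈ (univ : Finset (Finset (Fin (N + 1)))).filter (fun I => I.card = t),
        1000 * (univ.filter (fun j => vec I J j ≠ 0)).card < 499 * N)
  have hbad2 := pr_or (fun J : Fin (N + 1) × Fin (2 * k') → Fin N =>
      (∃ I ∈ (univ : Finset (Finset (Fin (N + 1)))).filter
        (fun I => I.card ≤ t ∧ N < 16 * k' * I.card), vec I J = 0))
    (fun J => ∃ I ∈ (univ : Finset (Finset (Fin (N + 1)))).filter (fun I => I.card = t),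
        1000 * (univ.filter (fun j => vec I J j ≠ 0)).card < 499 * N)
  have hlt := (hbad.trans (add_le_add hA (hbad2.trans (add_le_add hB hC))))
  obtain ⟨J, hJ⟩ := exists_of_pr_lt_one (lt_of_le_of_lt hlt (by norm_num))
  push Not at hJ
  refine ⟨J, ?_, ?_⟩
  · intro I hI hIt
    by_cases h : 16 * k' * I.card ≤ N
    · exact hJ.1 I (mem_filter.2 ⟨mem_univ _, hI, h⟩)
    · exact hJ.2.1 I (mem_filter.2 ⟨mem_univ _, hIt, not_le.1 h⟩)
  · intro I hI
    have := hJ.2.2 I (mem_filter.2 ⟨mem_univ _, hI⟩)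
    omega

end Pool.Agent.MP_9cec2c_lc.DepthThree
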