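import Mathlib

/-!
Definitions: clauses, affine forms, products of affine forms, static (linear ideal proof system)
refutations whose coefficients are sums of products of affine forms.
-/

set_option autoImplicit false

namespace Pool.Agent.MP_9cec2c_lc.DepthThree

/-- A clause over the Boolean variables `Fin n`: a finite set of literals. The literal `(i, b)`
is true when the variable `i` has the value `b`. -/
abbrev Clause (n : ℕ) := Finset (Fin n × Bool)

/-- The assignment `a` makes every literal of `C` false. -/
def Falsifies {n : ℕ} (a : Fin n → Bool) (C : Clause n) : Prop := ∀ l ∈ C, a l.1 ≠ l.2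

/-- An affine form `const + ∑ coeff i * x_i`. -/
structure Affine (n : ℕ) (𝕜 : Type*) where
  /-- the constant term -/
  const : 𝕜
  /-- the coefficient of each variable -/
  coeff : Fin n → 𝕜

/-- The value of an affine form at a `0/1` point. -/
def Affine.eval {n : ℕ} {𝕜 : Type*} [Field 𝕜] (f : Affine n 𝕜) (a : Fin n → Bool) : 𝕜 :=
  f.const + ∑ i, if a i then f.coeff i else 0

/-- A product of `len` affine forms. -/
structure Product (n : ℕ) (𝕜 : Type*) where
  /-- the number of factors -/
  len : ℕ
  /-- the factors -/
  factor : Fin len → Affine n 𝕜

/-- The value of a product of affine forms at a `0/1` point. -/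
def Product.eval {n : ℕ} {𝕜 : Type*} [Field 𝕜] (P : Product n 𝕜) (a : Fin n → Bool) : 𝕜 :=
  ∏ j, (P.factor j).eval a

/-- After removing at most `d` of the factors, no variable occurs in two different factors. -/
def Product.NearlyMultilinear {n : ℕ} {𝕜 : Type*} [Field 𝕜] (P : Product n 𝕜) (d : ℝ) : Prop :=
  ∃ E : Finset (Fin P.len), (E.card : ℝ) ≤ d ∧
    ∀ i ∉ E, ∀ j ∉ E, i ≠ j → ∀ v, (P.factor i).coeff v = 0 ∨ (P.factor j).coeff v = 0

open scoped Classical in
/-- `g` is a static refutation of `F`: for every `0/1` point `a` the values at `a` of the
coefficients of the clauses that are false at `a` add up to `1`. The coefficient of the clause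
`C` is the sum of the products of affine forms in the list `g C`. -/
def IsRefutation {n : ℕ} {𝕜 : Type*} [Field 𝕜] (F : Finset (Clause n))
    (g : Clause n → List (Product n 𝕜)) : Prop :=
  ∀ a : Fin n → Bool,
    ∑ C ∈ F, (if Falsifies a C then ((g C).map (fun P => P.eval a)).sum else 0) = 1

end Pool.Agent.MP_9cec2c_lc.DepthThree
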