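import Mathlib

/-!
A numerical inequality: `(1 + (1 - u)²)^50 u^17 ≤ 1` on the unit interval.
-/

set_option autoImplicit false

namespace Pool.Agent.MP_9cec2c_lc.DepthThree

theorem grid : ∀ i < 210, (300 ^ 2 + (300 - i) ^ 2) ^ 50 * (i + 1) ^ 17 ≤ 300 ^ 117 := by
  decide +kernel

theorem grid_real (H i : ℕ) (hH : H = 300) (hi : i < 210) :
    (((H : ℝ) ^ 2 + ((H : ℝ) - (i : ℝ)) ^ 2) ^ 50 * ((i : ℝ) + 1) ^ 17 : ℝ) ≤ (H : ℝ) ^ 117 := by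
  have hg : (H ^ 2 + (H - i) ^ 2) ^ 50 * (i + 1) ^ 17 ≤ H ^ 117 := by
    subst hH; exact grid i hi
  have h2 : ((H - i : ℕ) : ℝ) = (H : ℝ) - (i : ℝ) := Nat.cast_sub (by omega)
  have h3 := (Nat.cast_le (α := ℝ)).2 hg
  rw [Nat.cast_mul, Nat.cast_pow, Nat.cast_pow, Nat.cast_pow, Nat.cast_add, Nat.cast_pow,
    Nat.cast_pow, h2, Nat.cast_add, Nat.cast_one] at h3
  exact h3

theorem gap_ineq (u : ℝ) (h0 : 0 ≤ u) (h1 : u ≤ 1) : (1 + (1 - u) ^ 2) ^ 50 * u ^ 17 ≤ 1 := by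
  by_cases hu : u < 0.7
  · obtain ⟨H, hH⟩ : ∃ H : ℕ, H = 300 := ⟨_, rfl⟩
    have hHr : (H : ℝ) = 300 := by rw [hH]; norm_num
    obtain ⟨i, hi⟩ : ∃ i : ℕ, i = ⌊(H : ℝ) * u⌋₊ := ⟨_, rfl⟩
    have hi1 : (i : ℝ) ≤ H * u := by rw [hi]; exact Nat.floor_le (by positivity)
    have hi2 : H * u < i + 1 := by rw [hi]; exact Nat.lt_floor_add_one _
    have hi3 : i < 210 := by
      have : (i : ℝ) < 210 := by rw [hHr] at hi1; linarith
      exact_mod_cast this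
    have hg := grid_real H i hH hi3
    have hH0 : (0 : ℝ) < H := by rw [hHr]; norm_num
    have e0 : (i : ℝ) / H ≤ u := by rw [div_le_iff₀ hH0]; linarith
    have e1 : (1 + (1 - u) ^ 2) ≤ ((H : ℝ) ^ 2 + ((H : ℝ) - (i : ℝ)) ^ 2) / (H : ℝ) ^ 2 := by
      have h3 : (1 - u) ^ 2 ≤ (1 - (i : ℝ) / H) ^ 2 := by
        apply pow_le_pow_left₀ (by linarith)
        linarith
      have h4 : ((H : ℝ) ^ 2 + ((H : ℝ) - (i : ℝ)) ^ 2) / (H : ℝ) ^ 2 =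
          1 + (1 - (i : ℝ) / H) ^ 2 := by
        field_simp
      rw [h4]
      linarith
    have e2 : u ≤ ((i : ℝ) + 1) / H := by rw [le_div_iff₀ hH0]; linarith
    calc (1 + (1 - u) ^ 2) ^ 50 * u ^ 17
        ≤ (((H : ℝ) ^ 2 + ((H : ℝ) - (i : ℝ)) ^ 2) / (H : ℝ) ^ 2) ^ 50 *
            (((i : ℝ) + 1) / H) ^ 17 := by
          gcongr
      _ = (((H : ℝ) ^ 2 + ((H : ℝ) - (i : ℝ)) ^ 2) ^ 50 * ((i : ℝ) + 1) ^ 17) /
            (H : ℝ) ^ 117 := by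
          rw [div_pow, div_pow, ← pow_mul, div_mul_div_comm, ← pow_add]
      _ ≤ 1 := by
          rw [div_le_one (by positivity)]; exact hg
  · push Not at hu
    have h2 : 1 + (1 - u) ^ 2 ≤ Real.exp ((1 - u) ^ 2) := by
      have := Real.add_one_le_exp ((1 - u) ^ 2); linarith
    have h3 : u ≤ Real.exp (-(1 - u)) := by
      have := Real.add_one_le_exp (-(1 - u)); linarith
    calc (1 + (1 - u) ^ 2) ^ 50 * u ^ 17
        ≤ (Real.exp ((1 - u) ^ 2)) ^ 50 * (Real.exp (-(1 - u))) ^ 17 := by gcongr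
      _ = Real.exp (50 * (1 - u) ^ 2 - 17 * (1 - u)) := by
          rw [← Real.exp_nat_mul, ← Real.exp_nat_mul, ← Real.exp_add]
          congr 1; push_cast; ring
      _ ≤ 1 := by
          rw [Real.exp_le_one_iff]
          nlinarith

end Pool.Agent.MP_9cec2c_lc.DepthThree
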