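import Mathlib
import Pool.Agent.Lib.MP_9cec2c_lc.D3Prob
import Pool.Agent.Lib.MP_9cec2c_lc.D3Num

/-!
The expected value of `2 ^ (number of split blocks)`.
-/

set_option autoImplicit false

namespace Pool.Agent.MP_9cec2c_lc.DepthThree

open Finset

variable {P α : Type*} [Fintype P] [DecidableEq P] [Fintype α] [DecidableEq α]

/-- The block `B` contains both values `aX` and `aY`. -/
def Split (aX aY : α) (ρ : P → α) (B : Finset P) : Prop :=
  (∃ p ∈ B, ρ p = aX) ∧ (∃ p ∈ B, ρ p = aY)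

instance (aX aY : α) (ρ : P → α) (B : Finset P) : Decidable (Split aX aY ρ B) := by
  unfold Split; infer_instance

theorem avg_ne [Nonempty α] (a : α) :
    avg (fun x : α => if x = a then (0 : ℝ) else 1) = 1 - 1 / Fintype.card α := by
  have hα : (Fintype.card α : ℝ) ≠ 0 := by exact_mod_cast Fintype.card_ne_zero
  have h1 : avg (fun x : α => if x = a then (0 : ℝ) else 1) =
      avg (fun x : α => 1 - (if x = a then (1 : ℝ) else 0)) := by
    congr 1; ext x; split_ifs <;> norm_num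
  rw [h1, avg_sub, avg_const]
  congr 1
  unfold avg
  simp

theorem avg_ne_two [Nonempty α] (a b : α) (hab : a ≠ b) :
    avg (fun x : α => if x = a ∨ x = b then (0 : ℝ) else 1) = 1 - 2 / Fintype.card α := by
  have hα : (Fintype.card α : ℝ) ≠ 0 := by exact_mod_cast Fintype.card_ne_zero
  have h1 : avg (fun x : α => if x = a ∨ x = b then (0 : ℝ) else 1) =
      avg (fun x : α => 1 - ((if x = a then (1 : ℝ) else 0) + (if x = b then (1 : ℝ) else 0))) := by
    congr 1; ext x
    by_cases h1 : x = a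
    · subst h1; simp [hab]
    · by_cases h2 : x = b
      · simp [h2, hab.symm]
      · simp [h1, h2]
  rw [h1, avg_sub, avg_const, avg_add]
  have h2 : ∀ c : α, avg (fun x : α => if x = c then (1 : ℝ) else 0) = 1 / Fintype.card α := by
    intro c; unfold avg; simp
  rw [h2, h2]
  ring

/-- The expectation for one block. -/
theorem avg_split_le [Nonempty α] (aX aY : α) (hne : aX ≠ aY) (B : Finset P) :
    avg (fun ρ : P → α => if Split aX aY ρ B then (2 : ℝ) else 1) ≤
      1 + (1 - (1 - 1 / (Fintype.card α : ℝ)) ^ B.card) ^ 2 := by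
  classical
  have hq2 : 2 ≤ Fintype.card α := by
    have : ({aX, aY} : Finset α).card ≤ Fintype.card α := card_le_univ _
    rwa [card_pair hne] at this
  have hq : (2 : ℝ) ≤ Fintype.card α := by exact_mod_cast hq2
  have hX := avg_prod_coord (ι := P) (α := α) B (fun x => if x = aX then (0 : ℝ) else 1)
  have hY := avg_prod_coord (ι := P) (α := α) B (fun x => if x = aY then (0 : ℝ) else 1)
  have hXY := avg_prod_coord (ι := P) (α := α) B (fun x => if x = aX ∨ x = aY then (0 : ℝ) else 1)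
  rw [avg_ne] at hX hY
  rw [avg_ne_two _ _ hne] at hXY
  have hind : ∀ (s : α → Prop) [DecidablePred s] (ρ : P → α),
      ∏ i ∈ B, (if s (ρ i) then (0 : ℝ) else 1) = if ∃ p ∈ B, s (ρ p) then 0 else 1 := by
    intro s _ ρ
    split_ifs with h
    · obtain ⟨p, hp, hs⟩ := h
      exact Finset.prod_eq_zero hp (by rw [if_pos hs])
    · push Not at h
      exact Finset.prod_eq_one fun p hp => by rw [if_neg (h p hp)]
  have key : ∀ ρ : P → α, (if Split aX aY ρ B then (2 : ℝ) else 1) =
      2 - ∏ i ∈ B, (if ρ i = aX then (0 : ℝ) else 1) - ∏ i ∈ B, (if ρ i = aY then (0 : ℝ) else 1)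
        + ∏ i ∈ B, (if ρ i = aX ∨ ρ i = aY then (0 : ℝ) else 1) := by
    intro ρ
    rw [hind (fun x => x = aX), hind (fun x => x = aY), hind (fun x => x = aX ∨ x = aY)]
    unfold Split
    have h3 : (∃ p ∈ B, ρ p = aX ∨ ρ p = aY) ↔ (∃ p ∈ B, ρ p = aX) ∨ (∃ p ∈ B, ρ p = aY) := by
      constructor
      · rintro ⟨p, hp, h | h⟩
        · exact Or.inl ⟨p, hp, h⟩
        · exact Or.inr ⟨p, hp, h⟩
      · rintro (⟨p, hp, h⟩ | ⟨p, hp, h⟩)
        · exact ⟨p, hp, Or.inl h⟩
        · exact ⟨p, hp, Or.inr h⟩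
    rw [if_congr h3 rfl rfl]
    by_cases h1 : ∃ p ∈ B, ρ p = aX <;> by_cases h2 : ∃ p ∈ B, ρ p = aY <;>
      simp only [h1, h2, if_true, if_false, and_true, and_false, or_true, or_false] <;> norm_num
  have h4 : avg (fun ρ : P → α => if Split aX aY ρ B then (2 : ℝ) else 1) =
      2 - (1 - 1 / (Fintype.card α : ℝ)) ^ B.card - (1 - 1 / (Fintype.card α : ℝ)) ^ B.card
        + (1 - 2 / (Fintype.card α : ℝ)) ^ B.card := by
    simp only [key]
    rw [avg_add, avg_sub, avg_sub, avg_const, hX, hY, hXY]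
  rw [h4]
  have h5 : (1 - 2 / (Fintype.card α : ℝ)) ^ B.card ≤
      ((1 - 1 / (Fintype.card α : ℝ)) ^ B.card) ^ 2 := by
    rw [← pow_mul, mul_comm, pow_mul]
    apply pow_le_pow_left₀
    · rw [sub_nonneg, div_le_one (by linarith)]; exact hq
    · have : 2 / (Fintype.card α : ℝ) = 2 * (1 / Fintype.card α) := by ring
      rw [this]
      nlinarith [sq_nonneg (1 / (Fintype.card α : ℝ))]
  nlinarith

/-- The expectation for a family of disjoint blocks. -/
theorem avg_prod_split [Nonempty α] (aX aY : α) (hne : aX ≠ aY) {T : Type*} [DecidableEq T]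
    (J : Finset T) (B : T → Finset P) (hB : ∀ t ∈ J, ∀ t' ∈ J, t ≠ t' → Disjoint (B t) (B t')) :
    (avg (fun ρ : P → α => ∏ t ∈ J, (if Split aX aY ρ (B t) then (2 : ℝ) else 1))) ^ 50 *
      ((1 - 1 / (Fintype.card α : ℝ)) ^ Fintype.card P) ^ 17 ≤ 1 := by
  classical
  have hq2 : 2 ≤ Fintype.card α := by
    have : ({aX, aY} : Finset α).card ≤ Fintype.card α := card_le_univ _
    rwa [card_pair hne] at this
  have hq : (2 : ℝ) ≤ Fintype.card α := by exact_mod_cast hq2
  obtain ⟨w, hw⟩ : ∃ w : ℝ, w = 1 - 1 / (Fintype.card α : ℝ) := ⟨_, rfl⟩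
  have hw0 : 0 ≤ w := by
    rw [hw, sub_nonneg, div_le_one (by linarith)]; linarith
  have hw1 : w ≤ 1 := by
    rw [hw]
    have : 0 ≤ 1 / (Fintype.card α : ℝ) := by positivity
    linarith
  rw [avg_prod_indep J (fun t ρ => if Split aX aY ρ (B t) then (2 : ℝ) else 1) B _ hB]
  · rw [← hw]
    have h1 : ∀ t ∈ J, avg (fun ρ : P → α => if Split aX aY ρ (B t) then (2 : ℝ) else 1) ≤
        1 + (1 - w ^ (B t).card) ^ 2 := fun t _ => by
      rw [hw]; exact avg_split_le aX aY hne (B t)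
    have h0 : ∀ t ∈ J, 0 ≤ avg (fun ρ : P → α => if Split aX aY ρ (B t) then (2 : ℝ) else 1) :=
      fun t _ => avg_nonneg fun ρ => by split_ifs <;> norm_num
    have h2 : w ^ Fintype.card P ≤ ∏ t ∈ J, w ^ (B t).card := by
      rw [Finset.prod_pow_eq_pow_sum]
      apply pow_le_pow_of_le_one hw0 hw1
      rw [← card_biUnion hB]
      exact card_le_univ _
    calc (∏ t ∈ J, avg (fun ρ : P → α => if Split aX aY ρ (B t) then (2 : ℝ) else 1)) ^ 50 *
          (w ^ Fintype.card P) ^ 17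
        ≤ (∏ t ∈ J, (1 + (1 - w ^ (B t).card) ^ 2)) ^ 50 * (∏ t ∈ J, w ^ (B t).card) ^ 17 := by
          have h3 := Finset.prod_le_prod h0 h1
          have h4 := Finset.prod_nonneg h0
          gcongr
      _ = ∏ t ∈ J, ((1 + (1 - w ^ (B t).card) ^ 2) ^ 50 * (w ^ (B t).card) ^ 17) := by
          rw [Finset.prod_mul_distrib, Finset.prod_pow, Finset.prod_pow]
      _ ≤ 1 := by
          apply Finset.prod_le_one
          · intro t _; positivity
          · intro t _
            exact gap_ineq _ (by positivity) (pow_le_one₀ hw0 hw1)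
  · intro t _ x y hxy
    have : Split aX aY x (B t) ↔ Split aX aY y (B t) := by
      unfold Split
      constructor
      · rintro ⟨⟨p, hp, h⟩, ⟨p', hp', h'⟩⟩
        exact ⟨⟨p, hp, by rw [← hxy p hp]; exact h⟩, ⟨p', hp', by rw [← hxy p' hp']; exact h'⟩⟩
      · rintro ⟨⟨p, hp, h⟩, ⟨p', hp', h'⟩⟩
        exact ⟨⟨p, hp, by rw [hxy p hp]; exact h⟩, ⟨p', hp', by rw [hxy p' hp']; exact h'⟩⟩
    simp only [this]

end Pool.Agent.MP_9cec2c_lc.DepthThree
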