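import Mathlib
import Pool.Agent.Lib.MP_9cec2c_lc.D3Defs
import Pool.Agent.Lib.MP_9cec2c_lc.D3Split
import Pool.Agent.Lib.MP_9cec2c_lc.D3Fourier

/-!
The main rank inequality.
-/

set_option autoImplicit false

namespace Pool.Agent.MP_9cec2c_lc.DepthThree

open Finset

section cancel

variable {M : ℕ} {𝕜 : Type*} [Field 𝕜]

/-- Cancellation in the sum over small sets. -/
theorem cancel (τ : Fin M → 𝕜) (i0 : Fin M) (h : τ i0 = -1) (t : ℕ) :
    ∑ I ∈ (univ : Finset (Finset (Fin M))).filter (fun I => I.card ≤ t), ∏ i ∈ I, τ i =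
      ∑ I ∈ (univ : Finset (Finset (Fin M))).filter (fun I => I.card = t ∧ i0 ∉ I),
        ∏ i ∈ I, τ i := by
  classical
  have h1 : ∑ I ∈ (univ : Finset (Finset (Fin M))).filter (fun I => I.card ≤ t), ∏ i ∈ I, τ i =
      ∑ I ∈ (univ : Finset (Finset (Fin M))).filter (fun I => I.card ≤ t ∧ i0 ∈ I),
        ∏ i ∈ I, τ i +
      ∑ I ∈ (univ : Finset (Finset (Fin M))).filter (fun I => I.card ≤ t ∧ i0 ∉ I),
        ∏ i ∈ I, τ i := by
    rw [← Finset.sum_filter_add_sum_filter_not _ (fun I => i0 ∈ I), filter_filter, filter_filter]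
  have h2 : ∑ I ∈ (univ : Finset (Finset (Fin M))).filter (fun I => I.card ≤ t ∧ i0 ∈ I),
        ∏ i ∈ I, τ i =
      ∑ I ∈ (univ : Finset (Finset (Fin M))).filter (fun I => I.card + 1 ≤ t ∧ i0 ∉ I),
        - ∏ i ∈ I, τ i := by
    symm
    refine Finset.sum_bij' (fun I _ => insert i0 I) (fun I _ => I.erase i0) ?_ ?_ ?_ ?_ ?_
    · intro I hI
      rw [mem_filter] at hI ⊢
      refine ⟨mem_univ _, ?_, mem_insert_self _ _⟩
      rw [card_insert_of_notMem hI.2.2]
      exact hI.2.1
    · intro I hI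
      rw [mem_filter] at hI ⊢
      refine ⟨mem_univ _, ?_, notMem_erase _ _⟩
      rw [card_erase_of_mem hI.2.2]
      have := card_pos.2 ⟨i0, hI.2.2⟩
      omega
    · intro I hI
      rw [mem_filter] at hI
      exact erase_insert hI.2.2
    · intro I hI
      rw [mem_filter] at hI
      exact insert_erase hI.2.2
    · intro I hI
      rw [mem_filter] at hI
      rw [prod_insert hI.2.2, h]
      ring
  have h3 : ∑ I ∈ (univ : Finset (Finset (Fin M))).filter (fun I => I.card ≤ t ∧ i0 ∉ I),
        ∏ i ∈ I, τ i =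
      ∑ I ∈ (univ : Finset (Finset (Fin M))).filter (fun I => I.card + 1 ≤ t ∧ i0 ∉ I),
        ∏ i ∈ I, τ i +
      ∑ I ∈ (univ : Finset (Finset (Fin M))).filter (fun I => I.card = t ∧ i0 ∉ I),
        ∏ i ∈ I, τ i := by
    rw [← Finset.sum_union]
    · congr 1
      ext I
      simp only [mem_filter, mem_union, mem_univ, true_and]
      constructor
      · rintro ⟨h4, h5⟩
        rcases Nat.lt_or_ge I.card t with h6 | h6
        · exact Or.inl ⟨h6, h5⟩
        · exact Or.inr ⟨le_antisymm h4 h6, h5⟩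
      · rintro (⟨h4, h5⟩ | ⟨h4, h5⟩)
        · exact ⟨by omega, h5⟩
        · exact ⟨by omega, h5⟩
    · rw [Finset.disjoint_left]
      intro I hI hI'
      rw [mem_filter] at hI hI'
      omega
  rw [h1, h2, h3, Finset.sum_neg_distrib]
  ring

end cancel

section setup

variable {N κ k n : ℕ} {α : Type*} [DecidableEq α] {𝕜 : Type*} [Field 𝕜]

/-- The combined assignment of all `n` variables. -/
noncomputable def comb (e : Fin N × Fin κ → Fin n) (aX aY : α) (ρ : Fin N × Fin κ → α)
    (x y : Fin N → Fin κ → Bool) : Fin n → Bool :=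
  Function.extend e (fun p => mix aX aY (fun a => ρ (p.1, a)) (x p.1) (y p.1) p.2)
    (fun _ => false)

theorem comb_apply {e : Fin N × Fin κ → Fin n} (he : Function.Injective e) (aX aY : α)
    (ρ : Fin N × Fin κ → α) (x y : Fin N → Fin κ → Bool) (p : Fin N × Fin κ) :
    comb e aX aY ρ x y (e p) = mix aX aY (fun a => ρ (p.1, a)) (x p.1) (y p.1) p.2 := by
  unfold comb
  rw [he.extend_apply]

theorem comb_apply' {e : Fin N × Fin κ → Fin n} (aX aY : α)
    (ρ : Fin N × Fin κ → α) (x y : Fin N → Fin κ → Bool) (i : Fin n) (hi : i ∉ Set.range e) :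
    comb e aX aY ρ x y i = false := by
  unfold comb
  rw [Function.extend_apply']
  exact hi

open scoped Classical in
/-- The variables of an affine form. -/
noncomputable def vars (e : Fin N × Fin κ → Fin n) (f : Affine n 𝕜) : Finset (Fin N × Fin κ) :=
  univ.filter (fun p => f.coeff (e p) ≠ 0)

theorem affine_rank {e : Fin N × Fin κ → Fin n} (he : Function.Injective e) (aX aY : α)
    (hne : aX ≠ aY) (ρ : Fin N × Fin κ → α) (f : Affine n 𝕜) :
    RankLE (fun x y => f.eval (comb e aX aY ρ x y)) (if Split aX aY ρ (vars e f) then 2 else 1) := by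
  classical
  obtain ⟨u, hu⟩ : ∃ u : (Fin N → Fin κ → Bool) → 𝕜, u = fun x => ∑ p : Fin N × Fin κ,
    (if ρ p = aX then (if x p.1 p.2 then f.coeff (e p) else 0) else 0) := ⟨_, rfl⟩
  obtain ⟨v, hv⟩ : ∃ v : (Fin N → Fin κ → Bool) → 𝕜, v = fun x => ∑ p : Fin N × Fin κ,
    (if ρ p = aY then (if x p.1 p.2 then f.coeff (e p) else 0) else 0) := ⟨_, rfl⟩
  have key : ∀ x y, f.eval (comb e aX aY ρ x y) = f.const + u x + v y := by
    intro x y
    unfold Affine.eval
    have h1 : ∑ i, (if comb e aX aY ρ x y i = true then f.coeff i else 0) =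
        ∑ p : Fin N × Fin κ, (if comb e aX aY ρ x y (e p) = true then f.coeff (e p) else 0) := by
      symm
      refine Fintype.sum_of_injective e he _ _ ?_ (fun p => rfl)
      intro i hi
      rw [comb_apply' aX aY ρ x y i hi]
      simp
    rw [h1, hu, hv, add_assoc, ← Finset.sum_add_distrib]
    congr 1
    refine Finset.sum_congr rfl fun p _ => ?_
    rw [comb_apply he]
    unfold mix
    by_cases hX : ρ p = aX
    · have hY : ρ p ≠ aY := by rw [hX]; exact hne
      simp [hX, hne]
    · by_cases hY : ρ p = aY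
      · simp [hY, hne.symm]
      · simp [hX, hY]
  by_cases hs : Split aX aY ρ (vars e f)
  · rw [if_pos hs]
    have h2 := (rankLE_left (β := Fin N → Fin κ → Bool) (fun x => f.const + u x)).add
      (rankLE_right (α := Fin N → Fin κ → Bool) v)
    exact h2.congr key
  · rw [if_neg hs]
    unfold Split at hs
    rw [not_and_or] at hs
    rcases hs with hs | hs
    · push Not at hs
      have hu0 : ∀ x, u x = 0 := by
        intro x
        rw [hu]
        refine Finset.sum_eq_zero fun p _ => ?_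
        split_ifs with h1 h2
        · by_contra hc
          exact hs p (by simp only [vars, mem_filter, mem_univ, true_and]; exact hc) h1
        · rfl
        · rfl
      refine (rankLE_right (α := Fin N → Fin κ → Bool) (fun y => f.const + v y)).congr
        fun x y => ?_
      rw [key, hu0, add_zero]
    · push Not at hs
      have hv0 : ∀ x, v x = 0 := by
        intro x
        rw [hv]
        refine Finset.sum_eq_zero fun p _ => ?_
        split_ifs with h1 h2
        · by_contra hc
          exact hs p (by simp only [vars, mem_filter, mem_univ, true_and]; exact hc) h1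
        · rfl
        · rfl
      refine (rankLE_left (β := Fin N → Fin κ → Bool) (fun x => f.const + u x)).congr
        fun x y => ?_
      rw [key, hv0, add_zero]

/-- The rank bound of a product. -/
noncomputable def rk (e : Fin N × Fin κ → Fin n) (aX aY : α) (ρ : Fin N × Fin κ → α)
    (P : Product n 𝕜) : ℕ :=
  ∏ j, (if Split aX aY ρ (vars e (P.factor j)) then 2 else 1)

theorem product_rank {e : Fin N × Fin κ → Fin n} (he : Function.Injective e) (aX aY : α)
    (hne : aX ≠ aY) (ρ : Fin N × Fin κ → α) (P : Product n 𝕜) :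
    RankLE (fun x y => P.eval (comb e aX aY ρ x y)) (rk e aX aY ρ P) := by
  unfold Product.eval rk
  exact rankLE_prod univ (fun j x y => (P.factor j).eval (comb e aX aY ρ x y)) _
    (fun j _ => affine_rank he aX aY hne ρ (P.factor j))

/-- The clause of row `i` which forbids the local assignment `β`. -/
def cl (e : Fin N × Fin κ → Fin n) (J : Fin (N + 1) × Fin k → Fin N) (i : Fin (N + 1))
    (β : Fin k → Fin κ → Bool) : Clause n :=
  (univ : Finset (Fin k × Fin κ)).image (fun q => (e (J (i, q.1), q.2), !β q.1 q.2))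

theorem falsifies_cl (e : Fin N × Fin κ → Fin n) (J : Fin (N + 1) × Fin k → Fin N)
    (i : Fin (N + 1)) (β : Fin k → Fin κ → Bool) (a : Fin n → Bool) :
    Falsifies a (cl e J i β) ↔ ∀ l c, a (e (J (i, l), c)) = β l c := by
  unfold Falsifies cl
  constructor
  · intro h l c
    have := h (e (J (i, l), c), !β l c) (mem_image.2 ⟨(l, c), mem_univ _, rfl⟩)
    simpa using this
  · intro h q hq
    obtain ⟨p, _, rfl⟩ := mem_image.1 hq
    rw [h p.1 p.2]
    simp

/-- The value of the gadget `j`. -/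
def zval (L : Fin κ → Fin κ → ZMod 2) (u : Fin κ → Bool) : ZMod 2 := quad L (fun c => bz (u c))

/-- The formula. -/
def cnf (e : Fin N × Fin κ → Fin n) (J : Fin (N + 1) × Fin k → Fin N)
    (L : Fin κ → Fin κ → ZMod 2) (b : Fin (N + 1) → ZMod 2) : Finset (Clause n) :=
  ((univ : Finset (Fin (N + 1) × (Fin k → Fin κ → Bool))).filter
    (fun p => ∑ l, zval L (p.2 l) ≠ b p.1)).image (fun p => cl e J p.1 p.2)

theorem mem_cnf {e : Fin N × Fin κ → Fin n} {J : Fin (N + 1) × Fin k → Fin N}
    {L : Fin κ → Fin κ → ZMod 2} {b : Fin (N + 1) → ZMod 2} {C : Clause n} :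
    C ∈ cnf e J L b ↔ ∃ i β, ∑ l, zval L (β l) ≠ b i ∧ cl e J i β = C := by
  unfold cnf
  simp only [mem_image, mem_filter, mem_univ, true_and, Prod.exists]

theorem card_cnf (e : Fin N × Fin κ → Fin n) (J : Fin (N + 1) × Fin k → Fin N)
    (L : Fin κ → Fin κ → ZMod 2) (b : Fin (N + 1) → ZMod 2) :
    (cnf e J L b).card ≤ (N + 1) * 2 ^ (κ * k) := by
  classical
  unfold cnf
  refine card_image_le.trans ((card_filter_le _ _).trans ?_)
  rw [card_univ, Fintype.card_prod, Fintype.card_fin, Fintype.card_fun, Fintype.card_fun,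
    Fintype.card_bool, Fintype.card_fin, Fintype.card_fin, ← pow_mul]

theorem width_cnf (e : Fin N × Fin κ → Fin n) (J : Fin (N + 1) × Fin k → Fin N)
    (L : Fin κ → Fin κ → ZMod 2) (b : Fin (N + 1) → ZMod 2) (C : Clause n)
    (hC : C ∈ cnf e J L b) : C.card ≤ κ * k := by
  obtain ⟨i, β, _, rfl⟩ := mem_cnf.1 hC
  unfold cl
  refine card_image_le.trans ?_
  rw [card_univ, Fintype.card_prod, Fintype.card_fin, Fintype.card_fin, mul_comm]

theorem unsat_cnf (e : Fin N × Fin κ → Fin n) (J : Fin (N + 1) × Fin k → Fin N)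
    (L : Fin κ → Fin κ → ZMod 2) (b : Fin (N + 1) → ZMod 2)
    (hb : ∀ z : Fin N → ZMod 2, ∃ i, ∑ l, z (J (i, l)) ≠ b i) (a : Fin n → Bool) :
    ∃ C ∈ cnf e J L b, Falsifies a C := by
  obtain ⟨i, hi⟩ := hb (fun j => zval L (fun c => a (e (j, c))))
  refine ⟨cl e J i (fun l c => a (e (J (i, l), c))), mem_cnf.2 ⟨i, _, hi, rfl⟩, ?_⟩
  rw [falsifies_cl]
  intro l c
  rfl

theorem exists_rhs (J : Fin (N + 1) × Fin k → Fin N) :
    ∃ b : Fin (N + 1) → ZMod 2, ∀ z : Fin N → ZMod 2, ∃ i, ∑ l, z (J (i, l)) ≠ b i := by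
  classical
  by_contra hcon
  push Not at hcon
  have hsurj : Function.Surjective
      (fun (z : Fin N → ZMod 2) (i : Fin (N + 1)) => ∑ l, z (J (i, l))) := by
    intro b
    obtain ⟨z, hz⟩ := hcon b
    exact ⟨z, funext hz⟩
  have h := Fintype.card_le_of_surjective _ hsurj
  rw [Fintype.card_fun, Fintype.card_fun, Fintype.card_fin, Fintype.card_fin, ZMod.card] at h
  have := Nat.pow_lt_pow_right (a := 2) (by norm_num) (Nat.lt_succ_self N)
  simp only [Nat.succ_eq_add_one] at this
  omega

/-- The size of the image for gadget `j`. -/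
def wc (L : Fin κ → Fin κ → ZMod 2) (aX aY : α) (ρ : Fin N × Fin κ → α) (j : Fin N) : ℕ :=
  (wset L aX aY (fun a => ρ (j, a))).card

/-- The function of the set `I`. -/
def term (𝕜 : Type*) [Field 𝕜] (L : Fin κ → Fin κ → ZMod 2) (aX aY : α)
    (ρ : Fin N × Fin κ → α) (J : Fin (N + 1) × Fin k → Fin N) (I : Finset (Fin (N + 1)))
    (x y : Fin N → Fin κ → Bool) : 𝕜 :=
  ∏ j, (if vec I J j = 0 then gmat 𝕜 L aX aY (fun a => ρ (j, a)) (x j) (y j) else 1)

theorem term_rank (L : Fin κ → Fin κ → ZMod 2) (aX aY : α) (hne : aX ≠ aY)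
    (ρ : Fin N × Fin κ → α) (J : Fin (N + 1) × Fin k → Fin N) (I : Finset (Fin (N + 1))) :
    RankLE (term 𝕜 L aX aY ρ J I) (∏ j, (if vec I J j = 0 then wc L aX aY ρ j else 1)) := by
  have h1 : ∀ j ∈ (univ : Finset (Fin N)), RankLE (fun x y : Fin N → Fin κ → Bool =>
      if vec I J j = 0 then gmat 𝕜 L aX aY (fun a => ρ (j, a)) (x j) (y j) else 1)
      (if vec I J j = 0 then wc L aX aY ρ j else 1) := by
    intro j _
    by_cases h : vec I J j = 0
    · rw [if_pos h]
      have h3 := (gmat_rankLE (𝕜 := 𝕜) L aX aY hne (fun a => ρ (j, a))).comp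
        (fun x : Fin N → Fin κ → Bool => x j) (fun y : Fin N → Fin κ → Bool => y j)
      exact h3.congr fun x y => if_pos h
    · rw [if_neg h]
      exact (rankLE_const 1).congr fun x y => if_neg h
  exact rankLE_prod univ _ _ h1

/-- The big matrix. -/
def big (𝕜 : Type*) [Field 𝕜] (L : Fin κ → Fin κ → ZMod 2) (aX aY : α)
    (ρ : Fin N × Fin κ → α) (J : Fin (N + 1) × Fin k → Fin N) (b : Fin (N + 1) → ZMod 2)
    (t : ℕ) (x y : Fin N → Fin κ → Bool) : 𝕜 :=
  ∑ I ∈ (univ : Finset (Finset (Fin (N + 1)))).filter (fun I => I.card ≤ t),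
    (∏ i ∈ I, sgn 𝕜 (b i)) * term 𝕜 L aX aY ρ J I x y

theorem sum_row (J : Fin (N + 1) × Fin k → Fin N) (I : Finset (Fin (N + 1)))
    (z : Fin N → ZMod 2) :
    ∑ i ∈ I, ∑ l, z (J (i, l)) = ∑ j, vec I J j * z j := by
  unfold vec
  have h1 : ∀ (i : Fin (N + 1)) (l : Fin k),
      z (J (i, l)) = ∑ j : Fin N, (if J (i, l) = j then (1 : ZMod 2) else 0) * z j := by
    intro i l
    simp
  have h2 : ∑ j : Fin N, (∑ i ∈ I, ∑ l : Fin k, if J (i, l) = j then (1 : ZMod 2) else 0) * z j =
      ∑ i ∈ I, ∑ l : Fin k, ∑ j : Fin N, (if J (i, l) = j then (1 : ZMod 2) else 0) * z j := by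
    simp only [Finset.sum_mul]
    rw [Finset.sum_comm]
    refine Finset.sum_congr rfl fun i _ => ?_
    rw [Finset.sum_comm]
  rw [h2]
  exact Finset.sum_congr rfl fun i _ => Finset.sum_congr rfl fun l _ => h1 i l

/-- The factorised form of a term. -/
theorem term_eq (L : Fin κ → Fin κ → ZMod 2) (aX aY : α)
    (ρ : Fin N × Fin κ → α) (J : Fin (N + 1) × Fin k → Fin N) (b : Fin (N + 1) → ZMod 2)
    (I : Finset (Fin (N + 1))) (x y : Fin N → Fin κ → Bool) :
    (∏ i ∈ I, sgn 𝕜 (b i)) * term 𝕜 L aX aY ρ J I x y =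
      (∏ j, gmat 𝕜 L aX aY (fun a => ρ (j, a)) (x j) (y j)) *
      ∏ i ∈ I, sgn 𝕜 (b i + ∑ l, zval L (mix aX aY (fun a => ρ (J (i, l), a))
        (x (J (i, l))) (y (J (i, l))))) := by
  obtain ⟨z, hz⟩ : ∃ z : Fin N → ZMod 2, z = fun j =>
    zval L (mix aX aY (fun a => ρ (j, a)) (x j) (y j)) := ⟨_, rfl⟩
  have hg : ∀ j, gmat 𝕜 L aX aY (fun a => ρ (j, a)) (x j) (y j) = sgn 𝕜 (z j) := by
    intro j; rw [hz]; rfl
  have h1 : ∏ i ∈ I, sgn 𝕜 (b i + ∑ l, zval L (mix aX aY (fun a => ρ (J (i, l), a))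
        (x (J (i, l))) (y (J (i, l))))) =
      (∏ i ∈ I, sgn 𝕜 (b i)) * ∏ j, sgn 𝕜 (vec I J j * z j) := by
    have h2 : ∀ i ∈ I, sgn 𝕜 (b i + ∑ l, zval L (mix aX aY (fun a => ρ (J (i, l), a))
        (x (J (i, l))) (y (J (i, l))))) = sgn 𝕜 (b i) * sgn 𝕜 (∑ l, z (J (i, l))) := by
      intro i _
      rw [sgn_add, hz]
    rw [Finset.prod_congr rfl h2, Finset.prod_mul_distrib]
    congr 1
    rw [← sgn_sum, sum_row, sgn_sum]
  rw [h1]
  unfold term
  simp only [hg]
  rw [mul_left_comm, ← Finset.prod_mul_distrib]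
  congr 1
  refine Finset.prod_congr rfl fun j _ => ?_
  have h01 : ∀ c : ZMod 2, c = 0 ∨ c = 1 := by decide
  rcases h01 (vec I J j) with h | h
  · rw [if_pos h, h, zero_mul, sgn_zero, mul_one]
  · rw [if_neg (by rw [h]; decide), h, one_mul, sgn_mul_self]

open scoped Classical in
/-- The upper bound on the part of the big matrix inside one clause. -/
theorem big_clause_rank {e : Fin N × Fin κ → Fin n} (he : Function.Injective e)
    (L : Fin κ → Fin κ → ZMod 2) (aX aY : α) (hne : aX ≠ aY)
    (ρ : Fin N × Fin κ → α) (J : Fin (N + 1) × Fin k → Fin N) (b : Fin (N + 1) → ZMod 2)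
    (t : ℕ) (C : Clause n) (hC : C ∈ cnf e J L b) :
    RankLE (fun x y => if Falsifies (comb e aX aY ρ x y) C then
        big 𝕜 L aX aY ρ J b t x y else 0)
      (∑ I ∈ (univ : Finset (Finset (Fin (N + 1)))).filter (fun I => I.card = t),
        ∏ j, (if vec I J j = 0 then wc L aX aY ρ j else 1)) := by
  obtain ⟨i0, β, hβ, rfl⟩ := mem_cnf.1 hC
  -- the indicator of the clause has rank one
  have hind : RankLE (fun x y : Fin N → Fin κ → Bool =>
      if Falsifies (comb e aX aY ρ x y) (cl e J i0 β) then (1 : 𝕜) else 0) 1 := by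
    have h1 : RankLE (fun x y : Fin N → Fin κ → Bool =>
        ∏ q : Fin k × Fin κ, (if comb e aX aY ρ x y (e (J (i0, q.1), q.2)) = β q.1 q.2 then
          (1 : 𝕜) else 0)) (∏ q : Fin k × Fin κ, 1) := by
      refine rankLE_prod univ _ _ fun q _ => ?_
      by_cases hX : ρ (J (i0, q.1), q.2) = aX
      · refine (rankLE_left (β := Fin N → Fin κ → Bool)
          (fun x : Fin N → Fin κ → Bool =>
            if x (J (i0, q.1)) q.2 = β q.1 q.2 then (1 : 𝕜) else 0)).congr fun x y => ?_
        rw [comb_apply he]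
        unfold mix
        rw [if_pos hX]
      · by_cases hY : ρ (J (i0, q.1), q.2) = aY
        · refine (rankLE_right (α := Fin N → Fin κ → Bool)
            (fun y : Fin N → Fin κ → Bool =>
              if y (J (i0, q.1)) q.2 = β q.1 q.2 then (1 : 𝕜) else 0)).congr fun x y => ?_
          rw [comb_apply he]
          unfold mix
          rw [if_neg hX, if_pos hY]
        · refine (rankLE_const (α := Fin N → Fin κ → Bool) (β := Fin N → Fin κ → Bool)
            (if false = β q.1 q.2 then (1 : 𝕜) else 0)).congr fun x y => ?_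
          rw [comb_apply he]
          unfold mix
          rw [if_neg hX, if_neg hY]
    rw [Finset.prod_const_one] at h1
    refine h1.congr fun x y => ?_
    by_cases hf : Falsifies (comb e aX aY ρ x y) (cl e J i0 β)
    · rw [if_pos hf]
      symm
      rw [falsifies_cl] at hf
      exact Finset.prod_eq_one fun q _ => if_pos (hf q.1 q.2)
    · rw [if_neg hf]
      symm
      rw [falsifies_cl] at hf
      push Not at hf
      obtain ⟨l, c, hlc⟩ := hf
      exact Finset.prod_eq_zero (mem_univ (l, c)) (if_neg hlc)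
  have hsum := rankLE_sum ((univ : Finset (Finset (Fin (N + 1)))).filter (fun I => I.card = t))
    (fun I x y => (if i0 ∉ I then ∏ i ∈ I, sgn 𝕜 (b i) else 0) * term 𝕜 L aX aY ρ J I x y)
    (fun I => ∏ j, (if vec I J j = 0 then wc L aX aY ρ j else 1))
    (fun I _ => (term_rank L aX aY hne ρ J I).const_mul _)
  have hprod := hind.mul hsum
  rw [one_mul] at hprod
  refine hprod.congr fun x y => ?_
  by_cases hf : Falsifies (comb e aX aY ρ x y) (cl e J i0 β)
  · simp only [if_pos hf]
    rw [one_mul]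
    unfold big
    simp only [term_eq]
    rw [← Finset.mul_sum, cancel _ i0]
    · rw [Finset.mul_sum]
      have h5 : (univ : Finset (Finset (Fin (N + 1)))).filter (fun I => I.card = t ∧ i0 ∉ I) =
          ((univ : Finset (Finset (Fin (N + 1)))).filter (fun I => I.card = t)).filter
            (fun I => i0 ∉ I) := by
        rw [filter_filter]
      rw [h5, Finset.sum_filter]
      refine Finset.sum_congr rfl fun I _ => ?_
      by_cases h6 : i0 ∉ I
      · rw [if_pos h6, if_pos h6, ← term_eq]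
      · rw [if_neg h6, if_neg h6, zero_mul]
    · have h7 : ∀ l, mix aX aY (fun a => ρ (J (i0, l), a)) (x (J (i0, l))) (y (J (i0, l))) =
          β l := by
        intro l
        funext c
        rw [falsifies_cl] at hf
        rw [← hf l c, comb_apply he]
      simp only [h7]
      have h8 : b i0 + ∑ l, zval L (β l) ≠ 0 := by
        have : ∀ c d : ZMod 2, c ≠ d → d + c ≠ 0 := by decide
        exact this _ _ hβ
      unfold sgn
      rw [if_neg h8]
  · simp only [if_neg hf]
    rw [zero_mul]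

/-- The lower bound for the rank of the big matrix. -/
theorem big_rank_ge (h2 : (2 : 𝕜) ≠ 0)
    (L : Fin κ → Fin κ → ZMod 2) (aX aY : α) (hne : aX ≠ aY)
    (ρ : Fin N × Fin κ → α) (J : Fin (N + 1) × Fin k → Fin N) (b : Fin (N + 1) → ZMod 2)
    (t : ℕ) (hJ : ∀ I : Finset (Fin (N + 1)), I.Nonempty → I.card ≤ t → vec I J ≠ 0)
    (r : ℕ) (hr : RankLE (big 𝕜 L aX aY ρ J b t) r) :
    ∏ j, (wc L aX aY ρ j - 1) ≤ r := by
  classical
  have hg := fun j => gadget_test (𝕜 := 𝕜) h2 L aX aY hne (fun a => ρ (j, a))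
  choose Γ D ee s hΓ hs hD0 hD using hg
  have h1 : Fintype.card (∀ j, {w // w ∈ Γ j}) ≤ r := by
    refine card_le_of_rankLE hr (γ := ∀ j, {w // w ∈ Γ j})
      (fun c x => ∏ j, D j (c j).1 (x j)) (fun c j => ee j (c j).1)
      (fun c => ∏ j, s j (c j).1) (fun c => Finset.prod_ne_zero_iff.2 fun j _ => hs j _) ?_
    intro c c'
    unfold big
    simp only [Finset.mul_sum]
    rw [Finset.sum_comm]
    have h3 : ∀ I : Finset (Fin (N + 1)),
        ∑ x : Fin N → Fin κ → Bool, (∏ j, D j (c j).1 (x j)) *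
          ((∏ i ∈ I, sgn 𝕜 (b i)) * term 𝕜 L aX aY ρ J I x (fun j => ee j (c' j).1)) =
        (∏ i ∈ I, sgn 𝕜 (b i)) * ∏ j, ∑ u : Fin κ → Bool, (D j (c j).1 u *
          (if vec I J j = 0 then gmat 𝕜 L aX aY (fun a => ρ (j, a)) u (ee j (c' j).1) else 1)) := by
      intro I
      have h4 := Finset.prod_univ_sum (fun _ : Fin N => (univ : Finset (Fin κ → Bool)))
        (fun j u => D j (c j).1 u *
          (if vec I J j = 0 then gmat 𝕜 L aX aY (fun a => ρ (j, a)) u (ee j (c' j).1) else 1))
      rw [Fintype.piFinset_univ] at h4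
      rw [h4, Finset.mul_sum]
      refine Finset.sum_congr rfl fun x _ => ?_
      unfold term
      rw [Finset.prod_mul_distrib]
      ring
    simp only [h3]
    rw [Finset.sum_eq_single ∅]
    · have hv : ∀ j, vec (∅ : Finset (Fin (N + 1))) J j = 0 := by
        intro j; simp [vec]
      simp only [hv, if_true, Finset.prod_empty, one_mul]
      have h5 : ∀ j, ∑ u : Fin κ → Bool, D j (c j).1 u *
          gmat 𝕜 L aX aY (fun a => ρ (j, a)) u (ee j (c' j).1) =
          if (c j).1 = (c' j).1 then s j (c' j).1 else 0 := by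
        intro j
        exact hD j _ (c j).2 _ (c' j).2
      simp only [h5]
      by_cases hcc : c = c'
      · subst hcc; simp
      · rw [if_neg hcc]
        have : ∃ j, c j ≠ c' j := by
          by_contra hcon
          push Not at hcon
          exact hcc (funext hcon)
        obtain ⟨j, hj⟩ := this
        apply Finset.prod_eq_zero (mem_univ j)
        rw [if_neg]
        intro h6
        exact hj (Subtype.ext h6)
    · intro I hI hI0
      rw [mem_filter] at hI
      have hne' := hJ I (nonempty_iff_ne_empty.2 hI0) hI.2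
      have : ∃ j, vec I J j ≠ 0 := by
        by_contra hcon
        push Not at hcon
        exact hne' (funext hcon)
      obtain ⟨j, hj⟩ := this
      have h7 : ∏ j, ∑ u : Fin κ → Bool, (D j (c j).1 u *
          (if vec I J j = 0 then gmat 𝕜 L aX aY (fun a => ρ (j, a)) u (ee j (c' j).1) else 1)) =
          0 := by
        apply Finset.prod_eq_zero (mem_univ j)
        simp only [if_neg hj, mul_one]
        exact hD0 j _ (c j).2
      rw [h7, mul_zero]
    · intro h
      exact absurd (mem_filter.2 ⟨mem_univ _, by simp⟩) h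
  refine le_trans ?_ h1
  rw [Fintype.card_pi]
  refine Finset.prod_le_prod' fun j _ => ?_
  rw [Fintype.card_coe]
  have := hΓ j
  unfold wc
  omega

/-- The main inequality. -/
theorem main_ineq (h2 : (2 : 𝕜) ≠ 0) {e : Fin N × Fin κ → Fin n} (he : Function.Injective e)
    (L : Fin κ → Fin κ → ZMod 2) (aX aY : α) (hne : aX ≠ aY)
    (ρ : Fin N × Fin κ → α) (J : Fin (N + 1) × Fin k → Fin N) (b : Fin (N + 1) → ZMod 2)
    (t : ℕ) (hJ : ∀ I : Finset (Fin (N + 1)), I.Nonempty → I.card ≤ t → vec I J ≠ 0)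
    (g : Clause n → List (Product n 𝕜)) (hg : IsRefutation (cnf e J L b) g) :
    ∏ j, (wc L aX aY ρ j - 1) ≤
      (∑ I ∈ (univ : Finset (Finset (Fin (N + 1)))).filter (fun I => I.card = t),
        ∏ j, (if vec I J j = 0 then wc L aX aY ρ j else 1)) *
      ∑ C ∈ cnf e J L b, ((g C).map (rk e aX aY ρ)).sum := by
  classical
  apply big_rank_ge h2 L aX aY hne ρ J b t hJ
  rw [Finset.mul_sum]
  have h1 := rankLE_sum (cnf e J L b)
    (fun C x y => (if Falsifies (comb e aX aY ρ x y) C then big 𝕜 L aX aY ρ J b t x y else 0) *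
      ((g C).map (fun P => P.eval (comb e aX aY ρ x y))).sum)
    (fun C => (∑ I ∈ (univ : Finset (Finset (Fin (N + 1)))).filter (fun I => I.card = t),
        ∏ j, (if vec I J j = 0 then wc L aX aY ρ j else 1)) *
        ((g C).map (rk e aX aY ρ)).sum)
    (fun C hC => (big_clause_rank he L aX aY hne ρ J b t C hC).mul
      (rankLE_list_sum (g C) (fun P x y => P.eval (comb e aX aY ρ x y)) _
        (fun P _ => product_rank he aX aY hne ρ P)))
  refine h1.congr fun x y => ?_
  have h3 := hg (comb e aX aY ρ x y)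
  have h4 : big 𝕜 L aX aY ρ J b t x y = big 𝕜 L aX aY ρ J b t x y *
      ∑ C ∈ cnf e J L b, (if Falsifies (comb e aX aY ρ x y) C then
        ((g C).map (fun P => P.eval (comb e aX aY ρ x y))).sum else 0) := by
    rw [h3, mul_one]
  refine h4.trans ?_
  rw [Finset.mul_sum]
  refine Finset.sum_congr rfl fun C _ => ?_
  split_ifs <;> ring

end setup

end Pool.Agent.MP_9cec2c_lc.DepthThree
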