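import Mathlib
import Pool.Agent.Lib.MP_9cec2c_lc.D3Main
import Pool.Agent.Lib.MP_9cec2c_lc.D3Code
import Pool.Agent.Lib.MP_9cec2c_lc.D3GadgetEx

/-!
Assembly of the lower bound.
-/

set_option autoImplicit false

namespace Pool.Agent.MP_9cec2c_lc.DepthThree

open Finset
open Pool.Agent.MP_9cec2c_lc.SubstRed

section good

variable {N κ k n : ℕ} {α : Type*} [DecidableEq α]

/-- Lower bound for the total rank at a good pattern. -/
theorem good_bound {𝕜 : Type*} [Field 𝕜] (h2 : (2 : 𝕜) ≠ 0) {e : Fin N × Fin κ → Fin n}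
    (he : Function.Injective e)
    (L : Fin κ → Fin κ → ZMod 2) (aX aY : α) (hne : aX ≠ aY)
    (ρ : Fin N × Fin κ → α) (J : Fin (N + 1) × Fin k → Fin N) (b : Fin (N + 1) → ZMod 2)
    (t : ℕ) (hJ : ∀ I : Finset (Fin (N + 1)), I.Nonempty → I.card ≤ t → vec I J ≠ 0)
    (W : ℕ) (hW : ∀ I : Finset (Fin (N + 1)), I.card = t →
      W ≤ (univ.filter (fun j => vec I J j ≠ 0)).card)
    (R : ℕ) (hR : 1 ≤ R) (hgood : ∀ j, 2 * R ≤ wc L aX aY ρ j)
    (g : Clause n → List (Product n 𝕜)) (hg : IsRefutation (cnf e J L b) g) :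
    (2 * R) ^ W ≤ 2 ^ (2 * N + 1) *
      ∑ C ∈ cnf e J L b, ((g C).map (rk e aX aY ρ)).sum := by
  classical
  have hmain := main_ineq h2 he L aX aY hne ρ J b t hJ g hg
  obtain ⟨T, hT⟩ : ∃ T, T = ∑ C ∈ cnf e J L b, ((g C).map (rk e aX aY ρ)).sum := ⟨_, rfl⟩
  rw [← hT] at hmain ⊢
  have hwc : ∀ j, 2 ≤ wc L aX aY ρ j := fun j => by have := hgood j; omega
  have h1 : ∏ j, wc L aX aY ρ j ≤ (∏ j, (wc L aX aY ρ j - 1)) * 2 ^ N := by
    have h3 : ∏ j : Fin N, wc L aX aY ρ j ≤ ∏ j : Fin N, ((wc L aX aY ρ j - 1) * 2) :=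
      Finset.prod_le_prod' fun j _ => by have := hwc j; omega
    refine h3.trans (le_of_eq ?_)
    rw [Finset.prod_mul_distrib]
    simp
  have h4 : (∑ I ∈ (univ : Finset (Finset (Fin (N + 1)))).filter (fun I => I.card = t),
        ∏ j, (if vec I J j = 0 then wc L aX aY ρ j else 1)) * (2 * R) ^ W ≤
        2 ^ (N + 1) * ∏ j, wc L aX aY ρ j := by
    rw [Finset.sum_mul]
    have h5 : ∀ I ∈ (univ : Finset (Finset (Fin (N + 1)))).filter (fun I => I.card = t),
        (∏ j, (if vec I J j = 0 then wc L aX aY ρ j else 1)) * (2 * R) ^ W ≤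
        ∏ j, wc L aX aY ρ j := by
      intro I hI
      rw [mem_filter] at hI
      have h6 := hW I hI.2
      have h7 : (2 * R) ^ W ≤ ∏ j, (if vec I J j = 0 then 1 else wc L aX aY ρ j) := by
        have h8 : (2 * R) ^ W ≤ (2 * R) ^ (univ.filter (fun j => vec I J j ≠ 0)).card :=
          Nat.pow_le_pow_right (by omega) h6
        refine h8.trans ?_
        rw [← Finset.prod_const, Finset.prod_filter]
        refine Finset.prod_le_prod' fun j _ => ?_
        by_cases h9 : vec I J j = 0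
        · simp [h9]
        · simp only [h9, ne_eq, not_false_eq_true, if_true, if_false]
          exact hgood j
      calc (∏ j, (if vec I J j = 0 then wc L aX aY ρ j else 1)) * (2 * R) ^ W
          ≤ (∏ j, (if vec I J j = 0 then wc L aX aY ρ j else 1)) *
            ∏ j, (if vec I J j = 0 then 1 else wc L aX aY ρ j) := Nat.mul_le_mul_left _ h7
        _ = ∏ j, wc L aX aY ρ j := by
            rw [← Finset.prod_mul_distrib]
            refine Finset.prod_congr rfl fun j _ => ?_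
            split_ifs <;> simp
    refine (Finset.sum_le_sum h5).trans ?_
    rw [Finset.sum_const, smul_eq_mul]
    apply Nat.mul_le_mul_right
    refine (card_filter_le _ _).trans ?_
    rw [card_univ, Fintype.card_finset, Fintype.card_fin]
  have hpos : 0 < ∏ j, wc L aX aY ρ j := Finset.prod_pos fun j _ => by have := hwc j; omega
  have h10 : (∏ j, wc L aX aY ρ j) * (2 * R) ^ W ≤
      (∏ j, wc L aX aY ρ j) * (2 ^ (2 * N + 1) * T) := by
    calc (∏ j, wc L aX aY ρ j) * (2 * R) ^ W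
        ≤ ((∏ j, (wc L aX aY ρ j - 1)) * 2 ^ N) * (2 * R) ^ W := Nat.mul_le_mul_right _ h1
      _ ≤ (((∑ I ∈ (univ : Finset (Finset (Fin (N + 1)))).filter (fun I => I.card = t),
        ∏ j, (if vec I J j = 0 then wc L aX aY ρ j else 1)) * T) * 2 ^ N) * (2 * R) ^ W :=
          Nat.mul_le_mul_right _ (Nat.mul_le_mul_right _ hmain)
      _ = ((∑ I ∈ (univ : Finset (Finset (Fin (N + 1)))).filter (fun I => I.card = t),
        ∏ j, (if vec I J j = 0 then wc L aX aY ρ j else 1)) * (2 * R) ^ W) * (2 ^ N * T) := by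
          ring
      _ ≤ (2 ^ (N + 1) * ∏ j, wc L aX aY ρ j) * (2 ^ N * T) := Nat.mul_le_mul_right _ h4
      _ = (∏ j, wc L aX aY ρ j) * (2 ^ (2 * N + 1) * T) := by
          rw [show 2 * N + 1 = (N + 1) + N by ring, pow_add 2 (N + 1) N]; ring
  exact Nat.le_of_mul_le_mul_left h10 hpos

variable [Fintype α] [Nonempty α]

/-- The expected rank of a nearly multilinear product. -/
theorem avg_rk {𝕜 : Type*} [Field 𝕜] (e : Fin N × Fin κ → Fin n) (aX aY : α) (hne : aX ≠ aY)
    (P : Product n 𝕜) (d : ℝ) (hP : P.NearlyMultilinear d) :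
    avg (fun ρ : Fin N × Fin κ → α => (rk e aX aY ρ P : ℝ)) ≤
      2 ^ d * ((1 - 1 / (Fintype.card α : ℝ)) ^ (N * κ)) ^ (-(17 / 50 : ℝ)) := by
  classical
  obtain ⟨E, hE, hdis⟩ := hP
  have hq2 : 2 ≤ Fintype.card α := by
    have : ({aX, aY} : Finset α).card ≤ Fintype.card α := card_le_univ _
    rwa [card_pair hne] at this
  have hq : (2 : ℝ) ≤ Fintype.card α := by exact_mod_cast hq2
  obtain ⟨w, hw⟩ : ∃ w : ℝ, w = (1 - 1 / (Fintype.card α : ℝ)) ^ (N * κ) := ⟨_, rfl⟩
  have hw0 : 0 < w := by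
    rw [hw]
    apply pow_pos
    rw [sub_pos, div_lt_one (by linarith)]; linarith
  have hsp := avg_prod_split (P := Fin N × Fin κ) aX aY hne (univ \ E)
    (fun j => vars e (P.factor j)) (by
      intro i hi j hj hij
      rw [mem_sdiff] at hi hj
      rw [Finset.disjoint_left]
      intro p hp hp'
      simp only [vars, mem_filter, mem_univ, true_and] at hp hp'
      rcases hdis i hi.2 j hj.2 hij (e p) with h | h
      · exact hp h
      · exact hp' h)
  rw [Fintype.card_prod, Fintype.card_fin, Fintype.card_fin, ← hw] at hsp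
  obtain ⟨A, hA⟩ : ∃ A : ℝ, A = avg (fun ρ : Fin N × Fin κ → α =>
    ∏ j ∈ univ \ E, (if Split aX aY ρ (vars e (P.factor j)) then (2 : ℝ) else 1)) := ⟨_, rfl⟩
  rw [← hA] at hsp
  have hA0 : 0 ≤ A := by
    rw [hA]
    exact avg_nonneg fun ρ => Finset.prod_nonneg fun j _ => by split_ifs <;> norm_num
  -- extract the root
  have hroot : A ≤ w ^ (-(17 / 50 : ℝ)) := by
    have h1 : A ^ 50 ≤ (w ^ (-(17 / 50 : ℝ))) ^ 50 := by
      rw [← Real.rpow_natCast (w ^ (-(17 / 50 : ℝ))) 50, ← Real.rpow_mul hw0.le]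
      have h2 : (-(17 / 50 : ℝ)) * ((50 : ℕ) : ℝ) = -((17 : ℕ) : ℝ) := by norm_num
      rw [h2, Real.rpow_neg hw0.le, Real.rpow_natCast, ← one_div, le_div_iff₀ (by positivity)]
      exact hsp
    exact le_of_pow_le_pow_left₀ (by norm_num) (by positivity) h1
  have h3 : ∀ ρ : Fin N × Fin κ → α, (rk e aX aY ρ P : ℝ) ≤ 2 ^ d *
      ∏ j ∈ univ \ E, (if Split aX aY ρ (vars e (P.factor j)) then (2 : ℝ) else 1) := by
    intro ρ
    unfold rk
    push_cast
    rw [← Finset.prod_sdiff (subset_univ E), mul_comm]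
    have h4 : ∏ j ∈ E, (if Split aX aY ρ (vars e (P.factor j)) then (2 : ℝ) else 1) ≤ 2 ^ d := by
      calc ∏ j ∈ E, (if Split aX aY ρ (vars e (P.factor j)) then (2 : ℝ) else 1)
          ≤ ∏ j ∈ E, (2 : ℝ) := Finset.prod_le_prod (fun j _ => by split_ifs <;> norm_num)
            (fun j _ => by split_ifs <;> norm_num)
        _ = (2 : ℝ) ^ (E.card : ℝ) := by rw [Finset.prod_const, Real.rpow_natCast]
        _ ≤ 2 ^ d := Real.rpow_le_rpow_of_exponent_le (by norm_num) hE
    have h5 : 0 ≤ ∏ j ∈ univ \ E, (if Split aX aY ρ (vars e (P.factor j)) then (2 : ℝ) else 1) :=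
      Finset.prod_nonneg fun j _ => by split_ifs <;> norm_num
    have h6 : ∀ (p : Prop) [Decidable p], (if p then ((2 : ℕ) : ℝ) else 1) = if p then 2 else 1 := by
      intro p _; split_ifs <;> norm_num
    exact mul_le_mul_of_nonneg_right h4 h5
  refine (avg_mono h3).trans ?_
  rw [avg_const_mul, ← hA, ← hw]
  exact mul_le_mul_of_nonneg_left hroot (by positivity)

omit [DecidableEq α] in
/-- The probability that all gadgets are good. -/
theorem pr_all_good (G : (Fin κ → α) → Prop) (hG : 1 / 2 ≤ pr G) :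
    (1 / 2 : ℝ) ^ N ≤ pr (fun ρ : Fin N × Fin κ → α => ∀ j, G (fun a => ρ (j, a))) := by
  classical
  have h1 : ∀ ρ : Fin N × Fin κ → α, (if ∀ j, G (fun a => ρ (j, a)) then (1 : ℝ) else 0) =
      ∏ j ∈ (univ : Finset (Fin N)), (if G (fun a => ρ (j, a)) then (1 : ℝ) else 0) := by
    intro ρ
    split_ifs with h
    · symm
      exact Finset.prod_eq_one fun j _ => if_pos (h j)
    · push Not at h
      obtain ⟨j, hj⟩ := h
      symm
      exact Finset.prod_eq_zero (mem_univ j) (if_neg hj)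
  rw [← avg_indicator]
  simp only [h1]
  rw [avg_prod_indep univ (fun (j : Fin N) (ρ : Fin N × Fin κ → α) =>
    if G (fun a => ρ (j, a)) then (1 : ℝ) else 0) (fun j => univ.filter (fun p => p.1 = j))]
  · have h2 : ∀ j : Fin N, avg (fun ρ : Fin N × Fin κ → α =>
        if G (fun a => ρ (j, a)) then (1 : ℝ) else 0) = pr G := by
      intro j
      rw [← avg_indicator]
      -- average over a product is the average over one block
      obtain ⟨f, hf⟩ : ∃ f : (Fin κ → α) → ℝ, f = fun u => if G u then (1 : ℝ) else 0 := ⟨_, rfl⟩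
      have h3 : (fun ρ : Fin N × Fin κ → α => if G (fun a => ρ (j, a)) then (1 : ℝ) else 0) =
          fun ρ => f (fun a => ρ (j, a)) := by rw [hf]
      rw [h3, ← hf]
      have h4 : avg (fun ρ : Fin N × Fin κ → α => f (fun a => ρ (j, a))) =
          avg (fun σ : Fin N → (Fin κ → α) => f (σ j)) := by
        unfold avg
        rw [Fintype.card_congr (Equiv.curry (Fin N) (Fin κ) α)]
        congr 1
        exact Fintype.sum_equiv (Equiv.curry (Fin N) (Fin κ) α) _ _ fun ρ => rfl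
      rw [h4]
      exact avg_coord (ι := Fin N) (α := Fin κ → α) j f
    simp only [h2]
    rw [Finset.prod_const, card_univ, Fintype.card_fin]
    exact pow_le_pow_left₀ (by norm_num) hG N
  · intro j _ x y hxy
    have : (fun a => x (j, a)) = (fun a => y (j, a)) := by
      funext a
      exact hxy (j, a) (by simp)
    simp only [this]
  · intro i _ j _ hij
    rw [Finset.disjoint_left]
    intro p hp hp'
    rw [mem_filter] at hp hp'
    exact hij (hp.2.symm.trans hp'.2)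

end good

section final

universe u

theorem lin_step (N y d : ℝ) (hN : 1073741824 ≤ N) (hy : 99939996 * ((499 / 1000 : ℝ) * N - 1) ≤ y)
    (hd : d ≤ 50100 * (N + 1)) : 49769000 * N ≤ y - 3 * N - 1 - 2 * d := by linarith

theorem lin_contra (l2 N x : ℝ) (h : l2 * x < 34068000 * N) (hx : 49769000 * N ≤ x)
    (hl : 0.693 < l2) (hN : 0 < N) : False := by
  have h1 : 0 < x := by nlinarith
  have h2 : 0.693 * x ≤ l2 * x := mul_le_mul_of_nonneg_right hl.le h1.le
  nlinarith

/-- The lower bound for one number of variables. -/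
theorem final_bound (β0 κ N n : ℕ) (hβ : β0 = 10 ^ 4) (hκ : κ = Fintype.card (Fin 501) * β0 ^ 2)
    (hN : 2 ^ 30 ≤ N) (hn1 : N * κ ≤ n) (hn2 : n ≤ (N + 1) * κ) :
    ∃ F : Finset (Clause n), (∀ a, ∃ C ∈ F, Falsifies a C) ∧
      F.card ≤ (N + 1) * 2 ^ (κ * (2 * 2 ^ 34)) ∧ (∀ C ∈ F, C.card ≤ κ * (2 * 2 ^ 34)) ∧
      ∀ (𝕜 : Type u) [Field 𝕜], (2 : 𝕜) ≠ 0 → ∀ g : Clause n → List (Product n 𝕜),
        (∀ C ∈ F, ∀ P ∈ g C, P.NearlyMultilinear ((n : ℝ) / 10 ^ 6)) → IsRefutation F g →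
        (2 : ℝ) ^ ((n : ℝ) / 10 ^ 6) ≤ ∑ C ∈ F, ((g C).length : ℝ) := by
  classical
  obtain ⟨J, hJ1, hJ2⟩ := code_exists N hN
  obtain ⟨b, hb⟩ := exists_rhs J
  have hne : (0 : Fin 501) ≠ 1 := by decide
  obtain ⟨L, hL⟩ := gadget_exists (κ := κ) (α := Fin 501) 0 1 hne β0 (by omega) hκ
  obtain ⟨e, he⟩ : ∃ e : Fin N × Fin κ → Fin n, Function.Injective e :=
    ⟨fun p => Fin.castLE hn1 (finProdFinEquiv p), fun p p' h => by
      have h1 := Fin.castLE_injective hn1 h
      exact finProdFinEquiv.injective h1⟩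
  refine ⟨cnf e J L b, unsat_cnf e J L b hb, card_cnf e J L b, width_cnf e J L b, ?_⟩
  intro 𝕜 _ h2 g hg1 hg2
  have hNr : (2 : ℝ) ^ 30 ≤ N := by exact_mod_cast hN
  have hNr0 : (0 : ℝ) < N := by linarith [show (0 : ℝ) < 2 ^ 30 by positivity]
  have hκr : (κ : ℝ) = 501 * 10 ^ 8 := by
    rw [hκ, hβ, Fintype.card_fin]; norm_num
  obtain ⟨d, hd⟩ : ∃ d : ℝ, d = (n : ℝ) / 10 ^ 6 := ⟨_, rfl⟩
  rw [← hd] at hg1 ⊢
  have hd1 : d ≤ 50100 * (N + 1) := by
    have h3 : (n : ℝ) ≤ (N + 1) * κ := by exact_mod_cast hn2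
    rw [hκr] at h3
    rw [hd, div_le_iff₀ (by positivity)]
    linarith
  obtain ⟨W, hW⟩ : ∃ W : ℕ, W = 499 * N / 1000 := ⟨_, rfl⟩
  have hWr : (499 / 1000 : ℝ) * N - 1 ≤ W := by
    have h3 : 499 * N ≤ 1000 * W + 999 := by omega
    have h4 : (499 * N : ℝ) ≤ 1000 * W + 999 := by exact_mod_cast h3
    linarith
  have hW' : ∀ I : Finset (Fin (N + 1)), I.card = N / 2 ^ 30 →
      W ≤ (univ.filter (fun j => vec I J j ≠ 0)).card := by
    intro I hI
    have := hJ2 I hI
    omega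
  obtain ⟨B, hB⟩ : ∃ B : ℕ, B = β0 ^ 2 - 6 * β0 := ⟨_, rfl⟩
  rw [← hB] at hL
  have hBr : (B : ℝ) = 99940000 := by
    have : B = 99940000 := by rw [hB, hβ]; norm_num
    rw [this]; norm_num
  have hB5 : 5 ≤ B := by
    have : (5 : ℝ) ≤ B := by rw [hBr]; norm_num
    exact_mod_cast this
  -- total rank
  obtain ⟨T, hT⟩ : ∃ T : (Fin N × Fin κ → Fin 501) → ℝ, T = fun ρ =>
      ∑ C ∈ cnf e J L b, ((g C).map (fun P => (rk e (0 : Fin 501) 1 ρ P : ℝ))).sum := ⟨_, rfl⟩
  obtain ⟨S, hS⟩ : ∃ S : ℝ, S = ∑ C ∈ cnf e J L b, ((g C).length : ℝ) := ⟨_, rfl⟩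
  obtain ⟨w, hw⟩ : ∃ w : ℝ, w = (1 - 1 / (Fintype.card (Fin 501) : ℝ)) ^ (N * κ) := ⟨_, rfl⟩
  have hS0 : 0 ≤ S := by rw [hS]; exact Finset.sum_nonneg fun C _ => Nat.cast_nonneg _
  -- upper bound for the average
  have hup : avg T ≤ S * (2 ^ d * w ^ (-(17 / 50 : ℝ))) := by
    rw [hT, avg_sum, hS, Finset.sum_mul]
    refine Finset.sum_le_sum fun C hC => ?_
    rw [avg_list_sum]
    have h5 : ∀ P ∈ g C, avg (fun ρ : Fin N × Fin κ → Fin 501 =>
        (rk e (0 : Fin 501) 1 ρ P : ℝ)) ≤ 2 ^ d * w ^ (-(17 / 50 : ℝ)) := fun P hP => by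
      rw [hw]; exact avg_rk e 0 1 hne P d (hg1 C hC P hP)
    have h6 := List.sum_le_card_nsmul ((g C).map (fun P => avg
      (fun ρ : Fin N × Fin κ → Fin 501 => (rk e (0 : Fin 501) 1 ρ P : ℝ))))
      (2 ^ d * w ^ (-(17 / 50 : ℝ))) (by
        intro x hx
        obtain ⟨P, hP, rfl⟩ := List.mem_map.1 hx
        exact h5 P hP)
    rw [List.length_map, nsmul_eq_mul] at h6
    exact h6
  -- lower bound for the average
  obtain ⟨y, hy⟩ : ∃ y : ℝ, y = ((B - 4 : ℕ) : ℝ) * W := ⟨_, rfl⟩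
  have hlow : (2 : ℝ) ^ y * (1 / 2) ^ N / 2 ^ (2 * N + 1) ≤ avg T := by
    have hall := pr_all_good (N := N) (κ := κ) (α := Fin 501)
      (fun u => 2 ^ B ≤ 16 * (wset L (0 : Fin 501) 1 u).card) hL
    have h7 : ∀ ρ : Fin N × Fin κ → Fin 501,
        ((2 : ℝ) ^ y / 2 ^ (2 * N + 1)) *
          (if ∀ j, 2 ^ B ≤ 16 * (wset L (0 : Fin 501) 1 (fun a => ρ (j, a))).card then (1 : ℝ)
            else 0) ≤ T ρ := by
      intro ρ
      have hT0 : T ρ = ((∑ C ∈ cnf e J L b, ((g C).map (rk e (0 : Fin 501) 1 ρ)).sum : ℕ) : ℝ) := by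
        rw [hT]
        push_cast
        refine Finset.sum_congr rfl fun C _ => ?_
        rw [List.map_map]
        rfl
      split_ifs with hgood
      · have h8 := good_bound h2 he L (0 : Fin 501) 1 hne ρ J b (N / 2 ^ 30) hJ1 W hW'
          (2 ^ (B - 5)) Nat.one_le_two_pow (fun j => by
            have h9 := hgood j
            have h10 : 2 ^ B = 16 * (2 * 2 ^ (B - 5)) := by
              have : B = (B - 5) + 1 + 4 := by omega
              conv_lhs => rw [this]
              rw [pow_add, pow_add]; ring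
            rw [h10] at h9
            unfold wc
            exact Nat.le_of_mul_le_mul_left h9 (by norm_num)) g hg2
        have h11 : (2 * 2 ^ (B - 5)) ^ W = 2 ^ ((B - 4) * W) := by
          have : 2 * 2 ^ (B - 5) = 2 ^ (B - 4) := by
            rw [show B - 4 = (B - 5) + 1 by omega, pow_succ]; ring
          rw [this, ← pow_mul]
        rw [h11] at h8
        have h12 := (Nat.cast_le (α := ℝ)).2 h8
        rw [Nat.cast_mul, ← hT0, Nat.cast_pow, Nat.cast_pow, Nat.cast_ofNat] at h12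
        rw [mul_one, div_le_iff₀ (by positivity)]
        have h13 : (2 : ℝ) ^ y = 2 ^ ((B - 4) * W) := by
          rw [hy, ← Real.rpow_natCast]
          congr 1
          push_cast
          rfl
        rw [h13]
        linarith
      · rw [mul_zero, hT0]
        exact Nat.cast_nonneg _
    have h14 := avg_mono h7
    rw [avg_const_mul, avg_indicator] at h14
    refine le_trans ?_ h14
    rw [mul_div_right_comm]
    exact mul_le_mul_of_nonneg_left hall (by positivity)
  -- compare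
  by_contra hcon
  rw [← hS] at hcon
  push Not at hcon
  have hlog2a := Real.log_two_gt_d9
  have hlog2b := Real.log_two_lt_d9
  have hwlow : w ^ (-(17 / 50 : ℝ)) ≤ Real.exp (34068000 * N) := by
    have h15 : Real.exp (-(100200000 * N)) ≤ w := by
      rw [hw, Fintype.card_fin]
      have h16 : Real.exp (-(1 / 500)) ≤ 1 - 1 / ((501 : ℕ) : ℝ) := by
        rw [← Real.le_log_iff_exp_le (by norm_num)]
        refine le_trans ?_ (Real.one_sub_inv_le_log_of_pos (by norm_num))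
        norm_num
      refine le_trans ?_ (pow_le_pow_left₀ (Real.exp_pos _).le h16 (N * κ))
      rw [← Real.exp_nat_mul]
      apply Real.exp_le_exp.2
      rw [Nat.cast_mul, hκr]
      apply le_of_eq
      ring
    calc w ^ (-(17 / 50 : ℝ)) ≤ (Real.exp (-(100200000 * N))) ^ (-(17 / 50 : ℝ)) :=
          Real.rpow_le_rpow_of_nonpos (Real.exp_pos _) h15 (by norm_num)
      _ = Real.exp (34068000 * N) := by
          rw [← Real.exp_mul]; congr 1; ring
  have hcomb : (2 : ℝ) ^ y * (1 / 2) ^ N / 2 ^ (2 * N + 1) ≤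
      S * (2 ^ d * Real.exp (34068000 * N)) := by
    refine hlow.trans (hup.trans ?_)
    gcongr
  have hcomb2 : (2 : ℝ) ^ y * (1 / 2) ^ N / 2 ^ (2 * N + 1) <
      2 ^ d * (2 ^ d * Real.exp (34068000 * N)) := by
    refine lt_of_le_of_lt hcomb ?_
    have : (0 : ℝ) < 2 ^ d * Real.exp (34068000 * N) := by positivity
    exact mul_lt_mul_of_pos_right hcon this
  have he1 : ∀ x : ℝ, (2 : ℝ) ^ x = Real.exp (Real.log 2 * x) := fun x => by
    rw [Real.rpow_def_of_pos (by norm_num)]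
  have he2 : (1 / 2 : ℝ) ^ N = Real.exp (-(Real.log 2 * N)) := by
    rw [Real.exp_neg, mul_comm, Real.exp_nat_mul, Real.exp_log (by norm_num), one_div, inv_pow]
  have he3 : ((2 : ℝ) ^ (2 * N + 1))⁻¹ = Real.exp (-(Real.log 2 * (2 * N + 1))) := by
    have h17 : Real.log 2 * (2 * (N : ℝ) + 1) = ((2 * N + 1 : ℕ) : ℝ) * Real.log 2 := by
      push_cast; ring
    rw [h17, Real.exp_neg, Real.exp_nat_mul, Real.exp_log (by norm_num)]
  rw [div_eq_mul_inv, he3, he2, he1, he1, ← Real.exp_add, ← Real.exp_add, ← Real.exp_add,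
    ← Real.exp_add] at hcomb2
  rw [Real.exp_lt_exp] at hcomb2
  have hB4 : ((B - 4 : ℕ) : ℝ) = 99939996 := by
    have h20 : ((B - 4 : ℕ) : ℝ) + ((4 : ℕ) : ℝ) = (B : ℝ) := by
      rw [← Nat.cast_add]
      congr 1
      omega
    rw [hBr] at h20
    have h21 : ((4 : ℕ) : ℝ) = 4 := by norm_num
    rw [h21] at h20
    linarith
  have hy1 : 99939996 * ((499 / 1000 : ℝ) * N - 1) ≤ y := by
    rw [hy, hB4]
    exact mul_le_mul_of_nonneg_left hWr (by norm_num)
  have hkey : Real.log 2 * (y - 3 * N - 1 - 2 * d) < 34068000 * N := by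
    have h22 : Real.log 2 * (y - 3 * N - 1 - 2 * d) =
        (Real.log 2 * y + -(Real.log 2 * N) + -(Real.log 2 * (2 * N + 1))) -
          (Real.log 2 * d + Real.log 2 * d) := by ring
    rw [h22]
    clear hL hJ1 hJ2 hW' hlow hup
    linarith [hcomb2]
  have h18 : (2 : ℝ) ^ 30 = 1073741824 := by norm_num
  rw [h18] at hNr
  exact lin_contra _ _ _ hkey (lin_step N y d hNr hy1 hd1)
    (lt_trans (by norm_num) hlog2a) hNr0

end final

end Pool.Agent.MP_9cec2c_lc.DepthThree
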