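import Mathlib
import Pool.Agent.Lib.MP_9cec2c_lc.D3Defs

/-!
Definitions: certificates of the ideal proof system that are sums of terms, each term being a
product of clauses (used as axioms of the formula) and of simple factors; new variables defined
by Boolean gates are allowed.
-/

set_option autoImplicit false

namespace Pool.Agent.MP_9cec2c_lc.DepthThree

/-- A gate, which defines a new variable: an operation `op` applied to two older variables,
`Sum.inl i` being the variable `x_i` and `Sum.inr j` the new variable `z_j`. -/
structure Gate (n E : ℕ) where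
  /-- the first input -/
  fst : Fin n ⊕ Fin E
  /-- the second input -/
  snd : Fin n ⊕ Fin E
  /-- the operation -/
  op : Bool → Bool → Bool

/-- The inputs of the gate of `z_j` are variables `x_i`, or variables `z_i` with `i < j`. -/
def Ordered {n E : ℕ} (D : Fin E → Gate n E) : Prop :=
  ∀ j i : Fin E, (D j).fst = Sum.inr i ∨ (D j).snd = Sum.inr i → i < j

/-- The values `z` of the new variables are the values of their gates at `x`. -/
def Computes {n E : ℕ} (D : Fin E → Gate n E) (x : Fin n → Bool) (z : Fin E → Bool) : Prop :=
  ∀ j, z j = (D j).op (Sum.elim x z (D j).fst) (Sum.elim x z (D j).snd)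

/-- A factor of a term: a function `fn x z` of the variables `x` and of the new variables `z`,
and a set `vars` of variables `x_i`. -/
structure Factor (n E : ℕ) (𝕜 : Type*) where
  /-- the set of variables `x_i` -/
  vars : Finset (Fin n)
  /-- the function -/
  fn : (Fin n → Bool) → (Fin E → Bool) → 𝕜

/-- Apart from the new variables, the factor depends only on the variables in `vars`. -/
def Factor.Local {n E : ℕ} {𝕜 : Type*} (f : Factor n E 𝕜) : Prop :=
  ∀ x x' z, (∀ i ∈ f.vars, x i = x' i) → f.fn x z = f.fn x' z

/-- All variables in `vars` are among the first half of the variables `x_i`, or all of them are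
among the second half. -/
def Factor.OneSided {n E : ℕ} {𝕜 : Type*} (f : Factor n E 𝕜) : Prop :=
  (∀ i ∈ f.vars, 2 * (i : ℕ) < n) ∨ (∀ i ∈ f.vars, n ≤ 2 * (i : ℕ))

/-- For fixed values of the new variables the factor is an affine form in the variables of
`vars`. -/
def Factor.IsAffine {n E : ℕ} {𝕜 : Type*} [Field 𝕜] (f : Factor n E 𝕜) : Prop :=
  ∃ (b : (Fin E → Bool) → 𝕜) (c : Fin n → (Fin E → Bool) → 𝕜),
    ∀ x z, f.fn x z = b z + ∑ i ∈ f.vars, if x i then c i z else 0

/-- A term: a product of clauses, used as axioms, and of factors. -/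
structure Term (n E : ℕ) (𝕜 : Type*) where
  /-- the clauses -/
  used : Finset (Clause n)
  /-- the number of factors -/
  len : ℕ
  /-- the factors -/
  factor : Fin len → Factor n E 𝕜

/-- The value of a term, when the clause `C` has the value `y C`. -/
def Term.eval {n E : ℕ} {𝕜 : Type*} [Field 𝕜] (t : Term n E 𝕜) (x : Fin n → Bool)
    (z : Fin E → Bool) (y : Clause n → 𝕜) : 𝕜 :=
  (∏ C ∈ t.used, y C) * ∏ j, (t.factor j).fn x z

/-- Every factor is one-sided or affine or has at most `s` variables, and after removing at most
`d` factors the factors that are not one-sided have pairwise disjoint sets of variables. -/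
def Term.Simple {n E : ℕ} {𝕜 : Type*} [Field 𝕜] (s : ℕ) (d : ℝ) (t : Term n E 𝕜) : Prop :=
  (∀ j, (t.factor j).Local ∧
    ((t.factor j).OneSided ∨ (t.factor j).IsAffine ∨ (t.factor j).vars.card ≤ s)) ∧
  ∃ X : Finset (Fin t.len), (X.card : ℝ) ≤ d ∧ ∀ i ∉ X, ∀ j ∉ X, i ≠ j →
    ¬ (t.factor i).OneSided → ¬ (t.factor j).OneSided →
    Disjoint (t.factor i).vars (t.factor j).vars

open scoped Classical in
/-- The value of a clause as an axiom: `1` where it is false and `0` where it is true. -/
noncomputable def falseAt {n : ℕ} (𝕜 : Type*) [Field 𝕜] (x : Fin n → Bool) (C : Clause n) : 𝕜 :=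
  if Falsifies x C then 1 else 0

/-- The terms `t` form a certificate for the formula `F` and the new variables given by `D`:
their sum vanishes if all clauses of `F` are replaced by `0`, and is `1` if they are replaced by
their values, at all Boolean points. -/
def IsCertificate {n E m : ℕ} {𝕜 : Type*} [Field 𝕜] (F : Finset (Clause n))
    (D : Fin E → Gate n E) (t : Fin m → Term n E 𝕜) : Prop :=
  (∀ i, (t i).used ⊆ F) ∧ ∀ x z, Computes D x z →
    ∑ i, (t i).eval x z 0 = 0 ∧ ∑ i, (t i).eval x z (falseAt 𝕜 x) = 1

end Pool.Agent.MP_9cec2c_lc.DepthThree
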