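import Mathlib
import Pool.Agent.Lib.MP_9cec2c_lc.D3Main
import Pool.Agent.Lib.MP_9cec2c_lc.D4Defs

/-!
The rank of terms, and the main inequality for general coefficients.
-/

set_option autoImplicit false

namespace Pool.Agent.MP_9cec2c_lc.DepthThree

open Finset

section main

variable {N κ k n : ℕ} {α : Type*} [DecidableEq α] {𝕜 : Type*} [Field 𝕜]

/-- The main inequality for general coefficients. -/
theorem main_ineq_gen (h2 : (2 : 𝕜) ≠ 0) {e : Fin N × Fin κ → Fin n} (he : Function.Injective e)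
    (L : Fin κ → Fin κ → ZMod 2) (aX aY : α) (hne : aX ≠ aY)
    (ρ : Fin N × Fin κ → α) (J : Fin (N + 1) × Fin k → Fin N) (b : Fin (N + 1) → ZMod 2)
    (t : ℕ) (hJ : ∀ I : Finset (Fin (N + 1)), I.Nonempty → I.card ≤ t → vec I J ≠ 0)
    (G : Clause n → (Fin n → Bool) → 𝕜) (R : Clause n → ℕ)
    (hR : ∀ C ∈ cnf e J L b, RankLE (fun x y => G C (comb e aX aY ρ x y)) (R C))
    (hG : ∀ a, ∑ C ∈ cnf e J L b, falseAt 𝕜 a C * G C a = 1) :
    ∏ j, (wc L aX aY ρ j - 1) ≤
      (∑ I ∈ (univ : Finset (Finset (Fin (N + 1)))).filter (fun I => I.card = t),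
        ∏ j, (if vec I J j = 0 then wc L aX aY ρ j else 1)) *
      ∑ C ∈ cnf e J L b, R C := by
  classical
  apply big_rank_ge h2 L aX aY hne ρ J b t hJ
  rw [Finset.mul_sum]
  have h1 := rankLE_sum (cnf e J L b)
    (fun C x y => (if Falsifies (comb e aX aY ρ x y) C then big 𝕜 L aX aY ρ J b t x y else 0) *
      G C (comb e aX aY ρ x y))
    (fun C => (∑ I ∈ (univ : Finset (Finset (Fin (N + 1)))).filter (fun I => I.card = t),
        ∏ j, (if vec I J j = 0 then wc L aX aY ρ j else 1)) * R C)
    (fun C hC => (big_clause_rank he L aX aY hne ρ J b t C hC).mul (hR C hC))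
  refine h1.congr fun x y => ?_
  have h3 := hG (comb e aX aY ρ x y)
  have h4 : big 𝕜 L aX aY ρ J b t x y = big 𝕜 L aX aY ρ J b t x y *
      ∑ C ∈ cnf e J L b, falseAt 𝕜 (comb e aX aY ρ x y) C * G C (comb e aX aY ρ x y) := by
    rw [h3, mul_one]
  refine h4.trans ?_
  rw [Finset.mul_sum]
  refine Finset.sum_congr rfl fun C _ => ?_
  unfold falseAt
  split_ifs <;> ring

/-- Lower bound for the total rank at a good pattern. -/
theorem good_bound_gen (h2 : (2 : 𝕜) ≠ 0) {e : Fin N × Fin κ → Fin n}
    (he : Function.Injective e)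
    (L : Fin κ → Fin κ → ZMod 2) (aX aY : α) (hne : aX ≠ aY)
    (ρ : Fin N × Fin κ → α) (J : Fin (N + 1) × Fin k → Fin N) (b : Fin (N + 1) → ZMod 2)
    (t : ℕ) (hJ : ∀ I : Finset (Fin (N + 1)), I.Nonempty → I.card ≤ t → vec I J ≠ 0)
    (W : ℕ) (hW : ∀ I : Finset (Fin (N + 1)), I.card = t →
      W ≤ (univ.filter (fun j => vec I J j ≠ 0)).card)
    (R : ℕ) (hR : 1 ≤ R) (hgood : ∀ j, 2 * R ≤ wc L aX aY ρ j)
    (G : Clause n → (Fin n → Bool) → 𝕜) (S : Clause n → ℕ)
    (hS : ∀ C ∈ cnf e J L b, RankLE (fun x y => G C (comb e aX aY ρ x y)) (S C))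
    (hG : ∀ a, ∑ C ∈ cnf e J L b, falseAt 𝕜 a C * G C a = 1) :
    (2 * R) ^ W ≤ 2 ^ (2 * N + 1) * ∑ C ∈ cnf e J L b, S C := by
  classical
  have hmain := main_ineq_gen h2 he L aX aY hne ρ J b t hJ G S hS hG
  obtain ⟨T, hT⟩ : ∃ T, T = ∑ C ∈ cnf e J L b, S C := ⟨_, rfl⟩
  rw [← hT] at hmain ⊢
  have hwc : ∀ j, 2 ≤ wc L aX aY ρ j := fun j => by have := hgood j; omega
  have h1 : ∏ j, wc L aX aY ρ j ≤ (∏ j, (wc L aX aY ρ j - 1)) * 2 ^ N := by
    have h3 : ∏ j : Fin N, wc L aX aY ρ j ≤ ∏ j : Fin N, ((wc L aX aY ρ j - 1) * 2) :=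
      Finset.prod_le_prod' fun j _ => by have := hwc j; omega
    refine h3.trans (le_of_eq ?_)
    rw [Finset.prod_mul_distrib]
    simp
  have h4 : (∑ I ∈ (univ : Finset (Finset (Fin (N + 1)))).filter (fun I => I.card = t),
        ∏ j, (if vec I J j = 0 then wc L aX aY ρ j else 1)) * (2 * R) ^ W ≤
        2 ^ (N + 1) * ∏ j, wc L aX aY ρ j := by
    rw [Finset.sum_mul]
    have h5 : ∀ I ∈ (univ : Finset (Finset (Fin (N + 1)))).filter (fun I => I.card = t),
        (∏ j, (if vec I J j = 0 then wc L aX aY ρ j else 1)) * (2 * R) ^ W ≤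
        ∏ j, wc L aX aY ρ j := by
      intro I hI
      rw [mem_filter] at hI
      have h6 := hW I hI.2
      have h7 : (2 * R) ^ W ≤ ∏ j, (if vec I J j = 0 then 1 else wc L aX aY ρ j) := by
        have h8 : (2 * R) ^ W ≤ (2 * R) ^ (univ.filter (fun j => vec I J j ≠ 0)).card :=
          Nat.pow_le_pow_right (by omega) h6
        refine h8.trans ?_
        rw [← Finset.prod_const, Finset.prod_filter]
        refine Finset.prod_le_prod' fun j _ => ?_
        by_cases h9 : vec I J j = 0
        · simp [h9]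
        · simp only [h9, ne_eq, not_false_eq_true, if_true, if_false]
          exact hgood j
      calc (∏ j, (if vec I J j = 0 then wc L aX aY ρ j else 1)) * (2 * R) ^ W
          ≤ (∏ j, (if vec I J j = 0 then wc L aX aY ρ j else 1)) *
            ∏ j, (if vec I J j = 0 then 1 else wc L aX aY ρ j) := Nat.mul_le_mul_left _ h7
        _ = ∏ j, wc L aX aY ρ j := by
            rw [← Finset.prod_mul_distrib]
            refine Finset.prod_congr rfl fun j _ => ?_
            split_ifs <;> simp
    refine (Finset.sum_le_sum h5).trans ?_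
    rw [Finset.sum_const, smul_eq_mul]
    apply Nat.mul_le_mul_right
    refine (card_filter_le _ _).trans ?_
    rw [card_univ, Fintype.card_finset, Fintype.card_fin]
  have hpos : 0 < ∏ j, wc L aX aY ρ j := Finset.prod_pos fun j _ => by have := hwc j; omega
  have h10 : (∏ j, wc L aX aY ρ j) * (2 * R) ^ W ≤
      (∏ j, wc L aX aY ρ j) * (2 ^ (2 * N + 1) * T) := by
    calc (∏ j, wc L aX aY ρ j) * (2 * R) ^ W
        ≤ ((∏ j, (wc L aX aY ρ j - 1)) * 2 ^ N) * (2 * R) ^ W := Nat.mul_le_mul_right _ h1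
      _ ≤ (((∑ I ∈ (univ : Finset (Finset (Fin (N + 1)))).filter (fun I => I.card = t),
        ∏ j, (if vec I J j = 0 then wc L aX aY ρ j else 1)) * T) * 2 ^ N) * (2 * R) ^ W :=
          Nat.mul_le_mul_right _ (Nat.mul_le_mul_right _ hmain)
      _ = ((∑ I ∈ (univ : Finset (Finset (Fin (N + 1)))).filter (fun I => I.card = t),
        ∏ j, (if vec I J j = 0 then wc L aX aY ρ j else 1)) * (2 * R) ^ W) * (2 ^ N * T) := by
          ring
      _ ≤ (2 ^ (N + 1) * ∏ j, wc L aX aY ρ j) * (2 ^ N * T) := Nat.mul_le_mul_right _ h4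
      _ = (∏ j, wc L aX aY ρ j) * (2 ^ (2 * N + 1) * T) := by
          rw [show 2 * N + 1 = (N + 1) + N by ring, pow_add 2 (N + 1) N]; ring
  exact Nat.le_of_mul_le_mul_left h10 hpos

end main

section pieces

variable {N κ n E : ℕ} {α : Type*} [DecidableEq α] {𝕜 : Type*} [Field 𝕜]

/-- The value of one variable depends on one side only. -/
theorem var_rank {e : Fin N × Fin κ → Fin n} (he : Function.Injective e) (aX aY : α)
    (ρ : Fin N × Fin κ → α) (i : Fin n) (φ : Bool → 𝕜) :
    RankLE (fun x y => φ (comb e aX aY ρ x y i)) 1 := by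
  by_cases hi : i ∈ Set.range e
  · obtain ⟨p, rfl⟩ := hi
    by_cases hX : ρ p = aX
    · refine (rankLE_left (β := Fin N → Fin κ → Bool)
        (fun x : Fin N → Fin κ → Bool => φ (x p.1 p.2))).congr fun x y => ?_
      rw [comb_apply he]
      unfold mix
      rw [if_pos hX]
    · by_cases hY : ρ p = aY
      · refine (rankLE_right (α := Fin N → Fin κ → Bool)
          (fun y : Fin N → Fin κ → Bool => φ (y p.1 p.2))).congr fun x y => ?_
        rw [comb_apply he]
        unfold mix
        rw [if_neg hX, if_pos hY]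
      · refine (rankLE_const (α := Fin N → Fin κ → Bool) (β := Fin N → Fin κ → Bool)
          (φ false)).congr fun x y => ?_
        rw [comb_apply he]
        unfold mix
        rw [if_neg hX, if_neg hY]
  · refine (rankLE_const (α := Fin N → Fin κ → Bool) (β := Fin N → Fin κ → Bool)
      (φ false)).congr fun x y => ?_
    rw [comb_apply' aX aY ρ x y i hi]

/-- A clause has rank one. -/
theorem falseAt_rank {e : Fin N × Fin κ → Fin n} (he : Function.Injective e) (aX aY : α)
    (ρ : Fin N × Fin κ → α) (C : Clause n) :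
    RankLE (fun x y => falseAt 𝕜 (comb e aX aY ρ x y) C) 1 := by
  classical
  have h1 : RankLE (fun x y : Fin N → Fin κ → Bool =>
      ∏ l ∈ C, (if comb e aX aY ρ x y l.1 ≠ l.2 then (1 : 𝕜) else 0)) (∏ _l ∈ C, 1) :=
    rankLE_prod C _ _ fun l _ => var_rank he aX aY ρ l.1 (fun b => if b ≠ l.2 then (1 : 𝕜) else 0)
  rw [Finset.prod_const_one] at h1
  refine h1.congr fun x y => ?_
  unfold falseAt
  by_cases hf : Falsifies (comb e aX aY ρ x y) C
  · rw [if_pos hf]
    symm
    exact Finset.prod_eq_one fun l hl => if_pos (hf l hl)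
  · rw [if_neg hf]
    unfold Falsifies at hf
    push Not at hf
    obtain ⟨l, hl, hl'⟩ := hf
    symm
    exact Finset.prod_eq_zero hl (if_neg (not_not.2 hl'))

/-- The positions of the variables in `T`. -/
def pos (e : Fin N × Fin κ → Fin n) (T : Finset (Fin n)) : Finset (Fin N × Fin κ) :=
  univ.filter (fun p => e p ∈ T)

/-- Rank bound for a general local function. -/
theorem junta_rank {e : Fin N × Fin κ → Fin n} (he : Function.Injective e) (aX aY : α)
    (ρ : Fin N × Fin κ → α) (T : Finset (Fin n)) (f : (Fin n → Bool) → 𝕜)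
    (hf : ∀ a a', (∀ i ∈ T, a i = a' i) → f a = f a') :
    RankLE (fun x y => f (comb e aX aY ρ x y))
      (if ∃ p ∈ pos e T, ρ p = aY then 2 ^ ((pos e T).filter (fun p => ρ p = aX)).card else 1) := by
  classical
  have hcomb : ∀ (x y x' y' : Fin N → Fin κ → Bool),
      (∀ p ∈ pos e T, ρ p = aX → x p.1 p.2 = x' p.1 p.2) →
      (∀ p ∈ pos e T, ρ p = aY → y p.1 p.2 = y' p.1 p.2) →
      f (comb e aX aY ρ x y) = f (comb e aX aY ρ x' y') := by
    intro x y x' y' hx hy
    refine hf _ _ fun i hi => ?_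
    by_cases hr : i ∈ Set.range e
    · obtain ⟨p, rfl⟩ := hr
      have hp : p ∈ pos e T := by simp only [pos, mem_filter, mem_univ, true_and]; exact hi
      rw [comb_apply he, comb_apply he]
      unfold mix
      by_cases hX : ρ p = aX
      · rw [if_pos hX, if_pos hX]; exact hx p hp hX
      · rw [if_neg hX, if_neg hX]
        by_cases hY : ρ p = aY
        · rw [if_pos hY, if_pos hY]; exact hy p hp hY
        · rw [if_neg hY, if_neg hY]
    · rw [comb_apply' aX aY ρ x y i hr, comb_apply' aX aY ρ x' y' i hr]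
  by_cases hY : ∃ p ∈ pos e T, ρ p = aY
  · rw [if_pos hY]
    obtain ⟨XS, hXS⟩ : ∃ XS, XS = (pos e T).filter (fun p => ρ p = aX) := ⟨_, rfl⟩
    rw [← hXS]
    obtain ⟨ext, hext⟩ : ∃ ext : Finset (Fin N × Fin κ) → (Fin N → Fin κ → Bool),
      ext = fun S j a => decide ((j, a) ∈ S) := ⟨_, rfl⟩
    have h1 := rankLE_sum (𝕜 := 𝕜) XS.powerset
      (fun S (x y : Fin N → Fin κ → Bool) =>
        (if ∀ p ∈ XS, x p.1 p.2 = ext S p.1 p.2 then (1 : 𝕜) else 0) *
          f (comb e aX aY ρ (ext S) y))
      (fun _ => 1) (fun S _ => rankLE_one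
        (fun x : Fin N → Fin κ → Bool =>
          if ∀ p ∈ XS, x p.1 p.2 = ext S p.1 p.2 then (1 : 𝕜) else 0)
        (fun y : Fin N → Fin κ → Bool => f (comb e aX aY ρ (ext S) y)))
    rw [Finset.sum_const, smul_eq_mul, mul_one, card_powerset] at h1
    refine h1.congr fun x y => ?_
    obtain ⟨S0, hS0⟩ : ∃ S0, S0 = XS.filter (fun p => x p.1 p.2 = true) := ⟨_, rfl⟩
    have hS0x : ∀ p ∈ XS, x p.1 p.2 = ext S0 p.1 p.2 := by
      intro p hp
      rw [hext]
      show x p.1 p.2 = decide ((p.1, p.2) ∈ S0)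
      have : ((p.1, p.2) ∈ S0) ↔ x p.1 p.2 = true := by
        rw [hS0, mem_filter]
        exact ⟨fun h => h.2, fun h => ⟨hp, h⟩⟩
      by_cases h : x p.1 p.2 = true
      · rw [h]; symm; exact decide_eq_true (this.2 h)
      · rw [Bool.not_eq_true] at h
        rw [h]; symm
        exact decide_eq_false (fun h' => by rw [this.1 h'] at h; exact Bool.noConfusion h)
    rw [Finset.sum_eq_single S0]
    · rw [if_pos hS0x, one_mul]
      refine hcomb _ _ _ _ (fun p hp hX => hS0x p ?_) (fun p _ _ => rfl)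
      rw [hXS, mem_filter]
      exact ⟨hp, hX⟩
    · intro S hS hne'
      rw [if_neg, zero_mul]
      intro h
      apply hne'
      rw [mem_powerset] at hS
      ext p
      constructor
      · intro hp
        rw [hS0, mem_filter]
        refine ⟨hS hp, ?_⟩
        rw [h p (hS hp), hext]
        exact decide_eq_true hp
      · intro hp
        rw [hS0, mem_filter] at hp
        have h3 := h p hp.1
        rw [hp.2, hext] at h3
        exact of_decide_eq_true h3.symm
    · intro h
      exfalso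
      apply h
      rw [mem_powerset, hS0]
      exact filter_subset _ _
  · rw [if_neg hY]
    push Not at hY
    refine (rankLE_left (β := Fin N → Fin κ → Bool)
      (fun x : Fin N → Fin κ → Bool => f (comb e aX aY ρ x (fun _ _ => false)))).congr
      fun x y => ?_
    exact hcomb _ _ _ _ (fun p _ _ => rfl) (fun p hp hpY => absurd hpY (hY p hp))

open scoped Classical in
/-- The rank bound of a factor. -/
noncomputable def frk (e : Fin N × Fin κ → Fin n) (aX aY : α) (ρ : Fin N × Fin κ → α)
    (f : Factor n E 𝕜) : ℕ :=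
  if f.IsAffine then (if Split aX aY ρ (pos e f.vars) then 2 else 1)
  else (if ∃ p ∈ pos e f.vars, ρ p = aY then
    2 ^ ((pos e f.vars).filter (fun p => ρ p = aX)).card else 1)

theorem factor_rank {e : Fin N × Fin κ → Fin n} (he : Function.Injective e) (aX aY : α)
    (hne : aX ≠ aY) (ρ : Fin N × Fin κ → α) (f : Factor n E 𝕜) (hf : f.Local)
    (z : Fin E → Bool) :
    RankLE (fun x y => f.fn (comb e aX aY ρ x y) z) (frk e aX aY ρ f) := by
  classical
  unfold frk
  by_cases ha : f.IsAffine
  · rw [if_pos ha]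
    obtain ⟨b, c, hbc⟩ := ha
    obtain ⟨A, hA⟩ : ∃ A : Affine n 𝕜, A = ⟨b z, fun i => if i ∈ f.vars then c i z else 0⟩ :=
      ⟨_, rfl⟩
    have h1 : ∀ a, f.fn a z = A.eval a := by
      intro a
      rw [hbc, hA]
      unfold Affine.eval
      congr 1
      rw [← Finset.sum_subset (Finset.subset_univ f.vars)]
      · refine Finset.sum_congr rfl fun i hi => ?_
        simp only [if_pos hi]
      · intro i _ hi
        simp only [if_neg hi]
        split_ifs <;> rfl
    have h2 := affine_rank he aX aY hne ρ A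
    refine (h2.mono ?_).congr fun x y => h1 _
    have hsub : vars e A ⊆ pos e f.vars := by
      intro p hp
      simp only [vars, mem_filter, mem_univ, true_and] at hp
      simp only [pos, mem_filter, mem_univ, true_and]
      by_contra hcon
      apply hp
      rw [hA]
      exact if_neg hcon
    by_cases hs : Split aX aY ρ (vars e A)
    · have hs' : Split aX aY ρ (pos e f.vars) := by
        obtain ⟨⟨p, hp, hp'⟩, ⟨p2, hp2, hp2'⟩⟩ := hs
        exact ⟨⟨p, hsub hp, hp'⟩, ⟨p2, hsub hp2, hp2'⟩⟩
      rw [if_pos hs, if_pos hs']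
    · rw [if_neg hs]
      split_ifs <;> omega
  · rw [if_neg ha]
    have h3 := junta_rank he aX aY ρ f.vars (fun a => f.fn a z) (fun a a' h => hf a a' z h)
    refine h3.mono ?_
    split_ifs <;> exact le_rfl

end pieces

section gates

variable {N κ n E : ℕ} {α : Type*} [DecidableEq α] {𝕜 : Type*} [Field 𝕜]

theorem exists_computes (D : Fin E → Gate n E) (hD : Ordered D) (x : Fin n → Bool) :
    ∃ z, Computes D x z := by
  have h : ∀ m : ℕ, ∃ z : Fin E → Bool, ∀ j : Fin E, (j : ℕ) < m →
      z j = (D j).op (Sum.elim x z (D j).fst) (Sum.elim x z (D j).snd) := by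
    intro m
    induction m with
    | zero => exact ⟨fun _ => false, fun j hj => absurd hj (Nat.not_lt_zero _)⟩
    | succ m ih =>
      obtain ⟨z, hz⟩ := ih
      by_cases hm : m < E
      · obtain ⟨z', hz'⟩ : ∃ z' : Fin E → Bool, z' = Function.update z ⟨m, hm⟩
          ((D ⟨m, hm⟩).op (Sum.elim x z (D ⟨m, hm⟩).fst) (Sum.elim x z (D ⟨m, hm⟩).snd)) :=
          ⟨_, rfl⟩
        refine ⟨z', fun j hj => ?_⟩
        have hval : ∀ w : Fin n ⊕ Fin E, (∀ i : Fin E, w = Sum.inr i → i < j) →
            Sum.elim x z' w = Sum.elim x z w := by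
          intro w hw
          rcases w with i | i
          · rfl
          · show z' i = z i
            have h1 := hw i rfl
            rw [hz', Function.update_of_ne]
            intro h2
            rw [h2] at h1
            have h3 : m < (j : ℕ) := h1
            omega
        rw [hval (D j).fst (fun i hi => hD j i (Or.inl hi)),
          hval (D j).snd (fun i hi => hD j i (Or.inr hi))]
        by_cases hjm : (j : ℕ) = m
        · have hj' : j = ⟨m, hm⟩ := Fin.ext hjm
          rw [hj', hz', Function.update_self]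
        · rw [hz', Function.update_of_ne (fun h2 => hjm (by rw [h2]))]
          exact hz j (by omega)
      · exact ⟨z, fun j hj => hz j (by have := j.2; omega)⟩
  obtain ⟨z, hz⟩ := h E
  exact ⟨z, fun j => hz j j.2⟩

theorem computes_unique (D : Fin E → Gate n E) (hD : Ordered D) (x : Fin n → Bool)
    (z z' : Fin E → Bool) (hz : Computes D x z) (hz' : Computes D x z') : z = z' := by
  have h : ∀ m : ℕ, ∀ j : Fin E, (j : ℕ) < m → z j = z' j := by
    intro m
    induction m with
    | zero => exact fun j hj => absurd hj (Nat.not_lt_zero _)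
    | succ m ih =>
      intro j hj
      have hval : ∀ w : Fin n ⊕ Fin E, (∀ i : Fin E, w = Sum.inr i → i < j) →
          Sum.elim x z w = Sum.elim x z' w := by
        intro w hw
        rcases w with i | i
        · rfl
        · have h1 : (i : ℕ) < (j : ℕ) := hw i rfl
          exact ih i (by omega)
      rw [hz j, hz' j, hval (D j).fst (fun i hi => hD j i (Or.inl hi)),
        hval (D j).snd (fun i hi => hD j i (Or.inr hi))]
  funext j
  exact h E j j.2

/-- An input of a gate depends on one side only. -/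
theorem input_rank {e : Fin N × Fin κ → Fin n} (he : Function.Injective e) (aX aY : α)
    (ρ : Fin N × Fin κ → α) (z : Fin E → Bool) (w : Fin n ⊕ Fin E) (φ : Bool → 𝕜) :
    RankLE (fun x y => φ (Sum.elim (comb e aX aY ρ x y) z w)) 1 := by
  rcases w with i | i
  · exact var_rank he aX aY ρ i φ
  · exact rankLE_const (φ (z i))

open scoped Classical in
theorem computes_rank {e : Fin N × Fin κ → Fin n} (he : Function.Injective e) (aX aY : α)
    (ρ : Fin N × Fin κ → α) (D : Fin E → Gate n E) (z : Fin E → Bool) :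
    RankLE (fun x y => if Computes D (comb e aX aY ρ x y) z then (1 : 𝕜) else 0) (2 ^ E) := by
  have h1 : ∀ j ∈ (univ : Finset (Fin E)), RankLE (fun x y : Fin N → Fin κ → Bool =>
      if z j = (D j).op (Sum.elim (comb e aX aY ρ x y) z (D j).fst)
        (Sum.elim (comb e aX aY ρ x y) z (D j).snd) then (1 : 𝕜) else 0) 2 := by
    intro j _
    have ht := (input_rank (𝕜 := 𝕜) he aX aY ρ z (D j).fst
      (fun b => if b = true then 1 else 0)).mul
      (input_rank (𝕜 := 𝕜) he aX aY ρ z (D j).snd
        (fun b => if z j = (D j).op true b then 1 else 0))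
    have hf := (input_rank (𝕜 := 𝕜) he aX aY ρ z (D j).fst
      (fun b => if b = false then 1 else 0)).mul
      (input_rank (𝕜 := 𝕜) he aX aY ρ z (D j).snd
        (fun b => if z j = (D j).op false b then 1 else 0))
    refine (ht.add hf).congr fun x y => ?_
    rcases Sum.elim (comb e aX aY ρ x y) z (D j).fst with _ | _ <;> simp
  have h2 := rankLE_prod univ _ _ h1
  rw [Finset.prod_const, card_univ, Fintype.card_fin] at h2
  refine h2.congr fun x y => ?_
  by_cases hc : Computes D (comb e aX aY ρ x y) z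
  · rw [if_pos hc]
    symm
    exact Finset.prod_eq_one fun j _ => if_pos (hc j)
  · rw [if_neg hc]
    unfold Computes at hc
    push Not at hc
    obtain ⟨j, hj⟩ := hc
    symm
    exact Finset.prod_eq_zero (mem_univ j) (if_neg hj)

/-- The rank bound of a term, without the new variables. -/
noncomputable def trk (e : Fin N × Fin κ → Fin n) (aX aY : α) (ρ : Fin N × Fin κ → α)
    (t : Term n E 𝕜) : ℕ := ∏ j, frk e aX aY ρ (t.factor j)

/-- The rank of a term, the new variables being computed. -/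
theorem term_rank' {e : Fin N × Fin κ → Fin n} (he : Function.Injective e) (aX aY : α)
    (hne : aX ≠ aY) (ρ : Fin N × Fin κ → α) (D : Fin E → Gate n E) (hD : Ordered D)
    (v : (Fin n → Bool) → (Fin E → Bool)) (hv : ∀ a, Computes D a (v a))
    (t : Term n E 𝕜) (ht : ∀ j, (t.factor j).Local) :
    RankLE (fun x y => t.eval (comb e aX aY ρ x y) (v (comb e aX aY ρ x y))
      (falseAt 𝕜 (comb e aX aY ρ x y))) (4 ^ E * trk e aX aY ρ t) := by
  classical
  have h1 : ∀ z ∈ (univ : Finset (Fin E → Bool)), RankLE (fun x y : Fin N → Fin κ → Bool =>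
      (if Computes D (comb e aX aY ρ x y) z then (1 : 𝕜) else 0) *
        ((∏ C ∈ t.used, falseAt 𝕜 (comb e aX aY ρ x y) C) *
          ∏ j, (t.factor j).fn (comb e aX aY ρ x y) z))
      (2 ^ E * (1 * trk e aX aY ρ t)) := by
    intro z _
    refine (computes_rank he aX aY ρ D z).mul (RankLE.mul ?_ ?_)
    · have h2 := rankLE_prod t.used (fun C x y => falseAt 𝕜 (comb e aX aY ρ x y) C)
        (fun _ => 1) (fun C _ => falseAt_rank he aX aY ρ C)
      rw [Finset.prod_const_one] at h2
      exact h2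
    · exact rankLE_prod univ (fun j x y => (t.factor j).fn (comb e aX aY ρ x y) z) _
        (fun j _ => factor_rank he aX aY hne ρ (t.factor j) (ht j) z)
  have h3 := rankLE_sum univ _ _ h1
  have h4 : ∑ _z ∈ (univ : Finset (Fin E → Bool)), 2 ^ E * (1 * trk e aX aY ρ t) =
      4 ^ E * trk e aX aY ρ t := by
    rw [Finset.sum_const, card_univ, Fintype.card_fun, Fintype.card_bool, Fintype.card_fin,
      smul_eq_mul, one_mul, ← mul_assoc, ← mul_pow]
    norm_num
  rw [h4] at h3
  refine h3.congr fun x y => ?_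
  rw [Finset.sum_eq_single (v (comb e aX aY ρ x y))]
  · rw [if_pos (hv _), one_mul]
    rfl
  · intro z _ hz
    rw [if_neg, zero_mul]
    intro hc
    exact hz (computes_unique D hD _ _ _ hc (hv _))
  · intro h
    exact absurd (mem_univ _) h

end gates

section certificate

variable {N κ k n E m : ℕ} {α : Type*} [DecidableEq α] {𝕜 : Type*} [Field 𝕜]

theorem falseAt_mul_self (a : Fin n → Bool) (C : Clause n) :
    falseAt 𝕜 a C * falseAt 𝕜 a C = falseAt 𝕜 a C := by
  unfold falseAt
  split_ifs <;> simp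

theorem falseAt_mul_prod (a : Fin n → Bool) (C : Clause n) (T : Finset (Clause n))
    (hC : C ∈ T) : falseAt 𝕜 a C * ∏ C' ∈ T, falseAt 𝕜 a C' = ∏ C' ∈ T, falseAt 𝕜 a C' := by
  classical
  rw [← Finset.mul_prod_erase T _ hC, ← mul_assoc, falseAt_mul_self]

/-- Lower bound for the total rank of the terms of a certificate at a good pattern. -/
theorem cert_bound (h2 : (2 : 𝕜) ≠ 0) {e : Fin N × Fin κ → Fin n}
    (he : Function.Injective e)
    (L : Fin κ → Fin κ → ZMod 2) (aX aY : α) (hne : aX ≠ aY)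
    (ρ : Fin N × Fin κ → α) (J : Fin (N + 1) × Fin k → Fin N) (b : Fin (N + 1) → ZMod 2)
    (t : ℕ) (hJ : ∀ I : Finset (Fin (N + 1)), I.Nonempty → I.card ≤ t → vec I J ≠ 0)
    (W : ℕ) (hW : ∀ I : Finset (Fin (N + 1)), I.card = t →
      W ≤ (univ.filter (fun j => vec I J j ≠ 0)).card)
    (R : ℕ) (hR : 1 ≤ R) (hgood : ∀ j, 2 * R ≤ wc L aX aY ρ j)
    (D : Fin E → Gate n E) (hD : Ordered D) (P : Fin m → Term n E 𝕜)
    (hP : ∀ i j, ((P i).factor j).Local) (hcert : IsCertificate (cnf e J L b) D P) :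
    (2 * R) ^ W ≤ 2 ^ (2 * N + 1) * (4 ^ E * ∑ i, trk e aX aY ρ (P i)) := by
  classical
  have hv := fun a => exists_computes D hD a
  choose v hv using hv
  -- the chosen clause of a term
  obtain ⟨sel, hsel⟩ : ∃ sel : Fin m → Clause n, ∀ i, (P i).used.Nonempty → sel i ∈ (P i).used :=
    ⟨fun i => if h : (P i).used.Nonempty then h.choose else ∅, fun i h => by
      show (if h : (P i).used.Nonempty then h.choose else ∅) ∈ (P i).used
      rw [dif_pos h]; exact h.choose_spec⟩
  obtain ⟨G, hG⟩ : ∃ G : Clause n → (Fin n → Bool) → 𝕜, G = fun C a =>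
    ∑ i, (if (P i).used.Nonempty ∧ sel i = C then (P i).eval a (v a) (falseAt 𝕜 a) else 0) :=
    ⟨_, rfl⟩
  obtain ⟨S, hS⟩ : ∃ S : Clause n → ℕ, S = fun C =>
    ∑ i, (if (P i).used.Nonempty ∧ sel i = C then 4 ^ E * trk e aX aY ρ (P i) else 0) :=
    ⟨_, rfl⟩
  have hrank : ∀ C ∈ cnf e J L b, RankLE (fun x y => G C (comb e aX aY ρ x y)) (S C) := by
    intro C _
    rw [hG, hS]
    refine rankLE_sum univ (fun i x y => if (P i).used.Nonempty ∧ sel i = C then
      (P i).eval (comb e aX aY ρ x y) (v (comb e aX aY ρ x y))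
        (falseAt 𝕜 (comb e aX aY ρ x y)) else 0) _ fun i _ => ?_
    by_cases hi : (P i).used.Nonempty ∧ sel i = C
    · rw [if_pos hi]
      refine (term_rank' he aX aY hne ρ D hD v hv (P i) (hP i)).congr fun x y => if_pos hi
    · rw [if_neg hi]
      exact (rankLE_zero 0).congr fun x y => if_neg hi
  have hone : ∀ a, ∑ C ∈ cnf e J L b, falseAt 𝕜 a C * G C a = 1 := by
    intro a
    have h1 := (hcert.2 a (v a) (hv a)).1
    have h3 := (hcert.2 a (v a) (hv a)).2
    rw [hG]
    simp only [Finset.mul_sum]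
    rw [Finset.sum_comm, ← h3]
    have h4 : ∑ i, (P i).eval a (v a) (falseAt 𝕜 a) =
        ∑ i, ((P i).eval a (v a) (falseAt 𝕜 a) - (P i).eval a (v a) 0) := by
      rw [Finset.sum_sub_distrib, h1, sub_zero]
    rw [h4]
    refine Finset.sum_congr rfl fun i _ => ?_
    by_cases hi : (P i).used.Nonempty
    · have h5 : (P i).eval a (v a) 0 = 0 := by
        unfold Term.eval
        obtain ⟨C, hC⟩ := hi
        rw [Finset.prod_eq_zero hC rfl, zero_mul]
      rw [h5, sub_zero, Finset.sum_eq_single (sel i)]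
      · rw [if_pos ⟨hi, rfl⟩]
        unfold Term.eval
        rw [← mul_assoc, falseAt_mul_prod a _ _ (hsel i hi)]
      · intro C _ hC
        rw [if_neg (fun h => hC h.2.symm), mul_zero]
      · intro h
        exact absurd (hcert.1 i (hsel i hi)) h
    · have h5 : (P i).eval a (v a) (falseAt 𝕜 a) = (P i).eval a (v a) 0 := by
        unfold Term.eval
        rw [Finset.not_nonempty_iff_eq_empty] at hi
        rw [hi, Finset.prod_empty, Finset.prod_empty]
      rw [h5, sub_self]
      refine Finset.sum_eq_zero fun C _ => ?_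
      rw [if_neg (fun h => hi h.1), mul_zero]
  have hb := good_bound_gen h2 he L aX aY hne ρ J b t hJ W hW R hR hgood G S hrank hone
  refine hb.trans (Nat.mul_le_mul_left _ ?_)
  rw [hS, Finset.sum_comm, Finset.mul_sum]
  refine Finset.sum_le_sum fun i _ => ?_
  have h6 : ∀ C, (if (P i).used.Nonempty ∧ sel i = C then 4 ^ E * trk e aX aY ρ (P i) else 0) ≤
      (if sel i = C then 4 ^ E * trk e aX aY ρ (P i) else 0) := by
    intro C
    by_cases hC : sel i = C
    · rw [if_pos hC]
      split_ifs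
      · exact le_rfl
      · exact Nat.zero_le _
    · rw [if_neg (fun h => hC h.2), if_neg hC]
  refine (Finset.sum_le_sum fun C _ => h6 C).trans ?_
  rw [Finset.sum_ite_eq]
  split_ifs
  · exact le_rfl
  · exact Nat.zero_le _

end certificate

end Pool.Agent.MP_9cec2c_lc.DepthThree
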