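import Mathlib
import Pool.Agent.Lib.MP_9cec2c_lc.D3Split
import Pool.Agent.Lib.MP_9cec2c_lc.D3GadgetEx
import Pool.Agent.Lib.MP_9cec2c_lc.D4Rank

/-!
Average rank of a term under a random two-sided pattern.
-/

set_option autoImplicit false

namespace Pool.Agent.MP_9cec2c_lc.DepthThree

open Finset
open Pool.Agent.MP_9cec2c_lc.SubstRed

section num

theorem split_num (u v : ℝ) (hu0 : 0 ≤ u) (hu1 : u ≤ 1) (hv0 : 0 ≤ v) (hv1 : v ≤ 1) :
    (1 + (1 - u) * (1 - v)) ^ 100 * (u * v) ^ 17 ≤ 1 := by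
  obtain ⟨m, hm⟩ : ∃ m, m = Real.sqrt (u * v) := ⟨_, rfl⟩
  have hm0 : 0 ≤ m := by rw [hm]; exact Real.sqrt_nonneg _
  have hm2 : m ^ 2 = u * v := by rw [hm]; exact Real.sq_sqrt (mul_nonneg hu0 hv0)
  have hm1 : m ≤ 1 := by
    by_contra hcon
    push Not at hcon
    have : u * v ≤ 1 := mul_le_one₀ hu1 hv0 hv1
    nlinarith
  have h2m : 2 * m ≤ u + v := by
    have h1 : (2 * m) ^ 2 ≤ (u + v) ^ 2 := by
      rw [mul_pow, hm2]; nlinarith [sq_nonneg (u - v)]
    exact le_of_sq_le_sq h1 (by linarith)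
  have h3 : (1 - u) * (1 - v) ≤ (1 - m) ^ 2 := by nlinarith
  have h4 : 0 ≤ (1 - u) * (1 - v) := mul_nonneg (by linarith) (by linarith)
  have h5 := gap_ineq m hm0 hm1
  calc (1 + (1 - u) * (1 - v)) ^ 100 * (u * v) ^ 17
      ≤ (1 + (1 - m) ^ 2) ^ 100 * (m ^ 2) ^ 17 := by
        rw [hm2]
        have h6 : (0 : ℝ) ≤ (u * v) ^ 17 := by positivity
        have h7 : (1 + (1 - u) * (1 - v)) ^ 100 ≤ (1 + (1 - m) ^ 2) ^ 100 :=
          pow_le_pow_left₀ (by linarith) (by linarith) 100
        exact mul_le_mul_of_nonneg_right h7 h6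
    _ = ((1 + (1 - m) ^ 2) ^ 50 * m ^ 17) ^ 2 := by ring
    _ ≤ 1 := pow_le_one₀ (by positivity) h5

theorem junta_num (s a b : ℕ) (q : ℝ) (hs : 1 ≤ s) (hab : a + b ≤ s) (hq : q = 501 * s) :
    (1 + (1 - (1 - 1 / q) ^ b) * ((1 + 1 / q) ^ a - 1)) ^ 100 *
      ((1 - 1 / q) ^ (a + b)) ^ 17 ≤ 1 := by
  have hsr : (1 : ℝ) ≤ s := by exact_mod_cast hs
  have hq0 : 0 < q := by rw [hq]; positivity
  have hq1 : (501 : ℝ) ≤ q := by rw [hq]; linarith
  obtain ⟨ra, hra⟩ : ∃ ra : ℝ, ra = a / q := ⟨_, rfl⟩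
  obtain ⟨rb, hrb⟩ : ∃ rb : ℝ, rb = b / q := ⟨_, rfl⟩
  have hra0 : 0 ≤ ra := by rw [hra]; positivity
  have hrb0 : 0 ≤ rb := by rw [hrb]; positivity
  have habr : (a : ℝ) + b ≤ s := by exact_mod_cast hab
  have hr : ra + rb ≤ 1 / 501 := by
    rw [hra, hrb, ← add_div, hq, div_le_div_iff₀ (by positivity) (by norm_num)]
    linarith
  have hw0 : 0 ≤ 1 - 1 / q := by
    rw [sub_nonneg, div_le_one hq0]; linarith
  have hw1 : 1 - 1 / q ≤ 1 := by
    have : 0 ≤ 1 / q := by positivity
    linarith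
  have h1 : 1 - (1 - 1 / q) ^ b ≤ rb := by
    have := one_add_mul_le_pow (a := -(1 / q)) (by
      have h2 : 1 / q ≤ 1 := by rw [div_le_one hq0]; linarith
      linarith) b
    have h3 : 1 + -(1 / q) = 1 - 1 / q := by ring
    rw [h3] at this
    have h4 : (b : ℝ) * -(1 / q) = -rb := by rw [hrb]; ring
    linarith
  have h1' : 0 ≤ 1 - (1 - 1 / q) ^ b := by
    have := pow_le_one₀ hw0 hw1 (n := b)
    linarith
  have h2 : (1 + 1 / q) ^ a - 1 ≤ 2 * ra := by
    have h3 : (1 + 1 / q) ^ a ≤ Real.exp ra := by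
      have h4 : 1 + 1 / q ≤ Real.exp (1 / q) := by
        have := Real.add_one_le_exp (1 / q); linarith
      refine (pow_le_pow_left₀ (by positivity) h4 a).trans ?_
      rw [← Real.exp_nat_mul, hra]
      apply le_of_eq; congr 1; ring
    have h5 : Real.exp ra ≤ 1 / (1 - ra) := by
      rw [le_div_iff₀ (by linarith)]
      have h6 := Real.add_one_le_exp (-ra)
      have h7 : Real.exp ra * Real.exp (-ra) = 1 := by rw [← Real.exp_add]; simp
      have h8 := Real.exp_pos ra
      nlinarith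
    have h9 : 1 / (1 - ra) ≤ 1 + 2 * ra := by
      rw [div_le_iff₀ (by linarith)]
      nlinarith
    linarith
  have h2' : 0 ≤ (1 + 1 / q) ^ a - 1 := by
    have : 1 ≤ (1 + 1 / q) ^ a := one_le_pow₀ (by
      have : 0 ≤ 1 / q := by positivity
      linarith)
    linarith
  have h3 : (1 - (1 - 1 / q) ^ b) * ((1 + 1 / q) ^ a - 1) ≤ (ra + rb) ^ 2 / 2 := by
    calc (1 - (1 - 1 / q) ^ b) * ((1 + 1 / q) ^ a - 1) ≤ rb * (2 * ra) := by gcongr
      _ ≤ (ra + rb) ^ 2 / 2 := by nlinarith [sq_nonneg (ra - rb)]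
  have h4 : 0 ≤ (1 - (1 - 1 / q) ^ b) * ((1 + 1 / q) ^ a - 1) := mul_nonneg h1' h2'
  have h5 : 1 + (1 - (1 - 1 / q) ^ b) * ((1 + 1 / q) ^ a - 1) ≤
      Real.exp ((ra + rb) ^ 2 / 2) := by
    have := Real.add_one_le_exp ((ra + rb) ^ 2 / 2)
    linarith
  have h6 : (1 - 1 / q) ^ (a + b) ≤ Real.exp (-(ra + rb)) := by
    have h7 : 1 - 1 / q ≤ Real.exp (-(1 / q)) := by
      have := Real.add_one_le_exp (-(1 / q)); linarith
    refine (pow_le_pow_left₀ hw0 h7 (a + b)).trans ?_
    rw [← Real.exp_nat_mul, hra, hrb]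
    apply le_of_eq; congr 1; push_cast; ring
  calc (1 + (1 - (1 - 1 / q) ^ b) * ((1 + 1 / q) ^ a - 1)) ^ 100 *
      ((1 - 1 / q) ^ (a + b)) ^ 17
      ≤ (Real.exp ((ra + rb) ^ 2 / 2)) ^ 100 * (Real.exp (-(ra + rb))) ^ 17 := by
        have := pow_nonneg hw0 (a + b)
        gcongr
    _ = Real.exp (50 * (ra + rb) ^ 2 - 17 * (ra + rb)) := by
        rw [← Real.exp_nat_mul, ← Real.exp_nat_mul, ← Real.exp_add]
        congr 1; push_cast; ring
    _ ≤ 1 := by
        rw [Real.exp_le_one_iff]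
        nlinarith

end num

section avgs

variable {P α : Type*} [Fintype P] [DecidableEq P] [Fintype α] [DecidableEq α]

/-- A position with `σ p = a` is alive, on its own side. -/
def pat {P α : Type*} [DecidableEq α] (side : P → Bool) (a : α) (σ : P → α) (p : P) : Fin 3 :=
  if σ p = a then (if side p = true then 0 else 1) else 2

omit [Fintype P] [DecidableEq P] [Fintype α] in
theorem pat_zero (side : P → Bool) (a : α) (σ : P → α) (p : P) :
    pat side a σ p = 0 ↔ (side p = true ∧ σ p = a) := by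
  unfold pat
  by_cases h : σ p = a
  · by_cases h' : side p = true
    · simp [h, h']
    · simp [h, h']
  · simp [h]

omit [Fintype P] [DecidableEq P] [Fintype α] in
theorem pat_one (side : P → Bool) (a : α) (σ : P → α) (p : P) :
    pat side a σ p = 1 ↔ (side p = false ∧ σ p = a) := by
  unfold pat
  by_cases h : σ p = a
  · by_cases h' : side p = true
    · simp [h, h']
    · simp [h, h']
  · simp [h]

/-- The probability that a set contains an alive position. -/
theorem avg_exists [Nonempty α] (a : α) (B : Finset P) :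
    avg (fun σ : P → α => if ∃ p ∈ B, σ p = a then (1 : ℝ) else 0) =
      1 - (1 - 1 / (Fintype.card α : ℝ)) ^ B.card := by
  classical
  have h1 := avg_prod_coord (ι := P) (α := α) B (fun x => if x = a then (0 : ℝ) else 1)
  rw [avg_ne] at h1
  rw [← h1, ← avg_const (Ω := P → α) (1 : ℝ), ← avg_sub, avg_const]
  congr 1
  funext σ
  by_cases h : ∃ p ∈ B, σ p = a
  · rw [if_pos h]
    obtain ⟨p, hp, hpa⟩ := h
    rw [Finset.prod_eq_zero hp (by rw [if_pos hpa])]
    ring
  · rw [if_neg h]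
    push Not at h
    rw [Finset.prod_eq_one (fun p hp => by rw [if_neg (h p hp)])]
    ring

theorem avg_two_pow [Nonempty α] (a : α) (B : Finset P) :
    avg (fun σ : P → α => (2 : ℝ) ^ (B.filter (fun p => σ p = a)).card) =
      (1 + 1 / (Fintype.card α : ℝ)) ^ B.card := by
  classical
  have h1 := avg_prod_coord (ι := P) (α := α) B (fun x => if x = a then (2 : ℝ) else 1)
  rw [avg_pow_indicator] at h1
  have h2 : 1 - (1 - 2) / (Fintype.card α : ℝ) = 1 + 1 / (Fintype.card α : ℝ) := by ring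
  rw [h2] at h1
  rw [← h1]
  congr 1
  funext σ
  rw [Finset.prod_ite]
  simp

/-- The expectation for an affine factor. -/
theorem avg_split_two [Nonempty α] (side : P → Bool) (a : α) (B : Finset P) :
    avg (fun σ : P → α => if Split (0 : Fin 3) 1 (pat side a σ) B then (2 : ℝ) else 1) =
      1 + (1 - (1 - 1 / (Fintype.card α : ℝ)) ^ (B.filter (fun p => side p = true)).card) *
        (1 - (1 - 1 / (Fintype.card α : ℝ)) ^ (B.filter (fun p => side p = false)).card) := by
  classical
  rw [← avg_exists a (B.filter (fun p => side p = true)),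
    ← avg_exists a (B.filter (fun p => side p = false)), ← avg_mul_indep _ _
      (B.filter (fun p => side p = true)), ← avg_const (Ω := P → α) (1 : ℝ), ← avg_add, avg_const]
  · congr 1
    funext σ
    have e1 : (∃ p ∈ B, pat side a σ p = 0) ↔ ∃ p ∈ B.filter (fun p => side p = true), σ p = a := by
      constructor
      · rintro ⟨p, hp, h⟩
        rw [pat_zero] at h
        exact ⟨p, mem_filter.2 ⟨hp, h.1⟩, h.2⟩
      · rintro ⟨p, hp, h⟩
        rw [mem_filter] at hp
        exact ⟨p, hp.1, (pat_zero _ _ _ _).2 ⟨hp.2, h⟩⟩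
    have e2 : (∃ p ∈ B, pat side a σ p = 1) ↔ ∃ p ∈ B.filter (fun p => side p = false), σ p = a := by
      constructor
      · rintro ⟨p, hp, h⟩
        rw [pat_one] at h
        exact ⟨p, mem_filter.2 ⟨hp, h.1⟩, h.2⟩
      · rintro ⟨p, hp, h⟩
        rw [mem_filter] at hp
        exact ⟨p, hp.1, (pat_one _ _ _ _).2 ⟨hp.2, h⟩⟩
    have e3 : Split (0 : Fin 3) 1 (pat side a σ) B ↔
        (∃ p ∈ B.filter (fun p => side p = true), σ p = a) ∧
        (∃ p ∈ B.filter (fun p => side p = false), σ p = a) := and_congr e1 e2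
    rw [if_congr e3 rfl rfl]
    by_cases h1 : ∃ p ∈ B.filter (fun p => side p = true), σ p = a <;>
      by_cases h2 : ∃ p ∈ B.filter (fun p => side p = false), σ p = a <;>
      simp only [h1, h2, if_true, if_false, and_true, and_false] <;> norm_num
  · intro x y hxy
    have : (∃ p ∈ B.filter (fun p => side p = true), x p = a) ↔
        ∃ p ∈ B.filter (fun p => side p = true), y p = a := by
      constructor
      · rintro ⟨p, hp, h⟩; exact ⟨p, hp, by rw [← hxy p hp]; exact h⟩
      · rintro ⟨p, hp, h⟩; exact ⟨p, hp, by rw [hxy p hp]; exact h⟩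
    simp only [this]
  · intro x y hxy
    have hsub : ∀ p ∈ B.filter (fun p => side p = false), x p = y p := by
      intro p hp
      apply hxy
      rw [mem_compl, mem_filter]
      rw [mem_filter] at hp
      intro h
      rw [hp.2] at h
      exact Bool.noConfusion h.2
    have : (∃ p ∈ B.filter (fun p => side p = false), x p = a) ↔
        ∃ p ∈ B.filter (fun p => side p = false), y p = a := by
      constructor
      · rintro ⟨p, hp, h⟩; exact ⟨p, hp, by rw [← hsub p hp]; exact h⟩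
      · rintro ⟨p, hp, h⟩; exact ⟨p, hp, by rw [hsub p hp]; exact h⟩
    simp only [this]

/-- The expectation for a general local factor. -/
theorem avg_junta_two [Nonempty α] (side : P → Bool) (a : α) (B : Finset P) :
    avg (fun σ : P → α => if ∃ p ∈ B, pat side a σ p = 1 then
      (2 : ℝ) ^ (B.filter (fun p => pat side a σ p = 0)).card else 1) =
      1 + (1 - (1 - 1 / (Fintype.card α : ℝ)) ^ (B.filter (fun p => side p = false)).card) *
        ((1 + 1 / (Fintype.card α : ℝ)) ^ (B.filter (fun p => side p = true)).card - 1) := by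
  classical
  rw [← avg_exists a (B.filter (fun p => side p = false)),
    ← avg_two_pow a (B.filter (fun p => side p = true))]
  have h0 : avg (fun σ : P → α =>
      (2 : ℝ) ^ ((B.filter (fun p => side p = true)).filter (fun p => σ p = a)).card) - 1 =
      avg (fun σ : P → α =>
        (2 : ℝ) ^ ((B.filter (fun p => side p = true)).filter (fun p => σ p = a)).card - 1) := by
    rw [avg_sub, avg_const]
  rw [h0, ← avg_mul_indep _ _ (B.filter (fun p => side p = false)),
    ← avg_const (Ω := P → α) (1 : ℝ), ← avg_add, avg_const]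
  · congr 1
    funext σ
    have e2 : (∃ p ∈ B, pat side a σ p = 1) ↔ ∃ p ∈ B.filter (fun p => side p = false), σ p = a := by
      constructor
      · rintro ⟨p, hp, h⟩
        rw [pat_one] at h
        exact ⟨p, mem_filter.2 ⟨hp, h.1⟩, h.2⟩
      · rintro ⟨p, hp, h⟩
        rw [mem_filter] at hp
        exact ⟨p, hp.1, (pat_one _ _ _ _).2 ⟨hp.2, h⟩⟩
    have e1 : B.filter (fun p => pat side a σ p = 0) =
        (B.filter (fun p => side p = true)).filter (fun p => σ p = a) := by
      rw [filter_filter]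
      apply filter_congr
      intro p _
      exact pat_zero side a σ p
    rw [e1, if_congr e2 rfl rfl]
    by_cases h2 : ∃ p ∈ B.filter (fun p => side p = false), σ p = a
    · rw [if_pos h2, if_pos h2]; ring
    · rw [if_neg h2, if_neg h2]; ring
  · intro x y hxy
    have : (∃ p ∈ B.filter (fun p => side p = false), x p = a) ↔
        ∃ p ∈ B.filter (fun p => side p = false), y p = a := by
      constructor
      · rintro ⟨p, hp, h⟩; exact ⟨p, hp, by rw [← hxy p hp]; exact h⟩
      · rintro ⟨p, hp, h⟩; exact ⟨p, hp, by rw [hxy p hp]; exact h⟩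
    simp only [this]
  · intro x y hxy
    have hsub : ∀ p ∈ B.filter (fun p => side p = true), x p = y p := by
      intro p hp
      apply hxy
      rw [mem_compl, mem_filter]
      rw [mem_filter] at hp
      intro h
      rw [hp.2] at h
      exact Bool.noConfusion h.2
    have : (B.filter (fun p => side p = true)).filter (fun p => x p = a) =
        (B.filter (fun p => side p = true)).filter (fun p => y p = a) := by
      apply filter_congr
      intro p hp
      rw [hsub p hp]
    simp only [this]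

omit [DecidableEq α] in
/-- Products over disjoint blocks. -/
theorem avg_prod_blocks [Nonempty α] {T : Type*} [DecidableEq T] (w : ℝ) (hw0 : 0 ≤ w)
    (hw1 : w ≤ 1) (J : Finset T) (B : T → Finset P)
    (hB : ∀ t ∈ J, ∀ t' ∈ J, t ≠ t' → Disjoint (B t) (B t')) (F : T → (P → α) → ℝ)
    (hdep : ∀ t ∈ J, DependsOn' (F t) (B t)) (h0 : ∀ t ∈ J, ∀ σ, 0 ≤ F t σ)
    (hb : ∀ t ∈ J, (avg (F t)) ^ 100 * (w ^ (B t).card) ^ 17 ≤ 1) :
    (avg (fun σ : P → α => ∏ t ∈ J, F t σ)) ^ 100 * (w ^ Fintype.card P) ^ 17 ≤ 1 := by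
  classical
  rw [avg_prod_indep J F B hdep hB]
  have h2 : w ^ Fintype.card P ≤ ∏ t ∈ J, w ^ (B t).card := by
    rw [Finset.prod_pow_eq_pow_sum]
    apply pow_le_pow_of_le_one hw0 hw1
    rw [← card_biUnion hB]
    exact card_le_univ _
  have h3 : ∀ t ∈ J, 0 ≤ avg (F t) := fun t ht => avg_nonneg (h0 t ht)
  calc (∏ t ∈ J, avg (F t)) ^ 100 * (w ^ Fintype.card P) ^ 17
      ≤ (∏ t ∈ J, avg (F t)) ^ 100 * (∏ t ∈ J, w ^ (B t).card) ^ 17 := by
        have h4 := Finset.prod_nonneg h3
        gcongr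
    _ = ∏ t ∈ J, ((avg (F t)) ^ 100 * (w ^ (B t).card) ^ 17) := by
        rw [Finset.prod_mul_distrib, Finset.prod_pow, Finset.prod_pow]
    _ ≤ 1 := by
        apply Finset.prod_le_one
        · intro t ht
          have := h3 t ht
          positivity
        · exact hb

end avgs

section terms

variable {N κ n E : ℕ} {α : Type*} [DecidableEq α] [Fintype α] [Nonempty α]
  {𝕜 : Type*} [Field 𝕜]

theorem card_pos_le {e : Fin N × Fin κ → Fin n} (he : Function.Injective e)
    (T : Finset (Fin n)) : (pos e T).card ≤ T.card := by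
  classical
  refine Finset.card_le_card_of_injOn e ?_ he.injOn
  intro p hp
  rw [mem_coe] at hp ⊢
  simp only [pos, mem_filter, mem_univ, true_and] at hp
  exact hp

omit [Fintype α] [Nonempty α] in
theorem frk_dep (e : Fin N × Fin κ → Fin n) (side : Fin N × Fin κ → Bool) (a : α)
    (f : Factor n E 𝕜) (x y : Fin N × Fin κ → α) (hxy : ∀ p ∈ pos e f.vars, x p = y p) :
    frk e (0 : Fin 3) 1 (pat side a x) f = frk e (0 : Fin 3) 1 (pat side a y) f := by
  classical
  have hp : ∀ p ∈ pos e f.vars, pat side a x p = pat side a y p := by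
    intro p hp
    unfold pat
    rw [hxy p hp]
  unfold frk
  have h1 : Split (0 : Fin 3) 1 (pat side a x) (pos e f.vars) ↔
      Split (0 : Fin 3) 1 (pat side a y) (pos e f.vars) := by
    unfold Split
    constructor
    · rintro ⟨⟨p, hp1, h⟩, ⟨p', hp', h'⟩⟩
      exact ⟨⟨p, hp1, by rw [← hp p hp1]; exact h⟩, ⟨p', hp', by rw [← hp p' hp']; exact h'⟩⟩
    · rintro ⟨⟨p, hp1, h⟩, ⟨p', hp', h'⟩⟩
      exact ⟨⟨p, hp1, by rw [hp p hp1]; exact h⟩, ⟨p', hp', by rw [hp p' hp']; exact h'⟩⟩
  have h2 : (∃ p ∈ pos e f.vars, pat side a x p = 1) ↔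
      ∃ p ∈ pos e f.vars, pat side a y p = 1 := by
    constructor
    · rintro ⟨p, hp1, h⟩; exact ⟨p, hp1, by rw [← hp p hp1]; exact h⟩
    · rintro ⟨p, hp1, h⟩; exact ⟨p, hp1, by rw [hp p hp1]; exact h⟩
  have h3 : (pos e f.vars).filter (fun p => pat side a x p = 0) =
      (pos e f.vars).filter (fun p => pat side a y p = 0) := by
    apply filter_congr
    intro p hp1
    rw [hp p hp1]
  rw [if_congr h1 rfl rfl, if_congr h2 rfl rfl, h3]

omit [Fintype α] [Nonempty α] in
/-- One-sided factors have rank one. -/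
theorem frk_oneSided (e : Fin N × Fin κ → Fin n) (side : Fin N × Fin κ → Bool) (a : α)
    (hl : ∀ p, side p = true → 2 * (e p : ℕ) < n) (hr : ∀ p, side p = false → n ≤ 2 * (e p : ℕ))
    (f : Factor n E 𝕜) (hf : f.OneSided) (σ : Fin N × Fin κ → α) :
    frk e (0 : Fin 3) 1 (pat side a σ) f = 1 := by
  classical
  rcases hf with hf | hf
  · have h1 : ¬ ∃ p ∈ pos e f.vars, pat side a σ p = 1 := by
      rintro ⟨p, hp, h⟩
      rw [pat_one] at h
      simp only [pos, mem_filter, mem_univ, true_and] at hp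
      have h2 := hf _ hp
      have h3 := hr p h.1
      omega
    unfold frk
    rw [if_neg (fun hs : Split (0 : Fin 3) 1 (pat side a σ) (pos e f.vars) => h1 hs.2), if_neg h1]
    split_ifs <;> rfl
  · have h1 : ∀ p ∈ pos e f.vars, pat side a σ p ≠ 0 := by
      intro p hp h
      rw [pat_zero] at h
      simp only [pos, mem_filter, mem_univ, true_and] at hp
      have h2 := hf _ hp
      have h3 := hl p h.1
      omega
    have h4 : (pos e f.vars).filter (fun p => pat side a σ p = 0) = ∅ := by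
      rw [filter_eq_empty_iff]
      exact h1
    unfold frk
    rw [if_neg (fun hs : Split (0 : Fin 3) 1 (pat side a σ) (pos e f.vars) => by
      obtain ⟨p, hp, h⟩ := hs.1
      exact h1 p hp h), h4, card_empty, pow_zero]
    split_ifs <;> rfl

omit [Fintype α] [Nonempty α] in
theorem frk_le {e : Fin N × Fin κ → Fin n} (he : Function.Injective e)
    (side : Fin N × Fin κ → Bool) (a : α)
    (hl : ∀ p, side p = true → 2 * (e p : ℕ) < n) (hr : ∀ p, side p = false → n ≤ 2 * (e p : ℕ))
    (s : ℕ) (hs : 1 ≤ s) (f : Factor n E 𝕜) (hf : f.OneSided ∨ f.IsAffine ∨ f.vars.card ≤ s)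
    (σ : Fin N × Fin κ → α) :
    frk e (0 : Fin 3) 1 (pat side a σ) f ≤ 2 ^ s := by
  classical
  have h2s : 2 ≤ 2 ^ s := by
    calc 2 = 2 ^ 1 := by norm_num
      _ ≤ 2 ^ s := Nat.pow_le_pow_right (by norm_num) hs
  by_cases ho : f.OneSided
  · rw [frk_oneSided e side a hl hr f ho σ]
    exact Nat.one_le_two_pow
  · unfold frk
    by_cases ha : f.IsAffine
    · rw [if_pos ha]
      split_ifs <;> omega
    · rw [if_neg ha]
      have hc : f.vars.card ≤ s := by
        rcases hf with h | h | h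
        · exact absurd h ho
        · exact absurd h ha
        · exact h
      split_ifs
      · apply Nat.pow_le_pow_right (by norm_num)
        exact (card_filter_le _ _).trans ((card_pos_le he _).trans hc)
      · exact Nat.one_le_two_pow

/-- The expected rank of a factor. -/
theorem avg_frk {e : Fin N × Fin κ → Fin n} (he : Function.Injective e)
    (side : Fin N × Fin κ → Bool) (a : α)
    (s : ℕ) (hs : 1 ≤ s) (hq : Fintype.card α = 501 * s)
    (f : Factor n E 𝕜) (hf : f.IsAffine ∨ f.vars.card ≤ s) :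
    (avg (fun σ : Fin N × Fin κ → α => (frk e (0 : Fin 3) 1 (pat side a σ) f : ℝ))) ^ 100 *
      ((1 - 1 / (Fintype.card α : ℝ)) ^ (pos e f.vars).card) ^ 17 ≤ 1 := by
  classical
  have hqr : (Fintype.card α : ℝ) = 501 * s := by rw [hq]; push_cast; ring
  have hsr : (1 : ℝ) ≤ s := by exact_mod_cast hs
  have hcard : ((pos e f.vars).filter (fun p => side p = true)).card +
      ((pos e f.vars).filter (fun p => side p = false)).card = (pos e f.vars).card := by
    rw [← Finset.card_filter_add_card_filter_not (s := pos e f.vars) (fun p => side p = true)]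
    congr 2
    apply filter_congr
    intro p _
    simp
  have hq0 : (0 : ℝ) < Fintype.card α := by rw [hqr]; positivity
  have hw0 : 0 ≤ 1 - 1 / (Fintype.card α : ℝ) := by
    rw [sub_nonneg, div_le_one hq0, hqr]; linarith
  have hw1 : 1 - 1 / (Fintype.card α : ℝ) ≤ 1 := by
    have : 0 ≤ 1 / (Fintype.card α : ℝ) := by positivity
    linarith
  by_cases ha : f.IsAffine
  · have h1 : (fun σ : Fin N × Fin κ → α => (frk e (0 : Fin 3) 1 (pat side a σ) f : ℝ)) =
        fun σ => if Split (0 : Fin 3) 1 (pat side a σ) (pos e f.vars) then (2 : ℝ) else 1 := by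
      funext σ
      unfold frk
      rw [if_pos ha]
      split_ifs <;> norm_num
    rw [h1, avg_split_two, ← hcard, pow_add]
    exact split_num _ _ (pow_nonneg hw0 _) (pow_le_one₀ hw0 hw1) (pow_nonneg hw0 _)
      (pow_le_one₀ hw0 hw1)
  · have hc : f.vars.card ≤ s := hf.resolve_left ha
    have h1 : (fun σ : Fin N × Fin κ → α => (frk e (0 : Fin 3) 1 (pat side a σ) f : ℝ)) =
        fun σ => if ∃ p ∈ pos e f.vars, pat side a σ p = 1 then
          (2 : ℝ) ^ ((pos e f.vars).filter (fun p => pat side a σ p = 0)).card else 1 := by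
      funext σ
      unfold frk
      rw [if_neg ha]
      split_ifs
      · push_cast; rfl
      · norm_num
    rw [h1, avg_junta_two, ← hcard]
    apply junta_num s _ _ _ hs _ hqr
    rw [hcard]
    exact (card_pos_le he _).trans hc

/-- The expected rank of a simple term. -/
theorem avg_trk {e : Fin N × Fin κ → Fin n} (he : Function.Injective e)
    (side : Fin N × Fin κ → Bool) (a : α)
    (hl : ∀ p, side p = true → 2 * (e p : ℕ) < n) (hr : ∀ p, side p = false → n ≤ 2 * (e p : ℕ))
    (s : ℕ) (hs : 1 ≤ s) (hq : Fintype.card α = 501 * s) (d : ℝ)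
    (t : Term n E 𝕜) (ht : t.Simple s d) :
    avg (fun σ : Fin N × Fin κ → α => (trk e (0 : Fin 3) 1 (pat side a σ) t : ℝ)) ≤
      2 ^ (s * d) * ((1 - 1 / (Fintype.card α : ℝ)) ^ (N * κ)) ^ (-(17 / 100 : ℝ)) := by
  classical
  obtain ⟨hloc, X, hX, hdis⟩ := ht
  have hqr : (Fintype.card α : ℝ) = 501 * s := by rw [hq]; push_cast; ring
  have hsr : (1 : ℝ) ≤ s := by exact_mod_cast hs
  have hq0 : (0 : ℝ) < Fintype.card α := by rw [hqr]; positivity
  have hwpos : 0 < 1 - 1 / (Fintype.card α : ℝ) := by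
    rw [sub_pos, div_lt_one hq0, hqr]; linarith
  have hw1 : 1 - 1 / (Fintype.card α : ℝ) ≤ 1 := by
    have : 0 ≤ 1 / (Fintype.card α : ℝ) := by positivity
    linarith
  obtain ⟨w, hw⟩ : ∃ w : ℝ, w = (1 - 1 / (Fintype.card α : ℝ)) ^ (N * κ) := ⟨_, rfl⟩
  have hw0 : 0 < w := by rw [hw]; exact pow_pos hwpos _
  obtain ⟨Y, hY⟩ : ∃ Y : Finset (Fin t.len), Y = univ.filter
    (fun j => j ∉ X ∧ ¬ (t.factor j).OneSided) := ⟨_, rfl⟩
  have hYmem : ∀ j ∈ Y, j ∉ X ∧ ¬ (t.factor j).OneSided := by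
    intro j hj
    rw [hY, mem_filter] at hj
    exact hj.2
  have hsp := avg_prod_blocks (P := Fin N × Fin κ) (α := α) (1 - 1 / (Fintype.card α : ℝ))
    hwpos.le hw1 Y
    (fun j => pos e (t.factor j).vars) (by
      intro i hi j hj hij
      have hd := hdis i (hYmem i hi).1 j (hYmem j hj).1 hij (hYmem i hi).2 (hYmem j hj).2
      rw [Finset.disjoint_left] at hd ⊢
      intro p hp hp'
      simp only [pos, mem_filter, mem_univ, true_and] at hp hp'
      exact hd hp hp')
    (fun j σ => (frk e (0 : Fin 3) 1 (pat side a σ) (t.factor j) : ℝ))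
    (by
      intro j _ x y hxy
      show (frk e (0 : Fin 3) 1 (pat side a x) (t.factor j) : ℝ) =
        (frk e (0 : Fin 3) 1 (pat side a y) (t.factor j) : ℝ)
      rw [frk_dep e side a (t.factor j) x y hxy])
    (by intro j _ σ; exact Nat.cast_nonneg _)
    (by
      intro j hj
      refine avg_frk he side a s hs hq (t.factor j) ?_
      exact (hloc j).2.resolve_left (hYmem j hj).2)
  rw [Fintype.card_prod, Fintype.card_fin, Fintype.card_fin, ← hw] at hsp
  obtain ⟨A, hA⟩ : ∃ A : ℝ, A = avg (fun σ : Fin N × Fin κ → α =>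
    ∏ j ∈ Y, (frk e (0 : Fin 3) 1 (pat side a σ) (t.factor j) : ℝ)) := ⟨_, rfl⟩
  rw [← hA] at hsp
  have hA0 : 0 ≤ A := by
    rw [hA]
    exact avg_nonneg fun σ => Finset.prod_nonneg fun j _ => Nat.cast_nonneg _
  have hroot : A ≤ w ^ (-(17 / 100 : ℝ)) := by
    have h1 : A ^ 100 ≤ (w ^ (-(17 / 100 : ℝ))) ^ 100 := by
      rw [← Real.rpow_natCast (w ^ (-(17 / 100 : ℝ))) 100, ← Real.rpow_mul hw0.le]
      have h2 : (-(17 / 100 : ℝ)) * ((100 : ℕ) : ℝ) = -((17 : ℕ) : ℝ) := by norm_num
      rw [h2, Real.rpow_neg hw0.le, Real.rpow_natCast, ← one_div, le_div_iff₀ (by positivity)]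
      exact hsp
    exact le_of_pow_le_pow_left₀ (by norm_num) (by positivity) h1
  have h3 : ∀ σ : Fin N × Fin κ → α, (trk e (0 : Fin 3) 1 (pat side a σ) t : ℝ) ≤ 2 ^ (s * d) *
      ∏ j ∈ Y, (frk e (0 : Fin 3) 1 (pat side a σ) (t.factor j) : ℝ) := by
    intro σ
    have h4 : trk e (0 : Fin 3) 1 (pat side a σ) t ≤
        (∏ j ∈ X, 2 ^ s) * ∏ j ∈ Y, frk e (0 : Fin 3) 1 (pat side a σ) (t.factor j) := by
      unfold trk
      have h5 : ∏ j, frk e (0 : Fin 3) 1 (pat side a σ) (t.factor j) =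
          (∏ j ∈ X, frk e (0 : Fin 3) 1 (pat side a σ) (t.factor j)) *
          ∏ j ∈ Y, frk e (0 : Fin 3) 1 (pat side a σ) (t.factor j) := by
        rw [← Finset.prod_sdiff (subset_univ X), mul_comm]
        congr 1
        symm
        apply Finset.prod_subset
        · intro j hj
          rw [mem_sdiff]
          exact ⟨mem_univ _, (hYmem j hj).1⟩
        · intro j hj hjY
          apply frk_oneSided e side a hl hr
          by_contra hcon
          apply hjY
          rw [hY, mem_filter]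
          rw [mem_sdiff] at hj
          exact ⟨mem_univ _, hj.2, hcon⟩
      rw [h5]
      apply Nat.mul_le_mul_right
      exact Finset.prod_le_prod' fun j _ => frk_le he side a hl hr s hs _ (hloc j).2 σ
    have h6 : ((∏ j ∈ X, 2 ^ s : ℕ) : ℝ) ≤ 2 ^ (s * d) := by
      rw [Finset.prod_const]
      push_cast
      rw [← pow_mul, ← Real.rpow_natCast]
      apply Real.rpow_le_rpow_of_exponent_le (by norm_num)
      push_cast
      exact mul_le_mul_of_nonneg_left hX (by positivity)
    have h7 : (0 : ℝ) ≤ ∏ j ∈ Y, (frk e (0 : Fin 3) 1 (pat side a σ) (t.factor j) : ℝ) :=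
      Finset.prod_nonneg fun j _ => Nat.cast_nonneg _
    calc (trk e (0 : Fin 3) 1 (pat side a σ) t : ℝ)
        ≤ (((∏ j ∈ X, 2 ^ s) * ∏ j ∈ Y, frk e (0 : Fin 3) 1 (pat side a σ) (t.factor j) : ℕ) : ℝ) :=
          by exact_mod_cast h4
      _ = ((∏ j ∈ X, 2 ^ s : ℕ) : ℝ) *
          ∏ j ∈ Y, (frk e (0 : Fin 3) 1 (pat side a σ) (t.factor j) : ℝ) := by
          rw [Nat.cast_mul]
          congr 1
          exact Nat.cast_prod _ _
      _ ≤ _ := mul_le_mul_of_nonneg_right h6 h7
  refine (avg_mono h3).trans ?_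
  rw [avg_const_mul, ← hA, ← hw]
  exact mul_le_mul_of_nonneg_left hroot (by positivity)

end terms

end Pool.Agent.MP_9cec2c_lc.DepthThree
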