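import Mathlib
import Pool.Agent.Lib.MP_9cec2c_lc.D4Avg

/-!
Existence of a good quadratic gadget for two-sided patterns.
-/

set_option autoImplicit false

namespace Pool.Agent.MP_9cec2c_lc.DepthThree

open Finset
open Pool.Agent.MP_9cec2c_lc.SubstRed

section conc

variable {κ : ℕ} {α : Type*} [DecidableEq α] [Fintype α] [Nonempty α]

/-- Few positions of a set are alive only with small probability. -/
theorem conc_set (a : α) (β0 : ℕ) (hβ : 6 ≤ β0) (B : Finset (Fin κ))
    (hB : B.card = Fintype.card α * β0 ^ 2) :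
    avg (fun σ : Fin κ → α =>
      if (B.filter (fun i => σ i = a)).card < β0 ^ 2 - 6 * β0 then (1 : ℝ) else 0) ≤ 1 / 8 := by
  have hα : (0 : ℝ) < Fintype.card α := by exact_mod_cast Fintype.card_pos
  have hβr : (6 : ℝ) ≤ β0 := by exact_mod_cast hβ
  obtain ⟨δ, hδ⟩ : ∃ δ : ℝ, δ = 3 / (2 * β0) := ⟨_, rfl⟩
  have hδ0 : 0 < δ := by rw [hδ]; positivity
  have hδ1 : δ ≤ 1 / 4 := by
    rw [hδ, div_le_iff₀ (by positivity)]; linarith
  obtain ⟨b, hb⟩ : ∃ b : ℕ, b = β0 ^ 2 - 6 * β0 := ⟨_, rfl⟩
  have hbr : (b : ℝ) = (β0 : ℝ) ^ 2 - 6 * β0 := by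
    rw [hb, Nat.cast_sub (by nlinarith)]; push_cast; ring
  rw [← hb]
  have ht : 0 < 1 - δ := by linarith
  have h1 : ∀ σ : Fin κ → α,
      (if (B.filter (fun i => σ i = a)).card < b then (1 : ℝ) else 0) ≤
      ((1 - δ) ^ b)⁻¹ * ∏ i ∈ B, (if σ i = a then (1 - δ) else 1) := by
    intro σ
    have h2 : ∏ i ∈ B, (if σ i = a then (1 - δ) else 1) =
        (1 - δ) ^ (B.filter (fun i => σ i = a)).card := by
      rw [Finset.prod_ite]; simp
    rw [h2]
    split_ifs with h
    · rw [← div_eq_inv_mul, le_div_iff₀ (by positivity), one_mul]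
      exact pow_le_pow_of_le_one ht.le (by linarith) h.le
    · positivity
  refine (avg_mono h1).trans ?_
  rw [avg_const_mul, avg_prod_coord (ι := Fin κ) (α := α) B
    (fun x => if x = a then (1 - δ) else 1), avg_pow_indicator]
  have h6 : 0 ≤ (1 - (1 - (1 - δ)) / (Fintype.card α : ℝ)) := by
    have h7 : (1 : ℝ) ≤ Fintype.card α := by exact_mod_cast Fintype.card_pos
    have h8 : (1 - (1 - δ)) / (Fintype.card α : ℝ) ≤ 1 := by
      rw [div_le_one hα]; linarith
    linarith
  have h3 : (1 - (1 - (1 - δ)) / (Fintype.card α : ℝ)) ^ B.card ≤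
      Real.exp (-δ * (β0 : ℝ) ^ 2) := by
    have h4 : (1 - (1 - (1 - δ)) / (Fintype.card α : ℝ)) ≤ Real.exp (-(δ / Fintype.card α)) := by
      have := Real.add_one_le_exp (-(δ / (Fintype.card α : ℝ)))
      have h5 : (1 - (1 - (1 - δ)) / (Fintype.card α : ℝ)) = -(δ / Fintype.card α) + 1 := by ring
      rw [h5]; exact this
    refine (pow_le_pow_left₀ h6 h4 B.card).trans ?_
    rw [← Real.exp_nat_mul, hB]
    apply le_of_eq
    congr 1
    push_cast
    field_simp
  have h9 : ((1 - δ) ^ b)⁻¹ ≤ Real.exp (b * (δ + 2 * δ ^ 2)) := by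
    rw [inv_le_comm₀ (by positivity) (Real.exp_pos _), ← Real.exp_neg]
    have h10 : Real.exp (-(δ + 2 * δ ^ 2)) ≤ 1 - δ := by
      rw [← Real.le_log_iff_exp_le ht]
      have h11 := Real.one_sub_inv_le_log_of_pos ht
      refine le_trans ?_ h11
      have h12 : 1 - (1 - δ)⁻¹ = -(δ / (1 - δ)) := by field_simp; ring
      rw [h12, neg_le_neg_iff, div_le_iff₀ ht]
      nlinarith [mul_pos hδ0 hδ0]
    have h13 := pow_le_pow_left₀ (Real.exp_pos _).le h10 b
    rw [← Real.exp_nat_mul] at h13
    refine le_trans (le_of_eq ?_) h13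
    congr 1; ring
  calc ((1 - δ) ^ b)⁻¹ * (1 - (1 - (1 - δ)) / (Fintype.card α : ℝ)) ^ B.card
      ≤ Real.exp (b * (δ + 2 * δ ^ 2)) * Real.exp (-δ * (β0 : ℝ) ^ 2) := by
        have : 0 ≤ ((1 - δ) ^ b)⁻¹ := by positivity
        have h30 := pow_nonneg h6 B.card
        gcongr
    _ = Real.exp (b * (δ + 2 * δ ^ 2) + -δ * (β0 : ℝ) ^ 2) := by rw [Real.exp_add]
    _ ≤ Real.exp (-3) := by
        apply Real.exp_le_exp.2
        have h14 : δ * β0 = 3 / 2 := by rw [hδ]; field_simp
        have h15 : (b : ℝ) ≤ (β0 : ℝ) ^ 2 := by rw [hbr]; nlinarith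
        have h16 : (b : ℝ) * (2 * δ ^ 2) ≤ 9 / 2 := by
          have : (b : ℝ) * (2 * δ ^ 2) ≤ (β0 : ℝ) ^ 2 * (2 * δ ^ 2) := by gcongr
          have h17 : (β0 : ℝ) ^ 2 * (2 * δ ^ 2) = 2 * (δ * β0) ^ 2 := by ring
          rw [h17, h14] at this
          linarith
        have h18 : (b : ℝ) * δ + -δ * (β0 : ℝ) ^ 2 = -6 * (δ * β0) := by rw [hbr]; ring
        rw [h14] at h18
        have h19 : (b : ℝ) * (δ + 2 * δ ^ 2) + -δ * (β0 : ℝ) ^ 2 =
          ((b : ℝ) * δ + -δ * (β0 : ℝ) ^ 2) + (b : ℝ) * (2 * δ ^ 2) := by ring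
        rw [h19, h18]
        linarith
    _ ≤ 1 / 8 := by
        have h20 : (8 : ℝ) ≤ Real.exp 3 := by
          have h21 : (2 : ℝ) ≤ Real.exp 1 := by
            have := Real.add_one_le_exp (1 : ℝ); linarith
          have h22 : Real.exp 3 = Real.exp 1 ^ 3 := by
            rw [← Real.exp_nat_mul]; norm_num
          rw [h22]
          calc (8 : ℝ) = 2 ^ 3 := by norm_num
            _ ≤ Real.exp 1 ^ 3 := by gcongr
        rw [Real.exp_neg, inv_eq_one_div]
        exact one_div_le_one_div_of_le (by norm_num) h20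

/-- There is a quadratic form which is good for at least half of all two-sided patterns. -/
theorem gadget_exists_two (a : α) (β0 : ℕ) (hβ : 6 ≤ β0) (side : Fin κ → Bool)
    (hl : (univ.filter (fun i => side i = true)).card = Fintype.card α * β0 ^ 2)
    (hr : (univ.filter (fun i => side i = false)).card = Fintype.card α * β0 ^ 2) :
    ∃ L : Fin κ → (Fin κ → ZMod 2),
      1 / 2 ≤ pr (fun σ : Fin κ → α =>
        2 ^ (β0 ^ 2 - 6 * β0) ≤ 16 * (wset L (0 : Fin 3) 1 (pat side a σ)).card) := by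
  classical
  obtain ⟨b, hb⟩ : ∃ b : ℕ, b = β0 ^ 2 - 6 * β0 := ⟨_, rfl⟩
  rw [← hb]
  have hX := conc_set a β0 hβ (univ.filter (fun i => side i = true)) hl
  have hY := conc_set a β0 hβ (univ.filter (fun i => side i = false)) hr
  rw [← hb] at hX hY
  have eX : ∀ σ : Fin κ → α, (univ.filter (fun i => pat side a σ i = 0)) =
      (univ.filter (fun i => side i = true)).filter (fun i => σ i = a) := by
    intro σ
    rw [filter_filter]
    apply filter_congr
    intro p _
    exact pat_zero side a σ p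
  have eY : ∀ σ : Fin κ → α, (univ.filter (fun i => pat side a σ i = 1)) =
      (univ.filter (fun i => side i = false)).filter (fun i => σ i = a) := by
    intro σ
    rw [filter_filter]
    apply filter_congr
    intro p _
    exact pat_one side a σ p
  -- average of the bad indicator
  obtain ⟨bad, hbad⟩ : ∃ bad : (Fin κ → (Fin κ → ZMod 2)) → (Fin κ → α) → ℝ, bad = fun L σ =>
    (if ¬ 2 ^ b ≤ 16 * (wset L (0 : Fin 3) 1 (pat side a σ)).card then (1 : ℝ) else 0) :=
    ⟨_, rfl⟩
  have h1 : avg (fun L => avg (bad L)) ≤ 3 / 8 := by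
    have h2 : avg (fun L => avg (bad L)) = avg (fun σ => avg (fun L => bad L σ)) := by
      unfold avg
      simp only [← Finset.sum_div]
      rw [Finset.sum_comm, div_right_comm]
    rw [h2]
    have h3 : ∀ σ, avg (fun L => bad L σ) ≤
        (if ((univ.filter (fun i => side i = true)).filter (fun i => σ i = a)).card < b then
          (1 : ℝ) else 0) +
        (if ((univ.filter (fun i => side i = false)).filter (fun i => σ i = a)).card < b then
          (1 : ℝ) else 0) + 1 / 8 := by
      intro σ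
      have h4 : avg (fun L => bad L σ) =
          pr (fun L : Fin κ → (Fin κ → ZMod 2) =>
            ¬ 2 ^ b ≤ 16 * (wset L (0 : Fin 3) 1 (pat side a σ)).card) := by
        rw [← avg_indicator, hbad]
      rw [h4]
      by_cases hx : ((univ.filter (fun i => side i = true)).filter (fun i => σ i = a)).card < b
      · have := pr_le_one (fun L : Fin κ → (Fin κ → ZMod 2) =>
          ¬ 2 ^ b ≤ 16 * (wset L (0 : Fin 3) 1 (pat side a σ)).card)
        rw [if_pos hx]
        split_ifs <;> linarith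
      · by_cases hy : ((univ.filter (fun i => side i = false)).filter
          (fun i => σ i = a)).card < b
        · have := pr_le_one (fun L : Fin κ → (Fin κ → ZMod 2) =>
            ¬ 2 ^ b ≤ 16 * (wset L (0 : Fin 3) 1 (pat side a σ)).card)
          rw [if_pos hy]
          split_ifs <;> linarith
        · rw [if_neg hx, if_neg hy]
          have := pr_bad_L (0 : Fin 3) 1 (by decide) (pat side a σ) b
            (by rw [eX]; exact not_lt.1 hx) (by rw [eY]; exact not_lt.1 hy)
          linarith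
    refine (avg_mono h3).trans ?_
    rw [avg_add, avg_add, avg_const]
    linarith
  -- pick a good form
  have h5 : ∃ L, avg (bad L) ≤ 3 / 8 := by
    by_contra hcon
    push Not at hcon
    have h6 : avg (fun _ : Fin κ → (Fin κ → ZMod 2) => (3 / 8 : ℝ)) <
        avg (fun L => avg (bad L)) := by
      unfold avg
      have hpos : (0 : ℝ) < Fintype.card (Fin κ → (Fin κ → ZMod 2)) := by
        exact_mod_cast Fintype.card_pos
      rw [div_lt_div_iff_of_pos_right hpos]
      exact Finset.sum_lt_sum_of_nonempty univ_nonempty fun L _ => hcon L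
    rw [avg_const] at h6
    linarith
  obtain ⟨L, hL⟩ := h5
  refine ⟨L, ?_⟩
  have h7 : avg (bad L) = 1 - pr (fun σ : Fin κ → α =>
      2 ^ b ≤ 16 * (wset L (0 : Fin 3) 1 (pat side a σ)).card) := by
    rw [← avg_indicator, hbad]
    have h9 : ∀ σ : Fin κ → α,
        (if ¬ 2 ^ b ≤ 16 * (wset L (0 : Fin 3) 1 (pat side a σ)).card then (1 : ℝ) else 0) =
        1 - (if 2 ^ b ≤ 16 * (wset L (0 : Fin 3) 1 (pat side a σ)).card then (1 : ℝ) else 0) := by
      intro σ
      by_cases h : 2 ^ b ≤ 16 * (wset L (0 : Fin 3) 1 (pat side a σ)).card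
      · rw [if_neg (not_not.2 h), if_pos h]; norm_num
      · rw [if_pos h, if_neg h]; norm_num
    simp only [h9]
    rw [avg_sub, avg_const]
  linarith

end conc

end Pool.Agent.MP_9cec2c_lc.DepthThree
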