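import Mathlib
import Pool.Agent.Lib.MP_9cec2c_lc.D3Final
import Pool.Agent.Lib.MP_9cec2c_lc.D4Gadget

/-!
Assembly of the lower bound for certificates.
-/

set_option autoImplicit false

namespace Pool.Agent.MP_9cec2c_lc.DepthThree

open Finset
open Pool.Agent.MP_9cec2c_lc.SubstRed

section embed

variable {N κ' κ n : ℕ}

/-- The position of a variable of a gadget among all variables. -/
def emb (κ' : ℕ) (N κ n : ℕ) (p : Fin N × Fin κ) : ℕ :=
  if (p.2 : ℕ) < κ' then (p.1 : ℕ) * κ' + (p.2 : ℕ)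
  else n - 1 - ((p.1 : ℕ) * κ' + ((p.2 : ℕ) - κ'))

theorem row_lt (j N i κ' : ℕ) (hj : j < N) (hi : i < κ') : j * κ' + i < N * κ' := by
  have h1 : (j + 1) * κ' ≤ N * κ' := Nat.mul_le_mul_right _ hj
  have h2 : (j + 1) * κ' = j * κ' + κ' := by ring
  omega

theorem row_inj (j j' i i' κ' : ℕ) (hi : i < κ') (hi' : i' < κ')
    (h : j * κ' + i = j' * κ' + i') : j = j' ∧ i = i' := by
  have hpos : 0 < κ' := by omega
  have h1 : (j * κ' + i) / κ' = j := by
    rw [mul_comm, Nat.mul_add_div hpos, Nat.div_eq_of_lt hi, add_zero]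
  have h2 : (j' * κ' + i') / κ' = j' := by
    rw [mul_comm, Nat.mul_add_div hpos, Nat.div_eq_of_lt hi', add_zero]
  have h3 : j = j' := by rw [← h1, ← h2, h]
  subst h3
  exact ⟨rfl, by omega⟩

theorem exists_emb (hκ : κ = 2 * κ') (hn : N * κ ≤ n) :
    ∃ e : Fin N × Fin κ → Fin n, Function.Injective e ∧
      (∀ p, decide ((p.2 : ℕ) < κ') = true → 2 * (e p : ℕ) < n) ∧
      (∀ p, decide ((p.2 : ℕ) < κ') = false → n ≤ 2 * (e p : ℕ)) := by
  have hnn : 2 * (N * κ') ≤ n := by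
    have : N * κ = 2 * (N * κ') := by rw [hκ]; ring
    omega
  have hl : ∀ p : Fin N × Fin κ, (p.2 : ℕ) < κ' → (p.1 : ℕ) * κ' + (p.2 : ℕ) < N * κ' :=
    fun p hp => row_lt _ _ _ _ p.1.2 hp
  have hr : ∀ p : Fin N × Fin κ, ¬ (p.2 : ℕ) < κ' →
      (p.1 : ℕ) * κ' + ((p.2 : ℕ) - κ') < N * κ' := fun p hp =>
    row_lt _ _ _ _ p.1.2 (by have := p.2.2; omega)
  have hlt : ∀ p : Fin N × Fin κ, emb κ' N κ n p < n := by
    intro p
    unfold emb
    split_ifs with h
    · have := hl p h; omega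
    · have := hr p h; omega
  refine ⟨fun p => ⟨emb κ' N κ n p, hlt p⟩, ?_, ?_, ?_⟩
  · intro p p' h
    have h1 : emb κ' N κ n p = emb κ' N κ n p' := congrArg Fin.val h
    unfold emb at h1
    by_cases hp : (p.2 : ℕ) < κ' <;> by_cases hp' : (p'.2 : ℕ) < κ'
    · rw [if_pos hp, if_pos hp'] at h1
      have h2 := row_inj _ _ _ _ κ' hp hp' h1
      exact Prod.ext (Fin.ext h2.1) (Fin.ext h2.2)
    · rw [if_pos hp, if_neg hp'] at h1
      have h2 := hl p hp
      have h3 := hr p' hp'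
      omega
    · rw [if_neg hp, if_pos hp'] at h1
      have h2 := hl p' hp'
      have h3 := hr p hp
      omega
    · rw [if_neg hp, if_neg hp'] at h1
      have h3 := hr p hp
      have h3' := hr p' hp'
      have h4 : (p.1 : ℕ) * κ' + ((p.2 : ℕ) - κ') = (p'.1 : ℕ) * κ' + ((p'.2 : ℕ) - κ') := by
        omega
      have hq : (p.2 : ℕ) - κ' < κ' := by have := p.2.2; omega
      have hq' : (p'.2 : ℕ) - κ' < κ' := by have := p'.2.2; omega
      have h2 := row_inj _ _ _ _ κ' hq hq' h4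
      exact Prod.ext (Fin.ext h2.1) (Fin.ext (by omega))
  · intro p hp
    rw [decide_eq_true_iff] at hp
    show 2 * emb κ' N κ n p < n
    unfold emb
    rw [if_pos hp]
    have := hl p hp
    omega
  · intro p hp
    rw [decide_eq_false_iff_not] at hp
    show n ≤ 2 * emb κ' N κ n p
    unfold emb
    rw [if_neg hp]
    have := hr p hp
    omega

theorem card_side (hκ : κ = 2 * κ') :
    ((univ : Finset (Fin κ)).filter (fun i : Fin κ => decide ((i : ℕ) < κ') = true)).card = κ' ∧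
    ((univ : Finset (Fin κ)).filter (fun i : Fin κ => decide ((i : ℕ) < κ') = false)).card = κ' := by
  have h1 : ((univ : Finset (Fin κ)).filter (fun i : Fin κ => decide ((i : ℕ) < κ') = true)).card = κ' := by
    have h2 : ((univ : Finset (Fin κ)).filter (fun i : Fin κ => decide ((i : ℕ) < κ') = true)) =
        (univ : Finset (Fin κ')).map (Fin.castLEEmb (by omega)) := by
      ext i
      simp only [mem_filter, mem_univ, true_and, decide_eq_true_iff, mem_map]
      constructor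
      · intro h
        exact ⟨⟨i, h⟩, Fin.ext rfl⟩
      · rintro ⟨j, rfl⟩
        exact j.2
    rw [h2, card_map, card_univ, Fintype.card_fin]
  refine ⟨h1, ?_⟩
  have h3 := Finset.card_filter_add_card_filter_not (s := (univ : Finset (Fin κ)))
    (fun i : Fin κ => decide ((i : ℕ) < κ') = true)
  rw [h1, card_univ, Fintype.card_fin] at h3
  have h4 : ((univ : Finset (Fin κ)).filter (fun i : Fin κ => decide ((i : ℕ) < κ') = false)) =
      ((univ : Finset (Fin κ)).filter (fun i : Fin κ => ¬ decide ((i : ℕ) < κ') = true)) := by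
    apply filter_congr
    intro i _
    simp
  rw [h4]
  omega

end embed

section final

universe u

theorem lin_step4 (N y d : ℝ) (hN : 1073741824 ≤ N)
    (hy : 99939996 * ((499 / 1000 : ℝ) * N - 1) ≤ y)
    (hd : d ≤ 100200 * (N + 1)) : 49400000 * N ≤ y - 3 * N - 1 - 4 * d := by linarith

theorem lin_contra4 (l2 N x : ℝ) (h : l2 * x < 34068000 * N) (hx : 49400000 * N ≤ x)
    (hl : 0.693 < l2) (hN : 0 < N) : False := by
  have h1 : 0 < x := by nlinarith
  have h2 : 0.693 * x ≤ l2 * x := mul_le_mul_of_nonneg_right hl.le h1.le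
  nlinarith

/-- A bound for the root of a power of `1 - 1 / q`. -/
theorem w_low (q s N κ' κ : ℕ) (hs : 1 ≤ s) (hq : q = 501 * s) (hκ' : κ' = q * (10 ^ 4) ^ 2)
    (hκ : κ = 2 * κ') : ((1 - 1 / (q : ℝ)) ^ (N * κ)) ^ (-(17 / 100 : ℝ)) ≤
      Real.exp (34068000 * N) := by
  have hsr : (1 : ℝ) ≤ s := by exact_mod_cast hs
  have hqr : (q : ℝ) = 501 * s := by rw [hq]; push_cast; ring
  have hq1 : (501 : ℝ) ≤ q := by rw [hqr]; linarith
  have hq0 : (0 : ℝ) < q := by linarith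
  have hpos : 0 < 1 - 1 / (q : ℝ) := by
    rw [sub_pos, div_lt_one hq0]; linarith
  have hκr : (κ : ℝ) = 2 * (q * 10 ^ 8) := by
    rw [hκ, hκ']; push_cast; norm_num
  have h15 : Real.exp (-(200400000 * N)) ≤ (1 - 1 / (q : ℝ)) ^ (N * κ) := by
    have h16 : Real.exp (-(1 / ((q : ℝ) - 1))) ≤ 1 - 1 / (q : ℝ) := by
      rw [← Real.le_log_iff_exp_le hpos]
      refine le_trans (le_of_eq ?_) (Real.one_sub_inv_le_log_of_pos hpos)
      have h1 : (q : ℝ) - 1 ≠ 0 := by linarith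
      have h2 : (q : ℝ) ≠ 0 := by linarith
      have h3 : 1 - 1 / (q : ℝ) = ((q : ℝ) - 1) / q := by field_simp
      rw [h3, inv_div]
      field_simp
      ring
    refine le_trans ?_ (pow_le_pow_left₀ (Real.exp_pos _).le h16 (N * κ))
    rw [← Real.exp_nat_mul]
    apply Real.exp_le_exp.2
    rw [Nat.cast_mul, hκr]
    have h4 : (q : ℝ) / ((q : ℝ) - 1) ≤ 501 / 500 := by
      rw [div_le_div_iff₀ (by linarith) (by norm_num)]
      linarith
    have h5 : (N : ℝ) * (2 * ((q : ℝ) * 10 ^ 8)) * -(1 / ((q : ℝ) - 1)) =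
        -((N : ℝ) * 200000000 * ((q : ℝ) / ((q : ℝ) - 1))) := by ring
    rw [h5, neg_le_neg_iff]
    have h6 : (0 : ℝ) ≤ (N : ℝ) * 200000000 := by positivity
    calc (N : ℝ) * 200000000 * ((q : ℝ) / ((q : ℝ) - 1)) ≤ (N : ℝ) * 200000000 * (501 / 500) :=
          mul_le_mul_of_nonneg_left h4 h6
      _ = 200400000 * N := by ring
  calc ((1 - 1 / (q : ℝ)) ^ (N * κ)) ^ (-(17 / 100 : ℝ))
      ≤ (Real.exp (-(200400000 * N))) ^ (-(17 / 100 : ℝ)) :=
        Real.rpow_le_rpow_of_nonpos (Real.exp_pos _) h15 (by norm_num)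
    _ = Real.exp (34068000 * N) := by
        rw [← Real.exp_mul]; congr 1; ring

/-- The lower bound for one number of variables. -/
theorem final_bound4 (s q β0 κ' κ N n : ℕ) (hs : 1 ≤ s) (hβ : β0 = 10 ^ 4) (hq : q = 501 * s)
    (hκ' : κ' = q * β0 ^ 2) (hκ : κ = 2 * κ')
    (hN : 2 ^ 30 ≤ N) (hn1 : N * κ ≤ n) (hn2 : n ≤ (N + 1) * κ) :
    ∃ F : Finset (Clause n), (∀ a, ∃ C ∈ F, Falsifies a C) ∧
      F.card ≤ (N + 1) * 2 ^ (κ * (2 * 2 ^ 34)) ∧ (∀ C ∈ F, C.card ≤ κ * (2 * 2 ^ 34)) ∧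
      ∀ (𝕜 : Type u) [Field 𝕜], (2 : 𝕜) ≠ 0 → ∀ (E m : ℕ) (D : Fin E → Gate n E)
        (P : Fin m → Term n E 𝕜), (E : ℝ) ≤ (n : ℝ) / (10 ^ 6 * s) → Ordered D →
        (∀ i, (P i).Simple s ((n : ℝ) / (10 ^ 6 * s ^ 2))) → IsCertificate F D P →
        (2 : ℝ) ^ ((n : ℝ) / (10 ^ 6 * s)) ≤ m := by
  classical
  obtain ⟨J, hJ1, hJ2⟩ := code_exists N hN
  obtain ⟨b, hb⟩ := exists_rhs J
  have hq0 : 0 < q := by omega
  obtain ⟨side, hside⟩ : ∃ side : Fin κ → Bool, side = fun i : Fin κ => decide ((i : ℕ) < κ') := ⟨_, rfl⟩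
  obtain ⟨a0, _⟩ : ∃ a0 : Fin q, a0 = ⟨0, hq0⟩ := ⟨_, rfl⟩
  have hnonempty : Nonempty (Fin q) := ⟨a0⟩
  have hcs := card_side hκ
  obtain ⟨L, hL⟩ := gadget_exists_two (κ := κ) (α := Fin q) a0 β0 (by omega) side
    (by rw [hside, Fintype.card_fin, ← hκ']; exact hcs.1)
    (by rw [hside, Fintype.card_fin, ← hκ']; exact hcs.2)
  obtain ⟨e, he, hel, her⟩ := exists_emb hκ hn1
  refine ⟨cnf e J L b, unsat_cnf e J L b hb, card_cnf e J L b, width_cnf e J L b, ?_⟩
  intro 𝕜 _ h2 E m D P hE hD hP hcert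
  obtain ⟨side2, hside2⟩ : ∃ side2 : Fin N × Fin κ → Bool, side2 = fun p => side p.2 := ⟨_, rfl⟩
  have hl2 : ∀ p, side2 p = true → 2 * (e p : ℕ) < n := by
    intro p hp
    rw [hside2, hside] at hp
    exact hel p hp
  have hr2 : ∀ p, side2 p = false → n ≤ 2 * (e p : ℕ) := by
    intro p hp
    rw [hside2, hside] at hp
    exact her p hp
  have hsr : (1 : ℝ) ≤ s := by exact_mod_cast hs
  have hNr : (2 : ℝ) ^ 30 ≤ N := by exact_mod_cast hN
  have hNr0 : (0 : ℝ) < N := by linarith [show (0 : ℝ) < 2 ^ 30 by positivity]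
  have hκr : (κ : ℝ) = 100200000000 * s := by
    rw [hκ, hκ', hq, hβ]; push_cast; ring
  obtain ⟨d, hd⟩ : ∃ d : ℝ, d = (n : ℝ) / (10 ^ 6 * s) := ⟨_, rfl⟩
  have hsd : (s : ℝ) * ((n : ℝ) / (10 ^ 6 * s ^ 2)) = d := by
    rw [hd]; field_simp
  rw [← hd] at hE ⊢
  have hd1 : d ≤ 100200 * (N + 1) := by
    have h3 : (n : ℝ) ≤ (N + 1) * κ := by exact_mod_cast hn2
    rw [hκr] at h3
    rw [hd, div_le_iff₀ (by positivity)]
    linarith
  obtain ⟨W, hW⟩ : ∃ W : ℕ, W = 499 * N / 1000 := ⟨_, rfl⟩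
  have hWr : (499 / 1000 : ℝ) * N - 1 ≤ W := by
    have h3 : 499 * N ≤ 1000 * W + 999 := by omega
    have h4 : (499 * N : ℝ) ≤ 1000 * W + 999 := by exact_mod_cast h3
    linarith
  have hW' : ∀ I : Finset (Fin (N + 1)), I.card = N / 2 ^ 30 →
      W ≤ (univ.filter (fun j => vec I J j ≠ 0)).card := by
    intro I hI
    have := hJ2 I hI
    omega
  obtain ⟨B, hB⟩ : ∃ B : ℕ, B = β0 ^ 2 - 6 * β0 := ⟨_, rfl⟩
  rw [← hB] at hL
  have hBr : (B : ℝ) = 99940000 := by
    have : B = 99940000 := by rw [hB, hβ]; norm_num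
    rw [this]; norm_num
  have hB5 : 5 ≤ B := by
    have : (5 : ℝ) ≤ B := by rw [hBr]; norm_num
    exact_mod_cast this
  have hne3 : (0 : Fin 3) ≠ 1 := by decide
  -- total rank
  obtain ⟨T, hT⟩ : ∃ T : (Fin N × Fin κ → Fin q) → ℝ, T = fun σ =>
      ∑ i, (trk e (0 : Fin 3) 1 (pat side2 a0 σ) (P i) : ℝ) := ⟨_, rfl⟩
  obtain ⟨w, hw⟩ : ∃ w : ℝ, w = (1 - 1 / (q : ℝ)) ^ (N * κ) := ⟨_, rfl⟩
  -- upper bound for the average
  have hup : avg T ≤ m * (2 ^ d * w ^ (-(17 / 100 : ℝ))) := by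
    rw [hT, avg_sum]
    have h5 : ∀ i ∈ (univ : Finset (Fin m)), avg (fun σ : Fin N × Fin κ → Fin q =>
        (trk e (0 : Fin 3) 1 (pat side2 a0 σ) (P i) : ℝ)) ≤ 2 ^ d * w ^ (-(17 / 100 : ℝ)) := by
      intro i _
      have h6 := avg_trk he side2 a0 hl2 hr2 s hs (by rw [Fintype.card_fin, hq]) _ (P i) (hP i)
      rw [hsd, Fintype.card_fin, ← hw] at h6
      exact h6
    refine (Finset.sum_le_card_nsmul _ _ _ h5).trans (le_of_eq ?_)
    rw [card_univ, Fintype.card_fin, nsmul_eq_mul]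
  -- lower bound for the average
  obtain ⟨y, hy⟩ : ∃ y : ℝ, y = ((B - 4 : ℕ) : ℝ) * W := ⟨_, rfl⟩
  have hlow : (2 : ℝ) ^ y * (1 / 2) ^ N / (2 ^ (2 * N + 1) * 4 ^ E) ≤ avg T := by
    have hall := pr_all_good (N := N) (κ := κ) (α := Fin q)
      (fun v => 2 ^ B ≤ 16 * (wset L (0 : Fin 3) 1 (pat side a0 v)).card) hL
    have h7 : ∀ σ : Fin N × Fin κ → Fin q,
        ((2 : ℝ) ^ y / (2 ^ (2 * N + 1) * 4 ^ E)) *
          (if ∀ j, 2 ^ B ≤ 16 * (wset L (0 : Fin 3) 1 (pat side a0 (fun i => σ (j, i)))).card then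
            (1 : ℝ) else 0) ≤ T σ := by
      intro σ
      have hT0 : T σ = ((∑ i, trk e (0 : Fin 3) 1 (pat side2 a0 σ) (P i) : ℕ) : ℝ) := by
        rw [hT]; push_cast; rfl
      split_ifs with hgood
      · have h8 := cert_bound h2 he L (0 : Fin 3) 1 hne3 (pat side2 a0 σ) J b (N / 2 ^ 30) hJ1 W hW'
          (2 ^ (B - 5)) Nat.one_le_two_pow (fun j => by
            have h9 := hgood j
            have h10 : 2 ^ B = 16 * (2 * 2 ^ (B - 5)) := by
              have : B = (B - 5) + 1 + 4 := by omega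
              conv_lhs => rw [this]
              rw [pow_add, pow_add]; ring
            rw [h10] at h9
            unfold wc
            have h20 : (fun i => pat side2 a0 σ (j, i)) = pat side a0 (fun i => σ (j, i)) := by
              rw [hside2]; rfl
            rw [h20]
            exact Nat.le_of_mul_le_mul_left h9 (by norm_num)) D hD P
              (fun i j => ((hP i).1 j).1) hcert
        have h11 : (2 * 2 ^ (B - 5)) ^ W = 2 ^ ((B - 4) * W) := by
          have : 2 * 2 ^ (B - 5) = 2 ^ (B - 4) := by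
            rw [show B - 4 = (B - 5) + 1 by omega, pow_succ]; ring
          rw [this, ← pow_mul]
        rw [h11] at h8
        have h12 := (Nat.cast_le (α := ℝ)).2 h8
        rw [Nat.cast_mul, Nat.cast_mul, ← hT0, Nat.cast_pow, Nat.cast_pow, Nat.cast_pow,
          Nat.cast_ofNat, Nat.cast_ofNat] at h12
        rw [mul_one, div_le_iff₀ (by positivity)]
        have h13 : (2 : ℝ) ^ y = 2 ^ ((B - 4) * W) := by
          rw [hy, ← Real.rpow_natCast]
          congr 1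
          push_cast
          rfl
        rw [h13]
        linarith
      · rw [mul_zero, hT0]
        exact Nat.cast_nonneg _
    have h14 := avg_mono h7
    rw [avg_const_mul, avg_indicator] at h14
    refine le_trans ?_ h14
    rw [mul_div_right_comm]
    exact mul_le_mul_of_nonneg_left hall (by positivity)
  -- compare
  by_contra hcon
  push Not at hcon
  have hlog2a := Real.log_two_gt_d9
  have hwlow : w ^ (-(17 / 100 : ℝ)) ≤ Real.exp (34068000 * N) := by
    rw [hw]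
    exact w_low q s N κ' κ hs hq (by rw [hκ', hβ]) hκ
  have hcomb : (2 : ℝ) ^ y * (1 / 2) ^ N / (2 ^ (2 * N + 1) * 4 ^ E) ≤
      m * (2 ^ d * Real.exp (34068000 * N)) := by
    refine hlow.trans (hup.trans ?_)
    gcongr
  have hcomb2 : (2 : ℝ) ^ y * (1 / 2) ^ N / (2 ^ (2 * N + 1) * 4 ^ E) <
      2 ^ d * (2 ^ d * Real.exp (34068000 * N)) := by
    refine lt_of_le_of_lt hcomb ?_
    have : (0 : ℝ) < 2 ^ d * Real.exp (34068000 * N) := by positivity
    exact mul_lt_mul_of_pos_right hcon this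
  have he1 : ∀ x : ℝ, (2 : ℝ) ^ x = Real.exp (Real.log 2 * x) := fun x => by
    rw [Real.rpow_def_of_pos (by norm_num)]
  have he2 : (1 / 2 : ℝ) ^ N = Real.exp (-(Real.log 2 * N)) := by
    rw [Real.exp_neg, mul_comm, Real.exp_nat_mul, Real.exp_log (by norm_num), one_div, inv_pow]
  have he3 : ((2 : ℝ) ^ (2 * N + 1) * 4 ^ E)⁻¹ =
      Real.exp (-(Real.log 2 * (2 * N + 1 + 2 * E))) := by
    have h16 : (4 : ℝ) ^ E = 2 ^ (2 * E) := by rw [pow_mul]; norm_num
    rw [h16, ← pow_add]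
    have h17 : Real.log 2 * (2 * (N : ℝ) + 1 + 2 * E) =
        ((2 * N + 1 + 2 * E : ℕ) : ℝ) * Real.log 2 := by
      push_cast; ring
    rw [h17, Real.exp_neg, Real.exp_nat_mul, Real.exp_log (by norm_num)]
  rw [div_eq_mul_inv, he3, he2, he1, he1, ← Real.exp_add, ← Real.exp_add, ← Real.exp_add,
    ← Real.exp_add] at hcomb2
  rw [Real.exp_lt_exp] at hcomb2
  have hB4 : ((B - 4 : ℕ) : ℝ) = 99939996 := by
    have h20 : ((B - 4 : ℕ) : ℝ) + ((4 : ℕ) : ℝ) = (B : ℝ) := by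
      rw [← Nat.cast_add]
      congr 1
      omega
    rw [hBr] at h20
    have h21 : ((4 : ℕ) : ℝ) = 4 := by norm_num
    rw [h21] at h20
    linarith
  have hy1 : 99939996 * ((499 / 1000 : ℝ) * N - 1) ≤ y := by
    rw [hy, hB4]
    exact mul_le_mul_of_nonneg_left hWr (by norm_num)
  have hl20 : 0 ≤ Real.log 2 := by linarith
  have hkey : Real.log 2 * (y - 3 * N - 1 - 4 * d) < 34068000 * N := by
    have h22 : Real.log 2 * (y - 3 * N - 1 - 4 * d) =
        (Real.log 2 * y + -(Real.log 2 * N) + -(Real.log 2 * (2 * N + 1 + 2 * E))) +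
          Real.log 2 * (2 * E - 2 * d) - (Real.log 2 * d + Real.log 2 * d) := by ring
    have h23 : Real.log 2 * (2 * E - 2 * d) ≤ 0 :=
      mul_nonpos_of_nonneg_of_nonpos hl20 (by linarith)
    rw [h22]
    clear hL hJ1 hJ2 hW' hlow hup
    linarith [hcomb2]
  have h18 : (2 : ℝ) ^ 30 = 1073741824 := by norm_num
  rw [h18] at hNr
  exact lin_contra4 _ _ _ hkey (lin_step4 N y d hNr hy1 hd1)
    (lt_trans (by norm_num) hlog2a) hNr0

end final

end Pool.Agent.MP_9cec2c_lc.DepthThree
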