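import Mathlib
import Pool.Agent.Lib.MP_9cec2c_lc.D4Defs

/-!
Factors and terms which are simple with respect to two sets of variables.
-/

set_option autoImplicit false

namespace Pool.Agent.MP_9cec2c_lc.DepthThree

/-- The values of the variables outside `X` and `Y`. -/
def rest {n : ℕ} (X Y : Finset (Fin n)) (x : Fin n → Bool) : Fin n → Bool :=
  fun i => if i ∈ X ∪ Y then false else x i

/-- Apart from the new variables and from the variables outside `X` and `Y`, the factor depends
only on the variables in `vars`. -/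
def Factor.LocalFor {n E : ℕ} {𝕜 : Type*} (X Y : Finset (Fin n)) (f : Factor n E 𝕜) : Prop :=
  ∀ x x' z, (∀ i ∈ f.vars, x i = x' i) → rest X Y x = rest X Y x' → f.fn x z = f.fn x' z

/-- The variables in `vars` are not in `X`, or they are not in `Y`. -/
def Factor.Avoids {n E : ℕ} {𝕜 : Type*} (X Y : Finset (Fin n)) (f : Factor n E 𝕜) : Prop :=
  Disjoint f.vars X ∨ Disjoint f.vars Y

/-- For fixed values of the new variables and of the variables outside `X` and `Y` the factor is
an affine form in the variables of `vars`. -/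
def Factor.AffineFor {n E : ℕ} {𝕜 : Type*} [Field 𝕜] (X Y : Finset (Fin n))
    (f : Factor n E 𝕜) : Prop :=
  ∃ (b : (Fin n → Bool) → (Fin E → Bool) → 𝕜) (c : Fin n → (Fin n → Bool) → (Fin E → Bool) → 𝕜),
    ∀ x z, f.fn x z = b (rest X Y x) z + ∑ i ∈ f.vars, if x i then c i (rest X Y x) z else 0

/-- Every factor avoids `X` or `Y`, or is affine, or has at most `s` variables, and after removing
at most `d` factors the factors that do not avoid `X` or `Y` have pairwise disjoint sets of
variables. -/
def Term.SimpleFor {n E : ℕ} {𝕜 : Type*} [Field 𝕜] (X Y : Finset (Fin n)) (s : ℕ) (d : ℝ)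
    (t : Term n E 𝕜) : Prop :=
  (∀ j, (t.factor j).LocalFor X Y ∧
    ((t.factor j).Avoids X Y ∨ (t.factor j).AffineFor X Y ∨ (t.factor j).vars.card ≤ s)) ∧
  ∃ Z : Finset (Fin t.len), (Z.card : ℝ) ≤ d ∧ ∀ i ∉ Z, ∀ j ∉ Z, i ≠ j →
    ¬ (t.factor i).Avoids X Y → ¬ (t.factor j).Avoids X Y →
    Disjoint (t.factor i).vars (t.factor j).vars

end Pool.Agent.MP_9cec2c_lc.DepthThree
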