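import Mathlib
import Pool.Agent.Lib.MP_9cec2c_lc.D4Rank

/-!
Rank bounds for clauses, factors, gates and terms when the dead variables have prescribed values.
-/

set_option autoImplicit false

namespace Pool.Agent.MP_9cec2c_lc.DepthThree

open Finset

section combd

variable {N κ n E : ℕ} {𝕜 : Type*} [Field 𝕜]

/-- The combined assignment: the alive positions of side `0` are read from `x`, those of side `1`
from `y`, all other variables have the values given by `d`. -/
noncomputable def combd (e : Fin N × Fin κ → Fin n) (ρ : Fin N × Fin κ → Fin 3)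
    (d : Fin n → Bool) (x y : Fin N → Fin κ → Bool) : Fin n → Bool :=
  Function.extend e (fun p => if ρ p = 0 then x p.1 p.2 else if ρ p = 1 then y p.1 p.2 else
    d (e p)) d

theorem combd_apply {e : Fin N × Fin κ → Fin n} (he : Function.Injective e)
    (ρ : Fin N × Fin κ → Fin 3) (d : Fin n → Bool) (x y : Fin N → Fin κ → Bool)
    (p : Fin N × Fin κ) :
    combd e ρ d x y (e p) = if ρ p = 0 then x p.1 p.2 else if ρ p = 1 then y p.1 p.2 else
      d (e p) := by
  unfold combd
  rw [he.extend_apply]

theorem combd_apply' {e : Fin N × Fin κ → Fin n} (ρ : Fin N × Fin κ → Fin 3)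
    (d : Fin n → Bool) (x y : Fin N → Fin κ → Bool) (i : Fin n) (hi : i ∉ Set.range e) :
    combd e ρ d x y i = d i := by
  unfold combd
  rw [Function.extend_apply']
  exact hi

/-- The value of one variable depends on one side only. -/
theorem var_rankd {e : Fin N × Fin κ → Fin n} (he : Function.Injective e)
    (ρ : Fin N × Fin κ → Fin 3) (d : Fin n → Bool) (i : Fin n) (φ : Bool → 𝕜) :
    RankLE (fun x y => φ (combd e ρ d x y i)) 1 := by
  by_cases hi : i ∈ Set.range e
  · obtain ⟨p, rfl⟩ := hi
    by_cases hX : ρ p = 0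
    · refine (rankLE_left (β := Fin N → Fin κ → Bool)
        (fun x : Fin N → Fin κ → Bool => φ (x p.1 p.2))).congr fun x y => ?_
      rw [combd_apply he, if_pos hX]
    · by_cases hY : ρ p = 1
      · refine (rankLE_right (α := Fin N → Fin κ → Bool)
          (fun y : Fin N → Fin κ → Bool => φ (y p.1 p.2))).congr fun x y => ?_
        rw [combd_apply he, if_neg hX, if_pos hY]
      · refine (rankLE_const (α := Fin N → Fin κ → Bool) (β := Fin N → Fin κ → Bool)
          (φ (d (e p)))).congr fun x y => ?_
        rw [combd_apply he, if_neg hX, if_neg hY]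
  · refine (rankLE_const (α := Fin N → Fin κ → Bool) (β := Fin N → Fin κ → Bool)
      (φ (d i))).congr fun x y => ?_
    rw [combd_apply' ρ d x y i hi]

/-- A clause has rank one. -/
theorem falseAt_rankd {e : Fin N × Fin κ → Fin n} (he : Function.Injective e)
    (ρ : Fin N × Fin κ → Fin 3) (d : Fin n → Bool) (C : Clause n) :
    RankLE (fun x y => falseAt 𝕜 (combd e ρ d x y) C) 1 := by
  classical
  have h1 : RankLE (fun x y : Fin N → Fin κ → Bool =>
      ∏ l ∈ C, (if combd e ρ d x y l.1 ≠ l.2 then (1 : 𝕜) else 0)) (∏ _l ∈ C, 1) :=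
    rankLE_prod C _ _ fun l _ => var_rankd he ρ d l.1 (fun b => if b ≠ l.2 then (1 : 𝕜) else 0)
  rw [Finset.prod_const_one] at h1
  refine h1.congr fun x y => ?_
  unfold falseAt
  by_cases hf : Falsifies (combd e ρ d x y) C
  · rw [if_pos hf]
    symm
    exact Finset.prod_eq_one fun l hl => if_pos (hf l hl)
  · rw [if_neg hf]
    unfold Falsifies at hf
    push Not at hf
    obtain ⟨l, hl, hl'⟩ := hf
    symm
    exact Finset.prod_eq_zero hl (if_neg (not_not.2 hl'))

/-- Rank bound for a general local function. -/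
theorem junta_rankd {e : Fin N × Fin κ → Fin n} (he : Function.Injective e)
    (ρ : Fin N × Fin κ → Fin 3) (d : Fin n → Bool) (T : Finset (Fin n))
    (f : (Fin n → Bool) → 𝕜) (hf : ∀ a a', (∀ i ∈ T, a i = a' i) → f a = f a') :
    RankLE (fun x y => f (combd e ρ d x y))
      (if ∃ p ∈ pos e T, ρ p = 1 then 2 ^ ((pos e T).filter (fun p => ρ p = 0)).card else 1) := by
  classical
  have hcomb : ∀ (x y x' y' : Fin N → Fin κ → Bool),
      (∀ p ∈ pos e T, ρ p = 0 → x p.1 p.2 = x' p.1 p.2) →
      (∀ p ∈ pos e T, ρ p = 1 → y p.1 p.2 = y' p.1 p.2) →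
      f (combd e ρ d x y) = f (combd e ρ d x' y') := by
    intro x y x' y' hx hy
    refine hf _ _ fun i hi => ?_
    by_cases hr : i ∈ Set.range e
    · obtain ⟨p, rfl⟩ := hr
      have hp : p ∈ pos e T := by simp only [pos, mem_filter, mem_univ, true_and]; exact hi
      rw [combd_apply he, combd_apply he]
      by_cases hX : ρ p = 0
      · rw [if_pos hX, if_pos hX]; exact hx p hp hX
      · rw [if_neg hX, if_neg hX]
        by_cases hY : ρ p = 1
        · rw [if_pos hY, if_pos hY]; exact hy p hp hY
        · rw [if_neg hY, if_neg hY]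
    · rw [combd_apply' ρ d x y i hr, combd_apply' ρ d x' y' i hr]
  by_cases hY : ∃ p ∈ pos e T, ρ p = 1
  · rw [if_pos hY]
    obtain ⟨XS, hXS⟩ : ∃ XS, XS = (pos e T).filter (fun p => ρ p = 0) := ⟨_, rfl⟩
    rw [← hXS]
    obtain ⟨ext, hext⟩ : ∃ ext : Finset (Fin N × Fin κ) → (Fin N → Fin κ → Bool),
      ext = fun S j a => decide ((j, a) ∈ S) := ⟨_, rfl⟩
    have h1 := rankLE_sum (𝕜 := 𝕜) XS.powerset
      (fun S (x y : Fin N → Fin κ → Bool) =>
        (if ∀ p ∈ XS, x p.1 p.2 = ext S p.1 p.2 then (1 : 𝕜) else 0) *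
          f (combd e ρ d (ext S) y))
      (fun _ => 1) (fun S _ => rankLE_one
        (fun x : Fin N → Fin κ → Bool =>
          if ∀ p ∈ XS, x p.1 p.2 = ext S p.1 p.2 then (1 : 𝕜) else 0)
        (fun y : Fin N → Fin κ → Bool => f (combd e ρ d (ext S) y)))
    rw [Finset.sum_const, smul_eq_mul, mul_one, card_powerset] at h1
    refine h1.congr fun x y => ?_
    obtain ⟨S0, hS0⟩ : ∃ S0, S0 = XS.filter (fun p => x p.1 p.2 = true) := ⟨_, rfl⟩
    have hS0x : ∀ p ∈ XS, x p.1 p.2 = ext S0 p.1 p.2 := by
      intro p hp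
      rw [hext]
      show x p.1 p.2 = decide ((p.1, p.2) ∈ S0)
      have : ((p.1, p.2) ∈ S0) ↔ x p.1 p.2 = true := by
        rw [hS0, mem_filter]
        exact ⟨fun h => h.2, fun h => ⟨hp, h⟩⟩
      by_cases h : x p.1 p.2 = true
      · rw [h]; symm; exact decide_eq_true (this.2 h)
      · rw [Bool.not_eq_true] at h
        rw [h]; symm
        exact decide_eq_false (fun h' => by rw [this.1 h'] at h; exact Bool.noConfusion h)
    rw [Finset.sum_eq_single S0]
    · rw [if_pos hS0x, one_mul]
      refine hcomb _ _ _ _ (fun p hp hX => hS0x p ?_) (fun p _ _ => rfl)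
      rw [hXS, mem_filter]
      exact ⟨hp, hX⟩
    · intro S hS hne'
      rw [if_neg, zero_mul]
      intro h
      apply hne'
      rw [mem_powerset] at hS
      ext p
      constructor
      · intro hp
        rw [hS0, mem_filter]
        refine ⟨hS hp, ?_⟩
        rw [h p (hS hp), hext]
        exact decide_eq_true hp
      · intro hp
        rw [hS0, mem_filter] at hp
        have h3 := h p hp.1
        rw [hp.2, hext] at h3
        exact of_decide_eq_true h3.symm
    · intro h
      exfalso
      apply h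
      rw [mem_powerset, hS0]
      exact filter_subset _ _
  · rw [if_neg hY]
    push Not at hY
    refine (rankLE_left (β := Fin N → Fin κ → Bool)
      (fun x : Fin N → Fin κ → Bool => f (combd e ρ d x (fun _ _ => false)))).congr
      fun x y => ?_
    exact hcomb _ _ _ _ (fun p _ _ => rfl) (fun p hp hpY => absurd hpY (hY p hp))

/-- Rank bound for an affine form. -/
theorem affine_rankd {e : Fin N × Fin κ → Fin n} (he : Function.Injective e)
    (ρ : Fin N × Fin κ → Fin 3) (d : Fin n → Bool) (T : Finset (Fin n)) (b : 𝕜)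
    (c : Fin n → 𝕜) :
    RankLE (fun x y => b + ∑ i ∈ T, if combd e ρ d x y i then c i else 0)
      (if Split (0 : Fin 3) 1 ρ (pos e T) then 2 else 1) := by
  classical
  obtain ⟨f, hfdef⟩ : ∃ f : (Fin n → Bool) → 𝕜, f = fun a => b + ∑ i ∈ T, if a i then c i else 0 :=
    ⟨_, rfl⟩
  have hf : ∀ a a', (∀ i ∈ T, a i = a' i) → f a = f a' := by
    intro a a' h
    rw [hfdef]
    show b + _ = b + _
    congr 1
    exact Finset.sum_congr rfl fun i hi => by rw [h i hi]
  obtain ⟨o, ho⟩ : ∃ o : Fin N → Fin κ → Bool, o = fun _ _ => false := ⟨_, rfl⟩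
  have hadd : ∀ x y, f (combd e ρ d x y) =
      (f (combd e ρ d x o) - f (combd e ρ d o o)) + f (combd e ρ d o y) := by
    intro x y
    have h1 : ∀ i, (if combd e ρ d x y i then c i else 0) =
        ((if combd e ρ d x o i then c i else 0) - (if combd e ρ d o o i then c i else 0)) +
        (if combd e ρ d o y i then c i else 0) := by
      intro i
      by_cases hi : i ∈ Set.range e
      · obtain ⟨p, rfl⟩ := hi
        simp only [combd_apply he]
        by_cases hX : ρ p = 0
        · simp only [if_pos hX]; ring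
        · simp only [if_neg hX]
          by_cases hY : ρ p = 1
          · simp only [if_pos hY]; ring
          · simp only [if_neg hY]; ring
      · simp only [combd_apply' ρ d _ _ i hi]; ring
    rw [hfdef]
    show b + _ = (b + _ - (b + _)) + (b + _)
    simp only [h1]
    rw [Finset.sum_add_distrib, Finset.sum_sub_distrib]
    ring
  by_cases hs : Split (0 : Fin 3) 1 ρ (pos e T)
  · rw [if_pos hs]
    have h2 := (rankLE_left (β := Fin N → Fin κ → Bool)
      (fun x => f (combd e ρ d x o) - f (combd e ρ d o o))).add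
      (rankLE_right (α := Fin N → Fin κ → Bool) (fun y => f (combd e ρ d o y)))
    refine h2.congr fun x y => ?_
    rw [← hadd, hfdef]
  · rw [if_neg hs]
    unfold Split at hs
    rw [not_and_or] at hs
    have hcomb : ∀ (x y x' y' : Fin N → Fin κ → Bool),
        (∀ p ∈ pos e T, ρ p = 0 → x p.1 p.2 = x' p.1 p.2) →
        (∀ p ∈ pos e T, ρ p = 1 → y p.1 p.2 = y' p.1 p.2) →
        f (combd e ρ d x y) = f (combd e ρ d x' y') := by
      intro x y x' y' hx hy
      refine hf _ _ fun i hi => ?_
      by_cases hr : i ∈ Set.range e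
      · obtain ⟨p, rfl⟩ := hr
        have hp : p ∈ pos e T := by simp only [pos, mem_filter, mem_univ, true_and]; exact hi
        rw [combd_apply he, combd_apply he]
        by_cases hX : ρ p = 0
        · rw [if_pos hX, if_pos hX]; exact hx p hp hX
        · rw [if_neg hX, if_neg hX]
          by_cases hY : ρ p = 1
          · rw [if_pos hY, if_pos hY]; exact hy p hp hY
          · rw [if_neg hY, if_neg hY]
      · rw [combd_apply' ρ d x y i hr, combd_apply' ρ d x' y' i hr]
    rcases hs with hs | hs
    · push Not at hs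
      refine (rankLE_right (α := Fin N → Fin κ → Bool)
        (fun y => f (combd e ρ d o y))).congr fun x y => ?_
      have h3 : f (combd e ρ d x y) = f (combd e ρ d o y) :=
        hcomb _ _ _ _ (fun p hp hpX => absurd hpX (hs p hp)) (fun _ _ _ => rfl)
      rw [← h3, hfdef]
    · push Not at hs
      refine (rankLE_left (β := Fin N → Fin κ → Bool)
        (fun x => f (combd e ρ d x o))).congr fun x y => ?_
      have h3 : f (combd e ρ d x y) = f (combd e ρ d x o) :=
        hcomb _ _ _ _ (fun _ _ _ => rfl) (fun p hp hpY => absurd hpY (hs p hp))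
      rw [← h3, hfdef]

/-- The rank of a factor. -/
theorem factor_rankd {e : Fin N × Fin κ → Fin n} (he : Function.Injective e)
    (ρ : Fin N × Fin κ → Fin 3) (d : Fin n → Bool) (f : Factor n E 𝕜) (hf : f.Local)
    (z : Fin E → Bool) :
    RankLE (fun x y => f.fn (combd e ρ d x y) z) (frk e (0 : Fin 3) 1 ρ f) := by
  classical
  unfold frk
  by_cases ha : f.IsAffine
  · rw [if_pos ha]
    obtain ⟨b, c, hbc⟩ := ha
    refine (affine_rankd he ρ d f.vars (b z) (fun i => c i z)).congr fun x y => ?_
    exact hbc _ _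
  · rw [if_neg ha]
    have h3 := junta_rankd he ρ d f.vars (fun a => f.fn a z) (fun a a' h => hf a a' z h)
    refine h3.mono ?_
    split_ifs <;> exact le_rfl

/-- An input of a gate depends on one side only. -/
theorem input_rankd {e : Fin N × Fin κ → Fin n} (he : Function.Injective e)
    (ρ : Fin N × Fin κ → Fin 3) (d : Fin n → Bool) (z : Fin E → Bool) (w : Fin n ⊕ Fin E)
    (φ : Bool → 𝕜) :
    RankLE (fun x y => φ (Sum.elim (combd e ρ d x y) z w)) 1 := by
  rcases w with i | i
  · exact var_rankd he ρ d i φ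
  · exact rankLE_const (φ (z i))

open scoped Classical in
theorem computes_rankd {e : Fin N × Fin κ → Fin n} (he : Function.Injective e)
    (ρ : Fin N × Fin κ → Fin 3) (d : Fin n → Bool) (D : Fin E → Gate n E) (z : Fin E → Bool) :
    RankLE (fun x y => if Computes D (combd e ρ d x y) z then (1 : 𝕜) else 0) (2 ^ E) := by
  have h1 : ∀ j ∈ (univ : Finset (Fin E)), RankLE (fun x y : Fin N → Fin κ → Bool =>
      if z j = (D j).op (Sum.elim (combd e ρ d x y) z (D j).fst)
        (Sum.elim (combd e ρ d x y) z (D j).snd) then (1 : 𝕜) else 0) 2 := by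
    intro j _
    have ht := (input_rankd (𝕜 := 𝕜) he ρ d z (D j).fst
      (fun b => if b = true then 1 else 0)).mul
      (input_rankd (𝕜 := 𝕜) he ρ d z (D j).snd
        (fun b => if z j = (D j).op true b then 1 else 0))
    have hf := (input_rankd (𝕜 := 𝕜) he ρ d z (D j).fst
      (fun b => if b = false then 1 else 0)).mul
      (input_rankd (𝕜 := 𝕜) he ρ d z (D j).snd
        (fun b => if z j = (D j).op false b then 1 else 0))
    refine (ht.add hf).congr fun x y => ?_
    rcases Sum.elim (combd e ρ d x y) z (D j).fst with _ | _ <;> simp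
  have h2 := rankLE_prod univ _ _ h1
  rw [Finset.prod_const, card_univ, Fintype.card_fin] at h2
  refine h2.congr fun x y => ?_
  by_cases hc : Computes D (combd e ρ d x y) z
  · rw [if_pos hc]
    symm
    exact Finset.prod_eq_one fun j _ => if_pos (hc j)
  · rw [if_neg hc]
    unfold Computes at hc
    push Not at hc
    obtain ⟨j, hj⟩ := hc
    symm
    exact Finset.prod_eq_zero (mem_univ j) (if_neg hj)

/-- The rank of a term, the new variables being computed. -/
theorem term_rankd {e : Fin N × Fin κ → Fin n} (he : Function.Injective e)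
    (ρ : Fin N × Fin κ → Fin 3) (d : Fin n → Bool) (D : Fin E → Gate n E) (hD : Ordered D)
    (v : (Fin n → Bool) → (Fin E → Bool)) (hv : ∀ a, Computes D a (v a))
    (t : Term n E 𝕜) (ht : ∀ j, (t.factor j).Local) :
    RankLE (fun x y => t.eval (combd e ρ d x y) (v (combd e ρ d x y))
      (falseAt 𝕜 (combd e ρ d x y))) (4 ^ E * trk e (0 : Fin 3) 1 ρ t) := by
  classical
  have h1 : ∀ z ∈ (univ : Finset (Fin E → Bool)), RankLE (fun x y : Fin N → Fin κ → Bool =>
      (if Computes D (combd e ρ d x y) z then (1 : 𝕜) else 0) *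
        ((∏ C ∈ t.used, falseAt 𝕜 (combd e ρ d x y) C) *
          ∏ j, (t.factor j).fn (combd e ρ d x y) z))
      (2 ^ E * (1 * trk e (0 : Fin 3) 1 ρ t)) := by
    intro z _
    refine (computes_rankd he ρ d D z).mul (RankLE.mul ?_ ?_)
    · have h2 := rankLE_prod t.used (fun C x y => falseAt 𝕜 (combd e ρ d x y) C)
        (fun _ => 1) (fun C _ => falseAt_rankd he ρ d C)
      rw [Finset.prod_const_one] at h2
      exact h2
    · exact rankLE_prod univ (fun j x y => (t.factor j).fn (combd e ρ d x y) z) _
        (fun j _ => factor_rankd he ρ d (t.factor j) (ht j) z)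
  have h3 := rankLE_sum univ _ _ h1
  have h4 : ∑ _z ∈ (univ : Finset (Fin E → Bool)), 2 ^ E * (1 * trk e (0 : Fin 3) 1 ρ t) =
      4 ^ E * trk e (0 : Fin 3) 1 ρ t := by
    rw [Finset.sum_const, card_univ, Fintype.card_fun, Fintype.card_bool, Fintype.card_fin,
      smul_eq_mul, one_mul, ← mul_assoc, ← mul_pow]
    norm_num
  rw [h4] at h3
  refine h3.congr fun x y => ?_
  rw [Finset.sum_eq_single (v (combd e ρ d x y))]
  · rw [if_pos (hv _), one_mul]
    rfl
  · intro z _ hz
    rw [if_neg, zero_mul]
    intro hc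
    exact hz (computes_unique D hD _ _ _ hc (hv _))
  · intro h
    exact absurd (mem_univ _) h

/-- Fixing the values of some alive positions of side `0`. -/
theorem fix_bits {e : Fin N × Fin κ → Fin n} (he : Function.Injective e)
    (ρ ρ' : Fin N × Fin κ → Fin 3) (d : Fin n → Bool) (V : Finset (Fin N × Fin κ))
    (hV : ∀ p ∈ V, ρ p = 0 ∧ ρ' p = 2) (hV' : ∀ p ∉ V, ρ' p = ρ p)
    (f : (Fin n → Bool) → 𝕜) (R : ℕ)
    (hR : ∀ d' : Fin n → Bool, RankLE (fun x y => f (combd e ρ' d' x y)) R) :
    RankLE (fun x y => f (combd e ρ d x y)) (2 ^ V.card * R) := by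
  classical
  have h1 := rankLE_sum (𝕜 := 𝕜) V.powerset
    (fun S (x y : Fin N → Fin κ → Bool) =>
      (if ∀ p ∈ V, x p.1 p.2 = decide (p ∈ S) then (1 : 𝕜) else 0) *
        f (combd e ρ' (Function.extend e (fun p => if p ∈ V then decide (p ∈ S) else d (e p)) d)
          x y))
    (fun _ => 1 * R) (fun S _ => (rankLE_left
      (fun x : Fin N → Fin κ → Bool =>
        if ∀ p ∈ V, x p.1 p.2 = decide (p ∈ S) then (1 : 𝕜) else 0)).mul (hR _))
  rw [Finset.sum_const, smul_eq_mul, one_mul, card_powerset] at h1
  refine h1.congr fun x y => ?_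
  obtain ⟨S0, hS0⟩ : ∃ S0, S0 = V.filter (fun p => x p.1 p.2 = true) := ⟨_, rfl⟩
  have hS0x : ∀ p ∈ V, x p.1 p.2 = decide (p ∈ S0) := by
    intro p hp
    have : (p ∈ S0) ↔ x p.1 p.2 = true := by
      rw [hS0, mem_filter]
      exact ⟨fun h => h.2, fun h => ⟨hp, h⟩⟩
    by_cases h : x p.1 p.2 = true
    · rw [h]; symm; exact decide_eq_true (this.2 h)
    · rw [Bool.not_eq_true] at h
      rw [h]; symm
      exact decide_eq_false (fun h' => by rw [this.1 h'] at h; exact Bool.noConfusion h)
  rw [Finset.sum_eq_single S0]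
  · rw [if_pos hS0x, one_mul]
    congr 1
    funext i
    by_cases hr : i ∈ Set.range e
    · obtain ⟨p, rfl⟩ := hr
      rw [combd_apply he, combd_apply he, he.extend_apply]
      by_cases hp : p ∈ V
      · have h2 := hV p hp
        rw [if_pos h2.1, h2.2, if_neg (by decide), if_neg (by decide), if_pos hp]
        exact hS0x p hp
      · rw [hV' p hp, if_neg hp]
    · rw [combd_apply' ρ d x y i hr, combd_apply' ρ' _ x y i hr, Function.extend_apply']
      exact hr
  · intro S hS hne'
    rw [if_neg, zero_mul]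
    intro h
    apply hne'
    rw [mem_powerset] at hS
    ext p
    constructor
    · intro hp
      rw [hS0, mem_filter]
      refine ⟨hS hp, ?_⟩
      rw [h p (hS hp)]
      exact decide_eq_true hp
    · intro hp
      rw [hS0, mem_filter] at hp
      have h3 := h p hp.1
      rw [hp.2] at h3
      exact of_decide_eq_true h3.symm
  · intro h
    exfalso
    apply h
    rw [mem_powerset, hS0]
    exact filter_subset _ _

end combd

end Pool.Agent.MP_9cec2c_lc.DepthThree
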