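import Mathlib
import Pool.Agent.Lib.MP_9cec2c_lc.D4Avg
import Pool.Agent.Lib.MP_9cec2c_lc.D5Defs
import Pool.Agent.Lib.MP_9cec2c_lc.D5Rank

/-!
Average rank of a term under a random pattern which is alive only on a given set of positions.
-/

set_option autoImplicit false

namespace Pool.Agent.MP_9cec2c_lc.DepthThree

open Finset
open Pool.Agent.MP_9cec2c_lc.SubstRed

section patu

variable {P α : Type*} [DecidableEq P] [DecidableEq α]

/-- A position of `use` with `σ p = a` is alive, on its own side. -/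
def patu (use : Finset P) (side : P → Bool) (a : α) (σ : P → α) (p : P) : Fin 3 :=
  if p ∈ use ∧ σ p = a then (if side p = true then 0 else 1) else 2

theorem patu_zero (use : Finset P) (side : P → Bool) (a : α) (σ : P → α) (p : P) :
    patu use side a σ p = 0 ↔ (p ∈ use ∧ pat side a σ p = 0) := by
  unfold patu pat
  by_cases h : p ∈ use <;> by_cases h1 : σ p = a <;> by_cases h2 : side p = true <;>
    simp [h, h1, h2]

theorem patu_one (use : Finset P) (side : P → Bool) (a : α) (σ : P → α) (p : P) :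
    patu use side a σ p = 1 ↔ (p ∈ use ∧ pat side a σ p = 1) := by
  unfold patu pat
  by_cases h : p ∈ use <;> by_cases h1 : σ p = a <;> by_cases h2 : side p = true <;>
    simp [h, h1, h2]

theorem patu_split (use : Finset P) (side : P → Bool) (a : α) (σ : P → α) (B : Finset P) :
    Split (0 : Fin 3) 1 (patu use side a σ) B ↔
      Split (0 : Fin 3) 1 (pat side a σ) (B ∩ use) := by
  unfold Split
  constructor
  · rintro ⟨⟨p, hp, h⟩, ⟨p', hp', h'⟩⟩
    rw [patu_zero] at h
    rw [patu_one] at h'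
    exact ⟨⟨p, mem_inter.2 ⟨hp, h.1⟩, h.2⟩, ⟨p', mem_inter.2 ⟨hp', h'.1⟩, h'.2⟩⟩
  · rintro ⟨⟨p, hp, h⟩, ⟨p', hp', h'⟩⟩
    rw [mem_inter] at hp hp'
    exact ⟨⟨p, hp.1, (patu_zero _ _ _ _ _).2 ⟨hp.2, h⟩⟩,
      ⟨p', hp'.1, (patu_one _ _ _ _ _).2 ⟨hp'.2, h'⟩⟩⟩

theorem patu_exists (use : Finset P) (side : P → Bool) (a : α) (σ : P → α) (B : Finset P) :
    (∃ p ∈ B, patu use side a σ p = 1) ↔ ∃ p ∈ B ∩ use, pat side a σ p = 1 := by
  constructor
  · rintro ⟨p, hp, h⟩
    rw [patu_one] at h
    exact ⟨p, mem_inter.2 ⟨hp, h.1⟩, h.2⟩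
  · rintro ⟨p, hp, h⟩
    rw [mem_inter] at hp
    exact ⟨p, hp.1, (patu_one _ _ _ _ _).2 ⟨hp.2, h⟩⟩

theorem patu_filter (use : Finset P) (side : P → Bool) (a : α) (σ : P → α) (B : Finset P) :
    B.filter (fun p => patu use side a σ p = 0) =
      (B ∩ use).filter (fun p => pat side a σ p = 0) := by
  ext p
  rw [mem_filter, mem_filter, mem_inter, patu_zero]
  tauto

end patu

section blocks

variable {P α : Type*} [Fintype P] [DecidableEq P] [Fintype α]

/-- Products over disjoint blocks inside `use`. -/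
theorem avg_prod_blocksu [Nonempty α] {T : Type*} [DecidableEq T] (w : ℝ) (hw0 : 0 ≤ w)
    (hw1 : w ≤ 1) (use : Finset P) (J : Finset T) (B : T → Finset P)
    (hB : ∀ t ∈ J, ∀ t' ∈ J, t ≠ t' → Disjoint (B t) (B t')) (hu : ∀ t ∈ J, B t ⊆ use)
    (F : T → (P → α) → ℝ)
    (hdep : ∀ t ∈ J, DependsOn' (F t) (B t)) (h0 : ∀ t ∈ J, ∀ σ, 0 ≤ F t σ)
    (hb : ∀ t ∈ J, (avg (F t)) ^ 100 * (w ^ (B t).card) ^ 17 ≤ 1) :
    (avg (fun σ : P → α => ∏ t ∈ J, F t σ)) ^ 100 * (w ^ use.card) ^ 17 ≤ 1 := by
  classical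
  rw [avg_prod_indep J F B hdep hB]
  have h2 : w ^ use.card ≤ ∏ t ∈ J, w ^ (B t).card := by
    rw [Finset.prod_pow_eq_pow_sum]
    apply pow_le_pow_of_le_one hw0 hw1
    rw [← card_biUnion hB]
    exact card_le_card (biUnion_subset.2 hu)
  have h3 : ∀ t ∈ J, 0 ≤ avg (F t) := fun t ht => avg_nonneg (h0 t ht)
  calc (∏ t ∈ J, avg (F t)) ^ 100 * (w ^ use.card) ^ 17
      ≤ (∏ t ∈ J, avg (F t)) ^ 100 * (∏ t ∈ J, w ^ (B t).card) ^ 17 := by
        have h4 := Finset.prod_nonneg h3
        gcongr
    _ = ∏ t ∈ J, ((avg (F t)) ^ 100 * (w ^ (B t).card) ^ 17) := by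
        rw [Finset.prod_mul_distrib, Finset.prod_pow, Finset.prod_pow]
    _ ≤ 1 := by
        apply Finset.prod_le_one
        · intro t ht
          have := h3 t ht
          positivity
        · exact hb

end blocks

section factors

variable {N κ n E : ℕ} {𝕜 : Type*} [Field 𝕜]

open scoped Classical in
/-- The rank bound of a factor. -/
noncomputable def frx (X Y : Finset (Fin n)) (e : Fin N × Fin κ → Fin n)
    (ρ : Fin N × Fin κ → Fin 3) (f : Factor n E 𝕜) : ℕ :=
  if f.AffineFor X Y then (if Split (0 : Fin 3) 1 ρ (pos e f.vars) then 2 else 1)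
  else (if ∃ p ∈ pos e f.vars, ρ p = 1 then
    2 ^ ((pos e f.vars).filter (fun p => ρ p = 0)).card else 1)

/-- The rank bound of a term, without the new variables. -/
noncomputable def trx (X Y : Finset (Fin n)) (e : Fin N × Fin κ → Fin n)
    (ρ : Fin N × Fin κ → Fin 3) (t : Term n E 𝕜) : ℕ := ∏ j, frx X Y e ρ (t.factor j)

/-- Outside `X` and `Y` all variables are dead. -/
theorem combd_rest {e : Fin N × Fin κ → Fin n} (he : Function.Injective e)
    (X Y : Finset (Fin n)) (ρ : Fin N × Fin κ → Fin 3) (hρ : ∀ p, ρ p ≠ 2 → e p ∈ X ∪ Y)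
    (d : Fin n → Bool) (x y : Fin N → Fin κ → Bool) (i : Fin n) (hi : i ∉ X ∪ Y) :
    combd e ρ d x y i = d i := by
  by_cases hr : i ∈ Set.range e
  · obtain ⟨p, rfl⟩ := hr
    have h2 : ρ p = 2 := by
      by_contra hcon
      exact hi (hρ p hcon)
    rw [combd_apply he, h2, if_neg (by decide), if_neg (by decide)]
  · exact combd_apply' ρ d x y i hr

/-- The rank of a factor. -/
theorem factor_rankx {e : Fin N × Fin κ → Fin n} (he : Function.Injective e)
    (X Y : Finset (Fin n)) (ρ : Fin N × Fin κ → Fin 3) (hρ : ∀ p, ρ p ≠ 2 → e p ∈ X ∪ Y)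
    (d : Fin n → Bool) (f : Factor n E 𝕜) (hf : f.LocalFor X Y) (z : Fin E → Bool) :
    RankLE (fun x y => f.fn (combd e ρ d x y) z) (frx X Y e ρ f) := by
  classical
  have hrest : ∀ x y, rest X Y (combd e ρ d x y) = rest X Y d := by
    intro x y
    funext i
    unfold rest
    by_cases hi : i ∈ X ∪ Y
    · rw [if_pos hi, if_pos hi]
    · rw [if_neg hi, if_neg hi, combd_rest he X Y ρ hρ d x y i hi]
  unfold frx
  by_cases ha : f.AffineFor X Y
  · rw [if_pos ha]
    obtain ⟨b, c, hbc⟩ := ha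
    refine (affine_rankd he ρ d f.vars (b (rest X Y d) z)
      (fun i => c i (rest X Y d) z)).congr fun x y => ?_
    rw [hbc, hrest]
  · rw [if_neg ha]
    have h3 := junta_rankd he ρ d f.vars
      (fun a => f.fn (fun i => if i ∈ X ∪ Y then a i else d i) z) (fun a a' h => by
        refine hf _ _ z (fun i hi => ?_) ?_
        · show (if i ∈ X ∪ Y then a i else d i) = (if i ∈ X ∪ Y then a' i else d i)
          rw [h i hi]
        · funext i
          unfold rest
          by_cases hi : i ∈ X ∪ Y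
          · rw [if_pos hi, if_pos hi]
          · rw [if_neg hi, if_neg hi]
            show (if i ∈ X ∪ Y then a i else d i) = (if i ∈ X ∪ Y then a' i else d i)
            rw [if_neg hi, if_neg hi])
    have h4 : ∀ x y, f.fn (combd e ρ d x y) z =
        f.fn (fun i => if i ∈ X ∪ Y then combd e ρ d x y i else d i) z := by
      intro x y
      congr 1
      funext i
      by_cases hi : i ∈ X ∪ Y
      · rw [if_pos hi]
      · rw [if_neg hi, combd_rest he X Y ρ hρ d x y i hi]
    refine (h3.mono ?_).congr h4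
    split_ifs <;> exact le_rfl

/-- The rank of a term, the new variables being computed. -/
theorem term_rankx {e : Fin N × Fin κ → Fin n} (he : Function.Injective e)
    (X Y : Finset (Fin n)) (ρ : Fin N × Fin κ → Fin 3) (hρ : ∀ p, ρ p ≠ 2 → e p ∈ X ∪ Y)
    (d : Fin n → Bool) (D : Fin E → Gate n E) (hD : Ordered D)
    (v : (Fin n → Bool) → (Fin E → Bool)) (hv : ∀ a, Computes D a (v a))
    (t : Term n E 𝕜) (ht : ∀ j, (t.factor j).LocalFor X Y) :
    RankLE (fun x y => t.eval (combd e ρ d x y) (v (combd e ρ d x y))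
      (falseAt 𝕜 (combd e ρ d x y))) (4 ^ E * trx X Y e ρ t) := by
  classical
  have h1 : ∀ z ∈ (univ : Finset (Fin E → Bool)), RankLE (fun x y : Fin N → Fin κ → Bool =>
      (if Computes D (combd e ρ d x y) z then (1 : 𝕜) else 0) *
        ((∏ C ∈ t.used, falseAt 𝕜 (combd e ρ d x y) C) *
          ∏ j, (t.factor j).fn (combd e ρ d x y) z))
      (2 ^ E * (1 * trx X Y e ρ t)) := by
    intro z _
    refine (computes_rankd he ρ d D z).mul (RankLE.mul ?_ ?_)
    · have h2 := rankLE_prod t.used (fun C x y => falseAt 𝕜 (combd e ρ d x y) C)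
        (fun _ => 1) (fun C _ => falseAt_rankd he ρ d C)
      rw [Finset.prod_const_one] at h2
      exact h2
    · exact rankLE_prod univ (fun j x y => (t.factor j).fn (combd e ρ d x y) z) _
        (fun j _ => factor_rankx he X Y ρ hρ d (t.factor j) (ht j) z)
  have h3 := rankLE_sum univ _ _ h1
  have h4 : ∑ _z ∈ (univ : Finset (Fin E → Bool)), 2 ^ E * (1 * trx X Y e ρ t) =
      4 ^ E * trx X Y e ρ t := by
    rw [Finset.sum_const, card_univ, Fintype.card_fun, Fintype.card_bool, Fintype.card_fin,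
      smul_eq_mul, one_mul, ← mul_assoc, ← mul_pow]
    norm_num
  rw [h4] at h3
  refine h3.congr fun x y => ?_
  rw [Finset.sum_eq_single (v (combd e ρ d x y))]
  · rw [if_pos (hv _), one_mul]
    rfl
  · intro z _ hz
    rw [if_neg, zero_mul]
    intro hc
    exact hz (computes_unique D hD _ _ _ hc (hv _))
  · intro h
    exact absurd (mem_univ _) h

end factors

section terms

variable {N κ n E : ℕ} {α : Type*} [DecidableEq α] {𝕜 : Type*} [Field 𝕜]

open scoped Classical in
theorem frx_patu (X Y : Finset (Fin n)) (e : Fin N × Fin κ → Fin n) (use : Finset (Fin N × Fin κ))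
    (side : Fin N × Fin κ → Bool) (a : α) (f : Factor n E 𝕜) (σ : Fin N × Fin κ → α) :
    frx X Y e (patu use side a σ) f =
      if f.AffineFor X Y then (if Split (0 : Fin 3) 1 (pat side a σ) (pos e f.vars ∩ use) then 2 else 1)
      else (if ∃ p ∈ pos e f.vars ∩ use, pat side a σ p = 1 then
        2 ^ ((pos e f.vars ∩ use).filter (fun p => pat side a σ p = 0)).card else 1) := by
  unfold frx
  rw [patu_filter, if_congr (patu_split use side a σ _) rfl rfl,
    if_congr (patu_exists use side a σ _) rfl rfl]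

theorem frku_dep (X Y : Finset (Fin n)) (e : Fin N × Fin κ → Fin n) (use : Finset (Fin N × Fin κ))
    (side : Fin N × Fin κ → Bool) (a : α) (f : Factor n E 𝕜) (x y : Fin N × Fin κ → α)
    (hxy : ∀ p ∈ pos e f.vars ∩ use, x p = y p) :
    frx X Y e (patu use side a x) f = frx X Y e (patu use side a y) f := by
  classical
  have hp : ∀ p ∈ pos e f.vars ∩ use, pat side a x p = pat side a y p := by
    intro p hp
    unfold pat
    rw [hxy p hp]
  rw [frx_patu, frx_patu]
  have h1 : Split (0 : Fin 3) 1 (pat side a x) (pos e f.vars ∩ use) ↔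
      Split (0 : Fin 3) 1 (pat side a y) (pos e f.vars ∩ use) := by
    unfold Split
    constructor
    · rintro ⟨⟨p, hp1, h⟩, ⟨p', hp', h'⟩⟩
      exact ⟨⟨p, hp1, by rw [← hp p hp1]; exact h⟩, ⟨p', hp', by rw [← hp p' hp']; exact h'⟩⟩
    · rintro ⟨⟨p, hp1, h⟩, ⟨p', hp', h'⟩⟩
      exact ⟨⟨p, hp1, by rw [hp p hp1]; exact h⟩, ⟨p', hp', by rw [hp p' hp']; exact h'⟩⟩
  have h2 : (∃ p ∈ pos e f.vars ∩ use, pat side a x p = 1) ↔
      ∃ p ∈ pos e f.vars ∩ use, pat side a y p = 1 := by
    constructor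
    · rintro ⟨p, hp1, h⟩; exact ⟨p, hp1, by rw [← hp p hp1]; exact h⟩
    · rintro ⟨p, hp1, h⟩; exact ⟨p, hp1, by rw [hp p hp1]; exact h⟩
  have h3 : (pos e f.vars ∩ use).filter (fun p => pat side a x p = 0) =
      (pos e f.vars ∩ use).filter (fun p => pat side a y p = 0) := by
    apply filter_congr
    intro p hp1
    rw [hp p hp1]
  rw [if_congr h1 rfl rfl, if_congr h2 rfl rfl, h3]

/-- Factors that avoid one side have rank one. -/
theorem frku_avoids (e : Fin N × Fin κ → Fin n) (use : Finset (Fin N × Fin κ))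
    (side : Fin N × Fin κ → Bool) (a : α) (X Y : Finset (Fin n))
    (hX : ∀ p ∈ use, side p = true → e p ∈ X) (hY : ∀ p ∈ use, side p = false → e p ∈ Y)
    (f : Factor n E 𝕜) (hf : f.Avoids X Y) (σ : Fin N × Fin κ → α) :
    frx X Y e (patu use side a σ) f = 1 := by
  classical
  rw [frx_patu]
  rcases hf with hf | hf
  · have h1 : ∀ p ∈ pos e f.vars ∩ use, pat side a σ p ≠ 0 := by
      intro p hp h
      rw [pat_zero] at h
      rw [mem_inter] at hp
      have h2 := hX p hp.2 h.1
      have h3 := hp.1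
      simp only [pos, mem_filter, mem_univ, true_and] at h3
      exact disjoint_left.1 hf h3 h2
    have h4 : (pos e f.vars ∩ use).filter (fun p => pat side a σ p = 0) = ∅ := by
      rw [filter_eq_empty_iff]
      exact h1
    rw [if_neg (fun hs : Split (0 : Fin 3) 1 (pat side a σ) (pos e f.vars ∩ use) => by
      obtain ⟨p, hp, h⟩ := hs.1
      exact h1 p hp h), h4, card_empty, pow_zero]
    split_ifs <;> rfl
  · have h1 : ¬ ∃ p ∈ pos e f.vars ∩ use, pat side a σ p = 1 := by
      rintro ⟨p, hp, h⟩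
      rw [pat_one] at h
      rw [mem_inter] at hp
      have h2 := hY p hp.2 h.1
      have h3 := hp.1
      simp only [pos, mem_filter, mem_univ, true_and] at h3
      exact disjoint_left.1 hf h3 h2
    rw [if_neg (fun hs : Split (0 : Fin 3) 1 (pat side a σ) (pos e f.vars ∩ use) => h1 hs.2),
      if_neg h1]
    split_ifs <;> rfl

theorem frku_le {e : Fin N × Fin κ → Fin n} (he : Function.Injective e)
    (use : Finset (Fin N × Fin κ)) (side : Fin N × Fin κ → Bool) (a : α) (X Y : Finset (Fin n))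
    (hX : ∀ p ∈ use, side p = true → e p ∈ X) (hY : ∀ p ∈ use, side p = false → e p ∈ Y)
    (s : ℕ) (hs : 1 ≤ s) (f : Factor n E 𝕜)
    (hf : f.Avoids X Y ∨ f.AffineFor X Y ∨ f.vars.card ≤ s) (σ : Fin N × Fin κ → α) :
    frx X Y e (patu use side a σ) f ≤ 2 ^ s := by
  classical
  have h2s : 2 ≤ 2 ^ s := by
    calc 2 = 2 ^ 1 := by norm_num
      _ ≤ 2 ^ s := Nat.pow_le_pow_right (by norm_num) hs
  by_cases ho : f.Avoids X Y
  · rw [frku_avoids e use side a X Y hX hY f ho σ]
    exact Nat.one_le_two_pow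
  · rw [frx_patu]
    by_cases ha : f.AffineFor X Y
    · rw [if_pos ha]
      split_ifs <;> omega
    · rw [if_neg ha]
      have hc : f.vars.card ≤ s := by
        rcases hf with h | h | h
        · exact absurd h ho
        · exact absurd h ha
        · exact h
      split_ifs
      · apply Nat.pow_le_pow_right (by norm_num)
        exact (card_filter_le _ _).trans ((card_le_card inter_subset_left).trans
          ((card_pos_le he _).trans hc))
      · exact Nat.one_le_two_pow

variable [Fintype α] [Nonempty α]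

/-- The expected rank of a factor. -/
theorem avg_frku (X Y : Finset (Fin n)) {e : Fin N × Fin κ → Fin n}
    (he : Function.Injective e) (use : Finset (Fin N × Fin κ)) (side : Fin N × Fin κ → Bool) (a : α)
    (s : ℕ) (hs : 1 ≤ s) (hq : Fintype.card α = 501 * s)
    (f : Factor n E 𝕜) (hf : f.AffineFor X Y ∨ f.vars.card ≤ s) :
    (avg (fun σ : Fin N × Fin κ → α =>
      (frx X Y e (patu use side a σ) f : ℝ))) ^ 100 *
      ((1 - 1 / (Fintype.card α : ℝ)) ^ (pos e f.vars ∩ use).card) ^ 17 ≤ 1 := by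
  classical
  obtain ⟨B, hB⟩ : ∃ B : Finset (Fin N × Fin κ), B = pos e f.vars ∩ use := ⟨_, rfl⟩
  simp only [frx_patu]
  rw [← hB]
  have hqr : (Fintype.card α : ℝ) = 501 * s := by rw [hq]; push_cast; ring
  have hsr : (1 : ℝ) ≤ s := by exact_mod_cast hs
  have hcard : (B.filter (fun p => side p = true)).card +
      (B.filter (fun p => side p = false)).card = B.card := by
    rw [← Finset.card_filter_add_card_filter_not (s := B) (fun p => side p = true)]
    congr 2
    apply filter_congr
    intro p _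
    simp
  have hq0 : (0 : ℝ) < Fintype.card α := by rw [hqr]; positivity
  have hw0 : 0 ≤ 1 - 1 / (Fintype.card α : ℝ) := by
    rw [sub_nonneg, div_le_one hq0, hqr]; linarith
  have hw1 : 1 - 1 / (Fintype.card α : ℝ) ≤ 1 := by
    have : 0 ≤ 1 / (Fintype.card α : ℝ) := by positivity
    linarith
  by_cases ha : f.AffineFor X Y
  · have h1 : (fun σ : Fin N × Fin κ → α => (((if f.AffineFor X Y then
        (if Split (0 : Fin 3) 1 (pat side a σ) B then 2 else 1)
        else (if ∃ p ∈ B, pat side a σ p = 1 then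
          2 ^ (B.filter (fun p => pat side a σ p = 0)).card else 1) : ℕ)) : ℝ)) =
        fun σ => if Split (0 : Fin 3) 1 (pat side a σ) B then (2 : ℝ) else 1 := by
      funext σ
      rw [if_pos ha]
      split_ifs <;> norm_num
    rw [h1, avg_split_two, ← hcard, pow_add]
    exact split_num _ _ (pow_nonneg hw0 _) (pow_le_one₀ hw0 hw1) (pow_nonneg hw0 _)
      (pow_le_one₀ hw0 hw1)
  · have hc : f.vars.card ≤ s := hf.resolve_left ha
    have h1 : (fun σ : Fin N × Fin κ → α => (((if f.AffineFor X Y then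
        (if Split (0 : Fin 3) 1 (pat side a σ) B then 2 else 1)
        else (if ∃ p ∈ B, pat side a σ p = 1 then
          2 ^ (B.filter (fun p => pat side a σ p = 0)).card else 1) : ℕ)) : ℝ)) =
        fun σ => if ∃ p ∈ B, pat side a σ p = 1 then
          (2 : ℝ) ^ (B.filter (fun p => pat side a σ p = 0)).card else 1 := by
      funext σ
      rw [if_neg ha]
      split_ifs
      · push_cast; rfl
      · norm_num
    rw [h1, avg_junta_two, ← hcard]
    apply junta_num s _ _ _ hs _ hqr
    rw [hcard, hB]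
    exact (card_le_card inter_subset_left).trans ((card_pos_le he _).trans hc)

/-- The expected rank of a simple term. -/
theorem avg_trku {e : Fin N × Fin κ → Fin n} (he : Function.Injective e)
    (use : Finset (Fin N × Fin κ)) (side : Fin N × Fin κ → Bool) (a : α) (X Y : Finset (Fin n))
    (hX : ∀ p ∈ use, side p = true → e p ∈ X) (hY : ∀ p ∈ use, side p = false → e p ∈ Y)
    (s : ℕ) (hs : 1 ≤ s) (hq : Fintype.card α = 501 * s) (d : ℝ)
    (t : Term n E 𝕜) (ht : t.SimpleFor X Y s d) :
    avg (fun σ : Fin N × Fin κ → α => (trx X Y e (patu use side a σ) t : ℝ)) ≤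
      2 ^ (s * d) * ((1 - 1 / (Fintype.card α : ℝ)) ^ use.card) ^ (-(17 / 100 : ℝ)) := by
  classical
  obtain ⟨hloc, Z, hZ, hdis⟩ := ht
  have hqr : (Fintype.card α : ℝ) = 501 * s := by rw [hq]; push_cast; ring
  have hsr : (1 : ℝ) ≤ s := by exact_mod_cast hs
  have hq0 : (0 : ℝ) < Fintype.card α := by rw [hqr]; positivity
  have hwpos : 0 < 1 - 1 / (Fintype.card α : ℝ) := by
    rw [sub_pos, div_lt_one hq0, hqr]; linarith
  have hw1 : 1 - 1 / (Fintype.card α : ℝ) ≤ 1 := by
    have : 0 ≤ 1 / (Fintype.card α : ℝ) := by positivity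
    linarith
  obtain ⟨w, hw⟩ : ∃ w : ℝ, w = (1 - 1 / (Fintype.card α : ℝ)) ^ use.card := ⟨_, rfl⟩
  have hw0 : 0 < w := by rw [hw]; exact pow_pos hwpos _
  obtain ⟨V, hV⟩ : ∃ V : Finset (Fin t.len), V = univ.filter
    (fun j => j ∉ Z ∧ ¬ (t.factor j).Avoids X Y) := ⟨_, rfl⟩
  have hVmem : ∀ j ∈ V, j ∉ Z ∧ ¬ (t.factor j).Avoids X Y := by
    intro j hj
    rw [hV, mem_filter] at hj
    exact hj.2
  have hsp := avg_prod_blocksu (P := Fin N × Fin κ) (α := α) (1 - 1 / (Fintype.card α : ℝ))
    hwpos.le hw1 use V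
    (fun j => pos e (t.factor j).vars ∩ use) (by
      intro i hi j hj hij
      have hd := hdis i (hVmem i hi).1 j (hVmem j hj).1 hij (hVmem i hi).2 (hVmem j hj).2
      rw [Finset.disjoint_left] at hd ⊢
      intro p hp hp'
      rw [mem_inter] at hp hp'
      have h1 := hp.1
      have h2 := hp'.1
      simp only [pos, mem_filter, mem_univ, true_and] at h1 h2
      exact hd h1 h2)
    (fun j _ => inter_subset_right)
    (fun j σ => (frx X Y e (patu use side a σ) (t.factor j) : ℝ))
    (by
      intro j _ x y hxy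
      show (frx X Y e (patu use side a x) (t.factor j) : ℝ) =
        (frx X Y e (patu use side a y) (t.factor j) : ℝ)
      rw [frku_dep X Y e use side a (t.factor j) x y hxy])
    (by intro j _ σ; exact Nat.cast_nonneg _)
    (by
      intro j hj
      refine avg_frku X Y he use side a s hs hq (t.factor j) ?_
      exact (hloc j).2.resolve_left (hVmem j hj).2)
  rw [← hw] at hsp
  obtain ⟨A, hA⟩ : ∃ A : ℝ, A = avg (fun σ : Fin N × Fin κ → α =>
    ∏ j ∈ V, (frx X Y e (patu use side a σ) (t.factor j) : ℝ)) := ⟨_, rfl⟩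
  rw [← hA] at hsp
  have hA0 : 0 ≤ A := by
    rw [hA]
    exact avg_nonneg fun σ => Finset.prod_nonneg fun j _ => Nat.cast_nonneg _
  have hroot : A ≤ w ^ (-(17 / 100 : ℝ)) := by
    have h1 : A ^ 100 ≤ (w ^ (-(17 / 100 : ℝ))) ^ 100 := by
      rw [← Real.rpow_natCast (w ^ (-(17 / 100 : ℝ))) 100, ← Real.rpow_mul hw0.le]
      have h2 : (-(17 / 100 : ℝ)) * ((100 : ℕ) : ℝ) = -((17 : ℕ) : ℝ) := by norm_num
      rw [h2, Real.rpow_neg hw0.le, Real.rpow_natCast, ← one_div, le_div_iff₀ (by positivity)]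
      exact hsp
    exact le_of_pow_le_pow_left₀ (by norm_num) (by positivity) h1
  have h3 : ∀ σ : Fin N × Fin κ → α, (trx X Y e (patu use side a σ) t : ℝ) ≤
      2 ^ (s * d) *
      ∏ j ∈ V, (frx X Y e (patu use side a σ) (t.factor j) : ℝ) := by
    intro σ
    have h4 : trx X Y e (patu use side a σ) t ≤
        (∏ j ∈ Z, 2 ^ s) * ∏ j ∈ V, frx X Y e (patu use side a σ) (t.factor j) := by
      unfold trx
      have h5 : ∏ j, frx X Y e (patu use side a σ) (t.factor j) =
          (∏ j ∈ Z, frx X Y e (patu use side a σ) (t.factor j)) *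
          ∏ j ∈ V, frx X Y e (patu use side a σ) (t.factor j) := by
        rw [← Finset.prod_sdiff (subset_univ Z), mul_comm]
        congr 1
        symm
        apply Finset.prod_subset
        · intro j hj
          rw [mem_sdiff]
          exact ⟨mem_univ _, (hVmem j hj).1⟩
        · intro j hj hjY
          apply frku_avoids e use side a X Y hX hY
          by_contra hcon
          apply hjY
          rw [hV, mem_filter]
          rw [mem_sdiff] at hj
          exact ⟨mem_univ _, hj.2, hcon⟩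
      rw [h5]
      apply Nat.mul_le_mul_right
      exact Finset.prod_le_prod' fun j _ => frku_le he use side a X Y hX hY s hs _ (hloc j).2 σ
    have h6 : ((∏ j ∈ Z, 2 ^ s : ℕ) : ℝ) ≤ 2 ^ (s * d) := by
      rw [Finset.prod_const]
      push_cast
      rw [← pow_mul, ← Real.rpow_natCast]
      apply Real.rpow_le_rpow_of_exponent_le (by norm_num)
      push_cast
      exact mul_le_mul_of_nonneg_left hZ (by positivity)
    have h7 : (0 : ℝ) ≤ ∏ j ∈ V, (frx X Y e (patu use side a σ) (t.factor j) : ℝ) :=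
      Finset.prod_nonneg fun j _ => Nat.cast_nonneg _
    calc (trx X Y e (patu use side a σ) t : ℝ)
        ≤ (((∏ j ∈ Z, 2 ^ s) * ∏ j ∈ V, frx X Y e (patu use side a σ) (t.factor j) : ℕ) : ℝ) :=
          by exact_mod_cast h4
      _ = ((∏ j ∈ Z, 2 ^ s : ℕ) : ℝ) *
          ∏ j ∈ V, (frx X Y e (patu use side a σ) (t.factor j) : ℝ) := by
          rw [Nat.cast_mul]
          congr 1
          exact Nat.cast_prod _ _
      _ ≤ _ := mul_le_mul_of_nonneg_right h6 h7
  refine (avg_mono h3).trans ?_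
  rw [avg_const_mul, ← hA, ← hw]
  exact mul_le_mul_of_nonneg_left hroot (by positivity)

end terms

end Pool.Agent.MP_9cec2c_lc.DepthThree
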