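import Mathlib
import Pool.Agent.Lib.MP_9cec2c_lc.D5Rank

/-!
The main inequality when every gadget has its own form, with some gadgets controlled by a single
alive variable.
-/

set_option autoImplicit false

namespace Pool.Agent.MP_9cec2c_lc.DepthThree

open Finset

section struct

variable {N κ k n : ℕ} {𝕜 : Type*} [Field 𝕜]

/-- The size of the image for gadget `j`. -/
def wcj (L : Fin N → Fin κ → Fin κ → ZMod 2) (ρ : Fin N × Fin κ → Fin 3) (j : Fin N) : ℕ :=
  (wset (L j) (0 : Fin 3) 1 (fun a => ρ (j, a))).card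

/-- The function of the set `I`. -/
def termj (𝕜 : Type*) [Field 𝕜] (L : Fin N → Fin κ → Fin κ → ZMod 2)
    (ρ : Fin N × Fin κ → Fin 3) (J : Fin (N + 1) × Fin k → Fin N) (I : Finset (Fin (N + 1)))
    (x y : Fin N → Fin κ → Bool) : 𝕜 :=
  ∏ j, (if vec I J j = 0 then gmat 𝕜 (L j) (0 : Fin 3) 1 (fun a => ρ (j, a)) (x j) (y j) else 1)

theorem termj_rank (L : Fin N → Fin κ → Fin κ → ZMod 2) (ρ : Fin N × Fin κ → Fin 3)
    (J : Fin (N + 1) × Fin k → Fin N) (I : Finset (Fin (N + 1))) :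
    RankLE (termj 𝕜 L ρ J I) (∏ j, (if vec I J j = 0 then wcj L ρ j else 1)) := by
  have h1 : ∀ j ∈ (univ : Finset (Fin N)), RankLE (fun x y : Fin N → Fin κ → Bool =>
      if vec I J j = 0 then gmat 𝕜 (L j) (0 : Fin 3) 1 (fun a => ρ (j, a)) (x j) (y j) else 1)
      (if vec I J j = 0 then wcj L ρ j else 1) := by
    intro j _
    by_cases h : vec I J j = 0
    · rw [if_pos h]
      have h3 := (gmat_rankLE (𝕜 := 𝕜) (L j) (0 : Fin 3) 1 (by decide) (fun a => ρ (j, a))).comp
        (fun x : Fin N → Fin κ → Bool => x j) (fun y : Fin N → Fin κ → Bool => y j)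
      exact h3.congr fun x y => if_pos h
    · rw [if_neg h]
      exact (rankLE_const 1).congr fun x y => if_neg h
  exact rankLE_prod univ _ _ h1

/-- The big matrix. -/
def bigj (𝕜 : Type*) [Field 𝕜] (L : Fin N → Fin κ → Fin κ → ZMod 2)
    (ρ : Fin N × Fin κ → Fin 3) (J : Fin (N + 1) × Fin k → Fin N) (b : Fin (N + 1) → ZMod 2)
    (t : ℕ) (x y : Fin N → Fin κ → Bool) : 𝕜 :=
  ∑ I ∈ (univ : Finset (Finset (Fin (N + 1)))).filter (fun I => I.card ≤ t),
    (∏ i ∈ I, sgn 𝕜 (b i)) * termj 𝕜 L ρ J I x y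

/-- The value of the gadgets of row `i` at `x`, `y`. -/
def rowval (L : Fin N → Fin κ → Fin κ → ZMod 2) (ρ : Fin N × Fin κ → Fin 3)
    (J : Fin (N + 1) × Fin k → Fin N) (i : Fin (N + 1)) (x y : Fin N → Fin κ → Bool) : ZMod 2 :=
  ∑ l, zval (L (J (i, l))) (mix (0 : Fin 3) 1 (fun a => ρ (J (i, l), a)) (x (J (i, l)))
    (y (J (i, l))))

/-- The factorised form of a term. -/
theorem termj_eq (L : Fin N → Fin κ → Fin κ → ZMod 2) (ρ : Fin N × Fin κ → Fin 3)
    (J : Fin (N + 1) × Fin k → Fin N) (b : Fin (N + 1) → ZMod 2)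
    (I : Finset (Fin (N + 1))) (x y : Fin N → Fin κ → Bool) :
    (∏ i ∈ I, sgn 𝕜 (b i)) * termj 𝕜 L ρ J I x y =
      (∏ j, gmat 𝕜 (L j) (0 : Fin 3) 1 (fun a => ρ (j, a)) (x j) (y j)) *
      ∏ i ∈ I, sgn 𝕜 (b i + rowval L ρ J i x y) := by
  obtain ⟨z, hz⟩ : ∃ z : Fin N → ZMod 2, z = fun j =>
    zval (L j) (mix (0 : Fin 3) 1 (fun a => ρ (j, a)) (x j) (y j)) := ⟨_, rfl⟩
  have hg : ∀ j, gmat 𝕜 (L j) (0 : Fin 3) 1 (fun a => ρ (j, a)) (x j) (y j) = sgn 𝕜 (z j) := by
    intro j; rw [hz]; rfl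
  have h1 : ∏ i ∈ I, sgn 𝕜 (b i + rowval L ρ J i x y) =
      (∏ i ∈ I, sgn 𝕜 (b i)) * ∏ j, sgn 𝕜 (vec I J j * z j) := by
    have h2 : ∀ i ∈ I, sgn 𝕜 (b i + rowval L ρ J i x y) =
        sgn 𝕜 (b i) * sgn 𝕜 (∑ l, z (J (i, l))) := by
      intro i _
      rw [sgn_add, hz]
      rfl
    rw [Finset.prod_congr rfl h2, Finset.prod_mul_distrib]
    congr 1
    rw [← sgn_sum, sum_row, sgn_sum]
  rw [h1]
  unfold termj
  simp only [hg]
  rw [mul_left_comm, ← Finset.prod_mul_distrib]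
  congr 1
  refine Finset.prod_congr rfl fun j _ => ?_
  have h01 : ∀ c : ZMod 2, c = 0 ∨ c = 1 := by decide
  rcases h01 (vec I J j) with h | h
  · rw [if_pos h, h, zero_mul, sgn_zero, mul_one]
  · rw [if_neg (by rw [h]; decide), h, one_mul, sgn_mul_self]

/-- The upper bound on the part of the big matrix inside one clause. -/
theorem bigj_clause_rank (L : Fin N → Fin κ → Fin κ → ZMod 2) (ρ : Fin N × Fin κ → Fin 3)
    (J : Fin (N + 1) × Fin k → Fin N) (b : Fin (N + 1) → ZMod 2) (t : ℕ)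
    (A : (Fin N → Fin κ → Bool) → (Fin N → Fin κ → Bool) → (Fin n → Bool)) (C : Clause n)
    (hind : RankLE (fun x y => falseAt 𝕜 (A x y) C) 1)
    (i0 : Fin (N + 1)) (hC : ∀ x y, Falsifies (A x y) C → rowval L ρ J i0 x y ≠ b i0) :
    RankLE (fun x y => falseAt 𝕜 (A x y) C * bigj 𝕜 L ρ J b t x y)
      (∑ I ∈ (univ : Finset (Finset (Fin (N + 1)))).filter (fun I => I.card = t),
        ∏ j, (if vec I J j = 0 then wcj L ρ j else 1)) := by
  classical
  have hsum := rankLE_sum ((univ : Finset (Finset (Fin (N + 1)))).filter (fun I => I.card = t))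
    (fun I x y => (if i0 ∉ I then ∏ i ∈ I, sgn 𝕜 (b i) else 0) * termj 𝕜 L ρ J I x y)
    (fun I => ∏ j, (if vec I J j = 0 then wcj L ρ j else 1))
    (fun I _ => (termj_rank (𝕜 := 𝕜) L ρ J I).const_mul _)
  have hprod := hind.mul hsum
  rw [one_mul] at hprod
  refine hprod.congr fun x y => ?_
  by_cases hf : Falsifies (A x y) C
  · have hfa : falseAt 𝕜 (A x y) C = 1 := by
      unfold falseAt; rw [if_pos hf]
    rw [hfa, one_mul, one_mul]
    unfold bigj
    simp only [termj_eq]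
    rw [← Finset.mul_sum, cancel _ i0]
    · rw [Finset.mul_sum]
      have h5 : (univ : Finset (Finset (Fin (N + 1)))).filter (fun I => I.card = t ∧ i0 ∉ I) =
          ((univ : Finset (Finset (Fin (N + 1)))).filter (fun I => I.card = t)).filter
            (fun I => i0 ∉ I) := by
        rw [filter_filter]
      rw [h5, Finset.sum_filter]
      refine Finset.sum_congr rfl fun I _ => ?_
      by_cases h6 : i0 ∉ I
      · rw [if_pos h6, if_pos h6, ← termj_eq]
      · rw [if_neg h6, if_neg h6, zero_mul]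
    · have h8 : b i0 + rowval L ρ J i0 x y ≠ 0 := by
        have : ∀ c d : ZMod 2, c ≠ d → d + c ≠ 0 := by decide
        exact this _ _ (hC x y hf)
      unfold sgn
      rw [if_neg h8]
  · have hfa : falseAt 𝕜 (A x y) C = 0 := by
      unfold falseAt; rw [if_neg hf]
    rw [hfa, zero_mul, zero_mul]

/-- A test family for a gadget. -/
def Tests (L : Fin κ → Fin κ → ZMod 2) (ρ : Fin κ → Fin 3) (𝕜 : Type*) [Field 𝕜] (m : ℕ) :
    Prop :=
  ∃ (Γ : Finset (Fin κ → ZMod 2)) (D : (Fin κ → ZMod 2) → (Fin κ → Bool) → 𝕜)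
      (e : (Fin κ → ZMod 2) → (Fin κ → Bool)) (s : (Fin κ → ZMod 2) → 𝕜),
      m ≤ Γ.card ∧ (∀ w, s w ≠ 0) ∧
      (∀ w ∈ Γ, ∑ x, D w x = 0) ∧
      (∀ w ∈ Γ, ∀ w' ∈ Γ, ∑ x, D w x * gmat 𝕜 L (0 : Fin 3) 1 ρ x (e w') =
        if w = w' then s w' else 0)

theorem tests_good (h2 : (2 : 𝕜) ≠ 0) (L : Fin κ → Fin κ → ZMod 2) (ρ : Fin κ → Fin 3) :
    Tests L ρ 𝕜 ((wset L (0 : Fin 3) 1 ρ).card - 1) := by
  obtain ⟨Γ, D, e, s, h3, h4, h5, h6⟩ := gadget_test (𝕜 := 𝕜) h2 L (0 : Fin 3) 1 (by decide) ρ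
  exact ⟨Γ, D, e, s, by omega, h4, h5, h6⟩

/-- The value of a gadget with a single alive position. -/
theorem gmat_single (L : Fin κ → Fin κ → ZMod 2) (ρ : Fin κ → Fin 3) (i0 : Fin κ)
    (h0 : ρ i0 = 0) (hd : ∀ i, i ≠ i0 → ρ i = 2) (hL : L i0 i0 = 1) (x y : Fin κ → Bool) :
    gmat 𝕜 L (0 : Fin 3) 1 ρ x y = if x i0 then -1 else 1 := by
  classical
  have hm : (fun a => bz (mix (0 : Fin 3) 1 ρ x y a)) = fun a => if a = i0 then bz (x i0) else 0 := by
    funext a
    unfold mix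
    by_cases ha : a = i0
    · subst ha; rw [if_pos h0, if_pos rfl]
    · rw [hd a ha, if_neg (by decide), if_neg (by decide), if_neg ha, bz_false]
  have hq : quad L (fun a => bz (mix (0 : Fin 3) 1 ρ x y a)) = bz (x i0) := by
    rw [hm]
    unfold quad
    rw [Finset.sum_eq_single i0]
    · rw [Finset.sum_eq_single i0]
      · show L i0 i0 * (if i0 = i0 then bz (x i0) else 0) * (if i0 = i0 then bz (x i0) else 0) =
          bz (x i0)
        rw [if_pos rfl, hL]
        cases x i0 <;> simp [bz]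
      · intro c _ hc
        show L i0 c * (if i0 = i0 then bz (x i0) else 0) * (if c = i0 then bz (x i0) else 0) = 0
        rw [if_neg hc, mul_zero]
      · intro h; exact absurd (mem_univ _) h
    · intro a _ ha
      refine Finset.sum_eq_zero fun c _ => ?_
      show L a c * (if a = i0 then bz (x i0) else 0) * (if c = i0 then bz (x i0) else 0) = 0
      rw [if_neg ha, mul_zero, zero_mul]
    · intro h; exact absurd (mem_univ _) h
  unfold gmat
  rw [hq]
  cases x i0 <;> simp [bz, sgn]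

theorem tests_single (h2 : (2 : 𝕜) ≠ 0) (L : Fin κ → Fin κ → ZMod 2) (ρ : Fin κ → Fin 3)
    (i0 : Fin κ) (h0 : ρ i0 = 0) (hd : ∀ i, i ≠ i0 → ρ i = 2) (hL : L i0 i0 = 1) :
    Tests L ρ 𝕜 1 := by
  classical
  obtain ⟨o, ho⟩ : ∃ o : Fin κ → Bool, o = fun _ => false := ⟨_, rfl⟩
  obtain ⟨o', ho'⟩ : ∃ o' : Fin κ → Bool, o' = fun i => decide (i = i0) := ⟨_, rfl⟩
  have hne : o ≠ o' := by
    intro h
    have := congrFun h i0
    rw [ho, ho'] at this
    simp at this
  refine ⟨{0}, fun _ x => (if x = o then 1 else 0) - (if x = o' then 1 else 0), fun _ => o,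
    fun _ => 2, by simp, fun _ => h2, ?_, ?_⟩
  · intro w _
    rw [Finset.sum_sub_distrib]
    simp
  · intro w hw w' hw'
    rw [mem_singleton] at hw hw'
    rw [hw, hw', if_pos rfl]
    have h3 : ∀ x : Fin κ → Bool, ((if x = o then (1 : 𝕜) else 0) - (if x = o' then 1 else 0)) *
        gmat 𝕜 L (0 : Fin 3) 1 ρ x o =
        (if x = o then (if x i0 then (-1 : 𝕜) else 1) else 0) -
        (if x = o' then (if x i0 then (-1 : 𝕜) else 1) else 0) := by
      intro x
      rw [gmat_single L ρ i0 h0 hd hL, sub_mul]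
      congr 1
      · split_ifs <;> simp
      · split_ifs <;> simp
    simp only [h3]
    rw [Finset.sum_sub_distrib]
    simp only [Finset.sum_ite_eq', mem_univ, if_true]
    rw [ho, ho']
    simp
    norm_num

/-- The lower bound for the rank of the big matrix. -/
theorem bigj_rank_ge (L : Fin N → Fin κ → Fin κ → ZMod 2) (ρ : Fin N × Fin κ → Fin 3)
    (J : Fin (N + 1) × Fin k → Fin N) (b : Fin (N + 1) → ZMod 2)
    (t : ℕ) (hJ : ∀ I : Finset (Fin (N + 1)), I.Nonempty → I.card ≤ t → vec I J ≠ 0)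
    (lb : Fin N → ℕ) (hlb : ∀ j, Tests (L j) (fun a => ρ (j, a)) 𝕜 (lb j))
    (r : ℕ) (hr : RankLE (bigj 𝕜 L ρ J b t) r) :
    ∏ j, lb j ≤ r := by
  classical
  choose Γ D ee s hΓ hs hD0 hD using hlb
  have h1 : Fintype.card (∀ j, {w // w ∈ Γ j}) ≤ r := by
    refine card_le_of_rankLE hr (γ := ∀ j, {w // w ∈ Γ j})
      (fun c x => ∏ j, D j (c j).1 (x j)) (fun c j => ee j (c j).1)
      (fun c => ∏ j, s j (c j).1) (fun c => Finset.prod_ne_zero_iff.2 fun j _ => hs j _) ?_
    intro c c'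
    unfold bigj
    simp only [Finset.mul_sum]
    rw [Finset.sum_comm]
    have h3 : ∀ I : Finset (Fin (N + 1)),
        ∑ x : Fin N → Fin κ → Bool, (∏ j, D j (c j).1 (x j)) *
          ((∏ i ∈ I, sgn 𝕜 (b i)) * termj 𝕜 L ρ J I x (fun j => ee j (c' j).1)) =
        (∏ i ∈ I, sgn 𝕜 (b i)) * ∏ j, ∑ u : Fin κ → Bool, (D j (c j).1 u *
          (if vec I J j = 0 then gmat 𝕜 (L j) (0 : Fin 3) 1 (fun a => ρ (j, a)) u
            (ee j (c' j).1) else 1)) := by
      intro I
      have h4 := Finset.prod_univ_sum (fun _ : Fin N => (univ : Finset (Fin κ → Bool)))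
        (fun j u => D j (c j).1 u *
          (if vec I J j = 0 then gmat 𝕜 (L j) (0 : Fin 3) 1 (fun a => ρ (j, a)) u
            (ee j (c' j).1) else 1))
      rw [Fintype.piFinset_univ] at h4
      rw [h4, Finset.mul_sum]
      refine Finset.sum_congr rfl fun x _ => ?_
      unfold termj
      rw [Finset.prod_mul_distrib]
      ring
    simp only [h3]
    rw [Finset.sum_eq_single ∅]
    · have hv : ∀ j, vec (∅ : Finset (Fin (N + 1))) J j = 0 := by
        intro j; simp [vec]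
      simp only [hv, if_true, Finset.prod_empty, one_mul]
      have h5 : ∀ j, ∑ u : Fin κ → Bool, D j (c j).1 u *
          gmat 𝕜 (L j) (0 : Fin 3) 1 (fun a => ρ (j, a)) u (ee j (c' j).1) =
          if (c j).1 = (c' j).1 then s j (c' j).1 else 0 := by
        intro j
        exact hD j _ (c j).2 _ (c' j).2
      simp only [h5]
      by_cases hcc : c = c'
      · subst hcc; simp
      · rw [if_neg hcc]
        have : ∃ j, c j ≠ c' j := by
          by_contra hcon
          push Not at hcon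
          exact hcc (funext hcon)
        obtain ⟨j, hj⟩ := this
        apply Finset.prod_eq_zero (mem_univ j)
        rw [if_neg]
        intro h6
        exact hj (Subtype.ext h6)
    · intro I hI hI0
      rw [mem_filter] at hI
      have hne' := hJ I (nonempty_iff_ne_empty.2 hI0) hI.2
      have : ∃ j, vec I J j ≠ 0 := by
        by_contra hcon
        push Not at hcon
        exact hne' (funext hcon)
      obtain ⟨j, hj⟩ := this
      have h7 : ∏ j, ∑ u : Fin κ → Bool, (D j (c j).1 u *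
          (if vec I J j = 0 then gmat 𝕜 (L j) (0 : Fin 3) 1 (fun a => ρ (j, a)) u
            (ee j (c' j).1) else 1)) = 0 := by
        apply Finset.prod_eq_zero (mem_univ j)
        simp only [if_neg hj, mul_one]
        exact hD0 j _ (c j).2
      rw [h7, mul_zero]
    · intro h
      exact absurd (mem_filter.2 ⟨mem_univ _, by simp⟩) h
  refine le_trans ?_ h1
  rw [Fintype.card_pi]
  refine Finset.prod_le_prod' fun j _ => ?_
  rw [Fintype.card_coe]
  exact hΓ j

/-- The image for a gadget without alive positions of side `1` has one element. -/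
theorem wset_single (L : Fin κ → Fin κ → ZMod 2) (ρ : Fin κ → Fin 3) (h : ∀ i, ρ i ≠ 1) :
    (wset L (0 : Fin 3) 1 ρ).card = 1 := by
  classical
  have h1 : wset L (0 : Fin 3) 1 ρ = {0} := by
    unfold wset
    ext w
    rw [mem_image, mem_singleton]
    constructor
    · rintro ⟨y, _, rfl⟩
      funext a
      unfold wvec part
      simp [h]
    · intro hw
      refine ⟨fun _ => false, mem_univ _, ?_⟩
      rw [hw]
      funext a
      unfold wvec part
      simp [h]
  rw [h1, card_singleton]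

/-- Lower bound for the total rank at a good pattern. -/
theorem good_boundj (h2 : (2 : 𝕜) ≠ 0) (L : Fin N → Fin κ → Fin κ → ZMod 2)
    (ρ : Fin N × Fin κ → Fin 3) (J : Fin (N + 1) × Fin k → Fin N) (b : Fin (N + 1) → ZMod 2)
    (t : ℕ) (hJ : ∀ I : Finset (Fin (N + 1)), I.Nonempty → I.card ≤ t → vec I J ≠ 0)
    (U : Finset (Fin N))
    (hU : ∀ j ∈ U, ∃ i0, ρ (j, i0) = 0 ∧ (∀ i, i ≠ i0 → ρ (j, i) = 2) ∧ L j i0 i0 = 1)
    (W : ℕ) (hW : ∀ I : Finset (Fin (N + 1)), I.card = t →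
      W ≤ (univ.filter (fun j => j ∉ U ∧ vec I J j ≠ 0)).card)
    (R : ℕ) (hR : 1 ≤ R) (hgood : ∀ j ∉ U, 2 * R ≤ wcj L ρ j)
    (F : Finset (Clause n))
    (A : (Fin N → Fin κ → Bool) → (Fin N → Fin κ → Bool) → (Fin n → Bool))
    (hind : ∀ C ∈ F, RankLE (fun x y => falseAt 𝕜 (A x y) C) 1)
    (hC : ∀ C ∈ F, ∃ i0, ∀ x y, Falsifies (A x y) C → rowval L ρ J i0 x y ≠ b i0)
    (G : Clause n → (Fin n → Bool) → 𝕜) (S : Clause n → ℕ)
    (hS : ∀ C ∈ F, RankLE (fun x y => G C (A x y)) (S C))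
    (hG : ∀ a, ∑ C ∈ F, falseAt 𝕜 a C * G C a = 1) :
    (2 * R) ^ W ≤ 2 ^ (2 * N + 1) * ∑ C ∈ F, S C := by
  classical
  obtain ⟨T, hT⟩ : ∃ T, T = ∑ C ∈ F, S C := ⟨_, rfl⟩
  obtain ⟨lb, hlb⟩ : ∃ lb : Fin N → ℕ, lb = fun j => if j ∈ U then 1 else wcj L ρ j - 1 :=
    ⟨_, rfl⟩
  have hU1 : ∀ j ∈ U, wcj L ρ j = 1 := by
    intro j hj
    obtain ⟨i0, h3, h4, _⟩ := hU j hj
    refine wset_single _ _ fun i => ?_
    by_cases hi : i = i0
    · rw [hi]; show ρ (j, i0) ≠ 1; rw [h3]; decide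
    · show ρ (j, i) ≠ 1; rw [h4 i hi]; decide
  have hmain : ∏ j, lb j ≤
      (∑ I ∈ (univ : Finset (Finset (Fin (N + 1)))).filter (fun I => I.card = t),
        ∏ j, (if vec I J j = 0 then wcj L ρ j else 1)) * T := by
    apply bigj_rank_ge (𝕜 := 𝕜) L ρ J b t hJ lb
    · intro j
      rw [hlb]
      by_cases hj : j ∈ U
      · simp only [if_pos hj]
        obtain ⟨i0, h3, h4, h5⟩ := hU j hj
        exact tests_single h2 (L j) _ i0 h3 h4 h5
      · simp only [if_neg hj]
        exact tests_good h2 (L j) _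
    · rw [hT, Finset.mul_sum]
      have h1 := rankLE_sum F
        (fun C x y => (falseAt 𝕜 (A x y) C * bigj 𝕜 L ρ J b t x y) * G C (A x y))
        (fun C => (∑ I ∈ (univ : Finset (Finset (Fin (N + 1)))).filter (fun I => I.card = t),
            ∏ j, (if vec I J j = 0 then wcj L ρ j else 1)) * S C)
        (fun C hCF => by
          obtain ⟨i0, hi0⟩ := hC C hCF
          exact (bigj_clause_rank L ρ J b t A C (hind C hCF) i0 hi0).mul (hS C hCF))
      refine h1.congr fun x y => ?_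
      have h3 := hG (A x y)
      have h4 : bigj 𝕜 L ρ J b t x y = bigj 𝕜 L ρ J b t x y *
          ∑ C ∈ F, falseAt 𝕜 (A x y) C * G C (A x y) := by
        rw [h3, mul_one]
      refine h4.trans ?_
      rw [Finset.mul_sum]
      refine Finset.sum_congr rfl fun C _ => ?_
      ring
  rw [← hT]
  have hwc : ∀ j, 1 ≤ wcj L ρ j := fun j => by
    by_cases hj : j ∈ U
    · rw [hU1 j hj]
    · have := hgood j hj; omega
  have h1 : ∏ j, wcj L ρ j ≤ (∏ j, lb j) * 2 ^ N := by
    have h3 : ∏ j : Fin N, wcj L ρ j ≤ ∏ j : Fin N, (lb j * 2) :=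
      Finset.prod_le_prod' fun j _ => by
        rw [hlb]
        by_cases hj : j ∈ U
        · simp only [if_pos hj]; rw [hU1 j hj]; norm_num
        · simp only [if_neg hj]; have := hgood j hj; omega
    refine h3.trans (le_of_eq ?_)
    rw [Finset.prod_mul_distrib]
    simp
  have h4 : (∑ I ∈ (univ : Finset (Finset (Fin (N + 1)))).filter (fun I => I.card = t),
        ∏ j, (if vec I J j = 0 then wcj L ρ j else 1)) * (2 * R) ^ W ≤
        2 ^ (N + 1) * ∏ j, wcj L ρ j := by
    rw [Finset.sum_mul]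
    have h5 : ∀ I ∈ (univ : Finset (Finset (Fin (N + 1)))).filter (fun I => I.card = t),
        (∏ j, (if vec I J j = 0 then wcj L ρ j else 1)) * (2 * R) ^ W ≤
        ∏ j, wcj L ρ j := by
      intro I hI
      rw [mem_filter] at hI
      have h6 := hW I hI.2
      have h7 : (2 * R) ^ W ≤ ∏ j, (if vec I J j = 0 then 1 else wcj L ρ j) := by
        have h8 : (2 * R) ^ W ≤ (2 * R) ^ (univ.filter (fun j => j ∉ U ∧ vec I J j ≠ 0)).card :=
          Nat.pow_le_pow_right (by omega) h6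
        refine h8.trans ?_
        rw [← Finset.prod_const, Finset.prod_filter]
        refine Finset.prod_le_prod' fun j _ => ?_
        by_cases h9 : vec I J j = 0
        · simp [h9]
        · simp only [h9, ne_eq, not_false_eq_true, and_true, if_false]
          by_cases h10 : j ∈ U
          · simp only [h10, not_true_eq_false, if_false]; exact hwc j
          · simp only [h10, not_false_eq_true, if_true]; exact hgood j h10
      calc (∏ j, (if vec I J j = 0 then wcj L ρ j else 1)) * (2 * R) ^ W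
          ≤ (∏ j, (if vec I J j = 0 then wcj L ρ j else 1)) *
            ∏ j, (if vec I J j = 0 then 1 else wcj L ρ j) := Nat.mul_le_mul_left _ h7
        _ = ∏ j, wcj L ρ j := by
            rw [← Finset.prod_mul_distrib]
            refine Finset.prod_congr rfl fun j _ => ?_
            split_ifs <;> simp
    refine (Finset.sum_le_sum h5).trans ?_
    rw [Finset.sum_const, smul_eq_mul]
    apply Nat.mul_le_mul_right
    refine (card_filter_le _ _).trans ?_
    rw [card_univ, Fintype.card_finset, Fintype.card_fin]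
  have hpos : 0 < ∏ j, wcj L ρ j := Finset.prod_pos fun j _ => hwc j
  have h10 : (∏ j, wcj L ρ j) * (2 * R) ^ W ≤
      (∏ j, wcj L ρ j) * (2 ^ (2 * N + 1) * T) := by
    calc (∏ j, wcj L ρ j) * (2 * R) ^ W
        ≤ ((∏ j, lb j) * 2 ^ N) * (2 * R) ^ W := Nat.mul_le_mul_right _ h1
      _ ≤ (((∑ I ∈ (univ : Finset (Finset (Fin (N + 1)))).filter (fun I => I.card = t),
        ∏ j, (if vec I J j = 0 then wcj L ρ j else 1)) * T) * 2 ^ N) * (2 * R) ^ W :=
          Nat.mul_le_mul_right _ (Nat.mul_le_mul_right _ hmain)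
      _ = ((∑ I ∈ (univ : Finset (Finset (Fin (N + 1)))).filter (fun I => I.card = t),
        ∏ j, (if vec I J j = 0 then wcj L ρ j else 1)) * (2 * R) ^ W) * (2 ^ N * T) := by
          ring
      _ ≤ (2 ^ (N + 1) * ∏ j, wcj L ρ j) * (2 ^ N * T) := Nat.mul_le_mul_right _ h4
      _ = (∏ j, wcj L ρ j) * (2 ^ (2 * N + 1) * T) := by
          rw [show 2 * N + 1 = (N + 1) + N by ring, pow_add 2 (N + 1) N]; ring
  exact Nat.le_of_mul_le_mul_left h10 hpos

/-- Lower bound for the total rank of the terms of a certificate at a good pattern. -/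
theorem cert_boundj {E m : ℕ} (h2 : (2 : 𝕜) ≠ 0) (L : Fin N → Fin κ → Fin κ → ZMod 2)
    (ρ : Fin N × Fin κ → Fin 3) (J : Fin (N + 1) × Fin k → Fin N) (b : Fin (N + 1) → ZMod 2)
    (t : ℕ) (hJ : ∀ I : Finset (Fin (N + 1)), I.Nonempty → I.card ≤ t → vec I J ≠ 0)
    (U : Finset (Fin N))
    (hU : ∀ j ∈ U, ∃ i0, ρ (j, i0) = 0 ∧ (∀ i, i ≠ i0 → ρ (j, i) = 2) ∧ L j i0 i0 = 1)
    (W : ℕ) (hW : ∀ I : Finset (Fin (N + 1)), I.card = t →
      W ≤ (univ.filter (fun j => j ∉ U ∧ vec I J j ≠ 0)).card)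
    (R : ℕ) (hR : 1 ≤ R) (hgood : ∀ j ∉ U, 2 * R ≤ wcj L ρ j)
    (F : Finset (Clause n))
    (A : (Fin N → Fin κ → Bool) → (Fin N → Fin κ → Bool) → (Fin n → Bool))
    (hind : ∀ C ∈ F, RankLE (fun x y => falseAt 𝕜 (A x y) C) 1)
    (hC : ∀ C ∈ F, ∃ i0, ∀ x y, Falsifies (A x y) C → rowval L ρ J i0 x y ≠ b i0)
    (D : Fin E → Gate n E) (v : (Fin n → Bool) → (Fin E → Bool))
    (hv : ∀ a, Computes D a (v a)) (P : Fin m → Term n E 𝕜) (S : Fin m → ℕ)
    (hS : ∀ i, RankLE (fun x y => (P i).eval (A x y) (v (A x y)) (falseAt 𝕜 (A x y))) (S i))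
    (hcert : IsCertificate F D P) :
    (2 * R) ^ W ≤ 2 ^ (2 * N + 1) * ∑ i, S i := by
  classical
  -- the chosen clause of a term
  obtain ⟨sel, hsel⟩ : ∃ sel : Fin m → Clause n, ∀ i, (P i).used.Nonempty → sel i ∈ (P i).used :=
    ⟨fun i => if h : (P i).used.Nonempty then h.choose else ∅, fun i h => by
      show (if h : (P i).used.Nonempty then h.choose else ∅) ∈ (P i).used
      rw [dif_pos h]; exact h.choose_spec⟩
  obtain ⟨G, hG⟩ : ∃ G : Clause n → (Fin n → Bool) → 𝕜, G = fun C a =>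
    ∑ i, (if (P i).used.Nonempty ∧ sel i = C then (P i).eval a (v a) (falseAt 𝕜 a) else 0) :=
    ⟨_, rfl⟩
  obtain ⟨Q, hQ⟩ : ∃ Q : Clause n → ℕ, Q = fun C =>
    ∑ i, (if (P i).used.Nonempty ∧ sel i = C then S i else 0) :=
    ⟨_, rfl⟩
  have hrank : ∀ C ∈ F, RankLE (fun x y => G C (A x y)) (Q C) := by
    intro C _
    rw [hG, hQ]
    refine rankLE_sum univ (fun i x y => if (P i).used.Nonempty ∧ sel i = C then
      (P i).eval (A x y) (v (A x y)) (falseAt 𝕜 (A x y)) else 0) _ fun i _ => ?_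
    by_cases hi : (P i).used.Nonempty ∧ sel i = C
    · rw [if_pos hi]
      exact (hS i).congr fun x y => if_pos hi
    · rw [if_neg hi]
      exact (rankLE_zero 0).congr fun x y => if_neg hi
  have hone : ∀ a, ∑ C ∈ F, falseAt 𝕜 a C * G C a = 1 := by
    intro a
    have h1 := (hcert.2 a (v a) (hv a)).1
    have h3 := (hcert.2 a (v a) (hv a)).2
    rw [hG]
    simp only [Finset.mul_sum]
    rw [Finset.sum_comm, ← h3]
    have h4 : ∑ i, (P i).eval a (v a) (falseAt 𝕜 a) =
        ∑ i, ((P i).eval a (v a) (falseAt 𝕜 a) - (P i).eval a (v a) 0) := by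
      rw [Finset.sum_sub_distrib, h1, sub_zero]
    rw [h4]
    refine Finset.sum_congr rfl fun i _ => ?_
    by_cases hi : (P i).used.Nonempty
    · have h5 : (P i).eval a (v a) 0 = 0 := by
        unfold Term.eval
        obtain ⟨C, hC⟩ := hi
        rw [Finset.prod_eq_zero hC rfl, zero_mul]
      rw [h5, sub_zero, Finset.sum_eq_single (sel i)]
      · rw [if_pos ⟨hi, rfl⟩]
        unfold Term.eval
        rw [← mul_assoc, falseAt_mul_prod a _ _ (hsel i hi)]
      · intro C _ hC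
        rw [if_neg (fun h => hC h.2.symm), mul_zero]
      · intro h
        exact absurd (hcert.1 i (hsel i hi)) h
    · have h5 : (P i).eval a (v a) (falseAt 𝕜 a) = (P i).eval a (v a) 0 := by
        unfold Term.eval
        rw [Finset.not_nonempty_iff_eq_empty] at hi
        rw [hi, Finset.prod_empty, Finset.prod_empty]
      rw [h5, sub_self]
      refine Finset.sum_eq_zero fun C _ => ?_
      rw [if_neg (fun h => hi h.1), mul_zero]
  have hb := good_boundj h2 L ρ J b t hJ U hU W hW R hR hgood F A hind hC G Q hrank hone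
  refine hb.trans (Nat.mul_le_mul_left _ ?_)
  rw [hQ, Finset.sum_comm]
  refine Finset.sum_le_sum fun i _ => ?_
  have h6 : ∀ C, (if (P i).used.Nonempty ∧ sel i = C then S i else 0) ≤
      (if sel i = C then S i else 0) := by
    intro C
    by_cases hC : sel i = C
    · rw [if_pos hC]
      split_ifs
      · exact le_rfl
      · exact Nat.zero_le _
    · rw [if_neg (fun h => hC h.2), if_neg hC]
  refine (Finset.sum_le_sum fun C _ => h6 C).trans ?_
  rw [Finset.sum_ite_eq]
  split_ifs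
  · exact le_rfl
  · exact Nat.zero_le _

end struct

end Pool.Agent.MP_9cec2c_lc.DepthThree
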