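import Mathlib
import Pool.Agent.Lib.MP_9cec2c_lc.D5Struct

/-!
The formula with selector variables which choose a permutation of the positions.
-/

set_option autoImplicit false

namespace Pool.Agent.MP_9cec2c_lc.DepthThree

open Finset

section cnfc

variable {N κ k n : ℕ}

/-- The form with ones on the diagonal. -/
def dg (L : Fin κ → Fin κ → ZMod 2) : Fin κ → Fin κ → ZMod 2 :=
  fun a c => if a = c then 1 else L a c

theorem wset_dg (L : Fin κ → Fin κ → ZMod 2) (ρ : Fin κ → Fin 3) :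
    wset (dg L) (0 : Fin 3) 1 ρ = wset L (0 : Fin 3) 1 ρ := by
  have h : wvec (dg L) (0 : Fin 3) 1 ρ = wvec L (0 : Fin 3) 1 ρ := by
    funext y a
    unfold wvec
    by_cases ha : ρ a = 0
    · rw [if_pos ha, if_pos ha]
      refine Finset.sum_congr rfl fun c _ => ?_
      by_cases hc : a = c
      · subst hc
        have : part (1 : Fin 3) ρ y a = 0 := by
          unfold part; rw [if_neg (by rw [ha]; decide)]
        rw [this, mul_zero, mul_zero]
      · unfold dg
        rw [if_neg hc, if_neg (fun h => hc h.symm)]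
    · rw [if_neg ha, if_neg ha]
  unfold wset
  rw [h]

/-- The clause of row `i` of the copy `c` which forbids the local assignment `β`. -/
def clc (w : Fin κ → Fin n) (g : Fin N × Fin κ → Fin n) (J : Fin (N + 1) × Fin k → Fin N)
    (c : Fin κ → Bool) (i : Fin (N + 1)) (β : Fin k → Fin κ → Bool) : Clause n :=
  (univ : Finset (Fin κ)).image (fun l => (w l, !c l)) ∪ cl g J i β

theorem falsifies_clc (w : Fin κ → Fin n) (g : Fin N × Fin κ → Fin n)
    (J : Fin (N + 1) × Fin k → Fin N) (c : Fin κ → Bool) (i : Fin (N + 1))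
    (β : Fin k → Fin κ → Bool) (a : Fin n → Bool) :
    Falsifies a (clc w g J c i β) ↔ (∀ l, a (w l) = c l) ∧
      ∀ l i', a (g (J (i, l), i')) = β l i' := by
  rw [← falsifies_cl]
  unfold Falsifies clc
  constructor
  · intro h
    refine ⟨fun l => ?_, fun l hl => h l (mem_union_right _ hl)⟩
    have := h (w l, !c l) (mem_union_left _ (mem_image.2 ⟨l, mem_univ _, rfl⟩))
    simpa using this
  · rintro ⟨h1, h2⟩ l hl
    rw [mem_union] at hl
    rcases hl with hl | hl
    · obtain ⟨l', _, rfl⟩ := mem_image.1 hl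
      rw [h1 l']
      simp
    · exact h2 l hl

/-- The formula. -/
def cnfc (e : Fin N × Fin κ → Fin n) (w : Fin κ → Fin n)
    (π : (Fin κ → Bool) → Equiv.Perm (Fin N × Fin κ))
    (L : (Fin κ → Bool) → Fin N → Fin κ → (Fin κ → ZMod 2))
    (J : Fin (N + 1) × Fin k → Fin N) (b : Fin (N + 1) → ZMod 2) : Finset (Clause n) :=
  ((univ : Finset ((Fin κ → Bool) × Fin (N + 1) × (Fin k → Fin κ → Bool))).filter
    (fun p => ∑ l, zval (dg (L p.1 (J (p.2.1, l)))) (p.2.2 l) ≠ b p.2.1)).image
    (fun p => clc w (fun q => e (π p.1 q)) J p.1 p.2.1 p.2.2)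

theorem mem_cnfc {e : Fin N × Fin κ → Fin n} {w : Fin κ → Fin n}
    {π : (Fin κ → Bool) → Equiv.Perm (Fin N × Fin κ)}
    {L : (Fin κ → Bool) → Fin N → Fin κ → (Fin κ → ZMod 2)}
    {J : Fin (N + 1) × Fin k → Fin N} {b : Fin (N + 1) → ZMod 2} {C : Clause n} :
    C ∈ cnfc e w π L J b ↔ ∃ c i β, ∑ l, zval (dg (L c (J (i, l)))) (β l) ≠ b i ∧
      clc w (fun q => e (π c q)) J c i β = C := by
  unfold cnfc
  simp only [mem_image, mem_filter, mem_univ, true_and, Prod.exists]

theorem card_cnfc (e : Fin N × Fin κ → Fin n) (w : Fin κ → Fin n)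
    (π : (Fin κ → Bool) → Equiv.Perm (Fin N × Fin κ))
    (L : (Fin κ → Bool) → Fin N → Fin κ → (Fin κ → ZMod 2))
    (J : Fin (N + 1) × Fin k → Fin N) (b : Fin (N + 1) → ZMod 2) :
    (cnfc e w π L J b).card ≤ 2 ^ κ * ((N + 1) * 2 ^ (κ * k)) := by
  classical
  unfold cnfc
  refine card_image_le.trans ((card_filter_le _ _).trans ?_)
  rw [card_univ, Fintype.card_prod, Fintype.card_prod, Fintype.card_fin, Fintype.card_fun,
    Fintype.card_fun, Fintype.card_fun, Fintype.card_bool, Fintype.card_fin, Fintype.card_fin,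
    ← pow_mul]

theorem width_cnfc (e : Fin N × Fin κ → Fin n) (w : Fin κ → Fin n)
    (π : (Fin κ → Bool) → Equiv.Perm (Fin N × Fin κ))
    (L : (Fin κ → Bool) → Fin N → Fin κ → (Fin κ → ZMod 2))
    (J : Fin (N + 1) × Fin k → Fin N) (b : Fin (N + 1) → ZMod 2) (C : Clause n)
    (hC : C ∈ cnfc e w π L J b) : C.card ≤ κ + κ * k := by
  obtain ⟨c, i, β, _, rfl⟩ := mem_cnfc.1 hC
  unfold clc cl
  refine (card_union_le _ _).trans (Nat.add_le_add ?_ ?_)
  · refine card_image_le.trans ?_
    rw [card_univ, Fintype.card_fin]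
  · refine card_image_le.trans ?_
    rw [card_univ, Fintype.card_prod, Fintype.card_fin, Fintype.card_fin, mul_comm]

theorem unsat_cnfc (e : Fin N × Fin κ → Fin n) (w : Fin κ → Fin n)
    (π : (Fin κ → Bool) → Equiv.Perm (Fin N × Fin κ))
    (L : (Fin κ → Bool) → Fin N → Fin κ → (Fin κ → ZMod 2))
    (J : Fin (N + 1) × Fin k → Fin N) (b : Fin (N + 1) → ZMod 2)
    (hb : ∀ z : Fin N → ZMod 2, ∃ i, ∑ l, z (J (i, l)) ≠ b i) (a : Fin n → Bool) :
    ∃ C ∈ cnfc e w π L J b, Falsifies a C := by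
  obtain ⟨c, hc⟩ : ∃ c : Fin κ → Bool, c = fun l => a (w l) := ⟨_, rfl⟩
  obtain ⟨i, hi⟩ := hb (fun j => zval (dg (L c j)) (fun i' => a (e (π c (j, i')))))
  refine ⟨clc w (fun q => e (π c q)) J c i (fun l i' => a (e (π c (J (i, l), i')))),
    mem_cnfc.2 ⟨c, i, _, hi, rfl⟩, ?_⟩
  rw [falsifies_clc]
  exact ⟨fun l => by rw [hc], fun l i' => rfl⟩

/-- The values of the dead variables: the selector variables have the values `c`. -/
noncomputable def selc (w : Fin κ → Fin n) (c : Fin κ → Bool) : Fin n → Bool :=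
  Function.extend w c (fun _ => false)

/-- At a restricted assignment a falsified clause violates its row. -/
theorem cnfc_row {e : Fin N × Fin κ → Fin n} (he : Function.Injective e) {w : Fin κ → Fin n}
    (hw : Function.Injective w) (hew : ∀ p l, e p ≠ w l)
    (π : (Fin κ → Bool) → Equiv.Perm (Fin N × Fin κ))
    (L : (Fin κ → Bool) → Fin N → Fin κ → (Fin κ → ZMod 2))
    (J : Fin (N + 1) × Fin k → Fin N) (b : Fin (N + 1) → ZMod 2) (c : Fin κ → Bool)
    (ρ : Fin N × Fin κ → Fin 3) (C : Clause n) (hC : C ∈ cnfc e w π L J b) :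
    ∃ i0, ∀ x y, Falsifies (combd (fun q => e (π c q)) ρ (selc w c) x y) C →
      rowval (fun j => dg (L c j)) ρ J i0 x y ≠ b i0 := by
  obtain ⟨c', i, β, hβ, rfl⟩ := mem_cnfc.1 hC
  have hg : Function.Injective (fun q => e (π c q)) := he.comp (π c).injective
  refine ⟨i, fun x y hf => ?_⟩
  rw [falsifies_clc] at hf
  have hcc : c' = c := by
    funext l
    rw [← hf.1 l, combd_apply']
    · unfold selc
      rw [hw.extend_apply]
    · rintro ⟨q, hq⟩
      exact hew _ _ hq
  subst hcc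
  have h1 : ∀ l, mix (0 : Fin 3) 1 (fun a => ρ (J (i, l), a)) (x (J (i, l))) (y (J (i, l))) =
      β l := by
    intro l
    funext i'
    rw [← hf.2 l i']
    have h2 := combd_apply hg ρ (selc w c') x y (J (i, l), i')
    rw [h2]
    unfold mix
    by_cases hX : ρ (J (i, l), i') = 0
    · rw [if_pos hX, if_pos hX]
    · rw [if_neg hX, if_neg hX]
      by_cases hY : ρ (J (i, l), i') = 1
      · rw [if_pos hY, if_pos hY]
      · rw [if_neg hY, if_neg hY]
        unfold selc
        rw [Function.extend_apply']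
        rintro ⟨l', hl'⟩
        exact hew _ _ hl'.symm
  unfold rowval
  simp only [h1]
  exact hβ

end cnfc

end Pool.Agent.MP_9cec2c_lc.DepthThree
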