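import Mathlib
import Pool.Agent.Lib.MP_9cec2c_lc.D4Gadget

/-!
Random quadratic forms are good for given sets of positions.
-/

set_option autoImplicit false

namespace Pool.Agent.MP_9cec2c_lc.DepthThree

open Finset
open Pool.Agent.MP_9cec2c_lc.SubstRed

section form

variable {κ : ℕ} {α : Type*} [DecidableEq α]

/-- The pattern: a position of `X'` or of `Y'` is alive if its value is `a`. -/
def patt (X' Y' : Finset (Fin κ)) (a : α) (σ : Fin κ → α) (i : Fin κ) : Fin 3 :=
  if σ i = a then (if i ∈ X' then 0 else if i ∈ Y' then 1 else 2) else 2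

/-- The form is good for at least half of the patterns. -/
def GoodForm [Fintype α] (a : α) (b r : ℕ) (L : Fin κ → (Fin κ → ZMod 2))
    (X' Y' : Finset (Fin κ)) : Prop :=
  1 / 2 ≤ pr (fun σ : Fin κ → α =>
    2 ^ b ≤ 2 ^ r * (wset L (0 : Fin 3) 1 (patt X' Y' a σ)).card)

/-- For a fixed balanced pattern a random form is good (`pr_bad_L` for general `r`). -/
theorem pr_bad_L_gen (aX aY : α) (hne : aX ≠ aY) (ρ : Fin κ → α) (b r : ℕ)
    (hX : b ≤ (univ.filter (fun a => ρ a = aX)).card)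
    (hY : b ≤ (univ.filter (fun a => ρ a = aY)).card) :
    pr (fun L : Fin κ → (Fin κ → ZMod 2) => ¬ 2 ^ b ≤ 2 ^ r * (wset L aX aY ρ).card) ≤
      2 / 2 ^ r := by
  classical
  obtain ⟨D, hD⟩ : ∃ D : ℝ, D = ((supp aY ρ).card : ℝ) := ⟨_, rfl⟩
  have hDb : (2 : ℝ) ^ b ≤ D := by
    rw [hD, card_supp]
    push_cast
    exact pow_le_pow_right₀ (by norm_num) hY
  have hD0 : 0 < D := lt_of_lt_of_le (by positivity) hDb
  obtain ⟨x, hx⟩ : ∃ x : ℝ, x = (1 / 2 : ℝ) ^ (univ.filter (fun a => ρ a = aX)).card := ⟨_, rfl⟩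
  have hxb : x * 2 ^ b ≤ 1 := by
    rw [hx]
    have : (1 / 2 : ℝ) ^ (univ.filter (fun a => ρ a = aX)).card ≤ (1 / 2) ^ b :=
      pow_le_pow_of_le_one (by norm_num) (by norm_num) hX
    calc (1 / 2 : ℝ) ^ (univ.filter (fun a => ρ a = aX)).card * 2 ^ b
        ≤ (1 / 2) ^ b * 2 ^ b := by gcongr
      _ = 1 := by rw [← mul_pow]; norm_num
  have hx0 : 0 ≤ x := by rw [hx]; positivity
  -- expected number of collisions
  have hE : avg (fun L : Fin κ → (Fin κ → ZMod 2) => ∑ y ∈ supp aY ρ, ∑ y' ∈ supp aY ρ,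
      (if wvec L aX aY ρ y = wvec L aX aY ρ y' then (1 : ℝ) else 0)) ≤ D + D ^ 2 * x := by
    rw [avg_sum]
    have h1 : ∀ y ∈ supp aY ρ, avg (fun L : Fin κ → (Fin κ → ZMod 2) => ∑ y' ∈ supp aY ρ,
        (if wvec L aX aY ρ y = wvec L aX aY ρ y' then (1 : ℝ) else 0)) ≤ 1 + D * x := by
      intro y hy
      rw [avg_sum]
      rw [← Finset.add_sum_erase _ _ hy]
      have h2 : avg (fun L : Fin κ → (Fin κ → ZMod 2) =>
          (if wvec L aX aY ρ y = wvec L aX aY ρ y then (1 : ℝ) else 0)) = 1 := by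
        simp [avg_const]
      rw [h2]
      have h3 : ∑ y' ∈ (supp aY ρ).erase y, avg (fun L : Fin κ → (Fin κ → ZMod 2) =>
          (if wvec L aX aY ρ y = wvec L aX aY ρ y' then (1 : ℝ) else 0)) ≤
          ∑ y' ∈ (supp aY ρ).erase y, x := by
        refine Finset.sum_le_sum fun y' hy' => ?_
        rw [avg_indicator, hx]
        exact pr_coll aX aY hne ρ y y' hy (mem_of_mem_erase hy') (ne_of_mem_erase hy').symm
      rw [Finset.sum_const, nsmul_eq_mul] at h3
      have h4 : (((supp aY ρ).erase y).card : ℝ) * x ≤ D * x := by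
        rw [hD]
        gcongr
        exact erase_subset _ _
      linarith
    refine (Finset.sum_le_sum h1).trans ?_
    rw [Finset.sum_const, nsmul_eq_mul, ← hD]
    nlinarith
  -- Markov
  have hM : ∀ L : Fin κ → (Fin κ → ZMod 2),
      (if ¬ 2 ^ b ≤ 2 ^ r * (wset L aX aY ρ).card then (1 : ℝ) else 0) ≤
      (2 ^ b / (2 ^ r * D ^ 2)) * ∑ y ∈ supp aY ρ, ∑ y' ∈ supp aY ρ,
      (if wvec L aX aY ρ y = wvec L aX aY ρ y' then (1 : ℝ) else 0) := by
    intro L
    have hc0 : 0 ≤ ∑ y ∈ supp aY ρ, ∑ y' ∈ supp aY ρ,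
        (if wvec L aX aY ρ y = wvec L aX aY ρ y' then (1 : ℝ) else 0) :=
      Finset.sum_nonneg fun y _ => Finset.sum_nonneg fun y' _ => by split_ifs <;> norm_num
    by_cases h : 2 ^ b ≤ 2 ^ r * (wset L aX aY ρ).card
    swap
    · rw [if_pos h]
      push Not at h
      have h1 : (2 ^ r * ((wset L aX aY ρ).card : ℝ)) < 2 ^ b := by exact_mod_cast h
      have h2 := card_sq_le aX aY ρ L
      rw [← hD] at h2
      rw [div_mul_eq_mul_div, le_div_iff₀ (by positivity), one_mul]
      have h3 := mul_le_mul_of_nonneg_left h2 (show (0 : ℝ) ≤ 2 ^ r by positivity)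
      rw [← mul_assoc] at h3
      exact h3.trans (mul_le_mul_of_nonneg_right h1.le hc0)
    · rw [if_neg (not_not.2 h)]
      positivity
  rw [← avg_indicator]
  refine (avg_mono hM).trans ?_
  rw [avg_const_mul]
  calc 2 ^ b / (2 ^ r * D ^ 2) * avg _ ≤ 2 ^ b / (2 ^ r * D ^ 2) * (D + D ^ 2 * x) := by gcongr
    _ = (2 ^ b / D + x * 2 ^ b) / 2 ^ r := by field_simp
    _ ≤ (1 + 1) / 2 ^ r := by
        gcongr
        rw [div_le_one hD0]; exact hDb
    _ = 2 / 2 ^ r := by norm_num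

/-- A random form is good for given sets with high probability. -/
theorem pr_bad_form [Fintype α] [Nonempty α] (a : α) (β0 r : ℕ) (hβ : 6 ≤ β0)
    (X' Y' : Finset (Fin κ)) (hdisj : Disjoint X' Y')
    (hX : X'.card = Fintype.card α * β0 ^ 2) (hY : Y'.card = Fintype.card α * β0 ^ 2) :
    pr (fun L : Fin κ → (Fin κ → ZMod 2) => ¬ GoodForm a (β0 ^ 2 - 6 * β0) r L X' Y') ≤
      8 / 2 ^ r := by
  classical
  obtain ⟨b, hb⟩ : ∃ b : ℕ, b = β0 ^ 2 - 6 * β0 := ⟨_, rfl⟩
  rw [← hb]
  have hcX := conc_set a β0 hβ X' hX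
  have hcY := conc_set a β0 hβ Y' hY
  rw [← hb] at hcX hcY
  have eX : ∀ σ : Fin κ → α, (univ.filter (fun i => patt X' Y' a σ i = 0)) =
      X'.filter (fun i => σ i = a) := by
    intro σ
    ext i
    rw [mem_filter, mem_filter]
    unfold patt
    by_cases h1 : σ i = a
    · by_cases h2 : i ∈ X'
      · simp [h1, h2]
      · by_cases h3 : i ∈ Y' <;> simp [h1, h2, h3]
    · simp [h1]
  have eY : ∀ σ : Fin κ → α, (univ.filter (fun i => patt X' Y' a σ i = 1)) =
      Y'.filter (fun i => σ i = a) := by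
    intro σ
    ext i
    rw [mem_filter, mem_filter]
    unfold patt
    by_cases h1 : σ i = a
    · by_cases h2 : i ∈ X'
      · have h3 : i ∉ Y' := disjoint_left.1 hdisj h2
        simp [h1, h2, h3]
      · by_cases h3 : i ∈ Y' <;> simp [h1, h2, h3]
    · simp [h1]
  obtain ⟨cX, hcXd⟩ : ∃ cX : (Fin κ → α) → ℝ, cX = fun σ =>
    if (X'.filter (fun i => σ i = a)).card < b then (1 : ℝ) else 0 := ⟨_, rfl⟩
  obtain ⟨cY, hcYd⟩ : ∃ cY : (Fin κ → α) → ℝ, cY = fun σ =>
    if (Y'.filter (fun i => σ i = a)).card < b then (1 : ℝ) else 0 := ⟨_, rfl⟩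
  obtain ⟨f, hf⟩ : ∃ f : (Fin κ → (Fin κ → ZMod 2)) → (Fin κ → α) → ℝ, f = fun L σ =>
    if b ≤ (X'.filter (fun i => σ i = a)).card ∧ b ≤ (Y'.filter (fun i => σ i = a)).card ∧
      ¬ 2 ^ b ≤ 2 ^ r * (wset L (0 : Fin 3) 1 (patt X' Y' a σ)).card then (1 : ℝ) else 0 :=
    ⟨_, rfl⟩
  have hf0 : ∀ L σ, 0 ≤ f L σ := by
    intro L σ; rw [hf]; show 0 ≤ (if _ then (1 : ℝ) else 0); split_ifs <;> norm_num
  -- the average of `f`
  have hav : avg (fun L => avg (f L)) ≤ 2 / 2 ^ r := by
    have h2 : avg (fun L => avg (f L)) = avg (fun σ => avg (fun L => f L σ)) := by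
      unfold avg
      simp only [← Finset.sum_div]
      rw [Finset.sum_comm, div_right_comm]
    rw [h2]
    have h3 : ∀ σ, avg (fun L => f L σ) ≤ 2 / 2 ^ r := by
      intro σ
      by_cases hx : b ≤ (X'.filter (fun i => σ i = a)).card ∧
          b ≤ (Y'.filter (fun i => σ i = a)).card
      · have h4 : (fun L => f L σ) = fun L : Fin κ → (Fin κ → ZMod 2) =>
            if ¬ 2 ^ b ≤ 2 ^ r * (wset L (0 : Fin 3) 1 (patt X' Y' a σ)).card then (1 : ℝ)
              else 0 := by
          funext L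
          rw [hf]
          show (if _ then (1 : ℝ) else 0) = _
          rw [if_congr (show _ ↔ ¬ 2 ^ b ≤ 2 ^ r * (wset L (0 : Fin 3) 1
            (patt X' Y' a σ)).card from ⟨fun h => h.2.2, fun h => ⟨hx.1, hx.2, h⟩⟩) rfl rfl]
        rw [h4, avg_indicator]
        exact pr_bad_L_gen (0 : Fin 3) 1 (by decide) (patt X' Y' a σ) b r
          (by rw [eX]; exact hx.1) (by rw [eY]; exact hx.2)
      · have h4 : (fun L => f L σ) = fun _ : Fin κ → (Fin κ → ZMod 2) => (0 : ℝ) := by
          funext L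
          rw [hf]
          show (if _ then (1 : ℝ) else 0) = 0
          rw [if_neg]
          rintro ⟨h5, h6, _⟩
          exact hx ⟨h5, h6⟩
        rw [h4, avg_const]
        positivity
    refine (avg_mono h3).trans (le_of_eq (avg_const _))
  -- not good implies a large average
  have hM : ∀ L : Fin κ → (Fin κ → ZMod 2),
      (if ¬ GoodForm a b r L X' Y' then (1 : ℝ) else 0) ≤ 4 * avg (f L) := by
    intro L
    by_cases hg : GoodForm a b r L X' Y'
    · rw [if_neg (not_not.2 hg)]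
      have := avg_nonneg (hf0 L)
      linarith
    · rw [if_pos hg]
      unfold GoodForm at hg
      push Not at hg
      have h5 : 1 - pr (fun σ : Fin κ → α =>
          2 ^ b ≤ 2 ^ r * (wset L (0 : Fin 3) 1 (patt X' Y' a σ)).card) =
          avg (fun σ : Fin κ → α => 1 - (if 2 ^ b ≤ 2 ^ r *
            (wset L (0 : Fin 3) 1 (patt X' Y' a σ)).card then (1 : ℝ) else 0)) := by
        rw [avg_sub, avg_const, avg_indicator]
      have h6 : ∀ σ : Fin κ → α, 1 - (if 2 ^ b ≤ 2 ^ r *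
            (wset L (0 : Fin 3) 1 (patt X' Y' a σ)).card then (1 : ℝ) else 0) ≤
            cX σ + cY σ + f L σ := by
        intro σ
        rw [hcXd, hcYd, hf]
        show _ ≤ (if _ then (1 : ℝ) else 0) + (if _ then (1 : ℝ) else 0) +
          (if _ then (1 : ℝ) else 0)
        by_cases h7 : 2 ^ b ≤ 2 ^ r * (wset L (0 : Fin 3) 1 (patt X' Y' a σ)).card
        · rw [if_pos h7]
          split_ifs <;> norm_num
        · rw [if_neg h7]
          by_cases h8 : (X'.filter (fun i => σ i = a)).card < b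
          · rw [if_pos h8]
            split_ifs <;> norm_num
          · by_cases h9 : (Y'.filter (fun i => σ i = a)).card < b
            · rw [if_neg h8, if_pos h9]
              split_ifs <;> norm_num
            · rw [if_neg h8, if_neg h9, if_pos ⟨not_lt.1 h8, not_lt.1 h9, h7⟩]
              norm_num
      have h7 := avg_mono h6
      rw [← h5, avg_add, avg_add] at h7
      rw [← hcXd] at hcX
      rw [← hcYd] at hcY
      linarith
  rw [← avg_indicator]
  refine (avg_mono hM).trans ?_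
  rw [avg_const_mul]
  calc 4 * avg (fun L => avg (f L)) ≤ 4 * (2 / 2 ^ r) := mul_le_mul_of_nonneg_left hav (by norm_num)
    _ = 8 / 2 ^ r := by ring

end form

end Pool.Agent.MP_9cec2c_lc.DepthThree
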