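import Mathlib
import Pool.Agent.Lib.MP_9cec2c_lc.Mg.G050
import Pool.Agent.Lib.MP_9cec2c_lc.D3Prob
import Pool.Agent.Lib.MP_9cec2c_lc.D3GadgetEx

/-!
Random permutations spread a set over the blocks.
-/

set_option autoImplicit false

namespace Pool.Agent.MP_9cec2c_lc.DepthThree

open Finset
open Pool.Agent.MP_9cec2c_lc.SubstRed

private theorem ppa_step {P : Type*} [Fintype P] [DecidableEq P] (Q X : Finset P) (p0 : P)
    (hp0 : p0 ∉ Q) :
    ((Fintype.card P : ℝ) - Q.card) * ((univ.filter (fun π : Equiv.Perm P =>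
      ∀ p ∈ insert p0 Q, π p ∉ X)).card : ℝ) =
    ((Fintype.card P : ℝ) - X.card - Q.card) * ((univ.filter (fun π : Equiv.Perm P =>
      ∀ p ∈ Q, π p ∉ X)).card : ℝ) := by
  have hdc := Finset.sum_card_bipartiteAbove_eq_sum_card_bipartiteBelow
    (s := Qᶜ) (t := univ.filter (fun π : Equiv.Perm P => ∀ p ∈ Q, π p ∉ X))
    (fun (p : P) (π : Equiv.Perm P) => π p ∉ X)
  have h1 : ∀ p ∈ Qᶜ, ((univ.filter (fun π : Equiv.Perm P => ∀ p ∈ Q, π p ∉ X)).bipartiteAbove
      (fun (p : P) (π : Equiv.Perm P) => π p ∉ X) p).card =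
      (univ.filter (fun π : Equiv.Perm P => ∀ p ∈ insert p0 Q, π p ∉ X)).card := by
    intro p hp
    rw [mem_compl] at hp
    refine Finset.card_nbij' (fun π => π * Equiv.swap p0 p) (fun π => π * Equiv.swap p0 p)
      ?_ ?_ ?_ ?_
    · intro π hπ
      simp only [bipartiteAbove, mem_coe, mem_filter, mem_univ, true_and] at hπ
      simp only [mem_coe, mem_filter, mem_univ, true_and]
      intro q hq
      rw [mem_insert] at hq
      rcases hq with rfl | hq
      · rw [Equiv.Perm.mul_apply, Equiv.swap_apply_left]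
        exact hπ.2
      · rw [Equiv.Perm.mul_apply, Equiv.swap_apply_of_ne_of_ne]
        · exact hπ.1 q hq
        · rintro rfl; exact hp0 hq
        · rintro rfl; exact hp hq
    · intro π hπ
      simp only [mem_coe, mem_filter, mem_univ, true_and] at hπ
      simp only [bipartiteAbove, mem_coe, mem_filter, mem_univ, true_and]
      refine ⟨fun q hq => ?_, ?_⟩
      · rw [Equiv.Perm.mul_apply, Equiv.swap_apply_of_ne_of_ne]
        · exact hπ q (mem_insert_of_mem hq)
        · rintro rfl; exact hp0 hq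
        · rintro rfl; exact hp hq
      · rw [Equiv.Perm.mul_apply, Equiv.swap_apply_right]
        exact hπ p0 (mem_insert_self _ _)
    · intro π _
      simp only [mul_assoc, Equiv.swap_mul_self, mul_one]
    · intro π _
      simp only [mul_assoc, Equiv.swap_mul_self, mul_one]
  have h2 : ∀ π ∈ univ.filter (fun π : Equiv.Perm P => ∀ p ∈ Q, π p ∉ X),
      (((Qᶜ).bipartiteBelow (fun (p : P) (π : Equiv.Perm P) => π p ∉ X) π).card : ℝ) =
      (Fintype.card P : ℝ) - X.card - Q.card := by
    intro π hπ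
    simp only [mem_filter, mem_univ, true_and] at hπ
    have h3 : (univ.filter (fun p => π p ∈ X)).card = X.card := by
      rw [← Finset.card_map π.symm.toEmbedding (s := X)]
      congr 1
      ext p
      simp only [mem_filter, mem_univ, true_and, mem_map, Equiv.coe_toEmbedding]
      constructor
      · intro h; exact ⟨π p, h, by simp⟩
      · rintro ⟨q, hq, rfl⟩; simpa using hq
    have h4 := Finset.card_filter_add_card_filter_not (s := (univ : Finset P)) (fun p => π p ∈ X)
    have h5 : (Qᶜ).bipartiteBelow (fun (p : P) (π : Equiv.Perm P) => π p ∉ X) π =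
        (univ.filter (fun p => ¬ π p ∈ X)) \ Q := by
      ext p
      simp only [bipartiteBelow, mem_filter, mem_compl, mem_sdiff, mem_univ, true_and]
      tauto
    have h6 : Q ⊆ univ.filter (fun p => ¬ π p ∈ X) := by
      intro q hq
      simp only [mem_filter, mem_univ, true_and]
      exact hπ q hq
    have h7 := Finset.card_sdiff_add_card_eq_card h6
    rw [← h5] at h7
    rw [h3, card_univ] at h4
    have h8 : (((Qᶜ).bipartiteBelow (fun (p : P) (π : Equiv.Perm P) => π p ∉ X) π).card : ℝ)
        + Q.card = ((univ.filter (fun p => ¬ π p ∈ X)).card : ℝ) := by exact_mod_cast h7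
    have h9 : (X.card : ℝ) + ((univ.filter (fun p => ¬ π p ∈ X)).card : ℝ) =
        Fintype.card P := by exact_mod_cast h4
    linarith
  have h3 : ((∑ p ∈ Qᶜ, ((univ.filter (fun π : Equiv.Perm P => ∀ p ∈ Q, π p ∉ X)).bipartiteAbove
      (fun (p : P) (π : Equiv.Perm P) => π p ∉ X) p).card : ℕ) : ℝ) =
      ((Fintype.card P : ℝ) - Q.card) * ((univ.filter (fun π : Equiv.Perm P =>
      ∀ p ∈ insert p0 Q, π p ∉ X)).card : ℝ) := by
    rw [Finset.sum_congr rfl h1, Finset.sum_const, smul_eq_mul, Nat.cast_mul]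
    congr 1
    rw [Finset.card_compl, Nat.cast_sub (Finset.card_le_univ Q)]
  rw [← h3, hdc, Nat.cast_sum, Finset.sum_congr rfl h2, Finset.sum_const, nsmul_eq_mul, mul_comm]

/-- A random permutation maps `Q` outside of `X` with small probability. -/
theorem pr_perm_avoid {P : Type*} [Fintype P] [DecidableEq P] (Q X : Finset P) :
    pr (fun π : Equiv.Perm P => ∀ p ∈ Q, π p ∉ X) ≤
      (1 - (X.card : ℝ) / Fintype.card P) ^ Q.card := by
  induction Q using Finset.induction_on with
  | empty => simpa using pr_le_one _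
  | insert p0 Q hp0 ih =>
    have hn : (0 : ℝ) < Fintype.card P := by
      exact_mod_cast Fintype.card_pos_iff.2 ⟨p0⟩
    have hX : (X.card : ℝ) ≤ Fintype.card P := by exact_mod_cast Finset.card_le_univ X
    have hQ : (Q.card : ℝ) < Fintype.card P := by
      have : (insert p0 Q).card ≤ Fintype.card P := Finset.card_le_univ _
      rw [card_insert_of_notMem hp0] at this
      exact_mod_cast this
    have h0 : 0 ≤ 1 - (X.card : ℝ) / Fintype.card P := by
      rw [sub_nonneg, div_le_one hn]; exact hX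
    rw [card_insert_of_notMem hp0, pow_succ]
    refine le_trans ?_ (mul_le_mul_of_nonneg_right ih h0)
    rw [pr_eq, pr_eq, div_mul_eq_mul_div]
    refine div_le_div_of_nonneg_right ?_ (by positivity)
    have h1 := ppa_step Q X p0 hp0
    set C' : ℝ := ((univ.filter (fun π : Equiv.Perm P => ∀ p ∈ insert p0 Q, π p ∉ X)).card : ℝ)
    set C : ℝ := ((univ.filter (fun π : Equiv.Perm P => ∀ p ∈ Q, π p ∉ X)).card : ℝ)
    have hC : 0 ≤ C := Nat.cast_nonneg _
    have hq : 0 < (Fintype.card P : ℝ) - Q.card := by linarith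
    have h2 : C' = ((Fintype.card P : ℝ) - X.card - Q.card) / ((Fintype.card P : ℝ) - Q.card) * C := by
      rw [div_mul_eq_mul_div, eq_div_iff hq.ne', mul_comm C', h1]
    rw [h2, mul_comm C]
    refine mul_le_mul_of_nonneg_right ?_ hC
    rw [div_le_iff₀ hq, sub_mul, one_mul]
    have h3 : (X.card : ℝ) / Fintype.card P * ((Fintype.card P : ℝ) - Q.card) ≤ X.card := by
      rw [div_mul_eq_mul_div, div_le_iff₀ hn]
      refine mul_le_mul_of_nonneg_left ?_ (Nat.cast_nonneg _)
      have : (0 : ℝ) ≤ Q.card := Nat.cast_nonneg _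
      linarith
    linarith

/-- The number of small subsets. -/
theorem count_small_sets (κ κ' D : ℕ) (hD : 1 ≤ D) :
    ((univ.filter (fun T : Finset (Fin κ) => T.card < κ')).card : ℝ) ≤
      (1 + 1 / (4 * D)) ^ κ * (4 * D) ^ κ' := by
  classical
  have hDr : (1 : ℝ) ≤ D := by exact_mod_cast hD
  obtain ⟨t, ht⟩ : ∃ t : ℝ, t = 1 / (4 * D) := ⟨_, rfl⟩
  have ht0 : 0 < t := by rw [ht]; positivity
  have htD : t * (4 * D) = 1 := by rw [ht]; field_simp
  have h4D : (1 : ℝ) ≤ 4 * D := by linarith
  have h1 := sum_pow_card (ι := Fin κ) t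
  rw [Fintype.card_fin] at h1
  rw [← ht, ← h1, Finset.sum_mul]
  have h2 : ((univ.filter (fun T : Finset (Fin κ) => T.card < κ')).card : ℝ) =
      ∑ T : Finset (Fin κ), (if T.card < κ' then (1 : ℝ) else 0) := by
    rw [Finset.sum_boole]
  rw [h2]
  refine Finset.sum_le_sum fun T _ => ?_
  by_cases hT : T.card < κ'
  · rw [if_pos hT]
    have h3 : t ^ T.card * (4 * (D : ℝ)) ^ κ' = (4 * (D : ℝ)) ^ (κ' - T.card) := by
      have h4 : κ' = T.card + (κ' - T.card) := by omega
      conv_lhs => rw [h4, pow_add, ← mul_assoc, ← mul_pow, htD, one_pow, one_mul]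
    rw [h3]
    exact one_le_pow₀ h4D
  · rw [if_neg hT]
    positivity

theorem p0_bound (κ κ' D : ℕ) (hD : 1 ≤ D) (hκ' : 10 ^ 10 ≤ κ')
    (hκ : κ = 8 * D ^ 2 * κ') :
    ((1 + 1 / (4 * D)) ^ κ * (4 * D) ^ κ') * (1 - 1 / (D : ℝ)) ^ (κ - κ') ≤
      (1 / 2) ^ 14000 := by
  have hDr : (1 : ℝ) ≤ D := by exact_mod_cast hD
  have hκr : (κ : ℝ) = 8 * D ^ 2 * κ' := by rw [hκ]; push_cast; ring
  have hκ'r : (10 : ℝ) ^ 10 ≤ κ' := by exact_mod_cast hκ'
  have hle : κ' ≤ κ := by
    rw [hκ]
    exact Nat.le_mul_of_pos_left κ' (by positivity)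
  have h1 : (1 + 1 / (4 * (D : ℝ))) ^ κ ≤ Real.exp (2 * D * κ') := by
    have h2 : 1 + 1 / (4 * (D : ℝ)) ≤ Real.exp (1 / (4 * D)) := by
      have := Real.add_one_le_exp (1 / (4 * (D : ℝ))); linarith
    refine (pow_le_pow_left₀ (by positivity) h2 κ).trans (le_of_eq ?_)
    rw [← Real.exp_nat_mul, hκr]
    congr 1
    field_simp
    ring
  have h2 : (4 * (D : ℝ)) ^ κ' ≤ Real.exp ((4 * D - 1) * κ') := by
    have h3 : 4 * (D : ℝ) ≤ Real.exp (4 * D - 1) := by
      have := Real.add_one_le_exp (4 * (D : ℝ) - 1); linarith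
    refine (pow_le_pow_left₀ (by positivity) h3 κ').trans (le_of_eq ?_)
    rw [← Real.exp_nat_mul]
    congr 1
    ring
  have h0 : 0 ≤ 1 - 1 / (D : ℝ) := by
    rw [sub_nonneg, div_le_one (by linarith)]; exact hDr
  have h3 : (1 - 1 / (D : ℝ)) ^ (κ - κ') ≤ Real.exp (-(8 * D * κ') + κ' / D) := by
    have h4 : 1 - 1 / (D : ℝ) ≤ Real.exp (-(1 / D)) := by
      have := Real.add_one_le_exp (-(1 / (D : ℝ))); linarith
    refine (pow_le_pow_left₀ h0 h4 (κ - κ')).trans (le_of_eq ?_)
    rw [← Real.exp_nat_mul, Nat.cast_sub hle, hκr]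
    congr 1
    field_simp
    ring
  calc ((1 + 1 / (4 * D)) ^ κ * (4 * D) ^ κ') * (1 - 1 / (D : ℝ)) ^ (κ - κ')
      ≤ (Real.exp (2 * D * κ') * Real.exp ((4 * D - 1) * κ')) *
          Real.exp (-(8 * D * κ') + κ' / D) := by
        apply mul_le_mul _ h3 (pow_nonneg h0 _) (by positivity)
        exact mul_le_mul h1 h2 (by positivity) (by positivity)
    _ = Real.exp (2 * D * κ' + (4 * D - 1) * κ' + (-(8 * D * κ') + κ' / D)) := by
        rw [← Real.exp_add, ← Real.exp_add]
    _ ≤ Real.exp (-(14000 : ℝ)) := by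
        apply Real.exp_le_exp.2
        have h5 : (κ' : ℝ) / D ≤ κ' := div_le_self (by positivity) hDr
        have h6 : (κ' : ℝ) ≤ D * κ' := le_mul_of_one_le_left (by positivity) hDr
        have h7 : (14000 : ℝ) ≤ 10 ^ 10 := by norm_num
        nlinarith
    _ ≤ (1 / 2) ^ 14000 := by
        have h8 : Real.exp (-1) ≤ 1 / 2 := by
          rw [Real.exp_neg, inv_eq_one_div]
          apply one_div_le_one_div_of_le (by norm_num)
          have := Real.add_one_le_exp (1 : ℝ); linarith
        have h9 : Real.exp (-(14000 : ℝ)) = (Real.exp (-1)) ^ 14000 := by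
          rw [← Real.exp_nat_mul]
          congr 1
          norm_num
        rw [h9]
        exact pow_le_pow_left₀ (Real.exp_pos _).le h8 14000

/-- With high probability a large set meets almost every block in many points. -/
theorem pr_perm_few {N κ κ' D : ℕ} (hD : 1 ≤ D) (hκ' : 10 ^ 10 ≤ κ')
    (hκ : κ = 8 * D ^ 2 * κ') (X : Finset (Fin N × Fin κ)) (hX : N * κ ≤ D * X.card) :
    pr (fun π : Equiv.Perm (Fin N × Fin κ) => N < 2000 * (univ.filter (fun j : Fin N =>
      (univ.filter (fun i : Fin κ => π (j, i) ∈ X)).card < κ')).card) ≤ (1 / 2) ^ (6 * N) := by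
  classical
  have hDr : (1 : ℝ) ≤ D := by exact_mod_cast hD
  have h0 : 0 ≤ 1 - 1 / (D : ℝ) := by
    rw [sub_nonneg, div_le_one (by linarith)]; exact hDr
  have h01 : 1 - 1 / (D : ℝ) ≤ 1 := by
    have : 0 ≤ 1 / (D : ℝ) := by positivity
    linarith
  have hκ0 : 0 < κ := by
    rw [hκ]
    have : 0 < κ' := lt_of_lt_of_le (by norm_num) hκ'
    positivity
  obtain ⟨small, hsmall⟩ : ∃ small : Finset (Finset (Fin κ)), small =
    univ.filter (fun T : Finset (Fin κ) => T.card < κ') := ⟨_, rfl⟩
  -- one set of blocks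
  have hS : ∀ S ∈ (univ : Finset (Finset (Fin N))).filter (fun S => N < 2000 * S.card),
      pr (fun π : Equiv.Perm (Fin N × Fin κ) => ∀ j ∈ S,
        (univ.filter (fun i : Fin κ => π (j, i) ∈ X)).card < κ') ≤ (1 / 2) ^ (7 * N) := by
    intro S hS
    rw [mem_filter] at hS
    have hN0 : 0 < N := by
      by_contra hcon
      have : N = 0 := by omega
      subst this
      have : S.card = 0 := by
        rw [card_eq_zero]
        exact Finset.eq_empty_of_isEmpty S
      omega
    have hP0 : (0 : ℝ) < (Fintype.card (Fin N × Fin κ) : ℝ) := by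
      rw [Fintype.card_prod, Fintype.card_fin, Fintype.card_fin]
      exact_mod_cast Nat.mul_pos hN0 hκ0
    have ha : 1 / (D : ℝ) ≤ (X.card : ℝ) / Fintype.card (Fin N × Fin κ) := by
      rw [div_le_div_iff₀ (by linarith) hP0, one_mul, Fintype.card_prod, Fintype.card_fin,
        Fintype.card_fin]
      have : ((N * κ : ℕ) : ℝ) ≤ ((D * X.card : ℕ) : ℝ) := by exact_mod_cast hX
      refine this.trans (le_of_eq ?_)
      push_cast
      ring
    have ha1 : (X.card : ℝ) / Fintype.card (Fin N × Fin κ) ≤ 1 := by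
      rw [div_le_one hP0]
      exact_mod_cast card_le_univ X
    obtain ⟨TT, hTT⟩ : ∃ TT : Finset (Fin N → Finset (Fin κ)), TT =
      Fintype.piFinset (fun j => if j ∈ S then small else {∅}) := ⟨_, rfl⟩
    have hTTcard : TT.card = small.card ^ S.card := by
      rw [hTT, Fintype.card_piFinset]
      have h1 : ∀ j : Fin N, (if j ∈ S then small else ({∅} : Finset (Finset (Fin κ)))).card =
          if j ∈ S then small.card else 1 := by
        intro j; split_ifs <;> simp
      simp only [h1]
      rw [Finset.prod_ite]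
      simp
    have h1 : pr (fun π : Equiv.Perm (Fin N × Fin κ) => ∀ j ∈ S,
        (univ.filter (fun i : Fin κ => π (j, i) ∈ X)).card < κ') ≤
        ∑ T ∈ TT, (1 - 1 / (D : ℝ)) ^ (S.card * (κ - κ')) := by
      have h2 := pr_exists TT (fun (T : Fin N → Finset (Fin κ))
        (π : Equiv.Perm (Fin N × Fin κ)) =>
        ∀ p ∈ (univ.filter (fun p : Fin N × Fin κ => p.1 ∈ S ∧ p.2 ∉ T p.1)), π p ∉ X)
      refine le_trans (pr_mono fun π hπ => ?_) (h2.trans (Finset.sum_le_sum fun T hT => ?_))
      · refine ⟨fun j => if j ∈ S then univ.filter (fun i : Fin κ => π (j, i) ∈ X) else ∅,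
          ?_, ?_⟩
        · rw [hTT, Fintype.mem_piFinset]
          intro j
          by_cases hj : j ∈ S
          · rw [if_pos hj, if_pos hj, hsmall, mem_filter]
            exact ⟨mem_univ _, hπ j hj⟩
          · rw [if_neg hj, if_neg hj, mem_singleton]
        · intro p hp
          rw [mem_filter] at hp
          have h3 : p.2 ∉ (if p.1 ∈ S then univ.filter (fun i : Fin κ => π (p.1, i) ∈ X)
            else ∅) := hp.2.2
          rw [if_pos hp.2.1, mem_filter] at h3
          intro h4
          exact h3 ⟨mem_univ _, h4⟩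
      · refine (pr_perm_avoid _ X).trans ?_
        have hTj : ∀ j ∈ S, (T j).card < κ' := by
          intro j hj
          rw [hTT, Fintype.mem_piFinset] at hT
          have := hT j
          rw [if_pos hj, hsmall, mem_filter] at this
          exact this.2
        have hQ : S.card * (κ - κ') ≤
            (univ.filter (fun p : Fin N × Fin κ => p.1 ∈ S ∧ p.2 ∉ T p.1)).card := by
          have h3 : (univ.filter (fun p : Fin N × Fin κ => p.1 ∈ S ∧ p.2 ∉ T p.1)) =
              S.biUnion (fun j => ((T j)ᶜ).image (fun i => (j, i))) := by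
            ext p
            simp only [mem_filter, mem_univ, true_and, mem_biUnion, mem_image, mem_compl]
            constructor
            · rintro ⟨h4, h5⟩
              exact ⟨p.1, h4, p.2, h5, rfl⟩
            · rintro ⟨j, hj, i, hi, rfl⟩
              exact ⟨hj, hi⟩
          rw [h3, card_biUnion]
          · have h4 : ∀ j ∈ S, κ - κ' ≤ (((T j)ᶜ).image (fun i => (j, i))).card := by
              intro j hj
              rw [card_image_of_injective _ (fun a b h => (Prod.ext_iff.1 h).2), card_compl,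
                Fintype.card_fin]
              have := hTj j hj
              omega
            have h5 := Finset.card_nsmul_le_sum S _ _ h4
            rwa [smul_eq_mul] at h5
          · intro i _ j _ hij
            show Disjoint (((T i)ᶜ).image (fun i' => (i, i'))) (((T j)ᶜ).image (fun i' => (j, i')))
            rw [Finset.disjoint_left]
            intro p hp hp'
            rw [mem_image] at hp hp'
            obtain ⟨_, _, rfl⟩ := hp
            obtain ⟨_, _, h6⟩ := hp'
            exact hij (Prod.ext_iff.1 h6).1.symm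
        calc (1 - (X.card : ℝ) / Fintype.card (Fin N × Fin κ)) ^
              (univ.filter (fun p : Fin N × Fin κ => p.1 ∈ S ∧ p.2 ∉ T p.1)).card
            ≤ (1 - 1 / (D : ℝ)) ^
              (univ.filter (fun p : Fin N × Fin κ => p.1 ∈ S ∧ p.2 ∉ T p.1)).card :=
              pow_le_pow_left₀ (by linarith) (by linarith) _
          _ ≤ (1 - 1 / (D : ℝ)) ^ (S.card * (κ - κ')) := pow_le_pow_of_le_one h0 h01 hQ
    refine h1.trans ?_
    rw [Finset.sum_const, hTTcard, nsmul_eq_mul]
    have h3 : ((small.card : ℝ) * (1 - 1 / (D : ℝ)) ^ (κ - κ')) ≤ (1 / 2) ^ 14000 := by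
      refine le_trans ?_ (p0_bound κ κ' D hD hκ' hκ)
      apply mul_le_mul_of_nonneg_right _ (pow_nonneg h0 _)
      rw [hsmall]
      exact count_small_sets κ κ' D hD
    calc ((small.card ^ S.card : ℕ) : ℝ) * (1 - 1 / (D : ℝ)) ^ (S.card * (κ - κ'))
        = ((small.card : ℝ) * (1 - 1 / (D : ℝ)) ^ (κ - κ')) ^ S.card := by
          rw [mul_pow, ← pow_mul, mul_comm (κ - κ') S.card]
          push_cast
          ring
      _ ≤ ((1 / 2) ^ 14000) ^ S.card :=
          pow_le_pow_left₀ (mul_nonneg (Nat.cast_nonneg _) (pow_nonneg h0 _)) h3 _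
      _ = (1 / 2) ^ (14000 * S.card) := by rw [← pow_mul]
      _ ≤ (1 / 2) ^ (7 * N) :=
          pow_le_pow_of_le_one (by norm_num) (by norm_num) (by omega)
  have h1 := pr_exists ((univ : Finset (Finset (Fin N))).filter (fun S => N < 2000 * S.card))
    (fun (S : Finset (Fin N)) (π : Equiv.Perm (Fin N × Fin κ)) => ∀ j ∈ S,
        (univ.filter (fun i : Fin κ => π (j, i) ∈ X)).card < κ')
  refine le_trans (pr_mono fun π hπ => ?_) (h1.trans ((Finset.sum_le_sum hS).trans ?_))
  · refine ⟨univ.filter (fun j : Fin N =>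
      (univ.filter (fun i : Fin κ => π (j, i) ∈ X)).card < κ'), ?_, ?_⟩
    · rw [mem_filter]
      exact ⟨mem_univ _, hπ⟩
    · intro j hj
      rw [mem_filter] at hj
      exact hj.2
  · rw [Finset.sum_const, nsmul_eq_mul]
    have h2 : (((univ : Finset (Finset (Fin N))).filter (fun S => N < 2000 * S.card)).card : ℝ) ≤
        2 ^ N := by
      have h3 : ((univ : Finset (Finset (Fin N))).filter (fun S => N < 2000 * S.card)).card ≤
          2 ^ N := by
        refine (card_filter_le _ _).trans ?_
        rw [card_univ, Fintype.card_finset, Fintype.card_fin]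
      exact_mod_cast h3
    calc (((univ : Finset (Finset (Fin N))).filter (fun S => N < 2000 * S.card)).card : ℝ) *
        (1 / 2) ^ (7 * N) ≤ 2 ^ N * (1 / 2) ^ (7 * N) :=
          mul_le_mul_of_nonneg_right h2 (by positivity)
      _ = (1 / 2) ^ (6 * N) := by
          rw [show 7 * N = N + 6 * N by ring, pow_add, ← mul_assoc, ← mul_pow]
          norm_num

end Pool.Agent.MP_9cec2c_lc.DepthThree
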