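import Mathlib
import Pool.Agent.Lib.MP_9cec2c_lc.D5Perm
import Pool.Agent.Lib.MP_9cec2c_lc.D5Form

/-!
Existence of a family of permutations and forms which is good for all pairs of large sets.
-/

set_option autoImplicit false

namespace Pool.Agent.MP_9cec2c_lc.DepthThree

open Finset
open Pool.Agent.MP_9cec2c_lc.SubstRed

section prod

variable {Ω₁ Ω₂ : Type*} [Fintype Ω₁] [Fintype Ω₂]

theorem pr_prod_le (R : Ω₁ → Ω₂ → Prop) (q : ℝ) (hq0 : 0 ≤ q) (hq : ∀ x, pr (R x) ≤ q) :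
    pr (fun z : Ω₁ × Ω₂ => R z.1 z.2) ≤ q := by
  classical
  by_cases h1 : Nonempty Ω₁
  · by_cases h2 : Nonempty Ω₂
    · have hc : ((univ.filter (fun z : Ω₁ × Ω₂ => R z.1 z.2)).card : ℝ) =
          ∑ x : Ω₁, ((univ.filter (R x)).card : ℝ) := by
        have e : ((univ.filter (fun z : Ω₁ × Ω₂ => R z.1 z.2)).card : ℝ) =
            ∑ z : Ω₁ × Ω₂, (if R z.1 z.2 then (1 : ℝ) else 0) := by
          rw [Finset.sum_boole]
        rw [e, Fintype.sum_prod_type]
        refine Finset.sum_congr rfl fun x _ => ?_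
        rw [Finset.sum_boole]
      rw [pr_eq, hc, Fintype.card_prod]
      have hpos1 : (0 : ℝ) < Fintype.card Ω₁ := by exact_mod_cast Fintype.card_pos
      have hpos2 : (0 : ℝ) < Fintype.card Ω₂ := by exact_mod_cast Fintype.card_pos
      have hle : ∑ x : Ω₁, ((univ.filter (R x)).card : ℝ) ≤
          ∑ _x : Ω₁, q * Fintype.card Ω₂ := by
        refine Finset.sum_le_sum fun x _ => ?_
        rw [pr_card]
        exact mul_le_mul_of_nonneg_right (hq x) hpos2.le
      rw [div_le_iff₀ (by push_cast; positivity)]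
      refine hle.trans (le_of_eq ?_)
      rw [Finset.sum_const, Finset.card_univ, nsmul_eq_mul]
      push_cast
      ring
    · have h3 : IsEmpty Ω₂ := not_nonempty_iff.1 h2
      rw [pr_eq, Fintype.card_eq_zero (α := Ω₁ × Ω₂), Nat.cast_zero, div_zero]
      exact hq0
  · have h3 : IsEmpty Ω₁ := not_nonempty_iff.1 h1
    rw [pr_eq, Fintype.card_eq_zero (α := Ω₁ × Ω₂), Nat.cast_zero, div_zero]
    exact hq0

theorem pr_prod_fst (R : Ω₁ → Prop) : pr (fun z : Ω₁ × Ω₂ => R z.1) ≤ pr R := by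
  classical
  by_cases h2 : Nonempty Ω₂
  · have hc : (univ.filter (fun z : Ω₁ × Ω₂ => R z.1)).card =
        (univ.filter R).card * Fintype.card Ω₂ := by
      have e : univ.filter (fun z : Ω₁ × Ω₂ => R z.1) = (univ.filter R) ×ˢ (univ : Finset Ω₂) := by
        ext z
        simp
      rw [e, Finset.card_product, Finset.card_univ]
    have hpos2 : (0 : ℝ) < Fintype.card Ω₂ := by exact_mod_cast Fintype.card_pos
    rw [pr_eq, pr_eq, hc, Fintype.card_prod]
    push_cast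
    rw [mul_div_mul_right _ _ hpos2.ne']
  · have h3 : IsEmpty Ω₂ := not_nonempty_iff.1 h2
    rw [pr_eq, Fintype.card_eq_zero (α := Ω₁ × Ω₂), Nat.cast_zero, div_zero]
    exact pr_nonneg R

end prod

variable {N κ : ℕ} {α : Type*} [DecidableEq α] [Fintype α] [Nonempty α]

/-- The permutation and the forms are good for the pair `X`, `Y`, except for few gadgets. -/
def GoodCopy (a : α) (b r κ' : ℕ) (X Y : Finset (Fin N × Fin κ))
    (π : Equiv.Perm (Fin N × Fin κ)) (L : Fin N → Fin κ → (Fin κ → ZMod 2)) : Prop :=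
  ∃ U : Finset (Fin N), 500 * U.card ≤ N ∧ ∀ j ∉ U, ∃ X' Y' : Finset (Fin κ),
    X'.card = κ' ∧ Y'.card = κ' ∧ (∀ i ∈ X', π (j, i) ∈ X) ∧ (∀ i ∈ Y', π (j, i) ∈ Y) ∧
    GoodForm a b r (L j) X' Y'

open scoped Classical in
/-- For a fixed permutation random forms are good. -/
theorem pr_forms (a : α) (β0 κ' : ℕ) (hβ : 6 ≤ β0) (hκ' : κ' = Fintype.card α * β0 ^ 2)
    (T : Finset (Fin N)) (X' Y' : Fin N → Finset (Fin κ))
    (hd : ∀ j ∈ T, Disjoint (X' j) (Y' j))
    (hX : ∀ j ∈ T, (X' j).card = κ') (hY : ∀ j ∈ T, (Y' j).card = κ') :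
    pr (fun L : Fin N → (Fin κ → (Fin κ → ZMod 2)) => N < 1000 * (T.filter (fun j =>
      ¬ GoodForm a (β0 ^ 2 - 6 * β0) (10 ^ 4) (L j) (X' j) (Y' j))).card) ≤
      (1 / 2) ^ (6 * N) := by
  classical
  have hq8 : (8 : ℝ) / 2 ^ (10 ^ 4) = (1 / 2) ^ 9997 := by
    have h3 : (2 : ℝ) ^ 3 = 8 := by norm_num
    have e : (10 ^ 4 : ℕ) = 9997 + 3 := by norm_num
    have hx : (2 : ℝ) ^ 9997 ≠ 0 := pow_ne_zero _ two_ne_zero
    rw [e, pow_add, h3, one_div, inv_pow]
    generalize (2 : ℝ) ^ 9997 = x at hx ⊢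
    field_simp
  set M : Fin N → (Fin N → (Fin κ → (Fin κ → ZMod 2))) → (Fin κ → (Fin κ → ZMod 2)) → Prop :=
    fun j _ x => ¬ GoodForm a (β0 ^ 2 - 6 * β0) (10 ^ 4) x (X' j) (Y' j) with hM
  have hstep : ∀ S ∈ T.powerset.filter (fun S => N < 1000 * S.card),
      pr (fun L : Fin N → (Fin κ → (Fin κ → ZMod 2)) => ∀ j ∈ S, M j L (L j)) ≤
        (1 / 2) ^ (7 * N) := by
    intro S hS
    rw [Finset.mem_filter, Finset.mem_powerset] at hS
    have h1 := indep S M ((1 / 2 : ℝ) ^ 9997) (fun i _ j _ H E x => Iff.rfl) (fun i hi H => by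
      rw [← hq8]
      exact pr_bad_form a β0 (10 ^ 4) hβ (X' i) (Y' i) (hd i (hS.1 hi))
        (by rw [hX i (hS.1 hi), hκ']) (by rw [hY i (hS.1 hi), hκ']))
    refine h1.trans ?_
    rw [← pow_mul]
    refine pow_le_pow_of_le_one (by norm_num) (by norm_num) ?_
    have h2 := hS.2
    nlinarith
  calc pr (fun L : Fin N → (Fin κ → (Fin κ → ZMod 2)) => N < 1000 * (T.filter (fun j =>
        ¬ GoodForm a (β0 ^ 2 - 6 * β0) (10 ^ 4) (L j) (X' j) (Y' j))).card)
      ≤ pr (fun L : Fin N → (Fin κ → (Fin κ → ZMod 2)) =>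
          ∃ S ∈ T.powerset.filter (fun S => N < 1000 * S.card), ∀ j ∈ S, M j L (L j)) := by
        refine pr_mono fun L hL => ⟨_, Finset.mem_filter.2 ⟨Finset.mem_powerset.2
          (Finset.filter_subset _ _), hL⟩, fun j hj => ?_⟩
        exact (Finset.mem_filter.1 hj).2
    _ ≤ ∑ S ∈ T.powerset.filter (fun S => N < 1000 * S.card),
          pr (fun L : Fin N → (Fin κ → (Fin κ → ZMod 2)) => ∀ j ∈ S, M j L (L j)) :=
        pr_exists _ (fun S L => ∀ j ∈ S, M j L (L j))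
    _ ≤ ∑ _S ∈ T.powerset.filter (fun S => N < 1000 * S.card), (1 / 2 : ℝ) ^ (7 * N) :=
        Finset.sum_le_sum hstep
    _ ≤ (2 : ℝ) ^ N * (1 / 2) ^ (7 * N) := by
        rw [Finset.sum_const, nsmul_eq_mul]
        refine mul_le_mul_of_nonneg_right ?_ (by positivity)
        have h1 : (T.powerset.filter (fun S => N < 1000 * S.card)).card ≤ 2 ^ N := by
          refine (Finset.card_filter_le _ _).trans ?_
          rw [Finset.card_powerset]
          refine Nat.pow_le_pow_right (by norm_num) ?_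
          have := Finset.card_le_univ T
          rwa [Fintype.card_fin] at this
        exact_mod_cast h1
    _ = (1 / 2) ^ (6 * N) := by
        have e : 7 * N = N + 6 * N := by ring
        rw [e, pow_add, ← mul_assoc, ← mul_pow]
        norm_num

/-- A random copy is bad for a given pair only with very small probability. -/
theorem pr_bad_copy (a : α) (β0 κ' D : ℕ) (hβ : 6 ≤ β0) (hκ' : κ' = Fintype.card α * β0 ^ 2)
    (hκ10 : 10 ^ 10 ≤ κ') (hD : 1 ≤ D) (hκ : κ = 8 * D ^ 2 * κ') (hN : 1 ≤ N)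
    (X Y : Finset (Fin N × Fin κ)) (hXY : Disjoint X Y)
    (hX : N * κ ≤ D * X.card) (hY : N * κ ≤ D * Y.card) :
    pr (fun z : Equiv.Perm (Fin N × Fin κ) × (Fin N → Fin κ → (Fin κ → ZMod 2)) =>
      ¬ GoodCopy a (β0 ^ 2 - 6 * β0) (10 ^ 4) κ' X Y z.1 z.2) ≤ (1 / 2) ^ (4 * N) := by
  classical
  set XX : Equiv.Perm (Fin N × Fin κ) → Fin N → Finset (Fin κ) :=
    fun π j => univ.filter (fun i : Fin κ => π (j, i) ∈ X) with hXX
  set YY : Equiv.Perm (Fin N × Fin κ) → Fin N → Finset (Fin κ) :=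
    fun π j => univ.filter (fun i : Fin κ => π (j, i) ∈ Y) with hYY
  have hex : ∀ (A : Finset (Fin κ)), ∃ A' : Finset (Fin κ), A' ⊆ A ∧
      (κ' ≤ A.card → A'.card = κ') := by
    intro A
    by_cases hA : κ' ≤ A.card
    · obtain ⟨A', h1, h2⟩ := Finset.exists_subset_card_eq hA
      exact ⟨A', h1, fun _ => h2⟩
    · exact ⟨∅, Finset.empty_subset _, fun h => absurd h hA⟩
  choose sel hsel1 hsel2 using hex
  set TT : Equiv.Perm (Fin N × Fin κ) → Finset (Fin N) :=
    fun π => univ.filter (fun j => κ' ≤ (XX π j).card ∧ κ' ≤ (YY π j).card) with hTT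
  set UF : Equiv.Perm (Fin N × Fin κ) → (Fin N → Fin κ → (Fin κ → ZMod 2)) → Finset (Fin N) :=
    fun π L => (TT π).filter (fun j =>
      ¬ GoodForm a (β0 ^ 2 - 6 * β0) (10 ^ 4) (L j) (sel (XX π j)) (sel (YY π j))) with hUF
  have hdisj : ∀ π j, Disjoint (sel (XX π j)) (sel (YY π j)) := by
    intro π j
    rw [Finset.disjoint_left]
    intro i hi hi'
    have h1 := (Finset.mem_filter.1 (hsel1 _ hi)).2
    have h2 := (Finset.mem_filter.1 (hsel1 _ hi')).2
    exact (Finset.disjoint_left.1 hXY) h1 h2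
  have hincl : ∀ z : Equiv.Perm (Fin N × Fin κ) × (Fin N → Fin κ → (Fin κ → ZMod 2)),
      ¬ GoodCopy a (β0 ^ 2 - 6 * β0) (10 ^ 4) κ' X Y z.1 z.2 →
      (N < 2000 * (univ.filter (fun j : Fin N => (XX z.1 j).card < κ')).card ∨
        N < 2000 * (univ.filter (fun j : Fin N => (YY z.1 j).card < κ')).card) ∨
        N < 1000 * (UF z.1 z.2).card := by
    rintro ⟨π, L⟩ hbad
    by_contra hcon
    push Not at hcon
    obtain ⟨⟨h1, h2⟩, h3⟩ := hcon
    refine hbad ⟨(univ.filter (fun j : Fin N => (XX π j).card < κ') ∪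
      univ.filter (fun j : Fin N => (YY π j).card < κ')) ∪ UF π L, ?_, ?_⟩
    · have h4 := Finset.card_union_le (univ.filter (fun j : Fin N => (XX π j).card < κ') ∪
        univ.filter (fun j : Fin N => (YY π j).card < κ')) (UF π L)
      have h5 := Finset.card_union_le (univ.filter (fun j : Fin N => (XX π j).card < κ'))
        (univ.filter (fun j : Fin N => (YY π j).card < κ'))
      dsimp only at h1 h2 h3
      omega
    · intro j hj
      rw [Finset.mem_union, Finset.mem_union, not_or, not_or, Finset.mem_filter,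
        Finset.mem_filter] at hj
      obtain ⟨⟨hj1, hj2⟩, hj3⟩ := hj
      have hx : κ' ≤ (XX π j).card := by
        by_contra h
        exact hj1 ⟨Finset.mem_univ _, not_le.1 h⟩
      have hy : κ' ≤ (YY π j).card := by
        by_contra h
        exact hj2 ⟨Finset.mem_univ _, not_le.1 h⟩
      refine ⟨sel (XX π j), sel (YY π j), hsel2 _ hx, hsel2 _ hy, fun i hi => ?_, fun i hi => ?_,
        ?_⟩
      · exact (Finset.mem_filter.1 (hsel1 _ hi)).2
      · exact (Finset.mem_filter.1 (hsel1 _ hi)).2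
      · by_contra h
        exact hj3 (Finset.mem_filter.2 ⟨Finset.mem_filter.2 ⟨Finset.mem_univ _, hx, hy⟩, h⟩)
  have hp1 : pr (fun z : Equiv.Perm (Fin N × Fin κ) × (Fin N → Fin κ → (Fin κ → ZMod 2)) =>
      N < 2000 * (univ.filter (fun j : Fin N => (XX z.1 j).card < κ')).card) ≤
      (1 / 2) ^ (6 * N) :=
    (pr_prod_fst (fun π : Equiv.Perm (Fin N × Fin κ) =>
      N < 2000 * (univ.filter (fun j : Fin N => (XX π j).card < κ')).card)).trans
      (pr_perm_few hD hκ10 hκ X hX)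
  have hp2 : pr (fun z : Equiv.Perm (Fin N × Fin κ) × (Fin N → Fin κ → (Fin κ → ZMod 2)) =>
      N < 2000 * (univ.filter (fun j : Fin N => (YY z.1 j).card < κ')).card) ≤
      (1 / 2) ^ (6 * N) :=
    (pr_prod_fst (fun π : Equiv.Perm (Fin N × Fin κ) =>
      N < 2000 * (univ.filter (fun j : Fin N => (YY π j).card < κ')).card)).trans
      (pr_perm_few hD hκ10 hκ Y hY)
  have hp3 : pr (fun z : Equiv.Perm (Fin N × Fin κ) × (Fin N → Fin κ → (Fin κ → ZMod 2)) =>
      N < 1000 * (UF z.1 z.2).card) ≤ (1 / 2) ^ (6 * N) := by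
    refine pr_prod_le (fun (π : Equiv.Perm (Fin N × Fin κ))
      (L : Fin N → Fin κ → (Fin κ → ZMod 2)) => N < 1000 * (UF π L).card) _ (by positivity)
      fun π => ?_
    refine (le_of_eq ?_).trans (pr_forms a β0 κ' hβ hκ' (TT π) (fun j => sel (XX π j))
      (fun j => sel (YY π j)) (fun j _ => hdisj π j)
      (fun j hj => hsel2 _ (Finset.mem_filter.1 hj).2.1)
      (fun j hj => hsel2 _ (Finset.mem_filter.1 hj).2.2))
    rfl
  calc pr (fun z : Equiv.Perm (Fin N × Fin κ) × (Fin N → Fin κ → (Fin κ → ZMod 2)) =>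
        ¬ GoodCopy a (β0 ^ 2 - 6 * β0) (10 ^ 4) κ' X Y z.1 z.2)
      ≤ _ := pr_mono hincl
    _ ≤ _ := pr_or _ _
    _ ≤ ((1 / 2) ^ (6 * N) + (1 / 2) ^ (6 * N)) + (1 / 2) ^ (6 * N) :=
        add_le_add ((pr_or _ _).trans (add_le_add hp1 hp2)) hp3
    _ = (3 * (1 / 2) ^ (2 * N)) * (1 / 2 : ℝ) ^ (4 * N) := by
        have e : 6 * N = 2 * N + 4 * N := by ring
        rw [e, pow_add]
        ring
    _ ≤ 1 * (1 / 2 : ℝ) ^ (4 * N) := by
        refine mul_le_mul_of_nonneg_right ?_ (by positivity)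
        have h1 : (1 / 2 : ℝ) ^ (2 * N) ≤ (1 / 2) ^ 2 :=
          pow_le_pow_of_le_one (by norm_num) (by norm_num) (by omega)
        nlinarith
    _ = _ := one_mul _

/-- There is a family of copies which works for all pairs of large disjoint sets. -/
theorem exists_family (a : α) (β0 κ' D : ℕ) (hβ : 6 ≤ β0) (hκ' : κ' = Fintype.card α * β0 ^ 2)
    (hκ10 : 10 ^ 10 ≤ κ') (hD : 1 ≤ D) (hκ : κ = 8 * D ^ 2 * κ') (hN : 1 ≤ N) :
    ∃ (π : (Fin κ → Bool) → Equiv.Perm (Fin N × Fin κ))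
      (L : (Fin κ → Bool) → Fin N → Fin κ → (Fin κ → ZMod 2)),
      ∀ X Y : Finset (Fin N × Fin κ), Disjoint X Y → N * κ ≤ D * X.card →
        N * κ ≤ D * Y.card →
        ∃ c, GoodCopy a (β0 ^ 2 - 6 * β0) (10 ^ 4) κ' X Y (π c) (L c) := by
  classical
  set M : Finset (Fin N × Fin κ) × Finset (Fin N × Fin κ) →
      (Equiv.Perm (Fin N × Fin κ) × (Fin N → Fin κ → (Fin κ → ZMod 2))) → Prop :=
    fun t z => ¬ GoodCopy a (β0 ^ 2 - 6 * β0) (10 ^ 4) κ' t.1 t.2 z.1 z.2 with hM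
  set ok : Finset (Fin N × Fin κ) × Finset (Fin N × Fin κ) → Prop :=
    fun t => Disjoint t.1 t.2 ∧ N * κ ≤ D * t.1.card ∧ N * κ ≤ D * t.2.card with hok
  have h1 : ∀ t, pr (fun H : (Fin κ → Bool) →
      (Equiv.Perm (Fin N × Fin κ) × (Fin N → Fin κ → (Fin κ → ZMod 2))) =>
        ok t ∧ ∀ c, M t (H c)) ≤ (1 / 2 : ℝ) ^ (4 * N * 2 ^ κ) := by
    intro t
    by_cases ht : ok t
    · have h2 := indep_fixed (univ : Finset (Fin κ → Bool)) (M t) ((1 / 2 : ℝ) ^ (4 * N))
        (pr_bad_copy a β0 κ' D hβ hκ' hκ10 hD hκ hN t.1 t.2 ht.1 ht.2.1 ht.2.2)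
      rw [Finset.card_univ, Fintype.card_fun, Fintype.card_bool, Fintype.card_fin,
        ← pow_mul] at h2
      exact (pr_mono fun H hH c _ => hH.2 c).trans h2
    · have h3 : pr (fun H : (Fin κ → Bool) →
          (Equiv.Perm (Fin N × Fin κ) × (Fin N → Fin κ → (Fin κ → ZMod 2))) =>
            ok t ∧ ∀ c, M t (H c)) ≤ pr (fun _ : (Fin κ → Bool) →
          (Equiv.Perm (Fin N × Fin κ) × (Fin N → Fin κ → (Fin κ → ZMod 2))) => False) :=
        pr_mono fun H hH => ht hH.1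
      rw [pr_false] at h3
      exact h3.trans (by positivity)
  have h2 : pr (fun H : (Fin κ → Bool) →
      (Equiv.Perm (Fin N × Fin κ) × (Fin N → Fin κ → (Fin κ → ZMod 2))) =>
        ∃ t, ok t ∧ ∀ c, M t (H c)) < 1 := by
    refine (pr_exists_fintype (fun t (H : (Fin κ → Bool) →
      (Equiv.Perm (Fin N × Fin κ) × (Fin N → Fin κ → (Fin κ → ZMod 2)))) =>
        ok t ∧ ∀ c, M t (H c))).trans_lt ?_
    refine (Finset.sum_le_sum fun t _ => h1 t).trans_lt ?_
    rw [Finset.sum_const, Finset.card_univ, nsmul_eq_mul, Fintype.card_prod, Fintype.card_finset,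
      Fintype.card_prod, Fintype.card_fin, Fintype.card_fin]
    push_cast
    rw [← pow_add, one_div, inv_pow, ← div_eq_mul_inv, div_lt_one (by positivity)]
    refine pow_lt_pow_right₀ (by norm_num) ?_
    have h3 : κ < 2 ^ κ := Nat.lt_two_pow_self
    have h4 : N * κ < N * 2 ^ κ := Nat.mul_lt_mul_of_pos_left h3 (by omega)
    have h5 : 4 * N * 2 ^ κ = 4 * (N * 2 ^ κ) := by ring
    rw [h5]
    omega
  obtain ⟨H, hH⟩ := exists_of_pr_lt_one h2
  refine ⟨fun c => (H c).1, fun c => (H c).2, fun X Y hXY hX hY => ?_⟩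
  by_contra hcon
  push Not at hcon
  exact hH ⟨(X, Y), ⟨hXY, hX, hY⟩, hcon⟩

end Pool.Agent.MP_9cec2c_lc.DepthThree
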