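import Mathlib
import Pool.Agent.Lib.MP_9cec2c_lc.D4Final
import Pool.Agent.Lib.MP_9cec2c_lc.D5Cnf
import Pool.Agent.Lib.MP_9cec2c_lc.D5Avg
import Pool.Agent.Lib.MP_9cec2c_lc.D5Exist

/-!
Assembly of the lower bound for certificates, the formula being fixed before the sets.
-/

set_option autoImplicit false

namespace Pool.Agent.MP_9cec2c_lc.DepthThree

open Finset
open Pool.Agent.MP_9cec2c_lc.SubstRed

section good

variable {N κ : ℕ} {α : Type*} [Fintype α] [Nonempty α]

/-- The probability that all gadgets are good. -/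
theorem pr_all_goodj (G : Fin N → (Fin κ → α) → Prop) (hG : ∀ j, 1 / 2 ≤ pr (G j)) :
    (1 / 2 : ℝ) ^ N ≤ pr (fun ρ : Fin N × Fin κ → α => ∀ j, G j (fun a => ρ (j, a))) := by
  classical
  have h1 : ∀ ρ : Fin N × Fin κ → α, (if ∀ j, G j (fun a => ρ (j, a)) then (1 : ℝ) else 0) =
      ∏ j ∈ (univ : Finset (Fin N)), (if G j (fun a => ρ (j, a)) then (1 : ℝ) else 0) := by
    intro ρ
    split_ifs with h
    · symm
      exact Finset.prod_eq_one fun j _ => if_pos (h j)
    · push Not at h
      obtain ⟨j, hj⟩ := h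
      symm
      exact Finset.prod_eq_zero (mem_univ j) (if_neg hj)
  rw [← avg_indicator]
  simp only [h1]
  rw [avg_prod_indep univ (fun (j : Fin N) (ρ : Fin N × Fin κ → α) =>
    if G j (fun a => ρ (j, a)) then (1 : ℝ) else 0) (fun j => univ.filter (fun p => p.1 = j))]
  · have h2 : ∀ j : Fin N, avg (fun ρ : Fin N × Fin κ → α =>
        if G j (fun a => ρ (j, a)) then (1 : ℝ) else 0) = pr (G j) := by
      intro j
      rw [← avg_indicator]
      obtain ⟨f, hf⟩ : ∃ f : (Fin κ → α) → ℝ, f = fun u => if G j u then (1 : ℝ) else 0 :=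
        ⟨_, rfl⟩
      have h3 : (fun ρ : Fin N × Fin κ → α => if G j (fun a => ρ (j, a)) then (1 : ℝ) else 0) =
          fun ρ => f (fun a => ρ (j, a)) := by rw [hf]
      rw [h3, ← hf]
      have h4 : avg (fun ρ : Fin N × Fin κ → α => f (fun a => ρ (j, a))) =
          avg (fun σ : Fin N → (Fin κ → α) => f (σ j)) := by
        unfold avg
        rw [Fintype.card_congr (Equiv.curry (Fin N) (Fin κ) α)]
        congr 1
        exact Fintype.sum_equiv (Equiv.curry (Fin N) (Fin κ) α) _ _ fun ρ => rfl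
      rw [h4]
      exact avg_coord (ι := Fin N) (α := Fin κ → α) j f
    simp only [h2]
    calc (1 / 2 : ℝ) ^ N = ∏ _j : Fin N, (1 / 2 : ℝ) := by simp
      _ ≤ ∏ j, pr (G j) := Finset.prod_le_prod (fun _ _ => by norm_num) (fun j _ => hG j)
  · intro j _ x y hxy
    have : (fun a => x (j, a)) = (fun a => y (j, a)) := by
      funext a
      exact hxy (j, a) (by simp)
    simp only [this]
  · intro i _ j _ hij
    rw [Finset.disjoint_left]
    intro p hp hp'
    rw [mem_filter] at hp hp'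
    exact hij (hp.2.symm.trans hp'.2)

end good

section embed

/-- The positions and the selector variables. -/
theorem exists_embc (N κ n : ℕ) (hn : (N + 1) * κ ≤ n) :
    ∃ (e : Fin N × Fin κ → Fin n) (w : Fin κ → Fin n), Function.Injective e ∧
      Function.Injective w ∧ ∀ p l, e p ≠ w l := by
  have hn' : N * κ + κ ≤ n := by rw [add_mul, one_mul] at hn; exact hn
  have hlt : ∀ p : Fin N × Fin κ, (p.1 : ℕ) * κ + (p.2 : ℕ) < N * κ := fun p =>
    row_lt _ _ _ _ p.1.2 p.2.2
  refine ⟨fun p => ⟨(p.1 : ℕ) * κ + (p.2 : ℕ), by have := hlt p; omega⟩,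
    fun l => ⟨N * κ + (l : ℕ), by have := l.2; omega⟩, ?_, ?_, ?_⟩
  · intro p p' h
    have h1 : (p.1 : ℕ) * κ + (p.2 : ℕ) = (p'.1 : ℕ) * κ + (p'.2 : ℕ) := congrArg Fin.val h
    have h2 := row_inj _ _ _ _ κ p.2.2 p'.2.2 h1
    exact Prod.ext (Fin.ext h2.1) (Fin.ext h2.2)
  · intro l l' h
    have h1 : N * κ + (l : ℕ) = N * κ + (l' : ℕ) := congrArg Fin.val h
    exact Fin.ext (by omega)
  · intro p l h
    have h1 : (p.1 : ℕ) * κ + (p.2 : ℕ) = N * κ + (l : ℕ) := congrArg Fin.val h
    have := hlt p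
    omega

/-- A large set of variables contains many positions. -/
theorem card_pos_ge {N κ n : ℕ} {e : Fin N × Fin κ → Fin n} (he : Function.Injective e)
    (hn : n ≤ (N + 2) * κ) (hn1 : N * κ ≤ n) (D : ℕ) (hD : 4 * D ≤ N) (X : Finset (Fin n))
    (hX : n ≤ D * X.card) : N * κ ≤ 2 * D * (pos e X).card := by
  classical
  have h1 : X ⊆ (pos e X).image e ∪ (univ \ univ.image e) := by
    intro i hi
    by_cases hr : i ∈ Set.range e
    · obtain ⟨p, rfl⟩ := hr
      apply mem_union_left
      apply mem_image_of_mem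
      simp only [pos, mem_filter, mem_univ, true_and]
      exact hi
    · apply mem_union_right
      rw [mem_sdiff]
      refine ⟨mem_univ _, ?_⟩
      intro h
      obtain ⟨p, _, hp⟩ := mem_image.1 h
      exact hr ⟨p, hp⟩
  have h2 : X.card ≤ (pos e X).card + (n - N * κ) := by
    refine (card_le_card h1).trans ((card_union_le _ _).trans (Nat.add_le_add card_image_le ?_))
    rw [card_sdiff_of_subset (subset_univ _), card_univ, Fintype.card_fin,
      card_image_of_injective _ he, card_univ, Fintype.card_prod, Fintype.card_fin,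
      Fintype.card_fin]
  have h3 : n - N * κ ≤ 2 * κ := by
    have : (N + 2) * κ = N * κ + 2 * κ := by ring
    omega
  have h4 : D * X.card ≤ D * (pos e X).card + D * (2 * κ) := by
    rw [← mul_add]
    exact Nat.mul_le_mul_left _ (h2.trans (Nat.add_le_add_left h3 _))
  have h5 : 4 * D * κ ≤ N * κ := Nat.mul_le_mul_right _ hD
  have h6 : 2 * D * (pos e X).card = 2 * (D * (pos e X).card) := by ring
  have h7 : 4 * D * κ = 2 * (D * (2 * κ)) := by ring
  omega

end embed

section final

universe u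

theorem lin_step5 (N y d : ℝ) (hN : 1073741824 ≤ N)
    (hy : 99930000 * ((497 / 1000 : ℝ) * N - 1) ≤ y)
    (hd : d ≤ 50100 * (N + 2)) : 49400000 * N ≤ y - 4 * N - 1 - 4 * d := by linarith

theorem final_bound5 (s q β0 κ' κ N n D : ℕ) (hs : 1 ≤ s) (hβ : β0 = 10 ^ 4) (hq : q = 501 * s)
    (hκ' : κ' = q * β0 ^ 2) (hD : 1 ≤ D) (hκ : κ = 8 * (2 * D) ^ 2 * κ')
    (hN : 2 ^ 30 ≤ N) (hND : 4 * D ≤ N) (hn1 : (N + 1) * κ ≤ n) (hn2 : n ≤ (N + 2) * κ) :
    ∃ F : Finset (Clause n), (∀ a, ∃ C ∈ F, Falsifies a C) ∧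
      F.card ≤ 2 ^ κ * ((N + 1) * 2 ^ (κ * (2 * 2 ^ 34))) ∧
      (∀ C ∈ F, C.card ≤ κ + κ * (2 * 2 ^ 34)) ∧
      ∀ X Y : Finset (Fin n), Disjoint X Y → n ≤ D * X.card → n ≤ D * Y.card →
      ∀ (𝕜 : Type u) [Field 𝕜], (2 : 𝕜) ≠ 0 → ∀ (E m : ℕ) (G : Fin E → Gate n E)
        (P : Fin m → Term n E 𝕜), (E : ℝ) ≤ (n : ℝ) / (32 * 10 ^ 6 * D ^ 2 * s) → Ordered G →
        (∀ i, (P i).SimpleFor X Y s ((n : ℝ) / (32 * 10 ^ 6 * D ^ 2 * s ^ 2))) →
        IsCertificate F G P →
        (2 : ℝ) ^ ((n : ℝ) / (32 * 10 ^ 6 * D ^ 2 * s)) ≤ m := by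
  classical
  obtain ⟨J, hJ1, hJ2⟩ := code_exists N hN
  obtain ⟨b, hb⟩ := exists_rhs J
  have hq0 : 0 < q := by omega
  obtain ⟨a0, _⟩ : ∃ a0 : Fin q, a0 = ⟨0, hq0⟩ := ⟨_, rfl⟩
  have hnonempty : Nonempty (Fin q) := ⟨a0⟩
  have hκ10 : 10 ^ 10 ≤ κ' := by
    rw [hκ', hq, hβ]
    calc 10 ^ 10 ≤ 501 * 1 * (10 ^ 4) ^ 2 := by norm_num
      _ ≤ 501 * s * (10 ^ 4) ^ 2 := by gcongr
  have hN1 : 1 ≤ N := le_trans (by norm_num) hN
  have hκ0 : 0 < κ := by
    rw [hκ]
    have h1 : 0 < κ' := lt_of_lt_of_le (by norm_num) hκ10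
    have h2 : 0 < D := hD
    positivity
  obtain ⟨π, L, hfam⟩ := exists_family (N := N) (κ := κ) (α := Fin q) a0 β0 κ' (2 * D)
    (by omega) (by rw [Fintype.card_fin]; exact hκ') hκ10 (by omega) hκ hN1
  obtain ⟨e, w, he, hw, hew⟩ := exists_embc N κ n hn1
  refine ⟨cnfc e w π L J b, unsat_cnfc e w π L J b hb, card_cnfc e w π L J b,
    width_cnfc e w π L J b, ?_⟩
  intro X Y hXY hX hY 𝕜 _ h2 E m G P hE hG hP hcert
  have hn0 : N * κ ≤ n := by
    rw [add_mul] at hn1; omega
  -- the good copy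
  obtain ⟨c, U, hU500, hgoodU⟩ := hfam (pos e X) (pos e Y) (by
      rw [Finset.disjoint_left] at hXY ⊢
      intro p hp hp'
      simp only [pos, mem_filter, mem_univ, true_and] at hp hp'
      exact hXY hp hp')
    (card_pos_ge he hn2 hn0 D hND X hX) (card_pos_ge he hn2 hn0 D hND Y hY)
  have hch : ∀ j, ∃ X' Y' : Finset (Fin κ), j ∉ U →
    (X'.card = κ' ∧ Y'.card = κ' ∧ (∀ i ∈ X', π c (j, i) ∈ pos e X) ∧
      (∀ i ∈ Y', π c (j, i) ∈ pos e Y) ∧
      GoodForm a0 (β0 ^ 2 - 6 * β0) (10 ^ 4) (L c j) X' Y') := by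
    intro j
    by_cases hj : j ∈ U
    · exact ⟨∅, ∅, fun h => absurd hj h⟩
    · obtain ⟨X', Y', h⟩ := hgoodU j hj
      exact ⟨X', Y', fun _ => h⟩
  choose X' Y' hXY' using hch
  obtain ⟨g, hg⟩ : ∃ g : Fin N × Fin κ → Fin n, g = fun p => e (π c p) := ⟨_, rfl⟩
  have hginj : Function.Injective g := by rw [hg]; exact he.comp (π c).injective
  obtain ⟨use, huse⟩ : ∃ use : Finset (Fin N × Fin κ), use = univ.filter
    (fun p => p.1 ∉ U ∧ (p.2 ∈ X' p.1 ∨ p.2 ∈ Y' p.1)) := ⟨_, rfl⟩
  have hmuse : ∀ p, p ∈ use ↔ p.1 ∉ U ∧ (p.2 ∈ X' p.1 ∨ p.2 ∈ Y' p.1) := by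
    intro p; rw [huse, mem_filter]; simp
  obtain ⟨side, hside⟩ : ∃ side : Fin N × Fin κ → Bool, side = fun p =>
    decide (p.2 ∈ X' p.1) := ⟨_, rfl⟩
  have hsX : ∀ p ∈ use, side p = true → g p ∈ X := by
    intro p hp hs'
    rw [hmuse] at hp
    rw [hside] at hs'
    have h3 := (hXY' p.1 hp.1).2.2.1 p.2 (of_decide_eq_true hs')
    simp only [pos, mem_filter, mem_univ, true_and] at h3
    rw [hg]
    exact h3
  have hsY : ∀ p ∈ use, side p = false → g p ∈ Y := by
    intro p hp hs'
    rw [hmuse] at hp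
    rw [hside] at hs'
    have h3 := (hXY' p.1 hp.1).2.2.2.1 p.2 (hp.2.resolve_left (of_decide_eq_false hs'))
    simp only [pos, mem_filter, mem_univ, true_and] at h3
    rw [hg]
    exact h3
  have husecard : use.card ≤ N * (2 * κ') := by
    have h3 : use ⊆ ((univ : Finset (Fin N)).filter (fun j => j ∉ U)).biUnion (fun j =>
        (X' j ∪ Y' j).image (fun i => (j, i))) := by
      intro p hp
      rw [hmuse] at hp
      rw [mem_biUnion]
      exact ⟨p.1, mem_filter.2 ⟨mem_univ _, hp.1⟩,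
        mem_image.2 ⟨p.2, mem_union.2 hp.2, rfl⟩⟩
    refine (card_le_card h3).trans (card_biUnion_le.trans ?_)
    have h4 : ∀ j ∈ (univ : Finset (Fin N)).filter (fun j => j ∉ U),
        ((X' j ∪ Y' j).image (fun i => (j, i))).card ≤ 2 * κ' := by
      intro j hj
      rw [mem_filter] at hj
      have h5 := hXY' j hj.2
      refine card_image_le.trans ((card_union_le _ _).trans ?_)
      rw [h5.1, h5.2.1]; omega
    refine (Finset.sum_le_card_nsmul _ _ _ h4).trans ?_
    rw [smul_eq_mul]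
    apply Nat.mul_le_mul_right
    refine (card_filter_le _ _).trans ?_
    rw [card_univ, Fintype.card_fin]
  obtain ⟨i00, _⟩ : ∃ i00 : Fin κ, i00 = ⟨0, hκ0⟩ := ⟨_, rfl⟩
  -- patterns
  obtain ⟨ρ', hρ'⟩ : ∃ ρ' : (Fin N × Fin κ → Fin q) → Fin N × Fin κ → Fin 3,
    ρ' = fun σ => patu use side a0 σ := ⟨_, rfl⟩
  obtain ⟨ρ, hρ⟩ : ∃ ρ : (Fin N × Fin κ → Fin q) → Fin N × Fin κ → Fin 3,
    ρ = fun σ p => if p.1 ∈ U then (if p.2 = i00 then 0 else 2) else patu use side a0 σ p :=
    ⟨_, rfl⟩
  have hρX : ∀ σ p, ρ' σ p ≠ 2 → g p ∈ X ∪ Y := by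
    intro σ p hp
    rw [hρ'] at hp
    have h3 : p ∈ use := by
      by_contra hcon
      apply hp
      show patu use side a0 σ p = 2
      unfold patu
      rw [if_neg (fun h => hcon h.1)]
    rw [mem_union]
    cases hb' : side p with
    | true => exact Or.inl (hsX p h3 hb')
    | false => exact Or.inr (hsY p h3 hb')
  obtain ⟨V, hV⟩ : ∃ V : Finset (Fin N × Fin κ), V = univ.filter
    (fun p => p.1 ∈ U ∧ p.2 = i00) := ⟨_, rfl⟩
  have hVcard : V.card ≤ N := by
    have h3 : V ⊆ (univ : Finset (Fin N)).image (fun j => (j, i00)) := by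
      intro p hp
      rw [hV, mem_filter] at hp
      rw [mem_image]
      exact ⟨p.1, mem_univ _, Prod.ext rfl hp.2.2.symm⟩
    refine (card_le_card h3).trans (card_image_le.trans ?_)
    rw [card_univ, Fintype.card_fin]
  have hsr : (1 : ℝ) ≤ s := by exact_mod_cast hs
  have hDr : (1 : ℝ) ≤ D := by exact_mod_cast hD
  have hNr : (2 : ℝ) ^ 30 ≤ N := by exact_mod_cast hN
  have hNr0 : (0 : ℝ) < N := by linarith [show (0 : ℝ) < 2 ^ 30 by positivity]
  have hκr : (κ : ℝ) = 32 * D ^ 2 * (50100000000 * s) := by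
    rw [hκ, hκ', hq, hβ]; push_cast; ring
  obtain ⟨d, hd⟩ : ∃ d : ℝ, d = (n : ℝ) / (32 * 10 ^ 6 * D ^ 2 * s) := ⟨_, rfl⟩
  have hsd : (s : ℝ) * ((n : ℝ) / (32 * 10 ^ 6 * D ^ 2 * s ^ 2)) = d := by
    rw [hd]; field_simp
  rw [← hd] at hE ⊢
  have hd1 : d ≤ 50100 * (N + 2) := by
    have h3 : (n : ℝ) ≤ (N + 2) * κ := by exact_mod_cast hn2
    rw [hκr] at h3
    rw [hd, div_le_iff₀ (by positivity)]
    refine h3.trans (le_of_eq ?_)
    ring
  obtain ⟨W, hW⟩ : ∃ W : ℕ, W = 497 * N / 1000 := ⟨_, rfl⟩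
  have hWr : (497 / 1000 : ℝ) * N - 1 ≤ W := by
    have h3 : 497 * N ≤ 1000 * W + 999 := by omega
    have h4 : (497 * N : ℝ) ≤ 1000 * W + 999 := by exact_mod_cast h3
    linarith
  have hW' : ∀ I : Finset (Fin (N + 1)), I.card = N / 2 ^ 30 →
      W ≤ (univ.filter (fun j => j ∉ U ∧ vec I J j ≠ 0)).card := by
    intro I hI
    have h3 := hJ2 I hI
    have h4 : (univ.filter (fun j => vec I J j ≠ 0)) ⊆
        U ∪ univ.filter (fun j => j ∉ U ∧ vec I J j ≠ 0) := by
      intro j hj
      rw [mem_filter] at hj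
      by_cases hjU : j ∈ U
      · exact mem_union_left _ hjU
      · exact mem_union_right _ (mem_filter.2 ⟨mem_univ _, hjU, hj.2⟩)
    have h5 := (card_le_card h4).trans (card_union_le _ _)
    omega
  obtain ⟨B, hB⟩ : ∃ B : ℕ, B = β0 ^ 2 - 6 * β0 := ⟨_, rfl⟩
  rw [← hB] at hXY'
  have hBn : B = 99940000 := by rw [hB, hβ]; norm_num
  obtain ⟨B', hB'⟩ : ∃ B' : ℕ, B' = B - 10 ^ 4 := ⟨_, rfl⟩
  have hB'n : B' = 99930000 := by rw [hB', hBn]; norm_num
  -- total rank
  obtain ⟨T, hT⟩ : ∃ T : (Fin N × Fin κ → Fin q) → ℝ, T = fun σ =>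
      ∑ i, (trx X Y g (patu use side a0 σ) (P i) : ℝ) := ⟨_, rfl⟩
  obtain ⟨wl, hwl⟩ : ∃ wl : ℝ, wl = (1 - 1 / (q : ℝ)) ^ use.card := ⟨_, rfl⟩
  -- upper bound for the average
  have hup : avg T ≤ m * (2 ^ d * wl ^ (-(17 / 100 : ℝ))) := by
    rw [hT, avg_sum]
    have h5 : ∀ i ∈ (univ : Finset (Fin m)), avg (fun σ : Fin N × Fin κ → Fin q =>
        (trx X Y g (patu use side a0 σ) (P i) : ℝ)) ≤
        2 ^ d * wl ^ (-(17 / 100 : ℝ)) := by
      intro i _
      have h6 := avg_trku hginj use side a0 X Y hsX hsY s hs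
        (by rw [Fintype.card_fin, hq]) _ (P i) (hP i)
      rw [hsd, Fintype.card_fin, ← hwl] at h6
      exact h6
    refine (Finset.sum_le_card_nsmul _ _ _ h5).trans (le_of_eq ?_)
    rw [card_univ, Fintype.card_fin, nsmul_eq_mul]
  -- lower bound for the average
  obtain ⟨y, hy⟩ : ∃ y : ℝ, y = (B' : ℝ) * W := ⟨_, rfl⟩
  obtain ⟨GG, hGG⟩ : ∃ GG : Fin N → (Fin κ → Fin q) → Prop, GG = fun j v => j ∉ U →
    2 ^ B ≤ 2 ^ (10 ^ 4) * (wset (L c j) (0 : Fin 3) 1 (patt (X' j) (Y' j) a0 v)).card :=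
    ⟨_, rfl⟩
  have hall := pr_all_goodj (N := N) (κ := κ) (α := Fin q) GG (by
    intro j
    rw [hGG]
    by_cases hj : j ∈ U
    · have h3 : pr (fun _ : Fin κ → Fin q => True) ≤ pr (fun v : Fin κ → Fin q => j ∉ U →
          2 ^ B ≤ 2 ^ (10 ^ 4) * (wset (L c j) (0 : Fin 3) 1
            (patt (X' j) (Y' j) a0 v)).card) :=
        pr_mono fun _ _ h => absurd hj h
      have h4 : pr (fun _ : Fin κ → Fin q => True) = 1 := by
        rw [← avg_indicator]
        simp [avg_const]
      rw [h4] at h3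
      exact le_trans (by norm_num) h3
    · have h3 := (hXY' j hj).2.2.2.2
      unfold GoodForm at h3
      exact h3.trans (pr_mono fun _ h _ => h))
  have hlow : (2 : ℝ) ^ y * (1 / 2) ^ N / (2 ^ (3 * N + 1) * 4 ^ E) ≤ avg T := by
    have h7 : ∀ σ : Fin N × Fin κ → Fin q,
        ((2 : ℝ) ^ y / (2 ^ (3 * N + 1) * 4 ^ E)) *
          (if ∀ j, GG j (fun i => σ (j, i)) then (1 : ℝ) else 0) ≤ T σ := by
      intro σ
      have hT0 : T σ = ((∑ i, trx X Y g (patu use side a0 σ) (P i) : ℕ) : ℝ) := by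
        rw [hT]; push_cast; rfl
      split_ifs with hgood
      · have hv := fun a => exists_computes G hG a
        choose v hv using hv
        have h8 := cert_boundj h2 (fun j => dg (L c j)) (ρ σ) J b (N / 2 ^ 30) hJ1 U
          (by
            intro j hj
            refine ⟨i00, ?_, ?_, ?_⟩
            · rw [hρ]; simp [hj]
            · intro i hi
              rw [hρ]
              simp [hj, hi]
            · unfold dg; simp)
          W hW' (2 ^ (B' - 1)) Nat.one_le_two_pow
          (by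
            intro j hj
            have h9 : GG j (fun i => σ (j, i)) := hgood j
            rw [hGG] at h9
            have h9' : 2 ^ B ≤ 2 ^ (10 ^ 4) * (wset (L c j) (0 : Fin 3) 1
              (patt (X' j) (Y' j) a0 (fun i => σ (j, i)))).card := h9 hj
            have h10 : B = 10 ^ 4 + B' := by rw [hB'n, hBn]; norm_num
            rw [h10, pow_add] at h9'
            have h11 := Nat.le_of_mul_le_mul_left h9' (by positivity)
            have h12 : 2 * 2 ^ (B' - 1) = 2 ^ B' := by
              have h13 : B' = (B' - 1) + 1 := by omega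
              conv_rhs => rw [h13]
              rw [pow_succ]; ring
            rw [h12]
            refine h11.trans (le_of_eq ?_)
            unfold wcj
            show _ = (wset (dg (L c j)) (0 : Fin 3) 1 (fun a => ρ σ (j, a))).card
            rw [wset_dg]
            have h14 : (fun a => ρ σ (j, a)) = patt (X' j) (Y' j) a0 (fun i => σ (j, i)) := by
              funext i
              rw [hρ]
              show (if j ∈ U then _ else patu use side a0 σ (j, i)) = _
              rw [if_neg hj]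
              unfold patu patt
              rw [hside]
              by_cases h15 : σ (j, i) = a0
              · by_cases h16 : i ∈ X' j
                · rw [if_pos ⟨(hmuse (j, i)).2 ⟨hj, Or.inl h16⟩, h15⟩, if_pos h15, if_pos h16]
                  simp [h16]
                · by_cases h17 : i ∈ Y' j
                  · rw [if_pos ⟨(hmuse (j, i)).2 ⟨hj, Or.inr h17⟩, h15⟩, if_pos h15,
                      if_neg h16, if_pos h17]
                    simp [h16]
                  · rw [if_neg, if_pos h15, if_neg h16, if_neg h17]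
                    rintro ⟨h18, _⟩
                    rw [hmuse] at h18
                    rcases h18.2 with h | h
                    · exact h16 h
                    · exact h17 h
              · rw [if_neg (fun h => h15 h.2), if_neg h15]
            rw [h14])
          (cnfc e w π L J b) (fun x y => combd g (ρ σ) (selc w c) x y)
          (fun C _ => falseAt_rankd hginj (ρ σ) (selc w c) C)
          (by
            intro C hC
            obtain ⟨i0, hi0⟩ := cnfc_row he hw hew π L J b c (ρ σ) C hC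
            refine ⟨i0, fun x y hf => hi0 x y ?_⟩
            rw [hg] at hf
            exact hf)
          G v hv P (fun i => 2 ^ V.card * (4 ^ E * trx X Y g (ρ' σ) (P i)))
          (by
            intro i
            refine fix_bits hginj (ρ σ) (ρ' σ) (selc w c) V ?_ ?_
              (fun a => (P i).eval a (v a) (falseAt 𝕜 a)) _ ?_
            · intro p hp
              rw [hV, mem_filter] at hp
              constructor
              · rw [hρ]
                show (if p.1 ∈ U then (if p.2 = i00 then (0 : Fin 3) else 2) else _) = 0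
                rw [if_pos hp.2.1, if_pos hp.2.2]
              · rw [hρ']
                show patu use side a0 σ p = 2
                unfold patu
                rw [if_neg]
                rintro ⟨h, _⟩
                rw [hmuse] at h
                exact h.1 hp.2.1
            · intro p hp
              rw [hρ, hρ']
              show patu use side a0 σ p =
                (if p.1 ∈ U then (if p.2 = i00 then (0 : Fin 3) else 2) else
                  patu use side a0 σ p)
              by_cases h3 : p.1 ∈ U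
              · rw [if_pos h3, if_neg]
                · unfold patu
                  rw [if_neg]
                  rintro ⟨h, _⟩
                  rw [hmuse] at h
                  exact h.1 h3
                · intro h4
                  apply hp
                  rw [hV, mem_filter]
                  exact ⟨mem_univ _, h3, h4⟩
              · rw [if_neg h3]
            · intro d'
              exact term_rankx hginj X Y (ρ' σ) (hρX σ) d' G hG v hv (P i)
                (fun j => ((hP i).1 j).1))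
          hcert
        have h11 : (2 * 2 ^ (B' - 1)) ^ W = 2 ^ (B' * W) := by
          have : 2 * 2 ^ (B' - 1) = 2 ^ B' := by
            have h13 : B' = (B' - 1) + 1 := by omega
            conv_rhs => rw [h13]
            rw [pow_succ]; ring
          rw [this, ← pow_mul]
        rw [h11, ← Finset.mul_sum, ← Finset.mul_sum] at h8
        have h12 : 2 ^ (B' * W) ≤ 2 ^ (3 * N + 1) * (4 ^ E *
            ∑ i, trx X Y g (patu use side a0 σ) (P i)) := by
          refine h8.trans ?_
          rw [← mul_assoc, ← pow_add]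
          have h13 : 2 * N + 1 + V.card ≤ 3 * N + 1 := by omega
          rw [hρ']
          exact Nat.mul_le_mul_right _ (Nat.pow_le_pow_right (by norm_num) h13)
        have h12 := (Nat.cast_le (α := ℝ)).2 h12
        rw [Nat.cast_mul, Nat.cast_mul, ← hT0, Nat.cast_pow, Nat.cast_pow, Nat.cast_pow,
          Nat.cast_ofNat, Nat.cast_ofNat] at h12
        rw [mul_one, div_le_iff₀ (by positivity)]
        have h13 : (2 : ℝ) ^ y = 2 ^ (B' * W) := by
          rw [hy, ← Real.rpow_natCast]
          congr 1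
          push_cast
          rfl
        rw [h13]
        linarith
      · rw [mul_zero, hT0]
        exact Nat.cast_nonneg _
    have h14 := avg_mono h7
    rw [avg_const_mul, avg_indicator] at h14
    refine le_trans ?_ h14
    rw [mul_div_right_comm]
    exact mul_le_mul_of_nonneg_left hall (by positivity)
  -- compare
  by_contra hcon
  push Not at hcon
  have hlog2a := Real.log_two_gt_d9
  have hq1 : (501 : ℝ) ≤ q := by
    rw [hq]; push_cast; linarith
  have hwq0 : 0 < 1 - 1 / (q : ℝ) := by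
    rw [sub_pos, div_lt_one (by linarith)]; linarith
  have hwq1 : 1 - 1 / (q : ℝ) ≤ 1 := by
    have : 0 ≤ 1 / (q : ℝ) := by positivity
    linarith
  have hwlow : wl ^ (-(17 / 100 : ℝ)) ≤ Real.exp (34068000 * N) := by
    refine le_trans ?_ (w_low q s N κ' (2 * κ') hs hq (by rw [hκ', hβ]) rfl)
    rw [hwl]
    apply Real.rpow_le_rpow_of_nonpos (by positivity) _ (by norm_num)
    exact pow_le_pow_of_le_one hwq0.le hwq1 husecard
  have hcomb : (2 : ℝ) ^ y * (1 / 2) ^ N / (2 ^ (3 * N + 1) * 4 ^ E) ≤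
      m * (2 ^ d * Real.exp (34068000 * N)) := by
    refine hlow.trans (hup.trans ?_)
    exact mul_le_mul_of_nonneg_left (mul_le_mul_of_nonneg_left hwlow
      (Real.rpow_nonneg (by norm_num) d)) (Nat.cast_nonneg m)
  have hcomb2 : (2 : ℝ) ^ y * (1 / 2) ^ N / (2 ^ (3 * N + 1) * 4 ^ E) <
      2 ^ d * (2 ^ d * Real.exp (34068000 * N)) := by
    refine lt_of_le_of_lt hcomb ?_
    have : (0 : ℝ) < 2 ^ d * Real.exp (34068000 * N) := by positivity
    exact mul_lt_mul_of_pos_right hcon this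
  have he1 : ∀ x : ℝ, (2 : ℝ) ^ x = Real.exp (Real.log 2 * x) := fun x => by
    rw [Real.rpow_def_of_pos (by norm_num)]
  have he2 : (1 / 2 : ℝ) ^ N = Real.exp (-(Real.log 2 * N)) := by
    rw [Real.exp_neg, mul_comm, Real.exp_nat_mul, Real.exp_log (by norm_num), one_div, inv_pow]
  have he3 : ((2 : ℝ) ^ (3 * N + 1) * 4 ^ E)⁻¹ =
      Real.exp (-(Real.log 2 * (3 * N + 1 + 2 * E))) := by
    have h16 : (4 : ℝ) ^ E = 2 ^ (2 * E) := by rw [pow_mul]; norm_num
    rw [h16, ← pow_add]
    have h17 : Real.log 2 * (3 * (N : ℝ) + 1 + 2 * E) =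
        ((3 * N + 1 + 2 * E : ℕ) : ℝ) * Real.log 2 := by
      push_cast; ring
    rw [h17, Real.exp_neg, Real.exp_nat_mul, Real.exp_log (by norm_num)]
  rw [div_eq_mul_inv, he3, he2, he1, he1, ← Real.exp_add, ← Real.exp_add, ← Real.exp_add,
    ← Real.exp_add] at hcomb2
  rw [Real.exp_lt_exp] at hcomb2
  have hB4 : (B' : ℝ) = 99930000 := by rw [hB'n]; norm_num
  have hy1 : 99930000 * ((497 / 1000 : ℝ) * N - 1) ≤ y := by
    rw [hy, hB4]
    exact mul_le_mul_of_nonneg_left hWr (by norm_num)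
  have hl20 : 0 ≤ Real.log 2 := by linarith
  have hkey : Real.log 2 * (y - 4 * N - 1 - 4 * d) < 34068000 * N := by
    have h22 : Real.log 2 * (y - 4 * N - 1 - 4 * d) =
        (Real.log 2 * y + -(Real.log 2 * N) + -(Real.log 2 * (3 * N + 1 + 2 * E))) +
          Real.log 2 * (2 * E - 2 * d) - (Real.log 2 * d + Real.log 2 * d) := by ring
    have h23 : Real.log 2 * (2 * E - 2 * d) ≤ 0 :=
      mul_nonpos_of_nonneg_of_nonpos hl20 (by linarith)
    rw [h22]
    clear hJ1 hJ2 hW' hlow hup hfam hgoodU hXY' hall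
    linarith [hcomb2]
  have h18 : (2 : ℝ) ^ 30 = 1073741824 := by norm_num
  rw [h18] at hNr
  exact lin_contra4 _ _ _ hkey (lin_step5 N y d hNr hy1 hd1)
    (lt_trans (by norm_num) hlog2a) hNr0

end final

end Pool.Agent.MP_9cec2c_lc.DepthThree
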