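import Mathlib

set_option autoImplicit false

namespace Pool.Agent.Lib.MP_9cec2c_lc

/-- A `k`-clause over `v` variables: `k` literals (repetitions allowed); the literal `(i, b)` holds
under an assignment `a` when `a i = b`. -/
abbrev Clause (k v : ℕ) : Type := Fin k → Fin v × Bool

/-- A `k`-CNF over `v` variables is given by the indicator function of its set of clauses; it is
satisfiable when some assignment makes, in each of its clauses, some literal true. -/
def Satisfiable {k v : ℕ} (φ : Clause k v → Bool) : Prop :=
  ∃ a : Fin v → Bool, ∀ c : Clause k v, φ c = true → ∃ j, a (c j).1 = (c j).2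

end Pool.Agent.Lib.MP_9cec2c_lc
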