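import Mathlib
import Pool.Agent.Lib.MP_9cec2c_lc.CubePoly
import Pool.Agent.Lib.MP_9cec2c_lc.KSatDef

set_option autoImplicit false
set_option linter.unusedSectionVars false
set_option linter.unusedSimpArgs false
set_option linter.unusedVariables false

/-!
A dense encoding: a table of bits `x (i, t)`, with `i` ranging over `K ^ k` blocks and `t < b`, is turned
into a `k`-CNF with `O(b K)` variables which is satisfiable if and only if some block has a number of
ones not divisible by 6.  Each clause indicator depends on at most one bit of `x`.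
-/

namespace Pool.Agent.Lib.MP_9cec2c_lc

open Finset

/-- variables of the encoding -/
abbrev Vr (k K b : ℕ) : Type :=
  (Fin k × Fin K) ⊕ (Fin k × Fin (K + 1)) ⊕ (Fin b × Bool × Fin K) ⊕ Fin b ⊕ (Fin (b + 1) × ZMod 6)

section

variable {k K b : ℕ}

/-- selector variable -/
def yv (j : Fin k) (i : Fin K) : Vr k K b := Sum.inl (j, i)
/-- chain variable -/
def cv (j : Fin k) (i : Fin (K + 1)) : Vr k K b := Sum.inr (Sum.inl (j, i))
/-- mismatch variable -/
def uv (t : Fin b) (β : Bool) (i : Fin K) : Vr k K b := Sum.inr (Sum.inr (Sum.inl (t, β, i)))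
/-- guessed bit -/
def zv (t : Fin b) : Vr k K b := Sum.inr (Sum.inr (Sum.inr (Sum.inl t)))
/-- running sum -/
def sv (t : Fin (b + 1)) (r : ZMod 6) : Vr k K b := Sum.inr (Sum.inr (Sum.inr (Sum.inr (t, r))))

/-- padding a clause of three literals to `k` literals -/
def pad3 (l1 l2 l3 : Vr k K b × Bool) : Fin k → Vr k K b × Bool :=
  fun j => if j.val = 0 then l1 else if j.val = 1 then l2 else l3

lemma pad3_sat (hk : 3 ≤ k) (l1 l2 l3 : Vr k K b × Bool) (P : Vr k K b × Bool → Prop) :
    (∃ j, P (pad3 l1 l2 l3 j)) ↔ P l1 ∨ P l2 ∨ P l3 := by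
  constructor
  · rintro ⟨j, hj⟩
    unfold pad3 at hj
    split_ifs at hj
    · exact Or.inl hj
    · exact Or.inr (Or.inl hj)
    · exact Or.inr (Or.inr hj)
  · rintro (h | h | h)
    · exact ⟨⟨0, by omega⟩, by simpa [pad3] using h⟩
    · exact ⟨⟨1, by omega⟩, by simpa [pad3] using h⟩
    · exact ⟨⟨2, by omega⟩, by simpa [pad3] using h⟩

/-- the last index -/
def lst (hk : 3 ≤ k) : Fin k := ⟨k - 1, by omega⟩

/-- clauses that do not depend on the table -/
inductive Fixed (hk : 3 ≤ k) : (Fin k → Vr k K b × Bool) → Prop
  | chain (j : Fin k) (i : Fin K) :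
      Fixed hk (pad3 (cv j i.castSucc, false) (yv j i, true) (cv j i.succ, true))
  | start (j : Fin k) : Fixed hk (pad3 (cv j 0, true) (cv j 0, true) (cv j 0, true))
  | stop (j : Fin k) :
      Fixed hk (pad3 (cv j (Fin.last K), false) (cv j (Fin.last K), false) (cv j (Fin.last K), false))
  | guess (t : Fin b) (β : Bool) (i : Fin K) :
      Fixed hk (pad3 (yv (lst hk) i, false) (zv t, β) (uv t β i, true))
  | step (t : Fin b) (r : ZMod 6) (β : Bool) :
      Fixed hk (pad3 (sv t.castSucc r, false) (zv t, !β) (sv t.succ (r + (β.toNat : ZMod 6)), true))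
  | first : Fixed hk (pad3 (sv 0 0, true) (sv 0 0, true) (sv 0 0, true))
  | final : Fixed hk (pad3 (sv (Fin.last b) 0, false) (sv (Fin.last b) 0, false)
      (sv (Fin.last b) 0, false))

/-- the clause that reads a bit of the table -/
def dataC (i : Fin k → Fin K) (t : Fin b) (β : Bool) : Fin k → Vr k K b × Bool :=
  fun j => if j.val + 1 < k then (yv j (i j), false) else (uv t β (i j), false)

lemma dataC_inj (hk : 3 ≤ k) {i i' : Fin k → Fin K} {t t' : Fin b} {β β' : Bool}
    (h : (dataC i t β : Fin k → Vr k K b × Bool) = dataC i' t' β') : i = i' ∧ t = t' ∧ β = β' := by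
  have hl := congrFun h (lst hk)
  unfold dataC lst at hl
  simp only at hl
  have hlt : ¬ (k - 1 + 1 < k) := by omega
  rw [if_neg hlt, if_neg hlt] at hl
  simp only [uv, Prod.mk.injEq, Sum.inr.injEq, Sum.inl.injEq, and_true] at hl
  refine ⟨?_, hl.1, hl.2.1⟩
  funext j
  by_cases hj : j.val + 1 < k
  · have h2 := congrFun h j
    unfold dataC at h2
    rw [if_pos hj, if_pos hj] at h2
    simp only [yv, Prod.mk.injEq, Sum.inl.injEq, and_true, true_and] at h2
    exact h2
  · have hj' : j = ⟨k - 1, by omega⟩ := by
      apply Fin.ext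
      simp only
      omega
    rw [hj']
    exact hl.2.2

open Classical in
/-- The encoding as a set of clauses over the abstract variables, transported by `emb`. -/
noncomputable def enc (hk : 3 ≤ k) {v : ℕ} (emb : Vr k K b → Fin v)
    (x : ((Fin k → Fin K) × Fin b) → Bool) : Clause k v → Bool :=
  fun c => decide ((∃ c0 : Fin k → Vr k K b × Bool, Fixed hk c0 ∧ c = fun j => (emb (c0 j).1, (c0 j).2)) ∨
    ∃ (i : Fin k → Fin K) (t : Fin b), c = fun j => (emb (dataC (k := k) (K := K) i t (x (i, t)) j).1,
      (dataC (k := k) (K := K) i t (x (i, t)) j).2))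

lemma transport_inj {v : ℕ} (emb : Vr k K b → Fin v) (hemb : Function.Injective emb)
    {c c' : Fin k → Vr k K b × Bool}
    (h : (fun j => (emb (c j).1, (c j).2)) = fun j => (emb (c' j).1, (c' j).2)) : c = c' := by
  funext j
  have := congrFun h j
  simp only [Prod.mk.injEq] at this
  exact Prod.ext (hemb this.1) this.2

theorem enc_lowDeg (hk : 3 ≤ k) {v : ℕ} (emb : Vr k K b → Fin v) (hemb : Function.Injective emb)
    (F : Type) [Field F] (c : Clause k v) :
    (fun x => (ind (enc hk emb x c) : F)) ∈ LowDeg F ((Fin k → Fin K) × Fin b) 1 := by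
  classical
  by_cases hfix : ∃ c0 : Fin k → Vr k K b × Bool, Fixed hk c0 ∧ c = fun j => (emb (c0 j).1, (c0 j).2)
  · have e : (fun x => (ind (enc hk emb x c) : F)) = fun _ => 1 := by
      funext x
      unfold enc
      rw [decide_eq_true (Or.inl hfix)]
      simp [ind]
    rw [e]
    exact const_mem_lowDeg 1 1
  · by_cases hdat : ∃ (i : Fin k → Fin K) (t : Fin b) (β : Bool), c = fun j =>
      (emb (dataC (k := k) (K := K) i t β j).1, (dataC (k := k) (K := K) i t β j).2)
    · obtain ⟨i, t, β, hc⟩ := hdat
      have e : (fun x => (ind (enc hk emb x c) : F)) = fun x : ((Fin k → Fin K) × Fin b) → Bool =>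
          (fun b' : Bool => ind (decide (b' = β))) (x (i, t)) := by
        funext x
        congr 1
        unfold enc
        apply decide_eq_decide.mpr
        constructor
        · rintro (h | ⟨i', t', h⟩)
          · exact absurd h hfix
          · rw [hc] at h
            have h1 := dataC_inj hk (transport_inj emb hemb h)
            obtain ⟨h2, h3, h4⟩ := h1
            subst h2
            subst h3
            exact h4.symm
        · intro h
          right
          refine ⟨i, t, ?_⟩
          rw [h]
          exact hc
      rw [e]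
      exact coord_mem_lowDeg (i, t) (fun b' : Bool => ind (decide (b' = β)))
    · have e : (fun x => (ind (enc hk emb x c) : F)) = fun _ => 0 := by
        funext x
        unfold enc
        have hneg : ¬ ((∃ c0 : Fin k → Vr k K b × Bool, Fixed hk c0 ∧
            c = fun j => (emb (c0 j).1, (c0 j).2)) ∨
            ∃ (i : Fin k → Fin K) (t : Fin b), c = fun j =>
            (emb (dataC (k := k) (K := K) i t (x (i, t)) j).1,
            (dataC (k := k) (K := K) i t (x (i, t)) j).2)) := by
          rintro (h | ⟨i, t, h⟩)
          · exact hfix h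
          · exact hdat ⟨i, t, _, h⟩
        rw [decide_eq_false hneg]
        simp [ind]
      rw [e]
      exact const_mem_lowDeg 1 0

/-- number of ones in a block -/
def blk (x : ((Fin k → Fin K) × Fin b) → Bool) (i : Fin k → Fin K) : ℕ := ∑ t, (x (i, t)).toNat

theorem enc_sound (hk : 3 ≤ k) {v : ℕ} (emb : Vr k K b → Fin v)
    (x : ((Fin k → Fin K) × Fin b) → Bool) (h : Satisfiable (enc hk emb x)) :
    ∃ i, ¬ 6 ∣ blk x i := by
  classical
  obtain ⟨a, ha⟩ := h
  -- satisfaction in terms of abstract clauses
  have hF : ∀ c0 : Fin k → Vr k K b × Bool, Fixed hk c0 → ∃ j, a (emb (c0 j).1) = (c0 j).2 := by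
    intro c0 h0
    have := ha (fun j => (emb (c0 j).1, (c0 j).2)) (by
      unfold enc
      exact decide_eq_true (Or.inl ⟨c0, h0, rfl⟩))
    simpa using this
  have hD : ∀ i t, ∃ j, a (emb (dataC (k := k) (K := K) i t (x (i, t)) j).1) =
      (dataC (k := k) (K := K) i t (x (i, t)) j).2 := by
    intro i t
    have := ha (fun j => (emb (dataC (k := k) (K := K) i t (x (i, t)) j).1,
      (dataC (k := k) (K := K) i t (x (i, t)) j).2)) (by
      unfold enc
      exact decide_eq_true (Or.inr ⟨i, t, rfl⟩))
    simpa using this
  have hP : ∀ l1 l2 l3 : Vr k K b × Bool, (∃ j, a (emb (pad3 l1 l2 l3 j).1) = (pad3 l1 l2 l3 j).2) →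
      a (emb l1.1) = l1.2 ∨ a (emb l2.1) = l2.2 ∨ a (emb l3.1) = l3.2 := by
    intro l1 l2 l3 h
    exact (pad3_sat hk l1 l2 l3 (fun l => a (emb l.1) = l.2)).mp h
  -- selectors
  have hsel : ∀ j : Fin k, ∃ i : Fin K, a (emb (yv j i)) = true := by
    intro j
    by_contra hcon
    push Not at hcon
    have hc : ∀ n (hn : n < K + 1), a (emb (cv j ⟨n, hn⟩)) = true := by
      intro n
      induction n with
      | zero =>
        intro hn
        rcases hP _ _ _ (hF _ (Fixed.start j)) with h | h | h <;> exact h
      | succ n ih =>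
        intro hn
        have h1 := ih (by omega)
        rcases hP _ _ _ (hF _ (Fixed.chain j ⟨n, by omega⟩)) with h | h | h
        · simp only at h
          have h2 : (Fin.castSucc (⟨n, by omega⟩ : Fin K)) = (⟨n, by omega⟩ : Fin (K + 1)) := rfl
          rw [h2, h1] at h
          exact absurd h (by simp)
        · exact absurd h (hcon _)
        · exact h
    rcases hP _ _ _ (hF _ (Fixed.stop j)) with h | h | h
    all_goals
      have h1 := hc K (by omega)
      simp only at h
      have h2 : (Fin.last K) = (⟨K, by omega⟩ : Fin (K + 1)) := rfl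
      rw [h2, h1] at h
      exact absurd h (by simp)
  choose i hi using hsel
  refine ⟨i, ?_⟩
  -- the guessed bits are right
  have hz : ∀ t : Fin b, a (emb (zv (k := k) (K := K) t)) = x (i, t) := by
    intro t
    obtain ⟨j, hj⟩ := hD i t
    unfold dataC at hj
    by_cases hlt : j.val + 1 < k
    · rw [if_pos hlt] at hj
      simp only at hj
      rw [hi j] at hj
      exact absurd hj (by simp)
    · rw [if_neg hlt] at hj
      simp only at hj
      have hjl : j = lst hk := by
        apply Fin.ext
        simp only [lst]
        omega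
      rcases hP _ _ _ (hF _ (Fixed.guess t (x (i, t)) (i j))) with h | h | h
      · simp only at h
        rw [← hjl, hi j] at h
        exact absurd h (by simp)
      · exact h
      · simp only at h
        rw [hj] at h
        exact absurd h (by simp)
  -- running sums
  have hs : ∀ n (hn : n < b + 1), a (emb (sv (k := k) (K := K) ⟨n, hn⟩
      (((∑ t ∈ (Finset.univ : Finset (Fin b)).filter (fun t => t.val < n), (x (i, t)).toNat : ℕ)) :
        ZMod 6))) = true := by
    intro n
    induction n with
    | zero =>
      intro hn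
      have e : ((Finset.univ : Finset (Fin b)).filter (fun t => t.val < 0)) = ∅ := by
        apply Finset.filter_eq_empty_iff.mpr
        intro t _
        omega
      rw [e, Finset.sum_empty, Nat.cast_zero]
      rcases hP _ _ _ (hF _ Fixed.first) with h | h | h <;> exact h
    | succ n ih =>
      intro hn
      have h1 := ih (by omega)
      have hnb : n < b := by omega
      have e : ((Finset.univ : Finset (Fin b)).filter (fun t => t.val < n + 1)) =
          insert (⟨n, hnb⟩ : Fin b) ((Finset.univ : Finset (Fin b)).filter (fun t => t.val < n)) := by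
        ext t
        simp only [Finset.mem_filter, Finset.mem_univ, true_and, Finset.mem_insert, Fin.ext_iff]
        omega
      rw [e, Finset.sum_insert (by simp), Nat.cast_add, add_comm (((x (i, ⟨n, hnb⟩)).toNat : ℕ) : ZMod 6)]
      rcases hP _ _ _ (hF _ (Fixed.step ⟨n, hnb⟩
        (((∑ t ∈ (Finset.univ : Finset (Fin b)).filter (fun t => t.val < n), (x (i, t)).toNat : ℕ)) :
        ZMod 6) (x (i, ⟨n, hnb⟩)))) with h | h | h
      · simp only at h
        have h2 : (Fin.castSucc (⟨n, hnb⟩ : Fin b)) = (⟨n, by omega⟩ : Fin (b + 1)) := rfl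
        rw [h2, h1] at h
        exact absurd h (by simp)
      · simp only at h
        rw [hz] at h
        exact absurd h (by cases x (i, ⟨n, hnb⟩) <;> simp)
      · exact h
  intro hdvd
  have hfin := hs b (by omega)
  have e : ((Finset.univ : Finset (Fin b)).filter (fun t => t.val < b)) = Finset.univ := by
    apply Finset.filter_true_of_mem
    intro t _
    exact t.isLt
  rw [e] at hfin
  have h0 : (((∑ t : Fin b, (x (i, t)).toNat : ℕ)) : ZMod 6) = 0 := by
    rw [ZMod.natCast_eq_zero_iff]
    exact hdvd
  rw [h0] at hfin
  rcases hP _ _ _ (hF _ Fixed.final) with h | h | h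
  all_goals
    simp only at h
    have h2 : (Fin.last b) = (⟨b, by omega⟩ : Fin (b + 1)) := rfl
    rw [h2, hfin] at h
    exact absurd h (by simp)

theorem enc_complete (hk : 3 ≤ k) {v : ℕ} (emb : Vr k K b → Fin v) (hemb : Function.Injective emb)
    (x : ((Fin k → Fin K) × Fin b) → Bool) (i : Fin k → Fin K) (hi : ¬ 6 ∣ blk x i) :
    Satisfiable (enc hk emb x) := by
  classical
  -- the assignment on abstract variables
  let τ : Vr k K b → Bool := fun q =>
    match q with
    | .inl (j, m) => decide (m = i j)
    | .inr (.inl (j, m)) => decide (m.val ≤ (i j).val)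
    | .inr (.inr (.inl (t, β, m))) => decide (m = i (lst hk)) && decide (x (i, t) ≠ β)
    | .inr (.inr (.inr (.inl t))) => x (i, t)
    | .inr (.inr (.inr (.inr (t, r)))) => decide (r =
        (((∑ t' ∈ (Finset.univ : Finset (Fin b)).filter (fun t' => t'.val < t.val),
          (x (i, t')).toNat : ℕ)) : ZMod 6))
  obtain ⟨a, haτ⟩ : ∃ a : Fin v → Bool, ∀ q, a (emb q) = τ q := by
    refine ⟨fun n => if h : ∃ q, emb q = n then τ h.choose else false, ?_⟩
    intro q
    have h : ∃ q', emb q' = emb q := ⟨q, rfl⟩
    simp only
    rw [dif_pos h]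
    congr 1
    exact hemb h.choose_spec
  refine ⟨a, ?_⟩
  intro c hc
  unfold enc at hc
  rw [decide_eq_true_eq] at hc
  have hP : ∀ l1 l2 l3 : Vr k K b × Bool, (τ l1.1 = l1.2 ∨ τ l2.1 = l2.2 ∨ τ l3.1 = l3.2) →
      (∃ j, a (emb (pad3 l1 l2 l3 j).1) = (pad3 l1 l2 l3 j).2) := by
    intro l1 l2 l3 h
    apply (pad3_sat hk l1 l2 l3 (fun l => a (emb l.1) = l.2)).mpr
    simp only [haτ]
    exact h
  rcases hc with ⟨c0, h0, rfl⟩ | ⟨i', t, rfl⟩
  · simp only
    cases h0 with
    | chain j m =>
      apply hP
      simp only [τ, yv, cv, Fin.val_castSucc, Fin.val_succ, decide_eq_true_eq, decide_eq_false_iff_not,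
        Fin.ext_iff]
      omega
    | start j =>
      apply hP
      left
      simp [τ, cv]
    | stop j =>
      apply hP
      left
      simp only [τ, cv, Fin.val_last, decide_eq_false_iff_not]
      have := (i j).isLt
      omega
    | guess t β m =>
      apply hP
      simp only [τ, yv, uv, zv, decide_eq_false_iff_not, Bool.and_eq_true, decide_eq_true_eq]
      by_cases h1 : m = i (lst hk)
      · by_cases h2 : x (i, t) = β
        · exact Or.inr (Or.inl h2)
        · exact Or.inr (Or.inr ⟨h1, h2⟩)
      · exact Or.inl h1
    | step t r β =>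
      apply hP
      simp only [τ, sv, zv, decide_eq_false_iff_not, decide_eq_true_eq, Fin.val_castSucc, Fin.val_succ]
      by_cases h1 : r = (((∑ t' ∈ (Finset.univ : Finset (Fin b)).filter (fun t' => t'.val < t.val),
          (x (i, t')).toNat : ℕ)) : ZMod 6)
      · by_cases h2 : x (i, t) = β
        · right; right
          have e : ((Finset.univ : Finset (Fin b)).filter (fun t' => t'.val < t.val + 1)) =
              insert t ((Finset.univ : Finset (Fin b)).filter (fun t' => t'.val < t.val)) := by
            ext t'
            simp only [Finset.mem_filter, Finset.mem_univ, true_and, Finset.mem_insert, Fin.ext_iff]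
            omega
          rw [e, Finset.sum_insert (by simp), Nat.cast_add, h2, ← h1, add_comm]
        · right; left
          exact Bool.eq_not.mpr h2
      · exact Or.inl h1
    | first =>
      apply hP
      left
      have e : ((Finset.univ : Finset (Fin b)).filter (fun t => t.val < 0)) = ∅ := by
        apply Finset.filter_eq_empty_iff.mpr
        intro t _
        omega
      simp only [τ, sv, Fin.val_zero, decide_eq_true_eq]
      rw [e, Finset.sum_empty, Nat.cast_zero]
    | final =>
      apply hP
      left
      have e : ((Finset.univ : Finset (Fin b)).filter (fun t => t.val < b)) = Finset.univ := by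
        apply Finset.filter_true_of_mem
        intro t _
        exact t.isLt
      simp only [τ, sv, Fin.val_last, decide_eq_false_iff_not]
      rw [e]
      intro h
      apply hi
      rw [eq_comm, ZMod.natCast_eq_zero_iff] at h
      exact h
  · simp only
    by_cases hne : ∃ j : Fin k, j.val + 1 < k ∧ i' j ≠ i j
    · obtain ⟨j, hj1, hj2⟩ := hne
      refine ⟨j, ?_⟩
      unfold dataC
      rw [if_pos hj1]
      simp only [haτ]
      simp only [τ, yv, decide_eq_false_iff_not]
      exact hj2
    · push Not at hne
      refine ⟨lst hk, ?_⟩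
      unfold dataC
      have hlt : ¬ ((lst hk).val + 1 < k) := by simp only [lst]; omega
      rw [if_neg hlt]
      simp only [haτ]
      simp only [τ, uv, Bool.and_eq_false_iff, decide_eq_false_iff_not]
      by_cases hl : i' (lst hk) = i (lst hk)
      · right
        rw [not_not]
        have hii : i' = i := by
          funext j
          by_cases hj : j.val + 1 < k
          · exact hne j hj
          · have hjl : j = lst hk := by
              apply Fin.ext
              simp only [lst]
              omega
            rw [hjl]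
            exact hl
        rw [hii]
      · left
        exact hl

end

end Pool.Agent.Lib.MP_9cec2c_lc
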