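import Pool.Agent.Lib.MP_9cec2c_lc.Mg.G011

/-!
The lower bound for a flat world: a world whose levels have about the same dimension.
-/

set_option autoImplicit false
set_option linter.unusedSectionVars false

namespace Pool.Agent.MP_9cec2c_lc.Frege

open Finset

variable {K V W : Type} [Field K] [AddCommGroup W] [Module K W] [Fintype K] [Fintype V]
  [FiniteDimensional K W] {M : ℕ → Submodule K W} {act : Fun K V →ₗ[K] W →ₗ[K] W} {A : ℕ}

/-- The lower bound for a flat world. -/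
theorem flat_bound {p b d N R w : ℕ} [CharP K p] (hW : World M act A) {C : ℝ}
    (hC : 0 ≤ C) (hpos : 0 < Module.finrank K (M 0))
    (hgrow : (Module.finrank K (M A) : ℝ) ≤ C * Module.finrank K (M 0))
    (hR : 8 * C * N ≤ 2 ^ R) (hR1 : 1 ≤ R) (hb : b ≤ R) (hw : w ≤ R)
    (hA : 3 * (3 * R * (Fintype.card K - 1)) ^ (d + 1) ≤ A)
    {Φ : Set (Cedent V)} (hΦ : Satisfies p M act 0 w Φ) {l : ℕ} (L : Fin l → Cedent V)
    (hL : IsRefutation p b d Φ L) : N < size L := by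
  obtain ⟨c, hc⟩ : ∃ c, c = Fintype.card K - 1 := ⟨_, rfl⟩
  have hc0 : 0 < c := by
    rw [hc]
    exact card_sub_pos
  have hcard : Fintype.card K + 1 = c + 2 := by
    have := Fintype.one_lt_card (α := K)
    omega
  obtain ⟨τ, hτ⟩ : ∃ τ, τ = 3 * R * c := ⟨_, rfl⟩
  have hτR : 3 * R ≤ τ := by
    rw [hτ]
    exact Nat.le_mul_of_pos_right _ hc0
  have hτc : (c + 2) * R ≤ τ := by
    have h1 : (c + 2) * R ≤ (3 * c) * R := Nat.mul_le_mul_right _ (by omega)
    have h2 : 3 * c * R = τ := by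
      rw [hτ]
      ring
    omega
  have hτc' : c + 2 ≤ τ := by
    have h1 : (c + 2) * 1 ≤ (c + 2) * R := Nat.mul_le_mul_left _ hR1
    omega
  obtain ⟨T, hT⟩ : ∃ T, T = τ ^ d := ⟨_, rfl⟩
  have hT1 : 1 ≤ T := by
    rw [hT]
    exact Nat.one_le_pow _ _ (by omega)
  have hTd : τ ^ (d - 1) ≤ T := by
    rw [hT]
    exact Nat.pow_le_pow_right (by omega) (Nat.sub_le d 1)
  have hA' : 3 * (τ * T) ≤ A := by
    rw [hT, ← pow_succ']
    rw [← hc, ← hτ] at hA
    exact hA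
  have hτT : τ ≤ τ * T := Nat.le_mul_of_pos_right _ hT1
  have hlev : ∀ e ≤ T, ∀ j ≤ R, (Module.finrank K (M (0 + j * e)) : ℝ) ≤
      C * ((2 : ℝ) / 2) ^ j * Module.finrank K (M 0) := by
    intro e he j hj
    rw [div_self (two_ne_zero), one_pow, mul_one]
    refine le_trans ?_ hgrow
    have h1 : j * e ≤ R * T := Nat.mul_le_mul hj he
    have h2 : R * T ≤ τ * T := Nat.mul_le_mul_right _ (by omega)
    exact_mod_cast Submodule.finrank_mono (hW.mono (by omega) le_rfl)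
  have hN : N * (2 * C * (1 - 1 / (2 * (2 : ℝ))) ^ (3 * R) + C / 2 ^ R) < 1 := by
    have h1 : (1 - 1 / (2 * (2 : ℝ))) ^ (3 * R) ≤ (1 / 2) ^ R := by
      rw [pow_mul]
      exact pow_le_pow_left₀ (by norm_num) (by norm_num) R
    have h2 : (0 : ℝ) < 2 ^ R := by positivity
    have h3 : (1 / 2 : ℝ) ^ R = 1 / 2 ^ R := by rw [one_div, inv_pow, one_div]
    rw [h3] at h1
    have h4 : 2 * C * (1 - 1 / (2 * (2 : ℝ))) ^ (3 * R) ≤ 2 * C * (1 / 2 ^ R) :=
      mul_le_mul_of_nonneg_left h1 (by linarith)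
    have h5 : (N : ℝ) * (2 * C * (1 - 1 / (2 * (2 : ℝ))) ^ (3 * R) + C / 2 ^ R) ≤
        N * (2 * C * (1 / 2 ^ R) + C / 2 ^ R) :=
      mul_le_mul_of_nonneg_left (by linarith) (Nat.cast_nonneg _)
    have h6 : (N : ℝ) * (2 * C * (1 / 2 ^ R) + C / 2 ^ R) = 3 / 8 * (8 * C * N / 2 ^ R) := by
      ring
    have h7 : 8 * C * N / 2 ^ R ≤ 1 := (div_le_one h2).2 hR
    linarith
  have hk : 3 * R * (Fintype.card K - 1) = τ := by rw [← hc, hτ]
  have hk2 : 2 * (3 * R) * (Fintype.card K - 1) = 2 * τ := by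
    rw [← hk]
    ring
  refine core (a₀ := 0) (m := R) (k₁ := 3 * R) (k₂ := 3 * R) (Λ₁ := 2) (Λ₂ := 2) (w := w) hW
    (by omega) hpos hC (by norm_num) (by norm_num) ?_ ?_ hN ?_ ?_ hN ?_ ?_ ?_ ?_ ?_ hΦ L hL
  · rw [hk, zero_add]
    have h1 : (R + 1 + τ) * τ ^ (d - 1) ≤ (2 * τ) * T := Nat.mul_le_mul (by omega) hTd
    have h2 : 2 * τ * T = 2 * (τ * T) := by ring
    omega
  · rw [hk]
    exact hlev _ hTd
  · rw [hk, zero_add, ← hT]
    have h1 : (R + 1 + τ) * T ≤ (2 * τ) * T := Nat.mul_le_mul (by omega) le_rfl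
    have h2 : 2 * τ * T = 2 * (τ * T) := by ring
    omega
  · rw [hk, ← hT]
    exact hlev _ le_rfl
  · rw [hk2, hk, zero_add, ← hT]
    have h1 : (2 * τ + 2) * T ≤ (3 * τ) * T := Nat.mul_le_mul (by omega) le_rfl
    have h2 : 3 * τ * T = 3 * (τ * T) := by ring
    omega
  · rw [hk, zero_add, ← hT]
    have h2 : (τ + τ) * T = 2 * (τ * T) := by ring
    omega
  · rw [hk, zero_add, ← hT]
    have h1 : (τ + b) * T ≤ (2 * τ) * T := Nat.mul_le_mul (by omega) le_rfl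
    have h2 : 2 * τ * T = 2 * (τ * T) := by ring
    omega
  · rw [hk, zero_add, ← hT, hcard]
    have h1 : (c + 2) * (T + w) = (c + 2) * T + (c + 2) * w := by ring
    have h2 : (c + 2) * T ≤ τ * T := Nat.mul_le_mul hτc' le_rfl
    have h3 : (c + 2) * w ≤ (c + 2) * R := Nat.mul_le_mul_left _ hw
    omega
  · rw [hk, zero_add, ← hT]
    have h2 : T ≤ τ * T := Nat.le_mul_of_pos_left _ (by omega)
    omega

end Pool.Agent.MP_9cec2c_lc.Frege
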