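import Pool.Agent.Lib.MP_9cec2c_lc.FLFinal

/-!
The asymptotic form of the lower bound.
-/

set_option autoImplicit false
set_option linter.unusedSectionVars false

namespace Pool.Agent.MP_9cec2c_lc.FormulaLines

open Finset Filter

theorem main_asym (c : ℝ) (hc : c < 1 / 6) :
    ∃ ε : ℝ, 0 < ε ∧ ∀ᶠ n : ℕ in atTop,
      ∃ F : Finset (Clause (Fin n)),
        (∀ x, ∃ C ∈ F, ¬ Holds x C) ∧ F.card ≤ n ^ 7 ∧ (∀ C ∈ F, C.card ≤ 6 * Nat.log 2 n) ∧
        ∀ (S : ℕ) (L : Fin S → Line (Fin n)),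
          (∀ i, (L i).Small ((n : ℝ) ^ ε) ((n : ℝ) ^ (1 + c))) →
          IsRefutation ((n : ℝ) ^ ε) F L → (2 : ℝ) ^ ((n : ℝ) ^ ε) ≤ S := by
  obtain ⟨c', hc'⟩ : ∃ c', c' = max c 0 := ⟨_, rfl⟩
  have hcc : c ≤ c' := hc' ▸ le_max_left _ _
  have hc0 : 0 ≤ c' := hc' ▸ le_max_right _ _
  have hc6 : c' < 1 / 6 := by
    rw [hc']
    exact max_lt hc (by norm_num)
  obtain ⟨E, hE⟩ : ∃ E, E = ⌈718 / (1 - 6 * c')⌉₊ := ⟨_, rfl⟩
  obtain ⟨s', hs'⟩ : ∃ s', s' = ⌈c' * E⌉₊ + 2 := ⟨_, rfl⟩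
  have hpos : 0 < 1 - 6 * c' := by linarith
  have hE1 : 718 / (1 - 6 * c') ≤ (E : ℝ) := by
    rw [hE]
    exact Nat.le_ceil _
  have hE2 : 718 ≤ (E : ℝ) * (1 - 6 * c') := by
    rwa [div_le_iff₀ hpos] at hE1
  have hs1 : (s' : ℝ) ≤ c' * E + 3 := by
    rw [hs']
    push_cast
    have := Nat.ceil_lt_add_one (show 0 ≤ c' * E by positivity)
    linarith
  have hs2 : c' * E + 2 ≤ (s' : ℝ) := by
    rw [hs']
    push_cast
    have := Nat.le_ceil (c' * E)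
    linarith
  have hsE : 6 * s' + 700 ≤ E := by
    have : (6 : ℝ) * s' + 700 ≤ E := by nlinarith
    exact_mod_cast this
  have hE700 : 700 ≤ E := by omega
  have hEr : (700 : ℝ) ≤ E := by exact_mod_cast hE700
  have hE0 : (0 : ℝ) < E := by linarith
  refine ⟨1 / (2 * E), by positivity, ?_⟩
  filter_upwards [eventually_ge_atTop (2 ^ (E * E + 1))] with n hn
  obtain ⟨τ, hτ⟩ : ∃ τ, τ = (Nat.log 2 n - 1) / E := ⟨_, rfl⟩
  have hlog : E * E + 1 ≤ Nat.log 2 n := Nat.le_log_of_pow_le (by norm_num) hn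
  have hn0 : n ≠ 0 := by
    intro h
    rw [h] at hn
    have : 0 < 2 ^ (E * E + 1) := by positivity
    omega
  have hτE : E ≤ τ := by
    rw [hτ, Nat.le_div_iff_mul_le (by omega)]
    omega
  have hτ1 : E * τ + 1 ≤ Nat.log 2 n := by
    have : E * τ ≤ Nat.log 2 n - 1 := by
      rw [hτ]
      exact Nat.mul_div_le _ _
    omega
  have hτ2 : Nat.log 2 n ≤ E * τ + E := by
    have h1 := Nat.lt_mul_div_succ (Nat.log 2 n - 1) (show 0 < E by omega)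
    rw [← hτ, mul_add, mul_one] at h1
    omega
  have hle : 2 ^ (E * τ + 1) ≤ n := (Nat.pow_le_pow_right (by norm_num) hτ1).trans
    (Nat.pow_log_le_self 2 hn0)
  have hlt : n ≤ 2 ^ (E * τ + E + 1) := by
    refine (Nat.lt_pow_succ_log_self (b := 2) (by norm_num) n).le.trans ?_
    exact Nat.pow_le_pow_right (by norm_num) (by omega)
  have hltr : (n : ℝ) ≤ (2 : ℝ) ^ ((E : ℝ) * τ + E + 1) := by
    have h1 : (n : ℝ) ≤ (2 : ℝ) ^ (E * τ + E + 1) := by exact_mod_cast hlt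
    rw [← Real.rpow_natCast] at h1
    push_cast at h1
    exact h1
  have hn1 : (1 : ℝ) ≤ n := by
    exact_mod_cast Nat.one_le_iff_ne_zero.2 hn0
  have hτr : (E : ℝ) ≤ τ := by exact_mod_cast hτE
  have hτ16 : 16 ≤ τ := by omega
  have hτ700 : (700 : ℝ) ≤ τ := hEr.trans hτr
  obtain ⟨F, h1, h2, h3, h4⟩ := main_n hτ16 hsE hτE hle
  have hk1 : (n : ℝ) ^ (1 / (2 * (E : ℝ))) ≤ (2 : ℝ) ^ ((τ : ℝ) / 2 + 1) := by
    calc (n : ℝ) ^ (1 / (2 * (E : ℝ)))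
        ≤ ((2 : ℝ) ^ ((E : ℝ) * τ + E + 1)) ^ (1 / (2 * (E : ℝ))) :=
          Real.rpow_le_rpow (by positivity) hltr (by positivity)
      _ = (2 : ℝ) ^ (((E : ℝ) * τ + E + 1) * (1 / (2 * (E : ℝ)))) := by
          rw [← Real.rpow_mul (by norm_num)]
      _ ≤ (2 : ℝ) ^ ((τ : ℝ) / 2 + 1) := by
          refine Real.rpow_le_rpow_of_exponent_le (by norm_num) ?_
          rw [mul_one_div, div_le_iff₀ (by positivity)]
          nlinarith
  have hk2 : (n : ℝ) ^ (1 / (2 * (E : ℝ))) ≤ (2 : ℝ) ^ τ := by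
    refine hk1.trans ?_
    rw [← Real.rpow_natCast]
    exact Real.rpow_le_rpow_of_exponent_le (by norm_num) (by linarith)
  have hk3 : (n : ℝ) ^ (1 / (2 * (E : ℝ))) ≤ ((2 ^ τ / 16 : ℕ) : ℝ) := by
    have e1 : 2 ^ τ / 16 = 2 ^ (τ - 4) := by
      have : 2 ^ τ = 2 ^ (τ - 4) * 16 := by
        have h5 : τ = (τ - 4) + 4 := by omega
        calc 2 ^ τ = 2 ^ ((τ - 4) + 4) := by rw [← h5]
          _ = 2 ^ (τ - 4) * 16 := by rw [pow_add]; norm_num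
      rw [this, Nat.mul_div_cancel _ (by norm_num)]
    rw [e1]
    push_cast
    refine hk1.trans ?_
    rw [← Real.rpow_natCast]
    refine Real.rpow_le_rpow_of_exponent_le (by norm_num) ?_
    rw [Nat.cast_sub (by omega)]
    push_cast
    linarith
  have hs3 : (n : ℝ) ^ (1 + c) ≤ ((2 : ℝ) ^ τ) ^ (E + s') := by
    calc (n : ℝ) ^ (1 + c) ≤ (n : ℝ) ^ (1 + c') :=
          Real.rpow_le_rpow_of_exponent_le hn1 (by linarith)
      _ ≤ ((2 : ℝ) ^ ((E : ℝ) * τ + E + 1)) ^ (1 + c') :=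
          Real.rpow_le_rpow (by positivity) hltr (by positivity)
      _ = (2 : ℝ) ^ (((E : ℝ) * τ + E + 1) * (1 + c')) := by
          rw [← Real.rpow_mul (by norm_num)]
      _ ≤ (2 : ℝ) ^ ((τ : ℝ) * (E + s')) := by
          refine Real.rpow_le_rpow_of_exponent_le (by norm_num) ?_
          have e1 : (τ : ℝ) * (c' * E + 2) ≤ τ * s' := by gcongr
          have e2 : ((E : ℝ) + 1) * (1 + c') ≤ 2 * τ := by nlinarith
          nlinarith
      _ = ((2 : ℝ) ^ τ) ^ (E + s') := by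
          rw [← pow_mul, ← Real.rpow_natCast]
          push_cast
          ring_nf
  refine ⟨F, h1, h2, h3, fun S L hL href => ?_⟩
  have h5 := h4 S L _ _ hk2 hs3 hL href
  calc (2 : ℝ) ^ ((n : ℝ) ^ (1 / (2 * (E : ℝ)))) ≤ (2 : ℝ) ^ (((2 ^ τ / 16 : ℕ) : ℝ)) :=
        Real.rpow_le_rpow_of_exponent_le (by norm_num) hk3
    _ = ((2 ^ (2 ^ τ / 16) : ℕ) : ℝ) := by
        rw [Real.rpow_natCast]
        push_cast
        ring
    _ ≤ S := by exact_mod_cast h5.le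

end Pool.Agent.MP_9cec2c_lc.FormulaLines
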