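import Mathlib

/-!
Lemma F, deterministic part: the second order lower bound for the top eigenvalue after one flip, summed over all
the entries.
-/

set_option autoImplicit false

namespace Pool.Agent.MP_9cec2c_lc.Flat

open Finset Matrix

variable {N : ℕ}

/-- The sum over the pairs `u < w` of a symmetric function. -/
theorem sum_pairs (F : Fin N → Fin N → ℝ) (hF : ∀ u w, F u w = F w u) :
    2 * ∑ e : {e : Fin N × Fin N // e.1 < e.2}, F e.1.1 e.1.2 =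
      (∑ u, ∑ w, F u w) - ∑ u, F u u := by
  have h1 : ∑ e : {e : Fin N × Fin N // e.1 < e.2}, F e.1.1 e.1.2 =
      ∑ e ∈ univ.filter (fun e : Fin N × Fin N => e.1 < e.2), F e.1 e.2 := by
    rw [← Finset.sum_subtype_eq_sum_filter]
    simp only [Finset.subtype_univ]
  have h2 : ∑ e ∈ univ.filter (fun e : Fin N × Fin N => e.1 < e.2), F e.1 e.2 =
      ∑ e ∈ univ.filter (fun e : Fin N × Fin N => e.2 < e.1), F e.1 e.2 := by
    refine sum_bij' (fun e _ => (e.2, e.1)) (fun e _ => (e.2, e.1)) ?_ ?_ ?_ ?_ ?_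
    · intro e he; simpa using he
    · intro e he; simpa using he
    · intro e _; rfl
    · intro e _; rfl
    · intro e _; exact hF _ _
  have h3 : ∑ e ∈ univ.filter (fun e : Fin N × Fin N => e.1 = e.2), F e.1 e.2 = ∑ u, F u u := by
    symm
    refine sum_bij (fun u _ => (u, u)) ?_ ?_ ?_ ?_
    · intro u _; simp
    · intro u _ v _ h; exact (Prod.ext_iff.1 h).1
    · intro e he
      rw [mem_filter] at he
      exact ⟨e.1, mem_univ _, Prod.ext rfl he.2⟩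
    · intro u _; rfl
  have h4 : ∑ u, ∑ w, F u w = ∑ e : Fin N × Fin N, F e.1 e.2 := by
    rw [← Fintype.sum_prod_type']
  have h5 : ∑ e : Fin N × Fin N, F e.1 e.2 =
      ∑ e ∈ univ.filter (fun e : Fin N × Fin N => e.1 < e.2), F e.1 e.2 +
      (∑ e ∈ univ.filter (fun e : Fin N × Fin N => e.2 < e.1), F e.1 e.2 +
      ∑ e ∈ univ.filter (fun e : Fin N × Fin N => e.1 = e.2), F e.1 e.2) := by
    rw [← sum_filter_add_sum_filter_not univ (fun e : Fin N × Fin N => e.1 < e.2)]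
    congr 1
    rw [← sum_filter_add_sum_filter_not (univ.filter (fun e : Fin N × Fin N => ¬ e.1 < e.2))
      (fun e : Fin N × Fin N => e.2 < e.1)]
    rw [filter_filter, filter_filter]
    congr 1
    · apply sum_congr _ fun _ _ => rfl
      ext e
      simp only [mem_filter, mem_univ, true_and, not_lt]
      constructor
      · exact fun h => h.2
      · exact fun h => ⟨h.le, h⟩
    · apply sum_congr _ fun _ _ => rfl
      ext e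
      simp only [mem_filter, mem_univ, true_and, not_lt]
      constructor
      · exact fun h => le_antisymm h.2 h.1
      · exact fun h => ⟨h.ge, h.le⟩
  rw [h1, h4, h5, h3, ← h2]
  ring

theorem symm_form {A : Matrix (Fin N) (Fin N) ℝ} (hA : Aᵀ = A) (x z : Fin N → ℝ) :
    x ⬝ᵥ A *ᵥ z = z ⬝ᵥ A *ᵥ x := by
  rw [dotProduct_mulVec, ← mulVec_transpose, hA, dotProduct_comm]

/-- The change of the matrix `S` when the entry `u, w` is flipped. -/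
def dl (S : Matrix (Fin N) (Fin N) ℝ) (u w : Fin N) : Matrix (Fin N) (Fin N) ℝ :=
  (-2 * S u w) • (Matrix.single u w 1 + Matrix.single w u 1)

theorem single_form (u w : Fin N) (x z : Fin N → ℝ) :
    x ⬝ᵥ (Matrix.single u w (1 : ℝ)) *ᵥ z = x u * z w := by
  rw [single_mulVec_eq, dotProduct_smul, dotProduct_single]
  simp [mul_comm]

theorem dl_mulVec (S : Matrix (Fin N) (Fin N) ℝ) (u w : Fin N) (z : Fin N → ℝ) :
    dl S u w *ᵥ z = (-2 * S u w * z w) • Pi.single u (1 : ℝ) + (-2 * S u w * z u) • Pi.single w (1 : ℝ) := by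
  unfold dl
  rw [smul_mulVec, add_mulVec, single_mulVec_eq, single_mulVec_eq, smul_add, smul_smul, smul_smul]
  simp

theorem dl_form (S : Matrix (Fin N) (Fin N) ℝ) (u w : Fin N) (x z : Fin N → ℝ) :
    x ⬝ᵥ dl S u w *ᵥ z = -2 * S u w * (x u * z w + x w * z u) := by
  rw [dl_mulVec, dotProduct_add, dotProduct_smul, dotProduct_smul, dotProduct_single,
    dotProduct_single]
  simp only [smul_eq_mul]
  ring

/-- The regularized inverse of `lam - S` on the complement of the top vector `ψ`. -/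
structure RegInv (S : Matrix (Fin N) (Fin N) ℝ) (ψ : Fin N → ℝ) (lam y : ℝ)
    (H : Matrix (Fin N) (Fin N) ℝ) : Prop where
  symm : Hᵀ = H
  ker : H *ᵥ ψ = 0
  form : ∀ v, (H *ᵥ v) ⬝ᵥ S *ᵥ (H *ᵥ v) = (lam + 2 * y) * ((H *ᵥ v) ⬝ᵥ (H *ᵥ v)) - v ⬝ᵥ H *ᵥ v

theorem RegInv.two_y {S : Matrix (Fin N) (Fin N) ℝ} {ψ : Fin N → ℝ} {lam y : ℝ}
    {H : Matrix (Fin N) (Fin N) ℝ} (h : RegInv S ψ lam y H)
    (htop : ∀ v, v ⬝ᵥ S *ᵥ v ≤ lam * (v ⬝ᵥ v)) (v : Fin N → ℝ) :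
    2 * y * ((H *ᵥ v) ⬝ᵥ (H *ᵥ v)) ≤ v ⬝ᵥ H *ᵥ v := by
  have h1 := h.form v
  have h2 := htop (H *ᵥ v)
  linarith

theorem RegInv.nonneg {S : Matrix (Fin N) (Fin N) ℝ} {ψ : Fin N → ℝ} {lam y : ℝ} (hy : 0 < y)
    {H : Matrix (Fin N) (Fin N) ℝ} (h : RegInv S ψ lam y H)
    (htop : ∀ v, v ⬝ᵥ S *ᵥ v ≤ lam * (v ⬝ᵥ v)) (v : Fin N → ℝ) : 0 ≤ v ⬝ᵥ H *ᵥ v := by
  refine le_trans ?_ (h.two_y htop v)
  have : 0 ≤ (H *ᵥ v) ⬝ᵥ (H *ᵥ v) := by
    rw [dotProduct]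
    exact sum_nonneg fun i _ => mul_self_nonneg _
  positivity

theorem form_two {A : Matrix (Fin N) (Fin N) ℝ} (hA : Aᵀ = A) (a b : ℝ) (u w : Fin N) :
    (a • Pi.single u (1 : ℝ) + b • Pi.single w (1 : ℝ) : Fin N → ℝ) ⬝ᵥ
      A *ᵥ (a • Pi.single u (1 : ℝ) + b • Pi.single w (1 : ℝ)) =
      a ^ 2 * A u u + b ^ 2 * A w w + 2 * (a * b) * A u w := by
  have h1 : A w u = A u w := by
    conv_lhs => rw [← hA]
    rfl
  simp only [mulVec_add, mulVec_smul, mulVec_single_one, add_dotProduct, dotProduct_add,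
    smul_dotProduct, dotProduct_smul, single_one_dotProduct, smul_eq_mul, col_apply, h1]
  ring

theorem RegInv.entries {S : Matrix (Fin N) (Fin N) ℝ} {ψ : Fin N → ℝ} {lam y : ℝ} (hy : 0 < y)
    {H : Matrix (Fin N) (Fin N) ℝ} (h : RegInv S ψ lam y H)
    (htop : ∀ v, v ⬝ᵥ S *ᵥ v ≤ lam * (v ⬝ᵥ v)) {h0 : ℝ} (hd : ∀ u, H u u ≤ h0) (u w : Fin N) :
    |H u w| ≤ h0 := by
  have h1 := h.nonneg hy htop ((1 : ℝ) • Pi.single u (1 : ℝ) + (1 : ℝ) • Pi.single w (1 : ℝ))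
  have h2 := h.nonneg hy htop ((1 : ℝ) • Pi.single u (1 : ℝ) + (-1 : ℝ) • Pi.single w (1 : ℝ))
  rw [form_two h.symm] at h1 h2
  rw [abs_le]
  constructor <;> nlinarith [hd u, hd w]

theorem abs_mul_le_half (a b : ℝ) : |a * b| ≤ (a ^ 2 + b ^ 2) / 2 := by
  rw [abs_le]
  constructor
  · linarith [sq_nonneg (a + b), add_sq a b]
  · linarith [sq_nonneg (a - b), sub_sq a b]

theorem abs_eq_one_of_sq {s : ℝ} (hs : s ^ 2 = 1) : |s| = 1 := by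
  have h : s * s = 1 := by rw [← hs]; ring
  rcases mul_self_eq_one_iff.1 h with h | h <;> simp [h]

theorem abs_add_sq_le (a b : ℝ) : (|a| + |b|) ^ 2 ≤ 2 * (a ^ 2 + b ^ 2) := by
  rw [← sq_abs a, ← sq_abs b]
  linarith [sq_nonneg (|a| - |b|), sub_sq |a| |b|, add_sq |a| |b|]

theorem m_bound {H : Matrix (Fin N) (Fin N) ℝ} {h0 : ℝ}
    (hd : ∀ u w, |H u w| ≤ h0) (ψ : Fin N → ℝ) (u w : Fin N) :
    4 * (ψ w ^ 2 * H u u + ψ u ^ 2 * H w w + 2 * (ψ u * ψ w) * H u w) ≤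
      8 * h0 * (ψ u ^ 2 + ψ w ^ 2) := by
  have e3 : ψ u * ψ w * H u w ≤ (ψ u ^ 2 + ψ w ^ 2) / 2 * h0 := by
    calc ψ u * ψ w * H u w ≤ |ψ u * ψ w * H u w| := le_abs_self _
      _ = |ψ u * ψ w| * |H u w| := abs_mul _ _
      _ ≤ (ψ u ^ 2 + ψ w ^ 2) / 2 * h0 :=
          mul_le_mul (abs_mul_le_half _ _) (hd u w) (abs_nonneg _) (by positivity)
  have e4 : ψ w ^ 2 * H u u ≤ ψ w ^ 2 * h0 :=
    mul_le_mul_of_nonneg_left ((le_abs_self _).trans (hd u u)) (sq_nonneg _)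
  have e5 : ψ u ^ 2 * H w w ≤ ψ u ^ 2 * h0 :=
    mul_le_mul_of_nonneg_left ((le_abs_self _).trans (hd w w)) (sq_nonneg _)
  linarith

theorem dl_self_bound {S : Matrix (Fin N) (Fin N) ℝ} {u w : Fin N} (hs : S u w ^ 2 = 1)
    (ψ : Fin N → ℝ) : |ψ ⬝ᵥ dl S u w *ᵥ ψ| ≤ 2 * (ψ u ^ 2 + ψ w ^ 2) := by
  rw [dl_form, show (-2 * S u w) * (ψ u * ψ w + ψ w * ψ u) = (-4) * (S u w * (ψ u * ψ w)) by ring,
    abs_mul, abs_mul, abs_eq_one_of_sq hs]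
  have := abs_mul_le_half (ψ u) (ψ w)
  rw [abs_neg, abs_of_pos (by norm_num : (0 : ℝ) < 4), one_mul]
  linarith

theorem c_bound {S : Matrix (Fin N) (Fin N) ℝ} {u w : Fin N} (hs : S u w ^ 2 = 1)
    {H : Matrix (Fin N) (Fin N) ℝ} {h0 : ℝ} (hd : ∀ u w, |H u w| ≤ h0) (ψ : Fin N → ℝ)
    (a : Fin N) : |(H *ᵥ (dl S u w *ᵥ ψ)) a| ≤ 2 * h0 * (|ψ u| + |ψ w|) := by
  have e : (H *ᵥ (dl S u w *ᵥ ψ)) a = (-2 * S u w) * (ψ w * H a u + ψ u * H a w) := by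
    rw [dl_mulVec]
    simp only [mulVec_add, mulVec_smul, mulVec_single_one, Pi.add_apply, Pi.smul_apply,
      smul_eq_mul, col_apply]
    ring
  have es : |(-2 * S u w)| = 2 := by
    rw [abs_mul, abs_eq_one_of_sq hs]; norm_num
  rw [e, abs_mul, es]
  calc 2 * |ψ w * H a u + ψ u * H a w| ≤ 2 * (|ψ w| * |H a u| + |ψ u| * |H a w|) := by
        have := abs_add_le (ψ w * H a u) (ψ u * H a w)
        rw [abs_mul, abs_mul] at this
        linarith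
    _ ≤ 2 * (|ψ w| * h0 + |ψ u| * h0) := by
        have := mul_le_mul_of_nonneg_left (hd a u) (abs_nonneg (ψ w))
        have := mul_le_mul_of_nonneg_left (hd a w) (abs_nonneg (ψ u))
        linarith
    _ = 2 * h0 * (|ψ u| + |ψ w|) := by ring

theorem dl_c_bound {S : Matrix (Fin N) (Fin N) ℝ} {u w : Fin N} (hs : S u w ^ 2 = 1)
    {H : Matrix (Fin N) (Fin N) ℝ} {h0 : ℝ} (hh0 : 0 ≤ h0) (hd : ∀ u w, |H u w| ≤ h0)
    (ψ : Fin N → ℝ) :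
    |(H *ᵥ (dl S u w *ᵥ ψ)) ⬝ᵥ dl S u w *ᵥ (H *ᵥ (dl S u w *ᵥ ψ))| ≤
      32 * h0 ^ 2 * (ψ u ^ 2 + ψ w ^ 2) := by
  obtain ⟨c, hc⟩ : ∃ c, c = H *ᵥ (dl S u w *ᵥ ψ) := ⟨_, rfl⟩
  have hcu : ∀ a, |c a| ≤ 2 * h0 * (|ψ u| + |ψ w|) := by
    intro a
    rw [hc]
    exact c_bound hs hd ψ a
  rw [← hc, dl_form]
  have e : |(-2 * S u w) * (c u * c w + c w * c u)| = 4 * (|c u| * |c w|) := by
    rw [show (-2 * S u w) * (c u * c w + c w * c u) = (-4) * (S u w * (c u * c w)) by ring,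
      abs_mul, abs_mul, abs_mul, abs_eq_one_of_sq hs]
    norm_num
  rw [e]
  have e3 : |c u| * |c w| ≤ (2 * h0 * (|ψ u| + |ψ w|)) * (2 * h0 * (|ψ u| + |ψ w|)) :=
    mul_le_mul (hcu u) (hcu w) (abs_nonneg _) (by positivity)
  have e4 := mul_le_mul_of_nonneg_left (abs_add_sq_le (ψ u) (ψ w)) (by positivity : 0 ≤ 16 * h0 ^ 2)
  have e5 : (2 * h0 * (|ψ u| + |ψ w|)) * (2 * h0 * (|ψ u| + |ψ w|)) =
      4 * h0 ^ 2 * (|ψ u| + |ψ w|) ^ 2 := by ring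
  rw [e5] at e3
  linarith

/-- Elementary: from `R (1 + x) ≥ m - b` to `R ≥ m - b - m x`. -/
theorem div_bound {m b x R : ℝ} (hm : 0 ≤ m) (hb : 0 ≤ b) (hx : 0 ≤ x)
    (h : m - b ≤ R * (1 + x)) : m - b - m * x ≤ R := by
  by_contra hcon
  push Not at hcon
  have e3 : R * (1 + x) < (m - b - m * x) * (1 + x) :=
    mul_lt_mul_of_pos_right hcon (by linarith)
  have e4 : (m - b - m * x) * (1 + x) = (m - b) - b * x - m * x * x := by ring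
  have e5 := mul_nonneg hb hx
  have e6 := mul_nonneg (mul_nonneg hm hx) hx
  linarith

/-- The second order lower bound for one flip. -/
theorem one_flip {S : Matrix (Fin N) (Fin N) ℝ} (hS : Sᵀ = S) {ψ : Fin N → ℝ} {lam y : ℝ}
    (hy : 0 < y) {H : Matrix (Fin N) (Fin N) ℝ} (h : RegInv S ψ lam y H) (hψ1 : ψ ⬝ᵥ ψ = 1)
    (hψ : S *ᵥ ψ = lam • ψ) (htop : ∀ v, v ⬝ᵥ S *ᵥ v ≤ lam * (v ⬝ᵥ v)) {h0 : ℝ} (hh0 : 0 ≤ h0)
    (hd : ∀ u, H u u ≤ h0) (u w : Fin N) (hs : S u w ^ 2 = 1) {l : ℝ}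
    (hl : ∀ v, v ⬝ᵥ (S + dl S u w) *ᵥ v ≤ l * (v ⬝ᵥ v)) :
    4 * (ψ w ^ 2 * H u u + ψ u ^ 2 * H w w + 2 * (ψ u * ψ w) * H u w)
      - 32 * h0 ^ 2 * (ψ u ^ 2 + ψ w ^ 2)
      - (8 * h0 + 32 * h0 ^ 2) / y * (ψ u ^ 2 + ψ w ^ 2) ^ 2
      ≤ l - lam - ψ ⬝ᵥ dl S u w *ᵥ ψ := by
  have hen := h.entries hy htop hd
  have he1 := dl_c_bound hs hh0 hen ψ
  have he2 := m_bound hen ψ u w
  have he3 := dl_self_bound hs ψ
  obtain ⟨d, hdd⟩ : ∃ d, d = dl S u w *ᵥ ψ := ⟨_, rfl⟩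
  obtain ⟨c, hc⟩ : ∃ c, c = H *ᵥ d := ⟨_, rfl⟩
  obtain ⟨m, hm⟩ : ∃ m, m = d ⬝ᵥ H *ᵥ d := ⟨_, rfl⟩
  obtain ⟨x, hx⟩ : ∃ x, x = c ⬝ᵥ c := ⟨_, rfl⟩
  obtain ⟨α, hα⟩ : ∃ α, α = ψ u ^ 2 + ψ w ^ 2 := ⟨_, rfl⟩
  have hα0 : 0 ≤ α := by rw [hα]; positivity
  have hx0 : 0 ≤ x := by
    rw [hx, dotProduct]
    exact sum_nonneg fun i _ => mul_self_nonneg _
  have hm1 : m = 4 * (ψ w ^ 2 * H u u + ψ u ^ 2 * H w w + 2 * (ψ u * ψ w) * H u w) := by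
    rw [hm, hdd, dl_mulVec, form_two h.symm]
    linear_combination 4 * (ψ w ^ 2 * H u u + ψ u ^ 2 * H w w + 2 * (ψ u * ψ w) * H u w) * hs
  have hyx : 2 * y * x ≤ m := by rw [hx, hm, hc]; exact h.two_y htop d
  have hform : c ⬝ᵥ S *ᵥ c = (lam + 2 * y) * x - m := by rw [hx, hm, hc]; exact h.form d
  have hm0 : 0 ≤ m := by rw [hm]; exact h.nonneg hy htop d
  have hcψ : c ⬝ᵥ ψ = 0 := by
    rw [hc, dotProduct_comm, symm_form h.symm, h.ker, dotProduct_zero]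
  have hcd : c ⬝ᵥ d = m := by rw [hm, hc, dotProduct_comm]
  -- the test vector
  have h1 := hl (ψ + c)
  have h2 : (ψ + c) ⬝ᵥ (S + dl S u w) *ᵥ (ψ + c) =
      lam + (ψ ⬝ᵥ dl S u w *ᵥ ψ) + ((lam + 2 * y) * x - m) + 2 * m + c ⬝ᵥ dl S u w *ᵥ c := by
    have e1 : ψ ⬝ᵥ S *ᵥ ψ = lam := by rw [hψ, dotProduct_smul, hψ1]; simp
    have e2 : c ⬝ᵥ S *ᵥ ψ = 0 := by rw [hψ, dotProduct_smul, hcψ]; simp
    have e3 : ψ ⬝ᵥ S *ᵥ c = 0 := by rw [symm_form hS, e2]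
    have e4 : c ⬝ᵥ dl S u w *ᵥ ψ = m := by rw [← hdd, hcd]
    have e5 : ψ ⬝ᵥ dl S u w *ᵥ c = m := by
      rw [← e4, dl_form, dl_form]; ring
    rw [add_mulVec, mulVec_add, mulVec_add, dotProduct_add, add_dotProduct, add_dotProduct,
      dotProduct_add, dotProduct_add, dotProduct_add, dotProduct_add, e1, e2, e3, e4, e5, hform]
    ring
  have h3 : (ψ + c) ⬝ᵥ (ψ + c) = 1 + x := by
    rw [dotProduct_add, add_dotProduct, add_dotProduct, hψ1, hcψ, dotProduct_comm ψ c, hcψ, hx]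
    ring
  rw [h2, h3] at h1
  rw [← hdd, ← hc] at he1
  rw [← hm1] at he2
  rw [← hm1]
  rw [← hα] at he1 he2 he3 ⊢
  rw [← hdd]
  rw [← hdd] at h1 he3
  obtain ⟨D, hD⟩ : ∃ D, D = ψ ⬝ᵥ d := ⟨_, rfl⟩
  rw [← hD] at he3 h1 ⊢
  have hx1 : x ≤ 4 * h0 * α / y := by
    rw [le_div_iff₀ hy]
    linarith
  have e1 := abs_le.1 he1
  have e3 := abs_le.1 he3
  have h4 : m - (32 * h0 ^ 2 * α + 2 * α * x) ≤ (l - lam - D) * (1 + x) := by
    have e4 : D * x ≤ 2 * α * x := mul_le_mul_of_nonneg_right e3.2 hx0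
    have e5 := mul_nonneg hy.le hx0
    have e6 : (l - lam - D) * (1 + x) = l * (1 + x) - lam - lam * x - D - D * x := by ring
    have e7 : (lam + 2 * y) * x = lam * x + 2 * (y * x) := by ring
    rw [e6]
    rw [e7] at h1
    linarith [e1.1]
  have h5 := div_bound hm0 (by positivity) hx0 h4
  have h6 : 2 * α * x + m * x ≤ (8 * h0 + 32 * h0 ^ 2) / y * α ^ 2 := by
    have e1 : 2 * α * x ≤ 2 * α * (4 * h0 * α / y) := mul_le_mul_of_nonneg_left hx1 (by positivity)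
    have e2 : m * x ≤ (8 * h0 * α) * (4 * h0 * α / y) :=
      mul_le_mul he2 hx1 hx0 (by positivity)
    have e3 : 2 * α * (4 * h0 * α / y) + (8 * h0 * α) * (4 * h0 * α / y) =
        (8 * h0 + 32 * h0 ^ 2) / y * α ^ 2 := by
      field_simp
      ring
    linarith
  linarith

end Pool.Agent.MP_9cec2c_lc.Flat
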