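import Mathlib
import Pool.Agent.Lib.MP_9cec2c_lc.Mg.G001
import Pool.Agent.Lib.MP_9cec2c_lc.FMF

/-!
FLAT, Lemma F, probability part (section 9 of FLAT_RMT2): existence of top pairs, the flip of one
edge, the exact average `sum_a sum_e R_e(a) = 2 sum_a lam a`, and the count of the configurations
with a small gap.
-/

set_option autoImplicit false

namespace Pool.Agent.MP_9cec2c_lc.Flat

open Finset Matrix

variable {N : ℕ}

/-! ### Top pairs -/

theorem form_sum (S : Matrix (Fin N) (Fin N) ℝ) (w z : Fin N → ℝ) :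
    w ⬝ᵥ S *ᵥ z = ∑ u, ∑ v, w u * S u v * z v := by
  simp only [dotProduct, mulVec, Finset.mul_sum, mul_assoc]

theorem isHermitian_of_symm (S : Matrix (Fin N) (Fin N) ℝ) (hS : Sᵀ = S) : S.IsHermitian := by
  rw [IsHermitian, conjTranspose_eq_transpose_of_trivial]
  exact hS

theorem form_le_eigenvalue (S : Matrix (Fin N) (Fin N) ℝ) (hH : S.IsHermitian) (j0 : Fin N)
    (hj0 : ∀ j, hH.eigenvalues j ≤ hH.eigenvalues j0) (w : Fin N → ℝ) :
    w ⬝ᵥ S *ᵥ w ≤ hH.eigenvalues j0 * ∑ v, w v ^ 2 := by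
  have hst := hH.spectral_theorem
  set V : Matrix (Fin N) (Fin N) ℝ := (hH.eigenvectorUnitary : Matrix (Fin N) (Fin N) ℝ) with hV
  have hVV : V * star V = 1 := by
    have := (Matrix.mem_unitaryGroup_iff).1 hH.eigenvectorUnitary.2
    exact this
  have hS : S = V * diagonal (fun j => hH.eigenvalues j) * star V := by
    conv_lhs => rw [hst]
    rfl
  have hsV : star V = Vᵀ := by
    rw [star_eq_conjTranspose, conjTranspose_eq_transpose_of_trivial]
  set z : Fin N → ℝ := Vᵀ *ᵥ w with hz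
  have h1 : w ⬝ᵥ S *ᵥ w = ∑ j, hH.eigenvalues j * z j ^ 2 := by
    have h2 : S *ᵥ w = V *ᵥ (diagonal (fun j => hH.eigenvalues j) *ᵥ z) := by
      rw [hz, ← hsV, mulVec_mulVec, mulVec_mulVec, ← hS]
    rw [h2, dotProduct_mulVec, ← mulVec_transpose, ← hz]
    simp only [dotProduct, mulVec_diagonal]
    refine sum_congr rfl fun j _ => ?_
    ring
  have h3 : ∑ v, w v ^ 2 = ∑ j, z j ^ 2 := by
    have h4 : z ⬝ᵥ z = w ⬝ᵥ w := by
      conv_lhs => rw [hz, dotProduct_mulVec, ← mulVec_transpose, transpose_transpose,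
        mulVec_mulVec, ← hsV, hVV, one_mulVec]
    simp only [dotProduct] at h4
    simp only [sq]
    exact h4.symm
  rw [h1, h3, mul_sum]
  exact sum_le_sum fun j _ => mul_le_mul_of_nonneg_right (hj0 j) (sq_nonneg _)

/-- Every symmetric matrix of positive size has a top pair with gap parameter `0`. -/
theorem exists_topPair (hN : 0 < N) (S : Matrix (Fin N) (Fin N) ℝ) (hS : Sᵀ = S) :
    ∃ (l : ℝ) (psi : Fin N → ℝ), TopPair S l 0 psi := by
  have hH : S.IsHermitian := isHermitian_of_symm S hS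
  obtain ⟨j0, -, hj0⟩ := Finset.exists_max_image (univ : Finset (Fin N)) hH.eigenvalues
    ⟨⟨0, hN⟩, mem_univ _⟩
  set b := hH.eigenvectorBasis with hb
  refine ⟨hH.eigenvalues j0, fun v => b j0 v, ?_, ?_, ?_⟩
  · have h1 : ‖b j0‖ = 1 := b.orthonormal.1 j0
    have h2 := EuclideanSpace.norm_eq (b j0)
    rw [h1] at h2
    have h3 : ∑ v, ‖b j0 v‖ ^ 2 = 1 := by
      have h4 := congrArg (fun x : ℝ => x ^ 2) h2
      simp only [one_pow] at h4
      rw [Real.sq_sqrt (by positivity)] at h4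
      exact h4.symm
    calc ∑ v, b j0 v ^ 2 = ∑ v, ‖b j0 v‖ ^ 2 := by
          refine sum_congr rfl fun v _ => ?_
          rw [Real.norm_eq_abs, sq_abs]
      _ = 1 := h3
  · intro u
    have h1 := congrFun (hH.mulVec_eigenvectorBasis j0) u
    simp only [mulVec, dotProduct, Pi.smul_apply, smul_eq_mul] at h1
    exact h1
  · intro w _
    rw [sub_zero, ← form_sum]
    exact form_le_eigenvalue S hH j0 (fun j => hj0 j (mem_univ _)) w

/-- The quadratic form of `S` is bounded by the top eigenvalue, also off the complement. -/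
theorem TopPair.form_le {S : Matrix (Fin N) (Fin N) ℝ} {l g : ℝ} {psi : Fin N → ℝ}
    (h : TopPair S l g psi) (hS : Sᵀ = S) (hg : 0 ≤ g) (v : Fin N → ℝ) :
    v ⬝ᵥ S *ᵥ v ≤ l * (v ⬝ᵥ v) := by
  obtain ⟨h1, h2, h3⟩ := h
  have h1' : psi ⬝ᵥ psi = 1 := by
    rw [← h1]
    simp only [dotProduct, sq]
  have h2' : S *ᵥ psi = l • psi := by
    funext u
    simp only [mulVec, dotProduct, Pi.smul_apply, smul_eq_mul]
    exact h2 u
  set c : ℝ := psi ⬝ᵥ v with hc
  set w : Fin N → ℝ := v - c • psi with hw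
  have hv : v = w + c • psi := by rw [hw]; abel
  have hpw : psi ⬝ᵥ w = 0 := by
    rw [hw, dotProduct_sub, dotProduct_smul, h1', ← hc]
    simp
  have h4 := h3 w (by simpa only [dotProduct] using hpw)
  rw [← form_sum] at h4
  have hww : ∑ v, w v ^ 2 = w ⬝ᵥ w := by simp only [dotProduct, sq]
  rw [hww] at h4
  have hwp : w ⬝ᵥ psi = 0 := by rw [dotProduct_comm]; exact hpw
  have hw0 : 0 ≤ w ⬝ᵥ w := by
    rw [← hww]
    exact sum_nonneg fun i _ => sq_nonneg _
  have h5 : psi ⬝ᵥ S *ᵥ w = 0 := by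
    rw [symm_form hS, h2', dotProduct_smul, hwp, smul_zero]
  have h6 : v ⬝ᵥ S *ᵥ v = w ⬝ᵥ S *ᵥ w + c ^ 2 * l := by
    conv_lhs => rw [hv]
    rw [mulVec_add, mulVec_smul, h2', add_dotProduct, dotProduct_add, dotProduct_add,
      smul_dotProduct, h5, dotProduct_smul, dotProduct_smul, hwp, smul_dotProduct,
      dotProduct_smul, dotProduct_smul, h1']
    simp only [smul_eq_mul]
    ring
  have h7 : v ⬝ᵥ v = w ⬝ᵥ w + c ^ 2 := by
    conv_lhs => rw [hv]
    rw [add_dotProduct, dotProduct_add, dotProduct_add, smul_dotProduct, hpw, dotProduct_smul,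
      hwp, smul_dotProduct, dotProduct_smul, h1']
    simp only [smul_eq_mul]
    ring
  rw [h6, h7]
  nlinarith

theorem TopPair.unit' {S : Matrix (Fin N) (Fin N) ℝ} {l g : ℝ} {psi : Fin N → ℝ}
    (h : TopPair S l g psi) : psi ⬝ᵥ psi = 1 := by
  rw [← h.1]
  simp only [dotProduct, sq]

theorem TopPair.eig' {S : Matrix (Fin N) (Fin N) ℝ} {l g : ℝ} {psi : Fin N → ℝ}
    (h : TopPair S l g psi) : S *ᵥ psi = l • psi := by
  funext u
  simp only [mulVec, dotProduct, Pi.smul_apply, smul_eq_mul]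
  exact h.2.1 u

theorem TopPair.form_self {S : Matrix (Fin N) (Fin N) ℝ} {l g : ℝ} {psi : Fin N → ℝ}
    (h : TopPair S l g psi) : psi ⬝ᵥ S *ᵥ psi = l := by
  rw [h.eig', dotProduct_smul, h.unit', smul_eq_mul, mul_one]

/-- Monotonicity in the gap parameter. -/
theorem TopPair.mono {S : Matrix (Fin N) (Fin N) ℝ} {l g g' : ℝ} {psi : Fin N → ℝ}
    (h : TopPair S l g psi) (hg : g' ≤ g) : TopPair S l g' psi := by
  refine ⟨h.1, h.2.1, fun w hw => (h.2.2 w hw).trans ?_⟩
  have : 0 ≤ ∑ v, w v ^ 2 := sum_nonneg fun i _ => sq_nonneg _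
  nlinarith

/-! ### The flip of one edge -/

theorem Smat_flip (a : Cfg N) (e : Edge N) :
    Smat (a + Pi.single e 1) = Smat a + dl (Smat a) e.1.1 e.1.2 := by
  have hne : e.1.1 ≠ e.1.2 := ne_of_lt e.2
  ext u w
  rw [Matrix.add_apply]
  unfold dl
  rw [Matrix.smul_apply, Matrix.add_apply, smul_eq_mul]
  by_cases huw : u = w
  · subst huw
    rw [Smat_diag, Smat_diag]
    have h1 : Matrix.single e.1.1 e.1.2 (1 : ℝ) u u = 0 := by
      rw [Matrix.single_apply, if_neg]
      rintro ⟨h2, h3⟩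
      exact hne (h2.trans h3.symm)
    have h4 : Matrix.single e.1.2 e.1.1 (1 : ℝ) u u = 0 := by
      rw [Matrix.single_apply, if_neg]
      rintro ⟨h2, h3⟩
      exact hne (h3.trans h2.symm)
    rw [h1, h4]
    ring
  · rw [Smat_of_ne _ u w huw, Smat_of_ne _ u w huw, Pi.add_apply, sgn2_add]
    by_cases h1 : mkEdge u w huw = e
    · rw [h1, Pi.single_eq_same, sgn2_one]
      have h2 : (e.1.1 = u ∧ e.1.2 = w) ∨ (e.1.1 = w ∧ e.1.2 = u) := by
        rw [← h1]
        unfold mkEdge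
        by_cases h3 : u < w
        · rw [dif_pos h3]; exact Or.inl ⟨rfl, rfl⟩
        · rw [dif_neg h3]; exact Or.inr ⟨rfl, rfl⟩
      have hSe : Smat a e.1.1 e.1.2 = sgn2 (a e) := by
        rw [Smat_of_ne _ _ _ hne, mkEdge_edge]
      rcases h2 with ⟨h3, h4⟩ | ⟨h3, h4⟩
      · have h5 : Matrix.single e.1.1 e.1.2 (1 : ℝ) u w = 1 := by
          rw [Matrix.single_apply, if_pos ⟨h3, h4⟩]
        have h6 : Matrix.single e.1.2 e.1.1 (1 : ℝ) u w = 0 := by
          rw [Matrix.single_apply, if_neg]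
          rintro ⟨h7, -⟩
          exact hne (h3.trans h7.symm)
        rw [h5, h6, hSe]
        ring
      · have h5 : Matrix.single e.1.1 e.1.2 (1 : ℝ) u w = 0 := by
          rw [Matrix.single_apply, if_neg]
          rintro ⟨h7, -⟩
          exact hne (h7.trans h4.symm)
        have h6 : Matrix.single e.1.2 e.1.1 (1 : ℝ) u w = 1 := by
          rw [Matrix.single_apply, if_pos ⟨h4, h3⟩]
        rw [h5, h6, hSe]
        ring
    · rw [Pi.single_eq_of_ne h1, sgn2_zero]
      have h5 : Matrix.single e.1.1 e.1.2 (1 : ℝ) u w = 0 := by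
        rw [Matrix.single_apply, if_neg]
        rintro ⟨h7, h8⟩
        apply h1
        have h9 : u < w := by rw [← h7, ← h8]; exact e.2
        rw [mkEdge_of_lt _ _ h9]
        exact Subtype.ext (Prod.ext h7.symm h8.symm)
      have h6 : Matrix.single e.1.2 e.1.1 (1 : ℝ) u w = 0 := by
        rw [Matrix.single_apply, if_neg]
        rintro ⟨h7, h8⟩
        apply h1
        have h9 : w < u := by rw [← h7, ← h8]; exact e.2
        rw [mkEdge_symm, mkEdge_of_lt _ _ h9]
        exact Subtype.ext (Prod.ext h8.symm h7.symm)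
      rw [h5, h6]
      ring

/-- The second order remainder `R_e(a)`. -/
noncomputable def rem (lam : Cfg N → ℝ) (psi : Cfg N → Fin N → ℝ) (a : Cfg N) (e : Edge N) : ℝ :=
  lam (a + Pi.single e 1) - lam a - psi a ⬝ᵥ dl (Smat a) e.1.1 e.1.2 *ᵥ psi a

theorem rem_nonneg (lam : Cfg N → ℝ) (psi : Cfg N → Fin N → ℝ)
    (h : ∀ a, TopPair (Smat a) (lam a) 0 (psi a)) (a : Cfg N) (e : Edge N) :
    0 ≤ rem lam psi a e := by
  unfold rem
  have h1 := (h (a + Pi.single e 1)).form_le (Smat_transpose _) le_rfl (psi a)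
  rw [Smat_flip, add_mulVec, dotProduct_add, (h a).form_self, (h a).unit'] at h1
  linarith

/-- First order terms: `sum_e psi^t D_e psi = -2 lam`. -/
theorem sum_first_order {a : Cfg N} {l g : ℝ} {psi : Fin N → ℝ}
    (h : TopPair (Smat a) l g psi) :
    ∑ e : Edge N, psi ⬝ᵥ dl (Smat a) e.1.1 e.1.2 *ᵥ psi = -2 * l := by
  have h1 : ∀ e : Edge N, psi ⬝ᵥ dl (Smat a) e.1.1 e.1.2 *ᵥ psi
      = -4 * (psi e.1.1 * Smat a e.1.1 e.1.2 * psi e.1.2) := by
    intro e
    rw [dl_form]
    ring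
  rw [sum_congr rfl fun e _ => h1 e, ← mul_sum]
  have h2 := sum_pairs (fun u w => psi u * Smat a u w * psi w)
    (fun u w => by rw [Smat_symm a u w]; ring)
  have h3 : ∑ u, psi u * Smat a u u * psi u = 0 :=
    sum_eq_zero fun u _ => by rw [Smat_diag]; ring
  rw [h3, sub_zero, ← form_sum, h.form_self] at h2
  linarith

/-- THE EXACT AVERAGE. -/
theorem sum_rem (lam : Cfg N → ℝ) (psi : Cfg N → Fin N → ℝ)
    (h : ∀ a, TopPair (Smat a) (lam a) 0 (psi a)) :
    ∑ a : Cfg N, ∑ e : Edge N, rem lam psi a e = 2 * ∑ a : Cfg N, lam a := by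
  have h1 : ∀ a : Cfg N, ∑ e : Edge N, rem lam psi a e
      = ∑ e : Edge N, (lam (a + Pi.single e 1) - lam a) + 2 * lam a := by
    intro a
    unfold rem
    rw [sum_sub_distrib, sum_first_order (h a)]
    ring
  rw [sum_congr rfl fun a _ => h1 a, sum_add_distrib, ← mul_sum, sum_comm]
  have h2 : ∀ e : Edge N, ∑ a : Cfg N, (lam (a + Pi.single e 1) - lam a) = 0 := by
    intro e
    rw [sum_sub_distrib]
    have h3 : ∑ a : Cfg N, lam (a + Pi.single e 1) = ∑ a : Cfg N, lam a :=
      Equiv.sum_comp (Equiv.addRight (Pi.single e (1 : ZMod 2) : Cfg N)) lam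
    rw [h3, sub_self]
  rw [sum_eq_zero fun e _ => h2 e, zero_add]

/-- COUNT OF THE SMALL GAPS, abstract form: on `good` the remainders sum to at least `A`, and to at
least `A + B` when moreover `small` holds. -/
theorem count_small (lam : Cfg N → ℝ) (psi : Cfg N → Fin N → ℝ)
    (h : ∀ a, TopPair (Smat a) (lam a) 0 (psi a)) (good small : Cfg N → Prop)
    [DecidablePred good] [DecidablePred small] (A B : ℝ)
    (hA : ∀ a, good a → A ≤ ∑ e : Edge N, rem lam psi a e)
    (hB : ∀ a, good a → small a → A + B ≤ ∑ e : Edge N, rem lam psi a e) :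
    A * ((univ.filter good).card : ℝ) + B * ((univ.filter fun a => good a ∧ small a).card : ℝ)
      ≤ 2 * ∑ a : Cfg N, lam a := by
  rw [← sum_rem lam psi h]
  have h1 : A * ((univ.filter good).card : ℝ)
      + B * ((univ.filter fun a => good a ∧ small a).card : ℝ)
      = ∑ a : Cfg N, ((if good a then A else 0) + if good a ∧ small a then B else 0) := by
    rw [sum_add_distrib, ← sum_filter, ← sum_filter, sum_const, sum_const, nsmul_eq_mul,
      nsmul_eq_mul]
    ring
  rw [h1]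
  refine sum_le_sum fun a _ => ?_
  have h0 : 0 ≤ ∑ e : Edge N, rem lam psi a e := sum_nonneg fun e _ => rem_nonneg lam psi h a e
  by_cases hg : good a
  · by_cases hs : small a
    · rw [if_pos hg, if_pos ⟨hg, hs⟩]
      exact hB a hg hs
    · rw [if_pos hg, if_neg (fun hh => hs hh.2), add_zero]
      exact hA a hg
  · rw [if_neg hg, if_neg (fun hh => hg hh.1), add_zero]
    exact h0

/-- COUNT OF THE SMALL GAPS, final form.  `good`: deterministic lower bounds for
`sum_e (l_e - l - psi^t D_e psi)` for every choice of top pairs; `U` bounds the average of the top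
eigenvalue. -/
theorem count_small' (hN : 0 < N) (good small : Cfg N → Prop)
    [DecidablePred good] [DecidablePred small] (A B U : ℝ) (hA0 : 0 ≤ A)
    (hA : ∀ (a : Cfg N) (l : ℝ) (psi : Fin N → ℝ) (le : Edge N → ℝ) (pe : Edge N → Fin N → ℝ),
      good a → TopPair (Smat a) l 0 psi →
      (∀ e, TopPair (Smat a + dl (Smat a) e.1.1 e.1.2) (le e) 0 (pe e)) →
      A ≤ ∑ e : Edge N, (le e - l - psi ⬝ᵥ dl (Smat a) e.1.1 e.1.2 *ᵥ psi))
    (hB : ∀ (a : Cfg N) (l : ℝ) (psi : Fin N → ℝ) (le : Edge N → ℝ) (pe : Edge N → Fin N → ℝ),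
      good a → small a → TopPair (Smat a) l 0 psi →
      (∀ e, TopPair (Smat a + dl (Smat a) e.1.1 e.1.2) (le e) 0 (pe e)) →
      A + B ≤ ∑ e : Edge N, (le e - l - psi ⬝ᵥ dl (Smat a) e.1.1 e.1.2 *ᵥ psi))
    (hU : ∀ (lam : Cfg N → ℝ), (∀ a, ∃ psi, TopPair (Smat a) (lam a) 0 psi) →
      ∑ a : Cfg N, lam a ≤ U * (Fintype.card (Cfg N) : ℝ)) :
    B * ((univ.filter fun a => good a ∧ small a).card : ℝ)
      ≤ (2 * U - A) * (Fintype.card (Cfg N) : ℝ) + A * ((univ.filter fun a => ¬ good a).card : ℝ) := by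
  choose lam psi h using fun a : Cfg N => exists_topPair hN (Smat a) (Smat_transpose a)
  have hr : ∀ a, (∑ e : Edge N, rem lam psi a e)
      = ∑ e : Edge N, (lam (a + Pi.single e 1) - lam a
        - psi a ⬝ᵥ dl (Smat a) e.1.1 e.1.2 *ᵥ psi a) := fun a => rfl
  have hflip : ∀ (a : Cfg N) (e : Edge N), TopPair (Smat a + dl (Smat a) e.1.1 e.1.2)
      (lam (a + Pi.single e 1)) 0 (psi (a + Pi.single e 1)) := by
    intro a e
    rw [← Smat_flip]
    exact h _
  have h1 := count_small lam psi h good small A B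
    (fun a ha => by
      rw [hr]
      exact hA a (lam a) (psi a) (fun e => lam (a + Pi.single e 1))
        (fun e => psi (a + Pi.single e 1)) ha (h a) (hflip a))
    (fun a ha hs => by
      rw [hr]
      exact hB a (lam a) (psi a) (fun e => lam (a + Pi.single e 1))
        (fun e => psi (a + Pi.single e 1)) ha hs (h a) (hflip a))
  have h2 := hU lam (fun a => ⟨psi a, h a⟩)
  have h3 : ((univ.filter good).card : ℝ) + ((univ.filter fun a => ¬ good a).card : ℝ)
      = (Fintype.card (Cfg N) : ℝ) := by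
    have := Finset.card_filter_add_card_filter_not (s := (univ : Finset (Cfg N))) good
    rw [card_univ] at this
    exact_mod_cast this
  nlinarith

end Pool.Agent.MP_9cec2c_lc.Flat
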