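import Pool.Agent.Lib.MP_9cec2c_lc.FLEnd2
import Pool.Agent.Lib.MP_9cec2c_lc.Mg.G011

/-!
FLAT, one family for all primes: the disjunction of the Tseitin contradictions modulo `r` and modulo
`r'` (on disjoint sets of variables), for coprime `r` and `r'`, is hard for every prime `p`. Also
the lower bound for every CNF that becomes a Tseitin contradiction when variables are substituted by
variables and constants.
-/

set_option autoImplicit false
set_option linter.unusedSectionVars false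

namespace Pool.Agent.MP_9cec2c_lc.Flat

open Finset Frege Filter

section Or

variable {V V' : Type} [DecidableEq V] [DecidableEq V'] {F : Finset (Finset (V × Bool))}
  {G : Finset (Finset (V' × Bool))}

theorem mem_orCNF {κ : Finset ((V ⊕ V') × Bool)} : κ ∈ orCNF F G ↔ ∃ κ₁ ∈ F, ∃ κ₂ ∈ G,
    κ = (κ₁.image fun l => (Sum.inl l.1, l.2)) ∪ (κ₂.image fun l => (Sum.inr l.1, l.2)) := by
  unfold orCNF
  rw [mem_image]
  constructor
  · rintro ⟨⟨κ₁, κ₂⟩, hq, rfl⟩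
    rw [mem_product] at hq
    exact ⟨κ₁, hq.1, κ₂, hq.2, rfl⟩
  · rintro ⟨κ₁, h1, κ₂, h2, rfl⟩
    exact ⟨(κ₁, κ₂), mem_product.2 ⟨h1, h2⟩, rfl⟩

theorem card_orCNF : (orCNF F G).card ≤ F.card * G.card := by
  unfold orCNF
  exact card_image_le.trans (card_product _ _).le

theorem width_orCNF {w w' : ℕ} (hF : ∀ κ ∈ F, κ.card ≤ w) (hG : ∀ κ ∈ G, κ.card ≤ w') :
    ∀ κ ∈ orCNF F G, κ.card ≤ w + w' := by
  intro κ hκ
  obtain ⟨κ₁, h1, κ₂, h2, rfl⟩ := mem_orCNF.1 hκ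
  refine (card_union_le _ _).trans (add_le_add ?_ ?_)
  · exact card_image_le.trans (hF κ₁ h1)
  · exact card_image_le.trans (hG κ₂ h2)

theorem unsat_orCNF (hF : ∀ x : V → Bool, ∃ κ ∈ F, ∀ l ∈ κ, x l.1 ≠ l.2)
    (hG : ∀ x : V' → Bool, ∃ κ ∈ G, ∀ l ∈ κ, x l.1 ≠ l.2) (x : V ⊕ V' → Bool) :
    ∃ κ ∈ orCNF F G, ∀ l ∈ κ, x l.1 ≠ l.2 := by
  obtain ⟨κ₁, h1, h1'⟩ := hF fun v => x (Sum.inl v)
  obtain ⟨κ₂, h2, h2'⟩ := hG fun v => x (Sum.inr v)
  refine ⟨_, mem_orCNF.2 ⟨κ₁, h1, κ₂, h2, rfl⟩, ?_⟩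
  intro l hl
  rcases mem_union.1 hl with h | h
  · obtain ⟨l', hl', rfl⟩ := mem_image.1 h
    exact h1' l' hl'
  · obtain ⟨l', hl', rfl⟩ := mem_image.1 h
    exact h2' l' hl'

theorem holds_or (p : ℕ) (x : V ⊕ V' → Bool) (κ₁ : Finset (V × Bool)) (κ₂ : Finset (V' × Bool)) :
    Holds p x (toCedent
      ((κ₁.image fun l => (Sum.inl l.1, l.2)) ∪ (κ₂.image fun l => (Sum.inr l.1, l.2)))) ↔
    Holds p (fun v => x (Sum.inl v)) (toCedent κ₁) ∨
      Holds p (fun v => x (Sum.inr v)) (toCedent κ₂) := by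
  rw [holds_toCedent, holds_toCedent, holds_toCedent]
  constructor
  · rintro ⟨l, hl, h⟩
    rcases mem_union.1 hl with h' | h'
    · obtain ⟨l', hl', rfl⟩ := mem_image.1 h'
      exact Or.inl ⟨l', hl', h⟩
    · obtain ⟨l', hl', rfl⟩ := mem_image.1 h'
      exact Or.inr ⟨l', hl', h⟩
  · rintro (⟨l, hl, h⟩ | ⟨l, hl, h⟩)
    · exact ⟨(Sum.inl l.1, l.2), mem_union_left _ (mem_image.2 ⟨l, hl, rfl⟩), h⟩
    · exact ⟨(Sum.inr l.1, l.2), mem_union_right _ (mem_image.2 ⟨l, hl, rfl⟩), h⟩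

end Or

/-- The lower bound for every set of cedents on which a substitution `ρ` of the variables by
variables and constants gives cedents of the Tseitin contradiction modulo `r` and true cedents. -/
theorem mod_bound_subst (p r : ℕ) [hp : Fact p.Prime] [NeZero r] (hr : 1 < r)
    (hpr : Nat.Coprime p r) (hR : RMT2 r) (b₀ w : ℕ) :
    ∃ c : ℝ, 0 < c ∧ ∃ N0 : ℕ, ∀ N : ℕ, N0 ≤ N → ∀ s : Fin N → ZMod r, ∀ d b : ℕ,
      (b : ℝ) ≤ b₀ * (N : ℝ) ^ (c / ((d : ℝ) + 1)) →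
      ∀ {V' : Type} [Fintype V'] (ρ : (TVar N × ZMod r → Bool) → (V' → Bool)),
        (∀ u, ∃ Z : Finset (TVar N × ZMod r), Z.card ≤ 1 ∧
          ∀ x y, (∀ v ∈ Z, x v = y v) → ρ x u = ρ y u) →
        ∀ Φ : Set (Cedent V'), (∀ Γ ∈ Φ, (∃ Z : Finset V', Z.card ≤ w ∧ ∀ φ ∈ Γ, Local p Z φ) ∧
          ((∀ x, Holds p (ρ x) Γ) ∨
            ∃ Γ' ∈ tseitinModCedents N r s, ∀ x, Holds p (ρ x) Γ ↔ Holds p x Γ')) →
        ∀ {l : ℕ} (L : Fin l → Cedent V'), IsRefutation p b d Φ L →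
          Real.exp ((N : ℝ) ^ (c / ((d : ℝ) + 1))) ≤ size L := by
  obtain ⟨K, hK1, hK2, hK3, ω, hω⟩ := exists_field p r (by omega) hpr
  obtain ⟨ε, hε, hsmall⟩ := Herm.exists_small_unif r
  obtain ⟨x, hx, N₁, hN₁⟩ := hR ε hε
  obtain ⟨c, hc, N₂, hN₂⟩ := frege_unif K p hx b₀ w 256
  have h6 : Tendsto (fun N : ℕ => (N : ℝ) ^ x) atTop atTop :=
    (tendsto_rpow_atTop hx).comp tendsto_natCast_atTop_atTop
  obtain ⟨N₃, hN₃⟩ := (h6.eventually_ge_atTop ((max r 3 + 4 : ℕ) : ℝ)).exists_forall_of_atTop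
  refine ⟨c, hc, max (max N₁ N₂) (max N₃ 1), ?_⟩
  intro N hN s d b hb V' _ ρ hρ Φ hΦ l L hL
  have hN1' : N₁ ≤ N := (le_max_left _ _).trans ((le_max_left _ _).trans hN)
  have hN2' : N₂ ≤ N := (le_max_right _ _).trans ((le_max_left _ _).trans hN)
  have hN3' : N₃ ≤ N := (le_max_left _ _).trans ((le_max_right _ _).trans hN)
  have hN4' : 1 ≤ N := (le_max_right _ _).trans ((le_max_right _ _).trans hN)
  obtain ⟨A, hA⟩ : ∃ A : ℕ, A = ⌊(N : ℝ) ^ x⌋₊ := ⟨_, rfl⟩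
  have hA1 : (A : ℝ) ≤ (N : ℝ) ^ x := by
    rw [hA]
    exact Nat.floor_le (by positivity)
  have hA2 : (N : ℝ) ^ x - 1 ≤ A := by
    rw [hA]
    have := Nat.lt_floor_add_one ((N : ℝ) ^ x)
    linarith
  have hA3 : max r 3 + 3 ≤ A := by
    have h7 := hN₃ N hN3'
    have h8 : ((max r 3 + 4 : ℕ) : ℝ) ≤ A + 1 := by linarith
    have h9 : max r 3 + 4 ≤ A + 1 := by exact_mod_cast h8
    omega
  obtain ⟨m, hm, cc, Gam, hrm, hcard, hG⟩ := hN₁ N hN1' A hA1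
  obtain ⟨M, act, hW, hpos, hgrow, hsat⟩ := Herm.tseitinMod_world (K := K) p hω hr (hrm := hrm)
    (Herm.spectator_sum hrm fun u => ph (cc u)) (hsmall m hrm) ⟨0, by omega⟩ s hG hcard hA3
  refine hN₂ N hN2' d b hb (world_pull hW hρ) hA2 hpos hgrow ?_ L hL
  intro Γ hΓ
  obtain ⟨h1, h2⟩ := hΦ Γ hΓ
  refine ⟨h1, fun u hu => ?_⟩
  rcases h2 with h2 | ⟨Γ', hΓ', h2⟩
  · have h3 : pull ρ (Fals K p Γ) = 0 := by
      funext y
      rw [pull_apply]
      unfold Fals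
      rw [if_pos (h2 y)]
      rfl
    rw [LinearMap.comp_apply, h3, map_zero, LinearMap.zero_apply]
  · have h3 : pull ρ (Fals K p Γ) = Fals K p Γ' := by
      funext y
      rw [pull_apply]
      unfold Fals
      by_cases h4 : Holds p y Γ'
      · rw [if_pos h4, if_pos ((h2 y).2 h4)]
      · rw [if_neg h4, if_neg fun h5 => h4 ((h2 y).1 h5)]
    rw [LinearMap.comp_apply, h3]
    exact (hsat Γ' hΓ').2 u hu

/-- **One family for all primes.** -/
theorem both_bound (p r r' : ℕ) [hp : Fact p.Prime] [NeZero r] [NeZero r'] (hr : 1 < r)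
    (hr' : 1 < r') (hcop : Nat.Coprime r r') (hR : RMT2 r) (hR' : RMT2 r') (b₀ : ℕ) :
    ∃ c : ℝ, 0 < c ∧ ∃ N0 : ℕ, ∀ N : ℕ, N0 ≤ N →
      ∀ (s : Fin N → ZMod r) (s' : Fin N → ZMod r') (d b : ℕ),
      (b : ℝ) ≤ b₀ * (N : ℝ) ^ (c / ((d : ℝ) + 1)) →
      ∀ {l : ℕ} (L : Fin l → Cedent ((TVar N × ZMod r) ⊕ (TVar N × ZMod r'))),
        IsRefutation p b d (cedentsOf (orCNF (tseitinMod N r s) (tseitinMod N r' s'))) L →
        Real.exp ((N : ℝ) ^ (c / ((d : ℝ) + 1))) ≤ size L := by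
  classical
  have hw : ∀ (N : ℕ) (s : Fin N → ZMod r) (s' : Fin N → ZMod r'),
      ∀ κ ∈ orCNF (tseitinMod N r s) (tseitinMod N r' s'), κ.card ≤ max r 3 + max r' 3 :=
    fun N s s' => width_orCNF (tseitinMod_width s) (tseitinMod_width s')
  have hloc : ∀ (N : ℕ) (s : Fin N → ZMod r) (s' : Fin N → ZMod r'),
      ∀ κ ∈ orCNF (tseitinMod N r s) (tseitinMod N r' s'),
      ∃ Z : Finset ((TVar N × ZMod r) ⊕ (TVar N × ZMod r')), Z.card ≤ max r 3 + max r' 3 ∧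
        ∀ φ ∈ toCedent κ, Local p Z φ := by
    intro N s s' κ hκ
    obtain ⟨Z, hZ, hZ'⟩ := pad_local_clause p κ
    exact ⟨Z, hZ.trans (hw N s s' κ hκ), hZ'⟩
  by_cases hpr : Nat.Coprime p r
  · obtain ⟨c, hc, N0, hN0⟩ := mod_bound_subst p r hr hpr hR b₀ (max r 3 + max r' 3)
    refine ⟨c, hc, N0, ?_⟩
    intro N hN s s' d b hb l L hL
    refine hN0 N hN s d b hb (fun x => Sum.elim x fun _ => false) ?_ _ ?_ L hL
    · rintro (v | v)
      · exact ⟨{v}, by rw [card_singleton], fun x y hxy => hxy v (mem_singleton_self v)⟩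
      · exact ⟨∅, by simp, fun x y _ => rfl⟩
    · rintro Γ ⟨κ, hκ, rfl⟩
      refine ⟨hloc N s s' κ hκ, ?_⟩
      obtain ⟨κ₁, h1, κ₂, h2, rfl⟩ := mem_orCNF.1 hκ
      by_cases h3 : Holds p (fun _ => false) (toCedent κ₂)
      · left
        intro x
        rw [holds_or]
        exact Or.inr h3
      · right
        refine ⟨toCedent κ₁, ⟨κ₁, h1, rfl⟩, fun x => ?_⟩
        rw [holds_or]
        constructor
        · rintro (h | h)
          · exact h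
          · exact absurd h h3
        · exact Or.inl
  · have hpr' : Nat.Coprime p r' := by
      rw [Nat.Prime.coprime_iff_not_dvd hp.out] at hpr ⊢
      intro h
      have h1 : p ∣ Nat.gcd r r' := Nat.dvd_gcd (not_not.1 hpr) h
      rw [hcop] at h1
      exact hp.out.one_lt.ne' (Nat.dvd_one.1 h1)
    obtain ⟨c, hc, N0, hN0⟩ := mod_bound_subst p r' hr' hpr' hR' b₀ (max r 3 + max r' 3)
    refine ⟨c, hc, N0, ?_⟩
    intro N hN s s' d b hb l L hL
    refine hN0 N hN s' d b hb (fun x => Sum.elim (fun _ => false) x) ?_ _ ?_ L hL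
    · rintro (v | v)
      · exact ⟨∅, by simp, fun x y _ => rfl⟩
      · exact ⟨{v}, by rw [card_singleton], fun x y hxy => hxy v (mem_singleton_self v)⟩
    · rintro Γ ⟨κ, hκ, rfl⟩
      refine ⟨hloc N s s' κ hκ, ?_⟩
      obtain ⟨κ₁, h1, κ₂, h2, rfl⟩ := mem_orCNF.1 hκ
      by_cases h3 : Holds p (fun _ => false) (toCedent κ₁)
      · left
        intro x
        rw [holds_or]
        exact Or.inl h3
      · right
        refine ⟨toCedent κ₂, ⟨κ₂, h2, rfl⟩, fun x => ?_⟩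
        rw [holds_or]
        constructor
        · rintro (h | h)
          · exact absurd h h3
          · exact h
        · exact Or.inr

/-- The disjunction is unsatisfiable. -/
theorem both_unsat {N r r' : ℕ} [NeZero r] [NeZero r'] (s : Fin N → ZMod r) (s' : Fin N → ZMod r')
    (hs : ∑ v, s v ≠ 0) (hs' : ∑ v, s' v ≠ 0)
    (x : (TVar N × ZMod r) ⊕ (TVar N × ZMod r') → Bool) :
    ∃ κ ∈ orCNF (tseitinMod N r s) (tseitinMod N r' s'), ∀ l ∈ κ, x l.1 ≠ l.2 :=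
  unsat_orCNF (tseitinMod_unsat s hs) (tseitinMod_unsat s' hs') x

end Pool.Agent.MP_9cec2c_lc.Flat
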