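import Mathlib
import Pool.Agent.Lib.MP_9cec2c_lc.FAFlat

/-!
FLAT, the final numbers, uniformly in the depth: a world whose height is at least `N ^ x - 1` and
whose dimension does not grow gives the lower bound `exp (N ^ (c / (d + 1)))` for all depths `d`,
with one constant `c`.
-/

set_option autoImplicit false
set_option linter.unusedSectionVars false

namespace Pool.Agent.MP_9cec2c_lc.Flat

open Finset Frege Filter Topology

/-! ### Every refutation has size at least three -/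

theorem parts_finite {V : Type} (φ : Form V) : φ.parts.Finite := by
  induction φ with
  | var v => exact Set.finite_singleton _
  | neg φ ih => exact ih.insert _
  | disj m F ih => exact (Set.finite_iUnion ih).insert _
  | count r m F ih => exact (Set.finite_iUnion ih).insert _

theorem self_mem_parts {V : Type} (φ : Form V) : φ ∈ φ.parts := by
  cases φ with
  | var v => exact Set.mem_singleton _
  | neg φ => exact Set.mem_insert _ _
  | disj m F => exact Set.mem_insert _ _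
  | count r m F => exact Set.mem_insert _ _

theorem forms_finite {V : Type} {l : ℕ} (L : Fin l → Cedent V) :
    {ψ | ∃ i, ∃ φ ∈ L i, ψ ∈ φ.parts}.Finite := by
  have h : {ψ | ∃ i, ∃ φ ∈ L i, ψ ∈ φ.parts} = ⋃ i, ⋃ φ ∈ L i, φ.parts := by
    ext ψ
    simp
  rw [h]
  exact Set.finite_iUnion fun i => (L i).finite_toSet.biUnion fun φ _ => parts_finite φ

/-- The truth assignment of an assignment of the variables. -/
theorem respects_eval {V : Type} (p : ℕ) (x : V → Bool) : Respects p {φ | φ.eval p x} := by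
  refine ⟨fun φ => Iff.rfl, fun r m F => Iff.rfl⟩

open Classical in
/-- If the empty cedent is not an axiom, then every refutation has size at least three. -/
theorem three_le_size {V : Type} {p b d : ℕ} {Φ : Set (Cedent V)} (h0 : ∅ ∉ Φ) {l : ℕ}
    {L : Fin l → Cedent V} (hL : IsRefutation p b d Φ L) : 3 ≤ size L := by
  obtain ⟨-, ⟨i, hi⟩, hs⟩ := hL
  have hl : 0 < l := i.pos
  have key : L ⟨0, hl⟩ ≠ ∅ := by
    intro h1
    have hE : {Δ | ∃ j, j < (⟨0, hl⟩ : Fin l) ∧ L j = Δ} = ∅ := by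
      ext Δ
      simp only [Set.mem_ofPred_eq, Set.mem_empty_iff_false, iff_false]
      rintro ⟨j, hj, -⟩
      exact absurd (Fin.lt_def.1 hj) (Nat.not_lt_zero _)
    have h2 := hs ⟨0, hl⟩
    rw [hE] at h2
    generalize L ⟨0, hl⟩ = Γ at h1 h2
    cases h2 with
    | ax _ h => exact h0 (h1 ▸ h)
    | taut _ _ h =>
      obtain ⟨φ, hφ, -⟩ := h _ (respects_eval p fun _ => true)
      rw [h1] at hφ
      exact absurd hφ (notMem_empty φ)
    | weak _ Δ h _ => exact h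
    | cut _ φ h _ => exact h
    | right Γ m F i h => exact h
    | left Γ m F h =>
      exact absurd h1 (insert_ne_empty _ _)
  have h1 : i ≠ ⟨0, hl⟩ := by
    rintro rfl
    exact key hi
  have h2 : 2 ≤ l := by
    by_contra h
    have h3 : l = 1 := by omega
    subst h3
    exact h1 (Subsingleton.elim _ _)
  obtain ⟨φ, hφ⟩ := nonempty_iff_ne_empty.2 key
  have h3 : 0 < {ψ | ∃ i, ∃ φ ∈ L i, ψ ∈ φ.parts}.ncard := by
    rw [Set.ncard_pos (forms_finite L)]
    exact ⟨φ, ⟨0, hl⟩, φ, hφ, self_mem_parts φ⟩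
  unfold size
  omega

/-! ### The numbers -/

/-- The numbers. -/
theorem num_unif {x : ℝ} (hx : 0 < x) (B : ℕ) :
    ∃ c : ℝ, 0 < c ∧ ∃ N0 : ℕ, ∀ N : ℕ, N0 ≤ N → ∀ (d : ℕ) (S : ℕ), 3 ≤ S →
      (N : ℝ) ^ x - 1 ≤ ((B : ℝ) * (Nat.log 2 S + (N : ℝ) ^ (c / ((d : ℝ) + 1)))) ^ (d + 1) →
      Real.exp ((N : ℝ) ^ (c / ((d : ℝ) + 1))) ≤ S := by
  obtain ⟨E, hE⟩ : ∃ E : ℝ, E = 6 * B + 2 := ⟨_, rfl⟩
  have hB0 : (0 : ℝ) ≤ B := by positivity
  have hE1 : 1 < E := by
    rw [hE]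
    linarith
  have hlogE : 0 < Real.log E := Real.log_pos hE1
  -- choose `c`
  obtain ⟨c, hc⟩ : ∃ c : ℝ, c = min (x / 2) (x / (34 * Real.log E)) := ⟨_, rfl⟩
  have hc0 : 0 < c := by
    rw [hc]
    exact lt_min (by positivity) (by positivity)
  have hcx : c ≤ x / 2 := by
    rw [hc]
    exact min_le_left _ _
  have hcE : E ^ (2 * c / x) ≤ 17 / 16 := by
    have h1 : 2 * c / x * Real.log E ≤ 1 / 17 := by
      have h2 : c ≤ x / (34 * Real.log E) := by
        rw [hc]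
        exact min_le_right _ _
      rw [le_div_iff₀ (by positivity)] at h2
      rw [div_mul_eq_mul_div, div_le_div_iff₀ hx (by norm_num)]
      nlinarith
    have h2 : E ^ (2 * c / x) = Real.exp (2 * c / x * Real.log E) := by
      rw [Real.rpow_def_of_pos (by linarith), mul_comm]
    rw [h2]
    refine (Real.exp_le_exp.2 h1).trans ?_
    have h3 := Real.add_one_le_exp (-(1 / 17 : ℝ))
    have h4 : Real.exp (1 / 17) * Real.exp (-(1 / 17)) = 1 := by
      rw [← Real.exp_add, add_neg_cancel, Real.exp_zero]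
    have h5 := Real.exp_pos (1 / 17)
    nlinarith
  have h1 : Tendsto (fun N : ℕ => (N : ℝ) ^ x) atTop atTop :=
    (tendsto_rpow_atTop hx).comp tendsto_natCast_atTop_atTop
  obtain ⟨N0, hN0⟩ := (h1.eventually_ge_atTop 2).exists_forall_of_atTop
  refine ⟨c, hc0, max N0 1, ?_⟩
  intro N hN d S hS h
  have hN1 : (1 : ℝ) ≤ N := by exact_mod_cast (le_max_right _ _).trans hN
  have hNpos : (0 : ℝ) < N := by linarith
  have hNx := hN0 N ((le_max_left _ _).trans hN)
  have hd : (0 : ℝ) < (d : ℝ) + 1 := by positivity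
  obtain ⟨Y, hY⟩ : ∃ Y : ℝ, Y = (N : ℝ) ^ (c / ((d : ℝ) + 1)) := ⟨_, rfl⟩
  rw [← hY] at h ⊢
  have hY1 : 1 ≤ Y := by
    rw [hY]
    exact Real.one_le_rpow hN1 (by positivity)
  by_contra hcon
  rw [not_le] at hcon
  have hS0 : (0 : ℝ) < S := by
    have : 0 < S := by omega
    exact_mod_cast this
  have hlog : (Nat.log 2 S : ℝ) ≤ 3 / 2 * Y := by
    have e1 : ((2 : ℝ)) ^ (Nat.log 2 S) ≤ S := by
      exact_mod_cast Nat.pow_log_le_self 2 (by omega : S ≠ 0)
    have e2 : Real.log ((2 : ℝ) ^ (Nat.log 2 S)) ≤ Real.log S :=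
      Real.log_le_log (by positivity) e1
    rw [Real.log_pow] at e2
    have e3 : Real.log S < Y := by
      rw [Real.log_lt_iff_lt_exp hS0]
      exact hcon
    have e4 := Real.log_two_gt_d9
    have e5 : (0 : ℝ) ≤ (Nat.log 2 S : ℝ) := Nat.cast_nonneg _
    nlinarith
  have h2 : ((B : ℝ) * (Nat.log 2 S + Y)) ^ (d + 1) ≤ (5 / 2 * B) ^ (d + 1) * (N : ℝ) ^ c := by
    have e1 : (B : ℝ) * (Nat.log 2 S + Y) ≤ (5 / 2 * B) * Y := by nlinarith
    have e2 : Y ^ (d + 1) = (N : ℝ) ^ c := by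
      rw [hY, ← Real.rpow_natCast, ← Real.rpow_mul (by positivity)]
      congr 1
      push_cast
      field_simp
    calc ((B : ℝ) * (Nat.log 2 S + Y)) ^ (d + 1) ≤ ((5 / 2 * B) * Y) ^ (d + 1) :=
          pow_le_pow_left₀ (by positivity) e1 _
      _ = (5 / 2 * B) ^ (d + 1) * (N : ℝ) ^ c := by rw [mul_pow, e2]
  have h3 : (N : ℝ) ^ x ≤ (5 * B) ^ (d + 1) * (N : ℝ) ^ c := by
    have e1 : (N : ℝ) ^ x ≤ 2 * ((5 / 2 * B) ^ (d + 1) * (N : ℝ) ^ c) := by linarith
    refine e1.trans ?_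
    have e2 : (5 * (B : ℝ)) ^ (d + 1) = 2 ^ (d + 1) * (5 / 2 * B) ^ (d + 1) := by
      rw [← mul_pow]
      congr 1
      ring
    have e3 : (2 : ℝ) ≤ 2 ^ (d + 1) := by
      calc (2 : ℝ) = 2 ^ 1 := by norm_num
        _ ≤ 2 ^ (d + 1) := pow_le_pow_right₀ (by norm_num) (by omega)
    rw [e2, mul_assoc]
    exact mul_le_mul_of_nonneg_right e3 (by positivity)
  have h4 : (N : ℝ) ^ (x / 2) ≤ E ^ (d + 1) := by
    have e1 : (N : ℝ) ^ x = (N : ℝ) ^ (x / 2) * (N : ℝ) ^ (x / 2) := by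
      rw [← Real.rpow_add hNpos]
      congr 1
      ring
    have e2 : (N : ℝ) ^ c ≤ (N : ℝ) ^ (x / 2) := Real.rpow_le_rpow_of_exponent_le hN1 hcx
    have e3 : (0 : ℝ) < (N : ℝ) ^ (x / 2) := Real.rpow_pos_of_pos hNpos _
    have e4 : (5 * (B : ℝ)) ^ (d + 1) ≤ E ^ (d + 1) :=
      pow_le_pow_left₀ (by positivity) (by rw [hE]; linarith) _
    have e5 : (N : ℝ) ^ (x / 2) * (N : ℝ) ^ (x / 2) ≤ E ^ (d + 1) * (N : ℝ) ^ (x / 2) := by
      rw [← e1]
      refine h3.trans ?_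
      exact mul_le_mul e4 e2 (by positivity) (by positivity)
    exact le_of_mul_le_mul_right e5 e3
  have h5 : Y ≤ 17 / 16 := by
    refine le_trans ?_ hcE
    have e1 : Y = ((N : ℝ) ^ (x / 2)) ^ ((2 * c / x) / ((d : ℝ) + 1)) := by
      rw [hY, ← Real.rpow_mul (by positivity)]
      congr 1
      field_simp
    have e2 : (E ^ (d + 1)) ^ ((2 * c / x) / ((d : ℝ) + 1)) = E ^ (2 * c / x) := by
      rw [← Real.rpow_natCast, ← Real.rpow_mul (by linarith)]
      congr 1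
      push_cast
      field_simp
    rw [e1, ← e2]
    exact Real.rpow_le_rpow (by positivity) h4 (by positivity)
  have h6 : Real.exp Y ≤ 3 := by
    have e1 : Real.exp Y ≤ Real.exp (1 + 1 / 16) := Real.exp_le_exp.2 (by linarith)
    refine e1.trans ?_
    rw [Real.exp_add]
    have e2 := Real.exp_one_lt_d9
    have e3 := Real.add_one_le_exp (-(1 / 16 : ℝ))
    have e4 : Real.exp (1 / 16) * Real.exp (-(1 / 16)) = 1 := by
      rw [← Real.exp_add, add_neg_cancel, Real.exp_zero]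
    have e5 := Real.exp_pos (1 / 16)
    have e6 : Real.exp (1 / 16) ≤ 16 / 15 := by nlinarith
    have e7 := Real.exp_pos 1
    nlinarith
  have h7 : (3 : ℝ) ≤ S := by exact_mod_cast hS
  linarith

/-- The lower bound, uniformly in the depth: worlds of height at least `N ^ x - 1` whose dimension
grows at most by the factor `C`. -/
theorem frege_unif (K : Type) [Field K] [Fintype K] (p : ℕ) [CharP K p] {x : ℝ} (hx : 0 < x)
    (b₀ w C : ℕ) :
    ∃ c : ℝ, 0 < c ∧ ∃ N0 : ℕ, ∀ N : ℕ, N0 ≤ N → ∀ d b : ℕ,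
      (b : ℝ) ≤ b₀ * (N : ℝ) ^ (c / ((d : ℝ) + 1)) →
      ∀ {V W : Type} [Fintype V] [AddCommGroup W] [Module K W] [FiniteDimensional K W]
        {M : ℕ → Submodule K W} {act : Fun K V →ₗ[K] W →ₗ[K] W} {A : ℕ}, World M act A →
        (N : ℝ) ^ x - 1 ≤ A → 0 < Module.finrank K (M 0) →
        Module.finrank K (M A) ≤ C * Module.finrank K (M 0) →
        ∀ {Φ : Set (Cedent V)}, Satisfies p M act 0 w Φ → ∀ {l : ℕ} (L : Fin l → Cedent V),
          IsRefutation p b d Φ L → Real.exp ((N : ℝ) ^ (c / ((d : ℝ) + 1))) ≤ size L := by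
  obtain ⟨q, hq⟩ : ∃ q, q = Fintype.card K - 1 := ⟨_, rfl⟩
  obtain ⟨c, hc, N0, hN0⟩ := num_unif hx (9 * q * (C + 4 + b₀ + w))
  refine ⟨c, hc, max N0 1, ?_⟩
  intro N hN d b hb V W _ _ _ _ M act A hW hA hpos hgrow Φ hΦ l L hL
  obtain ⟨S, hS⟩ : ∃ S, S = size L := ⟨_, rfl⟩
  have hN1 : (1 : ℝ) ≤ N := by exact_mod_cast (le_max_right _ _).trans hN
  obtain ⟨Y, hY⟩ : ∃ Y : ℝ, Y = (N : ℝ) ^ (c / ((d : ℝ) + 1)) := ⟨_, rfl⟩
  have hY1 : 1 ≤ Y := by
    rw [hY]
    exact Real.one_le_rpow hN1 (by positivity)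
  have h0 : ∅ ∉ Φ := by
    intro h
    have h1 : ∀ u ∈ M 0, u = 0 := by
      intro u hu
      have h2 := (hΦ ∅ h).2 u hu
      have h3 : Fals K p (∅ : Cedent V) = 1 := by
        funext y
        unfold Fals
        rw [if_neg]
        · rfl
        · rintro ⟨φ, hφ, -⟩
          exact absurd hφ (notMem_empty φ)
      rw [h3, hW.act_one 0 u (Nat.zero_le _) hu] at h2
      exact h2
    have h2 : M 0 = ⊥ := by
      rw [eq_bot_iff]
      intro u hu
      rw [Submodule.mem_bot]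
      exact h1 u hu
    rw [h2, finrank_bot] at hpos
    exact lt_irrefl _ hpos
  have hS3 : 3 ≤ S := by
    rw [hS]
    exact three_le_size h0 hL
  rw [← hS]
  refine hN0 N ((le_max_left _ _).trans hN) d S hS3 (hA.trans ?_)
  rw [← hY]
  obtain ⟨R, hR⟩ : ∃ R, R = Nat.log 2 S + (C + 4 + b + w) := ⟨_, rfl⟩
  have h1 : ¬ 3 * (3 * R * q) ^ (d + 1) ≤ A := by
    intro h
    have h2 : 8 * (C : ℝ) * S ≤ 2 ^ R := by
      have e1 : S ≤ 2 ^ (Nat.log 2 S + 1) := (Nat.lt_pow_succ_log_self (by norm_num) S).le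
      have e2 : C ≤ 2 ^ C := Nat.lt_two_pow_self.le
      have e3 : 8 * C * S ≤ 2 ^ (Nat.log 2 S + (C + 4)) := by
        calc 8 * C * S ≤ 8 * 2 ^ C * 2 ^ (Nat.log 2 S + 1) :=
              Nat.mul_le_mul (Nat.mul_le_mul_left _ e2) e1
          _ = 2 ^ (Nat.log 2 S + (C + 4)) := by
              rw [show (8 : ℕ) = 2 ^ 3 by norm_num, ← pow_add, ← pow_add]
              congr 1
              ring
      have e4 : 2 ^ (Nat.log 2 S + (C + 4)) ≤ 2 ^ R :=
        Nat.pow_le_pow_right (by norm_num) (by omega)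
      exact_mod_cast e3.trans e4
    have h3 := flat_bound (p := p) (b := b) (d := d) (N := S) (R := R) (w := w) hW (C := C)
      (by positivity) hpos (by exact_mod_cast hgrow) h2 (by omega) (by omega) (by omega)
      (by rw [← hq]; exact h) hΦ L hL
    rw [← hS] at h3
    exact lt_irrefl _ h3
  have h4 : A ≤ (9 * q * R) ^ (d + 1) := by
    have e1 : 3 * (3 * R * q) ^ (d + 1) ≤ (9 * q * R) ^ (d + 1) := by
      calc 3 * (3 * R * q) ^ (d + 1) ≤ 3 ^ (d + 1) * (3 * R * q) ^ (d + 1) :=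
            Nat.mul_le_mul_right _ (by
              calc 3 = 3 ^ 1 := by norm_num
                _ ≤ 3 ^ (d + 1) := Nat.pow_le_pow_right (by norm_num) (by omega))
        _ = (9 * q * R) ^ (d + 1) := by
            rw [← mul_pow]
            congr 1
            ring
    omega
  have h5 : (R : ℝ) ≤ ((C + 4 + b₀ + w : ℕ) : ℝ) * (Nat.log 2 S + Y) := by
    rw [hR]
    push_cast
    have e1 : (0 : ℝ) ≤ (Nat.log 2 S : ℝ) := Nat.cast_nonneg _
    have e2 : (b : ℝ) ≤ b₀ * Y := by rw [hY]; exact hb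
    have e3 : (0 : ℝ) ≤ (C : ℝ) := Nat.cast_nonneg _
    have e4 : (0 : ℝ) ≤ (w : ℝ) := Nat.cast_nonneg _
    have e5 : (0 : ℝ) ≤ (b₀ : ℝ) := Nat.cast_nonneg _
    have e6 : (Nat.log 2 S : ℝ) ≤ (C + 4 + b₀ + w) * Nat.log 2 S := by nlinarith
    have e7 : (C : ℝ) + 4 + b + w ≤ (C + 4 + b₀ + w) * Y := by nlinarith
    nlinarith
  have h6 : (A : ℝ) ≤ ((9 * q * R : ℕ) : ℝ) ^ (d + 1) := by exact_mod_cast h4
  refine h6.trans (pow_le_pow_left₀ (Nat.cast_nonneg _) ?_ _)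
  push_cast at h5 ⊢
  have e1 : (0 : ℝ) ≤ 9 * (q : ℝ) := by positivity
  calc 9 * (q : ℝ) * R ≤ 9 * q * ((C + 4 + b₀ + w) * (Nat.log 2 S + Y)) :=
        mul_le_mul_of_nonneg_left h5 e1
    _ = 9 * q * (C + 4 + b₀ + w) * (Nat.log 2 S + Y) := by ring

end Pool.Agent.MP_9cec2c_lc.Flat
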