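import Mathlib
import Pool.Agent.Lib.MP_9cec2c_lc.Mg.G011
import Pool.Agent.Lib.MP_9cec2c_lc.FLUnif
import Pool.Agent.Lib.MP_9cec2c_lc.Mg.G002

/-!
FLAT for all moduli: the lower bound for the Tseitin contradictions modulo `r` on `K_N`, for every
prime `p` that does not divide `r`, uniformly in the depth.
-/

set_option autoImplicit false
set_option linter.unusedSectionVars false

namespace Pool.Agent.MP_9cec2c_lc.Flat

open Finset Frege Filter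

/-- The conclusion of the random matrix part. -/
def RMT2 (r : ℕ) : Prop := ∀ ε : ℝ, 0 < ε → ∃ x : ℝ, 0 < x ∧ ∃ N₀ : ℕ, ∀ N ≥ N₀, ∀ L : ℕ,
  (L : ℝ) ≤ (N : ℝ) ^ x → ∃ (m : ℕ) (_ : NeZero m) (c : Fin N → ZMod m)
    (Gam : Finset (Cfg2 N m)), r ∣ m ∧ m ^ Fintype.card (Edge N) ≤ 256 * Gam.card ∧
      Herm.GoodSet (fun ψ => ∑ u, ph (c u) * ψ u ^ r) r L ε Gam

/-- **The lower bound modulo `r`**, from the random matrix part. -/
theorem mod_bound (p r : ℕ) [hp : Fact p.Prime] [NeZero r] (hr : 1 < r) (hpr : Nat.Coprime p r)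
    (hR : RMT2 r) (b₀ : ℕ) :
    ∃ c : ℝ, 0 < c ∧ ∃ N0 : ℕ, ∀ N : ℕ, N0 ≤ N → ∀ s : Fin N → ZMod r, ∀ d b : ℕ,
      (b : ℝ) ≤ b₀ * (N : ℝ) ^ (c / ((d : ℝ) + 1)) →
      ∀ {l : ℕ} (L : Fin l → Cedent (TVar N × ZMod r)),
        IsRefutation p b d (tseitinModCedents N r s) L →
        Real.exp ((N : ℝ) ^ (c / ((d : ℝ) + 1))) ≤ size L := by
  obtain ⟨K, hK1, hK2, hK3, ω, hω⟩ := exists_field p r (by omega) hpr
  obtain ⟨ε, hε, hsmall⟩ := Herm.exists_small_unif r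
  obtain ⟨x, hx, N₁, hN₁⟩ := hR ε hε
  obtain ⟨c, hc, N₂, hN₂⟩ := frege_unif K p hx b₀ (max r 3) 256
  have h6 : Tendsto (fun N : ℕ => (N : ℝ) ^ x) atTop atTop :=
    (tendsto_rpow_atTop hx).comp tendsto_natCast_atTop_atTop
  obtain ⟨N₃, hN₃⟩ := (h6.eventually_ge_atTop ((max r 3 + 4 : ℕ) : ℝ)).exists_forall_of_atTop
  refine ⟨c, hc, max (max N₁ N₂) (max N₃ 1), ?_⟩
  intro N hN s d b hb l L hL
  have hN1' : N₁ ≤ N := (le_max_left _ _).trans ((le_max_left _ _).trans hN)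
  have hN2' : N₂ ≤ N := (le_max_right _ _).trans ((le_max_left _ _).trans hN)
  have hN3' : N₃ ≤ N := (le_max_left _ _).trans ((le_max_right _ _).trans hN)
  have hN4' : 1 ≤ N := (le_max_right _ _).trans ((le_max_right _ _).trans hN)
  obtain ⟨A, hA⟩ : ∃ A : ℕ, A = ⌊(N : ℝ) ^ x⌋₊ := ⟨_, rfl⟩
  have hA1 : (A : ℝ) ≤ (N : ℝ) ^ x := by
    rw [hA]
    exact Nat.floor_le (by positivity)
  have hA2 : (N : ℝ) ^ x - 1 ≤ A := by
    rw [hA]
    have := Nat.lt_floor_add_one ((N : ℝ) ^ x)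
    linarith
  have hA3 : max r 3 + 3 ≤ A := by
    have h7 := hN₃ N hN3'
    have h8 : ((max r 3 + 4 : ℕ) : ℝ) ≤ A + 1 := by linarith
    have h9 : max r 3 + 4 ≤ A + 1 := by exact_mod_cast h8
    omega
  obtain ⟨m, hm, cc, Gam, hrm, hcard, hG⟩ := hN₁ N hN1' A hA1
  obtain ⟨M, act, hW, hpos, hgrow, hsat⟩ := Herm.tseitinMod_world (K := K) p hω hr (hrm := hrm)
    (Herm.spectator_sum hrm fun u => ph (cc u)) (hsmall m hrm) ⟨0, by omega⟩ s hG hcard hA3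
  exact hN₂ N hN2' d b hb hW hA2 hpos hgrow hsat L hL

end Pool.Agent.MP_9cec2c_lc.Flat
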