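import Pool.Agent.Lib.MP_9cec2c_lc.FLLift

/-!
The failure probability for the chosen parameters.
-/

set_option autoImplicit false
set_option linter.unusedSectionVars false

namespace Pool.Agent.MP_9cec2c_lc.FormulaLines

open Finset
open Pool.Agent.MP_9cec2c_lc.SubstRed

theorem to_real_bound {u X E a : ℕ} (hu : 0 < u) (h : a * u ^ X ≤ u ^ E) :
    (a : ℝ) ≤ (1 / (u : ℝ) ^ X) * (u : ℝ) ^ E := by
  have hu' : (0 : ℝ) < u := by exact_mod_cast hu
  rw [one_div, ← div_eq_inv_mul, le_div_iff₀ (by positivity)]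
  exact_mod_cast h

theorem exp_small {u m0 : ℕ} (hu : 2 ^ 16 ≤ u) (hm : 16 * m0 ≤ u) :
    2 ^ m0 * Real.exp (2 - (u : ℝ) ^ 2) ≤ (1 / (u : ℝ) ^ 2) ^ m0 := by
  have hu' : (65536 : ℝ) ≤ u := by
    have h := hu
    norm_num at h
    exact_mod_cast h
  have hm' : (16 : ℝ) * m0 ≤ u := by exact_mod_cast hm
  have h1 : (2 : ℝ) * (u : ℝ) ^ 2 ≤ Real.exp u := by
    have := Real.pow_div_factorial_le_exp (u : ℝ) (by linarith) 3
    have h2 : ((Nat.factorial 3 : ℕ) : ℝ) = 6 := by norm_num [Nat.factorial]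
    rw [h2] at this
    refine le_trans ?_ this
    rw [le_div_iff₀ (by norm_num)]
    nlinarith
  have h2 : ((2 : ℝ) * (u : ℝ) ^ 2) ^ m0 ≤ Real.exp (m0 * u) := by
    refine (pow_le_pow_left₀ (by positivity) h1 m0).trans ?_
    rw [← Real.exp_nat_mul]
  rw [one_div, inv_pow, ← one_div, le_div_iff₀ (by positivity)]
  calc 2 ^ m0 * Real.exp (2 - (u : ℝ) ^ 2) * ((u : ℝ) ^ 2) ^ m0
      = ((2 : ℝ) * (u : ℝ) ^ 2) ^ m0 * Real.exp (2 - (u : ℝ) ^ 2) := by
        rw [mul_pow]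
        ring
    _ ≤ Real.exp (m0 * u) * Real.exp (2 - (u : ℝ) ^ 2) := by gcongr
    _ = Real.exp (m0 * u + (2 - (u : ℝ) ^ 2)) := (Real.exp_add _ _).symm
    _ ≤ 1 := by
        rw [Real.exp_le_one_iff]
        nlinarith

variable {J : Type} [Fintype J] [DecidableEq J] {B : ℕ}

theorem fail_bound {u s' E : ℕ} (hu : 2 ^ 16 ≤ u) (hE : 6 * s' + 700 ≤ E)
    (hB : 2 ^ B = u ^ E) (hJ : Fintype.card J = u ^ (3 * s' + 297))
    (φ : Formula (LV B J)) (hφ : φ.Local (u : ℝ)) (hs : φ.size ≤ u ^ (E + s')) :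
    pr (fun ω : (J → Fin B → Bool) × ((Fin B → Bool) → Bool) =>
      (fsys (u ^ (2 * s' + 192)) u φ hφ).Fail (u ^ (4 * s' + 304)) (u / 16)
        (2 * u ^ (3 * s' + 292)) ω.1 ω.2) ≤ 3 * (1 / (u : ℝ) ^ 2) ^ (u / 16) := by
  classical
  have hu0 : 0 < u := by omega
  have hu1 : 1 ≤ u := hu0
  have hu2 : 2 ≤ u := by omega
  have hu16 : 16 ≤ u := by omega
  have hur : (0 : ℝ) < u := by exact_mod_cast hu0
  have hur' : (65536 : ℝ) ≤ u := by
    have h := hu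
    norm_num at h
    exact_mod_cast h
  obtain ⟨m0, hm0⟩ : ∃ m0, m0 = u / 16 := ⟨_, rfl⟩
  rw [← hm0]
  have hm1 : 15 * m0 ≤ u := by omega
  have hm2 : 16 * m0 ≤ u := by omega
  have hl : 2 ≤ u ^ (2 * s' + 192) := by
    calc 2 ≤ u ^ 1 := by rw [pow_one]; exact hu2
      _ ≤ u ^ (2 * s' + 192) := Nat.pow_le_pow_right hu0 (by omega)
  obtain ⟨sy, hsy⟩ : ∃ sy, sy = fsys (u ^ (2 * s' + 192)) u φ hφ := ⟨_, rfl⟩
  rw [← hsy]
  have hN : (Fintype.card (Fin B → Bool) : ℝ) = (u : ℝ) ^ E := by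
    have : Fintype.card (Fin B → Bool) = u ^ E := by simp [← hB]
    rw [this]
    push_cast
    ring
  -- number of pieces
  obtain ⟨P, hP⟩ : ∃ P, P = (pieces (u ^ (2 * s' + 192)) φ).length := ⟨_, rfl⟩
  have hP1 : P * u ^ (2 * s' + 192) ≤ 4 * u ^ (E + s') := by
    have h1 := pieces_length (l := u ^ (2 * s' + 192)) φ
    rw [← hP] at h1
    have h2 : u ^ (2 * s' + 192) ≤ u ^ (E + s') := Nat.pow_le_pow_right hu0 (by omega)
    rw [mul_comm]
    omega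
  obtain ⟨A, hA⟩ : ∃ A, A = 2 * u ^ (2 * s' + 192) * u := ⟨_, rfl⟩
  have hAle : A ≤ u ^ (2 * s' + 194) := by
    rw [hA]
    calc 2 * u ^ (2 * s' + 192) * u ≤ u * u ^ (2 * s' + 192) * u := by gcongr
      _ = u ^ (2 * s' + 194) := by ring
  have hPA : P * A ≤ u ^ (E + s' + 2) := by
    rw [hA]
    calc P * (2 * u ^ (2 * s' + 192) * u) = P * u ^ (2 * s' + 192) * (2 * u) := by ring
      _ ≤ 4 * u ^ (E + s') * (2 * u) := by gcongr
      _ = 8 * (u ^ (E + s') * u) := by ring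
      _ ≤ u * (u ^ (E + s') * u) := by gcongr; omega
      _ = u ^ (E + s' + 2) := by ring
  have hRX : ∀ i, (sy.RX i).card ≤ A := by
    intro i
    rw [hsy, hA]
    exact fsys_RX hl i
  have hRJ : ∀ i, (sy.RJ i).card ≤ A := by
    intro i
    rw [hsy, hA]
    exact fsys_RJ hl i
  have hι : Fintype.card (Fin (pieces (u ^ (2 * s' + 192)) φ).length) = P := by
    rw [Fintype.card_fin, hP]
  -- heavy bits
  have hheavy : ∀ D, (sy.heavy D).card * D ≤ u ^ (E + s' + 2) := by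
    intro D
    have h1 := sy.heavy_card hRX D
    rw [hι] at h1
    exact h1.trans hPA
  have hhp : ∀ D, (sy.hp D).card * D ≤ u ^ (E + s' + 2) := by
    intro D
    have h1 := sy.hp_card hRJ D
    rw [hι] at h1
    exact h1.trans hPA
  have hx : (0 : ℝ) ≤ 1 / (u : ℝ) ^ 94 := by positivity
  -- hypothesis 1
  have h1 : ((sy.heavy (u ^ (s' + 97))).card : ℝ) ≤
      1 / (u : ℝ) ^ 94 * Fintype.card (Fin B → Bool) := by
    rw [hN]
    refine to_real_bound hu0 ?_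
    have h := hheavy (u ^ (s' + 97))
    refine Nat.le_of_mul_le_mul_right (c := u ^ (s' + 3)) ?_ (by positivity)
    calc (sy.heavy (u ^ (s' + 97))).card * u ^ 94 * u ^ (s' + 3)
        = (sy.heavy (u ^ (s' + 97))).card * u ^ (s' + 97) := by ring
      _ ≤ u ^ (E + s' + 2) := h
      _ ≤ u ^ (E + s' + 3) := Nat.pow_le_pow_right hu0 (by omega)
      _ = u ^ E * u ^ (s' + 3) := by ring
  obtain ⟨e, he⟩ : ∃ e, E = e + (2 * s' + 289) := ⟨E - (2 * s' + 289), by omega⟩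
  -- hypothesis 2
  have h2 : (15 * m0 : ℝ) * (((u ^ e : ℕ) : ℝ) * A) ≤
      1 / (u : ℝ) ^ 94 * Fintype.card (Fin B → Bool) := by
    rw [hN]
    have : (15 * m0 * (u ^ e * A)) * u ^ 94 ≤ u ^ E := by
      calc (15 * m0 * (u ^ e * A)) * u ^ 94
          ≤ (u * (u ^ e * u ^ (2 * s' + 194))) * u ^ 94 := by gcongr
        _ = u ^ E := by
            rw [he]
            ring
    have h := to_real_bound hu0 this
    push_cast at h
    push_cast
    exact h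
  -- hypothesis 3
  have h3 : (A : ℝ) * ((u : ℝ) ^ 2 * ((u ^ (4 * s' + 304) : ℕ) : ℝ)) ≤
      1 / (u : ℝ) ^ 94 * Fintype.card (Fin B → Bool) := by
    rw [hN]
    have : (A * (u ^ 2 * u ^ (4 * s' + 304))) * u ^ 94 ≤ u ^ E := by
      calc (A * (u ^ 2 * u ^ (4 * s' + 304))) * u ^ 94
          ≤ (u ^ (2 * s' + 194) * (u ^ 2 * u ^ (4 * s' + 304))) * u ^ 94 := by gcongr
        _ = u ^ (6 * s' + 594) := by ring
        _ ≤ u ^ E := Nat.pow_le_pow_right hu0 (by omega)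
    have h := to_real_bound hu0 this
    push_cast at h
    push_cast
    exact h
  -- hypothesis 4
  have h4 : (15 * m0 : ℝ) * (((u ^ (s' + 97) : ℕ) : ℝ) * A * (((u ^ (s' + 97) : ℕ) : ℝ) * A)) ≤
      1 / (u : ℝ) ^ 94 * Fintype.card (Fin B → Bool) := by
    rw [hN]
    have : (15 * m0 * (u ^ (s' + 97) * A * (u ^ (s' + 97) * A))) * u ^ 94 ≤ u ^ E := by
      calc (15 * m0 * (u ^ (s' + 97) * A * (u ^ (s' + 97) * A))) * u ^ 94
          ≤ (u * (u ^ (s' + 97) * u ^ (2 * s' + 194) * (u ^ (s' + 97) * u ^ (2 * s' + 194)))) *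
              u ^ 94 := by gcongr
        _ = u ^ (6 * s' + 677) := by ring
        _ ≤ u ^ E := Nat.pow_le_pow_right hu0 (by omega)
    have h := to_real_bound hu0 this
    push_cast at h
    push_cast
    exact h
  -- influences
  have hinf : ∀ (v : (Fin B → Bool) → Bool) (ζ : J → Fin B → Bool),
      ∑ i, ∑ a ∈ univ \ sy.heavy (u ^ (s' + 97)),
        pr (fun r => sy.Piv i ζ (mix (sy.heavy (u ^ (s' + 97))) v r) a) ≤
      1 / (u : ℝ) ^ 94 * Fintype.card (Fin B → Bool) := by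
    intro v ζ
    rw [hN]
    have hG : ((u : ℝ)) ^ 2 * (2 * ((u ^ (2 * s' + 192) : ℕ) : ℝ)) ≤
        (2 * (u : ℝ) ^ (s' + 97)) ^ 2 := by
      push_cast
      have : (0 : ℝ) ≤ (u : ℝ) ^ (2 * s' + 194) := by positivity
      calc (u : ℝ) ^ 2 * (2 * (u : ℝ) ^ (2 * s' + 192)) = 2 * (u : ℝ) ^ (2 * s' + 194) := by ring
        _ ≤ 4 * (u : ℝ) ^ (2 * s' + 194) := by linarith
        _ = (2 * (u : ℝ) ^ (s' + 97)) ^ 2 := by ring
    have h := fsys_inf (φ := φ) (hφ := hφ) hl (G := 2 * (u : ℝ) ^ (s' + 97)) (by positivity) hG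
      (u ^ (s' + 97)) v ζ
    rw [← hsy] at h
    refine h.trans ?_
    rw [← hP]
    have h5 : (P * (2 * (2 * u ^ (s' + 97)))) * u ^ 94 ≤ u ^ E := by
      refine Nat.le_of_mul_le_mul_right (c := u ^ (2 * s' + 192)) ?_ (by positivity)
      calc (P * (2 * (2 * u ^ (s' + 97)))) * u ^ 94 * u ^ (2 * s' + 192)
          = P * u ^ (2 * s' + 192) * (4 * u ^ (s' + 191)) := by ring
        _ ≤ 4 * u ^ (E + s') * (4 * u ^ (s' + 191)) := by gcongr
        _ = 16 * (u ^ (E + s') * u ^ (s' + 191)) := by ring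
        _ ≤ u * (u ^ (E + s') * u ^ (s' + 191)) := by gcongr
        _ = u ^ E * u ^ (2 * s' + 192) := by ring
    have h6 := to_real_bound hu0 h5
    push_cast at h6
    exact h6
  have hgood : (Fintype.card J : ℝ) *
      (Fintype.card (Fin (pieces (u ^ (2 * s' + 192)) φ).length) * A) ≤
      Fintype.card (Fin B → Bool) * ((u ^ (4 * s' + 304) : ℕ) : ℝ) := by
    rw [hι, hJ, hN]
    have : u ^ (3 * s' + 297) * (P * A) ≤ u ^ E * u ^ (4 * s' + 304) := by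
      calc u ^ (3 * s' + 297) * (P * A) ≤ u ^ (3 * s' + 297) * u ^ (E + s' + 2) := by gcongr
        _ = u ^ (E + (4 * s' + 299)) := by ring
        _ ≤ u ^ (E + (4 * s' + 304)) :=
            Nat.pow_le_pow_right hu0 (Nat.add_le_add_left (Nat.add_le_add_left (by norm_num) _) _)
        _ = u ^ E * u ^ (4 * s' + 304) := by ring
    exact_mod_cast this
  have hw : (sy.hp (u ^ e)).card + u ^ (3 * s' + 292) ≤ 2 * u ^ (3 * s' + 292) := by
    have h5 := hhp (u ^ e)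
    have h6 : (sy.hp (u ^ e)).card ≤ u ^ (3 * s' + 292) := by
      refine Nat.le_of_mul_le_mul_right (c := u ^ e) (h5.trans ?_) (by positivity)
      calc u ^ (E + s' + 2) = u ^ (e + (3 * s' + 291)) := by
            rw [he]
            congr 1
            ring
        _ ≤ u ^ (e + (3 * s' + 292)) :=
            Nat.pow_le_pow_right hu0 (Nat.add_le_add_left (Nat.add_le_add_left (by norm_num) _) _)
        _ = u ^ (3 * s' + 292) * u ^ e := by ring
    omega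
  have hmw : 30 * m0 ≤ u ^ (3 * s' + 292) := by
    calc 30 * m0 ≤ 2 * u := by omega
      _ ≤ u * u := by gcongr
      _ = u ^ 2 := by ring
      _ ≤ u ^ (3 * s' + 292) := Nat.pow_le_pow_right hu0 (by omega)
  have hw0 : 0 < u ^ (3 * s' + 292) := by positivity
  have hM1 : 0 < u ^ (4 * s' + 304) := by positivity
  have hb := sy.pr_bads (D0 := u ^ (s' + 97)) (M2 := u ^ (s' + 97)) (M' := u ^ e) (m0 := m0)
    (w := 2 * u ^ (3 * s' + 292)) (w' := u ^ (3 * s' + 292)) (x := 1 / (u : ℝ) ^ 94)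
    (Λ := (u : ℝ) ^ 2 * ((u ^ (4 * s' + 304) : ℕ) : ℝ))
    hM1 hRX hx le_rfl h1 h2 h3 h4 hinf hgood hw hmw hw0
  have hV : (Fintype.card J : ℝ) * (sy.heavy (u ^ (4 * s' + 304))).card ≤
      1 / (u : ℝ) ^ 4 * Fintype.card (Fin B → Bool) := by
    rw [hN, hJ]
    have h5 := hheavy (u ^ (4 * s' + 304))
    have h6 : (u ^ (3 * s' + 297) * (sy.heavy (u ^ (4 * s' + 304))).card) * u ^ 4 ≤ u ^ E := by
      refine Nat.le_of_mul_le_mul_right (c := u ^ (s' + 2)) ?_ (by positivity)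
      calc (u ^ (3 * s' + 297) * (sy.heavy (u ^ (4 * s' + 304))).card) * u ^ 4 * u ^ (s' + 2)
          = (sy.heavy (u ^ (4 * s' + 304))).card * u ^ (4 * s' + 303) := by ring
        _ ≤ (sy.heavy (u ^ (4 * s' + 304))).card * u ^ (4 * s' + 304) :=
            Nat.mul_le_mul_left _ (Nat.pow_le_pow_right hu0
              (show 4 * s' + 303 ≤ 4 * s' + 304 by omega))
        _ ≤ u ^ (E + s' + 2) := h5
        _ = u ^ E * u ^ (s' + 2) := by ring
    have h7 := to_real_bound hu0 h6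
    push_cast at h7
    push_cast
    exact h7
  refine (sy.pr_fail hV hb).trans ?_
  have hΛ : (u : ℝ) ^ 2 * ((u ^ (4 * s' + 304) : ℕ) : ℝ) / ((u ^ (4 * s' + 304) : ℕ) : ℝ) =
      (u : ℝ) ^ 2 := by
    have : ((u ^ (4 * s' + 304) : ℕ) : ℝ) ≠ 0 := by positivity
    field_simp
  rw [hΛ, hJ]
  have hratio : (2 * ((u ^ (3 * s' + 297) : ℕ) : ℝ) / ((u ^ (3 * s' + 292) : ℕ) : ℝ)) =
      2 * (u : ℝ) ^ 5 := by
    push_cast
    have : (u : ℝ) ^ (3 * s' + 292) ≠ 0 := by positivity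
    rw [div_eq_iff this]
    ring
  rw [hratio]
  have t1 : (1 / (u : ℝ) ^ 4) ^ m0 ≤ (1 / (u : ℝ) ^ 2) ^ m0 := by
    refine pow_le_pow_left₀ (by positivity) ?_ _
    refine one_div_le_one_div_of_le (by positivity) ?_
    exact pow_le_pow_right₀ (by linarith) (by norm_num)
  have t2 := exp_small hu hm2
  have t3 : 2 ^ m0 * ((2 * (u : ℝ) ^ 5) ^ (15 * m0) * (5 * 2 ^ (15 * m0) *
      (1 / (u : ℝ) ^ 94) ^ m0)) ≤ (1 / (u : ℝ) ^ 2) ^ m0 := by
    have e1 : 2 ^ m0 * ((2 * (u : ℝ) ^ 5) ^ (15 * m0) * (5 * 2 ^ (15 * m0) *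
      (1 / (u : ℝ) ^ 94) ^ m0)) =
        5 * (2 ^ 31 * (1 / (u : ℝ) ^ 19)) ^ m0 := by
      rw [pow_mul, pow_mul]
      have : ∀ a b c d : ℝ, a ^ m0 * (b ^ m0 * (5 * c ^ m0 * d ^ m0)) =
          5 * (a * b * c * d) ^ m0 := by
        intro a b c d
        rw [mul_pow, mul_pow, mul_pow]
        ring
      rw [this]
      congr 2
      field_simp
    rw [e1]
    rcases Nat.eq_zero_or_pos m0 with h0 | h0
    · omega
    · have e2 : (2 : ℝ) ^ 31 * (1 / (u : ℝ) ^ 19) ≤ (1 / 5) * (1 / (u : ℝ) ^ 2) := by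
        have e3 : (u : ℝ) ^ 19 = (u : ℝ) ^ 3 * (u : ℝ) ^ 2 * (u : ℝ) ^ 14 := by ring
        have e4 : (5 * 2 ^ 31 : ℝ) ≤ (u : ℝ) ^ 3 := by
          calc (5 * 2 ^ 31 : ℝ) ≤ 65536 ^ 3 := by norm_num
            _ ≤ (u : ℝ) ^ 3 := by gcongr
        have e5 : (1 : ℝ) ≤ (u : ℝ) ^ 14 := one_le_pow₀ (by linarith)
        rw [mul_one_div, one_div_mul_one_div, div_le_div_iff₀ (by positivity) (by positivity),
          one_mul, e3]
        have e6 : (0 : ℝ) < (u : ℝ) ^ 2 := by positivity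
        calc (2 : ℝ) ^ 31 * (5 * (u : ℝ) ^ 2) = (5 * 2 ^ 31) * (u : ℝ) ^ 2 * 1 := by ring
          _ ≤ (u : ℝ) ^ 3 * (u : ℝ) ^ 2 * (u : ℝ) ^ 14 := by gcongr
      calc 5 * ((2 : ℝ) ^ 31 * (1 / (u : ℝ) ^ 19)) ^ m0
          ≤ 5 * ((1 / 5) * (1 / (u : ℝ) ^ 2)) ^ m0 := by gcongr
        _ = 5 * (1 / 5 : ℝ) ^ m0 * (1 / (u : ℝ) ^ 2) ^ m0 := by rw [mul_pow]; ring
        _ ≤ 1 * (1 / (u : ℝ) ^ 2) ^ m0 := by
            gcongr
            have : (1 / 5 : ℝ) ^ m0 ≤ (1 / 5 : ℝ) ^ 1 :=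
              pow_le_pow_of_le_one (by norm_num) (by norm_num) h0
            linarith
        _ = _ := one_mul _
  have hpos : (0 : ℝ) ≤ (1 / (u : ℝ) ^ 2) ^ m0 := by positivity
  rw [mul_add]
  linarith

end Pool.Agent.MP_9cec2c_lc.FormulaLines
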