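import Pool.Agent.Lib.MP_9cec2c_lc.FLPull
import Pool.Agent.Lib.MP_9cec2c_lc.FLNum

/-!
The final estimates.
-/

set_option autoImplicit false
set_option linter.unusedSectionVars false

namespace Pool.Agent.MP_9cec2c_lc.FormulaLines

open Finset
open Pool.Agent.MP_9cec2c_lc.SubstRed

/-- The lower bound in terms of `u`. -/
theorem main_u {u s' E B : ℕ} (hu : 2 ^ 16 ≤ u) (hE : 6 * s' + 700 ≤ E)
    (hB : 2 ^ B = u ^ E) {r : ℕ} {I : Type} [Fintype I] [DecidableEq I]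
    {Er : I → Fin 6 → Fin (u ^ (3 * s' + 297))}
    {b : I → ZMod 2} (hr : r = u ^ (3 * s' + 296)) (hexp : Expands (mat Er) r)
    {S : ℕ} (L : Fin S → Line (LV B (Fin (u ^ (3 * s' + 297)))))
    (hL : ∀ i, (L i).Small u ((u ^ (E + s') : ℕ) : ℝ))
    (href : IsRefutation u (liftCNF B Er b) L) : 2 ^ (u / 16) < S := by
  have hu0 : 0 < u := by omega
  have hu1 : 1 ≤ u := hu0
  have hu2 : 2 ≤ u := by omega
  have hur' : (65536 : ℝ) ≤ u := by
    have h := hu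
    norm_num at h
    exact_mod_cast h
  have hur : (0 : ℝ) < u := by linarith
  by_contra hS
  push Not at hS
  have hd : (u + 1) * (u * u ^ (3 * s' + 293)) ≤ r := by
    rw [hr]
    calc (u + 1) * (u * u ^ (3 * s' + 293)) ≤ (u * u) * (u * u ^ (3 * s' + 293)) := by
          gcongr
          nlinarith
      _ = u ^ (3 * s' + 296) := by ring
  have hr1 : 1 ≤ r := by
    rw [hr]
    exact Nat.one_le_pow _ _ hu0
  have hinj : (Fintype.card (Fin (u ^ (3 * s' + 297))) : ℝ) ^ 2 / 2 ^ B ≤ 1 / 4 := by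
    rw [Fintype.card_fin]
    have h1 : (2 : ℝ) ^ B = (u : ℝ) ^ E := by exact_mod_cast hB
    rw [h1, div_le_div_iff₀ (by positivity) (by norm_num), one_mul]
    have h2 : (u ^ (3 * s' + 297)) ^ 2 * 4 ≤ u ^ E := by
      calc (u ^ (3 * s' + 297)) ^ 2 * 4 ≤ (u ^ (3 * s' + 297)) ^ 2 * u := by gcongr; omega
        _ = u ^ (6 * s' + 595) := by ring
        _ ≤ u ^ E := Nat.pow_le_pow_right hu0 (by omega)
    exact_mod_cast h2
  have hbw : u / 16 + 2 * u ^ (3 * s' + 292) ≤ u ^ (3 * s' + 293) := by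
    have h1 : u / 16 ≤ u ^ (3 * s' + 292) := by
      calc u / 16 ≤ u := Nat.div_le_self _ _
        _ = u ^ 1 := (pow_one _).symm
        _ ≤ u ^ (3 * s' + 292) := Nat.pow_le_pow_right hu0 (by omega)
    calc u / 16 + 2 * u ^ (3 * s' + 292) ≤ 3 * u ^ (3 * s' + 292) := by omega
      _ ≤ u * u ^ (3 * s' + 292) := by gcongr; omega
      _ = u ^ (3 * s' + 293) := by ring
  have hη0 : (0 : ℝ) ≤ 3 * (1 / (u : ℝ) ^ 2) ^ (u / 16) := by positivity
  have h := core (K := u) (s := u ^ (E + s')) (w' := u ^ (3 * s' + 293)) hexp hr1 hd hinj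
    (u / 16) (2 * u ^ (3 * s' + 292)) hbw hη0
    (fun φ hφ hs => fail_bound hu hE hB (Fintype.card_fin _) φ hφ hs) L hL href
  have hm : 1 ≤ u / 16 := by omega
  have h1 : (S : ℝ) * (u * (3 * (1 / (u : ℝ) ^ 2) ^ (u / 16))) ≤ 6 / u := by
    have hS' : (S : ℝ) ≤ 2 ^ (u / 16) := by exact_mod_cast hS
    have hq : (2 * (1 / (u : ℝ) ^ 2)) ≤ 1 := by
      rw [mul_one_div, div_le_one (by positivity)]
      nlinarith
    have hq0 : (0 : ℝ) ≤ 2 * (1 / (u : ℝ) ^ 2) := by positivity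
    calc (S : ℝ) * (u * (3 * (1 / (u : ℝ) ^ 2) ^ (u / 16)))
        ≤ 2 ^ (u / 16) * (u * (3 * (1 / (u : ℝ) ^ 2) ^ (u / 16))) := by gcongr
      _ = 3 * u * (2 * (1 / (u : ℝ) ^ 2)) ^ (u / 16) := by rw [mul_pow]; ring
      _ ≤ 3 * u * (2 * (1 / (u : ℝ) ^ 2)) ^ 1 := by
          gcongr 3 * u * ?_
          exact pow_le_pow_of_le_one hq0 hq hm
      _ = 6 / u := by
          field_simp
          norm_num
  have h2 : (6 : ℝ) / u ≤ 1 / 4 := by
    rw [div_le_div_iff₀ hur (by norm_num)]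
    linarith
  linarith

/-- The lower bound for one value of `n`. -/
theorem main_n {n τ s' E : ℕ} (hτ : 16 ≤ τ) (hE : 6 * s' + 700 ≤ E) (hEτ : E ≤ τ)
    (h1 : 2 ^ (E * τ + 1) ≤ n) :
    ∃ F : Finset (Clause (Fin n)), (∀ x, ∃ C ∈ F, ¬ Holds x C) ∧ F.card ≤ n ^ 7 ∧
      (∀ C ∈ F, C.card ≤ 6 * Nat.log 2 n) ∧
      ∀ (S : ℕ) (L : Fin S → Line (Fin n)) (k s : ℝ), k ≤ 2 ^ τ → s ≤ (2 ^ τ) ^ (E + s') →
        (∀ i, (L i).Small k s) → IsRefutation k F L → 2 ^ (2 ^ τ / 16) < S := by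
  classical
  obtain ⟨u, hu⟩ : ∃ u, u = 2 ^ τ := ⟨_, rfl⟩
  have hu16 : 2 ^ 16 ≤ u := by
    rw [hu]
    exact Nat.pow_le_pow_right (by norm_num) hτ
  have hu0 : 0 < u := by omega
  have hτu : τ ≤ u := by
    rw [hu]
    exact (Nat.lt_two_pow_self).le
  obtain ⟨B, hB⟩ : ∃ B, B = E * τ := ⟨_, rfl⟩
  have hBu : 2 ^ B = u ^ E := by
    rw [hB, hu, ← pow_mul, mul_comm]
  obtain ⟨Er, hEr⟩ := exists_expand (n := u ^ (3 * s' + 297)) (r := u ^ (3 * s' + 296))
    (by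
      calc 2 ^ 16 * u ^ (3 * s' + 296) ≤ u * u ^ (3 * s' + 296) := by gcongr
        _ = u ^ (3 * s' + 297) := by ring) (by positivity)
  obtain ⟨b, hb⟩ := exists_rhs Er
  have hBle : B ≤ u ^ 2 := by
    rw [hB]
    calc E * τ ≤ τ * τ := by gcongr
      _ ≤ u * u := by gcongr
      _ = u ^ 2 := by ring
  have hcard : Fintype.card (LV B (Fin (u ^ (3 * s' + 297)))) ≤ n := by
    rw [Fintype.card_sum, Fintype.card_prod, Fintype.card_fin, Fintype.card_fin]
    have h2 : Fintype.card (Fin B → Bool) = 2 ^ B := by simp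
    rw [h2]
    have h3 : u ^ (3 * s' + 297) * B ≤ 2 ^ B := by
      rw [hBu]
      calc u ^ (3 * s' + 297) * B ≤ u ^ (3 * s' + 297) * u ^ 2 := by gcongr
        _ = u ^ (3 * s' + 299) := by ring
        _ ≤ u ^ E := Nat.pow_le_pow_right hu0 (by omega)
    have h4 : 2 ^ (E * τ + 1) = 2 * 2 ^ B := by
      rw [hB]
      ring
    omega
  obtain ⟨e⟩ : Nonempty (LV B (Fin (u ^ (3 * s' + 297))) ↪ Fin n) :=
    Function.Embedding.nonempty_of_card_le (by rw [Fintype.card_fin]; exact hcard)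
  have hBn : 2 ^ B ≤ n := by
    have : 2 ^ (E * τ + 1) = 2 * 2 ^ B := by
      rw [hB]
      ring
    omega
  refine ⟨(liftCNF B Er b).image (push e), ?_, ?_, ?_, ?_⟩
  · intro x
    obtain ⟨C, hC1, hC2⟩ := liftCNF_unsat hb (fun w => x (e w))
    exact ⟨push e C, mem_image_of_mem _ hC1, fun h => hC2 ((holds_push e).1 h)⟩
  · refine card_image_le.trans ((liftCNF_card Er b).trans ?_)
    rw [Fintype.card_fin]
    have h3 : (u ^ (3 * s' + 297) + 1) * 2 ^ 6 ≤ 2 ^ B := by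
      rw [hBu]
      calc (u ^ (3 * s' + 297) + 1) * 2 ^ 6 ≤ (2 * u ^ (3 * s' + 297)) * 2 ^ 6 := by
            have : 1 ≤ u ^ (3 * s' + 297) := Nat.one_le_pow _ _ hu0
            omega
        _ = 2 ^ 7 * u ^ (3 * s' + 297) := by ring
        _ ≤ u * u ^ (3 * s' + 297) := by gcongr; omega
        _ = u ^ (3 * s' + 298) := by ring
        _ ≤ u ^ E := Nat.pow_le_pow_right hu0 (by omega)
    calc (u ^ (3 * s' + 297) + 1) * (2 ^ 6 * (2 ^ B) ^ 6)
        = ((u ^ (3 * s' + 297) + 1) * 2 ^ 6) * (2 ^ B) ^ 6 := by ring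
      _ ≤ 2 ^ B * (2 ^ B) ^ 6 := by gcongr
      _ = (2 ^ B) ^ 7 := by ring
      _ ≤ n ^ 7 := by gcongr
  · intro C hC
    rw [mem_image] at hC
    obtain ⟨C0, h0, rfl⟩ := hC
    rw [mem_liftCNF] at h0
    obtain ⟨i, p, pos, -, rfl⟩ := h0
    refine card_image_le.trans ((liftClause_card Er i p pos).trans ?_)
    have h3 : B + 1 ≤ Nat.log 2 n := by
      rw [hB]
      exact Nat.le_log_of_pow_le (by norm_num) h1
    omega
  · intro S L k s hk hs hL href
    rw [← hu]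
    have hk' : k ≤ u := by
      rw [hu]
      push_cast
      exact hk
    have hs' : s ≤ ((u ^ (E + s') : ℕ) : ℝ) := by
      rw [hu]
      push_cast
      exact hs
    exact main_u hu16 hE hBu rfl hEr (fun i => pullLine e (L i))
      (fun i => pullLine_small e hk' hs' (hL i)) (pull_refutation e hk' href)

end Pool.Agent.MP_9cec2c_lc.FormulaLines
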