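import Pool.Agent.Lib.MP_9cec2c_lc.Mg.G055

/-!
The lifted system and its restrictions.
-/

set_option autoImplicit false
set_option linter.unusedSectionVars false

namespace Pool.Agent.MP_9cec2c_lc.FormulaLines

open Finset
open Pool.Agent.MP_9cec2c_lc.SubstRed

section

variable {I J : Type} [Fintype I] [DecidableEq I] [Fintype J] [DecidableEq J] {B : ℕ}

/-- The clause that excludes the positions `pos` with the values `p` in row `i`. -/
def liftClause (E : I → Fin 6 → J) (i : I) (p : Fin 6 → Bool) (pos : Fin 6 → Fin B → Bool) :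
    Clause (LV B J) :=
  ((univ : Finset (Fin 6 × Fin B)).image fun q =>
    ((Sum.inr (E i q.1, q.2), !(pos q.1 q.2)) : Lit (LV B J))) ∪
  ((univ : Finset (Fin 6)).image fun a => ((Sum.inl (pos a), !(p a)) : Lit (LV B J)))

theorem not_holds_lift {E : I → Fin 6 → J} {i : I} {p : Fin 6 → Bool}
    {pos : Fin 6 → Fin B → Bool} {x : LV B J → Bool} :
    ¬ Holds x (liftClause E i p pos) ↔
      (∀ a β, x (Sum.inr (E i a, β)) = pos a β) ∧ ∀ a, x (Sum.inl (pos a)) = p a := by
  unfold Holds liftClause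
  constructor
  · intro h
    push Not at h
    constructor
    · intro a β
      have := h (Sum.inr (E i a, β), !(pos a β))
        (mem_union_left _ (mem_image.2 ⟨(a, β), mem_univ _, rfl⟩))
      simp only at this
      revert this
      cases x (Sum.inr (E i a, β)) <;> cases pos a β <;> simp
    · intro a
      have := h (Sum.inl (pos a), !(p a))
        (mem_union_right _ (mem_image.2 ⟨a, mem_univ _, rfl⟩))
      simp only at this
      revert this
      cases x (Sum.inl (pos a)) <;> cases p a <;> simp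
  · rintro ⟨h1, h2⟩ ⟨l, hl, hl'⟩
    rw [mem_union, mem_image, mem_image] at hl
    rcases hl with ⟨⟨a, β⟩, -, rfl⟩ | ⟨a, -, rfl⟩
    · simp only at hl'
      rw [h1] at hl'
      revert hl'
      cases pos a β <;> simp
    · simp only at hl'
      rw [h2] at hl'
      revert hl'
      cases p a <;> simp

theorem liftClause_card (E : I → Fin 6 → J) (i : I) (p : Fin 6 → Bool)
    (pos : Fin 6 → Fin B → Bool) : (liftClause E i p pos).card ≤ 6 * (B + 1) := by
  unfold liftClause
  refine (card_union_le _ _).trans ?_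
  have h1 := card_image_le (s := (univ : Finset (Fin 6 × Fin B))) (f := fun q =>
    ((Sum.inr (E i q.1, q.2), !(pos q.1 q.2)) : Lit (LV B J)))
  have h2 := card_image_le (s := (univ : Finset (Fin 6))) (f := fun a =>
    ((Sum.inl (pos a), !(p a)) : Lit (LV B J)))
  rw [card_univ, Fintype.card_prod, Fintype.card_fin, Fintype.card_fin] at h1
  rw [card_univ, Fintype.card_fin] at h2
  omega

open scoped Classical in
/-- The lifted system. -/
noncomputable def liftCNF (B : ℕ) (E : I → Fin 6 → J) (b : I → ZMod 2) :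
    Finset (Clause (LV B J)) :=
  ((univ : Finset (I × (Fin 6 → Bool) × (Fin 6 → Fin B → Bool))).filter
    fun q => ∑ a, bz (q.2.1 a) ≠ b q.1).image fun q => liftClause E q.1 q.2.1 q.2.2

theorem mem_liftCNF {E : I → Fin 6 → J} {b : I → ZMod 2} {C : Clause (LV B J)} :
    C ∈ liftCNF B E b ↔ ∃ i p pos, ∑ a, bz (p a) ≠ b i ∧ liftClause E i p pos = C := by
  unfold liftCNF
  simp only [mem_image, mem_filter, mem_univ, true_and, Prod.exists]

theorem liftCNF_card (E : I → Fin 6 → J) (b : I → ZMod 2) :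
    (liftCNF B E b).card ≤ Fintype.card I * (2 ^ 6 * (2 ^ B) ^ 6) := by
  classical
  unfold liftCNF
  refine card_image_le.trans ((card_le_card (filter_subset _ _)).trans ?_)
  rw [card_univ, Fintype.card_prod, Fintype.card_prod]
  simp

theorem row_sum (E : I → Fin 6 → J) (i : I) (y : J → Bool) :
    ∑ j, mat E i j * bz (y j) = ∑ a, bz (y (E i a)) := by
  unfold mat
  simp only [sum_mul, ite_mul, one_mul, zero_mul]
  rw [sum_comm]
  refine sum_congr rfl fun a _ => ?_
  simp

/-- The lifted system is unsatisfiable. -/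
theorem liftCNF_unsat {E : I → Fin 6 → J} {b : I → ZMod 2}
    (hb : ∀ y : J → Bool, ∃ i, ∑ j, mat E i j * bz (y j) ≠ b i) (x : LV B J → Bool) :
    ∃ C ∈ liftCNF B E b, ¬ Holds x C := by
  obtain ⟨i, hi⟩ := hb (fun j => x (Sum.inl fun β => x (Sum.inr (j, β))))
  rw [row_sum] at hi
  refine ⟨liftClause E i (fun a => x (Sum.inl fun β => x (Sum.inr (E i a, β))))
    (fun a β => x (Sum.inr (E i a, β))), mem_liftCNF.2 ⟨i, _, _, hi, rfl⟩, ?_⟩
  rw [not_holds_lift]
  exact ⟨fun _ _ => rfl, fun _ => rfl⟩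

/-- A satisfied row satisfies its restricted clauses. -/
theorem holds_of_row {E : I → Fin 6 → J} {b : I → ZMod 2} {i : I} {p : Fin 6 → Bool}
    {pos : Fin 6 → Fin B → Bool} (hp : ∑ a, bz (p a) ≠ b i) {ζ : J → Fin B → Bool}
    (hζ : Function.Injective ζ) (r : (Fin B → Bool) → Bool) {y : J → Bool}
    (hy : ∑ j, mat E i j * bz (y j) = b i) :
    Holds (asg ζ (dat ζ r y)) (liftClause E i p pos) := by
  by_contra hcon
  rw [not_holds_lift] at hcon
  obtain ⟨h1, h2⟩ := hcon
  apply hp
  rw [← hy, row_sum]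
  refine sum_congr rfl fun a _ => ?_
  have h3 : ζ (E i a) = pos a := by
    funext β
    exact h1 a β
  have h4 := h2 a
  rw [← h3] at h4
  simp only [asg, Sum.elim_inl] at h4
  rw [dat_self hζ] at h4
  rw [h4]

theorem Shallow.mono {β : Type*} {c c' : ℕ} {f : (J → Bool) → β} (h : Shallow c f)
    (hc : c ≤ c') : Shallow c' f := by
  obtain ⟨D, R, h1, h2, h3⟩ := h
  exact ⟨D, R, fun y => ⟨(h1 y).1, (h1 y).2.trans hc⟩, h2, h3⟩

/-- The probability that two pointers agree. -/
theorem pr_not_inj : pr (fun ζ : J → Fin B → Bool => ¬ Function.Injective ζ) ≤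
    (Fintype.card J : ℝ) ^ 2 / 2 ^ B := by
  classical
  have hcov : ∀ ζ : J → Fin B → Bool, ¬ Function.Injective ζ →
      ∃ p ∈ (univ : Finset (J × J)).filter (fun p => p.1 ≠ p.2), ζ p.1 = ζ p.2 := by
    intro ζ h
    unfold Function.Injective at h
    push Not at h
    obtain ⟨a, b, h1, h2⟩ := h
    exact ⟨(a, b), mem_filter.2 ⟨mem_univ _, h2⟩, h1⟩
  refine (pr_mono hcov).trans ((pr_exists _ _).trans ?_)
  have h1 : ∀ p ∈ (univ : Finset (J × J)).filter (fun p => p.1 ≠ p.2),
      pr (fun ζ : J → Fin B → Bool => ζ p.1 = ζ p.2) ≤ 1 / 2 ^ B := by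
    rintro ⟨a, b⟩ hp
    have hab : a ≠ b := (mem_filter.1 hp).2
    have h2 := indep (ι := J) (α := Fin B → Bool) {a} (fun _ ζ v => v = ζ b) (1 / 2 ^ B) (by
      intro i hi j hj H E x
      rw [mem_singleton] at hi hj
      subst hi hj
      rw [Function.update_of_ne (Ne.symm hab)]) (by
      intro i _ H
      have := pr_mem_finset ({H b} : Finset (Fin B → Bool))
      simp only [mem_singleton, card_singleton, Nat.cast_one] at this
      rw [this]
      simp)
    simpa using h2
  refine (sum_le_sum h1).trans ?_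
  rw [sum_const, nsmul_eq_mul, mul_one_div]
  gcongr
  have h2 := card_le_card (filter_subset (fun p : J × J => p.1 ≠ p.2) univ)
  rw [card_univ, Fintype.card_prod] at h2
  calc (((univ : Finset (J × J)).filter (fun p => p.1 ≠ p.2)).card : ℝ)
      ≤ ((Fintype.card J * Fintype.card J : ℕ) : ℝ) := by exact_mod_cast h2
    _ = (Fintype.card J : ℝ) ^ 2 := by push_cast; ring

/-- Short refutations have few lines only if restrictions often fail. -/
theorem core {E : I → Fin 6 → J} {b : I → ZMod 2} {r K s w' l M1 : ℕ} {ρ η : ℝ}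
    (hE : Expands (mat E) r) (hr : 1 ≤ r) (hd : (K + 1) * (K * w') ≤ r)
    (hinj : (Fintype.card J : ℝ) ^ 2 / 2 ^ B ≤ ρ)
    (bb w : ℕ) (hbw : bb + w ≤ w') (hη0 : 0 ≤ η)
    (hη : ∀ (φ : Formula (LV B J)) (hφ : φ.Local (K : ℝ)), φ.size ≤ s →
      pr (fun ω : (J → Fin B → Bool) × ((Fin B → Bool) → Bool) =>
        (fsys l K φ hφ).Fail M1 bb w ω.1 ω.2) ≤ η)
    {S : ℕ} (L : Fin S → Line (LV B J)) (hL : ∀ i, (L i).Small K s)
    (href : IsRefutation K (liftCNF B E b) L) : 1 ≤ ρ + S * (K * η) := by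
  classical
  by_contra hcon
  push Not at hcon
  have hnum : ∀ i, (L i).num ≤ K := fun i => by exact_mod_cast (hL i).1
  have hloc : ∀ i j, ((L i).part j).Local (K : ℝ) := fun i j => ((hL i).2 j).1
  have hsz : ∀ i j, ((L i).part j).size ≤ s := fun i j => by exact_mod_cast ((hL i).2 j).2
  have h1 : pr (fun ω : (J → Fin B → Bool) × ((Fin B → Bool) → Bool) =>
      ¬ Function.Injective ω.1 ∨ ∃ i : Fin S, ∃ j : Fin (L i).num,
        (fsys l K ((L i).part j) (hloc i j)).Fail M1 bb w ω.1 ω.2) < 1 := by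
    refine lt_of_le_of_lt ((pr_or _ _).trans (add_le_add ?_ ?_)) hcon
    · have := pr_fst (Ω' := (Fin B → Bool) → Bool)
        (fun ζ : J → Fin B → Bool => ¬ Function.Injective ζ)
      exact this.le.trans (pr_not_inj.trans hinj)
    · refine (pr_exists_fintype _).trans ?_
      have h2 : ∀ i : Fin S, pr (fun ω : (J → Fin B → Bool) × ((Fin B → Bool) → Bool) =>
          ∃ j : Fin (L i).num, (fsys l K ((L i).part j) (hloc i j)).Fail M1 bb w ω.1 ω.2) ≤
            K * η := by
        intro i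
        refine (pr_exists_fintype _).trans ?_
        refine (sum_le_sum fun j _ => hη ((L i).part j) (hloc i j) (hsz i j)).trans ?_
        rw [sum_const, card_univ, Fintype.card_fin, nsmul_eq_mul]
        gcongr
        exact hnum i
      refine (sum_le_sum fun i _ => h2 i).trans ?_
      rw [sum_const, card_univ, Fintype.card_fin, nsmul_eq_mul]
  obtain ⟨⟨ζ, r'⟩, hω⟩ := exists_of_pr_lt_one h1
  push Not at hω
  obtain ⟨hζ, hF⟩ := hω
  simp only at hζ hF
  obtain ⟨hfin, hax⟩ := href
  refine no_refutation (M := mat E) (b := b) (d := K * w') (t := K) hE hr hd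
    (fun i y => (L i).eval (asg ζ (dat ζ r' y))) ?_ ?_ ?_
  · intro i
    have h3 : ∀ j, Shallow (bb + w) (fun y => ((L i).part j).eval (asg ζ (dat ζ r' y))) :=
      fun j => shallow_formula (hloc i j) hζ (hF i j)
    have h4 := Shallow.top h3 (L i).top
    refine Shallow.mono h4 ?_
    exact Nat.mul_le_mul (hnum i) hbw
  · intro i
    rcases hax i with ⟨C, hC, hC'⟩ | ⟨P, hP1, hP2, hP3⟩
    · left
      rw [mem_liftCNF] at hC
      obtain ⟨i0, p, pos, hp, rfl⟩ := hC
      exact ⟨i0, fun y hy => hC' _ (holds_of_row hp hζ r' hy)⟩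
    · right
      exact ⟨P, by exact_mod_cast hP1, hP2, fun y hy => hP3 _ hy⟩
  · obtain ⟨i, hi⟩ := hfin
    exact ⟨i, fun y => hi _⟩

end

end Pool.Agent.MP_9cec2c_lc.FormulaLines
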