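import Pool.Agent.Lib.MP_9cec2c_lc.Mg.G051

/-!
Renaming of variables.
-/

set_option autoImplicit false
set_option linter.unusedSectionVars false

namespace Pool.Agent.MP_9cec2c_lc.FormulaLines

open Finset

variable {V W : Type} [Fintype W] [DecidableEq W] [DecidableEq V] (e : W ↪ V)

open scoped Classical in
/-- Extension of an assignment by `false`. -/
noncomputable def extend (x : W → Bool) : V → Bool :=
  fun v => if h : ∃ w, e w = v then x h.choose else false

theorem extend_apply (x : W → Bool) (w : W) : extend e x (e w) = x w := by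
  unfold extend
  have h : ∃ w', e w' = e w := ⟨w, rfl⟩
  rw [dif_pos h]
  congr 1
  exact e.injective h.choose_spec

theorem extend_congr {x y : W → Bool} {v : V} (h : ∀ w, e w = v → x w = y w) :
    extend e x v = extend e y v := by
  unfold extend
  by_cases h' : ∃ w, e w = v
  · rw [dif_pos h', dif_pos h']
    exact h _ h'.choose_spec
  · rw [dif_neg h', dif_neg h']

/-- The formula on the smaller set of variables. -/
noncomputable def pull : Formula V → Formula W
  | Formula.leaf S g => Formula.leaf (univ.filter fun w => e w ∈ S) fun x => g (extend e x)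
  | Formula.and f g => Formula.and (pull f) (pull g)
  | Formula.or f g => Formula.or (pull f) (pull g)

theorem pull_eval (f : Formula V) (x : W → Bool) :
    (pull e f).eval x = f.eval (extend e x) := by
  induction f with
  | leaf S g => rfl
  | and f g hf hg => simp only [pull, Formula.eval, hf, hg]
  | or f g hf hg => simp only [pull, Formula.eval, hf, hg]

theorem pull_size (f : Formula V) : (pull e f).size = f.size := by
  induction f with
  | leaf S g => rfl
  | and f g hf hg => simp only [pull, Formula.size, hf, hg]
  | or f g hf hg => simp only [pull, Formula.size, hf, hg]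

theorem pull_local {k : ℝ} (f : Formula V) (h : f.Local k) : (pull e f).Local k := by
  induction f with
  | leaf S g =>
    obtain ⟨h1, h2⟩ := h
    refine ⟨le_trans ?_ h1, fun x y hxy => h2 _ _ fun v hv => ?_⟩
    · have : (univ.filter fun w => e w ∈ S).card ≤ S.card :=
        card_le_card_of_injOn e (fun w hw => (mem_filter.1 hw).2) (e.injective.injOn)
      exact_mod_cast this
    · refine extend_congr e fun w hw => hxy w ?_
      rw [mem_filter, hw]
      exact ⟨mem_univ _, hv⟩
  | and f g hf hg => exact ⟨hf h.1, hg h.2⟩
  | or f g hf hg => exact ⟨hf h.1, hg h.2⟩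

theorem local_mono {k k' : ℝ} (hk : k ≤ k') (f : Formula V) (h : f.Local k) : f.Local k' := by
  induction f with
  | leaf S g => exact ⟨h.1.trans hk, h.2⟩
  | and f g hf hg => exact ⟨hf h.1, hg h.2⟩
  | or f g hf hg => exact ⟨hf h.1, hg h.2⟩

/-- The line on the smaller set of variables. -/
noncomputable def pullLine (L : Line V) : Line W := ⟨L.num, fun i => pull e (L.part i), L.top⟩

theorem pullLine_eval (L : Line V) (x : W → Bool) :
    (pullLine e L).eval x = L.eval (extend e x) := by
  unfold pullLine Line.eval
  simp only [pull_eval]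

theorem pullLine_small {k k' s s' : ℝ} (hk : k ≤ k') (hs : s ≤ s') {L : Line V}
    (h : L.Small k s) : (pullLine e L).Small k' s' := by
  refine ⟨h.1.trans hk, fun i => ⟨?_, ?_⟩⟩
  · exact local_mono hk _ (pull_local e _ (h.2 i).1)
  · have := (h.2 i).2
    unfold pullLine
    simp only [pull_size]
    exact this.trans hs

/-- The clause on the larger set of variables. -/
def push (C : Clause W) : Clause V := C.image fun l => (e l.1, l.2)

theorem holds_push {C : Clause W} {z : V → Bool} :
    Holds z (push e C) ↔ Holds (fun w => z (e w)) C := by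
  unfold Holds push
  constructor
  · rintro ⟨l, hl, hl'⟩
    rw [mem_image] at hl
    obtain ⟨m, hm, rfl⟩ := hl
    exact ⟨m, hm, hl'⟩
  · rintro ⟨m, hm, hm'⟩
    exact ⟨(e m.1, m.2), mem_image.2 ⟨m, hm, rfl⟩, hm'⟩

theorem pull_refutation {k k' : ℝ} (hk : k ≤ k') {F : Finset (Clause W)} {S : ℕ}
    {L : Fin S → Line V} (h : IsRefutation k (F.image (push e)) L) :
    IsRefutation k' F (fun i => pullLine e (L i)) := by
  obtain ⟨⟨i, hi⟩, h2⟩ := h
  refine ⟨⟨i, fun x => by rw [pullLine_eval]; exact hi _⟩, fun i => ?_⟩
  rcases h2 i with ⟨C, hC, hC'⟩ | ⟨P, hP1, hP2, hP3⟩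
  · left
    rw [mem_image] at hC
    obtain ⟨C0, h0, rfl⟩ := hC
    refine ⟨C0, h0, fun x hx => ?_⟩
    rw [pullLine_eval]
    refine hC' _ ?_
    rw [holds_push]
    simp only [extend_apply]
    exact hx
  · right
    refine ⟨P, hP1.trans hk, hP2, fun x hx => ?_⟩
    rw [pullLine_eval]
    refine hP3 _ fun j hj => ?_
    rw [← pullLine_eval]
    exact hx j hj

end Pool.Agent.MP_9cec2c_lc.FormulaLines
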