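import Mathlib
import Pool.Agent.Lib.MP_9cec2c_lc.AZWorld

/-!
FLAT: the lower bound for the Tseitin contradiction modulo 2 in all depths at once, from the random
matrix theorem.
-/

set_option autoImplicit false

namespace Pool.Agent.MP_9cec2c_lc.Flat

open Finset AZ

/-- The statement of the random matrix theorem. -/
def RMT0 : Prop := ∃ c : ℝ, 0 < c ∧ ∃ N₀ : ℕ, ∀ N ≥ N₀, ∀ L : ℕ, (L : ℝ) ≤ (N : ℝ) ^ c →
    ∃ Gam : Finset (Cfg N), 2 ^ Fintype.card (Edge N) ≤ 4 * Gam.card ∧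
      ∀ a ∈ Gam, ∀ l : List (Cfg N), (∀ m ∈ l, IsMove m) → l.length ≤ L →
        ∃ (psi_a psi_b : Fin N → ℝ) (la lb g : ℝ), 0 < g ∧ TopPair (Smat a) la g psi_a ∧
          TopPair (Smat (a + l.sum)) lb g psi_b ∧ 9 / 10 ≤ |∑ v, psi_a v * psi_b v| ∧
          ∀ v, psi_b v ^ 2 ≤ 1 / 100

/-- The numbers. -/
theorem num_uniform {c₀ : ℝ} (hc₀ : 0 < c₀) (b p : ℕ) (hp : 1 ≤ p) :
    ∃ c : ℝ, 0 < c ∧ ∃ N₀ : ℕ, ∀ N ≥ N₀, ∀ L : ℕ, (N : ℝ) ^ c₀ - 1 ≤ L → ∀ (d : ℕ) (S : ℝ),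
      2 ≤ S → Real.exp (((L : ℝ) / (b + 3 + 7)) ^ ((1 : ℝ) / (d + 1)) / (8 * 4 * p) - 2) < S →
      Real.exp (c * (N : ℝ) ^ (c / (d + 1))) ≤ S := by
  have hp' : (1 : ℝ) ≤ p := by exact_mod_cast hp
  have hp0 : (0 : ℝ) < p := by linarith
  obtain ⟨c, hc⟩ : ∃ c : ℝ, c = min (c₀ / 2) (1 / (256 * p)) := ⟨_, rfl⟩
  have hc1 : c ≤ c₀ / 2 := by rw [hc]; exact min_le_left _ _
  have hc2 : c ≤ 1 / (256 * p) := by rw [hc]; exact min_le_right _ _
  have hcpos : 0 < c := by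
    rw [hc]
    exact lt_min (by positivity) (by positivity)
  obtain ⟨a, ha⟩ : ∃ a : ℝ, a = (b : ℝ) + 3 + 7 := ⟨_, rfl⟩
  have ha1 : 1 ≤ a := by
    have : (0 : ℝ) ≤ b := Nat.cast_nonneg b
    linarith
  have htend : Filter.Tendsto (fun N : ℕ => (N : ℝ) ^ (c₀ / 2)) Filter.atTop Filter.atTop :=
    (tendsto_rpow_atTop (by positivity)).comp tendsto_natCast_atTop_atTop
  obtain ⟨N₁, hN₁⟩ := (htend.eventually_ge_atTop (a + 1)).exists_forall_of_atTop
  refine ⟨c, hcpos, max N₁ 1, ?_⟩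
  intro N hN L hL d S hS hlt
  have hNN : (1 : ℝ) ≤ N := by exact_mod_cast (le_max_right _ _).trans hN
  have h1 : a + 1 ≤ (N : ℝ) ^ (c₀ / 2) := hN₁ N ((le_max_left _ _).trans hN)
  have hd : (0 : ℝ) < (d : ℝ) + 1 := by positivity
  have h2 : (N : ℝ) ^ c₀ = (N : ℝ) ^ (c₀ / 2) * (N : ℝ) ^ (c₀ / 2) := by
    rw [← Real.rpow_add (by linarith)]
    congr 1
    ring
  have h3 : (N : ℝ) ^ (c₀ / 2) ≤ (L : ℝ) / a := by
    rw [le_div_iff₀ (by linarith)]
    nlinarith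
  obtain ⟨Y, hY⟩ : ∃ Y : ℝ, Y = ((N : ℝ) ^ (c₀ / 2)) ^ ((1 : ℝ) / (d + 1)) := ⟨_, rfl⟩
  have h4 : Y ≤ ((L : ℝ) / (b + 3 + 7)) ^ ((1 : ℝ) / (d + 1)) := by
    rw [hY, ← ha]
    exact Real.rpow_le_rpow (by positivity) h3 (by positivity)
  have hYpos : 0 ≤ Y := by
    rw [hY]
    positivity
  have h5 : (N : ℝ) ^ (c / (d + 1)) ≤ Y := by
    rw [hY, ← Real.rpow_mul (by linarith)]
    refine Real.rpow_le_rpow_of_exponent_le hNN ?_
    rw [mul_one_div]
    exact div_le_div_of_nonneg_right hc1 hd.le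
  have h6 : c * (N : ℝ) ^ (c / (d + 1)) ≤ c * Y := mul_le_mul_of_nonneg_left h5 hcpos.le
  by_cases hcase : 128 * (p : ℝ) ≤ Y
  · refine le_trans ?_ hlt.le
    refine Real.exp_le_exp.2 (h6.trans ?_)
    have h7 : c * Y ≤ 1 / (256 * p) * Y := mul_le_mul_of_nonneg_right hc2 hYpos
    have h8 : Y / (8 * 4 * p) ≤ ((L : ℝ) / (b + 3 + 7)) ^ ((1 : ℝ) / (d + 1)) / (8 * 4 * p) :=
      div_le_div_of_nonneg_right h4 (by positivity)
    have h9 : 1 / (256 * (p : ℝ)) * Y = (1 / 8) * (Y / (8 * 4 * p)) := by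
      field_simp
      ring
    have h10 : 4 ≤ Y / (8 * 4 * p) := by
      rw [le_div_iff₀ (by positivity)]
      linarith
    linarith
  · have h7 : c * Y ≤ 1 / 2 := by
      have h8 : Y ≤ 128 * p := (not_le.1 hcase).le
      calc c * Y ≤ 1 / (256 * p) * (128 * p) :=
            mul_le_mul hc2 h8 hYpos (by positivity)
        _ = 1 / 2 := by
          field_simp
          norm_num
    refine (Real.exp_le_exp.2 (h6.trans h7)).trans (le_trans ?_ hS)
    have h9 : Real.exp (1 / 2) * Real.exp (1 / 2) = Real.exp 1 := by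
      rw [← Real.exp_add]
      norm_num
    have h10 := Real.exp_one_lt_d9
    nlinarith [Real.exp_pos (1 / 2)]

/-- The clauses of the Tseitin contradiction are nonempty. -/
theorem tseitin_nonempty (N : ℕ) (s : Fin N → ZMod 2) : ∀ κ ∈ tseitin N s, κ.Nonempty := by
  intro κ hκ
  have key : ∀ (C : Finset (TVar N)) (c : ZMod 2), C.Nonempty → κ ∈ parityClauses C c →
      κ.Nonempty := by
    intro C c hC hκ
    rcases mem_image.1 hκ with ⟨B, _, rfl⟩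
    exact hC.image _
  unfold tseitin at hκ
  rw [mem_union, mem_union, mem_biUnion, mem_biUnion, mem_biUnion] at hκ
  rcases hκ with (⟨v, _, h⟩ | ⟨q, _, h⟩) | ⟨v, _, h⟩
  · exact key _ _ (singleton_nonempty _) h
  · refine key _ _ ?_ h
    unfold stepSet
    split_ifs
    · exact insert_nonempty _ _
    · exact insert_nonempty _ _
  · exact key _ _ (singleton_nonempty _) h

/-- The true formulas respect negations and counting gates. -/
theorem respects_holds {V : Type} {p : ℕ} (x : V → Bool) :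
    Respects {φ : Fm V p | φ.Holds x} :=
  ⟨fun _ => Iff.rfl, fun _ _ _ => Iff.rfl⟩

/-- A refutation has at least two lines. -/
theorem two_le_refutation {V : Type} {p b d l : ℕ} {F : Set (Clause V)}
    (hF : ∀ C ∈ F, C.Nonempty) {Λ : Fin l → Line V p} (h : IsRefutation b F d Λ) : 2 ≤ size Λ := by
  obtain ⟨h1, h2, i, hi⟩ := h
  by_contra hcon
  have hl : l ≤ 1 := by
    unfold size at hcon
    omega
  have hi0 : ∀ j : Fin l, ¬ j < i := by
    intro j hj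
    have := j.2
    have := i.2
    omega
  have h3 := h1 i
  rw [hi] at h3
  have hprev : ∀ Δ, ¬ ∃ j < i, Λ j = Δ := by
    rintro Δ ⟨j, hj, -⟩
    exact hi0 j hj
  generalize hΓ : ([] : Line V p) = Γ at h3
  cases h3 with
  | clause hC h4 =>
    obtain ⟨l, hl⟩ := hF _ hC
    have := h4 l hl
    rw [← hΓ] at this
    simp at this
  | ax hb h4 =>
    subst hΓ
    obtain ⟨φ, hφ, -⟩ := h4 _ (respects_holds fun _ => true)
    simp at hφ
  | weak h4 hs => exact hprev _ h4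
  | cut φ h4 h5 => exact hprev _ h4
  | or i h4 => exact hprev _ h4
  | negOr h4 => simp at hΓ
  | and h4 => simp at hΓ
  | negAnd i h4 => exact hprev _ h4

/-- A proof has at least one line and one formula. -/
theorem two_le_proof {V : Type} {p b d l : ℕ} {φ : Fm V p} {Λ : Fin l → Line V p}
    (h : IsProof b d Λ φ) : 2 ≤ size Λ := by
  obtain ⟨h1, h2, i, hi⟩ := h
  have hl : 1 ≤ l := by
    have := i.2
    omega
  have hfin := allSubs_finite Λ
  have hmem : φ ∈ allSubs Λ := ⟨i, φ, by rw [hi]; exact List.mem_singleton.2 rfl, self_mem_subs φ⟩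
  have h3 : 1 ≤ (allSubs Λ).ncard := (Set.ncard_pos hfin).2 ⟨φ, hmem⟩
  unfold size
  unfold allSubs at h3
  omega

/-- **The lower bound in all depths at once**, from the random matrix theorem. -/
theorem uniform_bound (hR : RMT0) (p : ℕ) [hp : Fact p.Prime] (hp2 : p ≠ 2) (b : ℕ) :
    ∃ c : ℝ, 0 < c ∧ ∃ N₀ : ℕ, ∀ N ≥ N₀, ∀ s : Fin N → ZMod 2, ∑ v, s v = 1 → ∀ d : ℕ,
      (∀ (l : ℕ) (Λ : Fin l → Line (TVar N) p),
        IsRefutation b (tseitin N s : Set (Clause (TVar N))) d Λ →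
          Real.exp (c * (N : ℝ) ^ (c / (d + 1))) ≤ size Λ) ∧
      ∀ (l : ℕ) (Λ : Fin l → Line (TVar N) p), IsProof b d Λ (falsified (tseitin N s)) →
          Real.exp (c * (N : ℝ) ^ (c / (d + 1))) ≤ size Λ := by
  classical
  obtain ⟨c₀, hc₀, N₁, hN₁⟩ := hR
  have hp1 : 1 ≤ p := hp.out.one_lt.le
  obtain ⟨c, hc, N₂, hN₂⟩ := num_uniform hc₀ b p hp1
  have htend : Filter.Tendsto (fun N : ℕ => (N : ℝ) ^ c₀) Filter.atTop Filter.atTop :=
    (tendsto_rpow_atTop hc₀).comp tendsto_natCast_atTop_atTop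
  obtain ⟨N₃, hN₃⟩ := (htend.eventually_ge_atTop 3).exists_forall_of_atTop
  refine ⟨c, hc, max (max N₁ N₂) N₃, ?_⟩
  intro N hN s hs d
  have hNN₁ : N₁ ≤ N := (le_max_left _ _).trans ((le_max_left _ _).trans hN)
  have hNN₂ : N₂ ≤ N := (le_max_right _ _).trans ((le_max_left _ _).trans hN)
  have hNN₃ : N₃ ≤ N := (le_max_right _ _).trans hN
  obtain ⟨A, hA⟩ : ∃ A : ℕ, A = ⌊(N : ℝ) ^ c₀⌋₊ := ⟨_, rfl⟩
  have hA1 : (A : ℝ) ≤ (N : ℝ) ^ c₀ := by
    rw [hA]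
    exact Nat.floor_le (by positivity)
  have hA2 : (N : ℝ) ^ c₀ - 1 ≤ A := by
    rw [hA]
    have := Nat.lt_floor_add_one ((N : ℝ) ^ c₀)
    linarith
  have hA3 : 2 ≤ A := by
    have h1 := hN₃ N hNN₃
    have h2 : (2 : ℝ) ≤ A := by linarith
    exact_mod_cast h2
  obtain ⟨Gam, hGam, hgood⟩ := hN₁ N hNN₁ A hA1
  have hG : GoodSet A Gam := hgood
  have h2K : (2 : ZMod p) ≠ 0 := by
    intro h
    have h1 : ((2 : ℕ) : ZMod p) = 0 := by exact_mod_cast h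
    rw [ZMod.natCast_eq_zero_iff] at h1
    exact hp2 ((Nat.prime_dvd_prime_iff_eq hp.out Nat.prime_two).1 h1)
  have hN0 : 0 < N := by
    rcases Nat.eq_zero_or_pos N with h | h
    · subst h
      simp at hs
    · exact h
  refine ⟨fun l Λ hΛ => ?_, fun l Λ hΛ => ?_⟩
  · refine hN₂ N hNN₂ A hA2 d _ ?_ ?_
    · exact_mod_cast two_le_refutation (fun C hC => tseitin_nonempty N s C (by exact_mod_cast hC)) hΛ
    · have h3 := tseitin_size (K := ZMod p) (p := p) h2K hG hGam ⟨0, hN0⟩ s hs hA3 hΛ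
      rw [ZMod.card] at h3
      exact h3
  · refine hN₂ N hNN₂ A hA2 d _ ?_ ?_
    · exact_mod_cast two_le_proof hΛ
    · have h3 := tseitin_size_proof (K := ZMod p) (p := p) h2K hG hGam ⟨0, hN0⟩ s hs hA3 hΛ
      rw [ZMod.card] at h3
      exact h3

end Pool.Agent.MP_9cec2c_lc.Flat
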