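import Mathlib
import Pool.Agent.Lib.MP_9cec2c_lc.Mg.G001

/-!
# FLAT, random matrix part (real case), FM0: definitions and first facts
`V` is the set of indices, `N = card V`, `n = sqrt N`. Matrices are `Matrix V V ℝ`, vectors `V → ℝ`.
-/

set_option autoImplicit false

open Matrix Finset

namespace Pool.Agent.MP_9cec2c_lc.Flat

variable {V : Type} [Fintype V] [DecidableEq V]

/-- The quadratic form of a matrix. -/
def qf (A : Matrix V V ℝ) (φ : V → ℝ) : ℝ := φ ⬝ᵥ (A *ᵥ φ)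

/-- The square of the Hilbert-Schmidt norm. -/
def hs2 (A : Matrix V V ℝ) : ℝ := ∑ i, ∑ j, A i j ^ 2

/-- The square of the length of column `v`; equal to `(G^2) v v` for symmetric `G`. -/
def colsq (G : Matrix V V ℝ) (v : V) : ℝ := ∑ i, G i v ^ 2

/-- Symmetric matrix. -/
def Sym (A : Matrix V V ℝ) : Prop := ∀ i j, A i j = A j i

/-- Symmetric matrix with entries 1 and -1 off the diagonal and 0 on the diagonal. -/
structure IsSign (S : Matrix V V ℝ) : Prop where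
  symm : Sym S
  diag : ∀ u, S u u = 0
  sq : ∀ u w, u ≠ w → S u w ^ 2 = 1

/-- The largest value of the quadratic form on unit vectors. -/
noncomputable def lamMax (S : Matrix V V ℝ) : ℝ := sSup {r | ∃ φ : V → ℝ, φ ⬝ᵥ φ = 1 ∧ qf S φ = r}

/-- `ψ` is a unit eigenvector of `S` for the eigenvalue `lam`, and on the orthogonal complement of `ψ`
the quadratic form is at most `lam - g`. -/
structure TP (S : Matrix V V ℝ) (lam : ℝ) (ψ : V → ℝ) (g : ℝ) : Prop where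
  eig : S *ᵥ ψ = lam • ψ
  unit : ψ ⬝ᵥ ψ = 1
  gap : ∀ φ : V → ℝ, φ ⬝ᵥ ψ = 0 → qf S φ ≤ (lam - g) * (φ ⬝ᵥ φ)

/-- `S` with row `v` and column `v` replaced by 0. -/
def minor (S : Matrix V V ℝ) (v : V) : Matrix V V ℝ := fun i j => if i = v ∨ j = v then 0 else S i j

/-- The vector `S e_v`. -/
def row (S : Matrix V V ℝ) (v : V) : V → ℝ := fun u => S u v

/-- The matrix `θ - S`. -/
def shift (S : Matrix V V ℝ) (θ : ℝ) : Matrix V V ℝ := θ • (1 : Matrix V V ℝ) - S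

/-- The resolvent of `S` at `θ` (`Matrix.inv`: 0 if `θ - S` is singular). -/
noncomputable def rsv (S : Matrix V V ℝ) (θ : ℝ) : Matrix V V ℝ := (shift S θ)⁻¹

/-- The rank one matrix `φ φ^t`. -/
def rk1 (φ : V → ℝ) : Matrix V V ℝ := fun i j => φ i * φ j

/-- The resolvent of the minor on the complement of `e_v`, computed from the full resolvent `G`:
`G - (G e_v)(G e_v)^t / G_vv`. -/
noncomputable def Mv (G : Matrix V V ℝ) (v : V) : Matrix V V ℝ := fun i j => G i j - G i v * G v j / G v v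

/-- `M` is symmetric and `0 ≤ M ≤ 1/y` as quadratic forms, in the form `y M² ≤ M`. -/
structure PosBy (y : ℝ) (M : Matrix V V ℝ) : Prop where
  symm : Sym M
  le : ∀ φ : V → ℝ, y * ((M *ᵥ φ) ⬝ᵥ (M *ᵥ φ)) ≤ qf M φ

/-- Event (O2) at `v`, `θ`: the quadratic form of the resolvent `B` of the minor at the row `v` is close to
its trace (without the `v`, `v` entry). `B` depends on the minor only, the row is independent of it. -/
def Conc (S : Matrix V V ℝ) (K : ℝ) (v : V) (θ : ℝ) : Prop :=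
  (qf (rsv (minor S v) θ) (row S v) - ((rsv (minor S v) θ).trace - rsv (minor S v) θ v v)) ^ 2 ≤
    K ^ 2 * hs2 (rsv (minor S v) θ)

/-- The parameters: `n = sqrt N`, `P = 10^6 K^2`, `P ≤ n / 10^4`, `0 ≤ δ ≤ 10^-4`. The grid of values of `θ`
is `k * (P / n)`, `k ≤ 3 N`. -/
structure Par (V : Type) [Fintype V] (n K P δ : ℝ) : Prop where
  n0 : 0 < n
  sq : n ^ 2 = Fintype.card V
  K1 : 1 ≤ K
  P_eq : P = 10 ^ 6 * K ^ 2
  Pn : 10 ^ 4 * P ≤ n
  δ0 : 0 ≤ δ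
  δ1 : δ ≤ 1 / 10 ^ 4

/-- The event `O`: the top eigenvalue is at most `(2 + δ) n`, and (O2) for all `v` and all `θ` in the
grid. -/
structure OO (S : Matrix V V ℝ) (n K P δ : ℝ) : Prop where
  sgn : IsSign S
  top : lamMax S ≤ (2 + δ) * n
  conc : ∀ (v : V) (k : ℕ), k ≤ 3 * Fintype.card V → Conc S K v (k * (P / n))

/-- `S` with the entry `{u,w}` flipped. -/
def flip (S : Matrix V V ℝ) (u w : V) : Matrix V V ℝ :=
  fun i j => if (i = u ∧ j = w) ∨ (i = w ∧ j = u) then - S i j else S i j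

/-- The sum over all ordered pairs `u ≠ w` of the second order increments of the top eigenvalue (the first
order terms have sum `- 4 lamMax S`). -/
noncomputable def FF (S : Matrix V V ℝ) : ℝ :=
  (∑ u, ∑ w ∈ univ.erase u, (lamMax (flip S u w) - lamMax S)) + 4 * lamMax S

/-! ## Facts on quadratic forms -/

set_option linter.unusedSectionVars false

/-- Symmetric matrices move across the scalar product. -/
theorem dot_mulVec_comm {A : Matrix V V ℝ} (hA : Sym A) (φ χ : V → ℝ) :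
    φ ⬝ᵥ (A *ᵥ χ) = (A *ᵥ φ) ⬝ᵥ χ := by
  have h : Aᵀ = A := by
    ext i j
    exact (hA i j).symm
  rw [dotProduct_mulVec, ← mulVec_transpose, h]

/-- `qf` on a linear combination, `A` symmetric. -/
theorem qf_comb {A : Matrix V V ℝ} (hA : Sym A) (a b : ℝ) (φ χ : V → ℝ) :
    qf A (a • φ + b • χ) = a ^ 2 * qf A φ + 2 * a * b * (φ ⬝ᵥ (A *ᵥ χ)) + b ^ 2 * qf A χ := by
  have h1 : χ ⬝ᵥ (A *ᵥ φ) = φ ⬝ᵥ (A *ᵥ χ) := by
    rw [dot_mulVec_comm hA χ φ, dotProduct_comm]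
  unfold qf
  simp only [mulVec_add, mulVec_smul, dotProduct_add, add_dotProduct, smul_dotProduct,
    dotProduct_smul, smul_eq_mul, h1]
  ring

theorem mulVec_shift (S : Matrix V V ℝ) (θ : ℝ) (φ : V → ℝ) :
    shift S θ *ᵥ φ = θ • φ - S *ᵥ φ := by
  unfold shift
  rw [sub_mulVec, smul_mulVec, one_mulVec]

theorem qf_shift (S : Matrix V V ℝ) (θ : ℝ) (φ : V → ℝ) :
    qf (shift S θ) φ = θ * (φ ⬝ᵥ φ) - qf S φ := by
  unfold qf
  rw [mulVec_shift, dotProduct_sub, dotProduct_smul, smul_eq_mul]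

theorem mulVec_rk1 (ψ φ : V → ℝ) : rk1 ψ *ᵥ φ = (ψ ⬝ᵥ φ) • ψ := by
  ext i
  simp only [mulVec, rk1, dotProduct, Pi.smul_apply, smul_eq_mul, Finset.sum_mul]
  exact Finset.sum_congr rfl fun j _ => by ring

theorem qf_rk1 (ψ φ : V → ℝ) : qf (rk1 ψ) φ = (φ ⬝ᵥ ψ) ^ 2 := by
  unfold qf
  rw [mulVec_rk1, dotProduct_smul, smul_eq_mul, dotProduct_comm ψ φ, sq]

theorem sym_shift {S : Matrix V V ℝ} (hS : Sym S) (θ : ℝ) : Sym (shift S θ) := by
  intro i j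
  by_cases h : i = j
  · rw [h]
  · simp only [shift, Matrix.sub_apply, Matrix.smul_apply, hS i j, Matrix.one_apply_ne h,
      Matrix.one_apply_ne (Ne.symm h)]

theorem sym_rk1 (ψ : V → ℝ) : Sym (rk1 ψ) := fun i j => mul_comm _ _

theorem dot_self_nonneg (φ : V → ℝ) : 0 ≤ φ ⬝ᵥ φ :=
  Finset.sum_nonneg fun i _ => mul_self_nonneg (φ i)

theorem abs_le_one_of_dot {φ : V → ℝ} (h : φ ⬝ᵥ φ = 1) (i : V) : |φ i| ≤ 1 := by
  have h1 : φ i * φ i ≤ φ ⬝ᵥ φ :=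
    Finset.single_le_sum (f := fun j => φ j * φ j) (fun j _ => mul_self_nonneg (φ j)) (Finset.mem_univ i)
  rw [h] at h1
  exact abs_le_one_iff_mul_self_le_one.2 h1

theorem bddAbove_qf (S : Matrix V V ℝ) : BddAbove {r | ∃ φ : V → ℝ, φ ⬝ᵥ φ = 1 ∧ qf S φ = r} := by
  refine ⟨∑ i, ∑ j, |S i j|, ?_⟩
  rintro r ⟨φ, h, rfl⟩
  unfold qf dotProduct mulVec dotProduct
  refine Finset.sum_le_sum fun i _ => ?_
  rw [Finset.mul_sum]
  refine Finset.sum_le_sum fun j _ => ?_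
  have h1 := abs_le_one_of_dot h i
  have h2 := abs_le_one_of_dot h j
  calc φ i * (S i j * φ j) ≤ |φ i * (S i j * φ j)| := le_abs_self _
    _ = |φ i| * |φ j| * |S i j| := by rw [abs_mul, abs_mul]; ring
    _ ≤ 1 * 1 * |S i j| := by
        refine mul_le_mul_of_nonneg_right ?_ (abs_nonneg _)
        exact mul_le_mul h1 h2 (abs_nonneg _) zero_le_one
    _ = |S i j| := by ring

theorem qf_smul (S : Matrix V V ℝ) (c : ℝ) (φ : V → ℝ) : qf S (c • φ) = c ^ 2 * qf S φ := by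
  unfold qf
  rw [mulVec_smul, dotProduct_smul, smul_dotProduct, smul_eq_mul, smul_eq_mul]
  ring

/-- The form is bounded by `lamMax`. -/
theorem qf_le_lamMax (S : Matrix V V ℝ) (φ : V → ℝ) : qf S φ ≤ lamMax S * (φ ⬝ᵥ φ) := by
  rcases (dot_self_nonneg φ).eq_or_lt with h | h
  · have h0 : φ = 0 := dotProduct_self_eq_zero.1 h.symm
    rw [← h, mul_zero, h0]
    unfold qf
    rw [zero_dotProduct]
  · set t := φ ⬝ᵥ φ with ht
    have h1 : qf S ((√t)⁻¹ • φ) ≤ lamMax S := by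
      refine le_csSup (bddAbove_qf S) ⟨(√t)⁻¹ • φ, ?_, rfl⟩
      rw [smul_dotProduct, dotProduct_smul, smul_eq_mul, smul_eq_mul, ← ht]
      have h2 : √t * √t = t := Real.mul_self_sqrt h.le
      have h3 : √t ≠ 0 := (Real.sqrt_pos.2 h).ne'
      field_simp
      nlinarith [h2]
    rw [qf_smul, inv_pow, Real.sq_sqrt h.le, inv_mul_eq_div, div_le_iff₀ h] at h1
    exact h1

/-- Cauchy-Schwarz for a nonnegative symmetric form. -/
theorem cauchy_form {M : Matrix V V ℝ} (hM : Sym M) (h0 : ∀ φ, 0 ≤ qf M φ)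
    (φ χ : V → ℝ) : (φ ⬝ᵥ (M *ᵥ χ)) ^ 2 ≤ qf M φ * qf M χ := by
  have h := discrim_le_zero (a := qf M φ) (b := 2 * (φ ⬝ᵥ (M *ᵥ χ))) (c := qf M χ) (fun t => by
    have h1 := h0 (t • φ + (1 : ℝ) • χ)
    rw [qf_comb hM] at h1
    linarith)
  unfold discrim at h
  linarith

/-- Existence of the top eigenvector. -/
theorem exists_top [Nonempty V] {S : Matrix V V ℝ} (hS : Sym S) :
    ∃ ψ, TP S (lamMax S) ψ 0 := by
  have hcomp : IsCompact {φ : V → ℝ | φ ⬝ᵥ φ = 1} := by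
    refine Metric.isCompact_of_isClosed_isBounded ?_ ?_
    · refine isClosed_eq ?_ continuous_const
      unfold dotProduct
      fun_prop
    · refine (Metric.isBounded_iff_subset_closedBall 0).2 ⟨1, fun φ hφ => ?_⟩
      rw [mem_closedBall_zero_iff, pi_norm_le_iff_of_nonneg zero_le_one]
      exact fun i => abs_le_one_of_dot hφ i
  have hne : {φ : V → ℝ | φ ⬝ᵥ φ = 1}.Nonempty := by
    refine ⟨Pi.single (Classical.arbitrary V) 1, ?_⟩
    simp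
  have hcont : ContinuousOn (fun φ : V → ℝ => qf S φ) {φ : V → ℝ | φ ⬝ᵥ φ = 1} := by
    refine Continuous.continuousOn ?_
    unfold qf mulVec dotProduct
    fun_prop
  obtain ⟨ψ, hψ, hmax⟩ := hcomp.exists_isMaxOn hne hcont
  have hψ1 : ψ ⬝ᵥ ψ = 1 := hψ
  have hlam : qf S ψ = lamMax S := by
    apply le_antisymm
    · exact le_csSup (bddAbove_qf S) ⟨ψ, hψ, rfl⟩
    · refine csSup_le ⟨_, ψ, hψ, rfl⟩ ?_
      rintro r ⟨φ, hφ, rfl⟩
      exact hmax hφ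
  have h0 : ∀ φ, 0 ≤ qf (shift S (lamMax S)) φ := by
    intro φ
    rw [qf_shift]
    linarith [qf_le_lamMax S φ]
  have h1 : qf (shift S (lamMax S)) ψ = 0 := by
    rw [qf_shift, hψ1, hlam]
    ring
  have h2 : shift S (lamMax S) *ᵥ ψ = 0 := by
    have h3 := cauchy_form (sym_shift hS _) h0 (shift S (lamMax S) *ᵥ ψ) ψ
    rw [h1, mul_zero] at h3
    have h4 : (shift S (lamMax S) *ᵥ ψ) ⬝ᵥ (shift S (lamMax S) *ᵥ ψ) = 0 := by
      exact pow_eq_zero_iff (two_ne_zero) |>.1 (le_antisymm h3 (sq_nonneg _))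
    exact dotProduct_self_eq_zero.1 h4
  refine ⟨ψ, ?_, hψ1, ?_⟩
  · rw [mulVec_shift] at h2
    exact (sub_eq_zero.1 h2).symm
  · intro φ _
    rw [sub_zero]
    exact qf_le_lamMax S φ

/-- A sign matrix has `0 ≤ lamMax S ≤ N`. -/
theorem lamMax_nonneg [Nonempty V] {S : Matrix V V ℝ} (hS : IsSign S) : 0 ≤ lamMax S := by
  have h := qf_le_lamMax S (Pi.single (Classical.arbitrary V) 1)
  have h1 : qf S (Pi.single (Classical.arbitrary V) 1) = 0 := by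
    unfold qf
    simp [hS.diag]
  rw [h1] at h
  simpa using h

theorem dot_sq_le (φ χ : V → ℝ) : (φ ⬝ᵥ χ) ^ 2 ≤ (φ ⬝ᵥ φ) * (χ ⬝ᵥ χ) := by
  have h := cauchy_form (M := (1 : Matrix V V ℝ)) (fun i j => by
    simp only [one_apply, eq_comm]) (fun φ => by
      unfold qf
      rw [one_mulVec]
      exact dot_self_nonneg φ) φ χ
  unfold qf at h
  simpa [one_mulVec] using h

theorem lamMax_le_card [Nonempty V] {S : Matrix V V ℝ} (hS : IsSign S) : lamMax S ≤ Fintype.card V := by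
  refine csSup_le ?_ ?_
  · exact ⟨_, Pi.single (Classical.arbitrary V) 1, by simp, rfl⟩
  · rintro r ⟨φ, hφ, rfl⟩
    have h1 : qf S φ ≤ (∑ i, |φ i|) ^ 2 := by
      unfold qf dotProduct mulVec dotProduct
      rw [sq, Finset.sum_mul_sum]
      refine Finset.sum_le_sum fun i _ => ?_
      rw [Finset.mul_sum]
      refine Finset.sum_le_sum fun j _ => ?_
      have h3 : |S i j| ≤ 1 := by
        by_cases hij : i = j
        · rw [hij, hS.diag, abs_zero]; exact zero_le_one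
        · exact abs_le_one_iff_mul_self_le_one.2 (by rw [← sq, hS.sq i j hij])
      calc φ i * (S i j * φ j) ≤ |φ i * (S i j * φ j)| := le_abs_self _
        _ = |S i j| * (|φ i| * |φ j|) := by rw [abs_mul, abs_mul]; ring
        _ ≤ 1 * (|φ i| * |φ j|) := mul_le_mul_of_nonneg_right h3 (by positivity)
        _ = |φ i| * |φ j| := one_mul _
    have h2 : (∑ i, |φ i|) ^ 2 ≤ Fintype.card V * ∑ i, |φ i| ^ 2 := by
      have := sq_sum_le_card_mul_sum_sq (s := (Finset.univ : Finset V)) (f := fun i => |φ i|)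
      simpa using this
    have h3 : ∑ i, |φ i| ^ 2 = 1 := by
      rw [← hφ]
      unfold dotProduct
      exact Finset.sum_congr rfl fun i _ => by rw [sq_abs, sq]
    rw [h3, mul_one] at h2
    exact h1.trans h2

/-- Decomposition along a unit vector. -/
theorem perp_of_unit {ψ φ : V → ℝ} (h : ψ ⬝ᵥ ψ = 1) :
    (φ - (φ ⬝ᵥ ψ) • ψ) ⬝ᵥ ψ = 0 := by
  rw [sub_dotProduct, smul_dotProduct, h, smul_eq_mul, mul_one, sub_self]

theorem qf_decomp {A : Matrix V V ℝ} (hA : Sym A) {ψ : V → ℝ} {lam : ℝ} (he : A *ᵥ ψ = lam • ψ)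
    (h : ψ ⬝ᵥ ψ = 1) (φ : V → ℝ) :
    qf A φ = lam * (φ ⬝ᵥ ψ) ^ 2 + qf A (φ - (φ ⬝ᵥ ψ) • ψ) := by
  have h1 : φ = (1 : ℝ) • (φ - (φ ⬝ᵥ ψ) • ψ) + (φ ⬝ᵥ ψ) • ψ := by
    rw [one_smul, sub_add_cancel]
  have h2 := qf_comb hA 1 (φ ⬝ᵥ ψ) (φ - (φ ⬝ᵥ ψ) • ψ) ψ
  rw [← h1] at h2
  have h3 : (φ - (φ ⬝ᵥ ψ) • ψ) ⬝ᵥ (A *ᵥ ψ) = 0 := by
    rw [he, dotProduct_smul, perp_of_unit h, smul_zero]
  have h4 : qf A ψ = lam := by
    unfold qf
    rw [he, dotProduct_smul, h, smul_eq_mul, mul_one]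
  rw [h2, h3, h4]
  ring

theorem dot_decomp {ψ : V → ℝ} (h : ψ ⬝ᵥ ψ = 1) (φ : V → ℝ) :
    φ ⬝ᵥ φ = (φ ⬝ᵥ ψ) ^ 2 + (φ - (φ ⬝ᵥ ψ) • ψ) ⬝ᵥ (φ - (φ ⬝ᵥ ψ) • ψ) := by
  have h1 := perp_of_unit (φ := φ) h
  have h2 : (φ - (φ ⬝ᵥ ψ) • ψ) ⬝ᵥ (φ - (φ ⬝ᵥ ψ) • ψ) = (φ - (φ ⬝ᵥ ψ) • ψ) ⬝ᵥ φ := by
    rw [dotProduct_sub, dotProduct_smul, h1, smul_zero, sub_zero]
  rw [h2, sub_dotProduct, smul_dotProduct, smul_eq_mul, dotProduct_comm ψ φ]
  ring

theorem TP.qf_le {S : Matrix V V ℝ} (hS : Sym S) {lam g : ℝ} {ψ : V → ℝ}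
    (h : TP S lam ψ g) (φ : V → ℝ) :
    qf S φ ≤ lam * (φ ⬝ᵥ ψ) ^ 2 + (lam - g) * (φ ⬝ᵥ φ - (φ ⬝ᵥ ψ) ^ 2) := by
  rw [qf_decomp hS h.eig h.unit φ, dot_decomp h.unit φ, add_sub_cancel_left]
  have := h.gap _ (perp_of_unit h.unit (φ := φ))
  linarith

theorem TP.qf_psi {S : Matrix V V ℝ} {lam g : ℝ} {ψ : V → ℝ} (h : TP S lam ψ g) : qf S ψ = lam := by
  unfold qf
  rw [h.eig, dotProduct_smul, h.unit, smul_eq_mul, mul_one]

theorem dot_psi_sq_le {ψ : V → ℝ} (h : ψ ⬝ᵥ ψ = 1) (φ : V → ℝ) : (φ ⬝ᵥ ψ) ^ 2 ≤ φ ⬝ᵥ φ := by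
  have := dot_sq_le φ ψ
  rwa [h, mul_one] at this

/-- The eigenvalue of a top pair is `lamMax`. -/
theorem TP.lam_eq {S : Matrix V V ℝ} (hS : Sym S) {lam g : ℝ} {ψ : V → ℝ}
    (h : TP S lam ψ g) (hg : 0 ≤ g) : lam = lamMax S := by
  apply le_antisymm
  · exact le_csSup (bddAbove_qf S) ⟨ψ, h.unit, h.qf_psi⟩
  · refine csSup_le ⟨_, ψ, h.unit, rfl⟩ ?_
    rintro r ⟨φ, hφ, rfl⟩
    have h1 := h.qf_le hS φ
    have h2 := dot_psi_sq_le h.unit φ
    rw [hφ] at h1 h2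
    nlinarith

theorem TP.mono {S : Matrix V V ℝ} {lam g g' : ℝ} {ψ : V → ℝ}
    (h : TP S lam ψ g) (hg : g' ≤ g) : TP S lam ψ g' := by
  refine ⟨h.eig, h.unit, fun φ hφ => (h.gap φ hφ).trans ?_⟩
  exact mul_le_mul_of_nonneg_right (by linarith) (dot_self_nonneg φ)

/-- The predicate of `FLCfg` is the same. -/
theorem topPair_iff {N : ℕ} (S : Matrix (Fin N) (Fin N) ℝ) (l g : ℝ) (ψ : Fin N → ℝ) :
    TopPair S l g ψ ↔ TP S l ψ g := by
  have e1 : ∀ w : Fin N → ℝ, ∑ u, ∑ v, w u * S u v * w v = qf S w := by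
    intro w
    unfold qf dotProduct mulVec dotProduct
    refine Finset.sum_congr rfl fun i _ => ?_
    rw [Finset.mul_sum]
    exact Finset.sum_congr rfl fun j _ => by ring
  have e2 : ∀ w : Fin N → ℝ, ∑ v, w v ^ 2 = w ⬝ᵥ w := by
    intro w
    unfold dotProduct
    exact Finset.sum_congr rfl fun j _ => by ring
  have e3 : ∀ w : Fin N → ℝ, ∑ v, ψ v * w v = w ⬝ᵥ ψ := by
    intro w
    unfold dotProduct
    exact Finset.sum_congr rfl fun j _ => by ring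
  unfold TopPair
  simp only [e1, e2, e3]
  constructor
  · rintro ⟨h1, h2, h3⟩
    exact ⟨funext h2, h1, h3⟩
  · rintro ⟨h1, h2, h3⟩
    exact ⟨h2, fun u => congrFun h1 u, h3⟩

theorem isSign_Smat {N : ℕ} (a : Cfg N) : IsSign (Smat a) :=
  ⟨Smat_symm a, Smat_diag a, fun u w h => by rw [sq]; exact Smat_sq a u w h⟩

/-- An injective matrix is invertible. -/
theorem mul_inv_of_inj {A : Matrix V V ℝ} (h : ∀ φ : V → ℝ, A *ᵥ φ = 0 → φ = 0) : A * A⁻¹ = 1 := by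
  have h1 : Function.Injective A.mulVec := by
    intro a b hab
    have := h (a - b) (by rw [mulVec_sub]; exact sub_eq_zero.2 hab)
    exact sub_eq_zero.1 this
  have h2 : IsUnit A := Matrix.mulVec_injective_iff_isUnit.1 h1
  exact Matrix.mul_nonsing_inv A ((Matrix.isUnit_iff_isUnit_det A).1 h2)

theorem inv_sym {A : Matrix V V ℝ} (hA : Sym A) : Sym A⁻¹ := by
  have h : Aᵀ = A := by
    ext i j
    exact (hA i j).symm
  intro i j
  have h1 := Matrix.transpose_nonsing_inv A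
  rw [h] at h1
  exact (congrFun (congrFun h1 j) i)

theorem PosBy.nonneg {y : ℝ} {M : Matrix V V ℝ} (h : PosBy y M) (hy : 0 ≤ y) (φ : V → ℝ) :
    0 ≤ qf M φ :=
  (mul_nonneg hy (dot_self_nonneg _)).trans (h.le φ)

/-- `M ≤ 1/y`. -/
theorem PosBy.qf_le {y : ℝ} {M : Matrix V V ℝ} (h : PosBy y M) (hy : 0 < y) (φ : V → ℝ) :
    y * qf M φ ≤ φ ⬝ᵥ φ := by
  have h1 := h.le φ
  have h2 : qf M φ ^ 2 ≤ (φ ⬝ᵥ φ) * ((M *ᵥ φ) ⬝ᵥ (M *ᵥ φ)) := dot_sq_le φ (M *ᵥ φ)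
  have h3 := h.nonneg hy.le φ
  have h4 := dot_self_nonneg φ
  have h5 := dot_self_nonneg (M *ᵥ φ)
  rcases h3.eq_or_lt with h6 | h6
  · rw [← h6, mul_zero]; exact h4
  · have h7 : y * qf M φ * qf M φ ≤ (φ ⬝ᵥ φ) * qf M φ := by nlinarith
    exact le_of_mul_le_mul_right h7 h6

theorem mulVec_single' (M : Matrix V V ℝ) (v : V) : M *ᵥ (Pi.single v 1) = fun i => M i v := by
  rw [mulVec_single_one]
  rfl

theorem PosBy.colsq_le {y : ℝ} {M : Matrix V V ℝ} (h : PosBy y M) (v : V) : y * colsq M v ≤ M v v := by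
  have h1 := h.le (Pi.single v 1)
  unfold qf at h1
  rw [mulVec_single'] at h1
  have h2 : (Pi.single v 1 : V → ℝ) ⬝ᵥ (fun i => M i v) = M v v := by
    rw [single_one_dotProduct]
  have h3 : (fun i => M i v) ⬝ᵥ (fun i => M i v) = colsq M v := by
    unfold colsq dotProduct
    exact Finset.sum_congr rfl fun i _ => by ring
  rwa [h2, h3] at h1

theorem hs2_eq (M : Matrix V V ℝ) : hs2 M = ∑ v, colsq M v := by
  unfold hs2 colsq
  exact Finset.sum_comm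

theorem PosBy.hs_le {y : ℝ} {M : Matrix V V ℝ} (h : PosBy y M) : y * hs2 M ≤ M.trace := by
  rw [hs2_eq, Finset.mul_sum]
  exact Finset.sum_le_sum fun v _ => h.colsq_le v

theorem PosBy.diag_nonneg {y : ℝ} {M : Matrix V V ℝ} (h : PosBy y M) (hy : 0 ≤ y) (u : V) :
    0 ≤ M u u := by
  refine (mul_nonneg hy ?_).trans (h.colsq_le u)
  exact Finset.sum_nonneg fun i _ => sq_nonneg _

/-- THE MAIN ALGEBRAIC FACT, both above and below the top eigenvalue. `S` symmetric with top pair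
`(lam, ψ)` and gap at least `g`; `θ ≠ lam` and `θ ≥ lam - g + y`, `y > 0`. Then `θ - S` is invertible, and
`H := G - (θ - lam)⁻¹ ψ ψ^t`, `G = rsv S θ`, has `H ψ = 0`, `(θ - S) H = 1 - ψ ψ^t`, and `0 ≤ H ≤ 1/y` in the
form `y H² ≤ H`. -/
theorem rsv_main {S : Matrix V V ℝ} (hS : Sym S) {lam g θ y : ℝ} {ψ : V → ℝ} (h : TP S lam ψ g)
    (hθ : θ ≠ lam) (hy : 0 < y) (hθ' : lam - g + y ≤ θ) :
    shift S θ * rsv S θ = 1 ∧ rsv S θ * shift S θ = 1 ∧ Sym (rsv S θ) ∧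
    shift S θ * (rsv S θ - (θ - lam)⁻¹ • rk1 ψ) = 1 - rk1 ψ ∧
    (rsv S θ - (θ - lam)⁻¹ • rk1 ψ) *ᵥ ψ = 0 ∧
    PosBy y (rsv S θ - (θ - lam)⁻¹ • rk1 ψ) := by
  have hθ0 : θ - lam ≠ 0 := sub_ne_zero.2 hθ
  have hAψ : shift S θ *ᵥ ψ = (θ - lam) • ψ := by
    rw [mulVec_shift, h.eig, sub_smul]
  have hsym := sym_shift hS θ
  have hpos : ∀ φ : V → ℝ, φ ⬝ᵥ ψ = 0 → y * (φ ⬝ᵥ φ) ≤ qf (shift S θ) φ := by
    intro φ hφ
    rw [qf_shift]
    have h1 := h.gap φ hφ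
    have h2 := dot_self_nonneg φ
    nlinarith
  have hinj : ∀ φ : V → ℝ, shift S θ *ᵥ φ = 0 → φ = 0 := by
    intro φ hφ
    have h1 : (θ - lam) * (φ ⬝ᵥ ψ) = 0 := by
      have h2 : φ ⬝ᵥ (shift S θ *ᵥ ψ) = 0 := by
        rw [dot_mulVec_comm hsym, hφ, zero_dotProduct]
      rwa [hAψ, dotProduct_smul, smul_eq_mul] at h2
    have h2 : φ ⬝ᵥ ψ = 0 := (mul_eq_zero.1 h1).resolve_left hθ0
    have h3 := hpos φ h2
    have h4 : qf (shift S θ) φ = 0 := by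
      unfold qf
      rw [hφ, dotProduct_zero]
    rw [h4] at h3
    have h5 : φ ⬝ᵥ φ = 0 := by
      have := dot_self_nonneg φ
      nlinarith
    exact dotProduct_self_eq_zero.1 h5
  have hAG : shift S θ * rsv S θ = 1 := mul_inv_of_inj hinj
  have hGA : rsv S θ * shift S θ = 1 := mul_eq_one_comm.1 hAG
  have hGs : Sym (rsv S θ) := inv_sym hsym
  have hGψ : rsv S θ *ᵥ ψ = (θ - lam)⁻¹ • ψ := by
    have h1 : rsv S θ *ᵥ (shift S θ *ᵥ ψ) = ψ := by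
      rw [mulVec_mulVec, hGA, one_mulVec]
    rw [hAψ, mulVec_smul] at h1
    rw [← h1, smul_smul, h1]
    rw [inv_mul_cancel₀ hθ0, one_smul]
  have hHψ : (rsv S θ - (θ - lam)⁻¹ • rk1 ψ) *ᵥ ψ = 0 := by
    rw [sub_mulVec, smul_mulVec, hGψ, mulVec_rk1, h.unit, one_smul, sub_self]
  have hArk : shift S θ * rk1 ψ = (θ - lam) • rk1 ψ := by
    ext i j
    have h1 := congrFun hAψ i
    simp only [mulVec, dotProduct, Pi.smul_apply, smul_eq_mul] at h1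
    simp only [Matrix.mul_apply, rk1, Matrix.smul_apply, smul_eq_mul]
    calc ∑ x, shift S θ i x * (ψ x * ψ j) = (∑ x, shift S θ i x * ψ x) * ψ j := by
          rw [Finset.sum_mul]
          exact Finset.sum_congr rfl fun x _ => by ring
      _ = (θ - lam) * (ψ i * ψ j) := by rw [h1]; ring
  have hAH : shift S θ * (rsv S θ - (θ - lam)⁻¹ • rk1 ψ) = 1 - rk1 ψ := by
    rw [Matrix.mul_sub, hAG, Matrix.mul_smul, hArk, smul_smul, inv_mul_cancel₀ hθ0, one_smul]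
  have hHs : Sym (rsv S θ - (θ - lam)⁻¹ • rk1 ψ) := by
    intro i j
    rw [Matrix.sub_apply, Matrix.sub_apply, Matrix.smul_apply, Matrix.smul_apply, hGs i j,
      sym_rk1 ψ i j]
  refine ⟨hAG, hGA, hGs, hAH, hHψ, hHs, fun φ => ?_⟩
  set H := rsv S θ - (θ - lam)⁻¹ • rk1 ψ with hH
  have h1 : (H *ᵥ φ) ⬝ᵥ ψ = 0 := by
    rw [← dot_mulVec_comm hHs, hHψ, dotProduct_zero]
  have h2 := hpos _ h1
  have h3 : qf (shift S θ) (H *ᵥ φ) = qf H φ := by
    have h4 : (1 - rk1 ψ) *ᵥ φ = φ - (ψ ⬝ᵥ φ) • ψ := by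
      rw [sub_mulVec, one_mulVec, mulVec_rk1]
    unfold qf
    rw [mulVec_mulVec, hAH, h4, dotProduct_sub, dotProduct_smul, h1,
      smul_zero, sub_zero, dotProduct_comm]
  rwa [h3] at h2

/-- Above the top eigenvalue the full resolvent is positive: `y G² ≤ G` for `θ ≥ lamMax S + y`. -/
theorem rsv_posBy [Nonempty V] {S : Matrix V V ℝ} (hS : Sym S) {θ y : ℝ} (hy : 0 < y)
    (hθ : lamMax S + y ≤ θ) :
    shift S θ * rsv S θ = 1 ∧ PosBy y (rsv S θ) := by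
  obtain ⟨ψ, h⟩ := exists_top hS
  obtain ⟨h1, h2, h3, -, -, -⟩ := rsv_main hS h (θ := θ) (by linarith) hy (by linarith)
  refine ⟨h1, h3, fun φ => ?_⟩
  have h4 : qf (shift S θ) (rsv S θ *ᵥ φ) = qf (rsv S θ) φ := by
    unfold qf
    rw [mulVec_mulVec, h1, one_mulVec, dotProduct_comm]
  rw [← h4, qf_shift]
  have h5 := qf_le_lamMax S (rsv S θ *ᵥ φ)
  have h6 := dot_self_nonneg (rsv S θ *ᵥ φ)
  nlinarith

/-- The resolvent decreases above the top eigenvalue: `lamMax S < θ ≤ θ'` gives `G(θ') ≤ G(θ)`. -/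
theorem rsv_mono [Nonempty V] {S : Matrix V V ℝ} (hS : Sym S) {θ θ' : ℝ} (h : lamMax S < θ)
    (hθ : θ ≤ θ') (φ : V → ℝ) : qf (rsv S θ') φ ≤ qf (rsv S θ) φ := by
  obtain ⟨h1, h2⟩ := rsv_posBy hS (sub_pos.2 h) (θ := θ) (by linarith)
  obtain ⟨h1', h2'⟩ := rsv_posBy hS (sub_pos.2 h) (θ := θ') (by linarith)
  have hsym := sym_shift hS θ
  have hnn : ∀ χ, 0 ≤ qf (shift S θ) χ := by
    intro χ
    rw [qf_shift]
    have := qf_le_lamMax S χ
    have := dot_self_nonneg χ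
    nlinarith
  have h3 := cauchy_form hsym hnn (rsv S θ *ᵥ φ) (rsv S θ' *ᵥ φ)
  have h4 : (rsv S θ *ᵥ φ) ⬝ᵥ (shift S θ *ᵥ (rsv S θ' *ᵥ φ)) = qf (rsv S θ') φ := by
    rw [dot_mulVec_comm hsym, mulVec_mulVec, h1, one_mulVec]
    rfl
  have h5 : qf (shift S θ) (rsv S θ *ᵥ φ) = qf (rsv S θ) φ := by
    unfold qf
    rw [mulVec_mulVec, h1, one_mulVec, dotProduct_comm]
  have h6 : qf (shift S θ) (rsv S θ' *ᵥ φ) ≤ qf (rsv S θ') φ := by
    have h7 : qf (shift S θ') (rsv S θ' *ᵥ φ) = qf (rsv S θ') φ := by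
      unfold qf
      rw [mulVec_mulVec, h1', one_mulVec, dotProduct_comm]
    rw [← h7, qf_shift, qf_shift]
    have := dot_self_nonneg (rsv S θ' *ᵥ φ)
    nlinarith
  rw [h4, h5] at h3
  have h8 := h2.nonneg (sub_pos.2 h).le φ
  have h9 := h2'.nonneg (sub_pos.2 h).le φ
  rcases h9.eq_or_lt with h10 | h10
  · rw [← h10]; exact h8
  · have h11 : qf (rsv S θ') φ * qf (rsv S θ') φ ≤ qf (rsv S θ) φ * qf (rsv S θ') φ := by
      nlinarith
    exact le_of_mul_le_mul_right h11 h10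

end Pool.Agent.MP_9cec2c_lc.Flat
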