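import Pool.Agent.Lib.MP_9cec2c_lc.FM0

/-!
# FM1: rank one algebra (resolvent of a minor from the full resolvent)
`G` is symmetric with `(θ - S) G = 1` and `G_vv ≠ 0`; `x = row S v`;
`M = Mv G v = G - (G e_v)(G e_v)^t / G_vv`.
-/

set_option autoImplicit false

open Matrix Finset

namespace Pool.Agent.MP_9cec2c_lc.Flat

variable {V : Type} [Fintype V] [DecidableEq V]

omit [Fintype V] [DecidableEq V] in
/-- `M e_v = 0` (and `M` is symmetric). -/
theorem Mv_col {G : Matrix V V ℝ} {v : V} (hv : G v v ≠ 0) (i : V) : Mv G v i v = 0 := by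
  unfold Mv
  field_simp
  ring

omit [Fintype V] [DecidableEq V] in
theorem Mv_row {G : Matrix V V ℝ} {v : V} (hv : G v v ≠ 0) (j : V) : Mv G v v j = 0 := by
  unfold Mv
  field_simp
  ring

omit [Fintype V] [DecidableEq V] in
theorem Mv_sym {G : Matrix V V ℝ} (hG : Sym G) (v : V) : Sym (Mv G v) := by
  intro i j
  unfold Mv
  rw [hG i j, hG i v, hG v j]
  ring

/-- `(θ - S) M = 1 - e_v (G e_v)^t / G_vv`. -/
theorem shift_mul_Mv {A G : Matrix V V ℝ} (hinv : A * G = 1) (v i j : V) :
    (A * Mv G v) i j = (1 : Matrix V V ℝ) i j - (1 : Matrix V V ℝ) i v * (G v j / G v v) := by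
  rw [← hinv]
  simp only [Matrix.mul_apply, Mv]
  rw [sum_mul, ← sum_sub_distrib]
  refine sum_congr rfl fun k _ => ?_
  ring

/-- The resolvent of the minor: `(θ - minor S v)⁻¹ = M + θ⁻¹ e_v e_v^t`.
Proof. `(θ - S) M = 1 - e_v (G e_v)^t / G_vv`. Row `i ≠ v` of `θ - minor S v` is row `i` of `θ - S` except in
column `v`, where `M` has row 0; so `(θ - minor S v) M = 1 - e_v e_v^t`, and
`(θ - minor S v) e_v = θ e_v`. -/
theorem rsv_minor {S : Matrix V V ℝ} (hS : IsSign S) {θ : ℝ} (hθ : θ ≠ 0) {G : Matrix V V ℝ}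
    (hG : Sym G) (hinv : shift S θ * G = 1) {v : V} (hv : G v v ≠ 0) :
    rsv (minor S v) θ = Mv G v + θ⁻¹ • rk1 (Pi.single v 1) := by
  unfold rsv
  apply Matrix.inv_eq_right_inv
  ext i j
  rw [Matrix.mul_apply]
  by_cases hi : i = v
  · subst hi
    have h1 : ∀ k, shift (minor S i) θ i k = if k = i then θ else 0 := fun k => by
      unfold shift minor
      by_cases hk : k = i
      · subst hk; simp
      · have hk' : i ≠ k := fun h => hk h.symm
        simp [hk, hk']
    simp only [h1, ite_mul, zero_mul]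
    rw [sum_ite_eq' univ i, if_pos (mem_univ _)]
    simp only [Matrix.add_apply, Matrix.smul_apply, rk1, smul_eq_mul, Mv_row hv]
    rw [Pi.single_eq_same, Matrix.one_apply]
    by_cases hj : i = j
    · subst hj
      simp [hθ]
    · have hj' : j ≠ i := fun h => hj h.symm
      simp [hj, hj']
  · have h1 := shift_mul_Mv hinv v i j
    rw [Matrix.mul_apply] at h1
    have h2 : (1 : Matrix V V ℝ) i v = 0 := Matrix.one_apply_ne hi
    rw [h2, zero_mul, sub_zero] at h1
    rw [← h1]
    refine sum_congr rfl fun k _ => ?_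
    by_cases hk : k = v
    · subst hk
      have h3 : shift (minor S k) θ i k = 0 := by
        unfold shift minor
        simp [hi]
      rw [h3, zero_mul, Mv_row hv, mul_zero]
    · have h3 : shift (minor S v) θ i k = shift S θ i k := by
        unfold shift minor
        simp [hi, hk]
      rw [h3]
      simp only [Matrix.add_apply, Matrix.smul_apply, rk1, smul_eq_mul]
      rw [Pi.single_eq_of_ne hk]
      ring

omit [Fintype V] [DecidableEq V] in
theorem row_self {S : Matrix V V ℝ} (hS : IsSign S) (v : V) : row S v v = 0 := hS.diag v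

omit [Fintype V] in
theorem shift_sym {S : Matrix V V ℝ} (hS : Sym S) (θ : ℝ) : Sym (shift S θ) := by
  intro i j
  unfold shift
  simp only [Matrix.sub_apply, Matrix.smul_apply, smul_eq_mul, Matrix.one_apply]
  rw [hS i j]
  by_cases h : i = j
  · simp [h]
  · have h' : j ≠ i := fun hh => h hh.symm
    simp [h, h']

omit [Fintype V] [DecidableEq V] in
theorem sym_transpose {A : Matrix V V ℝ} (hA : Sym A) : A.transpose = A := by
  ext i j
  exact hA j i

theorem inv_comm {A G : Matrix V V ℝ} (hA : Sym A) (hG : Sym G) (h : A * G = 1) : G * A = 1 := by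
  have h1 := congrArg Matrix.transpose h
  rw [Matrix.transpose_mul, sym_transpose hA, sym_transpose hG, Matrix.transpose_one] at h1
  exact h1

/-- `G x = θ G e_v - e_v`. -/
theorem mulVec_row {S : Matrix V V ℝ} (hS : Sym S) {θ : ℝ} {G : Matrix V V ℝ}
    (hG : Sym G) (hinv : shift S θ * G = 1) (v i : V) :
    ∑ j, G i j * S j v = θ * G i v - (1 : Matrix V V ℝ) i v := by
  have h1 := inv_comm (shift_sym hS θ) hG hinv
  have h2 : (G * shift S θ) i v = (1 : Matrix V V ℝ) i v := by rw [h1]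
  rw [Matrix.mul_apply] at h2
  have h3 : ∑ j, G i j * shift S θ j v = θ * G i v - ∑ j, G i j * S j v := by
    have : ∀ j, G i j * shift S θ j v = (if j = v then θ * G i v else 0) - G i j * S j v := fun j => by
      unfold shift
      simp only [Matrix.sub_apply, Matrix.smul_apply, smul_eq_mul, Matrix.one_apply]
      by_cases h : j = v
      · subst h; simp; ring
      · simp [h]
    rw [sum_congr rfl fun j _ => this j, sum_sub_distrib, sum_ite_eq' univ v, if_pos (mem_univ _)]
  rw [h3] at h2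
  linarith

/-- `x^t M x = θ - 1 / G_vv`.
Proof. `(θ - S) e_v = θ e_v - x`, so `G x = θ G e_v - e_v`, `x^t G x = θ x^t G e_v = θ (G x)_v = θ (θ G_vv - 1)`
(`x_v = 0`), and `(G x)_v^2 / G_vv = (θ G_vv - 1)^2 / G_vv`. -/
theorem qf_Mv_row {S : Matrix V V ℝ} (hS : IsSign S) {θ : ℝ} {G : Matrix V V ℝ}
    (hG : Sym G) (hinv : shift S θ * G = 1) {v : V} (hv : G v v ≠ 0) :
    qf (Mv G v) (row S v) = θ - 1 / G v v := by
  have hx : ∀ i, ∑ j, G i j * S j v = θ * G i v - (1 : Matrix V V ℝ) i v :=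
    mulVec_row hS.symm hG hinv v
  have hvv : ∑ j, G v j * S j v = θ * G v v - 1 := by
    rw [hx, Matrix.one_apply_eq]
  have h1 : ∀ i, ∑ j, Mv G v i j * S j v =
      (θ * G i v - (1 : Matrix V V ℝ) i v) - G i v / G v v * (θ * G v v - 1) := fun i => by
    rw [← hvv, ← hx i, mul_sum, ← sum_sub_distrib]
    refine sum_congr rfl fun j _ => ?_
    unfold Mv
    ring
  have h2 : qf (Mv G v) (row S v) = ∑ i, S i v * ∑ j, Mv G v i j * S j v := rfl
  rw [h2]
  have h3 : ∀ i, S i v * ∑ j, Mv G v i j * S j v = G v i * S i v * (1 / G v v) := fun i => by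
    rw [h1 i]
    by_cases hi : i = v
    · subst hi
      rw [hS.diag]
      ring
    · rw [Matrix.one_apply_ne hi, hG i v]
      field_simp
      ring
  rw [sum_congr rfl fun i _ => h3 i, ← sum_mul, hvv]
  field_simp

omit [DecidableEq V] in
/-- `tr M = tr G - |G e_v|^2 / G_vv`. -/
theorem trace_Mv {G : Matrix V V ℝ} (hG : Sym G) (v : V) :
    (Mv G v).trace = G.trace - colsq G v / G v v := by
  unfold Matrix.trace colsq
  rw [sum_div, ← sum_sub_distrib]
  refine sum_congr rfl fun i _ => ?_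
  simp only [Matrix.diag_apply, Mv]
  rw [hG v i]
  ring

omit [DecidableEq V] in
/-- triangle inequality for the Hilbert-Schmidt norm -/
theorem hs_add_le (A B : Matrix V V ℝ) : √(hs2 (A + B)) ≤ √(hs2 A) + √(hs2 B) := by
  have h1 : ∀ C : Matrix V V ℝ, hs2 C = ∑ p : V × V, C p.1 p.2 ^ 2 := fun C => by
    unfold hs2
    rw [Fintype.sum_prod_type]
  have hA : 0 ≤ hs2 A := by unfold hs2; positivity
  have hB : 0 ≤ hs2 B := by unfold hs2; positivity
  rw [Real.sqrt_le_left (by positivity)]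
  rw [add_sq, Real.sq_sqrt hA, Real.sq_sqrt hB]
  have h2 := Real.sum_mul_le_sqrt_mul_sqrt (univ : Finset (V × V)) (fun p => A p.1 p.2)
    (fun p => B p.1 p.2)
  rw [← h1 A, ← h1 B] at h2
  have h3 : hs2 (A + B) = hs2 A + 2 * ∑ p : V × V, A p.1 p.2 * B p.1 p.2 + hs2 B := by
    rw [h1, h1, h1, mul_sum, ← sum_add_distrib, ← sum_add_distrib]
    refine sum_congr rfl fun p _ => ?_
    rw [Matrix.add_apply]
    ring
  rw [h3]
  linarith

/-- the rank one matrix `a b^t` -/
def out2 (a b : V → ℝ) : Matrix V V ℝ := fun i j => a i * b j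

omit [DecidableEq V] in
theorem hs_prod (a b : V → ℝ) : hs2 (out2 a b) = (∑ i, a i ^ 2) * ∑ j, b j ^ 2 := by
  unfold hs2 out2
  rw [sum_mul_sum]
  exact sum_congr rfl fun i _ => sum_congr rfl fun j _ => by ring

/-- `hs2 (rsv (minor S v) θ)` is at most `(sqrt (hs2 G) + colsq G v / |G_vv| + 1 / θ)^2` (`0 < θ`):
triangle inequality for the Hilbert-Schmidt norm. -/
theorem hs_minor {S : Matrix V V ℝ} (hS : IsSign S) {θ : ℝ} (hθ : 0 < θ) {G : Matrix V V ℝ}
    (hG : Sym G) (hinv : shift S θ * G = 1) {v : V} (hv : G v v ≠ 0) :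
    hs2 (rsv (minor S v) θ) ≤ (√(hs2 G) + colsq G v / |G v v| + 1 / θ) ^ 2 := by
  rw [rsv_minor hS hθ.ne' hG hinv hv]
  have h0 : 0 ≤ hs2 (Mv G v + θ⁻¹ • rk1 (Pi.single v 1)) := by unfold hs2; positivity
  have hc0 : 0 ≤ colsq G v := by unfold colsq; positivity
  rw [← Real.sq_sqrt h0]
  refine pow_le_pow_left₀ (Real.sqrt_nonneg _) ?_ 2
  have hM : Mv G v = G + out2 (fun i => -(G i v / G v v)) (fun j => G v j) := by
    ext i j
    simp only [Mv, Matrix.add_apply, out2]
    ring
  have h1 : √(hs2 (out2 (fun i => -(G i v / G v v)) (fun j => G v j))) = colsq G v / |G v v| := by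
    rw [hs_prod]
    have e1 : ∑ i, (-(G i v / G v v)) ^ 2 = colsq G v / G v v ^ 2 := by
      unfold colsq
      rw [sum_div]
      exact sum_congr rfl fun i _ => by ring
    have e2 : ∑ j, G v j ^ 2 = colsq G v := by
      unfold colsq
      exact sum_congr rfl fun j _ => by rw [hG v j]
    rw [e1, e2]
    have e3 : colsq G v / G v v ^ 2 * colsq G v = (colsq G v / |G v v|) ^ 2 := by
      rw [div_pow, sq_abs]
      ring
    rw [e3, Real.sqrt_sq (by positivity)]
  have h2 : √(hs2 (θ⁻¹ • rk1 (Pi.single v 1) : Matrix V V ℝ)) = 1 / θ := by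
    have e0 : (θ⁻¹ • rk1 (Pi.single v 1) : Matrix V V ℝ) =
        out2 (fun i => θ⁻¹ * (Pi.single v 1 : V → ℝ) i) (Pi.single v 1) := by
      ext i j
      simp only [Matrix.smul_apply, rk1, smul_eq_mul, out2]
      ring
    rw [e0, hs_prod]
    have e1 : ∑ i, (θ⁻¹ * (Pi.single v 1 : V → ℝ) i) ^ 2 = θ⁻¹ ^ 2 := by
      rw [sum_eq_single v]
      · simp
      · intro b _ hb
        simp [hb]
      · intro h; exact absurd (mem_univ _) h
    have e2 : ∑ i, ((Pi.single v 1 : V → ℝ) i) ^ 2 = 1 := by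
      rw [sum_eq_single v]
      · simp
      · intro b _ hb
        simp [hb]
      · intro h; exact absurd (mem_univ _) h
    rw [e1, e2, mul_one, Real.sqrt_sq (by positivity)]
    rw [one_div]
  calc √(hs2 (Mv G v + θ⁻¹ • rk1 (Pi.single v 1)))
      ≤ √(hs2 (Mv G v)) + √(hs2 (θ⁻¹ • rk1 (Pi.single v 1))) := hs_add_le _ _
    _ ≤ (√(hs2 G) + √(hs2 (out2 (fun i => -(G i v / G v v)) (fun j => G v j)))) + 1 / θ := by
        rw [h2]
        have := hs_add_le G (out2 (fun i => -(G i v / G v v)) (fun j => G v j))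
        rw [← hM] at this
        linarith
    _ = √(hs2 G) + colsq G v / |G v v| + 1 / θ := by rw [h1]

/-- Event (O2) for any sign matrix with the same minor. -/
theorem conc_Mv {S S' : Matrix V V ℝ} (hS : IsSign S) (hS' : IsSign S') {v : V}
    (hm : minor S' v = minor S v) {θ : ℝ} (hθ : 0 < θ) {G : Matrix V V ℝ}
    (hG : Sym G) (hinv : shift S θ * G = 1) (hv : 0 < G v v) {K : ℝ} (hK : 0 ≤ K)
    (hc : Conc S' K v θ) :
    |qf (Mv G v) (row S' v) - (G.trace - colsq G v / G v v)| ≤
      K * (√(hs2 G) + colsq G v / G v v + 1 / θ) := by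
  have hhs := hs_minor hS hθ hG hinv hv.ne'
  unfold Conc at hc
  rw [hm] at hc
  have h1 : qf (rsv (minor S v) θ) (row S' v) = qf (Mv G v) (row S' v) := by
    rw [rsv_minor hS hθ.ne' hG hinv hv.ne']
    unfold qf
    rw [Matrix.add_mulVec, dotProduct_add]
    have : row S' v ⬝ᵥ ((θ⁻¹ • rk1 (Pi.single v 1) : Matrix V V ℝ) *ᵥ row S' v) = 0 := by
      have e : ∀ i, ((θ⁻¹ • rk1 (Pi.single v 1) : Matrix V V ℝ) *ᵥ row S' v) i = 0 := fun i => by
        simp only [Matrix.mulVec, dotProduct, Matrix.smul_apply, rk1, smul_eq_mul]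
        refine sum_eq_zero fun j _ => ?_
        by_cases hj : j = v
        · subst hj
          rw [row_self hS']
          ring
        · rw [Pi.single_eq_of_ne hj]
          ring
      unfold dotProduct
      exact sum_eq_zero fun i _ => by rw [e i, mul_zero]
    rw [this, add_zero]
  have h2 : (rsv (minor S v) θ).trace - rsv (minor S v) θ v v = G.trace - colsq G v / G v v := by
    rw [rsv_minor hS hθ.ne' hG hinv hv.ne', ← trace_Mv hG v, Matrix.trace_add]
    have e1 : (θ⁻¹ • rk1 (Pi.single v 1) : Matrix V V ℝ).trace = θ⁻¹ := by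
      unfold Matrix.trace
      simp only [Matrix.diag_apply, Matrix.smul_apply, rk1, smul_eq_mul]
      rw [sum_eq_single v]
      · simp
      · intro b _ hb
        simp [hb]
      · intro h; exact absurd (mem_univ _) h
    rw [e1]
    simp only [Matrix.add_apply, Matrix.smul_apply, rk1, smul_eq_mul, Mv_row hv.ne',
      Pi.single_eq_same]
    ring
  rw [h1, h2] at hc
  set X : ℝ := √(hs2 G) + colsq G v / G v v + 1 / θ with hX
  rw [abs_of_pos hv, ← hX] at hhs
  have hc0 : 0 ≤ colsq G v := by unfold colsq; positivity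
  have hX0 : 0 ≤ X := by
    rw [hX]
    positivity
  apply abs_le_of_sq_le_sq _ (mul_nonneg hK hX0)
  refine hc.trans ?_
  rw [mul_pow]
  exact mul_le_mul_of_nonneg_left hhs (sq_nonneg K)

/-- The inequality (*): event (O2) in terms of the full resolvent, `G_vv > 0`. -/
theorem star {S : Matrix V V ℝ} (hS : IsSign S) {θ : ℝ} (hθ : 0 < θ) {G : Matrix V V ℝ}
    (hG : Sym G) (hinv : shift S θ * G = 1) {v : V} (hv : 0 < G v v) {K : ℝ} (hK : 0 ≤ K)
    (hc : Conc S K v θ) :
    |1 / G v v - (θ - G.trace)| ≤ K * √(hs2 G) + (K + 1) * (colsq G v / G v v) + K / θ := by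
  have h := conc_Mv hS hS rfl hθ hG hinv hv hK hc
  rw [qf_Mv_row hS hG hinv hv.ne'] at h
  have hc0 : 0 ≤ colsq G v / G v v := by
    have : 0 ≤ colsq G v := by unfold colsq; positivity
    positivity
  have h1 := abs_le.1 h
  have h2 : K / θ = K * (1 / θ) := by ring
  rw [h2, abs_le]
  constructor <;> nlinarith [h1.1, h1.2]

/-- The same for a matrix `S'` with the same minor: `T' = x'^t M x' ≤ tr G + error`. -/
theorem star' {S S' : Matrix V V ℝ} (hS : IsSign S) (hS' : IsSign S') {v : V}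
    (hm : minor S' v = minor S v) {θ : ℝ} (hθ : 0 < θ) {G : Matrix V V ℝ}
    (hG : Sym G) (hinv : shift S θ * G = 1) (hv : 0 < G v v) {K : ℝ} (hK : 0 ≤ K)
    (hc : Conc S' K v θ) :
    qf (Mv G v) (row S' v) ≤ G.trace + (K * √(hs2 G) + (K + 1) * (colsq G v / G v v) + K / θ) := by
  have h := conc_Mv hS hS' hm hθ hG hinv hv hK hc
  have hc0 : 0 ≤ colsq G v / G v v := by
    have : 0 ≤ colsq G v := by unfold colsq; positivity
    positivity
  have h1 := abs_le.1 h
  have h2 : K / θ = K * (1 / θ) := by ring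
  rw [h2]
  nlinarith [h1.1, h1.2]

/-- COMPLETING THE SQUARE. `S'` has the same minor as `S` at `v`, `x' = row S' v`, `T' = x'^t M x'`. For every
`z`, with `c = z_v` and `w = z - c e_v - c M x'`: `w_v = 0` and
`z^t (θ - S') z = (θ - T') c^2 + w^t (θ - S) w`. -/
theorem complete_square {S S' : Matrix V V ℝ} (hS : IsSign S) (hS' : IsSign S') {v : V}
    (hm : minor S' v = minor S v) {θ : ℝ} {G : Matrix V V ℝ}
    (hG : Sym G) (hinv : shift S θ * G = 1) (hv : G v v ≠ 0) (z : V → ℝ) :
    qf (shift S' θ) z = (θ - qf (Mv G v) (row S' v)) * z v ^ 2 +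
      qf (shift S θ) (z - z v • Pi.single v 1 - z v • (Mv G v *ᵥ row S' v)) := by
  set e : V → ℝ := Pi.single v 1 with he
  set x : V → ℝ := row S' v with hx
  set c : ℝ := z v with hc
  set M : Matrix V V ℝ := Mv G v with hM
  set z0 : V → ℝ := z - c • e with hz0
  have hz0v : z0 v = 0 := by
    rw [hz0, he]
    simp [hc]
  have hxv : x v = 0 := row_self hS' v
  have huv : (M *ᵥ x) v = 0 := by
    simp only [Matrix.mulVec, dotProduct]
    exact sum_eq_zero fun j _ => by rw [hM, Mv_row hv, zero_mul]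
  have hAS : Sym (shift S θ) := shift_sym hS.symm θ
  have hAS' : Sym (shift S' θ) := shift_sym hS'.symm θ
  -- same minor
  have hF2 : qf (shift S' θ) z0 = qf (shift S θ) z0 := by
    unfold qf
    simp only [Matrix.mulVec, dotProduct, mul_sum]
    refine sum_congr rfl fun i _ => sum_congr rfl fun j _ => ?_
    by_cases hi : i = v
    · subst hi; rw [hz0v]; ring
    · by_cases hj : j = v
      · subst hj; rw [hz0v]; ring
      · have h1 : S' i j = S i j := by
          have := congrFun (congrFun hm i) j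
          unfold minor at this
          simpa [hi, hj] using this
        unfold shift
        simp only [Matrix.sub_apply, h1]
  -- `A (M x) = x - _ e`
  have hF1 : ∀ i, i ≠ v → (shift S θ *ᵥ (M *ᵥ x)) i = x i := fun i hi => by
    rw [Matrix.mulVec_mulVec]
    simp only [Matrix.mulVec, dotProduct]
    rw [← Finset.sum_congr rfl (g := fun j => (shift S θ * M) i j * x j) (fun j _ => rfl)]
    have h1 : ∀ j, (shift S θ * M) i j * x j = (1 : Matrix V V ℝ) i j * x j := fun j => by
      rw [hM, shift_mul_Mv hinv, Matrix.one_apply_ne hi]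
      ring
    rw [sum_congr rfl fun j _ => h1 j, sum_eq_single i]
    · rw [Matrix.one_apply_eq, one_mul]
    · intro b _ hb
      rw [Matrix.one_apply_ne hb.symm, zero_mul]
    · intro h; exact absurd (mem_univ _) h
  have hF3 : ∀ y : V → ℝ, y v = 0 → y ⬝ᵥ (shift S θ *ᵥ (M *ᵥ x)) = y ⬝ᵥ x := fun y hy => by
    unfold dotProduct
    refine sum_congr rfl fun i _ => ?_
    by_cases hi : i = v
    · subst hi; rw [hy]; ring
    · rw [hF1 i hi]
  -- left side
  have hz : z = (1 : ℝ) • z0 + c • e := by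
    rw [hz0]
    ext i
    simp
  have hee : qf (shift S' θ) e = θ := by
    unfold qf
    rw [he]
    simp [shift, hS'.diag]
  have hze : z0 ⬝ᵥ (shift S' θ *ᵥ e) = - (z0 ⬝ᵥ x) := by
    rw [← dotProduct_neg]
    unfold dotProduct
    refine sum_congr rfl fun i _ => ?_
    by_cases hi : i = v
    · subst hi; rw [hz0v]; ring
    · rw [he, hx]
      simp [shift, hi, row]
  have hL : qf (shift S' θ) z = qf (shift S θ) z0 - 2 * c * (z0 ⬝ᵥ x) + c ^ 2 * θ := by
    rw [hz, qf_comb hAS', hF2, hee, hze]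
    ring
  have hR : qf (shift S θ) (z0 - c • (M *ᵥ x)) =
      qf (shift S θ) z0 - 2 * c * (z0 ⬝ᵥ x) + c ^ 2 * qf M x := by
    have h1 : z0 - c • (M *ᵥ x) = (1 : ℝ) • z0 + (-c) • (M *ᵥ x) := by
      ext i
      simp
      ring
    rw [h1, qf_comb hAS, hF3 z0 hz0v]
    have h2 : qf (shift S θ) (M *ᵥ x) = qf M x := by
      have h3 : qf (shift S θ) (M *ᵥ x) = (M *ᵥ x) ⬝ᵥ (shift S θ *ᵥ (M *ᵥ x)) := rfl
      rw [h3, hF3 _ huv, dotProduct_comm]
      rfl
    rw [h2]
    ring
  rw [hL, hR]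
  ring

end Pool.Agent.MP_9cec2c_lc.Flat
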