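import Pool.Agent.Lib.MP_9cec2c_lc.FM2

/-!
# FM3: stability of the top eigenvector under a change of one row (Lemma D)
-/

set_option autoImplicit false

open Matrix Finset

namespace Pool.Agent.MP_9cec2c_lc.Flat

variable {V : Type} [Fintype V] [DecidableEq V]

/-- matrices with the same minor have the same quadratic form on vectors with `z v = 0` -/
theorem qf_same_minor {S S' : Matrix V V ℝ} {v : V} (hm : minor S' v = minor S v) {z : V → ℝ}
    (hz : z v = 0) : qf S' z = qf S z := by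
  unfold qf
  simp only [Matrix.mulVec, dotProduct, mul_sum]
  refine sum_congr rfl fun i _ => sum_congr rfl fun j _ => ?_
  by_cases hi : i = v
  · subst hi; rw [hz]; ring
  · by_cases hj : j = v
    · subst hj; rw [hz]; ring
    · have h1 : S' i j = S i j := by
        have := congrFun (congrFun hm i) j
        unfold minor at this
        simpa [hi, hj] using this
      rw [h1]

/-- `φ = ψ' - ψ'_v e_v` has the same energy in `S` and `S'`: `lamMax S' (1 - 2 ψ'_v^2)`. -/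
theorem qf_cut {S S' : Matrix V V ℝ} (hS : IsSign S) (hS' : IsSign S') {v : V}
    (hm : minor S' v = minor S v) {ψ' : V → ℝ} {lam' : ℝ} (h : TP S' lam' ψ' 0) :
    qf S (ψ' - ψ' v • Pi.single v 1) = lam' * (1 - 2 * ψ' v ^ 2) ∧
    (ψ' - ψ' v • Pi.single v 1) ⬝ᵥ (ψ' - ψ' v • Pi.single v 1) = 1 - ψ' v ^ 2 := by
  have hv : (ψ' - ψ' v • (Pi.single v 1 : V → ℝ)) v = 0 := by simp
  have h1 : ψ' - ψ' v • (Pi.single v 1 : V → ℝ) = (1 : ℝ) • ψ' + (-ψ' v) • (Pi.single v 1 : V → ℝ) := by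
    ext i
    simp
    ring
  have hdot : ψ' ⬝ᵥ (Pi.single v 1 : V → ℝ) = ψ' v := by simp
  constructor
  · rw [← qf_same_minor hm hv, h1, qf_comb hS'.symm, h.qf_psi, dot_mulVec_comm hS'.symm, h.eig,
      smul_dotProduct, hdot]
    have h2 : qf S' (Pi.single v 1) = 0 := by
      unfold qf
      simp [hS'.diag]
    rw [h2]
    simp only [smul_eq_mul]
    ring
  · rw [sub_dotProduct, dotProduct_sub, dotProduct_sub, h.unit, smul_dotProduct, dotProduct_smul,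
      dotProduct_smul, smul_dotProduct, dotProduct_comm (Pi.single v 1) ψ', hdot]
    have h3 : (Pi.single v 1 : V → ℝ) ⬝ᵥ (Pi.single v 1 : V → ℝ) = 1 := by simp
    rw [h3]
    simp only [smul_eq_mul]
    ring

/-- `lamMax S (1 - ψ'_v^2) ≥ lamMax S' (1 - 2 ψ'_v^2)`, so `lamMax S' - lamMax S ≤ 10 P / n`. -/
theorem lamMax_sub_le [Nonempty V] {S S' : Matrix V V ℝ} {n K P δ : ℝ} (hp : Par V n K P δ)
    (hO : OO S n K P δ) (hO' : OO S' n K P δ) {v : V} (hm : minor S' v = minor S v) :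
    lamMax S' - lamMax S ≤ 10 * P / n := by
  obtain ⟨ψ', h'⟩ := exists_top hO'.sgn.symm
  have h1 := qf_le_lamMax S (ψ' - ψ' v • Pi.single v 1)
  obtain ⟨h2, h3⟩ := qf_cut hO.sgn hO'.sgn hm h'
  rw [h2, h3] at h1
  have hq := lemC hp hO' h' v
  have hn := hp.n0
  have hP : 0 ≤ P := by
    rw [hp.P_eq]; positivity
  have hl0 := lamMax_nonneg hO.sgn
  have hl0' := lamMax_nonneg hO'.sgn
  have hl' : lamMax S' ≤ 2.0001 * n := by
    refine hO'.top.trans ?_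
    have := hp.δ1
    nlinarith
  have hq0 : 0 ≤ ψ' v ^ 2 := sq_nonneg _
  -- lam' - lam ≤ 2 q lam'
  have h4 : lamMax S' - lamMax S ≤ 2 * ψ' v ^ 2 * lamMax S' := by nlinarith
  have h5 : 2 * ψ' v ^ 2 * lamMax S' ≤ 2 * (12 / 5 * P / n ^ 2) * (2.0001 * n) := by
    apply mul_le_mul _ hl' hl0' (by positivity)
    linarith
  have h6 : 2 * (12 / 5 * P / n ^ 2) * (2.0001 * n) = 9.60048 * (P / n) := by
    field_simp
    ring
  have h7 : 0 ≤ P / n := by positivity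
  have h8 : 10 * P / n = 10 * (P / n) := by ring
  rw [h8]
  linarith

/-- LEMMA D. Only the gap of `S` is used.
Proof. `φ = ψ' - ψ'_v e_v`: `qf S φ ≤ lam (φ·ψ)^2 + (lam - g)(|φ|^2 - (φ·ψ)^2)`, so
`g (|φ|^2 - (φ·ψ)^2) ≤ lam (1 - ψ'_v^2) - lam' (1 - 2 ψ'_v^2) ≤ 20 P / n`; `φ·ψ = ψ'·ψ - ψ'_v ψ_v`;
`|ψ·ψ'| ≥ |φ·ψ| - 2.4 P/n^2`, and `P/n^2 ≤ P / (20 g n)`. -/
theorem lemD [Nonempty V] {S S' : Matrix V V ℝ} {n K P δ : ℝ} (hp : Par V n K P δ)
    (hO : OO S n K P δ) (hO' : OO S' n K P δ) {v : V} (hm : minor S' v = minor S v)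
    {ψ ψ' : V → ℝ} {g : ℝ} (hg : 0 < g) (hgn : g ≤ n / 20) (h : TP S (lamMax S) ψ g)
    (h' : TP S' (lamMax S') ψ' 0) :
    1 - 21 * P / (g * n) ≤ (ψ ⬝ᵥ ψ') ^ 2 := by
  set φ : V → ℝ := ψ' - ψ' v • Pi.single v 1 with hφ
  obtain ⟨h2, h3⟩ := qf_cut hO.sgn hO'.sgn hm h'
  rw [← hφ] at h2 h3
  have h1 := h.qf_le hO.sgn.symm φ
  rw [h2, h3] at h1
  have h0 : TP S (lamMax S) ψ 0 := h.mono hg.le
  have hq := lemC hp hO' h' v
  have hq1 := lemC hp hO h0 v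
  have hn := hp.n0
  have hP : 0 ≤ P := by
    rw [hp.P_eq]; positivity
  have hl0 := lamMax_nonneg hO.sgn
  have hl0' := lamMax_nonneg hO'.sgn
  have hl' : lamMax S' ≤ 2.0001 * n := by
    refine hO'.top.trans ?_
    have := hp.δ1
    nlinarith
  have hD := lamMax_sub_le hp hO' hO hm.symm
  set β : ℝ := 12 / 5 * P / n ^ 2 with hβ
  have hβ0 : 0 ≤ β := by rw [hβ]; positivity
  have hβn : β * n = 12 / 5 * (P / n) := by
    rw [hβ]
    field_simp
  set q : ℝ := ψ' v ^ 2 with hqd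
  have hq0 : 0 ≤ q := sq_nonneg _
  -- g (1 - q - (φ·ψ)²) ≤ 20 P / n
  have h4 : g * (1 - q - (φ ⬝ᵥ ψ) ^ 2) ≤ (lamMax S - lamMax S') - lamMax S * q + 2 * q * lamMax S' := by
    linarith
  have h5 : q * lamMax S' ≤ β * (2.0001 * n) := mul_le_mul hq hl' hl0' hβ0
  have h6 : β * (2.0001 * n) = 2.0001 * (12 / 5 * (P / n)) := by
    rw [← hβn]; ring
  have h7 : 0 ≤ P / n := by positivity
  have h8 : 10 * P / n = 10 * (P / n) := by ring
  rw [h8] at hD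
  have h9 : g * (1 - q - (φ ⬝ᵥ ψ) ^ 2) ≤ 20 * (P / n) := by
    have : 0 ≤ lamMax S * q := mul_nonneg hl0 hq0
    linarith
  -- the scalar products
  have h10 : φ ⬝ᵥ ψ = ψ ⬝ᵥ ψ' - ψ v * ψ' v := by
    rw [hφ, sub_dotProduct, smul_dotProduct, dotProduct_comm ψ' ψ]
    simp only [smul_eq_mul]
    have : (Pi.single v 1 : V → ℝ) ⬝ᵥ ψ = ψ v := by simp
    rw [this]
    ring
  have h11 : |ψ v * ψ' v| ≤ β := by
    apply abs_le_of_sq_le_sq _ hβ0
    rw [mul_pow]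
    calc ψ v ^ 2 * ψ' v ^ 2 ≤ β * β := mul_le_mul hq1 hq (sq_nonneg _) hβ0
      _ = β ^ 2 := by ring
  have h12 : |φ ⬝ᵥ ψ| ≤ 1 := by
    apply abs_le_of_sq_le_sq _ zero_le_one
    have := dot_psi_sq_le h.unit φ
    rw [h3] at this
    linarith
  set c : ℝ := ψ ⬝ᵥ ψ' with hc
  set e : ℝ := ψ v * ψ' v with he
  have h13 : |(φ ⬝ᵥ ψ) * e| ≤ β := by
    rw [abs_mul]
    calc |φ ⬝ᵥ ψ| * |e| ≤ 1 * β := mul_le_mul h12 h11 (abs_nonneg _) zero_le_one
      _ = β := one_mul _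
  have h14 : c ^ 2 = (φ ⬝ᵥ ψ) ^ 2 + 2 * ((φ ⬝ᵥ ψ) * e) + e ^ 2 := by
    have : c = φ ⬝ᵥ ψ + e := by rw [h10]; ring
    rw [this]
    ring
  have h15 : (φ ⬝ᵥ ψ) ^ 2 - 2 * β ≤ c ^ 2 := by
    have := (abs_le.1 h13).1
    nlinarith [sq_nonneg e]
  have h16 : 1 - q - 20 * (P / n) / g ≤ (φ ⬝ᵥ ψ) ^ 2 := by
    have : 1 - q - (φ ⬝ᵥ ψ) ^ 2 ≤ 20 * (P / n) / g := by
      rw [le_div_iff₀ hg]
      linarith
    linarith
  -- β ≤ (12/100) P / (g n)
  have h17 : 3 * β ≤ P / (g * n) := by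
    have e1 : β = 12 / 5 * (P / n) / n := by
      rw [hβ]
      field_simp
    have e2 : P / (g * n) = (P / n) / g := by
      field_simp
    rw [e1, e2, le_div_iff₀ hg]
    have e3 : 3 * (12 / 5 * (P / n) / n) * g ≤ 3 * (12 / 5 * (P / n) / n) * (n / 20) :=
      mul_le_mul_of_nonneg_left hgn (by positivity)
    have e4 : 3 * (12 / 5 * (P / n) / n) * (n / 20) = 9 / 25 * (P / n) := by
      field_simp
      ring
    linarith
  have h18 : 21 * P / (g * n) = 20 * (P / n) / g + P / (g * n) := by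
    field_simp
    ring
  rw [h18]
  linarith

end Pool.Agent.MP_9cec2c_lc.Flat
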