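import Pool.Agent.Lib.MP_9cec2c_lc.FM3
import Pool.Agent.Lib.MP_9cec2c_lc.Mg.G002

/-!
# FM4: stability of the gap under a change of one row (Lemma E)
-/

set_option autoImplicit false

open Matrix Finset

namespace Pool.Agent.MP_9cec2c_lc.Flat

variable {V : Type} [Fintype V] [DecidableEq V]

theorem e4_sym_transpose {A : Matrix V V ℝ} (hA : Sym A) : A.transpose = A := by
  ext i j
  exact hA j i

theorem e4_sym_shift {S : Matrix V V ℝ} (hS : Sym S) (θ : ℝ) : Sym (shift S θ) := by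
  intro i j
  unfold shift
  simp only [Matrix.sub_apply, Matrix.smul_apply, Matrix.one_apply, eq_comm (a := i), hS i j]

theorem e4_shift_mulVec (S : Matrix V V ℝ) (θ : ℝ) (z : V → ℝ) :
    shift S θ *ᵥ z = θ • z - S *ᵥ z := by
  unfold shift
  rw [Matrix.sub_mulVec, Matrix.smul_mulVec, Matrix.one_mulVec]

theorem e4_dot_self_sum (w : V → ℝ) : w ⬝ᵥ w = ∑ v, w v ^ 2 := by
  simp only [dotProduct, sq]

theorem e4_qf_single (A : Matrix V V ℝ) (v : V) : qf A (Pi.single v 1) = A v v := by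
  unfold qf
  rw [single_dotProduct, one_mul, Matrix.mulVec_single_one]
  rfl

/-- The lower bound for the diagonal of `H`. -/
theorem e4_H_diag_lower {S : Matrix V V ℝ} (hS : IsSign S) {lam g θ y : ℝ} {ψ : V → ℝ}
    (h : TP S lam ψ g) (hy : 0 ≤ y) {H : Matrix V V ℝ} (hpos : PosBy y H)
    (hinv : shift S θ * H = 1 - rk1 ψ) (v : V) :
    (1 - ψ v ^ 2) ^ 2 ≤ H v v * (θ * (1 - ψ v ^ 2) + lam * ψ v ^ 2) := by
  have hsym := e4_sym_shift hS.symm θ
  have hinv2 : H * shift S θ = 1 - rk1 ψ := by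
    have h1 := congrArg Matrix.transpose hinv
    rw [Matrix.transpose_mul, e4_sym_transpose hpos.symm, e4_sym_transpose hsym] at h1
    rw [h1, Matrix.transpose_sub, Matrix.transpose_one]
    congr 1
    ext i j
    exact mul_comm _ _
  set e : V → ℝ := Pi.single v 1 with he
  set e' : V → ℝ := e - ψ v • ψ with he'
  have hee : e ⬝ᵥ e = 1 := by rw [he, dotProduct_single, mul_one, Pi.single_eq_same]
  have heψ : e ⬝ᵥ ψ = ψ v := by rw [he, single_dotProduct, one_mul]
  have hψe : ψ ⬝ᵥ e = ψ v := by rw [dotProduct_comm, heψ]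
  have hψe' : ψ ⬝ᵥ e' = 0 := by
    rw [he', dotProduct_sub, dotProduct_smul, hψe, h.unit, smul_eq_mul, mul_one, sub_self]
  have hrk : ∀ z : V → ℝ, rk1 ψ *ᵥ z = (ψ ⬝ᵥ z) • ψ := by
    intro z
    ext i
    simp only [rk1, Matrix.mulVec, dotProduct, Pi.smul_apply, smul_eq_mul, Finset.sum_mul]
    exact Finset.sum_congr rfl fun j _ => by ring
  have hHe' : H *ᵥ (shift S θ *ᵥ e') = e' := by
    rw [Matrix.mulVec_mulVec, hinv2, Matrix.sub_mulVec, Matrix.one_mulVec, hrk, hψe', zero_smul,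
      sub_zero]
  have hform : (shift S θ *ᵥ e') ⬝ᵥ e' = θ * (1 - ψ v ^ 2) + lam * ψ v ^ 2 := by
    have h1 : shift S θ *ᵥ ψ = (θ - lam) • ψ := by
      rw [e4_shift_mulVec, h.eig, sub_smul]
    have h2 : e ⬝ᵥ (shift S θ *ᵥ e) = θ := by
      have := e4_qf_single (shift S θ) v
      rw [qf] at this
      rw [he, this]
      unfold shift
      simp [hS.diag v]
    have h3 : shift S θ *ᵥ e' = shift S θ *ᵥ e - (ψ v * (θ - lam)) • ψ := by
      rw [he', Matrix.mulVec_sub, Matrix.mulVec_smul, h1, smul_smul]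
    rw [h3, sub_dotProduct, smul_dotProduct, hψe', smul_zero, sub_zero, he', dotProduct_sub,
      dotProduct_smul, dotProduct_comm _ e, h2, ← dot_mulVec_comm hsym, h1, dotProduct_smul, heψ]
    simp only [smul_eq_mul]
    ring
  have hcs := cauchy_form hpos.symm (fun φ => hpos.nonneg hy φ) e (shift S θ *ᵥ e')
  rw [hHe', he, e4_qf_single, ← he] at hcs
  have h4 : e ⬝ᵥ e' = 1 - ψ v ^ 2 := by
    rw [he', dotProduct_sub, dotProduct_smul, hee, heψ, smul_eq_mul]
    ring
  have h5 : qf H (shift S θ *ᵥ e') = θ * (1 - ψ v ^ 2) + lam * ψ v ^ 2 := by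
    unfold qf
    rw [hHe', hform]
  rw [h4, h5] at hcs
  exact hcs

/-- Column lengths of `G = H + c ψψ^t`. -/
theorem e4_colsq_add {G H : Matrix V V ℝ} {ψ : V → ℝ} {c : ℝ} (hH : Sym H) (h0 : H *ᵥ ψ = 0)
    (hψ : ψ ⬝ᵥ ψ = 1) (hG : ∀ i j, G i j = H i j + c * (ψ i * ψ j)) (v : V) :
    colsq G v = colsq H v + c ^ 2 * ψ v ^ 2 := by
  unfold colsq
  have h1 : ∑ i, H i v * ψ i = 0 := by
    have h2 := congrFun h0 v
    simp only [Matrix.mulVec, dotProduct, Pi.zero_apply] at h2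
    rw [← h2]
    exact Finset.sum_congr rfl fun i _ => by rw [hH i v]
  have h3 : ∀ i, G i v ^ 2 = H i v ^ 2 + (2 * c * ψ v) * (H i v * ψ i)
      + (c ^ 2 * ψ v ^ 2) * (ψ i * ψ i) := by
    intro i
    rw [hG i v]; ring
  rw [Finset.sum_congr rfl (fun i _ => h3 i), Finset.sum_add_distrib, Finset.sum_add_distrib,
    ← Finset.mul_sum, ← Finset.mul_sum, h1]
  have h4 : ∑ i, ψ i * ψ i = 1 := hψ
  rw [h4]
  ring

theorem e4_hs2_eq (G : Matrix V V ℝ) : hs2 G = ∑ v, colsq G v := by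
  unfold hs2 colsq
  exact Finset.sum_comm

theorem e4_hs2_add {G H : Matrix V V ℝ} {ψ : V → ℝ} {c : ℝ} (hH : Sym H) (h0 : H *ᵥ ψ = 0)
    (hψ : ψ ⬝ᵥ ψ = 1) (hG : ∀ i j, G i j = H i j + c * (ψ i * ψ j)) :
    hs2 G = hs2 H + c ^ 2 := by
  rw [e4_hs2_eq, e4_hs2_eq, Finset.sum_congr rfl (fun v _ => e4_colsq_add hH h0 hψ hG v),
    Finset.sum_add_distrib, ← Finset.mul_sum, ← e4_dot_self_sum, hψ, mul_one]

theorem e4_trace_add {G H : Matrix V V ℝ} {ψ : V → ℝ} {c : ℝ}
    (hψ : ψ ⬝ᵥ ψ = 1) (hG : ∀ i j, G i j = H i j + c * (ψ i * ψ j)) :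
    G.trace = H.trace + c := by
  unfold Matrix.trace
  have h1 : ∀ i, Matrix.diag G i = Matrix.diag H i + c * (ψ i * ψ i) := fun i => hG i i
  rw [Finset.sum_congr rfl (fun i _ => h1 i), Finset.sum_add_distrib, ← Finset.mul_sum]
  have h4 : ∑ i, ψ i * ψ i = 1 := hψ
  rw [h4, mul_one]

/-- Below the top eigenvalue and above the rest, the diagonal of the resolvent is still positive.
`θ` with `lam - g + y ≤ θ`, `y = P/n`, `lam - θ ≥ 100 P / n`, `θ > 0`; `H := G + (lam - θ)⁻¹ ψψ^t`, `y H² ≤ H`.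
(a) `e' = e_v - ψ_v ψ`: `|e'|^2 = 1 - ψ_v^2`, `qf (θ - S) e' = θ + ψ_v^2 (lam - θ) ≤ 2.01 n`, Cauchy-Schwarz
`|e'|^4 ≤ qf (θ - S) e' * qf H e'` (`e' = (θ-S) H e'`), `H_vv = qf H e' ≥ 0.49/n`,
`G_vv = H_vv - ψ_v^2/(lam - θ) ≥ 0.49/n - 0.024/n`.
(b) `colsq G v = colsq H v + ψ_v^2/(lam-θ)^2 ≤ 1.2 G_vv / y`; `hs2 G = hs2 H + (lam-θ)^(-2) ≤ (s + 0.02/y)/y`. -/
theorem below [Nonempty V] {S : Matrix V V ℝ} {n K P δ : ℝ} (hp : Par V n K P δ)
    (hO : OO S n K P δ) {ψ : V → ℝ} {g θ : ℝ} (h : TP S (lamMax S) ψ g) (hθ0 : 0 < θ)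
    (hθ1 : lamMax S - g + P / n ≤ θ) (hθ2 : θ + 100 * P / n ≤ lamMax S) :
    (∀ v, 2 / 5 / n ≤ rsv S θ v v ∧ colsq (rsv S θ) v / rsv S θ v v ≤ 6 / 5 * n / P) ∧
    hs2 (rsv S θ) ≤ ((rsv S θ).trace + 1 / 50 * n / P) * n / P := by
  have hn := hp.n0
  have hK := hp.K1
  have hP0 : 0 < P := by rw [hp.P_eq]; positivity
  have hPn := hp.Pn
  have hy : 0 < P / n := by positivity
  have hne : θ ≠ lamMax S := by
    intro hcon
    have : 0 < 100 * P / n := by positivity
    linarith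
  have hg : 0 ≤ g := by
    have : 0 < 100 * P / n := by positivity
    linarith
  obtain ⟨-, -, -, hH, hHψ, hpos⟩ := rsv_main hO.sgn.symm h hne hy hθ1
  set G := rsv S θ with hG
  set H := G - (θ - lamMax S)⁻¹ • rk1 ψ with hHdef
  set c := (θ - lamMax S)⁻¹ with hc
  have hGH : ∀ i j, G i j = H i j + c * (ψ i * ψ j) := by
    intro i j
    rw [hHdef]
    simp only [Matrix.sub_apply, Matrix.smul_apply, smul_eq_mul, rk1]
    ring
  have hdel : 100 * P / n ≤ lamMax S - θ := by linarith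
  have hdel0 : 0 < lamMax S - θ := lt_of_lt_of_le (by positivity) hdel
  -- `x = n / P = 1 / y`
  set x := n / P with hx
  have hx0 : 0 < x := by positivity
  have hxP : x * P = n := by rw [hx]; field_simp
  have hc1 : -c ≤ 1 / 100 * x := by
    have h1 : -c = 1 / (lamMax S - θ) := by
      rw [hc, ← inv_neg, neg_sub, one_div]
    have h2 : 1 / 100 * x = 1 / (100 * P / n) := by rw [hx]; field_simp
    rw [h1, h2]
    exact one_div_le_one_div_of_le (by positivity) hdel
  have hc0 : 0 < -c := by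
    have h1 : -c = 1 / (lamMax S - θ) := by
      rw [hc, ← inv_neg, neg_sub, one_div]
    rw [h1]
    positivity
  have hcsq : c ^ 2 ≤ (1 / 100 * x) * (-c) := by
    have h1 : c ^ 2 = (-c) * (-c) := by ring
    rw [h1]
    exact mul_le_mul_of_nonneg_right hc1 hc0.le
  have hyx : P / n * x = 1 := by rw [hx]; field_simp
  have hψ : ∀ v, ψ v ^ 2 ≤ 12 / 5 * P / n ^ 2 := fun v => lemC hp hO (h.mono hg) v
  -- bound for `-c ψ_v^2`
  have hcψ : ∀ v, -c * ψ v ^ 2 ≤ 3 / 125 / n := by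
    intro v
    have h1 : -c * ψ v ^ 2 ≤ (1 / 100 * x) * (12 / 5 * P / n ^ 2) :=
      mul_le_mul hc1 (hψ v) (sq_nonneg _) (by positivity)
    have h2 : (1 / 100 * x) * (12 / 5 * P / n ^ 2) = 3 / 125 / n := by
      rw [hx]; field_simp; norm_num
    rw [h2] at h1
    exact h1
  have hψ1 : ∀ v, ψ v ^ 2 ≤ 1 / 10 ^ 3 := by
    intro v
    refine (hψ v).trans ?_
    have h1 : 12 / 5 * P / n ^ 2 ≤ 12 / 5 * (n / 10 ^ 4) / n ^ 2 := by
      gcongr
      linarith
    have h2 : 12 / 5 * (n / 10 ^ 4) / n ^ 2 = 12 / 5 / 10 ^ 4 / n := by field_simp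
    have h3 : 1 ≤ n := by
      have h4 : (1 : ℝ) ≤ P := by
        rw [hp.P_eq]
        nlinarith
      nlinarith
    have h4 : (12 : ℝ) / 5 / 10 ^ 4 / n ≤ 12 / 5 / 10 ^ 4 / 1 := by
      gcongr
    rw [h2] at h1
    refine h1.trans (h4.trans (by norm_num))
  have hlam : lamMax S ≤ 20001 / 10000 * n := by
    have h1 := hO.top
    have h2 := hp.δ1
    have h3 : (2 + δ) * n ≤ (2 + 1 / 10 ^ 4) * n := mul_le_mul_of_nonneg_right (by linarith) hn.le
    have h4 : (2 + 1 / 10 ^ 4 : ℝ) * n = 20001 / 10000 * n := by ring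
    linarith
  have hHv : ∀ v, 49 / 100 / n ≤ H v v := by
    intro v
    have h1 := e4_H_diag_lower hO.sgn h hy.le hpos hH v
    have h2 : θ * (1 - ψ v ^ 2) + lamMax S * ψ v ^ 2 ≤ 20001 / 10000 * n := by
      have h3 := hψ1 v
      have h4 := sq_nonneg (ψ v)
      have h5 : θ * (1 - ψ v ^ 2) ≤ lamMax S * (1 - ψ v ^ 2) :=
        mul_le_mul_of_nonneg_right (by linarith) (by linarith)
      linarith
    have h3 : 0 ≤ H v v := hpos.diag_nonneg hy.le v
    have h4 : (1 - 1 / 10 ^ 3 : ℝ) ^ 2 ≤ (1 - ψ v ^ 2) ^ 2 := by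
      have h5 := hψ1 v
      gcongr
    have h5 : H v v * (θ * (1 - ψ v ^ 2) + lamMax S * ψ v ^ 2) ≤ H v v * (20001 / 10000 * n) :=
      mul_le_mul_of_nonneg_left h2 h3
    rw [div_le_iff₀ hn]
    norm_num at h4
    linarith
  have hGv : ∀ v, 2 / 5 / n ≤ G v v := by
    intro v
    have h1 := hHv v
    have h2 := hcψ v
    have h3 := hGH v v
    have h4 : c * (ψ v * ψ v) = - (-c * ψ v ^ 2) := by ring
    rw [h4] at h3
    have h5 : (49 / 100 / n : ℝ) = 49 / 100 * (1 / n) := by ring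
    have h6 : (3 / 125 / n : ℝ) = 3 / 125 * (1 / n) := by ring
    have h7 : (2 / 5 / n : ℝ) = 2 / 5 * (1 / n) := by ring
    have h8 : 0 < 1 / n := by positivity
    rw [h5] at h1
    rw [h6] at h2
    rw [h7, h3]
    linarith
  refine ⟨fun v => ⟨hGv v, ?_⟩, ?_⟩
  · have hG0 : 0 < G v v := lt_of_lt_of_le (by positivity) (hGv v)
    rw [div_le_iff₀ hG0, e4_colsq_add hpos.symm hHψ h.unit hGH v]
    have h1 := hpos.colsq_le v
    have h2 : colsq H v ≤ x * H v v := by
      have h3 := mul_le_mul_of_nonneg_left h1 hx0.le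
      have h4 : x * (P / n * colsq H v) = (P / n * x) * colsq H v := by ring
      rw [h4, hyx, one_mul] at h3
      exact h3
    have h3 : c ^ 2 * ψ v ^ 2 ≤ (1 / 100 * x) * (-c * ψ v ^ 2) := by
      have := mul_le_mul_of_nonneg_right hcsq (sq_nonneg (ψ v))
      linarith
    have h4 := hcψ v
    have h5 := hGH v v
    have h6 : c * (ψ v * ψ v) = - (-c * ψ v ^ 2) := by ring
    rw [h6] at h5
    have h7 : H v v = G v v + (-c * ψ v ^ 2) := by linarith
    have h8 : -c * ψ v ^ 2 ≤ 3 / 50 * G v v := by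
      have h9 := hGv v
      have h10 : (3 / 125 / n : ℝ) = 3 / 50 * (2 / 5 / n) := by ring
      rw [h10] at h4
      linarith
    have h9 : 6 / 5 * n / P * G v v = 6 / 5 * (x * G v v) := by rw [hx]; ring
    rw [h9]
    rw [h7] at h2
    have h10 : 0 < x * G v v := by positivity
    have h11 : x * (-c * ψ v ^ 2) ≤ x * (3 / 50 * G v v) := mul_le_mul_of_nonneg_left h8 hx0.le
    nlinarith
  · rw [e4_hs2_add hpos.symm hHψ h.unit hGH, e4_trace_add h.unit hGH]
    have h1 := hpos.hs_le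
    have h2 : hs2 H ≤ x * H.trace := by
      have h3 := mul_le_mul_of_nonneg_left h1 hx0.le
      have h4 : x * (P / n * hs2 H) = (P / n * x) * hs2 H := by ring
      rw [h4, hyx, one_mul] at h3
      exact h3
    have h3 : (H.trace + c + 1 / 50 * n / P) * n / P = (H.trace + c + 1 / 50 * x) * x := by
      rw [hx]; ring
    rw [h3]
    have h4 : (-c) * x ≤ (1 / 100 * x) * x := mul_le_mul_of_nonneg_right hc1 hx0.le
    have h5 : (1 / 100 * x) * (-c) ≤ (1 / 100 * x) * (1 / 100 * x) :=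
      mul_le_mul_of_nonneg_left hc1 (by positivity)
    nlinarith [mul_pos hx0 hx0]

/-- The error term is small and Lemma Q applies: `s ≤ 1.1 n`, and the neighbour has `T' < θ`. -/
theorem below_trace [Nonempty V] {S : Matrix V V ℝ} {n K P δ : ℝ} (hp : Par V n K P δ)
    (hO : OO S n K P δ) {ψ : V → ℝ} {g : ℝ} {k : ℕ} (h : TP S (lamMax S) ψ g)
    (hk : k ≤ 3 * Fintype.card V) (hθ0 : n ≤ k * (P / n))
    (hθ1 : lamMax S - g + P / n ≤ k * (P / n)) (hθ2 : k * (P / n) + 100 * P / n ≤ lamMax S) :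
    (rsv S (k * (P / n))).trace ≤ 11 / 10 * n ∧
    ∀ v, K * √(hs2 (rsv S (k * (P / n)))) + (K + 1) *
      (colsq (rsv S (k * (P / n))) v / rsv S (k * (P / n)) v v) + K / (k * (P / n)) ≤ 1 / 100 * n := by
  have hn := hp.n0
  have hK := hp.K1
  have hPeq := hp.P_eq
  have hP0 : 0 < P := by rw [hPeq]; positivity
  have hPn := hp.Pn
  have hy : 0 < P / n := by positivity
  have hconc := fun v => hO.conc v k hk
  set θ : ℝ := k * (P / n) with hθ
  have hθpos : 0 < θ := lt_of_lt_of_le hn hθ0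
  have hK2 : K ≤ K ^ 2 := by
    rw [sq]; exact le_mul_of_one_le_left (by linarith) hK
  have hKP : 10 ^ 6 * K ≤ P := by rw [hPeq]; linarith
  have hKn : 10 ^ 10 * K ≤ n := by linarith
  have hn1 : 1 ≤ n := by linarith
  have hPnn : P / n ≤ n := by
    rw [div_le_iff₀ hn]
    nlinarith
  have hne : θ ≠ lamMax S := by
    intro hcon
    have : 0 < 100 * P / n := by positivity
    linarith
  obtain ⟨hv, hhs⟩ := below hp hO h hθpos hθ1 hθ2
  obtain ⟨hinv, -, hsym, -, -, -⟩ := rsv_main hO.sgn.symm h hne hy hθ1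
  set G := rsv S θ with hG
  have hG0 : ∀ v, 0 < G v v := fun v => lt_of_lt_of_le (by positivity) (hv v).1
  have hhs0 : 0 ≤ hs2 G := Finset.sum_nonneg fun i _ => Finset.sum_nonneg fun j _ => sq_nonneg _
  have hstar := fun v => star hO.sgn hθpos hsym hinv (hG0 v) (by linarith : (0:ℝ) ≤ K) (hconc v)
  have hlam : lamMax S ≤ 20001 / 10000 * n := by
    have h1 := hO.top
    have h2 := hp.δ1
    have h3 : (2 + δ) * n ≤ (2 + 1 / 10 ^ 4) * n := mul_le_mul_of_nonneg_right (by linarith) hn.le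
    have h4 : (2 + 1 / 10 ^ 4 : ℝ) * n = 20001 / 10000 * n := by ring
    linarith
  have hθle : θ ≤ 20001 / 10000 * n := by
    have : 0 < 100 * P / n := by positivity
    linarith
  have hyp : P / n = (1000 * K) ^ 2 / n := by
    rw [hPeq]; congr 1; ring
  have hyinv : 1 / (P / n) = n / P := by field_simp
  have hself : ∀ v, |1 / G v v - (θ - G.trace)| ≤ 1 / 500 * n := by
    intro v
    have h1 : √(hs2 G) ^ 2 ≤ (G.trace + 2 / (P / n)) / (P / n) := by
      rw [Real.sq_sqrt hhs0]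
      have h2 : (G.trace + 2 / (P / n)) / (P / n) = (G.trace + 2 * (n / P)) * (n / P) := by
        rw [div_eq_mul_one_div _ (P / n), hyinv, div_eq_mul_one_div 2 (P / n), hyinv]
      have h3 : (G.trace + 1 / 50 * n / P) * n / P = (G.trace + 1 / 50 * (n / P)) * (n / P) := by
        ring
      rw [h2]
      rw [h3] at hhs
      have h4 : 0 < n / P := by positivity
      have h5 : (G.trace + 1 / 50 * (n / P)) * (n / P) ≤ (G.trace + 2 * (n / P)) * (n / P) :=
        mul_le_mul_of_nonneg_right (by linarith) h4.le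
      linarith
    have h2 : colsq G v ≤ 6 / 5 / (P / n) * G v v := by
      have h3 := (hv v).2
      rw [div_le_iff₀ (hG0 v)] at h3
      have h4 : 6 / 5 / (P / n) * G v v = 6 / 5 * n / P * G v v := by
        rw [div_eq_mul_one_div (6/5) (P / n), hyinv]; ring
      rw [h4]; exact h3
    have h3 := (self_bound (n := n) (p := 1000 * K) (K := K) (y := P / n) (t := θ) (s := G.trace)
      (h := √(hs2 G)) (g := G v v) (d := colsq G v) hn hK (by linarith) hyp
      (by linarith) (by linarith) (Real.sqrt_nonneg _) h1 (hG0 v) h2 (hstar v)).2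
    have h4 : 2 * K / (1000 * K) * n = 1 / 500 * n := by
      have : K ≠ 0 := by linarith
      field_simp
      norm_num
    rw [h4] at h3
    exact h3
  have htr : G.trace = ∑ u, G u u := rfl
  have hQ := lemQ hn hp.sq (g := fun v => G v v) hG0 (θ := θ) (ε := 1 / 500) (κ := 1 / 400)
    (by norm_num) (by norm_num) (by norm_num)
    (by
      have : (2 + 1 / 400 - 1 / 500 : ℝ) * n = 20005 / 10000 * n := by ring
      rw [this]
      linarith)
    (by rw [htr] at hself; exact hself)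
  obtain ⟨-, -, -, hQ4, -⟩ := hQ
  have htr2 : G.trace ≤ 11 / 10 * n := hQ4
  refine ⟨htr2, fun v => ?_⟩
  have h1 : √(hs2 G) ≤ 11 / 10 * (n / (1000 * K)) := by
    have hK0 : 0 < K := by linarith
    have h2 : hs2 G ≤ (11 / 10 * (n / (1000 * K))) ^ 2 := by
      refine hhs.trans ?_
      have h3 : (11 / 10 * (n / (1000 * K))) ^ 2 = 121 / 100 * n * (n / P) := by
        rw [hPeq]; field_simp; norm_num
      have h4 : (G.trace + 1 / 50 * n / P) * n / P = (G.trace + 1 / 50 * (n / P)) * (n / P) := by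
        ring
      rw [h3, h4]
      have h5 : 0 < n / P := by positivity
      have h6 : n / P ≤ n := by
        rw [div_le_iff₀ hP0]
        have : 1 ≤ P := by linarith
        exact le_mul_of_one_le_right hn.le this
      exact mul_le_mul_of_nonneg_right (by linarith) h5.le
    calc √(hs2 G) ≤ √((11 / 10 * (n / (1000 * K))) ^ 2) := Real.sqrt_le_sqrt h2
      _ = 11 / 10 * (n / (1000 * K)) := Real.sqrt_sq (by positivity)
  have h2 : K * √(hs2 G) ≤ 11 / 10000 * n := by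
    have h3 := mul_le_mul_of_nonneg_left h1 (by linarith : (0:ℝ) ≤ K)
    have h4 : K * (11 / 10 * (n / (1000 * K))) = 11 / 10000 * n := by
      have : K ≠ 0 := by linarith
      field_simp
      norm_num
    rw [h4] at h3
    exact h3
  have h3 : (K + 1) * (colsq G v / G v v) ≤ 1 / 1000 * n := by
    have h4 : (K + 1) * (colsq G v / G v v) ≤ (2 * K) * (6 / 5 * n / P) := by
      refine mul_le_mul (by linarith) (hv v).2 ?_ (by linarith)
      exact div_nonneg (Finset.sum_nonneg fun i _ => sq_nonneg _) (hG0 v).le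
    have h5 : (2 * K) * (6 / 5 * n / P) = 12 / 5 * (K / P) * n := by ring
    have h6 : K / P ≤ 1 / 10 ^ 6 := by
      rw [div_le_div_iff₀ hP0 (by norm_num)]
      linarith
    rw [h5] at h4
    refine h4.trans ?_
    exact mul_le_mul_of_nonneg_right (by linarith) hn.le
  have h4 : K / θ ≤ 1 / 1000 * n := by
    rw [div_le_iff₀ hθpos]
    have h5 : 1 / 1000 * n * n ≤ 1 / 1000 * n * θ :=
      mul_le_mul_of_nonneg_left hθ0 (by positivity)
    have h6 : K ≤ 1 / 1000 * n * n := by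
      have h7 : 1 / 1000 * n * 1 ≤ 1 / 1000 * n * n := mul_le_mul_of_nonneg_left hn1 (by positivity)
      linarith
    linarith
  linarith

/-- LEMMA E. Proof. `θ = k P / n` in the grid, `lam - g + y ≤ θ ≤ lam - g + 2y`. `T' ≤ 1.11 n < 1.9 n ≤ θ` by
`star'` and `below_trace`, so by `complete_square` `qf (θ - S') z ≥ 0` whenever
`(z - z_v e_v - z_v M x') · ψ = 0`. If `φ ⊥ ψ'` and `qf S' φ > θ |φ|^2`: some nonzero `z = a φ + b ψ'`
satisfies this, but `qf (θ - S') z = a^2 qf (θ - S') φ + b^2 (θ - lam') < 0`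
(`lam' ≥ lam - 10 P/n > θ`). So the gap of `S'` is at least `lam' - θ ≥ g - 12 P/n`. -/
theorem lemE [Nonempty V] {S S' : Matrix V V ℝ} {n K P δ : ℝ} (hp : Par V n K P δ)
    (hO : OO S n K P δ) (hO' : OO S' n K P δ) {v : V} (hm : minor S' v = minor S v)
    {ψ ψ' : V → ℝ} {g : ℝ} (hg : 102 * P / n ≤ g) (hgn : g ≤ n / 20) (h : TP S (lamMax S) ψ g)
    (h' : TP S' (lamMax S') ψ' 0) :
    TP S' (lamMax S') ψ' (g - 12 * P / n) := by
  have hn := hp.n0
  have hK := hp.K1
  have hPeq := hp.P_eq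
  have hP0 : 0 < P := by rw [hPeq]; positivity
  have hPn := hp.Pn
  have hy : 0 < P / n := by positivity
  have hlam0 := lamMax_ge hp hO
  have hlam : lamMax S ≤ 20001 / 10000 * n := by
    have h1 := hO.top
    have h2 := hp.δ1
    have h3 : (2 + δ) * n ≤ (2 + 1 / 10 ^ 4) * n := mul_le_mul_of_nonneg_right (by linarith) hn.le
    have h4 : (2 + 1 / 10 ^ 4 : ℝ) * n = 20001 / 10000 * n := by ring
    linarith
  have hyn : P / n ≤ 1 / 10 * n := by
    have hK2 : K ≤ K ^ 2 := by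
      rw [sq]; exact le_mul_of_one_le_left (by linarith) hK
    have hKP : 10 ^ 6 * K ≤ P := by rw [hPeq]; linarith
    have hn1 : 10 ≤ n := by linarith
    rw [div_le_iff₀ hn]
    nlinarith
  have h102 : 102 * P / n = 102 * (P / n) := by ring
  have h100 : 100 * P / n = 100 * (P / n) := by ring
  have h10 : 10 * P / n = 10 * (P / n) := by ring
  have h12 : 12 * P / n = 12 * (P / n) := by ring
  rw [h102] at hg
  obtain ⟨k, hk, hθ1, hθ3⟩ := exists_grid (V := V) hp (t := lamMax S - g + P / n) (P₁ := P)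
    (by linarith) (by linarith) le_rfl
  have hθ2 : (k : ℝ) * (P / n) + 100 * P / n ≤ lamMax S := by
    rw [h100]; linarith
  have hθ0 : n ≤ (k : ℝ) * (P / n) := by linarith
  have hconc := hO'.conc v k hk
  obtain ⟨htr, herr⟩ := below_trace hp hO h hk hθ0 hθ1 hθ2
  set θ : ℝ := k * (P / n) with hθ
  have hθpos : 0 < θ := lt_of_lt_of_le hn hθ0
  obtain ⟨hv, -⟩ := below hp hO h hθpos hθ1 hθ2
  have hne : θ ≠ lamMax S := by
    intro hcon
    have : 0 < 100 * P / n := by positivity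
    linarith
  obtain ⟨hinv, -, hsym, -, -, -⟩ := rsv_main hO.sgn.symm h hne hy hθ1
  set G := rsv S θ with hG
  have hG0 : 0 < G v v := lt_of_lt_of_le (by positivity) (hv v).1
  have hT : qf (Mv G v) (row S' v) ≤ 111 / 100 * n := by
    have h1 := star' hO.sgn hO'.sgn hm hθpos hsym hinv hG0 (by linarith : (0:ℝ) ≤ K) hconc
    have h2 := herr v
    linarith
  have hdiff : lamMax S - lamMax S' ≤ 10 * (P / n) := by
    have := lamMax_sub_le hp hO' hO hm.symm
    rw [h10] at this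
    exact this
  have hsq := fun z => complete_square (θ := θ) hO.sgn hO'.sgn hm hsym hinv hG0.ne' z
  -- positivity on the hyperplane
  set F : (V → ℝ) → ℝ := fun z => (z - z v • Pi.single v 1 - z v • (Mv G v *ᵥ row S' v)) ⬝ᵥ ψ with hF
  have hFlin : ∀ (a b : ℝ) (φ χ : V → ℝ), F (a • φ + b • χ) = a * F φ + b * F χ := by
    intro a b φ χ
    simp only [hF, sub_dotProduct, add_dotProduct, smul_dotProduct, Pi.add_apply, Pi.smul_apply,
      smul_eq_mul]
    ring
  have hpos : ∀ z : V → ℝ, F z = 0 → 0 ≤ qf (shift S' θ) z := by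
    intro z hz
    rw [hsq z]
    have h1 : 0 ≤ (θ - qf (Mv G v) (row S' v)) * z v ^ 2 :=
      mul_nonneg (by linarith) (sq_nonneg _)
    have h2 : 0 ≤ qf (shift S θ) (z - z v • Pi.single v 1 - z v • (Mv G v *ᵥ row S' v)) := by
      rw [qf_shift]
      have h3 := h.gap _ hz
      have h4 : 0 ≤ (z - z v • Pi.single v 1 - z v • (Mv G v *ᵥ row S' v)) ⬝ᵥ
          (z - z v • Pi.single v 1 - z v • (Mv G v *ᵥ row S' v)) := by
        rw [e4_dot_self_sum]
        exact Finset.sum_nonneg fun i _ => sq_nonneg _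
      have h5 : (lamMax S - g) * ((z - z v • Pi.single v 1 - z v • (Mv G v *ᵥ row S' v)) ⬝ᵥ
          (z - z v • Pi.single v 1 - z v • (Mv G v *ᵥ row S' v)))
          ≤ θ * ((z - z v • Pi.single v 1 - z v • (Mv G v *ᵥ row S' v)) ⬝ᵥ
          (z - z v • Pi.single v 1 - z v • (Mv G v *ᵥ row S' v))) :=
        mul_le_mul_of_nonneg_right (by linarith) h4
      linarith
    linarith
  have hψ'S : shift S' θ *ᵥ ψ' = (θ - lamMax S') • ψ' := by
    rw [e4_shift_mulVec, h'.eig, sub_smul]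
  have hθlt : θ < lamMax S' := by linarith
  have hqψ' : qf (shift S' θ) ψ' = θ - lamMax S' := by
    unfold qf
    rw [hψ'S, dotProduct_smul, h'.unit, smul_eq_mul, mul_one]
  have hFψ' : F ψ' ≠ 0 := by
    intro h0
    have := hpos ψ' h0
    rw [hqψ'] at this
    linarith
  refine ⟨h'.eig, h'.unit, fun φ hφ => ?_⟩
  by_contra hcon
  push Not at hcon
  have hφφ : 0 ≤ φ ⬝ᵥ φ := by
    rw [e4_dot_self_sum]
    exact Finset.sum_nonneg fun i _ => sq_nonneg _
  have hneg : qf (shift S' θ) φ < 0 := by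
    rw [qf_shift]
    have h1 : θ ≤ lamMax S' - (g - 12 * P / n) := by
      rw [h12]; linarith
    have h2 : θ * (φ ⬝ᵥ φ) ≤ (lamMax S' - (g - 12 * P / n)) * (φ ⬝ᵥ φ) :=
      mul_le_mul_of_nonneg_right h1 hφφ
    linarith
  have hz0 : F (F ψ' • φ + (-F φ) • ψ') = 0 := by
    rw [hFlin]; ring
  have hz := hpos _ hz0
  rw [qf_comb (e4_sym_shift hO'.sgn.symm θ), hψ'S, dotProduct_smul, hφ, smul_zero, mul_zero,
    add_zero, hqψ'] at hz
  have h1 : F ψ' ^ 2 * qf (shift S' θ) φ < 0 := mul_neg_of_pos_of_neg (by positivity) hneg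
  have h2 : (-F φ) ^ 2 * (θ - lamMax S') ≤ 0 :=
    mul_nonpos_of_nonneg_of_nonpos (sq_nonneg _) (by linarith)
  linarith

end Pool.Agent.MP_9cec2c_lc.Flat
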