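import Pool.Agent.Lib.MP_9cec2c_lc.FMFsum

/-!
FLAT, RMT2 section 8, the two scales: comparison of the traces of the resolvent at two points above
the spectrum; gain if the gap is small.
-/

set_option autoImplicit false

namespace Pool.Agent.MP_9cec2c_lc.Flat

open Finset Matrix

variable {N : ℕ}

/-- Orthonormal eigenbasis of a real symmetric matrix in plain coordinates: the columns of `U`. -/
theorem exists_eigen {S : Matrix (Fin N) (Fin N) ℝ} (hS : Sᵀ = S) :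
    ∃ (U : Matrix (Fin N) (Fin N) ℝ) (mu : Fin N → ℝ), U * Uᵀ = 1 ∧ Uᵀ * U = 1 ∧
      ∀ j, S *ᵥ (fun u => U u j) = mu j • (fun u => U u j) := by
  have hH : S.IsHermitian := by
    rw [Matrix.IsHermitian, conjTranspose_eq_transpose_of_trivial]
    exact hS
  refine ⟨(hH.eigenvectorUnitary : Matrix (Fin N) (Fin N) ℝ), hH.eigenvalues, ?_, ?_, ?_⟩
  · have h1 := mem_unitaryGroup_iff.1 hH.eigenvectorUnitary.2
    rwa [star_eq_conjTranspose, conjTranspose_eq_transpose_of_trivial] at h1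
  · have h1 := mem_unitaryGroup_iff'.1 hH.eigenvectorUnitary.2
    rwa [star_eq_conjTranspose, conjTranspose_eq_transpose_of_trivial] at h1
  · intro j
    have h1 := hH.mulVec_eigenvectorBasis j
    have h2 : (fun u => (hH.eigenvectorUnitary : Matrix (Fin N) (Fin N) ℝ) u j) =
        (hH.eigenvectorBasis j : Fin N → ℝ) := by
      funext u
      exact hH.eigenvectorUnitary_apply u j
    rw [h2]
    exact h1

section
variable {S : Matrix (Fin N) (Fin N) ℝ} {U : Matrix (Fin N) (Fin N) ℝ} {mu : Fin N → ℝ}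

/-- coordinates in the eigenbasis -/
theorem expand (hU : U * Uᵀ = 1) (w : Fin N → ℝ) : U *ᵥ (Uᵀ *ᵥ w) = w := by
  rw [mulVec_mulVec, hU, one_mulVec]

theorem coord_eq (w : Fin N → ℝ) (j : Fin N) : (Uᵀ *ᵥ w) j = (fun u => U u j) ⬝ᵥ w := rfl

theorem parseval (hU : U * Uᵀ = 1) (w : Fin N → ℝ) :
    w ⬝ᵥ w = ∑ j, (Uᵀ *ᵥ w) j ^ 2 := by
  conv_lhs => rw [← expand hU w]
  rw [← sq_eq_dot, expand hU w]
  conv_lhs => rw [← expand hU w]
  rw [dotProduct_mulVec, ← mulVec_transpose, expand hU w]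

theorem form_eigen (hS : Sᵀ = S) (hU : U * Uᵀ = 1)
    (hmu : ∀ j, S *ᵥ (fun u => U u j) = mu j • (fun u => U u j)) (w : Fin N → ℝ) :
    w ⬝ᵥ S *ᵥ w = ∑ j, mu j * (Uᵀ *ᵥ w) j ^ 2 := by
  have h1 : ∀ j, (Uᵀ *ᵥ (S *ᵥ w)) j = mu j * (Uᵀ *ᵥ w) j := by
    intro j
    rw [coord_eq, coord_eq, dotProduct_mulVec, ← mulVec_transpose, hS, hmu j, smul_dotProduct,
      smul_eq_mul]
  have h2 : w ⬝ᵥ S *ᵥ w = (Uᵀ *ᵥ w) ⬝ᵥ (Uᵀ *ᵥ (S *ᵥ w)) := by
    rw [dotProduct_mulVec (Uᵀ *ᵥ w) Uᵀ, vecMul_transpose, expand hU w]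
  rw [h2, dotProduct]
  apply sum_congr rfl
  intro j _
  rw [h1]
  ring

theorem mu_le (hUU : Uᵀ * U = 1) (hmu : ∀ j, S *ᵥ (fun u => U u j) = mu j • (fun u => U u j))
    {lam : ℝ} (htop : ∀ v, v ⬝ᵥ S *ᵥ v ≤ lam * (v ⬝ᵥ v)) (j : Fin N) : mu j ≤ lam := by
  have h1 : (fun u => U u j) ⬝ᵥ (fun u => U u j) = 1 := by
    have h2 : (Uᵀ * U) j j = 1 := by rw [hUU, one_apply_eq]
    rw [← h2, mul_apply]
    rfl
  have h3 := htop (fun u => U u j)
  rw [hmu j, dotProduct_smul, h1, smul_eq_mul, mul_one, mul_one] at h3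
  exact h3

theorem trace_res (hU : U * Uᵀ = 1) (hUU : Uᵀ * U = 1)
    (hmu : ∀ j, S *ᵥ (fun u => U u j) = mu j • (fun u => U u j))
    {lam t : ℝ} (htop : ∀ v, v ⬝ᵥ S *ᵥ v ≤ lam * (v ⬝ᵥ v)) (ht : lam < t) :
    ∑ u, ((t • (1 : Matrix (Fin N) (Fin N) ℝ) - S)⁻¹ u u) = ∑ j, 1 / (t - mu j) := by
  obtain ⟨G, hG⟩ : ∃ G, G = (t • (1 : Matrix (Fin N) (Fin N) ℝ) - S)⁻¹ := ⟨_, rfl⟩
  rw [← hG]
  have h1 : ∑ u, G u u = (Uᵀ * (G * U)).trace := by
    rw [trace_mul_comm, mul_assoc, hU, mul_one]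
    rfl
  rw [h1, trace]
  apply sum_congr rfl
  intro j _
  rw [diag_apply]
  have h2 : ∀ u, (G * U) u j = 1 / (t - mu j) * U u j := by
    intro u
    have h3 := inv_eigen ht htop (lt_of_le_of_lt (mu_le hUU hmu htop j) ht) (hmu j)
    rw [← hG] at h3
    have h4 := congrFun h3 u
    rw [Pi.smul_apply, smul_eq_mul] at h4
    rw [← h4]
    rfl
  rw [mul_apply]
  have h5 : ∑ u, Uᵀ j u * (G * U) u j = 1 / (t - mu j) * (Uᵀ * U) j j := by
    rw [mul_apply, mul_sum]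
    apply sum_congr rfl
    intro u _
    rw [h2 u]
    simp only [transpose_apply]
    ring
  rw [h5, hUU, one_apply_eq, mul_one]

end

/-- RMT2 section 8, two scales (F8b). -/
theorem trace_two_scales {S : Matrix (Fin N) (Fin N) ℝ} (hS : Sᵀ = S) {ψ : Fin N → ℝ} {lam : ℝ}
    (hψ1 : ψ ⬝ᵥ ψ = 1) (hψ : S *ᵥ ψ = lam • ψ) (htop : ∀ v, v ⬝ᵥ S *ᵥ v ≤ lam * (v ⬝ᵥ v))
    {t θ : ℝ} (ht : lam < t) (htθ : t ≤ θ) :
    (∑ u, ((θ • (1 : Matrix (Fin N) (Fin N) ℝ) - S)⁻¹ u u)) - 1 / (θ - lam) ≤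
      (∑ u, ((t • (1 : Matrix (Fin N) (Fin N) ℝ) - S)⁻¹ u u)) - 1 / (t - lam) ∧
    ∀ g : ℝ, 0 < g → (∃ w : Fin N → ℝ, ψ ⬝ᵥ w = 0 ∧ (lam - g) * (w ⬝ᵥ w) < w ⬝ᵥ S *ᵥ w) →
      (∑ u, ((θ • (1 : Matrix (Fin N) (Fin N) ℝ) - S)⁻¹ u u)) - 1 / (θ - lam)
        + (1 / (t - lam + g) - 1 / (θ - lam + g)) ≤
      (∑ u, ((t • (1 : Matrix (Fin N) (Fin N) ℝ) - S)⁻¹ u u)) - 1 / (t - lam) := by
  obtain ⟨U, mu, hU, hUU, hmu⟩ := exists_eigen hS
  have hle := mu_le hUU hmu htop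
  rw [trace_res hU hUU hmu htop ht, trace_res hU hUU hmu htop (ht.trans_le htθ)]
  have hfun : ∀ x, x ≤ lam → 0 ≤ 1 / (t - x) - 1 / (θ - x) := by
    intro x hx
    have h1 : 0 < t - x := by linarith
    have h2 := one_div_le_one_div_of_le h1 (by linarith : t - x ≤ θ - x)
    linarith
  have hmono : ∀ x x', x ≤ x' → x' ≤ lam →
      1 / (t - x) - 1 / (θ - x) ≤ 1 / (t - x') - 1 / (θ - x') := by
    intro x x' hxx hx'
    have h1 : 0 < t - x' := by linarith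
    have h2 : 0 < t - x := by linarith
    have h3 : 0 < θ - x' := by linarith
    have h4 : 0 < θ - x := by linarith
    have e1 : 1 / (t - x) - 1 / (θ - x) = (θ - t) / ((t - x) * (θ - x)) := by
      field_simp
      ring
    have e2 : 1 / (t - x') - 1 / (θ - x') = (θ - t) / ((t - x') * (θ - x')) := by
      field_simp
      ring
    rw [e1, e2]
    apply div_le_div_of_nonneg_left (by linarith) (by positivity)
    exact mul_le_mul (by linarith) (by linarith) h3.le h2.le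
  -- an index with a nonzero coordinate of ψ
  have hψc : ∀ j, (Uᵀ *ᵥ ψ) j ≠ 0 → mu j = lam := by
    intro j hj
    have h1 : (Uᵀ *ᵥ (S *ᵥ ψ)) j = mu j * (Uᵀ *ᵥ ψ) j := by
      rw [coord_eq, coord_eq, dotProduct_mulVec, ← mulVec_transpose, hS, hmu j, smul_dotProduct,
        smul_eq_mul]
    rw [hψ, mulVec_smul, Pi.smul_apply, smul_eq_mul] at h1
    exact (mul_right_cancel₀ hj h1).symm
  have hex : ∃ j, (Uᵀ *ᵥ ψ) j ≠ 0 := by
    by_contra hcon
    push Not at hcon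
    have h1 := parseval hU ψ
    rw [hψ1] at h1
    simp only [hcon] at h1
    norm_num at h1
  obtain ⟨j0, hj0⟩ := hex
  have hmu0 := hψc j0 hj0
  have hsum : (∑ j, 1 / (t - mu j)) - ∑ j, 1 / (θ - mu j) =
      ∑ j, (1 / (t - mu j) - 1 / (θ - mu j)) := by rw [sum_sub_distrib]
  have hterm : ∀ j, 0 ≤ 1 / (t - mu j) - 1 / (θ - mu j) := fun j => hfun _ (hle j)
  constructor
  · have h1 : 1 / (t - mu j0) - 1 / (θ - mu j0) ≤ ∑ j, (1 / (t - mu j) - 1 / (θ - mu j)) :=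
      single_le_sum (f := fun j => 1 / (t - mu j) - 1 / (θ - mu j)) (fun j _ => hterm j)
        (mem_univ j0)
    rw [hmu0] at h1
    linarith
  · rintro g hg ⟨w, hw1, hw2⟩
    have hex2 : ∃ j1, j1 ≠ j0 ∧ lam - g < mu j1 := by
      by_contra hcon
      push Not at hcon
      -- then `ψ` is a multiple of column `j0`
      have h1 : ∀ j, j ≠ j0 → (Uᵀ *ᵥ ψ) j = 0 := by
        intro j hj
        by_contra h2
        have h3 := hψc j h2
        have h4 := hcon j hj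
        linarith
      have h2 : (Uᵀ *ᵥ w) j0 = 0 := by
        have h3 : ψ ⬝ᵥ w = (Uᵀ *ᵥ ψ) ⬝ᵥ (Uᵀ *ᵥ w) := by
          rw [dotProduct_mulVec (Uᵀ *ᵥ ψ) Uᵀ, vecMul_transpose, expand hU ψ]
        rw [hw1, dotProduct, sum_eq_single j0 (fun j _ hj => by rw [h1 j hj, zero_mul])
          (fun h => absurd (mem_univ j0) h)] at h3
        rcases mul_eq_zero.1 h3.symm with h4 | h4
        · exact absurd h4 hj0
        · exact h4
      rw [form_eigen hS hU hmu w, parseval hU w, mul_sum] at hw2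
      have h5 : ∑ j, mu j * (Uᵀ *ᵥ w) j ^ 2 ≤ ∑ j, (lam - g) * (Uᵀ *ᵥ w) j ^ 2 := by
        apply sum_le_sum
        intro j _
        by_cases hj : j = j0
        · rw [hj, h2]
          simp
        · exact mul_le_mul_of_nonneg_right (hcon j hj) (sq_nonneg _)
      linarith
    obtain ⟨j1, hj1, hj1'⟩ := hex2
    have h1 : (1 / (t - mu j0) - 1 / (θ - mu j0)) + (1 / (t - mu j1) - 1 / (θ - mu j1)) ≤
        ∑ j, (1 / (t - mu j) - 1 / (θ - mu j)) := by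
      have h2 := sum_le_univ_sum_of_nonneg (s := {j0, j1})
        (f := fun j => 1 / (t - mu j) - 1 / (θ - mu j)) hterm
      rw [sum_pair hj1.symm] at h2
      exact h2
    have h2 := hmono (lam - g) (mu j1) hj1'.le (hle j1)
    rw [hmu0] at h1
    have e1 : t - (lam - g) = t - lam + g := by ring
    have e2 : θ - (lam - g) = θ - lam + g := by ring
    rw [e1, e2] at h2
    linarith

end Pool.Agent.MP_9cec2c_lc.Flat
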