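import Pool.Agent.Lib.MP_9cec2c_lc.FM2
import Pool.Agent.Lib.MP_9cec2c_lc.FLAvg
import Pool.Agent.Lib.MP_9cec2c_lc.FMFtr

/-!
# FM6: the probability of a small gap
-/

set_option autoImplicit false

open Matrix Finset

namespace Pool.Agent.MP_9cec2c_lc.Flat

/-- The number of configurations without the event `O`, divided by the number of all configurations. -/
noncomputable def badO (N : ℕ) (n K P δ : ℝ) : ℝ :=
  ({a : Cfg N | ¬ OO (Smat a) n K P δ}.ncard : ℝ) / 2 ^ Fintype.card (Edge N)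

/-- The lower bound for the sum of the second order remainders of the top eigenvalue. -/
theorem rem_lower {N : ℕ} (hN : 0 < N) {n K P δ P' Γ : ℝ} (hp : Par (Fin N) n K P δ)
    (hP' : 2 * P ≤ P') (hP'n : 10 ^ 4 * P' ≤ n) (hΓ : 0 < Γ) {a : Cfg N}
    (hO : OO (Smat a) n K P δ) {l : ℝ} {psi : Fin N → ℝ} (h : TopPair (Smat a) l 0 psi)
    {le : Edge N → ℝ} {pe : Edge N → Fin N → ℝ}
    (he : ∀ e, TopPair (Smat a + dl (Smat a) e.1.1 e.1.2) (le e) 0 (pe e)) :
    4 * n * (1 - 2 * √(δ + 2 * K / √P' + 2 * P' / n ^ 2) - 2 / P') - 100 ≤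
      ∑ e : Edge N, (le e - l - psi ⬝ᵥ dl (Smat a) e.1.1 e.1.2 *ᵥ psi) ∧
    ((¬ ∃ ψ, TP (Smat a) (lamMax (Smat a)) ψ (Γ / n)) →
      4 * n * (1 - 2 * √(δ + 2 * K / √P' + 2 * P' / n ^ 2) - 2 / P') - 100 + 4 * n / (2 * P + Γ) ≤
        ∑ e : Edge N, (le e - l - psi ⬝ᵥ dl (Smat a) e.1.1 e.1.2 *ᵥ psi)) := by
  have : Nonempty (Fin N) := ⟨⟨0, hN⟩⟩
  have hS := isSign_Smat a
  have hT := (topPair_iff _ _ _ _).1 h
  have hl : l = lamMax (Smat a) := hT.lam_eq hS.symm le_rfl
  subst hl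
  have hn := hp.n0
  have hn2 : n ^ 2 = N := by
    have := hp.sq
    rwa [Fintype.card_fin] at this
  have hP := hp.P_ge
  have hnge := hp.n_ge
  have hPpos : 0 < P := by linarith
  have hP'pos : 0 < P' := by linarith
  set y := P / n with hy
  have hypos : 0 < y := div_pos hPpos hn
  set lam := lamMax (Smat a) with hlam
  -- the upper end
  have hlam0 : 0 ≤ lam := lamMax_nonneg hS
  have hlam1 : lam ≤ (2 + δ) * n := hO.top
  have hPn : P' / n ≤ 1 / 10 ^ 4 := by
    rw [div_le_iff₀ hn]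
    linarith
  have hPn0 : 0 < P' / n := div_pos hP'pos hn
  obtain ⟨k, hk, hk1, hk2⟩ := exists_grid hp (t := lam + P' / n) (P₁ := P') (by positivity)
    (by
      have := hp.δ1
      nlinarith) (by linarith)
  have hA := lemA hp hO (P₁ := P') (by linarith) hP'n (k := k) hk1 (by
    have e : 2 * P' / n = P' / n + P' / n := by ring
    rw [e]
    linarith)
  obtain ⟨hA1, -, -⟩ := hA
  set θ : ℝ := k * (P / n) with hθ
  set s := (rsv (Smat a) θ).trace with hs
  set κ := δ + 2 * K / √P' + 2 * P' / n ^ 2 with hκ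
  have hs1 : n * (1 - 2 * √κ) ≤ s := by
    have := (abs_le.1 hA1).1
    nlinarith
  -- one flip, summed
  have hdiag : ∀ u, ((lam + 2 * y) • (1 : Matrix (Fin N) (Fin N) ℝ) - Smat a)⁻¹ u u ≤ 6 / 5 / n := by
    intro u
    exact (diag_le hp hO (θ := lam + 2 * y) (by rw [hy]; apply le_of_eq; ring) u).2
  have hD : ∀ u, psi u ^ 2 ≤ 12 / 5 * P / n ^ 2 := fun u => lemC hp hO hT u
  have hF := lemmaF_det (Smat_transpose a) (Smat_diag a) hS.sq hypos hT.unit hT.eig
    (fun v => qf_le_lamMax (Smat a) v) (by positivity) hdiag hD le (fun e v => by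
      have h1 := (he e).form_le (by
        rw [← Smat_flip]
        exact Smat_transpose _) le_rfl v
      exact h1)
  have hsum : ∑ e : Edge N, (le e - lam - psi ⬝ᵥ dl (Smat a) e.1.1 e.1.2 *ᵥ psi)
      = ∑ e : Edge N, (le e - lam) + 2 * lam := by
    rw [sum_sub_distrib, sum_first_order h]
    ring
  rw [hsum]
  -- error terms
  have herr : 8 * (6 / 5 / n) + 32 * (6 / 5 / n) ^ 2 * N + (8 * (6 / 5 / n) + 32 * (6 / 5 / n) ^ 2) / y
      * (2 * (12 / 5 * P / n ^ 2) * N) ≤ 100 := by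
    rw [← hn2, hy]
    have e1 : 32 * (6 / 5 / n) ^ 2 * n ^ 2 = 32 * (36 / 25) := by
      field_simp
      ring
    have e2 : (8 * (6 / 5 / n) + 32 * (6 / 5 / n) ^ 2) / (P / n) * (2 * (12 / 5 * P / n ^ 2) * n ^ 2)
        = (8 * (6 / 5) + 32 * (36 / 25) / n) * (24 / 5) := by
      field_simp
      ring
    rw [e1, e2]
    have e3 : 1 / n ≤ 1 / 1000 := one_div_le_one_div_of_le (by norm_num) (by linarith)
    have e4 : 6 / 5 / n = 6 / 5 * (1 / n) := by ring
    have e5 : 32 * (36 / 25) / n = 32 * (36 / 25) * (1 / n) := by ring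
    rw [e4, e5]
    nlinarith
  have hθlam : lam + P' / n ≤ θ := hk1
  have htθ : lam + 2 * y ≤ θ := by
    have : 2 * y ≤ P' / n := by
      rw [hy, ← mul_div_assoc]
      exact div_le_div_of_nonneg_right hP' hn.le
    linarith
  obtain ⟨hT1, hT2⟩ := trace_two_scales (Smat_transpose a) hT.unit hT.eig
    (fun v => qf_le_lamMax (Smat a) v) (t := lam + 2 * y) (θ := θ) (by linarith) htθ
  have htr : ∑ u, ((θ • (1 : Matrix (Fin N) (Fin N) ℝ) - Smat a)⁻¹ u u) = s := rfl
  rw [htr] at hT1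
  have hinv : 1 / (θ - lam) ≤ n / P' := by
    rw [div_le_div_iff₀ (by linarith) hP'pos]
    have : P' / n ≤ θ - lam := by linarith
    rw [div_le_iff₀ hn] at this
    linarith
  have ht2 : lam + 2 * y - lam = 2 * y := by ring
  rw [ht2] at hT1 hT2
  have hPP : n / P' = n * (1 / P') := by ring
  constructor
  · have e6 : 4 * n * (1 - 2 * √κ - 2 / P') = 4 * (n * (1 - 2 * √κ)) - 8 * (n / P') := by ring
    rw [e6]
    have : 0 < n / P' := div_pos hn hP'pos
    linarith
  · intro hno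
    have hw : ∃ w : Fin N → ℝ, psi ⬝ᵥ w = 0 ∧ (lam - Γ / n) * (w ⬝ᵥ w) < w ⬝ᵥ Smat a *ᵥ w := by
      by_contra hcon
      push Not at hcon
      refine hno ⟨psi, hT.eig, hT.unit, fun φ hφ => hcon φ ?_⟩
      rw [dotProduct_comm]
      exact hφ
    have hg : 0 < Γ / n := div_pos hΓ hn
    have h3 := hT2 (Γ / n) hg hw
    rw [htr] at h3
    have h4 : 1 / (2 * y + Γ / n) = n / (2 * P + Γ) := by
      rw [hy]
      field_simp
    have h5 : 1 / (θ - lam + Γ / n) ≤ n / P' := by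
      refine le_trans ?_ hinv
      exact one_div_le_one_div_of_le (by linarith) (by linarith)
    rw [h4] at h3
    have e6 : 4 * n * (1 - 2 * √κ - 2 / P') = 4 * (n * (1 - 2 * √κ)) - 8 * (n / P') := by ring
    have e7 : 4 * n / (2 * P + Γ) = 4 * (n / (2 * P + Γ)) := by ring
    rw [e6, e7]
    linarith

/-- LEMMA F, probability. -/
theorem prob_gap {N : ℕ} (hN : 0 < N) {n K P δ P' Γ : ℝ} (hp : Par (Fin N) n K P δ)
    (hP' : 2 * P ≤ P') (hP'n : 10 ^ 4 * P' ≤ n) (hΓ : 0 < Γ) :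
    ({a : Cfg N | OO (Smat a) n K P δ ∧ ¬ ∃ ψ, TP (Smat a) (lamMax (Smat a)) ψ (Γ / n)}.ncard : ℝ) /
        2 ^ Fintype.card (Edge N) ≤
      (2 * P + Γ) / 8 * (4 * δ + 16 * √(δ + 2 * K / √P' + 2 * P' / n ^ 2) + 16 / P' + 200 / n +
        badO N n K P δ * (4 * n + 8)) := by
  classical
  have : Nonempty (Fin N) := ⟨⟨0, hN⟩⟩
  have hn := hp.n0
  have hn2 : n ^ 2 = N := by
    have := hp.sq
    rwa [Fintype.card_fin] at this
  have hP := hp.P_ge
  have hnge := hp.n_ge
  have hPpos : 0 < P := by linarith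
  have hP'pos : 0 < P' := by linarith
  set κ := δ + 2 * K / √P' + 2 * P' / n ^ 2 with hκ
  set A : ℝ := 4 * n * (1 - 2 * √κ - 2 / P') - 100 with hA
  set B : ℝ := 4 * n / (2 * P + Γ) with hB
  set β := badO N n K P δ with hβ
  set C : ℝ := 2 ^ Fintype.card (Edge N) with hC
  have hCpos : 0 < C := by positivity
  have hcard : (Fintype.card (Cfg N) : ℝ) = C := by
    rw [card_cfg]
    push_cast
    rfl
  have hbad : ((univ.filter fun a : Cfg N => ¬ OO (Smat a) n K P δ).card : ℝ) = β * C := by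
    rw [hβ, badO, div_mul_cancel₀ _ hCpos.ne']
    congr 1
    rw [Set.ncard_eq_toFinset_card', Set.toFinset_ofPred]
  have hβ0 : 0 ≤ β := by
    rw [hβ, badO]
    positivity
  have hκ0 : 0 ≤ √κ := Real.sqrt_nonneg _
  have hA0 : 0 ≤ A := by
    have h1 : κ ≤ 1 / 400 := by
      have e1 : 2 * K / √P' ≤ 2 / 10 ^ 3 := by
        have h2 : 10 ^ 3 * K ≤ √P' := by
          apply Real.le_sqrt_of_sq_le
          have := hp.P_eq
          nlinarith
        have hK := hp.K1
        rw [div_le_div_iff₀ (by linarith) (by norm_num)]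
        linarith
      have e2 : 2 * P' / n ^ 2 ≤ 1 / 10 ^ 4 := by
        rw [div_le_div_iff₀ (by positivity) (by norm_num)]
        nlinarith
      have := hp.δ1
      rw [hκ]
      linarith
    have h2 : √κ ≤ 1 / 20 := by
      rw [show (1 / 20 : ℝ) = √((1 / 20) ^ 2) from (Real.sqrt_sq (by norm_num)).symm]
      exact Real.sqrt_le_sqrt (by linarith)
    have h3 : 2 / P' ≤ 1 / 10 := by
      rw [div_le_div_iff₀ hP'pos (by norm_num)]
      linarith
    have h4 : 4 / 5 ≤ 1 - 2 * √κ - 2 / P' := by linarith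
    rw [hA]
    nlinarith
  have hmain := count_small' hN (fun a => OO (Smat a) n K P δ)
    (fun a => ¬ ∃ ψ, TP (Smat a) (lamMax (Smat a)) ψ (Γ / n)) A B ((2 + δ) * n + β * n ^ 2) hA0
    (fun a l psi le pe hg h he => (rem_lower hN hp hP' hP'n hΓ hg h he).1)
    (fun a l psi le pe hg hs h he => (rem_lower hN hp hP' hP'n hΓ hg h he).2 hs)
    (fun lam hlam => by
      have h1 : ∀ a, lam a ≤ (2 + δ) * n + if ¬ OO (Smat a) n K P δ then n ^ 2 else 0 := by
        intro a
        obtain ⟨psi, hpsi⟩ := hlam a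
        have hl : lam a = lamMax (Smat a) :=
          ((topPair_iff _ _ _ _).1 hpsi).lam_eq (isSign_Smat a).symm le_rfl
        rw [hl]
        by_cases hO : OO (Smat a) n K P δ
        · rw [if_neg (not_not.2 hO), add_zero]
          exact hO.top
        · rw [if_pos hO, hn2]
          have h2 := lamMax_le_card (isSign_Smat a)
          rw [Fintype.card_fin] at h2
          have := hp.δ0
          have : 0 ≤ (2 + δ) * n := by positivity
          linarith
      calc ∑ a : Cfg N, lam a ≤ ∑ a : Cfg N, ((2 + δ) * n +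
            if ¬ OO (Smat a) n K P δ then n ^ 2 else 0) := sum_le_sum fun a _ => h1 a
        _ = ((2 + δ) * n + β * n ^ 2) * (Fintype.card (Cfg N) : ℝ) := by
            rw [sum_add_distrib, ← sum_filter, sum_const, sum_const, nsmul_eq_mul, nsmul_eq_mul, hbad,
              card_univ, hcard]
            ring)
  rw [hcard, hbad] at hmain
  have hcnt : ({a : Cfg N | OO (Smat a) n K P δ ∧
      ¬ ∃ ψ, TP (Smat a) (lamMax (Smat a)) ψ (Γ / n)}.ncard : ℝ)
      = ((univ.filter fun a : Cfg N => OO (Smat a) n K P δ ∧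
        ¬ ∃ ψ, TP (Smat a) (lamMax (Smat a)) ψ (Γ / n)).card : ℝ) := by
    congr 1
    rw [Set.ncard_eq_toFinset_card', Set.toFinset_ofPred]
  rw [hcnt, div_le_iff₀ hCpos]
  set X : ℝ := ((univ.filter fun a : Cfg N => OO (Smat a) n K P δ ∧
        ¬ ∃ ψ, TP (Smat a) (lamMax (Smat a)) ψ (Γ / n)).card : ℝ) with hX
  have hBpos : 0 < B := by
    rw [hB]
    positivity
  have hA4 : A ≤ 4 * n := by
    rw [hA]
    have : 0 ≤ n * √κ := by positivity
    have : 0 ≤ n * (2 / P') := by positivity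
    nlinarith
  have h5 : B * X ≤ (2 * δ * n + 2 * β * n ^ 2 + 8 * n * √κ + 8 * n / P' + 100 + 4 * n * β) * C := by
    have h6 : A * (β * C) ≤ 4 * n * (β * C) := mul_le_mul_of_nonneg_right hA4 (by positivity)
    have h7 : (2 * ((2 + δ) * n + β * n ^ 2) - A) * C
        = (2 * δ * n + 2 * β * n ^ 2 + 8 * n * √κ + 8 * n / P' + 100) * C := by
      rw [hA]
      ring
    rw [h7] at hmain
    linarith
  have h8 : X = B * X * ((2 * P + Γ) / (4 * n)) := by
    rw [hB]
    field_simp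
  rw [h8]
  calc B * X * ((2 * P + Γ) / (4 * n))
      ≤ (2 * δ * n + 2 * β * n ^ 2 + 8 * n * √κ + 8 * n / P' + 100 + 4 * n * β) * C
        * ((2 * P + Γ) / (4 * n)) := mul_le_mul_of_nonneg_right h5 (by positivity)
    _ = (2 * P + Γ) / 8 * (4 * δ + 16 * √κ + 16 / P' + 200 / n + β * (4 * n + 8)) * C := by
        field_simp
        ring

end Pool.Agent.MP_9cec2c_lc.Flat
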