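import Pool.Agent.Lib.MP_9cec2c_lc.FM0
import Pool.Agent.Lib.MP_9cec2c_lc.Mg.G001

/-!
# FM7: probability of the event (O2)
-/

set_option autoImplicit false

open Matrix Finset

namespace Pool.Agent.MP_9cec2c_lc.Flat

theorem minor_move {N : ℕ} (v : Fin N) (a : Cfg N) (A : Finset (Fin N)) :
    minor (Smat (a + mvRow v A)) v = minor (Smat a) v := by
  funext i j
  unfold minor
  by_cases h : i = v ∨ j = v
  · rw [if_pos h, if_pos h]
  · rw [if_neg h, if_neg h]
    push Not at h
    exact Smat_add_mvRow_off a v A i j h.1 h.2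

theorem rowForm_eq {N : ℕ} (v : Fin N) (B : Matrix (Fin N) (Fin N) ℝ) (a : Cfg N) :
    rowForm v B a = qf B (row (Smat a) v) - (B.trace - B v v) := by
  unfold rowForm qf row Matrix.trace
  congr 1
  · simp only [dotProduct, mulVec, mul_sum]
    refine sum_congr rfl fun u _ => sum_congr rfl fun w _ => ?_
    rw [Smat_symm a v u, Smat_symm a v w]
    ring
  · rw [← sum_erase_add _ _ (mem_univ v)]
    simp only [Matrix.diag_apply]
    ring

/-- For fixed `v`, `θ`. `rsv (minor S v) θ` does not depend on row `v`; resample row `v`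
(`a ↦ a + mvRow v A`, `A` a uniform subset): quadratic Rademacher chaos `∑_{i≠j} B_ij x_i x_j`
(`x_v = 0`, `x_i^2 = 1` for `i ≠ v`, so the diagonal part is `tr B - B_vv`), second moment at most `2 hs2 B`,
hypercontractivity with exponent `2q`: the frequency is at most `(2 (2q-1)^2 / K^2)^q ≤ (2/9)^q`. -/
theorem prob_conc {N : ℕ} (v : Fin N) (θ : ℝ) {q : ℕ} (hq : 1 ≤ q) {K : ℝ} (hK : 6 * q ≤ K) :
    ({a : Cfg N | ¬ Conc (Smat a) K v θ}.ncard : ℝ) ≤ (2 / 9) ^ q * 2 ^ Fintype.card (Edge N) := by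
  classical
  have h1 := row_tail v (fun a : Cfg N => rsv (minor (Smat a) v) θ) (fun a A => by
    show rsv (minor (Smat (a + mvRow v A)) v) θ = rsv (minor (Smat a) v) θ
    rw [minor_move]) (q := q) (by omega)
  rw [mul_comm]
  refine le_trans ?_ h1
  rw [← Set.ncard_coe_finset]
  have h2 : {a : Cfg N | ¬ Conc (Smat a) K v θ} ⊆ ((univ.filter fun a : Cfg N =>
      (6 * q : ℝ) ^ 2 * ∑ u, ∑ w, rsv (minor (Smat a) v) θ u w ^ 2 <
        rowForm v (rsv (minor (Smat a) v) θ) a ^ 2 : Finset (Cfg N)) : Set (Cfg N)) := by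
    intro a ha
    rw [mem_coe, mem_filter]
    refine ⟨mem_univ _, ?_⟩
    have h3 : ¬ Conc (Smat a) K v θ := ha
    unfold Conc hs2 at h3
    push Not at h3
    rw [rowForm_eq]
    refine lt_of_le_of_lt ?_ h3
    refine mul_le_mul_of_nonneg_right ?_ (sum_nonneg fun u _ => sum_nonneg fun w _ => sq_nonneg _)
    exact pow_le_pow_left₀ (by positivity) hK 2
  exact_mod_cast Set.ncard_le_ncard h2 (Finset.finite_toSet _)

end Pool.Agent.MP_9cec2c_lc.Flat
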