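import Pool.Agent.Lib.MP_9cec2c_lc.FM0
import Pool.Agent.Lib.MP_9cec2c_lc.Mg.G007

/-!
# FM8: probability of the event (O1): closed walks
-/

set_option autoImplicit false

open Matrix Finset

namespace Pool.Agent.MP_9cec2c_lc.Flat

/-- `T_2q ≤ 4^q N^(q+1) (1 + 10 q^3 / N)^q`. -/
theorem sum_trace_pow {N : ℕ} (hN : 0 < N) {q : ℕ} (hq : 1 ≤ q) :
    ∑ a : Cfg N, (Smat a ^ (2 * q)).trace ≤
      4 ^ q * (N : ℝ) ^ (q + 1) * (1 + 10 * (q : ℝ) ^ 3 / N) ^ q * 2 ^ Fintype.card (Edge N) := by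
  have h := sum_trace_pow_le N q hN
  have hc : (Fintype.card (Cfg N) : ℝ) = 2 ^ Fintype.card (Edge N) := by
    rw [card_cfg]; push_cast; rfl
  rw [hc] at h
  have h1 : (1 + 8 * (q : ℝ) ^ 3 / N) ^ q ≤ (1 + 10 * (q : ℝ) ^ 3 / N) ^ q := by
    apply pow_le_pow_left₀ (by positivity)
    gcongr
    norm_num
  calc ∑ a : Cfg N, (Smat a ^ (2 * q)).trace
      ≤ 2 ^ Fintype.card (Edge N) * (4 ^ q * (N : ℝ) ^ (q + 1) *
        (1 + 8 * (q : ℝ) ^ 3 / (N : ℝ)) ^ q) := h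
    _ ≤ 2 ^ Fintype.card (Edge N) * (4 ^ q * (N : ℝ) ^ (q + 1) *
        (1 + 10 * (q : ℝ) ^ 3 / (N : ℝ)) ^ q) := by gcongr
    _ = _ := by ring

/-- `lamMax^(2q) ≤ tr S^(2q)`. -/
theorem lamMax_pow_le {N : ℕ} (hN : 0 < N) (a : Cfg N) (q : ℕ) :
    lamMax (Smat a) ^ (2 * q) ≤ (Smat a ^ (2 * q)).trace := by
  have : Nonempty (Fin N) := ⟨⟨0, hN⟩⟩
  obtain ⟨ψ, hψ⟩ := exists_top (isSign_Smat a).symm
  obtain ⟨h1, h2, -⟩ := (topPair_iff _ _ _ _).2 hψ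
  exact eig_pow_le_trace (Smat a) (Smat_transpose a) _ ψ h1 h2 q

/-- (O1) fails with small frequency (Markov). -/
theorem prob_top {N : ℕ} (hN : 0 < N) {q : ℕ} (hq : 1 ≤ q) {n δ : ℝ} (hn : 0 < n)
    (hn2 : n ^ 2 = N) (hδ : 0 ≤ δ) :
    ({a : Cfg N | ¬ lamMax (Smat a) ≤ (2 + δ) * n}.ncard : ℝ) ≤
      (N : ℝ) * (1 + 10 * (q : ℝ) ^ 3 / N) ^ q / (1 + δ / 2) ^ (2 * q) * 2 ^ Fintype.card (Edge N) := by
  classical
  have hNr : (0 : ℝ) < N := by exact_mod_cast hN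
  have hsq : Real.sqrt N = n := by
    rw [← hn2]; exact Real.sqrt_sq hn.le
  have hc : (Fintype.card (Cfg N) : ℝ) = 2 ^ Fintype.card (Edge N) := by
    rw [card_cfg]; push_cast; rfl
  have h := card_trace_gt_le N q hN δ hδ
  rw [hc, hsq] at h
  have h1 : (1 + 8 * (q : ℝ) ^ 3 / N) ^ q ≤ (1 + 10 * (q : ℝ) ^ 3 / N) ^ q := by
    apply pow_le_pow_left₀ (by positivity)
    gcongr
    norm_num
  have hsub : {a : Cfg N | ¬ lamMax (Smat a) ≤ (2 + δ) * n} ⊆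
      (↑(Finset.univ.filter (fun a : Cfg N =>
        ((2 + δ) * n) ^ (2 * q) < ((Smat a) ^ (2 * q)).trace)) : Set (Cfg N)) := by
    intro a ha
    have ha : (2 + δ) * n < lamMax (Smat a) := not_le.1 ha
    rw [Finset.mem_coe, Finset.mem_filter]
    refine ⟨Finset.mem_univ _, lt_of_lt_of_le ?_ (lamMax_pow_le hN a q)⟩
    exact pow_lt_pow_left₀ ha (by positivity) (by omega)
  have h2 : ({a : Cfg N | ¬ lamMax (Smat a) ≤ (2 + δ) * n}.ncard : ℝ) ≤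
      ((Finset.univ.filter (fun a : Cfg N =>
        ((2 + δ) * n) ^ (2 * q) < ((Smat a) ^ (2 * q)).trace)).card : ℝ) := by
    have := Set.ncard_le_ncard hsub (Finset.finite_toSet _)
    rw [Set.ncard_coe_finset] at this
    exact_mod_cast this
  refine h2.trans (h.trans ?_)
  rw [div_eq_mul_inv (_ * _)]
  refine mul_le_mul_of_nonneg_right ?_ (by positivity)
  refine mul_le_mul_of_nonneg_right ?_ (by positivity)
  exact mul_le_mul_of_nonneg_left h1 hNr.le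

end Pool.Agent.MP_9cec2c_lc.Flat
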