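import Pool.Agent.Lib.MP_9cec2c_lc.Mg.G001

/-!
FLAT, FM9a: union bound over short lists of moves; chain of stability steps.
-/

namespace Pool.Agent.MP_9cec2c_lc.Flat

open Finset

/-- The configurations from which a list of at most `r` moves leads to `B`. -/
noncomputable def nearBad {N : ℕ} (B : Cfg N → Prop) (r : ℕ) : Finset (Cfg N) := by
  classical
  exact Finset.univ.filter (fun a => ∃ l : List (Cfg N), (∀ m ∈ l, IsMove m) ∧ l.length ≤ r ∧
    B (a + l.sum))

theorem mem_nearBad {N : ℕ} (B : Cfg N → Prop) (r : ℕ) (a : Cfg N) :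
    a ∈ nearBad B r ↔ ∃ l : List (Cfg N), (∀ m ∈ l, IsMove m) ∧ l.length ≤ r ∧
      B (a + l.sum) := by
  unfold nearBad
  simp

theorem nearBad_succ {N : ℕ} (B : Cfg N → Prop) (r : ℕ) :
    nearBad B (r + 1) ⊆ nearBad B r ∪
      (moves N).biUnion (fun m => (nearBad B r).image (fun b => b + m)) := by
  classical
  intro a ha
  rw [mem_nearBad] at ha
  obtain ⟨l, hl, hr, hB⟩ := ha
  rw [Finset.mem_union]
  cases l with
  | nil =>
    left
    rw [mem_nearBad]
    exact ⟨[], by simp, by simp, hB⟩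
  | cons m l' =>
    right
    rw [Finset.mem_biUnion]
    refine ⟨m, mem_moves m (hl m (by simp)), ?_⟩
    rw [Finset.mem_image]
    refine ⟨a + m, ?_, ?_⟩
    · rw [mem_nearBad]
      refine ⟨l', fun x hx => hl x (by simp [hx]), ?_, ?_⟩
      · simpa using hr
      · rw [List.sum_cons, ← add_assoc] at hB
        exact hB
    · show a + m + m = a
      rw [add_assoc, cfg_add_self, add_zero]

theorem card_nearBad {N : ℕ} (B : Cfg N → Prop) (r : ℕ) :
    (nearBad B r).card ≤ (2 * N * N + N + 1) ^ r * (nearBad B 0).card := by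
  classical
  induction r with
  | zero => simp
  | succ r ih =>
    calc (nearBad B (r + 1)).card
        ≤ (nearBad B r ∪
      (moves N).biUnion (fun m => (nearBad B r).image (fun b => b + m))).card :=
          Finset.card_le_card (nearBad_succ B r)
      _ ≤ (nearBad B r).card +
          ((moves N).biUnion (fun m => (nearBad B r).image (fun b => b + m))).card :=
          Finset.card_union_le _ _
      _ ≤ (nearBad B r).card + ∑ m ∈ moves N, ((nearBad B r).image (fun b => b + m)).card :=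
          Nat.add_le_add_left Finset.card_biUnion_le _
      _ ≤ (nearBad B r).card + ∑ m ∈ moves N, (nearBad B r).card :=
          Nat.add_le_add_left (Finset.sum_le_sum fun m _ => Finset.card_image_le) _
      _ = ((moves N).card + 1) * (nearBad B r).card := by
          rw [Finset.sum_const, smul_eq_mul]; ring
      _ ≤ (2 * N * N + N + 1) * ((2 * N * N + N + 1) ^ r * (nearBad B 0).card) :=
          Nat.mul_le_mul (Nat.add_le_add_right (card_moves N) 1) ih
      _ = (2 * N * N + N + 1) ^ (r + 1) * (nearBad B 0).card := by ring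

theorem nearBad_zero_mem {N : ℕ} (B : Cfg N → Prop) (a : Cfg N) :
    a ∈ nearBad B 0 ↔ B a := by
  rw [mem_nearBad]
  constructor
  · rintro ⟨l, _, h1, h2⟩
    have : l = [] := List.length_eq_zero_iff.1 (Nat.le_zero.1 h1)
    rw [this] at h2
    simpa using h2
  · intro h
    exact ⟨[], by simp, by simp, by simpa using h⟩

theorem TopPair.neg {N : ℕ} {S : Matrix (Fin N) (Fin N) ℝ} {l g : ℝ} {psi : Fin N → ℝ}
    (h : TopPair S l g psi) : TopPair S l g (fun v => - psi v) := by
  obtain ⟨h1, h2, h3⟩ := h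
  refine ⟨?_, ?_, ?_⟩
  · simpa using h1
  · intro u
    have := h2 u
    simp only [mul_neg, Finset.sum_neg_distrib]
    rw [this]
  · intro w hw
    apply h3 w
    simp only [neg_mul, Finset.sum_neg_distrib] at hw
    linarith

theorem TopPair.mono {N : ℕ} {S : Matrix (Fin N) (Fin N) ℝ} {l g g' : ℝ} {psi : Fin N → ℝ}
    (h : TopPair S l g psi) (hg : g' ≤ g) : TopPair S l g' psi := by
  obtain ⟨h1, h2, h3⟩ := h
  refine ⟨h1, h2, fun w hw => (h3 w hw).trans ?_⟩
  have : (0 : ℝ) ≤ ∑ v, w v ^ 2 := Finset.sum_nonneg fun v _ => sq_nonneg _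
  nlinarith

/-- Euclidean distance squared of two unit vectors. -/
theorem dist_sq_of_unit {N : ℕ} (x y : Fin N → ℝ) (hx : ∑ v, x v ^ 2 = 1)
    (hy : ∑ v, y v ^ 2 = 1) :
    ‖(WithLp.toLp 2 x : EuclideanSpace ℝ (Fin N)) - WithLp.toLp 2 y‖ ^ 2
      = 2 - 2 * ∑ v, x v * y v := by
  rw [EuclideanSpace.norm_sq_eq]
  have : ∀ v : Fin N, ‖((WithLp.toLp 2 x : EuclideanSpace ℝ (Fin N)) - WithLp.toLp 2 y) v‖ ^ 2
      = x v ^ 2 + y v ^ 2 - 2 * (x v * y v) := by
    intro v
    rw [Real.norm_eq_abs, sq_abs]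
    show (x v - y v) ^ 2 = _
    ring
  rw [Finset.sum_congr rfl fun v _ => this v, Finset.sum_sub_distrib, Finset.sum_add_distrib,
    hx, hy, ← Finset.mul_sum]
  ring

/-- One step: choose the sign of the next eigenvector. -/
theorem step_sign {N : ℕ} {S : Matrix (Fin N) (Fin N) ℝ} {l g : ℝ} {x y : Fin N → ℝ} {t : ℝ}
    (hx : ∑ v, x v ^ 2 = 1) (h : TopPair S l g y)
    (ht : 1 - t ≤ (∑ v, x v * y v) ^ 2) :
    ∃ z, TopPair S l g z ∧
      ‖(WithLp.toLp 2 x : EuclideanSpace ℝ (Fin N)) - WithLp.toLp 2 z‖ ^ 2 ≤ 2 * t := by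
  have key : 1 - t ≤ |∑ v, x v * y v| := by
    set s := |∑ v, x v * y v| with hs
    have h0 : 0 ≤ s := abs_nonneg _
    have h1 : 1 - t ≤ s ^ 2 := by rw [hs, sq_abs]; exact ht
    by_contra hc
    push Not at hc
    have h2 : s < 1 ∨ 1 ≤ s := lt_or_ge s 1
    rcases h2 with h2 | h2
    · have : s ^ 2 ≤ s := by nlinarith
      linarith
    · have : t < 0 := by linarith
      have hcs : (∑ v, x v * y v) ^ 2 ≤ 1 := by
        have := Finset.sum_mul_sq_le_sq_mul_sq Finset.univ x y
        rw [hx, h.1] at this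
        simpa using this
      linarith
  by_cases hpos : 0 ≤ ∑ v, x v * y v
  · refine ⟨y, h, ?_⟩
    rw [dist_sq_of_unit x y hx h.1]
    rw [abs_of_nonneg hpos] at key
    linarith
  · refine ⟨fun v => - y v, h.neg, ?_⟩
    rw [dist_sq_of_unit x _ hx h.neg.1]
    rw [abs_of_neg (not_le.1 hpos)] at key
    have : ∑ v, x v * -y v = - ∑ v, x v * y v := by
      simp [Finset.sum_neg_distrib]
    rw [this]
    linarith

/-- The chain of at most `L` stability steps. -/
theorem chain_gen {N : ℕ} (O : Cfg N → Prop) (L : ℕ) (g0 dg gmin t : ℝ)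
    (hdg : 0 ≤ dg) (hg : gmin + L * dg ≤ g0)
    (hE : ∀ (b m : Cfg N) (g : ℝ), IsMove m → O b → O (b + m) → gmin ≤ g - dg → g ≤ g0 →
      (∃ l psi, TopPair (Smat b) l g psi) → ∃ l psi, TopPair (Smat (b + m)) l (g - dg) psi)
    (hD : ∀ (b m : Cfg N) (l l' : ℝ) (psi psi' : Fin N → ℝ), IsMove m → O b → O (b + m) →
      TopPair (Smat b) l gmin psi → TopPair (Smat (b + m)) l' gmin psi' →
        1 - t ≤ (∑ v, psi v * psi' v) ^ 2)
    (a : Cfg N)
    (hO : ∀ l : List (Cfg N), (∀ m ∈ l, IsMove m) → l.length ≤ L → O (a + l.sum))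
    (la : ℝ) (psi0 : Fin N → ℝ) (h0 : TopPair (Smat a) la g0 psi0) :
    ∀ l : List (Cfg N), (∀ m ∈ l, IsMove m) → l.length ≤ L →
      ∃ (lb : ℝ) (psi : Fin N → ℝ), TopPair (Smat (a + l.sum)) lb (g0 - l.length * dg) psi ∧
        ‖(WithLp.toLp 2 psi0 : EuclideanSpace ℝ (Fin N)) - WithLp.toLp 2 psi‖
          ≤ l.length * Real.sqrt (2 * t) := by
  intro l
  induction l with
  | nil =>
    intro _ _
    exact ⟨la, psi0, by simpa using h0, by simp⟩
  | cons m l ih =>
    intro hm hl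
    have hm' : ∀ x ∈ l, IsMove x := fun x hx => hm x (by simp [hx])
    have hlen : l.length + 1 ≤ L := by simpa using hl
    have hl' : l.length ≤ L := by omega
    have hlenR : (l.length : ℝ) + 1 ≤ L := by exact_mod_cast hlen
    obtain ⟨lb, psi, hp, hd⟩ := ih hm' hl'
    have hOb := hO l hm' hl'
    have hOm : O (a + l.sum + m) := by
      have := hO (m :: l) hm hl
      rw [List.sum_cons, add_comm m, ← add_assoc] at this
      exact this
    have hmm : IsMove m := hm m (by simp)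
    have hlow : gmin ≤ g0 - l.length * dg - dg := by nlinarith
    obtain ⟨lc, y, hy⟩ := hE (a + l.sum) m (g0 - l.length * dg) hmm hOb hOm hlow
      (by have : (0 : ℝ) ≤ l.length * dg := by positivity
          linarith) ⟨lb, psi, hp⟩
    have h1 := hD (a + l.sum) m lb lc psi y hmm hOb hOm (hp.mono (by linarith)) (hy.mono hlow)
    obtain ⟨z, hz, hzd⟩ := step_sign hp.1 hy h1
    refine ⟨lc, z, ?_, ?_⟩
    · rw [List.sum_cons, add_comm m, ← add_assoc]
      have : g0 - (m :: l).length * dg = g0 - l.length * dg - dg := by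
        simp only [List.length_cons]; push_cast; ring
      rw [this]
      exact hz
    · have h2 : ‖(WithLp.toLp 2 psi : EuclideanSpace ℝ (Fin N)) - WithLp.toLp 2 z‖
          ≤ Real.sqrt (2 * t) := Real.le_sqrt_of_sq_le hzd
      have h3 : ‖(WithLp.toLp 2 psi0 : EuclideanSpace ℝ (Fin N)) - WithLp.toLp 2 z‖ ≤
          ‖(WithLp.toLp 2 psi0 : EuclideanSpace ℝ (Fin N)) - WithLp.toLp 2 psi‖ +
          ‖(WithLp.toLp 2 psi : EuclideanSpace ℝ (Fin N)) - WithLp.toLp 2 z‖ := by
        have := norm_sub_le_norm_sub_add_norm_sub (WithLp.toLp 2 psi0 : EuclideanSpace ℝ (Fin N))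
          (WithLp.toLp 2 psi) (WithLp.toLp 2 z)
        exact this
      simp only [List.length_cons]
      push_cast
      linarith

/-- From distance to inner product. -/
theorem inner_of_dist {N : ℕ} (x y : Fin N → ℝ) (hx : ∑ v, x v ^ 2 = 1)
    (hy : ∑ v, y v ^ 2 = 1) (r : ℝ) (hr : r ^ 2 ≤ 1 / 5)
    (h : ‖(WithLp.toLp 2 x : EuclideanSpace ℝ (Fin N)) - WithLp.toLp 2 y‖ ≤ r) :
    9 / 10 ≤ |∑ v, x v * y v| := by
  have h1 := dist_sq_of_unit x y hx hy
  have h0 := norm_nonneg ((WithLp.toLp 2 x : EuclideanSpace ℝ (Fin N)) - WithLp.toLp 2 y)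
  have h2 : ‖(WithLp.toLp 2 x : EuclideanSpace ℝ (Fin N)) - WithLp.toLp 2 y‖ ^ 2 ≤ 1 / 5 :=
    (pow_le_pow_left₀ h0 h 2).trans hr
  refine le_trans ?_ (le_abs_self _)
  linarith

end Pool.Agent.MP_9cec2c_lc.Flat
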