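import Pool.Agent.Lib.MP_9cec2c_lc.Mg.G006

/-!
FLAT, FM9c: the choice of the parameters; all numerical inequalities.
`K = 6 q`, `P = 10^6 K^2`, `Γ = 500 K P`, `δ = 1 / (1000 Γ^2)`, `P' = (2000 K Γ^2)^2`, `q' = 500 K Γ^2`.
-/

set_option autoImplicit false

namespace Pool.Agent.MP_9cec2c_lc.Flat

/-- The parameter `Γ` as a function of `K`. -/
def gamK (K : ℝ) : ℝ := 5 * 10 ^ 8 * K ^ 3

/-- Basic inequalities between the parameters. -/
theorem num_basic {K n : ℝ} (hK : 6 ≤ K) (hn : 10 ^ 50 * K ^ 15 ≤ n) :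
    0 < n ∧ 10 ^ 4 * (10 ^ 6 * K ^ 2) ≤ n ∧ 1 / (1000 * gamK K ^ 2) ≤ 1 / 10 ^ 4 ∧
    5 * 10 ^ 8 ≤ gamK K ∧ 10 ^ 40 * gamK K ≤ n ∧
    2 * (10 ^ 6 * K ^ 2) ≤ (2000 * K * gamK K ^ 2) ^ 2 ∧
    10 ^ 4 * (2000 * K * gamK K ^ 2) ^ 2 ≤ n ∧
    2000 * (2000 * K * gamK K ^ 2) ^ 2 * gamK K ^ 2 ≤ n ^ 2 ∧
    10 * (500 * K * gamK K ^ 2) ^ 4 ≤ n ^ 2 := by
  have hK1 : 1 ≤ K := by linarith
  have hK0 : 0 < K := by linarith
  have hn2 : 10 ^ 100 * K ^ 30 ≤ n ^ 2 := by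
    have := pow_le_pow_left₀ (by positivity : (0 : ℝ) ≤ 10 ^ 50 * K ^ 15) hn 2
    calc (10 : ℝ) ^ 100 * K ^ 30 = (10 ^ 50 * K ^ 15) ^ 2 := by ring
      _ ≤ n ^ 2 := this
  have h3 : 1 ≤ K ^ 3 := one_le_pow₀ hK1
  have hgam : 5 * 10 ^ 8 ≤ gamK K := by
    unfold gamK
    nlinarith
  refine ⟨lt_of_lt_of_le (by positivity) hn, ?_, ?_, hgam, ?_, ?_, ?_, ?_, ?_⟩
  · calc 10 ^ 4 * (10 ^ 6 * K ^ 2) = 10 ^ 10 * K ^ 2 := by ring
      _ ≤ 10 ^ 50 * K ^ 15 := by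
        apply mul_le_mul (by norm_num) (pow_le_pow_right₀ hK1 (by norm_num)) (by positivity)
          (by positivity)
      _ ≤ n := hn
  · apply one_div_le_one_div_of_le (by positivity)
    nlinarith
  · calc 10 ^ 40 * gamK K = (5 * 10 ^ 48) * K ^ 3 := by unfold gamK; ring
      _ ≤ 10 ^ 50 * K ^ 15 := by
        apply mul_le_mul (by norm_num) (pow_le_pow_right₀ hK1 (by norm_num)) (by positivity)
          (by positivity)
      _ ≤ n := hn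
  · calc 2 * (10 ^ 6 * K ^ 2) = (2 * 10 ^ 6) * K ^ 2 := by ring
      _ ≤ (25 * 10 ^ 40) * K ^ 14 := by
        apply mul_le_mul (by norm_num) (pow_le_pow_right₀ hK1 (by norm_num)) (by positivity)
          (by positivity)
      _ = (2000 * K * gamK K ^ 2) ^ 2 := by unfold gamK; ring
  · calc 10 ^ 4 * (2000 * K * gamK K ^ 2) ^ 2 = (25 * 10 ^ 44) * K ^ 14 := by unfold gamK; ring
      _ ≤ 10 ^ 50 * K ^ 15 := by
        apply mul_le_mul (by norm_num) (pow_le_pow_right₀ hK1 (by norm_num)) (by positivity)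
          (by positivity)
      _ ≤ n := hn
  · calc 2000 * (2000 * K * gamK K ^ 2) ^ 2 * gamK K ^ 2 = (125 * 10 ^ 60) * K ^ 20 := by
          unfold gamK; ring
      _ ≤ 10 ^ 100 * K ^ 30 := by
        apply mul_le_mul (by norm_num) (pow_le_pow_right₀ hK1 (by norm_num)) (by positivity)
          (by positivity)
      _ ≤ n ^ 2 := hn2
  · calc 10 * (500 * K * gamK K ^ 2) ^ 4 = (10 * (125 * 10 ^ 18) ^ 4) * K ^ 28 := by
          unfold gamK; ring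
      _ ≤ 10 ^ 100 * K ^ 30 := by
        apply mul_le_mul (by norm_num) (pow_le_pow_right₀ hK1 (by norm_num)) (by positivity)
          (by positivity)
      _ ≤ n ^ 2 := hn2

/-- The right side of `prob_gap` is at most `1/2`. -/
theorem num_gap {K n β : ℝ} (hK : 6 ≤ K) (hn : 10 ^ 50 * K ^ 15 ≤ n)
    (hβ : β * n ^ 2 ≤ 1 / 100) (hβ0 : 0 ≤ β) :
    (2 * (10 ^ 6 * K ^ 2) + gamK K) / 8 * (4 * (1 / (1000 * gamK K ^ 2)) +
      16 * √(1 / (1000 * gamK K ^ 2) + 2 * K / √((2000 * K * gamK K ^ 2) ^ 2) +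
        2 * (2000 * K * gamK K ^ 2) ^ 2 / n ^ 2) + 16 / (2000 * K * gamK K ^ 2) ^ 2 + 200 / n +
        β * (4 * n + 8)) ≤ 1 / 2 := by
  obtain ⟨hn0, -, -, hg, hgn, -, -, h8, -⟩ := num_basic hK hn
  have hK0 : 0 < K := by linarith
  obtain ⟨g, hgdef⟩ : ∃ g, g = gamK K := ⟨_, rfl⟩
  rw [← hgdef] at hg hgn h8 ⊢
  have hg0 : 0 < g := by linarith
  have hKg : 2 * (10 ^ 6 * K ^ 2) ≤ g / 10 := by
    rw [hgdef]
    unfold gamK
    nlinarith [pow_pos hK0 2]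
  have hA0 : 0 ≤ (2 * (10 ^ 6 * K ^ 2) + g) / 8 := by positivity
  have hA : (2 * (10 ^ 6 * K ^ 2) + g) / 8 ≤ g / 7 := by linarith
  have hsq : √((2000 * K * g ^ 2) ^ 2) = 2000 * K * g ^ 2 := Real.sqrt_sq (by positivity)
  rw [hsq]
  have h1 : 2 * K / (2000 * K * g ^ 2) = 1 / (1000 * g ^ 2) := by
    field_simp
    norm_num
  have h2 : 2 * (2000 * K * g ^ 2) ^ 2 / n ^ 2 ≤ 1 / (1000 * g ^ 2) := by
    rw [div_le_div_iff₀ (by positivity) (by positivity)]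
    linarith
  have h3 : √(1 / (1000 * g ^ 2) + 2 * K / (2000 * K * g ^ 2) +
        2 * (2000 * K * g ^ 2) ^ 2 / n ^ 2) ≤ 7 / 125 / g := by
    rw [h1]
    apply Real.sqrt_le_iff.2
    refine ⟨by positivity, ?_⟩
    have h4 : 1 / (1000 * g ^ 2) + 1 / (1000 * g ^ 2) + 1 / (1000 * g ^ 2) ≤ (7 / 125 / g) ^ 2 := by
      have e : 1 / (1000 * g ^ 2) = 1 / 1000 * (1 / g ^ 2) := by
        field_simp
      have e2 : (7 / 125 / g) ^ 2 = (7 / 125) ^ 2 * (1 / g ^ 2) := by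
        field_simp
      rw [e, e2]
      have : 0 < 1 / g ^ 2 := by positivity
      linarith
    linarith
  -- the five terms
  have t1 : g / 7 * (4 * (1 / (1000 * g ^ 2))) ≤ 1 / 100 := by
    have e : g / 7 * (4 * (1 / (1000 * g ^ 2))) = 4 / (7000 * g) := by
      field_simp
      norm_num
    rw [e, div_le_iff₀ (by positivity)]
    linarith
  have t2 : g / 7 * (16 * √(1 / (1000 * g ^ 2) + 2 * K / (2000 * K * g ^ 2) +
        2 * (2000 * K * g ^ 2) ^ 2 / n ^ 2)) ≤ 13 / 100 := by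
    have e : g / 7 * (16 * (7 / 125 / g)) = 16 / 125 := by
      field_simp
    calc g / 7 * (16 * √(1 / (1000 * g ^ 2) + 2 * K / (2000 * K * g ^ 2) +
        2 * (2000 * K * g ^ 2) ^ 2 / n ^ 2)) ≤ g / 7 * (16 * (7 / 125 / g)) := by
          apply mul_le_mul_of_nonneg_left _ (by positivity)
          linarith
      _ = 16 / 125 := e
      _ ≤ 13 / 100 := by norm_num
  have t3 : g / 7 * (16 / (2000 * K * g ^ 2) ^ 2) ≤ 1 / 100 := by
    have e : g / 7 * (16 / (2000 * K * g ^ 2) ^ 2) = 16 / (7 * (4 * 10 ^ 6) * K ^ 2 * g ^ 3) := by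
      field_simp
      ring
    rw [e, div_le_div_iff₀ (by positivity) (by norm_num)]
    have e1 : 1 ≤ K ^ 2 := one_le_pow₀ (by linarith)
    have e2 : 1 ≤ g ^ 3 := one_le_pow₀ (by linarith)
    have e3 : 1 ≤ K ^ 2 * g ^ 3 := one_le_mul_of_one_le_of_one_le e1 e2
    nlinarith
  have t4 : g / 7 * (200 / n) ≤ 1 / 100 := by
    rw [div_mul_div_comm, div_le_div_iff₀ (by positivity) (by norm_num)]
    nlinarith
  have t5 : g / 7 * (β * (4 * n + 8)) ≤ 1 / 100 := by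
    have e1 : g / 7 * (4 * n + 8) ≤ n ^ 2 := by
      have e2 : g ≤ n := by nlinarith
      have e3 : 8 ≤ n := by nlinarith
      nlinarith
    calc g / 7 * (β * (4 * n + 8)) = β * (g / 7 * (4 * n + 8)) := by ring
      _ ≤ β * n ^ 2 := mul_le_mul_of_nonneg_left e1 hβ0
      _ ≤ 1 / 100 := hβ
  obtain ⟨R, hR⟩ : ∃ R, R = √(1 / (1000 * g ^ 2) + 2 * K / (2000 * K * g ^ 2) +
        2 * (2000 * K * g ^ 2) ^ 2 / n ^ 2) := ⟨_, rfl⟩
  rw [← hR] at t2 ⊢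
  have hR0 : 0 ≤ R := by rw [hR]; exact Real.sqrt_nonneg _
  have hB : 0 ≤ 4 * (1 / (1000 * g ^ 2)) + 16 * R + 16 / (2000 * K * g ^ 2) ^ 2 + 200 / n +
        β * (4 * n + 8) := by positivity
  calc (2 * (10 ^ 6 * K ^ 2) + g) / 8 * (4 * (1 / (1000 * g ^ 2)) +
      16 * R + 16 / (2000 * K * g ^ 2) ^ 2 + 200 / n + β * (4 * n + 8))
      ≤ g / 7 * (4 * (1 / (1000 * g ^ 2)) +
      16 * R + 16 / (2000 * K * g ^ 2) ^ 2 + 200 / n + β * (4 * n + 8)) :=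
        mul_le_mul_of_nonneg_right hA hB
    _ = g / 7 * (4 * (1 / (1000 * g ^ 2))) + g / 7 * (16 * R) +
        g / 7 * (16 / (2000 * K * g ^ 2) ^ 2) + g / 7 * (200 / n) +
        g / 7 * (β * (4 * n + 8)) := by ring
    _ ≤ 1 / 2 := by linarith

/-- The right side of `badO_le`. -/
theorem num_bad {N q q' : ℕ} {K n : ℝ} (hq : 0 < q) (hKq : K = 6 * q)
    (hn : 10 ^ 50 * K ^ 15 ≤ n) (hnN : n ^ 2 = N) (hq' : (q' : ℝ) = 500 * K * gamK K ^ 2) :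
    (N : ℝ) * (3 * N + 1) * (2 / 9) ^ q +
      (N : ℝ) * (1 + 10 * (q' : ℝ) ^ 3 / N) ^ q' /
        (1 + 1 / (1000 * gamK K ^ 2) / 2) ^ (2 * q') ≤
      (N : ℝ) ^ 3 * Real.exp (-(3 / 2) * q) := by
  have hq1 : (1 : ℝ) ≤ q := by exact_mod_cast hq
  have hK : 6 ≤ K := by rw [hKq]; linarith
  obtain ⟨hn0, -, hδ, hg, hgn, -, -, -, h9⟩ := num_basic hK hn
  have hg0 : 0 < gamK K := by linarith
  have hN0 : (0 : ℝ) < N := by rw [← hnN]; positivity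
  have hn8 : 100 ≤ n := by nlinarith
  have hN8 : 100 ≤ (N : ℝ) := by rw [← hnN]; nlinarith
  have h1 : (2 / 9 : ℝ) ^ q ≤ Real.exp (-(3 / 2) * q) := tail_le q
  have h2 : (1 + 10 * (q' : ℝ) ^ 3 / N) ^ q' ≤ Real.exp 1 := by
    refine (one_add_pow_le_exp _ (by positivity) q').trans ?_
    apply Real.exp_le_exp.2
    rw [div_mul_eq_mul_div, div_le_one hN0]
    calc 10 * (q' : ℝ) ^ 3 * q' = 10 * (q' : ℝ) ^ 4 := by ring
      _ = 10 * (500 * K * gamK K ^ 2) ^ 4 := by rw [hq']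
      _ ≤ n ^ 2 := h9
      _ = N := hnN
  have h3 : 1 / (1 + 1 / (1000 * gamK K ^ 2) / 2) ^ (2 * q') ≤ Real.exp (-(3 / 2) * q) := by
    rw [one_div, ← inv_pow]
    refine (inv_one_add_pow_le _ (by positivity) (by linarith) (2 * q')).trans ?_
    apply Real.exp_le_exp.2
    push_cast
    rw [hq', hKq]
    apply le_of_eq
    have : gamK (6 * (q : ℝ)) ≠ 0 := by rw [← hKq]; exact hg0.ne'
    field_simp
    norm_num
  have hE : 0 < Real.exp (-(3 / 2) * q) := Real.exp_pos _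
  have he : Real.exp 1 ≤ 3 := by
    have := Real.exp_one_lt_d9
    linarith
  have h4 : (N : ℝ) * (1 + 10 * (q' : ℝ) ^ 3 / N) ^ q' /
        (1 + 1 / (1000 * gamK K ^ 2) / 2) ^ (2 * q') ≤ N * 3 * Real.exp (-(3 / 2) * q) := by
    calc (N : ℝ) * (1 + 10 * (q' : ℝ) ^ 3 / N) ^ q' /
        (1 + 1 / (1000 * gamK K ^ 2) / 2) ^ (2 * q')
        = (N : ℝ) * (1 + 10 * (q' : ℝ) ^ 3 / N) ^ q' *
          (1 / (1 + 1 / (1000 * gamK K ^ 2) / 2) ^ (2 * q')) := by rw [mul_one_div]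
      _ ≤ (N : ℝ) * 3 * Real.exp (-(3 / 2) * q) := by
        apply mul_le_mul _ h3 (by positivity) (by positivity)
        exact mul_le_mul_of_nonneg_left (h2.trans he) hN0.le
  have h5 : (N : ℝ) * (3 * N + 1) * (2 / 9) ^ q ≤
      (N : ℝ) * (3 * N + 1) * Real.exp (-(3 / 2) * q) :=
    mul_le_mul_of_nonneg_left h1 (by positivity)
  have h6 : (N : ℝ) * (3 * N + 1) + N * 3 ≤ (N : ℝ) ^ 3 := by nlinarith [mul_pos hN0 hN0]
  calc _ ≤ (N : ℝ) * (3 * N + 1) * Real.exp (-(3 / 2) * q) +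
        N * 3 * Real.exp (-(3 / 2) * q) := add_le_add h5 h4
    _ = ((N : ℝ) * (3 * N + 1) + N * 3) * Real.exp (-(3 / 2) * q) := by ring
    _ ≤ (N : ℝ) ^ 3 * Real.exp (-(3 / 2) * q) := mul_le_mul_of_nonneg_right h6 hE.le

theorem gamK_eq (K : ℝ) : gamK K = 500 * K * (10 ^ 6 * K ^ 2) := by
  unfold gamK
  ring

theorem num_chain1 {K L : ℝ} (hK : 6 ≤ K) (hLK : L ≤ K) :
    204 * (10 ^ 6 * K ^ 2) + 24 * L * (10 ^ 6 * K ^ 2) ≤ gamK K := by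
  have hK2 : 0 < 10 ^ 6 * K ^ 2 := by positivity
  rw [gamK_eq, ← add_mul]
  apply mul_le_mul_of_nonneg_right _ hK2.le
  linarith

theorem num_chain2 {K n : ℝ} (hK : 6 ≤ K) (hn : 10 ^ 50 * K ^ 15 ≤ n) :
    gamK K ≤ n ^ 2 / 20 ∧ 12 / 5 * (10 ^ 6 * K ^ 2) / n ^ 2 ≤ 1 / 100 := by
  obtain ⟨hn0, h1, -, hg, hgn, -, -, -, -⟩ := num_basic hK hn
  have h2 : 20 ≤ n := by linarith
  have h3 : n * 20 ≤ n * n := mul_le_mul_of_nonneg_left h2 hn0.le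
  have h4 : n ^ 2 = n * n := by ring
  refine ⟨by rw [h4]; linarith, ?_⟩
  rw [div_le_div_iff₀ (by positivity) (by norm_num), h4]
  linarith

theorem num_chain3 {K n l : ℝ} (hK : 6 ≤ K) (hn0 : 0 < n) (hl : l ≤ K) :
    12 * l * (10 ^ 6 * K ^ 2) / n ≤ gamK K / n / 2 := by
  have hK2 : 0 < 10 ^ 6 * K ^ 2 := by positivity
  have h1 : 12 * l * (10 ^ 6 * K ^ 2) ≤ gamK K / 2 := by
    rw [gamK_eq]
    have : 12 * l * (10 ^ 6 * K ^ 2) ≤ 250 * K * (10 ^ 6 * K ^ 2) := by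
      apply mul_le_mul_of_nonneg_right _ hK2.le
      linarith
    linarith
  calc 12 * l * (10 ^ 6 * K ^ 2) / n ≤ gamK K / 2 / n := div_le_div_of_nonneg_right h1 hn0.le
    _ = gamK K / n / 2 := by rw [div_right_comm]

theorem num_chain4 {K l2 : ℝ} (hK : 6 ≤ K) (hl : l2 ≤ K) :
    l2 * (42 * (10 ^ 6 * K ^ 2) / gamK K) ≤ 1 / 10 := by
  have hK2 : 0 < 10 ^ 6 * K ^ 2 := by positivity
  have hg0 : 0 < gamK K := by rw [gamK_eq]; positivity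
  rw [← mul_div_assoc, div_le_iff₀ hg0, gamK_eq]
  calc l2 * (42 * (10 ^ 6 * K ^ 2)) = 42 * l2 * (10 ^ 6 * K ^ 2) := by ring
    _ ≤ 50 * K * (10 ^ 6 * K ^ 2) := by
      apply mul_le_mul_of_nonneg_right _ hK2.le
      linarith
    _ = 1 / 10 * (500 * K * (10 ^ 6 * K ^ 2)) := by ring

theorem le_of_sq_le_num {K L : ℝ} (hK : 6 ≤ K) (h : L ^ 2 ≤ K) : L ≤ K := by
  by_contra hc
  have hc' : K < L := not_le.1 hc
  nlinarith

theorem num_N1 {N : ℝ} (hN : 2 ≤ N) : N ^ 3 * (N ^ 20)⁻¹ ≤ 1 / 4 := by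
  have h0 : 0 < N := by linarith
  rw [← div_eq_mul_inv, div_le_div_iff₀ (by positivity) (by norm_num)]
  calc N ^ 3 * 4 ≤ N ^ 3 * N ^ 17 := by
        apply mul_le_mul_of_nonneg_left _ (by positivity)
        calc (4 : ℝ) ≤ 2 ^ 17 := by norm_num
          _ ≤ N ^ 17 := pow_le_pow_left₀ (by norm_num) hN 17
    _ = 1 * N ^ 20 := by ring

theorem num_N2 {N : ℝ} (hN : 2 ≤ N) : N ^ 3 * (N ^ 20)⁻¹ * N ≤ 1 / 100 := by
  have h0 : 0 < N := by linarith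
  have e : N ^ 3 * (N ^ 20)⁻¹ * N = N ^ 4 / N ^ 20 := by
    rw [div_eq_mul_inv]; ring
  rw [e, div_le_div_iff₀ (by positivity) (by norm_num)]
  calc N ^ 4 * 100 ≤ N ^ 4 * N ^ 16 := by
        apply mul_le_mul_of_nonneg_left _ (by positivity)
        calc (100 : ℝ) ≤ 2 ^ 16 := by norm_num
          _ ≤ N ^ 16 := pow_le_pow_left₀ (by norm_num) hN 16
    _ = 1 * N ^ 20 := by ring

end Pool.Agent.MP_9cec2c_lc.Flat
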