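import Pool.Agent.Lib.MP_9cec2c_lc.FM4
import Pool.Agent.Lib.MP_9cec2c_lc.FM6
import Pool.Agent.Lib.MP_9cec2c_lc.FM7
import Pool.Agent.Lib.MP_9cec2c_lc.FM8
import Pool.Agent.Lib.MP_9cec2c_lc.FM9a
import Pool.Agent.Lib.MP_9cec2c_lc.Mg.G006
import Pool.Agent.Lib.MP_9cec2c_lc.FM9c

/-!
# FM9: good sets, numbers, main theorem of the random matrix part
-/

set_option autoImplicit false

open Matrix Finset

namespace Pool.Agent.MP_9cec2c_lc.Flat

/-- A move changes one row only: the minors agree. -/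
theorem minor_add_mvRow {N : ℕ} (a : Cfg N) (v : Fin N) (A : Finset (Fin N)) :
    minor (Smat (a + mvRow v A)) v = minor (Smat a) v := by
  ext i j
  unfold minor
  by_cases h : i = v ∨ j = v
  · rw [if_pos h, if_pos h]
  · rw [if_neg h, if_neg h]
    rw [not_or] at h
    exact Smat_add_mvRow_off a v A i j h.1 h.2

/-- Union bound for the event `O`. -/
theorem badO_le {N : ℕ} (hN : 0 < N) {n K P δ : ℝ} (hp : Par (Fin N) n K P δ) {q q' : ℕ} (hq : 1 ≤ q)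
    (hK : 6 * q ≤ K) (hq' : 1 ≤ q') :
    badO N n K P δ ≤ (N : ℝ) * (3 * N + 1) * (2 / 9) ^ q +
      (N : ℝ) * (1 + 10 * (q' : ℝ) ^ 3 / N) ^ q' / (1 + δ / 2) ^ (2 * q') := by
  have hn2 : n ^ 2 = (N : ℝ) := by
    have := hp.sq
    rwa [Fintype.card_fin] at this
  have hsub : {a : Cfg N | ¬ OO (Smat a) n K P δ} ⊆
      {a : Cfg N | ¬ lamMax (Smat a) ≤ (2 + δ) * n} ∪
      ⋃ p ∈ (Finset.univ : Finset (Fin N)) ×ˢ Finset.range (3 * N + 1),
        {a : Cfg N | ¬ Conc (Smat a) K p.1 (p.2 * (P / n))} := by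
    intro a ha
    by_contra hc
    rw [Set.mem_union, not_or] at hc
    obtain ⟨hc1, hc2⟩ := hc
    apply ha
    refine ⟨isSign_Smat a, ?_, ?_⟩
    · by_contra h
      exact hc1 h
    · intro v k hk
      by_contra h
      apply hc2
      rw [Fintype.card_fin] at hk
      simp only [Set.mem_iUnion]
      exact ⟨(v, k), Finset.mem_product.2 ⟨Finset.mem_univ _, Finset.mem_range.2 (by omega)⟩, h⟩
  have hfin : ∀ s : Set (Cfg N), s.Finite := fun s => Set.toFinite s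
  have h1 : ({a : Cfg N | ¬ OO (Smat a) n K P δ}.ncard : ℝ) ≤
      ({a : Cfg N | ¬ lamMax (Smat a) ≤ (2 + δ) * n}.ncard : ℝ) +
      ∑ p ∈ (Finset.univ : Finset (Fin N)) ×ˢ Finset.range (3 * N + 1),
        ({a : Cfg N | ¬ Conc (Smat a) K p.1 (p.2 * (P / n))}.ncard : ℝ) := by
    have h2 := (Set.ncard_le_ncard hsub (hfin _)).trans (Set.ncard_union_le _ _)
    have h3 := h2.trans (Nat.add_le_add_left (Finset.set_ncard_biUnion_le _ _) _)
    exact_mod_cast h3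
  have h4 : ∑ p ∈ (Finset.univ : Finset (Fin N)) ×ˢ Finset.range (3 * N + 1),
        ({a : Cfg N | ¬ Conc (Smat a) K p.1 (p.2 * (P / n))}.ncard : ℝ) ≤
        (N : ℝ) * (3 * N + 1) * ((2 / 9) ^ q * 2 ^ Fintype.card (Edge N)) := by
    refine (Finset.sum_le_sum fun p _ => prob_conc p.1 (p.2 * (P / n)) hq hK).trans ?_
    rw [Finset.sum_const, Finset.card_product, Finset.card_univ, Fintype.card_fin,
      Finset.card_range, nsmul_eq_mul]
    push_cast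
    exact le_refl _
  have h5 := prob_top hN hq' hp.n0 hn2 hp.δ0 (q := q')
  unfold badO
  rw [div_le_iff₀ (by positivity)]
  refine h1.trans ((add_le_add h5 h4).trans (le_of_eq ?_))
  ring

/-- Configurations such that `O` holds after all sequences of at most `r` moves. -/
def Nice (N : ℕ) (n K P δ : ℝ) (r : ℕ) : Set (Cfg N) :=
  {a | ∀ l : List (Cfg N), (∀ m ∈ l, IsMove m) → l.length ≤ r → OO (Smat (a + l.sum)) n K P δ}

/-- Union bound over the sequences of moves. -/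
theorem not_nice_le {N : ℕ} {n K P δ : ℝ} (r : ℕ) :
    ({a : Cfg N | a ∉ Nice N n K P δ r}.ncard : ℝ) / 2 ^ Fintype.card (Edge N) ≤
      (2 * (N : ℝ) ^ 2 + N + 1) ^ r * badO N n K P δ := by
  have h1 : {a : Cfg N | a ∉ Nice N n K P δ r} =
      ↑(nearBad (fun a : Cfg N => ¬ OO (Smat a) n K P δ) r) := by
    ext a
    rw [Finset.mem_coe, mem_nearBad, Set.mem_ofPred_eq]
    unfold Nice
    rw [Set.mem_ofPred_eq]
    push Not
    rfl
  have h2 : {a : Cfg N | ¬ OO (Smat a) n K P δ} =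
      ↑(nearBad (fun a : Cfg N => ¬ OO (Smat a) n K P δ) 0) := by
    ext a
    rw [Finset.mem_coe, nearBad_zero_mem, Set.mem_ofPred_eq]
  unfold badO
  rw [h1, h2, Set.ncard_coe_finset, Set.ncard_coe_finset, ← mul_div_assoc]
  apply div_le_div_of_nonneg_right _ (by positivity)
  have h3 := card_nearBad (fun a : Cfg N => ¬ OO (Smat a) n K P δ) r
  have h4 : ((nearBad (fun a : Cfg N => ¬ OO (Smat a) n K P δ) r).card : ℝ) ≤
      (((2 * N * N + N + 1) ^ r *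
        (nearBad (fun a : Cfg N => ¬ OO (Smat a) n K P δ) 0).card : ℕ) : ℝ) := by
    exact_mod_cast h3
  refine h4.trans (le_of_eq ?_)
  push_cast
  ring

/-- Along `j` moves the gap decreases by at most `12 j P / n` and the eigenvector turns little. -/
theorem chain {N : ℕ} (hN : 0 < N) {n K P δ Γ : ℝ} (hp : Par (Fin N) n K P δ) {r : ℕ}
    (hΓ : 204 * P + 24 * r * P ≤ Γ) (hΓn : Γ ≤ n ^ 2 / 20) {a : Cfg N} (ha : a ∈ Nice N n K P δ r)
    {ψ : Fin N → ℝ} (h : TP (Smat a) (lamMax (Smat a)) ψ (Γ / n)) (l : List (Cfg N))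
    (hl : ∀ m ∈ l, IsMove m) (hr : l.length ≤ r) :
    ∃ ψ', TP (Smat (a + l.sum)) (lamMax (Smat (a + l.sum))) ψ' (Γ / n - 12 * l.length * P / n) ∧
      1 - (l.length : ℝ) ^ 2 * (42 * P / Γ) ≤ ψ ⬝ᵥ ψ' := by
  have : Nonempty (Fin N) := ⟨⟨0, hN⟩⟩
  have hn := hp.n0
  have hP : 0 < P := by
    rw [hp.P_eq]
    have := hp.K1
    positivity
  have hrP : (0 : ℝ) ≤ r * P := by positivity
  have hΓ0 : 0 < Γ := by nlinarith
  have hgmin : 0 < Γ / n / 2 := by positivity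
  have hg0 : 102 * P / n ≤ Γ / n / 2 := by
    rw [div_div, div_le_div_iff₀ hn (by positivity)]
    nlinarith
  have hmax : Γ / n ≤ n / 20 := by
    rw [div_le_iff₀ hn]
    nlinarith
  have htop : ∀ b : Cfg N, ∀ (l g : ℝ) (ψ : Fin N → ℝ), TopPair (Smat b) l g ψ → 0 ≤ g →
      TP (Smat b) (lamMax (Smat b)) ψ g := by
    intro b l g ψ hb hg
    have h1 := (topPair_iff _ _ _ _).1 hb
    have h2 := h1.lam_eq (isSign_Smat b).symm hg
    rwa [h2] at h1
  have key := chain_gen (fun b : Cfg N => OO (Smat b) n K P δ) r (Γ / n) (12 * P / n) (Γ / n / 2)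
    (42 * P / Γ) (by positivity) ?_ ?_ ?_ a ha (lamMax (Smat a)) ψ ((topPair_iff _ _ _ _).2 h)
    l hl hr
  · obtain ⟨lb, ψ', h1, h2⟩ := key
    have hlr : (l.length : ℝ) ≤ r := by exact_mod_cast hr
    have hlow : 0 ≤ Γ / n - l.length * (12 * P / n) := by
      have : (l.length : ℝ) * (12 * P / n) ≤ Γ / n := by
        rw [← mul_div_assoc]
        apply div_le_div_of_nonneg_right _ hn.le
        nlinarith
      linarith
    have h3 := htop _ _ _ _ h1 hlow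
    refine ⟨ψ', ?_, ?_⟩
    · have e : Γ / n - 12 * l.length * P / n = Γ / n - l.length * (12 * P / n) := by ring
      rw [e]
      exact h3
    · have hu : ∑ v, ψ v ^ 2 = 1 := ((topPair_iff _ _ _ _).2 h).1
      have hu' : ∑ v, ψ' v ^ 2 = 1 := h1.1
      have h4 := dist_sq_of_unit ψ ψ' hu hu'
      have h5 : ‖(WithLp.toLp 2 ψ : EuclideanSpace ℝ (Fin N)) - WithLp.toLp 2 ψ'‖ ^ 2 ≤
          (l.length * Real.sqrt (2 * (42 * P / Γ))) ^ 2 :=
        pow_le_pow_left₀ (norm_nonneg _) h2 2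
      rw [h4, mul_pow, Real.sq_sqrt (by positivity)] at h5
      have h6 : ψ ⬝ᵥ ψ' = ∑ v, ψ v * ψ' v := rfl
      rw [h6]
      linarith
  · -- gmin + r dg ≤ g0
    have : (r : ℝ) * (12 * P / n) ≤ Γ / n / 2 := by
      rw [← mul_div_assoc, div_div, div_le_div_iff₀ hn (by positivity)]
      nlinarith
    linarith
  · -- lemma E
    intro b m g hm hb hbm hg1 hg2 hex
    obtain ⟨l', ψ1, h1⟩ := hex
    obtain ⟨v, A, rfl⟩ := isMove_row m hm
    have hg : 102 * P / n ≤ g := by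
      have : 0 ≤ 12 * P / n := by positivity
      linarith
    have hgpos : 0 ≤ g := le_trans (by positivity) hg
    have h2 := htop _ _ _ _ h1 hgpos
    obtain ⟨ψ2, h3⟩ := exists_top (isSign_Smat (b + mvRow v A)).symm
    have h4 := lemE hp hb hbm (minor_add_mvRow b v A) hg (hg2.trans hmax) h2 h3
    exact ⟨_, ψ2, (topPair_iff _ _ _ _).2 h4⟩
  · -- lemma D
    intro b m l1 l2 ψ1 ψ2 hm hb hbm h1 h2
    obtain ⟨v, A, rfl⟩ := isMove_row m hm
    have h3 := htop _ _ _ _ h1 hgmin.le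
    have h4 := htop _ _ _ _ h2 hgmin.le
    have h5 := lemD hp hb hbm (minor_add_mvRow b v A) hgmin
      (by have : 0 ≤ Γ / n := by positivity
          linarith) h3 (h4.mono hgmin.le)
    have e : 21 * P / (Γ / n / 2 * n) = 42 * P / Γ := by
      field_simp
      ring
    rw [e] at h5
    exact h5

/-- Counting: the good configurations. -/
theorem card_good {N : ℕ} {n K P δ : ℝ} (r : ℕ) (T : Cfg N → Prop)
    (h1 : ({a : Cfg N | a ∉ Nice N n K P δ r}.ncard : ℝ) / 2 ^ Fintype.card (Edge N) ≤ 1 / 4)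
    (h2 : ({a : Cfg N | OO (Smat a) n K P δ ∧ ¬ T a}.ncard : ℝ) / 2 ^ Fintype.card (Edge N)
      ≤ 1 / 2) :
    ∃ Gam : Finset (Cfg N), 2 ^ Fintype.card (Edge N) ≤ 4 * Gam.card ∧
      ∀ a ∈ Gam, a ∈ Nice N n K P δ r ∧ T a := by
  classical
  have hfin : ∀ s : Set (Cfg N), s.Finite := fun s => Set.toFinite s
  refine ⟨(hfin {a : Cfg N | a ∈ Nice N n K P δ r ∧ T a}).toFinset, ?_, ?_⟩
  · have hpos : (0 : ℝ) < 2 ^ Fintype.card (Edge N) := by positivity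
    rw [div_le_iff₀ hpos] at h1 h2
    have h3 : (Set.univ : Set (Cfg N)) ⊆ ({a : Cfg N | a ∉ Nice N n K P δ r} ∪
        {a : Cfg N | OO (Smat a) n K P δ ∧ ¬ T a}) ∪
        {a : Cfg N | a ∈ Nice N n K P δ r ∧ T a} := by
      intro a _
      by_cases ha : a ∈ Nice N n K P δ r
      · by_cases hT : T a
        · exact Or.inr ⟨ha, hT⟩
        · refine Or.inl (Or.inr ⟨?_, hT⟩)
          have := ha [] (by simp) (by simp)
          simpa using this
      · exact Or.inl (Or.inl ha)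
    have h4 := ((Set.ncard_le_ncard h3 (hfin _)).trans (Set.ncard_union_le _ _)).trans
      (Nat.add_le_add_right (Set.ncard_union_le _ _) _)
    rw [Set.ncard_univ, Nat.card_eq_fintype_card, card_cfg,
      Set.ncard_eq_toFinset_card _ (hfin {a : Cfg N | a ∈ Nice N n K P δ r ∧ T a})] at h4
    have h5 : (2 : ℝ) ^ Fintype.card (Edge N) ≤
        ({a : Cfg N | a ∉ Nice N n K P δ r}.ncard : ℝ) +
        ({a : Cfg N | OO (Smat a) n K P δ ∧ ¬ T a}.ncard : ℝ) +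
        ((hfin {a : Cfg N | a ∈ Nice N n K P δ r ∧ T a}).toFinset.card : ℝ) := by
      exact_mod_cast h4
    have h6 : ((2 ^ Fintype.card (Edge N) : ℕ) : ℝ) ≤
        ((4 * (hfin {a : Cfg N | a ∈ Nice N n K P δ r ∧ T a}).toFinset.card : ℕ) : ℝ) := by
      push_cast
      linarith
    exact_mod_cast h6
  · intro a ha
    rw [Set.Finite.mem_toFinset] at ha
    exact ha

/-- MAIN THEOREM of the random matrix part. -/
theorem rmt_main : ∃ c : ℝ, 0 < c ∧ ∃ N₀ : ℕ, ∀ N ≥ N₀, ∀ L : ℕ, (L : ℝ) ≤ (N : ℝ) ^ c →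
    ∃ Gam : Finset (Cfg N), 2 ^ Fintype.card (Edge N) ≤ 4 * Gam.card ∧
      ∀ a ∈ Gam, ∀ l : List (Cfg N), (∀ m ∈ l, IsMove m) → l.length ≤ L →
        ∃ (psi_a psi_b : Fin N → ℝ) (la lb g : ℝ), 0 < g ∧ TopPair (Smat a) la g psi_a ∧
          TopPair (Smat (a + l.sum)) lb g psi_b ∧ 9 / 10 ≤ |∑ v, psi_a v * psi_b v| ∧
          ∀ v, psi_b v ^ 2 ≤ 1 / 100 := by
  obtain ⟨N0, hN0⟩ := num_choice
  refine ⟨1 / 100, by norm_num, max N0 2, fun N hN L hL => ?_⟩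
  have hN2 : 2 ≤ N := le_trans (le_max_right _ _) hN
  have hNpos : 0 < N := by omega
  have hN2R : (2 : ℝ) ≤ N := by exact_mod_cast hN2
  obtain ⟨q, hq, hqL, hqL2, hqN⟩ := hN0 N (le_trans (le_max_left _ _) hN) L hL
  have hq1 : (1 : ℝ) ≤ q := by exact_mod_cast hq
  obtain ⟨K, hK⟩ : ∃ K : ℝ, K = 6 * q := ⟨_, rfl⟩
  have hK6 : 6 ≤ K := by rw [hK]; linarith
  have hK0 : 0 < K := by linarith
  obtain ⟨n, hn⟩ : ∃ n : ℝ, n = √(N : ℝ) := ⟨_, rfl⟩
  have hn2 : n ^ 2 = N := by rw [hn]; exact Real.sq_sqrt (Nat.cast_nonneg N)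
  rw [← hK] at hqL hqL2 hqN
  have hnK : 10 ^ 50 * K ^ 15 ≤ n := by
    rw [hn]
    apply Real.le_sqrt_of_sq_le
    calc ((10 : ℝ) ^ 50 * K ^ 15) ^ 2 = 10 ^ 100 * K ^ 30 := by ring
      _ ≤ (N : ℝ) := hqN
  obtain ⟨hn0, hPn, hδ, hg, hgn, hPP, hPn', -, -⟩ := num_basic hK6 hnK
  have hg0 : 0 < gamK K := by linarith
  -- the parameters
  have hp : Par (Fin N) n K (10 ^ 6 * K ^ 2) (1 / (1000 * gamK K ^ 2)) := by
    refine ⟨hn0, ?_, by linarith, rfl, hPn, by positivity, hδ⟩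
    rw [hn2, Fintype.card_fin]
  -- the bad set
  have hq'cast : ((3000 * q * (5 * 10 ^ 8 * (6 * q) ^ 3) ^ 2 : ℕ) : ℝ) =
      500 * K * gamK K ^ 2 := by
    rw [hK]
    unfold gamK
    push_cast
    ring
  have hq'1 : 1 ≤ 3000 * q * (5 * 10 ^ 8 * (6 * q) ^ 3) ^ 2 := Nat.one_le_iff_ne_zero.2 (by
    positivity)
  have hbad : badO N n K (10 ^ 6 * K ^ 2) (1 / (1000 * gamK K ^ 2)) ≤
      (N : ℝ) ^ 3 * Real.exp (-(3 / 2) * q) :=
    (badO_le hNpos hp hq (by rw [hK]) hq'1).trans (num_bad hq hK hnK hn2 hq'cast)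
  have hbad0 : 0 ≤ badO N n K (10 ^ 6 * K ^ 2) (1 / (1000 * gamK K ^ 2)) := by
    unfold badO
    positivity
  have hun := union_num N L q hN2 (by rw [← hK]; exact hqL)
  have hpow1 : (1 : ℝ) ≤ ((2 * N * N + N + 1 : ℕ) : ℝ) := by
    have : 1 ≤ 2 * N * N + N + 1 := by omega
    exact_mod_cast this
  have hE0 : 0 < Real.exp (-(3 / 2) * q) := Real.exp_pos _
  have hun1 : Real.exp (-(3 / 2) * q) ≤ ((N : ℝ) ^ 20)⁻¹ := by
    refine le_trans ?_ hun
    exact le_mul_of_one_le_left hE0.le (one_le_pow₀ hpow1)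
  have hun2 : ((2 * N * N + N + 1 : ℕ) : ℝ) ^ L * Real.exp (-(3 / 2) * q) ≤ ((N : ℝ) ^ 20)⁻¹ := by
    refine le_trans ?_ hun
    apply mul_le_mul_of_nonneg_right _ hE0.le
    exact pow_le_pow_right₀ hpow1 (by omega)
  have hNR : (0 : ℝ) < N := by linarith
  have hN3 : (N : ℝ) ^ 3 * ((N : ℝ) ^ 20)⁻¹ ≤ 1 / 4 := num_N1 hN2R
  have hN4 : (N : ℝ) ^ 3 * ((N : ℝ) ^ 20)⁻¹ * n ^ 2 ≤ 1 / 100 := by
    rw [hn2]
    exact num_N2 hN2R
  have hnn : ({a : Cfg N | a ∉ Nice N n K (10 ^ 6 * K ^ 2) (1 / (1000 * gamK K ^ 2)) L}.ncard : ℝ) /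
      2 ^ Fintype.card (Edge N) ≤ 1 / 4 := by
    refine (not_nice_le L).trans ?_
    have e : (2 * (N : ℝ) ^ 2 + N + 1) = ((2 * N * N + N + 1 : ℕ) : ℝ) := by push_cast; ring
    rw [e]
    calc ((2 * N * N + N + 1 : ℕ) : ℝ) ^ L * badO N n K (10 ^ 6 * K ^ 2) (1 / (1000 * gamK K ^ 2))
        ≤ ((2 * N * N + N + 1 : ℕ) : ℝ) ^ L * ((N : ℝ) ^ 3 * Real.exp (-(3 / 2) * q)) :=
          mul_le_mul_of_nonneg_left hbad (by positivity)
      _ = (N : ℝ) ^ 3 * (((2 * N * N + N + 1 : ℕ) : ℝ) ^ L * Real.exp (-(3 / 2) * q)) := by ring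
      _ ≤ (N : ℝ) ^ 3 * ((N : ℝ) ^ 20)⁻¹ := mul_le_mul_of_nonneg_left hun2 (by positivity)
      _ ≤ 1 / 4 := hN3
  have hβ : badO N n K (10 ^ 6 * K ^ 2) (1 / (1000 * gamK K ^ 2)) * n ^ 2 ≤ 1 / 100 := by
    refine le_trans ?_ hN4
    apply mul_le_mul_of_nonneg_right _ (by positivity)
    exact hbad.trans (mul_le_mul_of_nonneg_left hun1 (by positivity))
  have hgap := (prob_gap hNpos hp hPP hPn' hg0).trans (num_gap hK6 hnK hβ hbad0)
  obtain ⟨Gam, hG1, hG2⟩ := card_good L _ hnn hgap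
  refine ⟨Gam, hG1, fun a ha l hl hlL => ?_⟩
  obtain ⟨hnice, ψ, hψ⟩ := hG2 a ha
  have hLK : (L : ℝ) ≤ K := le_of_sq_le_num hK6 hqL2
  have hΓ1 : 204 * (10 ^ 6 * K ^ 2) + 24 * L * (10 ^ 6 * K ^ 2) ≤ gamK K := num_chain1 hK6 hLK
  obtain ⟨hΓn, hPn2⟩ := num_chain2 hK6 hnK
  obtain ⟨ψ', h1, h2⟩ := chain hNpos hp hΓ1 hΓn hnice hψ l hl hlL
  have hlL' : (l.length : ℝ) ≤ L := by exact_mod_cast hlL
  have hgmin : gamK K / n / 2 ≤ gamK K / n - 12 * l.length * (10 ^ 6 * K ^ 2) / n := by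
    have := num_chain3 (l := (l.length : ℝ)) hK6 hn0 (hlL'.trans hLK)
    linarith
  have hb := h1.mono hgmin
  refine ⟨ψ, ψ', _, _, gamK K / n / 2, by positivity,
    (topPair_iff _ _ _ _).2 (hψ.mono (by have : 0 < gamK K / n := by positivity
                                         linarith)),
    (topPair_iff _ _ _ _).2 hb, ?_, ?_⟩
  · have e : ψ ⬝ᵥ ψ' = ∑ v, ψ v * ψ' v := rfl
    rw [← e]
    refine le_trans ?_ (le_abs_self _)
    refine le_trans ?_ h2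
    have h3 : (l.length : ℝ) ^ 2 ≤ K := by
      refine le_trans ?_ hqL2
      exact pow_le_pow_left₀ (Nat.cast_nonneg _) hlL' 2
    have h4 := num_chain4 hK6 h3
    linarith
  · intro v
    have hnonempty : Nonempty (Fin N) := ⟨⟨0, hNpos⟩⟩
    have hO : OO (Smat (a + l.sum)) n K (10 ^ 6 * K ^ 2) (1 / (1000 * gamK K ^ 2)) :=
      hnice l hl hlL
    have h3 := lemC hp hO (hb.mono (by positivity : (0 : ℝ) ≤ gamK K / n / 2)) v
    exact h3.trans hPn2

end Pool.Agent.MP_9cec2c_lc.Flat
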