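import Pool.Agent.Lib.MP_9cec2c_lc.FMF

/-!
FLAT, RMT2 section 8 (Lemma F, deterministic part): sum over all entries of the second order lower
bound for the top eigenvalue after a flip.
-/

set_option autoImplicit false

namespace Pool.Agent.MP_9cec2c_lc.Flat

open Finset Matrix

variable {N : ℕ}

theorem sq_eq_dot (v : Fin N → ℝ) : v ⬝ᵥ v = ∑ i, v i ^ 2 := by
  rw [dotProduct]
  exact sum_congr rfl fun i _ => by ring

theorem fs_dot_self_nonneg (v : Fin N → ℝ) : 0 ≤ v ⬝ᵥ v := by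
  rw [sq_eq_dot]
  exact sum_nonneg fun i _ => sq_nonneg _

theorem fs_dot_self_eq_zero {v : Fin N → ℝ} (h : v ⬝ᵥ v ≤ 0) : v = 0 := by
  rw [sq_eq_dot] at h
  funext i
  have h1 : v i ^ 2 ≤ ∑ j, v j ^ 2 :=
    single_le_sum (f := fun j => v j ^ 2) (fun j _ => sq_nonneg _) (mem_univ i)
  have h2 : v i ^ 2 = 0 := le_antisymm (h1.trans h) (sq_nonneg _)
  simpa using h2

/-- the form of `t - S` -/
theorem res_form (S : Matrix (Fin N) (Fin N) ℝ) (t : ℝ) (v : Fin N → ℝ) :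
    v ⬝ᵥ (t • (1 : Matrix (Fin N) (Fin N) ℝ) - S) *ᵥ v = t * (v ⬝ᵥ v) - v ⬝ᵥ S *ᵥ v := by
  rw [sub_mulVec, smul_mulVec, one_mulVec, dotProduct_sub, dotProduct_smul, smul_eq_mul]

theorem res_isUnit {S : Matrix (Fin N) (Fin N) ℝ} {lam t : ℝ} (ht : lam < t)
    (htop : ∀ v, v ⬝ᵥ S *ᵥ v ≤ lam * (v ⬝ᵥ v)) :
    IsUnit (t • (1 : Matrix (Fin N) (Fin N) ℝ) - S).det := by
  rw [← Matrix.isUnit_iff_isUnit_det, ← Matrix.mulVec_injective_iff_isUnit]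
  intro v w hvw
  have h0 : (t • (1 : Matrix (Fin N) (Fin N) ℝ) - S) *ᵥ (v - w) = 0 := by
    rw [mulVec_sub]
    exact sub_eq_zero.2 hvw
  have h1 := res_form S t (v - w)
  rw [h0, dotProduct_zero] at h1
  have h2 := htop (v - w)
  have h3 : (t - lam) * ((v - w) ⬝ᵥ (v - w)) ≤ 0 := by linarith
  have h4 : (v - w) ⬝ᵥ (v - w) ≤ 0 := by
    by_contra hcon
    push Not at hcon
    have := mul_pos (sub_pos.2 ht) hcon
    linarith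
  exact sub_eq_zero.1 (fs_dot_self_eq_zero h4)

theorem res_mul_inv {S : Matrix (Fin N) (Fin N) ℝ} {lam t : ℝ} (ht : lam < t)
    (htop : ∀ v, v ⬝ᵥ S *ᵥ v ≤ lam * (v ⬝ᵥ v)) (v : Fin N → ℝ) :
    (t • (1 : Matrix (Fin N) (Fin N) ℝ) - S) *ᵥ ((t • (1 : Matrix (Fin N) (Fin N) ℝ) - S)⁻¹ *ᵥ v)
      = v := by
  rw [mulVec_mulVec, mul_nonsing_inv _ (res_isUnit ht htop), one_mulVec]

theorem inv_mul_res {S : Matrix (Fin N) (Fin N) ℝ} {lam t : ℝ} (ht : lam < t)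
    (htop : ∀ v, v ⬝ᵥ S *ᵥ v ≤ lam * (v ⬝ᵥ v)) (v : Fin N → ℝ) :
    (t • (1 : Matrix (Fin N) (Fin N) ℝ) - S)⁻¹ *ᵥ ((t • (1 : Matrix (Fin N) (Fin N) ℝ) - S) *ᵥ v)
      = v := by
  rw [mulVec_mulVec, nonsing_inv_mul _ (res_isUnit ht htop), one_mulVec]

theorem inv_symm {S : Matrix (Fin N) (Fin N) ℝ} (hS : Sᵀ = S) (t : ℝ) :
    ((t • (1 : Matrix (Fin N) (Fin N) ℝ) - S)⁻¹)ᵀ = (t • (1 : Matrix (Fin N) (Fin N) ℝ) - S)⁻¹ := by
  rw [transpose_nonsing_inv, transpose_sub, transpose_smul, transpose_one, hS]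

theorem inv_eigen {S : Matrix (Fin N) (Fin N) ℝ} {lam t : ℝ} (ht : lam < t)
    (htop : ∀ v, v ⬝ᵥ S *ᵥ v ≤ lam * (v ⬝ᵥ v)) {φ : Fin N → ℝ} {r : ℝ} (hr : r < t)
    (hφ : S *ᵥ φ = r • φ) :
    (t • (1 : Matrix (Fin N) (Fin N) ℝ) - S)⁻¹ *ᵥ φ = (1 / (t - r)) • φ := by
  have h1 : (t • (1 : Matrix (Fin N) (Fin N) ℝ) - S) *ᵥ ((1 / (t - r)) • φ) = φ := by
    rw [mulVec_smul, sub_mulVec, smul_mulVec, one_mulVec, hφ, ← sub_smul, smul_smul,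
      one_div_mul_cancel (sub_pos.2 hr).ne', one_smul]
  conv_lhs => rw [← h1]
  exact inv_mul_res ht htop _

/-- The regularized inverse. -/
noncomputable def regH (S : Matrix (Fin N) (Fin N) ℝ) (ψ : Fin N → ℝ) (lam y : ℝ) :
    Matrix (Fin N) (Fin N) ℝ :=
  ((lam + 2 * y) • (1 : Matrix (Fin N) (Fin N) ℝ) - S)⁻¹ - (1 / (2 * y)) • vecMulVec ψ ψ

theorem regH_mulVec (S : Matrix (Fin N) (Fin N) ℝ) (ψ : Fin N → ℝ) (lam y : ℝ) (v : Fin N → ℝ) :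
    regH S ψ lam y *ᵥ v =
      ((lam + 2 * y) • (1 : Matrix (Fin N) (Fin N) ℝ) - S)⁻¹ *ᵥ v - (1 / (2 * y) * (ψ ⬝ᵥ v)) • ψ := by
  unfold regH
  rw [sub_mulVec, smul_mulVec]
  congr 1
  funext i
  simp only [Pi.smul_apply, smul_eq_mul, mulVec, dotProduct, vecMulVec_apply]
  rw [mul_sum, mul_sum, sum_mul]
  exact sum_congr rfl fun j _ => by ring

theorem regH_regInv {S : Matrix (Fin N) (Fin N) ℝ} (hS : Sᵀ = S) {ψ : Fin N → ℝ} {lam y : ℝ}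
    (hy : 0 < y) (hψ1 : ψ ⬝ᵥ ψ = 1) (hψ : S *ᵥ ψ = lam • ψ)
    (htop : ∀ v, v ⬝ᵥ S *ᵥ v ≤ lam * (v ⬝ᵥ v)) : RegInv S ψ lam y (regH S ψ lam y) := by
  have ht : lam < lam + 2 * y := by linarith
  have hGψ := inv_eigen ht htop ht hψ
  have e2 : lam + 2 * y - lam = 2 * y := by ring
  rw [e2] at hGψ
  have hsymm : (regH S ψ lam y)ᵀ = regH S ψ lam y := by
    unfold regH
    rw [transpose_sub, inv_symm hS, transpose_smul]
    congr 2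
    ext i j
    simp [vecMulVec_apply, mul_comm]
  have hker : regH S ψ lam y *ᵥ ψ = 0 := by
    rw [regH_mulVec, hGψ, hψ1, mul_one, sub_self]
  refine ⟨hsymm, hker, fun v => ?_⟩
  obtain ⟨A, hA⟩ : ∃ A, A = (lam + 2 * y) • (1 : Matrix (Fin N) (Fin N) ℝ) - S := ⟨_, rfl⟩
  have h1 : A *ᵥ (regH S ψ lam y *ᵥ v) = v - (ψ ⬝ᵥ v) • ψ := by
    rw [regH_mulVec, mulVec_sub, hA, res_mul_inv ht htop, mulVec_smul, sub_mulVec, smul_mulVec,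
      one_mulVec, hψ, ← sub_smul, e2, smul_smul]
    congr 2
    field_simp
  have h2 : (regH S ψ lam y *ᵥ v) ⬝ᵥ ψ = 0 := by
    rw [dotProduct_comm, symm_form hsymm, hker, dotProduct_zero]
  have h3 := res_form S (lam + 2 * y) (regH S ψ lam y *ᵥ v)
  rw [← hA, h1, dotProduct_sub, dotProduct_smul, h2, smul_zero, sub_zero] at h3
  rw [dotProduct_comm v]
  linarith

theorem regH_diag_le (S : Matrix (Fin N) (Fin N) ℝ) (ψ : Fin N → ℝ) (lam : ℝ) {y : ℝ} (hy : 0 < y)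
    (u : Fin N) :
    regH S ψ lam y u u ≤ ((lam + 2 * y) • (1 : Matrix (Fin N) (Fin N) ℝ) - S)⁻¹ u u := by
  unfold regH
  rw [Matrix.sub_apply, Matrix.smul_apply, vecMulVec_apply, smul_eq_mul]
  have : 0 ≤ 1 / (2 * y) * (ψ u * ψ u) := mul_nonneg (by positivity) (mul_self_nonneg _)
  linarith

theorem regH_trace (S : Matrix (Fin N) (Fin N) ℝ) {ψ : Fin N → ℝ} (lam : ℝ) (y : ℝ)
    (hψ1 : ψ ⬝ᵥ ψ = 1) :
    ∑ u, regH S ψ lam y u u =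
      (∑ u, ((lam + 2 * y) • (1 : Matrix (Fin N) (Fin N) ℝ) - S)⁻¹ u u) - 1 / (2 * y) := by
  unfold regH
  simp only [Matrix.sub_apply, Matrix.smul_apply, vecMulVec_apply, smul_eq_mul]
  rw [sum_sub_distrib, ← mul_sum]
  have : ∑ u, ψ u * ψ u = 1 := hψ1
  rw [this, mul_one]

/-- `∑_e ψ · dl_e ψ = -2 λ`. -/
theorem fs_sum_first_order {S : Matrix (Fin N) (Fin N) ℝ} (hS : Sᵀ = S) (hd : ∀ v, S v v = 0)
    {ψ : Fin N → ℝ} {lam : ℝ} (hψ1 : ψ ⬝ᵥ ψ = 1) (hψ : S *ᵥ ψ = lam • ψ) :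
    ∑ e : {e : Fin N × Fin N // e.1 < e.2}, ψ ⬝ᵥ dl S e.1.1 e.1.2 *ᵥ ψ = -2 * lam := by
  have hsym : ∀ u w, S u w = S w u := fun u w => by
    conv_lhs => rw [← hS]
    rfl
  have h1 := sum_pairs (fun u w => S u w * (ψ u * ψ w)) (fun u w => by rw [hsym u w]; ring)
  have h2 : ∑ u, ∑ w, S u w * (ψ u * ψ w) = lam := by
    have h3 : ψ ⬝ᵥ S *ᵥ ψ = lam := by rw [hψ, dotProduct_smul, hψ1]; simp
    rw [← h3, dotProduct]
    apply sum_congr rfl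
    intro u _
    rw [mulVec, dotProduct, mul_sum]
    exact sum_congr rfl fun w _ => by ring
  have h4 : ∑ u, S u u * (ψ u * ψ u) = 0 := by
    apply sum_eq_zero
    intro u _
    rw [hd, zero_mul]
  rw [h2, h4, sub_zero] at h1
  have h5 : ∀ e : {e : Fin N × Fin N // e.1 < e.2}, ψ ⬝ᵥ dl S e.1.1 e.1.2 *ᵥ ψ =
      -4 * (S e.1.1 e.1.2 * (ψ e.1.1 * ψ e.1.2)) := by
    intro e
    rw [dl_form]
    ring
  rw [sum_congr rfl fun e _ => h5 e, ← mul_sum]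
  linarith

/-- RMT2 section 8, sum of the second order bounds (F8a). -/
theorem lemmaF_det {S : Matrix (Fin N) (Fin N) ℝ} (hS : Sᵀ = S) (hd : ∀ v, S v v = 0)
    (hs : ∀ u w, u ≠ w → S u w ^ 2 = 1) {ψ : Fin N → ℝ} {lam y h0 D : ℝ} (hy : 0 < y)
    (hψ1 : ψ ⬝ᵥ ψ = 1) (hψ : S *ᵥ ψ = lam • ψ) (htop : ∀ v, v ⬝ᵥ S *ᵥ v ≤ lam * (v ⬝ᵥ v))
    (hh0 : 0 ≤ h0)
    (hG : ∀ u, ((lam + 2 * y) • (1 : Matrix (Fin N) (Fin N) ℝ) - S)⁻¹ u u ≤ h0)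
    (hD : ∀ u, ψ u ^ 2 ≤ D)
    (l : {e : Fin N × Fin N // e.1 < e.2} → ℝ)
    (hl : ∀ e v, v ⬝ᵥ (S + dl S e.1.1 e.1.2) *ᵥ v ≤ l e * (v ⬝ᵥ v)) :
    4 * ((∑ u, ((lam + 2 * y) • (1 : Matrix (Fin N) (Fin N) ℝ) - S)⁻¹ u u) - 1 / (2 * y))
      - 8 * h0 - 32 * h0 ^ 2 * N - (8 * h0 + 32 * h0 ^ 2) / y * (2 * D * N) ≤
      ∑ e, (l e - lam) + 2 * lam := by
  have hR := regH_regInv hS hy hψ1 hψ htop
  obtain ⟨H, hH⟩ : ∃ H, H = regH S ψ lam y := ⟨_, rfl⟩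
  rw [← hH] at hR
  have hdg : ∀ u, H u u ≤ h0 := fun u => by
    rw [hH]
    exact (regH_diag_le S ψ lam hy u).trans (hG u)
  have hflip : ∀ e : {e : Fin N × Fin N // e.1 < e.2},
      4 * (ψ e.1.2 ^ 2 * H e.1.1 e.1.1 + ψ e.1.1 ^ 2 * H e.1.2 e.1.2
        + 2 * (ψ e.1.1 * ψ e.1.2) * H e.1.1 e.1.2)
      - 32 * h0 ^ 2 * (ψ e.1.1 ^ 2 + ψ e.1.2 ^ 2)
      - (8 * h0 + 32 * h0 ^ 2) / y * (ψ e.1.1 ^ 2 + ψ e.1.2 ^ 2) ^ 2
      ≤ l e - lam - ψ ⬝ᵥ dl S e.1.1 e.1.2 *ᵥ ψ := by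
    intro e
    exact one_flip hS hy hR hψ1 hψ htop hh0 hdg e.1.1 e.1.2 (hs _ _ (ne_of_lt e.2)) (hl e)
  have hsum := sum_le_sum (s := univ) fun e _ => hflip e
  rw [sum_sub_distrib, sum_sub_distrib, sum_sub_distrib, fs_sum_first_order hS hd hψ1 hψ,
    ← mul_sum, ← mul_sum, ← mul_sum] at hsum
  have hnorm : ∑ u, ψ u ^ 2 = 1 := by rw [← sq_eq_dot, hψ1]
  -- first sum
  have hHsym : ∀ u w, H u w = H w u := fun u w => by
    conv_lhs => rw [← hR.symm]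
    rfl
  have h1 := sum_pairs (fun u w => ψ w ^ 2 * H u u + ψ u ^ 2 * H w w + 2 * (ψ u * ψ w) * H u w)
    (fun u w => by rw [hHsym u w]; ring)
  have h2 : ∑ u, ∑ w, (ψ w ^ 2 * H u u + ψ u ^ 2 * H w w + 2 * (ψ u * ψ w) * H u w) =
      2 * ∑ u, H u u := by
    have e1 : ∑ u, ∑ w, ψ w ^ 2 * H u u = ∑ u, H u u := by
      apply sum_congr rfl
      intro u _
      rw [← sum_mul, hnorm, one_mul]
    have e2 : ∑ u, ∑ w, ψ u ^ 2 * H w w = ∑ u, H u u := by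
      rw [sum_comm]
      exact e1
    have e3 : ∑ u, ∑ w, 2 * (ψ u * ψ w) * H u w = 0 := by
      apply sum_eq_zero
      intro u _
      have h3 : (H *ᵥ ψ) u = 0 := by rw [hR.ker]; rfl
      rw [mulVec, dotProduct] at h3
      have h4 : ∑ w, 2 * (ψ u * ψ w) * H u w = 2 * ψ u * ∑ w, H u w * ψ w := by
        rw [mul_sum]
        exact sum_congr rfl fun w _ => by ring
      rw [h4, h3, mul_zero]
    simp only [sum_add_distrib]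
    rw [e1, e2, e3]
    ring
  have h5 : ∑ u, (ψ u ^ 2 * H u u + ψ u ^ 2 * H u u + 2 * (ψ u * ψ u) * H u u) ≤ 4 * h0 := by
    calc ∑ u, (ψ u ^ 2 * H u u + ψ u ^ 2 * H u u + 2 * (ψ u * ψ u) * H u u)
        = ∑ u, 4 * (ψ u ^ 2 * H u u) := sum_congr rfl fun u _ => by ring
      _ ≤ ∑ u, 4 * (ψ u ^ 2 * h0) := by
          apply sum_le_sum
          intro u _
          have := mul_le_mul_of_nonneg_left (hdg u) (sq_nonneg (ψ u))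
          linarith
      _ = 4 * h0 := by
          rw [← mul_sum, ← sum_mul, hnorm]
          ring
  -- second sum
  have h6 := sum_pairs (fun u w => ψ u ^ 2 + ψ w ^ 2) (fun u w => by ring)
  have h7 : ∑ u, ∑ w, (ψ u ^ 2 + ψ w ^ 2) = 2 * N := by
    simp only [sum_add_distrib]
    have e1 : ∑ u : Fin N, ∑ _w : Fin N, ψ u ^ 2 = N := by
      simp only [sum_const, card_univ, Fintype.card_fin, nsmul_eq_mul]
      rw [← mul_sum, hnorm, mul_one]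
    have e2 : ∑ _u : Fin N, ∑ w : Fin N, ψ w ^ 2 = N := by
      rw [hnorm]
      simp
    rw [e1, e2]
    ring
  have h8 : 0 ≤ ∑ u, (ψ u ^ 2 + ψ u ^ 2) := sum_nonneg fun u _ => by positivity
  have h9 : ∑ e : {e : Fin N × Fin N // e.1 < e.2}, (ψ e.1.1 ^ 2 + ψ e.1.2 ^ 2) ≤ N := by
    rw [h7] at h6
    linarith
  have h10 : ∑ e : {e : Fin N × Fin N // e.1 < e.2}, (ψ e.1.1 ^ 2 + ψ e.1.2 ^ 2) ^ 2 ≤
      2 * D * N := by
    rcases Nat.eq_zero_or_pos N with hN | hN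
    · subst hN
      have : IsEmpty {e : Fin 0 × Fin 0 // e.1 < e.2} := ⟨fun e => e.1.1.elim0⟩
      simp
    have hD0 : 0 ≤ D := (sq_nonneg _).trans (hD ⟨0, hN⟩)
    calc ∑ e : {e : Fin N × Fin N // e.1 < e.2}, (ψ e.1.1 ^ 2 + ψ e.1.2 ^ 2) ^ 2
        ≤ ∑ e : {e : Fin N × Fin N // e.1 < e.2}, 2 * D * (ψ e.1.1 ^ 2 + ψ e.1.2 ^ 2) := by
          apply sum_le_sum
          intro e _
          rw [sq]
          apply mul_le_mul_of_nonneg_right _ (by positivity)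
          linarith [hD e.1.1, hD e.1.2]
      _ = 2 * D * ∑ e : {e : Fin N × Fin N // e.1 < e.2}, (ψ e.1.1 ^ 2 + ψ e.1.2 ^ 2) := by
          rw [mul_sum]
      _ ≤ 2 * D * N := mul_le_mul_of_nonneg_left h9 (by positivity)
  have h11 := mul_le_mul_of_nonneg_left h9 (by positivity : 0 ≤ 32 * h0 ^ 2)
  have h12 := mul_le_mul_of_nonneg_left h10 (by positivity : 0 ≤ (8 * h0 + 32 * h0 ^ 2) / y)
  have h13 := regH_trace S lam y hψ1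
  rw [← hH] at h13
  rw [h2] at h1
  linarith

end Pool.Agent.MP_9cec2c_lc.Flat
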