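import Pool.Agent.Lib.MP_9cec2c_lc.FPFinal

/-!
The asymptotic form of the lower bound.
-/

set_option autoImplicit false
set_option linter.unusedSectionVars false

namespace Pool.Agent.MP_9cec2c_lc.TwoLevel

open Finset Filter
open Pool.Agent.MP_9cec2c_lc.FormulaLines

theorem main_asym (c : ℝ) (hc : c < 1 / 2) :
    ∃ ε : ℝ, 0 < ε ∧ ∀ᶠ n : ℕ in atTop,
      ∃ F : Finset (Clause (Fin n)),
        (∀ x, ∃ C ∈ F, ¬ Holds x C) ∧ F.card ≤ n ^ 7 ∧ (∀ C ∈ F, C.card ≤ 6 * Nat.log 2 n) ∧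
        ∀ (S : ℕ) (L : Fin S → Line (Fin n)),
          (∀ i, (L i).Small ((n : ℝ) ^ ε) ((n : ℝ) ^ (1 + c))) →
          IsRefutation ((n : ℝ) ^ ε) F L → (2 : ℝ) ^ ((n : ℝ) ^ ε) ≤ S := by
  obtain ⟨c', hc'⟩ : ∃ c', c' = max c 0 := ⟨_, rfl⟩
  have hcc : c ≤ c' := hc' ▸ le_max_left _ _
  have hc0 : 0 ≤ c' := hc' ▸ le_max_right _ _
  have hc6 : c' < 1 / 2 := by
    rw [hc']
    exact max_lt hc (by norm_num)
  have hpos : 0 < 1 - 2 * c' := by linarith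
  obtain ⟨q, hq⟩ : ∃ q, q = ⌈4 / (1 - 2 * c')⌉₊ := ⟨_, rfl⟩
  obtain ⟨E, hE⟩ : ∃ E, E = ⌈(28 * q + 88) / (1 - 2 * c')⌉₊ := ⟨_, rfl⟩
  obtain ⟨s', hs'⟩ : ∃ s', s' = ⌈c' * E⌉₊ + 5 := ⟨_, rfl⟩
  have hq2 : 4 ≤ (q : ℝ) * (1 - 2 * c') := by
    have : 4 / (1 - 2 * c') ≤ (q : ℝ) := by
      rw [hq]
      exact Nat.le_ceil _
    rwa [div_le_iff₀ hpos] at this
  have hE2 : 28 * q + 88 ≤ (E : ℝ) * (1 - 2 * c') := by
    have : (28 * q + 88) / (1 - 2 * c') ≤ (E : ℝ) := by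
      rw [hE]
      exact Nat.le_ceil _
    rwa [div_le_iff₀ hpos] at this
  have hs1 : (s' : ℝ) ≤ c' * E + 6 := by
    rw [hs']
    push_cast
    have := Nat.ceil_lt_add_one (show 0 ≤ c' * E by positivity)
    linarith
  have hs2 : c' * E + 5 ≤ (s' : ℝ) := by
    rw [hs']
    push_cast
    have := Nat.le_ceil (c' * E)
    linarith
  have hq0 : (0 : ℝ) ≤ q := by positivity
  have hE0' : (0 : ℝ) ≤ E := by positivity
  have h1 : 2 * s' + 21 * q + 36 ≤ E := by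
    have : (2 : ℝ) * s' + 21 * q + 36 ≤ E := by nlinarith
    exact_mod_cast this
  obtain ⟨θ, hθ⟩ : ∃ θ, E = 2 * s' + 14 * q + 32 + θ := ⟨E - (2 * s' + 14 * q + 32), by omega⟩
  have hθr : (E : ℝ) = 2 * s' + 14 * q + 32 + θ := by exact_mod_cast hθ
  have hE88 : (88 : ℝ) ≤ E := by nlinarith
  have h2 : E + s' + 3 ≤ θ * q := by
    have e1 : (E : ℝ) * (1 - 2 * c') / 2 ≤ θ := by nlinarith
    have e2 : 2 * (E : ℝ) ≤ θ * q := by
      calc 2 * (E : ℝ) = (E : ℝ) / 2 * 4 := by ring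
        _ ≤ (E : ℝ) / 2 * (q * (1 - 2 * c')) := by gcongr
        _ = (E : ℝ) * (1 - 2 * c') / 2 * q := by ring
        _ ≤ θ * q := by gcongr
    have e3 : (E : ℝ) + s' + 3 ≤ θ * q := by nlinarith
    exact_mod_cast e3
  refine ⟨1 / (E + 3), by positivity, ?_⟩
  filter_upwards [eventually_ge_atTop (2 ^ ((E + 2) * (E + q + 41)))] with n hn
  obtain ⟨τ, hτ⟩ : ∃ τ, τ = Nat.log 2 n / (E + 2) := ⟨_, rfl⟩
  have hlog : (E + 2) * (E + q + 41) ≤ Nat.log 2 n := Nat.le_log_of_pow_le (by norm_num) hn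
  have hn0 : n ≠ 0 := by
    intro h
    rw [h] at hn
    have : 0 < 2 ^ ((E + 2) * (E + q + 41)) := by positivity
    omega
  have hτE : E + q + 41 ≤ τ := by
    rw [hτ, Nat.le_div_iff_mul_le (by omega)]
    rw [mul_comm]
    exact hlog
  have hτ1 : (E + 2) * τ ≤ Nat.log 2 n := by
    rw [hτ]
    exact Nat.mul_div_le _ _
  have hτ2 : Nat.log 2 n < (E + 2) * τ + (E + 2) := by
    have h1 := Nat.lt_mul_div_succ (Nat.log 2 n) (show 0 < E + 2 by omega)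
    rw [← hτ, mul_add, mul_one] at h1
    omega
  have hle : 2 ^ ((E + 2) * τ) ≤ n := (Nat.pow_le_pow_right (by norm_num) hτ1).trans
    (Nat.pow_log_le_self 2 hn0)
  have hlt : n ≤ 2 ^ ((E + 2) * τ + (E + 2)) := by
    refine (Nat.lt_pow_succ_log_self (b := 2) (by norm_num) n).le.trans ?_
    exact Nat.pow_le_pow_right (by norm_num) (by omega)
  have hltr : (n : ℝ) ≤ (2 : ℝ) ^ (((E : ℝ) + 2) * τ + (E + 2)) := by
    have h1 : (n : ℝ) ≤ (2 : ℝ) ^ ((E + 2) * τ + (E + 2)) := by exact_mod_cast hlt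
    rw [← Real.rpow_natCast] at h1
    push_cast at h1
    exact h1
  have hn1 : (1 : ℝ) ≤ n := by
    exact_mod_cast Nat.one_le_iff_ne_zero.2 hn0
  have hτr : (E : ℝ) + q + 41 ≤ τ := by exact_mod_cast hτE
  obtain ⟨F, g1, g2, g3, g4⟩ := main_n (n := n) (τ := τ) (by omega) (by omega) h1 hθ h2
    (by omega) hle
  have hk2 : (n : ℝ) ^ (1 / ((E : ℝ) + 3)) ≤ (2 : ℝ) ^ τ := by
    calc (n : ℝ) ^ (1 / ((E : ℝ) + 3))
        ≤ ((2 : ℝ) ^ (((E : ℝ) + 2) * τ + (E + 2))) ^ (1 / ((E : ℝ) + 3)) :=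
          Real.rpow_le_rpow (by positivity) hltr (by positivity)
      _ = (2 : ℝ) ^ ((((E : ℝ) + 2) * τ + (E + 2)) * (1 / ((E : ℝ) + 3))) := by
          rw [← Real.rpow_mul (by norm_num)]
      _ ≤ (2 : ℝ) ^ (τ : ℝ) := by
          refine Real.rpow_le_rpow_of_exponent_le (by norm_num) ?_
          rw [mul_one_div, div_le_iff₀ (by positivity)]
          nlinarith
      _ = (2 : ℝ) ^ τ := Real.rpow_natCast _ _
  have hs3 : (n : ℝ) ^ (1 + c) ≤ ((2 : ℝ) ^ τ) ^ (E + s') := by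
    calc (n : ℝ) ^ (1 + c) ≤ (n : ℝ) ^ (1 + c') :=
          Real.rpow_le_rpow_of_exponent_le hn1 (by linarith)
      _ ≤ ((2 : ℝ) ^ (((E : ℝ) + 2) * τ + (E + 2))) ^ (1 + c') :=
          Real.rpow_le_rpow (by positivity) hltr (by positivity)
      _ = (2 : ℝ) ^ ((((E : ℝ) + 2) * τ + (E + 2)) * (1 + c')) := by
          rw [← Real.rpow_mul (by norm_num)]
      _ ≤ (2 : ℝ) ^ ((τ : ℝ) * (E + s')) := by
          refine Real.rpow_le_rpow_of_exponent_le (by norm_num) ?_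
          have e1 : (τ : ℝ) * (c' * E + 5) ≤ τ * s' := by gcongr
          have e2 : ((E : ℝ) + 2) * (1 + c') ≤ 3 / 2 * τ := by nlinarith
          have e3 : (τ : ℝ) * c' ≤ τ * (1 / 2) := by gcongr
          nlinarith
      _ = ((2 : ℝ) ^ τ) ^ (E + s') := by
          rw [← pow_mul, ← Real.rpow_natCast]
          push_cast
          ring_nf
  refine ⟨F, g1, g2, g3, fun S L hL href => ?_⟩
  have h5 := g4 S L _ _ hk2 hs3 hL href
  have hk3 : (n : ℝ) ^ (1 / ((E : ℝ) + 3)) ≤ ((2 ^ τ : ℕ) : ℝ) := by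
    push_cast
    exact hk2
  calc (2 : ℝ) ^ ((n : ℝ) ^ (1 / ((E : ℝ) + 3))) ≤ (2 : ℝ) ^ (((2 ^ τ : ℕ) : ℝ)) :=
        Real.rpow_le_rpow_of_exponent_le (by norm_num) hk3
    _ = ((2 ^ (2 ^ τ) : ℕ) : ℝ) := by
        rw [Real.rpow_natCast]
        push_cast
        ring
    _ ≤ S := by exact_mod_cast h5.le

end Pool.Agent.MP_9cec2c_lc.TwoLevel
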