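import Pool.Agent.Lib.MP_9cec2c_lc.FPShallow

/-!
Linear systems over the field with two elements: local consistency and the path argument.
-/

set_option autoImplicit false
set_option linter.unusedSectionVars false

namespace Pool.Agent.MP_9cec2c_lc.TwoLevel

open Finset

variable {I J : Type} [Fintype I] [DecidableEq I] [Fintype J] [DecidableEq J]

/-- A bit as an element of the field with two elements. -/
def bz (b : Bool) : ZMod 2 := if b = true then 1 else 0

/-- The combination of the rows with coefficients `t`. -/
def cvec (M : I → J → ZMod 2) (t : I → ZMod 2) (j : J) : ZMod 2 := ∑ i, t i * M i j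

/-- The number of nonzero coordinates. -/
def wtz {I : Type} [Fintype I] (t : I → ZMod 2) : ℕ := (univ.filter fun i => t i ≠ 0).card

/-- Combinations of few rows have large support. -/
def Expands (M : I → J → ZMod 2) (r : ℕ) : Prop :=
  ∀ t : I → ZMod 2, wtz t ≤ 2 * r → wtz t ≤ 2 * wtz (cvec M t)

/-- The assignment on `Q` satisfies all combinations of at most `r` rows that only read `Q`. -/
def LC (M : I → J → ZMod 2) (b : I → ZMod 2) (r : ℕ) (Q : Finset J) (y : J → Bool) : Prop :=
  ∀ t : I → ZMod 2, wtz t ≤ r → (∀ j, j ∉ Q → cvec M t j = 0) →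
    ∑ j, cvec M t j * bz (y j) = ∑ i, t i * b i

theorem wtz_add (t t' : I → ZMod 2) : wtz (fun i => t i + t' i) ≤ wtz t + wtz t' := by
  unfold wtz
  refine (card_le_card ?_).trans (card_union_le _ _)
  intro i hi
  rw [mem_filter] at hi
  rw [mem_union, mem_filter, mem_filter]
  by_contra hcon
  push Not at hcon
  have h1 := hcon.1 (mem_univ _)
  have h2 := hcon.2 (mem_univ _)
  exact hi.2 (by simp only [h1, h2, add_zero])

theorem cvec_add (M : I → J → ZMod 2) (t t' : I → ZMod 2) (j : J) :
    cvec M (fun i => t i + t' i) j = cvec M t j + cvec M t' j := by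
  unfold cvec
  rw [← sum_add_distrib]
  exact sum_congr rfl fun i _ => by ring

theorem z2_cases (a : ZMod 2) : a = 0 ∨ a = 1 := by
  revert a
  decide

theorem bz_surj (a : ZMod 2) : ∃ c : Bool, bz c = a := by
  rcases z2_cases a with rfl | rfl
  · exact ⟨false, rfl⟩
  · exact ⟨true, rfl⟩

section

variable {M : I → J → ZMod 2} {b : I → ZMod 2} {r : ℕ}

theorem LC.mono {Q Q' : Finset J} {y : J → Bool} (h : LC M b r Q y) (hQ : Q' ⊆ Q) :
    LC M b r Q' y :=
  fun t ht ht' => h t ht fun j hj => ht' j fun hj' => hj (hQ hj')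

theorem LC.congr {Q : Finset J} {y y' : J → Bool} (h : LC M b r Q y)
    (hy : ∀ j ∈ Q, y j = y' j) : LC M b r Q y' := by
  intro t ht ht'
  rw [← h t ht ht']
  refine sum_congr rfl fun j _ => ?_
  by_cases hj : j ∈ Q
  · rw [hy j hj]
  · rw [ht' j hj, zero_mul, zero_mul]

theorem LC.empty (hE : Expands M r) (y : J → Bool) : LC M b r ∅ y := by
  intro t ht ht'
  have h1 : wtz (cvec M t) = 0 := by
    unfold wtz
    rw [card_eq_zero, filter_eq_empty_iff]
    intro j _
    rw [not_not]
    exact ht' j (notMem_empty j)
  have h2 := hE t (by omega)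
  have h3 : wtz t = 0 := by omega
  have h4 : ∀ i, t i = 0 := by
    intro i
    unfold wtz at h3
    rw [card_eq_zero, filter_eq_empty_iff] at h3
    exact not_not.1 (h3 (mem_univ i))
  have h5 : ∀ j, cvec M t j = 0 := fun j => ht' j (notMem_empty j)
  simp [h4, h5]

theorem sum_update (c : J → ZMod 2) (y : J → Bool) (v : J) (e : Bool) :
    ∑ j, c j * bz (Function.update y v e j) =
      ∑ j, c j * bz (y j) + c v * (bz e - bz (y v)) := by
  have h1 : ∀ j, c j * bz (Function.update y v e j) =
      c j * bz (y j) + if j = v then c v * (bz e - bz (y v)) else 0 := by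
    intro j
    by_cases hj : j = v
    · subst hj
      rw [Function.update_self, if_pos rfl]
      ring
    · rw [Function.update_of_ne hj, if_neg hj, add_zero]
  simp only [h1]
  rw [sum_add_distrib]
  congr 1
  simp

theorem LC.extend_one (hE : Expands M r) {Q : Finset J} {y : J → Bool} (h : LC M b r Q y)
    {v : J} (hQ : 2 * Q.card ≤ r) :
    ∃ c : Bool, LC M b r (insert v Q) (Function.update y v c) := by
  classical
  by_cases hex : ∃ t0 : I → ZMod 2, wtz t0 ≤ r ∧ (∀ j, j ∉ insert v Q → cvec M t0 j = 0) ∧
      cvec M t0 v = 1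
  · obtain ⟨t0, h1, h2, h3⟩ := hex
    obtain ⟨c, hc⟩ := bz_surj (∑ i, t0 i * b i - ∑ j, cvec M t0 j * bz (y j) + bz (y v))
    have h4 : ∑ j, cvec M t0 j * bz (Function.update y v c j) = ∑ i, t0 i * b i := by
      rw [sum_update, h3, hc]
      ring
    refine ⟨c, fun t ht ht' => ?_⟩
    rcases z2_cases (cvec M t v) with h5 | h5
    · rw [sum_update, h5, zero_mul, add_zero]
      refine h t ht fun j hj => ?_
      by_cases hjv : j = v
      · rw [hjv, h5]
      · exact ht' j fun hj' => (mem_insert.1 hj').elim hjv hj
    · have h6 : ∀ j, j ∉ Q → cvec M (fun i => t i + t0 i) j = 0 := by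
        intro j hj
        rw [cvec_add]
        by_cases hjv : j = v
        · rw [hjv, h5, h3]
          decide
        · have hj' : j ∉ insert v Q := fun hj' => (mem_insert.1 hj').elim hjv hj
          rw [ht' j hj', h2 j hj', add_zero]
      have h7 : wtz (fun i => t i + t0 i) ≤ r := by
        have h8 := hE (fun i => t i + t0 i) ((wtz_add t t0).trans (by omega))
        refine h8.trans (le_trans (Nat.mul_le_mul_left 2 ?_) hQ)
        unfold wtz
        refine card_le_card fun j hj => ?_
        by_contra hcon
        exact (mem_filter.1 hj).2 (h6 j hcon)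
      have h9 := h _ h7 h6
      have h10 : ∑ j, cvec M (fun i => t i + t0 i) j * bz (Function.update y v c j) =
          ∑ i, (t i + t0 i) * b i := by
        rw [sum_update, cvec_add, h5, h3, h9]
        have : (1 + 1 : ZMod 2) = 0 := by decide
        rw [this, zero_mul, add_zero]
      simp only [cvec_add, add_mul, sum_add_distrib] at h10
      rw [h4] at h10
      exact add_right_cancel h10
  · push Not at hex
    refine ⟨true, fun t ht ht' => ?_⟩
    have h5 : cvec M t v = 0 := (z2_cases _).resolve_right (hex t ht ht')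
    rw [sum_update, h5, zero_mul, add_zero]
    refine h t ht fun j hj => ?_
    by_cases hjv : j = v
    · rw [hjv, h5]
    · exact ht' j fun hj' => (mem_insert.1 hj').elim hjv hj

theorem LC.extend (hE : Expands M r) {Q : Finset J} {y : J → Bool} (h : LC M b r Q y)
    (S : Finset J) (hS : 2 * (Q ∪ S).card ≤ r) :
    ∃ y' : J → Bool, (∀ j ∈ Q, y' j = y j) ∧ LC M b r (Q ∪ S) y' := by
  classical
  induction S using Finset.induction_on with
  | empty => exact ⟨y, fun _ _ => rfl, by rwa [union_empty]⟩
  | insert v S hv ih =>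
    have hsub : Q ∪ S ⊆ Q ∪ insert v S := union_subset_union_right (subset_insert _ _)
    have hS' : 2 * (Q ∪ S).card ≤ r := (Nat.mul_le_mul_left 2 (card_le_card hsub)).trans hS
    obtain ⟨y1, h1, h2⟩ := ih hS'
    by_cases hvQ : v ∈ Q ∪ S
    · refine ⟨y1, h1, ?_⟩
      have : Q ∪ insert v S = Q ∪ S := by
        rw [union_insert, insert_eq_of_mem hvQ]
      rwa [this]
    · obtain ⟨c, hc⟩ := LC.extend_one hE h2 (v := v) hS'
      refine ⟨Function.update y1 v c, fun j hj => ?_, by rwa [union_insert]⟩
      rw [Function.update_of_ne, h1 j hj]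
      rintro rfl
      exact hvQ (mem_union_left _ hj)

theorem gather (hE : Expands M r) {d : ℕ} {κ : Type} [DecidableEq κ]
    (D : κ → Finset J) (R : κ → (J → Bool) → Finset J)
    (h1 : ∀ i y, D i ⊆ R i y ∧ (R i y).card ≤ d)
    (h2 : ∀ i (y y' : J → Bool), (∀ j ∈ D i, y j = y' j) → R i y = R i y')
    {Q : Finset J} {y : J → Bool} (h : LC M b r Q y) (P : Finset κ)
    (hP : 2 * (Q.card + P.card * d) ≤ r) :
    ∃ (Q' : Finset J) (y' : J → Bool), Q ⊆ Q' ∧ (∀ j ∈ Q, y' j = y j) ∧ LC M b r Q' y' ∧
      Q'.card ≤ Q.card + P.card * d ∧ ∀ i ∈ P, R i y' ⊆ Q' := by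
  classical
  induction P using Finset.induction_on with
  | empty => exact ⟨Q, y, Subset.rfl, fun _ _ => rfl, h, by simp, by simp⟩
  | insert p P hp ih =>
    rw [card_insert_of_notMem hp, add_mul, one_mul] at hP
    obtain ⟨Q1, y1, g1, g2, g3, g4, g5⟩ := ih (by omega)
    have c1 : 2 * (Q1 ∪ D p).card ≤ r := by
      have e1 := card_union_le Q1 (D p)
      have e2 := (card_le_card (h1 p y1).1).trans (h1 p y1).2
      omega
    obtain ⟨y2, k1, k2⟩ := LC.extend hE g3 (D p) c1
    have c2 : ((Q1 ∪ D p) ∪ R p y2).card ≤ Q1.card + d := by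
      have e1 : (Q1 ∪ D p) ∪ R p y2 = Q1 ∪ R p y2 := by
        rw [union_assoc, union_eq_right.2 (h1 p y2).1]
      rw [e1]
      exact (card_union_le _ _).trans (Nat.add_le_add_left (h1 p y2).2 _)
    obtain ⟨y3, m1, m2⟩ := LC.extend hE k2 (R p y2) (by omega)
    have a1 : ∀ j ∈ Q1, y3 j = y1 j := fun j hj =>
      (m1 j (mem_union_left _ hj)).trans (k1 j hj)
    refine ⟨(Q1 ∪ D p) ∪ R p y2, y3, ?_, ?_, m2, ?_, ?_⟩
    · exact g1.trans (subset_union_left.trans subset_union_left)
    · intro j hj
      rw [a1 j (g1 hj), g2 j hj]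
    · rw [card_insert_of_notMem hp, add_mul, one_mul]
      omega
    · intro i hi
      rw [mem_insert] at hi
      rcases hi with rfl | hi
      · have : R i y3 = R i y2 := h2 i _ _ fun j hj => m1 j (mem_union_right _ hj)
        rw [this]
        exact subset_union_right
      · have : R i y3 = R i y1 := h2 i _ _ fun j hj => by
          have : j ∈ Q1 := g5 i hi ((h1 i y1).1 hj)
          exact a1 j this
        rw [this]
        exact (g5 i hi).trans (subset_union_left.trans subset_union_left)

/-- There is no refutation all of whose lines are shallow. -/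
theorem no_refutation (hE : Expands M r) {d t : ℕ} (hr : 1 ≤ r) (hd : 2 * ((t + 1) * d) ≤ r)
    {S : ℕ}
    (f : Fin S → (J → Bool) → Bool) (hsh : ∀ i, Shallow d (f i))
    (hax : ∀ i, (∃ i0, ∀ y, (∑ j, M i0 j * bz (y j) = b i0) → f i y = true) ∨
      ∃ P : Finset (Fin S), P.card ≤ t ∧ (∀ j ∈ P, j < i) ∧
        ∀ y, (∀ j ∈ P, f j y = true) → f i y = true)
    (hfin : ∃ i, ∀ y, f i y = false) : False := by
  classical
  choose D R h1 h2 h3 using hsh
  have key : ∀ n : ℕ, ∀ i : Fin S, (i : ℕ) = n → ∀ (Q : Finset J) (y : J → Bool),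
      LC M b r Q y → Q.card ≤ d → (∀ y', (∀ j ∈ Q, y' j = y j) → f i y' = false) → False := by
    intro n
    induction n using Nat.strong_induction_on with
    | _ n ih =>
      intro i hi Q y hLC hQ hf
      rcases hax i with ⟨i0, hi0⟩ | ⟨P, hP1, hP2, hP3⟩
      · have hsup : ∀ j, j ∉ Q → M i0 j = 0 := by
          intro j hj
          by_contra hcon
          have hM : M i0 j = 1 := (z2_cases _).resolve_left hcon
          obtain ⟨c, hc⟩ := bz_surj (b i0 - ∑ j', M i0 j' * bz (y j') + bz (y j))
          have e1 : ∑ j', M i0 j' * bz (Function.update y j c j') = b i0 := by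
            rw [sum_update (M i0) y j c, hM, hc]
            ring
          have e2 := hi0 _ e1
          have e3 := hf (Function.update y j c) fun j' hj' => by
            rw [Function.update_of_ne]
            rintro rfl
            exact hj hj'
          rw [e2] at e3
          exact absurd e3 (by decide)
        obtain ⟨e, he⟩ : ∃ e : I → ZMod 2, e = fun i => if i = i0 then 1 else 0 := ⟨_, rfl⟩
        have e0 : ∀ i, e i = if i = i0 then 1 else 0 := fun i => by rw [he]
        have e1 : ∀ j, cvec M e j = M i0 j := by
          intro j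
          unfold cvec
          simp [e0]
        have e2 : wtz e ≤ r := by
          refine le_trans ?_ hr
          unfold wtz
          rw [card_le_one]
          intro a ha c hc
          rw [mem_filter, e0] at ha hc
          have ha' : a = i0 := by
            by_contra hne
            exact ha.2 (if_neg hne)
          have hc' : c = i0 := by
            by_contra hne
            exact hc.2 (if_neg hne)
          rw [ha', hc']
        have e3 := hLC e e2 fun j hj => by rw [e1, hsup j hj]
        simp only [e1] at e3
        have e4 : ∑ i, e i * b i = b i0 := by simp [e0]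
        rw [e4] at e3
        have e5 := hi0 y e3
        rw [hf y fun _ _ => rfl] at e5
        exact absurd e5 (by decide)
      · have hsz : 2 * (Q.card + P.card * d) ≤ r := by
          have : P.card * d ≤ t * d := Nat.mul_le_mul_right _ hP1
          rw [add_mul, one_mul] at hd
          omega
        obtain ⟨Q', y', g1, g2, g3, g4, g5⟩ := gather hE D R h1 h2 hLC P hsz
        have g6 : f i y' = false := hf y' g2
        have g7 : ∃ j ∈ P, f j y' = false := by
          by_contra hcon
          push Not at hcon
          have := hP3 y' fun j hj => by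
            have := hcon j hj
            simpa using this
          rw [this] at g6
          exact absurd g6 (by decide)
        obtain ⟨j, hj, hjf⟩ := g7
        refine ih j (by rw [← hi]; exact hP2 j hj) j rfl (R j y') y' (g3.mono (g5 j hj))
          (h1 j y').2 fun y'' hy'' => ?_
        rw [← hjf]
        exact (h3 j y' y'' fun a ha => (hy'' a ha).symm).symm
  obtain ⟨i, hi⟩ := hfin
  exact key i i rfl ∅ (fun _ => false) (LC.empty hE _) (by simp) fun y' _ => hi y'

end

end Pool.Agent.MP_9cec2c_lc.TwoLevel
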