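import Pool.Agent.Lib.MP_9cec2c_lc.FPProb

/-!
Crowded pieces: after the removal of few pointers no piece contains many alive positions.
-/

set_option autoImplicit false
set_option linter.unusedSectionVars false

namespace Pool.Agent.MP_9cec2c_lc.TwoLevel

open Finset
open Pool.Agent.MP_9cec2c_lc.SubstRed
open Pool.Agent.MP_9cec2c_lc.FormulaLines

variable {X J ι : Type} [Fintype X] [DecidableEq X] [Fintype J] [DecidableEq J] [Fintype ι]
  [DecidableEq ι]

/-- No piece contains `q` alive positions of pointers outside `D`. -/
def Valid (RX : ι → Finset X) (q : ℕ) (p : J → X) (D : Finset J) : Prop :=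
  ∀ i, ((univ \ D).filter fun j => p j ∈ RX i).card < q

theorem Valid.mono {RX : ι → Finset X} {q : ℕ} {p : J → X} {D D' : Finset J}
    (h : Valid RX q p D) (hD : D ⊆ D') : Valid RX q p D' := by
  intro i
  refine lt_of_le_of_lt (card_le_card ?_) (h i)
  exact filter_subset_filter _ (sdiff_subset_sdiff Subset.rfl hD)

theorem crowd_cases (RX : ι → Finset X) (q : ℕ) (p : J → X) (g : ℕ) :
    (∃ D : Finset J, D.card ≤ q * g ∧ Valid RX q p D) ∨
      ∃ f : Fin g → Finset J × ι, (∀ h, (f h).1.card = q) ∧
        (∀ h h', h ≠ h' → Disjoint (f h).1 (f h').1) ∧ ∀ h, ∀ j ∈ (f h).1, p j ∈ RX (f h).2 := by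
  classical
  induction g with
  | zero => exact Or.inr ⟨fun h => h.elim0, fun h => h.elim0, fun h => h.elim0, fun h => h.elim0⟩
  | succ g ih =>
    rcases ih with ⟨D, h1, h2⟩ | ⟨f, h1, h2, h3⟩
    · exact Or.inl ⟨D, h1.trans (Nat.mul_le_mul_left _ (Nat.le_succ g)), h2⟩
    · obtain ⟨D, hD⟩ : ∃ D : Finset J, D = univ.biUnion fun h => (f h).1 := ⟨_, rfl⟩
      have hDc : D.card ≤ q * g := by
        rw [hD]
        refine (card_biUnion_le_card_mul _ _ q fun h _ => (h1 h).le).trans ?_
        rw [card_univ, Fintype.card_fin, mul_comm]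
      by_cases hv : Valid RX q p D
      · exact Or.inl ⟨D, hDc.trans (Nat.mul_le_mul_left _ (Nat.le_succ g)), hv⟩
      · right
        unfold Valid at hv
        push Not at hv
        obtain ⟨i, hi⟩ := hv
        obtain ⟨Q, hQ1, hQ2⟩ := exists_subset_card_eq hi
        have hQD : Disjoint Q D := by
          rw [disjoint_left]
          intro j hj hj'
          exact (mem_sdiff.1 (mem_filter.1 (hQ1 hj)).1).2 hj'
        have hQf : ∀ h, Disjoint Q (f h).1 := fun h =>
          disjoint_of_subset_right (by
            rw [hD]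
            exact subset_biUnion_of_mem (fun h => (f h).1) (mem_univ h)) hQD
        refine ⟨Fin.cons (Q, i) f, ?_, ?_, ?_⟩
        · intro h
          refine Fin.cases ?_ (fun h => ?_) h
          · rw [Fin.cons_zero]
            exact hQ2
          · rw [Fin.cons_succ]
            exact h1 h
        · intro h
          refine Fin.cases ?_ (fun h => ?_) h
          · intro h'
            refine Fin.cases ?_ (fun h' => ?_) h'
            · intro hne
              exact absurd rfl hne
            · intro _
              rw [Fin.cons_zero, Fin.cons_succ]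
              exact hQf h'
          · intro h'
            refine Fin.cases ?_ (fun h' => ?_) h'
            · intro _
              rw [Fin.cons_zero, Fin.cons_succ]
              exact (hQf h).symm
            · intro hne
              rw [Fin.cons_succ, Fin.cons_succ]
              refine h2 h h' ?_
              rintro rfl
              exact hne rfl
        · intro h
          refine Fin.cases ?_ (fun h => ?_) h
          · rw [Fin.cons_zero]
            intro j hj
            exact (mem_filter.1 (hQ1 hj)).2
          · rw [Fin.cons_succ]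
            exact h3 h

/-- The probability that many pointers would have to be removed. -/
theorem pr_crowd [Nonempty X] {RX : ι → Finset X} {A : ℕ} (hA : ∀ i, (RX i).card ≤ A)
    (q g : ℕ) :
    pr (fun p : J → X => ¬ ∃ D : Finset J, D.card ≤ q * g ∧ Valid RX q p D) ≤
      ((Fintype.card J : ℝ) ^ q * Fintype.card ι * ((A : ℝ) / Fintype.card X) ^ q) ^ g := by
  classical
  have hN : (0 : ℝ) < Fintype.card X := by exact_mod_cast Fintype.card_pos
  obtain ⟨F, hF⟩ : ∃ F : Finset (Fin g → Finset J × ι), F = Fintype.piFinset
      (fun _ => powersetCard q (univ : Finset J) ×ˢ (univ : Finset ι)) := ⟨_, rfl⟩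
  have hcov : ∀ p : J → X, (¬ ∃ D : Finset J, D.card ≤ q * g ∧ Valid RX q p D) →
      ∃ f ∈ F, (∀ h h', h ≠ h' → Disjoint (f h).1 (f h').1) ∧
        ∀ h, ∀ j ∈ (f h).1, p j ∈ RX (f h).2 := by
    intro p hp
    rcases crowd_cases RX q p g with h | ⟨f, h1, h2, h3⟩
    · exact absurd h hp
    · refine ⟨f, ?_, h2, h3⟩
      rw [hF, Fintype.mem_piFinset]
      intro h
      rw [mem_product, mem_powersetCard]
      exact ⟨⟨subset_univ _, h1 h⟩, mem_univ _⟩
  refine (pr_mono hcov).trans ((pr_exists _ _).trans ?_)
  have hterm : ∀ f ∈ F, pr (fun p : J → X => (∀ h h', h ≠ h' → Disjoint (f h).1 (f h').1) ∧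
        ∀ h, ∀ j ∈ (f h).1, p j ∈ RX (f h).2) ≤ ((A : ℝ) / Fintype.card X) ^ (q * g) := by
    intro f hf
    by_cases hdis : ∀ h h', h ≠ h' → Disjoint (f h).1 (f h').1
    · have hcard : (univ.biUnion fun h => (f h).1).card = q * g := by
        rw [card_biUnion fun h _ h' _ hne => hdis h h' hne]
        have : ∀ h ∈ (univ : Finset (Fin g)), (f h).1.card = q := by
          intro h _
          rw [hF, Fintype.mem_piFinset] at hf
          have := hf h
          rw [mem_product, mem_powersetCard] at this
          exact this.1.2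
        rw [sum_congr rfl this, sum_const, card_univ, Fintype.card_fin, smul_eq_mul, mul_comm]
      rw [← hcard]
      refine le_trans (pr_mono (q := fun p : J → X => ∀ j ∈ univ.biUnion fun h => (f h).1,
        (fun (j : J) (_ : J → X) (a : X) => ∀ h, j ∈ (f h).1 → a ∈ RX (f h).2) j p (p j)) ?_)
        (indep _ (fun (j : J) (_ : J → X) (a : X) => ∀ h, j ∈ (f h).1 → a ∈ RX (f h).2) _
          (fun _ _ _ _ _ _ _ => Iff.rfl) ?_)
      · rintro p ⟨-, hp⟩ j _ h hj
        exact hp h j hj
      · intro j hj _
        rw [mem_biUnion] at hj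
        obtain ⟨h, -, hj⟩ := hj
        refine (pr_mono (q := fun a => a ∈ RX (f h).2) fun a ha => ha h hj).trans ?_
        rw [pr_mem_finset]
        gcongr
        exact_mod_cast hA _
    · refine (pr_mono (q := fun _ => False) fun p hp => hdis hp.1).trans ?_
      rw [pr_false]
      positivity
  refine (sum_le_sum hterm).trans ?_
  rw [sum_const, nsmul_eq_mul]
  have hFc : (F.card : ℝ) ≤ ((Fintype.card J : ℝ) ^ q * Fintype.card ι) ^ g := by
    rw [hF, Fintype.card_piFinset]
    simp only [card_product, card_powersetCard, card_univ, prod_const, Fintype.card_fin]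
    push_cast
    gcongr
    exact_mod_cast Nat.choose_le_pow _ _
  rw [mul_pow (_ * _), ← pow_mul]
  gcongr

end Pool.Agent.MP_9cec2c_lc.TwoLevel
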