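import Pool.Agent.Lib.MP_9cec2c_lc.FPBase

/-!
Random systems with three occurrences in a row expand.
-/

set_option autoImplicit false
set_option linter.unusedSectionVars false

namespace Pool.Agent.MP_9cec2c_lc.TwoLevel

open Finset
open Pool.Agent.MP_9cec2c_lc.SubstRed
open Pool.Agent.MP_9cec2c_lc.FormulaLines

/-- The matrix of the system whose row `i` is the sum of the variables `E i a`. -/
def mat {I J : Type} [DecidableEq J] (E : I → Fin 3 → J) (i : I) (j : J) : ZMod 2 :=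
  ∑ a, if E i a = j then 1 else 0

theorem choose_le_three {n k : ℕ} (hk : 0 < k) : (n.choose k : ℝ) ≤ (3 * n / k : ℝ) ^ k := by
  have hk' : (0 : ℝ) < k := by exact_mod_cast hk
  have h1 : (n.choose k : ℝ) ≤ (n : ℝ) ^ k / k.factorial := Nat.choose_le_pow_div k n
  have h2 : (k : ℝ) ^ k / k.factorial ≤ 3 ^ k := by
    refine (Real.pow_div_factorial_le_exp (k : ℝ) hk'.le k).trans ?_
    have h3 : Real.exp (k : ℝ) = Real.exp 1 ^ k := by
      rw [← Real.exp_nat_mul, mul_one]
    rw [h3]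
    refine pow_le_pow_left₀ (Real.exp_pos 1).le ?_ _
    have := Real.exp_one_lt_d9
    linarith
  refine h1.trans ?_
  have hf : (0 : ℝ) < k.factorial := by exact_mod_cast Nat.factorial_pos k
  rw [div_pow, mul_pow, div_le_div_iff₀ hf (by positivity)]
  rw [div_le_iff₀ hf] at h2
  have h4 : (0 : ℝ) ≤ (n : ℝ) ^ k := by positivity
  nlinarith

section

variable {I J : Type} [Fintype I] [DecidableEq I] [Fintype J] [DecidableEq J]

theorem pr_all_in [Nonempty J] (T : Finset I) (V : Finset J) :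
    pr (fun E : I → Fin 3 → J => ∀ i ∈ T, ∀ a, E i a ∈ V) ≤
      (((V.card : ℝ) / Fintype.card J) ^ 3) ^ T.card := by
  refine indep_fixed T (fun e : Fin 3 → J => ∀ a, e a ∈ V) _ ?_
  have h1 := indep_fixed (univ : Finset (Fin 3)) (fun a : J => a ∈ V)
    ((V.card : ℝ) / Fintype.card J) (pr_mem_finset V).le
  simpa using h1

/-- The number of occurrences of a variable in the rows of `T`. -/
def occ (E : I → Fin 3 → J) (T : Finset I) (j : J) : ℕ :=
  ((T ×ˢ (univ : Finset (Fin 3))).filter fun p => E p.1 p.2 = j).card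

theorem occ_sum (E : I → Fin 3 → J) (T : Finset I) : ∑ j, occ E T j = 3 * T.card := by
  have h1 := card_eq_sum_card_fiberwise (s := T ×ˢ (univ : Finset (Fin 3))) (t := (univ : Finset J))
    (f := fun p => E p.1 p.2) fun _ _ => by simp
  rw [card_product, card_univ, Fintype.card_fin, mul_comm] at h1
  exact h1.symm

theorem occ_eq (E : I → Fin 3 → J) (t : I → ZMod 2) (j : J) :
    cvec (mat E) t j = (occ E (univ.filter fun i => t i ≠ 0) j : ZMod 2) := by
  unfold cvec occ mat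
  rw [card_filter, sum_product]
  push_cast
  rw [sum_filter]
  refine sum_congr rfl fun i _ => ?_
  rcases z2_cases (t i) with h | h
  · simp [h]
  · simp [h]

/-- Many variables occur in the rows of `T`, hence many of them occur once. -/
theorem many_odd (E : I → Fin 3 → J) (T : Finset I)
    (h : 7 * T.card ≤ 4 * (univ.filter fun j => 0 < occ E T j).card) :
    T.card ≤ 2 * (univ.filter fun j => (occ E T j : ZMod 2) ≠ 0).card := by
  classical
  have h1 : ∀ j, 2 * (if 0 < occ E T j then 1 else 0) ≤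
      occ E T j + (if (occ E T j : ZMod 2) ≠ 0 then 1 else 0) := by
    intro j
    by_cases h2 : 0 < occ E T j
    · rw [if_pos h2]
      by_cases h3 : occ E T j = 1
      · rw [h3, if_pos (by decide)]
      · omega
    · rw [if_neg h2]
      omega
  have h2 := sum_le_sum fun j (_ : j ∈ (univ : Finset J)) => h1 j
  rw [← mul_sum, sum_add_distrib, occ_sum, ← card_filter, ← card_filter] at h2
  omega

end

/-- The numerical estimate for the union bound. -/
theorem union_term {n s v : ℕ} (hs : 1 ≤ s) (hv : 1 ≤ v) (h7 : 4 * v ≤ 7 * s)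
    (hn : 2 ^ 40 * s ≤ n) :
    ((n + 1).choose s : ℝ) * (n.choose v : ℝ) * (((v : ℝ) / n) ^ 3) ^ s ≤ (1 / 4 : ℝ) ^ s := by
  have hs0 : (0 : ℝ) < s := by exact_mod_cast hs
  have hv0 : (0 : ℝ) < v := by exact_mod_cast hv
  have hn1 : 1 ≤ n := by omega
  have hn' : (0 : ℝ) < n := by exact_mod_cast hn1
  have h2 : ((n + 1).choose s : ℝ) ≤ (6 * n / s : ℝ) ^ s := by
    refine (choose_le_three (n := n + 1) hs).trans ?_
    refine pow_le_pow_left₀ (by positivity) ?_ _
    rw [div_le_div_iff_of_pos_right hs0]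
    push_cast
    have : (1 : ℝ) ≤ n := by exact_mod_cast hn1
    linarith
  have h3 := choose_le_three (n := n) hv
  obtain ⟨a, ha⟩ : ∃ a, 3 * s = v + s + a := ⟨2 * s - v, by omega⟩
  have ha4 : s ≤ 4 * a := by omega
  have hv2 : (v : ℝ) / n ≤ 2 * s / n := by
    rw [div_le_div_iff_of_pos_right hn']
    have : v ≤ 2 * s := by omega
    exact_mod_cast this
  have hsmall : (2 * s / n : ℝ) ≤ (1 / 2) ^ 39 := by
    rw [div_le_iff₀ hn']
    have h5 : (2 : ℝ) ^ 40 * s ≤ n := by exact_mod_cast hn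
    have h6 : (2 : ℝ) * s = (1 / 2) ^ 39 * (2 ^ 40 * s) := by
      ring
    rw [h6]
    exact mul_le_mul_of_nonneg_left h5 (by positivity)
  have h4 : (3 * n / v : ℝ) ^ v * (((v : ℝ) / n) ^ 3) ^ s =
      3 ^ v * (((v : ℝ) / n) ^ s * ((v : ℝ) / n) ^ a) := by
    rw [← pow_mul, ha, pow_add, pow_add]
    have : (3 * n / v : ℝ) ^ v * ((v : ℝ) / n) ^ v = 3 ^ v := by
      rw [← mul_pow]
      congr 1
      field_simp
    calc (3 * n / v : ℝ) ^ v * (((v : ℝ) / n) ^ v * ((v : ℝ) / n) ^ s * ((v : ℝ) / n) ^ a)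
        = ((3 * n / v : ℝ) ^ v * ((v : ℝ) / n) ^ v) *
            (((v : ℝ) / n) ^ s * ((v : ℝ) / n) ^ a) := by ring
      _ = _ := by rw [this]
  have h5 : ((v : ℝ) / n) ^ a ≤ (1 / 2 ^ 9) ^ s := by
    calc ((v : ℝ) / n) ^ a ≤ ((1 / 2 : ℝ) ^ 39) ^ a :=
          pow_le_pow_left₀ (by positivity) (hv2.trans hsmall) _
      _ = (1 / 2 : ℝ) ^ (39 * a) := by rw [← pow_mul]
      _ ≤ (1 / 2 : ℝ) ^ (9 * s) :=
          pow_le_pow_of_le_one (by norm_num) (by norm_num) (by omega)
      _ = (1 / 2 ^ 9 : ℝ) ^ s := by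
          rw [pow_mul]
          norm_num
  have h6 : (3 : ℝ) ^ v ≤ 9 ^ s := by
    calc (3 : ℝ) ^ v ≤ 3 ^ (2 * s) := pow_le_pow_right₀ (by norm_num) (by omega)
      _ = 9 ^ s := by
          rw [pow_mul]
          norm_num
  calc ((n + 1).choose s : ℝ) * (n.choose v : ℝ) * (((v : ℝ) / n) ^ 3) ^ s
      ≤ (6 * n / s : ℝ) ^ s * (3 * n / v : ℝ) ^ v * (((v : ℝ) / n) ^ 3) ^ s := by gcongr
    _ = (6 * n / s : ℝ) ^ s * ((3 * n / v : ℝ) ^ v * (((v : ℝ) / n) ^ 3) ^ s) := by ring
    _ = (6 * n / s : ℝ) ^ s * (3 ^ v * (((v : ℝ) / n) ^ s * ((v : ℝ) / n) ^ a)) := by rw [h4]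
    _ ≤ (6 * n / s : ℝ) ^ s * (9 ^ s * ((2 * s / n : ℝ) ^ s * (1 / 2 ^ 9) ^ s)) := by gcongr
    _ = (108 / 512 : ℝ) ^ s := by
        rw [← mul_pow, ← mul_pow, ← mul_pow]
        congr 1
        field_simp
        norm_num
    _ ≤ (1 / 4 : ℝ) ^ s := pow_le_pow_left₀ (by norm_num) (by norm_num) _

/-- Existence of an expanding system. -/
theorem exists_expand {n r : ℕ} (hr : 2 ^ 41 * r ≤ n) (hn : 0 < n) :
    ∃ E : Fin (n + 1) → Fin 3 → Fin n, Expands (mat E) r := by
  classical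
  have : Nonempty (Fin n) := ⟨⟨0, hn⟩⟩
  have hn' : (0 : ℝ) < n := by exact_mod_cast hn
  have hterm : ∀ s ∈ Icc 1 (2 * r),
      pr (fun E : Fin (n + 1) → Fin 3 → Fin n =>
        ∃ p ∈ (powersetCard s (univ : Finset (Fin (n + 1)))) ×ˢ
          (powersetCard (7 * s / 4) (univ : Finset (Fin n))),
          ∀ i ∈ p.1, ∀ a, E i a ∈ p.2) ≤ (1 / 4 : ℝ) ^ s := by
    intro s hs
    rw [mem_Icc] at hs
    refine (pr_exists _ _).trans ?_
    have h1 : ∀ p ∈ (powersetCard s (univ : Finset (Fin (n + 1)))) ×ˢ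
          (powersetCard (7 * s / 4) (univ : Finset (Fin n))),
        pr (fun E : Fin (n + 1) → Fin 3 → Fin n => ∀ i ∈ p.1, ∀ a, E i a ∈ p.2) ≤
          ((((7 * s / 4 : ℕ) : ℝ) / n) ^ 3) ^ s := by
      rintro ⟨T, V⟩ hp
      rw [mem_product, mem_powersetCard, mem_powersetCard] at hp
      have := pr_all_in T V
      rw [hp.1.2, hp.2.2, Fintype.card_fin] at this
      exact this
    refine (sum_le_sum h1).trans ?_
    rw [sum_const, card_product, card_powersetCard, card_powersetCard, card_univ, card_univ,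
      Fintype.card_fin, Fintype.card_fin, nsmul_eq_mul, Nat.cast_mul]
    exact union_term hs.1 (by omega) (by omega) (by omega)
  have hall : pr (fun E : Fin (n + 1) → Fin 3 → Fin n => ∃ s ∈ Icc 1 (2 * r),
      ∃ p ∈ (powersetCard s (univ : Finset (Fin (n + 1)))) ×ˢ
          (powersetCard (7 * s / 4) (univ : Finset (Fin n))),
          ∀ i ∈ p.1, ∀ a, E i a ∈ p.2) < 1 := by
    refine lt_of_le_of_lt ((pr_exists _ _).trans (sum_le_sum hterm)) ?_
    have hgeo : ∀ m : ℕ, ∑ s ∈ Icc 1 m, (1 / 4 : ℝ) ^ s = (1 - (1 / 4 : ℝ) ^ m) / 3 := by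
      intro m
      induction m with
      | zero => simp
      | succ m ih =>
        rw [sum_Icc_succ_top (by omega), ih]
        ring
    rw [hgeo]
    have : (0 : ℝ) < (1 / 4 : ℝ) ^ (2 * r) := by positivity
    linarith
  obtain ⟨E, hE⟩ := exists_of_pr_lt_one hall
  refine ⟨E, fun t ht => ?_⟩
  obtain ⟨T, hT⟩ : ∃ T, T = univ.filter (fun i => t i ≠ 0) := ⟨_, rfl⟩
  have e1 : wtz t = T.card := by rw [hT]; rfl
  have e2 : wtz (cvec (mat E) t) = (univ.filter fun j => (occ E T j : ZMod 2) ≠ 0).card := by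
    unfold wtz
    congr 1
    refine filter_congr fun j _ => ?_
    rw [occ_eq, hT]
  rw [e1, e2]
  rw [e1] at ht
  rcases Nat.eq_zero_or_pos T.card with h0 | h0
  · omega
  · refine many_odd E T ?_
    by_contra hcon
    push Not at hcon
    apply hE
    obtain ⟨V, hV1, hV2⟩ := exists_superset_card_eq (s := univ.filter fun j => 0 < occ E T j)
      (n := 7 * T.card / 4) (by omega) (by rw [Fintype.card_fin]; omega)
    refine ⟨T.card, mem_Icc.2 ⟨h0, ht⟩, (T, V), ?_, ?_⟩
    · rw [mem_product, mem_powersetCard, mem_powersetCard]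
      exact ⟨⟨subset_univ _, rfl⟩, subset_univ _, hV2⟩
    · intro i hi a
      apply hV1
      rw [mem_filter]
      refine ⟨mem_univ _, ?_⟩
      unfold occ
      rw [card_pos]
      exact ⟨(i, a), mem_filter.2 ⟨mem_product.2 ⟨hi, mem_univ _⟩, rfl⟩⟩

/-- The map given by more rows than variables is not surjective. -/
theorem exists_rhs {n : ℕ} (E : Fin (n + 1) → Fin 3 → Fin n) :
    ∃ b : Fin (n + 1) → ZMod 2, ∀ y : Fin n → Bool,
      ∃ i, ∑ j, mat E i j * bz (y j) ≠ b i := by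
  classical
  by_contra hcon
  push Not at hcon
  have hsurj : Function.Surjective
      (fun (y : Fin n → Bool) (i : Fin (n + 1)) => ∑ j, mat E i j * bz (y j)) := by
    intro b
    obtain ⟨y, hy⟩ := hcon b
    exact ⟨y, funext hy⟩
  have h1 := Fintype.card_le_of_surjective _ hsurj
  simp only [Fintype.card_pi, prod_const, card_univ, Fintype.card_fin, Fintype.card_bool,
    ZMod.card] at h1
  have h2 : 2 ^ n < 2 ^ (n + 1) := Nat.pow_lt_pow_right (by norm_num) (by omega)
  omega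

end Pool.Agent.MP_9cec2c_lc.TwoLevel
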