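import Pool.Agent.Lib.MP_9cec2c_lc.FPSys

/-!
The failure event and its probability.
-/

set_option autoImplicit false
set_option linter.unusedSectionVars false

namespace Pool.Agent.MP_9cec2c_lc.TwoLevel

open Finset
open Pool.Agent.MP_9cec2c_lc.SubstRed
open Pool.Agent.MP_9cec2c_lc.FormulaLines

variable {J : Type} [Fintype J] [DecidableEq J] {B : ℕ}

/-- The number of leaves that read the cell `c`. -/
def cnt (φ : Formula (LV B J)) (c : Fin B → Bool) : ℕ := fmarks (ZC {c}) φ

theorem cnt_sum {k : ℕ} (φ : Formula (LV B J)) (hφ : φ.Local (k : ℝ)) :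
    ∑ c, cnt φ c ≤ k * φ.size := by
  classical
  induction φ with
  | leaf S g =>
    have h1 : ∀ c, cnt (Formula.leaf S g) c =
        if Disjoint S (ZC {c}) then 0 else 1 := fun c => rfl
    simp only [h1, Formula.size, mul_one]
    have h2 : ∑ c : Fin B → Bool, (if Disjoint S (ZC {c}) then 0 else 1) =
        (univ.filter fun c : Fin B → Bool => ¬ Disjoint S (ZC {c})).card := by
      rw [card_filter]
      refine sum_congr rfl fun c _ => ?_
      by_cases h : Disjoint S (ZC {c}) <;> simp [h]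
    rw [h2]
    refine le_trans ?_ (show S.card ≤ k by exact_mod_cast hφ.1)
    have hch : ∀ c : Fin B → Bool, ∃ v : LV B J, ¬ Disjoint S (ZC {c}) →
        v ∈ S ∧ ∃ β, v = Sum.inr (Sum.inl (c, β)) := by
      intro c
      by_cases h : Disjoint S (ZC {c})
      · exact ⟨Sum.inl c, fun h' => absurd h h'⟩
      · rw [not_disjoint_iff] at h
        obtain ⟨v, hv, hv'⟩ := h
        rw [mem_ZC] at hv'
        obtain ⟨c', hc', β, rfl⟩ := hv'
        rw [mem_singleton] at hc'
        subst hc'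
        exact ⟨_, fun _ => ⟨hv, β, rfl⟩⟩
    choose v hv using hch
    refine card_le_card_of_injOn v (fun c hc => (hv c (mem_filter.1 hc).2).1) ?_
    intro c hc c' hc' heq
    obtain ⟨β, hβ⟩ := (hv c (mem_filter.1 hc).2).2
    obtain ⟨β', hβ'⟩ := (hv c' (mem_filter.1 hc').2).2
    rw [hβ, hβ'] at heq
    have := Sum.inl_injective (Sum.inr_injective heq)
    exact (Prod.ext_iff.1 this).1
  | and f g ihf ihg =>
    have h1 : ∀ c, cnt (Formula.and f g) c = cnt f c + cnt g c := fun c => rfl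
    simp only [h1, Formula.size, sum_add_distrib, mul_add]
    exact Nat.add_le_add (ihf hφ.1) (ihg hφ.2)
  | or f g ihf ihg =>
    have h1 : ∀ c, cnt (Formula.or f g) c = cnt f c + cnt g c := fun c => rfl
    simp only [h1, Formula.size, sum_add_distrib, mul_add]
    exact Nat.add_le_add (ihf hφ.1) (ihg hφ.2)

/-- The cells read by at least `M` leaves. -/
def heavyC (φ : Formula (LV B J)) (M : ℕ) : Finset (Fin B → Bool) :=
  univ.filter fun c => M ≤ cnt φ c

theorem heavyC_card {k : ℕ} (φ : Formula (LV B J)) (hφ : φ.Local (k : ℝ)) (M : ℕ) :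
    (heavyC φ M).card * M ≤ k * φ.size := by
  refine le_trans ?_ (cnt_sum φ hφ)
  have h1 : (heavyC φ M).card * M ≤ ∑ c ∈ heavyC φ M, cnt φ c := by
    rw [← smul_eq_mul]
    exact card_nsmul_le_sum _ _ _ fun c hc => (mem_filter.1 hc).2
  exact h1.trans (sum_le_sum_of_subset (subset_univ _))

/-- The pointers to heavy cells. -/
def HC (φ : Formula (LV B J)) (M : ℕ) (ζ : J → Fin B → Bool) : Finset J :=
  univ.filter fun j => ζ j ∈ heavyC φ M

theorem fmarks_union (φ : Formula (LV B J)) (C C' : Finset (Fin B → Bool)) :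
    fmarks (ZC (C ∪ C')) φ ≤ fmarks (ZC C) φ + fmarks (ZC C') φ := by
  classical
  induction φ with
  | leaf S g =>
    unfold fmarks
    by_cases h1 : Disjoint S (ZC C)
    · by_cases h2 : Disjoint S (ZC C')
      · have h3 : Disjoint S (ZC (C ∪ C')) := by
          rw [disjoint_left] at *
          intro v hv hv'
          rw [mem_ZC] at hv'
          obtain ⟨c, hc, β, rfl⟩ := hv'
          rw [mem_union] at hc
          rcases hc with hc | hc
          · exact h1 hv (mem_ZC.2 ⟨c, hc, β, rfl⟩)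
          · exact h2 hv (mem_ZC.2 ⟨c, hc, β, rfl⟩)
        simp [h3]
      · simp only [h2, if_false]
        split_ifs <;> omega
    · simp only [h1, if_false]
      split_ifs <;> omega
  | and f g ihf ihg =>
    unfold fmarks
    omega
  | or f g ihf ihg =>
    unfold fmarks
    omega

theorem fmarks_empty (φ : Formula (LV B J)) : fmarks (ZC ∅) φ = 0 := by
  induction φ with
  | leaf S g =>
    unfold fmarks
    rw [if_pos]
    rw [disjoint_left]
    intro v _ hv
    rw [mem_ZC] at hv
    obtain ⟨c, hc, -⟩ := hv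
    exact absurd hc (notMem_empty c)
  | and f g ihf ihg => unfold fmarks; omega
  | or f g ihf ihg => unfold fmarks; omega

theorem fmarks_image (φ : Formula (LV B J)) {M : ℕ} (ζ : J → Fin B → Bool) (T : Finset J)
    (hT : ∀ j ∈ T, j ∉ HC φ M ζ) : fmarks (ZC (T.image ζ)) φ ≤ T.card * M := by
  classical
  induction T using Finset.induction_on with
  | empty =>
    rw [image_empty, fmarks_empty]
    exact Nat.zero_le _
  | insert j T hj ih =>
    rw [image_insert, card_insert_of_notMem hj, insert_eq, add_mul, one_mul]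
    refine (fmarks_union φ _ _).trans ?_
    have h1 := ih fun i hi => hT i (mem_insert_of_mem hi)
    have h2 : cnt φ (ζ j) < M := by
      have := hT j (mem_insert_self _ _)
      by_contra hcon
      push Not at hcon
      exact this (mem_filter.2 ⟨mem_univ _, mem_filter.2 ⟨mem_univ _, hcon⟩⟩)
    unfold cnt at h2
    omega

/-- Subsets of size at most `b`. -/
theorem small_card (b : ℕ) : ((univ : Finset (Finset J)).filter fun D => D.card ≤ b).card ≤
    (Fintype.card J + 1) ^ b := by
  classical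
  induction b with
  | zero =>
    rw [pow_zero, card_le_one]
    intro D hD D' hD'
    have h1 := (mem_filter.1 hD).2
    have h2 := (mem_filter.1 hD').2
    rw [Nat.le_zero, card_eq_zero] at h1 h2
    rw [h1, h2]
  | succ b ih =>
    have hsub : ((univ : Finset (Finset J)).filter fun D => D.card ≤ b + 1) ⊆
        (((univ : Finset (Finset J)).filter fun D => D.card ≤ b) ×ˢ
          (univ : Finset (Option J))).image
          (fun x => x.2.elim x.1 fun j => insert j x.1) := by
      intro D hD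
      have h1 := (mem_filter.1 hD).2
      rw [mem_image]
      rcases D.eq_empty_or_nonempty with rfl | ⟨j, hj⟩
      · refine ⟨(∅, none), mem_product.2 ⟨mem_filter.2 ⟨mem_univ _, by simp⟩, mem_univ _⟩, rfl⟩
      · refine ⟨(D.erase j, some j), mem_product.2 ⟨mem_filter.2 ⟨mem_univ _, ?_⟩, mem_univ _⟩,
          ?_⟩
        · rw [card_erase_of_mem hj]
          omega
        · simp only [Option.elim_some]
          exact insert_erase hj
    refine (card_le_card hsub).trans (card_image_le.trans ?_)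
    rw [card_product, card_univ, Fintype.card_option, pow_succ]
    exact Nat.mul_le_mul_right _ ih

open scoped Classical in
/-- The relevant pointers outside `D` and outside the pointers to heavy cells. -/
noncomputable def rels (φ : Formula (LV B J)) (M : ℕ) (ζ p : J → Fin B → Bool) (D : Finset J)
    (r : (Fin B → Bool) → Bool) : Finset J :=
  univ.filter fun j => (j ∉ D ∧ j ∉ HC φ M ζ) ∧ Rel (fun r => φ.eval (asg ζ p r)) p D r j

/-- The data read by the pieces. -/
def rxo (l : ℕ) (φ : Formula (LV B J)) (i : Fin (pieces l φ).length) : Finset (Fin B → Bool) :=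
  rx ((pieces l φ).get i)

/-- The failure event. -/
def Fail (φ : Formula (LV B J)) (l M q g w1 w2 : ℕ) (ζ p : J → Fin B → Bool)
    (r : (Fin B → Bool) → Bool) : Prop :=
  w1 ≤ (HC φ M ζ).card ∨ (¬ ∃ D : Finset J, D.card ≤ q * g ∧ Valid (rxo l φ) q p D) ∨
    ∃ D : Finset J, D.card ≤ q * g ∧ ((Function.Injective p ∧ Valid (rxo l φ) q p D) ∧
      ∃ r'' : (Fin B → Bool) → Bool, (∀ a, a ∉ D.image p → r'' a = r a) ∧
        w2 ≤ (rels φ M ζ p D r'').card)

theorem shallow_formula {φ : Formula (LV B J)} {l M q g w1 w2 : ℕ} {ζ p : J → Fin B → Bool}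
    {r : (Fin B → Bool) → Bool} (hp : Function.Injective p)
    (h : ¬ Fail φ l M q g w1 w2 ζ p r) :
    Shallow (q * g + w1 + w2) (fun y => φ.eval (asg ζ p (dat p r y))) := by
  classical
  unfold Fail at h
  push Not at h
  obtain ⟨h1, ⟨D, hD1, hD2⟩, h3⟩ := h
  refine shallow_of (F := fun r => φ.eval (asg ζ p r)) hp hD1 h1.le fun r'' hr'' => ?_
  exact (h3 D hD1 ⟨hp, hD2⟩ r'' hr'').le

theorem pr_rels {φ : Formula (LV B J)} {l k M q m w2 A : ℕ} (hφ : φ.Local (k : ℝ)) (hl : 2 ≤ l)
    (hA : 2 * l * k ≤ A) {G x : ℝ} (hG0 : 0 ≤ G) (hG : (k : ℝ) ^ 2 * (2 * l) ≤ G ^ 2)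
    (hw : 2 * m ≤ w2) (hw0 : 0 < w2) (ζ : J → Fin B → Bool) (D : Finset J)
    (hx : ((m * M * k + m * A : ℕ) : ℝ) / 2 ^ B +
      ((2 * (m * M) + 3 * (pieces l φ).length : ℕ) : ℝ) * (2 ^ q * (2 * G) / 2 ^ B) ≤ x) :
    pr (fun ω : (J → Fin B → Bool) × ((Fin B → Bool) → Bool) =>
      (Function.Injective ω.1 ∧ Valid (rxo l φ) q ω.1 D) ∧
        w2 ≤ (rels φ M ζ ω.1 D ω.2).card) ≤ (2 * Fintype.card J / w2 : ℝ) ^ m * x ^ m := by
  classical
  have hN : (Fintype.card (Fin B → Bool) : ℝ) = 2 ^ B := by simp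
  have hx0 : 0 ≤ x := le_trans (by positivity) hx
  obtain ⟨U, hU⟩ : ∃ U : Finset J, U = univ.filter fun j => j ∉ D ∧ j ∉ HC φ M ζ := ⟨_, rfl⟩
  have hmain : ∀ T ⊆ U, T.card = m →
      pr (fun ω : (J → Fin B → Bool) × ((Fin B → Bool) → Bool) =>
        (Function.Injective ω.1 ∧ Valid (rxo l φ) q ω.1 D) ∧
          ∀ j ∈ T, Rel (fun r => φ.eval (asg ζ ω.1 r)) ω.1 D ω.2 j) ≤ x ^ m := by
    intro T hTU hT
    have hTD : Disjoint T D := by
      rw [disjoint_left]
      intro j hj hj'
      have := hTU hj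
      rw [hU, mem_filter] at this
      exact this.2.1 hj'
    obtain ⟨Z, hZ⟩ : ∃ Z : Finset (LV B J), Z = ZC (T.image ζ) := ⟨_, rfl⟩
    have hmk : fmarks Z φ ≤ m * M := by
      rw [hZ, ← hT]
      refine fmarks_image φ ζ T fun j hj => ?_
      have := hTU hj
      rw [hU, mem_filter] at this
      exact this.2.2
    have h1 := (fsys l k Z φ hφ ζ).pr_cov (G := 2 * G) (by positivity) hTD
      (by
        rw [hZ]
        exact fun i p j hj a r u => fsys_inv T i p j hj a r u)
      (fun i p D v => fsys_inf hl hG0 hG Z i p D v)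
      (A := A) (fun i => (fsys_RX hl Z i).trans hA) (aware Z φ) q
    rw [hT, hN] at h1
    refine le_trans (pr_mono ?_) (h1.trans ?_)
    · rintro ⟨p, r⟩ ⟨⟨hp, hv⟩, hrel⟩
      refine ⟨hp, fun j hj => ?_⟩
      by_cases hja : p j ∈ aware Z φ
      · exact Or.inl hja
      · obtain ⟨i, hi⟩ := rel_pivK (l := l) (k := k) (hφ := hφ) Z (hrel j hj) hja
        exact Or.inr ⟨i, valid_parts Z hφ hv i, hi⟩
    · refine pow_le_pow_left₀ (by positivity) (le_trans ?_ hx) _
      have h2 : ((aware Z φ).card : ℝ) ≤ ((m * M * k : ℕ) : ℝ) := by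
        exact_mod_cast (aware_card hφ Z).trans (Nat.mul_le_mul_right _ hmk)
      have h3 : (Fintype.card (Fin (parts l Z φ).length) : ℝ) ≤
          ((2 * (m * M) + 3 * (pieces l φ).length : ℕ) : ℝ) := by
        rw [Fintype.card_fin]
        have := parts_length l Z φ
        exact_mod_cast this.trans (by omega)
      have h4 : ((aware Z φ).card + m * A : ℝ) ≤ ((m * M * k + m * A : ℕ) : ℝ) := by
        push_cast at h2 ⊢
        linarith
      gcongr
  have h5 := many' hw hw0 (fun ω : (J → Fin B → Bool) × ((Fin B → Bool) → Bool) =>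
    Function.Injective ω.1 ∧ Valid (rxo l φ) q ω.1 D)
    (fun ω j => Rel (fun r => φ.eval (asg ζ ω.1 r)) ω.1 D ω.2 j) U (by positivity) hmain
  have h6 : ∀ ω : (J → Fin B → Bool) × ((Fin B → Bool) → Bool),
      rels φ M ζ ω.1 D ω.2 =
        U.filter (fun j => Rel (fun r => φ.eval (asg ζ ω.1 r)) ω.1 D ω.2 j) := by
    intro ω
    rw [hU, filter_filter]
    unfold rels
    congr!
  simp only [h6]
  refine le_trans (le_of_eq ?_) (h5.trans ?_)
  · congr!
  · gcongr
    rw [hU]
    exact_mod_cast (card_le_univ _)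

theorem pr_fail {φ : Formula (LV B J)} {l k M q g m w1 w2 A : ℕ} (hφ : φ.Local (k : ℝ))
    (hl : 2 ≤ l) (hA : 2 * l * k ≤ A) {G x x1 : ℝ} (hG0 : 0 ≤ G)
    (hG : (k : ℝ) ^ 2 * (2 * l) ≤ G ^ 2)
    (hw : 2 * m ≤ w2) (hw0 : 0 < w2) (hw' : 2 * m ≤ w1) (hw0' : 0 < w1)
    (hx : ((m * M * k + m * A : ℕ) : ℝ) / 2 ^ B +
      ((2 * (m * M) + 3 * (pieces l φ).length : ℕ) : ℝ) * (2 ^ q * (2 * G) / 2 ^ B) ≤ x)
    (hx1 : ((heavyC φ M).card : ℝ) / 2 ^ B ≤ x1) :
    pr (fun ω : (J → Fin B → Bool) × ((J → Fin B → Bool) × ((Fin B → Bool) → Bool)) =>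
      Fail φ l M q g w1 w2 ω.1 ω.2.1 ω.2.2) ≤
      (2 * Fintype.card J / w1 : ℝ) ^ m * x1 ^ m +
      (((Fintype.card J : ℝ) ^ q * (pieces l φ).length * ((A : ℝ) / 2 ^ B) ^ q) ^ g +
      (Fintype.card J + 1 : ℝ) ^ (q * g) * (2 ^ (q * g) *
        ((2 * Fintype.card J / w2 : ℝ) ^ m * x ^ m))) := by
  classical
  have hN : (Fintype.card (Fin B → Bool) : ℝ) = 2 ^ B := by simp
  have hx0 : 0 ≤ x := le_trans (by positivity) hx
  have hx10 : 0 ≤ x1 := le_trans (by positivity) hx1
  refine (pr_or _ _).trans (add_le_add ?_ ((pr_or _ _).trans (add_le_add ?_ ?_)))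
  · have h1 := pr_fst (Ω' := (J → Fin B → Bool) × ((Fin B → Bool) → Bool))
      (fun ζ : J → Fin B → Bool => w1 ≤ (HC φ M ζ).card)
    refine h1.le.trans ?_
    have h2 := many' hw' hw0' (fun _ : J → Fin B → Bool => True)
      (fun ζ j => ζ j ∈ heavyC φ M) univ (q := x1 ^ m) (by positivity) (by
        intro T _ hT
        refine le_trans (pr_mono (q := fun ζ : J → Fin B → Bool =>
          ∀ j ∈ T, ζ j ∈ heavyC φ M) fun ζ h => h.2) ?_
        rw [← hT]
        refine indep_fixed T (fun a => a ∈ heavyC φ M) _ ?_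
        rw [pr_mem_finset, hN]
        exact hx1)
    simp only [true_and, card_univ] at h2
    refine le_trans (le_of_eq ?_) h2
    unfold HC
    congr!
  · have h2 : pr (fun ω : (J → Fin B → Bool) × ((J → Fin B → Bool) ×
        ((Fin B → Bool) → Bool)) =>
        ¬ ∃ D : Finset J, D.card ≤ q * g ∧ Valid (rxo l φ) q ω.2.1 D) =
        pr (fun p : J → Fin B → Bool =>
          ¬ ∃ D : Finset J, D.card ≤ q * g ∧ Valid (rxo l φ) q p D) := by
      rw [pr_eq_av, av_prod_type]
      simp only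
      rw [av_const, ← pr_eq_av (fun ω' : (J → Fin B → Bool) × ((Fin B → Bool) → Bool) =>
        ¬ ∃ D : Finset J, D.card ≤ q * g ∧ Valid (rxo l φ) q ω'.1 D)]
      exact pr_fst (Ω' := (Fin B → Bool) → Bool) (fun p : J → Fin B → Bool =>
        ¬ ∃ D : Finset J, D.card ≤ q * g ∧ Valid (rxo l φ) q p D)
    rw [h2]
    have h3 := pr_crowd (J := J) (RX := rxo l φ) (A := A) (fun i => by
      refine (rx_card (l := l) (k := k) (pieces_local φ hφ _ (List.get_mem _ _))
        (pieces_size hl φ _ (List.get_mem _ _)).le).trans hA) q g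
    rw [hN, Fintype.card_fin] at h3
    exact h3
  · rw [pr_eq_av, av_prod_type]
    have hζ : ∀ ζ : J → Fin B → Bool,
        av (fun ω' : (J → Fin B → Bool) × ((Fin B → Bool) → Bool) =>
          ind (∃ D : Finset J, D.card ≤ q * g ∧
            ((Function.Injective ω'.1 ∧ Valid (rxo l φ) q ω'.1 D) ∧
            ∃ r'' : (Fin B → Bool) → Bool, (∀ a, a ∉ D.image ω'.1 → r'' a = ω'.2 a) ∧
              w2 ≤ (rels φ M ζ ω'.1 D r'').card))) ≤
          (Fintype.card J + 1 : ℝ) ^ (q * g) * (2 ^ (q * g) *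
            ((2 * Fintype.card J / w2 : ℝ) ^ m * x ^ m)) := by
      intro ζ
      rw [← pr_eq_av (fun ω' : (J → Fin B → Bool) × ((Fin B → Bool) → Bool) =>
          ∃ D : Finset J, D.card ≤ q * g ∧
            ((Function.Injective ω'.1 ∧ Valid (rxo l φ) q ω'.1 D) ∧
            ∃ r'' : (Fin B → Bool) → Bool, (∀ a, a ∉ D.image ω'.1 → r'' a = ω'.2 a) ∧
              w2 ≤ (rels φ M ζ ω'.1 D r'').card))]
      have hcov : ∀ ω' : (J → Fin B → Bool) × ((Fin B → Bool) → Bool),
          (∃ D : Finset J, D.card ≤ q * g ∧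
            ((Function.Injective ω'.1 ∧ Valid (rxo l φ) q ω'.1 D) ∧
            ∃ r'' : (Fin B → Bool) → Bool, (∀ a, a ∉ D.image ω'.1 → r'' a = ω'.2 a) ∧
              w2 ≤ (rels φ M ζ ω'.1 D r'').card)) →
          ∃ D ∈ (univ : Finset (Finset J)).filter (fun D => D.card ≤ q * g),
            ((Function.Injective ω'.1 ∧ Valid (rxo l φ) q ω'.1 D) ∧
            ∃ r'' : (Fin B → Bool) → Bool, (∀ a, a ∉ D.image ω'.1 → r'' a = ω'.2 a) ∧
              w2 ≤ (rels φ M ζ ω'.1 D r'').card) := by
        rintro ω' ⟨D, h1, h2⟩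
        exact ⟨D, mem_filter.2 ⟨mem_univ _, h1⟩, h2⟩
      refine (pr_mono hcov).trans ((pr_exists _ _).trans ?_)
      have hD : ∀ D ∈ (univ : Finset (Finset J)).filter (fun D => D.card ≤ q * g),
          pr (fun ω' : (J → Fin B → Bool) × ((Fin B → Bool) → Bool) =>
            ((Function.Injective ω'.1 ∧ Valid (rxo l φ) q ω'.1 D) ∧
            ∃ r'' : (Fin B → Bool) → Bool, (∀ a, a ∉ D.image ω'.1 → r'' a = ω'.2 a) ∧
              w2 ≤ (rels φ M ζ ω'.1 D r'').card)) ≤
          2 ^ (q * g) * ((2 * Fintype.card J / w2 : ℝ) ^ m * x ^ m) := by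
        intro D hDc
        rw [mem_filter] at hDc
        refine le_trans ?_ (mul_le_mul_of_nonneg_left
          (pr_rels (M := M) (q := q) hφ hl hA hG0 hG hw hw0 ζ D hx) (by positivity))
        rw [pr_eq_av, pr_eq_av, av_prod_type, av_prod_type, ← av_mul_left]
        refine av_mono fun p => ?_
        simp only
        rw [← pr_eq_av (fun r : (Fin B → Bool) → Bool =>
            ((Function.Injective p ∧ Valid (rxo l φ) q p D) ∧
            ∃ r'' : (Fin B → Bool) → Bool, (∀ a, a ∉ D.image p → r'' a = r a) ∧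
              w2 ≤ (rels φ M ζ p D r'').card)),
          ← pr_eq_av (fun r : (Fin B → Bool) → Bool =>
            (Function.Injective p ∧ Valid (rxo l φ) q p D) ∧ w2 ≤ (rels φ M ζ p D r).card)]
        by_cases hV : Function.Injective p ∧ Valid (rxo l φ) q p D
        · simp only [hV, true_and]
          exact pr_exists_change (D.image p) (card_image_le.trans hDc.2)
            (fun r'' => w2 ≤ (rels φ M ζ p D r'').card)
        · refine le_trans (pr_mono (q := fun _ => False) fun r hr => hV hr.1) ?_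
          rw [pr_false]
          have := pr_nonneg (fun r : (Fin B → Bool) → Bool =>
            (Function.Injective p ∧ Valid (rxo l φ) q p D) ∧ w2 ≤ (rels φ M ζ p D r).card)
          positivity
      refine (sum_le_sum hD).trans ?_
      rw [sum_const, nsmul_eq_mul]
      gcongr
      exact_mod_cast small_card (J := J) (q * g)
    refine (av_mono hζ).trans ?_
    rw [av_const]

end Pool.Agent.MP_9cec2c_lc.TwoLevel
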