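import Pool.Agent.Lib.MP_9cec2c_lc.FPLift

/-!
The failure probability for the chosen parameters.
-/

set_option autoImplicit false
set_option linter.unusedSectionVars false

namespace Pool.Agent.MP_9cec2c_lc.TwoLevel

open Finset
open Pool.Agent.MP_9cec2c_lc.SubstRed
open Pool.Agent.MP_9cec2c_lc.FormulaLines

variable {J : Type} [Fintype J] [DecidableEq J] {B : ℕ}

theorem fail_bound {u s' E q θ : ℕ} (hu : 2 ^ 41 ≤ u) (hq : 2 ^ q ≤ u)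
    (h1 : 2 * s' + 21 * q + 36 ≤ E) (hθ : E = 2 * s' + 14 * q + 32 + θ)
    (h2 : E + s' + 3 ≤ θ * q) (hB : 2 ^ B = u ^ E) (hJ : Fintype.card J = u ^ 6)
    (φ : Formula (LV B J)) (hφ : φ.Local (u : ℝ)) (hs : φ.size ≤ u ^ (E + s')) :
    pr (fun ω : (J → Fin B → Bool) × ((J → Fin B → Bool) × ((Fin B → Bool) → Bool)) =>
      Fail φ (u ^ (2 * (s' + 7 * q + 12))) (u ^ (s' + 8)) q u (2 * u) (2 * u) ω.1 ω.2.1 ω.2.2) ≤
      3 * (1 / (u : ℝ) ^ 2) ^ u := by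
  classical
  obtain ⟨γ, hγ⟩ : ∃ γ, γ = s' + 7 * q + 12 := ⟨_, rfl⟩
  rw [← hγ]
  have hu16 : 16 ≤ u := by
    norm_num at hu
    omega
  have hu0 : 0 < u := by omega
  have hur : (0 : ℝ) < u := by exact_mod_cast hu0
  have hu1r : (1 : ℝ) ≤ u := by exact_mod_cast hu0
  have hN : (2 : ℝ) ^ B = (u : ℝ) ^ E := by exact_mod_cast hB
  have hNpos : (0 : ℝ) < (u : ℝ) ^ E := by positivity
  have hpw : ∀ {a b : ℕ}, a ≤ b → u ^ a ≤ u ^ b := fun h => Nat.pow_le_pow_right hu0 h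
  have hl : 2 ≤ u ^ (2 * γ) := by
    calc 2 ≤ u ^ 1 := by rw [pow_one]; omega
      _ ≤ u ^ (2 * γ) := hpw (by omega)
  -- number of pieces
  obtain ⟨P, hP⟩ : ∃ P, P = (pieces (u ^ (2 * γ)) φ).length := ⟨_, rfl⟩
  have hP1 : P * u ^ (2 * γ) ≤ 4 * u ^ (E + s') := by
    have h3 := pieces_length (l := u ^ (2 * γ)) φ
    rw [← hP] at h3
    have h4 : u ^ (2 * γ) ≤ u ^ (E + s') := hpw (by omega)
    rw [mul_comm]
    omega
  have hA : 2 * u ^ (2 * γ) * u ≤ u ^ (2 * γ + 2) := by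
    calc 2 * u ^ (2 * γ) * u ≤ u * u ^ (2 * γ) * u := by gcongr; omega
      _ = u ^ (2 * γ + 2) := by ring
  have hG : (u : ℝ) ^ 2 * (2 * ((u ^ (2 * γ) : ℕ) : ℝ)) ≤ (2 * (u : ℝ) ^ (γ + 1)) ^ 2 := by
    push_cast
    have : (0 : ℝ) ≤ (u : ℝ) ^ (2 * γ + 2) := by positivity
    calc (u : ℝ) ^ 2 * (2 * (u : ℝ) ^ (2 * γ)) = 2 * (u : ℝ) ^ (2 * γ + 2) := by ring
      _ ≤ 4 * (u : ℝ) ^ (2 * γ + 2) := by linarith
      _ = (2 * (u : ℝ) ^ (γ + 1)) ^ 2 := by ring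
  -- the main probability
  obtain ⟨E1, hE1⟩ : ∃ E1, E = E1 + 1 := ⟨E - 1, by omega⟩
  have hxN : (u * u ^ (s' + 8) * u + u * u ^ (2 * γ + 2) +
      (2 * (u * u ^ (s' + 8)) + 3 * P) * (2 ^ q * (2 * (2 * u ^ (γ + 1))))) *
        u ^ (7 * q + 7) ≤ u ^ E := by
    have e1 : 2 ^ q * (2 * (2 * u ^ (γ + 1))) ≤ u ^ (γ + 3) := by
      calc 2 ^ q * (2 * (2 * u ^ (γ + 1))) ≤ u * (2 * (2 * u ^ (γ + 1))) := by gcongr
        _ = 4 * (u * u ^ (γ + 1)) := by ring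
        _ ≤ u * (u * u ^ (γ + 1)) := by gcongr; omega
        _ = u ^ (γ + 3) := by ring
    have e2 : (u * u ^ (s' + 8) * u + u * u ^ (2 * γ + 2)) * u ^ (7 * q + 7) ≤ u ^ E1 := by
      have : u * u ^ (s' + 8) * u ≤ u ^ (2 * γ + 3) := by
        calc u * u ^ (s' + 8) * u = u ^ (s' + 10) := by ring
          _ ≤ u ^ (2 * γ + 3) := hpw (by omega)
      calc (u * u ^ (s' + 8) * u + u * u ^ (2 * γ + 2)) * u ^ (7 * q + 7)
          ≤ (u ^ (2 * γ + 3) + u * u ^ (2 * γ + 2)) * u ^ (7 * q + 7) := by gcongr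
        _ = 2 * u ^ (2 * γ + 3) * u ^ (7 * q + 7) := by ring
        _ ≤ u * u ^ (2 * γ + 3) * u ^ (7 * q + 7) := by gcongr; omega
        _ = u ^ (2 * γ + 7 * q + 11) := by ring
        _ ≤ u ^ E1 := hpw (by omega)
    have e3 : 2 * (u * u ^ (s' + 8)) * u ^ (γ + 3) * u ^ (7 * q + 7) ≤ u ^ E1 := by
      calc 2 * (u * u ^ (s' + 8)) * u ^ (γ + 3) * u ^ (7 * q + 7)
          ≤ u * (u * u ^ (s' + 8)) * u ^ (γ + 3) * u ^ (7 * q + 7) := by gcongr; omega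
        _ = u ^ (s' + γ + 7 * q + 20) := by ring
        _ ≤ u ^ E1 := hpw (by omega)
    have e4 : 3 * P * u ^ (γ + 3) * u ^ (7 * q + 7) ≤ u ^ E1 := by
      refine Nat.le_of_mul_le_mul_right (c := u ^ (2 * γ)) ?_ (by positivity)
      calc 3 * P * u ^ (γ + 3) * u ^ (7 * q + 7) * u ^ (2 * γ)
          = 3 * (P * u ^ (2 * γ)) * u ^ (γ + 7 * q + 10) := by ring
        _ ≤ 3 * (4 * u ^ (E + s')) * u ^ (γ + 7 * q + 10) := by gcongr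
        _ = 12 * u ^ (E + s' + γ + 7 * q + 10) := by ring
        _ ≤ u * u ^ (E + s' + γ + 7 * q + 10) := by gcongr; omega
        _ = u ^ (E + s' + γ + 7 * q + 11) := by ring
        _ ≤ u ^ (E1 + 2 * γ) := hpw (by omega)
        _ = u ^ E1 * u ^ (2 * γ) := by ring
    calc (u * u ^ (s' + 8) * u + u * u ^ (2 * γ + 2) +
      (2 * (u * u ^ (s' + 8)) + 3 * P) * (2 ^ q * (2 * (2 * u ^ (γ + 1))))) *
        u ^ (7 * q + 7)
        ≤ (u * u ^ (s' + 8) * u + u * u ^ (2 * γ + 2) +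
          (2 * (u * u ^ (s' + 8)) + 3 * P) * u ^ (γ + 3)) * u ^ (7 * q + 7) := by gcongr
      _ = (u * u ^ (s' + 8) * u + u * u ^ (2 * γ + 2)) * u ^ (7 * q + 7) +
          2 * (u * u ^ (s' + 8)) * u ^ (γ + 3) * u ^ (7 * q + 7) +
          3 * P * u ^ (γ + 3) * u ^ (7 * q + 7) := by ring
      _ ≤ u ^ E1 + u ^ E1 + u ^ E1 := by
          exact Nat.add_le_add (Nat.add_le_add e2 e3) e4
      _ = 3 * u ^ E1 := by ring
      _ ≤ u * u ^ E1 := by gcongr; omega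
      _ = u ^ E := by rw [hE1]; ring
  have hx : ((u * u ^ (s' + 8) * u + u * u ^ (2 * γ + 2) : ℕ) : ℝ) / 2 ^ B +
      ((2 * (u * u ^ (s' + 8)) + 3 * (pieces (u ^ (2 * γ)) φ).length : ℕ) : ℝ) *
        (2 ^ q * (2 * (2 * (u : ℝ) ^ (γ + 1))) / 2 ^ B) ≤ 1 / (u : ℝ) ^ (7 * q + 7) := by
    rw [hN, ← hP, ← mul_div_assoc, ← add_div, div_le_div_iff₀ hNpos (by positivity), one_mul]
    exact_mod_cast hxN
  have hx1 : ((heavyC φ (u ^ (s' + 8))).card : ℝ) / 2 ^ B ≤ 1 / (u : ℝ) ^ 7 := by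
    rw [hN, div_le_div_iff₀ hNpos (by positivity), one_mul]
    have h3 := heavyC_card (k := u) φ hφ (u ^ (s' + 8))
    have h4 : (heavyC φ (u ^ (s' + 8))).card * u ^ 7 ≤ u ^ E := by
      refine Nat.le_of_mul_le_mul_right (c := u ^ (s' + 1)) ?_ (by positivity)
      calc (heavyC φ (u ^ (s' + 8))).card * u ^ 7 * u ^ (s' + 1)
          = (heavyC φ (u ^ (s' + 8))).card * u ^ (s' + 8) := by ring
        _ ≤ u * φ.size := h3
        _ ≤ u * u ^ (E + s') := by gcongr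
        _ = u ^ E * u ^ (s' + 1) := by ring
    exact_mod_cast h4
  have h := pr_fail (M := u ^ (s' + 8)) (q := q) (g := u) (m := u) (w1 := 2 * u) (w2 := 2 * u)
    (A := u ^ (2 * γ + 2)) (G := 2 * (u : ℝ) ^ (γ + 1)) hφ hl hA (by positivity) hG le_rfl
    (by omega) le_rfl (by omega) hx hx1
  refine h.trans ?_
  rw [hJ, hN, ← hP]
  have hratio : (2 * ((u ^ 6 : ℕ) : ℝ) / ((2 * u : ℕ) : ℝ)) = (u : ℝ) ^ 5 := by
    push_cast
    field_simp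
  rw [hratio]
  have t1 : ((u : ℝ) ^ 5) ^ u * (1 / (u : ℝ) ^ 7) ^ u ≤ (1 / (u : ℝ) ^ 2) ^ u := by
    rw [← mul_pow]
    refine pow_le_pow_left₀ (by positivity) (le_of_eq ?_) _
    field_simp
  have t2 : (((u ^ 6 : ℕ) : ℝ) ^ q * P * (((u ^ (2 * γ + 2) : ℕ) : ℝ) / (u : ℝ) ^ E) ^ q) ^ u ≤
      (1 / (u : ℝ) ^ 2) ^ u := by
    refine pow_le_pow_left₀ (by positivity) ?_ _
    have e1 : (P : ℝ) ≤ (u : ℝ) ^ (E + s' + 1) := by
      have : P ≤ u ^ (E + s' + 1) := by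
        calc P = P * 1 := (mul_one _).symm
          _ ≤ P * u ^ (2 * γ) := Nat.mul_le_mul_left _ (Nat.one_le_pow _ _ hu0)
          _ ≤ 4 * u ^ (E + s') := hP1
          _ ≤ u * u ^ (E + s') := by gcongr; omega
          _ = u ^ (E + s' + 1) := by ring
      exact_mod_cast this
    have e2 : (((u ^ 6 : ℕ) : ℝ) ^ q * P * (((u ^ (2 * γ + 2) : ℕ) : ℝ) / (u : ℝ) ^ E) ^ q) =
        P * (1 / (u : ℝ) ^ θ) ^ q := by
      rw [mul_comm (((u ^ 6 : ℕ) : ℝ) ^ q) (P : ℝ), mul_assoc, ← mul_pow]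
      congr 2
      push_cast
      have e3 : (u : ℝ) ^ E = (u : ℝ) ^ 6 * (u : ℝ) ^ (2 * γ + 2) * (u : ℝ) ^ θ := by
        rw [← pow_add, ← pow_add]
        congr 1
        omega
      rw [e3]
      field_simp
    rw [e2, one_div, inv_pow, ← pow_mul, ← one_div, mul_one_div,
      div_le_div_iff₀ (by positivity) (by positivity), one_mul]
    calc (P : ℝ) * (u : ℝ) ^ 2 ≤ (u : ℝ) ^ (E + s' + 1) * (u : ℝ) ^ 2 := by gcongr
      _ = (u : ℝ) ^ (E + s' + 3) := by ring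
      _ ≤ (u : ℝ) ^ (θ * q) := pow_le_pow_right₀ hu1r h2
  have t3 : (((u ^ 6 : ℕ) : ℝ) + 1) ^ (q * u) * (2 ^ (q * u) * (((u : ℝ) ^ 5) ^ u *
      (1 / (u : ℝ) ^ (7 * q + 7)) ^ u)) ≤ (1 / (u : ℝ) ^ 2) ^ u := by
    have e1 : (((u ^ 6 : ℕ) : ℝ) + 1) ^ (q * u) * (2 ^ (q * u) * (((u : ℝ) ^ 5) ^ u *
      (1 / (u : ℝ) ^ (7 * q + 7)) ^ u)) =
        (((((u ^ 6 : ℕ) : ℝ) + 1) * 2) ^ q * (u : ℝ) ^ 5 * (1 / (u : ℝ) ^ (7 * q + 7))) ^ u := by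
      rw [pow_mul, pow_mul, mul_pow (((u ^ 6 : ℕ) : ℝ) + 1) 2 q, mul_pow, mul_pow, mul_pow]
      ring
    rw [e1]
    refine pow_le_pow_left₀ (by positivity) ?_ _
    have e2 : ((((u ^ 6 : ℕ) : ℝ) + 1) * 2) ≤ (u : ℝ) ^ 7 := by
      have : (u ^ 6 + 1) * 2 ≤ u ^ 7 := by
        have h6 : 1 ≤ u ^ 6 := Nat.one_le_pow _ _ hu0
        calc (u ^ 6 + 1) * 2 ≤ 4 * u ^ 6 := by omega
          _ ≤ u * u ^ 6 := by gcongr; omega
          _ = u ^ 7 := by ring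
      exact_mod_cast this
    calc ((((u ^ 6 : ℕ) : ℝ) + 1) * 2) ^ q * (u : ℝ) ^ 5 * (1 / (u : ℝ) ^ (7 * q + 7))
        ≤ ((u : ℝ) ^ 7) ^ q * (u : ℝ) ^ 5 * (1 / (u : ℝ) ^ (7 * q + 7)) := by gcongr
      _ = 1 / (u : ℝ) ^ 2 := by
          rw [← pow_mul, ← pow_add, mul_one_div, div_eq_div_iff (by positivity) (by positivity),
            one_mul, ← pow_add]
  linarith

end Pool.Agent.MP_9cec2c_lc.TwoLevel
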