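import Pool.Agent.Lib.MP_9cec2c_lc.FLPull
import Pool.Agent.Lib.MP_9cec2c_lc.FPNum

/-!
The final estimates.
-/

set_option autoImplicit false
set_option linter.unusedSectionVars false

namespace Pool.Agent.MP_9cec2c_lc.TwoLevel

open Finset
open Pool.Agent.MP_9cec2c_lc.SubstRed
open Pool.Agent.MP_9cec2c_lc.FormulaLines

/-- The lower bound in terms of `u`. -/
theorem main_u {u s' E B q θ : ℕ} (hu : 2 ^ 41 ≤ u) (hq : 2 ^ q ≤ u) (hq4 : q + 4 ≤ u)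
    (h1 : 2 * s' + 21 * q + 36 ≤ E) (hθ : E = 2 * s' + 14 * q + 32 + θ)
    (h2 : E + s' + 3 ≤ θ * q) (hB : 2 ^ B = u ^ E) {r : ℕ} {I : Type} [Fintype I]
    [DecidableEq I] {Er : I → Fin 3 → Fin (u ^ 6)}
    {b : I → ZMod 2} (hr : r = u ^ 5) (hexp : Expands (mat Er) r)
    {S : ℕ} (L : Fin S → Line (LV B (Fin (u ^ 6))))
    (hL : ∀ i, (L i).Small u ((u ^ (E + s') : ℕ) : ℝ))
    (href : IsRefutation u (liftCNF B Er b) L) : 2 ^ u < S := by
  have hu64 : 64 ≤ u := by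
    norm_num at hu
    omega
  have hu0 : 0 < u := by omega
  have hu1 : 1 ≤ u := hu0
  have hur' : (64 : ℝ) ≤ u := by exact_mod_cast hu64
  have hur : (0 : ℝ) < u := by linarith
  by_contra hS
  push Not at hS
  have hd : 2 * ((u + 1) * (u * u ^ 2)) ≤ r := by
    rw [hr]
    calc 2 * ((u + 1) * (u * u ^ 2)) ≤ 2 * ((u + u) * (u * u ^ 2)) := by gcongr
      _ = 4 * u ^ 4 := by ring
      _ ≤ u * u ^ 4 := by gcongr; omega
      _ = u ^ 5 := by ring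
  have hr1 : 1 ≤ r := by
    rw [hr]
    exact Nat.one_le_pow _ _ hu0
  have hinj : (Fintype.card (Fin (u ^ 6)) : ℝ) ^ 2 / 2 ^ B ≤ 1 / 8 := by
    rw [Fintype.card_fin]
    have h1' : (2 : ℝ) ^ B = (u : ℝ) ^ E := by exact_mod_cast hB
    rw [h1', div_le_div_iff₀ (by positivity) (by norm_num), one_mul]
    have h2' : (u ^ 6) ^ 2 * 8 ≤ u ^ E := by
      calc (u ^ 6) ^ 2 * 8 ≤ (u ^ 6) ^ 2 * u := by gcongr; omega
        _ = u ^ 13 := by ring
        _ ≤ u ^ E := Nat.pow_le_pow_right hu0 (by omega)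
    exact_mod_cast h2'
  have hw : q * u + 2 * u + 2 * u ≤ u ^ 2 := by
    calc q * u + 2 * u + 2 * u = (q + 4) * u := by ring
      _ ≤ u * u := by gcongr
      _ = u ^ 2 := by ring
  have hη0 : (0 : ℝ) ≤ 3 * (1 / (u : ℝ) ^ 2) ^ u := by positivity
  have h := core (K := u) (s := u ^ (E + s')) (w := u ^ 2) hexp hr1 hd hinj hw hη0
    (fun φ hφ hs => fail_bound hu hq h1 hθ h2 hB (Fintype.card_fin _) φ hφ hs) L hL href
  have hS3 : (S : ℝ) * (u * (3 * (1 / (u : ℝ) ^ 2) ^ u)) ≤ 6 / u := by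
    have hS' : (S : ℝ) ≤ 2 ^ u := by exact_mod_cast hS
    have hq : (2 * (1 / (u : ℝ) ^ 2)) ≤ 1 := by
      rw [mul_one_div, div_le_one (by positivity)]
      nlinarith
    have hq0 : (0 : ℝ) ≤ 2 * (1 / (u : ℝ) ^ 2) := by positivity
    calc (S : ℝ) * (u * (3 * (1 / (u : ℝ) ^ 2) ^ u))
        ≤ 2 ^ u * (u * (3 * (1 / (u : ℝ) ^ 2) ^ u)) := by gcongr
      _ = 3 * u * (2 * (1 / (u : ℝ) ^ 2)) ^ u := by rw [mul_pow]; ring
      _ ≤ 3 * u * (2 * (1 / (u : ℝ) ^ 2)) ^ 1 := by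
          gcongr 3 * u * ?_
          exact pow_le_pow_of_le_one hq0 hq hu1
      _ = 6 / u := by
          field_simp
          norm_num
  have h6 : (6 : ℝ) / u ≤ 1 / 8 := by
    rw [div_le_div_iff₀ hur (by norm_num)]
    linarith
  linarith

/-- The lower bound for one value of `n`. -/
theorem main_n {n τ s' E q θ : ℕ} (hτ : 41 ≤ τ) (hq : q ≤ τ)
    (h1 : 2 * s' + 21 * q + 36 ≤ E) (hθ : E = 2 * s' + 14 * q + 32 + θ)
    (h2 : E + s' + 3 ≤ θ * q) (hEτ : E ≤ τ) (hn : 2 ^ ((E + 2) * τ) ≤ n) :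
    ∃ F : Finset (Clause (Fin n)), (∀ x, ∃ C ∈ F, ¬ Holds x C) ∧ F.card ≤ n ^ 7 ∧
      (∀ C ∈ F, C.card ≤ 6 * Nat.log 2 n) ∧
      ∀ (S : ℕ) (L : Fin S → Line (Fin n)) (k s : ℝ), k ≤ 2 ^ τ → s ≤ (2 ^ τ) ^ (E + s') →
        (∀ i, (L i).Small k s) → IsRefutation k F L → 2 ^ (2 ^ τ) < S := by
  classical
  obtain ⟨u, hu⟩ : ∃ u, u = 2 ^ τ := ⟨_, rfl⟩
  have hu41 : 2 ^ 41 ≤ u := by
    rw [hu]
    exact Nat.pow_le_pow_right (by norm_num) hτ
  have huq : 2 ^ q ≤ u := by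
    rw [hu]
    exact Nat.pow_le_pow_right (by norm_num) hq
  have hu64 : 64 ≤ u := by
    norm_num at hu41
    omega
  have hu0 : 0 < u := by omega
  have hτu : τ + 4 ≤ u := by
    rw [hu]
    obtain ⟨t, rfl⟩ : ∃ t, τ = t + 3 := ⟨τ - 3, by omega⟩
    have : t < 2 ^ t := Nat.lt_two_pow_self
    rw [pow_add]
    omega
  obtain ⟨B, hB⟩ : ∃ B, B = E * τ := ⟨_, rfl⟩
  have hBu : 2 ^ B = u ^ E := by
    rw [hB, hu, ← pow_mul, mul_comm]
  obtain ⟨Er, hEr⟩ := exists_expand (n := u ^ 6) (r := u ^ 5)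
    (by
      calc 2 ^ 41 * u ^ 5 ≤ u * u ^ 5 := by gcongr
        _ = u ^ 6 := by ring) (by positivity)
  obtain ⟨b, hb⟩ := exists_rhs Er
  have hBle : B + 3 ≤ u ^ 2 := by
    rw [hB]
    calc E * τ + 3 ≤ τ * τ + 3 := by gcongr
      _ ≤ (τ + 4) * (τ + 4) := by nlinarith
      _ ≤ u * u := by gcongr
      _ = u ^ 2 := by ring
  have hBn' : 2 ^ B * u ^ 2 ≤ n := by
    refine le_trans (le_of_eq ?_) hn
    rw [hB, hu, ← pow_mul, ← pow_add]
    congr 1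
    ring
  have hcard : Fintype.card (LV B (Fin (u ^ 6))) ≤ n := by
    rw [Fintype.card_sum, Fintype.card_sum, Fintype.card_prod, Fintype.card_prod,
      Fintype.card_fin, Fintype.card_fin]
    have h2 : Fintype.card (Fin B → Bool) = 2 ^ B := by simp
    rw [h2]
    have h3 : u ^ 6 * B ≤ 2 ^ B := by
      rw [hBu]
      calc u ^ 6 * B ≤ u ^ 6 * u ^ 2 := by gcongr; omega
        _ = u ^ 8 := by ring
        _ ≤ u ^ E := Nat.pow_le_pow_right hu0 (by omega)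
    calc 2 ^ B + (2 ^ B * B + u ^ 6 * B) ≤ 2 ^ B + (2 ^ B * B + 2 ^ B) := by gcongr
      _ = 2 ^ B * (B + 2) := by ring
      _ ≤ 2 ^ B * u ^ 2 := by gcongr; omega
      _ ≤ n := hBn'
  obtain ⟨e⟩ : Nonempty (LV B (Fin (u ^ 6)) ↪ Fin n) :=
    Function.Embedding.nonempty_of_card_le (by rw [Fintype.card_fin]; exact hcard)
  have hBn : 2 ^ B * 2 ≤ n := le_trans (by gcongr; nlinarith) hBn'
  refine ⟨(liftCNF B Er b).image (push e), ?_, ?_, ?_, ?_⟩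
  · intro x
    obtain ⟨C, hC1, hC2⟩ := liftCNF_unsat hb (fun w => x (e w))
    exact ⟨push e C, mem_image_of_mem _ hC1, fun h => hC2 ((holds_push e).1 h)⟩
  · refine card_image_le.trans ((liftCNF_card Er b).trans ?_)
    rw [Fintype.card_fin]
    have h3 : (u ^ 6 + 1) * 2 ^ 3 ≤ 2 ^ B := by
      rw [hBu]
      calc (u ^ 6 + 1) * 2 ^ 3 ≤ (2 * u ^ 6) * 2 ^ 3 := by
            have : 1 ≤ u ^ 6 := Nat.one_le_pow _ _ hu0
            omega
        _ = 2 ^ 4 * u ^ 6 := by ring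
        _ ≤ u * u ^ 6 := by gcongr; omega
        _ = u ^ 7 := by ring
        _ ≤ u ^ E := Nat.pow_le_pow_right hu0 (by omega)
    calc (u ^ 6 + 1) * (2 ^ 3 * (2 ^ B) ^ 6)
        = ((u ^ 6 + 1) * 2 ^ 3) * (2 ^ B) ^ 6 := by ring
      _ ≤ 2 ^ B * (2 ^ B) ^ 6 := by gcongr
      _ = (2 ^ B) ^ 7 := by ring
      _ ≤ n ^ 7 := by gcongr; omega
  · intro C hC
    rw [mem_image] at hC
    obtain ⟨C0, h0, rfl⟩ := hC
    rw [mem_liftCNF] at h0
    obtain ⟨i, v, pos, cell, -, rfl⟩ := h0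
    refine card_image_le.trans ((liftClause_card Er i v pos cell).trans ?_)
    have h3 : B + 1 ≤ Nat.log 2 n := by
      refine Nat.le_log_of_pow_le (by norm_num) ?_
      rw [pow_succ]
      exact hBn
    omega
  · intro S L k s hk hs hL href
    rw [← hu]
    have hk' : k ≤ u := by
      rw [hu]
      push_cast
      exact hk
    have hs' : s ≤ ((u ^ (E + s') : ℕ) : ℝ) := by
      rw [hu]
      push_cast
      exact hs
    exact main_u hu41 huq (by omega) h1 hθ h2 hBu rfl hEr (fun i => pullLine e (L i))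
      (fun i => pullLine_small e hk' hs' (hL i)) (pull_refutation e hk' href)

end Pool.Agent.MP_9cec2c_lc.TwoLevel
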