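import Pool.Agent.Lib.MP_9cec2c_lc.FPExpand
import Pool.Agent.Lib.MP_9cec2c_lc.FPFail

/-!
The lifted system and its restrictions.
-/

set_option autoImplicit false
set_option linter.unusedSectionVars false

namespace Pool.Agent.MP_9cec2c_lc.TwoLevel

open Finset
open Pool.Agent.MP_9cec2c_lc.SubstRed
open Pool.Agent.MP_9cec2c_lc.FormulaLines

section

variable {I J : Type} [Fintype I] [DecidableEq I] [Fintype J] [DecidableEq J] {B : ℕ}

/-- The clause of row `i` that excludes the cells `cell`, the positions `pos` and the values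
`v`. -/
def liftClause (E : I → Fin 3 → J) (i : I) (v : Fin 3 → Bool) (pos cell : Fin 3 → Fin B → Bool) :
    Clause (LV B J) :=
  (((univ : Finset (Fin 3 × Fin B)).image fun q =>
    ((Sum.inr (Sum.inr (E i q.1, q.2)), !(cell q.1 q.2)) : Lit (LV B J))) ∪
  ((univ : Finset (Fin 3 × Fin B)).image fun q =>
    ((Sum.inr (Sum.inl (cell q.1, q.2)), !(pos q.1 q.2)) : Lit (LV B J)))) ∪
  ((univ : Finset (Fin 3)).image fun a => ((Sum.inl (pos a), !(v a)) : Lit (LV B J)))

theorem not_holds_lift {E : I → Fin 3 → J} {i : I} {v : Fin 3 → Bool}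
    {pos cell : Fin 3 → Fin B → Bool} {x : LV B J → Bool} :
    ¬ Holds x (liftClause E i v pos cell) ↔
      (∀ a β, x (Sum.inr (Sum.inr (E i a, β))) = cell a β) ∧
      (∀ a β, x (Sum.inr (Sum.inl (cell a, β))) = pos a β) ∧ ∀ a, x (Sum.inl (pos a)) = v a := by
  unfold Holds liftClause
  constructor
  · intro h
    push Not at h
    refine ⟨?_, ?_, ?_⟩
    · intro a β
      have := h (Sum.inr (Sum.inr (E i a, β)), !(cell a β))
        (mem_union_left _ (mem_union_left _ (mem_image.2 ⟨(a, β), mem_univ _, rfl⟩)))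
      simp only at this
      revert this
      cases x (Sum.inr (Sum.inr (E i a, β))) <;> cases cell a β <;> simp
    · intro a β
      have := h (Sum.inr (Sum.inl (cell a, β)), !(pos a β))
        (mem_union_left _ (mem_union_right _ (mem_image.2 ⟨(a, β), mem_univ _, rfl⟩)))
      simp only at this
      revert this
      cases x (Sum.inr (Sum.inl (cell a, β))) <;> cases pos a β <;> simp
    · intro a
      have := h (Sum.inl (pos a), !(v a))
        (mem_union_right _ (mem_image.2 ⟨a, mem_univ _, rfl⟩))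
      simp only at this
      revert this
      cases x (Sum.inl (pos a)) <;> cases v a <;> simp
  · rintro ⟨h1, h2, h3⟩ ⟨l, hl, hl'⟩
    rw [mem_union, mem_union, mem_image, mem_image, mem_image] at hl
    rcases hl with (⟨⟨a, β⟩, -, rfl⟩ | ⟨⟨a, β⟩, -, rfl⟩) | ⟨a, -, rfl⟩
    · simp only at hl'
      rw [h1] at hl'
      revert hl'
      cases cell a β <;> simp
    · simp only at hl'
      rw [h2] at hl'
      revert hl'
      cases pos a β <;> simp
    · simp only at hl'
      rw [h3] at hl'
      revert hl'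
      cases v a <;> simp

theorem liftClause_card (E : I → Fin 3 → J) (i : I) (v : Fin 3 → Bool)
    (pos cell : Fin 3 → Fin B → Bool) : (liftClause E i v pos cell).card ≤ 6 * (B + 1) := by
  unfold liftClause
  refine (card_union_le _ _).trans ?_
  have h0 := card_union_le ((univ : Finset (Fin 3 × Fin B)).image fun q =>
    ((Sum.inr (Sum.inr (E i q.1, q.2)), !(cell q.1 q.2)) : Lit (LV B J)))
    ((univ : Finset (Fin 3 × Fin B)).image fun q =>
    ((Sum.inr (Sum.inl (cell q.1, q.2)), !(pos q.1 q.2)) : Lit (LV B J)))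
  have h1 := card_image_le (s := (univ : Finset (Fin 3 × Fin B))) (f := fun q =>
    ((Sum.inr (Sum.inr (E i q.1, q.2)), !(cell q.1 q.2)) : Lit (LV B J)))
  have h2 := card_image_le (s := (univ : Finset (Fin 3 × Fin B))) (f := fun q =>
    ((Sum.inr (Sum.inl (cell q.1, q.2)), !(pos q.1 q.2)) : Lit (LV B J)))
  have h3 := card_image_le (s := (univ : Finset (Fin 3))) (f := fun a =>
    ((Sum.inl (pos a), !(v a)) : Lit (LV B J)))
  rw [card_univ, Fintype.card_prod, Fintype.card_fin, Fintype.card_fin] at h1 h2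
  rw [card_univ, Fintype.card_fin] at h3
  omega

open scoped Classical in
/-- The lifted system. -/
noncomputable def liftCNF (B : ℕ) (E : I → Fin 3 → J) (b : I → ZMod 2) :
    Finset (Clause (LV B J)) :=
  ((univ : Finset (I × (Fin 3 → Bool) × (Fin 3 → Fin B → Bool) ×
    (Fin 3 → Fin B → Bool))).filter fun q => ∑ a, bz (q.2.1 a) ≠ b q.1).image
      fun q => liftClause E q.1 q.2.1 q.2.2.1 q.2.2.2

theorem mem_liftCNF {E : I → Fin 3 → J} {b : I → ZMod 2} {C : Clause (LV B J)} :
    C ∈ liftCNF B E b ↔ ∃ i v pos cell, ∑ a, bz (v a) ≠ b i ∧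
      liftClause E i v pos cell = C := by
  unfold liftCNF
  simp only [mem_image, mem_filter, mem_univ, true_and, Prod.exists]

theorem liftCNF_card (E : I → Fin 3 → J) (b : I → ZMod 2) :
    (liftCNF B E b).card ≤ Fintype.card I * (2 ^ 3 * (2 ^ B) ^ 6) := by
  classical
  unfold liftCNF
  refine card_image_le.trans ((card_le_card (filter_subset _ _)).trans ?_)
  rw [card_univ, Fintype.card_prod, Fintype.card_prod, Fintype.card_prod]
  simp only [Fintype.card_pi, prod_const, card_univ, Fintype.card_fin, Fintype.card_bool]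
  refine le_of_eq ?_
  ring

theorem row_sum (E : I → Fin 3 → J) (i : I) (y : J → Bool) :
    ∑ j, mat E i j * bz (y j) = ∑ a, bz (y (E i a)) := by
  unfold mat
  simp only [sum_mul, ite_mul, one_mul, zero_mul]
  rw [sum_comm]
  refine sum_congr rfl fun a _ => ?_
  simp

/-- The lifted system is unsatisfiable. -/
theorem liftCNF_unsat {E : I → Fin 3 → J} {b : I → ZMod 2}
    (hb : ∀ y : J → Bool, ∃ i, ∑ j, mat E i j * bz (y j) ≠ b i) (x : LV B J → Bool) :
    ∃ C ∈ liftCNF B E b, ¬ Holds x C := by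
  obtain ⟨cell, hcell⟩ : ∃ cell : J → Fin B → Bool,
      cell = fun j β => x (Sum.inr (Sum.inr (j, β))) := ⟨_, rfl⟩
  obtain ⟨pos, hpos⟩ : ∃ pos : J → Fin B → Bool,
      pos = fun j β => x (Sum.inr (Sum.inl (cell j, β))) := ⟨_, rfl⟩
  obtain ⟨i, hi⟩ := hb (fun j => x (Sum.inl (pos j)))
  rw [row_sum] at hi
  refine ⟨liftClause E i (fun a => x (Sum.inl (pos (E i a)))) (fun a => pos (E i a))
    (fun a => cell (E i a)), mem_liftCNF.2 ⟨i, _, _, _, hi, rfl⟩, ?_⟩
  rw [not_holds_lift]
  refine ⟨fun a β => by rw [hcell], fun a β => by rw [hpos], fun a => rfl⟩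

/-- A satisfied row satisfies its restricted clauses. -/
theorem holds_of_row {E : I → Fin 3 → J} {b : I → ZMod 2} {i : I} {v : Fin 3 → Bool}
    {pos cell : Fin 3 → Fin B → Bool} (hv : ∑ a, bz (v a) ≠ b i) {ζ p : J → Fin B → Bool}
    (hζ : Function.Injective ζ) (hp : Function.Injective p) (r : (Fin B → Bool) → Bool)
    {y : J → Bool} (hy : ∑ j, mat E i j * bz (y j) = b i) :
    Holds (asg ζ p (dat p r y)) (liftClause E i v pos cell) := by
  by_contra hcon
  rw [not_holds_lift] at hcon
  obtain ⟨h1, h2, h3⟩ := hcon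
  apply hv
  rw [← hy, row_sum]
  refine sum_congr rfl fun a _ => ?_
  have h4 : ζ (E i a) = cell a := by
    funext β
    exact h1 a β
  have h5 : p (E i a) = pos a := by
    funext β
    have := h2 a β
    simp only [asg, Sum.elim_inr, Sum.elim_inl] at this
    rw [← h4, cellv_self hζ] at this
    exact this
  have h6 := h3 a
  rw [← h5] at h6
  simp only [asg, Sum.elim_inl] at h6
  rw [dat_self hp] at h6
  rw [h6]

/-- The probability that two pointers agree. -/
theorem pr_not_inj : pr (fun ζ : J → Fin B → Bool => ¬ Function.Injective ζ) ≤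
    (Fintype.card J : ℝ) ^ 2 / 2 ^ B := by
  classical
  have hcov : ∀ ζ : J → Fin B → Bool, ¬ Function.Injective ζ →
      ∃ p ∈ (univ : Finset (J × J)).filter (fun p => p.1 ≠ p.2), ζ p.1 = ζ p.2 := by
    intro ζ h
    unfold Function.Injective at h
    push Not at h
    obtain ⟨a, b, h1, h2⟩ := h
    exact ⟨(a, b), mem_filter.2 ⟨mem_univ _, h2⟩, h1⟩
  refine (pr_mono hcov).trans ((pr_exists _ _).trans ?_)
  have h1 : ∀ p ∈ (univ : Finset (J × J)).filter (fun p => p.1 ≠ p.2),
      pr (fun ζ : J → Fin B → Bool => ζ p.1 = ζ p.2) ≤ 1 / 2 ^ B := by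
    rintro ⟨a, b⟩ hp
    have hab : a ≠ b := (mem_filter.1 hp).2
    have h2 := indep (ι := J) (α := Fin B → Bool) {a} (fun _ ζ v => v = ζ b) (1 / 2 ^ B) (by
      intro i hi j hj H E x
      rw [mem_singleton] at hi hj
      subst hi hj
      rw [Function.update_of_ne (Ne.symm hab)]) (by
      intro i _ H
      have := pr_mem_finset ({H b} : Finset (Fin B → Bool))
      simp only [mem_singleton, card_singleton, Nat.cast_one] at this
      rw [this]
      simp)
    simpa using h2
  refine (sum_le_sum h1).trans ?_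
  rw [sum_const, nsmul_eq_mul, mul_one_div]
  gcongr
  have h2 := card_le_card (filter_subset (fun p : J × J => p.1 ≠ p.2) univ)
  rw [card_univ, Fintype.card_prod] at h2
  calc (((univ : Finset (J × J)).filter (fun p => p.1 ≠ p.2)).card : ℝ)
      ≤ ((Fintype.card J * Fintype.card J : ℕ) : ℝ) := by exact_mod_cast h2
    _ = (Fintype.card J : ℝ) ^ 2 := by push_cast; ring

/-- Short refutations have few lines only if restrictions often fail. -/
theorem core {E : I → Fin 3 → J} {b : I → ZMod 2} {r K s w l M q g w1 w2 : ℕ} {ρ η : ℝ}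
    (hE : Expands (mat E) r) (hr : 1 ≤ r) (hd : 2 * ((K + 1) * (K * w)) ≤ r)
    (hinj : (Fintype.card J : ℝ) ^ 2 / 2 ^ B ≤ ρ) (hw : q * g + w1 + w2 ≤ w) (hη0 : 0 ≤ η)
    (hη : ∀ (φ : Formula (LV B J)), φ.Local (K : ℝ) → φ.size ≤ s →
      pr (fun ω : (J → Fin B → Bool) × ((J → Fin B → Bool) × ((Fin B → Bool) → Bool)) =>
        Fail φ l M q g w1 w2 ω.1 ω.2.1 ω.2.2) ≤ η)
    {S : ℕ} (L : Fin S → Line (LV B J)) (hL : ∀ i, (L i).Small K s)
    (href : IsRefutation K (liftCNF B E b) L) : 1 ≤ ρ + (ρ + S * (K * η)) := by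
  classical
  by_contra hcon
  push Not at hcon
  have hnum : ∀ i, (L i).num ≤ K := fun i => by exact_mod_cast (hL i).1
  have hloc : ∀ i j, ((L i).part j).Local (K : ℝ) := fun i j => ((hL i).2 j).1
  have hsz : ∀ i j, ((L i).part j).size ≤ s := fun i j => by exact_mod_cast ((hL i).2 j).2
  have h1 : pr (fun ω : (J → Fin B → Bool) × ((J → Fin B → Bool) ×
      ((Fin B → Bool) → Bool)) =>
      ¬ Function.Injective ω.1 ∨ (¬ Function.Injective ω.2.1 ∨
        ∃ i : Fin S, ∃ j : Fin (L i).num,
          Fail ((L i).part j) l M q g w1 w2 ω.1 ω.2.1 ω.2.2)) < 1 := by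
    refine lt_of_le_of_lt ((pr_or _ _).trans (add_le_add ?_ ((pr_or _ _).trans
      (add_le_add ?_ ?_)))) hcon
    · have := pr_fst (Ω' := (J → Fin B → Bool) × ((Fin B → Bool) → Bool))
        (fun ζ : J → Fin B → Bool => ¬ Function.Injective ζ)
      exact this.le.trans (pr_not_inj.trans hinj)
    · have h2 : pr (fun ω : (J → Fin B → Bool) × ((J → Fin B → Bool) ×
          ((Fin B → Bool) → Bool)) => ¬ Function.Injective ω.2.1) =
          pr (fun p : J → Fin B → Bool => ¬ Function.Injective p) := by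
        rw [pr_eq_av, av_prod_type]
        simp only
        rw [av_const, ← pr_eq_av (fun ω' : (J → Fin B → Bool) × ((Fin B → Bool) → Bool) =>
          ¬ Function.Injective ω'.1)]
        exact pr_fst (Ω' := (Fin B → Bool) → Bool)
          (fun p : J → Fin B → Bool => ¬ Function.Injective p)
      rw [h2]
      exact pr_not_inj.trans hinj
    · refine (pr_exists_fintype _).trans ?_
      have h2 : ∀ i : Fin S, pr (fun ω : (J → Fin B → Bool) × ((J → Fin B → Bool) ×
          ((Fin B → Bool) → Bool)) => ∃ j : Fin (L i).num,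
          Fail ((L i).part j) l M q g w1 w2 ω.1 ω.2.1 ω.2.2) ≤ K * η := by
        intro i
        refine (pr_exists_fintype _).trans ?_
        refine (sum_le_sum fun j _ => hη ((L i).part j) (hloc i j) (hsz i j)).trans ?_
        rw [sum_const, card_univ, Fintype.card_fin, nsmul_eq_mul]
        gcongr
        exact hnum i
      refine (sum_le_sum fun i _ => h2 i).trans ?_
      rw [sum_const, card_univ, Fintype.card_fin, nsmul_eq_mul]
  obtain ⟨⟨ζ, p, r'⟩, hω⟩ := exists_of_pr_lt_one h1
  push Not at hω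
  obtain ⟨hζ, hp, hF⟩ := hω
  simp only at hζ hp hF
  obtain ⟨hfin, hax⟩ := href
  refine no_refutation (M := mat E) (b := b) (d := K * w) (t := K) hE hr hd
    (fun i y => (L i).eval (asg ζ p (dat p r' y))) ?_ ?_ ?_
  · intro i
    have h3 : ∀ j, Shallow (q * g + w1 + w2)
        (fun y => ((L i).part j).eval (asg ζ p (dat p r' y))) :=
      fun j => shallow_formula hp (hF i j)
    have h4 := Shallow.top h3 (L i).top
    refine Shallow.mono h4 ?_
    exact Nat.mul_le_mul (hnum i) hw
  · intro i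
    rcases hax i with ⟨C, hC, hC'⟩ | ⟨P, hP1, hP2, hP3⟩
    · left
      rw [mem_liftCNF] at hC
      obtain ⟨i0, v, pos, cell, hv, rfl⟩ := hC
      exact ⟨i0, fun y hy => hC' _ (holds_of_row hv hζ hp r' hy)⟩
    · right
      exact ⟨P, by exact_mod_cast hP1, hP2, fun y hy => hP3 _ hy⟩
  · obtain ⟨i, hi⟩ := hfin
    exact ⟨i, fun y => hi _⟩

end

end Pool.Agent.MP_9cec2c_lc.TwoLevel
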