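import Pool.Agent.Lib.MP_9cec2c_lc.FPPiv

/-!
The moment bound: all pointers of a set are relevant with tiny probability.
-/

set_option autoImplicit false
set_option linter.unusedSectionVars false

namespace Pool.Agent.MP_9cec2c_lc.TwoLevel

open Finset
open Pool.Agent.MP_9cec2c_lc.SubstRed
open Pool.Agent.MP_9cec2c_lc.FormulaLines

variable {X J ι : Type} [Fintype X] [DecidableEq X] [Fintype J] [DecidableEq J] [Fintype ι]
  [DecidableEq ι]

namespace PSys

variable (s : PSys X J ι)

/-- All pointers in `T` are relevant: each position is in `Aw` or pivotal for a piece, for some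
values of the other alive bits (outside `H`). -/
def Cov (T H : Finset J) (Aw : Finset X) (q : ℕ) (p : J → X) (r : X → Bool) : Prop :=
  Function.Injective p ∧ ∀ j ∈ T, p j ∈ Aw ∨
    ∃ i, ((univ \ H).image p ∩ s.RX i).card ≤ q ∧
      s.PivK i p (((univ \ H).erase j).image p) r (p j)

/-- The list of witnesses. -/
def build {T : Finset J} (w : {j // j ∈ T} → Option ι) : List {j // j ∈ T} → List (J × ι)
  | [] => []
  | t :: ts => match w t with
    | none => build w ts
    | some i => (t.1, i) :: build w ts

theorem build_congr {T : Finset J} {w w' : {j // j ∈ T} → Option ι} (ts : List {j // j ∈ T})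
    (h : ∀ t ∈ ts, w t = w' t) : build w ts = build w' ts := by
  induction ts with
  | nil => rfl
  | cons t ts ih =>
    unfold build
    rw [h t List.mem_cons_self, ih fun t' ht' => h t' (List.mem_cons_of_mem _ ht')]

theorem mem_build {T : Finset J} {w : {j // j ∈ T} → Option ι} {ts : List {j // j ∈ T}}
    {x : J × ι} (hx : x ∈ build w ts) : ∃ t ∈ ts, t.1 = x.1 ∧ w t = some x.2 := by
  induction ts with
  | nil => simp [build] at hx
  | cons t ts ih =>
    unfold build at hx
    cases hw : w t with
    | none =>
      rw [hw] at hx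
      obtain ⟨t', h1, h2⟩ := ih hx
      exact ⟨t', List.mem_cons_of_mem _ h1, h2⟩
    | some i =>
      rw [hw] at hx
      simp only [List.mem_cons] at hx
      rcases hx with rfl | hx
      · exact ⟨t, List.mem_cons_self, rfl, hw⟩
      · obtain ⟨t', h1, h2⟩ := ih hx
        exact ⟨t', List.mem_cons_of_mem _ h1, h2⟩

theorem build_nodup {T : Finset J} {w : {j // j ∈ T} → Option ι} {ts : List {j // j ∈ T}}
    (hts : ts.Nodup) : ((build w ts).map Prod.fst).Nodup := by
  induction ts with
  | nil => simp [build]
  | cons t ts ih =>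
    rw [List.nodup_cons] at hts
    unfold build
    cases hw : w t with
    | none => exact ih hts.2
    | some i =>
      simp only [List.map_cons, List.nodup_cons]
      refine ⟨fun h => ?_, ih hts.2⟩
      rw [List.mem_map] at h
      obtain ⟨x, hx, hxt⟩ := h
      obtain ⟨t', h1, h2, -⟩ := mem_build hx
      have : t' = t := Subtype.ext (h2.trans hxt)
      exact hts.1 (this ▸ h1)

theorem build_length {T : Finset J} (w : {j // j ∈ T} → Option ι) (ts : List {j // j ∈ T}) :
    (build w ts).length ≤ ts.length := by
  induction ts with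
  | nil => simp [build]
  | cons t ts ih =>
    unfold build
    cases hw : w t with
    | none =>
      simp only [List.length_cons]
      omega
    | some i =>
      simp only [List.length_cons]
      omega

theorem build_prod {T : Finset J} (w : {j // j ∈ T} → Option ι) (c x : ℝ)
    (ts : List {j // j ∈ T}) :
    c ^ (build w ts).length * x ^ (ts.filter fun t => (w t).isNone).length =
      (ts.map fun t => (w t).elim x fun _ => c).prod := by
  induction ts with
  | nil => simp [build]
  | cons t ts ih =>
    unfold build
    cases hw : w t with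
    | none =>
      simp only [List.map_cons, List.prod_cons, hw, Option.elim_none, List.filter_cons,
        Option.isNone_none, if_true, List.length_cons, pow_succ']
      rw [← ih]
      ring
    | some i =>
      simp only [List.map_cons, List.prod_cons, hw, Option.elim_some, List.filter_cons,
        Option.isNone_some, List.length_cons, pow_succ']
      rw [← ih]
      simp only [Bool.false_eq_true, if_false]
      ring

/-- The chain property of the list of witnesses. -/
def Pch (H : Finset J) (q : ℕ) (p : J → X) (r : X → Bool) : List (J × ι) → Prop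
  | [] => True
  | x :: L => Pch H q p r L ∧ p x.1 ∉ s.Rev L ∧ ((univ \ H).image p ∩ s.RX x.2).card ≤ q ∧
      s.PivK x.2 p (((univ \ H).erase x.1).image p) r (p x.1)

theorem greedy {T H : Finset J} {Aw : Finset X} {q : ℕ} {p : J → X} {r : X → Bool}
    (h : s.Cov T H Aw q p r) (ts : List {j // j ∈ T}) (hts : ts.Nodup) :
    ∃ w : {j // j ∈ T} → Option ι, s.Pch H q p r (build w ts) ∧
      ∀ t ∈ ts, w t = none → p t.1 ∈ Aw ∪ s.Rev (build w ts) := by
  classical
  induction ts with
  | nil => exact ⟨fun _ => none, trivial, by simp⟩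
  | cons t ts ih =>
    rw [List.nodup_cons] at hts
    obtain ⟨w, h1, h2⟩ := ih hts.2
    have hbc : ∀ o, build (Function.update w t o) ts = build w ts := by
      intro o
      refine build_congr ts fun t' ht' => ?_
      rw [Function.update_of_ne]
      rintro rfl
      exact hts.1 ht'
    by_cases hp : p t.1 ∈ Aw ∪ s.Rev (build w ts)
    · have hb : build (Function.update w t none) (t :: ts) = build w ts := by
        conv_lhs => unfold build
        rw [Function.update_self]
        exact hbc none
      refine ⟨Function.update w t none, by rw [hb]; exact h1, fun t' ht' hw' => ?_⟩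
      rw [hb]
      rw [List.mem_cons] at ht'
      by_cases htt : t' = t
      · rw [htt]
        exact hp
      · rw [Function.update_of_ne htt] at hw'
        exact h2 t' (ht'.resolve_left htt) hw'
    · rw [mem_union, not_or] at hp
      obtain ⟨i, hi1, hi2⟩ := (h.2 t.1 t.2).resolve_left hp.1
      have hb : build (Function.update w t (some i)) (t :: ts) = (t.1, i) :: build w ts := by
        conv_lhs => unfold build
        rw [Function.update_self]
        simp only
        rw [hbc (some i)]
      refine ⟨Function.update w t (some i), by rw [hb]; exact ⟨h1, hp.2, hi1, hi2⟩,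
        fun t' ht' hw' => ?_⟩
      rw [hb]
      rw [List.mem_cons] at ht'
      by_cases htt : t' = t
      · rw [htt, Function.update_self] at hw'
        exact absurd hw' (by simp)
      · rw [Function.update_of_ne htt] at hw'
        have := h2 t' (ht'.resolve_left htt) hw'
        rw [mem_union] at this ⊢
        refine this.imp id fun h' => ?_
        rw [Rev]
        exact mem_union_left _ h'

theorem bev_of_pch {S H : Finset J} {q : ℕ} {p : J → X} {r : X → Bool}
    (hinj : Function.Injective p) (L : List (J × ι)) (Z : Finset J)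
    (hnd : (L.map Prod.fst).Nodup) (hLS : ∀ x ∈ L, x.1 ∉ S) (h : s.Pch H q p r L)
    (hZ : ∀ z ∈ Z, p z ∉ s.Rev L) (hS : S ∪ idx L ∪ Z = univ \ H) : s.BEv S q L p r := by
  classical
  induction L generalizing Z with
  | nil => trivial
  | cons x L ih =>
    obtain ⟨h1, h2, h3, h4⟩ := h
    rw [List.map_cons, List.nodup_cons] at hnd
    have hxL : x.1 ∉ idx L := by
      intro h
      rw [mem_idx] at h
      obtain ⟨y, hy, hyx⟩ := h
      exact hnd.1 (hyx ▸ List.mem_map_of_mem hy)
    have hxS : x.1 ∉ S := hLS x List.mem_cons_self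
    have hsub : S ∪ idx L ⊆ univ \ H := by
      rw [← hS, idx_cons]
      intro j hj
      rw [mem_union] at hj
      simp only [mem_union, mem_insert]
      tauto
    refine ⟨ih (insert x.1 Z) hnd.2 (fun y hy => hLS y (List.mem_cons_of_mem _ hy)) h1 ?_ ?_,
      h2, ?_, ?_, ?_⟩
    · intro z hz
      rw [mem_insert] at hz
      rcases hz with rfl | hz
      · exact h2
      · exact fun h' => hZ z hz (mem_union_left _ h')
    · rw [← hS, idx_cons]
      ext j
      simp only [mem_union, mem_insert]
      tauto
    · intro hcon
      rw [mem_image] at hcon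
      obtain ⟨j, hj, hjx⟩ := hcon
      have := hinj hjx
      rw [this, mem_union] at hj
      exact hj.elim hxS hxL
    · refine le_trans (card_le_card ?_) h3
      exact inter_subset_inter_right (image_subset_image hsub)
    · refine s.pivK_mono ?_ h4
      intro b hb
      rw [mem_inter, mem_image] at hb
      obtain ⟨⟨z, hz, rfl⟩, hbR⟩ := hb
      rw [mem_erase, ← hS, idx_cons] at hz
      obtain ⟨hzx, hz⟩ := hz
      refine mem_image_of_mem _ ?_
      rw [mem_union, mem_union, mem_insert] at hz
      rw [mem_union]
      rcases hz with (hz | hz | hz) | hz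
      · exact Or.inl hz
      · exact absurd hz hzx
      · exact Or.inr hz
      · exact absurd (mem_union_right _ hbR) (hZ z hz)

/-- The moment bound. -/
theorem pr_cov [Nonempty X] {G : ℝ} (hG : 0 ≤ G) {T H : Finset J} (hTH : Disjoint T H)
    (hinv : ∀ i p, ∀ j ∈ T, ∀ a r u, s.ev i (Function.update p j a) r u = s.ev i p r u)
    (hinf : ∀ i p (D : Finset X) (v : X → Bool),
      ∑ a ∈ univ \ D, pr (fun r : X → Bool => s.Piv i p (mix D v r) a) ≤ G)
    {A : ℕ} (hA : ∀ i, (s.RX i).card ≤ A) (Aw : Finset X) (q : ℕ) :
    pr (fun ω : (J → X) × (X → Bool) => s.Cov T H Aw q ω.1 ω.2) ≤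
      ((Aw.card + T.card * A : ℝ) / Fintype.card X +
        Fintype.card ι * (2 ^ q * G / Fintype.card X)) ^ T.card := by
  classical
  have hN : (0 : ℝ) < Fintype.card X := by exact_mod_cast Fintype.card_pos
  obtain ⟨x, hx⟩ : ∃ x, x = (Aw.card + T.card * A : ℝ) / Fintype.card X := ⟨_, rfl⟩
  obtain ⟨c, hc⟩ : ∃ c, c = 2 ^ q * G / (Fintype.card X : ℝ) := ⟨_, rfl⟩
  have hx0 : 0 ≤ x := by rw [hx]; positivity
  have hc0 : 0 ≤ c := by rw [hc]; positivity
  rw [← hx, ← hc]
  obtain ⟨ts, hts⟩ : ∃ ts, ts = (univ : Finset {j // j ∈ T}).toList := ⟨_, rfl⟩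
  have hnd : ts.Nodup := hts ▸ nodup_toList _
  have hmem : ∀ t, t ∈ ts := fun t => by rw [hts, mem_toList]; exact mem_univ t
  have hlen : ts.length = T.card := by
    rw [hts, length_toList, card_univ, Fintype.card_coe]
  have hcov : ∀ ω : (J → X) × (X → Bool), s.Cov T H Aw q ω.1 ω.2 →
      ∃ w : {j // j ∈ T} → Option ι,
        (∀ t : {j // j ∈ T}, w t = none → ω.1 t.1 ∈ Aw ∪ s.Rev (build w ts)) ∧
        s.BEv ((univ \ H) \ idx (build w ts)) q (build w ts) ω.1 ω.2 := by
    rintro ⟨p, r⟩ hω
    obtain ⟨w, h1, h2⟩ := s.greedy hω ts hnd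
    refine ⟨w, fun t ht => h2 t (hmem t) ht, ?_⟩
    refine s.bev_of_pch hω.1 (build w ts) ∅ (build_nodup hnd) ?_ h1 (by simp) ?_
    · intro y hy hy'
      exact (mem_sdiff.1 hy').2 (mem_idx.2 ⟨y, hy, rfl⟩)
    · rw [union_empty, sdiff_union_of_subset]
      intro j hj
      rw [mem_idx] at hj
      obtain ⟨y, hy, rfl⟩ := hj
      obtain ⟨t, -, h3, -⟩ := mem_build hy
      rw [← h3, mem_sdiff]
      exact ⟨mem_univ _, fun h' => disjoint_left.1 hTH t.2 h'⟩
  refine (pr_mono hcov).trans ((pr_exists_fintype _).trans ?_)
  have hterm : ∀ w : {j // j ∈ T} → Option ι,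
      pr (fun ω : (J → X) × (X → Bool) =>
        (∀ t : {j // j ∈ T}, w t = none → ω.1 t.1 ∈ Aw ∪ s.Rev (build w ts)) ∧
        s.BEv ((univ \ H) \ idx (build w ts)) q (build w ts) ω.1 ω.2) ≤
      ∏ t : {j // j ∈ T}, (w t).elim x fun _ => c := by
    intro w
    let ψ : (J → X) → ℝ := fun p =>
      ind (∀ t : {j // j ∈ T}, w t = none → p t.1 ∈ Aw ∪ s.Rev (build w ts))
    have h1 : pr (fun ω : (J → X) × (X → Bool) =>
        (∀ t : {j // j ∈ T}, w t = none → ω.1 t.1 ∈ Aw ∪ s.Rev (build w ts)) ∧
        s.BEv ((univ \ H) \ idx (build w ts)) q (build w ts) ω.1 ω.2) =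
        av (fun ω : (J → X) × (X → Bool) => ψ ω.1 *
          ind (s.BEv ((univ \ H) \ idx (build w ts)) q (build w ts) ω.1 ω.2)) := by
      rw [pr_eq_av]
      exact av_congr fun ω => ind_and _ _
    rw [h1]
    have h2 := s.bev_bound hG (T := T) hinv hinf ((univ \ H) \ idx (build w ts)) q (build w ts)
      (build_nodup hnd) (by
        intro y hy
        obtain ⟨t, -, h3, -⟩ := mem_build hy
        refine ⟨h3 ▸ t.2, fun hy' => (mem_sdiff.1 hy').2 (mem_idx.2 ⟨y, hy, rfl⟩)⟩)
      ψ (fun p => ind_nonneg _) (by
        intro y hy p a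
        refine ind_congr ?_
        refine forall_congr' fun t => ?_
        refine imp_congr_right fun ht => ?_
        rw [Function.update_of_ne]
        intro hty
        obtain ⟨t', h3, h4, h5⟩ := mem_build hy
        have : t' = t := Subtype.ext (h4.trans hty.symm)
        rw [this, ht] at h5
        exact absurd h5 (by simp))
    rw [← hc] at h2
    refine h2.trans ?_
    have h3 : av ψ ≤ x ^ (ts.filter fun t => (w t).isNone).length := by
      have h4 : av ψ = pr (fun p : J → X => ∀ t : {j // j ∈ T}, w t = none →
          p t.1 ∈ Aw ∪ s.Rev (build w ts)) := (pr_eq_av _).symm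
      rw [h4]
      obtain ⟨I, hI⟩ : ∃ I : Finset J, I = ((univ : Finset {j // j ∈ T}).filter
          (fun t => w t = none)).map (Function.Embedding.subtype _) := ⟨_, rfl⟩
      have h5 : I.card = (ts.filter fun t => (w t).isNone).length := by
        rw [hI, card_map, hts]
        have : ((univ : Finset {j // j ∈ T}).toList.filter fun t => (w t).isNone).length =
            ((univ : Finset {j // j ∈ T}).filter fun t => (w t).isNone = true).card := by
          rw [← length_toList]
          refine List.Perm.length_eq ?_
          rw [List.perm_ext_iff_of_nodup ((nodup_toList _).filter _) (nodup_toList _)]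
          intro t
          simp
        rw [this]
        congr 1
        refine filter_congr fun t _ => ?_
        rw [Option.isNone_iff_eq_none]
      rw [← h5]
      refine le_trans (pr_mono (q := fun p : J → X => ∀ j ∈ I, p j ∈ Aw ∪ s.Rev (build w ts))
        ?_) (indep_fixed I (fun a => a ∈ Aw ∪ s.Rev (build w ts)) x ?_)
      · intro p hp j hj
        rw [hI, mem_map] at hj
        obtain ⟨t, ht, rfl⟩ := hj
        exact hp t (mem_filter.1 ht).2
      · rw [pr_mem_finset, hx]
        refine div_le_div_of_nonneg_right ?_ hN.le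
        have h6 : (Aw ∪ s.Rev (build w ts)).card ≤ Aw.card + T.card * A := by
          refine (card_union_le _ _).trans (Nat.add_le_add_left ?_ _)
          refine (s.Rev_card hA _).trans (Nat.mul_le_mul_right _ ?_)
          rw [← hlen]
          exact build_length w ts
        exact_mod_cast h6
    calc c ^ (build w ts).length * av ψ
        ≤ c ^ (build w ts).length * x ^ (ts.filter fun t => (w t).isNone).length := by gcongr
      _ = (ts.map fun t => (w t).elim x fun _ => c).prod := build_prod w c x ts
      _ = ∏ t : {j // j ∈ T}, (w t).elim x fun _ => c := by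
          rw [hts, prod_map_toList]
  refine (sum_le_sum fun w _ => hterm w).trans ?_
  have h7 : ∑ w : {j // j ∈ T} → Option ι, ∏ t : {j // j ∈ T}, (w t).elim x (fun _ => c) =
      ∏ _t : {j // j ∈ T}, ∑ o : Option ι, o.elim x (fun _ => c) := by
    rw [prod_univ_sum, Fintype.piFinset_univ]
  rw [h7, prod_const, card_univ, Fintype.card_coe, Fintype.sum_option]
  simp only [Option.elim_none, Option.elim_some, sum_const, card_univ, nsmul_eq_mul]
  exact le_refl _

end PSys

end Pool.Agent.MP_9cec2c_lc.TwoLevel
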