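import Pool.Agent.Lib.MP_9cec2c_lc.FPProb

/-!
Systems of pieces at random positions: pivotal positions and the sequential estimate.
-/

set_option autoImplicit false
set_option linter.unusedSectionVars false

namespace Pool.Agent.MP_9cec2c_lc.TwoLevel

open Finset
open Pool.Agent.MP_9cec2c_lc.SubstRed
open Pool.Agent.MP_9cec2c_lc.FormulaLines

/-- A system of pieces, evaluated at positions `p`, data `r` and the hole value `u`. -/
structure PSys (X J ι : Type) where
  /-- data read by a piece -/
  RX : ι → Finset X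
  /-- value of a piece -/
  ev : ι → (J → X) → (X → Bool) → Bool → Bool
  congr : ∀ i p r r' u, (∀ a ∈ RX i, r a = r' a) → ev i p r u = ev i p r' u

variable {X J ι : Type} [Fintype X] [DecidableEq X] [Fintype J] [DecidableEq J] [Fintype ι]
  [DecidableEq ι]

namespace PSys

variable (s : PSys X J ι)

/-- The bit at `a` is pivotal for the piece `i`. -/
def Piv (i : ι) (p : J → X) (r : X → Bool) (a : X) : Prop :=
  ∃ u, s.ev i p r u ≠ s.ev i p (flip a r) u

/-- The bit at `a` is pivotal for the piece `i`, for some values of the bits in `K`. -/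
def PivK (i : ι) (p : J → X) (K : Finset X) (r : X → Bool) (a : X) : Prop :=
  ∃ r' : X → Bool, (∀ b, b ∉ K → r' b = r b) ∧ s.Piv i p r' a

theorem piv_congr {i : ι} {p : J → X} {r r' : X → Bool} {a : X} (h : ∀ b ∈ s.RX i, r b = r' b)
    (hp : s.Piv i p r a) : s.Piv i p r' a := by
  obtain ⟨u, hu⟩ := hp
  refine ⟨u, ?_⟩
  rw [← s.congr i p r r' u h, ← s.congr i p (flip a r) (flip a r') u]
  · exact hu
  · intro b hb
    by_cases hba : b = a
    · subst hba
      simp only [FormulaLines.flip, Function.update_self, h b hb]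
    · rw [flip_of_ne hba, flip_of_ne hba, h b hb]

theorem pivK_mono {i : ι} {p : J → X} {K K' : Finset X} {r : X → Bool} {a : X}
    (h : K ∩ s.RX i ⊆ K') (hp : s.PivK i p K r a) : s.PivK i p K' r a := by
  obtain ⟨r', h1, h2⟩ := hp
  refine ⟨mix (K ∩ s.RX i) r' r, fun b hb => mix_not_mem fun h' => hb (h h'),
    s.piv_congr (fun b hb => ?_) h2⟩
  by_cases hK : b ∈ K
  · rw [mix_mem (mem_inter.2 ⟨hK, hb⟩)]
  · rw [mix_not_mem fun h' => hK (mem_inter.1 h').1, h1 b hK]

theorem pivK_congr {i : ι} {p : J → X} {K : Finset X} {r r' : X → Bool} {a : X}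
    (h : ∀ b ∈ s.RX i, r b = r' b) (hp : s.PivK i p K r a) : s.PivK i p K r' a := by
  obtain ⟨ρ, h1, h2⟩ := hp
  refine ⟨mix K ρ r', fun b hb => mix_not_mem hb, s.piv_congr (fun b hb => ?_) h2⟩
  by_cases hK : b ∈ K
  · rw [mix_mem hK]
  · rw [mix_not_mem hK, h1 b hK, h b hb]

theorem pivK_pos {i : ι} {p p' : J → X} {K : Finset X} {r : X → Bool} {a : X}
    (h : ∀ r u, s.ev i p r u = s.ev i p' r u) (hp : s.PivK i p K r a) : s.PivK i p' K r a := by
  obtain ⟨ρ, h1, u, hu⟩ := hp
  exact ⟨ρ, h1, u, by rwa [← h, ← h]⟩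

/-- The expected number of pivotal positions, for some values of few bits. -/
theorem sum_pivK {G : ℝ} (hG : 0 ≤ G) {i : ι} {p : J → X}
    (hinf : ∀ (D : Finset X) (v : X → Bool),
      ∑ a ∈ univ \ D, pr (fun r : X → Bool => s.Piv i p (mix D v r) a) ≤ G)
    {K : Finset X} {q : ℕ} (hK : (K ∩ s.RX i).card ≤ q) (D : Finset X) (v : X → Bool) :
    ∑ a ∈ univ \ (D ∪ K), pr (fun r : X → Bool => s.PivK i p K (mix D v r) a) ≤ 2 ^ q * G := by
  classical
  obtain ⟨K', hK'⟩ : ∃ K', K' = K ∩ s.RX i := ⟨_, rfl⟩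
  rw [← hK'] at hK
  let vY : Finset X → X → Bool := fun Y b => if b ∈ K' then decide (b ∈ Y) else v b
  have h1 : ∀ a r, s.PivK i p K (mix D v r) a →
      ∃ Y ∈ K'.powerset, s.Piv i p (mix (D ∪ K') (vY Y) r) a := by
    rintro a r ⟨r', h2, h3⟩
    refine ⟨K'.filter (fun b => r' b = true), mem_powerset.2 (filter_subset _ _),
      s.piv_congr (fun b hb => ?_) h3⟩
    by_cases hbK : b ∈ K'
    · rw [mix_mem (mem_union_right _ hbK)]
      simp only [vY, if_pos hbK, mem_filter, hbK, true_and]
      cases r' b <;> rfl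
    · have hbK2 : b ∉ K := fun h => hbK (hK' ▸ mem_inter.2 ⟨h, hb⟩)
      rw [h2 b hbK2]
      by_cases hbD : b ∈ D
      · rw [mix_mem hbD, mix_mem (mem_union_left _ hbD)]
        simp only [vY, if_neg hbK]
      · rw [mix_not_mem hbD, mix_not_mem]
        rw [mem_union, not_or]
        exact ⟨hbD, hbK⟩
  have h2 : ∀ a ∈ univ \ (D ∪ K), pr (fun r : X → Bool => s.PivK i p K (mix D v r) a) ≤
      ∑ Y ∈ K'.powerset, pr (fun r : X → Bool => s.Piv i p (mix (D ∪ K') (vY Y) r) a) :=
    fun a _ => (pr_mono (h1 a)).trans (pr_exists _ _)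
  refine (sum_le_sum h2).trans ?_
  rw [sum_comm]
  have h3 : ∀ Y ∈ K'.powerset, ∑ a ∈ univ \ (D ∪ K),
      pr (fun r : X → Bool => s.Piv i p (mix (D ∪ K') (vY Y) r) a) ≤ G := by
    intro Y _
    refine le_trans (sum_le_sum_of_subset_of_nonneg ?_ fun a _ _ => pr_nonneg _)
      (hinf (D ∪ K') (vY Y))
    refine sdiff_subset_sdiff Subset.rfl ?_
    rw [hK']
    exact union_subset_union_right inter_subset_left
  refine (sum_le_sum h3).trans ?_
  rw [sum_const, card_powerset, nsmul_eq_mul]
  push_cast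
  gcongr
  norm_num

/-- The data revealed by the pieces in the list. -/
def Rev : List (J × ι) → Finset X
  | [] => ∅
  | x :: L => Rev L ∪ s.RX x.2

/-- The pointers in the list. -/
def idx (L : List (J × ι)) : Finset J := (L.map Prod.fst).toFinset

theorem idx_cons (x : J × ι) (L : List (J × ι)) : idx (x :: L) = insert x.1 (idx L) := by
  simp [idx]

theorem mem_idx {L : List (J × ι)} {j : J} : j ∈ idx L ↔ ∃ x ∈ L, x.1 = j := by
  simp [idx]

theorem Rev_card {A : ℕ} (hA : ∀ i, (s.RX i).card ≤ A) (L : List (J × ι)) :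
    (s.Rev L).card ≤ L.length * A := by
  induction L with
  | nil => simp [Rev]
  | cons x L ih =>
    rw [Rev, List.length_cons, add_mul, one_mul]
    exact (card_union_le _ _).trans (Nat.add_le_add ih (hA _))

/-- Each element of the list is at a new position, pivotal for its piece, for some values of
the bits at the positions of `S` and of the earlier elements. -/
def BEv (S : Finset J) (q : ℕ) : List (J × ι) → (J → X) → (X → Bool) → Prop
  | [], _, _ => True
  | x :: L, p, r => BEv S q L p r ∧ (p x.1 ∉ s.Rev L ∧ p x.1 ∉ (S ∪ idx L).image p ∧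
      ((S ∪ idx L).image p ∩ s.RX x.2).card ≤ q ∧
      s.PivK x.2 p ((S ∪ idx L).image p) r (p x.1))

theorem bev_congr {S : Finset J} {q : ℕ} (L : List (J × ι)) {p : J → X} {r r' : X → Bool}
    (h : ∀ b ∈ s.Rev L, r b = r' b) (hb : s.BEv S q L p r) : s.BEv S q L p r' := by
  induction L with
  | nil => trivial
  | cons x L ih =>
    obtain ⟨h1, h2, h3, h4, h5⟩ := hb
    exact ⟨ih (fun b hb => h b (mem_union_left _ hb)) h1, h2, h3, h4,
      s.pivK_congr (fun b hb => h b (mem_union_right _ hb)) h5⟩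

theorem image_update {S : Finset J} {β : J} (hβ : β ∉ S) (p : J → X) (a : X) :
    S.image (Function.update p β a) = S.image p := by
  refine image_congr fun j hj => ?_
  rw [Function.update_of_ne]
  rintro rfl
  exact hβ (mem_coe.1 hj)

theorem bev_update {S T : Finset J} {q : ℕ}
    (hinv : ∀ i p, ∀ j ∈ T, ∀ a r u, s.ev i (Function.update p j a) r u = s.ev i p r u)
    (L : List (J × ι)) {p : J → X} {r : X → Bool} {β : J} (hβT : β ∈ T) (hβS : β ∉ S)
    (hβL : β ∉ idx L) (a : X) :
    s.BEv S q L (Function.update p β a) r ↔ s.BEv S q L p r := by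
  induction L with
  | nil => exact Iff.rfl
  | cons x L ih =>
    rw [idx_cons, mem_insert, not_or] at hβL
    have h1 : β ∉ S ∪ idx L := by
      rw [mem_union, not_or]
      exact ⟨hβS, hβL.2⟩
    have h2 : Function.update p β a x.1 = p x.1 := Function.update_of_ne (Ne.symm hβL.1) _ _
    unfold BEv
    rw [ih hβL.2, image_update h1, h2]
    have h3 : s.PivK x.2 (Function.update p β a) ((S ∪ idx L).image p) r (p x.1) ↔
        s.PivK x.2 p ((S ∪ idx L).image p) r (p x.1) :=
      ⟨s.pivK_pos fun r u => hinv _ _ _ hβT _ _ _,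
        s.pivK_pos fun r u => (hinv _ _ _ hβT _ _ _).symm⟩
    rw [h3]

theorem ind_and (P Q : Prop) : ind (P ∧ Q) = ind P * ind Q := by
  by_cases hP : P
  · by_cases hQ : Q
    · rw [ind_pos ⟨hP, hQ⟩, ind_pos hP, ind_pos hQ, one_mul]
    · rw [ind_neg fun h => hQ h.2, ind_neg hQ, mul_zero]
  · rw [ind_neg fun h => hP h.1, ind_neg hP, zero_mul]

theorem bev_bound [Nonempty X] {G : ℝ} (hG : 0 ≤ G) {T : Finset J}
    (hinv : ∀ i p, ∀ j ∈ T, ∀ a r u, s.ev i (Function.update p j a) r u = s.ev i p r u)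
    (hinf : ∀ i p (D : Finset X) (v : X → Bool),
      ∑ a ∈ univ \ D, pr (fun r : X → Bool => s.Piv i p (mix D v r) a) ≤ G)
    (S : Finset J) (q : ℕ) (L : List (J × ι)) (hL : (L.map Prod.fst).Nodup)
    (hLT : ∀ x ∈ L, x.1 ∈ T ∧ x.1 ∉ S) (ψ : (J → X) → ℝ) (hψ0 : ∀ p, 0 ≤ ψ p)
    (hψ : ∀ x ∈ L, ∀ p a, ψ (Function.update p x.1 a) = ψ p) :
    av (fun ω : (J → X) × (X → Bool) => ψ ω.1 * ind (s.BEv S q L ω.1 ω.2)) ≤
      (2 ^ q * G / Fintype.card X) ^ L.length * av ψ := by
  classical
  have hN : (0 : ℝ) < Fintype.card X := by exact_mod_cast Fintype.card_pos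
  induction L with
  | nil =>
    rw [List.length_nil, pow_zero, one_mul, av_prod_type]
    refine (av_congr fun p => ?_).le
    simp only [BEv]
    rw [av_const, ind_pos trivial, mul_one]
  | cons x L ih =>
    rw [List.map_cons, List.nodup_cons] at hL
    have ih' := ih hL.2 (fun y hy => hLT y (List.mem_cons_of_mem _ hy))
      (fun y hy => hψ y (List.mem_cons_of_mem _ hy))
    obtain ⟨c, hc⟩ : ∃ c, c = 2 ^ q * G / (Fintype.card X : ℝ) := ⟨_, rfl⟩
    have hc0 : 0 ≤ c := by rw [hc]; positivity
    rw [← hc] at ih' ⊢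
    have hxT := (hLT x List.mem_cons_self).1
    have hxS := (hLT x List.mem_cons_self).2
    have hxL : x.1 ∉ idx L := by
      intro h
      rw [mem_idx] at h
      obtain ⟨y, hy, hyx⟩ := h
      exact hL.1 (hyx ▸ List.mem_map_of_mem hy)
    have hxSL : x.1 ∉ S ∪ idx L := by
      rw [mem_union, not_or]
      exact ⟨hxS, hxL⟩
    let D := s.Rev L
    let Bx : (J → X) → (X → Bool) → Prop := fun p r => p x.1 ∉ s.Rev L ∧
      p x.1 ∉ (S ∪ idx L).image p ∧ ((S ∪ idx L).image p ∩ s.RX x.2).card ≤ q ∧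
      s.PivK x.2 p ((S ∪ idx L).image p) r (p x.1)
    have e1 : av (fun ω : (J → X) × (X → Bool) =>
        ψ ω.1 * ind (s.BEv S q (x :: L) ω.1 ω.2)) =
        av (fun v : X → Bool => av (fun p : J → X =>
          (ψ p * ind (s.BEv S q L p v)) * pr (fun r => Bx p (mix D v r)))) := by
      rw [av_prod_type, av_comm (fun (v : X → Bool) (p : J → X) =>
          (ψ p * ind (s.BEv S q L p v)) * pr (fun r => Bx p (mix D v r)))]
      refine av_congr fun p => ?_
      rw [av_mix D]
      refine av_congr fun v => ?_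
      have h1 : ∀ r, ψ p * ind (s.BEv S q (x :: L) p (mix D v r)) =
          (ψ p * ind (s.BEv S q L p v)) * ind (Bx p (mix D v r)) := by
        intro r
        have h2 : s.BEv S q L p (mix D v r) ↔ s.BEv S q L p v :=
          ⟨s.bev_congr L fun b hb => mix_mem hb, s.bev_congr L fun b hb => (mix_mem hb).symm⟩
        have h3 : s.BEv S q (x :: L) p (mix D v r) ↔
            (s.BEv S q L p (mix D v r) ∧ Bx p (mix D v r)) := Iff.rfl
        rw [ind_congr h3, ind_and, ind_congr h2, mul_assoc]
      simp only [h1]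
      rw [av_mul_left, pr_eq_av]
    have e2 : ∀ v : X → Bool, av (fun p : J → X =>
          (ψ p * ind (s.BEv S q L p v)) * pr (fun r => Bx p (mix D v r))) ≤
        av (fun p : J → X => c * (ψ p * ind (s.BEv S q L p v))) := by
      intro v
      rw [av_update x.1]
      refine av_mono fun p => ?_
      have h1 : ∀ a, (ψ (Function.update p x.1 a) *
          ind (s.BEv S q L (Function.update p x.1 a) v)) *
            pr (fun r => Bx (Function.update p x.1 a) (mix D v r)) =
          (ψ p * ind (s.BEv S q L p v)) *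
            pr (fun r => Bx (Function.update p x.1 a) (mix D v r)) := by
        intro a
        rw [hψ x List.mem_cons_self,
          ind_congr (s.bev_update hinv L hxT hxS hxL a)]
      simp only [h1]
      rw [av_mul_left, mul_comm]
      refine mul_le_mul_of_nonneg_right ?_ (mul_nonneg (hψ0 p) (ind_nonneg _))
      rw [av, hc]
      refine div_le_div_of_nonneg_right ?_ hN.le
      obtain ⟨K, hK⟩ : ∃ K, K = (S ∪ idx L).image p := ⟨_, rfl⟩
      have h2 : ∀ a r, Bx (Function.update p x.1 a) r →
          a ∉ D ∪ K ∧ (K ∩ s.RX x.2).card ≤ q ∧ s.PivK x.2 p K r a := by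
        rintro a r ⟨g1, g2, g3, g4⟩
        rw [image_update hxSL, ← hK] at g2 g3 g4
        rw [Function.update_self] at g1 g2 g4
        refine ⟨?_, g3, s.pivK_pos (fun r u => hinv _ _ _ hxT _ _ _) g4⟩
        rw [mem_union, not_or]
        exact ⟨g1, g2⟩
      by_cases hcard : (K ∩ s.RX x.2).card ≤ q
      · refine le_trans ?_ (s.sum_pivK hG (hinf x.2 p) hcard D v)
        rw [← sum_filter_add_sum_filter_not univ (fun a => a ∈ univ \ (D ∪ K))]
        have h3 : ∑ a ∈ univ.filter (fun a => ¬ a ∈ univ \ (D ∪ K)),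
            pr (fun r => Bx (Function.update p x.1 a) (mix D v r)) = 0 := by
          refine sum_eq_zero fun a ha => ?_
          have ha' : a ∈ D ∪ K := by
            have := (mem_filter.1 ha).2
            rw [mem_sdiff, not_and, not_not] at this
            exact this (mem_univ _)
          have h4 : pr (fun r => Bx (Function.update p x.1 a) (mix D v r)) ≤
              pr (fun _ : X → Bool => False) := pr_mono fun r hr => (h2 a _ hr).1 ha'
          rw [pr_false] at h4
          exact le_antisymm h4 (pr_nonneg _)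
        rw [h3, add_zero, filter_mem_eq_inter, univ_inter]
        exact sum_le_sum fun a _ => pr_mono fun r hr => (h2 a _ hr).2.2
      · have h3 : ∑ a, pr (fun r => Bx (Function.update p x.1 a) (mix D v r)) = 0 := by
          refine sum_eq_zero fun a _ => ?_
          have h4 : pr (fun r => Bx (Function.update p x.1 a) (mix D v r)) ≤
              pr (fun _ : X → Bool => False) := pr_mono fun r hr => hcard (h2 a _ hr).2.1
          rw [pr_false] at h4
          exact le_antisymm h4 (pr_nonneg _)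
        rw [h3]
        positivity
    rw [e1]
    refine (av_mono e2).trans ?_
    simp only [av_mul_left]
    rw [av_comm (fun (v : X → Bool) (p : J → X) => ψ p * ind (s.BEv S q L p v))]
    have e3 : av (fun p : J → X => av (fun v : X → Bool => ψ p * ind (s.BEv S q L p v))) =
        av (fun ω : (J → X) × (X → Bool) => ψ ω.1 * ind (s.BEv S q L ω.1 ω.2)) := by
      rw [av_prod_type]
    rw [e3, List.length_cons, pow_succ', mul_assoc]
    exact mul_le_mul_of_nonneg_left ih' hc0

end PSys

end Pool.Agent.MP_9cec2c_lc.TwoLevel
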