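import Pool.Agent.Lib.MP_9cec2c_lc.LSDefs

/-!
Random CNFs.
-/

set_option autoImplicit false

namespace Pool.Agent.MP_9cec2c_lc.LovSch

/-- A list of `m` clauses with `w` literals. The variables of the clause `i` are the values of the
injection `(f i).1`, their signs are `(f i).2`. -/
abbrev ClauseList (n m w : ℕ) : Type := Fin m → (Fin w ↪ Fin n) × (Fin w → Bool)

/-- The CNF with the clauses of the list. -/
def toCNF {n m w : ℕ} (f : ClauseList n m w) : Finset (Clause (Fin n)) :=
  Finset.univ.image fun i => Finset.univ.image fun e => ((f i).1 e, (f i).2 e)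

/-- The CNF `F` is unsatisfiable, and all its refutations have at least `s` lines. -/
def Hard {n : ℕ} (k C s : ℕ) (F : Finset (Clause (Fin n))) : Prop :=
  (∀ x, ∃ B ∈ F, ¬ Holds x B) ∧
    ∀ (S : ℕ) (L : Fin S → Line (Fin n) C), IsRefutation k F L → s ≤ S

end Pool.Agent.MP_9cec2c_lc.LovSch
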