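import Pool.Agent.Lib.MP_9cec2c_lc.Mg.G050
import Pool.Agent.Lib.MP_9cec2c_lc.Mg.G052

/-!
Probability lemmas: moments of counts, changes on small sets.
-/

set_option autoImplicit false
set_option linter.unusedSectionVars false

namespace Pool.Agent.MP_9cec2c_lc.TwoLevel

open Finset
open Pool.Agent.MP_9cec2c_lc.SubstRed
open Pool.Agent.MP_9cec2c_lc.FormulaLines

theorem pr_fst {Ω Ω' : Type*} [Fintype Ω] [Fintype Ω'] [Nonempty Ω'] (p : Ω → Prop) :
    pr (fun ω : Ω × Ω' => p ω.1) = pr p := by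
  classical
  rw [pr_eq_av, pr_eq_av, av_prod_type]
  exact av_congr fun x => av_const (ind (p x))

theorem pr_mem_finset {Ω : Type*} [Fintype Ω] [DecidableEq Ω] (S : Finset Ω) :
    pr (fun x => x ∈ S) = (S.card : ℝ) / Fintype.card Ω := by
  classical
  rw [pr_eq]
  congr 3
  ext x
  simp

section

variable {Ω J : Type*} [Fintype Ω] [DecidableEq J]

open scoped Classical in
/-- A moment estimate. -/
theorem many {m w : ℕ} (G : Ω → Prop) (P : Ω → J → Prop) (U : Finset J) {q : ℝ}
    (hq : ∀ T ⊆ U, T.card = m → pr (fun ω => G ω ∧ ∀ j ∈ T, P ω j) ≤ q) :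
    pr (fun ω => G ω ∧ w ≤ (U.filter (P ω)).card) * w.choose m ≤ U.card.choose m * q := by
  have h1 : ∀ ω, ind (G ω ∧ w ≤ (U.filter (P ω)).card) * w.choose m ≤
      ∑ T ∈ powersetCard m U, ind (G ω ∧ ∀ j ∈ T, P ω j) := by
    intro ω
    by_cases h : G ω ∧ w ≤ (U.filter (P ω)).card
    · rw [ind_pos h, one_mul]
      have h2 : ((powersetCard m (U.filter (P ω))).card : ℝ) ≤
          ∑ T ∈ powersetCard m (U.filter (P ω)), ind (G ω ∧ ∀ j ∈ T, P ω j) := by
        rw [card_eq_sum_ones, Nat.cast_sum]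
        refine sum_le_sum fun T hT => ?_
        rw [ind_pos]
        · norm_num
        · refine ⟨h.1, fun j hj => ?_⟩
          exact (mem_filter.1 ((mem_powersetCard.1 hT).1 hj)).2
      rw [card_powersetCard] at h2
      have h3 : (w.choose m : ℝ) ≤ ((U.filter (P ω)).card.choose m : ℝ) := by
        exact_mod_cast Nat.choose_le_choose m h.2
      refine h3.trans (h2.trans ?_)
      refine sum_le_sum_of_subset_of_nonneg ?_ fun _ _ _ => ind_nonneg _
      exact powersetCard_mono (filter_subset _ _)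
    · rw [ind_neg h, zero_mul]
      exact sum_nonneg fun _ _ => ind_nonneg _
  have h2 : pr (fun ω => G ω ∧ w ≤ (U.filter (P ω)).card) * w.choose m =
      av (fun ω => ind (G ω ∧ w ≤ (U.filter (P ω)).card) * w.choose m) := by
    have : ∀ ω, ind (G ω ∧ w ≤ (U.filter (P ω)).card) * w.choose m =
        w.choose m * ind (G ω ∧ w ≤ (U.filter (P ω)).card) := fun ω => mul_comm _ _
    simp only [this]
    rw [av_mul_left, pr_eq_av, mul_comm]
  rw [h2]
  refine (av_mono h1).trans ?_
  rw [av_sum]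
  have h3 : ∑ T ∈ powersetCard m U, av (fun ω => ind (G ω ∧ ∀ j ∈ T, P ω j)) ≤
      ∑ _T ∈ powersetCard m U, q := by
    refine sum_le_sum fun T hT => ?_
    rw [← pr_eq_av]
    rw [mem_powersetCard] at hT
    exact hq T hT.1 hT.2
  refine h3.trans ?_
  rw [sum_const, card_powersetCard, nsmul_eq_mul]

theorem choose_ratio {N m w : ℕ} (hw : 2 * m ≤ w) (hw0 : 0 < w) :
    (N.choose m : ℝ) ≤ (2 * N / w : ℝ) ^ m * w.choose m := by
  have hf : (0 : ℝ) < m.factorial := by exact_mod_cast Nat.factorial_pos m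
  have h1 : (N.choose m : ℝ) * m.factorial ≤ (N : ℝ) ^ m := by
    have h := Nat.descFactorial_le_pow N m
    rw [Nat.descFactorial_eq_factorial_mul_choose, mul_comm] at h
    exact_mod_cast h
  have h2 : ((w : ℝ) / 2) ^ m ≤ (w.choose m : ℝ) * m.factorial := by
    have h := Nat.pow_sub_le_descFactorial w m
    rw [Nat.descFactorial_eq_factorial_mul_choose, mul_comm (m.factorial)] at h
    have h3 : (((w + 1 - m : ℕ) : ℝ)) ^ m ≤ (w.choose m : ℝ) * m.factorial := by
      exact_mod_cast h
    refine le_trans ?_ h3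
    refine pow_le_pow_left₀ (by positivity) ?_ _
    rw [div_le_iff₀ (by norm_num)]
    have : w ≤ (w + 1 - m) * 2 := by omega
    exact_mod_cast this
  have hw' : (0 : ℝ) < w := by exact_mod_cast hw0
  have h4 : (N : ℝ) ^ m = (2 * N / w : ℝ) ^ m * ((w : ℝ) / 2) ^ m := by
    rw [← mul_pow]
    congr 1
    field_simp
  have h5 : (N.choose m : ℝ) * m.factorial ≤
      ((2 * N / w : ℝ) ^ m * w.choose m) * m.factorial := by
    rw [mul_assoc]
    refine h1.trans ?_
    rw [h4]
    gcongr
  exact le_of_mul_le_mul_right h5 hf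

open scoped Classical in
theorem many' {m w : ℕ} (hmw : 2 * m ≤ w) (hw0 : 0 < w) (G : Ω → Prop) (P : Ω → J → Prop)
    (U : Finset J) {q : ℝ} (hq0 : 0 ≤ q)
    (hq : ∀ T ⊆ U, T.card = m → pr (fun ω => G ω ∧ ∀ j ∈ T, P ω j) ≤ q) :
    pr (fun ω => G ω ∧ w ≤ (U.filter (P ω)).card) ≤ (2 * U.card / w : ℝ) ^ m * q := by
  have h1 := many (w := w) G P U hq
  have h2 := choose_ratio (N := U.card) hmw hw0
  have h3 : (0 : ℝ) < w.choose m := by exact_mod_cast Nat.choose_pos (show m ≤ w by omega)
  have h4 : pr (fun ω => G ω ∧ w ≤ (U.filter (P ω)).card) * w.choose m ≤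
      ((2 * U.card / w : ℝ) ^ m * q) * w.choose m := by
    refine h1.trans ?_
    calc (U.card.choose m : ℝ) * q ≤ ((2 * U.card / w : ℝ) ^ m * w.choose m) * q := by gcongr
      _ = _ := by ring
  exact le_of_mul_le_mul_right h4 h3

end

section

variable {X : Type*} [Fintype X] [DecidableEq X]

/-- Changing the values on a small set. -/
theorem pr_exists_change (Z : Finset X) {b : ℕ} (hZ : Z.card ≤ b) (K : (X → Bool) → Prop) :
    pr (fun r : X → Bool => ∃ r' : X → Bool, (∀ a, a ∉ Z → r' a = r a) ∧ K r') ≤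
      2 ^ b * pr K := by
  classical
  have hpos : (0 : ℝ) < Fintype.card (X → Bool) := by exact_mod_cast Fintype.card_pos
  rw [pr_eq, pr_eq, ← mul_div_assoc, div_le_div_iff_of_pos_right hpos]
  have h1 : (univ.filter (fun r : X → Bool => ∃ r' : X → Bool,
      (∀ a, a ∉ Z → r' a = r a) ∧ K r')) ⊆
      (univ.filter K).biUnion (fun r' => univ.filter (fun r => ∀ a, a ∉ Z → r' a = r a)) := by
    intro r hr
    simp only [mem_filter, mem_univ, true_and, mem_biUnion] at hr ⊢
    obtain ⟨r', h2, h3⟩ := hr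
    exact ⟨r', h3, h2⟩
  have h2 : ∀ r' : X → Bool, (univ.filter (fun r : X → Bool => ∀ a, a ∉ Z → r' a = r a)).card ≤
      2 ^ b := by
    intro r'
    have h3 : (univ.filter (fun r : X → Bool => ∀ a, a ∉ Z → r' a = r a)).card ≤
        Z.powerset.card := by
      refine card_le_card_of_injOn (fun r => Z.filter (fun a => r a = true)) ?_ ?_
      · intro r _
        simp only [coe_powerset]
        intro x hx
        exact (mem_filter.1 hx).1
      · intro r1 hr1 r2 hr2 heq
        replace hr1 := (mem_filter.1 (mem_coe.1 hr1)).2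
        replace hr2 := (mem_filter.1 (mem_coe.1 hr2)).2
        funext a
        by_cases ha : a ∈ Z
        · have h4 : a ∈ Z.filter (fun a => r1 a = true) ↔ a ∈ Z.filter (fun a => r2 a = true) := by
            simp only at heq
            rw [heq]
          simp only [mem_filter, ha, true_and] at h4
          cases h5 : r1 a <;> cases h6 : r2 a <;> simp_all
        · rw [← hr1 a ha, ← hr2 a ha]
    refine h3.trans ?_
    rw [card_powerset]
    exact Nat.pow_le_pow_right (by norm_num) hZ
  have h3 := (card_le_card h1).trans (card_biUnion_le_card_mul _ _ _ fun r' _ => h2 r')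
  have h4 : ((univ.filter (fun r : X → Bool => ∃ r' : X → Bool,
      (∀ a, a ∉ Z → r' a = r a) ∧ K r')).card : ℝ) ≤ (univ.filter K).card * 2 ^ b := by
    exact_mod_cast h3
  linarith

end

end Pool.Agent.MP_9cec2c_lc.TwoLevel
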