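import Pool.Agent.Lib.MP_9cec2c_lc.Mg.G051

/-!
Refinement of the pieces of a formula: cutting out the leaves that read marked variables.
-/

set_option autoImplicit false
set_option linter.unusedSectionVars false

namespace Pool.Agent.MP_9cec2c_lc.TwoLevel

open Finset
open Pool.Agent.MP_9cec2c_lc.FormulaLines

variable {W : Type} [DecidableEq W]

/-- The number of leaves that read `Z`. -/
def marks (Z : Finset W) : Piece W → ℕ
  | Piece.leaf S _ => if Disjoint S Z then 0 else 1
  | Piece.hole => 0
  | Piece.and f g => marks Z f + marks Z g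
  | Piece.or f g => marks Z f + marks Z g

/-- The number of holes. -/
def holes : Piece W → ℕ
  | Piece.leaf _ _ => 0
  | Piece.hole => 1
  | Piece.and f g => holes f + holes g
  | Piece.or f g => holes f + holes g

/-- The variables read by the leaves that read `Z`. -/
def mreads (Z : Finset W) : Piece W → Finset W
  | Piece.leaf S _ => if Disjoint S Z then ∅ else S
  | Piece.hole => ∅
  | Piece.and f g => mreads Z f ∪ mreads Z g
  | Piece.or f g => mreads Z f ∪ mreads Z g

/-- The number of leaves of a formula that read `Z`. -/
def fmarks (Z : Finset W) : Formula W → ℕ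
  | Formula.leaf S _ => if Disjoint S Z then 0 else 1
  | Formula.and f g => fmarks Z f + fmarks Z g
  | Formula.or f g => fmarks Z f + fmarks Z g

/-- The variables read by the leaves of a formula that read `Z`. -/
def fmreads (Z : Finset W) : Formula W → Finset W
  | Formula.leaf S _ => if Disjoint S Z then ∅ else S
  | Formula.and f g => fmreads Z f ∪ fmreads Z g
  | Formula.or f g => fmreads Z f ∪ fmreads Z g

theorem fmreads_card {k : ℕ} (Z : Finset W) (f : Formula W) (hf : f.Local (k : ℝ)) :
    (fmreads Z f).card ≤ fmarks Z f * k := by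
  induction f with
  | leaf S g =>
    unfold fmreads fmarks
    split_ifs
    · simp
    · rw [one_mul]
      exact_mod_cast hf.1
  | and f g ihf ihg =>
    unfold fmreads fmarks
    rw [add_mul]
    exact (card_union_le _ _).trans (Nat.add_le_add (ihf hf.1) (ihg hf.2))
  | or f g ihf ihg =>
    unfold fmreads fmarks
    rw [add_mul]
    exact (card_union_le _ _).trans (Nat.add_le_add (ihf hf.1) (ihg hf.2))

/-- Combination of two refinements at a gate. -/
def comb2 (op : Piece W → Piece W → Piece W) (a b : Dec W) : Dec W :=
  if a.hol = true ∧ b.hol = true then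
    ⟨a.cur :: b.cur :: (a.fin ++ b.fin), Piece.hole, true⟩
  else ⟨a.fin ++ b.fin, op a.cur b.cur, a.hol || b.hol⟩

/-- The refinement. -/
def ref (Z : Finset W) : Piece W → Dec W
  | Piece.leaf S g => if Disjoint S Z then ⟨[], Piece.leaf S g, false⟩ else ⟨[], Piece.hole, true⟩
  | Piece.hole => ⟨[], Piece.hole, true⟩
  | Piece.and f g => comb2 Piece.and (ref Z f) (ref Z g)
  | Piece.or f g => comb2 Piece.or (ref Z f) (ref Z g)

theorem comb2_few {op : Piece W → Piece W → Piece W} {a b : Dec W} {m n : ℕ}
    (ha : a.fin.length + 2 * (if a.hol = true then 1 else 0) ≤ 2 * m)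
    (hb : b.fin.length + 2 * (if b.hol = true then 1 else 0) ≤ 2 * n) :
    (comb2 op a b).fin.length + 2 * (if (comb2 op a b).hol = true then 1 else 0) ≤
      2 * (m + n) := by
  obtain ⟨fa, ca, ha'⟩ := a
  obtain ⟨fb, cb, hb'⟩ := b
  unfold comb2
  cases ha' <;> cases hb'
  all_goals
    simp only [Bool.false_eq_true, and_false, false_and, and_self, if_false, if_true,
      List.length_cons, List.length_append, Bool.or_true, Bool.or_false] at ha hb ⊢
    omega

theorem ref_few (Z : Finset W) (p : Piece W) :
    (ref Z p).fin.length + 2 * (if (ref Z p).hol = true then 1 else 0) ≤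
      2 * (marks Z p + holes p) := by
  induction p with
  | leaf S g =>
    by_cases h : Disjoint S Z
    · simp [ref, marks, holes, h]
    · simp [ref, marks, holes, h]
  | hole => simp [ref, marks, holes]
  | and f g hf hg =>
    have h := comb2_few (op := Piece.and) hf hg
    unfold ref marks holes
    refine h.trans (le_of_eq ?_)
    ring
  | or f g hf hg =>
    have h := comb2_few (op := Piece.or) hf hg
    unfold ref marks holes
    refine h.trans (le_of_eq ?_)
    ring

/-- All parts of the refinement. -/
def refs (Z : Finset W) (p : Piece W) : List (Piece W) := (ref Z p).cur :: (ref Z p).fin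

theorem refs_length (Z : Finset W) (p : Piece W) :
    (refs Z p).length ≤ 2 * (marks Z p + holes p) + 1 := by
  have h := ref_few Z p
  unfold refs
  rw [List.length_cons]
  omega

theorem comb2_mem {op : Piece W → Piece W → Piece W} {a b : Dec W} {p : Piece W}
    (hp : p = (comb2 op a b).cur ∨ p ∈ (comb2 op a b).fin) :
    p = a.cur ∨ p = b.cur ∨ p ∈ a.fin ∨ p ∈ b.fin ∨ p = Piece.hole ∨ p = op a.cur b.cur := by
  unfold comb2 at hp
  split_ifs at hp with h1
  · simp only [List.mem_cons, List.mem_append] at hp
    tauto
  · simp only [List.mem_append] at hp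
    tauto

/-- Properties of the parts of the refinement. -/
def Fine (k : ℕ) (Z : Finset W) (p q : Piece W) : Prop :=
  q.reads ⊆ p.reads ∧ q.size ≤ p.size ∧ q.Local k ∧ Disjoint q.reads Z

theorem refs_fine {k : ℕ} (Z : Finset W) (p : Piece W) (hp : p.Local k) :
    ∀ q ∈ refs Z p, Fine k Z p q := by
  induction p with
  | leaf S g =>
    intro q hq
    by_cases h : Disjoint S Z
    · simp only [refs, ref, h, if_true, List.mem_cons, List.not_mem_nil, or_false] at hq
      rw [hq]
      exact ⟨Subset.rfl, le_refl _, hp, h⟩
    · simp only [refs, ref, h, if_false, List.mem_cons, List.not_mem_nil, or_false] at hq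
      rw [hq]
      exact ⟨empty_subset _, Nat.zero_le _, trivial, disjoint_empty_left _⟩
  | hole =>
    intro q hq
    simp only [refs, ref, List.mem_cons, List.not_mem_nil, or_false] at hq
    rw [hq]
    exact ⟨Subset.rfl, le_refl _, trivial, disjoint_empty_left _⟩
  | and f g ihf ihg =>
    intro q hq
    have hf := ihf hp.1
    have hg := ihg hp.2
    simp only [refs, List.mem_cons] at hq hf hg
    have lf : ∀ q, Fine k Z f q → Fine k Z (Piece.and f g) q := fun q h =>
      ⟨h.1.trans subset_union_left, h.2.1.trans (Nat.le_add_right _ _), h.2.2⟩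
    have lg : ∀ q, Fine k Z g q → Fine k Z (Piece.and f g) q := fun q h =>
      ⟨h.1.trans subset_union_right, h.2.1.trans (Nat.le_add_left _ _), h.2.2⟩
    rcases comb2_mem hq with h | h | h | h | h | h
    · exact lf q (hf q (Or.inl h))
    · exact lg q (hg q (Or.inl h))
    · exact lf q (hf q (Or.inr h))
    · exact lg q (hg q (Or.inr h))
    · rw [h]
      exact ⟨empty_subset _, Nat.zero_le _, trivial, disjoint_empty_left _⟩
    · have h1 := hf _ (Or.inl rfl)
      have h2 := hg _ (Or.inl rfl)
      rw [h]
      refine ⟨union_subset_union h1.1 h2.1, Nat.add_le_add h1.2.1 h2.2.1,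
        ⟨h1.2.2.1, h2.2.2.1⟩, ?_⟩
      simp only [Piece.reads]
      rw [disjoint_union_left]
      exact ⟨h1.2.2.2, h2.2.2.2⟩
  | or f g ihf ihg =>
    intro q hq
    have hf := ihf hp.1
    have hg := ihg hp.2
    simp only [refs, List.mem_cons] at hq hf hg
    have lf : ∀ q, Fine k Z f q → Fine k Z (Piece.or f g) q := fun q h =>
      ⟨h.1.trans subset_union_left, h.2.1.trans (Nat.le_add_right _ _), h.2.2⟩
    have lg : ∀ q, Fine k Z g q → Fine k Z (Piece.or f g) q := fun q h =>
      ⟨h.1.trans subset_union_right, h.2.1.trans (Nat.le_add_left _ _), h.2.2⟩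
    rcases comb2_mem hq with h | h | h | h | h | h
    · exact lf q (hf q (Or.inl h))
    · exact lg q (hg q (Or.inl h))
    · exact lf q (hf q (Or.inr h))
    · exact lg q (hg q (Or.inr h))
    · rw [h]
      exact ⟨empty_subset _, Nat.zero_le _, trivial, disjoint_empty_left _⟩
    · have h1 := hf _ (Or.inl rfl)
      have h2 := hg _ (Or.inl rfl)
      rw [h]
      refine ⟨union_subset_union h1.1 h2.1, Nat.add_le_add h1.2.1 h2.2.1,
        ⟨h1.2.2.1, h2.2.2.1⟩, ?_⟩
      simp only [Piece.reads]
      rw [disjoint_union_left]
      exact ⟨h1.2.2.2, h2.2.2.2⟩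

/-- The meaning of the state of the refinement at two assignments. -/
def Sem2 (a : Dec W) (x y : W → Bool) (F G : Bool) : Prop :=
  (a.hol = false → ∀ z u u', a.cur.eval z u = a.cur.eval z u') ∧
  ∃ v w : Bool, F = a.cur.eval x v ∧ G = a.cur.eval y w ∧
    ((∀ p ∈ a.fin, ∀ u, p.eval x u = p.eval y u) → v = w)

theorem comb2_sem {op : Piece W → Piece W → Piece W} (o : Bool → Bool → Bool)
    (hop : ∀ f g x u, (op f g).eval x u = o (f.eval x u) (g.eval x u)) {a b : Dec W}
    {x y : W → Bool} {F G F' G' : Bool} (ha : Sem2 a x y F G) (hb : Sem2 b x y F' G') :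
    Sem2 (comb2 op a b) x y (o F F') (o G G') := by
  obtain ⟨ha1, va, wa, ha2, ha3, ha4⟩ := ha
  obtain ⟨hb1, vb, wb, hb2, hb3, hb4⟩ := hb
  unfold comb2
  by_cases h1 : a.hol = true ∧ b.hol = true
  · rw [if_pos h1]
    refine ⟨fun h => by simp at h, o F F', o G G', rfl, rfl, ?_⟩
    intro hxy
    simp only [List.mem_cons, List.mem_append] at hxy
    have e1 : va = wa := ha4 fun p hp u => hxy p (Or.inr (Or.inr (Or.inl hp))) u
    have e2 : vb = wb := hb4 fun p hp u => hxy p (Or.inr (Or.inr (Or.inr hp))) u
    have e3 : F = G := by
      rw [ha2, ha3, e1]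
      exact hxy _ (Or.inl rfl) _
    have e4 : F' = G' := by
      rw [hb2, hb3, e2]
      exact hxy _ (Or.inr (Or.inl rfl)) _
    rw [e3, e4]
  · rw [if_neg h1]
    obtain ⟨v, w, hv1, hv2, hv3, hv4, hv5⟩ : ∃ v w : Bool,
        F = a.cur.eval x v ∧ G = a.cur.eval y w ∧ F' = b.cur.eval x v ∧ G' = b.cur.eval y w ∧
        ((∀ p, (p ∈ a.fin ∨ p ∈ b.fin) → ∀ u, p.eval x u = p.eval y u) → v = w) := by
      by_cases h2 : a.hol = true
      · have h3 : b.hol = false := by
          by_contra hcon
          exact h1 ⟨h2, by simpa using hcon⟩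
        refine ⟨va, wa, ha2, ha3, ?_, ?_, fun h => ha4 fun p hp u => h p (Or.inl hp) u⟩
        · rw [hb2]
          exact hb1 h3 _ _ _
        · rw [hb3]
          exact hb1 h3 _ _ _
      · have h3 : a.hol = false := by simpa using h2
        refine ⟨vb, wb, ?_, ?_, hb2, hb3, fun h => hb4 fun p hp u => h p (Or.inr hp) u⟩
        · rw [ha2]
          exact ha1 h3 _ _ _
        · rw [ha3]
          exact ha1 h3 _ _ _
    refine ⟨?_, v, w, ?_, ?_, ?_⟩
    · intro h z u u'
      simp only [Bool.or_eq_false_iff] at h
      rw [hop, hop, ha1 h.1 z u u', hb1 h.2 z u u']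
    · rw [hop, ← hv1, ← hv3]
    · rw [hop, ← hv2, ← hv4]
    · intro hxy
      refine hv5 fun p hp u => hxy p ?_ u
      simpa [List.mem_append] using hp

theorem ref_sem {k : ℕ} (Z : Finset W) (p : Piece W) (hp : p.Local k) {x y : W → Bool} (u : Bool)
    (h : ∀ v ∈ mreads Z p, x v = y v) : Sem2 (ref Z p) x y (p.eval x u) (p.eval y u) := by
  induction p with
  | leaf S g =>
    by_cases hS : Disjoint S Z
    · simp only [ref, hS, if_true]
      exact ⟨fun _ _ _ _ => rfl, false, false, rfl, rfl, fun _ => rfl⟩
    · simp only [ref, hS, if_false]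
      simp only [mreads, hS, if_false] at h
      exact ⟨fun h => by simp at h, g x, g y, rfl, rfl, fun _ => hp.2 x y h⟩
  | hole => exact ⟨fun h => by simp [ref] at h, u, u, rfl, rfl, fun _ => rfl⟩
  | and f g hf hg =>
    exact comb2_sem (fun a b => a && b) (fun _ _ _ _ => rfl)
      (hf hp.1 fun v hv => h v (mem_union_left _ hv))
      (hg hp.2 fun v hv => h v (mem_union_right _ hv))
  | or f g hf hg =>
    exact comb2_sem (fun a b => a || b) (fun _ _ _ _ => rfl)
      (hf hp.1 fun v hv => h v (mem_union_left _ hv))
      (hg hp.2 fun v hv => h v (mem_union_right _ hv))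

/-- The value of a piece is determined by its refinement. -/
theorem eval_eq_of_refs {k : ℕ} (Z : Finset W) (p : Piece W) (hp : p.Local k) {x y : W → Bool}
    (u : Bool) (h : ∀ v ∈ mreads Z p, x v = y v)
    (h' : ∀ q ∈ refs Z p, ∀ u, q.eval x u = q.eval y u) : p.eval x u = p.eval y u := by
  obtain ⟨-, v, w, h1, h2, h3⟩ := ref_sem Z p hp u h
  simp only [refs, List.mem_cons] at h'
  rw [h1, h2, h3 fun q hq u => h' q (Or.inr hq) u]
  exact h' _ (Or.inl rfl) _

/-! Pieces of a formula. -/

theorem comb_marks {l : ℕ} (Z : Finset W) {op : Piece W → Piece W → Piece W}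
    (hop : ∀ f g, marks Z (op f g) = marks Z f + marks Z g) (a b : Dec W) :
    ((comb l op a b).fin.map (marks Z)).sum + marks Z (comb l op a b).cur =
      ((a.fin.map (marks Z)).sum + marks Z a.cur) +
        ((b.fin.map (marks Z)).sum + marks Z b.cur) := by
  unfold comb
  split_ifs with h1 h2
  · simp only [List.map_cons, List.map_append, List.sum_cons, List.sum_append, marks]
    ring
  · simp only [List.map_cons, List.map_append, List.sum_cons, List.sum_append, marks, hop]
    ring
  · simp only [List.map_append, List.sum_append, hop]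
    ring

theorem pieces_marks (l : ℕ) (Z : Finset W) (f : Formula W) :
    ((pieces l f).map (marks Z)).sum = fmarks Z f := by
  have key : ((dec l f).fin.map (marks Z)).sum + marks Z (dec l f).cur = fmarks Z f := by
    induction f with
    | leaf S g => simp [dec, marks, fmarks]
    | and f g hf hg =>
      unfold dec fmarks
      rw [comb_marks Z (fun _ _ => rfl), hf, hg]
    | or f g hf hg =>
      unfold dec fmarks
      rw [comb_marks Z (fun _ _ => rfl), hf, hg]
  unfold pieces
  rw [List.map_cons, List.sum_cons, add_comm]
  exact key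

theorem pieces_holes (l : ℕ) (f : Formula W) : ∀ p ∈ pieces l f, holes p ≤ 1 := by
  have key : (∀ p ∈ (dec l f).fin, holes p ≤ 1) ∧
      holes (dec l f).cur ≤ if (dec l f).hol = true then 1 else 0 := by
    have hcomb : ∀ (op : Piece W → Piece W → Piece W)
        (hop : ∀ f g, holes (op f g) = holes f + holes g) (a b : Dec W),
        ((∀ p ∈ a.fin, holes p ≤ 1) ∧ holes a.cur ≤ if a.hol = true then 1 else 0) →
        ((∀ p ∈ b.fin, holes p ≤ 1) ∧ holes b.cur ≤ if b.hol = true then 1 else 0) →
        ((∀ p ∈ (comb l op a b).fin, holes p ≤ 1) ∧ holes (comb l op a b).cur ≤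
          if (comb l op a b).hol = true then 1 else 0) := by
      intro op hop a b ha hb
      have ha1 : holes a.cur ≤ 1 := ha.2.trans (by split_ifs <;> omega)
      have hb1 : holes b.cur ≤ 1 := hb.2.trans (by split_ifs <;> omega)
      unfold comb
      by_cases h1 : a.hol = true ∧ b.hol = true
      · rw [if_pos h1]
        refine ⟨fun p hp => ?_, by simp [holes]⟩
        simp only [List.mem_cons, List.mem_append] at hp
        rcases hp with rfl | rfl | hp | hp
        · exact ha1
        · exact hb1
        · exact ha.1 p hp
        · exact hb.1 p hp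
      · have hsum : holes (op a.cur b.cur) ≤ if (a.hol || b.hol) = true then 1 else 0 := by
          rw [hop]
          have e1 := ha.2
          have e2 := hb.2
          cases ga : a.hol <;> cases gb : b.hol
          · rw [ga] at e1
            rw [gb] at e2
            simp only [Bool.false_eq_true, if_false, Bool.or_false] at e1 e2 ⊢
            omega
          · rw [ga] at e1
            rw [gb] at e2
            simp only [Bool.false_eq_true, if_false, if_true, Bool.or_true] at e1 e2 ⊢
            omega
          · rw [ga] at e1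
            rw [gb] at e2
            simp only [Bool.false_eq_true, if_false, if_true, Bool.or_false] at e1 e2 ⊢
            omega
          · exact absurd ⟨ga, gb⟩ h1
        rw [if_neg h1]
        by_cases h2 : l ≤ a.cur.size + b.cur.size
        · rw [if_pos h2]
          refine ⟨fun p hp => ?_, by simp [holes]⟩
          simp only [List.mem_cons, List.mem_append] at hp
          rcases hp with rfl | hp | hp
          · refine hsum.trans ?_
            split_ifs <;> omega
          · exact ha.1 p hp
          · exact hb.1 p hp
        · rw [if_neg h2]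
          refine ⟨fun p hp => ?_, hsum⟩
          simp only [List.mem_append] at hp
          rcases hp with hp | hp
          · exact ha.1 p hp
          · exact hb.1 p hp
    induction f with
    | leaf S g => exact ⟨by simp [dec], by simp [dec, holes]⟩
    | and f g hf hg => exact hcomb _ (fun _ _ => rfl) _ _ hf hg
    | or f g hf hg => exact hcomb _ (fun _ _ => rfl) _ _ hf hg
  intro p hp
  simp only [pieces, List.mem_cons] at hp
  rcases hp with rfl | hp
  · refine key.2.trans ?_
    split_ifs <;> omega
  · exact key.1 p hp

theorem pieces_mreads (l : ℕ) (Z : Finset W) (f : Formula W) :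
    ∀ p ∈ pieces l f, mreads Z p ⊆ fmreads Z f := by
  induction f with
  | leaf S g =>
    intro p hp
    simp only [pieces, dec, List.mem_cons, List.not_mem_nil, or_false] at hp
    rw [hp]
    exact Subset.rfl
  | and f g hf hg =>
    intro p hp
    simp only [pieces, List.mem_cons] at hp hf hg
    unfold fmreads
    rcases comb_mem hp with h | h | h | h | h | h
    · exact (hf p (Or.inl h)).trans subset_union_left
    · exact (hg p (Or.inl h)).trans subset_union_right
    · exact (hf p (Or.inr h)).trans subset_union_left
    · exact (hg p (Or.inr h)).trans subset_union_right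
    · rw [h]; exact empty_subset _
    · rw [h]; exact union_subset_union (hf _ (Or.inl rfl)) (hg _ (Or.inl rfl))
  | or f g hf hg =>
    intro p hp
    simp only [pieces, List.mem_cons] at hp hf hg
    unfold fmreads
    rcases comb_mem hp with h | h | h | h | h | h
    · exact (hf p (Or.inl h)).trans subset_union_left
    · exact (hg p (Or.inl h)).trans subset_union_right
    · exact (hf p (Or.inr h)).trans subset_union_left
    · exact (hg p (Or.inr h)).trans subset_union_right
    · rw [h]; exact empty_subset _
    · rw [h]; exact union_subset_union (hf _ (Or.inl rfl)) (hg _ (Or.inl rfl))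

/-- All parts of all pieces. -/
def parts (l : ℕ) (Z : Finset W) (f : Formula W) : List (Piece W) :=
  (pieces l f).flatMap (refs Z)

theorem parts_length (l : ℕ) (Z : Finset W) (f : Formula W) :
    (parts l Z f).length ≤ 2 * fmarks Z f + 3 * (pieces l f).length := by
  unfold parts
  rw [← pieces_marks l Z f, List.length_flatMap]
  have key : ∀ L : List (Piece W), (∀ p ∈ L, holes p ≤ 1) →
      (L.map fun p => (refs Z p).length).sum ≤ 2 * (L.map (marks Z)).sum + 3 * L.length := by
    intro L
    induction L with
    | nil => intro _; simp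
    | cons p L ih =>
      intro h
      have h1 := ih fun q hq => h q (List.mem_cons_of_mem _ hq)
      have h2 := refs_length Z p
      have h3 := h p List.mem_cons_self
      simp only [List.map_cons, List.sum_cons, List.length_cons]
      omega
  exact key _ (pieces_holes l f)

end Pool.Agent.MP_9cec2c_lc.TwoLevel
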