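import Pool.Agent.Lib.MP_9cec2c_lc.FPProb

/-!
Shallow functions: few relevant pointers for all values of few frozen ones.
-/

set_option autoImplicit false
set_option linter.unusedSectionVars false

namespace Pool.Agent.MP_9cec2c_lc.TwoLevel

open Finset
open Pool.Agent.MP_9cec2c_lc.SubstRed
open Pool.Agent.MP_9cec2c_lc.FormulaLines

variable {X J : Type} [Fintype X] [DecidableEq X] [Fintype J] [DecidableEq J]

/-- The function is decided after reading a few bits in two rounds. -/
def Shallow {β : Type*} (c : ℕ) (f : (J → Bool) → β) : Prop :=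
  ∃ (D : Finset J) (R : (J → Bool) → Finset J), (∀ y, D ⊆ R y ∧ (R y).card ≤ c) ∧
    (∀ y y' : J → Bool, (∀ j ∈ D, y j = y' j) → R y = R y') ∧
    ∀ y y' : J → Bool, (∀ j ∈ R y, y j = y' j) → f y = f y'

theorem Shallow.top {β γ : Type*} {q c : ℕ} {f : Fin q → (J → Bool) → β}
    (h : ∀ i, Shallow c (f i)) (top : (Fin q → β) → γ) :
    Shallow (q * c) (fun y => top fun i => f i y) := by
  classical
  choose D R h1 h2 h3 using h
  refine ⟨univ.biUnion D, fun y => univ.biUnion fun i => R i y, fun y => ⟨?_, ?_⟩, ?_, ?_⟩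
  · exact biUnion_mono fun i _ => (h1 i y).1
  · refine (card_biUnion_le_card_mul _ _ c fun i _ => (h1 i y).2).trans ?_
    simp
  · intro y y' h
    refine biUnion_congr rfl fun i _ => h2 i y y' fun j hj => h j ?_
    exact mem_biUnion.2 ⟨i, mem_univ _, hj⟩
  · intro y y' h
    refine congrArg top (funext fun i => ?_)
    exact h3 i y y' fun j hj => h j (mem_biUnion.2 ⟨i, mem_univ _, hj⟩)

theorem Shallow.mono {β : Type*} {c c' : ℕ} {f : (J → Bool) → β} (h : Shallow c f)
    (hc : c ≤ c') : Shallow c' f := by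
  obtain ⟨D, R, h1, h2, h3⟩ := h
  exact ⟨D, R, fun y => ⟨(h1 y).1, (h1 y).2.trans hc⟩, h2, h3⟩

open scoped Classical in
/-- The data with values `y` at the positions of the pointers. -/
noncomputable def dat (p : J → X) (r : X → Bool) (y : J → Bool) : X → Bool :=
  fun a => if h : ∃ j, p j = a then y h.choose else r a

theorem dat_self {p : J → X} (hp : Function.Injective p) (r : X → Bool) (y : J → Bool) (j : J) :
    dat p r y (p j) = y j := by
  unfold dat
  have h : ∃ j', p j' = p j := ⟨j, rfl⟩
  rw [dif_pos h]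
  congr 1
  exact hp h.choose_spec

theorem dat_of_not {p : J → X} {r : X → Bool} {y : J → Bool} {a : X} (h : ∀ j, p j ≠ a) :
    dat p r y a = r a := by
  unfold dat
  rw [dif_neg]
  rintro ⟨j, hj⟩
  exact h j hj

/-- The pointer `j` is relevant for some values of the alive bits outside `D`. -/
def Rel (F : (X → Bool) → Bool) (p : J → X) (D : Finset J) (r : X → Bool) (j : J) : Prop :=
  ∃ r' : X → Bool, (∀ a, a ∉ (univ \ D).image p → r' a = r a) ∧
    F r' ≠ F (FormulaLines.flip (p j) r')

theorem eq_of_not_rel {F : (X → Bool) → Bool} {p : J → X} {D : Finset J} {ρ : X → Bool}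
    (V : Finset J) (hVD : ∀ j ∈ V, j ∉ D) (hV : ∀ j ∈ V, ¬ Rel F p D ρ j) {d d' : X → Bool}
    (hd : ∀ a, a ∉ (univ \ D).image p → d a = ρ a) : F d = F (mix (V.image p) d' d) := by
  classical
  induction V using Finset.induction_on with
  | empty =>
    refine congrArg F (funext fun a => ?_)
    rw [mix_not_mem]
    simp
  | insert j V hj ih =>
    rw [ih (fun i hi => hVD i (mem_insert_of_mem hi)) fun i hi => hV i (mem_insert_of_mem hi)]
    have hmem : ∀ i, i ∉ D → p i ∈ (univ \ D).image p := fun i hi =>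
      mem_image_of_mem _ (mem_sdiff.2 ⟨mem_univ _, hi⟩)
    have hmix : ∀ a, a ∉ (univ \ D).image p → mix (V.image p) d' d a = ρ a := by
      intro a ha
      rw [mix_not_mem, hd a ha]
      intro h
      obtain ⟨i, hi, rfl⟩ := mem_image.1 h
      exact ha (hmem i (hVD i (mem_insert_of_mem hi)))
    have h1 : F (mix (V.image p) d' d) =
        F (FormulaLines.flip (p j) (mix (V.image p) d' d)) := by
      by_contra hcon
      exact hV j (mem_insert_self _ _) ⟨_, hmix, hcon⟩
    by_cases h2 : mix (V.image p) d' d (p j) = d' (p j)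
    · congr 1
      funext a
      by_cases ha : a = p j
      · rw [ha, h2, mix_mem (mem_image_of_mem _ (mem_insert_self _ _))]
      · by_cases ha' : a ∈ V.image p
        · rw [mix_mem ha', mix_mem]
          rw [image_insert]
          exact mem_insert_of_mem ha'
        · rw [mix_not_mem ha', mix_not_mem]
          rw [image_insert, mem_insert, not_or]
          exact ⟨ha, ha'⟩
    · rw [h1]
      congr 1
      funext a
      by_cases ha : a = p j
      · rw [ha, mix_mem (mem_image_of_mem _ (mem_insert_self _ _))]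
        unfold FormulaLines.flip
        rw [Function.update_self]
        revert h2
        cases mix (V.image p) d' d (p j) <;> cases d' (p j) <;> simp
      · rw [flip_of_ne ha]
        by_cases ha' : a ∈ V.image p
        · rw [mix_mem ha', mix_mem]
          rw [image_insert]
          exact mem_insert_of_mem ha'
        · rw [mix_not_mem ha', mix_not_mem]
          rw [image_insert, mem_insert, not_or]
          exact ⟨ha, ha'⟩

open scoped Classical in
/-- Few relevant pointers outside frozen ones give a shallow function. -/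
theorem shallow_of {F : (X → Bool) → Bool} {p : J → X} (hp : Function.Injective p)
    {r : X → Bool} {D HC : Finset J} {b w1 w2 : ℕ} (hD : D.card ≤ b) (hHC : HC.card ≤ w1)
    (hrel : ∀ r'' : X → Bool, (∀ a, a ∉ D.image p → r'' a = r a) →
      (univ.filter fun j => (j ∉ D ∧ j ∉ HC) ∧ Rel F p D r'' j).card ≤ w2) :
    Shallow (b + w1 + w2) (fun y => F (dat p r y)) := by
  obtain ⟨ρ, hρ⟩ : ∃ ρ : (J → Bool) → X → Bool,
      ρ = fun y a => if a ∈ D.image p then dat p r y a else r a := ⟨_, rfl⟩
  have hρ1 : ∀ y a, a ∉ D.image p → ρ y a = r a := by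
    intro y a ha
    rw [hρ]
    simp only [if_neg ha]
  have hρ2 : ∀ y a, a ∉ (univ \ D).image p → dat p r y a = ρ y a := by
    intro y a ha
    by_cases h : a ∈ D.image p
    · rw [hρ]
      simp only [if_pos h]
    · rw [hρ1 y a h]
      refine dat_of_not fun j hj => ?_
      by_cases hjD : j ∈ D
      · exact h (mem_image.2 ⟨j, hjD, hj⟩)
      · exact ha (mem_image.2 ⟨j, mem_sdiff.2 ⟨mem_univ _, hjD⟩, hj⟩)
  have hρ3 : ∀ y y' : J → Bool, (∀ j ∈ D, y j = y' j) → ρ y = ρ y' := by
    intro y y' h
    funext a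
    by_cases ha : a ∈ D.image p
    · rw [hρ]
      simp only [if_pos ha]
      obtain ⟨j, hj, rfl⟩ := mem_image.1 ha
      rw [dat_self hp, dat_self hp, h j hj]
    · rw [hρ1 y a ha, hρ1 y' a ha]
  refine ⟨D, fun y => D ∪ HC ∪ univ.filter fun j => (j ∉ D ∧ j ∉ HC) ∧ Rel F p D (ρ y) j,
    fun y => ⟨?_, ?_⟩, ?_, ?_⟩
  · exact subset_union_left.trans subset_union_left
  · have h1 := card_union_le (D ∪ HC)
      (univ.filter fun j => (j ∉ D ∧ j ∉ HC) ∧ Rel F p D (ρ y) j)
    have h2 := card_union_le D HC
    have h3 := hrel (ρ y) (hρ1 y)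
    show (D ∪ HC ∪ univ.filter fun j => (j ∉ D ∧ j ∉ HC) ∧ Rel F p D (ρ y) j).card ≤
      b + w1 + w2
    omega
  · intro y y' h
    simp only [hρ3 y y' h]
  · intro y y' h
    have hDD : ∀ j ∈ D, y j = y' j := fun j hj =>
      h j (mem_union_left _ (mem_union_left _ hj))
    obtain ⟨V, hV⟩ : ∃ V : Finset J, V = univ.filter fun j =>
      j ∉ D ∪ HC ∪ univ.filter fun j => (j ∉ D ∧ j ∉ HC) ∧ Rel F p D (ρ y) j := ⟨_, rfl⟩
    have hVm : ∀ j, j ∈ V ↔ j ∉ D ∧ j ∉ HC ∧ ¬ Rel F p D (ρ y) j := by
      intro j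
      rw [hV]
      simp only [mem_filter, mem_univ, true_and, mem_union]
      tauto
    have h1 := eq_of_not_rel (F := F) (p := p) (D := D) (ρ := ρ y) V
      (fun j hj => ((hVm j).1 hj).1) (fun j hj => ((hVm j).1 hj).2.2) (d := dat p r y)
      (d' := dat p r y') (hρ2 y)
    show F (dat p r y) = F (dat p r y')
    rw [h1]
    refine congrArg F (funext fun a => ?_)
    by_cases ha : a ∈ V.image p
    · rw [mix_mem ha]
    · rw [mix_not_mem ha]
      by_cases hex : ∃ j, p j = a
      · obtain ⟨j, rfl⟩ := hex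
        rw [dat_self hp, dat_self hp]
        refine h j ?_
        by_contra hcon
        apply ha
        refine mem_image_of_mem _ ?_
        rw [hV]
        exact mem_filter.2 ⟨mem_univ _, hcon⟩
      · push Not at hex
        rw [dat_of_not hex, dat_of_not hex]

end Pool.Agent.MP_9cec2c_lc.TwoLevel
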