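import Pool.Agent.Lib.MP_9cec2c_lc.FPMoment
import Pool.Agent.Lib.MP_9cec2c_lc.FPCrowd
import Pool.Agent.Lib.MP_9cec2c_lc.FPRefine
import Pool.Agent.Lib.MP_9cec2c_lc.FPShallow

/-!
The system of parts of a formula over data, cells and pointers.
-/

set_option autoImplicit false
set_option linter.unusedSectionVars false

namespace Pool.Agent.MP_9cec2c_lc.TwoLevel

open Finset
open Pool.Agent.MP_9cec2c_lc.SubstRed
open Pool.Agent.MP_9cec2c_lc.FormulaLines

/-- The variables of the lifted system: data bits, bits of cells and bits of pointers. -/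
abbrev LV (B : ℕ) (J : Type) := (Fin B → Bool) ⊕ (((Fin B → Bool) × Fin B) ⊕ (J × Fin B))

variable {J : Type} [Fintype J] [DecidableEq J] {B : ℕ}

open scoped Classical in
/-- The contents of the cells: the cell of the pointer `j` holds the position `p j`. -/
noncomputable def cellv (ζ p : J → Fin B → Bool) (c : Fin B → Bool) : Fin B → Bool :=
  if h : ∃ j, ζ j = c then p h.choose else fun _ => false

theorem cellv_self {ζ : J → Fin B → Bool} (hζ : Function.Injective ζ) (p : J → Fin B → Bool)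
    (j : J) : cellv ζ p (ζ j) = p j := by
  unfold cellv
  have h : ∃ j', ζ j' = ζ j := ⟨j, rfl⟩
  rw [dif_pos h]
  congr 1
  exact hζ h.choose_spec

theorem cellv_update {ζ p : J → Fin B → Bool} {j : J} {c : Fin B → Bool} (h : c ≠ ζ j)
    (a : Fin B → Bool) : cellv ζ (Function.update p j a) c = cellv ζ p c := by
  unfold cellv
  by_cases h' : ∃ j', ζ j' = c
  · rw [dif_pos h', dif_pos h', Function.update_of_ne]
    intro hj
    apply h
    rw [← h'.choose_spec, hj]
  · rw [dif_neg h', dif_neg h']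

/-- The assignment with pointers `ζ`, positions `p` and data `r`. -/
noncomputable def asg (ζ p : J → Fin B → Bool) (r : (Fin B → Bool) → Bool) : LV B J → Bool :=
  Sum.elim r (Sum.elim (fun q => cellv ζ p q.1 q.2) fun q => ζ q.1 q.2)

/-- The bits of the cells in `C`. -/
def ZC (C : Finset (Fin B → Bool)) : Finset (LV B J) :=
  (C ×ˢ (univ : Finset (Fin B))).image fun q => Sum.inr (Sum.inl q)

theorem mem_ZC {C : Finset (Fin B → Bool)} {v : LV B J} :
    v ∈ (ZC C : Finset (LV B J)) ↔ ∃ c ∈ C, ∃ β, v = Sum.inr (Sum.inl (c, β)) := by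
  unfold ZC
  rw [mem_image]
  constructor
  · rintro ⟨⟨c, β⟩, h, rfl⟩
    exact ⟨c, (mem_product.1 h).1, β, rfl⟩
  · rintro ⟨c, hc, β, rfl⟩
    exact ⟨(c, β), mem_product.2 ⟨hc, mem_univ _⟩, rfl⟩

/-- The data read by a piece. -/
def rx (p : Piece (LV B J)) : Finset (Fin B → Bool) := univ.filter fun a => Sum.inl a ∈ p.reads

theorem rx_card {l k : ℕ} {p : Piece (LV B J)} (hp : p.Local k) (hl : p.size ≤ 2 * l) :
    (rx p).card ≤ 2 * l * k := by
  refine le_trans ?_ ((Piece.reads_card p hp).trans (Nat.mul_le_mul_right _ hl))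
  refine card_le_card_of_injOn (fun a => Sum.inl a) ?_ ?_
  · intro a ha
    exact (mem_filter.1 ha).2
  · intro a _ b _ hab
    exact Sum.inl_injective hab

theorem part_fine {l k : ℕ} (Z : Finset (LV B J)) (φ : Formula (LV B J))
    (hφ : φ.Local (k : ℝ)) (i : Fin (parts l Z φ).length) :
    ∃ P ∈ pieces l φ, Fine k Z P ((parts l Z φ).get i) ∧ P.Local k := by
  obtain ⟨P, hP, hi⟩ := List.mem_flatMap.1 (List.get_mem (parts l Z φ) i)
  exact ⟨P, hP, refs_fine Z P (pieces_local φ hφ P hP) _ hi, pieces_local φ hφ P hP⟩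

/-- The system of parts of a formula. -/
noncomputable def fsys (l k : ℕ) (Z : Finset (LV B J)) (φ : Formula (LV B J))
    (hφ : φ.Local (k : ℝ)) (ζ : J → Fin B → Bool) :
    PSys (Fin B → Bool) J (Fin (parts l Z φ).length) where
  RX i := rx ((parts l Z φ).get i)
  ev i p r u := ((parts l Z φ).get i).eval (asg ζ p r) u
  congr := by
    intro i p r r' u h
    obtain ⟨P, -, h1, -⟩ := part_fine Z φ hφ i
    refine Piece.eval_congr (k := k) _ h1.2.2.1 ?_ u
    rintro (a | v) hv
    · exact h a (mem_filter.2 ⟨mem_univ _, hv⟩)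
    · rfl

section

variable {l k : ℕ} {φ : Formula (LV B J)} {hφ : φ.Local (k : ℝ)} {ζ : J → Fin B → Bool}

theorem fsys_RX (hl : 2 ≤ l) (Z : Finset (LV B J)) (i : Fin (parts l Z φ).length) :
    ((fsys l k Z φ hφ ζ).RX i).card ≤ 2 * l * k := by
  obtain ⟨P, hP, h1, -⟩ := part_fine Z φ hφ i
  exact rx_card h1.2.2.1 (h1.2.1.trans (pieces_size hl φ P hP).le)

theorem fsys_inv (T : Finset J) (i : Fin (parts l (ZC (T.image ζ)) φ).length)
    (p : J → Fin B → Bool) (j : J) (hj : j ∈ T) (a : Fin B → Bool) (r : (Fin B → Bool) → Bool)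
    (u : Bool) :
    (fsys l k (ZC (T.image ζ)) φ hφ ζ).ev i (Function.update p j a) r u =
      (fsys l k (ZC (T.image ζ)) φ hφ ζ).ev i p r u := by
  obtain ⟨P, -, h1, -⟩ := part_fine (ZC (T.image ζ)) φ hφ i
  refine Piece.eval_congr (k := k) _ h1.2.2.1 ?_ u
  rintro (b | ⟨c, β⟩ | v) hv
  · rfl
  · simp only [asg, Sum.elim_inr, Sum.elim_inl]
    rw [cellv_update]
    rintro rfl
    refine disjoint_left.1 h1.2.2.2 hv (mem_ZC.2 ⟨ζ j, mem_image_of_mem _ hj, β, rfl⟩)
  · rfl

theorem mix_flip {D : Finset (Fin B → Bool)} {v r : (Fin B → Bool) → Bool} {a : Fin B → Bool}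
    (ha : a ∉ D) : FormulaLines.flip a (mix D v r) = mix D v (FormulaLines.flip a r) := by
  funext b
  by_cases hb : b = a
  · subst hb
    simp only [FormulaLines.flip, Function.update_self, mix, ha, if_false]
  · rw [flip_of_ne hb]
    unfold mix
    rw [flip_of_ne hb]

theorem coord_mix (ζ p : J → Fin B → Bool) (D : Finset (Fin B → Bool))
    (v : (Fin B → Bool) → Bool) : Coord (fun r => asg ζ p (mix D v r)) := by
  rintro (a | q)
  · refine ⟨{a}, by simp, fun r r' h => ?_⟩
    simp only [asg, Sum.elim_inl, mix]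
    rw [h a (mem_singleton_self a)]
  · exact ⟨∅, by simp, fun r r' _ => rfl⟩

theorem fsys_inf (hl : 2 ≤ l) {G : ℝ} (hG0 : 0 ≤ G) (hG : (k : ℝ) ^ 2 * (2 * l) ≤ G ^ 2)
    (Z : Finset (LV B J)) (i : Fin (parts l Z φ).length) (p : J → Fin B → Bool)
    (D : Finset (Fin B → Bool)) (v : (Fin B → Bool) → Bool) :
    ∑ a ∈ univ \ D, pr (fun r => (fsys l k Z φ hφ ζ).Piv i p (mix D v r) a) ≤ 2 * G := by
  classical
  obtain ⟨P, hP, hf, -⟩ := part_fine Z φ hφ i
  have h1 : ∀ u : Bool, ∑ a, pr (fun r : (Fin B → Bool) → Bool =>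
      ((parts l Z φ).get i).eval (asg ζ p (mix D v r)) u ≠
        ((parts l Z φ).get i).eval (asg ζ p (mix D v (FormulaLines.flip a r))) u) ≤ G := by
    intro u
    refine influence (coord_mix ζ p D v) u _ hf.2.2.1 hG0 ?_
    refine le_trans ?_ hG
    gcongr
    have := hf.2.1.trans (pieces_size hl φ P hP).le
    exact_mod_cast this
  have h2 : ∀ a ∈ univ \ D, pr (fun r => (fsys l k Z φ hφ ζ).Piv i p (mix D v r) a) ≤
      pr (fun r : (Fin B → Bool) → Bool =>
        ((parts l Z φ).get i).eval (asg ζ p (mix D v r)) true ≠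
          ((parts l Z φ).get i).eval (asg ζ p (mix D v (FormulaLines.flip a r))) true) +
      pr (fun r : (Fin B → Bool) → Bool =>
        ((parts l Z φ).get i).eval (asg ζ p (mix D v r)) false ≠
          ((parts l Z φ).get i).eval (asg ζ p (mix D v (FormulaLines.flip a r))) false) := by
    intro a ha
    refine le_trans (pr_mono fun r hr => ?_) (pr_or _ _)
    obtain ⟨u, hu⟩ := hr
    rw [mix_flip (mem_sdiff.1 ha).2] at hu
    cases u
    · exact Or.inr hu
    · exact Or.inl hu
  refine (sum_le_sum h2).trans ?_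
  rw [sum_add_distrib]
  have h3 : ∀ u : Bool, ∑ a ∈ univ \ D, pr (fun r : (Fin B → Bool) → Bool =>
      ((parts l Z φ).get i).eval (asg ζ p (mix D v r)) u ≠
        ((parts l Z φ).get i).eval (asg ζ p (mix D v (FormulaLines.flip a r))) u) ≤ G := by
    intro u
    refine le_trans (sum_le_sum_of_subset_of_nonneg (subset_univ _)
      fun a _ _ => pr_nonneg _) (h1 u)
  linarith [h3 true, h3 false]

/-- The data read by the marked leaves. -/
def aware (Z : Finset (LV B J)) (φ : Formula (LV B J)) : Finset (Fin B → Bool) :=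
  univ.filter fun a => Sum.inl a ∈ fmreads Z φ

theorem aware_card (hφ : φ.Local (k : ℝ)) (Z : Finset (LV B J)) :
    (aware Z φ).card ≤ fmarks Z φ * k := by
  refine le_trans ?_ (fmreads_card Z φ hφ)
  refine card_le_card_of_injOn (fun a => Sum.inl a) ?_ ?_
  · intro a ha
    exact (mem_filter.1 ha).2
  · intro a _ b _ hab
    exact Sum.inl_injective hab

/-- A relevant pointer is pivotal for some part. -/
theorem rel_pivK (Z : Finset (LV B J)) {p : J → Fin B → Bool}
    {D : Finset J} {r : (Fin B → Bool) → Bool} {j : J}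
    (h : Rel (fun r => φ.eval (asg ζ p r)) p D r j) (hj : p j ∉ aware Z φ) :
    ∃ i, (fsys l k Z φ hφ ζ).PivK i p (((univ \ D).erase j).image p) r (p j) := by
  classical
  obtain ⟨r', h1, h2⟩ := h
  -- the value at the position of `j` can be taken from `r`
  obtain ⟨ρ, g1, g2⟩ : ∃ ρ : (Fin B → Bool) → Bool,
      (∀ b, b ∉ ((univ \ D).erase j).image p → ρ b = r b) ∧
      φ.eval (asg ζ p ρ) ≠ φ.eval (asg ζ p (FormulaLines.flip (p j) ρ)) := by
    have hne : ∀ b, b ∉ ((univ \ D).erase j).image p → b ≠ p j → b ∉ (univ \ D).image p := by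
      intro b hb hbj hb'
      obtain ⟨i, hi, rfl⟩ := mem_image.1 hb'
      refine hb (mem_image_of_mem _ (mem_erase.2 ⟨?_, hi⟩))
      rintro rfl
      exact hbj rfl
    by_cases hr : r' (p j) = r (p j)
    · refine ⟨r', fun b hb => ?_, h2⟩
      by_cases hbj : b = p j
      · rw [hbj, hr]
      · exact h1 b (hne b hb hbj)
    · refine ⟨FormulaLines.flip (p j) r', fun b hb => ?_, ?_⟩
      · by_cases hbj : b = p j
        · rw [hbj]
          unfold FormulaLines.flip
          rw [Function.update_self]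
          revert hr
          cases r' (p j) <;> cases r (p j) <;> simp
        · rw [flip_of_ne hbj]
          exact h1 b (hne b hb hbj)
      · rw [FormulaLines.flip_flip]
        exact h2.symm
  have hex : ∃ P ∈ pieces l φ, ∃ u, P.eval (asg ζ p ρ) u ≠
      P.eval (asg ζ p (FormulaLines.flip (p j) ρ)) u := by
    by_contra hcon
    push Not at hcon
    exact g2 (eval_eq_of_pieces (l := l) φ hcon)
  obtain ⟨P, hP, u, hu⟩ := hex
  have hag : ∀ v ∈ mreads Z P, asg ζ p ρ v = asg ζ p (FormulaLines.flip (p j) ρ) v := by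
    rintro (a | v) hv
    · simp only [asg, Sum.elim_inl]
      rw [flip_of_ne]
      rintro rfl
      exact hj (mem_filter.2 ⟨mem_univ _, pieces_mreads l Z φ P hP hv⟩)
    · rfl
  have hex2 : ∃ q ∈ refs Z P, ∃ u, q.eval (asg ζ p ρ) u ≠
      q.eval (asg ζ p (FormulaLines.flip (p j) ρ)) u := by
    by_contra hcon
    push Not at hcon
    exact hu (eval_eq_of_refs Z P (pieces_local φ hφ P hP) u hag hcon)
  obtain ⟨q, hq, u', hu'⟩ := hex2
  have hmem : q ∈ parts l Z φ := List.mem_flatMap.2 ⟨P, hP, hq⟩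
  obtain ⟨i, rfl⟩ := List.get_of_mem hmem
  exact ⟨i, ρ, g1, u', hu'⟩

theorem valid_parts (Z : Finset (LV B J)) {q : ℕ} {p : J → Fin B → Bool} {D : Finset J}
    (hφ : φ.Local (k : ℝ))
    (h : Valid (fun i : Fin (pieces l φ).length => rx ((pieces l φ).get i)) q p D)
    (i : Fin (parts l Z φ).length) :
    ((univ \ D).image p ∩ (fsys l k Z φ hφ ζ).RX i).card ≤ q := by
  classical
  obtain ⟨P, hP, hf, -⟩ := part_fine Z φ hφ i
  obtain ⟨i', rfl⟩ := List.get_of_mem hP
  have h1 := h i'
  refine le_trans ?_ h1.le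
  refine le_trans (card_le_card (t := ((univ \ D).filter fun j =>
    p j ∈ rx ((pieces l φ).get i')).image p) ?_) card_image_le
  intro b hb
  rw [mem_inter, mem_image] at hb
  obtain ⟨⟨j, hj, rfl⟩, hb⟩ := hb
  refine mem_image_of_mem _ (mem_filter.2 ⟨hj, ?_⟩)
  have h2 := (mem_filter.1 hb).2
  exact mem_filter.2 ⟨mem_univ _, hf.1 h2⟩

end

end Pool.Agent.MP_9cec2c_lc.TwoLevel
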