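import Pool.Agent.Lib.MP_9cec2c_lc.GWGen

/-!
Formulas that hold and formulas that fail in a graded world: clauses, conjunctions, counting gates.
-/

set_option autoImplicit false
set_option linter.unusedSectionVars false

namespace Pool.Agent.MP_9cec2c_lc.GW

open Finset Frege FG

variable {K V W : Type} [Field K] [AddCommGroup W] [Module K W] [Fintype K]
  {M N : ℕ → Submodule K W} {act : Fun K V →ₗ[K] W →ₗ[K] W} {A k d w : ℕ}
  {Z : ℕ → Submodule K (Fun K V)} {H : List (Fun K V) → Fun K V}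

/-! ### Clauses, negations, conjunctions -/

theorem trueIn_clause {D : List (V × Bool)} (hD : DeadIn M N act w D)
    (hA : (w + 8) * deg K k (d + 1) ≤ A) : TrueIn M N act A k d (clause D) := by
  intro Z H hE
  obtain ⟨P, u, hP, hu, hu0, h0⟩ := hD
  have h1 : 1 ≤ deg K k (d + 1) := Nat.one_le_iff_ne_zero.2
    (pow_ne_zero _ (Nat.mul_pos hE.pos card_sub_pos).ne')
  have h2 : (w + 8) * deg K k (d + 1) = w * deg K k (d + 1) + 8 * deg K k (d + 1) := by ring
  have h3 : w ≤ w * deg K k (d + 1) := Nat.le_mul_of_pos_right _ h1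
  exact hE.kill.up (hE.kill.clause hE.choice hE.pos ((hE.clean _ (self_mem_parts _)).1 trivial) hP
    (hE.zero w u hu hu0) h0) (by omega)

theorem falseIn_neg {φ : Form V} (h : TrueIn M N act A k d φ) :
    FalseIn M N act A k d (.neg φ) := by
  intro Z H hE
  rw [pv_neg]
  exact h Z H (hE.part (Set.mem_insert_of_mem _ (self_mem_parts _)))

theorem falseIn_falsum : FalseIn M N act A k d (falsum : Form V) := by
  intro Z H hE
  have h4 : pv H (falsum : Form V) = 1 - H [] := rfl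
  rw [h4, hE.choice.nil, sub_self]
  exact (Z A).zero_mem

theorem mem_parts_conjL {Λ : List (Form V)} {φ : Form V} (h : φ ∈ Λ) : φ ∈ (conjL Λ).parts := by
  obtain ⟨i, hi⟩ := List.get_of_mem h
  refine Set.mem_insert_of_mem _ (Set.mem_iUnion.2 ⟨i, ?_⟩)
  rw [hi]
  exact self_mem_parts _

theorem mem_parts_disjL {Λ : List (Form V)} {φ : Form V} (h : φ ∈ Λ) : φ ∈ (disjL Λ).parts := by
  obtain ⟨i, hi⟩ := List.get_of_mem h
  refine Set.mem_insert_of_mem _ (Set.mem_iUnion.2 ⟨i, ?_⟩)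
  rw [hi]
  exact self_mem_parts _

theorem trueIn_conjL {Λ : List (Form V)} (hn : ∀ φ ∈ Λ, ¬ φ.IsConj)
    (h : ∀ φ ∈ Λ, TrueIn M N act A k d φ) (hA : 2 * deg K k (d + 1) ≤ A) :
    TrueIn M N act A k d (conjL Λ) := by
  intro Z H hE
  have h1 := hE.kill.pv_of_andl (φ := conjL Λ) hE.choice hE.pos hE.depth (U := 1)
    (n := deg K k (d + 1)) (m := 2 * deg K k (d + 1)) (by
      intro g hg
      obtain ⟨φ, hφ, hgφ⟩ := (andl_conjL _ g).1 hg
      rw [andl_of_not (hn φ hφ), List.map_cons, List.map_nil] at hgφ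
      rw [List.mem_singleton.1 hgφ, mul_one]
      exact hE.sat φ (mem_parts_conjL hφ) (h φ hφ Z H (hE.part (mem_parts_conjL hφ)))) (by omega)
  rw [mul_one] at h1
  exact hE.kill.up h1 hA

/-- The value of a conjunction with a false member. -/
theorem conj_value {Λ : List (Form V)} {φ : Form V} (hφ : φ ∈ Λ) (hn : ¬ φ.IsConj)
    (h : ∀ (Z : ℕ → Submodule K (Fun K V)) (H : List (Fun K V) → Fun K V),
      Env M N act A k d Z H φ → pv H φ ∈ Z (4 * deg K k (d + 1)))
    (hE : Env M N act A k d Z H (conjL Λ)) {m : ℕ} (hm : 5 * deg K k (d + 1) ≤ m) :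
    pv H (conjL Λ) ∈ Z m := by
  obtain ⟨L, hL⟩ : ∃ L, L = (andl H (conjL Λ)).map (1 - ·) := ⟨_, rfl⟩
  have h1 : pv H (conjL Λ) = H L := by
    rw [hL]
    exact pv_of_conj trivial
  have h2 : 1 - pv H φ ∈ L := by
    rw [hL]
    refine (andl_conjL _ _).2 ⟨φ, hφ, ?_⟩
    rw [andl_of_not hn]
    exact List.mem_singleton.2 rfl
  have h3 := (hE.clean _ (self_mem_parts _)).2 trivial
  rw [← hL] at h3
  have h4 := h3 _ h2
  have hm' : H L ∈ Pol K V (deg K k d) := by
    rw [← h1]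
    exact pv_mem hE.choice hE.pos hE.depth
  have hd : deg K k d ≤ deg K k (d + 1) := deg_mono hE.pos (Nat.le_add_right d 1)
  have h5 := hE.kill.mulle (m := 5 * deg K k (d + 1)) hm'
    (h Z H (hE.part (mem_parts_conjL hφ))) (by omega)
  have h6 := hE.kill.up h4 (show 2 * deg K k (d + 1) ≤ 5 * deg K k (d + 1) by omega)
  have h7 := (Z _).add_mem h6 h5
  have h8 : (1 - pv H φ) * H L + H L * pv H φ = pv H (conjL Λ) := by
    rw [h1]
    ring
  rw [h8] at h7
  exact hE.kill.up h7 hm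

theorem falseIn_conjL {Λ : List (Form V)} {φ : Form V} (hφ : φ ∈ Λ) (hn : ¬ φ.IsConj)
    (h : ∀ (Z : ℕ → Submodule K (Fun K V)) (H : List (Fun K V) → Fun K V),
      Env M N act A k d Z H φ → pv H φ ∈ Z (4 * deg K k (d + 1)))
    (hA : 5 * deg K k (d + 1) ≤ A) : FalseIn M N act A k d (conjL Λ) :=
  fun _ _ hE => conj_value hφ hn h hE hA

/-- An implication with a true hypothesis and a false conclusion. -/
theorem falseIn_imp {φ ψ : Form V} (hφ : TrueIn M N act A k d φ) (hψ : FalseIn M N act A k d ψ)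
    (hn : ¬ ψ.IsDisj)
    (h : ∀ (Z : ℕ → Submodule K (Fun K V)) (H : List (Fun K V) → Fun K V),
      Env M N act A k d Z H ψ → pv H ψ ∈ Z A → pv H ψ ∈ Z (5 * deg K k (d + 1)))
    (hA : 6 * deg K k (d + 1) ≤ A) : FalseIn M N act A k d (disjL [.neg φ, ψ]) := by
  intro Z H hE
  have hp1 : Form.neg φ ∈ (disjL [.neg φ, ψ]).parts := mem_parts_disjL (by simp)
  have hp1' : φ ∈ (disjL [.neg φ, ψ]).parts :=
    parts_trans (Set.mem_insert_of_mem _ (self_mem_parts φ)) hp1
  have hp2 : ψ ∈ (disjL [.neg φ, ψ]).parts := mem_parts_disjL (by simp)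
  have h1 := hE.kill.pv_of_orl (φ := disjL [.neg φ, ψ]) hE.choice hE.pos hE.depth (U := 1)
    (n := 5 * deg K k (d + 1)) (m := 6 * deg K k (d + 1)) (by
      intro g hg
      obtain ⟨χ, hχ, hgχ⟩ := (orl_disjL _ g).1 hg
      rw [mul_one]
      simp only [List.mem_cons, List.not_mem_nil, or_false] at hχ
      rcases hχ with rfl | rfl
      · rw [orl_of_not (show ¬ (Form.neg φ).IsDisj from id)] at hgχ
        rw [List.mem_singleton.1 hgχ, pv_neg]
        exact hE.kill.up (hE.sat φ hp1' (hφ Z H (hE.part hp1'))) (by omega)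
      · rw [orl_of_not hn] at hgχ
        rw [List.mem_singleton.1 hgχ]
        exact h Z H (hE.part hp2) (hψ Z H (hE.part hp2))) (by omega)
  rw [mul_one] at h1
  exact hE.kill.up h1 hA

/-! ### Counting gates -/

/-- Powers of a function that is a constant up to zero. -/
theorem pow_const (hZ : Kill A Z) {S : Fun K V} {c : K} {t e κ : ℕ} (hκ : 1 ≤ κ)
    (hS : S ∈ Pol K V t) (h : S - (c • (1 : Fun K V)) ∈ Z e) :
    S ^ κ - (c ^ κ) • (1 : Fun K V) ∈ Z ((κ - 1) * t + e) := by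
  have h1 : S ^ κ - (c ^ κ) • (1 : Fun K V) =
      (∑ i ∈ range κ, S ^ i * (c • (1 : Fun K V)) ^ (κ - 1 - i)) * (S - c • (1 : Fun K V)) := by
    rw [geom_sum₂_mul]
    congr 1
    rw [smul_pow, one_pow]
  rw [h1]
  refine hZ.mul _ _ _ _ (Submodule.sum_mem _ fun i hi => ?_) h
  have h2 : (c • (1 : Fun K V)) ^ (κ - 1 - i) = c ^ (κ - 1 - i) • (1 : Fun K V) := by
    rw [smul_pow, one_pow]
  rw [h2, mul_smul_comm, mul_one]
  refine Submodule.smul_mem _ _ (Pol_mono ?_ (Frege.pow_mem hS i))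
  exact Nat.mul_le_mul_right _ (by have := mem_range.1 hi; omega)

theorem natCast_fun (r : ℕ) : (r : Fun K V) = (r : K) • (1 : Fun K V) := by
  funext x
  rw [Pi.smul_apply, Pi.one_apply, smul_eq_mul, mul_one]
  rfl

/-- The value of a counting gate whose inputs have, up to zero, a constant sum. -/
theorem count_value (hZ : Kill A Z) {r n t e : ℕ} {s : K} {F : Fin n → Form V}
    {D : Fin n → Fun K V} (ht : ∀ i, pv H (F i) ∈ Pol K V t) (hD : ∀ i, pv H (F i) - D i ∈ Z e)
    (hs : ∑ i, D i - s • (1 : Fun K V) ∈ Z e) :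
    (s = (r : K) → 1 - pv H (.count r n F) ∈ Z ((Fintype.card K - 1 - 1) * t + e)) ∧
      (s ≠ (r : K) → pv H (.count r n F) ∈ Z ((Fintype.card K - 1 - 1) * t + e)) := by
  have hκ := card_sub_pos (K := K)
  have h1 : (∑ i, pv H (F i)) - (r : Fun K V) - (s - (r : K)) • (1 : Fun K V) ∈ Z e := by
    have h2 : (∑ i, pv H (F i)) - (r : Fun K V) - (s - (r : K)) • (1 : Fun K V) =
        ∑ i, (pv H (F i) - D i) + (∑ i, D i - s • (1 : Fun K V)) := by
      rw [natCast_fun, sum_sub_distrib, sub_smul]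
      ring
    rw [h2]
    exact (Z e).add_mem ((Z e).sum_mem fun i _ => hD i) hs
  have hSt : (∑ i, pv H (F i)) - (r : Fun K V) ∈ Pol K V t := by
    rw [natCast_fun]
    exact Submodule.sub_mem _ (Submodule.sum_mem _ fun i _ => ht i)
      (Submodule.smul_mem _ _ (Frege.one_mem _))
  have h2 := pow_const hZ (κ := Fintype.card K - 1) hκ hSt h1
  rw [pv_count]
  unfold cf
  constructor
  · intro h3
    rw [h3, sub_self, zero_pow hκ.ne', zero_smul, sub_zero] at h2
    rwa [sub_sub_cancel]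
  · intro h3
    rw [FiniteField.pow_card_sub_one_eq_one _ (sub_ne_zero.2 h3), one_smul] at h2
    have h4 := (Z _).neg_mem h2
    rwa [neg_sub] at h4

theorem pv_var (v : V) : pv H (.var v) = sat K (v, true) := pv_lit (v, true)


end Pool.Agent.MP_9cec2c_lc.GW
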