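import Pool.Agent.Lib.MP_9cec2c_lc.Mg.G038

/-!
The lower bound for the size of derivations in Frege systems from a graded world, for arbitrary
hypotheses and conclusions: the hypotheses hold in the world, the conclusion fails in the world.
-/

set_option autoImplicit false
set_option linter.unusedSectionVars false

namespace Pool.Agent.MP_9cec2c_lc.GW

open Finset Frege FG

variable {K V W : Type} [Field K] [AddCommGroup W] [Module K W] [Fintype K]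

/-- The approximations `H` are correct, up to the functions in `Z`, for all subformulas of `φ`. -/
structure Env (M N : ℕ → Submodule K W) (act : Fun K V →ₗ[K] W →ₗ[K] W) (A k d : ℕ)
    (Z : ℕ → Submodule K (Fun K V)) (H : List (Fun K V) → Fun K V) (φ : Form V) : Prop where
  pos : 1 ≤ k
  kill : Kill A Z
  choice : Choice k H
  depth : φ.depth ≤ d
  clean : ∀ ψ ∈ φ.parts, CleanForm Z H (2 * deg K k (d + 1)) ψ
  sat : ∀ ψ ∈ φ.parts, 1 - pv H ψ ∈ Z A → 1 - pv H ψ ∈ Z (deg K k (d + 1))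
  zero : ∀ (n : ℕ) (Q : Fun K V), Q ∈ Pol K V n → (∀ f ∈ M 0, act Q f ∈ N n) → Q ∈ Z n

theorem Env.part {M N : ℕ → Submodule K W} {act : Fun K V →ₗ[K] W →ₗ[K] W} {A k d : ℕ}
    {Z : ℕ → Submodule K (Fun K V)} {H : List (Fun K V) → Fun K V} {φ ψ : Form V}
    (h : Env M N act A k d Z H φ) (hψ : ψ ∈ φ.parts) : Env M N act A k d Z H ψ :=
  ⟨h.pos, h.kill, h.choice, (depth_parts hψ).trans h.depth,
    fun χ hχ => h.clean χ (parts_trans hχ hψ), fun χ hχ => h.sat χ (parts_trans hχ hψ), h.zero⟩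

/-- The formula `φ` holds in the world. -/
def TrueIn (M N : ℕ → Submodule K W) (act : Fun K V →ₗ[K] W →ₗ[K] W) (A k d : ℕ)
    (φ : Form V) : Prop :=
  ∀ (Z : ℕ → Submodule K (Fun K V)) (H : List (Fun K V) → Fun K V),
    Env M N act A k d Z H φ → 1 - pv H φ ∈ Z A

/-- The formula `φ` fails in the world. -/
def FalseIn (M N : ℕ → Submodule K W) (act : Fun K V →ₗ[K] W →ₗ[K] W) (A k d : ℕ)
    (φ : Form V) : Prop :=
  ∀ (Z : ℕ → Submodule K (Fun K V)) (H : List (Fun K V) → Fun K V),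
    Env M N act A k d Z H φ → pv H φ ∈ Z A

variable [FiniteDimensional K W] {M N : ℕ → Submodule K W} {act : Fun K V →ₗ[K] W →ₗ[K] W} {A : ℕ}

/-- In a graded world, all lines of a short derivation hold up to functions that count as zero on
one vector. -/
theorem gen_holds {p d n k m c τ : ℕ} [CharP K p] (hW : GWorld M N act) (hk : 1 ≤ k)
    {C Ω : ℝ} (hC : 1 ≤ C) (hΩ : 0 ≤ Ω) (hB : Bounds M N A τ C Ω)
    (hA : (m + k + 4) * (Fintype.card K * deg K k d) ≤ A)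
    {S : Set Rule} (hS : ∀ R ∈ S, R.Sound p ∧ rcost R ≤ c ∧ R.nodes.length ≤ c)
    (hA2 : c * deg K k (d + 1) ≤ A) (hA3 : deg K k (d + 1) ≤ A)
    {Φ : Set (Form V)} (hΦ : ∀ φ ∈ Φ, TrueIn M N act A k d φ)
    {l : ℕ} {L : Fin l → Form V} (hL : IsDerivation S d Φ L) (hn : size L ≤ n)
    (hρ : 2 * (c + 1) * n * ((2 * C * (3 / 4) ^ k + C / 2 ^ m) * Ω + 4 * n * τ) + n * τ +
      Module.finrank K (M 0 ⊓ N A : Submodule K W) < Module.finrank K (M 0)) :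
    ∃ (Z : ℕ → Submodule K (Fun K V)) (H : List (Fun K V) → Fun K V), Kill A Z ∧
      ∀ i, Env M N act A k d Z H (L i) ∧ 1 - pv H (L i) ∈ Z (deg K k (d + 1)) := by
  classical
  obtain ⟨ρ, hρ'⟩ : ∃ ρ : ℝ, ρ = (2 * C * (3 / 4) ^ k + C / 2 ^ m) * Ω + 4 * n * τ := ⟨_, rfl⟩
  obtain ⟨t, ht⟩ : ∃ t, t = deg K k d := ⟨_, rfl⟩
  obtain ⟨T, hT⟩ : ∃ T, T = deg K k (d + 1) := ⟨_, rfl⟩
  have htT : t + k * ((Fintype.card K - 1) * t) ≤ 2 * T := by
    have h1 : t ≤ T := by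
      rw [ht, hT]
      exact deg_mono hk (Nat.le_add_right d 1)
    have h2 : k * ((Fintype.card K - 1) * t) = T := by
      rw [ht, hT, deg_succ, mul_assoc]
    omega
  have hTA : T ≤ A := by omega
  obtain ⟨H, hH'⟩ : ∃ H : List (Fun K V) → Fun K V,
      H = apx M N act k (t + k * ((Fintype.card K - 1) * t)) ρ := ⟨_, rfl⟩
  have hρ0 : 0 ≤ ρ := by
    rw [hρ']
    positivity
  have hH : Choice k H := by
    rw [hH']
    exact apx_choice hk hρ0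
  -- the data of the inferences
  have hdata : ∀ i, ∃ (R : Rule) (σ : ℕ → Form V) (τ : ℕ → List (Form V)), L i ∉ Φ →
      R ∈ S ∧ (∀ P ∈ R.premises, ∀ ψ ∈ P.inst σ τ, ψ ∈ {ψ | ∃ j, j < i ∧ L j = ψ}) ∧
      R.conclusion.inst σ τ = [L i] := by
    intro i
    by_cases h : L i ∈ Φ
    · exact ⟨⟨[], .form 0⟩, fun _ => L i, fun _ => [], fun h' => absurd h h'⟩
    · obtain ⟨R, hR, σ, τ, h1, h2⟩ := ((hL i).2).resolve_left h
      exact ⟨R, σ, τ, fun _ => ⟨hR, h1, h2⟩⟩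
  choose R σ ν hR using hdata
  obtain ⟨Pt, hPt⟩ : ∃ Pt : Finset (Form V), Pt = (parts_set_finite L).toFinset := ⟨_, rfl⟩
  have hPtm : ∀ ψ, ψ ∈ Pt ↔ ∃ i, ψ ∈ (L i).parts := by
    intro ψ
    rw [hPt, Set.Finite.mem_toFinset]
    exact Iff.rfl
  have hPtd : ∀ ψ ∈ Pt, ψ.depth ≤ d := by
    intro ψ hψ
    obtain ⟨i, hi⟩ := (hPtm ψ).1 hψ
    exact (depth_parts hi).trans (hL i).1
  have hPtp : ∀ ψ ∈ Pt, ∀ χ ∈ ψ.parts, χ ∈ Pt := by
    intro ψ hψ χ hχ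
    obtain ⟨i, hi⟩ := (hPtm ψ).1 hψ
    exact (hPtm χ).2 ⟨i, parts_trans hχ hi⟩
  have hPtc : Pt.card + l = size L := by
    unfold size
    rw [hPt, Set.ncard_eq_toFinset_card _ (parts_set_finite L), add_comm]
  have hPtn : Pt.card ≤ n := by omega
  -- formulas at nodes are subformulas of lines
  have hinst : ∀ i, L i ∉ Φ → ∀ P, P ∈ (R i).premises ∨ P = (R i).conclusion →
      ∀ χ ∈ P.inst (σ i) (ν i), ∃ j, L j = χ := by
    intro i hi P hP χ hχ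
    obtain ⟨-, h1, h2⟩ := hR i hi
    rcases hP with hP | rfl
    · obtain ⟨j, -, hj⟩ := h1 P hP χ hχ
      exact ⟨j, hj⟩
    · rw [h2] at hχ
      exact ⟨i, (List.mem_singleton.1 hχ).symm⟩
  have hnodeP : ∀ i, L i ∉ Φ → ∀ P, P ∈ (R i).premises ∨ P = (R i).conclusion →
      ∀ Q ∈ P.subs, (∀ φ ∈ Q.inst (σ i) (ν i), φ ∈ Pt) ∧ ∀ φ ∈ Q.args (σ i) (ν i), φ ∈ Pt := by
    intro i hi P hP Q hQ
    constructor
    · intro φ hφ
      obtain ⟨χ, hχ, h3⟩ := inst_parts hQ hφ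
      obtain ⟨j, hj⟩ := hinst i hi P hP χ hχ
      exact (hPtm φ).2 ⟨j, by rw [hj]; exact h3⟩
    · intro φ hφ
      obtain ⟨χ, hχ, h3⟩ := args_parts hQ hφ
      obtain ⟨j, hj⟩ := hinst i hi P hP χ hχ
      exact (hPtm φ).2 ⟨j, by rw [hj]; exact h3⟩
  have hnodes : ∀ i, ∀ Q, Q ∈ (R i).nodes ↔ ∃ P, (P ∈ (R i).premises ∨ P = (R i).conclusion) ∧
      Q ∈ P.subs := by
    intro i Q
    unfold Rule.nodes
    rw [List.mem_append, List.mem_flatMap]
    constructor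
    · rintro (⟨P, h1, h2⟩ | h1)
      · exact ⟨P, Or.inl h1, h2⟩
      · exact ⟨_, Or.inr rfl, h1⟩
    · rintro ⟨P, h1 | rfl, h2⟩
      · exact Or.inl ⟨P, h1, h2⟩
      · exact Or.inr h2
  -- the lists
  obtain ⟨nd, hnd⟩ : ∃ nd : Fin l → Finset (List (Fun K V)), nd = fun i =>
    if L i ∈ Φ then ∅ else
      (R i).nodes.toFinset.image (fun Q => pos H (Q.args (σ i) (ν i))) ∪
      (R i).nodes.toFinset.image (fun Q => neg H (Q.args (σ i) (ν i))) := ⟨_, rfl⟩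
  obtain ⟨𝓛, h𝓛⟩ : ∃ 𝓛 : Finset (List (Fun K V)), 𝓛 = (Pt.image (orl H) ∪
    Pt.image fun ψ => (andl H ψ).map (1 - ·)) ∪ univ.biUnion nd := ⟨_, rfl⟩
  obtain ⟨𝓠, h𝓠⟩ : ∃ 𝓠 : Finset (Fun K V), 𝓠 = Pt.image fun ψ => 1 - pv H ψ := ⟨_, rfl⟩
  have hcard : 𝓛.card ≤ 2 * (c + 1) * n := by
    have h1 : ∀ i ∈ (univ : Finset (Fin l)), (nd i).card ≤ 2 * c := by
      intro i _
      rw [hnd]
      by_cases hi : L i ∈ Φ
      · simp only [if_pos hi, card_empty]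
        exact Nat.zero_le _
      · simp only [if_neg hi]
        have h2 := (hS _ (hR i hi).1).2.2
        have h3 := (R i).nodes.toFinset_card_le
        refine (card_union_le _ _).trans ?_
        have h4 := card_image_le (s := (R i).nodes.toFinset)
          (f := fun Q => pos H (Q.args (σ i) (ν i)))
        have h5 := card_image_le (s := (R i).nodes.toFinset)
          (f := fun Q => neg H (Q.args (σ i) (ν i)))
        omega
    have h2 : (univ.biUnion nd).card ≤ l * (2 * c) := by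
      refine card_biUnion_le.trans ((sum_le_sum h1).trans (le_of_eq ?_))
      rw [sum_const, card_univ, Fintype.card_fin, smul_eq_mul]
    have h3 := card_image_le (s := Pt) (f := orl H)
    have h4 := card_image_le (s := Pt) (f := fun ψ => (andl H ψ).map (1 - ·))
    have h5 : 𝓛.card ≤ (Pt.card + Pt.card) + l * (2 * c) := by
      rw [h𝓛]
      refine (card_union_le _ _).trans (Nat.add_le_add ((card_union_le _ _).trans
        (Nat.add_le_add h3 h4)) h2)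
    have h6 : 2 * (c + 1) * (Pt.card + l) ≤ 2 * (c + 1) * n :=
      Nat.mul_le_mul_left _ (hPtc ▸ hn)
    have h7 : 2 * (c + 1) * (Pt.card + l) = (Pt.card + Pt.card) + l * (2 * c) +
      (2 * c * Pt.card + 2 * l) := by ring
    omega
  have hgood : ∀ L' : List (Fun K V), (∀ g ∈ L', Bin g) → (∀ g ∈ L', g ∈ Pol K V t) →
      L'.toFinset.card ≤ n →
      ∃ h, Apx M N act k (t + k * ((Fintype.card K - 1) * t)) ρ L' h := by
    intro L' h1 h2 h3
    rw [hρ']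
    exact exists_apx hW hC hΩ hB hk h1 h2 h3 (by rw [ht]; exact hA)
  have hpos : ∀ Λ : List (Form V), (∀ φ ∈ Λ, φ ∈ Pt) → (pos H Λ).toFinset.card ≤ n := by
    intro Λ hΛ
    refine (card_pos_le (Pt := Pt) (H := H) fun g hg => ?_).trans hPtn
    obtain ⟨φ, hφ, rfl⟩ := List.mem_map.1 hg
    exact ⟨φ, hΛ φ hφ, rfl⟩
  have hneg : ∀ Λ : List (Form V), (∀ φ ∈ Λ, φ ∈ Pt) → (neg H Λ).toFinset.card ≤ n := by
    intro Λ hΛ
    refine (card_neg_le (Pt := Pt) (H := H) fun g hg => ?_).trans hPtn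
    obtain ⟨φ, hφ, rfl⟩ := List.mem_map.1 hg
    exact ⟨φ, hΛ φ hφ, rfl⟩
  have hapx : ∀ L' ∈ 𝓛, ∃ h, Apx M N act k (t + k * ((Fintype.card K - 1) * t)) ρ L' h := by
    intro L' hL'
    rw [h𝓛, mem_union, mem_union] at hL'
    rcases hL' with (hL' | hL') | hL'
    · obtain ⟨ψ, hψ, rfl⟩ := mem_image.1 hL'
      refine hgood _ (orl_bin hH ψ) (ht ▸ orl_mem hH hk (hPtd ψ hψ)) ?_
      refine (card_pos_le (Pt := Pt) (H := H) fun g hg => ?_).trans hPtn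
      obtain ⟨χ, h1, h2⟩ := orl_parts ψ g hg
      exact ⟨χ, hPtp ψ hψ χ h1, h2⟩
    · obtain ⟨ψ, hψ, rfl⟩ := mem_image.1 hL'
      refine hgood _ (andl_bin hH ψ) (ht ▸ andl_mem hH hk (hPtd ψ hψ)) ?_
      refine (card_neg_le (Pt := Pt) (H := H) fun g hg => ?_).trans hPtn
      obtain ⟨g', hg', rfl⟩ := List.mem_map.1 hg
      obtain ⟨χ, h1, h2⟩ := andl_parts ψ g' hg'
      exact ⟨χ, hPtp ψ hψ χ h1, by rw [h2]⟩
    · obtain ⟨i, -, hi⟩ := mem_biUnion.1 hL'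
      rw [hnd] at hi
      by_cases hiΦ : L i ∈ Φ
      · simp only [if_pos hiΦ] at hi
        exact absurd hi (notMem_empty _)
      · simp only [if_neg hiΦ] at hi
        rcases mem_union.1 hi with hi | hi
        · obtain ⟨Q, hQ, rfl⟩ := mem_image.1 hi
          obtain ⟨P, hP, hQP⟩ := (hnodes i Q).1 (List.mem_toFinset.1 hQ)
          exact hgood _ (pos_bin hH _) (ht ▸ pos_mem hH hk fun φ hφ =>
            hPtd φ ((hnodeP i hiΦ P hP Q hQP).2 φ hφ)) (hpos _ (hnodeP i hiΦ P hP Q hQP).2)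
        · obtain ⟨Q, hQ, rfl⟩ := mem_image.1 hi
          obtain ⟨P, hP, hQP⟩ := (hnodes i Q).1 (List.mem_toFinset.1 hQ)
          exact hgood _ (neg_bin hH _) (ht ▸ neg_mem hH hk fun φ hφ =>
            hPtd φ ((hnodeP i hiΦ P hP Q hQP).2 φ hφ)) (hneg _ (hnodeP i hiΦ P hP Q hQP).2)
  have h𝓠m : ∀ Q ∈ 𝓠, Q ∈ Pol K V T := by
    intro Q hQ
    rw [h𝓠] at hQ
    obtain ⟨ψ, hψ, rfl⟩ := mem_image.1 hQ
    exact Submodule.sub_mem _ (Frege.one_mem _) (hT ▸ Pol_mono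
      (deg_mono hk (Nat.le_add_right d 1)) (pv_mem hH hk (hPtd ψ hψ)))
  have h𝓠c : 𝓠.card ≤ n := by
    rw [h𝓠]
    exact card_image_le.trans hPtn
  obtain ⟨f, hf, hfA, hfL, hfQ⟩ := exists_vector hW (k := k)
    (n := t + k * ((Fintype.card K - 1) * t)) (ρ := ρ) hB hTA 𝓛 𝓠 hapx h𝓠m (by
      refine lt_of_le_of_lt (add_le_add_left (add_le_add ?_ ?_) _) (hρ' ▸ hρ)
      · exact mul_le_mul_of_nonneg_right (by exact_mod_cast hcard) hρ0
      · exact mul_le_mul_of_nonneg_right (by exact_mod_cast h𝓠c) (Nat.cast_nonneg _))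
  rw [← hH'] at hfL
  obtain ⟨Z, hZdef⟩ : ∃ Z : ℕ → Submodule K (Fun K V), Z = zer N act f := ⟨_, rfl⟩
  have hZ : Kill A Z := hZdef ▸ kill_of_world hW hfA
  have hmem : ∀ {n : ℕ} {Q : Fun K V}, Q ∈ Z n ↔ Q ∈ Pol K V n ∧ act Q f ∈ N n := by
    intro n Q
    rw [hZdef]
    exact mem_zer
  have hbinL : ∀ L' ∈ 𝓛, (∀ g ∈ L', Bin g) ∧ ∀ g ∈ L', g ∈ Pol K V t := by
    intro L' hL'
    rw [h𝓛, mem_union, mem_union] at hL'
    rcases hL' with (hL' | hL') | hL'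
    · obtain ⟨ψ, hψ, rfl⟩ := mem_image.1 hL'
      exact ⟨orl_bin hH ψ, ht ▸ orl_mem hH hk (hPtd ψ hψ)⟩
    · obtain ⟨ψ, hψ, rfl⟩ := mem_image.1 hL'
      exact ⟨andl_bin hH ψ, ht ▸ andl_mem hH hk (hPtd ψ hψ)⟩
    · obtain ⟨i, -, hi⟩ := mem_biUnion.1 hL'
      rw [hnd] at hi
      by_cases hiΦ : L i ∈ Φ
      · simp only [if_pos hiΦ] at hi
        exact absurd hi (notMem_empty _)
      · simp only [if_neg hiΦ] at hi
        rcases mem_union.1 hi with hi | hi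
        · obtain ⟨Q, hQ, rfl⟩ := mem_image.1 hi
          obtain ⟨P, hP, hQP⟩ := (hnodes i Q).1 (List.mem_toFinset.1 hQ)
          exact ⟨pos_bin hH _, ht ▸ pos_mem hH hk fun φ hφ =>
            hPtd φ ((hnodeP i hiΦ P hP Q hQP).2 φ hφ)⟩
        · obtain ⟨Q, hQ, rfl⟩ := mem_image.1 hi
          obtain ⟨P, hP, hQP⟩ := (hnodes i Q).1 (List.mem_toFinset.1 hQ)
          exact ⟨neg_bin hH _, ht ▸ neg_mem hH hk fun φ hφ =>
            hPtd φ ((hnodeP i hiΦ P hP Q hQP).2 φ hφ)⟩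
  have hcl : ∀ L' ∈ 𝓛, Clean Z H (2 * T) L' := by
    intro L' hL' g hg
    refine hZ.up (n := t + k * ((Fintype.card K - 1) * t)) (hmem.2 ⟨?_, hfL L' hL' g hg⟩) htT
    refine Frege.mul_mem ((hbinL L' hL').2 g hg) ?_
    exact (hH.hor L' (hbinL L' hL').1).mem (hbinL L' hL').2
  rw [hT] at hcl
  have hclP : ∀ ψ ∈ Pt, CleanForm Z H (2 * deg K k (d + 1)) ψ := by
    intro ψ hψ
    constructor
    · intro _
      exact hcl _ (by
        rw [h𝓛, mem_union, mem_union]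
        exact Or.inl (Or.inl (mem_image_of_mem _ hψ)))
    · intro _
      exact hcl _ (by
        rw [h𝓛, mem_union, mem_union]
        exact Or.inl (Or.inr (mem_image.2 ⟨ψ, hψ, rfl⟩)))
  have hsat : ∀ ψ ∈ Pt, 1 - pv H ψ ∈ Z A →
      1 - pv H ψ ∈ Z (deg K k (d + 1)) := by
    intro ψ hψ h
    have h1 : 1 - pv H ψ ∈ 𝓠 := by
      rw [h𝓠]
      exact mem_image.2 ⟨ψ, hψ, rfl⟩
    rw [← hT]
    exact hmem.2 ⟨h𝓠m _ h1, hfQ _ h1 (hmem.1 h).2⟩
  have hfine : ∀ i, L i ∉ Φ → ∀ P, P ∈ (R i).premises ∨ P = (R i).conclusion →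
      NodeFine Z H (2 * deg K k (d + 1)) d (σ i) (ν i) P := by
    intro i hi P hP Q hQ
    have h1 := hnodeP i hi P hP Q hQ
    have h2 : Q ∈ (R i).nodes.toFinset := List.mem_toFinset.2 ((hnodes i Q).2 ⟨P, hP, hQ⟩)
    refine ⟨fun φ hφ => ⟨hPtd φ (h1.1 φ hφ), hclP φ (h1.1 φ hφ)⟩, ?_, ?_⟩
    · refine hcl _ ?_
      rw [h𝓛, mem_union]
      refine Or.inr (mem_biUnion.2 ⟨i, mem_univ i, ?_⟩)
      rw [hnd]
      simp only [if_neg hi]
      exact mem_union_left _ (mem_image.2 ⟨Q, h2, rfl⟩)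
    · refine hcl _ ?_
      rw [h𝓛, mem_union]
      refine Or.inr (mem_biUnion.2 ⟨i, mem_univ i, ?_⟩)
      rw [hnd]
      simp only [if_neg hi]
      exact mem_union_right _ (mem_image.2 ⟨Q, h2, rfl⟩)
  have hzero : ∀ (n : ℕ) (Q : Fun K V), Q ∈ Pol K V n → (∀ f ∈ M 0, act Q f ∈ N n) →
      Q ∈ Z n := fun n Q hQ hQ0 => hmem.2 ⟨hQ, hQ0 f hf⟩
  have henv : ∀ i, Env M N act A k d Z H (L i) := fun i =>
    ⟨hk, hZ, hH, (hL i).1, fun ψ hψ => hclP ψ ((hPtm ψ).2 ⟨i, hψ⟩),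
      fun ψ hψ => hsat ψ ((hPtm ψ).2 ⟨i, hψ⟩), hzero⟩
  have hline : ∀ n : ℕ, ∀ i : Fin l, (i : ℕ) = n →
      1 - pv H (L i) ∈ Z (deg K k (d + 1)) := by
    intro n
    induction n using Nat.strong_induction_on with
    | _ n ih =>
      intro i hin
      refine hsat _ ((hPtm _).2 ⟨i, self_mem_parts _⟩) ?_
      by_cases hi : L i ∈ Φ
      · exact hΦ _ hi Z H (henv i)
      · obtain ⟨h1, h2, h3⟩ := hR i hi
        have h4 := hS _ h1
        refine hZ.up (hZ.rule (p := p) (d := d) hH hk h4.1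
          (fun P hP => hfine i hi P (Or.inl hP)) (hfine i hi _ (Or.inr rfl)) ?_ h3)
          ((Nat.mul_le_mul_right _ h4.2.1).trans hA2)
        intro P hP ψ hψ
        obtain ⟨j, hj, hjψ⟩ := h2 P hP ψ hψ
        rw [← hjψ]
        exact ih j (by rw [← hin]; exact hj) j rfl
  exact ⟨Z, H, hZ, fun i => ⟨henv i, hline i i rfl⟩⟩


/-- The lower bound for derivations of a formula that fails from formulas that hold. -/
theorem gen_bound {p d n R c w τ : ℕ} [CharP K p] (hW : GWorld M N act) {C Ω : ℝ}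
    (hC : 1 ≤ C) (hΩ : 0 < Ω) (hB : Bounds M N A τ C Ω)
    (hpos : (Module.finrank K (M 0 ⊓ N A : Submodule K W) : ℝ) + Ω ≤ Module.finrank K (M 0))
    (hτ : 36 * (c + 1) * (n : ℝ) ^ 2 * τ ≤ Ω)
    {S : Set Rule} (hS : ∀ R ∈ S, R.Sound p ∧ rcost R ≤ c ∧ R.nodes.length ≤ c)
    (hR : 16 * (c + 1) * C * n ≤ 2 ^ R) (hR1 : 1 ≤ R)
    (hA : (c + w + 8) * (3 * R * (Fintype.card K - 1)) ^ (d + 1) ≤ A)
    {Φ : Set (Form V)}
    (hΦ : (w + 8) * deg K (3 * R) (d + 1) ≤ A → ∀ φ ∈ Φ, TrueIn M N act A (3 * R) d φ)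
    {l : ℕ} {L : Fin l → Form V} (hL : IsDerivation S d Φ L)
    (hf : (w + 8) * deg K (3 * R) (d + 1) ≤ A → ∃ i, FalseIn M N act A (3 * R) d (L i)) :
    n < size L := by
  by_contra hcon
  rw [not_lt] at hcon
  have hw : (w + 8) * deg K (3 * R) (d + 1) ≤ A := by
    refine le_trans ?_ hA
    show (w + 8) * (3 * R * (Fintype.card K - 1)) ^ (d + 1) ≤ _
    exact Nat.mul_le_mul_right _ (by omega)
  obtain ⟨h1, h2, h3, h4⟩ := numbers (K := K) (d := d) hC hΩ hpos hτ hR hR1 hA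
  obtain ⟨Z, H, hZ, h5⟩ := gen_holds (p := p) hW (by omega) hC hΩ.le hB h1 hS h2 (by omega)
    (hΦ hw) hL hcon h4
  obtain ⟨i, hi⟩ := hf hw
  apply hZ.one
  have h6 := (Z A).add_mem (hZ.up (h5 i).2 (by omega)) (hi Z H (h5 i).1)
  rwa [sub_add_cancel] at h6

end Pool.Agent.MP_9cec2c_lc.GW
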