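import Pool.Agent.Lib.MP_9cec2c_lc.Mg.G056

/-!
Dags of triangles in which a node may have any number of children, if only few of them are active
at each input of the first player, apart from some of which only few are active at each input of
the second player.
-/

set_option autoImplicit false
set_option linter.unusedSectionVars false

namespace Pool.Agent.MP_9cec2c_lc.LovSch

open Finset

variable {U V I : Type} [Fintype U] [DecidableEq U] [Fintype V] [DecidableEq V] [Fintype I]
  [DecidableEq I] {S : U → Finset I} {T : V → Finset I} {r : ℕ} {BU : Finset U} {BV : Finset V}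
  {α : U → EReal} {β : V → EReal}

/-- Following the branching process inside a set `X`, either one stops early or one reaches
a set of size `t`. -/
theorem grow_reach' (f : Finset I → Finset I) (X : Finset I) (stop : Finset I → Prop)
    (hf : ∀ M ⊆ X, ¬ stop M → ∃ e ∈ f M, e ∈ X ∧ e ∉ M) (t : ℕ) :
    (∃ c < t, ∃ M ∈ grow f c, M ⊆ X ∧ M.card = c ∧ stop M) ∨
      ∃ M ∈ grow f t, M ⊆ X ∧ M.card = t := by
  induction t with
  | zero => exact Or.inr ⟨∅, by simp [grow], empty_subset _, rfl⟩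
  | succ t ih =>
    rcases ih with ⟨c, hc, M, h1, h2, h3, h4⟩ | ⟨M, h1, h2, h3⟩
    · exact Or.inl ⟨c, by omega, M, h1, h2, h3, h4⟩
    · by_cases hst : stop M
      · exact Or.inl ⟨t, by omega, M, h1, h2, h3, hst⟩
      · obtain ⟨e, he1, he2, he3⟩ := hf M h2 hst
        refine Or.inr ⟨insert e M, ?_, ?_, ?_⟩
        · rw [grow, mem_biUnion]
          exact ⟨M, h1, mem_image_of_mem _ he1⟩
        · exact insert_subset he2 h2
        · rw [card_insert_of_notMem he3, h3]

/-- The largest elements of a set. -/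
theorem exists_top (α : U → EReal) (X : Finset U) (t : ℕ) : ∃ Z ⊆ X, Z.card ≤ t ∧
    (Z = X ∨ Z.card = t) ∧ ∀ z ∈ Z, ∀ x ∈ X, x ∉ Z → α x ≤ α z := by
  induction t with
  | zero => exact ⟨∅, empty_subset _, by simp, Or.inr (by simp), fun z hz => absurd hz (by simp)⟩
  | succ t ih =>
    obtain ⟨Z, h1, h2, h3, h4⟩ := ih
    rcases h3 with rfl | h3
    · exact ⟨Z, h1, by omega, Or.inl rfl, h4⟩
    · rcases (X \ Z).eq_empty_or_nonempty with h0 | h0
      · have : Z = X := Subset.antisymm h1 (sdiff_eq_empty_iff_subset.1 h0)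
        exact ⟨Z, h1, by omega, Or.inl this, h4⟩
      · obtain ⟨x0, hx0, hmax⟩ := exists_max_image _ α h0
        rw [mem_sdiff] at hx0
        refine ⟨insert x0 Z, insert_subset hx0.1 h1, ?_, Or.inr ?_, ?_⟩
        · rw [card_insert_of_notMem hx0.2]
          omega
        · rw [card_insert_of_notMem hx0.2, h3]
        · intro z hz x hx hxZ
          rw [mem_insert, not_or] at hxZ
          rcases mem_insert.1 hz with rfl | hz
          · exact hmax x (mem_sdiff.2 ⟨hx, hxZ.2⟩)
          · exact h4 z hz x hx hxZ.2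

/-- Few elements that hit all members of a family, if each is hit by half of the elements. -/
theorem exists_hitting (Z : Finset U) (hZ : Z.Nonempty) (H : U → V → Prop) (ν : ℕ) :
    ∀ Y : Finset V, Y.card < 2 ^ ν →
    (∀ y ∈ Y, ∀ W : Finset U, (∀ x ∈ Z, H x y → x ∈ W) → Z.card ≤ 2 * W.card) →
    ∃ X ⊆ Z, X.card ≤ ν ∧ ∀ y ∈ Y, ∃ x ∈ X, H x y := by
  classical
  induction ν with
  | zero =>
    intro Y hY _
    have : Y = ∅ := card_eq_zero.1 (by simpa using hY)
    subst this
    exact ⟨∅, empty_subset _, by simp, fun y hy => absurd hy (by simp)⟩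
  | succ ν ih =>
    intro Y hY hh
    have h1 : ∀ y ∈ Y, Z.card ≤ 2 * (Z.filter fun x => H x y).card := fun y hy =>
      hh y hy _ fun x hx hx' => mem_filter.2 ⟨hx, hx'⟩
    have h2 : ∑ x ∈ Z, (Y.filter fun y => H x y).card =
        ∑ y ∈ Y, (Z.filter fun x => H x y).card := by
      simp only [card_filter]
      exact sum_comm
    have h3 : Y.card * Z.card ≤ 2 * ∑ x ∈ Z, (Y.filter fun y => H x y).card := by
      rw [h2, mul_sum, ← smul_eq_mul, ← sum_const]
      exact sum_le_sum h1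
    obtain ⟨x, hx, hx'⟩ : ∃ x ∈ Z, Y.card ≤ 2 * (Y.filter fun y => H x y).card := by
      by_contra hcon
      push Not at hcon
      have h4 : 2 * ∑ x ∈ Z, (Y.filter fun y => H x y).card < Z.card * Y.card := by
        rw [mul_sum, ← smul_eq_mul, ← sum_const]
        exact sum_lt_sum_of_nonempty hZ hcon
      rw [mul_comm] at h3
      omega
    obtain ⟨X, hX1, hX2, hX3⟩ := ih (Y.filter fun y => ¬ H x y) (by
      have h5 := card_filter_add_card_filter_not (s := Y) (fun y => H x y)
      rw [pow_succ] at hY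
      omega) fun y hy => hh y (mem_filter.1 hy).1
    refine ⟨insert x X, insert_subset hx hX1, (card_insert_le _ _).trans (by omega),
      fun y hy => ?_⟩
    by_cases h : H x y
    · exact ⟨x, mem_insert_self _ _, h⟩
    · obtain ⟨x', h6, h7⟩ := hX3 y (mem_filter.2 ⟨hy, h⟩)
      exact ⟨x', mem_insert_of_mem h6, h7⟩

/-- In a large set, only few elements are popular. -/
theorem few_popular {c C : ℕ} (hc : 0 < c) (hr : 0 < r)
    (hC : ∀ M : Finset I, M.card = r → (univ.filter fun x => M ⊆ S x).card ≤ C)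
    {Z : Finset U} (hZ : 4 * c * ((4 * c * r) ^ r * C) < Z.card) :
    (univ.filter fun e => Z.card ≤ 2 * c * (Z.filter fun x => e ∈ S x).card).card < 4 * c * r := by
  by_contra hcon
  push Not at hcon
  obtain ⟨Q, hQ1, hQ2⟩ := exists_subset_card_eq hcon
  have h1 : 4 * c * r * Z.card ≤ 2 * c * ∑ e ∈ Q, (Z.filter fun x => e ∈ S x).card := by
    rw [mul_sum, ← hQ2, ← smul_eq_mul, ← sum_const]
    exact sum_le_sum fun e he => (mem_filter.1 (hQ1 he)).2
  have h2 : ∑ e ∈ Q, (Z.filter fun x => e ∈ S x).card = ∑ x ∈ Z, (Q ∩ S x).card := by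
    have : ∀ x, (Q ∩ S x).card = ∑ e ∈ Q, if e ∈ S x then 1 else 0 := fun x => by
      rw [← card_filter]
      congr 1
    simp only [card_filter, this]
    exact sum_comm
  have h3 : 2 * r * Z.card ≤ ∑ x ∈ Z, (Q ∩ S x).card := by
    rw [h2] at h1
    have h4 : 2 * c * (2 * r * Z.card) ≤ 2 * c * ∑ x ∈ Z, (Q ∩ S x).card := by
      calc 2 * c * (2 * r * Z.card) = 4 * c * r * Z.card := by ring
        _ ≤ _ := h1
    exact Nat.le_of_mul_le_mul_left h4 (by omega)
  obtain ⟨Z', hZ'⟩ : ∃ Z', Z' = Z.filter fun x => r ≤ (Q ∩ S x).card := ⟨_, rfl⟩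
  have h4 : ∑ x ∈ Z, (Q ∩ S x).card ≤ Z.card * r + Z'.card * (4 * c * r) := by
    have h5 : ∀ x ∈ Z, (Q ∩ S x).card ≤
        r + if r ≤ (Q ∩ S x).card then 4 * c * r else 0 := by
      intro x _
      have h6 : (Q ∩ S x).card ≤ 4 * c * r := by
        rw [← hQ2]
        exact card_le_card inter_subset_left
      split_ifs with h7
      · omega
      · omega
    refine (sum_le_sum h5).trans ?_
    rw [sum_add_distrib, sum_const, smul_eq_mul, ← sum_filter, ← hZ', sum_const, smul_eq_mul]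
  have h5 : Z.card ≤ 4 * c * Z'.card := by
    have h6 : r * Z.card ≤ r * (4 * c * Z'.card) := by
      have e1 : Z'.card * (4 * c * r) = r * (4 * c * Z'.card) := by ring
      have e2 : 2 * r * Z.card = r * Z.card + Z.card * r := by ring
      omega
    exact Nat.le_of_mul_le_mul_left h6 hr
  have h6 : Z'.card ≤ (4 * c * r) ^ r * C := by
    have h7 : Z' ⊆ (powersetCard r Q).biUnion fun M => univ.filter fun x => M ⊆ S x := by
      intro x hx
      rw [hZ', mem_filter] at hx
      obtain ⟨M, hM1, hM2⟩ := exists_subset_card_eq hx.2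
      refine mem_biUnion.2 ⟨M, mem_powersetCard.2 ⟨hM1.trans inter_subset_left, hM2⟩, ?_⟩
      exact mem_filter.2 ⟨mem_univ _, hM1.trans inter_subset_right⟩
    refine (card_le_card h7).trans ?_
    refine (card_biUnion_le_card_mul _ _ C fun M hM => hC M (mem_powersetCard.1 hM).2).trans ?_
    rw [card_powersetCard, hQ2]
    exact Nat.mul_le_mul_right _ (Nat.choose_le_pow _ _)
  have h7 := Nat.mul_le_mul_left (4 * c) h6
  omega

/-- The first pass: small sets of the second player that are hit by the inputs of the first player,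
if the triangle is covered by pairs where a small set of one player is hit by the other player. -/
theorem first_pass {c C CV ν : ℕ} (hc : 0 < c) (hr : 0 < r) (hC0 : 0 < C)
    (hCU : ∀ M : Finset I, M.card = r → (univ.filter fun x => M ⊆ S x).card ≤ C)
    (hCV : ∀ K : Finset I, K.card = r → (univ.filter fun y => K ⊆ T y).card ≤ CV)
    (hν : Fintype.card V < 2 ^ ν) (Mx : U → Finset I) (hM1 : ∀ x, Mx x ⊆ S x)
    (hM2 : ∀ x, (Mx x).card ≤ c) (Ky : V → Finset I) (hK1 : ∀ y, Ky y ⊆ T y)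
    (hK2 : ∀ y, (Ky y).card ≤ c)
    (hhit : ∀ x, x ∉ BU → ∀ y, y ∉ BV → β y < α x →
      ¬ Disjoint (Mx x) (T y) ∨ ¬ Disjoint (Ky y) (S x)) :
    ∃ (BU' : Finset U) (BV' : Finset V), BU ⊆ BU' ∧ BV ⊆ BV' ∧
      BU'.card ≤ BU.card + r * ((4 * c * r + ν * c) ^ r * (8 * c * ((4 * c * r) ^ r * C))) ∧
      BV'.card ≤ BV.card + (4 * c * r + ν * c) ^ r * CV ∧
      ∃ K' : V → Finset I, ∀ y, K' y ⊆ T y ∧ (K' y).card < r ∧ (y ∉ BV' → ∀ x, x ∉ BU' →
        β y < α x → ¬ Disjoint (K' y) (S x)) := by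
  classical
  obtain ⟨θ, hθ⟩ : ∃ θ, θ = 8 * c * ((4 * c * r) ^ r * C) := ⟨_, rfl⟩
  have hθ0 : 0 < θ := by
    rw [hθ]
    positivity
  have hθ1 : 4 * c * ((4 * c * r) ^ r * C) < θ := by
    have h1 : 0 < 4 * c * ((4 * c * r) ^ r * C) := by positivity
    have h2 : θ = 2 * (4 * c * ((4 * c * r) ^ r * C)) := by
      rw [hθ]
      ring
    omega
  obtain ⟨b, hb⟩ : ∃ b, b = 4 * c * r + ν * c := ⟨_, rfl⟩
  rw [← hθ, ← hb]
  -- the largest inputs that are disjoint from a given set
  obtain ⟨X, hX⟩ : ∃ X : Finset I → Finset U,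
      X = fun K => univ.filter fun x => x ∉ BU ∧ Disjoint (S x) K := ⟨_, rfl⟩
  have hXmem : ∀ K x, x ∈ X K ↔ x ∉ BU ∧ Disjoint (S x) K := by
    intro K x
    rw [hX, mem_filter]
    simp
  choose Z hZ1 hZ2 hZ3 hZ4 using fun K => exists_top α (X K) θ
  -- the branching
  have hpick : ∀ K : Finset I, ∃ N : Finset I, N.card ≤ b ∧
      ∀ y, K ⊆ T y → y ∉ BV → ¬ (∀ x ∈ X K, x ∉ Z K → α x ≤ β y) →
        ∃ e ∈ N, e ∈ T y ∧ e ∉ K := by
    intro K
    by_cases hZK : Z K = X K
    · refine ⟨∅, by simp, fun y _ _ hst => absurd (fun x hx hxZ => ?_) hst⟩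
      rw [hZK] at hxZ
      exact absurd hx hxZ
    · have hcard : (Z K).card = θ := (hZ3 K).resolve_left hZK
      have hZne : (Z K).Nonempty := by
        rw [← card_pos, hcard]
        exact hθ0
      obtain ⟨P, hP⟩ : ∃ P : Finset I, P = univ.filter fun e =>
          (Z K).card ≤ 2 * c * ((Z K).filter fun x => e ∈ S x).card := ⟨_, rfl⟩
      have hPcard : P.card ≤ 4 * c * r := by
        rw [hP]
        exact (few_popular hc hr hCU (by rw [hcard]; exact hθ1)).le
      have hdis : ∀ x ∈ Z K, ∀ e ∈ S x, e ∉ K := fun x hx e he =>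
        disjoint_left.1 ((hXmem _ _).1 (hZ1 K hx)).2 he
      obtain ⟨Y, hY⟩ : ∃ Y : Finset V, Y = univ.filter fun y => y ∉ BV ∧ Disjoint (Ky y) P ∧
          ∀ x ∈ Z K, β y < α x := ⟨_, rfl⟩
      obtain ⟨X', hX'1, hX'2, hX'3⟩ := exists_hitting (Z K) hZne
        (fun x y => ¬ Disjoint (Mx x) (T y)) ν Y
        (lt_of_le_of_lt (card_le_univ _) hν) (fun y hy W hW => by
          rw [hY, mem_filter] at hy
          obtain ⟨-, h1, h2, h3⟩ := hy
          -- the inputs that hit the set of `y`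
          have h4 : ∀ e ∈ Ky y, 2 * c * ((Z K).filter fun x => e ∈ S x).card ≤ (Z K).card := by
            intro e he
            have : e ∉ P := disjoint_left.1 h2 he
            rw [hP, mem_filter] at this
            push Not at this
            exact (this (mem_univ _)).le
          have h5 : Z K ⊆ W ∪ (Ky y).biUnion fun e => (Z K).filter fun x => e ∈ S x := by
            intro x hx
            rcases hhit x ((hXmem _ _).1 (hZ1 K hx)).1 y h1 (h3 x hx) with h6 | h6
            · exact mem_union_left _ (hW x hx h6)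
            · obtain ⟨e, he1, he2⟩ := not_disjoint_iff.1 h6
              exact mem_union_right _ (mem_biUnion.2 ⟨e, he1, mem_filter.2 ⟨hx, he2⟩⟩)
          have h6 := (card_le_card h5).trans (card_union_le _ _)
          have h7 : c * (2 * ((Ky y).biUnion fun e => (Z K).filter fun x => e ∈ S x).card) ≤
              c * (Z K).card := by
            calc c * (2 * ((Ky y).biUnion fun e => (Z K).filter fun x => e ∈ S x).card)
                ≤ c * (2 * ∑ e ∈ Ky y, ((Z K).filter fun x => e ∈ S x).card) :=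
                  Nat.mul_le_mul_left _ (Nat.mul_le_mul_left _ card_biUnion_le)
              _ = ∑ e ∈ Ky y, 2 * c * ((Z K).filter fun x => e ∈ S x).card := by
                  rw [mul_sum, mul_sum]
                  exact sum_congr rfl fun e _ => by ring
              _ ≤ ∑ e ∈ Ky y, (Z K).card := sum_le_sum h4
              _ = (Ky y).card * (Z K).card := by rw [sum_const, smul_eq_mul]
              _ ≤ c * (Z K).card := Nat.mul_le_mul_right _ (hK2 y)
          have h8 := Nat.le_of_mul_le_mul_left h7 hc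
          omega)
      refine ⟨P ∪ X'.biUnion Mx, ?_, fun y hKy hyV hst => ?_⟩
      · refine (card_union_le _ _).trans ?_
        rw [hb]
        refine Nat.add_le_add hPcard ?_
        exact (card_biUnion_le_card_mul _ _ c fun x _ => hM2 x).trans
          (Nat.mul_le_mul_right _ hX'2)
      · push Not at hst
        obtain ⟨x0, hx0, hx0Z, hlt⟩ := hst
        have hlt' : ∀ x ∈ Z K, β y < α x := fun x hx =>
          lt_of_lt_of_le hlt (hZ4 K x hx x0 hx0 hx0Z)
        by_cases hd : Disjoint (Ky y) P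
        · obtain ⟨x, hx, hx'⟩ := hX'3 y (by
            rw [hY, mem_filter]
            exact ⟨mem_univ _, hyV, hd, hlt'⟩)
          obtain ⟨e, he1, he2⟩ := not_disjoint_iff.1 hx'
          exact ⟨e, mem_union_right _ (mem_biUnion.2 ⟨x, hx, he1⟩), he2,
            hdis x (hX'1 hx) e (hM1 x he1)⟩
        · obtain ⟨e, he1, he2⟩ := not_disjoint_iff.1 hd
          refine ⟨e, mem_union_left _ he2, hK1 y he1, ?_⟩
          rw [hP, mem_filter] at he2
          have h4 : ((Z K).filter fun x => e ∈ S x).Nonempty := by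
            rw [← card_pos]
            by_contra h5
            have h6 : ((Z K).filter fun x => e ∈ S x).card = 0 := by omega
            rw [h6, mul_zero] at he2
            have := card_pos.2 hZne
            omega
          obtain ⟨x, hx⟩ := h4
          rw [mem_filter] at hx
          exact hdis x hx.1 e hx.2
  choose f hf1 hf2 using hpick
  obtain ⟨FV, hFV⟩ : ∃ FV, FV = (grow f r).filter fun K => K.card = r := ⟨_, rfl⟩
  obtain ⟨FU, hFU⟩ : ∃ FU : Finset U,
      FU = (range r).biUnion fun t => (grow f t).biUnion Z := ⟨_, rfl⟩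
  have hK' : ∀ y, ∃ K ⊆ T y, K.card < r ∧ (y ∉ BV ∪ above T FV → ∀ x, x ∉ BU ∪ FU →
      β y < α x → ¬ Disjoint K (S x)) := by
    intro y
    by_cases hy : y ∈ BV ∪ above T FV
    · exact ⟨∅, empty_subset _, by simpa using hr, fun h => absurd hy h⟩
    · have hyV : y ∉ BV := fun h => hy (mem_union_left _ h)
      have hyF : y ∉ above T FV := fun h => hy (mem_union_right _ h)
      rcases grow_reach' f (T y) (fun K => ∀ x ∈ X K, x ∉ Z K → α x ≤ β y)
        (fun K hK hst => hf2 K y hK hyV hst) r with ⟨t, ht, K, g1, g2, g3, g4⟩ | ⟨K, g1, g2, g3⟩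
      · refine ⟨K, g2, by omega, fun _ x hx hlt hd => ?_⟩
        rw [mem_union, not_or] at hx
        have hxZ : x ∉ Z K := fun h => hx.2 (by
          rw [hFU]
          exact mem_biUnion.2 ⟨t, mem_range.2 ht, mem_biUnion.2 ⟨K, g1, h⟩⟩)
        exact absurd (g4 x ((hXmem _ _).2 ⟨hx.1, hd.symm⟩) hxZ) (not_le.2 hlt)
      · refine absurd ?_ hyF
        rw [above, mem_filter]
        exact ⟨mem_univ _, K, by rw [hFV, mem_filter]; exact ⟨g1, g3⟩, g2⟩
  choose K' g1 g2 g3 using hK'
  refine ⟨BU ∪ FU, BV ∪ above T FV, subset_union_left, subset_union_left, ?_, ?_, K',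
    fun y => ⟨g1 y, g2 y, g3 y⟩⟩
  · refine (card_union_le _ _).trans (Nat.add_le_add_left ?_ _)
    rw [hFU]
    have hb1 : 0 < b := by
      rw [hb]
      positivity
    have h1 : ∀ t ∈ range r, ((grow f t).biUnion Z).card ≤ b ^ r * θ := by
      intro t ht
      rw [mem_range] at ht
      refine (card_biUnion_le_card_mul _ _ θ fun K _ => hZ2 K).trans ?_
      refine Nat.mul_le_mul_right _ ((grow_card f hf1 t).trans ?_)
      exact Nat.pow_le_pow_right hb1 ht.le
    refine (card_biUnion_le_card_mul _ _ _ h1).trans ?_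
    rw [card_range]
  · refine (card_union_le _ _).trans (Nat.add_le_add_left ?_ _)
    rw [hFV]
    exact above_card (grow_card f hf1 r) hCV

/-- The second pass: approximators, if small sets of the second player are hit. -/
theorem second_pass {C CV : ℕ} (hr : 0 < r)
    (hCU : ∀ M : Finset I, M.card = r → (univ.filter fun x => M ⊆ S x).card ≤ C)
    (hCV : ∀ K : Finset I, K.card = r → (univ.filter fun y => K ⊆ T y).card ≤ CV)
    (Ky : V → Finset I) (hKy : ∀ y, Ky y ⊆ T y ∧ (Ky y).card < r ∧ (y ∉ BV → ∀ x, x ∉ BU →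
      β y < α x → ¬ Disjoint (Ky y) (S x))) :
    ∃ (BU' : Finset U) (BV' : Finset V), BU ⊆ BU' ∧ BV ⊆ BV' ∧
      BU'.card ≤ BU.card + r ^ r * C ∧ BV'.card ≤ BV.card + r ^ r * CV ∧
      App S T r r BU' BV' α β := by
  classical
  -- small sets disjoint from a given set
  obtain ⟨dj, hdj⟩ : ∃ dj : ℕ → Finset I → Finset (Finset I), dj = fun c M =>
      (univ : Finset (Finset I)).filter (fun K => K.card < c ∧ Disjoint M K) := ⟨_, rfl⟩
  have hmem : ∀ c M K, K ∈ dj c M ↔ K.card < c ∧ Disjoint M K := by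
    intro c M K
    rw [hdj]
    simp
  have hne : ∀ c, 0 < c → ∀ M, (dj c M).Nonempty := by
    intro c hc M
    exact ⟨∅, (hmem c M ∅).2 ⟨by simpa using hc, disjoint_empty_right M⟩⟩
  obtain ⟨G, hG⟩ : ∃ G : Finset V, G = univ \ BV := ⟨_, rfl⟩
  have hGmem : ∀ y, y ∈ G ↔ y ∉ BV := by
    intro y
    rw [hG, mem_sdiff]
    simp
  obtain ⟨A, hA⟩ : ∃ A : Finset I → EReal, A = fun M =>
      ⨅ y : {y // y ∈ G ∧ Disjoint (Ky y) M}, β y.1 := ⟨_, rfl⟩
  have hAle : ∀ M y, y ∈ G → Disjoint (Ky y) M → A M ≤ β y := by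
    intro M y hy hd
    rw [hA]
    exact iInf_le (fun y : {y // y ∈ G ∧ Disjoint (Ky y) M} => β y.1) ⟨y, hy, hd⟩
  have hpick2 : ∀ M : Finset I, ∃ N : Finset I, N.card ≤ r ∧
      ∀ x, M ⊆ S x → x ∉ BU → ¬ (α x ≤ A M) → ∃ e ∈ N, e ∈ S x ∧ e ∉ M := by
    intro M
    rcases (G.filter fun y => Disjoint (Ky y) M).eq_empty_or_nonempty with h0 | h0
    · refine ⟨∅, by simp, fun x _ _ hst => absurd ?_ hst⟩
      rw [hA]
      refine le_iInf fun y => ?_
      have : y.1 ∈ G.filter fun y => Disjoint (Ky y) M := mem_filter.2 ⟨y.2.1, y.2.2⟩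
      rw [h0] at this
      exact absurd this (notMem_empty _)
    · obtain ⟨y0, hy0, hmin⟩ := exists_min_image _ β h0
      rw [mem_filter] at hy0
      refine ⟨Ky y0, (hKy y0).2.1.le, fun x _ hxU hst => ?_⟩
      have h1 : β y0 < α x := by
        refine lt_of_le_of_lt ?_ (not_le.1 hst)
        rw [hA]
        exact le_iInf fun y => hmin y.1 (mem_filter.2 ⟨y.2.1, y.2.2⟩)
      obtain ⟨e, he1, he2⟩ := not_disjoint_iff.1
        ((hKy y0).2.2 ((hGmem y0).1 hy0.1) x hxU h1)
      exact ⟨e, he1, he2, fun heM => (disjoint_left.1 hy0.2) he1 heM⟩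
  choose f2 hf2 hf2' using hpick2
  obtain ⟨FU, hFU⟩ : ∃ FU, FU = (grow f2 r).filter fun M => M.card = r := ⟨_, rfl⟩
  -- the dual values
  have hbestM : ∀ (K : Finset I), ∃ M ∈ dj r K, ∀ M' ∈ dj r K, A M' ≤ A M :=
    fun K => exists_max_image (dj r K) A (hne r hr K)
  choose Mb hMb1 hMb2 using hbestM
  obtain ⟨FW, hFW⟩ : ∃ FW, FW = (grow Mb r).filter fun K => K.card = r := ⟨_, rfl⟩
  refine ⟨BU ∪ above S FU, BV ∪ above T FW, subset_union_left, subset_union_left, ?_, ?_, A,
    fun K => A (Mb K), ?_, ?_, ?_⟩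
  · refine (card_union_le _ _).trans (Nat.add_le_add_left ?_ _)
    rw [hFU]
    exact above_card (grow_card f2 (b := r) hf2 r) hCU
  · refine (card_union_le _ _).trans (Nat.add_le_add_left ?_ _)
    rw [hFW]
    exact above_card (grow_card Mb (b := r) (fun K => ((hmem _ _ _).1 (hMb1 K)).1.le) r) hCV
  · intro M K hM hK hMK
    exact hMb2 K M ((hmem _ _ _).2 ⟨hM, hMK.symm⟩)
  · intro x hx
    have hxU : x ∉ BU := fun h => hx (mem_union_left _ h)
    have hxF : x ∉ above S FU := fun h => hx (mem_union_right _ h)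
    rcases grow_reach f2 (S x) (fun M => α x ≤ A M) (fun M hM hst => hf2' M x hM hxU hst) r with
      ⟨M, g1, g2, g3⟩ | ⟨M, g1, g2, g3⟩
    · exact ⟨M, g1, g2, g3⟩
    · refine absurd ?_ hxF
      rw [above, mem_filter]
      exact ⟨mem_univ _, M, by rw [hFU, mem_filter]; exact ⟨g1, g3⟩, g2⟩
  · intro y hy
    have hyG : y ∈ G := (hGmem y).2 fun h => hy (mem_union_left _ h)
    have hyF : y ∉ above T FW := fun h => hy (mem_union_right _ h)
    have key : ∀ M : Finset I, Disjoint M (T y) → A M ≤ β y := fun M hM =>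
      hAle M y hyG (disjoint_of_subset_left (hKy y).1 hM.symm)
    have hstep : ∀ K ⊆ T y, ¬ (A (Mb K) ≤ β y) → ∃ e ∈ Mb K, e ∈ T y ∧ e ∉ K := by
      intro K hK hst
      have hnd : ¬ Disjoint (Mb K) (T y) := fun hd => hst (key (Mb K) hd)
      obtain ⟨e, he1, he2⟩ := not_disjoint_iff.1 hnd
      refine ⟨e, he1, he2, ?_⟩
      intro heK
      exact (disjoint_left.1 ((hmem _ _ _).1 (hMb1 K)).2) heK he1
    rcases grow_reach Mb (T y) (fun K => A (Mb K) ≤ β y) hstep r with
      ⟨K, hK1, hK2, hK3⟩ | ⟨K, hK1, hK2, hK3⟩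
    · exact ⟨K, hK1, hK2, hK3⟩
    · refine absurd ?_ hyF
      rw [above, mem_filter]
      exact ⟨mem_univ _, K, by rw [hFW, mem_filter]; exact ⟨hK1, hK3⟩, hK2⟩

/-- The number of new inputs outside which a triangle is not approximated. -/
def wmix (k r ν C : ℕ) : ℕ :=
  r * ((4 * (k * r) * r + ν * (k * r)) ^ r * (8 * (k * r) * ((4 * (k * r) * r) ^ r * C))) +
    r ^ r * C

/-- The main step: a triangle covered by approximated triangles, at most `k` of which are used at
each input of each player, is approximated, outside few more inputs. -/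
theorem app_mix {ι : Type} {k C ν : ℕ} (hk : 0 < k) (hr : 0 < r) (hC0 : 0 < C)
    (hCU : ∀ M : Finset I, M.card = r → (univ.filter fun x => M ⊆ S x).card ≤ C)
    (hCV : ∀ K : Finset I, K.card = r → (univ.filter fun y => K ⊆ T y).card ≤ C)
    (hν : Fintype.card V < 2 ^ ν) {a : ι → U → EReal} {b : ι → V → EReal}
    (P : U → Finset ι) (Q : V → Finset ι) (hP : ∀ x, (P x).card ≤ k) (hQ : ∀ y, (Q y).card ≤ k)
    (hP' : ∀ x, ∀ i ∈ P x, App S T r r BU BV (a i) (b i))
    (hQ' : ∀ y, ∀ i ∈ Q y, App S T r r BU BV (a i) (b i))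
    (hcov : ∀ x y, β y < α x → (∃ i ∈ P x, b i y < a i x) ∨ ∃ i ∈ Q y, b i y < a i x) :
    ∃ (BU' : Finset U) (BV' : Finset V), BU ⊆ BU' ∧ BV ⊆ BV' ∧
      BU'.card ≤ BU.card + wmix k r ν C ∧ BV'.card ≤ BV.card + wmix k r ν C ∧
      App S T r r BU' BV' α β := by
  classical
  -- the sets of the first player
  have hMx : ∀ x, ∃ M ⊆ S x, M.card ≤ k * r ∧ (x ∉ BU → ∀ i ∈ P x, ∀ y, y ∉ BV →
      b i y < a i x → ¬ Disjoint M (T y)) := by
    intro x
    by_cases hx : x ∈ BU
    · exact ⟨∅, empty_subset _, by simp, fun h => absurd hx h⟩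
    · have h0 : ∀ i, ∃ M ⊆ S x, M.card < r ∧ (i ∈ P x → ∀ y, y ∉ BV → b i y < a i x →
          ¬ Disjoint M (T y)) := by
        intro i
        by_cases hi : i ∈ P x
        · obtain ⟨A, B, h1, h2, h3⟩ := hP' x i hi
          obtain ⟨M, g1, g2, g3⟩ := h2 x hx
          refine ⟨M, g1, g2, fun _ y hy hlt hd => ?_⟩
          obtain ⟨K, g4, g5, g6⟩ := h3 y hy
          have h4 := g3.trans ((h1 M K g2 g5 (disjoint_of_subset_right g4 hd)).trans g6)
          exact absurd hlt (not_lt.2 h4)
        · exact ⟨∅, empty_subset _, by simpa using hr, fun h => absurd h hi⟩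
      choose N hN1 hN2 hN3 using h0
      refine ⟨(P x).biUnion N, ?_, ?_, fun _ i hi y hy hlt hd => ?_⟩
      · exact biUnion_subset.2 fun i _ => hN1 i
      · refine (card_biUnion_le_card_mul _ _ r fun i _ => (hN2 i).le).trans ?_
        exact Nat.mul_le_mul_right _ (hP x)
      · exact hN3 i hi y hy hlt (disjoint_of_subset_left (subset_biUnion_of_mem N hi) hd)
  choose Mx hMx1 hMx2 hMx3 using hMx
  -- the sets of the second player
  have hKy : ∀ y, ∃ K ⊆ T y, K.card ≤ k * r ∧ (y ∉ BV → ∀ i ∈ Q y, ∀ x, x ∉ BU →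
      b i y < a i x → ¬ Disjoint K (S x)) := by
    intro y
    by_cases hy : y ∈ BV
    · exact ⟨∅, empty_subset _, by simp, fun h => absurd hy h⟩
    · have h0 : ∀ i, ∃ K ⊆ T y, K.card < r ∧ (i ∈ Q y → ∀ x, x ∉ BU → b i y < a i x →
          ¬ Disjoint K (S x)) := by
        intro i
        by_cases hi : i ∈ Q y
        · obtain ⟨A, B, h1, h2, h3⟩ := hQ' y i hi
          obtain ⟨K, g1, g2, g3⟩ := h3 y hy
          refine ⟨K, g1, g2, fun _ x hx hlt hd => ?_⟩
          obtain ⟨M, g4, g5, g6⟩ := h2 x hx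
          have h4 := g6.trans ((h1 M K g5 g2 (disjoint_of_subset_right g4 hd).symm).trans g3)
          exact absurd hlt (not_lt.2 h4)
        · exact ⟨∅, empty_subset _, by simpa using hr, fun h => absurd h hi⟩
      choose N hN1 hN2 hN3 using h0
      refine ⟨(Q y).biUnion N, ?_, ?_, fun _ i hi x hx hlt hd => ?_⟩
      · exact biUnion_subset.2 fun i _ => hN1 i
      · refine (card_biUnion_le_card_mul _ _ r fun i _ => (hN2 i).le).trans ?_
        exact Nat.mul_le_mul_right _ (hQ y)
      · exact hN3 i hi x hx hlt (disjoint_of_subset_left (subset_biUnion_of_mem N hi) hd)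
  choose Ky hKy1 hKy2 hKy3 using hKy
  have hkr : 0 < k * r := Nat.mul_pos hk hr
  obtain ⟨BU1, BV1, h1, h2, h3, h4, K', h5⟩ := first_pass (BU := BU) (BV := BV) (α := α)
    (β := β) (c := k * r) (C := C) (CV := C) (ν := ν) hkr hr hC0 hCU hCV hν Mx hMx1 hMx2 Ky
    hKy1 hKy2 fun x hx y hy hlt => by
      rcases hcov x y hlt with ⟨i, hi, hi'⟩ | ⟨i, hi, hi'⟩
      · exact Or.inl (hMx3 x hx i hi y hy hi')
      · exact Or.inr (hKy3 y hy i hi x hx hi')
  obtain ⟨BU2, BV2, g1, g2, g3, g4, g5⟩ := second_pass (BU := BU1) (BV := BV1) (α := α)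
    (β := β) hr hCU hCV K' h5
  refine ⟨BU2, BV2, h1.trans g1, h2.trans g2, ?_, ?_, g5⟩
  · unfold wmix
    omega
  · have h6 : (4 * (k * r) * r + ν * (k * r)) ^ r * C ≤
        r * ((4 * (k * r) * r + ν * (k * r)) ^ r * (8 * (k * r) * ((4 * (k * r) * r) ^ r * C))) := by
      have e1 : 0 < 8 * (k * r) * (4 * (k * r) * r) ^ r := by positivity
      calc (4 * (k * r) * r + ν * (k * r)) ^ r * C
          ≤ ((4 * (k * r) * r + ν * (k * r)) ^ r * C) *
            (r * (8 * (k * r) * (4 * (k * r) * r) ^ r)) :=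
            Nat.le_mul_of_pos_right _ (Nat.mul_pos hr e1)
        _ = _ := by ring
    unfold wmix
    omega

/-- The lower bound for dags of triangles in which only few children are active at each input of
each player. -/
theorem tri_bound_mix {C k m c1 ν : ℕ} (hr : 1 < r) (hk : 0 < k) (hC0 : 0 < C)
    (hCU : ∀ M : Finset I, M.card = r → (univ.filter fun x => M ⊆ S x).card ≤ C)
    (hCV : ∀ K : Finset I, K.card = r → (univ.filter fun y => K ⊆ T y).card ≤ C)
    (hν : Fintype.card V < 2 ^ ν)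
    (hc1 : ∀ i, (univ.filter fun x => i ∈ S x).card ≤ c1)
    (α : Fin m → U → EReal) (β : Fin m → V → EReal)
    (hax : ∀ i : Fin m, (∃ e : I, ∀ x y, β i y < α i x → e ∈ S x ∧ e ∈ T y) ∨
      ∃ (P : U → Finset (Fin m)) (Q : V → Finset (Fin m)), (∀ x, (P x).card ≤ k) ∧
        (∀ y, (Q y).card ≤ k) ∧ (∀ x, ∀ j ∈ P x, j < i) ∧ (∀ y, ∀ j ∈ Q y, j < i) ∧
        ∀ x y, β i y < α i x → (∃ j ∈ P x, β j y < α j x) ∨ ∃ j ∈ Q y, β j y < α j x)
    (hfin : ∃ P : U → Finset (Fin m), (∀ x, (P x).card ≤ k) ∧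
        ∀ x y, ∃ j ∈ P x, β j y < α j x)
    (hV : (m + 1) * wmix k r ν C < Fintype.card V) :
    Fintype.card U ≤ (m + 1) * wmix k r ν C + r * c1 := by
  classical
  obtain ⟨W, hW⟩ : ∃ W, W = wmix k r ν C := ⟨_, rfl⟩
  have main : ∀ n : ℕ, n ≤ m → ∃ (BU : Finset U) (BV : Finset V),
      BU.card ≤ n * W ∧ BV.card ≤ n * W ∧
        ∀ i : Fin m, (i : ℕ) < n → App S T r r BU BV (α i) (β i) := by
    intro n
    induction n with
    | zero =>
      intro _
      exact ⟨∅, ∅, by simp, by simp, fun i hi => absurd hi (by omega)⟩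
    | succ n ih =>
      intro hn
      obtain ⟨BU, BV, h1, h2, h3⟩ := ih (by omega)
      obtain ⟨i, hi⟩ : ∃ i : Fin m, (i : ℕ) = n := ⟨⟨n, by omega⟩, rfl⟩
      have key : ∃ (BU' : Finset U) (BV' : Finset V), BU ⊆ BU' ∧ BV ⊆ BV' ∧
          BU'.card ≤ BU.card + W ∧ BV'.card ≤ BV.card + W ∧
          App S T r r BU' BV' (α i) (β i) := by
        rcases hax i with ⟨e, he⟩ | ⟨P, Q, hP1, hQ1, hP2, hQ2, hPQ⟩
        · exact ⟨BU, BV, Subset.refl _, Subset.refl _, by omega, by omega,
            app_leaf hr hr e he⟩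
        · rw [hW]
          exact app_mix (α := α i) (β := β i) (BU := BU) (BV := BV) hk (by omega) hC0 hCU hCV hν
            (a := α) (b := β) P Q hP1 hQ1 (fun x j hj => h3 j (by
              have h4 : j < i := hP2 x j hj
              rw [← hi]
              exact h4)) (fun y j hj => h3 j (by
              have h4 : j < i := hQ2 y j hj
              rw [← hi]
              exact h4)) hPQ
      obtain ⟨BU', BV', g1, g2, g3, g4, g5⟩ := key
      refine ⟨BU', BV', ?_, ?_, fun j hj => ?_⟩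
      · rw [add_mul, one_mul]
        omega
      · rw [add_mul, one_mul]
        omega
      · rcases Nat.lt_succ_iff_lt_or_eq.1 hj with hj | hj
        · exact (h3 j hj).mono g1 g2
        · have : j = i := Fin.ext (by rw [hj, hi])
          rw [this]
          exact g5
  obtain ⟨BU, BV, h1, h2, h3⟩ := main m le_rfl
  obtain ⟨P, hP1, hP2⟩ := hfin
  obtain ⟨BU', BV', -, -, g3, g4, g5⟩ := app_mix (α := fun _ => (1 : EReal))
    (β := fun _ => (0 : EReal)) (BU := BU) (BV := BV) hk (by omega) hC0 hCU hCV hν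
    (a := α) (b := β) P (fun _ => ∅) hP1 (fun _ => by simp) (fun x j _ => h3 j j.2)
    (fun y j hj => absurd hj (by simp)) fun x y _ => Or.inl (hP2 x y)
  rw [← hW] at hV g3 g4 ⊢
  have e1 : (m + 1) * W = m * W + W := by ring
  have h5 := app_full hc1 g5 (by omega)
  omega

end Pool.Agent.MP_9cec2c_lc.LovSch
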