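import Pool.Agent.Lib.MP_9cec2c_lc.LRCore
import Pool.Agent.Lib.MP_9cec2c_lc.LOMix
import Pool.Agent.Lib.MP_9cec2c_lc.Mg.G062

/-!
The lower bound for CNFs whose clauses are spread out, if two sets of variables are separated in
all orders.
-/

set_option autoImplicit false
set_option linter.unusedSectionVars false

namespace Pool.Agent.MP_9cec2c_lc.LovSch

open Finset

variable {n m w : ℕ}

/-- The literals of the clause `c` with variables in `Z` are false under `x`. -/
def FalseIn (Z : Finset (Fin n)) (c : (Fin w ↪ Fin n) × (Fin w → Bool)) (x : Fin n → Bool) :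
    Prop :=
  ∀ e, c.1 e ∈ Z → x (c.1 e) ≠ c.2 e

/-- The positions of the clause `c` with variables in `Z`. -/
def posin (Z : Finset (Fin n)) (c : (Fin w ↪ Fin n) × (Fin w → Bool)) : Finset (Fin w) :=
  univ.filter fun e => c.1 e ∈ Z

/-- The clause `c` has few literals in one of the sets `Z` and `Z'`, or many in their union. -/
def Off (Z Z' : Finset (Fin n)) (v u : ℕ) (c : (Fin w ↪ Fin n) × (Fin w → Bool)) : Prop :=
  (posin Z c).card < 2 * v ∨ (posin Z' c).card < 2 * v ∨ u < (posin (Z ∪ Z') c).card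

theorem off_comm {Z Z' : Finset (Fin n)} {v u : ℕ} {c : (Fin w ↪ Fin n) × (Fin w → Bool)} :
    Off Z Z' v u c ↔ Off Z' Z v u c := by
  unfold Off
  rw [union_comm Z Z']
  tauto

/-- The input `x` for `Z` falsifies, together with `ρ`, all literals with variables outside `Z'`
of a clause that is off balance, and that has at least as many literals in `Z` as in `Z'`. -/
def OBad (Z Z' : Finset (Fin n)) (ρ : Fin n → Bool) (v u : ℕ) (f : ClauseList n m w)
    (x : Fin n → Bool) : Prop :=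
  ∃ i, Off Z Z' v u (f i) ∧ (posin Z' (f i)).card ≤ (posin Z (f i)).card ∧ FalseIn Z (f i) x ∧
    FalseIn (Z ∪ Z')ᶜ (f i) ρ

open scoped Classical in
/-- The other clauses all of whose literals outside `Z'` are false under `x` and `ρ`. -/
noncomputable def zhit (Z Z' : Finset (Fin n)) (ρ : Fin n → Bool) (v u : ℕ)
    (f : ClauseList n m w) (x : Fin n → Bool) : Finset (Fin m) :=
  univ.filter fun i => ¬ Off Z Z' v u (f i) ∧ FalseIn (Z ∪ Z')ᶜ (f i) ρ ∧ FalseIn Z (f i) x

/-- All literals but at most `u` are false under `ρ`, and at least `2 * v` of these exceptions have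
variables in `Y`. -/
def Dense (v u : ℕ) (ρ : Fin n → Bool) (Y : Finset (Fin n))
    (c : (Fin w ↪ Fin n) × (Fin w → Bool)) : Prop :=
  ∃ J : Finset (Fin w), J.card ≤ u ∧ (∀ e ∈ Jᶜ, ρ (c.1 e) ≠ c.2 e) ∧
    2 * v ≤ (J.filter fun e => c.1 e ∈ Y).card

/-- No small set of variables is dense in several clauses. -/
def Wide (v u r : ℕ) (f : ClauseList n m w) (ρ : Fin n → Bool) : Prop :=
  ∀ M : Finset (Fin m), M.card ≤ r → ∀ Y : Finset (Fin n), (∀ i ∈ M, Dense v u ρ Y (f i)) →
    v * M.card ≤ Y.card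

/-- The variables in `Z` of the clauses of `M`. -/
def ztouch (Z : Finset (Fin n)) (f : ClauseList n m w) (M : Finset (Fin m)) :
    Finset (Fin n) := M.biUnion fun i => (posin Z (f i)).image (f i).1

theorem zhit_touch {Z Z' : Finset (Fin n)} {v u r : ℕ} {f : ClauseList n m w}
    {ρ : Fin n → Bool} (hf : Wide v u r f ρ) {x : Fin n → Bool} {M : Finset (Fin m)}
    (hM : M.card ≤ r) (hx : M ⊆ zhit Z Z' ρ v u f x) : v * M.card ≤ (ztouch Z f M).card := by
  classical
  refine hf M hM _ fun i hi => ?_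
  obtain ⟨h1, h2, -⟩ := (mem_filter.1 (hx hi)).2
  unfold Off at h1
  rw [not_or, not_or, not_lt, not_lt, not_lt] at h1
  refine ⟨posin (Z ∪ Z') (f i), h1.2.2, fun e he => h2 e ?_, h1.1.trans (card_le_card ?_)⟩
  · rw [mem_compl] at he ⊢
    exact fun h => he (mem_filter.2 ⟨mem_univ _, h⟩)
  · intro e he
    rw [mem_filter]
    refine ⟨mem_filter.2 ⟨mem_univ _, mem_union_left _ (mem_filter.1 he).2⟩, ?_⟩
    exact mem_biUnion.2 ⟨i, hi, mem_image_of_mem _ he⟩

/-- The inputs with given values in a set. -/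
theorem card_fixed (Z : Finset (Fin n)) (x0 : Fin n → Bool) (X : Finset (Fin n → Bool))
    (hX : ∀ x ∈ X, ∀ u ∈ Z, x u = x0 u) : X.card * 2 ^ Z.card ≤ 2 ^ n := by
  classical
  have h1 : X ⊆ Fintype.piFinset (fun u => if u ∈ Z then {x0 u} else univ) := by
    intro x hx
    rw [Fintype.mem_piFinset]
    intro u
    by_cases hu : u ∈ Z
    · rw [if_pos hu, mem_singleton]
      exact hX x hx u hu
    · rw [if_neg hu]
      exact mem_univ _
  have h2 := card_le_card h1
  rw [Fintype.card_piFinset] at h2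
  have h3 : ∏ u : Fin n, (if u ∈ Z then ({x0 u} : Finset Bool) else univ).card =
      2 ^ (n - Z.card) := by
    have h4 : ∀ u : Fin n,
        (if u ∈ Z then ({x0 u} : Finset Bool) else univ).card = if u ∈ Z then 1 else 2 := by
      intro u
      split_ifs
      · exact card_singleton _
      · rw [card_univ, Fintype.card_bool]
    simp only [h4]
    rw [prod_ite, prod_const_one, one_mul, prod_const]
    congr 1
    rw [filter_not, filter_mem_eq_inter, univ_inter, card_sdiff_of_subset (subset_univ _),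
      card_univ, Fintype.card_fin]
  rw [h3] at h2
  have h5 : Z.card ≤ n := by
    have := card_le_univ Z
    rwa [Fintype.card_fin] at this
  calc X.card * 2 ^ Z.card ≤ 2 ^ (n - Z.card) * 2 ^ Z.card := Nat.mul_le_mul_right _ h2
    _ = 2 ^ n := by
        rw [← pow_add]
        congr 1
        omega

/-- Inputs that falsify a set of clauses are rare. -/
theorem card_zhit (Z Z' : Finset (Fin n)) (ρ : Fin n → Bool) (v u : ℕ) (f : ClauseList n m w)
    (M : Finset (Fin m)) :
    (univ.filter fun x => M ⊆ zhit Z Z' ρ v u f x).card * 2 ^ (ztouch Z f M).card ≤ 2 ^ n := by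
  classical
  rcases (univ.filter fun x => M ⊆ zhit Z Z' ρ v u f x).eq_empty_or_nonempty with
    h0 | ⟨x0, hx0⟩
  · rw [h0, card_empty, zero_mul]
    exact Nat.zero_le _
  · refine card_fixed _ x0 _ fun x hx u hu => ?_
    rw [mem_filter] at hx hx0
    unfold ztouch at hu
    rw [mem_biUnion] at hu
    obtain ⟨i, hi, hu⟩ := hu
    rw [mem_image] at hu
    obtain ⟨e, he, rfl⟩ := hu
    have he' := (mem_filter.1 he).2
    have h1 := (mem_filter.1 (hx.2 hi)).2.2.2 e he'
    have h2 := (mem_filter.1 (hx0.2 hi)).2.2.2 e he'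
    revert h1 h2
    cases x ((f i).1 e) <;> cases x0 ((f i).1 e) <;> cases (f i).2 e <;> simp

theorem zhit_count {Z Z' : Finset (Fin n)} {v u r : ℕ} {f : ClauseList n m w}
    {ρ : Fin n → Bool} (hf : Wide v u r f ρ) (hvr : v * r ≤ n) {M : Finset (Fin m)} {t : ℕ}
    (ht : t ≤ r) (hM : M.card = t) :
    (univ.filter fun x => M ⊆ zhit Z Z' ρ v u f x).card ≤ 2 ^ (n - v * t) := by
  classical
  rcases (univ.filter fun x => M ⊆ zhit Z Z' ρ v u f x).eq_empty_or_nonempty with
    h0 | ⟨x0, hx0⟩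
  · rw [h0, card_empty]
    exact Nat.zero_le _
  · have h1 := card_zhit Z Z' ρ v u f M
    have h2 := zhit_touch hf (by omega) (mem_filter.1 hx0).2
    have h3 : 2 ^ (v * t) ≤ 2 ^ (ztouch Z f M).card :=
      Nat.pow_le_pow_right (by norm_num) (by rw [hM] at h2; exact h2)
    have h4 : v * t ≤ n := (Nat.mul_le_mul_left _ ht).trans hvr
    have h5 : 2 ^ n = 2 ^ (n - v * t) * 2 ^ (v * t) := by
      rw [← pow_add]
      congr 1
      omega
    have h6 : (univ.filter fun x => M ⊆ zhit Z Z' ρ v u f x).card * 2 ^ (v * t) ≤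
        2 ^ (n - v * t) * 2 ^ (v * t) := by
      rw [← h5]
      exact (Nat.mul_le_mul_left _ h3).trans h1
    exact Nat.le_of_mul_le_mul_right h6 (by positivity)

/-- A clause that is false is matched by both inputs. -/
theorem false_oclause {B₁ B₂ : Finset (Fin n)} (hd : Disjoint B₁ B₂) {ρ : Fin n → Bool}
    {v u : ℕ} {f : ClauseList n m w} {i : Fin m} {x y : Fin n → Bool}
    (hx : ¬ OBad B₁ B₂ ρ v u f x) (hy : ¬ OBad B₂ B₁ ρ v u f y)
    (h : ¬ Holds (omix B₁ B₂ ρ x y) (univ.image fun e => ((f i).1 e, (f i).2 e))) :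
    i ∈ zhit B₁ B₂ ρ v u f x ∧ i ∈ zhit B₂ B₁ ρ v u f y := by
  classical
  have h1 : ∀ e, omix B₁ B₂ ρ x y ((f i).1 e) ≠ (f i).2 e := by
    intro e he
    exact h ⟨((f i).1 e, (f i).2 e), mem_image_of_mem _ (mem_univ _), he⟩
  have h2 : FalseIn B₁ (f i) x := by
    intro e he
    have := h1 e
    unfold omix at this
    rwa [if_pos he] at this
  have h3 : FalseIn B₂ (f i) y := by
    intro e he
    have := h1 e
    unfold omix at this
    rwa [if_neg (disjoint_right.1 hd he), if_pos he] at this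
  have h4 : FalseIn (B₁ ∪ B₂)ᶜ (f i) ρ := by
    intro e he
    rw [mem_compl, mem_union, not_or] at he
    have := h1 e
    unfold omix at this
    rwa [if_neg he.1, if_neg he.2] at this
  have h4' : FalseIn (B₂ ∪ B₁)ᶜ (f i) ρ := by
    rw [union_comm]
    exact h4
  have h5 : ¬ Off B₁ B₂ v u (f i) := by
    intro hoff
    rcases le_total (posin B₂ (f i)).card (posin B₁ (f i)).card with hle | hle
    · exact hx ⟨i, hoff, hle, h2, h4⟩
    · exact hy ⟨i, off_comm.1 hoff, hle, h3, h4'⟩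
  exact ⟨mem_filter.2 ⟨mem_univ _, h5, h4, h2⟩,
    mem_filter.2 ⟨mem_univ _, fun h => h5 (off_comm.1 h), h4', h3⟩⟩

/-- If a line follows from earlier lines, then it is implied by few earlier lines. -/
theorem Follows.reduce {k S : ℕ} {L : Fin S → (Fin n → Bool) → Prop} {i : Fin S}
    {N : Set (Fin S)} {X : Set (Fin n → Bool)} (h : Follows k L i N X) :
    ∃ P : Finset (Fin S), P.card ≤ (k + 1) * k ∧ (∀ j ∈ P, j < i ∧ j ∈ N) ∧
      ∀ x ∈ X, ¬ L i x → ∃ j ∈ P, ¬ L j x := by
  classical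
  rcases h with ⟨P, hP1, hP2, hP3⟩ | ⟨h, hh1, hh2⟩
  · refine ⟨P, hP1.trans (Nat.le_mul_of_pos_left _ (Nat.succ_pos k)), hP2,
      fun x hxy hx => ?_⟩
    by_contra hcon
    push Not at hcon
    exact hx (hP3 x hxy hcon)
  · obtain ⟨Q, hQ1, hQ2, hQ3⟩ :=
      few_terms (univ.filter fun T : Finset (Fin S) => T.card ≤ k ∧
        ∀ j ∈ T, j < i ∧ j ∈ N) h hh1
    have hQ : ∀ T ∈ Q, T.card ≤ k ∧ ∀ j ∈ T, j < i ∧ j ∈ N := fun T hT =>
      (mem_filter.1 (hQ1 hT)).2
    refine ⟨Q.biUnion id, ?_, fun j hj => ?_, fun x hxy hx => ?_⟩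
    · refine (card_biUnion_le_card_mul Q id k fun T hT => (hQ T hT).1).trans ?_
      exact Nat.mul_le_mul_right _ hQ2
    · obtain ⟨T, hT, hj'⟩ := mem_biUnion.1 hj
      exact (hQ T hT).2 j hj'
    · obtain ⟨h5, h4⟩ := hh2 x hxy hx
      obtain ⟨T, hT, hT'⟩ := hQ3 x h5
      by_contra hcon
      push Not at hcon
      refine absurd (h4 T (hQ T hT).1 fun j hj => ⟨((hQ T hT).2 j hj).1,
        ((hQ T hT).2 j hj).2, ?_⟩) (not_le.2 hT')
      exact hcon j (mem_biUnion.2 ⟨T, hT, hj⟩)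

theorem wmix_mul (k r ν C : ℕ) : wmix k r ν C = C * wmix k r ν 1 := by
  unfold wmix
  ring

open scoped Classical in
/-- The lower bound in terms of the parameters. -/
theorem ocore {D : ℕ} {Q : Set (Equiv.Perm (Fin n))} {B₁ B₂ : Finset (Fin n)}
    (hd : Disjoint B₁ B₂) (hb0 : 0 < n / D) (hb1 : n / D ≤ B₁.card)
    (hb2 : n / D ≤ B₂.card) (hsep : ∀ o ∈ Q, Sep o B₁ B₂) {ρ : Fin n → Bool}
    {f : ClauseList n m w} {v u r k R S : ℕ} (hk : 0 < k) (hR : 0 < R) (hr : 1 < r)
    (hvr : v * r ≤ n) (hf : Wide v u r f ρ)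
    (hbad1 : 2 * (univ.filter fun x => OBad B₁ B₂ ρ v u f x).card ≤ 2 ^ n)
    (hbad2 : 2 * (univ.filter fun x => OBad B₂ B₁ ρ v u f x).card ≤ 2 ^ n)
    (hS : 4 * ((S * (2 * (k * (R * k))) + 1) *
      wmix ((k + 1) * k * (k * k)) r (n + 1) 1) < 2 ^ (v * r))
    (hrv : 4 * r < 2 ^ v) {L : Fin S → (Fin n → Bool) → Prop}
    (href : IsORefutation D k R Q (toCNF f) L) : False := by
  classical
  have hcard : Fintype.card (Fin n → Bool) = 2 ^ n := by
    rw [Fintype.card_fun, Fintype.card_fin, Fintype.card_bool]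
  -- the inputs that do not falsify an unbalanced clause
  have hhalf : ∀ Z Z' : Finset (Fin n),
      2 * (univ.filter fun x => OBad Z Z' ρ v u f x).card ≤ 2 ^ n →
      2 ^ n ≤ 2 * Fintype.card {x // ¬ OBad Z Z' ρ v u f x} := by
    intro Z Z' h1
    have h2 : Fintype.card {x // ¬ OBad Z Z' ρ v u f x} =
        (univ.filter fun x => ¬ OBad Z Z' ρ v u f x).card := Fintype.card_subtype _
    have h3 := card_filter_add_card_filter_not (s := (univ : Finset (Fin n → Bool)))
      (fun x => OBad Z Z' ρ v u f x)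
    rw [card_univ, hcard] at h3
    omega
  -- the triangles of the lines
  have hchoice := fun i => tri_line (R := R) (k := k)
    fun (x : {x // ¬ OBad B₁ B₂ ρ v u f x}) (y : {y // ¬ OBad B₂ B₁ ρ v u f y}) =>
      L i (omix B₁ B₂ ρ x.1 y.1)
  choose α1 β1 hα1 hneg1 hβ1 using hchoice
  have hchoice := fun i => tri_line' (R := R) (k := k)
    fun (x : {x // ¬ OBad B₁ B₂ ρ v u f x}) (y : {y // ¬ OBad B₂ B₁ ρ v u f y}) =>
      L i (omix B₁ B₂ ρ x.1 y.1)
  choose α2 β2 hα2 hβ2 using hchoice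
  obtain ⟨e⟩ : Nonempty (Fin (2 * (k * (R * k))) ≃ Bool × (Fin k × (Fin R × Fin k))) := by
    refine ⟨(Fintype.equivFinOfCardEq ?_).symm⟩
    rw [Fintype.card_prod, Fintype.card_prod, Fintype.card_prod, Fintype.card_bool,
      Fintype.card_fin, Fintype.card_fin]
  obtain ⟨α, hα⟩ : ∃ α : Fin S → Bool × (Fin k × (Fin R × Fin k)) →
      {x // ¬ OBad B₁ B₂ ρ v u f x} → EReal,
      α = fun i p => if p.1 then α2 i p.2 else α1 i p.2 := ⟨_, rfl⟩
  obtain ⟨β, hβ⟩ : ∃ β : Fin S → Bool × (Fin k × (Fin R × Fin k)) →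
      {y // ¬ OBad B₂ B₁ ρ v u f y} → EReal,
      β = fun i p => if p.1 then β2 i p.2 else β1 i p.2 := ⟨_, rfl⟩
  have hfl0 : ∀ i p x y, β i p y < α i p x → ¬ L i (omix B₁ B₂ ρ x.1 y.1) := by
    rintro i ⟨s, a⟩ x y h
    rw [hα, hβ] at h
    cases s
    · exact hα1 i a x y (by simpa using h)
    · exact hα2 i a x y (by simpa using h)
  obtain ⟨idx, hidx⟩ : ∃ idx : Fin S → Bool × (Fin k × (Fin R × Fin k)) → Fin (S * (2 * (k * (R * k)))),
      idx = fun i p => finProdFinEquiv (i, e.symm p) := ⟨_, rfl⟩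
  obtain ⟨αc, hαc⟩ : ∃ αc : Fin (S * (2 * (k * (R * k)))) → {x // ¬ OBad B₁ B₂ ρ v u f x} → EReal,
      αc = fun c => α (finProdFinEquiv.symm c).1 (e (finProdFinEquiv.symm c).2) := ⟨_, rfl⟩
  obtain ⟨βc, hβc⟩ : ∃ βc : Fin (S * (2 * (k * (R * k)))) → {y // ¬ OBad B₂ B₁ ρ v u f y} → EReal,
      βc = fun c => β (finProdFinEquiv.symm c).1 (e (finProdFinEquiv.symm c).2) := ⟨_, rfl⟩
  have hαi : ∀ i p, αc (idx i p) = α i p := by
    intro i p
    rw [hαc, hidx]
    simp only [Equiv.symm_apply_apply, Equiv.apply_symm_apply]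
  have hβi : ∀ i p, βc (idx i p) = β i p := by
    intro i p
    rw [hβc, hidx]
    simp only [Equiv.symm_apply_apply, Equiv.apply_symm_apply]
  have hsurj : ∀ c, ∃ i p, c = idx i p := by
    intro c
    obtain ⟨⟨i, z⟩, rfl⟩ := finProdFinEquiv.surjective c
    refine ⟨i, e z, ?_⟩
    rw [hidx]
    simp only [Equiv.symm_apply_apply]
  have hlt : ∀ i j p q, j < i → idx j q < idx i p := by
    intro i j p q h1
    rw [hidx]
    rw [Fin.lt_def] at h1 ⊢
    simp only [finProdFinEquiv_apply_val]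
    have h2 : (j : ℕ) + 1 ≤ i := h1
    have h3 := (e.symm q).2
    have h4 : 2 * (k * (R * k)) * ((j : ℕ) + 1) ≤ 2 * (k * (R * k)) * i := Nat.mul_le_mul_left _ h2
    rw [mul_add, mul_one] at h4
    omega
  -- an order is used in one of two directions
  have hfw : ∀ j : Fin S, ∃ c : Fin k → {x // ¬ OBad B₁ B₂ ρ v u f x} → Fin R,
      (∃ o t, Before o t B₁ B₂ ∧ Narrow D k R o (L j)) →
        ∀ x y, ¬ L j (omix B₁ B₂ ρ x.1 y.1) →
          ∃ a b, βc (idx j (false, (a, (c a x, b)))) y <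
            αc (idx j (false, (a, (c a x, b)))) x := by
    intro j
    by_cases hj : ∃ o t, Before o t B₁ B₂ ∧ Narrow D k R o (L j)
    · obtain ⟨o, t, ht, hj⟩ := hj
      obtain ⟨g1, g2⟩ := ht.bounds hb1 hb2 hb0
      obtain ⟨c, d, f, g, hG⟩ := narrow_before hj g1 g2 ht ρ
      obtain ⟨c', hc'⟩ := hβ1 j (fun a x => c a x.1) (fun a y => d a y.1)
        (fun a b y => f a b y.1) (fun a b x => g a b x.1) fun x y => hG x.1 y.1
      refine ⟨c', fun _ x y hxy => ?_⟩
      obtain ⟨a, b, hb⟩ := hc' x y hxy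
      refine ⟨a, b, ?_⟩
      rw [hαi, hβi, hα, hβ]
      simpa using hb
    · exact ⟨fun _ _ => ⟨0, hR⟩, fun h => absurd h hj⟩
  have hbw : ∀ j : Fin S, ∃ c : Fin k → {y // ¬ OBad B₂ B₁ ρ v u f y} → Fin R,
      (∃ o t, Before o t B₂ B₁ ∧ Narrow D k R o (L j)) →
        ∀ x y, ¬ L j (omix B₁ B₂ ρ x.1 y.1) →
          ∃ a b, βc (idx j (true, (a, (c a y, b)))) y <
            αc (idx j (true, (a, (c a y, b)))) x := by
    intro j
    by_cases hj : ∃ o t, Before o t B₂ B₁ ∧ Narrow D k R o (L j)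
    · obtain ⟨o, t, ht, hj⟩ := hj
      obtain ⟨g1, g2⟩ := ht.bounds hb2 hb1 hb0
      obtain ⟨c, d, f, g, hG⟩ := narrow_before hj g1 g2 ht ρ
      obtain ⟨c', hc'⟩ := hβ2 j (fun a y => c a y.1) (fun a x => d a x.1)
        (fun a b x => f a b x.1) (fun a b y => g a b y.1) fun x y => by
          rw [omix_swap hd]
          exact hG y.1 x.1
      refine ⟨c', fun _ x y hxy => ?_⟩
      obtain ⟨a, b, hb⟩ := hc' x y hxy
      refine ⟨a, b, ?_⟩
      rw [hαi, hβi, hα, hβ]
      simpa using hb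
    · exact ⟨fun _ _ => ⟨0, hR⟩, fun h => absurd h hj⟩
  choose cF hcF using hfw
  choose cB hcB using hbw
  have hkk : ∀ P : Finset (Fin S), P.card ≤ (k + 1) * k → ∀ (s : Bool)
      (c : Fin S → Fin k → Fin R),
      (P.biUnion fun j => univ.image fun p : Fin k × Fin k =>
        idx j (s, (p.1, (c j p.1, p.2)))).card ≤ (k + 1) * k * (k * k) := by
    intro P hP s c
    refine (card_biUnion_le_card_mul P _ (k * k) fun j _ => card_image_le.trans (by simp)).trans
      ?_
    exact Nat.mul_le_mul_right _ hP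
  obtain ⟨i0, hi0⟩ := href.1
  have hfin : ∃ P : {x // ¬ OBad B₁ B₂ ρ v u f x} → Finset (Fin (S * (2 * (k * (R * k))))),
      (∀ x, (P x).card ≤ (k + 1) * k * (k * k)) ∧ ∀ x y, ∃ j ∈ P x, βc j y < αc j x := by
    refine ⟨fun x => {idx i0 (false, (⟨0, hk⟩, (⟨0, hR⟩, ⟨0, hk⟩)))}, fun x => ?_, fun x y =>
      ⟨_, mem_singleton_self _, ?_⟩⟩
    · rw [card_singleton]
      exact Nat.one_le_iff_ne_zero.2 (by positivity)
    · rw [hαi, hβi, hα, hβ]
      simpa using hneg1 i0 (fun x y => hi0 _) (⟨0, hk⟩, (⟨0, hR⟩, ⟨0, hk⟩)) x y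
  have h := tri_bound_mix (U := {x // ¬ OBad B₁ B₂ ρ v u f x})
    (V := {y // ¬ OBad B₂ B₁ ρ v u f y}) (I := Fin m) (S := fun x => zhit B₁ B₂ ρ v u f x.1)
    (T := fun y => zhit B₂ B₁ ρ v u f y.1) (r := r) (C := 2 ^ (n - v * r)) (k := (k + 1) * k * (k * k))
    (m := S * (2 * (k * (R * k)))) (c1 := 2 ^ (n - v)) (ν := n + 1) hr (by positivity) (by positivity)
    (fun M hM => (card_sub_le _ fun x => M ⊆ zhit B₁ B₂ ρ v u f x).trans
      (zhit_count hf hvr le_rfl hM))
    (fun M hM => (card_sub_le _ fun x => M ⊆ zhit B₂ B₁ ρ v u f x).trans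
      (zhit_count hf hvr le_rfl hM))
    (lt_of_le_of_lt (Fintype.card_subtype_le _) (by
      rw [hcard]
      exact Nat.pow_lt_pow_right (by norm_num) (by omega)))
    (fun i => by
      have h1 := zhit_count (Z := B₁) (Z' := B₂) hf hvr (M := {i}) (t := 1) (by omega) (card_singleton i)
      rw [mul_one] at h1
      simp only [singleton_subset_iff] at h1
      exact (card_sub_le _ fun x => i ∈ zhit B₁ B₂ ρ v u f x).trans h1)
    αc βc
    (fun c => by
      obtain ⟨i, p, rfl⟩ := hsurj c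
      have hfl : ∀ x y, βc (idx i p) y < αc (idx i p) x →
          ¬ L i (omix B₁ B₂ ρ x.1 y.1) := by
        intro x y hxy
        rw [hαi, hβi] at hxy
        exact hfl0 i p x y hxy
      rcases href.2 i with ⟨B, hB, hB'⟩ | ho | ⟨o, hoQ, ho⟩
      · left
        unfold toCNF at hB
        obtain ⟨i', -, rfl⟩ := mem_image.1 hB
        refine ⟨i', fun x y hxy => ?_⟩
        exact false_oclause hd x.2 y.2 fun h => hfl x y hxy (hB' _ h)
      · right
        obtain ⟨P, hP1, hP2, hP3⟩ := ho.reduce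
        refine ⟨fun x => P.biUnion fun j => univ.image fun p : Fin k × Fin k =>
            idx j (false, (p.1, (cF j p.1 x, p.2))), fun y => P.biUnion fun j =>
            univ.image fun p : Fin k × Fin k => idx j (true, (p.1, (cB j p.1 y, p.2))),
            fun x => hkk _ hP1 false fun j a => cF j a x,
            fun y => hkk _ hP1 true fun j a => cB j a y, fun x j hj => ?_, fun y j hj => ?_,
            fun x y hxy => ?_⟩
        · obtain ⟨j', hj', hj⟩ := mem_biUnion.1 hj
          obtain ⟨b, -, rfl⟩ := mem_image.1 hj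
          exact hlt i j' p _ (hP2 j' hj').1
        · obtain ⟨j', hj', hj⟩ := mem_biUnion.1 hj
          obtain ⟨b, -, rfl⟩ := mem_image.1 hj
          exact hlt i j' p _ (hP2 j' hj').1
        · obtain ⟨j, hj, hj'⟩ := hP3 (omix B₁ B₂ ρ x.1 y.1) (Set.mem_univ _) (hfl x y hxy)
          obtain ⟨o, hoQ, ho'⟩ := (hP2 j hj).2
          obtain ⟨t, ht | ht⟩ := hsep o hoQ
          · left
            obtain ⟨a, b, hb⟩ := hcF j ⟨o, t, ht, ho'⟩ x y hj'
            exact ⟨_, mem_biUnion.2 ⟨j, hj, mem_image_of_mem _ (mem_univ (a, b))⟩, hb⟩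
          · right
            obtain ⟨a, b, hb⟩ := hcB j ⟨o, t, ht, ho'⟩ x y hj'
            exact ⟨_, mem_biUnion.2 ⟨j, hj, mem_image_of_mem _ (mem_univ (a, b))⟩, hb⟩
      · right
        obtain ⟨t, ht | ht⟩ := hsep o hoQ
        · choose P hP1 hP2 hP3 using fun x : {x // ¬ OBad B₁ B₂ ρ v u f x} =>
            (ho fun u => if u ∈ B₁ then x.1 u else ρ u).reduce
          refine ⟨fun x => (P x).biUnion fun j => univ.image fun p : Fin k × Fin k =>
            idx j (false, (p.1, (cF j p.1 x, p.2))), fun _ => ∅,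
            fun x => hkk _ (hP1 x) false fun j a => cF j a x,
            fun _ => by simp, fun x j hj => ?_, fun _ j hj => absurd hj (by simp),
            fun x y hxy => ?_⟩
          · obtain ⟨j', hj', hj⟩ := mem_biUnion.1 hj
            obtain ⟨b, -, rfl⟩ := mem_image.1 hj
            exact hlt i j' p _ (hP2 x j' hj').1
          · have h1 := (ht.bounds hb1 hb2 hb0).1
            obtain ⟨j, hj, hj'⟩ := hP3 x (omix B₁ B₂ ρ x.1 y.1) (by
              rw [Set.mem_ofPred_eq, omix_splice ht]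
              exact splice_le h1 _ _) (hfl x y hxy)
            left
            obtain ⟨a, b, hb⟩ := hcF j ⟨o, t, ht, (hP2 x j hj).2⟩ x y hj'
            exact ⟨_, mem_biUnion.2 ⟨j, hj, mem_image_of_mem _ (mem_univ (a, b))⟩, hb⟩
        · choose P hP1 hP2 hP3 using fun y : {y // ¬ OBad B₂ B₁ ρ v u f y} =>
            (ho fun u => if u ∈ B₂ then y.1 u else ρ u).reduce
          refine ⟨fun _ => ∅, fun y => (P y).biUnion fun j => univ.image fun p : Fin k × Fin k =>
            idx j (true, (p.1, (cB j p.1 y, p.2))), fun _ => by simp,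
            fun y => hkk _ (hP1 y) true fun j a => cB j a y, fun _ j hj => absurd hj (by simp),
            fun y j hj => ?_, fun x y hxy => ?_⟩
          · obtain ⟨j', hj', hj⟩ := mem_biUnion.1 hj
            obtain ⟨b, -, rfl⟩ := mem_image.1 hj
            exact hlt i j' p _ (hP2 y j' hj').1
          · have h1 := (ht.bounds hb2 hb1 hb0).1
            obtain ⟨j, hj, hj'⟩ := hP3 y (omix B₁ B₂ ρ x.1 y.1) (by
              rw [Set.mem_ofPred_eq, omix_swap hd, omix_splice ht]
              exact splice_le h1 _ _) (hfl x y hxy)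
            right
            obtain ⟨a, b, hb⟩ := hcB j ⟨o, t, ht, (hP2 y j hj).2⟩ x y hj'
            exact ⟨_, mem_biUnion.2 ⟨j, hj, mem_image_of_mem _ (mem_univ (a, b))⟩, hb⟩)
    hfin (by
      have h1 : 2 ^ n = 2 ^ (n - v * r) * 2 ^ (v * r) := by
        rw [← pow_add]
        congr 1
        omega
      have h0 := hhalf B₂ B₁ hbad2
      rw [wmix_mul]
      have h6 : 2 ^ (n - v * r) *
          (4 * ((S * (2 * (k * (R * k))) + 1) * wmix ((k + 1) * k * (k * k)) r (n + 1) 1)) <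
          2 ^ (n - v * r) * 2 ^ (v * r) := Nat.mul_lt_mul_of_pos_left hS (by positivity)
      rw [← h1] at h6
      have h7 : 2 ^ (n - v * r) *
          (4 * ((S * (2 * (k * (R * k))) + 1) * wmix ((k + 1) * k * (k * k)) r (n + 1) 1)) =
          4 * ((S * (2 * (k * (R * k))) + 1) *
            (2 ^ (n - v * r) * wmix ((k + 1) * k * (k * k)) r (n + 1) 1)) := by ring
      rw [h7] at h6
      omega)
  have h0 := hhalf B₁ B₂ hbad1
  have hvn : v ≤ n := le_trans (by nlinarith) hvr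
  have h1 : 2 ^ n = 2 ^ (n - v * r) * 2 ^ (v * r) := by
    rw [← pow_add]
    congr 1
    omega
  have h2 : 2 ^ n = 2 ^ (n - v) * 2 ^ v := by
    rw [← pow_add]
    congr 1
    omega
  rw [wmix_mul] at h
  have h3 : 4 * ((S * (2 * (k * (R * k))) + 1) *
      (2 ^ (n - v * r) * wmix ((k + 1) * k * (k * k)) r (n + 1) 1)) < 2 ^ n := by
    rw [h1]
    have h4 : 4 * ((S * (2 * (k * (R * k))) + 1) *
        (2 ^ (n - v * r) * wmix ((k + 1) * k * (k * k)) r (n + 1) 1)) =
        2 ^ (n - v * r) * (4 * ((S * (2 * (k * (R * k))) + 1) *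
          wmix ((k + 1) * k * (k * k)) r (n + 1) 1)) := by
      ring
    rw [h4]
    exact Nat.mul_lt_mul_of_pos_left hS (by positivity)
  have h5 : 4 * (r * 2 ^ (n - v)) < 2 ^ n := by
    rw [h2]
    have h4 : 4 * (r * 2 ^ (n - v)) = 2 ^ (n - v) * (4 * r) := by ring
    rw [h4]
    exact Nat.mul_lt_mul_of_pos_left hrv (by positivity)
  omega

end Pool.Agent.MP_9cec2c_lc.LovSch
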