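import Pool.Agent.Lib.MP_9cec2c_lc.LRDefs

/-!
Refutations whose lines are equivalent to few inequalities that have few subfunctions with respect
to one of several orders of the variables.
-/

set_option autoImplicit false

namespace Pool.Agent.MP_9cec2c_lc.LovSch

/-- The variables with positions `0, ..., t - 1` in the order `π` have the values given by `x`, the
other ones those given by `z`.  The position of the variable `v` is `π v`. -/
def splice {n : ℕ} (π : Equiv.Perm (Fin n)) (t : ℕ) (x z : Fin n → Bool) : Fin n → Bool :=
  fun v => if (π v : ℕ) < t then x v else z v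

/-- For every `t` between `n / D` and `n - n / D`, the line `L` is equivalent to at most `k`
inequalities `0 ≤ f + g`, where `f` has at most `R` subfunctions obtained by fixing the first `t`
variables in the order `π`, and `g` has at most `k` subfunctions obtained by fixing the other
variables. -/
def Narrow {n : ℕ} (D k R : ℕ) (π : Equiv.Perm (Fin n)) (L : (Fin n → Bool) → Prop) : Prop :=
  ∀ t, n / D ≤ t → t + n / D ≤ n →
    ∃ (c : Fin k → (Fin n → Bool) → Fin R) (d : Fin k → (Fin n → Bool) → Fin k)
      (f : Fin k → Fin R → (Fin n → Bool) → ℝ) (g : Fin k → Fin k → (Fin n → Bool) → ℝ),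
      ∀ x z, L (splice π t x z) ↔ ∀ a, 0 ≤ f a (c a x) z + g a (d a z) x

open scoped Classical in
/-- On the set `X`, the line `L i` follows from earlier lines `L j` with `j` in `N`. Either
* it is implied by at most `k` of them, or
* it is a cut of dimension at most `k`: there are real functions `h T` on the cube, where `T` ranges
  over the sets of at most `k` of these lines, that span a space of dimension at most `k`, such that
  for every assignment in `X` that falsifies `L i`, the sum of all the `h T` is negative, but each
  `h T` for which all lines in `T` are true is nonnegative. -/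
def Follows {n S : ℕ} (k : ℕ) (L : Fin S → (Fin n → Bool) → Prop) (i : Fin S) (N : Set (Fin S))
    (X : Set (Fin n → Bool)) : Prop :=
  (∃ P : Finset (Fin S), P.card ≤ k ∧ (∀ j ∈ P, j < i ∧ j ∈ N) ∧
    ∀ x ∈ X, (∀ j ∈ P, L j x) → L i x) ∨
  ∃ h : Finset (Fin S) → (Fin n → Bool) → ℝ,
    Module.finrank ℝ (Submodule.span ℝ (Set.range h)) ≤ k ∧
    ∀ x ∈ X, ¬ L i x →
      ∑ T with T.card ≤ k ∧ ∀ j ∈ T, j < i ∧ j ∈ N, h T x < 0 ∧
      ∀ T : Finset (Fin S), T.card ≤ k → (∀ j ∈ T, j < i ∧ j ∈ N ∧ L j x) → 0 ≤ h T x

/-- The lines `L 0, ..., L (S - 1)` are a refutation of `F` with the orders in `Q`.  Some line is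
false for all assignments.  Each line
* is implied by a clause of `F`, or
* follows from earlier lines each of which is narrow for at least one of the orders, or
* follows, for one of the orders and on each subcube obtained by fixing the first `n / D` variables
  in this order, from earlier lines that are narrow for this order. -/
def IsORefutation {n : ℕ} (D k R : ℕ) (Q : Set (Equiv.Perm (Fin n))) (F : Finset (Clause (Fin n)))
    {S : ℕ} (L : Fin S → (Fin n → Bool) → Prop) : Prop :=
  (∃ i, ∀ x, ¬ L i x) ∧ ∀ i,
    (∃ C ∈ F, ∀ x, Holds x C → L i x) ∨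
    Follows k L i {j | ∃ π ∈ Q, Narrow D k R π (L j)} Set.univ ∨
    ∃ π ∈ Q, ∀ y, Follows k L i {j | Narrow D k R π (L j)} {x | x = splice π (n / D) y x}

/-- There are two disjoint sets of at least `n / D` variables such that, in each order in `Q`, all
variables in one of these sets are before all variables in the other one. -/
def Separated {n : ℕ} (D : ℕ) (Q : Set (Equiv.Perm (Fin n))) : Prop :=
  ∃ B₁ B₂ : Finset (Fin n), Disjoint B₁ B₂ ∧ n / D ≤ B₁.card ∧ n / D ≤ B₂.card ∧
    ∀ π ∈ Q, (∀ u ∈ B₁, ∀ v ∈ B₂, π u < π v) ∨ ∀ u ∈ B₁, ∀ v ∈ B₂, π v < π u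

/-- The CNF `F` is unsatisfiable, and for all separated sets of orders, all its refutations have
`S * R ≥ s`. -/
def OHard {n : ℕ} (D k s : ℕ) (F : Finset (Clause (Fin n))) : Prop :=
  (∀ x, ∃ B ∈ F, ¬ Holds x B) ∧
    ∀ Q : Set (Equiv.Perm (Fin n)), Separated D Q →
      ∀ (R S : ℕ) (L : Fin S → (Fin n → Bool) → Prop), 0 < R →
        IsORefutation D k R Q F L → s ≤ S * R

end Pool.Agent.MP_9cec2c_lc.LovSch
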