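import Pool.Agent.Lib.MP_9cec2c_lc.Mg.G055

/-!
Random CNFs are unsatisfiable, and their unbalanced clauses are rarely falsified.
-/

set_option autoImplicit false
set_option linter.unusedSectionVars false

namespace Pool.Agent.MP_9cec2c_lc.LovSch

open Finset
open Pool.Agent.MP_9cec2c_lc.SubstRed
open Pool.Agent.MP_9cec2c_lc.FormulaLines

variable {n m w : ℕ}

/-- The probability that a random clause is false at a point. -/
theorem pr_false_at (hw : w ≤ n) (x : Fin n → Bool) :
    pr (fun c : (Fin w ↪ Fin n) × (Fin w → Bool) => ∀ e, x (c.1 e) ≠ c.2 e) = (1 / 2) ^ w := by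
  classical
  have hne := nonempty_emb hw
  rw [pr_eq_av, av_prod_type]
  have h1 : ∀ g : Fin w ↪ Fin n, av (fun b : Fin w → Bool => ind (∀ e, x (g e) ≠ b e)) =
      (1 / 2) ^ w := by
    intro g
    rw [← pr_eq_av]
    exact sign_pr_eq fun e => x (g e)
  simp only [h1]
  exact av_const _

/-- Random CNFs with many clauses are unsatisfiable. -/
theorem pr_sat (hw : w ≤ n) (hm : n * 2 ^ w ≤ m) :
    pr (fun f : ClauseList n m w => ∃ x : Fin n → Bool, ∀ i, ¬ ∀ e, x ((f i).1 e) ≠ (f i).2 e) ≤
      (3 / 4) ^ n := by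
  classical
  have hne := nonempty_emb hw
  refine (pr_exists_fintype _).trans ?_
  have h1 : ∀ x : Fin n → Bool,
      pr (fun f : ClauseList n m w => ∀ i, ¬ ∀ e, x ((f i).1 e) ≠ (f i).2 e) ≤
        Real.exp (-n) := by
    intro x
    refine (all_fail (fun c : (Fin w ↪ Fin n) × (Fin w → Bool) => ∀ e, x (c.1 e) ≠ c.2 e) _
      (pr_false_at hw x).ge).trans ?_
    refine Real.exp_le_exp.2 ?_
    rw [neg_le_neg_iff]
    have h2 : ((n * 2 ^ w : ℕ) : ℝ) ≤ m := by exact_mod_cast hm
    push_cast at h2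
    have h3 : (n : ℝ) = (1 / 2) ^ w * (n * 2 ^ w) := by
      rw [one_div, inv_pow]
      field_simp
    calc (n : ℝ) = (1 / 2) ^ w * (n * 2 ^ w) := h3
      _ ≤ (1 / 2) ^ w * m := by gcongr
  refine (sum_le_sum fun x _ => h1 x).trans ?_
  rw [sum_const, card_univ, Fintype.card_fun, Fintype.card_fin, Fintype.card_bool, nsmul_eq_mul]
  push_cast
  have h4 : Real.exp (-n) = Real.exp (-1) ^ n := by
    rw [← Real.exp_nat_mul]
    congr 1
    ring
  rw [h4, ← mul_pow]
  refine pow_le_pow_left₀ (by positivity) ?_ _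
  rw [Real.exp_neg]
  have h5 := Real.exp_one_gt_d9
  rw [← div_eq_mul_inv, div_le_div_iff₀ (by positivity) (by norm_num)]
  linarith

/-- The probability that a random clause has few literals on the other side and is false on this
side. -/
theorem pr_poor (hw : w ≤ n) {v : ℕ} (hv : 64 * v ≤ w) (col : Fin n → Bool) (s : Bool)
    (hcol : 64 * (univ.filter fun u => col u = s).card ≤ 33 * n) (x : Fin n → Bool) :
    pr (fun c : (Fin w ↪ Fin n) × (Fin w → Bool) =>
      (posn col (!s) c).card < 2 * v ∧ FalseOn col s c x) ≤ (5 / 16) ^ w := by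
  classical
  have hne := nonempty_emb hw
  obtain ⟨Z, hZ⟩ : ∃ Z, Z = univ.filter fun u => col u = s := ⟨_, rfl⟩
  have hp : ((Z.card : ℝ) / n) ≤ 33 / 64 := by
    rcases Nat.eq_zero_or_pos n with h0 | h0
    · have h1 : (n : ℝ) = 0 := by exact_mod_cast h0
      rw [h1, div_zero]
      norm_num
    · have hn : (0 : ℝ) < n := by exact_mod_cast h0
      rw [div_le_div_iff₀ hn (by norm_num), hZ]
      have : ((64 * (univ.filter fun u => col u = s).card : ℕ) : ℝ) ≤ ((33 * n : ℕ) : ℝ) := by
        exact_mod_cast hcol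
      push_cast at this
      linarith
  refine le_trans (pr_mono (q := fun c : (Fin w ↪ Fin n) × (Fin w → Bool) =>
    ∃ J ∈ (univ : Finset (Finset (Fin w))).filter (fun J => J.card < 2 * v),
      (∀ e ∈ Jᶜ, c.1 e ∈ Z) ∧ ∀ e ∈ Jᶜ, x (c.1 e) ≠ c.2 e) fun c hc => ?_) ?_
  · refine ⟨posn col (!s) c, mem_filter.2 ⟨mem_univ _, hc.1⟩, fun e he => ?_, fun e he => ?_⟩
    · rw [hZ, mem_filter]
      refine ⟨mem_univ _, ?_⟩
      rw [mem_compl] at he
      unfold posn at he
      rw [mem_filter] at he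
      simpa using he
    · refine hc.2 e ?_
      rw [mem_compl] at he
      unfold posn at he
      rw [mem_filter] at he
      simpa using he
  · refine (pr_exists _ _).trans ?_
    have h1 : ∀ J : Finset (Fin w), pr (fun c : (Fin w ↪ Fin n) × (Fin w → Bool) =>
        (∀ e ∈ Jᶜ, c.1 e ∈ Z) ∧ ∀ e ∈ Jᶜ, x (c.1 e) ≠ c.2 e) ≤ (33 / 128) ^ (w - J.card) := by
      intro J
      refine (pr_and_le (fun g : Fin w ↪ Fin n => ∀ e ∈ Jᶜ, g e ∈ Z)
        (fun g (b : Fin w → Bool) => ∀ e ∈ Jᶜ, x (g e) ≠ b e)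
        (fun g => sign_pr Jᶜ fun e => x (g e))).trans ?_
      have h2 := emb_pr hw Jᶜ Z
      have h3 : (Jᶜ).card = w - J.card := by rw [card_compl, Fintype.card_fin]
      rw [h3] at h2 ⊢
      calc pr (fun g : Fin w ↪ Fin n => ∀ e ∈ Jᶜ, g e ∈ Z) * (1 / 2) ^ (w - J.card)
          ≤ (33 / 64) ^ (w - J.card) * (1 / 2) ^ (w - J.card) := by
            gcongr
            refine h2.trans ?_
            gcongr
        _ = (33 / 128) ^ (w - J.card) := by
            rw [← mul_pow]
            norm_num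
    have h2 : ∑ J ∈ (univ : Finset (Finset (Fin w))).filter (fun J => J.card < 2 * v),
        pr (fun c : (Fin w ↪ Fin n) × (Fin w → Bool) =>
        (∀ e ∈ Jᶜ, c.1 e ∈ Z) ∧ ∀ e ∈ Jᶜ, x (c.1 e) ≠ c.2 e) ≤
        ∑ J : Finset (Fin w), (64 : ℝ) ^ (2 * v) *
          ((1 / 64) ^ J.card * (33 / 128) ^ (w - J.card)) := by
      rw [sum_filter]
      refine sum_le_sum fun J _ => ?_
      by_cases hJ : J.card < 2 * v
      · rw [if_pos hJ]
        refine (h1 J).trans ?_
        have h3 : (1 : ℝ) ≤ 64 ^ (2 * v) * (1 / 64) ^ J.card := by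
          rw [one_div, inv_pow, ← div_eq_mul_inv, one_le_div (by positivity)]
          exact pow_le_pow_right₀ (by norm_num) hJ.le
        have h4 : (0 : ℝ) ≤ (33 / 128) ^ (w - J.card) := by positivity
        nlinarith
      · rw [if_neg hJ]
        positivity
    refine h2.trans ?_
    rw [← mul_sum]
    have h3 : ∑ J : Finset (Fin w), ((1 / 64 : ℝ) ^ J.card * (33 / 128) ^ (w - J.card)) =
        (35 / 128) ^ w := by
      have := Finset.sum_pow_mul_eq_add_pow (1 / 64 : ℝ) (33 / 128) (univ : Finset (Fin w))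
      rw [powerset_univ, card_univ, Fintype.card_fin] at this
      rw [this]
      norm_num
    rw [h3]
    have h4 : (64 : ℝ) ^ (2 * v) ≤ (8 / 7) ^ w := by
      calc (64 : ℝ) ^ (2 * v) = (64 ^ 2) ^ v := pow_mul _ _ _
        _ ≤ ((8 / 7) ^ 64) ^ v := by
            gcongr
            norm_num
        _ = (8 / 7) ^ (64 * v) := (pow_mul _ _ _).symm
        _ ≤ (8 / 7) ^ w := pow_le_pow_right₀ (by norm_num) hv
    calc (64 : ℝ) ^ (2 * v) * (35 / 128) ^ w ≤ (8 / 7) ^ w * (35 / 128) ^ w := by gcongr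
      _ = (5 / 16) ^ w := by
          rw [← mul_pow]
          norm_num

/-- A point falsifies its part of an unbalanced clause. -/
theorem pr_bad (hw : w ≤ n) {v : ℕ} (hv : 64 * v ≤ w) (hm : m ≤ 3 ^ w) (col : Fin n → Bool)
    (s : Bool) (hcol : 64 * (univ.filter fun u => col u = s).card ≤ 33 * n) (x : Fin n → Bool) :
    pr (fun f : ClauseList n m w => Bad col v f s x) ≤ (15 / 16) ^ w := by
  classical
  have hne := nonempty_emb hw
  unfold Bad
  refine (pr_exists_fintype _).trans ?_
  have h1 : ∀ i : Fin m, pr (fun f : ClauseList n m w =>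
      (posn col (!s) (f i)).card < 2 * v ∧ FalseOn col s (f i) x) ≤ (5 / 16) ^ w := by
    intro i
    have h2 := indep_fixed (ι := Fin m) {i} (fun c : (Fin w ↪ Fin n) × (Fin w → Bool) =>
      (posn col (!s) c).card < 2 * v ∧ FalseOn col s c x) _ (pr_poor hw hv col s hcol x)
    rw [card_singleton, pow_one] at h2
    simpa using h2
  refine (sum_le_sum fun i _ => h1 i).trans ?_
  rw [sum_const, card_univ, Fintype.card_fin, nsmul_eq_mul]
  have h2 : (m : ℝ) ≤ 3 ^ w := by exact_mod_cast hm
  calc (m : ℝ) * (5 / 16) ^ w ≤ 3 ^ w * (5 / 16) ^ w := by gcongr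
    _ = (15 / 16) ^ w := by
        rw [← mul_pow]
        norm_num

open scoped Classical in
/-- Markov's inequality for two independent variables. -/
theorem pr_markov {A B : Type*} [Fintype A] [Nonempty A] [Fintype B] [Nonempty B]
    (P : A → B → Prop) {q : ℝ} (hP : ∀ b, pr (fun a => P a b) ≤ q) :
    pr (fun a => ¬ 2 * (univ.filter fun b => P a b).card ≤ Fintype.card B) ≤ 2 * q := by
  have hA : (0 : ℝ) < Fintype.card A := by exact_mod_cast Fintype.card_pos
  have hB : (0 : ℝ) < Fintype.card B := by exact_mod_cast Fintype.card_pos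
  have h1 : ∑ a : A, ((univ.filter fun b => P a b).card : ℝ) =
      ∑ b : B, ((univ.filter fun a => P a b).card : ℝ) := by
    simp only [card_filter]
    push_cast
    exact sum_comm
  have h2 : ∑ b : B, ((univ.filter fun a => P a b).card : ℝ) ≤
      Fintype.card B * (q * Fintype.card A) := by
    rw [← nsmul_eq_mul, ← card_univ (α := B)]
    refine sum_le_card_nsmul _ _ _ fun b _ => ?_
    rw [pr_card]
    gcongr
    exact hP b
  have h3 : ((univ.filter fun a => ¬ 2 * (univ.filter fun b => P a b).card ≤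
      Fintype.card B).card : ℝ) * (Fintype.card B / 2) ≤
      ∑ a : A, ((univ.filter fun b => P a b).card : ℝ) := by
    refine le_trans ?_ (sum_le_sum_of_subset_of_nonneg (filter_subset (fun a =>
      ¬ 2 * (univ.filter fun b => P a b).card ≤ Fintype.card B) univ) fun _ _ _ => by positivity)
    rw [← nsmul_eq_mul]
    refine card_nsmul_le_sum _ _ _ fun a ha => ?_
    have := (mem_filter.1 ha).2
    push Not at this
    have h4 : (Fintype.card B : ℝ) < 2 * (univ.filter fun b => P a b).card := by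
      exact_mod_cast this
    linarith
  rw [pr_card] at h3
  have h5 := h3.trans (h1.le.trans h2)
  have h6 : pr (fun a => ¬ 2 * (univ.filter fun b => P a b).card ≤ Fintype.card B) *
      (Fintype.card A * (Fintype.card B / 2)) ≤ 2 * q * (Fintype.card A * (Fintype.card B / 2)) := by
    nlinarith
  exact le_of_mul_le_mul_right h6 (by positivity)

end Pool.Agent.MP_9cec2c_lc.LovSch
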