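import Pool.Agent.Lib.MP_9cec2c_lc.Mg.G063
import Pool.Agent.Lib.MP_9cec2c_lc.LRHalf

/-!
The lower bound for random CNFs and several orders.
-/

set_option autoImplicit false
set_option linter.unusedSectionVars false

namespace Pool.Agent.MP_9cec2c_lc.LovSch

open Finset
open Pool.Agent.MP_9cec2c_lc.SubstRed
open Pool.Agent.MP_9cec2c_lc.FormulaLines

variable {n m w : ℕ}

/-- The number of inputs outside which a line is not approximated is small. -/
theorem wmix_le {n k r : ℕ} (hk : 1024 ≤ k) (hn : n ≤ k) (hr : 1 ≤ r) (hrk : r ≤ k) :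
    wmix ((k + 1) * k * (k * k)) r (n + 1) 1 ≤ k ^ (26 * r) := by
  obtain ⟨κ, hκ⟩ : ∃ κ, κ = (k + 1) * k * (k * k) := ⟨_, rfl⟩
  have h0 : κ ≤ k ^ 5 := by
    rw [hκ]
    calc (k + 1) * k * (k * k) ≤ (k * k) * k * (k * k) := by
          gcongr
          nlinarith
      _ = k ^ 5 := by ring
  rw [← hκ]
  have h1 : κ * r ≤ k ^ 6 := by
    calc κ * r ≤ k ^ 5 * k := Nat.mul_le_mul h0 hrk
      _ = k ^ 6 := by ring
  have h2 : 4 * (κ * r) * r ≤ k ^ 8 := by
    calc 4 * (κ * r) * r ≤ k * k ^ 6 * k := by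
          gcongr
          omega
      _ = k ^ 8 := by ring
  have h3 : (n + 1) * (κ * r) ≤ k ^ 8 := by
    calc (n + 1) * (κ * r) ≤ (k * k) * k ^ 6 := by
          gcongr
          nlinarith
      _ = k ^ 8 := by ring
  have h4 : 4 * (κ * r) * r + (n + 1) * (κ * r) ≤ k ^ 9 := by
    calc 4 * (κ * r) * r + (n + 1) * (κ * r) ≤ k ^ 8 + k ^ 8 := Nat.add_le_add h2 h3
      _ = 2 * k ^ 8 := by ring
      _ ≤ k * k ^ 8 := Nat.mul_le_mul_right _ (by omega)
      _ = k ^ 9 := by ring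
  have h5 : 8 * (κ * r) ≤ k ^ 7 := by
    calc 8 * (κ * r) ≤ k * k ^ 6 := Nat.mul_le_mul (by omega) h1
      _ = k ^ 7 := by ring
  unfold wmix
  calc r * ((4 * (κ * r) * r + (n + 1) * (κ * r)) ^ r *
        (8 * (κ * r) * ((4 * (κ * r) * r) ^ r * 1))) + r ^ r * 1
      ≤ k * ((k ^ 9) ^ r * (k ^ 7 * ((k ^ 8) ^ r * 1))) + k ^ r * 1 := by gcongr
    _ = k ^ (17 * r + 8) + k ^ r := by
        rw [← pow_mul, ← pow_mul]
        ring
    _ ≤ k ^ (17 * r + 8) + k ^ (17 * r + 8) :=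
        Nat.add_le_add_left (Nat.pow_le_pow_right (by omega) (by omega)) _
    _ = 2 * k ^ (17 * r + 8) := by ring
    _ ≤ k * k ^ (17 * r + 8) := Nat.mul_le_mul_right _ (by omega)
    _ = k ^ (17 * r + 9) := by ring
    _ ≤ k ^ (26 * r) := Nat.pow_le_pow_right (by omega) (by omega)

open scoped Classical in
/-- The deterministic part of the lower bound. -/
theorem odet {E A K k v u r D : ℕ} (hE : 1 ≤ E) (hEA : E ≤ A) (hK : 1024 * A ≤ K) (hn : K ≤ n)
    (hk : n ≤ k) (hw : k ^ K ≤ 2 ^ w) (hwn : K * w ≤ n) (hv0 : 1 ≤ v) (hwv : w ≤ E * v)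
    (hvw : v ≤ w) (hr : r = n / (A * v)) {f : ClauseList n m w} {ρ : Fin n → Bool}
    (hf : Wide v u r f ρ) {Q : Set (Equiv.Perm (Fin n))} {B₁ B₂ : Finset (Fin n)}
    (hd : Disjoint B₁ B₂) (hb0 : 0 < n / D) (hb1 : n / D ≤ B₁.card)
    (hb2 : n / D ≤ B₂.card) (hsep : ∀ o ∈ Q, Sep o B₁ B₂)
    (hbad1 : 2 * (univ.filter fun x => OBad B₁ B₂ ρ v u f x).card ≤ 2 ^ n)
    (hbad2 : 2 * (univ.filter fun x => OBad B₂ B₁ ρ v u f x).card ≤ 2 ^ n)
    (R S : ℕ) (L : Fin S → (Fin n → Bool) → Prop) (hR : 0 < R)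
    (href : IsORefutation D k R Q (toCNF f) L) : 2 ^ (n / K) ≤ S * R := by
  by_contra hcon
  push Not at hcon
  have hk3 : 1024 ≤ k := by omega
  have hAv : A * v * 1024 ≤ n := by
    calc A * v * 1024 = 1024 * A * v := by ring
      _ ≤ K * v := Nat.mul_le_mul_right _ hK
      _ ≤ K * w := Nat.mul_le_mul_left _ hvw
      _ ≤ n := hwn
  have hAv0 : 0 < A * v := Nat.mul_pos (by omega) (by omega)
  have hr1 : 1 < r := by
    rw [hr]
    have : 2 ≤ n / (A * v) := by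
      rw [Nat.le_div_iff_mul_le hAv0]
      omega
    omega
  have hmod := Nat.div_add_mod n (A * v)
  have hlt := Nat.mod_lt n hAv0
  rw [← hr] at hmod
  have hvr : v * r ≤ n := by
    have : v * r ≤ A * v * r := by
      rw [mul_assoc]
      exact Nat.le_mul_of_pos_left _ (by omega)
    omega
  have hvr2 : n ≤ 2 * (A * (v * r)) := by
    have e1 : A * v * r = A * (v * r) := by ring
    have e2 : A * v ≤ A * v * r := Nat.le_mul_of_pos_right _ (by omega)
    omega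
  have hrk : r ≤ k := le_trans (by rw [hr]; exact Nat.div_le_self _ _) hk
  -- the size of a block
  have h2v : k ^ 64 ≤ 2 ^ v := by
    have h1 : (k ^ 64) ^ E ≤ (2 ^ v) ^ E := by
      rw [← pow_mul, ← pow_mul]
      calc k ^ (64 * E) ≤ k ^ K := Nat.pow_le_pow_right (by omega) (by omega)
        _ ≤ 2 ^ w := hw
        _ ≤ 2 ^ (v * E) := Nat.pow_le_pow_right (by norm_num) (by rw [mul_comm]; exact hwv)
    exact (Nat.pow_le_pow_iff_left (by omega)).1 h1
  obtain ⟨q, hq⟩ : ∃ q, q = n / K := ⟨_, rfl⟩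
  have hKq : K * q ≤ n := by
    rw [hq]
    exact Nat.mul_div_le n K
  rw [← hq] at hcon
  have hq1 : 512 * q ≤ v * r := by
    have e1 : A * (1024 * q) ≤ A * (2 * (v * r)) := by
      calc A * (1024 * q) = 1024 * A * q := by ring
        _ ≤ K * q := Nat.mul_le_mul_right _ hK
        _ ≤ n := hKq
        _ ≤ 2 * (A * (v * r)) := hvr2
        _ = A * (2 * (v * r)) := by ring
    have := Nat.le_of_mul_le_mul_left e1 (by omega)
    omega
  have hq2 : 512 ≤ v * r := by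
    have e1 : A * 1024 ≤ A * (2 * (v * r)) := by
      calc A * 1024 = 1024 * A := by ring
        _ ≤ K := hK
        _ ≤ n := hn
        _ ≤ 2 * (A * (v * r)) := hvr2
        _ = A * (2 * (v * r)) := by ring
    have := Nat.le_of_mul_le_mul_left e1 (by omega)
    omega
  have hbase := wmix_le (n := n) (r := r) hk3 hk (by omega) hrk
  have hSk : S * (2 * (k * (R * k))) + 1 ≤ 2 ^ (q + 1) * k ^ 2 := by
    have h1 : (S * R + 1) * (2 * k ^ 2) ≤ 2 ^ q * (2 * k ^ 2) := Nat.mul_le_mul_right _ hcon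
    have h2 : 1 ≤ 2 * k ^ 2 := by
      have : 0 < 2 * k ^ 2 := by positivity
      omega
    calc S * (2 * (k * (R * k))) + 1 ≤ S * (2 * (k * (R * k))) + 2 * k ^ 2 := by omega
      _ = (S * R + 1) * (2 * k ^ 2) := by ring
      _ ≤ 2 ^ q * (2 * k ^ 2) := h1
      _ = 2 ^ (q + 1) * k ^ 2 := by ring
  refine ocore (k := k) (v := v) (u := u) (r := r) hd hb0 hb1 hb2 hsep (by omega) hR hr1 hvr hf
    hbad1 hbad2 ?_ ?_ href
  · have hle : 4 * ((S * (2 * (k * (R * k))) + 1) *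
        wmix ((k + 1) * k * (k * k)) r (n + 1) 1) ≤ 2 ^ (q + 3) * k ^ (28 * r) := by
      calc 4 * ((S * (2 * (k * (R * k))) + 1) * wmix ((k + 1) * k * (k * k)) r (n + 1) 1)
          ≤ 4 * (2 ^ (q + 1) * k ^ 2 * k ^ (26 * r)) := by gcongr
        _ = 2 ^ (q + 3) * k ^ (26 * r + 2) := by
            rw [show q + 3 = (q + 1) + 2 by ring, pow_add 2 (q + 1) 2, pow_add k (26 * r) 2]
            ring
        _ ≤ 2 ^ (q + 3) * k ^ (28 * r) :=
            Nat.mul_le_mul_left _ (Nat.pow_le_pow_right (by omega) (by omega))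
    refine lt_of_le_of_lt hle ?_
    have hsq : (2 ^ (q + 3) * k ^ (28 * r)) ^ 2 < (2 ^ (v * r)) ^ 2 := by
      calc (2 ^ (q + 3) * k ^ (28 * r)) ^ 2
          = 2 ^ (2 * q + 6) * (k ^ 56) ^ r := by
            rw [mul_pow, ← pow_mul, ← pow_mul, ← pow_mul]
            congr 2 <;> ring
        _ ≤ 2 ^ (2 * q + 6) * (2 ^ v) ^ r :=
            Nat.mul_le_mul_left _ (Nat.pow_le_pow_left
              (le_trans (Nat.pow_le_pow_right (by omega) (by norm_num)) h2v) _)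
        _ = 2 ^ (2 * q + 6) * 2 ^ (v * r) := by rw [← pow_mul]
        _ < 2 ^ (v * r) * 2 ^ (v * r) := by
            refine Nat.mul_lt_mul_of_pos_right ?_ (by positivity)
            exact Nat.pow_lt_pow_right (by norm_num) (by omega)
        _ = (2 ^ (v * r)) ^ 2 := by ring
    exact lt_of_pow_lt_pow_left₀ 2 (by positivity) hsq
  · calc 4 * r ≤ 4 * k := by omega
      _ < k * k := Nat.mul_lt_mul_of_pos_right (by omega) (by omega)
      _ = k ^ 2 := by ring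
      _ ≤ k ^ 64 := Nat.pow_le_pow_right (by omega) (by norm_num)
      _ ≤ 2 ^ v := h2v

/-- Powers of `e`. -/
theorem exp_le_eight (j : ℕ) : Real.exp (2 * j) ≤ 8 ^ j := by
  have h1 : Real.exp (2 * (j : ℝ)) = (Real.exp 1 ^ 2) ^ j := by
    rw [← pow_mul, ← Real.exp_nat_mul]
    congr 1
    push_cast
    ring
  rw [h1]
  refine pow_le_pow_left₀ (by positivity) ?_ _
  have h2 := Real.exp_one_lt_d9
  have h3 := Real.exp_pos 1
  nlinarith

/-- A factor slightly larger than one. -/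
theorem one_add_le {D v j : ℕ} {a : ℝ} (ha0 : 0 ≤ a) (hD : 0 < D) (hw : w ≤ 256 * D * v)
    (ha : 128 * a ≤ j) : (1 + a / D) ^ w ≤ (8 ^ j) ^ v := by
  have hD0 : (0 : ℝ) < D := by exact_mod_cast hD
  have h1 : 1 + a / D ≤ Real.exp (a / D) := by
    have := Real.add_one_le_exp (a / D)
    linarith
  have hw' : (w : ℝ) ≤ 256 * D * v := by exact_mod_cast hw
  calc (1 + a / D) ^ w ≤ Real.exp (a / D) ^ w := pow_le_pow_left₀ (by positivity) h1 _
    _ = Real.exp (w * (a / D)) := by rw [Real.exp_nat_mul]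
    _ ≤ Real.exp (2 * ((j * v : ℕ) : ℝ)) := by
        refine Real.exp_le_exp.2 ?_
        calc (w : ℝ) * (a / D) ≤ 256 * D * v * (a / D) := by gcongr
          _ = 2 * (128 * a) * v := by
              field_simp
              ring
          _ ≤ 2 * (j : ℝ) * v := by gcongr
          _ = 2 * ((j * v : ℕ) : ℝ) := by
              push_cast
              ring
    _ ≤ 8 ^ (j * v) := exp_le_eight _
    _ = (8 ^ j) ^ v := pow_mul _ _ _

theorem half_m {D : ℕ} (hD : 2 ≤ D) (hm : (m : ℝ) ≤ (2 + 1 / (D - 1)) ^ w) :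
    (m : ℝ) * (1 / 2) ^ w ≤ (1 + 1 / D) ^ w := by
  have hD' : (2 : ℝ) ≤ D := by exact_mod_cast hD
  have h1 : (1 : ℝ) / (D - 1) ≤ 2 / D := by
    rw [div_le_div_iff₀ (by linarith) (by linarith)]
    linarith
  have h0 : (0 : ℝ) ≤ 1 / (D - 1) := by
    have : (0 : ℝ) < D - 1 := by linarith
    positivity
  calc (m : ℝ) * (1 / 2) ^ w ≤ (2 + 1 / (D - 1)) ^ w * (1 / 2) ^ w := by gcongr
    _ = ((2 + 1 / (D - 1)) * (1 / 2)) ^ w := (mul_pow _ _ _).symm
    _ ≤ (1 + 1 / D) ^ w := by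
        refine pow_le_pow_left₀ (by linarith) ?_ _
        have : (2 : ℝ) / D = 2 * (1 / D) := by ring
        linarith

/-- Small sets of variables are rarely dense in several clauses. -/
theorem onum1 {D v r g a c1 c2 : ℕ} (hD : 2 ≤ D) (hn : 0 < n) (hw : w ≤ 256 * D * v)
    (hm : (m : ℝ) ≤ (2 + 1 / (D - 1)) ^ w) (hc1 : c1 = 128) (hc2 : c2 = 512)
    (ha : a = 8 ^ c1 * 8 ^ c2 * 2 ^ 8)
    (hA : 3 * a * D ^ g * v * r ≤ n) :
    m * ((1 / 2) ^ w * ((D : ℝ) ^ (g * v) * (1 + 4 / D) ^ w)) *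
      (3 * (v * r : ℕ) / n : ℝ) ^ v ≤ (1 / 2 ^ 8) ^ v := by
  have hD0 : (0 : ℝ) < D := by exact_mod_cast (by omega : 0 < D)
  have hn' : (0 : ℝ) < n := by exact_mod_cast hn
  have h1 : (m : ℝ) * (1 / 2) ^ w ≤ (8 ^ c1) ^ v :=
    (half_m hD hm).trans (one_add_le (by norm_num) (by omega) hw (by rw [hc1]; norm_num))
  have h2 : (1 + 4 / (D : ℝ)) ^ w ≤ (8 ^ c2) ^ v :=
    one_add_le (by norm_num) (by omega) hw (by rw [hc2]; norm_num)
  clear hc1 hc2
  have ha0 : (0 : ℝ) < a := by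
    rw [ha]
    positivity
  have h3 : (3 * (v * r : ℕ) / n : ℝ) ≤ 1 / (a * (D : ℝ) ^ g) := by
    rw [div_le_div_iff₀ hn' (by positivity), one_mul]
    have e1 : ((3 * a * D ^ g * v * r : ℕ) : ℝ) ≤ (n : ℝ) := by exact_mod_cast hA
    push_cast at e1 ⊢
    refine le_trans (le_of_eq ?_) e1
    ring
  obtain ⟨p, hp⟩ : ∃ p : ℝ, p = 8 ^ c1 := ⟨_, rfl⟩
  obtain ⟨q, hq⟩ : ∃ q : ℝ, q = 8 ^ c2 := ⟨_, rfl⟩
  have hp0 : 0 < p := by rw [hp]; positivity
  have hq0 : 0 < q := by rw [hq]; positivity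
  have haq : (a : ℝ) = p * q * 2 ^ 8 := by
    rw [ha, hp, hq]
    push_cast
    norm_num
  rw [← hp] at h1
  rw [← hq] at h2
  rw [haq] at h3
  calc m * ((1 / 2) ^ w * ((D : ℝ) ^ (g * v) * (1 + 4 / D) ^ w)) *
      (3 * (v * r : ℕ) / n : ℝ) ^ v
      = (m * (1 / 2) ^ w) * ((D : ℝ) ^ g) ^ v * (1 + 4 / D) ^ w *
          (3 * (v * r : ℕ) / n : ℝ) ^ v := by
        rw [← pow_mul]
        ring
    _ ≤ p ^ v * ((D : ℝ) ^ g) ^ v * q ^ v * (1 / (p * q * 2 ^ 8 * (D : ℝ) ^ g)) ^ v := by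
        gcongr
    _ = (p * (D : ℝ) ^ g * q * (1 / (p * q * 2 ^ 8 * (D : ℝ) ^ g))) ^ v := by
        rw [← mul_pow, ← mul_pow, ← mul_pow]
    _ = (1 / 2 ^ 8) ^ v := by
        congr 1
        field_simp

/-- The expected weight of the clauses that are off balance is small. -/
theorem onum2 {D v g : ℕ} (hD : 2 ≤ D) (hv : 2 ≤ v) (hg : g = 3 * 128 + 3 * 768 + 5)
    (hv1 : 128 * D * v ≤ w) (hw : w ≤ 256 * D * v) (hm : (m : ℝ) ≤ (2 + 1 / (D - 1)) ^ w) :
    256 * (m * (2 * (8 ^ (2 * v) * (1 - 3 / 4 * (63 / (64 * D))) ^ w) +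
      (1 / 2) ^ (g * v) * (1 + 3 * (2 / D)) ^ w)) ≤ (2 : ℝ) ^ w := by
  have hD' : (2 : ℝ) ≤ D := by exact_mod_cast hD
  have hD0 : (0 : ℝ) < D := by linarith
  obtain ⟨d, hd⟩ : ∃ d : ℝ, d = 1 / D := ⟨_, rfl⟩
  have hd0 : 0 < d := by
    rw [hd]
    positivity
  have hd2 : d ≤ 1 / 2 := by
    rw [hd]
    exact one_div_le_one_div_of_le (by norm_num) hD'
  have h2w : (0 : ℝ) < 2 ^ w := by positivity
  -- the first term
  have t1 : (m : ℝ) * (8 ^ (2 * v) * (1 - 3 / 4 * (63 / (64 * D))) ^ w) ≤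
      (1 / 32) ^ v * 2 ^ w := by
    have e1 : (3 : ℝ) / 4 * (63 / (64 * D)) = 189 / 256 * d := by
      rw [hd]
      field_simp
      norm_num
    have hd1 : (0 : ℝ) < 1 - d := by linarith
    have hdd : (1 : ℝ) / (D - 1) = d / (1 - d) := by
      rw [hd]
      have : (0 : ℝ) < D - 1 := by linarith
      field_simp
    have e2 : (2 + 1 / ((D : ℝ) - 1)) * (1 - 189 / 256 * d) ≤ 2 * (1 - d / 16) := by
      rw [hdd]
      have e0 : (2 + d / (1 - d)) * (1 - 189 / 256 * d) =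
          (2 - d) * (1 - 189 / 256 * d) / (1 - d) := by
        field_simp
        ring
      rw [e0, div_le_iff₀ hd1]
      nlinarith
    have e3 : 1 - d / 16 ≤ Real.exp (-(d / 16)) := by
      have := Real.add_one_le_exp (-(d / 16))
      linarith
    have e4 : (1 - d / 16) ^ w ≤ (1 / 2048) ^ v := by
      have e5 : Real.exp (-8) ≤ 1 / 2048 := by
        rw [Real.exp_neg, one_div]
        refine inv_anti₀ (by norm_num) ?_
        have e6 : Real.exp 8 = Real.exp 1 ^ 8 := by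
          rw [← Real.exp_nat_mul]
          norm_num
        rw [e6]
        have e7 := Real.exp_one_gt_d9
        calc (2048 : ℝ) ≤ 2.7 ^ 8 := by norm_num
          _ ≤ Real.exp 1 ^ 8 := pow_le_pow_left₀ (by norm_num) (by linarith) _
      have hv1' : 128 * (D : ℝ) * v ≤ w := by exact_mod_cast hv1
      have hDd : (D : ℝ) * d = 1 := by
        rw [hd]
        field_simp
      calc (1 - d / 16) ^ w ≤ Real.exp (-(d / 16)) ^ w :=
            pow_le_pow_left₀ (by linarith) e3 _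
        _ = Real.exp (w * (-(d / 16))) := by rw [Real.exp_nat_mul]
        _ ≤ Real.exp (v * (-8)) := by
            refine Real.exp_le_exp.2 ?_
            have : (v : ℝ) * 8 = 128 * (D * d) * v / 16 := by
              rw [hDd]
              ring
            nlinarith
        _ = Real.exp (-8) ^ v := by rw [Real.exp_nat_mul]
        _ ≤ (1 / 2048) ^ v := pow_le_pow_left₀ (Real.exp_pos _).le e5 _
    rw [e1]
    have hb : (0 : ℝ) ≤ 1 - 189 / 256 * d := by linarith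
    have hb' : (0 : ℝ) ≤ 1 / ((D : ℝ) - 1) := by
      have : (0 : ℝ) < D - 1 := by linarith
      positivity
    calc (m : ℝ) * (8 ^ (2 * v) * (1 - 189 / 256 * d) ^ w)
        ≤ (2 + 1 / ((D : ℝ) - 1)) ^ w * (8 ^ (2 * v) * (1 - 189 / 256 * d) ^ w) :=
          mul_le_mul_of_nonneg_right hm (by positivity)
      _ = 8 ^ (2 * v) * ((2 + 1 / ((D : ℝ) - 1)) * (1 - 189 / 256 * d)) ^ w := by
          rw [mul_pow]
          ring
      _ ≤ 8 ^ (2 * v) * (2 * (1 - d / 16)) ^ w := by gcongr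
      _ = 8 ^ (2 * v) * (1 - d / 16) ^ w * 2 ^ w := by
          rw [mul_pow]
          ring
      _ ≤ 8 ^ (2 * v) * (1 / 2048) ^ v * 2 ^ w := by gcongr
      _ = (1 / 32) ^ v * 2 ^ w := by
          rw [pow_mul, ← mul_pow]
          norm_num
  -- the second term
  have t2 : (m : ℝ) * ((1 / 2) ^ (g * v) * (1 + 3 * (2 / D)) ^ w) ≤
      (1 / 32) ^ v * 2 ^ w := by
    have e1 := (half_m hD hm).trans (one_add_le (j := 128) (by norm_num) (by omega) hw
      (by norm_num))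
    have e2 : (1 + 3 * (2 / (D : ℝ))) ^ w ≤ (8 ^ 768) ^ v := by
      have e3 : (3 : ℝ) * (2 / D) = 6 / D := by ring
      rw [e3]
      exact one_add_le (by norm_num) (by omega) hw (by norm_num)
    have e4 : (1 / 2 : ℝ) ^ w * 2 ^ w = 1 := by
      rw [← mul_pow]
      norm_num
    have e5 : (8 : ℝ) ^ 128 * ((1 / 2) ^ g * 8 ^ 768) = 1 / 32 := by
      have e6 : ∀ j : ℕ, (8 : ℝ) ^ j * (1 / 2) ^ (3 * j) = 1 := by
        intro j
        rw [pow_mul, ← mul_pow]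
        norm_num
      rw [hg, pow_add, pow_add]
      have e7 := e6 128
      have e8 := e6 768
      calc (8 : ℝ) ^ 128 * ((1 / 2) ^ (3 * 128) * (1 / 2) ^ (3 * 768) * (1 / 2) ^ 5 * 8 ^ 768)
          = (8 ^ 128 * (1 / 2) ^ (3 * 128)) * (8 ^ 768 * (1 / 2) ^ (3 * 768)) * (1 / 2) ^ 5 := by
            generalize (8 : ℝ) ^ 128 = x1
            generalize (8 : ℝ) ^ 768 = x2
            generalize (1 / 2 : ℝ) ^ (3 * 128) = x3
            generalize (1 / 2 : ℝ) ^ (3 * 768) = x4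
            ring
        _ = 1 / 32 := by
            rw [e7, e8]
            norm_num
    obtain ⟨p, hp⟩ : ∃ p : ℝ, p = 8 ^ 128 := ⟨_, rfl⟩
    obtain ⟨q, hq⟩ : ∃ q : ℝ, q = 8 ^ 768 := ⟨_, rfl⟩
    have hp0 : 0 < p := by rw [hp]; positivity
    have hq0 : 0 < q := by rw [hq]; positivity
    rw [← hp, ← hq] at e5
    rw [← hp] at e1
    rw [← hq] at e2
    have e9 : (m : ℝ) * ((1 / 2) ^ (g * v) * (1 + 3 * (2 / D)) ^ w) =
        (m * (1 / 2) ^ w) * ((1 / 2) ^ (g * v) * (1 + 3 * (2 / D)) ^ w) * 2 ^ w := by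
      calc (m : ℝ) * ((1 / 2) ^ (g * v) * (1 + 3 * (2 / D)) ^ w)
          = (m : ℝ) * ((1 / 2) ^ (g * v) * (1 + 3 * (2 / D)) ^ w) * ((1 / 2) ^ w * 2 ^ w) := by
            rw [e4, mul_one]
        _ = _ := by ring
    rw [e9]
    calc (m * (1 / 2) ^ w) * ((1 / 2) ^ (g * v) * (1 + 3 * (2 / (D : ℝ))) ^ w) * 2 ^ w
        ≤ p ^ v * ((1 / 2) ^ (g * v) * q ^ v) * 2 ^ w := by gcongr
      _ = (p * ((1 / 2) ^ g * q)) ^ v * 2 ^ w := by
          rw [mul_pow p, mul_pow ((1 / 2) ^ g : ℝ), ← pow_mul (1 / 2 : ℝ)]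
      _ = (1 / 32) ^ v * 2 ^ w := by rw [e5]
  have t3 : (1 / 32 : ℝ) ^ v ≤ 1 / 1024 := by
    calc (1 / 32 : ℝ) ^ v ≤ (1 / 32) ^ 2 :=
          pow_le_pow_of_le_one (by norm_num) (by norm_num) hv
      _ = 1 / 1024 := by norm_num
  have t4 := mul_le_mul_of_nonneg_right t3 h2w.le
  linarith

/-- The main result. -/
theorem random_aux {D n k N w m K a g c1 c2 : ℕ} (hD2 : 2 ≤ D) (hc1 : c1 = 128)
    (hc2 : c2 = 512) (ha : a = 8 ^ c1 * 8 ^ c2 * 2 ^ 8) (hg : g = 3 * 128 + 3 * 768 + 5)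
    (hKl : K = D ^ (12 + a + g)) (hn : K ≤ n) (hk : n ≤ k) (hw : k ^ K ≤ 2 ^ w)
    (hkN : k ≤ N) (hN : N ^ K ≤ 2 ^ w) (hwn : K * w ≤ n) (hm1 : n * 2 ^ w ≤ m)
    (hm3 : (m : ℝ) ≤ (2 + 1 / (D - 1)) ^ w) :
    N * {f : ClauseList n m w | ¬ OHard D k (2 ^ (n / K)) (toCNF f)}.ncard ≤
      Fintype.card (ClauseList n m w) := by
  classical
  have ha0 : 2 ^ 8 ≤ a := by
    rw [ha]
    exact Nat.le_mul_of_pos_left _ (by positivity)
  have hg0 : 0 < g := by omega
  have hnum := fun (v r : ℕ) (h1 : w ≤ 256 * D * v) (h2 : (m : ℝ) ≤ (2 + 1 / (D - 1)) ^ w)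
    (h3 : 3 * a * D ^ g * v * r ≤ n) (h4 : 0 < n) =>
    onum1 (g := g) hD2 h4 h1 h2 hc1 hc2 ha h3
  have hnum2 := fun (v : ℕ) (hv : 2 ≤ v) (h1 : 128 * D * v ≤ w) (h2 : w ≤ 256 * D * v)
    (h3 : (m : ℝ) ≤ (2 + 1 / (D - 1)) ^ w) => onum2 hD2 hv hg h1 h2 h3
  clear hg ha hc1 hc2
  obtain ⟨A, hA⟩ : ∃ A, A = 3 * a * D ^ g := ⟨_, rfl⟩
  have hDA : 256 * D ≤ A := by
    rw [hA]
    have h1 : D ≤ D ^ g := Nat.le_self_pow (by omega) D
    refine Nat.mul_le_mul ?_ h1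
    have : 256 ≤ a := ha0
    omega
  have hK : 1024 * A ≤ K := by
    rw [hKl, hA]
    have h1 : 2 ^ 12 ≤ D ^ 12 := Nat.pow_le_pow_left hD2 12
    have h2 : a ≤ D ^ a := (Nat.lt_pow_self (by omega)).le
    calc 1024 * (3 * a * D ^ g) = 3072 * (a * D ^ g) := by ring
      _ ≤ D ^ 12 * (D ^ a * D ^ g) := by
          gcongr
          exact le_trans (by norm_num) h1
      _ = D ^ (12 + a + g) := by
          rw [pow_add, pow_add]
          ring
  clear hKl
  have hwK : K ≤ w := by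
    have h1 : 2 ^ K ≤ 2 ^ w := le_trans (Nat.pow_le_pow_left (by omega) _) hw
    exact (Nat.pow_le_pow_iff_right (by norm_num)).1 h1
  have hwn' : w ≤ n := le_trans (Nat.le_mul_of_pos_left _ (by omega)) hwn
  have hne := nonempty_emb hwn'
  have hn0 : 0 < n := by omega
  have hn' : (0 : ℝ) < n := by exact_mod_cast hn0
  have hD' : (2 : ℝ) ≤ D := by exact_mod_cast hD2
  have hD0 : (0 : ℝ) < D := by linarith
  obtain ⟨v, hv⟩ : ∃ v, v = w / (128 * D) := ⟨_, rfl⟩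
  have hB0 : 0 < 128 * D := by positivity
  have hBv : 128 * D * v ≤ w := by
    rw [hv]
    exact Nat.mul_div_le _ _
  have hv0 : 1024 ≤ v := by
    rw [hv, Nat.le_div_iff_mul_le hB0]
    omega
  have hwv : w ≤ 256 * D * v := by
    have h1 := Nat.div_add_mod w (128 * D)
    have h2 := Nat.mod_lt w hB0
    rw [← hv] at h1
    have h3 : 128 * D ≤ 128 * D * v := Nat.le_mul_of_pos_right _ (by omega)
    have h4 : 256 * D * v = 2 * (128 * D * v) := by ring
    omega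
  obtain ⟨r, hr⟩ : ∃ r, r = n / (A * v) := ⟨_, rfl⟩
  have hmul : A * v * r ≤ n := by
    rw [hr]
    exact Nat.mul_div_le n (A * v)
  have hvr : v * r ≤ n := by
    have : v * r ≤ A * v * r := by
      rw [mul_assoc]
      exact Nat.le_mul_of_pos_left _ (by omega)
    omega
  have hvw : v ≤ w := le_trans (Nat.le_mul_of_pos_left _ hB0) hBv
  obtain ⟨b, hb⟩ : ∃ b, b = n / D := ⟨_, rfl⟩
  have hb0 : 0 < b := by
    rw [hb]
    exact Nat.div_pos (by omega) (by omega)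
  have hDn : 64 * D ≤ n := by omega
  have hz : (63 : ℝ) / (64 * D) ≤ (b : ℝ) / n := by
    have h1 : n < D * (b + 1) := by
      rw [hb]
      exact Nat.lt_mul_div_succ n (by omega)
    have h2 : (n : ℝ) < D * (b + 1) := by exact_mod_cast h1
    have h3 : 64 * (D : ℝ) ≤ n := by exact_mod_cast hDn
    rw [div_le_div_iff₀ (by positivity) hn']
    nlinarith
  have hz' : 2 * (b : ℝ) / n ≤ 2 / D := by
    have h1 : D * b ≤ n := by
      rw [hb]
      exact Nat.mul_div_le n D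
    have h2 : (D : ℝ) * b ≤ n := by exact_mod_cast h1
    rw [div_le_div_iff₀ hn' hD0]
    nlinarith
  have hk3 : 1024 ≤ k := by omega
  have hk0 : (0 : ℝ) < N := by
    have : 0 < N := by omega
    exact_mod_cast this
  have hn2 : (4096 * n) ^ 2 ≤ 2 ^ w := by
    calc (4096 * n) ^ 2 ≤ (k ^ 2 * k) ^ 2 := by
          gcongr
          nlinarith
      _ = k ^ 6 := by ring
      _ ≤ k ^ K := Nat.pow_le_pow_right (by omega) (by omega)
      _ ≤ 2 ^ w := hw
  have hk2 : N ^ 2 ≤ 2 ^ v := by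
    have h1 : (N ^ 2) ^ (256 * D) ≤ (2 ^ v) ^ (256 * D) := by
      rw [← pow_mul, ← pow_mul]
      calc N ^ (2 * (256 * D)) ≤ N ^ K := Nat.pow_le_pow_right (by omega) (by omega)
        _ ≤ 2 ^ w := hN
        _ ≤ 2 ^ (v * (256 * D)) :=
            Nat.pow_le_pow_right (by norm_num) (by rw [mul_comm v]; exact hwv)
    exact (Nat.pow_le_pow_iff_left (by positivity)).1 h1
  have hkv : (1 / 2 ^ 8 : ℝ) ^ v ≤ 1 / (64 * N) := by
    have h1 : (N : ℝ) ^ 2 ≤ 2 ^ v := by exact_mod_cast hk2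
    have h2 : 64 * (N : ℝ) ≤ N ^ 2 := by
      have : (1024 : ℝ) ≤ N := by exact_mod_cast (by omega : 1024 ≤ N)
      nlinarith
    calc (1 / 2 ^ 8 : ℝ) ^ v ≤ (1 / 2) ^ v := by
          refine pow_le_pow_left₀ (by norm_num) (by norm_num) _
      _ = 1 / 2 ^ v := by rw [one_div, inv_pow, one_div]
      _ ≤ 1 / (64 * N) := one_div_le_one_div_of_le (by positivity) (by linarith)
  have hP1 := hnum v r hwv hm3 (by rw [← hA]; exact hmul) hn0
  have hP2 := hP1.trans hkv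
  have hP3 : 1 / (64 * (N : ℝ)) ≤ 1 / 2 := by
    refine one_div_le_one_div_of_le (by norm_num) ?_
    have : (1024 : ℝ) ≤ N := by exact_mod_cast (by omega : 1024 ≤ N)
    linarith
  -- the three kinds of failure
  have key : pr (fun f : ClauseList n m w =>
      ¬ OHard D k (2 ^ (n / K)) (toCNF f)) ≤ 1 / N := by
    refine le_trans (pr_mono (q := fun f : ClauseList n m w =>
      (∃ x : Fin n → Bool, ∀ i, ¬ ∀ e, x ((f i).1 e) ≠ (f i).2 e) ∨
      ((∃ B₁ B₂ : Finset (Fin n), Disjoint B₁ B₂ ∧ B₁.card = b ∧ B₂.card = b ∧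
        2 ^ w < 16 * ∑ i, offw B₁ B₂ v (g * v) (f i)) ∨
      ¬ pr (fun ρ : Fin n → Bool => ¬ Wide v (g * v) r f ρ) ≤ 1 / 4))
      fun f hf => ?_) ?_
    · by_contra hcon
      rw [not_or, not_or, not_not] at hcon
      obtain ⟨h1, h2, h3⟩ := hcon
      push Not at h1 h2
      refine hf ⟨fun x => ?_, fun Q hQ R S L hR href => ?_⟩
      · obtain ⟨i, hi⟩ := h1 x
        refine ⟨_, mem_image_of_mem _ (mem_univ i), ?_⟩
        rintro ⟨l, hl, hl'⟩
        obtain ⟨e, -, rfl⟩ := mem_image.1 hl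
        exact hi e hl'
      · obtain ⟨B₁, B₂, hd0, g1, g2, g3⟩ := hQ
        rw [← hb] at g1 g2
        have g0 : ∀ o ∈ Q, Sep o B₁ B₂ := fun o ho => sep_of_lt
          (card_pos.1 (lt_of_lt_of_le hb0 g1)) (card_pos.1 (lt_of_lt_of_le hb0 g2)) (g3 o ho)
        obtain ⟨B₁', s1, c1⟩ := exists_subset_card_eq g1
        obtain ⟨B₂', s2, c2⟩ := exists_subset_card_eq g2
        have g4 : ∀ o ∈ Q, Sep o B₁' B₂' := fun o ho => (g0 o ho).mono s1 s2
        have hd : Disjoint B₁' B₂' := disjoint_of_subset_left s1 (disjoint_of_subset_right s2 hd0)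
        obtain ⟨ρ, g5, g6, g7⟩ := exists_rho (h2 B₁' B₂' hd c1 c2)
          (h2 B₂' B₁' hd.symm c2 c1) h3
        rw [hb] at hb0 c1 c2
        refine odet (ρ := ρ) (E := 256 * D) (by omega) hDA hK hn hk hw hwn (by omega) hwv hvw
          hr g5 hd hb0 c1.ge c2.ge g4 ?_ ?_ R S L hR href
        · convert g6
        · convert g7
    · have t1 := pr_sat hwn' hm1
      have t2 := pr_heavy hwn' hn0 (m := m) v (g * v) b hz hz' hn2
        (hnum2 v (by omega) hBv hwv hm3)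
      have t3 := pr_rarely_wide (m := m) hwn' hn0 (v := v) (u := g * v) (r := r) (by omega)
        hvr (D := (D : ℝ)) (by linarith) hP2 hP3
      refine (pr_or _ _).trans ((add_le_add t1 ((pr_or _ _).trans (add_le_add t2 t3))).trans ?_)
      have h0 : (1 / 2 : ℝ) ^ w ≤ 1 / (64 * N) := by
        refine le_trans ?_ hkv
        calc (1 / 2 : ℝ) ^ w ≤ (1 / 2) ^ (8 * v) := by
              refine pow_le_pow_of_le_one (by norm_num) (by norm_num) ?_
              refine le_trans (Nat.mul_le_mul_right _ ?_) hBv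
              omega
          _ = (1 / 2 ^ 8) ^ v := by
              rw [pow_mul]
              norm_num
      have h1 : (3 / 4 : ℝ) ^ n ≤ 1 / (64 * N) := by
        refine le_trans ?_ h0
        calc (3 / 4 : ℝ) ^ n ≤ (3 / 4) ^ (5 * w) :=
              pow_le_pow_of_le_one (by norm_num) (by norm_num) (le_trans
                (Nat.mul_le_mul_right _ (by omega)) hwn)
          _ = ((3 / 4) ^ 5) ^ w := pow_mul _ _ _
          _ ≤ (1 / 2) ^ w := pow_le_pow_left₀ (by norm_num) (by norm_num) _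
      have h2 : (1 / 4 : ℝ) ^ n ≤ 1 / (64 * N) := by
        refine le_trans ?_ h1
        exact pow_le_pow_left₀ (by norm_num) (by norm_num) _
      have h3 : 1 / (64 * (N : ℝ)) + (1 / (64 * N) + 8 * (1 / (64 * N))) ≤ 1 / N := by
        have h4 : 1 / (64 * (N : ℝ)) = 1 / 64 * (1 / N) := by
          field_simp
        rw [h4]
        have : 0 < 1 / (N : ℝ) := by positivity
        linarith
      linarith
  rw [pr_eq, div_le_iff₀ (by exact_mod_cast Fintype.card_pos)] at key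
  have h1 : {f : ClauseList n m w | ¬ OHard D k (2 ^ (n / K)) (toCNF f)}.ncard =
      (univ.filter fun f : ClauseList n m w =>
        ¬ OHard D k (2 ^ (n / K)) (toCNF f)).card := by
    rw [Set.ncard_eq_toFinset_card']
    congr 1
    ext f
    simp
  rw [h1]
  have h3 : (N : ℝ) * (univ.filter fun f : ClauseList n m w =>
      ¬ OHard D k (2 ^ (n / K)) (toCNF f)).card ≤
      Fintype.card (ClauseList n m w) := by
    calc (N : ℝ) * (univ.filter fun f : ClauseList n m w =>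
        ¬ OHard D k (2 ^ (n / K)) (toCNF f)).card
        ≤ N * (1 / N * Fintype.card (ClauseList n m w)) := by gcongr
      _ = Fintype.card (ClauseList n m w) := by
        field_simp
  exact_mod_cast h3

theorem random_orders : ∃ C : ℕ, ∀ D n k w m K : ℕ, 2 ≤ D → K = D ^ C → K ≤ n → n ≤ k →
    k ^ K ≤ 2 ^ w → K * w ≤ n → n * 2 ^ w ≤ m → (m : ℝ) ≤ (2 + 1 / (D - 1)) ^ w →
    2 ^ (w / K) * {f : ClauseList n m w | ¬ OHard D k (2 ^ (n / K)) (toCNF f)}.ncard ≤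
      Fintype.card (ClauseList n m w) := by
  obtain ⟨c1, hc1⟩ : ∃ c : ℕ, c = 128 := ⟨_, rfl⟩
  obtain ⟨c2, hc2⟩ : ∃ c : ℕ, c = 512 := ⟨_, rfl⟩
  obtain ⟨a, ha⟩ : ∃ a : ℕ, a = 8 ^ c1 * 8 ^ c2 * 2 ^ 8 := ⟨_, rfl⟩
  obtain ⟨g, hg⟩ : ∃ g : ℕ, g = 3 * 128 + 3 * 768 + 5 := ⟨_, rfl⟩
  refine ⟨12 + a + g, fun D n k w m K hD hKl hn hk hw hwn hm1 hm2 => ?_⟩
  have h1 : (2 ^ (w / K)) ^ K ≤ 2 ^ w := by
    rw [← pow_mul]
    exact Nat.pow_le_pow_right (by norm_num) (Nat.div_mul_le_self w K)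
  refine (Nat.mul_le_mul_right _ (le_max_right k (2 ^ (w / K)))).trans
    (random_aux hD hc1 hc2 ha hg hKl hn hk hw (le_max_left _ _) ?_ hwn hm1 hm2)
  rcases max_choice k (2 ^ (w / K)) with h | h <;> rw [h] <;> assumption

end Pool.Agent.MP_9cec2c_lc.LovSch
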