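import Pool.Agent.Lib.MP_9cec2c_lc.LODefs

/-!
The disjunction of a property with few subfunctions and of a linear inequality is a narrow line.
-/

set_option autoImplicit false

namespace Pool.Agent.MP_9cec2c_lc.LovSch

/-- For every initial segment of the order `π`, the property `P` has at most `R` subfunctions
obtained by fixing the variables in this segment. -/
def FewSub {n : ℕ} (R : ℕ) (π : Equiv.Perm (Fin n)) (P : (Fin n → Bool) → Prop) : Prop :=
  ∀ t, ∃ c : (Fin n → Bool) → Fin R, ∀ x y, c x = c y →
    ∀ z, P (splice π t x z) ↔ P (splice π t y z)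

theorem fewSub_narrow {n k R : ℕ} (D : ℕ) (hk : 0 < k) {π : Equiv.Perm (Fin n)}
    {P : (Fin n → Bool) → Prop} (hP : FewSub R π P) (a : Fin n → ℝ) (b : ℝ) :
    Narrow D k R π fun x => P x ∨ b ≤ ∑ v, if x v then a v else 0 := by
  classical
  intro t _ _
  obtain ⟨c, hc⟩ := hP t
  refine ⟨fun _ => c, fun _ _ => ⟨0, hk⟩,
    fun _ r z => if ∃ x, c x = r ∧ P (splice π t x z) then ∑ v, |a v| else
      (∑ v, if (π v : ℕ) < t then 0 else if z v then a v else 0) - b,
    fun _ _ x => ∑ v, if (π v : ℕ) < t then (if x v then a v else 0) else 0, fun x z => ?_⟩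
  have h1 : (∑ v, if splice π t x z v then a v else 0) =
      (∑ v, if (π v : ℕ) < t then 0 else if z v then a v else 0) +
        ∑ v, if (π v : ℕ) < t then (if x v then a v else 0) else 0 := by
    rw [← Finset.sum_add_distrib]
    refine Finset.sum_congr rfl fun v _ => ?_
    unfold splice
    split_ifs <;> simp
  beta_reduce
  rw [h1]
  by_cases hp : P (splice π t x z)
  · refine ⟨fun _ _ => ?_, fun _ => Or.inl hp⟩
    rw [if_pos ⟨x, rfl, hp⟩, ← Finset.sum_add_distrib]
    refine Finset.sum_nonneg fun v _ => ?_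
    have := neg_abs_le (a v)
    have := abs_nonneg (a v)
    split_ifs <;> linarith
  · have h2 : ¬ ∃ y, c y = c x ∧ P (splice π t y z) := by
      rintro ⟨y, h3, h4⟩
      exact hp ((hc y x h3 z).1 h4)
    simp only [if_neg h2, hp, false_or]
    constructor
    · intro h _
      linarith
    · intro h
      have := h ⟨0, hk⟩
      linarith

end Pool.Agent.MP_9cec2c_lc.LovSch
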