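import Mathlib

/-!
Refutations by inequalities, closed under all cuts of bounded dimension.
-/

set_option autoImplicit false

namespace Pool.Agent.MP_9cec2c_lc.LovSch

/-- A literal: the variable `l.1` if `l.2` is true, its negation if `l.2` is false. -/
abbrev Lit (V : Type) : Type := V × Bool

/-- A clause: a finite set of literals, read as their disjunction. -/
abbrev Clause (V : Type) : Type := Finset (Lit V)

/-- The assignment `x` satisfies the clause `C`. -/
def Holds {V : Type} (x : V → Bool) (C : Clause V) : Prop := ∃ l ∈ C, x l.1 = l.2

/-- The linear inequality `∑ v, coeff v * x v ≥ bound`. -/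
structure Ineq (V : Type) : Type where
  /-- The coefficients. -/
  coeff : V → ℝ
  /-- The right hand side. -/
  bound : ℝ

/-- The inequality is true for the assignment `x`. -/
def Ineq.Sat {V : Type} [Fintype V] (I : Ineq V) (x : V → Bool) : Prop :=
  I.bound ≤ ∑ v, if x v then I.coeff v else 0

/-- The counting condition `∑ v, coeff v * x v ∈ set`. -/
structure Count (V : Type) : Type where
  /-- The coefficients. -/
  coeff : V → ℤ
  /-- The allowed values. -/
  set : Set ℤ

/-- The counting condition is true for the assignment `x`. -/
def Count.Sat {V : Type} [Fintype V] (I : Count V) (x : V → Bool) : Prop :=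
  (∑ v, if x v then I.coeff v else 0) ∈ I.set

/-- A line: the disjunction of a clause, `w` counting conditions and one linear inequality. -/
structure Line (V : Type) (w : ℕ) : Type where
  /-- The clause. -/
  clause : Clause V
  /-- The counting conditions. -/
  side : Fin w → Count V
  /-- The linear inequality. -/
  main : Ineq V

/-- The line is true for the assignment `x`. -/
def Line.Sat {V : Type} [Fintype V] {w : ℕ} (L : Line V w) (x : V → Bool) : Prop :=
  Holds x L.clause ∨ (∃ i, (L.side i).Sat x) ∨ L.main.Sat x

/-- `L 0, ..., L (S - 1)` is a refutation of `F`.  The coefficients of the counting conditions are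
between `-k` and `k`.  Some line is false for all assignments.  Each line `L i`
* is implied by a clause of `F`, or
* is implied by at most `k` earlier lines, or
* is a cut of dimension at most `k`: there are real functions `h T` on the cube, where `T` ranges
  over the sets of at most `k` earlier lines, that span a space of dimension at most `k`, such
  that for every assignment that falsifies `L i`, the sum of all the `h T` is negative, but each
  `h T` for which all lines in `T` are true is nonnegative. -/
def IsRefutation {V : Type} [Fintype V] {w : ℕ} (k : ℕ) (F : Finset (Clause V)) {S : ℕ}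
    (L : Fin S → Line V w) : Prop :=
  (∀ i j v, |((L i).side j).coeff v| ≤ k) ∧ (∃ i, ∀ x, ¬ (L i).Sat x) ∧ ∀ i,
    (∃ C ∈ F, ∀ x, Holds x C → (L i).Sat x) ∨
    (∃ P : Finset (Fin S), P.card ≤ k ∧ (∀ j ∈ P, j < i) ∧
      ∀ x, (∀ j ∈ P, (L j).Sat x) → (L i).Sat x) ∨
    (∃ h : Finset (Fin S) → (V → Bool) → ℝ,
      Module.finrank ℝ (Submodule.span ℝ (Set.range h)) ≤ k ∧
      ∀ x, ¬ (L i).Sat x → ∑ T with T.card ≤ k ∧ ∀ j ∈ T, j < i, h T x < 0 ∧
        ∀ T : Finset (Fin S), T.card ≤ k → (∀ j ∈ T, j < i ∧ (L j).Sat x) → 0 ≤ h T x)

end Pool.Agent.MP_9cec2c_lc.LovSch
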