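import Pool.Agent.Lib.MP_9cec2c_lc.Mg.G052
import Pool.Agent.Lib.MP_9cec2c_lc.Mg.G056

/-!
The lower bound for CNFs whose clauses are spread out, for a fixed partition of the variables.
-/

set_option autoImplicit false
set_option linter.unusedSectionVars false

namespace Pool.Agent.MP_9cec2c_lc.LovSch

open Finset

variable {n m w : ℕ}

/-- The literals of the clause `c` of side `s` are false under `x`. -/
def FalseOn (col : Fin n → Bool) (s : Bool) (c : (Fin w ↪ Fin n) × (Fin w → Bool))
    (x : Fin n → Bool) : Prop :=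
  ∀ e, col (c.1 e) = s → x (c.1 e) ≠ c.2 e

/-- The positions of side `s` in the clause `c`. -/
def posn (col : Fin n → Bool) (s : Bool) (c : (Fin w ↪ Fin n) × (Fin w → Bool)) :
    Finset (Fin w) := univ.filter fun e => col (c.1 e) = s

/-- The input `x` of side `s` falsifies its part of a clause with few literals of the other
side. -/
def Bad (col : Fin n → Bool) (v : ℕ) (f : ClauseList n m w) (s : Bool) (x : Fin n → Bool) :
    Prop :=
  ∃ i, (posn col (!s) (f i)).card < 2 * v ∧ FalseOn col s (f i) x

open scoped Classical in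
/-- The balanced clauses whose part of side `s` is false under `x`. -/
noncomputable def rhit (col : Fin n → Bool) (v : ℕ) (f : ClauseList n m w) (s : Bool)
    (x : Fin n → Bool) : Finset (Fin m) :=
  univ.filter fun i => 2 * v ≤ (posn col s (f i)).card ∧ FalseOn col s (f i) x

/-- The variables of side `s` in the clauses of `M`. -/
def rtouch (col : Fin n → Bool) (f : ClauseList n m w) (s : Bool) (M : Finset (Fin m)) :
    Finset (Fin n) := M.biUnion fun i => (posn col s (f i)).image (f i).1

/-- Few clauses touch many variables. -/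
def Spread (v r : ℕ) (f : ClauseList n m w) : Prop :=
  ∀ M : Finset (Fin m), M.card ≤ r → ∀ Z : Finset (Fin n),
    (∀ i ∈ M, 2 * v ≤ (univ.filter fun e => (f i).1 e ∈ Z).card) → v * M.card ≤ Z.card

/-- The assignment given by the inputs of the two sides. -/
def mix (col : Fin n → Bool) (x y : Fin n → Bool) : Fin n → Bool :=
  fun v => if col v then y v else x v

theorem mix_two (col : Fin n → Bool) {P Q : (Fin n → Bool) → Prop} :
    TwoSided fun (x : {x // P x}) (y : {y // Q y}) => mix col x.1 y.1 := by
  intro v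
  unfold mix
  cases h : col v
  · exact Or.inl ⟨fun x => x.1 v, fun x y => by simp [h]⟩
  · exact Or.inr ⟨fun y => y.1 v, fun x y => by simp [h]⟩

theorem rhit_touch {col : Fin n → Bool} {v r : ℕ} {f : ClauseList n m w} (hf : Spread v r f)
    {s : Bool} {x : Fin n → Bool} {M : Finset (Fin m)} (hM : M.card ≤ r)
    (hx : M ⊆ rhit col v f s x) : v * M.card ≤ (rtouch col f s M).card := by
  classical
  refine hf M hM _ fun i hi => ?_
  have h1 := (mem_filter.1 (hx hi)).2.1
  refine h1.trans (card_le_card ?_)
  intro e he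
  rw [mem_filter]
  refine ⟨mem_univ _, ?_⟩
  exact mem_biUnion.2 ⟨i, hi, mem_image_of_mem _ he⟩

/-- Inputs that falsify a set of clauses are rare. -/
theorem card_rhit (col : Fin n → Bool) (v : ℕ) (f : ClauseList n m w) (s : Bool)
    (M : Finset (Fin m)) :
    (univ.filter fun x => M ⊆ rhit col v f s x).card * 2 ^ (rtouch col f s M).card ≤ 2 ^ n := by
  classical
  rcases (univ.filter fun x => M ⊆ rhit col v f s x).eq_empty_or_nonempty with h0 | ⟨x0, hx0⟩
  · rw [h0, card_empty, zero_mul]
    exact Nat.zero_le _
  · have key : ∀ x ∈ univ.filter (fun x => M ⊆ rhit col v f s x),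
        ∀ u ∈ rtouch col f s M, x u = x0 u := by
      intro x hx u hu
      rw [mem_filter] at hx hx0
      unfold rtouch at hu
      rw [mem_biUnion] at hu
      obtain ⟨i, hi, hu⟩ := hu
      rw [mem_image] at hu
      obtain ⟨e, he, rfl⟩ := hu
      have he' := (mem_filter.1 he).2
      have h1 := (mem_filter.1 (hx.2 hi)).2.2 e he'
      have h2 := (mem_filter.1 (hx0.2 hi)).2.2 e he'
      revert h1 h2
      cases x ((f i).1 e) <;> cases x0 ((f i).1 e) <;> cases (f i).2 e <;> simp
    have h1 : (univ.filter fun x => M ⊆ rhit col v f s x) ⊆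
        Fintype.piFinset (fun u => if u ∈ rtouch col f s M then {x0 u} else univ) := by
      intro x hx
      rw [Fintype.mem_piFinset]
      intro u
      by_cases hu : u ∈ rtouch col f s M
      · rw [if_pos hu, mem_singleton]
        exact key x hx u hu
      · rw [if_neg hu]
        exact mem_univ _
    have h2 := card_le_card h1
    rw [Fintype.card_piFinset] at h2
    have h3 : ∏ u : Fin n, (if u ∈ rtouch col f s M then ({x0 u} : Finset Bool) else univ).card =
        2 ^ (n - (rtouch col f s M).card) := by
      have h4 : ∀ u : Fin n,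
          (if u ∈ rtouch col f s M then ({x0 u} : Finset Bool) else univ).card =
          if u ∈ rtouch col f s M then 1 else 2 := by
        intro u
        split_ifs
        · exact card_singleton _
        · rw [card_univ, Fintype.card_bool]
      simp only [h4]
      rw [prod_ite, prod_const_one, one_mul, prod_const]
      congr 1
      rw [filter_not, filter_mem_eq_inter, univ_inter, card_sdiff_of_subset (subset_univ _),
        card_univ, Fintype.card_fin]
    rw [h3] at h2
    have h5 : (rtouch col f s M).card ≤ n := by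
      have := card_le_univ (rtouch col f s M)
      rwa [Fintype.card_fin] at this
    calc (univ.filter fun x => M ⊆ rhit col v f s x).card * 2 ^ (rtouch col f s M).card
        ≤ 2 ^ (n - (rtouch col f s M).card) * 2 ^ (rtouch col f s M).card :=
          Nat.mul_le_mul_right _ h2
      _ = 2 ^ n := by
          rw [← pow_add]
          congr 1
          omega

theorem rhit_count {col : Fin n → Bool} {v r : ℕ} {f : ClauseList n m w} (hf : Spread v r f)
    (hvr : v * r ≤ n) (s : Bool) {M : Finset (Fin m)} {t : ℕ} (ht : t ≤ r) (hM : M.card = t) :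
    (univ.filter fun x => M ⊆ rhit col v f s x).card ≤ 2 ^ (n - v * t) := by
  classical
  rcases (univ.filter fun x => M ⊆ rhit col v f s x).eq_empty_or_nonempty with h0 | ⟨x0, hx0⟩
  · rw [h0, card_empty]
    exact Nat.zero_le _
  · have h1 := card_rhit col v f s M
    have h2 := rhit_touch hf (by omega) (mem_filter.1 hx0).2
    have h3 : 2 ^ (v * t) ≤ 2 ^ (rtouch col f s M).card :=
      Nat.pow_le_pow_right (by norm_num) (by rw [hM] at h2; exact h2)
    have h4 : v * t ≤ n := (Nat.mul_le_mul_left _ ht).trans hvr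
    have h5 : 2 ^ n = 2 ^ (n - v * t) * 2 ^ (v * t) := by
      rw [← pow_add]
      congr 1
      omega
    have h6 : (univ.filter fun x => M ⊆ rhit col v f s x).card * 2 ^ (v * t) ≤
        2 ^ (n - v * t) * 2 ^ (v * t) := by
      rw [← h5]
      exact (Nat.mul_le_mul_left _ h3).trans h1
    exact Nat.le_of_mul_le_mul_right h6 (by positivity)

/-- Counting in a subtype. -/
theorem card_sub_le {X : Type} [Fintype X] (P : X → Prop) [DecidablePred P] (Q : X → Prop)
    [DecidablePred Q] :
    (univ.filter fun x : {x // P x} => Q x.1).card ≤ (univ.filter Q).card := by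
  classical
  refine card_le_card_of_injOn (fun x => x.1) (fun x hx => ?_) fun a _ b _ h => Subtype.ext h
  have := (mem_filter.1 (mem_coe.1 hx)).2
  exact mem_coe.2 (mem_filter.2 ⟨mem_univ _, this⟩)

/-- A clause that is false is matched by both inputs. -/
theorem false_rclause {col : Fin n → Bool} {v : ℕ} {f : ClauseList n m w} {i : Fin m}
    {x y : Fin n → Bool} (hx : ¬ Bad col v f false x) (hy : ¬ Bad col v f true y)
    (h : ¬ Holds (mix col x y) (univ.image fun e => ((f i).1 e, (f i).2 e))) :
    i ∈ rhit col v f false x ∧ i ∈ rhit col v f true y := by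
  classical
  have h1 : ∀ e, mix col x y ((f i).1 e) ≠ (f i).2 e := by
    intro e he
    exact h ⟨((f i).1 e, (f i).2 e), mem_image_of_mem _ (mem_univ _), he⟩
  have h2 : FalseOn col false (f i) x := by
    intro e he
    have := h1 e
    unfold mix at this
    rw [he] at this
    simpa using this
  have h3 : FalseOn col true (f i) y := by
    intro e he
    have := h1 e
    unfold mix at this
    rw [he] at this
    simpa using this
  have h4 : 2 * v ≤ (posn col true (f i)).card := by
    by_contra hcon
    exact hx ⟨i, by simpa using hcon, h2⟩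
  have h5 : 2 * v ≤ (posn col false (f i)).card := by
    by_contra hcon
    exact hy ⟨i, by simpa using hcon, h3⟩
  exact ⟨mem_filter.2 ⟨mem_univ _, h5, h2⟩, mem_filter.2 ⟨mem_univ _, h4, h3⟩⟩

open scoped Classical in
/-- The lower bound in terms of the parameters. -/
theorem rcore {col : Fin n → Bool} {f : ClauseList n m w} {v r k k0 C S : ℕ} (hk : 0 < k)
    (hr : 1 < r) (hvr : v * r ≤ n) (hf : Spread v r f)
    (hbad : ∀ s, 2 * (univ.filter fun x => Bad col v f s x).card ≤ 2 ^ n)
    (hk0 : k0 = (2 * (n * k) + 1) ^ C)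
    (hS : 4 * ((S * k0 + 1) * (((k + 1) * k) * k0 * r) ^ r) < 2 ^ (v * r)) (hrv : 4 * r < 2 ^ v)
    {L : Fin S → Line (Fin n) C} (href : IsRefutation k (toCNF f) L) : False := by
  classical
  have hk0' : 1 ≤ k0 := by
    rw [hk0]
    exact Nat.one_le_pow _ _ (by omega)
  have hcard : Fintype.card (Fin n → Bool) = 2 ^ n := by
    rw [Fintype.card_fun, Fintype.card_fin, Fintype.card_bool]
  -- the inputs that do not falsify an unbalanced clause
  have hhalf : ∀ s, 2 ^ n ≤ 2 * Fintype.card {x // ¬ Bad col v f s x} := by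
    intro s
    have h1 := hbad s
    have h2 : Fintype.card {x // ¬ Bad col v f s x} =
        (univ.filter fun x => ¬ Bad col v f s x).card := Fintype.card_subtype _
    have h3 := card_filter_add_card_filter_not (s := (univ : Finset (Fin n → Bool)))
      (fun x => Bad col v f s x)
    rw [card_univ, hcard] at h3
    omega
  have hchoice : ∀ i, ∃ (α : Fin k0 → {x // ¬ Bad col v f false x} → EReal)
      (β : Fin k0 → {y // ¬ Bad col v f true y} → EReal),
      ∀ x y, ¬ (L i).Sat (mix col x.1 y.1) ↔ ∃ t, β t y < α t x := by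
    intro i
    rw [hk0]
    have := two_line (mix_two col (P := fun x => ¬ Bad col v f false x)
      (Q := fun y => ¬ Bad col v f true y)) (L i) (href.1 i)
    rw [Fintype.card_fin] at this
    exact this
  choose α β hαβ using hchoice
  -- the triangles of a finite set of lines
  obtain ⟨tr, htr⟩ : ∃ tr : Finset (Fin S) → Finset (Fin (S * k0)), tr = fun P =>
      (P ×ˢ (univ : Finset (Fin k0))).image finProdFinEquiv := ⟨_, rfl⟩
  have htr1 : ∀ P : Finset (Fin S), P.card ≤ (k + 1) * k → (tr P).card ≤ ((k + 1) * k) * k0 := by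
    intro P hP
    rw [htr]
    refine card_image_le.trans ?_
    rw [card_product, card_univ, Fintype.card_fin]
    exact Nat.mul_le_mul_right _ hP
  have htr2 : ∀ P : Finset (Fin S), ∀ (x : {x // ¬ Bad col v f false x})
      (y : {y // ¬ Bad col v f true y}), (∃ j ∈ P, ¬ (L j).Sat (mix col x.1 y.1)) →
      ∃ c ∈ tr P, β (finProdFinEquiv.symm c).1 (finProdFinEquiv.symm c).2 y <
        α (finProdFinEquiv.symm c).1 (finProdFinEquiv.symm c).2 x := by
    rintro P x y ⟨j, hj, hj'⟩
    obtain ⟨t, ht⟩ := (hαβ j x y).1 hj'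
    refine ⟨finProdFinEquiv (j, t), ?_, ?_⟩
    · rw [htr]
      exact mem_image_of_mem _ (mem_product.2 ⟨hj, mem_univ _⟩)
    · rw [Equiv.symm_apply_apply]
      exact ht
  obtain ⟨i0, hi0⟩ := href.2.1
  have h := tri_bound (U := {x // ¬ Bad col v f false x}) (V := {y // ¬ Bad col v f true y})
    (I := Fin m) (S := fun x => rhit col v f false x.1) (T := fun y => rhit col v f true y.1)
    (r := r) (s := r) (CU := 2 ^ (n - v * r))
    (CV := 2 ^ (n - v * r)) (k := ((k + 1) * k) * k0) (m := S * k0) (c1 := 2 ^ (n - v)) hr hr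
    (fun M hM => (card_sub_le _ fun x => M ⊆ rhit col v f false x).trans
      (rhit_count hf hvr false le_rfl hM))
    (fun M hM => (card_sub_le _ fun x => M ⊆ rhit col v f true x).trans
      (rhit_count hf hvr true le_rfl hM))
    (fun i => by
      have h1 := rhit_count (col := col) hf hvr false (M := {i}) (t := 1) (by omega)
        (card_singleton i)
      rw [mul_one] at h1
      simp only [singleton_subset_iff] at h1
      exact (card_sub_le _ fun x => i ∈ rhit col v f false x).trans h1)
    (fun c => α (finProdFinEquiv.symm c).1 (finProdFinEquiv.symm c).2)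
    (fun c => β (finProdFinEquiv.symm c).1 (finProdFinEquiv.symm c).2)
    (fun c => by
      obtain ⟨⟨i, t⟩, rfl⟩ := finProdFinEquiv.surjective c
      simp only [Equiv.symm_apply_apply]
      have hfl : ∀ x y, β i t y < α i t x → ¬ (L i).Sat (mix col x.1 y.1) :=
        fun x y hxy => (hαβ i x y).2 ⟨t, hxy⟩
      rcases reduce href i with ⟨B, hB, hB'⟩ | ⟨P, hP1, hP2, hP3⟩
      · left
        unfold toCNF at hB
        obtain ⟨i', -, rfl⟩ := mem_image.1 hB
        refine ⟨i', fun x y hxy => ?_⟩
        exact false_rclause x.2 y.2 (hB' _ (hfl x y hxy))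
      · right
        refine ⟨tr P, htr1 P hP1, fun c hc => ?_, fun x y hxy =>
          htr2 P x y (hP3 _ (hfl x y hxy))⟩
        rw [htr, mem_image] at hc
        obtain ⟨⟨j, t'⟩, hj, rfl⟩ := hc
        rw [mem_product] at hj
        have h1 : j < i := hP2 j hj.1
        rw [Fin.lt_def] at h1 ⊢
        simp only [finProdFinEquiv_apply_val]
        have h2 : (j : ℕ) + 1 ≤ i := h1
        have h3 := t'.2
        have h4 : k0 * ((j : ℕ) + 1) ≤ k0 * i := Nat.mul_le_mul_left _ h2
        rw [mul_add, mul_one] at h4
        omega)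
    ⟨tr {i0}, htr1 _ (by rw [card_singleton]; nlinarith), fun x y =>
      htr2 {i0} x y ⟨i0, mem_singleton_self _, hi0 _⟩⟩ (by
      have h1 : 2 ^ n = 2 ^ (n - v * r) * 2 ^ (v * r) := by
        rw [← pow_add]
        congr 1
        omega
      have h2 : (S * k0 + 1) * (r ^ r * 2 ^ (n - v * r)) =
          2 ^ (n - v * r) * ((S * k0 + 1) * r ^ r) := by ring
      have h0 := hhalf true
      have h3 : r ^ r ≤ (((k + 1) * k) * k0 * r) ^ r :=
        Nat.pow_le_pow_left (Nat.le_mul_of_pos_left _ (by positivity)) _
      have h4 : (S * k0 + 1) * r ^ r ≤ (S * k0 + 1) * (((k + 1) * k) * k0 * r) ^ r :=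
        Nat.mul_le_mul_left _ h3
      have h5 : 4 * ((S * k0 + 1) * r ^ r) < 2 ^ (v * r) := by omega
      have h6 : 2 ^ (n - v * r) * (4 * ((S * k0 + 1) * r ^ r)) <
          2 ^ (n - v * r) * 2 ^ (v * r) := Nat.mul_lt_mul_of_pos_left h5 (by positivity)
      rw [← h1] at h6
      have h7 : 2 ^ (n - v * r) * (4 * ((S * k0 + 1) * r ^ r)) =
          4 * (2 ^ (n - v * r) * ((S * k0 + 1) * r ^ r)) := by ring
      rw [h7] at h6
      rw [h2]
      omega)
  have h0 := hhalf false
  have hvn : v ≤ n := le_trans (by nlinarith) hvr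
  have h1 : 2 ^ n = 2 ^ (n - v * r) * 2 ^ (v * r) := by
    rw [← pow_add]
    congr 1
    omega
  have h2 : 2 ^ n = 2 ^ (n - v) * 2 ^ v := by
    rw [← pow_add]
    congr 1
    omega
  have h3 : 4 * ((S * k0 + 1) * ((((k + 1) * k) * k0 * r) ^ r * 2 ^ (n - v * r))) < 2 ^ n := by
    rw [h1]
    have h4 : 4 * ((S * k0 + 1) * ((((k + 1) * k) * k0 * r) ^ r * 2 ^ (n - v * r))) =
        2 ^ (n - v * r) * (4 * ((S * k0 + 1) * (((k + 1) * k) * k0 * r) ^ r)) := by ring
    rw [h4]
    exact Nat.mul_lt_mul_of_pos_left hS (by positivity)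
  have h5 : 4 * (r * 2 ^ (n - v)) < 2 ^ n := by
    rw [h2]
    have h4 : 4 * (r * 2 ^ (n - v)) = 2 ^ (n - v) * (4 * r) := by ring
    rw [h4]
    exact Nat.mul_lt_mul_of_pos_left hrv (by positivity)
  omega

end Pool.Agent.MP_9cec2c_lc.LovSch
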