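import Pool.Agent.Lib.MP_9cec2c_lc.Mg.G063
import Pool.Agent.Lib.MP_9cec2c_lc.LRHalf

/-!
The lower bound for random CNFs.
-/

set_option autoImplicit false
set_option linter.unusedSectionVars false

namespace Pool.Agent.MP_9cec2c_lc.LovSch

open Finset
open Pool.Agent.MP_9cec2c_lc.SubstRed
open Pool.Agent.MP_9cec2c_lc.FormulaLines

variable {n m w : ℕ}

/-- The two halves of the variables. -/
def half (n : ℕ) (u : Fin n) : Bool := decide ((u : ℕ) < n / 2)

theorem half_card (hn : 32 ≤ n) (s : Bool) :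
    64 * (univ.filter fun u : Fin n => half n u = s).card ≤ 33 * n := by
  classical
  have h1 : (univ.filter fun u : Fin n => half n u = true).card ≤ n / 2 := by
    have h2 : Finset.image (Fin.val : Fin n → ℕ) (univ.filter fun u : Fin n => half n u = true) ⊆
        range (n / 2) := by
      intro a ha
      obtain ⟨u, hu, rfl⟩ := mem_image.1 ha
      have := (mem_filter.1 hu).2
      unfold half at this
      rw [decide_eq_true_eq] at this
      exact mem_range.2 this
    have h3 := card_le_card h2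
    rwa [card_image_of_injective _ Fin.val_injective, card_range] at h3
  have h1' : n / 2 ≤ (univ.filter fun u : Fin n => half n u = true).card := by
    have h2 : range (n / 2) ⊆ Finset.image (Fin.val : Fin n → ℕ)
        (univ.filter fun u : Fin n => half n u = true) := by
      intro a ha
      have ha' := mem_range.1 ha
      refine mem_image.2 ⟨⟨a, by omega⟩, mem_filter.2 ⟨mem_univ _, ?_⟩, rfl⟩
      unfold half
      rw [decide_eq_true_eq]
      exact ha'
    have h3 := card_le_card h2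
    rwa [card_image_of_injective _ Fin.val_injective, card_range] at h3
  have h4 : (univ.filter fun u : Fin n => half n u = true).card +
      (univ.filter fun u : Fin n => ¬ half n u = true).card = n := by
    have := card_filter_add_card_filter_not (s := (univ : Finset (Fin n)))
      (fun u => half n u = true)
    rwa [card_univ, Fintype.card_fin] at this
  simp only [Bool.not_eq_true] at h4
  cases s
  · omega
  · omega

/-- The deterministic part of the lower bound. -/
theorem det_bound {A K k C v r : ℕ} (hA : 3 ≤ A) (hK : K = 1024 * A) (hn : K ≤ n) (hk : n ≤ k)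
    (hw : k ^ (K * (C + 1)) ≤ 2 ^ w) (hwK' : K ≤ w) (hwn : K * w ≤ n) (hv : v = w / 64)
    (hr : r = n / (A * v))
    {f : ClauseList n m w} (hf : Spread v r f) {col : Fin n → Bool}
    (hbad : ∀ s, 2 * (by classical exact (univ.filter fun x => Bad col v f s x).card) ≤ 2 ^ n)
    (S : ℕ) (L : Fin S → Line (Fin n) C) (href : IsRefutation k (toCNF f) L) :
    2 ^ (n / K) ≤ S := by
  classical
  by_contra hcon
  push Not at hcon
  have hk3 : 1024 ≤ k := by omega
  have hw64 : 1024 ≤ w := by omega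
  have hv0 : 1 ≤ v := by omega
  have hwv : w ≤ 128 * v := by omega
  have hvw : v ≤ w := by omega
  have hAv : A * v * 1024 ≤ n := by
    calc A * v * 1024 = K * v := by rw [hK]; ring
      _ ≤ K * w := Nat.mul_le_mul_left _ hvw
      _ ≤ n := hwn
  have hAv0 : 0 < A * v := Nat.mul_pos (by omega) (by omega)
  have hr1 : 1 < r := by
    rw [hr]
    have : 2 ≤ n / (A * v) := by
      rw [Nat.le_div_iff_mul_le hAv0]
      omega
    omega
  have hmod := Nat.div_add_mod n (A * v)
  have hlt := Nat.mod_lt n hAv0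
  rw [← hr] at hmod
  have hvr : v * r ≤ n := by
    have : v * r ≤ A * v * r := by
      rw [mul_assoc]
      exact Nat.le_mul_of_pos_left _ (by omega)
    omega
  have hvr2 : n ≤ 2 * (A * (v * r)) := by
    have e1 : A * v * r = A * (v * r) := by ring
    omega
  have hrk : r ≤ k := le_trans (by rw [hr]; exact Nat.div_le_self _ _) hk
  -- the size of a block
  have h2v : k ^ (8 * A * (C + 1)) ≤ 2 ^ v := by
    have h1 : (k ^ (8 * A * (C + 1))) ^ 128 ≤ (2 ^ v) ^ 128 := by
      rw [← pow_mul, ← pow_mul]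
      have e1 : 8 * A * (C + 1) * 128 = K * (C + 1) := by rw [hK]; ring
      rw [e1]
      refine hw.trans (Nat.pow_le_pow_right (by norm_num) ?_)
      omega
    exact (Nat.pow_le_pow_iff_left (by norm_num)).1 h1
  have h2v' : k ^ (20 * (C + 1)) ≤ 2 ^ v := by
    refine le_trans (Nat.pow_le_pow_right (by omega) ?_) h2v
    exact Nat.mul_le_mul_right _ (by omega)
  obtain ⟨q, hq⟩ : ∃ q, q = n / K := ⟨_, rfl⟩
  have hKq : K * q ≤ n := by
    rw [hq]
    exact Nat.mul_div_le n K
  rw [← hq] at hcon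
  have hq1 : 512 * q ≤ v * r := by
    have e1 : A * (1024 * q) ≤ A * (2 * (v * r)) := by
      calc A * (1024 * q) = K * q := by rw [hK]; ring
        _ ≤ n := hKq
        _ ≤ 2 * (A * (v * r)) := hvr2
        _ = A * (2 * (v * r)) := by ring
    have := Nat.le_of_mul_le_mul_left e1 (by omega)
    omega
  have hq2 : 512 ≤ v * r := by
    have e1 : A * 1024 ≤ A * (2 * (v * r)) := by
      calc A * 1024 = K := by rw [hK]; ring
        _ ≤ n := hn
        _ ≤ 2 * (A * (v * r)) := hvr2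
        _ = A * (2 * (v * r)) := by ring
    have := Nat.le_of_mul_le_mul_left e1 (by omega)
    omega
  obtain ⟨k0, hk0⟩ : ∃ k0, k0 = (2 * (n * k) + 1) ^ C := ⟨_, rfl⟩
  have hk00 : 1 ≤ k0 := by
    rw [hk0]
    exact Nat.one_le_pow _ _ (by omega)
  have hk0k : k0 ≤ k ^ (3 * C) := by
    rw [hk0, pow_mul]
    refine Nat.pow_le_pow_left ?_ _
    have e1 : n * k ≤ k * k := Nat.mul_le_mul_right _ hk
    have e2 : 1 ≤ k * k := Nat.one_le_iff_ne_zero.2 (by positivity)
    calc 2 * (n * k) + 1 ≤ 2 * (k * k) + k * k := by omega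
      _ = 3 * (k * k) := by ring
      _ ≤ k * (k * k) := Nat.mul_le_mul_right _ (by omega)
      _ = k ^ 3 := by ring
  have hkk : (k + 1) * k ≤ k ^ 3 := by
    calc (k + 1) * k ≤ (k * k) * k := Nat.mul_le_mul_right _ (by nlinarith)
      _ = k ^ 3 := by ring
  have hbase : (k + 1) * k * k0 * r ≤ k ^ (7 * (C + 1)) := by
    calc (k + 1) * k * k0 * r ≤ k ^ 3 * k ^ (3 * C) * k := by gcongr
      _ = k ^ (3 + 3 * C + 1) := by rw [pow_add, pow_add, pow_one]
      _ ≤ k ^ (7 * (C + 1)) := Nat.pow_le_pow_right (by omega) (by omega)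
  have hSk : S * k0 + 1 ≤ 2 ^ q * k ^ (3 * C) := by
    calc S * k0 + 1 ≤ S * k0 + k0 := by omega
      _ = (S + 1) * k0 := by ring
      _ ≤ 2 ^ q * k ^ (3 * C) := Nat.mul_le_mul (by omega) hk0k
  refine rcore (k := k) (k0 := k0) (v := v) (r := r) (by omega) hr1 hvr hf hbad hk0 ?_ ?_ href
  · have hle : 4 * ((S * k0 + 1) * ((k + 1) * k * k0 * r) ^ r) ≤
        2 ^ (q + 2) * k ^ (10 * (C + 1) * r) := by
      calc 4 * ((S * k0 + 1) * ((k + 1) * k * k0 * r) ^ r)
          ≤ 4 * (2 ^ q * k ^ (3 * C) * (k ^ (7 * (C + 1))) ^ r) := by gcongr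
        _ = 2 ^ (q + 2) * k ^ (3 * C + 7 * (C + 1) * r) := by
            rw [← pow_mul, pow_add 2 q 2, pow_add k]
            ring
        _ ≤ 2 ^ (q + 2) * k ^ (10 * (C + 1) * r) := by
            refine Nat.mul_le_mul_left _ (Nat.pow_le_pow_right (by omega) ?_)
            have e1 : 3 * C ≤ 3 * (C + 1) * r := by
              calc 3 * C ≤ 3 * (C + 1) := by omega
                _ ≤ 3 * (C + 1) * r := Nat.le_mul_of_pos_right _ (by omega)
            have e2 : 10 * (C + 1) * r = 3 * (C + 1) * r + 7 * (C + 1) * r := by ring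
            omega
    refine lt_of_le_of_lt hle ?_
    have hsq : (2 ^ (q + 2) * k ^ (10 * (C + 1) * r)) ^ 2 < (2 ^ (v * r)) ^ 2 := by
      calc (2 ^ (q + 2) * k ^ (10 * (C + 1) * r)) ^ 2
          = 2 ^ (2 * q + 4) * (k ^ (20 * (C + 1))) ^ r := by
            rw [mul_pow, ← pow_mul, ← pow_mul, ← pow_mul]
            congr 2 <;> ring
        _ ≤ 2 ^ (2 * q + 4) * (2 ^ v) ^ r := by gcongr
        _ = 2 ^ (2 * q + 4) * 2 ^ (v * r) := by rw [← pow_mul]
        _ < 2 ^ (v * r) * 2 ^ (v * r) := by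
            refine Nat.mul_lt_mul_of_pos_right ?_ (by positivity)
            exact Nat.pow_lt_pow_right (by norm_num) (by omega)
        _ = (2 ^ (v * r)) ^ 2 := by ring
    exact lt_of_pow_lt_pow_left₀ 2 (by positivity) hsq
  · calc 4 * r ≤ 4 * k := by omega
      _ < k * k := Nat.mul_lt_mul_of_pos_right (by omega) (by omega)
      _ = k ^ 2 := by ring
      _ ≤ k ^ (20 * (C + 1)) := Nat.pow_le_pow_right (by omega) (by omega)
      _ ≤ 2 ^ v := h2v'

/-- The probability that a random CNF is not hard. -/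
theorem pr_not_hard {A K k C : ℕ} (hA : A = 3 * 24 ^ 128) (hK : K = 1024 * A) (hn : K ≤ n)
    (hk : n ≤ k) (hw : k ^ (K * (C + 1)) ≤ 2 ^ w) (hwK : K ≤ w) (hwn : K * w ≤ n)
    (hm1 : n * 2 ^ w ≤ m) (hm2 : m ≤ 3 ^ w) :
    pr (fun f : ClauseList n m w => ¬ Hard k C (2 ^ (n / K)) (toCNF f)) ≤ 7 * (15 / 16) ^ w := by
  classical
  have hA3 : 3 ≤ A := by
    rw [hA]
    exact Nat.le_mul_of_pos_right _ (by positivity)
  have hwn' : w ≤ n := le_trans (Nat.le_mul_of_pos_left _ (by omega)) hwn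
  have hne := nonempty_emb hwn'
  have hn0 : 0 < n := by omega
  obtain ⟨v, hv⟩ : ∃ v, v = w / 64 := ⟨_, rfl⟩
  obtain ⟨r, hr⟩ : ∃ r, r = n / (A * v) := ⟨_, rfl⟩
  have hv0 : 0 < v := by omega
  have hwv : w ≤ 128 * v := by omega
  have h64 : 64 * v ≤ w := by omega
  have hmul : A * v * r ≤ n := by
    rw [hr]
    exact Nat.mul_div_le n (A * v)
  have hvr : v * r ≤ n := by
    have : v * r ≤ A * v * r := by
      rw [mul_assoc]
      exact Nat.le_mul_of_pos_left _ (by omega)
    omega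
  have hexp : (24 : ℝ) ^ w * (3 * (v * r : ℕ) / n : ℝ) ^ v ≤ 1 := by
    have hn' : (0 : ℝ) < n := by exact_mod_cast hn0
    have e1 : (3 * (v * r : ℕ) / n : ℝ) ≤ 1 / (24 : ℝ) ^ 128 := by
      rw [div_le_div_iff₀ hn' (by positivity), one_mul]
      have e2 : ((A * v * r : ℕ) : ℝ) ≤ (n : ℝ) := by exact_mod_cast hmul
      have e3 : (A : ℝ) = 3 * (24 : ℝ) ^ 128 := by exact_mod_cast hA
      obtain ⟨B, hB⟩ : ∃ B : ℝ, B = (24 : ℝ) ^ 128 := ⟨_, rfl⟩
      rw [← hB] at e3 ⊢
      push_cast at e2 ⊢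
      rw [e3] at e2
      calc (3 : ℝ) * ((v : ℝ) * r) * B = 3 * B * v * r := by ring
        _ ≤ (n : ℝ) := e2
    calc (24 : ℝ) ^ w * (3 * (v * r : ℕ) / n : ℝ) ^ v
        ≤ 24 ^ (128 * v) * (1 / 24 ^ 128) ^ v := by
          gcongr
          · norm_num
      _ = 1 := by
          rw [pow_mul, ← mul_pow, mul_one_div_cancel (by positivity), one_pow]
  refine le_trans (pr_mono (q := fun f : ClauseList n m w =>
    (∃ x : Fin n → Bool, ∀ i, ¬ ∀ e, x ((f i).1 e) ≠ (f i).2 e) ∨ (¬ Spread v r f ∨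
      ∃ s ∈ (univ : Finset Bool), ¬ 2 * (univ.filter fun x => Bad (half n) v f s x).card ≤
        Fintype.card (Fin n → Bool))) fun f hf => ?_) ?_
  · by_contra hcon
    rw [not_or, not_or] at hcon
    obtain ⟨h1, h2, h3⟩ := hcon
    push Not at h1 h2 h3
    refine hf ⟨fun x => ?_, fun S L href => ?_⟩
    · obtain ⟨i, hi⟩ := h1 x
      refine ⟨_, mem_image_of_mem _ (mem_univ i), ?_⟩
      rintro ⟨l, hl, hl'⟩
      obtain ⟨e, -, rfl⟩ := mem_image.1 hl
      exact hi e hl'
    · refine det_bound (col := half n) hA3 hK hn hk hw hwK hwn hv hr h2 (fun s => ?_) S L href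
      have h4 := h3 s (mem_univ _)
      rw [Fintype.card_fun, Fintype.card_fin, Fintype.card_bool] at h4
      convert h4
  · refine (pr_or _ _).trans ((add_le_add (pr_sat hwn' hm1) ((pr_or _ _).trans
      (add_le_add (pr_not_spread hwn' (by omega) hn0 hv0 hvr hm2 hexp) ((pr_exists _ _).trans
        (sum_le_sum (g := fun _ => 2 * (15 / 16 : ℝ) ^ w) fun s _ => ?_))))).trans ?_)
    · have := pr_markov (fun (f : ClauseList n m w) (x : Fin n → Bool) => Bad (half n) v f s x)
        (fun x => pr_bad hwn' h64 hm2 (half n) s (half_card (by omega) s) x)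
      convert this
    · rw [sum_const, card_univ, Fintype.card_bool, nsmul_eq_mul]
      have h1 : (3 / 4 : ℝ) ^ n ≤ (15 / 16) ^ w := by
        calc (3 / 4 : ℝ) ^ n ≤ (3 / 4) ^ w := pow_le_pow_of_le_one (by norm_num) (by norm_num) hwn'
          _ ≤ (15 / 16) ^ w := pow_le_pow_left₀ (by norm_num) (by norm_num) _
      have h2 : (1 / 4 : ℝ) ^ w ≤ (15 / 16) ^ w :=
        pow_le_pow_left₀ (by norm_num) (by norm_num) _
      push_cast
      linarith

/-- The main result. -/
theorem random_main : ∃ K : ℕ, 0 < K ∧ ∀ n k C w m : ℕ, K ≤ n → n ≤ k →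
    k ^ (K * (C + 1)) ≤ 2 ^ w → K * w ≤ n → n * 2 ^ w ≤ m → m ≤ 3 ^ w →
    2 ^ (w / K) * {f : ClauseList n m w | ¬ Hard k C (2 ^ (n / K)) (toCNF f)}.ncard ≤
      Fintype.card (ClauseList n m w) := by
  classical
  obtain ⟨A, hA⟩ : ∃ A, A = 3 * 24 ^ 128 := ⟨_, rfl⟩
  have hA3 : 3 ≤ A := by
    rw [hA]
    exact Nat.le_mul_of_pos_right _ (by positivity)
  obtain ⟨K, hK⟩ : ∃ K, K = 1024 * A := ⟨_, rfl⟩
  refine ⟨K, by omega, fun n k C w m hn hk hw hwn hm1 hm2 => ?_⟩
  have hwK : K ≤ w := by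
    have h1 : 2 ^ (K * (C + 1)) ≤ 2 ^ w :=
      le_trans (Nat.pow_le_pow_left (by omega) _) hw
    have h2 := (Nat.pow_le_pow_iff_right (by norm_num)).1 h1
    exact le_trans (Nat.le_mul_of_pos_right _ (by omega)) h2
  have hwn' : w ≤ n := le_trans (Nat.le_mul_of_pos_left _ (by omega)) hwn
  have hne := nonempty_emb hwn'
  have h := pr_not_hard hA hK hn hk hw hwK hwn hm1 hm2
  rw [pr_eq, div_le_iff₀ (by exact_mod_cast Fintype.card_pos)] at h
  have h1 : {f : ClauseList n m w | ¬ Hard k C (2 ^ (n / K)) (toCNF f)}.ncard =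
      (univ.filter fun f : ClauseList n m w => ¬ Hard k C (2 ^ (n / K)) (toCNF f)).card := by
    rw [Set.ncard_eq_toFinset_card']
    congr 1
    ext f
    simp
  rw [h1]
  have h2 : (2 : ℝ) ^ (w / K) * (7 * (15 / 16) ^ w) ≤ 1 := by
    obtain ⟨q, hq⟩ : ∃ q, q = w / K := ⟨_, rfl⟩
    have hq1 : 1 ≤ q := by
      rw [hq]
      exact (Nat.one_le_div_iff (by omega)).2 hwK
    have hKq : 64 * q ≤ w := by
      calc 64 * q ≤ K * q := Nat.mul_le_mul_right _ (by omega)
        _ ≤ w := by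
          rw [hq]
          exact Nat.mul_div_le w K
    rw [← hq]
    calc (2 : ℝ) ^ q * (7 * (15 / 16) ^ w) ≤ 2 ^ q * (7 * (15 / 16) ^ (64 * q)) := by
          gcongr 2 ^ q * (7 * ?_)
          exact pow_le_pow_of_le_one (by norm_num) (by norm_num) hKq
      _ = 7 * (2 * (15 / 16) ^ 64) ^ q := by
          rw [mul_pow, ← pow_mul]
          ring
      _ ≤ 7 * (1 / 7) ^ q := by
          gcongr
          norm_num
      _ ≤ 7 * (1 / 7) ^ 1 := by
          gcongr 7 * ?_
          exact pow_le_pow_of_le_one (by norm_num) (by norm_num) hq1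
      _ = 1 := by norm_num
  have h3 : (2 : ℝ) ^ (w / K) *
      (univ.filter fun f : ClauseList n m w => ¬ Hard k C (2 ^ (n / K)) (toCNF f)).card ≤
      Fintype.card (ClauseList n m w) := by
    calc (2 : ℝ) ^ (w / K) *
        (univ.filter fun f : ClauseList n m w => ¬ Hard k C (2 ^ (n / K)) (toCNF f)).card
        ≤ 2 ^ (w / K) * (7 * (15 / 16) ^ w * Fintype.card (ClauseList n m w)) := by gcongr
      _ = 2 ^ (w / K) * (7 * (15 / 16) ^ w) * Fintype.card (ClauseList n m w) := by ring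
      _ ≤ 1 * Fintype.card (ClauseList n m w) := by gcongr
      _ = Fintype.card (ClauseList n m w) := one_mul _
  exact_mod_cast h3

end Pool.Agent.MP_9cec2c_lc.LovSch
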