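import Pool.Agent.Lib.MP_9cec2c_lc.LSLift

/-!
The asymptotic lower bound.
-/

set_option autoImplicit false
set_option linter.unusedSectionVars false

namespace Pool.Agent.MP_9cec2c_lc.LovSch

open Finset Filter

theorem exists_u (a M N : ℕ) (hM : 2 ^ (a + 3) ≤ M) (hN : 4 * M ^ (a + 1) ≤ N) :
    ∃ u, M ≤ u ∧ 4 * u ^ (a + 1) ≤ N ∧ N + 1 ≤ u ^ (a + 2) := by
  have hex : ∃ w, N < 4 * w ^ (a + 1) := by
    refine ⟨N + 1, ?_⟩
    calc N < N + 1 := Nat.lt_succ_self _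
      _ ≤ (N + 1) ^ (a + 1) := Nat.le_self_pow (by omega) _
      _ ≤ 4 * (N + 1) ^ (a + 1) := by omega
  obtain ⟨w, hw⟩ : ∃ w, w = Nat.find hex := ⟨_, rfl⟩
  have h1 : N < 4 * w ^ (a + 1) := by
    rw [hw]
    exact Nat.find_spec hex
  have hw0 : w ≠ 0 := by
    rintro rfl
    simp at h1
  obtain ⟨u, rfl⟩ : ∃ u, w = u + 1 := ⟨w - 1, by omega⟩
  have h2 : 4 * u ^ (a + 1) ≤ N := by
    have := Nat.find_min hex (m := u) (by omega)
    omega
  have hMu : M ≤ u := by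
    by_contra hcon
    push Not at hcon
    have h3 : (u + 1) ^ (a + 1) ≤ M ^ (a + 1) := Nat.pow_le_pow_left (by omega) _
    omega
  refine ⟨u, hMu, h2, ?_⟩
  have hu1 : 1 ≤ u := le_trans (Nat.one_le_two_pow.trans hM) hMu
  calc N + 1 ≤ 4 * (u + 1) ^ (a + 1) := h1
    _ ≤ 4 * (2 * u) ^ (a + 1) := by gcongr; omega
    _ = 2 ^ (a + 3) * u ^ (a + 1) := by ring
    _ ≤ u * u ^ (a + 1) := by gcongr; exact hM.trans hMu
    _ = u ^ (a + 2) := by ring

/-- The lower bound for one value of `N`. -/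
theorem main_n {N a u C v : ℕ} (ha : 8 ≤ a)
    (hv : v = 2 * ((a + 2) * ((C + 3) * (C + 2)) + 1) + a + 1)
    (hu : 3 ^ v ≤ u) (hu64 : 64 ≤ u) (h1 : 4 * u ^ (a + 1) ≤ N) (h2 : N + 1 ≤ u ^ (a + 2)) :
    ∃ F : Finset (Clause (Fin N)), (∀ x, ∃ B ∈ F, ¬ Holds x B) ∧
      F.card ≤ N ^ (8 * v + a + 2) ∧ (∀ B ∈ F, B.card ≤ 8 * v + a + 2) ∧
      ∀ (S : ℕ) (L : Fin S → Line (Fin N) C), IsRefutation (N ^ C) F L →
        2 ^ (u ^ (a - 7)) < S := by
  classical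
  have hu0 : 0 < u := by omega
  have hur : (0 : ℝ) < u := by exact_mod_cast hu0
  have hv0 : 0 < v := by rw [hv]; omega
  have hva : a + 2 ≤ v := by rw [hv]; omega
  have hvu : v ≤ u := by
    have : v < 3 ^ v := Nat.lt_pow_self (by norm_num)
    omega
  have hN1 : 1 ≤ N := le_trans (by nlinarith [Nat.one_le_pow (a + 1) u hu0]) h1
  have huN : u ≤ N := by
    calc u ≤ u ^ (a + 1) := Nat.le_self_pow (by omega) _
      _ ≤ 4 * u ^ (a + 1) := by omega
      _ ≤ N := h1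
  obtain ⟨r, hr⟩ : ∃ r, r = u ^ (a - 7) := ⟨_, rfl⟩
  have hr1 : 1 < r := by
    rw [hr]
    exact Nat.one_lt_pow (by omega) (by omega)
  have hra : r * u ^ 7 = u ^ a := by
    rw [hr, ← pow_add]
    congr 1
    omega
  have hvr : v * r ≤ u ^ a := by
    rw [← hra, mul_comm]
    refine Nat.mul_le_mul_left _ (hvu.trans ?_)
    exact Nat.le_self_pow (by norm_num) _
  obtain ⟨m, hm⟩ : ∃ m, m = 2 * u ^ a * u ^ (2 * (2 * v) + 1) + 2 * u ^ (2 * (2 * v)) :=
    ⟨_, rfl⟩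
  have hm4 : m ≤ 4 * u ^ (a + 4 * v + 1) := by
    have e1 : 2 * u ^ a * u ^ (2 * (2 * v) + 1) = 2 * u ^ (a + 4 * v + 1) := by
      rw [mul_assoc, ← pow_add]
      congr 2
      ring
    have e2 : u ^ (2 * (2 * v)) ≤ u ^ (a + 4 * v + 1) :=
      Nat.pow_le_pow_right hu0 (by omega)
    rw [hm, e1]
    omega
  have hexp : (16 : ℝ) * m * 3 ^ v * ((v * r : ℕ) / (u ^ a : ℕ) : ℝ) ^ (2 * v - v) ≤ 1 := by
    have e1 : ((v * r : ℕ) / (u ^ a : ℕ) : ℝ) ≤ 1 / (u : ℝ) ^ 6 := by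
      rw [div_le_div_iff₀ (by positivity) (by positivity), one_mul]
      have : v * r * u ^ 6 ≤ u ^ a := by
        rw [← hra]
        calc v * r * u ^ 6 ≤ u * r * u ^ 6 := by gcongr
          _ = r * u ^ 7 := by ring
      exact_mod_cast this
    have e2 : 2 * v - v = v := by omega
    rw [e2]
    have e3 : ((v * r : ℕ) / (u ^ a : ℕ) : ℝ) ^ v ≤ 1 / (u : ℝ) ^ (6 * v) := by
      refine (pow_le_pow_left₀ (by positivity) e1 v).trans (le_of_eq ?_)
      rw [div_pow, one_pow, ← pow_mul]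
    have e4 : (m : ℝ) ≤ 4 * (u : ℝ) ^ (a + 4 * v + 1) := by exact_mod_cast hm4
    have e5 : (3 : ℝ) ^ v ≤ u := by exact_mod_cast hu
    have e6 : (64 : ℝ) ≤ u := by exact_mod_cast hu64
    calc (16 : ℝ) * m * 3 ^ v * ((v * r : ℕ) / (u ^ a : ℕ) : ℝ) ^ v
        ≤ 16 * (4 * (u : ℝ) ^ (a + 4 * v + 1)) * u * (1 / (u : ℝ) ^ (6 * v)) := by gcongr
      _ = 64 * (u : ℝ) ^ (a + 4 * v + 2) / (u : ℝ) ^ (6 * v) := by ring
      _ ≤ u * (u : ℝ) ^ (a + 4 * v + 2) / (u : ℝ) ^ (6 * v) := by gcongr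
      _ = (u : ℝ) ^ (a + 4 * v + 3) / (u : ℝ) ^ (6 * v) := by ring
      _ ≤ (u : ℝ) ^ (6 * v) / (u : ℝ) ^ (6 * v) := by
          have : a + 4 * v + 3 ≤ 6 * v := by omega
          have h1u : (1 : ℝ) ≤ u := by linarith
          gcongr
      _ = 1 := div_self (by positivity)
  obtain ⟨E, hE1, hE2⟩ := exists_csp (n := u ^ a) (W := u) (q := 2 * v) (m := m) (v := v)
    (r := r) (by positivity) hu0 hv0 (by omega) hvr (by rw [hm]) hexp
  have hcardV : Fintype.card (Bool × Fin (u ^ a) × Fin (u + 1)) ≤ Fintype.card (Fin N) := by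
    rw [Fintype.card_prod, Fintype.card_prod, Fintype.card_bool, Fintype.card_fin,
      Fintype.card_fin, Fintype.card_fin]
    refine le_trans ?_ h1
    calc 2 * (u ^ a * (u + 1)) ≤ 2 * (u ^ a * (2 * u)) := by gcongr; omega
      _ = 4 * u ^ (a + 1) := by ring
  obtain ⟨e⟩ : Nonempty (Bool × Fin (u ^ a) × Fin (u + 1) ↪ Fin N) :=
    Function.Embedding.nonempty_of_card_le hcardV
  refine ⟨cnf e E, fun x => cnf_unsat hE1 x, ?_, fun B hB => ?_, fun S L href => ?_⟩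
  · refine (cnf_card e E).trans ?_
    calc 4 * u ^ a + m ≤ 4 * u ^ (a + 4 * v + 1) + 4 * u ^ (a + 4 * v + 1) := by
          refine Nat.add_le_add (Nat.mul_le_mul_left _ ?_) hm4
          exact Nat.pow_le_pow_right hu0 (by omega)
      _ = 8 * u ^ (a + 4 * v + 1) := by ring
      _ ≤ u * u ^ (a + 4 * v + 1) := by gcongr; omega
      _ = u ^ (a + 4 * v + 2) := by ring
      _ ≤ N ^ (a + 4 * v + 2) := Nat.pow_le_pow_left huN _
      _ ≤ N ^ (8 * v + a + 2) := Nat.pow_le_pow_right hN1 (by omega)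
  · have := cnf_width (by omega) e E hB
    omega
  · by_contra hcon
    push Not at hcon
    rw [← hr] at hcon
    obtain ⟨D, hD⟩ : ∃ D, D = (a + 2) * ((C + 3) * (C + 2)) + 1 := ⟨_, rfl⟩
    obtain ⟨k0, hk0⟩ : ∃ k0, k0 = (2 * (Fintype.card (Fin N) * N ^ C) + 1) ^ C := ⟨_, rfl⟩
    have hN2 : 4 ≤ N := by
      have := Nat.one_le_pow (a + 1) u hu0
      omega
    have hk0N : k0 ≤ N ^ ((C + 3) * C) := by
      rw [hk0, Fintype.card_fin, pow_mul]
      refine Nat.pow_le_pow_left ?_ _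
      have e1 : 1 ≤ N * N ^ C := Nat.one_le_iff_ne_zero.2 (by positivity)
      calc 2 * (N * N ^ C) + 1 ≤ 4 * (N * N ^ C) := by omega
        _ ≤ N ^ 2 * (N * N ^ C) := by gcongr; nlinarith
        _ = N ^ (C + 3) := by ring
    have hk01 : 1 ≤ k0 := by
      rw [hk0]
      exact Nat.one_le_pow _ _ (by omega)
    have hk1 : ((N ^ C + 1) * N ^ C) * k0 ≤ u ^ D := by
      calc ((N ^ C + 1) * N ^ C) * k0 ≤ ((N ^ C + N ^ C) * N ^ C) * N ^ ((C + 3) * C) := by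
            gcongr
            exact Nat.one_le_pow _ _ (by omega)
        _ = 2 * N ^ (2 * C + (C + 3) * C) := by ring
        _ ≤ u * (u ^ (a + 2)) ^ ((C + 3) * (C + 2)) := by
            refine Nat.mul_le_mul (by omega) ?_
            have e9 : 2 * C + (C + 3) * C ≤ (C + 3) * (C + 2) := by
              have : (C + 3) * (C + 2) = (C + 3) * C + 2 * (C + 3) := by ring
              omega
            exact (Nat.pow_le_pow_right (by omega) e9).trans (Nat.pow_le_pow_left (by omega) _)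
        _ = u ^ D := by
            rw [← pow_mul, hD]
            ring
    refine core (k := N ^ C) (k0 := k0) (v := v) (r := r) (by positivity) hu0 hr1 hvr hE2 hk0 ?_ ?_ href
    · have e1 : 2 * (S + 1) ≤ 8 ^ r := by
        have e2 : 2 * (S + 1) ≤ 2 ^ (r + 2) := by
          have : 1 ≤ 2 ^ r := Nat.one_le_two_pow
          rw [pow_add]
          omega
        refine e2.trans ?_
        have e3 : (8 : ℕ) ^ r = 2 ^ (3 * r) := by rw [pow_mul]; norm_num
        rw [e3]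
        exact Nat.pow_le_pow_right (by norm_num) (by omega)
      have e4 : ((N ^ C + 1) * N ^ C) * k0 * r ≤ u ^ D * u ^ a := by
        refine Nat.mul_le_mul hk1 ?_
        rw [hr]
        exact Nat.pow_le_pow_right hu0 (by omega)
      have e6 : S * k0 + 1 ≤ (S + 1) * u ^ D := by
        have e7 : k0 ≤ u ^ D := le_trans (Nat.le_mul_of_pos_left _ (by positivity)) hk1
        calc S * k0 + 1 ≤ S * k0 + k0 := by omega
          _ = (S + 1) * k0 := by ring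
          _ ≤ (S + 1) * u ^ D := Nat.mul_le_mul_left _ e7
      have e8 : u ^ D ≤ (u ^ D) ^ r := Nat.le_self_pow (by omega) _
      have e5 : 8 * (u ^ D * (u ^ D * u ^ a)) < u ^ v := by
        have : v = D + (D + a) + 1 := by rw [hv, hD]; ring
        rw [this, pow_succ, pow_add u D (D + a), pow_add u D a]
        have h3 : 0 < u ^ D * (u ^ D * u ^ a) := by positivity
        calc 8 * (u ^ D * (u ^ D * u ^ a)) < u * (u ^ D * (u ^ D * u ^ a)) := by
              exact Nat.mul_lt_mul_of_pos_right (by omega) h3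
          _ = u ^ D * (u ^ D * u ^ a) * u := by ring
      calc 2 * ((S * k0 + 1) * (((N ^ C + 1) * N ^ C) * k0 * r) ^ r)
          ≤ 2 * ((S + 1) * u ^ D * (u ^ D * u ^ a) ^ r) := by gcongr
        _ = 2 * (S + 1) * u ^ D * (u ^ D * u ^ a) ^ r := by ring
        _ ≤ 8 ^ r * (u ^ D) ^ r * (u ^ D * u ^ a) ^ r := by gcongr
        _ = (8 * (u ^ D * (u ^ D * u ^ a))) ^ r := by rw [← mul_pow, ← mul_pow, mul_assoc]
        _ < (u ^ v) ^ r := Nat.pow_lt_pow_left e5 (by omega)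
        _ = u ^ (v * r) := by rw [← pow_mul]
    · calc 2 * r ≤ 2 * u ^ a := by
            gcongr
            rw [hr]
            exact Nat.pow_le_pow_right hu0 (by omega)
        _ < u * u ^ a := Nat.mul_lt_mul_of_pos_right (by omega) (by positivity)
        _ = u ^ (a + 1) := by ring
        _ ≤ u ^ v := Nat.pow_le_pow_right hu0 (by omega)

/-- The main result. -/
theorem main_asym (C : ℕ) (ε : ℝ) (hε : 0 < ε) :
    ∃ K : ℕ, ∀ᶠ n : ℕ in atTop, ∃ F : Finset (Clause (Fin n)),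
      (∀ x, ∃ B ∈ F, ¬ Holds x B) ∧ F.card ≤ n ^ K ∧ (∀ B ∈ F, B.card ≤ K) ∧
      ∀ (S : ℕ) (L : Fin S → Line (Fin n) C), IsRefutation (n ^ C) F L →
        (2 : ℝ) ^ ((n : ℝ) ^ (1 - ε)) ≤ S := by
  obtain ⟨δ, hδ⟩ : ∃ δ, δ = min ε (1 / 2) := ⟨_, rfl⟩
  have hδ0 : 0 < δ := by
    rw [hδ]
    exact lt_min hε (by norm_num)
  have hδε : δ ≤ ε := by
    rw [hδ]
    exact min_le_left _ _
  have hδ1 : δ ≤ 1 / 2 := by
    rw [hδ]
    exact min_le_right _ _
  obtain ⟨a0, ha0⟩ := exists_nat_gt (9 / δ)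
  obtain ⟨a, ha⟩ : ∃ a, a = a0 + 8 := ⟨_, rfl⟩
  have ha8 : 8 ≤ a := by omega
  have haδ : ((a : ℝ) + 2) * (1 - δ) ≤ ((a - 7 : ℕ) : ℝ) := by
    rw [Nat.cast_sub (by omega)]
    push_cast
    have h1 : 9 ≤ ((a : ℝ) + 2) * δ := by
      rw [div_lt_iff₀ hδ0] at ha0
      have h2 : (a0 : ℝ) ≤ (a : ℝ) + 2 := by
        rw [ha]
        push_cast
        linarith
      nlinarith
    nlinarith
  obtain ⟨v, hv⟩ : ∃ v, v = 2 * ((a + 2) * ((C + 3) * (C + 2)) + 1) + a + 1 := ⟨_, rfl⟩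
  obtain ⟨M, hM⟩ : ∃ M, M = 2 ^ (a + 3) + 3 ^ v + 64 := ⟨_, rfl⟩
  refine ⟨8 * v + a + 2, ?_⟩
  filter_upwards [eventually_ge_atTop (4 * M ^ (a + 1))] with N hN
  have hp2 : 0 < 2 ^ (a + 3) := by positivity
  have hp3 : 0 < 3 ^ v := by positivity
  obtain ⟨u, hu1, hu2, hu3⟩ := exists_u a M N (by rw [hM]; omega) hN
  have hu3v : 3 ^ v ≤ u := by
    rw [hM] at hu1
    omega
  have hu64 : 64 ≤ u := by
    rw [hM] at hu1
    omega
  obtain ⟨F, hF1, hF2, hF3, hF4⟩ := main_n ha8 hv hu3v hu64 hu2 hu3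
  refine ⟨F, hF1, hF2, hF3, fun S L href => ?_⟩
  have h1 := hF4 S L href
  have hur : (1 : ℝ) ≤ u := by
    have : 1 ≤ u := by omega
    exact_mod_cast this
  have hN1 : (1 : ℝ) ≤ N := by
    have : 1 ≤ N := by
      have h5 : 1 ≤ u ^ (a + 1) := Nat.one_le_pow _ _ (by omega)
      omega
    exact_mod_cast this
  have h2 : (N : ℝ) ^ (1 - ε) ≤ ((u ^ (a - 7) : ℕ) : ℝ) := by
    calc (N : ℝ) ^ (1 - ε) ≤ (N : ℝ) ^ (1 - δ) :=
          Real.rpow_le_rpow_of_exponent_le hN1 (by linarith)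
      _ ≤ ((u : ℝ) ^ (a + 2)) ^ (1 - δ) := by
          refine Real.rpow_le_rpow (by positivity) ?_ (by linarith)
          have : N ≤ u ^ (a + 2) := by omega
          exact_mod_cast this
      _ = (u : ℝ) ^ (((a : ℝ) + 2) * (1 - δ)) := by
          rw [← Real.rpow_natCast, ← Real.rpow_mul (by positivity)]
          push_cast
          rfl
      _ ≤ (u : ℝ) ^ ((a - 7 : ℕ) : ℝ) := Real.rpow_le_rpow_of_exponent_le hur haδ
      _ = ((u ^ (a - 7) : ℕ) : ℝ) := by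
          rw [Real.rpow_natCast]
          push_cast
          rfl
  calc (2 : ℝ) ^ ((N : ℝ) ^ (1 - ε)) ≤ (2 : ℝ) ^ (((u ^ (a - 7) : ℕ) : ℝ)) :=
        Real.rpow_le_rpow_of_exponent_le (by norm_num) h2
    _ = ((2 ^ (u ^ (a - 7)) : ℕ) : ℝ) := by
        rw [Real.rpow_natCast]
        push_cast
        rfl
    _ ≤ S := by exact_mod_cast h1.le

end Pool.Agent.MP_9cec2c_lc.LovSch
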