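import Pool.Agent.Lib.MP_9cec2c_lc.SRDet
import Pool.Agent.Lib.MP_9cec2c_lc.Mg.G050

/-!
Expansion and the remaining properties of random rows.
-/

set_option autoImplicit false

namespace Pool.Agent.MP_9cec2c_lc.SubstRed

open Finset

variable {n k m : ℕ}

/-- Strong vertex expansion of small sets of rows. -/
def Expand (R : ℕ) (H : Fin m → Fin k → Fin n) : Prop :=
  ∀ J : Finset (Fin m), J.Nonempty → J.card ≤ 4 * R → 15 * (k * J.card) < 16 * (vars H J).card

theorem pr_mem_le [NeZero n] (W : Finset (Fin n)) :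
    pr (fun x : Fin n => x ∈ W) = (W.card : ℝ) / n := by
  classical
  rw [pr_eq, Fintype.card_fin]
  congr 3
  ext x
  simp

theorem choose_bound (n D e : ℕ) (hn : 0 < n) (hD : 16 * D ≤ 15 * e)
    (he : 2 ^ 64 * e ≤ n) :
    (n.choose D : ℝ) * ((D : ℝ) / n) ^ e ≤ (3 / 16) ^ e := by
  have hn' : (0 : ℝ) < n := by exact_mod_cast hn
  have hDe : D ≤ e := by omega
  have h1 : (n.choose D : ℝ) * ((D : ℝ) / n) ^ D ≤ 3 ^ e := by
    have h2 : (n.choose D : ℝ) ≤ (n : ℝ) ^ D / (D.factorial : ℝ) := Nat.choose_le_pow_div D n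
    have h3 : (D : ℝ) ^ D / (D.factorial : ℝ) ≤ Real.exp D :=
      Real.pow_div_factorial_le_exp _ (by positivity) D
    have h4 : Real.exp D ≤ 3 ^ D := by
      have h5 : Real.exp (D : ℝ) = Real.exp 1 ^ D := by
        rw [← Real.exp_nat_mul, mul_one]
      rw [h5]
      have := Real.exp_one_lt_three
      gcongr
    calc (n.choose D : ℝ) * ((D : ℝ) / n) ^ D ≤
        ((n : ℝ) ^ D / (D.factorial : ℝ)) * ((D : ℝ) / n) ^ D := by gcongr
      _ = (D : ℝ) ^ D / (D.factorial : ℝ) := by
          rw [div_pow]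
          field_simp
      _ ≤ 3 ^ D := h3.trans h4
      _ ≤ 3 ^ e := pow_le_pow_right₀ (by norm_num) hDe
  have h2 : ((D : ℝ) / n) ^ (e - D) ≤ (1 / 16) ^ e := by
    have h3 : (D : ℝ) / n ≤ (1 / 16) ^ 16 := by
      rw [div_le_iff₀ hn']
      have h4 : (2 ^ 64 * D : ℝ) ≤ n := by
        have : 2 ^ 64 * D ≤ n := (Nat.mul_le_mul_left _ hDe).trans he
        exact_mod_cast this
      have h5 : ((1 : ℝ) / 16) ^ 16 * 2 ^ 64 = 1 := by norm_num
      calc (D : ℝ) = (1 / 16) ^ 16 * 2 ^ 64 * D := by rw [h5, one_mul]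
        _ = (1 / 16) ^ 16 * (2 ^ 64 * D) := by ring
        _ ≤ (1 / 16) ^ 16 * n := by gcongr
    calc ((D : ℝ) / n) ^ (e - D) ≤ ((1 / 16) ^ 16) ^ (e - D) := by gcongr
      _ = (1 / 16) ^ (16 * (e - D)) := by rw [pow_mul]
      _ ≤ (1 / 16) ^ e := by
          apply pow_le_pow_of_le_one (by norm_num) (by norm_num)
          omega
  calc (n.choose D : ℝ) * ((D : ℝ) / n) ^ e
      = ((n.choose D : ℝ) * ((D : ℝ) / n) ^ D) * ((D : ℝ) / n) ^ (e - D) := by
        rw [mul_assoc, ← pow_add]
        congr 3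
        omega
    _ ≤ 3 ^ e * (1 / 16) ^ e := by gcongr
    _ = (3 / 16) ^ e := by
        rw [← mul_pow]
        norm_num

theorem expand_bound_one [NeZero n] (J : Finset (Fin m)) (hJ : 2 ^ 64 * (k * J.card) ≤ n) :
    pr (fun H : Fin m → Fin k → Fin n => 16 * (vars H J).card ≤ 15 * (k * J.card)) ≤
      (3 / 16) ^ (k * J.card) := by
  classical
  rcases Nat.eq_zero_or_pos n with hn | hn
  · exact absurd hn (NeZero.ne n)
  set e := k * J.card with he
  let D := 15 * e / 16
  have hD : 16 * D ≤ 15 * e := Nat.mul_div_le _ _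
  have hDn : D ≤ n := by omega
  have hn' : (0 : ℝ) < n := by exact_mod_cast hn
  refine le_trans (pr_mono (q := fun H : Fin m → Fin k → Fin n =>
    ∃ W ∈ powersetCard D (univ : Finset (Fin n)), ∀ i ∈ J, ∀ a, H i a ∈ W) ?_) ?_
  · intro H hH
    have h1 : (vars H J).card ≤ D := by
      change _ ≤ 15 * e / 16
      omega
    obtain ⟨W, hW1, -, hW3⟩ := exists_subsuperset_card_eq (subset_univ (vars H J)) h1
      (by rw [card_univ, Fintype.card_fin]; exact hDn)
    refine ⟨W, by simp [hW3], fun i hi a => hW1 (mem_vars.2 ⟨i, hi, a, rfl⟩)⟩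
  · refine (pr_exists _ _).trans ?_
    have h1 : ∀ W ∈ powersetCard D (univ : Finset (Fin n)),
        pr (fun H : Fin m → Fin k → Fin n => ∀ i ∈ J, ∀ a, H i a ∈ W) ≤
          ((D : ℝ) / n) ^ e := by
      intro W hW
      rw [mem_powersetCard] at hW
      have h2 : pr (fun E : Fin k → Fin n => ∀ a, E a ∈ W) ≤ ((D : ℝ) / n) ^ k := by
        have := indep_fixed (ι := Fin k) (α := Fin n) univ (fun x => x ∈ W) ((D : ℝ) / n) (by
          rw [pr_mem_le, hW.2])
        simpa using this
      have h3 := indep_fixed (ι := Fin m) (α := Fin k → Fin n) J (fun E => ∀ a, E a ∈ W) _ h2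
      rw [← pow_mul, ← he] at h3
      exact h3
    refine (sum_le_sum h1).trans ?_
    rw [sum_const, card_powersetCard, card_univ, Fintype.card_fin, nsmul_eq_mul]
    exact choose_bound n D e hn hD hJ

theorem expand_bound [NeZero n] {R : ℕ} (hR : 2 ^ 64 * (k * (4 * R)) ≤ n) :
    pr (fun H : Fin m → Fin k → Fin n => ¬ Expand R H) ≤ (1 + (3 / 16) ^ k) ^ m - 1 := by
  classical
  have h1 : pr (fun H : Fin m → Fin k → Fin n => ¬ Expand R H) ≤
      ∑ J ∈ univ.erase (∅ : Finset (Fin m)), ((3 / 16 : ℝ) ^ k) ^ J.card := by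
    refine le_trans (pr_mono (q := fun H : Fin m → Fin k → Fin n =>
      ∃ J ∈ univ.erase (∅ : Finset (Fin m)), J.card ≤ 4 * R ∧
        16 * (vars H J).card ≤ 15 * (k * J.card)) ?_) ?_
    · intro H hH
      unfold Expand at hH
      push Not at hH
      obtain ⟨J, h1, h2, h3⟩ := hH
      exact ⟨J, by simp [h1.ne_empty], h2, h3⟩
    · refine (pr_exists _ _).trans (sum_le_sum fun J _ => ?_)
      by_cases hJ : J.card ≤ 4 * R
      · refine (pr_mono fun H h => h.2).trans ?_
        refine (expand_bound_one J ?_).trans (by rw [pow_mul])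
        refine le_trans ?_ hR
        gcongr
      · have : (fun H : Fin m → Fin k → Fin n => J.card ≤ 4 * R ∧
              16 * (vars H J).card ≤ 15 * (k * J.card)) = fun _ => False := by
          funext H
          simp [hJ]
        rw [this, pr_false]
        positivity
  refine h1.trans ?_
  have h2 := sum_pow_card (ι := Fin m) ((3 / 16 : ℝ) ^ k)
  rw [Fintype.card_fin, ← add_sum_erase univ _ (mem_univ ∅)] at h2
  simp only [card_empty, pow_zero] at h2
  linarith

theorem pr_not {Ω : Type*} [Fintype Ω] [Nonempty Ω] (p : Ω → Prop) :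
    pr (fun x => ¬ p x) = 1 - pr p := by
  classical
  have hpos : (0 : ℝ) < Fintype.card Ω := by exact_mod_cast Fintype.card_pos
  rw [pr_eq, pr_eq, eq_sub_iff_add_eq, ← add_div, div_eq_one_iff_eq (ne_of_gt hpos)]
  have h := card_filter_add_card_filter_not (s := (univ : Finset Ω)) p
  rw [card_univ] at h
  rw [add_comm]
  exact_mod_cast h

/-- If a single row has a property with probability at least `q`, then all rows fail with
probability at most `exp (- q m)`. -/
theorem all_fail {α : Type*} [Fintype α] [Nonempty α] (A : α → Prop) (q : ℝ)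
    (hq : q ≤ pr A) :
    pr (fun H : Fin m → α => ∀ i, ¬ A (H i)) ≤ Real.exp (-(q * m)) := by
  have h1 := indep_fixed (ι := Fin m) (α := α) univ (fun x => ¬ A x) (1 - pr A)
    (le_of_eq (pr_not A))
  have h2 : (1 - pr A) ^ m ≤ Real.exp (-q) ^ m := by
    have h3 : 0 ≤ 1 - pr A := by
      have := pr_le_one A
      linarith
    gcongr
    have := Real.add_one_le_exp (-q)
    linarith
  have h3 : Real.exp (-(q * m)) = Real.exp (-q) ^ m := by
    rw [← Real.exp_nat_mul]
    congr 1
    ring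
  rw [h3]
  refine le_trans ?_ h2
  simpa using h1

theorem pr_pi {ι α : Type*} [Fintype ι] [DecidableEq ι] [Fintype α]
    (M : ι → α → Prop) : pr (fun H : ι → α => ∀ i, M i (H i)) = ∏ i, pr (M i) := by
  classical
  have h1 : ∀ i, pr (M i) = ((univ.filter (M i)).card : ℝ) / Fintype.card α :=
    fun i => pr_eq _
  simp only [h1]
  rw [pr_eq, prod_div_distrib, prod_const, card_univ, Fintype.card_fun]
  congr 1
  · have h2 : (univ.filter (fun H : ι → α => ∀ i, M i (H i))) =
        Fintype.piFinset (fun i => univ.filter (M i)) := by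
      ext H
      simp
    rw [h2, Fintype.card_piFinset]
    push_cast
    rfl
  · push_cast
    rfl

/-- Exactly one coordinate in `T`. -/
def OneIn (T : Finset (Fin n)) (E : Fin k → Fin n) : Prop :=
  ∃ a, E a ∈ T ∧ ∀ a', a' ≠ a → E a' ∉ T

theorem oneIn_pr [NeZero n] (hk : 0 < k) (T : Finset (Fin n)) (hT : T.Nonempty) (t0 : ℕ)
    (hT0 : T.card ≤ t0) (ht0 : t0 ≤ n) :
    1 / (n : ℝ) * (1 - (t0 : ℝ) / n) ^ k ≤ pr (fun E : Fin k → Fin n => OneIn T E) := by
  classical
  have hn : (0 : ℝ) < n := by exact_mod_cast NeZero.pos n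
  let a0 : Fin k := ⟨0, hk⟩
  let M : Fin k → Fin n → Prop := fun a x => if a = a0 then x ∈ T else x ∉ T
  have h1 : pr (fun E : Fin k → Fin n => ∀ a, M a (E a)) ≤
      pr (fun E : Fin k → Fin n => OneIn T E) := by
    refine pr_mono fun E hE => ⟨a0, ?_, fun a' ha' => ?_⟩
    · have := hE a0
      simpa [M] using this
    · have := hE a'
      simpa [M, ha'] using this
  refine le_trans ?_ h1
  rw [pr_pi]
  have h2 : pr (fun x : Fin n => x ∈ T) ≥ 1 / n := by
    rw [pr_mem_le]
    gcongr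
    have := hT.card_pos
    exact_mod_cast this
  have h3 : (1 - (t0 : ℝ) / n) ≤ pr (fun x : Fin n => x ∉ T) := by
    rw [pr_not, pr_mem_le]
    gcongr
  have h4 : 0 ≤ 1 - (t0 : ℝ) / n := by
    rw [sub_nonneg, div_le_one hn]
    exact_mod_cast ht0
  have h4' : 1 - (t0 : ℝ) / n ≤ 1 := by
    have : (0 : ℝ) ≤ (t0 : ℝ) / n := by positivity
    linarith
  rw [← mul_prod_erase univ _ (mem_univ a0)]
  have h5 : pr (M a0) = pr (fun x : Fin n => x ∈ T) := by
    simp [M]
  have h6 : ∀ a ∈ univ.erase a0, pr (M a) = pr (fun x : Fin n => x ∉ T) := by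
    intro a ha
    have : a ≠ a0 := ne_of_mem_erase ha
    simp [M, this]
  rw [h5, prod_congr rfl h6, prod_const]
  have h7 : (univ.erase a0).card ≤ k := by
    refine (card_le_card (erase_subset _ _)).trans ?_
    simp
  calc 1 / (n : ℝ) * (1 - (t0 : ℝ) / n) ^ k
      ≤ 1 / (n : ℝ) * (1 - (t0 : ℝ) / n) ^ (univ.erase a0).card := by
        gcongr 1 / (n : ℝ) * ?_
        exact pow_le_pow_of_le_one h4 h4' h7
    _ ≤ pr (fun x : Fin n => x ∈ T) * pr (fun x : Fin n => x ∉ T) ^ (univ.erase a0).card := by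
        have h8 := pr_nonneg (fun x : Fin n => x ∈ T)
        gcongr

/-- No coordinate in `B`, an odd number of coordinates in `T`. -/
def OddIn (B T : Finset (Fin n)) (E : Fin k → Fin n) : Prop :=
  (∀ a, E a ∉ B) ∧ (∑ a, if E a ∈ T then (1 : ZMod 2) else 0) = 1

theorem prod_sign (T : Finset (Fin n)) (E : Fin k → Fin n) :
    ((∑ a, if E a ∈ T then (1 : ZMod 2) else 0) = 1 ∧
      ∏ a, (if E a ∈ T then (-1 : ℝ) else 1) = -1) ∨
    ((∑ a, if E a ∈ T then (1 : ZMod 2) else 0) = 0 ∧
      ∏ a, (if E a ∈ T then (-1 : ℝ) else 1) = 1) := by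
  classical
  have key : ∀ S : Finset (Fin k),
    ((∑ a ∈ S, if E a ∈ T then (1 : ZMod 2) else 0) = 1 ∧
      ∏ a ∈ S, (if E a ∈ T then (-1 : ℝ) else 1) = -1) ∨
    ((∑ a ∈ S, if E a ∈ T then (1 : ZMod 2) else 0) = 0 ∧
      ∏ a ∈ S, (if E a ∈ T then (-1 : ℝ) else 1) = 1) := by
    intro S
    induction S using Finset.induction_on with
    | empty => right; simp
    | insert a S ha ih =>
      rw [sum_insert ha, prod_insert ha]
      by_cases h : E a ∈ T
      · simp only [h, if_true]
        rcases ih with ⟨h1, h2⟩ | ⟨h1, h2⟩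
        · right
          rw [h1, h2]
          exact ⟨by decide, by norm_num⟩
        · left
          rw [h1, h2]
          exact ⟨by decide, by norm_num⟩
      · simp only [h, if_false, zero_add, one_mul]
        exact ih
  exact key univ

theorem oddIn_pr [NeZero n] (hk : Odd k) (B T : Finset (Fin n)) (hBT : Disjoint B T)
    {ε θ : ℕ} (hB : B.card ≤ ε) (hε : ε ≤ n) (hT : θ ≤ T.card)
    (hθ : (1 - 2 * (θ : ℝ) / n) ^ k ≤ 1 / 2) :
    1 / 4 * (1 - (ε : ℝ) / n) ^ k ≤ pr (fun E : Fin k → Fin n => OddIn B T E) := by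
  classical
  have hn : (0 : ℝ) < n := by exact_mod_cast NeZero.pos n
  let χ : Fin n → ℝ := fun u => if u ∈ B then 0 else if u ∈ T then -1 else 1
  let ψ : Fin n → ℝ := fun u => if u ∈ B then 0 else 1
  have h1 : ∑ E : Fin k → Fin n, (∏ a, ψ (E a) - ∏ a, χ (E a)) ≤
      2 * ((univ.filter (fun E : Fin k → Fin n => OddIn B T E)).card : ℝ) := by
    rw [card_filter]
    push_cast
    rw [mul_sum]
    refine sum_le_sum fun E _ => ?_
    by_cases hE : ∀ a, E a ∉ B
    · have h2 : ∏ a, ψ (E a) = 1 := prod_eq_one fun a _ => by simp [ψ, hE a]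
      have h3 : ∏ a, χ (E a) = ∏ a, (if E a ∈ T then (-1 : ℝ) else 1) :=
        prod_congr rfl fun a _ => by simp [χ, hE a]
      rw [h2, h3]
      rcases prod_sign T E with ⟨h4, h5⟩ | ⟨h4, h5⟩
      · have : OddIn B T E := ⟨hE, h4⟩
        rw [h5, if_pos this]
        norm_num
      · rw [h5]
        split_ifs <;> norm_num
    · push Not at hE
      obtain ⟨a, ha⟩ := hE
      have h2 : ∏ a, ψ (E a) = 0 := prod_eq_zero (mem_univ a) (by simp [ψ, ha])
      have h3 : ∏ a, χ (E a) = 0 := prod_eq_zero (mem_univ a) (by simp [χ, ha])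
      rw [h2, h3]
      split_ifs <;> norm_num
  rw [sum_sub_distrib, ← Fintype.sum_pow, ← Fintype.sum_pow] at h1
  have hψ : ∑ u, ψ u = n - B.card := by
    have h2 : ∀ u, ψ u = 1 - (if u ∈ B then 1 else 0) := by
      intro u
      simp only [ψ]
      split_ifs <;> norm_num
    simp only [h2]
    rw [sum_sub_distrib]
    simp
  have hχ : ∑ u, χ u = n - B.card - 2 * T.card := by
    have h2 : ∀ u, χ u = 1 - (if u ∈ B then 1 else 0) - 2 * (if u ∈ T then 1 else 0) := by
      intro u
      simp only [χ]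
      by_cases hu : u ∈ B
      · have : u ∉ T := disjoint_left.1 hBT hu
        simp [hu, this]
      · by_cases hu' : u ∈ T
        · simp [hu, hu']; norm_num
        · simp [hu, hu']
    simp only [h2]
    rw [sum_sub_distrib, sum_sub_distrib, ← mul_sum]
    simp
  rw [hψ, hχ] at h1
  have hBn : (B.card : ℝ) ≤ n := by
    have : B.card ≤ n := hB.trans hε
    exact_mod_cast this
  have hB' : (B.card : ℝ) ≤ ε := by exact_mod_cast hB
  have hT' : (θ : ℝ) ≤ T.card := by exact_mod_cast hT
  have hBT' : (B.card : ℝ) + T.card ≤ n := by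
    have h2 : (B ∪ T).card ≤ n := by
      have := card_le_univ (B ∪ T)
      rwa [Fintype.card_fin] at this
    rw [card_union_of_disjoint hBT] at h2
    exact_mod_cast h2
  have h2 : ((n : ℝ) - B.card - 2 * T.card) ^ k ≤ 1 / 2 * ((n : ℝ) - B.card) ^ k := by
    by_cases hneg : (n : ℝ) - B.card - 2 * T.card ≤ 0
    · have h3 := hk.pow_nonpos hneg
      have h4 : 0 ≤ ((n : ℝ) - B.card) ^ k := by
        apply pow_nonneg
        linarith
      linarith
    · push Not at hneg
      have h3 : (n : ℝ) - B.card - 2 * T.card ≤ (1 - 2 * (θ : ℝ) / n) * (n - B.card) := by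
        have h4 : 2 * (θ : ℝ) / n * (n - B.card) ≤ 2 * θ := by
          rw [div_mul_eq_mul_div, div_le_iff₀ hn]
          have : (0 : ℝ) ≤ B.card := by positivity
          have : (0 : ℝ) ≤ 2 * (θ : ℝ) := by positivity
          nlinarith
        nlinarith
      calc ((n : ℝ) - B.card - 2 * T.card) ^ k
          ≤ ((1 - 2 * (θ : ℝ) / n) * (n - B.card)) ^ k := by
            gcongr
        _ = (1 - 2 * (θ : ℝ) / n) ^ k * ((n : ℝ) - B.card) ^ k := by rw [mul_pow]
        _ ≤ 1 / 2 * ((n : ℝ) - B.card) ^ k := by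
            have h4 : 0 ≤ ((n : ℝ) - B.card) ^ k := by
              apply pow_nonneg
              linarith
            gcongr
  have h3 : 1 / 4 * ((n : ℝ) - B.card) ^ k ≤
      ((univ.filter (fun E : Fin k → Fin n => OddIn B T E)).card : ℝ) := by
    linarith
  rw [pr_eq, Fintype.card_fun, Fintype.card_fin, Fintype.card_fin]
  push_cast
  rw [le_div_iff₀ (by positivity)]
  refine le_trans ?_ h3
  rw [mul_assoc, ← mul_pow]
  have h5 : (1 - (ε : ℝ) / n) * n = n - ε := by
    field_simp
  rw [h5]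
  have hεn : (ε : ℝ) ≤ n := by exact_mod_cast hε
  have h6 : (0 : ℝ) ≤ n - ε := by linarith
  gcongr

/-- Random right-hand sides. -/
theorem unsat_bound (H : Fin m → Fin k → Fin n) {ε2 : ℕ} (hε2 : 8 * ε2 ≤ m) :
    pr (fun b : Fin m → ZMod 2 => ∃ z : Fin n → Bool,
      (univ.filter (fun i => rowSum (H i) z ≠ b i)).card ≤ ε2) ≤ 2 ^ n * (3 / 4) ^ m := by
  classical
  have h1 : ∀ z : Fin n → Bool, pr (fun b : Fin m → ZMod 2 =>
      (univ.filter (fun i => rowSum (H i) z ≠ b i)).card ≤ ε2) ≤ (3 / 4) ^ m := by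
    intro z
    have hcard : (univ.filter (fun b : Fin m → ZMod 2 =>
        (univ.filter (fun i => rowSum (H i) z ≠ b i)).card ≤ ε2)).card ≤
        (univ.filter (fun D : Finset (Fin m) => D.card ≤ ε2)).card := by
      refine card_le_card_of_injOn
        (fun b => univ.filter (fun i => rowSum (H i) z ≠ b i)) ?_ ?_
      · intro b hb
        simpa using hb
      · intro b _ b' _ hbb
        funext i
        have h2 := Finset.ext_iff.1 hbb i
        simp only [mem_filter, mem_univ, true_and] at h2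
        have h3 : ∀ x y y' : ZMod 2, (x ≠ y ↔ x ≠ y') → y = y' := by decide
        exact h3 _ _ _ h2
    have hx : ((univ.filter (fun D : Finset (Fin m) => D.card ≤ ε2)).card : ℝ) *
        (3 / 4) ^ m ≤ (1 + (3 / 4) ^ 8) ^ m := by
      have h2 := sum_pow_card (ι := Fin m) ((3 / 4 : ℝ) ^ 8)
      rw [Fintype.card_fin] at h2
      rw [← h2, ← nsmul_eq_mul]
      refine le_trans (card_nsmul_le_sum (univ.filter (fun D : Finset (Fin m) => D.card ≤ ε2))
        (fun D => ((3 / 4 : ℝ) ^ 8) ^ D.card) _ ?_) ?_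
      · intro D hD
        simp only [mem_filter, mem_univ, true_and] at hD
        rw [← pow_mul]
        apply pow_le_pow_of_le_one (by norm_num) (by norm_num)
        omega
      · refine sum_le_sum_of_subset_of_nonneg (subset_univ _) fun D _ _ => by positivity
    have hx' : ((univ.filter (fun D : Finset (Fin m) => D.card ≤ ε2)).card : ℝ) ≤
        (3 / 2) ^ m := by
      have h2 : ((3 : ℝ) / 2) ^ m * (3 / 4) ^ m = (9 / 8) ^ m := by
        rw [← mul_pow]
        norm_num
      have h3 : (1 + (3 / 4 : ℝ) ^ 8) ^ m ≤ (9 / 8) ^ m := by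
        gcongr
        norm_num
      have h4 : (0 : ℝ) < (3 / 4) ^ m := by positivity
      refine le_of_mul_le_mul_right ?_ h4
      rw [h2]
      exact hx.trans h3
    rw [pr_eq, Fintype.card_fun, Fintype.card_fin, ZMod.card]
    push_cast
    rw [div_le_iff₀ (by positivity)]
    have h5 : ((3 : ℝ) / 4) ^ m * 2 ^ m = (3 / 2) ^ m := by
      rw [← mul_pow]
      norm_num
    rw [h5]
    refine le_trans ?_ hx'
    exact_mod_cast hcard
  refine (pr_exists_fintype _).trans ((sum_le_sum fun z _ => h1 z).trans ?_)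
  rw [sum_const, card_univ, nsmul_eq_mul]
  simp

end Pool.Agent.MP_9cec2c_lc.SubstRed
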