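import Pool.Agent.Lib.MP_9cec2c_lc.Mg.G055
import Pool.Agent.Lib.MP_9cec2c_lc.SRExpand

/-!
Random constraint systems for two players: every pair of inputs violates a constraint from both
sides, and few constraints touch many blocks.
-/

set_option autoImplicit false
set_option linter.unusedSectionVars false

namespace Pool.Agent.MP_9cec2c_lc.LovSch

open Finset
open Pool.Agent.MP_9cec2c_lc.SubstRed
open Pool.Agent.MP_9cec2c_lc.FormulaLines

variable {n W q m : ℕ}

/-- The input `x` of player `s` matches the pattern `e`. -/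
def Match (s : Bool) (e : Bool × Fin q → Fin n × Fin W) (x : Fin n → Fin W) : Prop :=
  ∀ j, x (e (s, j)).1 = (e (s, j)).2

instance (s : Bool) (e : Bool × Fin q → Fin n × Fin W) (x : Fin n → Fin W) :
    Decidable (Match s e x) := by unfold Match; infer_instance

/-- The constraints that the input `x` of player `s` matches. -/
def hit (E : Fin m → Bool × Fin q → Fin n × Fin W) (s : Bool) (x : Fin n → Fin W) :
    Finset (Fin m) := univ.filter fun i => Match s (E i) x

/-- The blocks of player `s` in the constraints of `M`. -/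
def touch (E : Fin m → Bool × Fin q → Fin n × Fin W) (s : Bool) (M : Finset (Fin m)) :
    Finset (Fin n) := M.biUnion fun i => univ.image fun j => (E i (s, j)).1

theorem pr_graph (hn : 0 < n) (hW : 0 < W) (x : Fin n → Fin W) :
    pr (fun p : Fin n × Fin W => x p.1 = p.2) = 1 / W := by
  classical
  have h1 : (fun p : Fin n × Fin W => x p.1 = p.2) =
      fun p => p ∈ (univ : Finset (Fin n)).image fun u => (u, x u) := by
    funext p
    rw [mem_image, eq_iff_iff]
    constructor
    · intro h
      exact ⟨p.1, mem_univ _, by rw [h]⟩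
    · rintro ⟨u, -, rfl⟩
      rfl
  rw [h1, pr_mem_finset, card_image_of_injective _ (fun a b h => (Prod.ext_iff.1 h).1),
    card_univ, Fintype.card_prod, Fintype.card_fin, Fintype.card_fin]
  have hn' : (0 : ℝ) < n := by exact_mod_cast hn
  have hW' : (0 : ℝ) < W := by exact_mod_cast hW
  push_cast
  field_simp

theorem pr_match (hn : 0 < n) (hW : 0 < W) (x y : Fin n → Fin W) :
    pr (fun e : Bool × Fin q → Fin n × Fin W => Match false e x ∧ Match true e y) =
      (1 / W : ℝ) ^ (2 * q) := by
  classical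
  have h1 : (fun e : Bool × Fin q → Fin n × Fin W => Match false e x ∧ Match true e y) =
      fun e => ∀ c : Bool × Fin q, (if c.1 then y else x) (e c).1 = (e c).2 := by
    funext e
    rw [eq_iff_iff]
    unfold Match
    constructor
    · rintro ⟨h1, h2⟩ ⟨s, j⟩
      cases s
      · simpa using h1 j
      · simpa using h2 j
    · intro h
      exact ⟨fun j => by simpa using h (false, j), fun j => by simpa using h (true, j)⟩
  rw [h1, pr_pi (fun (c : Bool × Fin q) (p : Fin n × Fin W) =>
    (if c.1 then y else x) p.1 = p.2)]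
  have h2 : ∀ c : Bool × Fin q,
      pr (fun p : Fin n × Fin W => (if c.1 then y else x) p.1 = p.2) = 1 / W := by
    intro c
    exact pr_graph hn hW _
  simp only [h2, prod_const, card_univ, Fintype.card_prod, Fintype.card_bool, Fintype.card_fin]

theorem pr_blocks (hn : 0 < n) (hW : 0 < W) (s : Bool) (T : Finset (Fin m))
    (Z : Finset (Fin n)) :
    pr (fun E : Fin m → Bool × Fin q → Fin n × Fin W =>
      ∀ i ∈ T, ∀ j, (E i (s, j)).1 ∈ Z) ≤ (((Z.card : ℝ) / n) ^ q) ^ T.card := by
  classical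
  have hne : Nonempty (Fin n × Fin W) := ⟨(⟨0, hn⟩, ⟨0, hW⟩)⟩
  refine indep_fixed T (fun e : Bool × Fin q → Fin n × Fin W => ∀ j, (e (s, j)).1 ∈ Z) _ ?_
  have hZ : pr (fun p : Fin n × Fin W => p.1 ∈ Z) = (Z.card : ℝ) / n := by
    have : Nonempty (Fin W) := ⟨⟨0, hW⟩⟩
    rw [pr_fst (Ω' := Fin W) (fun u : Fin n => u ∈ Z), pr_mem_finset, Fintype.card_fin]
  have h1 := indep_fixed ((univ : Finset (Fin q)).image fun j => (s, j))
    (fun p : Fin n × Fin W => p.1 ∈ Z) ((Z.card : ℝ) / n) hZ.le
  rw [card_image_of_injective _ (fun a b h => (Prod.ext_iff.1 h).2), card_univ,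
    Fintype.card_fin] at h1
  refine le_trans (pr_mono fun e he c hc => ?_) h1
  rw [mem_image] at hc
  obtain ⟨j, -, rfl⟩ := hc
  exact he j

/-- The numerical bound for one size. -/
theorem spread_term (hn : 0 < n) (hW : 0 < W) {v r t : ℕ} (hv0 : 0 < v) (hvq : v ≤ q)
    (ht0 : 0 < t) (htr : t ≤ r)
    (hexp : (16 : ℝ) * m * 3 ^ v * ((v * r : ℕ) / n : ℝ) ^ (q - v) ≤ 1) (s : Bool) :
    pr (fun E : Fin m → Bool × Fin q → Fin n × Fin W =>
      ∃ p ∈ (powersetCard t (univ : Finset (Fin m))) ×ˢ
        (powersetCard (v * t) (univ : Finset (Fin n))),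
        ∀ i ∈ p.1, ∀ j, (E i (s, j)).1 ∈ p.2) ≤ (1 / 16 : ℝ) ^ t := by
  classical
  have hn' : (0 : ℝ) < n := by exact_mod_cast hn
  have hvt : 0 < v * t := Nat.mul_pos hv0 ht0
  have hvt' : (0 : ℝ) < ((v * t : ℕ) : ℝ) := by exact_mod_cast hvt
  refine (pr_exists _ _).trans ?_
  have h1 : ∀ p ∈ (powersetCard t (univ : Finset (Fin m))) ×ˢ
        (powersetCard (v * t) (univ : Finset (Fin n))),
      pr (fun E : Fin m → Bool × Fin q → Fin n × Fin W =>
        ∀ i ∈ p.1, ∀ j, (E i (s, j)).1 ∈ p.2) ≤ ((((v * t : ℕ) : ℝ) / n) ^ q) ^ t := by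
    rintro ⟨T, Z⟩ hp
    rw [mem_product, mem_powersetCard, mem_powersetCard] at hp
    have := pr_blocks (q := q) hn hW s T Z
    rw [hp.1.2, hp.2.2] at this
    exact this
  refine (sum_le_sum h1).trans ?_
  rw [sum_const, card_product, card_powersetCard, card_powersetCard, card_univ, card_univ,
    Fintype.card_fin, Fintype.card_fin, nsmul_eq_mul]
  push_cast
  have h2 : (m.choose t : ℝ) ≤ (m : ℝ) ^ t := by
    have h3 : (m.choose t : ℝ) ≤ (m : ℝ) ^ t / t.factorial := Nat.choose_le_pow_div t m
    refine h3.trans (div_le_self (by positivity) ?_)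
    exact_mod_cast Nat.factorial_pos t
  have h3 : (n.choose (v * t) : ℝ) ≤ ((3 * n / (v * t) : ℝ) ^ v) ^ t := by
    have := choose_le_three (n := n) (k := v * t) hvt
    push_cast at this
    rw [← pow_mul]
    exact this
  have hz : (0 : ℝ) < (v : ℝ) * t := by
    have := hvt'
    push_cast at this
    exact this
  calc (m.choose t : ℝ) * (n.choose (v * t) : ℝ) * (((v : ℝ) * t / n) ^ q) ^ t
      ≤ (m : ℝ) ^ t * ((3 * n / (v * t) : ℝ) ^ v) ^ t * (((v : ℝ) * t / n) ^ q) ^ t := by
        gcongr
    _ = (m * 3 ^ v * ((v : ℝ) * t / n) ^ (q - v)) ^ t := by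
        rw [← mul_pow, ← mul_pow]
        congr 1
        obtain ⟨c, rfl⟩ : ∃ c, q = v + c := ⟨q - v, by omega⟩
        rw [Nat.add_sub_cancel_left, pow_add, div_pow, div_pow, div_pow, mul_pow, mul_pow]
        field_simp
    _ ≤ (1 / 16 : ℝ) ^ t := by
        refine pow_le_pow_left₀ (by positivity) ?_ _
        have h4 : ((v : ℝ) * t / n) ^ (q - v) ≤ ((v * r : ℕ) / n : ℝ) ^ (q - v) := by
          refine pow_le_pow_left₀ (by positivity) ?_ _
          rw [div_le_div_iff_of_pos_right hn']
          push_cast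
          gcongr
        have h5 : (m : ℝ) * 3 ^ v * ((v : ℝ) * t / n) ^ (q - v) ≤
            m * 3 ^ v * ((v * r : ℕ) / n : ℝ) ^ (q - v) := by gcongr
        linarith

/-- Existence of the constraint system. -/
theorem exists_csp {v r : ℕ} (hn : 0 < n) (hW : 0 < W) (hv0 : 0 < v) (hvq : v ≤ q)
    (hvr : v * r ≤ n) (hm : 2 * n * W ^ (2 * q + 1) + 2 * W ^ (2 * q) ≤ m)
    (hexp : (16 : ℝ) * m * 3 ^ v * ((v * r : ℕ) / n : ℝ) ^ (q - v) ≤ 1) :
    ∃ E : Fin m → Bool × Fin q → Fin n × Fin W,
      (∀ x y, ∃ i, i ∈ hit E false x ∧ i ∈ hit E true y) ∧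
      ∀ s, ∀ M : Finset (Fin m), M.card ≤ r → v * M.card ≤ (touch E s M).card := by
  classical
  have hne : Nonempty (Fin n × Fin W) := ⟨(⟨0, hn⟩, ⟨0, hW⟩)⟩
  have hn' : (0 : ℝ) < n := by exact_mod_cast hn
  have hW' : (0 : ℝ) < W := by exact_mod_cast hW
  -- few constraints touch many blocks
  have hsp : ∀ s : Bool, pr (fun E : Fin m → Bool × Fin q → Fin n × Fin W =>
      ∃ t ∈ Icc 1 r, ∃ p ∈ (powersetCard t (univ : Finset (Fin m))) ×ˢ
        (powersetCard (v * t) (univ : Finset (Fin n))),
        ∀ i ∈ p.1, ∀ j, (E i (s, j)).1 ∈ p.2) ≤ 1 / 15 := by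
    intro s
    refine (pr_exists _ _).trans ((sum_le_sum fun t ht => ?_).trans
      (b := ∑ t ∈ Icc 1 r, (1 / 16 : ℝ) ^ t) ?_)
    · rw [mem_Icc] at ht
      exact spread_term hn hW hv0 hvq (by omega) ht.2 hexp s
    · have hgeo : ∀ k : ℕ, ∑ s ∈ Icc 1 k, (1 / 16 : ℝ) ^ s = (1 - (1 / 16 : ℝ) ^ k) / 15 := by
        intro k
        induction k with
        | zero => simp
        | succ k ih =>
          rw [sum_Icc_succ_top (by omega), ih]
          ring
      rw [hgeo]
      have : (0 : ℝ) < (1 / 16 : ℝ) ^ r := by positivity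
      linarith
  -- all pairs violate a constraint
  have hun : pr (fun E : Fin m → Bool × Fin q → Fin n × Fin W =>
      ∃ z : (Fin n → Fin W) × (Fin n → Fin W), ∀ i, ¬ (Match false (E i) z.1 ∧
        Match true (E i) z.2)) ≤ 1 / 4 := by
    refine (pr_exists_fintype _).trans ?_
    have h1 : ∀ z : (Fin n → Fin W) × (Fin n → Fin W),
        pr (fun E : Fin m → Bool × Fin q → Fin n × Fin W =>
          ∀ i, ¬ (Match false (E i) z.1 ∧ Match true (E i) z.2)) ≤
        Real.exp (-(2 * n * W + 2)) := by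
      intro z
      refine (all_fail (fun e : Bool × Fin q → Fin n × Fin W =>
        Match false e z.1 ∧ Match true e z.2) _ (pr_match hn hW z.1 z.2).ge).trans ?_
      refine Real.exp_le_exp.2 ?_
      rw [neg_le_neg_iff]
      have h2 : ((2 * n * W ^ (2 * q + 1) + 2 * W ^ (2 * q) : ℕ) : ℝ) ≤ m := by
        exact_mod_cast hm
      have h3 : (1 / W : ℝ) ^ (2 * q) * ((2 * n * W ^ (2 * q + 1) + 2 * W ^ (2 * q) : ℕ) : ℝ) =
          2 * n * W + 2 := by
        push_cast
        rw [pow_succ, one_div, inv_pow]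
        have : (W : ℝ) ^ (2 * q) ≠ 0 := by positivity
        field_simp
      rw [← h3]
      gcongr
    refine (sum_le_sum fun z _ => h1 z).trans ?_
    rw [sum_const, card_univ, Fintype.card_prod, Fintype.card_fun, Fintype.card_fin,
      Fintype.card_fin, nsmul_eq_mul]
    have h2 : (W : ℝ) ≤ Real.exp W := by
      have := Real.add_one_le_exp (W : ℝ)
      linarith
    have h3 : ((W ^ n * W ^ n : ℕ) : ℝ) ≤ Real.exp (2 * n * W) := by
      push_cast
      calc (W : ℝ) ^ n * (W : ℝ) ^ n = (W : ℝ) ^ (2 * n) := by rw [← pow_add]; congr 1; ring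
        _ ≤ Real.exp W ^ (2 * n) := by gcongr
        _ = Real.exp (2 * n * W) := by
            rw [← Real.exp_nat_mul]
            congr 1
            push_cast
            ring
    have h4 : (4 : ℝ) ≤ Real.exp 2 := by
      have h5 : Real.exp 2 = Real.exp 1 * Real.exp 1 := by
        rw [← Real.exp_add]
        norm_num
      have h6 := Real.exp_one_gt_d9
      rw [h5]
      nlinarith
    calc ((W ^ n * W ^ n : ℕ) : ℝ) * Real.exp (-(2 * n * W + 2))
        ≤ Real.exp (2 * n * W) * Real.exp (-(2 * n * W + 2)) := by gcongr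
      _ = (Real.exp 2)⁻¹ := by
          rw [← Real.exp_add, ← Real.exp_neg]
          congr 1
          ring
      _ ≤ (4 : ℝ)⁻¹ := by gcongr
      _ = 1 / 4 := by norm_num
  have hall : pr (fun E : Fin m → Bool × Fin q → Fin n × Fin W =>
      (∃ z : (Fin n → Fin W) × (Fin n → Fin W), ∀ i, ¬ (Match false (E i) z.1 ∧
        Match true (E i) z.2)) ∨ ∃ s : Bool, ∃ t ∈ Icc 1 r,
        ∃ p ∈ (powersetCard t (univ : Finset (Fin m))) ×ˢ
        (powersetCard (v * t) (univ : Finset (Fin n))),
        ∀ i ∈ p.1, ∀ j, (E i (s, j)).1 ∈ p.2) < 1 := by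
    refine lt_of_le_of_lt ((pr_or _ _).trans (add_le_add hun
      ((pr_exists_fintype _).trans (sum_le_sum fun s _ => hsp s)))) ?_
    rw [sum_const, card_univ, Fintype.card_bool, nsmul_eq_mul]
    norm_num
  obtain ⟨E, hE⟩ := exists_of_pr_lt_one hall
  push Not at hE
  obtain ⟨h1, h2⟩ := hE
  refine ⟨E, fun x y => ?_, fun s M hM => ?_⟩
  · obtain ⟨i, hi⟩ := h1 (x, y)
    exact ⟨i, mem_filter.2 ⟨mem_univ _, hi.1⟩, mem_filter.2 ⟨mem_univ _, hi.2⟩⟩
  · rcases Nat.eq_zero_or_pos M.card with h0 | h0
    · rw [h0, mul_zero]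
      exact Nat.zero_le _
    · by_contra hcon
      push Not at hcon
      obtain ⟨Z, hZ1, hZ2⟩ := exists_superset_card_eq (s := touch E s M)
        (n := v * M.card) hcon.le (by
          rw [Fintype.card_fin]
          exact (Nat.mul_le_mul_left _ hM).trans hvr)
      obtain ⟨i, hi, j, hj⟩ := h2 s M.card (mem_Icc.2 ⟨h0, hM⟩) (M, Z) (by
        rw [mem_product, mem_powersetCard, mem_powersetCard]
        exact ⟨⟨subset_univ _, rfl⟩, subset_univ _, hZ2⟩)
      exact hj (hZ1 (mem_biUnion.2 ⟨i, hi, mem_image_of_mem _ (mem_univ j)⟩))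

/-- Inputs that match a set of constraints are rare. -/
theorem card_hit (E : Fin m → Bool × Fin q → Fin n × Fin W) (s : Bool)
    (M : Finset (Fin m)) :
    (univ.filter fun x => M ⊆ hit E s x).card * W ^ (touch E s M).card ≤ W ^ n := by
  classical
  rcases (univ.filter fun x => M ⊆ hit E s x).eq_empty_or_nonempty with h0 | ⟨x0, hx0⟩
  · rw [h0, card_empty, zero_mul]
    exact Nat.zero_le _
  · have key : ∀ x ∈ univ.filter (fun x => M ⊆ hit E s x), ∀ u ∈ touch E s M, x u = x0 u := by
      intro x hx u hu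
      rw [mem_filter] at hx hx0
      unfold touch at hu
      rw [mem_biUnion] at hu
      obtain ⟨i, hi, hu⟩ := hu
      rw [mem_image] at hu
      obtain ⟨j, -, rfl⟩ := hu
      have h1 := (mem_filter.1 (hx.2 hi)).2 j
      have h2 := (mem_filter.1 (hx0.2 hi)).2 j
      rw [h1, h2]
    have h1 : (univ.filter fun x => M ⊆ hit E s x) ⊆
        Fintype.piFinset (fun u => if u ∈ touch E s M then {x0 u} else univ) := by
      intro x hx
      rw [Fintype.mem_piFinset]
      intro u
      by_cases hu : u ∈ touch E s M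
      · rw [if_pos hu, mem_singleton]
        exact key x hx u hu
      · rw [if_neg hu]
        exact mem_univ _
    have h2 := card_le_card h1
    rw [Fintype.card_piFinset] at h2
    have h3 : ∏ u : Fin n, (if u ∈ touch E s M then ({x0 u} : Finset (Fin W)) else univ).card =
        W ^ (n - (touch E s M).card) := by
      have h4 : ∀ u : Fin n, (if u ∈ touch E s M then ({x0 u} : Finset (Fin W)) else univ).card =
          if u ∈ touch E s M then 1 else W := by
        intro u
        split_ifs
        · exact card_singleton _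
        · rw [card_univ, Fintype.card_fin]
      simp only [h4]
      rw [prod_ite, prod_const_one, one_mul, prod_const]
      congr 1
      rw [filter_not, filter_mem_eq_inter, univ_inter, card_sdiff_of_subset (subset_univ _),
        card_univ, Fintype.card_fin]
    rw [h3] at h2
    have h5 : (touch E s M).card ≤ n := by
      have := card_le_univ (touch E s M)
      rwa [Fintype.card_fin] at this
    calc (univ.filter fun x => M ⊆ hit E s x).card * W ^ (touch E s M).card
        ≤ W ^ (n - (touch E s M).card) * W ^ (touch E s M).card := Nat.mul_le_mul_right _ h2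
      _ = W ^ n := by
          rw [← pow_add]
          congr 1
          omega

end Pool.Agent.MP_9cec2c_lc.LovSch
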