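import Pool.Agent.Lib.MP_9cec2c_lc.LSCsp
import Pool.Agent.Lib.MP_9cec2c_lc.Mg.G056

/-!
The formula of a constraint system for two players, with blocks in threshold encoding, and the
lower bound in terms of the parameters.
-/

set_option autoImplicit false
set_option linter.unusedSectionVars false

namespace Pool.Agent.MP_9cec2c_lc.LovSch

open Finset

variable {n W q m : ℕ} {V : Type} [Fintype V] [DecidableEq V]

/-- The clause of a constraint. -/
def cstClause (e : Bool × Fin n × Fin (W + 1) ↪ V) (c : Bool × Fin q → Fin n × Fin W) :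
    Clause V :=
  (univ : Finset (Bool × Fin q)).image (fun p =>
    (e (p.1, (c p).1, (c p).2.castSucc), false)) ∪
  (univ : Finset (Bool × Fin q)).image fun p => (e (p.1, (c p).1, (c p).2.succ), true)

/-- The clauses of the constraint system. -/
def cnf (e : Bool × Fin n × Fin (W + 1) ↪ V) (E : Fin m → Bool × Fin q → Fin n × Fin W) :
    Finset (Clause V) :=
  ((univ : Finset (Bool × Fin n)).image (fun p => {(e (p.1, p.2, 0), true)}) ∪
  (univ : Finset (Bool × Fin n)).image fun p => {(e (p.1, p.2, Fin.last W), false)}) ∪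
  (univ : Finset (Fin m)).image fun i => cstClause e (E i)

theorem not_holds_cst {e : Bool × Fin n × Fin (W + 1) ↪ V} {c : Bool × Fin q → Fin n × Fin W}
    {z : V → Bool} : ¬ Holds z (cstClause e c) ↔ ∀ p : Bool × Fin q,
      z (e (p.1, (c p).1, (c p).2.castSucc)) = true ∧
      z (e (p.1, (c p).1, (c p).2.succ)) = false := by
  unfold Holds cstClause
  constructor
  · intro h p
    push Not at h
    have h1 := h (e (p.1, (c p).1, (c p).2.castSucc), false)
      (mem_union_left _ (mem_image.2 ⟨p, mem_univ _, rfl⟩))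
    have h2 := h (e (p.1, (c p).1, (c p).2.succ), true)
      (mem_union_right _ (mem_image.2 ⟨p, mem_univ _, rfl⟩))
    simp only [ne_eq, Bool.not_eq_false, Bool.not_eq_true] at h1 h2
    exact ⟨h1, h2⟩
  · rintro h ⟨l, hl, hl'⟩
    rw [mem_union, mem_image, mem_image] at hl
    rcases hl with ⟨p, -, rfl⟩ | ⟨p, -, rfl⟩
    · simp only at hl'
      rw [(h p).1] at hl'
      exact Bool.noConfusion hl'
    · simp only at hl'
      rw [(h p).2] at hl'
      exact Bool.noConfusion hl'

theorem cnf_card (e : Bool × Fin n × Fin (W + 1) ↪ V)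
    (E : Fin m → Bool × Fin q → Fin n × Fin W) : (cnf e E).card ≤ 4 * n + m := by
  unfold cnf
  refine (card_union_le _ _).trans ?_
  have h1 := card_union_le
    ((univ : Finset (Bool × Fin n)).image fun p => ({(e (p.1, p.2, 0), true)} : Clause V))
    ((univ : Finset (Bool × Fin n)).image fun p =>
      ({(e (p.1, p.2, Fin.last W), false)} : Clause V))
  have h2 := card_image_le (s := (univ : Finset (Bool × Fin n)))
    (f := fun p => ({(e (p.1, p.2, 0), true)} : Clause V))
  have h3 := card_image_le (s := (univ : Finset (Bool × Fin n)))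
    (f := fun p => ({(e (p.1, p.2, Fin.last W), false)} : Clause V))
  have h4 := card_image_le (s := (univ : Finset (Fin m))) (f := fun i => cstClause e (E i))
  rw [card_univ, Fintype.card_prod, Fintype.card_bool, Fintype.card_fin] at h2 h3
  rw [card_univ, Fintype.card_fin] at h4
  omega

theorem cnf_width (hq : 0 < q) (e : Bool × Fin n × Fin (W + 1) ↪ V)
    (E : Fin m → Bool × Fin q → Fin n × Fin W) {C : Clause V} (hC : C ∈ cnf e E) :
    C.card ≤ 4 * q := by
  unfold cnf at hC
  rw [mem_union, mem_union, mem_image, mem_image, mem_image] at hC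
  rcases hC with (⟨p, -, rfl⟩ | ⟨p, -, rfl⟩) | ⟨i, -, rfl⟩
  · rw [card_singleton]
    omega
  · rw [card_singleton]
    omega
  · unfold cstClause
    refine (card_union_le _ _).trans ?_
    have h1 := card_image_le (s := (univ : Finset (Bool × Fin q)))
      (f := fun p => ((e (p.1, (E i p).1, (E i p).2.castSucc), false) : Lit V))
    have h2 := card_image_le (s := (univ : Finset (Bool × Fin q)))
      (f := fun p => ((e (p.1, (E i p).1, (E i p).2.succ), true) : Lit V))
    rw [card_univ, Fintype.card_prod, Fintype.card_bool, Fintype.card_fin] at h1 h2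
    omega

/-- A sequence that starts with true and ends with false has a step down. -/
theorem step_down (f : Fin (W + 1) → Bool) (h0 : f 0 = true) (h1 : f (Fin.last W) = false) :
    ∃ a : Fin W, f a.castSucc = true ∧ f a.succ = false := by
  by_contra hcon
  push Not at hcon
  have key : ∀ i : Fin (W + 1), f i = true := by
    intro i
    induction i using Fin.induction with
    | zero => exact h0
    | succ i ih =>
      have := hcon i ih
      revert this
      cases f i.succ <;> simp
  rw [key] at h1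
  exact Bool.noConfusion h1

/-- The formula is unsatisfiable. -/
theorem cnf_unsat {e : Bool × Fin n × Fin (W + 1) ↪ V}
    {E : Fin m → Bool × Fin q → Fin n × Fin W}
    (hE : ∀ x y, ∃ i, i ∈ hit E false x ∧ i ∈ hit E true y) (z : V → Bool) :
    ∃ C ∈ cnf e E, ¬ Holds z C := by
  by_contra hcon
  push Not at hcon
  have h0 : ∀ p : Bool × Fin n, z (e (p.1, p.2, 0)) = true := by
    intro p
    obtain ⟨l, hl, hl'⟩ := hcon {(e (p.1, p.2, 0), true)}
      (mem_union_left _ (mem_union_left _ (mem_image.2 ⟨p, mem_univ _, rfl⟩)))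
    rw [mem_singleton] at hl
    rw [hl] at hl'
    exact hl'
  have h1 : ∀ p : Bool × Fin n, z (e (p.1, p.2, Fin.last W)) = false := by
    intro p
    obtain ⟨l, hl, hl'⟩ := hcon {(e (p.1, p.2, Fin.last W), false)}
      (mem_union_left _ (mem_union_right _ (mem_image.2 ⟨p, mem_univ _, rfl⟩)))
    rw [mem_singleton] at hl
    rw [hl] at hl'
    exact hl'
  have hstep : ∀ p : Bool × Fin n, ∃ a : Fin W, z (e (p.1, p.2, a.castSucc)) = true ∧
      z (e (p.1, p.2, a.succ)) = false :=
    fun p => step_down (fun t => z (e (p.1, p.2, t))) (h0 p) (h1 p)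
  choose a ha1 ha2 using hstep
  obtain ⟨i, hi1, hi2⟩ := hE (fun u => a (false, u)) (fun u => a (true, u))
  have hi1' := (mem_filter.1 hi1).2
  have hi2' := (mem_filter.1 hi2).2
  refine not_holds_cst.2 ?_ (hcon (cstClause e (E i))
    (mem_union_right _ (mem_image_of_mem _ (mem_univ i))))
  rintro ⟨s, j⟩
  cases s
  · have h2 := hi1' j
    simp only at h2 ⊢
    rw [← h2]
    exact ⟨ha1 (false, _), ha2 (false, _)⟩
  · have h2 := hi2' j
    simp only at h2 ⊢
    rw [← h2]
    exact ⟨ha1 (true, _), ha2 (true, _)⟩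

/-- The assignment given by the inputs of the two players. -/
noncomputable def asg (e : Bool × Fin n × Fin (W + 1) ↪ V) (x y : Fin n → Fin W) : V → Bool :=
  Function.extend e (fun b => decide ((b.2.2 : ℕ) ≤ ((if b.1 then y else x) b.2.1 : ℕ)))
    fun _ => false

theorem asg_apply (e : Bool × Fin n × Fin (W + 1) ↪ V) (x y : Fin n → Fin W)
    (b : Bool × Fin n × Fin (W + 1)) :
    asg e x y (e b) = decide ((b.2.2 : ℕ) ≤ ((if b.1 then y else x) b.2.1 : ℕ)) :=
  e.injective.extend_apply _ _ _

/-- A false clause is the clause of a constraint that is matched by both inputs. -/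
theorem false_clause {e : Bool × Fin n × Fin (W + 1) ↪ V}
    {E : Fin m → Bool × Fin q → Fin n × Fin W} {C : Clause V} (hC : C ∈ cnf e E) :
    ∃ i : Option (Fin m), ∀ x y, ¬ Holds (asg e x y) C →
      ∃ i', i = some i' ∧ i' ∈ hit E false x ∧ i' ∈ hit E true y := by
  unfold cnf at hC
  rw [mem_union, mem_union, mem_image, mem_image, mem_image] at hC
  rcases hC with (⟨p, -, rfl⟩ | ⟨p, -, rfl⟩) | ⟨i, -, rfl⟩
  · refine ⟨none, fun x y h => absurd ?_ h⟩
    refine ⟨_, mem_singleton_self _, ?_⟩
    simp only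
    rw [asg_apply]
    simp
  · refine ⟨none, fun x y h => absurd ?_ h⟩
    refine ⟨_, mem_singleton_self _, ?_⟩
    simp only
    rw [asg_apply]
    simp
  · refine ⟨some i, fun x y h => ⟨i, rfl, ?_⟩⟩
    rw [not_holds_cst] at h
    have key : ∀ p : Bool × Fin q, (if p.1 then y else x) (E i p).1 = (E i p).2 := by
      intro p
      obtain ⟨h1, h2⟩ := h p
      rw [asg_apply] at h1 h2
      simp only [Fin.val_castSucc, Fin.val_succ, decide_eq_true_eq, decide_eq_false_iff_not] at h1 h2
      exact Fin.ext (by omega)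
    refine ⟨mem_filter.2 ⟨mem_univ _, fun j => ?_⟩, mem_filter.2 ⟨mem_univ _, fun j => ?_⟩⟩
    · simpa using key (false, j)
    · simpa using key (true, j)

/-- Each variable depends on one of the two inputs. -/
theorem asg_side (e : Bool × Fin n × Fin (W + 1) ↪ V) (v : V) :
    (∃ f : (Fin n → Fin W) → Bool, ∀ x y, asg e x y v = f x) ∨
      ∃ f : (Fin n → Fin W) → Bool, ∀ x y, asg e x y v = f y := by
  by_cases hr : ∃ b, e b = v
  · obtain ⟨b, rfl⟩ := hr
    simp only [asg_apply]
    rcases b with ⟨s, u, t⟩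
    cases s
    · exact Or.inl ⟨fun x => decide ((t : ℕ) ≤ (x u : ℕ)), fun x y => by simp⟩
    · exact Or.inr ⟨fun y => decide ((t : ℕ) ≤ (y u : ℕ)), fun x y => by simp⟩
  · exact Or.inl ⟨fun _ => false, fun x y => Function.extend_apply' _ _ _ hr⟩

/-- The left hand side of an inequality is a sum of a function of `x` and a function of `y`. -/
theorem split_sum (e : Bool × Fin n × Fin (W + 1) ↪ V) (c : V → ℝ) :
    ∃ (A B : (Fin n → Fin W) → ℝ), ∀ x y, (∑ v, if asg e x y v then c v else 0) = A x + B y := by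
  classical
  have h1 : ∀ v, ∃ (A B : (Fin n → Fin W) → ℝ), ∀ x y,
      (if asg e x y v then c v else 0) = A x + B y := by
    intro v
    rcases asg_side e v with ⟨f, hf⟩ | ⟨f, hf⟩
    · exact ⟨fun x => if f x then c v else 0, fun _ => 0, fun x y => by rw [hf]; simp⟩
    · exact ⟨fun _ => 0, fun y => if f y then c v else 0, fun x y => by rw [hf]; simp⟩
  choose A B hAB using h1
  refine ⟨fun x => ∑ v, A v x, fun y => ∑ v, B v y, fun x y => ?_⟩
  simp only [hAB, sum_add_distrib]

/-- If the coefficients are small integers, the function of `x` has few values. -/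
theorem split_small (e : Bool × Fin n × Fin (W + 1) ↪ V) {I : Count V} {k : ℕ}
    (hI : ∀ v, |I.coeff v| ≤ k) : ∃ (A : (Fin n → Fin W) → Fin (2 * (Fintype.card V * k) + 1))
      (B : Fin (2 * (Fintype.card V * k) + 1) → (Fin n → Fin W) → Prop),
      ∀ x y, ¬ I.Sat (asg e x y) ↔ B (A x) y := by
  classical
  have h1 : ∀ v, ∃ (A B : (Fin n → Fin W) → ℤ), (∀ x, |A x| ≤ k) ∧ ∀ x y,
      (if asg e x y v then I.coeff v else 0) = A x + B y := by
    intro v
    rcases asg_side e v with ⟨f, hf⟩ | ⟨f, hf⟩
    · refine ⟨fun x => if f x then I.coeff v else 0, fun _ => 0, fun x => ?_, fun x y => by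
        rw [hf]; simp⟩
      simp only
      split_ifs
      · exact hI v
      · simp
    · exact ⟨fun _ => 0, fun y => if f y then I.coeff v else 0, fun x => by simp, fun x y => by
        rw [hf]; simp⟩
  choose A B hA hAB using h1
  have hsum : ∀ x, |∑ v, A v x| ≤ Fintype.card V * k := by
    intro x
    refine (abs_sum_le_sum_abs _ _).trans ((sum_le_sum fun v _ => hA v x).trans ?_)
    rw [sum_const, card_univ, nsmul_eq_mul]
  have hle : ∀ x, ((∑ v, A v x) + (Fintype.card V * k : ℕ)).toNat <
      2 * (Fintype.card V * k) + 1 := by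
    intro x
    have := abs_le.1 (hsum x)
    push_cast
    omega
  refine ⟨fun x => ⟨_, hle x⟩, fun a y =>
    ((a : ℕ) : ℤ) - (Fintype.card V * k : ℕ) + ∑ v, B v y ∉ I.set, fun x y => ?_⟩
  unfold Count.Sat
  have h2 : (∑ v, if asg e x y v then I.coeff v else 0) =
      (((∑ v, A v x) + (Fintype.card V * k : ℕ)).toNat : ℤ) -
        (Fintype.card V * k : ℕ) + ∑ v, B v y := by
    have h3 : (((∑ v, A v x) + (Fintype.card V * k : ℕ)).toNat : ℤ) =
        (∑ v, A v x) + (Fintype.card V * k : ℕ) := by
      refine Int.toNat_of_nonneg ?_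
      have := abs_le.1 (hsum x)
      push_cast
      omega
    rw [h3]
    simp only [hAB]
    rw [sum_add_distrib]
    ring
  rw [h2]

/-- A clause is false on a rectangle. -/
theorem split_clause (e : Bool × Fin n × Fin (W + 1) ↪ V) (C : Clause V) :
    ∃ (p q : (Fin n → Fin W) → Prop), ∀ x y, ¬ Holds (asg e x y) C ↔ p x ∧ q y := by
  classical
  induction C using Finset.induction_on with
  | empty =>
    refine ⟨fun _ => True, fun _ => True, fun x y => ?_⟩
    unfold Holds
    simp
  | insert l C _ ih =>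
    obtain ⟨p, q, h⟩ := ih
    have h1 : ∀ x y, ¬ Holds (asg e x y) (insert l C) ↔
        asg e x y l.1 ≠ l.2 ∧ ¬ Holds (asg e x y) C := by
      intro x y
      unfold Holds
      constructor
      · intro h2
        exact ⟨fun h3 => h2 ⟨l, mem_insert_self _ _, h3⟩,
          fun ⟨l', h3, h4⟩ => h2 ⟨l', mem_insert_of_mem h3, h4⟩⟩
      · rintro ⟨h2, h3⟩ ⟨l', h4, h5⟩
        rcases mem_insert.1 h4 with rfl | h4
        · exact h2 h5
        · exact h3 ⟨l', h4, h5⟩
    rcases asg_side e l.1 with ⟨f, hf⟩ | ⟨f, hf⟩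
    · refine ⟨fun x => f x ≠ l.2 ∧ p x, q, fun x y => ?_⟩
      rw [h1, h, hf, and_assoc]
    · refine ⟨p, fun y => f y ≠ l.2 ∧ q y, fun x y => ?_⟩
      rw [h1, h, hf]
      tauto

/-- The set of false pairs of a line is a union of few triangles. -/
theorem split_line (e : Bool × Fin n × Fin (W + 1) ↪ V) {w k : ℕ} (L : Line V w)
    (hL : ∀ j v, |(L.side j).coeff v| ≤ k) :
    ∃ (α β : Fin ((2 * (Fintype.card V * k) + 1) ^ w) → (Fin n → Fin W) → EReal),
      ∀ x y, ¬ L.Sat (asg e x y) ↔ ∃ t, β t y < α t x := by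
  classical
  obtain ⟨A, B, hAB⟩ := split_sum e L.main.coeff
  obtain ⟨p, p', hp⟩ := split_clause e L.clause
  have h1 := fun j => split_small e (hL j)
  choose A' B' hAB' using h1
  obtain ⟨ϕ⟩ : Nonempty (Fin ((2 * (Fintype.card V * k) + 1) ^ w) ≃
      (Fin w → Fin (2 * (Fintype.card V * k) + 1))) := by
    refine ⟨(Fintype.equivFinOfCardEq ?_).symm⟩
    rw [Fintype.card_fun, Fintype.card_fin, Fintype.card_fin]
  refine ⟨fun t x => if p x ∧ (fun j => A' j x) = ϕ t then
      ((- A x : ℝ) : EReal) else ⊥, fun t y => if p' y ∧ ∀ j, B' j (ϕ t j) y then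
      ((B y - L.main.bound : ℝ) : EReal) else ⊤, fun x y => ?_⟩
  have h2 : ¬ L.Sat (asg e x y) ↔ (p x ∧ p' y) ∧ (∀ j, B' j (A' j x) y) ∧
      A x + B y < L.main.bound := by
    unfold Line.Sat
    rw [not_or, not_or, hp, not_exists]
    simp only [hAB']
    unfold Ineq.Sat
    rw [hAB, not_le]
  rw [h2]
  constructor
  · rintro ⟨⟨h3, h4⟩, h5, h6⟩
    refine ⟨ϕ.symm fun j => A' j x, ?_⟩
    simp only [Equiv.apply_symm_apply, and_true]
    rw [if_pos ⟨h4, h5⟩, if_pos h3, EReal.coe_lt_coe_iff]
    linarith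
  · rintro ⟨t, ht⟩
    simp only at ht
    by_cases h3 : p x ∧ (fun j => A' j x) = ϕ t
    · by_cases h4 : p' y ∧ ∀ j, B' j (ϕ t j) y
      · rw [if_pos h3, if_pos h4, EReal.coe_lt_coe_iff] at ht
        refine ⟨⟨h3.1, h4.1⟩, fun j => ?_, by linarith⟩
        have h5 := h4.2 j
        rw [← h3.2] at h5
        exact h5
      · rw [if_neg h4] at ht
        exact absurd ht not_top_lt
    · rw [if_neg h3] at ht
      exact absurd ht not_lt_bot

/-- The lower bound in terms of the parameters. -/
theorem core {e : Bool × Fin n × Fin (W + 1) ↪ V} {E : Fin m → Bool × Fin q → Fin n × Fin W}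
    {v r k k0 w S : ℕ} (hk : 0 < k) (hW : 0 < W) (hr : 1 < r) (hvr : v * r ≤ n)
    (hE : ∀ s, ∀ M : Finset (Fin m), M.card ≤ r → v * M.card ≤ (touch E s M).card)
    (hk0 : k0 = (2 * (Fintype.card V * k) + 1) ^ w)
    (hS : 2 * ((S * k0 + 1) * (((k + 1) * k) * k0 * r) ^ r) < W ^ (v * r)) (hrv : 2 * r < W ^ v)
    {L : Fin S → Line V w} (href : IsRefutation k (cnf e E) L) : False := by
  classical
  have hk0' : 1 ≤ k0 := by
    rw [hk0]
    exact Nat.one_le_pow _ _ (by omega)
  have hcard : Fintype.card (Fin n → Fin W) = W ^ n := by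
    rw [Fintype.card_fun, Fintype.card_fin, Fintype.card_fin]
  have hcount : ∀ s, ∀ M : Finset (Fin m), ∀ t, t ≤ r → M.card = t →
      (univ.filter fun x => M ⊆ hit E s x).card ≤ W ^ (n - v * t) := by
    intro s M t ht hM
    have h1 := card_hit E s M
    have h2 := hE s M (by omega)
    have h3 : W ^ (v * t) ≤ W ^ (touch E s M).card :=
      Nat.pow_le_pow_right hW (by rw [hM] at h2; exact h2)
    have h4 : v * t ≤ n := (Nat.mul_le_mul_left _ ht).trans hvr
    have h5 : W ^ n = W ^ (n - v * t) * W ^ (v * t) := by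
      rw [← pow_add]
      congr 1
      omega
    have h6 : (univ.filter fun x => M ⊆ hit E s x).card * W ^ (v * t) ≤
        W ^ (n - v * t) * W ^ (v * t) := by
      rw [← h5]
      exact (Nat.mul_le_mul_left _ h3).trans h1
    exact Nat.le_of_mul_le_mul_right h6 (by positivity)
  have hchoice : ∀ i, ∃ (α β : Fin k0 → (Fin n → Fin W) → EReal),
      ∀ x y, ¬ (L i).Sat (asg e x y) ↔ ∃ t, β t y < α t x := by
    intro i
    rw [hk0]
    exact split_line e (L i) (href.1 i)
  choose α β hαβ using hchoice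
  -- the triangles of a finite set of lines
  obtain ⟨tr, htr⟩ : ∃ tr : Finset (Fin S) → Finset (Fin (S * k0)), tr = fun P =>
      (P ×ˢ (univ : Finset (Fin k0))).image finProdFinEquiv := ⟨_, rfl⟩
  have htr1 : ∀ P : Finset (Fin S), P.card ≤ (k + 1) * k → (tr P).card ≤ ((k + 1) * k) * k0 := by
    intro P hP
    rw [htr]
    refine card_image_le.trans ?_
    rw [card_product, card_univ, Fintype.card_fin]
    exact Nat.mul_le_mul_right _ hP
  have htr2 : ∀ P : Finset (Fin S), ∀ x y, (∃ j ∈ P, ¬ (L j).Sat (asg e x y)) →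
      ∃ c ∈ tr P, β (finProdFinEquiv.symm c).1 (finProdFinEquiv.symm c).2 y <
        α (finProdFinEquiv.symm c).1 (finProdFinEquiv.symm c).2 x := by
    rintro P x y ⟨j, hj, hj'⟩
    obtain ⟨t, ht⟩ := (hαβ j x y).1 hj'
    refine ⟨finProdFinEquiv (j, t), ?_, ?_⟩
    · rw [htr]
      exact mem_image_of_mem _ (mem_product.2 ⟨hj, mem_univ _⟩)
    · rw [Equiv.symm_apply_apply]
      exact ht
  obtain ⟨i0, hi0⟩ := href.2.1
  have h := tri_bound (U := Fin n → Fin W) (V := Fin n → Fin W) (I := Fin m)
    (S := hit E false) (T := hit E true) (r := r) (s := r) (CU := W ^ (n - v * r))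
    (CV := W ^ (n - v * r)) (k := ((k + 1) * k) * k0) (m := S * k0) (c1 := W ^ (n - v)) hr hr
    (fun M hM => hcount false M r le_rfl hM) (fun M hM => hcount true M r le_rfl hM)
    (fun i => by
      have := hcount false {i} 1 (by omega) (card_singleton i)
      rw [mul_one] at this
      simpa [singleton_subset_iff] using this)
    (fun c => α (finProdFinEquiv.symm c).1 (finProdFinEquiv.symm c).2)
    (fun c => β (finProdFinEquiv.symm c).1 (finProdFinEquiv.symm c).2)
    (fun c => by
      obtain ⟨⟨i, t⟩, rfl⟩ := finProdFinEquiv.surjective c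
      simp only [Equiv.symm_apply_apply]
      have hf : ∀ x y, β i t y < α i t x → ¬ (L i).Sat (asg e x y) :=
        fun x y hxy => (hαβ i x y).2 ⟨t, hxy⟩
      rcases reduce href i with ⟨C, hC, hC'⟩ | ⟨P, hP1, hP2, hP3⟩
      · obtain ⟨i', hi'⟩ := false_clause hC
        cases i' with
        | none =>
          right
          refine ⟨∅, by simp, by simp, fun x y hxy => ?_⟩
          obtain ⟨i'', h1, -⟩ := hi' x y (hC' _ (hf x y hxy))
          exact absurd h1 (by simp)
        | some i' =>
          left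
          refine ⟨i', fun x y hxy => ?_⟩
          obtain ⟨i'', h1, h2⟩ := hi' x y (hC' _ (hf x y hxy))
          rw [Option.some.injEq] at h1
          rw [h1]
          exact h2
      · right
        refine ⟨tr P, htr1 P hP1, fun c hc => ?_, fun x y hxy =>
          htr2 P x y (hP3 _ (hf x y hxy))⟩
        rw [htr, mem_image] at hc
        obtain ⟨⟨j, t'⟩, hj, rfl⟩ := hc
        rw [mem_product] at hj
        have h1 : j < i := hP2 j hj.1
        rw [Fin.lt_def] at h1 ⊢
        simp only [finProdFinEquiv_apply_val]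
        have h2 : (j : ℕ) + 1 ≤ i := h1
        have h3 := t'.2
        have h4 : k0 * ((j : ℕ) + 1) ≤ k0 * i := Nat.mul_le_mul_left _ h2
        rw [mul_add, mul_one] at h4
        omega)
    ⟨tr {i0}, htr1 _ (by rw [card_singleton]; nlinarith), fun x y =>
      htr2 {i0} x y ⟨i0, mem_singleton_self _, hi0 _⟩⟩ (by
      rw [hcard]
      have h1 : W ^ n = W ^ (n - v * r) * W ^ (v * r) := by
        rw [← pow_add]
        congr 1
        omega
      rw [h1]
      have h2 : (S * k0 + 1) * (r ^ r * W ^ (n - v * r)) =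
          W ^ (n - v * r) * ((S * k0 + 1) * r ^ r) := by ring
      rw [h2]
      refine Nat.mul_lt_mul_of_pos_left ?_ (by positivity)
      refine lt_of_le_of_lt ?_ hS
      have h3 : r ^ r ≤ (((k + 1) * k) * k0 * r) ^ r :=
        Nat.pow_le_pow_left (Nat.le_mul_of_pos_left _ (by positivity)) _
      have h4 : (S * k0 + 1) * r ^ r ≤ (S * k0 + 1) * (((k + 1) * k) * k0 * r) ^ r :=
        Nat.mul_le_mul_left _ h3
      omega)
  rw [hcard] at h
  have hvn : v ≤ n := le_trans (by nlinarith) hvr
  have h1 : W ^ n = W ^ (n - v * r) * W ^ (v * r) := by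
    rw [← pow_add]
    congr 1
    omega
  have h2 : W ^ n = W ^ (n - v) * W ^ v := by
    rw [← pow_add]
    congr 1
    omega
  have h3 : 2 * ((S * k0 + 1) * ((((k + 1) * k) * k0 * r) ^ r * W ^ (n - v * r))) < W ^ n := by
    rw [h1]
    have h4 : 2 * ((S * k0 + 1) * ((((k + 1) * k) * k0 * r) ^ r * W ^ (n - v * r))) =
        W ^ (n - v * r) * (2 * ((S * k0 + 1) * (((k + 1) * k) * k0 * r) ^ r)) := by ring
    rw [h4]
    exact Nat.mul_lt_mul_of_pos_left hS (by positivity)
  have h5 : 2 * (r * W ^ (n - v)) < W ^ n := by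
    rw [h2]
    have h4 : 2 * (r * W ^ (n - v)) = W ^ (n - v) * (2 * r) := by ring
    rw [h4]
    exact Nat.mul_lt_mul_of_pos_left hrv (by positivity)
  omega

end Pool.Agent.MP_9cec2c_lc.LovSch
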