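import Pool.Agent.Lib.MP_9cec2c_lc.LinStep

set_option autoImplicit false

namespace Pool.Agent.Lib.MP_9cec2c_lc.Linear

open Fm

variable {n : ℕ}

lemma good_of (hn : 3 ≤ n) {g : Fm (Vr n)} {I : Set (Pg n)} (hlin : g.Lin)
    (hvars : ∀ w, w ∈ g.vars ↔ w ∈ VV I) (hA : ∀ x, fI I x → g.Holds x)
    (hB : ∀ (x : Set (Vr n)) (ψ : Pg n → Fin n), Set.InjOn ψ Iᶜ →
      (∀ w, w.1 ∉ I → (w ∈ x ↔ ψ w.1 = w.2.2)) → g.Holds x → Coll x) : Good g I ∅ where
  lin := hlin
  vars_eq v := by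
    rw [hvars v]
    exact ⟨fun h => ⟨h, id⟩, fun h => h.1⟩
  uncut i j k := by
    obtain ⟨m, h1, h2⟩ := exists_hole hn j k
    exact ⟨m, h1, h2, fun _ _ => id⟩
  A b φ _ _ := hA _ (fI_pl I φ)
  B x ψ h1 h2 h3 := (hB x ψ h1 h2 h3).mono fun v hv => ⟨hv, id⟩

lemma or_impossible (hn : 3 ≤ n) {s t : Fm (Vr n)} {I : Set (Pg n)} (hlin : (Fm.or s t).Lin)
    (hu : ∀ x, (Fm.or s t).Holds x ↔ fI I x) {a b : Pg n}
    (ha : a ∈ I) (hb : b ∈ I) (hab : a ≠ b) : False := by
  classical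
  have hd : ∀ v, v ∈ s.vars → v ∈ t.vars → False := fun v h3 h4 =>
    Set.disjoint_left.1 hlin.2.2 h3 h4
  obtain ⟨ja, hja⟩ := (hu s.vars).1 (Or.inl (holds_of_subset fun _ h => h)) a ha
  obtain ⟨jb, hjb⟩ := (hu t.vars).1 (Or.inr (holds_of_subset fun _ h => h)) b hb
  obtain ⟨ca, hca⟩ := exists_ne1 hn a
  obtain ⟨cb, hcb⟩ := exists_ne1 hn b
  rcases (hu (pl fun i => if i = a then ja else jb)).2 (fI_pl I _) with h | h
  · obtain ⟨j, hj⟩ := (hu _).1 (Or.inl h.inter) b hb
    have h1 := hj (mem_col hcb)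
    have h2 : (if b = a then ja else jb) = j := h1.1
    rw [if_neg hab.symm] at h2
    apply hd _ h1.2
    rw [← h2]
    exact hjb (mem_col hcb)
  · obtain ⟨j, hj⟩ := (hu _).1 (Or.inr h.inter) a ha
    have h1 := hj (mem_col hca)
    have h2 : (if a = a then ja else jb) = j := h1.1
    rw [if_pos rfl] at h2
    refine hd _ ?_ h1.2
    rw [← h2]
    exact hja (mem_col hca)

lemma and_parts {s t : Fm (Vr n)} {I I1 I2 : Set (Pg n)} (hn : 3 ≤ n)
    (hu : ∀ x, (Fm.and s t).Holds x ↔ fI I x)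
    (hI : ∀ i, i ∈ I ↔ i ∈ I1 ∨ i ∈ I2) (hd : ∀ i, i ∈ I1 → i ∈ I2 → False)
    (h1 : ∀ w, w ∈ s.vars ↔ w ∈ VV I1) (h2 : ∀ w, w ∈ t.vars ↔ w ∈ VV I2) (x : Set (Vr n)) :
    s.Holds x ↔ fI I1 x := by
  have hz : Nonempty (Fin n) := ⟨⟨0, by omega⟩⟩
  constructor
  · intro hx i hi
    have h3 : (Fm.and s t).Holds ((x ∩ s.vars) ∪ VV I2) :=
      ⟨hx.inter.mono fun v hv => Or.inl hv, holds_of_subset fun v hv => Or.inr ((h2 v).1 hv)⟩
    obtain ⟨j, hj⟩ := (hu _).1 h3 i ((hI i).2 (Or.inl hi))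
    refine ⟨j, fun v hv => ?_⟩
    rcases hj hv with h4 | h4
    · exact h4.1
    · exact (hd i hi (hv.1 ▸ h4.1)).elim
  · intro hx
    have h3 : fI I (x ∪ VV I2) := by
      intro i hi
      rcases (hI i).1 hi with h4 | h4
      · obtain ⟨j, hj⟩ := hx i h4
        exact ⟨j, fun v hv => Or.inl (hj hv)⟩
      · refine ⟨Classical.arbitrary _, fun v hv => Or.inr ⟨?_, ?_⟩⟩
        · rw [hv.1]; exact h4
        · rw [hv.1]; exact hv.2.1
    refine ((hu _).2 h3).1.sub fun v hv hvx => ?_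
    rcases hvx with h4 | h4
    · exact h4
    · exact (hd v.1 ((h1 v).1 hv).1 h4.1).elim

/-- One step keeps the left-hand side of the pigeonhole inference unchanged as a function. -/
theorem step_lemma (hn : 3 ≤ n) {N : ℕ} (hN : N + 3 ≤ n) {u v : Fm (Vr n)} (h : Step N u v) :
    ∀ I : Set (Pg n), u.Lin → (∀ w, w ∈ u.vars ↔ w ∈ VV I) → (∀ x, u.Holds x ↔ fI I x) →
      (∀ (x : Set (Vr n)) (ψ : Pg n → Fin n), Set.InjOn ψ Iᶜ →
        (∀ w, w.1 ∉ I → (w ∈ x ↔ ψ w.1 = w.2.2)) → v.Holds x → Coll x) →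
      ∀ x, v.Holds x → fI I x := by
  have good : ∀ {u v : Fm (Vr n)}, Step N u v → ∀ I : Set (Pg n), u.Lin →
      (∀ w, w ∈ u.vars ↔ w ∈ VV I) → (∀ x, u.Holds x ↔ fI I x) →
      (∀ (x : Set (Vr n)) (ψ : Pg n → Fin n), Set.InjOn ψ Iᶜ →
        (∀ w, w.1 ∉ I → (w ∈ x ↔ ψ w.1 = w.2.2)) → v.Holds x → Coll x) →
      Good u I ∅ ∧ Good v I ∅ := by
    intro u v h I h1 h2 h3 h4
    exact ⟨good_of hn h1 h2 (fun x => (h3 x).2) fun x ψ h5 h6 h7 => h4 x ψ h5 h6 (h.holds x h7),
      good_of hn (h.lin h1) (fun w => by rw [h.vars_eq]; exact h2 w)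
        (fun x hx => h.holds x ((h3 x).2 hx)) h4⟩
  have hsingle : ∀ {v : Fm (Vr n)} {I : Set (Pg n)}, Good v I ∅ →
      (∀ a ∈ I, ∀ b ∈ I, a = b) → ∀ x, v.Holds x → fI I x := by
    intro v I hg hI x hx
    obtain ⟨w, hw⟩ := v.vars_nonempty
    have hwI := ((hg.vars_eq w).1 hw).1.1
    have hIs : I = {w.1} := by
      ext a
      constructor
      · intro ha; exact hI a ha _ hwI
      · rintro rfl; exact hwI
    rw [hIs] at hg ⊢
    exact single_good hn hg x hx
  -- the two kinds of conjunction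
  have andCase : ∀ {s s' t : Fm (Vr n)}, Step N s s' →
      (∀ I : Set (Pg n), s.Lin → (∀ w, w ∈ s.vars ↔ w ∈ VV I) → (∀ x, s.Holds x ↔ fI I x) →
        (∀ (x : Set (Vr n)) (ψ : Pg n → Fin n), Set.InjOn ψ Iᶜ →
          (∀ w, w.1 ∉ I → (w ∈ x ↔ ψ w.1 = w.2.2)) → s'.Holds x → Coll x) →
        ∀ x, s'.Holds x → fI I x) →
      ∀ I : Set (Pg n), (Fm.and s t).Lin → (∀ x, (Fm.and s t).Holds x ↔ fI I x) →
        (∀ (x : Set (Vr n)) (ψ : Pg n → Fin n), Set.InjOn ψ Iᶜ →
          (∀ w, w.1 ∉ I → (w ∈ x ↔ ψ w.1 = w.2.2)) → s'.Holds x → t.Holds x → Coll x) →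
        Good (Fm.and s t) I ∅ →
        ∀ x, s'.Holds x → t.Holds x → fI I x := by
    intro s s' t h ih I hlin hu hB hg x hxs hxt
    obtain ⟨I1, I2, hI, hd, hne1, hne2, hg1, hg2⟩ := hg.and_split hn
    have hv1 : ∀ w, w ∈ s.vars ↔ w ∈ VV I1 := fun w => by
      rw [hg1.vars_eq w]; exact ⟨fun h => h.1, fun h => ⟨h, id⟩⟩
    have hv2 : ∀ w, w ∈ t.vars ↔ w ∈ VV I2 := fun w => by
      rw [hg2.vars_eq w]; exact ⟨fun h => h.1, fun h => ⟨h, id⟩⟩
    have hs := and_parts hn hu hI hd hv1 hv2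
    have ht := and_parts hn (s := t) (t := s) (I1 := I2) (I2 := I1)
      (fun x => ⟨fun h => (hu x).1 h.symm, fun h => ((hu x).2 h).symm⟩)
      (fun i => (hI i).trans Or.comm) (fun i h1 h2 => hd i h2 h1) hv2 hv1
    have h3 := ih I1 hlin.1 hv1 hs (by
      intro x ψ hψ hag hx
      have hxt : t.Holds x := by
        rw [ht]
        intro i hi
        refine ⟨ψ i, fun w hw => ?_⟩
        rw [hag w (by rw [hw.1]; exact fun h => hd i h hi), hw.1, hw.2.2]
      have hsub : ∀ i, i ∈ I1 → i ∈ I := fun i hi => (hI i).2 (Or.inl hi)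
      exact hB x ψ (hψ.mono fun i hi h => hi (hsub i h)) (fun w hw => hag w fun h => hw (hsub _ h))
        hx hxt) x hxs
    intro i hi
    rcases (hI i).1 hi with h4 | h4
    · exact h3 i h4
    · exact (ht x).1 hxt i h4
  induction h with
  | @rule β _ hk l r hl hr hlv hrv sound σ =>
    intro I h1 h2 h3 h4
    have hg := (good (Step.rule hk l r hl hr hlv hrv sound σ) I h1 h2 h3 h4).2
    have hσ := atoms_of_rule hn hlv h1 h2 h3
    exact root hn hσ (by omega) r I hg
  | andLeft t h ih =>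
    intro I h1 h2 h3 h4 x hx
    have hg := (good (Step.andLeft t h) I h1 h2 h3 h4).1
    exact andCase h ih I h1 h3 (fun x ψ h5 h6 h7 h8 => h4 x ψ h5 h6 ⟨h7, h8⟩) hg x hx.1 hx.2
  | andRight t h ih =>
    intro I h1 h2 h3 h4 x hx
    have hg := (good (Step.andRight t h) I h1 h2 h3 h4).1
    exact andCase h ih I ⟨h1.2.1, h1.1, h1.2.2.symm⟩
      (fun x => ⟨fun h => (h3 x).1 h.symm, fun h => ((h3 x).2 h).symm⟩)
      (fun x ψ h5 h6 h7 h8 => h4 x ψ h5 h6 ⟨h8, h7⟩) hg.and_swap x hx.2 hx.1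
  | orLeft t h ih =>
    intro I h1 h2 h3 h4
    have hg := (good (Step.orLeft t h) I h1 h2 h3 h4).2
    by_cases hI : ∀ a ∈ I, ∀ b ∈ I, a = b
    · exact hsingle hg hI
    · push Not at hI
      obtain ⟨a, ha, b, hb, hab⟩ := hI
      exact (or_impossible hn h1 h3 ha hb hab).elim
  | orRight t h ih =>
    intro I h1 h2 h3 h4
    have hg := (good (Step.orRight t h) I h1 h2 h3 h4).2
    by_cases hI : ∀ a ∈ I, ∀ b ∈ I, a = b
    · exact hsingle hg hI
    · push Not at hI
      obtain ⟨a, ha, b, hb, hab⟩ := hI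
      exact (or_impossible hn h1 h3 ha hb hab).elim

/-- large disjunctions -/
lemma exists_bigOr {α ι : Type} (S : Finset ι) (hS : S.Nonempty) (F : ι → Fm α)
    (hlin : ∀ i ∈ S, (F i).Lin)
    (hdis : ∀ i ∈ S, ∀ j ∈ S, i ≠ j → Disjoint (F i).vars (F j).vars) :
    ∃ g : Fm α, g.Lin ∧ (∀ v, v ∈ g.vars ↔ ∃ i ∈ S, v ∈ (F i).vars) ∧
      ∀ x, g.Holds x ↔ ∃ i ∈ S, (F i).Holds x := by
  classical
  induction hS using Finset.Nonempty.cons_induction with
  | singleton a =>
    exact ⟨F a, hlin a (by simp), fun v => by simp, fun x => by simp⟩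
  | cons a S ha hS ih =>
    obtain ⟨g, hg1, hg2, hg3⟩ := ih (fun i hi => hlin i (Finset.mem_cons.2 (Or.inr hi)))
      (fun i hi j hj => hdis i (Finset.mem_cons.2 (Or.inr hi)) j (Finset.mem_cons.2 (Or.inr hj)))
    refine ⟨Fm.or (F a) g, ⟨hlin a (Finset.mem_cons_self a S), hg1, ?_⟩, ?_, ?_⟩
    · rw [Set.disjoint_left]
      intro v hv hvg
      obtain ⟨i, hi, hvi⟩ := (hg2 v).1 hvg
      exact Set.disjoint_left.1 (hdis a (Finset.mem_cons_self a S) i (Finset.mem_cons.2 (Or.inr hi))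
        (fun h => ha (h ▸ hi))) hv hvi
    · intro v
      constructor
      · rintro (h | h)
        · exact ⟨a, Finset.mem_cons_self a S, h⟩
        · obtain ⟨i, hi, h⟩ := (hg2 v).1 h
          exact ⟨i, Finset.mem_cons.2 (Or.inr hi), h⟩
      · rintro ⟨i, hi, h⟩
        rcases Finset.mem_cons.1 hi with rfl | hi
        · exact Or.inl h
        · exact Or.inr ((hg2 v).2 ⟨i, hi, h⟩)
    · intro x
      constructor
      · rintro (h | h)
        · exact ⟨a, Finset.mem_cons_self a S, h⟩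
        · obtain ⟨i, hi, h⟩ := (hg3 x).1 h
          exact ⟨i, Finset.mem_cons.2 (Or.inr hi), h⟩
      · rintro ⟨i, hi, h⟩
        rcases Finset.mem_cons.1 hi with rfl | hi
        · exact Or.inl h
        · exact Or.inr ((hg3 x).2 ⟨i, hi, h⟩)

/-- large conjunctions -/
lemma exists_bigAnd {α ι : Type} (S : Finset ι) (hS : S.Nonempty) (F : ι → Fm α)
    (hlin : ∀ i ∈ S, (F i).Lin)
    (hdis : ∀ i ∈ S, ∀ j ∈ S, i ≠ j → Disjoint (F i).vars (F j).vars) :
    ∃ g : Fm α, g.Lin ∧ (∀ v, v ∈ g.vars ↔ ∃ i ∈ S, v ∈ (F i).vars) ∧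
      ∀ x, g.Holds x ↔ ∀ i ∈ S, (F i).Holds x := by
  classical
  induction hS using Finset.Nonempty.cons_induction with
  | singleton a =>
    exact ⟨F a, hlin a (by simp), fun v => by simp, fun x => by simp⟩
  | cons a S ha hS ih =>
    obtain ⟨g, hg1, hg2, hg3⟩ := ih (fun i hi => hlin i (Finset.mem_cons.2 (Or.inr hi)))
      (fun i hi j hj => hdis i (Finset.mem_cons.2 (Or.inr hi)) j (Finset.mem_cons.2 (Or.inr hj)))
    refine ⟨Fm.and (F a) g, ⟨hlin a (Finset.mem_cons_self a S), hg1, ?_⟩, ?_, ?_⟩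
    · rw [Set.disjoint_left]
      intro v hv hvg
      obtain ⟨i, hi, hvi⟩ := (hg2 v).1 hvg
      exact Set.disjoint_left.1 (hdis a (Finset.mem_cons_self a S) i (Finset.mem_cons.2 (Or.inr hi))
        (fun h => ha (h ▸ hi))) hv hvi
    · intro v
      constructor
      · rintro (h | h)
        · exact ⟨a, Finset.mem_cons_self a S, h⟩
        · obtain ⟨i, hi, h⟩ := (hg2 v).1 h
          exact ⟨i, Finset.mem_cons.2 (Or.inr hi), h⟩
      · rintro ⟨i, hi, h⟩
        rcases Finset.mem_cons.1 hi with rfl | hi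
        · exact Or.inl h
        · exact Or.inr ((hg2 v).2 ⟨i, hi, h⟩)
    · intro x
      constructor
      · rintro ⟨h, h'⟩ i hi
        rcases Finset.mem_cons.1 hi with rfl | hi
        · exact h
        · exact (hg3 x).1 h' i hi
      · intro h
        exact ⟨h a (Finset.mem_cons_self a S),
          (hg3 x).2 fun i hi => h i (Finset.mem_cons.2 (Or.inr hi))⟩

lemma exists_s (hn : 3 ≤ n) : ∃ s : Fm (Vr n), s.Lin ∧ (∀ w, w ∈ s.vars ↔ w ∈ VV Set.univ) ∧
    ∀ x, s.Holds x ↔ fI Set.univ x := by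
  classical
  have hC : ∀ (i : Pg n) (j : Fin n), ∃ g : Fm (Vr n), g.Lin ∧ (∀ v, v ∈ g.vars ↔ v ∈ col i j) ∧
      ∀ x, g.Holds x ↔ col i j ⊆ x := by
    intro i j
    obtain ⟨a0, ha0⟩ := exists_ne1 hn i
    obtain ⟨g, h1, h2, h3⟩ := exists_bigAnd (Finset.univ.filter fun a : Pg n => a ≠ i)
      ⟨a0, by simp [ha0]⟩ (fun a => Fm.var (i, a, j)) (fun _ _ => trivial) (by
        intro a _ b _ hab
        rw [Set.disjoint_left]
        intro v h1 h2
        have : ((i, a, j) : Vr n) = (i, b, j) := (show v = _ from h1).symm.trans h2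
        simp only [Prod.mk.injEq, true_and, and_true] at this
        exact hab this)
    refine ⟨g, h1, ?_, ?_⟩
    · intro v
      rw [h2]
      constructor
      · rintro ⟨a, ha, h⟩
        have h4 : v = (i, a, j) := h
        rw [h4]
        exact mem_col (by simpa using ha)
      · intro h
        refine ⟨v.2.1, by simpa using h.2.1, ?_⟩
        show v = (i, v.2.1, j)
        obtain ⟨h5, h6, h7⟩ := h
        rw [← h5, ← h7]
    · intro x
      rw [h3]
      constructor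
      · intro h v hv
        have h4 := h v.2.1 (by simpa using hv.2.1)
        have h5 : (i, v.2.1, j) ∈ x := h4
        have : (i, v.2.1, j) = v := by
          obtain ⟨h5, h6, h7⟩ := hv
          rw [← h5, ← h7]
        rw [this] at h5
        exact h5
      · intro h a ha
        exact h (mem_col (by simpa using ha))
  choose C hC1 hC2 hC3 using hC
  have hD : ∀ (i : Pg n), ∃ g : Fm (Vr n), g.Lin ∧ (∀ v, v ∈ g.vars ↔ v ∈ VV {i}) ∧
      ∀ x, g.Holds x ↔ ∃ j, col i j ⊆ x := by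
    intro i
    obtain ⟨g, h1, h2, h3⟩ := exists_bigOr (Finset.univ : Finset (Fin n))
      ⟨⟨0, by omega⟩, Finset.mem_univ _⟩ (fun j => C i j) (fun j _ => hC1 i j) (by
        intro j _ k _ hjk
        rw [Set.disjoint_left]
        intro v h1 h2
        exact hjk (((hC2 i j v).1 h1).2.2.symm.trans ((hC2 i k v).1 h2).2.2))
    refine ⟨g, h1, ?_, ?_⟩
    · intro v
      rw [h2]
      constructor
      · rintro ⟨j, _, h⟩
        have h4 := (hC2 i j v).1 h
        exact ⟨h4.1, by rw [h4.1]; exact h4.2.1⟩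
      · intro h
        have h4 : v.1 = i := h.1
        exact ⟨v.2.2, Finset.mem_univ _, (hC2 i _ v).2 ⟨h4, by rw [← h4]; exact h.2, rfl⟩⟩
    · intro x
      rw [h3]
      constructor
      · rintro ⟨j, _, h⟩
        exact ⟨j, (hC3 i j x).1 h⟩
      · rintro ⟨j, h⟩
        exact ⟨j, Finset.mem_univ _, (hC3 i j x).2 h⟩
  choose D hD1 hD2 hD3 using hD
  obtain ⟨g, h1, h2, h3⟩ := exists_bigAnd (Finset.univ : Finset (Pg n))
      ⟨0, Finset.mem_univ _⟩ D (fun j _ => hD1 j) (by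
        intro j _ k _ hjk
        rw [Set.disjoint_left]
        intro v h1 h2
        have e1 : v.1 = j := ((hD2 j v).1 h1).1
        have e2 : v.1 = k := ((hD2 k v).1 h2).1
        exact hjk (e1.symm.trans e2))
  refine ⟨g, h1, ?_, ?_⟩
  · intro v
    rw [h2]
    constructor
    · rintro ⟨j, _, h⟩
      exact ⟨trivial, ((hD2 j v).1 h).2⟩
    · intro h
      exact ⟨v.1, Finset.mem_univ _, (hD2 _ v).2 ⟨rfl, h.2⟩⟩
  · intro x
    rw [h3]
    constructor
    · intro h i _
      exact (hD3 i x).1 (h i (Finset.mem_univ _))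
    · intro h i _
      exact (hD3 i x).2 (h i trivial)

lemma exists_t (hn : 3 ≤ n) : ∃ t : Fm (Vr n), t.Lin ∧ (∀ w, w ∈ t.vars ↔ w ∈ VV Set.univ) ∧
    ∀ x, t.Holds x ↔ Coll x := by
  classical
  obtain ⟨g, h1, h2, h3⟩ := exists_bigOr (Finset.univ.filter fun v : Vr n => v.1 < v.2.1)
      ⟨(0, 1, ⟨0, by omega⟩), by
        simp only [Finset.mem_filter, Finset.mem_univ, true_and]
        rw [Fin.lt_def]
        have h1 : (((1 : Fin (n + 1)) : ℕ)) = 1 := by
          rw [Fin.val_one']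
          exact Nat.mod_eq_of_lt (by omega)
        rw [h1]
        simp⟩
      (fun v => Fm.and (Fm.var v) (Fm.var (v.2.1, v.1, v.2.2)))
      (by
        intro v hv
        simp only [Finset.mem_filter, Finset.mem_univ, true_and] at hv
        refine ⟨trivial, trivial, ?_⟩
        rw [Set.disjoint_left]
        intro w hw hw2
        have h1 : w = v := hw
        have h2 : w = (v.2.1, v.1, v.2.2) := hw2
        rw [h1] at h2
        have h3 : v.1 = v.2.1 := congrArg Prod.fst h2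
        exact absurd h3 hv.ne)
      (by
        intro v hv w hw hvw
        simp only [Finset.mem_filter, Finset.mem_univ, true_and] at hv hw
        rw [Set.disjoint_left]
        rintro u (hu | hu) (hu2 | hu2)
        · exact hvw ((show u = v from hu).symm.trans hu2)
        · have h1 : u = v := hu
          have h2 : u = (w.2.1, w.1, w.2.2) := hu2
          rw [h1] at h2
          rw [h2] at hv
          exact absurd hv (not_lt.2 hw.le)
        · have h1 : u = (v.2.1, v.1, v.2.2) := hu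
          have h2 : u = w := hu2
          rw [h2] at h1
          rw [h1] at hw
          exact absurd hw (not_lt.2 hv.le)
        · have h1 : u = (v.2.1, v.1, v.2.2) := hu
          have h2 : u = (w.2.1, w.1, w.2.2) := hu2
          apply hvw
          rw [h1] at h2
          simp only [Prod.mk.injEq] at h2
          exact Prod.ext h2.2.1 (Prod.ext h2.1 h2.2.2))
  refine ⟨g, h1, ?_, ?_⟩
  · intro v
    rw [h2]
    constructor
    · rintro ⟨u, hu, h | h⟩
      · simp only [Finset.mem_filter, Finset.mem_univ, true_and] at hu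
        have h1 : v = u := h
        rw [h1]
        exact ⟨trivial, hu.ne'⟩
      · simp only [Finset.mem_filter, Finset.mem_univ, true_and] at hu
        have h1 : v = (u.2.1, u.1, u.2.2) := h
        rw [h1]
        exact ⟨trivial, hu.ne⟩
    · rintro ⟨_, h⟩
      rcases lt_or_gt_of_ne h with h4 | h4
      · refine ⟨(v.2.1, v.1, v.2.2), by simpa using h4, Or.inr rfl⟩
      · exact ⟨v, by simpa using h4, Or.inl rfl⟩
  · intro x
    rw [h3]
    constructor
    · rintro ⟨u, hu, h4, h5⟩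
      simp only [Finset.mem_filter, Finset.mem_univ, true_and] at hu
      exact ⟨u.1, u.2.1, u.2.2, hu.ne, h4, h5⟩
    · rintro ⟨i, a, j, hia, h4, h5⟩
      rcases lt_or_gt_of_ne hia with h6 | h6
      · exact ⟨(i, a, j), by simpa using h6, h4, h5⟩
      · exact ⟨(a, i, j), by simpa using h6, h5, h4⟩

lemma ncard_VV : (VV (Set.univ : Set (Pg n))).ncard = n ^ 2 * (n + 1) := by
  classical
  have h1 : VV (Set.univ : Set (Pg n)) =
      ((fun p : (Pg n × Pg n) × Fin n => ((p.1.1, p.1.2, p.2) : Vr n)) ''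
        (((Finset.univ : Finset (Pg n)).offDiag ×ˢ (Finset.univ : Finset (Fin n)) :
          Finset ((Pg n × Pg n) × Fin n)) : Set ((Pg n × Pg n) × Fin n))) := by
    ext v
    constructor
    · rintro ⟨_, h⟩
      refine ⟨((v.1, v.2.1), v.2.2), ?_, rfl⟩
      simp only [Finset.coe_product, Set.mem_prod, Finset.mem_coe, Finset.mem_offDiag,
        Finset.mem_univ, true_and, and_true]
      exact Ne.symm h
    · rintro ⟨p, hp, rfl⟩
      simp only [Finset.coe_product, Set.mem_prod, Finset.mem_coe, Finset.mem_offDiag,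
        Finset.mem_univ, true_and, and_true] at hp
      exact ⟨trivial, Ne.symm hp⟩
  rw [h1, Set.ncard_image_of_injective, Set.ncard_coe_finset, Finset.card_product,
    Finset.offDiag_card]
  · simp only [Finset.card_univ, Fintype.card_fin]
    have : (n + 1) * (n + 1) - (n + 1) = n * (n + 1) := by
      rw [Nat.sub_eq_iff_eq_add (by nlinarith)]
      ring
    rw [this]
    ring
  · rintro ⟨⟨a, b⟩, c⟩ ⟨⟨a', b'⟩, c'⟩ h
    simp only [Prod.mk.injEq] at h ⊢
    exact ⟨⟨h.1, h.2.1⟩, h.2.2⟩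

lemma not_equiv (hn : 3 ≤ n) (h : ∀ x : Set (Vr n), Coll x → fI Set.univ x) : False := by
  have hv1 : (((1 : Fin (n + 1)) : ℕ)) = 1 := by
    rw [Fin.val_one']
    exact Nat.mod_eq_of_lt (by omega)
  have h10 : (0 : Pg n) ≠ 1 := by
    intro h
    have := congrArg Fin.val h
    rw [hv1] at this
    simp at this
  obtain ⟨j, hj⟩ := h {(0, 1, ⟨0, by omega⟩), (1, 0, ⟨0, by omega⟩)}
    ⟨0, 1, ⟨0, by omega⟩, h10, by simp, by simp⟩ 0 trivial
  obtain ⟨c, hc0, hc1, _⟩ := exists_ne3 hn 0 1 1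
  rcases hj (mem_col hc0) with h2 | h2
  · have : c = 1 := congrArg (fun v : Vr n => v.2.1) h2
    exact hc1 this
  · have h2' : ((0 : Pg n), c, j) = (1, 0, ⟨0, by omega⟩) := h2
    have : (0 : Pg n) = 1 := congrArg (fun v : Vr n => v.1) h2'
    exact h10 this

theorem main (N : ℕ) : ∃ (s t : Fm (Vr (N + 3))),
    s.Lin ∧ t.Lin ∧ s.vars = t.vars ∧ s.vars.ncard = (N + 3) ^ 2 * (N + 4) ∧
    (∀ x, s.Holds x → t.Holds x) ∧ ¬ Relation.ReflTransGen (Step N) s t := by
  have hn : 3 ≤ N + 3 := by omega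
  obtain ⟨s, hs1, hs2, hs3⟩ := exists_s hn
  obtain ⟨t, ht1, ht2, ht3⟩ := exists_t hn
  refine ⟨s, t, hs1, ht1, ?_, ?_, ?_, ?_⟩
  · ext v; rw [hs2, ht2]
  · have : s.vars = VV Set.univ := by ext v; exact hs2 v
    rw [this, ncard_VV]
  · intro x hx
    exact (ht3 x).2 (coll_of_fI ((hs3 x).1 hx))
  · intro h
    have key : ∀ w, Relation.ReflTransGen (Step N) w t → w.Lin → (∀ v, v ∈ w.vars ↔ v ∈ VV Set.univ) →
        (∀ x, w.Holds x ↔ fI Set.univ x) → False := by
      intro w hw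
      induction hw using Relation.ReflTransGen.head_induction_on with
      | refl =>
        intro _ _ h3
        exact not_equiv hn fun x hx => (h3 x).1 ((ht3 x).2 hx)
      | head h1 h2 ih =>
        intro h3 h4 h5
        refine ih (h1.lin h3) (fun v => by rw [h1.vars_eq]; exact h4 v) ?_
        intro x
        constructor
        · refine step_lemma hn (le_refl _) h1 Set.univ h3 h4 h5 ?_ x
          intro y _ _ _ hy
          exact (ht3 y).1 (star_holds h2 y hy)
        · intro hx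
          exact h1.holds x ((h5 x).2 hx)
    exact key s h hs1 hs2 hs3

end Pool.Agent.Lib.MP_9cec2c_lc.Linear
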