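import Pool.Agent.Lib.MP_9cec2c_lc.LinRules
import Pool.Agent.Lib.MP_9cec2c_lc.LinMain

set_option autoImplicit false

namespace Pool.Agent.Lib.MP_9cec2c_lc.LinearRules

open Pool.Agent.Lib.MP_9cec2c_lc.Linear (Fm)

variable {α β : Type}

/-- normal forms: a constant or a formula without constants -/
abbrev NF (α : Type) := Bool ⊕ Fm α

namespace NF

/-- truth -/
def Holds : NF α → Set α → Prop
  | .inl b, _ => b = true
  | .inr f, x => f.Holds x

/-- variables -/
def vars : NF α → Set α
  | .inl _ => ∅
  | .inr f => f.vars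

/-- linear -/
def Lin : NF α → Prop
  | .inl _ => True
  | .inr f => f.Lin

/-- conjunction of normal forms -/
def nAnd : NF α → NF α → NF α
  | .inl false, _ => .inl false
  | .inl true, r => r
  | .inr _, .inl false => .inl false
  | .inr f, .inl true => .inr f
  | .inr f, .inr g => .inr (Fm.and f g)

/-- disjunction of normal forms -/
def nOr : NF α → NF α → NF α
  | .inl true, _ => .inl true
  | .inl false, r => r
  | .inr _, .inl true => .inl true
  | .inr f, .inl false => .inr f
  | .inr f, .inr g => .inr (Fm.or f g)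

lemma holds_nAnd (a b : NF α) (x : Set α) : (nAnd a b).Holds x ↔ a.Holds x ∧ b.Holds x := by
  rcases a with (_ | _) | f <;> rcases b with (_ | _) | g <;> simp [nAnd, Holds, Fm.Holds]

lemma holds_nOr (a b : NF α) (x : Set α) : (nOr a b).Holds x ↔ a.Holds x ∨ b.Holds x := by
  rcases a with (_ | _) | f <;> rcases b with (_ | _) | g <;> simp [nOr, Holds, Fm.Holds]

lemma vars_nAnd (a b : NF α) : (nAnd a b).vars ⊆ a.vars ∪ b.vars := by
  rcases a with (_ | _) | f <;> rcases b with (_ | _) | g <;> simp [nAnd, vars, Fm.vars]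

lemma vars_nOr (a b : NF α) : (nOr a b).vars ⊆ a.vars ∪ b.vars := by
  rcases a with (_ | _) | f <;> rcases b with (_ | _) | g <;> simp [nOr, vars, Fm.vars]

lemma lin_nAnd {a b : NF α} (ha : a.Lin) (hb : b.Lin) (h : Disjoint a.vars b.vars) :
    (nAnd a b).Lin := by
  rcases a with (_ | _) | f <;> rcases b with (_ | _) | g <;>
    first
      | exact ha
      | exact hb
      | exact trivial
      | exact ⟨ha, hb, h⟩

lemma lin_nOr {a b : NF α} (ha : a.Lin) (hb : b.Lin) (h : Disjoint a.vars b.vars) :
    (nOr a b).Lin := by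
  rcases a with (_ | _) | f <;> rcases b with (_ | _) | g <;>
    first
      | exact ha
      | exact hb
      | exact trivial
      | exact ⟨ha, hb, h⟩

lemma holds_congr {a : NF α} {x y : Set α} (h : ∀ v ∈ a.vars, (v ∈ x ↔ v ∈ y)) :
    a.Holds x ↔ a.Holds y := by
  rcases a with b | f
  · exact Iff.rfl
  · exact Linear.Fm.holds_congr h

/-- substitution in a normal form -/
def map (σ : β → Fm α) : NF β → NF α
  | .inl b => .inl b
  | .inr f => .inr (f.subst σ)

lemma map_nAnd (σ : β → Fm α) (a b : NF β) : map σ (nAnd a b) = nAnd (map σ a) (map σ b) := by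
  rcases a with (_ | _) | f <;> rcases b with (_ | _) | g <;> rfl

lemma map_nOr (σ : β → Fm α) (a b : NF β) : map σ (nOr a b) = nOr (map σ a) (map σ b) := by
  rcases a with (_ | _) | f <;> rcases b with (_ | _) | g <;> rfl

end NF

open NF

/-- evaluation of a formula in normal forms -/
def ev (τ : β → NF α) : Formula β → NF α
  | .cst b => .inl b
  | .var v => τ v
  | .and s t => nAnd (ev τ s) (ev τ t)
  | .or s t => nOr (ev τ s) (ev τ t)

/-- the normal form of a formula -/
def nf (s : Formula α) : NF α := ev (fun v => .inr (Fm.var v)) s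

lemma nf_subst (s : Formula β) (σ : β → Formula α) : nf (s.subst σ) = ev (fun v => nf (σ v)) s := by
  induction s with
  | cst b => rfl
  | var v => rfl
  | and s t ihs iht =>
    show nAnd (nf (s.subst σ)) (nf (t.subst σ)) = nAnd _ _
    rw [ihs, iht]
  | or s t ihs iht =>
    show nOr (nf (s.subst σ)) (nf (t.subst σ)) = nOr _ _
    rw [ihs, iht]

lemma holds_ev (τ : β → NF α) (s : Formula β) (x : Set α) :
    (ev τ s).Holds x ↔ s.Holds {v | (τ v).Holds x} := by
  induction s with
  | cst b => exact Iff.rfl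
  | var v => exact Iff.rfl
  | and s t ihs iht => exact (holds_nAnd _ _ x).trans (and_congr ihs iht)
  | or s t ihs iht => exact (holds_nOr _ _ x).trans (or_congr ihs iht)

lemma holds_nf (s : Formula α) (x : Set α) : (nf s).Holds x ↔ s.Holds x := by
  unfold nf
  rw [holds_ev]
  exact Iff.rfl

lemma holds_subst (s : Formula β) (σ : β → Formula α) (x : Set α) :
    (s.subst σ).Holds x ↔ s.Holds {v | (σ v).Holds x} := by
  induction s with
  | cst b => exact Iff.rfl
  | var v => exact Iff.rfl
  | and s t ihs iht => exact and_congr ihs iht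
  | or s t ihs iht => exact or_congr ihs iht

lemma mem_vars_subst (s : Formula β) (σ : β → Formula α) (v : α) :
    v ∈ (s.subst σ).vars ↔ ∃ t ∈ s.vars, v ∈ (σ t).vars := by
  induction s with
  | cst b =>
    constructor
    · intro h; exact absurd h id
    · rintro ⟨t, ht, _⟩; exact absurd ht id
  | var u =>
    constructor
    · intro h; exact ⟨u, rfl, h⟩
    · rintro ⟨t, ht, h⟩
      cases ht
      exact h
  | and s t ihs iht =>
    constructor
    · rintro (h | h)
      · obtain ⟨u, hu, h⟩ := ihs.1 h; exact ⟨u, Or.inl hu, h⟩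
      · obtain ⟨u, hu, h⟩ := iht.1 h; exact ⟨u, Or.inr hu, h⟩
    · rintro ⟨u, hu | hu, h⟩
      · exact Or.inl (ihs.2 ⟨u, hu, h⟩)
      · exact Or.inr (iht.2 ⟨u, hu, h⟩)
  | or s t ihs iht =>
    constructor
    · rintro (h | h)
      · obtain ⟨u, hu, h⟩ := ihs.1 h; exact ⟨u, Or.inl hu, h⟩
      · obtain ⟨u, hu, h⟩ := iht.1 h; exact ⟨u, Or.inr hu, h⟩
    · rintro ⟨u, hu | hu, h⟩
      · exact Or.inl (ihs.2 ⟨u, hu, h⟩)
      · exact Or.inr (iht.2 ⟨u, hu, h⟩)

lemma vars_ev (τ : β → NF α) (s : Formula β) (v : α) (hv : v ∈ (ev τ s).vars) :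
    ∃ t ∈ s.vars, v ∈ (τ t).vars := by
  induction s with
  | cst b => exact absurd hv id
  | var u => exact ⟨u, rfl, hv⟩
  | and s t ihs iht =>
    rcases vars_nAnd _ _ hv with h | h
    · obtain ⟨u, hu, h⟩ := ihs h; exact ⟨u, Or.inl hu, h⟩
    · obtain ⟨u, hu, h⟩ := iht h; exact ⟨u, Or.inr hu, h⟩
  | or s t ihs iht =>
    rcases vars_nOr _ _ hv with h | h
    · obtain ⟨u, hu, h⟩ := ihs h; exact ⟨u, Or.inl hu, h⟩
    · obtain ⟨u, hu, h⟩ := iht h; exact ⟨u, Or.inr hu, h⟩

lemma vars_nf (s : Formula α) : (nf s).vars ⊆ s.vars := by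
  intro v hv
  obtain ⟨t, ht, h⟩ := vars_ev _ s v hv
  have : v = t := h
  rw [this]
  exact ht

lemma lin_ev {τ : β → NF α} {s : Formula β} : s.Linear → (∀ t ∈ s.vars, (τ t).Lin) →
    (∀ t ∈ s.vars, ∀ t' ∈ s.vars, t ≠ t' → Disjoint (τ t).vars (τ t').vars) → (ev τ s).Lin := by
  have hdis : ∀ (s t : Formula β), Disjoint s.vars t.vars →
      (∀ u ∈ s.vars ∪ t.vars, ∀ u' ∈ s.vars ∪ t.vars, u ≠ u' → Disjoint (τ u).vars (τ u').vars) →
      Disjoint (ev τ s).vars (ev τ t).vars := by
    intro s t hst h
    rw [Set.disjoint_left]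
    intro v hv hv'
    obtain ⟨u, hu, hvu⟩ := vars_ev τ s v hv
    obtain ⟨u', hu', hvu'⟩ := vars_ev τ t v hv'
    have hne : u ≠ u' := by
      rintro rfl
      exact Set.disjoint_left.1 hst hu hu'
    exact Set.disjoint_left.1 (h u (Or.inl hu) u' (Or.inr hu') hne) hvu hvu'
  induction s with
  | cst b => intro _ _ _; trivial
  | var v => intro _ h _; exact h v rfl
  | and s t ihs iht =>
    intro h h1 h2
    exact lin_nAnd
      (ihs h.1 (fun u hu => h1 u (Or.inl hu)) (fun u hu u' hu' => h2 u (Or.inl hu) u' (Or.inl hu')))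
      (iht h.2.1 (fun u hu => h1 u (Or.inr hu)) (fun u hu u' hu' => h2 u (Or.inr hu) u' (Or.inr hu')))
      (hdis s t h.2.2 h2)
  | or s t ihs iht =>
    intro h h1 h2
    exact lin_nOr
      (ihs h.1 (fun u hu => h1 u (Or.inl hu)) (fun u hu u' hu' => h2 u (Or.inl hu) u' (Or.inl hu')))
      (iht h.2.1 (fun u hu => h1 u (Or.inr hu)) (fun u hu u' hu' => h2 u (Or.inr hu) u' (Or.inr hu')))
      (hdis s t h.2.2 h2)

lemma lin_nf {s : Formula α} (h : s.Linear) : (nf s).Lin := by
  refine lin_ev h (fun _ _ => trivial) ?_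
  intro t _ t' _ hne
  rw [Set.disjoint_left]
  intro v hv hv'
  exact hne ((show v = t from hv).symm.trans hv')

/-- the substituted formulas in a linear formula have no variable in common -/
lemma disjoint_of_subst {s : Formula β} {σ : β → Formula α} : s.Linear → (s.subst σ).Linear →
    ∀ t ∈ s.vars, ∀ t' ∈ s.vars, t ≠ t' → Disjoint (σ t).vars (σ t').vars := by
  have aux : ∀ (s t : Formula β), Disjoint (s.subst σ).vars (t.subst σ).vars →
      (∀ u ∈ s.vars, ∀ u' ∈ s.vars, u ≠ u' → Disjoint (σ u).vars (σ u').vars) →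
      (∀ u ∈ t.vars, ∀ u' ∈ t.vars, u ≠ u' → Disjoint (σ u).vars (σ u').vars) →
      ∀ u ∈ s.vars ∪ t.vars, ∀ u' ∈ s.vars ∪ t.vars, u ≠ u' → Disjoint (σ u).vars (σ u').vars := by
    intro s t h3 hs ht
    have hd : ∀ u ∈ s.vars, ∀ u' ∈ t.vars, Disjoint (σ u).vars (σ u').vars := by
      intro u hu u' hu'
      rw [Set.disjoint_left] at h3 ⊢
      intro v hv hv'
      exact h3 ((mem_vars_subst s σ v).2 ⟨u, hu, hv⟩) ((mem_vars_subst t σ v).2 ⟨u', hu', hv'⟩)
    rintro u (hu | hu) u' (hu' | hu') hne
    · exact hs u hu u' hu' hne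
    · exact hd u hu u' hu'
    · exact (hd u' hu' u hu).symm
    · exact ht u hu u' hu' hne
  induction s with
  | cst b => intro _ _ t ht; exact absurd ht id
  | var v =>
    rintro _ _ t rfl t' rfl hne
    exact absurd rfl hne
  | and s t ihs iht =>
    intro h h'
    exact aux s t h'.2.2 (ihs h.1 h'.1) (iht h.2.1 h'.2.1)
  | or s t ihs iht =>
    intro h h'
    exact aux s t h'.2.2 (ihs h.1 h'.1) (iht h.2.1 h'.2.1)

namespace Step

lemma holds {N : ℕ} {s t : Formula α} (h : Step N s t) : ∀ x, s.Holds x → t.Holds x := by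
  induction h with
  | rule hk l r hl hr sound σ =>
    intro x hx
    rw [holds_subst] at hx ⊢
    exact sound _ hx
  | andLeft t h ih => intro x hx; exact ⟨ih x hx.1, hx.2⟩
  | andRight t h ih => intro x hx; exact ⟨hx.1, ih x hx.2⟩
  | orLeft t h ih => intro x hx; exact hx.imp (ih x) id
  | orRight t h ih => intro x hx; exact hx.imp id (ih x)

end Step

/-- What one step does to the normal forms. -/
def Alt (N : ℕ) (a b : NF α) : Prop :=
  (∃ w ∈ a.vars ∪ b.vars, ∃ m : Set α → Prop, (∀ x, a.Holds x → m x) ∧ (∀ x, m x → b.Holds x) ∧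
    ∀ x y : Set α, (∀ z, z ≠ w → (z ∈ x ↔ z ∈ y)) → m x → m y) ∨ a = b ∨
  (∃ f g, a = .inr f ∧ b = .inr g ∧ Linear.Step N f g) ∨ (a = .inl false ∧ b = .inl true)

lemma alt_ctx {N : ℕ} {a b : NF α} (h : Alt N a b) (F : NF α → NF α) (c : Fm α)
    (op : Fm α → Fm α) (q : Prop → Prop → Prop) (hF : ∀ f, F (.inr f) = .inr (op f))
    (hq : ∀ p p' r, (p → p') → q p r → q p' r)
    (hFH : ∀ a x, (F a).Holds x ↔ q (a.Holds x) (c.Holds x))
    (hop : ∀ f, f.vars ∪ c.vars ⊆ (op f).vars)
    (hstep : ∀ f g, Linear.Step N f g → Linear.Step N (op f) (op g))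
    (hconst : (F (.inl true) = .inr c ∧ F (.inl false) = .inl false) ∨
      (F (.inl false) = .inr c ∧ F (.inl true) = .inl true))
    (hda : Disjoint a.vars c.vars) (hdb : Disjoint b.vars c.vars) : Alt N (F a) (F b) := by
  rcases h with ⟨w, hw, m, h1, h2, h3⟩ | h | ⟨f, g, rfl, rfl, h⟩ | ⟨rfl, rfl⟩
  · left
    have key : ∀ a : NF α, w ∈ a.vars → w ∈ (F a).vars := by
      intro a ha
      rcases a with b | f
      · exact absurd ha id
      · rw [hF]; exact hop f (Or.inl ha)
    have hwc : w ∉ c.vars := by
      rcases hw with hw | hw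
      · exact Set.disjoint_left.1 hda hw
      · exact Set.disjoint_left.1 hdb hw
    refine ⟨w, hw.imp (key a) (key b), fun x => q (m x) (c.Holds x), ?_, ?_, ?_⟩
    · intro x hx
      exact hq _ _ _ (h1 x) ((hFH a x).1 hx)
    · intro x hx
      exact (hFH b x).2 (hq _ _ _ (h2 x) hx)
    · intro x y hxy hx
      have : c.Holds x ↔ c.Holds y := Linear.Fm.holds_congr fun v hv =>
        hxy v fun h => hwc (h ▸ hv)
      rw [← this]
      exact hq _ _ _ (h3 x y hxy) hx
  · right; left; rw [h]
  · right; right; left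
    exact ⟨op f, op g, hF f, hF g, hstep f g h⟩
  · left
    obtain ⟨w, hw⟩ := c.vars_nonempty
    rcases hconst with ⟨e1, e2⟩ | ⟨e1, e2⟩
    · refine ⟨w, Or.inr (by rw [e1]; exact hw), fun _ => False, ?_, fun _ h => h.elim, fun _ _ _ h => h⟩
      intro x hx
      rw [e2] at hx
      exact Bool.false_ne_true hx
    · refine ⟨w, Or.inl (by rw [e1]; exact hw), fun _ => True, fun _ _ => trivial, ?_, fun _ _ _ h => h⟩
      intro x _
      rw [e2]
      exact rfl

lemma Alt.of_const {N : ℕ} {a b : NF α} {F : NF α → NF α} (hF : ∀ a b, F a = F b) :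
    Alt N (F a) (F b) := Or.inr (Or.inl (hF a b))

lemma Alt.of_id {N : ℕ} {a b : NF α} {F : NF α → NF α} (hF : ∀ a, F a = a) (h : Alt N a b) :
    Alt N (F a) (F b) := by rw [hF, hF]; exact h

lemma ev_map (σ : β → Fm α) {γ : Type} (τ : γ → NF β) (s : Formula γ) :
    ev (fun v => NF.map σ (τ v)) s = NF.map σ (ev τ s) := by
  induction s with
  | cst b => rfl
  | var v => rfl
  | and s t ihs iht =>
    show nAnd _ _ = NF.map σ (nAnd _ _)
    rw [map_nAnd, ← ihs, ← iht]
  | or s t ihs iht =>
    show nOr _ _ = NF.map σ (nOr _ _)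
    rw [map_nOr, ← ihs, ← iht]

lemma exists_restrict (s : Fm β) (S : Set β) (h : s.vars ⊆ S) :
    ∃ s' : Fm S, s'.subst (fun v => Fm.var v.1) = s := by
  induction s with
  | var v => exact ⟨Fm.var ⟨v, h rfl⟩, rfl⟩
  | and s t ihs iht =>
    obtain ⟨s', hs⟩ := ihs fun v hv => h (Or.inl hv)
    obtain ⟨t', ht⟩ := iht fun v hv => h (Or.inr hv)
    exact ⟨Fm.and s' t', by rw [← hs, ← ht]; rfl⟩
  | or s t ihs iht =>
    obtain ⟨s', hs⟩ := ihs fun v hv => h (Or.inl hv)
    obtain ⟨t', ht⟩ := iht fun v hv => h (Or.inr hv)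
    exact ⟨Fm.or s' t', by rw [← hs, ← ht]; rfl⟩

lemma fm_subst_subst {γ : Type} (s : Fm γ) (σ : γ → Fm β) (τ : β → Fm α) :
    (s.subst σ).subst τ = s.subst (fun v => (σ v).subst τ) := by
  induction s with
  | var v => rfl
  | and s t ihs iht =>
    show Fm.and _ _ = Fm.and _ _
    rw [← ihs, ← iht]
  | or s t ihs iht =>
    show Fm.or _ _ = Fm.or _ _
    rw [← ihs, ← iht]

/-- a rule whose two sides are constant-free and have the same variables -/
lemma step_of_rule {k N : ℕ} (hk : k ≤ N) (l r : Fm (Fin k)) (hl : l.Lin) (hr : r.Lin)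
    (hv : l.vars = r.vars) (sound : ∀ x, l.Holds x → r.Holds x) (σ : Fin k → Fm α) :
    Linear.Step N (l.subst σ) (r.subst σ) := by
  classical
  obtain ⟨l', hl'⟩ := exists_restrict l l.vars subset_rfl
  obtain ⟨r', hr'⟩ := exists_restrict r l.vars (by rw [hv])
  have hvars : ∀ (s : Fm (Fin k)) (s' : Fm l.vars), s.vars = l.vars →
      s'.subst (fun v => Fm.var v.1) = s → s'.vars = Set.univ := by
    intro s s' h1 h2
    ext v
    refine ⟨fun _ => trivial, fun _ => ?_⟩
    have h3 : v.1 ∈ s.vars := by rw [h1]; exact v.2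
    rw [← h2, Linear.Fm.mem_vars_subst] at h3
    obtain ⟨t, ht, htv⟩ := h3
    have : v = t := Subtype.ext htv
    rw [this]
    exact ht
  have hholds : ∀ (s : Fm (Fin k)) (s' : Fm l.vars), s'.subst (fun v => Fm.var v.1) = s →
      ∀ x : Set l.vars, s.Holds (Subtype.val '' x) ↔ s'.Holds x := by
    intro s s' h2 x
    rw [← h2, Linear.Fm.holds_subst]
    apply Linear.Fm.holds_congr
    intro v _
    constructor
    · rintro ⟨u, hu, huv⟩
      rw [← Subtype.ext huv]
      exact hu
    · intro h
      exact ⟨v, h, rfl⟩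
  have hlin : ∀ (s : Fm (Fin k)) (s' : Fm l.vars), s'.subst (fun v => Fm.var v.1) = s →
      s.Lin → s'.Lin := by
    intro s s' h1 h2
    rw [← h1] at h2
    exact (Linear.Fm.Lin.of_subst h2).1
  have h := Linear.Step.rule (N := N) (β := l.vars)
    (le_trans (by
      have := Fintype.card_subtype_le (fun v : Fin k => v ∈ l.vars)
      rw [Fintype.card_fin] at this
      exact this) hk) l' r' (hlin l l' hl' hl) (hlin r r' hr' hr) (hvars l l' rfl hl')
    (hvars r r' hv.symm hr') (by
      intro x hx
      rw [← hholds r r' hr']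
      apply sound
      rw [hholds l l' hl']
      exact hx) (fun v => σ v.1)
  have e : ∀ (s : Fm (Fin k)) (s' : Fm l.vars), s'.subst (fun v => Fm.var v.1) = s →
      s.subst σ = s'.subst (fun v => σ v.1) := by
    intro s s' h1
    rw [← h1, fm_subst_subst]
    rfl
  rw [e l l' hl', e r r' hr']
  exact h

/-- The effect of one step on the normal forms. -/
theorem step_alt [Nonempty α] {N : ℕ} {u v : Formula α} (h : Step N u v) :
    u.Linear → v.Linear → Alt N (nf u) (nf v) := by
  have hdisj : ∀ {s t : Formula α}, Disjoint s.vars t.vars → Disjoint (nf s).vars (nf t).vars :=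
    fun h => Set.disjoint_of_subset (vars_nf _) (vars_nf _) h
  induction h with
  | @rule k hk l r hl hr sound σ =>
    intro hu hv
    have hdl := disjoint_of_subst hl hu
    have hdr := disjoint_of_subst hr hv
    rw [nf_subst, nf_subst]
    let τ' : Fin k → NF (Fin k) := fun v => match nf (σ v) with
      | .inl b => .inl b
      | .inr _ => .inr (Fm.var v)
    let σ' : Fin k → Fm α := fun v => match nf (σ v) with
      | .inl _ => Fm.var (Classical.arbitrary α)
      | .inr f => f
    have hτσ : (fun v => nf (σ v)) = fun v => NF.map σ' (τ' v) := by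
      funext v
      simp only [τ', σ']
      rcases h : nf (σ v) with b | f
      · simp only [NF.map]
      · simp only [NF.map, Linear.Fm.subst, h]
    rw [hτσ, ev_map, ev_map]
    have hτv : ∀ v w, w ∈ (τ' v).vars → w = v ∧ nf (σ v) = .inr (σ' v) := by
      intro v w hw
      simp only [τ', σ'] at hw ⊢
      rcases h : nf (σ v) with b | f
      · rw [h] at hw
        exact absurd hw id
      · rw [h] at hw
        exact ⟨hw, rfl⟩
    have hτl : ∀ v, (τ' v).Lin := by
      intro v
      simp only [τ']
      rcases h : nf (σ v) with b | f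
      · trivial
      · trivial
    have hτd : ∀ v v', v ≠ v' → Disjoint (τ' v).vars (τ' v').vars := by
      intro v v' hne
      rw [Set.disjoint_left]
      intro w h1 h2
      exact hne ((hτv v w h1).1.symm.trans (hτv v' w h2).1)
    have hL : (ev τ' l).Lin := lin_ev hl (fun t _ => hτl t) (fun t _ t' _ h => hτd t t' h)
    have hR : (ev τ' r).Lin := lin_ev hr (fun t _ => hτl t) (fun t _ t' _ h => hτd t t' h)
    have hsound : ∀ x, (ev τ' l).Holds x → (ev τ' r).Holds x := by
      intro x hx
      rw [holds_ev] at hx ⊢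
      exact sound _ hx
    have hmem : ∀ (s : Formula (Fin k)) (w : Fin k), w ∈ (ev τ' s).vars →
        w ∈ s.vars ∧ (σ' w).vars ⊆ (σ w).vars := by
      intro s w hw
      obtain ⟨t, ht, h1⟩ := vars_ev τ' s w hw
      obtain ⟨h2, h3⟩ := hτv t w h1
      rw [h2]
      refine ⟨ht, ?_⟩
      have := vars_nf (σ t)
      rw [h3] at this
      exact this
    -- the independence of a variable
    have indep : ∀ (s : Formula (Fin k)) (L : Fm (Fin k)), ev τ' s = .inr L →
        (∀ t ∈ s.vars, ∀ t' ∈ s.vars, t ≠ t' → Disjoint (σ t).vars (σ t').vars) →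
        ∀ v0 ∈ L.vars, ∀ w ∈ (σ' v0).vars, ∀ v ∈ L.vars, v ≠ v0 → w ∉ (σ' v).vars := by
      intro s L hsL hd v0 hv0 w hw v hv hne hwv
      have h1 := hmem s v0 (by rw [hsL]; exact hv0)
      have h2 := hmem s v (by rw [hsL]; exact hv)
      exact Set.disjoint_left.1 (hd v h2.1 v0 h1.1 hne) (h2.2 hwv) (h1.2 hw)
    rcases hLe : ev τ' l with b | L
    · rcases hRe : ev τ' r with b' | R
      · rw [hLe, hRe] at hsound
        cases b
        · cases b'
          · right; left; rfl
          · right; right; right; exact ⟨rfl, rfl⟩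
        · have := hsound ∅ rfl
          cases b'
          · exact absurd this Bool.false_ne_true
          · right; left; rfl
      · rw [hLe, hRe] at hsound
        have hb : b = false := by
          cases b
          · rfl
          · exact absurd (hsound ∅ rfl) R.not_holds_empty
        rw [hb]
        left
        obtain ⟨w, hw⟩ := (R.subst σ').vars_nonempty
        exact ⟨w, Or.inr hw, fun _ => False, fun x hx => Bool.false_ne_true hx,
          fun _ h => h.elim, fun _ _ _ h => h⟩
    · rcases hRe : ev τ' r with b' | R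
      · rw [hLe, hRe] at hsound
        have hb : b' = true := by
          cases b'
          · exact absurd (hsound L.vars (Linear.Fm.holds_of_subset fun _ h => h)) Bool.false_ne_true
          · rfl
        rw [hb]
        left
        obtain ⟨w, hw⟩ := (L.subst σ').vars_nonempty
        exact ⟨w, Or.inl hw, fun _ => True, fun _ _ => trivial, fun _ _ => rfl, fun _ _ _ h => h⟩
      · rw [hLe] at hL
        rw [hRe] at hR
        have hsound' : ∀ x, L.Holds x → R.Holds x := by
          intro x hx
          have := hsound x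
          rw [hLe, hRe] at this
          exact this hx
        have hHL : ∀ x, (NF.map σ' (.inr L)).Holds x ↔ L.Holds {v | (σ' v).Holds x} := fun x =>
          Linear.Fm.holds_subst L σ' x
        have hHR : ∀ x, (NF.map σ' (.inr R)).Holds x ↔ R.Holds {v | (σ' v).Holds x} := fun x =>
          Linear.Fm.holds_subst R σ' x
        by_cases hvars : L.vars = R.vars
        · right; right; left
          exact ⟨_, _, rfl, rfl, step_of_rule hk L R hL hR hvars hsound' σ'⟩
        · left
          by_cases hsub : L.vars ⊆ R.vars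
          · obtain ⟨v0, hv0, hv0'⟩ : ∃ v0 ∈ R.vars, v0 ∉ L.vars := by
              by_contra hcon
              push Not at hcon
              exact hvars (Set.Subset.antisymm hsub hcon)
            obtain ⟨w, hw⟩ := (σ' v0).vars_nonempty
            have hin := indep r R hRe hdr v0 hv0 w hw
            refine ⟨w, Or.inr ((Linear.Fm.mem_vars_subst _ _ _).2 ⟨v0, hv0, hw⟩),
              fun x => R.Holds ({v | (σ' v).Holds x} \ {v0}), ?_, ?_, ?_⟩
            · intro x hx
              apply hsound'
              refine ((hHL x).1 hx).sub fun v hv hvx => ⟨hvx, fun h => hv0' ?_⟩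
              rw [Set.mem_singleton_iff] at h
              exact h ▸ hv
            · intro x hx
              exact (hHR x).2 (hx.mono fun v hv => hv.1)
            · intro x y hxy hx
              refine (Linear.Fm.holds_congr ?_).1 hx
              intro v hv
              by_cases hvv : v = v0
              · exact ⟨fun h => absurd hvv h.2, fun h => absurd hvv h.2⟩
              · have h1 : (σ' v).Holds x ↔ (σ' v).Holds y := Linear.Fm.holds_congr fun z hz =>
                  hxy z fun h => hin v hv hvv (h ▸ hz)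
                exact ⟨fun h => ⟨h1.1 h.1, h.2⟩, fun h => ⟨h1.2 h.1, h.2⟩⟩
          · obtain ⟨v0, hv0, hv0'⟩ := Set.not_subset.1 hsub
            obtain ⟨w, hw⟩ := (σ' v0).vars_nonempty
            have hin := indep l L hLe hdl v0 hv0 w hw
            refine ⟨w, Or.inl ((Linear.Fm.mem_vars_subst _ _ _).2 ⟨v0, hv0, hw⟩),
              fun x => L.Holds ({v | (σ' v).Holds x} ∪ {v0}), ?_, ?_, ?_⟩
            · intro x hx
              exact ((hHL x).1 hx).mono fun v hv => Or.inl hv
            · intro x hx
              refine (hHR x).2 ((hsound' _ hx).sub fun v hv hvx => ?_)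
              rcases hvx with h | h
              · exact h
              · rw [Set.mem_singleton_iff] at h
                exact absurd (h ▸ hv) hv0'
            · intro x y hxy hx
              refine (Linear.Fm.holds_congr ?_).1 hx
              intro v hv
              by_cases hvv : v = v0
              · exact ⟨fun _ => Or.inr hvv, fun _ => Or.inr hvv⟩
              · have h1 : (σ' v).Holds x ↔ (σ' v).Holds y := Linear.Fm.holds_congr fun z hz =>
                  hxy z fun h => hin v hv hvv (h ▸ hz)
                constructor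
                · rintro (h | h)
                  · exact Or.inl (h1.1 h)
                  · exact absurd h hvv
                · rintro (h | h)
                  · exact Or.inl (h1.2 h)
                  · exact absurd h hvv
  | @andLeft s s' t h ih =>
    intro hu hv
    have ih' := ih hu.1 hv.1
    show Alt N (nAnd (nf s) (nf t)) (nAnd (nf s') (nf t))
    have hda := hdisj hu.2.2
    have hdb := hdisj hv.2.2
    generalize nf t = b at hda hdb ⊢
    rcases b with (_ | _) | c
    · exact Alt.of_const (F := fun a => nAnd a (.inl false)) (by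
        intro a b
        rcases a with (_ | _) | f <;> rcases b with (_ | _) | g <;> rfl)
    · exact Alt.of_id (F := fun a => nAnd a (.inl true)) (by
        intro a
        rcases a with (_ | _) | f <;> rfl) ih'
    · exact alt_ctx ih' (fun a => nAnd a (.inr c)) c (fun f => Fm.and f c) And (fun f => rfl)
        (fun p p' r h h2 => ⟨h h2.1, h2.2⟩) (fun a x => holds_nAnd a (.inr c) x) (fun f => subset_rfl)
        (fun f g h => Linear.Step.andLeft c h) (Or.inl ⟨rfl, rfl⟩) hda hdb
  | @andRight s s' t h ih =>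
    intro hu hv
    have ih' := ih hu.2.1 hv.2.1
    show Alt N (nAnd (nf t) (nf s)) (nAnd (nf t) (nf s'))
    have hda := hdisj hu.2.2.symm
    have hdb := hdisj hv.2.2.symm
    generalize nf t = b at hda hdb ⊢
    rcases b with (_ | _) | c
    · exact Alt.of_const (F := fun a => nAnd (.inl false) a) (by
        intro a b
        rcases a with (_ | _) | f <;> rcases b with (_ | _) | g <;> rfl)
    · exact Alt.of_id (F := fun a => nAnd (.inl true) a) (by
        intro a
        rcases a with (_ | _) | f <;> rfl) ih'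
    · exact alt_ctx ih' (fun a => nAnd (.inr c) a) c (fun f => Fm.and c f) (fun p r => r ∧ p)
        (fun f => rfl)
        (fun p p' r h h2 => ⟨h2.1, h h2.2⟩) (fun a x => holds_nAnd (.inr c) a x)
        (fun f => by rw [Set.union_comm]; exact subset_rfl)
        (fun f g h => Linear.Step.andRight c h) (Or.inl ⟨rfl, rfl⟩) hda hdb
  | @orLeft s s' t h ih =>
    intro hu hv
    have ih' := ih hu.1 hv.1
    show Alt N (nOr (nf s) (nf t)) (nOr (nf s') (nf t))
    have hda := hdisj hu.2.2
    have hdb := hdisj hv.2.2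
    generalize nf t = b at hda hdb ⊢
    rcases b with (_ | _) | c
    · exact Alt.of_id (F := fun a => nOr a (.inl false)) (by
        intro a
        rcases a with (_ | _) | f <;> rfl) ih'
    · exact Alt.of_const (F := fun a => nOr a (.inl true)) (by
        intro a b
        rcases a with (_ | _) | f <;> rcases b with (_ | _) | g <;> rfl)
    · exact alt_ctx ih' (fun a => nOr a (.inr c)) c (fun f => Fm.or f c) Or (fun f => rfl)
        (fun p p' r h h2 => h2.imp h id) (fun a x => holds_nOr a (.inr c) x) (fun f => subset_rfl)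
        (fun f g h => Linear.Step.orLeft c h) (Or.inr ⟨rfl, rfl⟩) hda hdb
  | @orRight s s' t h ih =>
    intro hu hv
    have ih' := ih hu.2.1 hv.2.1
    show Alt N (nOr (nf t) (nf s)) (nOr (nf t) (nf s'))
    have hda := hdisj hu.2.2.symm
    have hdb := hdisj hv.2.2.symm
    generalize nf t = b at hda hdb ⊢
    rcases b with (_ | _) | c
    · exact Alt.of_id (F := fun a => nOr (.inl false) a) (by
        intro a
        rcases a with (_ | _) | f <;> rfl) ih'
    · exact Alt.of_const (F := fun a => nOr (.inl true) a) (by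
        intro a b
        rcases a with (_ | _) | f <;> rcases b with (_ | _) | g <;> rfl)
    · exact alt_ctx ih' (fun a => nOr (.inr c) a) c (fun f => Fm.or c f) (fun p r => r ∨ p)
        (fun f => rfl)
        (fun p p' r h h2 => h2.imp id h) (fun a x => holds_nOr (.inr c) a x)
        (fun f => by rw [Set.union_comm]; exact subset_rfl)
        (fun f g h => Linear.Step.orRight c h) (Or.inr ⟨rfl, rfl⟩) hda hdb

end Pool.Agent.Lib.MP_9cec2c_lc.LinearRules
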