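import Pool.Agent.Lib.MP_9cec2c_lc.LinConst

set_option autoImplicit false

namespace Pool.Agent.Lib.MP_9cec2c_lc.LinearRules

open Pool.Agent.Lib.MP_9cec2c_lc.Linear (Fm)

section

variable {α β : Type}

/-- a formula without constants, as a formula -/
def emb : Fm α → Formula α
  | .var v => .var v
  | .and s t => .and (emb s) (emb t)
  | .or s t => .or (emb s) (emb t)

lemma holds_emb (s : Fm α) (x : Set α) : (emb s).Holds x ↔ s.Holds x := by
  induction s with
  | var v => exact Iff.rfl
  | and s t ihs iht => exact and_congr ihs iht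
  | or s t ihs iht => exact or_congr ihs iht

lemma vars_emb (s : Fm α) : (emb s).vars = s.vars := by
  induction s with
  | var v => rfl
  | and s t ihs iht => show _ ∪ _ = _ ∪ _; rw [ihs, iht]
  | or s t ihs iht => show _ ∪ _ = _ ∪ _; rw [ihs, iht]

lemma linear_emb {s : Fm α} : s.Lin → (emb s).Linear := by
  induction s with
  | var v => intro _; trivial
  | and s t ihs iht =>
    intro h
    exact ⟨ihs h.1, iht h.2.1, by rw [vars_emb, vars_emb]; exact h.2.2⟩
  | or s t ihs iht =>
    intro h
    exact ⟨ihs h.1, iht h.2.1, by rw [vars_emb, vars_emb]; exact h.2.2⟩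

lemma constFree_emb (s : Fm α) : (emb s).ConstFree := by
  induction s with
  | var v => trivial
  | and s t ihs iht => exact ⟨ihs, iht⟩
  | or s t ihs iht => exact ⟨ihs, iht⟩

lemma formula_subst_subst {γ : Type} (s : Formula γ) (σ : γ → Formula β) (τ : β → Formula α) :
    (s.subst σ).subst τ = s.subst (fun v => (σ v).subst τ) := by
  induction s with
  | cst b => rfl
  | var v => rfl
  | and s t ihs iht =>
    show Formula.and _ _ = Formula.and _ _
    rw [← ihs, ← iht]
  | or s t ihs iht =>
    show Formula.or _ _ = Formula.or _ _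
    rw [← ihs, ← iht]

open Classical in
/-- the substitution that makes all variables outside `V` false -/
noncomputable def kap (V : Set α) (v : α) : Formula α :=
  if v ∈ V then .var v else .cst false

/-- make all variables outside `V` false -/
noncomputable def kill (V : Set α) (s : Formula α) : Formula α := s.subst (kap V)

lemma step_kill {N : ℕ} (V : Set α) {u v : Formula α} (h : Step N u v) :
    Step N (kill V u) (kill V v) := by
  unfold kill
  induction h with
  | rule hk l r hl hr sound σ =>
    rw [formula_subst_subst, formula_subst_subst]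
    exact Step.rule hk l r hl hr sound _
  | andLeft t h ih => exact Step.andLeft _ ih
  | andRight t h ih => exact Step.andRight _ ih
  | orLeft t h ih => exact Step.orLeft _ ih
  | orRight t h ih => exact Step.orRight _ ih

lemma vars_kap (V : Set α) (v w : α) (h : w ∈ (kap V v).vars) : w = v ∧ v ∈ V := by
  unfold kap at h
  split_ifs at h with hv
  · exact ⟨h, hv⟩
  · exact absurd h id

lemma vars_kill (V : Set α) (u : Formula α) (w : α) (h : w ∈ (kill V u).vars) :
    w ∈ u.vars ∧ w ∈ V := by
  obtain ⟨t, ht, h1⟩ := (mem_vars_subst _ _ _).1 h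
  obtain ⟨h2, h3⟩ := vars_kap V t w h1
  rw [h2]
  exact ⟨ht, h3⟩

lemma linear_kill (V : Set α) {u : Formula α} : u.Linear → (kill V u).Linear := by
  have hdis : ∀ s t : Formula α, Disjoint s.vars t.vars →
      Disjoint (kill V s).vars (kill V t).vars := fun s t h =>
    Set.disjoint_of_subset (fun v hv => (vars_kill V s v hv).1)
      (fun v hv => (vars_kill V t v hv).1) h
  induction u with
  | cst b => intro _; trivial
  | var v =>
    intro _
    show (kap V v).Linear
    unfold kap
    split_ifs <;> trivial
  | and s t ihs iht => intro h; exact ⟨ihs h.1, iht h.2.1, hdis s t h.2.2⟩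
  | or s t ihs iht => intro h; exact ⟨ihs h.1, iht h.2.1, hdis s t h.2.2⟩

lemma kill_eq (V : Set α) {u : Formula α} : u.vars ⊆ V → kill V u = u := by
  induction u with
  | cst b => intro _; rfl
  | var v =>
    intro h
    show kap V v = _
    unfold kap
    rw [if_pos (h rfl)]
  | and s t ihs iht =>
    intro h
    show Formula.and (kill V s) (kill V t) = _
    rw [ihs fun v hv => h (Or.inl hv), iht fun v hv => h (Or.inr hv)]
  | or s t ihs iht =>
    intro h
    show Formula.or (kill V s) (kill V t) = _
    rw [ihs fun v hv => h (Or.inl hv), iht fun v hv => h (Or.inr hv)]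

end

open Linear

variable {n : ℕ}

/-- the pigeonhole inference is not trivial at any variable -/
lemma nontriv {w : Vr n} (hw : w ∈ VV Set.univ) {m : Set (Vr n) → Prop}
    (h1 : ∀ x, fI Set.univ x → m x) (h2 : ∀ x, m x → Coll x)
    (h3 : ∀ x y : Set (Vr n), (∀ z, z ≠ w → (z ∈ x ↔ z ∈ y)) → m x → m y) : False := by
  obtain ⟨i, a, j⟩ := w
  have hai : a ≠ i := hw.2
  obtain ⟨φ, hφ, hφa⟩ := exists_place1 hai j
  have hφ' := injOn_update hφ j
  have hc : (Function.update φ i j) a = (Function.update φ i j) i := by
    rw [Function.update_self, Function.update_of_ne hai, hφa]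
  have h4 := h3 _ (pl (Function.update φ i j) \ {(i, a, j)})
    (fun z hz => ⟨fun h => ⟨h, hz⟩, fun h => h.1⟩) (h1 _ (fI_pl Set.univ (Function.update φ i j)))
  obtain ⟨p, q, k, hpq, hp, hq⟩ := h2 _ h4
  have hpk : (Function.update φ i j) p = k := hp.1
  have hqk : (Function.update φ i j) q = k := hq.1
  rcases collision_unique hφ' hai hc hpq (hpk.trans hqk.symm) with ⟨rfl, rfl⟩ | ⟨rfl, rfl⟩
  · rw [Function.update_self] at hqk
    apply hq.2
    rw [← hqk]
    rfl
  · rw [Function.update_self] at hpk
    apply hp.2
    rw [← hpk]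
    rfl

theorem main_const (N : ℕ) : ∃ (s t : Formula (Vr (N + 3))),
    s.Linear ∧ t.Linear ∧ s.ConstFree ∧ t.ConstFree ∧ s.vars = t.vars ∧
    s.vars.ncard = (N + 3) ^ 2 * (N + 4) ∧
    (∀ x, s.Holds x → t.Holds x) ∧ ¬ Derives N s t := by
  have hn : 3 ≤ N + 3 := by omega
  obtain ⟨s, hs1, hs2, hs3⟩ := exists_s hn
  obtain ⟨t, ht1, ht2, ht3⟩ := exists_t hn
  have hsv : s.vars = VV Set.univ := by ext v; exact hs2 v
  have htv : t.vars = VV Set.univ := by ext v; exact ht2 v
  refine ⟨emb s, emb t, linear_emb hs1, linear_emb ht1, constFree_emb s, constFree_emb t, ?_, ?_,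
    ?_, ?_⟩
  · rw [vars_emb, vars_emb, hsv, htv]
  · rw [vars_emb, hsv, ncard_VV]
  · intro x hx
    rw [holds_emb] at hx ⊢
    exact (ht3 x).2 (coll_of_fI ((hs3 x).1 hx))
  · intro h
    have hd : Relation.ReflTransGen (fun u v : Formula (Vr (N + 3)) =>
        Step N u v ∧ u.Linear ∧ v.Linear ∧ u.vars ⊆ VV Set.univ ∧ v.vars ⊆ VV Set.univ)
        (kill (VV Set.univ) (emb s)) (kill (VV Set.univ) (emb t)) := by
      unfold Derives at h
      generalize emb s = s' at h
      generalize emb t = t' at h
      induction h with
      | refl => exact Relation.ReflTransGen.refl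
      | tail _ h2 ih =>
        exact ih.tail ⟨step_kill _ h2.1, linear_kill _ h2.2.1, linear_kill _ h2.2.2,
          fun w hw => (vars_kill _ _ w hw).2, fun w hw => (vars_kill _ _ w hw).2⟩
    rw [kill_eq _ (by rw [vars_emb, hsv]), kill_eq _ (by rw [vars_emb, htv])] at hd
    have full : ∀ a : NF (Vr (N + 3)), (∀ x, fI Set.univ x → a.Holds x) → (∀ x, a.Holds x → Coll x) →
        VV Set.univ ⊆ a.vars := by
      intro a h1 h2 w hw
      by_contra hcon
      refine nontriv hw h1 h2 ?_
      intro x y hxy hx
      exact (NF.holds_congr fun v hv => hxy v fun h => hcon (h ▸ hv)).1 hx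
    have hV : (VV (Set.univ : Set (Pg (N + 3)))).Nonempty := by
      obtain ⟨a, ha⟩ := exists_ne1 hn (0 : Pg (N + 3))
      exact ⟨(0, a, ⟨0, by omega⟩), trivial, ha⟩
    have key : ∀ u, Relation.ReflTransGen (fun u v : Formula (Vr (N + 3)) =>
        Step N u v ∧ u.Linear ∧ v.Linear ∧ u.vars ⊆ VV Set.univ ∧ v.vars ⊆ VV Set.univ) u (emb t) →
        (∀ x, u.Holds x ↔ fI Set.univ x) → False := by
      intro u hu
      induction hu using Relation.ReflTransGen.head_induction_on with
      | refl =>
        intro h3
        exact not_equiv hn fun x hx => (h3 x).1 ((holds_emb t x).2 ((ht3 x).2 hx))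
      | @head u v h1 h2 ih =>
        intro h3
        obtain ⟨hstep, hul, hvl, huV, hvV⟩ := h1
        have hvt : ∀ x, v.Holds x → Coll x := by
          intro x hx
          have h4 : ∀ w, Relation.ReflTransGen (fun u v : Formula (Vr (N + 3)) =>
              Step N u v ∧ u.Linear ∧ v.Linear ∧ u.vars ⊆ VV Set.univ ∧ v.vars ⊆ VV Set.univ) v w →
              w.Holds x := by
            intro w hw
            induction hw with
            | refl => exact hx
            | tail _ h5 ih5 => exact h5.1.holds x ih5
          exact (ht3 x).1 ((holds_emb t x).1 (h4 _ h2))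
        have huH : ∀ x, (nf u).Holds x ↔ fI Set.univ x := fun x => (holds_nf u x).trans (h3 x)
        have huv : ∀ x, (nf u).Holds x → (nf v).Holds x := fun x hx =>
          (holds_nf v x).2 (hstep.holds x ((holds_nf u x).1 hx))
        have hvH : ∀ x, (nf v).Holds x → Coll x := fun x hx => hvt x ((holds_nf v x).1 hx)
        have hfu := full (nf u) (fun x => (huH x).2) (fun x hx => hvH x (huv x hx))
        have hfv := full (nf v) (fun x hx => huv x ((huH x).2 hx)) hvH
        have hinr : ∀ a : NF (Vr (N + 3)), VV Set.univ ⊆ a.vars → ∃ f, a = .inr f := by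
          intro a ha
          rcases a with b | f
          · obtain ⟨w, hw⟩ := hV
            exact absurd (ha hw) id
          · exact ⟨f, rfl⟩
        have : Nonempty (Vr (N + 3)) := ⟨hV.some⟩
        rcases step_alt hstep hul hvl with ⟨w, hw, m, e1, e2, e3⟩ | e | ⟨f, g, ef, eg, e⟩ | ⟨e, _⟩
        · refine nontriv (w := w) ?_ (fun x hx => e1 x ((huH x).2 hx)) (fun x hx => hvH x (e2 x hx)) e3
          rcases hw with hw | hw
          · exact huV (vars_nf _ hw)
          · exact hvV (vars_nf _ hw)
        · apply ih
          intro x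
          rw [← holds_nf, ← e]
          exact huH x
        · apply ih
          intro x
          have hfl : f.Lin := by
            have := lin_nf hul
            rw [ef] at this
            exact this
          rw [ef] at hfu huH huv
          rw [eg] at hvH huv
          rw [← holds_nf, eg]
          constructor
          · refine step_lemma hn (le_refl _) e Set.univ hfl (fun w => ⟨fun hw => ?_, fun hw => hfu hw⟩)
              huH (fun x _ _ _ hx => hvH x hx) x
            have := vars_nf u
            rw [ef] at this
            exact huV (this hw)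
          · intro hx
            exact huv x ((huH x).2 hx)
        · obtain ⟨f, hf⟩ := hinr _ hfu
          rw [e] at hf
          exact Sum.inl_ne_inr hf
    exact key _ hd fun x => (holds_emb s x).trans (hs3 x)

end Pool.Agent.Lib.MP_9cec2c_lc.LinearRules
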