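import Mathlib

set_option autoImplicit false

namespace Pool.Agent.Lib.MP_9cec2c_lc.Linear

/-- Boolean formulas built from variables with `and` and `or`. -/
inductive Fm (α : Type) : Type
  | var : α → Fm α
  | and : Fm α → Fm α → Fm α
  | or : Fm α → Fm α → Fm α

namespace Fm

variable {α β : Type}

/-- Truth of a formula under the assignment that makes exactly the variables in `x` true. -/
def Holds : Fm α → Set α → Prop
  | var v, x => v ∈ x
  | and s t, x => s.Holds x ∧ t.Holds x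
  | or s t, x => s.Holds x ∨ t.Holds x

/-- The set of variables of a formula. -/
def vars : Fm α → Set α
  | var v => {v}
  | and s t => s.vars ∪ t.vars
  | or s t => s.vars ∪ t.vars

/-- A formula is linear if no variable occurs twice in it. -/
def Lin : Fm α → Prop
  | var _ => True
  | and s t => s.Lin ∧ t.Lin ∧ Disjoint s.vars t.vars
  | or s t => s.Lin ∧ t.Lin ∧ Disjoint s.vars t.vars

/-- Substitution of formulas for the variables. -/
def subst : Fm α → (α → Fm β) → Fm β
  | var v, σ => σ v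
  | and s t, σ => and (s.subst σ) (t.subst σ)
  | or s t, σ => or (s.subst σ) (t.subst σ)

lemma Holds.mono {s : Fm α} : ∀ {x y : Set α}, s.Holds x → x ⊆ y → s.Holds y := by
  induction s with
  | var v => intro x y h hxy; exact hxy h
  | and s t ihs iht => intro x y h hxy; exact ⟨ihs h.1 hxy, iht h.2 hxy⟩
  | or s t ihs iht =>
    intro x y h hxy
    rcases h with h | h
    · exact Or.inl (ihs h hxy)
    · exact Or.inr (iht h hxy)

lemma Holds.inter {s : Fm α} : ∀ {x : Set α}, s.Holds x → s.Holds (x ∩ s.vars) := by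
  induction s with
  | var v => intro x h; exact ⟨h, rfl⟩
  | and s t ihs iht =>
    intro x h
    exact ⟨(ihs h.1).mono fun v hv => ⟨hv.1, Or.inl hv.2⟩, (iht h.2).mono fun v hv => ⟨hv.1, Or.inr hv.2⟩⟩
  | or s t ihs iht =>
    intro x h
    rcases h with h | h
    · exact Or.inl ((ihs h).mono fun v hv => ⟨hv.1, Or.inl hv.2⟩)
    · exact Or.inr ((iht h).mono fun v hv => ⟨hv.1, Or.inr hv.2⟩)

lemma Holds.sub {s : Fm α} {x y : Set α} (h : s.Holds x) (hxy : ∀ v ∈ s.vars, v ∈ x → v ∈ y) :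
    s.Holds y :=
  h.inter.mono fun v hv => hxy v hv.2 hv.1

lemma holds_congr {s : Fm α} {x y : Set α} (hxy : ∀ v ∈ s.vars, (v ∈ x ↔ v ∈ y)) :
    s.Holds x ↔ s.Holds y :=
  ⟨fun h => h.sub fun v hv => (hxy v hv).1, fun h => h.sub fun v hv => (hxy v hv).2⟩

lemma vars_nonempty (s : Fm α) : s.vars.Nonempty := by
  induction s with
  | var v => exact ⟨v, rfl⟩
  | and s t ihs _ => exact ihs.mono fun v hv => Or.inl hv
  | or s t ihs _ => exact ihs.mono fun v hv => Or.inl hv

lemma not_holds_empty (s : Fm α) : ¬ s.Holds ∅ := by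
  induction s with
  | var v => exact fun h => h
  | and s t ihs _ => exact fun h => ihs h.1
  | or s t ihs iht => exact fun h => h.elim ihs iht

lemma holds_of_subset {s : Fm α} : ∀ {x : Set α}, s.vars ⊆ x → s.Holds x := by
  induction s with
  | var v => intro x h; exact h rfl
  | and s t ihs iht =>
    intro x h
    exact ⟨ihs fun v hv => h (Or.inl hv), iht fun v hv => h (Or.inr hv)⟩
  | or s t ihs _ =>
    intro x h
    exact Or.inl (ihs fun v hv => h (Or.inl hv))

lemma Holds.exists_mem {s : Fm α} {x : Set α} (h : s.Holds x) : ∃ v ∈ s.vars, v ∈ x := by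
  by_contra hcon
  push Not at hcon
  exact s.not_holds_empty (h.sub fun v hv hx => (hcon v hv hx).elim)

lemma holds_subst (s : Fm β) (σ : β → Fm α) (x : Set α) :
    (s.subst σ).Holds x ↔ s.Holds {t | (σ t).Holds x} := by
  induction s with
  | var v => exact Iff.rfl
  | and s t ihs iht => exact and_congr ihs iht
  | or s t ihs iht => exact or_congr ihs iht

lemma mem_vars_subst (s : Fm β) (σ : β → Fm α) (v : α) :
    v ∈ (s.subst σ).vars ↔ ∃ t ∈ s.vars, v ∈ (σ t).vars := by
  induction s with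
  | var u =>
    constructor
    · intro h; exact ⟨u, rfl, h⟩
    · rintro ⟨t, ht, h⟩
      cases ht
      exact h
  | and s t ihs iht =>
    constructor
    · rintro (h | h)
      · obtain ⟨u, hu, h⟩ := ihs.1 h; exact ⟨u, Or.inl hu, h⟩
      · obtain ⟨u, hu, h⟩ := iht.1 h; exact ⟨u, Or.inr hu, h⟩
    · rintro ⟨u, hu | hu, h⟩
      · exact Or.inl (ihs.2 ⟨u, hu, h⟩)
      · exact Or.inr (iht.2 ⟨u, hu, h⟩)
  | or s t ihs iht =>
    constructor
    · rintro (h | h)
      · obtain ⟨u, hu, h⟩ := ihs.1 h; exact ⟨u, Or.inl hu, h⟩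
      · obtain ⟨u, hu, h⟩ := iht.1 h; exact ⟨u, Or.inr hu, h⟩
    · rintro ⟨u, hu | hu, h⟩
      · exact Or.inl (ihs.2 ⟨u, hu, h⟩)
      · exact Or.inr (iht.2 ⟨u, hu, h⟩)

/-- The condition on a substitution which makes a linear formula remain linear. -/
def SubLin (s : Fm β) (σ : β → Fm α) : Prop :=
  (∀ t ∈ s.vars, (σ t).Lin) ∧
    ∀ t ∈ s.vars, ∀ t' ∈ s.vars, t ≠ t' → Disjoint (σ t).vars (σ t').vars

lemma subLin_aux {s t : Fm β} {σ : β → Fm α} (hs : (s.subst σ).Lin → s.Lin ∧ s.SubLin σ)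
    (ht : (t.subst σ).Lin → t.Lin ∧ t.SubLin σ) (h1 : (s.subst σ).Lin) (h2 : (t.subst σ).Lin)
    (h3 : Disjoint (s.subst σ).vars (t.subst σ).vars) :
    (s.Lin ∧ t.Lin ∧ Disjoint s.vars t.vars) ∧
      (∀ u ∈ s.vars ∪ t.vars, (σ u).Lin) ∧
      ∀ u ∈ s.vars ∪ t.vars, ∀ u' ∈ s.vars ∪ t.vars, u ≠ u' → Disjoint (σ u).vars (σ u').vars := by
  have hs' := hs h1
  have ht' := ht h2
  have hd : ∀ u ∈ s.vars, ∀ u' ∈ t.vars, Disjoint (σ u).vars (σ u').vars := by
    intro u hu u' hu'
    rw [Set.disjoint_left] at h3 ⊢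
    intro v hv hv'
    exact h3 ((mem_vars_subst s σ v).2 ⟨u, hu, hv⟩) ((mem_vars_subst t σ v).2 ⟨u', hu', hv'⟩)
  refine ⟨⟨hs'.1, ht'.1, ?_⟩, ?_, ?_⟩
  · rw [Set.disjoint_left]
    intro u hu hu'
    obtain ⟨v, hv⟩ := (σ u).vars_nonempty
    exact Set.disjoint_left.1 (hd u hu u hu') hv hv
  · rintro u (hu | hu)
    · exact hs'.2.1 u hu
    · exact ht'.2.1 u hu
  · rintro u (hu | hu) u' (hu' | hu') hne
    · exact hs'.2.2 u hu u' hu' hne
    · exact hd u hu u' hu'
    · exact (hd u' hu' u hu).symm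
    · exact ht'.2.2 u hu u' hu' hne

lemma Lin.of_subst {s : Fm β} {σ : β → Fm α} : (s.subst σ).Lin → s.Lin ∧ s.SubLin σ := by
  induction s with
  | var v =>
    intro h
    refine ⟨trivial, ?_, ?_⟩
    · rintro t rfl; exact h
    · rintro t rfl t' rfl hne; exact absurd rfl hne
  | and s t ihs iht =>
    intro h
    exact subLin_aux ihs iht h.1 h.2.1 h.2.2
  | or s t ihs iht =>
    intro h
    exact subLin_aux ihs iht h.1 h.2.1 h.2.2

lemma disjoint_subst {s t : Fm β} {σ : β → Fm α} (hst : Disjoint s.vars t.vars)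
    (h : ∀ u ∈ s.vars ∪ t.vars, ∀ u' ∈ s.vars ∪ t.vars, u ≠ u' → Disjoint (σ u).vars (σ u').vars) :
    Disjoint (s.subst σ).vars (t.subst σ).vars := by
  rw [Set.disjoint_left]
  intro v hv hv'
  obtain ⟨u, hu, hv⟩ := (mem_vars_subst s σ v).1 hv
  obtain ⟨u', hu', hv'⟩ := (mem_vars_subst t σ v).1 hv'
  have hne : u ≠ u' := by
    rintro rfl
    exact Set.disjoint_left.1 hst hu hu'
  exact Set.disjoint_left.1 (h u (Or.inl hu) u' (Or.inr hu') hne) hv hv'

lemma Lin.subst {s : Fm β} {σ : β → Fm α} : s.Lin → s.SubLin σ → (s.subst σ).Lin := by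
  induction s with
  | var v =>
    intro _ h
    exact h.1 v rfl
  | and s t ihs iht =>
    intro h h2
    exact ⟨ihs h.1 ⟨fun u hu => h2.1 u (Or.inl hu), fun u hu u' hu' => h2.2 u (Or.inl hu) u' (Or.inl hu')⟩,
      iht h.2.1 ⟨fun u hu => h2.1 u (Or.inr hu), fun u hu u' hu' => h2.2 u (Or.inr hu) u' (Or.inr hu')⟩,
      disjoint_subst h.2.2 h2.2⟩
  | or s t ihs iht =>
    intro h h2
    exact ⟨ihs h.1 ⟨fun u hu => h2.1 u (Or.inl hu), fun u hu u' hu' => h2.2 u (Or.inl hu) u' (Or.inl hu')⟩,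
      iht h.2.1 ⟨fun u hu => h2.1 u (Or.inr hu), fun u hu u' hu' => h2.2 u (Or.inr hu) u' (Or.inr hu')⟩,
      disjoint_subst h.2.2 h2.2⟩

end Fm

open Fm

/-- One rewriting step of a formula without constants, with a sound linear rule on at most `N`
variables whose two sides have the same variables. -/
inductive Step {α : Type} (N : ℕ) : Fm α → Fm α → Prop
  | rule {β : Type} [Fintype β] (hk : Fintype.card β ≤ N) (l r : Fm β) (hl : l.Lin) (hr : r.Lin)
      (hlv : l.vars = Set.univ) (hrv : r.vars = Set.univ)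
      (sound : ∀ x, l.Holds x → r.Holds x) (σ : β → Fm α) : Step N (l.subst σ) (r.subst σ)
  | andLeft {s s' : Fm α} (t : Fm α) (h : Step N s s') : Step N (Fm.and s t) (Fm.and s' t)
  | andRight {s s' : Fm α} (t : Fm α) (h : Step N s s') : Step N (Fm.and t s) (Fm.and t s')
  | orLeft {s s' : Fm α} (t : Fm α) (h : Step N s s') : Step N (Fm.or s t) (Fm.or s' t)
  | orRight {s s' : Fm α} (t : Fm α) (h : Step N s s') : Step N (Fm.or t s) (Fm.or t s')

namespace Step

variable {α : Type} {N : ℕ} {s t : Fm α}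

lemma vars_eq (h : Step N s t) : t.vars = s.vars := by
  induction h with
  | rule hk l r hl hr hlv hrv sound σ =>
    ext v
    rw [mem_vars_subst, mem_vars_subst, hlv, hrv]
  | andLeft t h ih => simp only [Fm.vars, ih]
  | andRight t h ih => simp only [Fm.vars, ih]
  | orLeft t h ih => simp only [Fm.vars, ih]
  | orRight t h ih => simp only [Fm.vars, ih]

lemma lin (h : Step N s t) : s.Lin → t.Lin := by
  induction h with
  | rule hk l r hl hr hlv hrv sound σ =>
    intro h
    have h2 := (Lin.of_subst h).2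
    apply Lin.subst hr
    unfold SubLin at h2 ⊢
    rw [hrv]
    rw [hlv] at h2
    exact h2
  | andLeft t h ih => intro h2; exact ⟨ih h2.1, h2.2.1, by rw [h.vars_eq]; exact h2.2.2⟩
  | andRight t h ih => intro h2; exact ⟨h2.1, ih h2.2.1, by rw [h.vars_eq]; exact h2.2.2⟩
  | orLeft t h ih => intro h2; exact ⟨ih h2.1, h2.2.1, by rw [h.vars_eq]; exact h2.2.2⟩
  | orRight t h ih => intro h2; exact ⟨h2.1, ih h2.2.1, by rw [h.vars_eq]; exact h2.2.2⟩

lemma holds (h : Step N s t) : ∀ x, s.Holds x → t.Holds x := by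
  induction h with
  | rule hk l r hl hr hlv hrv sound σ =>
    intro x hx
    rw [holds_subst] at hx ⊢
    exact sound _ hx
  | andLeft t h ih => intro x hx; exact ⟨ih x hx.1, hx.2⟩
  | andRight t h ih => intro x hx; exact ⟨hx.1, ih x hx.2⟩
  | orLeft t h ih => intro x hx; exact hx.imp (ih x) id
  | orRight t h ih => intro x hx; exact hx.imp id (ih x)

end Step

lemma star_holds {α : Type} {N : ℕ} {s t : Fm α} (h : Relation.ReflTransGen (Step N) s t) :
    ∀ x, s.Holds x → t.Holds x := by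
  induction h with
  | refl => exact fun x hx => hx
  | tail _ h2 ih => exact fun x hx => h2.holds x (ih x hx)

end Pool.Agent.Lib.MP_9cec2c_lc.Linear
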