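import Pool.Agent.Lib.MP_9cec2c_lc.LinPlace

set_option autoImplicit false

namespace Pool.Agent.Lib.MP_9cec2c_lc.Linear

open Fm

variable {n : ℕ}

lemma compl_sub {i : Pg n} {I : Set (Pg n)} (hi : i ∈ I) : Iᶜ ⊆ ({i}ᶜ : Set (Pg n)) := by
  intro x hx h
  have : x = i := h
  exact hx (this ▸ hi)

lemma sub_compl {i : Pg n} {I : Set (Pg n)} (hi : i ∉ I) : I ⊆ ({i}ᶜ : Set (Pg n)) := by
  intro x hx h
  have : x = i := h
  exact hi (this ▸ hx)

/-- The invariant of the main induction. -/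
structure Good (h : Fm (Vr n)) (I : Set (Pg n)) (Z : Set (Vr n)) : Prop where
  lin : h.Lin
  vars_eq : ∀ v, v ∈ h.vars ↔ v ∈ VV I ∧ v ∉ Z
  uncut : ∀ (i : Pg n) (j k : Fin n), ∃ m, m ≠ j ∧ m ≠ k ∧ ∀ a, a ≠ i → (i, a, m) ∉ Z
  A : ∀ (b : Pg n) (φ : Pg n → Fin n), Set.InjOn φ {b}ᶜ →
    (∀ a, a ≠ b → φ a = φ b → a ∈ I → b ∈ I → (b, a, φ b) ∉ Z) → h.Holds (pl φ)
  B : ∀ (x : Set (Vr n)) (ψ : Pg n → Fin n), Set.InjOn ψ Iᶜ →
    (∀ v, v.1 ∉ I → (v ∈ x ↔ ψ v.1 = v.2.2)) → h.Holds x → Coll (x \ Z)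

variable {h1 h2 : Fm (Vr n)} {I : Set (Pg n)} {Z : Set (Vr n)}

lemma Good.and_swap (hg : Good (Fm.and h1 h2) I Z) : Good (Fm.and h2 h1) I Z where
  lin := ⟨hg.lin.2.1, hg.lin.1, hg.lin.2.2.symm⟩
  vars_eq v := by rw [← hg.vars_eq v]; exact Or.comm
  uncut := hg.uncut
  A b φ h1 h2 := (hg.A b φ h1 h2).symm
  B x ψ h1 h2 h3 := hg.B x ψ h1 h2 h3.symm

lemma Good.or_swap (hg : Good (Fm.or h1 h2) I Z) : Good (Fm.or h2 h1) I Z where
  lin := ⟨hg.lin.2.1, hg.lin.1, hg.lin.2.2.symm⟩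
  vars_eq v := by rw [← hg.vars_eq v]; exact Or.comm
  uncut := hg.uncut
  A b φ h1 h2 := (hg.A b φ h1 h2).symm
  B x ψ h1 h2 h3 := hg.B x ψ h1 h2 h3.symm

/-- the mixing lemma -/
lemma Good.mix (hg : Good (Fm.and h1 h2) I Z) {i a b : Pg n} {j k : Fin n}
    (hab : a ≠ b) (hjk : j ≠ k) (hm2 : (i, a, j) ∈ h2.vars) (hm1 : (i, b, k) ∈ h1.vars) : False := by
  have hv2 := (hg.vars_eq (i, a, j)).1 (Or.inr hm2)
  have hv1 := (hg.vars_eq (i, b, k)).1 (Or.inl hm1)
  have hi : i ∈ I := hv2.1.1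
  have hai : a ≠ i := hv2.1.2
  have hbi : b ≠ i := hv1.1.2
  have hd : ∀ v, v ∈ h1.vars → v ∈ h2.vars → False := fun v h3 h4 =>
    Set.disjoint_left.1 hg.lin.2.2 h3 h4
  obtain ⟨ψ, hψ, hψa, hψb⟩ := exists_place2 hai hbi hab hjk
  have hA1 : (Fm.and h1 h2).Holds (pl (Function.update ψ i j)) := by
    apply hg.A i _ (injOn_update hψ j)
    intro a' ha' he _ _
    rw [Function.update_self, Function.update_of_ne ha'] at he
    rw [Function.update_self]
    have : a' = a := hψ ha' hai (by rw [he, hψa])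
    rw [this]
    exact hv2.2
  have hA2 : (Fm.and h1 h2).Holds (pl (Function.update ψ i k)) := by
    apply hg.A i _ (injOn_update hψ k)
    intro a' ha' he _ _
    rw [Function.update_self, Function.update_of_ne ha'] at he
    rw [Function.update_self]
    have : a' = b := hψ ha' hbi (by rw [he, hψb])
    rw [this]
    exact hv1.2
  have key := hg.B ((pl (Function.update ψ i j) ∩ h1.vars) ∪ (pl (Function.update ψ i k) ∩ h2.vars) ∪
      {v | v.1 ∉ I ∧ ψ v.1 = v.2.2}) ψ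
      (hψ.mono (compl_sub hi)) (by
        intro v hv
        constructor
        · rintro ((h3 | h3) | h3)
          · exact absurd ((hg.vars_eq v).1 (Or.inl h3.2)).1.1 hv
          · exact absurd ((hg.vars_eq v).1 (Or.inr h3.2)).1.1 hv
          · exact h3.2
        · intro h3
          exact Or.inr ⟨hv, h3⟩)
      ⟨hA1.1.inter.mono (fun v hv => Or.inl (Or.inl hv)),
        hA2.2.inter.mono (fun v hv => Or.inl (Or.inr hv))⟩
  obtain ⟨p, q, m, hpq, ⟨hp, _⟩, ⟨hq, _⟩⟩ := key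
  have other : ∀ v, v ∈ ((pl (Function.update ψ i j) ∩ h1.vars) ∪ (pl (Function.update ψ i k) ∩ h2.vars) ∪
      {v | v.1 ∉ I ∧ ψ v.1 = v.2.2}) → v.1 ≠ i → ψ v.1 = v.2.2 := by
    rintro v ((h3 | h3) | h3) hvi
    · have := h3.1
      unfold pl at this
      rw [Set.mem_ofPred_eq, Function.update_of_ne hvi] at this
      exact this
    · have := h3.1
      unfold pl at this
      rw [Set.mem_ofPred_eq, Function.update_of_ne hvi] at this
      exact this
    · exact h3.2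
  have own : ∀ v, v ∈ ((pl (Function.update ψ i j) ∩ h1.vars) ∪ (pl (Function.update ψ i k) ∩ h2.vars) ∪
      {v | v.1 ∉ I ∧ ψ v.1 = v.2.2}) → v.1 = i →
      (v ∈ h1.vars ∧ j = v.2.2) ∨ (v ∈ h2.vars ∧ k = v.2.2) := by
    rintro v ((h3 | h3) | h3) hvi
    · left
      have := h3.1
      unfold pl at this
      rw [Set.mem_ofPred_eq, hvi, Function.update_self] at this
      exact ⟨h3.2, this⟩
    · right
      have := h3.1
      unfold pl at this
      rw [Set.mem_ofPred_eq, hvi, Function.update_self] at this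
      exact ⟨h3.2, this⟩
    · exact absurd (by rw [hvi]; exact hi) h3.1
  have fin : ∀ q m, q ≠ i → ψ q = m →
      (((i, q, m) ∈ h1.vars ∧ j = m) ∨ ((i, q, m) ∈ h2.vars ∧ k = m)) → False := by
    rintro q m hqi hqm (⟨h3, h4⟩ | ⟨h3, h4⟩)
    · have : q = a := hψ hqi hai (by rw [hqm, hψa, h4])
      rw [this, ← h4] at h3
      exact hd _ h3 hm2
    · have : q = b := hψ hqi hbi (by rw [hqm, hψb, h4])
      rw [this, ← h4] at h3
      exact hd _ hm1 h3
  by_cases hpi : p = i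
  · have hqi : q ≠ i := fun h => hpq (hpi.trans h.symm)
    rw [hpi] at hp
    exact fin q m hqi (other _ hq hqi) (own _ hp rfl)
  · by_cases hqi : q = i
    · rw [hqi] at hq
      exact fin p m hpi (other _ hp hpi) (own _ hq rfl)
    · exact hpq (hψ hpi hqi ((other _ hp hpi).trans (other _ hq hqi).symm))

/-- a pigeon cannot have variables on both sides of a conjunction -/
lemma Good.side (hn : 3 ≤ n) (hg : Good (Fm.and h1 h2) I Z) {v w : Vr n} (hv : v ∈ h1.vars)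
    (hw : w ∈ h2.vars) (hvw : v.1 = w.1) : False := by
  obtain ⟨i, b, k⟩ := v
  obtain ⟨i', a, j⟩ := w
  obtain rfl : i = i' := hvw
  obtain ⟨m, hmj, hmk, hm⟩ := hg.uncut i j k
  obtain ⟨c, hci, hca, hcb⟩ := exists_ne3 hn i a b
  have hi : i ∈ I := ((hg.vars_eq _).1 (Or.inl hv)).1.1
  rcases (hg.vars_eq (i, c, m)).2 ⟨⟨hi, hci⟩, hm c hci⟩ with h3 | h3
  · exact hg.mix hca.symm hmj.symm hw h3
  · exact hg.mix hcb hmk h3 hv

lemma Good.A_left (hg : Good (Fm.and h1 h2) I Z) {I1 : Set (Pg n)}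
    (hsub : ∀ v ∈ h1.vars, v.1 ∈ I1) (b : Pg n) (φ : Pg n → Fin n) (hφ : Set.InjOn φ {b}ᶜ)
    (hc : ∀ a, a ≠ b → φ a = φ b → a ∈ I1 → b ∈ I1 → (b, a, φ b) ∉ Z) : h1.Holds (pl φ) := by
  have reroute : ∀ c (φ : Pg n → Fin n), c ∉ I1 → Set.InjOn φ {c}ᶜ → h1.Holds (pl φ) := by
    intro c φ hcI hφ
    obtain ⟨m, _, _, hm⟩ := hg.uncut c (φ c) (φ c)
    have h3 := (hg.A c _ (injOn_update hφ m) (by
      intro a ha _ _ _
      rw [Function.update_self]
      exact hm a ha)).1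
    refine (holds_congr ?_).1 h3
    intro v hv
    have hvc : v.1 ≠ c := fun h => hcI (h ▸ hsub v hv)
    unfold pl
    rw [Set.mem_ofPred_eq, Set.mem_ofPred_eq, Function.update_of_ne hvc]
  by_cases hb : b ∈ I1
  · obtain ⟨a, hab, ha⟩ := exists_partner hφ (φ b)
    by_cases haI : a ∈ I1
    · refine (hg.A b φ hφ ?_).1
      intro a' ha' he _ _
      have : a' = a := hφ ha' hab (by rw [he, ha])
      rw [this]
      exact hc a hab ha haI hb
    · exact reroute a φ haI (injOn_swap hφ hab ha)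
  · exact reroute b φ hb hφ

/-- splitting a conjunction -/
lemma Good.and_split (hn : 3 ≤ n) (hg : Good (Fm.and h1 h2) I Z) :
    ∃ I1 I2 : Set (Pg n), (∀ i, i ∈ I ↔ i ∈ I1 ∨ i ∈ I2) ∧ (∀ i, i ∈ I1 → i ∈ I2 → False) ∧
      I1.Nonempty ∧ I2.Nonempty ∧ Good h1 I1 Z ∧ Good h2 I2 Z := by
  have half : ∀ {h1 h2 : Fm (Vr n)}, Good (Fm.and h1 h2) I Z →
      (Prod.fst '' h1.vars).Nonempty ∧ Good h1 (Prod.fst '' h1.vars) Z := by
    intro h1 h2 hg
    have hA2 := hg.and_swap.A_left (I1 := Prod.fst '' h2.vars) (fun v hv => ⟨v, hv, rfl⟩)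
    refine ⟨h1.vars_nonempty.image _, ?_⟩
    refine ⟨hg.lin.1, ?_, hg.uncut, hg.A_left (fun v hv => ⟨v, hv, rfl⟩), ?_⟩
    · intro v
      constructor
      · intro hv
        have := (hg.vars_eq v).1 (Or.inl hv)
        exact ⟨⟨⟨v, hv, rfl⟩, this.1.2⟩, this.2⟩
      · rintro ⟨⟨⟨w, hw, hwv⟩, hv2⟩, hv3⟩
        have hvI : v.1 ∈ I := by
          rw [← hwv]
          exact ((hg.vars_eq w).1 (Or.inl hw)).1.1
        rcases (hg.vars_eq v).2 ⟨⟨hvI, hv2⟩, hv3⟩ with h3 | h3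
        · exact h3
        · exact (hg.side hn hw h3 hwv).elim
    · intro x ψ hψ hag hx
      obtain ⟨v, hv⟩ := h1.vars_nonempty
      have hb1 : v.1 ∈ Prod.fst '' h1.vars := ⟨v, hv, rfl⟩
      have hb2 : v.1 ∉ Prod.fst '' h2.vars := by
        rintro ⟨w, hw, hwv⟩
        exact hg.side hn hv hw hwv.symm
      obtain ⟨ψ', hψ', hag'⟩ := exists_place v.1 (Prod.fst '' h1.vars)ᶜ (fun h => h hb1) ψ hψ
      have h3 := hA2 v.1 ψ' hψ' (fun a _ _ _ h => absurd h hb2)
      have h4 : h2.Holds x := by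
        refine (holds_congr ?_).1 h3
        intro w hw
        have hw1 : w.1 ∉ Prod.fst '' h1.vars := by
          rintro ⟨u, hu, huw⟩
          exact hg.side hn hu hw huw
        rw [hag w hw1, ← hag' w.1 hw1]
        exact Iff.rfl
      have hII : ∀ i, i ∈ Prod.fst '' h1.vars → i ∈ I := by
        rintro i ⟨u, hu, rfl⟩
        exact ((hg.vars_eq u).1 (Or.inl hu)).1.1
      exact hg.B x ψ (hψ.mono fun i hi h => hi (hII i h)) (fun v hv => hag v fun h => hv (hII _ h))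
        ⟨hx, h4⟩
  have g1 := half hg
  have g2 := half hg.and_swap
  refine ⟨_, _, ?_, ?_, g1.1, g2.1, g1.2, g2.2⟩
  · intro i
    constructor
    · intro hi
      obtain ⟨a, ha⟩ := exists_ne1 hn i
      obtain ⟨m, _, _, hm⟩ := hg.uncut i ⟨0, by omega⟩ ⟨0, by omega⟩
      rcases (hg.vars_eq (i, a, m)).2 ⟨⟨hi, ha⟩, hm a ha⟩ with h3 | h3
      · exact Or.inl ⟨_, h3, rfl⟩
      · exact Or.inr ⟨_, h3, rfl⟩
    · rintro (⟨u, hu, rfl⟩ | ⟨u, hu, rfl⟩)
      · exact ((hg.vars_eq u).1 (Or.inl hu)).1.1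
      · exact ((hg.vars_eq u).1 (Or.inr hu)).1.1
  · rintro i ⟨u, hu, hu2⟩ ⟨w, hw, hw2⟩
    exact hg.side hn hu hw (hu2.trans hw2.symm)

/-- property B for the left side of a disjunction -/
lemma Good.or_B (hg : Good (Fm.or h1 h2) I Z) (x : Set (Vr n)) (ψ : Pg n → Fin n)
    (hψ : Set.InjOn ψ Iᶜ) (hag : ∀ v, v.1 ∉ I → (v ∈ x ↔ ψ v.1 = v.2.2)) (hx : h1.Holds x) :
    Coll (x \ (Z ∪ h2.vars)) := by
  have h3 : h1.Holds (x \ h2.vars) := hx.sub fun v hv hvx =>
    ⟨hvx, fun h => Set.disjoint_left.1 hg.lin.2.2 hv h⟩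
  refine (hg.B (x \ h2.vars) ψ hψ ?_ (Or.inl h3)).mono ?_
  · intro v hv
    rw [← hag v hv]
    constructor
    · exact fun h => h.1
    · exact fun h => ⟨h, fun h4 => hv ((hg.vars_eq v).1 (Or.inr h4)).1.1⟩
  · rintro v ⟨⟨h4, h5⟩, h6⟩
    exact ⟨h4, fun h => h.elim h6 h5⟩

/-- the colour of a collision -/
lemma Good.color (hg : Good (Fm.or h1 h2) I Z) {a b : Pg n} {φ : Pg n → Fin n}
    (hφ : Set.InjOn φ {b}ᶜ) (hab : a ≠ b) (hc : φ a = φ b) (hI : a ∈ I ∨ b ∈ I)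
    (hx : h1.Holds (pl φ)) :
    (b ∈ I → (b, a, φ b) ∈ h1.vars) ∧ (a ∈ I → (a, b, φ b) ∈ h1.vars) := by
  have hinj : Set.InjOn φ Iᶜ := by
    rcases hI with h | h
    · exact (injOn_swap hφ hab hc).mono (compl_sub h)
    · exact hφ.mono (compl_sub h)
  obtain ⟨p, q, m, hpq, hp, hq⟩ := hg.or_B (pl φ) φ hinj (fun v _ => Iff.rfl) hx
  have hpm : φ p = m := hp.1
  have hqm : φ q = m := hq.1
  have hm : ∀ v, v ∈ VV I → v ∉ Z ∪ h2.vars → v ∈ h1.vars := by
    intro v hv hv2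
    rcases (hg.vars_eq v).2 ⟨hv, fun h => hv2 (Or.inl h)⟩ with h | h
    · exact h
    · exact absurd (Or.inr h) hv2
  rcases collision_unique hφ hab hc hpq (hpm.trans hqm.symm) with ⟨rfl, rfl⟩ | ⟨rfl, rfl⟩
  · rw [hqm]
    exact ⟨fun h => hm _ ⟨h, hab⟩ hq.2, fun h => hm _ ⟨h, hab.symm⟩ hp.2⟩
  · rw [hpm]
    exact ⟨fun h => hm _ ⟨h, hab⟩ hp.2, fun h => hm _ ⟨h, hab.symm⟩ hq.2⟩

/-- an external variable -/
lemma Good.ext (hg : Good (Fm.or h1 h2) I Z) {i e : Pg n} (hi : i ∈ I) (he : e ∉ I)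
    {φ : Pg n → Fin n} (hφ : Set.InjOn φ I) (hx : h1.Holds (pl φ)) : (i, e, φ i) ∈ h1.vars := by
  have hie : i ≠ e := fun h => he (h ▸ hi)
  obtain ⟨φ', h1', h2'⟩ := exists_place e I he φ hφ
  have h3 : h1.Holds (pl (Function.update φ' e (φ i))) := by
    refine (holds_congr ?_).1 hx
    intro v hv
    have hvI : v.1 ∈ I := ((hg.vars_eq v).1 (Or.inl hv)).1.1
    have hve : v.1 ≠ e := fun h => he (h ▸ hvI)
    unfold pl
    rw [Set.mem_ofPred_eq, Set.mem_ofPred_eq, Function.update_of_ne hve, h2' _ hvI]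
  have h4 := (hg.color (a := i) (b := e) (injOn_update h1' (φ i)) hie
    (by rw [Function.update_self, Function.update_of_ne hie, h2' i hi]) (Or.inl hi) h3).2 hi
  rw [Function.update_self] at h4
  exact h4

lemma Good.ext_or (hg : Good (Fm.or h1 h2) I Z) {e : Pg n} (he : e ∉ I)
    {φ : Pg n → Fin n} (hφ : Set.InjOn φ I) : h1.Holds (pl φ) ∨ h2.Holds (pl φ) := by
  obtain ⟨φ', h1', h2'⟩ := exists_place e I he φ hφ
  have h3 := hg.A e φ' h1' (fun a _ _ _ h => absurd h he)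
  have h4 : (Fm.or h1 h2).Holds (pl φ) := by
    refine (holds_congr ?_).1 h3
    intro v hv
    have hvI : v.1 ∈ I := ((hg.vars_eq v).1 hv).1.1
    unfold pl
    rw [Set.mem_ofPred_eq, Set.mem_ofPred_eq, h2' _ hvI]
  exact h4

/-- external variables are all on one side -/
lemma Good.not_both (hn : 3 ≤ n) (hg : Good (Fm.or h1 h2) I Z) {i i' e : Pg n} (hi : i ∈ I)
    (hi' : i' ∈ I) (hii : i ≠ i') (he : e ∉ I) {φ1 φ2 : Pg n → Fin n} (hφ1 : Set.InjOn φ1 I)
    (hφ2 : Set.InjOn φ2 I) (hx1 : h1.Holds (pl φ1)) (hx2 : h2.Holds (pl φ2)) : False := by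
  have hd : ∀ v, v ∈ h1.vars → v ∈ h2.vars → False := fun v h3 h4 =>
    Set.disjoint_left.1 hg.lin.2.2 h3 h4
  have same : ∀ p p' j j', p ∈ I → p' ∈ I → p ≠ p' → j ≠ j' → (p, e, j) ∈ h1.vars →
      (p', e, j') ∈ h1.vars := by
    intro p p' j j' hp hp' hpp hjj hm
    have hpe : p ≠ e := fun h => he (h ▸ hp)
    have hpe' : p' ≠ e := fun h => he (h ▸ hp')
    obtain ⟨φ, hφ, hφp, hφp'⟩ := exists_place2 hpe hpe' hpp hjj
    have hφI : Set.InjOn φ I := hφ.mono (sub_compl he)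
    rcases hg.ext_or he hφI with h3 | h3
    · have := hg.ext hp' he hφI h3
      rw [hφp'] at this
      exact this
    · have := hg.or_swap.ext hp he hφI h3
      rw [hφp] at this
      exact (hd _ hm this).elim
  have e1 := hg.ext hi he hφ1 hx1
  have e2 := hg.or_swap.ext hi he hφ2 hx2
  obtain ⟨m, hm1, hm2⟩ := exists_hole hn (φ1 i) (φ2 i)
  exact hd _ (same i' i m (φ2 i) hi' hi hii.symm hm2 (same i i' (φ1 i) m hi hi' hii hm1.symm e1)) e2

/-- the left side of a disjunction inherits the invariant -/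
lemma Good.or_left (hg : Good (Fm.or h1 h2) I Z)
    (huncut : ∀ (i : Pg n) (j k : Fin n), ∃ m, m ≠ j ∧ m ≠ k ∧ ∀ a, a ≠ i → (i, a, m) ∉ Z ∪ h2.vars)
    (hS : ∀ φ : Pg n → Fin n, Set.InjOn φ I → h1.Holds (pl φ)) : Good h1 I (Z ∪ h2.vars) where
  lin := hg.lin.1
  vars_eq v := by
    constructor
    · intro hv
      have := (hg.vars_eq v).1 (Or.inl hv)
      exact ⟨this.1, fun h => h.elim this.2 fun h => Set.disjoint_left.1 hg.lin.2.2 hv h⟩
    · rintro ⟨h3, h4⟩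
      rcases (hg.vars_eq v).2 ⟨h3, fun h => h4 (Or.inl h)⟩ with h | h
      · exact h
      · exact absurd (Or.inr h) h4
  uncut := huncut
  A b φ hφ hc := by
    obtain ⟨a, hab, ha⟩ := exists_partner hφ (φ b)
    by_cases hb : b ∈ I
    · by_cases haI : a ∈ I
      · have h3 := hc a hab ha haI hb
        have h4 := hg.A b φ hφ (by
          intro a' ha' he _ _
          have : a' = a := hφ ha' hab (by rw [he, ha])
          rw [this]
          exact fun h => h3 (Or.inl h))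
        rcases h4 with h4 | h4
        · exact h4
        · have := (hg.or_swap.color hφ hab ha (Or.inr hb) h4).1 hb
          exact absurd (Or.inr this) h3
      · apply hS
        exact (injOn_swap hφ hab ha).mono (sub_compl haI)
    · apply hS
      exact hφ.mono (sub_compl hb)
  B := hg.or_B

/-- if every pigeon lies in `I` and one pigeon has all its variables on the left, then every
column has a variable on the left -/
lemma Good.col_univ (hg : Good (Fm.or h1 h2) Set.univ Z) {p : Pg n} (hp : VV {p} ⊆ h1.vars)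
    (a : Pg n) (hap : a ≠ p) (j : Fin n) : (a, p, j) ∈ h1.vars := by
  obtain ⟨φ, hφ, hφa⟩ := exists_place1 hap j
  have hd : ∀ v, v ∈ h1.vars → v ∈ h2.vars → False := fun v h3 h4 =>
    Set.disjoint_left.1 hg.lin.2.2 h3 h4
  have hφ' := injOn_update hφ j
  have hpa : (p, a, j) ∈ h1.vars := hp ⟨rfl, hap⟩
  have hc : (Function.update φ p j) a = (Function.update φ p j) p := by
    rw [Function.update_self, Function.update_of_ne hap, hφa]
  have h3 := hg.A p _ hφ' (by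
    intro a' ha' he _ _
    have : a' = a := hφ' ha' hap (by rw [he, hc])
    rw [this, Function.update_self]
    exact ((hg.vars_eq _).1 (Or.inl hpa)).2)
  rcases h3 with h3 | h3
  · have := (hg.color hφ' hap hc (Or.inl trivial) h3).2 trivial
    rw [Function.update_self] at this
    exact this
  · have := (hg.or_swap.color hφ' hap hc (Or.inl trivial) h3).1 trivial
    rw [Function.update_self] at this
    exact (hd _ hpa this).elim

end Pool.Agent.Lib.MP_9cec2c_lc.Linear
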