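import Pool.Agent.Lib.MP_9cec2c_lc.LinFm

set_option autoImplicit false

namespace Pool.Agent.Lib.MP_9cec2c_lc.Linear

open Fm

/-- pigeons -/
abbrev Pg (n : ℕ) := Fin (n + 1)

/-- variables: pigeon, partner, hole -/
abbrev Vr (n : ℕ) := Fin (n + 1) × Fin (n + 1) × Fin n

variable {n : ℕ}

lemma exists_place (b : Pg n) (S : Set (Pg n)) (hb : b ∉ S) (f : Pg n → Fin n)
    (hf : Set.InjOn f S) :
    ∃ φ : Pg n → Fin n, Set.InjOn φ {b}ᶜ ∧ ∀ p ∈ S, φ p = f p := by
  classical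
  have hcard : Fintype.card {p : Pg n // p ≠ b} = (Finset.univ : Finset (Fin n)).card := by
    rw [Fintype.card_subtype_compl]
    simp
  obtain ⟨g, hg⟩ := Set.MapsTo.exists_equiv_extend_of_card_eq (s := {p : {p : Pg n // p ≠ b} | p.1 ∈ S})
    (f := fun p => f p.1) hcard (fun _ _ => by simp)
    (fun p hp q hq h => Subtype.ext (hf hp hq h))
  refine ⟨fun p => if h : p ≠ b then (g ⟨p, h⟩ : Fin n) else f b, ?_, ?_⟩
  · intro p hp q hq h
    have hp' : p ≠ b := hp
    have hq' : q ≠ b := hq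
    simp only [hp', hq', ne_eq, not_false_eq_true, dite_true] at h
    have := g.injective (Subtype.ext h)
    simpa using this
  · intro p hp
    have hp' : p ≠ b := fun h => hb (h ▸ hp)
    simp only [hp', ne_eq, not_false_eq_true, dite_true]
    exact hg ⟨p, hp'⟩ hp

lemma exists_place1 {b a : Pg n} (hab : a ≠ b) (j : Fin n) :
    ∃ φ : Pg n → Fin n, Set.InjOn φ {b}ᶜ ∧ φ a = j := by
  obtain ⟨φ, h1, h2⟩ := exists_place b {a} (by simpa using hab.symm) (fun _ => j)
    (by intro x hx y hy _; rw [hx, hy])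
  exact ⟨φ, h1, h2 a rfl⟩

lemma exists_place2 {b a c : Pg n} (hab : a ≠ b) (hcb : c ≠ b) (hac : a ≠ c) {j k : Fin n}
    (hjk : j ≠ k) :
    ∃ φ : Pg n → Fin n, Set.InjOn φ {b}ᶜ ∧ φ a = j ∧ φ c = k := by
  classical
  obtain ⟨φ, h1, h2⟩ := exists_place b {a, c} (by simp [hab.symm, hcb.symm])
    (fun p => if p = a then j else k) (by
      intro x hx y hy h
      rcases hx with rfl | rfl <;> rcases hy with rfl | rfl
      · rfl
      · simp only [if_true, hac.symm, if_false] at h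
        exact absurd h hjk
      · simp only [if_true, hac.symm, if_false] at h
        exact absurd h.symm hjk
      · rfl)
  refine ⟨φ, h1, ?_, ?_⟩
  · rw [h2 a (by simp)]; simp
  · rw [h2 c (by simp)]; simp [hac.symm]

lemma injOn_update {b : Pg n} {φ : Pg n → Fin n} (h : Set.InjOn φ {b}ᶜ) (j : Fin n) :
    Set.InjOn (Function.update φ b j) {b}ᶜ := by
  intro x hx y hy hxy
  have hx' : x ≠ b := hx
  have hy' : y ≠ b := hy
  rw [Function.update_of_ne hx', Function.update_of_ne hy'] at hxy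
  exact h hx hy hxy

/-- every hole is used by a placement which is injective off one pigeon -/
lemma exists_partner {b : Pg n} {φ : Pg n → Fin n} (h : Set.InjOn φ {b}ᶜ) (j : Fin n) :
    ∃ a, a ≠ b ∧ φ a = j := by
  classical
  have hcard : Fintype.card {p : Pg n // p ≠ b} = Fintype.card (Fin n) := by
    rw [Fintype.card_subtype_compl]
    simp
  have hinj : Function.Injective (fun p : {p : Pg n // p ≠ b} => φ p.1) :=
    fun p q hpq => Subtype.ext (h p.2 q.2 hpq)
  have hbij := (Fintype.bijective_iff_injective_and_card _).2 ⟨hinj, hcard⟩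
  obtain ⟨a, ha⟩ := hbij.2 j
  exact ⟨a.1, a.2, ha⟩

lemma injOn_swap {a b : Pg n} {φ : Pg n → Fin n} (h : Set.InjOn φ {b}ᶜ) (hab : a ≠ b)
    (hφ : φ a = φ b) : Set.InjOn φ {a}ᶜ := by
  intro x hx y hy hxy
  have hx' : x ≠ a := hx
  have hy' : y ≠ a := hy
  by_cases hxb : x = b
  · by_cases hyb : y = b
    · rw [hxb, hyb]
    · exfalso
      apply hy'
      apply h hyb hab
      rw [hφ, ← hxb, hxy]
  · by_cases hyb : y = b
    · exfalso
      apply hx'
      apply h hxb hab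
      rw [hφ, ← hyb, hxy]
    · exact h hxb hyb hxy

lemma collision_unique {a b p q : Pg n} {φ : Pg n → Fin n} (h : Set.InjOn φ {b}ᶜ) (hab : a ≠ b)
    (hφ : φ a = φ b) (hpq : p ≠ q) (hφ2 : φ p = φ q) :
    (p = a ∧ q = b) ∨ (p = b ∧ q = a) := by
  by_cases hp : p = b
  · right
    refine ⟨hp, ?_⟩
    have hq : q ≠ b := fun hq => hpq (hp.trans hq.symm)
    apply h hq hab
    rw [← hφ2, hp, hφ]
  · by_cases hq : q = b
    · left
      refine ⟨?_, hq⟩
      apply h hp hab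
      rw [hφ2, hq, hφ]
    · exact absurd (h hp hq hφ2) hpq

/-- the variables saying that pigeon `i` sits in hole `j` -/
def col (i : Pg n) (j : Fin n) : Set (Vr n) := {v | v.1 = i ∧ v.2.1 ≠ i ∧ v.2.2 = j}

/-- the variables of the pigeons in `I` -/
def VV (I : Set (Pg n)) : Set (Vr n) := {v | v.1 ∈ I ∧ v.2.1 ≠ v.1}

/-- the assignment of a placement -/
def pl (φ : Pg n → Fin n) : Set (Vr n) := {v | φ v.1 = v.2.2}

/-- two pigeons collide -/
def Coll (x : Set (Vr n)) : Prop := ∃ (i a : Pg n) (j : Fin n), i ≠ a ∧ (i, a, j) ∈ x ∧ (a, i, j) ∈ x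

/-- every pigeon in `I` has a hole -/
def fI (I : Set (Pg n)) (x : Set (Vr n)) : Prop := ∀ i ∈ I, ∃ j, col i j ⊆ x

lemma mem_col {i a : Pg n} {j : Fin n} (h : a ≠ i) : (i, a, j) ∈ col i j := ⟨rfl, h, rfl⟩

lemma mem_col_self {I : Set (Pg n)} {v : Vr n} (h : v ∈ VV I) : v ∈ col v.1 v.2.2 := ⟨rfl, h.2, rfl⟩

lemma fI_pl (I : Set (Pg n)) (φ : Pg n → Fin n) : fI I (pl φ) := by
  intro i _
  refine ⟨φ i, ?_⟩
  rintro v ⟨h1, h2, h3⟩
  show φ v.1 = v.2.2
  rw [h1, h3]

lemma Coll.mono {x y : Set (Vr n)} (h : Coll x) (hxy : x ⊆ y) : Coll y := by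
  obtain ⟨i, a, j, h1, h2, h3⟩ := h
  exact ⟨i, a, j, h1, hxy h2, hxy h3⟩

lemma fI_mono {I : Set (Pg n)} {x y : Set (Vr n)} (h : fI I x) (hxy : x ⊆ y) : fI I y := by
  intro i hi
  obtain ⟨j, hj⟩ := h i hi
  exact ⟨j, hj.trans hxy⟩

lemma exists_ne1 (hn : 3 ≤ n) (i : Pg n) : ∃ a : Pg n, a ≠ i := by
  have : Nontrivial (Fin (n + 1)) := Fin.nontrivial_iff_two_le.2 (by omega)
  exact exists_ne i

lemma exists_ne3 (hn : 3 ≤ n) (i a b : Pg n) : ∃ c : Pg n, c ≠ i ∧ c ≠ a ∧ c ≠ b := by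
  classical
  have hcard : ({i, a, b} : Finset (Pg n)).card < (Finset.univ : Finset (Pg n)).card := by
    have := Finset.card_le_three (a := i) (b := a) (c := b)
    simp only [Finset.card_univ, Fintype.card_fin]
    omega
  obtain ⟨c, _, hc⟩ := Finset.exists_mem_notMem_of_card_lt_card hcard
  simp only [Finset.mem_insert, Finset.mem_singleton, not_or] at hc
  exact ⟨c, hc⟩

lemma exists_hole (hn : 3 ≤ n) (j k : Fin n) : ∃ m : Fin n, m ≠ j ∧ m ≠ k := by
  classical
  have hcard : ({j, k} : Finset (Fin n)).card < (Finset.univ : Finset (Fin n)).card := by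
    have := Finset.card_le_two (a := j) (b := k)
    simp only [Finset.card_univ, Fintype.card_fin]
    omega
  obtain ⟨c, _, hc⟩ := Finset.exists_mem_notMem_of_card_lt_card hcard
  simp only [Finset.mem_insert, Finset.mem_singleton, not_or] at hc
  exact ⟨c, hc⟩

/-- pigeonhole principle: `fI univ` implies a collision -/
lemma coll_of_fI {x : Set (Vr n)} (h : fI Set.univ x) : Coll x := by
  choose f hf using fun i => h i trivial
  have hlt : Fintype.card (Fin n) < Fintype.card (Pg n) := by simp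
  obtain ⟨i, a, hne, heq⟩ := Fintype.exists_ne_map_eq_of_card_lt f hlt
  refine ⟨i, a, f i, hne, hf i (mem_col hne.symm), ?_⟩
  rw [heq]
  exact hf a (mem_col hne)

/-- the single pigeon lemma -/
lemma single (hn : 3 ≤ n) (i : Pg n) (h : Fm (Vr n)) : ∀ J : Set (Fin n), h.Lin → J.Nonempty →
    (∀ v, v ∈ h.vars ↔ v ∈ VV {i} ∧ v.2.2 ∈ J) → (∀ j ∈ J, h.Holds (col i j)) →
    (∀ x, h.Holds x → ∀ τ : Pg n → Fin n, Set.InjOn τ {i}ᶜ → ∃ a, a ≠ i ∧ (i, a, τ a) ∈ x) →
    ∀ x, h.Holds x → ∃ j ∈ J, col i j ⊆ x := by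
  -- the case of one column
  have one : ∀ (h : Fm (Vr n)) (j : Fin n) (J : Set (Fin n)),
      (∀ v, v ∈ h.vars ↔ v ∈ VV {i} ∧ v.2.2 ∈ J) →
      (∀ x, h.Holds x → ∀ τ : Pg n → Fin n, Set.InjOn τ {i}ᶜ → ∃ a, a ≠ i ∧ (i, a, τ a) ∈ x) →
      ∀ x, h.Holds x → (∀ v ∈ h.vars, v ∈ x → v.2.2 = j) → col i j ⊆ x := by
    intro h j J hv hB x hx hxj v hvc
    obtain ⟨τ, hτ, hτa⟩ := exists_place1 (b := i) (a := v.2.1) hvc.2.1 j
    obtain ⟨b, hb, hbx⟩ := hB (x ∩ h.vars) hx.inter τ hτ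
    have h1 := hxj _ hbx.2 hbx.1
    simp only at h1
    have hba : b = v.2.1 := hτ hb hvc.2.1 (by rw [h1, hτa])
    have : (i, b, τ b) = v := by
      rw [h1, hba]
      obtain ⟨h1, h2, h3⟩ := hvc
      rw [← h1, ← h3]
    rw [← this]
    exact hbx.1
  induction h with
  | var u =>
    intro J _ hJ hv hA hB x hx
    obtain ⟨j, hj⟩ := hJ
    exfalso
    obtain ⟨a, ha⟩ := exists_ne1 hn i
    obtain ⟨c, hc, hca, _⟩ := exists_ne3 hn i a a
    have h1 := (hv (i, a, j)).2 ⟨⟨rfl, ha⟩, hj⟩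
    have h2 := (hv (i, c, j)).2 ⟨⟨rfl, hc⟩, hj⟩
    have : (i, a, j) = (i, c, j) := h1.trans h2.symm
    simp only [Prod.mk.injEq, true_and, and_true] at this
    exact hca this.symm
  | or h1 h2 ih1 ih2 =>
    intro J hlin hJ hv hA hB x hx
    -- each column is on one side
    have side : ∀ (g : Fm (Vr n)), g.vars ⊆ (Fm.or h1 h2).vars →
        (∀ x, g.Holds x → (Fm.or h1 h2).Holds x) → ∀ j, g.Holds (col i j) → col i j ⊆ g.vars := by
      intro g hgv hg j hgj
      have := one (Fm.or h1 h2) j J hv hB (col i j ∩ g.vars) (hg _ hgj.inter)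
        (fun v _ hv => hv.1.2.2)
      exact fun v hv => (this hv).2
    have key : ∀ (g g' : Fm (Vr n)), g.Lin → Disjoint g.vars g'.vars →
        (∀ v, v ∈ (Fm.or h1 h2).vars ↔ v ∈ g.vars ∨ v ∈ g'.vars) →
        (∀ x, (Fm.or h1 h2).Holds x ↔ g.Holds x ∨ g'.Holds x) →
        (∀ J : Set (Fin n), g.Lin → J.Nonempty →
          (∀ v, v ∈ g.vars ↔ v ∈ VV {i} ∧ v.2.2 ∈ J) → (∀ j ∈ J, g.Holds (col i j)) →
          (∀ x, g.Holds x → ∀ τ : Pg n → Fin n, Set.InjOn τ {i}ᶜ → ∃ a, a ≠ i ∧ (i, a, τ a) ∈ x) →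
          ∀ x, g.Holds x → ∃ j ∈ J, col i j ⊆ x) →
        ∀ x, g.Holds x → ∃ j ∈ J, col i j ⊆ x := by
      intro g g' hgl hdis hvars hholds ih x hx
      have hgv : g.vars ⊆ (Fm.or h1 h2).vars := fun v hv => (hvars v).2 (Or.inl hv)
      have hgv' : g'.vars ⊆ (Fm.or h1 h2).vars := fun v hv => (hvars v).2 (Or.inr hv)
      have hmem : ∀ v, v ∈ g.vars ↔ v ∈ VV {i} ∧ v.2.2 ∈ {j | j ∈ J ∧ g.Holds (col i j)} := by
        intro v
        constructor
        · intro hvg
          have h3 := (hv v).1 (hgv hvg)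
          refine ⟨h3.1, h3.2, ?_⟩
          have h4 := hA _ h3.2
          rcases (hholds _).1 h4 with h5 | h5
          · exact h5
          · exfalso
            have := side g' hgv' (fun x hx => (hholds x).2 (Or.inr hx)) _ h5
            have hvc : v ∈ col i v.2.2 := by
              obtain ⟨⟨h6, h7⟩, _⟩ := h3
              rw [Set.mem_singleton_iff] at h6
              exact ⟨h6, by rw [← h6]; exact h7, rfl⟩
            exact Set.disjoint_left.1 hdis hvg (this hvc)
        · rintro ⟨h3, h4, h5⟩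
          have := side g hgv (fun x hx => (hholds x).2 (Or.inl hx)) _ h5
          apply this
          obtain ⟨h6, h7⟩ := h3
          rw [Set.mem_singleton_iff] at h6
          exact ⟨h6, by rw [← h6]; exact h7, rfl⟩
      obtain ⟨v, hvg⟩ := g.vars_nonempty
      obtain ⟨j, hj, hj2⟩ := ih {j | j ∈ J ∧ g.Holds (col i j)} hgl ⟨v.2.2, ((hmem v).1 hvg).2⟩ hmem
        (fun j hj => hj.2) (fun x hx => hB x ((hholds x).2 (Or.inl hx))) x hx
      exact ⟨j, hj.1, hj2⟩
    rcases hx with hx | hx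
    · exact key h1 h2 hlin.1 hlin.2.2 (fun v => Iff.rfl) (fun x => Iff.rfl) ih1 x hx
    · exact key h2 h1 hlin.2.1 hlin.2.2.symm (fun v => Or.comm) (fun x => Or.comm) ih2 x hx
  | and h1 h2 ih1 ih2 =>
    intro J hlin hJ hv hA hB x hx
    obtain ⟨j, hj⟩ := hJ
    by_cases hJ1 : ∀ k ∈ J, k = j
    · exact ⟨j, hj, one _ j J hv hB x hx (fun v hv' _ => hJ1 _ ((hv v).1 hv').2)⟩
    · exfalso
      push Not at hJ1
      obtain ⟨k, hk, hkj⟩ := hJ1
      -- crossing
      have cross : ∀ j k, j ∈ J → k ∈ J → j ≠ k → ∀ a b, a ≠ i → b ≠ i → a ≠ b →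
          (i, a, j) ∈ h1.vars ∨ (i, b, k) ∈ h2.vars := by
        intro j k hj hk hjk a b ha hb hab
        obtain ⟨τ, hτ, hτa, hτb⟩ := exists_place2 ha hb hab hjk
        obtain ⟨c, hc, hcx⟩ := hB ((col i j ∩ h1.vars) ∪ (col i k ∩ h2.vars))
          ⟨(hA j hj).1.inter.mono (fun v hv => Or.inl hv),
            (hA k hk).2.inter.mono (fun v hv => Or.inr hv)⟩ τ hτ
        rcases hcx with h3 | h3
        · left
          have h4 : τ c = j := h3.1.2.2
          have hca : c = a := hτ hc ha (by rw [h4, hτa])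
          have h5 := h3.2
          rw [h4, hca] at h5
          exact h5
        · right
          have h4 : τ c = k := h3.1.2.2
          have hca : c = b := hτ hc hb (by rw [h4, hτb])
          have h5 := h3.2
          rw [h4, hca] at h5
          exact h5
      have hd : ∀ v, v ∈ h1.vars → v ∈ h2.vars → False := fun v h3 h4 =>
        Set.disjoint_left.1 hlin.2.2 h3 h4
      have hor : ∀ a j, j ∈ J → a ≠ i → (i, a, j) ∈ h1.vars ∨ (i, a, j) ∈ h2.vars := fun a j hj ha =>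
        (hv (i, a, j)).2 ⟨⟨rfl, ha⟩, hj⟩
      by_cases hc : ∃ a, a ≠ i ∧ (i, a, j) ∉ h1.vars
      · obtain ⟨a, ha, haj⟩ := hc
        -- for b ≠ a: (i,b,k) ∈ h2.vars
        have s1 : ∀ b, b ≠ i → b ≠ a → (i, b, k) ∈ h2.vars := fun b hb hba =>
          (cross j k hj hk hkj.symm a b ha hb hba.symm).resolve_left haj
        have s2 : ∀ c, c ≠ i → (i, c, j) ∈ h2.vars := by
          intro c hc
          obtain ⟨b, hb, hba, hbc⟩ := exists_ne3 hn i a c
          rcases cross k j hk hj hkj b c hb hc hbc with h3 | h3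
          · exact (hd _ h3 (s1 b hb hba)).elim
          · exact h3
        -- then h1 fails at column j
        have h3 := (hA j hj).1
        obtain ⟨v, hv1, hv2⟩ := h3.exists_mem
        apply hd v hv1
        have h4 := s2 v.2.1 hv2.2.1
        have : (i, v.2.1, j) = v := by
          obtain ⟨h1, h2, h3⟩ := hv2
          rw [← h1, ← h3]
        rw [← this]
        exact h4
      · push Not at hc
        have h3 := (hA j hj).2
        obtain ⟨v, hv1, hv2⟩ := h3.exists_mem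
        refine hd v ?_ hv1
        have h4 := hc v.2.1 hv2.2.1
        have : (i, v.2.1, j) = v := by
          obtain ⟨h1, h2, h3⟩ := hv2
          rw [← h1, ← h3]
        rw [← this]
        exact h4

end Pool.Agent.Lib.MP_9cec2c_lc.Linear
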