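import Mathlib

set_option autoImplicit false

/-!
Boolean formulas with constants and rewriting by sound linear rules.
-/

namespace Pool.Agent.Lib.MP_9cec2c_lc.LinearRules

/-- Negation-free Boolean formulas over variables from `α`, with the two constants. -/
inductive Formula (α : Type) : Type
  | cst : Bool → Formula α
  | var : α → Formula α
  | and : Formula α → Formula α → Formula α
  | or : Formula α → Formula α → Formula α

namespace Formula

variable {α β : Type}

/-- Truth of a formula under the assignment that makes exactly the variables in `x` true. -/
def Holds : Formula α → Set α → Prop
  | cst b, _ => b = true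
  | var v, x => v ∈ x
  | and s t, x => s.Holds x ∧ t.Holds x
  | or s t, x => s.Holds x ∨ t.Holds x

/-- The set of variables of a formula. -/
def vars : Formula α → Set α
  | cst _ => ∅
  | var v => {v}
  | and s t => s.vars ∪ t.vars
  | or s t => s.vars ∪ t.vars

/-- A formula is linear if no variable occurs twice in it. -/
def Linear : Formula α → Prop
  | cst _ => True
  | var _ => True
  | and s t => s.Linear ∧ t.Linear ∧ Disjoint s.vars t.vars
  | or s t => s.Linear ∧ t.Linear ∧ Disjoint s.vars t.vars

/-- No constant occurs in the formula. -/
def ConstFree : Formula α → Prop
  | cst _ => False
  | var _ => True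
  | and s t => s.ConstFree ∧ t.ConstFree
  | or s t => s.ConstFree ∧ t.ConstFree

/-- Substitution of formulas for the variables. -/
def subst : Formula α → (α → Formula β) → Formula β
  | cst b, _ => cst b
  | var v, σ => σ v
  | and s t, σ => and (s.subst σ) (t.subst σ)
  | or s t, σ => or (s.subst σ) (t.subst σ)

end Formula

open Formula

/-- One rewriting step with a sound linear rule on at most `N` variables: the rule consists of two
linear formulas `l` and `r` in `k ≤ N` variables such that `l` implies `r` (the two sides need not
have the same variables); it is applied, after a substitution `σ`, at any position of a formula. -/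
inductive Step {α : Type} (N : ℕ) : Formula α → Formula α → Prop
  | rule {k : ℕ} (hk : k ≤ N) (l r : Formula (Fin k)) (hl : l.Linear) (hr : r.Linear)
      (sound : ∀ x, l.Holds x → r.Holds x) (σ : Fin k → Formula α) : Step N (l.subst σ) (r.subst σ)
  | andLeft {s s' : Formula α} (t : Formula α) (h : Step N s s') :
      Step N (Formula.and s t) (Formula.and s' t)
  | andRight {s s' : Formula α} (t : Formula α) (h : Step N s s') :
      Step N (Formula.and t s) (Formula.and t s')
  | orLeft {s s' : Formula α} (t : Formula α) (h : Step N s s') :
      Step N (Formula.or s t) (Formula.or s' t)
  | orRight {s s' : Formula α} (t : Formula α) (h : Step N s s') :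
      Step N (Formula.or t s) (Formula.or t s')

/-- `t` can be derived from `s` by sound linear rules on at most `N` variables, all formulas of the
derivation being linear. -/
def Derives {α : Type} (N : ℕ) (s t : Formula α) : Prop :=
  Relation.ReflTransGen (fun u v => Step N u v ∧ u.Linear ∧ v.Linear) s t

end Pool.Agent.Lib.MP_9cec2c_lc.LinearRules
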