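import Pool.Agent.Lib.MP_9cec2c_lc.LinGood

set_option autoImplicit false

namespace Pool.Agent.Lib.MP_9cec2c_lc.Linear

open Fm

variable {n : ℕ} {β : Type}

/-- What is needed about the formulas substituted by a rule. -/
structure Atoms (σ : β → Fm (Vr n)) : Prop where
  touch : ∀ t (v : Vr n) (φ : Pg n → Fin n), v ∈ (σ t).vars → φ v.1 = v.2.2 → (σ t).Holds (pl φ)
  m1 : ∀ t (v w : Vr n), v ∈ (σ t).vars → w ∉ (σ t).vars → w ∈ col v.1 v.2.2 →
    (σ t).vars ⊆ col v.1 v.2.2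
  m2 : ∀ t (v w : Vr n), v ∈ (σ t).vars → w ∈ (σ t).vars → v.1 ≠ w.1 → VV {v.1} ⊆ (σ t).vars
  m3 : ∀ t (i : Pg n) (x : Set (Vr n)), VV {i} ⊆ (σ t).vars → (σ t).Holds x → ∃ j, col i j ⊆ x

lemma atoms_of_rule (hn : 3 ≤ n) {l : Fm β} {σ : β → Fm (Vr n)} {I : Set (Pg n)}
    (hlv : l.vars = Set.univ) (hlin : (l.subst σ).Lin)
    (hvars : ∀ v, v ∈ (l.subst σ).vars ↔ v ∈ VV I)
    (hu : ∀ x, (l.subst σ).Holds x ↔ fI I x) : Atoms σ := by
  have hsl := (Lin.of_subst hlin).2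
  unfold SubLin at hsl
  rw [hlv] at hsl
  have hdis : ∀ t t', t ≠ t' → Disjoint (σ t).vars (σ t').vars := fun t t' h =>
    hsl.2 t trivial t' trivial h
  have hin : ∀ t v, v ∈ (σ t).vars → v ∈ VV I := fun t v hv =>
    (hvars v).1 ((mem_vars_subst l σ v).2 ⟨t, by rw [hlv]; trivial, hv⟩)
  have swap : ∀ t (x y : Set (Vr n)), (∀ v, v ∉ (σ t).vars → (v ∈ x ↔ v ∈ y)) →
      ((σ t).Holds x ↔ (σ t).Holds y) → fI I x → fI I y := by
    intro t x y hxy ht hx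
    rw [← hu, holds_subst] at hx ⊢
    refine (holds_congr ?_).1 hx
    intro t' _
    show (σ t').Holds x ↔ (σ t').Holds y
    by_cases htt : t' = t
    · rw [htt]; exact ht
    · apply holds_congr
      intro v hv
      exact hxy v fun h => Set.disjoint_left.1 (hdis t' t htt) hv h
  have touch : ∀ t (v : Vr n) (φ : Pg n → Fin n), v ∈ (σ t).vars → φ v.1 = v.2.2 →
      (σ t).Holds (pl φ) := by
    intro t v φ hv hφ
    by_contra hcon
    have h1 := swap t (pl φ) (pl φ \ (σ t).vars) (fun w hw => ⟨fun h => ⟨h, hw⟩, fun h => h.1⟩)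
      ⟨fun h => absurd h hcon, fun h => absurd (h.mono fun w hw => hw.1) hcon⟩ (fI_pl I φ)
    obtain ⟨j, hj⟩ := h1 v.1 (hin t v hv).1
    obtain ⟨a, ha⟩ := exists_ne1 hn v.1
    have h2 : φ v.1 = j := (hj (mem_col ha)).1
    have h3 : v ∈ col v.1 j := by
      rw [← h2, hφ]
      exact mem_col_self (hin t v hv)
    exact (hj h3).2 hv
  have core : ∀ t (i : Pg n) (ψ φ : Pg n → Fin n), i ∈ I → (σ t).Holds (pl ψ) → (σ t).Holds (pl φ) →
      ψ i ≠ φ i → (∀ a, a ≠ i → (i, a, ψ i) ∉ (σ t).vars) ∨ (∀ a, a ≠ i → (i, a, φ i) ∈ (σ t).vars) := by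
    intro t i ψ φ hi h1 h2 hne
    have h3 := swap t (pl ψ) ((pl ψ \ (σ t).vars) ∪ (pl φ ∩ (σ t).vars))
      (fun w hw => ⟨fun h => Or.inl ⟨h, hw⟩, fun h => h.elim (fun h => h.1) (fun h => absurd h.2 hw)⟩)
      ⟨fun _ => h2.inter.mono fun w hw => Or.inr hw, fun _ => h1⟩ (fI_pl I ψ)
    obtain ⟨j, hj⟩ := h3 i hi
    obtain ⟨a0, ha0⟩ := exists_ne1 hn i
    rcases hj (mem_col ha0) with h4 | h4
    · left
      have h5 : ψ i = j := h4.1
      intro a ha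
      rw [h5]
      rcases hj (mem_col ha) with h6 | h6
      · exact h6.2
      · exact absurd (h5.trans (show φ i = j from h6.1).symm) hne
    · right
      have h5 : φ i = j := h4.1
      intro a ha
      rw [h5]
      rcases hj (mem_col ha) with h6 | h6
      · exact absurd ((show ψ i = j from h6.1).trans h5.symm) hne
      · exact h6.2
  have m1a : ∀ t (v w z : Vr n), v ∈ (σ t).vars → w ∉ (σ t).vars → w ∈ col v.1 v.2.2 →
      z ∈ (σ t).vars → z.1 = v.1 → z.2.2 = v.2.2 := by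
    intro t v w z hv hw hwv hz hzv
    by_contra hne
    rcases core t v.1 (fun _ => z.2.2) (fun _ => v.2.2) (hin t v hv).1
      (touch t z _ hz rfl) (touch t v _ hv rfl) hne with h1 | h1
    · apply h1 z.2.1 (by rw [← hzv]; exact (hin t z hz).2)
      have : (v.1, z.2.1, z.2.2) = z := by rw [← hzv]
      show (v.1, z.2.1, z.2.2) ∈ _
      rw [this]
      exact hz
    · apply hw
      have h2 := h1 w.2.1 hwv.2.1
      have : (v.1, w.2.1, v.2.2) = w := by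
        obtain ⟨h3, h4, h5⟩ := hwv
        rw [← h3, ← h5]
      change (v.1, w.2.1, v.2.2) ∈ _ at h2
      rw [this] at h2
      exact h2
  have m1 : ∀ t (v w : Vr n), v ∈ (σ t).vars → w ∉ (σ t).vars → w ∈ col v.1 v.2.2 →
      (σ t).vars ⊆ col v.1 v.2.2 := by
    classical
    intro t v w hv hw hwv z hz
    by_cases hzv : z.1 = v.1
    · exact ⟨hzv, by rw [← hzv]; exact (hin t z hz).2, m1a t v w z hv hw hwv hz hzv⟩
    · exfalso
      obtain ⟨j', hj', _⟩ := exists_hole hn v.2.2 v.2.2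
      obtain ⟨a, ha⟩ := exists_ne1 hn v.1
      rcases core t v.1 (fun _ => v.2.2) (fun p => if p = v.1 then j' else z.2.2) (hin t v hv).1
        (touch t v _ hv rfl) (touch t z _ hz (by simp [hzv])) (by simp [hj'.symm]) with h1 | h1
      · exact h1 v.2.1 (hin t v hv).2 hv
      · have h2 := h1 a ha
        simp only [if_true] at h2
        exact hj' (m1a t v w (v.1, a, j') hv hw hwv h2 rfl)
  refine ⟨touch, m1, ?_, ?_⟩
  · classical
    intro t v w hv hw hvw u hu'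
    by_contra hut
    obtain ⟨hu1, hu2⟩ := hu'
    rw [Set.mem_singleton_iff] at hu1
    by_cases huj : u.2.2 = v.2.2
    · have h1 := m1 t v u hv hut ⟨hu1, by rw [← hu1]; exact hu2, huj⟩ hw
      exact hvw h1.1.symm
    · rcases core t v.1 (fun _ => v.2.2) (fun p => if p = v.1 then u.2.2 else w.2.2) (hin t v hv).1
        (touch t v _ hv rfl) (touch t w _ hw (by simp [Ne.symm hvw])) (by simp [Ne.symm huj]) with h1 | h1
      · exact h1 v.2.1 (hin t v hv).2 hv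
      · have h2 := h1 u.2.1 (by rw [← hu1]; exact hu2)
        simp only [if_true] at h2
        apply hut
        have : (v.1, u.2.1, u.2.2) = u := by rw [← hu1]
        rw [this] at h2
        exact h2
  · intro t i x hi hx
    obtain ⟨a, ha⟩ := exists_ne1 hn i
    have h0 : (i, a, (⟨0, by omega⟩ : Fin n)) ∈ (σ t).vars := hi ⟨rfl, ha⟩
    have hiI : i ∈ I := (hin t _ h0).1
    have h1 := swap t (pl (fun _ => ⟨0, by omega⟩)) ((pl (fun _ => ⟨0, by omega⟩) \ (σ t).vars) ∪ (x ∩ (σ t).vars))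
      (fun w hw => ⟨fun h => Or.inl ⟨h, hw⟩, fun h => h.elim (fun h => h.1) (fun h => absurd h.2 hw)⟩)
      ⟨fun _ => hx.inter.mono fun w hw => Or.inr hw, fun _ => touch t _ _ h0 rfl⟩ (fI_pl I _)
    obtain ⟨j, hj⟩ := h1 i hiI
    refine ⟨j, fun w hw => ?_⟩
    rcases hj hw with h2 | h2
    · exact absurd (hi ⟨hw.1, by rw [hw.1]; exact hw.2.1⟩) h2.2
    · exact h2.1

/-- a formula whose variables lie in one column -/
def Small (h : Fm (Vr n)) : Prop := ∃ i j, h.vars ⊆ col i j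

/-- the variables of the substituted formulas -/
def ZZ (σ : β → Fm (Vr n)) (T : Set β) : Set (Vr n) := {v | ∃ t ∈ T, v ∈ (σ t).vars}

lemma uncut_of_small [Fintype β] {σ : β → Fm (Vr n)} {T : Set β} (hcard : Fintype.card β + 3 ≤ n)
    (hT : ∀ t ∈ T, Small (σ t)) (i : Pg n) (j k : Fin n) :
    ∃ m, m ≠ j ∧ m ≠ k ∧ ∀ a, a ≠ i → (i, a, m) ∉ ZZ σ T := by
  classical
  by_contra hcon
  push Not at hcon
  -- every hole other than j, k is met by an atom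
  have h1 : ∀ m : {m : Fin n // m ≠ j ∧ m ≠ k}, ∃ t : β, t ∈ T ∧ ∃ a, a ≠ i ∧ (i, a, m.1) ∈ (σ t).vars := by
    intro m
    obtain ⟨a, ha, t, ht, h⟩ := hcon m.1 m.2.1 m.2.2
    exact ⟨t, ht, a, ha, h⟩
  choose f hf hf2 using h1
  have hinj : Function.Injective f := by
    intro m m' h
    obtain ⟨i0, j0, hs⟩ := hT _ (hf m)
    obtain ⟨a, ha, h3⟩ := hf2 m
    obtain ⟨a', ha', h4⟩ := hf2 m'
    rw [← h] at h4
    have e1 : m.1 = j0 := (hs h3).2.2
    have e2 : m'.1 = j0 := (hs h4).2.2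
    exact Subtype.ext (e1.trans e2.symm)
  have hle := Fintype.card_le_of_injective f hinj
  have hge : n ≤ Fintype.card {m : Fin n // m ≠ j ∧ m ≠ k} + 2 := by
    have h2 : Fintype.card {m : Fin n // m ≠ j ∧ m ≠ k} = (Finset.univ \ {j, k} : Finset (Fin n)).card := by
      rw [Fintype.card_subtype]
      congr 1
      ext m
      simp
    rw [h2]
    have h3 := Finset.le_card_sdiff ({j, k} : Finset (Fin n)) Finset.univ
    have h4 := Finset.card_le_two (a := j) (b := k)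
    simp only [Finset.card_univ, Fintype.card_fin] at h3
    omega
  omega

lemma ZZ_union (σ : β → Fm (Vr n)) (T : Set β) (ρ : Fm β) :
    ZZ σ T ∪ (ρ.subst σ).vars = ZZ σ (T ∪ ρ.vars) := by
  ext v
  rw [Set.mem_union, mem_vars_subst]
  constructor
  · rintro (⟨t, ht, h⟩ | ⟨t, ht, h⟩)
    · exact ⟨t, Or.inl ht, h⟩
    · exact ⟨t, Or.inr ht, h⟩
  · rintro ⟨t, ht | ht, h⟩
    · exact Or.inl ⟨t, ht, h⟩
    · exact Or.inr ⟨t, ht, h⟩

/-- The key step for disjunctions: one side `h1` inherits the invariant and the other side consists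
of small formulas. -/
lemma or_key [Fintype β] {σ : β → Fm (Vr n)} (hσ : Atoms σ)
    (hcard : Fintype.card β + 3 ≤ n) {ρ1 ρ2 : Fm β} {I : Set (Pg n)} {T : Set β}
    (hT : ∀ t ∈ T, Small (σ t)) (hg : Good (Fm.or (ρ1.subst σ) (ρ2.subst σ)) I (ZZ σ T))
    (hS : ∀ φ : Pg n → Fin n, Set.InjOn φ I → (ρ1.subst σ).Holds (pl φ))
    (hcol : ∀ i ∈ I, ∀ j, ∃ a, a ≠ i ∧ (i, a, j) ∈ (ρ1.subst σ).vars) :
    (∀ t ∈ T ∪ ρ2.vars, Small (σ t)) ∧ Good (ρ1.subst σ) I (ZZ σ (T ∪ ρ2.vars)) := by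
  have hsmall : ∀ t ∈ T ∪ ρ2.vars, Small (σ t) := by
    rintro t (ht | ht)
    · exact hT t ht
    · obtain ⟨v, hv⟩ := (σ t).vars_nonempty
      have hv2 : v ∈ (ρ2.subst σ).vars := (mem_vars_subst _ _ _).2 ⟨t, ht, hv⟩
      have hvI := ((hg.vars_eq v).1 (Or.inr hv2)).1
      obtain ⟨a, ha, h1⟩ := hcol v.1 hvI.1 v.2.2
      refine ⟨v.1, v.2.2, hσ.m1 t v _ hv ?_ (mem_col ha)⟩
      intro h2
      exact Set.disjoint_left.1 hg.lin.2.2 h1 ((mem_vars_subst _ _ _).2 ⟨t, ht, h2⟩)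
  refine ⟨hsmall, ?_⟩
  have := hg.or_left (fun i j k => by
    rw [ZZ_union]
    exact uncut_of_small hcard hsmall i j k) hS
  rw [ZZ_union] at this
  exact this

/-- the two cases for a disjunction -/
lemma or_cases (hn : 3 ≤ n) {σ : β → Fm (Vr n)} (hσ : Atoms σ)
    {ρ1 ρ2 : Fm β} {I : Set (Pg n)} {T : Set β}
    (hg : Good (Fm.or (ρ1.subst σ) (ρ2.subst σ)) I (ZZ σ T)) {a b : Pg n} (ha : a ∈ I) (hb : b ∈ I)
    (hab : a ≠ b)
    (ht0 : I ≠ Set.univ ∨ ∃ t ∈ ρ1.vars ∪ ρ2.vars, ∃ v ∈ (σ t).vars, ∃ w ∈ (σ t).vars, v.1 ≠ w.1) :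
    ((∀ φ : Pg n → Fin n, Set.InjOn φ I → (ρ1.subst σ).Holds (pl φ)) ∧
      (∀ i ∈ I, ∀ j, ∃ a, a ≠ i ∧ (i, a, j) ∈ (ρ1.subst σ).vars) ∧
      (I ≠ Set.univ ∨ ∃ t ∈ ρ1.vars, ∃ v ∈ (σ t).vars, ∃ w ∈ (σ t).vars, v.1 ≠ w.1)) ∨
    ((∀ φ : Pg n → Fin n, Set.InjOn φ I → (ρ2.subst σ).Holds (pl φ)) ∧
      (∀ i ∈ I, ∀ j, ∃ a, a ≠ i ∧ (i, a, j) ∈ (ρ2.subst σ).vars) ∧
      (I ≠ Set.univ ∨ ∃ t ∈ ρ2.vars, ∃ v ∈ (σ t).vars, ∃ w ∈ (σ t).vars, v.1 ≠ w.1)) := by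
  by_cases hI : I = Set.univ
  · subst hI
    have noinj : ∀ φ : Pg n → Fin n, ¬ Set.InjOn φ Set.univ := by
      intro φ h
      have := Fintype.card_le_of_injective φ (Set.injOn_univ.1 h)
      simp at this
    obtain ⟨t, ht, v, hv, w, hw, hvw⟩ := ht0.resolve_left (fun h => h rfl)
    have hsub := hσ.m2 t v w hv hw hvw
    rcases ht with ht | ht
    · left
      have hsub' : VV {v.1} ⊆ (ρ1.subst σ).vars := fun u hu =>
        (mem_vars_subst _ _ _).2 ⟨t, ht, hsub hu⟩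
      refine ⟨fun φ h => absurd h (noinj φ), ?_, Or.inr ⟨t, ht, v, hv, w, hw, hvw⟩⟩
      intro i _ j
      by_cases hiv : i = v.1
      · obtain ⟨c, hc⟩ := exists_ne1 hn i
        exact ⟨c, hc, hsub' ⟨hiv, hc⟩⟩
      · exact ⟨v.1, Ne.symm hiv, hg.col_univ hsub' i hiv j⟩
    · right
      have hsub' : VV {v.1} ⊆ (ρ2.subst σ).vars := fun u hu =>
        (mem_vars_subst _ _ _).2 ⟨t, ht, hsub hu⟩
      refine ⟨fun φ h => absurd h (noinj φ), ?_, Or.inr ⟨t, ht, v, hv, w, hw, hvw⟩⟩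
      intro i _ j
      by_cases hiv : i = v.1
      · obtain ⟨c, hc⟩ := exists_ne1 hn i
        exact ⟨c, hc, hsub' ⟨hiv, hc⟩⟩
      · exact ⟨v.1, Ne.symm hiv, hg.or_swap.col_univ hsub' i hiv j⟩
  · obtain ⟨e, he⟩ := (Set.ne_univ_iff_exists_notMem I).1 hI
    have hinj : ∀ (i : Pg n), i ∈ I → ∀ j, ∃ φ : Pg n → Fin n, Set.InjOn φ I ∧ φ i = j := by
      intro i hi j
      obtain ⟨φ, hφ, hφi⟩ := exists_place1 (b := e) (a := i) (fun h => he (h ▸ hi)) j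
      exact ⟨φ, hφ.mono (sub_compl he), hφi⟩
    obtain ⟨φ0, hφ0, _⟩ := hinj a ha ⟨0, by omega⟩
    rcases hg.ext_or he hφ0 with h0 | h0
    · left
      have hS : ∀ φ : Pg n → Fin n, Set.InjOn φ I → (ρ1.subst σ).Holds (pl φ) := by
        intro φ hφ
        rcases hg.ext_or he hφ with h1 | h1
        · exact h1
        · exact (hg.not_both hn ha hb hab he hφ0 hφ h0 h1).elim
      refine ⟨hS, ?_, Or.inl hI⟩
      intro i hi j
      obtain ⟨φ, hφ, hφi⟩ := hinj i hi j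
      have := hg.ext hi he hφ (hS φ hφ)
      rw [hφi] at this
      exact ⟨e, fun h => he (h ▸ hi), this⟩
    · right
      have hS : ∀ φ : Pg n → Fin n, Set.InjOn φ I → (ρ2.subst σ).Holds (pl φ) := by
        intro φ hφ
        rcases hg.ext_or he hφ with h1 | h1
        · exact (hg.or_swap.not_both hn ha hb hab he hφ0 hφ h0 h1).elim
        · exact h1
      refine ⟨hS, ?_, Or.inl hI⟩
      intro i hi j
      obtain ⟨φ, hφ, hφi⟩ := hinj i hi j
      have := hg.or_swap.ext hi he hφ (hS φ hφ)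
      rw [hφi] at this
      exact ⟨e, fun h => he (h ▸ hi), this⟩

theorem star [Fintype β] (hn : 3 ≤ n) {σ : β → Fm (Vr n)} (hσ : Atoms σ)
    (hcard : Fintype.card β + 3 ≤ n) (ρ : Fm β) : ∀ (I : Set (Pg n)) (T : Set β),
    (∀ t ∈ T, Small (σ t)) → Good (ρ.subst σ) I (ZZ σ T) →
    (I ≠ Set.univ ∨ ∃ t ∈ ρ.vars, ∃ v ∈ (σ t).vars, ∃ w ∈ (σ t).vars, v.1 ≠ w.1) →
    ∀ (a b : Pg n) (φ : Pg n → Fin n), a ∈ I → b ∈ I → a ≠ b → Set.InjOn φ {b}ᶜ → φ a = φ b →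
      (ρ.subst σ).Holds (pl φ) := by
  induction ρ with
  | var t =>
    intro I T hT hg _ a b φ ha hb hab hφ hc
    obtain ⟨m, _, _, hm⟩ := hg.uncut a (φ a) (φ a)
    obtain ⟨m', _, _, hm'⟩ := hg.uncut b (φ a) (φ a)
    have h1 : (a, b, m) ∈ (σ t).vars := (hg.vars_eq _).2 ⟨⟨ha, hab.symm⟩, hm b hab.symm⟩
    have h2 : (b, a, m') ∈ (σ t).vars := (hg.vars_eq _).2 ⟨⟨hb, hab⟩, hm' a hab⟩
    have h3 := hσ.m2 t _ _ h1 h2 hab
    exact hσ.touch t (a, b, φ a) φ (h3 ⟨rfl, hab.symm⟩) rfl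
  | and ρ1 ρ2 ih1 ih2 =>
    intro I T hT hg _ a b φ ha hb hab hφ hc
    obtain ⟨I1, I2, hI, hd, hne1, hne2, hg1, hg2⟩ := Good.and_split hn hg
    have hI1 : I1 ≠ Set.univ := by
      obtain ⟨c, hc⟩ := hne2
      intro h
      exact hd c (h ▸ trivial) hc
    have hI2 : I2 ≠ Set.univ := by
      obtain ⟨c, hc⟩ := hne1
      intro h
      exact hd c hc (h ▸ trivial)
    have half : ∀ (ρ : Fm β) (J : Set (Pg n)), J ≠ Set.univ → Good (ρ.subst σ) J (ZZ σ T) →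
        (∀ (I : Set (Pg n)) (T : Set β),
          (∀ t ∈ T, Small (σ t)) → Good (ρ.subst σ) I (ZZ σ T) →
          (I ≠ Set.univ ∨ ∃ t ∈ ρ.vars, ∃ v ∈ (σ t).vars, ∃ w ∈ (σ t).vars, v.1 ≠ w.1) →
          ∀ (a b : Pg n) (φ : Pg n → Fin n), a ∈ I → b ∈ I → a ≠ b → Set.InjOn φ {b}ᶜ → φ a = φ b →
            (ρ.subst σ).Holds (pl φ)) → (ρ.subst σ).Holds (pl φ) := by
      intro ρ J hJ hgJ ih
      by_cases haJ : a ∈ J
      · by_cases hbJ : b ∈ J
        · exact ih J T hT hgJ (Or.inl hJ) a b φ haJ hbJ hab hφ hc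
        · exact hgJ.A b φ hφ fun _ _ _ _ h => absurd h hbJ
      · refine hgJ.A b φ hφ fun a' ha' he haJ' _ => ?_
        have : a' = a := hφ ha' hab (by rw [he, hc])
        exact absurd (this ▸ haJ') haJ
    exact ⟨half ρ1 I1 hI1 hg1 ih1, half ρ2 I2 hI2 hg2 ih2⟩
  | or ρ1 ρ2 ih1 ih2 =>
    intro I T hT hg ht0 a b φ ha hb hab hφ hc
    rcases or_cases hn hσ hg ha hb hab ht0 with ⟨h1, h2, h3⟩ | ⟨h1, h2, h3⟩
    · obtain ⟨h4, h5⟩ := or_key hσ hcard hT hg h1 h2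
      exact Or.inl (ih1 I _ h4 h5 h3 a b φ ha hb hab hφ hc)
    · obtain ⟨h4, h5⟩ := or_key hσ hcard hT hg.or_swap h1 h2
      exact Or.inr (ih2 I _ h4 h5 h3 a b φ ha hb hab hφ hc)

/-- in a disjunction one side must be empty -/
lemma or_absurd [Fintype β] (hn : 3 ≤ n) {σ : β → Fm (Vr n)} (hσ : Atoms σ)
    (hcard : Fintype.card β + 3 ≤ n) {ρ1 ρ2 : Fm β} {I : Set (Pg n)} {T : Set β}
    (hT : ∀ t ∈ T, Small (σ t))
    (hg : Good (Fm.or (ρ1.subst σ) (ρ2.subst σ)) I (ZZ σ T))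
    (hS : ∀ φ : Pg n → Fin n, Set.InjOn φ I → (ρ1.subst σ).Holds (pl φ))
    (hcol : ∀ i ∈ I, ∀ j, ∃ a, a ≠ i ∧ (i, a, j) ∈ (ρ1.subst σ).vars)
    (ht0 : I ≠ Set.univ ∨ ∃ t ∈ ρ1.vars, ∃ v ∈ (σ t).vars, ∃ w ∈ (σ t).vars, v.1 ≠ w.1) :
    False := by
  obtain ⟨h4, h5⟩ := or_key hσ hcard hT hg hS hcol
  obtain ⟨w, hw⟩ := (ρ2.subst σ).vars_nonempty
  obtain ⟨b, a, j⟩ := w
  have hwI := (hg.vars_eq _).1 (Or.inr hw)
  have hb : b ∈ I := hwI.1.1
  have hab : a ≠ b := hwI.1.2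
  have hd : ∀ v, v ∈ (ρ1.subst σ).vars → v ∈ (ρ2.subst σ).vars → False := fun v h3 h4 =>
    Set.disjoint_left.1 hg.lin.2.2 h3 h4
  by_cases ha : a ∈ I
  · obtain ⟨φ, hφ, hφa⟩ := exists_place1 hab j
    have hφ' := injOn_update hφ j
    have hc : (Function.update φ b j) a = (Function.update φ b j) b := by
      rw [Function.update_self, Function.update_of_ne hab, hφa]
    have h6 := star hn hσ hcard ρ1 I _ h4 h5 ht0 a b _ ha hb hab hφ' hc
    have h7 := (hg.color hφ' hab hc (Or.inl ha) h6).1 hb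
    rw [Function.update_self] at h7
    exact hd _ h7 hw
  · obtain ⟨φ, hφ, hφb⟩ := exists_place1 hab.symm j
    have hφI : Set.InjOn φ I := hφ.mono (sub_compl ha)
    have h7 := hg.ext hb ha hφI (hS φ hφI)
    rw [hφb] at h7
    exact hd _ h7 hw

/-- the single pigeon case -/
lemma single_good (hn : 3 ≤ n) {h : Fm (Vr n)} {i : Pg n} (hg : Good h {i} ∅) (x : Set (Vr n))
    (hx : h.Holds x) : fI {i} x := by
  rintro i' rfl
  obtain ⟨j, _, hj⟩ := single hn i' h Set.univ hg.lin ⟨⟨0, by omega⟩, trivial⟩ (by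
    intro v
    rw [hg.vars_eq v]
    simp) (by
    intro j _
    obtain ⟨a, ha⟩ := exists_ne1 hn i'
    obtain ⟨φ, hφ, _⟩ := exists_place1 ha j
    have h1 := hg.A i' (Function.update φ i' j) (injOn_update hφ j) (fun _ _ _ _ _ => id)
    refine h1.sub ?_
    intro v hv hvp
    obtain ⟨⟨h2, h3⟩, _⟩ := (hg.vars_eq v).1 hv
    rw [Set.mem_singleton_iff] at h2
    have h4 : (Function.update φ i' j) v.1 = v.2.2 := hvp
    rw [h2, Function.update_self] at h4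
    exact ⟨h2, by rw [← h2]; exact h3, h4.symm⟩) (by
    intro x hx τ hτ
    have h1 : h.Holds ((x ∩ h.vars) ∪ {v | v.1 ≠ i' ∧ τ v.1 = v.2.2}) :=
      hx.inter.mono fun v hv => Or.inl hv
    obtain ⟨p, q, m, hpq, ⟨hp, _⟩, ⟨hq, _⟩⟩ := hg.B _ τ hτ (by
      intro v hv
      constructor
      · rintro (h2 | h2)
        · exact absurd ((hg.vars_eq v).1 h2.2).1.1 hv
        · exact h2.2
      · intro h2
        exact Or.inr ⟨hv, h2⟩) h1
    have other : ∀ v, v ∈ ((x ∩ h.vars) ∪ {v | v.1 ≠ i' ∧ τ v.1 = v.2.2}) → v.1 ≠ i' → τ v.1 = v.2.2 := by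
      rintro v (h2 | h2) hv
      · exact absurd ((hg.vars_eq v).1 h2.2).1.1 hv
      · exact h2.2
    have own : ∀ v, v ∈ ((x ∩ h.vars) ∪ {v | v.1 ≠ i' ∧ τ v.1 = v.2.2}) → v.1 = i' → v ∈ x := by
      rintro v (h2 | h2) hv
      · exact h2.1
      · exact absurd hv h2.1
    by_cases hpi : p = i'
    · have hqi : q ≠ i' := fun h => hpq (hpi.trans h.symm)
      refine ⟨q, hqi, ?_⟩
      rw [show τ q = m from other _ hq hqi, ← hpi]
      exact own _ hp hpi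
    · by_cases hqi : q = i'
      · refine ⟨p, hpi, ?_⟩
        rw [show τ p = m from other _ hp hpi, ← hqi]
        exact own _ hq hqi
      · exact absurd (hτ hpi hqi ((other _ hp hpi).trans (other _ hq hqi).symm)) hpq) x hx
  exact ⟨j, hj⟩

lemma ZZ_empty (σ : β → Fm (Vr n)) : ZZ σ (∅ : Set β) = ∅ := by
  ext v
  constructor
  · rintro ⟨t, ht, _⟩; exact ht
  · exact fun h => absurd h id

/-- the right-hand side of a rule -/
theorem root [Fintype β] (hn : 3 ≤ n) {σ : β → Fm (Vr n)} (hσ : Atoms σ)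
    (hcard : Fintype.card β + 3 ≤ n) (ρ : Fm β) : ∀ (I : Set (Pg n)), Good (ρ.subst σ) I ∅ →
    ∀ x, (ρ.subst σ).Holds x → fI I x := by
  have hsingle : ∀ (ρ : Fm β) (I : Set (Pg n)), Good (ρ.subst σ) I ∅ →
      (∀ a ∈ I, ∀ b ∈ I, a = b) → ∀ x, (ρ.subst σ).Holds x → fI I x := by
    intro ρ I hg hI x hx
    obtain ⟨v, hv⟩ := (ρ.subst σ).vars_nonempty
    have hvI := ((hg.vars_eq v).1 hv).1.1
    have hIs : I = {v.1} := by
      ext a
      constructor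
      · intro ha; exact hI a ha _ hvI
      · rintro rfl; exact hvI
    rw [hIs] at hg ⊢
    exact single_good hn hg x hx
  induction ρ with
  | var t =>
    intro I hg x hx i hi
    refine hσ.m3 t i x ?_ hx
    rintro v ⟨h1, h2⟩
    rw [Set.mem_singleton_iff] at h1
    exact (hg.vars_eq v).2 ⟨⟨h1 ▸ hi, h2⟩, id⟩
  | and ρ1 ρ2 ih1 ih2 =>
    intro I hg x hx i hi
    obtain ⟨I1, I2, hI, hd, hne1, hne2, hg1, hg2⟩ := Good.and_split hn hg
    rcases (hI i).1 hi with h | h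
    · exact ih1 I1 hg1 x hx.1 i h
    · exact ih2 I2 hg2 x hx.2 i h
  | or ρ1 ρ2 ih1 ih2 =>
    intro I hg
    by_cases hI : ∀ a ∈ I, ∀ b ∈ I, a = b
    · exact hsingle (Fm.or ρ1 ρ2) I hg hI
    · exfalso
      push Not at hI
      obtain ⟨a, ha, b, hb, hab⟩ := hI
      have hg' : Good (Fm.or (ρ1.subst σ) (ρ2.subst σ)) I (ZZ σ ∅) := by
        rw [ZZ_empty]; exact hg
      have ht0 : I ≠ Set.univ ∨ ∃ t ∈ ρ1.vars ∪ ρ2.vars, ∃ v ∈ (σ t).vars, ∃ w ∈ (σ t).vars, v.1 ≠ w.1 := by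
        by_cases hu : I = Set.univ
        · right
          have h1 : ∀ p : Pg n, ∃ t ∈ ρ1.vars ∪ ρ2.vars, ∃ v ∈ (σ t).vars, v.1 = p := by
            intro p
            obtain ⟨c, hc⟩ := exists_ne1 hn p
            have h2 : (p, c, (⟨0, by omega⟩ : Fin n)) ∈ ((Fm.or ρ1 ρ2).subst σ).vars :=
              (hg.vars_eq _).2 ⟨⟨by rw [hu]; trivial, hc⟩, id⟩
            obtain ⟨t, ht, h3⟩ := (mem_vars_subst _ _ _).1 h2
            exact ⟨t, ht, _, h3, rfl⟩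
          choose f hf v hv hvp using h1
          have hlt : Fintype.card β < Fintype.card (Pg n) := by
            rw [Fintype.card_fin]; omega
          obtain ⟨p, q, hpq, hfpq⟩ := Fintype.exists_ne_map_eq_of_card_lt f hlt
          refine ⟨f p, hf p, v p, hv p, v q, ?_, ?_⟩
          · rw [hfpq]; exact hv q
          · rw [hvp, hvp]; exact hpq
        · exact Or.inl hu
      rcases or_cases hn hσ hg' ha hb hab ht0 with ⟨h1, h2, h3⟩ | ⟨h1, h2, h3⟩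
      · exact or_absurd hn hσ hcard (fun t ht => absurd ht id) hg' h1 h2 h3
      · exact or_absurd hn hσ hcard (fun t ht => absurd ht id) hg'.or_swap h1 h2 h3

end Pool.Agent.Lib.MP_9cec2c_lc.Linear
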