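import Pool.Agent.Lib.MP_9cec2c_lc.FGDefs

/-!
The matrix identity `A B = I → B A = I` and the rank principle for matrices of zeros and ones,
modulo `p`, in the form of formulas with counting gates modulo `p`.
-/

set_option autoImplicit false

namespace Pool.Agent.MP_9cec2c_lc.MI

open FG

/-- The variables: the entries of an `M × m` matrix `A` and of an `m × M` matrix `B`, both with the
entries zero and one. -/
abbrev MVar (M m : ℕ) : Type := (Fin M × Fin m) ⊕ (Fin m × Fin M)

/-- The variable for the entry of `A` in row `i` and column `k`. -/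
def varA {M m : ℕ} (i : Fin M) (k : Fin m) : MVar M m := Sum.inl (i, k)

/-- The variable for the entry of `B` in row `k` and column `i`. -/
def varB {M m : ℕ} (k : Fin m) (i : Fin M) : MVar M m := Sum.inr (k, i)

/-- The formula `∑ k, u k * v k ≡ r` modulo `p`: the number of the `k < n` for which `u k` and `v k`
are both true is congruent to `r`. -/
def dotEq {V : Type} (r n : ℕ) (u v : Fin n → V) : Form V :=
  .count r n fun k => conjL [.var (u k), .var (v k)]

/-- The formula which says that the entry of the `M × M` matrix `A B` in row `i` and column `j` is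
the entry of the identity matrix. -/
def entryAB {M m : ℕ} (i j : Fin M) : Form (MVar M m) :=
  dotEq (if i = j then 1 else 0) m (fun k => varA i k) fun k => varB k j

/-- The formula which says that the entry of the `m × m` matrix `B A` in row `i` and column `j` is
the entry of the identity matrix. -/
def entryBA {M m : ℕ} (i j : Fin m) : Form (MVar M m) :=
  dotEq (if i = j then 1 else 0) M (fun k => varB i k) fun k => varA k j

/-- The hypotheses: `A B = I`, entry by entry, and the clauses which say that `B` is the transpose
of `A`. -/
def hyps (M m : ℕ) : Set (Form (MVar M m)) :=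
  {φ | (∃ i j : Fin M, φ = entryAB i j) ∨ ∃ (i : Fin M) (k : Fin m),
    φ = clause [(varA i k, false), (varB k i, true)] ∨
      φ = clause [(varA i k, true), (varB k i, false)]}

/-- The conclusions: the constant false, and `B A = I`, entry by entry. -/
def concls (M m : ℕ) : Set (Form (MVar M m)) :=
  {φ | φ = falsum ∨ ∃ i j : Fin m, φ = entryBA i j}

/-- The lines are a derivation of one of the conclusions from the hypotheses, or they are a proof,
from no hypotheses, of a formula `¬ (φ₁ ∧ ... ∧ φₛ)` or `¬ (φ₁ ∧ ... ∧ φₛ) ∨ (ψ₁ ∧ ... ∧ ψₜ)`,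
where all `φᵢ` are among the hypotheses and some `ψᵢ` is one of the conclusions. The rules are
those in `S` and the depth is at most `d`. -/
def Infers (S : Set Rule) (d : ℕ) {M m l : ℕ} (L : Fin l → Form (MVar M m)) : Prop :=
  (IsDerivation S d (hyps M m) L ∧ ∃ i, L i ∈ concls M m) ∨
    (IsDerivation S d ∅ L ∧ ∃ (i : Fin l) (Λ : List (Form (MVar M m))),
      (∀ φ ∈ Λ, φ ∈ hyps M m) ∧ (L i = .neg (conjL Λ) ∨
        ∃ Λ' : List (Form (MVar M m)), (∃ ψ ∈ Λ', ψ ∈ concls M m) ∧
          L i = disjL [.neg (conjL Λ), conjL Λ']))

end Pool.Agent.MP_9cec2c_lc.MI
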