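import Mathlib
import Pool.Agent.Lib.MP_9cec2c_lc.FGDefs

/-!
The functional pigeonhole principle in conjunctive normal form.
-/

set_option autoImplicit false

namespace Pool.Agent.MP_9cec2c_lc.PF

/-- Pigeon `i` sits in some hole. -/
def pigeonClause (M m : ℕ) (i : Fin M) : List ((Fin M × Fin m) × Bool) :=
  (List.finRange m).map fun j => ((i, j), true)

/-- The pigeons `i` and `i'` do not both sit in hole `j`. -/
def holeClause {M m : ℕ} (i i' : Fin M) (j : Fin m) : List ((Fin M × Fin m) × Bool) :=
  [((i, j), false), ((i', j), false)]

/-- Pigeon `i` does not sit both in hole `j` and in hole `j'`. -/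
def funClause {M m : ℕ} (i : Fin M) (j j' : Fin m) : List ((Fin M × Fin m) × Bool) :=
  [((i, j), false), ((i, j'), false)]

/-- The functional pigeonhole principle with `M` pigeons and `m` holes. -/
def fphp (M m : ℕ) : List (List ((Fin M × Fin m) × Bool)) :=
  (List.finRange M).map (pigeonClause M m) ++
    ((List.finRange M).flatMap fun i => ((List.finRange M).filter fun i' => i < i').flatMap fun i' =>
      (List.finRange m).map fun j => holeClause i i' j) ++
    ((List.finRange M).flatMap fun i => (List.finRange m).flatMap fun j =>
      ((List.finRange m).filter fun j' => j < j').map fun j' => funClause i j j')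

end Pool.Agent.MP_9cec2c_lc.PF
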