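import Pool.Agent.Lib.MP_9cec2c_lc.Mg.G038
import Pool.Agent.Lib.MP_9cec2c_lc.Mg.G034
import Pool.Agent.Lib.MP_9cec2c_lc.Mg.G039
import Pool.Agent.Lib.MP_9cec2c_lc.Mg.G037

/-!
The pigeonhole principle is exponentially hard for Frege systems of constant depth with counting
gates modulo a prime.
-/

set_option autoImplicit false
set_option linter.unusedSectionVars false

namespace Pool.Agent.MP_9cec2c_lc.PF

open Finset FG GW PHS

theorem qk_zmod (p l : ℕ) [hp : Fact p.Prime] : QK (ZMod p) (p ^ l) := by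
  intro a h0 h1
  rw [ZMod.natCast_eq_zero_iff]
  exact hp.out.dvd_choose_pow (by omega) (by omega)

/-- The lower bound from `k` copies of one world with `n` holes. -/
theorem fphp_copies (p : ℕ) [Fact p.Prime] {S : Set Rule} (hS : S.Finite)
    (hsound : ∀ R ∈ S, R.Sound p) :
    ∃ c : ℝ, 0 < c ∧ ∃ n₀ : ℕ, ∀ n ≥ n₀, ∀ k m M : ℕ, k * n ≤ m → n ≤ m → m < M → M ≤ m + k →
      ∀ (d l : ℕ) (L : Fin l → Form (Fin M × Fin m)), Refutes S d (fphp M m) L →
      Real.exp (c * (n : ℝ) ^ (c / (d + 1))) ≤ size L := by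
  have hp : p.Prime := Fact.out
  obtain ⟨c₀, hc₀, n₁, hn₁⟩ := exists_params hp.two_le (δ := 1 / 4) (by norm_num) (by norm_num)
    400 (by norm_num)
  obtain ⟨c, hc, n₂, hn₂⟩ := world_num (ZMod p) p hc₀ (E := 2) (by norm_num) 2 hS hsound
  refine ⟨c, hc, max n₁ (max n₂ 13), fun n hn k m M hkn hnm hmM hMk d l L hL => ?_⟩
  have hn1 : n₁ ≤ n := (le_max_left _ _).trans hn
  have hn2 : n₂ ≤ n := (le_max_left _ _).trans ((le_max_right _ _).trans hn)
  have hn13 : 13 ≤ n := (le_max_right _ _).trans ((le_max_right _ _).trans hn)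
  have hn13' : (13 : ℝ) ≤ n := by exact_mod_cast hn13
  obtain ⟨A, r, b, hA2, hAn, hAle, hAq, hbq, hbn, hnb, hnum⟩ := hn₁ n hn1 (n + 1) (by omega) (by
    push_cast
    have h1 : (1 : ℝ) ≤ (n : ℝ) ^ (1 / 2 - 1 / 4 : ℝ) :=
      Real.one_le_rpow (by linarith) (by norm_num)
    linarith)
  obtain ⟨q, hq⟩ : ∃ q, q = p ^ r := ⟨_, rfl⟩
  rw [← hq] at hAq hbq hnum
  have hq1 : 1 ≤ q := by nlinarith
  obtain ⟨D₀, τ, w, hw, hτ, hB, hpos⟩ := exists_bounds (K := ZMod p) (N := n + 1) (b := b)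
    (q := q) (A := A) hbq (by omega) hA2 hAq (hq ▸ qk_zmod p r) hnum
  have hA0 : (2 : ℝ) ≤ A := by exact_mod_cast hA2
  have hexp : Real.exp (-(A : ℝ)) ≤ 1 / 2 := by
    have h1 : (2 : ℝ) ≤ Real.exp A := by
      have := Real.add_one_le_exp (A : ℝ)
      linarith
    rw [Real.exp_neg, one_div]
    exact inv_anti₀ (by norm_num) h1
  have hw0 : 0 < w := by linarith
  have hdef : (Module.finrank (ZMod p) (FF (ZMod p) (n + 1) b (D₀ + 0) ⊓
      YY (ZMod p) (n + 1) b (D₀ + A) : Submodule (ZMod p) (Pt (n + 1) b → ZMod p)) : ℝ) ≤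
      Module.finrank (ZMod p) (YY (ZMod p) (n + 1) b (D₀ + 0)) + τ := by
    exact_mod_cast hB.hdef 0 A (Nat.zero_le A) le_rfl
  refine hn₂ n hn2 (Fin M × Fin m) (Pt (n + 1) b → ZMod p)
    (fun a => FF (ZMod p) (n + 1) b (D₀ + a)) (fun a => YY (ZMod p) (n + 1) b (D₀ + a))
    (pullMul (ZMod p) (rho M m (n + 1) n k b)) A τ (12 * q) (w / 2)
    (php_world (ZMod p) M m (n + 1) n k b D₀) ⟨hB.hdef, ?_⟩ ?_ ?_ (by linarith) ?_ ?_ hAn
    (fphp M m) (php_dead (ZMod p) hbn hkn (by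
      have h1 : k * (n + 1) = k * n + k := by ring
      omega) D₀ le_rfl) d l L hL ?_
  · intro e he
    have h1 := hB.hdim e he
    have h2 : 12 * (q : ℝ) * (w / 2) = 6 * q * w := by ring
    rw [h2]
    exact h1
  · have h1 : (1 : ℝ) ≤ q := by exact_mod_cast hq1
    linarith
  · have h1 : q ≤ n + 1 := by omega
    have h2 : (q : ℝ) ≤ n + 1 := by exact_mod_cast h1
    have h3 : (n : ℝ) ^ (2 : ℝ) = (n : ℝ) ^ 2 := Real.rpow_two _
    rw [h3]
    nlinarith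
  · refine le_trans (add_le_add_left hdef _) ?_
    have h1 : Real.exp (-(A : ℝ)) * w ≤ 1 / 2 * w := mul_le_mul_of_nonneg_right hexp hw0.le
    have h2 : (Module.finrank (ZMod p) (YY (ZMod p) (n + 1) b (D₀ + 0)) : ℝ) + w ≤
        Module.finrank (ZMod p) (FF (ZMod p) (n + 1) b (D₀ + 0)) := hpos
    linarith
  · linarith
  · have h1 := size_ge hmM hsound hL
    omega

/-- The pigeonhole principle is exponentially hard for constant depth Frege systems with counting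
gates modulo `p`. -/
theorem fphp_hard (p : ℕ) [Fact p.Prime] {S : Set Rule} (hS : S.Finite)
    (hsound : ∀ R ∈ S, R.Sound p) {δ : ℝ} (hδ : 0 < δ) :
    ∃ c : ℝ, 0 < c ∧ ∃ m₀ : ℕ, ∀ m ≥ m₀, ∀ M : ℕ, m < M → (M : ℝ) ≤ m + (m : ℝ) ^ (1 - δ) →
      ∀ (d l : ℕ) (L : Fin l → Form (Fin M × Fin m)), Refutes S d (fphp M m) L →
      Real.exp (c * (m : ℝ) ^ (c / (d + 1))) ≤ size L := by
  obtain ⟨c, hc, n₀, h⟩ := fphp_copies p hS hsound
  -- the exponents
  obtain ⟨ε, hε⟩ : ∃ ε : ℝ, ε = min δ (1 / 2) / 2 := ⟨_, rfl⟩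
  have hε0 : 0 < ε := by
    rw [hε]
    have : 0 < min δ (1 / 2) := lt_min hδ (by norm_num)
    linarith
  have hεδ : 2 * ε ≤ δ := by
    rw [hε]
    have := min_le_left δ (1 / 2)
    linarith
  have hε1 : 2 * ε ≤ 1 / 2 := by
    rw [hε]
    have := min_le_right δ (1 / 2)
    linarith
  have tend : ∀ {a : ℝ}, 0 < a → ∀ B : ℝ, ∀ᶠ x : ℝ in Filter.atTop, B ≤ x ^ a := by
    intro a ha B
    exact (tendsto_rpow_atTop ha).eventually_ge_atTop B
  obtain ⟨x₀, hx₀⟩ := Filter.eventually_atTop.1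
    ((tend hε0 ((n₀ : ℝ) + 1)).and ((tend hε0 2).and ((tend (show 0 < ε / 2 by linarith) 2).and
      (Filter.eventually_ge_atTop (1 : ℝ)))))
  refine ⟨c * (ε / 2) / (1 + ε), by positivity, ⌈x₀⌉₊, fun m hm M hM hM' d l L hL => ?_⟩
  obtain ⟨h1, h2, h3, h4⟩ := hx₀ m ((Nat.le_ceil _).trans (by exact_mod_cast hm))
  have hm0 : (0 : ℝ) < m := by linarith
  obtain ⟨n, hn⟩ : ∃ n : ℕ, n = ⌊(m : ℝ) ^ ε⌋₊ := ⟨_, rfl⟩
  have hn1 : (n : ℝ) ≤ (m : ℝ) ^ ε := by
    rw [hn]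
    exact Nat.floor_le (by positivity)
  have hn2 : (m : ℝ) ^ ε < n + 1 := by
    rw [hn]
    exact Nat.lt_floor_add_one _
  have hnn₀ : n₀ ≤ n := by
    have : (n₀ : ℝ) < n + 1 := by linarith
    have : n₀ < n + 1 := by exact_mod_cast this
    omega
  have hn0 : 0 < n := by
    have : (0 : ℝ) < n := by linarith
    exact_mod_cast this
  have hn0' : (0 : ℝ) < n := by exact_mod_cast hn0
  have hnm : n ≤ m := by
    have h5 : (m : ℝ) ^ ε ≤ (m : ℝ) ^ (1 : ℝ) :=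
      Real.rpow_le_rpow_of_exponent_le h4 (by linarith)
    rw [Real.rpow_one] at h5
    exact_mod_cast hn1.trans h5
  obtain ⟨k, hk⟩ : ∃ k : ℕ, k = m / n := ⟨_, rfl⟩
  have hkn : k * n ≤ m := by
    rw [hk]
    exact Nat.div_mul_le_self m n
  have hk2 : (m : ℝ) / n < k + 1 := by
    rw [div_lt_iff₀ hn0']
    have h5 : m < (k + 1) * n := by
      rw [hk, mul_comm]
      exact Nat.lt_mul_div_succ m hn0
    exact_mod_cast h5
  have hMk : M ≤ m + k := by
    have h5 : (m : ℝ) ^ (1 - ε) ≤ (m : ℝ) / n := by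
      rw [le_div_iff₀ hn0']
      calc (m : ℝ) ^ (1 - ε) * n ≤ (m : ℝ) ^ (1 - ε) * (m : ℝ) ^ ε :=
            mul_le_mul_of_nonneg_left hn1 (by positivity)
        _ = m := by
          rw [← Real.rpow_add hm0]
          simp
    have h6 : (m : ℝ) ^ (1 - δ) ≤ (m : ℝ) ^ (1 - 2 * ε) :=
      Real.rpow_le_rpow_of_exponent_le h4 (by linarith)
    have h7 : 2 * (m : ℝ) ^ (1 - 2 * ε) ≤ (m : ℝ) ^ (1 - ε) := by
      calc 2 * (m : ℝ) ^ (1 - 2 * ε) ≤ (m : ℝ) ^ ε * (m : ℝ) ^ (1 - 2 * ε) :=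
            mul_le_mul_of_nonneg_right h2 (by positivity)
        _ = (m : ℝ) ^ (1 - ε) := by
          rw [← Real.rpow_add hm0]
          congr 1
          ring
    have h8 : 1 ≤ (m : ℝ) ^ (1 - 2 * ε) := Real.one_le_rpow h4 (by linarith)
    have h9 : (M : ℝ) < m + k + 1 := by linarith
    have h10 : M < m + k + 1 := by exact_mod_cast h9
    omega
  have hfin := h n hnn₀ k m M hkn hnm hM hMk d l L hL
  refine le_trans (Real.exp_le_exp.2 ?_) hfin
  have hd0 : (0 : ℝ) < (d : ℝ) + 1 := by positivity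
  have hmn : (m : ℝ) ^ (ε / 2) ≤ n := by
    have h5 : 2 * (m : ℝ) ^ (ε / 2) ≤ (m : ℝ) ^ ε := by
      calc 2 * (m : ℝ) ^ (ε / 2) ≤ (m : ℝ) ^ (ε / 2) * (m : ℝ) ^ (ε / 2) :=
            mul_le_mul_of_nonneg_right h3 (by positivity)
        _ = (m : ℝ) ^ ε := by
          rw [← Real.rpow_add hm0]
          congr 1
          ring
    have h6 : 1 ≤ (m : ℝ) ^ (ε / 2) := Real.one_le_rpow h4 (by linarith)
    linarith
  have hc1 : c * (ε / 2) / (1 + ε) ≤ c := by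
    rw [div_le_iff₀ (by linarith)]
    nlinarith
  have hc2 : c * (ε / 2) / (1 + ε) ≤ c * (ε / 2) := by
    apply div_le_self (by positivity)
    linarith
  calc c * (ε / 2) / (1 + ε) * (m : ℝ) ^ (c * (ε / 2) / (1 + ε) / (d + 1)) ≤
        c * (m : ℝ) ^ (c * (ε / 2) / (d + 1)) := by
        refine mul_le_mul hc1 (Real.rpow_le_rpow_of_exponent_le h4
          (div_le_div_of_nonneg_right hc2 hd0.le)) (by positivity) hc.le
    _ = c * ((m : ℝ) ^ (ε / 2)) ^ (c / (d + 1)) := by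
        rw [← Real.rpow_mul hm0.le]
        congr 2
        ring
    _ ≤ c * (n : ℝ) ^ (c / (d + 1)) :=
        mul_le_mul_of_nonneg_left (Real.rpow_le_rpow (by positivity) hmn (by positivity)) hc.le

end Pool.Agent.MP_9cec2c_lc.PF
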