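import Pool.Agent.Lib.MP_9cec2c_lc.GWGen
import Pool.Agent.Lib.MP_9cec2c_lc.Mg.G038
import Pool.Agent.Lib.MP_9cec2c_lc.PFFinal

/-!
Lower bounds for derivations of arbitrary formulas from arbitrary hypotheses, from graded worlds,
and the numbers of the world of the pigeonhole principle.
-/

set_option autoImplicit false
set_option linter.unusedSectionVars false

namespace Pool.Agent.MP_9cec2c_lc.PF

open Finset Frege FG GW PHS

/-- The lower bound for all depths, from graded worlds in which the hypotheses hold and the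
conclusion fails. -/
theorem world_gen (K : Type) [Field K] [Fintype K] (p : ℕ) [CharP K p] {c₀ E : ℝ} (hc₀ : 0 < c₀)
    (hE : 0 < E) (w : ℕ) {S : Set Rule} (hS : S.Finite) (hsound : ∀ R ∈ S, R.Sound p) :
    ∃ c : ℝ, 0 < c ∧ ∃ n₀ : ℕ, ∀ n ≥ n₀, ∀ (V W : Type) [AddCommGroup W] [Module K W]
      [FiniteDimensional K W] (M N : ℕ → Submodule K W) (act : Fun K V →ₗ[K] W →ₗ[K] W)
      (A τ : ℕ) (C Ω : ℝ), GWorld M N act → Bounds M N A τ C Ω → 1 ≤ C → C ≤ (n : ℝ) ^ E →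
      0 < Ω → (Module.finrank K (M 0 ⊓ N A : Submodule K W) : ℝ) + Ω ≤ Module.finrank K (M 0) →
      (τ : ℝ) ≤ 2 * Real.exp (-A) * Ω → (n : ℝ) ^ c₀ - 1 ≤ A →
      ∀ (d l : ℕ) (Φ : Set (Form V)) (L : Fin l → Form V),
      (∀ k, (w + 8) * deg K k (d + 1) ≤ A → ∀ φ ∈ Φ, TrueIn M N act A k d φ) →
      (∀ k, (w + 8) * deg K k (d + 1) ≤ A → ∃ i, FalseIn M N act A k d (L i)) →
      IsDerivation S d Φ L → 2 ≤ size L → n ≤ size L →
      Real.exp (c * (n : ℝ) ^ (c / (d + 1))) ≤ size L := by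
  obtain ⟨k, hk⟩ := GW.exists_cost hS
  obtain ⟨q, hq⟩ : ∃ q : ℕ, q = k + w + 8 := ⟨_, rfl⟩
  obtain ⟨B, hB⟩ : ∃ B : ℝ, B = 16 * ((k : ℝ) + 1) := ⟨_, rfl⟩
  have hk0 : (0 : ℝ) ≤ k := Nat.cast_nonneg k
  have hB1 : 1 ≤ B := by
    rw [hB]
    linarith
  obtain ⟨c, hc, n₀, hn₀⟩ := num_uniform q (Fintype.card K - 1) card_sub_pos (by omega) hB1 hE hc₀
  have htend : Filter.Tendsto (fun n : ℕ => (n : ℝ) ^ c₀) Filter.atTop Filter.atTop :=
    (tendsto_rpow_atTop hc₀).comp tendsto_natCast_atTop_atTop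
  obtain ⟨n₁, hn₁⟩ := Filter.eventually_atTop.1
    (htend.eventually_ge_atTop (144 * ((k : ℝ) + 1) + 1))
  refine ⟨c, hc, max n₀ n₁, fun n hn V W _ _ _ M N act A τ C Ω hW hBd hC1 hCn hΩ hpos hτ hA d
    l Φ L hΦ hf hL h2 hs => ?_⟩
  have hA' : 144 * (k + 1) ≤ A := by
    have h1 := hn₁ n ((le_max_right _ _).trans hn)
    have h2 : (144 : ℝ) * (k + 1) ≤ A := by linarith
    exact_mod_cast h2
  have hS' : ∀ R ∈ S, R.Sound p ∧ rcost R ≤ k ∧ R.nodes.length ≤ k := fun R hR =>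
    ⟨hsound R hR, (hk R hR).1, (hk R hR).2⟩
  have hBC : 1 ≤ B * C := by nlinarith
  refine hn₀ n ((le_max_left _ _).trans hn) A d (size L) C hA hC1 hCn hs
    (num_bound hBC card_sub_pos (by omega) (by omega) ?_)
  intro R n' hR1 hRA hRn
  rw [hq] at hRA
  rw [hB] at hRn
  have hτ' := defect_small (w := w) card_sub_pos hC1 hΩ hRA hRn hA' hτ
  exact gen_bound (p := p) (w := w) hW hC1 hΩ hBd hpos hτ' hS' hRn hR1 hRA
    (hΦ (3 * R)) hL (hf (3 * R))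

/-- The numbers of the world of the pigeonhole principle with `n + 1` pigeons. -/
theorem php_numbers (p : ℕ) [Fact p.Prime] : ∃ c₀ : ℝ, 0 < c₀ ∧ ∃ n₀ : ℕ, ∀ n ≥ n₀,
    ∃ (A b D₀ τ : ℕ) (C Ω : ℝ), b ≤ n ∧ n ≤ 2 * b ∧
      Bounds (fun a => FF (ZMod p) (n + 1) b (D₀ + a)) (fun a => YY (ZMod p) (n + 1) b (D₀ + a))
        A τ C Ω ∧ 1 ≤ C ∧ C ≤ (n : ℝ) ^ (2 : ℝ) ∧ 0 < Ω ∧
      (Module.finrank (ZMod p) (FF (ZMod p) (n + 1) b (D₀ + 0) ⊓
        YY (ZMod p) (n + 1) b (D₀ + A) : Submodule (ZMod p) (Pt (n + 1) b → ZMod p)) : ℝ) + Ω ≤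
        Module.finrank (ZMod p) (FF (ZMod p) (n + 1) b (D₀ + 0)) ∧
      (τ : ℝ) ≤ 2 * Real.exp (-A) * Ω ∧ (n : ℝ) ^ c₀ - 1 ≤ A := by
  have hp : p.Prime := Fact.out
  obtain ⟨c₀, hc₀, n₁, hn₁⟩ := exists_params hp.two_le (δ := 1 / 4) (by norm_num) (by norm_num)
    400 (by norm_num)
  refine ⟨c₀, hc₀, max n₁ 13, fun n hn => ?_⟩
  have hn1 : n₁ ≤ n := (le_max_left _ _).trans hn
  have hn13 : 13 ≤ n := (le_max_right _ _).trans hn
  have hn13' : (13 : ℝ) ≤ n := by exact_mod_cast hn13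
  obtain ⟨A, r, b, hA2, hAn, hAle, hAq, hbq, hbn, hnb, hnum⟩ := hn₁ n hn1 (n + 1) (by omega) (by
    push_cast
    have h1 : (1 : ℝ) ≤ (n : ℝ) ^ (1 / 2 - 1 / 4 : ℝ) :=
      Real.one_le_rpow (by linarith) (by norm_num)
    linarith)
  obtain ⟨q, hq⟩ : ∃ q, q = p ^ r := ⟨_, rfl⟩
  rw [← hq] at hAq hbq hnum
  have hq1 : 1 ≤ q := by nlinarith
  obtain ⟨D₀, τ, w, hw, hτ, hB, hpos⟩ := exists_bounds (K := ZMod p) (N := n + 1) (b := b)
    (q := q) (A := A) hbq (by omega) hA2 hAq (hq ▸ qk_zmod p r) hnum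
  have hA0 : (2 : ℝ) ≤ A := by exact_mod_cast hA2
  have hexp : Real.exp (-(A : ℝ)) ≤ 1 / 2 := by
    have h1 : (2 : ℝ) ≤ Real.exp A := by
      have := Real.add_one_le_exp (A : ℝ)
      linarith
    rw [Real.exp_neg, one_div]
    exact inv_anti₀ (by norm_num) h1
  have hw0 : 0 < w := by linarith
  have hdef : (Module.finrank (ZMod p) (FF (ZMod p) (n + 1) b (D₀ + 0) ⊓
      YY (ZMod p) (n + 1) b (D₀ + A) : Submodule (ZMod p) (Pt (n + 1) b → ZMod p)) : ℝ) ≤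
      Module.finrank (ZMod p) (YY (ZMod p) (n + 1) b (D₀ + 0)) + τ := by
    exact_mod_cast hB.hdef 0 A (Nat.zero_le A) le_rfl
  refine ⟨A, b, D₀, τ, 12 * q, w / 2, hbn, hnb, ⟨hB.hdef, ?_⟩, ?_, ?_, by linarith, ?_, ?_, hAn⟩
  · intro e he
    have h1 := hB.hdim e he
    have h2 : 12 * (q : ℝ) * (w / 2) = 6 * q * w := by ring
    rw [h2]
    exact h1
  · have h1 : (1 : ℝ) ≤ q := by exact_mod_cast hq1
    linarith
  · have h1 : q ≤ n + 1 := by omega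
    have h2 : (q : ℝ) ≤ n + 1 := by exact_mod_cast h1
    have h3 : (n : ℝ) ^ (2 : ℝ) = (n : ℝ) ^ 2 := Real.rpow_two _
    rw [h3]
    nlinarith
  · refine le_trans (add_le_add_left hdef _) ?_
    have h1 : Real.exp (-(A : ℝ)) * w ≤ 1 / 2 * w := mul_le_mul_of_nonneg_right hexp hw0.le
    have h2 : (Module.finrank (ZMod p) (YY (ZMod p) (n + 1) b (D₀ + 0)) : ℝ) + w ≤
        Module.finrank (ZMod p) (FF (ZMod p) (n + 1) b (D₀ + 0)) := hpos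
    linarith
  · linarith

end Pool.Agent.MP_9cec2c_lc.PF
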