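import Pool.Agent.Lib.MP_9cec2c_lc.MIWorld
import Pool.Agent.Lib.MP_9cec2c_lc.MIMain

/-!
The matrix identity `A B = I → B A = I` and the rank principle are exponentially hard for Frege
systems of constant depth with counting gates modulo a prime.
-/

set_option autoImplicit false
set_option linter.unusedSectionVars false

namespace Pool.Agent.MP_9cec2c_lc.MI

open Finset Frege FG GW PHS PF

variable {M m : ℕ}

/-! ### The formulas are true implications -/

theorem eval_dotEq {V : Type} (p r n : ℕ) (u v : Fin n → V) (x : V → Bool) :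
    (dotEq r n u v).eval p x ↔
      ∑ k, (if x (u k) = true then (1 : ZMod p) else 0) * (if x (v k) = true then 1 else 0) =
        (r : ZMod p) := by
  classical
  have h1 : (dotEq r n u v).eval p x ↔
      Nat.ModEq p {k : Fin n | x (u k) = true ∧ x (v k) = true}.ncard r := by
    have h2 : {k : Fin n | (conjL [Form.var (u k), Form.var (v k)]).eval p x} =
        {k : Fin n | x (u k) = true ∧ x (v k) = true} := by
      ext k
      rw [Set.mem_ofPred_eq, Set.mem_ofPred_eq, eval_conjL]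
      constructor
      · intro h
        exact ⟨h (.var (u k)) (by simp), h (.var (v k)) (by simp)⟩
      · rintro ⟨h3, h4⟩ φ hφ
        simp only [List.mem_cons, List.not_mem_nil, or_false] at hφ
        rcases hφ with rfl | rfl
        · exact h3
        · exact h4
    show Nat.ModEq p {k : Fin n | (conjL [Form.var (u k), Form.var (v k)]).eval p x}.ncard r ↔ _
    rw [h2]
  rw [h1, ← ZMod.natCast_eq_natCast_iff]
  have h3 : ((({k : Fin n | x (u k) = true ∧ x (v k) = true}.ncard : ℕ)) : ZMod p) =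
      ∑ k, (if x (u k) = true then (1 : ZMod p) else 0) *
        (if x (v k) = true then 1 else 0) := by
    have h4 : {k : Fin n | x (u k) = true ∧ x (v k) = true} =
        ((univ.filter fun k => x (u k) = true ∧ x (v k) = true : Finset (Fin n)) :
          Set (Fin n)) := by
      ext k
      simp
    rw [h4, Set.ncard_coe_finset, card_filter]
    push_cast
    refine sum_congr rfl fun k _ => ?_
    by_cases h5 : x (u k) = true
    · by_cases h6 : x (v k) = true
      · rw [if_pos ⟨h5, h6⟩, if_pos h5, if_pos h6, one_mul]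
      · rw [if_neg fun h => h6 h.2, if_neg h6, mul_zero]
    · rw [if_neg fun h => h5 h.1, if_neg h5, zero_mul]
  rw [h3]

/-- The matrix of the values of the variables. -/
def matA (p : ℕ) (x : MVar M m → Bool) : Matrix (Fin M) (Fin m) (ZMod p) :=
  Matrix.of fun i k => if x (varA i k) = true then 1 else 0

/-- The matrix of the values of the variables. -/
def matB (p : ℕ) (x : MVar M m → Bool) : Matrix (Fin m) (Fin M) (ZMod p) :=
  Matrix.of fun k i => if x (varB k i) = true then 1 else 0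

theorem eval_entryAB (p : ℕ) (x : MVar M m → Bool) (i j : Fin M) :
    (entryAB i j).eval p x ↔
      (matA p x * matB p x) i j = (1 : Matrix (Fin M) (Fin M) (ZMod p)) i j := by
  unfold entryAB
  rw [eval_dotEq, Matrix.mul_apply, Matrix.one_apply]
  unfold matA matB
  simp only [Matrix.of_apply]
  push_cast
  exact Iff.rfl

theorem eval_entryBA (p : ℕ) (x : MVar M m → Bool) (i j : Fin m) :
    (entryBA i j).eval p x ↔
      (matB p x * matA p x) i j = (1 : Matrix (Fin m) (Fin m) (ZMod p)) i j := by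
  unfold entryBA
  rw [eval_dotEq, Matrix.mul_apply, Matrix.one_apply]
  unfold matA matB
  simp only [Matrix.of_apply]
  push_cast
  exact Iff.rfl

/-- The hypotheses imply `M ≤ m`, and `B A = I` if `M = m`. -/
theorem sound_AB (p : ℕ) [Fact p.Prime] (x : MVar M m → Bool)
    (h : ∀ i j : Fin M, (entryAB i j).eval p x) :
    M ≤ m ∧ (M = m → ∀ i j : Fin m, (entryBA i j).eval p x) := by
  have h1 : matA p x * matB p x = 1 := by
    ext i j
    exact (eval_entryAB p x i j).1 (h i j)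
  constructor
  · have h2 : (1 : Matrix (Fin M) (Fin M) (ZMod p)).rank = M := by
      rw [Matrix.rank_one, Fintype.card_fin]
    calc M = (matA p x * matB p x).rank := by rw [h1, h2]
      _ ≤ (matA p x).rank := Matrix.rank_mul_le_left _ _
      _ ≤ m := by
        have h3 := Matrix.rank_le_card_width (matA p x)
        rwa [Fintype.card_fin] at h3
  · rintro rfl i j
    rw [eval_entryBA, mul_eq_one_comm.1 h1]

/-! ### The trivial bounds -/

/-- The trivial bound for an entry of `B A = I`. -/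
theorem size_concl {l : ℕ} {L : Fin l → Form (MVar M m)} {i₀ : Fin l} {i j : Fin m}
    (h : entryBA i j ∈ (L i₀).parts) : M + 1 ≤ size L := by
  have h1 : ∀ k : Fin M, conjL [.var (varB i k), .var (varA k j)] ∈
      {ψ | ∃ i, ψ ∈ (L i).parts} := fun k =>
    ⟨i₀, parts_trans (Set.mem_insert_of_mem _ (Set.mem_iUnion.2 ⟨k, self_mem_parts _⟩)) h⟩
  have hinj : Function.Injective fun k : Fin M =>
      (conjL [.var (varB i k), .var (varA k j)] : Form (MVar M m)) := by
    intro k k' hkk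
    obtain ⟨x, hx⟩ : ∃ x : MVar M m → Bool, ∀ v, x v = true ↔ v = varB i k ∨ v = varA k j := by
      classical
      exact ⟨fun v => decide (v = varB i k ∨ v = varA k j), fun v => by simp⟩
    have h2 : (conjL [.var (varB i k), .var (varA k j)] : Form (MVar M m)).eval 0 x := by
      rw [eval_conjL]
      intro φ hφ
      simp only [List.mem_cons, List.not_mem_nil, or_false] at hφ
      rcases hφ with rfl | rfl
      · exact (hx _).2 (Or.inl rfl)
      · exact (hx _).2 (Or.inr rfl)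
    have hkk' : (conjL [.var (varB i k), .var (varA k j)] : Form (MVar M m)) =
      conjL [.var (varB i k'), .var (varA k' j)] := hkk
    rw [hkk', eval_conjL] at h2
    have h3 : x (varB i k') = true := h2 (.var (varB i k')) (by simp)
    rcases (hx _).1 h3 with h4 | h4
    · exact (congrArg Prod.snd (Sum.inr.inj h4)).symm
    · exact absurd h4 (by unfold varA varB; simp)
  have h2 : M ≤ {ψ | ∃ k, ψ ∈ (L k).parts}.ncard := by
    have h3 : Set.ncard (Set.range fun k : Fin M =>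
        (conjL [.var (varB i k), .var (varA k j)] : Form (MVar M m))) = M := by
      rw [← Set.image_univ, Set.ncard_image_of_injective _ hinj, Set.ncard_univ,
        Nat.card_eq_fintype_card, Fintype.card_fin]
    refine h3.symm.le.trans (Set.ncard_le_ncard ?_ (parts_set_finite L))
    rintro ψ ⟨k, rfl⟩
    exact h1 k
  have h3 : 1 ≤ l := Nat.one_le_iff_ne_zero.2 fun h => by subst h; exact i₀.elim0
  unfold size
  omega

/-- If the hypotheses which occur in the lines mention at most `m` rows, then they can be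
satisfied. -/
theorem size_rows {l : ℕ} {L : Fin l → Form (MVar M m)} (i₀ : Fin l) (hm : 0 < m) (p : ℕ)
    (h : ∀ x : MVar M m → Bool,
      ¬ ∀ φ ∈ hyps M m, (∃ i, φ ∈ (L i).parts) → φ.eval p x) : m + 1 ≤ size L := by
  classical
  obtain ⟨R, hR⟩ : ∃ R : Finset (Fin M), ∀ i, i ∈ R ↔
      ∃ j, (∃ a, entryAB i j ∈ (L a).parts) ∨ ∃ a, entryAB j i ∈ (L a).parts :=
    ⟨univ.filter fun i => ∃ j, (∃ a, entryAB i j ∈ (L a).parts) ∨
      ∃ a, entryAB j i ∈ (L a).parts, fun i => by simp⟩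
  have h1 : m + 1 ≤ R.card := by
    by_contra hc
    have h2 : Fintype.card R ≤ Fintype.card (Fin m) := by
      rw [Fintype.card_coe, Fintype.card_fin]
      omega
    obtain ⟨e⟩ := Function.Embedding.nonempty_of_card_le h2
    obtain ⟨x, hxA, hxB⟩ : ∃ x : MVar M m → Bool,
        (∀ i k, x (varA i k) = true ↔ ∃ hi : i ∈ R, e ⟨i, hi⟩ = k) ∧
        ∀ i k, x (varB k i) = true ↔ ∃ hi : i ∈ R, e ⟨i, hi⟩ = k :=
      ⟨Sum.elim (fun v => decide (∃ hi : v.1 ∈ R, e ⟨v.1, hi⟩ = v.2))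
        (fun v => decide (∃ hi : v.2 ∈ R, e ⟨v.2, hi⟩ = v.1)), fun i k => by unfold varA; simp,
        fun i k => by unfold varB; simp⟩
    refine h x fun φ hφ ⟨a, ha⟩ => ?_
    rcases hφ with ⟨i, j, rfl⟩ | ⟨i, j, rfl | rfl⟩
    · have hi : i ∈ R := (hR i).2 ⟨j, Or.inl ⟨a, ha⟩⟩
      have hj : j ∈ R := (hR j).2 ⟨i, Or.inr ⟨a, ha⟩⟩
      unfold entryAB
      rw [eval_dotEq, sum_eq_single (e ⟨i, hi⟩)]
      · rw [if_pos ((hxA i _).2 ⟨hi, rfl⟩), one_mul]
        by_cases hij : i = j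
        · subst hij
          rw [if_pos ((hxB i _).2 ⟨hi, rfl⟩), if_pos rfl, Nat.cast_one]
        · rw [if_neg, if_neg hij, Nat.cast_zero]
          intro h3
          obtain ⟨hj', h4⟩ := (hxB j _).1 h3
          exact hij (congrArg Subtype.val (e.injective h4)).symm
      · intro k _ hk
        rw [if_neg, zero_mul]
        intro h3
        obtain ⟨hi', h4⟩ := (hxA i k).1 h3
        exact hk h4.symm
      · intro h3
        exact absurd (mem_univ _) h3
    · rw [eval_clause']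
      by_cases h3 : x (varA i j) = true
      · exact ⟨(varB j i, true), by simp, (hxB i j).2 ((hxA i j).1 h3)⟩
      · exact ⟨(varA i j, false), by simp, by simpa using h3⟩
    · rw [eval_clause']
      by_cases h3 : x (varB j i) = true
      · exact ⟨(varA i j, true), by simp, (hxA i j).2 ((hxB i j).1 h3)⟩
      · exact ⟨(varB j i, false), by simp, by simpa using h3⟩
  have h2 : ∀ i ∈ R, (Form.var (varA i (⟨0, hm⟩ : Fin m)) : Form (MVar M m)) ∈
      {ψ | ∃ a, ψ ∈ (L a).parts} ∨ (Form.var (varB (⟨0, hm⟩ : Fin m) i) : Form (MVar M m)) ∈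
      {ψ | ∃ a, ψ ∈ (L a).parts} := by
    intro i hi
    obtain ⟨j, ⟨a, ha⟩ | ⟨a, ha⟩⟩ := (hR i).1 hi
    · refine Or.inl ⟨a, parts_trans ?_ ha⟩
      have h3 : (Form.var (varA i (⟨0, hm⟩ : Fin m)) : Form (MVar M m)) ∈
          (conjL [.var (varA i ⟨0, hm⟩), .var (varB ⟨0, hm⟩ j)] : Form (MVar M m)).parts :=
        mem_parts_conjL (by simp)
      exact parts_trans h3 (Set.mem_insert_of_mem _ (Set.mem_iUnion.2 ⟨⟨0, hm⟩, self_mem_parts _⟩))
    · refine Or.inr ⟨a, parts_trans ?_ ha⟩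
      have h3 : (Form.var (varB (⟨0, hm⟩ : Fin m) i) : Form (MVar M m)) ∈
          (conjL [.var (varA j ⟨0, hm⟩), .var (varB ⟨0, hm⟩ i)] : Form (MVar M m)).parts :=
        mem_parts_conjL (by simp)
      exact parts_trans h3 (Set.mem_insert_of_mem _ (Set.mem_iUnion.2 ⟨⟨0, hm⟩, self_mem_parts _⟩))
  have h3 : R.card ≤ {ψ | ∃ a, ψ ∈ (L a).parts}.ncard := by
    rw [← Set.ncard_coe_finset]
    refine Set.ncard_le_ncard_of_injOn
      (fun i => if (Form.var (varA i (⟨0, hm⟩ : Fin m)) : Form (MVar M m)) ∈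
        {ψ | ∃ a, ψ ∈ (L a).parts} then Form.var (varA i ⟨0, hm⟩) else Form.var (varB ⟨0, hm⟩ i))
      ?_ ?_ (parts_set_finite L)
    · intro i hi
      by_cases h4 : (Form.var (varA i (⟨0, hm⟩ : Fin m)) : Form (MVar M m)) ∈
        {ψ | ∃ a, ψ ∈ (L a).parts}
      · simp only [if_pos h4]
        exact h4
      · simp only [if_neg h4]
        exact (h2 i hi).resolve_left h4
    · intro i _ j _ hij
      simp only at hij
      split_ifs at hij with h4 h5 h5
      · exact congrArg Prod.fst (Sum.inl.inj (Form.var.inj hij))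
      · exact absurd (Form.var.inj hij) (by unfold varA varB; simp)
      · exact absurd (Form.var.inj hij) (by unfold varA varB; simp)
      · exact congrArg Prod.snd (Sum.inr.inj (Form.var.inj hij))
  have h4 : 1 ≤ l := Nat.one_le_iff_ne_zero.2 fun h => by subst h; exact i₀.elim0
  unfold size
  omega

/-- The trivial bound. -/
theorem size_infers {p : ℕ} {S : Set Rule} (hS : ∀ R ∈ S, R.Sound p) {d l : ℕ}
    {L : Fin l → Form (MVar M m)} (hm : 0 < m) (hmM : m ≤ M) (hL : Infers S d L) :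
    m + 1 ≤ size L := by
  rcases hL with ⟨hL, i₀, hfl | ⟨i, j, hij⟩⟩ |
    ⟨hL, i₀, Λ, hΛ, h | ⟨Λ', ⟨ψ, hψ, hfl | ⟨i, j, hij⟩⟩, h⟩⟩
  · refine size_rows i₀ hm p fun x hx => ?_
    have h1 := holds_lines hS hL (x := x) (fun i hi => hx _ hi ⟨i, self_mem_parts _⟩) i₀
    rw [hfl] at h1
    obtain ⟨a, -⟩ := h1
    exact a.elim0
  · have := size_concl (L := L) (i₀ := i₀) (i := i) (j := j) (by rw [hij]; exact self_mem_parts _)
    omega
  · refine size_rows i₀ hm p fun x hx => ?_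
    have h1 := holds_lines hS hL (x := x) (fun i hi => absurd hi (Set.notMem_empty _)) i₀
    rw [h] at h1
    refine h1 ((eval_conjL x Λ).2 fun φ hφ => hx φ (hΛ φ hφ) ⟨i₀, ?_⟩)
    rw [h]
    exact Set.mem_insert_of_mem _ (mem_parts_conjL hφ)
  · refine size_rows i₀ hm p fun x hx => ?_
    have h1 := holds_lines hS hL (x := x) (fun i hi => absurd hi (Set.notMem_empty _)) i₀
    rw [h, eval_disjL] at h1
    obtain ⟨χ, hχ, h2⟩ := h1
    simp only [List.mem_cons, List.not_mem_nil, or_false] at hχ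
    rcases hχ with rfl | rfl
    · refine h2 ((eval_conjL x Λ).2 fun φ hφ => hx φ (hΛ φ hφ) ⟨i₀, ?_⟩)
      rw [h]
      have h4 : φ ∈ (Form.neg (conjL Λ)).parts := Set.mem_insert_of_mem _ (mem_parts_conjL hφ)
      exact parts_trans h4 (mem_parts_disjL (by simp))
    · have h3 := (eval_conjL x Λ').1 h2 ψ hψ
      rw [hfl] at h3
      obtain ⟨a, -⟩ := h3
      exact a.elim0
  · have := size_concl (L := L) (i₀ := i₀) (i := i) (j := j) (by
      rw [h, ← hij]
      exact parts_trans (mem_parts_conjL hψ) (mem_parts_disjL (by simp)))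
    omega

/-! ### The lower bound -/

theorem hyps_not_conj {φ : Form (MVar M m)} (h : φ ∈ hyps M m) : ¬ φ.IsConj := by
  rcases h with ⟨i, j, rfl⟩ | ⟨i, j, rfl | rfl⟩ <;> exact id

theorem concls_not_conj {φ : Form (MVar M m)} (h : φ ∈ concls M m) : ¬ φ.IsConj := by
  rcases h with rfl | ⟨i, j, rfl⟩ <;> exact id

/-- The lower bound from `k` copies of one world. -/
theorem mi_copies (p : ℕ) [Fact p.Prime] {S : Set Rule} (hS : S.Finite)
    (hsound : ∀ R ∈ S, R.Sound p) :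
    ∃ c : ℝ, 0 < c ∧ ∃ n₀ : ℕ, ∀ n ≥ n₀, ∀ k m M : ℕ, 1 ≤ k → k * (n + 1) ≤ M → M < m + k →
      n ≤ m → m ≤ M → ∀ (d l : ℕ) (L : Fin l → Form (MVar M m)),
      Infers S d L → Real.exp (c * (n : ℝ) ^ (c / (d + 1))) ≤ size L := by
  obtain ⟨c₀, hc₀, n₁, hn₁⟩ := php_numbers p
  obtain ⟨c, hc, n₂, hn₂⟩ := world_gen (ZMod p) p hc₀ (E := 2) (by norm_num) 2 hS hsound
  refine ⟨c, hc, max n₁ (max n₂ (2 * (p + 1))), fun n hn k m M hk hkM hMm hnm hmM d l L hL => ?_⟩
  have hn1 : n₁ ≤ n := (le_max_left _ _).trans hn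
  have hn2 : n₂ ≤ n := (le_max_left _ _).trans ((le_max_right _ _).trans hn)
  have hn3 : 2 * (p + 1) ≤ n := (le_max_right _ _).trans ((le_max_right _ _).trans hn)
  obtain ⟨A, b, D₀, τ, C, Ω, hbn, hnb, hB, hC1, hCn, hΩ, hpos, hτ, hAn⟩ := hn₁ n hn1
  obtain ⟨r, hr⟩ : ∃ r, M = k * (n + 1) + r := ⟨M - k * (n + 1), by omega⟩
  obtain ⟨e⟩ : Nonempty (Fin M ≃ (Fin k × Fin (n + 1)) ⊕ Fin r) := by
    refine ⟨Fintype.equivOfCardEq ?_⟩
    rw [Fintype.card_fin, Fintype.card_sum, Fintype.card_prod, Fintype.card_fin, Fintype.card_fin,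
      Fintype.card_fin, hr]
  have hsl := slots_copies (K := ZMod p) (b := b) e
  have hcard : Fintype.card ((Fin k × Fin b) ⊕ Fin r) = k * b + r := by
    rw [Fintype.card_sum, Fintype.card_prod, Fintype.card_fin, Fintype.card_fin, Fintype.card_fin]
  have hkb : k * b + k ≤ k * (n + 1) := by
    calc k * b + k = k * (b + 1) := by ring
      _ ≤ k * (n + 1) := Nat.mul_le_mul_left k (by omega)
  have hbk : b ≤ k * b := Nat.le_mul_of_pos_left b hk
  have hsz := size_infers hsound (by omega) hmM hL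
  -- the world in which a given conclusion fails
  have hworld : ∀ ψ ∈ concls M m, ∃ P : (Fin k × Fin b) ⊕ Fin r → Fin m → Prop,
      (∀ t t', ∑ k, ind (ZMod p) (P t k) * ind (ZMod p) (P t' k) = ind (ZMod p) (t = t')) ∧
      ∀ (κ : ℕ) (Z : ℕ → Submodule (ZMod p) (Fun (ZMod p) (MVar M m)))
        (H : List (Fun (ZMod p) (MVar M m)) → Fun (ZMod p) (MVar M m)),
        Env (fun a => FF (ZMod p) (n + 1) b (D₀ + a)) (fun a => YY (ZMod p) (n + 1) b (D₀ + a))
          (pullMul (ZMod p) (rhoM (fun x i t => AtC x (e i) t) P)) A κ d Z H ψ →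
        pv H ψ ∈ Z (4 * deg (ZMod p) κ (d + 1)) := by
    intro ψ hψ
    rcases hψ with rfl | ⟨i, j, rfl⟩
    · obtain ⟨P, hP1, -⟩ := exists_matrix (p := p) hcard (N := m) (by omega) (by omega)
        (⟨0, by omega⟩ : Fin m) ⟨0, by omega⟩
      refine ⟨P, hP1, fun κ Z H hE => ?_⟩
      have h4 : pv H (falsum : Form (MVar M m)) = 1 - H [] := rfl
      rw [h4, hE.choice.nil, sub_self]
      exact (Z _).zero_mem
    · obtain ⟨P, hP1, hP2⟩ := exists_matrix (p := p) hcard (N := m) (by omega) (by omega) i j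
      exact ⟨P, hP1, fun κ Z H hE => entryBA_false hsl hP2 Z H hE⟩
  have hworld0 : ∃ P : (Fin k × Fin b) ⊕ Fin r → Fin m → Prop,
      ∀ t t', ∑ k, ind (ZMod p) (P t k) * ind (ZMod p) (P t' k) = ind (ZMod p) (t = t') := by
    obtain ⟨P, hP1, -⟩ := exists_matrix (p := p) hcard (N := m) (by omega) (by omega)
      (⟨0, by omega⟩ : Fin m) ⟨0, by omega⟩
    exact ⟨P, hP1⟩
  rcases hL with ⟨hL, i₀, hi₀⟩ | ⟨hL, i₀, Λ, hΛ, h | ⟨Λ', ⟨ψ, hψ, hψc⟩, h⟩⟩
  · obtain ⟨P, hP1, hP2⟩ := hworld _ hi₀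
    refine hn₂ n hn2 (MVar M m) (Pt (n + 1) b → ZMod p)
      (fun a => FF (ZMod p) (n + 1) b (D₀ + a)) (fun a => YY (ZMod p) (n + 1) b (D₀ + a))
      (pullMul (ZMod p) (rhoM (fun x i t => AtC x (e i) t) P)) A τ C Ω (mi_world hsl P D₀) hB hC1
      hCn hΩ hpos hτ hAn d l (hyps M m) L ?_ ?_ hL (by omega) (by omega)
    · intro κ hκ φ hφ
      exact hyps_true hsl hP1 hκ hφ
    · intro κ hκ
      refine ⟨i₀, fun Z H hE => ?_⟩
      exact hE.kill.up (hP2 κ Z H hE) (by omega)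
  · obtain ⟨P, hP1⟩ := hworld0
    refine hn₂ n hn2 (MVar M m) (Pt (n + 1) b → ZMod p)
      (fun a => FF (ZMod p) (n + 1) b (D₀ + a)) (fun a => YY (ZMod p) (n + 1) b (D₀ + a))
      (pullMul (ZMod p) (rhoM (fun x i t => AtC x (e i) t) P)) A τ C Ω (mi_world hsl P D₀) hB hC1
      hCn hΩ hpos hτ hAn d l ∅ L ?_ ?_ hL (by omega) (by omega)
    · intro κ _ φ hφ
      exact absurd hφ (Set.notMem_empty φ)
    · intro κ hκ
      refine ⟨i₀, ?_⟩
      rw [h]
      exact falseIn_neg (trueIn_conjL (fun φ hφ => hyps_not_conj (hΛ φ hφ))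
        (fun φ hφ => hyps_true hsl hP1 hκ (hΛ φ hφ)) (by omega))
  · obtain ⟨P, hP1, hP2⟩ := hworld _ hψc
    refine hn₂ n hn2 (MVar M m) (Pt (n + 1) b → ZMod p)
      (fun a => FF (ZMod p) (n + 1) b (D₀ + a)) (fun a => YY (ZMod p) (n + 1) b (D₀ + a))
      (pullMul (ZMod p) (rhoM (fun x i t => AtC x (e i) t) P)) A τ C Ω (mi_world hsl P D₀) hB hC1
      hCn hΩ hpos hτ hAn d l ∅ L ?_ ?_ hL (by omega) (by omega)
    · intro κ _ φ hφ
      exact absurd hφ (Set.notMem_empty φ)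
    · intro κ hκ
      refine ⟨i₀, ?_⟩
      rw [h]
      exact falseIn_disj (fun φ hφ => ⟨hyps_not_conj (hΛ φ hφ),
        hyps_true hsl hP1 hκ (hΛ φ hφ)⟩) hψ (concls_not_conj hψc) (hP2 κ) (by omega)

/-- The matrix identity and the rank principle are exponentially hard for Frege systems of
constant depth with counting gates modulo `p`. -/
theorem mi_hard (p : ℕ) [Fact p.Prime] {S : Set Rule} (hS : S.Finite)
    (hsound : ∀ R ∈ S, R.Sound p) {δ : ℝ} (hδ : 0 < δ) :
    ∃ c : ℝ, 0 < c ∧ ∃ m₀ : ℕ, ∀ m ≥ m₀, ∀ M : ℕ, m ≤ M → (M : ℝ) ≤ m + (m : ℝ) ^ (1 - δ) →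
      ∀ (d l : ℕ) (L : Fin l → Form (MVar M m)), Infers S d L →
      Real.exp (c * (m : ℝ) ^ (c / (d + 1))) ≤ size L := by
  obtain ⟨c, hc, n₀, h⟩ := mi_copies p hS hsound
  -- the exponents
  obtain ⟨ε, hε⟩ : ∃ ε : ℝ, ε = min δ (1 / 2) / 2 := ⟨_, rfl⟩
  have hε0 : 0 < ε := by
    rw [hε]
    have : 0 < min δ (1 / 2) := lt_min hδ (by norm_num)
    linarith
  have hεδ : 2 * ε ≤ δ := by
    rw [hε]
    have := min_le_left δ (1 / 2)
    linarith
  have hε1 : 2 * ε ≤ 1 / 2 := by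
    rw [hε]
    have := min_le_right δ (1 / 2)
    linarith
  have tend : ∀ {a : ℝ}, 0 < a → ∀ B : ℝ, ∀ᶠ x : ℝ in Filter.atTop, B ≤ x ^ a := by
    intro a ha B
    exact (tendsto_rpow_atTop ha).eventually_ge_atTop B
  obtain ⟨x₀, hx₀⟩ := Filter.eventually_atTop.1
    ((tend hε0 ((n₀ : ℝ) + 1)).and ((tend hε0 8).and ((tend (show 0 < ε / 2 by linarith) 2).and
      (Filter.eventually_ge_atTop (1 : ℝ)))))
  refine ⟨c * (ε / 2) / (1 + ε), by positivity, ⌈x₀⌉₊, fun m hm M hM hM' d l L hL => ?_⟩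
  obtain ⟨h1, h2, h3, h4⟩ := hx₀ m ((Nat.le_ceil _).trans (by exact_mod_cast hm))
  have hm0 : (0 : ℝ) < m := by linarith
  obtain ⟨n, hn⟩ : ∃ n : ℕ, n = ⌊(m : ℝ) ^ ε⌋₊ := ⟨_, rfl⟩
  have hn1 : (n : ℝ) ≤ (m : ℝ) ^ ε := by
    rw [hn]
    exact Nat.floor_le (by positivity)
  have hn2 : (m : ℝ) ^ ε < n + 1 := by
    rw [hn]
    exact Nat.lt_floor_add_one _
  have hnn₀ : n₀ ≤ n := by
    have : (n₀ : ℝ) < n + 1 := by linarith
    have : n₀ < n + 1 := by exact_mod_cast this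
    omega
  have hn7 : (7 : ℝ) < n := by linarith
  have hn0 : 0 < n := by
    have : (0 : ℝ) < n := by linarith
    exact_mod_cast this
  have hn0' : (0 : ℝ) < (n : ℝ) + 1 := by positivity
  have hnε : (n : ℝ) + 1 ≤ 2 * (m : ℝ) ^ ε := by linarith
  -- `m ^ ε ≤ m / 4`
  have hmε : (m : ℝ) ^ ε * 8 ≤ m := by
    calc (m : ℝ) ^ ε * 8 ≤ (m : ℝ) ^ ε * (m : ℝ) ^ ε := mul_le_mul_of_nonneg_left h2 (by positivity)
      _ = (m : ℝ) ^ (2 * ε) := by
        rw [← Real.rpow_add hm0]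
        congr 1
        ring
      _ ≤ (m : ℝ) ^ (1 : ℝ) := Real.rpow_le_rpow_of_exponent_le h4 (by linarith)
      _ = m := Real.rpow_one _
  have hnm : n ≤ m := by
    have h5 : (n : ℝ) ≤ m := by linarith
    exact_mod_cast h5
  obtain ⟨k, hk⟩ : ∃ k : ℕ, k = m / (n + 1) := ⟨_, rfl⟩
  have hkn : k * (n + 1) ≤ m := by
    rw [hk]
    exact Nat.div_mul_le_self m (n + 1)
  have hk2 : (m : ℝ) / ((n : ℝ) + 1) < k + 1 := by
    rw [div_lt_iff₀ hn0']
    have h5 : m < (k + 1) * (n + 1) := by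
      rw [hk, mul_comm]
      exact Nat.lt_mul_div_succ m (Nat.succ_pos n)
    exact_mod_cast h5
  -- `m ^ (1 - ε) / 2 ≤ m / (n + 1)`
  have h5 : (m : ℝ) ^ (1 - ε) ≤ 2 * ((m : ℝ) / ((n : ℝ) + 1)) := by
    rw [← mul_div_assoc, le_div_iff₀ hn0']
    calc (m : ℝ) ^ (1 - ε) * ((n : ℝ) + 1) ≤ (m : ℝ) ^ (1 - ε) * (2 * (m : ℝ) ^ ε) :=
          mul_le_mul_of_nonneg_left hnε (by positivity)
      _ = 2 * ((m : ℝ) ^ (1 - ε) * (m : ℝ) ^ ε) := by ring
      _ = 2 * m := by
        rw [← Real.rpow_add hm0]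
        simp
  have h6 : (m : ℝ) ^ (1 - δ) ≤ (m : ℝ) ^ (1 - 2 * ε) :=
    Real.rpow_le_rpow_of_exponent_le h4 (by linarith)
  have h7 : 8 * (m : ℝ) ^ (1 - 2 * ε) ≤ (m : ℝ) ^ (1 - ε) := by
    calc 8 * (m : ℝ) ^ (1 - 2 * ε) ≤ (m : ℝ) ^ ε * (m : ℝ) ^ (1 - 2 * ε) :=
          mul_le_mul_of_nonneg_right h2 (by positivity)
      _ = (m : ℝ) ^ (1 - ε) := by
        rw [← Real.rpow_add hm0]
        congr 1
        ring
  have h8 : 1 ≤ (m : ℝ) ^ (1 - 2 * ε) := Real.one_le_rpow h4 (by linarith)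
  have hMk : M < m + k := by
    have h9 : (M : ℝ) < m + k := by linarith
    exact_mod_cast h9
  have hk1 : 1 ≤ k := by
    have h9 : (0 : ℝ) < k := by linarith
    exact_mod_cast h9
  have hfin := h n hnn₀ k m M hk1 (hkn.trans hM) hMk hnm hM d l L hL
  refine le_trans (Real.exp_le_exp.2 ?_) hfin
  have hd0 : (0 : ℝ) < (d : ℝ) + 1 := by positivity
  have hmn : (m : ℝ) ^ (ε / 2) ≤ n := by
    have h5 : 2 * (m : ℝ) ^ (ε / 2) ≤ (m : ℝ) ^ ε := by
      calc 2 * (m : ℝ) ^ (ε / 2) ≤ (m : ℝ) ^ (ε / 2) * (m : ℝ) ^ (ε / 2) :=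
            mul_le_mul_of_nonneg_right h3 (by positivity)
        _ = (m : ℝ) ^ ε := by
          rw [← Real.rpow_add hm0]
          congr 1
          ring
    have h6 : 1 ≤ (m : ℝ) ^ (ε / 2) := Real.one_le_rpow h4 (by linarith)
    linarith
  have hc1 : c * (ε / 2) / (1 + ε) ≤ c := by
    rw [div_le_iff₀ (by linarith)]
    nlinarith
  have hc2 : c * (ε / 2) / (1 + ε) ≤ c * (ε / 2) := by
    apply div_le_self (by positivity)
    linarith
  calc c * (ε / 2) / (1 + ε) * (m : ℝ) ^ (c * (ε / 2) / (1 + ε) / (d + 1)) ≤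
        c * (m : ℝ) ^ (c * (ε / 2) / (d + 1)) := by
        refine mul_le_mul hc1 (Real.rpow_le_rpow_of_exponent_le h4
          (div_le_div_of_nonneg_right hc2 hd0.le)) (by positivity) hc.le
    _ = c * ((m : ℝ) ^ (ε / 2)) ^ (c / (d + 1)) := by
        rw [← Real.rpow_mul hm0.le]
        congr 2
        ring
    _ ≤ c * (n : ℝ) ^ (c / (d + 1)) :=
        mul_le_mul_of_nonneg_left (Real.rpow_le_rpow (by positivity) hmn (by positivity)) hc.le

end Pool.Agent.MP_9cec2c_lc.MI
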