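import Mathlib

/-!
A `b × N` matrix `P` of zeros and ones with `P Pᵀ = I` modulo `p` such that a given entry of `Pᵀ P`
differs from the entry of the identity matrix modulo `p`. The rows are indexed by a type with `b`
elements.
-/

set_option autoImplicit false
set_option linter.unusedSectionVars false

namespace Pool.Agent.MP_9cec2c_lc.MI

open Finset

/-- The indicator of a proposition. -/
noncomputable def ind (K : Type) [Field K] (a : Prop) : K := by
  classical exact if a then 1 else 0

theorem ind_of {K : Type} [Field K] {a : Prop} (h : a) : ind K a = 1 := by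
  unfold ind
  exact if_pos h

theorem ind_not {K : Type} [Field K] {a : Prop} (h : ¬ a) : ind K a = 0 := by
  unfold ind
  exact if_neg h

theorem sum_ind_eq {K : Type} [Field K] {α : Type} [Fintype α] (a : α) :
    ∑ k, ind K (k = a) = 1 := by
  classical
  rw [sum_eq_single a]
  · exact ind_of rfl
  · intro k _ hk
    exact ind_not hk
  · intro h
    exact absurd (mem_univ a) h

theorem sum_ind_mul {K : Type} [Field K] {α : Type} [Fintype α] (a : α) (f : α → K) :
    ∑ k, ind K (k = a) * f k = f a := by
  classical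
  rw [sum_eq_single a]
  · rw [ind_of rfl, one_mul]
  · intro k _ hk
    rw [ind_not hk, zero_mul]
  · intro h
    exact absurd (mem_univ a) h

theorem sum_ind_mem {K : Type} [Field K] {α : Type} [Fintype α] (T : Finset α) :
    ∑ k, ind K (k ∈ T) = (T.card : K) := by
  classical
  have h1 : ∀ k, ind K (k ∈ T) = if k ∈ T then 1 else 0 := by
    intro k
    by_cases h : k ∈ T
    · rw [if_pos h, ind_of h]
    · rw [if_neg h, ind_not h]
  rw [sum_congr rfl fun k _ => h1 k, sum_ite_mem, univ_inter, sum_const, nsmul_eq_mul, mul_one]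

theorem exists_matrix {p : ℕ} [Fact p.Prime] {T₀ : Type} [Fintype T₀] {b N : ℕ}
    (hT₀ : Fintype.card T₀ = b) (hb : p + 1 ≤ b) (hbN : b < N)
    (j j' : Fin N) : ∃ P : T₀ → Fin N → Prop,
      (∀ h h', ∑ k, ind (ZMod p) (P h k) * ind (ZMod p) (P h' k) = ind (ZMod p) (h = h')) ∧
      ∑ h, ind (ZMod p) (P h j) * ind (ZMod p) (P h j') ≠ ind (ZMod p) (j = j') := by
  classical
  have hp : p.Prime := Fact.out
  by_cases hj : j = j'
  · -- an embedding that avoids `j`
    have h1 : b ≤ (univ.erase j : Finset (Fin N)).card := by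
      rw [card_erase_of_mem (mem_univ _), card_univ, Fintype.card_fin]
      omega
    obtain ⟨R, hR, hRb⟩ := exists_subset_card_eq h1
    obtain ⟨e⟩ : Nonempty (T₀ ≃ R) :=
      ⟨Fintype.equivOfCardEq (by rw [hT₀, Fintype.card_coe, hRb])⟩
    refine ⟨fun h k => k = (e h).1, ?_, ?_⟩
    · intro h h'
      rw [sum_ind_mul]
      by_cases hh : h = h'
      · rw [hh, ind_of rfl, ind_of rfl]
      · rw [ind_not hh, ind_not]
        intro h2
        exact hh (e.injective (Subtype.ext h2))
    · rw [sum_eq_zero, ind_of hj]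
      · exact zero_ne_one
      · intro h _
        rw [ind_not, zero_mul]
        intro h2
        have h3 := hR (e h).2
        rw [← h2] at h3
        exact absurd rfl (mem_erase.1 h3).1
  · -- a block `J - I`
    obtain ⟨T, hT1, -, hT⟩ := exists_subsuperset_card_eq (n := p + 2)
      (subset_univ ({j, j'} : Finset (Fin N))) (by rw [card_pair hj]; omega)
      (by rw [card_univ, Fintype.card_fin]; omega)
    have hjT : j ∈ T := hT1 (by simp)
    have hjT' : j' ∈ T := hT1 (by simp)
    obtain ⟨j₀, hj₀⟩ : ∃ j₀, j₀ ∈ T \ {j, j'} := by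
      refine card_pos.1 ?_
      rw [card_sdiff_of_subset hT1, card_pair hj, hT]
      have := hp.two_le
      omega
    obtain ⟨hj₀T, hj₀n⟩ := mem_sdiff.1 hj₀
    simp only [mem_insert, mem_singleton, not_or] at hj₀n
    have hcT : (T.erase j₀).card = p + 1 := by
      rw [card_erase_of_mem hj₀T, hT]
      rfl
    obtain ⟨R, hR1, hR2, hRb⟩ := exists_subsuperset_card_eq (n := b)
      (s := T.erase j₀) (t := univ.erase j₀) (erase_subset_erase _ (subset_univ T))
      (by rw [hcT]; exact hb)
      (by rw [card_erase_of_mem (mem_univ _), card_univ, Fintype.card_fin]; omega)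
    obtain ⟨e⟩ : Nonempty (T₀ ≃ R) :=
      ⟨Fintype.equivOfCardEq (by rw [hT₀, Fintype.card_coe, hRb])⟩
    obtain ⟨ι, hι⟩ : ∃ ι : T₀ → Fin N, ∀ h, ι h = (e h).1 := ⟨fun h => (e h).1, fun _ => rfl⟩
    have hinj : ∀ h h', ι h = ι h' → h = h' := by
      intro h h' hh
      rw [hι, hι] at hh
      exact e.injective (Subtype.ext hh)
    have hιR : ∀ h, ι h ∈ R := fun h => hι h ▸ (e h).2
    have hsurj : ∀ k ∈ R, ∃ h, ι h = k := by
      intro k hk
      refine ⟨e.symm ⟨k, hk⟩, ?_⟩
      rw [hι, Equiv.apply_symm_apply]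
    have hne : ∀ h, ι h ≠ j₀ := fun h => (mem_erase.1 (hR2 (hιR h))).1
    obtain ⟨P, hP⟩ : ∃ P : T₀ → Fin N → Prop, ∀ h k, P h k ↔
        ((ι h ∈ T ∧ k ∈ T ∧ k ≠ ι h) ∨ (ι h ∉ T ∧ k = ι h)) := ⟨_, fun _ _ => Iff.rfl⟩
    have hP1 : ∀ h, ι h ∈ T → ∀ k, ind (ZMod p) (P h k) =
        ind (ZMod p) (k ∈ T) - ind (ZMod p) (k = ι h) := by
      intro h hh k
      by_cases hk : k = ι h
      · have h1 : ¬ P h k := by
          rw [hP]
          rintro (h2 | h2)
          · exact h2.2.2 hk
          · exact h2.1 hh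
        rw [ind_not h1, ind_of hk, ind_of (hk ▸ hh), sub_self]
      · by_cases hkT : k ∈ T
        · rw [ind_of ((hP h k).2 (Or.inl ⟨hh, hkT, hk⟩)), ind_of hkT, ind_not hk, sub_zero]
        · have h1 : ¬ P h k := by
            rw [hP]
            rintro (h2 | h2)
            · exact hkT h2.2.1
            · exact h2.1 hh
          rw [ind_not h1, ind_not hkT, ind_not hk, sub_zero]
    have hP2 : ∀ h, ι h ∉ T → ∀ k, ind (ZMod p) (P h k) = ind (ZMod p) (k = ι h) := by
      intro h hh k
      by_cases hk : k = ι h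
      · rw [ind_of hk, ind_of ((hP h k).2 (Or.inr ⟨hh, hk⟩))]
      · rw [ind_not hk, ind_not]
        rw [hP]
        rintro (h2 | h2)
        · exact hh h2.1
        · exact hk h2.2
    have hindh : ∀ h h', ind (ZMod p) (ι h = ι h') = ind (ZMod p) (h = h') := by
      intro h h'
      by_cases hh : h = h'
      · rw [hh, ind_of rfl, ind_of rfl]
      · rw [ind_not hh, ind_not fun h2 => hh (hinj _ _ h2)]
    refine ⟨P, ?_, ?_⟩
    · intro h h'
      by_cases h1 : ι h ∈ T
      · by_cases h2 : ι h' ∈ T
        · have h3 : ∀ k, ind (ZMod p) (P h k) * ind (ZMod p) (P h' k) =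
              ind (ZMod p) (k ∈ T) - ind (ZMod p) (k = ι h) * ind (ZMod p) (k ∈ T) -
                ind (ZMod p) (k = ι h') * ind (ZMod p) (k ∈ T) +
                ind (ZMod p) (k = ι h) * ind (ZMod p) (k = ι h') := by
            intro k
            rw [hP1 h h1, hP1 h' h2]
            have h4 : ind (ZMod p) (k ∈ T) * ind (ZMod p) (k ∈ T) = ind (ZMod p) (k ∈ T) := by
              by_cases h5 : k ∈ T
              · rw [ind_of h5, one_mul]
              · rw [ind_not h5, zero_mul]
            linear_combination h4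
          rw [sum_congr rfl fun k _ => h3 k, sum_add_distrib, sum_sub_distrib, sum_sub_distrib,
            sum_ind_mul, sum_ind_mul, sum_ind_mul, sum_ind_mem, hT, ind_of h1, ind_of h2, hindh]
          push_cast
          rw [CharP.cast_eq_zero]
          ring
        · have h3 : ∀ k, ind (ZMod p) (P h k) * ind (ZMod p) (P h' k) =
              ind (ZMod p) (k = ι h') * (ind (ZMod p) (k ∈ T) - ind (ZMod p) (k = ι h)) := by
            intro k
            rw [hP1 h h1, hP2 h' h2]
            ring
          have h4 : h ≠ h' := fun h4 => h2 (h4 ▸ h1)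
          rw [sum_congr rfl fun k _ => h3 k, sum_ind_mul, ind_not h2, hindh, ind_not h4.symm,
            ind_not h4, sub_zero]
      · by_cases h2 : ι h' ∈ T
        · have h3 : ∀ k, ind (ZMod p) (P h k) * ind (ZMod p) (P h' k) =
              ind (ZMod p) (k = ι h) * (ind (ZMod p) (k ∈ T) - ind (ZMod p) (k = ι h')) := by
            intro k
            rw [hP2 h h1, hP1 h' h2]
          have h4 : h ≠ h' := fun h4 => h1 (h4 ▸ h2)
          rw [sum_congr rfl fun k _ => h3 k, sum_ind_mul, ind_not h1, hindh, ind_not h4, sub_zero]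
        · have h3 : ∀ k, ind (ZMod p) (P h k) * ind (ZMod p) (P h' k) =
              ind (ZMod p) (k = ι h) * ind (ZMod p) (k = ι h') := by
            intro k
            rw [hP2 h h1, hP2 h' h2]
          rw [sum_congr rfl fun k _ => h3 k, sum_ind_mul, hindh]
    · have h1 : ∀ h, ind (ZMod p) (P h j) * ind (ZMod p) (P h j') =
          ind (ZMod p) (ι h ∈ T) - ind (ZMod p) (ι h = j) - ind (ZMod p) (ι h = j') := by
        intro h
        by_cases h2 : ι h ∈ T
        · rw [hP1 h h2, hP1 h h2, ind_of hjT, ind_of hjT', ind_of h2]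
          by_cases h3 : ι h = j
          · rw [ind_of h3.symm, ind_of h3, ind_not (fun h4 => hj (h3.symm.trans h4))]
            ring
          · rw [ind_not (fun h4 => h3 h4.symm), ind_not h3]
            by_cases h4 : ι h = j'
            · rw [ind_of h4.symm, ind_of h4]
              ring
            · rw [ind_not (fun h5 => h4 h5.symm), ind_not h4]
              ring
        · have h3 : ι h ≠ j := fun h4 => h2 (by rw [h4]; exact hjT)
          have h4 : ι h ≠ j' := fun h4 => h2 (by rw [h4]; exact hjT')
          rw [hP2 h h2, hP2 h h2, ind_not h2, ind_not h3, ind_not h4, ind_not h3.symm]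
          ring
      have hcard : ∑ h, ind (ZMod p) (ι h ∈ T) = ((p + 1 : ℕ) : ZMod p) := by
        have h2 : (univ.filter fun h => ι h ∈ T).card = p + 1 := by
          rw [← hcT]
          refine card_bij (fun h _ => ι h) ?_ ?_ ?_
          · intro h hh
            exact mem_erase.2 ⟨hne h, (mem_filter.1 hh).2⟩
          · intro h _ h' _ hh
            exact hinj h h' hh
          · intro k hk
            obtain ⟨h, hh⟩ := hsurj k (hR1 hk)
            exact ⟨h, mem_filter.2 ⟨mem_univ h, by rw [hh]; exact (mem_erase.1 hk).2⟩, hh⟩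
        rw [← h2, ← sum_ind_mem]
        refine sum_congr rfl fun h _ => ?_
        by_cases h3 : ι h ∈ T
        · rw [ind_of h3, ind_of (mem_filter.2 ⟨mem_univ h, h3⟩)]
        · have h4 : h ∉ univ.filter fun h => ι h ∈ T := fun h4 => h3 (mem_filter.1 h4).2
          rw [ind_not h3, ind_not h4]
      have hone : ∀ k ∈ R, ∑ h, ind (ZMod p) (ι h = k) = 1 := by
        intro k hk
        obtain ⟨h₀, hh₀⟩ := hsurj k hk
        rw [sum_congr rfl fun h _ => by rw [← hh₀, hindh], sum_ind_eq]
      have hjR : j ∈ R := hR1 (mem_erase.2 ⟨fun h => hj₀n.1 h.symm, hjT⟩)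
      have hjR' : j' ∈ R := hR1 (mem_erase.2 ⟨fun h => hj₀n.2 h.symm, hjT'⟩)
      rw [sum_congr rfl fun h _ => h1 h, sum_sub_distrib, sum_sub_distrib, hcard, hone j hjR,
        hone j' hjR', ind_not hj]
      push_cast
      rw [CharP.cast_eq_zero]
      simp

end Pool.Agent.MP_9cec2c_lc.MI
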