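import Pool.Agent.Lib.MP_9cec2c_lc.GWCount
import Pool.Agent.Lib.MP_9cec2c_lc.MIDefs

/-!
The values of the formulas for scalar products and of implications in a graded world.
-/

set_option autoImplicit false
set_option linter.unusedSectionVars false

namespace Pool.Agent.MP_9cec2c_lc.GW

open Finset Frege FG MI

variable {K V W : Type} [Field K] [AddCommGroup W] [Module K W] [Fintype K]
  {M N : ℕ → Submodule K W} {act : Fun K V →ₗ[K] W →ₗ[K] W} {A k d w : ℕ}
  {Z : ℕ → Submodule K (Fun K V)} {H : List (Fun K V) → Fun K V}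

theorem one_le_deg (hk : 1 ≤ k) (d : ℕ) : 1 ≤ deg K k d :=
  Nat.one_le_iff_ne_zero.2 (pow_ne_zero _ (Nat.mul_pos hk card_sub_pos).ne')

theorem sat_apply_or (l : V × Bool) (x : V → Bool) : sat K l x = 0 ∨ sat K l x = 1 := by
  unfold sat
  by_cases h : x l.1 = l.2
  · exact Or.inr (if_pos h)
  · exact Or.inl (if_neg h)

/-- The value of the conjunction of two variables. -/
theorem pair_value (u v : V) (hE : Env M N act A k d Z H (conjL [.var u, .var v])) :
    pv H (conjL [.var u, .var v]) - sat K (u, true) * sat K (v, true) ∈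
      Z (2 * deg K k (d + 1) + 1) := by
  obtain ⟨L, hL⟩ : ∃ L, L = (andl H (conjL [.var u, .var v])).map (1 - ·) := ⟨_, rfl⟩
  have h1 : pv H (conjL [.var u, .var v]) = H L := by
    rw [hL]
    exact pv_of_conj trivial
  have hmem : ∀ g, g ∈ L ↔ g = 1 - sat K (u, true) ∨ g = 1 - sat K (v, true) := by
    intro g
    rw [hL, andl_conjL]
    constructor
    · rintro ⟨φ, hφ, hg⟩
      simp only [List.mem_cons, List.not_mem_nil, or_false] at hφ
      rcases hφ with rfl | rfl
      · rw [andl_of_not (show ¬ (Form.var u).IsConj from id), pv_var] at hg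
        exact Or.inl (List.mem_singleton.1 hg)
      · rw [andl_of_not (show ¬ (Form.var v).IsConj from id), pv_var] at hg
        exact Or.inr (List.mem_singleton.1 hg)
    · rintro (rfl | rfl)
      · refine ⟨.var u, by simp, ?_⟩
        rw [andl_of_not (show ¬ (Form.var u).IsConj from id), pv_var]
        exact List.mem_singleton.2 rfl
      · refine ⟨.var v, by simp, ?_⟩
        rw [andl_of_not (show ¬ (Form.var v).IsConj from id), pv_var]
        exact List.mem_singleton.2 rfl
  have hbin : ∀ g ∈ L, Bin g := by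
    rw [hL]
    exact andl_bin hE.choice _
  have hcl := (hE.clean _ (self_mem_parts _)).2 trivial
  rw [← hL] at hcl
  have h2 := hcl _ ((hmem _).2 (Or.inl rfl))
  have h3 := hcl _ ((hmem _).2 (Or.inr rfl))
  have h4 : sat K (u, true) * sat K (v, true) * (1 - H L) = 0 := by
    funext x
    rw [Pi.mul_apply, Pi.mul_apply, Pi.sub_apply, Pi.one_apply, Pi.zero_apply]
    rcases sat_apply_or (K := K) (u, true) x with h5 | h5
    · rw [h5, zero_mul, zero_mul]
    · rcases sat_apply_or (K := K) (v, true) x with h6 | h6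
      · rw [h6, mul_zero, zero_mul]
      · rw [hE.choice.apply_eq_one hbin (fun g hg => ?_), sub_self, mul_zero]
        rcases (hmem g).1 hg with rfl | rfl
        · rw [Pi.sub_apply, Pi.one_apply, h5, sub_self]
        · rw [Pi.sub_apply, Pi.one_apply, h6, sub_self]
  have h5 : pv H (conjL [.var u, .var v]) - sat K (u, true) * sat K (v, true) =
      (1 - sat K (u, true)) * H L + sat K (u, true) * ((1 - sat K (v, true)) * H L) := by
    rw [h1]
    linear_combination (-1 : Fun K V) * h4
  rw [h5]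
  refine (Z _).add_mem (hE.kill.up h2 (Nat.le_succ _)) (hE.kill.mulle (sat_mem _) h3 ?_)
  omega

/-- The value of the formula for a scalar product which is, up to zero, a constant. -/
theorem dot_value {r n : ℕ} {u v : Fin n → V} {s : K}
    (hE : Env M N act A k d Z H (dotEq r n u v))
    (h0 : ∀ f ∈ M 0, act (∑ i, sat K (u i, true) * sat K (v i, true) - s • (1 : Fun K V)) f ∈
      N 2) :
    (s = (r : K) → 1 - pv H (dotEq r n u v) ∈ Z (4 * deg K k (d + 1))) ∧
      (s ≠ (r : K) → pv H (dotEq r n u v) ∈ Z (4 * deg K k (d + 1))) := by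
  have hd1 := one_le_deg (K := K) hE.pos (d + 1)
  unfold dotEq at hE ⊢
  have hpart : ∀ i : Fin n, conjL [.var (u i), .var (v i)] ∈
      (Form.count r n fun k => conjL [.var (u k), .var (v k)]).parts := fun i =>
    Set.mem_insert_of_mem _ (Set.mem_iUnion.2 ⟨i, self_mem_parts _⟩)
  have hp1 : ∀ i, pv H (conjL [.var (u i), .var (v i)]) ∈ Pol K V (deg K k d) := fun i =>
    pv_mem hE.choice hE.pos ((depth_parts (hpart i)).trans hE.depth)
  have hp2 : ∀ i, pv H (conjL [.var (u i), .var (v i)]) -
      sat K (u i, true) * sat K (v i, true) ∈ Z (2 * deg K k (d + 1) + 1) := fun i =>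
    pair_value (u i) (v i) (hE.part (hpart i))
  have hp3 : ∑ i, sat K (u i, true) * sat K (v i, true) - s • (1 : Fun K V) ∈ Pol K V 2 := by
    refine Submodule.sub_mem _ (Submodule.sum_mem _ fun i _ => ?_)
      (Submodule.smul_mem _ _ (Frege.one_mem _))
    exact Pol_mono (show 1 + 1 ≤ 2 from le_rfl)
      (Frege.mul_mem (sat_mem (K := K) (u i, true)) (sat_mem (K := K) (v i, true)))
  have hp4 : ∑ i, sat K (u i, true) * sat K (v i, true) - s • (1 : Fun K V) ∈
      Z (2 * deg K k (d + 1) + 1) := hE.kill.up (hE.zero 2 _ hp3 h0) (by omega)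
  have h3 : (Fintype.card K - 1 - 1) * deg K k d ≤ deg K k (d + 1) := by
    rw [deg_succ]
    refine Nat.mul_le_mul_right _ ?_
    calc Fintype.card K - 1 - 1 ≤ 1 * (Fintype.card K - 1) := by omega
      _ ≤ k * (Fintype.card K - 1) := Nat.mul_le_mul_right _ hE.pos
  have h2 : (Fintype.card K - 1 - 1) * deg K k d + (2 * deg K k (d + 1) + 1) ≤
      4 * deg K k (d + 1) := by
    generalize deg K k (d + 1) = T at h3 hd1 ⊢
    generalize (Fintype.card K - 1 - 1) * deg K k d = T' at h3 ⊢
    omega
  obtain ⟨h4, h5⟩ := count_value hE.kill (r := r) hp1 hp2 hp4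
  exact ⟨fun h => hE.kill.up (h4 h) h2, fun h => hE.kill.up (h5 h) h2⟩

/-- The value of an implication with true hypotheses and a false conclusion. -/
theorem falseIn_disj {Λ Λ' : List (Form V)} {φ : Form V}
    (hΛ : ∀ ψ ∈ Λ, ¬ ψ.IsConj ∧ TrueIn M N act A k d ψ) (hφ : φ ∈ Λ') (hn : ¬ φ.IsConj)
    (h : ∀ (Z : ℕ → Submodule K (Fun K V)) (H : List (Fun K V) → Fun K V),
      Env M N act A k d Z H φ → pv H φ ∈ Z (4 * deg K k (d + 1)))
    (hA : 6 * deg K k (d + 1) ≤ A) :
    FalseIn M N act A k d (disjL [.neg (conjL Λ), conjL Λ']) := by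
  refine falseIn_imp (trueIn_conjL (fun ψ hψ => (hΛ ψ hψ).1) (fun ψ hψ => (hΛ ψ hψ).2)
    (by omega)) (falseIn_conjL hφ hn h (by omega)) id ?_ hA
  intro Z H hE _
  exact conj_value hφ hn h hE (by omega)

end Pool.Agent.MP_9cec2c_lc.GW
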