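import Pool.Agent.Lib.MP_9cec2c_lc.MIVal
import Pool.Agent.Lib.MP_9cec2c_lc.MIMat
import Pool.Agent.Lib.MP_9cec2c_lc.Mg.G028
import Pool.Agent.Lib.MP_9cec2c_lc.Mg.G037
import Pool.Agent.Lib.MP_9cec2c_lc.Mg.G029

/-!
The world of the matrix identity: `A = X P` and `B = Aᵀ`, where `X` is the matrix of a matching of
the rows `Fin M` and a type `T` of slots in which all slots are used, and `P` is a `T × m` matrix of
zeros and ones with `P Pᵀ = I`.
-/

set_option autoImplicit false
set_option linter.unusedSectionVars false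

namespace Pool.Agent.MP_9cec2c_lc.MI

open Finset Frege FG GW PHS

/-- `At x i t` says that at the point `x` the row `i` has the slot `t`. -/
structure Slots (K : Type) [Field K] (N b M : ℕ) (T : Type) [Fintype T]
    (At : Pt N b → Fin M → T → Prop) : Prop where
  fn : ∀ x i t t', At x i t → At x i t' → t = t'
  inj : ∀ x i j t, At x i t → At x j t → i = j
  surj : ∀ x t, ∃ i, At x i t
  mem : ∀ i t, (fun x => ind K (At x i t)) ∈ FF K N b 1
  star : ∀ i, (fun x => 1 - ∑ t, ind K (At x i t)) ∈ YY K N b 1

variable {K : Type} [Field K] {N b M m : ℕ} {T : Type} [Fintype T]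
  {At : Pt N b → Fin M → T → Prop}

/-- The entry of the matrix `A = X P` is one. -/
def Ent (At : Pt N b → Fin M → T → Prop) (P : T → Fin m → Prop) (x : Pt N b) (i : Fin M)
    (k : Fin m) : Prop := ∃ t, At x i t ∧ P t k

/-- The assignment at a point. -/
noncomputable def rhoM (At : Pt N b → Fin M → T → Prop) (P : T → Fin m → Prop) (x : Pt N b) :
    MVar M m → Bool := by
  classical
  exact Sum.elim (fun v => decide (Ent At P x v.1 v.2)) fun v => decide (Ent At P x v.2 v.1)

theorem rhoM_A {P : T → Fin m → Prop} {x : Pt N b} {i : Fin M} {k : Fin m} :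
    rhoM At P x (varA i k) = true ↔ Ent At P x i k := by
  unfold rhoM varA
  simp

theorem rhoM_B {P : T → Fin m → Prop} {x : Pt N b} {i : Fin M} {k : Fin m} :
    rhoM At P x (varB k i) = true ↔ Ent At P x i k := by
  unfold rhoM varB
  simp

theorem ind_ent (hS : Slots K N b M T At) (P : T → Fin m → Prop) (x : Pt N b) (i : Fin M)
    (k : Fin m) : ind K (Ent At P x i k) = ∑ t, ind K (At x i t) * ind K (P t k) := by
  classical
  by_cases h : Ent At P x i k
  · obtain ⟨t, h1, h2⟩ := h
    rw [ind_of ⟨t, h1, h2⟩, sum_eq_single t]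
    · rw [ind_of h1, ind_of h2, one_mul]
    · intro t' _ ht
      rw [ind_not fun h3 => ht (hS.fn x i t' t h3 h1), zero_mul]
    · intro h3
      exact absurd (mem_univ t) h3
  · rw [ind_not h, sum_eq_zero]
    intro t _
    by_cases h1 : At x i t
    · rw [ind_not (a := P t k) fun h2 => h ⟨t, h1, h2⟩, mul_zero]
    · rw [ind_not h1, zero_mul]

theorem ind_ent_mem (hS : Slots K N b M T At) (P : T → Fin m → Prop) (i : Fin M) (k : Fin m) :
    (fun x : Pt N b => ind K (Ent At P x i k)) ∈ FF K N b 1 := by
  have h1 : (fun x : Pt N b => ind K (Ent At P x i k)) =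
      ∑ t : T, ind K (P t k) • fun x : Pt N b => ind K (At x i t) := by
    funext x
    rw [Finset.sum_apply, ind_ent hS]
    refine sum_congr rfl fun t _ => ?_
    rw [Pi.smul_apply, smul_eq_mul, mul_comm]
  rw [h1]
  exact Submodule.sum_mem _ fun t _ => Submodule.smul_mem _ _ (hS.mem i t)

theorem rhoM_var (hS : Slots K N b M T At) (P : T → Fin m → Prop) (v : MVar M m) :
    (fun x : Pt N b => if rhoM At P x v = true then (1 : K) else 0) ∈ FF K N b 1 := by
  rcases v with ⟨i, k⟩ | ⟨k, i⟩
  · have h1 : (fun x : Pt N b => if rhoM At P x (Sum.inl (i, k)) = true then (1 : K) else 0) =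
        fun x => ind K (Ent At P x i k) := by
      funext x
      by_cases h : Ent At P x i k
      · rw [ind_of h]
        exact if_pos (rhoM_A.2 h)
      · rw [ind_not h]
        exact if_neg fun h2 => h (rhoM_A.1 h2)
    rw [h1]
    exact ind_ent_mem hS P i k
  · have h1 : (fun x : Pt N b => if rhoM At P x (Sum.inr (k, i)) = true then (1 : K) else 0) =
        fun x => ind K (Ent At P x i k) := by
      funext x
      by_cases h : Ent At P x i k
      · rw [ind_of h]
        exact if_pos (rhoM_B.2 h)
      · rw [ind_not h]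
        exact if_neg fun h2 => h (rhoM_B.1 h2)
    rw [h1]
    exact ind_ent_mem hS P i k

/-- The graded world of the matrix identity. -/
theorem mi_world (hS : Slots K N b M T At) (P : T → Fin m → Prop) (D : ℕ) :
    GWorld (fun a => FF K N b (D + a)) (fun a => YY K N b (D + a)) (pullMul K (rhoM At P)) :=
  gworld_pull (fun _ _ h => FF_mono h) (fun _ _ h => YY_mono h) (fun a => YY_le_FF a) one_mem_FF
    (fun _ _ _ _ hf hg => mul_mem_FF hf hg) (fun _ _ _ _ hf hg => mul_mem_YY hf hg)
    (rhoM_var hS P) D

/-- The value of a scalar product at a point. -/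
theorem pull_dot {V Ω : Type} {n : ℕ} (ρ : Ω → V → Bool) (u v : Fin n → V) (s : K) (f : Ω → K)
    (g : Ω → K) (hg : ∀ x, ∑ i, ind K (ρ x (u i) = true) * ind K (ρ x (v i) = true) - s = g x) :
    pullMul K ρ (∑ i, sat K (u i, true) * sat K (v i, true) - s • (1 : Fun K V)) f = g * f := by
  classical
  rw [pullMul_apply]
  congr 1
  funext x
  rw [← hg x, Pi.sub_apply, Finset.sum_apply, Pi.smul_apply, Pi.one_apply, smul_eq_mul, mul_one]
  congr 1
  refine sum_congr rfl fun i _ => ?_
  rw [Pi.mul_apply]
  have h1 : ∀ w : V, sat K (w, true) (ρ x) = ind K (ρ x w = true) := by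
    intro w
    by_cases h : ρ x w = true
    · rw [ind_of h]
      exact if_pos h
    · rw [ind_not h]
      exact if_neg h
  rw [h1, h1]

theorem ind_rhoM_A (P : T → Fin m → Prop) (x : Pt N b) (i : Fin M) (k : Fin m) :
    ind K (rhoM At P x (varA i k) = true) = ind K (Ent At P x i k) := by
  rw [rhoM_A]

theorem ind_rhoM_B (P : T → Fin m → Prop) (x : Pt N b) (i : Fin M) (k : Fin m) :
    ind K (rhoM At P x (varB k i) = true) = ind K (Ent At P x i k) := by
  rw [rhoM_B]

theorem ind_mul_self (a : Prop) : ind K a * ind K a = ind K a := by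
  by_cases h : a
  · rw [ind_of h, one_mul]
  · rw [ind_not h, zero_mul]

/-- The entries of `A B = X P Pᵀ Xᵀ`. -/
theorem sum_AB (hS : Slots K N b M T At) {P : T → Fin m → Prop}
    (hP : ∀ t t', ∑ k, ind K (P t k) * ind K (P t' k) = ind K (t = t')) (x : Pt N b)
    (i j : Fin M) : ∑ k, ind K (rhoM At P x (varA i k) = true) *
      ind K (rhoM At P x (varB k j) = true) - ind K (i = j) =
      - (ind K (i = j) * (1 - ∑ t, ind K (At x i t))) := by
  classical
  have h1 : ∀ k, ind K (rhoM At P x (varA i k) = true) *
      ind K (rhoM At P x (varB k j) = true) = ∑ t, ∑ t', (ind K (At x i t) * ind K (At x j t')) *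
        (ind K (P t k) * ind K (P t' k)) := by
    intro k
    rw [ind_rhoM_A, ind_rhoM_B, ind_ent hS, ind_ent hS, sum_mul_sum]
    refine sum_congr rfl fun t _ => sum_congr rfl fun t' _ => ?_
    ring
  have h2 : ∑ k, ∑ t, ∑ t', (ind K (At x i t) * ind K (At x j t')) *
      (ind K (P t k) * ind K (P t' k)) = ∑ t, ind K (At x i t) * ind K (At x j t) := by
    rw [sum_comm]
    refine sum_congr rfl fun t _ => ?_
    rw [sum_comm]
    rw [sum_congr rfl fun t' _ => by rw [← mul_sum, hP t t']]
    rw [sum_eq_single t]
    · rw [ind_of rfl, mul_one]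
    · intro t' _ ht
      rw [ind_not (a := t = t') fun h => ht h.symm, mul_zero]
    · intro h
      exact absurd (mem_univ t) h
  rw [sum_congr rfl fun k _ => h1 k, h2]
  by_cases hij : i = j
  · subst hij
    rw [ind_of rfl, sum_congr rfl fun t _ => ind_mul_self _]
    ring
  · rw [ind_not hij, sum_eq_zero]
    · ring
    · intro t _
      by_cases h3 : At x i t
      · rw [ind_not (a := At x j t) fun h4 => hij (hS.inj x i j t h3 h4), mul_zero]
      · rw [ind_not h3, zero_mul]

/-- The entries of `B A = Pᵀ Xᵀ X P`. -/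
theorem sum_BA (hS : Slots K N b M T At) {P : T → Fin m → Prop} (x : Pt N b) (i j : Fin m) :
    ∑ k, ind K (rhoM At P x (varB i k) = true) * ind K (rhoM At P x (varA k j) = true) =
      ∑ t, ind K (P t i) * ind K (P t j) := by
  classical
  have h1 : ∀ k, ind K (rhoM At P x (varB i k) = true) *
      ind K (rhoM At P x (varA k j) = true) =
      ∑ t, ind K (At x k t) * (ind K (P t i) * ind K (P t j)) := by
    intro k
    rw [ind_rhoM_A, ind_rhoM_B, ind_ent hS, ind_ent hS, sum_mul_sum]
    refine sum_congr rfl fun t _ => ?_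
    rw [sum_eq_single t]
    · linear_combination ind K (P t i) * ind K (P t j) * ind_mul_self (K := K) (At x k t)
    · intro t' _ ht
      by_cases h3 : At x k t
      · rw [ind_not (a := At x k t') fun h4 => ht (hS.fn x k t' t h4 h3), zero_mul, mul_zero]
      · rw [ind_not h3, zero_mul, zero_mul]
    · intro h
      exact absurd (mem_univ t) h
  rw [sum_congr rfl fun k _ => h1 k, sum_comm]
  refine sum_congr rfl fun t _ => ?_
  rw [← sum_mul]
  have h2 : ∑ k, ind K (At x k t) = 1 := by
    obtain ⟨a, ha⟩ := hS.surj x t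
    rw [sum_eq_single a]
    · exact ind_of ha
    · intro k _ hk
      exact ind_not fun h3 => hk (hS.inj x k a t h3 ha)
    · intro h2
      exact absurd (mem_univ a) h2
  rw [h2, one_mul]

section

variable [Fintype K] {P : T → Fin m → Prop} {D A k d : ℕ}

theorem cast_ind {n : ℕ} (i j : Fin n) :
    (((if i = j then 1 else 0 : ℕ)) : K) = ind K (i = j) := by
  by_cases h : i = j
  · rw [if_pos h, ind_of h, Nat.cast_one]
  · rw [if_neg h, ind_not h, Nat.cast_zero]

/-- All hypotheses hold in the world. -/
theorem hyps_true (hS : Slots K N b M T At)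
    (hP : ∀ t t', ∑ k, ind K (P t k) * ind K (P t' k) = ind K (t = t'))
    (hA : 10 * deg K k (d + 1) ≤ A) {φ : Form (MVar M m)} (hφ : φ ∈ hyps M m) :
    TrueIn (fun a => FF K N b (D + a)) (fun a => YY K N b (D + a)) (pullMul K (rhoM At P)) A k d
      φ := by
  classical
  rcases hφ with ⟨i, j, rfl⟩ | ⟨i, j, rfl | rfl⟩
  · intro Z H hE
    have h1 := (dot_value (s := ind K (i = j)) hE (by
      intro f hf
      rw [pull_dot (rhoM At P) _ _ _ f _ fun x => sum_AB hS hP x i j]
      have h2 : (fun x : Pt N b => -(ind K (i = j) * (1 - ∑ t, ind K (At x i t)))) =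
          (-(ind K (i = j))) • fun x : Pt N b => 1 - ∑ t, ind K (At x i t) := by
        funext x
        rw [Pi.smul_apply, smul_eq_mul, neg_mul]
      rw [h2, smul_mul_assoc]
      refine Submodule.smul_mem _ _ ?_
      rw [mul_comm]
      have h3 := mul_mem_YY (K := K) hf (hS.star i)
      exact YY_mono (by omega) h3)).1 (cast_ind i j).symm
    exact hE.kill.up h1 (by omega)
  · refine trueIn_clause (w := 2) (deadIn_of_fals le_rfl fun f _ => ?_) (by omega)
    have h1 : pullMul K (rhoM At P) (FG.fals K [(varA i j, false), (varB j i, true)]) f = 0 := by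
      rw [pullMul_apply]
      have h2 : (fun x : Pt N b => FG.fals K [(varA i j, false), (varB j i, true)]
          (rhoM At P x)) = 0 := by
        funext x
        show FG.fals K [(varA i j, false), (varB j i, true)] (rhoM At P x) = (0 : K)
        unfold FG.fals
        rw [if_neg]
        intro h3
        have h4 := h3 (varA i j, false) (by simp)
        have h5 := h3 (varB j i, true) (by simp)
        have h6 : rhoM At P x (varA i j) = true := by simpa using h4
        exact h5 (rhoM_B.2 (rhoM_A.1 h6))
      rw [h2, zero_mul]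
    rw [h1]
    exact Submodule.zero_mem _
  · refine trueIn_clause (w := 2) (deadIn_of_fals le_rfl fun f _ => ?_) (by omega)
    have h1 : pullMul K (rhoM At P) (FG.fals K [(varA i j, true), (varB j i, false)]) f = 0 := by
      rw [pullMul_apply]
      have h2 : (fun x : Pt N b => FG.fals K [(varA i j, true), (varB j i, false)]
          (rhoM At P x)) = 0 := by
        funext x
        show FG.fals K [(varA i j, true), (varB j i, false)] (rhoM At P x) = (0 : K)
        unfold FG.fals
        rw [if_neg]
        intro h3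
        have h4 := h3 (varA i j, true) (by simp)
        have h5 := h3 (varB j i, false) (by simp)
        have h6 : rhoM At P x (varB j i) = true := by simpa using h5
        exact h4 (rhoM_A.2 (rhoM_B.1 h6))
      rw [h2, zero_mul]
    rw [h1]
    exact Submodule.zero_mem _

/-- The given entry of `B A = I` fails in the world. -/
theorem entryBA_false (hS : Slots K N b M T At) {i j : Fin m}
    (hP : ∑ t, ind K (P t i) * ind K (P t j) ≠ ind K (i = j))
    (Z : ℕ → Submodule K (Fun K (MVar M m))) (H : List (Fun K (MVar M m)) → Fun K (MVar M m))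
    (hE : Env (fun a => FF K N b (D + a)) (fun a => YY K N b (D + a)) (pullMul K (rhoM At P)) A k d
      Z H (entryBA i j)) : pv H (entryBA i j) ∈ Z (4 * deg K k (d + 1)) := by
  refine (dot_value (s := ∑ t, ind K (P t i) * ind K (P t j)) hE ?_).2
    (by rw [cast_ind]; exact hP)
  intro f _
  rw [pull_dot (rhoM At P) _ _ _ f 0 fun x => by rw [sum_BA hS x i j, sub_self]; rfl, zero_mul]
  exact Submodule.zero_mem _

end

/-! ### Copies of the world of the pigeonhole principle -/

/-- The letter of the hole `h`. -/
def hol (h : Fin b) : Fin (b + 2) := ⟨h.val + 1, by omega⟩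

theorem ho_hol (h : Fin b) : Ho (hol h) := by
  have hb := h.isLt
  refine ⟨fun h1 => ?_, fun h1 => ?_⟩
  · have h2 : h.val + 1 = 0 := congrArg Fin.val h1
    omega
  · have h2 : h.val + 1 = b + 1 := congrArg Fin.val h1
    omega

theorem hol_inj {h h' : Fin b} (hh : hol h = hol h') : h = h' := by
  have h1 : h.val + 1 = h'.val + 1 := congrArg Fin.val hh
  exact Fin.ext (by omega)

theorem star_or_hole (x : Pt N b) (i : Fin N) :
    x.1 i = Fin.last (b + 1) ∨ ∃ h : Fin b, x.1 i = hol h := by
  by_cases h1 : x.1 i = Fin.last (b + 1)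
  · exact Or.inl h1
  · refine Or.inr ?_
    have h2 : (x.1 i).val ≠ 0 := fun h => x.2.1 i (Fin.ext h)
    have h3 : (x.1 i).val ≠ b + 1 := fun h => h1 (Fin.ext (by rw [h, Fin.val_last]))
    have h4 := (x.1 i).isLt
    refine ⟨⟨(x.1 i).val - 1, by omega⟩, Fin.ext ?_⟩
    show (x.1 i).val = (x.1 i).val - 1 + 1
    omega

theorem hole_ne_star (h : Fin b) : hol h ≠ Fin.last (b + 1) := (ho_hol h).2

theorem hole_inj (x : Pt N b) {i j : Fin N} {h : Fin b} (h1 : x.1 i = hol h)
    (h2 : x.1 j = hol h) : i = j := by
  obtain ⟨a, -, ha⟩ := x.2.2 (hol h) (ho_hol h)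
  exact (ha i h1).trans (ha j h2).symm

/-- The slots of `k` copies with `N` pigeons and `b` holes and of `r` further pigeons. -/
def AtC {k r : ℕ} (x : Pt N b) : (Fin k × Fin N) ⊕ Fin r → (Fin k × Fin b) ⊕ Fin r → Prop
  | .inl u, .inl v => u.1 = v.1 ∧ x.1 u.2 = hol v.2
  | .inr u, .inr v => u = v
  | _, _ => False

theorem const_mem_FF (c : K) : (fun _ : Pt N b => c) ∈ FF K N b 1 := by
  have h1 : (fun _ : Pt N b => c) = c • (1 : Pt N b → K) := by
    funext x
    rw [Pi.smul_apply, Pi.one_apply, smul_eq_mul, mul_one]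
  rw [h1]
  exact Submodule.smul_mem _ _ (FF_mono (Nat.zero_le 1) one_mem_FF)

theorem slots_copies {k r : ℕ} (e : Fin M ≃ (Fin k × Fin N) ⊕ Fin r) :
    Slots K N b M ((Fin k × Fin b) ⊕ Fin r) fun x i t => AtC x (e i) t := by
  classical
  refine ⟨?_, ?_, ?_, ?_, ?_⟩
  · intro x i t t' h h'
    generalize e i = u at h h'
    rcases u with ⟨c, a⟩ | u <;> rcases t with ⟨c', v⟩ | v <;> rcases t' with ⟨c'', v'⟩ | v'
    · obtain ⟨h1, h2⟩ := h
      obtain ⟨h3, h4⟩ := h'
      simp only at h1 h2 h3 h4
      rw [← h1, ← h3, hol_inj (h2.symm.trans h4)]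
    · exact h'.elim
    · exact h.elim
    · exact h.elim
    · exact h.elim
    · exact h.elim
    · exact h'.elim
    · rw [show v = v' from (show u = v from h).symm.trans (show u = v' from h')]
  · intro x i j t h h'
    refine e.injective ?_
    generalize e i = u at h
    generalize e j = u' at h'
    rcases u with ⟨c, a⟩ | u <;> rcases t with ⟨c', v⟩ | v <;> rcases u' with ⟨c'', a'⟩ | u'
    · obtain ⟨h1, h2⟩ := h
      obtain ⟨h3, h4⟩ := h'
      simp only at h1 h2 h3 h4
      rw [h1, h3, hole_inj x h2 h4]
    · exact h'.elim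
    · exact h.elim
    · exact h.elim
    · exact h.elim
    · exact h.elim
    · exact h'.elim
    · rw [show u = u' from (show u = v from h).trans (show u' = v from h').symm]
  · intro x t
    rcases t with ⟨c, v⟩ | v
    · obtain ⟨a, ha, -⟩ := x.2.2 (hol v) (ho_hol v)
      refine ⟨e.symm (Sum.inl (c, a)), ?_⟩
      rw [Equiv.apply_symm_apply]
      exact ⟨rfl, ha⟩
    · refine ⟨e.symm (Sum.inr v), ?_⟩
      rw [Equiv.apply_symm_apply]
      exact rfl
  · intro i t
    generalize e i = u
    rcases u with ⟨c, a⟩ | u <;> rcases t with ⟨c', v⟩ | v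
    · by_cases hc : c = c'
      · have h1 : (fun x : Pt N b => ind K (AtC x (Sum.inl (c, a)) (Sum.inl (c', v) :
            (Fin k × Fin b) ⊕ Fin r))) = fun x => if x.1 a = hol v then (1 : K) else 0 := by
          funext x
          by_cases h : x.1 a = hol v
          · rw [if_pos h]
            exact ind_of ⟨hc, h⟩
          · rw [if_neg h]
            exact ind_not fun h2 => h h2.2
        rw [h1]
        exact letter_mem_FF _ _
      · have h1 : (fun x : Pt N b => ind K (AtC x (Sum.inl (c, a)) (Sum.inl (c', v) :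
            (Fin k × Fin b) ⊕ Fin r))) = fun _ => 0 := by
          funext x
          exact ind_not fun h2 => hc h2.1
        rw [h1]
        exact const_mem_FF 0
    · have h1 : (fun x : Pt N b => ind K (AtC x (Sum.inl (c, a)) (Sum.inr v :
          (Fin k × Fin b) ⊕ Fin r))) = fun _ => 0 := by
        funext x
        exact ind_not fun h2 => h2
      rw [h1]
      exact const_mem_FF 0
    · have h1 : (fun x : Pt N b => ind K (AtC x (Sum.inr u : (Fin k × Fin N) ⊕ Fin r)
          (Sum.inl (c', v)))) = fun _ => 0 := by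
        funext x
        exact ind_not fun h2 => h2
      rw [h1]
      exact const_mem_FF 0
    · have h1 : (fun x : Pt N b => ind K (AtC x (Sum.inr u : (Fin k × Fin N) ⊕ Fin r)
          (Sum.inr v))) = fun _ => ind K (u = v) := by
        funext x
        rfl
      rw [h1]
      exact const_mem_FF _
  · intro i
    generalize e i = u
    rcases u with ⟨c, a⟩ | u
    · have h1 : (fun x : Pt N b => 1 - ∑ t, ind K (AtC x (Sum.inl (c, a)) (t :
          (Fin k × Fin b) ⊕ Fin r))) =
          fun x => if x.1 a = Fin.last (b + 1) then (1 : K) else 0 := by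
        funext x
        rcases star_or_hole x a with h | ⟨h, hx⟩
        · rw [if_pos h, sum_eq_zero, sub_zero]
          rintro (⟨c', v⟩ | v) _
          · exact ind_not fun h2 => hole_ne_star v (h2.2.symm.trans h)
          · exact ind_not fun h2 => h2
        · rw [if_neg (by rw [hx]; exact hole_ne_star h),
            sum_eq_single (Sum.inl (c, h) : (Fin k × Fin b) ⊕ Fin r)]
          · rw [ind_of (show AtC x (Sum.inl (c, a)) (Sum.inl (c, h) :
              (Fin k × Fin b) ⊕ Fin r) from ⟨rfl, hx⟩), sub_self]
          · rintro (⟨c', v⟩ | v) _ hne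
            · refine ind_not fun h2 => hne ?_
              obtain ⟨h3, h4⟩ := h2
              simp only at h3 h4
              rw [h3, hol_inj (hx.symm.trans h4)]
            · exact ind_not fun h2 => h2
          · intro h2
            exact absurd (mem_univ _) h2
      rw [h1]
      exact star_mem_YY a
    · have h1 : (fun x : Pt N b => 1 - ∑ t, ind K (AtC x (Sum.inr u : (Fin k × Fin N) ⊕ Fin r)
          t)) = 0 := by
        funext x
        rw [sum_eq_single (Sum.inr u : (Fin k × Fin b) ⊕ Fin r)]
        · rw [ind_of (show AtC x (Sum.inr u : (Fin k × Fin N) ⊕ Fin r) (Sum.inr u) from rfl),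
            sub_self]
          rfl
        · rintro (⟨c', v⟩ | v) _ hne
          · exact ind_not fun h2 => h2
          · exact ind_not fun h2 => hne (congrArg Sum.inr (show u = v from h2).symm)
        · intro h2
          exact absurd (mem_univ _) h2
      rw [h1]
      exact Submodule.zero_mem _

end Pool.Agent.MP_9cec2c_lc.MI
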