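import Pool.Agent.Lib.MP_9cec2c_lc.MLPiece

/-!
Restrictions by pointers and dead cells: the sparse forms.
-/

set_option autoImplicit false
set_option linter.unusedSectionVars false
set_option linter.unusedVariables false

namespace Pool.Agent.MP_9cec2c_lc.MixedLines

open Finset ThresholdLines

/-- The union bound. -/
theorem exists_notMem {Ω Ξ : Type} [Fintype Ω] [Nonempty Ω] [Fintype Ξ] (D : ℕ)
    (B : Ξ → Finset Ω) (hD : Fintype.card Ξ < D) (h : ∀ ξ, D * (B ξ).card ≤ Fintype.card Ω) :
    ∃ ω, ∀ ξ, ω ∉ B ξ := by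
  classical
  by_contra hcon
  push Not at hcon
  have h1 : (univ : Finset Ω) ⊆ univ.biUnion B := by
    intro ω _
    obtain ⟨ξ, hξ⟩ := hcon ω
    exact mem_biUnion.2 ⟨ξ, mem_univ _, hξ⟩
  have h2 := (card_le_card h1).trans card_biUnion_le
  rw [card_univ] at h2
  have h3 : D * Fintype.card Ω ≤ Fintype.card Ξ * Fintype.card Ω := by
    calc D * Fintype.card Ω ≤ D * ∑ ξ, (B ξ).card := Nat.mul_le_mul_left _ h2
      _ = ∑ ξ, D * (B ξ).card := mul_sum _ _ _
      _ ≤ ∑ _ξ : Ξ, Fintype.card Ω := sum_le_sum fun ξ _ => h ξ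
      _ = Fintype.card Ξ * Fintype.card Ω := by rw [sum_const, card_univ, smul_eq_mul]
  have h4 : D ≤ Fintype.card Ξ := Nat.le_of_mul_le_mul_right h3 Fintype.card_pos
  omega

section Cover

variable {J Q R : Type} [Fintype J] [DecidableEq J] [Fintype Q] [DecidableEq Q]
  [Fintype R] [DecidableEq R]

/-- The set `K` meets every pair of live cells in a member of `F`. -/
def Covers {ι : Type} (F : ι → Finset (J × Q)) (z : J → Q) (K : Finset J) : Prop :=
  ∀ i j j', (j, z j) ∈ F i → (j', z j') ∈ F i → j ≠ j' → j ∈ K ∨ j' ∈ K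

open scoped Classical in
theorem cover_count {ι : Type} [Fintype ι] (W t : ℕ) (F : ι → Finset (J × Q))
    (hF : ∑ i, (F i).card ^ 2 ≤ W) :
    (univ.filter fun z : J → Q => ¬ ∃ K : Finset J, K.card ≤ 2 * t ∧ Covers F z K).card *
      (Fintype.card Q ^ 2) ^ t ≤ W ^ t * Fintype.card (J → Q) := by
  set N : Finset (J × Q) → Finset (Finset (J × Q)) := fun s =>
    (univ : Finset ι).biUnion fun i => ((F i ×ˢ F i).filter fun p =>
      p.1.1 ≠ p.2.1 ∧ p.1.1 ∉ s.image Prod.fst ∧ p.2.1 ∉ s.image Prod.fst).image
        fun p => insert p.1 (insert p.2 s) with hN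
  have hcard : ∀ s, (N s).card ≤ W := by
    intro s
    refine card_biUnion_le.trans (le_trans (sum_le_sum fun i _ => ?_) hF)
    refine card_image_le.trans ((card_filter_le _ _).trans ?_)
    rw [card_product, sq]
  have hinv : ∀ j, ∀ s ∈ lev N ∅ j, s.card = 2 * j := by
    intro j
    refine lev_inv N ∅ (fun j s => s.card = 2 * j) (by simp) ?_ j
    intro j s hs s' hs'
    rw [hN] at hs'
    obtain ⟨i, -, hi⟩ := mem_biUnion.1 hs'
    obtain ⟨⟨p, p'⟩, hp, rfl⟩ := mem_image.1 hi
    rw [mem_filter] at hp
    obtain ⟨-, h1, h2, h3⟩ := hp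
    simp only at h1 h2 h3
    have e1 : p' ∉ s := fun h => h3 (mem_image_of_mem _ h)
    have e2 : p ∉ insert p' s := by
      rw [mem_insert]
      rintro (rfl | h)
      · exact h1 rfl
      · exact h2 (mem_image_of_mem _ h)
    rw [card_insert_of_notMem e2, card_insert_of_notMem e1, hs]
    ring
  have hsub : (univ.filter fun z : J → Q => ¬ ∃ K : Finset J, K.card ≤ 2 * t ∧ Covers F z K) ⊆
      univ.filter fun z : J → Q => ∃ s ∈ lev N ∅ t, Sub s z := by
    intro z hz
    rw [mem_filter] at hz ⊢
    refine ⟨mem_univ _, ?_⟩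
    have halt := lev_alt N ∅ (fun s => Sub s z) (fun s => Covers F z (s.image Prod.fst))
      (fun w hw => absurd hw (notMem_empty _)) t (by
        intro j hj s hs hsz hst
        unfold Covers at hst
        push Not at hst
        obtain ⟨i, j, j', h1, h2, h3, h4, h5⟩ := hst
        refine ⟨insert (j, z j) (insert (j', z j') s), ?_, ?_⟩
        · rw [hN]
          exact mem_biUnion.2 ⟨i, mem_univ _, mem_image.2 ⟨((j, z j), (j', z j')),
            mem_filter.2 ⟨mem_product.2 ⟨h1, h2⟩, h3, h4, h5⟩, rfl⟩⟩
        · intro w hw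
          rw [mem_insert, mem_insert] at hw
          rcases hw with rfl | rfl | hw
          · rfl
          · rfl
          · exact hsz w hw)
    rcases halt with ⟨j, hj, s, hs, -, hst⟩ | h
    · refine absurd ⟨s.image Prod.fst, ?_, hst⟩ hz.2
      refine card_image_le.trans ?_
      rw [hinv j s hs]
      omega
    · exact h
  refine (Nat.mul_le_mul_right _ (card_le_card hsub)).trans ?_
  refine lev_measure N ∅ (fun s z => Sub s z) _ _ t (fun j _ s _ => hcard s) ?_
  intro s hs
  have h1 := sub_count s
  rw [hinv t s hs, pow_mul] at h1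
  exact h1

open scoped Classical in
theorem wide_count {W : Type} [Fintype W] [DecidableEq W] (A : Finset W) (b : W → Bool) (M : ℕ)
    (hA : M < A.card) :
    (univ.filter fun u : W → Bool => ∀ p ∈ A, u p = b p).card * 2 ^ (M + 1) ≤
      Fintype.card (W → Bool) := by
  have h1 := sub_count (A.image fun p => (p, b p))
  rw [card_image_of_injective _ (fun p p' h => (Prod.ext_iff.1 h).1), Fintype.card_bool] at h1
  refine le_trans (Nat.mul_le_mul (card_le_card ?_) (Nat.pow_le_pow_right (by norm_num) hA)) h1
  intro u hu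
  rw [mem_filter] at hu ⊢
  refine ⟨mem_univ _, fun w hw => ?_⟩
  obtain ⟨p, hp, rfl⟩ := mem_image.1 hw
  exact hu.2 p hp

variable {V : Type} [Fintype V] (cell : J × Q × R → V)

open scoped Classical in
/-- The cells in the literals of a term. -/
noncomputable def cl {M : Type} (T : Term V M) : Finset (J × Q) :=
  univ.filter fun p => ∃ r, cell (p.1, p.2, r) ∈ T.lits.image Prod.fst

open scoped Classical in
/-- The cells on which a term depends. -/
noncomputable def cs {M : Type} (T : Term V M) : Finset (J × Q) :=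
  univ.filter fun p => ∃ r, cell (p.1, p.2, r) ∈ T.vars

/-- Some literal on a dead cell is false. -/
def Dead {M : Type} (T : Term V M) (z : J → Q) (u : J × Q × R → Bool) : Prop :=
  ∃ l ∈ T.lits, ∃ p : J × Q × R, l.1 = cell p ∧ p.2.1 ≠ z p.1 ∧ u p ≠ l.2

variable {cell}

theorem cs_card (hcell : Function.Injective cell) {M : Type} (T : Term V M) :
    (cs cell T).card ≤ (cl cell T).card + T.supp.card := by
  classical
  have h1 : cs cell T ⊆ cl cell T ∪ univ.filter fun p => ∃ r, cell (p.1, p.2, r) ∈ T.supp := by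
    intro p hp
    unfold cs Term.vars at hp
    rw [mem_filter] at hp
    obtain ⟨-, r, hr⟩ := hp
    rw [mem_union] at hr ⊢
    rcases hr with h | h
    · exact Or.inl (mem_filter.2 ⟨mem_univ _, r, h⟩)
    · exact Or.inr (mem_filter.2 ⟨mem_univ _, r, h⟩)
  refine (card_le_card h1).trans ((card_union_le _ _).trans (Nat.add_le_add_left ?_ _))
  have h2 : ∀ p ∈ (univ : Finset (J × Q)).filter (fun p => ∃ r, cell (p.1, p.2, r) ∈ T.supp),
      ∃ r, cell (p.1, p.2, r) ∈ T.supp := fun p hp => (mem_filter.1 hp).2
  have h3 : (univ : Finset (J × Q)).filter (fun p => ∃ r, cell (p.1, p.2, r) ∈ T.supp) ⊆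
      ((univ : Finset (J × Q × R)).filter fun p => cell p ∈ T.supp).image
        fun p => (p.1, p.2.1) := by
    intro p hp
    obtain ⟨r, hr⟩ := h2 p hp
    exact mem_image.2 ⟨(p.1, p.2, r), mem_filter.2 ⟨mem_univ _, hr⟩, rfl⟩
  refine (card_le_card h3).trans (card_image_le.trans ?_)
  rw [← card_image_of_injective _ hcell]
  refine card_le_card fun v hv => ?_
  obtain ⟨p, hp, rfl⟩ := mem_image.1 hv
  exact (mem_filter.1 hp).2

open scoped Classical in
theorem dead_count {M : Type} (T : Term V M) (z : J → Q)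
    (hw : 2 * Fintype.card J < (cl cell T).card) :
    (univ.filter fun u : J × Q × R → Bool => ¬ Dead cell T z u).card *
      2 ^ (Fintype.card J + 1) ≤ Fintype.card (J × Q × R → Bool) := by
  have hlit : ∀ p ∈ cl cell T, ∃ b : R × Bool, (cell (p.1, p.2, b.1), b.2) ∈ T.lits := by
    intro p hp
    obtain ⟨r, hr⟩ := (mem_filter.1 hp).2
    obtain ⟨l, hl, he⟩ := mem_image.1 hr
    exact ⟨(r, l.2), by rw [← he]; exact hl⟩
  have hRB : Nonempty (R × Bool) := by
    have h0 : 0 < (cl cell T).card := by omega
    obtain ⟨p, hp⟩ := card_pos.1 h0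
    obtain ⟨b, -⟩ := hlit p hp
    exact ⟨b⟩
  choose! b hb using hlit
  set A : Finset (J × Q) := (cl cell T) \ (univ.image fun j => (j, z j)) with hA
  have h1 : Fintype.card J < (A.image fun p => (p.1, p.2, (b p).1)).card := by
    rw [card_image_of_injective _ (fun p p' h => by
      simp only [Prod.mk.injEq] at h
      exact Prod.ext h.1 h.2.1)]
    have h2 : (cl cell T).card - (univ.image fun j : J => (j, z j)).card ≤ A.card :=
      le_card_sdiff _ _
    have h3 : (univ.image fun j : J => (j, z j)).card ≤ Fintype.card J := card_image_le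
    omega
  refine le_trans (Nat.mul_le_mul_right _ (card_le_card ?_))
    (wide_count _ (fun p : J × Q × R => (b (p.1, p.2.1)).2) _ h1)
  intro u hu
  rw [mem_filter] at hu ⊢
  refine ⟨mem_univ _, fun p hp => ?_⟩
  obtain ⟨p', hp', rfl⟩ := mem_image.1 hp
  rw [hA, mem_sdiff] at hp'
  by_contra hne
  refine hu.2 ⟨_, hb p' hp'.1, (p'.1, p'.2, (b p').1), rfl, fun h => hp'.2 ?_, hne⟩
  exact mem_image.2 ⟨p'.1, mem_univ _, by rw [← h]⟩

variable (cell)

/-- The form is good under the restriction. -/
def FormGood {M : Type} (t : ℕ) (f : Form V M) (z : J → Q) (u : J × Q × R → Bool) : Prop :=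
  ∃ K : Finset J, K.card ≤ 2 * t ∧ ∀ i, Dead cell (f.term i) z u ∨
    ∀ j j' r r', cell (j, z j, r) ∈ (f.term i).vars → cell (j', z j', r') ∈ (f.term i).vars →
      j ≠ j' → j ∈ K ∨ j' ∈ K

variable {cell}

theorem form_bad (hcell : Function.Injective cell) [Nonempty Q] [Nonempty J] {M : Type}
    (f : Form V M) (t nn D : ℕ) (hsp : ∑ i, (1 + (f.term i).supp.card) ^ 2 ≤ nn)
    (H1 : 2 * D * nn ≤ 2 ^ (Fintype.card J + 1))
    (H2 : 2 * D * (4 * Fintype.card J ^ 2 * nn) ^ t ≤ (Fintype.card Q ^ 2) ^ t) :
    ∃ Bad : Finset ((J → Q) × (J × Q × R → Bool)),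
      D * Bad.card ≤ Fintype.card ((J → Q) × (J × Q × R → Bool)) ∧
      ∀ ω ∉ Bad, FormGood cell t f ω.1 ω.2 := by
  classical
  set N := Fintype.card J with hN
  have hN1 : 1 ≤ N := Fintype.card_pos
  set Ω := (J → Q) × (J × Q × R → Bool) with hΩ
  have hΩc : Fintype.card Ω = Fintype.card (J → Q) * Fintype.card (J × Q × R → Bool) :=
    Fintype.card_prod _ _
  have hnum : f.num ≤ nn := by
    refine le_trans ?_ hsp
    calc f.num = ∑ _i : Fin f.num, 1 := by simp
      _ ≤ _ := sum_le_sum fun i _ => Nat.one_le_pow _ _ (by omega)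
  -- the narrow terms
  set F : Fin f.num → Finset (J × Q) := fun a =>
    if 2 * N < (cl cell (f.term a)).card then ∅ else cs cell (f.term a) with hF
  have hFc : ∑ a, (F a).card ^ 2 ≤ 4 * N ^ 2 * nn := by
    calc ∑ a, (F a).card ^ 2 ≤ ∑ a, 4 * N ^ 2 * (1 + (f.term a).supp.card) ^ 2 := by
          refine sum_le_sum fun a _ => ?_
          have h1 : (F a).card ≤ 2 * N * (1 + (f.term a).supp.card) := by
            rw [hF]
            simp only
            split_ifs with h
            · rw [card_empty]; exact Nat.zero_le _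
            · have h2 := cs_card hcell (f.term a)
              have h3 : (f.term a).supp.card ≤ 2 * N * (f.term a).supp.card :=
                Nat.le_mul_of_pos_left _ (by omega)
              rw [mul_add, mul_one]
              omega
          calc (F a).card ^ 2 ≤ (2 * N * (1 + (f.term a).supp.card)) ^ 2 :=
                Nat.pow_le_pow_left h1 2
            _ = _ := by ring
      _ = 4 * N ^ 2 * ∑ a, (1 + (f.term a).supp.card) ^ 2 := (mul_sum _ _ _).symm
      _ ≤ 4 * N ^ 2 * nn := Nat.mul_le_mul_left _ hsp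
  -- wide terms that are not killed
  set B1 : Finset Ω := (univ : Finset (Fin f.num × (J → Q))).biUnion fun az =>
    if 2 * N < (cl cell (f.term az.1)).card then
      (univ.filter fun u : J × Q × R → Bool => ¬ Dead cell (f.term az.1) az.2 u).image
        (fun u => ((az.2, u) : Ω)) else ∅ with hB1
  have c1 : 2 * D * B1.card ≤ Fintype.card Ω := by
    have h1 : B1.card * 2 ^ (N + 1) ≤ nn * Fintype.card Ω := by
      calc _ ≤ (∑ az : Fin f.num × (J → Q),
            (if 2 * N < (cl cell (f.term az.1)).card then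
              (univ.filter fun u : J × Q × R → Bool => ¬ Dead cell (f.term az.1) az.2 u).image
                (fun u => ((az.2, u) : Ω)) else ∅).card) * 2 ^ (N + 1) :=
            Nat.mul_le_mul_right _ card_biUnion_le
        _ = ∑ az : Fin f.num × (J → Q),
            (if 2 * N < (cl cell (f.term az.1)).card then
              (univ.filter fun u : J × Q × R → Bool => ¬ Dead cell (f.term az.1) az.2 u).image
                (fun u => ((az.2, u) : Ω)) else ∅).card * 2 ^ (N + 1) := sum_mul _ _ _
        _ ≤ ∑ _az : Fin f.num × (J → Q), Fintype.card (J × Q × R → Bool) := by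
            refine sum_le_sum fun az _ => ?_
            split_ifs with h
            · refine le_trans (Nat.mul_le_mul_right _ card_image_le) ?_
              exact dead_count _ az.2 h
            · rw [card_empty, zero_mul]
              exact Nat.zero_le _
        _ = f.num * Fintype.card Ω := by
            rw [sum_const, card_univ, Fintype.card_prod, Fintype.card_fin, smul_eq_mul, hΩc,
              mul_assoc]
        _ ≤ nn * Fintype.card Ω := Nat.mul_le_mul_right _ hnum
    have h3 : 2 * D * B1.card * 2 ^ (N + 1) ≤ Fintype.card Ω * 2 ^ (N + 1) := by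
      calc _ = 2 * D * (B1.card * 2 ^ (N + 1)) := by ring
        _ ≤ 2 * D * (nn * Fintype.card Ω) := Nat.mul_le_mul_left _ h1
        _ = 2 * D * nn * Fintype.card Ω := by ring
        _ ≤ 2 ^ (N + 1) * Fintype.card Ω := Nat.mul_le_mul_right _ H1
        _ = _ := mul_comm _ _
    exact Nat.le_of_mul_le_mul_right h3 (Nat.two_pow_pos _)
  -- pointers without a small cover
  set Bz := univ.filter fun z : J → Q => ¬ ∃ K : Finset J, K.card ≤ 2 * t ∧ Covers F z K
    with hBz
  set B2 : Finset Ω := Bz ×ˢ (univ : Finset (J × Q × R → Bool)) with hB2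
  have c2 : 2 * D * B2.card ≤ Fintype.card Ω := by
    have h1 := cover_count (4 * N ^ 2 * nn) t F hFc
    rw [← hBz] at h1
    have h3 : 2 * D * Bz.card ≤ Fintype.card (J → Q) := by
      have h4 : 2 * D * Bz.card * (Fintype.card Q ^ 2) ^ t ≤
          Fintype.card (J → Q) * (Fintype.card Q ^ 2) ^ t := by
        calc _ = 2 * D * (Bz.card * (Fintype.card Q ^ 2) ^ t) := by ring
          _ ≤ 2 * D * ((4 * N ^ 2 * nn) ^ t * Fintype.card (J → Q)) :=
              Nat.mul_le_mul_left _ h1
          _ = 2 * D * (4 * N ^ 2 * nn) ^ t * Fintype.card (J → Q) := by ring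
          _ ≤ (Fintype.card Q ^ 2) ^ t * Fintype.card (J → Q) := Nat.mul_le_mul_right _ H2
          _ = _ := mul_comm _ _
      exact Nat.le_of_mul_le_mul_right h4 (by have := Fintype.card_pos (α := Q); positivity)
    rw [hB2, card_product, card_univ, hΩc, ← mul_assoc]
    exact Nat.mul_le_mul_right _ h3
  refine ⟨B1 ∪ B2, ?_, ?_⟩
  · have h1 := card_union_le B1 B2
    have h4 := Nat.mul_le_mul_left (2 * D) h1
    rw [mul_add] at h4
    linarith
  · rintro ⟨z, u⟩ hω
    rw [mem_union, not_or] at hω
    obtain ⟨h1, h2⟩ := hω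
    have hz : z ∉ Bz := fun h => h2 (mem_product.2 ⟨h, mem_univ _⟩)
    have hz' : ∃ K : Finset J, K.card ≤ 2 * t ∧ Covers F z K := by
      by_contra hcon
      exact hz (mem_filter.2 ⟨mem_univ _, hcon⟩)
    obtain ⟨K, hK, hcov⟩ := hz'
    refine ⟨K, hK, fun a => ?_⟩
    by_cases hw : 2 * N < (cl cell (f.term a)).card
    · left
      by_contra hd
      refine h1 (mem_biUnion.2 ⟨(a, z), mem_univ _, ?_⟩)
      rw [if_pos hw]
      exact mem_image.2 ⟨u, mem_filter.2 ⟨mem_univ _, hd⟩, rfl⟩
    · refine Or.inr fun j j' r r' hj hj' hne => hcov a j j' ?_ ?_ hne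
      · rw [hF]
        simp only [if_neg hw]
        exact mem_filter.2 ⟨mem_univ _, r, hj⟩
      · rw [hF]
        simp only [if_neg hw]
        exact mem_filter.2 ⟨mem_univ _, r', hj'⟩

section Restriction

variable (hcell : Function.Injective cell) (base : (J → Q) → V → Bool)

/-- The restriction given by pointers and dead bits. -/
noncomputable def restr (z : J → Q) (u : J × Q × R → Bool) : Restr V (J × R) where
  live p := cell (p.1, z p.1, p.2)
  A v := Function.extend cell (cellVal z u v) (base z)
  inj := by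
    rintro ⟨j, r⟩ ⟨j', r'⟩ h
    have := hcell h
    simp only [Prod.mk.injEq] at this
    exact Prod.ext this.1 this.2.2
  hlive v p := by
    rw [hcell.extend_apply]
    simp [cellVal]
  hfix v v' w hw := by
    by_cases h : ∃ p, cell p = w
    · obtain ⟨⟨j, q, r⟩, rfl⟩ := h
      rw [hcell.extend_apply, hcell.extend_apply]
      have : q ≠ z j := fun h => hw (j, r) (by rw [h])
      simp [cellVal, this]
    · rw [Function.extend_apply' _ _ _ h, Function.extend_apply' _ _ _ h]

theorem restr_A (z : J → Q) (u : J × Q × R → Bool) (v : J × R → Bool) :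
    (restr hcell base z u).A v = Function.extend cell (cellVal z u v) (base z) := rfl

theorem restr_live (z : J → Q) (u : J × Q × R → Bool) (p : J × R) :
    (restr hcell base z u).live p = cell (p.1, z p.1, p.2) := rfl

theorem FormGood.ok {M : Type} {t : ℕ} {f : Form V M} {z : J → Q} {u : J × Q × R → Bool}
    (h : FormGood cell t f z u) {side : J × R → Bool}
    (hside : ∀ j r r', side (j, r) = side (j, r')) :
    ∃ K : Finset (J × R), K.card ≤ 2 * t * Fintype.card R ∧
      FormOK (restr hcell base z u) side K f := by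
  classical
  obtain ⟨K, hK, hKf⟩ := h
  refine ⟨K ×ˢ univ, ?_, fun i => ?_⟩
  · rw [card_product, card_univ]
    exact Nat.mul_le_mul_right _ hK
  · rcases hKf i with hd | hc
    · left
      intro v
      obtain ⟨l, hl, p, hp, hpz, hul⟩ := hd
      refine ⟨l, hl, ?_⟩
      rw [hp, restr_A, hcell.extend_apply]
      simp only [cellVal, if_neg hpz]
      exact hul
    · right
      by_cases hex : ∃ p : J × R, (restr hcell base z u).live p ∈ (f.term i).vars ∧
          p ∉ K ×ˢ (univ : Finset R)
      · obtain ⟨⟨j, r⟩, hp, hpK⟩ := hex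
        refine ⟨side (j, r), ?_⟩
        rintro ⟨j', r'⟩ hp' hpK'
        rw [restr_live] at hp hp'
        have hj : j ∉ K := fun h => hpK (mem_product.2 ⟨h, mem_univ _⟩)
        have hj' : j' ∉ K := fun h => hpK' (mem_product.2 ⟨h, mem_univ _⟩)
        have : j' = j := by
          by_contra hne
          rcases hc j' j r' r hp' hp hne with h | h
          · exact hj' h
          · exact hj h
        rw [this]
        exact hside _ _ _
      · push Not at hex
        exact ⟨true, fun p hp hpK => absurd (hex p hp) hpK⟩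

end Restriction

end Cover

end Pool.Agent.MP_9cec2c_lc.MixedLines
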