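import Mathlib

/-!
Semantic refutations whose lines are weighted thresholds of sparse forms, selected by sparse
forms in a finite commutative monoid and by disjunctions of conjunctions of linear equations
modulo two: the public definitions.
-/

set_option autoImplicit false

namespace Pool.Agent.MP_9cec2c_lc.MixedLines

/-- A literal over the set `V` of variables.  The literal `(v, b)` is true under the
assignment `x` exactly when `x v = b`. -/
abbrev Lit (V : Type) := V × Bool

/-- A clause is a finite set of literals, read as their disjunction. -/
abbrev Clause (V : Type) := Finset (Lit V)

/-- The assignment `x` satisfies the clause `C`. -/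
def Holds {V : Type} (x : V → Bool) (C : Clause V) : Prop := ∃ l ∈ C, x l.1 = l.2

/-- A term with values in `M`: the conjunction of the literals in `lits` (any number of them)
times the weight `wt`. -/
structure Term (V M : Type) where
  /-- the literals of the conjunction -/
  lits : Finset (Lit V)
  /-- the variables on which the weight depends -/
  supp : Finset V
  /-- the weight -/
  wt : (V → Bool) → M

/-- The weight of the term depends only on the variables in `supp`. -/
def Term.Local {V M : Type} (T : Term V M) : Prop :=
  ∀ x y : V → Bool, (∀ v ∈ T.supp, x v = y v) → T.wt x = T.wt y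

open Classical in
/-- The value of a term: its weight if all its literals are true, and zero otherwise. -/
noncomputable def Term.value {V M : Type} [AddCommMonoid M] (x : V → Bool) (T : Term V M) : M :=
  if ∀ l ∈ T.lits, x l.1 = l.2 then T.wt x else 0

/-- A form with values in `M`. -/
structure Form (V M : Type) where
  /-- the contribution of each variable, an arbitrary function of the value of the variable -/
  lin : V → Bool → M
  /-- the number of terms -/
  num : ℕ
  /-- the terms -/
  term : Fin num → Term V M

/-- The value of a form: the sum of the contributions of the variables and of the values of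
the terms. -/
noncomputable def Form.value {V M : Type} [Fintype V] [AddCommMonoid M] (x : V → Bool)
    (f : Form V M) : M :=
  ∑ v, f.lin v (x v) + ∑ i, (f.term i).value x

/-- The form is sparse: the sum of `(1 + |supp T|) ^ 2` over its terms `T` is at most `s`. -/
def Form.Sparse {V M : Type} (s : ℝ) (f : Form V M) : Prop :=
  (∀ i, (f.term i).Local) ∧ ∑ i, (1 + ((f.term i).supp.card : ℝ)) ^ 2 ≤ s

/-- A linear equation modulo two: the sum of the variables in the set is the constant. -/
abbrev Equation (V : Type) := Finset V × ZMod 2

/-- The assignment `x` satisfies the equation `E`. -/
def Equation.Holds {V : Type} (x : V → Bool) (E : Equation V) : Prop :=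
  ∑ v ∈ E.1, (if x v then (1 : ZMod 2) else 0) = E.2

/-- A disjunction of conjunctions of linear equations modulo two: it is true if all equations of
one of the conjunctions hold. -/
def OneHolds {V : Type} (x : V → Bool) (g : Finset (Finset (Equation V))) : Prop :=
  ∃ T ∈ g, ∀ E ∈ T, E.Holds x

/-- A line of a refutation. -/
structure Line (V : Type) where
  /-- a finite commutative monoid -/
  M : Type
  /-- its addition -/
  mon : AddCommMonoid M
  /-- it is finite -/
  fin : Fintype M
  /-- a form with values in the monoid -/
  sel : Form V M
  /-- the number of gates -/
  num : ℕ
  /-- the gates: disjunctions of conjunctions of linear equations modulo two -/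
  gate : Fin num → Finset (Finset (Equation V))
  /-- the real form selected by a monoid element and by truth values of the gates -/
  ineq : M → (Fin num → Bool) → Form V ℝ

open Classical in
/-- The line is true under `x`: the selected real form has a nonnegative value. -/
def Line.True {V : Type} [Fintype V] (x : V → Bool) (L : Line V) : Prop :=
  letI := L.mon
  0 ≤ (L.ineq (L.sel.value x) fun i => decide (OneHolds x (L.gate i))).value x

/-- The line is small: the monoid has at most `2 ^ k` elements, there are at most `k` gates, each
of them a disjunction of any number of conjunctions of at most `d` linear equations with at most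
`w` variables, and all forms are sparse. -/
def Line.Small {V : Type} (d : ℕ) (k s w : ℝ) (L : Line V) : Prop :=
  ((@Fintype.card L.M L.fin : ℕ) : ℝ) ≤ 2 ^ k ∧ (L.num : ℝ) ≤ k ∧
    (∀ i, ∀ T ∈ L.gate i, T.card ≤ d ∧ ∀ E ∈ T, (E.1.card : ℝ) ≤ w) ∧
    L.sel.Sparse s ∧ ∀ m c, (L.ineq m c).Sparse s

/-- A semantic refutation of `F` with the `S` lines `L 0, …, L (S - 1)`: some line is
identically false, and each line is implied by one clause of `F`, or by at most `k` earlier
lines. -/
def IsRefutation {V : Type} [Fintype V] {S : ℕ} (k : ℝ) (F : Finset (Clause V))
    (L : Fin S → Line V) : Prop :=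
  (∃ i, ∀ x, ¬ (L i).True x) ∧
    ∀ i : Fin S,
      (∃ C ∈ F, ∀ x, Holds x C → (L i).True x) ∨
        ∃ P : Finset (Fin S), (P.card : ℝ) ≤ k ∧ (∀ j ∈ P, j < i) ∧
          ∀ x, (∀ j ∈ P, (L j).True x) → (L i).True x

end Pool.Agent.MP_9cec2c_lc.MixedLines
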