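import Pool.Agent.Lib.MP_9cec2c_lc.MLXor

/-!
Disjunctions of conjunctions of linear equations modulo two under a random pointer restriction.
-/

set_option autoImplicit false
set_option linter.unusedSectionVars false
set_option linter.unusedVariables false

namespace Pool.Agent.MP_9cec2c_lc.MixedLines

open Finset

section Free

variable {U : Type} [Fintype U] [DecidableEq U]

/-- The parities in `D` determine the parity `A`. -/
def Dtm (D : Finset (Finset U)) (A : Finset U) : Prop :=
  ∀ w w' : U → Bool, (∀ B ∈ D, par B w = par B w') → par A w = par A w'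

theorem shift_of_not_dtm {D : Finset (Finset U)} {A : Finset U} (h : ¬ Dtm D A) :
    ∃ δ : U → Bool, (∀ B ∈ D, par B δ = 0) ∧ par A δ = 1 := by
  unfold Dtm at h
  push Not at h
  obtain ⟨w, w', hw, hne⟩ := h
  refine ⟨fun p => xor (w p) (w' p), fun B hB => ?_, ?_⟩
  · rw [par_xor, hw B hB]
    rcases zmod2_cases (par B w') with h | h <;> rw [h] <;> decide
  · rw [par_xor]
    rcases zmod2_cases (par A w) with h | h <;>
      rcases zmod2_cases (par A w') with h' | h'
    · exact absurd (h.trans h'.symm) hne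
    · rw [h, h']; decide
    · rw [h, h']; decide
    · exact absurd (h.trans h'.symm) hne

/-- All equations of the term hold. -/
def Sat (x : U → Bool) (T : Finset (Finset U × ZMod 2)) : Prop := ∀ E ∈ T, par E.1 x = E.2

/-- Every equation of the term is independent of `D` and of the other equations. -/
def Free (D : Finset (Finset U)) (T : Finset (Finset U × ZMod 2)) : Prop :=
  ∀ E ∈ T, ¬ Dtm (D ∪ (T.erase E).image Prod.fst) E.1

open scoped Classical in
theorem free_card {D : Finset (Finset U)} {T : Finset (Finset U × ZMod 2)} (hT : Free D T)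
    {S : Finset (U → Bool)}
    (hS : ∀ x ∈ S, ∀ x', (∀ B ∈ D, par B x = par B x') → x' ∈ S) :
    S.card ≤ 2 ^ T.card * (S.filter fun x => Sat x T).card := by
  have key : ∀ T' : Finset (Finset U × ZMod 2), T' ⊆ T →
      S.card ≤ 2 ^ T'.card * (S.filter fun x => Sat x T').card := by
    intro T'
    induction T' using Finset.induction_on with
    | empty =>
      intro _
      rw [card_empty, pow_zero, one_mul]
      refine le_of_eq ?_
      congr 1
      rw [eq_comm, filter_eq_self]
      intro x _ E hE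
      exact absurd hE (notMem_empty _)
    | insert E T' hE ih =>
      intro hsub
      have hET : E ∈ T := hsub (mem_insert_self _ _)
      obtain ⟨δ, hδ1, hδ2⟩ := shift_of_not_dtm (hT E hET)
      have ih' := ih fun a ha => hsub (mem_insert_of_mem ha)
      set S' := S.filter fun x => Sat x T' with hS'
      have h1 := card_filter_add_card_filter_not (s := S') (fun x => par E.1 x = E.2)
      have h2 : (S'.filter fun x => ¬ par E.1 x = E.2).card ≤
          (S'.filter fun x => par E.1 x = E.2).card := by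
        refine card_le_card_of_injOn (fun x p => xor (x p) (δ p)) ?_ ?_
        · intro x hx
          rw [mem_coe, mem_filter, hS', mem_filter] at hx
          obtain ⟨⟨hx1, hx2⟩, hx3⟩ := hx
          rw [mem_coe, mem_filter, hS', mem_filter]
          refine ⟨⟨?_, ?_⟩, ?_⟩
          · refine hS x hx1 _ fun B hB => ?_
            rw [par_xor, hδ1 B (mem_union_left _ hB), add_zero]
          · intro E' hE'
            have hne : E' ≠ E := fun h => hE (h ▸ hE')
            have hmem : E'.1 ∈ D ∪ (T.erase E).image Prod.fst :=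
              mem_union_right _ (mem_image_of_mem _
                (mem_erase.2 ⟨hne, hsub (mem_insert_of_mem hE')⟩))
            rw [par_xor, hδ1 _ hmem, add_zero]
            exact hx2 E' hE'
          · rw [par_xor, hδ2]
            have : ∀ s c : ZMod 2, ¬ s = c → s + 1 = c := by decide
            exact this _ _ hx3
        · intro x _ y _ h
          funext p
          have := congrFun h p
          simp only at this
          cases h1 : x p <;> cases h2 : y p <;> cases h3 : δ p <;> simp_all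
      have h3 : (S'.filter fun x => par E.1 x = E.2).card ≤
          (S.filter fun x => Sat x (insert E T')).card := by
        refine card_le_card fun x hx => ?_
        rw [mem_filter, hS', mem_filter] at hx
        rw [mem_filter]
        refine ⟨hx.1.1, fun E' hE' => ?_⟩
        rcases mem_insert.1 hE' with rfl | hE'
        · exact hx.2
        · exact hx.1.2 E' hE'
      rw [card_insert_of_notMem hE, pow_succ]
      calc S.card ≤ 2 ^ T'.card * S'.card := ih'
        _ ≤ 2 ^ T'.card * (2 * (S.filter fun x => Sat x (insert E T')).card) :=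
            Nat.mul_le_mul_left _ (by omega)
        _ = _ := by ring
  exact key T subset_rfl

open scoped Classical in
/-- Either no term is independent of few parities, or many terms are mutually independent. -/
theorem dich (g : Finset (Finset (Finset U × ZMod 2))) (d : ℕ) (hd : ∀ T ∈ g, T.card ≤ d)
    (N : ℕ) :
    (∃ D : Finset (Finset U), D.card ≤ d * N ∧ (∀ A ∈ D, ∃ T ∈ g, ∃ E ∈ T, E.1 = A) ∧
      ∀ T ∈ g, ¬ Free D T) ∨
    ∃ D : Finset (Finset U), D.card ≤ d * N ∧ (∀ A ∈ D, ∃ T ∈ g, ∃ E ∈ T, E.1 = A) ∧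
      ∃ G ⊆ g, (∀ T ∈ G, ∀ E ∈ T, E.1 ∈ D) ∧
        (univ.filter fun x : U → Bool => ∀ T ∈ G, ¬ Sat x T).card * (2 ^ d) ^ N ≤
          (2 ^ d - 1) ^ N * Fintype.card (U → Bool) := by
  induction N with
  | zero =>
    refine Or.inr ⟨∅, by simp, by simp, ∅, empty_subset _, by simp, ?_⟩
    rw [pow_zero, pow_zero, mul_one, one_mul]
    exact (card_filter_le _ _).trans (by rw [card_univ])
  | succ N ih =>
    rcases ih with ⟨D, h1, h2, h3⟩ | ⟨D, h1, h2, G, hG, h3, h4⟩
    · exact Or.inl ⟨D, h1.trans (Nat.mul_le_mul_left _ (Nat.le_succ _)), h2, h3⟩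
    · by_cases hfree : ∀ T ∈ g, ¬ Free D T
      · exact Or.inl ⟨D, h1.trans (Nat.mul_le_mul_left _ (Nat.le_succ _)), h2, hfree⟩
      · push Not at hfree
        obtain ⟨T, hTg, hT⟩ := hfree
        refine Or.inr ⟨D ∪ T.image Prod.fst, ?_, ?_, insert T G, ?_, ?_, ?_⟩
        · have e1 := card_union_le D (T.image Prod.fst)
          have e2 : (T.image Prod.fst).card ≤ T.card := card_image_le
          have e3 := hd T hTg
          rw [Nat.mul_succ]
          omega
        · intro A hA
          rcases mem_union.1 hA with hA | hA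
          · exact h2 A hA
          · obtain ⟨E, hE, rfl⟩ := mem_image.1 hA
            exact ⟨T, hTg, E, hE, rfl⟩
        · exact insert_subset hTg hG
        · intro T' hT' E hE
          rcases mem_insert.1 hT' with rfl | hT'
          · exact mem_union_right _ (mem_image_of_mem _ hE)
          · exact mem_union_left _ (h3 T' hT' E hE)
        · set S := univ.filter fun x : U → Bool => ∀ T ∈ G, ¬ Sat x T with hS
          have hinv : ∀ x ∈ S, ∀ x', (∀ B ∈ D, par B x = par B x') → x' ∈ S := by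
            intro x hx x' hxx
            rw [hS, mem_filter] at hx ⊢
            refine ⟨mem_univ _, fun T' hT' hsat => hx.2 T' hT' fun E hE => ?_⟩
            rw [hxx _ (h3 T' hT' E hE)]
            exact hsat E hE
          have e1 := free_card hT hinv
          have e2 := card_filter_add_card_filter_not (s := S) (fun x => Sat x T)
          have e3 : (univ.filter fun x : U → Bool => ∀ T' ∈ insert T G, ¬ Sat x T').card ≤
              (S.filter fun x => ¬ Sat x T).card := by
            refine card_le_card fun x hx => ?_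
            rw [mem_filter] at hx
            rw [mem_filter, hS, mem_filter]
            exact ⟨⟨mem_univ _, fun T' hT' => hx.2 T' (mem_insert_of_mem hT')⟩,
              hx.2 T (mem_insert_self _ _)⟩
          have e4 : S.card ≤ 2 ^ d * (S.filter fun x => Sat x T).card :=
            e1.trans (Nat.mul_le_mul_right _ (Nat.pow_le_pow_right (by norm_num) (hd T hTg)))
          have e5 : (S.filter fun x => ¬ Sat x T).card * 2 ^ d ≤ (2 ^ d - 1) * S.card := by
            obtain ⟨m, hm⟩ : ∃ m, 2 ^ d = m + 1 := ⟨2 ^ d - 1, by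
              have := Nat.one_le_two_pow (n := d); omega⟩
            rw [hm] at e4 ⊢
            rw [Nat.add_sub_cancel]
            nlinarith
          calc _ ≤ (S.filter fun x => ¬ Sat x T).card * (2 ^ d) ^ (N + 1) :=
                Nat.mul_le_mul_right _ e3
            _ = ((S.filter fun x => ¬ Sat x T).card * 2 ^ d) * (2 ^ d) ^ N := by ring
            _ ≤ ((2 ^ d - 1) * S.card) * (2 ^ d) ^ N := Nat.mul_le_mul_right _ e5
            _ = (2 ^ d - 1) * (S.card * (2 ^ d) ^ N) := by ring
            _ ≤ (2 ^ d - 1) * ((2 ^ d - 1) ^ N * Fintype.card (U → Bool)) :=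
                Nat.mul_le_mul_left _ h4
            _ = _ := by ring

/-- When the parities in `D` are known, one equation can be left out of each term that is not
independent of `D`. -/
theorem reduce (g : Finset (Finset (Finset U × ZMod 2))) (D : Finset (Finset U))
    (hD : ∀ T ∈ g, ¬ Free D T) (d : ℕ) (hd : ∀ T ∈ g, T.card ≤ d + 1)
    (τ : Finset U → ZMod 2) :
    ∃ g' : Finset (Finset (Finset U × ZMod 2)), (∀ T' ∈ g', T'.card ≤ d ∧ ∃ T ∈ g, T' ⊆ T) ∧
      ∀ x : U → Bool, (∀ A ∈ D, par A x = τ A) → ((∃ T ∈ g, Sat x T) ↔ ∃ T ∈ g', Sat x T) := by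
  classical
  have h1 : ∀ T, ∃ E : Finset U × ZMod 2, T ∈ g → E ∈ T ∧
      Dtm (D ∪ (T.erase E).image Prod.fst) E.1 := by
    intro T
    by_cases hT : T ∈ g
    · have := hD T hT
      unfold Free at this
      push Not at this
      obtain ⟨E, hE, h⟩ := this
      exact ⟨E, fun _ => ⟨hE, h⟩⟩
    · exact ⟨(∅, 0), fun h => absurd h hT⟩
  choose E hE using h1
  refine ⟨(g.filter fun T => ∃ x : U → Bool, (∀ A ∈ D, par A x = τ A) ∧ Sat x T).image
    fun T => T.erase (E T), ?_, ?_⟩
  · intro T' hT'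
    obtain ⟨T, hT, rfl⟩ := mem_image.1 hT'
    have hTg := (mem_filter.1 hT).1
    refine ⟨?_, T, hTg, erase_subset _ _⟩
    rw [card_erase_of_mem (hE T hTg).1]
    have := hd T hTg
    omega
  · intro x hx
    constructor
    · rintro ⟨T, hT, hs⟩
      exact ⟨T.erase (E T), mem_image_of_mem _ (mem_filter.2 ⟨hT, x, hx, hs⟩),
        fun e he => hs e (mem_of_mem_erase he)⟩
    · rintro ⟨T', hT', hs⟩
      obtain ⟨T, hT, rfl⟩ := mem_image.1 hT'
      obtain ⟨hTg, x₁, hx₁, hs₁⟩ := mem_filter.1 hT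
      refine ⟨T, hTg, fun e he => ?_⟩
      by_cases hee : e = E T
      · rw [hee, ← hs₁ (E T) (hE T hTg).1]
        refine (hE T hTg).2 x x₁ fun B hB => ?_
        rcases mem_union.1 hB with hB | hB
        · rw [hx B hB, hx₁ B hB]
        · obtain ⟨e', he', rfl⟩ := mem_image.1 hB
          rw [hs e' he', hs₁ e' (mem_of_mem_erase he')]
      · exact hs e (mem_erase.2 ⟨hee, he⟩)

end Free

section Trees

variable {Y U : Type}

/-- The condition `φ` is decided on `S` by at most `r` adaptive parity queries to `X v`. -/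
inductive PTree (X : Y → U → Bool) (φ : Y → Prop) : ℕ → Set Y → Prop
  | leaf (r : ℕ) (S : Set Y) : (∀ v ∈ S, ∀ v' ∈ S, (φ v ↔ φ v')) → PTree X φ r S
  | node (r : ℕ) (S : Set Y) (A : Finset U) : PTree X φ r (S ∩ {v | par A (X v) = 0}) →
      PTree X φ r (S ∩ {v | par A (X v) = 1}) → PTree X φ (r + 1) S

variable {X : Y → U → Bool} {φ ψ : Y → Prop}

theorem PTree.congr {r r' : ℕ} {S S' : Set Y} (h : PTree X φ r S) (hS : S' ⊆ S) (hr : r ≤ r')
    (hφ : ∀ v ∈ S', (ψ v ↔ φ v)) : PTree X ψ r' S' := by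
  induction h generalizing S' r' with
  | leaf r S h =>
    refine PTree.leaf _ _ fun v hv v' hv' => ?_
    rw [hφ v hv, hφ v' hv', h v (hS hv) v' (hS hv')]
  | node r S A _ _ ih1 ih2 =>
    obtain ⟨q, rfl⟩ : ∃ q, r' = q + 1 := ⟨r' - 1, by omega⟩
    exact PTree.node q _ A
      (ih1 (Set.inter_subset_inter_left _ hS) (by omega) fun v hv => hφ v hv.1)
      (ih2 (Set.inter_subset_inter_left _ hS) (by omega) fun v hv => hφ v hv.1)

theorem PTree.queries [DecidableEq U] {r : ℕ} (D : Finset (Finset U)) : ∀ (S : Set Y),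
    (∀ τ : Finset U → ZMod 2, PTree X φ r (S ∩ {v | ∀ A ∈ D, par A (X v) = τ A})) →
      PTree X φ (D.card + r) S := by
  induction D using Finset.induction_on with
  | empty =>
    intro S h
    refine (h fun _ => 0).congr (fun v hv => ⟨hv, fun A hA => absurd hA (notMem_empty _)⟩)
      (by omega) fun v _ => Iff.rfl
  | insert A D hA ih =>
    intro S h
    rw [card_insert_of_notMem hA, Nat.add_right_comm]
    have key : ∀ c : ZMod 2, PTree X φ (D.card + r) (S ∩ {v | par A (X v) = c}) := by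
      intro c
      refine ih _ fun τ => ?_
      refine (h (Function.update τ A c)).congr ?_ le_rfl fun v _ => Iff.rfl
      rintro v ⟨⟨h1, h2⟩, h3⟩
      refine ⟨h1, fun B hB => ?_⟩
      rcases mem_insert.1 hB with rfl | hB
      · rw [Function.update_self]
        exact h2
      · rw [Function.update_of_ne (ne_of_mem_of_not_mem hB hA)]
        exact h3 B hB
    exact PTree.node _ _ A (key 0) (key 1)

end Trees

section Numbers

theorem pow_aux1 (k : ℕ) : ∀ n : ℕ, k ^ (n + 1) + (n + 1) * k ^ n ≤ (k + 1) ^ (n + 1) := by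
  intro n
  induction n with
  | zero => simp
  | succ n ih =>
    have h1 := Nat.mul_le_mul_right (k + 1) ih
    calc k ^ (n + 1 + 1) + (n + 1 + 1) * k ^ (n + 1)
        ≤ (k ^ (n + 1) + (n + 1) * k ^ n) * (k + 1) := by
          have : (k ^ (n + 1) + (n + 1) * k ^ n) * (k + 1) =
              k ^ (n + 1 + 1) + (n + 1 + 1) * k ^ (n + 1) + (n + 1) * k ^ n := by ring
          rw [this]
          exact Nat.le_add_right _ _
      _ ≤ (k + 1) ^ (n + 1) * (k + 1) := h1
      _ = _ := by ring

theorem pow_aux2 (m M : ℕ) (hm : 1 ≤ m) : (m - 1) ^ (m * M) * 2 ^ M ≤ m ^ (m * M) := by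
  obtain ⟨k, rfl⟩ : ∃ k, m = k + 1 := ⟨m - 1, by omega⟩
  rw [Nat.add_sub_cancel, pow_mul, pow_mul, ← mul_pow]
  refine Nat.pow_le_pow_left ?_ _
  have h1 := pow_aux1 k k
  have h2 : k * k ^ k ≤ (k + 1) * k ^ k := Nat.mul_le_mul_right _ (Nat.le_succ _)
  rw [pow_succ k k] at h1 ⊢
  rw [mul_comm (k ^ k) k] at h1 ⊢
  omega

theorem pow_aux3 {a b k N M : ℕ} (hk : 1 ≤ k) (h1 : a * k ^ N ≤ (k - 1) ^ N * b)
    (h2 : (k - 1) ^ N * 2 ^ M ≤ k ^ N) : a * 2 ^ M ≤ b := by
  have e4 : a * 2 ^ M * k ^ N ≤ b * k ^ N := by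
    calc _ = a * k ^ N * 2 ^ M := by ring
      _ ≤ (k - 1) ^ N * b * 2 ^ M := Nat.mul_le_mul_right _ h1
      _ = b * ((k - 1) ^ N * 2 ^ M) := by ring
      _ ≤ _ := Nat.mul_le_mul_left _ h2
  exact Nat.le_of_mul_le_mul_right e4 (Nat.pow_pos hk)

theorem half_aux {a b₁ b₂ lam c : ℕ} (h : a ≤ b₁ + b₂) (h1 : 2 ^ (lam + 1) * b₁ ≤ c)
    (h2 : 2 ^ (lam + 1) * b₂ ≤ c) : 2 ^ lam * a ≤ c := by
  have e2 : 2 * (2 ^ lam * a) ≤ 2 * c := by
    calc _ = 2 ^ (lam + 1) * a := by ring
      _ ≤ 2 ^ (lam + 1) * (b₁ + b₂) := Nat.mul_le_mul_left _ h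
      _ = 2 ^ (lam + 1) * b₁ + 2 ^ (lam + 1) * b₂ := by ring
      _ ≤ _ := by omega
  exact Nat.le_of_mul_le_mul_left e2 (by norm_num)

theorem hit_aux {a q c m t lam G : ℕ} (hq : 0 < q) (h1 : a * q ^ t ≤ c ^ t * m) (hc : c ≤ G)
    {lam' : ℕ} (hl : lam ≤ lam') (H : 2 ^ lam' * G ^ t ≤ q ^ t) : 2 ^ lam * a ≤ m := by
  have e3 : 2 ^ lam * a * q ^ t ≤ m * q ^ t := by
    calc _ = 2 ^ lam * (a * q ^ t) := by ring
      _ ≤ 2 ^ lam * (c ^ t * m) := Nat.mul_le_mul_left _ h1
      _ ≤ 2 ^ lam' * (G ^ t * m) :=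
          Nat.mul_le_mul (Nat.pow_le_pow_right (by norm_num) hl)
            (Nat.mul_le_mul_right _ (Nat.pow_le_pow_left hc _))
      _ = 2 ^ lam' * G ^ t * m := by ring
      _ ≤ q ^ t * m := Nat.mul_le_mul_right _ H
      _ = _ := mul_comm _ _
  exact Nat.le_of_mul_le_mul_right e3 (Nat.pow_pos hq)

/-- The depth of the trees and the logarithm of the measure needed. -/
def GG (τ : ℕ) : ℕ → ℕ → ℕ
  | 0, lam => lam
  | d + 1, lam => GG τ d (lam + (d + 1) * (2 ^ (d + 1) * (lam + 1 + τ))) +
      (d + 1) * (2 ^ (d + 1) * (lam + 1 + τ))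

theorem GG_ge (τ : ℕ) : ∀ d lam, lam ≤ GG τ d lam := by
  intro d
  induction d with
  | zero => intro lam; exact le_rfl
  | succ d ih =>
    intro lam
    rw [GG]
    have := ih (lam + (d + 1) * (2 ^ (d + 1) * (lam + 1 + τ)))
    omega

/-- The growth of the parameters. -/
def cG : ℕ → ℕ
  | 0 => 1
  | d + 1 => cG d * ((d + 1) * 2 ^ (d + 1) + 1) + (d + 1) * 2 ^ (d + 1)

theorem GG_le (τ : ℕ) : ∀ d lam, GG τ d lam ≤ cG d * (lam + 1 + τ) := by
  intro d
  induction d with
  | zero => intro lam; rw [GG, cG]; omega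
  | succ d ih =>
    intro lam
    rw [GG, cG]
    have h1 := ih (lam + (d + 1) * (2 ^ (d + 1) * (lam + 1 + τ)))
    have h2 : lam + (d + 1) * (2 ^ (d + 1) * (lam + 1 + τ)) + 1 + τ =
        ((d + 1) * 2 ^ (d + 1) + 1) * (lam + 1 + τ) := by ring
    rw [h2] at h1
    calc _ ≤ cG d * (((d + 1) * 2 ^ (d + 1) + 1) * (lam + 1 + τ)) +
          (d + 1) * (2 ^ (d + 1) * (lam + 1 + τ)) := Nat.add_le_add_right h1 _
      _ = _ := by ring

end Numbers

section Pointers

variable {J Q R P : Type} [Fintype J] [DecidableEq J] [Fintype Q] [DecidableEq Q] [Fintype R]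
  [DecidableEq R] [Fintype P] [DecidableEq P] (ptr : (J → Q) ≃ (P → Bool))

/-- The assignment to cells and pointer bits. -/
def asg (z : J → Q) (u : J × Q × R → Bool) (v : J × R → Bool) : (J × Q × R) ⊕ P → Bool :=
  Sum.elim (cellVal z u v) (ptr z)

/-- The cells that occur in a set of parities. -/
def cells (D : Finset (Finset ((J × Q × R) ⊕ P))) : Finset (J × Q × R) :=
  univ.filter fun p => ∃ A ∈ D, Sum.inl p ∈ A

theorem cells_card {D : Finset (Finset ((J × Q × R) ⊕ P))} {w : ℕ}
    (hw : ∀ A ∈ D, A.card ≤ w) : (cells D).card ≤ D.card * w := by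
  have h1 : cells D ⊆ D.biUnion fun A => univ.filter fun p => Sum.inl p ∈ A := by
    intro p hp
    obtain ⟨A, hA, h⟩ := (mem_filter.1 hp).2
    exact mem_biUnion.2 ⟨A, hA, mem_filter.2 ⟨mem_univ _, h⟩⟩
  refine (card_le_card h1).trans (card_biUnion_le_card_mul _ _ _ fun A hA => ?_)
  refine le_trans ?_ (hw A hA)
  rw [← card_image_of_injective _ (Sum.inl_injective (α := J × Q × R) (β := P))]
  refine card_le_card fun q hq => ?_
  obtain ⟨p, hp, rfl⟩ := mem_image.1 hq
  exact (mem_filter.1 hp).2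

include ptr in
theorem card_full : Fintype.card ((J × Q × R) ⊕ P → Bool) =
    Fintype.card ((J → Q) × (J × Q × R → Bool)) := by
  rw [Fintype.card_prod, Fintype.card_congr ptr, ← Fintype.card_prod,
    Fintype.card_congr (Equiv.sumArrowEquivProdArrow _ _ _), Fintype.card_congr (Equiv.prodComm _ _)]

open scoped Classical in
theorem live_count (D : Finset (Finset ((J × Q × R) ⊕ P)))
    (G : Finset (Finset (Finset ((J × Q × R) ⊕ P) × ZMod 2)))
    (hG : ∀ T ∈ G, ∀ E ∈ T, E.1 ∈ D) (t : ℕ) :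
    (univ.filter fun ω : (J → Q) × (J × Q × R → Bool) => (hit (cells D) ω.1).card ≤ t ∧
      ∃ v : J × R → Bool, ∀ T ∈ G, ¬ Sat (asg ptr ω.1 ω.2 v) T).card ≤
      (univ.filter fun x : (J × Q × R) ⊕ P → Bool => ∀ T ∈ G, ¬ Sat x T).card *
        2 ^ (t * Fintype.card R) := by
  set F := univ.filter fun x : (J × Q × R) ⊕ P → Bool => ∀ T ∈ G, ¬ Sat x T with hF
  set zz : ((J × Q × R) ⊕ P → Bool) → J → Q := fun x => ptr.symm fun p => x (Sum.inr p) with hzz
  set B := univ.filter fun ω : (J → Q) × (J × Q × R → Bool) => (hit (cells D) ω.1).card ≤ t ∧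
      ∃ v : J × R → Bool, ∀ T ∈ G, ¬ Sat (asg ptr ω.1 ω.2 v) T with hB
  have hv : ∀ ω : (J → Q) × (J × Q × R → Bool), ∃ v : J × R → Bool, ω ∈ B →
      ∀ T ∈ G, ¬ Sat (asg ptr ω.1 ω.2 v) T := by
    intro ω
    by_cases h : ω ∈ B
    · obtain ⟨v, hv⟩ := (mem_filter.1 h).2.2
      exact ⟨v, fun _ => hv⟩
    · exact ⟨fun _ => false, fun h' => absurd h' h⟩
  choose v hv using hv
  set x : (J → Q) × (J × Q × R → Bool) → (J × Q × R) ⊕ P → Bool := fun ω =>
    Sum.elim (fun p => if p.2.1 = ω.1 p.1 ∧ p.1 ∈ hit (cells D) ω.1 then v ω (p.1, p.2.2)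
      else ω.2 p) (ptr ω.1) with hx
  have hzx : ∀ ω, zz (x ω) = ω.1 := by
    intro ω
    simp only [hzz, hx, Sum.elim_inr]
    exact ptr.symm_apply_apply _
  set S := (F.filter fun x => (hit (cells D) (zz x)).card ≤ t).sigma
    fun x => vals R (hit (cells D) (zz x)) with hS
  have hScard : S.card ≤ F.card * 2 ^ (t * Fintype.card R) := by
    rw [hS, card_sigma]
    refine (sum_le_card_nsmul _ _ (2 ^ (t * Fintype.card R)) fun x hx => ?_).trans ?_
    · rw [vals_card]
      exact Nat.pow_le_pow_right (by norm_num) (Nat.mul_le_mul_right _ (mem_filter.1 hx).2)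
    · rw [smul_eq_mul]
      exact Nat.mul_le_mul_right _ (card_filter_le _ _)
  refine le_trans ?_ hScard
  refine card_le_card_of_injOn (fun ω => (⟨x ω, fun p : J × R =>
    if p.1 ∈ hit (cells D) ω.1 then ω.2 (p.1, ω.1 p.1, p.2) else false⟩ :
      (_ : (J × Q × R) ⊕ P → Bool) × (J × R → Bool))) ?_ ?_
  · intro ω hω
    rw [mem_coe] at hω
    rw [mem_coe, hS, mem_sigma]
    simp only
    rw [hzx]
    refine ⟨mem_filter.2 ⟨?_, ?_⟩, ?_⟩
    · rw [hF, mem_filter]
      refine ⟨mem_univ _, fun T hT hsat => hv ω hω T hT fun E hE => ?_⟩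
      rw [← hsat E hE]
      unfold par
      refine sum_congr rfl fun i hi => ?_
      have : asg ptr ω.1 ω.2 (v ω) i = x ω i := by
        rcases i with p | p
        · simp only [asg, hx, Sum.elim_inl, cellVal]
          by_cases he : p.2.1 = ω.1 p.1
          · have hK : p.1 ∈ hit (cells D) ω.1 := by
              unfold hit
              rw [mem_filter]
              refine ⟨mem_univ _, p.2.2, ?_⟩
              unfold cells
              rw [mem_filter]
              refine ⟨mem_univ _, E.1, hG T hT E hE, ?_⟩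
              rw [← he]
              exact hi
            rw [if_pos he, if_pos ⟨he, hK⟩]
          · rw [if_neg he, if_neg fun h => he h.1]
        · simp only [asg, hx, Sum.elim_inr]
      rw [this]
    · rw [hzx]
      exact (mem_filter.1 hω).2.1
    · unfold vals
      rw [Fintype.mem_piFinset]
      intro p
      by_cases hp : p.1 ∈ hit (cells D) ω.1
      · simp [hp]
      · simp [hp]
  · intro ω _ ω' _ h
    simp only [Sigma.mk.injEq, heq_eq_eq] at h
    obtain ⟨h1, h2⟩ := h
    have hz : ω.1 = ω'.1 := by rw [← hzx ω, ← hzx ω', h1]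
    refine Prod.ext hz ?_
    funext p
    have e1 := congrFun h1 (Sum.inl p)
    have e2 := congrFun h2 (p.1, p.2.2)
    simp only [hx, Sum.elim_inl] at e1 e2
    rw [← hz] at e1 e2
    by_cases he : p.2.1 = ω.1 p.1 ∧ p.1 ∈ hit (cells D) ω.1
    · rw [if_pos he.2, if_pos he.2, ← he.1] at e2
      exact e2
    · rw [if_neg he, if_neg he] at e1
      exact e1

/-- For almost all pointers and dead cells a disjunction of conjunctions of `d` linear equations
is decided by few adaptive parity queries. -/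
theorem dnf_bad (t w : ℕ) [Nonempty Q] : ∀ (d lam : ℕ)
    (g : Finset (Finset (Finset ((J × Q × R) ⊕ P) × ZMod 2))),
    (∀ T ∈ g, T.card ≤ d ∧ ∀ E ∈ T, E.1.card ≤ w) →
    2 ^ (GG (t * Fintype.card R) d lam + 1) * (GG (t * Fintype.card R) d lam * w) ^ t ≤
      Fintype.card Q ^ t →
    ∃ Bad : Finset ((J → Q) × (J × Q × R → Bool)),
      2 ^ lam * Bad.card ≤ Fintype.card ((J → Q) × (J × Q × R → Bool)) ∧
      ∀ ω ∉ Bad, PTree (asg ptr ω.1 ω.2) (fun v => ∃ T ∈ g, Sat (asg ptr ω.1 ω.2 v) T)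
        (GG (t * Fintype.card R) d lam) Set.univ := by
  classical
  intro d
  induction d with
  | zero =>
    intro lam g hg _
    refine ⟨∅, by simp, fun ω _ => PTree.leaf _ _ fun v _ v' _ => ?_⟩
    have h0 : ∀ T ∈ g, ∀ x : (J × Q × R) ⊕ P → Bool, Sat x T := by
      intro T hT x E hE
      have := card_pos.2 ⟨E, hE⟩
      have := (hg T hT).1
      omega
    exact ⟨fun ⟨T, hT, _⟩ => ⟨T, hT, h0 T hT _⟩, fun ⟨T, hT, _⟩ => ⟨T, hT, h0 T hT _⟩⟩
  | succ d ih =>
    intro lam g hg H
    obtain ⟨τ, hτ⟩ : ∃ τ, τ = t * Fintype.card R := ⟨_, rfl⟩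
    rw [← hτ] at H ih ⊢
    obtain ⟨M, hM⟩ : ∃ M, M = lam + 1 + τ := ⟨_, rfl⟩
    obtain ⟨N, hN⟩ : ∃ N, N = 2 ^ (d + 1) * M := ⟨_, rfl⟩
    obtain ⟨c₀, hc₀⟩ : ∃ c₀, c₀ = Fintype.card ((J → Q) × (J × Q × R → Bool)) := ⟨_, rfl⟩
    have hGG : GG τ (d + 1) lam = GG τ d (lam + (d + 1) * N) + (d + 1) * N := by
      rw [hN, hM]
      rfl
    have hge : lam + (d + 1) * N ≤ GG τ d (lam + (d + 1) * N) := GG_ge _ _ _
    have hQ : 0 < Fintype.card Q := Fintype.card_pos
    rcases dich g (d + 1) (fun T hT => (hg T hT).1) N with ⟨D, h1, h2, h3⟩ |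
      ⟨D, h1, h2, G, hG, h3, h4⟩
    · -- query the parities in `D`
      have hred : ∀ τ' : {A // A ∈ D} → ZMod 2,
          ∃ g' : Finset (Finset (Finset ((J × Q × R) ⊕ P) × ZMod 2)),
          (∀ T' ∈ g', T'.card ≤ d ∧ ∃ T ∈ g, T' ⊆ T) ∧
          ∀ x, (∀ A ∈ D, par A x = if h : A ∈ D then τ' ⟨A, h⟩ else 0) →
            ((∃ T ∈ g, Sat x T) ↔ ∃ T ∈ g', Sat x T) := fun τ' =>
        reduce g D h3 d (fun T hT => (hg T hT).1) fun A => if h : A ∈ D then τ' ⟨A, h⟩ else 0
      choose g' hg'1 hg'2 using hred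
      have H' : 2 ^ (GG τ d (lam + (d + 1) * N) + 1) *
          (GG τ d (lam + (d + 1) * N) * w) ^ t ≤ Fintype.card Q ^ t := by
        refine le_trans (Nat.mul_le_mul (Nat.pow_le_pow_right (by norm_num) ?_)
          (Nat.pow_le_pow_left (Nat.mul_le_mul_right _ ?_) _)) H
        · omega
        · omega
      choose Bad hb1 hb2 using fun τ' => ih (lam + (d + 1) * N) (g' τ') (fun T' hT' => by
        obtain ⟨e1, T, hT, e2⟩ := hg'1 τ' T' hT'
        exact ⟨e1, fun E hE => (hg T hT).2 E (e2 hE)⟩) H'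
      refine ⟨univ.biUnion Bad, ?_, ?_⟩
      · have e1 : 2 ^ (lam + (d + 1) * N) * (univ.biUnion Bad).card ≤ 2 ^ ((d + 1) * N) * c₀ := by
          calc 2 ^ (lam + (d + 1) * N) * (univ.biUnion Bad).card
              ≤ 2 ^ (lam + (d + 1) * N) * ∑ τ', (Bad τ').card :=
                Nat.mul_le_mul_left _ card_biUnion_le
            _ = ∑ τ', 2 ^ (lam + (d + 1) * N) * (Bad τ').card := mul_sum _ _ _
            _ ≤ ∑ _τ' : {A // A ∈ D} → ZMod 2, c₀ := sum_le_sum fun τ' _ => by
                rw [hc₀]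
                exact hb1 τ'
            _ = 2 ^ D.card * c₀ := by
                rw [sum_const, card_univ, Fintype.card_fun, ZMod.card, Fintype.card_coe,
                  smul_eq_mul]
            _ ≤ _ := Nat.mul_le_mul_right _ (Nat.pow_le_pow_right (by norm_num) h1)
        rw [pow_add, mul_comm (2 ^ lam), mul_assoc] at e1
        rw [← hc₀]
        exact Nat.le_of_mul_le_mul_left e1 (Nat.two_pow_pos _)
      · intro ω hω
        rw [hGG]
        have key : PTree (asg ptr ω.1 ω.2) (fun v => ∃ T ∈ g, Sat (asg ptr ω.1 ω.2 v) T)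
            (D.card + GG τ d (lam + (d + 1) * N)) Set.univ := by
          refine PTree.queries D _ fun τ' => ?_
          have hω' : ω ∉ Bad (fun A => τ' A.1) := fun h =>
            hω (mem_biUnion.2 ⟨_, mem_univ _, h⟩)
          refine (hb2 _ ω hω').congr (Set.subset_univ _) le_rfl ?_
          rintro v ⟨-, hv⟩
          refine hg'2 _ _ fun A hA => ?_
          rw [dif_pos hA]
          exact hv A hA
        exact key.congr subset_rfl (by omega) fun v _ => Iff.rfl
    · -- some term is true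
      have hDw : ∀ A ∈ D, A.card ≤ w := by
        intro A hA
        obtain ⟨T, hT, E, hE, rfl⟩ := h2 A hA
        exact (hg T hT).2 E hE
      have hcells : (cells D).card ≤ GG τ (d + 1) lam * w := by
        refine (cells_card hDw).trans (Nat.mul_le_mul_right _ ?_)
        omega
      obtain ⟨Bz, hBz⟩ : ∃ Bz, Bz = univ.filter fun z : J → Q => t ≤ (hit (cells D) z).card :=
        ⟨_, rfl⟩
      obtain ⟨B1, hB1⟩ : ∃ B1 : Finset ((J → Q) × (J × Q × R → Bool)),
          B1 = Bz ×ˢ (univ : Finset (J × Q × R → Bool)) := ⟨_, rfl⟩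
      obtain ⟨B2, hB2⟩ : ∃ B2, B2 = univ.filter fun ω : (J → Q) × (J × Q × R → Bool) =>
          (hit (cells D) ω.1).card ≤ t ∧
          ∃ v : J × R → Bool, ∀ T ∈ G, ¬ Sat (asg ptr ω.1 ω.2 v) T := ⟨_, rfl⟩
      have hΩc : c₀ = Fintype.card (J → Q) * Fintype.card (J × Q × R → Bool) := by
        rw [hc₀, Fintype.card_prod]
      have c1 : 2 ^ (lam + 1) * B1.card ≤ c₀ := by
        have e1 := hit_count (cells D) t
        rw [← hBz] at e1
        have e2 : 2 ^ (lam + 1) * Bz.card ≤ Fintype.card (J → Q) :=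
          hit_aux hQ e1 hcells (Nat.succ_le_succ (GG_ge _ _ _)) H
        rw [hB1, card_product, card_univ, hΩc, ← mul_assoc]
        exact Nat.mul_le_mul_right _ e2
      have c2 : 2 ^ (lam + 1) * B2.card ≤ c₀ := by
        have e1 := live_count ptr D G h3 t
        rw [← hB2, ← hτ] at e1
        obtain ⟨f, hf⟩ : ∃ f, f = (univ.filter fun x : (J × Q × R) ⊕ P → Bool =>
          ∀ T ∈ G, ¬ Sat x T).card := ⟨_, rfl⟩
        rw [← hf] at e1
        have e3 := pow_aux2 (2 ^ (d + 1)) M Nat.one_le_two_pow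
        rw [← hN] at e3
        have h4' : f * (2 ^ (d + 1)) ^ N ≤ (2 ^ (d + 1) - 1) ^ N * c₀ := by
          rw [hf, hc₀, ← card_full ptr]
          convert h4
        have e2 : f * 2 ^ M ≤ c₀ := pow_aux3 Nat.one_le_two_pow h4' e3
        calc 2 ^ (lam + 1) * B2.card ≤ 2 ^ (lam + 1) * (f * 2 ^ τ) :=
              Nat.mul_le_mul_left _ e1
          _ = f * 2 ^ M := by rw [hM, pow_add]; ring
          _ ≤ c₀ := e2
      refine ⟨B1 ∪ B2, ?_, ?_⟩
      · rw [← hc₀]
        exact half_aux (card_union_le B1 B2) c1 c2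
      · intro ω hω
        rw [mem_union, not_or] at hω
        have hall : ∀ v, ∃ T ∈ g, Sat (asg ptr ω.1 ω.2 v) T := by
          intro v
          by_contra hcon
          push Not at hcon
          by_cases hz : t ≤ (hit (cells D) ω.1).card
          · refine hω.1 ?_
            rw [hB1, hBz]
            exact mem_product.2 ⟨mem_filter.2 ⟨mem_univ _, hz⟩, mem_univ _⟩
          · refine hω.2 ?_
            rw [hB2]
            exact mem_filter.2 ⟨mem_univ _, by omega, v, fun T hT => hcon T (hG hT)⟩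
        exact PTree.leaf _ _ fun v _ v' _ => ⟨fun _ => hall v', fun _ => hall v⟩

end Pointers

end Pool.Agent.MP_9cec2c_lc.MixedLines
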