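import Pool.Agent.Lib.MP_9cec2c_lc.MLDefs

/-!
Every unsatisfiable CNF has a short refutation with lines that have as many terms as the CNF
has clauses.
-/

set_option autoImplicit false

namespace Pool.Agent.MP_9cec2c_lc.MixedLines

open Finset

section

variable {V : Type}

/-- The conjunction that is true if the clause `C` is falsified, with weight `-1`. -/
noncomputable def falseTerm (C : Clause V) : Term V ℝ where
  lits := open Classical in C.image fun l => (l.1, !l.2)
  supp := ∅
  wt _ := -1

theorem falseTerm_value (x : V → Bool) (C : Clause V) [Decidable (Holds x C)] :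
    (falseTerm C).value x = if Holds x C then 0 else -1 := by
  classical
  have key : (∀ l ∈ (falseTerm C).lits, x l.1 = l.2) ↔ ¬ Holds x C := by
    unfold falseTerm Holds
    constructor
    · rintro h ⟨l, hl, he⟩
      have := h (l.1, !l.2) (mem_image_of_mem (fun l : Lit V => (l.1, !l.2)) hl)
      simp only at this
      rw [he] at this
      simp at this
    · intro h l hl
      obtain ⟨l', hl', rfl⟩ := mem_image.1 hl
      simp only
      have : x l'.1 ≠ l'.2 := fun he => h ⟨l', hl', he⟩
      cases h1 : x l'.1 <;> cases h2 : l'.2 <;> simp_all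
  unfold Term.value
  by_cases h : Holds x C
  · rw [if_neg (by rw [key]; exact not_not.2 h), if_pos h]
  · rw [if_pos (key.2 h), if_neg h]
    rfl

/-- The line that is true if the clauses `C 0, …, C (n - 1)` are true. -/
noncomputable def conjLine {n : ℕ} (C : Fin n → Clause V) : Line V where
  M := PUnit
  mon := inferInstance
  fin := inferInstance
  sel := ⟨fun _ _ => 0, 0, fun i => i.elim0⟩
  num := 0
  gate i := i.elim0
  ineq _ _ := ⟨fun _ _ => 0, n, fun i => falseTerm (C i)⟩

theorem conjLine_true [Fintype V] {n : ℕ} (C : Fin n → Clause V) (x : V → Bool) :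
    (conjLine C).True x ↔ ∀ i, Holds x (C i) := by
  classical
  unfold Line.True conjLine Form.value
  simp only [sum_const_zero, zero_add, falseTerm_value]
  constructor
  · intro h i
    by_contra hi
    have h1 : ∑ i, (if Holds x (C i) then (0 : ℝ) else -1) < ∑ _i : Fin n, (0 : ℝ) :=
      sum_lt_sum (fun i _ => by split_ifs <;> norm_num) ⟨i, mem_univ _, by
        rw [if_neg hi]; norm_num⟩
    rw [sum_const_zero] at h1
    exact absurd h (not_le.2 h1)
  · intro h
    exact sum_nonneg fun i _ => by rw [if_pos (h i)]

theorem conjLine_small {n : ℕ} (C : Fin n → Clause V) {d : ℕ} {k s w : ℝ} (hk : 0 ≤ k)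
    (hs : n ≤ s) : (conjLine C).Small d k s w := by
  have hs0 : 0 ≤ s := le_trans (Nat.cast_nonneg n) hs
  refine ⟨?_, ?_, fun i => i.elim0, ⟨fun i => i.elim0, ?_⟩, fun m c => ⟨fun i x y _ => rfl, ?_⟩⟩
  · have : @Fintype.card (conjLine C).M (conjLine C).fin = 1 := Fintype.card_punit
    rw [this]
    simpa using Real.one_le_rpow (by norm_num : (1 : ℝ) ≤ 2) hk
  · have : (conjLine C).num = 0 := rfl
    rw [this]
    exact_mod_cast hk
  · have : ∑ i, (1 + (((conjLine C).sel.term i).supp.card : ℝ)) ^ 2 = 0 :=
      Finset.sum_eq_zero fun i _ => i.elim0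
    rw [this]
    exact hs0
  · have : ∑ i, (1 + ((((conjLine C).ineq m c).term i).supp.card : ℝ)) ^ 2 = (n : ℝ) := by
      change ∑ _i : Fin n, (1 + (((∅ : Finset V).card : ℕ) : ℝ)) ^ 2 = (n : ℝ)
      simp
    rw [this]
    exact hs

/-- Every unsatisfiable CNF `F` has a refutation with `2 |F| + 1` lines of at most `|F|` terms
(each of them a conjunction of literals with a constant weight), in which each line is implied by
one clause of `F` or by two earlier lines. -/
theorem exists_refutation [Fintype V] (F : Finset (Clause V)) (hF : ∀ x, ∃ C ∈ F, ¬ Holds x C) :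
    ∃ L : Fin (2 * F.card + 1) → Line V, IsRefutation 2 F L ∧ ∀ i, (L i).Small 0 0 F.card 0 := by
  classical
  set e : Fin F.card ≃ F := F.equivFin.symm with he
  -- the first `t` clauses
  set pre : (t : ℕ) → t ≤ F.card → Fin t → Clause V := fun t ht i => (e (i.castLE ht)).1 with hpre
  set L : Fin (2 * F.card + 1) → Line V := fun i =>
    if h : (i : ℕ) % 2 = 0 then conjLine (pre (i / 2) (by omega))
    else conjLine (fun _ : Fin 1 => (e ⟨i / 2, by omega⟩).1) with hL
  have hLeven : ∀ i : Fin (2 * F.card + 1), (i : ℕ) % 2 = 0 → ∀ x,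
      ((L i).True x ↔ ∀ j : Fin F.card, (j : ℕ) < i / 2 → Holds x (e j).1) := by
    intro i hi x
    have : L i = conjLine (pre (i / 2) (by omega)) := by
      simp only [hL]
      rw [dif_pos hi]
    rw [this, conjLine_true]
    constructor
    · intro h j hj
      exact h ⟨j, hj⟩
    · intro h j
      exact h (j.castLE _) j.2
  have hLodd : ∀ (i : Fin (2 * F.card + 1)) (hi : (i : ℕ) % 2 ≠ 0), ∀ x,
      ((L i).True x ↔ Holds x (e ⟨i / 2, by omega⟩).1) := by
    intro i hi x
    have : L i = conjLine (fun _ : Fin 1 => (e ⟨i / 2, by omega⟩).1) := by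
      simp only [hL]
      rw [dif_neg hi]
    rw [this, conjLine_true]
    exact ⟨fun h => h 0, fun h _ => h⟩
  refine ⟨L, ⟨⟨Fin.last _, fun x hx => ?_⟩, fun i => ?_⟩, fun i => ?_⟩
  · rw [hLeven _ (by simp)] at hx
    obtain ⟨C, hC, hn⟩ := hF x
    refine hn ?_
    have := hx (F.equivFin ⟨C, hC⟩) (by simp)
    simpa [he] using this
  · by_cases hi : (i : ℕ) % 2 = 0
    · refine Or.inr ?_
      by_cases hi0 : (i : ℕ) = 0
      · refine ⟨∅, by simp, by simp, fun x _ => ?_⟩
        rw [hLeven _ hi]
        intro j hj
        omega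
      · refine ⟨{⟨i - 2, by omega⟩, ⟨i - 1, by omega⟩}, ?_, ?_, fun x hx => ?_⟩
        · have : ∀ a b : Fin (2 * F.card + 1), ((({a, b} : Finset _).card : ℕ) : ℝ) ≤ 2 :=
            fun a b => by exact_mod_cast card_le_two
          exact this _ _
        · intro j hj
          rw [mem_insert, mem_singleton] at hj
          rcases hj with rfl | rfl
          · rw [Fin.lt_def]; simp only; omega
          · rw [Fin.lt_def]; simp only; omega
        · rw [hLeven _ hi]
          intro j hj
          have h1 := hx ⟨i - 2, by omega⟩ (by simp)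
          have h2 := hx ⟨i - 1, by omega⟩ (by simp)
          rw [hLeven _ (by simp only; omega)] at h1
          rw [hLodd _ (by simp only; omega)] at h2
          by_cases hj2 : (j : ℕ) < (i - 2) / 2
          · exact h1 j hj2
          · have : j = ⟨((⟨i - 1, by omega⟩ : Fin (2 * F.card + 1)) : ℕ) / 2, by
                simp only; omega⟩ := by
              apply Fin.ext
              simp only
              omega
            rw [this]
            exact h2
    · refine Or.inl ⟨(e ⟨(i : ℕ) / 2, by omega⟩).1, (e ⟨(i : ℕ) / 2, by omega⟩).2,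
        fun x hx => ?_⟩
      rw [hLodd _ hi]
      exact hx
  · by_cases hi : (i : ℕ) % 2 = 0
    · simp only [hL]
      rw [dif_pos hi]
      refine conjLine_small _ le_rfl ?_
      have : (i : ℕ) / 2 ≤ F.card := by omega
      exact_mod_cast this
    · simp only [hL]
      rw [dif_neg hi]
      refine conjLine_small _ le_rfl ?_
      have : 1 ≤ F.card := by omega
      exact_mod_cast this

end

end Pool.Agent.MP_9cec2c_lc.MixedLines
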