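import Pool.Agent.Lib.MP_9cec2c_lc.MLFinal
import Pool.Agent.Lib.MP_9cec2c_lc.MLSharp

/-!
The theorem for all positive exponents, with the matching refutations.
-/

set_option autoImplicit false

namespace Pool.Agent.MP_9cec2c_lc.MixedLines

open Finset Filter

theorem Line.Small.mono {V : Type} {d : ℕ} {k s w s' w' : ℝ} {L : Line V}
    (h : L.Small d k s w) (hs : s ≤ s') (hw : w ≤ w') : L.Small d k s' w' :=
  ⟨h.1, h.2.1, fun i T hT => ⟨(h.2.2.1 i T hT).1, fun E hE => ((h.2.2.1 i T hT).2 E hE).trans hw⟩,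
    ⟨h.2.2.2.1.1, h.2.2.2.1.2.trans hs⟩, fun m c => ⟨(h.2.2.2.2 m c).1, (h.2.2.2.2 m c).2.trans hs⟩⟩

theorem final (d : ℕ) (ε : ℝ) (hε : 0 < ε) :
    ∃ δ : ℝ, 0 < δ ∧ ∀ᶠ n : ℕ in atTop, ∃ F : Finset (Clause (Fin n)),
      (∀ x, ∃ C ∈ F, ¬ Holds x C) ∧ (F.card : ℝ) ≤ (n : ℝ) ^ (2 + ε) ∧
      (∀ C ∈ F, C.card ≤ 2 * Nat.log 2 n) ∧
      (∀ (S : ℕ) (L : Fin S → Line (Fin n)), IsRefutation ((n : ℝ) ^ δ) F L →
        (∀ i, (L i).Small d ((n : ℝ) ^ δ) ((n : ℝ) ^ (2 - ε)) ((n : ℝ) ^ (1 - ε))) →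
          (2 : ℝ) ^ ((n : ℝ) ^ δ) ≤ S) ∧
      ∃ L : Fin (2 * F.card + 1) → Line (Fin n), IsRefutation 2 F L ∧
        ∀ i, (L i).Small 0 0 ((n : ℝ) ^ (2 + ε)) 0 := by
  have hε' : 0 < min ε 1 := lt_min hε one_pos
  have hmin : min ε 1 ≤ ε := min_le_left _ _
  have hE : (0 : ℝ) < eE (cG d) := by
    have : 0 < eE (cG d) := by unfold eE; omega
    exact_mod_cast this
  refine ⟨min ε 1 / (10 * eE (cG d)), by positivity, ?_⟩
  filter_upwards [final_small d (min ε 1) hε' (min_le_right _ _) rfl, eventually_ge_atTop 1]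
    with n hn hn1
  have hx : (1 : ℝ) ≤ (n : ℝ) := by exact_mod_cast hn1
  obtain ⟨F, h1, h2, h3, h4⟩ := hn
  have h5 : (F.card : ℝ) ≤ (n : ℝ) ^ (2 + ε) :=
    h1.trans (Real.rpow_le_rpow_of_exponent_le hx (by linarith))
  refine ⟨F, h3, h5, h2, ?_, ?_⟩
  · intro S L hL hsm
    refine h4 S L hL fun i => (hsm i).mono ?_ ?_
    · exact Real.rpow_le_rpow_of_exponent_le hx (by linarith)
    · exact Real.rpow_le_rpow_of_exponent_le hx (by linarith)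
  · obtain ⟨L, hL, hsm⟩ := exists_refutation F h3
    exact ⟨L, hL, fun i => (hsm i).mono h5 le_rfl⟩

end Pool.Agent.MP_9cec2c_lc.MixedLines
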