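import Pool.Agent.Lib.MP_9cec2c_lc.MLMain

/-!
The choice of the parameters.
-/

set_option autoImplicit false
set_option linter.unusedSectionVars false
set_option linter.unusedVariables false

namespace Pool.Agent.MP_9cec2c_lc.MixedLines

open Finset Filter ThresholdLines

theorem JB_card (b : ℕ) : Fintype.card (JB b) =
    (2 ^ b + 1) * (2 ^ b + 1) + ((2 ^ b + 1) * 2 ^ b) * ((2 ^ b + 1) * 2 ^ b) := by
  simp [JB]

theorem JB_ge (b : ℕ) : (2 ^ b) ^ 4 ≤ Fintype.card (JB b) := by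
  rw [JB_card]
  set q := 2 ^ b with hq
  nlinarith [Nat.zero_le (q ^ 3), Nat.zero_le (q ^ 2), Nat.zero_le q]

theorem JB_le (b : ℕ) : Fintype.card (JB b) ≤ 8 * (2 ^ b) ^ 4 := by
  rw [JB_card]
  set q := 2 ^ b with hq
  have h1 : 1 ≤ q := Nat.one_le_two_pow
  have h2 : q + 1 ≤ 2 * q := by omega
  calc (q + 1) * (q + 1) + ((q + 1) * q) * ((q + 1) * q)
      ≤ (2 * q) * (2 * q) + ((2 * q) * q) * ((2 * q) * q) :=
        Nat.add_le_add (Nat.mul_le_mul h2 h2)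
          (Nat.mul_le_mul (Nat.mul_le_mul_right _ h2) (Nat.mul_le_mul_right _ h2))
    _ = 4 * (q ^ 2 * 1) + 4 * q ^ 4 := by ring
    _ ≤ 4 * (q ^ 2 * q ^ 2) + 4 * q ^ 4 := by
        refine Nat.add_le_add_right (Nat.mul_le_mul_left _ (Nat.mul_le_mul_left _ ?_)) _
        exact Nat.one_le_pow _ _ h1
    _ = 8 * q ^ 4 := by ring

theorem cG_pos : ∀ d, 1 ≤ cG d := by
  intro d
  induction d with
  | zero => exact le_rfl
  | succ d ih =>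
    rw [cG]
    have : 1 * 1 ≤ cG d * ((d + 1) * 2 ^ (d + 1) + 1) := Nat.mul_le_mul ih (by omega)
    omega

/-- The upper bound for the number of symbols. -/
def yb (c u : ℕ) : ℕ := 2 ^ 14 * c ^ 2 * (u + 4) ^ 9

/-- The number of bits of a symbol. -/
def pb (c u : ℕ) : ℕ := Nat.clog 2 (2 ^ 13 * c ^ 2 * (u + 4) ^ 9)

theorem pb_ge (c u : ℕ) : 2 ^ 13 * c ^ 2 * (u + 4) ^ 9 ≤ 2 ^ pb c u :=
  Nat.le_pow_clog (by norm_num) _

theorem pb_le {c : ℕ} (hc : 1 ≤ c) (u : ℕ) : 2 ^ pb c u ≤ yb c u := by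
  have h1 : 1 < 2 ^ 13 * c ^ 2 * (u + 4) ^ 9 := by
    have e1 : 1 ≤ (u + 4) ^ 9 := Nat.one_le_pow _ _ (by omega)
    have e2 : 1 ≤ c ^ 2 := Nat.one_le_pow _ _ hc
    calc 1 < 2 ^ 13 * 1 * 1 := by norm_num
      _ ≤ 2 ^ 13 * c ^ 2 * (u + 4) ^ 9 := Nat.mul_le_mul (Nat.mul_le_mul_left _ e2) e1
  have h2 : 2 ^ (pb c u).pred < 2 ^ 13 * c ^ 2 * (u + 4) ^ 9 :=
    Nat.pow_pred_clog_lt_self (by norm_num) h1
  have h3 : 0 < pb c u := Nat.clog_pos (by norm_num) h1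
  have h4 : 2 ^ pb c u = 2 * 2 ^ (pb c u).pred := by
    rw [← pow_succ', Nat.pred_eq_sub_one, Nat.sub_add_cancel h3]
  have h5 : yb c u = 2 * (2 ^ 13 * c ^ 2 * (u + 4) ^ 9) := by
    unfold yb
    generalize c ^ 2 * (u + 4) ^ 9 = a at *
    ring
  rw [h4, h5]
  exact Nat.mul_le_mul_left _ h2.le

theorem exponent_lt {u b c r : ℕ} (hb : b ≤ u + 1) (hc : 1 ≤ c)
    (hr : r ≤ c * ((3 * u + 4) * (2 * b + 1))) :
    (u + 1) + ((u + 2 + 1) * (2 * (3 * u + 4) * (2 * b) + ((u + 1) + ((u + 1) +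
      (u * (2 * r) + 2 * (3 * u + 4) * (2 * b))))) + 2) < 32 * c * (u + 4) ^ 4 := by
  have h1 : 2 * b + 1 ≤ 2 * (u + 4) := by omega
  have h2 : 3 * u + 4 ≤ 3 * (u + 4) := by omega
  have h3 : 2 * b ≤ 2 * (u + 4) := by omega
  obtain ⟨x, hx⟩ : ∃ x, x = u + 4 := ⟨_, rfl⟩
  rw [← hx] at h1 h2 h3 ⊢
  have hx4 : 4 ≤ x := by omega
  have hr' : r ≤ 6 * c * x ^ 2 := by
    calc r ≤ c * ((3 * u + 4) * (2 * b + 1)) := hr
      _ ≤ c * ((3 * x) * (2 * x)) := Nat.mul_le_mul_left _ (Nat.mul_le_mul h2 h1)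
      _ = 6 * c * x ^ 2 := by ring
  have e1 : 2 * (3 * u + 4) * (2 * b) ≤ 2 * (3 * x) * (2 * x) :=
    Nat.mul_le_mul (Nat.mul_le_mul_left _ h2) h3
  have e2 : u * (2 * r) ≤ x * (2 * (6 * c * x ^ 2)) :=
    Nat.mul_le_mul (by omega) (Nat.mul_le_mul_left _ hr')
  have hc3 : x ^ 3 ≤ c * x ^ 3 := Nat.le_mul_of_pos_left _ hc
  have e3 : 2 * (3 * u + 4) * (2 * b) + ((u + 1) + ((u + 1) +
      (u * (2 * r) + 2 * (3 * u + 4) * (2 * b)))) ≤ 19 * c * x ^ 3 := by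
    have f1 : 2 * (3 * x) * (2 * x) + (x + (x + (x * (2 * (6 * c * x ^ 2)) +
        2 * (3 * x) * (2 * x)))) ≤ 19 * c * x ^ 3 := by
      have g1 : 2 * (3 * x) * (2 * x) + (x + (x + (x * (2 * (6 * c * x ^ 2)) +
        2 * (3 * x) * (2 * x)))) = 12 * (c * x ^ 3) + 24 * x ^ 2 + 2 * x := by ring
      have g2 : 4 * x ^ 2 ≤ x ^ 3 := by
        calc 4 * x ^ 2 ≤ x * x ^ 2 := Nat.mul_le_mul_right _ hx4
          _ = x ^ 3 := by ring
      have g3 : 4 * x ≤ x ^ 2 := by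
        calc 4 * x ≤ x * x := Nat.mul_le_mul_right _ hx4
          _ = x ^ 2 := by ring
      have g4 : 19 * c * x ^ 3 = 19 * (c * x ^ 3) := by ring
      rw [g1, g4]
      omega
    refine le_trans ?_ f1
    omega
  have e4 : (u + 2 + 1) * (2 * (3 * u + 4) * (2 * b) + ((u + 1) + ((u + 1) +
      (u * (2 * r) + 2 * (3 * u + 4) * (2 * b))))) ≤ x * (19 * c * x ^ 3) :=
    Nat.mul_le_mul (by omega) e3
  have e5 : x * (19 * c * x ^ 3) = 19 * (c * x ^ 4) := by ring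
  have e6 : 64 * x ≤ c * x ^ 4 := by
    calc 64 * x = 1 * (4 * 4 * 4 * x) := by ring
      _ ≤ c * (x * x * x * x) := Nat.mul_le_mul hc
          (Nat.mul_le_mul_right _ (Nat.mul_le_mul (Nat.mul_le_mul hx4 hx4) hx4))
      _ = c * x ^ 4 := by ring
  have e7 : 32 * c * x ^ 4 = 32 * (c * x ^ 4) := by ring
  rw [e7]
  rw [e5] at e4
  omega

/-- The theorem in terms of the integer part of the small power. -/
theorem final_param {n u nn w b G M M' d c : ℕ} (hcd : c = cG d)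
    (hM : M = Fintype.card (JB b))
    (hM' : M' = M * (2 * b + 1)) (hbge : 2 ^ 13 * c ^ 2 * (u + 4) ^ 9 ≤ 2 ^ b) (hbu : b ≤ u + 1)
    (hG1 : 32 * (M ^ 2 * M' ^ 2) ≤ G)
    (hG2 : 2 * M' * (2 ^ (c * (2 * b + 1) + 1) * (c * ((3 * u + 4) * (2 * b + 1)))) ≤ G)
    (hG3 : M' ≤ G)
    (h1 : G * nn ≤ n ^ 2) (h2 : G * w ≤ n) (h3 : G ≤ n) (h4 : n ^ 2 ≤ 2 ^ (u + 1))
    (h5 : nn ≤ n ^ 2) {k s w' : ℝ} (hk : k < u + 1) (hs : s < nn + 1) (hw : w' < w + 1) :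
    ∃ F : Finset (Clause (Fin n)), F.card ≤ n ^ 2 * (2 ^ b) ^ 4 ∧
      (∀ C ∈ F, C.card ≤ 2 * Nat.log 2 n) ∧ (∀ x, ∃ C ∈ F, ¬ Holds x C) ∧
      ∀ (S : ℕ) (Λ : Fin S → Line (Fin n)), IsRefutation k F Λ → (∀ i, (Λ i).Small d k s w') →
        2 ^ (u + 1) ≤ S := by
  have hc1 : 1 ≤ c := by rw [hcd]; exact cG_pos d
  set x := u + 4 with hx
  have hx4 : 4 ≤ x := by omega
  have hx1 : 1 ≤ x := by omega
  have hMge : (2 ^ b) ^ 4 ≤ M := by rw [hM]; exact JB_ge b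
  have hq1 : 1 ≤ 2 ^ b := Nat.one_le_two_pow
  have hM1 : 1 ≤ M := (Nat.one_le_pow _ _ hq1).trans hMge
  have hM'1 : 1 ≤ M' := by rw [hM']; exact Nat.mul_pos hM1 (by omega)
  have hMM' : M ≤ M' := by rw [hM']; exact Nat.le_mul_of_pos_right _ (by omega)
  have hM'n : M' ≤ n := hG3.trans h3
  set ℓ := Nat.log 2 (n / M') with hℓ
  have hne : n / M' ≠ 0 := by
    have := Nat.div_pos hM'n hM'1
    omega
  have hb1 : 2 ^ ℓ ≤ n / M' := Nat.pow_log_le_self 2 hne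
  have hb2 : n / M' < 2 ^ (ℓ + 1) := Nat.lt_pow_succ_log_self (by norm_num) _
  have hb3 : M' * 2 ^ ℓ ≤ n := by
    calc M' * 2 ^ ℓ ≤ M' * (n / M') := Nat.mul_le_mul_left _ hb1
      _ ≤ n := Nat.mul_div_le _ _
  have hb4 : n < 2 * M' * 2 ^ ℓ := by
    have := Nat.lt_mul_of_div_lt hb2 hM'1
    calc n < 2 ^ (ℓ + 1) * M' := this
      _ = 2 * M' * 2 ^ ℓ := by ring
  have hcard : Fintype.card (VV b ℓ) ≤ Fintype.card (Fin n) := by
    have e0 : Fintype.card (VV b ℓ) = M * (2 ^ ℓ * (2 * b)) + M * ℓ := by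
      change Fintype.card ((JB b × (Fin ℓ → Bool) × RB b) ⊕ (JB b × Fin ℓ)) = _
      have e1 : Fintype.card (Fin ℓ → Bool) = 2 ^ ℓ := by simp
      have e2 : Fintype.card (RB b) = 2 * b := by simp
      rw [Fintype.card_sum, Fintype.card_prod, Fintype.card_prod, e1, e2, Fintype.card_prod,
        Fintype.card_fin, hM]
    rw [e0, Fintype.card_fin]
    have : ℓ ≤ 2 ^ ℓ := Nat.lt_two_pow_self.le
    have h5 : M * ℓ ≤ M * 2 ^ ℓ := Nat.mul_le_mul_left _ this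
    calc M * (2 ^ ℓ * (2 * b)) + M * ℓ ≤ M * (2 ^ ℓ * (2 * b)) + M * 2 ^ ℓ :=
          Nat.add_le_add_left h5 _
      _ = M' * 2 ^ ℓ := by rw [hM']; ring
      _ ≤ n := hb3
  obtain ⟨e⟩ := Function.Embedding.nonempty_of_card_le hcard
  refine ⟨liftF e, ?_, ?_, liftF_unsat e, ?_⟩
  · refine (liftF_card e).trans ?_
    rw [← hM]
    calc (M * 2 ^ ℓ * 2 ^ (2 * b)) ^ 2 = (M * 2 ^ ℓ) ^ 2 * (2 ^ b) ^ 4 := by
          rw [show 2 ^ (2 * b) = (2 ^ b) ^ 2 by rw [mul_comm, pow_mul]]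
          ring
      _ ≤ n ^ 2 * (2 ^ b) ^ 4 := by
          refine Nat.mul_le_mul_right _ (Nat.pow_le_pow_left ?_ 2)
          exact (Nat.mul_le_mul_right _ hMM').trans hb3
  · intro C hC
    obtain ⟨j, j', pos, pos', a, a', -, rfl⟩ := mem_liftF.1 hC
    refine (liftC_card e _ _ _ _ _ _).trans ?_
    have h6 : 2 ^ (ℓ + 2 * b) ≤ n := by
      calc 2 ^ (ℓ + 2 * b) = (2 ^ b) ^ 2 * 2 ^ ℓ := by
            rw [pow_add, mul_comm 2 b, pow_mul]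
            ring
        _ ≤ M' * 2 ^ ℓ := by
            refine Nat.mul_le_mul_right _ (le_trans ?_ (hMge.trans hMM'))
            exact Nat.pow_le_pow_right hq1 (by norm_num)
        _ ≤ n := hb3
    have h7 := Nat.le_log_of_pow_le (by norm_num) h6
    omega
  · intro S Λ hΛ hsm
    by_contra hlt
    rw [not_le] at hlt
    have hND : 2 * (2 ^ (2 * u + 2) * 2 ^ (u + 1)) = 2 ^ (3 * u + 4) := by
      rw [← pow_add, ← pow_succ']
      congr 1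
      ring
    have H0 : 8 * (u + 2) * (32 * c * x ^ 4) ^ 2 ≤ 2 ^ b := by
      refine le_trans ?_ hbge
      calc 8 * (u + 2) * (32 * c * x ^ 4) ^ 2 = 2 ^ 13 * c ^ 2 * ((u + 2) * x ^ 8) := by ring
        _ ≤ 2 ^ 13 * c ^ 2 * (x * x ^ 8) :=
            Nat.mul_le_mul_left _ (Nat.mul_le_mul_right _ (by omega))
        _ = 2 ^ 13 * c ^ 2 * x ^ 9 := by ring
    have HB : (2 : ℝ) ^ k ≤ 2 ^ (u + 1) := by
      rw [← Real.rpow_natCast]
      refine Real.rpow_le_rpow_of_exponent_le (by norm_num) ?_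
      push_cast
      linarith
    have HN : 1 + (2 ^ (u + 1) * 2 ^ u + u) ≤ 2 ^ (2 * u + 2) := by
      have e1 : 2 ^ (u + 1) * 2 ^ u = 2 ^ (2 * u + 1) := by
        rw [← pow_add]
        congr 1
        ring
      have e2 : u < 2 ^ u := Nat.lt_two_pow_self
      have e3 : 2 ^ u ≤ 2 ^ (2 * u + 1) := Nat.pow_le_pow_right (by norm_num) (by omega)
      rw [e1, pow_succ 2 (2 * u + 1)]
      omega
    have H1 : 2 * (2 ^ (2 * u + 2) * 2 ^ (u + 1)) * nn ≤ 2 ^ (Fintype.card (JB b) + 1) := by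
      rw [hND, ← hM]
      calc 2 ^ (3 * u + 4) * nn ≤ 2 ^ (3 * u + 4) * 2 ^ (u + 1) :=
            Nat.mul_le_mul_left _ (h5.trans h4)
        _ = 2 ^ (4 * u + 5) := by
            rw [← pow_add]
            congr 1
            ring
        _ ≤ 2 ^ (M + 1) := by
            refine Nat.pow_le_pow_right (by norm_num) ?_
            have e1 : 2 ^ 13 * x ≤ 2 ^ 13 * c ^ 2 * x ^ 9 :=
              Nat.mul_le_mul (Nat.le_mul_of_pos_right _ (Nat.pow_pos hc1))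
                (Nat.le_self_pow (by norm_num) x)
            have e2 : 2 ^ b ≤ (2 ^ b) ^ 4 := Nat.le_self_pow (by norm_num) _
            omega
    have H2 : 2 * (2 ^ (2 * u + 2) * 2 ^ (u + 1)) *
        (4 * Fintype.card (JB b) ^ 2 * nn) ^ (3 * u + 4) ≤ ((2 ^ ℓ) ^ 2) ^ (3 * u + 4) := by
      rw [hND, ← hM, ← mul_pow]
      refine Nat.pow_le_pow_left ?_ _
      have e1 : n ^ 2 ≤ (2 * M' * 2 ^ ℓ) ^ 2 := Nat.pow_le_pow_left hb4.le 2
      have e2 : (4 * M' ^ 2) * (2 * (4 * M ^ 2 * nn)) ≤ (4 * M' ^ 2) * (2 ^ ℓ) ^ 2 := by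
        calc (4 * M' ^ 2) * (2 * (4 * M ^ 2 * nn)) = 32 * (M ^ 2 * M' ^ 2) * nn := by ring
          _ ≤ G * nn := Nat.mul_le_mul_right _ hG1
          _ ≤ n ^ 2 := h1
          _ ≤ (2 * M' * 2 ^ ℓ) ^ 2 := e1
          _ = _ := by ring
      exact Nat.le_of_mul_le_mul_left e2 (by positivity)
    obtain ⟨r, hr⟩ : ∃ r, r = GG ((3 * u + 4) * (2 * b)) d (3 * u + 3) := ⟨_, rfl⟩
    have hrle : r ≤ c * ((3 * u + 4) * (2 * b + 1)) := by
      rw [hr, hcd]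
      refine (GG_le _ _ _).trans (le_of_eq ?_)
      congr 1
      ring
    have H3 : 2 ^ (2 * u + 2) * 2 ^ (u + 1) ≤ 2 ^ (3 * u + 3) := by
      rw [← pow_add]
      refine Nat.pow_le_pow_right (by norm_num) (le_of_eq ?_)
      ring
    have H4 : 2 ^ (GG ((3 * u + 4) * (2 * b)) d (3 * u + 3) + 1) *
        (GG ((3 * u + 4) * (2 * b)) d (3 * u + 3) * w) ^ (3 * u + 4) ≤
        (2 ^ ℓ) ^ (3 * u + 4) := by
      rw [← hr]
      obtain ⟨h, hh⟩ : ∃ h, h = c * (2 * b + 1) + 1 := ⟨_, rfl⟩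
      have f1 : r + 1 ≤ h * (3 * u + 4) := by
        rw [hh, add_mul, one_mul]
        have : c * (2 * b + 1) * (3 * u + 4) = c * ((3 * u + 4) * (2 * b + 1)) := by ring
        omega
      have f2 : 2 ^ h * (r * w) ≤ 2 ^ ℓ := by
        have e2 : (2 * M') * (2 ^ h * (r * w)) ≤ (2 * M') * 2 ^ ℓ := by
          calc (2 * M') * (2 ^ h * (r * w)) = (2 * M' * (2 ^ h * r)) * w := by ring
            _ ≤ G * w := by
                refine Nat.mul_le_mul_right _ (le_trans ?_ hG2)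
                rw [hh]
                exact Nat.mul_le_mul_left _ (Nat.mul_le_mul_left _ hrle)
            _ ≤ n := h2
            _ ≤ (2 * M') * 2 ^ ℓ := hb4.le
        exact Nat.le_of_mul_le_mul_left e2 (by positivity)
      calc 2 ^ (r + 1) * (r * w) ^ (3 * u + 4) ≤ 2 ^ (h * (3 * u + 4)) * (r * w) ^ (3 * u + 4) :=
            Nat.mul_le_mul_right _ (Nat.pow_le_pow_right (by norm_num) f1)
        _ = (2 ^ h * (r * w)) ^ (3 * u + 4) := by rw [mul_pow (2 ^ h) (r * w), ← pow_mul]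
        _ ≤ _ := Nat.pow_le_pow_left f2 _
    have hmain := main_bound (b := b) (ℓ := ℓ) (ar := u + 2) (L := 32 * c * x ^ 4)
      (t := 3 * u + 4) (d := d) (lam := 3 * u + 3) (B := u + 1) (kk := u) (nn := nn) (w := w)
      (D := 2 ^ (u + 1)) (N := 2 ^ (2 * u + 2)) e.injective (k := k) (s := s) (w' := w')
      (by push_cast; linarith) hk (by omega)
      (by
        have e1 : 1 ≤ x ^ 4 := Nat.one_le_pow _ _ hx1
        have e2 : 1 * 1 ≤ c * x ^ 4 := Nat.mul_le_mul hc1 e1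
        rw [mul_assoc]
        omega) H0 HB hs hw HN hlt H1 H2 H3 H4 Λ hΛ hsm
    rw [← hr] at hmain
    have h6 : 2 ^ (32 * c * x ^ 4) ≤ 2 ^ ((u + 1) + ((u + 2 + 1) * (2 * (3 * u + 4) * (2 * b) +
        ((u + 1) + ((u + 1) + (u * (2 * r) + 2 * (3 * u + 4) * (2 * b))))) + 2)) := by
      refine hmain.trans ?_
      rw [pow_add 2 (u + 1)]
      exact Nat.mul_le_mul_right _ hlt
    have h7 := (Nat.pow_le_pow_iff_right (by norm_num : 1 < 2)).1 h6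
    exact absurd h7 (not_le.2 (exponent_lt hbu hc1 hrle))

/-- The exponent. -/
def eE (c : ℕ) : ℕ := 3 * c + 20

/-- The polynomial that bounds everything. -/
def pG (c u : ℕ) : ℕ := yb c u ^ eE c

theorem yb_ge {c : ℕ} (hc : 1 ≤ c) (u : ℕ) : 2 ^ 14 ≤ yb c u ∧ 2 ^ 14 * c ≤ yb c u ∧
    2 ^ 14 * (u + 4) ≤ yb c u := by
  unfold yb
  have e1 : 1 ≤ (u + 4) ^ 9 := Nat.one_le_pow _ _ (by omega)
  have e2 : 1 ≤ c ^ 2 := Nat.one_le_pow _ _ hc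
  have e3 : c ≤ c ^ 2 := Nat.le_self_pow (by norm_num) c
  have e4 : u + 4 ≤ (u + 4) ^ 9 := Nat.le_self_pow (by norm_num) _
  refine ⟨?_, ?_, ?_⟩
  · calc 2 ^ 14 = 2 ^ 14 * 1 * 1 := by norm_num
      _ ≤ _ := Nat.mul_le_mul (Nat.mul_le_mul_left _ e2) e1
  · calc 2 ^ 14 * c = 2 ^ 14 * c * 1 := by ring
      _ ≤ _ := Nat.mul_le_mul (Nat.mul_le_mul_left _ e3) e1
  · calc 2 ^ 14 * (u + 4) = 2 ^ 14 * 1 * (u + 4) := by ring
      _ ≤ _ := Nat.mul_le_mul (Nat.mul_le_mul_left _ e2) e4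

theorem pG_spec {c : ℕ} (hc : 1 ≤ c) (u : ℕ) (hbu : pb c u ≤ u + 1) {M M' : ℕ}
    (hM : M = Fintype.card (JB (pb c u))) (hM' : M' = M * (2 * pb c u + 1)) :
    32 * (M ^ 2 * M' ^ 2) ≤ pG c u ∧
      2 * M' * (2 ^ (c * (2 * pb c u + 1) + 1) * (c * ((3 * u + 4) * (2 * pb c u + 1)))) ≤
        pG c u ∧ M' ≤ pG c u := by
  have hble := pb_le hc u
  have hJ := JB_le (pb c u)
  obtain ⟨y1, y2, y3⟩ := yb_ge hc u
  rw [← hM] at hJ
  unfold pG eE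
  obtain ⟨b, hb⟩ : ∃ b, b = pb c u := ⟨_, rfl⟩
  obtain ⟨y, hy⟩ : ∃ y, y = yb c u := ⟨_, rfl⟩
  rw [← hb] at hble hJ hbu hM' ⊢
  rw [← hy] at hble y1 y2 y3 ⊢
  clear hM hb hy
  obtain ⟨q, hq⟩ : ∃ q, q = 2 ^ b := ⟨_, rfl⟩
  rw [← hq] at hble hJ
  have hy1 : 1 ≤ y := by omega
  have hbx : 2 * b + 1 ≤ y := by omega
  have hux : 3 * u + 4 ≤ y := by omega
  have hcy : c ≤ y := by omega
  have hMy : M ≤ 8 * y ^ 4 := hJ.trans (Nat.mul_le_mul_left _ (Nat.pow_le_pow_left hble 4))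
  have hM'y : M' ≤ 8 * y ^ 5 := by
    rw [hM']
    calc M * (2 * b + 1) ≤ (8 * y ^ 4) * y := Nat.mul_le_mul hMy hbx
      _ = 8 * y ^ 5 := by ring
  have hmono : ∀ a m, a ≤ 28 → m ≤ 3 * c + 18 → 2 ^ a * y ^ m ≤ y ^ (3 * c + 20) := by
    intro a m ha hm
    calc 2 ^ a * y ^ m ≤ y ^ 2 * y ^ (3 * c + 18) := by
          refine Nat.mul_le_mul ?_ (Nat.pow_le_pow_right hy1 hm)
          calc 2 ^ a ≤ 2 ^ 28 := Nat.pow_le_pow_right (by norm_num) ha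
            _ = (2 ^ 14) ^ 2 := by norm_num
            _ ≤ y ^ 2 := Nat.pow_le_pow_left y1 2
      _ = y ^ (3 * c + 20) := by rw [← pow_add]; congr 1; omega
  refine ⟨?_, ?_, ?_⟩
  · calc 32 * (M ^ 2 * M' ^ 2) ≤ 32 * ((8 * y ^ 4) ^ 2 * (8 * y ^ 5) ^ 2) :=
          Nat.mul_le_mul_left _ (Nat.mul_le_mul (Nat.pow_le_pow_left hMy 2)
            (Nat.pow_le_pow_left hM'y 2))
      _ = 2 ^ 17 * y ^ 18 := by ring
      _ ≤ _ := hmono _ _ (by norm_num) (by omega)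
  · have e1 : 2 ^ (c * (2 * b + 1) + 1) ≤ y ^ (3 * c + 1) := by
      calc 2 ^ (c * (2 * b + 1) + 1) = q ^ (2 * c) * 2 ^ (c + 1) := by
            rw [hq, ← pow_mul, ← pow_add]
            congr 1
            ring
        _ ≤ y ^ (2 * c) * y ^ (c + 1) :=
            Nat.mul_le_mul (Nat.pow_le_pow_left hble _) (Nat.pow_le_pow_left (by omega) _)
        _ = y ^ (3 * c + 1) := by rw [← pow_add]; congr 1; omega
    calc 2 * M' * (2 ^ (c * (2 * b + 1) + 1) * (c * ((3 * u + 4) * (2 * b + 1))))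
        ≤ 2 * (8 * y ^ 5) * (y ^ (3 * c + 1) * (y * (y * y))) :=
          Nat.mul_le_mul (Nat.mul_le_mul_left _ hM'y)
            (Nat.mul_le_mul e1 (Nat.mul_le_mul hcy (Nat.mul_le_mul hux hbx)))
      _ = 2 ^ 4 * (y ^ (3 * c + 1) * y ^ 8) := by ring
      _ = 2 ^ 4 * y ^ (3 * c + 9) := by rw [← pow_add]
      _ ≤ _ := hmono _ _ (by norm_num) (by omega)
  · calc M' ≤ 8 * y ^ 5 := hM'y
      _ = 2 ^ 3 * y ^ 5 := by norm_num
      _ ≤ _ := hmono _ _ (by norm_num) (by omega)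

theorem yb_le_pG {c : ℕ} (hc : 1 ≤ c) (u m : ℕ) (hm : m ≤ 20) : yb c u ^ m ≤ pG c u := by
  have := (yb_ge hc u).1
  exact Nat.pow_le_pow_right (by omega) (by unfold eE; omega)

theorem pb_small {c u n : ℕ} (hc : 1 ≤ c) (h3 : pG c u ≤ n) (h4 : n ^ 2 ≤ 2 ^ (u + 1)) :
    pb c u ≤ u + 1 := by
  refine Nat.clog_le_of_le_pow ?_
  calc 2 ^ 13 * c ^ 2 * (u + 4) ^ 9 ≤ yb c u :=
        Nat.mul_le_mul_right _ (Nat.mul_le_mul_right _
          (Nat.pow_le_pow_right (by norm_num) (by norm_num)))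
    _ = yb c u ^ 1 := (pow_one _).symm
    _ ≤ pG c u := yb_le_pG hc u 1 (by norm_num)
    _ ≤ n := h3
    _ ≤ n ^ 2 := Nat.le_self_pow (by norm_num) n
    _ ≤ 2 ^ (u + 1) := h4

theorem pb_pow_le {c : ℕ} (hc : 1 ≤ c) (u : ℕ) : (2 ^ pb c u) ^ 4 ≤ pG c u :=
  (Nat.pow_le_pow_left (pb_le hc u) 4).trans (yb_le_pG hc u 4 (by norm_num))

theorem pG_le (c u : ℕ) {N : ℝ} (hu : (u : ℝ) ≤ N) (hN : 1 ≤ N) :
    (pG c u : ℝ) ≤ (2 ^ 14 * (c : ℝ) ^ 2 * 5 ^ 9) ^ eE c * N ^ (9 * eE c) := by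
  have e1 : (yb c u : ℝ) ≤ (2 ^ 14 * (c : ℝ) ^ 2 * 5 ^ 9) * N ^ 9 := by
    have e2 : ((u : ℝ) + 4) ^ 9 ≤ (5 * N) ^ 9 :=
      pow_le_pow_left₀ (by positivity) (by linarith) 9
    have e3 : (yb c u : ℝ) = 2 ^ 14 * (c : ℝ) ^ 2 * ((u : ℝ) + 4) ^ 9 := by
      unfold yb
      push_cast
      ring
    rw [e3, mul_assoc (2 ^ 14 * (c : ℝ) ^ 2) (5 ^ 9) (N ^ 9), ← mul_pow]
    exact mul_le_mul_of_nonneg_left e2 (by positivity)
  unfold pG
  push_cast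
  calc (yb c u : ℝ) ^ eE c ≤ ((2 ^ 14 * (c : ℝ) ^ 2 * 5 ^ 9) * N ^ 9) ^ eE c :=
        pow_le_pow_left₀ (Nat.cast_nonneg _) e1 _
    _ = _ := by rw [mul_pow, pow_mul]

/-- The lower bound for exponents at most one. -/
theorem final_small (d : ℕ) (ε : ℝ) (hε : 0 < ε) (hε1 : ε ≤ 1) {δ : ℝ}
    (hδ : δ = ε / (10 * eE (cG d))) :
    ∀ᶠ n : ℕ in atTop, ∃ F : Finset (Clause (Fin n)), (F.card : ℝ) ≤ (n : ℝ) ^ (2 + ε) ∧
      (∀ C ∈ F, C.card ≤ 2 * Nat.log 2 n) ∧ (∀ x, ∃ C ∈ F, ¬ Holds x C) ∧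
      ∀ (S : ℕ) (Λ : Fin S → Line (Fin n)), IsRefutation ((n : ℝ) ^ δ) F Λ →
        (∀ i, (Λ i).Small d ((n : ℝ) ^ δ) ((n : ℝ) ^ (2 - ε)) ((n : ℝ) ^ (1 - ε))) →
        (2 : ℝ) ^ ((n : ℝ) ^ δ) ≤ S := by
  obtain ⟨c, hcd⟩ : ∃ c, c = cG d := ⟨_, rfl⟩
  have hc1 : 1 ≤ c := by rw [hcd]; exact cG_pos d
  rw [← hcd] at hδ
  have hE : (0 : ℝ) < eE c := by
    have : 0 < eE c := by unfold eE; omega
    exact_mod_cast this
  have hδ0 : 0 < δ := by rw [hδ]; positivity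
  have hδE : δ * (9 * (eE c : ℝ)) = ε * (9 / 10) := by
    rw [hδ]
    field_simp
  obtain ⟨K, hK⟩ : ∃ K : ℝ, K = (2 ^ 14 * (c : ℝ) ^ 2 * 5 ^ 9) ^ eE c := ⟨_, rfl⟩
  have hA : ∀ᶠ x : ℝ in atTop, K ≤ x ^ (ε * (1 / 10)) :=
    (tendsto_rpow_atTop (by positivity)).eventually_ge_atTop _
  have hB : ∀ᶠ x : ℝ in atTop, ‖Real.log x‖ ≤ (Real.log 2 / 2) * ‖x ^ δ‖ :=
    (isLittleO_log_rpow_atTop hδ0).bound (by positivity)
  have hC : ∀ᶠ x : ℝ in atTop, 1 ≤ x := eventually_ge_atTop 1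
  filter_upwards [tendsto_natCast_atTop_atTop.eventually hA,
    tendsto_natCast_atTop_atTop.eventually hB, tendsto_natCast_atTop_atTop.eventually hC]
    with n hA hB hC
  obtain ⟨x, hx⟩ : ∃ x : ℝ, x = (n : ℝ) := ⟨_, rfl⟩
  rw [← hx] at hA hB hC ⊢
  obtain ⟨N, hN⟩ : ∃ N : ℝ, N = x ^ δ := ⟨_, rfl⟩
  rw [← hN] at hB ⊢
  have hx0 : 0 < x := by linarith
  have hN1 : 1 ≤ N := by rw [hN]; exact Real.one_le_rpow hC (by positivity)
  obtain ⟨u, hu⟩ : ∃ u : ℕ, u = ⌊N⌋₊ := ⟨_, rfl⟩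
  have hu1 : (u : ℝ) ≤ N := by rw [hu]; exact Nat.floor_le (by linarith)
  have hu2 : N < u + 1 := by rw [hu]; exact Nat.lt_floor_add_one N
  have hG : (pG c u : ℝ) ≤ x ^ ε := by
    have e2 : N ^ (9 * eE c) = x ^ (ε * (9 / 10)) := by
      rw [hN, ← Real.rpow_natCast, ← Real.rpow_mul hx0.le]
      congr 1
      push_cast
      exact hδE
    calc (pG c u : ℝ) ≤ K * N ^ (9 * eE c) := by rw [hK]; exact pG_le c u hu1 hN1
      _ ≤ x ^ (ε * (1 / 10)) * x ^ (ε * (9 / 10)) := by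
          rw [e2]
          exact mul_le_mul_of_nonneg_right hA (by positivity)
      _ = x ^ ε := by
          rw [← Real.rpow_add hx0]
          congr 1
          ring
  clear hA
  obtain ⟨G, hGG⟩ : ∃ G : ℕ, G = pG c u := ⟨_, rfl⟩
  rw [← hGG] at hG
  obtain ⟨nn, hnn⟩ : ∃ nn : ℕ, nn = ⌊x ^ (2 - ε)⌋₊ := ⟨_, rfl⟩
  have hnn1 : (nn : ℝ) ≤ x ^ (2 - ε) := by rw [hnn]; exact Nat.floor_le (by positivity)
  have hnn2 : x ^ (2 - ε) < nn + 1 := by rw [hnn]; exact Nat.lt_floor_add_one _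
  obtain ⟨w, hw⟩ : ∃ w : ℕ, w = ⌊x ^ (1 - ε)⌋₊ := ⟨_, rfl⟩
  have hw1 : (w : ℝ) ≤ x ^ (1 - ε) := by rw [hw]; exact Nat.floor_le (by positivity)
  have hw2 : x ^ (1 - ε) < w + 1 := by rw [hw]; exact Nat.lt_floor_add_one _
  have h1 : G * nn ≤ n ^ 2 := by
    have : (G : ℝ) * nn ≤ x ^ 2 := by
      calc (G : ℝ) * nn ≤ x ^ ε * x ^ (2 - ε) :=
            mul_le_mul hG hnn1 (Nat.cast_nonneg _) (Real.rpow_nonneg hx0.le _)
        _ = x ^ 2 := by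
            rw [← Real.rpow_add hx0, ← Real.rpow_natCast]
            congr 1
            push_cast
            ring
    rw [hx] at this
    exact_mod_cast this
  have h2 : G * w ≤ n := by
    have : (G : ℝ) * w ≤ x := by
      calc (G : ℝ) * w ≤ x ^ ε * x ^ (1 - ε) :=
            mul_le_mul hG hw1 (Nat.cast_nonneg _) (Real.rpow_nonneg hx0.le _)
        _ = x := by
            rw [← Real.rpow_add hx0, show ε + (1 - ε) = 1 by ring, Real.rpow_one]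
    rw [hx] at this
    exact_mod_cast this
  have hεx : x ^ ε ≤ x := by
    calc x ^ ε ≤ x ^ (1 : ℝ) := Real.rpow_le_rpow_of_exponent_le hC hε1
      _ = x := Real.rpow_one x
  have h3 : G ≤ n := by
    have : (G : ℝ) ≤ x := hG.trans hεx
    rw [hx] at this
    exact_mod_cast this
  have h4 : n ^ 2 ≤ 2 ^ (u + 1) := by
    have e1 : x ^ 2 ≤ (2 : ℝ) ^ N := by
      rw [Real.norm_of_nonneg (Real.log_nonneg hC), Real.norm_of_nonneg (by positivity)] at hB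
      rw [← Real.exp_log (by positivity : (0 : ℝ) < x ^ 2), Real.log_pow,
        Real.rpow_def_of_pos (by norm_num : (0 : ℝ) < 2), Real.exp_le_exp]
      push_cast
      linarith
    have e2 : (2 : ℝ) ^ N ≤ 2 ^ (u + 1) := by
      rw [← Real.rpow_natCast]
      refine Real.rpow_le_rpow_of_exponent_le (by norm_num) ?_
      push_cast
      linarith
    have : x ^ 2 ≤ 2 ^ (u + 1) := e1.trans e2
    rw [hx] at this
    exact_mod_cast this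
  have h5 : nn ≤ n ^ 2 := by
    have : (nn : ℝ) ≤ x ^ 2 := by
      calc (nn : ℝ) ≤ x ^ (2 - ε) := hnn1
        _ ≤ x ^ (2 : ℝ) := Real.rpow_le_rpow_of_exponent_le hC (by linarith)
        _ = x ^ 2 := by rw [← Real.rpow_natCast]; norm_num
    rw [hx] at this
    exact_mod_cast this
  have hbu := pb_small hc1 (hGG ▸ h3) h4
  obtain ⟨g1, g2, g3⟩ := pG_spec hc1 u hbu rfl rfl
  rw [← hGG] at g1 g2 g3
  obtain ⟨F, f1, f2, f3, f4⟩ := final_param hcd rfl rfl (pb_ge c u) hbu g1 g2 g3 h1 h2 h3 h4 h5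
    hu2 hnn2 hw2
  refine ⟨F, ?_, f2, f3, fun S Λ hΛ hsm => ?_⟩
  · have e1 : (2 ^ pb c u) ^ 4 ≤ G := by rw [hGG]; exact pb_pow_le hc1 u
    have e2 : F.card ≤ n ^ 2 * G := f1.trans (Nat.mul_le_mul_left _ e1)
    have e3 : (F.card : ℝ) ≤ x ^ 2 * G := by rw [hx]; exact_mod_cast e2
    calc (F.card : ℝ) ≤ x ^ 2 * G := e3
      _ ≤ x ^ 2 * x ^ ε := mul_le_mul_of_nonneg_left hG (by positivity)
      _ = x ^ (2 + ε) := by
          rw [← Real.rpow_natCast x 2, ← Real.rpow_add hx0]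
          norm_num
  · have h5 := f4 S Λ hΛ hsm
    have h6 : (2 : ℝ) ^ (u + 1) ≤ S := by exact_mod_cast h5
    refine le_trans ?_ h6
    rw [← Real.rpow_natCast]
    refine Real.rpow_le_rpow_of_exponent_le (by norm_num) ?_
    push_cast
    linarith

end Pool.Agent.MP_9cec2c_lc.MixedLines
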