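import Pool.Agent.Lib.MP_9cec2c_lc.MLCover

/-!
The binary constraint system, lifted by the indexing gadget.
-/

set_option autoImplicit false
set_option linter.unusedSectionVars false
set_option linter.unusedVariables false

namespace Pool.Agent.MP_9cec2c_lc.MixedLines

open Finset ThresholdLines

/-- The symbols. -/
abbrev Sy (b : ℕ) : Type := Fin b → Bool

/-- The pigeons: one more than there are symbols. -/
abbrev PP (b : ℕ) : Type := Fin (2 ^ b + 1)

/-- The blocks. -/
abbrev JB (b : ℕ) : Type := (PP b × PP b) ⊕ ((PP b × Sy b) × (PP b × Sy b))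

/-- The bits of a block. -/
abbrev RB (b : ℕ) : Type := Bool × Fin b

section Base

variable {b : ℕ}

/-- The encoding of a pair of a vector and a colouring. -/
def enc (x : PP b → Sy b) (y : PP b × Sy b → Sy b) (p : JB b × RB b) : Bool :=
  match p.1 with
  | Sum.inl j => (if p.2.1 then x j.2 else x j.1) p.2.2
  | Sum.inr j => (if p.2.1 then y j.2 else y j.1) p.2.2

/-- The side of a bit. -/
def side (p : JB b × RB b) : Bool := p.1.isRight

theorem enc_sided : Sided (side (b := b)) enc := by
  rintro ⟨j | j, r⟩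
  · exact ⟨fun _ x y y' => rfl, fun h => absurd h (by simp [side])⟩
  · exact ⟨fun h => absurd h (by simp [side]), fun _ x x' y => rfl⟩

theorem side_block (j : JB b) (r r' : RB b) : side (j, r) = side (j, r') := rfl

/-- The forbidden pairs of values: those which do not occur together in an encoding, and those
that give two vertices of the clique the same colour. -/
def Forb (j j' : JB b) (a a' : RB b → Bool) : Prop :=
  (∀ x y, ¬ ((∀ r, enc x y (j, r) = a r) ∧ ∀ r, enc x y (j', r) = a' r)) ∨
    ∃ i i', i ≠ i' ∧ j = Sum.inl (i, i') ∧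
      j' = Sum.inr ((i, fun t => a (false, t)), (i', fun t => a (true, t))) ∧
      ∀ t, a' (false, t) = a' (true, t)

theorem base_unsat (w : JB b × RB b → Bool) :
    ∃ j j', Forb j j' (fun r => w (j, r)) fun r => w (j', r) := by
  by_contra hcon
  push Not at hcon
  have hocc : ∀ j j', ∃ x y, (∀ r, enc x y (j, r) = w (j, r)) ∧
      ∀ r, enc x y (j', r) = w (j', r) := by
    intro j j'
    by_contra h
    push Not at h
    exact hcon j j' (Or.inl fun x y hxy => by
      obtain ⟨r, hr⟩ := h x y hxy.1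
      exact hr (hxy.2 r))
  set f : PP b → Sy b := fun i t => w (Sum.inl (i, i), (false, t)) with hf
  set g : PP b × Sy b → Sy b := fun u t => w (Sum.inr (u, u), (false, t)) with hg
  have f1 : ∀ i i' t, w (Sum.inl (i, i'), (false, t)) = f i t := by
    intro i i' t
    obtain ⟨x, y, h1, h2⟩ := hocc (Sum.inl (i, i')) (Sum.inl (i, i))
    exact (h1 (false, t)).symm.trans (h2 (false, t))
  have f2 : ∀ i i' t, w (Sum.inl (i, i'), (true, t)) = f i' t := by
    intro i i' t
    obtain ⟨x, y, h1, h2⟩ := hocc (Sum.inl (i, i')) (Sum.inl (i', i'))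
    exact (h1 (true, t)).symm.trans (h2 (false, t))
  have g1 : ∀ u u' t, w (Sum.inr (u, u'), (false, t)) = g u t := by
    intro i i' t
    obtain ⟨x, y, h1, h2⟩ := hocc (Sum.inr (i, i')) (Sum.inr (i, i))
    exact (h1 (false, t)).symm.trans (h2 (false, t))
  have g2 : ∀ u u' t, w (Sum.inr (u, u'), (true, t)) = g u' t := by
    intro i i' t
    obtain ⟨x, y, h1, h2⟩ := hocc (Sum.inr (i, i')) (Sum.inr (i', i'))
    exact (h1 (true, t)).symm.trans (h2 (false, t))
  obtain ⟨i, i', hne, he⟩ := Fintype.exists_ne_map_eq_of_card_lt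
    (fun i : PP b => g (i, f i)) (by simp)
  refine hcon (Sum.inl (i, i')) (Sum.inr ((i, f i), (i', f i')))
    (Or.inr ⟨i, i', hne, rfl, ?_, ?_⟩)
  · have e1 : (fun t => w (Sum.inl (i, i'), (false, t))) = f i := funext fun t => f1 i i' t
    have e2 : (fun t => w (Sum.inl (i, i'), (true, t))) = f i' := funext fun t => f2 i i' t
    beta_reduce
    rw [e1, e2]
  · intro t
    beta_reduce
    rw [g1, g2]
    exact congrFun he t

end Base

section Lift

variable {b ℓ : ℕ} {W : Type} [Fintype W] [DecidableEq W]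

/-- The variables of the lifted formula. -/
abbrev VV (b ℓ : ℕ) : Type := (JB b × (Fin ℓ → Bool) × RB b) ⊕ (JB b × Fin ℓ)

/-- The lifted clause that forbids a pair of values. -/
def liftC (e : VV b ℓ → W) (j j' : JB b) (pos pos' : Fin ℓ → Bool) (a a' : RB b → Bool) :
    Clause W :=
  ((univ.image fun r => (e (Sum.inl (j, pos, r)), !a r)) ∪
    (univ.image fun r => (e (Sum.inl (j', pos', r)), !a' r))) ∪
  ((univ.image fun t => (e (Sum.inr (j, t)), !pos t)) ∪
    (univ.image fun t => (e (Sum.inr (j', t)), !pos' t)))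

theorem liftC_card (e : VV b ℓ → W) (j j' : JB b) (pos pos' : Fin ℓ → Bool)
    (a a' : RB b → Bool) : (liftC e j j' pos pos' a a').card ≤ 4 * b + 2 * ℓ := by
  have h1 : ∀ (j : JB b) (pos : Fin ℓ → Bool) (a : RB b → Bool),
      ((univ : Finset (RB b)).image fun r => (e (Sum.inl (j, pos, r)), !a r)).card ≤ 2 * b := by
    intro j pos a
    exact card_image_le.trans (by simp)
  have h2 : ∀ (j : JB b) (pos : Fin ℓ → Bool),
      ((univ : Finset (Fin ℓ)).image fun t => (e (Sum.inr (j, t)), !pos t)).card ≤ ℓ := by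
    intro j pos
    exact card_image_le.trans (by simp)
  unfold liftC
  refine (card_union_le _ _).trans ?_
  have e1 := card_union_le (univ.image fun r => (e (Sum.inl (j, pos, r)), !a r))
    (univ.image fun r => (e (Sum.inl (j', pos', r)), !a' r))
  have e2 := card_union_le (univ.image fun t => (e (Sum.inr (j, t)), !pos t))
    (univ.image fun t => (e (Sum.inr (j', t)), !pos' t))
  have := h1 j pos a
  have := h1 j' pos' a'
  have := h2 j pos
  have := h2 j' pos'
  omega

theorem not_holds_liftC {e : VV b ℓ → W} {j j' : JB b} {pos pos' : Fin ℓ → Bool}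
    {a a' : RB b → Bool} {σ : W → Bool} :
    ¬ Holds σ (liftC e j j' pos pos' a a') ↔
      ((∀ r, σ (e (Sum.inl (j, pos, r))) = a r) ∧ ∀ r, σ (e (Sum.inl (j', pos', r))) = a' r) ∧
        (∀ t, σ (e (Sum.inr (j, t))) = pos t) ∧ ∀ t, σ (e (Sum.inr (j', t))) = pos' t := by
  have key : ∀ {ι : Type} [Fintype ι] [DecidableEq ι] (v : ι → W) (c : ι → Bool),
      (¬ ∃ l ∈ univ.image (fun i => (v i, !c i)), σ l.1 = l.2) ↔ ∀ i, σ (v i) = c i := by
    intro ι _ _ v c
    constructor
    · intro h i
      push Not at h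
      have := h _ (mem_image_of_mem (fun i => (v i, !c i)) (mem_univ i))
      simpa using this
    · rintro h ⟨l, hl, he⟩
      obtain ⟨i, -, rfl⟩ := mem_image.1 hl
      simp only at he
      rw [h i] at he
      simp at he
  have hor : ∀ (A B : Clause W), (¬ Holds σ (A ∪ B)) ↔ (¬ Holds σ A) ∧ ¬ Holds σ B := by
    intro A B
    unfold Holds
    constructor
    · intro h
      exact ⟨fun ⟨l, hl, he⟩ => h ⟨l, mem_union_left _ hl, he⟩,
        fun ⟨l, hl, he⟩ => h ⟨l, mem_union_right _ hl, he⟩⟩
    · rintro ⟨h1, h2⟩ ⟨l, hl, he⟩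
      rcases mem_union.1 hl with hl | hl
      · exact h1 ⟨l, hl, he⟩
      · exact h2 ⟨l, hl, he⟩
  unfold liftC
  rw [hor, hor, hor]
  exact and_congr (and_congr (key _ _) (key _ _)) (and_congr (key _ _) (key _ _))

open scoped Classical in
/-- The lifted formula. -/
noncomputable def liftF (e : VV b ℓ → W) : Finset (Clause W) :=
  ((univ : Finset (((JB b × JB b) × ((Fin ℓ → Bool) × (Fin ℓ → Bool))) ×
    ((RB b → Bool) × (RB b → Bool)))).filter fun p => Forb p.1.1.1 p.1.1.2 p.2.1 p.2.2).image
      fun p => liftC e p.1.1.1 p.1.1.2 p.1.2.1 p.1.2.2 p.2.1 p.2.2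

theorem liftF_card (e : VV b ℓ → W) :
    (liftF e).card ≤ (Fintype.card (JB b) * 2 ^ ℓ * 2 ^ (2 * b)) ^ 2 := by
  classical
  unfold liftF
  refine card_image_le.trans ((card_filter_le _ _).trans ?_)
  rw [card_univ, Fintype.card_prod, Fintype.card_prod, Fintype.card_prod, Fintype.card_prod,
    Fintype.card_prod, Fintype.card_fun, Fintype.card_fun, Fintype.card_bool, Fintype.card_fin,
    Fintype.card_prod, Fintype.card_bool, Fintype.card_fin]
  exact le_of_eq (by ring)

theorem mem_liftF {e : VV b ℓ → W} {C : Clause W} : C ∈ liftF e ↔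
    ∃ j j' pos pos' a a', Forb j j' a a' ∧ C = liftC e j j' pos pos' a a' := by
  classical
  unfold liftF
  rw [mem_image]
  constructor
  · rintro ⟨p, hp, rfl⟩
    exact ⟨_, _, _, _, _, _, (mem_filter.1 hp).2, rfl⟩
  · rintro ⟨j, j', pos, pos', a, a', h, rfl⟩
    exact ⟨(((j, j'), (pos, pos')), (a, a')), mem_filter.2 ⟨mem_univ _, h⟩, rfl⟩

theorem liftF_unsat (e : VV b ℓ → W) (σ : W → Bool) : ∃ C ∈ liftF e, ¬ Holds σ C := by
  set z : JB b → Fin ℓ → Bool := fun j t => σ (e (Sum.inr (j, t))) with hz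
  obtain ⟨j, j', h⟩ := base_unsat fun p : JB b × RB b => σ (e (Sum.inl (p.1, z p.1, p.2)))
  refine ⟨_, mem_liftF.2 ⟨j, j', z j, z j', _, _, h, rfl⟩, ?_⟩
  rw [not_holds_liftC]
  exact ⟨⟨fun r => rfl, fun r => rfl⟩, fun t => rfl, fun t => rfl⟩

/-- The values of the variables that are not in cells. -/
noncomputable def baseVal (e : VV b ℓ → W) (z : JB b → Fin ℓ → Bool) : W → Bool :=
  Function.extend (fun p : JB b × Fin ℓ => e (Sum.inr p)) (fun p => z p.1 p.2) fun _ => false

theorem cell_inj {e : VV b ℓ → W} (he : Function.Injective e) :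
    Function.Injective fun p : JB b × (Fin ℓ → Bool) × RB b => e (Sum.inl p) :=
  fun _ _ h => Sum.inl_injective (he h)

/-- The restriction for the lifted formula. -/
noncomputable def res {e : VV b ℓ → W} (he : Function.Injective e) (z : JB b → Fin ℓ → Bool)
    (u : JB b × (Fin ℓ → Bool) × RB b → Bool) : Restr W (JB b × RB b) :=
  restr (cell_inj he) (baseVal e) z u

theorem res_ptr {e : VV b ℓ → W} (he : Function.Injective e) (z : JB b → Fin ℓ → Bool)
    (u : JB b × (Fin ℓ → Bool) × RB b → Bool) (v : JB b × RB b → Bool) (j : JB b)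
    (t : Fin ℓ) : (res he z u).A v (e (Sum.inr (j, t))) = z j t := by
  unfold res
  rw [restr_A, Function.extend_apply', baseVal]
  · have hinj : Function.Injective fun p : JB b × Fin ℓ => e (Sum.inr p) :=
      fun _ _ h => Sum.inr_injective (he h)
    exact hinj.extend_apply (fun p : JB b × Fin ℓ => z p.1 p.2) (fun _ => false) (j, t)
  · rintro ⟨p, hp⟩
    have := he hp
    simp at this

theorem res_live {e : VV b ℓ → W} (he : Function.Injective e) (z : JB b → Fin ℓ → Bool)
    (u : JB b × (Fin ℓ → Bool) × RB b → Bool) (v : JB b × RB b → Bool) (j : JB b)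
    (r : RB b) : (res he z u).A v (e (Sum.inl (j, z j, r))) = v (j, r) :=
  (res he z u).hlive v (j, r)

/-- A falsified lifted clause comes from a forbidden pair of values. -/
theorem res_holds {e : VV b ℓ → W} (he : Function.Injective e) (z : JB b → Fin ℓ → Bool)
    (u : JB b × (Fin ℓ → Bool) × RB b → Bool) (v : JB b × RB b → Bool) {j j' : JB b}
    {pos pos' : Fin ℓ → Bool} {a a' : RB b → Bool}
    (h : ¬ Holds ((res he z u).A v) (liftC e j j' pos pos' a a')) :
    (∀ r, v (j, r) = a r) ∧ ∀ r, v (j', r) = a' r := by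
  rw [not_holds_liftC] at h
  obtain ⟨⟨h1, h2⟩, h3, h4⟩ := h
  have e1 : pos = z j := by
    funext t
    rw [← h3 t, res_ptr]
  have e2 : pos' = z j' := by
    funext t
    rw [← h4 t, res_ptr]
  rw [e1] at h1
  rw [e2] at h2
  refine ⟨fun r => ?_, fun r => ?_⟩
  · rw [← h1 r, res_live]
  · rw [← h2 r, res_live]

/-- The false set of a line that is implied by a clause is empty or a leaf. -/
theorem clause_leaf {e : VV b ℓ → W} (he : Function.Injective e) (z : JB b → Fin ℓ → Bool)
    (u : JB b × (Fin ℓ → Bool) × RB b → Bool) {C : Clause W} (hC : C ∈ liftF e)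
    {Z : Set ((PP b → Sy b) × (PP b × Sy b → Sy b))}
    (hZ : ∀ p ∈ Z, ¬ Holds ((res he z u).A (enc p.1 p.2)) C) :
    Z = ∅ ∨ IsLeaf Z := by
  obtain ⟨j, j', pos, pos', a, a', hF, rfl⟩ := mem_liftF.1 hC
  have key : ∀ p ∈ Z, (∀ r, enc p.1 p.2 (j, r) = a r) ∧ ∀ r, enc p.1 p.2 (j', r) = a' r :=
    fun p hp => res_holds he z u _ (hZ p hp)
  rcases hF with h | ⟨i, i', hne, rfl, rfl, ha⟩
  · left
    rw [Set.eq_empty_iff_forall_notMem]
    intro p hp
    exact h p.1 p.2 (key p hp)
  · right
    refine ⟨(i, fun t => a (false, t)), (i', fun t => a (true, t)), fun h => hne (Prod.ext_iff.1 h).1,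
      fun p hp => ?_⟩
    obtain ⟨k1, k2⟩ := key p hp
    refine ⟨?_, ?_, ?_⟩
    · funext t
      exact k1 (false, t)
    · funext t
      exact k1 (true, t)
    · funext t
      have e1 := k2 (false, t)
      have e2 := k2 (true, t)
      rw [← ha t] at e2
      exact e1.trans e2.symm

end Lift

end Pool.Agent.MP_9cec2c_lc.MixedLines
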