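import Pool.Agent.Lib.MP_9cec2c_lc.MLLift
import Pool.Agent.Lib.MP_9cec2c_lc.MLDnf

/-!
The lower bound, with all parameters.
-/

set_option autoImplicit false
set_option linter.unusedSectionVars false
set_option linter.unusedVariables false

namespace Pool.Agent.MP_9cec2c_lc.MixedLines

open Finset ThresholdLines

section Gates

variable {J Q R P : Type} [Fintype J] [DecidableEq J] [Fintype Q] [DecidableEq Q]
  [Fintype R] [DecidableEq R] [Fintype P] [DecidableEq P] {V : Type} [Fintype V]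

theorem PTree.transfer {Y U U' : Type} {X : Y → U → Bool} {X' : Y → U' → Bool} {φ : Y → Prop}
    (f : Finset U → Finset U') (hf : ∀ A v, par (f A) (X' v) = par A (X v)) {r : ℕ} {S : Set Y}
    (h : PTree X φ r S) : PTree X' φ r S := by
  induction h with
  | leaf r S h => exact PTree.leaf _ _ h
  | node r S A _ _ ih1 ih2 =>
    refine PTree.node _ _ (f A) ?_ ?_
    · simpa only [hf] using ih1
    · simpa only [hf] using ih2

theorem gate_bad {e : (J × Q × R) ⊕ P → V} (he : Function.Injective e)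
    (hcell : Function.Injective fun p => e (Sum.inl p)) (ptr : (J → Q) ≃ (P → Bool))
    {base : (J → Q) → V → Bool}
    (hbase : ∀ z, base z = Function.extend (fun p => e (Sum.inr p)) (ptr z) fun _ => false)
    [Nonempty Q] (g : Finset (Finset (Equation V))) (t w d lam D : ℕ) (hD : D ≤ 2 ^ lam)
    (hg : ∀ T ∈ g, T.card ≤ d ∧ ∀ E ∈ T, E.1.card ≤ w)
    (H : 2 ^ (GG (t * Fintype.card R) d lam + 1) * (GG (t * Fintype.card R) d lam * w) ^ t ≤
      Fintype.card Q ^ t) :
    ∃ Bad : Finset ((J → Q) × (J × Q × R → Bool)),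
      D * Bad.card ≤ Fintype.card ((J → Q) × (J × Q × R → Bool)) ∧
      ∀ ω ∉ Bad, GateOK (restr hcell base ω.1 ω.2) (GG (t * Fintype.card R) d lam) g := by
  classical
  have hval : ∀ z u v i, (restr hcell base z u).A v (e i) = asg ptr z u v i := by
    intro z u v i
    rw [restr_A]
    rcases i with p | p
    · exact hcell.extend_apply _ _ p
    · rw [Function.extend_apply', hbase]
      · have hinj : Function.Injective fun p : P => e (Sum.inr p) :=
          fun _ _ h => Sum.inr_injective (he h)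
        exact hinj.extend_apply _ _ p
      · rintro ⟨q, hq⟩
        have := he hq
        simp at this
  have hout : ∀ z u v w, (¬ ∃ i, e i = w) → (restr hcell base z u).A v w = false := by
    intro z u v w hw
    rw [restr_A, Function.extend_apply' _ _ _ (fun ⟨p, hp⟩ => hw ⟨_, hp⟩), hbase,
      Function.extend_apply' _ _ _ (fun ⟨p, hp⟩ => hw ⟨_, hp⟩)]
  set pe : Finset V → Finset ((J × Q × R) ⊕ P) := fun A => univ.filter fun i => e i ∈ A with hpe
  have hpar : ∀ A z u v, par A ((restr hcell base z u).A v) = par (pe A) (asg ptr z u v) := by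
    intro A z u v
    unfold par
    rw [← sum_filter_add_sum_filter_not A (fun w => ∃ i, e i = w)]
    have h2 : ∑ w ∈ A with ¬ ∃ i, e i = w,
        (if (restr hcell base z u).A v w then (1 : ZMod 2) else 0) = 0 := by
      refine sum_eq_zero fun w hw => ?_
      rw [hout z u v w (mem_filter.1 hw).2]
      rfl
    rw [h2, add_zero]
    have himg : A.filter (fun w => ∃ i, e i = w) = (pe A).image e := by
      ext w
      rw [mem_filter, mem_image]
      constructor
      · rintro ⟨h1, i, rfl⟩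
        exact ⟨i, mem_filter.2 ⟨mem_univ _, h1⟩, rfl⟩
      · rintro ⟨i, hi, rfl⟩
        exact ⟨(mem_filter.1 hi).2, i, rfl⟩
    rw [himg, sum_image fun _ _ _ _ h => he h]
    exact sum_congr rfl fun i _ => by rw [hval]
  have hpc : ∀ A, (pe A).card ≤ A.card := by
    intro A
    rw [← card_image_of_injective _ he]
    refine card_le_card fun w hw => ?_
    obtain ⟨i, hi, rfl⟩ := mem_image.1 hw
    exact (mem_filter.1 hi).2
  set g' : Finset (Finset (Finset ((J × Q × R) ⊕ P) × ZMod 2)) :=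
    g.image fun T => T.image fun E => (pe E.1, E.2) with hg'
  obtain ⟨Bad, h1, h2⟩ := dnf_bad ptr t w d lam g' (by
    intro T' hT'
    obtain ⟨T, hT, rfl⟩ := mem_image.1 hT'
    refine ⟨card_image_le.trans (hg T hT).1, fun E' hE' => ?_⟩
    obtain ⟨E, hE, rfl⟩ := mem_image.1 hE'
    exact (hpc _).trans ((hg T hT).2 E hE)) H
  refine ⟨Bad, (Nat.mul_le_mul_right _ hD).trans h1, fun ω hω => ?_⟩
  have h3 : ∀ v, OneHolds ((restr hcell base ω.1 ω.2).A v) g ↔
      ∃ T ∈ g', Sat (asg ptr ω.1 ω.2 v) T := by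
    intro v
    constructor
    · rintro ⟨T, hT, h⟩
      refine ⟨_, mem_image_of_mem _ hT, fun E' hE' => ?_⟩
      obtain ⟨E, hE, rfl⟩ := mem_image.1 hE'
      rw [← hpar]
      exact h E hE
    · rintro ⟨T', hT', h⟩
      obtain ⟨T, hT, rfl⟩ := mem_image.1 hT'
      refine ⟨T, hT, fun E hE => ?_⟩
      have := h _ (mem_image_of_mem (fun E : Equation V => (pe E.1, E.2)) hE)
      rw [← hpar] at this
      exact this
  refine PTree.transfer (X := asg ptr ω.1 ω.2) (fun A => A.image e) (fun A v => ?_)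
    ((h2 ω hω).congr subset_rfl le_rfl fun v _ => h3 v)
  rw [hpar]
  congr 1
  ext i
  rw [hpe]
  simp only [mem_filter, mem_univ, true_and, mem_image]
  constructor
  · rintro ⟨j, hj, hji⟩
    rw [← he hji]
    exact hj
  · intro hi
    exact ⟨i, hi, rfl⟩

/-- The restriction is good for the line. -/
def LineGood {cell : J × Q × R → V} (hcell : Function.Injective cell)
    (base : (J → Q) → V → Bool) (t r : ℕ)
    (L : Line V) (ω : (J → Q) × (J × Q × R → Bool)) : Prop :=
  FormGood cell t L.sel ω.1 ω.2 ∧ (∀ m c, FormGood cell t (L.ineq m c) ω.1 ω.2) ∧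
    ∀ i, GateOK (restr hcell base ω.1 ω.2) r (L.gate i)

theorem line_bad {e : (J × Q × R) ⊕ P → V} (he : Function.Injective e)
    (hcell : Function.Injective fun p => e (Sum.inl p)) (ptr : (J → Q) ≃ (P → Bool))
    {base : (J → Q) → V → Bool}
    (hbase : ∀ z, base z = Function.extend (fun p => e (Sum.inr p)) (ptr z) fun _ => false)
    [Nonempty Q] [Nonempty J] (L : Line V) (t d lam w nn D N : ℕ)
    (hM : 1 + (@Fintype.card L.M L.fin * 2 ^ L.num + L.num) ≤ N)
    (hw : ∀ i, ∀ T ∈ L.gate i, T.card ≤ d ∧ ∀ E ∈ T, E.1.card ≤ w)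
    (hsel : ∑ i, (1 + (L.sel.term i).supp.card) ^ 2 ≤ nn)
    (hineq : ∀ m c, ∑ i, (1 + ((L.ineq m c).term i).supp.card) ^ 2 ≤ nn)
    (H1 : 2 * (N * D) * nn ≤ 2 ^ (Fintype.card J + 1))
    (H2 : 2 * (N * D) * (4 * Fintype.card J ^ 2 * nn) ^ t ≤ (Fintype.card Q ^ 2) ^ t)
    (H3 : N * D ≤ 2 ^ lam)
    (H4 : 2 ^ (GG (t * Fintype.card R) d lam + 1) * (GG (t * Fintype.card R) d lam * w) ^ t ≤
      Fintype.card Q ^ t) :
    ∃ Bad : Finset ((J → Q) × (J × Q × R → Bool)),
      D * Bad.card ≤ Fintype.card ((J → Q) × (J × Q × R → Bool)) ∧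
      ∀ ω ∉ Bad, LineGood hcell base t (GG (t * Fintype.card R) d lam) L ω := by
  classical
  let := L.fin
  set C₀ := Fintype.card ((J → Q) × (J × Q × R → Bool)) with hC₀
  obtain ⟨B1, h1, g1⟩ := form_bad hcell L.sel t nn (N * D) hsel H1 H2
  choose B2 h2 g2 using fun mc : L.M × (Fin L.num → Bool) =>
    form_bad hcell (L.ineq mc.1 mc.2) t nn (N * D) (hineq mc.1 mc.2) H1 H2
  choose B3 h3 g3 using fun i : Fin L.num =>
    gate_bad he hcell ptr hbase (L.gate i) t w d lam (N * D) H3 (hw i) H4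
  refine ⟨B1 ∪ (univ.biUnion B2 ∪ univ.biUnion B3), ?_, ?_⟩
  · have hN : 1 ≤ N := by omega
    have e2 : N * D * (univ.biUnion B2).card ≤
        Fintype.card (L.M × (Fin L.num → Bool)) * C₀ := by
      calc N * D * (univ.biUnion B2).card ≤ N * D * ∑ mc, (B2 mc).card :=
            Nat.mul_le_mul_left _ card_biUnion_le
        _ = ∑ mc, N * D * (B2 mc).card := mul_sum _ _ _
        _ ≤ ∑ _mc : L.M × (Fin L.num → Bool), C₀ := sum_le_sum fun mc _ => h2 mc
        _ = _ := by rw [sum_const, card_univ, smul_eq_mul]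
    have e3 : N * D * (univ.biUnion B3).card ≤ L.num * C₀ := by
      calc N * D * (univ.biUnion B3).card ≤ N * D * ∑ i, (B3 i).card :=
            Nat.mul_le_mul_left _ card_biUnion_le
        _ = ∑ i, N * D * (B3 i).card := mul_sum _ _ _
        _ ≤ ∑ _i : Fin L.num, C₀ := sum_le_sum fun i _ => h3 i
        _ = _ := by rw [sum_const, card_univ, Fintype.card_fin, smul_eq_mul]
    rw [Fintype.card_prod, Fintype.card_fun, Fintype.card_bool, Fintype.card_fin] at e2
    have e4 : N * (D * (B1 ∪ (univ.biUnion B2 ∪ univ.biUnion B3)).card) ≤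
        N * C₀ := by
      calc N * (D * (B1 ∪ (univ.biUnion B2 ∪ univ.biUnion B3)).card)
          ≤ N * (D * (B1.card + ((univ.biUnion B2).card + (univ.biUnion B3).card))) := by
            refine Nat.mul_le_mul_left _ (Nat.mul_le_mul_left _ ?_)
            exact (card_union_le _ _).trans (Nat.add_le_add_left (card_union_le _ _) _)
        _ = N * D * B1.card + (N * D * (univ.biUnion B2).card +
            N * D * (univ.biUnion B3).card) := by ring
        _ ≤ C₀ + (Fintype.card L.M * 2 ^ L.num * C₀ +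
            L.num * C₀) := Nat.add_le_add h1 (Nat.add_le_add e2 e3)
        _ = (1 + (Fintype.card L.M * 2 ^ L.num + L.num)) * C₀ := by ring
        _ ≤ N * C₀ := Nat.mul_le_mul_right _ hM
    exact Nat.le_of_mul_le_mul_left e4 hN
  · intro ω hω
    rw [mem_union, mem_union, not_or, not_or] at hω
    refine ⟨g1 ω hω.1, fun m c => g2 (m, c) ω fun h => hω.2.1 ?_, fun i => g3 i ω fun h => hω.2.2 ?_⟩
    · exact mem_biUnion.2 ⟨(m, c), mem_univ _, h⟩
    · exact mem_biUnion.2 ⟨i, mem_univ _, h⟩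

theorem exists_good {e : (J × Q × R) ⊕ P → V} (he : Function.Injective e)
    (hcell : Function.Injective fun p => e (Sum.inl p)) (ptr : (J → Q) ≃ (P → Bool))
    {base : (J → Q) → V → Bool}
    (hbase : ∀ z, base z = Function.extend (fun p => e (Sum.inr p)) (ptr z) fun _ => false)
    [Nonempty Q] [Nonempty J] {S : ℕ} (L : Fin S → Line V) (t d lam w nn D N : ℕ) (hD : S < D)
    (hM : ∀ i, 1 + (@Fintype.card (L i).M (L i).fin * 2 ^ (L i).num + (L i).num) ≤ N)
    (hw : ∀ i a, ∀ T ∈ (L i).gate a, T.card ≤ d ∧ ∀ E ∈ T, E.1.card ≤ w)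
    (hsel : ∀ i, ∑ a, (1 + ((L i).sel.term a).supp.card) ^ 2 ≤ nn)
    (hineq : ∀ i m c, ∑ a, (1 + (((L i).ineq m c).term a).supp.card) ^ 2 ≤ nn)
    (H1 : 2 * (N * D) * nn ≤ 2 ^ (Fintype.card J + 1))
    (H2 : 2 * (N * D) * (4 * Fintype.card J ^ 2 * nn) ^ t ≤ (Fintype.card Q ^ 2) ^ t)
    (H3 : N * D ≤ 2 ^ lam)
    (H4 : 2 ^ (GG (t * Fintype.card R) d lam + 1) * (GG (t * Fintype.card R) d lam * w) ^ t ≤
      Fintype.card Q ^ t) :
    ∃ ω : (J → Q) × (J × Q × R → Bool), ∀ i,
      LineGood hcell base t (GG (t * Fintype.card R) d lam) (L i) ω := by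
  choose Bad h1 h2 using fun i => line_bad he hcell ptr hbase (L i) t d lam w nn D N (hM i) (hw i)
    (hsel i) (hineq i) H1 H2 H3 H4
  have : Nonempty ((J → Q) × (J × Q × R → Bool)) :=
    ⟨(fun _ => Classical.arbitrary Q, fun _ => false)⟩
  obtain ⟨ω, hω⟩ := exists_notMem D Bad (by rw [Fintype.card_fin]; exact hD) h1
  exact ⟨ω, fun i => h2 i ω (hω i)⟩

end Gates

/-- The lower bound, with all parameters. -/
theorem main_bound {b ℓ ar L t d lam B kk nn w D N S : ℕ} {W : Type} [Fintype W] [DecidableEq W]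
    {e : VV b ℓ → W} (he : Function.Injective e) {k s w' : ℝ}
    (hk : k < ar + 1) (hkk : k < kk + 1) (har : 2 ≤ ar) (hL : 1 ≤ L)
    (hb : 8 * ar * L ^ 2 ≤ 2 ^ b) (hB : (2 : ℝ) ^ k ≤ 2 ^ B) (hs : s < nn + 1) (hw : w' < w + 1)
    (hN : 1 + (2 ^ B * 2 ^ kk + kk) ≤ N) (hD : S < D)
    (H1 : 2 * (N * D) * nn ≤ 2 ^ (Fintype.card (JB b) + 1))
    (H2 : 2 * (N * D) * (4 * Fintype.card (JB b) ^ 2 * nn) ^ t ≤ ((2 ^ ℓ) ^ 2) ^ t)
    (H3 : N * D ≤ 2 ^ lam)
    (H4 : 2 ^ (GG (t * (2 * b)) d lam + 1) * (GG (t * (2 * b)) d lam * w) ^ t ≤ (2 ^ ℓ) ^ t)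
    (Λ : Fin S → Line W) (hΛ : IsRefutation k (liftF e) Λ)
    (hsm : ∀ i, (Λ i).Small d k s w') :
    2 ^ L ≤ (S + 1) * 2 ^ ((ar + 1) * (2 * t * (2 * b) + (B + (B +
      (kk * (2 * GG (t * (2 * b)) d lam) + 2 * t * (2 * b))))) + 2) := by
  classical
  have hRc : Fintype.card (RB b) = 2 * b := by simp
  have hQc : Fintype.card (Fin ℓ → Bool) = 2 ^ ℓ := by simp
  have hnum : ∀ i, (Λ i).num ≤ kk := by
    intro i
    have := (hsm i).2.1.trans_lt hkk
    have h2 : (Λ i).num < kk + 1 := by exact_mod_cast this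
    omega
  have hcard : ∀ i, @Fintype.card (Λ i).M (Λ i).fin ≤ 2 ^ B := by
    intro i
    have := (hsm i).1.trans hB
    exact_mod_cast this
  have hww : ∀ i a, ∀ T ∈ (Λ i).gate a, T.card ≤ d ∧ ∀ E ∈ T, E.1.card ≤ w := by
    intro i a T hT
    refine ⟨((hsm i).2.2.1 a T hT).1, fun E hE => ?_⟩
    have := (((hsm i).2.2.1 a T hT).2 E hE).trans_lt hw
    have h2 : E.1.card < w + 1 := by exact_mod_cast this
    omega
  have hsp : ∀ {M : Type} (f : Form W M), f.Sparse s →
      ∑ i, (1 + (f.term i).supp.card) ^ 2 ≤ nn := by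
    intro M f hf
    have := hf.2.trans_lt hs
    have h2 : ∑ i, (1 + (f.term i).supp.card) ^ 2 < nn + 1 := by exact_mod_cast this
    omega
  obtain ⟨ω, hω⟩ := exists_good he (cell_inj he) (Equiv.curry (JB b) (Fin ℓ) Bool).symm
    (base := baseVal e) (fun z => rfl) Λ t d lam w nn D N hD (fun i =>
    le_trans (Nat.add_le_add_left (Nat.add_le_add (Nat.mul_le_mul (hcard i)
      (Nat.pow_le_pow_right (by norm_num) (hnum i))) (hnum i)) _) hN) hww
    (fun i => hsp _ (hsm i).2.2.2.1) (fun i m c => hsp _ ((hsm i).2.2.2.2 m c)) H1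
    (by rw [hQc]; exact H2) H3 (by rw [hQc, hRc]; exact H4)
  set ρ := res he ω.1 ω.2 with hρ
  set Z : Fin S → Set ((PP b → Sy b) × (PP b × Sy b → Sy b)) := fun i =>
    {p | ¬ (Λ i).True (ρ.A (enc p.1 p.2))} with hZ
  obtain ⟨⟨i₀, hi₀⟩, hline⟩ := hΛ
  have hC : Fintype.card (Sy b) = 2 ^ b := by simp
  refine tree_bound (P := PP b) (I := Sy b) (C := Sy b) hL har
    (by
      rw [hC]
      refine le_trans ?_ hb
      have : 8 * L ^ 2 * 1 ≤ 8 * L ^ 2 * ar := Nat.mul_le_mul_left _ (by omega)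
      nlinarith) (by rw [hC]; exact hb) Z ?_ ?_ ?_
  · intro i
    obtain ⟨g1, g2, g3⟩ := hω i
    have e1 := FormGood.ok (cell_inj he) (baseVal e) g1 (side := side) side_block
    have e2 := fun m c => FormGood.ok (cell_inj he) (baseVal e) (g2 m c) (side := side) side_block
    rw [hRc] at e1 e2 g3
    exact piece (ρ := ρ) enc_sided (Λ i) (hcard i) (hnum i) (hsm i).2.2.2.1.1
      (fun m c => ((hsm i).2.2.2.2 m c).1) e1 e2 g3
  · intro i
    rcases hline i with ⟨C, hC, himp⟩ | ⟨P, hP, hlt, himp⟩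
    · rcases clause_leaf he ω.1 ω.2 hC (Z := Z i) (fun p hp h => hp (himp _ h)) with h | h
      · refine Or.inr ⟨0, Nat.zero_le _, fun a => a.elim0, fun a => a.elim0, fun p hp => ?_⟩
        rw [h] at hp
        exact absurd hp (Set.notMem_empty _)
      · exact Or.inl h
    · refine Or.inr ⟨P.card, ?_, fun a => P.equivFin.symm a, fun a => hlt _ (P.equivFin.symm a).2,
        fun p hp => ?_⟩
      · have h1 := hP.trans_lt hk
        have h2 : P.card < ar + 1 := by exact_mod_cast h1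
        omega
      · by_contra hcon
        push Not at hcon
        refine hp (himp _ fun j hj => ?_)
        have := hcon (P.equivFin ⟨j, hj⟩)
        simp only [Equiv.symm_apply_apply] at this
        by_contra hT
        exact this hT
  · exact ⟨i₀, Set.eq_univ_of_forall fun p => hi₀ _⟩

end Pool.Agent.MP_9cec2c_lc.MixedLines
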