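import Pool.Agent.Lib.MP_9cec2c_lc.TLTree
import Pool.Agent.Lib.MP_9cec2c_lc.MLDefs
import Pool.Agent.Lib.MP_9cec2c_lc.MLDnf

/-!
The false set of a restricted line splits into triangles.
-/

set_option autoImplicit false
set_option linter.unusedSectionVars false
set_option linter.unusedVariables false

namespace Pool.Agent.MP_9cec2c_lc.MixedLines

open Finset ThresholdLines

section Rect

variable {X Y : Type}

/-- A rectangle. -/
def IsRect (T : Set (X × Y)) : Prop := ∃ (A : Set X) (B : Set Y), T = {p | p.1 ∈ A ∧ p.2 ∈ B}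

theorem isRect_univ : IsRect (Set.univ : Set (X × Y)) :=
  ⟨Set.univ, Set.univ, by ext p; simp⟩

theorem IsRect.inter {T : Set (X × Y)} (hT : IsRect T) {f : X × Y → Bool} (hf : OneSided f)
    (c : Bool) : IsRect (T ∩ {p | f p = c}) := by
  obtain ⟨A, B, rfl⟩ := hT
  rcases hf with ⟨g, hg⟩ | ⟨g, hg⟩
  · refine ⟨{x | x ∈ A ∧ g x = c}, B, ?_⟩
    ext ⟨x, y⟩
    simp only [Set.mem_inter_iff, Set.mem_ofPred_eq, hg]
    tauto
  · refine ⟨A, {y | y ∈ B ∧ g y = c}, ?_⟩
    ext ⟨x, y⟩
    simp only [Set.mem_inter_iff, Set.mem_ofPred_eq, hg]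
    tauto

theorem IsRect.mem {T : Set (X × Y)} (hT : IsRect T) {x x' : X} {y y' : Y} (h : (x, y) ∈ T)
    (h' : (x', y') ∈ T) : (x, y') ∈ T := by
  obtain ⟨A, B, rfl⟩ := hT
  exact ⟨h.1, h'.2⟩

theorem split_enrich {φ : Set (X × Y) → Prop} {q : ℕ} {T : Set (X × Y)} (h : Split φ q T)
    (hT : IsRect T) : Split (fun T' => φ T' ∧ T' ⊆ T ∧ IsRect T') q T := by
  induction h with
  | leaf q T hφ => exact Split.leaf _ _ ⟨hφ, subset_rfl, hT⟩
  | node q T f hf _ _ ih1 ih2 =>
    refine Split.node _ _ f hf ((ih1 (hT.inter hf true)).mono ?_ le_rfl)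
      ((ih2 (hT.inter hf false)).mono ?_ le_rfl)
    · rintro T' ⟨h1, h2, h3⟩
      exact ⟨h1, h2.trans Set.inter_subset_left, h3⟩
    · rintro T' ⟨h1, h2, h3⟩
      exact ⟨h1, h2.trans Set.inter_subset_left, h3⟩

/-- Splitting by a finite set of queries makes them constant. -/
theorem split_const {ι : Type} [DecidableEq ι] (f : ι → X × Y → Bool)
    (h : ∀ j, OneSided (f j)) (U : Set (X × Y)) (K : Finset ι) :
    Split (fun T => ∀ j ∈ K, ∀ p ∈ T, ∀ p' ∈ T, f j p = f j p') K.card U := by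
  classical
  induction K using Finset.induction_on with
  | empty => exact Split.leaf _ _ fun j hj => absurd hj (notMem_empty _)
  | insert a K ha ih =>
    rw [card_insert_of_notMem ha]
    refine ih.bind ?_
    intro T hT
    have key : ∀ b : Bool, ∀ j ∈ insert a K, ∀ p ∈ T ∩ {p | f a p = b},
        ∀ p' ∈ T ∩ {p | f a p = b}, f j p = f j p' := by
      intro b j hj p hp p' hp'
      rcases mem_insert.1 hj with rfl | hj
      · exact hp.2.trans hp'.2.symm
      · exact hT j hj p hp.1 p' hp'.1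
    exact Split.node 0 _ (f a) (h a) (Split.leaf _ _ (key true)) (Split.leaf _ _ (key false))

/-- Splitting by a function of one side with few values makes it constant. -/
theorem split_code {M : Type} [Fintype M] {B : ℕ} (hB : Fintype.card M ≤ 2 ^ B)
    (f : X × Y → M) (hf : (∃ g : X → M, ∀ p, f p = g p.1) ∨ ∃ g : Y → M, ∀ p, f p = g p.2)
    (U : Set (X × Y)) : Split (fun T => ∀ p ∈ T, ∀ p' ∈ T, f p = f p') B U := by
  classical
  obtain ⟨code, hcode⟩ : ∃ c : M → Fin B → Bool, Function.Injective c := by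
    have : Fintype.card M ≤ Fintype.card (Fin B → Bool) := by
      rw [Fintype.card_fun, Fintype.card_bool, Fintype.card_fin]
      exact hB
    obtain ⟨e⟩ := Function.Embedding.nonempty_of_card_le this
    exact ⟨e, e.injective⟩
  have h1 := split_const (fun (a : Fin B) (p : X × Y) => code (f p) a) (by
    intro a
    rcases hf with ⟨g, hg⟩ | ⟨g, hg⟩
    · exact Or.inl ⟨fun x => code (g x) a, fun p => by simp only [hg]⟩
    · exact Or.inr ⟨fun y => code (g y) a, fun p => by simp only [hg]⟩) U univ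
  rw [card_univ, Fintype.card_fin] at h1
  refine h1.mono ?_ le_rfl
  intro T hT p hp p' hp'
  exact hcode (funext fun a => hT a (mem_univ _) p hp p' hp')

end Rect

/-- A way to extend the values of the live variables to an assignment. -/
structure Restr (V J : Type) where
  /-- the live variables -/
  live : J → V
  /-- the assignment -/
  A : (J → Bool) → V → Bool
  /-- the live variables are distinct -/
  inj : Function.Injective live
  /-- the live variables are assigned their values -/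
  hlive : ∀ v j, A v (live j) = v j
  /-- the other variables are fixed -/
  hfix : ∀ v v' w, (∀ j, w ≠ live j) → A v w = A v' w

section Sep

variable {X Y J : Type} (side : J → Bool) (enc : X → Y → J → Bool)

/-- Each bit of the encoding depends on one side only. -/
def Sided : Prop :=
  ∀ j, (side j = false → ∀ x y y', enc x y j = enc x y' j) ∧
    (side j = true → ∀ x x' y, enc x y j = enc x' y j)

variable {side enc}

theorem Sided.oneSided (h : Sided side enc) (j : J) :
    OneSided fun p : X × Y => enc p.1 p.2 j := by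
  cases hj : side j
  · by_cases hY : Nonempty Y
    · obtain ⟨y₀⟩ := hY
      exact Or.inl ⟨fun x => enc x y₀ j, fun p => (h j).1 hj _ _ _⟩
    · exact Or.inl ⟨fun _ => true, fun p => absurd ⟨p.2⟩ hY⟩
  · by_cases hX : Nonempty X
    · obtain ⟨x₀⟩ := hX
      exact Or.inr ⟨fun y => enc x₀ y j, fun p => (h j).2 hj _ _ _⟩
    · exact Or.inr ⟨fun _ => true, fun p => absurd ⟨p.1⟩ hX⟩

/-- The function depends on the coordinates in `K` and on those of the side `s`. -/
def SideDep {M : Type} (side : J → Bool) (K : Finset J) (g : (J → Bool) → M) (s : Bool) : Prop :=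
  ∀ v v', (∀ i ∈ K, v i = v' i) → (∀ i, side i = s → v i = v' i) → g v = g v'

theorem sum_split (h : Sided side enc) {K : Finset J} {T : Set (X × Y)} (hT : IsRect T)
    (hK : ∀ j ∈ K, ∀ p ∈ T, ∀ p' ∈ T, enc p.1 p.2 j = enc p'.1 p'.2 j) {M ι : Type}
    [AddCommMonoid M] [Fintype ι] (g : ι → (J → Bool) → M)
    (hg : ∀ i, ∃ s, SideDep side K (g i) s) :
    ∃ (α : X → M) (β : Y → M), ∀ p ∈ T, ∑ i, g i (enc p.1 p.2) = α p.1 + β p.2 := by
  classical
  by_cases hne : ∃ p₀, p₀ ∈ T
  · obtain ⟨⟨x₀, y₀⟩, h₀⟩ := hne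
    choose s hs using hg
    refine ⟨fun x => ∑ i ∈ univ.filter (fun i => s i = false), g i (enc x y₀),
      fun y => ∑ i ∈ univ.filter (fun i => ¬ s i = false), g i (enc x₀ y), ?_⟩
    rintro ⟨x, y⟩ hp
    have h1 : (x, y₀) ∈ T := hT.mem hp h₀
    have h2 : (x₀, y) ∈ T := hT.mem h₀ hp
    rw [← sum_filter_add_sum_filter_not univ (fun i => s i = false)]
    congr 1
    · refine sum_congr rfl fun i hi => ?_
      have hsi : s i = false := (mem_filter.1 hi).2
      refine hs i _ _ (fun j hj => hK j hj _ hp _ h1) fun j hj => ?_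
      rw [hsi] at hj
      exact (h j).1 hj _ _ _
    · refine sum_congr rfl fun i hi => ?_
      have hsi : s i = true := by
        have := (mem_filter.1 hi).2
        simpa using this
      refine hs i _ _ (fun j hj => hK j hj _ hp _ h2) fun j hj => ?_
      rw [hsi] at hj
      exact (h j).2 hj _ _ _
  · exact ⟨fun _ => 0, fun _ => 0, fun p hp => absurd ⟨p, hp⟩ hne⟩

end Sep

section Piece

variable {V J : Type} [Fintype V] (ρ : Restr V J) (side : J → Bool)

open scoped Classical in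
/-- The variables of a term. -/
noncomputable def Term.vars {M : Type} (T : Term V M) : Finset V :=
  T.lits.image Prod.fst ∪ T.supp

theorem value_dep {M : Type} [AddCommMonoid M] {T : Term V M} (hT : T.Local)
    {x y : V → Bool} (h : ∀ v ∈ T.vars, x v = y v) : T.value x = T.value y := by
  classical
  have h1 : ∀ l ∈ T.lits, x l.1 = y l.1 := fun l hl =>
    h _ (mem_union_left _ (mem_image_of_mem _ hl))
  have h2 : T.wt x = T.wt y := hT x y fun v hv => h v (mem_union_right _ hv)
  have h3 : (∀ l ∈ T.lits, x l.1 = l.2) ↔ ∀ l ∈ T.lits, y l.1 = l.2 := by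
    constructor
    · intro hx l hl
      rw [← h1 l hl]; exact hx l hl
    · intro hx l hl
      rw [h1 l hl]; exact hx l hl
  unfold Term.value
  by_cases hx : ∀ l ∈ T.lits, x l.1 = l.2
  · rw [if_pos hx, if_pos (h3.1 hx), h2]
  · rw [if_neg hx, if_neg (fun hy => hx (h3.2 hy))]

/-- Each term is dead, or its live variables outside `K` are on one side. -/
def FormOK {M : Type} (K : Finset J) (f : Form V M) : Prop :=
  ∀ i, (∀ v, ∃ l ∈ (f.term i).lits, ρ.A v l.1 ≠ l.2) ∨
    ∃ s, ∀ j, ρ.live j ∈ (f.term i).vars → j ∉ K → side j = s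

variable {ρ side}

theorem form_split {X Y : Type} {enc : X → Y → J → Bool} (henc : Sided side enc) {K : Finset J}
    {T : Set (X × Y)} (hT : IsRect T)
    (hK : ∀ j ∈ K, ∀ p ∈ T, ∀ p' ∈ T, enc p.1 p.2 j = enc p'.1 p'.2 j) {M : Type}
    [AddCommMonoid M] (f : Form V M) (hloc : ∀ i, (f.term i).Local) (hf : FormOK ρ side K f) :
    ∃ (α : X → M) (β : Y → M), ∀ p ∈ T, f.value (ρ.A (enc p.1 p.2)) = α p.1 + β p.2 := by
  classical
  have hlin : ∀ w, ∃ s, SideDep side K (fun v => f.lin w (ρ.A v w)) s := by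
    intro w
    by_cases hw : ∃ j, w = ρ.live j
    · obtain ⟨j, rfl⟩ := hw
      refine ⟨side j, fun v v' _ hj => ?_⟩
      beta_reduce
      rw [ρ.hlive, ρ.hlive, hj j rfl]
    · push Not at hw
      refine ⟨true, fun v v' _ _ => ?_⟩
      beta_reduce
      rw [ρ.hfix v v' w hw]
  have hterm : ∀ i, ∃ s, SideDep side K (fun v => (f.term i).value (ρ.A v)) s := by
    intro i
    rcases hf i with h0 | ⟨s, hs⟩
    · have h00 : ∀ v, (f.term i).value (ρ.A v) = 0 := by
        intro v
        obtain ⟨l, hl, hne⟩ := h0 v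
        exact if_neg fun h => hne (h l hl)
      refine ⟨true, fun v v' _ _ => ?_⟩
      beta_reduce
      rw [h00, h00]
    · refine ⟨s, fun v v' hv hside => value_dep (hloc i) fun w hw => ?_⟩
      by_cases hwl : ∃ j, w = ρ.live j
      · obtain ⟨j, rfl⟩ := hwl
        rw [ρ.hlive, ρ.hlive]
        by_cases hj : j ∈ K
        · exact hv j hj
        · exact hside j (hs j hw hj)
      · push Not at hwl
        exact ρ.hfix v v' w hwl
  obtain ⟨α₁, β₁, h1⟩ := sum_split henc hT hK (fun w v => f.lin w (ρ.A v w)) hlin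
  obtain ⟨α₂, β₂, h2⟩ := sum_split henc hT hK (fun i v => (f.term i).value (ρ.A v)) hterm
  refine ⟨fun x => α₁ x + α₂ x, fun y => β₁ y + β₂ y, fun p hp => ?_⟩
  unfold Form.value
  rw [h1 p hp, h2 p hp, add_add_add_comm]

theorem par_split {X Y : Type} {enc : X → Y → J → Bool} (henc : Sided side enc)
    {T : Set (X × Y)} (hT : IsRect T) (A : Finset V) :
    ∃ (α : X → ZMod 2) (β : Y → ZMod 2), ∀ p ∈ T, par A (ρ.A (enc p.1 p.2)) = α p.1 + β p.2 := by
  classical
  obtain ⟨α, β, h⟩ := sum_split (K := ∅) henc hT (fun j hj => absurd hj (notMem_empty _))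
    (fun (w : A) (v : J → Bool) => if ρ.A v w then (1 : ZMod 2) else 0) (by
      intro w
      by_cases hw : ∃ j, (w : V) = ρ.live j
      · obtain ⟨j, hj⟩ := hw
        refine ⟨side j, fun v v' _ hs => ?_⟩
        beta_reduce
        rw [hj, ρ.hlive, ρ.hlive, hs j rfl]
      · push Not at hw
        refine ⟨true, fun v v' _ _ => ?_⟩
        beta_reduce
        rw [ρ.hfix v v' w hw])
  refine ⟨α, β, fun p hp => ?_⟩
  rw [← h p hp]
  unfold par
  rw [← sum_coe_sort]

/-- After the restriction the gate is decided by `r` adaptive parity queries. -/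
def GateOK (ρ : Restr V J) (r : ℕ) (g : Finset (Finset (Equation V))) : Prop :=
  PTree ρ.A (fun v => OneHolds (ρ.A v) g) r Set.univ

theorem split_ptree {X Y : Type} {enc : X → Y → J → Bool} (henc : Sided side enc)
    {φ : (J → Bool) → Prop} {r : ℕ} {S : Set (J → Bool)} (h : PTree ρ.A φ r S) :
    ∀ {U : Set (X × Y)}, IsRect U → (∀ p ∈ U, enc p.1 p.2 ∈ S) →
      Split (fun T => ∀ p ∈ T, ∀ p' ∈ T, (φ (enc p.1 p.2) ↔ φ (enc p'.1 p'.2))) (2 * r) U := by
  classical
  induction h with
  | leaf r S h =>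
    intro U hU hUS
    exact Split.leaf _ _ fun p hp p' hp' => h _ (hUS p hp) _ (hUS p' hp')
  | node r S A _ _ ih1 ih2 =>
    intro U hU hUS
    rw [show 2 * (r + 1) = 1 + (1 + 2 * r) by ring]
    obtain ⟨α, β, hαβ⟩ := par_split (ρ := ρ) henc hU A
    refine (split_enrich (split_code (B := 1) (by simp) (fun p : X × Y => α p.1)
      (Or.inl ⟨α, fun _ => rfl⟩) U) hU).bind ?_
    rintro T ⟨g1, g2, g3⟩
    refine (split_enrich (split_code (B := 1) (by simp) (fun p : X × Y => β p.2)
      (Or.inr ⟨β, fun _ => rfl⟩) T) g3).bind ?_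
    rintro T' ⟨e1, e2, e3⟩
    by_cases hne : ∃ p₀, p₀ ∈ T'
    · obtain ⟨p₀, hp₀⟩ := hne
      have hc : ∀ p ∈ T', par A (ρ.A (enc p.1 p.2)) = par A (ρ.A (enc p₀.1 p₀.2)) := by
        intro p hp
        rw [hαβ p (g2 (e2 hp)), hαβ p₀ (g2 (e2 hp₀)), e1 p hp p₀ hp₀,
          g1 p (e2 hp) p₀ (e2 hp₀)]
      rcases zmod2_cases (par A (ρ.A (enc p₀.1 p₀.2))) with h0 | h1
      · exact ih1 e3 fun p hp => ⟨hUS p (g2 (e2 hp)), (hc p hp).trans h0⟩
      · exact ih2 e3 fun p hp => ⟨hUS p (g2 (e2 hp)), (hc p hp).trans h1⟩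
    · exact Split.leaf _ _ fun p hp => absurd ⟨p, hp⟩ hne

theorem split_gates {X Y : Type} {enc : X → Y → J → Bool} (henc : Sided side enc) {r k : ℕ}
    (g : Fin k → Finset (Finset (Equation V))) (hg : ∀ i, GateOK ρ r (g i)) {U : Set (X × Y)}
    (hU : IsRect U) : Split (fun T => ∀ i, ∀ p ∈ T, ∀ p' ∈ T,
      (OneHolds (ρ.A (enc p.1 p.2)) (g i) ↔ OneHolds (ρ.A (enc p'.1 p'.2)) (g i)))
      (k * (2 * r)) U := by
  induction k with
  | zero => exact Split.leaf _ _ fun i => i.elim0
  | succ k ih =>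
    rw [Nat.succ_mul]
    refine (split_enrich (ih (fun i => g i.castSucc) (fun i => hg _)) hU).bind ?_
    rintro T ⟨h1, h2, h3⟩
    refine (split_enrich (split_ptree henc (hg (Fin.last k)) h3 fun p _ => Set.mem_univ _)
      h3).mono ?_ le_rfl
    rintro T' ⟨g1, g2, g3⟩
    intro i
    refine Fin.lastCases ?_ (fun i => ?_) i
    · exact g1
    · intro p hp p' hp'
      exact h1 i p (g2 hp) p' (g2 hp')

/-- The false set of a restricted line splits into triangles. -/
theorem piece {X Y : Type} {enc : X → Y → J → Bool} (henc : Sided side enc) [DecidableEq J]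
    (L : Line V) {n₁ r B k : ℕ} (hB : @Fintype.card L.M L.fin ≤ 2 ^ B) (hk : L.num ≤ k)
    (hl1 : ∀ i, (L.sel.term i).Local) (hl2 : ∀ m c i, ((L.ineq m c).term i).Local)
    (hsel : ∃ K : Finset J, K.card ≤ n₁ ∧ FormOK ρ side K L.sel)
    (hineq : ∀ m c, ∃ K : Finset J, K.card ≤ n₁ ∧ FormOK ρ side K (L.ineq m c))
    (hgate : ∀ i, GateOK ρ r (L.gate i)) :
    Split (fun R => IsTri (R ∩ {p : X × Y | ¬ L.True (ρ.A (enc p.1 p.2))}))
      (n₁ + (B + (B + (k * (2 * r) + n₁)))) Set.univ := by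
  classical
  let := L.mon
  let := L.fin
  obtain ⟨K, hK, hKf⟩ := hsel
  -- the variables of the selecting form
  refine (split_enrich ((split_const (fun j (p : X × Y) => enc p.1 p.2 j)
    (fun j => henc.oneSided j) Set.univ K).mono (fun _ h => h) hK) isRect_univ).bind ?_
  rintro T₁ ⟨h1, -, hR1⟩
  obtain ⟨α, β, hαβ⟩ := form_split henc hR1 h1 L.sel hl1 hKf
  -- the values of the selecting form on the two sides
  refine (split_enrich (split_code hB (fun p : X × Y => α p.1) (Or.inl ⟨α, fun _ => rfl⟩) T₁)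
    hR1).bind ?_
  rintro T₂ ⟨h2, hs2, hR2⟩
  refine (split_enrich (split_code hB (fun p : X × Y => β p.2) (Or.inr ⟨β, fun _ => rfl⟩) T₂)
    hR2).bind ?_
  rintro T₃ ⟨h3, hs3, hR3⟩
  -- the gates
  refine ((split_enrich (split_gates henc L.gate hgate hR3) hR3).mono (fun _ h => h)
    (Nat.mul_le_mul_right _ hk)).bind ?_
  rintro T₄ ⟨h4, hs4, hR4⟩
  by_cases hne : ∃ p₀, p₀ ∈ T₄
  · obtain ⟨p₀, hp₀⟩ := hne
    set m := L.sel.value (ρ.A (enc p₀.1 p₀.2)) with hm
    set c : Fin L.num → Bool := fun i => decide (OneHolds (ρ.A (enc p₀.1 p₀.2)) (L.gate i)) with hc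
    have hm' : ∀ p ∈ T₄, L.sel.value (ρ.A (enc p.1 p.2)) = m := by
      intro p hp
      have e1 := hs4 hp
      have e2 := hs4 hp₀
      rw [hm, hαβ p (hs2 (hs3 e1)), hαβ p₀ (hs2 (hs3 e2)), h2 p (hs3 e1) p₀ (hs3 e2),
        h3 p e1 p₀ e2]
    have hc' : ∀ p ∈ T₄, (fun i => decide (OneHolds (ρ.A (enc p.1 p.2)) (L.gate i))) = c := by
      intro p hp
      funext i
      rw [hc]
      simp only
      exact decide_eq_decide.2 (h4 i p hp p₀ hp₀)
    obtain ⟨K', hK', hKf'⟩ := hineq m c
    refine (split_enrich ((split_const (fun j (p : X × Y) => enc p.1 p.2 j)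
      (fun j => henc.oneSided j) T₄ K').mono (fun _ h => h) hK') hR4).mono ?_ le_rfl
    rintro T₅ ⟨h5, hs5, hR5⟩
    obtain ⟨α', β', hαβ'⟩ := form_split henc hR5 h5 (L.ineq m c) (hl2 m c) hKf'
    obtain ⟨A, B', hAB⟩ := hR5
    refine ⟨fun x => if x ∈ A then ((-(α' x) : ℝ) : EReal) else ⊥,
      fun y => if y ∈ B' then ((β' y : ℝ) : EReal) else ⊤, ?_⟩
    ext ⟨x, y⟩
    simp only [Set.mem_inter_iff, Set.mem_ofPred_eq]
    have htrue : (x, y) ∈ T₅ → (L.True (ρ.A (enc x y)) ↔ 0 ≤ α' x + β' y) := by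
      intro hp
      unfold Line.True
      have e1 := hm' (x, y) (hs5 hp)
      have e2 := hc' (x, y) (hs5 hp)
      have e3 := hαβ' (x, y) hp
      simp only at e1 e2 e3
      change 0 ≤ (L.ineq (L.sel.value (ρ.A (enc x y)))
        fun i => decide (OneHolds (ρ.A (enc x y)) (L.gate i))).value (ρ.A (enc x y)) ↔ _
      rw [e1, e2, e3]
    constructor
    · rintro ⟨g1, g2⟩
      rw [htrue g1, not_le] at g2
      rw [hAB] at g1
      rw [if_pos g1.1, if_pos g1.2, EReal.coe_lt_coe_iff]
      linarith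
    · intro hlt
      by_cases g1 : x ∈ A
      · by_cases g2 : y ∈ B'
        · rw [if_pos g1, if_pos g2, EReal.coe_lt_coe_iff] at hlt
          have g3 : (x, y) ∈ T₅ := by
            rw [hAB]
            exact ⟨g1, g2⟩
          refine ⟨g3, ?_⟩
          rw [htrue g3, not_le]
          linarith
        · rw [if_neg g2] at hlt
          exact absurd hlt not_top_lt
      · rw [if_neg g1] at hlt
        exact absurd hlt not_lt_bot
  · refine Split.leaf _ _ ⟨fun _ => ⊥, fun _ => ⊤, ?_⟩
    ext p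
    simp only [Set.mem_inter_iff, Set.mem_ofPred_eq]
    constructor
    · rintro ⟨g1, -⟩
      exact absurd ⟨p, g1⟩ hne
    · intro hlt
      exact absurd hlt not_top_lt

end Piece

end Pool.Agent.MP_9cec2c_lc.MixedLines
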