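import Pool.Agent.Lib.MP_9cec2c_lc.TLLevels

/-!
Disjunctions of linear equations modulo two under a random pointer restriction.
-/

set_option autoImplicit false
set_option linter.unusedSectionVars false
set_option linter.unusedVariables false

namespace Pool.Agent.MP_9cec2c_lc.MixedLines

open Finset
open Pool.Agent.MP_9cec2c_lc.ThresholdLines (Sub sub_count)

/-- The sum of the entries of `w` in the set `A`, modulo two. -/
def par {W : Type} (A : Finset W) (w : W → Bool) : ZMod 2 :=
  ∑ p ∈ A, if w p then (1 : ZMod 2) else 0

section Halving

variable {W ι : Type} [Fintype W] [DecidableEq W] (a : ι → Finset W)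

theorem par_xor (A : Finset W) (w d : W → Bool) :
    par A (fun p => xor (w p) (d p)) = par A w + par A d := by
  unfold par
  rw [← sum_add_distrib]
  refine sum_congr rfl fun p _ => ?_
  have : ∀ x y : Bool, (if xor x y then (1 : ZMod 2) else 0) =
      (if x then 1 else 0) + if y then 1 else 0 := by decide
  exact this _ _

theorem zmod2_cases (x : ZMod 2) : x = 0 ∨ x = 1 := by
  revert x
  decide

/-- The parities in `T` determine the parity `i`. -/
def Det (T : Finset ι) (i : ι) : Prop :=
  ∀ w w' : W → Bool, (∀ j ∈ T, par (a j) w = par (a j) w') → par (a i) w = par (a i) w'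

open scoped Classical in
/-- Every value of the parities in `T` is taken by few assignments. -/
def Halved (T : Finset ι) : Prop :=
  ∀ τ : ι → ZMod 2, (univ.filter fun w : W → Bool => ∀ i ∈ T, par (a i) w = τ i).card *
    2 ^ T.card ≤ Fintype.card (W → Bool)

theorem halved_empty : Halved a ∅ := by
  classical
  intro τ
  rw [card_empty, pow_zero, mul_one]
  exact (card_filter_le _ _).trans (by rw [card_univ])

theorem halved_insert [DecidableEq ι] {T : Finset ι} {i : ι} (hT : Halved a T)
    (hi : ¬ Det a T i) : Halved a (insert i T) := by
  classical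
  have hiT : i ∉ T := fun h => hi fun w w' hw => hw i h
  unfold Det at hi
  push Not at hi
  obtain ⟨w, w', hw, hne⟩ := hi
  set d : W → Bool := fun p => xor (w p) (w' p) with hd
  have hd1 : ∀ j ∈ T, par (a j) d = 0 := by
    intro j hj
    rw [hd, par_xor, hw j hj]
    rcases zmod2_cases (par (a j) w') with h | h <;> rw [h] <;> decide
  have hd2 : par (a i) d = 1 := by
    rw [hd, par_xor]
    rcases zmod2_cases (par (a i) w) with h | h <;>
      rcases zmod2_cases (par (a i) w') with h' | h'
    · exact absurd (h.trans h'.symm) hne
    · rw [h, h']; decide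
    · rw [h, h']; decide
    · exact absurd (h.trans h'.symm) hne
  intro τ
  set A0 := univ.filter fun x : W → Bool => ∀ j ∈ insert i T, par (a j) x = τ j with hA0
  set A := univ.filter fun x : W → Bool => ∀ j ∈ T, par (a j) x = τ j with hA
  have hsub : A0 ⊆ A := by
    intro x hx
    rw [hA0, mem_filter] at hx
    rw [hA, mem_filter]
    exact ⟨mem_univ _, fun j hj => hx.2 j (mem_insert_of_mem hj)⟩
  have hmap : A0.card ≤ (A \ A0).card := by
    refine card_le_card_of_injOn (fun x p => xor (x p) (d p)) ?_ ?_
    · intro x hx
      rw [mem_coe, hA0, mem_filter] at hx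
      rw [mem_coe, mem_sdiff, hA, hA0, mem_filter, mem_filter]
      refine ⟨⟨mem_univ _, fun j hj => ?_⟩, fun h => ?_⟩
      · rw [par_xor, hx.2 j (mem_insert_of_mem hj), hd1 j hj, add_zero]
      · have h1 := h.2 i (mem_insert_self _ _)
        rw [par_xor, hx.2 i (mem_insert_self _ _), hd2] at h1
        have : ∀ s : ZMod 2, s + 1 ≠ s := by decide
        exact this _ h1
    · intro x _ y _ h
      funext p
      have := congrFun h p
      simp only at this
      cases h1 : x p <;> cases h2 : y p <;> cases h3 : d p <;> simp_all
  have h2 : 2 * A0.card ≤ A.card := by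
    have := card_sdiff_add_card_eq_card hsub
    omega
  rw [card_insert_of_notMem hiT, pow_succ]
  calc A0.card * (2 ^ T.card * 2) = (2 * A0.card) * 2 ^ T.card := by ring
    _ ≤ A.card * 2 ^ T.card := Nat.mul_le_mul_right _ h2
    _ ≤ _ := hT τ

theorem det_or_halved (r : ℕ) : (∃ T : Finset ι, T.card ≤ r ∧ ∀ i, Det a T i) ∨
    ∃ T : Finset ι, T.card = r + 1 ∧ Halved a T := by
  classical
  have key : ∀ n ≤ r + 1, (∃ T : Finset ι, T.card ≤ r ∧ ∀ i, Det a T i) ∨
      ∃ T : Finset ι, T.card = n ∧ Halved a T := by
    intro n
    induction n with
    | zero => intro _; exact Or.inr ⟨∅, card_empty, halved_empty a⟩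
    | succ n ih =>
      intro hn
      rcases ih (by omega) with h | ⟨T, hc, hT⟩
      · exact Or.inl h
      · by_cases hdet : ∀ i, Det a T i
        · exact Or.inl ⟨T, by omega, hdet⟩
        · push Not at hdet
          obtain ⟨i, hi⟩ := hdet
          refine Or.inr ⟨insert i T, ?_, halved_insert a hT hi⟩
          rw [card_insert_of_notMem fun h => hi fun w w' hw => hw i h, hc]
  exact key (r + 1) le_rfl

end Halving

section Pointers

variable {J Q R ι : Type} [Fintype J] [DecidableEq J] [Fintype Q] [DecidableEq Q] [Fintype R]
  [DecidableEq R]

/-- The assignment given by the pointers `z`, the dead cells `u` and the live cells `v`. -/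
def cellVal (z : J → Q) (u : J × Q × R → Bool) (v : J × R → Bool) (p : J × Q × R) : Bool :=
  if p.2.1 = z p.1 then v (p.1, p.2.2) else u p

open scoped Classical in
/-- The blocks whose live cell meets `A`. -/
noncomputable def hit (A : Finset (J × Q × R)) (z : J → Q) : Finset J :=
  univ.filter fun j => ∃ ρ, (j, z j, ρ) ∈ A

open scoped Classical in
theorem hit_count (A : Finset (J × Q × R)) (t : ℕ) :
    (univ.filter fun z : J → Q => t ≤ (hit A z).card).card * Fintype.card Q ^ t ≤
      A.card ^ t * Fintype.card (J → Q) := by
  set A' : Finset (J × Q) := A.image fun p => (p.1, p.2.1) with hA'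
  have hA'c : A'.card ≤ A.card := card_image_le
  have h1 : (univ.filter fun z : J → Q => t ≤ (hit A z).card) ⊆
      (A'.powersetCard t).biUnion fun s => univ.filter fun z : J → Q => Sub s z := by
    intro z hz
    rw [mem_filter] at hz
    have hc : t ≤ ((hit A z).image fun j => (j, z j)).card := by
      rw [card_image_of_injective _ fun j j' h => (Prod.ext_iff.1 h).1]
      exact hz.2
    obtain ⟨s, hs, hst⟩ := exists_subset_card_eq hc
    rw [mem_biUnion]
    refine ⟨s, mem_powersetCard.2 ⟨fun p hp => ?_, hst⟩, mem_filter.2 ⟨mem_univ _, fun p hp => ?_⟩⟩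
    · obtain ⟨j, hj, rfl⟩ := mem_image.1 (hs hp)
      rw [hit, mem_filter] at hj
      obtain ⟨-, ρ, hρ⟩ := hj
      exact mem_image.2 ⟨_, hρ, rfl⟩
    · obtain ⟨j, hj, rfl⟩ := mem_image.1 (hs hp)
      rfl
  calc _ ≤ ((A'.powersetCard t).biUnion fun s => univ.filter fun z : J → Q => Sub s z).card *
        Fintype.card Q ^ t := Nat.mul_le_mul_right _ (card_le_card h1)
    _ ≤ (∑ s ∈ A'.powersetCard t, (univ.filter fun z : J → Q => Sub s z).card) *
        Fintype.card Q ^ t := Nat.mul_le_mul_right _ card_biUnion_le
    _ = ∑ s ∈ A'.powersetCard t, (univ.filter fun z : J → Q => Sub s z).card *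
        Fintype.card Q ^ t := sum_mul _ _ _
    _ ≤ ∑ _s ∈ A'.powersetCard t, Fintype.card (J → Q) := by
        refine sum_le_sum fun s hs => ?_
        rw [← (mem_powersetCard.1 hs).2]
        convert sub_count s
    _ = A'.card.choose t * Fintype.card (J → Q) := by
        rw [sum_const, smul_eq_mul, card_powersetCard]
    _ ≤ A.card ^ t * Fintype.card (J → Q) := by
        refine Nat.mul_le_mul_right _ ((Nat.choose_le_pow _ _).trans ?_)
        exact Nat.pow_le_pow_left hA'c t

open scoped Classical in
/-- The values of the live cells in the blocks in `K`, zero elsewhere. -/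
noncomputable def vals (R : Type) [Fintype R] [DecidableEq R] (K : Finset J) :
    Finset (J × R → Bool) :=
  Fintype.piFinset fun p => if p.1 ∈ K then univ else {false}

theorem vals_card (K : Finset J) : (vals R K).card = 2 ^ (K.card * Fintype.card R) := by
  classical
  unfold vals
  rw [Fintype.card_piFinset]
  have h3 : ∀ p : J × R, (if p.1 ∈ K then (univ : Finset Bool) else {false}).card =
      if p.1 ∈ K then 2 else 1 := by
    intro p
    split_ifs <;> simp
  rw [prod_congr rfl fun p _ => h3 p, Fintype.prod_prod_type]
  have h4 : ∀ j : J, (∏ _ρ : R, if j ∈ K then 2 else 1) =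
      if j ∈ K then 2 ^ Fintype.card R else 1 := by
    intro j
    rw [prod_const, card_univ]
    split_ifs <;> simp
  rw [prod_congr rfl fun j _ => h4 j, prod_ite, prod_const_one, mul_one, prod_const, ← pow_mul,
    mul_comm]
  congr 2
  rw [filter_mem_eq_inter, univ_inter]

/-- Either few of the parities determine all of them, or for almost all pointers and dead cells
some of the equations is true for all values of the live cells. -/
theorem xor_gate (a : ι → Finset (J × Q × R)) {l : ℕ} (ha : ∀ i, (a i).card ≤ l)
    (c : ι → (J → Q) → ZMod 2) (r t : ℕ) :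
    (∃ T : Finset ι, T.card ≤ r ∧ ∀ w w' : J × Q × R → Bool,
      (∀ i ∈ T, par (a i) w = par (a i) w') → ∀ i, par (a i) w = par (a i) w') ∨
    ∃ (Bz : Finset (J → Q)) (Bu : (J → Q) → Finset (J × Q × R → Bool)),
      Bz.card * Fintype.card Q ^ t ≤ ((r + 1) * l) ^ t * Fintype.card (J → Q) ∧
      (∀ z, (Bu z).card * 2 ^ (r + 1) ≤
        2 ^ (2 * t * Fintype.card R) * Fintype.card (J × Q × R → Bool)) ∧
      ∀ z ∉ Bz, ∀ u ∉ Bu z, ∀ v : J × R → Bool, ∃ i, par (a i) (cellVal z u v) = c i z := by
  classical
  rcases det_or_halved a r with ⟨T, hT, hdet⟩ | ⟨T, hT, hhalf⟩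
  · exact Or.inl ⟨T, hT, fun w w' h i => hdet i w w' h⟩
  · refine Or.inr ?_
    set A := T.biUnion a with hA
    have hAc : A.card ≤ (r + 1) * l := by
      rw [← hT]
      exact card_biUnion_le_card_mul _ _ _ fun i _ => ha i
    set Bz := univ.filter fun z : J → Q => t ≤ (hit A z).card with hBz
    set Bu : (J → Q) → Finset (J × Q × R → Bool) := fun z => if z ∈ Bz then ∅ else
      univ.filter fun u => ∃ v : J × R → Bool, ∀ i ∈ T, par (a i) (cellVal z u v) ≠ c i z with hBu
    refine ⟨Bz, Bu, ?_, ?_, ?_⟩
    · exact (hit_count A t).trans (Nat.mul_le_mul_right _ (Nat.pow_le_pow_left hAc t))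
    · intro z
      by_cases hz : z ∈ Bz
      · simp only [hBu, if_pos hz, card_empty, zero_mul]
        exact Nat.zero_le _
      · set K := hit A z with hK
        have hKt : K.card ≤ t := by
          by_contra hcon
          refine hz (mem_filter.2 ⟨mem_univ _, ?_⟩)
          rw [← hK]
          omega
        have hlive : ∀ i ∈ T, ∀ p ∈ a i, p.2.1 = z p.1 → p.1 ∈ K := by
          intro i hi p hp he
          rw [hK, hit, mem_filter]
          refine ⟨mem_univ _, p.2.2, ?_⟩
          rw [← he]
          exact mem_biUnion.2 ⟨i, hi, hp⟩
        set τ : ι → ZMod 2 := fun i => c i z + 1 with hτ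
        set F := univ.filter fun w : J × Q × R → Bool => ∀ i ∈ T, par (a i) w = τ i with hF
        have hF1 := hhalf τ
        rw [← hF, hT] at hF1
        set U : (J × R → Bool) → Finset (J × Q × R → Bool) := fun v =>
          univ.filter fun u => ∀ i ∈ T, par (a i) (cellVal z u v) = τ i with hU
        have hUc : ∀ v, (U v).card ≤ F.card * (vals R K).card := by
          intro v
          rw [← card_product]
          refine card_le_card_of_injOn (fun u => ((fun p : J × Q × R =>
            if p.2.1 = z p.1 ∧ p.1 ∈ K then v (p.1, p.2.2) else u p),
            fun p : J × R => if p.1 ∈ K then u (p.1, z p.1, p.2) else false)) ?_ ?_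
          · intro u hu
            rw [mem_coe, hU, mem_filter] at hu
            rw [mem_coe, mem_product]
            refine ⟨?_, ?_⟩
            · rw [hF, mem_filter]
              refine ⟨mem_univ _, fun i hi => ?_⟩
              rw [← hu.2 i hi]
              unfold par
              refine sum_congr rfl fun p hp => ?_
              have : (if p.2.1 = z p.1 ∧ p.1 ∈ K then v (p.1, p.2.2) else u p) =
                  cellVal z u v p := by
                unfold cellVal
                by_cases he : p.2.1 = z p.1
                · rw [if_pos ⟨he, hlive i hi p hp he⟩, if_pos he]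
                · rw [if_neg fun h => he h.1, if_neg he]
              simp only [this]
            · unfold vals
              rw [Fintype.mem_piFinset]
              intro p
              by_cases hp : p.1 ∈ K
              · simp [hp]
              · simp [hp]
          · intro u _ u' _ h
            funext p
            rw [Prod.ext_iff] at h
            obtain ⟨h1, h2⟩ := h
            have h1 := congrFun h1 p
            have h2 := congrFun h2 (p.1, p.2.2)
            simp only at h1 h2
            by_cases he : p.2.1 = z p.1 ∧ p.1 ∈ K
            · rw [if_pos he.2, if_pos he.2, ← he.1] at h2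
              exact h2
            · rw [if_neg he, if_neg he] at h1
              exact h1
        have hsub : Bu z ⊆ (vals R K).biUnion U := by
          intro u hu
          simp only [hBu, if_neg hz] at hu
          rw [mem_filter] at hu
          obtain ⟨-, v, hv⟩ := hu
          rw [mem_biUnion]
          refine ⟨fun p => if p.1 ∈ K then v p else false, ?_, ?_⟩
          · unfold vals
            rw [Fintype.mem_piFinset]
            intro p
            by_cases hp : p.1 ∈ K
            · simp [hp]
            · simp [hp]
          · rw [hU, mem_filter]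
            refine ⟨mem_univ _, fun i hi => ?_⟩
            have e1 : par (a i) (cellVal z u fun p => if p.1 ∈ K then v p else false) =
                par (a i) (cellVal z u v) := by
              unfold par
              refine sum_congr rfl fun p hp => ?_
              have : cellVal z u (fun p => if p.1 ∈ K then v p else false) p =
                  cellVal z u v p := by
                unfold cellVal
                by_cases he : p.2.1 = z p.1
                · rw [if_pos he, if_pos he]
                  exact if_pos (hlive i hi p hp he)
                · rw [if_neg he, if_neg he]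
              simp only [this]
            rw [e1]
            have e2 := hv i hi
            rcases zmod2_cases (par (a i) (cellVal z u v)) with h | h <;>
              rcases zmod2_cases (c i z) with h' | h'
            · exact absurd (h.trans h'.symm) e2
            · simp only [hτ]; rw [h, h']; decide
            · simp only [hτ]; rw [h, h']; decide
            · exact absurd (h.trans h'.symm) e2
        have hc1 : (Bu z).card ≤ (vals R K).card * (F.card * (vals R K).card) :=
          (card_le_card hsub).trans (card_biUnion_le_card_mul _ _ _ fun v _ => hUc v)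
        have hv : (vals R K).card ≤ 2 ^ (t * Fintype.card R) := by
          rw [vals_card]
          exact Nat.pow_le_pow_right (by norm_num) (Nat.mul_le_mul_right _ hKt)
        calc (Bu z).card * 2 ^ (r + 1)
            ≤ (vals R K).card * (F.card * (vals R K).card) * 2 ^ (r + 1) :=
              Nat.mul_le_mul_right _ hc1
          _ = (vals R K).card * (vals R K).card * (F.card * 2 ^ (r + 1)) := by ring
          _ ≤ 2 ^ (t * Fintype.card R) * 2 ^ (t * Fintype.card R) *
              Fintype.card (J × Q × R → Bool) :=
              Nat.mul_le_mul (Nat.mul_le_mul hv hv) hF1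
          _ = _ := by
              rw [← pow_add]
              congr 2
              ring
    · intro z hz u hu v
      simp only [hBu, if_neg hz] at hu
      by_contra hcon
      push Not at hcon
      exact hu (mem_filter.2 ⟨mem_univ _, v, fun i _ => hcon i⟩)

end Pointers

end Pool.Agent.MP_9cec2c_lc.MixedLines
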