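import Pool.Agent.Lib.MP_9cec2c_lc.TVDefs
import Pool.Agent.Lib.MP_9cec2c_lc.MXDefs

/-!
The disjunction of the Tseitin formulas of a graph modulo several numbers.
-/

set_option autoImplicit false

namespace Pool.Agent.MP_9cec2c_lc.MX

open Finset FG TT

/-- The disjunction of the Tseitin formulas modulo the numbers `m j` with the charges `s j`, on
disjoint sets of variables: the clauses are the unions of one clause of each formula. -/
noncomputable def allCNF {V E J : Type} [Fintype V] [Fintype E] [Fintype J] [DecidableEq V]
    [DecidableEq E] [DecidableEq J] (src tgt : E → V) (m : J → ℕ) [∀ j, NeZero (m j)]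
    (s : ∀ j, V → ZMod (m j)) : List (List ((Σ j, E × ZMod (m j)) × Bool)) :=
  FG.listCNF ((Fintype.piFinset fun j => tseitin src tgt (m j) (s j)).image fun C =>
    univ.biUnion fun j => (C j).image fun l => (⟨j, l.1⟩, l.2))

end Pool.Agent.MP_9cec2c_lc.MX
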