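import Pool.Agent.Lib.MP_9cec2c_lc.MXTse
import Pool.Agent.Lib.MP_9cec2c_lc.CQFinal

/-!
The counting principles in mixed derivations: the lower bound.
-/

set_option autoImplicit false
set_option linter.unusedSectionVars false

namespace Pool.Agent.MP_9cec2c_lc.MX

open Finset Frege Flat
open FG (exactCover listCNF mem_listCNF Rule partitionCNF fals)
open CP (IsBl Same nodeSum)

/-- The levels from `a` on. -/
theorem world_drop {K V W : Type} [Field K] [AddCommGroup W] [Module K W] {M : ℕ → Submodule K W}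
    {act : Fun K V →ₗ[K] W →ₗ[K] W} {A : ℕ} (hW : World M act A) {a A' : ℕ} (ha : a + A' ≤ A) :
    World (fun j => M (a + j)) act A' := by
  refine ⟨fun b e P w hb hP hw => ?_, fun b w hb hw => ?_, fun b e e' P Q w hb hP hQ hw => ?_⟩
  · show act P w ∈ M (a + (b + e))
    rw [← add_assoc]
    exact hW.act_mem (a + b) e P w (by omega) hP hw
  · exact hW.act_one (a + b) w (by omega) hw
  · exact hW.act_mul (a + b) e e' P Q w (by omega) hP hQ hw

/-- **The reduction of a Tseitin contradiction to a partition principle** by a substitution of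
functions of few variables: every clause contains a short clause that is killed in all worlds of the
Tseitin contradiction. -/
theorem cover_rho {P : Type} [Fintype P] [DecidableEq P] {N s : ℕ} [NeZero s] {b : Fin N → ZMod s}
    {r w : ℕ} {node : P → Option (CQ.TQ N)} {bl : (TVar N → ZMod s) → P → Finset P}
    (hG : CP.Good (Same CQ.tsrc CQ.ttgt) (fun q x => nodeSum CQ.tsrc CQ.ttgt x q ≠ CQ.tchg b q) r w
      node bl)
    (hw : 2 ≤ w) {V : Type} [Fintype V] [DecidableEq V] {blk : V → Finset P}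
    (hinj : Function.Injective blk) (hH : ∀ B ∈ CQ.blocks bl, ∃ v, blk v = B) :
    ∃ g : (TVar N × ZMod s → Bool) → (V → Bool), CQ.Narrow (3 * s) g ∧
      ∀ D ∈ listCNF (exactCover blk), ∃ E : List (V × Bool), (∀ l ∈ E, l ∈ D) ∧ E.length ≤ w ∧
        ∀ (K W : Type) [Field K] [AddCommGroup W] [Module K W] (M : ℕ → Submodule K W)
          (act : Fun K (TVar N × ZMod s) →ₗ[K] W →ₗ[K] W) (A : ℕ), World M act A →
          CQ.Kills M act (tseitinMod N s b : Set (CQ.Clause (TVar N × ZMod s))) → 6 * s ≤ A →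
          ∀ u ∈ M 0, act (CQ.pull g (fals K E)) u = 0 := by
  classical
  have hs : 0 < s := Nat.pos_of_ne_zero (NeZero.ne s)
  obtain ⟨bl', hbl'⟩ : ∃ bl' : (TVar N × ZMod s → Bool) → P → Finset P,
      bl' = fun y z => bl (CQ.dec y) z := ⟨_, rfl⟩
  obtain ⟨Z, hZ⟩ : ∃ Z : P → Finset (TVar N × ZMod s), Z = fun z =>
      match node z with
      | some q => (CQ.tinc q) ×ˢ (univ : Finset (ZMod s))
      | none => ∅ := ⟨_, rfl⟩
  have hZs : ∀ z q, node z = some q → Z z = (CQ.tinc q) ×ˢ (univ : Finset (ZMod s)) := by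
    intro z q h
    rw [hZ]
    simp only [h]
  have hZc : ∀ z, (Z z).card ≤ 3 * s := by
    intro z
    rcases h : node z with _ | q
    · have h1 : Z z = ∅ := by
        rw [hZ]
        simp only [h]
      rw [h1, card_empty]
      exact Nat.zero_le _
    · rw [hZs z q h, card_product, card_univ, ZMod.card]
      exact Nat.mul_le_mul_right _ (CQ.card_tinc q)
  have hb : IsBl bl' := by
    rw [hbl']
    exact ⟨fun y z => hG.isBl.mem_or (CQ.dec y) z,
      fun y z z' hz => hG.isBl.eq_of_mem (CQ.dec y) z z' hz⟩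
  have hloc : ∀ z y y', (∀ u ∈ Z z, y u = y' u) → bl' y z = bl' y' z := by
    intro z y y' hy
    rw [hbl']
    refine hG.loc z (CQ.dec y) (CQ.dec y') fun q hq => ?_
    rw [hZs z q hq] at hy
    exact CQ.same_dec hy
  have hkill : ∀ y z, bl' y z = ∅ →
      ∃ D ∈ (tseitinMod N s b : Set (CQ.Clause (TVar N × ZMod s))), (∀ l ∈ D, l.1 ∈ Z z) ∧
        ¬ CQ.Holds y D := by
    intro y z hz
    rw [hbl'] at hz
    obtain ⟨q, hq, hbad⟩ := hG.kill (CQ.dec y) z hz
    obtain ⟨D, hD, h1, h2⟩ := CQ.tse_kill b q y hbad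
    refine ⟨D, hD, fun l hl => ?_, h2⟩
    rw [hZs z q hq]
    exact mem_product.2 ⟨h1 l hl, mem_univ _⟩
  have hcov : ∀ y z, bl' y z ≠ ∅ → ∃ v, blk v = bl' y z := by
    intro y z hz
    rw [hbl'] at hz ⊢
    exact hH _ (CQ.mem_blocks.2 ⟨⟨_, _, rfl⟩, hz⟩)
  have hwd : ∀ z, ∃ S : Finset (Finset P), S.card ≤ w ∧ ∀ y, bl' y z ∈ S := by
    intro z
    obtain ⟨S, h1, h2⟩ := hG.width z
    refine ⟨S, h1, fun y => ?_⟩
    rw [hbl']
    exact h2 _
  refine ⟨CQ.sub bl' blk, CQ.narrow_sub hb (blk := blk) hZc hloc, ?_⟩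
  intro D hD
  obtain ⟨κ, hκ, rfl⟩ := mem_listCNF.1 hD
  obtain ⟨κ', hκ', hsub⟩ := CQ.exists_narrow bl' blk κ hκ
  refine ⟨κ'.toList, fun l hl => Finset.mem_toList.2 (hsub (Finset.mem_toList.1 hl)), ?_, ?_⟩
  · rw [Finset.length_toList]
    exact CQ.narrow_width (bl := bl') (blk := blk) hinj hw hwd κ' hκ'
  · intro K W _ _ _ M act A hW hF hA u hu
    have h1 := CQ.kills_narrow hW hF hb hinj hZc hloc hkill hcov (by omega) κ' (mem_coe.2 hκ') u
      (by
        show u ∈ M (3 * s * 0)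
        rwa [mul_zero])
    show (act.comp (CQ.pull (CQ.sub bl' blk))) (fals K κ'.toList) u = 0
    rw [CQ.fals_toList]
    convert h1

/-- **The lower bound for partition principles** in mixed derivations. -/
theorem cover_mixed (Q : Finset ℕ) (s k : ℕ) [NeZero s] (hQ : ∀ q ∈ Q, q.Prime ∧ q.Coprime s)
    (hs : 1 < s) (hk : 0 < k) (hR : RMT2 s) {S : ℕ → Set Rule} (hS : ∀ q ∈ Q, (S q).Finite)
    (hsound : ∀ q ∈ Q, ∀ R ∈ S q, R.Sound q) :
    ∃ c : ℝ, 0 < c ∧ ∃ M₀ : ℕ, ∀ m : ℕ, M₀ ≤ k * m → ∃ H : Finset (Finset (Fin (k * m))),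
      (∀ B ∈ H, B.card = k * s) ∧ (∀ i, (H.filter fun B => i ∈ B).card ≤ s ^ 3) ∧
      ∀ (V : Type) [Fintype V] [DecidableEq V] (blk : V → Finset (Fin (k * m))),
        Function.Injective blk → (∀ B ∈ H, ∃ v, blk v = B) →
        ∀ (d l : ℕ) (τ : Fin l → ℕ) (L : Fin l → FG.Form V),
          MixedRefutes Q S d (listCNF (exactCover blk)) τ L →
          Real.exp (c * ((k * m : ℕ) : ℝ) ^ (c / (d + 1))) ≤ FG.size L := by
  classical
  obtain ⟨ι, _, K, _, o, iq, hKQ, x, hx, N₁, hN₁⟩ := fam_KN s hs hR Q hQ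
  have hx6 : (0 : ℝ) < x / 6 := by positivity
  obtain ⟨c, hc, M₂, hM₂⟩ := mixed_num_sub (K := K) o iq hKQ hx6 (s ^ 3) 256 hS hsound
  have hw8 : 8 ≤ s ^ 3 := by
    calc 8 = 2 ^ 3 := by norm_num
      _ ≤ s ^ 3 := Nat.pow_le_pow_left hs 3
  have hw : 2 ≤ s ^ 3 := by omega
  obtain ⟨M₃, hM₃⟩ := CQ.exists_N hx k s (s ^ 3) N₁ hk hs hw
  refine ⟨c, hc, max (max M₂ M₃) 1, fun m hm => ?_⟩
  have h2 : M₂ ≤ k * m := (le_max_left _ _).trans ((le_max_left _ _).trans hm)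
  have h3 : M₃ ≤ k * m := (le_max_right _ _).trans ((le_max_left _ _).trans hm)
  obtain ⟨N, A, hNN, hN1, hNM, hA1, hA2, hA3, hA4⟩ := hM₃ (k * m) h3
  have v0 : Fin N := ⟨0, by omega⟩
  -- the charges
  obtain ⟨b, hb⟩ : ∃ b : Fin N → ZMod s, b = Pi.single v0 (m : ZMod s) := ⟨_, rfl⟩
  have hsum : ∑ q, CQ.tchg b q = -(m : ZMod s) := by
    rw [CQ.sum_tchg, hb, sum_pi_single' v0, if_pos (mem_univ _)]
  have hcard : 2 * (k * s) * Fintype.card (TVar N) + k * s * Fintype.card (CQ.TQ N) ≤ k * m := by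
    refine le_trans ?_ hNM
    have h4 := card_TVar N
    have h5 : Fintype.card (CQ.TQ N) = N * N + (N + N) := by
      rw [Fintype.card_sum, Fintype.card_prod, Fintype.card_sum, Fintype.card_fin]
    rw [h5]
    have h6 : N ≤ N * N := Nat.le_mul_of_pos_left N hN1
    have h7 : 2 * (k * s) * Fintype.card (TVar N) ≤ 2 * (k * s) * (2 * N ^ 2 + N) :=
      Nat.mul_le_mul_left _ h4
    have h8 : 2 * (k * s) * (2 * N ^ 2 + N) + k * s * (N * N + (N + N)) =
        k * s * (5 * (N * N) + 4 * N) := by ring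
    have h9 : k * s * (5 * (N * N) + 4 * N) ≤ k * s * (9 * (N * N)) :=
      Nat.mul_le_mul_left _ (by omega)
    have h10 : 9 * (k * s) * N ^ 2 = k * s * (9 * (N * N)) := by ring
    omega
  obtain ⟨node, bl, hG⟩ := CP.exists_good (src := CQ.tsrc) (tgt := CQ.ttgt) hk (CQ.tchg b) (D := 3)
    (fun q => ⟨CQ.tinc q, CQ.card_tinc q, fun i hi => CQ.mem_tinc hi⟩) hcard hsum
  -- the family
  have hn0 : 0 < 3 * s := by omega
  obtain ⟨A', hA'⟩ : ∃ A', A' = A / (3 * s) := ⟨_, rfl⟩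
  have hAA' : 3 * s * A' ≤ A := by
    rw [hA']
    exact Nat.mul_div_le A (3 * s)
  rw [← hA'] at hA2 hA3
  have h12 : 3 * s * 8 ≤ 3 * s * A' := Nat.mul_le_mul_left _ (hw8.trans hA3)
  obtain ⟨W, _, _, _, M, act, hfam, hpos, hgrow, hkill⟩ := hN₁ N hNN A hA1 hN1 (by omega) b
  refine ⟨CQ.blocks bl, (CQ.card_blocks hG).1, (CQ.card_blocks hG).2, ?_⟩
  intro V _ _ blk hinj hH d l τ L hL
  obtain ⟨g, hg, hF⟩ := cover_rho hG hw hinj hH
  refine hM₂ (k * m) h2 V W (fun i a => M i (3 * s * a)) (fun i => (act i).comp (CQ.pull g))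
    A' (by rw [hA']; exact hfam.pull hn0 hg) hA2 ?_ ?_ _ ?_ d l τ L hL
  · show 0 < Module.finrank (K o) (M o (3 * s * 0))
    rw [mul_zero]
    exact hpos
  · show Module.finrank (K o) (M o (3 * s * A')) ≤ 256 * Module.finrank (K o) (M o (3 * s * 0))
    rw [mul_zero]
    exact (Submodule.finrank_mono ((hfam.world o).mono hAA' le_rfl)).trans hgrow
  · intro D hD
    obtain ⟨E, hE1, hE2, hE3⟩ := hF D hD
    refine ⟨E, hE1, hE2, fun i a ha u hu => ?_⟩
    have h13 : 2 * (3 * s * a) ≤ 3 * s * A' := by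
      calc 2 * (3 * s * a) = 3 * s * (2 * a) := by ring
        _ ≤ 3 * s * A' := Nat.mul_le_mul_left _ ha
    refine hE3 (K i) (W i) (fun j => M i (3 * s * a + j)) (act i) (6 * s)
      (world_drop (hfam.world i) (by omega)) (hkill i (3 * s * a) (by omega)) le_rfl u ?_
    show u ∈ M i (3 * s * a + 0)
    rw [add_zero]
    exact hu

/-- The product of the prime powers. -/
theorem prod_pow (Q : Finset ℕ) (hQ : ∀ q ∈ Q, q.Prime) {r : ℕ} (hr : r ≠ 0) :
    ∃ k s : ℕ, k * s = r ∧ (∀ q ∈ Q, q.Coprime s) ∧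
      ∀ M : ℕ, (∀ q ∈ Q, q ^ r.factorization q ∣ M) → k ∣ M := by
  classical
  have hcop : ∀ q ∈ Q, ∀ q' ∈ Q, q ≠ q' →
      Nat.Coprime (q ^ r.factorization q) (q' ^ r.factorization q') := by
    intro q hq q' hq' hne
    exact Nat.Coprime.pow _ _ ((Nat.coprime_primes (hQ q hq) (hQ q' hq')).2 hne)
  have hdvd : ∀ M : ℕ, (∀ q ∈ Q, q ^ r.factorization q ∣ M) →
      (∏ q ∈ Q, q ^ r.factorization q) ∣ M := by
    intro M hM
    refine Finset.prod_dvd_of_isRelPrime ?_ hM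
    intro q hq q' hq' hne
    exact Nat.coprime_iff_isRelPrime.1 (hcop q hq q' hq' hne)
  obtain ⟨s, hs⟩ := hdvd r fun q _ => Nat.ordProj_dvd r q
  refine ⟨∏ q ∈ Q, q ^ r.factorization q, s, hs.symm, fun q hq => ?_, hdvd⟩
  rw [(hQ q hq).coprime_iff_not_dvd]
  rintro ⟨t, rfl⟩
  have h1 : q ^ r.factorization q * q ∣ r := by
    nth_rewrite 2 [hs]
    refine Nat.mul_dvd_mul (dvd_prod_of_mem _ hq) (dvd_mul_right q t)
  rw [← pow_succ] at h1
  exact Nat.pow_succ_factorization_not_dvd hr (hQ q hq) h1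

/-- **The counting principles** are exponentially hard for mixed derivations of constant depth. -/
theorem partition_mixed (Q : Finset ℕ) (hQ : ∀ q ∈ Q, q.Prime) (r : ℕ) (hr : 2 ≤ r)
    {S : ℕ → Set Rule} (hS : ∀ q ∈ Q, (S q).Finite) (hsound : ∀ q ∈ Q, ∀ R ∈ S q, R.Sound q) :
    ∃ c : ℝ, 0 < c ∧ ∃ M₀ : ℕ, ∀ M ≥ M₀, (∀ q ∈ Q, q ^ r.factorization q ∣ M) → ¬ r ∣ M →
      ∃ H : Finset (Finset (Fin M)), (∀ B ∈ H, B.card = r) ∧
        (∀ i, (H.filter fun B => i ∈ B).card ≤ r ^ 3) ∧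
        ∀ H' : Finset (Finset (Fin M)), H ⊆ H' →
          ∀ (d l : ℕ) (τ : Fin l → ℕ) (L : Fin l → FG.Form {B // B ∈ H'}),
            MixedRefutes Q S d (partitionCNF H') τ L →
            Real.exp (c * (M : ℝ) ^ (c / (d + 1))) ≤ FG.size L := by
  classical
  obtain ⟨k, s, hks, hcop, hdvd⟩ := prod_pow Q hQ (r := r) (by omega)
  have hk0 : 0 < k := by
    rcases Nat.eq_zero_or_pos k with h | h
    · rw [h, zero_mul] at hks
      omega
    · exact h
  have hs0 : s ≠ 0 := by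
    rintro rfl
    rw [mul_zero] at hks
    omega
  have hsr : s ≤ r := by
    rw [← hks]
    exact Nat.le_mul_of_pos_left s hk0
  by_cases hs1 : s = 1
  · refine ⟨1, one_pos, 0, fun M _ h1 h2 => absurd ?_ h2⟩
    rw [← hks, hs1, mul_one]
    exact hdvd M h1
  · have : NeZero s := ⟨hs0⟩
    obtain ⟨c, hc, M₀, h⟩ := cover_mixed Q s k (fun q hq => ⟨hQ q hq, hcop q hq⟩) (by omega) hk0
      (Herm.rmt_main s (by omega)) hS hsound
    refine ⟨c, hc, M₀, ?_⟩
    intro M hM hq _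
    obtain ⟨m, rfl⟩ := hdvd M hq
    obtain ⟨H, hH, hH3, h2⟩ := h m hM
    refine ⟨H, fun B hB => by rw [hH B hB, hks], fun i => (hH3 i).trans
      (Nat.pow_le_pow_left hsr 3), fun H' hHH' d l τ L hL => ?_⟩
    exact h2 _ Subtype.val Subtype.val_injective (fun B hB => ⟨⟨B, hHH' hB⟩, rfl⟩) d l τ L hL

/-! ### Derivations with one prime -/

/-- A derivation is a mixed derivation with a constant tag. -/
theorem isMixed_of_isDerivation {V : Type} {Q : Finset ℕ} {S : ℕ → Set Rule} {T : Set Rule} {d : ℕ}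
    {Φ : Set (FG.Form V)} {l : ℕ} {L : Fin l → FG.Form V} {p : ℕ} (hp : p ∈ Q) (hT : T ⊆ S p)
    (h : FG.IsDerivation T d Φ L) : IsMixed Q S d Φ (fun _ => p) L := by
  intro i
  obtain ⟨h1, h2⟩ := h i
  refine ⟨hp, h1, h2.imp id ?_⟩
  rintro ⟨R, hR, σ, τ, h3, h4⟩
  refine ⟨R, hT hR, σ, τ, fun P hP ψ hψ => ?_, h4⟩
  obtain ⟨j, hj, hL⟩ := h3 P hP ψ hψ
  exact ⟨j, hj, hL, Or.inl rfl⟩

/-- A refutation is a mixed refutation with a constant tag. -/
theorem mixedRefutes_of_refutes {V : Type} {Q : Finset ℕ} {S : ℕ → Set Rule} {T : Set Rule} {d : ℕ}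
    {F : List (List (V × Bool))} {l : ℕ} {L : Fin l → FG.Form V} {p : ℕ} (hp : p ∈ Q) (hT : T ⊆ S p)
    (h : FG.Refutes T d F L) : MixedRefutes Q S d F (fun _ => p) L :=
  h.imp (fun h => ⟨isMixed_of_isDerivation hp hT h.1, h.2⟩)
    fun h => ⟨isMixed_of_isDerivation hp hT h.1, h.2⟩

end Pool.Agent.MP_9cec2c_lc.MX
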