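import Pool.Agent.Lib.MP_9cec2c_lc.MXSide

/-!
Mixed derivations as lists, and the refutation of a disjunction of several formulas.
-/

set_option autoImplicit false
set_option linter.unusedSectionVars false

namespace Pool.Agent.MP_9cec2c_lc.MX

open FG CE TU

variable {V : Type} {Q : Finset ℕ} {S : ℕ → Set Rule} {d : ℕ} {Φ Ψ : Set (Form V)}

/-- Mixed derivations as lists, the last line first. -/
inductive MLin (Q : Finset ℕ) (S : ℕ → Set Rule) (d : ℕ) (Φ : Set (Form V)) :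
    List (ℕ × Form V) → Prop
  | nil : MLin Q S d Φ []
  | cons (q : ℕ) (φ : Form V) (Ls : List (ℕ × Form V)) (h : MLin Q S d Φ Ls) (hq : q ∈ Q)
      (hd : φ.depth ≤ d)
      (hr : φ ∈ Φ ∨ ∃ R ∈ S q, R.Derives {ψ | ∃ q', (q', ψ) ∈ Ls ∧ (q' = q ∨ CountFree ψ)} φ) :
      MLin Q S d Φ ((q, φ) :: Ls)

theorem MLin.append {A B : List (ℕ × Form V)} (hA : MLin Q S d Φ A) (hB : MLin Q S d Φ B) :
    MLin Q S d Φ (A ++ B) := by
  induction hA with
  | nil => exact hB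
  | cons q φ Ls h hq hd hr ih =>
    refine MLin.cons q φ _ ih hq hd ?_
    rcases hr with hr | ⟨R, hR, hr⟩
    · exact Or.inl hr
    · refine Or.inr ⟨R, hR, hr.mono ?_⟩
      rintro ψ ⟨q', h1, h2⟩
      exact ⟨q', List.mem_append.2 (Or.inl h1), h2⟩

theorem MLin.mono {A : List (ℕ × Form V)} (h : MLin Q S d Φ A) (hΦ : Φ ⊆ Ψ) :
    MLin Q S d Ψ A := by
  induction h with
  | nil => exact MLin.nil
  | cons q φ Ls h hq hd hr ih =>
    exact MLin.cons q φ Ls ih hq hd (hr.imp (fun h' => hΦ h') id)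

theorem MLin.of_lin {S' : Set Rule} {q : ℕ} (hq : q ∈ Q) (hS : S' ⊆ S q) {Ls : List (Form V)}
    (h : Lin S' d Φ Ls) : MLin Q S d Φ (Ls.map fun φ => (q, φ)) := by
  induction h with
  | nil => exact MLin.nil
  | cons φ Ls h hd hr ih =>
    rw [List.map_cons]
    refine MLin.cons q φ _ ih hq hd ?_
    rcases hr with hr | ⟨R, hR, hr⟩
    · exact Or.inl hr
    · refine Or.inr ⟨R, hS hR, hr.mono ?_⟩
      intro ψ hψ
      exact ⟨q, List.mem_map.2 ⟨ψ, hψ, rfl⟩, Or.inl rfl⟩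

/-- The axioms used in `A` have no counting gates and are derived in `B`. -/
theorem MLin.cut {A B : List (ℕ × Form V)} (hA : MLin Q S d Ψ A) (hB : MLin Q S d Φ B)
    (h : ∀ φ ∈ Ψ, CountFree φ ∧ ∃ q, (q, φ) ∈ B) :
    ∃ C, MLin Q S d Φ C ∧ (∀ q φ, (q, φ) ∈ A → ∃ q', (q', φ) ∈ C) ∧
      C.length ≤ A.length + B.length ∧ ∀ x ∈ C, x ∈ A ∨ x ∈ B := by
  have key : ∃ C, MLin Q S d Φ C ∧
      (∀ q φ, (q, φ) ∈ A → (q, φ) ∈ C ∨ (CountFree φ ∧ ∃ q', (q', φ) ∈ C)) ∧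
      C.length ≤ A.length + B.length ∧ (∀ x ∈ C, x ∈ A ∨ x ∈ B) ∧ ∀ x ∈ B, x ∈ C := by
    induction hA with
    | nil => exact ⟨B, hB, fun q φ hφ => absurd hφ List.not_mem_nil, by simp,
        fun φ hφ => Or.inr hφ, fun φ hφ => hφ⟩
    | cons q φ Ls hL hq hd hr ih =>
      obtain ⟨C, h1, h2, h3, h4, h5⟩ := ih
      rcases hr with hr | ⟨R, hR, hr⟩
      · refine ⟨C, h1, fun q₁ ψ hψ => ?_, ?_, fun ψ hψ => ?_, h5⟩
        · rcases List.mem_cons.1 hψ with hψ | hψ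
          · obtain ⟨g1, q', g2⟩ := h φ hr
            have h6 : ψ = φ := congrArg Prod.snd hψ
            rw [h6]
            exact Or.inr ⟨g1, q', h5 _ g2⟩
          · exact h2 q₁ ψ hψ
        · rw [List.length_cons]
          omega
        · exact (h4 ψ hψ).imp (List.mem_cons_of_mem _) id
      · refine ⟨(q, φ) :: C, MLin.cons q φ C h1 hq hd (Or.inr ⟨R, hR, hr.mono ?_⟩),
          fun q₁ ψ hψ => ?_, ?_, fun ψ hψ => ?_, fun ψ hψ => List.mem_cons_of_mem _ (h5 ψ hψ)⟩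
        · rintro ψ ⟨q', g1, g2⟩
          rcases h2 q' ψ g1 with g3 | ⟨g3, q'', g4⟩
          · exact ⟨q', g3, g2⟩
          · exact ⟨q'', g4, Or.inr g3⟩
        · rcases List.mem_cons.1 hψ with hψ | hψ
          · rw [hψ]
            exact Or.inl List.mem_cons_self
          · rcases h2 q₁ ψ hψ with h6 | ⟨h6, q', h7⟩
            · exact Or.inl (List.mem_cons_of_mem _ h6)
            · exact Or.inr ⟨h6, q', List.mem_cons_of_mem _ h7⟩
        · rw [List.length_cons, List.length_cons]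
          omega
        · rcases List.mem_cons.1 hψ with rfl | hψ
          · exact Or.inl List.mem_cons_self
          · exact (h4 ψ hψ).imp (List.mem_cons_of_mem _) id
  obtain ⟨C, h1, h2, h3, h4, -⟩ := key
  refine ⟨C, h1, fun q φ hφ => ?_, h3, h4⟩
  rcases h2 q φ hφ with h6 | ⟨-, h6⟩
  · exact ⟨q, h6⟩
  · exact h6

theorem MLin.get {Ls : List (ℕ × Form V)} (h : MLin Q S d Φ Ls) (i : Fin Ls.length) :
    (Ls.get i).1 ∈ Q ∧ (Ls.get i).2.depth ≤ d ∧ ((Ls.get i).2 ∈ Φ ∨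
      ∃ R ∈ S (Ls.get i).1, R.Derives {ψ | ∃ j, i < j ∧ (Ls.get j).2 = ψ ∧
        ((Ls.get j).1 = (Ls.get i).1 ∨ CountFree ψ)} (Ls.get i).2) := by
  induction h with
  | nil => exact i.elim0
  | cons q φ Ls h hq hd hr ih =>
    refine Fin.cases ?_ (fun i => ?_) i
    · refine ⟨hq, hd, hr.imp id ?_⟩
      rintro ⟨R, hR, hr⟩
      refine ⟨R, hR, hr.mono ?_⟩
      rintro ψ ⟨q', h1, h2⟩
      obtain ⟨j, hj⟩ := List.get_of_mem h1
      refine ⟨j.succ, Fin.succ_pos j, ?_, ?_⟩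
      · show (Ls.get j).2 = ψ
        rw [hj]
      · show (Ls.get j).1 = q ∨ CountFree ψ
        rw [hj]
        exact h2
    · obtain ⟨h1, h2, h3⟩ := ih i
      refine ⟨h1, h2, h3.imp id ?_⟩
      rintro ⟨R, hR, hr⟩
      refine ⟨R, hR, hr.mono ?_⟩
      rintro ψ ⟨j, h4, h5, h6⟩
      exact ⟨j.succ, Fin.succ_lt_succ_iff.2 h4, h5, h6⟩

/-- From lists to sequences. -/
theorem MLin.exists {P n : ℕ} {Ls : List (ℕ × Form V)} (h : MLin Q S d Φ Ls) {q : ℕ}
    {φ : Form V} (hφ : (q, φ) ∈ Ls) (hn : Ls.length ≤ n) (hP : ∀ x ∈ Ls, wt x.2 ≤ P) :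
    ∃ (l : ℕ) (τ : Fin l → ℕ) (L : Fin l → Form V), IsMixed Q S d Φ τ L ∧ (∃ i, L i = φ) ∧
      size L ≤ n * (P + 1) := by
  refine ⟨Ls.length, fun i => (Ls.get i.rev).1, fun i => (Ls.get i.rev).2, fun i => ?_, ?_, ?_⟩
  · obtain ⟨h2, h3, h4⟩ := h.get i.rev
    refine ⟨h2, h3, ?_⟩
    rcases h4 with h4 | ⟨R, hR, h4⟩
    · exact Or.inl h4
    · refine Or.inr ⟨R, hR, h4.mono ?_⟩
      rintro ψ ⟨j, hj, hj', hj''⟩
      refine ⟨j.rev, Fin.rev_lt_iff.1 hj, ?_, ?_⟩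
      · show (Ls.get (Fin.rev (Fin.rev j))).2 = ψ
        rw [Fin.rev_rev]
        exact hj'
      · show (Ls.get (Fin.rev (Fin.rev j))).1 = _ ∨ _
        rw [Fin.rev_rev]
        exact hj''
  · obtain ⟨i, hi⟩ := List.get_of_mem hφ
    refine ⟨i.rev, ?_⟩
    show (Ls.get (Fin.rev (Fin.rev i))).2 = φ
    rw [Fin.rev_rev, hi]
  · unfold size
    have h5 : {ψ | ∃ i : Fin Ls.length, ψ ∈ (Ls.get i.rev).2.parts} =
        ⋃ i : Fin Ls.length, (Ls.get i.rev).2.parts := by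
      ext ψ
      simp
    rw [h5]
    have h6 := ncard_iUnion_le (fun i : Fin Ls.length => (Ls.get i.rev).2) fun i => parts_le_wt _
    have h7 : ∑ i : Fin Ls.length, wt (Ls.get i.rev).2 ≤ Ls.length * P := by
      have := Finset.sum_le_card_nsmul Finset.univ
        (fun i : Fin Ls.length => wt (Ls.get i.rev).2) P fun i _ => hP _ (List.get_mem Ls _)
      simpa using this
    calc Ls.length + (⋃ i : Fin Ls.length, (Ls.get i.rev).2.parts).ncard ≤
          Ls.length + Ls.length * P := Nat.add_le_add_left (h6.trans h7) _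
      _ = Ls.length * (P + 1) := by ring
      _ ≤ n * (P + 1) := Nat.mul_le_mul_right _ hn

/-! ### The disjunction of several formulas -/

/-- The unions of one clause of every formula. -/
def Gs {J : Type} (A : J → List (List (Form V))) : List J → List (List (Form V))
  | [] => [[]]
  | j :: js => (A j).flatMap fun Λ => (Gs A js).map fun Γ => Λ ++ Γ

theorem mem_Gs_cons {J : Type} {A : J → List (List (Form V))} {j : J} {js : List J}
    {Ξ : List (Form V)} :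
    Ξ ∈ Gs A (j :: js) ↔ ∃ Λ ∈ A j, ∃ Γ ∈ Gs A js, Ξ = Λ ++ Γ := by
  have h0 : Gs A (j :: js) = (A j).flatMap fun Λ => (Gs A js).map fun Γ => Λ ++ Γ := rfl
  rw [h0]
  constructor
  · intro h
    obtain ⟨Λ, hΛ, h⟩ := List.mem_flatMap.1 h
    obtain ⟨Γ, hΓ, rfl⟩ := List.mem_map.1 h
    exact ⟨Λ, hΛ, Γ, hΓ, rfl⟩
  · rintro ⟨Λ, hΛ, Γ, hΓ, rfl⟩
    exact List.mem_flatMap.2 ⟨Λ, hΛ, List.mem_map.2 ⟨Γ, hΓ, rfl⟩⟩

theorem length_Gs {J : Type} {A : J → List (List (Form V))} {a : ℕ}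
    (ha : ∀ j, (A j).length ≤ a) (js : List J) : (Gs A js).length ≤ a ^ js.length := by
  induction js with
  | nil => simp [Gs]
  | cons j js ih =>
    have h0 : Gs A (j :: js) = (A j).flatMap fun Λ => (Gs A js).map fun Γ => Λ ++ Γ := rfl
    rw [h0, List.length_flatMap]
    simp only [List.length_map, List.map_const', List.sum_replicate, smul_eq_mul]
    rw [List.length_cons, pow_succ']
    exact Nat.mul_le_mul (ha j) ih

theorem Gs_lit {J : Type} {A : J → List (List (Form V))} {X : Form V → Prop}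
    (hA : ∀ j, ∀ Λ ∈ A j, ∀ φ ∈ Λ, X φ) (js : List J) : ∀ Γ ∈ Gs A js, ∀ φ ∈ Γ, X φ := by
  induction js with
  | nil =>
    intro Γ hΓ φ hφ
    rw [List.mem_singleton.1 hΓ] at hφ
    exact absurd hφ List.not_mem_nil
  | cons j js ih =>
    intro Γ hΓ φ hφ
    obtain ⟨Λ, hΛ, Γ', hΓ', rfl⟩ := mem_Gs_cons.1 hΓ
    rcases List.mem_append.1 hφ with h | h
    · exact hA j Λ hΛ φ h
    · exact ih Γ' hΓ' φ h

theorem Gs_wt {J : Type} {A : J → List (List (Form V))} {w : ℕ}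
    (hA : ∀ j, ∀ Λ ∈ A j, wtL Λ ≤ w) (js : List J) : ∀ Γ ∈ Gs A js, wtL Γ ≤ js.length * w := by
  induction js with
  | nil =>
    intro Γ hΓ
    rw [List.mem_singleton.1 hΓ]
    exact Nat.zero_le _
  | cons j js ih =>
    intro Γ hΓ
    obtain ⟨Λ, hΛ, Γ', hΓ', rfl⟩ := mem_Gs_cons.1 hΓ
    rw [wtL_append, List.length_cons, Nat.add_mul, one_mul]
    have h1 := hA j Λ hΛ
    have h2 := ih Γ' hΓ'
    omega

theorem countFree_disjL {Λ : List (Form V)} (h : ∀ φ ∈ Λ, CountFree φ) : CountFree (disjL Λ) :=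
  fun i => h _ (List.get_mem Λ i)

/-- The refutation of the disjunction of several formulas. -/
theorem chain {J : Type} (A : J → List (List (Form V))) (q : J → ℕ) (hq : ∀ j, q j ∈ Q)
    {S' : ℕ → Set Rule} (hS' : ∀ q, ∀ R ∈ S' q, OneR R)
    (hS : ∀ q ∈ Q, sideR '' S' q ∪ {kJ, kF, kD, kW} ⊆ S q) (Lj : J → List (Form V)) (hd : 1 ≤ d)
    (hL : ∀ j, Lin (S' (q j)) d {φ | ∃ Λ ∈ A j, φ = disjL Λ} (Lj j))
    (hf : ∀ j, falsum ∈ Lj j) {n a P w : ℕ} (hn : ∀ j, (Lj j).length ≤ n)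
    (hP : ∀ j, ∀ φ ∈ Lj j, wt φ ≤ P) (ha : ∀ j, (A j).length ≤ a) (ha1 : 1 ≤ a)
    (hw : ∀ j, ∀ Λ ∈ A j, wtL Λ ≤ w)
    (hlit : ∀ j, ∀ Λ ∈ A j, ∀ φ ∈ Λ, CountFree φ ∧ φ.depth ≤ 0) {q₀ : ℕ} (hq₀ : q₀ ∈ Q)
    (js : List J) :
    ∃ Ls, MLin Q S (d + 1) {φ | ∃ Γ ∈ Gs A js, φ = disjL Γ} Ls ∧ (∃ q, (q, falsum) ∈ Ls) ∧
      Ls.length ≤ 1 + js.length * (a ^ js.length * (n + 2 * a + 1)) ∧
      ∀ x ∈ Ls, wt x.2 ≤ P + w + js.length * w + 2 := by
  induction js with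
  | nil =>
    refine ⟨[(q₀, falsum)], MLin.cons _ _ _ MLin.nil hq₀ (Nat.zero_le _) (Or.inl ⟨[], ?_, ?_⟩),
      ⟨q₀, List.mem_singleton_self _⟩, by simp, ?_⟩
    · exact List.mem_singleton_self _
    · exact falsum_eq
    · intro x hx
      rw [List.mem_singleton.1 hx]
      have : wt (falsum : Form V) = 1 := by simp [falsum, wt]
      show wt falsum ≤ _
      omega
  | cons j js ih =>
    obtain ⟨Ls, h1, ⟨q₁, h2⟩, h3, h4⟩ := ih
    have hB : ∀ Bs : List (List (Form V)), (∀ Γ ∈ Bs, Γ ∈ Gs A js) →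
        ∃ B, MLin Q S (d + 1) {φ | ∃ Γ ∈ Gs A (j :: js), φ = disjL Γ} B ∧
          (∀ Γ ∈ Bs, (q j, disjL Γ) ∈ B) ∧ B.length ≤ Bs.length * (n + 2 * a + 1) ∧
          ∀ x ∈ B, wt x.2 ≤ P + w + js.length * w + 2 := by
      intro Bs
      induction Bs with
      | nil =>
        exact fun _ => ⟨[], MLin.nil, fun Γ hΓ => absurd hΓ List.not_mem_nil, by simp,
          fun x hx => absurd hx List.not_mem_nil⟩
      | cons Γ Bs ihB =>
        intro hBs
        obtain ⟨B, b1, b2, b3, b4⟩ := ihB fun Γ' h' => hBs Γ' (List.mem_cons_of_mem _ h')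
        have hΓ := hBs Γ List.mem_cons_self
        have hΓw := Gs_wt hw js Γ hΓ
        obtain ⟨Ls', g1, g2, g3, g4⟩ := lin_step (W := P + w + js.length * w + 2) (Γ := Γ)
          (hL j) (hf j) (hS' _) hd
          (fun γ hγ => (Gs_lit hlit js Γ hΓ γ hγ).2) (fun Λ hΛ γ hγ => (hlit j Λ hΛ γ hγ).2)
          (fun φ hφ => by
            have := hP j φ hφ
            omega)
          (fun Λ hΛ => by
            have := hw j Λ hΛ
            omega)
        have g5 : MLin Q S (d + 1) {φ | ∃ Γ ∈ Gs A (j :: js), φ = disjL Γ}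
            (Ls'.map fun φ => (q j, φ)) := by
          refine (MLin.of_lin (hq j) (hS _ (hq j)) g1).mono ?_
          rintro φ ⟨Λ, hΛ, rfl⟩
          exact ⟨_, mem_Gs_cons.2 ⟨Λ, hΛ, Γ, hΓ, rfl⟩, rfl⟩
        refine ⟨_, g5.append b1, fun Γ' hΓ' => ?_, ?_, fun x hx => ?_⟩
        · rcases List.mem_cons.1 hΓ' with rfl | hΓ'
          · exact List.mem_append_left _ (List.mem_map.2 ⟨_, g2, rfl⟩)
          · exact List.mem_append_right _ (b2 Γ' hΓ')
        · rw [List.length_append, List.length_map, List.length_cons, Nat.add_mul, one_mul]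
          have h5 := hn j
          have h6 := ha j
          omega
        · rcases List.mem_append.1 hx with hx | hx
          · obtain ⟨φ, hφ, rfl⟩ := List.mem_map.1 hx
            exact g4 φ hφ
          · exact b4 x hx
    obtain ⟨B, b1, b2, b3, b4⟩ := hB (Gs A js) fun Γ hΓ => hΓ
    obtain ⟨C, c1, c2, c3, c4⟩ := h1.cut b1 (by
      rintro φ ⟨Γ, hΓ, rfl⟩
      exact ⟨countFree_disjL fun φ hφ => (Gs_lit hlit js Γ hΓ φ hφ).1, q j, b2 Γ hΓ⟩)
    refine ⟨C, c1, c2 _ _ h2, ?_, fun x hx => ?_⟩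
    · have h5 := length_Gs ha js
      have h6 : a ^ js.length ≤ a ^ (js.length + 1) := Nat.pow_le_pow_right ha1 (Nat.le_succ _)
      have h7 : (Gs A js).length * (n + 2 * a + 1) ≤ a ^ (js.length + 1) * (n + 2 * a + 1) :=
        Nat.mul_le_mul_right _ (h5.trans h6)
      have h8 : js.length * (a ^ js.length * (n + 2 * a + 1)) ≤
          js.length * (a ^ (js.length + 1) * (n + 2 * a + 1)) :=
        Nat.mul_le_mul_left _ (Nat.mul_le_mul_right _ h6)
      rw [List.length_cons, Nat.add_mul, one_mul]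
      omega
    · rw [List.length_cons, Nat.add_mul, one_mul]
      rcases c4 x hx with h5 | h5
      · have := h4 x h5
        omega
      · have := b4 x h5
        omega

end Pool.Agent.MP_9cec2c_lc.MX
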