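import Mathlib

/-!
An average over all subsets of a finite set: if a nonempty set `S` has the weight
`1 / (|S| * (n choose |S|))`, then the average of the sums over `i` in `S` of the differences
`r (S without i) - r S` is `r ∅ - r univ`.
-/

set_option autoImplicit false
set_option linter.unusedSectionVars false

namespace Pool.Agent.MP_9cec2c_lc.MX

open Finset

variable {β : Type} [Fintype β] [DecidableEq β]

/-- The weight of a set. The empty set has the weight 0. -/
noncomputable def wt (S : Finset β) : ℝ :=
  1 / ((S.card : ℝ) * ((Fintype.card β).choose S.card : ℝ))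

theorem wt_nonneg (S : Finset β) : 0 ≤ wt S := by
  unfold wt
  positivity

theorem wt_empty : wt (∅ : Finset β) = 0 := by
  unfold wt
  simp

/-- The sum of all weights is a harmonic number. -/
theorem sum_wt_eq : ∑ S : Finset β, wt S = (harmonic (Fintype.card β) : ℝ) := by
  classical
  have h1 : ∑ S : Finset β, wt S = ∑ j ∈ range (Fintype.card β + 1),
      ∑ S ∈ (univ : Finset β).powersetCard j, wt S := by
    have h2 := Finset.sum_powerset_apply_card (x := (univ : Finset β)) (fun j : ℕ =>
      (1 : ℝ) / ((j : ℝ) * ((Fintype.card β).choose j : ℝ)))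
    rw [powerset_univ] at h2
    unfold wt
    rw [h2, card_univ]
    refine sum_congr rfl fun j _ => ?_
    rw [sum_congr rfl (g := fun _ => (1 : ℝ) / ((j : ℝ) * ((Fintype.card β).choose j : ℝ)))
      (fun S hS => by rw [(mem_powersetCard.1 hS).2]), sum_const, card_powersetCard, card_univ]
  rw [h1]
  have h2 : ∀ j ∈ range (Fintype.card β + 1), ∑ S ∈ (univ : Finset β).powersetCard j, wt S =
      if j = 0 then 0 else 1 / (j : ℝ) := by
    intro j hj
    have hj' : j ≤ Fintype.card β := Nat.lt_succ_iff.1 (mem_range.1 hj)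
    have h3 : ∑ S ∈ (univ : Finset β).powersetCard j, wt S =
        ((Fintype.card β).choose j : ℝ) * (1 / ((j : ℝ) * ((Fintype.card β).choose j : ℝ))) := by
      unfold wt
      rw [sum_congr rfl (g := fun _ => (1 : ℝ) / ((j : ℝ) * ((Fintype.card β).choose j : ℝ)))
        (fun S hS => by rw [(mem_powersetCard.1 hS).2]), sum_const, card_powersetCard, card_univ,
        nsmul_eq_mul]
    rw [h3]
    by_cases h0 : j = 0
    · subst h0
      simp
    · rw [if_neg h0]
      have h4 : (0 : ℝ) < ((Fintype.card β).choose j : ℝ) := by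
        exact_mod_cast Nat.choose_pos hj'
      have h5 : (0 : ℝ) < (j : ℝ) := by
        exact_mod_cast Nat.pos_of_ne_zero h0
      field_simp
  rw [sum_congr rfl h2, sum_range_succ']
  rw [if_pos rfl, add_zero]
  unfold harmonic
  rw [Rat.cast_sum]
  refine sum_congr rfl fun j _ => ?_
  rw [if_neg (Nat.succ_ne_zero j), one_div]
  push_cast
  rfl

theorem sum_wt_le {R : ℕ} (h : Fintype.card β ≤ 2 ^ R) : ∑ S : Finset β, wt S ≤ R + 1 := by
  rw [sum_wt_eq]
  have h1 : (harmonic (Fintype.card β) : ℝ) ≤ 1 + Real.log (Fintype.card β) := by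
    exact_mod_cast harmonic_le_one_add_log (Fintype.card β)
  refine h1.trans ?_
  have h2 : Real.log (Fintype.card β) ≤ R := by
    rcases Nat.eq_zero_or_pos (Fintype.card β) with h0 | h0
    · rw [h0, Nat.cast_zero, Real.log_zero]
      positivity
    · have h3 : Real.log (Fintype.card β) ≤ Real.log ((2 : ℝ) ^ R) := by
        refine Real.log_le_log (by exact_mod_cast h0) ?_
        exact_mod_cast h
      refine h3.trans ?_
      rw [Real.log_pow]
      have h4 : Real.log 2 ≤ 1 := by
        have := Real.log_two_lt_d9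
        linarith
      calc (R : ℝ) * Real.log 2 ≤ R * 1 := mul_le_mul_of_nonneg_left h4 (by positivity)
        _ = R := mul_one _
  linarith

theorem one_le_sum_wt [Nonempty β] : 1 ≤ ∑ S : Finset β, wt S := by
  rw [sum_wt_eq]
  have h1 : 1 ≤ Fintype.card β := Fintype.card_pos
  have h2 : (1 : ℚ) ≤ harmonic (Fintype.card β) := by
    unfold harmonic
    have h3 := single_le_sum (f := fun i : ℕ => ((i : ℚ) + 1)⁻¹) (s := range (Fintype.card β))
      (fun i _ => by positivity) (mem_range.2 (show 0 < Fintype.card β by omega))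
    refine le_trans ?_ (le_trans h3 (le_of_eq ?_))
    · norm_num
    · refine sum_congr rfl fun i _ => ?_
      push_cast
      rfl
  exact_mod_cast h2

/-- The average of the differences. -/
theorem avg_identity (r : Finset β → ℝ) :
    ∑ S : Finset β, wt S * ∑ i ∈ S, (r (S.erase i) - r S) = r ∅ - r univ := by
  classical
  obtain ⟨n, hn⟩ : ∃ n, n = Fintype.card β := ⟨_, rfl⟩
  -- both sums are sums over the pairs of a set and an element
  have h1 : ∑ S : Finset β, wt S * ∑ i ∈ S, (r (S.erase i) - r S) =
      ∑ S : Finset β, wt S * ∑ i ∈ S, r (S.erase i) - ∑ S : Finset β, wt S * (S.card * r S) := by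
    rw [← sum_sub_distrib]
    refine sum_congr rfl fun S _ => ?_
    rw [← mul_sub, sum_sub_distrib, sum_const, nsmul_eq_mul]
  have h2 : ∑ S : Finset β, wt S * ∑ i ∈ S, r (S.erase i) =
      ∑ T : Finset β, ∑ i ∈ Tᶜ, wt (insert i T) * r T := by
    have h3 : ∑ S : Finset β, wt S * ∑ i ∈ S, r (S.erase i) =
        ∑ q ∈ (univ : Finset (Finset β)).sigma fun S => S, wt q.1 * r (q.1.erase q.2) := by
      rw [sum_sigma]
      exact sum_congr rfl fun S _ => mul_sum _ _ _
    have h4 : ∑ T : Finset β, ∑ i ∈ Tᶜ, wt (insert i T) * r T =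
        ∑ q ∈ (univ : Finset (Finset β)).sigma fun T => Tᶜ, wt (insert q.2 q.1) * r q.1 := by
      rw [sum_sigma]
    rw [h3, h4]
    refine sum_nbij' (fun q => ⟨q.1.erase q.2, q.2⟩) (fun q => ⟨insert q.2 q.1, q.2⟩) ?_ ?_ ?_ ?_ ?_
    · intro q hq
      rw [mem_sigma] at hq ⊢
      exact ⟨mem_univ _, mem_compl.2 (notMem_erase _ _)⟩
    · intro q hq
      rw [mem_sigma] at hq ⊢
      exact ⟨mem_univ _, mem_insert_self _ _⟩
    · intro q hq
      rw [mem_sigma] at hq
      exact Sigma.ext (insert_erase hq.2) HEq.rfl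
    · intro q hq
      rw [mem_sigma] at hq
      exact Sigma.ext (erase_insert (mem_compl.1 hq.2)) HEq.rfl
    · intro q hq
      rw [mem_sigma] at hq
      simp only
      rw [insert_erase hq.2]
  have h3 : ∀ T : Finset β, ∑ i ∈ Tᶜ, wt (insert i T) * r T =
      if T = univ then 0 else (1 / ((Fintype.card β).choose T.card : ℝ)) * r T := by
    intro T
    have h4 : ∀ i ∈ Tᶜ, wt (insert i T) * r T =
        1 / (((T.card + 1 : ℕ) : ℝ) * ((Fintype.card β).choose (T.card + 1) : ℝ)) * r T := by
      intro i hi
      unfold wt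
      rw [card_insert_of_notMem (mem_compl.1 hi)]
    rw [sum_congr rfl h4, sum_const, nsmul_eq_mul]
    by_cases hT : T = univ
    · rw [if_pos hT, hT, compl_univ, card_empty, Nat.cast_zero, zero_mul]
    · rw [if_neg hT]
      have h5 : T.card < Fintype.card β := (card_lt_iff_ne_univ T).2 hT
      have h6 : ((Fintype.card β).choose (T.card + 1) : ℝ) * ((T.card + 1 : ℕ) : ℝ) =
          ((Fintype.card β).choose T.card : ℝ) * ((Fintype.card β - T.card : ℕ) : ℝ) := by
        exact_mod_cast Nat.choose_succ_right_eq (Fintype.card β) T.card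
      have h7 : (Tᶜ).card = Fintype.card β - T.card := card_compl T
      have h8 : (0 : ℝ) < ((Fintype.card β - T.card : ℕ) : ℝ) := by
        exact_mod_cast Nat.sub_pos_of_lt h5
      have h9 : (0 : ℝ) < ((Fintype.card β).choose T.card : ℝ) := by
        exact_mod_cast Nat.choose_pos h5.le
      rw [h7, mul_comm ((T.card + 1 : ℕ) : ℝ), h6]
      field_simp
  have h4 : ∀ S : Finset β, wt S * (S.card * r S) =
      if S = ∅ then 0 else (1 / ((Fintype.card β).choose S.card : ℝ)) * r S := by
    intro S
    by_cases hS : S = ∅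
    · rw [if_pos hS, hS, wt_empty, zero_mul]
    · rw [if_neg hS]
      have h5 : (0 : ℝ) < S.card := by
        exact_mod_cast card_pos.2 (nonempty_iff_ne_empty.2 hS)
      have h6 : (0 : ℝ) < ((Fintype.card β).choose S.card : ℝ) := by
        exact_mod_cast Nat.choose_pos (card_le_univ S)
      unfold wt
      field_simp
  rw [h1, h2, sum_congr rfl fun T _ => h3 T, sum_congr rfl fun S _ => h4 S, ← sum_sub_distrib]
  have h5 : ∀ S : Finset β,
      ((if S = univ then 0 else (1 / ((Fintype.card β).choose S.card : ℝ)) * r S) -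
        if S = ∅ then 0 else (1 / ((Fintype.card β).choose S.card : ℝ)) * r S) =
      (if S = ∅ then r ∅ else 0) - if S = univ then r univ else 0 := by
    intro S
    by_cases h6 : S = univ <;> by_cases h7 : S = ∅
    · rw [if_pos h6, if_pos h7, if_pos h7, if_pos h6, ← h6, ← h7]
      ring
    · rw [if_pos h6, if_neg h7, if_neg h7, if_pos h6, h6, card_univ, Nat.choose_self]
      push_cast
      ring
    · rw [if_neg h6, if_pos h7, if_pos h7, if_neg h6, h7, card_empty, Nat.choose_zero_right]
      push_cast
      ring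
    · rw [if_neg h6, if_neg h7, if_neg h7, if_neg h6, sub_self, sub_self]
  rw [sum_congr rfl fun S _ => h5 S, sum_sub_distrib, sum_ite_eq', if_pos (mem_univ _),
    sum_ite_eq', if_pos (mem_univ _)]

end Pool.Agent.MP_9cec2c_lc.MX
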