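import Pool.Agent.Lib.MP_9cec2c_lc.TWTriv
import Pool.Agent.Lib.MP_9cec2c_lc.MXDefs

/-!
Mixed refutations of formulas whose clauses contain clauses of a Tseitin formula use a clause of
every vertex.
-/

set_option autoImplicit false
set_option linter.unusedSectionVars false

namespace Pool.Agent.MP_9cec2c_lc.MX

open Finset
open Flat (valueClauses eqClauses forbid2)
open FG TT

/-- The truth of a formula without counting gates does not depend on the modulus. -/
theorem countFree_eval {V : Type} (p p' : ℕ) (x : V → Bool) :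
    ∀ φ : Form V, CountFree φ → (φ.eval p x ↔ φ.eval p' x)
  | .var _, _ => Iff.rfl
  | .neg φ, h => not_congr (countFree_eval p p' x φ h)
  | .conj _ F, h => forall_congr' fun i => countFree_eval p p' x (F i) (h i)
  | .disj _ F, h => exists_congr fun i => countFree_eval p p' x (F i) (h i)
  | .count _ _ _, h => h.elim

/-- Mixed derivations by sound rules are sound. -/
theorem sound_mixed {V : Type} {Q : Finset ℕ} {S : ℕ → Set Rule}
    (hS : ∀ q ∈ Q, ∀ R ∈ S q, R.Sound q) {d l : ℕ} {Φ : Set (Form V)} {τ : Fin l → ℕ}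
    {L : Fin l → Form V} (hL : IsMixed Q S d Φ τ L) {x : V → Bool}
    (hx : ∀ i, L i ∈ Φ → (L i).eval (τ i) x) : ∀ i, (L i).eval (τ i) x := by
  have key : ∀ n : ℕ, ∀ i : Fin l, (i : ℕ) = n → (L i).eval (τ i) x := by
    intro n
    induction n using Nat.strong_induction_on with
    | _ n ih =>
      intro i hi
      rcases (hL i).2.2 with h | ⟨R, hR, σ, ρ, h1, h2⟩
      · exact hx i h
      · refine hS (τ i) (hL i).1 R hR V σ ρ x (fun P hP ψ hψ => ?_) (L i) ?_
        · obtain ⟨j, hj, rfl, hj'⟩ := h1 P hP ψ hψ
          have h3 := ih j (by rw [← hi]; exact hj) j rfl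
          rcases hj' with hj' | hj'
          · rw [← hj']
            exact h3
          · exact (countFree_eval _ _ x _ hj').1 h3
        · rw [h2]
          exact List.mem_singleton.2 rfl
  exact fun i => key i i rfl

private theorem card_aux {k : ℕ} {V : Type} {Q : Type} [Fintype Q] [DecidableEq Q]
    {R : Q → List (V × Bool) → Prop}
    (hR : ∀ D, ∃ A : Finset Q, A.card ≤ k ∧ ∀ q, R q D → q ∈ A)
    {D : Q → List (V × Bool)} (hD : ∀ q, R q (D q)) {P : Finset (Form V)}
    (hP : ∀ q, clause (D q) ∈ P) : Fintype.card Q ≤ k * P.card := by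
  classical
  have h1 : (Finset.univ : Finset Q).card ≤
      k * (Finset.univ.image fun q => clause (D q)).card := by
    refine Finset.card_le_mul_card_image _ k fun φ hφ => ?_
    obtain ⟨q0, -, rfl⟩ := Finset.mem_image.1 hφ
    obtain ⟨A, hA, hA'⟩ := hR (D q0)
    refine le_trans (Finset.card_le_card fun q hq => ?_) hA
    rw [Finset.mem_filter] at hq
    have h2 : D q = D q0 := clause_injective hq.2
    exact hA' q (h2 ▸ hD q)
  have h2 : (Finset.univ.image fun q => clause (D q)).card ≤ P.card := by
    refine Finset.card_le_card fun φ hφ => ?_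
    obtain ⟨q, -, rfl⟩ := Finset.mem_image.1 hφ
    exact hP q
  rw [Finset.card_univ] at h1
  exact h1.trans (Nat.mul_le_mul_left k h2)

/-- If every point `q : Q` needs a clause of its own, up to multiplicity `k`, then the number of
points is at most `k` times the size. -/
theorem card_le_sizeM {k : ℕ} {V : Type} {Qs : Finset ℕ} {S : ℕ → Set Rule}
    (hS : ∀ q ∈ Qs, ∀ R ∈ S q, R.Sound q) {Q : Type}
    [Fintype Q] [DecidableEq Q] {F : List (List (V × Bool))} {R : Q → List (V × Bool) → Prop}
    (hR : ∀ D, ∃ A : Finset Q, A.card ≤ k ∧ ∀ q, R q D → q ∈ A)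
    (hx : ∀ q, ∃ x : V → Bool, ∀ D ∈ F, ¬ R q D → ∃ l ∈ D, x l.1 = l.2) {d l : ℕ} {τ : Fin l → ℕ}
    {L : Fin l → Form V} (hL : MixedRefutes Qs S d F τ L) : Fintype.card Q ≤ k * size L := by
  classical
  rcases hL with ⟨hL, i0, hi0⟩ | ⟨hL, i0, hi0⟩
  · have h1 : ∀ q, ∃ D, R q D ∧ ∃ j, L j = clause D := by
      intro q
      by_contra hcon
      push Not at hcon
      obtain ⟨x, hx'⟩ := hx q
      have h2 := sound_mixed hS hL (x := x) (fun i hi => by
        obtain ⟨D, hD, hD'⟩ := hi
        rw [hD']
        exact (eval_clause _ x D).2 (hx' D hD fun hR' => hcon D hR' i hD')) i0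
      rw [hi0] at h2
      obtain ⟨i, -⟩ := h2
      exact i.elim0
    choose D hD j hj using h1
    have h2 := card_aux hR hD (P := Finset.univ.image L) fun q => by
      rw [← hj q]
      exact Finset.mem_image_of_mem _ (Finset.mem_univ _)
    have h3 : (Finset.univ.image L).card ≤ l := by
      refine le_trans Finset.card_image_le ?_
      rw [Finset.card_univ, Fintype.card_fin]
    unfold size
    exact h2.trans (Nat.mul_le_mul_left k (h3.trans (Nat.le_add_right _ _)))
  · have h1 : ∀ q, ∃ D, R q D ∧ D ∈ F := by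
      intro q
      by_contra hcon
      push Not at hcon
      obtain ⟨x, hx'⟩ := hx q
      have h2 := sound_mixed hS hL (x := x)
        (fun i hi => absurd hi (Set.notMem_empty _)) i0
      rw [hi0] at h2
      exact h2 ((eval_cnf _ x F).2 fun D hD => hx' D hD fun hR' => hcon D hR' hD)
    choose D hD hF using h1
    have h2 := card_aux hR hD (P := (parts_set_finite L).toFinset) fun q => by
      rw [Set.Finite.mem_toFinset]
      refine ⟨i0, ?_⟩
      rw [hi0]
      refine Set.mem_insert_of_mem _ ?_
      obtain ⟨k, hk⟩ := List.get_of_mem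
        (List.mem_map.2 ⟨D q, hF q, rfl⟩ : clause (D q) ∈ F.map clause)
      refine Set.mem_insert_of_mem _ (Set.mem_iUnion.2 ⟨k, ?_⟩)
      rw [hk]
      exact self_mem_parts _
    rw [← Set.ncard_eq_toFinset_card _ (parts_set_finite L)] at h2
    unfold size
    exact h2.trans (Nat.mul_le_mul_left k (Nat.le_add_left _ _))

variable {V E : Type} [Fintype V] [Fintype E] [DecidableEq V] [DecidableEq E] {src tgt : E → V}
  {r : ℕ} [NeZero r] {s : V → ZMod r}

/-- Every mixed refutation uses a clause of every vertex. -/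
theorem card_vertices_leM (hconn : Connected src tgt) {Qs : Finset ℕ} {S : ℕ → Set Rule}
    (hS : ∀ q ∈ Qs, ∀ R ∈ S q, R.Sound q) {X : Type} {ι : E × ZMod r → X}
    (hι : Function.Injective ι) {B : ℕ}
    {F : List (List (X × Bool))} (hF : Above ι (tseitin src tgt r s) B F) {d l : ℕ}
    {τ : Fin l → ℕ} {L : Fin l → Form X} (hL : MixedRefutes Qs S d F τ L) :
    Fintype.card V ≤ (2 * B + 1) * size L := by
  classical
  refine card_le_sizeM hS (Q := V) (F := F)
    (R := fun v D => D.length ≤ B ∧ ∃ C ∈ eqClauses (inc src tgt v) (coef src tgt r v) (s v),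
      ∀ l ∈ C, (ι l.1, l.2) ∈ D) ?_ ?_ hL
  · intro D
    by_cases h0 : ∃ v, inc src tgt v = ∅
    · obtain ⟨v, h0⟩ := h0
      have hu : ({v} : Finset V) = univ := by
        by_contra hne
        obtain ⟨e, he⟩ := hconn {v} (singleton_nonempty v) hne
        unfold cut at he
        rw [mem_filter] at he
        have h1 : e ∈ inc src tgt v := by
          unfold inc
          rw [mem_filter]
          refine ⟨mem_univ _, ?_⟩
          by_contra h
          rw [not_or] at h
          exact he.2 ⟨fun h1 => absurd (mem_singleton.1 h1) h.1,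
            fun h1 => absurd (mem_singleton.1 h1) h.2⟩
        rw [h0] at h1
        exact absurd h1 (notMem_empty _)
      refine ⟨{v}, ?_, fun q _ => ?_⟩
      · rw [card_singleton]
        omega
      · rw [hu]
        exact mem_univ _
    · by_cases hlen : D.length ≤ B
      swap
      · exact ⟨∅, by simp, fun q hq => absurd hq.1 hlen⟩
      obtain ⟨Ed, hEd⟩ : ∃ Ed : Finset E, Ed = univ.filter fun e => ∃ c b, (ι (e, c), b) ∈ D :=
        ⟨_, rfl⟩
      have hm : ∀ e, e ∈ Ed ↔ ∃ c b, (ι (e, c), b) ∈ D := by
        intro e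
        rw [hEd, mem_filter]
        exact ⟨fun h => h.2, fun h => ⟨mem_univ _, h⟩⟩
      have hcard : Ed.card ≤ D.length := by
        have h1 : ∀ e : E, ∃ y : X × Bool, e ∈ Ed → y ∈ D ∧ ∃ c b, y = (ι (e, c), b) := by
          intro e
          by_cases he : e ∈ Ed
          · obtain ⟨c, b, h⟩ := (hm e).1 he
            exact ⟨_, fun _ => ⟨h, c, b, rfl⟩⟩
          · exact ⟨(ι (e, 0), true), fun h => absurd h he⟩
        choose y hy using h1
        have h2 : (Ed.image y).card = Ed.card := by
          refine card_image_of_injOn fun e he e' he' hee => ?_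
          obtain ⟨-, c, b, h3⟩ := hy e he
          obtain ⟨-, c', b', h4⟩ := hy e' he'
          have h5 : y e = y e' := hee
          rw [h3, h4] at h5
          exact (Prod.mk.inj (hι (Prod.mk.inj h5).1)).1
        rw [← h2]
        refine (card_le_card fun z hz => ?_).trans (List.toFinset_card_le D)
        obtain ⟨e, he, rfl⟩ := mem_image.1 hz
        exact List.mem_toFinset.2 (hy e he).1
      refine ⟨Ed.image src ∪ Ed.image tgt, ?_, fun v hv => ?_⟩
      · refine (card_union_le _ _).trans ?_
        have h1 := card_image_le (s := Ed) (f := src)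
        have h2 := card_image_le (s := Ed) (f := tgt)
        omega
      · obtain ⟨-, C, hC, hCD⟩ := hv
        obtain ⟨e, he⟩ := nonempty_iff_ne_empty.2 fun h => h0 ⟨v, h⟩
        obtain ⟨l, hl, hl'⟩ := TTVert_inc' hC e he
        have h1 : e ∈ Ed := (hm e).2 ⟨l.1.2, l.2, by
          have h2 := hCD l hl
          rw [← hl']
          exact h2⟩
        unfold inc at he
        rcases (mem_filter.1 he).2 with h | h
        · exact mem_union_left _ (mem_image.2 ⟨e, h1, h⟩)
        · exact mem_union_right _ (mem_image.2 ⟨e, h1, h⟩)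
  · intro q
    obtain ⟨g, hg⟩ := exists_pot hconn (fun v => if v = q then s q - ∑ v, s v else s v)
      (TTVert_sum s q)
    refine ⟨Function.extend ι (fun i => decide (g i.1 = i.2)) fun _ => false, fun D hD hnR => ?_⟩
    obtain ⟨hlen, C, hC, hCD⟩ := hF D hD
    have key : (∃ l ∈ C, decide (g l.1.1 = l.1.2) = l.2) →
        ∃ l ∈ D, Function.extend ι (fun i => decide (g i.1 = i.2)) (fun _ => false) l.1 = l.2 := by
      rintro ⟨l, hl, h⟩
      refine ⟨_, hCD l hl, ?_⟩
      show Function.extend ι (fun i => decide (g i.1 = i.2)) (fun _ => false) (ι l.1) = l.2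
      rw [hι.extend_apply]
      exact h
    rcases mem_tseitin.1 hC with ⟨e, he⟩ | ⟨v, hv⟩
    · exact key (holds_value g e C he)
    · by_cases hvq : v = q
      · subst hvq
        exact absurd ⟨hlen, C, hv, hCD⟩ hnR
      · have h1 : bd src tgt g v = s v := by rw [hg v, if_neg hvq]
        exact key (holds_eq h1 C hv)

end Pool.Agent.MP_9cec2c_lc.MX
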