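import Mathlib

/-!
A domain of characteristic zero with a primitive root of unity of order `r` and residue fields of
all characteristics prime to `r`.
-/

set_option autoImplicit false

namespace Pool.Agent.MP_9cec2c_lc.MX

private theorem exists_ring_aux (r : ℕ) [NeZero r] (K : Type) [Field K] [NumberField K]
    (ζ : K) (hζ : IsPrimitiveRoot ζ r) (p : ℕ) (hp : p.Prime) (hpr : p.Coprime r) :
    ∃ (K₁ : Type) (_ : Field K₁) (_ : Fintype K₁) (_ : CharP K₁ p)
      (φ₁ : NumberField.RingOfIntegers K →+* K₁),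
      Function.Surjective φ₁ ∧ IsPrimitiveRoot (φ₁ hζ.toInteger) r := by
  have hω : IsPrimitiveRoot hζ.toInteger r := hζ.toInteger_isPrimitiveRoot
  have : Fact p.Prime := ⟨hp⟩
  have hmax : (Ideal.span {(p : ℤ)}).IsMaximal :=
    Int.ideal_span_isMaximal_of_prime p
  obtain ⟨Q, hQ, hQp⟩ := Ideal.exists_maximal_ideal_liesOver_of_isIntegral
    (S := NumberField.RingOfIntegers K) (Ideal.span {(p : ℤ)})
  have hpQ : ((p : ℕ) : NumberField.RingOfIntegers K) ∈ Q := by
    have h1 : (p : ℤ) ∈ Ideal.span {(p : ℤ)} := Ideal.mem_span_singleton_self _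
    rw [hQp.over, Ideal.mem_comap] at h1
    simpa using h1
  have hQ0 : Q ≠ ⊥ := by
    rintro rfl
    rw [Ideal.mem_bot] at hpQ
    exact hp.ne_zero (by exact_mod_cast hpQ)
  letI : Field (NumberField.RingOfIntegers K ⧸ Q) := Ideal.Quotient.field Q
  have : Finite (NumberField.RingOfIntegers K ⧸ Q) :=
    Ideal.finiteQuotientOfFreeOfNeBot Q hQ0
  have hp0 : ((p : ℕ) : NumberField.RingOfIntegers K ⧸ Q) = 0 := by
    rw [← map_natCast (Ideal.Quotient.mk Q), Ideal.Quotient.eq_zero_iff_mem]
    exact hpQ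
  have hchar : CharP (NumberField.RingOfIntegers K ⧸ Q) p :=
    (CharP.charP_iff_prime_eq_zero hp).2 hp0
  refine ⟨NumberField.RingOfIntegers K ⧸ Q, inferInstance,
    Fintype.ofFinite _, hchar, Ideal.Quotient.mk Q, Ideal.Quotient.mk_surjective, ?_⟩
  have : NeZero ((r : ℕ) : NumberField.RingOfIntegers K ⧸ Q) := by
    refine ⟨fun h => ?_⟩
    rw [CharP.cast_eq_zero_iff _ p] at h
    exact hp.one_lt.ne' (Nat.dvd_one.1 (hpr ▸ Nat.dvd_gcd dvd_rfl h))
  rw [← Polynomial.isRoot_cyclotomic_iff]
  have h2 := (hω.isRoot_cyclotomic (NeZero.pos r)).map (f := Ideal.Quotient.mk Q)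
  rwa [Polynomial.map_cyclotomic] at h2

/-- There is a domain `R` in a field `K₀` with an element `ω` such that `ω` is a primitive root of
unity of order `r`, and for every prime `p` which does not divide `r` there is a surjective
homomorphism from `R` to a finite field of characteristic `p` which maps `ω` to a primitive root of
unity of order `r`. -/
theorem exists_ring (r : ℕ) [NeZero r] :
    ∃ (R : Type) (_ : CommRing R) (_ : IsDomain R) (K₀ : Type) (_ : Field K₀) (φ₀ : R →+* K₀)
      (ω : R), Function.Injective φ₀ ∧ IsPrimitiveRoot (φ₀ ω) r ∧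
      ∀ p : ℕ, p.Prime → p.Coprime r →
        ∃ (K₁ : Type) (_ : Field K₁) (_ : Fintype K₁) (_ : CharP K₁ p) (φ₁ : R →+* K₁),
          Function.Surjective φ₁ ∧ IsPrimitiveRoot (φ₁ ω) r := by
  have hC : ∃ ζ : CyclotomicField r ℚ, IsPrimitiveRoot ζ r := by
    have h := CyclotomicField.isCyclotomicExtension r ℚ
    exact (h.exists_isPrimitiveRoot (Set.mem_singleton r) (NeZero.ne r))
  obtain ⟨ζ, hζ⟩ := hC
  have hω : IsPrimitiveRoot hζ.toInteger r := hζ.toInteger_isPrimitiveRoot
  refine ⟨NumberField.RingOfIntegers (CyclotomicField r ℚ), inferInstance, inferInstance,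
    CyclotomicField r ℚ, inferInstance,
    algebraMap (NumberField.RingOfIntegers (CyclotomicField r ℚ)) (CyclotomicField r ℚ),
    hζ.toInteger, NumberField.RingOfIntegers.coe_injective, ?_, ?_⟩
  · exact hω.map_of_injective NumberField.RingOfIntegers.coe_injective
  · intro p hp hpr
    have : NumberField (CyclotomicField r ℚ) := inferInstance
    exact exists_ring_aux r (CyclotomicField r ℚ) ζ hζ p hp hpr

end Pool.Agent.MP_9cec2c_lc.MX
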