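import Mathlib

/-!
Ranks do not grow under reduction.
-/

set_option autoImplicit false

namespace Pool.Agent.MP_9cec2c_lc.MX

/-- Independent rows have an invertible square block. -/
theorem exists_det_ne_zero {K : Type} [Field K] {A : Type} [Finite A] {k : ℕ}
    {w : Fin k → A → K} (h : LinearIndependent K w) :
    ∃ g : Fin k → A, (Matrix.of fun i j => w i (g j)).det ≠ 0 := by
  classical
  cases nonempty_fintype A
  let M : Matrix (Fin k) A K := Matrix.of w
  have hM : LinearIndependent K M.row := h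
  have hr : M.rank = k := by simpa using hM.rank_matrix
  rw [Matrix.rank_eq_finrank_span_cols] at hr
  have htop : Submodule.span K (Set.range M.col) = ⊤ := by
    apply Submodule.eq_top_of_finrank_eq
    rw [hr]; simp
  obtain ⟨κ, a, ha, hsp, hli⟩ := exists_linearIndependent' K M.col
  have : Finite κ := Finite.of_injective a ha
  cases nonempty_fintype κ
  have hcard : Fintype.card κ = k := by
    have h1 : Fintype.card κ = (Set.range (M.col ∘ a)).finrank K :=
      linearIndependent_iff_card_eq_finrank_span.mp hli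
    rw [h1, Set.finrank, hsp, htop]; simp
  let e : Fin k ≃ κ := (Fintype.equivFinOfCardEq hcard).symm
  refine ⟨fun j => a (e j), ?_⟩
  have h2 : LinearIndependent K (Matrix.of fun i j => w i (a (e j)) : Matrix (Fin k) (Fin k) K).col :=
    hli.comp e e.injective
  rw [Matrix.linearIndependent_cols_iff_isUnit] at h2
  exact ((Matrix.isUnit_iff_isUnit_det _).1 h2).ne_zero

/-- Vectors over a domain whose images over one field are linearly independent have linearly
independent images over every field that contains the domain. -/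
theorem linearIndependent_lift {R : Type} [CommRing R] {K₀ K₁ : Type} [Field K₀] [Field K₁]
    {φ₀ : R →+* K₀} (φ₁ : R →+* K₁) (h0 : Function.Injective φ₀) {A : Type} [Finite A] {k : ℕ}
    {v : Fin k → A → R} (h : LinearIndependent K₁ fun j => fun a => φ₁ (v j a)) :
    LinearIndependent K₀ fun j => fun a => φ₀ (v j a) := by
  classical
  obtain ⟨g, hg⟩ := exists_det_ne_zero h
  have h1 : (Matrix.of fun i j => v i (g j)).det ≠ 0 := by
    intro h2
    apply hg
    have h3 := RingHom.map_det φ₁ (Matrix.of fun i j => v i (g j))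
    rw [h2, map_zero] at h3
    exact h3.symm
  have h4 : (Matrix.of fun i j => φ₀ (v i (g j))).det ≠ 0 := by
    intro h2
    apply h1
    apply h0
    rw [map_zero, RingHom.map_det φ₀ (Matrix.of fun i j => v i (g j))]
    exact h2
  have h5 : LinearIndependent K₀ (Matrix.of fun i j => φ₀ (v i (g j)) : Matrix (Fin k) (Fin k) K₀).row := by
    rw [Matrix.linearIndependent_rows_iff_isUnit, Matrix.isUnit_iff_isUnit_det]
    exact isUnit_iff_ne_zero.2 h4
  refine LinearIndependent.of_comp (LinearMap.funLeft K₀ K₀ g) ?_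
  exact h5

/-- Semicontinuity of ranks. The functions with values in `R` that satisfy `L` have images in `M₀`,
and every element of `M₁` is the image of such a function. The maps `T₀` and `T₁` come, up to
nonzero factors, from a map over `R`. -/
theorem finrank_map_le_of_lift {R : Type} [CommRing R] {K₀ K₁ : Type} [Field K₀] [Field K₁]
    {φ₀ : R →+* K₀} {φ₁ : R →+* K₁} (h0 : Function.Injective φ₀) {A : Type} [Finite A]
    (L : Set (A → R)) (T : (A → R) → (A → R))
    {M₀ : Submodule K₀ (A → K₀)} {M₁ : Submodule K₁ (A → K₁)}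
    {T₀ : (A → K₀) →ₗ[K₀] (A → K₀)} {T₁ : (A → K₁) →ₗ[K₁] (A → K₁)}
    (hM₀ : ∀ F ∈ L, (fun a => φ₀ (F a)) ∈ M₀)
    (hM₁ : ∀ f ∈ M₁, ∃ F ∈ L, f = fun a => φ₁ (F a)) {c₀ : K₀} {c₁ : K₁} (hc₀ : c₀ ≠ 0)
    (hc₁ : c₁ ≠ 0) (hT₀ : ∀ F ∈ L, T₀ (fun a => φ₀ (F a)) = c₀ • fun a => φ₀ (T F a))
    (hT₁ : ∀ F ∈ L, T₁ (fun a => φ₁ (F a)) = c₁ • fun a => φ₁ (T F a)) :
    Module.finrank K₁ (M₁.map T₁) ≤ Module.finrank K₀ (M₀.map T₀) := by
  classical
  set k := Module.finrank K₁ (M₁.map T₁) with hk
  let b := Module.finBasis K₁ (M₁.map T₁)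
  have hb : ∀ j : Fin k, ∃ F ∈ L, ((b j : M₁.map T₁) : A → K₁) = c₁ • fun a => φ₁ (T F a) := by
    intro j
    obtain ⟨f, hf, hfj⟩ := (Submodule.mem_map.1 (b j).2)
    obtain ⟨F, hF, rfl⟩ := hM₁ f hf
    exact ⟨F, hF, by rw [← hfj, hT₁ F hF]⟩
  choose F hFL hF using hb
  have hli : LinearIndependent K₁ fun j => ((b j : M₁.map T₁) : A → K₁) :=
    b.linearIndependent.map' (M₁.map T₁).subtype (Submodule.ker_subtype _)
  have hli1 : LinearIndependent K₁ fun j : Fin k => fun a => φ₁ (T (F j) a) := by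
    have h2 := hli.units_smul (fun _ => (Units.mk0 c₁ hc₁)⁻¹)
    convert h2 using 1
    funext j
    simp only [Pi.smul_apply']
    rw [hF j, Units.smul_def, smul_smul]
    simp [hc₁]
  have hli0 := linearIndependent_lift φ₁ h0 hli1
  have hli2 : LinearIndependent K₀ fun j : Fin k => (c₀ • fun a => φ₀ (T (F j) a) : A → K₀) := by
    have h2 := hli0.units_smul (fun _ => (Units.mk0 c₀ hc₀))
    exact h2
  have hmem : ∀ j : Fin k, (c₀ • fun a => φ₀ (T (F j) a) : A → K₀) ∈ M₀.map T₀ := by
    intro j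
    rw [← hT₀ (F j) (hFL j)]
    exact Submodule.mem_map_of_mem (hM₀ _ (hFL j))
  let w : Fin k → M₀.map T₀ := fun j => ⟨_, hmem j⟩
  have hw : LinearIndependent K₀ w :=
    LinearIndependent.of_comp (M₀.map T₀).subtype hli2
  have := hw.fintype_card_le_finrank
  simpa using this

end Pool.Agent.MP_9cec2c_lc.MX
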