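import Pool.Agent.Lib.MP_9cec2c_lc.Mg.G010
import Pool.Agent.Lib.MP_9cec2c_lc.FLDimR
import Pool.Agent.Lib.MP_9cec2c_lc.Mg.G017
import Pool.Agent.Lib.MP_9cec2c_lc.MXLI

/-!
Semicontinuity of ranks for twisted worlds: the ranks in positive characteristic are at most the
ranks over a field that contains the domain.
-/

set_option autoImplicit false
set_option linter.unusedSectionVars false

namespace Pool.Agent.MP_9cec2c_lc.MX

open Finset Frege Flat

/-- The power of `ω` with exponent in `ZMod r`, in a ring. -/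
private def ewR {R : Type} [CommRing R] {r : ℕ} (ω : R) (a : ZMod r) : R := ω ^ a.val

private theorem map_ewR {R : Type} [CommRing R] {K : Type} [Field K] (φ : R →+* K) {r : ℕ}
    [NeZero r] (ω : R) (a : ZMod r) : φ (ewR ω a) = ew (φ ω) a := by
  unfold ewR ew
  rw [map_pow]

private theorem ewR_add {R : Type} [CommRing R] {r : ℕ} [NeZero r] {ω : R} (hω : ω ^ r = 1)
    (a b : ZMod r) : ewR ω (a + b) = ewR ω a * ewR ω b := by
  unfold ewR
  rw [← pow_add, ZMod.val_add]
  exact (pow_eq_pow_mod _ hω).symm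

/-- The action over the ring, without the factor. -/
private def actR {R : Type} [CommRing R] {V A U : Type} [Fintype V] [DecidableEq V]
    [AddCommGroup A] {r : ℕ} [NeZero r] (ω : R) (pt : U → V) (val : U → ZMod r → Bool)
    (mv : V → A) (q : A → A → ZMod r) (P : Fun ℤ U) (F : A → R) (a : A) : R :=
  ∑ T : V → ZMod r, (∑ x : V → ZMod r, ((P (enc pt val x) : ℤ) : R) * ewR ω (pr (-T) x)) *
    (ewR ω (q a (a + Flat.tot mv T)) * F (a + Flat.tot mv T))

private theorem act_map {R : Type} [CommRing R] {K : Type} [Field K] (φ : R →+* K)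
    {V A U : Type} [Fintype V] [DecidableEq V]
    [AddCommGroup A] {r : ℕ} [NeZero r] (ω : R) (pt : U → V) (val : U → ZMod r → Bool)
    (mv : V → A) (q : A → A → ZMod r) (P : Fun ℤ U) (F : A → R) :
    Flat.act (φ ω) pt val mv (fun b c => ew (φ ω) (q b c)) (castF K P) (fun a => φ (F a)) =
      ((Fintype.card (V → ZMod r) : ℕ) : K)⁻¹ • fun a => φ (actR ω pt val mv q P F a) := by
  funext a
  rw [Flat.act_apply, actX_apply, LinearMap.sum_apply, Finset.sum_apply, Pi.smul_apply, smul_eq_mul]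
  unfold actR
  rw [map_sum, mul_sum]
  refine sum_congr rfl fun T _ => ?_
  rw [LinearMap.smul_apply, Pi.smul_apply, smul_eq_mul, tr_apply]
  show ((Fintype.card (V → ZMod r) : K))⁻¹ * (∑ x, castF K P (enc pt val x) * chr (φ ω) (-T) x) *
    (ew (φ ω) (q a (a + Flat.tot mv T)) * φ (F (a + Flat.tot mv T))) = _
  rw [mul_assoc, map_mul, map_mul, map_ewR, map_sum]
  congr 2
  refine sum_congr rfl fun x _ => ?_
  rw [map_mul, map_intCast, map_ewR, castF_apply]
  rfl

/-- Functions over the quotient field lift to functions over the ring. -/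
private theorem lift_lev {R : Type} [CommRing R] {K₁ : Type} [Field K₁] {φ₁ : R →+* K₁}
    (h1 : Function.Surjective φ₁) {ω : R} {r : ℕ} [NeZero r] (hω : ω ^ r = 1)
    (hω₁ : IsPrimitiveRoot (φ₁ ω) r)
    {A Γ : Type} [AddCommGroup A] [Fintype Γ] (D : Γ → A) (z : Γ → ZMod r)
    (hz : ∀ t : Γ → ℤ, ∑ v, t v • D v = 0 → ∑ v, (t v : ZMod r) * z v = 0)
    (G : Set A) (f : A → K₁) (hf0 : ∀ b, b ∉ G → f b = 0)
    (hf1 : ∀ b v, f (b + D v) = ew (φ₁ ω) (z v) * f b) :
    ∃ F : A → R, ((∀ b, b ∉ G → F b = 0) ∧ ∀ b v, F (b + D v) = ewR ω (z v) * F b) ∧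
      f = fun a => φ₁ (F a) := by
  classical
  let S : (Γ → ℤ) → ZMod r := fun t => ∑ v, (t v : ZMod r) * z v
  have hS_add : ∀ t s, S (t + s) = S t + S s := by
    intro t s
    show ∑ v, (((t + s) v : ℤ) : ZMod r) * z v = _
    rw [← sum_add_distrib]
    refine sum_congr rfl fun v _ => ?_
    rw [Pi.add_apply, Int.cast_add, add_mul]
  have hS_neg : ∀ t, S (-t) = - S t := by
    intro t
    show ∑ v, (((-t) v : ℤ) : ZMod r) * z v = _
    rw [← sum_neg_distrib]
    refine sum_congr rfl fun v _ => ?_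
    rw [Pi.neg_apply, Int.cast_neg, neg_mul]
  have hwd : ∀ t s : Γ → ℤ, comb D t = comb D s → S t = S s := by
    intro t s hts
    have h2 : comb D (t + -s) = 0 := by rw [comb_add, comb_neg, hts, add_neg_cancel]
    have h3 : S (t + -s) = 0 := hz _ h2
    rw [hS_add, hS_neg] at h3
    exact add_neg_eq_zero.1 h3
  let chi : A → ZMod r := fun h => if hh : ∃ t, comb D t = h then S hh.choose else 0
  have hchi : ∀ t, chi (comb D t) = S t := by
    intro t
    have hh : ∃ s, comb D s = comb D t := ⟨t, rfl⟩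
    simp only [chi, dif_pos hh]
    exact hwd _ _ hh.choose_spec
  have hchi0 : chi 0 = 0 := by
    rw [← comb_zero D, hchi]
    exact sum_eq_zero fun v _ => by rw [Pi.zero_apply, Int.cast_zero, zero_mul]
  have hchi_add : ∀ h ∈ combGroup D, ∀ h' ∈ combGroup D, chi (h + h') = chi h + chi h' := by
    rintro _ ⟨t, rfl⟩ _ ⟨s, rfl⟩
    rw [← comb_add, hchi, hchi, hchi, hS_add]
  have hchiD : ∀ v, chi (D v) = z v := by
    intro v
    rw [← comb_single D v, hchi]
    show ∑ w, ((Pi.single v (1 : ℤ) : Γ → ℤ) w : ZMod r) * z w = z v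
    rw [sum_eq_single v]
    · rw [Pi.single_eq_same, Int.cast_one, one_mul]
    · intro w _ hw
      rw [Pi.single_eq_of_ne hw, Int.cast_zero, zero_mul]
    · intro h
      exact absurd (mem_univ v) h
  let H := combGroup D
  have hDH : ∀ v, D v ∈ H := fun v => ⟨Pi.single v 1, comb_single D v⟩
  obtain ⟨l, hl0, hl⟩ : ∃ l : K₁ → R, l 0 = 0 ∧ ∀ y, φ₁ (l y) = y := by
    refine ⟨fun y => if y = 0 then 0 else Function.surjInv h1 y, if_pos rfl, fun y => ?_⟩
    by_cases hy : y = 0
    · show φ₁ (if y = 0 then 0 else Function.surjInv h1 y) = y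
      rw [if_pos hy, map_zero, hy]
    · show φ₁ (if y = 0 then 0 else Function.surjInv h1 y) = y
      rw [if_neg hy]
      exact Function.surjInv_eq h1 y
  have hcov : ∀ b, f b = ew (φ₁ ω) (chi (b - rep H b)) * f (rep H b) := by
    intro b
    have h2 := cov_closure D (fun v => ew (φ₁ ω) (z v)) (fun h => ew (φ₁ ω) (chi h)) H
      (combGroup_eq D) (by show ew (φ₁ ω) (chi 0) = 1; rw [hchi0, ew_zero])
      (fun h hh h' hh' => by
        show ew (φ₁ ω) (chi (h + h')) = ew (φ₁ ω) (chi h) * ew (φ₁ ω) (chi h')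
        rw [hchi_add h hh h' hh', ew_add hω₁])
      (fun v => by show ew (φ₁ ω) (chi (D v)) = _; rw [hchiD]) f hf1 _ (sub_rep_mem H b) (rep H b)
    have e : rep H b + (b - rep H b) = b := by abel
    rw [e] at h2
    exact h2
  refine ⟨fun b => ewR ω (chi (b - rep H b)) * l (f (rep H b)), ⟨fun b hb => ?_, fun b v => ?_⟩, ?_⟩
  · have h2 := hcov b
    rw [hf0 b hb] at h2
    have h3 : f (rep H b) = 0 := by
      rcases mul_eq_zero.1 h2.symm with h4 | h4
      · exact absurd h4 (ew_ne_zero hω₁ _)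
      · exact h4
    show ewR ω (chi (b - rep H b)) * l (f (rep H b)) = 0
    rw [h3, hl0, mul_zero]
  · show ewR ω (chi (b + D v - rep H (b + D v))) * l (f (rep H (b + D v))) =
      ewR ω (z v) * (ewR ω (chi (b - rep H b)) * l (f (rep H b)))
    rw [rep_add H b _ (hDH v)]
    have e : b + D v - rep H b = D v + (b - rep H b) := by abel
    rw [e, hchi_add _ (hDH v) _ (sub_rep_mem H b), hchiD, ewR_add hω, mul_assoc]
  · funext b
    show f b = φ₁ (ewR ω (chi (b - rep H b)) * l (f (rep H b)))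
    rw [map_mul, map_ewR, hl]
    exact hcov b

theorem semi_twist {R : Type} [CommRing R] {K₀ K₁ : Type} [Field K₀] [Field K₁]
    {φ₀ : R →+* K₀} {φ₁ : R →+* K₁} (h0 : Function.Injective φ₀) (h1 : Function.Surjective φ₁)
    {ω : R} {r : ℕ} [NeZero r] (hω₀ : IsPrimitiveRoot (φ₀ ω) r) (hω₁ : IsPrimitiveRoot (φ₁ ω) r)
    {V A U Γ : Type} [Fintype V] [DecidableEq V] [AddCommGroup A] [Finite A] [Fintype Γ]
    (pt : U → V) (val : U → ZMod r → Bool) (mv : V → A) (q : A → A → ZMod r) (D : Γ → A)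
    (z : Γ → ZMod r)
    (hz : ∀ t : Γ → ℤ, ∑ v, t v • D v = 0 → ∑ v, (t v : ZMod r) * z v = 0)
    (G : ℕ → Set A) (hG : ∀ i b v, b ∈ G i → b + D v ∈ G i) (i : ℕ) (P : Fun ℤ U) :
    Module.finrank K₁ ((lev D (fun v => ew (φ₁ ω) (z v)) G i).map
      (Flat.act (φ₁ ω) pt val mv (fun b c => ew (φ₁ ω) (q b c)) (castF K₁ P))) ≤
    Module.finrank K₀ ((lev D (fun v => ew (φ₀ ω) (z v)) G i).map
      (Flat.act (φ₀ ω) pt val mv (fun b c => ew (φ₀ ω) (q b c)) (castF K₀ P))) := by
  have hω : ω ^ r = 1 := by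
    apply h0
    rw [map_pow, map_one]
    exact hω₀.pow_eq_one
  refine finrank_map_le_of_lift (φ₁ := φ₁) h0 {F : A → R | (∀ b, b ∉ G i → F b = 0) ∧
    ∀ b v, F (b + D v) = ewR ω (z v) * F b} (actR ω pt val mv q P) ?_ ?_
    (inv_ne_zero (card_ne_zero (V := V) hω₀)) (inv_ne_zero (card_ne_zero (V := V) hω₁)) ?_ ?_
  · intro F hF
    rw [mem_lev]
    refine ⟨fun b hb => ?_, fun b v => ?_⟩
    · rw [hF.1 b hb, map_zero]
    · rw [hF.2 b v, map_mul, map_ewR]
  · intro f hf
    rw [mem_lev] at hf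
    exact lift_lev h1 hω hω₁ D z hz (G i) f hf.1 hf.2
  · intro F _
    exact act_map φ₀ ω pt val mv q P F
  · intro F _
    exact act_map φ₁ ω pt val mv q P F

end Pool.Agent.MP_9cec2c_lc.MX
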