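import Pool.Agent.Lib.MP_9cec2c_lc.MXFam
import Pool.Agent.Lib.MP_9cec2c_lc.MXNF
import Pool.Agent.Lib.MP_9cec2c_lc.MXSemi
import Pool.Agent.Lib.MP_9cec2c_lc.Mg.G011
import Pool.Agent.Lib.MP_9cec2c_lc.FLEnd2
import Pool.Agent.Lib.MP_9cec2c_lc.CQMain

/-!
The family of worlds of the Tseitin contradiction modulo `r` on the complete graph over a field of
characteristic zero and finite fields of several characteristics.
-/

set_option autoImplicit false
set_option linter.unusedSectionVars false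

namespace Pool.Agent.MP_9cec2c_lc.MX

open Finset Frege Flat

/-- A field with a homomorphism from `R` which maps `ω` to a primitive root of unity. -/
structure FD (R : Type) [CommRing R] (ω : R) (r : ℕ) : Type 1 where
  K : Type
  inst : Field K
  φ : R →+* K
  prim : IsPrimitiveRoot (φ ω) r

instance {R : Type} [CommRing R] {ω : R} {r : ℕ} (x : FD R ω r) : Field x.K := x.inst

section world

open Herm

variable {R : Type} [CommRing R] {ω : R} {r : ℕ} [NeZero r] {N m : ℕ} [NeZero m]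

/-- The levels over the field `x`. -/
def lvl (x : FD R ω r) (hrm : r ∣ m) (Gm : Finset (Cfg2 N m)) (v0 : Fin N) (b : Fin N → ZMod r)
    (a : ℕ) : Submodule x.K (Cfg2 N m → x.K) :=
  lev (fun v : Fin N => (mvRow2 v univ (gen m r) : Cfg2 N m))
    (fun v => ew (x.φ ω) (b v + if v = v0 then -∑ u, b u else 0)) (Nbh hrm Gm) a

/-- The action over the field `x`. -/
noncomputable def actn (x : FD R ω r) (hrm : r ∣ m) (T : (Fin N → ℂ) → ℂ) (ε : ℝ) (v0 : Fin N)
    (b : Fin N → ZMod r) :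
    Fun x.K (TVar N × ZMod r) →ₗ[x.K] (Cfg2 N m → x.K) →ₗ[x.K] (Cfg2 N m → x.K) :=
  Flat.act (x.φ ω) Prod.fst oneHot (mvVar2 N m r)
    (fun c c' => ew (x.φ ω) ((-∑ u, b u) * sig hrm T ε v0 c c'))

variable {T : (Fin N → ℂ) → ℂ} {ε : ℝ} {L : ℕ} {Gm : Finset (Cfg2 N m)} {hrm : r ∣ m}

theorem lvl_world (x : FD R ω r) (hT : Spectator (m := m) hrm T) (hε : Small (m := m) hrm ε)
    (v0 : Fin N) (b : Fin N → ZMod r) (hG : GoodSet T r L ε Gm) :
    World (lvl x hrm Gm v0 b) (actn x hrm T ε v0 b) L := by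
  have hTw := twist (T := T) x.prim (-∑ u, b u) hT hε v0 hG
  have hsig := sigK_gauge (T := T) (ε := ε) (x.φ ω) (-∑ u, b u) hrm v0
  exact hTw.world (D := fun v : Fin N => (mvRow2 v univ (gen m r) : Cfg2 N m))
    (kap := kapR (x.φ ω) (-∑ u, b u) v0 b) x.prim hsig Prod.fst oneHot

open Classical in
theorem lvl_eq (x : FD R ω r) (v0 : Fin N) (b : Fin N → ZMod r) (i : ℕ) :
    lvl x hrm Gm v0 b i =
      covR x.K (fun v : Fin N => (mvRow2 v univ (gen m r) : Cfg2 N m))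
        (kapR (x.φ ω) (-∑ u, b u) v0 b) (univ.filter fun c => c ∈ Nbh hrm Gm i) := by
  ext f
  unfold lvl
  rw [mem_lev, mem_covR]
  simp only [mem_filter, mem_univ, true_and]
  exact Iff.rfl

open Classical in
theorem inv_filter (i : ℕ) : ∀ (c : Cfg2 N m) (v : Fin N), c ∈ (univ.filter fun c => c ∈ Nbh hrm Gm i) →
    c + mvRow2 v univ (gen m r) ∈ (univ.filter fun c => c ∈ Nbh hrm Gm i) := by
  intro c v hc
  rw [mem_filter] at hc ⊢
  refine ⟨mem_univ _, ?_⟩
  rw [mvRow2_univ_gen hrm]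
  exact Nbh_gau hrm Gm hc.2 _

open Classical in
theorem lvl_card (x : FD R ω r) (v0 : Fin N) (b : Fin N → ZMod r) (i : ℕ) :
    (univ.filter fun c => c ∈ Nbh hrm Gm i).card =
      r ^ (Fintype.card (Fin N) - 1) * Module.finrank x.K (lvl x hrm Gm v0 b i) := by
  rw [lvl_eq]
  exact card_eq_finrank_covR r _ _ v0 (row_torsion hrm) (sum_row hrm) (row_ker hrm)
    (kapR_pow x.prim _ v0 b) (prod_kapR x.prim v0 b) _ (inv_filter i)

theorem lvl_dim (x y : FD R ω r) (v0 : Fin N) (b : Fin N → ZMod r) (i : ℕ) :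
    Module.finrank x.K (lvl x hrm Gm v0 b i) = Module.finrank y.K (lvl y hrm Gm v0 b i) := by
  classical
  have h1 := lvl_card (hrm := hrm) (Gm := Gm) x v0 b i
  have h2 := lvl_card (hrm := hrm) (Gm := Gm) y v0 b i
  rw [h1] at h2
  have h3 : 0 < r ^ (Fintype.card (Fin N) - 1) := Nat.pow_pos (Nat.pos_of_ne_zero (NeZero.ne r))
  exact Nat.eq_of_mul_eq_mul_left h3 h2

theorem lvl_pos (x : FD R ω r) (v0 : Fin N) (b : Fin N → ZMod r) {C : ℕ}
    (hcard : m ^ Fintype.card (Edge N) ≤ C * Gm.card) :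
    0 < Module.finrank x.K (lvl x hrm Gm v0 b 0) := by
  classical
  have hsub : Gm ⊆ univ.filter fun c => c ∈ Nbh hrm Gm 0 := by
    intro a ha
    rw [mem_filter]
    exact ⟨mem_univ _, subset_Nbh hrm Gm a ha⟩
  have hm : 0 < m := Nat.pos_of_ne_zero (NeZero.ne m)
  have hne : Gm.Nonempty := by
    rw [nonempty_iff_ne_empty]
    rintro rfl
    rw [card_empty, mul_zero] at hcard
    exact absurd hcard (not_le.2 (Nat.pow_pos hm))
  rw [lvl_eq]
  exact finrank_covR_pos r _ _ v0 (row_torsion hrm) (sum_row hrm) (row_ker hrm)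
    (kapR_pow x.prim _ v0 b) (prod_kapR x.prim v0 b) _ (inv_filter 0) (hne.mono hsub)

theorem lvl_grow (x : FD R ω r) (v0 : Fin N) (b : Fin N → ZMod r) {C : ℕ}
    (hcard : m ^ Fintype.card (Edge N) ≤ C * Gm.card) :
    Module.finrank x.K (lvl x hrm Gm v0 b L) ≤ C * Module.finrank x.K (lvl x hrm Gm v0 b 0) := by
  classical
  have hsub : Gm ⊆ univ.filter fun c => c ∈ Nbh hrm Gm 0 := by
    intro a ha
    rw [mem_filter]
    exact ⟨mem_univ _, subset_Nbh hrm Gm a ha⟩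
  have hle : (univ.filter fun c => c ∈ Nbh hrm Gm L).card ≤
      C * (univ.filter fun c => c ∈ Nbh hrm Gm 0).card := by
    have h1 : (univ.filter fun c => c ∈ Nbh hrm Gm L).card ≤ m ^ Fintype.card (Edge N) := by
      refine (card_le_univ _).trans ?_
      rw [Fintype.card_fun, ZMod.card]
    exact h1.trans (hcard.trans (Nat.mul_le_mul_left _ (card_le_card hsub)))
  rw [lvl_eq, lvl_eq]
  exact finrank_covR_le r _ _ v0 (row_torsion hrm) (sum_row hrm) (row_ker hrm)
    (kapR_pow x.prim _ v0 b) (prod_kapR x.prim v0 b) _ _ (inv_filter 0) (inv_filter L) C hle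

theorem lvl_kills (x : FD R ω r) (hr : 1 < r) (hT : Spectator (m := m) hrm T)
    (hε : Small (m := m) hrm ε) (v0 : Fin N) (b : Fin N → ZMod r) (hG : GoodSet T r L ε Gm)
    {a : ℕ} (ha : a + max r 3 + 3 ≤ L) :
    CQ.Kills (fun j => lvl x hrm Gm v0 b (a + j)) (actn x hrm T ε v0 b)
      (tseitinMod N r b : Set (CQ.Clause (TVar N × ZMod r))) := by
  classical
  intro κ hκ u hu
  have hTw := twist (T := T) x.prim (-∑ u, b u) hT hε v0 hG
  have hP : (fun y : TVar N × ZMod r → Bool => if CQ.Holds y κ then (0 : x.K) else 1) ∈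
      Pol x.K (TVar N × ZMod r) (max r 3) := by
    have hw : (κ.image Prod.fst).card ≤ max r 3 :=
      card_image_le.trans (tseitinMod_width b κ hκ)
    refine Pol_mono hw (mem_Pol_of_depends (κ.image Prod.fst) ?_)
    intro y y' hxy
    have h1 : CQ.Holds y κ ↔ CQ.Holds y' κ := by
      unfold CQ.Holds
      refine exists_congr fun l => and_congr_right fun hl => ?_
      rw [hxy l.1 (mem_image_of_mem _ hl)]
    by_cases h : CQ.Holds y κ
    · rw [if_pos h, if_pos (h1.1 h)]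
    · rw [if_neg h, if_neg fun h2 => h (h1.2 h2)]
  refine tseitinMod_kill (b := b) (ε := fun v => ew (x.φ ω) (if v = v0 then -(-∑ u, b u) else 0))
    x.prim hr hrm hTw (fun v c hc => sigK_row (x.φ ω) (-∑ u, b u) hT hε v0 hG v hc)
    (row_mul_kapR x.prim (-∑ u, b u) v0 b) (i := a) (e := max r 3) ha hu hκ hP ?_
  intro y hy l hl hyl
  apply hy
  rw [if_pos]
  exact ⟨l, hl, hyl⟩

/-- The ranks over a residue field are at most the ranks over a field that contains the ring. -/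
theorem lvl_semi {x y : FD R ω r} (hx : Function.Surjective x.φ) (hy : Function.Injective y.φ)
    (v0 : Fin N) (b : Fin N → ZMod r) (i : ℕ) (P : Fun ℤ (TVar N × ZMod r)) :
    Module.finrank x.K ((lvl x hrm Gm v0 b i).map (actn x hrm T ε v0 b (castF x.K P))) ≤
      Module.finrank y.K ((lvl y hrm Gm v0 b i).map (actn y hrm T ε v0 b (castF y.K P))) := by
  refine semi_twist hy hx y.prim x.prim Prod.fst oneHot (mvVar2 N m r)
    (fun c c' => (-∑ u, b u) * sig hrm T ε v0 c c')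
    (fun v : Fin N => (mvRow2 v univ (gen m r) : Cfg2 N m))
    (fun v => b v + if v = v0 then -∑ u, b u else 0) ?_ (Nbh hrm Gm) ?_ i P
  · intro t ht
    have h1 : ∀ v, ((t v : ℤ) : ZMod r) = t v0 := by
      intro v
      have h2 := (ZMod.intCast_zmod_eq_zero_iff_dvd (t v - t v0) r).2 (row_ker hrm t ht v v0)
      rw [Int.cast_sub] at h2
      exact sub_eq_zero.1 h2
    simp only [h1]
    rw [← mul_sum, sum_add_distrib, sum_ite_eq' univ v0, if_pos (mem_univ _), add_neg_cancel,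
      mul_zero]
  · intro i c v hc
    show c + mvRow2 v univ (gen m r) ∈ Nbh hrm Gm i
    rw [mvRow2_univ_gen hrm]
    exact Nbh_gau hrm Gm hc _

end world

/-- **The family of worlds of the Tseitin contradiction modulo `r`** on `K_N`. -/
theorem fam_KN (r : ℕ) [NeZero r] (hr : 1 < r) (hR : RMT2 r) (Q : Finset ℕ)
    (hQ : ∀ q ∈ Q, q.Prime ∧ q.Coprime r) :
    ∃ (ι : Type) (_ : Fintype ι) (K : ι → Type) (_ : ∀ i, Field (K i)) (o : ι) (iq : ℕ → ι),
      (∀ q ∈ Q, Finite (K (iq q)) ∧ CharP (K (iq q)) q) ∧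
      ∃ x : ℝ, 0 < x ∧ ∃ N₁ : ℕ, ∀ N ≥ N₁, ∀ A : ℕ, (A : ℝ) ≤ (N : ℝ) ^ x → 1 ≤ N →
        max r 3 + 3 ≤ A → ∀ b : Fin N → ZMod r,
        ∃ (W : ι → Type) (_ : ∀ i, AddCommGroup (W i)) (_ : ∀ i, Module (K i) (W i))
          (_ : ∀ i, FiniteDimensional (K i) (W i)) (M : ∀ i, ℕ → Submodule (K i) (W i))
          (act : ∀ i, Fun (K i) (TVar N × ZMod r) →ₗ[K i] W i →ₗ[K i] W i),
          Family M act A o ∧ 0 < Module.finrank (K o) (M o 0) ∧
          Module.finrank (K o) (M o A) ≤ 256 * Module.finrank (K o) (M o 0) ∧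
          ∀ i, ∀ a, a + max r 3 + 3 ≤ A → CQ.Kills (fun j => M i (a + j)) (act i)
            (tseitinMod N r b : Set (CQ.Clause (TVar N × ZMod r))) := by
  classical
  obtain ⟨R, _, _, K₀, _, φ₀, ω, hinj, hω₀, hfin⟩ := exists_ring r
  obtain ⟨x₀, hx₀⟩ : ∃ x₀ : FD R ω r, x₀ = ⟨K₀, inferInstance, φ₀, hω₀⟩ := ⟨_, rfl⟩
  have hx₀i : Function.Injective x₀.φ := by
    rw [hx₀]
    exact hinj
  have hfd : ∀ q : {q // q ∈ Q}, ∃ x : FD R ω r, Function.Surjective x.φ ∧ Finite x.K ∧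
      CharP x.K q := by
    intro q
    obtain ⟨K₁, f1, f2, f3, φ₁, h1, h2⟩ := hfin q.1 (hQ q.1 q.2).1 (hQ q.1 q.2).2
    exact ⟨⟨K₁, f1, φ₁, h2⟩, h1, inferInstance, f3⟩
  choose xq hxq1 hxq2 hxq3 using hfd
  obtain ⟨fd, hfd⟩ : ∃ fd : Option {q // q ∈ Q} → FD R ω r, fd = fun i => i.elim x₀ xq := ⟨_, rfl⟩
  have hfd0 : fd none = x₀ := by rw [hfd]; rfl
  have hfdq : ∀ q, fd (some q) = xq q := fun q => by rw [hfd]; rfl
  obtain ⟨ε, hε, hsmall⟩ := Flat.Herm.exists_small_unif r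
  obtain ⟨x, hx, N₁, hN₁⟩ := hR ε hε
  refine ⟨Option {q // q ∈ Q}, inferInstance, fun i => (fd i).K, fun i => inferInstance, none,
    fun q => if h : q ∈ Q then some ⟨q, h⟩ else none, ?_, x, hx, N₁, ?_⟩
  · intro q hq
    have key : ∀ i : Option {q // q ∈ Q}, i = some ⟨q, hq⟩ →
        Finite (fd i).K ∧ CharP (fd i).K q := by
      rintro i rfl
      rw [hfdq]
      exact ⟨hxq2 ⟨q, hq⟩, hxq3 ⟨q, hq⟩⟩
    exact key _ (dif_pos hq)
  · intro N hN A hA hN1 hA3 b
    obtain ⟨m, hm, cc, Gm, hrm, hcard, hG⟩ := hN₁ N hN A hA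
    have hT := Flat.Herm.spectator_sum hrm fun u => Flat.ph (cc u)
    have v0 : Fin N := ⟨0, by omega⟩
    refine ⟨fun i => (Cfg2 N m → (fd i).K), fun i => inferInstance, fun i => inferInstance,
      fun i => inferInstance, fun i => lvl (fd i) hrm Gm v0 b,
      fun i => actn (fd i) hrm _ ε v0 b, ⟨fun i => lvl_world (fd i) hT (hsmall m hrm) v0 b hG,
        fun i a _ => lvl_dim _ _ v0 b a, ?_⟩, lvl_pos _ v0 b hcard, lvl_grow _ v0 b hcard,
      fun i a ha => lvl_kills (fd i) hr hT (hsmall m hrm) v0 b hG ha⟩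
    intro i a _ P
    rcases i with _ | q
    · exact le_rfl
    · refine lvl_semi ?_ ?_ v0 b a P
      · rw [hfdq]
        exact hxq1 q
      · rw [hfd0]
        exact hx₀i

end Pool.Agent.MP_9cec2c_lc.MX
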