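import Pool.Agent.Lib.MP_9cec2c_lc.TWMain
import Pool.Agent.Lib.MP_9cec2c_lc.CEFinal

/-!
The disjunction of the Tseitin formulas modulo 2 and modulo 3.
-/

set_option autoImplicit false
set_option linter.unusedSectionVars false

namespace Pool.Agent.MP_9cec2c_lc.TT

open Finset
open FG (Rule Refutes size Form listCNF mem_listCNF)
open Flat (orCNF RMT2)

variable {V E : Type} [Fintype V] [Fintype E] [DecidableEq V] [DecidableEq E] {src tgt : E → V}

/-- The formula itself. -/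
theorem above_self {r : ℕ} [NeZero r] {Δ : ℕ} (hr : 2 ≤ r) (hΔ : ∀ v, (inc src tgt v).card ≤ Δ)
    (s : V → ZMod r) :
    Above id (tseitin src tgt r s) (max r Δ) (tseitinCNF src tgt r s) := by
  intro D hD
  refine ⟨tseitin_width hr hΔ D hD, ?_⟩
  obtain ⟨C, hC, rfl⟩ := mem_listCNF.1 hD
  exact ⟨C, hC, fun l hl => mem_toList.2 hl⟩

theorem mem_both {s : V → ZMod 2} {s' : V → ZMod 3}
    {D : List (((E × ZMod 2) ⊕ (E × ZMod 3)) × Bool)} (hD : D ∈ bothCNF src tgt s s') :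
    ∃ C ∈ tseitin src tgt 2 s, ∃ C' ∈ tseitin src tgt 3 s',
      D = ((C.image fun l => (Sum.inl l.1, l.2)) ∪ (C'.image fun l => (Sum.inr l.1, l.2))).toList := by
  obtain ⟨κ, hκ, rfl⟩ := mem_listCNF.1 hD
  unfold orCNF at hκ
  obtain ⟨q, hq, rfl⟩ := mem_image.1 hκ
  rw [mem_product] at hq
  exact ⟨q.1, hq.1, q.2, hq.2, rfl⟩

theorem card_clause_le {r : ℕ} [NeZero r] {Δ : ℕ} (hr : 2 ≤ r)
    (hΔ : ∀ v, (inc src tgt v).card ≤ Δ) {s : V → ZMod r} {C : Finset ((E × ZMod r) × Bool)}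
    (hC : C ∈ tseitin src tgt r s) : C.card ≤ max r Δ := by
  have h1 := tseitin_width hr hΔ C.toList (mem_listCNF.2 ⟨C, hC, rfl⟩)
  rwa [length_toList] at h1

theorem both_width {Δ : ℕ} (hΔ : ∀ v, (inc src tgt v).card ≤ Δ) {s : V → ZMod 2}
    {s' : V → ZMod 3} : ∀ D ∈ bothCNF src tgt s s', D.length ≤ 2 * max 3 Δ := by
  intro D hD
  obtain ⟨C, hC, C', hC', rfl⟩ := mem_both hD
  rw [length_toList]
  refine (card_union_le _ _).trans ?_
  have h1 := card_clause_le (by norm_num) hΔ hC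
  have h2 := card_clause_le (by norm_num) hΔ hC'
  have h3 := card_image_le (s := C)
    (f := fun l => ((Sum.inl l.1, l.2) : ((E × ZMod 2) ⊕ (E × ZMod 3)) × Bool))
  have h4 := card_image_le (s := C')
    (f := fun l => ((Sum.inr l.1, l.2) : ((E × ZMod 2) ⊕ (E × ZMod 3)) × Bool))
  have h5 : max 2 Δ ≤ max 3 Δ := max_le_max (by norm_num) le_rfl
  omega

theorem above_left {Δ : ℕ} (hΔ : ∀ v, (inc src tgt v).card ≤ Δ) (s : V → ZMod 2)
    (s' : V → ZMod 3) :
    Above Sum.inl (tseitin src tgt 2 s) (2 * max 3 Δ) (bothCNF src tgt s s') := by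
  intro D hD
  refine ⟨both_width hΔ D hD, ?_⟩
  obtain ⟨C, hC, C', hC', rfl⟩ := mem_both hD
  exact ⟨C, hC, fun l hl => mem_toList.2 (mem_union_left _ (mem_image.2 ⟨l, hl, rfl⟩))⟩

theorem above_right {Δ : ℕ} (hΔ : ∀ v, (inc src tgt v).card ≤ Δ) (s : V → ZMod 2)
    (s' : V → ZMod 3) :
    Above Sum.inr (tseitin src tgt 3 s') (2 * max 3 Δ) (bothCNF src tgt s s') := by
  intro D hD
  refine ⟨both_width hΔ D hD, ?_⟩
  obtain ⟨C, hC, C', hC', rfl⟩ := mem_both hD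
  exact ⟨C', hC', fun l hl => mem_toList.2 (mem_union_right _ (mem_image.2 ⟨l, hl, rfl⟩))⟩

theorem both_unsat {s : V → ZMod 2} {s' : V → ZMod 3} (hs : ∑ v, s v ≠ 0) (hs' : ∑ v, s' v ≠ 0)
    (x : (E × ZMod 2) ⊕ (E × ZMod 3) → Bool) :
    ∃ D ∈ bothCNF src tgt s s', ∀ l ∈ D, x l.1 ≠ l.2 := by
  classical
  obtain ⟨D, hD, hx⟩ := tseitin_unsat (src := src) (tgt := tgt) hs fun y => x (Sum.inl y)
  obtain ⟨D', hD', hx'⟩ := tseitin_unsat (src := src) (tgt := tgt) hs' fun y => x (Sum.inr y)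
  obtain ⟨C, hC, rfl⟩ := mem_listCNF.1 hD
  obtain ⟨C', hC', rfl⟩ := mem_listCNF.1 hD'
  refine ⟨_, mem_listCNF.2 ⟨_, mem_image.2 ⟨(C, C'), mem_product.2 ⟨hC, hC'⟩, rfl⟩, rfl⟩, ?_⟩
  intro l hl
  rcases mem_union.1 (mem_toList.1 hl) with h | h
  · obtain ⟨l', hl', rfl⟩ := mem_image.1 h
    exact hx l' (mem_toList.2 hl')
  · obtain ⟨l', hl', rfl⟩ := mem_image.1 h
    exact hx' l' (mem_toList.2 hl')

theorem card_tseitin {r : ℕ} [NeZero r] {Δ : ℕ} (hΔ : ∀ v, (inc src tgt v).card ≤ Δ)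
    {s : V → ZMod r} : (tseitin src tgt r s).card ≤
      (r ^ 2 + 1) * Fintype.card E + r ^ Δ * Fintype.card V := by
  have h1 := tseitin_length (s := s) hΔ
  unfold tseitinCNF listCNF at h1
  rwa [List.length_map, length_toList] at h1

theorem both_length {Δ : ℕ} (hΔ : ∀ v, (inc src tgt v).card ≤ Δ) {s : V → ZMod 2}
    {s' : V → ZMod 3} : (bothCNF src tgt s s').length ≤
      (5 * Fintype.card E + 2 ^ Δ * Fintype.card V) *
        (10 * Fintype.card E + 3 ^ Δ * Fintype.card V) := by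
  unfold bothCNF listCNF orCNF
  rw [List.length_map, length_toList]
  refine card_image_le.trans ?_
  rw [card_product]
  exact Nat.mul_le_mul (card_tseitin hΔ) (card_tseitin hΔ)

theorem order_two {a : ZMod 2} (ha : a ≠ 0) : addOrderOf a = 2 := by
  have h1 : addOrderOf a ∣ 2 := by
    have := addOrderOf_dvd_card (x := a)
    rwa [ZMod.card] at this
  rcases (Nat.dvd_prime Nat.prime_two).1 h1 with h | h
  · exact absurd (AddMonoid.addOrderOf_eq_one_iff.1 h) ha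
  · exact h

theorem order_three {a : ZMod 3} (ha : a ≠ 0) : addOrderOf a = 3 := by
  have h1 : addOrderOf a ∣ 3 := by
    have := addOrderOf_dvd_card (x := a)
    rwa [ZMod.card] at this
  rcases (Nat.dvd_prime Nat.prime_three).1 h1 with h | h
  · exact absurd (AddMonoid.addOrderOf_eq_one_iff.1 h) ha
  · exact h

/-- One family of formulas for all primes. -/
theorem main_both (p Δ : ℕ) [hp : Fact p.Prime] (hR : ∀ r', 2 ≤ r' → RMT2 r') {S : Set Rule}
    (hS : S.Finite) (hsound : ∀ R ∈ S, R.Sound p) :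
    ∃ c : ℝ, 0 < c ∧ ∀ (V E : Type) [Fintype V] [Fintype E] [DecidableEq V] [DecidableEq E]
      (src tgt : E → V), Connected src tgt → (∀ v, (inc src tgt v).card ≤ Δ) →
      ∀ w : ℕ, ¬ HasTreeDec src tgt w → ∀ (s : V → ZMod 2) (s' : V → ZMod 3),
      ∑ v, s v ≠ 0 → ∑ v, s' v ≠ 0 →
      ∀ (d l : ℕ) (L : Fin l → Form ((E × ZMod 2) ⊕ (E × ZMod 3))),
        Refutes S d (bothCNF src tgt s s') L →
        Real.exp (c * (w : ℝ) ^ (c / (d + 1))) ≤ size L := by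
  by_cases hp2 : p = 2
  · obtain ⟨c, hc, h⟩ := main_allF p 3 Δ (2 * max 3 Δ) hR hS hsound
    refine ⟨c, hc, fun V E _ _ _ _ src tgt hconn hΔ w hw s s' _ hs' d l L hL => ?_⟩
    refine h V E src tgt hconn hΔ w hw s' hs' ?_ _ Sum.inr Sum.inr_injective _
      (above_right hΔ s s') d l L hL
    rw [order_three hs', hp2]
    decide
  · obtain ⟨c, hc, h⟩ := main_allF p 2 Δ (2 * max 3 Δ) hR hS hsound
    refine ⟨c, hc, fun V E _ _ _ _ src tgt hconn hΔ w hw s s' hs _ d l L hL => ?_⟩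
    refine h V E src tgt hconn hΔ w hw s hs ?_ _ Sum.inl Sum.inl_injective _
      (above_left hΔ s s') d l L hL
    rw [order_two hs]
    exact (Nat.coprime_primes hp.out Nat.prime_two).2 hp2

end Pool.Agent.MP_9cec2c_lc.TT
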