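import Pool.Agent.Lib.MP_9cec2c_lc.TTSplit

/-!
Many disjoint connected sets, each with many vertices of a given set.
-/

set_option autoImplicit false
set_option linter.unusedSectionVars false

namespace Pool.Agent.MP_9cec2c_lc.TT

open Finset

variable {V E : Type} [Fintype V] [Fintype E] [DecidableEq V] [DecidableEq E] {src tgt : E → V}

/-- TASK TTClus. Many disjoint connected sets.

PROOF. Induction on `m` (for all `Y`). For `m + 1`: `s ≤ (m + 1) * (Δ * s) ≤ (T ∩ Y).card`; `exists_split`
gives `X`; `(T ∩ (Y \ X)).card = (T ∩ Y).card - (T ∩ X).card ≥ m * (Δ * s)`; induction for `Y \ X`;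
`Fin.cons X C`. -/
theorem exists_clusters {T : Finset V} {Δ s : ℕ} (hΔ : ∀ v, (inc src tgt v).card ≤ Δ) (hΔ1 : 1 ≤ Δ)
    (hs : 1 ≤ s) (m : ℕ) : ∀ Y : Finset V, ConnOn src tgt Y → m * (Δ * s) ≤ (T ∩ Y).card →
    ∃ C : Fin m → Finset V, (∀ i, C i ⊆ Y ∧ ConnOn src tgt (C i) ∧ s ≤ (T ∩ C i).card) ∧
      ∀ i j, i ≠ j → Disjoint (C i) (C j) := by
  induction m with
  | zero => exact fun Y _ _ => ⟨fun i => i.elim0, fun i => i.elim0, fun i => i.elim0⟩
  | succ m ih =>
    intro Y hY hT
    have h1 : s ≤ Δ * s := Nat.le_mul_of_pos_left s hΔ1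
    have h2 : (m + 1) * (Δ * s) = m * (Δ * s) + Δ * s := by ring
    have h3 : s ≤ (T ∩ Y).card := by omega
    obtain ⟨X, hXY, hX, hYX, hsX, hXs⟩ := exists_split hY hΔ hΔ1 hs h3
    have h4 : (T ∩ Y).card = (T ∩ X).card + (T ∩ (Y \ X)).card := by
      rw [← Finset.card_union_of_disjoint]
      · congr 1
        rw [← Finset.inter_union_distrib_left, Finset.union_sdiff_of_subset hXY]
      · exact Finset.disjoint_of_subset_left Finset.inter_subset_right
          (Finset.disjoint_of_subset_right Finset.inter_subset_right Finset.disjoint_sdiff)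
    obtain ⟨C, hC, hdisj⟩ := ih (Y \ X) hYX (by omega)
    have h5 : ∀ i, Disjoint X (C i) := fun i =>
      Finset.disjoint_of_subset_right (hC i).1 Finset.disjoint_sdiff
    refine ⟨Fin.cons X C, fun i => ?_, fun i j hij => ?_⟩
    · refine Fin.cases ?_ (fun i => ?_) i
      · rw [Fin.cons_zero]
        exact ⟨hXY, hX, hsX⟩
      · rw [Fin.cons_succ]
        exact ⟨(hC i).1.trans Finset.sdiff_subset, (hC i).2.1, (hC i).2.2⟩
    · revert hij
      refine Fin.cases (fun hij => ?_) (fun i hij => ?_) i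
      · revert hij
        refine Fin.cases (fun hij => absurd rfl hij) (fun j _ => ?_) j
        rw [Fin.cons_zero, Fin.cons_succ]
        exact h5 j
      · revert hij
        refine Fin.cases (fun _ => ?_) (fun j hij => ?_) j
        · rw [Fin.cons_zero, Fin.cons_succ]
          exact (h5 i).symm
        · rw [Fin.cons_succ, Fin.cons_succ]
          exact hdisj i j fun h => hij (by rw [h])

end Pool.Agent.MP_9cec2c_lc.TT
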