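import Pool.Agent.Lib.MP_9cec2c_lc.TTChain

/-!
If all cuts between two sets have at least `s` edges, then for all weights of the edges some path
between the sets has at most the `s`-th part of the total weight. Congestion of multiflows.
-/

set_option autoImplicit false
set_option linter.unusedSectionVars false

namespace Pool.Agent.MP_9cec2c_lc.TT

open Finset

variable {V E : Type} [Fintype V] [Fintype E] [DecidableEq V] [DecidableEq E] {src tgt : E → V}

/-- The vertex `v` is joined to `A` by a chain of weight at most `θ`. -/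
private def TTLight_P (src tgt : E → V) (A : Finset V) (w : E → ℕ) (θ : ℕ) (v : V) : Prop :=
  ∃ a ∈ A, ∃ (D : Finset E) (f : E → ℤ), (∀ e, f e ≠ 0 → e ∈ D) ∧
    (∀ z, bd src tgt f z = (if a = z then 1 else 0) - (if v = z then 1 else 0)) ∧
    ∑ e ∈ D, w e ≤ θ

private theorem TTLight_P_mono {A : Finset V} {w : E → ℕ} {θ θ' : ℕ} (h : θ ≤ θ') {v : V}
    (hv : TTLight_P src tgt A w θ v) : TTLight_P src tgt A w θ' v := by
  obtain ⟨a, ha, D, f, h1, h2, h3⟩ := hv
  exact ⟨a, ha, D, f, h1, h2, h3.trans h⟩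

private theorem TTLight_P_zero {A : Finset V} (w : E → ℕ) (θ : ℕ) {a : V} (ha : a ∈ A) :
    TTLight_P src tgt A w θ a := by
  refine ⟨a, ha, ∅, fun _ => 0, fun e he => absurd rfl he, fun z => ?_, ?_⟩
  · rw [bd_zero, sub_self]
  · rw [sum_empty]
    exact Nat.zero_le _

private theorem TTLight_sum_insert (w : E → ℕ) (e₀ : E) (D : Finset E) :
    ∑ e ∈ insert e₀ D, w e ≤ ∑ e ∈ D, w e + w e₀ := by
  by_cases h : e₀ ∈ D
  · rw [insert_eq_of_mem h]
    exact Nat.le_add_right _ _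
  · rw [sum_insert h, add_comm]

private theorem TTLight_step {A : Finset V} {w : E → ℕ} {θ : ℕ} {u v : V} {e₀ : E}
    (hu : TTLight_P src tgt A w θ u)
    (he₀ : (src e₀ = u ∧ tgt e₀ = v) ∨ (src e₀ = v ∧ tgt e₀ = u)) :
    TTLight_P src tgt A w (θ + w e₀) v := by
  obtain ⟨a, ha, D, f, h1, h2, h3⟩ := hu
  rcases he₀ with ⟨h4, h5⟩ | ⟨h4, h5⟩
  · refine ⟨a, ha, insert e₀ D, fun e => f e + if e = e₀ then 1 else 0, fun e he => ?_,
      fun z => ?_, ?_⟩
    · by_cases h6 : e = e₀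
      · rw [h6]
        exact mem_insert_self _ _
      · simp only [if_neg h6, add_zero] at he
        exact mem_insert_of_mem (h1 e he)
    · rw [bd_add, h2, bd_single, h4, h5]
      ring
    · exact (TTLight_sum_insert w e₀ D).trans (Nat.add_le_add_right h3 _)
  · refine ⟨a, ha, insert e₀ D, fun e => f e + -(if e = e₀ then 1 else 0), fun e he => ?_,
      fun z => ?_, ?_⟩
    · by_cases h6 : e = e₀
      · rw [h6]
        exact mem_insert_self _ _
      · simp only [if_neg h6, neg_zero, add_zero] at he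
        exact mem_insert_of_mem (h1 e he)
    · rw [bd_add, h2, bd_neg, bd_single, h4, h5]
      ring
    · exact (TTLight_sum_insert w e₀ D).trans (Nat.add_le_add_right h3 _)

/-- TASK TTLight. A light chain between two sets.

PROOF. For `θ : ℕ` let `R θ` be the set of all `v` such that there are `a ∈ A`, `D : Finset E`, `f : E → ℤ` with
`∑ e ∈ D, w e ≤ θ`, `f e ≠ 0 → e ∈ D`, and boundary `f z = [a = z] - [v = z]`. `A ⊆ R 0 ⊆ R θ` (`f = 0`, `D = ∅`), `R` is
monotone, and if an edge `e` joins `u ∈ R θ` and `v`, then `v ∈ R (θ + w e)` (add `± 1` at `e` to `f`, `insert e D`;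
see `exists_chain` for the computation). Let `W = ∑ e, w e` and suppose that the claim fails: then `b ∉ R θ` for
all `b ∈ B` and all `θ` with `s * θ ≤ W`; in particular for all `θ ≤ θ₀ = W / s`. Then `s ≤ (cut (R θ)).card` for `θ = 0, ..., θ₀`, so
`s * (θ₀ + 1) ≤ ∑ θ ∈ range (θ₀ + 1), (cut (R θ)).card = ∑ e, #{θ ≤ θ₀ | e ∈ cut (R θ)}`. For every `e` the set
`Θ = {θ ≤ θ₀ | e ∈ cut (R θ)}` has at most `w e` elements: if `θ₁ = min Θ` then one end point of `e` is in `R θ₁`, so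
both end points are in `R θ` for all `θ ≥ θ₁ + w e`, hence `Θ ⊆ [θ₁, θ₁ + w e)`. So `s * (θ₀ + 1) ≤ W`, a contradiction to
`θ₀ = W / s`. -/
theorem exists_light {A B : Finset V} {s : ℕ} (hs : 0 < s) (w : E → ℕ)
    (hcut : ∀ U : Finset V, A ⊆ U → Disjoint U B → s ≤ (cut src tgt U).card) :
    ∃ a ∈ A, ∃ b ∈ B, ∃ (D : Finset E) (f : E → ℤ), (∀ e, f e ≠ 0 → e ∈ D) ∧
      (∀ z, bd src tgt f z = (if a = z then 1 else 0) - (if b = z then 1 else 0)) ∧
      s * ∑ e ∈ D, w e ≤ ∑ e, w e := by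
  classical
  by_contra hneg
  obtain ⟨W, hW⟩ : ∃ W, W = ∑ e, w e := ⟨_, rfl⟩
  obtain ⟨R, hR⟩ : ∃ R : ℕ → Finset V, ∀ θ v, v ∈ R θ ↔ TTLight_P src tgt A w θ v :=
    ⟨fun θ => univ.filter fun v => TTLight_P src tgt A w θ v, fun θ v => by
      rw [mem_filter]
      exact ⟨fun h => h.2, fun h => ⟨mem_univ _, h⟩⟩⟩
  have hB : ∀ θ, s * θ ≤ W → ∀ b ∈ B, b ∉ R θ := by
    intro θ hθ b hb hbR
    obtain ⟨a, ha, D, f, h1, h2, h3⟩ := (hR θ b).1 hbR
    refine hneg ⟨a, ha, b, hb, D, f, h1, h2, ?_⟩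
    rw [← hW]
    exact (Nat.mul_le_mul_left s h3).trans hθ
  have hcard : ∀ θ ∈ range (W / s + 1), s ≤ (cut src tgt (R θ)).card := by
    intro θ hθ
    have h1 : θ ≤ W / s := Nat.lt_succ_iff.1 (mem_range.1 hθ)
    have h2 : s * θ ≤ W := (Nat.mul_le_mul_left s h1).trans (Nat.mul_div_le W s)
    refine hcut _ (fun a ha => (hR θ a).2 (TTLight_P_zero w θ ha)) ?_
    rw [disjoint_left]
    intro b hb hbB
    exact hB θ h2 b hbB hb
  have hsum1 : s * (W / s + 1) ≤ ∑ θ ∈ range (W / s + 1), (cut src tgt (R θ)).card := by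
    have h1 := sum_le_sum hcard
    rw [sum_const, card_range, smul_eq_mul, mul_comm] at h1
    exact h1
  have hsum2 : ∑ θ ∈ range (W / s + 1), (cut src tgt (R θ)).card =
      ∑ e, ((range (W / s + 1)).filter fun θ => e ∈ cut src tgt (R θ)).card := by
    have h1 : ∀ θ ∈ range (W / s + 1), (cut src tgt (R θ)).card =
        ∑ e : E, if e ∈ cut src tgt (R θ) then 1 else 0 := by
      intro θ _
      rw [card_eq_sum_ones, ← sum_filter]
      congr 1
      ext e
      simp
    rw [sum_congr rfl h1, sum_comm]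
    refine sum_congr rfl fun e _ => ?_
    rw [card_eq_sum_ones, sum_filter]
  have hedge : ∀ e ∈ (univ : Finset E),
      ((range (W / s + 1)).filter fun θ => e ∈ cut src tgt (R θ)).card ≤ w e := by
    intro e _
    obtain ⟨Θ, hΘ⟩ : ∃ Θ, Θ = (range (W / s + 1)).filter fun θ => e ∈ cut src tgt (R θ) :=
      ⟨_, rfl⟩
    rw [← hΘ]
    rcases Θ.eq_empty_or_nonempty with h0 | h0
    · rw [h0, card_empty]
      exact Nat.zero_le _
    have hmin := Θ.min'_mem h0
    obtain ⟨θ₁, hθ₁⟩ : ∃ θ₁, θ₁ = Θ.min' h0 := ⟨_, rfl⟩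
    rw [← hθ₁] at hmin
    have hsub : Θ ⊆ Ico θ₁ (θ₁ + w e) := by
      intro θ hθ
      rw [mem_Ico]
      have h1 : θ₁ ≤ θ := by
        rw [hθ₁]
        exact Θ.min'_le θ hθ
      refine ⟨h1, ?_⟩
      by_contra h2
      have h3 : θ₁ + w e ≤ θ := not_lt.1 h2
      have h4 : e ∈ cut src tgt (R θ₁) := by
        rw [hΘ] at hmin
        exact (mem_filter.1 hmin).2
      have h5 : e ∈ cut src tgt (R θ) := by
        rw [hΘ] at hθ
        exact (mem_filter.1 hθ).2
      unfold cut at h4 h5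
      rw [mem_filter, hR, hR] at h4 h5
      by_cases h6 : TTLight_P src tgt A w θ₁ (src e)
      · refine h5.2 ⟨fun _ => ?_, fun _ => TTLight_P_mono h1 h6⟩
        exact TTLight_P_mono h3 (TTLight_step h6 (Or.inl ⟨rfl, rfl⟩))
      · by_cases h7 : TTLight_P src tgt A w θ₁ (tgt e)
        · refine h5.2 ⟨fun _ => TTLight_P_mono h1 h7, fun _ => ?_⟩
          exact TTLight_P_mono h3 (TTLight_step h7 (Or.inr ⟨rfl, rfl⟩))
        · exact h4.2 ⟨fun h => absurd h h6, fun h => absurd h h7⟩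
    refine (card_le_card hsub).trans ?_
    rw [Nat.card_Ico, Nat.add_sub_cancel_left]
  have hfin : s * (W / s + 1) ≤ W := by
    calc s * (W / s + 1) ≤ _ := hsum1
      _ = _ := hsum2
      _ ≤ ∑ e, w e := sum_le_sum hedge
      _ = W := hW.symm
  have h1 := Nat.div_add_mod W s
  have h2 := Nat.mod_lt W hs
  rw [Nat.mul_add, mul_one] at hfin
  omega

end Pool.Agent.MP_9cec2c_lc.TT
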