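import Pool.Agent.Lib.MP_9cec2c_lc.TTCnf

/-!
Every refutation of a Tseitin formula uses a clause of every vertex.
-/

set_option autoImplicit false
set_option linter.unusedSectionVars false

namespace Pool.Agent.MP_9cec2c_lc.TT

open Finset
open Flat (valueClauses eqClauses forbid2)
open FG (listCNF mem_listCNF Rule Refutes size Form)

variable {V E : Type} [Fintype V] [Fintype E] [DecidableEq V] [DecidableEq E] {src tgt : E → V}
  {r : ℕ} [NeZero r] {s : V → ZMod r}

/-- The edges of a clause of the equation of the vertex `v` are edges at `v`. -/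
theorem TTVert_inc {C : Finset E} {T : E → ZMod r} {c : ZMod r}
    {K : Finset ((E × ZMod r) × Bool)} (hK : K ∈ eqClauses C T c) {e : E}
    (h : ∃ l ∈ K, l.1.1 = e) : e ∈ C := by
  unfold eqClauses at hK
  obtain ⟨a, -, rfl⟩ := mem_image.1 hK
  obtain ⟨l, hl, rfl⟩ := h
  unfold forbid2 at hl
  obtain ⟨i, -, rfl⟩ := mem_image.1 hl
  exact i.2

/-- All edges at `v` occur in the clauses of the equation of the vertex `v`. -/
theorem TTVert_inc' {C : Finset E} {T : E → ZMod r} {c : ZMod r}
    {K : Finset ((E × ZMod r) × Bool)} (hK : K ∈ eqClauses C T c) (e : E) (he : e ∈ C) :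
    ∃ l ∈ K, l.1.1 = e := by
  unfold eqClauses at hK
  obtain ⟨a, -, rfl⟩ := mem_image.1 hK
  unfold forbid2
  exact ⟨((e, a ⟨e, he⟩), false), mem_image.2 ⟨⟨e, he⟩, mem_univ _, rfl⟩, rfl⟩

/-- The charges with the total charge removed at the vertex `q`. -/
theorem TTVert_sum (s : V → ZMod r) (q : V) :
    ∑ v, (if v = q then s q - ∑ v, s v else s v) = 0 := by
  have h1 : ∀ v, (if v = q then s q - ∑ v, s v else s v) =
      s v - if v = q then ∑ v, s v else 0 := by
    intro v
    by_cases h : v = q
    · rw [if_pos h, if_pos h, h]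
    · rw [if_neg h, if_neg h, sub_zero]
  rw [sum_congr rfl fun v _ => h1 v, sum_sub_distrib, sum_ite_eq' univ q,
    if_pos (mem_univ _), sub_self]

/-- TASK TTVert. Every refutation uses a clause of every vertex.

PROOF. `card_le_size` with `Q = V` and `R v D ↔ ∃ C ∈ eqClauses (inc v) (coef v) (s v), D = C.toList`.
`hR`: if `D` is empty or not of this form for any vertex take `A = ∅` ...; precisely: if `R v D` then the set of the
edges in `D` is `inc v` (`forbid2 C a` contains a literal with edge `i` for every `i ∈ C` and no other edges). If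
some `e ∈ inc v` exists then `A = {src e, tgt e}` works: `R v' D` implies `e ∈ inc v'`, i.e. `v' = src e` or `v' = tgt e`.
If `R v D` and `inc v = ∅`, then by connectivity `V = {v}` (`cut {v} = ∅`), and `A = univ` has one element.
`hx`: for the vertex `q` let `τ v = s v` for `v ≠ q` and `τ q = s q - ∑ v, s v`; `exists_pot` gives `g` with `bd g = τ`; take
`x (e, c) = decide (g e = c)`; `holds_value` and `holds_eq` (a clause in `eqClauses` of `v ≠ q`: `bd g v = s v`; for `v = q`
it belongs to `q`). -/
theorem card_vertices_le (hconn : Connected src tgt) {p : ℕ} {S : Set Rule}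
    (hS : ∀ R ∈ S, R.Sound p) {d l : ℕ} {L : Fin l → Form (E × ZMod r)}
    (hL : Refutes S d (tseitinCNF src tgt r s) L) : Fintype.card V ≤ 2 * size L := by
  classical
  refine card_le_size hS (Q := V) (F := tseitinCNF src tgt r s)
    (R := fun v D => ∃ C ∈ eqClauses (inc src tgt v) (coef src tgt r v) (s v), D = C.toList)
    ?_ ?_ hL
  · intro D
    by_cases hD : ∃ v, ∃ C ∈ eqClauses (inc src tgt v) (coef src tgt r v) (s v), D = C.toList
    · obtain ⟨v, C, hC, hDC⟩ := hD
      rcases (inc src tgt v).eq_empty_or_nonempty with h0 | ⟨e, he⟩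
      · have hu : ({v} : Finset V) = univ := by
          by_contra hne
          obtain ⟨e, he⟩ := hconn {v} (singleton_nonempty v) hne
          unfold cut at he
          rw [mem_filter] at he
          have h1 : e ∈ inc src tgt v := by
            unfold inc
            rw [mem_filter]
            refine ⟨mem_univ _, ?_⟩
            by_contra h
            rw [not_or] at h
            exact he.2 ⟨fun h1 => absurd (mem_singleton.1 h1) h.1,
              fun h1 => absurd (mem_singleton.1 h1) h.2⟩
          rw [h0] at h1
          exact absurd h1 (notMem_empty _)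
        refine ⟨{v}, (card_singleton v).le.trans (by norm_num), fun q _ => ?_⟩
        rw [hu]
        exact mem_univ _
      · refine ⟨{src e, tgt e}, card_le_two, fun v' hv' => ?_⟩
        obtain ⟨C', hC', hDC'⟩ := hv'
        have h1 : e ∈ inc src tgt v' := by
          refine TTVert_inc hC' ?_
          obtain ⟨l, hl, hl'⟩ := TTVert_inc' hC e he
          refine ⟨l, ?_, hl'⟩
          rw [← mem_toList, ← hDC', hDC]
          exact mem_toList.2 hl
        unfold inc at h1
        rw [mem_filter] at h1
        rw [mem_insert, mem_singleton]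
        rcases h1.2 with h | h
        · exact Or.inl h.symm
        · exact Or.inr h.symm
    · exact ⟨∅, by simp, fun q hq => absurd ⟨q, hq⟩ hD⟩
  · intro q
    obtain ⟨g, hg⟩ := exists_pot hconn (fun v => if v = q then s q - ∑ v, s v else s v)
      (TTVert_sum s q)
    refine ⟨fun i => decide (g i.1 = i.2), fun D hD hnR => ?_⟩
    obtain ⟨C, hC, rfl⟩ := mem_listCNF.1 hD
    rcases mem_tseitin.1 hC with ⟨e, he⟩ | ⟨v, hv⟩
    · obtain ⟨l, hl, hl'⟩ := holds_value g e C he
      exact ⟨l, mem_toList.2 hl, hl'⟩
    · by_cases hvq : v = q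
      · subst hvq
        exact absurd ⟨C, hv, rfl⟩ hnR
      · have h1 : bd src tgt g v = s v := by rw [hg v, if_neg hvq]
        obtain ⟨l, hl, hl'⟩ := holds_eq h1 C hv
        exact ⟨l, mem_toList.2 hl, hl'⟩

end Pool.Agent.MP_9cec2c_lc.TT
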