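import Pool.Agent.Lib.MP_9cec2c_lc.TTSub
import Pool.Agent.Lib.MP_9cec2c_lc.Mg.G021
import Pool.Agent.Lib.MP_9cec2c_lc.TTVert
import Pool.Agent.Lib.MP_9cec2c_lc.Mg.G022
import Pool.Agent.Lib.MP_9cec2c_lc.CQMain

/-!
The lower bound for the Tseitin formulas of all graphs.
-/

set_option autoImplicit false
set_option linter.unusedSectionVars false

namespace Pool.Agent.MP_9cec2c_lc.TT

open Finset
open Flat (TVar tseitinMod RMT2 card_TVar exists_field)
open FG (Rule Refutes size Form)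
open Frege (World)
open CQ (TQ tsrc ttgt tchg tinc card_tinc mem_tinc sum_tchg kills_of_satisfies)

/-- The number of edges. -/
theorem card_edges_le {V E : Type} [Fintype V] [Fintype E] [DecidableEq V] [DecidableEq E]
    {src tgt : E → V} {Δ : ℕ} (hΔ : ∀ v, (inc src tgt v).card ≤ Δ) :
    Fintype.card E ≤ Δ * Fintype.card V := by
  classical
  have h1 : (univ : Finset E) ⊆ (univ : Finset V).biUnion fun v => inc src tgt v := by
    intro e _
    exact mem_biUnion.2 ⟨src e, mem_univ _, mem_filter.2 ⟨mem_univ _, Or.inl rfl⟩⟩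
  calc Fintype.card E = (univ : Finset E).card := card_univ.symm
    _ ≤ _ := card_le_card h1
    _ ≤ ∑ v, (inc src tgt v).card := card_biUnion_le
    _ ≤ ∑ _v : V, Δ := sum_le_sum fun v _ => hΔ v
    _ = Δ * Fintype.card V := by
      rw [sum_const, card_univ, smul_eq_mul, mul_comm]

/-- The number of nodes of the small graph. -/
theorem card_TQ (N : ℕ) : Fintype.card (TQ N) = N * N + (N + N) := by
  rw [Fintype.card_sum, Fintype.card_prod, Fintype.card_sum, Fintype.card_fin]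

/-- The lower bound for the graphs whose total charge has order `r'`. -/
theorem main_order (p r r' Δ : ℕ) [hp : Fact p.Prime] [NeZero r] [NeZero r'] (hr' : 1 < r')
    (hpr : Nat.Coprime p r') (hR : RMT2 r') {S : Set Rule} (hS : S.Finite)
    (hsound : ∀ R ∈ S, R.Sound p) :
    ∃ c : ℝ, 0 < c ∧ ∀ (V E : Type) [Fintype V] [Fintype E] [DecidableEq V] [DecidableEq E]
      (src tgt : E → V), Connected src tgt → (∀ v, (inc src tgt v).card ≤ Δ) →
      ∀ w : ℕ, ¬ HasTreeDec src tgt w → ∀ s : V → ZMod r, addOrderOf (∑ v, s v) = r' →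
      ∀ (d l : ℕ) (L : Fin l → Form (E × ZMod r)), Refutes S d (tseitinCNF src tgt r s) L →
        Real.exp (c * (w : ℝ) ^ (c / (d + 1))) ≤ size L := by
  classical
  obtain ⟨Δ', hΔ'⟩ : ∃ Δ' : ℕ, Δ' = max Δ 1 := ⟨_, rfl⟩
  have hΔ'1 : 1 ≤ Δ' := by
    rw [hΔ']
    exact le_max_right _ _
  obtain ⟨K, hK1, hK2, hK3, ω, hω⟩ := exists_field p r' (by omega) hpr
  obtain ⟨ε, hε, hsmall⟩ := Flat.Herm.exists_small_unif r'
  obtain ⟨x, hx, N₁, hN₁⟩ := hR ε hε
  have hx20 : (0 : ℝ) < x / 20 := by positivity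
  obtain ⟨c₁, hc₁, M₂, hM₂⟩ := FG.frege_num K p hx20 (max r Δ') 256 hS hsound
  obtain ⟨w₁, hw₁⟩ := exists_num hx Δ' r' N₁ (by omega)
  obtain ⟨w₂, hw₂⟩ := exists_num_triv hx Δ'
  obtain ⟨w₀, hw₀⟩ : ∃ w₀ : ℕ, w₀ = max (max w₁ w₂) M₂ := ⟨_, rfl⟩
  obtain ⟨c, hc⟩ : ∃ c : ℝ, c = min (min c₁ (x / 40)) (min 1 (Real.log 2 / (w₀ + 1))) := ⟨_, rfl⟩
  have hlog : 0 < Real.log 2 := Real.log_pos (by norm_num)
  have hw01 : (0 : ℝ) < (w₀ : ℝ) + 1 := by positivity
  have hcpos : 0 < c := by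
    rw [hc]
    refine lt_min (lt_min hc₁ (by positivity)) (lt_min one_pos (div_pos hlog hw01))
  have hcc1 : c ≤ c₁ := by
    rw [hc]
    exact (min_le_left _ _).trans (min_le_left _ _)
  have hcx : c ≤ x / 40 := by
    rw [hc]
    exact (min_le_left _ _).trans (min_le_right _ _)
  have hc1 : c ≤ 1 := by
    rw [hc]
    exact (min_le_right _ _).trans (min_le_left _ _)
  have hcw : c * ((w₀ : ℝ) + 1) ≤ Real.log 2 := by
    have h1 : c ≤ Real.log 2 / (w₀ + 1) := by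
      rw [hc]
      exact (min_le_right _ _).trans (min_le_right _ _)
    rwa [le_div_iff₀ hw01] at h1
  refine ⟨c, hcpos, ?_⟩
  intro V E _ _ _ _ src tgt hconn hΔ w hw s hord d l L hL
  have hΔ1 : ∀ v, (inc src tgt v).card ≤ Δ' := fun v => (hΔ v).trans (by rw [hΔ']; exact le_max_left _ _)
  have hi : ∃ i : Fin l, True := by
    rcases hL with ⟨-, i, -⟩ | ⟨-, i, -⟩ <;> exact ⟨i, trivial⟩
  obtain ⟨i, -⟩ := hi
  have hsize2 : 2 ≤ size L := FG.two_le_size i
  rcases le_total w w₀ with hww | hww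
  · exact exists_num_small w₀ hcpos hc1 hcw hww d hsize2
  have hww1 : w₁ ≤ w := ((le_max_left _ _).trans (le_max_left _ _)).trans (hw₀ ▸ hww)
  have hww2 : w₂ ≤ w := ((le_max_right _ _).trans (le_max_left _ _)).trans (hw₀ ▸ hww)
  have hwwM : M₂ ≤ w := (le_max_right _ _).trans (hw₀ ▸ hww)
  by_cases hm : (3 * (Fintype.card E : ℕ) : ℝ) ≤ Real.exp ((w : ℝ) ^ (x / 20))
  swap
  · exact hw₂ w hww2 _ _ _ (not_le.1 hm) (card_edges_le hΔ1) (card_vertices_le hconn hsound hL)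
      c hcpos hc1 hcx d
  obtain ⟨N, A, hNN, hN1, hA1, hA3, hcardT, hA2, hA4⟩ := hw₁ w hww1 _ hm
  obtain ⟨T, hTcard, hT⟩ := exists_wellLinked (t := 2 * w / 3) (by omega) hw
  obtain ⟨φ, f, hφ, hf, hload⟩ := exists_flow hconn hΔ1 hΔ'1 hT (tsrc : TVar N → TQ N) ttgt
    (fun q => (card_le_card fun i hi => mem_tinc (mem_filter.1 hi).2).trans (card_tinc q))
    (s := 2 * N ^ 2 + N + 1) (by omega) ((card_TVar N).trans (by omega))
    (by rw [card_TQ, hTcard]; exact hcardT)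
  have v0 : Fin N := ⟨0, by omega⟩
  -- the homomorphism
  obtain ⟨ι, hι⟩ : ∃ ι : ZMod r' →+ ZMod r, ι 1 = ∑ v, s v := by
    refine ⟨ZMod.lift r' ⟨zmultiplesHom (ZMod r) (∑ v, s v), ?_⟩, ?_⟩
    · rw [zmultiplesHom_apply, natCast_zsmul, ← hord]
      exact addOrderOf_nsmul_eq_zero _
    · have h1 := ZMod.lift_coe r' (⟨zmultiplesHom (ZMod r) (∑ v, s v), by
        rw [zmultiplesHom_apply, natCast_zsmul, ← hord]
        exact addOrderOf_nsmul_eq_zero _⟩ : {f : ℤ →+ ZMod r // f r' = 0}) 1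
      rw [Int.cast_one] at h1
      rw [h1]
      show (zmultiplesHom (ZMod r) (∑ v, s v)) 1 = _
      rw [zmultiplesHom_apply, one_zsmul]
  -- the charges
  obtain ⟨b, hb⟩ : ∃ b : Fin N → ZMod r', b = Pi.single v0 (-1) := ⟨_, rfl⟩
  have hsum : ∑ q, tchg b q = 1 := by
    rw [sum_tchg, hb, sum_pi_single' v0, if_pos (mem_univ _), neg_neg]
  obtain ⟨g, hg⟩ := exists_pot hconn
    (fun v => s v - ∑ q, (if φ q = v then ι (tchg b q) else 0)) (by
      rw [sum_sub_distrib, sum_comm]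
      have h1 : ∀ q : TQ N, ∑ v, (if φ q = v then ι (tchg b q) else 0) = ι (tchg b q) := by
        intro q
        rw [sum_ite_eq, if_pos (mem_univ _)]
      rw [sum_congr rfl fun q _ => h1 q, ← map_sum, hsum, hι, sub_self])
  -- the world
  obtain ⟨m', hm', cc, Gam, hrm, hGcard, hGood⟩ := hN₁ N hNN A hA1
  obtain ⟨M, act, hW, hpos, hgrow, hsat⟩ := Flat.Herm.tseitinMod_world (K := K) p hω hr' (hrm := hrm)
    (Flat.Herm.spectator_sum hrm fun u => Flat.ph (cc u)) (hsmall m' hrm) v0 b hGood hGcard hA3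
  obtain ⟨act', hW', hF'⟩ := graph_world hW (kills_of_satisfies hsat) ι hφ hf hload g
    (s := s) (fun v => by rw [hg v]; ring) hΔ1 hA4
  have hr2 : 2 ≤ r := by
    have h1 : addOrderOf (∑ v, s v) ≤ Fintype.card (ZMod r) := addOrderOf_le_card_univ
    rw [ZMod.card, hord] at h1
    omega
  have hfin := hM₂ w hwwM (E × ZMod r) _
    (fun a => M ((Nat.log 2 (3 * Fintype.card E) + 3) * r' * a)) act'
    (A / ((Nat.log 2 (3 * Fintype.card E) + 3) * r')) hW' hA2
    (by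
      show 0 < Module.finrank K (M (_ * 0))
      rw [mul_zero]
      exact hpos)
    (by
      show Module.finrank K (M (_ * _)) ≤ 256 * Module.finrank K (M (_ * 0))
      rw [mul_zero]
      refine le_trans ?_ hgrow
      exact Submodule.finrank_mono (hW.mono (Nat.mul_div_le A _) le_rfl))
    (tseitinCNF src tgt r s) (fun D hD => ⟨tseitin_width hr2 hΔ1 D hD, hF' D hD⟩) d l L hL
  exact (bound_mono hcpos hcc1 w d).trans hfin

/-- A constant for finitely many statements. -/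
theorem unif_c (P : ℕ → ℝ → Prop) (hP : ∀ n c c', 0 < c → c ≤ c' → P n c' → P n c) (R : ℕ)
    (h : ∀ n ≤ R, ∃ c : ℝ, 0 < c ∧ P n c) : ∃ c : ℝ, 0 < c ∧ ∀ n ≤ R, P n c := by
  induction R with
  | zero =>
    obtain ⟨c, hc, h1⟩ := h 0 le_rfl
    exact ⟨c, hc, fun n hn => by rw [Nat.le_zero.1 hn]; exact h1⟩
  | succ R ih =>
    obtain ⟨c, hc, h1⟩ := ih fun n hn => h n (hn.trans (Nat.le_succ R))
    obtain ⟨c', hc', h2⟩ := h (R + 1) le_rfl
    refine ⟨min c c', lt_min hc hc', fun n hn => ?_⟩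
    rcases Nat.lt_or_ge R n with h3 | h3
    · have h4 : n = R + 1 := by omega
      rw [h4]
      exact hP _ _ _ (lt_min hc hc') (min_le_right _ _) h2
    · exact hP _ _ _ (lt_min hc hc') (min_le_left _ _) (h1 n h3)

/-- **The lower bound for the Tseitin formulas of all graphs.** -/
theorem main_all (p r Δ : ℕ) [hp : Fact p.Prime] [NeZero r]
    (hR : ∀ r', 2 ≤ r' → RMT2 r') {S : Set Rule} (hS : S.Finite) (hsound : ∀ R ∈ S, R.Sound p) :
    ∃ c : ℝ, 0 < c ∧ ∀ (V E : Type) [Fintype V] [Fintype E] [DecidableEq V] [DecidableEq E]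
      (src tgt : E → V), Connected src tgt → (∀ v, (inc src tgt v).card ≤ Δ) →
      ∀ w : ℕ, ¬ HasTreeDec src tgt w → ∀ s : V → ZMod r, ∑ v, s v ≠ 0 →
      Nat.Coprime p (addOrderOf (∑ v, s v)) →
      ∀ (d l : ℕ) (L : Fin l → Form (E × ZMod r)), Refutes S d (tseitinCNF src tgt r s) L →
        Real.exp (c * (w : ℝ) ^ (c / (d + 1))) ≤ size L := by
  obtain ⟨c, hc, h⟩ := unif_c (fun n c => 2 ≤ n → Nat.Coprime p n →
      ∀ (V E : Type) [Fintype V] [Fintype E] [DecidableEq V] [DecidableEq E]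
      (src tgt : E → V), Connected src tgt → (∀ v, (inc src tgt v).card ≤ Δ) →
      ∀ w : ℕ, ¬ HasTreeDec src tgt w → ∀ s : V → ZMod r, addOrderOf (∑ v, s v) = n →
      ∀ (d l : ℕ) (L : Fin l → Form (E × ZMod r)), Refutes S d (tseitinCNF src tgt r s) L →
        Real.exp (c * (w : ℝ) ^ (c / (d + 1))) ≤ size L)
    (by
      intro n c c' hc hcc h h2 hcop V E _ _ _ _ src tgt hconn hΔ w hw s hs d l L hL
      exact (bound_mono hc hcc w d).trans (h h2 hcop V E src tgt hconn hΔ w hw s hs d l L hL)) r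
    (by
      intro n _
      by_cases hn : 2 ≤ n ∧ Nat.Coprime p n
      · haveI : NeZero n := ⟨by omega⟩
        obtain ⟨c, hc, h⟩ := main_order p r n Δ (by omega) hn.2 (hR n hn.1) hS hsound
        exact ⟨c, hc, fun _ _ => h⟩
      · exact ⟨1, one_pos, fun h1 h2 => absurd ⟨h1, h2⟩ hn⟩)
  refine ⟨c, hc, ?_⟩
  intro V E _ _ _ _ src tgt hconn hΔ w hw s hs hcop d l L hL
  have h1 : addOrderOf (∑ v, s v) ≤ r := by
    have := addOrderOf_le_card_univ (x := ∑ v, s v)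
    rwa [ZMod.card] at this
  have h2 : 2 ≤ addOrderOf (∑ v, s v) := by
    have h3 : addOrderOf (∑ v, s v) ≠ 1 := by
      intro h4
      exact hs (AddMonoid.addOrderOf_eq_one_iff.1 h4)
    have h5 : 0 < addOrderOf (∑ v, s v) := addOrderOf_pos _
    omega
  exact h _ h1 h2 hcop V E src tgt hconn hΔ w hw s rfl d l L hL

end Pool.Agent.MP_9cec2c_lc.TT
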