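import Pool.Agent.Lib.MP_9cec2c_lc.TWTriv
import Pool.Agent.Lib.MP_9cec2c_lc.TTMain

/-!
The lower bound for all formulas whose clauses contain clauses of a Tseitin formula.
-/

set_option autoImplicit false
set_option linter.unusedSectionVars false

namespace Pool.Agent.MP_9cec2c_lc.TT

open Finset
open Flat (TVar tseitinMod RMT2 card_TVar exists_field pull world_pull pull_apply)
open FG (Rule Refutes size Form fals)
open Frege (World Fun Pol Pol_mono mem_Pol_of_depends)
open CQ (TQ tsrc ttgt tchg tinc card_tinc mem_tinc sum_tchg kills_of_satisfies)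

/-- The world for the clauses which contain clauses of `T`. -/
theorem above_world {K W : Type} [Field K] [AddCommGroup W] [Module K W] {Y X : Type} [Fintype Y]
    [DecidableEq Y] {M : ℕ → Submodule K W} {act : Fun K Y →ₗ[K] W →ₗ[K] W} {A : ℕ}
    (hW : World M act A) {T : Finset (Finset (Y × Bool))} {a₀ : ℕ}
    (hT : ∀ C ∈ T, ∀ u ∈ M a₀, act (fals K C.toList) u = 0) {ι : Y → X}
    (hι : Function.Injective ι) {B : ℕ} {F : List (List (X × Bool))} (hF : Above ι T B F)
    (ha₀ : a₀ + B + B ≤ A) :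
    ∃ act' : Fun K X →ₗ[K] W →ₗ[K] W, World M act' A ∧
      ∀ D ∈ F, ∀ u ∈ M a₀, act' (fals K D) u = 0 := by
  classical
  obtain ⟨ρ, hρ⟩ : ∃ ρ : (Y → Bool) → (X → Bool), ρ = fun y => Function.extend ι y fun _ => false :=
    ⟨_, rfl⟩
  have hρι : ∀ y v, ρ y (ι v) = y v := by
    intro y v
    rw [hρ]
    exact hι.extend_apply y _ v
  have hρn : ∀ y x, (¬ ∃ v, ι v = x) → ρ y x = false := by
    intro y x hx
    rw [hρ]
    exact Function.extend_apply' y _ x hx
  refine ⟨act.comp (pull ρ), world_pull hW fun x => ?_, ?_⟩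
  · by_cases hx : ∃ v, ι v = x
    · obtain ⟨v, rfl⟩ := hx
      refine ⟨{v}, (card_singleton v).le, fun y y' h => ?_⟩
      rw [hρι, hρι]
      exact h v (mem_singleton_self v)
    · exact ⟨∅, by simp, fun y y' _ => by rw [hρn y x hx, hρn y' x hx]⟩
  · intro D hD u hu
    obtain ⟨hlen, C, hC, hCD⟩ := hF D hD
    obtain ⟨Z, hZ⟩ : ∃ Z : Finset Y, Z = univ.filter fun v => ∃ b, (ι v, b) ∈ D := ⟨_, rfl⟩
    have hm : ∀ v, v ∈ Z ↔ ∃ b, (ι v, b) ∈ D := by
      intro v
      rw [hZ, mem_filter]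
      exact ⟨fun h => h.2, fun h => ⟨mem_univ _, h⟩⟩
    have hcard : Z.card ≤ B := by
      have h1 : (Z.image ι).card = Z.card := card_image_of_injective _ hι
      rw [← h1]
      refine le_trans ?_ hlen
      have h2 : Z.image ι ⊆ (D.map Prod.fst).toFinset := by
        intro x hx
        obtain ⟨v, hv, rfl⟩ := mem_image.1 hx
        obtain ⟨b, hb⟩ := (hm v).1 hv
        exact List.mem_toFinset.2 (List.mem_map.2 ⟨_, hb, rfl⟩)
      refine (card_le_card h2).trans ((List.toFinset_card_le _).trans ?_)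
      rw [List.length_map]
    have h1 : pull ρ (fals K D) ∈ Pol K Y B := by
      refine Pol_mono hcard (mem_Pol_of_depends Z fun x y hxy => ?_)
      rw [pull_apply, pull_apply]
      have h2 : ∀ l ∈ D, ρ x l.1 = ρ y l.1 := by
        intro l hl
        by_cases hx : ∃ v, ι v = l.1
        · obtain ⟨v, hv⟩ := hx
          rw [← hv, hρι, hρι]
          refine hxy v ((hm v).2 ⟨l.2, ?_⟩)
          rw [hv]
          exact hl
        · rw [hρn x _ hx, hρn y _ hx]
      unfold fals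
      have h3 : (∀ l ∈ D, ρ x l.1 ≠ l.2) ↔ ∀ l ∈ D, ρ y l.1 ≠ l.2 :=
        forall₂_congr fun l hl => by rw [h2 l hl]
      simp only [h3]
    have h2 : fals K C.toList ∈ Pol K Y B := by
      have h3 : (C.image Prod.fst).card ≤ B := by
        refine le_trans (card_le_card fun v hv => ?_) hcard
        obtain ⟨l, hl, rfl⟩ := mem_image.1 hv
        exact (hm _).2 ⟨l.2, hCD l hl⟩
      refine Pol_mono h3 (mem_Pol_of_depends _ fun x y hxy => ?_)
      unfold fals
      have h4 : (∀ l ∈ C.toList, x l.1 ≠ l.2) ↔ ∀ l ∈ C.toList, y l.1 ≠ l.2 :=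
        forall₂_congr fun l hl => by
          rw [hxy l.1 (mem_image.2 ⟨l, mem_toList.1 hl, rfl⟩)]
      by_cases h5 : ∀ l ∈ C.toList, x l.1 ≠ l.2
      · rw [if_pos h5, if_pos (h4.1 h5)]
      · rw [if_neg h5, if_neg fun h => h5 (h4.2 h)]
    have h3 : pull ρ (fals K D) = pull ρ (fals K D) * fals K C.toList := by
      funext x
      rw [Pi.mul_apply, pull_apply]
      unfold fals
      by_cases h4 : ∀ l ∈ D, ρ x l.1 ≠ l.2
      · rw [if_pos h4, if_pos, one_mul]
        intro l hl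
        have h5 := h4 _ (hCD l (mem_toList.1 hl))
        rw [hρι] at h5
        exact h5
      · rw [if_neg h4, zero_mul]
    rw [LinearMap.comp_apply, h3, hW.act_mul a₀ B B _ _ u ha₀ h1 h2 hu, hT C hC u hu, map_zero]

/-- The lower bound for the graphs whose total charge has order `r'`, for all formulas whose clauses
contain clauses of the Tseitin formula. -/
theorem main_orderF (p r r' Δ B : ℕ) [hp : Fact p.Prime] [NeZero r] [NeZero r'] (hr' : 1 < r')
    (hpr : Nat.Coprime p r') (hR : RMT2 r') {S : Set Rule} (hS : S.Finite)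
    (hsound : ∀ R ∈ S, R.Sound p) :
    ∃ c : ℝ, 0 < c ∧ ∀ (V E : Type) [Fintype V] [Fintype E] [DecidableEq V] [DecidableEq E]
      (src tgt : E → V), Connected src tgt → (∀ v, (inc src tgt v).card ≤ Δ) →
      ∀ w : ℕ, ¬ HasTreeDec src tgt w → ∀ s : V → ZMod r, addOrderOf (∑ v, s v) = r' →
      ∀ (X : Type) (i : E × ZMod r → X), Function.Injective i → ∀ F : List (List (X × Bool)),
      Above i (tseitin src tgt r s) B F →
      ∀ (d l : ℕ) (L : Fin l → Form X), Refutes S d F L →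
        Real.exp (c * (w : ℝ) ^ (c / (d + 1))) ≤ size L := by
  classical
  obtain ⟨Δ', hΔ'⟩ : ∃ Δ' : ℕ, Δ' = max (max Δ 1) B := ⟨_, rfl⟩
  have hΔ'1 : 1 ≤ Δ' := by
    rw [hΔ']
    exact (le_max_right _ _).trans (le_max_left _ _)
  have hΔB : B ≤ Δ' := by
    rw [hΔ']
    exact le_max_right _ _
  obtain ⟨K, hK1, hK2, hK3, ω, hω⟩ := exists_field p r' (by omega) hpr
  obtain ⟨ε, hε, hsmall⟩ := Flat.Herm.exists_small_unif r'
  obtain ⟨x, hx, N₁, hN₁⟩ := hR ε hε
  have hx20 : (0 : ℝ) < x / 20 := by positivity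
  obtain ⟨c₁, hc₁, M₂, hM₂⟩ := FG.frege_num K p hx20 B 256 hS hsound
  obtain ⟨w₁, hw₁⟩ := exists_num hx Δ' r' N₁ (by omega)
  obtain ⟨w₂, hw₂⟩ := exists_num_triv hx (Δ' * (B + 1))
  obtain ⟨w₀, hw₀⟩ : ∃ w₀ : ℕ, w₀ = max (max w₁ w₂) M₂ := ⟨_, rfl⟩
  obtain ⟨c, hc⟩ : ∃ c : ℝ, c = min (min c₁ (x / 40)) (min 1 (Real.log 2 / (w₀ + 1))) := ⟨_, rfl⟩
  have hlog : 0 < Real.log 2 := Real.log_pos (by norm_num)
  have hw01 : (0 : ℝ) < (w₀ : ℝ) + 1 := by positivity
  have hcpos : 0 < c := by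
    rw [hc]
    refine lt_min (lt_min hc₁ (by positivity)) (lt_min one_pos (div_pos hlog hw01))
  have hcc1 : c ≤ c₁ := by
    rw [hc]
    exact (min_le_left _ _).trans (min_le_left _ _)
  have hcx : c ≤ x / 40 := by
    rw [hc]
    exact (min_le_left _ _).trans (min_le_right _ _)
  have hc1 : c ≤ 1 := by
    rw [hc]
    exact (min_le_right _ _).trans (min_le_left _ _)
  have hcw : c * ((w₀ : ℝ) + 1) ≤ Real.log 2 := by
    have h1 : c ≤ Real.log 2 / (w₀ + 1) := by
      rw [hc]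
      exact (min_le_right _ _).trans (min_le_right _ _)
    rwa [le_div_iff₀ hw01] at h1
  refine ⟨c, hcpos, ?_⟩
  intro V E _ _ _ _ src tgt hconn hΔ w hw s hord X i₀ hi₀ F hF d l L hL
  have hΔ1 : ∀ v, (inc src tgt v).card ≤ Δ' := fun v => (hΔ v).trans (by
    rw [hΔ']
    exact (le_max_left _ _).trans (le_max_left _ _))
  have hi : ∃ i : Fin l, True := by
    rcases hL with ⟨-, i, -⟩ | ⟨-, i, -⟩ <;> exact ⟨i, trivial⟩
  obtain ⟨i, -⟩ := hi
  have hsize2 : 2 ≤ size L := FG.two_le_size i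
  rcases le_total w w₀ with hww | hww
  · exact exists_num_small w₀ hcpos hc1 hcw hww d hsize2
  have hww1 : w₁ ≤ w := ((le_max_left _ _).trans (le_max_left _ _)).trans (hw₀ ▸ hww)
  have hww2 : w₂ ≤ w := ((le_max_right _ _).trans (le_max_left _ _)).trans (hw₀ ▸ hww)
  have hwwM : M₂ ≤ w := (le_max_right _ _).trans (hw₀ ▸ hww)
  by_cases hm : (3 * (Fintype.card E : ℕ) : ℝ) ≤ Real.exp ((w : ℝ) ^ (x / 20))
  swap
  · have h1 := card_vertices_leF hconn hsound hi₀ hF hL
    have h2 : Fintype.card E ≤ Δ' * (B + 1) * (2 * size L) := by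
      refine (card_edges_le hΔ1).trans ?_
      have h3 : (2 * B + 1) * size L ≤ (B + 1) * (2 * size L) := by
        have : (B + 1) * (2 * size L) = (2 * B + 1) * size L + size L := by ring
        omega
      calc Δ' * Fintype.card V ≤ Δ' * ((B + 1) * (2 * size L)) :=
            Nat.mul_le_mul_left _ (h1.trans h3)
        _ = Δ' * (B + 1) * (2 * size L) := by ring
    exact hw₂ w hww2 _ _ _ (not_le.1 hm) h2 le_rfl c hcpos hc1 hcx d
  obtain ⟨N, A, hNN, hN1, hA1, hA3, hcardT, hA2, hA4⟩ := hw₁ w hww1 _ hm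
  obtain ⟨T, hTcard, hT⟩ := exists_wellLinked (t := 2 * w / 3) (by omega) hw
  obtain ⟨φ, f, hφ, hf, hload⟩ := exists_flow hconn hΔ1 hΔ'1 hT (tsrc : TVar N → TQ N) ttgt
    (fun q => (card_le_card fun i hi => mem_tinc (mem_filter.1 hi).2).trans (card_tinc q))
    (s := 2 * N ^ 2 + N + 1) (by omega) ((card_TVar N).trans (by omega))
    (by rw [card_TQ, hTcard]; exact hcardT)
  have v0 : Fin N := ⟨0, by omega⟩
  -- the homomorphism
  obtain ⟨ι, hι⟩ : ∃ ι : ZMod r' →+ ZMod r, ι 1 = ∑ v, s v := by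
    refine ⟨ZMod.lift r' ⟨zmultiplesHom (ZMod r) (∑ v, s v), ?_⟩, ?_⟩
    · rw [zmultiplesHom_apply, natCast_zsmul, ← hord]
      exact addOrderOf_nsmul_eq_zero _
    · have h1 := ZMod.lift_coe r' (⟨zmultiplesHom (ZMod r) (∑ v, s v), by
        rw [zmultiplesHom_apply, natCast_zsmul, ← hord]
        exact addOrderOf_nsmul_eq_zero _⟩ : {f : ℤ →+ ZMod r // f r' = 0}) 1
      rw [Int.cast_one] at h1
      rw [h1]
      show (zmultiplesHom (ZMod r) (∑ v, s v)) 1 = _
      rw [zmultiplesHom_apply, one_zsmul]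
  -- the charges
  obtain ⟨b, hb⟩ : ∃ b : Fin N → ZMod r', b = Pi.single v0 (-1) := ⟨_, rfl⟩
  have hsum : ∑ q, tchg b q = 1 := by
    rw [sum_tchg, hb, sum_pi_single' v0, if_pos (mem_univ _), neg_neg]
  obtain ⟨g, hg⟩ := exists_pot hconn
    (fun v => s v - ∑ q, (if φ q = v then ι (tchg b q) else 0)) (by
      rw [sum_sub_distrib, sum_comm]
      have h1 : ∀ q : TQ N, ∑ v, (if φ q = v then ι (tchg b q) else 0) = ι (tchg b q) := by
        intro q
        rw [sum_ite_eq, if_pos (mem_univ _)]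
      rw [sum_congr rfl fun q _ => h1 q, ← map_sum, hsum, hι, sub_self])
  -- the world
  obtain ⟨m', hm', cc, Gam, hrm, hGcard, hGood⟩ := hN₁ N hNN A hA1
  obtain ⟨M, act, hW, hpos, hgrow, hsat⟩ := Flat.Herm.tseitinMod_world (K := K) p hω hr' (hrm := hrm)
    (Flat.Herm.spectator_sum hrm fun u => Flat.ph (cc u)) (hsmall m' hrm) v0 b hGood hGcard hA3
  obtain ⟨act', hW', hF'⟩ := graph_world hW (kills_of_satisfies hsat) ι hφ hf hload g
    (s := s) (fun v => by rw [hg v]; ring) hΔ1 hA4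
  obtain ⟨act'', hW'', hF''⟩ := above_world hW' (T := tseitin src tgt r s) (fun C hC u hu =>
    hF' C.toList (FG.mem_listCNF.2 ⟨C, hC, rfl⟩) u hu) hi₀ hF (by
      have h1 : 2 * Δ' * ((Nat.log 2 (3 * Fintype.card E) + 3) * r') ≤ A := by
        refine le_trans ?_ hA4
        rw [mul_assoc]
        refine Nat.mul_le_mul_left 2 ?_
        rw [← mul_assoc]
        exact Nat.mul_le_mul_right r' (Nat.le_add_right _ 3)
      have h2 : 2 * Δ' ≤ A / ((Nat.log 2 (3 * Fintype.card E) + 3) * r') :=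
        (Nat.le_div_iff_mul_le (Nat.mul_pos (by omega) (by omega))).2 h1
      omega)
  have hfin := hM₂ w hwwM X _
    (fun a => M ((Nat.log 2 (3 * Fintype.card E) + 3) * r' * a)) act''
    (A / ((Nat.log 2 (3 * Fintype.card E) + 3) * r')) hW'' hA2
    (by
      show 0 < Module.finrank K (M (_ * 0))
      rw [mul_zero]
      exact hpos)
    (by
      show Module.finrank K (M (_ * _)) ≤ 256 * Module.finrank K (M (_ * 0))
      rw [mul_zero]
      refine le_trans ?_ hgrow
      exact Submodule.finrank_mono (hW.mono (Nat.mul_div_le A _) le_rfl))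
    F (fun D hD => ⟨(hF D hD).1, hF'' D hD⟩) d l L hL
  exact (bound_mono hcpos hcc1 w d).trans hfin

/-- **The lower bound for the Tseitin formulas of all graphs**, and for all formulas whose clauses
contain clauses of a Tseitin formula. -/
theorem main_allF (p r Δ B : ℕ) [hp : Fact p.Prime] [NeZero r]
    (hR : ∀ r', 2 ≤ r' → RMT2 r') {S : Set Rule} (hS : S.Finite) (hsound : ∀ R ∈ S, R.Sound p) :
    ∃ c : ℝ, 0 < c ∧ ∀ (V E : Type) [Fintype V] [Fintype E] [DecidableEq V] [DecidableEq E]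
      (src tgt : E → V), Connected src tgt → (∀ v, (inc src tgt v).card ≤ Δ) →
      ∀ w : ℕ, ¬ HasTreeDec src tgt w → ∀ s : V → ZMod r, ∑ v, s v ≠ 0 →
      Nat.Coprime p (addOrderOf (∑ v, s v)) →
      ∀ (X : Type) (i : E × ZMod r → X), Function.Injective i → ∀ F : List (List (X × Bool)),
      Above i (tseitin src tgt r s) B F →
      ∀ (d l : ℕ) (L : Fin l → Form X), Refutes S d F L →
        Real.exp (c * (w : ℝ) ^ (c / (d + 1))) ≤ size L := by
  obtain ⟨c, hc, h⟩ := unif_c (fun n c => 2 ≤ n → Nat.Coprime p n →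
      ∀ (V E : Type) [Fintype V] [Fintype E] [DecidableEq V] [DecidableEq E]
      (src tgt : E → V), Connected src tgt → (∀ v, (inc src tgt v).card ≤ Δ) →
      ∀ w : ℕ, ¬ HasTreeDec src tgt w → ∀ s : V → ZMod r, addOrderOf (∑ v, s v) = n →
      ∀ (X : Type) (i : E × ZMod r → X), Function.Injective i → ∀ F : List (List (X × Bool)),
      Above i (tseitin src tgt r s) B F →
      ∀ (d l : ℕ) (L : Fin l → Form X), Refutes S d F L →
        Real.exp (c * (w : ℝ) ^ (c / (d + 1))) ≤ size L)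
    (by
      intro n c c' hc hcc h h2 hcop V E _ _ _ _ src tgt hconn hΔ w hw s hs X i hi F hF d l L hL
      exact (bound_mono hc hcc w d).trans (h h2 hcop V E src tgt hconn hΔ w hw s hs X i hi F
        hF d l L hL)) r
    (by
      intro n _
      by_cases hn : 2 ≤ n ∧ Nat.Coprime p n
      · have : NeZero n := ⟨by omega⟩
        obtain ⟨c, hc, h⟩ := main_orderF p r n Δ B (by omega) hn.2 (hR n hn.1) hS hsound
        exact ⟨c, hc, fun _ _ => h⟩
      · exact ⟨1, one_pos, fun h1 h2 => absurd ⟨h1, h2⟩ hn⟩)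
  refine ⟨c, hc, ?_⟩
  intro V E _ _ _ _ src tgt hconn hΔ w hw s hs hcop X i hi F hF d l L hL
  have h1 : addOrderOf (∑ v, s v) ≤ r := by
    have := addOrderOf_le_card_univ (x := ∑ v, s v)
    rwa [ZMod.card] at this
  have h2 : 2 ≤ addOrderOf (∑ v, s v) := by
    have h3 : addOrderOf (∑ v, s v) ≠ 1 := by
      intro h4
      exact hs (AddMonoid.addOrderOf_eq_one_iff.1 h4)
    have h5 : 0 < addOrderOf (∑ v, s v) := addOrderOf_pos _
    omega
  exact h _ h1 h2 hcop V E src tgt hconn hΔ w hw s rfl X i hi F hF d l L hL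

end Pool.Agent.MP_9cec2c_lc.TT
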