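import Pool.Agent.Lib.MP_9cec2c_lc.MXChain
import Pool.Agent.Lib.MP_9cec2c_lc.Mg.G023

/-!
Short mixed refutations of the disjunction of several Tseitin formulas.
-/

set_option autoImplicit false
set_option linter.unusedSectionVars false

namespace Pool.Agent.MP_9cec2c_lc.MX

open Finset TT FG CE TU

variable {V E J : Type} [Fintype V] [Fintype E] [Fintype J] [DecidableEq V] [DecidableEq E]
  [DecidableEq J] {src tgt : E → V} {r : J → ℕ} [∀ j, NeZero (r j)] {s : ∀ j, V → ZMod (r j)}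

/-- The clauses of the formula `j` as lists of formulas. -/
noncomputable def cls (src tgt : E → V) (r : J → ℕ) [∀ j, NeZero (r j)] (s : ∀ j, V → ZMod (r j))
    (j : J) : List (List (Form (Σ j, E × ZMod (r j)))) :=
  (tseitinCNF src tgt (r j) (s j)).map fun D => D.map fun l => lit (⟨j, l.1⟩, l.2)

theorem subst_lit {U X : Type} (i : U → X) (l : U × Bool) :
    subst (fun u => .var (i u)) (lit l) = lit (i l.1, l.2) := by
  obtain ⟨u, b⟩ := l
  cases b <;> rfl

theorem subst_clause {U X : Type} (i : U → X) (D : List (U × Bool)) :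
    subst (fun u => .var (i u)) (clause D) = disjL (D.map fun l => lit (i l.1, l.2)) := by
  unfold clause
  rw [subst_disjL, List.map_map]
  congr 1
  refine List.map_congr_left fun l _ => subst_lit i l

theorem lit_cases {X : Type} (l : X × Bool) : lit l = .var l.1 ∨ lit l = .neg (.var l.1) := by
  obtain ⟨u, b⟩ := l
  cases b
  · exact Or.inr rfl
  · exact Or.inl rfl

theorem wt_lit {X : Type} (l : X × Bool) : CE.wt (lit l) ≤ 2 := by
  rcases lit_cases l with h | h <;> rw [h] <;> simp [CE.wt]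

theorem lit_ok {X : Type} (l : X × Bool) : CountFree (lit l) ∧ (lit l).depth ≤ 0 := by
  rcases lit_cases l with h | h
  · rw [h]
    exact ⟨trivial, le_rfl⟩
  · rw [h]
    exact ⟨trivial, le_rfl⟩

theorem cls_lit (j : J) : ∀ Λ ∈ cls src tgt r s j, ∀ φ ∈ Λ, CountFree φ ∧ φ.depth ≤ 0 := by
  intro Λ hΛ φ hφ
  obtain ⟨D, hD, rfl⟩ := List.mem_map.1 hΛ
  obtain ⟨l, hl, rfl⟩ := List.mem_map.1 hφ
  exact lit_ok _

theorem wtL_lits {X Y : Type} (i : Y → X × Bool) (D : List Y) :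
    wtL (D.map fun l => lit (i l)) ≤ 2 * D.length := by
  refine (wtL_le (w := 2) fun φ hφ => ?_).trans ?_
  · obtain ⟨l, -, rfl⟩ := List.mem_map.1 hφ
    exact wt_lit _
  · rw [List.length_map, mul_comm]

theorem cls_wt {Δ : ℕ} (hr : ∀ j, 2 ≤ r j) (hΔ : ∀ v, (inc src tgt v).card ≤ Δ) (j : J) :
    ∀ Λ ∈ cls src tgt r s j, wtL Λ ≤ 2 * ∑ j, max (r j) Δ := by
  intro Λ hΛ
  obtain ⟨D, hD, rfl⟩ := List.mem_map.1 hΛ
  refine (wtL_lits (fun l => ((⟨j, l.1⟩ : Σ j, E × ZMod (r j)), l.2)) D).trans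
    (Nat.mul_le_mul_left 2 ((tseitin_width (hr j) hΔ D hD).trans ?_))
  exact single_le_sum (f := fun j => max (r j) Δ) (fun _ _ => Nat.zero_le _) (mem_univ j)

/-- Every union of clauses contains a clause of the formula. -/
theorem exists_choice (js : List J) : ∀ Γ ∈ Gs (cls src tgt r s) js,
    ∃ C : ∀ j, Finset ((E × ZMod (r j)) × Bool), ∀ j ∈ js,
      C j ∈ tseitin src tgt (r j) (s j) ∧
        ∀ l ∈ C j, lit ((⟨j, l.1⟩ : Σ j, E × ZMod (r j)), l.2) ∈ Γ := by
  induction js with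
  | nil => exact fun Γ _ => ⟨fun _ => ∅, fun j hj => absurd hj List.not_mem_nil⟩
  | cons j js ih =>
    intro Γ hΓ
    obtain ⟨Λ, hΛ, Γ', hΓ', rfl⟩ := mem_Gs_cons.1 hΓ
    obtain ⟨C, hC⟩ := ih Γ' hΓ'
    obtain ⟨D, hD, rfl⟩ := List.mem_map.1 hΛ
    obtain ⟨κ, hκ, rfl⟩ := mem_listCNF.1 hD
    refine ⟨Function.update C j κ, fun j' hj' => ?_⟩
    by_cases h : j' = j
    · subst h
      rw [Function.update_self]
      exact ⟨hκ, fun l hl => List.mem_append_left _ (List.mem_map.2 ⟨l, mem_toList.2 hl, rfl⟩)⟩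
    · rw [Function.update_of_ne h]
      obtain ⟨h1, h2⟩ := hC j' ((List.mem_cons.1 hj').resolve_left h)
      exact ⟨h1, fun l hl => List.mem_append_right _ (h2 l hl)⟩

/-- The number of lines. -/
def allLen (k a n w : ℕ) : ℕ := (1 + k * (a ^ k * (n + 2 * a + 1))) + a ^ k * (w + 2)

/-- The size of the lines. -/
def allWt (k P w : ℕ) : ℕ := P + 2 * w + k * (2 * w) + 2

/-- **Short mixed refutations.** -/
theorem easy_all (Q : Finset ℕ) (hQ : ∀ q ∈ Q, q.Prime) (hQ0 : Q.Nonempty) {S : ℕ → Set Rule}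
    (hS : ∀ q ∈ Q, sideRules q ⊆ S q) (J : Type) [Fintype J] [DecidableEq J] (r : J → ℕ)
    [∀ j, NeZero (r j)] (Δ : ℕ) : ∃ C : ℕ, ∀ (V E : Type) [Fintype V] [Fintype E]
      [DecidableEq V] [DecidableEq E] (src tgt : E → V), (∀ v, (inc src tgt v).card ≤ Δ) →
      ∀ s : ∀ j, V → ZMod (r j), (∀ j, ∃ q ∈ Q, q ∣ addOrderOf (∑ v, s j v)) →
      ∃ (l : ℕ) (τ : Fin l → ℕ) (L : Fin l → Form (Σ j, E × ZMod (r j))),
        IsMixed Q S 5 {φ | ∃ D ∈ allCNF src tgt r s, φ = clause D} τ L ∧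
        (∃ i, L i = falsum) ∧ size L ≤ (Fintype.card V + Fintype.card E + 2) ^ C := by
  classical
  obtain ⟨q₀, hq₀⟩ := hQ0
  have h1 := fun (q : Q) (j : J) => easy_lin q.1 (hQ q.1 q.2) (r j) Δ
  choose C₁ hC₁ using h1
  obtain ⟨C₀, hC₀⟩ : ∃ C₀, ∀ q j, C₁ q j ≤ C₀ :=
    ⟨∑ q, ∑ j, C₁ q j, fun q j => (single_le_sum (f := fun j => C₁ q j)
      (fun _ _ => Nat.zero_le _) (mem_univ j)).trans (single_le_sum
        (f := fun q => ∑ j, C₁ q j) (fun _ _ => Nat.zero_le _) (mem_univ q))⟩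
  obtain ⟨K, hK⟩ : ∃ K, K = ∑ j, (r j ^ 2 + 1 + r j ^ Δ) := ⟨_, rfl⟩
  obtain ⟨w, hw⟩ : ∃ w, w = ∑ j, max (r j) Δ := ⟨_, rfl⟩
  obtain ⟨k, hk⟩ : ∃ k, k = Fintype.card J := ⟨_, rfl⟩
  have hpb : PB fun M => allLen k (K * (M + 2) + 1) ((M + 2) ^ C₀) w *
      (allWt k ((M + 2) ^ C₀) w + 1) := by
    have ha : PB fun M => K * (M + 2) + 1 := ((PB.const K).mul PB.base).add (PB.const 1)
    have hn : PB fun M => (M + 2) ^ C₀ := PB.base.pow C₀
    have g1 : PB fun M => allLen k (K * (M + 2) + 1) ((M + 2) ^ C₀) w :=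
      ((PB.const 1).add ((PB.const k).mul ((ha.pow k).mul ((hn.add ((PB.const 2).mul ha)).add
        (PB.const 1))))).add ((ha.pow k).mul (PB.const (w + 2)))
    have g2 : PB fun M => allWt k ((M + 2) ^ C₀) w :=
      ((hn.add (PB.const (2 * w))).add (PB.const (k * (2 * w)))).add (PB.const 2)
    exact g1.mul (g2.add (PB.const 1))
  obtain ⟨C, hC⟩ := hpb
  refine ⟨C, fun V E _ _ _ _ src tgt hΔ s hs => ?_⟩
  obtain ⟨M, hM⟩ : ∃ M, M = Fintype.card V + Fintype.card E := ⟨_, rfl⟩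
  have hr : ∀ j, 2 ≤ r j := by
    intro j
    by_contra hcon
    have h2 : r j = 1 := by
      have := Nat.pos_of_ne_zero (NeZero.ne (r j))
      omega
    have h3 : Subsingleton (ZMod (r j)) := by
      rw [h2]
      infer_instance
    obtain ⟨q, hq, hdvd⟩ := hs j
    rw [Subsingleton.elim (∑ v, s j v) 0, addOrderOf_zero] at hdvd
    exact (hQ q hq).one_lt.ne' (Nat.dvd_one.1 hdvd)
  choose q hq hdvd using hs
  have h2 := fun j => hC₁ ⟨q j, hq j⟩ j V E src tgt hΔ (s j) (hdvd j)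
  choose n P Ls hLs hf hn hP hnP using h2
  have hM1 : 1 ≤ M + 2 := by omega
  have hnP' : ∀ j, n j * (P j + 1) ≤ (M + 2) ^ C₀ := by
    intro j
    refine (hnP j).trans ?_
    rw [hM]
    exact Nat.pow_le_pow_right (by omega) (hC₀ _ _)
  have hn1 : ∀ j, 1 ≤ n j := by
    intro j
    refine le_trans ?_ (hn j)
    exact List.length_pos_of_mem (hf j)
  have hn' : ∀ j, (Ls j).length ≤ (M + 2) ^ C₀ := by
    intro j
    refine (hn j).trans (le_trans ?_ (hnP' j))
    exact Nat.le_mul_of_pos_right _ (Nat.succ_pos _)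
  have hP' : ∀ j, P j ≤ (M + 2) ^ C₀ := by
    intro j
    refine le_trans ?_ (hnP' j)
    exact (Nat.le_succ _).trans (Nat.le_mul_of_pos_left _ (hn1 j))
  have ha : ∀ j, (cls src tgt r s j).length ≤ K * (M + 2) + 1 := by
    intro j
    unfold cls
    rw [List.length_map]
    refine (tseitin_length hΔ).trans ?_
    have g1 : r j ^ 2 + 1 + r j ^ Δ ≤ K := by
      rw [hK]
      exact single_le_sum (f := fun j => r j ^ 2 + 1 + r j ^ Δ) (fun _ _ => Nat.zero_le _)
        (mem_univ j)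
    have g2 : (r j ^ 2 + 1) * Fintype.card E + r j ^ Δ * Fintype.card V ≤
        (r j ^ 2 + 1 + r j ^ Δ) * (M + 2) := by
      rw [add_mul (r j ^ 2 + 1)]
      exact Nat.add_le_add (Nat.mul_le_mul_left _ (by omega)) (Nat.mul_le_mul_left _ (by omega))
    exact (g2.trans (Nat.mul_le_mul_right _ g1)).trans (Nat.le_succ _)
  -- the derivation from the unions
  have hL : ∀ j, Lin (insert kN (ceRules (q j))) 4
      {φ | ∃ Λ ∈ cls src tgt r s j, φ = disjL Λ}
      ((Ls j).map (subst fun u => .var (⟨j, u⟩ : Σ j, E × ZMod (r j)))) := by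
    intro j
    have g1 := Lin_subst (V := Σ j, E × ZMod (r j)) (hLs j) (ψ := fun u => .var ⟨j, u⟩) (e := 0)
      (fun u => le_rfl)
    refine Lin_mono g1 le_rfl ?_
    rintro φ ⟨ψ, ⟨D, hD, rfl⟩, rfl⟩
    exact ⟨_, List.mem_map.2 ⟨D, hD, rfl⟩, subst_clause _ D⟩
  have hlenj : (univ : Finset J).toList.length = k := by
    rw [length_toList, card_univ, hk]
  obtain ⟨A, hA, ⟨q₁, hq₁⟩, hA2, hA3⟩ := chain (Q := Q) (S := S) (d := 4)
    (cls src tgt r s) q hq (S' := fun q => insert kN (ceRules q)) (fun q => ce_one q) hS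
    (fun j => (Ls j).map (subst fun u => .var (⟨j, u⟩ : Σ j, E × ZMod (r j)))) (by norm_num) hL
    (fun j => List.mem_map.2 ⟨falsum, hf j, subst_falsum _⟩) (n := (M + 2) ^ C₀)
    (a := K * (M + 2) + 1) (P := (M + 2) ^ C₀) (w := 2 * w)
    (fun j => by rw [List.length_map]; exact hn' j)
    (fun j φ hφ => by
      obtain ⟨χ, hχ, rfl⟩ := List.mem_map.1 hφ
      refine (wt_subst (W := 1) (fun u => ?_) le_rfl χ).trans ?_
      · simp [CE.wt]
      · rw [mul_one]
        exact (hP j χ hχ).trans (hP' j))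
    ha (Nat.succ_pos _) (fun j => by rw [hw]; exact cls_wt hr hΔ j) (fun j => cls_lit j) hq₀
    (univ : Finset J).toList
  rw [hlenj] at hA2 hA3
  -- the unions from the clauses
  have hB : ∀ Bs : List (List (Form (Σ j, E × ZMod (r j)))),
      (∀ Γ ∈ Bs, Γ ∈ Gs (cls src tgt r s) (univ : Finset J).toList) →
      ∃ B, MLin Q S 5 {φ | ∃ D ∈ allCNF src tgt r s, φ = clause D} B ∧
        (∀ Γ ∈ Bs, (q₀, disjL Γ) ∈ B) ∧ B.length ≤ Bs.length * (w + 2) ∧
        ∀ x ∈ B, CE.wt x.2 ≤ allWt k ((M + 2) ^ C₀) w := by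
    intro Bs
    induction Bs with
    | nil =>
      exact fun _ => ⟨[], MLin.nil, fun Γ hΓ => absurd hΓ List.not_mem_nil, by simp,
        fun x hx => absurd hx List.not_mem_nil⟩
    | cons Γ Bs ihB =>
      intro hBs
      obtain ⟨B, b1, b2, b3, b4⟩ := ihB fun Γ' h' => hBs Γ' (List.mem_cons_of_mem _ h')
      have hΓ := hBs Γ List.mem_cons_self
      obtain ⟨C', hC'⟩ := exists_choice _ Γ hΓ
      have hmem : (unionC C').toList ∈ allCNF src tgt r s :=
        mem_all.2 ⟨C', fun j => (hC' j (mem_toList.2 (mem_univ j))).1, rfl⟩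
      have hlen := all_width hr hΔ _ hmem
      rw [← hw] at hlen
      have hΓw := Gs_wt (w := 2 * w) (fun j => by rw [hw]; exact cls_wt hr hΔ j) _ Γ hΓ
      rw [hlenj] at hΓw
      have hΓd := Gs_lit (fun j => cls_lit (src := src) (tgt := tgt) (s := s) j) _ Γ hΓ
      have hDw : wtL ((unionC C').toList.map lit) ≤ 2 * w :=
        (wtL_lits (fun l => l) _).trans (Nat.mul_le_mul_left 2 hlen)
      obtain ⟨Ls', g1, g2, g3, g4⟩ := conv_ax (S := S q₀) (d := 5)
        (Φ := {φ | ∃ D ∈ allCNF src tgt r s, φ = clause D})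
        (hS q₀ hq₀ (Or.inr (by simp))) (hS q₀ hq₀ (Or.inr (by simp)))
        (Λ := (unionC C').toList.map lit) (Λ' := Γ)
        (fun φ hφ => by
          have := (hΓd φ hφ).2
          omega)
        (fun φ hφ => by
          obtain ⟨l, hl, rfl⟩ := List.mem_map.1 hφ
          rw [mem_toList, mem_unionC] at hl
          exact (hC' l.1.1 (mem_toList.2 (mem_univ _))).2 _ hl)
        ⟨_, hmem, rfl⟩
      refine ⟨_, (MLin.of_lin hq₀ subset_rfl g1).append b1, fun Γ' hΓ' => ?_, ?_,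
        fun x hx => ?_⟩
      · rcases List.mem_cons.1 hΓ' with rfl | hΓ'
        · exact List.mem_append_left _ (List.mem_map.2 ⟨_, g2, rfl⟩)
        · exact List.mem_append_right _ (b2 Γ' hΓ')
      · rw [List.length_append, List.length_map, List.length_cons, Nat.add_mul, one_mul]
        rw [List.length_map] at g3
        omega
      · rcases List.mem_append.1 hx with hx | hx
        · obtain ⟨φ, hφ, rfl⟩ := List.mem_map.1 hx
          have h5 := g4 φ hφ
          show CE.wt φ ≤ _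
          unfold allWt
          omega
        · exact b4 x hx
  obtain ⟨B, b1, b2, b3, b4⟩ := hB _ fun Γ hΓ => hΓ
  obtain ⟨Cc, c1, c2, c3, c4⟩ := hA.cut b1 (by
    rintro φ ⟨Γ, hΓ, rfl⟩
    exact ⟨countFree_disjL fun φ hφ => (Gs_lit (fun j => cls_lit j) _ Γ hΓ φ hφ).1, q₀,
      b2 Γ hΓ⟩)
  obtain ⟨q₂, hq₂⟩ := c2 _ _ hq₁
  obtain ⟨l, τ, L, h1, h2, h3⟩ := c1.exists hq₂
    (n := allLen k (K * (M + 2) + 1) ((M + 2) ^ C₀) w) (P := allWt k ((M + 2) ^ C₀) w) (by
      have h5 := length_Gs ha (univ : Finset J).toList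
      rw [hlenj] at h5
      have h6 := Nat.mul_le_mul_right (w + 2) h5
      unfold allLen
      omega) (fun x hx => by
      rcases c4 x hx with h5 | h5
      · have := hA3 x h5
        unfold allWt
        omega
      · exact b4 x h5)
  refine ⟨l, τ, L, h1, h2, h3.trans ?_⟩
  rw [← hM]
  exact hC M

end Pool.Agent.MP_9cec2c_lc.MX
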