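import Pool.Agent.Lib.MP_9cec2c_lc.MXForm

/-!
Formulas without counting gates have approximations with integer values which are correct on almost
all vectors of several worlds at once.
-/

set_option autoImplicit false
set_option linter.unusedSectionVars false

namespace Pool.Agent.MP_9cec2c_lc.MX

open Finset Frege FG

variable {V : Type} {ι : Type} [Fintype ι] {K W : ι → Type} [∀ i, Field (K i)]
  [∀ i, AddCommGroup (W i)] [∀ i, Module (K i) (W i)] [∀ i, FiniteDimensional (K i) (W i)]
  {M : ∀ i, ℕ → Submodule (K i) (W i)} {act : ∀ i, Fun (K i) V →ₗ[K i] W i →ₗ[K i] W i} {A : ℕ}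

/-- The approximation of one more disjunction of idempotent functions. -/
theorem exists_gate (hW : ∀ i, World (M i) (act i) A) {k d m R a₀ : ℕ} {B : ℝ} (hk : 1 ≤ k)
    (hB0 : 0 ≤ B) (hB : ∀ i, ∀ a ≤ A, (Module.finrank (K i) (M i a) : ℝ) ≤ B)
    (hA : a₀ + (m + k + 8) * k ^ d ≤ A) {𝓡 : Set (Fun ℤ V)} (hR : ∀ P ∈ 𝓡, DegZ (2 * k ^ d) P)
    (Λ : Finset (Form V)) (hΛ : Λ.card ≤ 2 ^ R) (g : Form V → Fun ℤ V) {c : ℕ} (hc : c + 1 ≤ d)
    (hg : ∀ χ ∈ Λ, DegZ (k ^ c) (g χ))
    (hid : ∀ i, ∀ χ ∈ Λ, ∀ a f, a + 4 * k ^ d ≤ A → f ∈ GG (M i) (act i) 𝓡 a →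
      act i (castF (K i) (g χ) * castF (K i) (g χ)) f = act i (castF (K i) (g χ)) f) :
    ∃ S : Fin k → Finset (Form V), (∀ j, ∀ χ ∈ S j, χ ∈ Λ) ∧ DegZ (k ^ (c + 1)) (fac g S) ∧
      ∀ i, (Module.finrank (K i) (GG (M i) (act i) 𝓡 a₀) : ℝ) ≤
        Module.finrank (K i) (GG (M i) (act i) (𝓡 ∪ {P | ∃ χ ∈ Λ, P = g χ * fac g S}) a₀) +
        Fintype.card ι * B * (2 * (1 - 1 / (2 * (R + 1))) ^ k + 1 / 2 ^ m) := by
  classical
  obtain ⟨A', hA'⟩ : ∃ A', A' = A - 4 * k ^ d := ⟨_, rfl⟩
  have h4 : (m + k + 8) * k ^ d = (m + k + 3) * k ^ d + 5 * k ^ d := by ring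
  have hcd : k ^ c ≤ k ^ d := Nat.pow_le_pow_right hk (by omega)
  have hmk : (m + k + 3) * k ^ c ≤ (m + k + 3) * k ^ d := Nat.mul_le_mul_left _ hcd
  have hWG : ∀ i, World (GG (M i) (act i) 𝓡) (act i) A' := fun i =>
    world_GG (hW i) hR (by omega)
  obtain ⟨S', hS'⟩ := exists_nor (G := fun i => GG (M i) (act i) 𝓡) (act := act) (A := A')
    (β := {χ // χ ∈ Λ}) (g := fun χ => g χ.1) (t := k ^ c) (a₀ := a₀) (m := m) (R := R) (B := B)
    hWG (by rw [Fintype.card_coe]; exact hΛ) (fun χ => hg χ.1 χ.2)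
    (fun i χ a f ha hf => hid i χ.1 χ.2 a f (by omega) hf) hB0
    (fun i a ha => le_trans (by
      exact_mod_cast Submodule.finrank_mono (inf_le_left (a := M i a))) (hB i a (by omega)))
    k (by omega)
  obtain ⟨S, hS⟩ : ∃ S : Fin k → Finset (Form V), S = fun j => (S' j).map
    (Function.Embedding.subtype _) := ⟨_, rfl⟩
  have hSΛ : ∀ j, ∀ χ ∈ S j, χ ∈ Λ := by
    intro j χ hχ
    rw [hS] at hχ
    obtain ⟨χ', -, rfl⟩ := mem_map.1 hχ
    exact χ'.2
  have hfac : fac (fun χ : {χ // χ ∈ Λ} => g χ.1) S' = fac g S := by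
    unfold fac
    refine prod_congr rfl fun j _ => ?_
    rw [hS, sum_map]
    rfl
  rw [hfac] at hS'
  have hdeg : DegZ (k ^ (c + 1)) (fac g S) := by
    rw [← hfac, pow_succ']
    exact fac_deg S' fun χ => hg χ.1 χ.2
  refine ⟨S, hSΛ, hdeg, fun i => ?_⟩
  have hker : kr (GG (M i) (act i) 𝓡) (act i) (fun χ : {χ // χ ∈ Λ} => castF (K i) (g χ.1))
      (castF (K i) (fac g S)) univ a₀ =
      GG (M i) (act i) (𝓡 ∪ {P | ∃ χ ∈ Λ, P = g χ * fac g S}) a₀ := by
    ext f
    rw [mem_kr, mem_GG, mem_GG]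
    constructor
    · rintro ⟨⟨h1, h2⟩, h3⟩
      refine ⟨h1, fun P hP => ?_⟩
      rcases hP with hP | ⟨χ, hχ, rfl⟩
      · exact h2 P hP
      · rw [map_mul]
        exact h3 ⟨χ, hχ⟩ (mem_univ _)
    · rintro ⟨h1, h2⟩
      refine ⟨⟨h1, fun P hP => h2 P (Or.inl hP)⟩, fun χ _ => ?_⟩
      have h3 := h2 (g χ.1 * fac g S) (Or.inr ⟨χ.1, χ.2, rfl⟩)
      rwa [map_mul] at h3
  have h1 := hS' i
  rw [hker] at h1
  linarith

theorem GG_anti {K W : Type} [Field K] [AddCommGroup W] [Module K W]
    {M : ℕ → Submodule K W} {act : Fun K V →ₗ[K] W →ₗ[K] W} {𝓡 𝓡' : Set (Fun ℤ V)} (h : 𝓡 ⊆ 𝓡')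
    (a : ℕ) : GG M act 𝓡' a ≤ GG M act 𝓡 a := by
  intro f hf
  rw [mem_GG] at hf ⊢
  exact ⟨hf.1, fun P hP => hf.2 P (h hP)⟩

theorem Good.congr {k : ℕ} {e e' : Form V → Fun ℤ V} {𝓡 𝓡' : Set (Fun ℤ V)}
    {Γ : Set (Form V)} (h : Good k e 𝓡 Γ) (hΓ : ∀ φ ∈ Γ, ∀ ψ ∈ φ.parts, ψ ∈ Γ)
    (he : ∀ φ ∈ Γ, e' φ = e φ) (hR : 𝓡 ⊆ 𝓡') : Good k e' 𝓡' Γ where
  var v hv := by rw [he _ hv, h.var v hv]
  neg φ hφ := by
    rw [he _ hφ, he φ (hΓ _ hφ φ (Set.mem_insert_of_mem _ (self_mem_parts φ))), h.neg φ hφ]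
  disj ψ hψ hd := by
    obtain ⟨S, h1, h2, h3⟩ := h.disj ψ hψ hd
    have h4 : ∀ χ ∈ dl ψ, e' χ = e χ := fun χ hχ => he χ (hΓ ψ hψ χ (dl_facts ψ χ hχ).1)
    refine ⟨S, h1, ?_, fun χ hχ => ?_⟩
    · rw [he ψ hψ, h2]
      unfold fac
      refine prod_congr rfl fun j _ => ?_
      rw [sum_congr rfl fun χ hχ => h4 χ (h1 j χ hχ)]
    · rw [he ψ hψ, h4 χ hχ]
      exact hR (h3 χ hχ)
  conj ψ hψ hd := by
    obtain ⟨S, h1, h2, h3⟩ := h.conj ψ hψ hd
    have h4 : ∀ χ ∈ cl ψ, e' χ = e χ := fun χ hχ => he χ (hΓ ψ hψ χ (cl_facts ψ χ hχ).1)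
    refine ⟨S, h1, ?_, fun χ hχ => ?_⟩
    · rw [he ψ hψ, h2]
      unfold fac
      refine prod_congr rfl fun j _ => ?_
      congr 1
      exact sum_congr rfl fun χ hχ => by
        show 1 - e χ = 1 - e' χ
        rw [h4 χ (h1 j χ hχ)]
    · rw [he ψ hψ, h4 χ hχ]
      exact hR (h3 χ hχ)

theorem countFree_parts {φ ψ : Form V} (h : CountFree φ) (hψ : ψ ∈ φ.parts) : CountFree ψ := by
  induction φ with
  | var v =>
    rw [Form.parts, Set.mem_singleton_iff] at hψ
    rw [hψ]
    exact h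
  | neg φ ih =>
    rw [Form.parts, Set.mem_insert_iff] at hψ
    rcases hψ with rfl | hψ
    · exact h
    · exact ih h hψ
  | conj m F ih =>
    rw [Form.parts, Set.mem_insert_iff] at hψ
    rcases hψ with rfl | hψ
    · exact h
    · obtain ⟨i, hi⟩ := Set.mem_iUnion.1 hψ
      exact ih i (h i) hi
  | disj m F ih =>
    rw [Form.parts, Set.mem_insert_iff] at hψ
    rcases hψ with rfl | hψ
    · exact h
    · obtain ⟨i, hi⟩ := Set.mem_iUnion.1 hψ
      exact ih i (h i) hi
  | count r m F _ => exact absurd h id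

/-- The height of a formula. -/
def ht : Form V → ℕ
  | .var _ => 0
  | .neg φ => ht φ + 1
  | .conj _ F => (univ.sup fun i => ht (F i)) + 1
  | .disj _ F => (univ.sup fun i => ht (F i)) + 1
  | .count _ _ F => (univ.sup fun i => ht (F i)) + 1

/-- A proper part of a formula has a smaller height. -/
theorem ht_part {φ ψ : Form V} (h : ψ ∈ φ.parts) : ψ = φ ∨ ht ψ < ht φ := by
  induction φ with
  | var v =>
    rw [Form.parts, Set.mem_singleton_iff] at h
    exact Or.inl h
  | neg φ ih =>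
    rw [Form.parts, Set.mem_insert_iff] at h
    rcases h with rfl | h
    · exact Or.inl rfl
    · refine Or.inr ?_
      have h1 : ht (Form.neg φ) = ht φ + 1 := rfl
      rcases ih h with rfl | h2 <;> omega
  | conj m F ih =>
    rw [Form.parts, Set.mem_insert_iff] at h
    rcases h with rfl | h
    · exact Or.inl rfl
    · refine Or.inr ?_
      obtain ⟨i, hi⟩ := Set.mem_iUnion.1 h
      have h1 : ht (F i) ≤ univ.sup fun i => ht (F i) :=
        Finset.le_sup (f := fun i => ht (F i)) (mem_univ i)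
      have h2 : ht (Form.conj m F) = (univ.sup fun i => ht (F i)) + 1 := rfl
      rcases ih i hi with rfl | h3 <;> omega
  | disj m F ih =>
    rw [Form.parts, Set.mem_insert_iff] at h
    rcases h with rfl | h
    · exact Or.inl rfl
    · refine Or.inr ?_
      obtain ⟨i, hi⟩ := Set.mem_iUnion.1 h
      have h1 : ht (F i) ≤ univ.sup fun i => ht (F i) :=
        Finset.le_sup (f := fun i => ht (F i)) (mem_univ i)
      have h2 : ht (Form.disj m F) = (univ.sup fun i => ht (F i)) + 1 := rfl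
      rcases ih i hi with rfl | h3 <;> omega
  | count r m F ih =>
    rw [Form.parts, Set.mem_insert_iff] at h
    rcases h with rfl | h
    · exact Or.inl rfl
    · refine Or.inr ?_
      obtain ⟨i, hi⟩ := Set.mem_iUnion.1 h
      have h1 : ht (F i) ≤ univ.sup fun i => ht (F i) :=
        Finset.le_sup (f := fun i => ht (F i)) (mem_univ i)
      have h2 : ht (Form.count r m F) = (univ.sup fun i => ht (F i)) + 1 := rfl
      rcases ih i hi with rfl | h3 <;> omega

/-- All formulas of a finite set without counting gates have approximations with integer values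
which are correct up to a small part of each world. -/
theorem exists_exact (hW : ∀ i, World (M i) (act i) A) {k d m R a₀ : ℕ} {B : ℝ} (hk : 1 ≤ k)
    (hB0 : 0 ≤ B) (hB : ∀ i, ∀ a ≤ A, (Module.finrank (K i) (M i a) : ℝ) ≤ B)
    (hA : a₀ + (m + k + 8) * k ^ d ≤ A) {ε : ℝ}
    (hε : ε = Fintype.card ι * B * (2 * (1 - 1 / (2 * (R + 1))) ^ k + 1 / 2 ^ m)) :
    ∀ (n : ℕ) (Γ : Finset (Form V)), Γ.card = n → (∀ φ ∈ Γ, CountFree φ) →
      (∀ φ ∈ Γ, φ.depth ≤ d) → (∀ φ ∈ Γ, ∀ ψ ∈ φ.parts, ψ ∈ Γ) → Γ.card ≤ 2 ^ R →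
      ∃ (e : Form V → Fun ℤ V) (𝓡 : Set (Fun ℤ V)), Good k e 𝓡 Γ ∧
        (∀ φ ∈ Γ, DegZ (k ^ φ.depth) (e φ)) ∧ (∀ P ∈ 𝓡, DegZ (2 * k ^ d) P) ∧
        ∀ i, (Module.finrank (K i) (M i a₀) : ℝ) ≤
          Module.finrank (K i) (GG (M i) (act i) 𝓡 a₀) + n * ε := by
  classical
  have hε0 : 0 ≤ ε := by
    rw [hε]
    have h1 : (0 : ℝ) ≤ 1 - 1 / (2 * (R + 1)) := by
      rw [sub_nonneg, div_le_one (by positivity)]
      have : (0 : ℝ) ≤ R := Nat.cast_nonneg R
      linarith
    positivity
  intro n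
  induction n with
  | zero =>
    intro Γ hΓ _ _ _ _
    rw [card_eq_zero] at hΓ
    subst hΓ
    refine ⟨fun _ => 0, ∅, ⟨fun v hv => absurd hv (notMem_empty _),
      fun φ hφ => absurd hφ (notMem_empty _), fun ψ hψ => absurd hψ (notMem_empty _),
      fun ψ hψ => absurd hψ (notMem_empty _)⟩, fun φ hφ => absurd hφ (notMem_empty _),
      fun P hP => absurd hP (Set.notMem_empty _), fun i => ?_⟩
    have h1 : GG (M i) (act i) ∅ a₀ = M i a₀ := by
      ext f
      rw [mem_GG]
      exact ⟨fun h => h.1, fun h => ⟨h, fun P hP => absurd hP (Set.notMem_empty _)⟩⟩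
    rw [h1, Nat.cast_zero, zero_mul, add_zero]
  | succ n ih =>
    intro Γ hΓ hcf hdep hpar hcard
    -- a formula of maximal height
    obtain ⟨ψ, hψ, hmax⟩ := exists_max_image Γ ht (card_pos.1 (by omega))
    obtain ⟨Γ', hΓ'⟩ : ∃ Γ', Γ' = Γ.erase ψ := ⟨_, rfl⟩
    have hsub : Γ' ⊆ Γ := by
      rw [hΓ']
      exact erase_subset _ _
    have hcard' : Γ'.card = n := by
      rw [hΓ', card_erase_of_mem hψ, hΓ, Nat.add_sub_cancel]
    have hpar' : ∀ φ ∈ Γ', ∀ χ ∈ φ.parts, χ ∈ Γ' := by
      intro φ hφ χ hχ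
      rw [hΓ', mem_erase] at hφ ⊢
      refine ⟨?_, hpar φ hφ.2 χ hχ⟩
      rintro rfl
      rcases ht_part hχ with h1 | h1
      · exact hφ.1 h1.symm
      · have := hmax φ hφ.2
        omega
    obtain ⟨e, 𝓡, hG, hdeg, hRd, hfin⟩ := ih Γ' hcard' (fun φ hφ => hcf φ (hsub hφ))
      (fun φ hφ => hdep φ (hsub hφ)) hpar' (le_trans (card_le_card hsub) hcard)
    have hψΓ' : ψ ∉ Γ' := by
      rw [hΓ']
      exact notMem_erase _ _
    have hin : ∀ φ ∈ Γ, φ ≠ ψ → φ ∈ Γ' := by
      intro φ hφ h1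
      rw [hΓ']
      exact mem_erase.2 ⟨h1, hφ⟩
    have hkd : ∀ c, c ≤ d → k ^ c ≤ k ^ d := fun c hc => Nat.pow_le_pow_right hk hc
    have h8 : (m + k + 8) * k ^ d = (m + k) * k ^ d + 8 * k ^ d := by ring
    -- the new function at the formula `ψ`
    have hnew : ∀ (P : Fun ℤ V) (𝓡' : Set (Fun ℤ V)), 𝓡 ⊆ 𝓡' → DegZ (k ^ ψ.depth) P →
        (∀ Q ∈ 𝓡', DegZ (2 * k ^ d) Q) →
        (∀ e' : Form V → Fun ℤ V, (∀ φ, φ ≠ ψ → e' φ = e φ) → e' ψ = P → Good k e' 𝓡' {ψ}) →
        (∀ i, (Module.finrank (K i) (GG (M i) (act i) 𝓡 a₀) : ℝ) ≤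
          Module.finrank (K i) (GG (M i) (act i) 𝓡' a₀) + ε) →
        ∃ (e : Form V → Fun ℤ V) (𝓡 : Set (Fun ℤ V)), Good k e 𝓡 Γ ∧
          (∀ φ ∈ Γ, DegZ (k ^ φ.depth) (e φ)) ∧ (∀ P ∈ 𝓡, DegZ (2 * k ^ d) P) ∧
          ∀ i, (Module.finrank (K i) (M i a₀) : ℝ) ≤
            Module.finrank (K i) (GG (M i) (act i) 𝓡 a₀) + ((n + 1 : ℕ) : ℝ) * ε := by
      intro P 𝓡' hRR hP hRd' hgood hfin'
      obtain ⟨e', he'⟩ : ∃ e' : Form V → Fun ℤ V, e' = Function.update e ψ P := ⟨_, rfl⟩
      have h1 : ∀ φ, φ ≠ ψ → e' φ = e φ := by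
        intro φ hφ
        rw [he', Function.update_of_ne hφ]
      have h2 : e' ψ = P := by
        rw [he', Function.update_self]
      have h3 : Good k e' 𝓡' Γ' := hG.congr hpar' (fun φ hφ => h1 φ (by
        rintro rfl
        exact hψΓ' hφ)) hRR
      have h4 := hgood e' h1 h2
      refine ⟨e', 𝓡', ⟨fun v hv => ?_, fun φ hφ => ?_, fun φ hφ hd => ?_, fun φ hφ hd => ?_⟩,
        fun φ hφ => ?_, hRd', fun i => ?_⟩
      · by_cases h5 : Form.var v = ψ
        · exact h4.var v h5
        · exact h3.var v (hin _ hv h5)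
      · by_cases h5 : Form.neg φ = ψ
        · exact h4.neg φ h5
        · exact h3.neg φ (hin _ hφ h5)
      · by_cases h5 : φ = ψ
        · exact h4.disj φ h5 hd
        · exact h3.disj φ (hin _ hφ h5) hd
      · by_cases h5 : φ = ψ
        · exact h4.conj φ h5 hd
        · exact h3.conj φ (hin _ hφ h5) hd
      · by_cases h5 : φ = ψ
        · rw [h5, h2]
          exact hP
        · rw [h1 φ h5]
          exact hdeg φ (hin _ hφ h5)
      · have h5 := hfin i
        have h6 := hfin' i
        push_cast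
        linarith
    have hψd := hdep ψ hψ
    have hψc := hcf ψ hψ
    -- the functions of the proper parts are idempotent
    have hid : ∀ i, ∀ χ ∈ Γ', ∀ a f, a + 4 * k ^ d ≤ A → f ∈ GG (M i) (act i) 𝓡 a →
        act i (castF (K i) (e χ) * castF (K i) (e χ)) f = act i (castF (K i) (e χ)) f :=
      fun i χ hχ a f ha hf => good_idem (hW i) hk hG hdeg χ (hcf χ (hsub hχ)) (hpar' χ hχ)
        (hdep χ (hsub hχ)) ha hf
    have hpart : ∀ χ ∈ ψ.parts, χ ≠ ψ → χ ∈ Γ' := fun χ hχ h1 => hin χ (hpar ψ hψ χ hχ) h1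
    by_cases hdis : ψ.IsDisj
    · have hnv : ∀ v, Form.var v ≠ ψ := by
        rintro v rfl
        exact hdis
      have hnn : ∀ φ, Form.neg φ ≠ ψ := by
        rintro v rfl
        exact hdis
      have hnc : ¬ ψ.IsConj := by
        intro h
        cases ψ <;> first | exact hdis | exact h
      have hΛ : ∀ χ ∈ (dl ψ).toFinset, χ ∈ Γ' := by
        intro χ hχ
        have h1 := dl_facts ψ χ (List.mem_toFinset.1 hχ)
        refine hpart χ h1.1 ?_
        rintro rfl
        exact h1.2.1 hdis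
      rcases Nat.eq_zero_or_pos ψ.depth with h0 | h0
      · have hempty : dl ψ = [] := by
          rw [List.eq_nil_iff_forall_not_mem]
          intro χ hχ
          have := (dl_facts ψ χ hχ).2.2.1 hdis
          omega
        refine hnew 0 𝓡 subset_rfl (degZ_zero _) hRd ?_ ?_
        · intro e' h1 h2
          refine ⟨fun u hu => ?_, fun φ hφ => ?_, fun φ hφ _ => ?_, fun φ hφ hd => ?_⟩
          · exact absurd (Set.mem_singleton_iff.1 hu) (hnv u)
          · exact absurd (Set.mem_singleton_iff.1 hφ) (hnn φ)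
          · rw [Set.mem_singleton_iff] at hφ
            subst hφ
            refine ⟨fun _ => ∅, fun j χ hχ => absurd hχ (notMem_empty _), ?_, fun χ hχ => ?_⟩
            · rw [h2]
              unfold fac
              simp
            · rw [hempty] at hχ
              exact absurd hχ List.not_mem_nil
          · rw [Set.mem_singleton_iff] at hφ
            rw [hφ] at hd
            exact absurd hd hnc
        · intro i
          linarith
      · obtain ⟨c, hc⟩ : ∃ c, ψ.depth = c + 1 := ⟨_, (Nat.succ_pred_eq_of_pos h0).symm⟩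
        obtain ⟨S, hS1, hS2, hS3⟩ := exists_gate hW hk hB0 hB hA hRd (dl ψ).toFinset
          (le_trans (card_le_card fun χ hχ => hsub (hΛ χ hχ)) hcard) e (c := c) (by omega)
          (fun χ hχ => DegZ.mono (Nat.pow_le_pow_right hk (by
            have := (dl_facts ψ χ (List.mem_toFinset.1 hχ)).2.2.1 hdis
            omega)) (hdeg χ (hΛ χ hχ)))
          (fun i χ hχ a f ha hf => hid i χ (hΛ χ hχ) a f ha hf)
        rw [← hc] at hS2
        rw [← hε] at hS3
        refine hnew (1 - fac e S) _ Set.subset_union_left ((degZ_one _).sub hS2) ?_ ?_ hS3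
        · rintro P (hP | ⟨χ, hχ, rfl⟩)
          · exact hRd P hP
          · refine DegZ.mono ?_ ((hdeg χ (hΛ χ hχ)).mul hS2)
            have h1 := hkd χ.depth (hdep χ (hsub (hΛ χ hχ)))
            have h2 := hkd ψ.depth hψd
            omega
        · intro e' h1 h2
          have h3 : ∀ χ ∈ dl ψ, e' χ = e χ := fun χ hχ => h1 χ (by
            intro h5
            rw [h5] at hχ
            exact (dl_facts ψ ψ hχ).2.1 hdis)
          have h4 : fac e' S = fac e S := by
            unfold fac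
            refine prod_congr rfl fun j _ => ?_
            rw [sum_congr rfl fun χ hχ => h3 χ (List.mem_toFinset.1 (hS1 j χ hχ))]
          refine ⟨fun u hu => ?_, fun φ hφ => ?_, fun φ hφ _ => ?_, fun φ hφ hd => ?_⟩
          · exact absurd (Set.mem_singleton_iff.1 hu) (hnv u)
          · exact absurd (Set.mem_singleton_iff.1 hφ) (hnn φ)
          · rw [Set.mem_singleton_iff] at hφ
            subst hφ
            refine ⟨S, fun j χ hχ => List.mem_toFinset.1 (hS1 j χ hχ), ?_, fun χ hχ => ?_⟩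
            · rw [h2, h4, sub_sub_cancel]
            · rw [h2, h3 χ hχ, sub_sub_cancel]
              exact Or.inr ⟨χ, List.mem_toFinset.2 hχ, rfl⟩
          · rw [Set.mem_singleton_iff] at hφ
            rw [hφ] at hd
            exact absurd hd hnc
    by_cases hcon : ψ.IsConj
    · have hnv : ∀ v, Form.var v ≠ ψ := by
        rintro v rfl
        exact hcon
      have hnn : ∀ φ, Form.neg φ ≠ ψ := by
        rintro v rfl
        exact hcon
      have hΛ : ∀ χ ∈ (cl ψ).toFinset, χ ∈ Γ' := by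
        intro χ hχ
        have h1 := cl_facts ψ χ (List.mem_toFinset.1 hχ)
        refine hpart χ h1.1 ?_
        rintro rfl
        exact h1.2.1 hcon
      rcases Nat.eq_zero_or_pos ψ.depth with h0 | h0
      · have hempty : cl ψ = [] := by
          rw [List.eq_nil_iff_forall_not_mem]
          intro χ hχ
          have := (cl_facts ψ χ hχ).2.2.1 hcon
          omega
        refine hnew 1 𝓡 subset_rfl (degZ_one _) hRd ?_ ?_
        · intro e' h1 h2
          refine ⟨fun u hu => ?_, fun φ hφ => ?_, fun φ hφ hd => ?_, fun φ hφ _ => ?_⟩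
          · exact absurd (Set.mem_singleton_iff.1 hu) (hnv u)
          · exact absurd (Set.mem_singleton_iff.1 hφ) (hnn φ)
          · rw [Set.mem_singleton_iff] at hφ
            rw [hφ] at hd
            exact absurd hd hdis
          · rw [Set.mem_singleton_iff] at hφ
            subst hφ
            refine ⟨fun _ => ∅, fun j χ hχ => absurd hχ (notMem_empty _), ?_, fun χ hχ => ?_⟩
            · rw [h2]
              unfold fac
              simp
            · rw [hempty] at hχ
              exact absurd hχ List.not_mem_nil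
        · intro i
          linarith
      · obtain ⟨c, hc⟩ : ∃ c, ψ.depth = c + 1 := ⟨_, (Nat.succ_pred_eq_of_pos h0).symm⟩
        obtain ⟨S, hS1, hS2, hS3⟩ := exists_gate hW hk hB0 hB hA hRd (cl ψ).toFinset
          (le_trans (card_le_card fun χ hχ => hsub (hΛ χ hχ)) hcard) (fun χ => 1 - e χ) (c := c)
          (by omega)
          (fun χ hχ => (degZ_one _).sub (DegZ.mono (Nat.pow_le_pow_right hk (by
            have := (cl_facts ψ χ (List.mem_toFinset.1 hχ)).2.2.1 hcon
            omega)) (hdeg χ (hΛ χ hχ))))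
          (fun i χ hχ a f ha hf => by
            have h1 := hid i χ (hΛ χ hχ) a f ha hf
            rw [map_sub, map_one]
            have h2 : (1 - castF (K i) (e χ)) * (1 - castF (K i) (e χ)) =
                1 - castF (K i) (e χ) - (castF (K i) (e χ) -
                  castF (K i) (e χ) * castF (K i) (e χ)) := by ring
            rw [h2, map_sub, LinearMap.sub_apply, map_sub (act i) (castF (K i) (e χ)),
              LinearMap.sub_apply, h1, sub_self, sub_zero])
        rw [← hc] at hS2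
        rw [← hε] at hS3
        refine hnew (fac (fun χ => 1 - e χ) S) _ Set.subset_union_left hS2 ?_ ?_ hS3
        · rintro P (hP | ⟨χ, hχ, rfl⟩)
          · exact hRd P hP
          · refine DegZ.mono ?_ (((degZ_one _).sub (hdeg χ (hΛ χ hχ))).mul hS2)
            have h1 := hkd χ.depth (hdep χ (hsub (hΛ χ hχ)))
            have h2 := hkd ψ.depth hψd
            omega
        · intro e' h1 h2
          have h3 : ∀ χ ∈ cl ψ, e' χ = e χ := fun χ hχ => h1 χ (by
            intro h5
            rw [h5] at hχ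
            exact (cl_facts ψ ψ hχ).2.1 hcon)
          have h4 : fac (fun χ => 1 - e' χ) S = fac (fun χ => 1 - e χ) S := by
            unfold fac
            refine prod_congr rfl fun j _ => ?_
            congr 1
            exact sum_congr rfl fun χ hχ => by
              show 1 - e' χ = 1 - e χ
              rw [h3 χ (List.mem_toFinset.1 (hS1 j χ hχ))]
          refine ⟨fun u hu => ?_, fun φ hφ => ?_, fun φ hφ hd => ?_, fun φ hφ _ => ?_⟩
          · exact absurd (Set.mem_singleton_iff.1 hu) (hnv u)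
          · exact absurd (Set.mem_singleton_iff.1 hφ) (hnn φ)
          · rw [Set.mem_singleton_iff] at hφ
            rw [hφ] at hd
            exact absurd hd hdis
          · rw [Set.mem_singleton_iff] at hφ
            subst hφ
            refine ⟨S, fun j χ hχ => List.mem_toFinset.1 (hS1 j χ hχ), ?_, fun χ hχ => ?_⟩
            · rw [h2, h4]
            · rw [h2, h3 χ hχ]
              exact Or.inr ⟨χ, List.mem_toFinset.2 hχ, rfl⟩
    cases ψ with
    | var v =>
      refine hnew (fun x => if x v = true then 1 else 0) 𝓡 subset_rfl ?_ hRd ?_ ?_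
      · intro F _
        have h1 : castF F (fun x : V → Bool => if x v = true then (1 : ℤ) else 0) =
            mon F {v} := by
          funext x
          rw [castF_apply]
          unfold mon
          by_cases h : x v = true
          · rw [if_pos h, if_pos fun u hu => by rw [mem_singleton.1 hu]; exact h, Int.cast_one]
          · rw [if_neg h, if_neg fun hu => h (hu v (mem_singleton_self v)), Int.cast_zero]
        rw [h1]
        exact mon_mem (by
          rw [card_singleton]
          exact Nat.one_le_pow _ _ (by omega))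
      · intro e' _ h2
        refine ⟨fun u hu => ?_, fun φ hφ => ?_, fun φ hφ hd => ?_, fun φ hφ hd => ?_⟩
        · rw [Set.mem_singleton_iff] at hu
          rw [hu, h2]
          cases hu
          rfl
        · exact absurd (Set.mem_singleton_iff.1 hφ) (by simp)
        · rw [Set.mem_singleton_iff] at hφ
          rw [hφ] at hd
          exact absurd hd id
        · rw [Set.mem_singleton_iff] at hφ
          rw [hφ] at hd
          exact absurd hd id
      · intro i
        linarith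
    | neg φ₀ =>
      have h0 : φ₀ ∈ Γ' := hpart φ₀ (Set.mem_insert_of_mem _ (self_mem_parts _)) (by
        intro h
        have h1 : ht (Form.neg φ₀) = ht φ₀ + 1 := rfl
        rw [← h] at h1
        omega)
      refine hnew (1 - e φ₀) 𝓡 subset_rfl ((degZ_one _).sub (hdeg φ₀ h0)) hRd ?_ ?_
      · intro e' h1 h2
        refine ⟨fun u hu => ?_, fun φ hφ => ?_, fun φ hφ hd => ?_, fun φ hφ hd => ?_⟩
        · exact absurd (Set.mem_singleton_iff.1 hu) (by simp)
        · rw [Set.mem_singleton_iff] at hφ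
          have h3 : φ = φ₀ := by
            cases hφ
            rfl
          rw [h3, h2, h1 φ₀ (by
            intro h4
            rw [h4] at h0
            exact hψΓ' h0)]
        · rw [Set.mem_singleton_iff] at hφ
          rw [hφ] at hd
          exact absurd hd id
        · rw [Set.mem_singleton_iff] at hφ
          rw [hφ] at hd
          exact absurd hd id
      · intro i
        linarith
    | count r m' F => exact absurd hψc id
    | disj m' F => exact absurd trivial hdis
    | conj m' F => exact absurd trivial hcon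

end Pool.Agent.MP_9cec2c_lc.MX
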