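import Pool.Agent.Lib.MP_9cec2c_lc.MXMain
import Pool.Agent.Lib.MP_9cec2c_lc.FGNum
import Pool.Agent.Lib.MP_9cec2c_lc.Mg.G008

/-!
Families of worlds over several fields, and the lower bound for mixed derivations for all depths.
-/

set_option autoImplicit false
set_option linter.unusedSectionVars false

namespace Pool.Agent.MP_9cec2c_lc.MX

open Finset Frege FG

/-- A family of worlds over the fields `K i`: all levels have the same dimensions in all worlds,
and the ranks of the functions with integer values are at most those in the world `o`. -/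
structure Family {V ι : Type} {K W : ι → Type} [∀ i, Field (K i)] [∀ i, AddCommGroup (W i)]
    [∀ i, Module (K i) (W i)] (M : ∀ i, ℕ → Submodule (K i) (W i))
    (act : ∀ i, Fun (K i) V →ₗ[K i] W i →ₗ[K i] W i) (A : ℕ) (o : ι) : Prop where
  world : ∀ i, World (M i) (act i) A
  dim : ∀ i, ∀ a ≤ A, Module.finrank (K i) (M i a) = Module.finrank (K o) (M o a)
  semi : ∀ i, ∀ a ≤ A, ∀ P : Fun ℤ V,
    Module.finrank (K i) ((M i a).map (act i (castF (K i) P))) ≤
      Module.finrank (K o) ((M o a).map (act o (castF (K o) P)))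

section pull

variable {ι V V' : Type} [Fintype V] {K W : ι → Type} [∀ i, Field (K i)]
  [∀ i, AddCommGroup (W i)] [∀ i, Module (K i) (W i)]
  {M : ∀ i, ℕ → Submodule (K i) (W i)} {act : ∀ i, Fun (K i) V →ₗ[K i] W i →ₗ[K i] W i} {A : ℕ}
  {o : ι}

/-- The family pulled back along a map of cubes. -/
theorem Family.pull (h : Family M act A o) {n : ℕ} (hn0 : 0 < n)
    {ρ : (V → Bool) → (V' → Bool)} (hn : CQ.Narrow n ρ) :
    Family (fun i a => M i (n * a)) (fun i => (act i).comp (CQ.pull ρ)) (A / n) o where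
  world i := CQ.pull_world (h.world i) hn
  dim i a ha := h.dim i (n * a) (by
    rw [Nat.le_div_iff_mul_le hn0] at ha
    rwa [mul_comm])
  semi i a ha P := by
    have h1 : ∀ j, CQ.pull ρ (castF (K j) P) = castF (K j) (fun x => P (ρ x)) := fun j => rfl
    have h2 := h.semi i (n * a) (by
      rw [Nat.le_div_iff_mul_le hn0] at ha
      rwa [mul_comm]) fun x => P (ρ x)
    rw [← h1, ← h1] at h2
    exact h2

end pull

/-- **The lower bound for mixed derivations from families of flat worlds**, if every clause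
contains a short clause that is killed. -/
theorem mixed_num_sub {ι : Type} [Fintype ι] {K : ι → Type} [∀ i, Field (K i)] (o : ι) (iq : ℕ → ι)
    {Q : Finset ℕ} (hQ : ∀ q ∈ Q, Finite (K (iq q)) ∧ CharP (K (iq q)) q) {c₀ : ℝ}
    (hc₀ : 0 < c₀) (w C : ℕ) {S : ℕ → Set Rule} (hS : ∀ q ∈ Q, (S q).Finite)
    (hsound : ∀ q ∈ Q, ∀ R ∈ S q, R.Sound q) :
    ∃ c : ℝ, 0 < c ∧ ∃ N₀ : ℕ, ∀ N ≥ N₀, ∀ (V : Type) (W : ι → Type) [∀ i, AddCommGroup (W i)]
      [∀ i, Module (K i) (W i)] [∀ i, FiniteDimensional (K i) (W i)]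
      (M : ∀ i, ℕ → Submodule (K i) (W i)) (act : ∀ i, Fun (K i) V →ₗ[K i] W i →ₗ[K i] W i)
      (A : ℕ), Family M act A o → (N : ℝ) ^ c₀ - 1 ≤ A → 0 < Module.finrank (K o) (M o 0) →
      Module.finrank (K o) (M o A) ≤ C * Module.finrank (K o) (M o 0) →
      ∀ F : List (List (V × Bool)),
      (∀ D ∈ F, ∃ E : List (V × Bool), (∀ l ∈ E, l ∈ D) ∧ E.length ≤ w ∧
        ∀ i, ∀ a, 2 * a ≤ A → ∀ u ∈ M i a, act i (fals (K i) E) u = 0) →
      ∀ (d l : ℕ) (τ : Fin l → ℕ) (L : Fin l → Form V), MixedRefutes Q S d F τ L →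
      Real.exp (c * (N : ℝ) ^ (c / (d + 1))) ≤ size L := by
  classical
  -- the costs
  obtain ⟨c, hc⟩ : ∃ c : ℕ, ∀ q ∈ Q, ∀ R ∈ S q, R.cost + 5 ≤ c ∧ R.nodes.length ≤ c := by
    obtain ⟨c, hc⟩ := exists_cost (S := ⋃ q ∈ Q, S q) (Set.Finite.biUnion Q.finite_toSet hS)
    exact ⟨c, fun q hq R hR => hc R (Set.mem_biUnion (Finset.mem_coe.2 hq) hR)⟩
  -- the sizes of the fields
  obtain ⟨s, hs1, hs⟩ : ∃ s : ℕ, 1 ≤ s ∧ ∀ q ∈ Q, Nat.card (K (iq q)) ≤ s :=
    ⟨1 + ∑ q ∈ Q, Nat.card (K (iq q)), by omega, fun q hq =>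
      (single_le_sum (f := fun q => Nat.card (K (iq q))) (fun _ _ => Nat.zero_le _) hq).trans
        (Nat.le_add_left _ _)⟩
  have hQ' : ∀ q ∈ Q, ∃ _ : Fintype (K (iq q)), Fintype.card (K (iq q)) ≤ s ∧
      CharP (K (iq q)) q := by
    intro q hq
    obtain ⟨h1, h2⟩ := hQ q hq
    have inst : Fintype (K (iq q)) := Fintype.ofFinite _
    refine ⟨inst, ?_, h2⟩
    rw [← Nat.card_eq_fintype_card]
    exact hs q hq
  obtain ⟨C', hC'⟩ : ∃ C' : ℝ, C' = max 1 (C : ℝ) := ⟨_, rfl⟩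
  have hC1 : 1 ≤ C' := by
    rw [hC']
    exact le_max_left _ _
  obtain ⟨J, hJ⟩ : ∃ J : ℕ, 8 * Q.card * C' ≤ J := ⟨_, Nat.le_ceil _⟩
  obtain ⟨B, hB⟩ : ∃ B : ℝ, B = 16 * Q.card * Fintype.card ι * C' +
      128 * (c + 1) * Q.card * C' + Q.card + 3 := ⟨_, rfl⟩
  have e1 : (0 : ℝ) ≤ 16 * Q.card * Fintype.card ι * C' := by positivity
  have e2 : (0 : ℝ) ≤ 128 * (c + 1) * Q.card * C' := by positivity
  have e3 : (0 : ℝ) ≤ Q.card := Nat.cast_nonneg _
  have hB1 : 1 ≤ B := by linarith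
  obtain ⟨c', hc', N₀, hN₀⟩ := num_uniform (2 * J + c + w + 20) (2 * s) (by omega) (by omega) hB1
    hc₀
  refine ⟨c' / 6, by positivity, max N₀ 1, ?_⟩
  intro N hN V W _ _ _ M act A hfam hA hpos hgrow F hF d l τ L hL
  have hN1 : (1 : ℝ) ≤ N := by exact_mod_cast (le_max_right _ _).trans hN
  have hi : ∃ i : Fin l, True := by
    rcases hL with ⟨-, i, -⟩ | ⟨-, i, -⟩ <;> exact ⟨i, trivial⟩
  obtain ⟨i, -⟩ := hi
  have h2 := two_le_size (L := L) i
  have hgrow' : (Module.finrank (K o) (M o A) : ℝ) ≤ C' * Module.finrank (K o) (M o 0) := by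
    have h3 : (Module.finrank (K o) (M o A) : ℝ) ≤ C * Module.finrank (K o) (M o 0) := by
      exact_mod_cast hgrow
    refine h3.trans (mul_le_mul_of_nonneg_right ?_ (Nat.cast_nonneg _))
    rw [hC']
    exact le_max_right _ _
  have hmain := hN₀ N ((le_max_left _ _).trans hN) A (2 * d + 5) (size L) hA h2
    (num_bound hB1 (by omega) (by omega) (by omega) (by
      intro R n hR1 hRA hRn
      by_contra hcon
      have h3 : (size L : ℝ) ≤ n := by exact_mod_cast not_lt.1 hcon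
      exact mixed_core hfam.world o hfam.dim hfam.semi hpos hC1 hgrow' iq hs1 hQ' hF
        (fun q hq R hR => ⟨hsound q hq R hR, hc q hq R hR⟩) hL hJ hR1 (B := B)
        (by linarith) (by linarith) (by linarith)
        ((mul_le_mul_of_nonneg_left h3 (by linarith)).trans hRn) hRA))
  refine le_trans (Real.exp_le_exp.2 ?_) hmain
  have hd0 : (0 : ℝ) ≤ d := Nat.cast_nonneg d
  have h3 : c' / 6 / ((d : ℝ) + 1) ≤ c' / (((2 * d + 5 : ℕ) : ℝ) + 1) := by
    push_cast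
    rw [div_div, div_le_div_iff₀ (by positivity) (by positivity)]
    nlinarith
  exact mul_le_mul (by linarith) (Real.rpow_le_rpow_of_exponent_le hN1 h3) (by positivity) hc'.le

/-- **The lower bound for mixed derivations from families of flat worlds.** -/
theorem mixed_num {ι : Type} [Fintype ι] {K : ι → Type} [∀ i, Field (K i)] (o : ι) (iq : ℕ → ι)
    {Q : Finset ℕ} (hQ : ∀ q ∈ Q, Finite (K (iq q)) ∧ CharP (K (iq q)) q) {c₀ : ℝ}
    (hc₀ : 0 < c₀) (w C : ℕ) {S : ℕ → Set Rule} (hS : ∀ q ∈ Q, (S q).Finite)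
    (hsound : ∀ q ∈ Q, ∀ R ∈ S q, R.Sound q) :
    ∃ c : ℝ, 0 < c ∧ ∃ N₀ : ℕ, ∀ N ≥ N₀, ∀ (V : Type) (W : ι → Type) [∀ i, AddCommGroup (W i)]
      [∀ i, Module (K i) (W i)] [∀ i, FiniteDimensional (K i) (W i)]
      (M : ∀ i, ℕ → Submodule (K i) (W i)) (act : ∀ i, Fun (K i) V →ₗ[K i] W i →ₗ[K i] W i)
      (A : ℕ), Family M act A o → (N : ℝ) ^ c₀ - 1 ≤ A → 0 < Module.finrank (K o) (M o 0) →
      Module.finrank (K o) (M o A) ≤ C * Module.finrank (K o) (M o 0) →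
      ∀ F : List (List (V × Bool)),
      (∀ D ∈ F, D.length ≤ w ∧
        ∀ i, ∀ a, 2 * a ≤ A → ∀ u ∈ M i a, act i (fals (K i) D) u = 0) →
      ∀ (d l : ℕ) (τ : Fin l → ℕ) (L : Fin l → Form V), MixedRefutes Q S d F τ L →
      Real.exp (c * (N : ℝ) ^ (c / (d + 1))) ≤ size L := by
  obtain ⟨c, hc, N₀, h⟩ := mixed_num_sub o iq hQ hc₀ w C hS hsound
  refine ⟨c, hc, N₀, ?_⟩
  intro N hN V W _ _ _ M act A h1 h2 h3 h4 F hF
  exact h N hN V W M act A h1 h2 h3 h4 F fun D hD => ⟨D, fun _ h => h, (hF D hD).1, (hF D hD).2⟩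

end Pool.Agent.MP_9cec2c_lc.MX
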