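import Pool.Agent.Lib.MP_9cec2c_lc.MXDefs
import Pool.Agent.Lib.MP_9cec2c_lc.Mg.G017
import Pool.Agent.Lib.MP_9cec2c_lc.Mg.G061

/-!
The disjuncts and conjuncts of a formula after nested disjunctions, and nested conjunctions, have
been merged, and the approximation of formulas without counting gates by functions with integer
values.
-/

set_option autoImplicit false
set_option linter.unusedSectionVars false

namespace Pool.Agent.MP_9cec2c_lc.MX

open Finset Frege FG

variable {V : Type}

/-- The disjuncts. -/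
def dl : Form V → List (Form V)
  | .var v => [.var v]
  | .neg φ => [.neg φ]
  | .conj m F => [.conj m F]
  | .disj m F => (List.finRange m).flatMap fun i => dl (F i)
  | .count r m F => [.count r m F]

/-- The conjuncts. -/
def cl : Form V → List (Form V)
  | .var v => [.var v]
  | .neg φ => [.neg φ]
  | .conj m F => (List.finRange m).flatMap fun i => cl (F i)
  | .disj m F => [.disj m F]
  | .count r m F => [.count r m F]

theorem dl_disj (m : ℕ) (F : Fin m → Form V) :
    dl (.disj m F) = (List.finRange m).flatMap fun i => dl (F i) := rfl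

theorem cl_conj (m : ℕ) (F : Fin m → Form V) :
    cl (.conj m F) = (List.finRange m).flatMap fun i => cl (F i) := rfl

theorem dl_of_not {φ : Form V} (h : ¬ φ.IsDisj) : dl φ = [φ] := by
  cases φ with
  | disj m F => exact absurd trivial h
  | _ => rfl

theorem cl_of_not {φ : Form V} (h : ¬ φ.IsConj) : cl φ = [φ] := by
  cases φ with
  | conj m F => exact absurd trivial h
  | _ => rfl

theorem part_disj {m : ℕ} {F : Fin m → Form V} (i : Fin m) {ψ : Form V} (h : ψ ∈ (F i).parts) :
    ψ ∈ (Form.disj m F).parts := Set.mem_insert_of_mem _ (Set.mem_iUnion.2 ⟨i, h⟩)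

theorem part_conj {m : ℕ} {F : Fin m → Form V} (i : Fin m) {ψ : Form V} (h : ψ ∈ (F i).parts) :
    ψ ∈ (Form.conj m F).parts := Set.mem_insert_of_mem _ (Set.mem_iUnion.2 ⟨i, h⟩)

theorem dl_facts (φ : Form V) : ∀ χ ∈ dl φ, χ ∈ φ.parts ∧ ¬ χ.IsDisj ∧
    (φ.IsDisj → χ.depth + 1 ≤ φ.depth) ∧ χ.depth ≤ φ.depth := by
  have h0 : ∀ φ : Form V, ¬ φ.IsDisj → ∀ χ ∈ dl φ, χ ∈ φ.parts ∧ ¬ χ.IsDisj ∧
      (φ.IsDisj → χ.depth + 1 ≤ φ.depth) ∧ χ.depth ≤ φ.depth := by
    intro φ h χ hχ
    rw [dl_of_not h, List.mem_singleton] at hχ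
    rw [hχ]
    exact ⟨self_mem_parts φ, h, fun h' => absurd h' h, le_rfl⟩
  induction φ with
  | var v => exact h0 _ id
  | neg φ _ => exact h0 _ id
  | conj m F _ => exact h0 _ id
  | count r m F _ => exact h0 _ id
  | disj m F ih =>
    classical
    intro χ hχ
    rw [dl_disj, List.mem_flatMap] at hχ
    obtain ⟨i, -, hi⟩ := hχ
    obtain ⟨h1, h2, h3, h4⟩ := ih i χ hi
    have h5 : (F i).depth + (if (F i).IsDisj then 0 else 1) ≤ (Form.disj m F).depth :=
      Finset.le_sup (f := fun i => (F i).depth + if (F i).IsDisj then 0 else 1) (mem_univ i)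
    have h6 : χ.depth + 1 ≤ (Form.disj m F).depth := by
      by_cases hc : (F i).IsDisj
      · rw [if_pos hc] at h5
        have := h3 hc
        omega
      · rw [if_neg hc] at h5
        omega
    exact ⟨part_disj i h1, h2, fun _ => h6, by omega⟩

theorem cl_facts (φ : Form V) : ∀ χ ∈ cl φ, χ ∈ φ.parts ∧ ¬ χ.IsConj ∧
    (φ.IsConj → χ.depth + 1 ≤ φ.depth) ∧ χ.depth ≤ φ.depth := by
  have h0 : ∀ φ : Form V, ¬ φ.IsConj → ∀ χ ∈ cl φ, χ ∈ φ.parts ∧ ¬ χ.IsConj ∧
      (φ.IsConj → χ.depth + 1 ≤ φ.depth) ∧ χ.depth ≤ φ.depth := by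
    intro φ h χ hχ
    rw [cl_of_not h, List.mem_singleton] at hχ
    rw [hχ]
    exact ⟨self_mem_parts φ, h, fun h' => absurd h' h, le_rfl⟩
  induction φ with
  | var v => exact h0 _ id
  | neg φ _ => exact h0 _ id
  | disj m F _ => exact h0 _ id
  | count r m F _ => exact h0 _ id
  | conj m F ih =>
    classical
    intro χ hχ
    rw [cl_conj, List.mem_flatMap] at hχ
    obtain ⟨i, -, hi⟩ := hχ
    obtain ⟨h1, h2, h3, h4⟩ := ih i χ hi
    have h5 : (F i).depth + (if (F i).IsConj then 0 else 1) ≤ (Form.conj m F).depth :=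
      Finset.le_sup (f := fun i => (F i).depth + if (F i).IsConj then 0 else 1) (mem_univ i)
    have h6 : χ.depth + 1 ≤ (Form.conj m F).depth := by
      by_cases hc : (F i).IsConj
      · rw [if_pos hc] at h5
        have := h3 hc
        omega
      · rw [if_neg hc] at h5
        omega
    exact ⟨part_conj i h1, h2, fun _ => h6, by omega⟩

/-- The functions `e φ` approximate the formulas in `Γ`: a disjunction is the complement of a
product of `k` factors, and the functions in `𝓡` are the errors. -/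
structure Good (k : ℕ) (e : Form V → Fun ℤ V) (𝓡 : Set (Fun ℤ V)) (Γ : Set (Form V)) : Prop where
  var : ∀ v, Form.var v ∈ Γ → e (.var v) = fun x => if x v = true then 1 else 0
  neg : ∀ φ, Form.neg φ ∈ Γ → e (.neg φ) = 1 - e φ
  disj : ∀ ψ ∈ Γ, ψ.IsDisj → ∃ S : Fin k → Finset (Form V), (∀ j, ∀ χ ∈ S j, χ ∈ dl ψ) ∧
    1 - e ψ = fac e S ∧ ∀ χ ∈ dl ψ, e χ * (1 - e ψ) ∈ 𝓡
  conj : ∀ ψ ∈ Γ, ψ.IsConj → ∃ S : Fin k → Finset (Form V), (∀ j, ∀ χ ∈ S j, χ ∈ cl ψ) ∧
    e ψ = fac (fun χ => 1 - e χ) S ∧ ∀ χ ∈ cl ψ, (1 - e χ) * e ψ ∈ 𝓡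

/-! ### The world of the vectors without errors -/

section world

variable {K W : Type} [Field K] [AddCommGroup W] [Module K W]
  {M : ℕ → Submodule K W} {act : Fun K V →ₗ[K] W →ₗ[K] W} {A : ℕ}

/-- The vectors in `M a` on which all functions in `𝓡` act as zero. -/
def GG (M : ℕ → Submodule K W) (act : Fun K V →ₗ[K] W →ₗ[K] W) (𝓡 : Set (Fun ℤ V)) (a : ℕ) :
    Submodule K W :=
  M a ⊓ ⨅ P ∈ 𝓡, LinearMap.ker (act (castF K P))

theorem mem_GG {𝓡 : Set (Fun ℤ V)} {a : ℕ} {f : W} :
    f ∈ GG M act 𝓡 a ↔ f ∈ M a ∧ ∀ P ∈ 𝓡, act (castF K P) f = 0 := by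
  unfold GG
  rw [Submodule.mem_inf, Submodule.mem_iInf]
  refine and_congr Iff.rfl (forall_congr' fun b => ?_)
  rw [Submodule.mem_iInf]
  rfl

theorem World.anti (hW : World M act A) {A' : ℕ} (h : A' ≤ A) : World M act A' where
  act_mem a e P w ha hP hw := hW.act_mem a e P w (ha.trans h) hP hw
  act_one a w ha hw := hW.act_one a w (ha.trans h) hw
  act_mul a e e' P Q w ha hP hQ hw := hW.act_mul a e e' P Q w (ha.trans h) hP hQ hw

theorem world_GG (hW : World M act A) {𝓡 : Set (Fun ℤ V)} {D : ℕ} (hR : ∀ P ∈ 𝓡, DegZ D P)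
    {A' : ℕ} (hA' : A' + D ≤ A) : World (GG M act 𝓡) act A' where
  act_mem a e P w ha hP hw := by
    rw [mem_GG] at hw ⊢
    refine ⟨hW.act_mem a e P w (by omega) hP hw.1, fun R hR' => ?_⟩
    rw [← hW.act_mul a D e _ _ w (by omega) (hR R hR' K) hP hw.1, mul_comm,
      hW.act_mul a e D _ _ w (by omega) hP (hR R hR' K) hw.1, hw.2 R hR', map_zero]
  act_one a w ha hw := hW.act_one a w (by omega) (mem_GG.1 hw).1
  act_mul a e e' P Q w ha hP hQ hw := hW.act_mul a e e' P Q w (by omega) hP hQ (mem_GG.1 hw).1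

/-- Products of factors which act as the identity. -/
theorem fac_act {β : Type} (hW : World M act A) {g : β → Fun ℤ V} {k t u a : ℕ}
    {S : Fin k → Finset β} (hg : ∀ j, ∀ b ∈ S j, DegZ t (g b)) {U : Fun K V}
    (hU : U ∈ Pol K V u) {f : W} (hf : f ∈ M a) (hA : a + k * t + (t + u) ≤ A)
    (h0 : ∀ j, ∀ b ∈ S j, act (castF K (g b) * U) f = 0) :
    act (castF K (fac g S) * U) f = act U f := by
  classical
  have key : ∀ s : Finset (Fin k),
      act (castF K (∏ j ∈ s, (1 - ∑ b ∈ S j, g b)) * U) f = act U f := by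
    intro s
    induction s using Finset.induction_on with
    | empty => rw [prod_empty, map_one, one_mul]
    | insert j s hj ih =>
      have hs : s.card * t ≤ k * t := by
        refine Nat.mul_le_mul_right t ?_
        have := card_le_univ s
        rwa [Fintype.card_fin] at this
      have hP : castF K (∏ j ∈ s, (1 - ∑ b ∈ S j, g b)) ∈ Pol K V (s.card * t) :=
        DegZ.prod s (fun j _ => (degZ_one t).sub (DegZ.sum _ fun b hb => hg j b hb)) K
      have e1 : castF K (∏ j ∈ insert j s, (1 - ∑ b ∈ S j, g b)) * U =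
          castF K (∏ j ∈ s, (1 - ∑ b ∈ S j, g b)) * U -
            castF K (∏ j ∈ s, (1 - ∑ b ∈ S j, g b)) * ∑ b ∈ S j, castF K (g b) * U := by
        rw [prod_insert hj, map_mul, map_sub, map_one, map_sum, ← sum_mul]
        ring
      rw [e1, map_sub, LinearMap.sub_apply, ih]
      have hu : ∑ b ∈ S j, castF K (g b) * U ∈ Pol K V (t + u) :=
        Submodule.sum_mem _ fun b hb => mul_mem (hg j b hb K) hU
      rw [hW.act_mul a (s.card * t) (t + u) _ _ f (by omega) hP hu hf, map_sum,
        LinearMap.sum_apply, sum_eq_zero fun b hb => h0 j b hb, map_zero, sub_zero]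
  exact key univ

/-- The approximations are idempotent on the vectors without errors. -/
theorem good_idem (hW : World M act A) {k d : ℕ} (hk : 1 ≤ k) {e : Form V → Fun ℤ V}
    {𝓡 : Set (Fun ℤ V)} {Γ : Set (Form V)} (hG : Good k e 𝓡 Γ)
    (hdeg : ∀ φ ∈ Γ, DegZ (k ^ φ.depth) (e φ)) (φ : Form V) (hφ : CountFree φ)
    (hΓ : ∀ ψ ∈ φ.parts, ψ ∈ Γ) (hd : φ.depth ≤ d) {a : ℕ} (hA : a + 4 * k ^ d ≤ A) {f : W}
    (hf : f ∈ GG M act 𝓡 a) :
    act (castF K (e φ) * castF K (e φ)) f = act (castF K (e φ)) f := by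
  have hf1 := (mem_GG.1 hf).1
  have hf2 := (mem_GG.1 hf).2
  have hkd : ∀ c, c ≤ d → k ^ c ≤ k ^ d := fun c hc => Nat.pow_le_pow_right hk hc
  induction φ with
  | var v =>
    have h1 : castF K (e (.var v)) * castF K (e (.var v)) = castF K (e (.var v)) := by
      rw [hG.var v (hΓ _ (self_mem_parts _)), ← map_mul]
      congr 1
      funext x
      rw [Pi.mul_apply]
      by_cases h : x v = true
      · rw [if_pos h, mul_one]
      · rw [if_neg h, mul_zero]
    rw [h1]
  | neg φ ih =>
    have h1 := ih hφ (fun ψ hψ => hΓ ψ (Set.mem_insert_of_mem _ hψ)) hd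
    rw [hG.neg φ (hΓ _ (self_mem_parts _)), map_sub, map_one]
    have h2 : (1 - castF K (e φ)) * (1 - castF K (e φ)) =
        1 - castF K (e φ) - (castF K (e φ) - castF K (e φ) * castF K (e φ)) := by ring
    rw [h2, map_sub, LinearMap.sub_apply, map_sub (act) (castF K (e φ)), LinearMap.sub_apply, h1,
      sub_self, sub_zero]
  | conj m F _ =>
    obtain ⟨S, hS, h1, h2⟩ := hG.conj _ (hΓ _ (self_mem_parts _)) trivial
    rcases Nat.eq_zero_or_pos (Form.conj m F).depth with h0 | h0
    · have h3 : ∀ j, S j = ∅ := by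
        intro j
        rw [eq_empty_iff_forall_notMem]
        intro χ hχ
        have := (cl_facts _ χ (hS j χ hχ)).2.2.1 trivial
        omega
      have h4 : e (.conj m F) = 1 := by
        rw [h1]
        unfold fac
        refine prod_eq_one fun j _ => ?_
        rw [h3 j, sum_empty, sub_zero]
      rw [h4, map_one, mul_one]
    · obtain ⟨c, hc⟩ : ∃ c, (Form.conj m F).depth = c + 1 :=
        ⟨_, (Nat.succ_pred_eq_of_pos h0).symm⟩
      have hcd := hkd (c + 1) (by omega)
      have hc1 : k ^ c ≤ k ^ (c + 1) := Nat.pow_le_pow_right hk (Nat.le_succ c)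
      have hc2 : k * k ^ c = k ^ (c + 1) := (pow_succ' k c).symm
      have h5 := hdeg _ (hΓ _ (self_mem_parts _)) K
      rw [hc] at h5
      have h6 := fac_act hW (g := fun χ => 1 - e χ) (k := k) (t := k ^ c) (u := k ^ (c + 1))
        (S := S) (fun j χ hχ => (degZ_one _).sub (DegZ.mono (Nat.pow_le_pow_right hk (by
          have := (cl_facts _ χ (hS j χ hχ)).2.2.1 trivial
          omega)) (hdeg χ (hΓ χ (cl_facts _ χ (hS j χ hχ)).1)))) h5 hf1 (by omega)
        (fun j χ hχ => by
          have h7 := hf2 _ (h2 χ (hS j χ hχ))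
          rwa [map_mul] at h7)
      rw [← h1] at h6
      exact h6
  | disj m F _ =>
    obtain ⟨S, hS, h1, h2⟩ := hG.disj _ (hΓ _ (self_mem_parts _)) trivial
    have h8 : castF K (e (.disj m F)) = 1 - castF K (fac e S) := by
      rw [← h1, map_sub, map_one, sub_sub_cancel]
    have h9 : act (castF K (fac e S) * castF K (fac e S)) f = act (castF K (fac e S)) f := by
      rcases Nat.eq_zero_or_pos (Form.disj m F).depth with h0 | h0
      · have h3 : ∀ j, S j = ∅ := by
          intro j
          rw [eq_empty_iff_forall_notMem]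
          intro χ hχ
          have := (dl_facts _ χ (hS j χ hχ)).2.2.1 trivial
          omega
        have h4 : fac e S = 1 := by
          unfold fac
          refine prod_eq_one fun j _ => ?_
          rw [h3 j, sum_empty, sub_zero]
        rw [h4, map_one, mul_one]
      · obtain ⟨c, hc⟩ : ∃ c, (Form.disj m F).depth = c + 1 :=
          ⟨_, (Nat.succ_pred_eq_of_pos h0).symm⟩
        have hcd := hkd (c + 1) (by omega)
        have hc1 : k ^ c ≤ k ^ (c + 1) := Nat.pow_le_pow_right hk (Nat.le_succ c)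
        have hc2 : k * k ^ c = k ^ (c + 1) := (pow_succ' k c).symm
        have h5 : castF K (fac e S) ∈ Pol K V (k ^ (c + 1)) := by
          have h6 := hdeg _ (hΓ _ (self_mem_parts _))
          rw [hc] at h6
          rw [← h1]
          exact ((degZ_one _).sub h6) K
        refine fac_act hW (g := e) (k := k) (t := k ^ c) (u := k ^ (c + 1))
          (S := S) (fun j χ hχ => DegZ.mono (Nat.pow_le_pow_right hk (by
            have := (dl_facts _ χ (hS j χ hχ)).2.2.1 trivial
            omega)) (hdeg χ (hΓ χ (dl_facts _ χ (hS j χ hχ)).1))) h5 hf1 (by omega)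
          (fun j χ hχ => by
            have h7 := hf2 _ (h2 χ (hS j χ hχ))
            rwa [map_mul, h1] at h7)
    rw [h8]
    have h10 : (1 - castF K (fac e S)) * (1 - castF K (fac e S)) =
        1 - castF K (fac e S) - (castF K (fac e S) - castF K (fac e S) * castF K (fac e S)) := by
      ring
    rw [h10, map_sub, LinearMap.sub_apply, map_sub (act) (castF K (fac e S)),
      LinearMap.sub_apply, h9, sub_self, sub_zero]
  | count r m F _ => exact absurd hφ id

end world

end Pool.Agent.MP_9cec2c_lc.MX
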