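import Pool.Agent.Lib.MP_9cec2c_lc.TTSub
import Pool.Agent.Lib.MP_9cec2c_lc.TVDefs

/-!
The substitutions for the Tseitin formulas of graphs, independent of the world.
-/

set_option autoImplicit false
set_option linter.unusedSectionVars false

namespace Pool.Agent.MP_9cec2c_lc.MX

open Finset Frege TT
open Flat (TVar tseitinMod valueClauses eqClauses forbid2)
open FG (listCNF mem_listCNF fals)
open CP (nodeSum)
open CQ (TQ tsrc ttgt tchg tinc card_tinc dec dec_congr tse_kill Holds Kills pull pull_apply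
  pull_world Narrow act_eq_zero fals_toList)

variable {V E : Type} [Fintype V] [Fintype E] [DecidableEq V] [DecidableEq E] {src tgt : E → V}
  {N r' : ℕ} [NeZero r']

/-- The substitution for the Tseitin formula of a graph. -/
theorem graph_rho {b : Fin N → ZMod r'} {r : ℕ} [NeZero r]
    (ι : ZMod r' →+ ZMod r) {φ : TQ N → V} (hφ : Function.Injective φ) {f : TVar N → E → ℤ}
    (hf : ∀ i v, bd src tgt (f i) v =
      (if φ (tsrc i) = v then 1 else 0) - (if φ (ttgt i) = v then 1 else 0)) {k : ℕ}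
    (hk : ∀ e, (univ.filter fun i => f i e ≠ 0).card ≤ k) (g : E → ZMod r) {s : V → ZMod r}
    (hg : ∀ v, bd src tgt g v + ∑ q, (if φ q = v then ι (tchg b q) else 0) = s v) {Δ : ℕ}
    (hΔ : ∀ v, (inc src tgt v).card ≤ Δ) :
    ∃ ρ : (TVar N × ZMod r' → Bool) → (E × ZMod r → Bool), Narrow (k * r') ρ ∧
      ∀ (K W : Type) [Field K] [AddCommGroup W] [Module K W] (M : ℕ → Submodule K W)
        (act : Fun K (TVar N × ZMod r') →ₗ[K] W →ₗ[K] W) (A : ℕ), World M act A →
        Kills M act (tseitinMod N r' b : Set (CQ.Clause (TVar N × ZMod r'))) →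
        2 * ((Δ * k + 3) * r') ≤ A →
        ∀ D ∈ tseitinCNF src tgt r s, ∀ u ∈ M 0, act (pull ρ (fals K D)) u = 0 := by
  classical
  obtain ⟨ρ, hρ⟩ : ∃ ρ : (TVar N × ZMod r' → Bool) → (E × ZMod r → Bool),
      ρ = fun y u => decide (val f g ι (dec y) u.1 = u.2) := ⟨_, rfl⟩
  have hdec : ∀ (Z : Finset (TVar N)) (y y' : TVar N × ZMod r' → Bool),
      (∀ u ∈ Z ×ˢ (univ : Finset (ZMod r')), y u = y' u) → ∀ i ∈ Z, dec y i = dec y' i := by
    intro Z y y' h i hi
    exact dec_congr fun c => h _ (mem_product.2 ⟨hi, mem_univ _⟩)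
  have hn : Narrow (k * r') ρ := by
    intro u
    refine ⟨(univ.filter fun i => f i u.1 ≠ 0) ×ˢ (univ : Finset (ZMod r')), ?_, ?_⟩
    · rw [card_product, card_univ, ZMod.card]
      exact Nat.mul_le_mul_right _ (hk u.1)
    · intro x y hxy
      rw [hρ]
      show decide (val f g ι (dec x) u.1 = u.2) = decide (val f g ι (dec y) u.1 = u.2)
      rw [val_congr (z' := dec y) fun i hi => hdec _ x y hxy i (mem_filter.2 ⟨mem_univ _, hi⟩)]
  refine ⟨ρ, hn, ?_⟩
  intro K W _ _ _ M act A hW hF hA D hD u hu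
  unfold tseitinCNF at hD
  obtain ⟨C, hC, rfl⟩ := mem_listCNF.1 hD
  rw [fals_toList]
  have hρl : ∀ (y : TVar N × ZMod r' → Bool) (l : (E × ZMod r) × Bool),
      ρ y l.1 = l.2 ↔ decide (val f g ι (dec y) l.1.1 = l.1.2) = l.2 := by
    intro y l
    rw [hρ]
  rcases mem_tseitin.1 hC with ⟨e, he⟩ | ⟨v, hv⟩
  · have h1 : pull ρ (fun x => if Holds x C then (0 : K) else 1) = 0 := by
      funext y
      rw [pull_apply, if_pos]
      · rfl
      obtain ⟨l, hl, hl'⟩ := holds_value (val f g ι (dec y)) e C he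
      exact ⟨l, hl, (hρl y l).2 hl'⟩
    rw [h1, map_zero, LinearMap.zero_apply]
  · obtain ⟨ZT, hZT⟩ : ∃ ZT : Finset (TVar N),
        ZT = ((inc src tgt v).biUnion fun e => univ.filter fun i => f i e ≠ 0) ∪
          ((univ.filter fun q => φ q = v).biUnion fun q => tinc q) := ⟨_, rfl⟩
    have hcardZ : (ZT ×ˢ (univ : Finset (ZMod r'))).card ≤ (Δ * k + 3) * r' := by
      rw [card_product, card_univ, ZMod.card]
      refine Nat.mul_le_mul_right _ ?_
      rw [hZT]
      refine (card_union_le _ _).trans (add_le_add ?_ ?_)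
      · refine card_biUnion_le.trans ?_
        refine (sum_le_card_nsmul _ _ k fun e _ => hk e).trans ?_
        rw [smul_eq_mul]
        exact Nat.mul_le_mul_right _ (hΔ v)
      · refine card_biUnion_le.trans ?_
        refine (sum_le_card_nsmul _ _ 3 fun q _ => card_tinc q).trans ?_
        rw [smul_eq_mul]
        have h2 : (univ.filter fun q => φ q = v).card ≤ 1 := by
          rw [card_le_one]
          intro q hq q' hq'
          exact hφ ((mem_filter.1 hq).2.trans (mem_filter.1 hq').2.symm)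
        omega
    refine act_eq_zero hW hF (ZT ×ˢ (univ : Finset (ZMod r'))) _ ?_ ?_ (by omega) hu
    · intro x y hxy
      have h3 : Holds (ρ x) C ↔ Holds (ρ y) C := by
        have h4 : ∀ l ∈ C, ρ x l.1 = ρ y l.1 := by
          intro l hl
          have h5 : l.1.1 ∈ inc src tgt v := CQ.vars_eqClauses hv l hl
          rw [hρ]
          show decide (val f g ι (dec x) l.1.1 = l.1.2) = decide (val f g ι (dec y) l.1.1 = l.1.2)
          rw [val_congr (z' := dec y) fun i hi => hdec _ x y hxy i ?_]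
          rw [hZT]
          exact mem_union_left _ (mem_biUnion.2 ⟨l.1.1, h5, mem_filter.2 ⟨mem_univ _, hi⟩⟩)
        constructor
        · rintro ⟨l, hl, hl'⟩
          exact ⟨l, hl, by rw [← h4 l hl]; exact hl'⟩
        · rintro ⟨l, hl, hl'⟩
          exact ⟨l, hl, by rw [h4 l hl]; exact hl'⟩
      rw [pull_apply, pull_apply]
      simp only [h3]
    · intro y hy
      rw [pull_apply] at hy
      have h3 : ¬ Holds (ρ y) C := by
        intro h4
        rw [if_pos h4] at hy
        exact hy rfl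
      have h4 : bd src tgt (val f g ι (dec y)) v ≠ s v := by
        intro h5
        obtain ⟨l, hl, hl'⟩ := holds_eq h5 C hv
        exact h3 ⟨l, hl, (hρl y l).2 hl'⟩
      have h5 : ∃ q, φ q = v ∧ nodeSum tsrc ttgt (dec y) q ≠ tchg b q := by
        by_contra hcon
        push Not at hcon
        apply h4
        rw [bd_val hf, ← hg v]
        congr 1
        refine sum_congr rfl fun q _ => ?_
        by_cases hq : φ q = v
        · rw [if_pos hq, if_pos hq, hcon q hq]
        · rw [if_neg hq, if_neg hq]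
      obtain ⟨q, hq, hq'⟩ := h5
      obtain ⟨C', hC', h6, h7⟩ := tse_kill b q y hq'
      refine ⟨C', hC', fun l hl => ?_, h7⟩
      rw [hZT]
      exact mem_product.2 ⟨mem_union_right _ (mem_biUnion.2 ⟨q, mem_filter.2 ⟨mem_univ _, hq⟩,
        h6 l hl⟩), mem_univ _⟩

theorem pull_fals_mem {K U X : Type} [Field K] [Fintype U] {k : ℕ} {ρ : (U → Bool) → (X → Bool)}
    (hn : Narrow k ρ) {B : ℕ} {D : List (X × Bool)} (hD : D.length ≤ B) :
    pull ρ (fals K D) ∈ Pol K U (k * B) := by
  classical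
  choose Z hZ hZ' using hn
  obtain ⟨Y, hY⟩ : ∃ Y : Finset U, Y = (D.map Prod.fst).toFinset.biUnion Z := ⟨_, rfl⟩
  have hcard : Y.card ≤ k * B := by
    rw [hY]
    refine card_biUnion_le.trans ((sum_le_card_nsmul _ _ k fun x _ => hZ x).trans ?_)
    rw [smul_eq_mul, mul_comm]
    refine Nat.mul_le_mul_left k ((List.toFinset_card_le _).trans ?_)
    rw [List.length_map]
    exact hD
  refine Pol_mono hcard (mem_Pol_of_depends Y fun x y hxy => ?_)
  rw [pull_apply, pull_apply]
  have h2 : ∀ l ∈ D, ρ x l.1 = ρ y l.1 := by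
    intro l hl
    refine hZ' l.1 x y fun u hu => hxy u ?_
    rw [hY]
    exact mem_biUnion.2 ⟨l.1, List.mem_toFinset.2 (List.mem_map.2 ⟨l, hl, rfl⟩), hu⟩
  unfold fals
  have h3 : (∀ l ∈ D, ρ x l.1 ≠ l.2) ↔ ∀ l ∈ D, ρ y l.1 ≠ l.2 :=
    forall₂_congr fun l hl => by rw [h2 l hl]
  simp only [h3]

/-- The substitution for the formulas whose clauses contain clauses of `T`. -/
theorem above_rho {U Y X : Type} [Fintype U] [DecidableEq Y] {k : ℕ}
    {ρ : (U → Bool) → (Y → Bool)} (hn : Narrow k ρ) {T : Finset (Finset (Y × Bool))} {ι : Y → X}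
    (hι : Function.Injective ι) {B : ℕ} {F : List (List (X × Bool))} (hF : Above ι T B F) :
    ∃ ρ' : (U → Bool) → (X → Bool), Narrow k ρ' ∧
      ∀ (K W : Type) [Field K] [AddCommGroup W] [Module K W] (M : ℕ → Submodule K W)
        (act : Fun K U →ₗ[K] W →ₗ[K] W) (A : ℕ), World M act A →
        (∀ C ∈ T, ∀ u ∈ M 0, act (pull ρ (fals K C.toList)) u = 0) → k * B + k * B ≤ A →
        ∀ D ∈ F, ∀ u ∈ M 0, act (pull ρ' (fals K D)) u = 0 := by
  classical
  obtain ⟨ρ', hρ⟩ : ∃ ρ' : (U → Bool) → (X → Bool),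
      ρ' = fun y => Function.extend ι (ρ y) fun _ => false := ⟨_, rfl⟩
  have hρι : ∀ y v, ρ' y (ι v) = ρ y v := by
    intro y v
    rw [hρ]
    exact hι.extend_apply _ _ v
  have hρn : ∀ y x, (¬ ∃ v, ι v = x) → ρ' y x = false := by
    intro y x hx
    rw [hρ]
    exact Function.extend_apply' _ _ x hx
  have hn' : Narrow k ρ' := by
    intro x
    by_cases hx : ∃ v, ι v = x
    · obtain ⟨v, rfl⟩ := hx
      obtain ⟨Z, hZ, hZ'⟩ := hn v
      refine ⟨Z, hZ, fun y y' h => ?_⟩
      rw [hρι, hρι]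
      exact hZ' y y' h
    · exact ⟨∅, by simp, fun y y' _ => by rw [hρn y x hx, hρn y' x hx]⟩
  refine ⟨ρ', hn', ?_⟩
  intro K W _ _ _ M act A hW hT hA D hD u hu
  obtain ⟨hlen, C, hC, hCD⟩ := hF D hD
  have h1 : pull ρ' (fals K D) ∈ Pol K U (k * B) := pull_fals_mem hn' hlen
  have h2 : pull ρ (fals K C.toList) ∈ Pol K U (k * B) := by
    refine pull_fals_mem hn ?_
    rw [length_toList]
    have h3 : (C.image fun l => (ι l.1, l.2)).card = C.card := by
      refine card_image_of_injective _ fun a b hab => ?_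
      have h4 := Prod.mk.inj hab
      exact Prod.ext (hι h4.1) h4.2
    rw [← h3]
    refine le_trans (card_le_card fun x hx => ?_) ((List.toFinset_card_le D).trans hlen)
    obtain ⟨l, hl, rfl⟩ := mem_image.1 hx
    exact List.mem_toFinset.2 (hCD l hl)
  have h3 : pull ρ' (fals K D) = pull ρ' (fals K D) * pull ρ (fals K C.toList) := by
    funext x
    rw [Pi.mul_apply, pull_apply, pull_apply]
    unfold fals
    by_cases h4 : ∀ l ∈ D, ρ' x l.1 ≠ l.2
    · rw [if_pos h4, if_pos, one_mul]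
      intro l hl
      have h5 := h4 _ (hCD l (mem_toList.1 hl))
      rw [hρι] at h5
      exact h5
    · rw [if_neg h4, zero_mul]
  rw [h3, hW.act_mul 0 _ _ _ _ u (by omega) h1 h2 hu, hT C hC u hu, map_zero]

theorem world_shift {K U W : Type} [Field K] [AddCommGroup W] [Module K W]
    {M : ℕ → Submodule K W} {act : Fun K U →ₗ[K] W →ₗ[K] W} {A : ℕ} (hW : World M act A) {a : ℕ}
    (ha : a ≤ A) : World (fun j => M (a + j)) act (A - a) := by
  refine ⟨fun i e P w h hP hw => ?_, fun i w h hw => ?_, fun i e e' P P' w h hP hP' hw => ?_⟩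
  · show act P w ∈ M (a + (i + e))
    rw [← add_assoc]
    exact hW.act_mem (a + i) e P w (by omega) hP hw
  · exact hW.act_one (a + i) w (by omega) hw
  · exact hW.act_mul (a + i) e e' P P' w (by omega) hP hP' hw

end Pool.Agent.MP_9cec2c_lc.MX
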