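import Pool.Agent.Lib.MP_9cec2c_lc.MXExact

/-!
The approximations with integer values in terms of the functions that act as zero, and the
comparison with the approximations over a finite field.
-/

set_option autoImplicit false
set_option linter.unusedSectionVars false

namespace Pool.Agent.MP_9cec2c_lc.MX

open Finset Frege FG

variable {K V : Type} [Field K] {A : ℕ} {Z : Submodule K (Fun K V)}

/-- The space `Z` is closed under multiplication by functions of small degree. -/
def Ab (A : ℕ) (Z : Submodule K (Fun K V)) : Prop :=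
  ∀ (e e' : ℕ) (P Q : Fun K V), P ∈ Pol K V e → Q ∈ Pol K V e' → Q ∈ Z → e + e' ≤ A → P * Q ∈ Z

/-- The functions that act as zero on a vector of a world. -/
theorem ab_of_world {W : Type} [AddCommGroup W] [Module K W] {M : ℕ → Submodule K W}
    {act : Fun K V →ₗ[K] W →ₗ[K] W} (hW : World M act A) {a : ℕ} (ha : a ≤ A) {f : W}
    (hf : f ∈ M a) : Ab (A - a) (LinearMap.ker (act.flip f)) := by
  intro e e' P Q hP hQ hQZ hA
  rw [LinearMap.mem_ker, LinearMap.flip_apply] at hQZ ⊢
  rw [hW.act_mul a e e' P Q f (by omega) hP hQ hf, hQZ, map_zero]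

theorem Ab.fac (hZ : Ab A Z) {β : Type} {g : β → Fun ℤ V} {k t u : ℕ} {S : Fin k → Finset β}
    (hg : ∀ j, ∀ b ∈ S j, DegZ t (g b)) {U : Fun K V} (hU : U ∈ Pol K V u)
    (hA : k * t + (t + u) ≤ A) (h0 : ∀ j, ∀ b ∈ S j, castF K (g b) * U ∈ Z) :
    U - castF K (fac g S) * U ∈ Z := by
  classical
  have key : ∀ s : Finset (Fin k),
      U - castF K (∏ j ∈ s, (1 - ∑ b ∈ S j, g b)) * U ∈ Z := by
    intro s
    induction s using Finset.induction_on with
    | empty =>
      rw [prod_empty, map_one, one_mul, sub_self]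
      exact Z.zero_mem
    | insert j s hj ih =>
      have hs : s.card * t ≤ k * t := by
        refine Nat.mul_le_mul_right t ?_
        have := card_le_univ s
        rwa [Fintype.card_fin] at this
      have hP : castF K (∏ j ∈ s, (1 - ∑ b ∈ S j, g b)) ∈ Pol K V (s.card * t) :=
        DegZ.prod s (fun j _ => (degZ_one t).sub (DegZ.sum _ fun b hb => hg j b hb)) K
      have hu : ∑ b ∈ S j, castF K (g b) * U ∈ Pol K V (t + u) :=
        Submodule.sum_mem _ fun b hb => mul_mem (hg j b hb K) hU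
      have e1 : U - castF K (∏ j ∈ insert j s, (1 - ∑ b ∈ S j, g b)) * U =
          (U - castF K (∏ j ∈ s, (1 - ∑ b ∈ S j, g b)) * U) +
            castF K (∏ j ∈ s, (1 - ∑ b ∈ S j, g b)) * ∑ b ∈ S j, castF K (g b) * U := by
        rw [prod_insert hj, map_mul, map_sub, map_one, map_sum, ← sum_mul]
        ring
      rw [e1]
      exact Z.add_mem ih (hZ _ _ _ _ hP hu (Z.sum_mem fun b hb => h0 j b hb) (by omega))
  exact key univ

section good

variable {k d : ℕ} {e : Form V → Fun ℤ V} {𝓡 : Set (Fun ℤ V)} {Γ : Set (Form V)}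

/-- The data: approximations whose errors are in `Z`. -/
structure Data (A : ℕ) (Z : Submodule K (Fun K V)) (k d : ℕ) (e : Form V → Fun ℤ V)
    (𝓡 : Set (Fun ℤ V)) (Γ : Set (Form V)) : Prop where
  ab : Ab A Z
  pos : 1 ≤ k
  good : Good k e 𝓡 Γ
  deg : ∀ φ ∈ Γ, DegZ (k ^ φ.depth) (e φ)
  depth : ∀ φ ∈ Γ, φ.depth ≤ d
  parts : ∀ φ ∈ Γ, ∀ ψ ∈ φ.parts, ψ ∈ Γ
  zero : ∀ P ∈ 𝓡, castF K P ∈ Z

theorem Data.pow_le (h : Data A Z k d e 𝓡 Γ) {c : ℕ} (hc : c ≤ d) : k ^ c ≤ k ^ d :=
  Nat.pow_le_pow_right h.pos hc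

theorem Data.mem (h : Data A Z k d e 𝓡 Γ) {φ : Form V} (hφ : φ ∈ Γ) :
    castF K (e φ) ∈ Pol K V (k ^ d) := Pol_mono (h.pow_le (h.depth φ hφ)) (h.deg φ hφ K)

/-- If `U` kills the merged disjuncts, then it kills the disjunction. -/
theorem Data.of_dl (h : Data A Z k d e 𝓡 Γ) {ψ : Form V} (hψ : ψ ∈ Γ) {U : Fun K V} {u : ℕ}
    (hU : U ∈ Pol K V u) (hA : 2 * k ^ d + u ≤ A)
    (h0 : ∀ χ ∈ dl ψ, castF K (e χ) * U ∈ Z) : castF K (e ψ) * U ∈ Z := by
  by_cases hd : ψ.IsDisj
  · obtain ⟨S, h1, h2, h3⟩ := h.good.disj ψ hψ hd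
    have h4 : castF K (e ψ) * U = U - castF K (fac e S) * U := by
      rw [← h2, map_sub, map_one]
      ring
    rw [h4]
    rcases Nat.eq_zero_or_pos ψ.depth with hz | hz
    · have h5 : fac e S = 1 := by
        unfold fac
        refine prod_eq_one fun j _ => ?_
        have h6 : S j = ∅ := by
          rw [eq_empty_iff_forall_notMem]
          intro χ hχ
          have := (dl_facts _ χ (h1 j χ hχ)).2.2.1 hd
          omega
        rw [h6, sum_empty, sub_zero]
      rw [h5, map_one, one_mul, sub_self]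
      exact Z.zero_mem
    · obtain ⟨c, hc⟩ : ∃ c, ψ.depth = c + 1 := ⟨_, (Nat.succ_pred_eq_of_pos hz).symm⟩
      have hcd : c + 1 ≤ d := hc ▸ h.depth ψ hψ
      have e1 := h.pow_le hcd
      have e2 := h.pow_le (show c ≤ d by omega)
      have e3 : k * k ^ c = k ^ (c + 1) := (pow_succ' k c).symm
      refine h.ab.fac (t := k ^ c) (u := u) (fun j χ hχ => ?_) hU (by omega)
        fun j χ hχ => h0 χ (h1 j χ hχ)
      have h5 := dl_facts ψ χ (h1 j χ hχ)
      exact DegZ.mono (Nat.pow_le_pow_right h.pos (by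
        have := h5.2.2.1 hd
        omega)) (h.deg χ (h.parts ψ hψ χ h5.1))
  · exact h0 ψ (by rw [dl_of_not hd]; exact List.mem_singleton.2 rfl)

/-- If `U` kills the disjunction, then it kills the merged disjuncts. -/
theorem Data.to_dl (h : Data A Z k d e 𝓡 Γ) {ψ : Form V} (hψ : ψ ∈ Γ) {U : Fun K V} {u : ℕ}
    (hU : U ∈ Pol K V u) (hA : 2 * k ^ d + u ≤ A) (h0 : castF K (e ψ) * U ∈ Z) :
    ∀ χ ∈ dl ψ, castF K (e χ) * U ∈ Z := by
  intro χ hχ
  by_cases hd : ψ.IsDisj
  · obtain ⟨S, h1, h2, h3⟩ := h.good.disj ψ hψ hd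
    have hχΓ : χ ∈ Γ := h.parts ψ hψ χ (dl_facts ψ χ hχ).1
    have h4 := h.zero _ (h3 χ hχ)
    rw [map_mul, map_sub, map_one] at h4
    have h5 : castF K (e χ) * U = U * (castF K (e χ) * (1 - castF K (e ψ))) +
        castF K (e χ) * (castF K (e ψ) * U) := by ring
    rw [h5]
    refine Z.add_mem (h.ab u (2 * k ^ d) _ _ hU ?_ h4 (by omega))
      (h.ab (k ^ d) (k ^ d + u) _ _ (h.mem hχΓ) (Frege.mul_mem (h.mem hψ) hU) h0 (by omega))
    rw [two_mul]
    exact Frege.mul_mem (h.mem hχΓ) (Submodule.sub_mem _ (Frege.one_mem _) (h.mem hψ))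
  · rw [dl_of_not hd] at hχ
    rwa [List.mem_singleton.1 hχ]

/-- If `U` kills the negations of the merged conjuncts, then it kills the negation of the
conjunction. -/
theorem Data.of_cl (h : Data A Z k d e 𝓡 Γ) {ψ : Form V} (hψ : ψ ∈ Γ) {U : Fun K V} {u : ℕ}
    (hU : U ∈ Pol K V u) (hA : 2 * k ^ d + u ≤ A)
    (h0 : ∀ χ ∈ cl ψ, (1 - castF K (e χ)) * U ∈ Z) : (1 - castF K (e ψ)) * U ∈ Z := by
  by_cases hd : ψ.IsConj
  · obtain ⟨S, h1, h2, h3⟩ := h.good.conj ψ hψ hd
    have h4 : (1 - castF K (e ψ)) * U = U - castF K (fac (fun χ => 1 - e χ) S) * U := by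
      rw [← h2]
      ring
    rw [h4]
    rcases Nat.eq_zero_or_pos ψ.depth with hz | hz
    · have h5 : fac (fun χ => 1 - e χ) S = 1 := by
        unfold fac
        refine prod_eq_one fun j _ => ?_
        have h6 : S j = ∅ := by
          rw [eq_empty_iff_forall_notMem]
          intro χ hχ
          have := (cl_facts _ χ (h1 j χ hχ)).2.2.1 hd
          omega
        rw [h6, sum_empty, sub_zero]
      rw [h5, map_one, one_mul, sub_self]
      exact Z.zero_mem
    · obtain ⟨c, hc⟩ : ∃ c, ψ.depth = c + 1 := ⟨_, (Nat.succ_pred_eq_of_pos hz).symm⟩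
      have hcd : c + 1 ≤ d := hc ▸ h.depth ψ hψ
      have e1 := h.pow_le hcd
      have e2 := h.pow_le (show c ≤ d by omega)
      have e3 : k * k ^ c = k ^ (c + 1) := (pow_succ' k c).symm
      refine h.ab.fac (t := k ^ c) (u := u) (fun j χ hχ => ?_) hU (by omega)
        fun j χ hχ => ?_
      · have h5 := cl_facts ψ χ (h1 j χ hχ)
        exact (degZ_one _).sub (DegZ.mono (Nat.pow_le_pow_right h.pos (by
          have := h5.2.2.1 hd
          omega)) (h.deg χ (h.parts ψ hψ χ h5.1)))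
      · rw [map_sub, map_one]
        exact h0 χ (h1 j χ hχ)
  · exact h0 ψ (by rw [cl_of_not hd]; exact List.mem_singleton.2 rfl)

/-- If `U` kills the negation of the conjunction, then it kills the negations of the merged
conjuncts. -/
theorem Data.to_cl (h : Data A Z k d e 𝓡 Γ) {ψ : Form V} (hψ : ψ ∈ Γ) {U : Fun K V} {u : ℕ}
    (hU : U ∈ Pol K V u) (hA : 2 * k ^ d + u ≤ A) (h0 : (1 - castF K (e ψ)) * U ∈ Z) :
    ∀ χ ∈ cl ψ, (1 - castF K (e χ)) * U ∈ Z := by
  intro χ hχ
  by_cases hd : ψ.IsConj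
  · obtain ⟨S, h1, h2, h3⟩ := h.good.conj ψ hψ hd
    have hχΓ : χ ∈ Γ := h.parts ψ hψ χ (cl_facts ψ χ hχ).1
    have h4 := h.zero _ (h3 χ hχ)
    rw [map_mul, map_sub, map_one] at h4
    have h5 : (1 - castF K (e χ)) * U = U * ((1 - castF K (e χ)) * castF K (e ψ)) +
        (1 - castF K (e χ)) * ((1 - castF K (e ψ)) * U) := by ring
    have h6 : 1 - castF K (e χ) ∈ Pol K V (k ^ d) :=
      Submodule.sub_mem _ (Frege.one_mem _) (h.mem hχΓ)
    rw [h5]
    refine Z.add_mem (h.ab u (2 * k ^ d) _ _ hU ?_ h4 (by omega))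
      (h.ab (k ^ d) (k ^ d + u) _ _ h6 (Frege.mul_mem (Submodule.sub_mem _ (Frege.one_mem _)
        (h.mem hψ)) hU) h0 (by omega))
    rw [two_mul]
    exact Frege.mul_mem h6 (h.mem hψ)
  · rw [cl_of_not hd] at hχ
    rwa [List.mem_singleton.1 hχ]

theorem Data.disj_of (h : Data A Z k d e 𝓡 Γ) {m : ℕ} {F : Fin m → Form V}
    (hψ : Form.disj m F ∈ Γ) {U : Fun K V} {u : ℕ} (hU : U ∈ Pol K V u)
    (hA : 2 * k ^ d + u ≤ A) (h0 : ∀ i, castF K (e (F i)) * U ∈ Z) :
    castF K (e (.disj m F)) * U ∈ Z := by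
  refine h.of_dl hψ hU hA fun χ hχ => ?_
  rw [dl_disj, List.mem_flatMap] at hχ
  obtain ⟨i, -, hi⟩ := hχ
  exact h.to_dl (h.parts _ hψ _ (part_disj i (self_mem_parts _))) hU hA (h0 i) χ hi

theorem Data.disj_to (h : Data A Z k d e 𝓡 Γ) {m : ℕ} {F : Fin m → Form V}
    (hψ : Form.disj m F ∈ Γ) (hA : 3 * k ^ d ≤ A) (i : Fin m) :
    castF K (e (F i)) * (1 - castF K (e (.disj m F))) ∈ Z := by
  refine h.of_dl (h.parts _ hψ _ (part_disj i (self_mem_parts _)))
    (Submodule.sub_mem _ (Frege.one_mem _) (h.mem hψ)) (by omega) fun χ hχ => ?_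
  obtain ⟨S, -, -, h3⟩ := h.good.disj _ hψ trivial
  have h4 := h.zero _ (h3 χ (by
    rw [dl_disj, List.mem_flatMap]
    exact ⟨i, List.mem_finRange i, hχ⟩))
  rwa [map_mul, map_sub, map_one] at h4

theorem Data.conj_of (h : Data A Z k d e 𝓡 Γ) {m : ℕ} {F : Fin m → Form V}
    (hψ : Form.conj m F ∈ Γ) {U : Fun K V} {u : ℕ} (hU : U ∈ Pol K V u)
    (hA : 2 * k ^ d + u ≤ A) (h0 : ∀ i, (1 - castF K (e (F i))) * U ∈ Z) :
    (1 - castF K (e (.conj m F))) * U ∈ Z := by
  refine h.of_cl hψ hU hA fun χ hχ => ?_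
  rw [cl_conj, List.mem_flatMap] at hχ
  obtain ⟨i, -, hi⟩ := hχ
  exact h.to_cl (h.parts _ hψ _ (part_conj i (self_mem_parts _))) hU hA (h0 i) χ hi

theorem Data.conj_to (h : Data A Z k d e 𝓡 Γ) {m : ℕ} {F : Fin m → Form V}
    (hψ : Form.conj m F ∈ Γ) (hA : 3 * k ^ d ≤ A) (i : Fin m) :
    (1 - castF K (e (F i))) * castF K (e (.conj m F)) ∈ Z := by
  refine h.of_cl (h.parts _ hψ _ (part_conj i (self_mem_parts _)))
    (h.mem hψ) (by omega) fun χ hχ => ?_
  obtain ⟨S, -, -, h3⟩ := h.good.conj _ hψ trivial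
  have h4 := h.zero _ (h3 χ (by
    rw [cl_conj, List.mem_flatMap]
    exact ⟨i, List.mem_finRange i, hχ⟩))
  rwa [map_mul, map_sub, map_one] at h4

end good

/-! ### The comparison with the approximations over a finite field -/

section link

variable [Fintype K] {k k' d : ℕ} {e : Form V → Fun ℤ V} {𝓡 : Set (Fun ℤ V)} {Γ : Set (Form V)}
  {H : List (Fun K V) → Fun K V}

theorem Kill.ab (hZ : Kill A Z) : Ab A Z := hZ.mul

/-- Both approximations of a formula without counting gates agree up to functions in `Z`. -/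
theorem Data.link (h : Data A Z k d e 𝓡 Γ) (hZ : Kill A Z) (hH : Choice k' H) (hk' : 1 ≤ k')
    (hA : 4 * (k ^ d + FG.deg K k' (d + 1)) ≤ A) (φ : Form V) (hφ : CountFree φ) (hφΓ : φ ∈ Γ)
    (hcl : ∀ ψ ∈ φ.parts, CleanForm Z H ψ) : pv H φ - castF K (e φ) ∈ Z := by
  obtain ⟨T, hT⟩ : ∃ T, T = FG.deg K k' (d + 1) := ⟨_, rfl⟩
  have hTd : FG.deg K k' d ≤ T := by
    rw [hT]
    exact deg_mono hk' (Nat.le_succ d)
  induction φ with
  | var v =>
    have h1 : pv H (.var v) = castF K (e (.var v)) := by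
      rw [h.good.var v hφΓ]
      funext x
      rw [castF_apply]
      show (if x v = true then (1 : K) else 0) = ((if x v = true then (1 : ℤ) else 0 : ℤ) : K)
      split_ifs
      · rw [Int.cast_one]
      · rw [Int.cast_zero]
    rw [h1, sub_self]
    exact Z.zero_mem
  | neg φ ih =>
    have h1 := ih hφ (h.parts _ hφΓ _ (Set.mem_insert_of_mem _ (self_mem_parts _)))
      (fun ψ hψ => hcl ψ (Set.mem_insert_of_mem _ hψ))
    rw [pv_neg, h.good.neg φ hφΓ, map_sub, map_one]
    have h2 : 1 - pv H φ - (1 - castF K (e φ)) = -(pv H φ - castF K (e φ)) := by ring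
    rw [h2]
    exact Z.neg_mem h1
  | count r m F _ => exact absurd hφ id
  | disj m F ih =>
    obtain ⟨ψ, hψ⟩ : ∃ ψ : Form V, ψ = Form.disj m F := ⟨_, rfl⟩
    have hin : ∀ i, F i ∈ Γ := fun i => h.parts _ hφΓ _ (part_disj i (self_mem_parts _))
    have hih : ∀ i, pv H (F i) - castF K (e (F i)) ∈ Z := fun i =>
      ih i (hφ i) (hin i) fun χ hχ => hcl χ (part_disj i hχ)
    have hpd : ∀ χ ∈ Γ, pv H χ ∈ Pol K V T := fun χ hχ =>
      Pol_mono hTd (pv_mem hH hk' (h.depth χ hχ))
    have hE : castF K (e (.disj m F)) ∈ Pol K V (k ^ d) := h.mem hφΓ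
    -- the two products
    have h1 : castF K (e (.disj m F)) * (1 - pv H (.disj m F)) ∈ Z := by
      refine h.disj_of hφΓ (Submodule.sub_mem _ (Frege.one_mem _) (hpd _ hφΓ)) (by omega)
        fun i => ?_
      have h2 : pv H (F i) * (1 - pv H (.disj m F)) ∈ Z := by
        refine hZ.pv_of_orl hH hk' (h.depth _ (hin i)) (Submodule.sub_mem _ (Frege.one_mem _)
          (hpd _ hφΓ)) (by omega) fun g hg => ?_
        rw [pv_disj, sub_sub_cancel]
        refine (hcl _ (self_mem_parts _)).1 trivial g ?_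
        rw [orl_disj, List.mem_flatMap]
        exact ⟨i, List.mem_finRange i, hg⟩
      have h3 : castF K (e (F i)) * (1 - pv H (.disj m F)) =
          pv H (F i) * (1 - pv H (.disj m F)) -
            (1 - pv H (.disj m F)) * (pv H (F i) - castF K (e (F i))) := by ring
      rw [h3]
      refine Z.sub_mem h2 (hZ.mul T (T + k ^ d) _ _ (Submodule.sub_mem _ (Frege.one_mem _)
        (hpd _ hφΓ)) (Submodule.sub_mem _ (Pol_mono (by omega) (hpd _ (hin i)))
        (Pol_mono (by omega) (h.mem (hin i)))) (hih i) (by omega))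
    have h2 : pv H (.disj m F) * (1 - castF K (e (.disj m F))) ∈ Z := by
      have h3 : ∀ i, ∀ g ∈ orl H (F i), g * (1 - castF K (e (.disj m F))) ∈ Z := by
        intro i
        have h4 : pv H (F i) * (1 - castF K (e (.disj m F))) ∈ Z := by
          have h5 : pv H (F i) * (1 - castF K (e (.disj m F))) =
              castF K (e (F i)) * (1 - castF K (e (.disj m F))) +
                (1 - castF K (e (.disj m F))) * (pv H (F i) - castF K (e (F i))) := by ring
          rw [h5]
          refine Z.add_mem (h.disj_to hφΓ (by omega) i) (hZ.mul (k ^ d) (T + k ^ d) _ _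
            (Submodule.sub_mem _ (Frege.one_mem _) hE) (Submodule.sub_mem _
              (Pol_mono (by omega) (hpd _ (hin i))) (Pol_mono (by omega) (h.mem (hin i))))
            (hih i) (by omega))
        exact hZ.orl_of_pv hH hk' (h.depth _ (hin i)) (hcl _ (part_disj i (self_mem_parts _)))
          (Submodule.sub_mem _ (Frege.one_mem _) hE) (by omega) h4
      refine hZ.pv_of_orl hH hk' (h.depth _ hφΓ) (Submodule.sub_mem _ (Frege.one_mem _) hE)
        (by omega) fun g hg => ?_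
      rw [orl_disj, List.mem_flatMap] at hg
      obtain ⟨i, -, hi⟩ := hg
      exact h3 i g hi
    have h3 : pv H (.disj m F) - castF K (e (.disj m F)) =
        pv H (.disj m F) * (1 - castF K (e (.disj m F))) -
          castF K (e (.disj m F)) * (1 - pv H (.disj m F)) := by ring
    rw [h3]
    exact Z.sub_mem h2 h1
  | conj m F ih =>
    have hin : ∀ i, F i ∈ Γ := fun i => h.parts _ hφΓ _ (part_conj i (self_mem_parts _))
    have hih : ∀ i, pv H (F i) - castF K (e (F i)) ∈ Z := fun i =>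
      ih i (hφ i) (hin i) fun χ hχ => hcl χ (part_conj i hχ)
    have hpd : ∀ χ ∈ Γ, pv H χ ∈ Pol K V T := fun χ hχ =>
      Pol_mono hTd (pv_mem hH hk' (h.depth χ hχ))
    have hE : castF K (e (.conj m F)) ∈ Pol K V (k ^ d) := h.mem hφΓ
    have h1 : (1 - castF K (e (.conj m F))) * pv H (.conj m F) ∈ Z := by
      refine h.conj_of hφΓ (hpd _ hφΓ) (by omega) fun i => ?_
      have h2 : (1 - pv H (F i)) * pv H (.conj m F) ∈ Z := by
        refine hZ.pv_of_andl hH hk' (h.depth _ (hin i)) (hpd _ hφΓ) (by omega) fun g hg => ?_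
        rw [pv_conj]
        refine (hcl _ (self_mem_parts _)).2 trivial g ?_
        obtain ⟨g', hg', rfl⟩ := List.mem_map.1 hg
        refine List.mem_map.2 ⟨g', ?_, rfl⟩
        rw [andl_conj, List.mem_flatMap]
        exact ⟨i, List.mem_finRange i, hg'⟩
      have h3 : (1 - castF K (e (F i))) * pv H (.conj m F) =
          (1 - pv H (F i)) * pv H (.conj m F) +
            pv H (.conj m F) * (pv H (F i) - castF K (e (F i))) := by ring
      rw [h3]
      refine Z.add_mem h2 (hZ.mul T (T + k ^ d) _ _ (hpd _ hφΓ)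
        (Submodule.sub_mem _ (Pol_mono (by omega) (hpd _ (hin i)))
        (Pol_mono (by omega) (h.mem (hin i)))) (hih i) (by omega))
    have h2 : (1 - pv H (.conj m F)) * castF K (e (.conj m F)) ∈ Z := by
      have h3 : ∀ i, ∀ g ∈ (andl H (F i)).map (1 - ·), g * castF K (e (.conj m F)) ∈ Z := by
        intro i
        have h4 : (1 - pv H (F i)) * castF K (e (.conj m F)) ∈ Z := by
          have h5 : (1 - pv H (F i)) * castF K (e (.conj m F)) =
              (1 - castF K (e (F i))) * castF K (e (.conj m F)) -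
                castF K (e (.conj m F)) * (pv H (F i) - castF K (e (F i))) := by ring
          rw [h5]
          refine Z.sub_mem (h.conj_to hφΓ (by omega) i) (hZ.mul (k ^ d) (T + k ^ d) _ _
            hE (Submodule.sub_mem _
              (Pol_mono (by omega) (hpd _ (hin i))) (Pol_mono (by omega) (h.mem (hin i))))
            (hih i) (by omega))
        exact hZ.andl_of_pv hH hk' (h.depth _ (hin i)) (hcl _ (part_conj i (self_mem_parts _)))
          hE (by omega) h4
      refine hZ.pv_of_andl hH hk' (h.depth _ hφΓ) hE (by omega) fun g hg => ?_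
      obtain ⟨g', hg', rfl⟩ := List.mem_map.1 hg
      rw [andl_conj, List.mem_flatMap] at hg'
      obtain ⟨i, -, hi⟩ := hg'
      exact h3 i _ (List.mem_map.2 ⟨g', hi, rfl⟩)
    have h3 : pv H (.conj m F) - castF K (e (.conj m F)) =
        (1 - castF K (e (.conj m F))) * pv H (.conj m F) -
          (1 - pv H (.conj m F)) * castF K (e (.conj m F)) := by ring
    rw [h3]
    exact Z.sub_mem h1 h2

end link

end Pool.Agent.MP_9cec2c_lc.MX
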