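import Pool.Agent.Lib.MP_9cec2c_lc.MXTransfer
import Pool.Agent.Lib.MP_9cec2c_lc.FGComp

/-!
The first error among the lines without counting gates of a mixed derivation: the formulas which
say that some line with a given tag is the first error, and their properties.
-/

set_option autoImplicit false
set_option linter.unusedSectionVars false

namespace Pool.Agent.MP_9cec2c_lc.MX

open Finset Frege FG

variable {V : Type}

theorem countFree_conjL {Λ : List (Form V)} (h : ∀ φ ∈ Λ, CountFree φ) : CountFree (conjL Λ) :=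
  fun i => h _ (List.get_mem Λ i)

theorem countFree_disjL {Λ : List (Form V)} (h : ∀ φ ∈ Λ, CountFree φ) : CountFree (disjL Λ) :=
  fun i => h _ (List.get_mem Λ i)

theorem countFree_clause (D : List (V × Bool)) : CountFree (clause D) := by
  refine countFree_disjL fun φ hφ => ?_
  obtain ⟨⟨v, b⟩, -, rfl⟩ := List.mem_map.1 hφ
  cases b
  · exact trivial
  · exact trivial

theorem countFree_cnf (F : List (List (V × Bool))) : CountFree (cnf F) := by
  refine countFree_conjL fun φ hφ => ?_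
  obtain ⟨D, -, rfl⟩ := List.mem_map.1 hφ
  exact countFree_clause D

theorem countFree_falsum : CountFree (falsum : Form V) := fun i => i.elim0

theorem parts_conjL {Λ : List (Form V)} {ψ : Form V} (h : ψ ∈ (conjL Λ).parts) :
    ψ = conjL Λ ∨ ∃ φ ∈ Λ, ψ ∈ φ.parts := by
  rcases Set.mem_insert_iff.1 h with h1 | h1
  · exact Or.inl h1
  · obtain ⟨i, hi⟩ := Set.mem_iUnion.1 h1
    exact Or.inr ⟨_, List.get_mem Λ i, hi⟩

theorem parts_disjL {Λ : List (Form V)} {ψ : Form V} (h : ψ ∈ (disjL Λ).parts) :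
    ψ = disjL Λ ∨ ∃ φ ∈ Λ, ψ ∈ φ.parts := by
  rcases Set.mem_insert_iff.1 h with h1 | h1
  · exact Or.inl h1
  · obtain ⟨i, hi⟩ := Set.mem_iUnion.1 h1
    exact Or.inr ⟨_, List.get_mem Λ i, hi⟩

/-! ### The formulas -/

open Classical in
/-- The lines without counting gates before the line `i`. -/
noncomputable def before {l : ℕ} (L : Fin l → Form V) (i : Fin l) : List (Form V) :=
  ((List.finRange l).filter fun j => j < i ∧ CountFree (L j)).map L

/-- The line `i` is false and all earlier lines without counting gates are true. -/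
noncomputable def Ev {l : ℕ} (L : Fin l → Form V) (i : Fin l) : Form V :=
  conjL (.neg (L i) :: before L i)

open Classical in
/-- The disjuncts of the next formula. -/
noncomputable def evs {l : ℕ} (τ : Fin l → ℕ) (L : Fin l → Form V) (q : ℕ) : List (Form V) :=
  ((List.finRange l).filter fun i => CountFree (L i) ∧ τ i = q).map (Ev L)

/-- The first false line without counting gates has tag `q`. -/
noncomputable def Dq {l : ℕ} (τ : Fin l → ℕ) (L : Fin l → Form V) (q : ℕ) : Form V :=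
  disjL (evs τ L q)

theorem mem_before {l : ℕ} {L : Fin l → Form V} {i : Fin l} {φ : Form V} :
    φ ∈ before L i ↔ ∃ j, j < i ∧ CountFree (L j) ∧ L j = φ := by
  classical
  unfold before
  rw [List.mem_map]
  constructor
  · rintro ⟨j, hj, rfl⟩
    rw [List.mem_filter, decide_eq_true_eq] at hj
    exact ⟨j, hj.2.1, hj.2.2, rfl⟩
  · rintro ⟨j, h1, h2, rfl⟩
    exact ⟨j, by
      rw [List.mem_filter, decide_eq_true_eq]
      exact ⟨List.mem_finRange j, h1, h2⟩, rfl⟩

theorem mem_Dq {l : ℕ} {τ : Fin l → ℕ} {L : Fin l → Form V} {q : ℕ} {φ : Form V} :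
    φ ∈ evs τ L q ↔ ∃ i, CountFree (L i) ∧ τ i = q ∧ Ev L i = φ := by
  classical
  unfold evs
  rw [List.mem_map]
  constructor
  · rintro ⟨j, hj, rfl⟩
    rw [List.mem_filter, decide_eq_true_eq] at hj
    exact ⟨j, hj.2.1, hj.2.2, rfl⟩
  · rintro ⟨j, h1, h2, rfl⟩
    exact ⟨j, by
      rw [List.mem_filter, decide_eq_true_eq]
      exact ⟨List.mem_finRange j, h1, h2⟩, rfl⟩

/-- The formulas which are needed. -/
noncomputable def Gam {l : ℕ} (Q : Finset ℕ) (τ : Fin l → ℕ) (L : Fin l → Form V) :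
    Set (Form V) :=
  {ψ | ∃ i, CountFree (L i) ∧ (ψ ∈ (L i).parts ∨ ψ = .neg (L i) ∨ ψ = Ev L i)} ∪
    ({ψ | ∃ q ∈ Q, ψ = Dq τ L q} ∪ {conjL []})

variable {l : ℕ} {Q : Finset ℕ} {τ : Fin l → ℕ} {L : Fin l → Form V}

theorem Gam_finite : (Gam Q τ L).Finite := by
  refine Set.Finite.union ?_ (Set.Finite.union ?_ (Set.finite_singleton _))
  · refine (((parts_set_finite L).union (Set.finite_range fun i => (Form.neg (L i)))).union
      (Set.finite_range fun i => Ev L i)).subset ?_
    rintro ψ ⟨i, -, h | h | h⟩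
    · exact Or.inl (Or.inl ⟨i, h⟩)
    · exact Or.inl (Or.inr ⟨i, h.symm⟩)
    · exact Or.inr ⟨i, h.symm⟩
  · refine (Q.finite_toSet.image fun q => Dq τ L q).subset ?_
    rintro ψ ⟨q, hq, rfl⟩
    exact ⟨q, hq, rfl⟩

theorem Gam_ncard : (Gam Q τ L).ncard ≤ 2 * size L + Q.card + 1 := by
  have h1 : (Gam Q τ L) ⊆ (({ψ | ∃ i, ψ ∈ (L i).parts} ∪
      (Set.range fun i => (Form.neg (L i)))) ∪ (Set.range fun i => Ev L i)) ∪
      (((fun q => Dq τ L q) '' (Q : Set ℕ)) ∪ {conjL []}) := by
    refine Set.union_subset_union ?_ (Set.union_subset_union_left _ ?_)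
    · rintro ψ ⟨i, -, h | h | h⟩
      · exact Or.inl (Or.inl ⟨i, h⟩)
      · exact Or.inl (Or.inr ⟨i, h.symm⟩)
      · exact Or.inr ⟨i, h.symm⟩
    · rintro ψ ⟨q, hq, rfl⟩
      exact ⟨q, hq, rfl⟩
  have hf : ((({ψ | ∃ i, ψ ∈ (L i).parts} ∪
      (Set.range fun i => (Form.neg (L i)))) ∪ (Set.range fun i => Ev L i)) ∪
      (((fun q => Dq τ L q) '' (Q : Set ℕ)) ∪ {conjL []})).Finite :=
    (((parts_set_finite L).union (Set.finite_range _)).union (Set.finite_range _)).union
      ((Q.finite_toSet.image _).union (Set.finite_singleton _))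
  have hr : ∀ f : Fin l → Form V, (Set.range f).ncard ≤ l := by
    intro f
    rw [← Set.image_univ]
    refine (Set.ncard_image_le Set.finite_univ).trans ?_
    rw [Set.ncard_univ, Nat.card_eq_fintype_card, Fintype.card_fin]
  have e1 := Set.ncard_le_ncard h1 hf
  have e2 := Set.ncard_union_le (({ψ | ∃ i, ψ ∈ (L i).parts} ∪
      (Set.range fun i => (Form.neg (L i)))) ∪ (Set.range fun i => Ev L i))
      (((fun q => Dq τ L q) '' (Q : Set ℕ)) ∪ {conjL []})
  have e3 := Set.ncard_union_le ({ψ | ∃ i, ψ ∈ (L i).parts} ∪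
      (Set.range fun i => (Form.neg (L i)))) (Set.range fun i => Ev L i)
  have e4 := Set.ncard_union_le {ψ | ∃ i, ψ ∈ (L i).parts}
      (Set.range fun i => (Form.neg (L i)))
  have e5 := Set.ncard_union_le ((fun q => Dq τ L q) '' (Q : Set ℕ)) {conjL []}
  have e6 := Set.ncard_image_le (f := fun q => Dq τ L q) Q.finite_toSet
  rw [Set.ncard_coe_finset] at e6
  rw [Set.ncard_singleton] at e5
  have e7 := hr fun i => (Form.neg (L i))
  have e8 := hr fun i => Ev L i
  unfold size
  omega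

theorem Gam_countFree {ψ : Form V} (h : ψ ∈ Gam Q τ L) : CountFree ψ := by
  have hE : ∀ i, CountFree (L i) → CountFree (Ev L i) := by
    intro i hi
    refine countFree_conjL fun φ hφ => ?_
    rcases List.mem_cons.1 hφ with rfl | h1
    · exact hi
    · obtain ⟨j, -, h2, rfl⟩ := mem_before.1 h1
      exact h2
  rcases h with ⟨i, hi, h | h | h⟩ | ⟨q, -, h⟩ | h
  · exact countFree_parts hi h
  · rw [h]
    exact hi
  · rw [h]
    exact hE i hi
  · rw [h]
    refine countFree_disjL fun φ hφ => ?_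
    obtain ⟨i, h1, -, rfl⟩ := mem_Dq.1 hφ
    exact hE i h1
  · rw [Set.mem_singleton_iff.1 h]
    exact fun i => i.elim0

theorem depth_Ev {d : ℕ} (hd : ∀ i, (L i).depth ≤ d) (i : Fin l) : (Ev L i).depth ≤ d + 1 := by
  classical
  unfold Ev
  rw [depth_conjL_le]
  intro φ hφ
  have h1 : φ.depth ≤ d := by
    rcases List.mem_cons.1 hφ with rfl | h1
    · exact hd i
    · obtain ⟨j, -, -, rfl⟩ := mem_before.1 h1
      exact hd j
  split_ifs <;> omega

theorem Gam_depth {d : ℕ} (hd : ∀ i, (L i).depth ≤ d) {ψ : Form V} (h : ψ ∈ Gam Q τ L) :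
    ψ.depth ≤ d + 2 := by
  classical
  rcases h with ⟨i, hi, h | h | h⟩ | ⟨q, -, h⟩ | h
  · exact (depth_parts h).trans ((hd i).trans (by omega))
  · rw [h]
    exact (hd i).trans (by omega)
  · rw [h]
    exact (depth_Ev hd i).trans (by omega)
  · rw [h]
    unfold Dq
    rw [depth_disjL_le]
    intro φ hφ
    obtain ⟨i, h1, -, rfl⟩ := mem_Dq.1 hφ
    have := depth_Ev hd i
    split_ifs <;> omega
  · rw [Set.mem_singleton_iff.1 h]
    exact (depth_conjL_le.2 fun φ hφ => absurd hφ List.not_mem_nil)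

theorem Gam_line {i : Fin l} (hi : CountFree (L i)) {ψ : Form V} (h : ψ ∈ (L i).parts) :
    ψ ∈ Gam Q τ L := Or.inl ⟨i, hi, Or.inl h⟩

theorem Gam_Ev {i : Fin l} (hi : CountFree (L i)) : Ev L i ∈ Gam Q τ L :=
  Or.inl ⟨i, hi, Or.inr (Or.inr rfl)⟩

theorem Gam_Dq {q : ℕ} (hq : q ∈ Q) : Dq τ L q ∈ Gam Q τ L := Or.inr (Or.inl ⟨q, hq, rfl⟩)

theorem Gam_verum : conjL [] ∈ Gam Q τ L := Or.inr (Or.inr rfl)

theorem Gam_parts {φ : Form V} (h : φ ∈ Gam Q τ L) {ψ : Form V} (hψ : ψ ∈ φ.parts) :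
    ψ ∈ Gam Q τ L := by
  have hN : ∀ i, CountFree (L i) → ∀ ψ ∈ (Form.neg (L i)).parts, ψ ∈ Gam Q τ L := by
    intro i hi ψ hψ
    rcases Set.mem_insert_iff.1 hψ with h1 | h1
    · exact Or.inl ⟨i, hi, Or.inr (Or.inl h1)⟩
    · exact Gam_line hi h1
  have hE : ∀ i, CountFree (L i) → ∀ ψ ∈ (Ev L i).parts, ψ ∈ Gam Q τ L := by
    intro i hi ψ hψ
    rcases parts_conjL hψ with h1 | ⟨φ, hφ, h1⟩
    · rw [h1]
      exact Gam_Ev hi
    · rcases List.mem_cons.1 hφ with rfl | h2
      · exact hN i hi ψ h1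
      · obtain ⟨j, -, h3, rfl⟩ := mem_before.1 h2
        exact Gam_line h3 h1
  rcases h with ⟨i, hi, h | h | h⟩ | ⟨q, hq, h⟩ | h
  · exact Gam_line hi (parts_trans hψ h)
  · rw [h] at hψ
    exact hN i hi ψ hψ
  · rw [h] at hψ
    exact hE i hi ψ hψ
  · rw [h] at hψ
    rcases parts_disjL hψ with h1 | ⟨φ, hφ, h1⟩
    · rw [h1]
      exact Gam_Dq hq
    · obtain ⟨i, h2, -, rfl⟩ := mem_Dq.1 hφ
      exact hE i h2 ψ h1
  · rw [Set.mem_singleton_iff.1 h] at hψ
    rcases parts_conjL hψ with h1 | ⟨φ, hφ, -⟩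
    · rw [h1]
      exact Gam_verum
    · exact absurd hφ List.not_mem_nil

/-! ### The clauses -/

section data

variable {K : Type} [Field K] {A : ℕ} {Z : Submodule K (Fun K V)} {k d : ℕ}
  {e : Form V → Fun ℤ V} {𝓡 : Set (Fun ℤ V)} {Γ : Set (Form V)}

theorem fals_cons (l : V × Bool) (D : List (V × Bool)) :
    fals K (l :: D) = fals K [l] * fals K D := by
  classical
  funext x
  rw [Pi.mul_apply]
  unfold fals
  simp only [List.forall_mem_cons, List.not_mem_nil, IsEmpty.forall_iff, implies_true, and_true]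
  by_cases h1 : x l.1 ≠ l.2
  · by_cases h2 : ∀ l ∈ D, x l.1 ≠ l.2
    · rw [if_pos ⟨h1, h2⟩, if_pos h1, if_pos h2, one_mul]
    · rw [if_neg fun h => h2 h.2, if_neg h2, mul_zero]
  · rw [if_neg fun h => h1 h.1, if_neg h1, zero_mul]

theorem fals_lit (h : Data A Z k d e 𝓡 Γ) (l : V × Bool) (hl : lit l ∈ Γ) :
    fals K [l] = 1 - castF K (e (lit l)) := by
  classical
  obtain ⟨v, b⟩ := l
  have hv : Form.var v ∈ Γ := by
    cases b
    · exact h.parts _ hl _ (Set.mem_insert_of_mem _ (self_mem_parts _))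
    · exact hl
  have h1 : castF K (e (.var v)) = fun x => if x v = true then (1 : K) else 0 := by
    rw [h.good.var v hv]
    funext x
    rw [castF_apply]
    split_ifs
    · rw [Int.cast_one]
    · rw [Int.cast_zero]
  cases b
  · have h2 : e (lit (v, false)) = 1 - e (.var v) := h.good.neg _ hl
    rw [h2, map_sub, map_one, sub_sub_cancel, h1]
    funext x
    unfold fals
    simp only [List.mem_singleton, forall_eq, ne_eq, Bool.not_eq_false]
  · show _ = 1 - castF K (e (.var v))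
    rw [h1]
    funext x
    unfold fals
    simp only [List.mem_singleton, forall_eq, ne_eq, Bool.not_eq_true, Pi.sub_apply,
      Pi.one_apply]
    by_cases h3 : x v = true
    · rw [if_neg (by rw [h3]; exact Bool.noConfusion), if_pos h3, sub_self]
    · rw [if_pos (by rwa [Bool.not_eq_true] at h3), if_neg h3, sub_zero]

/-- A clause holds if the function which says that some of its literals are false is in `Z`. -/
theorem clause_holds_sub (h : Data A Z k d e 𝓡 Γ) {w : ℕ} (hA : 3 * k ^ d + w ≤ A)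
    {D E : List (V × Bool)} (hD : clause D ∈ Γ) (hE : ∀ l ∈ E, l ∈ D) (hw : E.length ≤ w)
    (h0 : fals K E ∈ Z) : 1 - castF K (e (clause D)) ∈ Z := by
  obtain ⟨U, hU⟩ : ∃ U, U = 1 - castF K (e (clause D)) := ⟨_, rfl⟩
  have hUp : U ∈ Pol K V (k ^ d) := by
    rw [hU]
    exact Submodule.sub_mem _ (Frege.one_mem _) (h.mem hD)
  have hlΓ : ∀ l ∈ D, lit l ∈ Γ := by
    intro l hl
    obtain ⟨i, hi⟩ := List.get_of_mem (List.mem_map.2 ⟨l, hl, rfl⟩ : lit l ∈ D.map lit)
    rw [← hi]
    exact h.parts _ hD _ (part_disj i (self_mem_parts _))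
  have hl : ∀ l ∈ D, castF K (e (lit l)) * U ∈ Z := by
    intro l hl
    obtain ⟨i, hi⟩ := List.get_of_mem (List.mem_map.2 ⟨l, hl, rfl⟩ : lit l ∈ D.map lit)
    rw [← hi, hU]
    exact h.disj_to hD (by omega) i
  have hfp : ∀ D' : List (V × Bool), (∀ l ∈ D', l ∈ D) → fals K D' ∈ Pol K V D'.length ∧
      (D'.length ≤ w → fals K D' * U - U ∈ Z) := by
    intro D'
    induction D' with
    | nil =>
      intro _
      have h1 : fals K ([] : List (V × Bool)) = 1 := by
        funext x
        unfold fals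
        rw [if_pos fun l hl => absurd hl List.not_mem_nil]
        rfl
      rw [h1, one_mul, sub_self]
      exact ⟨Frege.one_mem _, fun _ => Z.zero_mem⟩
    | cons l D' ih =>
      intro hD'
      obtain ⟨ih1, ih2⟩ := ih fun l' hl' => hD' l' (List.mem_cons_of_mem _ hl')
      have hlD : l ∈ D := hD' l List.mem_cons_self
      have h2 := fals_lit h l (hlΓ l hlD)
      have h3 : 1 - castF K (e (lit l)) ∈ Pol K V 1 := by
        refine Submodule.sub_mem _ (Frege.one_mem _) ?_
        have h4 := h.deg _ (hlΓ l hlD) K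
        have h5 : (lit l).depth = 0 := by
          obtain ⟨v, b⟩ := l
          cases b <;> rfl
        rwa [h5, pow_zero] at h4
      rw [fals_cons, h2, List.length_cons]
      refine ⟨by
        rw [add_comm]
        exact Frege.mul_mem h3 ih1, fun hw' => ?_⟩
      have h4 : (1 - castF K (e (lit l))) * fals K D' * U - U =
          (1 - castF K (e (lit l))) * (fals K D' * U - U) - castF K (e (lit l)) * U := by ring
      rw [h4]
      refine Z.sub_mem (h.ab 1 (w + k ^ d) _ _ h3 (Submodule.sub_mem _ ?_ ?_) (ih2 (by omega))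
        ?_) (hl l hlD)
      · exact Frege.mul_mem (Pol_mono (by omega) ih1) hUp
      · exact Pol_mono (by omega) hUp
      · have : 1 ≤ k ^ d := Nat.one_le_pow _ _ h.pos
        omega
  obtain ⟨h1, h2⟩ := hfp E hE
  rw [← hU]
  have h3 : U = U * fals K E - (fals K E * U - U) := by ring
  rw [h3]
  exact Z.sub_mem (h.ab _ _ _ _ hUp h1 h0 (by omega)) (h2 hw)

/-- A clause holds if the function which says that it is false is in `Z`. -/
theorem clause_holds (h : Data A Z k d e 𝓡 Γ) {w : ℕ} (hA : 3 * k ^ d + w ≤ A)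
    {D : List (V × Bool)} (hD : clause D ∈ Γ) (hw : D.length ≤ w) (h0 : fals K D ∈ Z) :
    1 - castF K (e (clause D)) ∈ Z :=
  clause_holds_sub h hA hD (fun _ h => h) hw h0

/-- If no line is the first error, then the derivation is not a refutation. -/
theorem one_mem_of {S : ℕ → Set Rule} {d₀ w : ℕ} {F : List (List (V × Bool))}
    (h : Data A Z k d e 𝓡 (Gam Q τ L)) (hA : 4 * k ^ d + w ≤ A)
    (hid : ∀ φ ∈ Gam Q τ L, castF K (e φ) * castF K (e φ) - castF K (e φ) ∈ Z)
    (hF : ∀ D ∈ F, ∃ E : List (V × Bool), (∀ l ∈ E, l ∈ D) ∧ E.length ≤ w ∧ fals K E ∈ Z)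
    (hL : MixedRefutes Q S d₀ F τ L)
    (hD : ∀ q ∈ Q, castF K (e (Dq τ L q)) ∈ Z) : (1 : Fun K V) ∈ Z := by
  classical
  have hk1 : 1 ≤ k ^ d := Nat.one_le_pow _ _ h.pos
  have hE : ∀ i, CountFree (L i) → τ i ∈ Q → castF K (e (Ev L i)) ∈ Z := by
    intro i hi hτ
    have h1 := hD _ hτ
    obtain ⟨t, ht⟩ := List.get_of_mem (mem_Dq.2 ⟨i, hi, rfl, rfl⟩ : Ev L i ∈ evs τ L (τ i))
    have h2 := h.disj_to (F := (evs τ L (τ i)).get) (Gam_Dq hτ) (by omega) t
    rw [ht] at h2
    have h3 : castF K (e (Ev L i)) = castF K (e (Ev L i)) * (1 - castF K (e (Dq τ L (τ i)))) +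
        castF K (e (Ev L i)) * castF K (e (Dq τ L (τ i))) := by ring
    rw [h3]
    exact Z.add_mem h2 (h.ab _ _ _ _ (h.mem (Gam_Ev hi)) (h.mem (Gam_Dq hτ)) h1 (by omega))
  have key : (∀ i, τ i ∈ Q) → ∀ n : ℕ, ∀ i : Fin l, (i : ℕ) = n → CountFree (L i) →
      1 - castF K (e (L i)) ∈ Z := by
    intro hτ n
    induction n using Nat.strong_induction_on with
    | _ n ih =>
      intro i hin hi
      obtain ⟨U, hU⟩ : ∃ U, U = 1 - castF K (e (L i)) := ⟨_, rfl⟩
      have hLi : L i ∈ Gam Q τ L := Gam_line hi (self_mem_parts _)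
      have hnL : Form.neg (L i) ∈ Gam Q τ L := Or.inl ⟨i, hi, Or.inr (Or.inl rfl)⟩
      have hUp : U ∈ Pol K V (k ^ d) := by
        rw [hU]
        exact Submodule.sub_mem _ (Frege.one_mem _) (h.mem hLi)
      have h1 : (1 - castF K (e (Ev L i))) * U ∈ Z := by
        refine h.conj_of (Gam_Ev hi) hUp (by omega) fun t => ?_
        have ht := List.get_mem (Form.neg (L i) :: before L i) t
        rcases List.mem_cons.1 ht with h2 | h2
        · rw [h2, h.good.neg _ hnL, map_sub, map_one, sub_sub_cancel, hU]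
          have h3 : castF K (e (L i)) * (1 - castF K (e (L i))) =
              -(castF K (e (L i)) * castF K (e (L i)) - castF K (e (L i))) := by ring
          rw [h3]
          exact Z.neg_mem (hid _ hLi)
        · obtain ⟨j, hj, hjc, h3⟩ := mem_before.1 h2
          rw [← h3, mul_comm]
          exact h.ab _ _ _ _ hUp (Submodule.sub_mem _ (Frege.one_mem _)
            (h.mem (Gam_line hjc (self_mem_parts _)))) (ih j (by rw [← hin]; exact hj) j rfl hjc)
            (by omega)
      have h2 : U = (1 - castF K (e (Ev L i))) * U + U * castF K (e (Ev L i)) := by ring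
      rw [← hU, h2]
      exact Z.add_mem h1 (h.ab _ _ _ _ hUp (h.mem (Gam_Ev hi)) (hE i hi (hτ i)) (by omega))
  rcases hL with ⟨hL, i, hi⟩ | ⟨hL, i, hi⟩
  · have hci : CountFree (L i) := by
      rw [hi]
      exact countFree_falsum
    have hiΓ : L i ∈ Gam Q τ L := Gam_line hci (self_mem_parts _)
    have h1 := key (fun j => (hL j).1) i i rfl hci
    rw [hi] at h1 hiΓ
    have h2 : castF K (e (falsum : Form V)) * 1 ∈ Z :=
      h.disj_of hiΓ (Frege.one_mem 0) (by omega) fun t => t.elim0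
    rw [mul_one] at h2
    have h3 := Z.add_mem h1 h2
    rwa [sub_add_cancel] at h3
  · have hci : CountFree (L i) := by
      rw [hi]
      exact countFree_cnf F
    have hiΓ : L i ∈ Gam Q τ L := Gam_line hci (self_mem_parts _)
    have h1 := key (fun j => (hL j).1) i i rfl hci
    rw [hi] at h1 hiΓ
    have hcΓ : cnf F ∈ Gam Q τ L :=
      h.parts _ hiΓ _ (Set.mem_insert_of_mem _ (self_mem_parts _))
    rw [h.good.neg _ hiΓ, map_sub, map_one, sub_sub_cancel] at h1
    have h2 : (1 - castF K (e (cnf F))) * 1 ∈ Z := by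
      refine h.conj_of hcΓ (Frege.one_mem 0) (by omega) fun t => ?_
      rw [mul_one]
      obtain ⟨D, hDF, hD'⟩ := List.mem_map.1 (List.get_mem (F.map clause) t)
      have h3 : clause D ∈ Gam Q τ L := by
        rw [hD']
        exact h.parts _ hcΓ _ (part_conj t (self_mem_parts _))
      rw [← hD']
      obtain ⟨E, hE1, hE2, hE3⟩ := hF D hDF
      exact clause_holds_sub h (by omega) h3 hE1 hE2 hE3
    rw [mul_one] at h2
    have h3 := Z.add_mem h2 h1
    rwa [sub_add_cancel] at h3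

end data

end Pool.Agent.MP_9cec2c_lc.MX
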