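import Pool.Agent.Lib.MP_9cec2c_lc.MXTag

/-!
Mixed derivations: the lower bound from families of flat worlds.
-/

set_option autoImplicit false
set_option linter.unusedSectionVars false

namespace Pool.Agent.MP_9cec2c_lc.MX

open Finset Frege FG

theorem exists_flat_step {g : ℕ → ℕ} {J : ℕ} {C : ℝ} (hC : 0 ≤ C) (hJ : 0 < J)
    (hg : ∀ j ≤ J, g 0 ≤ g j) (h : (g J : ℝ) ≤ C * g 0) :
    ∃ j < J, (g (j + 1) : ℝ) ≤ g j + C * g j / J := by
  by_contra hcon
  push Not at hcon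
  have hJ0 : (0 : ℝ) < J := by exact_mod_cast hJ
  have key : ∀ n ≤ J, (g 0 : ℝ) + n * (C * g 0 / J) ≤ g n := by
    intro n
    induction n with
    | zero =>
      intro _
      rw [Nat.cast_zero, zero_mul, add_zero]
    | succ n ih =>
      intro hn
      have h1 := ih (by omega)
      have h2 := hcon n (by omega)
      have h3 : (g 0 : ℝ) ≤ g n := by exact_mod_cast hg n (by omega)
      have h4 : C * g 0 / J ≤ C * g n / J :=
        div_le_div_of_nonneg_right (mul_le_mul_of_nonneg_left h3 hC) hJ0.le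
      push_cast
      linarith
  obtain ⟨n, hn⟩ : ∃ n, J = n + 1 := ⟨_, (Nat.succ_pred_eq_of_pos hJ).symm⟩
  have h1 := key n (by omega)
  have h2 := hcon n (by omega)
  have h3 : (g 0 : ℝ) ≤ g n := by exact_mod_cast hg n (by omega)
  have h4 : C * g 0 / J ≤ C * g n / J :=
    div_le_div_of_nonneg_right (mul_le_mul_of_nonneg_left h3 hC) hJ0.le
  rw [← hn] at h2
  have h5 : (g 0 : ℝ) + J * (C * g 0 / J) < g J := by
    have h6 : (J : ℝ) = n + 1 := by exact_mod_cast hn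
    have h7 : (J : ℝ) * (C * g 0 / J) = n * (C * g 0 / J) + C * g 0 / J := by
      nth_rewrite 1 [h6]
      ring
    rw [h7]
    linarith
  have h6 : (J : ℝ) * (C * g 0 / J) = C * g 0 := by
    field_simp
  rw [h6] at h5
  have h7 : (0 : ℝ) ≤ g 0 := Nat.cast_nonneg _
  linarith

/-- The errors are small. -/
theorem error_bound {R : ℕ} (hR : 1 ≤ R) {X : ℝ} (hX0 : 0 ≤ X) (hX : X ≤ 2 ^ R) {n : ℕ}
    (hn : (n : ℝ) ≤ 2 ^ R) :
    n * (X * (2 * (1 - 1 / (2 * (R + 1))) ^ (16 * R ^ 2) + 1 / 2 ^ (2 * R + 1))) ≤ 1 := by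
  have hR0 : (0 : ℝ) ≤ R := Nat.cast_nonneg R
  have hx0 : (0 : ℝ) ≤ 1 - 1 / (2 * (R + 1)) := by
    rw [sub_nonneg, div_le_one (by positivity)]
    linarith
  have hx1 : (1 : ℝ) - 1 / (2 * (R + 1)) ≤ 1 := by
    have : (0 : ℝ) ≤ 1 / (2 * (R + 1)) := by positivity
    linarith
  have h1 : ((1 : ℝ) - 1 / (2 * (R + 1))) ^ (2 * (R + 1)) ≤ 1 / 2 := by
    have h2 : (1 : ℝ) - 1 / (2 * (R + 1)) ≤ Real.exp (-(1 / (2 * (R + 1)))) := by
      have := Real.add_one_le_exp (-(1 / (2 * ((R : ℝ) + 1))))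
      linarith
    calc ((1 : ℝ) - 1 / (2 * (R + 1))) ^ (2 * (R + 1))
        ≤ Real.exp (-(1 / (2 * (R + 1)))) ^ (2 * (R + 1)) := pow_le_pow_left₀ hx0 h2 _
      _ = Real.exp (-1) := by
        rw [← Real.exp_nat_mul]
        congr 1
        push_cast
        field_simp
      _ ≤ 1 / 2 := by
        rw [Real.exp_neg, inv_eq_one_div]
        refine div_le_div_of_nonneg_left (by norm_num) (by norm_num) ?_
        have := Real.add_one_le_exp (1 : ℝ)
        linarith
  have h2 : ((1 : ℝ) - 1 / (2 * (R + 1))) ^ (16 * R ^ 2) ≤ 1 / 2 ^ (2 * R + 2) := by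
    calc ((1 : ℝ) - 1 / (2 * (R + 1))) ^ (16 * R ^ 2)
        ≤ ((1 : ℝ) - 1 / (2 * (R + 1))) ^ (2 * (R + 1) * (2 * R + 2)) := by
          refine pow_le_pow_of_le_one hx0 hx1 ?_
          nlinarith
      _ = (((1 : ℝ) - 1 / (2 * (R + 1))) ^ (2 * (R + 1))) ^ (2 * R + 2) := pow_mul _ _ _
      _ ≤ (1 / 2) ^ (2 * R + 2) := pow_le_pow_left₀ (pow_nonneg hx0 _) h1 _
      _ = 1 / 2 ^ (2 * R + 2) := by rw [one_div_pow]
  have h3 : (2 : ℝ) ^ (2 * R) = 2 ^ R * 2 ^ R := by
    rw [← pow_add]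
    congr 1
    ring
  have hp : (0 : ℝ) < 2 ^ R := by positivity
  have h4 : 2 * ((1 : ℝ) - 1 / (2 * (R + 1))) ^ (16 * R ^ 2) + 1 / 2 ^ (2 * R + 1) ≤
      1 / (2 ^ R * 2 ^ R) := by
    have e1 : (1 : ℝ) / 2 ^ (2 * R + 2) = 1 / (2 ^ R * 2 ^ R) / 4 := by
      rw [pow_add, h3]
      field_simp
      norm_num
    have e2 : (1 : ℝ) / 2 ^ (2 * R + 1) = 1 / (2 ^ R * 2 ^ R) / 2 := by
      rw [pow_add, h3]
      field_simp
    rw [e2]
    rw [e1] at h2
    linarith
  have h5 : X * (2 * ((1 : ℝ) - 1 / (2 * (R + 1))) ^ (16 * R ^ 2) + 1 / 2 ^ (2 * R + 1)) ≤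
      2 ^ R * (1 / (2 ^ R * 2 ^ R)) := mul_le_mul hX h4 (by positivity) hp.le
  calc n * (X * (2 * ((1 : ℝ) - 1 / (2 * (R + 1))) ^ (16 * R ^ 2) + 1 / 2 ^ (2 * R + 1)))
      ≤ 2 ^ R * (2 ^ R * (1 / (2 ^ R * 2 ^ R))) :=
        mul_le_mul hn h5 (mul_nonneg hX0 (by positivity)) hp.le
    _ = 1 := by field_simp

variable {V : Type} {ι : Type} [Fintype ι] {K W : ι → Type} [∀ i, Field (K i)]
  [∀ i, AddCommGroup (W i)] [∀ i, Module (K i) (W i)] [∀ i, FiniteDimensional (K i) (W i)]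
  {M : ∀ i, ℕ → Submodule (K i) (W i)} {act : ∀ i, Fun (K i) V →ₗ[K i] W i →ₗ[K i] W i} {A : ℕ}

/-- There are no short mixed refutations of clauses which hold in a family of flat worlds. -/
theorem mixed_core (hW : ∀ i, World (M i) (act i) A) (o : ι)
    (hdim : ∀ i, ∀ a ≤ A, Module.finrank (K i) (M i a) = Module.finrank (K o) (M o a))
    (hsemi : ∀ i, ∀ a ≤ A, ∀ P : Fun ℤ V,
      Module.finrank (K i) ((M i a).map (act i (castF (K i) P))) ≤
      Module.finrank (K o) ((M o a).map (act o (castF (K o) P))))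
    (hpos : 0 < Module.finrank (K o) (M o 0)) {C : ℝ} (hC : 1 ≤ C)
    (hgrow : (Module.finrank (K o) (M o A) : ℝ) ≤ C * Module.finrank (K o) (M o 0))
    {Q : Finset ℕ} (iq : ℕ → ι) {s : ℕ} (hs : 1 ≤ s)
    (hQ : ∀ q ∈ Q, ∃ _ : Fintype (K (iq q)), Fintype.card (K (iq q)) ≤ s ∧ CharP (K (iq q)) q)
    {F : List (List (V × Bool))} {w : ℕ}
    (hF : ∀ D ∈ F, ∃ E : List (V × Bool), (∀ l ∈ E, l ∈ D) ∧ E.length ≤ w ∧
      ∀ i, ∀ a, 2 * a ≤ A → ∀ f ∈ M i a, act i (fals (K i) E) f = 0)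
    {S : ℕ → Set Rule} {c : ℕ}
    (hS : ∀ q ∈ Q, ∀ R ∈ S q, R.Sound q ∧ R.cost + 5 ≤ c ∧ R.nodes.length ≤ c)
    {d l : ℕ} {τ : Fin l → ℕ} {L : Fin l → Form V} (hL : MixedRefutes Q S d F τ L)
    {J R : ℕ} (hJ : 8 * Q.card * C ≤ J) (hR1 : 1 ≤ R) {B : ℝ}
    (hB1 : 16 * Q.card * Fintype.card ι * C ≤ B) (hB2 : 128 * (c + 1) * Q.card * C ≤ B)
    (hB3 : (Q.card : ℝ) + 3 ≤ B) (hB : B * size L ≤ 2 ^ R)
    (hA : (2 * J + c + w + 20) * (3 * R * (2 * s)) ^ (2 * d + 6) ≤ A) : False := by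
  classical
  have hC0 : 0 ≤ C := by linarith
  -- the derivation has a line
  obtain ⟨Φ, hΦ, hLm⟩ : ∃ Φ : Set (Form V), (∀ φ ∈ Φ, ∃ D ∈ F, φ = clause D) ∧
      IsMixed Q S d Φ τ L := by
    rcases hL with ⟨h, -⟩ | ⟨h, -⟩
    · exact ⟨_, fun φ hφ => hφ, h⟩
    · exact ⟨∅, fun φ hφ => absurd hφ (Set.notMem_empty _), h⟩
  have hi0 : ∃ i : Fin l, True := by
    rcases hL with ⟨-, i, -⟩ | ⟨-, i, -⟩ <;> exact ⟨i, trivial⟩
  obtain ⟨i₀, -⟩ := hi0
  have hQpos : 0 < Q.card := card_pos.2 ⟨_, (hLm i₀).1⟩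
  have hQ1 : (1 : ℝ) ≤ Q.card := by exact_mod_cast hQpos
  have hd : ∀ j, (L j).depth ≤ d := fun j => (hLm j).2.1
  have hsz : 1 ≤ size L := by
    have h1 : 1 ≤ l := Nat.one_le_iff_ne_zero.2 (fun h => by subst h; exact i₀.elim0)
    unfold size
    omega
  have hsz1 : (1 : ℝ) ≤ size L := by exact_mod_cast hsz
  have hlsz : (l : ℝ) ≤ size L := by
    have : l ≤ size L := by
      unfold size
      omega
    exact_mod_cast this
  have hl0 : (0 : ℝ) ≤ l := Nat.cast_nonneg l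
  have hB0 : 0 ≤ B := by linarith
  have hBR : B ≤ 2 ^ R := by
    refine le_trans ?_ hB
    nlinarith
  -- the numbers
  obtain ⟨k, hk⟩ : ∃ k, k = 16 * R ^ 2 := ⟨_, rfl⟩
  obtain ⟨T, hT⟩ : ∃ T, T = k ^ (d + 2) := ⟨_, rfl⟩
  obtain ⟨X, hX⟩ : ∃ X, X = (3 * R * (2 * s)) ^ (2 * d + 6) := ⟨_, rfl⟩
  have hR2 : 1 ≤ R ^ 2 := Nat.one_le_pow _ _ hR1
  have hRR : R ≤ R ^ 2 := Nat.le_self_pow (by norm_num) R
  have hk16 : 16 ≤ k := by omega
  have hk1 : 1 ≤ k := by omega
  have hT1 : 1 ≤ T := by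
    rw [hT]
    exact Nat.one_le_pow _ _ hk1
  have hkT : k * T ≤ X := by
    have e1 : k * T = (4 * R) ^ (2 * d + 6) := by
      rw [hT, ← pow_succ', hk]
      have e2 : 16 * R ^ 2 = (4 * R) ^ 2 := by ring
      have e3 : 2 * (d + 2 + 1) = 2 * d + 6 := by ring
      rw [e2, ← pow_mul, e3]
    rw [e1, hX]
    exact Nat.pow_le_pow_left (by nlinarith) _
  have hTX : T ≤ X := le_trans (Nat.le_mul_of_pos_left T hk1) hkT
  have hX1 : 1 ≤ X := hT1.trans hTX
  have hdegX : ∀ {K' : Type} [Field K'] [Fintype K'], Fintype.card K' ≤ s →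
      (3 * (2 * R) * (Fintype.card K' - 1)) ^ (d + 3) ≤ X := by
    intro K' _ _ hK'
    rw [hX]
    have e1 : 3 * (2 * R) * (Fintype.card K' - 1) ≤ 3 * R * (2 * s) := by
      calc 3 * (2 * R) * (Fintype.card K' - 1) ≤ 3 * (2 * R) * s :=
            Nat.mul_le_mul_left _ (by omega)
        _ = 3 * R * (2 * s) := by ring
    exact (Nat.pow_le_pow_left e1 _).trans (Nat.pow_le_pow_right (by nlinarith) (by omega))
  rw [← hX] at hA
  have hAsum : (2 * J + c + w + 20) * X = 2 * (J * X) + (c * X + (w * X + 20 * X)) := by ring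
  have hwX : w ≤ w * X := Nat.le_mul_of_pos_right _ hX1
  have hJT : J * T ≤ J * X := Nat.mul_le_mul_left _ hTX
  have hJpos : 0 < J := by
    have h1 : (0 : ℝ) < J := by nlinarith
    exact_mod_cast h1
  -- the level
  obtain ⟨j, hj, hj2⟩ := exists_flat_step (g := fun j => Module.finrank (K o) (M o (j * T)))
    (J := J) hC0 hJpos
    (fun j hj => Submodule.finrank_mono ((hW o).mono (Nat.mul_le_mul_right _ (Nat.zero_le j)) (by
      have := Nat.mul_le_mul_right T hj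
      omega)))
    (by
      show (Module.finrank (K o) (M o (J * T)) : ℝ) ≤ C * Module.finrank (K o) (M o (0 * T))
      rw [zero_mul]
      refine le_trans ?_ hgrow
      exact_mod_cast Submodule.finrank_mono ((hW o).mono (by omega) le_rfl))
  obtain ⟨a₀, ha₀⟩ : ∃ a₀, a₀ = j * T := ⟨_, rfl⟩
  obtain ⟨D, hD⟩ : ∃ D : ℝ, D = Module.finrank (K o) (M o a₀) := ⟨_, rfl⟩
  have hjT : (j + 1) * T ≤ J * T := Nat.mul_le_mul_right _ hj
  have hjT2 : (j + 1) * T = a₀ + T := by rw [ha₀]; ring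
  have hD0 : (Module.finrank (K o) (M o 0) : ℝ) ≤ D := by
    rw [hD]
    exact_mod_cast Submodule.finrank_mono ((hW o).mono (Nat.zero_le _) (by omega))
  have hposR : (0 : ℝ) < Module.finrank (K o) (M o 0) := by exact_mod_cast hpos
  have hDpos : 0 < D := lt_of_lt_of_le hposR hD0
  have hstep : (Module.finrank (K o) (M o (a₀ + T)) : ℝ) ≤ D + D / (8 * Q.card) := by
    have h1 : (Module.finrank (K o) (M o ((j + 1) * T)) : ℝ) ≤
        Module.finrank (K o) (M o (j * T)) + C * Module.finrank (K o) (M o (j * T)) / J := hj2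
    rw [hjT2, ← ha₀, ← hD] at h1
    have hJ0 : (0 : ℝ) < J := by exact_mod_cast hJpos
    have h2 : C * D / J ≤ D / (8 * Q.card) := by
      rw [div_le_div_iff₀ hJ0 (by positivity)]
      nlinarith
    linarith
  -- the approximations
  obtain ⟨Γ, hΓ⟩ : ∃ Γ : Finset (Form V), Γ = (Gam_finite (Q := Q) (τ := τ) (L := L)).toFinset :=
    ⟨_, rfl⟩
  have hΓm : ∀ φ, φ ∈ Γ ↔ φ ∈ Gam Q τ L := by
    intro φ
    rw [hΓ, Set.Finite.mem_toFinset]
  have hΓc : (Γ : Set (Form V)) = Gam Q τ L := by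
    rw [hΓ, Set.Finite.coe_toFinset]
  have hΓcard : (Γ.card : ℝ) ≤ 2 ^ R := by
    have h1 : Γ.card ≤ 2 * size L + Q.card + 1 := by
      rw [hΓ, ← Set.ncard_eq_toFinset_card _ Gam_finite]
      exact Gam_ncard
    have h2 : (Γ.card : ℝ) ≤ 2 * size L + Q.card + 1 := by exact_mod_cast h1
    refine le_trans ?_ hB
    nlinarith
  obtain ⟨ε, hε⟩ : ∃ ε : ℝ, ε = Fintype.card ι * (Module.finrank (K o) (M o A) : ℝ) *
      (2 * (1 - 1 / (2 * (R + 1))) ^ k + 1 / 2 ^ (2 * R + 1)) := ⟨_, rfl⟩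
  obtain ⟨e, 𝓡, hG, hdeg, hRd, hfin⟩ := exists_exact (M := M) (act := act) hW (k := k)
    (d := d + 2) (m := 2 * R + 1) (R := R) (a₀ := a₀) hk1 (Nat.cast_nonneg _)
    (fun i a ha => by
      rw [hdim i a ha]
      exact_mod_cast Submodule.finrank_mono ((hW o).mono ha le_rfl))
    (by
      rw [← hT]
      have h1 : 2 * R + 1 + k + 8 ≤ 2 * k := by omega
      have h2 : (2 * R + 1 + k + 8) * T ≤ 2 * k * T := Nat.mul_le_mul_right _ h1
      have h3 : 2 * k * T = 2 * (k * T) := by ring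
      omega) hε Γ.card Γ rfl
    (fun φ hφ => Gam_countFree ((hΓm φ).1 hφ)) (fun φ hφ => Gam_depth hd ((hΓm φ).1 hφ))
    (fun φ hφ ψ hψ => (hΓm ψ).2 (Gam_parts ((hΓm φ).1 hφ) hψ)) (by exact_mod_cast hΓcard)
  rw [hΓc] at hG
  have hdeg' : ∀ φ ∈ Gam Q τ L, DegZ (k ^ φ.depth) (e φ) := fun φ hφ => hdeg φ ((hΓm φ).2 hφ)
  have herr : Γ.card * ε ≤ D / (16 * Q.card) := by
    have h1 : (Module.finrank (K o) (M o A) : ℝ) ≤ C * D :=
      hgrow.trans (mul_le_mul_of_nonneg_left hD0 hC0)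
    obtain ⟨y, hy⟩ : ∃ y : ℝ, y = 2 * (1 - 1 / (2 * ((R : ℝ) + 1))) ^ k + 1 / 2 ^ (2 * R + 1) :=
      ⟨_, rfl⟩
    have hy0 : 0 ≤ y := by
      rw [hy]
      have : (0 : ℝ) ≤ 1 - 1 / (2 * ((R : ℝ) + 1)) := by
        rw [sub_nonneg, div_le_one (by positivity)]
        have : (0 : ℝ) ≤ R := Nat.cast_nonneg R
        linarith
      positivity
    have h2 := error_bound hR1 (X := 16 * Q.card * Fintype.card ι * C)
      (by positivity) (hB1.trans hBR) hΓcard
    rw [← hk, ← hy] at h2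
    rw [hε, ← hy, le_div_iff₀ (by positivity)]
    calc Γ.card * (Fintype.card ι * (Module.finrank (K o) (M o A) : ℝ) * y) * (16 * Q.card)
        ≤ Γ.card * (Fintype.card ι * (C * D) * y) * (16 * Q.card) := by
          gcongr
      _ = Γ.card * (16 * Q.card * Fintype.card ι * C * y) * D := by ring
      _ ≤ 1 * D := mul_le_mul_of_nonneg_right h2 hDpos.le
      _ = D := one_mul D
  have hGdim : ∀ i, D - D / (16 * Q.card) ≤
      Module.finrank (K i) (GG (M i) (act i) 𝓡 a₀) := by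
    intro i
    have h1 := hfin i
    rw [hdim i a₀ (by omega), ← hD] at h1
    linarith
  -- the world of characteristic zero
  have hidem : ∀ (i : ι) (f : W i), f ∈ GG (M i) (act i) 𝓡 a₀ → ∀ φ ∈ Gam Q τ L,
      act i (castF (K i) (e φ) * castF (K i) (e φ)) f = act i (castF (K i) (e φ)) f := by
    intro i f hf φ hφ
    refine good_idem (hW i) hk1 hG hdeg' φ (Gam_countFree hφ) (fun ψ hψ => Gam_parts hφ hψ)
      (Gam_depth hd hφ) ?_ hf
    rw [← hT]
    omega
  have hcover : ∀ x ∈ GG (M o) (act o) 𝓡 a₀,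
      (∀ q ∈ Q, act o (castF (K o) (e (Dq τ L q))) x = 0) → x = 0 := by
    intro x hx hq
    have h1 := one_mem_of (data_of_mem (hW o) hk1 hG hdeg' hd (by omega) hx) (w := w)
      (F := F) (S := S) (d₀ := d) (by
        rw [← hT]
        omega) (fun φ hφ => by
          rw [LinearMap.mem_ker, LinearMap.flip_apply, map_sub, LinearMap.sub_apply,
            hidem o x hx φ hφ, sub_self])
      (fun C' hC' => by
        obtain ⟨E, hE1, hE2, hE3⟩ := hF C' hC'
        refine ⟨E, hE1, hE2, ?_⟩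
        rw [LinearMap.mem_ker, LinearMap.flip_apply]
        exact hE3 o a₀ (by omega) x (mem_GG.1 hx).1) hL
      (fun q hqQ => by
        rw [LinearMap.mem_ker, LinearMap.flip_apply]
        exact hq q hqQ)
    rw [LinearMap.mem_ker, LinearMap.flip_apply, (hW o).act_one a₀ x (by omega)
      (mem_GG.1 hx).1] at h1
    exact h1
  have hsum := finrank_le_sum Q (GG (M o) (act o) 𝓡 a₀)
    (fun q => act o (castF (K o) (e (Dq τ L q)))) hcover
  obtain ⟨q, hq, hq2⟩ : ∃ q ∈ Q, (Module.finrank (K o) (GG (M o) (act o) 𝓡 a₀) : ℝ) ≤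
      Q.card * Module.finrank (K o) ((GG (M o) (act o) 𝓡 a₀).map
        (act o (castF (K o) (e (Dq τ L q))))) := by
    by_contra hcon
    push Not at hcon
    have h1 : (Module.finrank (K o) (GG (M o) (act o) 𝓡 a₀) : ℝ) ≤
        ∑ q ∈ Q, (Module.finrank (K o) ((GG (M o) (act o) 𝓡 a₀).map
          (act o (castF (K o) (e (Dq τ L q))))) : ℝ) := by exact_mod_cast hsum
    have hQ0 : (0 : ℝ) < Q.card := by exact_mod_cast hQpos
    have h2 : ∑ q ∈ Q, (Module.finrank (K o) ((GG (M o) (act o) 𝓡 a₀).map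
          (act o (castF (K o) (e (Dq τ L q))))) : ℝ) <
        ∑ q ∈ Q, (Module.finrank (K o) (GG (M o) (act o) 𝓡 a₀) : ℝ) / Q.card := by
      refine sum_lt_sum_of_nonempty (card_pos.1 hQpos) fun q hq => ?_
      rw [lt_div_iff₀ hQ0, mul_comm]
      exact hcon q hq
    rw [sum_const, nsmul_eq_mul, mul_div_cancel₀ _ hQ0.ne'] at h2
    linarith
  -- the transfer
  obtain ⟨i, hi⟩ : ∃ i, i = iq q := ⟨_, rfl⟩
  have hDqp : castF (K o) (e (Dq τ L q)) ∈ Pol (K o) V T := by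
    rw [hT]
    exact Pol_mono (Nat.pow_le_pow_right hk1 (Gam_depth hd (Gam_Dq hq)))
      (hdeg' _ (Gam_Dq hq) (K o))
  have htrans := transfer (hW o) (hW i) (a₀ := a₀) (T := T) (by omega)
    (hsemi i a₀ (by omega)) (G := GG (M o) (act o) 𝓡 a₀) inf_le_left
    (G' := GG (M i) (act i) 𝓡 a₀) inf_le_left hDqp
    (fun f hf => hidem o f hf _ (Gam_Dq hq))
  have hrank : D / (4 * Q.card) ≤ Module.finrank (K i) ((GG (M i) (act i) 𝓡 a₀).map
      (act i (castF (K i) (e (Dq τ L q))))) := by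
    have h1 : (Module.finrank (K o) ((GG (M o) (act o) 𝓡 a₀).map
        (act o (castF (K o) (e (Dq τ L q))))) : ℝ) +
        Module.finrank (K i) (GG (M i) (act i) 𝓡 a₀) +
        Module.finrank (K o) (GG (M o) (act o) 𝓡 a₀) ≤
        Module.finrank (K i) ((GG (M i) (act i) 𝓡 a₀).map
          (act i (castF (K i) (e (Dq τ L q))))) + Module.finrank (K o) (M o (a₀ + T)) +
        Module.finrank (K o) (M o a₀) := by exact_mod_cast htrans
    rw [← hD] at h1
    have h2 := hGdim i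
    have h3 := hGdim o
    have hQ0 : (0 : ℝ) < Q.card := by exact_mod_cast hQpos
    have h4 : (D - D / (16 * Q.card)) / Q.card ≤ Module.finrank (K o)
        ((GG (M o) (act o) 𝓡 a₀).map (act o (castF (K o) (e (Dq τ L q))))) := by
      rw [div_le_iff₀ hQ0]
      have h5 := h3.trans hq2
      linarith
    obtain ⟨z, hz⟩ : ∃ z : ℝ, z = D / (16 * Q.card) := ⟨_, rfl⟩
    have e1 : D / Q.card = 16 * z := by
      rw [hz]
      field_simp
    have e2 : D / (8 * Q.card) = 2 * z := by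
      rw [hz]
      field_simp
      norm_num
    have e3 : D / (4 * Q.card) = 4 * z := by
      rw [hz]
      field_simp
      norm_num
    have hz0 : 0 ≤ z := by
      rw [hz]
      positivity
    have e4 : (D - z) / Q.card ≥ 15 * z := by
      have h5 : (D - z) / Q.card = D / Q.card - z / Q.card := sub_div _ _ _
      have h6 : z / Q.card ≤ z := div_le_self hz0 hQ1
      rw [h5, e1]
      linarith
    rw [← hz] at h2 h3 h4
    rw [e2] at hstep
    rw [e3]
    linarith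
  -- the line
  obtain ⟨Tg, hTg⟩ : ∃ Tg : Finset (Fin l), Tg = univ.filter fun t => CountFree (L t) ∧ τ t = q :=
    ⟨_, rfl⟩
  have hline := finrank_map_le_sum Tg (GG (M i) (act i) 𝓡 a₀)
    (act i (castF (K i) (e (Dq τ L q)))) (fun t => act i (castF (K i) (e (Ev L t)))) (by
      intro x hx h0
      have h1 := (data_of_mem (hW i) hk1 hG hdeg' hd (by omega) hx).disj_of
        (F := (evs τ L q).get) (Gam_Dq hq) (Frege.one_mem 0) (by
          rw [← hT]
          omega) (fun t => by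
          obtain ⟨t', h2, h3, h4⟩ := mem_Dq.1 (List.get_mem (evs τ L q) t)
          rw [← h4, mul_one, LinearMap.mem_ker, LinearMap.flip_apply]
          exact h0 t' (by
            rw [hTg, mem_filter]
            exact ⟨mem_univ _, h2, h3⟩))
      rw [mul_one, LinearMap.mem_ker, LinearMap.flip_apply] at h1
      exact h1)
  have hDQ : 0 < D / (4 * Q.card) := by positivity
  obtain ⟨t, ht, ht2⟩ : ∃ t ∈ Tg, D / (4 * Q.card) ≤ l *
      (Module.finrank (K i) ((GG (M i) (act i) 𝓡 a₀).map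
        (act i (castF (K i) (e (Ev L t))))) : ℝ) := by
    by_contra hcon
    push Not at hcon
    have h1 : D / (4 * Q.card) ≤ ∑ t ∈ Tg, (Module.finrank (K i)
        ((GG (M i) (act i) 𝓡 a₀).map (act i (castF (K i) (e (Ev L t))))) : ℝ) := by
      refine hrank.trans ?_
      exact_mod_cast hline
    rcases Nat.eq_zero_or_pos l with hl | hl
    · have h2 : Tg = ∅ := by
        rw [eq_empty_iff_forall_notMem]
        intro t _
        have := t.2
        omega
      rw [h2, sum_empty] at h1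
      linarith
    have hl1 : (0 : ℝ) < l := by exact_mod_cast hl
    rcases Tg.eq_empty_or_nonempty with h2 | h2
    · rw [h2, sum_empty] at h1
      linarith
    · have h3 : ∑ t ∈ Tg, (Module.finrank (K i)
          ((GG (M i) (act i) 𝓡 a₀).map (act i (castF (K i) (e (Ev L t))))) : ℝ) <
          ∑ t ∈ Tg, D / (4 * Q.card) / l := by
        refine sum_lt_sum_of_nonempty h2 fun t ht => ?_
        rw [lt_div_iff₀ hl1, mul_comm]
        exact hcon t ht
      rw [sum_const, nsmul_eq_mul] at h3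
      have h4 : (Tg.card : ℝ) ≤ l := by
        have := card_le_univ Tg
        rw [Fintype.card_fin] at this
        exact_mod_cast this
      have h5 : (Tg.card : ℝ) * (D / (4 * Q.card) / l) ≤ l * (D / (4 * Q.card) / l) :=
        mul_le_mul_of_nonneg_right h4 (by positivity)
      rw [mul_div_cancel₀ _ hl1.ne'] at h5
      linarith
  rw [hTg, mem_filter] at ht
  obtain ⟨-, htc, htq⟩ := ht
  have hrpos : 0 < Module.finrank (K i) ((GG (M i) (act i) 𝓡 a₀).map
      (act i (castF (K i) (e (Ev L t))))) := by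
    rcases Nat.eq_zero_or_pos (Module.finrank (K i) ((GG (M i) (act i) 𝓡 a₀).map
      (act i (castF (K i) (e (Ev L t)))))) with h | h
    · rw [h, Nat.cast_zero, mul_zero] at ht2
      linarith
    · exact h
  obtain ⟨instF, hcard, hchar⟩ : ∃ _ : Fintype (K i), Fintype.card (K i) ≤ s ∧ CharP (K i) q := by
    rw [hi]
    exact hQ q hq
  have hX3 := hdegX hcard
  obtain ⟨r, hr⟩ : ∃ r : ℝ, r = Module.finrank (K i) ((GG (M i) (act i) 𝓡 a₀).map
      (act i (castF (K i) (e (Ev L t))))) := ⟨_, rfl⟩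
  rw [← hr] at ht2
  refine tag_contra (p := q) (d := d) (R := 2 * R) (c := c) (k := k) (w := w) (a₀ := a₀)
    (A' := (c + 12) * X) (hW i) hk1 hG hdeg' hRd hΦ
    (fun C' hC' => by
      obtain ⟨E, hE1, hE2, hE3⟩ := hF C' hC'
      exact ⟨E, hE1, hE2, fun f hf => hE3 i a₀ (by omega) f hf⟩) hLm
    (hS q hq) htc htq (C := 4 * Q.card * l * C) (by positivity) hrpos ?_ ?_ (by omega) ?_ ?_ ?_
  · rw [← hr, hdim i A le_rfl]
    have hQ0 : (0 : ℝ) < Q.card := by exact_mod_cast hQpos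
    rw [div_le_iff₀ (by positivity)] at ht2
    calc (Module.finrank (K o) (M o A) : ℝ) ≤ C * Module.finrank (K o) (M o 0) := hgrow
      _ ≤ C * D := mul_le_mul_of_nonneg_left hD0 hC0
      _ ≤ C * (l * r * (4 * Q.card)) := mul_le_mul_of_nonneg_left ht2 hC0
      _ = 4 * Q.card * l * C * r := by ring
  · have h1 : (2 : ℝ) ^ (2 * R) = 2 ^ R * 2 ^ R := by
      rw [← pow_add]
      congr 1
      ring
    have h2 : (B * size L) * (B * size L) ≤ 2 ^ R * 2 ^ R :=
      mul_le_mul hB hB (by positivity) (by positivity)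
    have hc0 : (0 : ℝ) ≤ c := Nat.cast_nonneg c
    have h3 : (l : ℝ) * (size L + 1) ≤ 2 * (size L * size L) := by
      calc (l : ℝ) * (size L + 1) ≤ size L * (size L + 1) :=
            mul_le_mul_of_nonneg_right hlsz (by positivity)
        _ ≤ 2 * (size L * size L) := by nlinarith
    have hBB : B ≤ B * B := by nlinarith
    rw [h1]
    push_cast
    calc 16 * ((c : ℝ) + 1) * (4 * Q.card * l * C) * (size L + 1)
        = 64 * (c + 1) * Q.card * C * (l * (size L + 1)) := by ring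
      _ ≤ 64 * (c + 1) * Q.card * C * (2 * (size L * size L)) :=
          mul_le_mul_of_nonneg_left h3 (by positivity)
      _ = 128 * (c + 1) * Q.card * C * (size L * size L) := by ring
      _ ≤ B * (size L * size L) := mul_le_mul_of_nonneg_right hB2 (by positivity)
      _ ≤ B * B * (size L * size L) := mul_le_mul_of_nonneg_right hBB (by positivity)
      _ = (B * size L) * (B * size L) := by ring
      _ ≤ 2 ^ R * 2 ^ R := h2
  · exact Nat.mul_le_mul (by omega) hX3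
  · rw [← hT]
    have h1 : FG.deg (K i) (3 * (2 * R)) (d + 3) ≤ X := hX3
    have h2 : 12 * X ≤ (c + 12) * X := Nat.mul_le_mul_right _ (by omega)
    omega
  · rw [← hT]
    have h1 : (c + 12) * X = c * X + 12 * X := by ring
    omega

end Pool.Agent.MP_9cec2c_lc.MX
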