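import Pool.Agent.Lib.MP_9cec2c_lc.TUFin
import Pool.Agent.Lib.MP_9cec2c_lc.MXAllDefs

/-!
Derivations with side formulas.
-/

set_option autoImplicit false
set_option linter.unusedSectionVars false

namespace Pool.Agent.MP_9cec2c_lc.MX

open FG CE TU

variable {V : Type}

/-! ### The rules -/

/-- The list metavariables are renamed. -/
def shiftS : Scheme → Scheme
  | .form i => .form i
  | .list i => .list (i + 1)
  | .neg P => .neg (shiftS P)
  | .conj m P => .conj m fun i => shiftS (P i)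
  | .disj m P => .disj m fun i => shiftS (P i)
  | .count r m P => .count r m fun i => shiftS (P i)

/-- The scheme with side formulas. -/
def sideS (P : Scheme) : Scheme := orS [shiftS P, g 0]

/-- The rule with side formulas. -/
def sideR (R : Rule) : Rule := ⟨R.premises.map sideS, sideS R.conclusion⟩

/-- Every instance of the scheme is one formula. -/
def One : Scheme → Prop
  | .list _ => False
  | .neg P => One P
  | _ => True

theorem shift_inst (σ : ℕ → Form V) (τ : ℕ → List (Form V)) (P : Scheme) :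
    (shiftS P).inst σ τ = P.inst σ fun i => τ (i + 1) := by
  induction P with
  | form i => rfl
  | list i => rfl
  | neg P ih => simp only [shiftS, Scheme.inst, ih]
  | conj m P ih => simp only [shiftS, Scheme.inst, ih]
  | disj m P ih => simp only [shiftS, Scheme.inst, ih]
  | count r m P ih => simp only [shiftS, Scheme.inst, ih]

theorem side_inst (σ : ℕ → Form V) (τ : ℕ → List (Form V)) (P : Scheme) :
    (sideS P).inst σ τ = [disjL ((P.inst σ fun i => τ (i + 1)) ++ τ 0)] := by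
  unfold sideS
  rw [inst_orS, List.flatMap_cons, List.flatMap_cons, List.flatMap_nil, shift_inst, i_list,
    List.append_nil]

theorem one_inst {P : Scheme} (h : One P) (σ : ℕ → Form V) (τ : ℕ → List (Form V)) :
    ∃ φ, P.inst σ τ = [φ] := by
  induction P with
  | form i => exact ⟨_, rfl⟩
  | list i => exact h.elim
  | neg P ih =>
    obtain ⟨φ, hφ⟩ := ih h
    exact ⟨.neg φ, by rw [i_neg, hφ]; rfl⟩
  | conj m P ih => exact ⟨_, rfl⟩
  | disj m P ih => exact ⟨_, rfl⟩
  | count r m P ih => exact ⟨_, rfl⟩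

/-- The premises and the conclusion of the rule are single formulas. -/
def OneR (R : Rule) : Prop := (∀ P ∈ R.premises, One P) ∧ One R.conclusion

theorem sideR_sound {p : ℕ} {R : Rule} (hR : R.Sound p) (h1 : OneR R) : (sideR R).Sound p := by
  intro V σ τ x h φ hφ
  have hφ' : φ ∈ (sideS R.conclusion).inst σ τ := hφ
  rw [side_inst, List.mem_singleton] at hφ'
  rw [hφ', eval_disjL]
  by_cases h2 : ∃ ψ ∈ τ 0, ψ.eval p x
  · obtain ⟨ψ, hψ, h3⟩ := h2
    exact ⟨ψ, List.mem_append_right _ hψ, h3⟩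
  · obtain ⟨ψ, hψ⟩ := one_inst h1.2 σ fun i => τ (i + 1)
    refine ⟨ψ, List.mem_append_left _ (by rw [hψ]; exact List.mem_singleton_self ψ), ?_⟩
    refine hR V σ (fun i => τ (i + 1)) x (fun P hP χ hχ => ?_) ψ
      (by rw [hψ]; exact List.mem_singleton_self ψ)
    have h3 := h (sideS P) (List.mem_map.2 ⟨P, hP, rfl⟩) _ (by
      rw [side_inst]
      exact List.mem_singleton_self _)
    rw [eval_disjL] at h3
    obtain ⟨χ', h4, h5⟩ := h3
    rcases List.mem_append.1 h4 with h4 | h4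
    · obtain ⟨χ'', h6⟩ := one_inst (h1.1 P hP) σ fun i => τ (i + 1)
      rw [h6, List.mem_singleton] at h4 hχ
      rw [hχ, ← h4]
      exact h5
    · exact absurd ⟨χ', h4, h5⟩ h2

theorem one_orS (L : List Scheme) : One (orS L) := trivial

theorem one_andS (L : List Scheme) : One (andS L) := trivial

theorem one_modS (c : ℕ) (L : List Scheme) : One (modS c L) := trivial

theorem ce_one (p : ℕ) : ∀ R ∈ insert kN (ceRules p), OneR R := by
  have h0 : ∀ {C : Scheme}, One C → OneR ⟨[], C⟩ := fun h =>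
    ⟨fun P hP => absurd hP List.not_mem_nil, h⟩
  have h1 : ∀ {P C : Scheme}, One P → One C → OneR ⟨[P], C⟩ := fun h h' =>
    ⟨fun P hP => by rw [List.mem_singleton.1 hP]; exact h, h'⟩
  have h2 : ∀ {P Q C : Scheme}, One P → One Q → One C → OneR ⟨[P, Q], C⟩ := by
    intro P Q C h h' h''
    refine ⟨fun P' hP => ?_, h''⟩
    have hP' : P' = P ∨ P' = Q := by simpa using hP
    rcases hP' with rfl | rfl
    · exact h
    · exact h'
  rintro R (rfl | hR | ⟨c, hc, h | h | h | ⟨hc0, h⟩⟩)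
  · exact h0 trivial
  · have hR' : R ∈ [kW, kEl, kEm, kSw, kP, kC0, kC1, kA, kB, kWm, kPr, kX0, kX1, kX2, kOne, kTop,
      kS0] := hR
    simp only [List.mem_cons, List.not_mem_nil, or_false] at hR'
    rcases hR' with rfl | rfl | rfl | rfl | rfl | rfl | rfl | rfl | rfl | rfl | rfl | rfl | rfl |
      rfl | rfl | rfl | rfl
    all_goals first
      | exact h0 trivial
      | exact h1 trivial trivial
      | exact h2 trivial trivial trivial
  · subst h
    exact h2 trivial trivial trivial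
  · subst h
    exact h1 trivial trivial
  · subst h
    exact h1 trivial trivial
  · subst h
    exact h1 trivial trivial

/-- A part of a disjunction as one formula. -/
def kJ : Rule := ⟨[orS [g 0, g 1]], orS [orS [g 0], g 1]⟩

/-- The constant false is removed. -/
def kF : Rule := ⟨[orS [orS [], g 0]], orS [g 0]⟩

/-- A formula which occurs twice is removed. -/
def kD : Rule := ⟨[orS [f 0, g 0, f 0, g 1]], orS [g 0, f 0, g 1]⟩

theorem kJ_sound (p : ℕ) : kJ.Sound p := by
  refine snd1 fun V σ τ x h => ?_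
  simp only [inst_orS, List.flatMap_cons, List.flatMap_nil, i_list, List.mem_singleton,
    forall_eq, List.append_nil] at h ⊢
  rw [eval_disjL] at h ⊢
  obtain ⟨φ, h1, h2⟩ := h
  rcases List.mem_append.1 h1 with h1 | h1
  · exact ⟨disjL (τ 0), by simp, (eval_disjL x _).2 ⟨φ, h1, h2⟩⟩
  · exact ⟨φ, List.mem_append_right _ h1, h2⟩

theorem kF_sound (p : ℕ) : kF.Sound p := by
  refine snd1 fun V σ τ x h => ?_
  simp only [inst_orS, List.flatMap_cons, List.flatMap_nil, i_list, List.mem_singleton,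
    forall_eq, List.append_nil] at h ⊢
  rw [eval_disjL] at h ⊢
  obtain ⟨φ, h1, h2⟩ := h
  rcases List.mem_append.1 h1 with h1 | h1
  · rw [List.mem_singleton.1 h1, eval_disjL] at h2
    obtain ⟨ψ, hψ, -⟩ := h2
    exact absurd hψ List.not_mem_nil
  · exact ⟨φ, h1, h2⟩

theorem kD_sound (p : ℕ) : kD.Sound p := by
  refine snd1 fun V σ τ x h => ?_
  simp only [inst_orS, List.flatMap_cons, List.flatMap_nil, i_list, i_form, List.mem_singleton,
    forall_eq, List.append_nil] at h ⊢
  rw [eval_disjL] at h ⊢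
  obtain ⟨φ, h1, h2⟩ := h
  refine ⟨φ, ?_, h2⟩
  simp only [List.mem_append, List.mem_singleton] at h1 ⊢
  tauto

/-- The rules with side formulas. -/
def sideRules (p : ℕ) : Set Rule := sideR '' insert kN (ceRules p) ∪ {kJ, kF, kD, kW}

theorem sideRules_finite (p : ℕ) : (sideRules p).Finite :=
  (((ceRules_finite p).insert _).image _).union (by simp)

theorem sideRules_sound (p : ℕ) : ∀ R ∈ sideRules p, R.Sound p := by
  rintro R (⟨R, hR, rfl⟩ | rfl | rfl | rfl | rfl)
  · refine sideR_sound ?_ (ce_one p R hR)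
    rcases hR with rfl | hR
    · exact kN_sound p
    · exact ceRules_sound p R hR
  · exact kJ_sound p
  · exact kF_sound p
  · exact kD_sound p
  · exact ceRules_sound p _ (Or.inl (by simp))

/-! ### Derivations with side formulas -/

/-- A new value of the first list metavariable. -/
def consT (Γ : List (Form V)) (τ : ℕ → List (Form V)) : ℕ → List (Form V)
  | 0 => Γ
  | i + 1 => τ i

theorem lin_rules {S S' : Set Rule} {d : ℕ} {Φ : Set (Form V)} {Ls : List (Form V)}
    (h : Lin S d Φ Ls) (hS : S ⊆ S') : Lin S' d Φ Ls := by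
  induction h with
  | nil => exact Lin.nil
  | cons φ Ls h hd hr ih =>
    exact Lin.cons φ Ls ih hd (hr.imp id fun ⟨R, hR, h'⟩ => ⟨R, hS hR, h'⟩)

theorem side_lin {S : Set Rule} {d : ℕ} {Ψ : Set (Form V)} {Ls Γ : List (Form V)}
    (h : Lin S d Ψ Ls) (hS : ∀ R ∈ S, OneR R) (hΓ : ∀ γ ∈ Γ, γ.depth ≤ d) :
    Lin (sideR '' S) (d + 1) {φ | ∃ ψ ∈ Ψ, φ = disjL (ψ :: Γ)}
      (Ls.map fun φ => disjL (φ :: Γ)) := by
  induction h with
  | nil => exact Lin.nil
  | cons φ Ls h hd hr ih =>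
    rw [List.map_cons]
    refine Lin.cons _ _ ih (dp_disj fun χ hχ => ?_) ?_
    · rcases List.mem_cons.1 hχ with rfl | hχ
      · exact hd
      · exact hΓ χ hχ
    · rcases hr with hr | ⟨R, hR, σ, τ, h1, h2⟩
      · exact Or.inl ⟨φ, hr, rfl⟩
      · refine Or.inr ⟨sideR R, ⟨R, hR, rfl⟩, σ, consT Γ τ, ?_, ?_⟩
        · intro P' hP' χ hχ
          obtain ⟨P, hP, rfl⟩ := List.mem_map.1 hP'
          rw [side_inst, List.mem_singleton] at hχ
          have h3 : (P.inst σ fun i => consT Γ τ (i + 1)) = P.inst σ τ := rfl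
          obtain ⟨ψ, hψ⟩ := one_inst ((hS R hR).1 P hP) σ τ
          rw [h3, hψ] at hχ
          rw [hχ]
          exact List.mem_map.2 ⟨ψ, h1 P hP ψ (by rw [hψ]; exact List.mem_singleton_self ψ), rfl⟩
        · show (sideS R.conclusion).inst σ (consT Γ τ) = _
          rw [side_inst]
          have h3 : (R.conclusion.inst σ fun i => consT Γ τ (i + 1)) = R.conclusion.inst σ τ := rfl
          rw [h3, h2]
          rfl

theorem falsum_eq : (falsum : Form V) = disjL [] := by
  unfold falsum disjL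
  congr 1
  funext i
  exact i.elim0

/-- A refutation becomes a derivation of the side formulas. -/
theorem lin_step {S : Set Rule} {d W : ℕ} {As : List (List (Form V))} {Ls Γ : List (Form V)}
    (h : Lin S d {φ | ∃ Λ ∈ As, φ = disjL Λ} Ls) (hf : falsum ∈ Ls) (hS : ∀ R ∈ S, OneR R)
    (hd : 1 ≤ d) (hΓ : ∀ γ ∈ Γ, γ.depth ≤ 0) (hAs : ∀ Λ ∈ As, ∀ γ ∈ Λ, γ.depth ≤ 0)
    (hW : ∀ φ ∈ Ls, wt φ + wtL Γ + 1 ≤ W) (hW' : ∀ Λ ∈ As, wtL Λ + wtL Γ + 2 ≤ W) :
    ∃ Ls', Lin (sideR '' S ∪ {kJ, kF, kD, kW}) (d + 1) {φ | ∃ Λ ∈ As, φ = disjL (Λ ++ Γ)} Ls' ∧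
      disjL Γ ∈ Ls' ∧ Ls'.length ≤ Ls.length + 2 * As.length + 1 ∧ ∀ φ ∈ Ls', wt φ ≤ W := by
  have hB : ∀ Bs : List (List (Form V)), (∀ Λ ∈ Bs, Λ ∈ As) →
      ∃ B, Lin (sideR '' S ∪ {kJ, kF, kD, kW}) (d + 1) {φ | ∃ Λ ∈ As, φ = disjL (Λ ++ Γ)} B ∧
        (∀ Λ ∈ Bs, disjL (disjL Λ :: Γ) ∈ B) ∧ B.length ≤ 2 * Bs.length ∧ ∀ φ ∈ B, wt φ ≤ W := by
    intro Bs
    induction Bs with
    | nil =>
      exact fun _ => ⟨[], Lin.nil, fun Λ hΛ => absurd hΛ List.not_mem_nil, le_rfl,
        fun φ hφ => absurd hφ List.not_mem_nil⟩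
    | cons Λ Bs ih =>
      intro hBs
      obtain ⟨B, b1, b2, b3, b4⟩ := ih fun Λ' h' => hBs Λ' (List.mem_cons_of_mem _ h')
      have hΛ := hBs Λ List.mem_cons_self
      refine ⟨disjL (disjL Λ :: Γ) :: disjL (Λ ++ Γ) :: B, ?_, ?_, ?_, ?_⟩
      · refine Lin.cons _ _ (Lin.cons _ _ b1 ?_ (Or.inl ⟨Λ, hΛ, rfl⟩)) ?_ (Or.inr ⟨kJ, Or.inr
          (by simp), fun _ => falsum, tg Λ Γ [] [], ?_, ?_⟩)
        · refine (dp_disj (e := 0) fun χ hχ => ?_).trans (by omega)
          rcases List.mem_append.1 hχ with hχ | hχ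
          · exact hAs Λ hΛ χ hχ
          · exact hΓ χ hχ
        · refine dp_disj fun χ hχ => ?_
          rcases List.mem_cons.1 hχ with rfl | hχ
          · exact (dp_disj (e := 0) (hAs Λ hΛ)).trans hd
          · exact (hΓ χ hχ).trans (Nat.zero_le d)
        · intro P hP χ hχ
          have hP' : P = orS [g 0, g 1] := by
            simpa [kJ] using hP
          rw [hP'] at hχ
          simp only [inst_orS, List.flatMap_cons, List.flatMap_nil, i_list, tg,
            List.mem_singleton, List.append_nil] at hχ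
          rw [hχ]
          simp
        · show (orS [orS [g 0], g 1]).inst _ _ = _
          simp [inst_orS, i_list, tg]
      · intro Λ' h'
        rcases List.mem_cons.1 h' with rfl | h'
        · exact List.mem_cons_self
        · exact List.mem_cons_of_mem _ (List.mem_cons_of_mem _ (b2 Λ' h'))
      · simp only [List.length_cons]
        omega
      · intro φ hφ
        have h4 := hW' Λ hΛ
        rcases List.mem_cons.1 hφ with rfl | hφ
        · rw [wt_disjL, wtL_cons, wt_disjL]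
          omega
        · rcases List.mem_cons.1 hφ with rfl | hφ
          · rw [wt_disjL, wtL_append]
            omega
          · exact b4 φ hφ
  obtain ⟨B, b1, b2, b3, b4⟩ := hB As fun Λ hΛ => hΛ
  have hA : Lin (sideR '' S ∪ {kJ, kF, kD, kW}) (d + 1)
      {φ | ∃ ψ ∈ {φ | ∃ Λ ∈ As, φ = disjL Λ}, φ = disjL (ψ :: Γ)}
      (Ls.map fun φ => disjL (φ :: Γ)) :=
    lin_rules (side_lin h hS fun γ hγ => (hΓ γ hγ).trans (Nat.zero_le d)) Set.subset_union_left
  obtain ⟨C, c1, c2, c3, c4⟩ := Lin_cut hA b1 (by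
    rintro φ - ⟨ψ, ⟨Λ, hΛ, rfl⟩, rfl⟩
    exact b2 Λ hΛ)
  have h2 : disjL (disjL [] :: Γ) ∈ C := by
    refine c2 _ (List.mem_map.2 ⟨falsum, hf, ?_⟩)
    rw [falsum_eq]
  have hW0 : wtL Γ + 1 ≤ W := by
    have := hW _ hf
    omega
  refine ⟨disjL Γ :: C, Lin.cons _ _ c1 ?_ (Or.inr ⟨kF, Or.inr (by simp), fun _ => falsum,
    tg Γ [] [] [], ?_, ?_⟩), List.mem_cons_self, ?_, ?_⟩
  · exact (dp_disj (e := 0) hΓ).trans (by omega)
  · intro P hP χ hχ
    have hP' : P = orS [orS [], g 0] := by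
      simpa [kF] using hP
    rw [hP'] at hχ
    simp only [inst_orS, List.flatMap_cons, List.flatMap_nil, i_list, tg,
      List.mem_singleton, List.append_nil] at hχ
    rw [hχ]
    simpa using h2
  · show (orS [g 0]).inst _ _ = _
    simp [inst_orS, i_list, tg]
  · rw [List.length_map] at c3
    rw [List.length_cons]
    omega
  · intro φ hφ
    rcases List.mem_cons.1 hφ with rfl | hφ
    · rw [wt_disjL]
      exact hW0
    · rcases c4 φ hφ with h3 | h3
      · obtain ⟨ψ, hψ, rfl⟩ := List.mem_map.1 h3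
        rw [wt_disjL, wtL_cons]
        have := hW ψ hψ
        omega
      · exact b4 φ h3

/-- A disjunction with more members or members in a different order. -/
theorem conv {S : Set Rule} (hD : kD ∈ S) {d : ℕ} {Φ : Set (Form V)} {Λ' : List (Form V)}
    (hd : ∀ φ ∈ Λ', φ.depth + 1 ≤ d) : ∀ (Λ Ls : List (Form V)), (∀ φ ∈ Λ, φ ∈ Λ') →
    Lin S d Φ Ls → disjL (Λ ++ Λ') ∈ Ls →
    ∃ Ls', Lin S d Φ Ls' ∧ disjL Λ' ∈ Ls' ∧ Ls'.length ≤ Ls.length + Λ.length ∧
      ∀ ψ ∈ Ls', ψ ∈ Ls ∨ wt ψ ≤ wtL Λ + wtL Λ' + 1 := by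
  classical
  intro Λ
  induction Λ with
  | nil =>
    intro Ls _ h h'
    exact ⟨Ls, h, h', by simp, fun ψ hψ => Or.inl hψ⟩
  | cons φ Λ ih =>
    intro Ls hΛ h h'
    obtain ⟨G, H, hG⟩ := List.append_of_mem (hΛ φ List.mem_cons_self)
    have hΛ' : ∀ ψ ∈ Λ, ψ ∈ Λ' := fun ψ hψ => hΛ ψ (List.mem_cons_of_mem _ hψ)
    have h1 : Lin S d Φ (disjL (Λ ++ Λ') :: Ls) := by
      refine Lin.cons _ _ h ?_ (Or.inr ⟨kD, hD, fun _ => φ, tg (Λ ++ G) H [] [], ?_, ?_⟩)
      · rw [depth_disjL_le]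
        intro ψ hψ
        have h2 : ψ ∈ Λ' := (List.mem_append.1 hψ).elim (hΛ' ψ) id
        have h3 := hd ψ h2
        split_ifs <;> omega
      · intro P hP χ hχ
        have hP' : P = orS [f 0, g 0, f 0, g 1] := by
          simpa [kD] using hP
        rw [hP'] at hχ
        simp only [inst_orS, List.flatMap_cons, List.flatMap_nil, i_list, i_form, tg,
          List.mem_singleton, List.append_nil] at hχ
        have h4 : χ = disjL (φ :: Λ ++ Λ') := by
          rw [hχ, hG]
          simp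
        rw [h4]
        exact h'
      · show (orS [g 0, f 0, g 1]).inst _ _ = _
        rw [hG]
        simp [inst_orS, i_list, i_form, tg]
    obtain ⟨Ls', g1, g2, g3, g4⟩ := ih _ hΛ' h1 List.mem_cons_self
    refine ⟨Ls', g1, g2, ?_, fun ψ hψ => ?_⟩
    · rw [List.length_cons] at g3 ⊢
      omega
    · rw [wtL_cons]
      rcases g4 ψ hψ with h5 | h5
      · rcases List.mem_cons.1 h5 with rfl | h5
        · right
          rw [wt_disjL, wtL_append]
          omega
        · exact Or.inl h5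
      · right
        omega

/-- A disjunction with the same members. -/
theorem conv_ax {S : Set Rule} (hD : kD ∈ S) (hW : kW ∈ S) {d : ℕ} {Φ : Set (Form V)}
    {Λ Λ' : List (Form V)} (hd : ∀ φ ∈ Λ', φ.depth + 1 ≤ d) (hΛ : ∀ φ ∈ Λ, φ ∈ Λ')
    (hax : disjL Λ ∈ Φ) :
    ∃ Ls', Lin S d Φ Ls' ∧ disjL Λ' ∈ Ls' ∧ Ls'.length ≤ Λ.length + 2 ∧
      ∀ ψ ∈ Ls', wt ψ ≤ wtL Λ + wtL Λ' + 1 := by
  classical
  have h1 : Lin S d Φ [disjL (Λ ++ Λ'), disjL Λ] := by
    refine Lin.cons _ _ (Lin.cons _ _ Lin.nil ?_ (Or.inl hax)) ?_ (Or.inr ⟨kW, hW,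
      fun _ => falsum, tg Λ Λ' [] [], ?_, ?_⟩)
    · rw [depth_disjL_le]
      intro ψ hψ
      have h3 := hd ψ (hΛ ψ hψ)
      split_ifs <;> omega
    · rw [depth_disjL_le]
      intro ψ hψ
      have h3 := hd ψ ((List.mem_append.1 hψ).elim (hΛ ψ) id)
      split_ifs <;> omega
    · intro P hP χ hχ
      have hP' : P = orS [g 0] := by
        simpa [kW] using hP
      rw [hP'] at hχ
      simp only [inst_orS, List.flatMap_cons, List.flatMap_nil, i_list, tg,
        List.mem_singleton, List.append_nil] at hχ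
      rw [hχ]
      simp
    · show (orS [g 0, g 1]).inst _ _ = _
      simp [inst_orS, i_list, tg]
  obtain ⟨Ls', g1, g2, g3, g4⟩ := conv hD hd Λ _ hΛ h1 List.mem_cons_self
  refine ⟨Ls', g1, g2, ?_, fun ψ hψ => ?_⟩
  · simp only [List.length_cons, List.length_nil] at g3
    omega
  · rcases g4 ψ hψ with h5 | h5
    · simp only [List.mem_cons, List.not_mem_nil, or_false] at h5
      rcases h5 with rfl | rfl
      · rw [wt_disjL, wtL_append]
      · rw [wt_disjL]
        omega
    · exact h5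

end Pool.Agent.MP_9cec2c_lc.MX
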