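import Pool.Agent.Lib.MP_9cec2c_lc.MXLines
import Pool.Agent.Lib.MP_9cec2c_lc.MXHolds

/-!
In a world over a finite field of characteristic `p`, the first error among the lines without
counting gates is almost never a line with tag `p`.
-/

set_option autoImplicit false
set_option linter.unusedSectionVars false

namespace Pool.Agent.MP_9cec2c_lc.MX

open Finset Frege FG

variable {K V W : Type} [Field K] [AddCommGroup W] [Module K W] [FiniteDimensional K W]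
  {M : ℕ → Submodule K W} {act : Fun K V →ₗ[K] W →ₗ[K] W} {A : ℕ}

/-- The data of a vector without errors. -/
theorem data_of_mem (hW : World M act A) {k d : ℕ} (hk : 1 ≤ k) {e : Form V → Fun ℤ V}
    {𝓡 : Set (Fun ℤ V)} {l : ℕ} {Q : Finset ℕ} {τ : Fin l → ℕ} {L : Fin l → Form V}
    (hG : Good k e 𝓡 (Gam Q τ L)) (hdeg : ∀ φ ∈ Gam Q τ L, DegZ (k ^ φ.depth) (e φ))
    (hd : ∀ i, (L i).depth ≤ d) {a₀ : ℕ} (ha : a₀ ≤ A) {f : W} (hf : f ∈ GG M act 𝓡 a₀) :
    Data (A - a₀) (LinearMap.ker (act.flip f)) k (d + 2) e 𝓡 (Gam Q τ L) where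
  ab := ab_of_world hW ha (mem_GG.1 hf).1
  pos := hk
  good := hG
  deg := hdeg
  depth := fun _ hφ => Gam_depth hd hφ
  parts := fun _ hφ _ hψ => Gam_parts hφ hψ
  zero := fun P hP => by
    rw [LinearMap.mem_ker, LinearMap.flip_apply]
    exact (mem_GG.1 hf).2 P hP

open Classical in
/-- The part of the derivation up to the line `i` with tag `p`. -/
noncomputable def cut {l : ℕ} (τ : Fin l → ℕ) (L : Fin l → Form V) (p : ℕ) (i : Fin l) (j : Fin l) :
    Form V :=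
  if j ≤ i ∧ (τ j = p ∨ CountFree (L j)) then L j else conjL []

theorem cut_size {l : ℕ} {τ : Fin l → ℕ} {L : Fin l → Form V} {p : ℕ} {i : Fin l} :
    size (cut τ L p i) ≤ size L + 1 := by
  classical
  have h1 : {ψ | ∃ j, ψ ∈ (cut τ L p i j).parts} ⊆ insert (conjL []) {ψ | ∃ j, ψ ∈ (L j).parts} := by
    rintro ψ ⟨j, hj⟩
    unfold cut at hj
    split_ifs at hj with h
    · exact Or.inr ⟨j, hj⟩
    · rcases parts_conjL hj with h1 | ⟨φ, hφ, -⟩
      · exact Or.inl h1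
      · exact absurd hφ List.not_mem_nil
  have h2 := Set.ncard_le_ncard h1 ((parts_set_finite L).insert _)
  have h3 := Set.ncard_insert_le (conjL []) {ψ | ∃ j, ψ ∈ (L j).parts}
  unfold size
  omega

theorem tag_contra [Fintype K] {p d R c k w a₀ A' : ℕ} [CharP K p] (hW : World M act A)
    (hk : 1 ≤ k) {e : Form V → Fun ℤ V} {𝓡 : Set (Fun ℤ V)} {l : ℕ} {Q : Finset ℕ}
    {τ : Fin l → ℕ} {L : Fin l → Form V} (hG : Good k e 𝓡 (Gam Q τ L))
    (hdeg : ∀ φ ∈ Gam Q τ L, DegZ (k ^ φ.depth) (e φ)) (hRd : ∀ P ∈ 𝓡, DegZ (2 * k ^ (d + 2)) P)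
    {F : List (List (V × Bool))} {Φ : Set (Form V)} (hΦ : ∀ φ ∈ Φ, ∃ D ∈ F, φ = clause D)
    (hF : ∀ D ∈ F, ∃ E : List (V × Bool), (∀ l ∈ E, l ∈ D) ∧ E.length ≤ w ∧
      ∀ f ∈ M a₀, act (fals K E) f = 0) {S : ℕ → Set Rule}
    (hL : IsMixed Q S d Φ τ L)
    (hS : ∀ R ∈ S p, R.Sound p ∧ R.cost + 5 ≤ c ∧ R.nodes.length ≤ c)
    {i : Fin l} (hi : CountFree (L i)) (hip : τ i = p) {C : ℝ} (hC : 0 ≤ C)
    (hpos : 0 < Module.finrank K ((GG M act 𝓡 a₀).map (act (castF K (e (Ev L i))))))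
    (hgrow : (Module.finrank K (M A) : ℝ) ≤
      C * Module.finrank K ((GG M act 𝓡 a₀).map (act (castF K (e (Ev L i))))))
    (hR : 16 * (c + 1) * C * ((size L + 1 : ℕ) : ℝ) ≤ 2 ^ R) (hR1 : 1 ≤ R)
    (hA1 : (c + 4) * (3 * R * (Fintype.card K - 1)) ^ (d + 3) ≤ A')
    (hA2 : 4 * (k ^ (d + 2) + FG.deg K (3 * R) (d + 3)) ≤ A')
    (hA3 : a₀ + A' + 6 * k ^ (d + 2) + w ≤ A) : False := by
  classical
  have hd : ∀ j, (L j).depth ≤ d := fun j => (hL j).2.1
  have hk1 : 1 ≤ k ^ (d + 2) := Nat.one_le_pow _ _ hk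
  have hEΓ : Ev L i ∈ Gam Q τ L := Gam_Ev hi
  obtain ⟨E, hE⟩ : ∃ E, E = castF K (e (Ev L i)) := ⟨_, rfl⟩
  rw [← hE] at hpos hgrow
  have hEp : E ∈ Pol K V (k ^ (d + 2)) := by
    rw [hE]
    exact Pol_mono (Nat.pow_le_pow_right hk (Gam_depth hd hEΓ)) (hdeg _ hEΓ K)
  have hWG : World (GG M act 𝓡) act (A - 2 * k ^ (d + 2)) := world_GG hW hRd (by omega)
  have hWM : World (fun b => (GG M act 𝓡 (a₀ + b)).map (act E)) act A' :=
    world_map hWG hEp (by omega)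
  -- functions that act as zero on the image
  have himg : ∀ P : Fun K V, P ∈ Pol K V (2 * k ^ (d + 2)) →
      (∀ f ∈ GG M act 𝓡 a₀, act (P * E) f = 0) →
      ∀ u ∈ (GG M act 𝓡 (a₀ + 0)).map (act E), act P u = 0 := by
    rintro P hP h _ ⟨f, hf, rfl⟩
    rw [← hW.act_mul a₀ (2 * k ^ (d + 2)) (k ^ (d + 2)) P E f (by omega) hP hEp
      (mem_GG.1 hf).1]
    exact h f hf
  have hdata : ∀ Z : Submodule K (Fun K V), FG.Kill A' Z →
      (∀ P : Fun K V, (∀ u ∈ (GG M act 𝓡 (a₀ + 0)).map (act E), act P u = 0) → P ∈ Z) →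
      Data A' Z k (d + 2) e 𝓡 (Gam Q τ L) := by
    intro Z hZ h0
    refine ⟨Kill.ab hZ, hk, hG, hdeg, fun _ hφ => Gam_depth hd hφ,
      fun _ hφ _ hψ => Gam_parts hφ hψ, fun P hP => h0 _ (himg _ (hRd P hP K) fun f hf => ?_)⟩
    rw [mul_comm, hW.act_mul a₀ (k ^ (d + 2)) (2 * k ^ (d + 2)) E _ f (by omega) hEp
      (hRd P hP K) (mem_GG.1 hf).1, (mem_GG.1 hf).2 P hP, map_zero]
  have hlink : ∀ (Z : Submodule K (Fun K V)) (H : List (Fun K V) → Fun K V), FG.Kill A' Z →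
      Choice (3 * R) H →
      (∀ P : Fun K V, (∀ u ∈ (GG M act 𝓡 (a₀ + 0)).map (act E), act P u = 0) → P ∈ Z) →
      ∀ φ ∈ Gam Q τ L, (∀ ψ ∈ φ.parts, CleanForm Z H ψ) →
      pv H φ - castF K (e φ) ∈ Z := by
    intro Z H hZ hH h0 φ hφ hcl
    exact (hdata Z hZ h0).link hZ hH (by omega) hA2 φ (Gam_countFree hφ) hφ hcl
  -- the conjuncts of the event
  have hconj : ∀ f ∈ GG M act 𝓡 a₀, ∀ φ ∈ (Form.neg (L i) :: before L i),
      act ((1 - castF K (e φ)) * E) f = 0 := by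
    intro f hf φ hφ
    obtain ⟨t, ht⟩ := List.get_of_mem hφ
    have h1 := (data_of_mem hW hk hG hdeg hd (by omega) hf).conj_to
      (F := (Form.neg (L i) :: before L i).get) hEΓ (by omega) t
    rw [ht] at h1
    rw [hE]
    exact h1
  obtain ⟨Φ', hΦ'⟩ : ∃ Φ' : Set (Form V), Φ' = {φ | φ ∈ Gam Q τ L ∧
    ∀ f ∈ GG M act 𝓡 a₀, act ((1 - castF K (e φ)) * E) f = 0} := ⟨_, rfl⟩
  have h1e : ∀ φ ∈ Gam Q τ L, 1 - castF K (e φ) ∈ Pol K V (2 * k ^ (d + 2)) := by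
    intro φ hφ
    refine Submodule.sub_mem _ (Frege.one_mem _) (Pol_mono ?_ (hdeg φ hφ K))
    have := Nat.pow_le_pow_right hk (Gam_depth hd hφ)
    omega
  have hΦ'2 : ∀ φ ∈ Φ', ∀ (Z : Submodule K (Fun K V)) (H : List (Fun K V) → Fun K V),
      FG.Kill A' Z → Choice (3 * R) H → (∀ ψ ∈ φ.parts, CleanForm Z H ψ) →
      (∀ P : Fun K V, (∀ u ∈ (GG M act 𝓡 (a₀ + 0)).map (act E), act P u = 0) → P ∈ Z) →
      1 - pv H φ ∈ Z := by
    intro φ hφ Z H hZ hH hcl h0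
    rw [hΦ'] at hφ
    have h1 := hlink Z H hZ hH h0 φ hφ.1 hcl
    have h2 : 1 - castF K (e φ) ∈ Z := h0 _ (himg _ (h1e φ hφ.1) hφ.2)
    have h3 : 1 - pv H φ = (1 - castF K (e φ)) - (pv H φ - castF K (e φ)) := by ring
    rw [h3]
    exact Z.sub_mem h2 h1
  -- the hypotheses
  have hpastv : conjL [] ∈ Φ' := by
    rw [hΦ']
    refine ⟨Gam_verum, fun f hf => ?_⟩
    have h1 := (data_of_mem hW hk hG hdeg hd (by omega) hf).conj_of
      (F := ([] : List (Form V)).get) (Gam_verum) hEp (by omega) (fun t => t.elim0)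
    exact h1
  have hpast : ∀ j, j < i → CountFree (L j) → L j ∈ Φ' := by
    intro j hj hjc
    rw [hΦ']
    exact ⟨Gam_line hjc (self_mem_parts _), fun f hf => hconj f hf _
      (List.mem_cons_of_mem _ (mem_before.2 ⟨j, hj, hjc, rfl⟩))⟩
  have hclause : ∀ j, L j ∈ Φ → L j ∈ Φ' := by
    intro j hj
    obtain ⟨D, hD, hjD⟩ := hΦ _ hj
    have hjc : CountFree (L j) := by
      rw [hjD]
      exact countFree_clause D
    have hjΓ : L j ∈ Gam Q τ L := Gam_line hjc (self_mem_parts _)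
    rw [hΦ']
    refine ⟨hjΓ, fun f hf => ?_⟩
    obtain ⟨D', hD1, hD2, hD3⟩ := hF D hD
    have h1 := clause_holds_sub (data_of_mem hW hk hG hdeg hd (by omega) hf) (w := w) (by omega)
      (D := D) (by rw [← hjD]; exact hjΓ) hD1 hD2 (by
        rw [LinearMap.mem_ker, LinearMap.flip_apply]
        exact hD3 f (mem_GG.1 hf).1)
    rw [← hjD] at h1
    rw [LinearMap.mem_ker, LinearMap.flip_apply] at h1
    rw [mul_comm, hW.act_mul a₀ (k ^ (d + 2)) (2 * k ^ (d + 2)) E _ f (by omega) hEp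
      (h1e _ hjΓ) (mem_GG.1 hf).1, h1, map_zero]
  have hder : IsDerivation (S p) (d + 2) Φ' (cut τ L p i) := by
    intro j
    by_cases hj : j ≤ i ∧ (τ j = p ∨ CountFree (L j))
    · have hcj : cut τ L p i j = L j := if_pos hj
      rw [hcj]
      refine ⟨(hd j).trans (by omega), ?_⟩
      by_cases hj2 : j < i ∧ CountFree (L j)
      · exact Or.inl (hpast j hj2.1 hj2.2)
      · have hτj : τ j = p := by
          rcases hj.2 with h | h
          · exact h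
          · have h1 : ¬ j < i := fun h1 => hj2 ⟨h1, h⟩
            have h2 : j = i := le_antisymm hj.1 (not_lt.1 h1)
            rw [h2]
            exact hip
        rcases (hL j).2.2 with h | ⟨R', hR', σ, υ, h1, h2⟩
        · exact Or.inl (hclause j h)
        · rw [hτj] at hR' h1
          refine Or.inr ⟨R', hR', σ, υ, fun P hP ψ hψ => ?_, h2⟩
          obtain ⟨j', hj', h3, h4⟩ := h1 P hP ψ hψ
          refine ⟨j', hj', ?_⟩
          rw [← h3] at h4 ⊢
          exact if_pos ⟨hj'.le.trans hj.1, h4⟩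
    · have hcj : cut τ L p i j = conjL [] := if_neg hj
      rw [hcj]
      refine ⟨?_, Or.inl hpastv⟩
      exact (depth_conjL_le.2 fun φ hφ => absurd hφ List.not_mem_nil)
  obtain ⟨Z, H, hZ, hH, hcl, hholds, h0⟩ := flat_holds' (p := p) (d := d + 2) (R := R) (c := c)
    (N := size L + 1) hWM hC hpos (by
      refine le_trans ?_ hgrow
      have h1 : (GG M act 𝓡 (a₀ + A')).map (act E) ≤ M A := by
        rintro _ ⟨f, hf, rfl⟩
        exact hW.mono (by omega) le_rfl (hW.act_mem (a₀ + A') (k ^ (d + 2)) E f (by omega) hEp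
          (mem_GG.1 hf).1)
      exact_mod_cast Submodule.finrank_mono h1) hS hR hR1 hA1 hΦ'2 hder cut_size
  have hcut : cut τ L p i i = L i := if_pos ⟨le_rfl, Or.inl hip⟩
  have hiΓ : L i ∈ Gam Q τ L := Gam_line hi (self_mem_parts _)
  have e1 := hholds i
  rw [hcut] at e1
  have e2 := hlink Z H hZ hH h0 (L i) hiΓ (fun ψ hψ => hcl i ψ (by rw [hcut]; exact hψ))
  have e3 : castF K (e (L i)) ∈ Z := by
    refine h0 _ (himg _ (Pol_mono ?_ (hdeg _ hiΓ K)) fun f hf => ?_)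
    · have := Nat.pow_le_pow_right hk (Gam_depth hd hiΓ)
      omega
    · have h1 := hconj f hf _ (List.mem_cons_self)
      rw [hG.neg _ (Or.inl ⟨i, hi, Or.inr (Or.inl rfl)⟩), map_sub, map_one, sub_sub_cancel] at h1
      exact h1
  refine hZ.one ?_
  have e4 : (1 : Fun K V) = (1 - pv H (L i)) + (pv H (L i) - castF K (e (L i))) +
      castF K (e (L i)) := by ring
  rw [e4]
  exact Z.add_mem (Z.add_mem e1 e2) e3

end Pool.Agent.MP_9cec2c_lc.MX
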