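import Pool.Agent.Lib.MP_9cec2c_lc.MXIdeal

/-!
Images of worlds under functions of small degree, and the comparison of the ranks of a function
with integer values in two worlds.
-/

set_option autoImplicit false
set_option linter.unusedSectionVars false

namespace Pool.Agent.MP_9cec2c_lc.MX

open Finset Frege FG

section one

variable {K V W : Type} [Field K] [AddCommGroup W] [Module K W] [FiniteDimensional K W]
  {M : ℕ → Submodule K W} {act : Fun K V →ₗ[K] W →ₗ[K] W} {A : ℕ}

/-- The image of a world under a function of small degree. -/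
theorem world_map (hW : World M act A) {P : Fun K V} {D : ℕ} (hP : P ∈ Pol K V D) {a₀ A' : ℕ}
    (hA : a₀ + A' + D ≤ A) : World (fun b => (M (a₀ + b)).map (act P)) act A' where
  act_mem a e U w ha hU hw := by
    obtain ⟨f, hf, rfl⟩ := Submodule.mem_map.1 hw
    refine Submodule.mem_map.2 ⟨act U f, ?_, ?_⟩
    · have h1 := hW.act_mem (a₀ + a) e U f (by omega) hU hf
      rwa [add_assoc] at h1
    · rw [← hW.act_mul (a₀ + a) D e P U f (by omega) hP hU hf, mul_comm,
        hW.act_mul (a₀ + a) e D U P f (by omega) hU hP hf]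
  act_one a w ha hw := by
    obtain ⟨f, hf, rfl⟩ := Submodule.mem_map.1 hw
    rw [← hW.act_mul (a₀ + a) 0 D 1 P f (by omega) (Frege.one_mem _) hP hf, one_mul]
  act_mul a e e' U U' w ha hU hU' hw := by
    obtain ⟨f, hf, rfl⟩ := Submodule.mem_map.1 hw
    rw [← hW.act_mul (a₀ + a) (e + e') D (U * U') P f (by omega) (Frege.mul_mem hU hU') hP hf,
      ← hW.act_mul (a₀ + a) e' D U' P f (by omega) hU' hP hf,
      ← hW.act_mul (a₀ + a) e (e' + D) U (U' * P) f (by omega) hU (Frege.mul_mem hU' hP) hf,
      mul_assoc]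

omit [FiniteDimensional K W] in
theorem finrank_split [FiniteDimensional K W] (X : Submodule K W) (T : W →ₗ[K] W) :
    Module.finrank K (X.map T) + Module.finrank K (X ⊓ LinearMap.ker T : Submodule K W) =
      Module.finrank K X := by
  have h1 := LinearMap.finrank_range_add_finrank_ker (T.domRestrict X)
  have h2 : LinearMap.range (T.domRestrict X) = X.map T := by
    ext w
    simp only [LinearMap.mem_range, LinearMap.domRestrict_apply, Submodule.mem_map]
    constructor
    · rintro ⟨x, rfl⟩
      exact ⟨x.1, x.2, rfl⟩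
    · rintro ⟨x, hx, rfl⟩
      exact ⟨⟨x, hx⟩, rfl⟩
  have h3 : Module.finrank K (LinearMap.ker (T.domRestrict X)) =
      Module.finrank K (X ⊓ LinearMap.ker T : Submodule K W) := by
    have h4 : (LinearMap.ker (T.domRestrict X)).map X.subtype = X ⊓ LinearMap.ker T := by
      ext w
      simp only [Submodule.mem_map, LinearMap.mem_ker, LinearMap.domRestrict_apply,
        Submodule.subtype_apply, Submodule.mem_inf]
      constructor
      · rintro ⟨x, hx, rfl⟩
        exact ⟨x.2, hx⟩
      · rintro ⟨hx, h⟩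
        exact ⟨⟨w, hx⟩, h, rfl⟩
    rw [← h4]
    exact (Submodule.finrank_map_subtype_eq X _).symm
  rw [h2, h3] at h1
  exact h1

/-- Subadditivity of the rank. -/
theorem finrank_inf_le {β : Type} (s : Finset β) (X : Submodule K W) (T : β → W →ₗ[K] W) :
    Module.finrank K X ≤ Module.finrank K (X ⊓ ⨅ b ∈ s, LinearMap.ker (T b) : Submodule K W) +
      ∑ b ∈ s, Module.finrank K (X.map (T b)) := by
  classical
  induction s using Finset.induction_on with
  | empty =>
    have h0 : X ⊓ ⨅ b ∈ (∅ : Finset β), LinearMap.ker (T b) = X := by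
      rw [inf_eq_left]
      refine le_iInf fun b => le_iInf fun hb => absurd hb (notMem_empty _)
    rw [h0, sum_empty, add_zero]
  | insert b s hb ih =>
    have h1 := finrank_split (X ⊓ ⨅ b ∈ s, LinearMap.ker (T b)) (T b)
    have h2 : (X ⊓ ⨅ b ∈ s, LinearMap.ker (T b)) ⊓ LinearMap.ker (T b) =
        X ⊓ ⨅ c ∈ insert b s, LinearMap.ker (T c) := by
      rw [Finset.iInf_insert, inf_assoc, inf_comm (LinearMap.ker (T b))]
    have h3 : Module.finrank K ((X ⊓ ⨅ b ∈ s, LinearMap.ker (T b)).map (T b)) ≤
        Module.finrank K (X.map (T b)) :=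
      Submodule.finrank_mono (Submodule.map_mono inf_le_left)
    rw [h2] at h1
    rw [sum_insert hb]
    omega

theorem finrank_map_le_sum {β : Type} (s : Finset β) (X : Submodule K W) (T : W →ₗ[K] W)
    (T' : β → W →ₗ[K] W) (h : ∀ x ∈ X, (∀ b ∈ s, T' b x = 0) → T x = 0) :
    Module.finrank K (X.map T) ≤ ∑ b ∈ s, Module.finrank K (X.map (T' b)) := by
  have h1 := finrank_inf_le s X T'
  have h2 := finrank_split X T
  have h3 : X ⊓ ⨅ b ∈ s, LinearMap.ker (T' b) ≤ X ⊓ LinearMap.ker T := by
    intro x hx
    rw [Submodule.mem_inf] at hx ⊢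
    refine ⟨hx.1, h x hx.1 fun b hb => ?_⟩
    have h4 := hx.2
    rw [Submodule.mem_iInf] at h4
    have h5 := h4 b
    rw [Submodule.mem_iInf] at h5
    exact h5 hb
  have h4 := Submodule.finrank_mono h3
  omega

/-- If the images are all of the space. -/
theorem finrank_le_sum {β : Type} (s : Finset β) (X : Submodule K W)
    (T' : β → W →ₗ[K] W) (h : ∀ x ∈ X, (∀ b ∈ s, T' b x = 0) → x = 0) :
    Module.finrank K X ≤ ∑ b ∈ s, Module.finrank K (X.map (T' b)) := by
  have h1 := finrank_map_le_sum s X LinearMap.id T' h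
  rwa [Submodule.map_id] at h1

theorem finrank_map_codim {X Y : Submodule K W} (h : X ≤ Y) (T : W →ₗ[K] W) :
    Module.finrank K (Y.map T) + Module.finrank K X ≤
      Module.finrank K (X.map T) + Module.finrank K Y := by
  have h1 := finrank_split X T
  have h2 := finrank_split Y T
  have h3 := Submodule.finrank_mono (inf_le_inf_right (LinearMap.ker T) h)
  omega

/-- The images of an idempotent function and of its complement are disjoint. -/
theorem idem_disjoint (hW : World M act A) {G : Submodule K W} {a₀ T : ℕ} (hG : G ≤ M a₀)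
    {P : Fun K V} (hP : P ∈ Pol K V T) (hA : a₀ + 2 * T ≤ A)
    (hid : ∀ f ∈ G, act (P * P) f = act P f) :
    Module.finrank K (G.map (act P)) + Module.finrank K (G.map (act (1 - P))) ≤
      Module.finrank K (M (a₀ + T)) := by
  have h1P : 1 - P ∈ Pol K V T := Submodule.sub_mem _ (Frege.one_mem _) hP
  have h1 : G.map (act P) ⊔ G.map (act (1 - P)) ≤ M (a₀ + T) := by
    refine sup_le ?_ ?_
    · rintro _ ⟨f, hf, rfl⟩
      exact hW.act_mem a₀ T P f (by omega) hP (hG hf)
    · rintro _ ⟨f, hf, rfl⟩
      exact hW.act_mem a₀ T _ f (by omega) h1P (hG hf)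
  have h2 : G.map (act P) ⊓ G.map (act (1 - P)) = ⊥ := by
    rw [Submodule.eq_bot_iff]
    intro w hw
    obtain ⟨⟨x, hx, hxw⟩, ⟨y, hy, hyw⟩⟩ := Submodule.mem_inf.1 hw
    have e1 : act P w = w := by
      rw [← hxw, ← hW.act_mul a₀ T T P P x (by omega) hP hP (hG hx), hid x hx]
    have e2 : act P w = 0 := by
      rw [← hyw, ← hW.act_mul a₀ T T P (1 - P) y (by omega) hP h1P (hG hy), mul_sub, mul_one,
        map_sub, LinearMap.sub_apply, hid y hy, sub_self]
    rw [← e1, e2]
  have h3 := Submodule.finrank_sup_add_finrank_inf_eq (G.map (act P)) (G.map (act (1 - P)))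
  have h4 := Submodule.finrank_mono h1
  rw [h2, finrank_bot] at h3
  omega

/-- A space is the sum of the images of a function and its complement, up to the kernels. -/
theorem finrank_le_add (hW : World M act A) {G : Submodule K W} {a₀ : ℕ} (hG : G ≤ M a₀)
    (hA : a₀ ≤ A) (P : Fun K V) :
    Module.finrank K G ≤ Module.finrank K (G.map (act P)) +
      Module.finrank K (G.map (act (1 - P))) := by
  have h1 := finrank_split G (act P)
  have h2 := finrank_split G (act (1 - P))
  have h3 : (G ⊓ LinearMap.ker (act P)) ⊓ (G ⊓ LinearMap.ker (act (1 - P))) = ⊥ := by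
    rw [Submodule.eq_bot_iff]
    intro w hw
    obtain ⟨hw1, hw2⟩ := Submodule.mem_inf.1 hw
    have e1 : act P w = 0 := (Submodule.mem_inf.1 hw1).2
    have e2 : act (1 - P) w = 0 := (Submodule.mem_inf.1 hw2).2
    rw [map_sub, LinearMap.sub_apply, e1, sub_zero,
      hW.act_one a₀ w hA (hG (Submodule.mem_inf.1 hw1).1)] at e2
    exact e2
  have h4 := Submodule.finrank_sup_add_finrank_inf_eq (G ⊓ LinearMap.ker (act P))
    (G ⊓ LinearMap.ker (act (1 - P)))
  have h5 : (G ⊓ LinearMap.ker (act P)) ⊔ (G ⊓ LinearMap.ker (act (1 - P))) ≤ G :=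
    sup_le inf_le_left inf_le_left
  have h6 := Submodule.finrank_mono h5
  rw [h3, finrank_bot] at h4
  omega

end one

section two

variable {K V W K' W' : Type} [Field K] [AddCommGroup W] [Module K W] [FiniteDimensional K W]
  [Field K'] [AddCommGroup W'] [Module K' W'] [FiniteDimensional K' W']
  {M : ℕ → Submodule K W} {act : Fun K V →ₗ[K] W →ₗ[K] W}
  {M' : ℕ → Submodule K' W'} {act' : Fun K' V →ₗ[K'] W' →ₗ[K'] W'} {A : ℕ}

/-- The rank of an idempotent function in the world `M'` is almost as large as in the world `M`, if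
the ranks of all functions in `M'` are at most those in `M`. -/
theorem transfer (hW : World M act A) (hW' : World M' act' A) {a₀ T : ℕ} (hA : a₀ + 2 * T ≤ A)
    (hsemi : ∀ P : Fun ℤ V, Module.finrank K' ((M' a₀).map (act' (castF K' P))) ≤
      Module.finrank K ((M a₀).map (act (castF K P))))
    {G : Submodule K W} (hG : G ≤ M a₀) {G' : Submodule K' W'} (hG' : G' ≤ M' a₀)
    {P : Fun ℤ V} (hP : castF K P ∈ Pol K V T)
    (hid : ∀ f ∈ G, act (castF K P * castF K P) f = act (castF K P) f) :
    Module.finrank K (G.map (act (castF K P))) + Module.finrank K' G' + Module.finrank K G ≤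
      Module.finrank K' (G'.map (act' (castF K' P))) + Module.finrank K (M (a₀ + T)) +
        Module.finrank K (M a₀) := by
  have h1 := idem_disjoint hW hG hP hA hid
  have h2 := finrank_le_add hW' hG' (by omega) (castF K' P)
  have h3 := hsemi (1 - P)
  have e1 : castF K' (1 - P) = 1 - castF K' P := by rw [map_sub, map_one]
  have e2 : castF K (1 - P) = 1 - castF K P := by rw [map_sub, map_one]
  rw [e1, e2] at h3
  have h4 := finrank_map_codim hG (act (1 - castF K P))
  have h5 : Module.finrank K' (G'.map (act' (1 - castF K' P))) ≤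
      Module.finrank K' ((M' a₀).map (act' (1 - castF K' P))) :=
    Submodule.finrank_mono (Submodule.map_mono hG')
  omega

end two

end Pool.Agent.MP_9cec2c_lc.MX
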