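import Mathlib
import Pool.Agent.Lib.MP_9cec2c_lc.Circuit

set_option autoImplicit false

namespace Pool.Agent.Lib.MP_9cec2c_lc

/-- The circuit `C`, whose inputs are an instance, a certificate of `w` bits and `r` random bits, is a
(Merlin-Arthur) verifier for `L`: every instance in `L` has a certificate accepted with probability at
least `2/3`, and for an instance outside of `L` every certificate is accepted with probability at most
`1/3`.  When `r = 0` this says that `C` deterministically verifies certificates of `w` bits for `L`. -/
def Verifies {ι : Type} {w r S : ℕ} (p : ℕ) (C : Circuit (ι ⊕ Fin w ⊕ Fin r) S)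
    (L : (ι → Bool) → Prop) : Prop :=
  ∀ x : ι → Bool,
    (L x → ∃ z : Fin w → Bool,
      2 * 2 ^ r ≤ 3 * (Finset.univ.filter fun s : Fin r → Bool =>
        C.eval p (Sum.elim x (Sum.elim z s)) = true).card) ∧
    (¬ L x → ∀ z : Fin w → Bool,
      3 * (Finset.univ.filter fun s : Fin r → Bool =>
        C.eval p (Sum.elim x (Sum.elim z s)) = true).card ≤ 2 ^ r)

end Pool.Agent.Lib.MP_9cec2c_lc
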