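import Mathlib
import Pool.Agent.Lib.MP_9cec2c_lc.Cover
import Pool.Agent.Lib.MP_9cec2c_lc.Ball
import Pool.Agent.Lib.MP_9cec2c_lc.Encode
import Pool.Agent.Lib.MP_9cec2c_lc.Verify

set_option autoImplicit false
set_option linter.unusedSectionVars false
set_option linter.unusedSimpArgs false
set_option linter.unusedVariables false

namespace Pool.Agent.Lib.MP_9cec2c_lc

open Finset

/-- Verifying that all blocks have sums divisible by 6 needs a certificate at least as long as the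
number of blocks, if the blocks are polylogarithmically long. -/
theorem blocks_bound {α : Type} {S w r : ℕ} (p : ℕ) [hp : Fact p.Prime]
    (C : Circuit (α ⊕ Fin w ⊕ Fin r) S) (d : ℕ) (hd : C.depth ≤ d)
    (B : Type) [Fintype B] [DecidableEq B] [Nonempty B] (κ : ℕ) (hκ : 1 ≤ κ)
    (hS : 24 * S ≤ 2 ^ κ) (b : ℕ)
    (hb : b = 2 ^ 16 * (((p - 1) * κ) ^ d) ^ 2 * (Nat.log 2 (((p - 1) * κ) ^ d) + 1))
    (Φ : (B × Fin b → Bool) → α → Bool)
    (hΦ : ∀ (F : Type) [Field F] (j : α), (fun x => (ind (Φ x j) : F)) ∈ LowDeg F (B × Fin b) 1)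
    (hgood : ∀ x, (∀ i, 6 ∣ ∑ t, (x (i, t)).toNat) → ∃ z : Fin w → Bool,
      2 * 2 ^ r ≤ 3 * (univ.filter (fun s : Fin r → Bool =>
      C.eval p (fun j => leaf Φ z s j x) = true)).card)
    (hbad : ∀ x, (¬ ∀ i, 6 ∣ ∑ t, (x (i, t)).toNat) → ∀ z : Fin w → Bool,
      3 * (univ.filter (fun s : Fin r → Bool =>
      C.eval p (fun j => leaf Φ z s j x) = true)).card ≤ 2 ^ r) :
    Fintype.card B ≤ w := by
  classical
  set ρ := ((p - 1) * κ) ^ d with hρ
  set u := Nat.log 2 ρ + 1 with hu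
  have hp2 := hp.out.two_le
  have hρ1 : 1 ≤ ρ := Nat.one_le_pow _ _ (Nat.mul_pos (by omega) (by omega))
  have hu1 : 1 ≤ u := by omega
  have hB1 : 1 ≤ Fintype.card B := Fintype.card_pos
  set nB := Fintype.card B with hnB
  have hρu : ρ ≤ 2 ^ u := (Nat.lt_pow_succ_log_self (by norm_num) ρ).le
  have huu : u ≤ 2 ^ u := Nat.lt_two_pow_self.le
  have hBB : nB ≤ 2 ^ nB := Nat.lt_two_pow_self.le
  -- parameters
  obtain ⟨n, hn⟩ : ∃ n, n = 64 * u * nB := ⟨_, rfl⟩
  obtain ⟨e, he⟩ : ∃ e, e = 8 * nB * u := ⟨_, rfl⟩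
  obtain ⟨h, hh⟩ : ∃ h, h = 2 ^ 15 * nB * ρ ^ 2 * u := ⟨_, rfl⟩
  have hN : Fintype.card (B × Fin b) = 2 * h := by
    rw [Fintype.card_prod, Fintype.card_fin, hb, hh]
    ring
  have hρsq : ρ ≤ ρ ^ 2 := by nlinarith
  have h1 : 4 * (2 * n * ρ + 1) * (32 * ρ) ≤ h := by
    have h2 : 1 ≤ u * nB * ρ := Nat.mul_pos (Nat.mul_pos hu1 hB1) hρ1
    have h3 : 4 * (2 * n * ρ + 1) * (32 * ρ) ≤ 4 * (129 * (u * nB * ρ)) * (32 * ρ) := by
      apply Nat.mul_le_mul_right
      apply Nat.mul_le_mul_left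
      rw [hn]
      nlinarith
    refine h3.trans ?_
    rw [hh]
    nlinarith [Nat.mul_le_mul_left (16256 * 0) h2, Nat.zero_le (u * nB * ρ ^ 2)]
  have h2 : 2 * n * ρ + 1 ≤ (32 * ρ) * e := by
    have h2 : 1 ≤ u * nB * ρ := Nat.mul_pos (Nat.mul_pos hu1 hB1) hρ1
    rw [hn, he]
    nlinarith
  have hhpos : 0 < h := by
    rw [hh]
    positivity
  have hsh : 2 * n * ρ + 1 ≤ h := by nlinarith
  have hchoose := choose_lower h (2 * n * ρ + 1) (32 * ρ) e hhpos h1 h2 (by omega)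
  have hball : 4 ^ h ≤ ballCard (B × Fin b) (h - (2 * n * ρ + 1)) * 2 ^ e * (2 * h) := by
    refine hchoose.trans ?_
    apply Nat.mul_le_mul_right
    apply Nat.mul_le_mul_right
    have := choose_le_ballCard (B × Fin b) (h - (2 * n * ρ + 1))
    rwa [hN] at this
  set V := (Finset.univ : Finset (B × Fin b → Bool)).filter
      (fun x => ∀ i, 6 ∣ ∑ t, (x (i, t)).toNat) with hV
  have hcover := cover_bound p C d hd Φ hΦ κ hκ hS V (by
      intro x hx
      rw [hV, Finset.mem_filter] at hx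
      unfold ones
      rw [Fintype.sum_prod_type]
      exact Finset.dvd_sum fun i _ => hx.2 i)
    (fun x hx => hgood x (Finset.mem_filter.mp hx).2)
    (fun x hx => hbad x (fun h => hx (Finset.mem_filter.mpr ⟨Finset.mem_univ _, h⟩)))
    (2 * n) (h - (2 * n * ρ + 1)) (by
      rw [hN]
      have : 2 * h / 2 = h := by omega
      rw [this, ← hρ]
      omega)
  -- size of V
  have hVcard : 2 ^ (2 * h) ≤ V.card * 32 ^ nB := by
    obtain ⟨b', hb'⟩ : ∃ b', b = b' + 5 := by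
      refine ⟨b - 5, ?_⟩
      have : 5 ≤ b := by
        rw [hb]
        have : 1 ≤ ρ ^ 2 * u := Nat.mul_pos (by positivity) hu1
        nlinarith
      omega
    have hN2 : 2 * h = nB * b := by
      rw [← hN, Fintype.card_prod, Fintype.card_fin]
    have hcount : 2 ^ (nB * b') ≤ V.card := by
      clear hcover hball hchoose hgood hbad hΦ hN hb
      subst hb'
      exact block_count B b'
    have hN3 : 2 * h = nB * b' + nB * 5 := by rw [hN2, hb', Nat.mul_add]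
    rw [hN3, pow_add]
    calc 2 ^ (nB * b') * 2 ^ (nB * 5) = 2 ^ (nB * b') * 32 ^ nB := by
          rw [mul_comm nB 5, pow_mul 2 5 nB]
          norm_num
      _ ≤ V.card * 32 ^ nB := Nat.mul_le_mul_right _ hcount
  -- combine
  rw [hN] at hcover
  have hfour : (4 : ℕ) ^ (2 * h) = 2 ^ (2 * h) * 4 ^ h := by
    have e1 : (4 : ℕ) ^ h = 2 ^ (2 * h) := by rw [pow_mul]; norm_num
    rw [e1, ← mul_pow]
    norm_num
  have h53 : 3 ^ (2 * n) * 2 ^ n ≤ 5 ^ (2 * n) := by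
    rw [pow_mul 3 2 n, pow_mul 5 2 n, ← mul_pow]
    exact Nat.pow_le_pow_left (by norm_num) n
  have hcomb : (4 ^ (2 * h) * 3 ^ (2 * n)) * 2 ^ n ≤
      (4 ^ (2 * h) * 3 ^ (2 * n)) * (2 ^ w * 32 ^ nB * 2 ^ e * (2 * h)) := by
    calc (4 ^ (2 * h) * 3 ^ (2 * n)) * 2 ^ n = 4 ^ (2 * h) * (3 ^ (2 * n) * 2 ^ n) := by ring
      _ ≤ 4 ^ (2 * h) * 5 ^ (2 * n) := Nat.mul_le_mul_left _ h53
      _ = 2 ^ (2 * h) * 4 ^ h * 5 ^ (2 * n) := by rw [hfour]
      _ ≤ (V.card * 32 ^ nB) * (ballCard (B × Fin b) (h - (2 * n * ρ + 1)) * 2 ^ e * (2 * h)) *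
          5 ^ (2 * n) := Nat.mul_le_mul_right _ (Nat.mul_le_mul hVcard hball)
      _ = (V.card * 5 ^ (2 * n) * ballCard (B × Fin b) (h - (2 * n * ρ + 1))) *
          (32 ^ nB * 2 ^ e * (2 * h)) := by ring
      _ ≤ (2 ^ w * (4 ^ (2 * h) * 3 ^ (2 * n))) * (32 ^ nB * 2 ^ e * (2 * h)) :=
          Nat.mul_le_mul_right _ hcover
      _ = _ := by ring
  have hcan : 2 ^ n ≤ 2 ^ w * 32 ^ nB * 2 ^ e * (2 * h) :=
    Nat.le_of_mul_le_mul_left hcomb (by positivity)
  have h2h : 2 * h ≤ 2 ^ (nB + 16 + 3 * u) := by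
    have : 2 * h = nB * (2 ^ 16 * (ρ ^ 2 * u)) := by rw [hh]; ring
    rw [this, pow_add, pow_add]
    calc nB * (2 ^ 16 * (ρ ^ 2 * u)) ≤ 2 ^ nB * (2 ^ 16 * ((2 ^ u) ^ 2 * 2 ^ u)) := by
          apply Nat.mul_le_mul hBB
          apply Nat.mul_le_mul_left
          exact Nat.mul_le_mul (Nat.pow_le_pow_left hρu 2) huu
      _ = 2 ^ nB * 2 ^ 16 * 2 ^ (3 * u) := by
          have : (2 : ℕ) ^ (3 * u) = (2 ^ u) ^ 2 * 2 ^ u := by
            rw [← pow_succ, ← pow_mul, mul_comm]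
          rw [this]; ring
  have hfin : 2 ^ n ≤ 2 ^ (w + 5 * nB + e + (nB + 16 + 3 * u)) := by
    refine hcan.trans ?_
    rw [pow_add, pow_add, pow_add, pow_mul 2 5 nB]
    norm_num only
    exact Nat.mul_le_mul_left _ h2h
  have hexp := (Nat.pow_le_pow_iff_right (by norm_num : 1 < 2)).mp hfin
  rw [hn, he] at hexp
  nlinarith [Nat.mul_le_mul hu1 hB1, Nat.mul_le_mul_left 6 (Nat.mul_le_mul_right nB hu1),
    Nat.mul_le_mul_left u hB1]

lemma card_Vr (k K b : ℕ) (hK : 1 ≤ K) (hb : 1 ≤ b) :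
    Fintype.card (Vr k K b) ≤ (3 * k + 15) * b * K := by
  have hc6 : Fintype.card (ZMod 6) = 6 := ZMod.card 6
  have : Fintype.card (Vr k K b) = k * K + (k * (K + 1) + (b * (2 * K) + (b + (b + 1) * 6))) := by
    simp only [Vr, Fintype.card_sum, Fintype.card_prod, Fintype.card_fin, Fintype.card_bool, hc6]
  rw [this]
  have h1 : K ≤ b * K := Nat.le_mul_of_pos_left K hb
  have h2 : b ≤ b * K := Nat.le_mul_of_pos_right b hK
  have h3 : k * K ≤ k * (b * K) := Nat.mul_le_mul_left k h1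
  have h4 : k ≤ k * (b * K) := Nat.le_mul_of_pos_right k (Nat.mul_pos hb hK)
  nlinarith

/-- The lower bound on certificates for unsatisfiability. -/
theorem unsat_bound (k : ℕ) (hk : 3 ≤ k) (p : ℕ) [hp : Fact p.Prime] (d : ℕ) :
    ∃ c : ℕ, ∀ (v S w r : ℕ) (C : Circuit (Clause k v ⊕ Fin w ⊕ Fin r) S), C.depth ≤ d →
      Verifies p C (fun φ : Clause k v → Bool => ¬ Satisfiable φ) →
      v ^ k ≤ (w + 1) * (c * Nat.log 2 (S + 2)) ^ ((2 * d + 1) * k) := by
  classical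
  have hp2 := hp.out.two_le
  obtain ⟨c0, hc0⟩ : ∃ c0, c0 = 2 ^ 16 * (7 * p) ^ (2 * d) * (7 * p * d + 1) := ⟨_, rfl⟩
  have hc0pos : 1 ≤ c0 := by
    rw [hc0]
    have : 0 < (7 * p) ^ (2 * d) := Nat.pow_pos (by omega)
    exact Nat.mul_pos (Nat.mul_pos (by norm_num) this) (by omega)
  refine ⟨2 * (3 * k + 15) * c0, ?_⟩
  intro v S w r C hd hC
  set ℓ := Nat.log 2 (S + 2) with hℓ
  have hℓ1 : 1 ≤ ℓ := by
    rw [hℓ]
    exact Nat.log_pos (by norm_num) (by omega)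
  set κ := ℓ + 6 with hκ
  have hS : 24 * S ≤ 2 ^ κ := by
    have h1 : S + 2 < 2 ^ (ℓ + 1) := Nat.lt_pow_succ_log_self (by norm_num) (S + 2)
    have h2 : 2 ^ κ = 32 * 2 ^ (ℓ + 1) := by rw [hκ]; ring
    omega
  set ρ := ((p - 1) * κ) ^ d with hρ
  set u := Nat.log 2 ρ + 1 with hu
  set b := 2 ^ 16 * ρ ^ 2 * u with hb
  have hρ1 : 1 ≤ ρ := Nat.one_le_pow _ _ (Nat.mul_pos (by omega) (by omega))
  have hb1 : 1 ≤ b := by
    rw [hb]
    exact Nat.mul_pos (Nat.mul_pos (by norm_num) (Nat.pow_pos hρ1)) (by omega)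
  have hpκ : (p - 1) * κ ≤ 7 * p * ℓ := by
    calc (p - 1) * κ ≤ p * (7 * ℓ) := Nat.mul_le_mul (by omega) (by omega)
      _ = 7 * p * ℓ := by ring
  have hρle : ρ ≤ (7 * p * ℓ) ^ d := Nat.pow_le_pow_left hpκ d
  have hule : u ≤ (7 * p * d + 1) * ℓ := by
    have h1 : ρ ≤ 2 ^ (7 * p * ℓ * d) := by
      rw [pow_mul]
      exact hρle.trans (Nat.pow_le_pow_left Nat.lt_two_pow_self.le d)
    have h2 : Nat.log 2 ρ ≤ 7 * p * ℓ * d := by
      have := Nat.log_mono_right (b := 2) h1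
      rwa [Nat.log_pow (by norm_num)] at this
    rw [hu]
    nlinarith
  have hble : b ≤ (c0 * ℓ) ^ (2 * d + 1) := by
    calc b = 2 ^ 16 * ρ ^ 2 * u := hb
      _ ≤ 2 ^ 16 * ((7 * p * ℓ) ^ d) ^ 2 * ((7 * p * d + 1) * ℓ) := by
          apply Nat.mul_le_mul _ hule
          apply Nat.mul_le_mul_left
          exact Nat.pow_le_pow_left hρle 2
      _ = c0 * ℓ ^ (2 * d + 1) := by
          rw [hc0]
          rw [← pow_mul, mul_comm d 2, mul_pow (7 * p) ℓ, pow_succ]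
          ring
      _ ≤ c0 ^ (2 * d + 1) * ℓ ^ (2 * d + 1) := by
          apply Nat.mul_le_mul_right
          exact Nat.le_self_pow (by omega) c0
      _ = (c0 * ℓ) ^ (2 * d + 1) := by rw [mul_pow]
  have hbase : (2 * (3 * k + 15) * b) ^ k ≤ (2 * (3 * k + 15) * c0 * ℓ) ^ ((2 * d + 1) * k) := by
    rw [pow_mul]
    apply Nat.pow_le_pow_left
    calc 2 * (3 * k + 15) * b ≤ 2 * (3 * k + 15) * (c0 * ℓ) ^ (2 * d + 1) :=
          Nat.mul_le_mul_left _ hble
      _ ≤ (2 * (3 * k + 15)) ^ (2 * d + 1) * (c0 * ℓ) ^ (2 * d + 1) := by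
          apply Nat.mul_le_mul_right
          exact Nat.le_self_pow (by omega) _
      _ = (2 * (3 * k + 15) * c0 * ℓ) ^ (2 * d + 1) := by rw [← mul_pow]; ring
  by_cases hv : v < (3 * k + 15) * b
  · calc v ^ k ≤ (2 * (3 * k + 15) * b) ^ k := Nat.pow_le_pow_left (by nlinarith) k
      _ ≤ (2 * (3 * k + 15) * c0 * ℓ) ^ ((2 * d + 1) * k) := hbase
      _ ≤ (w + 1) * (2 * (3 * k + 15) * c0 * ℓ) ^ ((2 * d + 1) * k) :=
          Nat.le_mul_of_pos_left _ (by omega)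
  · push Not at hv
    set K := v / ((3 * k + 15) * b) with hK
    have hpos : 0 < (3 * k + 15) * b := Nat.mul_pos (by omega) hb1
    have hK1 : 1 ≤ K := by
      rw [hK]
      exact Nat.div_pos hv hpos
    have hKle : (3 * k + 15) * b * K ≤ v := by
      rw [hK]
      exact Nat.mul_div_le _ _
    have hvlt : v < (3 * k + 15) * b * (K + 1) := by
      rw [hK]
      exact Nat.lt_mul_div_succ v hpos
    -- the embedding of variables
    have hcard : Fintype.card (Vr k K b) ≤ Fintype.card (Fin v) := by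
      rw [Fintype.card_fin]
      exact (card_Vr k K b hK1 hb1).trans hKle
    obtain ⟨emb⟩ := Function.Embedding.nonempty_of_card_le hcard
    have : Nonempty (Fin K) := ⟨⟨0, hK1⟩⟩
    have hw := blocks_bound p C d hd (Fin k → Fin K) κ (by omega) hS b hb
      (enc hk emb) (fun F _ c => enc_lowDeg hk emb emb.injective F c)
      (by
        intro x hx
        have h1 : ¬ Satisfiable (enc hk emb x) := by
          intro hsat
          obtain ⟨i, hi⟩ := enc_sound hk emb x hsat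
          exact hi (hx i)
        exact (hC (enc hk emb x)).1 h1)
      (by
        intro x hx z
        have h1 : ¬ ¬ Satisfiable (enc hk emb x) := by
          rw [not_not]
          push Not at hx
          obtain ⟨i, hi⟩ := hx
          exact enc_complete hk emb emb.injective x i hi
        exact (hC (enc hk emb x)).2 h1 z)
    rw [Fintype.card_fun, Fintype.card_fin, Fintype.card_fin] at hw
    calc v ^ k ≤ (2 * (3 * k + 15) * b * K) ^ k := by
          apply Nat.pow_le_pow_left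
          nlinarith
      _ = (2 * (3 * k + 15) * b) ^ k * K ^ k := by rw [mul_pow]
      _ ≤ (2 * (3 * k + 15) * c0 * ℓ) ^ ((2 * d + 1) * k) * (w + 1) :=
          Nat.mul_le_mul hbase (by omega)
      _ = _ := by ring

end Pool.Agent.Lib.MP_9cec2c_lc
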