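import Pool.Agent.Lib.MP_9cec2c_lc.SDInd

/-!
Disjunctions of linear equations modulo 2: if a line is implied by few lines, this can be seen by a
decision tree of small depth that asks for the values of linear functions.
-/

set_option autoImplicit false
set_option linter.unusedSectionVars false

namespace Pool.Agent.MP_9cec2c_lc.SizeDeg

open Finset Pool.Agent.MP_9cec2c_lc.ResPoly

variable {n : ℕ}

/-- The functions on the cube with values modulo 2. -/
abbrev Fn (n : ℕ) : Type := (Fin n → Bool) → ZMod 2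

/-- The point `x` is a common zero of `L`. -/
def Zero (L : Submodule (ZMod 2) (Fn n)) (x : Fin n → Bool) : Prop := ∀ l ∈ L, l x = 0

theorem two_eq : (2 : Fn n) = 0 := by
  funext x
  show (2 : ZMod 2) = 0
  decide

theorem zmod_two (a : ZMod 2) : a = 0 ∨ a = 1 := by
  revert a
  decide

theorem sq_fn (g : Fn n) : g * g = g := by
  funext x
  show g x * g x = g x
  rcases zmod_two (g x) with h | h <;> rw [h] <;> decide

/-- A linear functional on the functions of degree 1 with value 1 at 1 is a point. -/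
theorem exists_point (φ : Fn n →ₗ[ZMod 2] ZMod 2) (h1 : φ 1 = 1) :
    ∃ x : Fin n → Bool, ∀ g ∈ Pol (ZMod 2) n 1, φ g = g x := by
  refine ⟨fun i => decide (φ (mon (ZMod 2) {i}) = 1), fun g hg => ?_⟩
  induction hg using Submodule.span_induction with
  | mem g hg =>
    obtain ⟨M, hM, rfl⟩ := hg
    rcases M.eq_empty_or_nonempty with rfl | hMn
    · have h : (1 : Fn n) = mon (ZMod 2) ∅ := by
        funext x
        unfold mon
        rw [if_pos fun v hv => absurd hv (notMem_empty v)]
        rfl
      rw [← h, h1]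
      rfl
    · obtain ⟨i, rfl⟩ : ∃ i, M = {i} := card_eq_one.1 (le_antisymm hM hMn.card_pos)
      unfold mon
      by_cases h : φ (mon (ZMod 2) {i}) = 1
      · rw [if_pos]
        · exact h
        · intro v hv
          rw [mem_singleton.1 hv]
          exact decide_eq_true h
      · rw [if_neg]
        · rcases zmod_two (φ (mon (ZMod 2) {i})) with h2 | h2
          · exact h2
          · exact absurd h2 h
        · intro h2
          exact h (of_decide_eq_true (h2 i (mem_singleton_self i)))
  | zero =>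
    rw [map_zero]
    rfl
  | add g h _ _ hg hh =>
    rw [map_add, hg, hh]
    rfl
  | smul c g _ hg =>
    rw [map_smul, hg]
    rfl

/-- A space of functions of degree 1 without 1 has a common zero. -/
theorem exists_zero {L : Submodule (ZMod 2) (Fn n)} (hL : L ≤ Pol (ZMod 2) n 1)
    (h1 : (1 : Fn n) ∉ L) : ∃ x, Zero L x := by
  obtain ⟨f, hf1, hfL⟩ := Submodule.exists_le_ker_of_notMem h1
  have h2 : f 1 = 1 := by
    rcases zmod_two (f 1) with h | h
    · exact absurd h hf1
    · exact h
  obtain ⟨x, hx⟩ := exists_point f h2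
  refine ⟨x, fun l hl => ?_⟩
  rw [← hx l (hL hl)]
  exact LinearMap.mem_ker.1 (hfL hl)

theorem mem_sup_single {L : Submodule (ZMod 2) (Fn n)} {g f : Fn n}
    (hf : f ∈ L ⊔ Submodule.span (ZMod 2) {g}) : f ∈ L ∨ ∃ l ∈ L, f = l + g := by
  obtain ⟨l, hl, m, hm, rfl⟩ := Submodule.mem_sup.1 hf
  obtain ⟨c, rfl⟩ := Submodule.mem_span_singleton.1 hm
  rcases zmod_two c with h | h
  · left
    rw [h, zero_smul, add_zero]
    exact hl
  · right
    exact ⟨l, hl, by rw [h, one_smul]⟩

theorem sup_le_Pol {L : Submodule (ZMod 2) (Fn n)} (hL : L ≤ Pol (ZMod 2) n 1) {g : Fn n}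
    (hg : g ∈ Pol (ZMod 2) n 1) : L ⊔ Submodule.span (ZMod 2) {g} ≤ Pol (ZMod 2) n 1 := by
  refine sup_le hL ?_
  rw [Submodule.span_singleton_le_iff_mem]
  exact hg

theorem neg_fn (g : Fn n) : -g = g := by
  have h : g + g = 2 * g := by ring
  rw [two_eq, zero_mul] at h
  exact neg_eq_of_add_eq_zero_left h

/-- A function of degree 1 that vanishes at the common zeros is in the space. -/
theorem mem_of_zero {L : Submodule (ZMod 2) (Fn n)} (hL : L ≤ Pol (ZMod 2) n 1) {g : Fn n}
    (hg : g ∈ Pol (ZMod 2) n 1) (h : ∀ x, Zero L x → g x = 0) (h1 : (1 : Fn n) ∉ L) : g ∈ L := by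
  by_contra hgL
  have h2 : (1 : Fn n) ∉ L ⊔ Submodule.span (ZMod 2) {1 + g} := by
    intro h3
    rcases mem_sup_single h3 with h4 | ⟨l, hl, h4⟩
    · exact h1 h4
    · apply hgL
      have h5 : g = l := by
        have h6 : g = -g := (neg_fn g).symm
        have h7 : l = -g := by
          have h8 : l + (1 + g) - 1 = l + g := by ring
          rw [← h4, sub_self] at h8
          exact eq_neg_of_add_eq_zero_left h8.symm
        rw [h6, h7]
      rw [h5]
      exact hl
  obtain ⟨x, hx⟩ := exists_zero (sup_le_Pol hL (Submodule.add_mem _ (one_mem_Pol 1) hg)) h2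
  have h3 := h x fun l hl => hx l (Submodule.mem_sup_left hl)
  have h4 := hx (1 + g) (Submodule.mem_sup_right (Submodule.mem_span_singleton_self _))
  have h5 : (1 + g) x = 1 + g x := rfl
  rw [h5, h3, add_zero] at h4
  exact one_ne_zero h4

theorem finrank_sup_single_le (L : Submodule (ZMod 2) (Fn n)) (g : Fn n) :
    Module.finrank (ZMod 2) (L ⊔ Submodule.span (ZMod 2) {g} : Submodule (ZMod 2) (Fn n)) ≤
      Module.finrank (ZMod 2) L + 1 := by
  refine (Submodule.finrank_add_le_finrank_add_finrank _ _).trans ?_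
  refine Nat.add_le_add_left ?_ _
  refine (finrank_span_le_card ({g} : Set (Fn n))).trans ?_
  rw [Set.toFinset_singleton, card_singleton]

/-- Few spaces of large codimension do not cover. -/
theorem exists_uncovered (s : Finset (Submodule (ZMod 2) (Fn n)))
    (hs : ∀ L' ∈ s, L' ≤ Pol (ZMod 2) n 1) :
    ∀ L : Submodule (ZMod 2) (Fn n), L ≤ Pol (ZMod 2) n 1 → (1 : Fn n) ∉ L →
    (∀ L' ∈ s, Module.finrank (ZMod 2) L + s.card ≤
      Module.finrank (ZMod 2) (L' ⊔ L : Submodule (ZMod 2) (Fn n))) →
    ∃ x, Zero L x ∧ ∀ L' ∈ s, ¬ Zero L' x := by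
  classical
  induction s using Finset.induction_on with
  | empty =>
    intro L hL h1 _
    obtain ⟨x, hx⟩ := exists_zero hL h1
    exact ⟨x, hx, fun L' hL' => absurd hL' (notMem_empty _)⟩
  | insert L1 s hL1s ih =>
    intro L hL h1 hr
    have hL1 := hs L1 (mem_insert_self _ _)
    rw [card_insert_of_notMem hL1s] at hr
    by_cases hcase : L1 ≤ L ⊔ Submodule.span (ZMod 2) {1}
    · obtain ⟨g, hg, hgL⟩ : ∃ g ∈ L1, g ∉ L := by
        by_contra hcon
        push Not at hcon
        have h2 : L1 ⊔ L = L := sup_eq_right.2 hcon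
        have h3 := hr L1 (mem_insert_self _ _)
        rw [h2] at h3
        omega
      obtain ⟨x, hx, hxs⟩ := ih (fun L' hL' => hs L' (mem_insert_of_mem hL')) L hL h1
        (fun L' hL' => by
          have h3 := hr L' (mem_insert_of_mem hL')
          omega)
      refine ⟨x, hx, fun L' hL' => ?_⟩
      rcases mem_insert.1 hL' with rfl | hL'
      · intro hx'
        rcases mem_sup_single (hcase hg) with h3 | ⟨l, hl, h3⟩
        · exact hgL h3
        · have h4 := hx' g hg
          rw [h3] at h4
          have h5 : (l + 1) x = l x + 1 := rfl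
          rw [h5, hx l hl, zero_add] at h4
          exact one_ne_zero h4
      · exact hxs L' hL'
    · obtain ⟨g, hg, hgL⟩ : ∃ g ∈ L1, g ∉ L ⊔ Submodule.span (ZMod 2) {1} := by
        by_contra hcon
        push Not at hcon
        exact hcase hcon
      have hg1 : 1 + g ∈ Pol (ZMod 2) n 1 := Submodule.add_mem _ (one_mem_Pol 1) (hL1 hg)
      have h2 : (1 : Fn n) ∉ L ⊔ Submodule.span (ZMod 2) {1 + g} := by
        intro h3
        rcases mem_sup_single h3 with h4 | ⟨l, hl, h4⟩
        · exact h1 h4
        · apply hgL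
          have h5 : g = l := by
            have h6 : g = -g := (neg_fn g).symm
            have h7 : l = -g := by
              have h8 : l + (1 + g) - 1 = l + g := by ring
              rw [← h4, sub_self] at h8
              exact eq_neg_of_add_eq_zero_left h8.symm
            rw [h6, h7]
          rw [h5]
          exact Submodule.mem_sup_left hl
      obtain ⟨x, hx, hxs⟩ := ih (fun L' hL' => hs L' (mem_insert_of_mem hL'))
        (L ⊔ Submodule.span (ZMod 2) {1 + g}) (sup_le_Pol hL hg1) h2
        (fun L' hL' => by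
          have h3 := hr L' (mem_insert_of_mem hL')
          have h4 := finrank_sup_single_le L (1 + g)
          have h5 : Module.finrank (ZMod 2) (L' ⊔ L : Submodule (ZMod 2) (Fn n)) ≤
              Module.finrank (ZMod 2) (L' ⊔ (L ⊔ Submodule.span (ZMod 2) {1 + g}) :
                Submodule (ZMod 2) (Fn n)) :=
            Submodule.finrank_mono (sup_le_sup_left le_sup_left _)
          omega)
      refine ⟨x, fun l hl => hx l (Submodule.mem_sup_left hl), fun L' hL' => ?_⟩
      rcases mem_insert.1 hL' with rfl | hL'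
      · intro hx'
        have h3 := hx (1 + g) (Submodule.mem_sup_right (Submodule.mem_span_singleton_self _))
        have h5 : (1 + g) x = 1 + g x := rfl
        rw [h5, hx' g hg, add_zero] at h3
        exact one_ne_zero h3
      · exact hxs L' hL'

/-- The space `L` is implied by the spaces in `P`, by a case distinction of degree `c`. -/
def Cert (c : ℕ) (L : Submodule (ZMod 2) (Fn n)) (P : Set (Submodule (ZMod 2) (Fn n))) : Prop :=
  ∃ (m : ℕ) (j : Fin m → Submodule (ZMod 2) (Fn n)) (h : Fin m → Fn n), (∀ i, j i ∈ P) ∧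
    (∑ i, h i = 1) ∧ (∀ i, h i ∈ Pol (ZMod 2) n c) ∧ ∀ i, ∀ a ∈ j i, h i * a ∈ ideal c L

theorem ideal_mono {c c' : ℕ} (hc : c ≤ c') {L L' : Submodule (ZMod 2) (Fn n)} (hL : L ≤ L') :
    ideal c L ≤ ideal c' L' := by
  unfold ideal
  refine Submodule.span_mono ?_
  rintro f ⟨p, hp, l, hl, rfl⟩
  exact ⟨p, Poly_mono _ hc hp, l, hL hl, rfl⟩

theorem Cert.mono {c c' : ℕ} (hc : c ≤ c') {L : Submodule (ZMod 2) (Fn n)}
    {P : Set (Submodule (ZMod 2) (Fn n))} (h : Cert c L P) : Cert c' L P := by
  obtain ⟨m, j, h, h1, h2, h3, h4⟩ := h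
  exact ⟨m, j, h, h1, h2, fun i => Poly_mono _ hc (h3 i), fun i a ha =>
    ideal_mono hc le_rfl (h4 i a ha)⟩

theorem Cert.of_le {L L' : Submodule (ZMod 2) (Fn n)} {P : Set (Submodule (ZMod 2) (Fn n))}
    (hL' : L' ∈ P) (h : L' ≤ L) : Cert 1 L P := by
  refine ⟨1, fun _ => L', fun _ => 1, fun _ => hL', ?_, fun _ => one_mem_Pol _, fun _ a ha => ?_⟩
  · rw [Fin.sum_univ_one]
  · exact Submodule.subset_span ⟨1, one_mem_Pol _, a, h ha, rfl⟩

theorem Cert.of_one {L L' : Submodule (ZMod 2) (Fn n)} {P : Set (Submodule (ZMod 2) (Fn n))}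
    (hL' : L' ∈ P) (hL'1 : L' ≤ Pol (ZMod 2) n 1) (h : (1 : Fn n) ∈ L) : Cert 1 L P := by
  refine ⟨1, fun _ => L', fun _ => 1, fun _ => hL', ?_, fun _ => one_mem_Pol _, fun _ a ha => ?_⟩
  · rw [Fin.sum_univ_one]
  · exact Submodule.subset_span ⟨a, hL'1 ha, 1, h, mul_comm _ _⟩

theorem mul_ideal {c : ℕ} {L : Submodule (ZMod 2) (Fn n)} {g x : Fn n}
    (hg : g ∈ Pol (ZMod 2) n 1) (hx : x ∈ ideal c (L ⊔ Submodule.span (ZMod 2) {g})) :
    (1 + g) * x ∈ ideal (c + 1) L := by
  unfold ideal at hx
  induction hx using Submodule.span_induction with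
  | mem x hx =>
    obtain ⟨p, hp, l, hl, rfl⟩ := hx
    have hgp : (1 + g) * p ∈ Pol (ZMod 2) n (c + 1) := by
      rw [mul_comm]
      exact Poly_mul _ hp (Submodule.add_mem _ (one_mem_Pol 1) hg)
    rcases mem_sup_single hl with h1 | ⟨l', hl', rfl⟩
    · exact Submodule.subset_span ⟨(1 + g) * p, hgp, l, h1, (mul_assoc _ _ _).symm⟩
    · refine Submodule.subset_span ⟨(1 + g) * p, hgp, l', hl', ?_⟩
      have h2 : (1 + g) * (p * (l' + g)) = (1 + g) * p * l' + p * (g + g * g) := by ring
      have h3 : g + g * g = 2 * g := by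
        rw [sq_fn]
        ring
      rw [h2, h3, two_eq, zero_mul, mul_zero, add_zero]
  | zero =>
    rw [mul_zero]
    exact Submodule.zero_mem _
  | add x y _ _ hx hy =>
    rw [mul_add]
    exact Submodule.add_mem _ hx hy
  | smul a x _ hx =>
    rw [mul_smul_comm]
    exact Submodule.smul_mem _ _ hx

/-- Case distinction. -/
theorem Cert.case {c : ℕ} {L : Submodule (ZMod 2) (Fn n)}
    {P : Set (Submodule (ZMod 2) (Fn n))} {g : Fn n} (hg : g ∈ Pol (ZMod 2) n 1)
    (h0 : Cert c (L ⊔ Submodule.span (ZMod 2) {g}) P)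
    (h1 : Cert c (L ⊔ Submodule.span (ZMod 2) {1 + g}) P) : Cert (c + 1) L P := by
  obtain ⟨m0, j0, f0, a0, b0, c0, d0⟩ := h0
  obtain ⟨m1, j1, f1, a1, b1, c1, d1⟩ := h1
  have hg1 : 1 + g ∈ Pol (ZMod 2) n 1 := Submodule.add_mem _ (one_mem_Pol 1) hg
  have hgg : 1 + (1 + g) = g := by
    have h : 1 + (1 + g) = 2 + g := by ring
    rw [h, two_eq, zero_add]
  refine ⟨m0 + m1, Fin.append j0 j1,
    Fin.append (fun i => (1 + g) * f0 i) (fun i => g * f1 i), ?_, ?_, ?_, ?_⟩
  · intro i
    refine Fin.addCases (fun i => ?_) (fun i => ?_) i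
    · rw [Fin.append_left]
      exact a0 i
    · rw [Fin.append_right]
      exact a1 i
  · rw [Fin.sum_univ_add]
    simp only [Fin.append_left, Fin.append_right]
    rw [← mul_sum, ← mul_sum, b0, b1, mul_one, mul_one]
    have h : 1 + g + g = 1 + 2 * g := by ring
    rw [h, two_eq, zero_mul, add_zero]
  · intro i
    refine Fin.addCases (fun i => ?_) (fun i => ?_) i
    · rw [Fin.append_left, mul_comm]
      exact Poly_mul _ (c0 i) hg1
    · rw [Fin.append_right, mul_comm]
      exact Poly_mul _ (c1 i) hg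
  · intro i
    refine Fin.addCases (fun i => ?_) (fun i => ?_) i
    · rw [Fin.append_left, Fin.append_left]
      intro a ha
      rw [mul_assoc]
      exact mul_ideal hg (d0 i a ha)
    · rw [Fin.append_right, Fin.append_right]
      intro a ha
      rw [mul_assoc]
      have h := mul_ideal hg1 (d1 i a ha)
      rwa [hgg] at h

/-- A line that is implied by `a` lines has a case distinction of degree `a ^ 2 + 1`. -/
theorem exists_cert {P : Set (Submodule (ZMod 2) (Fn n))} (hPn : P.Nonempty)
    (hP : ∀ L' ∈ P, L' ≤ Pol (ZMod 2) n 1) (a : ℕ) :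
    ∀ s : Finset (Submodule (ZMod 2) (Fn n)), (∀ L' ∈ s, L' ∈ P) → s.card ≤ a →
    ∀ L : Submodule (ZMod 2) (Fn n), L ≤ Pol (ZMod 2) n 1 →
    (∀ x, Zero L x → ∃ L' ∈ s, Zero L' x) → Cert (a * a + 1) L P := by
  classical
  obtain ⟨L0, hL0⟩ := hPn
  induction a with
  | zero =>
    intro s _ hcard L hL hcov
    have hs0 : s = ∅ := card_eq_zero.1 (Nat.le_zero.1 hcard)
    refine Cert.mono (by omega) (Cert.of_one hL0 (hP L0 hL0) ?_)
    by_contra h1
    obtain ⟨x, hx⟩ := exists_zero hL h1
    obtain ⟨L', hL', _⟩ := hcov x hx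
    rw [hs0] at hL'
    exact notMem_empty _ hL'
  | succ a ih =>
    intro s hsP hcard L hL hcov
    have haa : (a + 1) * (a + 1) + 1 = a * a + 1 + (2 * a + 1) := by ring
    by_cases hsa : s.card ≤ a
    · exact Cert.mono (by omega) (ih s hsP hsa L hL hcov)
    by_cases h1 : (1 : Fn n) ∈ L
    · exact Cert.mono (by omega) (Cert.of_one hL0 (hP L0 hL0) h1)
    obtain ⟨L', hL', hrk⟩ : ∃ L' ∈ s, Module.finrank (ZMod 2) (L' ⊔ L :
        Submodule (ZMod 2) (Fn n)) ≤ Module.finrank (ZMod 2) L + a := by
      by_contra hcon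
      push Not at hcon
      obtain ⟨x, hx, hxs⟩ := exists_uncovered s (fun L' hL' => hP L' (hsP L' hL')) L hL h1
        (fun L' hL' => by
          have h2 := hcon L' hL'
          omega)
      obtain ⟨L', hL', hx'⟩ := hcov x hx
      exact hxs L' hL' hx'
    have hL'1 := hP L' (hsP L' hL')
    have key : ∀ d : ℕ, ∀ L : Submodule (ZMod 2) (Fn n), L ≤ Pol (ZMod 2) n 1 →
        (∀ x, Zero L x → ∃ L' ∈ s, Zero L' x) →
        Module.finrank (ZMod 2) (L' ⊔ L : Submodule (ZMod 2) (Fn n)) ≤
          Module.finrank (ZMod 2) L + d → Cert (d + (a * a + 1)) L P := by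
      intro d
      induction d with
      | zero =>
        intro L hL hcov hd
        have h2 : L = L' ⊔ L := Submodule.eq_of_le_of_finrank_le le_sup_right hd
        have h3 : L' ≤ L := by
          rw [h2]
          exact le_sup_left
        exact Cert.mono (by omega) (Cert.of_le (hsP L' hL') h3)
      | succ d ihd =>
        intro L hL hcov hd
        by_cases hle : L' ≤ L
        · exact Cert.mono (by omega) (Cert.of_le (hsP L' hL') hle)
        obtain ⟨g, hg, hgL⟩ : ∃ g ∈ L', g ∉ L := by
          by_contra hcon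
          push Not at hcon
          exact hle hcon
        have hg1 := hL'1 hg
        have h1g : 1 + g ∈ Pol (ZMod 2) n 1 := Submodule.add_mem _ (one_mem_Pol 1) hg1
        have hlt : Module.finrank (ZMod 2) L < Module.finrank (ZMod 2)
            (L ⊔ Submodule.span (ZMod 2) {g} : Submodule (ZMod 2) (Fn n)) := by
          refine Submodule.finrank_lt_finrank_of_lt (lt_of_le_of_ne le_sup_left fun he => hgL ?_)
          rw [he]
          exact Submodule.mem_sup_right (Submodule.mem_span_singleton_self _)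
        have hsup : L' ⊔ (L ⊔ Submodule.span (ZMod 2) {g}) = L' ⊔ L := by
          refine le_antisymm (sup_le le_sup_left (sup_le le_sup_right ?_))
            (sup_le le_sup_left (le_sup_left.trans le_sup_right))
          rw [Submodule.span_singleton_le_iff_mem]
          exact Submodule.mem_sup_left hg
        have hA : Cert (d + (a * a + 1)) (L ⊔ Submodule.span (ZMod 2) {g}) P := by
          refine ihd _ (sup_le_Pol hL hg1) (fun x hx =>
            hcov x fun l hl => hx l (Submodule.mem_sup_left hl)) ?_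
          rw [hsup]
          omega
        have hB : Cert (a * a + 1) (L ⊔ Submodule.span (ZMod 2) {1 + g}) P := by
          refine ih (s.erase L') (fun L'' hL'' => hsP L'' (mem_of_mem_erase hL'')) ?_ _
            (sup_le_Pol hL h1g) (fun x hx => ?_)
          · rw [card_erase_of_mem hL']
            omega
          · obtain ⟨L'', hL'', hx''⟩ := hcov x fun l hl => hx l (Submodule.mem_sup_left hl)
            refine ⟨L'', mem_erase.2 ⟨?_, hL''⟩, hx''⟩
            rintro rfl
            have h3 := hx (1 + g) (Submodule.mem_sup_right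
              (Submodule.mem_span_singleton_self _))
            have h5 : (1 + g) x = 1 + g x := rfl
            rw [h5, hx'' g hg, add_zero] at h3
            exact one_ne_zero h3
        have hC := Cert.case hg1 hA (Cert.mono (by omega) hB)
        exact Cert.mono (by omega) hC
    exact Cert.mono (by omega) (key a L hL hcov hrk)

end Pool.Agent.MP_9cec2c_lc.SizeDeg
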