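import Pool.Agent.Lib.MP_9cec2c_lc.Mg.G041
import Pool.Agent.Lib.MP_9cec2c_lc.SDParity

/-!
The number of the lines of a refutation in resolution over parities and the degree in the
polynomial calculus modulo 2.
-/

set_option autoImplicit false
set_option linter.unusedSectionVars false

namespace Pool.Agent.MP_9cec2c_lc.SizeDeg

open Finset ResPoly Lift

variable {n : ℕ}

section PC

variable (K : Type) [Field K]

/-- The functions derivable in degree `D`, with zero. -/
def pcs (F : Finset (Clause n)) (D : ℕ) : Submodule K ((Fin n → Bool) → K) :=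
  Submodule.span K {p | PC K F D p}

theorem mem_pcs {F : Finset (Clause n)} {D : ℕ} {p : (Fin n → Bool) → K}
    (hp : p ∈ pcs K F D) : p = 0 ∨ PC K F D p := by
  unfold pcs at hp
  induction hp using Submodule.span_induction with
  | mem p hp => exact Or.inr hp
  | zero => exact Or.inl rfl
  | add p q _ _ hp hq =>
    rcases hp with rfl | hp
    · rcases hq with rfl | hq
      · exact Or.inl (add_zero 0)
      · exact Or.inr (by rwa [zero_add])
    · rcases hq with rfl | hq
      · exact Or.inr (by rwa [add_zero])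
      · exact Or.inr (PC.add _ _ hp hq)
  | smul a p _ hp =>
    rcases hp with rfl | hp
    · exact Or.inl (smul_zero a)
    · exact Or.inr (PC.smul _ _ hp)

theorem pcs_mul {F : Finset (Clause n)} {D : ℕ} (i : Fin n) (a : ℕ)
    (p : (Fin n → Bool) → K) (hp : p ∈ pcs K F D) (hpa : p ∈ Pol K n a) (ha : a + 1 ≤ D) :
    mon K {i} * p ∈ pcs K F D := by
  rcases mem_pcs K hp with rfl | h
  · rw [mul_zero]
    exact Submodule.zero_mem _
  · exact Submodule.subset_span (PC.mul i a p h hpa ha)

theorem one_notMem_pcs {F : Finset (Clause n)} {D : ℕ} (h : ¬ PC K F D 1) :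
    (1 : (Fin n → Bool) → K) ∉ pcs K F D := by
  intro h1
  rcases mem_pcs K h1 with h2 | h2
  · exact one_ne_zero (congrFun h2 fun _ => false)
  · exact h h2

theorem pcs_mon {F : Finset (Clause n)} {D : ℕ} (M : Finset (Fin n)) :
    ∀ (a : ℕ) (p : (Fin n → Bool) → K), p ∈ pcs K F D → p ∈ Pol K n a → a + M.card ≤ D →
      mon K M * p ∈ pcs K F D := by
  classical
  induction M using Finset.induction_on with
  | empty =>
    intro a p hp _ _
    have h : mon K (∅ : Finset (Fin n)) = 1 := by
      funext x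
      unfold mon
      rw [if_pos fun v hv => absurd hv (notMem_empty v)]
      rfl
    rwa [h, one_mul]
  | insert i M hi ih =>
    intro a p hp hpa hD
    rw [card_insert_of_notMem hi] at hD
    have h1 : mon K (insert i M) * p = mon K {i} * (mon K M * p) := by
      rw [← mul_assoc, mon_mul, insert_eq]
    rw [h1]
    refine pcs_mul K i (M.card + a) _ (ih a p hp hpa (by omega)) ?_ (by omega)
    exact Poly_mul K (mon_mem_Poly K le_rfl) hpa

theorem pcs_closed (F : Finset (Clause n)) (D : ℕ) : Closed (pcs K F D) D := by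
  intro a b p g hab hp hpa hg
  unfold Pol ResPoly.Poly at hg
  induction hg using Submodule.span_induction with
  | mem g hg =>
    obtain ⟨M, hM, rfl⟩ := hg
    rw [mul_comm]
    exact pcs_mon K M a p hp hpa (by omega)
  | zero =>
    rw [mul_zero]
    exact Submodule.zero_mem _
  | add g h _ _ hg hh =>
    rw [mul_add]
    exact Submodule.add_mem _ hg hh
  | smul c g _ hg =>
    rw [mul_smul_comm]
    exact Submodule.smul_mem _ _ hg

end PC

/-- The function of a literal. -/
def litFn (l : Fin n × Bool) : Fn n :=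
  if l.2 = true then mon (ZMod 2) {l.1} else 1 + mon (ZMod 2) {l.1}

theorem litFn_mem (l : Fin n × Bool) : litFn l ∈ Pol (ZMod 2) n 1 := by
  have h : mon (ZMod 2) {l.1} ∈ Pol (ZMod 2) n 1 := mon_mem_Poly _ (card_singleton _).le
  unfold litFn
  split_ifs
  · exact h
  · exact Submodule.add_mem _ (one_mem_Pol 1) h

theorem litFn_apply (l : Fin n × Bool) (x : Fin n → Bool) :
    litFn l x = if x l.1 = l.2 then 1 else 0 := by
  obtain ⟨v, s⟩ := l
  have h2 : mon (ZMod 2) {v} x = if x v = true then 1 else 0 := by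
    unfold mon
    exact if_congr (by simp) rfl rfl
  unfold litFn
  cases s with
  | false =>
    rw [if_neg (by simp), Pi.add_apply, Pi.one_apply, h2]
    cases x v
    · simp
    · simp only [if_true, Bool.true_eq_false, if_false]
      decide
  | true =>
    rw [if_pos rfl, h2]

theorem prod_lit (C : Clause n) : ∏ l ∈ C, (1 - litFn l) = clausePoly (ZMod 2) C := by
  classical
  funext x
  rw [Finset.prod_apply]
  unfold clausePoly
  by_cases h3 : FalseAt C x
  · rw [if_pos h3]
    refine prod_eq_one fun l hl => ?_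
    rw [Pi.sub_apply, Pi.one_apply, litFn_apply, if_neg (h3 l hl), sub_zero]
  · rw [if_neg h3]
    unfold FalseAt at h3
    push Not at h3
    obtain ⟨l, hl, hx⟩ := h3
    refine prod_eq_zero hl ?_
    rw [Pi.sub_apply, Pi.one_apply, litFn_apply, if_pos hx, sub_self]

/-- The dimension of the functions of degree 1. -/
theorem finrank_Pol_one {L : Submodule (ZMod 2) (Fn n)} (hL : L ≤ Pol (ZMod 2) n 1) :
    Module.finrank (ZMod 2) L ≤ n + 1 := by
  classical
  refine (Submodule.finrank_mono hL).trans ?_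
  have h1 : Pol (ZMod 2) n 1 ≤ Submodule.span (ZMod 2)
      ((insert (mon (ZMod 2) ∅) (univ.image fun i : Fin n => mon (ZMod 2) {i}) :
        Finset (Fn n)) : Set (Fn n)) := by
    unfold Pol ResPoly.Poly
    refine Submodule.span_mono ?_
    rintro f ⟨M, hM, rfl⟩
    rw [mem_coe, mem_insert]
    rcases M.eq_empty_or_nonempty with rfl | hMn
    · exact Or.inl rfl
    · obtain ⟨i, rfl⟩ : ∃ i, M = {i} := card_eq_one.1 (le_antisymm hM hMn.card_pos)
      exact Or.inr (mem_image_of_mem _ (mem_univ i))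
  refine (Submodule.finrank_mono h1).trans ?_
  refine (finrank_span_finset_le_card _).trans ?_
  refine (card_insert_le _ _).trans ?_
  refine Nat.add_le_add_right (card_image_le.trans ?_) 1
  rw [card_univ, Fintype.card_fin]

theorem zero_iff {G : Set (Fn n)} {x : Fin n → Bool} :
    Zero (Submodule.span (ZMod 2) G) x ↔ ¬ Holds G x := by
  unfold Zero Holds
  constructor
  · rintro h ⟨g, hg, hgx⟩
    exact hgx (h g (Submodule.subset_span hg))
  · intro h l hl
    push Not at h
    induction hl using Submodule.span_induction with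
    | mem g hg => exact h g hg
    | zero => rfl
    | add f g _ _ hf hg =>
      show f x + g x = 0
      rw [hf, hg, add_zero]
    | smul c f _ hf =>
      show c • f x = 0
      rw [hf, smul_zero]

/-- A refutation with few lines gives a derivation of small degree. -/
theorem parity_core {F : Finset (Clause n)} {w r S D e k : ℕ} (hw : ∀ C ∈ F, C.card ≤ w)
    (hPC : ¬ PC (ZMod 2) F D 1) (π : ParityRefutation F r S)
    (hD1 : e + 2 + k + (w + 1) ≤ D) (hD2 : e + 2 + 2 * k + 1 + (r * r + 1) ≤ D)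
    (hcount : S * ((n + 1) * (e + 1 + 2 * n) ^ k) < (2 * (e + 1 + n)) ^ k) : False := by
  classical
  obtain ⟨L, hL⟩ : ∃ L : Fin S → Submodule (ZMod 2) (Fn n),
      L = fun i => Submodule.span (ZMod 2) (π.line i) := ⟨_, rfl⟩
  have hL1 : ∀ i, L i ≤ Pol (ZMod 2) n 1 := by
    intro i
    rw [hL, Submodule.span_le]
    exact π.line_deg i
  have hz : ∀ i x, Zero (L i) x ↔ ¬ Holds (π.line i) x := by
    intro i x
    rw [hL]
    exact zero_iff
  have hone : ∀ i, (1 : Fn n) ∈ L i → ∃ (ι : Type) (Z : Finset ι) (l : ι → Fn n),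
      Z.card ≤ w + 1 ∧ (∀ v ∈ Z, l v ∈ Pol (ZMod 2) n 1) ∧ (∀ v ∈ Z, l v ∈ L i) ∧
        ∏ v ∈ Z, (1 - l v) ∈ pcs (ZMod 2) F D := by
    intro i hi
    refine ⟨Unit, {()}, fun _ => 1, ?_, fun _ _ => one_mem_Pol _, fun _ _ => hi, ?_⟩
    · rw [card_singleton]
      omega
    · rw [prod_singleton, sub_self]
      exact Submodule.zero_mem _
  have hcard2 : Fintype.card (ZMod 2) = 2 := ZMod.card 2
  refine no_small_refutation (pcs_closed (ZMod 2) F D) (one_notMem_pcs (ZMod 2) hPC)
    (rel := fun i j : Fin S => i < j) (wellFounded_lt) (L := L) (e := e) (t := 1)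
    (c := r * r + 1) (k := k) (w := w + 1) (N := n + 1) hL1 (fun i => finrank_Pol_one (hL1 i))
    ?_ ?_ ?_ ?_ ?_
  · rw [hcard2]
    omega
  · rw [hcard2]
    omega
  · rw [Fintype.card_fin, pow_one, pow_one]
    exact hcount
  · intro i
    by_cases h1 : (1 : Fn n) ∈ L i
    · exact Or.inl (hone i h1)
    rcases π.rule i with ⟨C, hC, hCi⟩ | ⟨s, hs, hsi, himp⟩
    · left
      refine ⟨Fin n × Bool, C, litFn, (hw C hC).trans (by omega), fun l _ => litFn_mem l,
        fun l hl => ?_, ?_⟩
      · refine mem_of_zero (hL1 i) (litFn_mem l) (fun x hx => ?_) h1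
        have h2 : FalseAt C x := by
          by_contra h3
          exact (hz i x).1 hx (hCi x h3)
        rw [litFn_apply, if_neg (h2 l hl)]
      · rw [prod_lit]
        refine Submodule.subset_span (PC.ax C hC ?_)
        have := hw C hC
        omega
    · rcases s.eq_empty_or_nonempty with rfl | hsn
      · exfalso
        obtain ⟨x, hx⟩ := exists_zero (hL1 i) h1
        exact (hz i x).1 hx (himp x fun j hj => absurd hj (notMem_empty j))
      · right
        obtain ⟨j0, hj0⟩ := hsn
        obtain ⟨m, j, h, h1, h2, h3, h4⟩ := exists_cert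
          (P := {L' | ∃ j ∈ s, L' = L j}) ⟨L j0, j0, hj0, rfl⟩
          (by
            rintro L' ⟨j, _, rfl⟩
            exact hL1 j) r (s.image L)
          (by
            intro L' hL'
            obtain ⟨j, hj, rfl⟩ := mem_image.1 hL'
            exact ⟨j, hj, rfl⟩) (card_image_le.trans hs) (L i) (hL1 i)
          (by
            intro x hx
            by_contra hcon
            push Not at hcon
            refine (hz i x).1 hx (himp x fun j hj => ?_)
            by_contra h5
            exact hcon (L j) (mem_image_of_mem _ hj) ((hz j x).2 h5))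
        choose j' hj's hj' using h1
        refine ⟨m, j', h, fun l => hsi _ (hj's l), h2, h3, fun l a ha => h4 l a ?_⟩
        rw [hj' l]
        exact ha
  · obtain ⟨i, hi⟩ := π.last
    refine ⟨i, (Submodule.eq_bot_iff _).2 fun l hl => ?_⟩
    funext x
    exact (hz i x).2 (hi x) l hl

theorem two_pow_le {A B q : ℕ} (hA : 0 < A) (hq : A ≤ q * B) :
    2 * A ^ q ≤ (A + B) ^ q := by
  have h1 : (1 : ℝ) + q * ((B : ℝ) / A) ≤ (1 + (B : ℝ) / A) ^ q :=
    one_add_mul_le_pow (by
      have : (0 : ℝ) ≤ (B : ℝ) / A := by positivity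
      linarith) q
  have hA' : (0 : ℝ) < A := by exact_mod_cast hA
  have h2 : (1 : ℝ) ≤ q * ((B : ℝ) / A) := by
    rw [← mul_div_assoc, le_div_iff₀ hA', one_mul]
    exact_mod_cast hq
  have h3 : (2 : ℝ) * (A : ℝ) ^ q ≤ ((A : ℝ) + B) ^ q := by
    have h4 : ((A : ℝ) + B) = A * (1 + (B : ℝ) / A) := by
      rw [mul_add, mul_one, mul_div_cancel₀ _ hA'.ne']
    rw [h4, mul_pow, mul_comm]
    refine mul_le_mul_of_nonneg_left ?_ (by positivity)
    linarith
  exact_mod_cast h3

theorem pow_two_le {A B q k m : ℕ} (hA : 0 < A) (hq : A ≤ q * B) (hm : m * q ≤ k) :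
    2 ^ m * A ^ k ≤ (A + B) ^ k := by
  have h1 : k = q * m + (k - m * q) := by
    rw [mul_comm q m]
    omega
  obtain ⟨l, hl⟩ : ∃ l, l = k - m * q := ⟨_, rfl⟩
  rw [← hl] at h1
  rw [h1, pow_add, pow_add, pow_mul, pow_mul, ← mul_assoc, ← mul_pow]
  exact Nat.mul_le_mul (Nat.pow_le_pow_left (two_pow_le hA hq) m)
    (Nat.pow_le_pow_left (Nat.le_add_right A B) l)

/-- **Size and degree** for resolution over parities. -/
theorem size_degree {F : Finset (Clause n)} {w r S D : ℕ} (hw : ∀ C ∈ F, C.card ≤ w)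
    (hDn : D ≤ n) (hPC : ¬ PC (ZMod 2) F D 1) (π : ParityRefutation F r S) :
    2 ^ ((D - (w + r ^ 2 + 4)) ^ 2 / (40 * n)) ≤ (n + 1) * S := by
  obtain ⟨i0, -⟩ := π.last
  have hS : 0 < S := Fin.pos i0
  obtain ⟨E, hE⟩ : ∃ E, E = D - (w + r ^ 2 + 4) := ⟨_, rfl⟩
  obtain ⟨m, hm⟩ : ∃ m, m = E ^ 2 / (40 * n) := ⟨_, rfl⟩
  rw [← hE, ← hm]
  rcases Nat.eq_zero_or_pos m with hm0 | hm0
  · rw [hm0, pow_zero]
    exact Nat.mul_pos (Nat.succ_pos n) hS
  have hmE : m * (40 * n) ≤ E ^ 2 := by
    rw [hm]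
    exact Nat.div_mul_le_self _ _
  have hn : 0 < n := by
    rcases Nat.eq_zero_or_pos n with h | h
    · rw [hm, h, mul_zero, Nat.div_zero] at hm0
      exact absurd hm0 (lt_irrefl 0)
    · exact h
  have hE0 : 0 < E := by
    rcases Nat.eq_zero_or_pos E with h | h
    · rw [hm, h] at hm0
      norm_num at hm0
    · exact h
  have hEn : E + 4 ≤ n := by omega
  have hE40 : 40 ≤ E := by
    by_contra hcon
    have h1 : E * E < 40 * E := Nat.mul_lt_mul_of_pos_right (by omega) hE0
    have h2 : 1 * (40 * E) ≤ m * (40 * n) := Nat.mul_le_mul hm0 (by omega)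
    rw [pow_two] at hmE
    omega
  by_contra hcon
  push Not at hcon
  obtain ⟨k, hk⟩ : ∃ k, k = E / 4 := ⟨_, rfl⟩
  obtain ⟨e, he⟩ : ∃ e, e = E - 2 * k := ⟨_, rfl⟩
  obtain ⟨B, hB⟩ : ∃ B, B = e + 1 := ⟨_, rfl⟩
  obtain ⟨A, hA⟩ : ∃ A, A = e + 1 + 2 * n := ⟨_, rfl⟩
  have hB0 : 0 < B := by omega
  have hA0 : 0 < A := by omega
  have hAB : A + B ≤ 4 * n := by omega
  have hk4 : E ≤ 4 * k + 3 := by omega
  have he2 : E + 2 ≤ 2 * B := by omega
  have hkB : m * (A + B) ≤ k * B := by
    have h1 : 10 * (m * (A + B)) ≤ E ^ 2 := by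
      refine le_trans ?_ hmE
      calc 10 * (m * (A + B)) ≤ 10 * (m * (4 * n)) :=
            Nat.mul_le_mul_left _ (Nat.mul_le_mul_left _ hAB)
        _ = m * (40 * n) := by ring
    have h2 : (E - 3) * (E + 2) ≤ 4 * k * (2 * B) := Nat.mul_le_mul (by omega) he2
    obtain ⟨E', hE'⟩ : ∃ E', E = E' + 3 := ⟨E - 3, by omega⟩
    rw [hE', Nat.add_sub_cancel] at h2
    rw [hE'] at h1
    have h3 : 37 ≤ E' := by omega
    nlinarith
  obtain ⟨q, hq⟩ : ∃ q, q = A / B + 1 := ⟨_, rfl⟩
  have hq1 : A ≤ q * B := by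
    rw [hq]
    have h1 := Nat.lt_div_mul_add (a := A) hB0
    rw [add_mul, one_mul]
    omega
  have hq2 : q * B ≤ A + B := by
    rw [hq, add_mul, one_mul]
    exact Nat.add_le_add_right (Nat.div_mul_le_self A B) B
  have hmq : m * q ≤ k := by
    refine Nat.le_of_mul_le_mul_right (c := B) ?_ hB0
    calc m * q * B = m * (q * B) := by ring
      _ ≤ m * (A + B) := Nat.mul_le_mul_left _ hq2
      _ ≤ k * B := hkB
  have h1 := pow_two_le hA0 hq1 hmq
  refine parity_core (e := e) (k := k) hw hPC π ?_ ?_ ?_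
  · have : r ^ 2 = r * r := pow_two r
    omega
  · have : r ^ 2 = r * r := pow_two r
    omega
  · have h2 : 2 * (e + 1 + n) = A + B := by omega
    rw [h2, ← hA]
    calc S * ((n + 1) * A ^ k) = (n + 1) * S * A ^ k := by ring
      _ < 2 ^ m * A ^ k := Nat.mul_lt_mul_of_pos_right hcon (pow_pos hA0 k)
      _ ≤ (A + B) ^ k := h1

end Pool.Agent.MP_9cec2c_lc.SizeDeg
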