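import Pool.Agent.Lib.MP_9cec2c_lc.Mg.G040

/-!
Closures of sets of variables, and the operator that reduces monomials modulo the clauses of their
closures.
-/

set_option autoImplicit false
set_option linter.unusedSectionVars false

namespace Pool.Agent.MP_9cec2c_lc.ResPoly

open Finset

variable {n : ℕ} (K : Type) [Field K]

/-! ### Substitutions -/

/-- Set the variable `v` to `b`. -/
def setVar (v : Fin n) (b : Bool) (f : (Fin n → Bool) → K) : (Fin n → Bool) → K :=
  fun x => f (Function.update x v b)

theorem setVar_mon_of_notMem {v : Fin n} {b : Bool} {M : Finset (Fin n)} (h : v ∉ M) :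
    setVar K v b (mon K M) = mon K M := by
  funext x
  unfold setVar mon
  congr 1
  apply propext
  constructor
  · intro h1 u hu
    have := h1 u hu
    rwa [Function.update_of_ne (ne_of_mem_of_not_mem hu h)] at this
  · intro h1 u hu
    rw [Function.update_of_ne (ne_of_mem_of_not_mem hu h)]
    exact h1 u hu

theorem setVar_mon_true {v : Fin n} {M : Finset (Fin n)} :
    setVar K v true (mon K M) = mon K (M.erase v) := by
  funext x
  unfold setVar mon
  congr 1
  apply propext
  constructor
  · intro h1 u hu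
    have := h1 u (mem_of_mem_erase hu)
    rwa [Function.update_of_ne (ne_of_mem_erase hu)] at this
  · intro h1 u hu
    by_cases huv : u = v
    · rw [huv, Function.update_self]
    · rw [Function.update_of_ne huv]
      exact h1 u (mem_erase.2 ⟨huv, hu⟩)

theorem setVar_mon_false {v : Fin n} {M : Finset (Fin n)} (h : v ∈ M) :
    setVar K v false (mon K M) = 0 := by
  funext x
  unfold setVar mon
  rw [if_neg]
  · rfl
  · intro h1
    have := h1 v h
    rw [Function.update_self] at this
    exact absurd this (by simp)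

theorem setVar_low {v : Fin n} {b : Bool} {M : Finset (Fin n)} {q : (Fin n → Bool) → K}
    (hq : q ∈ low K M) : setVar K v b q ∈ low K M := by
  unfold low at hq
  induction hq using Submodule.span_induction with
  | mem f hf =>
    obtain ⟨M', h1, rfl⟩ := hf
    cases b
    · by_cases hv : v ∈ M'
      · rw [setVar_mon_false K hv]
        exact Submodule.zero_mem _
      · rw [setVar_mon_of_notMem K hv]
        exact Submodule.subset_span ⟨M', h1, rfl⟩
    · rw [setVar_mon_true]
      exact Submodule.subset_span ⟨M'.erase v, (key_mono (erase_subset v M')).trans_lt h1, rfl⟩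
  | zero => exact Submodule.zero_mem _
  | add f g _ _ hf hg => exact Submodule.add_mem _ hf hg
  | smul c f _ hf => exact Submodule.smul_mem _ c hf

/-- Set the variables outside `W` to 0. -/
def outZero (W : Finset (Fin n)) : ((Fin n → Bool) → K) →ₗ[K] ((Fin n → Bool) → K) where
  toFun f := fun x => f (fun v => if v ∈ W then x v else false)
  map_add' _ _ := rfl
  map_smul' _ _ := rfl

theorem outZero_mon {W M : Finset (Fin n)} :
    outZero K W (mon K M) = if M ⊆ W then mon K M else 0 := by
  funext x
  show mon K M (fun v => if v ∈ W then x v else false) = _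
  by_cases h : M ⊆ W
  · rw [if_pos h]
    unfold mon
    congr 1
    apply propext
    constructor
    · intro h1 u hu
      have h2 : (if u ∈ W then x u else false) = true := h1 u hu
      rwa [if_pos (h hu)] at h2
    · intro h1 u hu
      show (if u ∈ W then x u else false) = true
      rw [if_pos (h hu)]
      exact h1 u hu
  · rw [if_neg h]
    obtain ⟨v, hv, hvW⟩ := not_subset.1 h
    unfold mon
    rw [if_neg]
    · rfl
    · intro h1
      have h2 : (if v ∈ W then x v else false) = true := h1 v hv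
      rw [if_neg hvW] at h2
      exact absurd h2 (by simp)

/-! ### Clauses -/

variable {ι : Type} [DecidableEq ι] [Fintype ι]

/-- The points that satisfy the clauses in `I`. The clause `i` is falsified exactly by the points
that agree with `a i` on `Z i`. -/
def SatI (Z : ι → Finset (Fin n)) (a : ι → Fin n → Bool) (I : Finset ι) : Set (Fin n → Bool) :=
  {x | ∀ i ∈ I, ∃ v ∈ Z i, x v ≠ a i v}

theorem SatI_anti {Z : ι → Finset (Fin n)} {a : ι → Fin n → Bool} {I J : Finset ι} (h : J ⊆ I) :
    SatI Z a I ⊆ SatI Z a J := fun _ hx i hi => hx i (h hi)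

/-- Peeling of a clause with a private variable. -/
theorem std_peel {Z : ι → Finset (Fin n)} {a : ι → Fin n → Bool} {I : Finset ι} {i : ι}
    {v : Fin n} {M : Finset (Fin n)} (hv : v ∈ Z i) (hvM : v ∉ M)
    (hvI : v ∉ (I.erase i).biUnion Z) (hM : Std K (SatI Z a (I.erase i)) M) :
    Std K (SatI Z a I) M := by
  intro hcon
  apply hM
  obtain ⟨q, hq, g, hg, hqg⟩ := Submodule.mem_sup.1 hcon
  refine Submodule.mem_sup.2 ⟨setVar K v (!a i v) q, setVar_low K hq,
    setVar K v (!a i v) g, ?_, ?_⟩
  · intro x hx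
    refine hg _ fun j hj => ?_
    by_cases hji : j = i
    · refine ⟨v, hji ▸ hv, ?_⟩
      rw [Function.update_self, hji]
      cases a i v <;> simp
    · obtain ⟨u, hu, hux⟩ := hx j (mem_erase.2 ⟨hji, hj⟩)
      refine ⟨u, hu, ?_⟩
      rw [Function.update_of_ne]
      · exact hux
      · rintro rfl
        exact hvI (mem_biUnion.2 ⟨j, mem_erase.2 ⟨hji, hj⟩, hu⟩)
  · have h1 : setVar K v (!a i v) (q + g) = mon K M := by
      rw [hqg]
      exact setVar_mon_of_notMem K hvM
    rw [← h1]
    rfl

/-- The normal form of a monomial uses few variables. -/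
theorem nf_support {Z : ι → Finset (Fin n)} {a : ι → Fin n → Bool} {J : Finset ι}
    {T : Finset (Fin n)} {r : (Fin n → Bool) → K}
    (hr : r ∈ stdSpan K (SatI Z a J) (fun M => key M ≤ key T))
    (hv : mon K T - r ∈ van K (SatI Z a J)) :
    r ∈ stdSpan K (SatI Z a J) (fun M => M ⊆ T ∪ J.biUnion Z ∧ key M ≤ key T) := by
  obtain ⟨W, hW⟩ : ∃ W, W = T ∪ J.biUnion Z := ⟨_, rfl⟩
  have h1 : ∀ r ∈ stdSpan K (SatI Z a J) (fun M => key M ≤ key T),
      outZero K W r ∈ stdSpan K (SatI Z a J) (fun M => M ⊆ W ∧ key M ≤ key T) := by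
    intro r hr
    unfold stdSpan at hr
    induction hr using Submodule.span_induction with
    | mem f hf =>
      obtain ⟨M, h1, h2, rfl⟩ := hf
      rw [outZero_mon]
      by_cases h : M ⊆ W
      · rw [if_pos h]
        exact Submodule.subset_span ⟨M, h1, ⟨h, h2⟩, rfl⟩
      · rw [if_neg h]
        exact Submodule.zero_mem _
    | zero =>
      rw [map_zero]
      exact Submodule.zero_mem _
    | add f g _ _ hf hg =>
      rw [map_add]
      exact Submodule.add_mem _ hf hg
    | smul c f _ hf =>
      rw [map_smul]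
      exact Submodule.smul_mem _ c hf
  have h2 : outZero K W (mon K T) = mon K T := by
    rw [outZero_mon, if_pos]
    rw [hW]
    exact subset_union_left
  have h3 : mon K T - outZero K W r ∈ van K (SatI Z a J) := by
    rw [← h2, ← map_sub]
    intro x hx
    refine hv _ fun i hi => ?_
    obtain ⟨u, hu, hux⟩ := hx i hi
    refine ⟨u, hu, ?_⟩
    have hu' : u ∈ W := by
      rw [hW]
      exact mem_union_right _ (mem_biUnion.2 ⟨i, hi, hu⟩)
    show (if u ∈ W then x u else false) ≠ a i u
    rw [if_pos hu']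
    exact hux
  have h4 : r = outZero K W r :=
    NF.unique K (E := SatI Z a J) ⟨stdSpan_mono K (fun _ _ => trivial) hr, hv⟩
      ⟨stdSpan_mono K (fun _ _ => trivial) (h1 r hr), h3⟩ (by
        rw [sub_self]
        exact Submodule.zero_mem _)
  rw [← hW, h4]
  exact h1 r hr

/-! ### Closures -/

/-- The variables in exactly one clause of `I`. -/
def bd (Z : ι → Finset (Fin n)) (I : Finset ι) : Finset (Fin n) :=
  univ.filter fun v => ∃ i ∈ I, v ∈ Z i ∧ ∀ j ∈ I, v ∈ Z j → j = i

theorem mem_bd {Z : ι → Finset (Fin n)} {I : Finset ι} {v : Fin n} :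
    v ∈ bd Z I ↔ ∃ i ∈ I, v ∈ Z i ∧ ∀ j ∈ I, v ∈ Z j → j = i := by
  unfold bd
  rw [mem_filter, and_iff_right (mem_univ v)]

theorem bd_union_subset (Z : ι → Finset (Fin n)) (I J : Finset ι) :
    bd Z (I ∪ J) ⊆ bd Z I ∪ bd Z J := by
  intro v hv
  obtain ⟨i, hi, hvi, hu⟩ := mem_bd.1 hv
  rcases mem_union.1 hi with h | h
  · exact mem_union_left _ (mem_bd.2 ⟨i, h, hvi, fun j hj => hu j (mem_union_left _ hj)⟩)
  · exact mem_union_right _ (mem_bd.2 ⟨i, h, hvi, fun j hj => hu j (mem_union_right _ hj)⟩)

/-- The clauses in the contained sets of size at most `r`. -/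
noncomputable def Cl (Z : ι → Finset (Fin n)) (r : ℕ) (T : Finset (Fin n)) : Finset ι :=
  open Classical in univ.filter fun i => ∃ I : Finset ι, I.card ≤ r ∧ bd Z I ⊆ T ∧ i ∈ I

theorem mem_Cl {Z : ι → Finset (Fin n)} {r : ℕ} {T : Finset (Fin n)} {i : ι} :
    i ∈ Cl Z r T ↔ ∃ I : Finset ι, I.card ≤ r ∧ bd Z I ⊆ T ∧ i ∈ I := by
  unfold Cl
  rw [mem_filter, and_iff_right (mem_univ i)]

theorem subset_Cl {Z : ι → Finset (Fin n)} {r : ℕ} {T : Finset (Fin n)} {I : Finset ι}
    (h : I.card ≤ r) (hT : bd Z I ⊆ T) : I ⊆ Cl Z r T :=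
  fun _ hi => mem_Cl.2 ⟨I, h, hT, hi⟩

theorem Cl_mono {Z : ι → Finset (Fin n)} {r : ℕ} {T T' : Finset (Fin n)} (h : T ⊆ T') :
    Cl Z r T ⊆ Cl Z r T' := by
  intro i hi
  obtain ⟨I, h1, h2, h3⟩ := mem_Cl.1 hi
  exact mem_Cl.2 ⟨I, h1, h2.trans h, h3⟩

/-- Sets of at most `r` clauses with at most `D` private variables have at most `r / 4` clauses. -/
def Tight (Z : ι → Finset (Fin n)) (r D : ℕ) : Prop :=
  ∀ I : Finset ι, I.card ≤ r → (bd Z I).card ≤ D → 4 * I.card ≤ r

theorem Cl_spec {Z : ι → Finset (Fin n)} {r D : ℕ} (hZ : Tight Z r D)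
    {T : Finset (Fin n)} (hT : T.card ≤ D) :
    4 * (Cl Z r T).card ≤ r ∧ bd Z (Cl Z r T) ⊆ T := by
  classical
  have hsmall : ∀ I : Finset ι, I.card ≤ r → bd Z I ⊆ T → 4 * I.card ≤ r := by
    intro I h1 h2
    exact hZ I h1 ((card_le_card h2).trans hT)
  have hun : ∀ s : Finset ι, s ⊆ Cl Z r T →
      ∃ I : Finset ι, I.card ≤ r ∧ bd Z I ⊆ T ∧ s ⊆ I := by
    intro s
    induction s using Finset.induction_on with
    | empty =>
      intro _
      refine ⟨∅, by simp, ?_, by simp⟩
      intro v hv
      obtain ⟨i, hi, -⟩ := mem_bd.1 hv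
      exact absurd hi (notMem_empty i)
    | insert i s _ ih =>
      intro hs
      obtain ⟨I, h1, h2, h3⟩ := ih fun j hj => hs (mem_insert_of_mem hj)
      obtain ⟨J, g1, g2, g3⟩ := mem_Cl.1 (hs (mem_insert_self i s))
      refine ⟨J ∪ I, ?_, ?_, ?_⟩
      · have e1 := hsmall I h1 h2
        have e2 := hsmall J g1 g2
        have e3 := card_union_le J I
        omega
      · exact (bd_union_subset Z J I).trans (union_subset g2 h2)
      · rw [insert_subset_iff]
        exact ⟨mem_union_left _ g3, h3.trans subset_union_right⟩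
  obtain ⟨I, h1, h2, h3⟩ := hun (Cl Z r T) (Subset.refl _)
  have h4 : Cl Z r T = I := Subset.antisymm h3 (subset_Cl h1 h2)
  rw [h4]
  exact ⟨hsmall I h1 h2, h2⟩

/-- The closures of the monomials in a normal form. -/
theorem Cl_insert {Z : ι → Finset (Fin n)} {r D : ℕ} (hZ : Tight Z r D)
    {T M W : Finset (Fin n)} (hT : T.card ≤ D) (hM : (M ∪ W).card ≤ D)
    (hMT : M ⊆ T ∪ (Cl Z r T).biUnion Z) : Cl Z r (M ∪ W) ⊆ Cl Z r (T ∪ W) := by
  obtain ⟨h1, h2⟩ := Cl_spec hZ hT
  obtain ⟨h3, h4⟩ := Cl_spec hZ hM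
  refine subset_union_left.trans (subset_Cl (I := Cl Z r (M ∪ W) ∪ Cl Z r T) ?_ ?_)
  · have := card_union_le (Cl Z r (M ∪ W)) (Cl Z r T)
    omega
  · intro v hv
    obtain ⟨i, hi, hvi, hu⟩ := mem_bd.1 hv
    by_cases hvC : v ∈ (Cl Z r T).biUnion Z
    · obtain ⟨j, hj, hvj⟩ := mem_biUnion.1 hvC
      have hji := hu j (mem_union_right _ hj) hvj
      refine mem_union_left _ (h2 (mem_bd.2 ⟨j, hj, hvj, fun l hl hvl => ?_⟩))
      rw [hji]
      exact hu l (mem_union_right _ hl) hvl
    · rcases mem_union.1 hi with h | h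
      · have h5 := h4 (mem_bd.2 ⟨i, h, hvi, fun j hj => hu j (mem_union_left _ hj)⟩)
        rcases mem_union.1 h5 with h6 | h6
        · rcases mem_union.1 (hMT h6) with h7 | h7
          · exact mem_union_left _ h7
          · exact absurd h7 hvC
        · exact mem_union_right _ h6
      · exact absurd (mem_biUnion.2 ⟨i, h, hvi⟩) hvC

/-- The normal form does not change when clauses outside of the closure are added. -/
theorem nf_stable {Z : ι → Finset (Fin n)} {a : ι → Fin n → Bool} {r : ℕ}
    {T : Finset (Fin n)} {M : Finset (Fin n)} (hM : Std K (SatI Z a (Cl Z r T)) M)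
    (hMT : M ⊆ T ∪ (Cl Z r T).biUnion Z) (hCl : bd Z (Cl Z r T) ⊆ T) :
    ∀ I : Finset ι, Cl Z r T ⊆ I → I.card ≤ r → Std K (SatI Z a I) M := by
  intro I
  induction I using Finset.strongInduction with
  | H I ih =>
    intro hI hIr
    by_cases hEq : I = Cl Z r T
    · rw [hEq]
      exact hM
    · have hex : ∃ i ∈ I, i ∉ Cl Z r T ∧ ∃ v ∈ Z i, v ∉ T ∪ (I.erase i).biUnion Z := by
        by_contra hcon
        push Not at hcon
        apply hEq
        refine Subset.antisymm (subset_Cl hIr fun v hv => ?_) hI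
        obtain ⟨i, hi, hvi, hu⟩ := mem_bd.1 hv
        by_cases hiC : i ∈ Cl Z r T
        · exact hCl (mem_bd.2 ⟨i, hiC, hvi, fun j hj => hu j (hI hj)⟩)
        · have h1 := hcon i hi hiC v hvi
          rcases mem_union.1 h1 with h2 | h2
          · exact h2
          · obtain ⟨j, hj, hvj⟩ := mem_biUnion.1 h2
            exact absurd (hu j (mem_of_mem_erase hj) hvj) (ne_of_mem_erase hj)
      obtain ⟨i, hi, hiC, v, hv, hvn⟩ := hex
      rw [mem_union, not_or] at hvn
      have hsub : Cl Z r T ⊆ I.erase i := by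
        intro j hj
        refine mem_erase.2 ⟨?_, hI hj⟩
        rintro rfl
        exact hiC hj
      refine std_peel K hv ?_ hvn.2
        (ih (I.erase i) (erase_ssubset hi) hsub ((card_le_card (erase_subset i I)).trans hIr))
      intro hvM
      rcases mem_union.1 (hMT hvM) with h1 | h1
      · exact hvn.1 h1
      · exact hvn.2 (biUnion_subset_biUnion_of_subset_left Z hsub h1)

/-! ### The operator -/

/-- The normal form of a monomial. -/
noncomputable def nfm (E : Set (Fin n → Bool)) (T : Finset (Fin n)) : (Fin n → Bool) → K :=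
  Classical.choose (exists_nf K E T)

theorem nfm_mem (E : Set (Fin n → Bool)) (T : Finset (Fin n)) :
    nfm K E T ∈ stdSpan K E (fun M => key M ≤ key T) := (Classical.choose_spec (exists_nf K E T)).1

theorem nfm_van (E : Set (Fin n → Bool)) (T : Finset (Fin n)) :
    mon K T - nfm K E T ∈ van K E := (Classical.choose_spec (exists_nf K E T)).2

/-- The operator: each monomial is reduced modulo the clauses of its closure. -/
noncomputable def opR (Z : ι → Finset (Fin n)) (a : ι → Fin n → Bool) (r : ℕ) :
    ((Fin n → Bool) → K) →ₗ[K] ((Fin n → Bool) → K) :=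
  (monBasis K n).constr K fun T => nfm K (SatI Z a (Cl Z r T)) T

theorem opR_mon (Z : ι → Finset (Fin n)) (a : ι → Fin n → Bool) (r : ℕ) (T : Finset (Fin n)) :
    opR K Z a r (mon K T) = nfm K (SatI Z a (Cl Z r T)) T := by
  unfold opR
  rw [← monBasis_apply, Module.Basis.constr_basis]

/-- On functions whose monomials have their closures in `I`, the operator is the normal form
for `I`. -/
theorem opR_nf {Z : ι → Finset (Fin n)} {a : ι → Fin n → Bool} {r D : ℕ}
    (hZ : Tight Z r D) {I : Finset ι} (hI : I.card ≤ r)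
    {p : (Fin n → Bool) → K}
    (hp : p ∈ Submodule.span K {f : (Fin n → Bool) → K | ∃ M : Finset (Fin n), M.card ≤ D ∧
      Cl Z r M ⊆ I ∧ f = mon K M}) : NF K (SatI Z a I) p (opR K Z a r p) := by
  induction hp using Submodule.span_induction with
  | mem f hf =>
    obtain ⟨T, hT, hTI, rfl⟩ := hf
    rw [opR_mon]
    have h1 := nf_support K (nfm_mem K (SatI Z a (Cl Z r T)) T) (nfm_van K _ T)
    refine ⟨?_, van_anti K (SatI_anti hTI) (nfm_van K _ T)⟩
    refine Submodule.span_mono ?_ h1
    rintro f ⟨M, g1, g2, rfl⟩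
    exact ⟨M, nf_stable K g1 g2.1 (Cl_spec hZ hT).2 I hTI hI, trivial, rfl⟩
  | zero =>
    rw [map_zero]
    exact NF.zero K _
  | add f g _ _ hf hg =>
    rw [map_add]
    exact NF.add K hf hg
  | smul c f _ hf =>
    rw [map_smul]
    exact NF.smul K c hf

/-- Multiplication by a variable. -/
theorem opR_var {Z : ι → Finset (Fin n)} {a : ι → Fin n → Bool} {r D : ℕ}
    (hZ : Tight Z r D) (v : Fin n) {d : ℕ} (hd : d + 1 ≤ D)
    {p : (Fin n → Bool) → K} (hp : p ∈ Poly K n d) (h0 : opR K Z a r p = 0) :
    opR K Z a r (mon K {v} * p) = 0 := by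
  have key1 : ∀ p ∈ Poly K n d,
      opR K Z a r (mon K {v} * opR K Z a r p) = opR K Z a r (mon K {v} * p) := by
    intro p hp
    unfold Poly at hp
    induction hp using Submodule.span_induction with
    | mem f hf =>
      obtain ⟨T, hT, rfl⟩ := hf
      have hTD : T.card ≤ D := by omega
      have hcard : ∀ M : Finset (Fin n), M.card ≤ T.card → (M ∪ {v}).card ≤ D := by
        intro M hM
        have := card_union_le M {v}
        rw [card_singleton] at this
        omega
      obtain ⟨h1, h2⟩ := Cl_spec hZ (hcard T le_rfl)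
      have hI : (Cl Z r (T ∪ {v})).card ≤ r := by omega
      have hnf1 : NF K (SatI Z a (Cl Z r (T ∪ {v}))) (mon K {v} * mon K T)
          (opR K Z a r (mon K {v} * mon K T)) := by
        refine opR_nf K hZ hI (Submodule.subset_span ⟨T ∪ {v}, hcard T le_rfl,
          Subset.refl _, ?_⟩)
        rw [mon_mul, union_comm]
      have hnf2 : NF K (SatI Z a (Cl Z r (T ∪ {v}))) (mon K {v} * opR K Z a r (mon K T))
          (opR K Z a r (mon K {v} * opR K Z a r (mon K T))) := by
        refine opR_nf K hZ hI ?_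
        rw [opR_mon]
        have h3 := nf_support K (nfm_mem K (SatI Z a (Cl Z r T)) T) (nfm_van K _ T)
        have h4 : ∀ f ∈ stdSpan K (SatI Z a (Cl Z r T)) (fun M => M ⊆ T ∪ (Cl Z r T).biUnion Z ∧
            key M ≤ key T), mon K {v} * f ∈ Submodule.span K {f : (Fin n → Bool) → K |
              ∃ M : Finset (Fin n), M.card ≤ D ∧ Cl Z r M ⊆ Cl Z r (T ∪ {v}) ∧
              f = mon K M} := by
          intro f hf
          unfold stdSpan at hf
          induction hf using Submodule.span_induction with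
          | mem f hf =>
            obtain ⟨M, -, ⟨g2, g3⟩, rfl⟩ := hf
            have hMc := hcard M (card_le_of_key_le g3)
            refine Submodule.subset_span ⟨M ∪ {v}, hMc, Cl_insert hZ hTD hMc g2, ?_⟩
            rw [mon_mul, union_comm]
          | zero =>
            rw [mul_zero]
            exact Submodule.zero_mem _
          | add f g _ _ hf hg =>
            rw [mul_add]
            exact Submodule.add_mem _ hf hg
          | smul c f _ hf =>
            rw [mul_smul_comm]
            exact Submodule.smul_mem _ c hf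
        exact h4 _ h3
      refine NF.unique K hnf2 hnf1 ?_
      intro x hx
      have h5 := nfm_van K (SatI Z a (Cl Z r T)) T x
        (SatI_anti (Cl_mono subset_union_left) hx)
      rw [opR_mon]
      rw [Pi.sub_apply] at h5
      rw [Pi.sub_apply, Pi.mul_apply, Pi.mul_apply, ← mul_sub]
      have h6 : nfm K (SatI Z a (Cl Z r T)) T x - mon K T x = 0 := by
        rw [← neg_sub, h5, neg_zero]
      rw [h6, mul_zero]
    | zero => simp
    | add f g _ _ hf hg =>
      rw [map_add, mul_add, mul_add, map_add, map_add, hf, hg]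
    | smul c f _ hf =>
      rw [map_smul, mul_smul_comm, mul_smul_comm, map_smul, map_smul, hf]
  rw [← key1 p hp, h0, mul_zero, map_zero]

/-- Multiplication by a function of small degree. -/
theorem opR_mul {Z : ι → Finset (Fin n)} {a : ι → Fin n → Bool} {r D : ℕ}
    (hZ : Tight Z r D) {d e : ℕ} (hde : d + e ≤ D)
    {p g : (Fin n → Bool) → K} (hp : p ∈ Poly K n d) (hg : g ∈ Poly K n e)
    (h0 : opR K Z a r p = 0) : opR K Z a r (p * g) = 0 := by
  have hmon : ∀ M : Finset (Fin n), M.card ≤ e → opR K Z a r (mon K M * p) = 0 := by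
    intro M
    induction M using Finset.induction_on with
    | empty =>
      intro _
      have h1 : mon K (∅ : Finset (Fin n)) * p = p := by
        funext x
        rw [Pi.mul_apply]
        unfold mon
        rw [if_pos (by simp), one_mul]
      rw [h1, h0]
    | insert v M hv ih =>
      intro hM
      rw [card_insert_of_notMem hv] at hM
      have h1 : mon K (insert v M) * p = mon K {v} * (mon K M * p) := by
        rw [← mul_assoc, mon_mul, insert_eq]
      rw [h1]
      exact opR_var K hZ v (d := M.card + d) (by omega)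
        (Poly_mul K (mon_mem_Poly K le_rfl) hp) (ih (by omega))
  unfold Poly at hg
  induction hg using Submodule.span_induction with
  | mem g hg =>
    obtain ⟨M, hM, rfl⟩ := hg
    rw [mul_comm]
    exact hmon M hM
  | zero => simp
  | add f g _ _ hf hg => rw [mul_add, map_add, hf, hg, add_zero]
  | smul c f _ hf => rw [mul_smul_comm, map_smul, hf, smul_zero]

/-- Monomials with empty closure are fixed. -/
theorem opR_good {Z : ι → Finset (Fin n)} {a : ι → Fin n → Bool} {r : ℕ}
    {f : (Fin n → Bool) → K}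
    (hf : f ∈ Submodule.span K {f : (Fin n → Bool) → K | ∃ M : Finset (Fin n),
      Cl Z r M = ∅ ∧ f = mon K M}) : opR K Z a r f = f := by
  induction hf using Submodule.span_induction with
  | mem f hf =>
    obtain ⟨T, hT, rfl⟩ := hf
    rw [opR_mon, hT]
    have h1 := nfm_van K (SatI Z a ∅) T
    funext x
    have h2 := h1 x (fun i hi => absurd hi (notMem_empty i))
    rw [Pi.sub_apply] at h2
    exact (sub_eq_zero.1 h2).symm
  | zero => exact map_zero _
  | add f g _ _ hf hg => rw [map_add, hf, hg]
  | smul c f _ hf => rw [map_smul, hf]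

/-- Functions that only depend on the variables in `Z` are combinations of their monomials. -/
theorem mem_span_of_depends (W : Finset (Fin n)) {f : (Fin n → Bool) → K}
    (hf : ∀ x y : Fin n → Bool, (∀ v ∈ W, x v = y v) → f x = f y) :
    f ∈ Submodule.span K {f : (Fin n → Bool) → K | ∃ M : Finset (Fin n), M ⊆ W ∧
      f = mon K M} := by
  have h1 : outZero K W f = f := by
    funext x
    refine hf _ _ fun v hv => ?_
    rw [if_pos hv]
  rw [← h1, ← (monBasis K n).sum_repr f, map_sum]
  refine Submodule.sum_mem _ fun M _ => ?_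
  rw [map_smul, monBasis_apply, outZero_mon]
  refine Submodule.smul_mem _ _ ?_
  by_cases h : M ⊆ W
  · rw [if_pos h]
    exact Submodule.subset_span ⟨M, h, rfl⟩
  · rw [if_neg h]
    exact Submodule.zero_mem _

/-- The indicator function of the points that falsify the clause `i`. -/
def Fals (Z : ι → Finset (Fin n)) (a : ι → Fin n → Bool) (i : ι) (x : Fin n → Bool) : K :=
  if ∀ v ∈ Z i, x v = a i v then 1 else 0

/-- The operator kills the clauses. -/
theorem opR_Fals {Z : ι → Finset (Fin n)} {a : ι → Fin n → Bool} {r D : ℕ}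
    (hZ : Tight Z r D) (hr1 : 1 ≤ r) {i : ι} (hi : (Z i).card ≤ D) :
    opR K Z a r (Fals K Z a i) = 0 := by
  obtain ⟨h1, h2⟩ := Cl_spec hZ hi
  have hiC : i ∈ Cl Z r (Z i) := by
    refine mem_Cl.2 ⟨{i}, by rw [card_singleton]; exact hr1, fun v hv => ?_,
      mem_singleton_self i⟩
    obtain ⟨j, hj, hvj, -⟩ := mem_bd.1 hv
    rw [mem_singleton] at hj
    rwa [hj] at hvj
  have h3 : Fals K Z a i ∈ Submodule.span K {f : (Fin n → Bool) → K | ∃ M : Finset (Fin n),
      M ⊆ Z i ∧ f = mon K M} := by
    refine mem_span_of_depends K (Z i) fun x y hxy => ?_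
    unfold Fals
    congr 1
    apply propext
    constructor
    · intro h v hv
      rw [← hxy v hv]
      exact h v hv
    · intro h v hv
      rw [hxy v hv]
      exact h v hv
  have h4 : NF K (SatI Z a (Cl Z r (Z i))) (Fals K Z a i) (opR K Z a r (Fals K Z a i)) := by
    refine opR_nf K hZ (by omega) (Submodule.span_mono ?_ h3)
    rintro f ⟨M, hM, rfl⟩
    exact ⟨M, (card_le_card hM).trans hi, Cl_mono hM, rfl⟩
  have h5 : Fals K Z a i ∈ van K (SatI Z a (Cl Z r (Z i))) := by
    intro x hx
    obtain ⟨v, hv, hne⟩ := hx i hiC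
    unfold Fals
    rw [if_neg]
    exact fun h => hne (h v hv)
  exact NF.unique K h4 (NF.zero_of_van K h5) (by
    rw [sub_self]
    exact Submodule.zero_mem _)

/-- The functions killed by the operator: they contain the clauses, are closed under products of
small degree, and contain no combination of monomials with empty closure. -/
theorem exists_ideal {Z : ι → Finset (Fin n)} (a : ι → Fin n → Bool) {r D : ℕ}
    (hZ : Tight Z r D) (hr1 : 1 ≤ r) (hk : ∀ i, (Z i).card ≤ D) :
    ∃ J : Submodule K ((Fin n → Bool) → K),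
      (∀ i, Fals K Z a i ∈ J) ∧
      (∀ (e e' : ℕ) (p g : (Fin n → Bool) → K), e + e' ≤ D → p ∈ J → p ∈ Poly K n e →
        g ∈ Poly K n e' → p * g ∈ J) ∧
      ∀ f ∈ Submodule.span K {f : (Fin n → Bool) → K | ∃ M : Finset (Fin n),
        (∀ I : Finset ι, I.card ≤ r → bd Z I ⊆ M → I = ∅) ∧ f = mon K M}, f ∈ J → f = 0 := by
  refine ⟨LinearMap.ker (opR K Z a r), fun i => ?_, fun e e' p g he hp hpe hg => ?_,
    fun f hf hfJ => ?_⟩
  · exact LinearMap.mem_ker.2 (opR_Fals K hZ hr1 (hk i))
  · exact LinearMap.mem_ker.2 (opR_mul K hZ he hpe hg (LinearMap.mem_ker.1 hp))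
  · rw [← opR_good K (Z := Z) (a := a) (r := r) (Submodule.span_mono ?_ hf)]
    · exact LinearMap.mem_ker.1 hfJ
    · rintro f ⟨M, hM, rfl⟩
      refine ⟨M, ?_, rfl⟩
      rw [eq_empty_iff_forall_notMem]
      intro i hi
      obtain ⟨I, h1, h2, h3⟩ := mem_Cl.1 hi
      rw [hM I h1 h2] at h3
      exact notMem_empty i h3

/-- Expansion gives tightness. -/
theorem tight_of_expansion {Z : ι → Finset (Fin n)} {r D θ : ℕ}
    (h : ∀ I : Finset ι, I.Nonempty → I.card ≤ r → θ * I.card < (bd Z I).card)
    (hD : 4 * D ≤ θ * r) : Tight Z r D := by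
  intro I hI hb
  rcases I.eq_empty_or_nonempty with rfl | hne
  · rw [card_empty, mul_zero]
    exact Nat.zero_le _
  · have h1 := h I hne hI
    have h2 : θ * (4 * I.card) ≤ θ * r := by
      calc θ * (4 * I.card) = 4 * (θ * I.card) := by ring
        _ ≤ 4 * D := Nat.mul_le_mul_left 4 (h1.le.trans hb)
        _ ≤ θ * r := hD
    rcases Nat.eq_zero_or_pos θ with rfl | hθ
    · rw [zero_mul] at hD
      omega
    · exact Nat.le_of_mul_le_mul_left h2 hθ

end Pool.Agent.MP_9cec2c_lc.ResPoly
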