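import Pool.Agent.Lib.MP_9cec2c_lc.Mg.G043
import Pool.Agent.Lib.MP_9cec2c_lc.Mg.G045
import Pool.Agent.Lib.MP_9cec2c_lc.RSOp

/-!
The number of terms of a refutation over a finite field.
-/

set_option autoImplicit false
set_option linter.unusedSectionVars false

namespace Pool.Agent.MP_9cec2c_lc.FieldProof

open Finset
open Pool.Agent.MP_9cec2c_lc.ResPoly

variable {n : ℕ} {k : Type} [Field k]

theorem degree_eq (t : ℕ) : Degree k n t = Poly k n t := rfl

theorem termValue_eq (T : Term k n) : termValue T = term k T := rfl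

/-- The number of different terms. -/
theorem support_card {l : ℕ} (L : Fin l → Line k n) :
    ∃ U : Finset (Term k n), U.card = {T | ∃ i, L i T ≠ 0}.ncard ∧
      (∀ i, (L i).support ⊆ U) ∧ ∀ T ∈ U, ∃ i, T ∈ (L i).support := by
  classical
  refine ⟨univ.biUnion fun i => (L i).support, ?_, fun i => ?_, fun T hT => ?_⟩
  · rw [← Set.ncard_coe_finset]
    congr 1
    ext T
    constructor
    · intro h
      obtain ⟨i, -, hi⟩ := mem_biUnion.1 (mem_coe.1 h)
      exact ⟨i, Finsupp.mem_support_iff.1 hi⟩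
    · rintro ⟨i, hi⟩
      exact mem_coe.2 (mem_biUnion.2 ⟨i, mem_univ _, Finsupp.mem_support_iff.2 hi⟩)
  · exact subset_biUnion_of_mem (fun i => (L i).support) (mem_univ i)
  · obtain ⟨i, -, hi⟩ := mem_biUnion.1 hT
    exact ⟨i, hi⟩

/-- The lower bound for the number of terms, in terms of the number of good sets. -/
theorem terms_bound [Fintype k] {ι : Type} [Fintype ι] [DecidableEq ι] {Z : ι → Finset (Fin n)}
    {a : ι → Fin n → Bool} {r D e t b κ w : ℕ} (hZ : Tight Z r D) (hr : 1 ≤ r)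
    (hw : ∀ i, (Z i).card ≤ w) (hb : 1 ≤ b)
    (hD1 : e + 2 * t + κ * ((Fintype.card k - 1) * t) * (1 + b * (Fintype.card k - 1)) ≤ D)
    (hD2 : e + 2 * t + κ * ((Fintype.card k - 1) * t) + w ≤ D)
    {TT : Finset (Finset (Fin n))} (hTT : ∀ T ∈ TT, T.card ≤ e + 2 * t)
    (hgood : ∀ T ∈ TT, ∀ I : Finset ι, I.card ≤ r → bd Z I ⊆ T → I = ∅)
    {F : Finset (Clause (Fin n))}
    (hF : ∀ C ∈ F, ∃ i, ∀ x : Fin n → Bool, (∃ v ∈ Z i, x v ≠ a i v) → Holds x C)
    {l : ℕ} {L : Fin l → Line k n} (href : IsRefutation t b F L) :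
    (2 * ((e + 1) ^ t + n ^ t)) ^ κ * TT.card ≤
      {T | ∃ i, L i T ≠ 0}.ncard * (((e + 1) ^ t + 2 * n ^ t) ^ κ *
        ∑ i ∈ range (e + 2 * t + 1), n.choose i) := by
  classical
  obtain ⟨U, hU, hLU, hUL⟩ := support_card L
  by_contra hcon
  rw [not_le, ← hU] at hcon
  have hwD : w ≤ D := by omega
  obtain ⟨J, hJ1, hJ2, hJ3⟩ := exists_ideal k a hZ hr fun i => (hw i).trans hwD
  obtain ⟨S, hS⟩ : ∃ S : Submodule k ((Fin n → Bool) → k), S = Submodule.span k
      (Set.range fun T : {T // T ∈ TT} => mon k T.1) := ⟨_, rfl⟩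
  have hSrank : Module.finrank k S = TT.card := by
    have h1 : LinearIndependent k (fun T : {T // T ∈ TT} => mon k T.1) :=
      (mon_linInd k).comp (fun T : {T // T ∈ TT} => T.1) Subtype.val_injective
    rw [hS, finrank_span_eq_card h1, Fintype.card_coe]
  have hSP : S ≤ Poly k n (e + 2 * t) := by
    rw [hS, Submodule.span_le]
    rintro f ⟨⟨T, hT⟩, rfl⟩
    exact mon_mem_Poly k (hTT T hT)
  have hSJ : ∀ f ∈ S, f ∈ J → f = 0 := by
    intro f hf hfJ
    refine hJ3 f ?_ hfJ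
    rw [hS] at hf
    refine Submodule.span_mono ?_ hf
    rintro g ⟨⟨T, hT⟩, rfl⟩
    exact ⟨T, hgood T hT, rfl⟩
  have hfals : ∀ (i : ι) (x : Fin n → Bool), Fals k Z a i x = 0 → ∃ v ∈ Z i, x v ≠ a i v := by
    intro i x hx
    unfold Fals at hx
    split_ifs at hx with h
    · exact absurd hx one_ne_zero
    · push Not at h
      exact h
  have hFw : ∀ i, Fals k Z a i ∈ Poly k n w := by
    intro i
    refine Submodule.span_mono ?_ (mem_span_of_depends k (Z i) (f := Fals k Z a i)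
      fun x y hxy => ?_)
    · rintro f ⟨M, hM, rfl⟩
      exact ⟨M, (card_le_card hM).trans (hw i), rfl⟩
    · unfold Fals
      have h1 : (∀ v ∈ Z i, x v = a i v) ↔ ∀ v ∈ Z i, y v = a i v :=
        ⟨fun h v hv => (hxy v hv) ▸ h v hv, fun h v hv => (hxy v hv).trans (h v hv)⟩
      simp only [h1]
  refine no_refutation k (U := {T // T ∈ U}) (ι := ι) (G := fun T => T.1) (t := t) (e := e)
    (k := κ) (b := b) (w := w) (D := D) ?_ J S hSP hSJ hJ2 (Fals k Z a) hJ1 hFw ?_ ?_ hD1 hD2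
    (fun i => value (L i)) ?_ ?_ href.2.1 hb
  · rintro ⟨T, hT⟩ g hg
    obtain ⟨i, hi⟩ := hUL T hT
    exact href.1 i T hi g hg
  · intro c x
    unfold Fals
    split_ifs
    · exact Or.inr rfl
    · exact Or.inl rfl
  · rw [Fintype.card_coe, hSrank]
    exact hcon
  · intro i
    have h1 : value (L i) = ∑ T ∈ (L i).support, L i T • term k T := by
      funext x
      rw [Finset.sum_apply]
      rfl
    rw [h1]
    refine Submodule.sum_mem _ fun T hT => Submodule.smul_mem _ _ (Submodule.subset_span ?_)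
    exact ⟨⟨T, hLU i hT⟩, rfl⟩
  · intro i
    rcases href.2.2 i with ⟨C, hC, hi⟩ | h
    · left
      obtain ⟨j, hj⟩ := hF C hC
      exact ⟨j, fun x hx => hi x (hj x (hfals j x hx))⟩
    · exact Or.inr h

end Pool.Agent.MP_9cec2c_lc.FieldProof
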