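import Pool.Agent.Lib.MP_9cec2c_lc.PSNum
import Pool.Agent.Lib.MP_9cec2c_lc.Mg.G055

/-!
The choice of the numbers for all degrees.
-/

set_option autoImplicit false

namespace Pool.Agent.MP_9cec2c_lc.SumProd

open Finset
open Pool.Agent.MP_9cec2c_lc.SubstRed
open Pool.Agent.MP_9cec2c_lc.FormulaLines (choose_le_three)

/-- The order of the constants. -/
theorem gen_basic {c E F a A V G s P X M R : ℕ} (hc : 1 ≤ c) (hE : 2 ≤ E) (hF : 1 ≤ F)
    (hA : 1 ≤ A) (hV : V = 160 * A * (F ^ 2 * (a + 1)))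
    (hG : G = 6 * (16 * E) ^ 3 * (8 * 49152 * c)) (hs : s = 256 * V * G) (hP : P = 256 * V * s)
    (hX : X = 49152 * c * P) (hM : M = X ^ (8 * E)) (hR : R = 512 * V * P * (32 * M)) :
    160 * A ≤ V ∧ 1 ≤ G ∧ G ≤ s ∧ V ≤ s ∧ 1 ≤ s ∧ P ≤ s ^ 2 ∧ s ≤ P ∧ 1 ≤ P ∧ V ≤ P ∧ P ≤ X ∧
      X ≤ M ∧ 1 ≤ M ∧ 160 * A ≤ M ∧ M ≤ R ∧ 2 ≤ R := by
  have hV1 : 160 * A ≤ V := by
    rw [hV]
    exact Nat.le_mul_of_pos_right _ (Nat.mul_pos (Nat.pow_pos (by omega)) (by omega))
  have hG1 : 1 ≤ G := by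
    rw [hG]
    exact Nat.mul_pos (Nat.mul_pos (by norm_num) (Nat.pow_pos (by omega))) (by omega)
  have hGs : G ≤ s := by
    rw [hs]
    exact Nat.le_mul_of_pos_left _ (by omega)
  have hVs : V ≤ s := by
    rw [hs]
    calc V = 1 * V * 1 := by ring
      _ ≤ 256 * V * G := Nat.mul_le_mul (Nat.mul_le_mul_right _ (by norm_num)) hG1
  have hs1 : 1 ≤ s := hG1.trans hGs
  have hPs : P ≤ s ^ 2 := by
    rw [hP, sq]
    refine Nat.mul_le_mul_right _ ?_
    rw [hs]
    exact Nat.le_mul_of_pos_right _ hG1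
  have hsP : s ≤ P := by
    rw [hP]
    exact Nat.le_mul_of_pos_left _ (by omega)
  have hP1 : 1 ≤ P := hs1.trans hsP
  have hVP : V ≤ P := hVs.trans hsP
  have hPX : P ≤ X := by
    rw [hX]
    exact Nat.le_mul_of_pos_left _ (by omega)
  have hXM : X ≤ M := by
    rw [hM]
    exact Nat.le_self_pow (by omega) _
  have hM1 : 1 ≤ M := by omega
  have hMR : 32 * M ≤ R := by
    rw [hR]
    exact Nat.le_mul_of_pos_left _ (Nat.mul_pos (by omega) (by omega))
  exact ⟨hV1, hG1, hGs, hVs, hs1, hPs, hsP, hP1, hVP, hPX, hXM, hM1, by omega, by omega,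
    by omega⟩

/-- The powers. -/
theorem gen_pow {V P M R t : ℕ} (hV : 1 ≤ V) (hP : 1 ≤ P) (ht : 1 ≤ t)
    (hR : R = 512 * V * P * (32 * M)) :
    512 * V * P * (t ^ 2 * (8 * M) ^ t) ≤ R ^ t := by
  have h1 : t ^ 2 ≤ 4 ^ t := by
    have h2 : t ≤ 2 ^ t := Nat.lt_two_pow_self.le
    calc t ^ 2 ≤ (2 ^ t) ^ 2 := Nat.pow_le_pow_left h2 2
      _ = 4 ^ t := by
        rw [← pow_mul, mul_comm, pow_mul]
        norm_num
  calc 512 * V * P * (t ^ 2 * (8 * M) ^ t)
      ≤ (512 * V * P) ^ t * (4 ^ t * (8 * M) ^ t) :=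
        Nat.mul_le_mul (Nat.le_self_pow (by omega) _) (Nat.mul_le_mul_right _ h1)
    _ = R ^ t := by
        rw [← mul_pow, ← mul_pow, hR]
        congr 1
        ring

/-- The numbers are in the right order. -/
theorem gen_order {n w F a A V P M RT W D κ d b e r t : ℕ} (hF : 1 ≤ F) (hA : 1 ≤ A)
    (hV : V = 160 * A * (F ^ 2 * (a + 1))) (hP : 1 ≤ P) (hM : 160 * A ≤ M) (hw : 3 ≤ w)
    (ht : 1 ≤ t) (hW : 8 * M ≤ W) (hRT : 512 * V * P * (t ^ 2 * W) ≤ RT)
    (hn : RT ^ 4 * w ≤ n) (hr : r = n / (A * w)) (hD : D = n / (40 * A)) (hκ : κ = n / (V * t))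
    (hd : d = n / (2 * M)) (hb : b = n / (P * (t ^ 2 * W))) (he : e = d - 2 * t) :
    (1 ≤ r ∧ 20 * D ≤ w * r ∧ A * (w * r) ≤ n) ∧
      (d + κ * ((F - 1) * t) * (1 + a * (F - 1)) ≤ D ∧ d + κ * ((F - 1) * t) + w ≤ D) ∧
      (d = e + 2 * t ∧ M * (d + b) ≤ n ∧ n ≤ 8 * M * (e + 1) ∧ 1 ≤ b ∧ b ≤ d) ∧
      n ≤ 2 * (P * (t ^ 2 * W) * b) ∧ n ≤ 2 * (V * t * κ) ∧ P * (t ^ 2 * W) * b ≤ n := by
  have hV1 : 160 * A ≤ V := by
    rw [hV]
    exact Nat.le_mul_of_pos_right _ (Nat.mul_pos (Nat.pow_pos (by omega)) (by omega))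
  have ht2 : t ≤ t ^ 2 := Nat.le_self_pow (by norm_num) _
  -- one inequality for all
  obtain ⟨H, hH⟩ : ∃ H, H = t ^ 2 * W := ⟨_, rfl⟩
  rw [← hH] at hRT hb ⊢
  have hHt : t * (8 * M) ≤ H := by
    rw [hH]
    exact Nat.mul_le_mul ht2 hW
  have hHM : 8 * M ≤ H := le_trans (Nat.le_mul_of_pos_left _ ht) hHt
  have hH1 : 1 ≤ H := by omega
  have hPH : 1 ≤ P * H := Nat.mul_pos hP hH1
  have hRT1 : 512 * V * (P * H) ≤ RT := by
    calc 512 * V * (P * H) = 512 * V * P * H := by ring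
      _ ≤ RT := hRT
  have hRTpos : 1 ≤ RT := le_trans (Nat.mul_pos (by omega) hPH) hRT1
  have hRTn : RT * w ≤ n := le_trans (Nat.mul_le_mul_right _ (Nat.le_self_pow (by norm_num) _)) hn
  have hRTn1 : 3 * RT ≤ n := by
    calc 3 * RT = RT * 3 := by ring
      _ ≤ RT * w := Nat.mul_le_mul_left _ hw
      _ ≤ n := hRTn
  have hPHRT : P * H ≤ RT := le_trans (Nat.le_mul_of_pos_left _ (by omega)) hRT1
  have hVRT : 512 * V * H ≤ RT := by
    refine le_trans (Nat.mul_le_mul_left _ ?_) hRT1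
    exact Nat.le_mul_of_pos_left _ hP
  have hHRT : H ≤ RT := le_trans (Nat.le_mul_of_pos_left _ (by omega)) hVRT
  -- the parameter d
  have hd1 : 4 * t ≤ d := by
    rw [hd, Nat.le_div_iff_mul_le (by omega)]
    have h1 : 4 * t * (2 * M) = t * (8 * M) := by ring
    omega
  have hdM : 2 * M * d ≤ n := by
    rw [hd]
    exact Nat.mul_div_le _ _
  have hdM2 : n < 2 * M * (d + 1) := by
    rw [hd]
    exact Nat.lt_mul_div_succ n (by omega)
  have hde : d = e + 2 * t := by omega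
  have hen : n ≤ 8 * M * (e + 1) := by
    have h1 : 2 * M * (d + 1) ≤ 2 * M * (4 * (e + 1)) := Nat.mul_le_mul_left _ (by omega)
    have h2 : 2 * M * (4 * (e + 1)) = 8 * M * (e + 1) := by ring
    omega
  -- the parameter b
  have hb1 : 1 ≤ b := by
    rw [hb, Nat.le_div_iff_mul_le hPH]
    omega
  have hbn : P * H * b ≤ n := by
    rw [hb]
    exact Nat.mul_div_le _ _
  have hbn2 : n < P * H * (b + 1) := by
    rw [hb]
    exact Nat.lt_mul_div_succ n hPH
  have hbn3 : n ≤ 2 * (P * H * b) := by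
    have h1 : P * H * (b + 1) = P * H * b + P * H := by ring
    have h2 : P * H ≤ P * H * b := Nat.le_mul_of_pos_right _ hb1
    omega
  have hMb : 8 * M * b ≤ n := by
    refine le_trans (Nat.mul_le_mul_right _ ?_) hbn
    exact hHM.trans (Nat.le_mul_of_pos_left _ hP)
  have hMdb : M * (d + b) ≤ n := by
    have h1 : 2 * (M * (d + b)) = 2 * M * d + 2 * M * b := by ring
    have h2 : 4 * (2 * M * b) = 8 * M * b := by ring
    omega
  have hbd : b ≤ d := by
    rw [hd, Nat.le_div_iff_mul_le (by omega)]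
    have h1 : 4 * (b * (2 * M)) = 8 * M * b := by ring
    omega
  -- the parameter κ
  have hVt : 1 ≤ V * t := Nat.mul_pos (by omega) ht
  have hVtH : V * t ≤ RT := by
    refine le_trans ?_ hVRT
    calc V * t ≤ V * H := by
          refine Nat.mul_le_mul_left _ (le_trans ?_ hHt)
          exact Nat.le_mul_of_pos_right _ (by omega)
      _ = 1 * V * H := by ring
      _ ≤ 512 * V * H := Nat.mul_le_mul_right _ (Nat.mul_le_mul_right _ (by norm_num))
  have hκ1 : 1 ≤ κ := by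
    rw [hκ, Nat.le_div_iff_mul_le hVt]
    omega
  have hκn : V * t * κ ≤ n := by
    rw [hκ]
    exact Nat.mul_div_le _ _
  have hκn2 : n < V * t * (κ + 1) := by
    rw [hκ]
    exact Nat.lt_mul_div_succ n hVt
  have hκn3 : n ≤ 2 * (V * t * κ) := by
    have h1 : V * t * (κ + 1) = V * t * κ + V * t := by ring
    have h2 : V * t ≤ V * t * κ := Nat.le_mul_of_pos_right _ hκ1
    omega
  -- the degree
  obtain ⟨D4, hD4⟩ : ∃ D4, D4 = n / (160 * A) := ⟨_, rfl⟩
  have h4D : 4 * D4 ≤ D := by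
    rw [hD, Nat.le_div_iff_mul_le (by omega)]
    have h1 : 160 * A * D4 ≤ n := by
      rw [hD4]
      exact Nat.mul_div_le _ _
    have h2 : 4 * D4 * (40 * A) = 160 * A * D4 := by ring
    omega
  have hdD : d ≤ D4 := by
    rw [hD4, Nat.le_div_iff_mul_le (by omega), mul_comm]
    exact le_trans (Nat.mul_le_mul_right _ (by omega)) hdM
  have hwD : w ≤ D4 := by
    rw [hD4, Nat.le_div_iff_mul_le (by omega), mul_comm]
    refine le_trans (Nat.mul_le_mul_right _ ?_) hRTn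
    omega
  obtain ⟨Y, hY⟩ : ∃ Y, Y = κ * t * (F ^ 2 * (a + 1)) := ⟨_, rfl⟩
  have hYD : Y ≤ D4 := by
    rw [hD4, Nat.le_div_iff_mul_le (by omega)]
    calc Y * (160 * A) = V * t * κ := by
          rw [hY, hV]
          ring
      _ ≤ n := hκn
  have hY1 : κ * ((F - 1) * t) * (1 + a * (F - 1)) ≤ Y := by
    have h1 : (F - 1) * (1 + a * (F - 1)) ≤ F ^ 2 * (a + 1) := by
      calc (F - 1) * (1 + a * (F - 1)) ≤ F * (F + a * F) :=
            Nat.mul_le_mul (by omega) (Nat.add_le_add hF (Nat.mul_le_mul_left _ (by omega)))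
        _ = F ^ 2 * (a + 1) := by ring
    calc κ * ((F - 1) * t) * (1 + a * (F - 1)) = κ * t * ((F - 1) * (1 + a * (F - 1))) := by ring
      _ ≤ κ * t * (F ^ 2 * (a + 1)) := Nat.mul_le_mul_left _ h1
      _ = Y := hY.symm
  have hY2 : κ * ((F - 1) * t) ≤ Y :=
    le_trans (Nat.le_mul_of_pos_right _ (by omega)) hY1
  -- the radius
  have hAw : 0 < A * w := Nat.mul_pos (by omega) (by omega)
  have hAwn : A * w ≤ n := by
    refine le_trans (Nat.mul_le_mul_right _ ?_) hRTn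
    omega
  have hr1 : 1 ≤ r := by
    rw [hr, Nat.le_div_iff_mul_le hAw]
    omega
  have hrn : A * w * r ≤ n := by
    rw [hr]
    exact Nat.mul_div_le _ _
  have hrn2 : n < A * w * (r + 1) := by
    rw [hr]
    exact Nat.lt_mul_div_succ n hAw
  have hn2r : n ≤ 2 * (A * (w * r)) := by
    have h1 : A * w * (r + 1) = A * (w * r) + A * w := by ring
    have h2 : A * w ≤ A * (w * r) := Nat.mul_le_mul_left _ (Nat.le_mul_of_pos_right _ hr1)
    omega
  have h20 : 20 * D ≤ w * r := by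
    have h1 : D * (40 * A) ≤ n := by
      rw [hD]
      exact Nat.div_mul_le_self _ _
    have h2 : A * (20 * D) ≤ A * (w * r) := by
      have h3 : D * (40 * A) = 2 * (A * (20 * D)) := by ring
      omega
    exact Nat.le_of_mul_le_mul_left h2 (by omega)
  exact ⟨⟨hr1, h20, by rwa [← mul_assoc]⟩, ⟨by omega, by omega⟩,
    ⟨hde, hMdb, hen, hb1, hbd⟩, hbn3, hκn3, hbn⟩

/-- The final inequality. -/
theorem gen_ineq {n c E V G s P X M RT W κ d b e t S K : ℕ} (hc : 1 ≤ c) (hE : 2 ≤ E)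
    (hV : 1 ≤ V) (hG : G = 6 * (16 * E) ^ 3 * (8 * 49152 * c)) (hG1 : 1 ≤ G) (hGs : G ≤ s)
    (hPs : P ≤ s ^ 2) (hP : P = 256 * V * s) (hX : X = 49152 * c * P) (hM : M = X ^ (8 * E))
    (hM1 : 1 ≤ M) (ht : 1 ≤ t) (hW : W = (8 * M) ^ t) (hRT : 512 * V * P * (t ^ 2 * W) ≤ RT)
    (hRT2 : 2 ≤ RT) (hn : RT ^ 4 ≤ n) (hdb : d + b ≤ n) (hde : d = e + 2 * t)
    (hen : n ≤ 8 * M * (e + 1)) (hb1 : 1 ≤ b) (hnb : n ≤ 2 * (P * (t ^ 2 * W) * b))
    (hnκ : n ≤ 2 * (V * t * κ)) (hbn : P * (t ^ 2 * W) * b ≤ n) (h2d : 2 * d ≤ n)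
    (hK : RT ≤ K) (hS : S ≤ 2 ^ (n / K)) :
    2 * ((d + b).choose d) * (S * (((e + 1) ^ t + 2 * n ^ t) ^ κ *
      ∑ i ∈ range (d + 1), n.choose i)) <
      (2 * ((e + 1) ^ t + n ^ t)) ^ κ * n.choose d := by
  have hn1 : 1 ≤ n := by omega
  have hn0 : (0 : ℝ) < n := by exact_mod_cast hn1
  have hV' : (1 : ℝ) ≤ V := by exact_mod_cast hV
  have ht' : (1 : ℝ) ≤ t := by exact_mod_cast ht
  have hc' : (1 : ℝ) ≤ c := by exact_mod_cast hc
  have hE' : (2 : ℝ) ≤ E := by exact_mod_cast hE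
  have hM' : (1 : ℝ) ≤ M := by exact_mod_cast hM1
  have hs1 : 1 ≤ s := hG1.trans hGs
  have hs' : (1 : ℝ) ≤ s := by exact_mod_cast hs1
  have hP1 : 1 ≤ P := by
    rw [hP]
    exact Nat.mul_pos (by omega) (by omega)
  have hP' : (1 : ℝ) ≤ P := by exact_mod_cast hP1
  have hPR : (P : ℝ) = 256 * V * s := by
    rw [hP]
    push_cast
    ring
  have hW' : (W : ℝ) = (8 * M) ^ t := by
    rw [hW]
    push_cast
    ring
  have hW0 : (0 : ℝ) < W := by
    rw [hW']
    positivity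
  have hWR1 : (1 : ℝ) ≤ W := by
    rw [hW']
    exact one_le_pow₀ (by linarith)
  obtain ⟨y, hy⟩ : ∃ y : ℝ, y = n / (64 * V * t * W) := ⟨_, rfl⟩
  have hy0 : 0 < y := by
    rw [hy]
    positivity
  have hRT' : (512 * V * P * (t ^ 2 * W) : ℝ) ≤ RT := by exact_mod_cast hRT
  have hRT0 : (2 : ℝ) ≤ RT := by exact_mod_cast hRT2
  have hden : (64 * V * t * W : ℝ) ≤ RT := by
    refine le_trans ?_ hRT'
    have h1 : (t : ℝ) ≤ t ^ 2 := le_self_pow₀ ht' (by norm_num)
    calc (64 * V * t * W : ℝ) = 64 * V * 1 * (t * W) := by ring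
      _ ≤ 512 * V * P * (t ^ 2 * W) := by
          gcongr
          norm_num
  have hyn : (n : ℝ) / RT ≤ y := by
    rw [hy]
    gcongr
  have hn4 : (RT : ℝ) ^ 4 ≤ n := by exact_mod_cast hn
  have hyR : (RT : ℝ) ^ 3 ≤ y := by
    refine le_trans ?_ hyn
    rw [le_div_iff₀ (by linarith)]
    calc (RT : ℝ) ^ 3 * (RT : ℝ) = (RT : ℝ) ^ 4 := by ring
      _ ≤ (n : ℝ) := hn4
  have hy1 : 1 ≤ y := le_trans (one_le_pow₀ (by linarith)) hyR
  -- the four factors
  have f1 : (2 : ℝ) ≤ Real.exp y := by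
    have := Real.add_one_le_exp y
    linarith
  have f2 : ((d : ℝ) + 1) ≤ Real.exp y := by
    have h1 := Real.quadratic_le_exp_of_nonneg hy0.le
    have h2 : (n : ℝ) ≤ y * RT := by rwa [div_le_iff₀ (by linarith)] at hyn
    have h3 : (RT : ℝ) ≤ y := by
      refine le_trans ?_ hyR
      exact le_self_pow₀ (by linarith) (by norm_num)
    have h4 : (n : ℝ) ≤ y ^ 2 := by nlinarith
    have h5 : (2 * d : ℝ) ≤ n := by exact_mod_cast h2d
    linarith
  have f3 : ((d + b).choose d : ℝ) ≤ Real.exp y := by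
    have h1 : (d + b).choose d = (d + b).choose b := by
      rw [Nat.choose_symm_add]
    rw [h1]
    have hb0 : (0 : ℝ) < b := by exact_mod_cast hb1
    refine (choose_le_three (by omega)).trans ?_
    have h2 : (3 * ((d + b : ℕ) : ℝ) / b) ≤ 6 * P * (t ^ 2 * W) := by
      rw [div_le_iff₀ hb0]
      have h3 : 3 * (d + b) ≤ 6 * P * (t ^ 2 * W) * b := by
        have h4 : 6 * P * (t ^ 2 * W) * b = 3 * (2 * (P * (t ^ 2 * W) * b)) := by ring
        omega
      exact_mod_cast h3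
    have hsE : 0 < (s : ℝ) / (16 * E) := by positivity
    have h8X : (8 * X : ℝ) ≤ Real.exp (s / (16 * E)) := by
      have h3 := Real.pow_div_factorial_le_exp (s / (16 * E) : ℝ) hsE.le 3
      refine le_trans ?_ h3
      have h4 : (P : ℝ) ≤ s ^ 2 := by exact_mod_cast hPs
      have h5 : (6 * (16 * E) ^ 3 * (8 * 49152 * c) : ℝ) ≤ s := by
        have h6 : G ≤ s := hGs
        rw [hG] at h6
        exact_mod_cast h6
      have h7 : (Nat.factorial 3 : ℝ) = 6 := by norm_num [Nat.factorial]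
      rw [h7, div_pow, div_div, le_div_iff₀ (by positivity)]
      have h8 : (X : ℝ) = 49152 * c * P := by
        rw [hX]
        push_cast
        ring
      rw [h8]
      calc (8 * (49152 * c * P) * ((16 * E) ^ 3 * 6) : ℝ)
          = (6 * (16 * E) ^ 3 * (8 * 49152 * c)) * P := by ring
        _ ≤ s * s ^ 2 := by gcongr
        _ = s ^ 3 := by ring
    have h8M : (8 * M : ℝ) ≤ Real.exp (s / 2) := by
      have h3 : (M : ℝ) = X ^ (8 * E) := by
        rw [hM]
        push_cast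
        ring
      have hX1 : (0 : ℝ) ≤ X := by positivity
      calc (8 * M : ℝ) ≤ 8 ^ (8 * E) * M := by
            have h4 : (8 : ℝ) ≤ 8 ^ (8 * E) := le_self_pow₀ (by norm_num) (by omega)
            gcongr
        _ = (8 * X) ^ (8 * E) := by rw [h3, mul_pow]
        _ ≤ (Real.exp (s / (16 * E))) ^ (8 * E) := by gcongr
        _ = Real.exp (s / 2) := by
            rw [← Real.exp_nat_mul]
            congr 1
            push_cast
            field_simp
            ring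
    have h6P : (6 * P * t ^ 2 : ℝ) ≤ Real.exp (s * t / 2) := by
      have h3 := Real.pow_div_factorial_le_exp (s * t / 2 : ℝ) (by positivity) 3
      refine le_trans ?_ h3
      have h4 : (P : ℝ) ≤ s ^ 2 := by exact_mod_cast hPs
      have h7 : (Nat.factorial 3 : ℝ) = 6 := by norm_num [Nat.factorial]
      have h288 : (288 : ℝ) ≤ s := by
        have h6 : G ≤ s := hGs
        have h9 : 288 ≤ G := by
          rw [hG]
          calc 288 = 6 * 1 * 48 := by norm_num
            _ ≤ 6 * (16 * E) ^ 3 * (8 * 49152 * c) := by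
              refine Nat.mul_le_mul (Nat.mul_le_mul_left _ (Nat.one_le_pow _ _ (by omega))) ?_
              omega
        exact_mod_cast h9.trans h6
      have hst : (288 : ℝ) ≤ s * t := by nlinarith
      rw [h7, div_pow, div_div, le_div_iff₀ (by norm_num)]
      calc (6 * P * t ^ 2 * (2 ^ 3 * 6) : ℝ) = 288 * (P * t ^ 2) := by ring
        _ ≤ (s * t) * (s ^ 2 * t ^ 2) := by gcongr
        _ = (s * t) ^ 3 := by ring
    have h9 : (6 * P * (t ^ 2 * W) : ℝ) ≤ Real.exp (s * t) := by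
      calc (6 * P * (t ^ 2 * W) : ℝ) = (6 * P * t ^ 2) * (8 * M) ^ t := by
            rw [hW']
            ring
        _ ≤ Real.exp (s * t / 2) * (Real.exp (s / 2)) ^ t := by gcongr
        _ = Real.exp (s * t) := by
            rw [← Real.exp_nat_mul, ← Real.exp_add]
            congr 1
            ring
    calc (3 * ((d + b : ℕ) : ℝ) / b) ^ b ≤ (Real.exp (s * t)) ^ b :=
          pow_le_pow_left₀ (by positivity) (h2.trans h9) _
      _ = Real.exp (b * (s * t)) := (Real.exp_nat_mul _ _).symm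
      _ ≤ Real.exp y := by
          refine Real.exp_le_exp.2 ?_
          rw [hy, le_div_iff₀ (by positivity)]
          have h10 : (P * (t ^ 2 * W) * b : ℝ) ≤ n := by exact_mod_cast hbn
          rw [hPR] at h10
          have h11 : (0 : ℝ) ≤ b * s * V * t ^ 2 * W := by positivity
          calc (b * (s * t) * (64 * V * t * W) : ℝ) = 64 * (b * s * V * t ^ 2 * W) := by ring
            _ ≤ 256 * (b * s * V * t ^ 2 * W) := by linarith
            _ = 256 * V * s * (t ^ 2 * W) * b := by ring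
            _ ≤ n := h10
  have f4 : (S : ℝ) ≤ Real.exp y := by
    have hKpos : (0 : ℝ) < K := by exact_mod_cast (by omega : 0 < K)
    have h1 : (S : ℝ) ≤ 2 ^ (n / K) := by exact_mod_cast hS
    have h2 : ((n / K : ℕ) : ℝ) ≤ y := by
      refine Nat.cast_div_le.trans (le_trans ?_ hyn)
      have h3 : (RT : ℝ) ≤ K := by exact_mod_cast hK
      gcongr
    have h5 : (2 : ℝ) ≤ Real.exp 1 := by
      have := Real.add_one_le_exp (1 : ℝ)
      linarith
    calc (S : ℝ) ≤ 2 ^ (n / K) := h1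
      _ ≤ (Real.exp 1) ^ (n / K) := by gcongr
      _ = Real.exp ((n / K : ℕ) * 1) := (Real.exp_nat_mul _ _).symm
      _ ≤ Real.exp y := by
          rw [mul_one]
          exact Real.exp_le_exp.2 h2
  -- the gain
  obtain ⟨g, hg⟩ : ∃ g : ℝ, g = ((e : ℝ) + 1) ^ t := ⟨_, rfl⟩
  obtain ⟨N, hN⟩ : ∃ N : ℝ, N = (n : ℝ) ^ t := ⟨_, rfl⟩
  have hg0 : 0 < g := by
    rw [hg]
    positivity
  have hN0 : 0 < N := by
    rw [hN]
    positivity
  have hgN : g ≤ N := by
    rw [hg, hN]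
    have h1 : ((e : ℝ) + 1) ≤ n := by exact_mod_cast (by omega : e + 1 ≤ n)
    gcongr
  have hNW : N ≤ W * g := by
    rw [hN, hW', hg, ← mul_pow]
    have h1 : (n : ℝ) ≤ 8 * M * (e + 1) := by exact_mod_cast hen
    gcongr
  have hgain : (g + 2 * N) ^ κ * Real.exp (8 * y) ≤ (2 * (g + N)) ^ κ := by
    have h1 : g + 2 * N ≤ 2 * (g + N) * Real.exp (-(1 / (4 * W))) := by
      have h2 := Real.add_one_le_exp (-(1 / (4 * W)) : ℝ)
      have h3 : 2 * (g + N) * (1 / (4 * W)) ≤ g := by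
        rw [mul_one_div, div_le_iff₀ (by positivity)]
        nlinarith
      calc g + 2 * N ≤ 2 * (g + N) - 2 * (g + N) * (1 / (4 * W)) := by linarith
        _ = 2 * (g + N) * (-(1 / (4 * W)) + 1) := by ring
        _ ≤ 2 * (g + N) * Real.exp (-(1 / (4 * W))) := by gcongr
    have hexp : κ * -(1 / (4 * W)) + 8 * y ≤ (0 : ℝ) := by
      have h2 : (n : ℝ) ≤ 2 * (V * t * κ) := by exact_mod_cast hnκ
      have h3 : 8 * y ≤ κ * (1 / (4 * W)) := by
        rw [hy, mul_one_div, le_div_iff₀ (by positivity), mul_div_assoc', div_mul_eq_mul_div,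
          div_le_iff₀ (by positivity)]
        calc (8 * n * (4 * W) : ℝ) = 32 * W * n := by ring
          _ ≤ 32 * W * (2 * (V * t * κ)) := by gcongr
          _ = κ * (64 * V * t * W) := by ring
      linarith
    calc (g + 2 * N) ^ κ * Real.exp (8 * y)
        ≤ (2 * (g + N) * Real.exp (-(1 / (4 * W)))) ^ κ * Real.exp (8 * y) := by gcongr
      _ = (2 * (g + N)) ^ κ * (Real.exp (κ * -(1 / (4 * W))) * Real.exp (8 * y)) := by
          rw [mul_pow, ← Real.exp_nat_mul]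
          ring
      _ ≤ (2 * (g + N)) ^ κ * 1 := by
          rw [← Real.exp_add]
          gcongr
          exact Real.exp_le_one_iff.2 hexp
      _ = _ := mul_one _
  have hsum : ∑ i ∈ range (d + 1), n.choose i ≤ (d + 1) * n.choose d := by
    have h1 := ParTrade.binSum_le (g := n) (j := d) (by omega)
    unfold ParTrade.binSum at h1
    exact h1
  have hX4 : (2 * ((d + b).choose d) * S * (d + 1) : ℝ) < Real.exp (8 * y) := by
    calc (2 * ((d + b).choose d) * S * (d + 1) : ℝ)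
        ≤ Real.exp y * Real.exp y * Real.exp y * Real.exp y := by gcongr
      _ = Real.exp (4 * y) := by
          rw [← Real.exp_add, ← Real.exp_add, ← Real.exp_add]
          congr 1
          ring
      _ < Real.exp (8 * y) := Real.exp_lt_exp.2 (by linarith)
  have hCpos : (0 : ℝ) < n.choose d := by exact_mod_cast Nat.choose_pos (by omega)
  have hsum' : ((∑ i ∈ range (d + 1), n.choose i : ℕ) : ℝ) ≤ (d + 1) * n.choose d := by
    exact_mod_cast hsum
  have hfin : ((2 * ((d + b).choose d) * (S * (((e + 1) ^ t + 2 * n ^ t) ^ κ *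
      ∑ i ∈ range (d + 1), n.choose i)) : ℕ) : ℝ) <
      (((2 * ((e + 1) ^ t + n ^ t)) ^ κ * n.choose d : ℕ) : ℝ) := by
    have e1 : ((2 * ((d + b).choose d) * (S * (((e + 1) ^ t + 2 * n ^ t) ^ κ *
        ∑ i ∈ range (d + 1), n.choose i)) : ℕ) : ℝ) =
        2 * ((d + b).choose d) * (S * ((g + 2 * N) ^ κ *
          ((∑ i ∈ range (d + 1), n.choose i : ℕ) : ℝ))) := by
      rw [hg, hN]
      push_cast
      rfl
    have e2 : (((2 * ((e + 1) ^ t + n ^ t)) ^ κ * n.choose d : ℕ) : ℝ) =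
        (2 * (g + N)) ^ κ * n.choose d := by
      rw [hg, hN]
      push_cast
      rfl
    rw [e1, e2]
    calc 2 * ((d + b).choose d) * (S * ((g + 2 * N) ^ κ *
          ((∑ i ∈ range (d + 1), n.choose i : ℕ) : ℝ)))
        ≤ 2 * ((d + b).choose d) * (S * ((g + 2 * N) ^ κ * ((d + 1) * n.choose d))) := by
          gcongr
      _ = n.choose d * ((g + 2 * N) ^ κ * (2 * ((d + b).choose d) * S * (d + 1))) := by ring
      _ < n.choose d * ((g + 2 * N) ^ κ * Real.exp (8 * y)) := by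
          gcongr
      _ ≤ n.choose d * (2 * (g + N)) ^ κ := by gcongr
      _ = (2 * (g + N)) ^ κ * n.choose d := mul_comm _ _
  exact_mod_cast hfin

end Pool.Agent.MP_9cec2c_lc.SumProd
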