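import Pool.Agent.Lib.MP_9cec2c_lc.XPGood

/-!
Many sets of variables contain no boundary: the case of almost optimal expansion.
-/

set_option autoImplicit false
set_option linter.unusedSectionVars false

namespace Pool.Agent.MP_9cec2c_lc.SumProd

open Finset
open Pool.Agent.MP_9cec2c_lc.ResPoly (bd mem_bd)

variable {n m : ℕ}

/-- The boundary of a set of clauses with many variables. -/
theorem bd_large {Z : Fin m → Finset (Fin n)} {w N : ℕ} (hZ : ∀ i, (Z i).card = w)
    {I : Finset (Fin m)}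
    (h : N * (w * I.card) ≤ N * (I.biUnion Z).card + N * I.card + w * I.card) :
    N * (w * I.card) ≤ N * (bd Z I).card + 2 * (N * I.card) + 2 * (w * I.card) := by
  have h1 := Nat.mul_le_mul_left N (two_un Z (fun i => (hZ i).le) I)
  have h2 : N * (2 * (I.biUnion Z).card) = 2 * (N * (I.biUnion Z).card) := by ring
  have h3 : N * (w * I.card + (bd Z I).card) = N * (w * I.card) + N * (bd Z I).card := by ring
  omega

theorem bd_large_five {Z : Fin m → Finset (Fin n)} {w N : ℕ} (hZ : ∀ i, (Z i).card = w)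
    (hw : 3 ≤ w) (hN : 16 ≤ N) {I : Finset (Fin m)}
    (h : N * (w * I.card) ≤ N * (I.biUnion Z).card + N * I.card + w * I.card) :
    w * I.card ≤ 5 * (bd Z I).card := by
  have h1 := bd_large hZ h
  obtain ⟨w', rfl⟩ : ∃ w', w = w' + 3 := ⟨w - 3, by omega⟩
  obtain ⟨N', rfl⟩ : ∃ N', N = N' + 16 := ⟨N - 16, by omega⟩
  refine Nat.le_of_mul_le_mul_left (c := N' + 16) ?_ (by omega)
  have h2 : 4 * ((N' + 16) * ((w' + 3) * I.card)) = 10 * ((N' + 16) * I.card) +
      10 * ((w' + 3) * I.card) + (2 + 54 * w' + 2 * N' + 4 * (N' * w')) * I.card := by ring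
  have h3 : (N' + 16) * (5 * (bd Z I).card) = 5 * ((N' + 16) * (bd Z I).card) := by ring
  omega

/-- The exponent of a dense set of clauses. -/
theorem exponent {w t E j B : ℕ} (hw : 3 ≤ w) (hE2 : 2 ≤ E) (hE : E * (t + 1) + w ≤ E * w)
    (hj : 2 ≤ j) (h : 8 * E * (w * j) ≤ 8 * E * B + 2 * (8 * E * j) + 2 * (w * j)) :
    8 * E * t + w * j ≤ 8 * E * B := by
  obtain ⟨w', rfl⟩ : ∃ w', w = w' + 3 := ⟨w - 3, by omega⟩
  obtain ⟨E', rfl⟩ : ∃ E', E = E' + 2 := ⟨E - 2, by omega⟩
  obtain ⟨j', rfl⟩ : ∃ j', j = j' + 2 := ⟨j - 2, by omega⟩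
  have h1 : 8 * (E' + 2) * ((w' + 3) * (j' + 2)) + 8 * (w' + 3) + 8 * (E' + 2) =
      8 * ((E' + 2) * (w' + 3)) + 16 * ((E' + 2) * (j' + 2)) + 3 * ((w' + 3) * (j' + 2)) +
      (6 + 18 * w' + 8 * (E' * w') + 7 * j' + 13 * (w' * j') + 8 * (E' * j') +
        8 * (E' * w' * j')) := by ring
  have h2 : 2 * (8 * (E' + 2) * (j' + 2)) = 16 * ((E' + 2) * (j' + 2)) := by ring
  have h3 : 8 * (E' + 2) * t + 8 * (E' + 2) + 8 * (w' + 3) ≤ 8 * ((E' + 2) * (w' + 3)) := by
    have h4 : 8 * (E' + 2) * t + 8 * (E' + 2) + 8 * (w' + 3) =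
        8 * ((E' + 2) * (t + 1) + (w' + 3)) := by ring
    rw [h4]
    exact Nat.mul_le_mul_left _ hE
  omega

/-- A set that avoids the traps contains no boundary. -/
theorem good_of_avoid_gen {Z : Fin m → Finset (Fin n)} {w θ r : ℕ} (hZ : ∀ i, (Z i).card = w)
    (hθ : θ < w) (hbd : ∀ I : Finset (Fin m), 1 ≤ I.card → I.card ≤ r → bd Z I ≠ ∅)
    {T1 T : Finset (Fin n)} (hT : T ⊆ T1)
    (h1 : ∀ i, ∀ Y ⊆ Z i, Y.card = θ + 1 → Y ⊆ T1 → Disjoint T (Z i))
    (h2 : ∀ I : Finset (Fin m), 2 ≤ I.card → I.card ≤ r → I ∈ dense Z w θ I.card →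
      bd Z I ⊆ T1 → Disjoint T (I.biUnion Z))
    (I : Finset (Fin m)) (hI : I.card ≤ r) (hb : bd Z I ⊆ T) : I = ∅ := by
  classical
  by_contra hne
  have hpos : 0 < I.card := card_pos.2 (nonempty_iff_ne_empty.2 hne)
  have h3 : ∀ i, (T ∩ Z i).card ≤ θ := by
    intro i
    by_cases h4 : θ + 1 ≤ (T1 ∩ Z i).card
    · obtain ⟨Y, hY, hYc⟩ := exists_subset_card_eq h4
      have h5 := h1 i Y (hY.trans inter_subset_right) hYc (hY.trans inter_subset_left)
      rw [disjoint_iff_inter_eq_empty.1 h5, card_empty]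
      exact Nat.zero_le _
    · have h5 : (T ∩ Z i).card ≤ (T1 ∩ Z i).card :=
        card_le_card (inter_subset_inter hT (Subset.refl _))
      omega
  have h4 : (bd Z I).card ≤ θ * I.card := by
    have h5 : bd Z I ⊆ I.biUnion fun i => T ∩ Z i := by
      intro v hv
      obtain ⟨i, hi, hvi, -⟩ := mem_bd.1 hv
      exact mem_biUnion.2 ⟨i, hi, mem_inter.2 ⟨hb hv, hvi⟩⟩
    refine (card_le_card h5).trans (card_biUnion_le.trans ?_)
    rw [mul_comm, ← smul_eq_mul]
    exact sum_le_card_nsmul _ _ _ fun i _ => h3 i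
  have h5 := two_un Z (fun i => (hZ i).le) I
  have hc2 : 2 ≤ I.card := by
    by_contra hcon
    have h7 : I.card = 1 := by omega
    obtain ⟨i, rfl⟩ := card_eq_one.1 h7
    have h8 : bd Z {i} = Z i := by
      ext v
      rw [mem_bd]
      constructor
      · rintro ⟨j, hj, hvj, -⟩
        rw [mem_singleton] at hj
        rwa [← hj]
      · intro hv
        refine ⟨i, mem_singleton_self i, hv, fun j hj _ => ?_⟩
        rwa [mem_singleton] at hj
    rw [h8, hZ i, card_singleton, mul_one] at h4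
    omega
  have h7 : I ∈ dense Z w θ I.card := by
    unfold dense
    rw [mem_filter, mem_powersetCard]
    refine ⟨⟨subset_univ _, rfl⟩, h5.trans ?_⟩
    rw [add_mul]
    omega
  have h8 := h2 I hc2 hI h7 (hb.trans hT)
  refine hbd I (by omega) hI ?_
  rw [eq_empty_iff_forall_notMem]
  intro v hv
  exact disjoint_left.1 h8 (hb hv) (bd_subset_un Z I hv)

/-- Many sets of variables contain no boundary. -/
theorem count_fair {Z : Fin m → Finset (Fin n)} {w r c E t P d b : ℕ} (hZ : ∀ i, (Z i).card = w)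
    (hw : 3 ≤ w) (hE2 : 2 ≤ E) (hE : E * (t + 1) + w ≤ E * w)
    (hexp : ∀ I : Finset (Fin m), I.card ≤ r →
      8 * E * (w * I.card) ≤ 8 * E * (I.biUnion Z).card + 8 * E * I.card + w * I.card)
    (hm : m ≤ n * c ^ w) (hc : 1 ≤ c) (hP : 1 ≤ P)
    (hdense : ∀ j, 2 ≤ j → j ≤ r →
      ((dense Z w (w - 2) j).card : ℝ) ≤ n * (2 * (12 * c : ℝ) ^ w) ^ j)
    (hn : 0 < n) (hdb : d + b ≤ n)
    (hδ : ((d + b : ℕ) : ℝ) / n ≤ (1 / (49152 * c * P) : ℝ) ^ (8 * E))
    (hb : (n : ℝ) * (((d + b : ℕ) : ℝ) / n) ^ t ≤ 2 * P * 32 ^ w * b) :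
    ∃ TT : Finset (Finset (Fin n)), (∀ T ∈ TT, T.card = d ∧
      ∀ I : Finset (Fin m), I.card ≤ r → bd Z I ⊆ T → I = ∅) ∧
      (n.choose d : ℝ) ≤ 2 * ((d + b).choose d) * TT.card := by
  classical
  obtain ⟨q, hq⟩ : ∃ q : ℝ, q = 1 / (49152 * c * P) := ⟨_, rfl⟩
  obtain ⟨δ, hδ'⟩ : ∃ δ : ℝ, δ = ((d + b : ℕ) : ℝ) / n := ⟨_, rfl⟩
  rw [← hδ'] at hb
  rw [← hq, ← hδ'] at hδ
  have hc' : (1 : ℝ) ≤ c := by exact_mod_cast hc
  have hP' : (1 : ℝ) ≤ P := by exact_mod_cast hP
  have hn' : (0 : ℝ) < n := by exact_mod_cast hn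
  have hq0 : 0 < q := by
    rw [hq]
    positivity
  have hδ0 : 0 ≤ δ := by
    rw [hδ']
    positivity
  obtain ⟨u, hu⟩ : ∃ u : ℝ, u = 768 * c * q := ⟨_, rfl⟩
  have hu0 : 0 < u := by
    rw [hu]
    positivity
  have huP : u * (64 * P) = 1 := by
    rw [hu, hq]
    field_simp
    norm_num
  have hu1 : u ≤ 1 / 64 := by nlinarith
  have hcq : c * q ≤ 1 := by
    rw [hu] at hu1
    nlinarith
  have hq1 : q ≤ 1 := by nlinarith
  obtain ⟨Y, hY⟩ : ∃ Y : ℝ, Y = n * δ ^ t / 32 ^ w := ⟨_, rfl⟩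
  have hY0 : 0 ≤ Y := by
    rw [hY]
    positivity
  have hYb : Y ≤ 2 * P * b := by
    rw [hY, div_le_iff₀ (by positivity)]
    linarith
  have hYn : (n : ℝ) * δ ^ t = Y * 32 ^ w := by
    rw [hY]
    field_simp
  have ht : t + 2 ≤ w := by
    by_contra hcon
    have h1 : w ≤ t + 1 := by omega
    have h2 : E * w ≤ E * (t + 1) := Nat.mul_le_mul_left _ h1
    omega
  -- the traps
  obtain ⟨tr1, htr1⟩ : ∃ tr1 : Finset (Fin m × Finset (Fin n)), tr1 =
      (univ : Finset (Fin m)).biUnion fun i =>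
        ((Z i).powersetCard (w - 2 + 1)).image fun Y => (i, Y) := ⟨_, rfl⟩
  obtain ⟨tr2, htr2⟩ : ∃ tr2 : Finset (Finset (Fin m)), tr2 =
      (Icc 2 r).biUnion fun j => dense Z w (w - 2) j := ⟨_, rfl⟩
  have htr1c : (tr1.card : ℝ) ≤ n * c ^ w * 2 ^ w := by
    have h1 : tr1.card ≤ m * 2 ^ w := by
      rw [htr1]
      refine (card_biUnion_le_card_mul _ _ (2 ^ w) fun i _ => ?_).trans (by
        rw [card_univ, Fintype.card_fin])
      refine card_image_le.trans ?_
      rw [card_powersetCard, hZ i]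
      exact Nat.choose_le_two_pow _ _
    calc (tr1.card : ℝ) ≤ ((m * 2 ^ w : ℕ) : ℝ) := by exact_mod_cast h1
      _ ≤ ((n * c ^ w * 2 ^ w : ℕ) : ℝ) := by
          exact_mod_cast Nat.mul_le_mul_right _ hm
      _ = n * c ^ w * 2 ^ w := by push_cast; ring
  have hwpow : ∀ k : ℕ, (k : ℝ) ≤ 2 ^ k := fun k => by exact_mod_cast Nat.lt_two_pow_self.le
  have hsum1 : ∑ k ∈ tr1, ((Z k.1).card : ℝ) * δ ^ k.2.card ≤ Y * u := by
    have h1 : ∀ k ∈ tr1, ((Z k.1).card : ℝ) * δ ^ k.2.card ≤ w * (δ ^ t * q ^ w) := by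
      intro k hk
      rw [htr1, mem_biUnion] at hk
      obtain ⟨i, -, hk⟩ := hk
      obtain ⟨Y, hY, rfl⟩ := mem_image.1 hk
      rw [mem_powersetCard] at hY
      obtain ⟨g, hg⟩ : ∃ g, w = t + 1 + g := ⟨w - t - 1, by omega⟩
      have hgE : w ≤ 8 * E * g := by
        have h3 : E * w = E * (t + 1) + E * g := by rw [hg, ← mul_add]
        have h4 : 8 * E * g = 8 * (E * g) := by ring
        omega
      have e1 : w - 2 + 1 = t + g := by omega
      rw [hZ, hY.2, e1, pow_add]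
      have h2 : δ ^ g ≤ q ^ w := by
        calc δ ^ g ≤ (q ^ (8 * E)) ^ g := by gcongr
          _ = q ^ (8 * E * g) := (pow_mul _ _ _).symm
          _ ≤ q ^ w := pow_le_pow_of_le_one hq0.le hq1 hgE
      gcongr
    calc ∑ k ∈ tr1, ((Z k.1).card : ℝ) * δ ^ k.2.card ≤ ∑ k ∈ tr1, (w * (δ ^ t * q ^ w) : ℝ) :=
          sum_le_sum h1
      _ = tr1.card * (w * (δ ^ t * q ^ w)) := by rw [sum_const, nsmul_eq_mul]
      _ ≤ (n * c ^ w * 2 ^ w) * (2 ^ w * (δ ^ t * q ^ w)) := by
          have h2 := hwpow w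
          gcongr
      _ = n * δ ^ t * (4 * c * q) ^ w := by
          rw [mul_pow, mul_pow, show (4 : ℝ) = 2 * 2 by norm_num, mul_pow]
          ring
      _ = Y * (128 * c * q) ^ w := by
          rw [hYn, mul_assoc, ← mul_pow]
          congr 2
          ring
      _ ≤ Y * u := by
          refine mul_le_mul_of_nonneg_left ?_ hY0
          have h2 : 128 * c * q ≤ u := by
            rw [hu]
            nlinarith [mul_pos (by linarith : (0 : ℝ) < c) hq0]
          calc (128 * c * q) ^ w ≤ (128 * c * q) ^ 1 :=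
                pow_le_pow_of_le_one (by positivity) (by linarith) (by omega)
            _ ≤ u := by rwa [pow_one]
  have hsum2 : ∑ I ∈ tr2, ((I.biUnion Z).card : ℝ) * δ ^ (bd Z I).card ≤ Y * u := by
    have h1 : ∑ I ∈ tr2, ((I.biUnion Z).card : ℝ) * δ ^ (bd Z I).card ≤
        ∑ j ∈ Icc 2 r, ∑ I ∈ dense Z w (w - 2) j,
          ((I.biUnion Z).card : ℝ) * δ ^ (bd Z I).card := by
      rw [htr2, sum_biUnion]
      intro j _ j' _ hjj'
      refine disjoint_left.2 fun I hI hI' => hjj' ?_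
      unfold dense at hI hI'
      rw [mem_filter, mem_powersetCard] at hI hI'
      rw [← hI.1.2, hI'.1.2]
    refine h1.trans ?_
    have h2 : ∀ j ∈ Icc 2 r, ∑ I ∈ dense Z w (w - 2) j,
        ((I.biUnion Z).card : ℝ) * δ ^ (bd Z I).card ≤ Y * (2 * u * (1 / 2) ^ j) := by
      intro j hj
      rw [mem_Icc] at hj
      have h3 : ∀ I ∈ dense Z w (w - 2) j, ((I.biUnion Z).card : ℝ) * δ ^ (bd Z I).card ≤
          ((w * j : ℕ) : ℝ) * (δ ^ t * q ^ (w * j)) := by
        intro I hI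
        unfold dense at hI
        rw [mem_filter, mem_powersetCard] at hI
        obtain ⟨⟨-, hIj⟩, -⟩ := hI
        have e1 : (I.biUnion Z).card ≤ w * j := by
          refine card_biUnion_le.trans ?_
          rw [← hIj, mul_comm, ← smul_eq_mul]
          exact sum_le_card_nsmul _ _ _ fun i _ => (hZ i).le
        have e2 := bd_large hZ (hexp I (by omega))
        rw [hIj] at e2
        have e3 := exponent hw hE2 hE hj.1 e2
        have e4 : t ≤ (bd Z I).card := by
          refine Nat.le_of_mul_le_mul_left (c := 8 * E) ?_ (by omega)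
          omega
        obtain ⟨e, he⟩ : ∃ e, (bd Z I).card = t + e := ⟨(bd Z I).card - t, by omega⟩
        have e6 : w * j ≤ 8 * E * e := by
          rw [he, mul_add] at e3
          omega
        have e7 : δ ^ (bd Z I).card ≤ δ ^ t * q ^ (w * j) := by
          rw [he, pow_add]
          refine mul_le_mul_of_nonneg_left ?_ (by positivity)
          calc δ ^ e ≤ (q ^ (8 * E)) ^ e := by gcongr
            _ = q ^ (8 * E * e) := (pow_mul _ _ _).symm
            _ ≤ q ^ (w * j) := pow_le_pow_of_le_one hq0.le hq1 e6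
        have e8 : ((I.biUnion Z).card : ℝ) ≤ ((w * j : ℕ) : ℝ) := by exact_mod_cast e1
        gcongr
      calc ∑ I ∈ dense Z w (w - 2) j, ((I.biUnion Z).card : ℝ) * δ ^ (bd Z I).card
          ≤ ∑ I ∈ dense Z w (w - 2) j, ((w * j : ℕ) : ℝ) * (δ ^ t * q ^ (w * j)) := sum_le_sum h3
        _ = (dense Z w (w - 2) j).card * (((w * j : ℕ) : ℝ) * (δ ^ t * q ^ (w * j))) := by
            rw [sum_const, nsmul_eq_mul]
        _ ≤ (n * (2 * (12 * c : ℝ) ^ w) ^ j) * (2 ^ (w * j) * (δ ^ t * q ^ (w * j))) := by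
            have e1 := hdense j hj.1 hj.2
            have e2 := hwpow (w * j)
            gcongr
        _ = n * δ ^ t * (2 * (24 * c * q) ^ w) ^ j := by
            rw [pow_mul 2 w j, pow_mul q w j, show (24 * c * q : ℝ) = 2 * (12 * c * q) by ring,
              mul_pow 2 ((2 * (12 * c * q)) ^ w) j,
              mul_pow 2 ((12 * (c : ℝ)) ^ w) j, mul_pow 2 (12 * c * q) w,
              mul_pow (12 * (c : ℝ)) q w, mul_pow (2 ^ w) ((12 * (c : ℝ)) ^ w * q ^ w) j,
              mul_pow ((12 * (c : ℝ)) ^ w) (q ^ w) j]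
            ring
        _ = Y * (32 ^ w * (2 * (24 * c * q) ^ w) ^ j) := by
            rw [hYn]
            ring
        _ ≤ Y * ((32 ^ w) ^ j * (2 * (24 * c * q) ^ w) ^ j) := by
            refine mul_le_mul_of_nonneg_left (mul_le_mul_of_nonneg_right ?_ (by positivity)) hY0
            exact le_self_pow₀ (one_le_pow₀ (by norm_num)) (by omega)
        _ = Y * (2 * u ^ w) ^ j := by
            rw [← mul_pow, hu]
            congr 2
            rw [show (768 * c * q : ℝ) = 32 * (24 * c * q) by ring, mul_pow 32]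
            ring
        _ ≤ Y * (2 * u * (1 / 2) ^ j) := by
            refine mul_le_mul_of_nonneg_left ?_ hY0
            have e1 : 2 * u ^ w ≤ 2 * u := by
              have : u ^ w ≤ u ^ 1 :=
                pow_le_pow_of_le_one (by positivity) (by linarith) (by omega)
              rw [pow_one] at this
              linarith
            obtain ⟨i, rfl⟩ : ∃ i, j = i + 2 := ⟨j - 2, by omega⟩
            calc (2 * u ^ w) ^ (i + 2) ≤ (2 * u) ^ (i + 2) := by gcongr
              _ = (2 * u) ^ i * (2 * u) * (2 * u) := by ring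
              _ ≤ (1 / 2) ^ i * (1 / 4) * (2 * u) := by
                  gcongr <;> linarith
              _ = 2 * u * (1 / 2) ^ (i + 2) := by
                  rw [pow_add]
                  norm_num
                  ring
    refine (sum_le_sum h2).trans ?_
    rw [← mul_sum, ← mul_sum]
    refine mul_le_mul_of_nonneg_left ?_ hY0
    have h3 : ∑ j ∈ Icc 2 r, (1 / 2 : ℝ) ^ j ≤ 1 / 2 := by
      have hgeo : ∀ r : ℕ, 1 ≤ r → ∑ i ∈ Icc 2 r, (1 / 2 : ℝ) ^ i = 1 / 2 - (1 / 2 : ℝ) ^ r := by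
        intro r hr
        induction r, hr using Nat.le_induction with
        | base => norm_num
        | succ r hr ih =>
          rw [sum_Icc_succ_top (by omega), ih, pow_succ]
          ring
      rcases Nat.eq_zero_or_pos r with rfl | hr
      · simp
      · rw [hgeo r hr]
        have : (0 : ℝ) < (1 / 2 : ℝ) ^ r := by positivity
        linarith
    nlinarith
  obtain ⟨BB, hBB⟩ : ∃ BB : (Fin m × Finset (Fin n)) ⊕ Finset (Fin m) → Finset (Fin n),
      BB = Sum.elim (fun k => k.2) fun I => bd Z I := ⟨_, rfl⟩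
  obtain ⟨RR, hRR⟩ : ∃ RR : (Fin m × Finset (Fin n)) ⊕ Finset (Fin m) → Finset (Fin n),
      RR = Sum.elim (fun k => Z k.1) fun I => I.biUnion Z := ⟨_, rfl⟩
  have hcount := count_good (n := n) (d := d) (b := b) (tr1.disjSum tr2) BB RR
    (fun T => ∀ I : Finset (Fin m), I.card ≤ r → bd Z I ⊆ T → I = ∅)
    (fun T1 T _ hT havoid => by
      refine good_of_avoid_gen (θ := w - 2) hZ (by omega) (fun I hI1 hIr hcon => ?_) hT
        (fun i Y hY hYc hYT => ?_) fun I hI2 hIr hId hbT => ?_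
      · have h1 := bd_large_five hZ hw (by omega) (hexp I hIr)
        rw [hcon, card_empty, mul_zero] at h1
        have h2 : 0 < w * I.card := Nat.mul_pos (by omega) (by omega)
        omega
      · have h1 := havoid (Sum.inl (i, Y)) (inl_mem_disjSum.2 (by
          rw [htr1, mem_biUnion]
          exact ⟨i, mem_univ _, mem_image_of_mem _ (mem_powersetCard.2 ⟨hY, hYc⟩)⟩)) (by
          rw [hBB]
          exact hYT)
        rw [hRR] at h1
        exact h1
      · have h1 := havoid (Sum.inr I) (inr_mem_disjSum.2 (by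
          rw [htr2, mem_biUnion]
          exact ⟨I.card, mem_Icc.2 ⟨hI2, hIr⟩, hId⟩)) (by
          rw [hBB]
          exact hbT)
        rw [hRR] at h1
        exact h1)
    hdb hn (by
      rw [sum_disjSum, hBB, hRR, ← hδ']
      simp only [Sum.elim_inl, Sum.elim_inr]
      have h1 : Y * u ≤ 2 * P * b * u := mul_le_mul_of_nonneg_right hYb hu0.le
      have h2 : 2 * P * b * u * 32 = b := by
        linear_combination (b : ℝ) * huP
      have h3 : (0 : ℝ) ≤ b := by positivity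
      linarith)
  refine ⟨(powersetCard d (univ : Finset (Fin n))).filter
    (fun T => ∀ I : Finset (Fin m), I.card ≤ r → bd Z I ⊆ T → I = ∅), fun T hT => ?_, hcount⟩
  rw [mem_filter, mem_powersetCard] at hT
  exact ⟨hT.1.2, hT.2⟩

end Pool.Agent.MP_9cec2c_lc.SumProd
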