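import Mathlib

/-!
Semantic cutting planes refutations of random CNFs.
-/

set_option autoImplicit false

namespace Pool.Agent.MP_9cec2c_lc.NarrowCNF

/-- A clause: a finite set of literals, read as their disjunction. The literal `l` is the variable
`l.1` if `l.2` is true, and its negation if `l.2` is false. -/
abbrev Clause (V : Type) : Type := Finset (V × Bool)

/-- The assignment `x` satisfies the clause `C`. -/
def Holds {V : Type} (x : V → Bool) (C : Clause V) : Prop := ∃ l ∈ C, x l.1 = l.2

/-- The line `T` is an inequality `0 ≤ a x + b x`, where the real function `a` depends only on the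
variables in `A`, and `b` depends only on the other variables. -/
def Simple {V : Type} (A : Set V) (T : (V → Bool) → Prop) : Prop :=
  ∃ a b : (V → Bool) → ℝ, DependsOn a A ∧ DependsOn b {v | v ∉ A} ∧ ∀ x, T x ↔ 0 ≤ a x + b x

/-- The lines `L 0, ..., L (S - 1)` form a refutation of `F`. Some line is false for all
assignments. Each line is implied by a clause of `F` or by at most `k` earlier lines. -/
def IsRefutation {V : Type} (k : ℕ) (F : Finset (Clause V)) (A : Set V) {S : ℕ}
    (L : Fin S → (V → Bool) → Prop) : Prop :=
  (∀ i, Simple A (L i)) ∧ (∃ i, ∀ x, ¬ L i x) ∧ ∀ i,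
    (∃ C ∈ F, ∀ x, Holds x C → L i x) ∨
    ∃ P : Finset (Fin S), P.card ≤ k ∧ (∀ j ∈ P, j < i) ∧ ∀ x, (∀ j ∈ P, L j x) → L i x

/-- The CNF `F` is unsatisfiable, and all its refutations have at least `t` lines. -/
def Hard {n : ℕ} (k t : ℕ) (A : Finset (Fin n)) (F : Finset (Clause (Fin n))) : Prop :=
  (∀ x, ∃ C ∈ F, ¬ Holds x C) ∧
    ∀ (S : ℕ) (L : Fin S → (Fin n → Bool) → Prop), IsRefutation k F (A : Set (Fin n)) L → t ≤ S

/-- A list of `m` clauses with `w` literals. The variables of the clause `i` are the values of the
injection `(f i).1`, their signs are `(f i).2`. -/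
abbrev ClauseList (n m w : ℕ) : Type := Fin m → (Fin w ↪ Fin n) × (Fin w → Bool)

/-- The CNF with the clauses of the list. -/
def toCNF {n m w : ℕ} (f : ClauseList n m w) : Finset (Clause (Fin n)) :=
  Finset.univ.image fun i => Finset.univ.image fun e => ((f i).1 e, (f i).2 e)

end Pool.Agent.MP_9cec2c_lc.NarrowCNF
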