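import Pool.Agent.Lib.MP_9cec2c_lc.NRLll
import Pool.Agent.Lib.MP_9cec2c_lc.NRDefs
import Pool.Agent.Lib.MP_9cec2c_lc.LRCore

/-!
The lower bound for narrow CNFs, in terms of the parameters.
-/

set_option autoImplicit false
set_option linter.unusedSectionVars false

namespace Pool.Agent.MP_9cec2c_lc.Narrow

open Finset
open Pool.Agent.MP_9cec2c_lc.LovSch (ClauseList toCNF Holds Clause posn FalseOn Bad rhit rtouch mix
  false_rclause tri_bound)
open Pool.Agent.MP_9cec2c_lc.NarrowCNF (IsRefutation)

variable {n m w : ℕ}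

/-- The variables of side `s` in the clause `i`. -/
def VS (col : Fin n → Bool) (f : ClauseList n m w) (s : Bool) (i : Fin m) : Finset (Fin n) :=
  (posn col s (f i)).image (f i).1

theorem card_VS (col : Fin n → Bool) (f : ClauseList n m w) (s : Bool) (i : Fin m) :
    (VS col f s i).card = (posn col s (f i)).card := by
  unfold VS
  exact card_image_of_injective _ (f i).1.injective

open scoped Classical in
/-- The values that make the clause `i` false. -/
noncomputable def fpat (f : ClauseList n m w) (i : Fin m) (u : Fin n) : Bool :=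
  if h : ∃ e, (f i).1 e = u then !(f i).2 h.choose else false

theorem fpat_eq (f : ClauseList n m w) (i : Fin m) (e : Fin w) :
    fpat f i ((f i).1 e) = !(f i).2 e := by
  unfold fpat
  have h : ∃ e', (f i).1 e' = (f i).1 e := ⟨e, rfl⟩
  rw [dif_pos h]
  have : h.choose = e := (f i).1.injective h.choose_spec
  rw [this]

theorem bd_iff {col : Fin n → Bool} {f : ClauseList n m w} {s : Bool} {i : Fin m}
    {x : Fin n → Bool} : Bd (VS col f s) (fpat f) i x ↔ FalseOn col s (f i) x := by
  unfold Bd FalseOn VS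
  constructor
  · intro h e he
    have h1 := h ((f i).1 e) (mem_image_of_mem _ (mem_filter.2 ⟨mem_univ _, he⟩))
    rw [fpat_eq] at h1
    rw [h1]
    cases (f i).2 e <;> simp
  · intro h u hu
    obtain ⟨e, he, rfl⟩ := mem_image.1 hu
    have h1 := h e (mem_filter.1 he).2
    rw [fpat_eq]
    revert h1
    cases x ((f i).1 e) <;> cases (f i).2 e <;> simp

/-- The clauses with few variables on the other side. -/
def poorS (col : Fin n → Bool) (v : ℕ) (f : ClauseList n m w) (s : Bool) : Finset (Fin m) :=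
  univ.filter fun i => (posn col (!s) (f i)).card < 2 * v

theorem bad_iff {col : Fin n → Bool} {v : ℕ} {f : ClauseList n m w} {s : Bool}
    {x : Fin n → Bool} :
    ¬ Bad col v f s x ↔ x ∈ sat (VS col f s) (fpat f) (poorS col v f s) := by
  rw [mem_sat]
  unfold Bad poorS
  push Not
  constructor
  · intro h i hi hb
    exact h i (mem_filter.1 hi).2 (bd_iff.1 hb)
  · intro h i hi hb
    exact h i (mem_filter.2 ⟨mem_univ _, hi⟩) (bd_iff.2 hb)

/-- The properties of random CNFs that are used. -/
structure NGood (col : Fin n → Bool) (f : ClauseList n m w) (v r j : ℕ) : Prop where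
  deg : ∀ s u, (univ.filter fun i : Fin m => (posn col (!s) (f i)).card < 2 * v ∧
    ∃ e, (f i).1 e = u).card ≤ j
  spread : ∀ M : Finset (Fin m), M.card = r → ∀ Z : Finset (Fin n),
    (∀ i ∈ M, 2 * v ≤ (univ.filter fun e => (f i).1 e ∈ Z).card) → v * r ≤ Z.card

theorem card_posn_add (col : Fin n → Bool) (s : Bool) (c : (Fin w ↪ Fin n) × (Fin w → Bool)) :
    (posn col s c).card + (posn col (!s) c).card = w := by
  unfold posn
  have h := card_filter_add_card_filter_not (s := (univ : Finset (Fin w)))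
    (fun e => col (c.1 e) = s)
  rw [card_univ, Fintype.card_fin] at h
  have h1 : ∀ e, (¬ col (c.1 e) = s) ↔ col (c.1 e) = !s := by
    intro e
    cases col (c.1 e) <;> cases s <;> simp
  simp only [h1] at h
  exact h

section

variable {col : Fin n → Bool} {f : ClauseList n m w} {v r j : ℕ}

open scoped Classical in
theorem deg_VS (hf : NGood col f v r j) (s : Bool) (u : Fin n) :
    ((poorS col v f s).filter fun c => u ∈ VS col f s c).card ≤ j := by
  refine (card_le_card fun i hi => ?_).trans (hf.deg s u)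
  rw [mem_filter] at hi
  unfold poorS at hi
  rw [mem_filter] at hi ⊢
  refine ⟨mem_univ _, hi.1.2, ?_⟩
  obtain ⟨e, -, he⟩ := mem_image.1 hi.2
  exact ⟨e, he⟩

theorem big_VS {s : Bool} {c : Fin m} (hc : c ∈ poorS col v f s) :
    w - 2 * v ≤ (VS col f s c).card := by
  rw [card_VS]
  have h1 := card_posn_add col s (f c)
  have h2 := (mem_filter.1 hc).2
  omega

open scoped Classical in
theorem nbr_VS (hf : NGood col f v r j) (s : Bool) (c : Fin m) :
    ((poorS col v f s).filter fun c' => ¬ Disjoint (VS col f s c') (VS col f s c)).card ≤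
      w * j := by
  have h1 : ((poorS col v f s).filter fun c' => ¬ Disjoint (VS col f s c') (VS col f s c)) ⊆
      (VS col f s c).biUnion fun u => (poorS col v f s).filter fun c' => u ∈ VS col f s c' := by
    intro c' hc'
    rw [mem_filter] at hc'
    obtain ⟨u, hu1, hu2⟩ := not_disjoint_iff.1 hc'.2
    exact mem_biUnion.2 ⟨u, hu2, mem_filter.2 ⟨hc'.1, hu1⟩⟩
  refine (card_le_card h1).trans ((card_biUnion_le_card_mul _ _ j fun u _ =>
    deg_VS hf s u).trans (Nat.mul_le_mul_right _ ?_))
  rw [card_VS]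
  have := card_posn_add col s (f c)
  omega

open scoped Classical in
/-- The conditional count. -/
theorem hit_cond (hf : NGood col f v r j) (h1 : 4 * (w * j) ≤ 2 ^ (w - 2 * v))
    (h2 : 8 * j ≤ 2 ^ (w - 2 * v)) (s : Bool) {M : Finset (Fin m)} {t : ℕ}
    (ht : ∀ x, M ⊆ rhit col v f s x → 2 * t ≤ (rtouch col f s M).card) :
    (univ.filter fun x : {x // ¬ Bad col v f s x} => M ⊆ rhit col v f s x.1).card * 2 ^ t ≤
      Fintype.card {x // ¬ Bad col v f s x} := by
  have hcard : Fintype.card {x // ¬ Bad col v f s x} =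
      (sat (VS col f s) (fpat f) (poorS col v f s)).card := by
    rw [Fintype.card_subtype]
    congr 1
    ext x
    rw [mem_filter, bad_iff]
    simp
  rcases (univ.filter fun x : {x // ¬ Bad col v f s x} =>
    M ⊆ rhit col v f s x.1).eq_empty_or_nonempty with h0 | ⟨x0, hx0⟩
  · rw [h0, card_empty, zero_mul]
    exact Nat.zero_le _
  · have hx0' := (mem_filter.1 hx0).2
    rw [hcard]
    refine le_trans (Nat.mul_le_mul_right _ ?_) (sat_pat (V := VS col f s) (p := fpat f)
      (ℓ := w - 2 * v) (d := w * j) (j := j) (I0 := poorS col v f s)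
      (fun c hc => big_VS hc) (fun c _ => nbr_VS hf s c) h1 (fun u => deg_VS hf s u) h2
      (rtouch col f s M) x0.1 (ht x0.1 hx0'))
    refine card_le_card_of_injOn (fun x => x.1) (fun x hx => ?_) fun a _ b _ h => Subtype.ext h
    rw [mem_coe, mem_filter] at hx
    rw [mem_coe, mem_filter]
    refine ⟨bad_iff.1 x.2, fun u hu => ?_⟩
    unfold rtouch at hu
    rw [mem_biUnion] at hu
    obtain ⟨i, hi, hu⟩ := hu
    rw [mem_image] at hu
    obtain ⟨e, he, rfl⟩ := hu
    have he' := (mem_filter.1 he).2
    have g1 := (mem_filter.1 (hx.2 hi)).2.2 e he'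
    have g2 := (mem_filter.1 (hx0' hi)).2.2 e he'
    have g3 : ∀ a b c : Bool, a ≠ c → b ≠ c → a = b := by decide
    exact g3 _ _ _ g1 g2

open scoped Classical in
theorem card_good (hf : NGood col f v r j) (h1 : 4 * (w * j) ≤ 2 ^ (w - 2 * v))
    (hw : 2 * v + 2 ≤ w) (s : Bool) : 0 < Fintype.card {x // ¬ Bad col v f s x} := by
  have hcard : Fintype.card {x // ¬ Bad col v f s x} =
      (sat (VS col f s) (fpat f) (poorS col v f s)).card := by
    rw [Fintype.card_subtype]
    congr 1
    ext x
    rw [mem_filter, bad_iff]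
    simp
  rw [hcard]
  exact sat_pos (V := VS col f s) (p := fpat f) (ℓ := w - 2 * v) (d := w * j)
    (fun c hc => big_VS hc) (fun c _ => nbr_VS hf s c) h1 (by omega)

/-- Membership in `A` as a Boolean. -/
def inS (A : Finset (Fin n)) (u : Fin n) : Bool := decide (u ∈ A)

theorem inS_true {A : Finset (Fin n)} {u : Fin n} : inS A u = true ↔ u ∈ A := by
  unfold inS
  simp

open scoped Classical in
/-- The lower bound in terms of the parameters. -/
theorem ncore {A : Finset (Fin n)} {u k S : ℕ} (hf : NGood (inS A) f v r j)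
    (h1 : 4 * (w * j) ≤ 2 ^ (w - 2 * v)) (h2 : 8 * j ≤ 2 ^ (w - 2 * v)) (hw : 2 * v + 2 ≤ w)
    (hk : 0 < k) (hr : 1 < r) (hu : 2 * u ≤ v) (hS : 4 * ((S + 1) * (k * r) ^ r) ≤ 2 ^ (u * r))
    (hru : 4 * r ≤ 2 ^ u) {L : Fin S → (Fin n → Bool) → Prop}
    (href : IsRefutation k (toCNF f) (A : Set (Fin n)) L) : False := by
  have hpos := card_good hf h1 hw
  have hM : ∀ s (M : Finset (Fin m)), M.card = r →
      (univ.filter fun x : {x // ¬ Bad (inS A) v f s x} =>
        M ⊆ rhit (inS A) v f s x.1).card ≤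
      Fintype.card {x // ¬ Bad (inS A) v f s x} / 2 ^ (u * r) := by
    intro s M hMr
    rw [Nat.le_div_iff_mul_le (by positivity)]
    refine hit_cond hf h1 h2 s fun x hx => ?_
    have h3 := hf.spread M hMr (rtouch (inS A) f s M) fun i hi => by
      have h4 := (mem_filter.1 (hx hi)).2.1
      refine h4.trans (card_le_card fun e he => ?_)
      rw [mem_filter]
      exact ⟨mem_univ _, mem_biUnion.2 ⟨i, hi, mem_image_of_mem _ he⟩⟩
    calc 2 * (u * r) = 2 * u * r := by ring
      _ ≤ v * r := Nat.mul_le_mul_right _ hu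
      _ ≤ _ := h3
  have hone : ∀ (i : Fin m), (univ.filter fun x : {x // ¬ Bad (inS A) v f false x} =>
        i ∈ rhit (inS A) v f false x.1).card ≤
      Fintype.card {x // ¬ Bad (inS A) v f false x} / 2 ^ u := by
    intro i
    rw [Nat.le_div_iff_mul_le (by positivity)]
    have h3 := hit_cond hf h1 h2 false (M := {i}) (t := u) fun x hx => by
      have h4 := (mem_filter.1 (hx (mem_singleton_self i))).2.1
      have h5 : rtouch (inS A) f false {i} = VS (inS A) f false i := by
        unfold rtouch VS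
        rw [singleton_biUnion]
      rw [h5, card_VS]
      omega
    simp only [singleton_subset_iff] at h3
    exact h3
  have hchoice : ∀ i, ∃ (α : {x // ¬ Bad (inS A) v f false x} → EReal)
      (β : {y // ¬ Bad (inS A) v f true y} → EReal),
      ∀ x y, ¬ L i (mix (inS A) x.1 y.1) ↔ β y < α x := by
    intro i
    obtain ⟨a, b, ha, hb, hL⟩ := href.1 i
    refine ⟨fun x => ((- b x.1 : ℝ) : EReal), fun y => ((a y.1 : ℝ) : EReal), fun x y => ?_⟩
    have e1 : a (mix (inS A) x.1 y.1) = a y.1 := ha fun u' hu' => by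
      unfold mix
      rw [if_pos (inS_true.2 (mem_coe.1 hu'))]
    have e2 : b (mix (inS A) x.1 y.1) = b x.1 := hb fun u' hu' => by
      unfold mix
      rw [if_neg fun h => (show u' ∉ (A : Set (Fin n)) from hu') (mem_coe.2 (inS_true.1 h))]
    rw [hL, e1, e2, not_le, EReal.coe_lt_coe_iff]
    constructor <;> intro h <;> linarith
  choose α β hαβ using hchoice
  obtain ⟨i0, hi0⟩ := href.2.1
  have hbnd : ∀ s, 4 * ((S + 1) * ((k * r) ^ r *
      (Fintype.card {x // ¬ Bad (inS A) v f s x} / 2 ^ (u * r)))) ≤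
      Fintype.card {x // ¬ Bad (inS A) v f s x} := by
    intro s
    obtain ⟨c, hc⟩ : ∃ c, c = Fintype.card {x // ¬ Bad (inS A) v f s x} / 2 ^ (u * r) := ⟨_, rfl⟩
    rw [← hc]
    calc 4 * ((S + 1) * ((k * r) ^ r * c)) = c * (4 * ((S + 1) * (k * r) ^ r)) := by ring
      _ ≤ c * 2 ^ (u * r) := Nat.mul_le_mul_left _ hS
      _ ≤ _ := by
        rw [hc]
        exact Nat.div_mul_le_self _ _
  have h := tri_bound (U := {x // ¬ Bad (inS A) v f false x})
    (V := {y // ¬ Bad (inS A) v f true y}) (I := Fin m)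
    (S := fun x => rhit (inS A) v f false x.1) (T := fun y => rhit (inS A) v f true y.1)
    (r := r) (s := r)
    (CU := Fintype.card {x // ¬ Bad (inS A) v f false x} / 2 ^ (u * r))
    (CV := Fintype.card {x // ¬ Bad (inS A) v f true x} / 2 ^ (u * r)) (k := k) (m := S)
    (c1 := Fintype.card {x // ¬ Bad (inS A) v f false x} / 2 ^ u) hr hr (hM false) (hM true) hone
    α β (fun i => by
      rcases href.2.2 i with ⟨C, hC, hC'⟩ | ⟨P, hP1, hP2, hP3⟩
      · left
        have hC1 : C ∈ toCNF f := hC
        unfold toCNF at hC1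
        obtain ⟨i', -, rfl⟩ := mem_image.1 hC1
        refine ⟨i', fun x y hxy => ?_⟩
        have h3 := (hαβ i x y).2 hxy
        exact false_rclause x.2 y.2 fun h4 => h3 (hC' _ h4)
      · right
        refine ⟨P, hP1, hP2, fun x y hxy => ?_⟩
        have h3 := (hαβ i x y).2 hxy
        by_contra hcon
        push Not at hcon
        refine h3 (hP3 _ fun j' hj' => ?_)
        by_contra h4
        exact absurd ((hαβ j' x y).1 h4) (not_lt.2 (hcon j' hj')))
    ⟨{i0}, by rw [card_singleton]; exact hk, fun x y => ⟨i0, mem_singleton_self _,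
      (hαβ i0 x y).1 (hi0 _)⟩⟩ (by
      have h3 := hbnd true
      have h4 := hpos true
      have h5 : (S + 1) * (r ^ r * (Fintype.card {x // ¬ Bad (inS A) v f true x} / 2 ^ (u * r))) ≤
          (S + 1) * ((k * r) ^ r *
            (Fintype.card {x // ¬ Bad (inS A) v f true x} / 2 ^ (u * r))) :=
        Nat.mul_le_mul_left _ (Nat.mul_le_mul_right _
          (Nat.pow_le_pow_left (Nat.le_mul_of_pos_left _ hk) _))
      omega)
  have h3 := hbnd false
  have h4 := hpos false
  have h5 : 4 * (r * (Fintype.card {x // ¬ Bad (inS A) v f false x} / 2 ^ u)) ≤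
      Fintype.card {x // ¬ Bad (inS A) v f false x} := by
    calc 4 * (r * (Fintype.card {x // ¬ Bad (inS A) v f false x} / 2 ^ u))
        = Fintype.card {x // ¬ Bad (inS A) v f false x} / 2 ^ u * (4 * r) := by ring
      _ ≤ Fintype.card {x // ¬ Bad (inS A) v f false x} / 2 ^ u * 2 ^ u :=
          Nat.mul_le_mul_left _ hru
      _ ≤ _ := Nat.div_mul_le_self _ _
  omega

end

end Pool.Agent.MP_9cec2c_lc.Narrow
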