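import Pool.Agent.Lib.MP_9cec2c_lc.NRCore
import Pool.Agent.Lib.MP_9cec2c_lc.LRHalf

/-!
Few unbalanced clauses of a random CNF contain a given variable.
-/

set_option autoImplicit false
set_option linter.unusedSectionVars false

namespace Pool.Agent.MP_9cec2c_lc.Narrow

open Finset
open Pool.Agent.MP_9cec2c_lc.SubstRed
open Pool.Agent.MP_9cec2c_lc.FormulaLines
open Pool.Agent.MP_9cec2c_lc.LovSch (ClauseList posn nonempty_emb emb_pr pr_and_le)

variable {n m w : ℕ}

/-- A given value at a given place of a random injection, with other values in a given set. -/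
theorem emb_fix (K : Finset (Fin w)) (Z : Finset (Fin n)) (e0 : Fin w) (he0 : e0 ∉ K) (u : Fin n)
    (hu : u ∈ Z) :
    (univ.filter fun g : Fin w ↪ Fin n => g e0 = u ∧ ∀ e ∈ K, g e ∈ Z).card * n ≤
      (univ.filter fun g : Fin w ↪ Fin n => ∀ e ∈ K, g e ∈ Z).card := by
  classical
  have h0 : (univ.filter fun g : Fin w ↪ Fin n => g e0 = u ∧ ∀ e ∈ K, g e ∈ Z).card * n =
      ((univ.filter fun g : Fin w ↪ Fin n => g e0 = u ∧ ∀ e ∈ K, g e ∈ Z) ×ˢ
        (univ : Finset (Fin n))).card := by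
    rw [card_product, card_univ, Fintype.card_fin]
  rw [h0]
  refine card_le_card_of_injOn (fun p => p.1.trans (Equiv.swap p.2 u).toEmbedding) ?_ ?_
  · rintro ⟨g, u'⟩ hg
    obtain ⟨hg1, hg2⟩ := (mem_filter.1 (mem_product.1 (mem_coe.1 hg)).1).2
    simp only at hg1 hg2
    refine mem_coe.2 (mem_filter.2 ⟨mem_univ _, fun e he => ?_⟩)
    have hne : g e ≠ u := fun h => he0 (g.injective (h.trans hg1.symm) ▸ he)
    simp only [Function.Embedding.trans_apply, Equiv.coe_toEmbedding]
    by_cases hu' : g e = u'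
    · rw [hu', Equiv.swap_apply_left]
      exact hu
    · rw [Equiv.swap_apply_of_ne_of_ne hu' hne]
      exact hg2 e he
  · rintro ⟨g, u₁⟩ hg ⟨g', u₂⟩ hg' heq
    have hg1 := (mem_filter.1 (mem_product.1 (mem_coe.1 hg)).1).2.1
    have hg2 := (mem_filter.1 (mem_product.1 (mem_coe.1 hg')).1).2.1
    simp only at hg1 hg2 heq
    have h3 : u₁ = u₂ := by
      have := DFunLike.congr_fun heq e0
      simpa only [Function.Embedding.trans_apply, Equiv.coe_toEmbedding, hg1, hg2,
        Equiv.swap_apply_right] using this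
    subst h3
    have h4 : g = g' := by
      ext e
      have := DFunLike.congr_fun heq e
      simp only [Function.Embedding.trans_apply, Equiv.coe_toEmbedding] at this
      exact congrArg _ ((Equiv.swap u₁ u).injective this)
    rw [h4]

theorem emb_fix_pr (hw : w ≤ n) (K : Finset (Fin w)) (Z : Finset (Fin n)) (e0 : Fin w)
    (he0 : e0 ∉ K) (u : Fin n) (hu : u ∈ Z) :
    pr (fun g : Fin w ↪ Fin n => g e0 = u ∧ ∀ e ∈ K, g e ∈ Z) ≤
      1 / n * ((Z.card : ℝ) / n) ^ K.card := by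
  classical
  have hne := nonempty_emb hw
  have hn : (0 : ℝ) < n := by
    have : 0 < n := lt_of_lt_of_le e0.pos hw
    exact_mod_cast this
  have h1 : ((univ.filter fun g : Fin w ↪ Fin n => g e0 = u ∧ ∀ e ∈ K, g e ∈ Z).card : ℝ) * n ≤
      (univ.filter fun g : Fin w ↪ Fin n => ∀ e ∈ K, g e ∈ Z).card := by
    exact_mod_cast emb_fix K Z e0 he0 u hu
  have hpos : (0 : ℝ) < Fintype.card (Fin w ↪ Fin n) := by exact_mod_cast Fintype.card_pos
  refine le_trans (b := 1 / n * pr (fun g : Fin w ↪ Fin n => ∀ e ∈ K, g e ∈ Z)) ?_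
    (mul_le_mul_of_nonneg_left (emb_pr hw K Z) (by positivity))
  rw [pr_eq, pr_eq, div_mul_div_comm, div_le_div_iff₀ hpos (by positivity)]
  nlinarith

/-- The probability that a random clause has few variables on the other side and contains a given
variable. -/
theorem pr_sided_mem {v : ℕ} (hw : w ≤ n) (hn : 34 ≤ n) (hv : 64 * v ≤ w) (col : Fin n → Bool)
    (s : Bool) (hcol : 64 * (univ.filter fun u => col u = s).card ≤ 33 * n) (u : Fin n) :
    pr (fun c : (Fin w ↪ Fin n) × (Fin w → Bool) =>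
      (posn col (!s) c).card < 2 * v ∧ ∃ e, c.1 e = u) ≤ 2 * w / n * (5 / 8) ^ w := by
  classical
  have hne := nonempty_emb hw
  have hn0 : (0 : ℝ) < n := by
    have : 0 < n := by omega
    exact_mod_cast this
  rcases Nat.eq_zero_or_pos v with hv0 | hv0
  · have h1 : pr (fun c : (Fin w ↪ Fin n) × (Fin w → Bool) =>
        (posn col (!s) c).card < 2 * v ∧ ∃ e, c.1 e = u) ≤ 0 := by
      rw [pr_eq]
      have : (univ.filter fun c : (Fin w ↪ Fin n) × (Fin w → Bool) =>
        (posn col (!s) c).card < 2 * v ∧ ∃ e, c.1 e = u) = ∅ := by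
        refine filter_eq_empty_iff.2 fun c _ h => ?_
        rw [hv0] at h
        omega
      rw [this, card_empty, Nat.cast_zero, zero_div]
    exact h1.trans (by positivity)
  have hn64 : 64 ≤ n := by omega
  obtain ⟨Z, hZ⟩ : ∃ Z, Z = insert u (univ.filter fun u' => col u' = s) := ⟨_, rfl⟩
  have huZ : u ∈ Z := by
    rw [hZ]
    exact mem_insert_self _ _
  have hp : ((Z.card : ℝ) / n) ≤ 17 / 32 := by
    have h1 : Z.card ≤ (univ.filter fun u' => col u' = s).card + 1 := by
      rw [hZ]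
      exact card_insert_le _ _
    have h2 : 32 * Z.card ≤ 17 * n := by omega
    rw [div_le_div_iff₀ hn0 (by norm_num)]
    have : ((32 * Z.card : ℕ) : ℝ) ≤ ((17 * n : ℕ) : ℝ) := by exact_mod_cast h2
    push_cast at this
    linarith
  have h1 : ∀ (e0 : Fin w) (J : Finset (Fin w)),
      pr (fun c : (Fin w ↪ Fin n) × (Fin w → Bool) =>
        (c.1 e0 = u ∧ ∀ e ∈ Jᶜ.erase e0, c.1 e ∈ Z) ∧ True) ≤
        2 / n * (17 / 32) ^ (w - J.card) := by
    intro e0 J
    refine (pr_and_le (fun g : Fin w ↪ Fin n => g e0 = u ∧ ∀ e ∈ Jᶜ.erase e0, g e ∈ Z)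
      (fun _ (_ : Fin w → Bool) => True) (q := 1) (fun g => pr_le_one _)).trans ?_
    rw [mul_one]
    refine (emb_fix_pr hw (Jᶜ.erase e0) Z e0 (notMem_erase _ _) u huZ).trans ?_
    have h3 : (Jᶜ).card = w - J.card := by rw [card_compl, Fintype.card_fin]
    have h4 : w - J.card ≤ (Jᶜ.erase e0).card + 1 := by
      rw [← h3]
      have := pred_card_le_card_erase (s := Jᶜ) (a := e0)
      omega
    have h5 : ((Z.card : ℝ) / n) ^ (Jᶜ.erase e0).card ≤ (17 / 32) ^ (Jᶜ.erase e0).card :=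
      pow_le_pow_left₀ (by positivity) hp _
    have h6 : (17 / 32 : ℝ) ^ ((Jᶜ.erase e0).card + 1) ≤ (17 / 32) ^ (w - J.card) := by
      have h7 : (Jᶜ.erase e0).card ≤ w - J.card := by
        rw [← h3]
        exact card_le_card (erase_subset _ _)
      rcases Nat.eq_or_lt_of_le h7 with h8 | h8
      · rw [h8]
        exact pow_le_pow_of_le_one (by norm_num) (by norm_num) (by omega)
      · have h9 : (Jᶜ.erase e0).card + 1 = w - J.card := by omega
        rw [h9]
    have h7 : (17 / 32 : ℝ) ^ (Jᶜ.erase e0).card ≤ 2 * (17 / 32) ^ (w - J.card) := by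
      have h8 : (0 : ℝ) < (17 / 32) ^ (Jᶜ.erase e0).card := by positivity
      rw [pow_succ] at h6
      linarith
    calc 1 / (n : ℝ) * ((Z.card : ℝ) / n) ^ (Jᶜ.erase e0).card
        ≤ 1 / n * (2 * (17 / 32) ^ (w - J.card)) :=
          mul_le_mul_of_nonneg_left (h5.trans h7) (by positivity)
      _ = 2 / n * (17 / 32) ^ (w - J.card) := by ring
  have h2 : ∀ e0 : Fin w, pr (fun c : (Fin w ↪ Fin n) × (Fin w → Bool) =>
      ∃ J ∈ (univ : Finset (Finset (Fin w))).filter (fun J => J.card < 2 * v),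
        (c.1 e0 = u ∧ ∀ e ∈ Jᶜ.erase e0, c.1 e ∈ Z) ∧ True) ≤ 2 / n * (5 / 8) ^ w := by
    intro e0
    refine (pr_exists _ _).trans ?_
    have h2 : ∑ J ∈ (univ : Finset (Finset (Fin w))).filter (fun J => J.card < 2 * v),
        pr (fun c : (Fin w ↪ Fin n) × (Fin w → Bool) =>
          (c.1 e0 = u ∧ ∀ e ∈ Jᶜ.erase e0, c.1 e ∈ Z) ∧ True) ≤
        ∑ J : Finset (Fin w), (2 / n * (64 : ℝ) ^ (2 * v)) *
          ((1 / 64) ^ J.card * (17 / 32) ^ (w - J.card)) := by
      rw [sum_filter]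
      refine sum_le_sum fun J _ => ?_
      by_cases hJ : J.card < 2 * v
      · rw [if_pos hJ]
        refine (h1 e0 J).trans ?_
        have h3 : (1 : ℝ) ≤ 64 ^ (2 * v) * (1 / 64) ^ J.card := by
          rw [one_div, inv_pow, ← div_eq_mul_inv, one_le_div (by positivity)]
          exact pow_le_pow_right₀ (by norm_num) hJ.le
        have h4 : (0 : ℝ) ≤ 2 / n * (17 / 32) ^ (w - J.card) := by positivity
        calc 2 / (n : ℝ) * (17 / 32) ^ (w - J.card) =
            1 * (2 / n * (17 / 32) ^ (w - J.card)) := (one_mul _).symm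
          _ ≤ (64 ^ (2 * v) * (1 / 64) ^ J.card) * (2 / n * (17 / 32) ^ (w - J.card)) :=
              mul_le_mul_of_nonneg_right h3 h4
          _ = _ := by ring
      · rw [if_neg hJ]
        positivity
    refine h2.trans ?_
    rw [← mul_sum]
    have h3 : ∑ J : Finset (Fin w), ((1 / 64 : ℝ) ^ J.card * (17 / 32) ^ (w - J.card)) =
        (35 / 64) ^ w := by
      have := Finset.sum_pow_mul_eq_add_pow (1 / 64 : ℝ) (17 / 32) (univ : Finset (Fin w))
      rw [powerset_univ, card_univ, Fintype.card_fin] at this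
      rw [this]
      norm_num
    rw [h3]
    have h4 : (64 : ℝ) ^ (2 * v) ≤ (8 / 7) ^ w := by
      calc (64 : ℝ) ^ (2 * v) = (64 ^ 2) ^ v := pow_mul _ _ _
        _ ≤ ((8 / 7) ^ 64) ^ v := by
            gcongr
            norm_num
        _ = (8 / 7) ^ (64 * v) := (pow_mul _ _ _).symm
        _ ≤ (8 / 7) ^ w := pow_le_pow_right₀ (by norm_num) hv
    calc 2 / (n : ℝ) * (64 : ℝ) ^ (2 * v) * (35 / 64) ^ w
        ≤ 2 / n * (8 / 7) ^ w * (35 / 64) ^ w := by gcongr
      _ = 2 / n * ((8 / 7) ^ w * (35 / 64) ^ w) := by ring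
      _ = 2 / n * (5 / 8) ^ w := by
          rw [← mul_pow]
          norm_num
  refine le_trans (pr_mono (q := fun c : (Fin w ↪ Fin n) × (Fin w → Bool) =>
    ∃ e0 : Fin w, ∃ J ∈ (univ : Finset (Finset (Fin w))).filter (fun J => J.card < 2 * v),
      (c.1 e0 = u ∧ ∀ e ∈ Jᶜ.erase e0, c.1 e ∈ Z) ∧ True) fun c hc => ?_) ?_
  · obtain ⟨hc1, e0, he0⟩ := hc
    refine ⟨e0, posn col (!s) c, mem_filter.2 ⟨mem_univ _, hc1⟩, ⟨he0, fun e he => ?_⟩, trivial⟩
    have he' := (mem_erase.1 he).2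
    rw [hZ, mem_insert, mem_filter]
    refine Or.inr ⟨mem_univ _, ?_⟩
    rw [mem_compl] at he'
    unfold posn at he'
    rw [mem_filter] at he'
    simpa using he'
  · refine (pr_exists_fintype _).trans ((sum_le_sum fun e0 _ => h2 e0).trans ?_)
    rw [sum_const, card_univ, Fintype.card_fin, nsmul_eq_mul]
    refine le_of_eq ?_
    ring

/-- Few unbalanced clauses contain a given variable. -/
theorem pr_deg {v j : ℕ} (hw : w ≤ n) (hn : 34 ≤ n) (hv : 64 * v ≤ w) (hj0 : 0 < j)
    (col : Fin n → Bool) (hcol : ∀ s, 64 * (univ.filter fun u => col u = s).card ≤ 33 * n)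
    (hj : 6 * ((m : ℝ) * (2 * w / n * (5 / 8) ^ w)) ≤ j) :
    pr (fun f : ClauseList n m w => ∃ s : Bool, ∃ u : Fin n,
      ¬ (univ.filter fun i : Fin m => (posn col (!s) (f i)).card < 2 * v ∧
        ∃ e, (f i).1 e = u).card ≤ j) ≤ 2 * n * (1 / 2) ^ j := by
  have hne := nonempty_emb hw
  obtain ⟨q, hq⟩ : ∃ q : ℝ, q = 2 * w / n * (5 / 8) ^ w := ⟨_, rfl⟩
  have hq0 : 0 ≤ q := by
    rw [hq]
    positivity
  rw [← hq] at hj
  have hj0' : (0 : ℝ) < j := by exact_mod_cast hj0
  have h1 : ∀ (s : Bool) (u : Fin n), pr (fun f : ClauseList n m w =>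
      ¬ (univ.filter fun i : Fin m => (posn col (!s) (f i)).card < 2 * v ∧
        ∃ e, (f i).1 e = u).card ≤ j) ≤ (1 / 2) ^ j := by
    intro s u
    refine le_trans (pr_mono (q := fun f : ClauseList n m w =>
      ∃ I ∈ powersetCard j (univ : Finset (Fin m)), ∀ i ∈ I,
        (posn col (!s) (f i)).card < 2 * v ∧ ∃ e, (f i).1 e = u) fun f hf => ?_) ?_
    · push Not at hf
      obtain ⟨I, hI, hIc⟩ := exists_subset_card_eq hf.le
      exact ⟨I, mem_powersetCard.2 ⟨subset_univ _, hIc⟩, fun i hi => (mem_filter.1 (hI hi)).2⟩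
    · refine (pr_exists _ _).trans ?_
      have h2 : ∀ I ∈ powersetCard j (univ : Finset (Fin m)),
          pr (fun f : ClauseList n m w => ∀ i ∈ I,
            (posn col (!s) (f i)).card < 2 * v ∧ ∃ e, (f i).1 e = u) ≤ q ^ j := by
        intro I hI
        have h3 := indep_fixed (ι := Fin m) I (fun c : (Fin w ↪ Fin n) × (Fin w → Bool) =>
          (posn col (!s) c).card < 2 * v ∧ ∃ e, c.1 e = u) q
          (by rw [hq]; exact pr_sided_mem hw hn hv col s (hcol s) u)
        rwa [(mem_powersetCard.1 hI).2] at h3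
      refine (sum_le_sum h2).trans ?_
      rw [sum_const, card_powersetCard, card_univ, Fintype.card_fin, nsmul_eq_mul]
      calc (m.choose j : ℝ) * q ^ j ≤ (3 * m / j) ^ j * q ^ j :=
            mul_le_mul_of_nonneg_right (choose_le_three hj0) (by positivity)
        _ = (3 * m / j * q) ^ j := (mul_pow _ _ _).symm
        _ ≤ (1 / 2) ^ j := by
            refine pow_le_pow_left₀ (by positivity) ?_ _
            rw [div_mul_eq_mul_div, div_le_iff₀ hj0']
            linarith
  refine (pr_exists_fintype _).trans ((sum_le_sum fun s _ => (pr_exists_fintype _).trans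
    (sum_le_sum fun u _ => h1 s u)).trans ?_)
  rw [sum_const, sum_const, card_univ, card_univ, Fintype.card_fin, Fintype.card_bool,
    nsmul_eq_mul, nsmul_eq_mul]
  push_cast
  refine le_of_eq ?_
  ring

end Pool.Agent.MP_9cec2c_lc.Narrow
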