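import Mathlib

/-!
The numerical bounds for narrow CNFs.
-/

set_option autoImplicit false

namespace Pool.Agent.MP_9cec2c_lc.Narrow

/-- The bound used for the spread of the clauses. -/
theorem num_spread {n m w v r : ℕ} {E : ℝ} (hE : E = 2 ^ 1288) (hv : 2 ≤ v) (hr : 0 < r)
    (hn : 0 < n) (hwv : w ≤ 128 * v) (hm : (m : ℝ) ≤ n * (283 / 100) ^ w)
    (hr2 : 3 * E * (v * r : ℕ) ≤ n) :
    (3 * m / r : ℝ) * 2 ^ w * (3 * (v * r : ℕ) / n : ℝ) ^ v ≤ (1 / 4) ^ w := by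
  have hn' : (0 : ℝ) < n := by exact_mod_cast hn
  have hr' : (0 : ℝ) < r := by exact_mod_cast hr
  have hv' : (0 : ℝ) < v := by exact_mod_cast (by omega : 0 < v)
  have hE0 : (0 : ℝ) < E := by
    rw [hE]
    positivity
  obtain ⟨v', rfl⟩ : ∃ v', v = v' + 1 := ⟨v - 1, by omega⟩
  obtain ⟨ρ, hρ⟩ : ∃ ρ : ℝ, ρ = 3 * ((v' + 1) * r : ℕ) / n := ⟨_, rfl⟩
  have hρ0 : 0 ≤ ρ := by
    rw [hρ]
    positivity
  have hρ1 : ρ ≤ 1 / E := by
    rw [hρ, div_le_div_iff₀ hn' hE0]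
    linarith
  rw [← hρ]
  have h1 : (3 * m / r : ℝ) * ρ ≤ 9 * (v' + 1 : ℕ) * (283 / 100) ^ w := by
    rw [hρ]
    push_cast
    have h2 : (3 * m / r : ℝ) * (3 * (((v' : ℝ) + 1) * r) / n) = 9 * (v' + 1) * (m / n) := by
      field_simp
      ring
    rw [h2]
    have h3 : (m : ℝ) / n ≤ (283 / 100) ^ w := by
      rw [div_le_iff₀ hn']
      linarith
    gcongr
  have h2 : (9 : ℝ) * (v' + 1 : ℕ) ≤ 16 ^ (v' + 1) := by
    have key : ∀ k : ℕ, 9 * (k + 1) ≤ 16 ^ (k + 1) := by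
      intro k
      induction k with
      | zero => norm_num
      | succ k ih =>
        rw [pow_succ]
        omega
    exact_mod_cast key v'
  have h3 : (283 / 100 : ℝ) ^ w * 2 ^ w * 4 ^ w ≤ 32 ^ (128 * (v' + 1)) := by
    rw [← mul_pow, ← mul_pow]
    calc ((283 / 100 : ℝ) * 2 * 4) ^ w ≤ 32 ^ w :=
          pow_le_pow_left₀ (by norm_num) (by norm_num) _
      _ ≤ 32 ^ (128 * (v' + 1)) := pow_le_pow_right₀ (by norm_num) hwv
  have h4 : (16 : ℝ) ^ (v' + 1) * 32 ^ (128 * (v' + 1)) ≤ E ^ v' := by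
    have e1 : (16 : ℝ) ^ (v' + 1) ≤ (2 ^ 8) ^ v' := by
      calc (16 : ℝ) ^ (v' + 1) ≤ 16 ^ (2 * v') :=
            pow_le_pow_right₀ (by norm_num) (by omega)
        _ = (2 ^ 8) ^ v' := by
            rw [pow_mul]
            norm_num
    have e2 : (32 : ℝ) ^ (128 * (v' + 1)) ≤ (2 ^ 1280) ^ v' := by
      calc (32 : ℝ) ^ (128 * (v' + 1)) ≤ 32 ^ (256 * v') :=
            pow_le_pow_right₀ (by norm_num) (by omega)
        _ = ((2 ^ 5) ^ 256) ^ v' := by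
            rw [pow_mul]
            norm_num
        _ = (2 ^ 1280) ^ v' := by
            rw [← pow_mul 2 5 256]
    calc (16 : ℝ) ^ (v' + 1) * 32 ^ (128 * (v' + 1)) ≤ (2 ^ 8) ^ v' * (2 ^ 1280) ^ v' := by
          gcongr
      _ = (2 ^ 8 * 2 ^ 1280) ^ v' := (mul_pow _ _ _).symm
      _ = E ^ v' := by
          rw [← pow_add, hE]
  have h5 : ρ ^ v' ≤ 1 / E ^ v' := by
    rw [← one_div_pow]
    exact pow_le_pow_left₀ hρ0 hρ1 _
  have h6 : (0 : ℝ) < E ^ v' := by positivity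
  have h7 : (3 * m / r : ℝ) * 2 ^ w * ρ ^ (v' + 1) * 4 ^ w ≤ 1 := by
    calc (3 * m / r : ℝ) * 2 ^ w * ρ ^ (v' + 1) * 4 ^ w
        = ((3 * m / r : ℝ) * ρ) * (2 ^ w * 4 ^ w) * ρ ^ v' := by
          rw [pow_succ]
          ring
      _ ≤ (9 * (v' + 1 : ℕ) * (283 / 100) ^ w) * (2 ^ w * 4 ^ w) * (1 / E ^ v') := by
          gcongr
      _ = (9 * (v' + 1 : ℕ)) * ((283 / 100) ^ w * 2 ^ w * 4 ^ w) * (1 / E ^ v') := by ring
      _ ≤ 16 ^ (v' + 1) * 32 ^ (128 * (v' + 1)) * (1 / E ^ v') := by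
          gcongr
      _ ≤ E ^ v' * (1 / E ^ v') := by
          gcongr
      _ = 1 := by
          field_simp
  rw [one_div, inv_pow, ← one_div, le_div_iff₀ (by positivity)]
  exact h7

theorem sq_bound {n m w : ℕ} (h : m ^ 2 ≤ n ^ 2 * 2 ^ (3 * w)) :
    (m : ℝ) ≤ n * (283 / 100) ^ w := by
  refine le_of_sq_le_sq ?_ (by positivity)
  have h1 : ((m ^ 2 : ℕ) : ℝ) ≤ ((n ^ 2 * 2 ^ (3 * w) : ℕ) : ℝ) := by exact_mod_cast h
  push_cast at h1
  refine h1.trans ?_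
  rw [mul_pow, ← pow_mul (283 / 100 : ℝ), mul_comm w 2, pow_mul, pow_mul (283 / 100 : ℝ)]
  gcongr
  norm_num

/-- The bound used for the degrees. -/
theorem num_deg {n m w v : ℕ} (hv : 16 ≤ v) (hn : 0 < n) (hwv : 64 * v ≤ w)
    (hwv2 : w ≤ 64 * v + 63) (hm : (m : ℝ) ≤ n * (283 / 100) ^ w) :
    6 * ((m : ℝ) * (2 * w / n * (5 / 8) ^ w)) ≤ ((2 ^ (w - 6 * v) : ℕ) : ℝ) := by
  have hn' : (0 : ℝ) < n := by exact_mod_cast hn
  have h1 : (m : ℝ) / n ≤ (283 / 100) ^ w := by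
    rw [div_le_iff₀ hn']
    linarith
  have h2 : (12 * w : ℝ) ≤ 2 ^ v := by
    have key : ∀ k : ℕ, 12 * (64 * (16 + k) + 63) ≤ 2 ^ (16 + k) := by
      intro k
      induction k with
      | zero => norm_num
      | succ k ih =>
        rw [← add_assoc, pow_succ]
        omega
    have h3 := key (v - 16)
    have h4 : 16 + (v - 16) = v := by omega
    rw [h4] at h3
    exact_mod_cast (Nat.mul_le_mul_left 12 hwv2).trans h3
  have h5 : (2 : ℝ) ^ v * (283 / 160) ^ w * 2 ^ (6 * v) ≤ 2 ^ w := by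
    have e1 : (2 : ℝ) ^ (7 * v) ≤ (320 / 283) ^ w := by
      calc (2 : ℝ) ^ (7 * v) = (2 ^ 7) ^ v := pow_mul _ _ _
        _ ≤ ((320 / 283) ^ 64) ^ v := by
            gcongr
            norm_num
        _ = (320 / 283) ^ (64 * v) := (pow_mul _ _ _).symm
        _ ≤ (320 / 283) ^ w := pow_le_pow_right₀ (by norm_num) hwv
    calc (2 : ℝ) ^ v * (283 / 160) ^ w * 2 ^ (6 * v)
        = (283 / 160) ^ w * 2 ^ (7 * v) := by
          have : 7 * v = v + 6 * v := by ring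
          rw [this, pow_add]
          ring
      _ ≤ (283 / 160) ^ w * (320 / 283) ^ w := by gcongr
      _ = 2 ^ w := by
          rw [← mul_pow]
          norm_num
  have h6 : ((2 ^ (w - 6 * v) : ℕ) : ℝ) = 2 ^ w / 2 ^ (6 * v) := by
    push_cast
    rw [eq_div_iff (by positivity), ← pow_add]
    congr 1
    omega
  rw [h6, le_div_iff₀ (by positivity)]
  calc 6 * ((m : ℝ) * (2 * w / n * (5 / 8) ^ w)) * 2 ^ (6 * v)
      = 12 * w * (m / n) * (5 / 8) ^ w * 2 ^ (6 * v) := by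
        field_simp
        ring
    _ ≤ 2 ^ v * (283 / 100) ^ w * (5 / 8) ^ w * 2 ^ (6 * v) := by gcongr
    _ = 2 ^ v * (283 / 160) ^ w * 2 ^ (6 * v) := by
        rw [mul_assoc ((2 : ℝ) ^ v), ← mul_pow]
        norm_num
    _ ≤ 2 ^ w := h5

end Pool.Agent.MP_9cec2c_lc.Narrow
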