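import Pool.Agent.Lib.MP_9cec2c_lc.NRSpread
import Pool.Agent.Lib.MP_9cec2c_lc.NRNum

/-!
The choice of the parameters for narrow CNFs.
-/

set_option autoImplicit false
set_option linter.unusedSectionVars false

namespace Pool.Agent.MP_9cec2c_lc.Narrow

open Finset
open Pool.Agent.MP_9cec2c_lc.LovSch (ClauseList toCNF)
open Pool.Agent.MP_9cec2c_lc.NarrowCNF (IsRefutation)

/-- The relations between the parameters. -/
structure Params (A K n k w a v r j : ℕ) : Prop where
  hA : 3 ≤ A
  hK : K = 4096 * A ^ 2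
  hn : K ≤ n
  hw : K ≤ w
  hwn : K * w ≤ n
  hk : k ^ K ≤ 2 ^ w
  hlog : Nat.log 2 n ^ K ≤ 2 ^ w
  ha : a = w / 1024
  hv : v = w / 64
  hr : r = min (2 ^ a) (n / (A * v))
  hj : j = 2 ^ (w - 6 * v)

section

variable {A K n k w a v r j : ℕ}

theorem Params.K_le (h : Params A K n k w a v r j) : 4096 * A ≤ K := by
  rw [h.hK]
  have := h.hA
  nlinarith

theorem Params.K_le' (h : Params A K n k w a v r j) : 12288 ≤ K := by
  have h1 := h.K_le
  have h2 := h.hA
  omega

theorem Params.a_pos (h : Params A K n k w a v r j) : 12 ≤ a := by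
  have h1 := h.K_le'
  have h2 := h.hw
  rw [h.ha]
  omega

theorem Params.av (h : Params A K n k w a v r j) : 16 * a ≤ v ∧ v ≤ 31 * a ∧ w ≤ 2048 * a ∧
    64 * v ≤ w ∧ w ≤ 64 * v + 63 ∧ w ≤ 128 * v := by
  have h1 := h.a_pos
  have h2 := h.ha
  have h3 := h.hv
  omega

theorem Params.pow_le (h : Params A K n k w a v r j) {x : ℕ} (hx : x ^ K ≤ 2 ^ w) :
    x ≤ 2 ^ a := by
  rcases Nat.eq_zero_or_pos x with h0 | h0
  · rw [h0]
    exact Nat.zero_le _
  · obtain ⟨q, hq⟩ : ∃ q, q = 2048 := ⟨_, rfl⟩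
    have h1 : x ^ q ≤ (2 ^ a) ^ q := by
      calc x ^ q ≤ x ^ K := Nat.pow_le_pow_right h0 (by have := h.K_le'; omega)
        _ ≤ 2 ^ w := hx
        _ ≤ 2 ^ (a * q) := Nat.pow_le_pow_right (by norm_num) (by have := h.av; rw [hq]; omega)
        _ = (2 ^ a) ^ q := pow_mul _ _ _
    exact (Nat.pow_le_pow_iff_left (by omega)).1 h1

theorem Params.r_le (h : Params A K n k w a v r j) : r ≤ 2 ^ a := by
  rw [h.hr]
  exact min_le_left _ _

theorem Params.Av (h : Params A K n k w a v r j) : 4 * (A * v) ≤ n := by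
  have h1 := h.K_le
  have h2 := h.av
  calc 4 * (A * v) ≤ 4096 * A * w := by nlinarith
    _ ≤ K * w := Nat.mul_le_mul_right _ h1
    _ ≤ n := h.hwn

theorem Params.Av_pos (h : Params A K n k w a v r j) : 0 < A * v := by
  have h1 := h.hA
  have h2 := h.av
  have h3 := h.a_pos
  exact Nat.mul_pos (by omega) (by omega)

theorem Params.r_one (h : Params A K n k w a v r j) : 1 < r := by
  rw [h.hr, lt_min_iff]
  constructor
  · calc 1 < 2 ^ 1 := by norm_num
      _ ≤ 2 ^ a := Nat.pow_le_pow_right (by norm_num) (by have := h.a_pos; omega)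
  · have : 2 ≤ n / (A * v) := by
      rw [Nat.le_div_iff_mul_le h.Av_pos]
      have := h.Av
      omega
    omega

theorem Params.Avr (h : Params A K n k w a v r j) : A * v * r ≤ n := by
  have h1 : r ≤ n / (A * v) := by
    rw [h.hr]
    exact min_le_right _ _
  calc A * v * r ≤ A * v * (n / (A * v)) := Nat.mul_le_mul_left _ h1
    _ ≤ n := Nat.mul_div_le n (A * v)

theorem Params.vr (h : Params A K n k w a v r j) : v * r ≤ n := by
  refine le_trans ?_ h.Avr
  rw [mul_assoc]
  exact Nat.le_mul_of_pos_left _ (by have := h.hA; omega)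

/-- Either `r` is a power of two, or it is close to the quotient. -/
theorem Params.cases (h : Params A K n k w a v r j) : r = 2 ^ a ∨ n < 2 * (A * v * r) := by
  rcases min_choice (2 ^ a) (n / (A * v)) with h1 | h1
  · left
    rw [h.hr, h1]
  · right
    have h2 : r = n / (A * v) := by rw [h.hr, h1]
    have hmod := Nat.div_add_mod n (A * v)
    have hlt := Nat.mod_lt n h.Av_pos
    rw [← h2] at hmod
    have h3 : A * v ≤ A * v * r := Nat.le_mul_of_pos_right _ (by have := h.r_one; omega)
    omega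

theorem Params.t_le (h : Params A K n k w a v r j) :
    min (2 ^ (w / K)) (n / K) + 2 ≤ 5 * (a * r) := by
  have ha := h.a_pos
  have hr1 := h.r_one
  have har : r ≤ a * r := Nat.le_mul_of_pos_left _ (by omega)
  rcases h.cases with h1 | h1
  · have h2 : 2 ^ (w / K) ≤ 2 ^ a := by
      refine Nat.pow_le_pow_right (by norm_num) ?_
      rw [h.ha]
      exact Nat.div_le_div_left (by have := h.K_le'; omega) (by norm_num)
    have h3 := min_le_left (2 ^ (w / K)) (n / K)
    omega
  · have h2 : n / K ≤ a * r := by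
      have e1 : A * (4096 * (n / K)) ≤ A * (62 * (a * r)) := by
        calc A * (4096 * (n / K)) = 4096 * A * (n / K) := by ring
          _ ≤ K * (n / K) := Nat.mul_le_mul_right _ h.K_le
          _ ≤ n := Nat.mul_div_le n K
          _ ≤ 2 * (A * v * r) := h1.le
          _ ≤ 2 * (A * (31 * a) * r) := by
              have := h.av.2.1
              gcongr
          _ = A * (62 * (a * r)) := by ring
      have e2 := Nat.le_of_mul_le_mul_left e1 (by have := h.hA; omega)
      omega
    have h3 := min_le_right (2 ^ (w / K)) (n / K)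
    omega

theorem four_mul (x : ℕ) : 4 * (64 * (x + 3) + 63) ≤ 2 ^ (4 * (x + 3)) := by
  induction x with
  | zero => norm_num
  | succ x ih =>
    have e1 : 4 * (x + 1 + 3) = 4 * (x + 3) + 4 := by ring
    have e2 : 2 ^ (4 * (x + 1 + 3)) = 2 ^ (4 * (x + 3)) * 16 := by
      rw [e1, pow_add]
      norm_num
    rw [e2]
    obtain ⟨y, hy⟩ : ∃ y, y = 2 ^ (4 * (x + 3)) := ⟨_, rfl⟩
    rw [← hy] at ih ⊢
    clear hy e1 e2
    linarith

/-- Good CNFs are hard. -/
theorem Params.hard (h : Params A K n k w a v r j) (hk0 : 0 < k) {m : ℕ} {B : Finset (Fin n)}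
    {f : ClauseList n m w} (hf : NGood (inS B) f v r j) (S : ℕ)
    (L : Fin S → (Fin n → Bool) → Prop)
    (href : IsRefutation k (toCNF f) (B : Set (Fin n)) L) :
    2 ^ min (2 ^ (w / K)) (n / K) ≤ S := by
  by_contra hcon
  push Not at hcon
  have ha := h.a_pos
  have hav := h.av
  have hr1 := h.r_one
  have ht := h.t_le
  refine ncore (u := 8 * a) (k := k) (S := S) hf ?_ ?_ (by omega) hk0 hr1 (by omega) ?_ ?_ href
  · have h1 : 4 * w ≤ 2 ^ (4 * v) := by
      have h2 := four_mul (v - 3)
      have h3 : v - 3 + 3 = v := by omega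
      rw [h3] at h2
      omega
    calc 4 * (w * j) = 4 * w * j := by ring
      _ ≤ 2 ^ (4 * v) * j := Nat.mul_le_mul_right _ h1
      _ = 2 ^ (w - 2 * v) := by
          rw [h.hj, ← pow_add]
          congr 1
          omega
  · calc 8 * j = 2 ^ 3 * 2 ^ (w - 6 * v) := by
          rw [h.hj]
          norm_num
      _ = 2 ^ (3 + (w - 6 * v)) := (pow_add _ _ _).symm
      _ ≤ 2 ^ (w - 2 * v) := Nat.pow_le_pow_right (by norm_num) (by omega)
  · have h1 := h.pow_le h.hk
    have h2 := h.r_le
    have h3 : (k * r) ^ r ≤ 2 ^ (2 * (a * r)) := by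
      calc (k * r) ^ r ≤ (2 ^ a * 2 ^ a) ^ r := by gcongr
        _ = 2 ^ (2 * (a * r)) := by
            rw [← pow_add, ← pow_mul]
            congr 1
            ring
    calc 4 * ((S + 1) * (k * r) ^ r)
        ≤ 2 ^ 2 * (2 ^ min (2 ^ (w / K)) (n / K) * 2 ^ (2 * (a * r))) := by
          gcongr
          · norm_num
          · exact hcon
      _ = 2 ^ (min (2 ^ (w / K)) (n / K) + 2 + 2 * (a * r)) := by
          rw [← pow_add, ← pow_add]
          congr 1
          ring
      _ ≤ 2 ^ (8 * a * r) := by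
          refine Nat.pow_le_pow_right (by norm_num) ?_
          have e1 : 8 * a * r = 8 * (a * r) := by ring
          omega
  · have h2 := h.r_le
    calc 4 * r ≤ 2 ^ 2 * 2 ^ a := by
          have : (4 : ℕ) = 2 ^ 2 := by norm_num
          rw [this]
          exact Nat.mul_le_mul_left _ h2
      _ = 2 ^ (2 + a) := (pow_add _ _ _).symm
      _ ≤ 2 ^ (8 * a) := Nat.pow_le_pow_right (by norm_num) (by omega)

theorem Params.log_two (h : Params A K n k w a v r j) :
    8 ≤ Nat.log 2 n ∧ n < 2 ^ (Nat.log 2 n + 1) ∧ Nat.log 2 n ≤ 2 ^ a := by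
  have h1 := h.K_le'
  have h2 := h.hn
  refine ⟨?_, Nat.lt_pow_succ_log_self (by norm_num) n, h.pow_le h.hlog⟩
  refine (Nat.le_log_iff_pow_le (by norm_num) (by omega)).2 ?_
  norm_num
  omega

/-- The first failure probability. -/
theorem Params.fail1 (h : Params A K n k w a v r j) : 3 * (n : ℝ) * (3 / 4) ^ n ≤ 1 := by
  have key : ∀ x : ℕ, 3 * ((64 + x : ℕ) : ℝ) * (3 / 4) ^ (64 + x) ≤ 1 := by
    intro x
    induction x with
    | zero => norm_num
    | succ x ih =>
      have h1 : (0 : ℝ) < (3 / 4) ^ (64 + x) := by positivity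
      rw [← add_assoc, pow_succ]
      push_cast at ih ⊢
      nlinarith
  have h1 := key (n - 64)
  have h2 : 64 + (n - 64) = n := by
    have h3 := h.K_le'
    have h4 := h.hn
    omega
  rw [h2] at h1
  exact h1

/-- The second failure probability. -/
theorem Params.fail2 (h : Params A K n k w a v r j) :
    3 * (n : ℝ) * ((1 / 4) ^ w) ^ r ≤ 1 := by
  obtain ⟨h1, h2, h3⟩ := h.log_two
  have hav := h.av
  have ha := h.a_pos
  have hr1 := h.r_one
  have h4 : Nat.log 2 n + 3 ≤ 2 * (w * r) := by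
    rcases h.cases with h5 | h5
    · have h6 : r ≤ w * r := Nat.le_mul_of_pos_left _ (by omega)
      have h7 : w ≤ w * r := Nat.le_mul_of_pos_right _ (by omega)
      omega
    · have h6 : A * Nat.log 2 n ≤ n := by
        have e1 : (Nat.log 2 n) ^ 2 ≤ n := by
          have e2 : 2 ^ Nat.log 2 n ≤ n := Nat.pow_log_le_self 2 (by have := h.hn; have := h.K_le'; omega)
          refine le_trans ?_ e2
          have key : ∀ x : ℕ, (8 + x) ^ 2 ≤ 2 ^ (8 + x) := by
            intro x
            induction x with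
            | zero => norm_num
            | succ x ih =>
              rw [← add_assoc, pow_succ 2 (8 + x)]
              have e5 : 2 * (8 + x) + 1 ≤ (8 + x) ^ 2 := by nlinarith
              have e6 : (8 + x + 1) ^ 2 = (8 + x) ^ 2 + (2 * (8 + x) + 1) := by ring
              omega
          have e3 := key (Nat.log 2 n - 8)
          have e4 : 8 + (Nat.log 2 n - 8) = Nat.log 2 n := by omega
          rw [e4] at e3
          exact e3
        have e2 : A ^ 2 ≤ n := by
          have e3 := h.hK
          have e4 := h.hn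
          omega
        have e3 : (A * Nat.log 2 n) ^ 2 ≤ n ^ 2 := by
          rw [mul_pow, sq n]
          exact Nat.mul_le_mul e2 e1
        exact (Nat.pow_le_pow_iff_left (by norm_num)).1 e3
      have h7 : Nat.log 2 n < 2 * (v * r) := by
        have e1 : A * Nat.log 2 n < A * (2 * (v * r)) := by
          calc A * Nat.log 2 n ≤ n := h6
            _ < 2 * (A * v * r) := h5
            _ = A * (2 * (v * r)) := by ring
        exact Nat.lt_of_mul_lt_mul_left e1
      have h8 : 64 * (v * r) ≤ w * r := by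
        calc 64 * (v * r) = 64 * v * r := by ring
          _ ≤ w * r := Nat.mul_le_mul_right _ hav.2.2.2.1
      omega
  have h5 : 3 * n ≤ 2 ^ (2 * (w * r)) := by
    calc 3 * n ≤ 2 ^ 2 * 2 ^ (Nat.log 2 n + 1) := by
          have : (2 : ℕ) ^ 2 = 4 := by norm_num
          omega
      _ = 2 ^ (2 + (Nat.log 2 n + 1)) := (pow_add _ _ _).symm
      _ ≤ 2 ^ (2 * (w * r)) := Nat.pow_le_pow_right (by norm_num) (by omega)
  have h6 : (3 * n : ℝ) ≤ 2 ^ (2 * (w * r)) := by exact_mod_cast h5
  have h7 : ((1 / 4 : ℝ) ^ w) ^ r = 1 / 2 ^ (2 * (w * r)) := by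
    rw [← pow_mul, one_div_pow, pow_mul 2 2 (w * r)]
    norm_num
  rw [h7, mul_one_div, div_le_one (by positivity)]
  exact h6

/-- The third failure probability. -/
theorem Params.fail3 (h : Params A K n k w a v r j) :
    3 * (n : ℝ) * (2 * n * (1 / 2) ^ j) ≤ 1 := by
  obtain ⟨h1, h2, h3⟩ := h.log_two
  have hav := h.av
  have ha := h.a_pos
  have h4 : 2 * Nat.log 2 n + 5 ≤ j := by
    have e1 : 2 ^ (a + 3) ≤ j := by
      rw [h.hj]
      exact Nat.pow_le_pow_right (by norm_num) (by omega)
    rw [pow_add] at e1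
    omega
  have h5 : 6 * n ^ 2 ≤ 2 ^ j := by
    calc 6 * n ^ 2 ≤ 2 ^ 3 * (2 ^ (Nat.log 2 n + 1)) ^ 2 := by
          gcongr
          norm_num
      _ = 2 ^ (2 * Nat.log 2 n + 5) := by
          rw [← pow_mul, ← pow_add]
          congr 1
          ring
      _ ≤ 2 ^ j := Nat.pow_le_pow_right (by norm_num) h4
  have h6 : (6 * (n : ℝ) ^ 2) ≤ 2 ^ j := by exact_mod_cast h5
  have h7 : 3 * (n : ℝ) * (2 * n * (1 / 2) ^ j) = 6 * (n : ℝ) ^ 2 / 2 ^ j := by
    rw [one_div_pow]
    ring
  rw [h7, div_le_one (by positivity)]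
  exact h6

end

end Pool.Agent.MP_9cec2c_lc.Narrow
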