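import Pool.Agent.Lib.MP_9cec2c_lc.NRDet
import Pool.Agent.Lib.MP_9cec2c_lc.NRDeg
import Pool.Agent.Lib.MP_9cec2c_lc.LRHalf

/-!
Random narrow CNFs are hard.
-/

set_option autoImplicit false
set_option linter.unusedSectionVars false

namespace Pool.Agent.MP_9cec2c_lc.Narrow

open Finset
open Pool.Agent.MP_9cec2c_lc.SubstRed
open Pool.Agent.MP_9cec2c_lc.FormulaLines
open Pool.Agent.MP_9cec2c_lc.LovSch (nonempty_emb posn pr_sat)
open Pool.Agent.MP_9cec2c_lc.NarrowCNF (ClauseList toCNF Hard IsRefutation)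

variable {n m w : ℕ}

theorem col_card (hn : 32 ≤ n) {B : Finset (Fin n)} (hB : B.card = n / 2) (s : Bool) :
    64 * (univ.filter fun u => inS B u = s).card ≤ 33 * n := by
  classical
  have h1 : (univ.filter fun u => inS B u = true) = B := by
    ext u
    simp [inS]
  have h4 := card_filter_add_card_filter_not (s := (univ : Finset (Fin n)))
      (fun u => inS B u = true)
  rw [card_univ, Fintype.card_fin] at h4
  simp only [Bool.not_eq_true] at h4
  rw [h1, hB] at h4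
  cases s
  · omega
  · rw [h1, hB]
    omega

/-- The probability that a random CNF is not hard. -/
theorem pr_not_hard {A K k a v r j : ℕ} (hA : A = 3 * 2 ^ 1288)
    (h : Params A K n k w a v r j) (hk0 : 0 < k) {B : Finset (Fin n)} (hB : B.card = n / 2)
    (hm1 : n * 2 ^ w ≤ m) (hm2 : m ^ 2 ≤ n ^ 2 * 2 ^ (3 * w)) :
    (n : ℝ) * pr (fun f : ClauseList n m w =>
      ¬ Hard k (2 ^ min (2 ^ (w / K)) (n / K)) B (toCNF f)) ≤ 1 := by
  classical
  have hK := h.K_le'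
  have hn := h.hn
  have hw := h.hw
  have hav := h.av
  have ha := h.a_pos
  have hr1 := h.r_one
  have hwn : w ≤ n := le_trans (Nat.le_mul_of_pos_left _ (by omega)) h.hwn
  have hne := nonempty_emb hwn
  have hn0 : 0 < n := by omega
  have hn' : (0 : ℝ) < n := by exact_mod_cast hn0
  have hm := sq_bound hm2
  have hj0 : 0 < j := by
    rw [h.hj]
    positivity
  have hj := num_deg (m := m) (by omega) hn0 hav.2.2.2.1 hav.2.2.2.2.1 hm
  rw [← h.hj] at hj
  obtain ⟨E, hE⟩ : ∃ E : ℝ, E = 2 ^ 1288 := ⟨_, rfl⟩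
  have hAE : (A : ℝ) = 3 * E := by
    rw [hE, hA, Nat.cast_mul, Nat.cast_pow]
    rfl
  have hexp := num_spread (m := m) (r := r) hE (by omega) (by omega) hn0
    hav.2.2.2.2.2 hm (by
      have h1 : ((A * v * r : ℕ) : ℝ) ≤ (n : ℝ) := by exact_mod_cast h.Avr
      push_cast at h1 ⊢
      rw [hAE] at h1
      linarith)
  have hdeg := pr_deg (m := m) hwn (by omega) hav.2.2.2.1 hj0 (inS B)
    (fun s => col_card (by omega) hB s) hj
  have hspread := pr_not_spread (m := m) hwn hn0 (by omega) (by omega) h.vr hexp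
  have hsat := pr_sat hwn hm1
  have hmain : pr (fun f : ClauseList n m w =>
      ¬ Hard k (2 ^ min (2 ^ (w / K)) (n / K)) B (toCNF f)) ≤
      (3 / 4) ^ n + (((1 / 4 : ℝ) ^ w) ^ r + 2 * n * (1 / 2) ^ j) := by
    refine le_trans (pr_mono (q := fun f : ClauseList n m w =>
      (∃ x : Fin n → Bool, ∀ i, ¬ ∀ e, x ((f i).1 e) ≠ (f i).2 e) ∨
      ((¬ ∀ M : Finset (Fin m), M.card = r → ∀ Z : Finset (Fin n),
        (∀ i ∈ M, 2 * v ≤ (univ.filter fun e => (f i).1 e ∈ Z).card) → v * r ≤ Z.card) ∨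
      ∃ s : Bool, ∃ u : Fin n, ¬ (univ.filter fun i : Fin m =>
        (posn (inS B) (!s) (f i)).card < 2 * v ∧ ∃ e, (f i).1 e = u).card ≤ j)) fun f hf => ?_) ?_
    · by_contra hcon
      rw [not_or, not_or] at hcon
      obtain ⟨h1, h2, h3⟩ := hcon
      rw [not_not] at h2
      push Not at h1 h3
      refine hf ⟨fun x => ?_, fun S L href => ?_⟩
      · obtain ⟨i, hi⟩ := h1 x
        refine ⟨_, mem_image_of_mem _ (mem_univ i), ?_⟩
        rintro ⟨l, hl, hl'⟩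
        obtain ⟨e, -, rfl⟩ := mem_image.1 hl
        exact hi e hl'
      · exact h.hard hk0 ⟨h3, h2⟩ S L href
    · exact (pr_or _ _).trans (add_le_add hsat ((pr_or _ _).trans (add_le_add hspread hdeg)))
  have f1 := h.fail1
  have f2 := h.fail2
  have f3 := h.fail3
  have h1 : (n : ℝ) * pr (fun f : ClauseList n m w =>
      ¬ Hard k (2 ^ min (2 ^ (w / K)) (n / K)) B (toCNF f)) ≤
      n * ((3 / 4) ^ n + (((1 / 4 : ℝ) ^ w) ^ r + 2 * n * (1 / 2) ^ j)) :=
    mul_le_mul_of_nonneg_left hmain hn'.le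
  have h2 : 3 * ((n : ℝ) * ((3 / 4) ^ n + (((1 / 4 : ℝ) ^ w) ^ r + 2 * n * (1 / 2) ^ j))) =
      3 * (n : ℝ) * (3 / 4) ^ n + 3 * (n : ℝ) * ((1 / 4) ^ w) ^ r +
        3 * (n : ℝ) * (2 * n * (1 / 2) ^ j) := by ring
  linarith

theorem hard_zero {t : ℕ} {B : Finset (Fin n)} {F : Finset (NarrowCNF.Clause (Fin n))}
    (h : Hard 1 t B F) : Hard 0 t B F := by
  refine ⟨h.1, fun S L href => h.2 S L ⟨href.1, href.2.1, fun i => ?_⟩⟩
  rcases href.2.2 i with h1 | ⟨P, hP1, hP2⟩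
  · exact Or.inl h1
  · exact Or.inr ⟨P, by omega, hP2⟩

/-- The main result. -/
theorem narrow_main : ∃ K : ℕ, 0 < K ∧ ∀ (n k w m : ℕ) (B : Finset (Fin n)), B.card = n / 2 →
    K ≤ n → K * w ≤ n → k ^ K ≤ 2 ^ w → Nat.log 2 n ^ K ≤ 2 ^ w →
    n * 2 ^ w ≤ m → m ^ 2 ≤ n ^ 2 * 2 ^ (3 * w) →
    n * {f : ClauseList n m w |
      ¬ Hard k (2 ^ min (2 ^ (w / K)) (n / K)) B (toCNF f)}.ncard ≤
      Fintype.card (ClauseList n m w) := by
  classical
  obtain ⟨A, hA⟩ : ∃ A, A = 3 * 2 ^ 1288 := ⟨_, rfl⟩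
  have hA3 : 3 ≤ A := by
    rw [hA]
    exact Nat.le_mul_of_pos_right _ (by positivity)
  obtain ⟨K, hK⟩ : ∃ K, K = 4096 * A ^ 2 := ⟨_, rfl⟩
  have hK0 : 12288 ≤ K := by
    have h1 : 3 * 3 ≤ A * A := Nat.mul_le_mul hA3 hA3
    rw [hK, sq]
    omega
  refine ⟨K, by omega, ?_⟩
  have main : ∀ (n k w m : ℕ) (B : Finset (Fin n)), 0 < k → B.card = n / 2 →
    K ≤ n → K * w ≤ n → k ^ K ≤ 2 ^ w → Nat.log 2 n ^ K ≤ 2 ^ w →
    n * 2 ^ w ≤ m → m ^ 2 ≤ n ^ 2 * 2 ^ (3 * w) →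
    n * {f : ClauseList n m w |
      ¬ Hard k (2 ^ min (2 ^ (w / K)) (n / K)) B (toCNF f)}.ncard ≤
      Fintype.card (ClauseList n m w) := by
    intro n k w m B hk0 hB hn hwn hk hlog hm1 hm2
    have hwK : K ≤ w := by
      have h0 : 2 ≤ Nat.log 2 n := (Nat.le_log_iff_pow_le (by norm_num) (by omega)).2 (by omega)
      have h1 : 2 ^ K ≤ 2 ^ w := (Nat.pow_le_pow_left h0 K).trans hlog
      exact (Nat.pow_le_pow_iff_right (by norm_num)).1 h1
    have hwn' : w ≤ n := le_trans (Nat.le_mul_of_pos_left _ (by omega)) hwn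
    have hne := nonempty_emb hwn'
    have h := pr_not_hard hA (a := w / 1024) (v := w / 64) (j := 2 ^ (w - 6 * (w / 64)))
      (r := min (2 ^ (w / 1024)) (n / (A * (w / 64))))
      ⟨hA3, hK, hn, hwK, hwn, hk, hlog, rfl, rfl, rfl, rfl⟩ hk0 hB hm1 hm2
    rw [pr_eq, mul_div_assoc', div_le_iff₀ (by exact_mod_cast Fintype.card_pos), one_mul] at h
    have h1 : {f : ClauseList n m w |
        ¬ Hard k (2 ^ min (2 ^ (w / K)) (n / K)) B (toCNF f)}.ncard =
        (univ.filter fun f : ClauseList n m w =>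
          ¬ Hard k (2 ^ min (2 ^ (w / K)) (n / K)) B (toCNF f)).card := by
      rw [Set.ncard_eq_toFinset_card']
      congr 1
      ext f
      simp
    rw [h1]
    exact_mod_cast h
  intro n k w m B hB hn hwn hk hlog hm1 hm2
  rcases Nat.eq_zero_or_pos k with rfl | hk0
  · have h1 := main n 1 w m B (by norm_num) hB hn hwn (by
      rw [one_pow]
      exact Nat.one_le_two_pow) hlog hm1 hm2
    refine le_trans (Nat.mul_le_mul_left _ (Set.ncard_le_ncard ?_ (Set.toFinite _))) h1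
    intro f hf hf'
    exact hf (hard_zero hf')
  · exact main n k w m B hk0 hB hn hwn hk hlog hm1 hm2

end Pool.Agent.MP_9cec2c_lc.Narrow
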