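import Mathlib

/-!
The local lemma in counting form, for constraints on the Boolean cube.
-/

set_option autoImplicit false
set_option linter.unusedSectionVars false

namespace Pool.Agent.MP_9cec2c_lc.Narrow

open Finset

variable {n : ℕ} {I : Type} [DecidableEq I]

/-- The point `x` has the forbidden values on all variables of the constraint `c`. -/
def Bd (V : I → Finset (Fin n)) (p : I → Fin n → Bool) (c : I) (x : Fin n → Bool) : Prop :=
  ∀ u ∈ V c, x u = p c u

open scoped Classical in
/-- The points that satisfy the constraints in `T`. -/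
noncomputable def sat (V : I → Finset (Fin n)) (p : I → Fin n → Bool) (T : Finset I) :
    Finset (Fin n → Bool) := univ.filter fun x => ∀ c ∈ T, ¬ Bd V p c x

variable {V : I → Finset (Fin n)} {p : I → Fin n → Bool}

theorem mem_sat {T : Finset I} {x : Fin n → Bool} : x ∈ sat V p T ↔ ∀ c ∈ T, ¬ Bd V p c x := by
  unfold sat
  simp

theorem sat_anti {T T' : Finset I} (h : T ⊆ T') : sat V p T' ⊆ sat V p T := fun _ hx =>
  mem_sat.2 fun c hc => mem_sat.1 hx c (h hc)

open scoped Classical in
/-- The values on a set of variables that do not occur in the constraints are uniform. -/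
theorem card_pat {T : Finset I} {W : Finset (Fin n)} (h : ∀ c ∈ T, Disjoint (V c) W)
    (π : Fin n → Bool) :
    ((sat V p T).filter fun x => ∀ u ∈ W, x u = π u).card * 2 ^ W.card ≤ (sat V p T).card := by
  rw [← card_powerset, ← card_product]
  refine card_le_card_of_injOn (fun q u => if u ∈ q.2 then !(q.1 u) else q.1 u) ?_ ?_
  · rintro ⟨x, s⟩ hx
    rw [mem_coe, mem_product, mem_filter, mem_powerset] at hx
    obtain ⟨⟨hx, -⟩, hs⟩ := hx
    rw [mem_coe, mem_sat]
    intro c hc hbd
    refine mem_sat.1 hx c hc fun u hu => ?_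
    have h1 := hbd u hu
    have h2 : u ∉ s := fun hus => disjoint_left.1 (h c hc) hu (hs hus)
    simpa [h2] using h1
  · rintro ⟨x, s⟩ hx ⟨y, t⟩ hy hxy
    rw [mem_coe, mem_product, mem_filter, mem_powerset] at hx hy
    have hst : s = t := by
      ext u
      have h1 := congrFun hxy u
      simp only at h1
      constructor
      · intro hu
        by_contra hut
        rw [if_pos hu, if_neg hut] at h1
        have h2 := hx.1.2 u (hx.2 hu)
        have h3 := hy.1.2 u (hx.2 hu)
        simp only at h2 h3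
        rw [h2, h3] at h1
        cases π u <;> simp at h1
      · intro hu
        by_contra hus
        rw [if_neg hus, if_pos hu] at h1
        have h2 := hx.1.2 u (hy.2 hu)
        have h3 := hy.1.2 u (hy.2 hu)
        simp only at h2 h3
        rw [h2, h3] at h1
        cases π u <;> simp at h1
    subst hst
    have : x = y := by
      funext u
      have h1 := congrFun hxy u
      simp only at h1
      by_cases hu : u ∈ s
      · rw [if_pos hu, if_pos hu] at h1
        simpa using h1
      · rw [if_neg hu, if_neg hu] at h1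
        exact h1
    rw [this]

open scoped Classical in
theorem card_insert_sat (T : Finset I) (c : I) :
    (sat V p T).card = (sat V p (insert c T)).card +
      ((sat V p T).filter fun x => Bd V p c x).card := by
  have h := card_filter_add_card_filter_not (s := sat V p T) (fun x => Bd V p c x)
  have h1 : ((sat V p T).filter fun x => ¬ Bd V p c x) = sat V p (insert c T) := by
    ext x
    rw [mem_filter, mem_sat, mem_sat]
    constructor
    · rintro ⟨h1, h2⟩ c' hc'
      rcases mem_insert.1 hc' with rfl | hc'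
      · exact h2
      · exact h1 c' hc'
    · intro h1
      exact ⟨fun c' hc' => h1 c' (mem_insert_of_mem hc'), h1 c (mem_insert_self _ _)⟩
  rw [h1] at h
  omega

open scoped Classical in
/-- Adding few constraints, one at a time. -/
theorem chain {ℓ : ℕ} {T : Finset I} (X : Finset I)
    (h : ∀ X' c, X' ⊆ X → c ∈ X → c ∉ X' →
      ((sat V p (T ∪ X')).filter fun x => Bd V p c x).card * 2 ^ ℓ ≤
        2 * (sat V p (T ∪ X')).card) :
    2 ^ ℓ * (sat V p T).card ≤ 2 ^ ℓ * (sat V p (T ∪ X)).card + 2 * X.card * (sat V p T).card := by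
  have key : ∀ Y : Finset I, Y ⊆ X → 2 ^ ℓ * (sat V p T).card ≤
      2 ^ ℓ * (sat V p (T ∪ Y)).card + 2 * Y.card * (sat V p T).card := by
    intro Y
    induction Y using Finset.induction_on with
    | empty =>
      intro _
      simp
    | insert c Y hc ih =>
      intro hY
      have h1 := ih fun c' hc' => hY (mem_insert_of_mem hc')
      have h2 := h Y c (fun c' hc' => hY (mem_insert_of_mem hc')) (hY (mem_insert_self _ _)) hc
      have h3 := card_insert_sat (V := V) (p := p) (T ∪ Y) c
      have h4 : insert c (T ∪ Y) = T ∪ insert c Y := by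
        rw [union_insert]
      rw [h4] at h3
      have h5 := card_le_card (sat_anti (V := V) (p := p) (subset_union_left (s₁ := T) (s₂ := Y)))
      rw [card_insert_of_notMem hc]
      have h6 : 2 ^ ℓ * (sat V p (T ∪ Y)).card = 2 ^ ℓ * (sat V p (T ∪ insert c Y)).card +
          ((sat V p (T ∪ Y)).filter fun x => Bd V p c x).card * 2 ^ ℓ := by
        rw [h3]
        ring
      have h7 : 2 * (Y.card + 1) * (sat V p T).card =
          2 * Y.card * (sat V p T).card + 2 * (sat V p T).card := by ring
      omega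
  exact key X (Subset.refl _)

open scoped Classical in
/-- The local lemma. -/
theorem lll {ℓ d : ℕ} {I0 : Finset I} (hV : ∀ c ∈ I0, ℓ ≤ (V c).card)
    (hd : ∀ c ∈ I0, (I0.filter fun c' => ¬ Disjoint (V c') (V c)).card ≤ d)
    (hdℓ : 4 * d ≤ 2 ^ ℓ) : ∀ (N : ℕ) (T : Finset I), T.card = N → T ⊆ I0 → ∀ c ∈ I0,
      ((sat V p T).filter fun x => Bd V p c x).card * 2 ^ ℓ ≤ 2 * (sat V p T).card := by
  intro N
  induction N using Nat.strong_induction_on with
  | _ N ih =>
    intro T hTN hT c hc
    obtain ⟨T1, hT1⟩ : ∃ T1, T1 = T.filter fun c' => Disjoint (V c') (V c) := ⟨_, rfl⟩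
    obtain ⟨T2, hT2⟩ : ∃ T2, T2 = T.filter fun c' => ¬ Disjoint (V c') (V c) := ⟨_, rfl⟩
    have hT12 : T1 ∪ T2 = T := by
      rw [hT1, hT2, filter_union_filter_not_eq]
    have hT2d : T2.card ≤ d := by
      rw [hT2]
      exact (card_le_card (filter_subset_filter _ hT)).trans (hd c hc)
    have h1 := chain (V := V) (p := p) (ℓ := ℓ) (T := T1) T2 (fun X' c' hX' hc' hcX' => by
      have hsub : T1 ∪ X' ⊆ T := by
        rw [← hT12]
        exact union_subset_union_right hX'
      have hlt : (T1 ∪ X').card < N := by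
        rw [← hTN]
        refine card_lt_card (Finset.ssubset_iff_subset_ne.2 ⟨hsub, fun heq => ?_⟩)
        have h2 : c' ∈ T1 ∪ X' := by
          rw [heq, ← hT12]
          exact mem_union_right _ hc'
        rcases mem_union.1 h2 with h3 | h3
        · rw [hT1, mem_filter] at h3
          rw [hT2, mem_filter] at hc'
          exact hc'.2 h3.2
        · exact hcX' h3
      refine ih _ hlt _ rfl (hsub.trans hT) c' (hT ?_)
      rw [← hT12]
      exact mem_union_right _ hc')
    rw [hT12] at h1
    have h2 : (sat V p T1).card ≤ 2 * (sat V p T).card := by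
      have h3 : 2 * (2 * T2.card * (sat V p T1).card) ≤ 2 ^ ℓ * (sat V p T1).card := by
        calc 2 * (2 * T2.card * (sat V p T1).card) = 4 * T2.card * (sat V p T1).card := by ring
          _ ≤ 4 * d * (sat V p T1).card :=
              Nat.mul_le_mul_right _ (Nat.mul_le_mul_left _ hT2d)
          _ ≤ 2 ^ ℓ * (sat V p T1).card := Nat.mul_le_mul_right _ hdℓ
      have h4 : 2 ^ ℓ * (sat V p T1).card ≤ 2 ^ ℓ * (2 * (sat V p T).card) := by
        have h5 : 2 ^ ℓ * (2 * (sat V p T).card) = 2 * (2 ^ ℓ * (sat V p T).card) := by ring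
        omega
      exact Nat.le_of_mul_le_mul_left h4 (by positivity)
    have h3 := card_pat (V := V) (p := p) (T := T1) (W := V c) (fun c' hc' => by
      rw [hT1, mem_filter] at hc'
      exact hc'.2) (p c)
    have h4 : ((sat V p T).filter fun x => Bd V p c x).card ≤
        ((sat V p T1).filter fun x => ∀ u ∈ V c, x u = p c u).card := by
      refine card_le_card fun x hx => ?_
      rw [mem_filter] at hx ⊢
      refine ⟨sat_anti ?_ hx.1, hx.2⟩
      rw [← hT12]
      exact subset_union_left
    calc ((sat V p T).filter fun x => Bd V p c x).card * 2 ^ ℓ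
        ≤ ((sat V p T1).filter fun x => ∀ u ∈ V c, x u = p c u).card * 2 ^ (V c).card :=
          Nat.mul_le_mul h4 (Nat.pow_le_pow_right (by norm_num) (hV c hc))
      _ ≤ (sat V p T1).card := h3
      _ ≤ 2 * (sat V p T).card := h2

section

variable {ℓ d j : ℕ} {I0 : Finset I}

theorem sat_pos (hV : ∀ c ∈ I0, ℓ ≤ (V c).card)
    (hd : ∀ c ∈ I0, (I0.filter fun c' => ¬ Disjoint (V c') (V c)).card ≤ d)
    (hdℓ : 4 * d ≤ 2 ^ ℓ) (hℓ : 2 ≤ ℓ) : 0 < (sat V p I0).card := by
  classical
  have key : ∀ T : Finset I, T ⊆ I0 → 0 < (sat V p T).card := by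
    intro T
    induction T using Finset.induction_on with
    | empty =>
      intro _
      refine card_pos.2 ⟨fun _ => false, mem_sat.2 fun c hc => ?_⟩
      simp at hc
    | insert c T hc ih =>
      intro hT
      have h1 := ih fun c' hc' => hT (mem_insert_of_mem hc')
      have h2 := lll (V := V) (p := p) hV hd hdℓ T.card T rfl
        (fun c' hc' => hT (mem_insert_of_mem hc')) c (hT (mem_insert_self _ _))
      have h3 := card_insert_sat (V := V) (p := p) T c
      have h4 : 2 ^ 2 ≤ 2 ^ ℓ := Nat.pow_le_pow_right (by norm_num) hℓ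
      by_contra h0
      have h5 : (sat V p (insert c T)).card = 0 := by omega
      rw [h5, zero_add] at h3
      have h6 : (sat V p T).card * 4 ≤ (sat V p T).card * 2 ^ ℓ := Nat.mul_le_mul_left _ (by omega)
      rw [← h3] at h2
      omega
  exact key I0 (Subset.refl _)

/-- Removing the constraints that contain some of the variables in `W`. -/
theorem sat_remove (hV : ∀ c ∈ I0, ℓ ≤ (V c).card)
    (hd : ∀ c ∈ I0, (I0.filter fun c' => ¬ Disjoint (V c') (V c)).card ≤ d)
    (hdℓ : 4 * d ≤ 2 ^ ℓ) (hj : ∀ u, (I0.filter fun c => u ∈ V c).card ≤ j)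
    (hjℓ : 8 * j ≤ 2 ^ ℓ) (W : Finset (Fin n)) :
    3 ^ W.card * (sat V p (I0.filter fun c => Disjoint (V c) W)).card ≤
      4 ^ W.card * (sat V p I0).card := by
  classical
  induction W using Finset.induction_on with
  | empty =>
    simp only [card_empty, pow_zero, one_mul, disjoint_empty_right, filter_true]
    exact le_refl _
  | insert u W hu ih =>
    obtain ⟨T, hT⟩ : ∃ T, T = I0.filter fun c => Disjoint (V c) (insert u W) := ⟨_, rfl⟩
    obtain ⟨T', hT'⟩ : ∃ T', T' = I0.filter fun c => Disjoint (V c) W := ⟨_, rfl⟩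
    obtain ⟨X, hX⟩ : ∃ X, X = T'.filter fun c => u ∈ V c := ⟨_, rfl⟩
    have hTX : T ∪ X = T' := by
      ext c
      rw [mem_union, hX, mem_filter, hT, hT', mem_filter, mem_filter, disjoint_insert_right]
      by_cases h : u ∈ V c
      · simp [h]
      · simp [h]
    have hXj : X.card ≤ j := by
      refine le_trans (card_le_card ?_) (hj u)
      rw [hX, hT']
      exact filter_subset_filter _ (filter_subset _ _)
    have hT'0 : T' ⊆ I0 := by
      rw [hT']
      exact filter_subset _ _
    have h1 := chain (V := V) (p := p) (ℓ := ℓ) (T := T) X (fun X' c' hX' hc' hcX' => by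
      refine lll (V := V) (p := p) hV hd hdℓ _ _ rfl ?_ c' ?_
      · refine (union_subset_union_right hX').trans ?_
        rw [hTX]
        exact hT'0
      · refine hT'0 ?_
        rw [← hTX]
        exact mem_union_right _ hc')
    rw [hTX] at h1
    have h2 : 3 * (sat V p T).card ≤ 4 * (sat V p T').card := by
      have h3 : 4 * (2 * X.card * (sat V p T).card) ≤ 2 ^ ℓ * (sat V p T).card := by
        calc 4 * (2 * X.card * (sat V p T).card) = 8 * X.card * (sat V p T).card := by ring
          _ ≤ 8 * j * (sat V p T).card := Nat.mul_le_mul_right _ (Nat.mul_le_mul_left _ hXj)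
          _ ≤ 2 ^ ℓ * (sat V p T).card := Nat.mul_le_mul_right _ hjℓ
      have h4 : 2 ^ ℓ * (3 * (sat V p T).card) ≤ 2 ^ ℓ * (4 * (sat V p T').card) := by
        have h5 : 2 ^ ℓ * (3 * (sat V p T).card) = 3 * (2 ^ ℓ * (sat V p T).card) := by ring
        have h6 : 2 ^ ℓ * (4 * (sat V p T').card) = 4 * (2 ^ ℓ * (sat V p T').card) := by ring
        omega
      exact Nat.le_of_mul_le_mul_left h4 (by positivity)
    rw [card_insert_of_notMem hu, ← hT]
    rw [← hT'] at ih
    calc 3 ^ (W.card + 1) * (sat V p T).card = 3 ^ W.card * (3 * (sat V p T).card) := by ring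
      _ ≤ 3 ^ W.card * (4 * (sat V p T').card) := Nat.mul_le_mul_left _ h2
      _ = 4 * (3 ^ W.card * (sat V p T').card) := by ring
      _ ≤ 4 * (4 ^ W.card * (sat V p I0).card) := Nat.mul_le_mul_left _ ih
      _ = 4 ^ (W.card + 1) * (sat V p I0).card := by ring

open scoped Classical in
/-- The points that satisfy the constraints rarely have given values on a set of variables. -/
theorem sat_pat (hV : ∀ c ∈ I0, ℓ ≤ (V c).card)
    (hd : ∀ c ∈ I0, (I0.filter fun c' => ¬ Disjoint (V c') (V c)).card ≤ d)
    (hdℓ : 4 * d ≤ 2 ^ ℓ) (hj : ∀ u, (I0.filter fun c => u ∈ V c).card ≤ j)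
    (hjℓ : 8 * j ≤ 2 ^ ℓ) (W : Finset (Fin n)) (π : Fin n → Bool) {t : ℕ}
    (ht : 2 * t ≤ W.card) :
    ((sat V p I0).filter fun x => ∀ u ∈ W, x u = π u).card * 2 ^ t ≤ (sat V p I0).card := by
  have h1 := sat_remove (V := V) (p := p) hV hd hdℓ hj hjℓ W
  have h2 := card_pat (V := V) (p := p) (T := I0.filter fun c => Disjoint (V c) W) (W := W)
    (fun c hc => (mem_filter.1 hc).2) π
  have h3 : ((sat V p I0).filter fun x => ∀ u ∈ W, x u = π u).card ≤
      ((sat V p (I0.filter fun c => Disjoint (V c) W)).filter fun x => ∀ u ∈ W, x u = π u).card :=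
    card_le_card (filter_subset_filter _ (sat_anti (filter_subset _ _)))
  obtain ⟨a, ha⟩ : ∃ a, a = ((sat V p I0).filter fun x => ∀ u ∈ W, x u = π u).card := ⟨_, rfl⟩
  obtain ⟨b, hb⟩ : ∃ b, b = (sat V p (I0.filter fun c => Disjoint (V c) W)).card := ⟨_, rfl⟩
  rw [← ha] at h3 ⊢
  rw [← hb] at h1 h2
  have h4 : a * 2 ^ W.card ≤ b := (Nat.mul_le_mul_right _ h3).trans h2
  have h5 : a * 3 ^ W.card ≤ 2 ^ W.card * (sat V p I0).card := by
    have h6 : 2 ^ W.card * (a * 3 ^ W.card) ≤ 2 ^ W.card * (2 ^ W.card * (sat V p I0).card) := by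
      calc 2 ^ W.card * (a * 3 ^ W.card) = 3 ^ W.card * (a * 2 ^ W.card) := by ring
        _ ≤ 3 ^ W.card * b := Nat.mul_le_mul_left _ h4
        _ ≤ 4 ^ W.card * (sat V p I0).card := h1
        _ = 2 ^ W.card * (2 ^ W.card * (sat V p I0).card) := by
            rw [← mul_assoc, ← mul_pow]
            norm_num
    exact Nat.le_of_mul_le_mul_left h6 (by positivity)
  have h7 : 2 ^ (t + W.card) ≤ 3 ^ W.card := by
    have h8 : (2 ^ (t + W.card)) ^ 2 ≤ (3 ^ W.card) ^ 2 := by
      calc (2 ^ (t + W.card)) ^ 2 = 2 ^ (2 * t + 2 * W.card) := by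
            rw [← pow_mul]
            congr 1
            ring
        _ ≤ 2 ^ (3 * W.card) := Nat.pow_le_pow_right (by norm_num) (by omega)
        _ = 8 ^ W.card := by rw [pow_mul]; norm_num
        _ ≤ 9 ^ W.card := Nat.pow_le_pow_left (by norm_num) _
        _ = (3 ^ W.card) ^ 2 := by rw [← pow_mul, mul_comm W.card 2, pow_mul]; norm_num
    exact (Nat.pow_le_pow_iff_left (by norm_num)).1 h8
  have h9 : 2 ^ W.card * (a * 2 ^ t) ≤ 2 ^ W.card * (sat V p I0).card := by
    calc 2 ^ W.card * (a * 2 ^ t) = a * 2 ^ (t + W.card) := by rw [pow_add]; ring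
      _ ≤ a * 3 ^ W.card := Nat.mul_le_mul_left _ h7
      _ ≤ 2 ^ W.card * (sat V p I0).card := h5
  exact Nat.le_of_mul_le_mul_left h9 (by positivity)

end

end Pool.Agent.MP_9cec2c_lc.Narrow
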