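import Pool.Agent.Lib.MP_9cec2c_lc.NRCore
import Pool.Agent.Lib.MP_9cec2c_lc.Mg.G063

/-!
Random narrow CNFs are spread out.
-/

set_option autoImplicit false
set_option linter.unusedSectionVars false

namespace Pool.Agent.MP_9cec2c_lc.Narrow

open Finset
open Pool.Agent.MP_9cec2c_lc.SubstRed
open Pool.Agent.MP_9cec2c_lc.FormulaLines
open Pool.Agent.MP_9cec2c_lc.LovSch (ClauseList nonempty_emb pr_dense)

variable {n m w : ℕ}

/-- The clauses of a set of given size rarely have many variables in a small set. -/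
theorem pr_not_spread {v r : ℕ} (hw : w ≤ n) (hn : 0 < n) (hv0 : 0 < v) (hr0 : 0 < r)
    (hvr : v * r ≤ n)
    (hexp : (3 * m / r : ℝ) * 2 ^ w * (3 * (v * r : ℕ) / n : ℝ) ^ v ≤ (1 / 4) ^ w) :
    pr (fun f : ClauseList n m w => ¬ ∀ M : Finset (Fin m), M.card = r → ∀ Z : Finset (Fin n),
      (∀ i ∈ M, 2 * v ≤ (univ.filter fun e => (f i).1 e ∈ Z).card) → v * r ≤ Z.card) ≤
      ((1 / 4 : ℝ) ^ w) ^ r := by
  classical
  have hne := nonempty_emb hw
  have hn' : (0 : ℝ) < n := by exact_mod_cast hn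
  have hr' : (0 : ℝ) < r := by exact_mod_cast hr0
  have hvr0 : 0 < v * r := Nat.mul_pos hv0 hr0
  have hz : (0 : ℝ) < (v : ℝ) * r := by exact_mod_cast hvr0
  refine le_trans (pr_mono (q := fun f : ClauseList n m w =>
      ∃ p ∈ (powersetCard r (univ : Finset (Fin m))) ×ˢ
        (powersetCard (v * r) (univ : Finset (Fin n))),
        ∀ i ∈ p.1, 2 * v ≤ (univ.filter fun e => (f i).1 e ∈ p.2).card) fun f hf => ?_) ?_
  · push Not at hf
    obtain ⟨M, hM, Z, hZ, hlt⟩ := hf
    obtain ⟨Z', hZ1, hZ2⟩ := exists_superset_card_eq (s := Z) (n := v * r) hlt.le (by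
      rw [Fintype.card_fin]
      exact hvr)
    refine ⟨(M, Z'), ?_, fun i hi => ?_⟩
    · rw [mem_product, mem_powersetCard, mem_powersetCard]
      exact ⟨⟨subset_univ _, hM⟩, subset_univ _, hZ2⟩
    · refine (hZ i hi).trans (card_le_card fun e he => ?_)
      rw [mem_filter] at he ⊢
      exact ⟨he.1, hZ1 he.2⟩
  refine (pr_exists _ _).trans ?_
  have h1 : ∀ p ∈ (powersetCard r (univ : Finset (Fin m))) ×ˢ
        (powersetCard (v * r) (univ : Finset (Fin n))),
      pr (fun f : ClauseList n m w =>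
        ∀ i ∈ p.1, 2 * v ≤ (univ.filter fun e => (f i).1 e ∈ p.2).card) ≤
          (2 ^ w * (((v * r : ℕ) : ℝ) / n) ^ (2 * v)) ^ r := by
    rintro ⟨T, Z⟩ hp
    rw [mem_product, mem_powersetCard, mem_powersetCard] at hp
    have h2 := indep_fixed (ι := Fin m) T (fun c : (Fin w ↪ Fin n) × (Fin w → Bool) =>
      2 * v ≤ (univ.filter fun e => c.1 e ∈ Z).card) _ (pr_dense hw v Z)
    rw [hp.1.2, hp.2.2] at h2
    exact h2
  refine (sum_le_sum h1).trans ?_
  rw [sum_const, card_product, card_powersetCard, card_powersetCard, card_univ, card_univ,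
    Fintype.card_fin, Fintype.card_fin, nsmul_eq_mul]
  push_cast
  have h2 : (m.choose r : ℝ) ≤ (3 * m / r : ℝ) ^ r := choose_le_three hr0
  have h3 : (n.choose (v * r) : ℝ) ≤ ((3 * n / (v * r) : ℝ) ^ v) ^ r := by
    have := choose_le_three (n := n) (k := v * r) hvr0
    push_cast at this
    rw [← pow_mul]
    exact this
  calc (m.choose r : ℝ) * (n.choose (v * r) : ℝ) * (2 ^ w * ((v : ℝ) * r / n) ^ (2 * v)) ^ r
      ≤ (3 * m / r : ℝ) ^ r * ((3 * n / (v * r) : ℝ) ^ v) ^ r *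
          (2 ^ w * ((v : ℝ) * r / n) ^ (2 * v)) ^ r := by
        gcongr
    _ = ((3 * m / r : ℝ) * 2 ^ w * (3 * ((v : ℝ) * r) / n) ^ v) ^ r := by
        rw [← mul_pow, ← mul_pow]
        congr 1
        rw [two_mul, pow_add, div_pow, div_pow, div_pow, mul_pow, mul_pow 3 ((v : ℝ) * r)]
        field_simp
    _ ≤ ((1 / 4 : ℝ) ^ w) ^ r := by
        refine pow_le_pow_left₀ (by positivity) ?_ _
        push_cast at hexp
        exact hexp

end Pool.Agent.MP_9cec2c_lc.Narrow
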