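import Mathlib

/-!
Many sets of size `d` contain no member of a small family of sets.
-/

set_option autoImplicit false

namespace Pool.Agent.MP_9cec2c_lc.ResPoly.Gd

open Finset

variable {V : Type*} [Fintype V] [DecidableEq V]

/-- The sets of size `d` without a subset in `A`. -/
def good (A : Finset (Finset V)) (d : ℕ) : Finset (Finset V) :=
  (powersetCard d univ).filter fun T => ∀ S ∈ A, ¬ S ⊆ T

theorem choose_pow (n d : ℕ) (hd : d ≤ n) (s : ℕ) (hs : s ≤ d) :
    (n - s).choose (d - s) * n ^ s ≤ n.choose d * d ^ s := by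
  induction s with
  | zero => simp
  | succ s ih =>
    have h1 := ih (by omega)
    have h2 : (n - s) * (n - (s + 1)).choose (d - (s + 1)) = (n - s).choose (d - s) * (d - s) := by
      have h3 := Nat.add_one_mul_choose_eq (n - (s + 1)) (d - (s + 1))
      have h4 : n - (s + 1) + 1 = n - s := by omega
      have h5 : d - (s + 1) + 1 = d - s := by omega
      rw [h4, h5] at h3
      exact h3
    have h6 : 0 < n - s := by omega
    have h7 : (d - s) * n ≤ d * (n - s) := by
      have h8 : s ≤ d := by omega
      have h9 : s ≤ n := by omega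
      zify [h8, h9]
      have h10 : (d : ℤ) ≤ n := by exact_mod_cast hd
      have h11 : (0 : ℤ) ≤ s := Int.natCast_nonneg s
      nlinarith [mul_le_mul_of_nonneg_left h10 h11]
    have h12 : (n - s) * ((n - (s + 1)).choose (d - (s + 1)) * n ^ (s + 1)) ≤
        (n - s) * (n.choose d * d ^ (s + 1)) := by
      calc (n - s) * ((n - (s + 1)).choose (d - (s + 1)) * n ^ (s + 1))
          = ((n - s) * (n - (s + 1)).choose (d - (s + 1))) * (n ^ s * n) := by ring
        _ = ((n - s).choose (d - s) * n ^ s) * ((d - s) * n) := by rw [h2]; ring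
        _ ≤ (n.choose d * d ^ s) * (d * (n - s)) := Nat.mul_le_mul h1 h7
        _ = (n - s) * (n.choose d * d ^ (s + 1)) := by ring
    exact Nat.le_of_mul_le_mul_left h12 h6

/-- The number of sets of size `e` that contain `S`. -/
theorem card_super (S : Finset V) (e : ℕ) (hS : S.card ≤ e) :
    ((powersetCard e univ).filter fun T => S ⊆ T).card =
      (Fintype.card V - S.card).choose (e - S.card) := by
  have h : ((powersetCard e univ).filter fun T => S ⊆ T) =
      (powersetCard (e - S.card) (univ \ S)).image fun T => T ∪ S := by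
    ext T
    rw [mem_filter, mem_powersetCard, mem_image]
    constructor
    · rintro ⟨⟨-, h1⟩, h2⟩
      refine ⟨T \ S, mem_powersetCard.2 ⟨sdiff_subset_sdiff (subset_univ _) subset_rfl, ?_⟩,
        sdiff_union_of_subset h2⟩
      rw [card_sdiff_of_subset h2, h1]
    · rintro ⟨R, hR, rfl⟩
      obtain ⟨h1, h2⟩ := mem_powersetCard.1 hR
      refine ⟨⟨subset_univ _, ?_⟩, subset_union_right⟩
      rw [card_union_of_disjoint (disjoint_of_subset_left h1 sdiff_disjoint), h2]
      omega
  rw [h, card_image_of_injOn, card_powersetCard, card_sdiff_of_subset (subset_univ _), card_univ]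
  intro R hR R' hR' heq
  have h1 := (mem_powersetCard.1 (mem_coe.1 hR)).1
  have h1' := (mem_powersetCard.1 (mem_coe.1 hR')).1
  have h2 : ∀ Q : Finset V, Q ⊆ univ \ S → (Q ∪ S) \ S = Q := fun Q hQ =>
    union_sdiff_cancel_right (disjoint_of_subset_left hQ sdiff_disjoint)
  have h3 : (R ∪ S) \ S = (R' ∪ S) \ S := by
    have : R ∪ S = R' ∪ S := heq
    rw [this]
  rwa [h2 R h1, h2 R' h1'] at h3

/-- Many sets of size `d` contain no member of `A`, if `A` has few members of size `s`. -/
theorem count_good (A : Finset (Finset V)) {s d b : ℕ} (hA : ∀ S ∈ A, S.card = s) (hs : 0 < s)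
    (hsd : s ≤ d + b) (hdb : d + b ≤ Fintype.card V)
    (hcount : 2 * A.card * (d + b) ^ s ≤ (b + 1) * Fintype.card V ^ s) :
    (Fintype.card V).choose d ≤ 2 * (d + b).choose d * (good A d).card := by
  classical
  obtain ⟨n, hn⟩ : ∃ n, n = Fintype.card V := ⟨_, rfl⟩
  rw [← hn] at hcount hdb ⊢
  obtain ⟨T1, hT1⟩ : ∃ T1 : Finset (Finset V), T1 = powersetCard (d + b) univ := ⟨_, rfl⟩
  have hT1c : T1.card = n.choose (d + b) := by rw [hT1, card_powersetCard, card_univ, hn]
  -- the number of members of `A` inside a set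
  have hsum : ∑ T ∈ T1, (A.filter fun S => S ⊆ T).card =
      A.card * (n - s).choose (d + b - s) := by
    have h1 : ∑ T ∈ T1, (A.filter fun S => S ⊆ T).card =
        ∑ S ∈ A, (T1.filter fun T => S ⊆ T).card := by
      simp_rw [card_filter]
      exact sum_comm
    rw [h1]
    refine sum_const_nat fun S hS => ?_
    rw [hT1, card_super S (d + b) (by rw [hA S hS]; exact hsd), hA S hS, ← hn]
  have hmarkov : (T1.filter fun T => ¬ (A.filter fun S => S ⊆ T).card ≤ b).card * (b + 1) ≤
      A.card * (n - s).choose (d + b - s) := by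
    rw [← hsum]
    refine le_trans ?_ (sum_le_sum_of_subset (filter_subset
      (fun T => ¬ (A.filter fun S => S ⊆ T).card ≤ b) T1))
    rw [← smul_eq_mul]
    refine card_nsmul_le_sum _ _ _ fun T hT => ?_
    have := (mem_filter.1 hT).2
    omega
  have hhalf : n.choose (d + b) ≤
      2 * (T1.filter fun T => (A.filter fun S => S ⊆ T).card ≤ b).card := by
    by_cases hn0 : n = 0
    · have : d + b = 0 := by omega
      omega
    have h1 := choose_pow n (d + b) hdb s hsd
    have h2 : 2 * (A.card * (n - s).choose (d + b - s)) ≤ (b + 1) * n.choose (d + b) := by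
      have h3 : n ^ s * (2 * (A.card * (n - s).choose (d + b - s))) ≤
          n ^ s * ((b + 1) * n.choose (d + b)) := by
        calc n ^ s * (2 * (A.card * (n - s).choose (d + b - s)))
            = 2 * A.card * ((n - s).choose (d + b - s) * n ^ s) := by ring
          _ ≤ 2 * A.card * (n.choose (d + b) * (d + b) ^ s) := Nat.mul_le_mul_left _ h1
          _ = (2 * A.card * (d + b) ^ s) * n.choose (d + b) := by ring
          _ ≤ ((b + 1) * n ^ s) * n.choose (d + b) := Nat.mul_le_mul_right _ hcount
          _ = n ^ s * ((b + 1) * n.choose (d + b)) := by ring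
      exact Nat.le_of_mul_le_mul_left h3 (pow_pos (Nat.pos_of_ne_zero hn0) s)
    have h4 : (b + 1) * (2 * (T1.filter fun T => ¬ (A.filter fun S => S ⊆ T).card ≤ b).card) ≤
        (b + 1) * n.choose (d + b) := by
      calc (b + 1) * (2 * (T1.filter fun T => ¬ (A.filter fun S => S ⊆ T).card ≤ b).card)
          = 2 * ((T1.filter fun T => ¬ (A.filter fun S => S ⊆ T).card ≤ b).card * (b + 1)) := by
            ring
        _ ≤ 2 * (A.card * (n - s).choose (d + b - s)) := Nat.mul_le_mul_left _ hmarkov
        _ ≤ (b + 1) * n.choose (d + b) := h2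
    have h5 := Nat.le_of_mul_le_mul_left h4 (Nat.succ_pos b)
    have h6 := card_filter_add_card_filter_not (s := T1)
      (fun T => (A.filter fun S => S ⊆ T).card ≤ b)
    rw [hT1c] at h6
    omega
  -- delete one element of each member of `A`
  have hdel : ∀ T ∈ T1.filter (fun T => (A.filter fun S => S ⊆ T).card ≤ b),
      ∃ R ∈ good A d, R ⊆ T := by
    intro T hT
    obtain ⟨hT, hTb⟩ := mem_filter.1 hT
    rw [hT1, mem_powersetCard] at hT
    have hpick : ∀ S, ∃ v : V, S ∈ A → v ∈ S := by
      intro S
      by_cases hS : S ∈ A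
      · obtain ⟨v, hv⟩ := card_pos.1 (by rw [hA S hS]; exact hs)
        exact ⟨v, fun _ => hv⟩
      · have : Nonempty V := by
          rcases isEmpty_or_nonempty V with hV | hV
          · have : n = 0 := by rw [hn]; exact Fintype.card_eq_zero
            omega
          · exact hV
        exact ⟨Classical.arbitrary V, fun h => absurd h hS⟩
    choose v hv using hpick
    have h1 : d ≤ (T \ (A.filter fun S => S ⊆ T).image v).card := by
      have h2 := le_card_sdiff ((A.filter fun S => S ⊆ T).image v) T
      have h3 := card_image_le (s := A.filter fun S => S ⊆ T) (f := v)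
      omega
    obtain ⟨R, hR, hRc⟩ := exists_subset_card_eq h1
    refine ⟨R, mem_filter.2 ⟨mem_powersetCard.2 ⟨subset_univ _, hRc⟩, fun S hS hSR => ?_⟩,
      hR.trans sdiff_subset⟩
    have h4 : S ⊆ T := (hSR.trans hR).trans sdiff_subset
    have h5 := mem_sdiff.1 (hR (hSR (hv S hS)))
    exact h5.2 (mem_image_of_mem v (mem_filter.2 ⟨hS, h4⟩))
  -- double counting
  have hdc : (T1.filter fun T => (A.filter fun S => S ⊆ T).card ≤ b).card ≤
      (good A d).card * (n - d).choose b := by
    have h1 : (T1.filter fun T => (A.filter fun S => S ⊆ T).card ≤ b) ⊆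
        (good A d).biUnion fun R => (powersetCard (d + b) univ).filter fun T => R ⊆ T := by
      intro T hT
      obtain ⟨R, hR, hRT⟩ := hdel T hT
      refine mem_biUnion.2 ⟨R, hR, mem_filter.2 ⟨?_, hRT⟩⟩
      rw [← hT1]
      exact (mem_filter.1 hT).1
    refine (card_le_card h1).trans (card_biUnion_le_card_mul _ _ _ fun R hR => ?_)
    have h2 := (mem_powersetCard.1 (mem_filter.1 hR).1).2
    rw [card_super R (d + b) (by omega), h2, ← hn, Nat.add_sub_cancel_left]
  have hfin : n.choose (d + b) ≤ 2 * ((good A d).card * (n - d).choose b) :=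
    hhalf.trans (Nat.mul_le_mul_left _ hdc)
  have hmul : n.choose (d + b) * (d + b).choose d = n.choose d * (n - d).choose b := by
    have := Nat.choose_mul (n := n) (k := d + b) (s := d) (by omega)
    rw [this, Nat.add_sub_cancel_left]
  have hpos : 0 < (n - d).choose b := Nat.choose_pos (by omega)
  refine Nat.le_of_mul_le_mul_left (?_ : (n - d).choose b * _ ≤ (n - d).choose b * _) hpos
  calc (n - d).choose b * n.choose d = n.choose (d + b) * (d + b).choose d := by
        rw [hmul, mul_comm]
    _ ≤ (2 * ((good A d).card * (n - d).choose b)) * (d + b).choose d :=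
        Nat.mul_le_mul_right _ hfin
    _ = (n - d).choose b * (2 * (d + b).choose d * (good A d).card) := by ring

/-- Many sets of size `d` have at most `t` elements in each `Z i`. -/
theorem count_theta {ι : Type*} [Fintype ι] (Z : ι → Finset V) {w t d b : ℕ}
    (hZ : ∀ i, (Z i).card ≤ w) (ht : t + 1 ≤ d + b) (hdb : d + b ≤ Fintype.card V)
    (hcount : 2 * (Fintype.card ι * w.choose (t + 1)) * (d + b) ^ (t + 1) ≤
      (b + 1) * Fintype.card V ^ (t + 1)) :
    (Fintype.card V).choose d ≤ 2 * (d + b).choose d *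
      ((powersetCard d univ).filter fun T => ∀ i, (T ∩ Z i).card ≤ t).card := by
  classical
  obtain ⟨A, hA⟩ : ∃ A : Finset (Finset V), A = univ.biUnion fun i => powersetCard (t + 1) (Z i) :=
    ⟨_, rfl⟩
  have hAc : A.card ≤ Fintype.card ι * w.choose (t + 1) := by
    rw [hA, ← card_univ (α := ι)]
    refine card_biUnion_le_card_mul _ _ _ fun i _ => ?_
    rw [card_powersetCard]
    exact Nat.choose_le_choose _ (hZ i)
  have h1 := count_good A (s := t + 1) (d := d) (b := b) (fun S hS => by
      rw [hA] at hS
      obtain ⟨i, -, hi⟩ := mem_biUnion.1 hS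
      exact (mem_powersetCard.1 hi).2) (Nat.succ_pos t) ht hdb (by
      refine le_trans ?_ hcount
      exact Nat.mul_le_mul_right _ (Nat.mul_le_mul_left _ hAc))
  refine h1.trans (Nat.mul_le_mul_left _ (card_le_card fun T hT => ?_))
  obtain ⟨h2, h3⟩ := mem_filter.1 hT
  refine mem_filter.2 ⟨h2, fun i => ?_⟩
  by_contra hcon
  obtain ⟨S, hS, hSc⟩ := exists_subset_card_eq (Nat.succ_le_of_lt (not_le.1 hcon))
  refine h3 S ?_ (hS.trans inter_subset_left)
  rw [hA]
  exact mem_biUnion.2 ⟨i, mem_univ _, mem_powersetCard.2 ⟨hS.trans inter_subset_right, hSc⟩⟩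

end Pool.Agent.MP_9cec2c_lc.ResPoly.Gd
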