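import Mathlib

/-!
Proofs over a finite field whose lines are linear combinations of conjunctions of conditions of
small degree; the pigeonhole principle.
-/

set_option autoImplicit false

namespace Pool.Agent.MP_9cec2c_lc.PigeonProof

/-- A clause: a finite set of literals, read as their disjunction. The literal `l` is the variable
`l.1` if `l.2` is true, and its negation if `l.2` is false. -/
abbrev Clause (V : Type) : Type := Finset (V × Bool)

/-- The assignment `x` satisfies the clause `C`. -/
def Holds {V : Type} (x : V → Bool) (C : Clause V) : Prop := ∃ l ∈ C, x l.1 = l.2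

variable (k : Type) [Field k] (V : Type)

/-- The functions of degree at most `t`: the linear combinations of the products of at most `t`
variables. -/
def Degree (t : ℕ) : Submodule k ((V → Bool) → k) :=
  Submodule.span k {f | ∃ M : Finset V, M.card ≤ t ∧
    f = fun x => if ∀ v ∈ M, x v = true then 1 else 0}

/-- A term: a set of functions `g`, read as the conjunction of the equations `g = 0`. -/
abbrev Term : Type := Set ((V → Bool) → k)

/-- A line: a linear combination of terms. -/
abbrev Line : Type := Term k V →₀ k

variable {k V}

open Classical in
/-- The value of a term: 1 if all its equations hold at `x`, and 0 otherwise. -/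
noncomputable def termValue (T : Term k V) (x : V → Bool) : k :=
  if ∀ g ∈ T, g x = 0 then 1 else 0

/-- The value of a line. -/
noncomputable def value (L : Line k V) (x : V → Bool) : k :=
  L.sum fun T c => c * termValue T x

/-- The lines `L 0, ..., L (l - 1)` form a refutation of `F` with equations of degree at most `t`
and at most `b` premises. The line `L i` asserts that its value is 0. Some line is false for all
assignments. Each line is implied by a clause of `F` or by at most `b` earlier lines. -/
def IsRefutation (t b : ℕ) (F : Set (Clause V)) {l : ℕ} (L : Fin l → Line k V) : Prop :=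
  (∀ i, ∀ T ∈ (L i).support, ∀ g ∈ T, g ∈ Degree k V t) ∧ (∃ i, ∀ x, value (L i) x ≠ 0) ∧
    ∀ i, (∃ C ∈ F, ∀ x, Holds x C → value (L i) x = 0) ∨
      ∃ P : Finset (Fin l), P.card ≤ b ∧ (∀ j ∈ P, j < i) ∧
        ∀ x, (∀ j ∈ P, value (L j) x = 0) → value (L i) x = 0

/-- The CNF `F` is unsatisfiable, and at least `N` different terms occur in every refutation of
`F`, whatever the number of lines. -/
def Needs (k : Type) [Field k] (t b N : ℕ) (F : Set (Clause V)) : Prop :=
  (∀ x, ∃ C ∈ F, ¬ Holds x C) ∧
    ∀ (l : ℕ) (L : Fin l → Line k V), IsRefutation t b F L → N ≤ {T | ∃ i, L i T ≠ 0}.ncard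

/-- The pigeonhole principle with `m` pigeons and `n` holes. The variable `(i, h)` says that the
pigeon `i` sits in the hole `h`. Each pigeon sits in some hole, no two pigeons sit in the same hole,
and each hole contains a pigeon. -/
def PHP (m n : ℕ) : Set (Clause (Fin m × Fin n)) :=
  {C | ∃ i : Fin m, C = Finset.univ.image fun h : Fin n => ((i, h), true)} ∪
    {C | ∃ (i j : Fin m) (h : Fin n), i ≠ j ∧ C = {((i, h), false), ((j, h), false)}} ∪
      {C | ∃ h : Fin n, C = Finset.univ.image fun i : Fin m => ((i, h), true)}

end Pool.Agent.MP_9cec2c_lc.PigeonProof
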