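import Pool.Agent.Lib.MP_9cec2c_lc.Mg.G045

/-!
A refutation, multiplied by a function that vanishes where its lines are not approximated well, is
a derivation of small degree.
-/

set_option autoImplicit false
set_option linter.unusedSectionVars false

namespace Pool.Agent.MP_9cec2c_lc.ResPoly

open Finset

variable {n : ℕ} (K : Type) [Field K]

theorem one_mem_Poly (d : ℕ) : (1 : (Fin n → Bool) → K) ∈ Poly K n d := by
  have h : (1 : (Fin n → Bool) → K) = mon K ∅ := by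
    funext x
    unfold mon
    rw [if_pos fun v hv => absurd hv (notMem_empty v)]
    rfl
  rw [h]
  exact mon_mem_Poly K (by rw [card_empty]; exact Nat.zero_le _)

theorem prod_mem_Poly {U : Type*} (s : Finset U) {t : ℕ} {q : U → (Fin n → Bool) → K}
    (hq : ∀ j ∈ s, q j ∈ Poly K n t) : ∏ j ∈ s, q j ∈ Poly K n (s.card * t) := by
  classical
  induction s using Finset.induction_on with
  | empty =>
    rw [prod_empty]
    exact one_mem_Poly K _
  | insert j s hj ih =>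
    rw [prod_insert hj, card_insert_of_notMem hj, add_mul, one_mul, add_comm]
    exact Poly_mul K (hq j (mem_insert_self _ _)) (ih fun i hi => hq i (mem_insert_of_mem hi))

/-! ### Lines

`M a` is a space of functions of degree at most `a`, and `J` is the space of the functions that
have a derivation. -/

section lines

variable {Dm : Set (Fin n → Bool)} {M : ℕ → Submodule K ((Fin n → Bool) → K)}
  {J : Submodule K ((Fin n → Bool) → K)} {D τ k b : ℕ} {f : (Fin n → Bool) → K}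

theorem mem_M_mono
    (hM : ∀ (a e : ℕ) (h p : (Fin n → Bool) → K), h ∈ M a → p ∈ Poly K n e → h * p ∈ M (a + e))
    {a a' : ℕ} (haa : a ≤ a') {h : (Fin n → Bool) → K} (hh : h ∈ M a) : h ∈ M a' := by
  have h1 := hM a (a' - a) h 1 hh (one_mem_Poly K _)
  rwa [mul_one, Nat.add_sub_cancel' haa] at h1

/-- The contribution of the premises. -/
theorem premises_mem
    (hM : ∀ (a e : ℕ) (h p : (Fin n → Bool) → K), h ∈ M a → p ∈ Poly K n e → h * p ∈ M (a + e))
    (hmul : ∀ (a e : ℕ) (h p : (Fin n → Bool) → K), a + e ≤ D → h ∈ J → h ∈ M a →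
      p ∈ Poly K n e → h * p ∈ J)
    (hf : f ∈ M 0) {U : Type*} (g : U → (Fin n → Bool) → K)
    (hg : ∀ u, g u ∈ Poly K n τ) (s : Finset U) (hs : ∀ j ∈ s, f * g j ∈ J) {e : ℕ}
    {h : (Fin n → Bool) → K} (hh : h ∈ Poly K n e) (hD : e + s.card * τ ≤ D) :
    f * h * (1 - ∏ j ∈ s, (1 - g j)) ∈ J := by
  classical
  induction s using Finset.induction_on with
  | empty =>
    rw [prod_empty, sub_self, mul_zero]
    exact Submodule.zero_mem _
  | insert j s hj ih =>
    rw [card_insert_of_notMem hj, add_mul, one_mul] at hD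
    have h1 : f * h * (1 - ∏ i ∈ insert j s, (1 - g i)) =
        f * h * (1 - ∏ i ∈ s, (1 - g i)) + f * g j * (h * ∏ i ∈ s, (1 - g i)) := by
      rw [prod_insert hj]
      ring
    rw [h1]
    refine Submodule.add_mem _ (ih (fun i hi => hs i (mem_insert_of_mem hi)) (by omega)) ?_
    refine hmul (0 + τ) (e + s.card * τ) _ _ (by omega) (hs j (mem_insert_self _ _))
      (hM 0 τ _ _ hf (hg j)) (Poly_mul K hh (prod_mem_Poly K s fun i _ => ?_))
    exact Submodule.sub_mem _ (one_mem_Poly K _) (hg i)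

/-- All lines of a refutation are killed. -/
theorem lines_mem
    (hM : ∀ (a e : ℕ) (h p : (Fin n → Bool) → K), h ∈ M a → p ∈ Poly K n e → h * p ∈ M (a + e))
    (h0 : ∀ h ∈ M D, (∀ x ∈ Dm, h x = 0) → h ∈ J)
    (hmul : ∀ (a e : ℕ) (h p : (Fin n → Bool) → K), a + e ≤ D → h ∈ J → h ∈ M a →
      p ∈ Poly K n e → h * p ∈ J)
    (hf : f ∈ M 0)
    {ι : Type*} (F : ι → Set (Fin n → Bool)) (ax : ι → (Fin n → Bool) → K)
    (hax : ∀ (i : ι) (a : ℕ) (h : (Fin n → Bool) → K), a + k ≤ D → h ∈ M a → h * ax i ∈ J)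
    (haxk : ∀ i, ax i ∈ Poly K n k)
    (haxF : ∀ i, ∀ x ∈ Dm, x ∈ F i → ax i x = 1)
    {U : Type*} {rel : U → U → Prop} (hwf : WellFounded rel) (A : U → Set (Fin n → Bool))
    (g : U → (Fin n → Bool) → K) (hg : ∀ u, g u ∈ Poly K n τ)
    (hgA : ∀ u, ∀ x ∈ Dm, f x ≠ 0 → (x ∈ A u → g u x = 0) ∧ (x ∉ A u → g u x = 1))
    (hrule : ∀ u, (∃ i, ∀ x ∈ Dm, x ∉ F i → x ∈ A u) ∨
      ∃ s : Finset U, s.card ≤ b ∧ (∀ j ∈ s, rel j u) ∧
        ∀ x ∈ Dm, (∀ j ∈ s, x ∈ A j) → x ∈ A u)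
    (hD1 : τ + k ≤ D) (hD2 : (b + 1) * τ ≤ D) (u : U) : f * g u ∈ J := by
  classical
  induction u using hwf.induction with
  | _ u ih =>
    have h2 : f * g u ∈ M τ := by
      have h3 := hM 0 τ _ _ hf (hg u)
      rwa [Nat.zero_add] at h3
    rcases hrule u with ⟨i, hi⟩ | ⟨s, hs, hrel, himp⟩
    · have h1 : f * g u = f * g u * ax i + (f * g u - f * g u * ax i) := by ring
      rw [h1]
      refine Submodule.add_mem _ (hax i τ _ hD1 h2) ?_
      refine h0 _ (Submodule.sub_mem _ (mem_M_mono K hM (by omega) h2)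
        (mem_M_mono K hM hD1 (hM τ k _ _ h2 (haxk i)))) fun x hx => ?_
      rw [Pi.sub_apply, Pi.mul_apply, Pi.mul_apply, Pi.mul_apply]
      by_cases hfx : f x = 0
      · rw [hfx, zero_mul, zero_mul, sub_zero]
      · by_cases hxF : x ∈ F i
        · rw [haxF i x hx hxF, mul_one, sub_self]
        · rw [((hgA u x hx hfx).1 (hi x hx hxF)), mul_zero, zero_mul, sub_zero]
    · have hb : s.card * τ ≤ b * τ := Nat.mul_le_mul_right τ hs
      rw [add_mul, one_mul] at hD2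
      have h1 : f * g u = f * g u * (1 - ∏ j ∈ s, (1 - g j)) +
          f * g u * ∏ j ∈ s, (1 - g j) := by ring
      rw [h1]
      refine Submodule.add_mem _ (premises_mem K hM hmul hf g hg s (fun j hj => ih j (hrel j hj))
        (hg u) (by omega)) ?_
      refine h0 _ (mem_M_mono K hM (a := τ + s.card * τ) (by omega) (hM τ (s.card * τ) _ _ h2
        (prod_mem_Poly K s fun j _ => ?_))) fun x hx => ?_
      · exact Submodule.sub_mem _ (one_mem_Poly K _) (hg j)
      · rw [Pi.mul_apply, Pi.mul_apply, Finset.prod_apply]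
        by_cases hfx : f x = 0
        · rw [hfx, zero_mul, zero_mul]
        · by_cases hxA : x ∈ A u
          · rw [(hgA u x hx hfx).1 hxA, mul_zero, zero_mul]
          · have hex : ∃ j ∈ s, x ∉ A j := by
              by_contra hcon
              push Not at hcon
              exact hxA (himp x hx hcon)
            obtain ⟨j, hj, hxj⟩ := hex
            rw [prod_eq_zero hj, mul_zero]
            rw [Pi.sub_apply, (hgA j x hx hfx).2 hxj, Pi.one_apply, sub_self]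

/-- The multiplier is killed. -/
theorem multiplier_mem
    (hM : ∀ (a e : ℕ) (h p : (Fin n → Bool) → K), h ∈ M a → p ∈ Poly K n e → h * p ∈ M (a + e))
    (h0 : ∀ h ∈ M D, (∀ x ∈ Dm, h x = 0) → h ∈ J)
    (hf : f ∈ M 0) {A : Set (Fin n → Bool)} {g : (Fin n → Bool) → K}
    (hg : g ∈ Poly K n τ) (hgA : ∀ x ∈ Dm, f x ≠ 0 → x ∉ A → g x = 1)
    (hA : ∀ x ∈ Dm, x ∉ A) (hJ : f * g ∈ J) (hD : τ ≤ D) : f ∈ J := by
  have h1 : f = f * g + (f - f * g) := by ring
  have h2 : f * g ∈ M τ := by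
    have h3 := hM 0 τ _ _ hf hg
    rwa [Nat.zero_add] at h3
  rw [h1]
  refine Submodule.add_mem _ hJ (h0 _ (Submodule.sub_mem _ (mem_M_mono K hM (by omega) hf)
    (mem_M_mono K hM hD h2)) fun x hx => ?_)
  rw [Pi.sub_apply, Pi.mul_apply]
  by_cases hfx : f x = 0
  · rw [hfx, zero_mul, sub_zero]
  · rw [hgA x hx hfx (hA x hx), mul_one, sub_self]

end lines

/-! ### Polynomials in terms -/

/-- The polynomials of degree at most `T` in the functions `c s`. -/
def tmSpan {S : Type*} (c : S → (Fin n → Bool) → K) (T : ℕ) :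
    Submodule K ((Fin n → Bool) → K) :=
  Submodule.span K {f | ∃ w : Finset S, w.card ≤ T ∧ f = ∏ s ∈ w, c s}

/-- A polynomial in functions that agree with functions of small degree. -/
theorem tmSpan_approx {S : Type*} {c c' : S → (Fin n → Bool) → K} {T τ : ℕ}
    (hc' : ∀ s, c' s ∈ Poly K n τ) {X : Set (Fin n → Bool)}
    (hX : ∀ s, ∀ x ∈ X, c' s x = c s x) {Q : (Fin n → Bool) → K} (hQ : Q ∈ tmSpan K c T) :
    ∃ Q' ∈ Poly K n (T * τ), ∀ x ∈ X, Q' x = Q x := by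
  unfold tmSpan at hQ
  induction hQ using Submodule.span_induction with
  | mem f hf =>
    obtain ⟨w, hw, rfl⟩ := hf
    refine ⟨∏ s ∈ w, c' s, Poly_mono K (Nat.mul_le_mul_right τ hw)
      (prod_mem_Poly K w fun s _ => hc' s), fun x hx => ?_⟩
    rw [Finset.prod_apply, Finset.prod_apply]
    exact prod_congr rfl fun s _ => hX s x hx
  | zero => exact ⟨0, Submodule.zero_mem _, fun x _ => rfl⟩
  | add f g _ _ hf hg =>
    obtain ⟨f', h1, h2⟩ := hf
    obtain ⟨g', h3, h4⟩ := hg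
    exact ⟨f' + g', Submodule.add_mem _ h1 h3, fun x hx => by
      rw [Pi.add_apply, Pi.add_apply, h2 x hx, h4 x hx]⟩
  | smul c f _ hf =>
    obtain ⟨f', h1, h2⟩ := hf
    exact ⟨c • f', Submodule.smul_mem _ _ h1, fun x hx => by
      rw [Pi.smul_apply, Pi.smul_apply, h2 x hx]⟩

variable [Fintype K]

/-- There is no refutation by polynomial equations `Q u = 0` of degree at most `T` in few
functions `c s` that have good approximations. -/
theorem no_refutation_of_approx {Dm : Set (Fin n → Bool)}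
    {M : ℕ → Submodule K ((Fin n → Bool) → K)} {J W : Submodule K ((Fin n → Bool) → K)}
    {D d k b T τ A B : ℕ}
    (hM : ∀ (a e : ℕ) (h p : (Fin n → Bool) → K), h ∈ M a → p ∈ Poly K n e → h * p ∈ M (a + e))
    (h0 : ∀ h ∈ M D, (∀ x ∈ Dm, h x = 0) → h ∈ J)
    (hmul : ∀ (a e : ℕ) (h p : (Fin n → Bool) → K), a + e ≤ D → h ∈ J → h ∈ M a →
      p ∈ Poly K n e → h * p ∈ J)
    (hW : W ≤ Poly K n d) (hWM : W ≤ M 0) (hWJ : ∀ f ∈ W, f ∈ J → f = 0)
    {ι : Type*} (F : ι → Set (Fin n → Bool)) (ax : ι → (Fin n → Bool) → K)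
    (hax : ∀ (i : ι) (a : ℕ) (h : (Fin n → Bool) → K), a + k ≤ D → h ∈ M a → h * ax i ∈ J)
    (haxk : ∀ i, ax i ∈ Poly K n k)
    (haxF : ∀ i, ∀ x ∈ Dm, x ∈ F i → ax i x = 1)
    {S : Type} [Fintype S] (c : S → (Fin n → Bool) → K)
    (happ : ∀ s, ∃ N ∈ Poly K n τ, ∃ E : Set (Fin n → Bool),
      (∀ x ∈ Dm, x ∉ E → N x = c s x) ∧ A * rk K E d ≤ B)
    (hcount : Fintype.card S * B < A * Module.finrank K W)
    {U : Type*} {rel : U → U → Prop} (hwf : WellFounded rel) (Q : U → (Fin n → Bool) → K)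
    (hQ : ∀ u, Q u ∈ tmSpan K c T)
    (hrule : ∀ u, (∃ i, ∀ x ∈ Dm, x ∉ F i → Q u x = 0) ∨
      ∃ s : Finset U, s.card ≤ b ∧ (∀ j ∈ s, rel j u) ∧
        ∀ x ∈ Dm, (∀ j ∈ s, Q j x = 0) → Q u x = 0)
    (hlast : ∃ u, ∀ x ∈ Dm, Q u x ≠ 0)
    (hD1 : (Fintype.card K - 1) * (T * τ) + k ≤ D)
    (hD2 : (b + 1) * ((Fintype.card K - 1) * (T * τ)) ≤ D) : False := by
  classical
  choose N hN1 E hN2 hN3 using happ
  have hsum : ∑ s : S, rk K (E s) d < Module.finrank K W := by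
    refine Nat.lt_of_mul_lt_mul_left (a := A) (lt_of_le_of_lt ?_ hcount)
    rw [mul_sum]
    calc ∑ s : S, A * rk K (E s) d ≤ ∑ _s : S, B := sum_le_sum fun s _ => hN3 s
      _ = _ := by rw [sum_const, smul_eq_mul, card_univ]
  obtain ⟨f, hfW, hf0, hfE⟩ := exists_zero K (univ : Finset S) E W hW hsum
  have hfM := hWM hfW
  have happ : ∀ s, ∀ x ∈ {x | x ∈ Dm ∧ f x ≠ 0}, N s x = c s x := by
    intro s x hx
    exact hN2 s x hx.1 fun hxE => hx.2 (hfE s (mem_univ s) x hxE)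
  have hq1 : Fintype.card K - 1 ≠ 0 := by
    have := Fintype.one_lt_card (α := K)
    omega
  have hlin := fun u => tmSpan_approx K hN1 happ (hQ u)
  choose Q' hQ1 hQ2 using hlin
  have hgA : ∀ u, ∀ x ∈ Dm, f x ≠ 0 → (x ∈ {x | Q u x = 0} →
      (Q' u ^ (Fintype.card K - 1)) x = 0) ∧ (x ∉ {x | Q u x = 0} →
      (Q' u ^ (Fintype.card K - 1)) x = 1) := by
    intro u x hxD hfx
    rw [Pi.pow_apply, hQ2 u x ⟨hxD, hfx⟩]
    refine ⟨fun h => ?_, fun h => ?_⟩
    · have h' : Q u x = 0 := h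
      rw [h', zero_pow hq1]
    · exact FiniteField.pow_card_sub_one_eq_one _ h
  have hall := lines_mem K hM h0 hmul hfM F ax hax haxk haxF hwf (fun u => {x | Q u x = 0})
    (fun u => Q' u ^ (Fintype.card K - 1)) (fun u => Poly_pow K (hQ1 u) _) hgA hrule hD1 hD2
  obtain ⟨u, hu⟩ := hlast
  apply hf0
  refine hWJ f hfW (multiplier_mem K hM h0 hfM (A := {x | Q u x = 0}) (Poly_pow K (hQ1 u) _)
    (fun x hx hfx => (hgA u x hx hfx).2) hu (hall u) ?_)
  rw [add_mul, one_mul] at hD2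
  omega

/-- The same for a space `J` that is closed under products of small degree. -/
theorem no_refutation_of_ideal {Dm : Set (Fin n → Bool)}
    {J W : Submodule K ((Fin n → Bool) → K)} {D d k b T τ A B : ℕ} (hdD : d ≤ D)
    (h0 : ∀ p ∈ Poly K n D, (∀ x ∈ Dm, p x = 0) → p ∈ J)
    (hmul : ∀ (e e' : ℕ) (p g : (Fin n → Bool) → K), e + e' ≤ D → p ∈ J → p ∈ Poly K n e →
      g ∈ Poly K n e' → p * g ∈ J)
    (hW : W ≤ Poly K n d) (hWJ : ∀ f ∈ W, f ∈ J → f = 0)
    {ι : Type*} (F : ι → Set (Fin n → Bool)) (ax : ι → (Fin n → Bool) → K)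
    (hax : ∀ i, ax i ∈ J) (haxk : ∀ i, ax i ∈ Poly K n k)
    (haxF : ∀ i, ∀ x ∈ Dm, x ∈ F i → ax i x = 1)
    {S : Type} [Fintype S] (c : S → (Fin n → Bool) → K)
    (happ : ∀ s, ∃ N ∈ Poly K n τ, ∃ E : Set (Fin n → Bool),
      (∀ x ∈ Dm, x ∉ E → N x = c s x) ∧ A * rk K E d ≤ B)
    (hcount : Fintype.card S * B < A * Module.finrank K W)
    {U : Type*} {rel : U → U → Prop} (hwf : WellFounded rel) (Q : U → (Fin n → Bool) → K)
    (hQ : ∀ u, Q u ∈ tmSpan K c T)
    (hrule : ∀ u, (∃ i, ∀ x ∈ Dm, x ∉ F i → Q u x = 0) ∨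
      ∃ s : Finset U, s.card ≤ b ∧ (∀ j ∈ s, rel j u) ∧
        ∀ x ∈ Dm, (∀ j ∈ s, Q j x = 0) → Q u x = 0)
    (hlast : ∃ u, ∀ x ∈ Dm, Q u x ≠ 0)
    (hD1 : d + (Fintype.card K - 1) * (T * τ) + k ≤ D)
    (hD2 : d + (b + 1) * ((Fintype.card K - 1) * (T * τ)) ≤ D) : False := by
  refine no_refutation_of_approx K (Dm := Dm) (M := fun a => Poly K n (d + a)) (J := J) (W := W)
    (D := D - d) (d := d) (k := k) (b := b) (T := T) (τ := τ) (A := A) (B := B)
    (fun a e h p hh hp => ?_) ?_ (fun a e h p hae hhJ hh hp => ?_) hW hW hWJ F ax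
    (fun i a h hak hh => ?_) haxk haxF c happ hcount hwf Q hQ hrule hlast (by omega) (by omega)
  · have h1 := Poly_mul K hh hp
    rwa [Nat.add_assoc] at h1
  · intro h hh
    have h1 : d + (D - d) = D := by omega
    rw [h1] at hh
    exact h0 h hh
  · exact hmul (d + a) e h p (by omega) hhJ hh hp
  · rw [mul_comm]
    exact hmul k (d + a) _ _ (by omega) (hax i) (haxk i) hh

/-! ### Terms that are indicator functions of common zeros -/

/-- The term of a set of functions: the indicator function of their common zeros. -/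
noncomputable def tm (G : Set ((Fin n → Bool) → K)) (x : Fin n → Bool) : K :=
  open Classical in if ∀ g ∈ G, g x = 0 then 1 else 0

/-- A refutation by polynomial equations `Q = 0` of degree `T` in few terms: the space `W` of
multipliers of degree at most `e + 2 * t` is small. -/
theorem refutation_bound {M : ℕ → Submodule K ((Fin n → Bool) → K)}
    {J W : Submodule K ((Fin n → Bool) → K)} {D e t k b T κ : ℕ}
    (hM : ∀ (a e : ℕ) (h p : (Fin n → Bool) → K), h ∈ M a → p ∈ Poly K n e → h * p ∈ M (a + e))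
    (hmul : ∀ (a e : ℕ) (h p : (Fin n → Bool) → K), a + e ≤ D → h ∈ J → h ∈ M a →
      p ∈ Poly K n e → h * p ∈ J)
    (hW : W ≤ Poly K n (e + 2 * t)) (hWM : W ≤ M 0) (hWJ : ∀ f ∈ W, f ∈ J → f = 0)
    {ι : Type*} (F : ι → Set (Fin n → Bool)) (ax : ι → (Fin n → Bool) → K)
    (hax : ∀ (i : ι) (a : ℕ) (h : (Fin n → Bool) → K), a + k ≤ D → h ∈ M a → h * ax i ∈ J)
    (haxk : ∀ i, ax i ∈ Poly K n k) (haxF : ∀ i, ∀ x ∈ F i, ax i x = 1)
    {S : Type} [Fintype S] (G : S → Set ((Fin n → Bool) → K))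
    (hG : ∀ s, ∀ g ∈ G s, g ∈ Poly K n t)
    (hcount : Fintype.card S * (((e + 1) ^ t + 2 * n ^ t) ^ κ *
        ∑ i ∈ range (e + 2 * t + 1), n.choose i) <
      (2 * ((e + 1) ^ t + n ^ t)) ^ κ * Module.finrank K W)
    {U : Type*} {rel : U → U → Prop} (hwf : WellFounded rel) (Q : U → (Fin n → Bool) → K)
    (hQ : ∀ u, Q u ∈ tmSpan K (fun s => tm K (G s)) T)
    (hrule : ∀ u, (∃ i, ∀ x, x ∉ F i → Q u x = 0) ∨
      ∃ s : Finset U, s.card ≤ b ∧ (∀ j ∈ s, rel j u) ∧ ∀ x, (∀ j ∈ s, Q j x = 0) → Q u x = 0)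
    (hlast : ∃ u, ∀ x, Q u x ≠ 0)
    (hD1 : (Fintype.card K - 1) * (T * (κ * ((Fintype.card K - 1) * t))) + k ≤ D)
    (hD2 : (b + 1) * ((Fintype.card K - 1) * (T * (κ * ((Fintype.card K - 1) * t)))) ≤ D) :
    False := by
  refine no_refutation_of_approx K (Dm := Set.univ) hM ?_ hmul hW hWM hWJ F ax hax haxk
    (fun i x _ => haxF i x) (fun s => tm K (G s)) (A := (2 * ((e + 1) ^ t + n ^ t)) ^ κ)
    ?_ hcount hwf Q hQ ?_ ?_ hD1 hD2
  · intro h _ hx
    have h1 : h = 0 := funext fun x => hx x trivial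
    rw [h1]
    exact Submodule.zero_mem _
  · intro s
    obtain ⟨N, hN1, hN2, hN3, hN4⟩ := exists_approx K (t := t) e (hG s) κ
    refine ⟨N, hN1, {x | (∃ g ∈ G s, g x ≠ 0) ∧ N x ≠ 0}, fun x _ hx => ?_, hN4⟩
    unfold tm
    by_cases h : ∀ g ∈ G s, g x = 0
    · rw [if_pos h]
      exact hN3 x h
    · rw [if_neg h]
      by_contra hne
      push Not at h
      exact hx ⟨h, hne⟩
  · intro u
    rcases hrule u with ⟨i, hi⟩ | ⟨s, h1, h2, h3⟩
    · exact Or.inl ⟨i, fun x _ => hi x⟩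
    · exact Or.inr ⟨s, h1, h2, fun x _ => h3 x⟩
  · obtain ⟨u, hu⟩ := hlast
    exact ⟨u, fun x _ => hu x⟩

end Pool.Agent.MP_9cec2c_lc.ResPoly
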