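import Pool.Agent.Lib.MP_9cec2c_lc.PHIdeal
import Pool.Agent.Lib.MP_9cec2c_lc.PHCount
import Pool.Agent.Lib.MP_9cec2c_lc.RSInd
import Pool.Agent.Lib.MP_9cec2c_lc.RSPar

/-!
The lower bound for holes that choose their places by bits.
-/

set_option autoImplicit false

namespace Pool.Agent.MP_9cec2c_lc.ResPoly

open Finset

theorem exists_width (A B : ℕ) : ∃ l : ℕ, 1 ≤ l ∧ A + B * l ≤ 2 ^ l := by
  refine ⟨2 * (A + 2 * B + 1), by omega, ?_⟩
  have h1 : A + 2 * B + 1 < 2 ^ (A + 2 * B + 1) := Nat.lt_two_pow_self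
  have h2 : 2 ^ (2 * (A + 2 * B + 1)) = 2 ^ (A + 2 * B + 1) * 2 ^ (A + 2 * B + 1) := by
    rw [two_mul, pow_add]
  rw [h2]
  have h3 : A + 2 * B + 2 ≤ 2 ^ (A + 2 * B + 1) := h1
  have h4 : A + B * (2 * (A + 2 * B + 1)) ≤ (A + 2 * B + 2) * (A + 2 * B + 2) := by
    have : (A + 2 * B + 2) * (A + 2 * B + 2) =
        A + B * (2 * (A + 2 * B + 1)) + (A * (A + 2 * B) + 3 * A + 6 * B + 4) := by ring
    rw [this]
    exact Nat.le_add_right _ _
  exact h4.trans (Nat.mul_le_mul h3 h3)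

variable (K : Type) [Field K]

theorem finrank_mons {n : ℕ} (A : Finset (Finset (Fin n))) :
    Module.finrank K (Submodule.span K ((mon K) '' (A : Set (Finset (Fin n))))) = A.card := by
  classical
  have h1 : LinearIndependent K (fun M : A => mon K (M : Finset (Fin n))) :=
    (mon_linInd K).comp _ Subtype.val_injective
  have h2 := finrank_span_eq_card h1
  rw [Fintype.card_coe] at h2
  rw [← h2]
  have h3 : (mon K) '' (A : Set (Finset (Fin n))) =
      Set.range (fun M : A => mon K (M : Finset (Fin n))) := by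
    ext f
    constructor
    · rintro ⟨M, hM, rfl⟩
      exact ⟨⟨M, hM⟩, rfl⟩
    · rintro ⟨M, rfl⟩
      exact ⟨M, M.2, rfl⟩
  rw [h3]

/-- The lower bound for holes that choose their places by bits. -/
theorem php_core [Fintype K] (t T b c : ℕ) (ht : 1 ≤ t) (hc : 1 ≤ c) :
    ∃ l C : ℕ, 1 ≤ C ∧ ∀ n m : ℕ, C ≤ n → n ≤ m → m ≤ c * n →
      ∃ owner : Fin n → (Fin l → Bool) → Fin m,
        ∀ {S : Type} [Fintype S] (G : S → Set ((Fin (n * l) → Bool) → K)),
          (∀ s, ∀ g ∈ G s, g ∈ Poly K (n * l) (t * l)) →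
          ∀ {U : Type} {rel : U → U → Prop}, WellFounded rel →
          ∀ Q : U → (Fin (n * l) → Bool) → K,
          (∀ u, Q u ∈ tmSpan K (fun s => tm K (G s)) T) →
          (∀ u, (∃ i, ∀ z, (∃ h, owner h (code z h) = i) → Q u z = 0) ∨
            ∃ s : Finset U, s.card ≤ b ∧ (∀ j ∈ s, rel j u) ∧
              ∀ z, (∀ j ∈ s, Q j z = 0) → Q u z = 0) →
          (∃ u, ∀ z, Q u z ≠ 0) → 2 ^ (n / C) ≤ Fintype.card S := by
  classical
  obtain ⟨l, hl1, hl⟩ := exists_width (4 * c) (4 * c * t)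
  obtain ⟨q, hq⟩ : ∃ q, q = t * l + 1 := ⟨_, rfl⟩
  have htl : 1 ≤ t * l := Nat.mul_pos ht hl1
  have hq2 : 2 ≤ q := by omega
  obtain ⟨R, hR⟩ : ∃ R, R = 81 * q * (972 * c * q) := ⟨_, rfl⟩
  have hR1 : 1 ≤ R := by
    rw [hR]
    exact Nat.mul_pos (Nat.mul_pos (by norm_num) (by omega))
      (Nat.mul_pos (Nat.mul_pos (by norm_num) (by omega)) (by omega))
  obtain ⟨A, hA⟩ : ∃ A, A = 8 * R * l := ⟨_, rfl⟩
  have hA1 : 1 ≤ A := by
    rw [hA]; exact Nat.mul_pos (Nat.mul_pos (by norm_num) (by omega)) (by omega)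
  obtain ⟨C, hC1, hC⟩ := exists_params' (Fintype.card K) (t * l) (2 * q - 2) ((4 * q + 1) * l) c A
    ((b + 1) * ((Fintype.card K - 1) * T)) ((4 * q + 1) * l) htl (by omega) hA1
  refine ⟨l, C + R, by omega, ?_⟩
  intro n m hn hnm hm
  have hnN : n ≤ n * l := Nat.le_mul_of_pos_right n hl1
  obtain ⟨r, hr⟩ : ∃ r, r = n / R := ⟨_, rfl⟩
  have hr1 : 1 ≤ r := by
    rw [hr, Nat.le_div_iff_mul_le hR1]; omega
  have hrR : r * R ≤ n := by rw [hr]; exact Nat.div_mul_le_self n R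
  have hnR : n ≤ 2 * R * r := by
    have h1 : n < R * (r + 1) := by rw [hr]; exact Nat.lt_mul_div_succ n hR1
    have h2 : R * (r + 1) ≤ R * (2 * r) := Nat.mul_le_mul_left _ (by omega)
    have h3 : R * (2 * r) = 2 * R * r := by ring
    omega
  have hplaces : m * (4 * q) ≤ n * Fintype.card (Fin l → Bool) := by
    have h1 : Fintype.card (Fin l → Bool) = 2 ^ l := by simp
    rw [h1]
    have h2 : 4 * c * q ≤ 2 ^ l := by
      have : 4 * c * q = 4 * c + 4 * c * t * l := by rw [hq]; ring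
      omega
    calc m * (4 * q) ≤ (c * n) * (4 * q) := Nat.mul_le_mul_right _ hm
      _ = n * (4 * c * q) := by ring
      _ ≤ n * 2 ^ l := Nat.mul_le_mul_left _ h2
  obtain ⟨owner, hown, hexp⟩ := exists_owner (r := r) hq2 hc hnm hplaces hm (by rw [← hR]; exact hrR)
  refine ⟨owner, ?_⟩
  intro S _ G hG U rel hwf Q hQ hrule hlast
  by_contra hcon
  rw [not_le] at hcon
  obtain ⟨e, κ, b', d, hd, hdb, hb1, hθe, hdeg, hcnt, hnum⟩ := hC (n * l) m (by omega)
    (hm.trans (Nat.mul_le_mul_left _ hnN))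
  obtain ⟨D, hD⟩ : ∃ D, D = (2 * q - 2) * r / 4 := ⟨_, rfl⟩
  have hND : n * l / A ≤ D := by
    have h1 : n * l ≤ (2 * R * r) * l := Nat.mul_le_mul_right _ hnR
    have h2 : n * l / A ≤ r / 4 := by
      rw [Nat.le_div_iff_mul_le (by norm_num)]
      have h3 : n * l / A * A ≤ n * l := Nat.div_mul_le_self _ _
      have h4 : (n * l / A * 4) * (2 * R * l) ≤ r * (2 * R * l) := by
        calc (n * l / A * 4) * (2 * R * l) = n * l / A * A := by rw [hA]; ring
          _ ≤ n * l := h3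
          _ ≤ (2 * R * r) * l := h1
          _ = r * (2 * R * l) := by ring
      exact Nat.le_of_mul_le_mul_right h4
        (Nat.mul_pos (Nat.mul_pos (by norm_num) (by omega)) (by omega))
    refine h2.trans ?_
    rw [hD]
    refine Nat.div_le_div_right ?_
    exact Nat.le_mul_of_pos_left _ (by omega)
  have hZD : ∀ i, (hol owner i).card ≤ D := by
    intro i
    have h1 : 4 * q + 1 ≤ (4 * q + 1) * l := Nat.le_mul_of_pos_right _ hl1
    have h2 := hown i
    omega
  obtain ⟨J, hJ1, hJ2, hJ3⟩ := exists_php_ideal K (θ := 2 * q - 2) (r := r) (D := D) owner hexp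
    (by rw [hD]; exact Nat.mul_div_le _ _) hr1 hZD
  -- the good monomials
  have hbits : ∀ i, (bits owner i).card ≤ (4 * q + 1) * l := by
    intro i
    have := card_bits_of (l := l) (hol owner i)
    unfold bits
    rw [this]
    exact Nat.mul_le_mul_right _ (hown i)
  have hgood := Gd.count_theta (bits owner) hbits (t := 2 * q - 2) (d := d) (b := b') (by omega)
    (by rw [Fintype.card_fin]; exact hdb) (by
      rw [Fintype.card_fin, Fintype.card_fin]
      rw [← mul_assoc]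
      exact hcnt)
  rw [Fintype.card_fin] at hgood
  obtain ⟨𝓐, h𝓐⟩ : ∃ 𝓐 : Finset (Finset (Fin (n * l))), 𝓐 = (powersetCard d univ).filter
    (fun T => ∀ i, (T ∩ bits owner i).card ≤ 2 * q - 2) := ⟨_, rfl⟩
  have hgood : (n * l).choose d ≤ 2 * (d + b').choose d * 𝓐.card := by
    rw [h𝓐]
    convert hgood
  obtain ⟨W, hW⟩ : ∃ W, W = Submodule.span K ((mon K) '' (𝓐 : Set (Finset (Fin (n * l))))) :=
    ⟨_, rfl⟩
  have hWr : Module.finrank K W = 𝓐.card := by rw [hW]; exact finrank_mons K 𝓐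
  have hWP : W ≤ Poly K (n * l) d := by
    rw [hW]
    refine Submodule.span_mono ?_
    rintro f ⟨M, hM, rfl⟩
    rw [h𝓐] at hM
    have := (mem_powersetCard.1 (mem_filter.1 (mem_coe.1 hM)).1).2
    exact ⟨M, this.le, rfl⟩
  have hWJ : ∀ f ∈ W, f ∈ J → f = 0 := by
    intro f hf hfJ
    refine hJ3 f ?_ hfJ
    rw [hW] at hf
    refine Submodule.span_mono ?_ hf
    rintro g ⟨M, hM, rfl⟩
    rw [h𝓐] at hM
    exact ⟨M, (mem_filter.1 (mem_coe.1 hM)).2, rfl⟩
  -- the count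
  have hNC : n / (C + R) ≤ n * l / C :=
    (Nat.div_le_div_left (Nat.le_add_right _ _) (by omega)).trans (Nat.div_le_div_right hnN)
  have hS : Fintype.card S < 2 ^ (n * l / C) :=
    lt_of_lt_of_le hcon (Nat.pow_le_pow_right (by norm_num) hNC)
  have h1 := hnum _ hS
  have hcount : Fintype.card S * (((e + 1) ^ (t * l) + 2 * (n * l) ^ (t * l)) ^ κ *
        ∑ i ∈ range (d + 1), (n * l).choose i) <
      (2 * ((e + 1) ^ (t * l) + (n * l) ^ (t * l))) ^ κ * Module.finrank K W := by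
    rw [hWr]
    have h2 : (2 * ((e + 1) ^ (t * l) + (n * l) ^ (t * l))) ^ κ * (n * l).choose d ≤
        (2 * ((e + 1) ^ (t * l) + (n * l) ^ (t * l))) ^ κ *
          (2 * (d + b').choose d * 𝓐.card) := Nat.mul_le_mul_left _ hgood
    have h3 := lt_of_lt_of_le h1 h2
    have h4 : (2 * ((e + 1) ^ (t * l) + (n * l) ^ (t * l))) ^ κ *
          (2 * (d + b').choose d * 𝓐.card) = 2 * (d + b').choose d *
          ((2 * ((e + 1) ^ (t * l) + (n * l) ^ (t * l))) ^ κ * 𝓐.card) := by ring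
    rw [h4] at h3
    exact Nat.lt_of_mul_lt_mul_left h3
  -- degrees
  have hDd : d + ((b + 1) * ((Fintype.card K - 1) * T)) * (κ * ((Fintype.card K - 1) * (t * l))) +
      (4 * q + 1) * l ≤ D := hdeg.trans hND
  have hprod : (b + 1) * ((Fintype.card K - 1) * (T * (κ * ((Fintype.card K - 1) * (t * l))))) =
      ((b + 1) * ((Fintype.card K - 1) * T)) * (κ * ((Fintype.card K - 1) * (t * l))) := by ring
  have hprod1 : (Fintype.card K - 1) * (T * (κ * ((Fintype.card K - 1) * (t * l)))) ≤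
      (b + 1) * ((Fintype.card K - 1) * (T * (κ * ((Fintype.card K - 1) * (t * l))))) :=
    Nat.le_mul_of_pos_left _ (Nat.succ_pos b)
  refine no_refutation_of_ideal K (Dm := Set.univ) (J := J) (W := W) (D := D) (d := d)
    (k := (4 * q + 1) * l) (b := b) (T := T) (τ := κ * ((Fintype.card K - 1) * (t * l)))
    (A := (2 * ((e + 1) ^ (t * l) + (n * l) ^ (t * l))) ^ κ)
    (B := ((e + 1) ^ (t * l) + 2 * (n * l) ^ (t * l)) ^ κ *
        ∑ i ∈ range (d + 1), (n * l).choose i) (by omega) ?_ hJ2 hWP hWJ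
    (fun i => {z | ∀ h, owner h (code z h) ≠ i}) (fun i => empt K owner i) hJ1 ?_ ?_
    (fun s => tm K (G s)) ?_ hcount hwf Q hQ ?_ ?_ (by omega) (by omega)
  · intro p _ hp
    have h1 : p = 0 := funext fun x => hp x trivial
    rw [h1]
    exact Submodule.zero_mem _
  · intro i
    refine Poly_mono K ?_ (empt_mem_Poly K owner i)
    exact Nat.mul_le_mul_right _ (hown i)
  · intro i x _ hx
    unfold empt
    rw [if_pos]
    exact hx
  · intro s
    obtain ⟨N, hN1, hN2, hN3, hN4⟩ := exists_approx K (t := t * l) e (hG s) κ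
    refine ⟨N, hN1, {x | (∃ g ∈ G s, g x ≠ 0) ∧ N x ≠ 0}, fun x _ hx => ?_, ?_⟩
    · unfold tm
      by_cases h : ∀ g ∈ G s, g x = 0
      · rw [if_pos h]
        exact hN3 x h
      · rw [if_neg h]
        by_contra hne
        push Not at h
        exact hx ⟨h, hne⟩
    · rw [hd]
      exact hN4
  · intro u
    rcases hrule u with ⟨i, hi⟩ | ⟨s, h1, h2, h3⟩
    · refine Or.inl ⟨i, fun x _ hx => hi x ?_⟩
      by_contra hne
      push Not at hne
      exact hx hne
    · exact Or.inr ⟨s, h1, h2, fun x _ => h3 x⟩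
  · obtain ⟨u, hu⟩ := hlast
    exact ⟨u, fun x _ => hu x⟩

end Pool.Agent.MP_9cec2c_lc.ResPoly
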