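import Pool.Agent.Lib.MP_9cec2c_lc.PHDefs
import Pool.Agent.Lib.MP_9cec2c_lc.PHMain

/-!
The pigeonhole principle needs exponentially many terms.
-/

set_option autoImplicit false

namespace Pool.Agent.MP_9cec2c_lc.PigeonProof

open Finset
open Pool.Agent.MP_9cec2c_lc.ResPoly

variable {k : Type} [Field k] {n l m : ℕ}

/-- The hole `h` contains the owner of the place that it chooses. -/
def place (owner : Fin n → (Fin l → Bool) → Fin m) (z : Fin (n * l) → Bool) :
    Fin m × Fin n → Bool := fun p => decide (owner p.2 (code z p.2) = p.1)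

theorem block_mem_Poly (owner : Fin n → (Fin l → Bool) → Fin m) (p : Fin m × Fin n) :
    (fun z => if place owner z p = true then (1 : k) else 0) ∈ Poly k (n * l) l := by
  classical
  let S : BlockSys (n * l) (Fin n) (Fin m) :=
    { β := blk
      Dm := Set.univ
      Z := fun _ => ∅
      F := fun _ => ∅
      pat := fun _ _ _ => false
      dm_zero := fun _ _ _ => trivial
      loc := fun _ _ _ _ hx => hx
      dm_pat := fun _ _ h => by simp at h
      sat_pat := fun _ _ h => by simp at h }
  have h1 := mem_span_of_depends k S {p.2}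
    (f := fun z => if place owner z p = true then (1 : k) else 0) (by
    intro x y hxy
    have h2 : code x p.2 = code y p.2 := by
      funext j
      refine hxy _ ?_
      show blk _ ∈ _
      rw [blk_equiv, mem_singleton]
    have h3 : place owner x p = place owner y p := by
      unfold place
      rw [h2]
    simp only [h3])
  refine Submodule.span_mono ?_ h1
  rintro f ⟨M, hM, rfl⟩
  refine ⟨M, ?_, rfl⟩
  have h2 := card_bits_of (l := l) ({p.2} : Finset (Fin n))
  rw [card_singleton, one_mul] at h2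
  refine le_of_le_of_eq (card_le_card fun v hv => mem_filter.2 ⟨mem_univ _, ?_⟩) h2
  exact hM (mem_image_of_mem _ hv)

theorem mem_Poly_of_Degree (owner : Fin n → (Fin l → Bool) → Fin m) {t : ℕ}
    {g : (Fin m × Fin n → Bool) → k} (hg : g ∈ Degree k (Fin m × Fin n) t) :
    (fun z => g (place owner z)) ∈ Poly k (n * l) (t * l) := by
  classical
  refine Submodule.span_induction (p := fun g _ => (fun z => g (place owner z)) ∈
    Poly k (n * l) (t * l)) ?_ ?_ ?_ ?_ hg
  · rintro g ⟨M, hM, rfl⟩
    have h1 : ∏ v ∈ M, (fun z => if place owner z v = true then (1 : k) else 0) ∈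
        Poly k (n * l) (t * l) :=
      Poly_mono k (Nat.mul_le_mul_right l hM)
        (prod_mem_Poly k M fun v _ => block_mem_Poly owner v)
    convert h1 using 1
    funext z
    rw [Finset.prod_apply]
    beta_reduce
    by_cases h : ∀ v ∈ M, place owner z v = true
    · rw [if_pos h, prod_eq_one]
      intro v hv
      rw [if_pos (h v hv)]
    · rw [if_neg h]
      push Not at h
      obtain ⟨v, hv, hne⟩ := h
      rw [prod_eq_zero hv]
      rw [if_neg hne]
  · exact Submodule.zero_mem _
  · intro f g _ _ hf hg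
    exact Submodule.add_mem _ hf hg
  · intro c f _ hf
    exact Submodule.smul_mem _ c hf

theorem Degree_mono {V : Type} {t t' : ℕ} (h : t ≤ t') : Degree k V t ≤ Degree k V t' :=
  Submodule.span_mono fun _ ⟨M, hM, hf⟩ => ⟨M, hM.trans h, hf⟩

/-- More pigeons than holes. -/
theorem php_unsat (h : n < m) (x : Fin m × Fin n → Bool) : ∃ C ∈ PHP m n, ¬ Holds x C := by
  classical
  by_contra hcon
  push Not at hcon
  have h1 : ∀ i : Fin m, ∃ h : Fin n, x (i, h) = true := by
    intro i
    obtain ⟨p, hp, hx⟩ := hcon _ (Or.inl (Or.inl ⟨i, rfl⟩))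
    obtain ⟨h, _, rfl⟩ := mem_image.1 hp
    exact ⟨h, hx⟩
  choose f hf using h1
  obtain ⟨i, j, hij, hfij⟩ := Fintype.exists_ne_map_eq_of_card_lt f (by simpa using h)
  obtain ⟨p, hp, hx⟩ := hcon {((i, f i), false), ((j, f i), false)}
    (Or.inl (Or.inr ⟨i, j, f i, hij, rfl⟩))
  rw [mem_insert, mem_singleton] at hp
  rcases hp with rfl | rfl
  · have := hf i
    rw [this] at hx
    exact Bool.noConfusion hx
  · have := hf j
    rw [hfij] at hx
    rw [this] at hx
    exact Bool.noConfusion hx

/-- The pigeonhole principle needs exponentially many terms. -/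
theorem php_main (k : Type) [Field k] [Fintype k] (t b c : ℕ) :
    ∃ K : ℕ, 0 < K ∧ ∀ n m : ℕ, K ≤ n → n < m → m ≤ c * n →
      Needs k t b (2 ^ (n / K)) (PHP m n) := by
  classical
  obtain ⟨l, C, hC, hmain⟩ := php_core k (t + 1) 1 b (c + 1) (by omega) (by omega)
  refine ⟨C, by omega, ?_⟩
  intro n m hn hnm hm
  refine ⟨php_unsat hnm, ?_⟩
  intro N L href
  obtain ⟨owner, howner⟩ := hmain n m hn hnm.le (hm.trans (Nat.mul_le_mul_right _ (by omega)))
  -- the terms
  obtain ⟨U, hU⟩ : ∃ U : Finset (Term k (Fin m × Fin n)),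
      U = univ.biUnion fun i => (L i).support := ⟨_, rfl⟩
  have hUcard : U.card = {T | ∃ i, L i T ≠ 0}.ncard := by
    rw [← Set.ncard_coe_finset]
    congr 1
    ext T
    rw [hU]
    constructor
    · intro h
      obtain ⟨i, -, hi⟩ := mem_biUnion.1 (mem_coe.1 h)
      exact ⟨i, Finsupp.mem_support_iff.1 hi⟩
    · rintro ⟨i, hi⟩
      exact mem_coe.2 (mem_biUnion.2 ⟨i, mem_univ _, Finsupp.mem_support_iff.2 hi⟩)
  rw [← hUcard, ← Fintype.card_coe]
  have hmem : ∀ i, ∀ T ∈ (L i).support, T ∈ U := by
    intro i T hT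
    rw [hU]
    exact mem_biUnion.2 ⟨i, mem_univ _, hT⟩
  have hex : ∀ T ∈ U, ∃ i, T ∈ (L i).support := by
    intro T hT
    rw [hU] at hT
    obtain ⟨i, _, hi⟩ := mem_biUnion.1 hT
    exact ⟨i, hi⟩
  refine howner (S := {T // T ∈ U}) (fun T => {g | ∃ g' ∈ T.1, g = fun z => g' (place owner z)})
    ?_ (U := Fin N) (rel := fun a b => a < b) wellFounded_lt
    (fun i z => value (L i) (place owner z)) ?_ ?_ ?_
  · rintro ⟨T, hT⟩ g ⟨g', hg', rfl⟩
    obtain ⟨i, hi⟩ := hex T hT
    exact mem_Poly_of_Degree owner (Degree_mono (Nat.le_succ t) (href.1 i T hi g' hg'))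
  · intro i
    have h1 : (fun z => value (L i) (place owner z)) = ∑ T ∈ (L i).support, L i T •
        tm k {g | ∃ g' ∈ T, g = fun z => g' (place owner z)} := by
      funext z
      rw [Finset.sum_apply]
      unfold value Finsupp.sum
      refine sum_congr rfl fun T _ => ?_
      rw [Pi.smul_apply, smul_eq_mul]
      congr 1
      unfold termValue tm
      have h2 : (∀ g ∈ T, g (place owner z) = 0) ↔
          ∀ g ∈ {g | ∃ g' ∈ T, g = fun z => g' (place owner z)}, g z = 0 := by
        constructor
        · rintro h g ⟨g', hg', rfl⟩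
          exact h g' hg'
        · intro h g' hg'
          exact h _ ⟨g', hg', rfl⟩
      beta_reduce
      by_cases h : ∀ g ∈ T, g (place owner z) = 0
      · rw [if_pos h, if_pos (h2.1 h)]
      · rw [if_neg h, if_neg fun h' => h (h2.2 h')]
    rw [h1]
    refine Submodule.sum_mem _ fun T hT => Submodule.smul_mem _ _ (Submodule.subset_span ?_)
    refine ⟨{⟨T, hmem i T hT⟩}, by simp, ?_⟩
    rw [prod_singleton]
  · intro i
    rcases href.2.2 i with ⟨C, hC, hi⟩ | ⟨P, h1, h2, h3⟩
    · rcases hC with (⟨p, rfl⟩ | ⟨p, p', h, hne, rfl⟩) | ⟨h, rfl⟩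
      · refine Or.inl ⟨p, fun z hz => hi _ ?_⟩
        obtain ⟨h, hh⟩ := hz
        exact ⟨((p, h), true), mem_image_of_mem _ (mem_univ _), decide_eq_true hh⟩
      · refine Or.inr ⟨∅, Nat.zero_le _, fun j hj => absurd hj (notMem_empty _), fun z _ => hi _ ?_⟩
        by_cases hp : owner h (code z h) = p
        · refine ⟨((p', h), false), by simp, decide_eq_false ?_⟩
          show ¬ owner h (code z h) = p'
          rw [hp]
          exact hne
        · exact ⟨((p, h), false), by simp, decide_eq_false hp⟩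
      · refine Or.inr ⟨∅, Nat.zero_le _, fun j hj => absurd hj (notMem_empty _), fun z _ => hi _ ?_⟩
        exact ⟨((owner h (code z h), h), true), mem_image_of_mem _ (mem_univ _),
          decide_eq_true rfl⟩
    · exact Or.inr ⟨P, h1, h2, fun z hz => h3 _ hz⟩
  · obtain ⟨i, hi⟩ := href.2.1
    exact ⟨i, fun z => hi _⟩

end Pool.Agent.MP_9cec2c_lc.PigeonProof
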