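import Pool.Agent.Lib.MP_9cec2c_lc.PHSeat

/-!
Each place of each hole gets an owner; small sets of pigeons have many private holes.
-/

set_option autoImplicit false

namespace Pool.Agent.MP_9cec2c_lc.ResPoly

open Finset

/-- The holes in which the pigeon `i` owns a place. -/
def hol {n m : ℕ} {L : Type} [Fintype L] (owner : Fin n → L → Fin m) (i : Fin m) :
    Finset (Fin n) := univ.filter fun h => ∃ c, owner h c = i

theorem mem_hol {n m : ℕ} {L : Type} [Fintype L] {owner : Fin n → L → Fin m} {i : Fin m}
    {h : Fin n} : h ∈ hol owner i ↔ ∃ c, owner h c = i := by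
  simp [hol]

/-- All places have owners. Each pigeon has few holes, and small sets of pigeons have many private
holes. -/
theorem exists_owner {n m q r c : ℕ} {L : Type} [Fintype L] [DecidableEq L] (hq : 2 ≤ q)
    (hc : 1 ≤ c) (hnm : n ≤ m) (hl : m * (4 * q) ≤ n * Fintype.card L) (hm : m ≤ c * n)
    (hr : r * (81 * q * (972 * c * q)) ≤ n) :
    ∃ owner : Fin n → L → Fin m, (∀ i, (hol owner i).card ≤ 4 * q + 1) ∧
      ∀ I : Finset (Fin m), I.Nonempty → I.card ≤ r →
        (2 * q - 2) * I.card < (bd (hol owner) I).card := by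
  classical
  obtain ⟨own, hown, hdisj, hexp⟩ := exists_seats (r := r) hq hc hl hm hr
  -- the owner of a place
  have huniq : ∀ p i j, p ∈ own i → p ∈ own j → i = j := by
    intro p i j hi hj
    by_contra hne
    exact Finset.disjoint_left.1 (hdisj i j hne) hi hj
  let owner : Fin n → L → Fin m := fun h a =>
    if hA : ∃ i, (h, a) ∈ own i then hA.choose
    else if hB : ∃ i, h ∈ holes own i then hB.choose
    else Fin.castLE hnm h
  have hown1 : ∀ h a i, (h, a) ∈ own i → owner h a = i := by
    intro h a i hi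
    have hA : ∃ i, (h, a) ∈ own i := ⟨i, hi⟩
    have : owner h a = hA.choose := by
      simp only [owner]
      rw [dif_pos hA]
    rw [this]
    exact huniq _ _ _ hA.choose_spec hi
  have hown2 : ∀ h, (∃ i, h ∈ holes own i) → ∀ a, h ∈ holes own (owner h a) := by
    intro h hB a
    by_cases hA : ∃ i, (h, a) ∈ own i
    · have : owner h a = hA.choose := by
        simp only [owner]
        rw [dif_pos hA]
      rw [this]
      exact mem_image.2 ⟨(h, a), hA.choose_spec, rfl⟩
    · have : owner h a = hB.choose := by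
        simp only [owner]
        rw [dif_neg hA, dif_pos hB]
      rw [this]
      exact hB.choose_spec
  have hown3 : ∀ h, (¬ ∃ i, h ∈ holes own i) → ∀ a, owner h a = Fin.castLE hnm h := by
    intro h hB a
    have hA : ¬ ∃ i, (h, a) ∈ own i := by
      rintro ⟨i, hi⟩
      exact hB ⟨i, mem_image.2 ⟨(h, a), hi, rfl⟩⟩
    simp only [owner]
    rw [dif_neg hA, dif_neg hB]
  have hsub : ∀ i, holes own i ⊆ hol owner i := by
    intro i h hh
    obtain ⟨p, hp, hph⟩ := mem_image.1 hh
    obtain ⟨h', a⟩ := p
    have : h' = h := hph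
    subst this
    exact mem_hol.2 ⟨a, hown1 _ _ _ hp⟩
  have hsup : ∀ i, hol owner i ⊆ holes own i ∪ univ.filter (fun h : Fin n => Fin.castLE hnm h = i) := by
    intro i h hh
    obtain ⟨a, ha⟩ := mem_hol.1 hh
    by_cases hB : ∃ i, h ∈ holes own i
    · have := hown2 h hB a
      rw [ha] at this
      exact mem_union_left _ this
    · have := hown3 h hB a
      rw [ha] at this
      exact mem_union_right _ (mem_filter.2 ⟨mem_univ _, this.symm⟩)
  have hcard : ∀ i, (hol owner i).card ≤ 4 * q + 1 := by
    intro i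
    refine (card_le_card (hsup i)).trans ((card_union_le _ _).trans ?_)
    have h1 : (holes own i).card ≤ 4 * q := by
      have := card_image_le (s := own i) (f := Prod.fst)
      rw [hown i] at this
      exact this
    have h2 : (univ.filter (fun h : Fin n => Fin.castLE hnm h = i)).card ≤ 1 := by
      rw [card_le_one]
      intro a ha b hb
      have ha' := (mem_filter.1 ha).2
      have hb' := (mem_filter.1 hb).2
      exact Fin.castLE_injective hnm (ha'.trans hb'.symm)
    omega
  refine ⟨owner, hcard, ?_⟩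
  intro I hI hIr
  have h1 := two_un_le (Z := hol owner) (k := 4 * q + 1) hcard I
  have h2 : 3 * q * I.card ≤ (un (hol owner) I).card := by
    refine (hexp I hI hIr).trans (card_le_card ?_)
    intro h hh
    obtain ⟨p, hp, hph⟩ := mem_image.1 hh
    obtain ⟨i, hi, hpi⟩ := mem_biUnion.1 hp
    exact mem_biUnion.2 ⟨i, hi, hsub i (mem_image.2 ⟨p, hpi, hph⟩)⟩
  have h3 : 0 < I.card := hI.card_pos
  obtain ⟨q', rfl⟩ : ∃ q', q = q' + 2 := ⟨q - 2, by omega⟩
  have h4 : (2 * (q' + 2) - 2) = 2 * q' + 2 := by omega
  rw [h4]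
  have h5 : 3 * (q' + 2) * I.card = 3 * (q' * I.card) + 6 * I.card := by ring
  have h6 : (4 * (q' + 2) + 1) * I.card = 4 * (q' * I.card) + 9 * I.card := by ring
  have h7 : (2 * q' + 2) * I.card = 2 * (q' * I.card) + 2 * I.card := by ring
  rw [h5] at h2
  rw [h6] at h1
  rw [h7]
  omega

end Pool.Agent.MP_9cec2c_lc.ResPoly
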