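import Pool.Agent.Lib.MP_9cec2c_lc.RSOpB
import Pool.Agent.Lib.MP_9cec2c_lc.PHOwner

/-!
The functions that have a derivation of small degree from the clauses of the pigeons, when each
hole chooses a place by `l` bits and is filled by the owner of this place.
-/

set_option autoImplicit false

namespace Pool.Agent.MP_9cec2c_lc.ResPoly

open Finset

variable {n l m : ℕ}

/-- The place chosen at the hole `h`. -/
def code (z : Fin (n * l) → Bool) (h : Fin n) (j : Fin l) : Bool := z (finProdFinEquiv (h, j))

/-- The hole of a bit. -/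
def blk (v : Fin (n * l)) : Fin n := (finProdFinEquiv.symm v).1

theorem blk_equiv (h : Fin n) (j : Fin l) : blk (finProdFinEquiv (h, j)) = h := by
  unfold blk
  rw [Equiv.symm_apply_apply]

/-- The bits of the holes of a pigeon. -/
def bits (owner : Fin n → (Fin l → Bool) → Fin m) (i : Fin m) : Finset (Fin (n * l)) :=
  univ.filter fun v => blk v ∈ hol owner i

theorem card_bits_of (W : Finset (Fin n)) :
    (univ.filter fun v : Fin (n * l) => blk v ∈ W).card = W.card * l := by
  classical
  have h1 : (univ.filter fun v : Fin (n * l) => blk v ∈ W) =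
      (W ×ˢ (univ : Finset (Fin l))).map finProdFinEquiv.toEmbedding := by
    ext v
    rw [mem_filter, mem_map]
    constructor
    · rintro ⟨_, hv⟩
      refine ⟨finProdFinEquiv.symm v, mem_product.2 ⟨hv, mem_univ _⟩, ?_⟩
      exact Equiv.apply_symm_apply _ _
    · rintro ⟨p, hp, rfl⟩
      refine ⟨mem_univ _, ?_⟩
      have := (mem_product.1 hp).1
      unfold blk
      simpa using this
  rw [h1, card_map, card_product, card_univ, Fintype.card_fin]

variable (K : Type) [Field K]

/-- The pigeon `i` fills no hole. -/
def empt (owner : Fin n → (Fin l → Bool) → Fin m) (i : Fin m) (z : Fin (n * l) → Bool) : K :=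
  if ∀ h, owner h (code z h) ≠ i then 1 else 0

theorem empt_mem_Poly (owner : Fin n → (Fin l → Bool) → Fin m) (i : Fin m) :
    empt K owner i ∈ Poly K (n * l) ((hol owner i).card * l) := by
  classical
  let S : BlockSys (n * l) (Fin n) (Fin m) :=
    { β := blk
      Dm := Set.univ
      Z := fun _ => ∅
      F := fun _ => ∅
      pat := fun _ _ _ => false
      dm_zero := fun _ _ _ => trivial
      loc := fun _ _ _ _ hx => hx
      dm_pat := fun _ _ h => by simp at h
      sat_pat := fun _ _ h => by simp at h }
  have h1 := mem_span_of_depends K S (hol owner i) (f := empt K owner i) (by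
    intro x y hxy
    unfold empt
    have : (∀ h, owner h (code x h) ≠ i) ↔ ∀ h, owner h (code y h) ≠ i := by
      refine forall_congr' fun h => ?_
      by_cases hh : h ∈ hol owner i
      · have : code x h = code y h := by
          funext j
          refine hxy _ ?_
          show blk _ ∈ _
          rw [blk_equiv]
          exact hh
        rw [this]
      · have h2 : ∀ a, owner h a ≠ i := fun a ha => hh (mem_hol.2 ⟨a, ha⟩)
        exact ⟨fun _ => h2 _, fun _ => h2 _⟩
    simp only [this])
  refine Submodule.span_mono ?_ h1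
  rintro f ⟨M, hM, rfl⟩
  refine ⟨M, ?_, rfl⟩
  rw [← card_bits_of]
  refine card_le_card fun v hv => mem_filter.2 ⟨mem_univ _, ?_⟩
  exact hM (mem_image_of_mem _ hv)

/-- The functions that have a derivation of small degree. -/
theorem exists_php_ideal {θ r D : ℕ} (owner : Fin n → (Fin l → Bool) → Fin m)
    (hexp : ∀ I : Finset (Fin m), I.Nonempty → I.card ≤ r →
      θ * I.card < (bd (hol owner) I).card) (hD : 4 * D ≤ θ * r) (hr1 : 1 ≤ r)
    (hZ : ∀ i, (hol owner i).card ≤ D) :
    ∃ J : Submodule K ((Fin (n * l) → Bool) → K),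
      (∀ i, empt K owner i ∈ J) ∧
      (∀ (e e' : ℕ) (p g : (Fin (n * l) → Bool) → K), e + e' ≤ D → p ∈ J → p ∈ Poly K (n * l) e →
        g ∈ Poly K (n * l) e' → p * g ∈ J) ∧
      ∀ f ∈ Submodule.span K {f : (Fin (n * l) → Bool) → K | ∃ M : Finset (Fin (n * l)),
        (∀ i, (M ∩ bits owner i).card ≤ θ) ∧ f = mon K M}, f ∈ J → f = 0 := by
  classical
  have hch : ∀ i h, ∃ a : Fin l → Bool, h ∈ hol owner i → owner h a = i := by
    intro i h
    by_cases hh : h ∈ hol owner i
    · obtain ⟨a, ha⟩ := mem_hol.1 hh
      exact ⟨a, fun _ => ha⟩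
    · exact ⟨fun _ => false, fun h1 => absurd h1 hh⟩
  choose a ha using hch
  obtain ⟨J, hJ0, hJ1, hJ2, hJ3⟩ := exists_ideal_block K (blk : Fin (n * l) → Fin n) Set.univ
    (fun _ _ _ => trivial) (hol owner)
    (fun i => {z | ∀ h, owner h (code z h) ≠ i})
    (by
      intro i x y hxy
      refine forall_congr' fun h => ?_
      by_cases hh : h ∈ hol owner i
      · have : code x h = code y h := by
          funext j
          refine hxy _ ?_
          rw [blk_equiv]
          exact hh
        rw [this]
      · have h2 : ∀ a, owner h a ≠ i := fun a ha => hh (mem_hol.2 ⟨a, ha⟩)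
        exact ⟨fun _ => h2 _, fun _ => h2 _⟩)
    (fun i h v => a i h (finProdFinEquiv.symm v).2)
    (by
      intro i h hh x _
      refine ⟨trivial, ?_⟩
      intro hcon
      refine hcon h ?_
      have : code (fun v => if blk v = h then a i h (finProdFinEquiv.symm v).2 else x v) h =
          a i h := by
        funext j
        unfold code
        show (if blk (finProdFinEquiv (h, j)) = h then
          a i h (finProdFinEquiv.symm (finProdFinEquiv (h, j))).2 else _) = a i h j
        rw [if_pos (blk_equiv h j), Equiv.symm_apply_apply]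
      rw [this]
      exact ha i h hh)
    (tight_of_expansion hexp hD) hZ hr1
  refine ⟨J, fun i => hJ1 i _ ?_ ?_, hJ2, fun f hf hfJ => ?_⟩
  · intro x y hxy
    unfold empt
    have : (∀ h, owner h (code x h) ≠ i) ↔ ∀ h, owner h (code y h) ≠ i := by
      refine forall_congr' fun h => ?_
      by_cases hh : h ∈ hol owner i
      · have : code x h = code y h := by
          funext j
          refine hxy _ ?_
          rw [blk_equiv]
          exact hh
        rw [this]
      · have h2 : ∀ a, owner h a ≠ i := fun a ha => hh (mem_hol.2 ⟨a, ha⟩)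
        exact ⟨fun _ => h2 _, fun _ => h2 _⟩
    simp only [this]
  · intro x _ hx
    unfold empt
    rw [if_neg]
    exact hx
  · have h1 : f ∈ Submodule.span K {f : (Fin (n * l) → Bool) → K | ∃ M : Finset (Fin (n * l)),
        Good (hol owner) r (M.image blk) ∧ f = mon K M} := by
      refine Submodule.span_mono ?_ hf
      rintro g ⟨M, hM, rfl⟩
      refine ⟨M, good_of_meet (fun I h1 h2 => hexp I h2 h1) ?_, rfl⟩
      intro i
      refine le_trans ?_ (hM i)
      refine le_trans (card_le_card ?_) (card_image_le (s := M ∩ bits owner i) (f := blk))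
      intro h hh
      obtain ⟨h2, h3⟩ := mem_inter.1 hh
      obtain ⟨v, hv, rfl⟩ := mem_image.1 h2
      exact mem_image.2 ⟨v, mem_inter.2 ⟨hv, mem_filter.2 ⟨mem_univ _, h3⟩⟩, rfl⟩
    funext x
    exact hJ3 f h1 hfJ x trivial

end Pool.Agent.MP_9cec2c_lc.ResPoly
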