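import Pool.Agent.Lib.MP_9cec2c_lc.RSCount

/-!
Closures of sets of variables or of blocks of variables.
-/

set_option autoImplicit false
set_option linter.unusedSectionVars false

namespace Pool.Agent.MP_9cec2c_lc.ResPoly

open Finset

variable {H ι : Type*} [Fintype H] [DecidableEq H] [Fintype ι] [DecidableEq ι]

theorem mem_bd {Z : ι → Finset H} {I : Finset ι} {v : H} :
    v ∈ bd Z I ↔ ∃ i ∈ I, v ∈ Z i ∧ ∀ j ∈ I, v ∈ Z j → j = i := by
  unfold bd
  rw [mem_filter, and_iff_right (mem_univ v), card_eq_one]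
  constructor
  · rintro ⟨i, hi⟩
    have h1 : i ∈ I.filter fun i => v ∈ Z i := by
      rw [hi]
      exact mem_singleton_self i
    rw [mem_filter] at h1
    refine ⟨i, h1.1, h1.2, fun j hj hvj => ?_⟩
    have h2 : j ∈ I.filter fun i => v ∈ Z i := mem_filter.2 ⟨hj, hvj⟩
    rw [hi] at h2
    exact mem_singleton.1 h2
  · rintro ⟨i, hi, hvi, hu⟩
    refine ⟨i, ?_⟩
    ext j
    rw [mem_filter, mem_singleton]
    constructor
    · rintro ⟨h1, h2⟩
      exact hu j h1 h2
    · rintro rfl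
      exact ⟨hi, hvi⟩

theorem bd_union_subset (Z : ι → Finset H) (I J : Finset ι) :
    bd Z (I ∪ J) ⊆ bd Z I ∪ bd Z J := by
  intro v hv
  obtain ⟨i, hi, hvi, hu⟩ := mem_bd.1 hv
  rcases mem_union.1 hi with h | h
  · exact mem_union_left _ (mem_bd.2 ⟨i, h, hvi, fun j hj => hu j (mem_union_left _ hj)⟩)
  · exact mem_union_right _ (mem_bd.2 ⟨i, h, hvi, fun j hj => hu j (mem_union_right _ hj)⟩)

/-- The constraints in the contained sets of size at most `r`. -/
noncomputable def Cl (Z : ι → Finset H) (r : ℕ) (T : Finset H) : Finset ι :=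
  open Classical in univ.filter fun i => ∃ I : Finset ι, I.card ≤ r ∧ bd Z I ⊆ T ∧ i ∈ I

theorem mem_Cl {Z : ι → Finset H} {r : ℕ} {T : Finset H} {i : ι} :
    i ∈ Cl Z r T ↔ ∃ I : Finset ι, I.card ≤ r ∧ bd Z I ⊆ T ∧ i ∈ I := by
  unfold Cl
  rw [mem_filter, and_iff_right (mem_univ i)]

theorem subset_Cl {Z : ι → Finset H} {r : ℕ} {T : Finset H} {I : Finset ι}
    (h : I.card ≤ r) (hT : bd Z I ⊆ T) : I ⊆ Cl Z r T :=
  fun _ hi => mem_Cl.2 ⟨I, h, hT, hi⟩

theorem Cl_mono {Z : ι → Finset H} {r : ℕ} {T T' : Finset H} (h : T ⊆ T') :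
    Cl Z r T ⊆ Cl Z r T' := by
  intro i hi
  obtain ⟨I, h1, h2, h3⟩ := mem_Cl.1 hi
  exact mem_Cl.2 ⟨I, h1, h2.trans h, h3⟩

theorem Cl_eq_empty {Z : ι → Finset H} {r : ℕ} {T : Finset H} (h : Good Z r T) :
    Cl Z r T = ∅ := by
  rw [eq_empty_iff_forall_notMem]
  intro i hi
  obtain ⟨I, h1, h2, h3⟩ := mem_Cl.1 hi
  rw [h I h1 h2] at h3
  exact notMem_empty i h3

/-- Sets of at most `r` constraints with at most `D` private variables have at most `r / 4`
constraints. -/
def Tight (Z : ι → Finset H) (r D : ℕ) : Prop :=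
  ∀ I : Finset ι, I.card ≤ r → (bd Z I).card ≤ D → 4 * I.card ≤ r

theorem Cl_spec {Z : ι → Finset H} {r D : ℕ} (hZ : Tight Z r D)
    {T : Finset H} (hT : T.card ≤ D) :
    4 * (Cl Z r T).card ≤ r ∧ bd Z (Cl Z r T) ⊆ T := by
  classical
  have hsmall : ∀ I : Finset ι, I.card ≤ r → bd Z I ⊆ T → 4 * I.card ≤ r := by
    intro I h1 h2
    exact hZ I h1 ((card_le_card h2).trans hT)
  have hun : ∀ s : Finset ι, s ⊆ Cl Z r T →
      ∃ I : Finset ι, I.card ≤ r ∧ bd Z I ⊆ T ∧ s ⊆ I := by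
    intro s
    induction s using Finset.induction_on with
    | empty =>
      intro _
      refine ⟨∅, by simp, ?_, by simp⟩
      intro v hv
      obtain ⟨i, hi, -⟩ := mem_bd.1 hv
      exact absurd hi (notMem_empty i)
    | insert i s _ ih =>
      intro hs
      obtain ⟨I, h1, h2, h3⟩ := ih fun j hj => hs (mem_insert_of_mem hj)
      obtain ⟨J, g1, g2, g3⟩ := mem_Cl.1 (hs (mem_insert_self i s))
      refine ⟨J ∪ I, ?_, ?_, ?_⟩
      · have e1 := hsmall I h1 h2
        have e2 := hsmall J g1 g2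
        have e3 := card_union_le J I
        omega
      · exact (bd_union_subset Z J I).trans (union_subset g2 h2)
      · rw [insert_subset_iff]
        exact ⟨mem_union_left _ g3, h3.trans subset_union_right⟩
  obtain ⟨I, h1, h2, h3⟩ := hun (Cl Z r T) (Subset.refl _)
  have h4 : Cl Z r T = I := Subset.antisymm h3 (subset_Cl h1 h2)
  rw [h4]
  exact ⟨hsmall I h1 h2, h2⟩

/-- The closures of the monomials in a normal form. -/
theorem Cl_insert {Z : ι → Finset H} {r D : ℕ} (hZ : Tight Z r D)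
    {T M W : Finset H} (hT : T.card ≤ D) (hM : (M ∪ W).card ≤ D)
    (hMT : M ⊆ T ∪ (Cl Z r T).biUnion Z) : Cl Z r (M ∪ W) ⊆ Cl Z r (T ∪ W) := by
  obtain ⟨h1, h2⟩ := Cl_spec hZ hT
  obtain ⟨h3, h4⟩ := Cl_spec hZ hM
  refine subset_union_left.trans (subset_Cl (I := Cl Z r (M ∪ W) ∪ Cl Z r T) ?_ ?_)
  · have := card_union_le (Cl Z r (M ∪ W)) (Cl Z r T)
    omega
  · intro v hv
    obtain ⟨i, hi, hvi, hu⟩ := mem_bd.1 hv
    by_cases hvC : v ∈ (Cl Z r T).biUnion Z
    · obtain ⟨j, hj, hvj⟩ := mem_biUnion.1 hvC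
      have hji := hu j (mem_union_right _ hj) hvj
      refine mem_union_left _ (h2 (mem_bd.2 ⟨j, hj, hvj, fun l hl hvl => ?_⟩))
      rw [hji]
      exact hu l (mem_union_right _ hl) hvl
    · rcases mem_union.1 hi with h | h
      · have h5 := h4 (mem_bd.2 ⟨i, h, hvi, fun j hj => hu j (mem_union_left _ hj)⟩)
        rcases mem_union.1 h5 with h6 | h6
        · rcases mem_union.1 (hMT h6) with h7 | h7
          · exact mem_union_left _ h7
          · exact absurd h7 hvC
        · exact mem_union_right _ h6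
      · exact absurd (mem_biUnion.2 ⟨i, h, hvi⟩) hvC

/-- A set of constraints that is larger than the closure has a constraint with a private
variable. -/
theorem exists_peel {Z : ι → Finset H} {r : ℕ} {T : Finset H} (hCl : bd Z (Cl Z r T) ⊆ T)
    {I : Finset ι} (hI : Cl Z r T ⊆ I) (hIr : I.card ≤ r) (hne : I ≠ Cl Z r T) :
    ∃ i ∈ I, i ∉ Cl Z r T ∧ ∃ v ∈ Z i, v ∉ T ∧ v ∉ (I.erase i).biUnion Z := by
  by_contra hcon
  push Not at hcon
  apply hne
  refine Subset.antisymm (subset_Cl hIr fun v hv => ?_) hI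
  obtain ⟨i, hi, hvi, hu⟩ := mem_bd.1 hv
  by_cases hiC : i ∈ Cl Z r T
  · exact hCl (mem_bd.2 ⟨i, hiC, hvi, fun j hj => hu j (hI hj)⟩)
  · by_contra hvT
    obtain ⟨j, hj, hvj⟩ := mem_biUnion.1 (hcon i hi hiC v hvi hvT)
    exact absurd (hu j (mem_of_mem_erase hj) hvj) (ne_of_mem_erase hj)

/-- Expansion gives tightness. -/
theorem tight_of_expansion {Z : ι → Finset H} {r D θ : ℕ}
    (h : ∀ I : Finset ι, I.Nonempty → I.card ≤ r → θ * I.card < (bd Z I).card)
    (hD : 4 * D ≤ θ * r) : Tight Z r D := by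
  intro I hI hb
  rcases I.eq_empty_or_nonempty with rfl | hne
  · rw [card_empty, mul_zero]
    exact Nat.zero_le _
  · have h1 := h I hne hI
    have h2 : θ * (4 * I.card) ≤ θ * r := by
      calc θ * (4 * I.card) = 4 * (θ * I.card) := by ring
        _ ≤ 4 * D := Nat.mul_le_mul_left 4 (h1.le.trans hb)
        _ ≤ θ * r := hD
    rcases Nat.eq_zero_or_pos θ with rfl | hθ
    · rw [zero_mul] at hD
      omega
    · exact Nat.le_of_mul_le_mul_left h2 hθ

end Pool.Agent.MP_9cec2c_lc.ResPoly
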