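import Pool.Agent.Lib.MP_9cec2c_lc.ROPerm
import Pool.Agent.Lib.MP_9cec2c_lc.RSCl

/-!
A sparse bipartite expander between pigeons and holes: each pigeon owns places, each hole has the
same number of places, and each place belongs to at most one pigeon.
-/

set_option autoImplicit false
set_option linter.unusedSectionVars false

namespace Pool.Agent.MP_9cec2c_lc.ResPoly

open Finset
open Pool.Agent.MP_9cec2c_lc.Oblivious (into into_card)

theorem choose_three {n k : ℕ} (hk : 0 < k) : (n.choose k : ℝ) ≤ (3 * n / k : ℝ) ^ k := by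
  have hk' : (0 : ℝ) < k := by exact_mod_cast hk
  have h1 : (n.choose k : ℝ) ≤ (n : ℝ) ^ k / k.factorial := Nat.choose_le_pow_div k n
  have h2 : (k : ℝ) ^ k / k.factorial ≤ 3 ^ k := by
    refine (Real.pow_div_factorial_le_exp (k : ℝ) hk'.le k).trans ?_
    have h3 : Real.exp (k : ℝ) = Real.exp 1 ^ k := by
      rw [← Real.exp_nat_mul, mul_one]
    rw [h3]
    refine pow_le_pow_left₀ (Real.exp_pos 1).le ?_ _
    have := Real.exp_one_lt_d9
    linarith
  refine h1.trans ?_
  have hf : (0 : ℝ) < k.factorial := by exact_mod_cast Nat.factorial_pos k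
  rw [div_pow, mul_pow, div_le_div_iff₀ hf (by positivity)]
  rw [div_le_iff₀ hf] at h2
  have h4 : (0 : ℝ) ≤ (n : ℝ) ^ k := by positivity
  nlinarith

/-- one term of the union bound -/
theorem seat_term {n m q s c : ℕ} (hq : 2 ≤ q) (hc : 1 ≤ c) (hs : 1 ≤ s) (hm : m ≤ c * n)
    (hsn : s * (81 * q * (972 * c * q)) ≤ n) :
    (m.choose s : ℝ) * (n.choose (3 * q * s) : ℝ) * (((3 * q * s : ℕ) : ℝ) / n) ^ (4 * q * s) ≤
      (1 / 4) ^ s := by
  have hq0 : (0 : ℝ) < q := by exact_mod_cast (by omega : 0 < q)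
  have hs0 : (0 : ℝ) < s := by exact_mod_cast hs
  have hc0 : (0 : ℝ) < c := by exact_mod_cast hc
  have hn0 : 0 < n := by
    refine lt_of_lt_of_le ?_ hsn
    positivity
  have hn : (0 : ℝ) < n := by exact_mod_cast hn0
  obtain ⟨x, hx⟩ : ∃ x : ℝ, x = q * s / n := ⟨_, rfl⟩
  have hx0 : 0 < x := by
    rw [hx]
    positivity
  have hsn' : (s : ℝ) * (81 * q * (972 * c * q)) ≤ n := by exact_mod_cast hsn
  have h81 : 81 * x ≤ 1 / (972 * c * q) := by
    rw [hx, le_div_iff₀ (by positivity), ← mul_div_assoc, div_mul_eq_mul_div, div_le_one hn]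
    calc 81 * ((q : ℝ) * s) * (972 * c * q) = s * (81 * q * (972 * c * q)) := by ring
      _ ≤ n := hsn'
  have h1 : (m.choose s : ℝ) ≤ (3 * c * q / x) ^ s := by
    refine (choose_three hs).trans ?_
    have hm' : (m : ℝ) ≤ c * n := by exact_mod_cast hm
    have h2 : (3 * m / s : ℝ) ≤ 3 * c * q / x := by
      rw [hx, div_le_div_iff₀ hs0 (by positivity)]
      have h3 : 3 * (m : ℝ) * (q * s / n) = 3 * (m / n) * q * s := by ring
      rw [h3]
      have h4 : (m : ℝ) / n ≤ c := by
        rw [div_le_iff₀ hn]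
        exact hm'
      have h5 : (0 : ℝ) ≤ 3 * q * s := by positivity
      nlinarith
    have h6 : (0 : ℝ) ≤ 3 * m / s := by positivity
    exact pow_le_pow_left₀ h6 h2 s
  have h2 : (n.choose (3 * q * s) : ℝ) ≤ (1 / x) ^ (3 * q * s) := by
    refine (choose_three (by positivity)).trans (le_of_eq ?_)
    congr 1
    rw [hx]
    push_cast
    field_simp
  have h3 : (((3 * q * s : ℕ) : ℝ) / n) ^ (4 * q * s) = (3 * x) ^ (4 * q * s) := by
    congr 1
    rw [hx]
    push_cast
    ring
  rw [h3]
  have h4 : (1 / x) ^ (3 * q * s) * (3 * x) ^ (4 * q * s) = ((81 * x) ^ q) ^ s := by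
    have e1 : (3 * x) ^ (4 * q * s) = ((3 * x) ^ 4) ^ (q * s) := by
      rw [← pow_mul]
      congr 1
      ring
    have e2 : (1 / x) ^ (3 * q * s) = ((1 / x) ^ 3) ^ (q * s) := by
      rw [← pow_mul]
      congr 1
      ring
    rw [e1, e2, ← mul_pow, ← pow_mul]
    congr 1
    field_simp
    ring
  calc (m.choose s : ℝ) * (n.choose (3 * q * s) : ℝ) * (3 * x) ^ (4 * q * s)
      ≤ (3 * c * q / x) ^ s * (1 / x) ^ (3 * q * s) * (3 * x) ^ (4 * q * s) := by gcongr
    _ = ((3 * c * q / x) * (81 * x) ^ q) ^ s := by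
        rw [mul_assoc, h4, ← mul_pow]
    _ ≤ (1 / 4) ^ s := by
        refine pow_le_pow_left₀ (by positivity) ?_ s
        obtain ⟨j, rfl⟩ : ∃ j, q = j + 2 := ⟨q - 2, by omega⟩
        have h5 : (81 * x) ^ j ≤ 1 := by
          refine pow_le_one₀ (by positivity) (h81.trans ?_)
          rw [div_le_one (by positivity)]
          have : (1 : ℝ) ≤ c := by exact_mod_cast hc
          have : (2 : ℝ) ≤ ((j + 2 : ℕ) : ℝ) := by exact_mod_cast (by omega : 2 ≤ j + 2)
          nlinarith
        calc (3 * c * ((j + 2 : ℕ) : ℝ) / x) * (81 * x) ^ (j + 2)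
            = 243 * c * ((j + 2 : ℕ) : ℝ) * (81 * x) * (81 * x) ^ j := by
              rw [pow_add]
              field_simp
              ring
          _ ≤ 243 * c * ((j + 2 : ℕ) : ℝ) * (1 / (972 * c * ((j + 2 : ℕ) : ℝ))) * 1 := by gcongr
          _ = 1 / 4 := by
              field_simp
              ring

/-- Places: each of the `n` holes has the places `L`. Each pigeon owns `4 * q` places, and small
sets of pigeons own places in many holes. -/
theorem exists_seats {n m q r c : ℕ} {L : Type} [Fintype L] [DecidableEq L] (hq : 2 ≤ q)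
    (hc : 1 ≤ c) (hl : m * (4 * q) ≤ n * Fintype.card L) (hm : m ≤ c * n)
    (hr : r * (81 * q * (972 * c * q)) ≤ n) :
    ∃ own : Fin m → Finset (Fin n × L), (∀ i, (own i).card = 4 * q) ∧
      (∀ i j, i ≠ j → Disjoint (own i) (own j)) ∧
      ∀ I : Finset (Fin m), I.Nonempty → I.card ≤ r →
        3 * q * I.card ≤ ((I.biUnion own).image Prod.fst).card := by
  classical
  have hemb : Nonempty ((Fin m × Fin (4 * q)) ↪ (Fin n × L)) := by
    rw [Function.Embedding.nonempty_iff_card_le, Fintype.card_prod, Fintype.card_prod,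
      Fintype.card_fin, Fintype.card_fin, Fintype.card_fin]
    exact hl
  obtain ⟨e⟩ := hemb
  by_contra hcon
  -- for every permutation there is a bad set
  have hbad : ∀ π : Equiv.Perm (Fin n × L), ∃ I : Finset (Fin m), I.Nonempty ∧ I.card ≤ r ∧
      (((I ×ˢ (univ : Finset (Fin (4 * q)))).image fun p => (π (e p)).1)).card <
        3 * q * I.card := by
    intro π
    by_contra hπ
    push Not at hπ
    apply hcon
    refine ⟨fun i => univ.image fun j => π (e (i, j)), fun i => ?_, fun i j hij => ?_,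
      fun I hI hIr => ?_⟩
    · rw [card_image_of_injective, card_univ, Fintype.card_fin]
      intro j j' h
      have h1 := e.injective (π.injective h)
      exact (Prod.ext_iff.1 h1).2
    · rw [disjoint_left]
      intro a ha hb
      obtain ⟨u, -, hu⟩ := mem_image.1 ha
      obtain ⟨v, -, hv⟩ := mem_image.1 hb
      have h1 := e.injective (π.injective (hu.trans hv.symm))
      exact hij (Prod.ext_iff.1 h1).1
    · refine (hπ I hI hIr).trans (card_le_card ?_)
      intro h hh
      obtain ⟨⟨i, j⟩, hp, rfl⟩ := mem_image.1 hh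
      exact mem_image.2 ⟨π (e (i, j)), mem_biUnion.2 ⟨i, (mem_product.1 hp).1,
        mem_image.2 ⟨j, mem_univ j, rfl⟩⟩, rfl⟩
  rcases Nat.eq_zero_or_pos r with hr0 | hr0
  · obtain ⟨I, hI, hIr, -⟩ := hbad 1
    have := hI.card_pos
    omega
  have hn0 : 0 < n := by
    refine lt_of_lt_of_le ?_ hr
    positivity
  have hL0 : 0 < Fintype.card L := by
    obtain ⟨I, hI, hIr, -⟩ := hbad 1
    obtain ⟨i, -⟩ := hI
    have hm0 : 0 < m := lt_of_le_of_lt (Nat.zero_le _) i.isLt
    by_contra h0
    have h1 : Fintype.card L = 0 := by omega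
    rw [h1, Nat.mul_zero] at hl
    have : 0 < m * (4 * q) := by positivity
    omega
  -- the number of holes is large
  have hsn : ∀ s, s ≤ r → 3 * q * s ≤ n := by
    intro s hs
    refine le_trans ?_ hr
    calc 3 * q * s ≤ 3 * q * r := Nat.mul_le_mul_left _ hs
      _ = r * (3 * q * 1) := by ring
      _ ≤ r * (81 * q * (972 * c * q)) := by
          have h1 : 1 ≤ 972 * c * q := Nat.one_le_iff_ne_zero.2 (by positivity)
          gcongr
          norm_num
  -- union bound
  have hcov : (univ : Finset (Equiv.Perm (Fin n × L))) ⊆ (Finset.Icc 1 r).biUnion fun s =>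
      ((powersetCard s (univ : Finset (Fin m))) ×ˢ
        (powersetCard (3 * q * s) (univ : Finset (Fin n)))).biUnion fun p =>
          into ((p.1 ×ˢ (univ : Finset (Fin (4 * q)))).image e) (p.2 ×ˢ (univ : Finset L)) := by
    intro π _
    obtain ⟨I, hI, hIr, hlt⟩ := hbad π
    obtain ⟨U, hU, hUc⟩ := exists_superset_card_eq hlt.le (by
      rw [Fintype.card_fin]
      exact hsn _ hIr)
    refine mem_biUnion.2 ⟨I.card, Finset.mem_Icc.2 ⟨hI.card_pos, hIr⟩, mem_biUnion.2
      ⟨(I, U), mem_product.2 ⟨mem_powersetCard.2 ⟨subset_univ _, rfl⟩,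
        mem_powersetCard.2 ⟨subset_univ _, hUc⟩⟩, ?_⟩⟩
    simp only [into, mem_filter, mem_univ, true_and]
    intro x hx
    obtain ⟨p, hp, rfl⟩ := mem_image.1 hx
    exact mem_product.2 ⟨hU (mem_image.2 ⟨p, hp, rfl⟩), mem_univ _⟩
  have hF : (0 : ℝ) < ((Fintype.card (Fin n × L)).factorial : ℝ) := by
    exact_mod_cast Nat.factorial_pos _
  have hX0 : (0 : ℝ) < (Fintype.card (Fin n × L) : ℝ) := by
    rw [Fintype.card_prod, Fintype.card_fin]
    exact_mod_cast Nat.mul_pos hn0 hL0
  have hone : ∀ s ∈ Finset.Icc 1 r, ∀ p ∈ (powersetCard s (univ : Finset (Fin m))) ×ˢ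
        (powersetCard (3 * q * s) (univ : Finset (Fin n))),
      ((into ((p.1 ×ˢ (univ : Finset (Fin (4 * q)))).image e)
        (p.2 ×ˢ (univ : Finset L))).card : ℝ) ≤
        (((3 * q * s : ℕ) : ℝ) / n) ^ (4 * q * s) *
          ((Fintype.card (Fin n × L)).factorial : ℝ) := by
    intro s _ p hp
    rw [mem_product, mem_powersetCard, mem_powersetCard] at hp
    have h1 := into_card ((p.1 ×ˢ (univ : Finset (Fin (4 * q)))).image e)
      (p.2 ×ˢ (univ : Finset L))
    rw [card_image_of_injective _ e.injective, card_product, card_product, card_univ, card_univ,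
      Fintype.card_fin, hp.1.2, hp.2.2] at h1
    have h2 : ((into ((p.1 ×ˢ (univ : Finset (Fin (4 * q)))).image e)
        (p.2 ×ˢ (univ : Finset L))).card : ℝ) * (Fintype.card (Fin n × L) : ℝ) ^ (s * (4 * q)) ≤
        (((3 * q * s : ℕ) : ℝ) * Fintype.card L) ^ (s * (4 * q)) *
          ((Fintype.card (Fin n × L)).factorial : ℝ) := by exact_mod_cast h1
    rw [← le_div_iff₀ (by positivity)] at h2
    refine h2.trans (le_of_eq ?_)
    rw [mul_div_right_comm, ← div_pow]
    congr 1
    rw [show 4 * q * s = s * (4 * q) by ring]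
    congr 1
    rw [Fintype.card_prod, Fintype.card_fin]
    have hL' : (Fintype.card L : ℝ) ≠ 0 := by exact_mod_cast hL0.ne'
    have hn' : (n : ℝ) ≠ 0 := by exact_mod_cast hn0.ne'
    push_cast
    field_simp
  have htot : ((Fintype.card (Fin n × L)).factorial : ℝ) ≤
      ∑ s ∈ Finset.Icc 1 r, (1 / 4) ^ s * ((Fintype.card (Fin n × L)).factorial : ℝ) := by
    have h1 := card_le_card hcov
    rw [card_univ, Fintype.card_perm] at h1
    have h2 := h1.trans (card_biUnion_le.trans (sum_le_sum fun s _ => card_biUnion_le))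
    have h3 : ((Fintype.card (Fin n × L)).factorial : ℝ) ≤
        ∑ s ∈ Finset.Icc 1 r, ∑ p ∈ (powersetCard s (univ : Finset (Fin m))) ×ˢ
          (powersetCard (3 * q * s) (univ : Finset (Fin n))),
          ((into ((p.1 ×ˢ (univ : Finset (Fin (4 * q)))).image e)
            (p.2 ×ˢ (univ : Finset L))).card : ℝ) := by exact_mod_cast h2
    refine h3.trans (sum_le_sum fun s hs => ?_)
    refine (sum_le_sum (hone s hs)).trans ?_
    rw [sum_const, nsmul_eq_mul, card_product, card_powersetCard, card_powersetCard, card_univ,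
      card_univ, Fintype.card_fin, Fintype.card_fin, ← mul_assoc]
    rw [Finset.mem_Icc] at hs
    have h4 := seat_term (n := n) (m := m) hq hc hs.1 hm
      ((Nat.mul_le_mul_right _ hs.2).trans hr)
    push_cast at h4 ⊢
    exact mul_le_mul_of_nonneg_right h4 hF.le
  rw [← sum_mul] at htot
  have hgeo : ∑ s ∈ Finset.Icc 1 r, (1 / 4 : ℝ) ^ s ≤ 1 / 3 := by
    have h1 : ∀ r : ℕ, ∑ s ∈ Finset.Icc 1 r, (1 / 4 : ℝ) ^ s = 1 / 3 - 1 / 3 * (1 / 4) ^ r := by
      intro r
      induction r with
      | zero => simp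
      | succ r ih =>
        rw [Finset.sum_Icc_succ_top (by omega), ih, pow_succ]
        ring
    rw [h1]
    have : (0 : ℝ) ≤ 1 / 3 * (1 / 4) ^ r := by positivity
    linarith
  nlinarith

/-- The holes in which a pigeon owns a place. -/
def holes {n m : ℕ} {L : Type} [DecidableEq L] (own : Fin m → Finset (Fin n × L)) (i : Fin m) :
    Finset (Fin n) := (own i).image Prod.fst

/-- Small sets of pigeons have many private holes. -/
theorem bd_holes {n m q r : ℕ} {L : Type} [DecidableEq L] {own : Fin m → Finset (Fin n × L)}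
    (hown : ∀ i, (own i).card = 4 * q)
    (hexp : ∀ I : Finset (Fin m), I.Nonempty → I.card ≤ r →
        3 * q * I.card ≤ ((I.biUnion own).image Prod.fst).card) (I : Finset (Fin m))
    (hI : I.Nonempty) (hIr : I.card ≤ r) : 2 * q * I.card ≤ (bd (holes own) I).card := by
  have h1 := two_un_le (Z := holes own) (k := 4 * q)
    (fun i => (card_image_le).trans (hown i).le) I
  have h2 : un (holes own) I = (I.biUnion own).image Prod.fst := by
    unfold un holes
    rw [biUnion_image]
  have h3 := hexp I hI hIr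
  rw [← h2] at h3
  have h4 : 3 * q * I.card = 3 * (q * I.card) := by ring
  have h5 : 4 * q * I.card = 4 * (q * I.card) := by ring
  have h6 : 2 * q * I.card = 2 * (q * I.card) := by ring
  omega

end Pool.Agent.MP_9cec2c_lc.ResPoly
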