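import Pool.Agent.Lib.MP_9cec2c_lc.Mg.G044

/-!
The numbers.
-/

set_option autoImplicit false

namespace Pool.Agent.MP_9cec2c_lc.ParTrade

open Finset

theorem choose_ratio {g k : ℕ} (h : g ≤ k) (i : ℕ) :
    g.choose i * k ^ i ≤ k.choose i * g ^ i := by
  induction i with
  | zero => simp
  | succ i ih =>
    have e1 := Nat.choose_succ_right_eq g i
    have e2 := Nat.choose_succ_right_eq k i
    have h1 : (g - i) * k ≤ (k - i) * g := by
      rw [Nat.sub_mul, Nat.sub_mul]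
      have h2 : i * g ≤ i * k := Nat.mul_le_mul_left _ h
      have h3 : k * g = g * k := Nat.mul_comm _ _
      omega
    have h4 : (i + 1) * (g.choose (i + 1) * k ^ (i + 1)) ≤
        (i + 1) * (k.choose (i + 1) * g ^ (i + 1)) := by
      calc (i + 1) * (g.choose (i + 1) * k ^ (i + 1))
          = (g.choose (i + 1) * (i + 1)) * (k ^ i * k) := by ring
        _ = (g.choose i * k ^ i) * ((g - i) * k) := by rw [e1]; ring
        _ ≤ (k.choose i * g ^ i) * ((k - i) * g) := Nat.mul_le_mul ih h1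
        _ = (k.choose i * (k - i)) * (g ^ i * g) := by ring
        _ = (i + 1) * (k.choose (i + 1) * g ^ (i + 1)) := by rw [← e2]; ring
    exact Nat.le_of_mul_le_mul_left h4 (Nat.succ_pos i)

theorem choose_scale {g k B : ℕ} (hg : 0 < g) (hB : 0 < B) (h : g * B ≤ k) (i : ℕ) :
    g.choose i * B ^ i ≤ k.choose i := by
  have h0 : g ≤ k := le_trans (Nat.le_mul_of_pos_right g hB) h
  have h1 := choose_ratio h0 i
  have h2 : g.choose i * (g * B) ^ i ≤ k.choose i * g ^ i :=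
    le_trans (Nat.mul_le_mul_left _ (Nat.pow_le_pow_left h i)) h1
  rw [mul_pow] at h2
  have h3 : g ^ i * (g.choose i * B ^ i) ≤ g ^ i * k.choose i := by
    calc g ^ i * (g.choose i * B ^ i) = g.choose i * (g ^ i * B ^ i) := by ring
      _ ≤ k.choose i * g ^ i := h2
      _ = g ^ i * k.choose i := by ring
  exact Nat.le_of_mul_le_mul_left h3 (pow_pos hg i)

theorem choose_mono_half {g j : ℕ} (h : 2 * j ≤ g) {i : ℕ} (hi : i ≤ j) :
    g.choose i ≤ g.choose j := by
  induction j with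
  | zero =>
    have : i = 0 := by omega
    rw [this]
  | succ j ih =>
    rcases Nat.lt_or_ge i (j + 1) with h1 | h1
    · have h2 := ih (by omega) (by omega)
      exact le_trans h2 (Nat.choose_le_succ_of_lt_half_left (by omega))
    · have : i = j + 1 := by omega
      rw [this]

theorem binSum_le {g j : ℕ} (h : 2 * j ≤ g) : binSum g (j + 1) ≤ (j + 1) * g.choose j := by
  unfold binSum
  calc ∑ i ∈ range (j + 1), g.choose i ≤ ∑ _i ∈ range (j + 1), g.choose j := by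
        refine sum_le_sum fun i hi => choose_mono_half h ?_
        have := mem_range.1 hi
        omega
    _ = (j + 1) * g.choose j := by
        rw [sum_const, card_range, smul_eq_mul]

theorem le_binSum {k j : ℕ} : k.choose j ≤ binSum k (j + 1) := by
  unfold binSum
  exact single_le_sum (f := fun i => k.choose i) (fun i _ => Nat.zero_le _)
    (mem_range.2 (Nat.lt_succ_self j))

theorem two_pow_ge (L : ℕ) (h : 61 ≤ L) : L * 2 ^ ((L + 1) / 2) * 2 ^ 8 ≤ 2 ^ L := by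
  obtain ⟨e, he⟩ : ∃ e, e = L / 2 := ⟨_, rfl⟩
  have h1 : (L + 1) / 2 ≤ e + 1 := by omega
  have h2 : 2 ^ ((L + 1) / 2) ≤ 2 ^ (e + 1) := Nat.pow_le_pow_right (by norm_num) h1
  have h3 : L ≤ 2 * e + 1 := by omega
  have h4 : 30 ≤ e := by omega
  have h5 : ∀ e : ℕ, 30 ≤ e → (2 * e + 1) * 2 ^ 9 ≤ 2 ^ e := by
    intro e he
    induction e, he using Nat.le_induction with
    | base => norm_num
    | succ e he ih =>
      have h6 : 2 ^ (e + 1) = 2 ^ e * 2 := pow_succ 2 e
      rw [h6]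
      nlinarith
  calc L * 2 ^ ((L + 1) / 2) * 2 ^ 8 ≤ (2 * e + 1) * 2 ^ (e + 1) * 2 ^ 8 := by gcongr
    _ = ((2 * e + 1) * 2 ^ 9) * 2 ^ e := by ring
    _ ≤ 2 ^ e * 2 ^ e := by
      gcongr
      exact h5 e h4
    _ = 2 ^ (2 * e) := by ring
    _ ≤ 2 ^ L := Nat.pow_le_pow_right (by norm_num) (by omega)

/-- The numbers. -/
theorem super_numbers {n w A K s r S : ℕ} (hA : 1 ≤ A) (hK : K = 2 ^ 60 * A) (hw : K ≤ w)
    (hn : K * w ^ 2 ≤ n) (hs : s = w / 16) (hr : r = n / (A * w)) (hS : S < w ^ (w / K)) :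
    ∃ k k0 μ g c : ℕ, k0 + μ + 1 < (4 * s - s) * (μ + 1) ∧ 2 * μ + 1 ≤ r ∧ k0 + μ + 1 + s ≤ c ∧
      4 * (S ^ 2 * ((2 * w) ^ μ * (μ * w))) * 2 ^ c ≤ 2 ^ k ∧ 4 * S * 2 ^ k ≤ 2 ^ (k0 + g) ∧
      S * binSum g s < binSum k s := by
  have hw60 : 2 ^ 60 ≤ w := by
    refine le_trans ?_ hw
    rw [hK]
    exact Nat.le_mul_of_pos_right _ hA
  have hw1 : 1 ≤ w := le_trans (by norm_num) hw60
  obtain ⟨L, hL⟩ : ∃ L, L = Nat.log 2 w + 1 := ⟨_, rfl⟩
  have hwL : w < 2 ^ L := by
    rw [hL]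
    exact Nat.lt_pow_succ_log_self (by norm_num) w
  have hLw : 2 ^ L ≤ 2 * w := by
    rw [hL, pow_succ]
    have := Nat.pow_log_le_self 2 (x := w) (by omega)
    omega
  have hL61 : 61 ≤ L := by
    rw [hL]
    have : 60 ≤ Nat.log 2 w := by
      exact Nat.le_log_of_pow_le (by norm_num) hw60
    omega
  obtain ⟨Q, hQ⟩ : ∃ Q, Q = w / K := ⟨_, rfl⟩
  obtain ⟨k, hk⟩ : ∃ k, k = n / (64 * A) := ⟨_, rfl⟩
  obtain ⟨μ, hμ⟩ : ∃ μ, μ = k / (2 * s) := ⟨_, rfl⟩
  -- sizes of `s`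
  have hs1 : 16 * s ≤ w := by
    rw [hs]
    exact Nat.mul_div_le w 16
  have hs2 : w < 16 * s + 16 := by
    rw [hs]
    have := Nat.div_add_mod w 16
    have := Nat.mod_lt w (by norm_num : 16 > 0)
    omega
  have hs3 : 2 ^ 55 ≤ s := by omega
  have hs4 : w ≤ 32 * s := by omega
  -- sizes of `k`
  have hk1 : 2 ^ 54 * w ^ 2 ≤ k := by
    rw [hk, Nat.le_div_iff_mul_le (by omega)]
    calc 2 ^ 54 * w ^ 2 * (64 * A) = K * w ^ 2 := by rw [hK]; ring
      _ ≤ n := hn
  have hk2 : 64 * A * k ≤ n := by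
    rw [hk]
    exact Nat.mul_div_le n (64 * A)
  have hkw : 2 ^ 54 * w * w ≤ k := by
    calc 2 ^ 54 * w * w = 2 ^ 54 * w ^ 2 := by ring
      _ ≤ k := hk1
  -- sizes of `μ`
  have hμ1 : 2 * s * μ ≤ k := by
    rw [hμ]
    exact Nat.mul_div_le k (2 * s)
  have hμ2 : k < 2 * s * (μ + 1) := by
    rw [hμ]
    have := Nat.div_add_mod k (2 * s)
    have := Nat.mod_lt k (by omega : 2 * s > 0)
    rw [Nat.mul_add, Nat.mul_one]
    omega
  have hμ3 : 2 ^ 54 * w ≤ μ := by
    rw [hμ, Nat.le_div_iff_mul_le (by omega)]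
    calc 2 ^ 54 * w * (2 * s) ≤ 2 ^ 54 * w * w := Nat.mul_le_mul_left _ (by omega)
      _ ≤ k := hkw
  have hQw : 2 ^ 60 * Q ≤ w := by
    calc 2 ^ 60 * Q ≤ 2 ^ 60 * A * Q := by
          rw [Nat.mul_assoc]
          exact Nat.mul_le_mul_left _ (Nat.le_mul_of_pos_left _ hA)
      _ = K * Q := by rw [hK]
      _ ≤ w := by
          rw [hQ]
          exact Nat.mul_div_le w K
  -- the gap
  obtain ⟨G, hG⟩ : ∃ G, G = 2 * (L * Q) + μ * (L + 3) + L + s + 3 := ⟨_, rfl⟩
  obtain ⟨g, hg⟩ : ∃ g, g = G + L * Q + 2 := ⟨_, rfl⟩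
  have hLw2 : L ≤ w := by
    have h1 := two_pow_ge L hL61
    have h2 : 1 ≤ 2 ^ ((L + 1) / 2) := Nat.one_le_pow _ _ (by norm_num)
    have h3 : L * 1 * 2 ^ 8 ≤ L * 2 ^ ((L + 1) / 2) * 2 ^ 8 := by gcongr
    omega
  have hgs : g * s ≤ L * k := by
    have e1 : 3 * (L * Q) ≤ L * w := by
      calc 3 * (L * Q) = L * (3 * Q) := by ring
        _ ≤ L * w := Nat.mul_le_mul_left _ (by omega)
    have e2 : g = 3 * (L * Q) + μ * (L + 3) + L + s + 5 := by
      rw [hg, hG]
      ring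
    have e3 : L + s + 5 ≤ 2 * w := by omega
    have hww : 2 ^ 54 * (w * w) ≤ k := by
      calc 2 ^ 54 * (w * w) = 2 ^ 54 * w * w := by ring
        _ ≤ k := hkw
    have a1 : 8 * (3 * (L * Q) * s) ≤ L * k := by
      calc 8 * (3 * (L * Q) * s) ≤ 8 * (L * w * w) := by
            have : s ≤ w := by omega
            gcongr
        _ = L * (8 * (w * w)) := by ring
        _ ≤ L * k := Nat.mul_le_mul_left _ (by omega)
    have a2 : 2 * (μ * (L + 3) * s) ≤ (L + 3) * k := by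
      calc 2 * (μ * (L + 3) * s) = (L + 3) * (2 * s * μ) := by ring
        _ ≤ (L + 3) * k := Nat.mul_le_mul_left _ hμ1
    have a3 : (L + s + 5) * s ≤ k := by
      calc (L + s + 5) * s ≤ (2 * w) * w := by
            have : s ≤ w := by omega
            gcongr
        _ = 2 * (w * w) := by ring
        _ ≤ k := by omega
    have a4 : 8 * (g * s) = 8 * (3 * (L * Q) * s) + 4 * (2 * (μ * (L + 3) * s)) +
        8 * ((L + s + 5) * s) := by
      rw [e2]
      ring
    have a5 : 61 * k ≤ L * k := Nat.mul_le_mul_right _ hL61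
    have a6 : (L + 3) * k = L * k + 3 * k := by ring
    omega
  have hg0 : μ ≤ g := by
    have : μ * 1 ≤ μ * (L + 3) := Nat.mul_le_mul_left _ (by omega)
    omega
  have hGk : G ≤ k := by
    have h1 : L * G ≤ L * k := by
      calc L * G ≤ s * G := by
            have h1 := two_pow_ge L hL61
            have h2 : 1 ≤ 2 ^ ((L + 1) / 2) := Nat.one_le_pow _ _ (by norm_num)
            have h3 : L * 1 * 2 ^ 8 ≤ L * 2 ^ ((L + 1) / 2) * 2 ^ 8 := by gcongr
            exact Nat.mul_le_mul_right _ (by omega)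
        _ ≤ s * g := Nat.mul_le_mul_left _ (by omega)
        _ = g * s := Nat.mul_comm _ _
        _ ≤ L * k := hgs
    exact Nat.le_of_mul_le_mul_left h1 (by omega)
  -- powers
  have hSq : S ≤ 2 ^ (L * Q) := by
    calc S ≤ w ^ Q := by
          rw [hQ]
          exact hS.le
      _ ≤ (2 ^ L) ^ Q := Nat.pow_le_pow_left hwL.le _
      _ = 2 ^ (L * Q) := (pow_mul 2 L Q).symm
  refine ⟨k, k - G, μ, g, k - G + μ + 1 + s, ?_, ?_, le_rfl, ?_, ?_, ?_⟩
  · have h1 : (4 * s - s) * (μ + 1) = 2 * s * (μ + 1) + s * (μ + 1) := by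
      rw [show 4 * s - s = 3 * s by omega]
      ring
    have h2 : 1 * (μ + 1) ≤ s * (μ + 1) := Nat.mul_le_mul_right _ (by omega)
    omega
  · rw [hr, Nat.le_div_iff_mul_le (Nat.mul_pos hA hw1)]
    calc (2 * μ + 1) * (A * w) ≤ (4 * μ) * (A * w) := Nat.mul_le_mul_right _ (by omega)
      _ = A * μ * (4 * w) := by ring
      _ ≤ A * μ * (128 * s) := Nat.mul_le_mul_left _ (by omega)
      _ = 64 * A * (2 * s * μ) := by ring
      _ ≤ 64 * A * k := Nat.mul_le_mul_left _ hμ1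
      _ ≤ n := hk2
  · calc 4 * (S ^ 2 * ((2 * w) ^ μ * (μ * w))) * 2 ^ (k - G + μ + 1 + s)
        ≤ 2 ^ 2 * ((2 ^ (L * Q)) ^ 2 * ((2 ^ (L + 1)) ^ μ * (2 ^ μ * 2 ^ L))) *
          2 ^ (k - G + μ + 1 + s) := by
          have h1 : 2 * w ≤ 2 ^ (L + 1) := by
            rw [pow_succ]
            omega
          have h2 : μ ≤ 2 ^ μ := Nat.lt_two_pow_self.le
          have h3 : w ≤ 2 ^ L := hwL.le
          gcongr
          norm_num
      _ = 2 ^ (2 + (2 * (L * Q) + ((L + 1) * μ + (μ + L))) + (k - G + μ + 1 + s)) := by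
          rw [← pow_mul, ← pow_mul, ← pow_add, ← pow_add, ← pow_add, ← pow_add, ← pow_add]
          congr 1
          ring
      _ ≤ 2 ^ k := by
          refine Nat.pow_le_pow_right (by norm_num) ?_
          have h1 : μ * (L + 3) = L * μ + 3 * μ := by ring
          have h2 : (L + 1) * μ = L * μ + μ := by ring
          omega
  · calc 4 * S * 2 ^ k ≤ 2 ^ 2 * 2 ^ (L * Q) * 2 ^ k := by
          gcongr
          norm_num
      _ = 2 ^ (2 + L * Q + k) := by
          rw [← pow_add, ← pow_add]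
      _ ≤ 2 ^ (k - G + g) := Nat.pow_le_pow_right (by norm_num) (by omega)
  · obtain ⟨j, rfl⟩ : ∃ j, s = j + 1 := ⟨s - 1, by omega⟩
    obtain ⟨B, hB⟩ : ∃ B, B = 2 ^ ((L + 1) / 2) := ⟨_, rfl⟩
    have hB0 : 0 < B := by
      rw [hB]
      positivity
    have hB2 : w ≤ B ^ 2 := by
      rw [hB, ← pow_mul]
      refine le_trans hwL.le (Nat.pow_le_pow_right (by norm_num) (by omega))
    have hLB : L * B * 2 ^ 8 ≤ 2 ^ L := by
      rw [hB]
      exact two_pow_ge L hL61
    have hgB : g * B ≤ k := by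
      have h1 : L * B ≤ j + 1 := by omega
      have h2 : L * (g * B) ≤ L * k := by
        calc L * (g * B) = g * (L * B) := by ring
          _ ≤ g * (j + 1) := Nat.mul_le_mul_left _ h1
          _ ≤ L * k := hgs
      exact Nat.le_of_mul_le_mul_left h2 (by omega)
    have hg1 : 0 < g := by omega
    have h2j : 2 * j ≤ g := by omega
    have h1 := binSum_le h2j
    have h2 := choose_scale hg1 hB0 hgB j
    have hpos : 0 < g.choose j := Nat.choose_pos (by omega)
    have h3 : S * (j + 1) < B ^ j := by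
      have hQ2 : 2 * (Q + 1) ≤ j := by omega
      calc S * (j + 1) < w ^ Q * (j + 1) := by
            rw [hQ]
            exact Nat.mul_lt_mul_of_pos_right hS (Nat.succ_pos j)
        _ ≤ w ^ Q * w := Nat.mul_le_mul_left _ (by omega)
        _ = w ^ (Q + 1) := (pow_succ w Q).symm
        _ ≤ (B ^ 2) ^ (Q + 1) := Nat.pow_le_pow_left hB2 _
        _ = B ^ (2 * (Q + 1)) := (pow_mul B 2 (Q + 1)).symm
        _ ≤ B ^ j := Nat.pow_le_pow_right hB0 hQ2
    calc S * binSum g (j + 1) ≤ S * ((j + 1) * g.choose j) := Nat.mul_le_mul_left _ h1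
      _ = g.choose j * (S * (j + 1)) := by ring
      _ < g.choose j * B ^ j := Nat.mul_lt_mul_of_pos_left h3 hpos
      _ ≤ k.choose j := h2
      _ ≤ binSum k (j + 1) := le_binSum

end Pool.Agent.MP_9cec2c_lc.ParTrade
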