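import Mathlib

/-!
Resolution over parities for random CNFs.
-/

set_option autoImplicit false

namespace Pool.Agent.MP_9cec2c_lc.ParTrade

/-- A clause: a finite set of literals, read as their disjunction. The literal `l` is the variable
`l.1` if `l.2` is true, and its negation if `l.2` is false. -/
abbrev Clause (V : Type) : Type := Finset (V × Bool)

/-- The assignment `x` satisfies the clause `C`. -/
def Holds {V : Type} (x : V → Bool) (C : Clause V) : Prop := ∃ l ∈ C, x l.1 = l.2

/-- A line: a finite set of linear equations modulo 2, read as their disjunction. The equation `e`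
says that the number of true variables in `e.1` is odd if `e.2` is true, and even otherwise. -/
abbrev Line (V : Type) : Type := Finset (Finset V × Bool)

/-- The assignment `x` satisfies the line `L`. -/
def Sat {V : Type} (x : V → Bool) (L : Line V) : Prop :=
  ∃ e ∈ L, (Odd (e.1.filter fun v => x v = true).card ↔ e.2 = true)

/-- The lines `L 0, ..., L (S - 1)` form a refutation of `F` of depth at most `D`. Some line is
false for all assignments. Each line is implied by a clause of `F` or by two lines of smaller
height, where the heights `h i` are at most `D`. -/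
def IsRefutation {V : Type} (F : Finset (Clause V)) (D : ℕ) {S : ℕ} (L : Fin S → Line V) : Prop :=
  (∃ i, ∀ x, ¬ Sat x (L i)) ∧ ∃ h : Fin S → ℕ, ∀ i, h i ≤ D ∧
    ((∃ C ∈ F, ∀ x, Holds x C → Sat x (L i)) ∨
      ∃ j k, h j < h i ∧ h k < h i ∧ ∀ x, Sat x (L j) → Sat x (L k) → Sat x (L i))

/-- The CNF `F` is unsatisfiable, and every refutation of `F` with `S` lines and depth at most `D`
has `2 ^ (N / D) ≤ S`. -/
def Hard {n : ℕ} (N : ℕ) (F : Finset (Clause (Fin n))) : Prop :=
  (∀ x, ∃ C ∈ F, ¬ Holds x C) ∧
    ∀ (S D : ℕ) (L : Fin S → Line (Fin n)), IsRefutation F D L → 2 ^ (N / D) ≤ S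

/-- A list of `m` clauses with `w` literals. The variables of the clause `i` are the values of the
injection `(f i).1`, their signs are `(f i).2`. -/
abbrev ClauseList (n m w : ℕ) : Type := Fin m → (Fin w ↪ Fin n) × (Fin w → Bool)

/-- The CNF with the clauses of the list. -/
def toCNF {n m w : ℕ} (f : ClauseList n m w) : Finset (Clause (Fin n)) :=
  Finset.univ.image fun i => Finset.univ.image fun e => ((f i).1 e, (f i).2 e)

end Pool.Agent.MP_9cec2c_lc.ParTrade
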