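import Pool.Agent.Lib.MP_9cec2c_lc.PTPhase
import Pool.Agent.Lib.MP_9cec2c_lc.PTDefs

/-!
The lower bound for CNFs whose clauses are spread out.
-/

set_option autoImplicit false
set_option linter.unusedSectionVars false

namespace Pool.Agent.MP_9cec2c_lc.ParTrade

open Finset

variable {n m w : ℕ}

/-- The parity of the number of true variables in `I`. -/
def parity (I : Finset (Fin n)) (x : Fin n → Bool) : ZMod 2 := ∑ v ∈ I, if x v then 1 else 0

theorem parity_add3 (I : Finset (Fin n)) (x y z : Fin n → Bool) :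
    parity I (add3 x y z) = parity I x + parity I y + parity I z := by
  unfold parity add3
  rw [← sum_add_distrib, ← sum_add_distrib]
  refine sum_congr rfl fun v _ => ?_
  cases x v <;> cases y v <;> cases z v <;> decide

theorem parity_odd (I : Finset (Fin n)) (x : Fin n → Bool) :
    Odd (I.filter fun v => x v = true).card ↔ parity I x = 1 := by
  have h1 : parity I x = ((I.filter fun v => x v = true).card : ZMod 2) := by
    unfold parity
    rw [card_filter]
    push_cast
    rfl
  rw [h1, ZMod.natCast_eq_one_iff_odd]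

/-- The points at which a line is false form an affine set. -/
theorem aff_false (L : Line (Fin n)) (B : Finset (Fin n → Bool)) (hB : ∀ x, x ∈ B ↔ ¬ Sat x L) :
    IsAff B := by
  intro x hx y hy z hz
  rw [hB] at *
  rintro ⟨e, he, heq⟩
  have h0 : ∀ x : Fin n → Bool, ¬ Sat x L → ¬ (parity e.1 x = 1 ↔ e.2 = true) := by
    intro x hx hcon
    exact hx ⟨e, he, (parity_odd e.1 x).trans hcon⟩
  have hx' := h0 x hx
  have hy' := h0 y hy
  have hz' := h0 z hz
  rw [parity_odd, parity_add3] at heq
  revert hx' hy' hz' heq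
  generalize parity e.1 x = a
  generalize parity e.1 y = b
  generalize parity e.1 z = c
  generalize e.2 = d
  revert a b c d
  decide

open scoped Classical in
/-- The pattern that falsifies the clause `i`. -/
noncomputable def fpat (f : ClauseList n m w) (i : Fin m) (v : Fin n) : Bool :=
  decide (∃ e, (f i).1 e = v ∧ (f i).2 e = false)

/-- The variables of the clause `i`. -/
def cvars (f : ClauseList n m w) (i : Fin m) : Finset (Fin n) := univ.image (f i).1

theorem false_iff (f : ClauseList n m w) (i : Fin m) (x : Fin n → Bool) :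
    ¬ Holds x (univ.image fun e => ((f i).1 e, (f i).2 e)) ↔
      ∀ v ∈ cvars f i, x v = fpat f i v := by
  unfold Holds cvars
  constructor
  · intro h v hv
    obtain ⟨e, -, rfl⟩ := mem_image.1 hv
    have h1 : x ((f i).1 e) ≠ (f i).2 e := fun hcon =>
      h ⟨((f i).1 e, (f i).2 e), mem_image_of_mem _ (mem_univ e), hcon⟩
    unfold fpat
    by_cases h2 : (f i).2 e = false
    · rw [h2] at h1
      rw [decide_eq_true ⟨e, rfl, h2⟩]
      simpa using h1
    · rw [Bool.not_eq_false] at h2
      rw [h2] at h1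
      rw [decide_eq_false]
      · simpa using h1
      · rintro ⟨e', he', he''⟩
        have := (f i).1.injective he'
        rw [this, h2] at he''
        exact absurd he'' (by simp)
  · rintro h ⟨l, hl, hx⟩
    obtain ⟨e, -, rfl⟩ := mem_image.1 hl
    have h1 := h _ (mem_image_of_mem _ (mem_univ e))
    simp only at hx
    rw [hx] at h1
    unfold fpat at h1
    cases h2 : (f i).2 e
    · rw [h2, decide_eq_true ⟨e, rfl, h2⟩] at h1
      exact absurd h1 (by simp)
    · rw [h2] at h1
      have h3 := h1.symm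
      rw [decide_eq_true_eq] at h3
      obtain ⟨e', he', he''⟩ := h3
      have := (f i).1.injective he'
      rw [this, h2] at he''
      exact absurd he'' (by simp)

/-- The numbers. -/
theorem numbers {n A K r t : ℕ} (hA : 1 ≤ A) (hK : K = 32768 * (A * A)) (hn : K ≤ n)
    (hr : r = n / A) (ht : t = r / 16) :
    4 * (t + t) + 4 ≤ r ∧ 2 ≤ t ∧ 8 * (n ^ 2 / K) ≤ t * t := by
  have hAA : A ≤ A * A := Nat.le_mul_of_pos_right _ hA
  have hnA : 32768 * A ≤ n := by omega
  have hlt : n < A * (r + 1) := by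
    rw [hr]
    exact Nat.lt_mul_div_succ n hA
  have h32 : 32767 ≤ r := by
    by_contra hcon
    have h1 : A * (r + 1) ≤ A * 32767 := Nat.mul_le_mul_left _ (by omega)
    omega
  have h2r : n ≤ 2 * (A * r) := by
    have h1 : A * (r + 1) = A * r + A := by ring
    omega
  have h64 : n ≤ 64 * (A * t) := by
    calc n ≤ 2 * (A * r) := h2r
      _ ≤ 2 * (A * (32 * t)) := by
        have h1 : r ≤ 32 * t := by omega
        gcongr
      _ = 64 * (A * t) := by ring
  refine ⟨by omega, by omega, ?_⟩
  have h1 : K * (n ^ 2 / K) ≤ n ^ 2 := Nat.mul_div_le _ _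
  have h2 : n ^ 2 ≤ 4096 * (A * A) * (t * t) := by
    calc n ^ 2 = n * n := by ring
      _ ≤ 64 * (A * t) * (64 * (A * t)) := Nat.mul_le_mul h64 h64
      _ = 4096 * (A * A) * (t * t) := by ring
  rw [hK] at h1 ⊢
  obtain ⟨N, hN⟩ : ∃ N, N = n ^ 2 / (32768 * (A * A)) := ⟨_, rfl⟩
  rw [← hN] at h1 ⊢
  refine Nat.le_of_mul_le_mul_left (c := 4096 * (A * A)) ?_
    (Nat.mul_pos (by norm_num) (Nat.mul_pos hA hA))
  calc 4096 * (A * A) * (8 * N) = 32768 * (A * A) * N := by ring
    _ ≤ n ^ 2 := h1
    _ ≤ 4096 * (A * A) * (t * t) := h2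

/-- The lower bound for CNFs whose clauses are spread out. -/
theorem det_bound {A K r : ℕ} (hA : 1 ≤ A) (hK : K = 32768 * (A * A)) (hn : K ≤ n)
    (hr : r = n / A) {f : ClauseList n m w} (hf : Spr r (cvars f)) {S D : ℕ}
    {L : Fin S → Line (Fin n)} (href : IsRefutation (toCNF f) D L) :
    2 ^ (n ^ 2 / K / D) ≤ S := by
  classical
  obtain ⟨t, ht⟩ : ∃ t, t = r / 16 := ⟨_, rfl⟩
  obtain ⟨hsum, ht2, h8⟩ := numbers hA hK hn hr ht
  obtain ⟨⟨u0, hu0⟩, h, hh⟩ := href
  obtain ⟨B, hB⟩ : ∃ B : Fin S → Finset (Fin n → Bool), ∀ u x, x ∈ B u ↔ ¬ Sat x (L u) :=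
    ⟨fun u => univ.filter fun x => ¬ Sat x (L u), fun u x => by simp⟩
  have hBaff : ∀ u, IsAff (B u) := fun u => aff_false (L u) (B u) (hB u)
  have hstep : ∀ u, (∃ i, ∀ x ∈ B u, ∀ v ∈ cvars f i, x v = fpat f i v) ∨
      ∃ j k, h j < h u ∧ h k < h u ∧ B u ⊆ B j ∪ B k := by
    intro u
    rcases (hh u).2 with ⟨C, hC, hi⟩ | ⟨j, k, hj, hk, hjk⟩
    · left
      obtain ⟨i, -, rfl⟩ := mem_image.1 hC
      refine ⟨i, fun x hx => ?_⟩
      rw [hB] at hx
      exact (false_iff f i x).1 fun hcon => hx (hi x hcon)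
    · right
      refine ⟨j, k, hj, hk, fun x hx => ?_⟩
      rw [hB] at hx
      rw [mem_union, hB, hB]
      by_contra hcon
      push Not at hcon
      exact hx (hjk x hcon.1 hcon.2)
  by_contra hcon
  rw [not_le] at hcon
  by_cases hD : D < t
  · refine no_ref (J := 1) (q := 0) (t := t) (D := D) hBaff hstep hf (by omega)
      (fun u => ?_) (fun u => (hh u).1) (by omega) u0 fun x => (hB u0 x).2 (hu0 x)
    have h1 : {u' | h u' + t ≤ h u} = (∅ : Set (Fin S)) := by
      rw [Set.eq_empty_iff_forall_notMem]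
      intro u' hu'
      have h2 : h u' + t ≤ h u := hu'
      have h3 := (hh u).1
      omega
    rw [h1, Set.ncard_empty]
    exact Nat.zero_le _
  · rw [not_lt] at hD
    obtain ⟨q, hq⟩ : ∃ q, q = n ^ 2 / K / D := ⟨_, rfl⟩
    rw [← hq] at hcon
    have hS : 0 < S := u0.pos
    have hq1 : 1 ≤ q := by
      by_contra h0
      have h1 : q = 0 := by omega
      rw [h1, pow_zero] at hcon
      omega
    have ht0 : 0 < t := by omega
    have hDt : 1 ≤ D / t := (Nat.one_le_div_iff ht0).2 hD
    have hJq : (D / t + 1) * (2 * q + 2) ≤ t := by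
      refine Nat.le_of_mul_le_mul_right (c := t) ?_ ht0
      have e1 : D * q ≤ n ^ 2 / K := by
        rw [hq]
        exact Nat.mul_div_le _ _
      calc (D / t + 1) * (2 * q + 2) * t ≤ (2 * (D / t)) * (4 * q) * t :=
            Nat.mul_le_mul_right _ (Nat.mul_le_mul (by omega) (by omega))
        _ = 8 * (D / t * t * q) := by ring
        _ ≤ 8 * (D * q) := Nat.mul_le_mul_left _
            (Nat.mul_le_mul_right _ (Nat.div_mul_le_self D t))
        _ ≤ 8 * (n ^ 2 / K) := Nat.mul_le_mul_left _ e1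
        _ ≤ t * t := h8
    refine no_ref (J := D / t + 1) (q := q) (t := t) (D := D) hBaff hstep hf
      (by omega) (fun u => ?_) (fun u => (hh u).1) ?_ u0 fun x => (hB u0 x).2 (hu0 x)
    · refine le_trans (Set.ncard_le_card _) ?_
      rw [Nat.card_eq_fintype_card, Fintype.card_fin]
      exact hcon.le
    · have := Nat.lt_div_mul_add (a := D) ht0
      rw [add_mul, one_mul]
      exact this

end Pool.Agent.MP_9cec2c_lc.ParTrade
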