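import Pool.Agent.Lib.MP_9cec2c_lc.PTStep

/-!
Walks in a refutation, and restarts.
-/

set_option autoImplicit false
set_option linter.unusedSectionVars false

namespace Pool.Agent.MP_9cec2c_lc.ParTrade

open Finset

variable {V : Type*} [Fintype V] [DecidableEq V] {U : Type*}
variable {ι : Type*} [Fintype ι] [DecidableEq ι]

/-- Few clauses have many variables. -/
def Spr (r : ℕ) (Z : ι → Finset V) : Prop :=
  ∀ M : Finset ι, M.card ≤ r → 5 * M.card ≤ 2 * (M.biUnion Z).card

/-- The state of a walk: the variables of the clauses in `N` are known, and these clauses are true;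
the other clauses are free. -/
structure State (r g : ℕ) (Z : ι → Finset V) (a : ι → V → Bool) (X : Finset (V → Bool))
    (N : Finset ι) : Prop where
  aff : IsAff X
  ne : X.Nonempty
  card : N.card ≤ r
  fix : ∀ i ∈ N, ∀ w ∈ Z i, ∀ x ∈ X, ∀ y ∈ X, x w = y w
  sat : ∀ i ∈ N, ∀ x ∈ X, ¬ ∀ w ∈ Z i, x w = a i w
  rich : ∀ M : Finset ι, M.Nonempty → Disjoint N M → N.card + M.card ≤ r →
    2 * M.card + 1 ≤ rk X (M.biUnion Z)
  size : Fintype.card V ≤ dim X + g + 2 * N.card

variable {r g : ℕ} {Z : ι → Finset V} {a : ι → V → Bool}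

theorem State.small (hZ : Spr r Z) {X : Finset (V → Bool)} {N : Finset ι}
    (h : State r g Z a X N) : N.card ≤ 2 * g := by
  obtain ⟨x, hx⟩ := h.ne
  have h1 := dim_le h.aff h.ne (N.biUnion Z)
  have h2 : rk X (N.biUnion Z) = 0 := by
    refine rk_fixed (a := x) fun y hy w hw => ?_
    obtain ⟨i, hi, hwi⟩ := mem_biUnion.1 hw
    exact h.fix i hi w hwi y hy x hx
  have h3 := hZ N h.card
  have h4 := h.size
  omega

/-- Read the variables of some clauses, keeping these clauses true. -/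
theorem read_clauses {T : Finset U} {A : U → Finset (V → Bool)} (hA : ∀ u, IsAff (A u))
    {X : Finset (V → Bool)} (hX : IsAff X) (hne : X.Nonempty) (M : Finset ι)
    (hM : ∀ N ⊆ M, 2 * N.card ≤ rk X (N.biUnion Z)) :
    ∃ x ∈ X, Phi T A (sec X (M.biUnion Z) x) ≤ Phi T A X ∧
      ∀ i ∈ M, ¬ ∀ w ∈ Z i, x w = a i w := by
  classical
  rcases M.eq_empty_or_nonempty with rfl | ⟨i, hi⟩
  · obtain ⟨x, hx, hle⟩ := read_set T A ((∅ : Finset ι).biUnion Z) X hX hne
    exact ⟨x, hx, hle, fun i hi => absurd hi (notMem_empty i)⟩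
  · obtain ⟨v0, -⟩ : (Z i).Nonempty := by
      have h1 := hM {i} (singleton_subset_iff.2 hi)
      rw [singleton_biUnion, card_singleton] at h1
      have h2 := rk_le_card X (Z i)
      exact card_pos.1 (by omega)
    obtain ⟨p, q, hpq, hr⟩ := pairs hX hne Z M hM v0
    obtain ⟨x, hx, hle, hx'⟩ := read_pairs T hA p q a M X hX hne hr
    obtain ⟨y, hy, hle'⟩ := read_set T A (M.biUnion Z) _ (hX.sec _ x) ⟨x, self_mem_sec hx⟩
    have hy2 := mem_sec.1 hy
    have hsub : (M.biUnion fun i => ({p i, q i} : Finset V)) ∪ M.biUnion Z = M.biUnion Z := by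
      refine union_eq_right.2 fun w hw => ?_
      obtain ⟨j, hj, hw⟩ := mem_biUnion.1 hw
      rw [mem_insert, mem_singleton] at hw
      refine mem_biUnion.2 ⟨j, hj, ?_⟩
      rcases hw with rfl | rfl
      · exact (hpq j hj).1
      · exact (hpq j hj).2
    refine ⟨y, hy2.1, ?_, fun j hj hcon => hx' j hj ⟨?_, ?_⟩⟩
    · rw [sec_eq_of_mem hy, sec_sec, hsub, ← sec_eq_of_mem hy] at hle'
      exact hle'.trans hle
    · rw [← hcon _ (hpq j hj).1]
      exact (hy2.2 _ (mem_biUnion.2 ⟨j, hj, by simp⟩)).symm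
    · rw [← hcon _ (hpq j hj).2]
      exact (hy2.2 _ (mem_biUnion.2 ⟨j, hj, by simp⟩)).symm

/-- Halving the set, and learning the clauses that are no longer free. -/
theorem State.half {T : Finset U} {A : U → Finset (V → Bool)} (hA : ∀ u, IsAff (A u))
    {X X' : Finset (V → Bool)} {N : Finset ι} (h : State r g Z a X N) (hX' : IsAff X')
    (hne : X'.Nonempty) (hs : X' ⊆ X) (hc : X.card = 2 * X'.card) :
    ∃ Y N', State r (g + 1) Z a Y N' ∧ Y ⊆ X' ∧ N ⊆ N' ∧ Phi T A Y ≤ Phi T A X' := by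
  classical
  obtain ⟨M, hM, hmax⟩ := exists_max_image (univ.filter fun M : Finset ι =>
    Disjoint N M ∧ N.card + M.card ≤ r ∧ rk X' (M.biUnion Z) ≤ 2 * M.card)
    (fun M => M.card) ⟨∅, mem_filter.2 ⟨mem_univ _, disjoint_empty_right _, by
      rw [card_empty, add_zero]
      exact h.card, by
      rw [biUnion_empty]
      exact (rk_le_card _ _).trans (by simp)⟩⟩
  obtain ⟨-, hMd, hMr, hMk⟩ := mem_filter.1 hM
  obtain ⟨x, hx, hle, hsat⟩ := read_clauses (T := T) (Z := Z) (a := a) hA hX' hne M fun N' hN' => by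
    rcases N'.eq_empty_or_nonempty with rfl | hn
    · rw [card_empty, mul_zero]
      exact Nat.zero_le _
    · have h1 := h.rich N' hn (hMd.mono_right hN') (by
        have := card_le_card hN'
        omega)
      have h2 := rk_half h.aff hX' hs hc.le hne (N'.biUnion Z)
      omega
  have hsec : sec X' (M.biUnion Z) x ⊆ X' := sec_subset
  refine ⟨sec X' (M.biUnion Z) x, N ∪ M, ⟨hX'.sec _ _, ⟨x, self_mem_sec hx⟩, ?_, ?_, ?_, ?_, ?_⟩,
    hsec, subset_union_left, hle⟩
  · rw [card_union_of_disjoint hMd]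
    exact hMr
  · intro i hi w hw y hy y' hy'
    rcases mem_union.1 hi with hi | hi
    · exact h.fix i hi w hw y (hs (hsec hy)) y' (hs (hsec hy'))
    · rw [(mem_sec.1 hy).2 w (mem_biUnion.2 ⟨i, hi, hw⟩),
        (mem_sec.1 hy').2 w (mem_biUnion.2 ⟨i, hi, hw⟩)]
  · intro i hi y hy hcon
    rcases mem_union.1 hi with hi | hi
    · exact h.sat i hi y (hs (hsec hy)) hcon
    · refine hsat i hi fun w hw => ?_
      rw [← hcon w hw, (mem_sec.1 hy).2 w (mem_biUnion.2 ⟨i, hi, hw⟩)]
  · intro M' hM' hd hcard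
    rw [card_union_of_disjoint hMd] at hcard
    rw [disjoint_union_left] at hd
    have h1 : 2 * (M ∪ M').card < rk X' ((M ∪ M').biUnion Z) := by
      by_contra hcon
      rw [not_lt] at hcon
      have h2 := hmax (M ∪ M') (mem_filter.2 ⟨mem_univ _, disjoint_union_right.2 ⟨hMd, hd.1⟩, by
        rw [card_union_of_disjoint hd.2]
        omega, hcon⟩)
      rw [card_union_of_disjoint hd.2] at h2
      have := card_pos.2 hM'
      omega
    rw [card_union_of_disjoint hd.2, union_biUnion, rk_union hX' hx] at h1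
    omega
  · have h1 := h.size
    have h2 := dim_sec hX' hx (M.biUnion Z)
    have h3 : dim X = dim X' + 1 := by
      have e1 := card_dim h.aff h.ne
      have e2 := card_dim hX' hne
      rw [e1, e2] at hc
      refine pow_inj ?_
      rw [hc, pow_succ]
      ring
    rw [card_union_of_disjoint hMd]
    omega

/-- A walk of `t` steps. -/
theorem State.walk {T : Finset U} {A : U → Finset (V → Bool)} {h : U → ℕ}
    (hA : ∀ u, IsAff (A u))
    (hstep : ∀ u, (∃ i, ∀ x ∈ A u, ∀ w ∈ Z i, x w = a i w) ∨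
      ∃ j k, h j < h u ∧ h k < h u ∧ A u ⊆ A j ∪ A k)
    (hZ : Spr r Z) {u : U} {X : Finset (V → Bool)} {N : Finset ι} (hX : State r g Z a X N)
    (hu : X ⊆ A u) (t : ℕ) (ht : 2 * (g + t) < r) :
    ∃ u' X' N', State r (g + t) Z a X' N' ∧ X' ⊆ A u' ∧ X' ⊆ X ∧ N ⊆ N' ∧ h u' + t ≤ h u ∧
      Phi T A X' ≤ Phi T A X := by
  classical
  induction t with
  | zero => exact ⟨u, X, N, hX, hu, Subset.refl _, Subset.refl _, le_rfl, le_rfl⟩
  | succ t ih =>
    obtain ⟨u1, X1, N1, hX1, hu1, hsub, hN1, hh, hPhi⟩ := ih (by omega)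
    have hsmall := hX1.small hZ
    rcases hstep u1 with ⟨i, hi⟩ | ⟨j, k, hj, hk, hjk⟩
    · exfalso
      obtain ⟨x, hx⟩ := hX1.ne
      by_cases hiN : i ∈ N1
      · exact hX1.sat i hiN x hx (hi x (hu1 hx))
      · have h1 := hX1.rich {i} (singleton_nonempty i) (disjoint_singleton_right.2 hiN) (by
          rw [card_singleton]
          omega)
        rw [singleton_biUnion, rk_fixed (a := a i) fun y hy => hi y (hu1 hy)] at h1
        omega
    · rcases aff_split hX1.aff (hA j) (hA k) (hu1.trans hjk) with hs | hs | ⟨hd, hun, hc, h2⟩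
      · refine ⟨j, X1, N1, ⟨hX1.aff, hX1.ne, hX1.card, hX1.fix, hX1.sat, hX1.rich, ?_⟩, hs, hsub,
          hN1, by omega, hPhi⟩
        have := hX1.size
        omega
      · refine ⟨k, X1, N1, ⟨hX1.aff, hX1.ne, hX1.card, hX1.fix, hX1.sat, hX1.rich, ?_⟩, hs, hsub,
          hN1, by omega, hPhi⟩
        have := hX1.size
        omega
      · have hpos := card_pos.2 hX1.ne
        rcases Phi_halves T A hd hun hc with hle | hle
        · obtain ⟨Y, N', hY, hYs, hN', hYP⟩ := hX1.half (T := T) hA (hX1.aff.inter (hA j))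
            (card_pos.1 (by omega)) inter_subset_left h2.symm
          exact ⟨j, Y, N', hY, hYs.trans inter_subset_right, hYs.trans (inter_subset_left.trans hsub),
            hN1.trans hN', by omega, hYP.trans (hle.trans hPhi)⟩
        · obtain ⟨Y, N', hY, hYs, hN', hYP⟩ := hX1.half (T := T) hA (hX1.aff.inter (hA k))
            (card_pos.1 (by omega)) inter_subset_left (by omega)
          exact ⟨k, Y, N', hY, hYs.trans inter_subset_right, hYs.trans (inter_subset_left.trans hsub),
            hN1.trans hN', by omega, hYP.trans (hle.trans hPhi)⟩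

/-- A restart. -/
theorem State.restart {g1 g2 : ℕ} (hZ : Spr r Z) {B Bu X : Finset (V → Bool)} {M N : Finset ι}
    (hB : State r g Z a B M) (hX : State r g1 Z a X N) (hBu : IsAff Bu) (hs1 : Bu ⊆ B)
    (hs2 : X ⊆ Bu) (hMN : M ⊆ N) (hg2 : Fintype.card V ≤ dim Bu + g2 + 2 * M.card)
    (h1 : 4 * g1 < r) (h2 : 4 * g2 + 4 ≤ r) :
    ∃ B' M', State r g2 Z a B' M' ∧ B' ⊆ Bu := by
  classical
  obtain ⟨x, hx⟩ := hX.ne
  have hxu := hs2 hx
  have hN := hX.small hZ
  obtain ⟨K, hK, hmax⟩ := exists_max_image (univ.filter fun K : Finset ι =>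
    M ⊆ K ∧ K ⊆ N ∧ rk Bu (K.biUnion Z) + 2 * M.card ≤ 2 * K.card)
    (fun K => K.card) ⟨M, mem_filter.2 ⟨mem_univ _, Subset.refl _, hMN, by
      have : rk Bu (M.biUnion Z) = 0 := by
        refine rk_fixed (a := x) fun y hy w hw => ?_
        obtain ⟨i, hi, hwi⟩ := mem_biUnion.1 hw
        exact hB.fix i hi w hwi y (hs1 hy) x (hs1 hxu)
      omega⟩⟩
  obtain ⟨-, hMK, hKN, hKr⟩ := mem_filter.1 hK
  have hKc : K.card ≤ N.card := card_le_card hKN
  have hNr := hX.card
  have haff := hBu.sec (K.biUnion Z) x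
  have hxs : x ∈ sec Bu (K.biUnion Z) x := self_mem_sec hxu
  have hdim := dim_sec hBu hxu (K.biUnion Z)
  have hMKc := card_le_card hMK
  refine ⟨sec Bu (K.biUnion Z) x, K, ⟨haff, ⟨x, hxs⟩, by omega, ?_, ?_, ?_, by omega⟩, sec_subset⟩
  · intro i hi w hw y hy y' hy'
    rw [(mem_sec.1 hy).2 w (mem_biUnion.2 ⟨i, hi, hw⟩),
      (mem_sec.1 hy').2 w (mem_biUnion.2 ⟨i, hi, hw⟩)]
  · intro i hi y hy hcon
    refine hX.sat i (hKN hi) x hx fun w hw => ?_
    rw [← hcon w hw, (mem_sec.1 hy).2 w (mem_biUnion.2 ⟨i, hi, hw⟩)]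
  · intro M' hM' hd hcard
    by_cases hbig : r ≤ 2 * (K.card + M'.card)
    · have e1 := dim_le haff ⟨x, hxs⟩ ((K ∪ M').biUnion Z)
      have e2 := hZ (K ∪ M') (by
        rw [card_union_of_disjoint hd]
        exact hcard)
      rw [card_union_of_disjoint hd] at e2
      have e3 : rk (sec Bu (K.biUnion Z) x) ((K ∪ M').biUnion Z) =
          rk (sec Bu (K.biUnion Z) x) (M'.biUnion Z) := by
        rw [union_biUnion, rk_union haff hxs, sec_sec, union_self]
        rw [rk_fixed (a := x) (fun y hy => (mem_sec.1 hy).2), zero_add]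
      rw [e3] at e1
      omega
    · have hsplit : M' = (M' ∩ N) ∪ (M' \ N) := by
        ext i
        simp only [mem_union, mem_inter, mem_sdiff]
        tauto
      have hcs : M'.card = (M' ∩ N).card + (M' \ N).card := by
        rw [add_comm]
        exact (card_sdiff_add_card_inter M' N).symm
      have e1 : rk (sec Bu (K.biUnion Z) x) (M'.biUnion Z) =
          rk (sec Bu (K.biUnion Z) x) ((M' ∩ N).biUnion Z) +
          rk (sec Bu (K.biUnion Z ∪ (M' ∩ N).biUnion Z) x) ((M' \ N).biUnion Z) := by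
        conv_lhs => rw [hsplit]
        rw [union_biUnion, rk_union haff hxs, sec_sec]
      have e2 : rk X ((M' \ N).biUnion Z) ≤
          rk (sec Bu (K.biUnion Z ∪ (M' ∩ N).biUnion Z) x) ((M' \ N).biUnion Z) := by
        refine rk_mono_left (fun y hy => mem_sec.2 ⟨hs2 hy, fun w hw => ?_⟩) _
        rcases mem_union.1 hw with hw | hw
        · obtain ⟨i, hi, hwi⟩ := mem_biUnion.1 hw
          exact hX.fix i (hKN hi) w hwi y hy x hx
        · obtain ⟨i, hi, hwi⟩ := mem_biUnion.1 hw
          exact hX.fix i (mem_inter.1 hi).2 w hwi y hy x hx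
      have e3 : (M' \ N).Nonempty → 2 * (M' \ N).card + 1 ≤ rk X ((M' \ N).biUnion Z) := by
        intro hn
        refine hX.rich _ hn disjoint_sdiff (by omega)
      have e4 : (M' ∩ N).Nonempty → 2 * (M' ∩ N).card + 1 ≤
          rk (sec Bu (K.biUnion Z) x) ((M' ∩ N).biUnion Z) := by
        intro hn
        have hd' : Disjoint K (M' ∩ N) := hd.mono_right inter_subset_left
        have h3 : 2 * (K ∪ (M' ∩ N)).card < rk Bu ((K ∪ (M' ∩ N)).biUnion Z) + 2 * M.card := by
          by_contra hcon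
          rw [not_lt] at hcon
          have h4 := hmax (K ∪ (M' ∩ N)) (mem_filter.2 ⟨mem_univ _,
            hMK.trans subset_union_left, union_subset hKN inter_subset_right, hcon⟩)
          rw [card_union_of_disjoint hd'] at h4
          have := card_pos.2 hn
          omega
        rw [card_union_of_disjoint hd', union_biUnion, rk_union hBu hxu] at h3
        omega
      have hpos := card_pos.2 hM'
      rcases (M' ∩ N).eq_empty_or_nonempty with hz | hz
      · have h3 : (M' ∩ N).card = 0 := by rw [hz, card_empty]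
        have := e3 (card_pos.1 (by omega))
        omega
      · have h4 := e4 hz
        rcases (M' \ N).eq_empty_or_nonempty with hz' | hz'
        · have h3 : (M' \ N).card = 0 := by rw [hz', card_empty]
          omega
        · have := e3 hz'
          omega

/-- One phase: a walk and a restart. -/
theorem State.phase [Fintype U] {A : U → Finset (V → Bool)} {h : U → ℕ}
    (hA : ∀ u, IsAff (A u))
    (hstep : ∀ u, (∃ i, ∀ x ∈ A u, ∀ w ∈ Z i, x w = a i w) ∨
      ∃ j k, h j < h u ∧ h k < h u ∧ A u ⊆ A j ∪ A k)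
    (hZ : Spr r Z) {u : U} {B : Finset (V → Bool)} {M : Finset ι} (hB : State r g Z a B M)
    (hu : B ⊆ A u) {q t : ℕ} (ht : 4 * (g + t) < r) (hq4 : 4 * (g + (2 * q + 2)) + 4 ≤ r)
    (hq : {u' | h u' + t ≤ h u}.ncard ≤ 2 ^ q) :
    ∃ u' B' M', State r (g + (2 * q + 2)) Z a B' M' ∧ B' ⊆ A u' ∧ h u' + t ≤ h u := by
  classical
  obtain ⟨T0, hT0⟩ : ∃ T0 : Finset U, T0 = univ.filter fun u' => h u' + t ≤ h u := ⟨_, rfl⟩
  have hTc : T0.card ≤ 2 ^ q := by
    have : {u' | h u' + t ≤ h u}.ncard = T0.card := by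
      rw [Set.ncard_eq_toFinset_card', hT0]
      congr 1
      ext u'
      simp
    omega
  obtain ⟨T, hT⟩ : ∃ T : Finset U, T = T0.filter fun u' =>
    (B ∩ A u').card * 2 ^ (2 * q + 2) < B.card := ⟨_, rfl⟩
  have hBpos : 0 < B.card := card_pos.2 hB.ne
  have hBpos' : (0 : ℝ) < B.card := by exact_mod_cast hBpos
  have hPhi : Phi T A B < 1 := by
    have e1 : ∀ u' ∈ T, phi B (A u') ≤ 1 / 2 ^ (q + 1) := by
      intro u' hu'
      rw [hT] at hu'
      have h1 := (mem_filter.1 hu').2
      unfold phi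
      refine Real.sqrt_le_iff.2 ⟨by positivity, ?_⟩
      rw [div_pow, one_pow, ← pow_mul, div_le_div_iff₀ hBpos' (by positivity), one_mul]
      have h2 : (((B ∩ A u').card * 2 ^ (2 * q + 2) : ℕ) : ℝ) ≤ (B.card : ℝ) := by
        exact_mod_cast h1.le
      push_cast at h2
      have h3 : (q + 1) * 2 = 2 * q + 2 := by ring
      rw [h3]
      exact h2
    unfold Phi
    have e2 : (T.card : ℝ) ≤ 2 ^ q := by
      have h1 : T.card ≤ 2 ^ q := by
        rw [hT]
        exact (card_le_card (filter_subset _ _)).trans hTc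
      exact_mod_cast h1
    calc ∑ u' ∈ T, phi B (A u') ≤ T.card • (1 / 2 ^ (q + 1) : ℝ) :=
          sum_le_card_nsmul _ _ _ e1
      _ = T.card * (1 / 2 ^ (q + 1) : ℝ) := nsmul_eq_mul _ _
      _ ≤ 2 ^ q * (1 / 2 ^ (q + 1) : ℝ) := by gcongr
      _ = 1 / 2 := by
          rw [pow_succ]
          field_simp
      _ < 1 := by norm_num
  obtain ⟨u', X, N, hX, hXu, hXB, hMN, hh, hP⟩ := hB.walk (T := T) hA hstep hZ hu t (by omega)
  have hXBu : X ⊆ B ∩ A u' := fun y hy => mem_inter.2 ⟨hXB hy, hXu hy⟩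
  have hbig : B.card ≤ (B ∩ A u').card * 2 ^ (2 * q + 2) := by
    by_contra hcon
    rw [not_le] at hcon
    have hmem : u' ∈ T := by
      rw [hT, hT0]
      exact mem_filter.2 ⟨mem_filter.2 ⟨mem_univ _, hh⟩, hcon⟩
    have h1 : phi X (A u') ≤ Phi T A X :=
      single_le_sum (f := fun u => phi X (A u)) (fun u _ => phi_nonneg X (A u)) hmem
    have h2 : phi X (A u') = 1 := by
      unfold phi
      have h3 : (0 : ℝ) < X.card := by exact_mod_cast card_pos.2 hX.ne
      rw [inter_eq_left.2 hXu, div_self h3.ne', Real.sqrt_one]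
    linarith
  have hBA := hB.aff.inter (hA u')
  have hne : (B ∩ A u').Nonempty := hX.ne.mono hXBu
  have hd : dim B ≤ dim (B ∩ A u') + (2 * q + 2) := by
    rw [card_dim hB.aff hB.ne, card_dim hBA hne, ← pow_add] at hbig
    exact pow_le hbig
  obtain ⟨B', M', hB', hsub⟩ := hB.restart (g2 := g + (2 * q + 2)) hZ hX hBA inter_subset_left
    hXBu hMN (by
      have := hB.size
      omega) ht hq4
  exact ⟨u', B', M', hB', hsub.trans inter_subset_right, hh⟩

/-- There is no short refutation of small depth. -/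
theorem no_ref [Fintype U] {q t J D : ℕ} {A : U → Finset (V → Bool)} {h : U → ℕ}
    (hA : ∀ u, IsAff (A u))
    (hstep : ∀ u, (∃ i, ∀ x ∈ A u, ∀ w ∈ Z i, x w = a i w) ∨
      ∃ j k, h j < h u ∧ h k < h u ∧ A u ⊆ A j ∪ A k)
    (hZ : Spr r Z) (hr : 4 * (J * (2 * q + 2) + t) + 4 ≤ r)
    (hq : ∀ u, {u' | h u' + t ≤ h u}.ncard ≤ 2 ^ q) (hD : ∀ u, h u ≤ D) (hJ : D < J * t)
    (u0 : U) (hu0 : ∀ x, x ∈ A u0) : False := by
  classical
  have key : ∀ j, j ≤ J → ∃ u B M, State r (j * (2 * q + 2)) Z a B M ∧ B ⊆ A u ∧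
      h u + j * t ≤ D := by
    intro j
    induction j with
    | zero =>
      intro _
      have haff : IsAff (univ : Finset (V → Bool)) := fun _ _ _ _ _ _ => mem_univ _
      have hdim : dim (univ : Finset (V → Bool)) = Fintype.card V := by
        unfold dim
        rw [card_univ, Fintype.card_fun, Fintype.card_bool, Nat.log_pow (by norm_num)]
      refine ⟨u0, univ, ∅, ⟨haff, univ_nonempty, by simp,
        fun i hi => absurd hi (notMem_empty i), fun i hi => absurd hi (notMem_empty i),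
        fun M' hM' _ hcard => ?_, by rw [hdim]; omega⟩, fun x _ => hu0 x, by simpa using hD u0⟩
      have h1 := dim_le haff univ_nonempty (M'.biUnion Z)
      rw [hdim] at h1
      rw [card_empty, zero_add] at hcard
      have h2 := hZ M' hcard
      have h3 := card_pos.2 hM'
      omega
    | succ j ih =>
      intro hj
      obtain ⟨u, B, M, hB, hu, hle⟩ := ih (by omega)
      have hjJ : (j + 1) * (2 * q + 2) ≤ J * (2 * q + 2) := Nat.mul_le_mul_right _ hj
      have he : (j + 1) * (2 * q + 2) = j * (2 * q + 2) + (2 * q + 2) := by ring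
      obtain ⟨u', B', M', hB', hu', hle'⟩ := hB.phase hA hstep hZ hu (by omega) (by omega) (hq u)
      refine ⟨u', B', M', ?_, hu', ?_⟩
      · rw [he]
        exact hB'
      · have : (j + 1) * t = j * t + t := by ring
        omega
  obtain ⟨u, B, M, -, -, hle⟩ := key J le_rfl
  omega

end Pool.Agent.MP_9cec2c_lc.ParTrade
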