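import Pool.Agent.Lib.MP_9cec2c_lc.PTRado

/-!
The potential of an affine set, and how it changes when variables are read.
-/

set_option autoImplicit false
set_option linter.unusedSectionVars false

namespace Pool.Agent.MP_9cec2c_lc.ParTrade

open Finset

variable {V : Type*} [Fintype V] [DecidableEq V]

/-- The square root of the density of `A` in `X`. -/
noncomputable def phi (X A : Finset (V → Bool)) : ℝ :=
  Real.sqrt (((X ∩ A).card : ℝ) / (X.card : ℝ))

theorem phi_nonneg (X A : Finset (V → Bool)) : 0 ≤ phi X A := Real.sqrt_nonneg _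

/-- The potential and halves. -/
theorem phi_halves {X X0 X1 : Finset (V → Bool)} (A : Finset (V → Bool)) (hd : Disjoint X0 X1)
    (hu : X0 ∪ X1 = X) (hc : X0.card = X1.card) : phi X0 A + phi X1 A ≤ 2 * phi X A := by
  have h1 : X.card = 2 * X0.card := by
    have := card_union_of_disjoint hd
    rw [hu] at this
    omega
  have h2 : (X ∩ A).card = (X0 ∩ A).card + (X1 ∩ A).card := by
    rw [← hu, union_inter_distrib_right, card_union_of_disjoint]
    exact hd.mono inter_subset_left inter_subset_left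
  unfold phi
  rw [h1, h2, ← hc]
  rcases Nat.eq_zero_or_pos X0.card with h0 | h0
  · rw [h0]
    simp
  have hc' : (0 : ℝ) < X0.card := by exact_mod_cast h0
  push_cast
  obtain ⟨p, hp⟩ : ∃ p : ℝ, p = ((X0 ∩ A).card : ℝ) / X0.card := ⟨_, rfl⟩
  obtain ⟨q, hq⟩ : ∃ q : ℝ, q = ((X1 ∩ A).card : ℝ) / X0.card := ⟨_, rfl⟩
  have hp0 : 0 ≤ p := by rw [hp]; positivity
  have hq0 : 0 ≤ q := by rw [hq]; positivity
  have h3 : (((X0 ∩ A).card : ℝ) + (X1 ∩ A).card) / (2 * X0.card) = (p + q) / 2 := by
    rw [hp, hq]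
    field_simp
  rw [h3, ← hp, ← hq]
  have e1 := Real.sq_sqrt hp0
  have e2 := Real.sq_sqrt hq0
  have e3 := Real.sq_sqrt (show (0 : ℝ) ≤ (p + q) / 2 by positivity)
  refine abs_le_of_sq_le_sq' ?_ (by positivity) |>.2
  nlinarith [sq_nonneg (Real.sqrt p - Real.sqrt q)]

/-- A counting form of the inequality for quarters. -/
theorem sqrt_count (j c Y X : ℕ) (h : j ^ 2 * (4 * c) ≤ 9 * Y) :
    (j : ℝ) * Real.sqrt (4 * c / X) ≤ 3 * Real.sqrt (Y / X) := by
  have h1 : (j : ℝ) * Real.sqrt (4 * c / X) = Real.sqrt ((j ^ 2 * (4 * c) : ℕ) / X) := by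
    push_cast
    rw [mul_div_assoc ((j : ℝ) ^ 2), Real.sqrt_mul (by positivity), Real.sqrt_sq (by positivity)]
  have h2 : 3 * Real.sqrt ((Y : ℝ) / X) = Real.sqrt ((9 * Y : ℕ) / X) := by
    push_cast
    rw [mul_div_assoc, Real.sqrt_mul (by norm_num)]
    congr 1
    rw [show (9 : ℝ) = 3 ^ 2 by norm_num, Real.sqrt_sq (by norm_num)]
  rw [h1, h2]
  refine Real.sqrt_le_sqrt ?_
  have h3 : ((j ^ 2 * (4 * c) : ℕ) : ℝ) ≤ ((9 * Y : ℕ) : ℝ) := by exact_mod_cast h
  gcongr

/-- The quarter of `X` given by the values of two variables. -/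
def qr (X : Finset (V → Bool)) (p q : V) (a b : Bool) : Finset (V → Bool) :=
  X.filter fun x => x p = a ∧ x q = b

theorem mem_qr {X : Finset (V → Bool)} {p q : V} {a b : Bool} {x : V → Bool} :
    x ∈ qr X p q a b ↔ x ∈ X ∧ x p = a ∧ x q = b := mem_filter

theorem qr_sec {X : Finset (V → Bool)} {p q : V} {a b : Bool} {x : V → Bool}
    (hx : x ∈ qr X p q a b) : qr X p q a b = sec X {p, q} x := by
  ext y
  rw [mem_qr, mem_sec]
  rw [mem_qr] at hx
  constructor
  · rintro ⟨h1, h2, h3⟩
    refine ⟨h1, fun v hv => ?_⟩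
    rw [mem_insert, mem_singleton] at hv
    rcases hv with rfl | rfl
    · rw [h2, hx.2.1]
    · rw [h3, hx.2.2]
  · rintro ⟨h1, h2⟩
    exact ⟨h1, by rw [h2 p (by simp), hx.2.1], by rw [h2 q (by simp), hx.2.2]⟩

theorem qr_total (Y : Finset (V → Bool)) (p q : V) (a b : Bool) :
    Y.card = (qr Y p q a b).card + (qr Y p q (!a) b).card + (qr Y p q a (!b)).card +
      (qr Y p q (!a) (!b)).card := by
  unfold qr
  have h1 := card_filter_add_card_filter_not (s := Y) (fun x => x p = a)
  have h2 := card_filter_add_card_filter_not (s := Y.filter fun x => x p = a) (fun x => x q = b)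
  have h3 := card_filter_add_card_filter_not (s := Y.filter fun x => ¬ x p = a) (fun x => x q = b)
  rw [filter_filter, filter_filter] at h2 h3
  have e1 : (Y.filter fun x => x p = a ∧ ¬ x q = b) = Y.filter fun x => x p = a ∧ x q = !b := by
    refine filter_congr fun x _ => ?_
    cases x q <;> cases b <;> simp
  have e2 : (Y.filter fun x => ¬ x p = a ∧ x q = b) = Y.filter fun x => x p = (!a) ∧ x q = b := by
    refine filter_congr fun x _ => ?_
    cases x p <;> cases a <;> simp
  have e3 : (Y.filter fun x => ¬ x p = a ∧ ¬ x q = b) =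
      Y.filter fun x => x p = (!a) ∧ x q = !b := by
    refine filter_congr fun x _ => ?_
    cases x p <;> cases a <;> cases x q <;> cases b <;> simp
  rw [e1] at h2
  rw [e2, e3] at h3
  omega

theorem qr_card {Y : Finset (V → Bool)} (hY : IsAff Y) {y0 : V → Bool} (hy : y0 ∈ Y) (p q : V)
    (a b : Bool) : (qr Y p q a b).card = 0 ∨ (qr Y p q a b).card = (sec Y {p, q} y0).card := by
  rcases (qr Y p q a b).eq_empty_or_nonempty with h | ⟨x, hx⟩
  · left
    rw [h, card_empty]
  · right
    rw [qr_sec hx]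
    exact sec_card_eq hY _ (mem_qr.1 hx).1 hy

theorem qr_four {Y : Finset (V → Bool)} (hY : IsAff Y) (p q : V) (a b : Bool)
    (h1 : (qr Y p q (!a) b).Nonempty) (h2 : (qr Y p q a (!b)).Nonempty)
    (h3 : (qr Y p q (!a) (!b)).Nonempty) : (qr Y p q a b).Nonempty := by
  obtain ⟨x, hx⟩ := h1
  obtain ⟨y, hy⟩ := h2
  obtain ⟨z, hz⟩ := h3
  rw [mem_qr] at hx hy hz
  refine ⟨add3 x y z, mem_qr.2 ⟨hY x hx.1 y hy.1 z hz.1, ?_, ?_⟩⟩
  · show xor (x p) (xor (y p) (z p)) = a
    rw [hx.2.1, hy.2.1, hz.2.1]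
    cases a <;> rfl
  · show xor (x q) (xor (y q) (z q)) = b
    rw [hx.2.2, hy.2.2, hz.2.2]
    cases b <;> rfl

/-- The quarters of an affine set. -/
theorem qr_size {X : Finset (V → Bool)} (hX : IsAff X) (hne : X.Nonempty) {p q : V}
    (hr : 2 ≤ rk X {p, q}) (a b : Bool) : 4 * (qr X p q a b).card = X.card := by
  obtain ⟨x, hx⟩ := hne
  have h1 := card_eq_pat_mul hX {p, q} hx
  have h2 : rk X {p, q} = 2 := le_antisymm ((rk_le_card _ _).trans card_le_two) hr
  rw [pat_rk hX ⟨x, hx⟩, h2] at h1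
  have h3 : 0 < (sec X {p, q} x).card := card_pos.2 ⟨x, self_mem_sec hx⟩
  have h4 := qr_total X p q a b
  have e1 := qr_card hX hx p q a b
  have e2 := qr_card hX hx p q (!a) b
  have e3 := qr_card hX hx p q a (!b)
  have e4 := qr_card hX hx p q (!a) (!b)
  omega

/-- The potential and quarters. -/
theorem phi_quarters {X A : Finset (V → Bool)} (hX : IsAff X) (hne : X.Nonempty) (hA : IsAff A)
    {p q : V} (hr : 2 ≤ rk X {p, q}) (a b : Bool) :
    phi (qr X p q (!a) b) A + phi (qr X p q a (!b)) A + phi (qr X p q (!a) (!b)) A ≤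
      3 * phi X A := by
  have hXc : 0 < X.card := card_pos.2 hne
  have hY : IsAff (X ∩ A) := hX.inter hA
  have hqi : ∀ a b, qr X p q a b ∩ A = qr (X ∩ A) p q a b := by
    intro a b
    ext x
    simp only [mem_inter, mem_qr]
    tauto
  have hphi : ∀ a b, phi (qr X p q a b) A =
      Real.sqrt (4 * ((qr (X ∩ A) p q a b).card : ℝ) / X.card) := by
    intro a b
    unfold phi
    rw [hqi]
    congr 1
    have h1 := qr_size hX hne hr a b
    have h2 : (4 : ℝ) * (qr X p q a b).card = X.card := by exact_mod_cast h1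
    have h3 : (0 : ℝ) < (qr X p q a b).card := by
      have : 0 < (qr X p q a b).card := by omega
      exact_mod_cast this
    rw [← h2]
    field_simp
  rw [hphi, hphi, hphi]
  rcases (X ∩ A).eq_empty_or_nonempty with he | ⟨y0, hy0⟩
  · have h0 : ∀ a b, (qr (X ∩ A) p q a b).card = 0 := by
      intro a b
      rw [he]
      rfl
    rw [h0, h0, h0]
    have := phi_nonneg X A
    simp only [Nat.cast_zero, mul_zero, zero_div, Real.sqrt_zero, add_zero]
    linarith
  obtain ⟨c, hc⟩ : ∃ c, c = (sec (X ∩ A) {p, q} y0).card := ⟨_, rfl⟩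
  have hc0 : 0 < c := by
    rw [hc]
    exact card_pos.2 ⟨y0, self_mem_sec hy0⟩
  have h4 := qr_total (X ∩ A) p q a b
  have e0 := qr_card hY hy0 p q a b
  have e1 := qr_card hY hy0 p q (!a) b
  have e2 := qr_card hY hy0 p q a (!b)
  have e3 := qr_card hY hy0 p q (!a) (!b)
  have e4 := qr_four hY p q a b
  simp only [← card_pos] at e4
  rw [← hc] at e0 e1 e2 e3
  unfold phi
  revert e0 e1 e2 e3 e4 h4
  generalize (qr (X ∩ A) p q a b).card = f0
  generalize (qr (X ∩ A) p q (!a) b).card = f1
  generalize (qr (X ∩ A) p q a (!b)).card = f2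
  generalize (qr (X ∩ A) p q (!a) (!b)).card = f3
  intro h4 e0 e1 e2 e3 e4
  have key : ∀ j : ℕ, j ^ 2 * (4 * c) ≤ 9 * (X ∩ A).card →
      (j : ℝ) * Real.sqrt (4 * c / X.card) ≤ 3 * Real.sqrt ((X ∩ A).card / X.card) :=
    fun j hj => sqrt_count j c _ _ hj
  rcases e1 with rfl | rfl <;> rcases e2 with rfl | rfl <;> rcases e3 with rfl | rfl
  · have := key 0 (by omega)
    simpa using this
  · have := key 1 (by omega)
    simpa using this
  · have := key 1 (by omega)
    simpa using this
  · have := key 2 (by omega)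
    push_cast at this
    simp only [Nat.cast_zero, mul_zero, zero_div, Real.sqrt_zero, zero_add]
    linarith
  · have := key 1 (by omega)
    simpa using this
  · have := key 2 (by omega)
    push_cast at this
    simp only [Nat.cast_zero, mul_zero, zero_div, Real.sqrt_zero, add_zero]
    linarith
  · have := key 2 (by omega)
    push_cast at this
    simp only [Nat.cast_zero, mul_zero, zero_div, Real.sqrt_zero, add_zero]
    linarith
  · have := key 3 (by omega)
    push_cast at this
    linarith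

end Pool.Agent.MP_9cec2c_lc.ParTrade
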