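import Pool.Agent.Lib.MP_9cec2c_lc.Mg.G043

/-!
Rado's theorem for the variables on an affine set.
-/

set_option autoImplicit false
set_option linter.unusedSectionVars false

namespace Pool.Agent.MP_9cec2c_lc.ParTrade

open Finset

variable {V : Type*} [Fintype V] [DecidableEq V]

/-- Independent representatives. -/
theorem rado {κ : Type*} [Fintype κ] [DecidableEq κ] {B : Finset (V → Bool)} (hB : IsAff B)
    (hne : B.Nonempty) (k : ℕ) : ∀ W : κ → Finset V, ∑ i, (W i).card = k →
    (∀ N : Finset κ, N.card ≤ rk B (N.biUnion W)) →
    ∃ e : κ → V, (∀ i, e i ∈ W i) ∧ Fintype.card κ ≤ rk B (univ.image e) := by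
  induction k using Nat.strong_induction_on with
  | _ k ih =>
    intro W hk hW
    by_cases hall : ∀ i, (W i).card ≤ 1
    · have h1 : ∀ i, ∃ v, W i = {v} := by
        intro i
        rw [← card_eq_one]
        have h2 := hW {i}
        rw [singleton_biUnion, card_singleton] at h2
        have h3 := rk_le_card B (W i)
        have h4 := hall i
        omega
      choose e he using h1
      refine ⟨e, fun i => by rw [he i]; exact mem_singleton_self _, ?_⟩
      have h2 := hW univ
      have h3 : (univ : Finset κ).biUnion W = univ.image e := by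
        ext v
        simp only [mem_biUnion, mem_univ, true_and, mem_image]
        constructor
        · rintro ⟨i, hi⟩
          rw [he i, mem_singleton] at hi
          exact ⟨i, hi.symm⟩
        · rintro ⟨i, hi⟩
          exact ⟨i, by rw [he i, mem_singleton, hi]⟩
      rwa [h3, card_univ] at h2
    · push Not at hall
      obtain ⟨i0, hi0⟩ := hall
      obtain ⟨x, hx, y, hy, hxy⟩ := one_lt_card.1 hi0
      have key : ∀ z ∈ W i0, (∀ N : Finset κ,
          N.card ≤ rk B (N.biUnion (Function.update W i0 ((W i0).erase z)))) →
          ∃ e : κ → V, (∀ i, e i ∈ W i) ∧ Fintype.card κ ≤ rk B (univ.image e) := by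
        intro z hz hN
        have hlt : ∑ i, (Function.update W i0 ((W i0).erase z) i).card < k := by
          rw [← hk]
          refine sum_lt_sum (fun i _ => ?_) ⟨i0, mem_univ _, ?_⟩
          · by_cases hi : i = i0
            · subst hi
              rw [Function.update_self]
              exact card_le_card (erase_subset _ _)
            · rw [Function.update_of_ne hi]
          · rw [Function.update_self]
            exact card_erase_lt_of_mem hz
        obtain ⟨e, he, hr⟩ := ih _ hlt _ rfl hN
        refine ⟨e, fun i => ?_, hr⟩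
        have h1 := he i
        by_cases hi : i = i0
        · subst hi
          rw [Function.update_self] at h1
          exact (mem_erase.1 h1).2
        · rwa [Function.update_of_ne hi] at h1
      by_cases h1 : ∀ N : Finset κ,
          N.card ≤ rk B (N.biUnion (Function.update W i0 ((W i0).erase x)))
      · exact key x hx h1
      by_cases h2 : ∀ N : Finset κ,
          N.card ≤ rk B (N.biUnion (Function.update W i0 ((W i0).erase y)))
      · exact key y hy h2
      exfalso
      push Not at h1 h2
      obtain ⟨Nx, hNx⟩ := h1
      obtain ⟨Ny, hNy⟩ := h2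
      have hmem : ∀ (z : V) (N : Finset κ),
          rk B (N.biUnion (Function.update W i0 ((W i0).erase z))) < N.card → i0 ∈ N := by
        intro z N hN
        by_contra hcon
        have h3 : N.biUnion (Function.update W i0 ((W i0).erase z)) = N.biUnion W := by
          refine biUnion_congr rfl fun i hi => ?_
          rw [Function.update_of_ne]
          rintro rfl
          exact hcon hi
        rw [h3] at hN
        have := hW N
        omega
      have hix := hmem x Nx hNx
      have hiy := hmem y Ny hNy
      have hsub := rk_submod hB hne (Nx.biUnion (Function.update W i0 ((W i0).erase x)))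
        (Ny.biUnion (Function.update W i0 ((W i0).erase y)))
      have hU : (Nx ∪ Ny).card ≤ rk B (Nx.biUnion (Function.update W i0 ((W i0).erase x)) ∪
          Ny.biUnion (Function.update W i0 ((W i0).erase y))) := by
        refine (hW _).trans (rk_mono_right B fun v hv => ?_)
        obtain ⟨i, hi, hvi⟩ := mem_biUnion.1 hv
        by_cases hi0 : i = i0
        · subst hi0
          rw [mem_union]
          by_cases hvx : v = x
          · right
            refine mem_biUnion.2 ⟨i, hiy, ?_⟩
            rw [Function.update_self, mem_erase]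
            refine ⟨?_, hvi⟩
            rw [hvx]
            exact hxy
          · left
            refine mem_biUnion.2 ⟨i, hix, ?_⟩
            rw [Function.update_self, mem_erase]
            exact ⟨hvx, hvi⟩
        · rcases mem_union.1 hi with hi' | hi'
          · refine mem_union_left _ (mem_biUnion.2 ⟨i, hi', ?_⟩)
            rwa [Function.update_of_ne hi0]
          · refine mem_union_right _ (mem_biUnion.2 ⟨i, hi', ?_⟩)
            rwa [Function.update_of_ne hi0]
      have hI : ((Nx ∩ Ny).erase i0).card ≤
          rk B (Nx.biUnion (Function.update W i0 ((W i0).erase x)) ∩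
            Ny.biUnion (Function.update W i0 ((W i0).erase y))) := by
        refine (hW _).trans (rk_mono_right B fun v hv => ?_)
        obtain ⟨i, hi, hvi⟩ := mem_biUnion.1 hv
        rw [mem_erase, mem_inter] at hi
        refine mem_inter.2 ⟨mem_biUnion.2 ⟨i, hi.2.1, ?_⟩, mem_biUnion.2 ⟨i, hi.2.2, ?_⟩⟩
        · rwa [Function.update_of_ne hi.1]
        · rwa [Function.update_of_ne hi.1]
      rw [card_erase_of_mem (mem_inter.2 ⟨hix, hiy⟩)] at hI
      have h3 := card_union_add_card_inter Nx Ny
      have h4 : 0 < (Nx ∩ Ny).card := card_pos.2 ⟨i0, mem_inter.2 ⟨hix, hiy⟩⟩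
      omega

/-- Independent pairs of variables. -/
theorem pairs {ι : Type*} [DecidableEq ι] {B : Finset (V → Bool)} (hB : IsAff B)
    (hne : B.Nonempty) (Z : ι → Finset V) (M : Finset ι)
    (hM : ∀ N ⊆ M, 2 * N.card ≤ rk B (N.biUnion Z)) (v0 : V) :
    ∃ p q : ι → V, (∀ i ∈ M, p i ∈ Z i ∧ q i ∈ Z i) ∧
      2 * M.card ≤ rk B (M.biUnion fun i => {p i, q i}) := by
  classical
  obtain ⟨e, he, hr⟩ : ∃ e : {i // i ∈ M} × Bool → V, (∀ c, e c ∈ Z c.1.1) ∧
      Fintype.card ({i // i ∈ M} × Bool) ≤ rk B (univ.image e) := by
    refine rado hB hne _ (fun c : {i // i ∈ M} × Bool => Z c.1.1) rfl fun N => ?_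
    have h1 := hM (N.image fun c => c.1.1) (fun i hi => by
      obtain ⟨c, -, rfl⟩ := mem_image.1 hi
      exact c.1.2)
    rw [image_biUnion] at h1
    refine le_trans ?_ h1
    have h2 : N.card ≤ ((N.image fun c => c.1.1) ×ˢ (univ : Finset Bool)).card := by
      refine card_le_card_of_injOn (fun c => (c.1.1, c.2)) (fun c hc => ?_) ?_
      · exact mem_coe.2 (mem_product.2 ⟨mem_image_of_mem _ (mem_coe.1 hc), mem_univ _⟩)
      · rintro ⟨⟨i, hi⟩, b⟩ _ ⟨⟨j, hj⟩, b'⟩ _ h
        simp only [Prod.mk.injEq] at h
        obtain ⟨rfl, rfl⟩ := h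
        rfl
    rw [card_product, card_univ, Fintype.card_bool] at h2
    omega
  · refine ⟨fun i => if h : i ∈ M then e (⟨i, h⟩, false) else v0,
      fun i => if h : i ∈ M then e (⟨i, h⟩, true) else v0, fun i hi => ?_, ?_⟩
    · simp only [dif_pos hi]
      exact ⟨he (⟨i, hi⟩, false), he (⟨i, hi⟩, true)⟩
    · rw [Fintype.card_prod, Fintype.card_coe, Fintype.card_bool, mul_comm] at hr
      refine hr.trans (rk_mono_right B fun v hv => ?_)
      obtain ⟨⟨⟨i, hi⟩, b⟩, -, rfl⟩ := mem_image.1 hv
      refine mem_biUnion.2 ⟨i, hi, ?_⟩
      simp only [dif_pos hi]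
      rw [mem_insert, mem_singleton]
      cases b
      · exact Or.inl rfl
      · exact Or.inr rfl

end Pool.Agent.MP_9cec2c_lc.ParTrade
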