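import Pool.Agent.Lib.MP_9cec2c_lc.PTPot

/-!
Reading variables without increasing the potential.
-/

set_option autoImplicit false
set_option linter.unusedSectionVars false

namespace Pool.Agent.MP_9cec2c_lc.ParTrade

open Finset

variable {V : Type*} [Fintype V] [DecidableEq V] {U : Type*}

/-- The potential of `X` for a set of lines. -/
noncomputable def Phi (T : Finset U) (A : U → Finset (V → Bool)) (X : Finset (V → Bool)) : ℝ :=
  ∑ u ∈ T, phi X (A u)

theorem Phi_halves (T : Finset U) (A : U → Finset (V → Bool)) {X X0 X1 : Finset (V → Bool)}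
    (hd : Disjoint X0 X1) (hu : X0 ∪ X1 = X) (hc : X0.card = X1.card) :
    Phi T A X0 ≤ Phi T A X ∨ Phi T A X1 ≤ Phi T A X := by
  have h : Phi T A X0 + Phi T A X1 ≤ 2 * Phi T A X := by
    unfold Phi
    rw [← sum_add_distrib, mul_sum]
    exact sum_le_sum fun u _ => phi_halves (A u) hd hu hc
  by_contra hcon
  push Not at hcon
  linarith [hcon.1, hcon.2]

theorem sec_eq_of_mem {X : Finset (V → Bool)} {Z : Finset V} {x y : V → Bool}
    (h : y ∈ sec X Z x) : sec X Z x = sec X Z y := by
  ext z
  rw [mem_sec, mem_sec]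
  rw [mem_sec] at h
  constructor
  · rintro ⟨h1, h2⟩
    exact ⟨h1, fun v hv => by rw [h2 v hv, h.2 v hv]⟩
  · rintro ⟨h1, h2⟩
    exact ⟨h1, fun v hv => by rw [h2 v hv, ← h.2 v hv]⟩

/-- Read a set of variables. -/
theorem read_set (T : Finset U) (A : U → Finset (V → Bool)) (Z : Finset V) :
    ∀ X : Finset (V → Bool), IsAff X → X.Nonempty →
      ∃ x ∈ X, Phi T A (sec X Z x) ≤ Phi T A X := by
  classical
  induction Z using Finset.induction_on with
  | empty =>
    intro X _ hne
    obtain ⟨x, hx⟩ := hne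
    refine ⟨x, hx, le_of_eq ?_⟩
    congr 1
    unfold sec
    rw [filter_eq_self]
    intro y _ v hv
    exact absurd hv (notMem_empty v)
  | insert v Z hv ih =>
    intro X hX hne
    rcases read_one hX v with ⟨b, hb⟩ | hcard
    · obtain ⟨x, hx, hle⟩ := ih X hX hne
      refine ⟨x, hx, ?_⟩
      have h2 : sec X (insert v Z) x = sec X Z x := by
        ext y
        simp only [mem_sec, mem_insert]
        constructor
        · rintro ⟨h3, h4⟩
          exact ⟨h3, fun u hu => h4 u (Or.inr hu)⟩
        · rintro ⟨h3, h4⟩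
          refine ⟨h3, fun u hu => ?_⟩
          rcases hu with rfl | hu
          · rw [hb y h3, hb x hx]
          · exact h4 u hu
      rwa [h2]
    · have hhalf : ∀ b : Bool, Phi T A (X.filter fun x => x v = b) ≤ Phi T A X →
          (X.filter fun x => x v = b).Nonempty →
          ∃ x ∈ X, Phi T A (sec X (insert v Z) x) ≤ Phi T A X := by
        intro b hb hbn
        obtain ⟨x, hx, hle⟩ := ih _ (aff_filter hX v b) hbn
        rw [mem_filter] at hx
        refine ⟨x, hx.1, ?_⟩
        have h2 : sec X (insert v Z) x = sec (X.filter fun x => x v = b) Z x := by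
          ext y
          simp only [mem_sec, mem_insert, mem_filter]
          constructor
          · rintro ⟨h3, h4⟩
            exact ⟨⟨h3, by rw [h4 v (Or.inl rfl), hx.2]⟩, fun u hu => h4 u (Or.inr hu)⟩
          · rintro ⟨⟨h3, h5⟩, h4⟩
            refine ⟨h3, fun u hu => ?_⟩
            rcases hu with rfl | hu
            · rw [h5, hx.2]
            · exact h4 u hu
        rw [h2]
        exact hle.trans hb
      have h1 := card_union_of_disjoint (filter_disj X v)
      rw [filter_un] at h1
      have h2 := card_pos.2 hne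
      rcases Phi_halves T A (filter_disj X v) (filter_un X v) hcard with h | h
      · exact hhalf false h (card_pos.1 (by omega))
      · exact hhalf true h (card_pos.1 (by omega))

/-- Read two variables, avoiding one pair of values. -/
theorem read_two (T : Finset U) {A : U → Finset (V → Bool)} (hA : ∀ u, IsAff (A u))
    {X : Finset (V → Bool)} (hX : IsAff X) (hne : X.Nonempty) {p q : V} (hr : 2 ≤ rk X {p, q})
    (a b : Bool) : ∃ x ∈ X, Phi T A (sec X {p, q} x) ≤ Phi T A X ∧ ¬ (x p = a ∧ x q = b) := by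
  classical
  have h : Phi T A (qr X p q (!a) b) + Phi T A (qr X p q a (!b)) +
      Phi T A (qr X p q (!a) (!b)) ≤ 3 * Phi T A X := by
    unfold Phi
    rw [← sum_add_distrib, ← sum_add_distrib, mul_sum]
    exact sum_le_sum fun u _ => phi_quarters hX hne (hA u) hr a b
  have hq : ∀ a' b', (a' ≠ a ∨ b' ≠ b) → Phi T A (qr X p q a' b') ≤ Phi T A X →
      ∃ x ∈ X, Phi T A (sec X {p, q} x) ≤ Phi T A X ∧ ¬ (x p = a ∧ x q = b) := by
    intro a' b' hab hle
    have h1 := qr_size hX hne hr a' b'
    have h2 := card_pos.2 hne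
    obtain ⟨x, hx⟩ : (qr X p q a' b').Nonempty := card_pos.1 (by omega)
    rw [qr_sec hx] at hle
    rw [mem_qr] at hx
    refine ⟨x, hx.1, hle, ?_⟩
    rw [hx.2.1, hx.2.2]
    rintro ⟨rfl, rfl⟩
    rcases hab with h3 | h3
    · exact h3 rfl
    · exact h3 rfl
  by_cases h1 : Phi T A (qr X p q (!a) b) ≤ Phi T A X
  · exact hq _ _ (Or.inl (by simp)) h1
  by_cases h2 : Phi T A (qr X p q a (!b)) ≤ Phi T A X
  · exact hq _ _ (Or.inr (by simp)) h2
  by_cases h3 : Phi T A (qr X p q (!a) (!b)) ≤ Phi T A X
  · exact hq _ _ (Or.inl (by simp)) h3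
  push Not at h1 h2 h3
  exfalso
  linarith

/-- Read independent pairs of variables, avoiding one pair of values for each. -/
theorem read_pairs {ι : Type*} [DecidableEq ι] (T : Finset U) {A : U → Finset (V → Bool)}
    (hA : ∀ u, IsAff (A u)) (p q : ι → V) (a : ι → V → Bool) (M : Finset ι) :
    ∀ X : Finset (V → Bool), IsAff X → X.Nonempty →
      2 * M.card ≤ rk X (M.biUnion fun i => {p i, q i}) →
      ∃ x ∈ X, Phi T A (sec X (M.biUnion fun i => {p i, q i}) x) ≤ Phi T A X ∧
        ∀ i ∈ M, ¬ (x (p i) = a i (p i) ∧ x (q i) = a i (q i)) := by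
  classical
  induction M using Finset.induction_on with
  | empty =>
    intro X hX hne _
    obtain ⟨x, hx, hle⟩ := read_set T A ∅ X hX hne
    exact ⟨x, hx, by simpa using hle, fun i hi => absurd hi (notMem_empty i)⟩
  | insert i M hi ih =>
    intro X hX hne hr
    rw [biUnion_insert, card_insert_of_notMem hi] at hr
    have hrest : ∀ x ∈ X, 2 * (M.card + 1) ≤ rk X {p i, q i} +
        rk (sec X {p i, q i} x) (M.biUnion fun i => {p i, q i}) := by
      intro x hx
      rwa [← rk_union hX hx]
    have h1 : rk X {p i, q i} ≤ 2 := (rk_le_card _ _).trans card_le_two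
    have h2 : (M.biUnion fun i => ({p i, q i} : Finset V)).card ≤ M.card * 2 :=
      card_biUnion_le_card_mul _ _ _ fun i _ => card_le_two
    have h3 : 2 ≤ rk X {p i, q i} := by
      obtain ⟨x, hx⟩ := hne
      have h4 := hrest x hx
      have h5 := rk_le_card (sec X {p i, q i} x) (M.biUnion fun i => {p i, q i})
      omega
    obtain ⟨x, hx, hle, hx'⟩ := read_two T hA hX hne h3 (a i (p i)) (a i (q i))
    have h4 := hrest x hx
    obtain ⟨y, hy, hley, hy'⟩ := ih (sec X {p i, q i} x) (hX.sec _ _) ⟨x, self_mem_sec hx⟩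
      (by omega)
    have hy2 := mem_sec.1 hy
    refine ⟨y, hy2.1, ?_, fun j hj => ?_⟩
    · rw [sec_eq_of_mem hy, sec_sec] at hley
      rw [biUnion_insert]
      refine hley.trans ?_
      rw [← sec_eq_of_mem hy]
      exact hle
    · rcases mem_insert.1 hj with rfl | hj'
      · rw [hy2.2 _ (by simp), hy2.2 _ (by simp)]
        exact hx'
      · exact hy' j hj'

end Pool.Agent.MP_9cec2c_lc.ParTrade
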