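import Mathlib

/-!
Refutations of CNFs with the redundance and dominance rules, with subproofs.
-/

set_option autoImplicit false

namespace Pool.Agent.MP_9cec2c_lc.Dominance

/-- A clause: a finite set of literals, read as their disjunction. The literal `l` is the variable
`l.1` if `l.2` is true, and its negation if `l.2` is false. -/
abbrev Clause (V : Type) : Type := Finset (V × Bool)

/-- The assignment `x` satisfies the clause `C`. -/
def Holds {V : Type} (x : V → Bool) (C : Clause V) : Prop := ∃ l ∈ C, x l.1 = l.2

/-- The line `T` is an inequality `0 ≤ a x + b x`, where the real function `a` does not depend on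
the variables in `B`, and `b` does not depend on the variables in `A`. -/
def Simple {V : Type} (A B : Set V) (T : (V → Bool) → Prop) : Prop :=
  ∃ a b : (V → Bool) → ℝ, DependsOn a Bᶜ ∧ DependsOn b Aᶜ ∧ ∀ x, T x ↔ 0 ≤ a x + b x

/-- Each value of the map `s` is a function of the variables outside `A` and of at most `D`
variables in `A`. -/
def IsLocal {V : Type} (D : ℕ) (A : Set V) (s : (V → Bool) → V → Bool) : Prop :=
  ∀ u, ∃ J : Finset V, J.card ≤ D ∧ DependsOn (fun x => s x u) (Aᶜ ∪ J)

/-- The line `j` states `L j` for the assignments with the property `H j`. For the assignments with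
the property `N`, the property `Q` follows from at most `k` clauses of `F` and at most `k` lines
before the line `i`, which are stated for all assignments with the property `N`. -/
def Follows {V : Type} (k : ℕ) (F : Finset (Clause V)) {S : ℕ} (H L : Fin S → (V → Bool) → Prop)
    (i : Fin S) (N Q : (V → Bool) → Prop) : Prop :=
  ∃ (P : Finset (Fin S)) (G : Finset (Clause V)), P.card ≤ k ∧ G.card ≤ k ∧ G ⊆ F ∧
    (∀ j ∈ P, j < i ∧ ∀ x, N x → H j x) ∧
    ∀ x, N x → (∀ j ∈ P, L j x) → (∀ C ∈ G, Holds x C) → Q x

/-- The lines form a refutation of `F`. The functions `L i` are simple. Some line without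
hypothesis is false for all assignments. Each line follows under its hypothesis `H i`, or it has no
hypothesis, and there is a local map `s` such that contradictions follow from the hypothesis
that `x` falsifies the line and `s x` falsifies `C`, for all but at most `d` clauses `C` of `F`, and
from the hypothesis that `x` falsifies the line and `s x = x`. -/
def IsRefutation {V : Type} (k D d : ℕ) (F : Finset (Clause V)) (A B : Set V) {S : ℕ}
    (H L : Fin S → (V → Bool) → Prop) : Prop :=
  (∀ i, Simple A B (L i)) ∧ (∃ i, ∀ x, H i x ∧ ¬ L i x) ∧ ∀ i,
    Follows k F H L i (H i) (L i) ∨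
    (∀ x, H i x) ∧ ∃ (s : (V → Bool) → V → Bool) (E : Finset (Clause V)),
      IsLocal D A s ∧ E.card ≤ d ∧
      (∀ C ∈ F, C ∈ E ∨
        Follows k F H L i (fun x => ¬ L i x ∧ ¬ Holds (s x) C) fun _ => False) ∧
      Follows k F H L i (fun x => ¬ L i x ∧ s x = x) fun _ => False

/-- The CNF `F` is unsatisfiable, and for any disjoint sets `A`, `B` of at least `n / D` variables
all its refutations have at least `t` lines. -/
def Hard {n : ℕ} (k D d t : ℕ) (F : Finset (Clause (Fin n))) : Prop :=
  (∀ x, ∃ C ∈ F, ¬ Holds x C) ∧
    ∀ (A B : Finset (Fin n)) (S : ℕ) (H L : Fin S → (Fin n → Bool) → Prop), Disjoint A B →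
      n ≤ D * A.card → n ≤ D * B.card → IsRefutation k D d F A B H L → t ≤ S

/-- A list of `m` clauses with `w` literals. The variables of the clause `i` are the values of the
injection `(f i).1`, their signs are `(f i).2`. -/
abbrev ClauseList (n m w : ℕ) : Type := Fin m → (Fin w ↪ Fin n) × (Fin w → Bool)

/-- The CNF with the clauses of the list. -/
def toCNF {n m w : ℕ} (f : ClauseList n m w) : Finset (Clause (Fin n)) :=
  Finset.univ.image fun i => Finset.univ.image fun e => ((f i).1 e, (f i).2 e)

end Pool.Agent.MP_9cec2c_lc.Dominance
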