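import Pool.Agent.Lib.MP_9cec2c_lc.RFSize

/-!
Random Frege systems of constant depth with counting gates modulo a prime: the pigeonhole principle
is exponentially hard.
-/

set_option autoImplicit false
set_option linter.unusedSectionVars false

namespace Pool.Agent.MP_9cec2c_lc.RF

open Finset Frege FG GW PHS PF

/-- The pigeonhole principle together with any clauses which are satisfied by a small fraction of
certain matchings. -/
theorem robust (p : ℕ) [Fact p.Prime] {S : Set Rule} (hS : S.Finite)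
    (hsound : ∀ R ∈ S, R.Sound p) {δ : ℝ} (hδ : 0 < δ) (hδ' : δ ≤ 1 / 2) :
    ∃ c : ℝ, 0 < c ∧ ∃ m₀ : ℕ, ∀ m ≥ m₀, ∀ M : ℕ, m < M →
      ((M : ℝ) - m) * (m : ℝ) ^ (δ - 1) ≤ 1 → ∃ n : ℕ,
      ∀ Δ : List (Cl M m), ((M : ℝ) - m) * (m : ℝ) ^ (δ - 1) * Fintype.card (Om M m) ≤
        {ω : Om M m | ∀ D ∈ Δ, ∃ l ∈ D, asg (n + 1) n (M - m) ω l.1 = l.2}.ncard →
      ∀ (d l : ℕ) (L : Fin l → Form (Fin M × Fin m)), Refutes S d (fphp M m ++ Δ) L →
      Real.exp (c * (m : ℝ) ^ (c / (d + 1))) ≤ size L := by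
  classical
  obtain ⟨c₁, hc₁, n₀, h⟩ := copiesP p hS hsound
  obtain ⟨ξ, hξ⟩ : ∃ ξ : ℝ, ξ = δ / 8 := ⟨_, rfl⟩
  have hξ0 : 0 < ξ := by linarith
  have hξ1 : ξ ≤ 1 / 16 := by linarith
  obtain ⟨c, hc⟩ : ∃ c : ℝ, c = min (min c₁ 1) (min (c₁ * (ξ / 2)) ξ) := ⟨_, rfl⟩
  have hcc₁ : c ≤ c₁ := by
    rw [hc]
    exact (min_le_left _ _).trans (min_le_left _ _)
  have hc1 : c ≤ 1 := by
    rw [hc]
    exact (min_le_left _ _).trans (min_le_right _ _)
  have hc2 : c ≤ c₁ * (ξ / 2) := by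
    rw [hc]
    exact (min_le_right _ _).trans (min_le_left _ _)
  have hcξ : c ≤ ξ := by
    rw [hc]
    exact (min_le_right _ _).trans (min_le_right _ _)
  have hc0 : 0 < c := by
    rw [hc]
    exact lt_min (lt_min hc₁ one_pos) (lt_min (by positivity) hξ0)
  have tend : ∀ {a : ℝ}, 0 < a → ∀ B : ℝ, ∀ᶠ x : ℝ in Filter.atTop, B ≤ x ^ a := by
    intro a ha B
    exact (tendsto_rpow_atTop ha).eventually_ge_atTop B
  have elog : ∀ᶠ x : ℝ in Filter.atTop, Real.log x ≤ x ^ ξ := by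
    have h1 := isLittleO_log_rpow_atTop hξ0
    have h2 := h1.def (show (0 : ℝ) < 1 by norm_num)
    filter_upwards [h2, Filter.eventually_ge_atTop (1 : ℝ)] with x hx hx1
    rw [Real.norm_of_nonneg (Real.log_nonneg hx1), Real.norm_of_nonneg (by positivity), one_mul]
      at hx
    exact hx
  obtain ⟨x₀, hx₀⟩ := Filter.eventually_atTop.1
    ((tend hξ0 ((n₀ : ℝ) + 1)).and ((tend hξ0 4).and ((tend (show 0 < ξ / 2 by linarith) 2).and
      ((tend (show 0 < δ - ξ by linarith) 24).and ((tend (show 0 < 1 - 2 * ξ by linarith)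
        8).and ((tend (show 0 < δ / 2 by linarith) 16).and (elog.and
          (Filter.eventually_ge_atTop (8 : ℝ)))))))))
  refine ⟨c, hc0, ⌈x₀⌉₊, fun m hm M hM hone => ?_⟩
  obtain ⟨e1, e2, e3, e4, e5, e6, e7, e8⟩ := hx₀ m ((Nat.le_ceil _).trans (by exact_mod_cast hm))
  obtain ⟨x, hx⟩ : ∃ x : ℝ, x = (m : ℝ) := ⟨_, rfl⟩
  rw [← hx] at e1 e2 e3 e4 e5 e6 e7 e8 hone
  have hx0 : 0 < x := by linarith
  have hx1 : 1 ≤ x := by linarith
  -- the number of copies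
  obtain ⟨t, ht⟩ : ∃ t : ℕ, t = M - m := ⟨_, rfl⟩
  have htM : M = m + t := by omega
  have ht1 : 1 ≤ t := by omega
  have htr : (M : ℝ) - x = t := by
    rw [htM, hx]
    push_cast
    ring
  have ht1' : (1 : ℝ) ≤ t := by exact_mod_cast ht1
  rw [htr] at hone
  have htx : (t : ℝ) ≤ x ^ (1 - δ) := by
    have h2 : x ^ (δ - 1) = (x ^ (1 - δ))⁻¹ := by
      rw [← Real.rpow_neg hx0.le]
      congr 1
      ring
    rw [h2, ← div_eq_mul_inv, div_le_one (Real.rpow_pos_of_pos hx0 _)] at hone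
    exact hone
  -- the number of holes
  obtain ⟨n, hn⟩ : ∃ n : ℕ, n = ⌊x ^ ξ⌋₊ := ⟨_, rfl⟩
  have hn1 : (n : ℝ) ≤ x ^ ξ := by
    rw [hn]
    exact Nat.floor_le (by positivity)
  have hn2 : x ^ ξ < n + 1 := by
    rw [hn]
    exact Nat.lt_floor_add_one _
  have hnn₀ : n₀ ≤ n := by
    have : (n₀ : ℝ) < n + 1 := by linarith
    have : n₀ < n + 1 := by exact_mod_cast this
    omega
  have hn0 : 1 ≤ n := by
    have : (0 : ℝ) < n := by linarith
    exact_mod_cast this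
  have hn0' : (1 : ℝ) ≤ n := by exact_mod_cast hn0
  -- the width
  obtain ⟨w, hw⟩ : ∃ w : ℕ, w = ⌊x ^ (2 * ξ)⌋₊ := ⟨_, rfl⟩
  have hw1 : (w : ℝ) ≤ x ^ (2 * ξ) := by
    rw [hw]
    exact Nat.floor_le (by positivity)
  have hw2 : x ^ (2 * ξ) < w + 1 := by
    rw [hw]
    exact Nat.lt_floor_add_one _
  have hsq : x ^ (2 * ξ) = (x ^ ξ) ^ 2 := by
    rw [← Real.rpow_natCast, ← Real.rpow_mul hx0.le]
    congr 1
    push_cast
    ring
  have htn : (t : ℝ) * (n + 1) + 1 ≤ x / 8 := by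
    have h1 : (t : ℝ) * (n + 1) + 1 ≤ 3 * (x ^ (1 - δ) * x ^ ξ) := by
      have h2 : (t : ℝ) * (n + 1) ≤ x ^ (1 - δ) * (2 * x ^ ξ) :=
        mul_le_mul htx (by linarith) (by positivity) (by positivity)
      have h3 : 1 ≤ x ^ (1 - δ) * x ^ ξ := by
        rw [← Real.rpow_add hx0]
        exact Real.one_le_rpow hx1 (by linarith)
      linarith
    have h2 : x ^ (1 - δ) * x ^ ξ * x ^ (δ - ξ) = x := by
      rw [← Real.rpow_add hx0, ← Real.rpow_add hx0]
      have h3 : 1 - δ + ξ + (δ - ξ) = 1 := by ring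
      rw [h3, Real.rpow_one]
    have h3 : x ^ (1 - δ) * x ^ ξ * 24 ≤ x := by
      calc x ^ (1 - δ) * x ^ ξ * 24 ≤ x ^ (1 - δ) * x ^ ξ * x ^ (δ - ξ) :=
            mul_le_mul_of_nonneg_left e4 (by positivity)
        _ = x := h2
    linarith
  have htn2 : (t : ℝ) * n ≤ x / 8 := by
    have h1 : (t : ℝ) * (n + 1) = t * n + t := by ring
    linarith
  have hwx : (w : ℝ) + 1 ≤ x / 4 := by
    have h2 : x ^ (2 * ξ) * x ^ (1 - 2 * ξ) = x := by
      rw [← Real.rpow_add hx0]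
      have h3 : 2 * ξ + (1 - 2 * ξ) = 1 := by ring
      rw [h3, Real.rpow_one]
    have h3 : x ^ (2 * ξ) * 8 ≤ x := by
      calc x ^ (2 * ξ) * 8 ≤ x ^ (2 * ξ) * x ^ (1 - 2 * ξ) :=
            mul_le_mul_of_nonneg_left e5 (by positivity)
        _ = x := h2
    linarith
  have htnm : t * (n + 1) + 1 ≤ m := by
    have h1 : (t : ℝ) * (n + 1) + 1 ≤ m := by
      rw [← hx]
      linarith
    exact_mod_cast h1
  have htn' : t * (n + 1) = t * n + t := by ring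
  obtain ⟨s, hs⟩ : ∃ s : ℕ, s = m - t * n := ⟨_, rfl⟩
  have hms : m = t * n + s := by omega
  have hMs : M = t * (n + 1) + s := by omega
  have hsr : (s : ℝ) = x - t * n := by
    have h1 : (m : ℝ) = t * n + s := by exact_mod_cast hms
    rw [hx, h1]
    ring
  have hMx : x ≤ (M : ℝ) := by
    rw [hx]
    exact_mod_cast hM.le
  have hwM : w + 1 < M := by
    have h1 : (w : ℝ) + 1 < M := by linarith
    exact_mod_cast h1
  refine ⟨n, fun Δ hΔ d l L hL => ?_⟩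
  rw [← ht] at hΔ
  by_contra hcon
  rw [not_le] at hcon
  have hd0 : (0 : ℝ) < (d : ℝ) + 1 := by positivity
  have hd1 : (1 : ℝ) ≤ (d : ℝ) + 1 := by
    have : (0 : ℝ) ≤ d := Nat.cast_nonneg d
    linarith
  have hsize : (size L : ℝ) ≤ Real.exp (x ^ ξ) := by
    refine hcon.le.trans (Real.exp_le_exp.2 ?_)
    rw [← hx]
    have h1 : x ^ (c / (d + 1)) ≤ x ^ ξ :=
      Real.rpow_le_rpow_of_exponent_le hx1 ((div_le_self hc0.le hd1).trans hcξ)
    calc c * x ^ (c / (d + 1)) ≤ 1 * x ^ ξ := mul_le_mul hc1 h1 (by positivity) (by norm_num)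
      _ = x ^ ξ := one_mul _
  obtain ⟨U, hU1, hU2⟩ := card_used Δ L
  obtain ⟨ε, hε⟩ : ∃ ε : ℝ, ε = (t : ℝ) * x ^ (δ - 1) := ⟨_, rfl⟩
  have hε0 : 0 < ε := by
    rw [hε]
    positivity
  have T1 : (w : ℝ) * ((t : ℝ) * (n + 1) * n / (s + 1)) ≤ ε / 4 := by
    have hs2 : x / 2 ≤ (s : ℝ) + 1 := by
      rw [hsr]
      linarith
    have h3 : (t : ℝ) * (n + 1) * n ≤ 2 * t * x ^ (2 * ξ) := by
      have h4 : ((n : ℝ) + 1) * n ≤ 2 * x ^ (2 * ξ) := by
        rw [hsq, sq]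
        calc ((n : ℝ) + 1) * n ≤ (2 * x ^ ξ) * x ^ ξ :=
              mul_le_mul (by linarith) hn1 (by positivity) (by positivity)
          _ = 2 * (x ^ ξ * x ^ ξ) := by ring
      calc (t : ℝ) * (n + 1) * n = t * ((n + 1) * n) := by ring
        _ ≤ t * (2 * x ^ (2 * ξ)) := mul_le_mul_of_nonneg_left h4 (by positivity)
        _ = 2 * t * x ^ (2 * ξ) := by ring
    have h4 : (t : ℝ) * (n + 1) * n / (s + 1) ≤ 4 * t * x ^ (2 * ξ) / x := by
      rw [div_le_div_iff₀ (by positivity) hx0]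
      have h5 : 4 * (t : ℝ) * x ^ (2 * ξ) * (x / 2) ≤
          4 * t * x ^ (2 * ξ) * (s + 1) := mul_le_mul_of_nonneg_left hs2 (by positivity)
      have h6 : (t : ℝ) * (n + 1) * n * x ≤ 2 * t * x ^ (2 * ξ) * x :=
        mul_le_mul_of_nonneg_right h3 hx0.le
      linarith
    have h5 : (w : ℝ) * ((t : ℝ) * (n + 1) * n / (s + 1)) ≤
        x ^ (2 * ξ) * (4 * t * x ^ (2 * ξ) / x) :=
      mul_le_mul hw1 h4 (by positivity) (by positivity)
    have h6 : x ^ (2 * ξ) * (4 * (t : ℝ) * x ^ (2 * ξ) / x) =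
        4 * t * x ^ (δ / 2 - 1) := by
      have h7 : x ^ (2 * ξ) * x ^ (2 * ξ) / x = x ^ (δ / 2 - 1) := by
        rw [Real.rpow_sub hx0, Real.rpow_one, ← Real.rpow_add hx0]
        congr 2
        rw [hξ]
        ring
      rw [← h7]
      ring
    have h7 : 16 * x ^ (δ / 2 - 1) ≤ x ^ (δ - 1) := by
      have h8 : x ^ (δ - 1) = x ^ (δ / 2) * x ^ (δ / 2 - 1) := by
        rw [← Real.rpow_add hx0]
        congr 1
        ring
      rw [h8]
      exact mul_le_mul_of_nonneg_right e6 (by positivity)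
    rw [hε]
    rw [h6] at h5
    have h8 := mul_le_mul_of_nonneg_left h7 (show (0 : ℝ) ≤ (t : ℝ) by positivity)
    have h9 : (t : ℝ) * (16 * x ^ (δ / 2 - 1)) = 4 * (4 * t * x ^ (δ / 2 - 1)) := by
      ring
    linarith
  have T2 : (size L : ℝ) * (((n : ℝ) + 1) / ((M - (w + 1) : ℕ) : ℝ)) ^ (w + 1) ≤
      ε / 4 := by
    have h3 : ((M - (w + 1) : ℕ) : ℝ) = M - (w + 1) := by
      rw [Nat.cast_sub hwM.le]
      push_cast
      ring
    have h4 : x / 2 ≤ ((M - (w + 1) : ℕ) : ℝ) := by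
      rw [h3]
      linarith
    have hn8 : (n : ℝ) + 1 ≤ x / 8 := by
      have h5 : 1 * ((n : ℝ) + 1) ≤ t * (n + 1) :=
        mul_le_mul_of_nonneg_right ht1' (by positivity)
      linarith
    have h5 : ((n : ℝ) + 1) / ((M - (w + 1) : ℕ) : ℝ) ≤ 1 / 2 := by
      rw [div_le_iff₀ (by linarith)]
      linarith
    have h6 : (((n : ℝ) + 1) / ((M - (w + 1) : ℕ) : ℝ)) ^ (w + 1) ≤
        (1 / 2) ^ (w + 1) := pow_le_pow_left₀ (by positivity) h5 _
    have h7 : ((1 : ℝ) / 2) ^ (w + 1) ≤ Real.exp (-(0.69 * x ^ (2 * ξ))) := by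
      have h8 : (1 : ℝ) / 2 ≤ Real.exp (-0.69) := by
        have h9 : (2 : ℝ)⁻¹ = Real.exp (-Real.log 2) := by
          rw [Real.exp_neg, Real.exp_log (by norm_num)]
        rw [one_div, h9]
        refine Real.exp_le_exp.2 ?_
        have := Real.log_two_gt_d9
        linarith
      calc ((1 : ℝ) / 2) ^ (w + 1) ≤ Real.exp (-0.69) ^ (w + 1) :=
            pow_le_pow_left₀ (by norm_num) h8 _
        _ = Real.exp ((w + 1 : ℕ) * (-0.69)) := (Real.exp_nat_mul _ _).symm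
        _ ≤ Real.exp (-(0.69 * x ^ (2 * ξ))) := by
            refine Real.exp_le_exp.2 ?_
            push_cast
            linarith
    have h8 : x ^ (δ - 1) ≤ ε := by
      rw [hε]
      exact le_mul_of_one_le_left (by positivity) ht1'
    have h9 : Real.exp (-Real.log x) ≤ x ^ (δ - 1) := by
      rw [Real.exp_neg, Real.exp_log hx0, ← Real.rpow_neg_one]
      exact Real.rpow_le_rpow_of_exponent_le hx1 (by linarith)
    have h10 : Real.exp (x ^ ξ) * Real.exp (-(0.69 * x ^ (2 * ξ))) ≤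
        Real.exp (-Real.log x) / 4 := by
      have h11 : (1 : ℝ) / 4 ≥ Real.exp (-1.4) := by
        have h12 : (4 : ℝ)⁻¹ = Real.exp (-(2 * Real.log 2)) := by
          rw [Real.exp_neg, two_mul, Real.exp_add, Real.exp_log (by norm_num)]
          norm_num
        rw [one_div, h12]
        refine Real.exp_le_exp.2 ?_
        have := Real.log_two_lt_d9
        linarith
      have h12 : Real.exp (-Real.log x) / 4 = Real.exp (-Real.log x) * (1 / 4) := by ring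
      rw [h12]
      refine le_trans ?_ (mul_le_mul_of_nonneg_left h11 (Real.exp_pos _).le)
      rw [← Real.exp_add, ← Real.exp_add]
      refine Real.exp_le_exp.2 ?_
      rw [hsq]
      have h13 : 4 * x ^ ξ ≤ (x ^ ξ) ^ 2 := by
        rw [sq]
        exact mul_le_mul_of_nonneg_right e2 (by positivity)
      linarith
    calc (size L : ℝ) * (((n : ℝ) + 1) / ((M - (w + 1) : ℕ) : ℝ)) ^ (w + 1) ≤
          Real.exp (x ^ ξ) * Real.exp (-(0.69 * x ^ (2 * ξ))) :=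
          mul_le_mul hsize (h6.trans h7) (by positivity) (Real.exp_pos _).le
      _ ≤ Real.exp (-Real.log x) / 4 := h10
      _ ≤ ε / 4 := by linarith
  obtain ⟨ω, hok⟩ := exists_ok (s := s) (w := w) (z := size L) (N := n + 1) (n := n) (k := t)
    hMs hms (by omega) (used Δ L) U hU1 hU2 (ε := ε) hwM (by
      rw [← hx, htr, ← hε] at hΔ
      refine hΔ.trans ?_
      have h1 : {ω : Om M m | ∀ D ∈ Δ, ∃ l ∈ D, asg (n + 1) n t ω l.1 = l.2}.ncard ≤
          {ω : Om M m | ∀ D ∈ used Δ L, ∃ l ∈ D, asg (n + 1) n t ω l.1 = l.2}.ncard :=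
        Set.ncard_le_ncard (fun ω h3 D hD => h3 D (mem_used.1 hD).1) (Set.toFinite _)
      exact_mod_cast h1) (by
      push_cast
      linarith)
  have hL' := refutes_used hL
  have hsz : n ≤ size L := size_geP (p := p) hM hn0 (by omega) (by omega) (by nlinarith) hok
    hsound hL'
  have hfin := h n hnn₀ t m M (by omega) (by omega) ω.1 ω.2 (used Δ L) (fun b D C hC =>
    ok_dead (ZMod p) D (hok C hC)) d l L hL' hsz
  refine absurd hfin (not_le.2 (lt_of_lt_of_le hcon (Real.exp_le_exp.2 ?_)))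
  rw [← hx]
  have hmn : x ^ (ξ / 2) ≤ n := by
    have h5 : 2 * x ^ (ξ / 2) ≤ x ^ ξ := by
      calc 2 * x ^ (ξ / 2) ≤ x ^ (ξ / 2) * x ^ (ξ / 2) :=
            mul_le_mul_of_nonneg_right e3 (by positivity)
        _ = x ^ ξ := by
          rw [← Real.rpow_add hx0]
          congr 1
          ring
    have h6 : 1 ≤ x ^ (ξ / 2) := Real.one_le_rpow hx1 (by linarith)
    linarith
  calc c * x ^ (c / (d + 1)) ≤ c₁ * x ^ (c₁ * (ξ / 2) / (d + 1)) :=
        mul_le_mul hcc₁ (Real.rpow_le_rpow_of_exponent_le hx1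
          (div_le_div_of_nonneg_right hc2 hd0.le)) (by positivity) hc₁.le
    _ = c₁ * (x ^ (ξ / 2)) ^ (c₁ / (d + 1)) := by
        rw [← Real.rpow_mul hx0.le]
        congr 2
        ring
    _ ≤ c₁ * (n : ℝ) ^ (c₁ / (d + 1)) :=
        mul_le_mul_of_nonneg_left (Real.rpow_le_rpow (by positivity) hmn (by positivity)) hc₁.le

open Classical in
/-- The probability that the assignment `x` satisfies the formula in conjunctive normal form which
is drawn with the probabilities `μ`. -/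
noncomputable def prob {V ι : Type} [Fintype ι] (μ : ι → ℝ) (Δ : ι → List (List (V × Bool)))
    (x : V → Bool) : ℝ := ∑ i, if ∀ D ∈ Δ i, ∃ l ∈ D, x l.1 = l.2 then μ i else 0

/-- The random version. -/
theorem random_hard (p : ℕ) [Fact p.Prime] {S : Set Rule} (hS : S.Finite)
    (hsound : ∀ R ∈ S, R.Sound p) {δ : ℝ} (hδ : 0 < δ) :
    ∃ c : ℝ, 0 < c ∧ ∃ m₀ : ℕ, ∀ m ≥ m₀, ∀ M : ℕ, m < M →
      ∀ (ι : Type) [Fintype ι] (μ : ι → ℝ) (Δ : ι → List (Cl M m)), (∀ i, 0 ≤ μ i) →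
      ∑ i, μ i = 1 →
      (∀ x : Fin M × Fin m → Bool, ((M : ℝ) - m) * (m : ℝ) ^ (δ - 1) ≤ prob μ Δ x) →
      ∀ (d : ℕ) (l : ι → ℕ) (L : ∀ i, Fin (l i) → Form (Fin M × Fin m)),
      (∀ i, 0 < μ i → Refutes S d (fphp M m ++ Δ i) (L i)) →
      ∃ i, 0 < μ i ∧ Real.exp (c * (m : ℝ) ^ (c / (d + 1))) ≤ size (L i) := by
  classical
  obtain ⟨c, hc, m₀, h⟩ := robust p hS hsound (lt_min hδ (show (0 : ℝ) < 1 / 2 by norm_num))
    (min_le_right δ (1 / 2))
  refine ⟨c, hc, max m₀ 1, fun m hm M hM ι _ μ Δ hμ hsum hΔ d l L hL => ?_⟩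
  have hm1 : (1 : ℝ) ≤ m := by exact_mod_cast (le_max_right _ _).trans hm
  have hMm : (0 : ℝ) ≤ (M : ℝ) - m := by
    have : (m : ℝ) ≤ M := by exact_mod_cast hM.le
    linarith
  obtain ⟨ε, hε⟩ : ∃ ε : ℝ, ε = ((M : ℝ) - m) * (m : ℝ) ^ (min δ (1 / 2) - 1) := ⟨_, rfl⟩
  have hε1 : ε ≤ ((M : ℝ) - m) * (m : ℝ) ^ (δ - 1) := by
    rw [hε]
    refine mul_le_mul_of_nonneg_left (Real.rpow_le_rpow_of_exponent_le hm1 ?_) hMm
    have := min_le_left δ (1 / 2)
    linarith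
  have hle1 : ε ≤ 1 := by
    obtain ⟨x₁, -⟩ : ∃ x₁ : Fin M × Fin m → Bool, True := ⟨fun _ => false, trivial⟩
    have h1 := hε1.trans (hΔ x₁)
    refine h1.trans ?_
    rw [← hsum]
    unfold prob
    refine sum_le_sum fun i _ => ?_
    split_ifs
    · exact le_rfl
    · exact hμ i
  obtain ⟨n, hs⟩ := h m ((le_max_left _ _).trans hm) M hM (hε ▸ hle1)
  rw [← hε] at hs
  obtain ⟨G, hG⟩ : ∃ G : ι → ℕ, G = fun i =>
    {ω : Om M m | ∀ D ∈ Δ i, ∃ l ∈ D, asg (n + 1) n (M - m) ω l.1 = l.2}.ncard := ⟨_, rfl⟩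
  have hGc : ∀ i, μ i * (G i : ℝ) = ∑ ω : Om M m,
      if ∀ D ∈ Δ i, ∃ l ∈ D, asg (n + 1) n (M - m) ω l.1 = l.2 then μ i else 0 := by
    intro i
    have h1 : {ω : Om M m | ∀ D ∈ Δ i, ∃ l ∈ D, asg (n + 1) n (M - m) ω l.1 = l.2} =
        (((univ : Finset (Om M m)).filter fun ω => ∀ D ∈ Δ i, ∃ l ∈ D,
          asg (n + 1) n (M - m) ω l.1 = l.2 : Finset (Om M m)) : Set (Om M m)) := by
      ext ω
      simp
    rw [hG]
    simp only
    rw [h1, Set.ncard_coe_finset, ← sum_filter, sum_const, nsmul_eq_mul, mul_comm]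
  have havg : ε * Fintype.card (Om M m) ≤ ∑ i, μ i * G i := by
    have h1 : ∑ i, μ i * (G i : ℝ) = ∑ ω : Om M m, prob μ Δ (asg (n + 1) n (M - m) ω) := by
      unfold prob
      rw [sum_comm]
      exact sum_congr rfl fun i _ => hGc i
    rw [h1, mul_comm, ← nsmul_eq_mul, ← card_univ, ← sum_const]
    exact sum_le_sum fun ω _ => hε1.trans (hΔ _)
  have hex : ∃ i, 0 < μ i ∧ ε * Fintype.card (Om M m) ≤ G i := by
    by_contra hcon
    push Not at hcon
    obtain ⟨i₀, hi₀⟩ : ∃ i, 0 < μ i := by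
      by_contra h0
      push Not at h0
      have h1 : ∑ i, μ i ≤ 0 := sum_nonpos fun i _ => h0 i
      linarith
    have h1 : ∑ i, μ i * (G i : ℝ) < ∑ i, μ i * (ε * Fintype.card (Om M m)) := by
      refine sum_lt_sum (fun i _ => ?_) ⟨i₀, mem_univ _, mul_lt_mul_of_pos_left (hcon i₀ hi₀) hi₀⟩
      rcases (hμ i).lt_or_eq with h2 | h2
      · exact (mul_lt_mul_of_pos_left (hcon i h2) h2).le
      · rw [← h2, zero_mul, zero_mul]
    rw [← sum_mul, hsum, one_mul] at h1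
    linarith
  obtain ⟨i, hi, hGi⟩ := hex
  refine ⟨i, hi, hs (Δ i) ?_ d (l i) (L i) (hL i hi)⟩
  rw [hG] at hGi
  exact hGi

end Pool.Agent.MP_9cec2c_lc.RF
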