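import Pool.Agent.Lib.MP_9cec2c_lc.Mg.G037
import Pool.Agent.Lib.MP_9cec2c_lc.PFFinal

/-!
The lower bound for the pigeonhole principle with more clauses, from a matching which satisfies these
as a restriction.
-/

set_option autoImplicit false
set_option linter.unusedSectionVars false

namespace Pool.Agent.MP_9cec2c_lc.RF

open Finset Frege FG GW PHS PF

/-- The lower bound from `k` copies of one world with `n` holes, in the permuted world. -/
theorem copiesP (p : ℕ) [Fact p.Prime] {S : Set Rule} (hS : S.Finite)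
    (hsound : ∀ R ∈ S, R.Sound p) :
    ∃ c : ℝ, 0 < c ∧ ∃ n₀ : ℕ, ∀ n ≥ n₀, ∀ k m M : ℕ, k * n ≤ m → M ≤ m + k →
      ∀ (π : Equiv.Perm (Fin M)) (π' : Equiv.Perm (Fin m)) (F : List (Cl M m)),
      (∀ (b D : ℕ), ∀ C ∈ F, DeadIn (fun a => FF (ZMod p) (n + 1) b (D + a))
        (fun a => YY (ZMod p) (n + 1) b (D + a)) (pullMul (ZMod p) (rhoP (n + 1) n k b π π')) 2 C) →
      ∀ (d l : ℕ) (L : Fin l → Form (Fin M × Fin m)), Refutes S d (fphp M m ++ F) L →
      n ≤ size L → Real.exp (c * (n : ℝ) ^ (c / (d + 1))) ≤ size L := by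
  have hp : p.Prime := Fact.out
  obtain ⟨c₀, hc₀, n₁, hn₁⟩ := exists_params hp.two_le (δ := 1 / 4) (by norm_num) (by norm_num)
    400 (by norm_num)
  obtain ⟨c, hc, n₂, hn₂⟩ := world_num (ZMod p) p hc₀ (E := 2) (by norm_num) 2 hS hsound
  refine ⟨c, hc, max n₁ (max n₂ 13), fun n hn k m M hkn hMk π π' F hF d l L hL hsz => ?_⟩
  have hn1 : n₁ ≤ n := (le_max_left _ _).trans hn
  have hn2 : n₂ ≤ n := (le_max_left _ _).trans ((le_max_right _ _).trans hn)
  have hn13 : 13 ≤ n := (le_max_right _ _).trans ((le_max_right _ _).trans hn)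
  have hn13' : (13 : ℝ) ≤ n := by exact_mod_cast hn13
  obtain ⟨A, r, b, hA2, hAn, hAle, hAq, hbq, hbn, hnb, hnum⟩ := hn₁ n hn1 (n + 1) (by omega) (by
    push_cast
    have h1 : (1 : ℝ) ≤ (n : ℝ) ^ (1 / 2 - 1 / 4 : ℝ) :=
      Real.one_le_rpow (by linarith) (by norm_num)
    linarith)
  obtain ⟨q, hq⟩ : ∃ q, q = p ^ r := ⟨_, rfl⟩
  rw [← hq] at hAq hbq hnum
  have hq1 : 1 ≤ q := by nlinarith
  obtain ⟨D₀, τ, w, hw, hτ, hB, hpos⟩ := exists_bounds (K := ZMod p) (N := n + 1) (b := b)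
    (q := q) (A := A) hbq (by omega) hA2 hAq (hq ▸ qk_zmod p r) hnum
  have hA0 : (2 : ℝ) ≤ A := by exact_mod_cast hA2
  have hexp : Real.exp (-(A : ℝ)) ≤ 1 / 2 := by
    have h1 : (2 : ℝ) ≤ Real.exp A := by
      have := Real.add_one_le_exp (A : ℝ)
      linarith
    rw [Real.exp_neg, one_div]
    exact inv_anti₀ (by norm_num) h1
  have hw0 : 0 < w := by linarith
  have hdef : (Module.finrank (ZMod p) (FF (ZMod p) (n + 1) b (D₀ + 0) ⊓
      YY (ZMod p) (n + 1) b (D₀ + A) : Submodule (ZMod p) (Pt (n + 1) b → ZMod p)) : ℝ) ≤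
      Module.finrank (ZMod p) (YY (ZMod p) (n + 1) b (D₀ + 0)) + τ := by
    exact_mod_cast hB.hdef 0 A (Nat.zero_le A) le_rfl
  refine hn₂ n hn2 (Fin M × Fin m) (Pt (n + 1) b → ZMod p)
    (fun a => FF (ZMod p) (n + 1) b (D₀ + a)) (fun a => YY (ZMod p) (n + 1) b (D₀ + a))
    (pullMul (ZMod p) (rhoP (n + 1) n k b π π')) A τ (12 * q) (w / 2)
    (rhoP_world (ZMod p) (n + 1) n k b D₀ π π') ⟨hB.hdef, ?_⟩ ?_ ?_ (by linarith) ?_ ?_ hAn
    (fphp M m ++ F) (fun C hC => ?_) d l L hL hsz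
  · intro e he
    have h1 := hB.hdim e he
    have h2 : 12 * (q : ℝ) * (w / 2) = 6 * q * w := by ring
    rw [h2]
    exact h1
  · have h1 : (1 : ℝ) ≤ q := by exact_mod_cast hq1
    linarith
  · have h1 : q ≤ n + 1 := by omega
    have h2 : (q : ℝ) ≤ n + 1 := by exact_mod_cast h1
    have h3 : (n : ℝ) ^ (2 : ℝ) = (n : ℝ) ^ 2 := Real.rpow_two _
    rw [h3]
    nlinarith
  · refine le_trans (add_le_add_left hdef _) ?_
    have h1 : Real.exp (-(A : ℝ)) * w ≤ 1 / 2 * w := mul_le_mul_of_nonneg_right hexp hw0.le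
    have h2 : (Module.finrank (ZMod p) (YY (ZMod p) (n + 1) b (D₀ + 0)) : ℝ) + w ≤
        Module.finrank (ZMod p) (FF (ZMod p) (n + 1) b (D₀ + 0)) := hpos
    linarith
  · linarith
  · rcases List.mem_append.1 hC with hC | hC
    · exact php_deadP (ZMod p) hbn hkn (by
        have h1 : k * (n + 1) = k * n + k := by ring
        omega) π π' D₀ C hC
    · exact hF b D₀ C hC

/-- The assignments which make the fixed pairs true, and besides only pairs in the blocks, satisfy
the clauses that are ok, if the true pairs form a matching. -/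
theorem Ok.holds {M m N n k : ℕ} {ω : Om M m} {D : Cl M m} (h : Ok N n k ω D)
    {x : Fin M × Fin m → Bool} (h1 : ∀ e, Fx N n k ω e → x e = true)
    (h2 : ∀ e, x e = true → Fx N n k ω e ∨ Lv N n k ω e)
    (h3 : ∀ e e', x e = true → x e' = true → (e.1 = e'.1 ∨ e.2 = e'.2) → e = e') :
    ∃ l ∈ D, x l.1 = l.2 := by
  have hf : ∀ e, ¬ x e = true → x e = false := fun e => Bool.eq_false_of_not_eq_true
  rcases h with ⟨e, h4, h5⟩ | ⟨e, h4, h5, h6⟩ | ⟨e, h4, h5⟩ | h4
  · exact ⟨_, h5, h1 e h4⟩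
  · exact ⟨_, h6, hf e fun h => (h2 e h).elim h4 h5⟩
  · by_cases h6 : x e = true
    · exact ⟨_, h4, h6⟩
    · exact ⟨_, h5, hf e h6⟩
  · unfold IsMat at h4
    push Not at h4
    obtain ⟨e, he, e', he', h5, h6⟩ := h4
    by_cases h7 : x e = true
    · exact ⟨_, mem_negs.1 he', hf e' fun h => h6 (h3 e e' h7 h h5)⟩
    · exact ⟨_, mem_negs.1 he, hf e h7⟩

/-- An assignment in which few given pigeons sit in holes. -/
theorem exists_extend {M m N n k : ℕ} (hm : k * n ≤ m) (hM : M + k * n = m + k * N)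
    (ω : Om M m) (P : Finset (Fin M)) (hP : P.card ≤ n) :
    ∃ x : Fin M × Fin m → Bool, (∀ e, Fx N n k ω e → x e = true) ∧
      (∀ e, x e = true → Fx N n k ω e ∨ Lv N n k ω e) ∧
      (∀ e e', x e = true → x e' = true → (e.1 = e'.1 ∨ e.2 = e'.2) → e = e') ∧
      ∀ i ∈ P, ∃ j, x (i, j) = true := by
  classical
  obtain ⟨Q, hQ⟩ : ∃ Q : Finset ℕ, Q = P.image fun i => (ω.1 i).val % N := ⟨_, rfl⟩
  have h1 : Fintype.card Q ≤ Fintype.card (Fin n) := by
    rw [Fintype.card_coe, Fintype.card_fin, hQ]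
    exact card_image_le.trans hP
  obtain ⟨g⟩ := Function.Embedding.nonempty_of_card_le h1
  obtain ⟨y, hy⟩ : ∃ y : Fin M × Fin m → Prop, y = fun e => Fx N n k ω e ∨ (Lv N n k ω e ∧
    ∃ h : (ω.1 e.1).val % N ∈ Q, (g ⟨_, h⟩).val = (ω.2 e.2).val % n) := ⟨_, rfl⟩
  refine ⟨fun e => decide (y e), fun e he => ?_, fun e he => ?_, fun e e' he he' hee => ?_,
    fun i hi => ?_⟩
  · refine decide_eq_true ?_
    rw [hy]
    exact Or.inl he
  · have h2 := of_decide_eq_true he
    rw [hy] at h2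
    exact h2.imp id fun h => h.1
  · have h2 := of_decide_eq_true he
    have h3 := of_decide_eq_true he'
    rw [hy] at h2 h3
    unfold Fx Lv at h2 h3
    have key : (ω.1 e.1).val = (ω.1 e'.1).val ∧ (ω.2 e.2).val = (ω.2 e'.2).val := by
      rcases hee with hee | hee
      · rw [hee] at h2
        refine ⟨by rw [hee], ?_⟩
        rcases h2 with ⟨a1, a2, a3⟩ | ⟨⟨a1, a2, a3⟩, a4, a5⟩
        · rcases h3 with ⟨b1, b2, b3⟩ | ⟨⟨b1, b2, b3⟩, b4, b5⟩
          · omega
          · omega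
        · rcases h3 with ⟨b1, b2, b3⟩ | ⟨⟨b1, b2, b3⟩, b4, b5⟩
          · omega
          · have c1 : (ω.2 e.2).val % n = (ω.2 e'.2).val % n := by rw [← a5, ← b5]
            have c2 := Nat.div_add_mod (ω.2 e.2).val n
            have c3 := Nat.div_add_mod (ω.2 e'.2).val n
            rw [← a3, c1] at c2
            rw [← b3] at c3
            omega
      · rw [hee] at h2
        refine ⟨?_, by rw [hee]⟩
        rcases h2 with ⟨a1, a2, a3⟩ | ⟨⟨a1, a2, a3⟩, a4, a5⟩
        · rcases h3 with ⟨b1, b2, b3⟩ | ⟨⟨b1, b2, b3⟩, b4, b5⟩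
          · omega
          · omega
        · rcases h3 with ⟨b1, b2, b3⟩ | ⟨⟨b1, b2, b3⟩, b4, b5⟩
          · omega
          · have c0 : g ⟨_, a4⟩ = g ⟨_, b4⟩ := Fin.ext (by rw [a5, b5])
            have c1 : (ω.1 e.1).val % N = (ω.1 e'.1).val % N :=
              congrArg Subtype.val (g.injective c0)
            have c2 := Nat.div_add_mod (ω.1 e.1).val N
            have c3 := Nat.div_add_mod (ω.1 e'.1).val N
            rw [a3, c1] at c2
            rw [b3] at c3
            omega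
    exact Prod.ext (ω.1.injective (Fin.ext key.1)) (ω.2.injective (Fin.ext key.2))
  · have h0 := (ω.1 i).isLt
    by_cases h2 : (ω.1 i).val < k * N
    · have hiQ : (ω.1 i).val % N ∈ Q := by
        rw [hQ]
        exact mem_image.2 ⟨i, hi, rfl⟩
      have h3 := (g ⟨_, hiQ⟩).isLt
      have hN : 0 < N := Nat.pos_of_mul_pos_left (lt_of_le_of_lt (Nat.zero_le _) h2)
      have h4 : (ω.1 i).val / N < k := by
        rw [Nat.div_lt_iff_lt_mul hN]
        exact h2
      have h5 : (ω.1 i).val / N * n + (g ⟨_, hiQ⟩).val < k * n := by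
        have h6 : ((ω.1 i).val / N + 1) * n ≤ k * n := Nat.mul_le_mul_right n h4
        have h7 : ((ω.1 i).val / N + 1) * n = (ω.1 i).val / N * n + n := by ring
        omega
      have h6 : ((ω.1 i).val / N * n + (g ⟨_, hiQ⟩).val) / n = (ω.1 i).val / N := by
        rw [mul_comm, Nat.mul_add_div (by omega), Nat.div_eq_of_lt h3, add_zero]
      have h7 : ((ω.1 i).val / N * n + (g ⟨_, hiQ⟩).val) % n = (g ⟨_, hiQ⟩).val := by
        rw [mul_comm, Nat.mul_add_mod, Nat.mod_eq_of_lt h3]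
      refine ⟨ω.2.symm ⟨(ω.1 i).val / N * n + (g ⟨_, hiQ⟩).val, by omega⟩, ?_⟩
      refine decide_eq_true ?_
      rw [hy]
      refine Or.inr ⟨?_, ?_⟩
      · unfold Lv
        simp only [Equiv.apply_symm_apply]
        exact ⟨h2, h5, h6.symm⟩
      · refine ⟨hiQ, ?_⟩
        simp only [Equiv.apply_symm_apply]
        exact h7.symm
    · refine ⟨ω.2.symm ⟨k * n + ((ω.1 i).val - k * N), by omega⟩, ?_⟩
      refine decide_eq_true ?_
      rw [hy]
      refine Or.inl ?_
      unfold Fx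
      simp only [Equiv.apply_symm_apply]
      omega

/-- The trivial bound. -/
theorem size_geP {M m p N n k : ℕ} (h : m < M) (hn : 1 ≤ n) (hm : k * n ≤ m)
    (hM : M + k * n = m + k * N) (hnM : n ≤ M) {ω : Om M m} {Δ : List (Cl M m)}
    (hΔ : ∀ D ∈ Δ, Ok N n k ω D) {S : Set Rule}
    (hS : ∀ R ∈ S, R.Sound p) {d l : ℕ} {L : Fin l → Form (Fin M × Fin m)}
    (hL : Refutes S d (fphp M m ++ Δ) L) : n ≤ size L := by
  classical
  rcases Nat.eq_zero_or_pos m with hm0 | hm0
  · rcases Nat.eq_zero_or_pos k with hk | hk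
    · rw [hk] at hM
      omega
    · have h1 : 1 * 1 ≤ k * n := Nat.mul_le_mul hk hn
      omega
  rcases hL with ⟨hL, i₀, hi₀⟩ | ⟨hL, i₀, hi₀⟩
  · obtain ⟨P, hP⟩ : ∃ P : Finset (Fin M), ∀ i, i ∈ P ↔ ∃ k, L k = clause (pigeonClause M m i) :=
      ⟨univ.filter fun i => ∃ k, L k = clause (pigeonClause M m i), fun i => by simp⟩
    have h1 : n ≤ P.card := by
      by_contra hc
      obtain ⟨x, hx1, hx2, hx3, hx4⟩ := exists_extend hm hM ω P (by omega)
      have h3 := holds_lines hS hL (x := x) (fun k hk => by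
        obtain ⟨D, hD, hkD⟩ := hk
        rw [hkD, eval_clause']
        rcases List.mem_append.1 hD with hD | hD
        · rcases mem_fphp.1 hD with ⟨i, rfl⟩ | ⟨i, i', j, hii, rfl⟩ | ⟨i, j, j', hjj, rfl⟩
          · have hi : i ∈ P := (hP i).2 ⟨k, hkD⟩
            exact holds_pigeon.2 (hx4 i hi)
          · refine holds_hole.2 ?_
            rintro ⟨h4, h5⟩
            exact absurd (congrArg Prod.fst (hx3 _ _ h4 h5 (Or.inr rfl))) (ne_of_lt hii)
          · refine holds_fun.2 ?_
            rintro ⟨h4, h5⟩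
            exact absurd (congrArg Prod.snd (hx3 _ _ h4 h5 (Or.inl rfl))) (ne_of_lt hjj)
        · exact (hΔ D hD).holds hx1 hx2 hx3) i₀
      rw [hi₀] at h3
      obtain ⟨i, -⟩ := h3
      exact i.elim0
    have h2 : P.card ≤ l := by
      have h3 : ∀ i ∈ P, ∃ k : Fin l, L k = clause (pigeonClause M m i) := fun i hi => (hP i).1 hi
      have : Nonempty (Fin l) := ⟨i₀⟩
      choose! f hf using h3
      have h4 : P.card ≤ (univ : Finset (Fin l)).card := by
        refine card_le_card_of_injOn f (fun i _ => mem_coe.2 (mem_univ _)) ?_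
        intro i hi i' hi' hff
        refine pigeon_inj hm0 ?_
        rw [← hf i hi, ← hf i' hi', hff]
      rwa [card_univ, Fintype.card_fin] at h4
    unfold size
    omega
  · have h1 : ∀ i : Fin M, clause (pigeonClause M m i) ∈ {ψ | ∃ k, ψ ∈ (L k).parts} := by
      intro i
      refine ⟨i₀, ?_⟩
      rw [hi₀]
      refine Set.mem_insert_of_mem _ (Set.mem_insert_of_mem _ ?_)
      have h2 : clause (pigeonClause M m i) ∈ (fphp M m ++ Δ).map clause :=
        List.mem_map.2 ⟨_, List.mem_append.2 (Or.inl (mem_fphp.2 (Or.inl ⟨i, rfl⟩))), rfl⟩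
      obtain ⟨j, hj⟩ := List.get_of_mem h2
      refine Set.mem_iUnion.2 ⟨j, ?_⟩
      rw [hj]
      exact self_mem_parts _
    have h2 : M ≤ {ψ | ∃ k, ψ ∈ (L k).parts}.ncard := by
      have h3 : Set.ncard (Set.range fun i : Fin M => clause (pigeonClause M m i)) = M := by
        rw [← Set.image_univ, Set.ncard_image_of_injective _ (fun i i' h => pigeon_inj hm0 h),
          Set.ncard_univ, Nat.card_eq_fintype_card, Fintype.card_fin]
      refine h3.symm.le.trans (Set.ncard_le_ncard ?_ (parts_set_finite L))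
      rintro ψ ⟨i, rfl⟩
      exact h1 i
    unfold size
    omega

/-! ### The clauses which occur -/

theorem lit_inj {V : Type} : Function.Injective (lit : V × Bool → Form V) := by
  rintro ⟨v, b⟩ ⟨v', b'⟩ h
  cases b <;> cases b'
  · have h1 : Form.neg (Form.var v) = Form.neg (Form.var v') := h
    injection h1 with h2
    injection h2 with h3
    rw [h3]
  · exact absurd h (by intro h1; injection h1)
  · exact absurd h (by intro h1; injection h1)
  · have h1 : Form.var v = Form.var v' := h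
    injection h1 with h3
    rw [h3]

theorem clause_inj {V : Type} : Function.Injective (clause : List (V × Bool) → Form V) := by
  intro C C' h
  have h1 : Form.disj (C.map lit).length (C.map lit).get =
      Form.disj (C'.map lit).length (C'.map lit).get := h
  have h2 : C.map lit = C'.map lit := by
    injection h1 with h3 h4
    exact List.ext_get h3 fun n h5 h6 => by
      have h7 : HEq (C.map lit).get (C'.map lit).get := h4
      have key : ∀ (a b : ℕ) (f : Fin a → Form V) (g : Fin b → Form V), a = b → HEq f g →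
          ∀ (h5 : n < a) (h6 : n < b), f ⟨n, h5⟩ = g ⟨n, h6⟩ := by
        intro a b f g hab hfg h5 h6
        subst hab
        rw [eq_of_heq hfg]
      exact key _ _ _ _ h3 h7 h5 h6
  exact List.map_injective_iff.2 lit_inj h2

open Classical in
/-- The clauses which occur in the lines. -/
noncomputable def used {M m l : ℕ} (Δ : List (Cl M m)) (L : Fin l → Form (Fin M × Fin m)) :
    List (Cl M m) := Δ.filter fun D => ∃ i, clause D ∈ (L i).parts

theorem mem_used {M m l : ℕ} {Δ : List (Cl M m)} {L : Fin l → Form (Fin M × Fin m)}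
    {D : Cl M m} : D ∈ used Δ L ↔ D ∈ Δ ∧ ∃ i, clause D ∈ (L i).parts := by
  classical
  unfold used
  rw [List.mem_filter, decide_eq_true_eq]

theorem card_used {M m l : ℕ} (Δ : List (Cl M m)) (L : Fin l → Form (Fin M × Fin m)) :
    ∃ U : Finset (Cl M m), (∀ D ∈ used Δ L, D ∈ U) ∧ U.card ≤ size L := by
  classical
  refine ⟨(used Δ L).toFinset, fun D hD => List.mem_toFinset.2 hD, ?_⟩
  have h1 : ((used Δ L).toFinset.image clause).card = (used Δ L).toFinset.card :=
    card_image_of_injective _ clause_inj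
  rw [← h1, ← Set.ncard_coe_finset]
  unfold size
  refine le_trans (Set.ncard_le_ncard ?_ (parts_set_finite L)) (Nat.le_add_left _ _)
  intro ψ hψ
  rw [mem_coe, mem_image] at hψ
  obtain ⟨D, hD, rfl⟩ := hψ
  exact (mem_used.1 (List.mem_toFinset.1 hD)).2

theorem refutes_used {M m l d : ℕ} {S : Set Rule} {F Δ : List (Cl M m)}
    {L : Fin l → Form (Fin M × Fin m)} (h : Refutes S d (F ++ Δ) L) :
    Refutes S d (F ++ used Δ L) L := by
  rcases h with ⟨h, h'⟩ | ⟨h, i₀, hi₀⟩
  · refine Or.inl ⟨fun i => ⟨(h i).1, ?_⟩, h'⟩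
    rcases (h i).2 with ⟨D, hD, h1⟩ | h1
    · refine Or.inl ⟨D, ?_, h1⟩
      rcases List.mem_append.1 hD with hD | hD
      · exact List.mem_append.2 (Or.inl hD)
      · exact List.mem_append.2 (Or.inr (mem_used.2 ⟨hD, i, by rw [← h1]; exact self_mem_parts _⟩))
    · exact Or.inr h1
  · have h1 : used Δ L = Δ := by
      classical
      unfold used
      rw [List.filter_eq_self]
      intro D hD
      rw [decide_eq_true_eq]
      refine ⟨i₀, ?_⟩
      rw [hi₀]
      refine Set.mem_insert_of_mem _ (Set.mem_insert_of_mem _ ?_)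
      have h2 : clause D ∈ (F ++ Δ).map clause :=
        List.mem_map.2 ⟨_, List.mem_append.2 (Or.inr hD), rfl⟩
      obtain ⟨j, hj⟩ := List.get_of_mem h2
      refine Set.mem_iUnion.2 ⟨j, ?_⟩
      rw [hj]
      exact self_mem_parts _
    rw [h1]
    exact Or.inr ⟨h, i₀, hi₀⟩

end Pool.Agent.MP_9cec2c_lc.RF
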