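import Mathlib
import Pool.Agent.Lib.MP_9cec2c_lc.D3Rank
import Pool.Agent.Lib.MP_9cec2c_lc.D3Gadget

/-!
Rank of functions of the coordinatewise conjunction of two subsets.
-/

set_option autoImplicit false

namespace Pool.Agent.MP_9cec2c_lc.Oblivious

open Finset
open Pool.Agent.MP_9cec2c_lc.DepthThree

section right

variable {α : Type*} {β : Type*} {𝕜 : Type*} [Field 𝕜]

theorem rankLE_mapRight [Fintype β] {M : α → β → 𝕜} {r : ℕ} (h : RankLE M r) {γ : Type*}
    (E : β → γ → 𝕜) : RankLE (fun x c => ∑ y, M x y * E y c) r := by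
  obtain ⟨ι, hι, hc, u, v, huv⟩ := h
  refine ⟨ι, hι, hc, u, fun i c => ∑ y, v i y * E y c, fun x c => ?_⟩
  simp only [huv, Finset.sum_mul, Finset.mul_sum]
  rw [Finset.sum_comm]
  refine Finset.sum_congr rfl fun i _ => Finset.sum_congr rfl fun y _ => ?_
  ring

end right

section conj

variable {P : Type*} [Fintype P] [DecidableEq P] {𝕜 : Type*} [Field 𝕜]

/-- The Moebius function of the subset lattice. -/
def mob (𝕜 : Type*) [Field 𝕜] (T a : Finset P) : 𝕜 :=
  if a ⊆ T then (-1) ^ (T \ a).card else 0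

theorem sum_mob (T T' : Finset P) :
    ∑ a : Finset P, mob 𝕜 T a * (if T' ⊆ a then (1 : 𝕜) else 0) = if T = T' then 1 else 0 := by
  have h1 : ∑ a : Finset P, mob 𝕜 T a * (if T' ⊆ a then (1 : 𝕜) else 0) =
      ∑ a ∈ T.powerset, (-1) ^ (T \ a).card * (if T' ⊆ a then (1 : 𝕜) else 0) := by
    rw [← Finset.sum_subset (subset_univ T.powerset)]
    · refine Finset.sum_congr rfl fun a ha => ?_
      unfold mob
      rw [if_pos (mem_powerset.1 ha)]
    · intro a _ ha
      unfold mob
      rw [if_neg (fun h => ha (mem_powerset.2 h)), zero_mul]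
  rw [h1]
  by_cases hT : T' ⊆ T
  · have h2 := Finset.prod_add (fun _ : P => (1 : 𝕜)) (fun p => if p ∈ T' then (0 : 𝕜) else -1) T
    have h3 : ∀ a ∈ T.powerset, (∏ _i ∈ a, (1 : 𝕜)) * ∏ i ∈ T \ a,
        (if i ∈ T' then (0 : 𝕜) else -1) =
        (-1) ^ (T \ a).card * (if T' ⊆ a then (1 : 𝕜) else 0) := by
      intro a ha
      rw [mem_powerset] at ha
      rw [Finset.prod_const_one, one_mul]
      by_cases h : T' ⊆ a
      · rw [if_pos h, mul_one]
        rw [← Finset.prod_const]
        refine Finset.prod_congr rfl fun i hi => ?_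
        rw [mem_sdiff] at hi
        rw [if_neg (fun h' => hi.2 (h h'))]
      · rw [if_neg h, mul_zero]
        rw [Finset.not_subset] at h
        obtain ⟨x, hx, hxa⟩ := h
        exact Finset.prod_eq_zero (mem_sdiff.2 ⟨hT hx, hxa⟩) (if_pos hx)
    rw [Finset.sum_congr rfl h3] at h2
    rw [← h2]
    by_cases h4 : T = T'
    · rw [if_pos h4]
      refine Finset.prod_eq_one fun i hi => ?_
      rw [if_pos (h4 ▸ hi), add_zero]
    · rw [if_neg h4]
      have h5 : ¬ T ⊆ T' := fun h => h4 (Finset.Subset.antisymm h hT)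
      rw [Finset.not_subset] at h5
      obtain ⟨x, hx, hxa⟩ := h5
      apply Finset.prod_eq_zero hx
      rw [if_neg hxa]; ring
  · rw [if_neg (fun h => hT (by rw [h]))]
    refine Finset.sum_eq_zero fun a ha => ?_
    rw [mem_powerset] at ha
    rw [if_neg (fun h => hT (h.trans ha)), mul_zero]

/-- Lower bound for the rank of a function of the intersection. -/
theorem card_le_of_conj {M : Finset P → Finset P → 𝕜} {r : ℕ} (h : RankLE M r)
    (c : Finset P → 𝕜)
    (hM : ∀ a b, M a b = ∑ T : Finset P, c T * ((if T ⊆ a then 1 else 0) *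
      (if T ⊆ b then 1 else 0)))
    (G : Finset (Finset P)) (hG : ∀ T ∈ G, c T ≠ 0) : G.card ≤ r := by
  classical
  have h1 := rankLE_mapRight h (fun (b : Finset P) (T : G) => mob 𝕜 T.1 b)
  have h2 := card_le_of_rankLE (γ := G) h1 (fun T a => mob 𝕜 T.1 a) id (fun T => c T.1)
    (fun T => hG _ T.2) ?_
  · rwa [Fintype.card_coe] at h2
  · intro T T'
    simp only [id]
    have h3 : ∀ a : Finset P, ∑ b : Finset P, M a b * mob 𝕜 T'.1 b =
        c T'.1 * (if T'.1 ⊆ a then 1 else 0) := by
      intro a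
      simp only [hM, Finset.sum_mul]
      rw [Finset.sum_comm]
      have h4 : ∀ S : Finset P, ∑ b : Finset P,
          c S * ((if S ⊆ a then (1 : 𝕜) else 0) * (if S ⊆ b then 1 else 0)) * mob 𝕜 T'.1 b =
          c S * (if S ⊆ a then (1 : 𝕜) else 0) * (if T'.1 = S then 1 else 0) := by
        intro S
        rw [← sum_mob (𝕜 := 𝕜) T'.1 S, Finset.mul_sum]
        refine Finset.sum_congr rfl fun b _ => ?_
        ring
      simp only [h4]
      rw [Finset.sum_eq_single T'.1]
      · rw [if_pos rfl, mul_one]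
      · intro b _ hb
        rw [if_neg (Ne.symm hb), mul_zero]
      · intro hh; exact absurd (mem_univ _) hh
    simp only [h3]
    have h5 : ∀ x : Finset P, mob 𝕜 T.1 x * (c T'.1 * (if T'.1 ⊆ x then 1 else 0)) =
        c T'.1 * (mob 𝕜 T.1 x * (if T'.1 ⊆ x then 1 else 0)) := by
      intro x; ring
    simp only [h5]
    rw [← Finset.mul_sum, sum_mob]
    by_cases h6 : T = T'
    · rw [if_pos h6, if_pos (by rw [h6]), mul_one]
    · rw [if_neg h6, if_neg (fun h => h6 (Subtype.ext h)), mul_zero]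

omit [Fintype P] in
theorem if_and_subset (T a b : Finset P) :
    (if T ⊆ a then (1 : 𝕜) else 0) * (if T ⊆ b then 1 else 0) = if T ⊆ a ∩ b then 1 else 0 := by
  by_cases h1 : T ⊆ a <;> by_cases h2 : T ⊆ b <;> simp [Finset.subset_inter_iff, h1, h2]

/-- Expansion of the sign of the inner product. -/
theorem sign_expand (Q a b : Finset P) :
    ∏ p ∈ Q, (if p ∈ a ∧ p ∈ b then (-1 : 𝕜) else 1) =
      ∑ T : Finset P, (if T ⊆ Q then (-2 : 𝕜) ^ T.card else 0) *
        ((if T ⊆ a then 1 else 0) * (if T ⊆ b then 1 else 0)) := by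
  have h1 : ∀ p, (if p ∈ a ∧ p ∈ b then (-1 : 𝕜) else 1) =
      (if p ∈ a ∧ p ∈ b then (-2 : 𝕜) else 0) + 1 := by
    intro p; split_ifs <;> ring
  simp only [h1]
  rw [Finset.prod_add_one]
  rw [← Finset.sum_subset (subset_univ Q.powerset)]
  · refine Finset.sum_congr rfl fun T hT => ?_
    rw [mem_powerset] at hT
    rw [if_pos hT, if_and_subset]
    by_cases h : T ⊆ a ∩ b
    · rw [if_pos h, mul_one, ← Finset.prod_const]
      refine Finset.prod_congr rfl fun p hp => ?_
      have := mem_inter.1 (h hp)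
      rw [if_pos this]
    · rw [if_neg h, mul_zero]
      rw [Finset.not_subset] at h
      obtain ⟨x, hx, hxa⟩ := h
      rw [mem_inter] at hxa
      exact Finset.prod_eq_zero hx (if_neg hxa)
  · intro T _ hT
    rw [if_neg (fun h => hT (mem_powerset.2 h)), zero_mul]

omit [Fintype P] in
/-- Upper bound for the rank of the sign of the inner product. -/
theorem sign_rank (Q : Finset P) :
    RankLE (fun a b : Finset P => ∏ p ∈ Q, (if p ∈ a ∧ p ∈ b then (-1 : 𝕜) else 1))
      (2 ^ Q.card) := by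
  have h := rankLE_prod Q (fun (p : P) (a b : Finset P) =>
    (if p ∈ a ∧ p ∈ b then (-1 : 𝕜) else 1)) (fun _ => 2) (fun p _ => ?_)
  · rwa [Finset.prod_const] at h
  · have h1 := (rankLE_const (α := Finset P) (β := Finset P) (1 : 𝕜)).add
      (rankLE_one (fun a : Finset P => if p ∈ a then (-2 : 𝕜) else 0)
        (fun b : Finset P => if p ∈ b then (1 : 𝕜) else 0))
    refine h1.congr fun a b => ?_
    by_cases h2 : p ∈ a <;> by_cases h3 : p ∈ b <;> simp [h2, h3]
    ring

end conj

end Pool.Agent.MP_9cec2c_lc.Oblivious
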