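import Mathlib

/-!
Definitions: clauses, oblivious algebraic branching programs, linear ideal proofs whose
coefficients are sums of such programs.
-/

set_option autoImplicit false

namespace Pool.Agent.MP_9cec2c_lc.Oblivious

/-- A clause over the Boolean variables `Fin n`: a finite set of literals. The literal `(i, b)`
is true when the variable `i` has the value `b`. -/
abbrev Clause (n : ℕ) := Finset (Fin n × Bool)

/-- The assignment `a` makes every literal of `C` false. -/
def Falsifies {n : ℕ} (a : Fin n → Bool) (C : Clause n) : Prop := ∀ l ∈ C, a l.1 ≠ l.2

/-- An oblivious algebraic branching program: each layer reads one variable and multiplies by a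
square matrix that depends on the value of this variable. -/
structure ABP (n : ℕ) (𝕜 : Type*) where
  /-- the width -/
  width : ℕ
  /-- the layers: the variable that is read, and the matrix for each of its two values -/
  layers : List (Fin n × (Bool → Matrix (Fin width) (Fin width) 𝕜))
  /-- the initial row vector -/
  start : Fin width → 𝕜
  /-- the final column vector -/
  final : Fin width → 𝕜

/-- The sequence of the variables that are read. -/
def ABP.word {n : ℕ} {𝕜 : Type*} (P : ABP n 𝕜) : List (Fin n) := P.layers.map Prod.fst

/-- The value of a branching program at a `0/1` point. -/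
def ABP.eval {n : ℕ} {𝕜 : Type*} [Field 𝕜] (P : ABP n 𝕜) (a : Fin n → Bool) : 𝕜 :=
  P.start ⬝ᵥ Matrix.mulVec (P.layers.map fun l => l.2 (a l.1)).prod P.final

open scoped Classical in
/-- `g` refutes `F`: for every `0/1` point `a` the values at `a` of the coefficients of the
clauses that are false at `a` add up to `1`. The coefficient of the clause `C` is the sum of the
branching programs in the list `g C`. -/
def IsRefutation {n : ℕ} {𝕜 : Type*} [Field 𝕜] (F : Finset (Clause n))
    (g : Clause n → List (ABP n 𝕜)) : Prop :=
  ∀ a : Fin n → Bool,
    ∑ C ∈ F, (if Falsifies a C then ((g C).map (fun P => P.eval a)).sum else 0) = 1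

end Pool.Agent.MP_9cec2c_lc.Oblivious
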