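import Mathlib

/-!
Counting permutations: existence of a robust bounded degree graph and of a scattering permutation.
-/

set_option autoImplicit false

namespace Pool.Agent.MP_9cec2c_lc.Oblivious

open Finset

section count

variable {X : Type*} [Fintype X] [DecidableEq X]

/-- The permutations mapping `S` into `T`. -/
def into (S T : Finset X) : Finset (Equiv.Perm X) := univ.filter (fun σ => ∀ x ∈ S, σ x ∈ T)

theorem into_step (S T : Finset X) (a : X) (ha : a ∉ S) :
    Fintype.card X * (into (insert a S) T).card ≤ T.card * (into S T).card := by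
  classical
  -- all the points outside `S` behave in the same way
  have h1 : ∀ x ∉ S, ((into S T).filter (fun σ => σ x ∈ T)).card = (into (insert a S) T).card := by
    intro x hx
    refine Finset.card_bij' (fun σ _ => σ * Equiv.swap a x) (fun σ _ => σ * Equiv.swap a x)
      ?_ ?_ ?_ ?_
    · intro σ hσ
      simp only [into, mem_filter, mem_univ, true_and] at hσ ⊢
      intro y hy
      rw [mem_insert] at hy
      rcases hy with rfl | hy
      · simpa using hσ.2
      · have hya : y ≠ a := fun h => ha (h ▸ hy)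
        have hyx : y ≠ x := fun h => hx (h ▸ hy)
        rw [Equiv.Perm.mul_apply, Equiv.swap_apply_of_ne_of_ne hya hyx]
        exact hσ.1 y hy
    · intro σ hσ
      simp only [into, mem_filter, mem_univ, true_and] at hσ ⊢
      refine ⟨fun y hy => ?_, ?_⟩
      · have hya : y ≠ a := fun h => ha (h ▸ hy)
        have hyx : y ≠ x := fun h => hx (h ▸ hy)
        rw [Equiv.Perm.mul_apply, Equiv.swap_apply_of_ne_of_ne hya hyx]
        exact hσ y (mem_insert_of_mem hy)
      · have := hσ a (mem_insert_self _ _)
        simpa using this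
    · intro σ _
      rw [mul_assoc, Equiv.swap_mul_self, mul_one]
    · intro σ _
      rw [mul_assoc, Equiv.swap_mul_self, mul_one]
  -- double counting
  have h2 : ∑ x ∈ univ \ S, ((into S T).filter (fun σ => σ x ∈ T)).card =
      ∑ σ ∈ into S T, ((univ \ S).filter (fun x => σ x ∈ T)).card := by
    simp only [card_filter]
    rw [Finset.sum_comm]
  have h3 : ∀ σ ∈ into S T, ((univ \ S).filter (fun x => σ x ∈ T)).card + S.card = T.card := by
    intro σ hσ
    simp only [into, mem_filter, mem_univ, true_and] at hσ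
    have h4 : (univ.filter (fun x => σ x ∈ T)).card = T.card := by
      refine Finset.card_bij (fun x _ => σ x) ?_ ?_ ?_
      · intro x hx; simpa using hx
      · intro x _ y _ h; exact σ.injective h
      · intro y hy
        exact ⟨σ.symm y, by simpa using hy, by simp⟩
    have h5 : univ.filter (fun x => σ x ∈ T) = ((univ \ S).filter (fun x => σ x ∈ T)) ∪ S := by
      ext x
      simp only [mem_filter, mem_univ, true_and, mem_union, mem_sdiff]
      constructor
      · intro h
        by_cases hx : x ∈ S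
        · exact Or.inr hx
        · exact Or.inl ⟨hx, h⟩
      · rintro (⟨_, h⟩ | h)
        · exact h
        · exact hσ x h
    rw [← h4, h5, card_union_of_disjoint]
    rw [Finset.disjoint_left]
    intro x hx hx'
    simp only [mem_filter, mem_sdiff, mem_univ, true_and] at hx
    exact hx.1 hx'
  have h6 : (univ \ S).card * (into (insert a S) T).card + S.card * (into S T).card =
      T.card * (into S T).card := by
    have h7 : ∑ x ∈ univ \ S, ((into S T).filter (fun σ => σ x ∈ T)).card =
        (univ \ S).card * (into (insert a S) T).card := by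
      rw [Finset.sum_congr rfl fun x hx => h1 x (mem_sdiff.1 hx).2, Finset.sum_const, smul_eq_mul]
    have h8 : ∑ σ ∈ into S T, (((univ \ S).filter (fun x => σ x ∈ T)).card + S.card) =
        T.card * (into S T).card := by
      rw [Finset.sum_congr rfl h3, Finset.sum_const, smul_eq_mul, mul_comm]
    rw [Finset.sum_add_distrib, ← h2, h7, Finset.sum_const, smul_eq_mul] at h8
    rw [← h8, mul_comm S.card]
  have h9 : (univ \ S).card + S.card = Fintype.card X := by
    rw [card_sdiff_of_subset (subset_univ S), card_univ]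
    have := card_le_univ S
    omega
  have hT : T.card ≤ Fintype.card X := card_le_univ T
  have hpos : 0 < (univ \ S).card := card_pos.2 ⟨a, by simp [ha]⟩
  obtain ⟨u, hu⟩ : ∃ u, u = (univ \ S).card := ⟨_, rfl⟩
  obtain ⟨s, hs⟩ : ∃ s, s = S.card := ⟨_, rfl⟩
  obtain ⟨t, ht⟩ : ∃ t, t = T.card := ⟨_, rfl⟩
  obtain ⟨n, hn⟩ : ∃ n, n = Fintype.card X := ⟨_, rfl⟩
  obtain ⟨w, hw⟩ : ∃ w, w = (into S T).card := ⟨_, rfl⟩
  obtain ⟨w', hw'⟩ : ∃ w', w' = (into (insert a S) T).card := ⟨_, rfl⟩
  rw [← hu, ← hs, ← ht, ← hw, ← hw'] at h6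
  rw [← hu] at hpos
  rw [← hu, ← hs, ← hn] at h9
  rw [← ht, ← hn] at hT
  rw [← hn, ← hw', ← ht, ← hw]
  -- `u w' + s w = t w`, `u + s = n`, `t ≤ n`
  have h10 : u * (n * w') ≤ u * (t * w) := by
    have e1 : u * (n * w') + n * (s * w) = n * (t * w) := by
      calc u * (n * w') + n * (s * w) = n * (u * w' + s * w) := by ring
        _ = n * (t * w) := by rw [h6]
    have e2 : n * (t * w) = u * (t * w) + s * (t * w) := by rw [← h9]; ring
    have e3 : s * (t * w) ≤ n * (s * w) := by
      calc s * (t * w) = t * (s * w) := by ring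
        _ ≤ n * (s * w) := Nat.mul_le_mul_right _ hT
    omega
  exact Nat.le_of_mul_le_mul_left h10 hpos

theorem into_card (S T : Finset X) :
    (into S T).card * Fintype.card X ^ S.card ≤ T.card ^ S.card * (Fintype.card X).factorial := by
  classical
  induction S using Finset.induction_on with
  | empty =>
    simp only [card_empty, pow_zero, mul_one, one_mul]
    rw [← Fintype.card_perm]
    exact card_le_univ _
  | insert a S ha ih =>
    rw [card_insert_of_notMem ha, pow_succ, pow_succ]
    calc (into (insert a S) T).card * (Fintype.card X ^ S.card * Fintype.card X)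
        = (Fintype.card X * (into (insert a S) T).card) * Fintype.card X ^ S.card := by ring
      _ ≤ (T.card * (into S T).card) * Fintype.card X ^ S.card :=
          Nat.mul_le_mul_right _ (into_step S T a ha)
      _ = T.card * ((into S T).card * Fintype.card X ^ S.card) := by ring
      _ ≤ T.card * (T.card ^ S.card * (Fintype.card X).factorial) := Nat.mul_le_mul_left _ ih
      _ = T.card ^ S.card * T.card * (Fintype.card X).factorial := by ring

theorem into_card_real [Nonempty X] (S T : Finset X) :
    ((into S T).card : ℝ) ≤ ((T.card : ℝ) / Fintype.card X) ^ S.card *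
      (Fintype.card X).factorial := by
  have h := (Nat.cast_le (α := ℝ)).2 (into_card S T)
  push_cast at h
  have hpos : (0 : ℝ) < Fintype.card X := by exact_mod_cast Fintype.card_pos
  rw [div_pow, div_mul_eq_mul_div, le_div_iff₀ (by positivity)]
  exact h

end count

section robust

variable {X : Type*} [Fintype X] [DecidableEq X]

/-- A few permutations connect any two large sets. -/
theorem exists_perms [Nonempty X] (G m : ℕ) (hG : 0 < G) (hX : Fintype.card X = m * G) :
    ∃ π : Fin (2 * G ^ 2) → Equiv.Perm X, ∀ A B : Finset X, m ≤ A.card → m ≤ B.card →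
      ∃ i, ∃ a ∈ A, π i a ∈ B := by
  classical
  by_contra hcon
  push Not at hcon
  have hm : 0 < m := by
    have := Fintype.card_pos (α := X)
    rw [hX] at this
    exact Nat.pos_of_mul_pos_right this
  have hn : (0 : ℝ) < Fintype.card X := by exact_mod_cast Fintype.card_pos
  have hmr : (0 : ℝ) < m := by exact_mod_cast hm
  have hGr : (0 : ℝ) < G := by exact_mod_cast hG
  have hXr : (Fintype.card X : ℝ) = m * G := by rw [hX]; push_cast; ring
  -- the bad families
  have h1 : (univ : Finset (Fin (2 * G ^ 2) → Equiv.Perm X)) ⊆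
      ((univ : Finset (Finset X × Finset X)).filter (fun p => m ≤ p.1.card ∧ m ≤ p.2.card)).biUnion
        (fun p => Fintype.piFinset (fun _ => into p.1 p.2ᶜ)) := by
    intro π _
    obtain ⟨A, B, hA, hB, hAB⟩ := hcon π
    rw [mem_biUnion]
    refine ⟨(A, B), by simp [hA, hB], ?_⟩
    rw [Fintype.mem_piFinset]
    intro i
    simp only [into, mem_filter, mem_univ, true_and, mem_compl]
    exact fun a ha => hAB i a ha
  have h2 := (card_le_card h1).trans card_biUnion_le
  have h3 : ∀ p ∈ (univ : Finset (Finset X × Finset X)).filter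
      (fun p => m ≤ p.1.card ∧ m ≤ p.2.card),
      ((Fintype.piFinset (fun _ : Fin (2 * G ^ 2) => into p.1 p.2ᶜ)).card : ℝ) ≤
        Real.exp (-(2 * Fintype.card X)) *
          ((Fintype.card X).factorial : ℝ) ^ (2 * G ^ 2) := by
    intro p hp
    rw [mem_filter] at hp
    rw [Fintype.card_piFinset]
    simp only [prod_const, card_univ, Fintype.card_fin]
    have h4 := into_card_real p.1 p.2ᶜ
    have h5 : ((p.2ᶜ.card : ℝ) / Fintype.card X) ^ p.1.card ≤ Real.exp (-(m / G)) := by
      have h6 : (p.2ᶜ.card : ℝ) / Fintype.card X ≤ Real.exp (-(1 / G)) := by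
        have h7 : (p.2ᶜ.card : ℝ) = Fintype.card X - p.2.card := by
          rw [card_compl, Nat.cast_sub (card_le_univ _)]
        have h8 : (m : ℝ) ≤ p.2.card := by exact_mod_cast hp.2.2
        have h9 : (p.2ᶜ.card : ℝ) / Fintype.card X ≤ 1 - 1 / G := by
          rw [h7, sub_div, div_self hn.ne']
          have : (1 : ℝ) / G ≤ (p.2.card : ℝ) / Fintype.card X := by
            rw [hXr, div_le_div_iff₀ hGr (by positivity)]
            nlinarith
          linarith
        refine h9.trans ?_
        have := Real.add_one_le_exp (-(1 / (G : ℝ)))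
        linarith
      calc ((p.2ᶜ.card : ℝ) / Fintype.card X) ^ p.1.card
          ≤ (Real.exp (-(1 / G))) ^ p.1.card := pow_le_pow_left₀ (by positivity) h6 _
        _ ≤ (Real.exp (-(1 / G))) ^ m := by
            apply pow_le_pow_of_le_one (Real.exp_pos _).le _ hp.2.1
            rw [Real.exp_le_one_iff]
            have : (0 : ℝ) ≤ 1 / G := by positivity
            linarith
        _ = Real.exp (-(m / G)) := by
            rw [← Real.exp_nat_mul]; congr 1; ring
    have h10 : ((into p.1 p.2ᶜ).card : ℝ) ≤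
        Real.exp (-(m / G)) * (Fintype.card X).factorial :=
      h4.trans (mul_le_mul_of_nonneg_right h5 (by positivity))
    push_cast
    calc ((into p.1 p.2ᶜ).card : ℝ) ^ (2 * G ^ 2)
        ≤ (Real.exp (-(m / G)) * (Fintype.card X).factorial) ^ (2 * G ^ 2) :=
          pow_le_pow_left₀ (by positivity) h10 _
      _ = Real.exp (-(2 * Fintype.card X)) *
          ((Fintype.card X).factorial : ℝ) ^ (2 * G ^ 2) := by
          rw [mul_pow, ← Real.exp_nat_mul]
          congr 2
          rw [hXr]
          push_cast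
          field_simp
  have h11 : ((univ : Finset (Fin (2 * G ^ 2) → Equiv.Perm X)).card : ℝ) =
      ((Fintype.card X).factorial : ℝ) ^ (2 * G ^ 2) := by
    rw [card_univ, Fintype.card_fun, Fintype.card_perm, Fintype.card_fin]
    push_cast; rfl
  have h12 := (Nat.cast_le (α := ℝ)).2 h2
  rw [h11] at h12
  push_cast at h12
  have h13 := h12.trans (Finset.sum_le_sum h3)
  rw [Finset.sum_const, nsmul_eq_mul] at h13
  have h14 : ((((univ : Finset (Finset X × Finset X)).filter
      (fun p => m ≤ p.1.card ∧ m ≤ p.2.card)).card : ℕ) : ℝ) ≤ 4 ^ Fintype.card X := by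
    have : ((univ : Finset (Finset X × Finset X)).filter
      (fun p => m ≤ p.1.card ∧ m ≤ p.2.card)).card ≤ 4 ^ Fintype.card X := by
      refine (card_filter_le _ _).trans ?_
      rw [card_univ, Fintype.card_prod, Fintype.card_finset, ← mul_pow]
      norm_num
    exact_mod_cast this
  have hF : (0 : ℝ) < ((Fintype.card X).factorial : ℝ) ^ (2 * G ^ 2) := by
    apply pow_pos
    exact_mod_cast Nat.factorial_pos _
  have h15 : ((Fintype.card X).factorial : ℝ) ^ (2 * G ^ 2) ≤
      4 ^ Fintype.card X * (Real.exp (-(2 * Fintype.card X)) *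
        ((Fintype.card X).factorial : ℝ) ^ (2 * G ^ 2)) :=
    h13.trans (mul_le_mul_of_nonneg_right h14 (by positivity))
  have h16 : (4 : ℝ) ^ Fintype.card X * Real.exp (-(2 * Fintype.card X)) < 1 := by
    have h17 : Real.exp (-(2 * (Fintype.card X : ℝ))) = (Real.exp (-2)) ^ Fintype.card X := by
      rw [← Real.exp_nat_mul]; congr 1; ring
    rw [h17, ← mul_pow]
    apply pow_lt_one₀ (by positivity) _ Fintype.card_ne_zero
    have h18 : Real.exp (-2) < 1 / 4 := by
      have h19 : Real.exp 1 > 2 := by
        have := Real.exp_one_gt_d9; linarith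
      have h20 : Real.exp 2 > 4 := by
        have : Real.exp 2 = Real.exp 1 * Real.exp 1 := by rw [← Real.exp_add]; norm_num
        nlinarith
      rw [Real.exp_neg, one_div]
      exact inv_strictAnti₀ (by norm_num) h20
    linarith
  nlinarith

end robust

section scatter

theorem choose_mul_pow_le (v s : ℕ) (hv : 0 < v) :
    (v.choose s : ℝ) * ((s : ℝ) / v) ^ s ≤ 3 ^ s := by
  have hvr : (0 : ℝ) < v := by exact_mod_cast hv
  have h2 : (v.choose s : ℝ) ≤ (v : ℝ) ^ s / (s.factorial : ℝ) := Nat.choose_le_pow_div s v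
  have hf : (0 : ℝ) < s.factorial := by exact_mod_cast Nat.factorial_pos _
  have h3 : ((s : ℝ) ^ s) / s.factorial ≤ Real.exp s := Real.pow_div_factorial_le_exp s (by positivity) s
  have h4 : Real.exp s ≤ 3 ^ s := by
    have : Real.exp s = Real.exp 1 ^ s := by rw [← Real.exp_nat_mul, mul_one]
    rw [this]
    apply pow_le_pow_left₀ (Real.exp_pos _).le
    have := Real.exp_one_lt_d9; linarith
  calc (v.choose s : ℝ) * ((s : ℝ) / v) ^ s
      ≤ ((v : ℝ) ^ s / (s.factorial : ℝ)) * ((s : ℝ) / v) ^ s := by gcongr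
    _ = ((s : ℝ) ^ s) / s.factorial := by
        rw [div_pow]; field_simp
    _ ≤ 3 ^ s := h3.trans h4

variable {Z : Type*} [Fintype Z] [DecidableEq Z] {v : ℕ}

/-- The points with a neighbour in a block of `S`. -/
def nbh (blk : Z → Fin v) (nb : Z → Finset Z) (S : Finset (Fin v)) : Finset Z :=
  (univ.filter (fun i => blk i ∈ S)).biUnion nb

theorem card_blocks (blk : Z → Fin v) (M : ℕ)
    (hblk : ∀ q, (univ.filter (fun i => blk i = q)).card = M) (S : Finset (Fin v)) :
    (univ.filter (fun i => blk i ∈ S)).card = M * S.card := by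
  classical
  have h1 : (univ.filter (fun i => blk i ∈ S)) = S.biUnion (fun q => univ.filter (fun i => blk i = q)) := by
    ext i; simp
  rw [h1, card_biUnion, Finset.sum_congr rfl (fun q _ => hblk q), Finset.sum_const, smul_eq_mul,
    mul_comm]
  intro q _ q' _ hqq
  rw [Function.onFun, Finset.disjoint_left]
  intro i hi hi'
  simp only [mem_filter, mem_univ, true_and] at hi hi'
  exact hqq (hi.symm.trans hi')

/-- A permutation that scatters the neighbourhoods of small sets of blocks. -/
theorem exists_rho (blk : Z → Fin v) (M Δ a q : ℕ) (hv : 0 < v) (hM : 0 < M)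
    (hblk : ∀ q, (univ.filter (fun i => blk i = q)).card = M)
    (nb : Z → Finset Z) (hnb : ∀ i, (nb i).card ≤ Δ) (ha : 1 ≤ a)
    (hq : Δ * M + 4 ≤ q * (a - 1)) :
    ∃ ρ : Equiv.Perm Z, ∀ S : Finset (Fin v), S.Nonempty → S.card * 2 ^ q ≤ v →
      ((nbh blk nb S).filter (fun z => blk (ρ z) ∈ S)).card < a * S.card := by
  classical
  by_contra hcon
  push Not at hcon
  have hvr : (0 : ℝ) < v := by exact_mod_cast hv
  have hMr : (0 : ℝ) < M := by exact_mod_cast hM
  have hcard : Fintype.card Z = M * v := by
    have h := card_blocks blk M hblk univ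
    simp only [mem_univ, filter_true, card_univ, Fintype.card_fin] at h
    exact h
  have : Nonempty Z := by
    rw [← Fintype.card_pos_iff, hcard]; positivity
  have hcardr : (Fintype.card Z : ℝ) = M * v := by rw [hcard]; push_cast; ring
  -- the small sets
  obtain ⟨𝒮, h𝒮⟩ : ∃ 𝒮 : Finset (Finset (Fin v)), 𝒮 = univ.filter
    (fun S => S.Nonempty ∧ S.card * 2 ^ q ≤ v) := ⟨_, rfl⟩
  have h1 : (univ : Finset (Equiv.Perm Z)) ⊆ 𝒮.biUnion (fun S =>
      ((nbh blk nb S).powersetCard (a * S.card)).biUnion
        (fun Q => into Q (univ.filter (fun i => blk i ∈ S)))) := by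
    intro ρ _
    obtain ⟨S, hS1, hS2, hS3⟩ := hcon ρ
    rw [mem_biUnion]
    refine ⟨S, by rw [h𝒮]; simp [hS1, hS2], ?_⟩
    obtain ⟨Q, hQ1, hQ2⟩ := Finset.exists_subset_card_eq hS3
    rw [mem_biUnion]
    refine ⟨Q, mem_powersetCard.2 ⟨fun z hz => (mem_filter.1 (hQ1 hz)).1, hQ2⟩, ?_⟩
    simp only [into, mem_filter, mem_univ, true_and]
    intro z hz
    exact (mem_filter.1 (hQ1 hz)).2
  have h2 := (card_le_card h1).trans card_biUnion_le
  obtain ⟨F, hF⟩ : ∃ F : ℝ, F = (Fintype.card Z).factorial := ⟨_, rfl⟩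
  have hF0 : 0 < F := by rw [hF]; exact_mod_cast Nat.factorial_pos _
  have h3 : ∀ S ∈ 𝒮, ((((nbh blk nb S).powersetCard (a * S.card)).biUnion
        (fun Q => into Q (univ.filter (fun i => blk i ∈ S)))).card : ℝ) ≤
      (2 ^ (Δ * M) : ℝ) ^ S.card * (((S.card : ℝ) / v) ^ (a * S.card) * F) := by
    intro S _
    have h4 : (((nbh blk nb S).powersetCard (a * S.card)).biUnion
        (fun Q => into Q (univ.filter (fun i => blk i ∈ S)))).card ≤ _ := card_biUnion_le
    have h5 := (Nat.cast_le (α := ℝ)).2 h4
    push_cast at h5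
    refine h5.trans ?_
    have h6 : ∀ Q ∈ (nbh blk nb S).powersetCard (a * S.card),
        ((into Q (univ.filter (fun i => blk i ∈ S))).card : ℝ) ≤
          ((S.card : ℝ) / v) ^ (a * S.card) * F := by
      intro Q hQ
      rw [mem_powersetCard] at hQ
      have h7 := into_card_real Q (univ.filter (fun i => blk i ∈ S))
      rw [hQ.2, card_blocks blk M hblk, hcardr, ← hF] at h7
      have h8 : ((M * S.card : ℕ) : ℝ) / (M * v) = (S.card : ℝ) / v := by
        push_cast; field_simp
      rwa [h8] at h7
    refine (Finset.sum_le_sum h6).trans ?_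
    rw [Finset.sum_const, nsmul_eq_mul]
    apply mul_le_mul_of_nonneg_right _ (by positivity)
    have h9 : ((nbh blk nb S).powersetCard (a * S.card)).card ≤ (2 ^ (Δ * M)) ^ S.card := by
      rw [card_powersetCard]
      refine (Nat.choose_le_two_pow _ _).trans ?_
      rw [← pow_mul]
      apply Nat.pow_le_pow_right (by norm_num)
      refine (card_biUnion_le).trans ?_
      refine (Finset.sum_le_sum fun i _ => hnb i).trans ?_
      rw [Finset.sum_const, smul_eq_mul, card_blocks blk M hblk]
      exact le_of_eq (by ring)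
    exact_mod_cast h9
  have h10 : ∀ S ∈ 𝒮, (2 ^ (Δ * M) : ℝ) ^ S.card * (((S.card : ℝ) / v) ^ (a * S.card) * F) ≤
      ((S.card : ℝ) / v) ^ S.card * (1 / 12) ^ S.card * F := by
    intro S hS
    rw [h𝒮, mem_filter] at hS
    have hs : (S.card : ℝ) / v ≤ 1 / 2 ^ q := by
      rw [div_le_div_iff₀ hvr (by positivity), one_mul]
      exact_mod_cast hS.2.2
    have h11 : ((S.card : ℝ) / v) ^ (a * S.card) =
        ((S.card : ℝ) / v) ^ S.card * (((S.card : ℝ) / v) ^ (a - 1)) ^ S.card := by
      rw [← pow_mul, ← pow_add]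
      congr 1
      obtain ⟨a', rfl⟩ : ∃ a', a = a' + 1 := ⟨a - 1, by omega⟩
      simp only [Nat.add_sub_cancel]
      ring
    have h12 : (2 : ℝ) ^ (Δ * M) * ((S.card : ℝ) / v) ^ (a - 1) ≤ 1 / 12 := by
      have h13 : ((S.card : ℝ) / v) ^ (a - 1) ≤ (1 / 2 ^ q) ^ (a - 1) :=
        pow_le_pow_left₀ (by positivity) hs _
      have h14 : ((1 : ℝ) / 2 ^ q) ^ (a - 1) = 1 / 2 ^ (q * (a - 1)) := by
        rw [div_pow, one_pow, ← pow_mul]
      have h15 : (2 : ℝ) ^ (Δ * M) * 16 ≤ 2 ^ (q * (a - 1)) := by
        calc (2 : ℝ) ^ (Δ * M) * 16 = 2 ^ (Δ * M + 4) := by rw [pow_add]; norm_num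
          _ ≤ 2 ^ (q * (a - 1)) := pow_le_pow_right₀ (by norm_num) hq
      calc (2 : ℝ) ^ (Δ * M) * ((S.card : ℝ) / v) ^ (a - 1)
          ≤ 2 ^ (Δ * M) * (1 / 2 ^ (q * (a - 1))) := by rw [← h14]; gcongr
        _ ≤ 1 / 12 := by
            rw [mul_one_div, div_le_div_iff₀ (by positivity) (by norm_num)]
            have : (0 : ℝ) < 2 ^ (Δ * M) := by positivity
            linarith
    calc (2 ^ (Δ * M) : ℝ) ^ S.card * (((S.card : ℝ) / v) ^ (a * S.card) * F)
        = ((S.card : ℝ) / v) ^ S.card *
          ((2 : ℝ) ^ (Δ * M) * ((S.card : ℝ) / v) ^ (a - 1)) ^ S.card * F := by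
          rw [h11, mul_pow]; ring
      _ ≤ ((S.card : ℝ) / v) ^ S.card * (1 / 12) ^ S.card * F := by gcongr
  have h20 := (Nat.cast_le (α := ℝ)).2 h2
  push_cast at h20
  rw [card_univ, Fintype.card_perm, ← hF] at h20
  have h21 := h20.trans (Finset.sum_le_sum fun S hS => (h3 S hS).trans (h10 S hS))
  -- group by cardinality
  have h22 : ∑ S ∈ 𝒮, ((S.card : ℝ) / v) ^ S.card * (1 / 12) ^ S.card * F ≤
      ∑ s ∈ Finset.Icc 1 v, ((1 : ℝ) / 4) ^ s * F := by
    have h23 : ∑ S ∈ 𝒮, ((S.card : ℝ) / v) ^ S.card * (1 / 12) ^ S.card * F ≤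
        ∑ S ∈ (univ : Finset (Finset (Fin v))).filter (fun S => S.card ∈ Finset.Icc 1 v),
          ((S.card : ℝ) / v) ^ S.card * (1 / 12) ^ S.card * F := by
      apply Finset.sum_le_sum_of_subset_of_nonneg
      · intro S hS
        rw [h𝒮, mem_filter] at hS
        rw [mem_filter, mem_Icc]
        exact ⟨mem_univ _, card_pos.2 hS.2.1, by simpa using card_le_univ S⟩
      · intro S _ _; positivity
    refine h23.trans ?_
    rw [← Finset.sum_fiberwise_of_maps_to (s := (univ : Finset (Finset (Fin v))).filter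
      (fun S => S.card ∈ Finset.Icc 1 v)) (t := Finset.Icc 1 v) (g := fun S => S.card)
      (fun S hS => (mem_filter.1 hS).2)]
    refine Finset.sum_le_sum fun s hs => ?_
    have h24 : ∀ S ∈ ((univ : Finset (Finset (Fin v))).filter
        (fun S => S.card ∈ Finset.Icc 1 v)).filter (fun S => S.card = s),
        ((S.card : ℝ) / v) ^ S.card * (1 / 12) ^ S.card * F =
          ((s : ℝ) / v) ^ s * (1 / 12) ^ s * F := by
      intro S hS
      rw [(mem_filter.1 hS).2]
    rw [Finset.sum_congr rfl h24, Finset.sum_const, nsmul_eq_mul]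
    have h25 : ((((univ : Finset (Finset (Fin v))).filter
        (fun S => S.card ∈ Finset.Icc 1 v)).filter (fun S => S.card = s)).card : ℝ) ≤
        (v.choose s : ℝ) := by
      have : (((univ : Finset (Finset (Fin v))).filter
        (fun S => S.card ∈ Finset.Icc 1 v)).filter (fun S => S.card = s)).card ≤
        v.choose s := by
        have h26 : (((univ : Finset (Finset (Fin v))).filter
          (fun S => S.card ∈ Finset.Icc 1 v)).filter (fun S => S.card = s)) ⊆
          powersetCard s univ := by
          intro S hS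
          rw [mem_powersetCard]
          exact ⟨subset_univ _, (mem_filter.1 hS).2⟩
        refine (card_le_card h26).trans ?_
        rw [card_powersetCard, card_univ, Fintype.card_fin]
      exact_mod_cast this
    have h27 := choose_mul_pow_le v s hv
    calc ((((univ : Finset (Finset (Fin v))).filter
        (fun S => S.card ∈ Finset.Icc 1 v)).filter (fun S => S.card = s)).card : ℝ) *
          (((s : ℝ) / v) ^ s * (1 / 12) ^ s * F)
        ≤ (v.choose s : ℝ) * (((s : ℝ) / v) ^ s * (1 / 12) ^ s * F) := by gcongr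
      _ = ((v.choose s : ℝ) * ((s : ℝ) / v) ^ s) * ((1 / 12) ^ s * F) := by ring
      _ ≤ 3 ^ s * ((1 / 12) ^ s * F) := by gcongr
      _ = (1 / 4) ^ s * F := by
          rw [← mul_assoc, ← mul_pow]; norm_num
  have h28 : ∑ s ∈ Finset.Icc 1 v, ((1 : ℝ) / 4) ^ s * F < F := by
    rw [← Finset.sum_mul]
    have h29 : ∑ s ∈ Finset.Icc 1 v, ((1 : ℝ) / 4) ^ s ≤ 1 / 3 := by
      have h30 : ∀ u : ℕ, ∑ s ∈ Finset.Icc 1 u, ((1 : ℝ) / 4) ^ s = (1 - (1 / 4) ^ u) / 3 := by
        intro u
        induction u with
        | zero => simp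
        | succ u ih =>
          rw [Finset.sum_Icc_succ_top (by omega), ih, pow_succ]
          ring
      rw [h30]
      have : (0 : ℝ) ≤ (1 / 4) ^ v := by positivity
      linarith
    nlinarith
  linarith

end scatter

end Pool.Agent.MP_9cec2c_lc.Oblivious
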