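import Mathlib
import Pool.Agent.Lib.MP_9cec2c_lc.ROPerm

/-!
Induced matchings in robust graphs, dense subgraphs, and small hitting sets for cuts.
-/

set_option autoImplicit false

namespace Pool.Agent.MP_9cec2c_lc.Oblivious

open Finset

section graph

variable {Z : Type*} [Fintype Z] [DecidableEq Z]

/-- The neighbours of a point. -/
def nbr (E : Finset (Z × Z)) (i : Z) : Finset Z := univ.filter (fun j => (i, j) ∈ E ∨ (j, i) ∈ E)

/-- An induced matching between `A` and `B`. -/
structure IsInduced (E J : Finset (Z × Z)) (A B : Finset Z) : Prop where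
  sub : J ⊆ E
  side : ∀ p ∈ J, (p.1 ∈ A ∧ p.2 ∈ B) ∨ (p.1 ∈ B ∧ p.2 ∈ A)
  ind : ∀ p ∈ E, ∀ p' ∈ J, ∀ p'' ∈ J, (p.1 = p'.1 ∨ p.1 = p'.2) → (p.2 = p''.1 ∨ p.2 = p''.2) →
    p ∈ J
  dis : ∀ p ∈ J, ∀ p' ∈ J, ∀ z, (z = p.1 ∨ z = p.2) → (z = p'.1 ∨ z = p'.2) → p = p'

theorem exists_induced (E : Finset (Z × Z)) (hanti : ∀ p ∈ E, (p.2, p.1) ∉ E) (Δ m : ℕ)
    (hΔ : ∀ i, (nbr E i).card ≤ Δ)
    (hrob : ∀ A B : Finset Z, Disjoint A B → m ≤ A.card → m ≤ B.card →
      ∃ p ∈ E, (p.1 ∈ A ∧ p.2 ∈ B) ∨ (p.1 ∈ B ∧ p.2 ∈ A)) (t : ℕ) :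
    ∀ A B : Finset Z, Disjoint A B → m + t * (2 * Δ + 2) ≤ A.card →
      m + t * (2 * Δ + 2) ≤ B.card → ∃ J, IsInduced E J A B ∧ J.card = t := by
  classical
  induction t with
  | zero =>
    intro A B _ _ _
    refine ⟨∅, ⟨by simp, by simp, by simp, by simp⟩, by simp⟩
  | succ t ih =>
    intro A B hAB hA hB
    have hstep : (t + 1) * (2 * Δ + 2) = t * (2 * Δ + 2) + (2 * Δ + 2) := by ring
    rw [hstep] at hA hB
    obtain ⟨p0, hp0E, hp0⟩ := hrob A B hAB (by omega) (by omega)
    obtain ⟨R, hR⟩ : ∃ R, R = insert p0.1 (insert p0.2 (nbr E p0.1 ∪ nbr E p0.2)) := ⟨_, rfl⟩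
    have hRc : R.card ≤ 2 * Δ + 2 := by
      rw [hR]
      refine (card_insert_le _ _).trans ?_
      have h1 := card_insert_le p0.2 (nbr E p0.1 ∪ nbr E p0.2)
      have h2 := card_union_le (nbr E p0.1) (nbr E p0.2)
      have h3 := hΔ p0.1
      have h4 := hΔ p0.2
      omega
    have hR1 : p0.1 ∈ R := by rw [hR]; simp
    have hR2 : p0.2 ∈ R := by rw [hR]; simp
    have hR3 : ∀ j, (p0.1, j) ∈ E ∨ (j, p0.1) ∈ E → j ∈ R := by
      intro j hj
      rw [hR]
      simp only [mem_insert, mem_union, nbr, mem_filter, mem_univ, true_and]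
      exact Or.inr (Or.inr (Or.inl hj))
    have hR4 : ∀ j, (p0.2, j) ∈ E ∨ (j, p0.2) ∈ E → j ∈ R := by
      intro j hj
      rw [hR]
      simp only [mem_insert, mem_union, nbr, mem_filter, mem_univ, true_and]
      exact Or.inr (Or.inr (Or.inr hj))
    have hA' : m + t * (2 * Δ + 2) ≤ (A \ R).card := by
      have := le_card_sdiff R A
      omega
    have hB' : m + t * (2 * Δ + 2) ≤ (B \ R).card := by
      have := le_card_sdiff R B
      omega
    obtain ⟨J, hJ, hJc⟩ := ih (A \ R) (B \ R)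
      (Finset.disjoint_of_subset_left sdiff_subset (Finset.disjoint_of_subset_right sdiff_subset hAB))
      hA' hB'
    have hout : ∀ p ∈ J, p.1 ∉ R ∧ p.2 ∉ R := by
      intro p hp
      rcases hJ.side p hp with h | h
      · exact ⟨(mem_sdiff.1 h.1).2, (mem_sdiff.1 h.2).2⟩
      · exact ⟨(mem_sdiff.1 h.1).2, (mem_sdiff.1 h.2).2⟩
    have hout' : ∀ p ∈ J, ∀ z, (z = p.1 ∨ z = p.2) → z ∉ R := by
      intro p hp z hz
      rcases hz with rfl | rfl
      · exact (hout p hp).1
      · exact (hout p hp).2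
    have hin : ∀ z, (z = p0.1 ∨ z = p0.2) → z ∈ R := by
      rintro z (rfl | rfl)
      · exact hR1
      · exact hR2
    have hp0J : p0 ∉ J := fun h => (hout p0 h).1 hR1
    refine ⟨insert p0 J, ⟨?_, ?_, ?_, ?_⟩, by rw [card_insert_of_notMem hp0J, hJc]⟩
    · intro p hp
      rcases mem_insert.1 hp with rfl | hp
      · exact hp0E
      · exact hJ.sub hp
    · intro p hp
      rcases mem_insert.1 hp with rfl | hp
      · exact hp0
      · rcases hJ.side p hp with h | h
        · exact Or.inl ⟨(mem_sdiff.1 h.1).1, (mem_sdiff.1 h.2).1⟩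
        · exact Or.inr ⟨(mem_sdiff.1 h.1).1, (mem_sdiff.1 h.2).1⟩
    · intro p hp p' hp' p'' hp'' h1 h2
      rcases mem_insert.1 hp' with rfl | hp1
      · rcases mem_insert.1 hp'' with rfl | hp2
        · -- both endpoints on the new edge
          have hpe : p = (p.1, p.2) := rfl
          rcases h1 with h1 | h1 <;> rcases h2 with h2 | h2
          · exfalso
            rw [hpe, h1, h2] at hp
            exact hanti _ hp hp
          · have : p = p'' := Prod.ext h1 h2
            rw [this]; exact mem_insert_self _ _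
          · exfalso
            rw [hpe, h1, h2] at hp
            exact hanti _ hp hp0E
          · exfalso
            rw [hpe, h1, h2] at hp
            exact hanti _ hp hp
        · exfalso
          apply hout' p'' hp2 p.2 h2
          rcases h1 with h1 | h1
          · exact hR3 _ (Or.inl (by rw [← h1]; exact hp))
          · exact hR4 _ (Or.inl (by rw [← h1]; exact hp))
      · rcases mem_insert.1 hp'' with rfl | hp2
        · exfalso
          apply hout' p' hp1 p.1 h1
          rcases h2 with h2 | h2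
          · exact hR3 _ (Or.inr (by rw [← h2]; exact hp))
          · exact hR4 _ (Or.inr (by rw [← h2]; exact hp))
        · exact mem_insert_of_mem (hJ.ind p hp p' hp1 p'' hp2 h1 h2)
    · intro p hp p' hp' z h1 h2
      rcases mem_insert.1 hp with rfl | hp1
      · rcases mem_insert.1 hp' with rfl | hp2
        · rfl
        · exact absurd (hin z h1) (hout' p' hp2 z h2)
      · rcases mem_insert.1 hp' with rfl | hp2
        · exact absurd (hin z h2) (hout' p hp1 z h1)
        · exact hJ.dis p hp1 p' hp2 z h1 h2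

/-- The graph of a family of permutations. -/
theorem exists_graph [LinearOrder Z] [Nonempty Z] (G m : ℕ) (hG : 0 < G)
    (hZ : Fintype.card Z = m * G) :
    ∃ E : Finset (Z × Z), (∀ p ∈ E, (p.2, p.1) ∉ E) ∧ (∀ i, (nbr E i).card ≤ 4 * G ^ 2) ∧
      ∀ A B : Finset Z, Disjoint A B → m ≤ A.card → m ≤ B.card →
        ∃ p ∈ E, (p.1 ∈ A ∧ p.2 ∈ B) ∨ (p.1 ∈ B ∧ p.2 ∈ A) := by
  classical
  obtain ⟨π, hπ⟩ := exists_perms (X := Z) G m hG hZ
  refine ⟨univ.filter (fun p => p.1 < p.2 ∧ ∃ i, π i p.1 = p.2 ∨ π i p.2 = p.1), ?_, ?_, ?_⟩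
  · intro p hp hp'
    simp only [mem_filter, mem_univ, true_and] at hp hp'
    exact absurd hp.1 (not_lt.2 hp'.1.le)
  · intro i
    have h1 : nbr (univ.filter (fun p : Z × Z => p.1 < p.2 ∧ ∃ i, π i p.1 = p.2 ∨ π i p.2 = p.1)) i
        ⊆ (univ.image (fun s => π s i)) ∪ (univ.image (fun s => (π s).symm i)) := by
      intro j hj
      simp only [nbr, mem_filter, mem_univ, true_and] at hj
      simp only [mem_union, mem_image, mem_univ, true_and]
      rcases hj with ⟨_, s, h | h⟩ | ⟨_, s, h | h⟩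
      · exact Or.inl ⟨s, h⟩
      · exact Or.inr ⟨s, by rw [← h]; simp⟩
      · exact Or.inr ⟨s, by rw [← h]; simp⟩
      · exact Or.inl ⟨s, h⟩
    refine (card_le_card h1).trans ((card_union_le _ _).trans ?_)
    have h2 : (univ.image (fun s => π s i)).card ≤ 2 * G ^ 2 := by
      refine card_image_le.trans ?_
      rw [card_univ, Fintype.card_fin]
    have h3 : (univ.image (fun s => (π s).symm i)).card ≤ 2 * G ^ 2 := by
      refine card_image_le.trans ?_
      rw [card_univ, Fintype.card_fin]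
    omega
  · intro A B hAB hA hB
    obtain ⟨i, a, ha, hb⟩ := hπ A B hA hB
    have hne : a ≠ π i a := fun h => (Finset.disjoint_left.1 hAB ha) (h ▸ hb)
    rcases lt_or_gt_of_ne hne with h | h
    · exact ⟨(a, π i a), by simp only [mem_filter, mem_univ, true_and]; exact ⟨h, i, Or.inl rfl⟩,
        Or.inl ⟨ha, hb⟩⟩
    · exact ⟨(π i a, a), by simp only [mem_filter, mem_univ, true_and]; exact ⟨h, i, Or.inr rfl⟩,
        Or.inr ⟨hb, ha⟩⟩

end graph

section dense

variable {P : Type*} [DecidableEq P] {v : ℕ}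

/-- The edges inside `U`. -/
def inside (J : Finset P) (hd tl : P → Fin v) (U : Finset (Fin v)) : Finset P :=
  J.filter (fun p => hd p ∈ U ∧ tl p ∈ U)

/-- The edges between `S` and its complement. -/
def cut (J : Finset P) (hd tl : P → Fin v) (S : Finset (Fin v)) : Finset P :=
  J.filter (fun p => ¬ (hd p ∈ S ↔ tl p ∈ S))

theorem exists_dense (J : Finset P) (hd tl : P → Fin v) (κ : ℕ) (h : κ * v < J.card) :
    ∃ U : Finset (Fin v), U.Nonempty ∧ ∀ S ⊆ U,
      κ * S.card ≤ ((inside J hd tl U).filter (fun p => hd p ∈ S ∨ tl p ∈ S)).card := by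
  classical
  obtain ⟨U, _, hU⟩ := Finset.exists_max_image (univ : Finset (Finset (Fin v)))
    (fun U => ((inside J hd tl U).card : ℤ) - κ * U.card) ⟨∅, mem_univ _⟩
  refine ⟨U, ?_, ?_⟩
  · rw [Finset.nonempty_iff_ne_empty]
    intro h0
    have h1 := hU univ (mem_univ _)
    rw [h0] at h1
    have h2 : inside J hd tl univ = J := by
      unfold inside; simp
    have h3 : inside J hd tl ∅ = ∅ := by
      unfold inside; simp
    rw [h2, h3, card_univ, Fintype.card_fin] at h1
    simp only [card_empty, Nat.cast_zero, mul_zero, sub_zero] at h1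
    have h4 : ((κ * v : ℕ) : ℤ) < J.card := by exact_mod_cast h
    push_cast at h4
    linarith
  · intro S hS
    have h1 := hU (U \ S) (mem_univ _)
    have h2 : inside J hd tl U = inside J hd tl (U \ S) ∪
        (inside J hd tl U).filter (fun p => hd p ∈ S ∨ tl p ∈ S) := by
      ext p
      simp only [inside, mem_union, mem_filter, mem_sdiff]
      tauto
    have h3 : Disjoint (inside J hd tl (U \ S))
        ((inside J hd tl U).filter (fun p => hd p ∈ S ∨ tl p ∈ S)) := by
      rw [Finset.disjoint_left]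
      intro p hp hp'
      simp only [inside, mem_filter, mem_sdiff] at hp hp'
      tauto
    have h4 : (inside J hd tl U).card = (inside J hd tl (U \ S)).card +
        ((inside J hd tl U).filter (fun p => hd p ∈ S ∨ tl p ∈ S)).card := by
      rw [← card_union_of_disjoint h3, ← h2]
    have h5 : (U \ S).card + S.card = U.card := card_sdiff_add_card_eq_card hS
    have h6 : ((inside J hd tl U).card : ℤ) = (inside J hd tl (U \ S)).card +
        ((inside J hd tl U).filter (fun p => hd p ∈ S ∨ tl p ∈ S)).card := by exact_mod_cast h4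
    have h7 : (U.card : ℤ) = (U \ S).card + S.card := by rw [← h5]; push_cast; ring
    rw [h6, h7] at h1
    have h8 : ((κ * S.card : ℕ) : ℤ) ≤
        ((inside J hd tl U).filter (fun p => hd p ∈ S ∨ tl p ∈ S)).card := by
      push_cast
      linarith
    exact_mod_cast h8

theorem cut_large (J : Finset P) (hd tl : P → Fin v) (U S : Finset (Fin v)) (a : ℕ)
    (h1 : 2 * a * S.card ≤ ((inside J hd tl U).filter (fun p => hd p ∈ S ∨ tl p ∈ S)).card)
    (h2 : (J.filter (fun p => hd p ∈ S ∧ tl p ∈ S)).card ≤ a * S.card) :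
    a * S.card ≤ (cut (inside J hd tl U) hd tl S).card := by
  classical
  have h3 : (inside J hd tl U).filter (fun p => hd p ∈ S ∨ tl p ∈ S) ⊆
      (J.filter (fun p => hd p ∈ S ∧ tl p ∈ S)) ∪ cut (inside J hd tl U) hd tl S := by
    intro p hp
    simp only [inside, cut, mem_union, mem_filter] at hp ⊢
    tauto
  have h4 := (card_le_card h3).trans (card_union_le _ _)
  have h5 : 2 * a * S.card = a * S.card + a * S.card := by ring
  omega

/-- A small set meeting every nonempty cut. -/
theorem exists_hitting (J : Finset P) (hd tl : P → Fin v) :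
    ∃ T0 ⊆ J, T0.card ≤ v ∧ ∀ x : Fin v → ZMod 2, (∀ p ∈ T0, x (hd p) + x (tl p) = 0) →
      ∀ p ∈ J, x (hd p) + x (tl p) = 0 := by
  classical
  obtain ⟨T0, hT0, hmin⟩ := Finset.exists_min_image
    (J.powerset.filter (fun T => ∀ x : Fin v → ZMod 2, (∀ p ∈ T, x (hd p) + x (tl p) = 0) →
      ∀ p ∈ J, x (hd p) + x (tl p) = 0)) (fun T => T.card)
    ⟨J, by simp only [mem_filter, mem_powerset]; exact ⟨Subset.rfl, fun x h => h⟩⟩
  rw [mem_filter, mem_powerset] at hT0
  refine ⟨T0, hT0.1, ?_, hT0.2⟩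
  have h1 : ∀ p : T0, ∃ x : Fin v → ZMod 2, (∀ p' ∈ T0, x (hd p') + x (tl p') =
      if p' = p.1 then 1 else 0) := by
    intro p
    have h2 : ¬ (∀ x : Fin v → ZMod 2, (∀ p' ∈ T0.erase p.1, x (hd p') + x (tl p') = 0) →
      ∀ p ∈ J, x (hd p) + x (tl p) = 0) := by
      intro hcon
      have h3 := hmin (T0.erase p.1) (by
        rw [mem_filter, mem_powerset]
        exact ⟨(erase_subset _ _).trans hT0.1, hcon⟩)
      have h4 := card_erase_lt_of_mem p.2
      omega
    push Not at h2
    obtain ⟨x, hx1, q, hq, hx2⟩ := h2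
    refine ⟨x, fun p' hp' => ?_⟩
    by_cases h5 : p' = p.1
    · rw [if_pos h5]
      have h01 : ∀ c : ZMod 2, c = 0 ∨ c = 1 := by decide
      rcases h01 (x (hd p') + x (tl p')) with h6 | h6
      · exfalso
        apply hx2
        refine hT0.2 x (fun p'' hp'' => ?_) q hq
        by_cases h7 : p'' = p.1
        · rw [h7, ← h5]; exact h6
        · exact hx1 p'' (mem_erase.2 ⟨h7, hp''⟩)
      · exact h6
    · rw [if_neg h5]
      exact hx1 p' (mem_erase.2 ⟨h5, hp'⟩)
  choose x hx using h1
  have hinj : Function.Injective (fun (c : T0 → ZMod 2) (u : Fin v) => ∑ p : T0, c p * x p u) := by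
    intro c c' hcc
    funext p'
    have h8 : ∀ c : T0 → ZMod 2, (∑ p : T0, c p * x p (hd p'.1)) + (∑ p : T0, c p * x p (tl p'.1)) =
        c p' := by
      intro c
      rw [← Finset.sum_add_distrib]
      rw [Finset.sum_eq_single p']
      · rw [← mul_add, hx p' p'.1 p'.2, if_pos rfl, mul_one]
      · intro b _ hb
        rw [← mul_add, hx b p'.1 p'.2, if_neg (fun h => hb (Subtype.ext h.symm)), mul_zero]
      · intro h; exact absurd (mem_univ _) h
    rw [← h8 c, ← h8 c']
    have h9 := congrFun hcc (hd p'.1)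
    have h10 := congrFun hcc (tl p'.1)
    simp only at h9 h10
    rw [h9, h10]
  have h11 := Fintype.card_le_of_injective _ hinj
  rw [Fintype.card_fun, Fintype.card_fun, ZMod.card, Fintype.card_coe, Fintype.card_fin] at h11
  exact (Nat.pow_le_pow_iff_right (by norm_num)).1 h11

end dense

end Pool.Agent.MP_9cec2c_lc.Oblivious
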