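import Mathlib
import Pool.Agent.Lib.MP_9cec2c_lc.RODefs
import Pool.Agent.Lib.MP_9cec2c_lc.ROBasic
import Pool.Agent.Lib.MP_9cec2c_lc.ROGraph

/-!
The formula and the main rank inequality.
-/

set_option autoImplicit false

namespace Pool.Agent.MP_9cec2c_lc.Oblivious

open Finset
open Pool.Agent.MP_9cec2c_lc.DepthThree (RankLE sgn sgn_zero sgn_add sgn_sum sgn_mul_self bz
  rankLE_one rankLE_left rankLE_right rankLE_const rankLE_sum rankLE_prod)

section cyclic

variable {v : ℕ}

/-- The cyclic successor. -/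
def nxt (q : Fin v) : Fin v := ⟨(q.val + 1) % v, Nat.mod_lt _ (lt_of_le_of_lt (Nat.zero_le _) q.2)⟩

theorem nxt_bijective : Function.Bijective (nxt : Fin v → Fin v) := by
  rw [← Finite.injective_iff_bijective]
  intro q q' h
  unfold nxt at h
  rw [Fin.mk.injEq] at h
  apply Fin.ext
  have h1 := q.2
  have h2 := q'.2
  rcases Nat.lt_or_ge (q.val + 1) v with h3 | h3 <;> rcases Nat.lt_or_ge (q'.val + 1) v with h4 | h4
  · rw [Nat.mod_eq_of_lt h3, Nat.mod_eq_of_lt h4] at h; omega
  · have h5 : q'.val + 1 = v := by omega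
    rw [Nat.mod_eq_of_lt h3, h5, Nat.mod_self] at h; omega
  · have h5 : q.val + 1 = v := by omega
    rw [Nat.mod_eq_of_lt h4, h5, Nat.mod_self] at h; omega
  · omega

/-- The charge. -/
def chg (q : Fin v) : ZMod 2 := if q.val = 0 then 1 else 0

theorem exists_route (u : Fin v) : ∃ Y : Fin v → Bool, ∀ q, chg q + bz (Y q) + bz (Y (nxt q)) =
    if q = u then 1 else 0 := by
  refine ⟨fun q => decide (0 < q.val ∧ q.val ≤ u.val), fun q => ?_⟩
  have h1 := q.2
  have h2 := u.2
  have hbz : ∀ (p : Prop) [Decidable p], bz (decide p) = if p then 1 else 0 := by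
    intro p _
    unfold bz
    by_cases h : p <;> simp [h]
  rw [hbz, hbz]
  have hnv : (nxt q).val = if q.val + 1 < v then q.val + 1 else 0 := by
    unfold nxt
    show (q.val + 1) % v = _
    split_ifs with h3
    · exact Nat.mod_eq_of_lt h3
    · have h5 : q.val + 1 = v := by omega
      rw [h5, Nat.mod_self]
  rw [hnv]
  unfold chg
  have hqu : (q = u) ↔ (q.val = u.val) := Fin.ext_iff
  simp only [hqu]
  have e1 : (1 : ZMod 2) + 1 = 0 := by decide
  by_cases h3 : q.val + 1 < v
  · rw [if_pos h3]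
    by_cases h4 : q.val = 0
    · rw [if_pos h4, if_neg (by omega)]
      by_cases h5 : u.val = 0
      · rw [if_neg (by omega), if_pos (by omega)]; decide
      · rw [if_pos (by omega), if_neg (by omega)]; decide
    · rw [if_neg h4]
      by_cases h5 : q.val ≤ u.val
      · rw [if_pos (by omega)]
        by_cases h6 : q.val = u.val
        · rw [if_neg (by omega), if_pos h6]; decide
        · rw [if_pos (by omega), if_neg h6]; decide
      · rw [if_neg (by omega), if_neg (by omega), if_neg (by omega)]; decide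
  · rw [if_neg h3]
    by_cases h4 : q.val = 0
    · rw [if_pos h4, if_neg (by omega), if_neg (by omega), if_pos (by omega)]; decide
    · rw [if_neg h4]
      by_cases h6 : q.val = u.val
      · rw [if_pos (by omega), if_neg (by omega), if_pos h6]; decide
      · rw [if_neg (by omega), if_neg (by omega), if_neg h6]; decide

end cyclic

section formula

variable {v n : ℕ} {Z : Type*} [Fintype Z] [DecidableEq Z]

/-- The left side minus the right side of the equation `q`. -/
def val (E : Finset (Z × Z)) (hd tl : Z × Z → Fin v) (q : Fin v) (x : Z ⊕ Fin v → Bool) : ZMod 2 :=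
  chg q + bz (x (Sum.inr q)) + bz (x (Sum.inr (nxt q))) +
    ∑ p ∈ E, ((if hd p = q then 1 else 0) + (if tl p = q then 1 else 0)) *
      (bz (x (Sum.inl p.1)) * bz (x (Sum.inl p.2)))

/-- The variables of the equation `q`. -/
def locals (E : Finset (Z × Z)) (hd tl : Z × Z → Fin v) (q : Fin v) : Finset (Z ⊕ Fin v) :=
  {Sum.inr q, Sum.inr (nxt q)} ∪
    (E.filter (fun p => hd p = q ∨ tl p = q)).biUnion (fun p => {Sum.inl p.1, Sum.inl p.2})

omit [Fintype Z] in
theorem val_congr {E : Finset (Z × Z)} {hd tl : Z × Z → Fin v} {q : Fin v}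
    {x x' : Z ⊕ Fin v → Bool} (h : ∀ w ∈ locals E hd tl q, x w = x' w) :
    val E hd tl q x = val E hd tl q x' := by
  unfold val
  rw [h (Sum.inr q) (by simp [locals]), h (Sum.inr (nxt q)) (by simp [locals])]
  congr 1
  refine Finset.sum_congr rfl fun p hp => ?_
  by_cases h1 : hd p = q ∨ tl p = q
  · rw [h (Sum.inl p.1) ?_, h (Sum.inl p.2) ?_]
    · unfold locals
      rw [mem_union]; right
      rw [mem_biUnion]
      exact ⟨p, mem_filter.2 ⟨hp, h1⟩, by simp⟩
    · unfold locals
      rw [mem_union]; right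
      rw [mem_biUnion]
      exact ⟨p, mem_filter.2 ⟨hp, h1⟩, by simp⟩
  · rw [not_or] at h1
    rw [if_neg h1.1, if_neg h1.2]
    ring

omit [Fintype Z] [DecidableEq Z] in
theorem sum_val (hv : 0 < v) (E : Finset (Z × Z)) (hd tl : Z × Z → Fin v)
    (x : Z ⊕ Fin v → Bool) : ∑ q, val E hd tl q x = 1 := by
  classical
  unfold val
  rw [Finset.sum_add_distrib, Finset.sum_add_distrib, Finset.sum_add_distrib]
  have h1 : ∑ q : Fin v, chg q = 1 := by
    unfold chg
    rw [Finset.sum_eq_single (⟨0, hv⟩ : Fin v)]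
    · simp
    · intro b _ hb
      rw [if_neg]
      intro h
      exact hb (Fin.ext h)
    · intro h; exact absurd (mem_univ _) h
  have h2 : ∑ q : Fin v, bz (x (Sum.inr (nxt q))) = ∑ q : Fin v, bz (x (Sum.inr q)) :=
    Fintype.sum_bijective nxt nxt_bijective _ _ fun q => rfl
  have h3 : ∑ q : Fin v, ∑ p ∈ E, ((if hd p = q then (1 : ZMod 2) else 0) +
      (if tl p = q then 1 else 0)) * (bz (x (Sum.inl p.1)) * bz (x (Sum.inl p.2))) = 0 := by
    rw [Finset.sum_comm]
    refine Finset.sum_eq_zero fun p _ => ?_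
    rw [← Finset.sum_mul, Finset.sum_add_distrib]
    simp only [Finset.sum_ite_eq, mem_univ, if_true]
    have : (1 : ZMod 2) + 1 = 0 := by decide
    rw [this, zero_mul]
  rw [h1, h2, h3]
  have h4 : ∀ c : ZMod 2, 1 + c + c + 0 = 1 := by decide
  exact h4 _

/-- The clause of the equation `q` that forbids the local assignment `s`. -/
def cl (E : Finset (Z × Z)) (hd tl : Z × Z → Fin v) (e : Z ⊕ Fin v → Fin n) (q : Fin v)
    (s : Finset (Z ⊕ Fin v)) : Clause n :=
  (locals E hd tl q).image (fun w => (e w, decide (w ∉ s)))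

omit [Fintype Z] in
theorem falsifies_cl (E : Finset (Z × Z)) (hd tl : Z × Z → Fin v) (e : Z ⊕ Fin v → Fin n)
    (q : Fin v) (s : Finset (Z ⊕ Fin v)) (a : Fin n → Bool) :
    Falsifies a (cl E hd tl e q s) ↔ ∀ w ∈ locals E hd tl q, a (e w) = decide (w ∈ s) := by
  unfold Falsifies cl
  constructor
  · intro h w hw
    have := h (e w, decide (w ∉ s)) (mem_image.2 ⟨w, hw, rfl⟩)
    simp only at this
    by_cases h1 : w ∈ s
    · simpa [h1] using this
    · simpa [h1] using this
  · intro h l hl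
    obtain ⟨w, hw, rfl⟩ := mem_image.1 hl
    simp only
    rw [h w hw]
    by_cases h1 : w ∈ s <;> simp [h1]

/-- The formula. -/
def cnf (E : Finset (Z × Z)) (hd tl : Z × Z → Fin v) (e : Z ⊕ Fin v → Fin n) :
    Finset (Clause n) :=
  univ.biUnion (fun q => ((locals E hd tl q).powerset.filter
    (fun s => val E hd tl q (fun w => decide (w ∈ s)) = 1)).image (cl E hd tl e q))

omit [Fintype Z] in
theorem mem_cnf {E : Finset (Z × Z)} {hd tl : Z × Z → Fin v} {e : Z ⊕ Fin v → Fin n}
    {C : Clause n} : C ∈ cnf E hd tl e ↔ ∃ q s, s ⊆ locals E hd tl q ∧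
      val E hd tl q (fun w => decide (w ∈ s)) = 1 ∧ cl E hd tl e q s = C := by
  unfold cnf
  simp only [mem_biUnion, mem_univ, true_and, mem_image, mem_filter, mem_powerset]
  constructor
  · rintro ⟨q, s, ⟨h1, h2⟩, h3⟩
    exact ⟨q, s, h1, h2, h3⟩
  · rintro ⟨q, s, h1, h2, h3⟩
    exact ⟨q, s, ⟨h1, h2⟩, h3⟩

omit [Fintype Z] in
theorem unsat_cnf (hv : 0 < v) (E : Finset (Z × Z)) (hd tl : Z × Z → Fin v)
    (e : Z ⊕ Fin v → Fin n) (a : Fin n → Bool) : ∃ C ∈ cnf E hd tl e, Falsifies a C := by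
  classical
  have h1 : ∃ q, val E hd tl q (fun w => a (e w)) = 1 := by
    by_contra hcon
    push Not at hcon
    have h01 : ∀ c : ZMod 2, c ≠ 1 → c = 0 := by decide
    have h2 := sum_val hv E hd tl (fun w => a (e w))
    rw [Finset.sum_eq_zero (fun q _ => h01 _ (hcon q))] at h2
    exact absurd h2 (by decide)
  obtain ⟨q, hq⟩ := h1
  obtain ⟨s, hs⟩ : ∃ s, s = (locals E hd tl q).filter (fun w => a (e w) = true) := ⟨_, rfl⟩
  have hs2 : ∀ w ∈ locals E hd tl q, a (e w) = decide (w ∈ s) := by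
    intro w hw
    rw [hs]
    by_cases h : a (e w) = true
    · rw [h]; symm; rw [decide_eq_true_iff]; exact mem_filter.2 ⟨hw, h⟩
    · have h' : a (e w) = false := by simpa using h
      rw [h']; symm; rw [decide_eq_false_iff_not]
      intro h3
      exact h (mem_filter.1 h3).2
  refine ⟨cl E hd tl e q s, mem_cnf.2 ⟨q, s, by rw [hs]; exact filter_subset _ _, ?_, rfl⟩, ?_⟩
  · rw [← hq]
    exact (val_congr (fun w hw => hs2 w hw)).symm
  · rw [falsifies_cl]
    exact hs2

omit [Fintype Z] in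
theorem width_cnf {k0 : ℕ} (E : Finset (Z × Z)) (hd tl : Z × Z → Fin v)
    (e : Z ⊕ Fin v → Fin n) (hk : ∀ q, (locals E hd tl q).card ≤ k0) (C : Clause n)
    (hC : C ∈ cnf E hd tl e) : C.card ≤ k0 := by
  obtain ⟨q, s, _, _, rfl⟩ := mem_cnf.1 hC
  exact card_image_le.trans (hk q)

omit [Fintype Z] in
theorem card_cnf {k0 : ℕ} (E : Finset (Z × Z)) (hd tl : Z × Z → Fin v)
    (e : Z ⊕ Fin v → Fin n) (hk : ∀ q, (locals E hd tl q).card ≤ k0) :
    (cnf E hd tl e).card ≤ v * 2 ^ k0 := by
  unfold cnf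
  refine card_biUnion_le.trans ?_
  refine (Finset.sum_le_card_nsmul univ _ (2 ^ k0) fun q _ => ?_).trans ?_
  · refine card_image_le.trans ((card_filter_le _ _).trans ?_)
    rw [card_powerset]
    exact Nat.pow_le_pow_right (by norm_num) (hk q)
  · rw [card_univ, Fintype.card_fin, smul_eq_mul]

end formula

end Pool.Agent.MP_9cec2c_lc.Oblivious
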