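import Mathlib
import Pool.Agent.Lib.MP_9cec2c_lc.ROMain

/-!
The main rank inequality.
-/

set_option autoImplicit false

namespace Pool.Agent.MP_9cec2c_lc.Oblivious

open Finset
open Pool.Agent.MP_9cec2c_lc.DepthThree (RankLE sgn sgn_zero sgn_add sgn_sum sgn_mul_self bz
  rankLE_one rankLE_left rankLE_right rankLE_const rankLE_sum rankLE_prod)

section cancel

variable {V : Type*} [DecidableEq V] {𝕜 : Type*} [Field 𝕜]

/-- Cancellation in the sum over small subsets of `U`. -/
theorem cancel (U : Finset V) (τ : V → 𝕜) (i0 : V) (hU : i0 ∈ U) (h : τ i0 = -1) (t : ℕ) :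
    ∑ I ∈ U.powerset.filter (fun I => I.card ≤ t), ∏ i ∈ I, τ i =
      ∑ I ∈ U.powerset.filter (fun I => I.card = t ∧ i0 ∉ I), ∏ i ∈ I, τ i := by
  classical
  have h1 : ∑ I ∈ U.powerset.filter (fun I => I.card ≤ t), ∏ i ∈ I, τ i =
      ∑ I ∈ U.powerset.filter (fun I => I.card ≤ t ∧ i0 ∈ I), ∏ i ∈ I, τ i +
      ∑ I ∈ U.powerset.filter (fun I => I.card ≤ t ∧ i0 ∉ I), ∏ i ∈ I, τ i := by
    rw [← Finset.sum_filter_add_sum_filter_not _ (fun I => i0 ∈ I), filter_filter, filter_filter]
  have h2 : ∑ I ∈ U.powerset.filter (fun I => I.card ≤ t ∧ i0 ∈ I), ∏ i ∈ I, τ i =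
      ∑ I ∈ U.powerset.filter (fun I => I.card + 1 ≤ t ∧ i0 ∉ I), - ∏ i ∈ I, τ i := by
    symm
    refine Finset.sum_bij' (fun I _ => insert i0 I) (fun I _ => I.erase i0) ?_ ?_ ?_ ?_ ?_
    · intro I hI
      rw [mem_filter, mem_powerset] at hI ⊢
      refine ⟨Finset.insert_subset hU hI.1, ?_, mem_insert_self _ _⟩
      rw [card_insert_of_notMem hI.2.2]
      exact hI.2.1
    · intro I hI
      rw [mem_filter, mem_powerset] at hI ⊢
      refine ⟨(erase_subset _ _).trans hI.1, ?_, notMem_erase _ _⟩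
      rw [card_erase_of_mem hI.2.2]
      have := card_pos.2 ⟨i0, hI.2.2⟩
      omega
    · intro I hI
      rw [mem_filter] at hI
      exact erase_insert hI.2.2
    · intro I hI
      rw [mem_filter] at hI
      exact insert_erase hI.2.2
    · intro I hI
      rw [mem_filter] at hI
      rw [prod_insert hI.2.2, h]
      ring
  have h3 : ∑ I ∈ U.powerset.filter (fun I => I.card ≤ t ∧ i0 ∉ I), ∏ i ∈ I, τ i =
      ∑ I ∈ U.powerset.filter (fun I => I.card + 1 ≤ t ∧ i0 ∉ I), ∏ i ∈ I, τ i +
      ∑ I ∈ U.powerset.filter (fun I => I.card = t ∧ i0 ∉ I), ∏ i ∈ I, τ i := by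
    rw [← Finset.sum_union]
    · congr 1
      ext I
      simp only [mem_filter, mem_union, mem_powerset]
      constructor
      · rintro ⟨h4, h5, h6⟩
        rcases Nat.lt_or_ge I.card t with h7 | h7
        · exact Or.inl ⟨h4, h7, h6⟩
        · exact Or.inr ⟨h4, le_antisymm h5 h7, h6⟩
      · rintro (⟨h4, h5, h6⟩ | ⟨h4, h5, h6⟩)
        · exact ⟨h4, by omega, h6⟩
        · exact ⟨h4, by omega, h6⟩
    · rw [Finset.disjoint_left]
      intro I hI hI'
      rw [mem_filter] at hI hI'
      omega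
  rw [h1, h2, h3, Finset.sum_neg_distrib]
  ring

end cancel

section restrict

variable {v n : ℕ} {Z : Type*} [Fintype Z] [DecidableEq Z]

/-- The endpoint of an edge in `A`. -/
def aEnd (A : Finset Z) (p : Z × Z) : Z := if p.1 ∈ A then p.1 else p.2

/-- The other endpoint. -/
def bEnd (A : Finset Z) (p : Z × Z) : Z := if p.1 ∈ A then p.2 else p.1

omit [Fintype Z] in
theorem aEnd_mem {E J : Finset (Z × Z)} {A B : Finset Z} (hJ : IsInduced E J A B)
    (hAB : Disjoint A B) {p : Z × Z} (hp : p ∈ J) : aEnd A p ∈ A := by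
  unfold aEnd
  rcases hJ.side p hp with h | h
  · rw [if_pos h.1]; exact h.1
  · rw [if_neg (fun h' => Finset.disjoint_left.1 hAB h' h.1)]; exact h.2

omit [Fintype Z] in
theorem bEnd_mem {E J : Finset (Z × Z)} {A B : Finset Z} (hJ : IsInduced E J A B)
    (hAB : Disjoint A B) {p : Z × Z} (hp : p ∈ J) : bEnd A p ∈ B := by
  unfold bEnd
  rcases hJ.side p hp with h | h
  · rw [if_pos h.1]; exact h.2
  · rw [if_neg (fun h' => Finset.disjoint_left.1 hAB h' h.1)]; exact h.1

omit [Fintype Z] in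
theorem aEnd_cases (A : Finset Z) (p : Z × Z) : aEnd A p = p.1 ∨ aEnd A p = p.2 := by
  unfold aEnd; split_ifs <;> simp

omit [Fintype Z] in
theorem bEnd_cases (A : Finset Z) (p : Z × Z) : bEnd A p = p.1 ∨ bEnd A p = p.2 := by
  unfold bEnd; split_ifs <;> simp

/-- The value of a variable of the first kind under the restricted assignment. -/
def zval (J : Finset (Z × Z)) (A : Finset Z) (a b : Finset (Z × Z)) (z : Z) : Bool :=
  if z ∈ A then decide (∃ p ∈ J, p ∈ a ∧ z = aEnd A p) else
    decide (∃ p ∈ J, p ∈ b ∧ z = bEnd A p)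

/-- The restricted assignment. -/
def wval (J : Finset (Z × Z)) (A : Finset Z) (Y : Fin v → Bool) (a b : Finset (Z × Z)) :
    Z ⊕ Fin v → Bool := Sum.elim (zval J A a b) Y

omit [Fintype Z] in
theorem zval_prod {E J : Finset (Z × Z)} {A B : Finset Z} (hJ : IsInduced E J A B)
    (hAB : Disjoint A B) (a b : Finset (Z × Z)) {p : Z × Z} (hp : p ∈ E) :
    (zval J A a b p.1 = true ∧ zval J A a b p.2 = true) ↔ (p ∈ J ∧ p ∈ a ∧ p ∈ b) := by
  have key : ∀ z, zval J A a b z = true → ∃ p' ∈ J, (z = p'.1 ∨ z = p'.2) ∧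
      ((z ∈ A ∧ p' ∈ a) ∨ (z ∉ A ∧ p' ∈ b)) := by
    intro z hz
    unfold zval at hz
    by_cases h : z ∈ A
    · rw [if_pos h, decide_eq_true_iff] at hz
      obtain ⟨p', h1, h2, h3⟩ := hz
      refine ⟨p', h1, ?_, Or.inl ⟨h, h2⟩⟩
      rw [h3]; exact aEnd_cases A p'
    · rw [if_neg h, decide_eq_true_iff] at hz
      obtain ⟨p', h1, h2, h3⟩ := hz
      refine ⟨p', h1, ?_, Or.inr ⟨h, h2⟩⟩
      rw [h3]; exact bEnd_cases A p'
  constructor
  · rintro ⟨h1, h2⟩
    obtain ⟨p', hp', h3, h4⟩ := key _ h1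
    obtain ⟨p'', hp'', h5, h6⟩ := key _ h2
    have hpJ : p ∈ J := hJ.ind p hp p' hp' p'' hp'' h3 h5
    have e1 : p = p' := hJ.dis p hpJ p' hp' p.1 (Or.inl rfl) h3
    have e2 : p = p'' := hJ.dis p hpJ p'' hp'' p.2 (Or.inr rfl) h5
    rw [← e1] at h4
    rw [← e2] at h6
    refine ⟨hpJ, ?_⟩
    rcases hJ.side p hpJ with h | h
    · have h7 : p.2 ∉ A := fun h' => Finset.disjoint_left.1 hAB h' h.2
      rcases h4 with h4 | h4
      · rcases h6 with h6 | h6
        · exact absurd h6.1 h7
        · exact ⟨h4.2, h6.2⟩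
      · exact absurd h.1 h4.1
    · have h7 : p.1 ∉ A := fun h' => Finset.disjoint_left.1 hAB h' h.1
      rcases h4 with h4 | h4
      · exact absurd h4.1 h7
      · rcases h6 with h6 | h6
        · exact ⟨h6.2, h4.2⟩
        · exact absurd h.2 h6.1
  · rintro ⟨hpJ, ha, hb⟩
    rcases hJ.side p hpJ with h | h
    · have h7 : p.2 ∉ A := fun h' => Finset.disjoint_left.1 hAB h' h.2
      constructor
      · unfold zval
        rw [if_pos h.1, decide_eq_true_iff]
        exact ⟨p, hpJ, ha, by unfold aEnd; rw [if_pos h.1]⟩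
      · unfold zval
        rw [if_neg h7, decide_eq_true_iff]
        exact ⟨p, hpJ, hb, by unfold bEnd; rw [if_pos h.1]⟩
    · have h7 : p.1 ∉ A := fun h' => Finset.disjoint_left.1 hAB h' h.1
      constructor
      · unfold zval
        rw [if_neg h7, decide_eq_true_iff]
        exact ⟨p, hpJ, hb, by unfold bEnd; rw [if_neg h7]⟩
      · unfold zval
        rw [if_pos h.2, decide_eq_true_iff]
        exact ⟨p, hpJ, ha, by unfold aEnd; rw [if_neg h7]⟩

theorem val_wval {E J : Finset (Z × Z)} {A B : Finset Z} (hJ : IsInduced E J A B)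
    (hAB : Disjoint A B) (hd tl : Z × Z → Fin v) (Y : Fin v → Bool) (u : Fin v)
    (hY : ∀ q, chg q + bz (Y q) + bz (Y (nxt q)) = if q = u then 1 else 0)
    (a b : Finset (Z × Z)) (q : Fin v) :
    val E hd tl q (wval J A Y a b) = (if q = u then 1 else 0) +
      ∑ p ∈ J, ((if hd p = q then 1 else 0) + (if tl p = q then 1 else 0)) *
        (if p ∈ a ∧ p ∈ b then 1 else 0) := by
  classical
  unfold val
  have h1 : wval J A Y a b (Sum.inr q) = Y q := rfl
  have h2 : wval J A Y a b (Sum.inr (nxt q)) = Y (nxt q) := rfl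
  rw [h1, h2, hY]
  congr 1
  have h3 : ∀ p ∈ E, bz (wval J A Y a b (Sum.inl p.1)) * bz (wval J A Y a b (Sum.inl p.2)) =
      if p ∈ J then (if p ∈ a ∧ p ∈ b then (1 : ZMod 2) else 0) else 0 := by
    intro p hp
    have h4 := zval_prod hJ hAB a b hp
    show bz (zval J A a b p.1) * bz (zval J A a b p.2) = _
    unfold bz
    by_cases h5 : zval J A a b p.1 = true
    · by_cases h6 : zval J A a b p.2 = true
      · have h7 := h4.1 ⟨h5, h6⟩
        rw [if_pos h5, if_pos h6, if_pos h7.1, if_pos h7.2, mul_one]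
      · rw [if_neg h6, mul_zero]
        by_cases h8 : p ∈ J
        · rw [if_pos h8, if_neg (fun h9 => h6 (h4.2 ⟨h8, h9⟩).2)]
        · rw [if_neg h8]
    · rw [if_neg h5, zero_mul]
      by_cases h8 : p ∈ J
      · rw [if_pos h8, if_neg (fun h9 => h5 (h4.2 ⟨h8, h9⟩).1)]
      · rw [if_neg h8]
  rw [Finset.sum_congr rfl (fun p hp => by rw [h3 p hp])]
  have h4 : E.filter (fun p => p ∈ J) = J := by
    ext p
    rw [mem_filter]
    exact ⟨fun h => h.2, fun h => ⟨hJ.sub h, h⟩⟩
  have h5 : ∀ (f : Z × Z → ZMod 2) (g : Z × Z → ZMod 2),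
      ∑ p ∈ E, f p * (if p ∈ J then g p else 0) = ∑ p ∈ J, f p * g p := by
    intro f g
    have h6 : ∀ p ∈ E, f p * (if p ∈ J then g p else 0) = if p ∈ J then f p * g p else 0 := by
      intro p _; split_ifs <;> simp
    rw [Finset.sum_congr rfl h6, ← Finset.sum_filter, h4]
  exact h5 _ _

end restrict

section rank

variable {v n : ℕ} {Z : Type*} [Fintype Z] [DecidableEq Z] {𝕜 : Type*} [Field 𝕜]

/-- The sign of the conjunction at `p`. -/
def sg (𝕜 : Type*) [Field 𝕜] (a b : Finset (Z × Z)) (p : Z × Z) : 𝕜 :=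
  if p ∈ a ∧ p ∈ b then -1 else 1

/-- The big matrix. -/
def big (𝕜 : Type*) [Field 𝕜] (J : Finset (Z × Z)) (hd tl : Z × Z → Fin v)
    (U : Finset (Fin v)) (u : Fin v) (t : ℕ) (a b : Finset (Z × Z)) : 𝕜 :=
  ∑ S ∈ U.powerset.filter (fun S => S.card ≤ t),
    (if u ∈ S then -1 else 1) * ∏ p ∈ J \ cut J hd tl S, sg 𝕜 a b p

theorem sgn_one : sgn 𝕜 (1 : ZMod 2) = -1 := by
  unfold sgn; rw [if_neg (by decide)]

/-- The factorised form of a term. -/
theorem term_eq {E J : Finset (Z × Z)} {A B : Finset Z} (hJ : IsInduced E J A B)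
    (hAB : Disjoint A B) (hd tl : Z × Z → Fin v) (Y : Fin v → Bool) (u : Fin v)
    (hY : ∀ q, chg q + bz (Y q) + bz (Y (nxt q)) = if q = u then 1 else 0)
    (a b : Finset (Z × Z)) (S : Finset (Fin v)) :
    (if u ∈ S then -1 else 1) * ∏ p ∈ J \ cut J hd tl S, sg 𝕜 a b p =
      (∏ p ∈ J, sg 𝕜 a b p) * ∏ q ∈ S, sgn 𝕜 (val E hd tl q (wval J A Y a b)) := by
  classical
  rw [← sgn_sum]
  have h1 : ∑ q ∈ S, val E hd tl q (wval J A Y a b) = (if u ∈ S then 1 else 0) +
      ∑ p ∈ J, (if p ∈ cut J hd tl S then (if p ∈ a ∧ p ∈ b then (1 : ZMod 2) else 0) else 0) := by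
    rw [Finset.sum_congr rfl (fun q _ => val_wval hJ hAB hd tl Y u hY a b q),
      Finset.sum_add_distrib, Finset.sum_comm]
    congr 1
    · rw [Finset.sum_ite_eq']
    · refine Finset.sum_congr rfl fun p hp => ?_
      rw [← Finset.sum_mul, Finset.sum_add_distrib, Finset.sum_ite_eq, Finset.sum_ite_eq]
      have h11 : (1 : ZMod 2) + 1 = 0 := by decide
      have hmem : p ∈ cut J hd tl S ↔ ¬ (hd p ∈ S ↔ tl p ∈ S) := by
        unfold cut; rw [mem_filter]; tauto
      by_cases h2 : hd p ∈ S <;> by_cases h3 : tl p ∈ S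
      · rw [if_pos h2, if_pos h3, h11, zero_mul, if_neg (fun h => hmem.1 h (by tauto))]
      · rw [if_pos h2, if_neg h3, add_zero, one_mul, if_pos (hmem.2 (by tauto))]
      · rw [if_neg h2, if_pos h3, zero_add, one_mul, if_pos (hmem.2 (by tauto))]
      · rw [if_neg h2, if_neg h3, add_zero, zero_mul, if_neg (fun h => hmem.1 h (by tauto))]
  rw [h1, sgn_add, sgn_sum]
  have h2 : sgn 𝕜 (if u ∈ S then (1 : ZMod 2) else 0) = if u ∈ S then -1 else 1 := by
    split_ifs
    · exact sgn_one
    · exact sgn_zero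
  rw [h2, mul_left_comm, ← Finset.prod_mul_distrib]
  congr 1
  have h3 : cut J hd tl S ⊆ J := filter_subset _ _
  rw [← Finset.prod_sdiff h3]
  have h4 : ∏ p ∈ cut J hd tl S, (sg 𝕜 a b p * sgn 𝕜 (if p ∈ cut J hd tl S then
      (if p ∈ a ∧ p ∈ b then (1 : ZMod 2) else 0) else 0)) = 1 := by
    refine Finset.prod_eq_one fun p hp => ?_
    rw [if_pos hp]
    unfold sg
    split_ifs
    · rw [sgn_one]; ring
    · rw [sgn_zero]; ring
  rw [h4, mul_one]
  refine Finset.prod_congr rfl fun p hp => ?_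
  rw [if_neg (mem_sdiff.1 hp).2, sgn_zero, mul_one]

/-- The combined assignment of all `n` variables. -/
noncomputable def comb (e : Z ⊕ Fin v → Fin n) (J : Finset (Z × Z)) (A : Finset Z)
    (Y : Fin v → Bool) (a b : Finset (Z × Z)) : Fin n → Bool :=
  Function.extend e (wval J A Y a b) (fun _ => false)

omit [Fintype Z] in
theorem comb_apply {e : Z ⊕ Fin v → Fin n} (he : Function.Injective e) (J : Finset (Z × Z))
    (A : Finset Z) (Y : Fin v → Bool) (a b : Finset (Z × Z)) (w : Z ⊕ Fin v) :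
    comb e J A Y a b (e w) = wval J A Y a b w := by
  unfold comb
  rw [he.extend_apply]

open scoped Classical in
/-- The indicator of a clause has rank one. -/
theorem ind_rank {e : Z ⊕ Fin v → Fin n} (he : Function.Injective e) (E J : Finset (Z × Z))
    (A : Finset Z) (hd tl : Z × Z → Fin v) (Y : Fin v → Bool) (q : Fin v)
    (s : Finset (Z ⊕ Fin v)) :
    RankLE (fun a b : Finset (Z × Z) =>
      if Falsifies (comb e J A Y a b) (cl E hd tl e q s) then (1 : 𝕜) else 0) 1 := by
  have h1 : RankLE (fun a b : Finset (Z × Z) => ∏ w ∈ locals E hd tl q,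
      (if wval J A Y a b w = decide (w ∈ s) then (1 : 𝕜) else 0))
      (∏ w ∈ locals E hd tl q, 1) := by
    refine rankLE_prod _ (fun (w : Z ⊕ Fin v) (a b : Finset (Z × Z)) =>
      (if wval J A Y a b w = decide (w ∈ s) then (1 : 𝕜) else 0)) _ fun w _ => ?_
    rcases w with z | q'
    · by_cases hz : z ∈ A
      · refine (rankLE_left (β := Finset (Z × Z)) (fun a : Finset (Z × Z) =>
          if decide (∃ p ∈ J, p ∈ a ∧ z = aEnd A p) = decide (Sum.inl z ∈ s) then (1 : 𝕜) else 0)).congr
          fun a b => ?_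
        show (if zval J A a b z = decide (Sum.inl z ∈ s) then (1 : 𝕜) else 0) = _
        unfold zval
        rw [if_pos hz]
      · refine (rankLE_right (α := Finset (Z × Z)) (fun b : Finset (Z × Z) =>
          if decide (∃ p ∈ J, p ∈ b ∧ z = bEnd A p) = decide (Sum.inl z ∈ s) then (1 : 𝕜) else 0)).congr
          fun a b => ?_
        show (if zval J A a b z = decide (Sum.inl z ∈ s) then (1 : 𝕜) else 0) = _
        unfold zval
        rw [if_neg hz]
    · exact (rankLE_const (α := Finset (Z × Z)) (β := Finset (Z × Z))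
        (if Y q' = decide (Sum.inr q' ∈ s) then (1 : 𝕜) else 0)).congr fun a b => rfl
  rw [Finset.prod_const_one] at h1
  refine h1.congr fun a b => ?_
  rw [falsifies_cl]
  by_cases hf : ∀ w ∈ locals E hd tl q, comb e J A Y a b (e w) = decide (w ∈ s)
  · rw [if_pos hf]
    symm
    refine Finset.prod_eq_one fun w hw => ?_
    have := hf w hw
    rw [comb_apply he] at this
    exact if_pos this
  · rw [if_neg hf]
    symm
    push Not at hf
    obtain ⟨w, hw, hwne⟩ := hf
    refine Finset.prod_eq_zero hw (if_neg ?_)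
    rwa [comb_apply he] at hwne

open scoped Classical in
/-- The upper bound on the part of the big matrix inside one clause. -/
theorem big_clause_rank {e : Z ⊕ Fin v → Fin n} (he : Function.Injective e)
    {E J : Finset (Z × Z)} {A B : Finset Z} (hJ : IsInduced E J A B)
    (hAB : Disjoint A B) (hd tl : Z × Z → Fin v) (U : Finset (Fin v))
    (hUJ : ∀ p ∈ J, hd p ∈ U ∧ tl p ∈ U) (Y : Fin v → Bool) (u : Fin v) (huU : u ∈ U)
    (hY : ∀ q, chg q + bz (Y q) + bz (Y (nxt q)) = if q = u then 1 else 0)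
    (t : ℕ) (C : Clause n) (hC : C ∈ cnf E hd tl e) :
    RankLE (fun a b => if Falsifies (comb e J A Y a b) C then big 𝕜 J hd tl U u t a b else 0)
      (∑ S ∈ U.powerset.filter (fun S => S.card = t), 2 ^ (J \ cut J hd tl S).card) := by
  obtain ⟨q0, s, hs1, hs2, rfl⟩ := mem_cnf.1 hC
  by_cases hq0 : q0 ∈ U
  · have hsum := rankLE_sum (U.powerset.filter (fun S => S.card = t))
      (fun (S : Finset (Fin v)) (a b : Finset (Z × Z)) =>
        (if q0 ∉ S then (if u ∈ S then (-1 : 𝕜) else 1) else 0) *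
        ∏ p ∈ J \ cut J hd tl S, sg 𝕜 a b p)
      (fun S => 2 ^ (J \ cut J hd tl S).card)
      (fun S _ => (sign_rank (𝕜 := 𝕜) (J \ cut J hd tl S)).const_mul _)
    have hprod := (ind_rank (𝕜 := 𝕜) he E J A hd tl Y q0 s).mul hsum
    rw [one_mul] at hprod
    refine hprod.congr fun a b => ?_
    by_cases hf : Falsifies (comb e J A Y a b) (cl E hd tl e q0 s)
    · simp only [if_pos hf]
      rw [one_mul]
      unfold big
      simp only [term_eq hJ hAB hd tl Y u hY a b]
      rw [← Finset.mul_sum, cancel U _ q0 hq0]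
      · rw [Finset.mul_sum]
        have h5 : U.powerset.filter (fun S => S.card = t ∧ q0 ∉ S) =
            (U.powerset.filter (fun S => S.card = t)).filter (fun S => q0 ∉ S) := by
          rw [filter_filter]
        rw [h5, Finset.sum_filter]
        refine Finset.sum_congr rfl fun S _ => ?_
        by_cases h6 : q0 ∉ S
        · rw [if_pos h6, if_pos h6, ← term_eq hJ hAB hd tl Y u hY a b S]
        · rw [if_neg h6, if_neg h6, zero_mul]
      · have h7 : val E hd tl q0 (wval J A Y a b) = 1 := by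
          rw [← hs2]
          apply val_congr
          intro w hw
          rw [falsifies_cl] at hf
          rw [← comb_apply he]
          exact hf w hw
        rw [h7, sgn_one]
    · simp only [if_neg hf]
      rw [zero_mul]
  · -- the clause is always true
    refine (DepthThree.rankLE_zero _).congr fun a b => ?_
    rw [if_neg]
    intro hf
    rw [falsifies_cl] at hf
    have h7 : val E hd tl q0 (wval J A Y a b) = 1 := by
      rw [← hs2]
      apply val_congr
      intro w hw
      rw [← comb_apply he]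
      exact hf w hw
    have hne : ¬ q0 = u := fun h => hq0 (by rw [h]; exact huU)
    rw [val_wval hJ hAB hd tl Y u hY, if_neg hne, zero_add] at h7
    rw [Finset.sum_eq_zero] at h7
    · exact absurd h7 (by decide)
    · intro p hp
      have e1 : ¬ hd p = q0 := fun h => hq0 (by rw [← h]; exact (hUJ p hp).1)
      have e2 : ¬ tl p = q0 := fun h => hq0 (by rw [← h]; exact (hUJ p hp).2)
      rw [if_neg e1, if_neg e2, add_zero, zero_mul]

open scoped Classical in
/-- The lower bound on the rank of the big matrix. -/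
theorem big_rank (h2 : (2 : 𝕜) ≠ 0) (J : Finset (Z × Z)) (hd tl : Z × Z → Fin v)
    (U : Finset (Fin v)) (u : Fin v) (t : ℕ)
    (hcut : ∀ S ⊆ U, S.Nonempty → S.card ≤ t → (cut J hd tl S).Nonempty)
    (r : ℕ) (hr : RankLE (big 𝕜 J hd tl U u t) r) : 2 ^ J.card ≤ 2 ^ v * r := by
  obtain ⟨T0, hT0, hT0c, hhit⟩ := exists_hitting J hd tl
  obtain ⟨G, hG⟩ : ∃ G : Finset (Finset (Z × Z)), G = (J \ T0).powerset.image (fun T => T ∪ T0) :=
    ⟨_, rfl⟩
  have hGc : G.card = 2 ^ (J \ T0).card := by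
    rw [hG, card_image_of_injOn, card_powerset]
    intro T hT T' hT' hTT
    rw [mem_coe, mem_powerset] at hT hT'
    have h1 : ∀ T : Finset (Z × Z), T ⊆ J \ T0 → (T ∪ T0) \ T0 = T := by
      intro T hT
      ext p
      simp only [mem_sdiff, mem_union]
      constructor
      · rintro ⟨h3 | h3, h4⟩
        · exact h3
        · exact absurd h3 h4
      · intro h3
        exact ⟨Or.inl h3, (mem_sdiff.1 (hT h3)).2⟩
    simp only at hTT
    rw [← h1 T hT, ← h1 T' hT', hTT]
  have h3 : G.card ≤ r := by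
    refine card_le_of_conj hr (fun T => ∑ S ∈ U.powerset.filter (fun S => S.card ≤ t),
      (if u ∈ S then -1 else 1) * (if T ⊆ J \ cut J hd tl S then (-2 : 𝕜) ^ T.card else 0)) ?_ G ?_
    · intro a b
      unfold big sg
      simp only [sign_expand]
      simp only [Finset.mul_sum, Finset.sum_mul]
      rw [Finset.sum_comm]
      refine Finset.sum_congr rfl fun T _ => Finset.sum_congr rfl fun S _ => ?_
      ring
    · intro T hT
      rw [hG, mem_image] at hT
      obtain ⟨T1, hT1, rfl⟩ := hT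
      rw [mem_powerset] at hT1
      have hTJ : T1 ∪ T0 ⊆ J := union_subset (hT1.trans sdiff_subset) hT0
      rw [Finset.sum_eq_single ∅]
      · rw [if_neg (notMem_empty u), one_mul, if_pos]
        · exact pow_ne_zero _ (neg_ne_zero.2 h2)
        · have : cut J hd tl ∅ = ∅ := by unfold cut; simp
          rw [this, sdiff_empty]
          exact hTJ
      · intro S hS hne
        rw [mem_filter, mem_powerset] at hS
        suffices hns : ¬ (T1 ∪ T0 ⊆ J \ cut J hd tl S) by rw [if_neg hns, mul_zero]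
        intro hsub
        obtain ⟨p, hp⟩ := hcut S hS.1 (Finset.nonempty_iff_ne_empty.2 hne) hS.2
        have hp' : ¬ (hd p ∈ S ↔ tl p ∈ S) := by
          unfold cut at hp
          exact (mem_filter.1 hp).2
        have hpJ : p ∈ J := by
          unfold cut at hp
          exact (mem_filter.1 hp).1
        have h4 := hhit (fun q => if q ∈ S then 1 else 0) (fun p' hp' => by
          have h5 : p' ∈ J \ cut J hd tl S := hsub (mem_union_right _ hp')
          rw [mem_sdiff] at h5
          have h6 : hd p' ∈ S ↔ tl p' ∈ S := by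
            by_contra h7
            exact h5.2 (by unfold cut; exact mem_filter.2 ⟨h5.1, h7⟩)
          by_cases h8 : hd p' ∈ S
          · rw [if_pos h8, if_pos (h6.1 h8)]; decide
          · rw [if_neg h8, if_neg (fun h9 => h8 (h6.2 h9))]; decide) p hpJ
        by_cases h8 : hd p ∈ S
        · by_cases h9 : tl p ∈ S
          · exact hp' ⟨fun _ => h9, fun _ => h8⟩
          · rw [if_pos h8, if_neg h9] at h4
            exact absurd h4 (by decide)
        · by_cases h9 : tl p ∈ S
          · rw [if_neg h8, if_pos h9] at h4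
            exact absurd h4 (by decide)
          · exact hp' ⟨fun h => absurd h h8, fun h => absurd h h9⟩
      · intro h
        exfalso
        apply h
        rw [mem_filter, mem_powerset]
        exact ⟨empty_subset _, by simp⟩
  rw [hGc] at h3
  have h4 : (J \ T0).card + T0.card = J.card := card_sdiff_add_card_eq_card hT0
  calc 2 ^ J.card = 2 ^ T0.card * 2 ^ (J \ T0).card := by rw [← pow_add, add_comm, h4]
    _ ≤ 2 ^ v * r := Nat.mul_le_mul (Nat.pow_le_pow_right (by norm_num) hT0c) h3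

open scoped Classical in
/-- The main inequality. -/
theorem main_ineq (h2 : (2 : 𝕜) ≠ 0) {e : Z ⊕ Fin v → Fin n} (he : Function.Injective e)
    {E J : Finset (Z × Z)} {A B : Finset Z} (hJ : IsInduced E J A B)
    (hAB : Disjoint A B) (hd tl : Z × Z → Fin v) (U : Finset (Fin v))
    (hUJ : ∀ p ∈ J, hd p ∈ U ∧ tl p ∈ U) (Y : Fin v → Bool) (u : Fin v) (huU : u ∈ U)
    (hY : ∀ q, chg q + bz (Y q) + bz (Y (nxt q)) = if q = u then 1 else 0)
    (t β : ℕ) (ht : 0 < t) (hβ : 0 < β)
    (hcut : ∀ S ⊆ U, S.Nonempty → S.card ≤ t → β * S.card ≤ (cut J hd tl S).card)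
    (g : Clause n → (Fin n → Bool) → 𝕜) (r : Clause n → ℕ)
    (hr : ∀ C ∈ cnf E hd tl e, RankLE (fun a b => g C (comb e J A Y a b)) (r C))
    (hg : ∀ x, ∑ C ∈ cnf E hd tl e, (if Falsifies x C then g C x else 0) = 1) :
    2 ^ (β * t) ≤ 2 ^ (2 * v) * ∑ C ∈ cnf E hd tl e, r C := by
  obtain ⟨sig, hsig⟩ : ∃ sig, sig = ∑ S ∈ U.powerset.filter (fun S => S.card = t),
    2 ^ (J \ cut J hd tl S).card := ⟨_, rfl⟩
  have h3 : RankLE (big 𝕜 J hd tl U u t) (∑ C ∈ cnf E hd tl e, sig * r C) := by
    have h4 := rankLE_sum (cnf E hd tl e)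
      (fun (C : Clause n) (a b : Finset (Z × Z)) =>
        (if Falsifies (comb e J A Y a b) C then big 𝕜 J hd tl U u t a b else 0) *
          g C (comb e J A Y a b)) (fun C => sig * r C)
      (fun C hC => by
        have h5 := big_clause_rank (𝕜 := 𝕜) he hJ hAB hd tl U hUJ Y u huU hY t C hC
        rw [← hsig] at h5
        exact h5.mul (hr C hC))
    refine h4.congr fun a b => ?_
    have h6 := hg (comb e J A Y a b)
    calc big 𝕜 J hd tl U u t a b = big 𝕜 J hd tl U u t a b *
          ∑ C ∈ cnf E hd tl e, (if Falsifies (comb e J A Y a b) C then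
            g C (comb e J A Y a b) else 0) := by rw [h6, mul_one]
      _ = _ := by
          rw [Finset.mul_sum]
          refine Finset.sum_congr rfl fun C _ => ?_
          split_ifs <;> simp
  rw [← Finset.mul_sum] at h3
  have h4 := big_rank h2 J hd tl U u t (fun S hS hne hSt => by
    rw [← card_pos]
    have h5 := hcut S hS hne hSt
    have h6 : 0 < β * S.card := Nat.mul_pos hβ (card_pos.2 hne)
    omega) _ h3
  -- upper bound for `sig`
  have h5 : sig * 2 ^ (β * t) ≤ 2 ^ v * 2 ^ J.card := by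
    rw [hsig, Finset.sum_mul]
    have h6 : ∀ S ∈ U.powerset.filter (fun S => S.card = t),
        2 ^ (J \ cut J hd tl S).card * 2 ^ (β * t) ≤ 2 ^ J.card := by
      intro S hS
      rw [mem_filter, mem_powerset] at hS
      have hne : S.Nonempty := by rw [← card_pos, hS.2]; exact ht
      have h7 := hcut S hS.1 hne hS.2.le
      rw [hS.2] at h7
      rw [← pow_add]
      apply Nat.pow_le_pow_right (by norm_num)
      have h8 : (J \ cut J hd tl S).card + (cut J hd tl S).card = J.card :=
        card_sdiff_add_card_eq_card (filter_subset _ _)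
      omega
    refine (Finset.sum_le_sum h6).trans ?_
    rw [Finset.sum_const, smul_eq_mul]
    apply Nat.mul_le_mul_right
    refine (card_filter_le _ _).trans ?_
    rw [card_powerset]
    apply Nat.pow_le_pow_right (by norm_num)
    simpa using card_le_univ U
  obtain ⟨R, hR⟩ : ∃ R, R = ∑ C ∈ cnf E hd tl e, r C := ⟨_, rfl⟩
  rw [← hR] at h4 ⊢
  have h9 : 2 ^ J.card * 2 ^ (β * t) ≤ 2 ^ J.card * (2 ^ (2 * v) * R) := by
    calc 2 ^ J.card * 2 ^ (β * t) ≤ (2 ^ v * (sig * R)) * 2 ^ (β * t) :=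
          Nat.mul_le_mul_right _ h4
      _ = 2 ^ v * ((sig * 2 ^ (β * t)) * R) := by ring
      _ ≤ 2 ^ v * ((2 ^ v * 2 ^ J.card) * R) :=
          Nat.mul_le_mul_left _ (Nat.mul_le_mul_right _ h5)
      _ = 2 ^ J.card * (2 ^ (2 * v) * R) := by
          rw [two_mul v, pow_add]; ring
  exact Nat.le_of_mul_le_mul_left h9 (by positivity)

end rank

end Pool.Agent.MP_9cec2c_lc.Oblivious
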