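import Mathlib
import Pool.Agent.Lib.MP_9cec2c_lc.RODefs
import Pool.Agent.Lib.MP_9cec2c_lc.D3Rank

/-!
Words in which every letter occurs few times, and the rank of oblivious branching programs.
-/

set_option autoImplicit false

namespace Pool.Agent.MP_9cec2c_lc.Oblivious

open Finset
open Pool.Agent.MP_9cec2c_lc.DepthThree (RankLE rankLE_one rankLE_left rankLE_right rankLE_const
  rankLE_sum rankLE_prod rankLE_zero)

section words

variable {X : Type*} [DecidableEq X]

/-- The word is a concatenation of at most `r` pieces, each of which avoids `A` or avoids `B`. -/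
def Alt (A B : Finset X) (r : ℕ) (σ : List X) : Prop :=
  ∃ L : List (List X), L.flatten = σ ∧ L.length ≤ r ∧
    ∀ s ∈ L, (∀ x ∈ s, x ∉ A) ∨ (∀ x ∈ s, x ∉ B)

omit [DecidableEq X] in
theorem Alt.mono {A B A' B' : Finset X} {r r' : ℕ} {σ : List X} (h : Alt A B r σ) (hA : A' ⊆ A)
    (hB : B' ⊆ B) (hr : r ≤ r') : Alt A' B' r' σ := by
  obtain ⟨L, h1, h2, h3⟩ := h
  refine ⟨L, h1, h2.trans hr, fun s hs => ?_⟩
  rcases h3 s hs with h | h
  · exact Or.inl fun x hx hx' => h x hx (hA hx')
  · exact Or.inr fun x hx hx' => h x hx (hB hx')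

omit [DecidableEq X] in
theorem Alt.symm {A B : Finset X} {r : ℕ} {σ : List X} (h : Alt A B r σ) : Alt B A r σ := by
  obtain ⟨L, h1, h2, h3⟩ := h
  exact ⟨L, h1, h2, fun s hs => (h3 s hs).symm⟩

omit [DecidableEq X] in
theorem alt_one {A B : Finset X} {σ : List X} {r : ℕ} (hr : 1 ≤ r) (h : ∀ x ∈ σ, x ∉ A) :
    Alt A B r σ := by
  refine ⟨[σ], by simp, by simpa using hr, ?_⟩
  intro s hs
  rw [List.mem_singleton] at hs
  rw [hs]
  exact Or.inl h

omit [DecidableEq X] in
theorem alt_append {A B : Finset X} {σ τ : List X} {r : ℕ} (h : ∀ x ∈ σ, x ∉ A)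
    (hτ : Alt A B r τ) : Alt A B (r + 1) (σ ++ τ) := by
  obtain ⟨L, h1, h2, h3⟩ := hτ
  refine ⟨σ :: L, by simp [h1], by simpa using h2, ?_⟩
  intro s hs
  rcases List.mem_cons.1 hs with rfl | hs
  · exact Or.inl h
  · exact h3 s hs

/-- The letters of `A` that occur in the word. -/
def occ (A : Finset X) (σ : List X) : Finset X := A.filter (fun x => x ∈ σ)

theorem card_occ_concat (A : Finset X) (σ : List X) (y : X) :
    (occ A (σ ++ [y])).card ≤ (occ A σ).card + if y ∈ A then 1 else 0 := by
  by_cases hy : y ∈ A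
  · rw [if_pos hy]
    have : occ A (σ ++ [y]) ⊆ insert y (occ A σ) := by
      intro x hx
      simp only [occ, mem_filter, List.mem_append, List.mem_singleton, mem_insert] at hx ⊢
      tauto
    exact (card_le_card this).trans (card_insert_le _ _)
  · rw [if_neg hy, add_zero]
    apply card_le_card
    intro x hx
    simp only [occ, mem_filter, List.mem_append, List.mem_singleton] at hx ⊢
    rcases hx with ⟨h1, h2 | h2⟩
    · exact ⟨h1, h2⟩
    · exact absurd (h2 ▸ h1) hy

/-- Either no half occurs at all, or there is a prefix in which exactly half of the letters of one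
of the sets occur, and less than half of the letters of the other one. -/
theorem exists_prefix (A B : Finset X) (hAB : Disjoint A B) (h : ℕ) (hh : 0 < h) (σ : List X) :
    (occ A σ).card < h ∨
    (∃ σ1 σ2, σ = σ1 ++ σ2 ∧ (occ A σ1).card = h ∧ (occ B σ1).card < h) ∨
    (∃ σ1 σ2, σ = σ1 ++ σ2 ∧ (occ B σ1).card = h ∧ (occ A σ1).card < h) := by
  classical
  by_cases hcase : ∃ j, h ≤ (occ A (σ.take j)).card ∨ h ≤ (occ B (σ.take j)).card
  · obtain ⟨j, hj⟩ : ∃ j, j = Nat.find hcase := ⟨_, rfl⟩
    have hj1 := Nat.find_spec hcase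
    rw [← hj] at hj1
    have hj0 : j ≠ 0 := by
      rintro h0
      rw [h0] at hj1
      simp only [List.take_zero] at hj1
      have e : ∀ C : Finset X, (occ C ([] : List X)).card = 0 := by
        intro C
        rw [card_eq_zero]
        unfold occ
        simp
      rw [e, e] at hj1
      omega
    obtain ⟨i, rfl⟩ := Nat.exists_eq_succ_of_ne_zero hj0
    have hi := Nat.find_min hcase (m := i) (by rw [← hj]; exact Nat.lt_succ_self i)
    rw [not_or, not_le, not_le] at hi
    right
    by_cases hlen : i < σ.length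
    · have htake : σ.take (i + 1) = σ.take i ++ [σ[i]] := by
        rw [List.take_succ_eq_append_getElem hlen]
      have hA := card_occ_concat A (σ.take i) σ[i]
      have hB := card_occ_concat B (σ.take i) σ[i]
      rw [← htake] at hA hB
      have hσ : σ = σ.take (i + 1) ++ σ.drop (i + 1) := (List.take_append_drop _ _).symm
      rcases hj1 with hj1 | hj1
      · left
        refine ⟨σ.take (i + 1), σ.drop (i + 1), hσ, ?_, ?_⟩
        · have : (occ A (σ.take (i + 1))).card ≤ (occ A (σ.take i)).card + 1 :=
            hA.trans (by split_ifs <;> omega)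
          have h4 : h ≤ (occ A (σ.take (i + 1))).card := hj1
          omega
        · have hyA : σ[i] ∈ A := by
            by_contra hcon
            rw [if_neg hcon] at hA
            have h4 : h ≤ (occ A (σ.take (i + 1))).card := hj1
            omega
          have hyB : σ[i] ∉ B := Finset.disjoint_left.1 hAB hyA
          rw [if_neg hyB] at hB
          omega
      · right
        refine ⟨σ.take (i + 1), σ.drop (i + 1), hσ, ?_, ?_⟩
        · have : (occ B (σ.take (i + 1))).card ≤ (occ B (σ.take i)).card + 1 :=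
            hB.trans (by split_ifs <;> omega)
          have h4 : h ≤ (occ B (σ.take (i + 1))).card := hj1
          omega
        · have hyB : σ[i] ∈ B := by
            by_contra hcon
            rw [if_neg hcon] at hB
            have h4 : h ≤ (occ B (σ.take (i + 1))).card := hj1
            omega
          have hyA : σ[i] ∉ A := Finset.disjoint_right.1 hAB hyB
          rw [if_neg hyA] at hA
          omega
    · exfalso
      have e1 : σ.take (i + 1) = σ := List.take_of_length_le (by omega)
      have e2 : σ.take i = σ := List.take_of_length_le (by omega)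
      rw [e2] at hi
      have hj2 : h ≤ (occ A (σ.take (i + 1))).card ∨ h ≤ (occ B (σ.take (i + 1))).card := hj1
      rw [e1] at hj2
      omega
  · left
    push Not at hcase
    have := (hcase σ.length).1
    rwa [List.take_length] at this

theorem exists_alt (m : ℕ) (K : ℕ) :
    ∀ (σ : List X) (A B : Finset X) (k1 k2 : ℕ), k1 + k2 = K → Disjoint A B →
      (∀ x ∈ A, σ.count x ≤ k1) → (∀ x ∈ B, σ.count x ≤ k2) →
      A.card = m * 2 ^ K → B.card = m * 2 ^ K →
      ∃ A' ⊆ A, ∃ B' ⊆ B, A'.card = m ∧ B'.card = m ∧ Alt A' B' (K + 1) σ := by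
  classical
  induction K with
  | zero =>
    intro σ A B k1 k2 hK hAB h1 h2 hA hB
    rw [pow_zero, mul_one] at hA hB
    refine ⟨A, Subset.rfl, B, Subset.rfl, hA, hB, alt_one (by omega) ?_⟩
    intro x hx hxA
    have := h1 x hxA
    have h3 := List.count_pos_iff.2 hx
    omega
  | succ K ih =>
    intro σ A B k1 k2 hK hAB h1 h2 hA hB
    obtain ⟨h, hh⟩ : ∃ h, h = m * 2 ^ K := ⟨_, rfl⟩
    have hA' : A.card = 2 * h := by rw [hA, hh, pow_succ]; ring
    have hB' : B.card = 2 * h := by rw [hB, hh, pow_succ]; ring
    have hmh : m ≤ h := by rw [hh]; exact Nat.le_mul_of_pos_right m (by positivity)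
    rcases Nat.eq_zero_or_pos m with hm0 | hmpos
    · refine ⟨∅, empty_subset _, ∅, empty_subset _, by simp [hm0], by simp [hm0],
        alt_one (by omega) (by simp)⟩
    have hhpos : 0 < h := lt_of_lt_of_le hmpos hmh
    rcases exists_prefix A B hAB h hhpos σ with hc | ⟨σ1, σ2, hσ, hc1, hc2⟩ | ⟨σ1, σ2, hσ, hc1, hc2⟩
    · -- few letters of `A` occur
      have h3 : m ≤ (A \ occ A σ).card := by
        have := le_card_sdiff (occ A σ) A
        omega
      obtain ⟨A', hA1, hA2⟩ := Finset.exists_subset_card_eq h3
      obtain ⟨B', hB1, hB2⟩ := Finset.exists_subset_card_eq (show m ≤ B.card by omega)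
      refine ⟨A', hA1.trans sdiff_subset, B', hB1, hA2, hB2, alt_one (by omega) ?_⟩
      intro x hx hxA
      have h4 := mem_sdiff.1 (hA1 hxA)
      exact h4.2 (by unfold occ; exact mem_filter.2 ⟨h4.1, hx⟩)
    · -- half of `A` occurs in the prefix
      obtain ⟨B1, hB1, hB2⟩ := Finset.exists_subset_card_eq (show h ≤ (B \ occ B σ1).card by
        have := le_card_sdiff (occ B σ1) B
        omega)
      have hk1 : k1 ≠ 0 := by
        rintro rfl
        have h5 : (occ A σ1).Nonempty := by rw [← card_pos]; omega
        obtain ⟨x, hx⟩ := h5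
        unfold occ at hx
        rw [mem_filter] at hx
        have h6 := h1 x hx.1
        have h7 := List.count_pos_iff.2 hx.2
        rw [hσ, List.count_append] at h6
        omega
      obtain ⟨A', hA1, B', hB3, hA2, hB4, halt⟩ := ih σ2 (occ A σ1) B1 (k1 - 1) k2 (by omega)
        (Finset.disjoint_of_subset_left (filter_subset _ _)
          (Finset.disjoint_of_subset_right (hB1.trans sdiff_subset) hAB))
        (fun x hx => by
          unfold occ at hx
          rw [mem_filter] at hx
          have h6 := h1 x hx.1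
          have h7 := List.count_pos_iff.2 hx.2
          rw [hσ, List.count_append] at h6
          omega)
        (fun x hx => by
          have h6 := h2 x (mem_sdiff.1 (hB1 hx)).1
          rw [hσ, List.count_append] at h6
          omega)
        (by rw [hc1, hh]) (by rw [hB2, hh])
      refine ⟨A', hA1.trans (filter_subset _ _), B', hB3.trans (hB1.trans sdiff_subset), hA2, hB4, ?_⟩
      rw [hσ]
      apply Alt.symm
      apply alt_append _ halt.symm
      intro x hx hxB
      have h8 := mem_sdiff.1 (hB1 (hB3 hxB))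
      exact h8.2 (by unfold occ; exact mem_filter.2 ⟨h8.1, hx⟩)
    · -- half of `B` occurs in the prefix
      obtain ⟨A1, hA1, hA2⟩ := Finset.exists_subset_card_eq (show h ≤ (A \ occ A σ1).card by
        have := le_card_sdiff (occ A σ1) A
        omega)
      have hk2 : k2 ≠ 0 := by
        rintro rfl
        have h5 : (occ B σ1).Nonempty := by rw [← card_pos]; omega
        obtain ⟨x, hx⟩ := h5
        unfold occ at hx
        rw [mem_filter] at hx
        have h6 := h2 x hx.1
        have h7 := List.count_pos_iff.2 hx.2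
        rw [hσ, List.count_append] at h6
        omega
      obtain ⟨A', hA3, B', hB3, hA4, hB4, halt⟩ := ih σ2 A1 (occ B σ1) k1 (k2 - 1) (by omega)
        (Finset.disjoint_of_subset_left (hA1.trans sdiff_subset)
          (Finset.disjoint_of_subset_right (filter_subset _ _) hAB))
        (fun x hx => by
          have h6 := h1 x (mem_sdiff.1 (hA1 hx)).1
          rw [hσ, List.count_append] at h6
          omega)
        (fun x hx => by
          unfold occ at hx
          rw [mem_filter] at hx
          have h6 := h2 x hx.1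
          have h7 := List.count_pos_iff.2 hx.2
          rw [hσ, List.count_append] at h6
          omega)
        (by rw [hA2, hh]) (by rw [hc1, hh])
      refine ⟨A', hA3.trans (hA1.trans sdiff_subset), B', hB3.trans (filter_subset _ _), hA4, hB4, ?_⟩
      rw [hσ]
      apply alt_append _ halt
      intro x hx hxA
      have h8 := mem_sdiff.1 (hA1 (hA3 hxA))
      exact h8.2 (by unfold occ; exact mem_filter.2 ⟨h8.1, hx⟩)

/-- Several words at once. -/
theorem exists_alt_all (k m : ℕ) (W : Finset (List X)) :
    ∀ (A B : Finset X), Disjoint A B → (∀ σ ∈ W, ∀ x, σ.count x ≤ k) →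
      A.card = m * (2 ^ (2 * k)) ^ W.card → B.card = m * (2 ^ (2 * k)) ^ W.card →
      ∃ A' ⊆ A, ∃ B' ⊆ B, A'.card = m ∧ B'.card = m ∧ ∀ σ ∈ W, Alt A' B' (2 * k + 1) σ := by
  classical
  induction W using Finset.induction_on with
  | empty =>
    intro A B _ _ hA hB
    simp only [card_empty, pow_zero, mul_one] at hA hB
    exact ⟨A, Subset.rfl, B, Subset.rfl, hA, hB, by simp⟩
  | insert σ W hσ ih =>
    intro A B hAB hcount hA hB
    rw [card_insert_of_notMem hσ] at hA hB
    obtain ⟨A1, hA1, B1, hB1, hA2, hB2, halt⟩ := exists_alt (m * (2 ^ (2 * k)) ^ W.card) (2 * k)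
      σ A B k k (by ring) hAB (fun x _ => hcount σ (mem_insert_self _ _) x)
      (fun x _ => hcount σ (mem_insert_self _ _) x) (by rw [hA]; ring) (by rw [hB]; ring)
    obtain ⟨A', hA3, B', hB3, hA4, hB4, halt'⟩ := ih A1 B1
      (Finset.disjoint_of_subset_left hA1 (Finset.disjoint_of_subset_right hB1 hAB))
      (fun τ hτ x => hcount τ (mem_insert_of_mem hτ) x) hA2 hB2
    refine ⟨A', hA3.trans hA1, B', hB3.trans hB1, hA4, hB4, ?_⟩
    intro τ hτ
    rcases mem_insert.1 hτ with rfl | hτ
    · exact halt.mono hA3 hB3 le_rfl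
    · exact halt' τ hτ

end words

section abp

variable {α β : Type*} {𝕜 : Type*} [Field 𝕜] {n w : ℕ}

/-- All entries have small rank. -/
def MatRank (M : α → β → Matrix (Fin w) (Fin w) 𝕜) (r : ℕ) : Prop :=
  ∀ i j, RankLE (fun a b => M a b i j) r

theorem matRank_mul {M M' : α → β → Matrix (Fin w) (Fin w) 𝕜} {r s : ℕ} (h : MatRank M r)
    (h' : MatRank M' s) : MatRank (fun a b => M a b * M' a b) (w * (r * s)) := by
  intro i j
  have h1 := rankLE_sum (univ : Finset (Fin w)) (fun k a b => M a b i k * M' a b k j)
    (fun _ => r * s) (fun k _ => (h i k).mul (h' k j))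
  rw [Finset.sum_const, card_univ, Fintype.card_fin, smul_eq_mul] at h1
  exact h1.congr fun a b => Matrix.mul_apply

theorem matRank_one : MatRank (fun (_ : α) (_ : β) => (1 : Matrix (Fin w) (Fin w) 𝕜)) 1 :=
  fun _ _ => rankLE_const _

/-- The rank of a product of layers. -/
theorem layers_rank (x : α → β → Fin n → Bool) (a0 : α) (b0 : β) (A B : Finset (Fin n))
    (hA : ∀ i ∉ A, ∀ a b, x a b i = x a0 b i) (hB : ∀ i ∉ B, ∀ a b, x a b i = x a b0 i)
    (L : List (List (Fin n))) :
    ∀ (ls : List (Fin n × (Bool → Matrix (Fin w) (Fin w) 𝕜))), ls.map Prod.fst = L.flatten →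
      (∀ s ∈ L, (∀ i ∈ s, i ∉ A) ∨ (∀ i ∈ s, i ∉ B)) →
      MatRank (fun a b => (ls.map fun l => l.2 (x a b l.1)).prod) (w ^ L.length) := by
  induction L with
  | nil =>
    intro ls hls _
    rw [List.flatten_nil, List.map_eq_nil_iff] at hls
    subst hls
    simp only [List.map_nil, List.prod_nil, List.length_nil, pow_zero]
    exact matRank_one
  | cons s L ih =>
    intro ls hls hL
    rw [List.flatten_cons, List.map_eq_append_iff] at hls
    obtain ⟨l1, l2, rfl, h1, h2⟩ := hls
    have h3 := ih l2 h2 (fun s' hs' => hL s' (List.mem_cons_of_mem _ hs'))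
    have h4 : MatRank (fun a b => (l1.map fun l => l.2 (x a b l.1)).prod) 1 := by
      intro i j
      rcases hL s (List.mem_cons_self) with hs | hs
      · refine (rankLE_right (α := α) (fun b => (l1.map fun l => l.2 (x a0 b l.1)).prod i j)).congr
          fun a b => ?_
        have : (l1.map fun l => l.2 (x a b l.1)) = (l1.map fun l => l.2 (x a0 b l.1)) := by
          apply List.map_congr_left
          intro l hl
          rw [hA l.1 (hs l.1 (by rw [← h1]; exact List.mem_map_of_mem hl)) a b]
        simp only [this]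
      · refine (rankLE_left (β := β) (fun a => (l1.map fun l => l.2 (x a b0 l.1)).prod i j)).congr
          fun a b => ?_
        have : (l1.map fun l => l.2 (x a b l.1)) = (l1.map fun l => l.2 (x a b0 l.1)) := by
          apply List.map_congr_left
          intro l hl
          rw [hB l.1 (hs l.1 (by rw [← h1]; exact List.mem_map_of_mem hl)) a b]
        simp only [this]
    have h5 := matRank_mul h4 h3
    rw [one_mul, ← pow_succ'] at h5
    intro i j
    refine (h5 i j).congr fun a b => ?_
    simp only [List.map_append, List.prod_append]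

theorem abp_rank (x : α → β → Fin n → Bool) (a0 : α) (b0 : β) (A B : Finset (Fin n))
    (hA : ∀ i ∉ A, ∀ a b, x a b i = x a0 b i) (hB : ∀ i ∉ B, ∀ a b, x a b i = x a b0 i)
    (P : ABP n 𝕜) (r : ℕ) (hP : Alt A B r P.word) :
    RankLE (fun a b => P.eval (x a b)) (P.width ^ (r + 2)) := by
  obtain ⟨L, hL1, hL2, hL3⟩ := hP
  have h1 := layers_rank x a0 b0 A B hA hB L P.layers hL1.symm hL3
  have h2 : RankLE (fun a b => ∑ i, ∑ j, (P.start i * P.final j) *
      (P.layers.map fun l => l.2 (x a b l.1)).prod i j)
      (∑ _i : Fin P.width, ∑ _j : Fin P.width, P.width ^ L.length) :=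
    rankLE_sum univ _ _ fun i _ => rankLE_sum univ _ _ fun j _ => (h1 i j).const_mul _
  have h3 : ∑ _i : Fin P.width, ∑ _j : Fin P.width, P.width ^ L.length ≤ P.width ^ (r + 2) := by
    simp only [Finset.sum_const, card_univ, Fintype.card_fin, smul_eq_mul]
    rcases Nat.eq_zero_or_pos P.width with h | h
    · rw [h]; simp
    · calc P.width * (P.width * P.width ^ L.length) = P.width ^ (L.length + 2) := by ring
        _ ≤ P.width ^ (r + 2) := Nat.pow_le_pow_right h (by omega)
  refine (h2.mono h3).congr fun a b => ?_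
  unfold ABP.eval
  simp only [dotProduct, Matrix.mulVec, Finset.mul_sum]
  refine Finset.sum_congr rfl fun i _ => Finset.sum_congr rfl fun j _ => ?_
  ring

end abp

section powsum

theorem add_pow_le (d : ℕ) (hd : 1 ≤ d) (x y : ℕ) : x ^ d + y ^ d ≤ (x + y) ^ d := by
  induction d, hd using Nat.le_induction with
  | base => simp
  | succ d _ ih =>
    calc x ^ (d + 1) + y ^ (d + 1) ≤ (x ^ d + y ^ d) * (x + y) := by
          rw [pow_succ, pow_succ]; nlinarith [Nat.zero_le (x ^ d * y), Nat.zero_le (y ^ d * x)]
      _ ≤ (x + y) ^ d * (x + y) := Nat.mul_le_mul_right _ ih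
      _ = (x + y) ^ (d + 1) := by rw [pow_succ]

theorem list_sum_pow_le (d : ℕ) (hd : 1 ≤ d) (l : List ℕ) :
    (l.map (fun x => x ^ d)).sum ≤ l.sum ^ d := by
  induction l with
  | nil => simp
  | cons x l ih =>
    rw [List.map_cons, List.sum_cons, List.sum_cons]
    exact (Nat.add_le_add_left ih _).trans (add_pow_le d hd _ _)

theorem sum_pow_le {T : Type*} (d : ℕ) (hd : 1 ≤ d) (s : Finset T) (f : T → ℕ) :
    ∑ t ∈ s, f t ^ d ≤ (∑ t ∈ s, f t) ^ d := by
  classical
  induction s using Finset.induction_on with
  | empty => simp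
  | insert a s ha ih =>
    rw [Finset.sum_insert ha, Finset.sum_insert ha]
    exact (Nat.add_le_add_left ih _).trans (add_pow_le d hd _ _)

end powsum

end Pool.Agent.MP_9cec2c_lc.Oblivious
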