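import Mathlib
import Pool.Agent.Lib.MP_9cec2c_lc.ROIneq
import Pool.Agent.Lib.MP_9cec2c_lc.ROWords

/-!
Assembly of the lower bound.
-/

set_option autoImplicit false

namespace Pool.Agent.MP_9cec2c_lc.Oblivious

open Finset
open Pool.Agent.MP_9cec2c_lc.DepthThree (RankLE rankLE_list_sum)

section aux

variable {v n : ℕ} {Z : Type*} [Fintype Z] [DecidableEq Z]

omit [Fintype Z] [DecidableEq Z] in
theorem isInduced_subset {E J J' : Finset (Z × Z)} {A B : Finset Z} (hJ : IsInduced E J A B)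
    (h : J' ⊆ J) : IsInduced E J' A B := by
  refine ⟨h.trans hJ.sub, fun p hp => hJ.side p (h hp), ?_,
    fun p hp p' hp' => hJ.dis p (h hp) p' (h hp')⟩
  intro p hp p' hp' p'' hp'' h1 h2
  have h3 := hJ.ind p hp p' (h hp') p'' (h hp'') h1 h2
  have h4 := hJ.dis p h3 p' (h hp') p.1 (Or.inl rfl) h1
  rw [h4]; exact hp'

theorem locals_card {M Δ : ℕ} (E : Finset (Z × Z)) (blk : Z → Fin v)
    (hblk : ∀ q, (univ.filter (fun i => blk i = q)).card = M) (ρ : Equiv.Perm Z)
    (hΔ : ∀ i, (nbr E i).card ≤ Δ) (q : Fin v) :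
    (locals E (fun p => blk p.1) (fun p => blk (ρ p.2)) q).card ≤ 4 * (M * Δ) + 2 := by
  classical
  unfold locals
  refine (card_union_le _ _).trans ?_
  have h1 : ({Sum.inr q, Sum.inr (nxt q)} : Finset (Z ⊕ Fin v)).card ≤ 2 := card_le_two
  have h2 : (E.filter (fun p => blk p.1 = q ∨ blk (ρ p.2) = q)).card ≤ 2 * (M * Δ) := by
    have h3 : E.filter (fun p => blk p.1 = q ∨ blk (ρ p.2) = q) ⊆
        ((univ.filter (fun i => blk i = q)).biUnion
          (fun i => (nbr E i).image (fun j => (i, j)))) ∪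
        (((univ.filter (fun i => blk i = q)).image ρ.symm).biUnion
          (fun i => (nbr E i).image (fun j => (j, i)))) := by
      intro p hp
      rw [mem_filter] at hp
      rw [mem_union]
      rcases hp.2 with h | h
      · left
        rw [mem_biUnion]
        refine ⟨p.1, by simp [h], mem_image.2 ⟨p.2, ?_, rfl⟩⟩
        simp only [nbr, mem_filter, mem_univ, true_and]
        exact Or.inl hp.1
      · right
        rw [mem_biUnion]
        refine ⟨p.2, mem_image.2 ⟨ρ p.2, by simp [h], by simp⟩, mem_image.2 ⟨p.1, ?_, rfl⟩⟩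
        simp only [nbr, mem_filter, mem_univ, true_and]
        exact Or.inr hp.1
    have h4 : ∀ (S : Finset Z) (f : Z → Z → Z × Z), S.card ≤ M →
        (S.biUnion (fun i => (nbr E i).image (fun j => f i j))).card ≤ M * Δ := by
      intro S f hS
      refine card_biUnion_le.trans ?_
      refine (Finset.sum_le_card_nsmul S _ Δ fun i _ => card_image_le.trans (hΔ i)).trans ?_
      rw [smul_eq_mul]
      exact Nat.mul_le_mul_right _ hS
    refine (card_le_card h3).trans ((card_union_le _ _).trans ?_)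
    have h5 := h4 (univ.filter (fun i => blk i = q)) (fun i j => (i, j)) (hblk q).le
    have h6 := h4 ((univ.filter (fun i => blk i = q)).image ρ.symm) (fun i j => (j, i))
      (card_image_le.trans (hblk q).le)
    omega
  have h7 : ((E.filter (fun p => blk p.1 = q ∨ blk (ρ p.2) = q)).biUnion
      (fun p => ({Sum.inl p.1, Sum.inl p.2} : Finset (Z ⊕ Fin v)))).card ≤ 4 * (M * Δ) := by
    refine card_biUnion_le.trans ?_
    refine (Finset.sum_le_card_nsmul _ _ 2 fun p _ => card_le_two).trans ?_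
    rw [smul_eq_mul]
    omega
  exact (Nat.add_le_add h1 h7).trans (by omega)

/-- The edges inside a small set of blocks. -/
theorem inner_le {E J : Finset (Z × Z)} {A B : Finset Z} (hJ : IsInduced E J A B)
    (blk : Z → Fin v) (ρ : Equiv.Perm Z) (S : Finset (Fin v)) :
    (J.filter (fun p => blk p.1 ∈ S ∧ blk (ρ p.2) ∈ S)).card ≤
      ((nbh blk (nbr E) S).filter (fun z => blk (ρ z) ∈ S)).card := by
  refine Finset.card_le_card_of_injOn (fun p => p.2) ?_ ?_
  · intro p hp
    rw [mem_coe, mem_filter] at hp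
    rw [mem_coe, mem_filter]
    refine ⟨?_, hp.2.2⟩
    unfold nbh
    rw [mem_biUnion]
    refine ⟨p.1, by simp [hp.2.1], ?_⟩
    simp only [nbr, mem_filter, mem_univ, true_and]
    exact Or.inl (hJ.sub hp.1)
  · intro p hp p' hp' h
    rw [mem_coe, mem_filter] at hp hp'
    exact hJ.dis p hp.1 p' hp'.1 p.2 (Or.inr rfl) (Or.inr h)

omit [Fintype Z] in
theorem zval_left {J : Finset (Z × Z)} {A : Finset Z} {z : Z} (hz : z ∉ A)
    (a a' b : Finset (Z × Z)) : zval J A a b z = zval J A a' b z := by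
  unfold zval
  rw [if_neg hz, if_neg hz]

omit [Fintype Z] in
theorem zval_right {E J : Finset (Z × Z)} {A B : Finset Z} (hJ : IsInduced E J A B)
    (hAB : Disjoint A B) {z : Z} (hz : z ∉ B)
    (a b b' : Finset (Z × Z)) : zval J A a b z = zval J A a b' z := by
  unfold zval
  by_cases h : z ∈ A
  · rw [if_pos h, if_pos h]
  · rw [if_neg h, if_neg h]
    have h1 : ∀ b : Finset (Z × Z), decide (∃ p ∈ J, p ∈ b ∧ z = bEnd A p) = false := by
      intro b
      rw [decide_eq_false_iff_not]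
      rintro ⟨p, hp, _, h3⟩
      exact hz (h3 ▸ bEnd_mem hJ hAB hp)
    rw [h1, h1]

end aux

section final

universe u

open scoped Classical in
/-- The lower bound for one number of variables. -/
theorem final_bound (ℓ G Δ c q a M w v m n d : ℕ) (hG : G = 4 * (2 ^ (2 * ℓ)) ^ ℓ)
    (hΔ : Δ = 4 * G ^ 2) (hc : c = G * (2 * Δ + 2)) (hq : q = 3 * (Δ * c) + 4)
    (ha : a = 2 ^ (q + 2)) (hM : M = c * (2 * a + 1)) (hw : 1 ≤ w) (hv : v = 2 ^ q * w)
    (hm : m = v * ((2 * Δ + 2) * (2 * a + 1))) (hn : v * M + v ≤ n) (hd : d = 2 * ℓ + 3) :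
    ∃ F : Finset (Clause n), (∀ x, ∃ C ∈ F, Falsifies x C) ∧
      F.card ≤ v * 2 ^ (4 * (M * Δ) + 2) ∧ (∀ C ∈ F, C.card ≤ 4 * (M * Δ) + 2) ∧
      ∀ (𝕜 : Type u) [Field 𝕜], (2 : 𝕜) ≠ 0 → ∀ W : Finset (List (Fin n)), W.card ≤ ℓ →
        (∀ σ ∈ W, ∀ i, σ.count i ≤ ℓ) → ∀ g : Clause n → List (ABP n 𝕜),
        (∀ C ∈ F, ∀ P ∈ g C, P.word ∈ W) → IsRefutation F g →
        2 ^ (2 * v) ≤ (∑ C ∈ F, ((g C).map ABP.width).sum) ^ d := by
  have hG0 : 0 < G := by rw [hG]; positivity
  have hc0 : 0 < c := by rw [hc]; positivity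
  have ha4 : 4 ≤ a := by
    rw [ha]
    calc 4 = 2 ^ 2 := by norm_num
      _ ≤ 2 ^ (q + 2) := Nat.pow_le_pow_right (by norm_num) (by omega)
  have hM0 : 0 < M := by rw [hM]; positivity
  have hv0 : 0 < v := by rw [hv]; positivity
  have hm0 : 0 < m := by rw [hm]; positivity
  have hZ : v * M = m * G := by rw [hM, hm, hc]; ring
  have : Nonempty (Fin (v * M)) := ⟨⟨0, by positivity⟩⟩
  obtain ⟨E, hanti, hdeg, hrob⟩ := exists_graph (Z := Fin (v * M)) G m hG0
    (by rw [Fintype.card_fin, hZ])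
  rw [← hΔ] at hdeg
  obtain ⟨blk, hblkdef⟩ : ∃ blk : Fin (v * M) → Fin v, blk = fun i => (finProdFinEquiv.symm i).1 :=
    ⟨_, rfl⟩
  have hblk : ∀ q, (univ.filter (fun i => blk i = q)).card = M := by
    intro q
    have h1 : (univ.filter (fun i => blk i = q)).card =
        ((univ : Finset (Fin v × Fin M)).filter (fun p => p.1 = q)).card := by
      refine Finset.card_bij (fun i _ => finProdFinEquiv.symm i) ?_ ?_ ?_
      · intro i hi
        rw [hblkdef] at hi
        simpa using hi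
      · intro i _ j _ hij
        exact finProdFinEquiv.symm.injective hij
      · intro p hp
        refine ⟨finProdFinEquiv p, ?_, Equiv.symm_apply_apply _ _⟩
        rw [mem_filter, hblkdef]
        refine ⟨mem_univ _, ?_⟩
        show (finProdFinEquiv.symm (finProdFinEquiv p)).1 = q
        rw [Equiv.symm_apply_apply]
        exact (mem_filter.1 hp).2
    rw [h1]
    have h2 : (univ : Finset (Fin v × Fin M)).filter (fun p => p.1 = q) = {q} ×ˢ univ := by
      ext p
      rw [mem_filter, mem_product, mem_singleton]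
      simp
    rw [h2, card_product, card_singleton, card_univ, Fintype.card_fin, one_mul]
  have hqineq : Δ * M + 4 ≤ q * (a - 1) := by
    obtain ⟨a', ha'⟩ : ∃ a', a = a' + 4 := ⟨a - 4, by omega⟩
    rw [hM, hq, ha']
    have : a' + 4 - 1 = a' + 3 := by omega
    rw [this]
    have h1 : Δ * (c * (2 * (a' + 4) + 1)) = (Δ * c) * (2 * a' + 9) := by ring
    have h2 : (3 * (Δ * c) + 4) * (a' + 3) = (Δ * c) * (3 * a' + 9) + 4 * a' + 12 := by ring
    rw [h1, h2]
    have h3 : (Δ * c) * (2 * a' + 9) ≤ (Δ * c) * (3 * a' + 9) := Nat.mul_le_mul_left _ (by omega)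
    omega
  obtain ⟨ρ, hρ⟩ := exists_rho blk M Δ a q hv0 hM0 hblk (nbr E) hdeg (by omega) hqineq
  obtain ⟨hd', hhd⟩ : ∃ hd' : Fin (v * M) × Fin (v * M) → Fin v, hd' = fun p => blk p.1 := ⟨_, rfl⟩
  obtain ⟨tl', htl⟩ : ∃ tl' : Fin (v * M) × Fin (v * M) → Fin v, tl' = fun p => blk (ρ p.2) :=
    ⟨_, rfl⟩
  obtain ⟨e, he⟩ : ∃ e : Fin (v * M) ⊕ Fin v → Fin n, Function.Injective e :=
    ⟨fun x => Fin.castLE hn (finSumFinEquiv x), fun x y h =>
      finSumFinEquiv.injective (Fin.castLE_injective hn h)⟩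
  have hloc : ∀ q, (locals E hd' tl' q).card ≤ 4 * (M * Δ) + 2 := by
    intro q
    rw [hhd, htl]
    exact locals_card E blk hblk ρ hdeg q
  refine ⟨cnf E hd' tl' e, unsat_cnf hv0 E hd' tl' e, card_cnf E hd' tl' e hloc,
    fun C hC => width_cnf E hd' tl' e hloc C hC, ?_⟩
  intro 𝕜 _ h2 W hW hcount g hword hg
  -- two large sets of variables
  obtain ⟨s0, hs0⟩ : ∃ s0, s0 = (2 * m) * (2 ^ (2 * ℓ)) ^ W.card := ⟨_, rfl⟩
  have hs1 : 2 * s0 ≤ v * M := by
    rw [hZ, hG, hs0]
    have : (2 ^ (2 * ℓ)) ^ W.card ≤ (2 ^ (2 * ℓ)) ^ ℓ := Nat.pow_le_pow_right (by positivity) hW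
    calc 2 * (2 * m * (2 ^ (2 * ℓ)) ^ W.card) = m * (4 * (2 ^ (2 * ℓ)) ^ W.card) := by ring
      _ ≤ m * (4 * (2 ^ (2 * ℓ)) ^ ℓ) := Nat.mul_le_mul_left _ (Nat.mul_le_mul_left _ this)
  obtain ⟨A0, _, hA0⟩ := Finset.exists_subset_card_eq
    (show s0 ≤ (univ : Finset (Fin (v * M))).card by rw [card_univ, Fintype.card_fin]; omega)
  obtain ⟨B0, hB0', hB0⟩ := Finset.exists_subset_card_eq
    (show s0 ≤ (A0ᶜ : Finset (Fin (v * M))).card by
      rw [card_compl, Fintype.card_fin]; omega)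
  obtain ⟨ez, hez⟩ : ∃ ez : Fin (v * M) → Fin n, ez = fun z => e (Sum.inl z) := ⟨_, rfl⟩
  have hezinj : Function.Injective ez := by
    rw [hez]; intro z z' h; exact Sum.inl_injective (he h)
  have hdis0 : Disjoint (A0.image ez) (B0.image ez) := by
    rw [Finset.disjoint_left]
    intro i hi hi'
    obtain ⟨z, hz, rfl⟩ := mem_image.1 hi
    obtain ⟨z', hz', hzz⟩ := mem_image.1 hi'
    have := hezinj hzz
    subst this
    exact (mem_compl.1 (hB0' hz')) hz
  obtain ⟨A', hA', B', hB', hA'c, hB'c, halt⟩ := exists_alt_all ℓ (2 * m) W (A0.image ez)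
    (B0.image ez) hdis0 hcount (by rw [card_image_of_injective _ hezinj, hA0, hs0])
    (by rw [card_image_of_injective _ hezinj, hB0, hs0])
  obtain ⟨A, hA⟩ : ∃ A : Finset (Fin (v * M)), A = univ.filter (fun z => ez z ∈ A') := ⟨_, rfl⟩
  obtain ⟨B, hB⟩ : ∃ B : Finset (Fin (v * M)), B = univ.filter (fun z => ez z ∈ B') := ⟨_, rfl⟩
  have hpre : ∀ (T : Finset (Fin n)) (T0 : Finset (Fin (v * M))), T ⊆ T0.image ez →
      (univ.filter (fun z => ez z ∈ T)).card = T.card := by
    intro T T0 hT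
    have h1 : (univ.filter (fun z => ez z ∈ T)).image ez = T := by
      ext i
      rw [mem_image]
      constructor
      · rintro ⟨z, hz, rfl⟩
        exact (mem_filter.1 hz).2
      · intro hi
        obtain ⟨z, _, rfl⟩ := mem_image.1 (hT hi)
        exact ⟨z, by simp [hi], rfl⟩
    rw [← card_image_of_injective (univ.filter (fun z => ez z ∈ T)) hezinj, h1]
  have hAc : A.card = 2 * m := by rw [hA, hpre A' A0 hA', hA'c]
  have hBc : B.card = 2 * m := by rw [hB, hpre B' B0 hB', hB'c]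
  have hAB : Disjoint A B := by
    rw [Finset.disjoint_left]
    intro z hz hz'
    rw [hA, mem_filter] at hz
    rw [hB, mem_filter] at hz'
    exact Finset.disjoint_left.1 hdis0 (hA' hz.2) (hB' hz'.2)
  -- the induced matching
  have htJ : m + (v * (2 * a + 1)) * (2 * Δ + 2) ≤ 2 * m := by
    have : (v * (2 * a + 1)) * (2 * Δ + 2) = m := by rw [hm]; ring
    omega
  obtain ⟨J0, hJ0, hJ0c⟩ := exists_induced E hanti Δ m hdeg hrob (v * (2 * a + 1)) A B hAB
    (by rw [hAc]; exact htJ) (by rw [hBc]; exact htJ)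
  obtain ⟨U, hUne, hU⟩ := exists_dense J0 hd' tl' (2 * a) (by rw [hJ0c]; nlinarith)
  obtain ⟨J, hJdef⟩ : ∃ J, J = inside J0 hd' tl' U := ⟨_, rfl⟩
  have hJ : IsInduced E J A B := isInduced_subset hJ0 (by rw [hJdef]; exact filter_subset _ _)
  have hUJ : ∀ p ∈ J, hd' p ∈ U ∧ tl' p ∈ U := by
    intro p hp
    rw [hJdef] at hp
    exact (mem_filter.1 hp).2
  have hcut : ∀ S ⊆ U, S.Nonempty → S.card ≤ w → a * S.card ≤ (cut J hd' tl' S).card := by
    intro S hS hne hSw
    rw [hJdef]
    apply cut_large J0 hd' tl' U S a (hU S hS)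
    have h2q : S.card * 2 ^ q ≤ v := by
      calc S.card * 2 ^ q ≤ w * 2 ^ q := Nat.mul_le_mul_right _ hSw
        _ = v := by rw [hv]; ring
    have h3 := hρ S hne h2q
    have h4 := inner_le hJ0 blk ρ S
    rw [hhd, htl]
    exact h4.trans h3.le
  obtain ⟨u, huU⟩ := hUne
  obtain ⟨Y, hY⟩ := exists_route u
  -- the coefficients
  have hxA : ∀ i ∉ A', ∀ a b, comb e J A Y a b i = comb e J A Y ∅ b i := by
    intro i hi a b
    by_cases hr : i ∈ Set.range e
    · obtain ⟨x, rfl⟩ := hr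
      rw [comb_apply he, comb_apply he]
      rcases x with z | q'
      · have hz : z ∉ A := by
          intro hz
          rw [hA, mem_filter, hez] at hz
          exact hi hz.2
        exact zval_left hz _ _ _
      · rfl
    · unfold comb
      rw [Function.extend_apply' _ _ _ hr, Function.extend_apply' _ _ _ hr]
  have hxB : ∀ i ∉ B', ∀ a b, comb e J A Y a b i = comb e J A Y a ∅ i := by
    intro i hi a b
    by_cases hr : i ∈ Set.range e
    · obtain ⟨x, rfl⟩ := hr
      rw [comb_apply he, comb_apply he]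
      rcases x with z | q'
      · have hz : z ∉ B := by
          intro hz
          rw [hB, mem_filter, hez] at hz
          exact hi hz.2
        exact zval_right hJ hAB hz _ _ _
      · rfl
    · unfold comb
      rw [Function.extend_apply' _ _ _ hr, Function.extend_apply' _ _ _ hr]
  have hmain := main_ineq h2 he hJ hAB hd' tl' U hUJ Y u huU hY w a (by omega) (by omega) hcut
    (fun C x => ((g C).map (fun P => P.eval x)).sum)
    (fun C => ((g C).map (fun P => P.width ^ d)).sum)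
    (fun C hC => by
      refine rankLE_list_sum (g C) (fun P a b => P.eval (comb e J A Y a b)) _ fun P hP => ?_
      have h5 := abp_rank (fun a b => comb e J A Y a b) ∅ ∅ A' B' hxA hxB P (2 * ℓ + 1)
        (halt _ (hword C hC P hP))
      rw [hd]
      exact h5)
    (fun x => by
      have := hg x
      convert this)
  have h6 : ∑ C ∈ cnf E hd' tl' e, ((g C).map (fun P => P.width ^ d)).sum ≤
      (∑ C ∈ cnf E hd' tl' e, ((g C).map ABP.width).sum) ^ d := by
    refine le_trans (Finset.sum_le_sum fun C _ => ?_)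
      (sum_pow_le d (by omega) (cnf E hd' tl' e) (fun C => ((g C).map ABP.width).sum))
    have := list_sum_pow_le d (by omega) ((g C).map ABP.width)
    rw [List.map_map] at this
    exact this
  have h7 : a * w = 2 * v + 2 * v := by rw [ha, hv, pow_add]; ring
  rw [h7, pow_add] at hmain
  exact (Nat.le_of_mul_le_mul_left hmain (by positivity)).trans h6

end final

end Pool.Agent.MP_9cec2c_lc.Oblivious
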