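import Pool.Agent.Lib.MP_9cec2c_lc.Mg.G056

/-!
Approximation of a triangle by a general branching process.
-/

set_option autoImplicit false
set_option linter.unusedSectionVars false

namespace Pool.Agent.MP_9cec2c_lc.Redun

open Finset
open Pool.Agent.MP_9cec2c_lc.LovSch

variable {U V I : Type} [Fintype U] [DecidableEq U] [Fintype V] [DecidableEq V] [Fintype I]
  [DecidableEq I] {S : U → Finset I} {T : V → Finset I} {r s : ℕ} {BU : Finset U} {BV : Finset V}
  {α : U → EReal} {β : V → EReal}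

/-- A quantile. -/
theorem exists_quantile (P : V → Prop) [DecidablePred P] (β : V → EReal) (Z : ℕ) :
    ∃ t : EReal, (univ.filter fun y => P y ∧ β y < t).card ≤ Z ∧
      (t = ⊤ ∨ Z < (univ.filter fun y => P y ∧ β y ≤ t).card) := by
  classical
  obtain ⟨Q, hQ⟩ : ∃ Q : Finset EReal, Q = insert ⊤ (univ.image β) := ⟨_, rfl⟩
  have hβQ : ∀ y, β y ∈ Q := fun y => by
    rw [hQ]
    exact mem_insert_of_mem (mem_image_of_mem _ (mem_univ _))
  have htop : (⊤ : EReal) ∈ Q := by
    rw [hQ]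
    exact mem_insert_self _ _
  obtain ⟨C, hC⟩ : ∃ C, C = Q.filter fun t => (univ.filter fun y => P y ∧ β y < t).card ≤ Z :=
    ⟨_, rfl⟩
  have hCne : C.Nonempty := by
    obtain ⟨t0, ht0, hmin⟩ := exists_min_image Q id ⟨_, htop⟩
    refine ⟨t0, ?_⟩
    rw [hC, mem_filter]
    refine ⟨ht0, ?_⟩
    have : (univ.filter fun y => P y ∧ β y < t0) = ∅ := by
      refine filter_eq_empty_iff.2 fun y _ hy => ?_
      exact absurd (hmin (β y) (hβQ y)) (not_le.2 hy.2)
    rw [this, card_empty]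
    exact Nat.zero_le _
  obtain ⟨t, ht, hmax⟩ := exists_max_image C id hCne
  have ht' := ht
  rw [hC, mem_filter] at ht'
  refine ⟨t, ht'.2, ?_⟩
  by_cases htt : t = ⊤
  · exact Or.inl htt
  · right
    have hne : (Q.filter fun q => t < q).Nonempty :=
      ⟨⊤, mem_filter.2 ⟨htop, lt_top_iff_ne_top.2 htt⟩⟩
    obtain ⟨t1, ht1, hmin⟩ := exists_min_image _ id hne
    rw [mem_filter] at ht1
    have h1 : t1 ∉ C := fun h => absurd (hmax t1 h) (not_le.2 ht1.2)
    rw [hC, mem_filter, not_and, not_le] at h1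
    refine lt_of_lt_of_le (h1 ht1.1) (card_le_card fun y hy => ?_)
    rw [mem_filter] at hy ⊢
    refine ⟨hy.1, hy.2.1, ?_⟩
    by_contra hcon
    exact absurd (hmin (β y) (mem_filter.2 ⟨hβQ y, not_le.1 hcon⟩)) (not_le.2 hy.2.2)

/-- The general step: the branching process adds elements of `Lam M`, and `t M` bounds the inputs
of the first player that it stops at. -/
theorem app_gen {lam CU CV NM Z : ℕ} (hr : 0 < r)
    (hCU : ∀ M : Finset I, M.card = r → (univ.filter fun x => M ⊆ S x).card ≤ CU)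
    (hCV : ∀ K : Finset I, K.card = s → (univ.filter fun y => K ⊆ T y).card ≤ CV)
    (Lam : Finset I → Finset I) (hLam : ∀ M, (Lam M).card ≤ lam)
    (hLamM : ∀ M, Disjoint M (Lam M)) (t : Finset I → EReal)
    (hx : ∀ M : Finset I, M.card < r → ∀ x, x ∉ BU → M ⊆ S x → Disjoint (S x) (Lam M) →
      α x ≤ t M)
    (hy : ∀ M : Finset I, M.card < r →
      (univ.filter fun y => (y ∉ BV ∧ Disjoint M (T y)) ∧ β y < t M).card ≤ Z)
    (hNM : (univ.filter fun M : Finset I => M.card < r).card ≤ NM) :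
    ∃ (BU' : Finset U) (BV' : Finset V), BU ⊆ BU' ∧ BV ⊆ BV' ∧
      BU'.card ≤ BU.card + lam ^ r * CU ∧ BV'.card ≤ BV.card + (r ^ s * CV + NM * Z) ∧
      App S T r s BU' BV' α β := by
  classical
  -- small sets disjoint from a given set
  obtain ⟨dj, hdj⟩ : ∃ dj : Finset I → Finset (Finset I), dj = fun K =>
      (univ : Finset (Finset I)).filter (fun M => M.card < r ∧ Disjoint K M) := ⟨_, rfl⟩
  have hmem : ∀ K M, M ∈ dj K ↔ M.card < r ∧ Disjoint K M := by
    intro K M
    rw [hdj]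
    simp
  have hne : ∀ K, (dj K).Nonempty := by
    intro K
    exact ⟨∅, (hmem K ∅).2 ⟨by simpa using hr, disjoint_empty_right K⟩⟩
  have hbestM : ∀ (K : Finset I), ∃ M ∈ dj K, ∀ M' ∈ dj K, t M' ≤ t M :=
    fun K => exists_max_image (dj K) t (hne K)
  choose Mb hMb1 hMb2 using hbestM
  obtain ⟨B, hB⟩ : ∃ B : Finset I → EReal, B = fun K => t (Mb K) := ⟨_, rfl⟩
  obtain ⟨FU, hFU⟩ : ∃ FU, FU = (grow Lam r).filter fun M => M.card = r := ⟨_, rfl⟩
  obtain ⟨FV, hFV⟩ : ∃ FV, FV = (grow Mb s).filter fun K => K.card = s := ⟨_, rfl⟩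
  obtain ⟨EX, hEX⟩ : ∃ EX : Finset V, EX =
      (univ.filter fun M : Finset I => M.card < r).biUnion fun M =>
        univ.filter fun y => (y ∉ BV ∧ Disjoint M (T y)) ∧ β y < t M := ⟨_, rfl⟩
  have hEXc : EX.card ≤ NM * Z := by
    rw [hEX]
    refine (card_biUnion_le_card_mul _ _ Z fun M hM => hy M (mem_filter.1 hM).2).trans ?_
    exact Nat.mul_le_mul_right _ hNM
  refine ⟨BU ∪ above S FU, BV ∪ (above T FV ∪ EX), subset_union_left, subset_union_left, ?_, ?_,
    t, B, ?_, ?_, ?_⟩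
  · refine (card_union_le _ _).trans (Nat.add_le_add_left ?_ _)
    rw [hFU]
    exact above_card (grow_card Lam (b := lam) hLam r) hCU
  · refine (card_union_le _ _).trans (Nat.add_le_add_left ?_ _)
    refine (card_union_le _ _).trans (Nat.add_le_add ?_ hEXc)
    rw [hFV]
    refine above_card (grow_card Mb (b := r) (fun K => ?_) s) hCV
    exact ((hmem _ _).1 (hMb1 K)).1.le
  · intro M K hM hK hMK
    rw [hB]
    exact hMb2 K M ((hmem _ _).2 ⟨hM, hMK.symm⟩)
  · intro x hx'
    have hxU : x ∉ BU := fun h => hx' (mem_union_left _ h)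
    have hxF : x ∉ above S FU := fun h => hx' (mem_union_right _ h)
    have hstep : ∀ M ⊆ S x, ¬ Disjoint (S x) (Lam M) → ∃ e ∈ Lam M, e ∈ S x ∧ e ∉ M := by
      intro M _ hst
      obtain ⟨e, he1, he2⟩ := not_disjoint_iff.1 hst
      exact ⟨e, he2, he1, fun h => (disjoint_left.1 (hLamM M)) h he2⟩
    rcases grow_reach Lam (S x) (fun M => Disjoint (S x) (Lam M)) hstep r with
      ⟨M, hM1, hM2, hM3⟩ | ⟨M, hM1, hM2, hM3⟩
    · exact ⟨M, hM1, hM2, hx M hM2 x hxU hM1 hM3⟩
    · refine absurd ?_ hxF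
      rw [above, mem_filter]
      refine ⟨mem_univ _, M, ?_, hM2⟩
      rw [hFU, mem_filter]
      exact ⟨hM1, hM3⟩
  · intro y hy'
    have hyV : y ∉ BV := fun h => hy' (mem_union_left _ h)
    have hyF : y ∉ above T FV := fun h => hy' (mem_union_right _ (mem_union_left _ h))
    have hyE : y ∉ EX := fun h => hy' (mem_union_right _ (mem_union_right _ h))
    have key : ∀ M : Finset I, M.card < r → Disjoint M (T y) → t M ≤ β y := by
      intro M hM hMT
      by_contra hcon
      refine hyE ?_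
      rw [hEX, mem_biUnion]
      exact ⟨M, mem_filter.2 ⟨mem_univ _, hM⟩,
        mem_filter.2 ⟨mem_univ _, ⟨hyV, hMT⟩, not_le.1 hcon⟩⟩
    have hstep : ∀ K ⊆ T y, ¬ (t (Mb K) ≤ β y) → ∃ e ∈ Mb K, e ∈ T y ∧ e ∉ K := by
      intro K hK hst
      have hnd : ¬ Disjoint (Mb K) (T y) := by
        intro hd
        exact hst (key (Mb K) ((hmem _ _).1 (hMb1 K)).1 hd)
      obtain ⟨e, he1, he2⟩ := not_disjoint_iff.1 hnd
      refine ⟨e, he1, he2, ?_⟩
      intro heK
      exact (disjoint_left.1 ((hmem _ _).1 (hMb1 K)).2) heK he1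
    rcases grow_reach Mb (T y) (fun K => t (Mb K) ≤ β y) hstep s with
      ⟨K, hK1, hK2, hK3⟩ | ⟨K, hK1, hK2, hK3⟩
    · refine ⟨K, hK1, hK2, ?_⟩
      rw [hB]
      exact hK3
    · refine absurd ?_ hyF
      rw [above, mem_filter]
      refine ⟨mem_univ _, K, ?_, hK2⟩
      rw [hFV, mem_filter]
      exact ⟨hK1, hK3⟩

/-- Few small sets. -/
theorem card_small {m r : ℕ} :
    (univ.filter fun M : Finset (Fin m) => M.card < r).card ≤ (m + 1) ^ r := by
  classical
  have h : (univ.filter fun M : Finset (Fin m) => M.card < r) ⊆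
      (univ : Finset (Fin r → Option (Fin m))).image
        fun g => univ.filter fun i => ∃ a, g a = some i := by
    intro M hM
    have hM' := (mem_filter.1 hM).2
    rw [mem_image]
    refine ⟨fun a => if ha : (a : ℕ) < M.card then some (M.equivFin.symm ⟨a, ha⟩).1 else none,
      mem_univ _, ?_⟩
    ext i
    rw [mem_filter]
    constructor
    · rintro ⟨-, a, ha⟩
      simp only at ha
      split_ifs at ha with h1
      · rw [Option.some.injEq] at ha
        rw [← ha]
        exact (M.equivFin.symm ⟨a, h1⟩).2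
    · intro hi
      refine ⟨mem_univ _, ⟨(M.equivFin ⟨i, hi⟩ : ℕ), ?_⟩, ?_⟩
      · exact lt_trans (M.equivFin ⟨i, hi⟩).2 hM'
      · simp
  refine (card_le_card h).trans (card_image_le.trans ?_)
  rw [card_univ, Fintype.card_fun, Fintype.card_option, Fintype.card_fin, Fintype.card_fin]

end Pool.Agent.MP_9cec2c_lc.Redun
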