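import Pool.Agent.Lib.MP_9cec2c_lc.LRDefs

/-!
Refutations with the redundance and dominance rules, with lines of small complexity.
-/

set_option autoImplicit false

namespace Pool.Agent.MP_9cec2c_lc.Redun

open Pool.Agent.MP_9cec2c_lc.LovSch (Lit Clause Holds)

/-- A substitution: each variable is replaced by a literal or by a constant. -/
abbrev Subst (V : Type) : Type := V → Lit V ⊕ Bool

/-- The values of the variables after the substitution `σ`, for the assignment `x`. -/
def Subst.app {V : Type} (σ : Subst V) (x : V → Bool) (v : V) : Bool :=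
  match σ v with
  | Sum.inl l => decide (x l.1 = l.2)
  | Sum.inr c => c

/-- The Boolean function `T` is false at `x` if and only if `a t x + b t x < 0` for some `t`,
where there are `k` pairs `a t`, `b t` of real functions, the `a t` do not depend on the variables
in `B`, and the `b t` do not depend on the variables in `A`. -/
def Simple {V : Type} (k : ℕ) (A B : Set V) (T : (V → Bool) → Prop) : Prop :=
  ∃ a b : Fin k → (V → Bool) → ℝ,
    (∀ t, DependsOn (a t) Bᶜ ∧ DependsOn (b t) Aᶜ) ∧ ∀ x, ¬ T x ↔ ∃ t, a t x + b t x < 0

/-- For all assignments with the property `N`, the property `Q` is implied by at most `k` of the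
lines `L j`, `j < i`, and at most `k` clauses of `F`. -/
def Follows {V : Type} (k : ℕ) (F : Finset (Clause V)) {S : ℕ} (L : Fin S → (V → Bool) → Prop)
    (i : Fin S) (N Q : (V → Bool) → Prop) : Prop :=
  ∃ (P : Finset (Fin S)) (G : Finset (Clause V)), P.card ≤ k ∧ (∀ j ∈ P, j < i) ∧
    G.card ≤ k ∧ G ⊆ F ∧
    ∀ x, N x → (∀ j ∈ P, L j x) → (∀ C ∈ G, Holds x C) → Q x

/-- `L 0, ..., L (S - 1)` is a refutation of `F`. The lines are simple Boolean functions. Some line
is false for all assignments. Each line `L i` is implied by at most `k` earlier lines and at most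
`k` clauses of `F`, or there is a substitution `σ`, which may depend on the values of the variables
outside `A` and `B`, such that, for the assignments that falsify `L i`, each clause of `F` after the
substitution, and the fact that the substitution changes the assignment, are implied by at most `k`
earlier lines and at most `k` clauses of `F`. -/
def IsRefutation {V : Type} (k : ℕ) (F : Finset (Clause V)) (A B : Set V) {S : ℕ}
    (L : Fin S → (V → Bool) → Prop) : Prop :=
  (∀ i, Simple k A B (L i)) ∧ (∃ i, ∀ x, ¬ L i x) ∧ ∀ i,
    Follows k F L i (fun _ => True) (L i) ∨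
    ∃ σ : (V → Bool) → Subst V, DependsOn σ (A ∪ B)ᶜ ∧
      (∀ C ∈ F, Follows k F L i (fun x => ¬ L i x) fun x => Holds ((σ x).app x) C) ∧
      Follows k F L i (fun x => ¬ L i x) fun x => (σ x).app x ≠ x

/-- The CNF `F` is unsatisfiable, and for any disjoint sets `A`, `B` of at least `n / D` variables
all its refutations have at least `s` lines. -/
def Hard {n : ℕ} (k D s : ℕ) (F : Finset (Clause (Fin n))) : Prop :=
  (∀ x, ∃ B ∈ F, ¬ Holds x B) ∧
    ∀ (A B : Finset (Fin n)) (S : ℕ) (L : Fin S → (Fin n → Bool) → Prop), Disjoint A B →
      n ≤ D * A.card → n ≤ D * B.card → IsRefutation k F A B L → s ≤ S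

end Pool.Agent.MP_9cec2c_lc.Redun
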