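import Pool.Agent.Lib.MP_9cec2c_lc.RPDense
import Pool.Agent.Lib.MP_9cec2c_lc.RPDefs

/-!
Counting in a dense piece.
-/

set_option autoImplicit false
set_option linter.unusedSectionVars false

namespace Pool.Agent.MP_9cec2c_lc.Redun

open Finset
open Pool.Agent.MP_9cec2c_lc.LovSch

variable {n m w : ℕ}

/-- The clause `c` is violated after the substitution. -/
def Viol (σ : Subst (Fin n)) (c : (Fin w ↪ Fin n) × (Fin w → Bool)) (z : Fin n → Bool) : Prop :=
  ∀ e, σ.app z (c.1 e) ≠ c.2 e

/-- The variables in the image of the clause `c`. -/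
def img (σ : Subst (Fin n)) (c : (Fin w ↪ Fin n) × (Fin w → Bool)) : Finset (Fin n) := by
  classical
  exact univ.filter fun u => ∃ e s, σ (c.1 e) = Sum.inl (u, s)

theorem mem_img {σ : Subst (Fin n)} {c : (Fin w ↪ Fin n) × (Fin w → Bool)} {u : Fin n} :
    u ∈ img σ c ↔ ∃ e s, σ (c.1 e) = Sum.inl (u, s) := by
  classical
  unfold img
  rw [mem_filter]
  exact ⟨fun h => h.2, fun h => ⟨mem_univ _, h⟩⟩

theorem card_img (σ : Subst (Fin n)) (c : (Fin w ↪ Fin n) × (Fin w → Bool)) :
    (img σ c).card ≤ w := by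
  classical
  have h1 : img σ c ⊆ (univ : Finset (Fin w)).biUnion fun e =>
      match σ (c.1 e) with
      | Sum.inl l => {l.1}
      | Sum.inr _ => ∅ := by
    intro u hu
    obtain ⟨e, s, h⟩ := mem_img.1 hu
    rw [mem_biUnion]
    refine ⟨e, mem_univ _, ?_⟩
    rw [h]
    exact mem_singleton_self _
  refine (card_le_card h1).trans ((card_biUnion_le_card_mul _ _ 1 fun e _ => ?_).trans ?_)
  · cases σ (c.1 e) with
    | inl l => exact (card_singleton _).le
    | inr b => simp
  · rw [card_univ, Fintype.card_fin, mul_one]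

theorem app_congr {σ : Subst (Fin n)} {z z' : Fin n → Bool} {v : Fin n}
    (h : ∀ u s, σ v = Sum.inl (u, s) → z u = z' u) : σ.app z v = σ.app z' v := by
  unfold Subst.app
  cases hv : σ v with
  | inl l =>
    simp only
    rw [h l.1 l.2 hv]
  | inr b => rfl

theorem viol_congr {σ : Subst (Fin n)} {c : (Fin w ↪ Fin n) × (Fin w → Bool)}
    {z z' : Fin n → Bool} (h : ∀ u ∈ img σ c, z u = z' u) (hz : Viol σ c z) : Viol σ c z' := by
  intro e
  rw [← app_congr (σ := σ) (z := z) (z' := z') fun u s hs => h u (mem_img.2 ⟨e, s, hs⟩)]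
  exact hz e

theorem viol_eq {σ : Subst (Fin n)} {c : (Fin w ↪ Fin n) × (Fin w → Bool)}
    {z z' : Fin n → Bool} (hz : Viol σ c z) (hz' : Viol σ c z') {u : Fin n}
    (hu : u ∈ img σ c) : z u = z' u := by
  obtain ⟨e, s, h⟩ := mem_img.1 hu
  have h1 := hz e
  have h2 := hz' e
  unfold Subst.app at h1 h2
  rw [h] at h1 h2
  simp only at h1 h2
  revert h1 h2
  cases z u <;> cases z' u <;> cases s <;> cases c.2 e <;> simp

/-- The variables of side `s` in the clause `c`. -/
def svar (col : Fin n → Bool) (s : Bool) (c : (Fin w ↪ Fin n) × (Fin w → Bool)) :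
    Finset (Fin n) := (posn col s c).image c.1

theorem svar_side {col : Fin n → Bool} {s : Bool} {c : (Fin w ↪ Fin n) × (Fin w → Bool)}
    {u : Fin n} (hu : u ∈ svar col s c) : col u = s := by
  unfold svar posn at hu
  obtain ⟨e, he, rfl⟩ := mem_image.1 hu
  exact (mem_filter.1 he).2

theorem card_svar (col : Fin n → Bool) (s : Bool) (c : (Fin w ↪ Fin n) × (Fin w → Bool)) :
    (svar col s c).card = (posn col s c).card :=
  card_image_of_injective _ c.1.injective

theorem false_eq {col : Fin n → Bool} {s : Bool} {c : (Fin w ↪ Fin n) × (Fin w → Bool)}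
    {y y' : Fin n → Bool} (hy : FalseOn col s c y) (hy' : FalseOn col s c y') {u : Fin n}
    (hu : u ∈ svar col s c) : y u = y' u := by
  unfold svar posn at hu
  obtain ⟨e, he, rfl⟩ := mem_image.1 hu
  have h1 := hy e (mem_filter.1 he).2
  have h2 := hy' e (mem_filter.1 he).2
  revert h1 h2
  cases y (c.1 e) <;> cases y' (c.1 e) <;> cases c.2 e <;> simp

/-- A piece in which small sets of coordinates of side `true` are nearly free. -/
def Dense (col : Fin n → Bool) (J : Finset (Fin n)) (h W : ℕ) (B : Finset (Fin n → Bool)) :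
    Prop :=
  ∀ J' : Finset (Fin n), (∀ u ∈ J', col u = true) → Disjoint J J' → J'.card ≤ W →
    ∀ b', (B ∩ cyl J' b').card * 2 ^ J'.card ≤ B.card * 2 ^ h

open scoped Classical in
/-- The count for one clause and one constraint. -/
theorem cnt_one {col : Fin n → Bool} {J : Finset (Fin n)} {b : Fin n → Bool} {h v : ℕ}
    {B : Finset (Fin n → Bool)} (hBJ : B ⊆ cyl J b)
    (hd : Dense col J h (2 * w) B) (σ : Subst (Fin n))
    (c e : (Fin w ↪ Fin n) × (Fin w → Bool)) (x : Fin n → Bool)
    (hov : v ≤ (svar col true e \ (J ∪ img σ c)).card) :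
    (B.filter fun y => Viol σ c (mix col x y) ∧ FalseOn col true e y).card *
      (2 ^ v * (cyl J b).card) ≤
      B.card * 2 ^ h * ((cyl J b).filter fun y => Viol σ c (mix col x y)).card := by
  rcases (B.filter fun y => Viol σ c (mix col x y) ∧ FalseOn col true e y).eq_empty_or_nonempty
    with h0 | ⟨y0, hy0⟩
  · rw [h0, card_empty, zero_mul]
    exact Nat.zero_le _
  rw [mem_filter] at hy0
  obtain ⟨hy0B, hy0V, hy0F⟩ := hy0
  obtain ⟨J1, hJ1⟩ : ∃ J1, J1 = ((img σ c).filter fun u => col u = true) \ J := ⟨_, rfl⟩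
  obtain ⟨J3, hJ3⟩ : ∃ J3, J3 = svar col true e \ (J ∪ img σ c) := ⟨_, rfl⟩
  have hJ1d : Disjoint J J1 := by
    rw [hJ1]
    exact disjoint_sdiff
  have hJ3d : Disjoint J J3 := by
    rw [disjoint_left]
    intro u hu hu3
    rw [hJ3, mem_sdiff, mem_union, not_or] at hu3
    exact hu3.2.1 hu
  have hJ13 : Disjoint J1 J3 := by
    rw [disjoint_left]
    intro u hu hu3
    rw [hJ1, mem_sdiff, mem_filter] at hu
    rw [hJ3, mem_sdiff, mem_union, not_or] at hu3
    exact hu3.2.2 hu.1.1
  have hJ1c : J1.card ≤ w := by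
    rw [hJ1]
    exact (card_le_card (sdiff_subset.trans (filter_subset _ _))).trans (card_img σ c)
  have hJ3c : J3.card ≤ w := by
    rw [hJ3]
    refine (card_le_card sdiff_subset).trans ?_
    rw [card_svar]
    unfold posn
    refine (card_filter_le _ _).trans ?_
    rw [card_univ, Fintype.card_fin]
  -- the pieces of the two sets
  have h1 : (B.filter fun y => Viol σ c (mix col x y) ∧ FalseOn col true e y) ⊆
      B ∩ cyl (J1 ∪ J3) y0 := by
    intro y hy
    rw [mem_filter] at hy
    rw [mem_inter, mem_cyl]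
    refine ⟨hy.1, fun u hu => ?_⟩
    rcases mem_union.1 hu with hu | hu
    · rw [hJ1, mem_sdiff, mem_filter] at hu
      have := viol_eq hy.2.1 hy0V hu.1.1
      unfold mix at this
      simpa [hu.1.2] using this
    · rw [hJ3, mem_sdiff] at hu
      exact false_eq hy.2.2 hy0F hu.1
  have h2 : cyl (J ∪ J1) y0 ⊆ (cyl J b).filter fun y => Viol σ c (mix col x y) := by
    intro y hy
    rw [mem_cyl] at hy
    rw [mem_filter, mem_cyl]
    refine ⟨fun u hu => ?_, viol_congr (fun u hu => ?_) hy0V⟩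
    · rw [hy u (mem_union_left _ hu)]
      exact mem_cyl.1 (hBJ hy0B) u hu
    · unfold mix
      cases hc : col u
      · simp
      · simp only [if_true]
        by_cases huJ : u ∈ J
        · exact (hy u (mem_union_left _ huJ)).symm
        · refine (hy u (mem_union_right _ ?_)).symm
          rw [hJ1, mem_sdiff, mem_filter]
          exact ⟨⟨hu, hc⟩, huJ⟩
  have h3 : (cyl J b).card = (cyl (J ∪ J1) y0).card * 2 ^ J1.card := by
    have e1 := card_cyl J b
    have e2 := card_cyl (J ∪ J1) y0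
    rw [card_union_of_disjoint hJ1d, pow_add] at e2
    have e3 : (cyl J b).card * 2 ^ J.card = (cyl (J ∪ J1) y0).card * 2 ^ J1.card * 2 ^ J.card := by
      rw [e1, ← e2]
      ring
    exact Nat.eq_of_mul_eq_mul_right (by positivity) e3
  have h4 := hd (J1 ∪ J3) (fun u hu => by
    rcases mem_union.1 hu with hu | hu
    · rw [hJ1, mem_sdiff, mem_filter] at hu
      exact hu.1.2
    · rw [hJ3, mem_sdiff] at hu
      exact svar_side hu.1) (disjoint_union_right.2 ⟨hJ1d, hJ3d⟩) (by
        rw [card_union_of_disjoint hJ13]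
        omega) y0
  rw [card_union_of_disjoint hJ13] at h4
  have h5 : 2 ^ (J1.card + v) ≤ 2 ^ (J1.card + J3.card) :=
    Nat.pow_le_pow_right (by norm_num) (by rw [← hJ3] at hov; omega)
  calc (B.filter fun y => Viol σ c (mix col x y) ∧ FalseOn col true e y).card *
      (2 ^ v * (cyl J b).card)
      ≤ (B ∩ cyl (J1 ∪ J3) y0).card * (2 ^ v * ((cyl (J ∪ J1) y0).card * 2 ^ J1.card)) := by
        rw [h3]
        exact Nat.mul_le_mul_right _ (card_le_card h1)
    _ = (B ∩ cyl (J1 ∪ J3) y0).card * 2 ^ (J1.card + v) * (cyl (J ∪ J1) y0).card := by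
        rw [pow_add]
        ring
    _ ≤ (B ∩ cyl (J1 ∪ J3) y0).card * 2 ^ (J1.card + J3.card) * (cyl (J ∪ J1) y0).card :=
        Nat.mul_le_mul_right _ (Nat.mul_le_mul_left _ h5)
    _ ≤ B.card * 2 ^ h * (cyl (J ∪ J1) y0).card := Nat.mul_le_mul_right _ h4
    _ ≤ B.card * 2 ^ h * ((cyl J b).filter fun y => Viol σ c (mix col x y)).card :=
        Nat.mul_le_mul_left _ (card_le_card h2)

open scoped Classical in
/-- The count for all clauses. -/
theorem cnt_all {col : Fin n → Bool} {J : Finset (Fin n)} {b : Fin n → Bool} {h v κ N : ℕ}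
    {B : Finset (Fin n → Bool)} (hB : B.Nonempty) (hBJ : B ⊆ cyl J b)
    (hd : Dense col J h (2 * w) B) (σ : Subst (Fin n)) (f : ClauseList n m w)
    (x : Fin n → Bool) (D : Finset (Fin m)) (E : Fin m → Finset (Fin m))
    (hE : ∀ c ∈ D, (E c).card ≤ κ)
    (hov : ∀ c ∈ D, ∀ e ∈ E c, v ≤ (svar col true (f e) \ (J ∪ img σ (f c))).card)
    (hcov : ∀ y ∈ B, ∃ c ∈ D, Viol σ (f c) (mix col x y) ∧
      ∃ e ∈ E c, FalseOn col true (f e) y)
    (hN : ∀ y, (D.filter fun c => Viol σ (f c) (mix col x y)).card ≤ N) :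
    2 ^ v ≤ κ * 2 ^ h * N := by
  have hJ : 0 < (cyl J b).card := by
    obtain ⟨y, hy⟩ := hB
    exact card_pos.2 ⟨y, hBJ hy⟩
  have h1 : B.card ≤ ∑ c ∈ D, ∑ e ∈ E c,
      (B.filter fun y => Viol σ (f c) (mix col x y) ∧ FalseOn col true (f e) y).card := by
    have h2 : B ⊆ D.biUnion fun c => (E c).biUnion fun e =>
        B.filter fun y => Viol σ (f c) (mix col x y) ∧ FalseOn col true (f e) y := by
      intro y hy
      obtain ⟨c, hc, hc', e, he, he'⟩ := hcov y hy
      rw [mem_biUnion]
      refine ⟨c, hc, ?_⟩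
      rw [mem_biUnion]
      exact ⟨e, he, mem_filter.2 ⟨hy, hc', he'⟩⟩
    refine (card_le_card h2).trans (card_biUnion_le.trans (sum_le_sum fun c _ => ?_))
    exact card_biUnion_le
  have h3 : B.card * (2 ^ v * (cyl J b).card) ≤
      κ * (B.card * 2 ^ h) * (N * (cyl J b).card) := by
    calc B.card * (2 ^ v * (cyl J b).card)
        ≤ (∑ c ∈ D, ∑ e ∈ E c, (B.filter fun y => Viol σ (f c) (mix col x y) ∧
            FalseOn col true (f e) y).card) * (2 ^ v * (cyl J b).card) :=
          Nat.mul_le_mul_right _ h1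
      _ = ∑ c ∈ D, ∑ e ∈ E c, (B.filter fun y => Viol σ (f c) (mix col x y) ∧
            FalseOn col true (f e) y).card * (2 ^ v * (cyl J b).card) := by
          rw [sum_mul]
          exact sum_congr rfl fun c _ => sum_mul _ _ _
      _ ≤ ∑ c ∈ D, ∑ e ∈ E c, B.card * 2 ^ h *
            ((cyl J b).filter fun y => Viol σ (f c) (mix col x y)).card :=
          sum_le_sum fun c hc => sum_le_sum fun e he =>
            cnt_one hBJ hd σ (f c) (f e) x (hov c hc e he)
      _ ≤ ∑ c ∈ D, κ * (B.card * 2 ^ h *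
            ((cyl J b).filter fun y => Viol σ (f c) (mix col x y)).card) := by
          refine sum_le_sum fun c hc => ?_
          rw [sum_const, smul_eq_mul]
          exact Nat.mul_le_mul_right _ (hE c hc)
      _ = κ * (B.card * 2 ^ h) *
            ∑ c ∈ D, ((cyl J b).filter fun y => Viol σ (f c) (mix col x y)).card := by
          rw [mul_sum]
          exact sum_congr rfl fun c _ => by ring
      _ = κ * (B.card * 2 ^ h) *
            ∑ y ∈ cyl J b, (D.filter fun c => Viol σ (f c) (mix col x y)).card := by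
          congr 1
          simp only [card_filter]
          exact sum_comm
      _ ≤ κ * (B.card * 2 ^ h) * (N * (cyl J b).card) := by
          refine Nat.mul_le_mul_left _ ?_
          refine (sum_le_card_nsmul _ _ N fun y _ => hN y).trans ?_
          rw [smul_eq_mul, mul_comm]
  have h4 : 2 ^ v * (B.card * (cyl J b).card) ≤ κ * 2 ^ h * N * (B.card * (cyl J b).card) := by
    calc 2 ^ v * (B.card * (cyl J b).card) = B.card * (2 ^ v * (cyl J b).card) := by ring
      _ ≤ κ * (B.card * 2 ^ h) * (N * (cyl J b).card) := h3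
      _ = κ * 2 ^ h * N * (B.card * (cyl J b).card) := by ring
  exact Nat.le_of_mul_le_mul_right h4 (Nat.mul_pos hB.card_pos hJ)

end Pool.Agent.MP_9cec2c_lc.Redun
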