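import Pool.Agent.Lib.MP_9cec2c_lc.LRCore

/-!
Dense pieces of sets of assignments.
-/

set_option autoImplicit false
set_option linter.unusedSectionVars false

namespace Pool.Agent.MP_9cec2c_lc.Redun

open Finset

variable {n : ℕ}

/-- The assignments that agree with `b` on `J`. -/
def cyl (J : Finset (Fin n)) (b : Fin n → Bool) : Finset (Fin n → Bool) :=
  univ.filter fun y => ∀ u ∈ J, y u = b u

theorem mem_cyl {J : Finset (Fin n)} {b y : Fin n → Bool} :
    y ∈ cyl J b ↔ ∀ u ∈ J, y u = b u := by
  unfold cyl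
  rw [mem_filter]
  exact ⟨fun h => h.2, fun h => ⟨mem_univ _, h⟩⟩

theorem card_cyl (J : Finset (Fin n)) (b : Fin n → Bool) :
    (cyl J b).card * 2 ^ J.card = 2 ^ n := by
  classical
  have h1 : cyl J b = Fintype.piFinset (fun u => if u ∈ J then {b u} else univ) := by
    ext y
    rw [mem_cyl, Fintype.mem_piFinset]
    constructor
    · intro h u
      by_cases hu : u ∈ J
      · rw [if_pos hu, mem_singleton]
        exact h u hu
      · rw [if_neg hu]
        exact mem_univ _
    · intro h u hu
      have := h u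
      rw [if_pos hu, mem_singleton] at this
      exact this
  have h3 : ∏ u : Fin n, (if u ∈ J then ({b u} : Finset Bool) else univ).card =
      2 ^ (n - J.card) := by
    have h4 : ∀ u : Fin n, (if u ∈ J then ({b u} : Finset Bool) else univ).card =
        if u ∈ J then 1 else 2 := by
      intro u
      split_ifs
      · exact card_singleton _
      · rw [card_univ, Fintype.card_bool]
    simp only [h4]
    rw [prod_ite, prod_const_one, one_mul, prod_const]
    congr 1
    rw [filter_not, filter_mem_eq_inter, univ_inter, card_sdiff_of_subset (subset_univ _),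
      card_univ, Fintype.card_fin]
  have h5 : J.card ≤ n := by
    have := card_le_univ J
    rwa [Fintype.card_fin] at this
  rw [h1, Fintype.card_piFinset, h3, ← pow_add]
  congr 1
  omega

/-- Every set of assignments has a piece that is dense outside a set of coordinates. -/
theorem exists_piece (Y : Finset (Fin n)) (B : Finset (Fin n → Bool)) (q : ℕ) :
    ∃ (J : Finset (Fin n)) (b : Fin n → Bool), J ⊆ Y ∧
      B.card ^ q ≤ (B ∩ cyl J b).card ^ q * 2 ^ ((q - 1) * J.card) ∧
      ∀ J' ⊆ Y, Disjoint J J' → ∀ b' : Fin n → Bool,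
        ((B ∩ cyl J b) ∩ cyl J' b').card ^ q * 2 ^ ((q - 1) * J'.card) ≤
          (B ∩ cyl J b).card ^ q := by
  classical
  obtain ⟨Φ, hΦ⟩ : ∃ Φ : Finset (Fin n) × (Fin n → Bool) → ℕ, Φ = fun p =>
      (B ∩ cyl p.1 p.2).card ^ q * 2 ^ ((q - 1) * p.1.card) := ⟨_, rfl⟩
  obtain ⟨⟨J, b⟩, hJ, hmax⟩ := exists_max_image
    ((univ : Finset (Finset (Fin n) × (Fin n → Bool))).filter fun p => p.1 ⊆ Y) Φ
    ⟨(∅, fun _ => true), mem_filter.2 ⟨mem_univ _, empty_subset _⟩⟩
  have hJY : J ⊆ Y := (mem_filter.1 hJ).2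
  refine ⟨J, b, hJY, ?_, fun J' hJ' hd b' => ?_⟩
  · have h := hmax (∅, fun _ => true) (mem_filter.2 ⟨mem_univ _, empty_subset _⟩)
    rw [hΦ] at h
    simp only [card_empty, mul_zero, pow_zero, mul_one] at h
    have h2 : B ∩ cyl ∅ (fun _ => true) = B := by
      refine inter_eq_left.2 fun y _ => ?_
      rw [mem_cyl]
      intro u hu
      exact absurd hu (notMem_empty _)
    rw [h2] at h
    exact h
  · obtain ⟨b'', hb''⟩ : ∃ b'' : Fin n → Bool, b'' = fun u => if u ∈ J then b u else b' u :=
      ⟨_, rfl⟩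
    have h := hmax (J ∪ J', b'') (mem_filter.2 ⟨mem_univ _, union_subset hJY hJ'⟩)
    rw [hΦ] at h
    simp only at h
    have h2 : B ∩ cyl (J ∪ J') b'' = (B ∩ cyl J b) ∩ cyl J' b' := by
      ext y
      rw [mem_inter, mem_inter, mem_inter, mem_cyl, mem_cyl, mem_cyl]
      constructor
      · rintro ⟨h3, h4⟩
        refine ⟨⟨h3, fun u hu => ?_⟩, fun u hu => ?_⟩
        · have := h4 u (mem_union_left _ hu)
          rw [hb''] at this
          simpa [hu] using this
        · have := h4 u (mem_union_right _ hu)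
          have hu' : u ∉ J := fun h => (disjoint_left.1 hd) h hu
          rw [hb''] at this
          simpa [hu'] using this
      · rintro ⟨⟨h3, h4⟩, h5⟩
        refine ⟨h3, fun u hu => ?_⟩
        rw [hb'']
        by_cases hu' : u ∈ J
        · simp only [hu', if_true]
          exact h4 u hu'
        · simp only [hu', if_false]
          rcases mem_union.1 hu with h | h
          · exact absurd h hu'
          · exact h5 u h
    rw [h2, card_union_of_disjoint hd, mul_add, pow_add, ← mul_assoc, mul_right_comm] at h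
    exact Nat.le_of_mul_le_mul_right h (by positivity)

/-- The number of fixed coordinates of the dense piece of a large set is small. -/
theorem piece_small {B : Finset (Fin n → Bool)} {J : Finset (Fin n)} {b : Fin n → Bool}
    {q z : ℕ} (hq : 0 < q) (hzn : z ≤ n) (hB : 2 ^ (n - z) < B.card)
    (h : B.card ^ q ≤ (B ∩ cyl J b).card ^ q * 2 ^ ((q - 1) * J.card)) : J.card < q * z := by
  classical
  have hJn : J.card ≤ n := by
    have := card_le_univ J
    rwa [Fintype.card_fin] at this
  have h1 : (B ∩ cyl J b).card * 2 ^ J.card ≤ 2 ^ n := by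
    rw [← card_cyl J b]
    exact Nat.mul_le_mul_right _ (card_le_card inter_subset_right)
  have h2 : (2 ^ (n - z)) ^ q < B.card ^ q := Nat.pow_lt_pow_left hB (by omega)
  have h3 : (2 ^ (n - z)) ^ q * 2 ^ J.card < (2 ^ n) ^ q := by
    calc (2 ^ (n - z)) ^ q * 2 ^ J.card < B.card ^ q * 2 ^ J.card :=
          Nat.mul_lt_mul_of_pos_right h2 (by positivity)
      _ ≤ (B ∩ cyl J b).card ^ q * 2 ^ ((q - 1) * J.card) * 2 ^ J.card :=
          Nat.mul_le_mul_right _ h
      _ = ((B ∩ cyl J b).card * 2 ^ J.card) ^ q := by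
          rw [mul_assoc, ← pow_add, mul_pow, ← pow_mul]
          congr 2
          obtain ⟨c, rfl⟩ : ∃ c, q = c + 1 := ⟨q - 1, by omega⟩
          rw [Nat.add_sub_cancel]
          ring
      _ ≤ (2 ^ n) ^ q := Nat.pow_le_pow_left h1 _
  rw [← pow_mul, ← pow_mul, ← pow_add] at h3
  have h4 := (Nat.pow_lt_pow_iff_right (by norm_num : 1 < 2)).1 h3
  have h5 : (n - z) * q + z * q = n * q := by
    rw [← add_mul]
    congr 1
    omega
  rw [mul_comm q z]
  omega

/-- The density bound without roots. -/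
theorem piece_bound {B' : Finset (Fin n → Bool)} {J : Finset (Fin n)} {b : Fin n → Bool}
    {q h : ℕ} (hq : 0 < q) (hJ : J.card ≤ q * h)
    (hd : (B' ∩ cyl J b).card ^ q * 2 ^ ((q - 1) * J.card) ≤ B'.card ^ q) :
    (B' ∩ cyl J b).card * 2 ^ J.card ≤ B'.card * 2 ^ h := by
  have h1 : ((B' ∩ cyl J b).card * 2 ^ J.card) ^ q ≤ (B'.card * 2 ^ h) ^ q := by
    calc ((B' ∩ cyl J b).card * 2 ^ J.card) ^ q
        = (B' ∩ cyl J b).card ^ q * 2 ^ ((q - 1) * J.card) * 2 ^ J.card := by
          rw [mul_assoc, ← pow_add, mul_pow, ← pow_mul]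
          congr 2
          obtain ⟨c, rfl⟩ : ∃ c, q = c + 1 := ⟨q - 1, by omega⟩
          rw [Nat.add_sub_cancel]
          ring
      _ ≤ B'.card ^ q * 2 ^ J.card := Nat.mul_le_mul_right _ hd
      _ ≤ B'.card ^ q * 2 ^ (q * h) :=
          Nat.mul_le_mul_left _ (Nat.pow_le_pow_right (by norm_num) hJ)
      _ = (B'.card * 2 ^ h) ^ q := by
          rw [mul_pow, ← pow_mul, mul_comm h q]
  exact (Nat.pow_le_pow_iff_left (by omega)).1 h1

end Pool.Agent.MP_9cec2c_lc.Redun
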