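import Pool.Agent.Lib.MP_9cec2c_lc.RPRigid
import Pool.Agent.Lib.MP_9cec2c_lc.Mg.G056

/-!
The lower bound for refutations with the redundance rule, in terms of the parameters.
-/

set_option autoImplicit false
set_option linter.unusedSectionVars false

namespace Pool.Agent.MP_9cec2c_lc.Redun

open Finset
open Pool.Agent.MP_9cec2c_lc.LovSch

variable {n m w : ℕ}

/-- The premises as indices. -/
theorem follows_idx {k S : ℕ} {f : ClauseList n m w} {T : Fin S → (Fin n → Bool) → Prop}
    {i : Fin S} {N Q : (Fin n → Bool) → Prop} (h : Follows k (toCNF f) T i N Q) :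
    ∃ (P : Finset (Fin S)) (G : Finset (Fin m)), P.card ≤ k ∧ (∀ j ∈ P, j < i) ∧ G.card ≤ k ∧
      ∀ z, N z → ¬ Q z → (∃ j ∈ P, ¬ T j z) ∨ ∃ e ∈ G,
        ¬ Holds z (univ.image fun p => ((f e).1 p, (f e).2 p)) := by
  classical
  obtain ⟨P, G, h1, h2, h3, h4, h5⟩ := h
  have hG : ∀ C : G, ∃ e : Fin m, C.1 = univ.image fun p => ((f e).1 p, (f e).2 p) := by
    intro C
    have := h4 C.2
    unfold toCNF at this
    obtain ⟨e, -, he⟩ := mem_image.1 this
    exact ⟨e, he.symm⟩
  choose g hg using hG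
  refine ⟨P, univ.image g, h1, h2, ?_, fun z hz hQ => ?_⟩
  · refine card_image_le.trans ?_
    rw [card_univ, Fintype.card_coe]
    exact h3
  · by_contra hcon
    push Not at hcon
    refine hQ (h5 z hz hcon.1 fun C hC => ?_)
    have := hcon.2 (g ⟨C, hC⟩) (mem_image_of_mem _ (mem_univ _))
    rw [← hg ⟨C, hC⟩] at this
    exact this

theorem viol_iff {σ : Subst (Fin n)} {c : (Fin w ↪ Fin n) × (Fin w → Bool)} {z : Fin n → Bool} :
    ¬ Holds (σ.app z) (univ.image fun p => (c.1 p, c.2 p)) ↔ Viol σ c z := by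
  classical
  unfold Holds Viol
  constructor
  · intro h e he
    exact h ⟨(c.1 e, c.2 e), mem_image_of_mem _ (mem_univ _), he⟩
  · rintro h ⟨l, hl, hl'⟩
    obtain ⟨e, -, rfl⟩ := mem_image.1 hl
    exact h e hl'

variable {f : ClauseList n m w} {v r v2 r2 t0 m0 N D : ℕ} {A B : Finset (Fin n)}
  {x0 : Fin n → Bool}

theorem mix_off {P Q : (Fin n → Bool) → Prop} (hP : ∀ x, P x → ∀ u, u ∉ B → x u = x0 u)
    (hQ : ∀ y, Q y → ∀ u, u ∉ A → y u = x0 u) {x y : Fin n → Bool} (hx : P x) (hy : Q y)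
    {u : Fin n} (hu : u ∉ B) : mix (inS A) x y u = y u := by
  unfold mix
  split_ifs with h
  · rfl
  · rw [hP x hx u hu, hQ y hy u fun hA => h (inS_true.2 hA)]

/-- The false set of a line is a union of triangles. -/
theorem exists_tri {k : ℕ} {P Q T : (Fin n → Bool) → Prop}
    (hP : ∀ x, P x → ∀ u, u ∉ B → x u = x0 u) (hQ : ∀ y, Q y → ∀ u, u ∉ A → y u = x0 u)
    (h : Simple k A B T) :
    ∃ (α : Fin k → {x // P x} → EReal) (β : Fin k → {y // Q y} → EReal),
      ∀ x y, ¬ T (mix (inS A) x.1 y.1) ↔ ∃ t, β t y < α t x := by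
  obtain ⟨a, b, hab, hT⟩ := h
  refine ⟨fun t x => ((- b t x.1 : ℝ) : EReal), fun t y => ((a t y.1 : ℝ) : EReal),
    fun x y => ?_⟩
  rw [hT]
  refine exists_congr fun t => ?_
  have h1 : a t (mix (inS A) x.1 y.1) = a t y.1 := by
    refine (hab t).1 fun u hu => ?_
    exact mix_off hP hQ x.2 y.2 (by simpa using hu)
  have h2 : b t (mix (inS A) x.1 y.1) = b t x.1 := by
    refine (hab t).2 fun u hu => ?_
    have hu' : u ∉ A := by simpa using hu
    unfold mix
    rw [if_neg fun h => hu' (inS_true.1 h)]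
  rw [h1, h2, EReal.coe_lt_coe_iff]
  constructor <;> intro h <;> linarith

/-- The condition that the substitution changes the variable `u` is a rectangle. -/
theorem exists_rect (col : Fin n → Bool) (σ : Subst (Fin n)) (u : Fin n) (a : Bool) :
    ∃ (p q : (Fin n → Bool) → Prop), ∀ x y,
      (mix col x y u = a ∧ σ.app (mix col x y) u = !a) ↔ (p x ∧ q y) := by
  have h1 : ∀ (u : Fin n) (a : Bool), ∃ (p q : (Fin n → Bool) → Prop), ∀ x y,
      mix col x y u = a ↔ (p x ∧ q y) := by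
    intro u a
    unfold mix
    cases h : col u
    · exact ⟨fun x => x u = a, fun _ => True, fun x y => by simp⟩
    · exact ⟨fun _ => True, fun y => y u = a, fun x y => by simp⟩
  have h2 : ∃ (p q : (Fin n → Bool) → Prop), ∀ x y,
      σ.app (mix col x y) u = (!a) ↔ (p x ∧ q y) := by
    unfold Subst.app
    cases h : σ u with
    | inl l =>
      obtain ⟨p, q, hpq⟩ := h1 l.1 (if a then !l.2 else l.2)
      refine ⟨p, q, fun x y => ?_⟩
      rw [← hpq]
      simp only
      cases a <;> cases mix col x y l.1 <;> cases l.2 <;> simp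
    | inr b =>
      refine ⟨fun _ => b = !a, fun _ => True, fun x y => ?_⟩
      simp
  obtain ⟨p, q, hpq⟩ := h1 u a
  obtain ⟨p', q', hpq'⟩ := h2
  refine ⟨fun x => p x ∧ p' x, fun y => q y ∧ q' y, fun x y => ?_⟩
  rw [hpq, hpq']
  tauto

open scoped Classical in
/-- One triangle of a line, from the earlier lines and a family of further triangles. -/
theorem line_cover (hf : Good f v r v2 r2 t0 m0 N D) {k k0 S : ℕ} (hr : 1 < r)
    (hvrA : v * r ≤ A.card) (hvrB : v * r ≤ B.card) {P Q : (Fin n → Bool) → Prop}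
    (hP : ∀ x, P x → ∀ u, u ∉ B → x u = x0 u) (hQ : ∀ y, Q y → ∀ u, u ∉ A → y u = x0 u)
    (hcl : ∀ x y, P x → Q y → ∀ i : Fin m,
      ¬ Holds (mix (inS A) x y) (univ.image fun p => ((f i).1 p, (f i).2 p)) →
        i ∈ hitS A B v f x0 B x ∧ i ∈ hitS A B v f x0 A y)
    {BU : Finset {x // P x}} {BV : Finset {y // Q y}} {L : Fin S → (Fin n → Bool) → Prop}
    {α : Fin S → Fin k0 → {x // P x} → EReal} {β : Fin S → Fin k0 → {y // Q y} → EReal}
    (hαβ : ∀ i x y, ¬ L i (mix (inS A) x.1 y.1) ↔ ∃ t, β i t y < α i t x)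
    {M : Finset (Fin S)} {G : Finset (Fin m)} (hMk : M.card ≤ k) (hG : G.card ≤ k)
    (hPi : ∀ j ∈ M, ∀ t, App (fun x => hitS A B v f x0 B x.1)
      (fun y => hitS A B v f x0 A y.1) r r BU BV (α j t) (β j t))
    {ι : Type} [Fintype ι] {a : ι → {x // P x} → EReal}
    {b : ι → {y // Q y} → EReal} {kk : ℕ} (hι : Fintype.card ι + k * k0 + k ≤ kk)
    (hab : ∀ c, App (fun x => hitS A B v f x0 B x.1) (fun y => hitS A B v f x0 A y.1)
      r r BU BV (a c) (b c))
    {α' : {x // P x} → EReal} {β' : {y // Q y} → EReal}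
    (hcov : ∀ x y, β' y < α' x → (∃ j ∈ M, ¬ L j (mix (inS A) x.1 y.1)) ∨
      (∃ e ∈ G, ¬ Holds (mix (inS A) x.1 y.1)
        (univ.image fun p => ((f e).1 p, (f e).2 p))) ∨ ∃ c, b c y < a c x) :
    ∃ (BU' : Finset {x // P x}) (BV' : Finset {y // Q y}),
      BU ⊆ BU' ∧ BV ⊆ BV' ∧
      BU'.card ≤ BU.card + (kk * r) ^ r * 2 ^ (B.card - v * r) ∧
      BV'.card ≤ BV.card + r ^ r * 2 ^ (A.card - v * r) ∧
      App (fun x => hitS A B v f x0 B x.1) (fun y => hitS A B v f x0 A y.1) r r BU' BV'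
        α' β' := by
  refine app_combine (ι := (M × Fin k0) ⊕ G ⊕ ι) (k := kk) (CU := 2 ^ (B.card - v * r))
    (CV := 2 ^ (A.card - v * r)) ?_ (by omega) (by omega)
    (fun M hM => hit_count_sub hf.spread hvrB hP le_rfl hM)
    (fun M hM => hit_count_sub hf.spread hvrA hQ le_rfl hM)
    (a := fun c x => match c with
      | Sum.inl j => α j.1.1 j.2 x
      | Sum.inr (Sum.inl e) => if e.1 ∈ hitS A B v f x0 B x.1 then 1 else 0
      | Sum.inr (Sum.inr c) => a c x)
    (b := fun c y => match c with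
      | Sum.inl j => β j.1.1 j.2 y
      | Sum.inr (Sum.inl e) => if e.1 ∈ hitS A B v f x0 A y.1 then 0 else 1
      | Sum.inr (Sum.inr c) => b c y)
    (fun c => ?_) (fun x y hxy => ?_)
  · rw [Fintype.card_sum, Fintype.card_sum, Fintype.card_prod, Fintype.card_coe,
      Fintype.card_coe, Fintype.card_fin]
    have : M.card * k0 ≤ k * k0 := Nat.mul_le_mul_right _ hMk
    omega
  · rcases c with j | e | c
    · exact hPi j.1.1 j.1.2 j.2
    · refine app_leaf hr hr e.1 fun x y hxy => ?_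
      simp only at hxy
      by_cases h1 : e.1 ∈ hitS A B v f x0 B x.1
      · by_cases h2 : e.1 ∈ hitS A B v f x0 A y.1
        · exact ⟨h1, h2⟩
        · rw [if_pos h1, if_neg h2] at hxy
          exact absurd hxy (lt_irrefl _)
      · by_cases h2 : e.1 ∈ hitS A B v f x0 A y.1
        · rw [if_neg h1, if_pos h2] at hxy
          exact absurd hxy (lt_irrefl _)
        · rw [if_neg h1, if_neg h2] at hxy
          exact absurd hxy (by norm_num)
    · exact hab c
  · rcases hcov x y hxy with ⟨j, hj, hj'⟩ | ⟨e, he, he'⟩ | ⟨c, hc⟩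
    · obtain ⟨t, ht⟩ := (hαβ j x y).1 hj'
      exact ⟨Sum.inl (⟨j, hj⟩, t), ht⟩
    · obtain ⟨h1, h2⟩ := hcl _ _ x.2 y.2 e he'
      refine ⟨Sum.inr (Sum.inl ⟨e, he⟩), ?_⟩
      simp only
      rw [if_pos h1, if_pos h2]
      norm_num
    · exact ⟨Sum.inr (Sum.inr c), hc⟩

open scoped Classical in
/-- One line of the refutation. -/
theorem line_step (hf : Good f v r v2 r2 t0 m0 N D) {q z h k k0 S vo kk : ℕ} (hq : 0 < q)
    (hr : 1 < r) (hvrA : v * r ≤ A.card) (hvrB : v * r ≤ B.card) (hzA : z ≤ A.card)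
    (hJ : q * z ≤ v2 * r2) (hqh : 2 * w ≤ q * h)
    (hvo : vo + 2 * v2 + 2 * v2 ≤ 2 * v) (hnum : (k * (k0 * r) + k) * 2 ^ h * N < 2 ^ vo)
    (hkk : 2 * n + k * k0 + k ≤ kk) {P Q E : (Fin n → Bool) → Prop}
    (hP : ∀ x, P x → ∀ u, u ∉ B → x u = x0 u) (hQ : ∀ y, Q y → ∀ u, u ∉ A → y u = x0 u)
    (hcl : ∀ x y, P x → Q y → ∀ i : Fin m,
      ¬ Holds (mix (inS A) x y) (univ.image fun p => ((f i).1 p, (f i).2 p)) →
        i ∈ hitS A B v f x0 B x ∧ i ∈ hitS A B v f x0 A y)
    (hD : ∀ x y, P x → Q y → E (mix (inS A) x y))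
    {BU : Finset {x // P x}} {BV : Finset {y // Q y}} {L : Fin S → (Fin n → Bool) → Prop}
    {α : Fin S → Fin k0 → {x // P x} → EReal} {β : Fin S → Fin k0 → {y // Q y} → EReal}
    (hαβ : ∀ i x y, ¬ L i (mix (inS A) x.1 y.1) ↔ ∃ t, β i t y < α i t x)
    (href : RefOn k (toCNF f) E L) (i : Fin S)
    (hap : ∀ j < i, ∀ t, App (fun x => hitS A B v f x0 B x.1)
      (fun y => hitS A B v f x0 A y.1) r r BU BV (α j t) (β j t)) :
    ∃ (BU' : Finset {x // P x}) (BV' : Finset {y // Q y}),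
      BU ⊆ BU' ∧ BV ⊆ BV' ∧
      BU'.card ≤ BU.card + (2 * n * k0 * ((r2 + t0) ^ r * 2 ^ (B.card - v * r)) +
        k0 * ((kk * r) ^ r * 2 ^ (B.card - v * r))) ∧
      BV'.card ≤ BV.card + (2 * n * k0 * (r ^ r * 2 ^ (A.card - v * r) +
        (m + 1) ^ r * 2 ^ (A.card - z)) + k0 * (r ^ r * 2 ^ (A.card - v * r))) ∧
      ∀ t, App (fun x => hitS A B v f x0 B x.1) (fun y => hitS A B v f x0 A y.1) r r BU' BV'
        (α i t) (β i t) := by
  rcases href.2 i with hsem | ⟨σ, hσ1, hσ2⟩
  · obtain ⟨M, G, h1, h2, h3, h4⟩ := follows_idx hsem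
    obtain ⟨BU', BV', g1, g2, g3, g4, g5⟩ := app_family (univ : Finset (Fin k0))
      (S := fun x : {x // P x} => hitS A B v f x0 B x.1)
      (T := fun y : {y // Q y} => hitS A B v f x0 A y.1) (r := r) (s := r)
      (α := α i) (β := β i)
      (dU := (kk * r) ^ r * 2 ^ (B.card - v * r)) (dV := r ^ r * 2 ^ (A.card - v * r))
      (BU := BU) (BV := BV)
      (fun t _ BU' BV' hU hV => line_cover (ι := Empty) (kk := kk)
        (a := fun c => c.elim) (b := fun c => c.elim) hf hr hvrA hvrB hP hQ hcl hαβ h1 h3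
        (fun j hj t => (hap j (h2 j hj) t).mono hU hV) (by rw [Fintype.card_empty]; omega)
        (fun c => c.elim)
        (fun x y hxy => by
          rcases h4 _ trivial ((hαβ i x y).2 ⟨t, hxy⟩) with h | h
          · exact Or.inl h
          · exact Or.inr (Or.inl h)))
    rw [card_univ, Fintype.card_fin] at g3 g4
    exact ⟨BU', BV', g1, g2, by omega, by omega, fun t => g5 t (mem_univ t)⟩
  · -- the triangles where the substitution changes a variable
    choose pX pY hp using fun c : Fin n × Bool => exists_rect (inS A) σ c.1 c.2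
    have hfam := app_family (univ : Finset ((Fin n × Bool) × Fin k0))
      (S := fun x : {x // P x} => hitS A B v f x0 B x.1)
      (T := fun y : {y // Q y} => hitS A B v f x0 A y.1) (r := r) (s := r)
      (α := fun c x => if pX c.1 x.1 then α i c.2 x else ⊥)
      (β := fun c y => if pY c.1 y.1 then β i c.2 y else ⊤)
      (dU := (r2 + t0) ^ r * 2 ^ (B.card - v * r))
      (dV := r ^ r * 2 ^ (A.card - v * r) + (m + 1) ^ r * 2 ^ (A.card - z)) (BU := BU) (BV := BV)
      (fun c _ BU' BV' hU hV => by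
        have hlt : ∀ (x : {x // P x}) (y : {y // Q y}),
            (if pY c.1 y.1 then β i c.2 y else ⊤) < (if pX c.1 x.1 then α i c.2 x else ⊥) →
            pX c.1 x.1 ∧ pY c.1 y.1 ∧ β i c.2 y < α i c.2 x := by
          intro x y hxy
          by_cases hx : pX c.1 x.1
          · by_cases hy : pY c.1 y.1
            · rw [if_pos hx, if_pos hy] at hxy
              exact ⟨hx, hy, hxy⟩
            · rw [if_neg hy] at hxy
              exact absurd hxy not_top_lt
          · rw [if_neg hx] at hxy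
            exact absurd hxy not_lt_bot
        refine rigid_app (κ := k * (k0 * r) + k) hf hq (by omega) hvrA hvrB hzA hJ hqh hvo hnum
          hP hQ σ c.1.1 c.1.2 (fun x y hxy => ?_) (fun c' x hx => ?_)
        · obtain ⟨h1, h2, -⟩ := hlt x y hxy
          exact (hp c.1 x.1 y.1).2 ⟨h1, h2⟩
        · obtain ⟨M, G, h1, h2, h3, h4⟩ := follows_idx (hσ1 _
            (mem_image_of_mem _ (mem_univ c')))
          have hel : ∀ j : M × Fin k0, ∃ E : Finset (Fin m), E.card ≤ r ∧
              ∀ y, y ∉ BV' → β j.1.1 j.2 y < α j.1.1 j.2 x →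
                ∃ e ∈ E, e ∈ hitS A B v f x0 B x.1 ∧ e ∈ hitS A B v f x0 A y.1 :=
            fun j => app_elems ((hap j.1.1 (h2 j.1.1 j.1.2) j.2).mono hU hV) hx
          choose E' hE1 hE2 using hel
          refine ⟨(univ.biUnion E') ∪ G, ?_, fun y hy hxy hviol => ?_⟩
          · refine (card_union_le _ _).trans (Nat.add_le_add ?_ h3)
            refine (card_biUnion_le_card_mul _ _ r fun j _ => hE1 j).trans ?_
            rw [card_univ, Fintype.card_prod, Fintype.card_coe, Fintype.card_fin, mul_assoc]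
            exact Nat.mul_le_mul_right _ h1
          · obtain ⟨-, -, hxy'⟩ := hlt x y hxy
            rcases h4 (mix (inS A) x.1 y.1) ⟨hD _ _ x.2 y.2, (hαβ i x y).2 ⟨_, hxy'⟩⟩
              (viol_iff.2 hviol) with ⟨j, hj, hj'⟩ | ⟨e, he, he'⟩
            · obtain ⟨t, ht⟩ := (hαβ j x y).1 hj'
              obtain ⟨e, he, he'⟩ := hE2 (⟨j, hj⟩, t) y hy ht
              exact ⟨e, mem_union_left _ (mem_biUnion.2 ⟨(⟨j, hj⟩, t), mem_univ _, he⟩), he'⟩
            · exact ⟨e, mem_union_right _ he, hcl _ _ x.2 y.2 e he'⟩)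
    obtain ⟨BU1, BV1, f1, f2, f3, f4, f5⟩ := hfam
    rw [card_univ, Fintype.card_prod, Fintype.card_prod, Fintype.card_fin, Fintype.card_bool,
      Fintype.card_fin, mul_comm n 2] at f3 f4
    obtain ⟨M, G, h1, h2, h3, h4⟩ := follows_idx hσ2
    obtain ⟨BU', BV', g1, g2, g3, g4, g5⟩ := app_family (univ : Finset (Fin k0))
      (S := fun x : {x // P x} => hitS A B v f x0 B x.1)
      (T := fun y : {y // Q y} => hitS A B v f x0 A y.1) (r := r) (s := r)
      (α := α i) (β := β i)
      (dU := (kk * r) ^ r * 2 ^ (B.card - v * r)) (dV := r ^ r * 2 ^ (A.card - v * r))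
      (BU := BU1) (BV := BV1)
      (fun t _ BU' BV' hU hV => line_cover (ι := Fin n × Bool) (kk := kk)
        (a := fun c x => if pX c x.1 then α i t x else ⊥)
        (b := fun c y => if pY c y.1 then β i t y else ⊤) hf hr hvrA hvrB hP hQ hcl hαβ h1 h3
        (fun j hj t => (hap j (h2 j hj) t).mono (f1.trans hU) (f2.trans hV))
        (by rw [Fintype.card_prod, Fintype.card_fin, Fintype.card_bool]; omega)
        (fun c => (f5 (c, t) (mem_univ _)).mono hU hV)
        (fun x y hxy => by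
          have hxyL := (hαβ i x y).2 ⟨t, hxy⟩
          by_cases hsat : σ.app (mix (inS A) x.1 y.1) ≠ mix (inS A) x.1 y.1
          · right
            right
            obtain ⟨u, hu⟩ : ∃ u, σ.app (mix (inS A) x.1 y.1) u ≠ mix (inS A) x.1 y.1 u := by
              by_contra hno
              push Not at hno
              exact hsat (funext hno)
            refine ⟨(u, mix (inS A) x.1 y.1 u), ?_⟩
            have h5 := (hp (u, mix (inS A) x.1 y.1 u) x.1 y.1).1 ⟨rfl, by
              revert hu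
              cases σ.app (mix (inS A) x.1 y.1) u <;> cases mix (inS A) x.1 y.1 u <;> simp⟩
            rw [if_pos h5.1, if_pos h5.2]
            exact hxy
          · rcases h4 _ ⟨hD _ _ x.2 y.2, hxyL⟩ hsat with h | h
            · exact Or.inl h
            · exact Or.inr (Or.inl h)))
    rw [card_univ, Fintype.card_fin] at g3 g4
    exact ⟨BU', BV', f1.trans g1, f2.trans g2, by omega, by omega, fun t => g5 t (mem_univ t)⟩

/-- The input `x` agrees with `x0` outside `Z`, and its literals in `Z` falsify no clause with few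
variables in `Z'`, except for those that are true by `x0`. -/
def Adm (A B : Finset (Fin n)) (v : ℕ) (f : ClauseList n m w) (x0 : Fin n → Bool)
    (Z Z' : Finset (Fin n)) (x : Fin n → Bool) : Prop :=
  (∀ u, u ∉ Z → x u = x0 u) ∧ ∀ i, (posn (inS Z') true (f i)).card < 2 * v →
    FalseOn (inS Z) true (f i) x → SatR A B x0 (f i)

theorem adm_clause (hAB : Disjoint A B) {x y : Fin n → Bool} (hx : Adm A B v f x0 B A x)
    (hy : Adm A B v f x0 A B y) {i : Fin m}
    (h : ¬ Holds (mix (inS A) x y) (univ.image fun e => ((f i).1 e, (f i).2 e))) :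
    i ∈ hitS A B v f x0 B x ∧ i ∈ hitS A B v f x0 A y := by
  classical
  have h1 : ∀ e, mix (inS A) x y ((f i).1 e) ≠ (f i).2 e := by
    intro e he
    exact h ⟨((f i).1 e, (f i).2 e), mem_image_of_mem _ (mem_univ _), he⟩
  have hm1 : ∀ u, u ∉ A → mix (inS A) x y u = x u := by
    intro u hu
    unfold mix
    rw [if_neg fun h => hu (inS_true.1 h)]
  have hm2 : ∀ u, u ∈ A → mix (inS A) x y u = y u := by
    intro u hu
    unfold mix
    rw [if_pos (inS_true.2 hu)]
  have hns : ¬ SatR A B x0 (f i) := by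
    rintro ⟨p, hp1, hp2, hp3⟩
    refine h1 p ?_
    rw [hm1 _ hp1, hx.1 _ hp2]
    exact hp3
  have h3 : FalseOn (inS A) true (f i) y := by
    intro e he
    have := h1 e
    rwa [hm2 _ (inS_true.1 he)] at this
  have h2 : FalseOn (inS B) true (f i) x := by
    intro e he
    have := h1 e
    rwa [hm1 _ (disjoint_right.1 hAB (inS_true.1 he))] at this
  have h4 : 2 * v ≤ (posn (inS A) true (f i)).card := by
    by_contra hcon
    exact hns (hx.2 i (by omega) h2)
  have h5 : 2 * v ≤ (posn (inS B) true (f i)).card := by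
    by_contra hcon
    exact hns (hy.2 i (by omega) h3)
  exact ⟨mem_hitS.2 ⟨h5, h2, hns⟩, mem_hitS.2 ⟨h4, h3, hns⟩⟩

theorem card_cyl_compl (Z : Finset (Fin n)) (b : Fin n → Bool) :
    (cyl Zᶜ b).card = 2 ^ Z.card := by
  have h1 := card_cyl Zᶜ b
  have hZ : Z.card ≤ n := by
    have := card_le_univ Z
    rwa [Fintype.card_fin] at this
  rw [card_compl, Fintype.card_fin] at h1
  have h2 : 2 ^ n = 2 ^ Z.card * 2 ^ (n - Z.card) := by
    rw [← pow_add]
    congr 1
    omega
  rw [h2] at h1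
  exact Nat.eq_of_mul_eq_mul_right (by positivity) h1

open scoped Classical in
/-- Assignments that falsify the literals of a clause in `Z`. -/
theorem card_false (Z : Finset (Fin n)) (c : (Fin w ↪ Fin n) × (Fin w → Bool)) :
    (univ.filter fun x => FalseOn (inS Z) true c x).card * 2 ^ (posn (inS Z) true c).card ≤
      2 ^ n := by
  rcases (univ.filter fun x => FalseOn (inS Z) true c x).eq_empty_or_nonempty with h0 | ⟨x1, hx1⟩
  · rw [h0, card_empty, zero_mul]
    exact Nat.zero_le _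
  · have h1 : (univ.filter fun x => FalseOn (inS Z) true c x) ⊆
        cyl (svar (inS Z) true c) x1 := by
      intro x hx
      rw [mem_cyl]
      intro u hu
      exact false_eq (mem_filter.1 hx).2 (mem_filter.1 hx1).2 hu
    rw [← card_svar, ← card_cyl (svar (inS Z) true c) x1]
    exact Nat.mul_le_mul_right _ (card_le_card h1)

/-- The assignment falsifies the literals outside `Z'` of a clause with few variables in `Z'`. -/
def BadP (f : ClauseList n m w) (v : ℕ) (Z' : Finset (Fin n)) (x : Fin n → Bool) : Prop :=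
  ∃ i, (posn (inS Z') true (f i)).card < 2 * v ∧ FalseOn (inS Z'ᶜ) true (f i) x

open scoped Classical in
theorem card_badP (hf : Good f v r v2 r2 t0 m0 N D) {Z' : Finset (Fin n)}
    (hZ' : n ≤ D * Z'.card) : 8 * (univ.filter fun x => BadP f v Z' x).card ≤ 2 ^ n := by
  obtain ⟨I, hI⟩ : ∃ I : Finset (Fin m), I = univ.filter fun i =>
      (posn (inS Z') true (f i)).card < 2 * v := ⟨_, rfl⟩
  have h1 : (univ.filter fun x => BadP f v Z' x) ⊆ I.biUnion fun i =>
      univ.filter fun x => FalseOn (inS Z'ᶜ) true (f i) x := by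
    intro x hx
    obtain ⟨i, h1, h2⟩ := (mem_filter.1 hx).2
    refine mem_biUnion.2 ⟨i, ?_, mem_filter.2 ⟨mem_univ _, h2⟩⟩
    rw [hI]
    exact mem_filter.2 ⟨mem_univ _, h1⟩
  have h2 : ∀ i ∈ I, (univ.filter fun x => FalseOn (inS Z'ᶜ) true (f i) x).card *
      2 ^ (w - 2 * v) ≤ 2 ^ n := by
    intro i hi
    rw [hI, mem_filter] at hi
    refine le_trans (Nat.mul_le_mul_left _ (Nat.pow_le_pow_right (by norm_num) ?_))
      (card_false Z'ᶜ (f i))
    have h3 : (posn (inS Z') true (f i)).card + (posn (inS Z'ᶜ) true (f i)).card = w := by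
      unfold posn
      have h3 := card_filter_add_card_filter_not (s := (univ : Finset (Fin w)))
        (fun e => inS Z' ((f i).1 e) = true)
      rw [card_univ, Fintype.card_fin] at h3
      have h4 : ∀ e, (¬ inS Z' ((f i).1 e) = true) ↔ inS Z'ᶜ ((f i).1 e) = true := by
        intro e
        rw [inS_true, inS_true, mem_compl]
      simp only [h4] at h3
      exact h3
    omega
  have h3 := hf.poor Z' hZ'
  have h3' : 8 * I.card ≤ 2 ^ (w - 2 * v) := by
    rw [hI]
    exact h3
  have h4 : (univ.filter fun x => BadP f v Z' x).card * 2 ^ (w - 2 * v) ≤ I.card * 2 ^ n := by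
    calc (univ.filter fun x => BadP f v Z' x).card * 2 ^ (w - 2 * v)
        ≤ (∑ i ∈ I, (univ.filter fun x => FalseOn (inS Z'ᶜ) true (f i) x).card) *
          2 ^ (w - 2 * v) := Nat.mul_le_mul_right _ ((card_le_card h1).trans card_biUnion_le)
      _ = ∑ i ∈ I, (univ.filter fun x => FalseOn (inS Z'ᶜ) true (f i) x).card *
          2 ^ (w - 2 * v) := sum_mul _ _ _
      _ ≤ I.card * 2 ^ n := by
          rw [← smul_eq_mul]
          exact sum_le_card_nsmul _ _ _ h2
  have h5 : 2 ^ (w - 2 * v) * (8 * (univ.filter fun x => BadP f v Z' x).card) ≤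
      2 ^ (w - 2 * v) * 2 ^ n := by
    calc 2 ^ (w - 2 * v) * (8 * (univ.filter fun x => BadP f v Z' x).card)
        = 8 * ((univ.filter fun x => BadP f v Z' x).card * 2 ^ (w - 2 * v)) := by ring
      _ ≤ 8 * (I.card * 2 ^ n) := Nat.mul_le_mul_left _ h4
      _ = 8 * I.card * 2 ^ n := by ring
      _ ≤ 2 ^ (w - 2 * v) * 2 ^ n := Nat.mul_le_mul_right _ h3'
  exact Nat.le_of_mul_le_mul_left h5 (by positivity)

open scoped Classical in
/-- Double counting over the fixed assignments. -/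
theorem sum_fixed (Z : Finset (Fin n)) (T : (Fin n → Bool) → Prop) :
    ∑ x0 : Fin n → Bool, (univ.filter fun x => (∀ u, u ∉ Z → x u = x0 u) ∧ T x).card =
      (univ.filter fun x => T x).card * 2 ^ Z.card := by
  calc ∑ x0 : Fin n → Bool, (univ.filter fun x => (∀ u, u ∉ Z → x u = x0 u) ∧ T x).card
      = ∑ x0 : Fin n → Bool, ∑ x : Fin n → Bool,
          if (∀ u, u ∉ Z → x u = x0 u) ∧ T x then 1 else 0 := by
        simp only [card_filter]
    _ = ∑ x : Fin n → Bool, ∑ x0 : Fin n → Bool,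
          if (∀ u, u ∉ Z → x u = x0 u) ∧ T x then 1 else 0 := sum_comm
    _ = ∑ x ∈ univ.filter (fun x => T x), 2 ^ Z.card := by
        rw [sum_filter]
        refine sum_congr rfl fun x _ => ?_
        by_cases hx : T x
        · rw [if_pos hx, ← card_cyl_compl Z x]
          rw [← card_filter]
          congr 1
          ext x0
          rw [mem_filter, mem_cyl]
          constructor
          · rintro ⟨-, h, -⟩ u hu
            exact (h u (mem_compl.1 hu)).symm
          · intro h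
            exact ⟨mem_univ _, fun u hu => (h u (mem_compl.2 hu)).symm, hx⟩
        · rw [if_neg hx]
          simp [hx]
    _ = (univ.filter fun x => T x).card * 2 ^ Z.card := by rw [sum_const, smul_eq_mul]

open scoped Classical in
/-- A good assignment of the variables outside `A` and `B`. -/
theorem exists_x0 (hf : Good f v r v2 r2 t0 m0 N D) (hA : n ≤ D * A.card)
    (hB : n ≤ D * B.card) : ∃ x0 : Fin n → Bool,
      4 * (univ.filter fun x => (∀ u, u ∉ A → x u = x0 u) ∧ BadP f v B x).card ≤ 2 ^ A.card ∧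
      4 * (univ.filter fun x => (∀ u, u ∉ B → x u = x0 u) ∧ BadP f v A x).card ≤ 2 ^ B.card := by
  by_contra hcon
  push Not at hcon
  have h1 : ∀ x0 : Fin n → Bool, 2 ^ A.card * 2 ^ B.card <
      4 * ((univ.filter fun x => (∀ u, u ∉ A → x u = x0 u) ∧ BadP f v B x).card * 2 ^ B.card +
      (univ.filter fun x => (∀ u, u ∉ B → x u = x0 u) ∧ BadP f v A x).card * 2 ^ A.card) := by
    intro x0
    by_cases h : 4 * (univ.filter fun x => (∀ u, u ∉ A → x u = x0 u) ∧ BadP f v B x).card ≤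
        2 ^ A.card
    · refine lt_of_lt_of_le (Nat.mul_lt_mul_of_pos_left (hcon x0 h)
        (show 0 < 2 ^ A.card by positivity)) (le_trans (le_of_eq (by ring))
        (Nat.mul_le_mul_left 4 (Nat.le_add_left _ _)))
    · push Not at h
      refine lt_of_lt_of_le (Nat.mul_lt_mul_of_pos_right h (show 0 < 2 ^ B.card by positivity))
        (le_trans (le_of_eq (by ring)) (Nat.mul_le_mul_left 4 (Nat.le_add_right _ _)))
  have h2 := sum_lt_sum_of_nonempty (s := (univ : Finset (Fin n → Bool))) univ_nonempty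
    fun x0 _ => h1 x0
  rw [sum_const, card_univ, Fintype.card_fun, Fintype.card_fin, Fintype.card_bool, smul_eq_mul,
    ← mul_sum, sum_add_distrib, ← sum_mul, ← sum_mul, sum_fixed, sum_fixed] at h2
  have h3 := card_badP hf hB
  have h4 := card_badP hf hA
  have h5 : 2 ^ A.card * 2 ^ B.card * (4 * ((univ.filter fun x => BadP f v B x).card +
      (univ.filter fun x => BadP f v A x).card)) ≤ 2 ^ A.card * 2 ^ B.card * 2 ^ n :=
    Nat.mul_le_mul_left _ (by omega)
  nlinarith

open scoped Classical in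
/-- Half of the inputs are admissible. -/
theorem card_adm {Z Z' : Finset (Fin n)} (hS : ∀ u, u ∉ Z → u ∉ Z' → u ∉ A ∧ u ∉ B)
    (h : 4 * (univ.filter fun x => (∀ u, u ∉ Z → x u = x0 u) ∧ BadP f v Z' x).card ≤
      2 ^ Z.card) : 2 ^ Z.card ≤ 2 * Fintype.card {x // Adm A B v f x0 Z Z' x} := by
  have h1 : cyl Zᶜ x0 ⊆ (univ.filter fun x => Adm A B v f x0 Z Z' x) ∪
      (univ.filter fun x => (∀ u, u ∉ Z → x u = x0 u) ∧ BadP f v Z' x) := by
    intro x hx
    rw [mem_cyl] at hx
    have hx' : ∀ u, u ∉ Z → x u = x0 u := fun u hu => hx u (mem_compl.2 hu)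
    by_cases hadm : Adm A B v f x0 Z Z' x
    · exact mem_union_left _ (mem_filter.2 ⟨mem_univ _, hadm⟩)
    · refine mem_union_right _ (mem_filter.2 ⟨mem_univ _, hx', ?_⟩)
      unfold Adm at hadm
      rw [not_and] at hadm
      have h2 := hadm hx'
      push Not at h2
      obtain ⟨i, h3, h4, h5⟩ := h2
      refine ⟨i, h3, fun p hp hxp => ?_⟩
      have hp' : (f i).1 p ∉ Z' := mem_compl.1 (inS_true.1 hp)
      by_cases hpZ : (f i).1 p ∈ Z
      · exact h4 p (inS_true.2 hpZ) hxp
      · obtain ⟨g1, g2⟩ := hS _ hpZ hp'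
        exact h5 ⟨p, g1, g2, by rw [← hx' _ hpZ]; exact hxp⟩
  have h2 := (card_le_card h1).trans (card_union_le _ _)
  rw [card_cyl_compl] at h2
  rw [Fintype.card_subtype]
  omega

open scoped Classical in
/-- The lower bound in terms of the parameters. -/
theorem rp_core (hf : Good f v r v2 r2 t0 m0 N D) {q z h k S vo kk : ℕ} (hq : 0 < q)
    (hr : 1 < r) (hvrA : v * r ≤ A.card) (hvrB : v * r ≤ B.card) (hzA : z ≤ A.card)
    (hAB : Disjoint A B) (hA : n ≤ D * A.card) (hB : n ≤ D * B.card)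
    (hJ : q * z ≤ v2 * r2) (hqh : 2 * w ≤ q * h)
    (hvo : vo + 2 * v2 + 2 * v2 ≤ 2 * v) (hnum : (k * (k * r) + k) * 2 ^ h * N < 2 ^ vo)
    (hkk : 2 * n + k * k + k ≤ kk) (hz : (m + 1) ^ r * 2 ^ (A.card - z) ≤ 2 ^ (A.card - v * r))
    (hSU : 4 * ((S + 1) * (2 * n * k * (r2 + t0) ^ r + k * (kk * r) ^ r)) < 2 ^ (v * r))
    (hSV : 4 * ((S + 1) * (2 * n * k * (r ^ r + 1) + k * r ^ r)) < 2 ^ (v * r))
    (hk : 0 < k) (hrv : 4 * r < 2 ^ v) {L : Fin S → (Fin n → Bool) → Prop}
    (href' : IsRefutation k (toCNF f) (A : Set (Fin n)) B L) : False := by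
  obtain ⟨x0, hx1, hx2⟩ := exists_x0 hf hA hB
  have href := refOn_of href' x0
  obtain ⟨P, hP⟩ : ∃ P : (Fin n → Bool) → Prop, P = Adm A B v f x0 B A := ⟨_, rfl⟩
  obtain ⟨Q, hQ⟩ : ∃ Q : (Fin n → Bool) → Prop, Q = Adm A B v f x0 A B := ⟨_, rfl⟩
  have hPA : ∀ x, P x → Adm A B v f x0 B A x := fun x h => by
    rw [hP] at h
    exact h
  have hQA : ∀ x, Q x → Adm A B v f x0 A B x := fun x h => by
    rw [hQ] at h
    exact h
  have hP1 : ∀ x, P x → ∀ u, u ∉ B → x u = x0 u := fun x h => (hPA x h).1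
  have hQ1 : ∀ x, Q x → ∀ u, u ∉ A → x u = x0 u := fun x h => (hQA x h).1
  have hcardP : 2 ^ B.card ≤ 2 * Fintype.card {x // P x} := by
    rw [hP]
    exact card_adm (fun u h1 h2 => ⟨h2, h1⟩) hx2
  have hcardQ : 2 ^ A.card ≤ 2 * Fintype.card {x // Q x} := by
    rw [hQ]
    exact card_adm (fun u h1 h2 => ⟨h1, h2⟩) hx1
  have hcl : ∀ x y, P x → Q y → ∀ i : Fin m,
      ¬ Holds (mix (inS A) x y) (univ.image fun p => ((f i).1 p, (f i).2 p)) →
        i ∈ hitS A B v f x0 B x ∧ i ∈ hitS A B v f x0 A y :=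
    fun x y hx hy i h => adm_clause hAB (hPA x hx) (hQA y hy) h
  have hD : ∀ x y, P x → Q y → ∀ u, u ∉ (A : Set (Fin n)) → u ∉ (B : Set (Fin n)) →
      mix (inS A) x y u = x0 u := by
    intro x y hx hy u huA huB
    have huA' : u ∉ A := by simpa using huA
    have huB' : u ∉ B := by simpa using huB
    rw [mix_off hP1 hQ1 hx hy huB']
    exact hQ1 y hy u huA'
  choose α β hαβ using fun i => exists_tri (P := P) (Q := Q) hP1 hQ1 (href'.1 i)
  obtain ⟨c1, hc1⟩ : ∃ c1, c1 = 2 * n * k * ((r2 + t0) ^ r * 2 ^ (B.card - v * r)) +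
        k * ((kk * r) ^ r * 2 ^ (B.card - v * r)) := ⟨_, rfl⟩
  obtain ⟨c2, hc2⟩ : ∃ c2, c2 = 2 * n * k * (r ^ r * 2 ^ (A.card - v * r) +
        (m + 1) ^ r * 2 ^ (A.card - z)) + k * (r ^ r * 2 ^ (A.card - v * r)) := ⟨_, rfl⟩
  have main : ∀ N' : ℕ, N' ≤ S → ∃ (BU : Finset {x // P x})
      (BV : Finset {y // Q y}), BU.card ≤ N' * c1 ∧ BV.card ≤ N' * c2 ∧
        ∀ i : Fin S, (i : ℕ) < N' → ∀ t, App (fun x => hitS A B v f x0 B x.1)
          (fun y => hitS A B v f x0 A y.1) r r BU BV (α i t) (β i t) := by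
    intro N'
    induction N' with
    | zero =>
      intro _
      exact ⟨∅, ∅, by simp, by simp, fun i hi => absurd hi (by omega)⟩
    | succ N' ih =>
      intro hN'
      obtain ⟨BU, BV, h1, h2, h3⟩ := ih (by omega)
      obtain ⟨i, hi⟩ : ∃ i : Fin S, (i : ℕ) = N' := ⟨⟨N', by omega⟩, rfl⟩
      obtain ⟨BU', BV', g1, g2, g3, g4, g5⟩ := line_step hf hq hr hvrA hvrB hzA hJ hqh hvo hnum
        hkk hP1 hQ1 hcl hD hαβ href i (BU := BU) (BV := BV)
        (fun j hj => h3 j (by rw [Fin.lt_def] at hj; omega))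
      refine ⟨BU', BV', ?_, ?_, fun j hj => ?_⟩
      · rw [← hc1] at g3
        rw [add_mul, one_mul]
        omega
      · rw [← hc2] at g4
        rw [add_mul, one_mul]
        omega
      · rcases Nat.lt_succ_iff_lt_or_eq.1 hj with hj | hj
        · exact fun t => (h3 j hj t).mono g1 g2
        · have : j = i := Fin.ext (by rw [hj, hi])
          rw [this]
          exact g5
  obtain ⟨BU, BV, h1, h2, h3⟩ := main S le_rfl
  obtain ⟨i0, hi0⟩ := href.1
  obtain ⟨BU', BV', g1, g2, g3, g4, g5⟩ := app_combine (α := fun _ => (1 : EReal))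
    (β := fun _ => (0 : EReal)) (ι := Fin k) (k := k) (CU := 2 ^ (B.card - v * r))
    (CV := 2 ^ (A.card - v * r)) (by rw [Fintype.card_fin])
    (by omega : 0 < r) (by omega : 0 < r)
    (fun M hM => hit_count_sub hf.spread hvrB hP1 le_rfl hM)
    (fun M hM => hit_count_sub hf.spread hvrA hQ1 le_rfl hM)
    (a := α i0) (b := β i0)
    (fun t => h3 i0 i0.2 t)
    (fun x y _ => (hαβ i0 x y).1 (hi0 _))
  have e1 : 2 ^ B.card = 2 ^ (B.card - v * r) * 2 ^ (v * r) := by
    rw [← pow_add]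
    congr 1
    omega
  have e2 : 2 ^ A.card = 2 ^ (A.card - v * r) * 2 ^ (v * r) := by
    rw [← pow_add]
    congr 1
    omega
  have hvB : v ≤ B.card := le_trans (Nat.le_mul_of_pos_right _ (by omega)) hvrB
  have e3 : 2 ^ B.card = 2 ^ (B.card - v) * 2 ^ v := by
    rw [← pow_add]
    congr 1
    omega
  have hc1' : c1 = 2 ^ (B.card - v * r) * (2 * n * k * (r2 + t0) ^ r + k * (kk * r) ^ r) := by
    rw [hc1]
    ring
  have hc2' : c2 ≤ 2 ^ (A.card - v * r) * (2 * n * k * (r ^ r + 1) + k * r ^ r) := by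
    rw [hc2]
    calc 2 * n * k * (r ^ r * 2 ^ (A.card - v * r) + (m + 1) ^ r * 2 ^ (A.card - z)) +
          k * (r ^ r * 2 ^ (A.card - v * r))
        ≤ 2 * n * k * (r ^ r * 2 ^ (A.card - v * r) + 2 ^ (A.card - v * r)) +
          k * (r ^ r * 2 ^ (A.card - v * r)) := by
          gcongr
      _ = 2 ^ (A.card - v * r) * (2 * n * k * (r ^ r + 1) + k * r ^ r) := by ring
  have hkr : r ^ r ≤ k * r ^ r := Nat.le_mul_of_pos_left _ hk
  have hBV : BV'.card < Fintype.card {y // Q y} := by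
    have k1 : BV'.card ≤
        2 ^ (A.card - v * r) * ((S + 1) * (2 * n * k * (r ^ r + 1) + k * r ^ r)) := by
      calc BV'.card ≤ BV.card + r ^ r * 2 ^ (A.card - v * r) := g4
        _ ≤ S * (2 ^ (A.card - v * r) * (2 * n * k * (r ^ r + 1) + k * r ^ r)) +
            r ^ r * 2 ^ (A.card - v * r) :=
            Nat.add_le_add_right (h2.trans (Nat.mul_le_mul_left _ hc2')) _
        _ ≤ S * (2 ^ (A.card - v * r) * (2 * n * k * (r ^ r + 1) + k * r ^ r)) +
            (2 * n * k * (r ^ r + 1) + k * r ^ r) * 2 ^ (A.card - v * r) :=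
            Nat.add_le_add_left (Nat.mul_le_mul_right _ (by omega)) _
        _ = 2 ^ (A.card - v * r) * ((S + 1) * (2 * n * k * (r ^ r + 1) + k * r ^ r)) := by ring
    have k2 : 4 * BV'.card < 2 ^ A.card := by
      rw [e2]
      calc 4 * BV'.card ≤
            4 * (2 ^ (A.card - v * r) * ((S + 1) * (2 * n * k * (r ^ r + 1) + k * r ^ r))) :=
            Nat.mul_le_mul_left _ k1
        _ = 2 ^ (A.card - v * r) *
            (4 * ((S + 1) * (2 * n * k * (r ^ r + 1) + k * r ^ r))) := by ring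
        _ < 2 ^ (A.card - v * r) * 2 ^ (v * r) := Nat.mul_lt_mul_of_pos_left hSV (by positivity)
    omega
  have h5 := app_full' (c := 2 ^ (B.card - v)) (fun y e _ => by
      have k1 := hit_count_sub (A := A) (B := B) (f := f) hf.spread hvrB hP1 (M := {e}) (t := 1)
        (by omega) (card_singleton e)
      rw [mul_one] at k1
      simp only [singleton_subset_iff] at k1
      exact k1) g5 hBV
  have k1 : BU'.card ≤
      2 ^ (B.card - v * r) * ((S + 1) * (2 * n * k * (r2 + t0) ^ r + k * (kk * r) ^ r)) := by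
    have hlast : (k * r) ^ r ≤ k * (kk * r) ^ r := by
      have hkkk : k ≤ kk := by
        have : k * k ≤ kk := by omega
        exact le_trans (Nat.le_mul_of_pos_left _ hk) this
      exact le_trans (Nat.pow_le_pow_left (Nat.mul_le_mul_right _ hkkk) _)
        (Nat.le_mul_of_pos_left _ hk)
    calc BU'.card ≤ BU.card + (k * r) ^ r * 2 ^ (B.card - v * r) := g3
      _ ≤ S * (2 ^ (B.card - v * r) * (2 * n * k * (r2 + t0) ^ r + k * (kk * r) ^ r)) +
          (k * r) ^ r * 2 ^ (B.card - v * r) := by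
          rw [← hc1']
          exact Nat.add_le_add_right h1 _
      _ ≤ S * (2 ^ (B.card - v * r) * (2 * n * k * (r2 + t0) ^ r + k * (kk * r) ^ r)) +
          (2 * n * k * (r2 + t0) ^ r + k * (kk * r) ^ r) * 2 ^ (B.card - v * r) :=
          Nat.add_le_add_left (Nat.mul_le_mul_right _ (by omega)) _
      _ = 2 ^ (B.card - v * r) * ((S + 1) * (2 * n * k * (r2 + t0) ^ r + k * (kk * r) ^ r)) := by
          ring
  have k2 : 4 * BU'.card < 2 ^ B.card := by
    rw [e1]
    calc 4 * BU'.card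
        ≤ 4 * (2 ^ (B.card - v * r) *
            ((S + 1) * (2 * n * k * (r2 + t0) ^ r + k * (kk * r) ^ r))) :=
          Nat.mul_le_mul_left _ k1
      _ = 2 ^ (B.card - v * r) *
          (4 * ((S + 1) * (2 * n * k * (r2 + t0) ^ r + k * (kk * r) ^ r))) := by ring
      _ < 2 ^ (B.card - v * r) * 2 ^ (v * r) := Nat.mul_lt_mul_of_pos_left hSU (by positivity)
  have k3 : 4 * (r * 2 ^ (B.card - v)) < 2 ^ B.card := by
    rw [e3]
    calc 4 * (r * 2 ^ (B.card - v)) = 2 ^ (B.card - v) * (4 * r) := by ring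
      _ < 2 ^ (B.card - v) * 2 ^ v := Nat.mul_lt_mul_of_pos_left hrv (by positivity)
  omega

end Pool.Agent.MP_9cec2c_lc.Redun
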