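import Pool.Agent.Lib.MP_9cec2c_lc.RPProb
import Pool.Agent.Lib.MP_9cec2c_lc.RPMain

/-!
The lower bound for random CNFs, for refutations with the redundance and dominance rules.
-/

set_option autoImplicit false
set_option linter.unusedSectionVars false

namespace Pool.Agent.MP_9cec2c_lc.Redun

open Finset
open Pool.Agent.MP_9cec2c_lc.SubstRed
open Pool.Agent.MP_9cec2c_lc.FormulaLines
open Pool.Agent.MP_9cec2c_lc.LovSch (ClauseList toCNF Spread Clause Holds posn nonempty_emb pr_sat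
  pr_not_spread)

variable {n m w : ℕ}

/-- The deterministic part of the lower bound. -/
theorem rp_det {D Ac K k v v2 h r r2 t0 m0 : ℕ} (hD : 0 < D) (hAc : 3 * 8388608 * D ^ 4 ≤ Ac)
    (hK : K = 1024 * (Ac * D))
    (hn : K ≤ n) (hk : n ≤ k) (hw : k ^ K ≤ 2 ^ w) (hwK' : K ≤ w) (hwn : K * w ≤ n)
    (hm : m ≤ 3 ^ w) (hv : v = w / (64 * D ^ 2)) (hv2 : v2 = v / 4) (hh : h = v / 4)
    (hr : r = n / (Ac * v)) (hr2 : r2 = 8388608 * (D ^ 4 * r)) (ht0 : t0 = n / 2)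
    {f : ClauseList n m w} (hf : Good f v r v2 r2 t0 m0 (n ^ 4) D)
    (A B : Finset (Fin n)) (S : ℕ) (L : Fin S → (Fin n → Bool) → Prop) (hAB : Disjoint A B)
    (hA : n ≤ D * A.card) (hB : n ≤ D * B.card) (href : IsRefutation k (toCNF f) A B L) :
    2 ^ (n / K) ≤ S := by
  by_contra hcon
  push Not at hcon
  have hD2 : 0 < D ^ 2 := by positivity
  have hD24 : D ^ 2 ≤ D ^ 4 := Nat.pow_le_pow_right hD (by norm_num)
  have hD14 : D ≤ D ^ 4 := by
    calc D = D ^ 1 := (pow_one D).symm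
      _ ≤ D ^ 4 := Nat.pow_le_pow_right hD (by norm_num)
  have hD3 : 1 ≤ D ^ 4 := Nat.one_le_pow _ _ hD
  have hAcD : Ac ≤ Ac * D := Nat.le_mul_of_pos_right _ hD
  have hk3 : 1024 ≤ k := by omega
  have hw64 : 1024 * D ^ 2 ≤ w := by omega
  have hv16 : 16 ≤ v := by
    rw [hv, Nat.le_div_iff_mul_le (by positivity)]
    omega
  have hwv : w ≤ 128 * (D ^ 2 * v) := by
    have h1 := Nat.div_add_mod w (64 * D ^ 2)
    have h2 := Nat.mod_lt w (show 0 < 64 * D ^ 2 by positivity)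
    rw [← hv] at h1
    have h3 : 64 * D ^ 2 * v = 64 * (D ^ 2 * v) := by ring
    have h4 : D ^ 2 ≤ D ^ 2 * v := Nat.le_mul_of_pos_right _ (by omega)
    omega
  have hvw : v ≤ w := by
    rw [hv]
    exact Nat.div_le_self _ _
  have hv28 : v ≤ 8 * v2 := by omega
  have hh8 : v ≤ 8 * h := by omega
  have hAv : Ac * v * (1024 * D) ≤ n := by
    calc Ac * v * (1024 * D) = K * v := by rw [hK]; ring
      _ ≤ K * w := Nat.mul_le_mul_left _ hvw
      _ ≤ n := hwn
  have hAv0 : 0 < Ac * v := Nat.mul_pos (by omega) (by omega)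
  have hAv1 : Ac * v * 1024 ≤ n := le_trans (Nat.mul_le_mul_left _ (by omega)) hAv
  have hr1 : 1 < r := by
    rw [hr]
    have : 2 ≤ n / (Ac * v) := by
      rw [Nat.le_div_iff_mul_le hAv0]
      omega
    omega
  have hmod := Nat.div_add_mod n (Ac * v)
  have hlt := Nat.mod_lt n hAv0
  rw [← hr] at hmod
  have hAvr : Ac * (v * r) ≤ n := by
    have e1 : Ac * v * r = Ac * (v * r) := by ring
    omega
  have hvr2 : n ≤ 2 * (Ac * (v * r)) := by
    have e1 : Ac * v * r = Ac * (v * r) := by ring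
    omega
  have hrk : r ≤ k := le_trans (by rw [hr]; exact Nat.div_le_self _ _) hk
  -- sets of at least `n / D` variables are large
  have hset : ∀ X Z : ℕ, D * X ≤ Ac * (v * r) → n ≤ D * Z → X ≤ Z := by
    intro X Z h1 h2
    exact Nat.le_of_mul_le_mul_left (h1.trans (hAvr.trans h2)) hD
  have hvrAc : D * (v * r) ≤ Ac * (v * r) := Nat.mul_le_mul_right _ (by omega)
  have hz512 : 2 * w * r + v * r ≤ 512 * (D ^ 2 * (v * r)) := by
    have h1 : w * r ≤ 128 * (D ^ 2 * v) * r := Nat.mul_le_mul_right _ hwv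
    have h2 : v * r ≤ D ^ 2 * (v * r) := Nat.le_mul_of_pos_left _ hD2
    calc 2 * w * r + v * r = 2 * (w * r) + v * r := by ring
      _ ≤ 2 * (128 * (D ^ 2 * v) * r) + D ^ 2 * (v * r) := by omega
      _ = 257 * (D ^ 2 * (v * r)) := by ring
      _ ≤ 512 * (D ^ 2 * (v * r)) := Nat.mul_le_mul_right _ (by norm_num)
  have hzn : 2 * w * r + v * r ≤ A.card := by
    refine hset _ _ ?_ hA
    calc D * (2 * w * r + v * r) ≤ D * (512 * (D ^ 2 * (v * r))) := Nat.mul_le_mul_left _ hz512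
      _ = 512 * D ^ 3 * (v * r) := by ring
      _ ≤ Ac * (v * r) := by
          refine Nat.mul_le_mul_right _ ?_
          have : D ^ 3 ≤ D ^ 4 := Nat.pow_le_pow_right hD (by norm_num)
          omega
  have hr2n : r2 + t0 ≤ n := by
    have h0 : r ≤ v * r := Nat.le_mul_of_pos_left _ (by omega)
    have h1 : 3 * 8388608 * D ^ 4 * (v * r) ≤ Ac * (v * r) := Nat.mul_le_mul_right _ hAc
    have h2 : D ^ 4 * r ≤ D ^ 4 * (v * r) := Nat.mul_le_mul_left _ h0
    have h3 : 3 * 8388608 * D ^ 4 * (v * r) = 3 * 8388608 * (D ^ 4 * (v * r)) := by ring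
    omega
  -- the size of a block
  have h2v : k ^ 40 ≤ 2 ^ v := by
    have h1 : (k ^ 40) ^ (128 * D ^ 2) ≤ (2 ^ v) ^ (128 * D ^ 2) := by
      rw [← pow_mul, ← pow_mul]
      refine le_trans (Nat.pow_le_pow_right (by omega) (by omega)) (hw.trans
        (Nat.pow_le_pow_right (by norm_num) ?_))
      have : v * (128 * D ^ 2) = 128 * (D ^ 2 * v) := by ring
      omega
    exact (Nat.pow_le_pow_iff_left (by positivity)).1 h1
  have h2v' : k ^ 36 ≤ 2 ^ v := le_trans (Nat.pow_le_pow_right (by omega) (by norm_num)) h2v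
  have h2v8 : k ^ 16 ≤ 2 ^ v := le_trans (Nat.pow_le_pow_right (by omega) (by norm_num)) h2v
  obtain ⟨q, hq⟩ : ∃ q, q = n / K := ⟨_, rfl⟩
  have hKq : K * q ≤ n := by
    rw [hq]
    exact Nat.mul_div_le n K
  rw [← hq] at hcon
  have hAc0 : 0 < Ac := by omega
  have hq1 : 512 * q ≤ v * r := by
    have e1 : Ac * (1024 * (D * q)) ≤ Ac * (2 * (v * r)) := by
      calc Ac * (1024 * (D * q)) = K * q := by rw [hK]; ring
        _ ≤ n := hKq
        _ ≤ 2 * (Ac * (v * r)) := hvr2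
        _ = Ac * (2 * (v * r)) := by ring
    have e2 := Nat.le_of_mul_le_mul_left e1 hAc0
    have e3 : q ≤ D * q := Nat.le_mul_of_pos_left _ hD
    omega
  have hq2 : 512 ≤ v * r := by
    have e1 : Ac * (1024 * D) ≤ Ac * (2 * (v * r)) := by
      calc Ac * (1024 * D) = K := by rw [hK]; ring
        _ ≤ n := hn
        _ ≤ 2 * (Ac * (v * r)) := hvr2
        _ = Ac * (2 * (v * r)) := by ring
    have := Nat.le_of_mul_le_mul_left e1 hAc0
    omega
  -- a bound for the two sums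
  have hsum : ∀ X : ℕ, X ≤ k ^ (8 * r) → 4 * ((S + 1) * X) < 2 ^ (v * r) := by
    intro X hX
    have hle : 4 * ((S + 1) * X) ≤ 2 ^ (q + 2) * k ^ (8 * r) := by
      calc 4 * ((S + 1) * X) ≤ 4 * (2 ^ q * k ^ (8 * r)) :=
            Nat.mul_le_mul_left _ (Nat.mul_le_mul (by omega) hX)
        _ = 2 ^ (q + 2) * k ^ (8 * r) := by
            rw [pow_add 2 q 2]
            ring
    refine lt_of_le_of_lt hle ?_
    have hsq : (2 ^ (q + 2) * k ^ (8 * r)) ^ 2 < (2 ^ (v * r)) ^ 2 := by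
      calc (2 ^ (q + 2) * k ^ (8 * r)) ^ 2
          = 2 ^ (2 * q + 4) * (k ^ 16) ^ r := by
            rw [mul_pow, ← pow_mul, ← pow_mul, ← pow_mul]
            congr 2 <;> ring
        _ ≤ 2 ^ (2 * q + 4) * (2 ^ v) ^ r := by gcongr
        _ = 2 ^ (2 * q + 4) * 2 ^ (v * r) := by rw [← pow_mul]
        _ < 2 ^ (v * r) * 2 ^ (v * r) := by
            refine Nat.mul_lt_mul_of_pos_right ?_ (by positivity)
            exact Nat.pow_lt_pow_right (by norm_num) (by omega)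
        _ = (2 ^ (v * r)) ^ 2 := by ring
    exact lt_of_pow_lt_pow_left₀ 2 (by positivity) hsq
  have hkk1 : k ≤ k * k := Nat.le_mul_of_pos_left _ (by omega)
  refine rp_core (q := 2048 * D ^ 2) (z := 2 * w * r + v * r) (h := h) (k := k) (vo := v)
    (kk := 4 * (k * k)) hf (by positivity) hr1 (hset _ _ hvrAc hA) (hset _ _ hvrAc hB) hzn hAB
    hA hB ?_ ?_ (by omega) ?_ (by omega) ?_ ?_ ?_ (by omega) ?_ href
  · calc 2048 * D ^ 2 * (2 * w * r + v * r)
        ≤ 2048 * D ^ 2 * (512 * (D ^ 2 * (v * r))) := Nat.mul_le_mul_left _ hz512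
      _ = 1048576 * D ^ 4 * (v * r) := by ring
      _ ≤ 1048576 * D ^ 4 * (8 * v2 * r) :=
          Nat.mul_le_mul_left _ (Nat.mul_le_mul_right _ hv28)
      _ = v2 * r2 := by rw [hr2]; ring
  · calc 2 * w ≤ 2 * (128 * (D ^ 2 * v)) := Nat.mul_le_mul_left _ hwv
      _ ≤ 2 * (128 * (D ^ 2 * (8 * h))) :=
          Nat.mul_le_mul_left _ (Nat.mul_le_mul_left _ (Nat.mul_le_mul_left _ hh8))
      _ = 2048 * D ^ 2 * h := by ring
  · have h1 : (k * (k * r) + k) * 2 ^ h * n ^ 4 ≤ k ^ 9 * 2 ^ h := by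
      calc (k * (k * r) + k) * 2 ^ h * n ^ 4 ≤ (k * (k * k) + k * (k * k)) * 2 ^ h * k ^ 4 := by
            gcongr
            calc k = k * 1 := (mul_one k).symm
              _ ≤ k * (k * k) := Nat.mul_le_mul_left _ (by omega)
        _ = 2 * (k ^ 7 * 2 ^ h) := by ring
        _ ≤ k * (k ^ 7 * 2 ^ h) := Nat.mul_le_mul_right _ (by omega)
        _ = k ^ 8 * 2 ^ h := by ring
        _ ≤ k ^ 9 * 2 ^ h := Nat.mul_le_mul_right _ (Nat.pow_le_pow_right (by omega) (by norm_num))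
    refine lt_of_le_of_lt h1 ?_
    have h2 : (k ^ 9 * 2 ^ h) ^ 4 < (2 ^ v) ^ 4 := by
      calc (k ^ 9 * 2 ^ h) ^ 4 = k ^ 36 * 2 ^ (4 * h) := by
            rw [mul_pow, ← pow_mul, ← pow_mul, mul_comm h 4]
        _ ≤ 2 ^ v * 2 ^ v := Nat.mul_le_mul h2v' (Nat.pow_le_pow_right (by norm_num) (by omega))
        _ = 2 ^ (v + v) := (pow_add _ _ _).symm
        _ < 2 ^ (v * 4) := Nat.pow_lt_pow_right (by norm_num) (by omega)
        _ = (2 ^ v) ^ 4 := pow_mul _ _ _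
    exact lt_of_pow_lt_pow_left₀ 4 (by positivity) h2
  · have h1 : m + 1 ≤ 2 ^ (2 * w) := by
      have h3 : (3 : ℕ) ^ w + 1 ≤ 4 ^ w := Nat.pow_lt_pow_left (by norm_num) (by omega)
      have h4 : (4 : ℕ) ^ w = 2 ^ (2 * w) := by
        rw [pow_mul]
        norm_num
      omega
    calc (m + 1) ^ r * 2 ^ (A.card - (2 * w * r + v * r))
        ≤ (2 ^ (2 * w)) ^ r * 2 ^ (A.card - (2 * w * r + v * r)) := by gcongr
      _ = 2 ^ (2 * w * r + (A.card - (2 * w * r + v * r))) := by rw [← pow_mul, ← pow_add]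
      _ = 2 ^ (A.card - v * r) := by
          congr 1
          omega
  · refine hsum _ ?_
    have h1 : 2 * n * k * (r2 + t0) ^ r ≤ k ^ (7 * r) := by
      calc 2 * n * k * (r2 + t0) ^ r ≤ k * k * k * k ^ r := by
            refine Nat.mul_le_mul (Nat.mul_le_mul_right _ (Nat.mul_le_mul (by omega) hk)) ?_
            exact Nat.pow_le_pow_left (hr2n.trans hk) _
        _ = k ^ (3 + r) := by ring
        _ ≤ k ^ (7 * r) := Nat.pow_le_pow_right (by omega) (by omega)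
    have h2 : k * (4 * (k * k) * r) ^ r ≤ k ^ (7 * r) := by
      have h3 : (4 * (k * k) * r) ^ r ≤ k ^ (4 * r) := by
        rw [pow_mul]
        refine Nat.pow_le_pow_left ?_ _
        calc 4 * (k * k) * r ≤ k * (k * k) * k :=
              Nat.mul_le_mul (Nat.mul_le_mul_right _ (by omega)) hrk
          _ = k ^ 4 := by ring
      calc k * (4 * (k * k) * r) ^ r ≤ k * k ^ (4 * r) := Nat.mul_le_mul_left _ h3
        _ = k ^ (1 + 4 * r) := by ring
        _ ≤ k ^ (7 * r) := Nat.pow_le_pow_right (by omega) (by omega)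
    calc 2 * n * k * (r2 + t0) ^ r + k * (4 * (k * k) * r) ^ r ≤ k ^ (7 * r) + k ^ (7 * r) :=
          Nat.add_le_add h1 h2
      _ = 2 * k ^ (7 * r) := by ring
      _ ≤ k * k ^ (7 * r) := Nat.mul_le_mul_right _ (by omega)
      _ = k ^ (1 + 7 * r) := by ring
      _ ≤ k ^ (8 * r) := Nat.pow_le_pow_right (by omega) (by omega)
  · refine hsum _ ?_
    have h1 : r ^ r ≤ k ^ r := Nat.pow_le_pow_left hrk _
    have h2 : 1 ≤ k ^ r := Nat.one_le_pow _ _ (by omega)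
    calc 2 * n * k * (r ^ r + 1) + k * r ^ r ≤ 2 * k * k * (k ^ r + k ^ r) + k * k ^ r := by
          gcongr
      _ = (4 * k + 1) * (k * k ^ r) := by ring
      _ ≤ (k * k) * (k * k ^ r) := Nat.mul_le_mul_right _ (by nlinarith)
      _ = k ^ (3 + r) := by ring
      _ ≤ k ^ (8 * r) := Nat.pow_le_pow_right (by omega) (by omega)
  · calc 4 * r ≤ 4 * k := by omega
      _ < k * k := Nat.mul_lt_mul_of_pos_right (by omega) (by omega)
      _ = k ^ 2 := by ring
      _ ≤ k ^ 40 := Nat.pow_le_pow_right (by omega) (by omega)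
      _ ≤ 2 ^ v := h2v

/-- The numbers in the bound for clauses with few variables in a large set. -/
theorem poor_num {D v : ℕ} (hD : 0 < D) (hv : 64 * D ^ 2 * v ≤ w) (hw : 56 * D ≤ w)
    (hm : m ^ (8 * D) ≤ 2 ^ ((8 * D + 1) * w)) :
    96 * (m : ℝ) * ((4 * D) ^ (2 * v) * (1 - 1 / (2 * D)) ^ w) ≤ 2 ^ w := by
  have hD' : (1 : ℝ) ≤ D := by exact_mod_cast hD
  obtain ⟨e, he⟩ : ∃ e : ℝ, e = 1 / (8 * D) := ⟨_, rfl⟩
  have he0 : 0 < e := by
    rw [he]
    positivity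
  have he1 : e ≤ 1 / 8 := by
    rw [he, div_le_div_iff₀ (by positivity) (by norm_num)]
    linarith
  have heD : 8 * D * e = 1 := by
    rw [he]
    field_simp
  have hbern : (2 : ℝ) ≤ (1 + e) ^ (8 * D) := by
    have h1 := one_add_mul_le_pow (a := e) (by linarith) (8 * D)
    push_cast at h1
    linarith
  have hm1 : (m : ℝ) ≤ 2 ^ w * (1 + e) ^ w := by
    have h1 : (m : ℝ) ^ (8 * D) ≤ (2 ^ w * (1 + e) ^ w) ^ (8 * D) := by
      calc (m : ℝ) ^ (8 * D) ≤ 2 ^ ((8 * D + 1) * w) := by exact_mod_cast hm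
        _ = (2 ^ w) ^ (8 * D) * 2 ^ w := by
            rw [← pow_mul, ← pow_add]
            congr 1
            ring
        _ ≤ (2 ^ w) ^ (8 * D) * ((1 + e) ^ (8 * D)) ^ w := by gcongr
        _ = (2 ^ w * (1 + e) ^ w) ^ (8 * D) := by
            rw [mul_pow, ← pow_mul (1 + e), ← pow_mul (1 + e), mul_comm w (8 * D)]
    exact (pow_le_pow_iff_left₀ (by positivity) (by positivity) (by omega)).1 h1
  have h4D : (4 * (D : ℝ)) ^ (2 * v) ≤ (1 + e) ^ w := by
    have h1 : (4 : ℝ) * D ≤ (2 : ℝ) ^ (2 * D) := by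
      have h2 : 4 * D ≤ 2 ^ (2 * D) := by
        have h3 : ∀ d : ℕ, 0 < d → 4 * d ≤ 2 ^ (2 * d) := by
          intro d hd
          induction d with
          | zero => omega
          | succ d ih =>
            rcases Nat.eq_zero_or_pos d with rfl | hd'
            · norm_num
            · have h4 := ih hd'
              have h5 : 2 ^ (2 * (d + 1)) = 4 * 2 ^ (2 * d) := by
                rw [mul_add, pow_add]
                ring
              omega
        exact h3 D hD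
      exact_mod_cast h2
    calc (4 * (D : ℝ)) ^ (2 * v) ≤ ((2 : ℝ) ^ (2 * D)) ^ (2 * v) := by gcongr
      _ = 2 ^ (4 * D * v) := by
          rw [← pow_mul]
          congr 1
          ring
      _ ≤ ((1 + e) ^ (8 * D)) ^ (4 * D * v) := by gcongr
      _ = (1 + e) ^ (32 * D ^ 2 * v) := by
          rw [← pow_mul]
          congr 1
          ring
      _ ≤ (1 + e) ^ w := by
          refine pow_le_pow_right₀ (by linarith) ?_
          have : 32 * D ^ 2 * v ≤ 64 * D ^ 2 * v :=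
            Nat.mul_le_mul_right _ (Nat.mul_le_mul_right _ (by norm_num))
          omega
  have h2D : 1 - 1 / (2 * (D : ℝ)) = 1 - 4 * e := by
    rw [he]
    field_simp
    ring
  have hx : (1 + e) * (1 + e) * (1 - 4 * e) ≤ 1 - e := by nlinarith [mul_pos he0 he0]
  have hsmall : (96 : ℝ) * (1 - e) ^ w ≤ 1 := by
    have h1 : (1 - e) ^ (8 * D) ≤ 1 / 2 := by
      have h2 : (1 - e) ^ (8 * D) * (1 + e) ^ (8 * D) ≤ 1 := by
        rw [← mul_pow]
        exact pow_le_one₀ (by nlinarith) (by nlinarith)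
      have h3 : 0 ≤ (1 - e) ^ (8 * D) := pow_nonneg (by linarith) _
      nlinarith
    have h4 : (1 - e) ^ w ≤ (1 / 2) ^ 7 := by
      calc (1 - e) ^ w ≤ (1 - e) ^ (8 * D * 7) :=
            pow_le_pow_of_le_one (by linarith) (by linarith) (by omega)
        _ = ((1 - e) ^ (8 * D)) ^ 7 := pow_mul _ _ _
        _ ≤ (1 / 2) ^ 7 := pow_le_pow_left₀ (pow_nonneg (by linarith) _) h1 _
    norm_num at h4
    linarith
  have hp : (0 : ℝ) ≤ (1 - 4 * e) ^ w := pow_nonneg (by linarith) _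
  rw [h2D]
  calc 96 * (m : ℝ) * ((4 * D) ^ (2 * v) * (1 - 4 * e) ^ w)
      ≤ 96 * (2 ^ w * (1 + e) ^ w) * ((1 + e) ^ w * (1 - 4 * e) ^ w) := by gcongr
    _ = 2 ^ w * (96 * ((1 + e) * (1 + e) * (1 - 4 * e)) ^ w) := by
        rw [mul_pow, mul_pow]
        ring
    _ ≤ 2 ^ w * (96 * (1 - e) ^ w) := by
        gcongr
        exact mul_nonneg (by positivity) (by linarith)
    _ ≤ 2 ^ w * 1 := by gcongr
    _ = 2 ^ w := mul_one _

/-- The probability that a random CNF is not hard. -/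
theorem pr_not_hard {D Ac E K k : ℕ} (hD : 0 < D) (hAc : Ac = 3 * 8388608 * D ^ 4 * E)
    (hE0 : 1 ≤ E) (hE : ∀ j : ℕ, (24 : ℝ) ^ (1024 * D ^ 2 * j) ≤ (E : ℝ) ^ j)
    (hK : K = 1024 * (Ac * D))
    (hn : K ≤ n) (hk : n ≤ k) (hw : k ^ K ≤ 2 ^ w) (hwK : K ≤ w) (hwn : K * w ≤ n)
    (hm1 : n ^ 3 * 2 ^ w ≤ m) (hm2 : m ^ (8 * D) ≤ 2 ^ ((8 * D + 1) * w)) :
    pr (fun f : ClauseList n m w => ¬ Hard k D (2 ^ (n / K)) (toCNF f)) ≤
      16 * (15 / 16) ^ w := by
  classical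
  have hD4 : 1 ≤ D ^ 4 := Nat.one_le_pow _ _ hD
  have hD2 : 0 < D ^ 2 := by positivity
  have hD24 : D ^ 2 ≤ D ^ 4 := Nat.pow_le_pow_right hD (by norm_num)
  have hD14 : D ≤ D ^ 4 := by
    calc D = D ^ 1 := (pow_one D).symm
      _ ≤ D ^ 4 := Nat.pow_le_pow_right hD (by norm_num)
  have hAc' : 3 * 8388608 * D ^ 4 ≤ Ac := by
    rw [hAc]
    exact Nat.le_mul_of_pos_right _ hE0
  have hAcD : Ac ≤ Ac * D := Nat.le_mul_of_pos_right _ hD
  have hm3 : m ≤ 3 ^ w := by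
    have h1 : m ^ (8 * D) ≤ (3 ^ w) ^ (8 * D) := by
      refine hm2.trans ?_
      have h2 : 2 ^ (8 * D + 1) ≤ 3 ^ (8 * D) := by
        have h3 : ∀ d : ℕ, 2 ≤ d → 2 ^ (d + 1) ≤ 3 ^ d := by
          intro d hd
          induction d with
          | zero => omega
          | succ d ih =>
            rcases Nat.lt_or_ge d 2 with h | h
            · have : d = 1 := by omega
              subst this
              norm_num
            · have := ih h
              calc 2 ^ (d + 1 + 1) = 2 * 2 ^ (d + 1) := by ring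
                _ ≤ 3 * 3 ^ d := Nat.mul_le_mul (by norm_num) this
                _ = 3 ^ (d + 1) := by ring
        exact h3 _ (by omega)
      calc 2 ^ ((8 * D + 1) * w) = (2 ^ (8 * D + 1)) ^ w := pow_mul _ _ _
        _ ≤ (3 ^ (8 * D)) ^ w := Nat.pow_le_pow_left h2 _
        _ = (3 ^ w) ^ (8 * D) := by rw [← pow_mul, ← pow_mul, mul_comm]
    exact (Nat.pow_le_pow_iff_left (by omega)).1 h1
  have hwn' : w ≤ n := le_trans (Nat.le_mul_of_pos_left _ (by omega)) hwn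
  have hne := nonempty_emb hwn'
  have hn0 : 0 < n := by omega
  have hn' : (0 : ℝ) < n := by exact_mod_cast hn0
  obtain ⟨v, hv⟩ : ∃ v, v = w / (64 * D ^ 2) := ⟨_, rfl⟩
  obtain ⟨v2, hv2⟩ : ∃ v2, v2 = v / 4 := ⟨_, rfl⟩
  obtain ⟨r, hr⟩ : ∃ r, r = n / (Ac * v) := ⟨_, rfl⟩
  obtain ⟨r2, hr2⟩ : ∃ r2, r2 = 8388608 * (D ^ 4 * r) := ⟨_, rfl⟩
  obtain ⟨t0, ht0⟩ : ∃ t0, t0 = n / 2 := ⟨_, rfl⟩
  have hv16 : 16 ≤ v := by
    rw [hv, Nat.le_div_iff_mul_le (by positivity)]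
    omega
  have hv20 : 0 < v2 := by omega
  have h64 : 64 * D ^ 2 * v ≤ w := by
    rw [hv]
    exact Nat.mul_div_le w (64 * D ^ 2)
  have h64' : 64 * v ≤ w := by
    refine le_trans ?_ h64
    exact Nat.mul_le_mul_right _ (Nat.le_mul_of_pos_right _ hD2)
  have hwv : w ≤ 128 * (D ^ 2 * v) := by
    have h1 := Nat.div_add_mod w (64 * D ^ 2)
    have h2 := Nat.mod_lt w (show 0 < 64 * D ^ 2 by positivity)
    rw [← hv] at h1
    have h3 : 64 * D ^ 2 * v = 64 * (D ^ 2 * v) := by ring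
    have h4 : D ^ 2 ≤ D ^ 2 * v := Nat.le_mul_of_pos_right _ (by omega)
    omega
  have hwv2 : w ≤ 1024 * D ^ 2 * v2 := by
    calc w ≤ 128 * (D ^ 2 * v) := hwv
      _ ≤ 128 * (D ^ 2 * (8 * v2)) :=
          Nat.mul_le_mul_left _ (Nat.mul_le_mul_left _ (by omega))
      _ = 1024 * D ^ 2 * v2 := by ring
  have hwv1 : w ≤ 1024 * D ^ 2 * v := by
    refine hwv2.trans (Nat.mul_le_mul_left _ (by omega))
  have hmul : Ac * v * r ≤ n := by
    rw [hr]
    exact Nat.mul_div_le n (Ac * v)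
  have hAc0 : 0 < Ac := by omega
  have hvr : v * r ≤ n := by
    have : v * r ≤ Ac * v * r := by
      rw [mul_assoc]
      exact Nat.le_mul_of_pos_left _ hAc0
    omega
  have hAB : (Ac : ℝ) = 3 * 8388608 * D ^ 4 * E := by exact_mod_cast hAc
  have hB1 : (1 : ℝ) ≤ E := by exact_mod_cast hE0
  have hBpos : (0 : ℝ) < E := by linarith
  have hD4' : (1 : ℝ) ≤ (D : ℝ) ^ 4 := by exact_mod_cast hD4
  have hmulR : (Ac : ℝ) * v * r ≤ n := by exact_mod_cast hmul
  have hv2r2 : 3 * ((v2 * r2 : ℕ) : ℝ) * E ≤ n := by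
    have e1 : ((v2 * r2 : ℕ) : ℝ) ≤ 8388608 * (D : ℝ) ^ 4 * ((v : ℝ) * (r : ℝ)) := by
      rw [hr2]
      push_cast
      have hvv : (v2 : ℝ) ≤ (v : ℝ) := by exact_mod_cast (by omega : v2 ≤ v)
      calc (v2 : ℝ) * (8388608 * ((D : ℝ) ^ 4 * (r : ℝ)))
          ≤ (v : ℝ) * (8388608 * ((D : ℝ) ^ 4 * (r : ℝ))) := by
            gcongr
        _ = 8388608 * (D : ℝ) ^ 4 * ((v : ℝ) * (r : ℝ)) := by ring
    calc 3 * ((v2 * r2 : ℕ) : ℝ) * (E : ℝ)
        ≤ 3 * (8388608 * (D : ℝ) ^ 4 * ((v : ℝ) * (r : ℝ))) * (E : ℝ) := by gcongr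
      _ = (Ac : ℝ) * (v : ℝ) * (r : ℝ) := by
          rw [hAB]
          ring
      _ ≤ n := hmulR
  have hvrB : 3 * ((v * r : ℕ) : ℝ) * E ≤ n := by
    have e1 : ((v * r : ℕ) : ℝ) ≤ 8388608 * (D : ℝ) ^ 4 * ((v : ℝ) * (r : ℝ)) := by
      push_cast
      have h1 : (0 : ℝ) ≤ (v : ℝ) * (r : ℝ) := by positivity
      nlinarith
    calc 3 * ((v * r : ℕ) : ℝ) * (E : ℝ)
        ≤ 3 * (8388608 * (D : ℝ) ^ 4 * ((v : ℝ) * (r : ℝ))) * (E : ℝ) := by gcongr
      _ = (Ac : ℝ) * (v : ℝ) * (r : ℝ) := by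
          rw [hAB]
          ring
      _ ≤ n := hmulR
  have hv2r2n : v2 * r2 ≤ n := by
    have : ((v2 * r2 : ℕ) : ℝ) ≤ n := by
      have h0 : (0 : ℝ) ≤ ((v2 * r2 : ℕ) : ℝ) := by positivity
      nlinarith
    exact_mod_cast this
  have hfrac : ∀ X j : ℕ, 3 * (X : ℝ) * E ≤ n → w ≤ 1024 * D ^ 2 * j →
      (24 : ℝ) ^ w * (3 * X / n : ℝ) ^ j ≤ 1 := by
    intro X j hX hj
    have e1 : (3 * X / n : ℝ) ≤ 1 / E := by
      rw [div_le_div_iff₀ hn' hBpos, one_mul]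
      exact hX
    calc (24 : ℝ) ^ w * (3 * X / n : ℝ) ^ j ≤ 24 ^ (1024 * D ^ 2 * j) * (1 / E) ^ j := by
          gcongr
          · norm_num
      _ ≤ (E : ℝ) ^ j * (1 / E) ^ j := by
          gcongr
          exact hE j
      _ = 1 := by rw [← mul_pow, mul_one_div_cancel (ne_of_gt hBpos), one_pow]
  have hexp := hfrac (v * r) v hvrB hwv1
  have hexp2 := hfrac (v2 * r2) v2 hv2r2 hwv2
  have hk40 : k ^ 40 ≤ 2 ^ w := le_trans (Nat.pow_le_pow_right (by omega) (by omega)) hw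
  -- the six kinds of bad events
  refine le_trans (pr_mono (q := fun f : ClauseList n m w =>
    (∃ x : Fin n → Bool, ∀ i, ¬ ∀ e, x ((f i).1 e) ≠ (f i).2 e) ∨ (¬ Spread v r f ∨
      (¬ Spread v2 r2 f ∨
      ((¬ ∀ A : Finset (Fin n), n ≤ D * A.card →
        8 * (univ.filter fun i => (posn (inS A) true (f i)).card < 2 * v).card ≤
          2 ^ (w - 2 * v)) ∨
      ((¬ ∀ σ : Subst (Fin n), ∃ E0 : Finset (Fin m), E0.card ≤ t0 ∧
        ∀ c e, c ≠ e → c ∉ E0 → e ∉ E0 →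
          (univ.filter fun p => (f e).1 p ∈ img σ (f c)).card < 2 * v2) ∨
      ((¬ ∀ u z, t0 < (around f (n ^ 3 * 2 ^ w) u z).card) ∨
       ¬ ∀ u z, (around f (n ^ 3 * 2 ^ w) u z).card ≤ n ^ 4)))))) fun f hf => ?_) ?_
  · by_contra hcon
    simp only [not_or] at hcon
    obtain ⟨h1, h2, h3, h4, h5, h6, h7⟩ := hcon
    push Not at h1 h2 h3
    rw [not_not] at h4 h5 h6 h7
    refine hf ⟨fun x => ?_, fun A B S L hdis hA hB href => ?_⟩
    · obtain ⟨i, hi⟩ := h1 x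
      refine ⟨_, mem_image_of_mem _ (mem_univ i), ?_⟩
      rintro ⟨l, hl, hl'⟩
      obtain ⟨e, -, rfl⟩ := mem_image.1 hl
      exact hi e hl'
    · exact rp_det (m0 := n ^ 3 * 2 ^ w) hD hAc' hK hn hk hw hwK hwn hm3 hv hv2 rfl
        hr hr2 ht0 ⟨h2, h3, h4, h5, h6, h7⟩ A B S L hdis hA hB href
  · have b1 := pr_sat (n := n) (m := m) (w := w) hwn' (by
      refine le_trans (Nat.mul_le_mul_right _ ?_) hm1
      calc n = n ^ 1 := (pow_one n).symm
        _ ≤ n ^ 3 := Nat.pow_le_pow_right hn0 (by norm_num))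
    have b2 := pr_not_spread hwn' (by omega) hn0 (by omega) hvr hm3 hexp
    have b3 := pr_not_spread hwn' (by omega) hn0 hv20 hv2r2n hm3 hexp2
    have hnT : n ≤ 2 ^ (w - 2 * v - 3) := by
      have h1 : n ^ 2 ≤ (2 ^ (w - 2 * v - 3)) ^ 2 := by
        calc n ^ 2 ≤ k ^ 2 := Nat.pow_le_pow_left hk _
          _ ≤ k ^ 40 := Nat.pow_le_pow_right (by omega) (by norm_num)
          _ ≤ 2 ^ w := hk40
          _ ≤ 2 ^ ((w - 2 * v - 3) * 2) := Nat.pow_le_pow_right (by norm_num) (by omega)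
          _ = (2 ^ (w - 2 * v - 3)) ^ 2 := pow_mul _ _ _
      exact (Nat.pow_le_pow_iff_left (by norm_num)).1 h1
    have b4 := pr_not_poor (m := m) hwn' hD (v := v) (by omega)
      (poor_num hD h64 (by omega) hm2) hnT
    have b5 := pr_not_overlap (n := n) (m := m) (w := w) (v2 := v2) (T := n / 4) (t0 := t0) hwn'
      (by omega) hm3
    have b6 := pr_not_lower (n := n) (m := m) (w := w) (t0 := t0) hwn' (by omega) (by omega) hm1
    have b7 := pr_not_upper (n := n) (m := m) (w := w) hwn' (by omega)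
    have c1 : (3 / 4 : ℝ) ^ n ≤ (15 / 16) ^ w := by
      calc (3 / 4 : ℝ) ^ n ≤ (3 / 4) ^ w := pow_le_pow_of_le_one (by norm_num) (by norm_num) hwn'
        _ ≤ (15 / 16) ^ w := pow_le_pow_left₀ (by norm_num) (by norm_num) _
    have c2 : (1 / 4 : ℝ) ^ w ≤ (15 / 16) ^ w :=
      pow_le_pow_left₀ (by norm_num) (by norm_num) _
    have c4 : (1 / 2 : ℝ) ^ n ≤ (15 / 16) ^ w := by
      calc (1 / 2 : ℝ) ^ n ≤ (1 / 2) ^ w := pow_le_pow_of_le_one (by norm_num) (by norm_num) hwn'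
        _ ≤ (15 / 16) ^ w := pow_le_pow_left₀ (by norm_num) (by norm_num) _
    have c5 : (2 * (n : ℝ) + 2) ^ n * (18 ^ w * ((w : ℝ) / n) ^ (2 * v2)) ^ (n / 4) ≤
        (15 / 16) ^ w := by
      have e1 : ((w : ℝ) / n) ≤ 1 / E := by
        rw [div_le_div_iff₀ hn' hBpos, one_mul]
        have e2 : ((K * w : ℕ) : ℝ) ≤ n := by exact_mod_cast hwn
        push_cast at e2
        have e3 : (E : ℝ) ≤ K := by
          have e4 : E ≤ K := by
            rw [hK, hAc]
            calc E = 1 * E := (one_mul E).symm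
              _ ≤ 3 * 8388608 * D ^ 4 * E := Nat.mul_le_mul_right _ (by omega)
              _ ≤ 3 * 8388608 * D ^ 4 * E * D := Nat.le_mul_of_pos_right _ hD
              _ ≤ 1024 * (3 * 8388608 * D ^ 4 * E * D) := Nat.le_mul_of_pos_left _ (by norm_num)
          exact_mod_cast e4
        calc (w : ℝ) * E ≤ w * K := by gcongr
          _ = K * w := mul_comm _ _
          _ ≤ n := e2
      have e2 : (18 : ℝ) ^ w * ((w : ℝ) / n) ^ (2 * v2) ≤ (1 / 32) ^ w := by
        have e3 : (1 / (E : ℝ)) ^ v2 ≤ (1 / 24) ^ w := by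
          calc (1 / (E : ℝ)) ^ v2 = 1 / (E : ℝ) ^ v2 := one_div_pow _ _
            _ ≤ 1 / (24 : ℝ) ^ (1024 * D ^ 2 * v2) :=
                one_div_le_one_div_of_le (by positivity) (hE v2)
            _ ≤ 1 / (24 : ℝ) ^ w := one_div_le_one_div_of_le (by positivity)
                (pow_le_pow_right₀ (by norm_num) hwv2)
            _ = (1 / 24) ^ w := (one_div_pow _ _).symm
        calc (18 : ℝ) ^ w * ((w : ℝ) / n) ^ (2 * v2) ≤ 18 ^ w * (1 / E) ^ (2 * v2) := by gcongr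
          _ = 18 ^ w * ((1 / E) ^ v2) ^ 2 := by rw [mul_comm 2 v2, pow_mul]
          _ ≤ 18 ^ w * ((1 / 24) ^ w) ^ 2 := by gcongr
          _ = (1 / 32) ^ w := by
              rw [← pow_mul, mul_comm w 2, pow_mul, ← mul_pow]
              norm_num
      have e3 : (2 * (n : ℝ) + 2) ^ n ≤ ((2 : ℝ) ^ w) ^ (n / 4) := by
        have h1 : (2 * n + 2) ^ n ≤ (2 ^ w) ^ (n / 4) := by
          calc (2 * n + 2) ^ n ≤ (2 * n + 2) ^ (8 * (n / 4)) :=
                Nat.pow_le_pow_right (by omega) (by omega)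
            _ = ((2 * n + 2) ^ 8) ^ (n / 4) := pow_mul _ _ _
            _ ≤ ((k ^ 2) ^ 8) ^ (n / 4) := by
                gcongr
                nlinarith
            _ ≤ (k ^ 40) ^ (n / 4) := by
                rw [← pow_mul k]
                exact Nat.pow_le_pow_left (Nat.pow_le_pow_right (by omega) (by norm_num)) _
            _ ≤ (2 ^ w) ^ (n / 4) := Nat.pow_le_pow_left hk40 _
        exact_mod_cast h1
      calc (2 * (n : ℝ) + 2) ^ n * (18 ^ w * ((w : ℝ) / n) ^ (2 * v2)) ^ (n / 4)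
          ≤ ((2 : ℝ) ^ w) ^ (n / 4) * ((1 / 32) ^ w) ^ (n / 4) := by gcongr
        _ = ((1 / 16) ^ w) ^ (n / 4) := by
            rw [← mul_pow, ← mul_pow]
            norm_num
        _ ≤ ((1 / 16) ^ w) ^ 1 := by
            refine pow_le_pow_of_le_one (by positivity) (pow_le_one₀ (by norm_num) (by norm_num)) ?_
            omega
        _ ≤ (15 / 16) ^ w := by
            rw [pow_one]
            exact pow_le_pow_left₀ (by norm_num) (by norm_num) _
    have c6 : (n : ℝ) ^ 2 * (3 / 4) ^ n ≤ (15 / 16) ^ w := by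
      have e1 : (n : ℝ) ^ 2 ≤ 2 ^ w := by
        have h1 : n ^ 2 ≤ 2 ^ w := by
          calc n ^ 2 ≤ k ^ 2 := Nat.pow_le_pow_left hk _
            _ ≤ k ^ 40 := Nat.pow_le_pow_right (by omega) (by norm_num)
            _ ≤ 2 ^ w := hk40
        exact_mod_cast h1
      have e2 : 4 * w ≤ n := le_trans (Nat.mul_le_mul_right _ (by omega)) hwn
      calc (n : ℝ) ^ 2 * (3 / 4) ^ n ≤ 2 ^ w * (3 / 4) ^ (4 * w) := by
            gcongr ?_ * ?_
            exact pow_le_pow_of_le_one (by norm_num) (by norm_num) e2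
        _ = (2 * (3 / 4) ^ 4) ^ w := by rw [pow_mul, ← mul_pow]
        _ ≤ (15 / 16) ^ w := pow_le_pow_left₀ (by norm_num) (by norm_num) _
    have c7 : (2 : ℝ) ^ n * (1 / 4) ^ (n ^ 4) ≤ (15 / 16) ^ w := by
      calc (2 : ℝ) ^ n * (1 / 4) ^ (n ^ 4) ≤ 2 ^ n * (1 / 4) ^ n := by
            gcongr 2 ^ n * ?_
            refine pow_le_pow_of_le_one (by norm_num) (by norm_num) ?_
            calc n = n ^ 1 := (pow_one n).symm
              _ ≤ n ^ 4 := Nat.pow_le_pow_right hn0 (by norm_num)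
        _ = (1 / 2) ^ n := by
            rw [← mul_pow]
            norm_num
        _ ≤ (15 / 16) ^ w := c4
    refine (pr_or _ _).trans ((add_le_add b1 ((pr_or _ _).trans (add_le_add b2
      ((pr_or _ _).trans (add_le_add b3 ((pr_or _ _).trans (add_le_add b4
        ((pr_or _ _).trans (add_le_add b5 ((pr_or _ _).trans (add_le_add b6 b7))))))))))).trans ?_)
    have h0 : (0 : ℝ) ≤ (15 / 16) ^ w := by positivity
    linarith

/-- The main result. -/
theorem random_main : ∀ D : ℕ, 0 < D → ∃ K : ℕ, 0 < K ∧ ∀ n k w m : ℕ, K ≤ n → n ≤ k →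
    k ^ K ≤ 2 ^ w → K * w ≤ n → n ^ 3 * 2 ^ w ≤ m → m ^ (8 * D) ≤ 2 ^ ((8 * D + 1) * w) →
    2 ^ (w / K) * {f : ClauseList n m w | ¬ Hard k D (2 ^ (n / K)) (toCNF f)}.ncard ≤
      Fintype.card (ClauseList n m w) := by
  classical
  intro D hD
  obtain ⟨E, hE0, hE⟩ : ∃ E : ℕ, 1 ≤ E ∧
      ∀ j : ℕ, (24 : ℝ) ^ (1024 * D ^ 2 * j) ≤ (E : ℝ) ^ j := by
    refine ⟨24 ^ (1024 * D ^ 2), Nat.one_le_pow _ _ (by decide), fun j => le_of_eq ?_⟩
    rw [pow_mul, Nat.cast_pow]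
    rfl
  obtain ⟨Ac, hAc⟩ : ∃ Ac, Ac = 3 * 8388608 * D ^ 4 * E := ⟨_, rfl⟩
  have hD4 : 1 ≤ D ^ 4 := Nat.one_le_pow _ _ hD
  have hAc' : 3 * 8388608 ≤ Ac := by
    have h1 : D ^ 4 ≤ D ^ 4 * E := Nat.le_mul_of_pos_right _ hE0
    have h2 : 3 * 8388608 * D ^ 4 * E = 3 * 8388608 * (D ^ 4 * E) := by ring
    omega
  obtain ⟨K, hK⟩ : ∃ K, K = 1024 * (Ac * D) := ⟨_, rfl⟩
  have hAcD : Ac ≤ Ac * D := Nat.le_mul_of_pos_right _ hD
  refine ⟨K, by omega, fun n k w m hn hk hw hwn hm1 hm2 => ?_⟩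
  have hwK : K ≤ w := by
    have h1 : 2 ^ K ≤ 2 ^ w := le_trans (Nat.pow_le_pow_left (by omega) _) hw
    exact (Nat.pow_le_pow_iff_right (by norm_num)).1 h1
  have hwn' : w ≤ n := le_trans (Nat.le_mul_of_pos_left _ (by omega)) hwn
  have hne := nonempty_emb hwn'
  have h := pr_not_hard hD hAc hE0 hE hK hn hk hw hwK hwn hm1 hm2
  rw [pr_eq, div_le_iff₀ (by exact_mod_cast Fintype.card_pos)] at h
  have h1 : {f : ClauseList n m w | ¬ Hard k D (2 ^ (n / K)) (toCNF f)}.ncard =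
      (univ.filter fun f : ClauseList n m w =>
        ¬ Hard k D (2 ^ (n / K)) (toCNF f)).card := by
    rw [Set.ncard_eq_toFinset_card']
    congr 1
    ext f
    simp
  rw [h1]
  have h2 : (2 : ℝ) ^ (w / K) * (16 * (15 / 16) ^ w) ≤ 1 := by
    obtain ⟨q, hq⟩ : ∃ q, q = w / K := ⟨_, rfl⟩
    have hq1 : 1 ≤ q := by
      rw [hq]
      exact (Nat.one_le_div_iff (by omega)).2 hwK
    have hKq : 64 * q ≤ w := by
      calc 64 * q ≤ K * q := Nat.mul_le_mul_right _ (by omega)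
        _ ≤ w := by
          rw [hq]
          exact Nat.mul_div_le w K
    rw [← hq]
    calc (2 : ℝ) ^ q * (16 * (15 / 16) ^ w) ≤ 2 ^ q * (16 * (15 / 16) ^ (64 * q)) := by
          gcongr 2 ^ q * (16 * ?_)
          exact pow_le_pow_of_le_one (by norm_num) (by norm_num) hKq
      _ = 16 * (2 * (15 / 16) ^ 64) ^ q := by
          rw [mul_pow, ← pow_mul]
          ring
      _ ≤ 16 * (1 / 16) ^ q := by
          gcongr
          norm_num
      _ ≤ 16 * (1 / 16) ^ 1 := by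
          gcongr 16 * ?_
          exact pow_le_pow_of_le_one (by norm_num) (by norm_num) hq1
      _ = 1 := by norm_num
  have h3 : (2 : ℝ) ^ (w / K) *
      (univ.filter fun f : ClauseList n m w =>
        ¬ Hard k D (2 ^ (n / K)) (toCNF f)).card ≤
      Fintype.card (ClauseList n m w) := by
    calc (2 : ℝ) ^ (w / K) *
        (univ.filter fun f : ClauseList n m w =>
          ¬ Hard k D (2 ^ (n / K)) (toCNF f)).card
        ≤ 2 ^ (w / K) * (16 * (15 / 16) ^ w * Fintype.card (ClauseList n m w)) := by gcongr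
      _ = 2 ^ (w / K) * (16 * (15 / 16) ^ w) * Fintype.card (ClauseList n m w) := by ring
      _ ≤ 1 * Fintype.card (ClauseList n m w) := by gcongr
      _ = Fintype.card (ClauseList n m w) := one_mul _
  exact_mod_cast h3

end Pool.Agent.MP_9cec2c_lc.Redun
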