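import Pool.Agent.Lib.MP_9cec2c_lc.RPRigid
import Pool.Agent.Lib.MP_9cec2c_lc.Mg.G063
import Pool.Agent.Lib.MP_9cec2c_lc.LRHalf

/-!
Random CNFs: the clauses around a variable that are false at a point.
-/

set_option autoImplicit false
set_option linter.unusedSectionVars false

namespace Pool.Agent.MP_9cec2c_lc.Redun

open Finset
open Pool.Agent.MP_9cec2c_lc.SubstRed
open Pool.Agent.MP_9cec2c_lc.FormulaLines
open Pool.Agent.MP_9cec2c_lc.LovSch

variable {n m w : ℕ}

/-- A random injection takes a given value at a given place. -/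
theorem pr_at (hw : w ≤ n) (p : Fin w) (u : Fin n) :
    1 / (n : ℝ) ≤ pr (fun g : Fin w ↪ Fin n => g p = u) := by
  classical
  have hne := nonempty_emb hw
  have hn : (0 : ℝ) < n := by
    have : 0 < n := lt_of_lt_of_le p.pos hw
    exact_mod_cast this
  have h1 : ∀ u' : Fin n, pr (fun g : Fin w ↪ Fin n => g p = u') ≤ 1 / n := by
    intro u'
    have := emb_pr hw {p} {u'}
    simpa using this
  have h2 : (1 : ℝ) ≤ ∑ u' : Fin n, pr (fun g : Fin w ↪ Fin n => g p = u') := by
    refine le_trans ?_ (pr_exists_fintype (fun (u' : Fin n) (g : Fin w ↪ Fin n) => g p = u'))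
    have h3 : pr (fun g : Fin w ↪ Fin n => ∃ u', g p = u') = 1 := by
      rw [pr_eq]
      have : (univ.filter fun g : Fin w ↪ Fin n => ∃ u', g p = u') = univ := by
        ext g
        simp
      rw [this, card_univ, div_self]
      exact_mod_cast Fintype.card_ne_zero
    rw [h3]
  rw [← add_sum_erase _ _ (mem_univ u)] at h2
  have h3 : ∑ u' ∈ univ.erase u, pr (fun g : Fin w ↪ Fin n => g p = u') ≤
      ((n : ℝ) - 1) * (1 / n) := by
    refine (sum_le_sum fun u' _ => h1 u').trans ?_
    rw [sum_const, card_erase_of_mem (mem_univ _), card_univ, Fintype.card_fin, nsmul_eq_mul,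
      Nat.cast_sub (by exact_mod_cast (show 1 ≤ n from lt_of_lt_of_le p.pos hw)), Nat.cast_one]
  have h4 : ((n : ℝ) - 1) * (1 / n) = 1 - 1 / n := by
    field_simp
  rw [h4] at h3
  linarith

/-- A random clause contains a given variable and is false at a given point. -/
theorem pr_around (hw : w ≤ n) (hw0 : 0 < w) (u : Fin n) (z : Fin n → Bool) :
    (1 / 2) ^ w / n ≤ pr (fun c : (Fin w ↪ Fin n) × (Fin w → Bool) =>
      (∃ p, c.1 p = u) ∧ FalseAll c z) := by
  classical
  have hne := nonempty_emb hw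
  have h1 : pr (fun c : (Fin w ↪ Fin n) × (Fin w → Bool) => (∃ p, c.1 p = u) ∧ FalseAll c z) =
      pr (fun g : Fin w ↪ Fin n => ∃ p, g p = u) * (1 / 2) ^ w := by
    rw [pr_eq_av, av_prod_type, pr_eq_av]
    have h2 : ∀ g : Fin w ↪ Fin n, av (fun b : Fin w → Bool =>
        ind ((∃ p, (g, b).1 p = u) ∧ FalseAll (g, b) z)) = ind (∃ p, g p = u) * (1 / 2) ^ w := by
      intro g
      by_cases hg : ∃ p, g p = u
      · have h3 : ∀ b : Fin w → Bool, ind ((∃ p, (g, b).1 p = u) ∧ FalseAll (g, b) z) =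
            ind (∀ e, z (g e) ≠ b e) := by
          intro b
          refine ind_congr ⟨fun h => h.2, fun h => ⟨hg, h⟩⟩
        simp only [h3]
        rw [← pr_eq_av, sign_pr_eq fun e => z (g e), ind_pos hg, one_mul]
      · have h3 : ∀ b : Fin w → Bool, ind ((∃ p, (g, b).1 p = u) ∧ FalseAll (g, b) z) = 0 :=
          fun b => ind_neg fun h => hg h.1
        simp only [h3]
        rw [av_const, ind_neg hg, zero_mul]
    simp only [h2]
    unfold av
    rw [← sum_mul]
    ring
  rw [h1, div_eq_mul_one_div, mul_comm]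
  gcongr
  refine (pr_at hw ⟨0, hw0⟩ u).trans (pr_mono fun g hg => ⟨_, hg⟩)

/-- None of the clauses of a block has a property. -/
theorem none_of {α : Type*} [Fintype α] [Nonempty α] (A : α → Prop) (q : ℝ) (hq : q ≤ pr A)
    (T : Finset (Fin m)) {x : ℝ} (hx : x ≤ q * T.card) :
    pr (fun H : Fin m → α => ∀ i ∈ T, ¬ A (H i)) ≤ Real.exp (-x) := by
  have h1 := indep_fixed (ι := Fin m) (α := α) T (fun x => ¬ A x) (1 - pr A)
    (le_of_eq (pr_not A))
  refine h1.trans ?_
  have h2 : (1 - pr A) ^ T.card ≤ Real.exp (-q) ^ T.card := by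
    have h3 : 0 ≤ 1 - pr A := by
      have := pr_le_one A
      linarith
    gcongr
    have := Real.add_one_le_exp (-q)
    linarith
  refine h2.trans ?_
  rw [← Real.exp_nat_mul]
  refine Real.exp_le_exp.2 ?_
  linarith

/-- The block `j`. -/
def blk (m B j : ℕ) : Finset (Fin m) := univ.filter fun i => (i : ℕ) / B = j

theorem card_blk {B j a : ℕ} (hj : j < a) (hm : a * B ≤ m) :
    B ≤ (blk m B j).card := by
  classical
  have h1 : (Ico (j * B) ((j + 1) * B)) ⊆ (blk m B j).image Fin.val := by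
    intro i hi
    rw [mem_Ico] at hi
    have h2 : (j + 1) * B ≤ a * B := Nat.mul_le_mul_right _ hj
    refine mem_image.2 ⟨⟨i, by omega⟩, mem_filter.2 ⟨mem_univ _, ?_⟩, rfl⟩
    exact Nat.div_eq_of_lt_le hi.1 hi.2
  have h2 := card_le_card h1
  rw [card_image_of_injective _ Fin.val_injective, Nat.card_Ico] at h2
  have h3 : (j + 1) * B - j * B = B := by
    rw [← Nat.sub_mul]
    simp
  omega

/-- Many clauses around each variable are false at each point. -/
theorem pr_not_lower (hw : w ≤ n) (hw0 : 0 < w) {t0 : ℕ} (ht0 : t0 < n)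
    (hm : n ^ 3 * 2 ^ w ≤ m) :
    pr (fun f : ClauseList n m w => ¬ ∀ u z, t0 < (around f (n ^ 3 * 2 ^ w) u z).card) ≤
      (n : ℝ) ^ 2 * (3 / 4) ^ n := by
  classical
  have hne := nonempty_emb hw
  have hn : (0 : ℝ) < n := by
    have : 0 < n := by omega
    exact_mod_cast this
  obtain ⟨B, hB⟩ : ∃ B, B = n ^ 2 * 2 ^ w := ⟨_, rfl⟩
  have hB0 : 0 < B := by
    rw [hB]
    have : 0 < n := by omega
    positivity
  have hnB : n ^ 3 * 2 ^ w = n * B := by
    rw [hB]
    ring
  refine le_trans (pr_mono (q := fun f : ClauseList n m w =>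
    ∃ uzj : Fin n × (Fin n → Bool) × Fin n, ∀ i ∈ blk m B uzj.2.2,
      ¬ ((∃ p, (f i).1 p = uzj.1) ∧ FalseAll (f i) uzj.2.1)) fun f hf => ?_) ?_
  · by_contra hcon
    push Not at hcon
    refine hf fun u z => ?_
    have h1 : ∀ j : Fin n, ∃ i ∈ blk m B j, (∃ p, (f i).1 p = u) ∧ FalseAll (f i) z :=
      fun j => hcon (u, z, j)
    choose g hg1 hg2 using h1
    have hginj : Function.Injective g := by
      intro j j' hjj
      have e1 := (mem_filter.1 (hg1 j)).2
      have e2 := (mem_filter.1 (hg1 j')).2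
      rw [hjj] at e1
      exact Fin.ext (e1.symm.trans e2)
    have h2 : univ.image g ⊆ around f (n ^ 3 * 2 ^ w) u z := by
      intro i hi
      obtain ⟨j, -, rfl⟩ := mem_image.1 hi
      unfold around
      rw [mem_filter]
      refine ⟨mem_univ _, ?_, hg2 j⟩
      rw [hnB]
      have e1 := (mem_filter.1 (hg1 j)).2
      have e2 : ((g j : ℕ) / B) < n := by
        rw [e1]
        exact j.2
      exact (Nat.div_lt_iff_lt_mul hB0).1 e2
    have h3 := card_le_card h2
    rw [card_image_of_injective _ hginj, card_univ, Fintype.card_fin] at h3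
    omega
  · refine (pr_exists_fintype _).trans ?_
    have h1 : ∀ uzj : Fin n × (Fin n → Bool) × Fin n,
        pr (fun f : ClauseList n m w => ∀ i ∈ blk m B uzj.2.2,
          ¬ ((∃ p, (f i).1 p = uzj.1) ∧ FalseAll (f i) uzj.2.1)) ≤ Real.exp (-n) := by
      rintro ⟨u, z, j⟩
      refine none_of (fun c : (Fin w ↪ Fin n) × (Fin w → Bool) =>
        (∃ p, c.1 p = u) ∧ FalseAll c z) _ (pr_around hw hw0 u z) _ ?_
      have h2 : (B : ℝ) ≤ ((blk m B j).card : ℝ) := by
        exact_mod_cast card_blk j.2 (hnB ▸ hm)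
      have h3 : (n : ℝ) = (1 / 2) ^ w / n * B := by
        rw [hB]
        push_cast
        rw [one_div, inv_pow]
        field_simp
      calc (n : ℝ) = (1 / 2) ^ w / n * B := h3
        _ ≤ (1 / 2) ^ w / n * ((blk m B j).card : ℝ) := by gcongr
    refine (sum_le_sum fun uzj _ => h1 uzj).trans ?_
    rw [sum_const, card_univ, Fintype.card_prod, Fintype.card_prod, Fintype.card_fun,
      Fintype.card_fin, Fintype.card_bool, nsmul_eq_mul]
    push_cast
    have h4 : Real.exp (-n) = Real.exp (-1) ^ n := by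
      rw [← Real.exp_nat_mul]
      congr 1
      ring
    rw [h4]
    have h5 : (2 : ℝ) ^ n * Real.exp (-1) ^ n ≤ (3 / 4) ^ n := by
      rw [← mul_pow]
      refine pow_le_pow_left₀ (by positivity) ?_ _
      rw [Real.exp_neg]
      have h5 := Real.exp_one_gt_d9
      rw [← div_eq_mul_inv, div_le_div_iff₀ (by positivity) (by norm_num)]
      linarith
    calc (n : ℝ) * (2 ^ n * n) * Real.exp (-1) ^ n
        = (n : ℝ) ^ 2 * (2 ^ n * Real.exp (-1) ^ n) := by ring
      _ ≤ (n : ℝ) ^ 2 * (3 / 4) ^ n := by gcongr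

/-- Few clauses around each variable are false at each point. -/
theorem pr_not_upper (hw : w ≤ n) (hn : 12 ≤ n) :
    pr (fun f : ClauseList n m w => ¬ ∀ u z, (around f (n ^ 3 * 2 ^ w) u z).card ≤ n ^ 4) ≤
      2 ^ n * (1 / 4) ^ (n ^ 4) := by
  classical
  have hne := nonempty_emb hw
  have hn' : (12 : ℝ) ≤ n := by exact_mod_cast hn
  obtain ⟨T0, hT0⟩ : ∃ T0 : Finset (Fin m), T0 = univ.filter fun i : Fin m =>
      (i : ℕ) < n ^ 3 * 2 ^ w := ⟨_, rfl⟩
  have hT0c : T0.card ≤ n ^ 3 * 2 ^ w := by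
    have h1 : T0.image Fin.val ⊆ range (n ^ 3 * 2 ^ w) := by
      intro i hi
      obtain ⟨j, hj, rfl⟩ := mem_image.1 hi
      rw [hT0, mem_filter] at hj
      exact mem_range.2 hj.2
    have h2 := card_le_card h1
    rwa [card_image_of_injective _ Fin.val_injective, card_range] at h2
  refine le_trans (pr_mono (q := fun f : ClauseList n m w =>
    ∃ z ∈ (univ : Finset (Fin n → Bool)), ∃ T ∈ powersetCard (n ^ 4) T0,
      ∀ i ∈ T, ∀ e, z ((f i).1 e) ≠ (f i).2 e) fun f hf => ?_) ?_
  · push Not at hf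
    obtain ⟨u, z, hlt⟩ := hf
    obtain ⟨T, hT1, hT2⟩ := exists_subset_card_eq hlt.le
    refine ⟨z, mem_univ _, T, mem_powersetCard.2 ⟨fun i hi => ?_, hT2⟩, fun i hi => ?_⟩
    · have := hT1 hi
      unfold around at this
      rw [mem_filter] at this
      rw [hT0, mem_filter]
      exact ⟨mem_univ _, this.2.1⟩
    · have := hT1 hi
      unfold around at this
      rw [mem_filter] at this
      exact this.2.2.2
  · refine (pr_exists _ _).trans ?_
    have h1 : ∀ z ∈ (univ : Finset (Fin n → Bool)),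
        pr (fun f : ClauseList n m w => ∃ T ∈ powersetCard (n ^ 4) T0,
          ∀ i ∈ T, ∀ e, z ((f i).1 e) ≠ (f i).2 e) ≤ (1 / 4) ^ (n ^ 4) := by
      intro z _
      refine (pr_exists _ _).trans ?_
      have h2 : ∀ T ∈ powersetCard (n ^ 4) T0,
          pr (fun f : ClauseList n m w => ∀ i ∈ T, ∀ e, z ((f i).1 e) ≠ (f i).2 e) ≤
            ((1 / 2) ^ w) ^ (n ^ 4) := by
        intro T hT
        have h3 := indep_fixed (ι := Fin m) T (fun c : (Fin w ↪ Fin n) × (Fin w → Bool) =>
          ∀ e, z (c.1 e) ≠ c.2 e) _ (pr_false_at hw z).le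
        rwa [(mem_powersetCard.1 hT).2] at h3
      refine (sum_le_sum h2).trans ?_
      rw [sum_const, card_powersetCard, nsmul_eq_mul]
      have h3 : ((T0.card.choose (n ^ 4) : ℕ) : ℝ) ≤ (3 * T0.card / (n ^ 4 : ℕ) : ℝ) ^ (n ^ 4) :=
        choose_le_three (by positivity)
      calc ((T0.card.choose (n ^ 4) : ℕ) : ℝ) * ((1 / 2) ^ w) ^ (n ^ 4)
          ≤ (3 * T0.card / (n ^ 4 : ℕ) : ℝ) ^ (n ^ 4) * ((1 / 2) ^ w) ^ (n ^ 4) := by gcongr
        _ = (3 * T0.card / (n ^ 4 : ℕ) * (1 / 2) ^ w : ℝ) ^ (n ^ 4) := (mul_pow _ _ _).symm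
        _ ≤ (1 / 4) ^ (n ^ 4) := by
            refine pow_le_pow_left₀ (by positivity) ?_ _
            have h4 : (T0.card : ℝ) ≤ n ^ 3 * 2 ^ w := by exact_mod_cast hT0c
            have h5 : (0 : ℝ) < (1 / 2) ^ w := by positivity
            have h6 : (0 : ℝ) < (n : ℝ) ^ 4 := by positivity
            calc (3 * T0.card / (n ^ 4 : ℕ) * (1 / 2) ^ w : ℝ)
                ≤ 3 * (n ^ 3 * 2 ^ w) / (n ^ 4 : ℕ) * (1 / 2) ^ w := by gcongr
              _ = 3 / n := by
                  push_cast
                  rw [one_div, inv_pow]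
                  field_simp
              _ ≤ 1 / 4 := by
                  rw [div_le_div_iff₀ (by linarith) (by norm_num)]
                  linarith
    refine (sum_le_sum h1).trans ?_
    rw [sum_const, card_univ, Fintype.card_fun, Fintype.card_fin, Fintype.card_bool,
      nsmul_eq_mul]
    push_cast
    exact le_refl _

/-- A random clause rarely has few variables in a large set. -/
theorem pr_few (hw : w ≤ n) {D v : ℕ} (hD : 0 < D) {A : Finset (Fin n)} (hA : n ≤ D * A.card) :
    pr (fun c : (Fin w ↪ Fin n) × (Fin w → Bool) =>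
      (posn (inS A) true c).card < 2 * v) ≤ (2 * D) ^ (2 * v) * (1 - 1 / (2 * D)) ^ w := by
  classical
  have hne := nonempty_emb hw
  have hD' : (1 : ℝ) ≤ D := by exact_mod_cast hD
  have hp : (((Aᶜ).card : ℝ) / n) ≤ 1 - 1 / D := by
    rcases Nat.eq_zero_or_pos n with h0 | h0
    · have h1 : (n : ℝ) = 0 := by exact_mod_cast h0
      rw [h1, div_zero]
      rw [sub_nonneg, div_le_one (by linarith)]
      exact hD'
    · have hn : (0 : ℝ) < n := by exact_mod_cast h0
      have h1 : A.card ≤ n := by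
        have := card_le_univ A
        rwa [Fintype.card_fin] at this
      rw [card_compl, Fintype.card_fin, Nat.cast_sub h1, sub_div, div_self (ne_of_gt hn)]
      have h2 : 1 / (D : ℝ) ≤ A.card / n := by
        rw [div_le_div_iff₀ (by linarith) hn, one_mul, mul_comm]
        exact_mod_cast hA
      linarith
  have hp0 : (0 : ℝ) ≤ 1 - 1 / D := by
    rw [sub_nonneg, div_le_one (by linarith)]
    exact hD'
  refine le_trans (pr_mono (q := fun c : (Fin w ↪ Fin n) × (Fin w → Bool) =>
    ∃ J ∈ (univ : Finset (Finset (Fin w))).filter (fun J => J.card < 2 * v),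
      ∀ e ∈ Jᶜ, c.1 e ∈ Aᶜ) fun c hc => ?_) ?_
  · refine ⟨posn (inS A) true c, mem_filter.2 ⟨mem_univ _, hc⟩, fun e he => ?_⟩
    rw [mem_compl] at he ⊢
    intro h
    exact he (mem_filter.2 ⟨mem_univ _, inS_true.2 h⟩)
  · refine (pr_exists _ _).trans ?_
    have h1 : ∀ J : Finset (Fin w), pr (fun c : (Fin w ↪ Fin n) × (Fin w → Bool) =>
        ∀ e ∈ Jᶜ, c.1 e ∈ Aᶜ) ≤ (1 - 1 / (D : ℝ)) ^ (w - J.card) := by
      intro J
      rw [pr_fst (Ω' := Fin w → Bool) (fun g : Fin w ↪ Fin n => ∀ e ∈ Jᶜ, g e ∈ Aᶜ)]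
      have h2 := emb_pr hw Jᶜ Aᶜ
      have h3 : (Jᶜ).card = w - J.card := by rw [card_compl, Fintype.card_fin]
      rw [h3] at h2
      refine h2.trans ?_
      gcongr
    have h2 : ∑ J ∈ (univ : Finset (Finset (Fin w))).filter (fun J => J.card < 2 * v),
        pr (fun c : (Fin w ↪ Fin n) × (Fin w → Bool) => ∀ e ∈ Jᶜ, c.1 e ∈ Aᶜ) ≤
        ∑ J : Finset (Fin w), (2 * (D : ℝ)) ^ (2 * v) *
          ((1 / (2 * D)) ^ J.card * (1 - 1 / (D : ℝ)) ^ (w - J.card)) := by
      rw [sum_filter]
      refine sum_le_sum fun J _ => ?_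
      have h4 : (0 : ℝ) ≤ (1 - 1 / (D : ℝ)) ^ (w - J.card) := pow_nonneg hp0 _
      by_cases hJ : J.card < 2 * v
      · rw [if_pos hJ]
        refine (h1 J).trans ?_
        have h3 : (1 : ℝ) ≤ (2 * D) ^ (2 * v) * (1 / (2 * D)) ^ J.card := by
          rw [one_div, inv_pow, ← div_eq_mul_inv, one_le_div (by positivity)]
          exact pow_le_pow_right₀ (by linarith) hJ.le
        nlinarith
      · rw [if_neg hJ]
        positivity
    refine h2.trans ?_
    rw [← mul_sum]
    have h3 : ∑ J : Finset (Fin w), ((1 / (2 * (D : ℝ))) ^ J.card *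
        (1 - 1 / (D : ℝ)) ^ (w - J.card)) = (1 - 1 / (2 * D)) ^ w := by
      have := Finset.sum_pow_mul_eq_add_pow (1 / (2 * (D : ℝ))) (1 - 1 / (D : ℝ))
        (univ : Finset (Fin w))
      rw [powerset_univ, card_univ, Fintype.card_fin] at this
      rw [this]
      congr 1
      field_simp
      ring
    rw [h3]

/-- Few clauses have few variables in a large set. -/
theorem pr_not_poor (hw : w ≤ n) {D v : ℕ} (hD : 0 < D) (hv : 2 * v + 3 ≤ w)
    (hnum : 96 * (m : ℝ) * ((4 * D) ^ (2 * v) * (1 - 1 / (2 * D)) ^ w) ≤ 2 ^ w)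
    (hn : n ≤ 2 ^ (w - 2 * v - 3)) :
    pr (fun f : ClauseList n m w => ¬ ∀ A : Finset (Fin n), n ≤ D * A.card →
      8 * (univ.filter fun i => (posn (inS A) true (f i)).card < 2 * v).card ≤
        2 ^ (w - 2 * v)) ≤ (1 / 2) ^ n := by
  classical
  have hne := nonempty_emb hw
  have hD' : (1 : ℝ) ≤ D := by exact_mod_cast hD
  obtain ⟨T, hT⟩ : ∃ T, T = 2 ^ (w - 2 * v - 3) := ⟨_, rfl⟩
  have hT0 : 0 < T := by
    rw [hT]
    positivity
  have hT8 : 2 ^ (w - 2 * v) = 8 * T := by
    rw [hT]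
    have : w - 2 * v = w - 2 * v - 3 + 3 := by omega
    rw [this, pow_add]
    simp only [Nat.add_sub_cancel]
    ring
  obtain ⟨p, hp⟩ : ∃ p : ℝ, p = (2 * D) ^ (2 * v) * (1 - 1 / (2 * D)) ^ w := ⟨_, rfl⟩
  have hp1 : (0 : ℝ) ≤ 1 - 1 / (2 * D) := by
    rw [sub_nonneg, div_le_one (by linarith)]
    linarith
  have hp0 : 0 ≤ p := by
    rw [hp]
    exact mul_nonneg (by positivity) (pow_nonneg hp1 _)
  have hmp : 3 * (m : ℝ) * p ≤ 1 / 4 * T := by
    have h1 : (2 : ℝ) ^ w = 8 * T * 2 ^ (2 * v) := by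
      have h2 : (2 : ℕ) ^ w = 8 * T * 2 ^ (2 * v) := by
        rw [← hT8, ← pow_add]
        congr 1
        omega
      exact_mod_cast h2
    have h3 : (4 * (D : ℝ)) ^ (2 * v) = (2 * D) ^ (2 * v) * 2 ^ (2 * v) := by
      rw [← mul_pow]
      congr 1
      ring
    rw [h1, h3] at hnum
    have h4 : (96 * (m : ℝ) * p) * 2 ^ (2 * v) ≤ (8 * T) * 2 ^ (2 * v) := by
      rw [hp]
      calc 96 * (m : ℝ) * ((2 * D) ^ (2 * v) * (1 - 1 / (2 * D)) ^ w) * 2 ^ (2 * v)
          = 96 * (m : ℝ) * ((2 * D) ^ (2 * v) * 2 ^ (2 * v) * (1 - 1 / (2 * D)) ^ w) := by ring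
        _ ≤ 8 * T * 2 ^ (2 * v) := hnum
    have h5 := le_of_mul_le_mul_right h4 (by positivity)
    linarith
  refine le_trans (pr_mono (q := fun f : ClauseList n m w =>
    ∃ A ∈ (univ : Finset (Finset (Fin n))).filter (fun A => n ≤ D * A.card),
      ∃ I ∈ powersetCard T (univ : Finset (Fin m)),
        ∀ i ∈ I, (posn (inS A) true (f i)).card < 2 * v) fun f hf => ?_) ?_
  · push Not at hf
    obtain ⟨A, hA, hlt⟩ := hf
    rw [hT8] at hlt
    obtain ⟨I, hI1, hI2⟩ := exists_subset_card_eq (s := univ.filter fun i =>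
      (posn (inS A) true (f i)).card < 2 * v) (n := T) (by omega)
    exact ⟨A, mem_filter.2 ⟨mem_univ _, hA⟩, I, mem_powersetCard.2 ⟨subset_univ _, hI2⟩,
      fun i hi => (mem_filter.1 (hI1 hi)).2⟩
  · refine (pr_exists _ _).trans ?_
    have h1 : ∀ A ∈ (univ : Finset (Finset (Fin n))).filter (fun A => n ≤ D * A.card),
        pr (fun f : ClauseList n m w => ∃ I ∈ powersetCard T (univ : Finset (Fin m)),
          ∀ i ∈ I, (posn (inS A) true (f i)).card < 2 * v) ≤ (1 / 4) ^ T := by
      intro A hA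
      refine (pr_exists _ _).trans ?_
      have h2 : ∀ I ∈ powersetCard T (univ : Finset (Fin m)),
          pr (fun f : ClauseList n m w =>
            ∀ i ∈ I, (posn (inS A) true (f i)).card < 2 * v) ≤ p ^ T := by
        intro I hI
        have h3 := indep_fixed (ι := Fin m) I (fun c : (Fin w ↪ Fin n) × (Fin w → Bool) =>
          (posn (inS A) true c).card < 2 * v) _ (pr_few hw hD (mem_filter.1 hA).2)
        rw [(mem_powersetCard.1 hI).2, ← hp] at h3
        exact h3
      refine (sum_le_sum h2).trans ?_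
      rw [sum_const, card_powersetCard, card_univ, Fintype.card_fin, nsmul_eq_mul]
      have h3 : (m.choose T : ℝ) ≤ (3 * m / T : ℝ) ^ T := choose_le_three hT0
      have hT' : (0 : ℝ) < T := by exact_mod_cast hT0
      calc (m.choose T : ℝ) * p ^ T ≤ (3 * m / T : ℝ) ^ T * p ^ T := by gcongr
        _ = (3 * m * p / T) ^ T := by
            rw [← mul_pow]
            congr 1
            ring
        _ ≤ (1 / 4) ^ T := by
            refine pow_le_pow_left₀ (by positivity) ?_ _
            rw [div_le_iff₀ hT']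
            exact hmp
    refine (sum_le_sum h1).trans ?_
    rw [sum_const, nsmul_eq_mul]
    have h2 : (((univ : Finset (Finset (Fin n))).filter (fun A => n ≤ D * A.card)).card : ℝ) ≤
        2 ^ n := by
      have h3 : ((univ : Finset (Finset (Fin n))).filter (fun A => n ≤ D * A.card)).card ≤
          2 ^ n := by
        refine (card_filter_le _ _).trans ?_
        rw [card_univ, Fintype.card_finset, Fintype.card_fin]
      exact_mod_cast h3
    calc (((univ : Finset (Finset (Fin n))).filter (fun A => n ≤ D * A.card)).card : ℝ) *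
          (1 / 4) ^ T ≤ 2 ^ n * (1 / 4) ^ n := by
          gcongr ?_ * ?_
          exact pow_le_pow_of_le_one (by norm_num) (by norm_num) (by rw [hT]; exact hn)
      _ = (1 / 2) ^ n := by
          rw [← mul_pow]
          norm_num

/-- A large matching, or a small set that meets all pairs of a relation. -/
theorem exists_matching {ι : Type*} [DecidableEq ι] (R : ι → ι → Prop) (T : ℕ) :
    (∃ a b : Fin T → ι, Function.Injective b ∧ (∀ i j, a i ≠ b j) ∧
      ∀ i, R (a i) (b i)) ∨
    ∃ E0 : Finset ι, E0.card ≤ 2 * T ∧ ∀ c e, c ≠ e → c ∉ E0 → e ∉ E0 → ¬ R c e := by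
  classical
  induction T with
  | zero =>
    left
    exact ⟨fun i => i.elim0, fun i => i.elim0, fun i => i.elim0, fun i => i.elim0,
      fun i => i.elim0⟩
  | succ T ih =>
    rcases ih with ⟨a, b, h1, h2, h3⟩ | ⟨E0, h1, h2⟩
    · by_cases hE : ∀ c e, c ≠ e → c ∉ univ.image a ∪ univ.image b →
          e ∉ univ.image a ∪ univ.image b → ¬ R c e
      · right
        refine ⟨univ.image a ∪ univ.image b, ?_, hE⟩
        have e1 := card_union_le (univ.image a) (univ.image b)
        have e2 := card_image_le (s := (univ : Finset (Fin T))) (f := a)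
        have e3 := card_image_le (s := (univ : Finset (Fin T))) (f := b)
        rw [card_univ, Fintype.card_fin] at e2 e3
        omega
      · push Not at hE
        obtain ⟨c, e, hce, hc, he, hR⟩ := hE
        left
        have hca : ∀ i, a i ≠ c := fun i h => hc (mem_union_left _ (mem_image.2 ⟨i, mem_univ _, h⟩))
        have hcb : ∀ i, b i ≠ c := fun i h => hc (mem_union_right _ (mem_image.2 ⟨i, mem_univ _, h⟩))
        have hea : ∀ i, a i ≠ e := fun i h => he (mem_union_left _ (mem_image.2 ⟨i, mem_univ _, h⟩))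
        have heb : ∀ i, b i ≠ e := fun i h => he (mem_union_right _ (mem_image.2 ⟨i, mem_univ _, h⟩))
        refine ⟨Fin.cons c a, Fin.cons e b, ?_, ?_, ?_⟩
        · intro i j hij
          refine Fin.cases ?_ (fun i' => ?_) i hij
          · refine Fin.cases (fun _ => rfl) (fun j' h => ?_) j
            simp only [Fin.cons_zero, Fin.cons_succ] at h
            exact absurd h.symm (heb j')
          · refine Fin.cases (fun h => ?_) (fun j' h => ?_) j
            · simp only [Fin.cons_zero, Fin.cons_succ] at h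
              exact absurd h (heb i')
            · simp only [Fin.cons_succ] at h
              rw [h1 h]
        · intro i j
          refine Fin.cases ?_ (fun i' => ?_) i
          · refine Fin.cases ?_ (fun j' => ?_) j
            · simpa using hce
            · simpa using (hcb j').symm
          · refine Fin.cases ?_ (fun j' => ?_) j
            · simpa using hea i'
            · simpa using h2 i' j'
        · intro i
          refine Fin.cases ?_ (fun i' => ?_) i
          · simpa using hR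
          · simpa using h3 i'
    · right
      exact ⟨E0, by omega, h2⟩

/-- A large matching of overlapping clauses. -/
theorem pr_matching (hw : w ≤ n) {v2 T : ℕ} (σ : Subst (Fin n)) (a b : Fin T → Fin m)
    (hb : Function.Injective b) (hab : ∀ i j, a i ≠ b j) :
    pr (fun f : ClauseList n m w => ∀ i,
      2 * v2 ≤ (univ.filter fun p => (f (b i)).1 p ∈ img σ (f (a i))).card) ≤
        (2 ^ w * ((w : ℝ) / n) ^ (2 * v2)) ^ T := by
  classical
  have hne := nonempty_emb hw
  have h1 := indep (ι := Fin m) (α := (Fin w ↪ Fin n) × (Fin w → Bool)) (univ.image b)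
    (fun j H x => ∀ i, b i = j → 2 * v2 ≤ (univ.filter fun p => x.1 p ∈ img σ (H (a i))).card)
    (2 ^ w * ((w : ℝ) / n) ^ (2 * v2)) (fun j hj j' hj' H E x => by
      obtain ⟨i', -, rfl⟩ := mem_image.1 hj'
      have : ∀ i, Function.update H (b i') E (a i) = H (a i) := fun i =>
        Function.update_of_ne (hab i i') _ _
      simp only [this]) (fun j hj H => by
      obtain ⟨i, -, rfl⟩ := mem_image.1 hj
      refine le_trans (pr_mono (q := fun x : (Fin w ↪ Fin n) × (Fin w → Bool) =>
        2 * v2 ≤ (univ.filter fun p => x.1 p ∈ img σ (H (a i))).card) fun x hx => hx i rfl) ?_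
      refine (pr_dense hw v2 (img σ (H (a i)))).trans ?_
      have := card_img σ (H (a i))
      gcongr)
  rw [card_image_of_injective _ hb, card_univ, Fintype.card_fin] at h1
  refine le_trans (pr_mono fun f hf => ?_) h1
  intro j hj i hi
  rw [← hi]
  exact hf i

/-- The clauses overlap rarely with the images of the clauses. -/
theorem pr_not_overlap (hw : w ≤ n) {v2 T t0 : ℕ} (hT : 2 * T ≤ t0) (hm : m ≤ 3 ^ w) :
    pr (fun f : ClauseList n m w => ¬ ∀ σ : Subst (Fin n), ∃ E0 : Finset (Fin m),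
      E0.card ≤ t0 ∧ ∀ c e, c ≠ e → c ∉ E0 → e ∉ E0 →
        (univ.filter fun p => (f e).1 p ∈ img σ (f c)).card < 2 * v2) ≤
      (2 * n + 2) ^ n * (18 ^ w * ((w : ℝ) / n) ^ (2 * v2)) ^ T := by
  classical
  have hne := nonempty_emb hw
  obtain ⟨q0, hq0⟩ : ∃ q0 : ℝ, q0 = 2 ^ w * ((w : ℝ) / n) ^ (2 * v2) := ⟨_, rfl⟩
  have hq00 : 0 ≤ q0 := by
    rw [hq0]
    positivity
  refine le_trans (pr_mono (q := fun f : ClauseList n m w =>
    ∃ σab : Subst (Fin n) × (Fin T → Fin m) × (Fin T → Fin m),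
      (Function.Injective σab.2.2 ∧ ∀ i j, σab.2.1 i ≠ σab.2.2 j) ∧ ∀ i,
      2 * v2 ≤ (univ.filter fun p => (f (σab.2.2 i)).1 p ∈ img σab.1 (f (σab.2.1 i))).card)
    fun f hf => ?_) ?_
  · push Not at hf
    obtain ⟨σ, hσ⟩ := hf
    rcases exists_matching (fun c e : Fin m =>
      2 * v2 ≤ (univ.filter fun p => (f e).1 p ∈ img σ (f c)).card) T with
      ⟨a, b, h1, h2, h3⟩ | ⟨E0, h1, h2⟩
    · exact ⟨(σ, a, b), ⟨h1, h2⟩, h3⟩
    · obtain ⟨c, e, h3, h4, h5, h6⟩ := hσ E0 (by omega)
      exact absurd h6 (h2 c e h3 h4 h5)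
  · refine (pr_exists_fintype _).trans ?_
    have h1 : ∀ σab : Subst (Fin n) × (Fin T → Fin m) × (Fin T → Fin m),
        pr (fun f : ClauseList n m w =>
          (Function.Injective σab.2.2 ∧ ∀ i j, σab.2.1 i ≠ σab.2.2 j) ∧ ∀ i,
          2 * v2 ≤ (univ.filter fun p => (f (σab.2.2 i)).1 p ∈ img σab.1 (f (σab.2.1 i))).card) ≤
          q0 ^ T := by
      rintro ⟨σ, a, b⟩
      by_cases hab : Function.Injective b ∧ ∀ i j, a i ≠ b j
      · refine (pr_mono fun f hf => hf.2).trans ?_
        rw [hq0]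
        exact pr_matching hw σ a b hab.1 hab.2
      · refine le_trans (le_of_eq ?_) (pow_nonneg hq00 T)
        rw [pr_eq]
        have : (univ.filter fun f : ClauseList n m w =>
            (Function.Injective b ∧ ∀ i j, a i ≠ b j) ∧ ∀ i,
            2 * v2 ≤ (univ.filter fun p => (f (b i)).1 p ∈ img σ (f (a i))).card) = ∅ := by
          rw [filter_eq_empty_iff]
          intro f _ hf
          exact hab hf.1
        rw [this, card_empty, Nat.cast_zero, zero_div]
    refine (sum_le_sum fun σab _ => h1 σab).trans ?_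
    have hcard : Fintype.card (Subst (Fin n)) = (2 * n + 2) ^ n := by
      unfold Subst
      rw [Fintype.card_fun, Fintype.card_sum, Fintype.card_bool]
      unfold LovSch.Lit
      rw [Fintype.card_prod, Fintype.card_bool, Fintype.card_fin, mul_comm n 2]
    rw [sum_const, card_univ, Fintype.card_prod, Fintype.card_prod, hcard, Fintype.card_fun,
      Fintype.card_fin, Fintype.card_fin, nsmul_eq_mul]
    push_cast
    have h3 : (m : ℝ) ≤ 3 ^ w := by exact_mod_cast hm
    calc (2 * (n : ℝ) + 2) ^ n * ((m : ℝ) ^ T * (m : ℝ) ^ T) * q0 ^ T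
        ≤ (2 * (n : ℝ) + 2) ^ n * (((3 : ℝ) ^ w) ^ T * ((3 : ℝ) ^ w) ^ T) * q0 ^ T := by gcongr
      _ = (2 * (n : ℝ) + 2) ^ n * ((3 ^ w * 3 ^ w * q0) ^ T) := by
          rw [mul_pow, mul_pow]
          ring
      _ = (2 * (n : ℝ) + 2) ^ n * (18 ^ w * ((w : ℝ) / n) ^ (2 * v2)) ^ T := by
          rw [hq0, ← mul_assoc, ← mul_pow, ← mul_pow]
          norm_num

end Pool.Agent.MP_9cec2c_lc.Redun
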