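import Pool.Agent.Lib.MP_9cec2c_lc.RPCount
import Pool.Agent.Lib.MP_9cec2c_lc.RPApp

/-!
Refutations relative to a set of assignments.
-/

set_option autoImplicit false
set_option linter.unusedSectionVars false

namespace Pool.Agent.MP_9cec2c_lc.Redun

open Finset
open Pool.Agent.MP_9cec2c_lc.LovSch

/-- Refutations for the assignments with the property `D`. -/
def RefOn {V : Type} (k : ℕ) (F : Finset (Clause V)) (D : (V → Bool) → Prop) {S : ℕ}
    (L : Fin S → (V → Bool) → Prop) : Prop :=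
  (∃ i, ∀ x, ¬ L i x) ∧ ∀ i,
    Follows k F L i (fun _ => True) (L i) ∨
    ∃ σ : Subst V,
      (∀ C ∈ F, Follows k F L i (fun x => D x ∧ ¬ L i x) fun x => Holds (σ.app x) C) ∧
      Follows k F L i (fun x => D x ∧ ¬ L i x) fun x => σ.app x ≠ x

/-- Fixing the variables that the substitutions depend on. -/
theorem refOn_of {V : Type} {k : ℕ} {F : Finset (Clause V)} {A B : Set V} {S : ℕ}
    {L : Fin S → (V → Bool) → Prop} (h : IsRefutation k F A B L) (x0 : V → Bool) :
    RefOn k F (fun x => ∀ u, u ∉ A → u ∉ B → x u = x0 u) L := by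
  obtain ⟨-, h2, h3⟩ := h
  refine ⟨h2, fun i => ?_⟩
  rcases h3 i with h4 | ⟨σ, hσ, h4, h5⟩
  · exact Or.inl h4
  · right
    have hσ' : ∀ x, (∀ u, u ∉ A → u ∉ B → x u = x0 u) → σ x = σ x0 := fun x hx =>
      hσ fun u hu => by
        rw [Set.mem_compl_iff, Set.mem_union, not_or] at hu
        exact hx u hu.1 hu.2
    refine ⟨σ x0, fun C hC => ?_, ?_⟩
    · obtain ⟨P, G, g1, g2, g3, g4, g5⟩ := h4 C hC
      refine ⟨P, G, g1, g2, g3, g4, fun x hx hP hG => ?_⟩
      rw [← hσ' x hx.1]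
      exact g5 x hx.2 hP hG
    · obtain ⟨P, G, g1, g2, g3, g4, g5⟩ := h5
      refine ⟨P, G, g1, g2, g3, g4, fun x hx hP hG => ?_⟩
      rw [← hσ' x hx.1]
      exact g5 x hx.2 hP hG

section family

variable {U V I : Type} [Fintype U] [DecidableEq U] [Fintype V] [DecidableEq V] [Fintype I]
  [DecidableEq I] {S : U → Finset I} {T : V → Finset I} {r s : ℕ}

/-- Approximation of a finite family of triangles. -/
theorem app_family {ι : Type} (Q : Finset ι) {α : ι → U → EReal} {β : ι → V → EReal}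
    {dU dV : ℕ} {BU : Finset U} {BV : Finset V}
    (h : ∀ c ∈ Q, ∀ (BU' : Finset U) (BV' : Finset V), BU ⊆ BU' → BV ⊆ BV' →
      ∃ (BU'' : Finset U) (BV'' : Finset V), BU' ⊆ BU'' ∧ BV' ⊆ BV'' ∧
        BU''.card ≤ BU'.card + dU ∧ BV''.card ≤ BV'.card + dV ∧
        App S T r s BU'' BV'' (α c) (β c)) :
    ∃ (BU' : Finset U) (BV' : Finset V), BU ⊆ BU' ∧ BV ⊆ BV' ∧
      BU'.card ≤ BU.card + Q.card * dU ∧ BV'.card ≤ BV.card + Q.card * dV ∧
      ∀ c ∈ Q, App S T r s BU' BV' (α c) (β c) := by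
  classical
  induction Q using Finset.induction_on with
  | empty => exact ⟨BU, BV, Subset.refl _, Subset.refl _, by simp, by simp, by simp⟩
  | insert c Q hc ih =>
    obtain ⟨BU', BV', h1, h2, h3, h4, h5⟩ := ih fun c' hc' => h c' (mem_insert_of_mem hc')
    obtain ⟨BU'', BV'', g1, g2, g3, g4, g5⟩ := h c (mem_insert_self _ _) BU' BV' h1 h2
    refine ⟨BU'', BV'', h1.trans g1, h2.trans g2, ?_, ?_, fun c' hc' => ?_⟩
    · rw [card_insert_of_notMem hc, add_mul, one_mul]
      omega
    · rw [card_insert_of_notMem hc, add_mul, one_mul]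
      omega
    · rcases mem_insert.1 hc' with rfl | hc'
      · exact g5
      · exact (h5 c' hc').mono g1 g2

/-- From approximators of a triangle: the few elements that depend on the first input. -/
theorem app_elems {BU : Finset U} {BV : Finset V} {α : U → EReal} {β : V → EReal}
    (h : App S T r s BU BV α β) {x : U} (hx : x ∉ BU) :
    ∃ E : Finset I, E.card ≤ r ∧ ∀ y, y ∉ BV → β y < α x → ∃ e ∈ E, e ∈ S x ∧ e ∈ T y := by
  obtain ⟨A, B, h1, h2, h3⟩ := h
  obtain ⟨M, hM1, hM2, hM3⟩ := h2 x hx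
  refine ⟨M, hM2.le, fun y hy hlt => ?_⟩
  obtain ⟨K, hK1, hK2, hK3⟩ := h3 y hy
  have hnd : ¬ Disjoint M K := by
    intro hd
    have := h1 M K hM2 hK2 hd
    exact absurd (hM3.trans (this.trans hK3)) (not_le.2 hlt)
  obtain ⟨e, he1, he2⟩ := not_disjoint_iff.1 hnd
  exact ⟨e, he1, hM1 he1, hK1 he2⟩

/-- A triangle that contains everything is not approximable. -/
theorem app_full' {c : ℕ} {BU : Finset U} {BV : Finset V}
    (hc : ∀ y, ∀ i ∈ T y, (univ.filter fun x => i ∈ S x).card ≤ c)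
    (h : App S T r s BU BV (fun _ => 1) fun _ => 0) (hV : BV.card < Fintype.card V) :
    Fintype.card U ≤ BU.card + s * c := by
  classical
  obtain ⟨A, B, h1, h2, h3⟩ := h
  obtain ⟨y, hy⟩ : ∃ y, y ∉ BV := by
    by_contra hcon
    push Not at hcon
    have : BV = univ := eq_univ_iff_forall.2 hcon
    rw [this, card_univ] at hV
    exact lt_irrefl _ hV
  obtain ⟨K, g1, g2, g3⟩ := h3 y hy
  have hsub : (univ : Finset U) ⊆ BU ∪ K.biUnion fun i => univ.filter fun x => i ∈ S x := by
    intro x _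
    by_cases hx : x ∈ BU
    · exact mem_union_left _ hx
    · refine mem_union_right _ ?_
      obtain ⟨M, k1, k2, k3⟩ := h2 x hx
      have hnd : ¬ Disjoint M K := by
        intro hd
        have h4 := k3.trans ((h1 M K k2 g2 hd).trans g3)
        exact absurd h4 (by norm_num)
      obtain ⟨e, he1, he2⟩ := not_disjoint_iff.1 hnd
      exact mem_biUnion.2 ⟨e, he2, mem_filter.2 ⟨mem_univ _, k1 he1⟩⟩
  have h5 := card_le_card hsub
  rw [card_univ] at h5
  refine h5.trans ((card_union_le _ _).trans (Nat.add_le_add_left ?_ _))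
  refine (card_biUnion_le_card_mul _ _ c fun i hi => hc y i (g1 hi)).trans ?_
  exact Nat.mul_le_mul_right _ g2.le

end family

end Pool.Agent.MP_9cec2c_lc.Redun
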