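import Pool.Agent.Lib.MP_9cec2c_lc.RPRel

/-!
The false set of a redundant line is approximable where the substitution changes a variable.
-/

set_option autoImplicit false
set_option linter.unusedSectionVars false

namespace Pool.Agent.MP_9cec2c_lc.Redun

open Finset
open Pool.Agent.MP_9cec2c_lc.LovSch

variable {n m w : ℕ}

/-- The clause `c` is false at `z`. -/
def FalseAll (c : (Fin w ↪ Fin n) × (Fin w → Bool)) (z : Fin n → Bool) : Prop :=
  ∀ e, z (c.1 e) ≠ c.2 e

open scoped Classical in
/-- The first `m0` clauses that contain `u` and are false at `z`. -/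
noncomputable def around (f : ClauseList n m w) (m0 : ℕ) (u : Fin n) (z : Fin n → Bool) :
    Finset (Fin m) :=
  univ.filter fun c => (c : ℕ) < m0 ∧ (∃ p, (f c).1 p = u) ∧ FalseAll (f c) z

/-- Membership in `A` as a Boolean. -/
def inS (A : Finset (Fin n)) (u : Fin n) : Bool := decide (u ∈ A)

theorem inS_true {A : Finset (Fin n)} {u : Fin n} : inS A u = true ↔ u ∈ A := by
  unfold inS
  simp

/-- The properties of random CNFs that are used. -/
structure Good (f : ClauseList n m w) (v r v2 r2 t0 m0 N D : ℕ) : Prop where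
  spread : Spread v r f
  spread2 : Spread v2 r2 f
  poor : ∀ A : Finset (Fin n), n ≤ D * A.card →
    8 * (univ.filter fun i => (posn (inS A) true (f i)).card < 2 * v).card ≤ 2 ^ (w - 2 * v)
  overlap : ∀ σ : Subst (Fin n), ∃ E0 : Finset (Fin m), E0.card ≤ t0 ∧
    ∀ c e, c ≠ e → c ∉ E0 → e ∉ E0 →
      (univ.filter fun p => (f e).1 p ∈ img σ (f c)).card < 2 * v2
  lower : ∀ u z, t0 < (around f m0 u z).card
  upper : ∀ u z, (around f m0 u z).card ≤ N

variable {f : ClauseList n m w} {v r v2 r2 t0 m0 N D : ℕ}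

/-- The clauses with many variables in `J`. -/
def heavy (f : ClauseList n m w) (v2 : ℕ) (J : Finset (Fin n)) : Finset (Fin m) :=
  univ.filter fun e => 2 * v2 ≤ (univ.filter fun p => (f e).1 p ∈ J).card

theorem card_heavy (hf : Spread v2 r2 f) {J : Finset (Fin n)} (hJ : J.card < v2 * r2) :
    (heavy f v2 J).card ≤ r2 := by
  classical
  by_contra hcon
  push Not at hcon
  obtain ⟨M, hM1, hM2⟩ := exists_subset_card_eq hcon.le
  have h := hf M hM2.le J fun i hi => (mem_filter.1 (hM1 hi)).2
  rw [hM2] at h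
  omega

/-- The part of a clause outside a small set and outside an image. -/
theorem svar_free {col : Fin n → Bool} {s : Bool} {e : (Fin w ↪ Fin n) × (Fin w → Bool)}
    {J I : Finset (Fin n)}
    {a1 a2 b : ℕ} (h1 : (univ.filter fun p => e.1 p ∈ J).card ≤ a1)
    (h2 : (univ.filter fun p => e.1 p ∈ I).card ≤ a2) (h3 : b + a1 + a2 ≤ (posn col s e).card) :
    b ≤ (svar col s e \ (J ∪ I)).card := by
  classical
  have h4 : svar col s e ⊆ (svar col s e \ (J ∪ I)) ∪
      (((univ.filter fun p => e.1 p ∈ J).image e.1) ∪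
        ((univ.filter fun p => e.1 p ∈ I).image e.1)) := by
    intro u hu
    by_cases hJI : u ∈ J ∪ I
    · obtain ⟨p, hp, rfl⟩ := mem_image.1 hu
      refine mem_union_right _ ?_
      rcases mem_union.1 hJI with h | h
      · exact mem_union_left _ (mem_image_of_mem _ (mem_filter.2 ⟨mem_univ _, h⟩))
      · exact mem_union_right _ (mem_image_of_mem _ (mem_filter.2 ⟨mem_univ _, h⟩))
    · exact mem_union_left _ (mem_sdiff.2 ⟨hu, hJI⟩)
  have h5 := (card_le_card h4).trans (card_union_le _ _)
  have h6 := card_union_le ((univ.filter fun p => e.1 p ∈ J).image e.1)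
    ((univ.filter fun p => e.1 p ∈ I).image e.1)
  have h7 := card_image_le (s := univ.filter fun p => e.1 p ∈ J) (f := e.1)
  have h8 := card_image_le (s := univ.filter fun p => e.1 p ∈ I) (f := e.1)
  rw [card_svar] at h5
  omega

/-- Assignments that are fixed outside `Z` and on a part of `Z`. -/
theorem card_sub_cyl {S : Finset (Fin n → Bool)} {Z J : Finset (Fin n)} {b : Fin n → Bool}
    (hJ : J ⊆ Z) (hS : S ⊆ cyl (Zᶜ ∪ J) b) : S.card * 2 ^ J.card ≤ 2 ^ Z.card := by
  classical
  have hd : Disjoint Zᶜ J := by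
    rw [disjoint_left]
    intro u hu hu'
    exact (mem_compl.1 hu) (hJ hu')
  have h1 := card_cyl (Zᶜ ∪ J) b
  rw [card_union_of_disjoint hd, card_compl, Fintype.card_fin] at h1
  have hZ : Z.card ≤ n := by
    have := card_le_univ Z
    rwa [Fintype.card_fin] at this
  have h2 : 2 ^ (n - Z.card) * (S.card * 2 ^ J.card) ≤ 2 ^ (n - Z.card) * 2 ^ Z.card := by
    calc 2 ^ (n - Z.card) * (S.card * 2 ^ J.card) = S.card * 2 ^ (n - Z.card + J.card) := by
          rw [pow_add]
          ring
      _ ≤ (cyl (Zᶜ ∪ J) b).card * 2 ^ (n - Z.card + J.card) :=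
          Nat.mul_le_mul_right _ (card_le_card hS)
      _ = 2 ^ n := h1
      _ = 2 ^ (n - Z.card) * 2 ^ Z.card := by
          rw [← pow_add]
          congr 1
          omega
  exact Nat.le_of_mul_le_mul_left h2 (by positivity)

/-- The clause is true by `x0` because of a variable outside `A` and `B`. -/
def SatR (A B : Finset (Fin n)) (x0 : Fin n → Bool) (c : (Fin w ↪ Fin n) × (Fin w → Bool)) :
    Prop := ∃ p, c.1 p ∉ A ∧ c.1 p ∉ B ∧ x0 (c.1 p) = c.2 p

open scoped Classical in
/-- The clauses that are not true by `x0`, and have many variables in `Z`, and whose literals in `Z`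
are false under `x`. -/
noncomputable def hitS (A B : Finset (Fin n)) (v : ℕ) (f : ClauseList n m w) (x0 : Fin n → Bool)
    (Z : Finset (Fin n)) (x : Fin n → Bool) : Finset (Fin m) :=
  (rhit (inS Z) v f true x).filter fun i => ¬ SatR A B x0 (f i)

theorem mem_hitS {A B : Finset (Fin n)} {x0 : Fin n → Bool} {Z : Finset (Fin n)}
    {x : Fin n → Bool} {i : Fin m} : i ∈ hitS A B v f x0 Z x ↔
      2 * v ≤ (posn (inS Z) true (f i)).card ∧ FalseOn (inS Z) true (f i) x ∧
        ¬ SatR A B x0 (f i) := by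
  classical
  unfold hitS rhit
  rw [mem_filter, mem_filter]
  have := mem_univ i
  tauto

open scoped Classical in
/-- Inputs that falsify a set of clauses are rare. -/
theorem hit_count (hf : Spread v r f) {Z : Finset (Fin n)} (hvr : v * r ≤ Z.card)
    {x0 : Fin n → Bool} {M : Finset (Fin m)} {t : ℕ} (ht : t ≤ r) (hM : M.card = t) :
    (univ.filter fun x => (∀ u, u ∉ Z → x u = x0 u) ∧ M ⊆ rhit (inS Z) v f true x).card ≤
      2 ^ (Z.card - v * t) := by
  rcases (univ.filter fun x => (∀ u, u ∉ Z → x u = x0 u) ∧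
    M ⊆ rhit (inS Z) v f true x).eq_empty_or_nonempty with h0 | ⟨x1, hx1⟩
  · rw [h0, card_empty]
    exact Nat.zero_le _
  · have hx1' := (mem_filter.1 hx1).2
    have h2 := rhit_touch hf (by omega) hx1'.2
    have hJ : rtouch (inS Z) f true M ⊆ Z := by
      intro u hu
      unfold rtouch at hu
      rw [mem_biUnion] at hu
      obtain ⟨i, -, hu⟩ := hu
      obtain ⟨e, he, rfl⟩ := mem_image.1 hu
      exact inS_true.1 (mem_filter.1 he).2
    have h3 : (univ.filter fun x => (∀ u, u ∉ Z → x u = x0 u) ∧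
        M ⊆ rhit (inS Z) v f true x) ⊆ cyl (Zᶜ ∪ rtouch (inS Z) f true M) x1 := by
      intro x hx
      have hx' := (mem_filter.1 hx).2
      rw [mem_cyl]
      intro u hu
      rcases mem_union.1 hu with hu | hu
      · rw [mem_compl] at hu
        rw [hx'.1 u hu, hx1'.1 u hu]
      · unfold rtouch at hu
        rw [mem_biUnion] at hu
        obtain ⟨i, hi, hu⟩ := hu
        obtain ⟨e, he, rfl⟩ := mem_image.1 hu
        have he' := (mem_filter.1 he).2
        have g1 := (mem_filter.1 (hx'.2 hi)).2.2 e he'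
        have g2 := (mem_filter.1 (hx1'.2 hi)).2.2 e he'
        revert g1 g2
        cases x ((f i).1 e) <;> cases x1 ((f i).1 e) <;> cases (f i).2 e <;> simp
    have h4 := card_sub_cyl hJ h3
    have h5 : 2 ^ (v * t) ≤ 2 ^ (rtouch (inS Z) f true M).card :=
      Nat.pow_le_pow_right (by norm_num) (by rw [hM] at h2; exact h2)
    have h6 : v * t ≤ Z.card := (Nat.mul_le_mul_left _ ht).trans hvr
    have h7 : 2 ^ Z.card = 2 ^ (Z.card - v * t) * 2 ^ (v * t) := by
      rw [← pow_add]
      congr 1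
      omega
    rw [h7] at h4
    exact Nat.le_of_mul_le_mul_right ((Nat.mul_le_mul_left _ h5).trans h4) (by positivity)

open scoped Classical in
/-- The same for a subtype. -/
theorem hit_count_sub (hf : Spread v r f) {A B Z : Finset (Fin n)} (hvr : v * r ≤ Z.card)
    {x0 : Fin n → Bool} {P : (Fin n → Bool) → Prop} (hP : ∀ x, P x → ∀ u, u ∉ Z → x u = x0 u)
    {M : Finset (Fin m)} {t : ℕ} (ht : t ≤ r) (hM : M.card = t) :
    (univ.filter fun x : {x // P x} => M ⊆ hitS A B v f x0 Z x.1).card ≤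
      2 ^ (Z.card - v * t) := by
  refine le_trans ?_ (hit_count hf hvr (x0 := x0) ht hM)
  refine card_le_card_of_injOn (fun x => x.1) (fun x hx => ?_) fun a _ b _ h => Subtype.ext h
  have h1 := (mem_filter.1 (mem_coe.1 hx)).2
  refine mem_coe.2 (mem_filter.2 ⟨mem_univ _, hP _ x.2, h1.trans ?_⟩)
  unfold hitS
  exact filter_subset _ _

/-- The number of fixed coordinates of the dense piece of a large set is small. -/
theorem piece_small' {B : Finset (Fin n → Bool)} {J : Finset (Fin n)} {b : Fin n → Bool}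
    {q z a : ℕ} (hq : 0 < q) (hza : z ≤ a) (hB : 2 ^ (a - z) < B.card)
    (hcap : (B ∩ cyl J b).card * 2 ^ J.card ≤ 2 ^ a)
    (h : B.card ^ q ≤ (B ∩ cyl J b).card ^ q * 2 ^ ((q - 1) * J.card)) : J.card < q * z := by
  have h2 : (2 ^ (a - z)) ^ q < B.card ^ q := Nat.pow_lt_pow_left hB (by omega)
  have h3 : (2 ^ (a - z)) ^ q * 2 ^ J.card < (2 ^ a) ^ q := by
    calc (2 ^ (a - z)) ^ q * 2 ^ J.card < B.card ^ q * 2 ^ J.card :=
          Nat.mul_lt_mul_of_pos_right h2 (by positivity)
      _ ≤ (B ∩ cyl J b).card ^ q * 2 ^ ((q - 1) * J.card) * 2 ^ J.card :=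
          Nat.mul_le_mul_right _ h
      _ = ((B ∩ cyl J b).card * 2 ^ J.card) ^ q := by
          rw [mul_assoc, ← pow_add, mul_pow, ← pow_mul]
          congr 2
          obtain ⟨c, rfl⟩ : ∃ c, q = c + 1 := ⟨q - 1, by omega⟩
          rw [Nat.add_sub_cancel]
          ring
      _ ≤ (2 ^ a) ^ q := Nat.pow_le_pow_left hcap _
  rw [← pow_mul, ← pow_mul, ← pow_add] at h3
  have h4 := (Nat.pow_lt_pow_iff_right (by norm_num : 1 < 2)).1 h3
  have h5 : (a - z) * q + z * q = a * q := by
    rw [← add_mul]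
    congr 1
    omega
  rw [mul_comm q z]
  omega

open scoped Classical in
/-- The main step. -/
theorem rigid_app (hf : Good f v r v2 r2 t0 m0 N D) {A B : Finset (Fin n)}
    {q z h κ vo : ℕ} (hq : 0 < q) (hr : 0 < r) (hvrA : v * r ≤ A.card) (hvrB : v * r ≤ B.card)
    (hzA : z ≤ A.card) (hJ : q * z ≤ v2 * r2) (hqh : 2 * w ≤ q * h)
    (hvo : vo + 2 * v2 + 2 * v2 ≤ 2 * v) (hnum : κ * 2 ^ h * N < 2 ^ vo) {x0 : Fin n → Bool}
    {P Q : (Fin n → Bool) → Prop} (hP : ∀ x, P x → ∀ u, u ∉ B → x u = x0 u)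
    (hQ : ∀ y, Q y → ∀ u, u ∉ A → y u = x0 u)
    {BU : Finset {x // P x}} {BV : Finset {y // Q y}}
    {α : {x // P x} → EReal} {β : {y // Q y} → EReal}
    (σ : Subst (Fin n)) (u : Fin n) (a : Bool)
    (hT : ∀ x y, β y < α x → mix (inS A) x.1 y.1 u = a ∧ σ.app (mix (inS A) x.1 y.1) u = !a)
    (hgoal : ∀ c : Fin m, ∀ x, x ∉ BU → ∃ E : Finset (Fin m), E.card ≤ κ ∧
      ∀ y, y ∉ BV → β y < α x → Viol σ (f c) (mix (inS A) x.1 y.1) →
        ∃ e ∈ E, e ∈ hitS A B v f x0 B x.1 ∧ e ∈ hitS A B v f x0 A y.1) :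
    ∃ (BU' : Finset {x // P x}) (BV' : Finset {y // Q y}),
      BU ⊆ BU' ∧ BV ⊆ BV' ∧
      BU'.card ≤ BU.card + (r2 + t0) ^ r * 2 ^ (B.card - v * r) ∧
      BV'.card ≤ BV.card + (r ^ r * 2 ^ (A.card - v * r) + (m + 1) ^ r * 2 ^ (A.card - z)) ∧
      App (fun x => hitS A B v f x0 B x.1) (fun y => hitS A B v f x0 A y.1) r r BU' BV' α β := by
  obtain ⟨E0, hE0, hov⟩ := hf.overlap σ
  -- the quantiles
  have hquant : ∀ M : Finset (Fin m), ∃ t : EReal,
      (univ.filter fun y : {y // Q y} =>
        (y ∉ BV ∧ Disjoint M (hitS A B v f x0 A y.1)) ∧ β y < t).card ≤ 2 ^ (A.card - z) ∧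
      (t = ⊤ ∨ 2 ^ (A.card - z) < (univ.filter fun y : {y // Q y} =>
        (y ∉ BV ∧ Disjoint M (hitS A B v f x0 A y.1)) ∧ β y ≤ t).card) :=
    fun M => exists_quantile _ β _
  choose t ht1 ht2 using hquant
  -- the sets of the second player, and their dense pieces
  obtain ⟨Y, hY⟩ : ∃ Y : Finset (Fin m) → Finset (Fin n → Bool), Y = fun M =>
      (univ.filter fun y : {y // Q y} =>
        (y ∉ BV ∧ Disjoint M (hitS A B v f x0 A y.1)) ∧ β y ≤ t M).image Subtype.val :=
    ⟨_, rfl⟩
  have hYcard : ∀ M, t M ≠ ⊤ → 2 ^ (A.card - z) < (Y M).card := by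
    intro M hM
    rw [hY]
    simp only
    rw [card_image_of_injective _ Subtype.val_injective]
    exact (ht2 M).resolve_left hM
  have hYx0 : ∀ M, ∀ y ∈ Y M, ∀ u, u ∉ A → y u = x0 u := by
    intro M y hy
    rw [hY] at hy
    obtain ⟨y', -, rfl⟩ := mem_image.1 hy
    exact hQ _ y'.2
  have hpiece := fun M => exists_piece A (Y M) q
  choose J b hJY hJ1 hJ2 using hpiece
  obtain ⟨bb, hbb⟩ : ∃ bb : Finset (Fin m) → Fin n → Bool, bb = fun M u =>
      if u ∈ A then b M u else x0 u := ⟨_, rfl⟩
  have hsub : ∀ M, Y M ∩ cyl (J M) (b M) ⊆ cyl (Aᶜ ∪ J M) (bb M) := by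
    intro M y hy
    rw [mem_inter, mem_cyl] at hy
    rw [mem_cyl]
    intro u hu
    rw [hbb]
    simp only
    rcases mem_union.1 hu with hu | hu
    · rw [mem_compl] at hu
      rw [if_neg hu]
      exact hYx0 M y hy.1 u hu
    · rw [if_pos (hJY M hu)]
      exact hy.2 u hu
  have hJcard : ∀ M, t M ≠ ⊤ → (J M).card < v2 * r2 := by
    intro M hM
    exact lt_of_lt_of_le (piece_small' hq hzA (hYcard M hM) (card_sub_cyl (hJY M) (hsub M))
      (hJ1 M)) hJ
  obtain ⟨Lam, hLam⟩ : ∃ Lam : Finset (Fin m) → Finset (Fin m), Lam = fun M =>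
      (if t M = ⊤ then ∅ else heavy f v2 (J M) ∪ E0) \ M := ⟨_, rfl⟩
  refine app_gen (lam := r2 + t0) (CU := 2 ^ (B.card - v * r)) (CV := 2 ^ (A.card - v * r))
    (NM := (m + 1) ^ r) (Z := 2 ^ (A.card - z)) hr
    (fun M hM => hit_count_sub hf.spread hvrB hP le_rfl hM)
    (fun M hM => hit_count_sub hf.spread hvrA hQ le_rfl hM)
    Lam (fun M => ?_) (fun M => ?_) t (fun M hM x hx hMx hdis => ?_) (fun M _ => ht1 M) card_small
  · rw [hLam]
    simp only
    refine (card_le_card sdiff_subset).trans ?_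
    split_ifs with hM
    · simp
    · refine (card_union_le _ _).trans (Nat.add_le_add ?_ hE0)
      exact card_heavy hf.spread2 (hJcard M hM)
  · rw [hLam]
    exact disjoint_sdiff
  · by_contra hcon
    push Not at hcon
    have htop : t M ≠ ⊤ := fun h => by
      rw [h] at hcon
      exact not_top_lt hcon
    have hYM := hYcard M htop
    -- the piece is not empty
    obtain ⟨Y', hY'⟩ : ∃ Y', Y' = Y M ∩ cyl (J M) (b M) := ⟨_, rfl⟩
    have hY'ne : Y'.Nonempty := by
      rw [nonempty_iff_ne_empty]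
      intro h0
      have h1 := hJ1 M
      rw [← hY', h0, card_empty, zero_pow (by omega), zero_mul] at h1
      have h2 : 0 < (Y M).card ^ q := Nat.pow_pos (lt_of_le_of_lt (Nat.zero_le _) hYM)
      omega
    have hdense : Dense (inS A) (Aᶜ ∪ J M) h (2 * w) Y' := by
      intro J' hJ' hd hc b'
      refine piece_bound hq (hc.trans hqh) ?_
      rw [hY']
      exact hJ2 M J' (fun u hu => inS_true.1 (hJ' u hu))
        (disjoint_of_subset_left subset_union_right hd) b'
    have hLamM : ∀ e, e ∈ hitS A B v f x0 B x.1 → e ∉ M →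
        e ∉ heavy f v2 (J M) ∧ e ∉ E0 := by
      intro e he heM
      have h1 : e ∉ Lam M := fun h => (disjoint_left.1 hdis) he h
      rw [hLam] at h1
      simp only [htop, if_false, mem_sdiff, not_and, not_not, mem_union] at h1
      constructor
      · intro h2
        exact heM (h1 (Or.inl h2))
      · intro h2
        exact heM (h1 (Or.inr h2))
    choose E hE1 hE2 using fun c => hgoal c x hx
    obtain ⟨E', hE'⟩ : ∃ E' : Fin m → Finset (Fin m), E' = fun c => (E c).filter fun e =>
        e ∈ hitS A B v f x0 B x.1 ∧ e ∉ M ∧ e ≠ c ∧ 2 * v ≤ (posn (inS A) true (f e)).card :=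
      ⟨_, rfl⟩
    obtain ⟨D', hD'⟩ : ∃ D' : Finset (Fin m), D' = univ.filter fun c : Fin m =>
        (c : ℕ) < m0 ∧ (∃ p, (f c).1 p = u) ∧ c ∉ E0 := ⟨_, rfl⟩
    have hfin := cnt_all (col := inS A) (J := Aᶜ ∪ J M) (b := bb M) (h := h) (v := vo) (κ := κ)
      (N := N) (B := Y') hY'ne (by rw [hY']; exact hsub M) hdense σ f x.1 D' E'
      (fun c _ => by
        rw [hE']
        exact (card_filter_le _ _).trans (hE1 c))
      (fun c hc e he => by
        rw [hD', mem_filter] at hc
        rw [hE', mem_filter] at he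
        obtain ⟨he0, he1, he2, he3, he4⟩ := he
        obtain ⟨h1, h2⟩ := hLamM e he1 he2
        have h3 : vo ≤ (svar (inS A) true (f e) \ (J M ∪ img σ (f c))).card := by
          refine svar_free (a1 := 2 * v2) (a2 := 2 * v2) ?_ ?_ (by omega)
          · unfold heavy at h1
            rw [mem_filter, not_and, not_le] at h1
            exact (h1 (mem_univ _)).le
          · exact (hov c e (Ne.symm he3) hc.2.2.2 h2).le
        refine h3.trans (card_le_card fun u' hu' => ?_)
        rw [mem_sdiff, mem_union, not_or] at hu' ⊢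
        refine ⟨hu'.1, ?_, hu'.2.2⟩
        rw [mem_union, not_or, mem_compl, not_not]
        exact ⟨inS_true.1 (svar_side hu'.1), hu'.2.1⟩)
      (fun y hy => by
        rw [hY', mem_inter, hY] at hy
        obtain ⟨y', hy', rfl⟩ := mem_image.1 hy.1
        rw [mem_filter] at hy'
        obtain ⟨-, ⟨hy1, hy2⟩, hy3⟩ := hy'
        have hlt : β y' < α x := lt_of_le_of_lt hy3 hcon
        obtain ⟨hzu, hzu'⟩ := hT x y' hlt
        -- a clause around `u` that is violated after the substitution
        obtain ⟨c, hc, hcE⟩ : ∃ c ∈ around f m0 u (σ.app (mix (inS A) x.1 y'.1)), c ∉ E0 := by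
          by_contra hno
          push Not at hno
          have h1 : around f m0 u (σ.app (mix (inS A) x.1 y'.1)) ⊆ E0 := fun c hc => hno c hc
          have h2 := card_le_card h1
          have h3 := hf.lower u (σ.app (mix (inS A) x.1 y'.1))
          omega
        unfold around at hc
        rw [mem_filter] at hc
        obtain ⟨-, hc1, ⟨p, hp⟩, hc3⟩ := hc
        obtain ⟨e, he, he1, he2⟩ := hE2 c y' hy1 hlt hc3
        refine ⟨c, ?_, hc3, e, ?_, ?_⟩
        · rw [hD', mem_filter]
          exact ⟨mem_univ _, hc1, ⟨p, hp⟩, hcE⟩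
        · rw [hE', mem_filter]
          refine ⟨he, he1, fun h => (disjoint_left.1 hy2) h he2, ?_, ?_⟩
          · rintro rfl
            have h1 := hc3 p
            rw [hp, hzu'] at h1
            have h2 : (f e).2 p = a := by
              revert h1
              cases a <;> cases (f e).2 p <;> simp
            rw [mem_hitS] at he1 he2
            unfold mix at hzu
            by_cases huA : u ∈ A
            · rw [if_pos (inS_true.2 huA)] at hzu
              have h3 := he2.2.1 p (by rw [hp]; exact inS_true.2 huA)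
              rw [hp, h2] at h3
              exact h3 hzu
            · rw [if_neg fun h => huA (inS_true.1 h)] at hzu
              by_cases huB : u ∈ B
              · have h3 := he1.2.1 p (by rw [hp]; exact inS_true.2 huB)
                rw [hp, h2] at h3
                exact h3 hzu
              · rw [hP _ x.2 u huB] at hzu
                exact he1.2.2 ⟨p, by rw [hp]; exact huA, by rw [hp]; exact huB, by
                  rw [hp, h2]
                  exact hzu⟩
          · exact (mem_hitS.1 he2).1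
        · exact (mem_hitS.1 he2).2.1)
      (fun y => by
        refine (card_le_card fun c hc => ?_).trans (hf.upper u (σ.app (mix (inS A) x.1 y)))
        rw [mem_filter, hD', mem_filter] at hc
        unfold around
        rw [mem_filter]
        exact ⟨mem_univ _, hc.1.2.1, hc.1.2.2.1, hc.2⟩)
    omega

end Pool.Agent.MP_9cec2c_lc.Redun
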