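import Pool.Agent.Lib.MP_9cec2c_lc.RQLine

/-!
The lower bound for refutations with subproofs, in terms of the parameters.
-/

set_option autoImplicit false
set_option linter.unusedSectionVars false

namespace Pool.Agent.MP_9cec2c_lc.RedDom

open Finset
open Pool.Agent.MP_9cec2c_lc.LovSch
open Pool.Agent.MP_9cec2c_lc.Redun (inS inS_true cyl mem_cyl card_cyl hitS mem_hitS hit_count_sub
  SatR app_family card_small BadP card_false sum_fixed Adm adm_clause card_adm app_full')

variable {n m w D : ℕ} {f : ClauseList n m w} {v R v2 r2 t0 m0 N d : ℕ} {A B : Finset (Fin n)}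
  {x0 : Fin n → Bool}

open scoped Classical in
theorem card_badP (hf : Good f v R v2 r2 t0 m0 N D d) {Z' : Finset (Fin n)}
    (hZ' : n ≤ D * Z'.card) : 8 * (univ.filter fun x => BadP f v Z' x).card ≤ 2 ^ n := by
  obtain ⟨I, hI⟩ : ∃ I : Finset (Fin m), I = univ.filter fun i =>
      (posn (inS Z') true (f i)).card < 2 * v := ⟨_, rfl⟩
  have h1 : (univ.filter fun x => BadP f v Z' x) ⊆ I.biUnion fun i =>
      univ.filter fun x => FalseOn (inS Z'ᶜ) true (f i) x := by
    intro x hx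
    obtain ⟨i, h1, h2⟩ := (mem_filter.1 hx).2
    refine mem_biUnion.2 ⟨i, ?_, mem_filter.2 ⟨mem_univ _, h2⟩⟩
    rw [hI]
    exact mem_filter.2 ⟨mem_univ _, h1⟩
  have h2 : ∀ i ∈ I, (univ.filter fun x => FalseOn (inS Z'ᶜ) true (f i) x).card *
      2 ^ (w - 2 * v) ≤ 2 ^ n := by
    intro i hi
    rw [hI, mem_filter] at hi
    refine le_trans (Nat.mul_le_mul_left _ (Nat.pow_le_pow_right (by norm_num) ?_))
      (card_false Z'ᶜ (f i))
    have h3 : (posn (inS Z') true (f i)).card + (posn (inS Z'ᶜ) true (f i)).card = w := by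
      unfold posn
      have h3 := card_filter_add_card_filter_not (s := (univ : Finset (Fin w)))
        (fun e => inS Z' ((f i).1 e) = true)
      rw [card_univ, Fintype.card_fin] at h3
      have h4 : ∀ e, (¬ inS Z' ((f i).1 e) = true) ↔ inS Z'ᶜ ((f i).1 e) = true := by
        intro e
        rw [inS_true, inS_true, mem_compl]
      simp only [h4] at h3
      exact h3
    omega
  have h3 := hf.poor Z' hZ'
  have h3' : 8 * I.card ≤ 2 ^ (w - 2 * v) := by
    rw [hI]
    exact h3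
  have h4 : (univ.filter fun x => BadP f v Z' x).card * 2 ^ (w - 2 * v) ≤ I.card * 2 ^ n := by
    calc (univ.filter fun x => BadP f v Z' x).card * 2 ^ (w - 2 * v)
        ≤ (∑ i ∈ I, (univ.filter fun x => FalseOn (inS Z'ᶜ) true (f i) x).card) *
          2 ^ (w - 2 * v) := Nat.mul_le_mul_right _ ((card_le_card h1).trans card_biUnion_le)
      _ = ∑ i ∈ I, (univ.filter fun x => FalseOn (inS Z'ᶜ) true (f i) x).card *
          2 ^ (w - 2 * v) := sum_mul _ _ _
      _ ≤ I.card * 2 ^ n := by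
          rw [← smul_eq_mul]
          exact sum_le_card_nsmul _ _ _ h2
  have h5 : 2 ^ (w - 2 * v) * (8 * (univ.filter fun x => BadP f v Z' x).card) ≤
      2 ^ (w - 2 * v) * 2 ^ n := by
    calc 2 ^ (w - 2 * v) * (8 * (univ.filter fun x => BadP f v Z' x).card)
        = 8 * ((univ.filter fun x => BadP f v Z' x).card * 2 ^ (w - 2 * v)) := by ring
      _ ≤ 8 * (I.card * 2 ^ n) := Nat.mul_le_mul_left _ h4
      _ = 8 * I.card * 2 ^ n := by ring
      _ ≤ 2 ^ (w - 2 * v) * 2 ^ n := Nat.mul_le_mul_right _ h3'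
  exact Nat.le_of_mul_le_mul_left h5 (by positivity)

open scoped Classical in
/-- A good assignment of the variables outside `A` and `B`. -/
theorem exists_x0 (hf : Good f v R v2 r2 t0 m0 N D d) (hA : n ≤ D * A.card)
    (hB : n ≤ D * B.card) : ∃ x0 : Fin n → Bool,
      4 * (univ.filter fun x => (∀ u, u ∉ A → x u = x0 u) ∧ BadP f v B x).card ≤ 2 ^ A.card ∧
      4 * (univ.filter fun x => (∀ u, u ∉ B → x u = x0 u) ∧ BadP f v A x).card ≤ 2 ^ B.card := by
  by_contra hcon
  push Not at hcon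
  have h1 : ∀ x0 : Fin n → Bool, 2 ^ A.card * 2 ^ B.card <
      4 * ((univ.filter fun x => (∀ u, u ∉ A → x u = x0 u) ∧ BadP f v B x).card * 2 ^ B.card +
      (univ.filter fun x => (∀ u, u ∉ B → x u = x0 u) ∧ BadP f v A x).card * 2 ^ A.card) := by
    intro x0
    by_cases h : 4 * (univ.filter fun x => (∀ u, u ∉ A → x u = x0 u) ∧ BadP f v B x).card ≤
        2 ^ A.card
    · refine lt_of_lt_of_le (Nat.mul_lt_mul_of_pos_left (hcon x0 h)
        (show 0 < 2 ^ A.card by positivity)) (le_trans (le_of_eq (by ring))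
        (Nat.mul_le_mul_left 4 (Nat.le_add_left _ _)))
    · push Not at h
      refine lt_of_lt_of_le (Nat.mul_lt_mul_of_pos_right h (show 0 < 2 ^ B.card by positivity))
        (le_trans (le_of_eq (by ring)) (Nat.mul_le_mul_left 4 (Nat.le_add_right _ _)))
  have h2 := sum_lt_sum_of_nonempty (s := (univ : Finset (Fin n → Bool))) univ_nonempty
    fun x0 _ => h1 x0
  rw [sum_const, card_univ, Fintype.card_fun, Fintype.card_fin, Fintype.card_bool, smul_eq_mul,
    ← mul_sum, sum_add_distrib, ← sum_mul, ← sum_mul, sum_fixed, sum_fixed] at h2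
  have h3 := card_badP hf hB
  have h4 := card_badP hf hA
  have h5 : 2 ^ A.card * 2 ^ B.card * (4 * ((univ.filter fun x => BadP f v B x).card +
      (univ.filter fun x => BadP f v A x).card)) ≤ 2 ^ A.card * 2 ^ B.card * 2 ^ n :=
    Nat.mul_le_mul_left _ (by omega)
  nlinarith

open scoped Classical in
/-- The lower bound in terms of the parameters. -/
theorem rq_core (hf : Good f v R v2 r2 t0 m0 N D d) (hD : 0 < D) (h2v2 : 2 * v2 ≤ w)
    {q z h k S vo kk r bU bV cU cV : ℕ}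
    (hq : 0 < q) (hr : 1 < r) (hrR : r ≤ R) (hAB : Disjoint A B) (hvRA : v * R ≤ A.card)
    (hvRB : v * R ≤ B.card) (hA : n ≤ D * A.card) (hB : n ≤ D * B.card)
    (hzA : z + 1 ≤ A.card) (hJ : q * (z + 1) ≤ v2 * r2) (hqh : w * D + w ≤ q * h)
    (hvo : vo + 2 * v2 + 2 * v2 ≤ 2 * v) (hnum : R * 2 ^ h * N < 2 ^ vo)
    (hkk : n * 2 ^ (D + 1) + k * 1 + k ≤ kk)
    (hbU : bU = (S * 1 + 1) * ((kk * R) ^ R * 2 ^ (B.card - v * R)))
    (hbV : bV = (S * 1 + 1) * (R ^ R * 2 ^ (A.card - v * R)))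
    (hbVm : (m + 1) * 2 ^ (w * D) * bV ≤ 2 ^ (A.card - (z + 1)))
    (hcU : cU = n * 2 ^ (D + 1) * 1 * ((m + 1) ^ r * (m * 2 ^ (w * D) * bU) +
        (r2 + t0) ^ r * 2 ^ (B.card - v * r)) +
      1 * ((m + 1) ^ r * bU + R ^ r * 2 ^ (B.card - v * r)) +
      1 * ((kk * r) ^ r * 2 ^ (B.card - v * r)))
    (hcV : cV = n * 2 ^ (D + 1) * 1 * (r ^ r * 2 ^ (A.card - v * r) +
        (m + 1) ^ r * 2 ^ (A.card - z)) +
      1 * (r ^ r * 2 ^ (A.card - v * r) + (m + 1) ^ r * 2 ^ (A.card - z)) +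
      1 * (r ^ r * 2 ^ (A.card - v * r)))
    (hSU : 4 * ((S + 1) * cU) < 2 ^ B.card) (hSV : 4 * ((S + 1) * cV) < 2 ^ A.card)
    (hk : 0 < k) (hrv : 4 * r < 2 ^ v) {H L : Fin S → (Fin n → Bool) → Prop}
    (href : IsRefutation k D d (toCNF f) (A : Set (Fin n)) B H L) : False := by
  obtain ⟨x0, hx1, hx2⟩ := exists_x0 hf hA hB
  have hvrA : v * r ≤ A.card := (Nat.mul_le_mul_left _ hrR).trans hvRA
  have hvrB : v * r ≤ B.card := (Nat.mul_le_mul_left _ hrR).trans hvRB
  have hsp := spread_mono hf.spread hrR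
  obtain ⟨P, hP⟩ : ∃ P : (Fin n → Bool) → Prop, P = Adm A B v f x0 B A := ⟨_, rfl⟩
  obtain ⟨Q, hQ⟩ : ∃ Q : (Fin n → Bool) → Prop, Q = Adm A B v f x0 A B := ⟨_, rfl⟩
  have hPA : ∀ x, P x → Adm A B v f x0 B A x := fun x h => by
    rw [hP] at h
    exact h
  have hQA : ∀ x, Q x → Adm A B v f x0 A B x := fun x h => by
    rw [hQ] at h
    exact h
  have hP1 : ∀ x, P x → ∀ u, u ∉ B → x u = x0 u := fun x h => (hPA x h).1
  have hQ1 : ∀ x, Q x → ∀ u, u ∉ A → x u = x0 u := fun x h => (hQA x h).1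
  have hcardP : 2 ^ B.card ≤ 2 * Fintype.card {x // P x} := by
    rw [hP]
    exact card_adm (fun u h1 h2 => ⟨h2, h1⟩) hx2
  have hcardQ : 2 ^ A.card ≤ 2 * Fintype.card {x // Q x} := by
    rw [hQ]
    exact card_adm (fun u h1 h2 => ⟨h1, h2⟩) hx1
  have hcl : ∀ x y, P x → Q y → ∀ i : Fin m, ¬ Holds (mix (inS A) x y) (cla f i) →
        i ∈ hitS A B v f x0 B x ∧ i ∈ hitS A B v f x0 A y :=
    fun x y hx hy i h => adm_clause hAB (hPA x hx) (hQA y hy) h
  choose α β hαβ using fun i => exists_tri (P := P) (Q := Q) hP1 hQ1 (href.1 i)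
  have main : ∀ N' : ℕ, N' ≤ S → ∃ (BU : Finset {x // P x})
      (BV : Finset {y // Q y}), BU.card ≤ N' * cU ∧ BV.card ≤ N' * cV ∧
        ∀ i : Fin S, (i : ℕ) < N' → (∀ x, H i x) → ∀ t, App (fun x => hitS A B v f x0 B x.1)
          (fun y => hitS A B v f x0 A y.1) r r BU BV (α i t) (β i t) := by
    intro N'
    induction N' with
    | zero =>
      intro _
      exact ⟨∅, ∅, by simp, by simp, fun i hi => absurd hi (by omega)⟩
    | succ N' ih =>
      intro hN'
      obtain ⟨BU, BV, h1, h2, h3⟩ := ih (by omega)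
      obtain ⟨i, hi⟩ : ∃ i : Fin S, (i : ℕ) = N' := ⟨⟨N', by omega⟩, rfl⟩
      by_cases hH : ∀ x, H i x
      · obtain ⟨BU', BV', g1, g2, g3, g4, g5⟩ := line_step hf hD h2v2 hq hr hrR hvRA hvRB hzA hJ hqh
          hvo hnum hkk hbU hbV hbVm hcU hcV hP1 hQ1 hcl hαβ href i hH (BU := BU) (BV := BV)
          (fun j hj => h3 j (by rw [Fin.lt_def] at hj; omega))
        refine ⟨BU', BV', ?_, ?_, fun j hj hjH => ?_⟩
        · rw [add_mul, one_mul]
          omega
        · rw [add_mul, one_mul]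
          omega
        · rcases Nat.lt_succ_iff_lt_or_eq.1 hj with hj | hj
          · exact fun t => (h3 j hj hjH t).mono g1 g2
          · have : j = i := Fin.ext (by rw [hj, hi])
            rw [this]
            exact g5
      · refine ⟨BU, BV, ?_, ?_, fun j hj hjH => ?_⟩
        · rw [add_mul, one_mul]
          omega
        · rw [add_mul, one_mul]
          omega
        · rcases Nat.lt_succ_iff_lt_or_eq.1 hj with hj | hj
          · exact h3 j hj hjH
          · have : j = i := Fin.ext (by rw [hj, hi])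
            rw [this] at hjH
            exact absurd hjH hH
  obtain ⟨BU, BV, h1, h2, h3⟩ := main S le_rfl
  obtain ⟨i0, hi0⟩ := href.2.1
  obtain ⟨BU', BV', g1, g2, g3, g4, g5⟩ := app_combine (α := fun _ => (1 : EReal))
    (β := fun _ => (0 : EReal)) (ι := Fin 1) (k := k) (CU := 2 ^ (B.card - v * r))
    (CV := 2 ^ (A.card - v * r)) (by rw [Fintype.card_fin]; omega)
    (by omega : 0 < r) (by omega : 0 < r)
    (fun M hM => hit_count_sub hsp hvrB hP1 le_rfl hM)
    (fun M hM => hit_count_sub hsp hvrA hQ1 le_rfl hM)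
    (a := α i0) (b := β i0)
    (fun t => h3 i0 i0.2 (fun x => (hi0 x).1) t)
    (fun x y _ => (hαβ i0 x y).1 (hi0 _).2)
  have hvB : v ≤ B.card := le_trans (Nat.le_mul_of_pos_right _ (by omega)) hvrB
  have e3 : 2 ^ B.card = 2 ^ (B.card - v) * 2 ^ v := by
    rw [← pow_add]
    congr 1
    omega
  have hkkk : k ≤ kk := by omega
  have k1 : BU'.card ≤ (S + 1) * cU := by
    have h4 : (k * r) ^ r * 2 ^ (B.card - v * r) ≤ cU := by
      rw [hcU]
      refine le_trans ?_ (Nat.le_add_left _ _)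
      rw [one_mul]
      exact Nat.mul_le_mul_right _ (Nat.pow_le_pow_left (Nat.mul_le_mul_right _ hkkk) _)
    rw [add_mul, one_mul]
    omega
  have k1' : BV'.card ≤ (S + 1) * cV := by
    have h4 : r ^ r * 2 ^ (A.card - v * r) ≤ cV := by
      rw [hcV]
      refine le_trans ?_ (Nat.le_add_left _ _)
      rw [one_mul]
    rw [add_mul, one_mul]
    omega
  have hBV : BV'.card < Fintype.card {y // Q y} := by
    have : 4 * BV'.card < 2 ^ A.card := lt_of_le_of_lt (Nat.mul_le_mul_left _ k1') hSV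
    omega
  have h5 := app_full' (c := 2 ^ (B.card - v)) (fun y e _ => by
      have k1 := hit_count_sub (A := A) (B := B) (f := f) hsp hvrB hP1 (M := {e}) (t := 1)
        (by omega) (card_singleton e)
      rw [mul_one] at k1
      simp only [singleton_subset_iff] at k1
      exact k1) g5 hBV
  have k2 : 4 * BU'.card < 2 ^ B.card := lt_of_le_of_lt (Nat.mul_le_mul_left _ k1) hSU
  have k3 : 4 * (r * 2 ^ (B.card - v)) < 2 ^ B.card := by
    rw [e3]
    calc 4 * (r * 2 ^ (B.card - v)) = 2 ^ (B.card - v) * (4 * r) := by ring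
      _ < 2 ^ (B.card - v) * 2 ^ v := Nat.mul_lt_mul_of_pos_left hrv (by positivity)
  omega

end Pool.Agent.MP_9cec2c_lc.RedDom
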