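import Pool.Agent.Lib.MP_9cec2c_lc.LRDefs

/-!
Refutations with the redundance and dominance rules, with subproofs, with lines of small
complexity.
-/

set_option autoImplicit false

namespace Pool.Agent.MP_9cec2c_lc.RedDom

open Pool.Agent.MP_9cec2c_lc.LovSch (Clause Holds)

/-- The Boolean function `T` is given by an inequality `0 ≤ a x + b x`, where the real function `a`
does not depend on the variables in `B`, and `b` does not depend on the variables in `A`. -/
def Simple {V : Type} (A B : Set V) (T : (V → Bool) → Prop) : Prop :=
  ∃ a b : (V → Bool) → ℝ, DependsOn a Bᶜ ∧ DependsOn b Aᶜ ∧ ∀ x, T x ↔ 0 ≤ a x + b x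

/-- Each value of the map `s` is a function of the variables outside `A` and of at most `D`
variables in `A`. -/
def IsLocal {V : Type} (D : ℕ) (A : Set V) (s : (V → Bool) → V → Bool) : Prop :=
  ∀ u, ∃ J : Finset V, J.card ≤ D ∧ DependsOn (fun x => s x u) (Aᶜ ∪ J)

/-- The line `j` states `L j` for the assignments with the property `H j`. For the assignments with
the property `N`, the property `Q` follows from at most `k` clauses of `F` and at most `k` lines
before the line `i`, which are stated for all assignments with the property `N`. -/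
def Follows {V : Type} (k : ℕ) (F : Finset (Clause V)) {S : ℕ} (H L : Fin S → (V → Bool) → Prop)
    (i : Fin S) (N Q : (V → Bool) → Prop) : Prop :=
  ∃ (P : Finset (Fin S)) (G : Finset (Clause V)), P.card ≤ k ∧ G.card ≤ k ∧ G ⊆ F ∧
    (∀ j ∈ P, j < i ∧ ∀ x, N x → H j x) ∧
    ∀ x, N x → (∀ j ∈ P, L j x) → (∀ C ∈ G, Holds x C) → Q x

/-- The lines form a refutation of `F`. The functions `L i` are simple. Some line without
hypothesis is false for all assignments. Each line follows under its hypothesis `H i`, or it has no
hypothesis, and there is a local map `s` such that contradictions follow from the hypothesis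
that `x` falsifies the line and `s x` falsifies `C`, for all but at most `d` clauses `C` of `F`, and
from the hypothesis that `x` falsifies the line and `s x = x`. -/
def IsRefutation {V : Type} (k D d : ℕ) (F : Finset (Clause V)) (A B : Set V) {S : ℕ}
    (H L : Fin S → (V → Bool) → Prop) : Prop :=
  (∀ i, Simple A B (L i)) ∧ (∃ i, ∀ x, H i x ∧ ¬ L i x) ∧ ∀ i,
    Follows k F H L i (H i) (L i) ∨
    (∀ x, H i x) ∧ ∃ (s : (V → Bool) → V → Bool) (E : Finset (Clause V)),
      IsLocal D A s ∧ E.card ≤ d ∧
      (∀ C ∈ F, C ∈ E ∨
        Follows k F H L i (fun x => ¬ L i x ∧ ¬ Holds (s x) C) fun _ => False) ∧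
      Follows k F H L i (fun x => ¬ L i x ∧ s x = x) fun _ => False

/-- The CNF `F` is unsatisfiable, and for any disjoint sets `A`, `B` of at least `n / D` variables
all its refutations have at least `s` lines. -/
def Hard {n : ℕ} (k D d s : ℕ) (F : Finset (Clause (Fin n))) : Prop :=
  (∀ x, ∃ B ∈ F, ¬ Holds x B) ∧
    ∀ (A B : Finset (Fin n)) (S : ℕ) (H L : Fin S → (Fin n → Bool) → Prop), Disjoint A B →
      n ≤ D * A.card → n ≤ D * B.card → IsRefutation k D d F A B H L → s ≤ S

end Pool.Agent.MP_9cec2c_lc.RedDom
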