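import Pool.Agent.Lib.MP_9cec2c_lc.RPCount
import Pool.Agent.Lib.MP_9cec2c_lc.RQDefs

/-!
Counting in a dense piece, for maps whose values depend on few variables of a set.
-/

set_option autoImplicit false
set_option linter.unusedSectionVars false

namespace Pool.Agent.MP_9cec2c_lc.RedDom

open Finset
open Pool.Agent.MP_9cec2c_lc.LovSch
open Pool.Agent.MP_9cec2c_lc.Redun (cyl mem_cyl card_cyl svar svar_side card_svar false_eq Dense)

variable {n m w D : ℕ}

/-- The variables that the values of a map depend on. -/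
abbrev IMap (n D : ℕ) : Type := Fin n → Fin D → Fin n

/-- The values of the variables that the values at the clause `c` depend on. -/
def pat (τ : IMap n D) (c : (Fin w ↪ Fin n) × (Fin w → Bool)) (z : Fin n → Bool) :
    Fin w → Fin D → Bool := fun e d => z (τ (c.1 e) d)

/-- The variables that the values at the variables of the clause `c` depend on. -/
def img (τ : IMap n D) (c : (Fin w ↪ Fin n) × (Fin w → Bool)) : Finset (Fin n) :=
  univ.image fun p : Fin w × Fin D => τ (c.1 p.1) p.2

theorem card_img (τ : IMap n D) (c : (Fin w ↪ Fin n) × (Fin w → Bool)) :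
    (img τ c).card ≤ w * D := by
  unfold img
  refine card_image_le.trans ?_
  rw [card_univ, Fintype.card_prod, Fintype.card_fin, Fintype.card_fin]

theorem pat_congr {τ : IMap n D} {c : (Fin w ↪ Fin n) × (Fin w → Bool)}
    {z z' : Fin n → Bool} (h : ∀ u ∈ img τ c, z u = z' u) : pat τ c z = pat τ c z' := by
  funext e d
  exact h _ (mem_image.2 ⟨(e, d), mem_univ _, rfl⟩)

theorem pat_eq {τ : IMap n D} {c : (Fin w ↪ Fin n) × (Fin w → Bool)}
    {z z' : Fin n → Bool} (h : pat τ c z = pat τ c z') {u : Fin n} (hu : u ∈ img τ c) :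
    z u = z' u := by
  obtain ⟨⟨e, d⟩, -, rfl⟩ := mem_image.1 hu
  exact congrFun (congrFun h e) d

open scoped Classical in
/-- The count for one clause, one pattern and one constraint. -/
theorem cnt_one {col : Fin n → Bool} {J : Finset (Fin n)} {b : Fin n → Bool} {h v : ℕ}
    {B : Finset (Fin n → Bool)} (hBJ : B ⊆ cyl J b)
    (hd : Dense col J h (w * D + w) B) (τ : IMap n D)
    (c e : (Fin w ↪ Fin n) × (Fin w → Bool)) (x : Fin n → Bool) (π : Fin w → Fin D → Bool)
    (hov : v ≤ (svar col true e \ (J ∪ img τ c)).card) :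
    (B.filter fun y => pat τ c (mix col x y) = π ∧ FalseOn col true e y).card *
      (2 ^ v * (cyl J b).card) ≤
      B.card * 2 ^ h * ((cyl J b).filter fun y => pat τ c (mix col x y) = π).card := by
  rcases (B.filter fun y => pat τ c (mix col x y) = π ∧
    FalseOn col true e y).eq_empty_or_nonempty with h0 | ⟨y0, hy0⟩
  · rw [h0, card_empty, zero_mul]
    exact Nat.zero_le _
  rw [mem_filter] at hy0
  obtain ⟨hy0B, hy0V, hy0F⟩ := hy0
  obtain ⟨J1, hJ1⟩ : ∃ J1, J1 = ((img τ c).filter fun u => col u = true) \ J := ⟨_, rfl⟩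
  obtain ⟨J3, hJ3⟩ : ∃ J3, J3 = svar col true e \ (J ∪ img τ c) := ⟨_, rfl⟩
  have hJ1d : Disjoint J J1 := by
    rw [hJ1]
    exact disjoint_sdiff
  have hJ3d : Disjoint J J3 := by
    rw [disjoint_left]
    intro u hu hu3
    rw [hJ3, mem_sdiff, mem_union, not_or] at hu3
    exact hu3.2.1 hu
  have hJ13 : Disjoint J1 J3 := by
    rw [disjoint_left]
    intro u hu hu3
    rw [hJ1, mem_sdiff, mem_filter] at hu
    rw [hJ3, mem_sdiff, mem_union, not_or] at hu3
    exact hu3.2.2 hu.1.1
  have hJ1c : J1.card ≤ w * D := by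
    rw [hJ1]
    exact (card_le_card (sdiff_subset.trans (filter_subset _ _))).trans (card_img τ c)
  have hJ3c : J3.card ≤ w := by
    rw [hJ3]
    refine (card_le_card sdiff_subset).trans ?_
    rw [card_svar]
    unfold posn
    refine (card_filter_le _ _).trans ?_
    rw [card_univ, Fintype.card_fin]
  -- the pieces of the two sets
  have h1 : (B.filter fun y => pat τ c (mix col x y) = π ∧ FalseOn col true e y) ⊆
      B ∩ cyl (J1 ∪ J3) y0 := by
    intro y hy
    rw [mem_filter] at hy
    rw [mem_inter, mem_cyl]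
    refine ⟨hy.1, fun u hu => ?_⟩
    rcases mem_union.1 hu with hu | hu
    · rw [hJ1, mem_sdiff, mem_filter] at hu
      have := pat_eq (hy.2.1.trans hy0V.symm) hu.1.1
      unfold mix at this
      simpa [hu.1.2] using this
    · rw [hJ3, mem_sdiff] at hu
      exact false_eq hy.2.2 hy0F hu.1
  have h2 : cyl (J ∪ J1) y0 ⊆ (cyl J b).filter fun y => pat τ c (mix col x y) = π := by
    intro y hy
    rw [mem_cyl] at hy
    rw [mem_filter, mem_cyl]
    refine ⟨fun u hu => ?_, ?_⟩
    · rw [hy u (mem_union_left _ hu)]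
      exact mem_cyl.1 (hBJ hy0B) u hu
    · rw [← hy0V]
      refine pat_congr fun u hu => ?_
      unfold mix
      cases hc : col u
      · simp
      · simp only [if_true]
        by_cases huJ : u ∈ J
        · exact hy u (mem_union_left _ huJ)
        · refine hy u (mem_union_right _ ?_)
          rw [hJ1, mem_sdiff, mem_filter]
          exact ⟨⟨hu, hc⟩, huJ⟩
  have h3 : (cyl J b).card = (cyl (J ∪ J1) y0).card * 2 ^ J1.card := by
    have e1 := card_cyl J b
    have e2 := card_cyl (J ∪ J1) y0
    rw [card_union_of_disjoint hJ1d, pow_add] at e2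
    have e3 : (cyl J b).card * 2 ^ J.card = (cyl (J ∪ J1) y0).card * 2 ^ J1.card * 2 ^ J.card := by
      rw [e1, ← e2]
      ring
    exact Nat.eq_of_mul_eq_mul_right (by positivity) e3
  have h4 := hd (J1 ∪ J3) (fun u hu => by
    rcases mem_union.1 hu with hu | hu
    · rw [hJ1, mem_sdiff, mem_filter] at hu
      exact hu.1.2
    · rw [hJ3, mem_sdiff] at hu
      exact svar_side hu.1) (disjoint_union_right.2 ⟨hJ1d, hJ3d⟩) (by
        rw [card_union_of_disjoint hJ13]
        omega) y0
  rw [card_union_of_disjoint hJ13] at h4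
  have h5 : 2 ^ (J1.card + v) ≤ 2 ^ (J1.card + J3.card) :=
    Nat.pow_le_pow_right (by norm_num) (by rw [← hJ3] at hov; omega)
  calc (B.filter fun y => pat τ c (mix col x y) = π ∧ FalseOn col true e y).card *
      (2 ^ v * (cyl J b).card)
      ≤ (B ∩ cyl (J1 ∪ J3) y0).card * (2 ^ v * ((cyl (J ∪ J1) y0).card * 2 ^ J1.card)) := by
        rw [h3]
        exact Nat.mul_le_mul_right _ (card_le_card h1)
    _ = (B ∩ cyl (J1 ∪ J3) y0).card * 2 ^ (J1.card + v) * (cyl (J ∪ J1) y0).card := by
        rw [pow_add]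
        ring
    _ ≤ (B ∩ cyl (J1 ∪ J3) y0).card * 2 ^ (J1.card + J3.card) * (cyl (J ∪ J1) y0).card :=
        Nat.mul_le_mul_right _ (Nat.mul_le_mul_left _ h5)
    _ ≤ B.card * 2 ^ h * (cyl (J ∪ J1) y0).card := Nat.mul_le_mul_right _ h4
    _ ≤ B.card * 2 ^ h * ((cyl J b).filter fun y => pat τ c (mix col x y) = π).card :=
        Nat.mul_le_mul_left _ (card_le_card h2)

open scoped Classical in
/-- The count for all clauses. -/
theorem cnt_all {col : Fin n → Bool} {J : Finset (Fin n)} {b : Fin n → Bool} {h v κ N : ℕ}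
    {B : Finset (Fin n → Bool)} (hB : B.Nonempty) (hBJ : B ⊆ cyl J b)
    (hd : Dense col J h (w * D + w) B) (τ : IMap n D) (f : ClauseList n m w)
    (x : Fin n → Bool) (Δ : Finset (Fin m)) (W : Fin m → (Fin w → Fin D → Bool) → Prop)
    (E : Fin m → (Fin w → Fin D → Bool) → Finset (Fin m))
    (hE : ∀ c ∈ Δ, ∀ π, (E c π).card ≤ κ)
    (hov : ∀ c ∈ Δ, ∀ π, ∀ e ∈ E c π, v ≤ (svar col true (f e) \ (J ∪ img τ (f c))).card)
    (hcov : ∀ y ∈ B, ∃ c ∈ Δ, W c (pat τ (f c) (mix col x y)) ∧
      ∃ e ∈ E c (pat τ (f c) (mix col x y)), FalseOn col true (f e) y)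
    (hN : ∀ y, (Δ.filter fun c => W c (pat τ (f c) (mix col x y))).card ≤ N) :
    2 ^ v ≤ κ * 2 ^ h * N := by
  have hJ : 0 < (cyl J b).card := by
    obtain ⟨y, hy⟩ := hB
    exact card_pos.2 ⟨y, hBJ hy⟩
  have h1 : B.card ≤ ∑ c ∈ Δ, ∑ π ∈ univ.filter (W c), ∑ e ∈ E c π,
      (B.filter fun y => pat τ (f c) (mix col x y) = π ∧ FalseOn col true (f e) y).card := by
    have h2 : B ⊆ Δ.biUnion fun c => (univ.filter (W c)).biUnion fun π => (E c π).biUnion fun e =>
        B.filter fun y => pat τ (f c) (mix col x y) = π ∧ FalseOn col true (f e) y := by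
      intro y hy
      obtain ⟨c, hc, hc', e, he, he'⟩ := hcov y hy
      rw [mem_biUnion]
      refine ⟨c, hc, ?_⟩
      rw [mem_biUnion]
      refine ⟨_, mem_filter.2 ⟨mem_univ _, hc'⟩, ?_⟩
      rw [mem_biUnion]
      exact ⟨e, he, mem_filter.2 ⟨hy, rfl, he'⟩⟩
    refine (card_le_card h2).trans (card_biUnion_le.trans (sum_le_sum fun c _ => ?_))
    refine card_biUnion_le.trans (sum_le_sum fun π _ => ?_)
    exact card_biUnion_le
  have hfib : ∀ c, ∑ π ∈ univ.filter (W c),
      ((cyl J b).filter fun y => pat τ (f c) (mix col x y) = π).card =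
      ((cyl J b).filter fun y => W c (pat τ (f c) (mix col x y))).card := by
    intro c
    rw [card_eq_sum_card_fiberwise (f := fun y => pat τ (f c) (mix col x y))
      (t := univ.filter (W c)) (fun y hy => by
        rw [mem_coe, mem_filter] at hy ⊢
        exact ⟨mem_univ _, hy.2⟩)]
    refine sum_congr rfl fun π hπ => ?_
    congr 1
    ext y
    rw [mem_filter, mem_filter, mem_filter]
    rw [mem_filter] at hπ
    constructor
    · rintro ⟨h2, h3⟩
      exact ⟨⟨h2, by rw [h3]; exact hπ.2⟩, h3⟩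
    · rintro ⟨⟨h2, -⟩, h3⟩
      exact ⟨h2, h3⟩
  have h3 : B.card * (2 ^ v * (cyl J b).card) ≤
      κ * (B.card * 2 ^ h) * (N * (cyl J b).card) := by
    calc B.card * (2 ^ v * (cyl J b).card)
        ≤ (∑ c ∈ Δ, ∑ π ∈ univ.filter (W c), ∑ e ∈ E c π,
            (B.filter fun y => pat τ (f c) (mix col x y) = π ∧
              FalseOn col true (f e) y).card) * (2 ^ v * (cyl J b).card) :=
          Nat.mul_le_mul_right _ h1
      _ = ∑ c ∈ Δ, ∑ π ∈ univ.filter (W c), ∑ e ∈ E c π,
            (B.filter fun y => pat τ (f c) (mix col x y) = π ∧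
              FalseOn col true (f e) y).card * (2 ^ v * (cyl J b).card) := by
          rw [sum_mul]
          refine sum_congr rfl fun c _ => ?_
          rw [sum_mul]
          exact sum_congr rfl fun π _ => sum_mul _ _ _
      _ ≤ ∑ c ∈ Δ, ∑ π ∈ univ.filter (W c), ∑ e ∈ E c π, B.card * 2 ^ h *
            ((cyl J b).filter fun y => pat τ (f c) (mix col x y) = π).card :=
          sum_le_sum fun c hc => sum_le_sum fun π _ => sum_le_sum fun e he =>
            cnt_one hBJ hd τ (f c) (f e) x π (hov c hc π e he)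
      _ ≤ ∑ c ∈ Δ, ∑ π ∈ univ.filter (W c), κ * (B.card * 2 ^ h *
            ((cyl J b).filter fun y => pat τ (f c) (mix col x y) = π).card) := by
          refine sum_le_sum fun c hc => sum_le_sum fun π _ => ?_
          rw [sum_const, smul_eq_mul]
          exact Nat.mul_le_mul_right _ (hE c hc π)
      _ = κ * (B.card * 2 ^ h) *
            ∑ c ∈ Δ, ((cyl J b).filter fun y => W c (pat τ (f c) (mix col x y))).card := by
          rw [mul_sum]
          refine sum_congr rfl fun c _ => ?_
          rw [← hfib c, mul_sum]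
          exact sum_congr rfl fun π _ => by ring
      _ = κ * (B.card * 2 ^ h) *
            ∑ y ∈ cyl J b, (Δ.filter fun c => W c (pat τ (f c) (mix col x y))).card := by
          congr 1
          simp only [card_filter]
          exact sum_comm
      _ ≤ κ * (B.card * 2 ^ h) * (N * (cyl J b).card) := by
          refine Nat.mul_le_mul_left _ ?_
          refine (sum_le_card_nsmul _ _ N fun y _ => hN y).trans ?_
          rw [smul_eq_mul, mul_comm]
  have h4 : 2 ^ v * (B.card * (cyl J b).card) ≤ κ * 2 ^ h * N * (B.card * (cyl J b).card) := by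
    calc 2 ^ v * (B.card * (cyl J b).card) = B.card * (2 ^ v * (cyl J b).card) := by ring
      _ ≤ κ * (B.card * 2 ^ h) * (N * (cyl J b).card) := h3
      _ = κ * 2 ^ h * N * (B.card * (cyl J b).card) := by ring
  exact Nat.le_of_mul_le_mul_right h4 (Nat.mul_pos hB.card_pos hJ)

end Pool.Agent.MP_9cec2c_lc.RedDom
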