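import Pool.Agent.Lib.MP_9cec2c_lc.RQCore

/-!
The deterministic part of the lower bound for refutations with subproofs.
-/

set_option autoImplicit false
set_option linter.unusedSectionVars false

namespace Pool.Agent.MP_9cec2c_lc.RedDom

open Finset
open Pool.Agent.MP_9cec2c_lc.LovSch (ClauseList toCNF Spread Clause Holds posn)

variable {n m w : ℕ}

theorem four_sq {k : ℕ} (hk : 1024 ≤ k) : 4 * (k * k) + 3 * k ≤ k * (k * k) := by
  have h1 : k ≤ k * k := Nat.le_mul_of_pos_left _ (by omega)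
  calc 4 * (k * k) + 3 * k ≤ 7 * (k * k) := by omega
    _ ≤ k * (k * k) := Nat.mul_le_mul_right _ (by omega)

/-- The deterministic part of the lower bound. -/
theorem rq_det {D d Ac K k v v2 h r R r2 t0 m0 : ℕ} (hD : 0 < D) (h2D : 2 ^ D ≤ Ac)
    (hAc : 3 * 8388608 * D ^ 5 ≤ Ac) (hK : K = 1024 * (Ac * D))
    (hn : K ≤ n) (hk : n ≤ k) (hw : k ^ K ≤ 2 ^ w) (hwK' : K ≤ w) (hwn : K * w ≤ n)
    (hm : m ≤ 3 ^ w) (hv : v = w / (64 * D ^ 2)) (hv2 : v2 = v / 4) (hh : h = v / 4)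
    (hr : r = n / (Ac * v)) (hR : R = 1024 * (D ^ 2 * r)) (hr2 : r2 = 8388608 * (D ^ 5 * r))
    (ht0 : t0 = n / 4) {f : ClauseList n m w} (hf : Good f v R v2 r2 t0 m0 (n ^ 4) D d)
    (A B : Finset (Fin n)) (S : ℕ) (H L : Fin S → (Fin n → Bool) → Prop) (hAB : Disjoint A B)
    (hA : n ≤ D * A.card) (hB : n ≤ D * B.card)
    (href : IsRefutation k D d (toCNF f) (A : Set (Fin n)) B H L) : 2 ^ (n / K) ≤ S := by
  by_contra hcon
  push Not at hcon
  have hD2 : 0 < D ^ 2 := by positivity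
  have hD25 : D ^ 2 ≤ D ^ 5 := Nat.pow_le_pow_right hD (by norm_num)
  have hD35 : D ^ 3 ≤ D ^ 5 := Nat.pow_le_pow_right hD (by norm_num)
  have hD15 : D ≤ D ^ 5 := by
    calc D = D ^ 1 := (pow_one D).symm
      _ ≤ D ^ 5 := Nat.pow_le_pow_right hD (by norm_num)
  have hD5 : 1 ≤ D ^ 5 := Nat.one_le_pow _ _ hD
  have hAcD : Ac ≤ Ac * D := Nat.le_mul_of_pos_right _ hD
  have hk3 : 1024 ≤ k := by omega
  have hv16 : 16 ≤ v := by
    rw [hv, Nat.le_div_iff_mul_le (by positivity)]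
    omega
  have hwv : w ≤ 128 * (D ^ 2 * v) := by
    have h1 := Nat.div_add_mod w (64 * D ^ 2)
    have h2 := Nat.mod_lt w (show 0 < 64 * D ^ 2 by positivity)
    rw [← hv] at h1
    have h3 : 64 * D ^ 2 * v = 64 * (D ^ 2 * v) := by ring
    have h4 : D ^ 2 ≤ D ^ 2 * v := Nat.le_mul_of_pos_right _ (by omega)
    omega
  have hvw : v ≤ w := by
    rw [hv]
    exact Nat.div_le_self _ _
  have hv28 : v ≤ 8 * v2 := by omega
  have hh8 : v ≤ 8 * h := by omega
  have hAv : Ac * v * (1024 * D) ≤ n := by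
    calc Ac * v * (1024 * D) = K * v := by rw [hK]; ring
      _ ≤ K * w := Nat.mul_le_mul_left _ hvw
      _ ≤ n := hwn
  have hAv0 : 0 < Ac * v := Nat.mul_pos (by omega) (by omega)
  have hAv1 : Ac * v * 1024 ≤ n := le_trans (Nat.mul_le_mul_left _ (by omega)) hAv
  have hrD : 1024 * D ≤ r := by
    rw [hr, Nat.le_div_iff_mul_le hAv0, mul_comm]
    exact hAv
  have hr1 : 1 < r := by omega
  have hwD : w * D ≤ w * r := Nat.mul_le_mul_left _ (by omega)
  have hmod := Nat.div_add_mod n (Ac * v)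
  have hlt := Nat.mod_lt n hAv0
  rw [← hr] at hmod
  have hAvr : Ac * (v * r) ≤ n := by
    have e1 : Ac * v * r = Ac * (v * r) := by ring
    omega
  have hvr2 : n ≤ 2 * (Ac * (v * r)) := by
    have e1 : Ac * v * r = Ac * (v * r) := by ring
    omega
  -- the basic unit
  obtain ⟨X, hX⟩ : ∃ X, X = D ^ 2 * (v * r) := ⟨_, rfl⟩
  have hvrX : v * r ≤ X := by
    rw [hX]
    exact Nat.le_mul_of_pos_left _ hD2
  have hvvr : v ≤ v * r := Nat.le_mul_of_pos_right _ (by omega)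
  have hrvr : r ≤ v * r := Nat.le_mul_of_pos_left _ (by omega)
  have hwr : w * r ≤ 128 * X := by
    calc w * r ≤ 128 * (D ^ 2 * v) * r := Nat.mul_le_mul_right _ hwv
      _ = 128 * X := by rw [hX]; ring
  have hwwr : w ≤ w * r := Nat.le_mul_of_pos_right _ (by omega)
  have hvR : v * R = 1024 * X := by
    rw [hR, hX]
    ring
  have hrR : r ≤ R := by
    rw [hR]
    have : r ≤ D ^ 2 * r := Nat.le_mul_of_pos_left _ hD2
    omega
  -- sets of at least `n / D` variables are large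
  have hset : ∀ Y Z : ℕ, D * Y ≤ Ac * (v * r) → n ≤ D * Z → Y ≤ Z := by
    intro Y Z h1 h2
    exact Nat.le_of_mul_le_mul_left (h1.trans (hAvr.trans h2)) hD
  have hDX : D * (1024 * X) ≤ Ac * (v * r) := by
    calc D * (1024 * X) = 1024 * D ^ 3 * (v * r) := by rw [hX]; ring
      _ ≤ Ac * (v * r) := Nat.mul_le_mul_right _ (by omega)
  have hXn : 1024 * X ≤ n := le_trans (Nat.le_mul_of_pos_left _ hD) (hDX.trans hAvr)
  have hvRA : v * R ≤ A.card := hset _ _ (by rw [hvR]; exact hDX) hA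
  have hvRB : v * R ≤ B.card := hset _ _ (by rw [hvR]; exact hDX) hB
  have hRk : R ≤ k := by
    have h1 : R ≤ v * R := Nat.le_mul_of_pos_left _ (by omega)
    omega
  have hrk : r ≤ k := hrR.trans hRk
  obtain ⟨z, hz⟩ : ∃ z, z = 2 * (w * r) + v * r := ⟨_, rfl⟩
  have hzX : z + 1 ≤ 512 * X := by
    have : 1 ≤ v * r := by omega
    omega
  have hzA : z + 1 ≤ A.card := by
    rw [hvR] at hvRA
    omega
  have hvrA : v * r ≤ A.card := by
    rw [hvR] at hvRA
    omega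
  have hvrB : v * r ≤ B.card := by
    rw [hvR] at hvRB
    omega
  have hr2n : r2 + t0 ≤ n := by
    have h1 : 3 * 8388608 * D ^ 5 * (v * r) ≤ Ac * (v * r) := Nat.mul_le_mul_right _ hAc
    have h2 : D ^ 5 * r ≤ D ^ 5 * (v * r) := Nat.mul_le_mul_left _ hrvr
    have h3 : 3 * 8388608 * D ^ 5 * (v * r) = 3 * 8388608 * (D ^ 5 * (v * r)) := by ring
    omega
  -- powers of `k`
  have h2v : k ^ 40 ≤ 2 ^ v := by
    have h1 : (k ^ 40) ^ (128 * D ^ 2) ≤ (2 ^ v) ^ (128 * D ^ 2) := by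
      rw [← pow_mul, ← pow_mul]
      refine le_trans (Nat.pow_le_pow_right (by omega) (by omega)) (hw.trans
        (Nat.pow_le_pow_right (by norm_num) ?_))
      have : v * (128 * D ^ 2) = 128 * (D ^ 2 * v) := by ring
      omega
    exact (Nat.pow_le_pow_iff_left (by positivity)).1 h1
  have hkey : ∀ a b c : ℕ, 40 * a + v * b ≤ 40 * c → 2 ^ a * k ^ b ≤ 2 ^ c := by
    intro a b c habc
    have h1 : (2 ^ a * k ^ b) ^ 40 ≤ (2 ^ c) ^ 40 := by
      calc (2 ^ a * k ^ b) ^ 40 = 2 ^ (40 * a) * (k ^ 40) ^ b := by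
            rw [mul_pow, ← pow_mul, ← pow_mul, ← pow_mul, mul_comm a 40, mul_comm b 40]
        _ ≤ 2 ^ (40 * a) * (2 ^ v) ^ b := by gcongr
        _ = 2 ^ (40 * a + v * b) := by rw [← pow_mul, ← pow_add]
        _ ≤ 2 ^ (40 * c) := Nat.pow_le_pow_right (by norm_num) habc
        _ = (2 ^ c) ^ 40 := by rw [← pow_mul, mul_comm]
    exact (Nat.pow_le_pow_iff_left (by norm_num)).1 h1
  obtain ⟨q, hq⟩ : ∃ q, q = n / K := ⟨_, rfl⟩
  have hKq : K * q ≤ n := by
    rw [hq]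
    exact Nat.mul_div_le n K
  rw [← hq] at hcon
  have hAc0 : 0 < Ac := by omega
  have hq1 : 512 * q ≤ v * r := by
    have e1 : Ac * (1024 * (D * q)) ≤ Ac * (2 * (v * r)) := by
      calc Ac * (1024 * (D * q)) = K * q := by rw [hK]; ring
        _ ≤ n := hKq
        _ ≤ 2 * (Ac * (v * r)) := hvr2
        _ = Ac * (2 * (v * r)) := by ring
    have e2 := Nat.le_of_mul_le_mul_left e1 hAc0
    have e3 : q ≤ D * q := Nat.le_mul_of_pos_left _ hD
    omega
  have hq2 : 512 ≤ v * r := by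
    have e1 : Ac * (1024 * D) ≤ Ac * (2 * (v * r)) := by
      calc Ac * (1024 * D) = K := by rw [hK]; ring
        _ ≤ n := hn
        _ ≤ 2 * (Ac * (v * r)) := hvr2
        _ = Ac * (2 * (v * r)) := by ring
    have := Nat.le_of_mul_le_mul_left e1 hAc0
    omega
  have hSk : S * 1 + 1 ≤ 2 ^ q * k := by
    calc S * 1 + 1 = (S + 1) * 1 := by ring
      _ ≤ 2 ^ q * k := Nat.mul_le_mul hcon (by omega)
  have hm1 : m + 1 ≤ 2 ^ (2 * w) := by
    have h3 : (3 : ℕ) ^ w + 1 ≤ 4 ^ w := Nat.pow_lt_pow_left (by norm_num) (by omega)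
    have h4 : (4 : ℕ) ^ w = 2 ^ (2 * w) := by
      rw [pow_mul]
      norm_num
    omega
  have hm1r : (m + 1) ^ r ≤ 2 ^ (2 * (w * r)) := by
    calc (m + 1) ^ r ≤ (2 ^ (2 * w)) ^ r := Nat.pow_le_pow_left hm1 _
      _ = 2 ^ (2 * (w * r)) := by
          rw [← pow_mul]
          congr 1
          ring
  -- a bound for the two sums
  have hsum : ∀ Y : ℕ, Y ≤ k ^ (8 * r) → 4 * ((S + 1) * Y) < 2 ^ (v * r) := by
    intro Y hY
    have hle : 4 * ((S + 1) * Y) ≤ 2 ^ (q + 2) * k ^ (8 * r) := by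
      calc 4 * ((S + 1) * Y) ≤ 4 * (2 ^ q * k ^ (8 * r)) :=
            Nat.mul_le_mul_left _ (Nat.mul_le_mul (by omega) hY)
        _ = 2 ^ (q + 2) * k ^ (8 * r) := by
            rw [pow_add 2 q 2]
            ring
    refine lt_of_le_of_lt (hle.trans (hkey _ _ (v * r - 1) ?_))
      (Nat.pow_lt_pow_right (by norm_num) (by omega))
    have h1 : v * (8 * r) = 8 * (v * r) := by ring
    rw [h1]
    omega
  have h2Dk : n * 2 ^ (D + 1) ≤ 2 * (k * k) := by
    have h1 : 2 ^ D ≤ k := by omega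
    calc n * 2 ^ (D + 1) = 2 * (n * 2 ^ D) := by ring
      _ ≤ 2 * (k * k) := Nat.mul_le_mul_left _ (Nat.mul_le_mul hk h1)
  obtain ⟨kk, hkk⟩ : ∃ kk, kk = 4 * (k * k) := ⟨_, rfl⟩
  have hkk1 : k ≤ k * k := Nat.le_mul_of_pos_left _ (by omega)
  have hkkR : ∀ y, y ≤ k → kk * y ≤ k ^ 4 := by
    intro y hy
    calc kk * y ≤ 4 * (k * k) * k := by
          rw [hkk]
          exact Nat.mul_le_mul_left _ hy
      _ ≤ k * (k * k) * k := Nat.mul_le_mul_right _ (Nat.mul_le_mul_right _ (by omega))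
      _ = k ^ 4 := by ring
  obtain ⟨bU, hbU⟩ : ∃ bU, bU = (S * 1 + 1) * ((kk * R) ^ R * 2 ^ (B.card - v * R)) := ⟨_, rfl⟩
  obtain ⟨bV, hbV⟩ : ∃ bV, bV = (S * 1 + 1) * (R ^ R * 2 ^ (A.card - v * R)) := ⟨_, rfl⟩
  have hvRr : v * (4 * R + 1) = 4 * (1024 * X) + v := by
    rw [← hvR]
    ring
  have hvRr' : v * (R + 1) = 1024 * X + v := by
    rw [← hvR]
    ring
  have hbVm : (m + 1) * 2 ^ (w * D) * bV ≤ 2 ^ (A.card - (z + 1)) := by
    have h1 : 2 ^ (2 * w + w * D + q) * k ^ (R + 1) ≤ 2 ^ (1024 * X - (z + 1)) := by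
      refine hkey _ _ _ ?_
      rw [hvRr']
      omega
    calc (m + 1) * 2 ^ (w * D) * bV
        ≤ 2 ^ (2 * w) * 2 ^ (w * D) * (2 ^ q * k * (k ^ R * 2 ^ (A.card - v * R))) := by
          rw [hbV]
          gcongr
      _ = 2 ^ (2 * w + w * D + q) * k ^ (R + 1) * 2 ^ (A.card - v * R) := by
          rw [pow_add 2 (2 * w + w * D) q, pow_add 2 (2 * w) (w * D)]
          ring
      _ ≤ 2 ^ (1024 * X - (z + 1)) * 2 ^ (A.card - v * R) := Nat.mul_le_mul_right _ h1
      _ = 2 ^ (A.card - (z + 1)) := by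
          rw [← pow_add]
          congr 1
          rw [hvR] at hvRA ⊢
          omega
  have hG : (m + 1) ^ r * ((m + 1) * 2 ^ (w * D) * bU) ≤ 2 ^ (B.card - v * r) := by
    have h1 : 2 ^ (2 * (w * r) + 2 * w + w * D + q) * k ^ (4 * R + 1) ≤
        2 ^ (1024 * X - v * r) := by
      refine hkey _ _ _ ?_
      rw [hvRr]
      omega
    calc (m + 1) ^ r * ((m + 1) * 2 ^ (w * D) * bU)
        ≤ 2 ^ (2 * (w * r)) * (2 ^ (2 * w) * 2 ^ (w * D) * (2 ^ q * k * ((k ^ 4) ^ R *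
          2 ^ (B.card - v * R)))) := by
          rw [hbU]
          gcongr
          exact hkkR R hRk
      _ = 2 ^ (2 * (w * r) + 2 * w + w * D + q) * k ^ (4 * R + 1) * 2 ^ (B.card - v * R) := by
          rw [← pow_mul k 4 R, pow_add 2 (2 * (w * r) + 2 * w + w * D) q,
            pow_add 2 (2 * (w * r) + 2 * w) (w * D), pow_add 2 (2 * (w * r)) (2 * w)]
          ring
      _ ≤ 2 ^ (1024 * X - v * r) * 2 ^ (B.card - v * R) := Nat.mul_le_mul_right _ h1
      _ = 2 ^ (B.card - v * r) := by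
          rw [← pow_add]
          congr 1
          rw [hvR] at hvRB ⊢
          omega
  have hG1 : (m + 1) ^ r * (m * 2 ^ (w * D) * bU) ≤ 2 ^ (B.card - v * r) :=
    le_trans (Nat.mul_le_mul_left _ (Nat.mul_le_mul_right _ (Nat.mul_le_mul_right _
      (Nat.le_succ m)))) hG
  have hG2 : (m + 1) ^ r * bU ≤ 2 ^ (B.card - v * r) :=
    le_trans (Nat.mul_le_mul_left _ (Nat.le_mul_of_pos_left _ (by positivity))) hG
  have hG3 : (m + 1) ^ r * 2 ^ (A.card - z) ≤ 2 ^ (A.card - v * r) := by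
    calc (m + 1) ^ r * 2 ^ (A.card - z) ≤ 2 ^ (2 * (w * r)) * 2 ^ (A.card - z) :=
          Nat.mul_le_mul_right _ hm1r
      _ = 2 ^ (A.card - v * r) := by
          rw [← pow_add]
          congr 1
          omega
  have hkr : 1 ≤ k ^ r := Nat.one_le_pow _ _ (by omega)
  have hk0 : 0 < k := by omega
  have h2Dk' : n * 2 ^ (D + 1) * 1 ≤ 2 * k * k := by
    rw [mul_one, mul_assoc]
    exact h2Dk
  refine rq_core (q := 2048 * D ^ 3) (z := z) (h := h) (k := k) (vo := v) (r := r)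
    (kk := kk) (bU := bU) (bV := bV) hf hD (by omega) (by positivity) hr1 hrR hAB hvRA hvRB hA hB hzA
    ?_ ?_ (by omega) ?_ (by rw [hkk]; omega) hbU hbV hbVm rfl rfl ?_ ?_ hk0 ?_ href
  · calc 2048 * D ^ 3 * (z + 1) ≤ 2048 * D ^ 3 * (512 * X) := Nat.mul_le_mul_left _ hzX
      _ = 1048576 * D ^ 5 * (v * r) := by rw [hX]; ring
      _ ≤ 1048576 * D ^ 5 * (8 * v2 * r) :=
          Nat.mul_le_mul_left _ (Nat.mul_le_mul_right _ hv28)
      _ = v2 * r2 := by rw [hr2]; ring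
  · calc w * D + w ≤ w * D + w * D := Nat.add_le_add_left (Nat.le_mul_of_pos_right _ hD) _
      _ = 2 * D * w := by ring
      _ ≤ 2 * D * (128 * (D ^ 2 * v)) := Nat.mul_le_mul_left _ hwv
      _ ≤ 2 * D * (128 * (D ^ 2 * (8 * h))) :=
          Nat.mul_le_mul_left _ (Nat.mul_le_mul_left _ (Nat.mul_le_mul_left _ hh8))
      _ = 2048 * D ^ 3 * h := by ring
  · calc R * 2 ^ h * n ^ 4 ≤ k * 2 ^ h * k ^ 4 := by gcongr
      _ = 2 ^ h * k ^ 5 := by ring
      _ ≤ 2 ^ (v - 1) := hkey _ _ _ (by omega)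
      _ < 2 ^ v := Nat.pow_lt_pow_right (by norm_num) (by omega)
  · have e1 : 2 ^ B.card = 2 ^ (B.card - v * r) * 2 ^ (v * r) := by
      rw [← pow_add]
      congr 1
      omega
    have h1 : n * 2 ^ (D + 1) * 1 * ((m + 1) ^ r * (m * 2 ^ (w * D) * bU) +
        (r2 + t0) ^ r * 2 ^ (B.card - v * r)) +
        1 * ((m + 1) ^ r * bU + R ^ r * 2 ^ (B.card - v * r)) +
        1 * ((kk * r) ^ r * 2 ^ (B.card - v * r)) ≤ 2 ^ (B.card - v * r) * k ^ (8 * r) := by
      calc n * 2 ^ (D + 1) * 1 * ((m + 1) ^ r * (m * 2 ^ (w * D) * bU) +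
            (r2 + t0) ^ r * 2 ^ (B.card - v * r)) +
            1 * ((m + 1) ^ r * bU + R ^ r * 2 ^ (B.card - v * r)) +
            1 * ((kk * r) ^ r * 2 ^ (B.card - v * r))
          ≤ 2 * k * k * (2 ^ (B.card - v * r) + k ^ r * 2 ^ (B.card - v * r)) +
            k * (2 ^ (B.card - v * r) + k ^ r * 2 ^ (B.card - v * r)) +
            k * ((k ^ 4) ^ r * 2 ^ (B.card - v * r)) := by
            refine Nat.add_le_add (Nat.add_le_add (Nat.mul_le_mul h2Dk' ?_) ?_) ?_ <;>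
              gcongr <;> first | omega | exact hkkR r hrk
        _ = 2 ^ (B.card - v * r) * ((2 * k * k + k) * (1 + k ^ r) + k * (k ^ 4) ^ r) := by ring
        _ ≤ 2 ^ (B.card - v * r) * k ^ (8 * r) := by
            refine Nat.mul_le_mul_left _ ?_
            have h2 : k ^ r ≤ (k ^ 4) ^ r := Nat.pow_le_pow_left (by
              calc k = k ^ 1 := (pow_one k).symm
                _ ≤ k ^ 4 := Nat.pow_le_pow_right hk0 (by norm_num)) _
            calc (2 * k * k + k) * (1 + k ^ r) + k * (k ^ 4) ^ r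
                ≤ (2 * k * k + k) * ((k ^ 4) ^ r + (k ^ 4) ^ r) + k * (k ^ 4) ^ r := by
                  gcongr
                  exact hkr.trans h2
              _ = (4 * (k * k) + 3 * k) * (k ^ 4) ^ r := by ring
              _ ≤ (k * (k * k)) * (k ^ 4) ^ r := by
                  exact Nat.mul_le_mul_right _ (four_sq hk3)
              _ = k ^ (3 + 4 * r) := by rw [pow_add, pow_mul]; ring
              _ ≤ k ^ (8 * r) := Nat.pow_le_pow_right hk0 (by omega)
    rw [e1]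
    calc 4 * ((S + 1) * (n * 2 ^ (D + 1) * 1 * ((m + 1) ^ r * (m * 2 ^ (w * D) * bU) +
          (r2 + t0) ^ r * 2 ^ (B.card - v * r)) +
          1 * ((m + 1) ^ r * bU + R ^ r * 2 ^ (B.card - v * r)) +
          1 * ((kk * r) ^ r * 2 ^ (B.card - v * r))))
        ≤ 4 * ((S + 1) * (2 ^ (B.card - v * r) * k ^ (8 * r))) :=
          Nat.mul_le_mul_left _ (Nat.mul_le_mul_left _ h1)
      _ = 2 ^ (B.card - v * r) * (4 * ((S + 1) * k ^ (8 * r))) := by ring
      _ < 2 ^ (B.card - v * r) * 2 ^ (v * r) :=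
          Nat.mul_lt_mul_of_pos_left (hsum _ le_rfl) (by positivity)
  · have e1 : 2 ^ A.card = 2 ^ (A.card - v * r) * 2 ^ (v * r) := by
      rw [← pow_add]
      congr 1
      omega
    have h1 : n * 2 ^ (D + 1) * 1 * (r ^ r * 2 ^ (A.card - v * r) + (m + 1) ^ r * 2 ^ (A.card - z)) +
        1 * (r ^ r * 2 ^ (A.card - v * r) + (m + 1) ^ r * 2 ^ (A.card - z)) +
        1 * (r ^ r * 2 ^ (A.card - v * r)) ≤ 2 ^ (A.card - v * r) * k ^ (8 * r) := by
      calc n * 2 ^ (D + 1) * 1 * (r ^ r * 2 ^ (A.card - v * r) + (m + 1) ^ r * 2 ^ (A.card - z)) +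
            1 * (r ^ r * 2 ^ (A.card - v * r) + (m + 1) ^ r * 2 ^ (A.card - z)) +
            1 * (r ^ r * 2 ^ (A.card - v * r))
          ≤ 2 * k * k * (k ^ r * 2 ^ (A.card - v * r) + 2 ^ (A.card - v * r)) +
            k * (k ^ r * 2 ^ (A.card - v * r) + 2 ^ (A.card - v * r)) +
            k * (k ^ r * 2 ^ (A.card - v * r)) := by
            refine Nat.add_le_add (Nat.add_le_add (Nat.mul_le_mul h2Dk' ?_) ?_) ?_ <;>
              gcongr <;> omega
        _ = 2 ^ (A.card - v * r) * ((2 * k * k + k) * (1 + k ^ r) + k * k ^ r) := by ring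
        _ ≤ 2 ^ (A.card - v * r) * k ^ (8 * r) := by
            refine Nat.mul_le_mul_left _ ?_
            calc (2 * k * k + k) * (1 + k ^ r) + k * k ^ r
                ≤ (2 * k * k + k) * (k ^ r + k ^ r) + k * k ^ r := by
                  gcongr
              _ = (4 * (k * k) + 3 * k) * k ^ r := by ring
              _ ≤ (k * (k * k)) * k ^ r := by
                  exact Nat.mul_le_mul_right _ (four_sq hk3)
              _ = k ^ (3 + r) := by rw [pow_add]; ring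
              _ ≤ k ^ (8 * r) := Nat.pow_le_pow_right hk0 (by omega)
    rw [e1]
    calc 4 * ((S + 1) * (n * 2 ^ (D + 1) * 1 * (r ^ r * 2 ^ (A.card - v * r) +
          (m + 1) ^ r * 2 ^ (A.card - z)) +
          1 * (r ^ r * 2 ^ (A.card - v * r) + (m + 1) ^ r * 2 ^ (A.card - z)) +
          1 * (r ^ r * 2 ^ (A.card - v * r))))
        ≤ 4 * ((S + 1) * (2 ^ (A.card - v * r) * k ^ (8 * r))) :=
          Nat.mul_le_mul_left _ (Nat.mul_le_mul_left _ h1)
      _ = 2 ^ (A.card - v * r) * (4 * ((S + 1) * k ^ (8 * r))) := by ring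
      _ < 2 ^ (A.card - v * r) * 2 ^ (v * r) :=
          Nat.mul_lt_mul_of_pos_left (hsum _ le_rfl) (by positivity)
  · calc 4 * r ≤ 4 * k := by omega
      _ < k * k := Nat.mul_lt_mul_of_pos_right (by omega) (by omega)
      _ = k ^ 2 := by ring
      _ ≤ k ^ 40 := Nat.pow_le_pow_right (by omega) (by omega)
      _ ≤ 2 ^ v := h2v

end Pool.Agent.MP_9cec2c_lc.RedDom
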