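import Pool.Agent.Lib.MP_9cec2c_lc.RQProb
import Pool.Agent.Lib.MP_9cec2c_lc.RQDet
import Pool.Agent.Lib.MP_9cec2c_lc.RPFinal

/-!
The lower bound for random CNFs, for refutations with subproofs and with the redundance and
dominance rules.
-/

set_option autoImplicit false
set_option linter.unusedSectionVars false

namespace Pool.Agent.MP_9cec2c_lc.RedDom

open Finset
open Pool.Agent.MP_9cec2c_lc.SubstRed
open Pool.Agent.MP_9cec2c_lc.FormulaLines
open Pool.Agent.MP_9cec2c_lc.LovSch (ClauseList toCNF Spread Clause Holds posn nonempty_emb pr_sat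
  pr_not_spread)
open Pool.Agent.MP_9cec2c_lc.Redun (inS poor_num pr_not_poor)

variable {n m w : ℕ}

/-- The probability that a random CNF is not hard. -/
theorem pr_not_hard {D d Ac E K k : ℕ} (hD : 0 < D) (hAc : Ac = 3 * 8388608 * D ^ 5 * E)
    (hE0 : 1 ≤ E) (hE : ∀ j : ℕ, (24 : ℝ) ^ (1024 * D ^ 2 * j) ≤ (E : ℝ) ^ j)
    (hK : K = 1024 * (Ac * D))
    (hn : K ≤ n) (hk : n ≤ k) (hw : k ^ K ≤ 2 ^ w) (hwK : K ≤ w) (hwn : K * w ≤ n)
    (hm1 : (d + 1) * n ^ 3 * 2 ^ w ≤ m) (hm2 : m ^ (8 * D) ≤ 2 ^ ((8 * D + 1) * w)) :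
    pr (fun f : ClauseList n m w => ¬ Hard k D d (2 ^ (n / K)) (toCNF f)) ≤
      16 * (15 / 16) ^ w := by
  classical
  have hD4 : 1 ≤ D ^ 5 := Nat.one_le_pow _ _ hD
  have hD2 : 0 < D ^ 2 := by positivity
  have hD24 : D ^ 2 ≤ D ^ 5 := Nat.pow_le_pow_right hD (by norm_num)
  have hD14 : D ≤ D ^ 5 := by
    calc D = D ^ 1 := (pow_one D).symm
      _ ≤ D ^ 5 := Nat.pow_le_pow_right hD (by norm_num)
  have hAc' : 3 * 8388608 * D ^ 5 ≤ Ac := by
    rw [hAc]
    exact Nat.le_mul_of_pos_right _ hE0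
  have hAcD : Ac ≤ Ac * D := Nat.le_mul_of_pos_right _ hD
  have hEK : E ≤ Ac := by
    rw [hAc]
    exact Nat.le_mul_of_pos_left _ (by omega)
  have h2D : 2 ^ D ≤ Ac := by
    refine le_trans ?_ hEK
    have h1 := hE 1
    rw [mul_one, pow_one] at h1
    have h2 : (2 : ℝ) ^ D ≤ 24 ^ (1024 * D ^ 2) := by
      calc (2 : ℝ) ^ D ≤ 24 ^ D := pow_le_pow_left₀ (by norm_num) (by norm_num) _
        _ ≤ 24 ^ (1024 * D ^ 2) := by
            refine pow_le_pow_right₀ (by norm_num) ?_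
            nlinarith
    exact_mod_cast h2.trans h1
  have hm3 : m ≤ 3 ^ w := by
    have h1 : m ^ (8 * D) ≤ (3 ^ w) ^ (8 * D) := by
      refine hm2.trans ?_
      have h2 : 2 ^ (8 * D + 1) ≤ 3 ^ (8 * D) := by
        have h3 : ∀ d : ℕ, 2 ≤ d → 2 ^ (d + 1) ≤ 3 ^ d := by
          intro d hd
          induction d with
          | zero => omega
          | succ d ih =>
            rcases Nat.lt_or_ge d 2 with h | h
            · have : d = 1 := by omega
              subst this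
              norm_num
            · have := ih h
              calc 2 ^ (d + 1 + 1) = 2 * 2 ^ (d + 1) := by ring
                _ ≤ 3 * 3 ^ d := Nat.mul_le_mul (by norm_num) this
                _ = 3 ^ (d + 1) := by ring
        exact h3 _ (by omega)
      calc 2 ^ ((8 * D + 1) * w) = (2 ^ (8 * D + 1)) ^ w := pow_mul _ _ _
        _ ≤ (3 ^ (8 * D)) ^ w := Nat.pow_le_pow_left h2 _
        _ = (3 ^ w) ^ (8 * D) := by rw [← pow_mul, ← pow_mul, mul_comm]
    exact (Nat.pow_le_pow_iff_left (by omega)).1 h1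
  have hwn' : w ≤ n := le_trans (Nat.le_mul_of_pos_left _ (by omega)) hwn
  have hne := nonempty_emb hwn'
  have hn0 : 0 < n := by omega
  have hn' : (0 : ℝ) < n := by exact_mod_cast hn0
  obtain ⟨v, hv⟩ : ∃ v, v = w / (64 * D ^ 2) := ⟨_, rfl⟩
  obtain ⟨v2, hv2⟩ : ∃ v2, v2 = v / 4 := ⟨_, rfl⟩
  obtain ⟨r, hr⟩ : ∃ r, r = n / (Ac * v) := ⟨_, rfl⟩
  obtain ⟨R, hR⟩ : ∃ R, R = 1024 * (D ^ 2 * r) := ⟨_, rfl⟩
  obtain ⟨r2, hr2⟩ : ∃ r2, r2 = 8388608 * (D ^ 5 * r) := ⟨_, rfl⟩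
  obtain ⟨t0, ht0⟩ : ∃ t0, t0 = n / 4 := ⟨_, rfl⟩
  have hv16 : 16 ≤ v := by
    rw [hv, Nat.le_div_iff_mul_le (by positivity)]
    omega
  have hv20 : 0 < v2 := by omega
  have h64 : 64 * D ^ 2 * v ≤ w := by
    rw [hv]
    exact Nat.mul_div_le w (64 * D ^ 2)
  have h64' : 64 * v ≤ w := by
    refine le_trans ?_ h64
    exact Nat.mul_le_mul_right _ (Nat.le_mul_of_pos_right _ hD2)
  have hwv : w ≤ 128 * (D ^ 2 * v) := by
    have h1 := Nat.div_add_mod w (64 * D ^ 2)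
    have h2 := Nat.mod_lt w (show 0 < 64 * D ^ 2 by positivity)
    rw [← hv] at h1
    have h3 : 64 * D ^ 2 * v = 64 * (D ^ 2 * v) := by ring
    have h4 : D ^ 2 ≤ D ^ 2 * v := Nat.le_mul_of_pos_right _ (by omega)
    omega
  have hwv2 : w ≤ 1024 * D ^ 2 * v2 := by
    calc w ≤ 128 * (D ^ 2 * v) := hwv
      _ ≤ 128 * (D ^ 2 * (8 * v2)) :=
          Nat.mul_le_mul_left _ (Nat.mul_le_mul_left _ (by omega))
      _ = 1024 * D ^ 2 * v2 := by ring
  have hwv1 : w ≤ 1024 * D ^ 2 * v := by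
    refine hwv2.trans (Nat.mul_le_mul_left _ (by omega))
  have hmul : Ac * v * r ≤ n := by
    rw [hr]
    exact Nat.mul_div_le n (Ac * v)
  have hAc0 : 0 < Ac := by omega
  have hAB : (Ac : ℝ) = 3 * 8388608 * D ^ 5 * E := by exact_mod_cast hAc
  have hB1 : (1 : ℝ) ≤ E := by exact_mod_cast hE0
  have hBpos : (0 : ℝ) < E := by linarith
  have hD4' : (1 : ℝ) ≤ (D : ℝ) ^ 5 := by exact_mod_cast hD4
  have hmulR : (Ac : ℝ) * v * r ≤ n := by exact_mod_cast hmul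
  have hv2r2 : 3 * ((v2 * r2 : ℕ) : ℝ) * E ≤ n := by
    have e1 : ((v2 * r2 : ℕ) : ℝ) ≤ 8388608 * (D : ℝ) ^ 5 * ((v : ℝ) * (r : ℝ)) := by
      rw [hr2]
      push_cast
      have hvv : (v2 : ℝ) ≤ (v : ℝ) := by exact_mod_cast (by omega : v2 ≤ v)
      calc (v2 : ℝ) * (8388608 * ((D : ℝ) ^ 5 * (r : ℝ)))
          ≤ (v : ℝ) * (8388608 * ((D : ℝ) ^ 5 * (r : ℝ))) := by
            gcongr
        _ = 8388608 * (D : ℝ) ^ 5 * ((v : ℝ) * (r : ℝ)) := by ring
    calc 3 * ((v2 * r2 : ℕ) : ℝ) * (E : ℝ)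
        ≤ 3 * (8388608 * (D : ℝ) ^ 5 * ((v : ℝ) * (r : ℝ))) * (E : ℝ) := by gcongr
      _ = (Ac : ℝ) * (v : ℝ) * (r : ℝ) := by
          rw [hAB]
          ring
      _ ≤ n := hmulR
  have hvrB : 3 * ((v * R : ℕ) : ℝ) * E ≤ n := by
    have e1 : ((v * R : ℕ) : ℝ) ≤ 8388608 * (D : ℝ) ^ 5 * ((v : ℝ) * (r : ℝ)) := by
      have e2 : v * R ≤ 8388608 * (D ^ 5 * (v * r)) := by
        calc v * R = 1024 * (D ^ 2 * (v * r)) := by
              rw [hR]
              ring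
          _ ≤ 8388608 * (D ^ 5 * (v * r)) :=
              Nat.mul_le_mul (by norm_num) (Nat.mul_le_mul_right _ hD24)
      calc ((v * R : ℕ) : ℝ) ≤ ((8388608 * (D ^ 5 * (v * r)) : ℕ) : ℝ) := by exact_mod_cast e2
        _ = 8388608 * (D : ℝ) ^ 5 * ((v : ℝ) * (r : ℝ)) := by
            push_cast
            ring
    calc 3 * ((v * R : ℕ) : ℝ) * (E : ℝ)
        ≤ 3 * (8388608 * (D : ℝ) ^ 5 * ((v : ℝ) * (r : ℝ))) * (E : ℝ) := by gcongr
      _ = (Ac : ℝ) * (v : ℝ) * (r : ℝ) := by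
          rw [hAB]
          ring
      _ ≤ n := hmulR
  have hvR : v * R ≤ n := by
    have : ((v * R : ℕ) : ℝ) ≤ n := by
      have h0 : (0 : ℝ) ≤ ((v * R : ℕ) : ℝ) := by positivity
      nlinarith
    exact_mod_cast this
  have hv2r2n : v2 * r2 ≤ n := by
    have : ((v2 * r2 : ℕ) : ℝ) ≤ n := by
      have h0 : (0 : ℝ) ≤ ((v2 * r2 : ℕ) : ℝ) := by positivity
      nlinarith
    exact_mod_cast this
  have hfrac : ∀ X j : ℕ, 3 * (X : ℝ) * E ≤ n → w ≤ 1024 * D ^ 2 * j →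
      (24 : ℝ) ^ w * (3 * X / n : ℝ) ^ j ≤ 1 := by
    intro X j hX hj
    have e1 : (3 * X / n : ℝ) ≤ 1 / E := by
      rw [div_le_div_iff₀ hn' hBpos, one_mul]
      exact hX
    calc (24 : ℝ) ^ w * (3 * X / n : ℝ) ^ j ≤ 24 ^ (1024 * D ^ 2 * j) * (1 / E) ^ j := by
          gcongr
          · norm_num
      _ ≤ (E : ℝ) ^ j * (1 / E) ^ j := by
          gcongr
          exact hE j
      _ = 1 := by rw [← mul_pow, mul_one_div_cancel (ne_of_gt hBpos), one_pow]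
  have hexp := hfrac (v * R) v hvrB hwv1
  have hexp2 := hfrac (v2 * r2) v2 hv2r2 hwv2
  have hk40 : k ^ 40 ≤ 2 ^ w := le_trans (Nat.pow_le_pow_right (by omega) (by omega)) hw
  -- the six kinds of bad events
  refine le_trans (pr_mono (q := fun f : ClauseList n m w =>
    (∃ x : Fin n → Bool, ∀ i, ¬ ∀ e, x ((f i).1 e) ≠ (f i).2 e) ∨ (¬ Spread v R f ∨
      (¬ Spread v2 r2 f ∨
      ((¬ ∀ A : Finset (Fin n), n ≤ D * A.card →
        8 * (univ.filter fun i => (posn (inS A) true (f i)).card < 2 * v).card ≤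
          2 ^ (w - 2 * v)) ∨
      ((¬ ∀ τ : IMap n D, ∃ E0 : Finset (Fin m), E0.card ≤ t0 ∧
        ∀ c e, c ≠ e → c ∉ E0 → e ∉ E0 →
          (univ.filter fun p => (f e).1 p ∈ img τ (f c)).card < 2 * v2) ∨
      ((¬ ∀ j ≤ d, ∀ u z, 2 * t0 < (near f (blk m (n ^ 3 * 2 ^ w) j) u z).card) ∨
       ¬ ∀ j ≤ d, ∀ u z, (near f (blk m (n ^ 3 * 2 ^ w) j) u z).card ≤ n ^ 4))))))
       fun f hf => ?_) ?_
  · by_contra hcon
    simp only [not_or] at hcon
    obtain ⟨h1, h2, h3, h4, h5, h6, h7⟩ := hcon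
    push Not at h1 h2 h3
    rw [not_not] at h4 h5 h6 h7
    refine hf ⟨fun x => ?_, fun A B S H L hdis hA hB href => ?_⟩
    · obtain ⟨i, hi⟩ := h1 x
      refine ⟨_, mem_image_of_mem _ (mem_univ i), ?_⟩
      rintro ⟨l, hl, hl'⟩
      obtain ⟨e, -, rfl⟩ := mem_image.1 hl
      exact hi e hl'
    · exact rq_det (m0 := n ^ 3 * 2 ^ w) hD h2D hAc' hK hn hk hw hwK hwn hm3 hv hv2 rfl
        hr hR hr2 ht0 ⟨h2, h3, h4, h5, h6, h7⟩ A B S H L hdis hA hB href
  · have b1 := pr_sat (n := n) (m := m) (w := w) hwn' (by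
      refine le_trans (Nat.mul_le_mul_right _ ?_) hm1
      calc n = 1 * n ^ 1 := by rw [pow_one, one_mul]
        _ ≤ (d + 1) * n ^ 3 := Nat.mul_le_mul (by omega)
          (Nat.pow_le_pow_right hn0 (by norm_num)))
    have b2 := pr_not_spread hwn' (by omega) hn0 (by omega) hvR hm3 hexp
    have b3 := pr_not_spread hwn' (by omega) hn0 hv20 hv2r2n hm3 hexp2
    have hnT : n ≤ 2 ^ (w - 2 * v - 3) := by
      have h1 : n ^ 2 ≤ (2 ^ (w - 2 * v - 3)) ^ 2 := by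
        calc n ^ 2 ≤ k ^ 2 := Nat.pow_le_pow_left hk _
          _ ≤ k ^ 40 := Nat.pow_le_pow_right (by omega) (by norm_num)
          _ ≤ 2 ^ w := hk40
          _ ≤ 2 ^ ((w - 2 * v - 3) * 2) := Nat.pow_le_pow_right (by norm_num) (by omega)
          _ = (2 ^ (w - 2 * v - 3)) ^ 2 := pow_mul _ _ _
      exact (Nat.pow_le_pow_iff_left (by norm_num)).1 h1
    have b4 := pr_not_poor (m := m) hwn' hD (v := v) (by omega)
      (poor_num hD h64 (by omega) hm2) hnT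
    have b5 := pr_not_overlap (n := n) (m := m) (w := w) (D := D) (v2 := v2) (T := n / 8)
      (t0 := t0) hwn' (by omega) hm3
    have b6 := pr_not_near (n := n) (m := m) (w := w) (t := 2 * t0) (d := d) hwn' (by omega)
      (by omega) hm1
    have b7 := pr_not_far (n := n) (m := m) (w := w) hwn' (by omega) d
    have c1 : (3 / 4 : ℝ) ^ n ≤ (15 / 16) ^ w := by
      calc (3 / 4 : ℝ) ^ n ≤ (3 / 4) ^ w := pow_le_pow_of_le_one (by norm_num) (by norm_num) hwn'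
        _ ≤ (15 / 16) ^ w := pow_le_pow_left₀ (by norm_num) (by norm_num) _
    have c2 : (1 / 4 : ℝ) ^ w ≤ (15 / 16) ^ w :=
      pow_le_pow_left₀ (by norm_num) (by norm_num) _
    have c4 : (1 / 2 : ℝ) ^ n ≤ (15 / 16) ^ w := by
      calc (1 / 2 : ℝ) ^ n ≤ (1 / 2) ^ w := pow_le_pow_of_le_one (by norm_num) (by norm_num) hwn'
        _ ≤ (15 / 16) ^ w := pow_le_pow_left₀ (by norm_num) (by norm_num) _
    have c5 : ((n ^ D : ℕ) : ℝ) ^ n *
        (18 ^ w * ((w * D : ℕ) / n : ℝ) ^ (2 * v2)) ^ (n / 8) ≤ (15 / 16) ^ w := by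
      have e1 : ((w * D : ℕ) / n : ℝ) ≤ 1 / E := by
        rw [div_le_div_iff₀ hn' hBpos, one_mul]
        have e4 : w * D * E ≤ n := by
          calc w * D * E = D * E * w := by ring
            _ ≤ K * w := by
              refine Nat.mul_le_mul_right _ ?_
              rw [hK, hAc]
              calc D * E = 1 * (D * E) := (one_mul _).symm
                _ ≤ 1024 * (3 * 8388608 * D ^ 5) * (D * E) := Nat.mul_le_mul_right _ (by omega)
                _ = 1024 * (3 * 8388608 * D ^ 5 * E * D) := by ring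
            _ ≤ n := hwn
        exact_mod_cast e4
      have e2 : (18 : ℝ) ^ w * ((w * D : ℕ) / n : ℝ) ^ (2 * v2) ≤ (1 / 32) ^ w := by
        have e3 : (1 / (E : ℝ)) ^ v2 ≤ (1 / 24) ^ w := by
          calc (1 / (E : ℝ)) ^ v2 = 1 / (E : ℝ) ^ v2 := one_div_pow _ _
            _ ≤ 1 / (24 : ℝ) ^ (1024 * D ^ 2 * v2) :=
                one_div_le_one_div_of_le (by positivity) (hE v2)
            _ ≤ 1 / (24 : ℝ) ^ w := one_div_le_one_div_of_le (by positivity)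
                (pow_le_pow_right₀ (by norm_num) hwv2)
            _ = (1 / 24) ^ w := (one_div_pow _ _).symm
        calc (18 : ℝ) ^ w * ((w * D : ℕ) / n : ℝ) ^ (2 * v2) ≤ 18 ^ w * (1 / E) ^ (2 * v2) := by
              gcongr
          _ = 18 ^ w * ((1 / E) ^ v2) ^ 2 := by rw [mul_comm 2 v2, pow_mul]
          _ ≤ 18 ^ w * ((1 / 24) ^ w) ^ 2 := by gcongr
          _ = (1 / 32) ^ w := by
              rw [← pow_mul, mul_comm w 2, pow_mul, ← mul_pow]
              norm_num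
      have e3 : ((n ^ D : ℕ) : ℝ) ^ n ≤ ((2 : ℝ) ^ w) ^ (n / 8) := by
        have h1 : (n ^ D) ^ n ≤ (2 ^ w) ^ (n / 8) := by
          calc (n ^ D) ^ n ≤ (k ^ D) ^ n := Nat.pow_le_pow_left (Nat.pow_le_pow_left hk _) _
            _ ≤ (k ^ D) ^ (16 * (n / 8)) :=
                Nat.pow_le_pow_right (Nat.pow_pos (by omega)) (by omega)
            _ = (k ^ (D * 16)) ^ (n / 8) := by rw [← pow_mul, ← pow_mul, mul_assoc]
            _ ≤ (k ^ K) ^ (n / 8) := by
                refine Nat.pow_le_pow_left (Nat.pow_le_pow_right (by omega) ?_) _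
                have h0 : D ≤ Ac * D := Nat.le_mul_of_pos_left _ (by omega)
                omega
            _ ≤ (2 ^ w) ^ (n / 8) := Nat.pow_le_pow_left hw _
        exact_mod_cast h1
      calc ((n ^ D : ℕ) : ℝ) ^ n *
          (18 ^ w * ((w * D : ℕ) / n : ℝ) ^ (2 * v2)) ^ (n / 8)
          ≤ ((2 : ℝ) ^ w) ^ (n / 8) * ((1 / 32) ^ w) ^ (n / 8) := by gcongr
        _ = ((1 / 16) ^ w) ^ (n / 8) := by
            rw [← mul_pow, ← mul_pow]
            norm_num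
        _ ≤ ((1 / 16) ^ w) ^ 1 := by
            refine pow_le_pow_of_le_one (by positivity) (pow_le_one₀ (by norm_num) (by norm_num)) ?_
            omega
        _ ≤ (15 / 16) ^ w := by
            rw [pow_one]
            exact pow_le_pow_left₀ (by norm_num) (by norm_num) _
    have hd3 : ((d + 1 : ℕ) : ℝ) ≤ 3 ^ w := by
      have h1 : d + 1 ≤ 3 ^ w := by
        refine le_trans ?_ (hm1.trans hm3)
        rw [mul_assoc]
        exact Nat.le_mul_of_pos_right _ (by positivity)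
      exact_mod_cast h1
    have c6 : ((d + 1 : ℕ) : ℝ) * ((n : ℝ) ^ 2 * (3 / 4) ^ n) ≤ (15 / 16) ^ w := by
      have e1 : (n : ℝ) ^ 2 ≤ 2 ^ w := by
        have h1 : n ^ 2 ≤ 2 ^ w := by
          calc n ^ 2 ≤ k ^ 2 := Nat.pow_le_pow_left hk _
            _ ≤ k ^ 40 := Nat.pow_le_pow_right (by omega) (by norm_num)
            _ ≤ 2 ^ w := hk40
        exact_mod_cast h1
      have e2 : 8 * w ≤ n := le_trans (Nat.mul_le_mul_right _ (by omega)) hwn
      calc ((d + 1 : ℕ) : ℝ) * ((n : ℝ) ^ 2 * (3 / 4) ^ n)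
          ≤ 3 ^ w * (2 ^ w * (3 / 4) ^ (8 * w)) := by
            gcongr ?_ * (?_ * ?_)
            exact pow_le_pow_of_le_one (by norm_num) (by norm_num) e2
        _ = (3 * (2 * (3 / 4) ^ 8)) ^ w := by rw [pow_mul, ← mul_pow, ← mul_pow]
        _ ≤ (15 / 16) ^ w := pow_le_pow_left₀ (by norm_num) (by norm_num) _
    have c7 : ((d + 1 : ℕ) : ℝ) * ((2 : ℝ) ^ n * (1 / 4) ^ (n ^ 4)) ≤ (15 / 16) ^ w := by
      calc ((d + 1 : ℕ) : ℝ) * ((2 : ℝ) ^ n * (1 / 4) ^ (n ^ 4))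
          ≤ 4 ^ n * (2 ^ n * (1 / 4) ^ (2 * n)) := by
            gcongr ?_ * (2 ^ n * ?_)
            · calc ((d + 1 : ℕ) : ℝ) ≤ 3 ^ w := hd3
                _ ≤ 4 ^ w := pow_le_pow_left₀ (by norm_num) (by norm_num) _
                _ ≤ 4 ^ n := pow_le_pow_right₀ (by norm_num) hwn'
            · refine pow_le_pow_of_le_one (by norm_num) (by norm_num) ?_
              calc 2 * n ≤ n * n := Nat.mul_le_mul_right _ (by omega)
                _ = n ^ 2 := (sq n).symm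
                _ ≤ n ^ 4 := Nat.pow_le_pow_right hn0 (by norm_num)
        _ = (1 / 2) ^ n := by
            rw [pow_mul, ← mul_pow, ← mul_pow]
            norm_num
        _ ≤ (15 / 16) ^ w := c4
    refine (pr_or _ _).trans ((add_le_add b1 ((pr_or _ _).trans (add_le_add b2
      ((pr_or _ _).trans (add_le_add b3 ((pr_or _ _).trans (add_le_add b4
        ((pr_or _ _).trans (add_le_add b5 ((pr_or _ _).trans (add_le_add b6 b7))))))))))).trans ?_)
    have h0 : (0 : ℝ) ≤ (15 / 16) ^ w := by positivity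
    linarith

/-- The main result. -/
theorem random_main : ∀ D : ℕ, 0 < D → ∃ K : ℕ, 0 < K ∧ ∀ n k w m d : ℕ, K ≤ n → n ≤ k →
    k ^ K ≤ 2 ^ w → K * w ≤ n → (d + 1) * n ^ 3 * 2 ^ w ≤ m →
    m ^ (8 * D) ≤ 2 ^ ((8 * D + 1) * w) →
    2 ^ (w / K) * {f : ClauseList n m w | ¬ Hard k D d (2 ^ (n / K)) (toCNF f)}.ncard ≤
      Fintype.card (ClauseList n m w) := by
  classical
  intro D hD
  obtain ⟨E, hE0, hE⟩ : ∃ E : ℕ, 1 ≤ E ∧
      ∀ j : ℕ, (24 : ℝ) ^ (1024 * D ^ 2 * j) ≤ (E : ℝ) ^ j := by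
    refine ⟨24 ^ (1024 * D ^ 2), Nat.one_le_pow _ _ (by decide), fun j => le_of_eq ?_⟩
    rw [pow_mul, Nat.cast_pow]
    rfl
  obtain ⟨Ac, hAc⟩ : ∃ Ac, Ac = 3 * 8388608 * D ^ 5 * E := ⟨_, rfl⟩
  have hD4 : 1 ≤ D ^ 5 := Nat.one_le_pow _ _ hD
  have hAc' : 3 * 8388608 ≤ Ac := by
    have h1 : D ^ 5 ≤ D ^ 5 * E := Nat.le_mul_of_pos_right _ hE0
    have h2 : 3 * 8388608 * D ^ 5 * E = 3 * 8388608 * (D ^ 5 * E) := by ring
    omega
  obtain ⟨K, hK⟩ : ∃ K, K = 1024 * (Ac * D) := ⟨_, rfl⟩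
  have hAcD : Ac ≤ Ac * D := Nat.le_mul_of_pos_right _ hD
  refine ⟨K, by omega, fun n k w m d hn hk hw hwn hm1 hm2 => ?_⟩
  have hwK : K ≤ w := by
    have h1 : 2 ^ K ≤ 2 ^ w := le_trans (Nat.pow_le_pow_left (by omega) _) hw
    exact (Nat.pow_le_pow_iff_right (by norm_num)).1 h1
  have hwn' : w ≤ n := le_trans (Nat.le_mul_of_pos_left _ (by omega)) hwn
  have hne := nonempty_emb hwn'
  have h := pr_not_hard hD hAc hE0 hE hK hn hk hw hwK hwn hm1 hm2
  rw [pr_eq, div_le_iff₀ (by exact_mod_cast Fintype.card_pos)] at h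
  have h1 : {f : ClauseList n m w | ¬ Hard k D d (2 ^ (n / K)) (toCNF f)}.ncard =
      (univ.filter fun f : ClauseList n m w =>
        ¬ Hard k D d (2 ^ (n / K)) (toCNF f)).card := by
    rw [Set.ncard_eq_toFinset_card']
    congr 1
    ext f
    simp
  rw [h1]
  have h2 : (2 : ℝ) ^ (w / K) * (16 * (15 / 16) ^ w) ≤ 1 := by
    obtain ⟨q, hq⟩ : ∃ q, q = w / K := ⟨_, rfl⟩
    have hq1 : 1 ≤ q := by
      rw [hq]
      exact (Nat.one_le_div_iff (by omega)).2 hwK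
    have hKq : 64 * q ≤ w := by
      calc 64 * q ≤ K * q := Nat.mul_le_mul_right _ (by omega)
        _ ≤ w := by
          rw [hq]
          exact Nat.mul_div_le w K
    rw [← hq]
    calc (2 : ℝ) ^ q * (16 * (15 / 16) ^ w) ≤ 2 ^ q * (16 * (15 / 16) ^ (64 * q)) := by
          gcongr 2 ^ q * (16 * ?_)
          exact pow_le_pow_of_le_one (by norm_num) (by norm_num) hKq
      _ = 16 * (2 * (15 / 16) ^ 64) ^ q := by
          rw [mul_pow, ← pow_mul]
          ring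
      _ ≤ 16 * (1 / 16) ^ q := by
          gcongr
          norm_num
      _ ≤ 16 * (1 / 16) ^ 1 := by
          gcongr 16 * ?_
          exact pow_le_pow_of_le_one (by norm_num) (by norm_num) hq1
      _ = 1 := by norm_num
  have h3 : (2 : ℝ) ^ (w / K) *
      (univ.filter fun f : ClauseList n m w =>
        ¬ Hard k D d (2 ^ (n / K)) (toCNF f)).card ≤
      Fintype.card (ClauseList n m w) := by
    calc (2 : ℝ) ^ (w / K) *
        (univ.filter fun f : ClauseList n m w =>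
          ¬ Hard k D d (2 ^ (n / K)) (toCNF f)).card
        ≤ 2 ^ (w / K) * (16 * (15 / 16) ^ w * Fintype.card (ClauseList n m w)) := by gcongr
      _ = 2 ^ (w / K) * (16 * (15 / 16) ^ w) * Fintype.card (ClauseList n m w) := by ring
      _ ≤ 1 * Fintype.card (ClauseList n m w) := by gcongr
      _ = Fintype.card (ClauseList n m w) := one_mul _
  exact_mod_cast h3

end Pool.Agent.MP_9cec2c_lc.RedDom
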