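import Pool.Agent.Lib.MP_9cec2c_lc.RQMain

/-!
One line of a refutation with subproofs.
-/

set_option autoImplicit false
set_option linter.unusedSectionVars false

namespace Pool.Agent.MP_9cec2c_lc.RedDom

open Finset
open Pool.Agent.MP_9cec2c_lc.LovSch
open Pool.Agent.MP_9cec2c_lc.Redun (inS inS_true cyl mem_cyl card_cyl hitS mem_hitS hit_count_sub
  SatR app_family card_small FalseAll)

variable {n m w D : ℕ} {f : ClauseList n m w} {v R v2 r2 t0 m0 N d : ℕ} {A B : Finset (Fin n)}
  {x0 : Fin n → Bool} {P Q : (Fin n → Bool) → Prop}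

/-- There is a block without exceptions. -/
theorem exists_block (hf : Good f v R v2 r2 t0 m0 N D d) (hD : 0 < D) (h2v2 : 2 * v2 ≤ w)
    {E : Finset (Clause (Fin n))} (hE : E.card ≤ d) :
    ∃ Δ : Finset (Fin m), (∀ u z, t0 < (near f Δ u z).card) ∧
      (∀ u z, (near f Δ u z).card ≤ N) ∧ ∀ c ∈ Δ, cla f c ∉ E := by
  classical
  obtain ⟨E0, hE0, hov⟩ := hf.overlap fun u _ => u
  have hinj : ∀ c e, c ∉ E0 → e ∉ E0 → cla f c = cla f e → c = e := by
    intro c e hc he hce
    by_contra hne
    have h1 := hov c e hne hc he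
    have h2 : (univ.filter fun p => (f e).1 p ∈ img (fun u (_ : Fin D) => u) (f c)) = univ := by
      ext p
      simp only [mem_filter, mem_univ, true_and, iff_true]
      have h3 : ((f e).1 p, (f e).2 p) ∈ cla f e := mem_image_of_mem _ (mem_univ _)
      rw [← hce] at h3
      obtain ⟨q, -, hq⟩ := mem_image.1 h3
      unfold img
      exact mem_image.2 ⟨(q, ⟨0, hD⟩), mem_univ _, congrArg Prod.fst hq⟩
    rw [h2, card_univ, Fintype.card_fin] at h1
    omega
  have hblock : ∃ j ≤ d, ∀ c ∈ blk m m0 j, c ∉ E0 → cla f c ∉ E := by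
    by_contra hno
    push Not at hno
    have h1 : ∀ j : Fin (d + 1), ∃ c ∈ blk m m0 j, c ∉ E0 ∧ cla f c ∈ E :=
      fun j => hno j (by omega)
    choose g hg1 hg2 hg3 using h1
    have h2 : (univ.image fun j => cla f (g j)) ⊆ E := by
      intro C hC
      obtain ⟨j, -, rfl⟩ := mem_image.1 hC
      exact hg3 j
    have h3 : Function.Injective fun j => cla f (g j) := by
      intro j j' hjj
      have h5 := hinj _ _ (hg2 j) (hg2 j') hjj
      have e1 := (mem_filter.1 (hg1 j)).2
      have e2 := (mem_filter.1 (hg1 j')).2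
      rw [h5] at e1
      exact Fin.ext (e1.symm.trans e2)
    have h4 := card_le_card h2
    rw [card_image_of_injective _ h3, card_univ, Fintype.card_fin] at h4
    omega
  obtain ⟨j, hj, hjE⟩ := hblock
  refine ⟨blk m m0 j \ E0, fun u z => ?_, fun u z => ?_, fun c hc => ?_⟩
  · have h1 := hf.lower j hj u z
    have h2 : near f (blk m m0 j) u z ⊆ near f (blk m m0 j \ E0) u z ∪ E0 := by
      intro c hc
      unfold near at hc ⊢
      rw [mem_filter] at hc
      by_cases h : c ∈ E0
      · exact mem_union_right _ h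
      · exact mem_union_left _ (mem_filter.2 ⟨mem_sdiff.2 ⟨hc.1, h⟩, hc.2⟩)
    have h3 := (card_le_card h2).trans (card_union_le _ _)
    omega
  · refine (card_le_card ?_).trans (hf.upper j hj u z)
    unfold near
    exact filter_subset_filter _ sdiff_subset
  · rw [mem_sdiff] at hc
    exact hjE c hc.1 hc.2

open scoped Classical in
/-- One line without hypothesis of the refutation. -/
theorem line_step (hf : Good f v R v2 r2 t0 m0 N D d) (hD : 0 < D) (h2v2 : 2 * v2 ≤ w)
    {q z h k k0 S vo kk r bU bV cU cV : ℕ}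
    (hq : 0 < q) (hr : 1 < r) (hrR : r ≤ R) (hvRA : v * R ≤ A.card)
    (hvRB : v * R ≤ B.card)
    (hzA : z + 1 ≤ A.card) (hJ : q * (z + 1) ≤ v2 * r2) (hqh : w * D + w ≤ q * h)
    (hvo : vo + 2 * v2 + 2 * v2 ≤ 2 * v) (hnum : R * 2 ^ h * N < 2 ^ vo)
    (hkk : n * 2 ^ (D + 1) + k * k0 + k ≤ kk)
    (hbU : bU = (S * k0 + 1) * ((kk * R) ^ R * 2 ^ (B.card - v * R)))
    (hbV : bV = (S * k0 + 1) * (R ^ R * 2 ^ (A.card - v * R)))
    (hbVm : (m + 1) * 2 ^ (w * D) * bV ≤ 2 ^ (A.card - (z + 1)))
    (hcU : cU = n * 2 ^ (D + 1) * k0 * ((m + 1) ^ r * (m * 2 ^ (w * D) * bU) +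
        (r2 + t0) ^ r * 2 ^ (B.card - v * r)) +
      k0 * ((m + 1) ^ r * bU + R ^ r * 2 ^ (B.card - v * r)) +
      k0 * ((kk * r) ^ r * 2 ^ (B.card - v * r)))
    (hcV : cV = n * 2 ^ (D + 1) * k0 * (r ^ r * 2 ^ (A.card - v * r) +
        (m + 1) ^ r * 2 ^ (A.card - z)) +
      k0 * (r ^ r * 2 ^ (A.card - v * r) + (m + 1) ^ r * 2 ^ (A.card - z)) +
      k0 * (r ^ r * 2 ^ (A.card - v * r)))
    (hP : ∀ x, P x → ∀ u, u ∉ B → x u = x0 u) (hQ : ∀ y, Q y → ∀ u, u ∉ A → y u = x0 u)
    (hcl : ∀ x y, P x → Q y → ∀ i : Fin m, ¬ Holds (mix (inS A) x y) (cla f i) →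
        i ∈ hitS A B v f x0 B x ∧ i ∈ hitS A B v f x0 A y)
    {BU : Finset {x // P x}} {BV : Finset {y // Q y}} {H L : Fin S → (Fin n → Bool) → Prop}
    {α : Fin S → Fin k0 → {x // P x} → EReal} {β : Fin S → Fin k0 → {y // Q y} → EReal}
    (hαβ : ∀ i x y, ¬ L i (mix (inS A) x.1 y.1) ↔ ∃ t, β i t y < α i t x)
    (href : IsRefutation k D d (toCNF f) (A : Set (Fin n)) B H L) (i : Fin S)
    (hi : ∀ x, H i x)
    (hap : ∀ j < i, (∀ x, H j x) → ∀ t, App (fun x => hitS A B v f x0 B x.1)
      (fun y => hitS A B v f x0 A y.1) r r BU BV (α j t) (β j t)) :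
    ∃ (BU' : Finset {x // P x}) (BV' : Finset {y // Q y}),
      BU ⊆ BU' ∧ BV ⊆ BV' ∧ BU'.card ≤ BU.card + cU ∧ BV'.card ≤ BV.card + cV ∧
      ∀ t, App (fun x => hitS A B v f x0 B x.1) (fun y => hitS A B v f x0 A y.1) r r BU' BV'
        (α i t) (β i t) := by
  have hR : 1 < R := lt_of_lt_of_le hr hrR
  have hvrA : v * r ≤ A.card := (Nat.mul_le_mul_left _ hrR).trans hvRA
  have hvrB : v * r ≤ B.card := (Nat.mul_le_mul_left _ hrR).trans hvRB
  have hsp := spread_mono hf.spread hrR
  rcases href.2.2 i with hfol | ⟨-, s, E, hs, hEd, hσ1, hσ2⟩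
  · obtain ⟨M, G, g1, g2, g3, g4⟩ := follows_idx hfol
    obtain ⟨BU2, BV2, e1, e2, e3, e4, e5⟩ := app_family (univ : Finset (Fin k0))
      (S := fun x : {x // P x} => hitS A B v f x0 B x.1)
      (T := fun y : {y // Q y} => hitS A B v f x0 A y.1) (r := r) (s := r)
      (α := α i) (β := β i)
      (dU := (kk * r) ^ r * 2 ^ (B.card - v * r)) (dV := r ^ r * 2 ^ (A.card - v * r))
      (BU := BU) (BV := BV)
      (fun t _ BU' BV' hU hV => cover_app (ι := Empty) (kk := kk) (α := α) (β := β)
        (a := fun c => c.elim) (b := fun c => c.elim)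
        hsp hr hvrA hvrB hP hQ hcl g1 g2
        (fun j hj t => (hap j (g3 j hj).1 (fun x => (g3 j hj).2 x (hi x)) t).mono hU hV)
        (by rw [Fintype.card_empty]; omega)
        (fun c => c.elim)
        (fun x y hxy => by
          rcases g4 _ (hi _) ((hαβ i x y).2 ⟨t, hxy⟩) with ⟨j, hj, hL⟩ | h
          · exact Or.inl ⟨j, hj, (hαβ j x y).1 hL⟩
          · exact Or.inr (Or.inl h)))
    rw [card_univ, Fintype.card_fin] at e3 e4
    exact ⟨BU2, BV2, e1, e2, by omega, by omega, fun t => e5 t (mem_univ t)⟩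
  · obtain ⟨τ, hτ⟩ := exists_imap hs
    obtain ⟨Δ, hΔ1, hΔ2, hΔ3⟩ := exists_block hf hD h2v2 hEd
    -- the triangles where the map changes a variable
    have hp0 := fun c : Fin n × (Option (Fin D) → Bool) => exists_rect A
      (fun o : Option (Fin D) => o.elim c.1 (τ c.1)) c.2 (fun z => s z c.1 = !(c.2 none))
      (fun z z' h1 h2 h3 => by
        rw [← h3]
        exact (hτ c.1 z z' h1 fun d => h2 (some d)).symm)
    choose pX pY hp using hp0
    have hv0 := fun c : Fin m × (Fin w → Fin D → Bool) => exists_rect A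
      (fun p : Fin w × Fin D => τ ((f c.1).1 p.1) p.2) (fun p => c.2 p.1 p.2)
      (fun z => FalseAll (f c.1) (s z))
      (fun z z' h1 h2 h3 e => by
        rw [← hτ ((f c.1).1 e) z z' h1 fun d => h2 (e, d)]
        exact h3 e)
    choose vX vY hv using hv0
    have hviol : ∀ (c : Fin m × (Fin w → Fin D → Bool)) (x y : Fin n → Bool),
        (pat τ (f c.1) (mix (inS A) x y) = c.2 ∧ FalseAll (f c.1) (s (mix (inS A) x y))) ↔
          vX c x ∧ vY c y := by
      intro c x y
      rw [← hv c x y]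
      refine and_congr_left fun _ => ⟨fun h p => ?_, fun h => ?_⟩
      · rw [← h]
        rfl
      · funext e d
        exact h (e, d)
    have hrule : ∀ {BU' : Finset {x // P x}} {BV' : Finset {y // Q y}}, BU ⊆ BU' → BV ⊆ BV' →
        ∀ j < i, Follows k (toCNF f) H L j (H j) (L j) ∨
          ∀ t, App (fun x => hitS A B v f x0 B x.1) (fun y => hitS A B v f x0 A y.1) R R BU' BV'
            (α j t) (β j t) := by
      intro BU' BV' hU hV j hj
      rcases href.2.2 j with h1 | ⟨h1, -⟩
      · exact Or.inl h1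
      · exact Or.inr fun t => app_anti ((hap j hj h1 t).mono hU hV) hrR hrR (fun _ => le_rfl)
          fun _ => le_rfl
    have hfam := app_family (univ : Finset ((Fin n × (Option (Fin D) → Bool)) × Fin k0))
      (S := fun x : {x // P x} => hitS A B v f x0 B x.1)
      (T := fun y : {y // Q y} => hitS A B v f x0 A y.1) (r := r) (s := r)
      (α := fun c x => if pX c.1 x.1 then α i c.2 x else ⊥)
      (β := fun c y => if pY c.1 y.1 then β i c.2 y else ⊤)
      (dU := (m + 1) ^ r * (m * 2 ^ (w * D) * bU) + (r2 + t0) ^ r * 2 ^ (B.card - v * r))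
      (dV := r ^ r * 2 ^ (A.card - v * r) + (m + 1) ^ r * 2 ^ (A.card - z)) (BU := BU) (BV := BV)
      (fun c _ BU' BV' hU hV => by
        have hlt : ∀ (x : {x // P x}) (y : {y // Q y}),
            (if pY c.1 y.1 then β i c.2 y else ⊤) < (if pX c.1 x.1 then α i c.2 x else ⊥) →
            pX c.1 x.1 ∧ pY c.1 y.1 ∧ β i c.2 y < α i c.2 x := by
          intro x y hxy
          by_cases hx : pX c.1 x.1
          · by_cases hy : pY c.1 y.1
            · rw [if_pos hx, if_pos hy] at hxy
              exact ⟨hx, hy, hxy⟩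
            · rw [if_neg hy] at hxy
              exact absurd hxy not_top_lt
          · rw [if_neg hx] at hxy
            exact absurd hxy not_lt_bot
        refine rigid_app hf hΔ1 hΔ2 hq (by omega) hrR hvRA hvRB hzA hJ hqh hvo hnum
          (le_trans (Nat.mul_le_mul_right _ (Nat.mul_le_mul_right _ (Nat.le_succ m))) hbVm)
          hP hQ hτ c.1.1 (c.1.2 none) (fun x y hxy => ?_) (fun θ c' hc' => ?_)
        · obtain ⟨h1, h2, -⟩ := hlt x y hxy
          have h3 := (hp c.1 x.1 y.1).2 ⟨h1, h2⟩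
          exact ⟨h3.1 none, h3.2⟩
        · obtain ⟨BU2, BV2, e1, e2, e3, e4, e5⟩ := rect_false (kk := kk) (ι := Empty)
            (BU := BU') (BV := BV') (a := fun c => c.elim) (b := fun c => c.elim)
            hf.spread hR hvRA hvRB hP hQ hcl hαβ i (hrule hU hV)
            (by rw [Fintype.card_empty]; omega) (fun c => c.elim)
            ((hσ1 _ (cla_mem f c'.1)).resolve_left (hΔ3 _ hc'))
            (fun x => θ < (if pX c.1 x.1 then α i c.2 x else ⊥) ∧ vX c' x.1)
            (fun y => (if pY c.1 y.1 then β i c.2 y else ⊤) ≤ θ ∧ vY c' y.1)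
            (fun x y hx hy => by
              left
              obtain ⟨h1, h2, h3⟩ := hlt x y (lt_of_le_of_lt hy.1 hx.1)
              refine ⟨(hαβ i x y).2 ⟨_, h3⟩, ?_⟩
              rw [false_all]
              exact ((hviol c' x.1 y.1).2 ⟨hx.2, hy.2⟩).2)
          refine ⟨BU2, BV2, e1, e2, by rw [hbU]; exact e3, by rw [hbV]; exact e4,
            fun x hx hθ => ?_⟩
          by_cases hxv : vX c' x.1
          · obtain ⟨E, hE1, hE2, hE3⟩ := elems_left e5 hx
            refine ⟨E, hE1, hE2, fun y hy hyθ hpa hvi => hE3 y hy ?_⟩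
            rw [if_pos ⟨hyθ, ((hviol c' x.1 y.1).1 ⟨hpa, hvi⟩).2⟩, if_pos ⟨hθ, hxv⟩]
            norm_num
          · exact ⟨∅, by simp, by simp, fun y _ _ hpa hvi =>
              absurd ((hviol c' x.1 y.1).1 ⟨hpa, hvi⟩).1 hxv⟩)
    obtain ⟨BU1, BV1, f1, f2, f3, f4, f5⟩ := hfam
    have hcard : Fintype.card (Fin n × (Option (Fin D) → Bool)) = n * 2 ^ (D + 1) := by
      rw [Fintype.card_prod, Fintype.card_fun, Fintype.card_bool, Fintype.card_fin,
        Fintype.card_option, Fintype.card_fin]
    rw [card_univ, Fintype.card_prod, hcard, Fintype.card_fin] at f3 f4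
    obtain ⟨BU', BV', g1, g2, g3, g4, g5⟩ := app_family (univ : Finset (Fin k0))
      (S := fun x : {x // P x} => hitS A B v f x0 B x.1)
      (T := fun y : {y // Q y} => hitS A B v f x0 A y.1) (r := r) (s := r)
      (α := α i) (β := β i)
      (dU := (m + 1) ^ r * bU + R ^ r * 2 ^ (B.card - v * r))
      (dV := r ^ r * 2 ^ (A.card - v * r) + (m + 1) ^ r * 2 ^ (A.card - z))
      (BU := BU1) (BV := BV1)
      (fun t _ BU' BV' hU hV => by
        refine false_app (bV := bV) (by omega)
          (fun M hM => hit_count_sub hsp hvrB hP le_rfl hM)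
          (fun M hM => hit_count_sub hsp hvrA hQ le_rfl hM) card_small ?_ (fun θ => ?_)
        · have h1 : bV ≤ (m + 1) * 2 ^ (w * D) * bV :=
            Nat.le_mul_of_pos_left _ (by positivity)
          exact h1.trans (hbVm.trans (Nat.pow_le_pow_right (by norm_num) (by omega)))
        · obtain ⟨BU2, BV2, e1, e2, e3, e4, e5⟩ := rect_false (kk := kk)
            (ι := Fin n × (Option (Fin D) → Bool))
            (BU := BU') (BV := BV')
            (a := fun c x => if pX c x.1 then α i t x else ⊥)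
            (b := fun c y => if pY c y.1 then β i t y else ⊤)
            hf.spread hR hvRA hvRB hP hQ hcl hαβ i (hrule (f1.trans hU) (f2.trans hV))
            (by rw [hcard]; omega)
            (fun c => app_anti ((f5 (c, t) (mem_univ _)).mono hU hV) hrR hrR (fun _ => le_rfl)
              fun _ => le_rfl) hσ2
            (fun x => θ < α i t x) (fun y => β i t y ≤ θ)
            (fun x y hx hy => by
              have hxy : β i t y < α i t x := lt_of_le_of_lt hy hx
              by_cases hfix : s (mix (inS A) x.1 y.1) = mix (inS A) x.1 y.1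
              · exact Or.inl ⟨(hαβ i x y).2 ⟨t, hxy⟩, hfix⟩
              · right
                obtain ⟨u, hu⟩ : ∃ u, s (mix (inS A) x.1 y.1) u ≠
                    mix (inS A) x.1 y.1 u := by
                  by_contra hno
                  push Not at hno
                  exact hfix (funext hno)
                refine ⟨(u, fun o => mix (inS A) x.1 y.1 (o.elim u (τ u))), ?_⟩
                have h5 := (hp (u, fun o => mix (inS A) x.1 y.1 (o.elim u (τ u)))
                  x.1 y.1).1 ⟨fun _ => rfl, by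
                    change s (mix (inS A) x.1 y.1) u = !(mix (inS A) x.1 y.1 u)
                    revert hu
                    cases s (mix (inS A) x.1 y.1) u <;> cases mix (inS A) x.1 y.1 u <;> simp⟩
                rw [if_pos h5.1, if_pos h5.2]
                exact hxy)
          refine ⟨BU2, BV2, e1, e2, by rw [hbU]; exact e3, by rw [hbV]; exact e4,
            fun y hy hθ => ?_⟩
          obtain ⟨K, hK1, hK2, hK3⟩ := elems_right e5 hy
          refine ⟨K, hK1, hK2, fun x hx hxθ => hK3 x hx ?_⟩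
          rw [if_pos hθ, if_pos hxθ]
          norm_num)
    rw [card_univ, Fintype.card_fin] at g3 g4
    exact ⟨BU', BV', f1.trans g1, f2.trans g2, by omega, by omega, fun t => g5 t (mem_univ t)⟩

end Pool.Agent.MP_9cec2c_lc.RedDom
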