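import Pool.Agent.Lib.MP_9cec2c_lc.RQRigid
import Pool.Agent.Lib.MP_9cec2c_lc.RPMain

/-!
The approximation of the lines of a refutation with subproofs.
-/

set_option autoImplicit false
set_option linter.unusedSectionVars false

namespace Pool.Agent.MP_9cec2c_lc.RedDom

open Finset
open Pool.Agent.MP_9cec2c_lc.LovSch
open Pool.Agent.MP_9cec2c_lc.Redun (inS inS_true cyl mem_cyl card_cyl hitS mem_hitS hit_count_sub
  SatR app_family card_small FalseAll)

variable {n m w D : ℕ}

/-- The premises as indices. -/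
theorem follows_idx {k S : ℕ} {f : ClauseList n m w} {H T : Fin S → (Fin n → Bool) → Prop}
    {i : Fin S} {N Q : (Fin n → Bool) → Prop} (h : Follows k (toCNF f) H T i N Q) :
    ∃ (P : Finset (Fin S)) (G : Finset (Fin m)), P.card ≤ k ∧ G.card ≤ k ∧
      (∀ j ∈ P, j < i ∧ ∀ x, N x → H j x) ∧
      ∀ z, N z → ¬ Q z → (∃ j ∈ P, ¬ T j z) ∨ ∃ e ∈ G, ¬ Holds z (cla f e) := by
  classical
  obtain ⟨P, G, h1, h2, h3, h4, h5⟩ := h
  have hG : ∀ C : G, ∃ e : Fin m, C.1 = cla f e := by
    intro C
    have := h3 C.2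
    unfold toCNF at this
    obtain ⟨e, -, he⟩ := mem_image.1 this
    exact ⟨e, he.symm⟩
  choose g hg using hG
  refine ⟨P, univ.image g, h1, ?_, h4, fun z hz hQ => ?_⟩
  · refine card_image_le.trans ?_
    rw [card_univ, Fintype.card_coe]
    exact h2
  · by_contra hcon
    push Not at hcon
    refine hQ (h5 z hz hcon.1 fun C hC => ?_)
    have := hcon.2 (g ⟨C, hC⟩) (mem_image_of_mem _ (mem_univ _))
    rw [← hg ⟨C, hC⟩] at this
    exact this

theorem false_all {f : ClauseList n m w} {c : Fin m} {z : Fin n → Bool} :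
    ¬ Holds z (cla f c) ↔ FalseAll (f c) z := by
  classical
  unfold Holds FalseAll cla
  constructor
  · intro h e he
    exact h ⟨((f c).1 e, (f c).2 e), mem_image_of_mem _ (mem_univ _), he⟩
  · rintro h ⟨l, hl, hl'⟩
    obtain ⟨e, -, rfl⟩ := mem_image.1 hl
    exact h e hl'

variable {f : ClauseList n m w} {v R v2 r2 t0 m0 N : ℕ} {A B : Finset (Fin n)}
  {x0 : Fin n → Bool} {P Q : (Fin n → Bool) → Prop}

/-- The false set of a line is a triangle. -/
theorem exists_tri {T : (Fin n → Bool) → Prop}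
    (hP : ∀ x, P x → ∀ u, u ∉ B → x u = x0 u) (hQ : ∀ y, Q y → ∀ u, u ∉ A → y u = x0 u)
    (h : Simple (A : Set (Fin n)) B T) :
    ∃ (α : Fin 1 → {x // P x} → EReal) (β : Fin 1 → {y // Q y} → EReal),
      ∀ x y, ¬ T (mix (inS A) x.1 y.1) ↔ ∃ t, β t y < α t x := by
  obtain ⟨a, b, ha, hb, hT⟩ := h
  refine ⟨fun _ x => ((- b x.1 : ℝ) : EReal), fun _ y => ((a y.1 : ℝ) : EReal), fun x y => ?_⟩
  have h1 : a (mix (inS A) x.1 y.1) = a y.1 :=
    ha fun u hu => mix_off (hP := hP) (hQ := hQ) x.2 y.2 (by simpa using hu)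
  have h2 : b (mix (inS A) x.1 y.1) = b x.1 :=
    hb fun u hu => mix_notMem (by simpa using hu)
  rw [hT, h1, h2, not_le]
  simp only [exists_const, EReal.coe_lt_coe_iff]
  constructor <;> intro h <;> linarith

open scoped Classical in
/-- A triangle covered by the false sets of few lines and clauses and by further triangles. -/
theorem cover_app (hsp : Spread v R f) {k k0 S : ℕ} (hR : 1 < R) (hvRA : v * R ≤ A.card)
    (hvRB : v * R ≤ B.card) (hP : ∀ x, P x → ∀ u, u ∉ B → x u = x0 u)
    (hQ : ∀ y, Q y → ∀ u, u ∉ A → y u = x0 u)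
    (hcl : ∀ x y, P x → Q y → ∀ i : Fin m, ¬ Holds (mix (inS A) x y) (cla f i) →
        i ∈ hitS A B v f x0 B x ∧ i ∈ hitS A B v f x0 A y)
    {BU : Finset {x // P x}} {BV : Finset {y // Q y}}
    {α : Fin S → Fin k0 → {x // P x} → EReal} {β : Fin S → Fin k0 → {y // Q y} → EReal}
    {M : Finset (Fin S)} {G : Finset (Fin m)} (hMk : M.card ≤ k) (hG : G.card ≤ k)
    (hPi : ∀ j ∈ M, ∀ t, App (fun x => hitS A B v f x0 B x.1)
      (fun y => hitS A B v f x0 A y.1) R R BU BV (α j t) (β j t))
    {ι : Type} [Fintype ι] {a : ι → {x // P x} → EReal}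
    {b : ι → {y // Q y} → EReal} {kk : ℕ} (hι : Fintype.card ι + k * k0 + k ≤ kk)
    (hab : ∀ c, App (fun x => hitS A B v f x0 B x.1) (fun y => hitS A B v f x0 A y.1)
      R R BU BV (a c) (b c))
    {α' : {x // P x} → EReal} {β' : {y // Q y} → EReal}
    (hcov : ∀ x y, β' y < α' x → (∃ j ∈ M, ∃ t, β j t y < α j t x) ∨
      (∃ e ∈ G, ¬ Holds (mix (inS A) x.1 y.1) (cla f e)) ∨ ∃ c, b c y < a c x) :
    ∃ (BU' : Finset {x // P x}) (BV' : Finset {y // Q y}),
      BU ⊆ BU' ∧ BV ⊆ BV' ∧
      BU'.card ≤ BU.card + (kk * R) ^ R * 2 ^ (B.card - v * R) ∧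
      BV'.card ≤ BV.card + R ^ R * 2 ^ (A.card - v * R) ∧
      App (fun x => hitS A B v f x0 B x.1) (fun y => hitS A B v f x0 A y.1) R R BU' BV'
        α' β' := by
  refine app_combine (ι := (M × Fin k0) ⊕ G ⊕ ι) (k := kk) (CU := 2 ^ (B.card - v * R))
    (CV := 2 ^ (A.card - v * R)) ?_ (by omega) (by omega)
    (fun M hM => hit_count_sub hsp hvRB hP le_rfl hM)
    (fun M hM => hit_count_sub hsp hvRA hQ le_rfl hM)
    (a := fun c x => match c with
      | Sum.inl j => α j.1.1 j.2 x
      | Sum.inr (Sum.inl e) => if e.1 ∈ hitS A B v f x0 B x.1 then 1 else 0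
      | Sum.inr (Sum.inr c) => a c x)
    (b := fun c y => match c with
      | Sum.inl j => β j.1.1 j.2 y
      | Sum.inr (Sum.inl e) => if e.1 ∈ hitS A B v f x0 A y.1 then 0 else 1
      | Sum.inr (Sum.inr c) => b c y)
    (fun c => ?_) (fun x y hxy => ?_)
  · rw [Fintype.card_sum, Fintype.card_sum, Fintype.card_prod, Fintype.card_coe,
      Fintype.card_coe, Fintype.card_fin]
    have : M.card * k0 ≤ k * k0 := Nat.mul_le_mul_right _ hMk
    omega
  · rcases c with j | e | c
    · exact hPi j.1.1 j.1.2 j.2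
    · refine app_leaf hR hR e.1 fun x y hxy => ?_
      simp only at hxy
      by_cases h1 : e.1 ∈ hitS A B v f x0 B x.1
      · by_cases h2 : e.1 ∈ hitS A B v f x0 A y.1
        · exact ⟨h1, h2⟩
        · rw [if_pos h1, if_neg h2] at hxy
          exact absurd hxy (lt_irrefl _)
      · by_cases h2 : e.1 ∈ hitS A B v f x0 A y.1
        · rw [if_neg h1, if_pos h2] at hxy
          exact absurd hxy (lt_irrefl _)
        · rw [if_neg h1, if_neg h2] at hxy
          exact absurd hxy (by norm_num)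
    · exact hab c
  · rcases hcov x y hxy with ⟨j, hj, t, ht⟩ | ⟨e, he, he'⟩ | ⟨c, hc⟩
    · exact ⟨Sum.inl (⟨j, hj⟩, t), ht⟩
    · obtain ⟨h1, h2⟩ := hcl _ _ x.2 y.2 e he'
      refine ⟨Sum.inr (Sum.inl ⟨e, he⟩), ?_⟩
      simp only
      rw [if_pos h1, if_pos h2]
      norm_num
    · exact ⟨Sum.inr (Sum.inr c), hc⟩

open scoped Classical in
/-- The lines that are stated for all points of a rectangle are approximable in the rectangle. -/
theorem inner_lines (hsp : Spread v R f) {k k0 S kk : ℕ} (hR : 1 < R) (hvRA : v * R ≤ A.card)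
    (hvRB : v * R ≤ B.card) (hP : ∀ x, P x → ∀ u, u ∉ B → x u = x0 u)
    (hQ : ∀ y, Q y → ∀ u, u ∉ A → y u = x0 u)
    (hcl : ∀ x y, P x → Q y → ∀ i : Fin m, ¬ Holds (mix (inS A) x y) (cla f i) →
        i ∈ hitS A B v f x0 B x ∧ i ∈ hitS A B v f x0 A y)
    {BU : Finset {x // P x}} {BV : Finset {y // Q y}} {H L : Fin S → (Fin n → Bool) → Prop}
    {α : Fin S → Fin k0 → {x // P x} → EReal} {β : Fin S → Fin k0 → {y // Q y} → EReal}
    (hαβ : ∀ i x y, ¬ L i (mix (inS A) x.1 y.1) ↔ ∃ t, β i t y < α i t x) (i : Fin S)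
    (hrule : ∀ j < i, Follows k (toCNF f) H L j (H j) (L j) ∨
      ∀ t, App (fun x => hitS A B v f x0 B x.1) (fun y => hitS A B v f x0 A y.1) R R BU BV
        (α j t) (β j t))
    {T : (Fin n → Bool) → Prop} {ι : Type} [Fintype ι] {a : ι → {x // P x} → EReal}
    {b : ι → {y // Q y} → EReal} (hι : Fintype.card ι + k * k0 + k ≤ kk)
    (hab : ∀ c, App (fun x => hitS A B v f x0 B x.1) (fun y => hitS A B v f x0 A y.1)
      R R BU BV (a c) (b c))
    (RX : {x // P x} → Prop) (RY : {y // Q y} → Prop)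
    (hT : ∀ x y, RX x → RY y → T (mix (inS A) x.1 y.1) ∨ ∃ c, b c y < a c x) (N' : ℕ) :
    N' ≤ S → ∃ (BU' : Finset {x // P x}) (BV' : Finset {y // Q y}),
      BU ⊆ BU' ∧ BV ⊆ BV' ∧
      BU'.card ≤ BU.card + N' * (k0 * ((kk * R) ^ R * 2 ^ (B.card - v * R))) ∧
      BV'.card ≤ BV.card + N' * (k0 * (R ^ R * 2 ^ (A.card - v * R))) ∧
      ∀ j : Fin S, (j : ℕ) < N' → j < i → (∀ x, T x → H j x) → ∀ t,
        App (fun x => hitS A B v f x0 B x.1) (fun y => hitS A B v f x0 A y.1) R R BU' BV'
          (fun x => if RX x then α j t x else ⊥) (fun y => if RY y then β j t y else ⊤) := by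
  have hlt : ∀ (j : Fin S) (t : Fin k0) (x : {x // P x}) (y : {y // Q y}),
      (if RY y then β j t y else ⊤) < (if RX x then α j t x else ⊥) →
      RX x ∧ RY y ∧ β j t y < α j t x := by
    intro j t x y hxy
    by_cases hx : RX x
    · by_cases hy : RY y
      · rw [if_pos hx, if_pos hy] at hxy
        exact ⟨hx, hy, hxy⟩
      · rw [if_neg hy] at hxy
        exact absurd hxy not_top_lt
    · rw [if_neg hx] at hxy
      exact absurd hxy not_lt_bot
  induction N' with
  | zero =>
    intro _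
    exact ⟨BU, BV, Subset.refl _, Subset.refl _, by simp, by simp, fun j hj => absurd hj (by omega)⟩
  | succ N' ih =>
    intro hN'
    obtain ⟨BU1, BV1, h1, h2, h3, h4, h5⟩ := ih (by omega)
    obtain ⟨j, hj⟩ : ∃ j : Fin S, (j : ℕ) = N' := ⟨⟨N', by omega⟩, rfl⟩
    by_cases hji : j < i ∧ ∀ x, T x → H j x
    · obtain ⟨hji, hTj⟩ := hji
      rcases hrule j hji with hfol | happ
      · obtain ⟨M, G, g1, g2, g3, g4⟩ := follows_idx hfol
        obtain ⟨BU2, BV2, e1, e2, e3, e4, e5⟩ := app_family (univ : Finset (Fin k0))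
          (S := fun x : {x // P x} => hitS A B v f x0 B x.1)
          (T := fun y : {y // Q y} => hitS A B v f x0 A y.1) (r := R) (s := R)
          (α := fun t x => if RX x then α j t x else ⊥)
          (β := fun t y => if RY y then β j t y else ⊤)
          (dU := (kk * R) ^ R * 2 ^ (B.card - v * R)) (dV := R ^ R * 2 ^ (A.card - v * R))
          (BU := BU1) (BV := BV1)
          (fun t _ BU' BV' hU hV => cover_app (kk := kk)
            (α := fun j t x => if RX x then α j t x else ⊥)
            (β := fun j t y => if RY y then β j t y else ⊤) hsp hR hvRA hvRB hP hQ hcl g1 g2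
            (fun j' hj' t => (h5 j' (by
                have := (g3 j' hj').1
                rw [Fin.lt_def] at this
                omega) (lt_trans (g3 j' hj').1 hji) (fun x hx => (g3 j' hj').2 x (hTj x hx))
                t).mono hU hV) hι
            (fun c => (hab c).mono (h1.trans hU) (h2.trans hV))
            (fun x y hxy => by
              obtain ⟨hx, hy, hxy'⟩ := hlt j t x y hxy
              rcases hT x y hx hy with hTT | hc
              · rcases g4 _ (hTj _ hTT) (not_not.1 fun h => h ((hαβ j x y).2 ⟨t, hxy'⟩)) with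
                  ⟨j', hj', hL⟩ | h
                · obtain ⟨t', ht'⟩ := (hαβ j' x y).1 hL
                  refine Or.inl ⟨j', hj', t', ?_⟩
                  rw [if_pos hx, if_pos hy]
                  exact ht'
                · exact Or.inr (Or.inl h)
              · exact Or.inr (Or.inr hc)))
        rw [card_univ, Fintype.card_fin] at e3 e4
        refine ⟨BU2, BV2, h1.trans e1, h2.trans e2, ?_, ?_, fun j' hj' hj'i hTj' t => ?_⟩
        · rw [add_mul, one_mul]
          omega
        · rw [add_mul, one_mul]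
          omega
        · rcases Nat.lt_succ_iff_lt_or_eq.1 hj' with hj' | hj'
          · exact (h5 j' hj' hj'i hTj' t).mono e1 e2
          · have : j' = j := Fin.ext (by rw [hj', hj])
            rw [this]
            exact e5 t (mem_univ t)
      · refine ⟨BU1, BV1, h1, h2, ?_, ?_, fun j' hj' hj'i hTj' t => ?_⟩
        · rw [add_mul, one_mul]
          omega
        · rw [add_mul, one_mul]
          omega
        · rcases Nat.lt_succ_iff_lt_or_eq.1 hj' with hj' | hj'
          · exact h5 j' hj' hj'i hTj' t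
          · have : j' = j := Fin.ext (by rw [hj', hj])
            rw [this]
            refine app_anti ((happ t).mono h1 h2) le_rfl le_rfl (fun x => ?_) fun y => ?_
            · split_ifs
              · exact le_rfl
              · exact bot_le
            · split_ifs
              · exact le_rfl
              · exact le_top
    · refine ⟨BU1, BV1, h1, h2, ?_, ?_, fun j' hj' hj'i hTj' t => ?_⟩
      · rw [add_mul, one_mul]
        omega
      · rw [add_mul, one_mul]
        omega
      · rcases Nat.lt_succ_iff_lt_or_eq.1 hj' with hj' | hj'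
        · exact h5 j' hj' hj'i hTj' t
        · have : j' = j := Fin.ext (by rw [hj', hj])
          rw [this] at hj'i hTj'
          exact absurd ⟨hj'i, hTj'⟩ hji

open scoped Classical in
/-- A rectangle in which a contradiction follows is approximable. -/
theorem rect_false (hsp : Spread v R f) {k k0 S kk : ℕ} (hR : 1 < R) (hvRA : v * R ≤ A.card)
    (hvRB : v * R ≤ B.card) (hP : ∀ x, P x → ∀ u, u ∉ B → x u = x0 u)
    (hQ : ∀ y, Q y → ∀ u, u ∉ A → y u = x0 u)
    (hcl : ∀ x y, P x → Q y → ∀ i : Fin m, ¬ Holds (mix (inS A) x y) (cla f i) →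
        i ∈ hitS A B v f x0 B x ∧ i ∈ hitS A B v f x0 A y)
    {BU : Finset {x // P x}} {BV : Finset {y // Q y}} {H L : Fin S → (Fin n → Bool) → Prop}
    {α : Fin S → Fin k0 → {x // P x} → EReal} {β : Fin S → Fin k0 → {y // Q y} → EReal}
    (hαβ : ∀ i x y, ¬ L i (mix (inS A) x.1 y.1) ↔ ∃ t, β i t y < α i t x) (i : Fin S)
    (hrule : ∀ j < i, Follows k (toCNF f) H L j (H j) (L j) ∨
      ∀ t, App (fun x => hitS A B v f x0 B x.1) (fun y => hitS A B v f x0 A y.1) R R BU BV
        (α j t) (β j t))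
    {T : (Fin n → Bool) → Prop} {ι : Type} [Fintype ι] {a : ι → {x // P x} → EReal}
    {b : ι → {y // Q y} → EReal} (hι : Fintype.card ι + k * k0 + k ≤ kk)
    (hab : ∀ c, App (fun x => hitS A B v f x0 B x.1) (fun y => hitS A B v f x0 A y.1)
      R R BU BV (a c) (b c))
    (hfol : Follows k (toCNF f) H L i T fun _ => False)
    (RX : {x // P x} → Prop) (RY : {y // Q y} → Prop)
    (hT : ∀ x y, RX x → RY y → T (mix (inS A) x.1 y.1) ∨ ∃ c, b c y < a c x) :
    ∃ (BU' : Finset {x // P x}) (BV' : Finset {y // Q y}),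
      BU ⊆ BU' ∧ BV ⊆ BV' ∧
      BU'.card ≤ BU.card + (S * k0 + 1) * ((kk * R) ^ R * 2 ^ (B.card - v * R)) ∧
      BV'.card ≤ BV.card + (S * k0 + 1) * (R ^ R * 2 ^ (A.card - v * R)) ∧
      App (fun x => hitS A B v f x0 B x.1) (fun y => hitS A B v f x0 A y.1) R R BU' BV'
        (fun x => if RX x then 1 else ⊥) (fun y => if RY y then 0 else ⊤) := by
  obtain ⟨BU1, BV1, h1, h2, h3, h4, h5⟩ := inner_lines hsp hR hvRA hvRB hP hQ hcl hαβ i hrule
    hι hab RX RY hT S le_rfl
  obtain ⟨M, G, g1, g2, g3, g4⟩ := follows_idx hfol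
  obtain ⟨BU2, BV2, e1, e2, e3, e4, e5⟩ := cover_app (kk := kk) (BU := BU1) (BV := BV1)
    (α := fun j t x => if RX x then α j t x else ⊥)
    (β := fun j t y => if RY y then β j t y else ⊤)
    (α' := fun x => if RX x then 1 else ⊥) (β' := fun y => if RY y then 0 else ⊤)
    hsp hR hvRA hvRB hP hQ hcl g1 g2
    (fun j hj t => h5 j j.2 (g3 j hj).1 (g3 j hj).2 t) hι
    (fun c => (hab c).mono h1 h2)
    (fun x y hxy => by
      by_cases hx : RX x
      · by_cases hy : RY y
        · rcases hT x y hx hy with hTT | hc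
          · rcases g4 _ hTT not_false with ⟨j', hj', hL⟩ | h
            · obtain ⟨t', ht'⟩ := (hαβ j' x y).1 hL
              refine Or.inl ⟨j', hj', t', ?_⟩
              rw [if_pos hx, if_pos hy]
              exact ht'
            · exact Or.inr (Or.inl h)
          · exact Or.inr (Or.inr hc)
        · rw [if_neg hy] at hxy
          exact absurd hxy not_top_lt
      · rw [if_neg hx] at hxy
        exact absurd hxy not_lt_bot)
  refine ⟨BU2, BV2, h1.trans e1, h2.trans e2, ?_, ?_, e5⟩
  · have h6 : S * (k0 * ((kk * R) ^ R * 2 ^ (B.card - v * R))) =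
        S * k0 * ((kk * R) ^ R * 2 ^ (B.card - v * R)) := by ring
    rw [add_mul, one_mul]
    omega
  · have h6 : S * (k0 * (R ^ R * 2 ^ (A.card - v * R))) =
        S * k0 * (R ^ R * 2 ^ (A.card - v * R)) := by ring
    rw [add_mul, one_mul]
    omega

end Pool.Agent.MP_9cec2c_lc.RedDom
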