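import Pool.Agent.Lib.MP_9cec2c_lc.RQCore
import Pool.Agent.Lib.MP_9cec2c_lc.RPProb

/-!
Random CNFs: the clauses overlap rarely with the images of the clauses under local maps.
-/

set_option autoImplicit false
set_option linter.unusedSectionVars false

namespace Pool.Agent.MP_9cec2c_lc.RedDom

open Finset
open Pool.Agent.MP_9cec2c_lc.SubstRed
open Pool.Agent.MP_9cec2c_lc.FormulaLines
open Pool.Agent.MP_9cec2c_lc.LovSch
open Pool.Agent.MP_9cec2c_lc.Redun (exists_matching FalseAll pr_around none_of)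

variable {n m w D : ℕ}

/-- A large matching of overlapping clauses. -/
theorem pr_matching (hw : w ≤ n) {v2 T : ℕ} (τ : IMap n D) (a b : Fin T → Fin m)
    (hb : Function.Injective b) (hab : ∀ i j, a i ≠ b j) :
    pr (fun f : ClauseList n m w => ∀ i,
      2 * v2 ≤ (univ.filter fun p => (f (b i)).1 p ∈ img τ (f (a i))).card) ≤
        (2 ^ w * ((w * D : ℕ) / n : ℝ) ^ (2 * v2)) ^ T := by
  classical
  have hne := nonempty_emb hw
  have h1 := indep (ι := Fin m) (α := (Fin w ↪ Fin n) × (Fin w → Bool)) (univ.image b)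
    (fun j H x => ∀ i, b i = j → 2 * v2 ≤ (univ.filter fun p => x.1 p ∈ img τ (H (a i))).card)
    (2 ^ w * ((w * D : ℕ) / n : ℝ) ^ (2 * v2)) (fun j hj j' hj' H E x => by
      obtain ⟨i', -, rfl⟩ := mem_image.1 hj'
      have : ∀ i, Function.update H (b i') E (a i) = H (a i) := fun i =>
        Function.update_of_ne (hab i i') _ _
      simp only [this]) (fun j hj H => by
      obtain ⟨i, -, rfl⟩ := mem_image.1 hj
      refine le_trans (pr_mono (q := fun x : (Fin w ↪ Fin n) × (Fin w → Bool) =>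
        2 * v2 ≤ (univ.filter fun p => x.1 p ∈ img τ (H (a i))).card) fun x hx => hx i rfl) ?_
      refine (pr_dense hw v2 (img τ (H (a i)))).trans ?_
      have := card_img τ (H (a i))
      gcongr)
  rw [card_image_of_injective _ hb, card_univ, Fintype.card_fin] at h1
  refine le_trans (pr_mono fun f hf => ?_) h1
  intro j hj i hi
  rw [← hi]
  exact hf i

theorem card_imap : Fintype.card (IMap n D) = (n ^ D) ^ n := by
  rw [Fintype.card_fun, Fintype.card_fun, Fintype.card_fin, Fintype.card_fin]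

/-- The clauses overlap rarely with the images of the clauses. -/
theorem pr_not_overlap (hw : w ≤ n) {v2 T t0 : ℕ} (hT : 2 * T ≤ t0) (hm : m ≤ 3 ^ w) :
    pr (fun f : ClauseList n m w => ¬ ∀ τ : IMap n D, ∃ E0 : Finset (Fin m),
      E0.card ≤ t0 ∧ ∀ c e, c ≠ e → c ∉ E0 → e ∉ E0 →
        (univ.filter fun p => (f e).1 p ∈ img τ (f c)).card < 2 * v2) ≤
      ((n ^ D : ℕ) : ℝ) ^ n *
        (18 ^ w * ((w * D : ℕ) / n : ℝ) ^ (2 * v2)) ^ T := by
  classical
  have hne := nonempty_emb hw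
  obtain ⟨q0, hq0⟩ : ∃ q0 : ℝ, q0 = 2 ^ w * ((w * D : ℕ) / n : ℝ) ^ (2 * v2) := ⟨_, rfl⟩
  have hq00 : 0 ≤ q0 := by
    rw [hq0]
    positivity
  refine le_trans (pr_mono (q := fun f : ClauseList n m w =>
    ∃ σab : IMap n D × (Fin T → Fin m) × (Fin T → Fin m),
      (Function.Injective σab.2.2 ∧ ∀ i j, σab.2.1 i ≠ σab.2.2 j) ∧ ∀ i,
      2 * v2 ≤ (univ.filter fun p => (f (σab.2.2 i)).1 p ∈ img σab.1 (f (σab.2.1 i))).card)
    fun f hf => ?_) ?_
  · push Not at hf
    obtain ⟨σ, hσ⟩ := hf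
    rcases exists_matching (fun c e : Fin m =>
      2 * v2 ≤ (univ.filter fun p => (f e).1 p ∈ img σ (f c)).card) T with
      ⟨a, b, h1, h2, h3⟩ | ⟨E0, h1, h2⟩
    · exact ⟨(σ, a, b), ⟨h1, h2⟩, h3⟩
    · obtain ⟨c, e, h3, h4, h5, h6⟩ := hσ E0 (by omega)
      exact absurd h6 (h2 c e h3 h4 h5)
  · refine (pr_exists_fintype _).trans ?_
    have h1 : ∀ σab : IMap n D × (Fin T → Fin m) × (Fin T → Fin m),
        pr (fun f : ClauseList n m w =>
          (Function.Injective σab.2.2 ∧ ∀ i j, σab.2.1 i ≠ σab.2.2 j) ∧ ∀ i,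
          2 * v2 ≤ (univ.filter fun p => (f (σab.2.2 i)).1 p ∈ img σab.1 (f (σab.2.1 i))).card) ≤
          q0 ^ T := by
      rintro ⟨σ, a, b⟩
      by_cases hab : Function.Injective b ∧ ∀ i j, a i ≠ b j
      · refine (pr_mono fun f hf => hf.2).trans ?_
        rw [hq0]
        exact pr_matching hw σ a b hab.1 hab.2
      · refine le_trans (le_of_eq ?_) (pow_nonneg hq00 T)
        rw [pr_eq]
        have : (univ.filter fun f : ClauseList n m w =>
            (Function.Injective b ∧ ∀ i j, a i ≠ b j) ∧ ∀ i,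
            2 * v2 ≤ (univ.filter fun p => (f (b i)).1 p ∈ img σ (f (a i))).card) = ∅ := by
          rw [filter_eq_empty_iff]
          intro f _ hf
          exact hab hf.1
        rw [this, card_empty, Nat.cast_zero, zero_div]
    refine (sum_le_sum fun σab _ => h1 σab).trans ?_
    rw [sum_const, card_univ, Fintype.card_prod, Fintype.card_prod, card_imap, Fintype.card_fun,
      Fintype.card_fin, Fintype.card_fin, nsmul_eq_mul]
    have h3 : (m : ℝ) ≤ 3 ^ w := by exact_mod_cast hm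
    obtain ⟨c, hc⟩ : ∃ c : ℕ, c = n ^ D := ⟨_, rfl⟩
    rw [← hc]
    push_cast
    calc (c : ℝ) ^ n * ((m : ℝ) ^ T * (m : ℝ) ^ T) * q0 ^ T
        ≤ (c : ℝ) ^ n * (((3 : ℝ) ^ w) ^ T * ((3 : ℝ) ^ w) ^ T) * q0 ^ T := by gcongr
      _ = (c : ℝ) ^ n * ((3 ^ w * 3 ^ w * q0) ^ T) := by
          rw [mul_pow, mul_pow]
          ring
      _ = (c : ℝ) ^ n * (18 ^ w * ((w * D) / n : ℝ) ^ (2 * v2)) ^ T := by
          rw [hq0, ← mul_assoc, ← mul_pow, ← mul_pow]
          norm_num

theorem le_card_blk {B j a : ℕ} (hj : j < a) (hm : a * B ≤ m) :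
    B ≤ (blk m B j).card := by
  classical
  have h1 : (Ico (j * B) ((j + 1) * B)) ⊆ (blk m B j).image Fin.val := by
    intro i hi
    rw [mem_Ico] at hi
    have h2 : (j + 1) * B ≤ a * B := Nat.mul_le_mul_right _ hj
    refine mem_image.2 ⟨⟨i, by omega⟩, mem_filter.2 ⟨mem_univ _, ?_⟩, rfl⟩
    exact Nat.div_eq_of_lt_le hi.1 hi.2
  have h2 := card_le_card h1
  rw [card_image_of_injective _ Fin.val_injective, Nat.card_Ico] at h2
  have h3 : (j + 1) * B - j * B = B := by
    rw [← Nat.sub_mul]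
    simp
  omega

theorem card_blk_le {B : ℕ} (hB : 0 < B) (j : ℕ) : (blk m B j).card ≤ B := by
  classical
  have h1 : (blk m B j).image Fin.val ⊆ Ico (j * B) ((j + 1) * B) := by
    intro i hi
    obtain ⟨i', hi', rfl⟩ := mem_image.1 hi
    have h2 := (mem_filter.1 hi').2
    rw [mem_Ico]
    rw [Nat.div_eq_iff hB] at h2
    have h3 : (j + 1) * B = j * B + B := by ring
    omega
  have h2 := card_le_card h1
  rw [card_image_of_injective _ Fin.val_injective, Nat.card_Ico] at h2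
  have h3 : (j + 1) * B - j * B = B := by
    rw [← Nat.sub_mul]
    simp
  omega

/-- Many clauses of each block around each variable are false at each point. -/
theorem pr_not_near (hw : w ≤ n) (hw0 : 0 < w) {t d : ℕ} (ht : t < n)
    (hm : (d + 1) * n ^ 3 * 2 ^ w ≤ m) :
    pr (fun f : ClauseList n m w => ¬ ∀ j ≤ d, ∀ u z,
      t < (near f (blk m (n ^ 3 * 2 ^ w) j) u z).card) ≤
      ((d + 1 : ℕ) : ℝ) * ((n : ℝ) ^ 2 * (3 / 4) ^ n) := by
  classical
  have hne := nonempty_emb hw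
  have hn0 : 0 < n := by omega
  have hn : (0 : ℝ) < n := by exact_mod_cast hn0
  obtain ⟨B, hB⟩ : ∃ B, B = n ^ 2 * 2 ^ w := ⟨_, rfl⟩
  have hB0 : 0 < B := by
    rw [hB]
    positivity
  have hnB : n ^ 3 * 2 ^ w = B * n := by
    rw [hB]
    ring
  have hmB : (d + 1) * n * B ≤ m := by
    refine le_trans (le_of_eq ?_) hm
    rw [hB]
    ring
  refine le_trans (pr_mono (q := fun f : ClauseList n m w =>
    ∃ uzj : Fin n × (Fin n → Bool) × Fin ((d + 1) * n), ∀ i ∈ blk m B uzj.2.2,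
      ¬ ((∃ p, (f i).1 p = uzj.1) ∧ FalseAll (f i) uzj.2.1)) fun f hf => ?_) ?_
  · by_contra hcon
    push Not at hcon
    refine hf fun J hJ u z => ?_
    have h1 : ∀ j : Fin n, ∃ i ∈ blk m B (J * n + j), (∃ p, (f i).1 p = u) ∧
        FalseAll (f i) z := by
      intro j
      refine hcon (u, z, ⟨J * n + j, ?_⟩)
      calc J * n + j < J * n + n := Nat.add_lt_add_left j.2 _
        _ = (J + 1) * n := by ring
        _ ≤ (d + 1) * n := Nat.mul_le_mul_right _ (by omega)
    choose g hg1 hg2 using h1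
    have hginj : Function.Injective g := by
      intro j j' hjj
      have e1 := (mem_filter.1 (hg1 j)).2
      have e2 := (mem_filter.1 (hg1 j')).2
      rw [hjj] at e1
      exact Fin.ext (by omega)
    have h2 : univ.image g ⊆ near f (blk m (n ^ 3 * 2 ^ w) J) u z := by
      intro i hi
      obtain ⟨j, -, rfl⟩ := mem_image.1 hi
      unfold near
      rw [mem_filter]
      refine ⟨mem_filter.2 ⟨mem_univ _, ?_⟩, hg2 j⟩
      rw [hnB, ← Nat.div_div_eq_div_mul, (mem_filter.1 (hg1 j)).2]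
      refine Nat.div_eq_of_lt_le (Nat.le_add_right _ _) ?_
      calc J * n + j < J * n + n := Nat.add_lt_add_left j.2 _
        _ = (J + 1) * n := by ring
    have h3 := card_le_card h2
    rw [card_image_of_injective _ hginj, card_univ, Fintype.card_fin] at h3
    omega
  · refine (pr_exists_fintype _).trans ?_
    have h1 : ∀ uzj : Fin n × (Fin n → Bool) × Fin ((d + 1) * n),
        pr (fun f : ClauseList n m w => ∀ i ∈ blk m B uzj.2.2,
          ¬ ((∃ p, (f i).1 p = uzj.1) ∧ FalseAll (f i) uzj.2.1)) ≤ Real.exp (-n) := by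
      rintro ⟨u, z, j⟩
      refine none_of (fun c : (Fin w ↪ Fin n) × (Fin w → Bool) =>
        (∃ p, c.1 p = u) ∧ FalseAll c z) _ (pr_around hw hw0 u z) _ ?_
      have h2 : (B : ℝ) ≤ ((blk m B j).card : ℝ) := by
        exact_mod_cast le_card_blk j.2 hmB
      have h3 : (n : ℝ) = (1 / 2) ^ w / n * B := by
        rw [hB]
        push_cast
        rw [one_div, inv_pow]
        field_simp
      calc (n : ℝ) = (1 / 2) ^ w / n * B := h3
        _ ≤ (1 / 2) ^ w / n * ((blk m B j).card : ℝ) := by gcongr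
    refine (sum_le_sum fun uzj _ => h1 uzj).trans ?_
    rw [sum_const, card_univ, Fintype.card_prod, Fintype.card_prod, Fintype.card_fun,
      Fintype.card_fin, Fintype.card_bool, Fintype.card_fin, nsmul_eq_mul]
    obtain ⟨c, hc⟩ : ∃ c : ℕ, c = d + 1 := ⟨_, rfl⟩
    rw [← hc]
    push_cast
    have h4 : Real.exp (-n) = Real.exp (-1) ^ n := by
      rw [← Real.exp_nat_mul]
      congr 1
      ring
    rw [h4]
    have h5 : (2 : ℝ) ^ n * Real.exp (-1) ^ n ≤ (3 / 4) ^ n := by
      rw [← mul_pow]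
      refine pow_le_pow_left₀ (by positivity) ?_ _
      rw [Real.exp_neg]
      have h5 := Real.exp_one_gt_d9
      rw [← div_eq_mul_inv, div_le_div_iff₀ (by positivity) (by norm_num)]
      linarith
    calc (n : ℝ) * (2 ^ n * (c * n)) * Real.exp (-1) ^ n
        = c * ((n : ℝ) ^ 2 * (2 ^ n * Real.exp (-1) ^ n)) := by ring
      _ ≤ c * ((n : ℝ) ^ 2 * (3 / 4) ^ n) := by gcongr

/-- Few clauses of a small set around each variable are false at each point. -/
theorem pr_not_few (hw : w ≤ n) (hn : 12 ≤ n) (Δ : Finset (Fin m))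
    (hΔ : Δ.card ≤ n ^ 3 * 2 ^ w) :
    pr (fun f : ClauseList n m w => ¬ ∀ u z, (near f Δ u z).card ≤ n ^ 4) ≤
      2 ^ n * (1 / 4) ^ (n ^ 4) := by
  classical
  have hne := nonempty_emb hw
  have hn' : (12 : ℝ) ≤ n := by exact_mod_cast hn
  refine le_trans (pr_mono (q := fun f : ClauseList n m w =>
    ∃ z ∈ (univ : Finset (Fin n → Bool)), ∃ T ∈ powersetCard (n ^ 4) Δ,
      ∀ i ∈ T, ∀ e, z ((f i).1 e) ≠ (f i).2 e) fun f hf => ?_) ?_
  · push Not at hf
    obtain ⟨u, z, hlt⟩ := hf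
    obtain ⟨T, hT1, hT2⟩ := exists_subset_card_eq hlt.le
    refine ⟨z, mem_univ _, T, mem_powersetCard.2 ⟨fun i hi => ?_, hT2⟩, fun i hi => ?_⟩
    · have := hT1 hi
      unfold near at this
      exact (mem_filter.1 this).1
    · have := hT1 hi
      unfold near at this
      exact (mem_filter.1 this).2.2
  · refine (pr_exists _ _).trans ?_
    have h1 : ∀ z ∈ (univ : Finset (Fin n → Bool)),
        pr (fun f : ClauseList n m w => ∃ T ∈ powersetCard (n ^ 4) Δ,
          ∀ i ∈ T, ∀ e, z ((f i).1 e) ≠ (f i).2 e) ≤ (1 / 4) ^ (n ^ 4) := by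
      intro z _
      refine (pr_exists _ _).trans ?_
      have h2 : ∀ T ∈ powersetCard (n ^ 4) Δ,
          pr (fun f : ClauseList n m w => ∀ i ∈ T, ∀ e, z ((f i).1 e) ≠ (f i).2 e) ≤
            ((1 / 2) ^ w) ^ (n ^ 4) := by
        intro T hT
        have h3 := indep_fixed (ι := Fin m) T (fun c : (Fin w ↪ Fin n) × (Fin w → Bool) =>
          ∀ e, z (c.1 e) ≠ c.2 e) _ (pr_false_at hw z).le
        rwa [(mem_powersetCard.1 hT).2] at h3
      refine (sum_le_sum h2).trans ?_
      rw [sum_const, card_powersetCard, nsmul_eq_mul]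
      have h3 : ((Δ.card.choose (n ^ 4) : ℕ) : ℝ) ≤ (3 * Δ.card / (n ^ 4 : ℕ) : ℝ) ^ (n ^ 4) :=
        choose_le_three (by positivity)
      calc ((Δ.card.choose (n ^ 4) : ℕ) : ℝ) * ((1 / 2) ^ w) ^ (n ^ 4)
          ≤ (3 * Δ.card / (n ^ 4 : ℕ) : ℝ) ^ (n ^ 4) * ((1 / 2) ^ w) ^ (n ^ 4) := by gcongr
        _ = (3 * Δ.card / (n ^ 4 : ℕ) * (1 / 2) ^ w : ℝ) ^ (n ^ 4) := (mul_pow _ _ _).symm
        _ ≤ (1 / 4) ^ (n ^ 4) := by
            refine pow_le_pow_left₀ (by positivity) ?_ _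
            have h4 : (Δ.card : ℝ) ≤ n ^ 3 * 2 ^ w := by exact_mod_cast hΔ
            have h5 : (0 : ℝ) < (1 / 2) ^ w := by positivity
            have h6 : (0 : ℝ) < (n : ℝ) ^ 4 := by positivity
            calc (3 * Δ.card / (n ^ 4 : ℕ) * (1 / 2) ^ w : ℝ)
                ≤ 3 * (n ^ 3 * 2 ^ w) / (n ^ 4 : ℕ) * (1 / 2) ^ w := by gcongr
              _ = 3 / n := by
                  push_cast
                  rw [one_div, inv_pow]
                  field_simp
              _ ≤ 1 / 4 := by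
                  rw [div_le_div_iff₀ (by linarith) (by norm_num)]
                  linarith
    refine (sum_le_sum h1).trans ?_
    rw [sum_const, card_univ, Fintype.card_fun, Fintype.card_fin, Fintype.card_bool,
      nsmul_eq_mul]
    push_cast
    exact le_refl _

/-- Few clauses of each block around each variable are false at each point. -/
theorem pr_not_far (hw : w ≤ n) (hn : 12 ≤ n) (d : ℕ) :
    pr (fun f : ClauseList n m w => ¬ ∀ j ≤ d, ∀ u z,
      (near f (blk m (n ^ 3 * 2 ^ w) j) u z).card ≤ n ^ 4) ≤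
      ((d + 1 : ℕ) : ℝ) * (2 ^ n * (1 / 4) ^ (n ^ 4)) := by
  classical
  have hne := nonempty_emb hw
  refine le_trans (pr_mono (q := fun f : ClauseList n m w => ∃ j : Fin (d + 1), ¬ ∀ u z,
      (near f (blk m (n ^ 3 * 2 ^ w) j) u z).card ≤ n ^ 4) fun f hf => ?_) ?_
  · by_contra hcon
    push Not at hcon
    exact hf fun j hj u z => hcon ⟨j, by omega⟩ u z
  · refine (pr_exists_fintype _).trans ?_
    have h1 : ∀ j : Fin (d + 1), pr (fun f : ClauseList n m w => ¬ ∀ u z,
        (near f (blk m (n ^ 3 * 2 ^ w) j) u z).card ≤ n ^ 4) ≤ 2 ^ n * (1 / 4) ^ (n ^ 4) :=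
      fun j => pr_not_few hw hn _ (card_blk_le (by positivity) _)
    refine (sum_le_sum fun j _ => h1 j).trans ?_
    rw [sum_const, card_univ, Fintype.card_fin, nsmul_eq_mul]

end Pool.Agent.MP_9cec2c_lc.RedDom
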