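import Pool.Agent.Lib.MP_9cec2c_lc.RPRigid
import Pool.Agent.Lib.MP_9cec2c_lc.RQCount

/-!
Approximations inside rectangles.
-/

set_option autoImplicit false
set_option linter.unusedSectionVars false

namespace Pool.Agent.MP_9cec2c_lc.RedDom

open Finset
open Pool.Agent.MP_9cec2c_lc.LovSch
open Pool.Agent.MP_9cec2c_lc.Redun (inS inS_true app_family)

section family

variable {U V I : Type} [Fintype U] [DecidableEq U] [Fintype V] [DecidableEq V] [Fintype I]
  [DecidableEq I] {S : U → Finset I} {T : V → Finset I} {r s r' s' : ℕ} {BU : Finset U}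
  {BV : Finset V} {α α' : U → EReal} {β β' : V → EReal}

/-- Smaller triangles, and larger sets. -/
theorem app_anti (h : App S T r s BU BV α β) (hr : r ≤ r') (hs : s ≤ s')
    (hα : ∀ x, α' x ≤ α x) (hβ : ∀ y, β y ≤ β' y) : App S T r' s' BU BV α' β' := by
  classical
  obtain ⟨A, B, h1, h2, h3⟩ := h
  refine ⟨fun M => if M.card < r then A M else ⊥, fun K => if K.card < s then B K else ⊤,
    fun M K _ _ hMK => ?_, fun x hx => ?_, fun y hy => ?_⟩
  · by_cases hM : M.card < r
    · by_cases hK : K.card < s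
      · simp only [if_pos hM, if_pos hK]
        exact h1 M K hM hK hMK
      · simp only [if_neg hK]
        exact le_top
    · simp only [if_neg hM]
      exact bot_le
  · obtain ⟨M, g1, g2, g3⟩ := h2 x hx
    refine ⟨M, g1, lt_of_lt_of_le g2 hr, ?_⟩
    simp only [if_pos g2]
    exact (hα x).trans g3
  · obtain ⟨K, g1, g2, g3⟩ := h3 y hy
    refine ⟨K, g1, lt_of_lt_of_le g2 hs, ?_⟩
    simp only [if_pos g2]
    exact g3.trans (hβ y)

/-- The few elements that depend on the first input. -/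
theorem elems_left (h : App S T r s BU BV α β) {x : U} (hx : x ∉ BU) :
    ∃ E : Finset I, E.card ≤ r ∧ E ⊆ S x ∧ ∀ y, y ∉ BV → β y < α x → ∃ e ∈ E, e ∈ T y := by
  obtain ⟨A, B, h1, h2, h3⟩ := h
  obtain ⟨M, hM1, hM2, hM3⟩ := h2 x hx
  refine ⟨M, hM2.le, hM1, fun y hy hlt => ?_⟩
  obtain ⟨K, hK1, hK2, hK3⟩ := h3 y hy
  have hnd : ¬ Disjoint M K := by
    intro hd
    have := h1 M K hM2 hK2 hd
    exact absurd (hM3.trans (this.trans hK3)) (not_le.2 hlt)
  obtain ⟨e, he1, he2⟩ := not_disjoint_iff.1 hnd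
  exact ⟨e, he1, hK1 he2⟩

/-- The few elements that depend on the second input. -/
theorem elems_right (h : App S T r s BU BV α β) {y : V} (hy : y ∉ BV) :
    ∃ K : Finset I, K.card ≤ s ∧ K ⊆ T y ∧ ∀ x, x ∉ BU → β y < α x → ∃ e ∈ K, e ∈ S x := by
  obtain ⟨A, B, h1, h2, h3⟩ := h
  obtain ⟨K, hK1, hK2, hK3⟩ := h3 y hy
  refine ⟨K, hK2.le, hK1, fun x hx hlt => ?_⟩
  obtain ⟨M, hM1, hM2, hM3⟩ := h2 x hx
  have hnd : ¬ Disjoint M K := by
    intro hd
    have := h1 M K hM2 hK2 hd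
    exact absurd (hM3.trans (this.trans hK3)) (not_le.2 hlt)
  obtain ⟨e, he1, he2⟩ := not_disjoint_iff.1 hnd
  exact ⟨e, he2, hM1 he1⟩

end family

variable {n m w D : ℕ}

/-- The clause with the number `e`. -/
def cla (f : ClauseList n m w) (e : Fin m) : Clause (Fin n) :=
  univ.image fun p => ((f e).1 p, (f e).2 p)

theorem cla_mem (f : ClauseList n m w) (e : Fin m) : cla f e ∈ toCNF f :=
  mem_image_of_mem _ (mem_univ _)

open scoped Classical in
/-- The clauses in `Δ` that contain `u` and are false at `z`. -/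
noncomputable def near (f : ClauseList n m w) (Δ : Finset (Fin m)) (u : Fin n)
    (z : Fin n → Bool) : Finset (Fin m) :=
  Δ.filter fun c => (∃ p, (f c).1 p = u) ∧ Redun.FalseAll (f c) z

/-- The block `j`. -/
def blk (m B j : ℕ) : Finset (Fin m) := univ.filter fun i => (i : ℕ) / B = j

/-- The variables that the values of a local map depend on. -/
theorem exists_imap {A : Finset (Fin n)} {s : (Fin n → Bool) → Fin n → Bool}
    (hs : IsLocal D (A : Set (Fin n)) s) : ∃ τ : IMap n D, ∀ u x y,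
      (∀ v, v ∉ A → x v = y v) → (∀ d, x (τ u d) = y (τ u d)) → s x u = s y u := by
  classical
  have key : ∀ u, ∃ p : Fin D → Fin n, ∀ x y : Fin n → Bool,
      (∀ v, v ∉ A → x v = y v) → (∀ d, x (p d) = y (p d)) → s x u = s y u := by
    intro u
    obtain ⟨J, hJc, hdep⟩ := hs u
    rcases J.eq_empty_or_nonempty with h0 | hne
    · refine ⟨fun _ => u, fun x y hxy _ => hdep fun v hv => ?_⟩
      rw [h0, coe_empty, Set.union_empty, Set.mem_compl_iff] at hv
      exact hxy v hv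
    · obtain ⟨g, hg⟩ : ∃ g : Fin D → Fin n, ∀ v ∈ J, ∃ d, g d = v := by
        obtain ⟨v0, hv0⟩ := hne
        refine ⟨fun d => if h : (d : ℕ) < J.card then (J.equivFin.symm ⟨d, h⟩).1 else v0,
          fun v hv => ?_⟩
        have h1 := (J.equivFin ⟨v, hv⟩).2
        refine ⟨⟨J.equivFin ⟨v, hv⟩, by omega⟩, ?_⟩
        simp only [dif_pos h1]
        simp
      refine ⟨g, fun x y hxy hd => hdep fun v hv => ?_⟩
      rcases hv with hv | hv
      · exact hxy v hv
      · obtain ⟨d, rfl⟩ := hg v (mem_coe.1 hv)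
        exact hd d
  choose τ hτ using key
  exact ⟨τ, hτ⟩

variable {A B : Finset (Fin n)} {x0 : Fin n → Bool} {P Q : (Fin n → Bool) → Prop}

theorem mix_notMem {x y : Fin n → Bool} {u : Fin n} (hu : u ∉ A) :
    mix (inS A) x y u = x u := by
  unfold mix
  rw [if_neg fun h => hu (inS_true.1 h)]

theorem mix_mem {x y : Fin n → Bool} {u : Fin n} (hu : u ∈ A) :
    mix (inS A) x y u = y u := by
  unfold mix
  rw [if_pos (inS_true.2 hu)]

theorem mix_off {hP : ∀ x, P x → ∀ u, u ∉ B → x u = x0 u}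
    {hQ : ∀ y, Q y → ∀ u, u ∉ A → y u = x0 u} {x y : Fin n → Bool} (hx : P x) (hy : Q y)
    {u : Fin n} (hu : u ∉ B) : mix (inS A) x y u = y u := by
  by_cases h : u ∈ A
  · exact mix_mem h
  · rw [mix_notMem h, hP x hx u hu, hQ y hy u h]

/-- A condition on the variables outside `A` and on the values of a few variables is a
rectangle. -/
theorem exists_rect (A : Finset (Fin n)) {κ : Type} (g : κ → Fin n) (π : κ → Bool)
    (T : (Fin n → Bool) → Prop)
    (hT : ∀ z z' : Fin n → Bool, (∀ v, v ∉ A → z v = z' v) → (∀ i, z (g i) = z' (g i)) →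
      T z → T z') :
    ∃ p q : (Fin n → Bool) → Prop, ∀ x y,
      ((∀ i, mix (inS A) x y (g i) = π i) ∧ T (mix (inS A) x y)) ↔ (p x ∧ q y) := by
  refine ⟨fun x => (∀ i, g i ∉ A → x (g i) = π i) ∧
      ∃ y', (∀ i, mix (inS A) x y' (g i) = π i) ∧ T (mix (inS A) x y'),
    fun y => ∀ i, g i ∈ A → y (g i) = π i, fun x y => ⟨fun h => ⟨⟨fun i hi => ?_, y, h⟩,
      fun i hi => ?_⟩, ?_⟩⟩
  · rw [← h.1 i, mix_notMem hi]
  · rw [← h.1 i, mix_mem hi]
  · rintro ⟨⟨h1, y', h2, h3⟩, h4⟩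
    have h5 : ∀ i, mix (inS A) x y (g i) = π i := by
      intro i
      by_cases hi : g i ∈ A
      · rw [mix_mem hi, h4 i hi]
      · rw [mix_notMem hi, h1 i hi]
    refine ⟨h5, hT _ _ (fun v hv => ?_) (fun i => ?_) h3⟩
    · rw [mix_notMem hv, mix_notMem hv]
    · rw [h2 i, h5 i]

end Pool.Agent.MP_9cec2c_lc.RedDom
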