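import Pool.Agent.Lib.MP_9cec2c_lc.RQRel

/-!
The false set of a redundant line is approximable: the two steps.
-/

set_option autoImplicit false
set_option linter.unusedSectionVars false

namespace Pool.Agent.MP_9cec2c_lc.RedDom

open Finset
open Pool.Agent.MP_9cec2c_lc.LovSch
open Pool.Agent.MP_9cec2c_lc.Redun (inS inS_true cyl mem_cyl card_cyl svar svar_side card_svar
  false_eq Dense exists_quantile app_gen card_small exists_piece piece_bound around heavy
  card_heavy svar_free card_sub_cyl hitS mem_hitS hit_count_sub piece_small' SatR FalseAll)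

theorem card_extra {α : Type} [DecidableEq α] {X X' : Finset α} {b : ℕ} (h : X ⊆ X')
    (hc : X'.card ≤ X.card + b) : (X' \ X).card ≤ b := by
  rw [card_sdiff_of_subset h]
  omega

section family

variable {U V I : Type} [Fintype U] [DecidableEq U] [Fintype V] [DecidableEq V] [Fintype I]
  [DecidableEq I] {S : U → Finset I} {T : V → Finset I} {r s : ℕ} {BU : Finset U}
  {BV : Finset V} {α : U → EReal} {β : V → EReal}

/-- A triangle whose rectangles are covered by few elements. -/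
theorem false_app {R CU CV NM Z bU bV : ℕ} (hr : 0 < r)
    (hCU : ∀ M : Finset I, M.card = r → (univ.filter fun x => M ⊆ S x).card ≤ CU)
    (hCV : ∀ K : Finset I, K.card = s → (univ.filter fun y => K ⊆ T y).card ≤ CV)
    (hNM : (univ.filter fun M : Finset I => M.card < r).card ≤ NM) (hbV : bV ≤ Z)
    (hgoal : ∀ θ : EReal, ∃ (BU' : Finset U) (BV' : Finset V), BU ⊆ BU' ∧ BV ⊆ BV' ∧
      BU'.card ≤ BU.card + bU ∧ BV'.card ≤ BV.card + bV ∧
      ∀ y, y ∉ BV' → β y ≤ θ → ∃ K : Finset I, K.card ≤ R ∧ K ⊆ T y ∧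
        ∀ x, x ∉ BU' → θ < α x → ∃ e ∈ K, e ∈ S x) :
    ∃ (BU' : Finset U) (BV' : Finset V), BU ⊆ BU' ∧ BV ⊆ BV' ∧
      BU'.card ≤ BU.card + (NM * bU + R ^ r * CU) ∧
      BV'.card ≤ BV.card + (r ^ s * CV + NM * Z) ∧ App S T r s BU' BV' α β := by
  classical
  have hquant : ∀ M : Finset I, ∃ t : EReal,
      (univ.filter fun y => (y ∉ BV ∧ Disjoint M (T y)) ∧ β y < t).card ≤ Z ∧
      (t = ⊤ ∨ Z < (univ.filter fun y => (y ∉ BV ∧ Disjoint M (T y)) ∧ β y ≤ t).card) :=
    fun M => exists_quantile _ β _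
  choose t ht1 ht2 using hquant
  choose BUf BVf g1 g2 g3 g4 g5 using fun M : Finset I => hgoal (t M)
  have hLam : ∀ M : Finset I, ∃ K : Finset I, K.card ≤ R ∧ Disjoint M K ∧
      ∀ x, x ∉ BUf M → t M < α x → ∃ e ∈ K, e ∈ S x := by
    intro M
    rcases ht2 M with h | h
    · exact ⟨∅, by simp, disjoint_empty_right _, fun x _ hx => by
        rw [h] at hx
        exact absurd hx not_top_lt⟩
    · obtain ⟨y, hy1, hy2⟩ : ∃ y ∈ (univ.filter fun y =>
          (y ∉ BV ∧ Disjoint M (T y)) ∧ β y ≤ t M), y ∉ BVf M \ BV := by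
        by_contra hcon
        push Not at hcon
        have h1 := card_le_card (show (univ.filter fun y =>
          (y ∉ BV ∧ Disjoint M (T y)) ∧ β y ≤ t M) ⊆ BVf M \ BV from fun y hy => hcon y hy)
        have h2 := card_extra (g2 M) (g4 M)
        omega
      rw [mem_filter] at hy1
      obtain ⟨-, ⟨hy3, hy4⟩, hy5⟩ := hy1
      have hy6 : y ∉ BVf M := fun h => hy2 (mem_sdiff.2 ⟨h, hy3⟩)
      obtain ⟨K, hK1, hK2, hK3⟩ := g5 M y hy6 hy5
      exact ⟨K, hK1, disjoint_of_subset_right hK2 hy4, hK3⟩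
  choose Lam hLam1 hLam2 hLam3 using hLam
  obtain ⟨BU1, hBU1⟩ : ∃ BU1 : Finset U, BU1 = BU ∪
      (univ.filter fun M : Finset I => M.card < r).biUnion fun M => BUf M \ BU := ⟨_, rfl⟩
  have hc1 : BU1.card ≤ BU.card + NM * bU := by
    rw [hBU1]
    refine (card_union_le _ _).trans (Nat.add_le_add_left ?_ _)
    refine (card_biUnion_le_card_mul _ _ bU fun M _ => card_extra (g1 M) (g3 M)).trans ?_
    exact Nat.mul_le_mul_right _ hNM
  obtain ⟨BU', BV', k1, k2, k3, k4, k5⟩ := app_gen (BU := BU1) (BV := BV) (α := α) (β := β)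
    (lam := R) (CU := CU) (CV := CV) (NM := NM) (Z := Z) hr hCU hCV Lam hLam1 hLam2 t
    (fun M hM x hx hMx hdis => by
      by_contra hcon
      push Not at hcon
      have hx1 : x ∉ BUf M := by
        intro h
        refine hx ?_
        rw [hBU1]
        by_cases h0 : x ∈ BU
        · exact mem_union_left _ h0
        · exact mem_union_right _ (mem_biUnion.2
            ⟨M, mem_filter.2 ⟨mem_univ _, hM⟩, mem_sdiff.2 ⟨h, h0⟩⟩)
      obtain ⟨e, he1, he2⟩ := hLam3 M x hx1 hcon
      exact disjoint_left.1 hdis he2 he1)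
    (fun M _ => ht1 M) hNM
  refine ⟨BU', BV', Subset.trans ?_ k1, k2, by omega, k4, k5⟩
  rw [hBU1]
  exact subset_union_left

end family

variable {n m w D : ℕ}

/-- The properties of random CNFs that are used. -/
structure Good (f : ClauseList n m w) (v R v2 r2 t0 m0 N D d : ℕ) : Prop where
  spread : Spread v R f
  spread2 : Spread v2 r2 f
  poor : ∀ A : Finset (Fin n), n ≤ D * A.card →
    8 * (univ.filter fun i => (posn (inS A) true (f i)).card < 2 * v).card ≤ 2 ^ (w - 2 * v)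
  overlap : ∀ τ : IMap n D, ∃ E0 : Finset (Fin m), E0.card ≤ t0 ∧
    ∀ c e, c ≠ e → c ∉ E0 → e ∉ E0 →
      (univ.filter fun p => (f e).1 p ∈ img τ (f c)).card < 2 * v2
  lower : ∀ j ≤ d, ∀ u z, 2 * t0 < (near f (blk m m0 j) u z).card
  upper : ∀ j ≤ d, ∀ u z, (near f (blk m m0 j) u z).card ≤ N

theorem spread_mono {f : ClauseList n m w} {v r R : ℕ} (h : Spread v R f) (hrR : r ≤ R) :
    Spread v r f := fun M hM => h M (hM.trans hrR)

variable {f : ClauseList n m w} {v R v2 r2 t0 m0 N d : ℕ}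

open scoped Classical in
/-- The triangles of a redundant line where the map changes the variable `u`. -/
theorem rigid_app (hf : Good f v R v2 r2 t0 m0 N D d) {Δ : Finset (Fin m)}
    (hlow : ∀ u z, t0 < (near f Δ u z).card) (hupp : ∀ u z, (near f Δ u z).card ≤ N)
    {A B : Finset (Fin n)}
    {q z h vo r bU bV : ℕ} (hq : 0 < q) (hr : 0 < r) (hrR : r ≤ R) (hvRA : v * R ≤ A.card)
    (hvRB : v * R ≤ B.card) (hzA : z + 1 ≤ A.card) (hJ : q * (z + 1) ≤ v2 * r2)
    (hqh : w * D + w ≤ q * h) (hvo : vo + 2 * v2 + 2 * v2 ≤ 2 * v)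
    (hnum : R * 2 ^ h * N < 2 ^ vo) (hbV : m * 2 ^ (w * D) * bV ≤ 2 ^ (A.card - (z + 1)))
    {x0 : Fin n → Bool}
    {P Q : (Fin n → Bool) → Prop} (hP : ∀ x, P x → ∀ u, u ∉ B → x u = x0 u)
    (hQ : ∀ y, Q y → ∀ u, u ∉ A → y u = x0 u)
    {BU : Finset {x // P x}} {BV : Finset {y // Q y}}
    {α : {x // P x} → EReal} {β : {y // Q y} → EReal}
    {s : (Fin n → Bool) → Fin n → Bool} {τ : IMap n D}
    (hτ : ∀ u x y, (∀ v, v ∉ A → x v = y v) → (∀ d, x (τ u d) = y (τ u d)) → s x u = s y u)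
    (u : Fin n) (a : Bool)
    (hT : ∀ x y, β y < α x → mix (inS A) x.1 y.1 u = a ∧ s (mix (inS A) x.1 y.1) u = !a)
    (hgoal : ∀ (θ : EReal) (c : Fin m × (Fin w → Fin D → Bool)), c.1 ∈ Δ →
      ∃ (BU' : Finset {x // P x}) (BV' : Finset {y // Q y}),
      BU ⊆ BU' ∧ BV ⊆ BV' ∧ BU'.card ≤ BU.card + bU ∧ BV'.card ≤ BV.card + bV ∧
      ∀ x, x ∉ BU' → θ < α x → ∃ E : Finset (Fin m), E.card ≤ R ∧ E ⊆ hitS A B v f x0 B x.1 ∧
        ∀ y, y ∉ BV' → β y ≤ θ → pat τ (f c.1) (mix (inS A) x.1 y.1) = c.2 →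
          FalseAll (f c.1) (s (mix (inS A) x.1 y.1)) → ∃ e ∈ E, e ∈ hitS A B v f x0 A y.1) :
    ∃ (BU' : Finset {x // P x}) (BV' : Finset {y // Q y}),
      BU ⊆ BU' ∧ BV ⊆ BV' ∧
      BU'.card ≤ BU.card + ((m + 1) ^ r * (m * 2 ^ (w * D) * bU) +
        (r2 + t0) ^ r * 2 ^ (B.card - v * r)) ∧
      BV'.card ≤ BV.card + (r ^ r * 2 ^ (A.card - v * r) + (m + 1) ^ r * 2 ^ (A.card - z)) ∧
      App (fun x => hitS A B v f x0 B x.1) (fun y => hitS A B v f x0 A y.1) r r BU' BV' α β := by
  obtain ⟨E0, hE0, hov⟩ := hf.overlap τ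
  have hvrA : v * r ≤ A.card := (Nat.mul_le_mul_left _ hrR).trans hvRA
  have hvrB : v * r ≤ B.card := (Nat.mul_le_mul_left _ hrR).trans hvRB
  have hsp := spread_mono hf.spread hrR
  -- the quantiles
  have hquant : ∀ M : Finset (Fin m), ∃ t : EReal,
      (univ.filter fun y : {y // Q y} =>
        (y ∉ BV ∧ Disjoint M (hitS A B v f x0 A y.1)) ∧ β y < t).card ≤ 2 ^ (A.card - z) ∧
      (t = ⊤ ∨ 2 ^ (A.card - z) < (univ.filter fun y : {y // Q y} =>
        (y ∉ BV ∧ Disjoint M (hitS A B v f x0 A y.1)) ∧ β y ≤ t).card) :=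
    fun M => exists_quantile _ β _
  choose t ht1 ht2 using hquant
  have hcc : Fintype.card (Fin m × (Fin w → Fin D → Bool)) = m * 2 ^ (w * D) := by
    rw [Fintype.card_prod, Fintype.card_fun, Fintype.card_fun, Fintype.card_bool,
      Fintype.card_fin, Fintype.card_fin, Fintype.card_fin, ← pow_mul, mul_comm D w]
  have hgoal' : ∀ (θ : EReal) (c : Fin m × (Fin w → Fin D → Bool)),
      ∃ (BU' : Finset {x // P x}) (BV' : Finset {y // Q y}),
      BU ⊆ BU' ∧ BV ⊆ BV' ∧ BU'.card ≤ BU.card + bU ∧ BV'.card ≤ BV.card + bV ∧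
      ∀ x, x ∉ BU' → θ < α x → ∃ E : Finset (Fin m), E.card ≤ R ∧ E ⊆ hitS A B v f x0 B x.1 ∧
        ∀ y, y ∉ BV' → β y ≤ θ → pat τ (f c.1) (mix (inS A) x.1 y.1) = c.2 → c.1 ∈ Δ →
          FalseAll (f c.1) (s (mix (inS A) x.1 y.1)) → ∃ e ∈ E, e ∈ hitS A B v f x0 A y.1 := by
    intro θ c
    by_cases hc : c.1 ∈ Δ
    · obtain ⟨BU', BV', h1, h2, h3, h4, h5⟩ := hgoal θ c hc
      refine ⟨BU', BV', h1, h2, h3, h4, fun x hx hθ => ?_⟩
      obtain ⟨E, e1, e2, e3⟩ := h5 x hx hθ
      exact ⟨E, e1, e2, fun y hy hyθ hp _ => e3 y hy hyθ hp⟩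
    · exact ⟨BU, BV, Subset.refl _, Subset.refl _, Nat.le_add_right _ _, Nat.le_add_right _ _,
        fun x _ _ => ⟨∅, by simp, by simp, fun y _ _ _ h => absurd h hc⟩⟩
  choose BUf BVf g1 g2 g3 g4 g5 using fun (M : Finset (Fin m))
    (c : Fin m × (Fin w → Fin D → Bool)) => hgoal' (t M) c
  obtain ⟨BU1, hBU1⟩ : ∃ BU1 : Finset {x // P x}, BU1 = BU ∪
      (univ.filter fun M : Finset (Fin m) => M.card < r).biUnion fun M =>
        univ.biUnion fun c => BUf M c \ BU := ⟨_, rfl⟩
  have hBUsub : BU ⊆ BU1 := by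
    rw [hBU1]
    exact subset_union_left
  have hc1 : BU1.card ≤ BU.card + (m + 1) ^ r * (m * 2 ^ (w * D) * bU) := by
    rw [hBU1]
    refine (card_union_le _ _).trans (Nat.add_le_add_left ?_ _)
    refine (card_biUnion_le_card_mul _ _ (m * 2 ^ (w * D) * bU) fun M _ => ?_).trans ?_
    · refine (card_biUnion_le_card_mul _ _ bU fun c _ => card_extra (g1 M c) (g3 M c)).trans ?_
      rw [card_univ, hcc]
    · exact Nat.mul_le_mul_right _ card_small
  have hBU1M : ∀ x, x ∉ BU1 → ∀ M : Finset (Fin m), M.card < r → ∀ c, x ∉ BUf M c := by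
    intro x hx M hM c hc
    refine hx ?_
    rw [hBU1]
    by_cases h0 : x ∈ BU
    · exact mem_union_left _ h0
    · exact mem_union_right _ (mem_biUnion.2 ⟨M, mem_filter.2 ⟨mem_univ _, hM⟩,
        mem_biUnion.2 ⟨c, mem_univ _, mem_sdiff.2 ⟨hc, h0⟩⟩⟩)
  -- the sets of the second player, and their dense pieces
  obtain ⟨X, hX⟩ : ∃ X : Finset (Fin m) → Finset {y // Q y}, X = fun M =>
      univ.biUnion fun c => BVf M c \ BV := ⟨_, rfl⟩
  have hXc : ∀ M, (X M).card ≤ 2 ^ (A.card - (z + 1)) := by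
    intro M
    rw [hX]
    refine le_trans ?_ hbV
    refine (card_biUnion_le_card_mul _ _ bV fun c _ => card_extra (g2 M c) (g4 M c)).trans ?_
    rw [card_univ, hcc]
  obtain ⟨Y, hY⟩ : ∃ Y : Finset (Fin m) → Finset (Fin n → Bool), Y = fun M =>
      ((univ.filter fun y : {y // Q y} =>
        (y ∉ BV ∧ Disjoint M (hitS A B v f x0 A y.1)) ∧ β y ≤ t M) \ X M).image Subtype.val :=
    ⟨_, rfl⟩
  have hYcard : ∀ M, t M ≠ ⊤ → 2 ^ (A.card - (z + 1)) < (Y M).card := by
    intro M hM
    rw [hY]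
    simp only
    rw [card_image_of_injective _ Subtype.val_injective]
    have h1 := (ht2 M).resolve_left hM
    have h2 := le_card_sdiff (X M) (univ.filter fun y : {y // Q y} =>
        (y ∉ BV ∧ Disjoint M (hitS A B v f x0 A y.1)) ∧ β y ≤ t M)
    have h3 := hXc M
    have h4 : 2 ^ (A.card - z) = 2 * 2 ^ (A.card - (z + 1)) := by
      have : A.card - z = A.card - (z + 1) + 1 := by omega
      rw [this, pow_succ]
      ring
    omega
  have hYx0 : ∀ M, ∀ y ∈ Y M, ∀ u, u ∉ A → y u = x0 u := by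
    intro M y hy
    rw [hY] at hy
    obtain ⟨y', -, rfl⟩ := mem_image.1 hy
    exact hQ _ y'.2
  have hpiece := fun M => exists_piece A (Y M) q
  choose J b hJY hJ1 hJ2 using hpiece
  obtain ⟨bb, hbb⟩ : ∃ bb : Finset (Fin m) → Fin n → Bool, bb = fun M u =>
      if u ∈ A then b M u else x0 u := ⟨_, rfl⟩
  have hsub : ∀ M, Y M ∩ cyl (J M) (b M) ⊆ cyl (Aᶜ ∪ J M) (bb M) := by
    intro M y hy
    rw [mem_inter, mem_cyl] at hy
    rw [mem_cyl]
    intro u hu
    rw [hbb]
    simp only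
    rcases mem_union.1 hu with hu | hu
    · rw [mem_compl] at hu
      rw [if_neg hu]
      exact hYx0 M y hy.1 u hu
    · rw [if_pos (hJY M hu)]
      exact hy.2 u hu
  have hJcard : ∀ M, t M ≠ ⊤ → (J M).card < v2 * r2 := by
    intro M hM
    exact lt_of_lt_of_le (piece_small' hq hzA (hYcard M hM) (card_sub_cyl (hJY M) (hsub M))
      (hJ1 M)) hJ
  obtain ⟨Lam, hLam⟩ : ∃ Lam : Finset (Fin m) → Finset (Fin m), Lam = fun M =>
      (if t M = ⊤ then ∅ else heavy f v2 (J M) ∪ E0) \ M := ⟨_, rfl⟩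
  have key := app_gen (BU := BU1) (BV := BV) (α := α) (β := β)
    (S := fun x : {x // P x} => hitS A B v f x0 B x.1)
    (T := fun y : {y // Q y} => hitS A B v f x0 A y.1) (s := r)
    (lam := r2 + t0) (CU := 2 ^ (B.card - v * r)) (CV := 2 ^ (A.card - v * r))
    (NM := (m + 1) ^ r) (Z := 2 ^ (A.card - z)) hr
    (fun M hM => hit_count_sub hsp hvrB hP le_rfl hM)
    (fun M hM => hit_count_sub hsp hvrA hQ le_rfl hM)
    Lam (fun M => ?_) (fun M => ?_) t (fun M hM x hx hMx hdis => ?_) (fun M _ => ht1 M) card_small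
  · obtain ⟨BU', BV', k1, k2, k3, k4, k5⟩ := key
    exact ⟨BU', BV', hBUsub.trans k1, k2, by omega, k4, k5⟩
  · rw [hLam]
    simp only
    refine (card_le_card sdiff_subset).trans ?_
    split_ifs with hM
    · simp
    · refine (card_union_le _ _).trans (Nat.add_le_add ?_ hE0)
      exact card_heavy hf.spread2 (hJcard M hM)
  · rw [hLam]
    exact disjoint_sdiff
  · by_contra hcon
    push Not at hcon
    have htop : t M ≠ ⊤ := fun h => by
      rw [h] at hcon
      exact not_top_lt hcon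
    have hYM := hYcard M htop
    -- the piece is not empty
    obtain ⟨Y', hY'⟩ : ∃ Y', Y' = Y M ∩ cyl (J M) (b M) := ⟨_, rfl⟩
    have hY'ne : Y'.Nonempty := by
      rw [nonempty_iff_ne_empty]
      intro h0
      have h1 := hJ1 M
      rw [← hY', h0, card_empty, zero_pow (by omega), zero_mul] at h1
      have h2 : 0 < (Y M).card ^ q := Nat.pow_pos (lt_of_le_of_lt (Nat.zero_le _) hYM)
      omega
    have hdense : Dense (inS A) (Aᶜ ∪ J M) h (w * D + w) Y' := by
      intro J' hJ' hd hc b'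
      refine piece_bound hq (hc.trans hqh) ?_
      rw [hY']
      exact hJ2 M J' (fun u hu => inS_true.1 (hJ' u hu))
        (disjoint_of_subset_left subset_union_right hd) b'
    have hLamM : ∀ e, e ∈ hitS A B v f x0 B x.1 → e ∉ M →
        e ∉ heavy f v2 (J M) ∧ e ∉ E0 := by
      intro e he heM
      have h1 : e ∉ Lam M := fun h => (disjoint_left.1 hdis) he h
      rw [hLam] at h1
      simp only [htop, if_false, mem_sdiff, not_and, not_not, mem_union] at h1
      constructor
      · intro h2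
        exact heM (h1 (Or.inl h2))
      · intro h2
        exact heM (h1 (Or.inr h2))
    choose E hE1 hE2 hE3 using fun c => g5 M c x (hBU1M x hx M hM c) hcon
    obtain ⟨E', hE'⟩ : ∃ E' : Fin m → (Fin w → Fin D → Bool) → Finset (Fin m), E' = fun c π =>
        (E (c, π)).filter fun e => e ∉ M ∧ e ≠ c ∧ 2 * v ≤ (posn (inS A) true (f e)).card :=
      ⟨_, rfl⟩
    obtain ⟨D', hD'⟩ : ∃ D' : Finset (Fin m), D' = Δ.filter fun c : Fin m =>
        (∃ p, (f c).1 p = u) ∧ c ∉ E0 := ⟨_, rfl⟩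
    obtain ⟨W, hW⟩ : ∃ W : Fin m → (Fin w → Fin D → Bool) → Prop, ∀ c π, W c π ↔
        ∃ y', pat τ (f c) (mix (inS A) x.1 y') = π ∧
          FalseAll (f c) (s (mix (inS A) x.1 y')) := ⟨_, fun _ _ => Iff.rfl⟩
    have hfin := cnt_all (col := inS A) (J := Aᶜ ∪ J M) (b := bb M) (h := h) (v := vo) (κ := R)
      (N := N) (B := Y') hY'ne (by rw [hY']; exact hsub M) hdense τ f x.1 D' W E'
      (fun c _ π => by
        rw [hE']
        exact (card_filter_le _ _).trans (hE1 _))
      (fun c hc π e he => by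
        rw [hD', mem_filter] at hc
        rw [hE', mem_filter] at he
        obtain ⟨he0, he2, he3, he4⟩ := he
        obtain ⟨h1, h2⟩ := hLamM e (hE2 _ he0) he2
        have h3 : vo ≤ (svar (inS A) true (f e) \ (J M ∪ img τ (f c))).card := by
          refine svar_free (a1 := 2 * v2) (a2 := 2 * v2) ?_ ?_ (by omega)
          · unfold heavy at h1
            rw [mem_filter, not_and, not_le] at h1
            exact (h1 (mem_univ _)).le
          · exact (hov c e (Ne.symm he3) hc.2.2 h2).le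
        refine h3.trans (card_le_card fun u' hu' => ?_)
        rw [mem_sdiff, mem_union, not_or] at hu' ⊢
        refine ⟨hu'.1, ?_, hu'.2.2⟩
        rw [mem_union, not_or, mem_compl, not_not]
        exact ⟨inS_true.1 (svar_side hu'.1), hu'.2.1⟩)
      (fun y hy => by
        rw [hY', mem_inter, hY] at hy
        obtain ⟨y', hy', rfl⟩ := mem_image.1 hy.1
        rw [mem_sdiff, mem_filter] at hy'
        obtain ⟨⟨-, ⟨hy1, hy2⟩, hy3⟩, hy4⟩ := hy'
        have hyX : ∀ c, y' ∉ BVf M c := by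
          intro c hc
          refine hy4 ?_
          rw [hX]
          exact mem_biUnion.2 ⟨c, mem_univ _, mem_sdiff.2 ⟨hc, hy1⟩⟩
        have hlt : β y' < α x := lt_of_le_of_lt hy3 hcon
        obtain ⟨hzu, hzu'⟩ := hT x y' hlt
        -- a clause around `u` that is violated after the map
        obtain ⟨c, hc, hcE⟩ : ∃ c ∈ near f Δ u (s (mix (inS A) x.1 y'.1)), c ∉ E0 := by
          by_contra hno
          push Not at hno
          have h1 : near f Δ u (s (mix (inS A) x.1 y'.1)) ⊆ E0 := fun c hc => hno c hc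
          have h2 := card_le_card h1
          have h3 := hlow u (s (mix (inS A) x.1 y'.1))
          omega
        unfold near at hc
        rw [mem_filter] at hc
        obtain ⟨hc1, ⟨p, hp⟩, hc3⟩ := hc
        obtain ⟨e, he, he2⟩ := hE3 (c, pat τ (f c) (mix (inS A) x.1 y'.1)) y' (hyX _) hy3 rfl
          hc1 hc3
        have he1 := hE2 _ he
        refine ⟨c, ?_, (hW _ _).2 ⟨y'.1, rfl, hc3⟩, e, ?_, ?_⟩
        · rw [hD', mem_filter]
          exact ⟨hc1, ⟨p, hp⟩, hcE⟩
        · rw [hE', mem_filter]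
          refine ⟨he, fun h => (disjoint_left.1 hy2) h he2, ?_, ?_⟩
          · rintro rfl
            have h1 := hc3 p
            rw [hp, hzu'] at h1
            have h2 : (f e).2 p = a := by
              revert h1
              cases a <;> cases (f e).2 p <;> simp
            rw [mem_hitS] at he1 he2
            by_cases huA : u ∈ A
            · rw [mix_mem huA] at hzu
              have h3 := he2.2.1 p (by rw [hp]; exact inS_true.2 huA)
              rw [hp, h2] at h3
              exact h3 hzu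
            · rw [mix_notMem huA] at hzu
              by_cases huB : u ∈ B
              · have h3 := he1.2.1 p (by rw [hp]; exact inS_true.2 huB)
                rw [hp, h2] at h3
                exact h3 hzu
              · rw [hP _ x.2 u huB] at hzu
                exact he1.2.2 ⟨p, by rw [hp]; exact huA, by rw [hp]; exact huB, by
                  rw [hp, h2]
                  exact hzu⟩
          · exact (mem_hitS.1 he2).1
        · exact (mem_hitS.1 he2).2.1)
      (fun y => by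
        refine (card_le_card fun c hc => ?_).trans (hupp u (s (mix (inS A) x.1 y)))
        rw [mem_filter, hD', mem_filter] at hc
        unfold near
        rw [mem_filter]
        refine ⟨hc.1.1, hc.1.2.1, fun e => ?_⟩
        obtain ⟨y', h1, h2⟩ := (hW _ _).1 hc.2
        rw [← hτ ((f c).1 e) (mix (inS A) x.1 y') (mix (inS A) x.1 y)
          (fun v hv => by rw [mix_notMem hv, mix_notMem hv])
          (fun d => congrFun (congrFun h1 e) d)]
        exact h2 e)
    omega

end Pool.Agent.MP_9cec2c_lc.RedDom
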