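import Pool.Agent.Lib.MP_9cec2c_lc.RSTree
import Pool.Agent.Lib.MP_9cec2c_lc.Mg.G040

/-!
Circuits with unbounded fan-in gates `and`, `or` and linear gates over a finite field: a circuit with
at most `g` gates `and`, `or` is a linear combination of at most `3 ^ g` terms.
-/

set_option autoImplicit false
set_option linter.unusedSectionVars false

namespace Pool.Agent.MP_9cec2c_lc.FieldProof

open Finset
open Pool.Agent.MP_9cec2c_lc.ResPoly (Poly mon mon_mem_Poly Poly_mono Poly_mul)

/-- A gate of a circuit with `s` gates and `n` input variables over the field `k`: an input variable,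
a linear gate `∑ a j * (gate j) = c`, a local gate (any Boolean function of the gates in `A`), a
conjunction of any number of gates, or a disjunction of any number of gates. -/
inductive Gate (k : Type) (n s : ℕ) : Type
  | input (v : Fin n)
  | linear (a : Fin s → k) (c : k)
  | junta (A : Finset (Fin s)) (F : ({j // j ∈ A} → Bool) → Bool)
  | and (A : Finset (Fin s))
  | or (A : Finset (Fin s))

variable {k : Type} [Field k] {n : ℕ}

/-- The gate has the value true, if the inputs are `x` and the values of the gates are `y`. -/
def Gate.Fires {s : ℕ} (x : Fin n → Bool) (y : Fin s → Bool) : Gate k n s → Prop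
  | .input v => x v = true
  | .linear a c => ∑ j, (if y j = true then a j else 0) = c
  | .junta _ F => F (fun j => y j.1) = true
  | .and A => ∀ j ∈ A, y j = true
  | .or A => ∃ j ∈ A, y j = true

/-- The gates `j` that are wired to the gate. -/
def Gate.Reads {s : ℕ} (j : Fin s) : Gate k n s → Prop
  | .input _ => False
  | .linear a _ => a j ≠ 0
  | .junta A _ => j ∈ A
  | .and A => j ∈ A
  | .or A => j ∈ A

/-- The gate is a conjunction or a disjunction. -/
def Gate.IsAndOr {s : ℕ} : Gate k n s → Prop
  | .input _ => False
  | .linear _ _ => False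
  | .junta _ _ => False
  | .and _ => True
  | .or _ => True

/-- A circuit of any size and depth over the finite field `k`, with gates of unbounded fan-in, at most
`g` of which are gates `and`, `or`. Every gate has a degree, at most `t`: at least 1 for an input
variable, at least the sum of the degrees of the gates wired to it for a local gate, at least
`card k - 1` times the degrees of the gates wired to it for a linear gate. The degree of the gates
`and`, `or` can be 0. (If `k` has two elements, the linear gates are parities, and there is no
restriction on their number and nesting, for `t = 1` already.) -/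
structure Circuit (k : Type) [Field k] [Fintype k] (n t g : ℕ) where
  /-- the number of gates -/
  size : ℕ
  /-- the gates -/
  gate : Fin size → Gate k n size
  wires : ∀ i j, (gate i).Reads j → j < i
  /-- the degrees -/
  deg : Fin size → ℕ
  deg_le : ∀ i, deg i ≤ t
  deg_input : ∀ i v, gate i = .input v → 1 ≤ deg i
  deg_linear : ∀ i a c, gate i = .linear a c → ∀ j, a j ≠ 0 → (Fintype.card k - 1) * deg j ≤ deg i
  deg_local : ∀ i A F, gate i = .junta A F → ∑ j ∈ A, deg j ≤ deg i
  few : {i | (gate i).IsAndOr}.ncard ≤ g
  /-- the output gate -/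
  out : Fin size

/-- The circuit computes the function `f`. -/
def Circuit.Computes [Fintype k] {t g : ℕ} (C : Circuit k n t g) (f : (Fin n → Bool) → Bool) :
    Prop :=
  ∀ (x : Fin n → Bool) (y : Fin C.size → Bool), (∀ i, y i = true ↔ (C.gate i).Fires x y) →
    f x = y C.out

/-! ### Evaluation -/

/-- A system of equations `y i ↔ F i y`, where `F i` depends on the `y j` with `j < i`, has a
solution. -/
theorem exists_fix {s : ℕ} (F : Fin s → (Fin s → Bool) → Prop)
    (hF : ∀ i y y', (∀ j, j < i → y j = y' j) → (F i y ↔ F i y')) :
    ∃ y : Fin s → Bool, ∀ i, y i = true ↔ F i y := by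
  classical
  have h : ∀ m : ℕ, m ≤ s → ∃ y : Fin s → Bool, ∀ i : Fin s, (i : ℕ) < m → (y i = true ↔ F i y) := by
    intro m
    induction m with
    | zero => exact fun _ => ⟨fun _ => false, fun i hi => absurd hi (Nat.not_lt_zero _)⟩
    | succ m ih =>
      intro hm
      obtain ⟨y, hy⟩ := ih (by omega)
      refine ⟨Function.update y ⟨m, hm⟩ (decide (F ⟨m, hm⟩ y)), fun i hi => ?_⟩
      have h1 : F i (Function.update y ⟨m, hm⟩ (decide (F ⟨m, hm⟩ y))) ↔ F i y := by
        refine hF i _ _ fun j hj => ?_
        rw [Function.update_of_ne]
        intro h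
        rw [h] at hj
        have h2 : m < (i : ℕ) := hj
        omega
      rw [h1]
      by_cases h2 : i = ⟨m, hm⟩
      · rw [h2, Function.update_self, decide_eq_true_iff]
      · rw [Function.update_of_ne h2]
        refine hy i ?_
        have h3 : (i : ℕ) ≠ m := fun h => h2 (Fin.ext h)
        omega
  obtain ⟨y, hy⟩ := h s le_rfl
  exact ⟨y, fun i => hy i i.2⟩

/-- Two solutions that agree on the smaller gates. -/
theorem fix_unique {s : ℕ} (F F' : Fin s → (Fin s → Bool) → Prop)
    (hF : ∀ i y y', (∀ j, j < i → y j = y' j) → (F i y ↔ F i y')) {i : Fin s}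
    (hFF : ∀ j, j < i → ∀ y, F j y ↔ F' j y) {y y' : Fin s → Bool}
    (hy : ∀ i, y i = true ↔ F i y) (hy' : ∀ i, y' i = true ↔ F' i y') :
    ∀ j, j < i → y j = y' j := by
  intro j
  induction j using WellFoundedLT.induction with
  | _ j ih =>
    intro hj
    have h1 : F j y ↔ F' j y' :=
      (hF j y y' fun l hl => ih l hl (hl.trans hj)).trans (hFF j hj y')
    have h2 : y j = true ↔ y' j = true := (hy j).trans (h1.trans (hy' j).symm)
    exact Bool.eq_iff_iff.2 h2

theorem Gate.fires_congr {s : ℕ} (G : Gate k n s) (x : Fin n → Bool) {y y' : Fin s → Bool}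
    (h : ∀ j, G.Reads j → y j = y' j) : G.Fires x y ↔ G.Fires x y' := by
  cases G with
  | input v => exact Iff.rfl
  | linear a c =>
    have h1 : ∑ j, (if y j = true then a j else 0) = ∑ j, (if y' j = true then a j else 0) := by
      refine sum_congr rfl fun j _ => ?_
      by_cases hj : a j = 0
      · rw [hj, ite_self, ite_self]
      · rw [h j hj]
    show ∑ j, (if y j = true then a j else 0) = c ↔ ∑ j, (if y' j = true then a j else 0) = c
    rw [h1]
  | junta A F =>
    have h1 : (fun j : {j // j ∈ A} => y j.1) = fun j => y' j.1 := funext fun j => h j.1 j.2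
    show F (fun j => y j.1) = true ↔ F (fun j => y' j.1) = true
    rw [h1]
  | and A =>
    exact ⟨fun H j hj => (h j hj) ▸ H j hj, fun H j hj => (h j hj).trans (H j hj)⟩
  | or A =>
    exact ⟨fun ⟨j, hj, H⟩ => ⟨j, hj, (h j hj) ▸ H⟩, fun ⟨j, hj, H⟩ => ⟨j, hj, (h j hj).trans H⟩⟩

theorem degree_one [Fintype k] (t : ℕ) : (fun _ => 1 : (Fin n → Bool) → k) ∈ Degree k n t := by
  have h : (fun _ => 1 : (Fin n → Bool) → k) = mon k ∅ := by
    funext x
    unfold mon
    rw [if_pos fun v hv => absurd hv (notMem_empty v)]
  rw [h]
  exact mon_mem_Poly k (by rw [card_empty]; exact Nat.zero_le _)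

theorem degree_prod [Fintype k] {I : Type*} (s : Finset I) (d : I → ℕ)
    (f : I → (Fin n → Bool) → k) (hf : ∀ i ∈ s, f i ∈ Degree k n (d i)) :
    ∏ i ∈ s, f i ∈ Degree k n (∑ i ∈ s, d i) := by
  classical
  induction s using Finset.induction_on with
  | empty =>
    rw [prod_empty]
    exact degree_one _
  | insert i s hi ih =>
    rw [prod_insert hi, sum_insert hi]
    exact Poly_mul k (hf i (mem_insert_self _ _)) (ih fun j hj => hf j (mem_insert_of_mem hj))

theorem degree_pow [Fintype k] {t : ℕ} {f : (Fin n → Bool) → k} (hf : f ∈ Degree k n t) (r : ℕ) :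
    f ^ r ∈ Degree k n (r * t) := by
  induction r with
  | zero =>
    rw [pow_zero]
    exact degree_one _
  | succ r ih =>
    rw [pow_succ, Nat.succ_mul]
    exact Poly_mul k ih hf

section circuit

variable [Fintype k] {t g : ℕ} (C : Circuit k n t g)

/-- The gates with the gates `and`, `or` replaced by the constants `v`. -/
def Circuit.Guess (v : Fin C.size → Bool) (x : Fin n → Bool) (i : Fin C.size)
    (y : Fin C.size → Bool) : Prop :=
  ((C.gate i).IsAndOr ∧ v i = true) ∨ (¬ (C.gate i).IsAndOr ∧ (C.gate i).Fires x y)

theorem Circuit.guess_congr (v : Fin C.size → Bool) (x : Fin n → Bool) (i : Fin C.size)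
    (y y' : Fin C.size → Bool) (h : ∀ j, j < i → y j = y' j) :
    C.Guess v x i y ↔ C.Guess v x i y' := by
  unfold Circuit.Guess
  rw [Gate.fires_congr (C.gate i) x fun j hj => h j (C.wires i j hj)]

/-- The values of the gates, if the gates `and`, `or` have the values `v`. -/
noncomputable def Circuit.run (v : Fin C.size → Bool) (x : Fin n → Bool) : Fin C.size → Bool :=
  (exists_fix (C.Guess v x) (C.guess_congr v x)).choose

theorem Circuit.run_spec (v : Fin C.size → Bool) (x : Fin n → Bool) (i : Fin C.size) :
    C.run v x i = true ↔ C.Guess v x i (C.run v x) :=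
  (exists_fix (C.Guess v x) (C.guess_congr v x)).choose_spec i

theorem Circuit.run_andOr (v : Fin C.size → Bool) (x : Fin n → Bool) {i : Fin C.size}
    (hi : (C.gate i).IsAndOr) : C.run v x i = v i := by
  have h := C.run_spec v x i
  unfold Circuit.Guess at h
  rw [Bool.eq_iff_iff, h]
  constructor
  · rintro (h1 | h1)
    · exact h1.2
    · exact absurd hi h1.1
  · exact fun h1 => Or.inl ⟨hi, h1⟩

theorem Circuit.run_not (v : Fin C.size → Bool) (x : Fin n → Bool) {i : Fin C.size}
    (hi : ¬ (C.gate i).IsAndOr) : C.run v x i = true ↔ (C.gate i).Fires x (C.run v x) := by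
  have h := C.run_spec v x i
  unfold Circuit.Guess at h
  rw [h]
  constructor
  · rintro (h1 | h1)
    · exact absurd h1.1 hi
    · exact h1.2
  · exact fun h1 => Or.inr ⟨hi, h1⟩

/-- The values depend only on the guesses for the smaller gates. -/
theorem Circuit.run_congr {v v' : Fin C.size → Bool} (x : Fin n → Bool) {i : Fin C.size}
    (h : ∀ j, j < i → (C.gate j).IsAndOr → v j = v' j) :
    ∀ j, j < i → C.run v x j = C.run v' x j := by
  refine fix_unique (C.Guess v x) (C.Guess v' x) (C.guess_congr v x) (i := i) ?_
    (C.run_spec v x) (C.run_spec v' x)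
  intro j hj y
  unfold Circuit.Guess
  by_cases hA : (C.gate j).IsAndOr
  · simp only [hA, true_and, not_true, false_and, or_false]
    rw [h j hj hA]
  · simp only [hA, false_and, not_false_eq_true, true_and, false_or]

/-- The value of the gate as an element of the field. -/
noncomputable def Circuit.val (v : Fin C.size → Bool) (i : Fin C.size) (x : Fin n → Bool) : k :=
  if C.run v x i = true then 1 else 0

theorem Circuit.val_mem (v : Fin C.size → Bool) (i : Fin C.size) :
    C.val v i ∈ Degree k n (C.deg i) := by
  classical
  induction i using WellFoundedLT.induction with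
  | _ i ih =>
    by_cases hA : (C.gate i).IsAndOr
    · have h1 : C.val v i = (if v i = true then (1 : k) else 0) • (fun _ => 1) := by
        funext x
        unfold Circuit.val
        rw [C.run_andOr v x hA, Pi.smul_apply, smul_eq_mul, mul_one]
      rw [h1]
      exact Submodule.smul_mem _ _ (degree_one _)
    · cases hG : C.gate i with
      | input u =>
        have h1 : C.val v i = mon k {u} := by
          funext x
          unfold Circuit.val mon
          have h2 := C.run_not v x hA
          rw [hG] at h2
          have h3 : (C.run v x i = true) = (∀ w ∈ ({u} : Finset (Fin n)), x w = true) := by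
            rw [eq_iff_iff, h2]
            constructor
            · intro h w hw
              rw [mem_singleton] at hw
              rw [hw]
              exact h
            · intro h
              exact h u (mem_singleton_self u)
          simp only [h3]
        rw [h1]
        refine mon_mem_Poly k ?_
        rw [card_singleton]
        exact C.deg_input i u hG
      | linear a c =>
        obtain ⟨D, hD⟩ : ∃ D, D = C.deg i / (Fintype.card k - 1) := ⟨_, rfl⟩
        have hq : 0 < Fintype.card k - 1 := by
          have := Fintype.one_lt_card (α := k)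
          omega
        have h2 : (∑ j, a j • C.val v j) - c • (fun _ => 1) ∈ Degree k n D := by
          refine Submodule.sub_mem _ (Submodule.sum_mem _ fun j _ => ?_)
            (Submodule.smul_mem _ _ (degree_one _))
          by_cases hj : a j = 0
          · rw [hj, zero_smul]
            exact Submodule.zero_mem _
          · refine Submodule.smul_mem _ _ (Poly_mono k ?_ (ih j (C.wires i j ?_)))
            · rw [hD, Nat.le_div_iff_mul_le hq, mul_comm]
              exact C.deg_linear i a c hG j hj
            · rw [hG]
              exact hj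
        have h3 : C.val v i = (fun _ => 1) -
            ((∑ j, a j • C.val v j) - c • (fun _ => 1)) ^ (Fintype.card k - 1) := by
          funext x
          have h4 := C.run_not v x hA
          rw [hG] at h4
          have h5 : ((∑ j, a j • C.val v j) - c • (fun _ => 1) : (Fin n → Bool) → k) x =
              (∑ j, (if C.run v x j = true then a j else 0)) - c := by
            rw [Pi.sub_apply, Finset.sum_apply, Pi.smul_apply, smul_eq_mul, mul_one]
            congr 1
            refine sum_congr rfl fun j _ => ?_
            rw [Pi.smul_apply, smul_eq_mul]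
            unfold Circuit.val
            split_ifs
            · rw [mul_one]
            · rw [mul_zero]
          rw [Pi.sub_apply, Pi.pow_apply, h5]
          unfold Circuit.val
          by_cases h6 : C.run v x i = true
          · have h7 : ∑ j, (if C.run v x j = true then a j else 0) = c := h4.1 h6
            rw [if_pos h6, h7, sub_self, zero_pow hq.ne', sub_zero]
          · have h7 : ¬ ∑ j, (if C.run v x j = true then a j else 0) = c := fun h => h6 (h4.2 h)
            rw [if_neg h6, FiniteField.pow_card_sub_one_eq_one _ (sub_ne_zero.2 h7), sub_self]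
        rw [h3]
        refine Submodule.sub_mem _ (degree_one _) (Poly_mono k ?_ (degree_pow h2 _))
        rw [hD]
        exact Nat.mul_div_le _ _
      | junta A F =>
        have h1 : C.val v i = ∑ w : {j // j ∈ A} → Bool, (if F w = true then (1 : k) else 0) •
            ∏ j : {j // j ∈ A}, (if w j = true then C.val v j.1
              else (fun _ => 1) - C.val v j.1) := by
          funext x
          have h4 := C.run_not v x hA
          rw [hG] at h4
          rw [Finset.sum_apply, sum_eq_single (fun j : {j // j ∈ A} => C.run v x j.1)]
          · rw [Pi.smul_apply, smul_eq_mul, Finset.prod_apply, prod_eq_one, mul_one]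
            · unfold Circuit.val
              have h5 : (C.run v x i = true) = (F (fun j => C.run v x j.1) = true) :=
                eq_iff_iff.2 h4
              simp only [h5]
            · intro j _
              unfold Circuit.val
              cases h5 : C.run v x j.1 <;> simp [h5]
          · intro w _ hw
            obtain ⟨j, hj⟩ : ∃ j, w j ≠ C.run v x j.1 := by
              by_contra hcon
              push Not at hcon
              exact hw (funext hcon)
            rw [Pi.smul_apply, smul_eq_mul, Finset.prod_apply, prod_eq_zero (mem_univ j), mul_zero]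
            unfold Circuit.val
            cases h5 : C.run v x j.1 <;> cases h6 : w j <;> simp_all
          · intro h
            exact absurd (mem_univ _) h
        rw [h1]
        refine Submodule.sum_mem _ fun w _ => Submodule.smul_mem _ _ ?_
        refine Poly_mono k ?_ (degree_prod (univ : Finset {j // j ∈ A}) (fun j => C.deg j.1) _ ?_)
        · rw [univ_eq_attach, sum_attach A fun j => C.deg j]
          exact C.deg_local i A F hG
        · intro j _
          have h5 : C.val v j.1 ∈ Degree k n (C.deg j.1) := by
            refine ih j.1 (C.wires i j.1 ?_)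
            rw [hG]
            exact j.2
          split_ifs
          · exact h5
          · exact Submodule.sub_mem _ (degree_one _) h5
      | and A =>
        rw [hG] at hA
        exact absurd trivial hA
      | or A =>
        rw [hG] at hA
        exact absurd trivial hA

/-- The equations of the gate `i`. -/
def Circuit.query (v : Fin C.size → Bool) (i : Fin C.size) : Term k n :=
  {p | ∃ j, (C.gate i).Reads j ∧
    ((∃ A, C.gate i = .and A) ∧ p = (fun _ => 1) - C.val v j ∨
      (∃ A, C.gate i = .or A) ∧ p = C.val v j)}

/-- The value of a circuit is a combination of terms. -/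
theorem Circuit.exists_line {f : (Fin n → Bool) → Bool} (hf : C.Computes f) :
    ∃ L : Line k n, L.support.card ≤ 3 ^ g ∧
      (∀ T ∈ L.support, ∀ p ∈ T, p ∈ Degree k n t) ∧
      ∀ x, value L x = if f x = true then 1 else 0 := by
  classical
  -- the true values
  have hY : ∀ x : Fin n → Bool, ∃ y : Fin C.size → Bool, ∀ i, y i = true ↔ (C.gate i).Fires x y :=
    fun x => exists_fix (fun i y => (C.gate i).Fires x y)
      fun i y y' h => Gate.fires_congr (C.gate i) x fun j hj => h j (C.wires i j hj)
  choose Y hY using hY
  -- they are the run of the right guess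
  have hrun : ∀ (x : Fin n → Bool) (v : Fin C.size → Bool),
      (∀ i, (C.gate i).IsAndOr → v i = Y x i) → C.run v x = Y x := by
    intro x v hv
    have h1 : ∀ i, Y x i = true ↔ C.Guess v x i (Y x) := by
      intro i
      unfold Circuit.Guess
      by_cases hA : (C.gate i).IsAndOr
      · rw [hv i hA]
        simp [hA]
      · rw [hY x i]
        simp [hA]
    funext i
    induction i using WellFoundedLT.induction with
    | _ i ih =>
      rw [Bool.eq_iff_iff, C.run_spec v x i, h1 i]
      exact C.guess_congr v x i _ _ fun j hj => ih j hj
  obtain ⟨I, hI⟩ : ∃ I : Finset (Fin C.size), ∀ i, i ∈ I ↔ (C.gate i).IsAndOr :=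
    ⟨univ.filter fun i => (C.gate i).IsAndOr, fun i => by simp⟩
  have hcard : I.card ≤ g := by
    refine le_trans (le_of_eq ?_) C.few
    rw [← Set.ncard_coe_finset]
    congr 1
    ext i
    exact hI i
  -- extension of a guess
  obtain ⟨ext, hext⟩ : ∃ ext : ({i // i ∈ I} → Bool) → Fin C.size → Bool,
      ext = fun v i => if h : i ∈ I then v ⟨i, h⟩ else false := ⟨_, rfl⟩
  have hext1 : ∀ v (i : {i // i ∈ I}), ext v i.1 = v i := by
    intro v i
    rw [hext]
    exact dif_pos i.2
  have hor : ∀ i : {i // i ∈ I}, (∃ A, C.gate i.1 = .and A) ∨ ∃ A, C.gate i.1 = .or A := by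
    intro i
    have h1 := (hI i.1).1 i.2
    cases hG : C.gate i.1 with
    | input u => rw [hG] at h1; exact absurd h1 id
    | linear a c => rw [hG] at h1; exact absurd h1 id
    | junta A F => rw [hG] at h1; exact absurd h1 id
    | and A => exact Or.inl ⟨A, rfl⟩
    | or A => exact Or.inr ⟨A, rfl⟩
  obtain ⟨L, hL1, hL2, hL3⟩ := adaptive (k := k) (n := n) (I := {i // i ∈ I})
    (fun i => if ∃ A, C.gate i.1 = .and A then true else false)
    (fun v i => C.query (ext v) i.1)
    (fun v v' i hvv => by
      have h1 : ∀ j, j < i.1 → C.val (ext v) j = C.val (ext v') j := by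
        intro j hj
        funext x
        unfold Circuit.val
        rw [C.run_congr x (i := i.1) (fun l hl hA => ?_) j hj]
        rw [hext1 v ⟨l, (hI l).2 hA⟩, hext1 v' ⟨l, (hI l).2 hA⟩]
        exact hvv ⟨l, (hI l).2 hA⟩ hl
      unfold Circuit.query
      ext p
      constructor
      · rintro ⟨j, hj, h⟩
        rw [h1 j (C.wires _ _ hj)] at h
        exact ⟨j, hj, h⟩
      · rintro ⟨j, hj, h⟩
        rw [← h1 j (C.wires _ _ hj)] at h
        exact ⟨j, hj, h⟩)
    (fun v => {(fun _ => 1) - C.val (ext v) C.out}) (fun x i => Y x i.1)
    (fun x i => by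
      have h0 : C.run (ext fun i => Y x i.1) x = Y x := by
        refine hrun x _ fun j hj => ?_
        exact hext1 _ ⟨j, (hI j).2 hj⟩
      have h1 : ∀ j, C.val (ext fun i => Y x i.1) j x = if Y x j = true then 1 else 0 := by
        intro j
        unfold Circuit.val
        rw [h0]
      have h2 := hY x i.1
      rcases hor i with ⟨A, hA⟩ | ⟨A, hA⟩
      · rw [if_pos ⟨A, hA⟩, h2, hA]
        unfold Circuit.query
        constructor
        · intro h p hp
          obtain ⟨j, hj, hp⟩ := hp
          rw [hA] at hj
          rcases hp with ⟨-, hp⟩ | ⟨⟨B, hB⟩, -⟩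
          · rw [hp, Pi.sub_apply, h1, if_pos (h j hj), sub_self]
          · rw [hA] at hB
            exact absurd hB (by simp)
        · intro h j hj
          by_contra hne
          have h3 := h ((fun _ => 1) - C.val (ext fun i => Y x i.1) j)
            ⟨j, by rw [hA]; exact hj, Or.inl ⟨⟨A, hA⟩, rfl⟩⟩
          rw [Pi.sub_apply, h1, if_neg hne, sub_zero] at h3
          exact one_ne_zero h3
      · have hno : ¬ ∃ B, C.gate i.1 = .and B := by
          rintro ⟨B, hB⟩
          rw [hA] at hB
          exact absurd hB (by simp)
        rw [if_neg hno]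
        have h4 : Y x i.1 = false ↔ ¬ ∃ j ∈ A, Y x j = true := by
          rw [← Bool.not_eq_true, h2, hA]
          exact Iff.rfl
        rw [h4]
        unfold Circuit.query
        constructor
        · intro h p hp
          obtain ⟨j, hj, hp⟩ := hp
          rw [hA] at hj
          rcases hp with ⟨hB, -⟩ | ⟨-, hp⟩
          · exact absurd hB hno
          · rw [hp, h1, if_neg]
            exact fun hj1 => h ⟨j, hj, hj1⟩
        · rintro h ⟨j, hj, hj1⟩
          have h3 := h (C.val (ext fun i => Y x i.1) j)
            ⟨j, by rw [hA]; exact hj, Or.inr ⟨⟨A, hA⟩, rfl⟩⟩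
          rw [h1, if_pos hj1] at h3
          exact one_ne_zero h3)
  refine ⟨L, hL1.trans ?_, fun T hT p hp => ?_, fun x => ?_⟩
  · rw [Fintype.card_coe]
    exact Nat.pow_le_pow_right (by norm_num) hcard
  · have hval : ∀ v j, C.val v j ∈ Degree k n t := fun v j =>
      Poly_mono k (C.deg_le j) (C.val_mem v j)
    rcases hL2 T hT p hp with ⟨v, hv⟩ | ⟨v, i, j, hj, h | h⟩
    · rw [Set.mem_singleton_iff.1 hv]
      exact Submodule.sub_mem _ (degree_one _) (hval _ _)
    · rw [h.2]
      exact Submodule.sub_mem _ (degree_one _) (hval _ _)
    · rw [h.2]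
      exact hval _ _
  · rw [hL3 x]
    have h0 : C.run (ext fun i => Y x i.1) x = Y x := by
      refine hrun x _ fun j hj => ?_
      exact hext1 _ ⟨j, (hI j).2 hj⟩
    have h1 : f x = Y x C.out := hf x (Y x) (hY x)
    unfold termValue
    rw [h1]
    have h2 : C.val (ext fun i => Y x i.1) C.out x = if Y x C.out = true then 1 else 0 := by
      unfold Circuit.val
      rw [h0]
    by_cases h3 : Y x C.out = true
    · rw [if_pos h3, if_pos]
      intro p hp
      rw [Set.mem_singleton_iff.1 hp, Pi.sub_apply, h2, if_pos h3, sub_self]
    · rw [if_neg h3, if_neg]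
      intro h
      have h4 := h _ (Set.mem_singleton _)
      rw [Pi.sub_apply, h2, if_neg h3, sub_zero] at h4
      exact one_ne_zero h4

end circuit

end Pool.Agent.MP_9cec2c_lc.FieldProof
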