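import Pool.Agent.Lib.MP_9cec2c_lc.RSCirc

/-!
Refutations whose lines are linear combinations of circuits.
-/

set_option autoImplicit false
set_option linter.unusedSectionVars false

namespace Pool.Agent.MP_9cec2c_lc.FieldProof

open Finset

variable {k : Type} [Field k] {n : ℕ}

/-- The value of the linear combination of the functions `f 0, ..., f (S - 1)` with the coefficients
`c`. -/
def combination {S : ℕ} (f : Fin S → (Fin n → Bool) → Bool) (c : Fin S → k) (x : Fin n → Bool) : k :=
  ∑ s, if f s x = true then c s else 0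

/-- The linear combinations `L 0, ..., L (l - 1)` of the functions `f 0, ..., f (S - 1)` form a
refutation of `F` with at most `b` premises. The line `L i` asserts that its value is 0. Some line is
false for all assignments. Each line is implied by a clause of `F` or by at most `b` earlier
lines. -/
def IsRefutationBy (b : ℕ) (F : Finset (Clause (Fin n))) {S l : ℕ}
    (f : Fin S → (Fin n → Bool) → Bool) (L : Fin l → Fin S → k) : Prop :=
  (∃ i, ∀ x, combination f (L i) x ≠ 0) ∧
    ∀ i, (∃ C ∈ F, ∀ x, Holds x C → combination f (L i) x = 0) ∨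
      ∃ P : Finset (Fin l), P.card ≤ b ∧ (∀ j ∈ P, j < i) ∧
        ∀ x, (∀ j ∈ P, combination f (L j) x = 0) → combination f (L i) x = 0

/-- In every refutation of `F` whose lines are linear combinations of `S` functions with circuits
with at most `g` gates `and`, `or` we have `N ≤ S * 3 ^ g`, whatever the number of lines. -/
def NeedsCircuits (k : Type) [Field k] [Fintype k] (t b g N : ℕ) (F : Finset (Clause (Fin n))) :
    Prop :=
  ∀ (S l : ℕ) (f : Fin S → (Fin n → Bool) → Bool) (L : Fin l → Fin S → k),
    (∀ s, ∃ C : Circuit k n t g, C.Computes (f s)) → IsRefutationBy b F f L → N ≤ S * 3 ^ g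

theorem Needs.circuits [Fintype k] {t b N : ℕ} {F : Finset (Clause (Fin n))}
    (h : Needs k t b N F) (g : ℕ) : NeedsCircuits k t b g N F := by
  classical
  intro S l f L hf hL
  choose C hC using hf
  choose M hM1 hM2 hM3 using fun s => (C s).exists_line (hC s)
  obtain ⟨L', hL'⟩ : ∃ L' : Fin l → Line k n, L' = fun i => ∑ s, L i s • M s := ⟨_, rfl⟩
  have hval : ∀ i x, value (L' i) x = combination f (L i) x := by
    intro i x
    rw [hL', value_sum]
    unfold combination
    refine sum_congr rfl fun s _ => ?_
    rw [value_smul, hM3]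
    split_ifs
    · rw [mul_one]
    · rw [mul_zero]
  have hsupp : ∀ i T, L' i T ≠ 0 → ∃ s, T ∈ (M s).support := by
    intro i T hT
    by_contra hcon
    push Not at hcon
    apply hT
    rw [hL']
    show (∑ s, L i s • M s) T = 0
    rw [Finsupp.finsetSum_apply]
    refine sum_eq_zero fun s _ => ?_
    rw [Finsupp.smul_apply, Finsupp.notMem_support_iff.1 (hcon s), smul_zero]
  have href : IsRefutation t b F L' := by
    refine ⟨fun i T hT p hp => ?_, ?_, fun i => ?_⟩
    · obtain ⟨s, hs⟩ := hsupp i T (Finsupp.mem_support_iff.1 hT)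
      exact hM2 s T hs p hp
    · obtain ⟨i, hi⟩ := hL.1
      exact ⟨i, fun x => by rw [hval]; exact hi x⟩
    · rcases hL.2 i with ⟨D, hD, h1⟩ | ⟨P, h1, h2, h3⟩
      · exact Or.inl ⟨D, hD, fun x hx => by rw [hval]; exact h1 x hx⟩
      · refine Or.inr ⟨P, h1, h2, fun x hx => ?_⟩
        rw [hval]
        exact h3 x fun j hj => by rw [← hval]; exact hx j hj
  refine (h.2 l L' href).trans ?_
  have h1 : {T | ∃ i, L' i T ≠ 0} ⊆ ((univ : Finset (Fin S)).biUnion fun s => (M s).support : Finset
      (Term k n)) := by
    rintro T ⟨i, hi⟩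
    obtain ⟨s, hs⟩ := hsupp i T hi
    exact mem_coe.2 (mem_biUnion.2 ⟨s, mem_univ s, hs⟩)
  refine (Set.ncard_le_ncard h1 (Finset.finite_toSet _)).trans ?_
  rw [Set.ncard_coe_finset]
  refine (card_biUnion_le).trans ((sum_le_card_nsmul _ _ (3 ^ g) fun s _ => hM1 s).trans ?_)
  rw [card_univ, Fintype.card_fin, smul_eq_mul]

end Pool.Agent.MP_9cec2c_lc.FieldProof
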