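import Mathlib

/-!
Most sets of variables contain a large set whose closure is empty.
-/

set_option autoImplicit false
set_option linter.unusedSectionVars false

namespace Pool.Agent.MP_9cec2c_lc.ResPoly

open Finset

variable {V ι : Type*} [Fintype V] [DecidableEq V] [Fintype ι] [DecidableEq ι]

/-- the variables in exactly one of the sets `Z i`, `i ∈ I` -/
def bd (Z : ι → Finset V) (I : Finset ι) : Finset V :=
  univ.filter fun v => (I.filter fun i => v ∈ Z i).card = 1

/-- the variables in the sets `Z i`, `i ∈ I` -/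
def un (Z : ι → Finset V) (I : Finset ι) : Finset V := I.biUnion Z

/-- sets with empty closure -/
def Good (Z : ι → Finset V) (r : ℕ) (T : Finset V) : Prop :=
  ∀ I : Finset ι, I.card ≤ r → bd Z I ⊆ T → I = ∅

variable {Z : ι → Finset V} {r k t : ℕ}

theorem Good.mono {T T' : Finset V} (h : Good Z r T) (hT : T' ⊆ T) : Good Z r T' :=
  fun I hI hb => h I hI (hb.trans hT)

theorem bd_subset (I : Finset ι) : bd Z I ⊆ un Z I := by
  intro v hv
  rw [bd, mem_filter] at hv
  obtain ⟨i, hi⟩ := card_pos.1 (by rw [hv.2]; exact one_pos : 0 < (I.filter fun i => v ∈ Z i).card)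
  rw [mem_filter] at hi
  exact mem_biUnion.2 ⟨i, hi.1, hi.2⟩

theorem sum_card_eq (I : Finset ι) :
    ∑ i ∈ I, (Z i).card = ∑ v ∈ un Z I, (I.filter fun i => v ∈ Z i).card := by
  have h1 : ∀ i ∈ I, (Z i).card = ∑ v ∈ un Z I, if v ∈ Z i then 1 else 0 := by
    intro i hi
    rw [← card_filter]
    congr 1
    ext v
    rw [mem_filter]
    exact ⟨fun h => ⟨mem_biUnion.2 ⟨i, hi, h⟩, h⟩, fun h => h.2⟩
  rw [sum_congr rfl h1, sum_comm]
  refine sum_congr rfl fun v _ => ?_
  rw [card_filter]

/-- double counting of the incidences -/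
theorem two_un_le (hk : ∀ i, (Z i).card ≤ k) (I : Finset ι) :
    2 * (un Z I).card ≤ k * I.card + (bd Z I).card := by
  have h1 : ∑ i ∈ I, (Z i).card ≤ k * I.card := by
    calc ∑ i ∈ I, (Z i).card ≤ ∑ _i ∈ I, k := sum_le_sum fun i _ => hk i
      _ = k * I.card := by rw [sum_const, smul_eq_mul, mul_comm]
  have h2 : 2 * (un Z I).card ≤ ∑ v ∈ un Z I, (I.filter fun i => v ∈ Z i).card +
      (bd Z I).card := by
    have h3 : (bd Z I).card = ∑ v ∈ un Z I, if (I.filter fun i => v ∈ Z i).card = 1 then 1 else 0 := by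
      rw [← card_filter]
      congr 1
      ext v
      rw [mem_filter]
      constructor
      · intro h
        exact ⟨bd_subset I h, (mem_filter.1 h).2⟩
      · intro h
        exact mem_filter.2 ⟨mem_univ v, h.2⟩
    rw [h3, ← sum_add_distrib, mul_comm, ← smul_eq_mul, ← sum_const]
    refine sum_le_sum fun v hv => ?_
    obtain ⟨i, hi, hvi⟩ := mem_biUnion.1 hv
    have h4 : 0 < (I.filter fun i => v ∈ Z i).card :=
      card_pos.2 ⟨i, mem_filter.2 ⟨hi, hvi⟩⟩
    split_ifs <;> omega
  rw [← sum_card_eq] at h2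
  omega

/-- the removed variables -/
def rem (Z : ι → Finset V) (t : ℕ) (𝓘 : Finset (Finset ι)) (T : Finset V) : Finset V :=
  ((univ.filter fun i => t < (T ∩ Z i).card).biUnion Z) ∪
    ((𝓘.filter fun I => bd Z I ⊆ T).biUnion (un Z))

/-- the dense small sets of clauses -/
def dense (Z : ι → Finset V) (k r : ℕ) : Finset (Finset ι) :=
  univ.filter fun I => I.Nonempty ∧ I.card ≤ r ∧ (un Z I).card ≤ (k - 1) * I.card

theorem good_sdiff_rem (hk : ∀ i, (Z i).card ≤ k) (ht : t + 2 ≤ k)
    (hbd : ∀ I : Finset ι, I.card ≤ r → I.Nonempty → (bd Z I).Nonempty) (T : Finset V) :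
    Good Z r (T \ rem Z t (dense Z k r) T) := by
  intro I hI hb
  by_contra hne
  have hne' : I.Nonempty := nonempty_iff_ne_empty.2 hne
  have h1 : ∀ i, ((T \ rem Z t (dense Z k r) T) ∩ Z i).card ≤ t := by
    intro i
    by_cases hi : t < (T ∩ Z i).card
    · have : (T \ rem Z t (dense Z k r) T) ∩ Z i = ∅ := by
        rw [eq_empty_iff_forall_notMem]
        intro v hv
        rw [mem_inter, mem_sdiff] at hv
        exact hv.1.2 (mem_union_left _ (mem_biUnion.2 ⟨i, mem_filter.2 ⟨mem_univ i, hi⟩, hv.2⟩))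
      rw [this, card_empty]
      exact Nat.zero_le t
    · exact (card_le_card (inter_subset_inter_right sdiff_subset)).trans (not_lt.1 hi)
  have h2 : (bd Z I).card ≤ t * I.card := by
    have h3 : bd Z I ⊆ I.biUnion fun i => (T \ rem Z t (dense Z k r) T) ∩ Z i := by
      intro v hv
      obtain ⟨i, hi, hvi⟩ := mem_biUnion.1 (bd_subset I hv)
      exact mem_biUnion.2 ⟨i, hi, mem_inter.2 ⟨hb hv, hvi⟩⟩
    calc (bd Z I).card ≤ _ := card_le_card h3
      _ ≤ ∑ i ∈ I, ((T \ rem Z t (dense Z k r) T) ∩ Z i).card := card_biUnion_le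
      _ ≤ ∑ _i ∈ I, t := sum_le_sum fun i _ => h1 i
      _ = t * I.card := by rw [sum_const, smul_eq_mul, mul_comm]
  have h4 := two_un_le hk I
  have h5 : (un Z I).card ≤ (k - 1) * I.card := by
    obtain ⟨e, rfl⟩ : ∃ e, k = t + 2 + e := ⟨k - (t + 2), by omega⟩
    have h6 : t + 2 + e - 1 = t + 1 + e := by omega
    rw [h6]
    have h7 : 2 * (un Z I).card ≤ 2 * ((t + 1 + e) * I.card) := by
      nlinarith [Nat.zero_le (e * I.card)]
    omega
  have hd : I ∈ dense Z k r := mem_filter.2 ⟨mem_univ I, hne', hI, h5⟩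
  obtain ⟨v, hv⟩ := hbd I hI hne'
  have h8 := hb hv
  rw [mem_sdiff] at h8
  exact h8.2 (mem_union_right _ (mem_biUnion.2
    ⟨I, mem_filter.2 ⟨hd, hb.trans sdiff_subset⟩, bd_subset I hv⟩))

/-- the supersets of a set -/
theorem card_super (U : Finset V) (d : ℕ) (hU : U.card ≤ d) :
    ((powersetCard d (univ : Finset V)).filter fun T => U ⊆ T).card =
      (Fintype.card V - U.card).choose (d - U.card) := by
  rw [← card_compl, ← card_powersetCard]
  refine card_bij (fun T _ => T \ U) ?_ ?_ ?_
  · intro T hT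
    rw [mem_filter, mem_powersetCard] at hT
    rw [mem_powersetCard]
    refine ⟨fun v hv => mem_compl.2 (mem_sdiff.1 hv).2, ?_⟩
    rw [card_sdiff_of_subset hT.2, hT.1.2]
  · intro T hT T' hT' h
    rw [mem_filter] at hT hT'
    rw [← sdiff_union_of_subset hT.2, h, sdiff_union_of_subset hT'.2]
  · intro S hS
    rw [mem_powersetCard] at hS
    have hdis : Disjoint S U := by
      rw [disjoint_left]
      intro v hv hvU
      exact mem_compl.1 (hS.1 hv) hvU
    refine ⟨S ∪ U, ?_, ?_⟩
    · rw [mem_filter, mem_powersetCard]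
      refine ⟨⟨subset_univ _, ?_⟩, subset_union_right⟩
      rw [card_union_of_disjoint hdis, hS.2]
      omega
    · exact union_sdiff_cancel_right hdis

theorem choose_ratio_le (n d : ℕ) (hdn : d ≤ n) (u : ℕ) (hu : u ≤ d) :
    ((n - u).choose (d - u) : ℝ) ≤ ((d : ℝ) / n) ^ u * (n.choose d : ℝ) := by
  induction u with
  | zero => simp
  | succ u ih =>
    have h1 := ih (by omega)
    obtain ⟨a, ha⟩ : ∃ a, n - u = a + 1 := ⟨n - u - 1, by omega⟩
    obtain ⟨b, hb⟩ : ∃ b, d - u = b + 1 := ⟨d - u - 1, by omega⟩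
    have h2 : n - (u + 1) = a := by omega
    have h3 : d - (u + 1) = b := by omega
    rw [h2, h3]
    rw [ha, hb] at h1
    have h4 : (a + 1) * a.choose b = (a + 1).choose (b + 1) * (b + 1) := Nat.add_one_mul_choose_eq a b
    have h5 : ((a : ℝ) + 1) * (a.choose b : ℝ) = ((a + 1).choose (b + 1) : ℝ) * (b + 1) := by
      exact_mod_cast h4
    have hn : (0 : ℝ) < n := by
      have : 0 < n := by omega
      exact_mod_cast this
    have h6 : ((b : ℝ) + 1) / (a + 1) ≤ (d : ℝ) / n := by
      rw [div_le_div_iff₀ (by positivity) hn]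
      have h7 : (a : ℝ) + 1 = n - u := by
        have : a + 1 + u = n := by omega
        have : (a : ℝ) + 1 + u = n := by exact_mod_cast this
        linarith
      have h8 : (b : ℝ) + 1 = d - u := by
        have : b + 1 + u = d := by omega
        have : (b : ℝ) + 1 + u = d := by exact_mod_cast this
        linarith
      rw [h7, h8]
      have h9 : (d : ℝ) ≤ n := by exact_mod_cast hdn
      nlinarith [Nat.cast_nonneg (α := ℝ) u]
    have h10 : (a.choose b : ℝ) = ((a + 1).choose (b + 1) : ℝ) * (((b : ℝ) + 1) / (a + 1)) := by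
      field_simp
      linarith
    rw [h10, pow_succ]
    calc ((a + 1).choose (b + 1) : ℝ) * (((b : ℝ) + 1) / (a + 1))
        ≤ (((d : ℝ) / n) ^ u * (n.choose d : ℝ)) * ((d : ℝ) / n) := by gcongr
      _ = ((d : ℝ) / n) ^ u * ((d : ℝ) / n) * (n.choose d : ℝ) := by ring

theorem card_super_le (U : Finset V) (d : ℕ) (hd : d ≤ Fintype.card V) :
    (((powersetCard d (univ : Finset V)).filter fun T => U ⊆ T).card : ℝ) ≤
      ((d : ℝ) / Fintype.card V) ^ U.card * ((Fintype.card V).choose d : ℝ) := by
  rcases le_or_gt U.card d with h | h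
  · rw [card_super U d h]
    exact choose_ratio_le _ _ hd _ h
  · have : (powersetCard d (univ : Finset V)).filter (fun T => U ⊆ T) = ∅ := by
      rw [eq_empty_iff_forall_notMem]
      intro T hT
      rw [mem_filter, mem_powersetCard] at hT
      have := card_le_card hT.2
      omega
    rw [this, card_empty]
    simp only [Nat.cast_zero]
    positivity

/-- sets that meet a clause in more than `t` variables -/
theorem card_meet_le (i : ι) (hk : (Z i).card ≤ k) (d : ℕ) (hd : d ≤ Fintype.card V) :
    (((powersetCard d (univ : Finset V)).filter fun T => t < (T ∩ Z i).card).card : ℝ) ≤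
      (k.choose (t + 1) : ℝ) * (((d : ℝ) / Fintype.card V) ^ (t + 1) *
        ((Fintype.card V).choose d : ℝ)) := by
  have h1 : (powersetCard d (univ : Finset V)).filter (fun T => t < (T ∩ Z i).card) ⊆
      (powersetCard (t + 1) (Z i)).biUnion fun U =>
        (powersetCard d (univ : Finset V)).filter fun T => U ⊆ T := by
    intro T hT
    rw [mem_filter] at hT
    obtain ⟨U, hU, hUc⟩ := exists_subset_card_eq hT.2
    exact mem_biUnion.2 ⟨U, mem_powersetCard.2 ⟨hU.trans inter_subset_right, hUc⟩,
      mem_filter.2 ⟨hT.1, hU.trans inter_subset_left⟩⟩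
  have h2 := (card_le_card h1).trans card_biUnion_le
  have h3 : ((((powersetCard d (univ : Finset V)).filter fun T => t < (T ∩ Z i).card).card : ℕ) : ℝ) ≤
      ∑ U ∈ powersetCard (t + 1) (Z i),
        (((powersetCard d (univ : Finset V)).filter fun T => U ⊆ T).card : ℝ) := by
    exact_mod_cast h2
  refine h3.trans ?_
  have h4 : ∑ U ∈ powersetCard (t + 1) (Z i),
        (((powersetCard d (univ : Finset V)).filter fun T => U ⊆ T).card : ℝ) ≤
      ∑ _U ∈ powersetCard (t + 1) (Z i), (((d : ℝ) / Fintype.card V) ^ (t + 1) *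
        ((Fintype.card V).choose d : ℝ)) := by
    refine sum_le_sum fun U hU => ?_
    have h5 := card_super_le U d hd
    rw [(mem_powersetCard.1 hU).2] at h5
    exact h5
  refine h4.trans ?_
  rw [sum_const, nsmul_eq_mul, card_powersetCard]
  gcongr

/-- the average number of removed variables -/
theorem sum_rem_le (hk : ∀ i, (Z i).card ≤ k) (𝓘 : Finset (Finset ι)) (d : ℕ)
    (hd : d ≤ Fintype.card V) :
    ∑ T ∈ powersetCard d (univ : Finset V), ((rem Z t 𝓘 T).card : ℝ) ≤
      ((Fintype.card ι : ℝ) * (k * k.choose (t + 1)) * ((d : ℝ) / Fintype.card V) ^ (t + 1) +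
        ∑ I ∈ 𝓘, ((un Z I).card : ℝ) * ((d : ℝ) / Fintype.card V) ^ (bd Z I).card) *
          ((Fintype.card V).choose d : ℝ) := by
  have h1 : ∀ T : Finset V, ((rem Z t 𝓘 T).card : ℝ) ≤
      ∑ i, (if t < (T ∩ Z i).card then (k : ℝ) else 0) +
        ∑ I ∈ 𝓘, (if bd Z I ⊆ T then ((un Z I).card : ℝ) else 0) := by
    intro T
    have h2 : (rem Z t 𝓘 T).card ≤ ∑ i ∈ univ.filter (fun i => t < (T ∩ Z i).card), (Z i).card +
        ∑ I ∈ 𝓘.filter (fun I => bd Z I ⊆ T), (un Z I).card :=
      (card_union_le _ _).trans (add_le_add card_biUnion_le card_biUnion_le)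
    have h3 : ((rem Z t 𝓘 T).card : ℝ) ≤
        ∑ i ∈ univ.filter (fun i => t < (T ∩ Z i).card), ((Z i).card : ℝ) +
        ∑ I ∈ 𝓘.filter (fun I => bd Z I ⊆ T), ((un Z I).card : ℝ) := by exact_mod_cast h2
    refine h3.trans ?_
    rw [sum_filter, sum_filter]
    refine add_le_add (sum_le_sum fun i _ => ?_) le_rfl
    split_ifs
    · exact_mod_cast hk i
    · exact le_rfl
  refine (sum_le_sum fun T _ => h1 T).trans ?_
  rw [sum_add_distrib, sum_comm, sum_comm (s := powersetCard d (univ : Finset V)) (t := 𝓘), add_mul]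
  refine add_le_add ?_ ?_
  · have h4 : ∀ i : ι, ∑ T ∈ powersetCard d (univ : Finset V),
        (if t < (T ∩ Z i).card then (k : ℝ) else 0) ≤
        (k * k.choose (t + 1)) * ((d : ℝ) / Fintype.card V) ^ (t + 1) *
          ((Fintype.card V).choose d : ℝ) := by
      intro i
      rw [← sum_filter, sum_const, nsmul_eq_mul]
      have h5 := card_meet_le (t := t) i (hk i) d hd
      calc _ ≤ ((k.choose (t + 1) : ℝ) * (((d : ℝ) / Fintype.card V) ^ (t + 1) *
          ((Fintype.card V).choose d : ℝ))) * k := by gcongr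
        _ = _ := by ring
    calc _ ≤ ∑ _i : ι, (k * k.choose (t + 1)) * ((d : ℝ) / Fintype.card V) ^ (t + 1) *
          ((Fintype.card V).choose d : ℝ) := sum_le_sum fun i _ => h4 i
      _ = _ := by
        rw [sum_const, nsmul_eq_mul, card_univ]
        ring
  · rw [sum_mul]
    refine sum_le_sum fun I _ => ?_
    rw [← sum_filter, sum_const, nsmul_eq_mul]
    have h6 := card_super_le (bd Z I) d hd
    calc _ ≤ (((d : ℝ) / Fintype.card V) ^ (bd Z I).card *
          ((Fintype.card V).choose d : ℝ)) * (un Z I).card := by gcongr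
      _ = _ := by ring

open Classical in
/-- many sets of size `d` have empty closure -/
theorem count_good (hk : ∀ i, (Z i).card ≤ k) (ht : t + 2 ≤ k)
    (hbd : ∀ I : Finset ι, I.card ≤ r → I.Nonempty → (bd Z I).Nonempty) {d b : ℕ}
    (hd : d + b ≤ Fintype.card V)
    (hE : (Fintype.card ι : ℝ) * (k * k.choose (t + 1)) *
        (((d + b : ℕ) : ℝ) / Fintype.card V) ^ (t + 1) +
        ∑ I ∈ dense Z k r, ((un Z I).card : ℝ) *
          (((d + b : ℕ) : ℝ) / Fintype.card V) ^ (bd Z I).card ≤ b / 2) :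
    (Fintype.card V).choose (d + b) ≤ 2 * ((Fintype.card V - d).choose b *
      ((powersetCard d (univ : Finset V)).filter fun T => Good Z r T).card) := by
  set P := powersetCard (d + b) (univ : Finset V) with hP
  have hPc : P.card = (Fintype.card V).choose (d + b) := by
    rw [hP, card_powersetCard, card_univ]
  set A := P.filter fun T => (rem Z t (dense Z k r) T).card ≤ b with hA
  -- Markov
  have h1 : P.card ≤ 2 * A.card := by
    have h2 : ∑ T ∈ P, ((rem Z t (dense Z k r) T).card : ℝ) ≤ b / 2 * P.card := by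
      refine (sum_rem_le hk (dense Z k r) (d + b) hd).trans ?_
      rw [hPc]
      gcongr
    have h3 : ((P \ A).card : ℝ) * (b + 1) ≤ ∑ T ∈ P, ((rem Z t (dense Z k r) T).card : ℝ) := by
      calc ((P \ A).card : ℝ) * (b + 1) = ∑ _T ∈ P \ A, ((b : ℝ) + 1) := by
            rw [sum_const, nsmul_eq_mul]
        _ ≤ ∑ T ∈ P \ A, ((rem Z t (dense Z k r) T).card : ℝ) := by
            refine sum_le_sum fun T hT => ?_
            rw [mem_sdiff, hA, mem_filter, not_and, not_le] at hT
            have h4 := hT.2 hT.1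
            exact_mod_cast h4
        _ ≤ _ := sum_le_sum_of_subset_of_nonneg sdiff_subset fun T _ _ => Nat.cast_nonneg _
    have h5 : ((P \ A).card : ℝ) + A.card = P.card := by
      have h6 : (P \ A).card + A.card = P.card := card_sdiff_add_card_eq_card (filter_subset _ _)
      exact_mod_cast h6
    have h7 : (P.card : ℝ) ≤ 2 * A.card := by
      have h8 : ((P \ A).card : ℝ) * (b + 1) ≤ b / 2 * P.card := h3.trans h2
      have h9 : (0 : ℝ) ≤ b := Nat.cast_nonneg b
      have h10 : (0 : ℝ) ≤ P.card := Nat.cast_nonneg _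
      have h11 : ((P \ A).card : ℝ) * (b + 1) ≤ P.card / 2 * (b + 1) := by nlinarith
      have h12 : ((P \ A).card : ℝ) ≤ P.card / 2 := le_of_mul_le_mul_right h11 (by positivity)
      linarith
    exact_mod_cast h7
  -- double counting
  set N := (powersetCard d (univ : Finset V)).filter fun T => Good Z r T with hN
  have h2 : A.card ≤ (Fintype.card V - d).choose b * N.card := by
    have h3 : A ⊆ N.biUnion fun T => P.filter fun T' => T ⊆ T' := by
      intro T' hT'
      rw [hA, mem_filter, hP, mem_powersetCard] at hT'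
      have h4 : d ≤ (T' \ rem Z t (dense Z k r) T').card := by
        have h5 := le_card_sdiff (rem Z t (dense Z k r) T') T'
        omega
      obtain ⟨T, hT, hTc⟩ := exists_subset_card_eq h4
      refine mem_biUnion.2 ⟨T, ?_, ?_⟩
      · rw [hN, mem_filter, mem_powersetCard]
        exact ⟨⟨subset_univ T, hTc⟩, (good_sdiff_rem hk ht hbd T').mono hT⟩
      · rw [mem_filter, hP, mem_powersetCard]
        exact ⟨hT'.1, hT.trans sdiff_subset⟩
    refine (card_le_card h3).trans (card_biUnion_le.trans ?_)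
    have h4 : ∀ T ∈ N, (P.filter fun T' => T ⊆ T').card = (Fintype.card V - d).choose b := by
      intro T hT
      rw [hN, mem_filter, mem_powersetCard] at hT
      rw [hP, card_super T (d + b) (by omega), hT.1.2, Nat.add_sub_cancel_left]
    rw [sum_congr rfl h4, sum_const, smul_eq_mul, mul_comm]
  rw [← hPc]
  omega

/-- sets that meet every clause in few variables have empty closure -/
theorem good_of_meet {θ : ℕ}
    (hbd : ∀ I : Finset ι, I.card ≤ r → I.Nonempty → θ * I.card < (bd Z I).card) {T : Finset V}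
    (hT : ∀ i, (T ∩ Z i).card ≤ θ) : Good Z r T := by
  intro I hI hb
  by_contra hne
  have h1 := hbd I hI (nonempty_iff_ne_empty.2 hne)
  have h3 : bd Z I ⊆ I.biUnion fun i => T ∩ Z i := by
    intro v hv
    obtain ⟨i, hi, hvi⟩ := mem_biUnion.1 (bd_subset I hv)
    exact mem_biUnion.2 ⟨i, hi, mem_inter.2 ⟨hb hv, hvi⟩⟩
  have h4 : (bd Z I).card ≤ θ * I.card := by
    calc (bd Z I).card ≤ _ := card_le_card h3
      _ ≤ ∑ i ∈ I, (T ∩ Z i).card := card_biUnion_le
      _ ≤ ∑ _i ∈ I, θ := sum_le_sum fun i _ => hT i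
      _ = θ * I.card := by rw [sum_const, smul_eq_mul, mul_comm]
  omega

open Classical in
/-- the double counting argument -/
theorem count_of_trim (f : Finset V → Finset V) (p : Finset V → Prop)
    (hp : ∀ T T', p T → T' ⊆ T → p T') (hf : ∀ T, p (T \ f T)) {d b : ℕ}
    (h1 : (((powersetCard (d + b) (univ : Finset V)).card : ℕ) : ℝ) * (b / 2) ≥
      ∑ T ∈ powersetCard (d + b) (univ : Finset V), ((f T).card : ℝ)) :
    (Fintype.card V).choose (d + b) ≤ 2 * ((Fintype.card V - d).choose b *
      ((powersetCard d (univ : Finset V)).filter fun T => p T).card) := by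
  set P := powersetCard (d + b) (univ : Finset V) with hP
  have hPc : P.card = (Fintype.card V).choose (d + b) := by
    rw [hP, card_powersetCard, card_univ]
  set A := P.filter fun T => (f T).card ≤ b with hA
  have h2 : P.card ≤ 2 * A.card := by
    have h3 : ((P \ A).card : ℝ) * (b + 1) ≤ ∑ T ∈ P, ((f T).card : ℝ) := by
      calc ((P \ A).card : ℝ) * (b + 1) = ∑ _T ∈ P \ A, ((b : ℝ) + 1) := by
            rw [sum_const, nsmul_eq_mul]
        _ ≤ ∑ T ∈ P \ A, ((f T).card : ℝ) := by
            refine sum_le_sum fun T hT => ?_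
            rw [mem_sdiff, hA, mem_filter, not_and, not_le] at hT
            have h4 := hT.2 hT.1
            exact_mod_cast h4
        _ ≤ _ := sum_le_sum_of_subset_of_nonneg sdiff_subset fun T _ _ => Nat.cast_nonneg _
    have h5 : ((P \ A).card : ℝ) + A.card = P.card := by
      have h6 : (P \ A).card + A.card = P.card := card_sdiff_add_card_eq_card (filter_subset _ _)
      exact_mod_cast h6
    have h7 : (P.card : ℝ) ≤ 2 * A.card := by
      have h8 : ((P \ A).card : ℝ) * (b + 1) ≤ P.card * (b / 2) := h3.trans h1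
      have h9 : (0 : ℝ) ≤ b := Nat.cast_nonneg b
      have h10 : (0 : ℝ) ≤ P.card := Nat.cast_nonneg _
      have h11 : ((P \ A).card : ℝ) * (b + 1) ≤ P.card / 2 * (b + 1) := by nlinarith
      have h12 : ((P \ A).card : ℝ) ≤ P.card / 2 := le_of_mul_le_mul_right h11 (by positivity)
      linarith
    exact_mod_cast h7
  set N := (powersetCard d (univ : Finset V)).filter fun T => p T with hN
  have h3 : A.card ≤ (Fintype.card V - d).choose b * N.card := by
    have h3 : A ⊆ N.biUnion fun T => P.filter fun T' => T ⊆ T' := by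
      intro T' hT'
      rw [hA, mem_filter, hP, mem_powersetCard] at hT'
      have h4 : d ≤ (T' \ f T').card := by
        have h5 := le_card_sdiff (f T') T'
        omega
      obtain ⟨T, hT, hTc⟩ := exists_subset_card_eq h4
      refine mem_biUnion.2 ⟨T, ?_, ?_⟩
      · rw [hN, mem_filter, mem_powersetCard]
        exact ⟨⟨subset_univ T, hTc⟩, hp _ _ (hf T') hT⟩
      · rw [mem_filter, hP, mem_powersetCard]
        exact ⟨hT'.1, hT.trans sdiff_subset⟩
    refine (card_le_card h3).trans (card_biUnion_le.trans ?_)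
    have h4 : ∀ T ∈ N, (P.filter fun T' => T ⊆ T').card = (Fintype.card V - d).choose b := by
      intro T hT
      rw [hN, mem_filter, mem_powersetCard] at hT
      rw [hP, card_super T (d + b) (by omega), hT.1.2, Nat.add_sub_cancel_left]
    rw [sum_congr rfl h4, sum_const, smul_eq_mul, mul_comm]
  rw [← hPc]
  omega

open Classical in
/-- many sets of size `d` meet every clause in at most `θ` variables -/
theorem count_meet {θ : ℕ} (hk : ∀ i, (Z i).card ≤ k) {d b : ℕ} (hd : d + b ≤ Fintype.card V)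
    (hE : (Fintype.card ι : ℝ) * (k * k.choose (θ + 1)) *
        (((d + b : ℕ) : ℝ) / Fintype.card V) ^ (θ + 1) ≤ b / 2) :
    (Fintype.card V).choose (d + b) ≤ 2 * ((Fintype.card V - d).choose b *
      ((powersetCard d (univ : Finset V)).filter fun T => ∀ i, (T ∩ Z i).card ≤ θ).card) := by
  have key := count_of_trim (d := d) (b := b) (fun T => rem Z θ ∅ T)
    (fun T => ∀ i, (T ∩ Z i).card ≤ θ)
    (fun T T' h hT i => (card_le_card (inter_subset_inter_right hT)).trans (h i)) ?_ ?_
  · convert key
  · intro T i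
    by_cases hi : θ < (T ∩ Z i).card
    · have : (T \ rem Z θ ∅ T) ∩ Z i = ∅ := by
        rw [eq_empty_iff_forall_notMem]
        intro v hv
        rw [mem_inter, mem_sdiff] at hv
        exact hv.1.2 (mem_union_left _ (mem_biUnion.2 ⟨i, mem_filter.2 ⟨mem_univ i, hi⟩, hv.2⟩))
      rw [this, card_empty]
      exact Nat.zero_le θ
    · exact (card_le_card (inter_subset_inter_right sdiff_subset)).trans (not_lt.1 hi)
  · have h1 := sum_rem_le (t := θ) hk ∅ (d + b) hd
    rw [sum_empty, add_zero] at h1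
    rw [card_powersetCard, card_univ]
    refine h1.trans ?_
    rw [mul_comm]
    gcongr

end Pool.Agent.MP_9cec2c_lc.ResPoly
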