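import Pool.Agent.Lib.MP_9cec2c_lc.Mg.G040
import Pool.Agent.Lib.MP_9cec2c_lc.RSCl

/-!
The operator that reduces monomials modulo the constraints of their closures, for constraints on
blocks of variables that can be repaired at each of their blocks.
-/

set_option autoImplicit false
set_option linter.unusedSectionVars false

namespace Pool.Agent.MP_9cec2c_lc.ResPoly

open Finset

variable {n : ℕ} (K : Type) [Field K]

/-! ### Substitutions -/

/-- Replace the values on the variables `v` with `P v` by those of `b`. -/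
def subst (P : Fin n → Prop) [DecidablePred P] (b : Fin n → Bool) :
    ((Fin n → Bool) → K) →ₗ[K] ((Fin n → Bool) → K) where
  toFun f := fun x => f (fun v => if P v then b v else x v)
  map_add' _ _ := rfl
  map_smul' _ _ := rfl

theorem subst_mon {P : Fin n → Prop} [DecidablePred P] {b : Fin n → Bool}
    {M : Finset (Fin n)} : subst K P b (mon K M) =
      if ∀ v ∈ M, P v → b v = true then mon K (M.filter fun v => ¬ P v) else 0 := by
  funext x
  show mon K M (fun v => if P v then b v else x v) = _
  by_cases h : ∀ v ∈ M, P v → b v = true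
  · rw [if_pos h]
    unfold mon
    congr 1
    apply propext
    constructor
    · intro h1 u hu
      obtain ⟨hu1, hu2⟩ := mem_filter.1 hu
      have h2 : (if P u then b u else x u) = true := h1 u hu1
      rwa [if_neg hu2] at h2
    · intro h1 u hu
      show (if P u then b u else x u) = true
      by_cases hP : P u
      · rw [if_pos hP]
        exact h u hu hP
      · rw [if_neg hP]
        exact h1 u (mem_filter.2 ⟨hu, hP⟩)
  · rw [if_neg h]
    push Not at h
    obtain ⟨v, hv, hP, hb⟩ := h
    unfold mon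
    rw [if_neg]
    · rfl
    · intro h1
      have h2 : (if P v then b v else x v) = true := h1 v hv
      rw [if_pos hP] at h2
      exact hb h2

theorem subst_mon_of_disj {P : Fin n → Prop} [DecidablePred P] {b : Fin n → Bool}
    {M : Finset (Fin n)} (h : ∀ v ∈ M, ¬ P v) : subst K P b (mon K M) = mon K M := by
  rw [subst_mon, if_pos fun v hv hP => absurd hP (h v hv), filter_true_of_mem h]

theorem subst_low {P : Fin n → Prop} [DecidablePred P] {b : Fin n → Bool}
    {M : Finset (Fin n)} {q : (Fin n → Bool) → K} (hq : q ∈ low K M) :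
    subst K P b q ∈ low K M := by
  unfold low at hq
  induction hq using Submodule.span_induction with
  | mem f hf =>
    obtain ⟨M', h1, rfl⟩ := hf
    rw [subst_mon]
    split_ifs
    · exact Submodule.subset_span ⟨_, (key_mono (filter_subset _ M')).trans_lt h1, rfl⟩
    · exact Submodule.zero_mem _
  | zero =>
    rw [map_zero]
    exact Submodule.zero_mem _
  | add f g _ _ hf hg =>
    rw [map_add]
    exact Submodule.add_mem _ hf hg
  | smul c f _ hf =>
    rw [map_smul]
    exact Submodule.smul_mem _ c hf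

/-- Set the variables outside the blocks in `W` to 0. -/
theorem subst_zero_mon {P : Fin n → Prop} [DecidablePred P] {M : Finset (Fin n)} :
    subst K P (fun _ => false) (mon K M) = if ∀ v ∈ M, ¬ P v then mon K M else 0 := by
  rw [subst_mon]
  by_cases h : ∀ v ∈ M, ¬ P v
  · rw [if_pos h, if_pos fun v hv hP => absurd hP (h v hv), filter_true_of_mem h]
  · rw [if_neg h, if_neg]
    push Not at h
    obtain ⟨v, hv, hP⟩ := h
    intro h1
    exact absurd (h1 v hv hP) (by simp)

/-! ### Constraints on blocks of variables -/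

/-- Constraints on blocks of variables, on a domain `Dm` of assignments: the variable `v` is in
the block `β v`, the constraint `i` is falsified by the points in `F i`, which only depend on the
values in the blocks in `Z i`, and can be repaired at each block `h` in `Z i` by the assignment
`pat i h` of this block. -/
structure BlockSys (n : ℕ) (H ι : Type*) [DecidableEq H] where
  /-- the block of a variable -/
  β : Fin n → H
  /-- the domain -/
  Dm : Set (Fin n → Bool)
  /-- the blocks of a constraint -/
  Z : ι → Finset H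
  /-- the points that falsify a constraint -/
  F : ι → Set (Fin n → Bool)
  /-- the assignment that repairs a constraint -/
  pat : ι → H → Fin n → Bool
  dm_zero : ∀ x ∈ Dm, ∀ W : Finset H, (fun v => if β v ∉ W then false else x v) ∈ Dm
  loc : ∀ i, ∀ x y : Fin n → Bool, (∀ v, β v ∈ Z i → x v = y v) → x ∈ F i → y ∈ F i
  dm_pat : ∀ i, ∀ h ∈ Z i, ∀ x ∈ Dm, (fun v => if β v = h then pat i h v else x v) ∈ Dm
  sat_pat : ∀ i, ∀ h ∈ Z i, ∀ x ∈ Dm, (fun v => if β v = h then pat i h v else x v) ∉ F i

variable {H ι : Type*} [Fintype H] [DecidableEq H] [Fintype ι] [DecidableEq ι]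

/-- The points of the domain that satisfy the constraints in `I`. -/
def BlockSys.Sat (S : BlockSys n H ι) (I : Finset ι) : Set (Fin n → Bool) :=
  {x | x ∈ S.Dm ∧ ∀ i ∈ I, x ∉ S.F i}

theorem BlockSys.Sat_anti {S : BlockSys n H ι} {I J : Finset ι} (h : J ⊆ I) :
    S.Sat I ⊆ S.Sat J := fun _ hx => ⟨hx.1, fun i hi => hx.2 i (h hi)⟩

theorem BlockSys.Sat_empty (S : BlockSys n H ι) : S.Sat ∅ = S.Dm := by
  ext x
  exact ⟨fun h => h.1, fun h => ⟨h, fun i hi => absurd hi (notMem_empty i)⟩⟩

/-- The blocks of a set of variables. -/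
def BlockSys.blk (S : BlockSys n H ι) (M : Finset (Fin n)) : Finset H := M.image S.β

theorem BlockSys.mem_blk {S : BlockSys n H ι} {M : Finset (Fin n)} {v : Fin n} (hv : v ∈ M) :
    S.β v ∈ S.blk M := mem_image_of_mem _ hv

theorem BlockSys.blk_subset {S : BlockSys n H ι} {M : Finset (Fin n)} {W : Finset H} :
    S.blk M ⊆ W ↔ ∀ v ∈ M, S.β v ∈ W := image_subset_iff

theorem BlockSys.blk_mono {S : BlockSys n H ι} {M M' : Finset (Fin n)} (h : M ⊆ M') :
    S.blk M ⊆ S.blk M' := image_subset_image h

theorem BlockSys.blk_union (S : BlockSys n H ι) (M M' : Finset (Fin n)) :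
    S.blk (M ∪ M') = S.blk M ∪ S.blk M' := image_union _ _

theorem BlockSys.card_blk (S : BlockSys n H ι) (M : Finset (Fin n)) :
    (S.blk M).card ≤ M.card := card_image_le

variable {S : BlockSys n H ι}

/-- Peeling of a constraint with a private block. -/
theorem std_peel {I : Finset ι} {i : ι} {h : H} {M : Finset (Fin n)} (hh : h ∈ S.Z i)
    (hhM : h ∉ S.blk M) (hhI : h ∉ (I.erase i).biUnion S.Z)
    (hM : Std K (S.Sat (I.erase i)) M) : Std K (S.Sat I) M := by
  intro hcon
  apply hM
  obtain ⟨q, hq, g, hg, hqg⟩ := Submodule.mem_sup.1 hcon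
  refine Submodule.mem_sup.2 ⟨subst K (fun v => S.β v = h) (S.pat i h) q, subst_low K hq,
    subst K (fun v => S.β v = h) (S.pat i h) g, ?_, ?_⟩
  · intro x hx
    refine hg _ ⟨S.dm_pat i h hh x hx.1, fun j hj => ?_⟩
    by_cases hji : j = i
    · rw [hji]
      exact S.sat_pat i h hh x hx.1
    · intro hF
      refine hx.2 j (mem_erase.2 ⟨hji, hj⟩) (S.loc j _ _ (fun v hv => ?_) hF)
      rw [if_neg]
      rintro rfl
      exact hhI (mem_biUnion.2 ⟨j, mem_erase.2 ⟨hji, hj⟩, hv⟩)
  · rw [← map_add, hqg]
    refine subst_mon_of_disj K fun v hv hvh => ?_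
    exact hhM (hvh ▸ S.mem_blk hv)

/-- The normal form of a monomial only uses its blocks and those of the constraints. -/
theorem nf_support {J : Finset ι} {T : Finset (Fin n)} {r : (Fin n → Bool) → K}
    (hr : r ∈ stdSpan K (S.Sat J) (fun M => key M ≤ key T))
    (hv : mon K T - r ∈ van K (S.Sat J)) :
    r ∈ stdSpan K (S.Sat J) (fun M => S.blk M ⊆ S.blk T ∪ J.biUnion S.Z ∧ key M ≤ key T) := by
  obtain ⟨W, hW⟩ : ∃ W, W = S.blk T ∪ J.biUnion S.Z := ⟨_, rfl⟩
  have h1 : ∀ r ∈ stdSpan K (S.Sat J) (fun M => key M ≤ key T),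
      subst K (fun v => S.β v ∉ W) (fun _ => false) r ∈
        stdSpan K (S.Sat J) (fun M => S.blk M ⊆ W ∧ key M ≤ key T) := by
    intro r hr
    unfold stdSpan at hr
    induction hr using Submodule.span_induction with
    | mem f hf =>
      obtain ⟨M, h1, h2, rfl⟩ := hf
      rw [subst_zero_mon]
      by_cases h : ∀ v ∈ M, ¬ S.β v ∉ W
      · rw [if_pos h]
        exact Submodule.subset_span ⟨M, h1,
          ⟨S.blk_subset.2 fun v hv => not_not.1 (h v hv), h2⟩, rfl⟩
      · rw [if_neg h]
        exact Submodule.zero_mem _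
    | zero =>
      rw [map_zero]
      exact Submodule.zero_mem _
    | add f g _ _ hf hg =>
      rw [map_add]
      exact Submodule.add_mem _ hf hg
    | smul c f _ hf =>
      rw [map_smul]
      exact Submodule.smul_mem _ c hf
  have h2 : subst K (fun v => S.β v ∉ W) (fun _ => false) (mon K T) = mon K T := by
    refine subst_mon_of_disj K fun v hv => ?_
    rw [not_not, hW]
    exact mem_union_left _ (S.mem_blk hv)
  have h3 : mon K T - subst K (fun v => S.β v ∉ W) (fun _ => false) r ∈ van K (S.Sat J) := by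
    rw [← h2, ← map_sub]
    intro x hx
    refine hv _ ⟨S.dm_zero x hx.1 W, fun i hi hF => hx.2 i hi (S.loc i _ _ (fun v hv => ?_) hF)⟩
    have hu' : S.β v ∈ W := by
      rw [hW]
      exact mem_union_right _ (mem_biUnion.2 ⟨i, hi, hv⟩)
    rw [if_neg (not_not.2 hu')]
  have h4 : r = subst K (fun v => S.β v ∉ W) (fun _ => false) r :=
    NF.unique K (E := S.Sat J) ⟨stdSpan_mono K (fun _ _ => trivial) hr, hv⟩
      ⟨stdSpan_mono K (fun _ _ => trivial) (h1 r hr), h3⟩ (by
        rw [sub_self]
        exact Submodule.zero_mem _)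
  rw [← hW, h4]
  exact h1 r hr

/-- The normal form does not change when constraints outside of the closure are added. -/
theorem nf_stable {r : ℕ} {T : Finset H} {M : Finset (Fin n)}
    (hM : Std K (S.Sat (Cl S.Z r T)) M) (hMT : S.blk M ⊆ T ∪ (Cl S.Z r T).biUnion S.Z)
    (hCl : bd S.Z (Cl S.Z r T) ⊆ T) :
    ∀ I : Finset ι, Cl S.Z r T ⊆ I → I.card ≤ r → Std K (S.Sat I) M := by
  intro I
  induction I using Finset.strongInduction with
  | H I ih =>
    intro hI hIr
    by_cases hEq : I = Cl S.Z r T
    · rw [hEq]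
      exact hM
    · obtain ⟨i, hi, hiC, v, hv, hvT, hvn⟩ := exists_peel hCl hI hIr hEq
      have hsub : Cl S.Z r T ⊆ I.erase i := by
        intro j hj
        refine mem_erase.2 ⟨?_, hI hj⟩
        rintro rfl
        exact hiC hj
      refine std_peel K hv ?_ hvn
        (ih (I.erase i) (erase_ssubset hi) hsub ((card_le_card (erase_subset i I)).trans hIr))
      intro hvM
      rcases mem_union.1 (hMT hvM) with h1 | h1
      · exact hvT h1
      · exact hvn (biUnion_subset_biUnion_of_subset_left S.Z hsub h1)

/-! ### The operator -/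

/-- The normal form of a monomial. -/
noncomputable def nfm (E : Set (Fin n → Bool)) (T : Finset (Fin n)) : (Fin n → Bool) → K :=
  Classical.choose (exists_nf K E T)

theorem nfm_mem (E : Set (Fin n → Bool)) (T : Finset (Fin n)) :
    nfm K E T ∈ stdSpan K E (fun M => key M ≤ key T) := (Classical.choose_spec (exists_nf K E T)).1

theorem nfm_van (E : Set (Fin n → Bool)) (T : Finset (Fin n)) :
    mon K T - nfm K E T ∈ van K E := (Classical.choose_spec (exists_nf K E T)).2

/-- The operator: each monomial is reduced modulo the constraints of its closure. -/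
noncomputable def opR (S : BlockSys n H ι) (r : ℕ) :
    ((Fin n → Bool) → K) →ₗ[K] ((Fin n → Bool) → K) :=
  (monBasis K n).constr K fun T => nfm K (S.Sat (Cl S.Z r (S.blk T))) T

theorem opR_mon (S : BlockSys n H ι) (r : ℕ) (T : Finset (Fin n)) :
    opR K S r (mon K T) = nfm K (S.Sat (Cl S.Z r (S.blk T))) T := by
  unfold opR
  rw [← monBasis_apply, Module.Basis.constr_basis]

/-- On functions whose monomials have their closures in `I`, the operator is the normal form
for `I`. -/
theorem opR_nf {r D : ℕ} (hZ : Tight S.Z r D) {I : Finset ι} (hI : I.card ≤ r)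
    {p : (Fin n → Bool) → K}
    (hp : p ∈ Submodule.span K {f : (Fin n → Bool) → K | ∃ M : Finset (Fin n),
      (S.blk M).card ≤ D ∧ Cl S.Z r (S.blk M) ⊆ I ∧ f = mon K M}) :
    NF K (S.Sat I) p (opR K S r p) := by
  induction hp using Submodule.span_induction with
  | mem f hf =>
    obtain ⟨T, hT, hTI, rfl⟩ := hf
    rw [opR_mon]
    have h1 := nf_support K (nfm_mem K (S.Sat (Cl S.Z r (S.blk T))) T) (nfm_van K _ T)
    refine ⟨?_, van_anti K (S.Sat_anti hTI) (nfm_van K _ T)⟩
    refine Submodule.span_mono ?_ h1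
    rintro f ⟨M, g1, g2, rfl⟩
    exact ⟨M, nf_stable K g1 g2.1 (Cl_spec hZ hT).2 I hTI hI, trivial, rfl⟩
  | zero =>
    rw [map_zero]
    exact NF.zero K _
  | add f g _ _ hf hg =>
    rw [map_add]
    exact NF.add K hf hg
  | smul c f _ hf =>
    rw [map_smul]
    exact NF.smul K c hf

/-- The operator kills the functions of degree at most `D` that vanish on the domain. -/
theorem opR_van {r D : ℕ} (hZ : Tight S.Z r D) {p : (Fin n → Bool) → K} (hp : p ∈ Poly K n D)
    (hv : p ∈ van K S.Dm) : opR K S r p = 0 := by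
  have key1 : ∀ p ∈ Poly K n D, ∃ q ∈ stdSpan K S.Dm (fun _ => True),
      p - q ∈ van K S.Dm ∧ opR K S r q = opR K S r p := by
    intro p hp
    unfold Poly at hp
    induction hp using Submodule.span_induction with
    | mem f hf =>
      obtain ⟨T, hT, rfl⟩ := hf
      have hv := nfm_van K (S.Sat (∅ : Finset ι)) T
      have hm := nf_support K (nfm_mem K (S.Sat (∅ : Finset ι)) T) hv
      refine ⟨nfm K (S.Sat ∅) T, ?_, ?_, ?_⟩
      · rw [← S.Sat_empty]
        exact stdSpan_mono K (fun _ _ => trivial) hm
      · rw [← S.Sat_empty]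
        exact hv
      · have hTD : (S.blk T).card ≤ D := (S.card_blk T).trans hT
        have h1 : (Cl S.Z r (S.blk T)).card ≤ r := by
          have := (Cl_spec hZ hTD).1
          omega
        have h2 : NF K (S.Sat (Cl S.Z r (S.blk T))) (mon K T) (opR K S r (mon K T)) :=
          opR_nf K hZ h1 (Submodule.subset_span ⟨T, hTD, Subset.refl _, rfl⟩)
        have h3 : NF K (S.Sat (Cl S.Z r (S.blk T))) (nfm K (S.Sat (∅ : Finset ι)) T)
            (opR K S r (nfm K (S.Sat (∅ : Finset ι)) T)) := by
          refine opR_nf K hZ h1 (Submodule.span_mono ?_ hm)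
          rintro f ⟨M, -, ⟨g2, -⟩, rfl⟩
          rw [biUnion_empty, union_empty] at g2
          exact ⟨M, (card_le_card g2).trans hTD, Cl_mono g2, rfl⟩
        refine NF.unique K h3 h2 ?_
        rw [← neg_sub]
        exact Submodule.neg_mem _ (van_anti K (S.Sat_anti (empty_subset _)) hv)
    | zero =>
      exact ⟨0, Submodule.zero_mem _, by rw [sub_zero]; exact Submodule.zero_mem _, rfl⟩
    | add f g _ _ hf hg =>
      obtain ⟨q, h1, h2, h3⟩ := hf
      obtain ⟨q', h1', h2', h3'⟩ := hg
      refine ⟨q + q', Submodule.add_mem _ h1 h1', ?_, ?_⟩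
      · rw [add_sub_add_comm]
        exact Submodule.add_mem _ h2 h2'
      · rw [map_add, map_add, h3, h3']
    | smul c f _ hf =>
      obtain ⟨q, h1, h2, h3⟩ := hf
      refine ⟨c • q, Submodule.smul_mem _ _ h1, ?_, ?_⟩
      · rw [← smul_sub]
        exact Submodule.smul_mem _ _ h2
      · rw [map_smul, map_smul, h3]
  obtain ⟨q, h1, h2, h3⟩ := key1 p hp
  have h4 : q = 0 := by
    refine stdSpan_unique K h1 ?_
    have h5 : q = p - (p - q) := by abel
    rw [h5]
    exact Submodule.sub_mem _ hv h2
  rw [← h3, h4, map_zero]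

/-- Multiplication by a variable. -/
theorem opR_var {r D : ℕ} (hZ : Tight S.Z r D) (v : Fin n) {d : ℕ} (hd : d + 1 ≤ D)
    {p : (Fin n → Bool) → K} (hp : p ∈ Poly K n d) (h0 : opR K S r p = 0) :
    opR K S r (mon K {v} * p) = 0 := by
  have key1 : ∀ p ∈ Poly K n d,
      opR K S r (mon K {v} * opR K S r p) = opR K S r (mon K {v} * p) := by
    intro p hp
    unfold Poly at hp
    induction hp using Submodule.span_induction with
    | mem f hf =>
      obtain ⟨T, hT, rfl⟩ := hf
      have hTD : (S.blk T).card ≤ D := (S.card_blk T).trans (by omega)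
      have hcard : ∀ M : Finset (Fin n), M.card ≤ T.card → (S.blk (M ∪ {v})).card ≤ D := by
        intro M hM
        have h1 := card_union_le M {v}
        have h2 := S.card_blk (M ∪ {v})
        rw [card_singleton] at h1
        omega
      obtain ⟨h1, h2⟩ := Cl_spec hZ (hcard T le_rfl)
      have hI : (Cl S.Z r (S.blk (T ∪ {v}))).card ≤ r := by omega
      have hnf1 : NF K (S.Sat (Cl S.Z r (S.blk (T ∪ {v})))) (mon K {v} * mon K T)
          (opR K S r (mon K {v} * mon K T)) := by
        refine opR_nf K hZ hI (Submodule.subset_span ⟨T ∪ {v}, hcard T le_rfl,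
          Subset.refl _, ?_⟩)
        rw [mon_mul, union_comm]
      have hnf2 : NF K (S.Sat (Cl S.Z r (S.blk (T ∪ {v})))) (mon K {v} * opR K S r (mon K T))
          (opR K S r (mon K {v} * opR K S r (mon K T))) := by
        refine opR_nf K hZ hI ?_
        rw [opR_mon]
        have h3 := nf_support K (nfm_mem K (S.Sat (Cl S.Z r (S.blk T))) T) (nfm_van K _ T)
        have h4 : ∀ f ∈ stdSpan K (S.Sat (Cl S.Z r (S.blk T))) (fun M =>
            S.blk M ⊆ S.blk T ∪ (Cl S.Z r (S.blk T)).biUnion S.Z ∧ key M ≤ key T),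
            mon K {v} * f ∈ Submodule.span K {f : (Fin n → Bool) → K |
              ∃ M : Finset (Fin n), (S.blk M).card ≤ D ∧
              Cl S.Z r (S.blk M) ⊆ Cl S.Z r (S.blk (T ∪ {v})) ∧ f = mon K M} := by
          intro f hf
          unfold stdSpan at hf
          induction hf using Submodule.span_induction with
          | mem f hf =>
            obtain ⟨M, -, ⟨g2, g3⟩, rfl⟩ := hf
            have hMc := hcard M (card_le_of_key_le g3)
            refine Submodule.subset_span ⟨M ∪ {v}, hMc, ?_, ?_⟩
            · rw [S.blk_union] at hMc ⊢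
              rw [S.blk_union]
              exact Cl_insert hZ hTD hMc g2
            · rw [mon_mul, union_comm]
          | zero =>
            rw [mul_zero]
            exact Submodule.zero_mem _
          | add f g _ _ hf hg =>
            rw [mul_add]
            exact Submodule.add_mem _ hf hg
          | smul c f _ hf =>
            rw [mul_smul_comm]
            exact Submodule.smul_mem _ c hf
        exact h4 _ h3
      refine NF.unique K hnf2 hnf1 ?_
      intro x hx
      have h5 := nfm_van K (S.Sat (Cl S.Z r (S.blk T))) T x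
        (S.Sat_anti (Cl_mono (S.blk_mono subset_union_left)) hx)
      rw [opR_mon]
      rw [Pi.sub_apply] at h5
      rw [Pi.sub_apply, Pi.mul_apply, Pi.mul_apply, ← mul_sub]
      have h6 : nfm K (S.Sat (Cl S.Z r (S.blk T))) T x - mon K T x = 0 := by
        rw [← neg_sub, h5, neg_zero]
      rw [h6, mul_zero]
    | zero => simp
    | add f g _ _ hf hg =>
      rw [map_add, mul_add, mul_add, map_add, map_add, hf, hg]
    | smul c f _ hf =>
      rw [map_smul, mul_smul_comm, mul_smul_comm, map_smul, map_smul, hf]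
  rw [← key1 p hp, h0, mul_zero, map_zero]

/-- Multiplication by a function of small degree. -/
theorem opR_mul {r D : ℕ} (hZ : Tight S.Z r D) {d e : ℕ} (hde : d + e ≤ D)
    {p g : (Fin n → Bool) → K} (hp : p ∈ Poly K n d) (hg : g ∈ Poly K n e)
    (h0 : opR K S r p = 0) : opR K S r (p * g) = 0 := by
  have hmon : ∀ M : Finset (Fin n), M.card ≤ e → opR K S r (mon K M * p) = 0 := by
    intro M
    induction M using Finset.induction_on with
    | empty =>
      intro _
      have h1 : mon K (∅ : Finset (Fin n)) * p = p := by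
        funext x
        rw [Pi.mul_apply]
        unfold mon
        rw [if_pos (by simp), one_mul]
      rw [h1, h0]
    | insert v M hv ih =>
      intro hM
      rw [card_insert_of_notMem hv] at hM
      have h1 : mon K (insert v M) * p = mon K {v} * (mon K M * p) := by
        rw [← mul_assoc, mon_mul, insert_eq]
      rw [h1]
      exact opR_var K hZ v (d := M.card + d) (by omega)
        (Poly_mul K (mon_mem_Poly K le_rfl) hp) (ih (by omega))
  unfold Poly at hg
  induction hg using Submodule.span_induction with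
  | mem g hg =>
    obtain ⟨M, hM, rfl⟩ := hg
    rw [mul_comm]
    exact hmon M hM
  | zero => simp
  | add f g _ _ hf hg => rw [mul_add, map_add, hf, hg, add_zero]
  | smul c f _ hf => rw [mul_smul_comm, map_smul, hf, smul_zero]

/-- On combinations of monomials with empty closure, the operator is the identity on the
domain. -/
theorem opR_good {r : ℕ} {f : (Fin n → Bool) → K}
    (hf : f ∈ Submodule.span K {f : (Fin n → Bool) → K | ∃ M : Finset (Fin n),
      Cl S.Z r (S.blk M) = ∅ ∧ f = mon K M}) : f - opR K S r f ∈ van K S.Dm := by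
  induction hf using Submodule.span_induction with
  | mem f hf =>
    obtain ⟨T, hT, rfl⟩ := hf
    rw [opR_mon, hT, S.Sat_empty]
    exact nfm_van K _ T
  | zero =>
    rw [map_zero, sub_zero]
    exact Submodule.zero_mem _
  | add f g _ _ hf hg =>
    rw [map_add, add_sub_add_comm]
    exact Submodule.add_mem _ hf hg
  | smul c f _ hf =>
    rw [map_smul, ← smul_sub]
    exact Submodule.smul_mem _ _ hf

/-- Functions that only depend on the variables in some blocks are combinations of their
monomials. -/
theorem mem_span_of_depends (S : BlockSys n H ι) (W : Finset H) {f : (Fin n → Bool) → K}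
    (hf : ∀ x y : Fin n → Bool, (∀ v, S.β v ∈ W → x v = y v) → f x = f y) :
    f ∈ Submodule.span K {f : (Fin n → Bool) → K | ∃ M : Finset (Fin n), S.blk M ⊆ W ∧
      f = mon K M} := by
  have h1 : subst K (fun v => S.β v ∉ W) (fun _ => false) f = f := by
    funext x
    refine hf _ _ fun v hv => ?_
    rw [if_neg (not_not.2 hv)]
  rw [← h1, ← (monBasis K n).sum_repr f, map_sum]
  refine Submodule.sum_mem _ fun M _ => ?_
  rw [map_smul, monBasis_apply, subst_zero_mon]
  refine Submodule.smul_mem _ _ ?_
  split_ifs with h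
  · exact Submodule.subset_span ⟨M, S.blk_subset.2 fun v hv => not_not.1 (h v hv), rfl⟩
  · exact Submodule.zero_mem _

/-- The operator kills the functions that are implied by a constraint and only depend on its
blocks. -/
theorem opR_Fals {r D : ℕ} (hZ : Tight S.Z r D) (hr1 : 1 ≤ r) {i : ι} (hi : (S.Z i).card ≤ D)
    {p : (Fin n → Bool) → K}
    (hp : ∀ x y : Fin n → Bool, (∀ v, S.β v ∈ S.Z i → x v = y v) → p x = p y)
    (hpF : ∀ x ∈ S.Dm, x ∉ S.F i → p x = 0) : opR K S r p = 0 := by
  obtain ⟨h1, h2⟩ := Cl_spec hZ hi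
  have hiC : i ∈ Cl S.Z r (S.Z i) := by
    refine mem_Cl.2 ⟨{i}, by rw [card_singleton]; exact hr1, fun v hv => ?_,
      mem_singleton_self i⟩
    obtain ⟨j, hj, hvj, -⟩ := mem_bd.1 hv
    rw [mem_singleton] at hj
    rwa [hj] at hvj
  have h4 : NF K (S.Sat (Cl S.Z r (S.Z i))) p (opR K S r p) := by
    refine opR_nf K hZ (by omega) (Submodule.span_mono ?_ (mem_span_of_depends K S (S.Z i) hp))
    rintro f ⟨M, hM, rfl⟩
    exact ⟨M, (card_le_card hM).trans hi, Cl_mono hM, rfl⟩
  have h5 : p ∈ van K (S.Sat (Cl S.Z r (S.Z i))) := fun x hx => hpF x hx.1 (hx.2 i hiC)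
  exact NF.unique K h4 (NF.zero_of_van K h5) (by
    rw [sub_self]
    exact Submodule.zero_mem _)

/-- The functions killed by the operator: they contain the functions implied by one constraint,
are closed under products of small degree, and contain no combination of monomials with empty
closure. -/
theorem exists_ideal_blocks (S : BlockSys n H ι) {r D : ℕ} (hZ : Tight S.Z r D) (hr1 : 1 ≤ r)
    (hk : ∀ i, (S.Z i).card ≤ D) :
    ∃ J : Submodule K ((Fin n → Bool) → K),
      (∀ p ∈ Poly K n D, (∀ x ∈ S.Dm, p x = 0) → p ∈ J) ∧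
      (∀ (i : ι) (p : (Fin n → Bool) → K),
        (∀ x y : Fin n → Bool, (∀ v, S.β v ∈ S.Z i → x v = y v) → p x = p y) →
        (∀ x ∈ S.Dm, x ∉ S.F i → p x = 0) → p ∈ J) ∧
      (∀ (e e' : ℕ) (p g : (Fin n → Bool) → K), e + e' ≤ D → p ∈ J → p ∈ Poly K n e →
        g ∈ Poly K n e' → p * g ∈ J) ∧
      ∀ f ∈ Submodule.span K {f : (Fin n → Bool) → K | ∃ M : Finset (Fin n),
        Good S.Z r (S.blk M) ∧ f = mon K M}, f ∈ J → ∀ x ∈ S.Dm, f x = 0 := by
  refine ⟨LinearMap.ker (opR K S r), fun p hp hv => ?_, fun i p hp hpF => ?_,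
    fun e e' p g he hp hpe hg => ?_, fun f hf hfJ => ?_⟩
  · exact LinearMap.mem_ker.2 (opR_van K hZ hp hv)
  · exact LinearMap.mem_ker.2 (opR_Fals K hZ hr1 (hk i) hp hpF)
  · exact LinearMap.mem_ker.2 (opR_mul K hZ he hpe hg (LinearMap.mem_ker.1 hp))
  · have h1 : f - opR K S r f ∈ van K S.Dm := by
      refine opR_good K (Submodule.span_mono ?_ hf)
      rintro f ⟨M, hM, rfl⟩
      exact ⟨M, Cl_eq_empty hM, rfl⟩
    rw [LinearMap.mem_ker.1 hfJ, sub_zero] at h1
    exact h1

/-! ### Clauses -/

/-- Clauses: the clause `i` is falsified exactly by the points that agree with `a i` on `Z i`. -/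
def clauseSys (Z : ι → Finset (Fin n)) (a : ι → Fin n → Bool) : BlockSys n (Fin n) ι where
  β v := v
  Dm := Set.univ
  Z := Z
  F i := {x | ∀ v ∈ Z i, x v = a i v}
  pat i _ v := !a i v
  dm_zero _ _ _ := trivial
  loc i x y h hx v hv := (h v hv).symm.trans (hx v hv)
  dm_pat _ _ _ _ _ := trivial
  sat_pat i h hh x _ hx := by
    have h1 : (if h = h then !a i h else x h) = a i h := hx h hh
    rw [if_pos rfl] at h1
    revert h1
    cases a i h <;> simp

/-- The indicator function of the points that falsify the clause `i`. -/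
def Fals (Z : ι → Finset (Fin n)) (a : ι → Fin n → Bool) (i : ι) (x : Fin n → Bool) : K :=
  if ∀ v ∈ Z i, x v = a i v then 1 else 0

/-- The functions killed by the operator: they contain the clauses, are closed under products of
small degree, and contain no combination of monomials with empty closure. -/
theorem exists_ideal {Z : ι → Finset (Fin n)} (a : ι → Fin n → Bool) {r D : ℕ}
    (hZ : Tight Z r D) (hr1 : 1 ≤ r) (hk : ∀ i, (Z i).card ≤ D) :
    ∃ J : Submodule K ((Fin n → Bool) → K),
      (∀ i, Fals K Z a i ∈ J) ∧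
      (∀ (e e' : ℕ) (p g : (Fin n → Bool) → K), e + e' ≤ D → p ∈ J → p ∈ Poly K n e →
        g ∈ Poly K n e' → p * g ∈ J) ∧
      ∀ f ∈ Submodule.span K {f : (Fin n → Bool) → K | ∃ M : Finset (Fin n),
        Good Z r M ∧ f = mon K M}, f ∈ J → f = 0 := by
  obtain ⟨J, -, h2, h3, h4⟩ := exists_ideal_blocks K (clauseSys Z a) (r := r) (D := D) hZ hr1 hk
  refine ⟨J, fun i => h2 i _ (fun x y hxy => ?_) (fun x _ hx => ?_), h3, fun f hf hfJ =>
    funext fun x => h4 f ?_ hfJ x trivial⟩
  · unfold Fals
    congr 1
    apply propext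
    constructor
    · intro h v hv
      rw [← hxy v hv]
      exact h v hv
    · intro h v hv
      rw [hxy v hv]
      exact h v hv
  · unfold Fals
    rw [if_neg]
    exact hx
  · refine Submodule.span_mono ?_ hf
    rintro f ⟨M, hM, rfl⟩
    refine ⟨M, ?_, rfl⟩
    have h5 : (clauseSys Z a).blk M = M := image_id
    rw [h5]
    exact hM

/-- The functions killed by the operator, for constraints on blocks of variables. -/
theorem exists_ideal_block (β : Fin n → H) (Dm : Set (Fin n → Bool))
    (hzero : ∀ x ∈ Dm, ∀ W : Finset H, (fun v => if β v ∈ W then x v else false) ∈ Dm)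
    (Z : ι → Finset H) (Fal : ι → Set (Fin n → Bool))
    (hdep : ∀ i, ∀ x y : Fin n → Bool, (∀ v, β v ∈ Z i → x v = y v) → (x ∈ Fal i ↔ y ∈ Fal i))
    (pt : ι → H → Fin n → Bool)
    (hpt : ∀ i, ∀ h ∈ Z i, ∀ x ∈ Dm,
      (fun v => if β v = h then pt i h v else x v) ∈ Dm \ Fal i)
    {r D : ℕ} (hexp : Tight Z r D) (hZ : ∀ i, (Z i).card ≤ D) (hr1 : 1 ≤ r) :
    ∃ J : Submodule K ((Fin n → Bool) → K),
      (∀ p ∈ Poly K n D, (∀ x ∈ Dm, p x = 0) → p ∈ J) ∧
      (∀ (i : ι) (p : (Fin n → Bool) → K),
        (∀ x y : Fin n → Bool, (∀ v, β v ∈ Z i → x v = y v) → p x = p y) →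
        (∀ x ∈ Dm, x ∉ Fal i → p x = 0) → p ∈ J) ∧
      (∀ (e e' : ℕ) (p g : (Fin n → Bool) → K), e + e' ≤ D → p ∈ J → p ∈ Poly K n e →
        g ∈ Poly K n e' → p * g ∈ J) ∧
      ∀ f ∈ Submodule.span K {f : (Fin n → Bool) → K | ∃ M : Finset (Fin n),
        Good Z r (M.image β) ∧ f = mon K M}, f ∈ J → ∀ x ∈ Dm, f x = 0 := by
  let S : BlockSys n H ι :=
    { β := β
      Dm := Dm
      Z := Z
      F := Fal
      pat := pt
      dm_zero := fun x hx W => by
        have h1 := hzero x hx W
        have h2 : (fun v => if β v ∈ W then x v else false) =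
            fun v => if β v ∉ W then false else x v := by
          funext v
          by_cases h : β v ∈ W
          · rw [if_pos h, if_neg (not_not.2 h)]
          · rw [if_neg h, if_pos h]
        rwa [h2] at h1
      loc := fun i x y h hx => (hdep i x y h).1 hx
      dm_pat := fun i h hh x hx => (hpt i h hh x hx).1
      sat_pat := fun i h hh x hx => (hpt i h hh x hx).2 }
  exact exists_ideal_blocks K S hexp hr1 hZ

end Pool.Agent.MP_9cec2c_lc.ResPoly
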