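import Pool.Agent.Lib.MP_9cec2c_lc.Mg.G043

/-!
Adaptive evaluation of terms: the guess of the truth values of `g` terms, where each term may depend
on the truth values of the earlier ones, gives a linear combination of at most `3 ^ g` terms.
-/

set_option autoImplicit false
set_option linter.unusedSectionVars false

namespace Pool.Agent.MP_9cec2c_lc.FieldProof

open Finset

variable {k : Type} [Field k] {n : ℕ}

theorem termValue_union (S T : Term k n) (x : Fin n → Bool) :
    termValue (S ∪ T) x = termValue S x * termValue T x := by
  classical
  unfold termValue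
  by_cases hS : ∀ g ∈ S, g x = 0
  · by_cases hT : ∀ g ∈ T, g x = 0
    · rw [if_pos hS, if_pos hT, if_pos, mul_one]
      rintro g (hg | hg)
      · exact hS g hg
      · exact hT g hg
    · rw [if_neg hT, mul_zero, if_neg]
      exact fun h => hT fun g hg => h g (Or.inr hg)
  · rw [if_neg hS, zero_mul, if_neg]
    exact fun h => hS fun g hg => h g (Or.inl hg)

theorem termValue_empty (x : Fin n → Bool) : termValue (∅ : Term k n) x = 1 := by
  classical
  unfold termValue
  rw [if_pos]
  exact fun g hg => absurd hg (Set.notMem_empty g)

theorem termValue_biUnion {I : Type*} (s : Finset I) (T : I → Term k n) (x : Fin n → Bool) :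
    termValue (⋃ i ∈ s, T i) x = ∏ i ∈ s, termValue (T i) x := by
  classical
  induction s using Finset.induction_on with
  | empty =>
    rw [prod_empty]
    simp only [notMem_empty, Set.iUnion_of_empty, Set.iUnion_empty]
    exact termValue_empty x
  | insert i s hi ih =>
    rw [prod_insert hi, Finset.set_biUnion_insert, termValue_union, ih]

theorem value_single (T : Term k n) (c : k) (x : Fin n → Bool) :
    value (Finsupp.single T c) x = c * termValue T x := by
  unfold value
  rw [Finsupp.sum_single_index]
  rw [zero_mul]

theorem value_add (L L' : Line k n) (x : Fin n → Bool) :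
    value (L + L') x = value L x + value L' x := by
  classical
  unfold value
  rw [Finsupp.sum_add_index']
  · intro T
    rw [zero_mul]
  · intro T a b
    rw [add_mul]

theorem value_zero (x : Fin n → Bool) : value (0 : Line k n) x = 0 := by
  unfold value
  rw [Finsupp.sum_zero_index]

theorem value_smul (c : k) (L : Line k n) (x : Fin n → Bool) :
    value (c • L) x = c * value L x := by
  classical
  unfold value
  rw [Finsupp.sum_smul_index (fun T => by rw [zero_mul]), Finsupp.mul_sum]
  exact Finsupp.sum_congr fun T _ => by rw [mul_assoc]

theorem value_sum {I : Type*} (s : Finset I) (L : I → Line k n) (x : Fin n → Bool) :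
    value (∑ i ∈ s, L i) x = ∑ i ∈ s, value (L i) x := by
  classical
  induction s using Finset.induction_on with
  | empty => rw [sum_empty, sum_empty, value_zero]
  | insert i s hi ih => rw [sum_insert hi, sum_insert hi, value_add, ih]

/-- Adaptive terms. -/
theorem adaptive {I : Type} [Fintype I] [LinearOrder I] (σ : I → Bool)
    (θ : (I → Bool) → I → Term k n)
    (hθ : ∀ (v v' : I → Bool) (i : I), (∀ j, j < i → v j = v' j) → θ v i = θ v' i)
    (out : (I → Bool) → Term k n) (φ : (Fin n → Bool) → I → Bool)
    (hφ : ∀ x i, φ x i = σ i ↔ ∀ p ∈ θ (φ x) i, p x = 0) :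
    ∃ L : Line k n, L.support.card ≤ 3 ^ Fintype.card I ∧
      (∀ T ∈ L.support, ∀ p ∈ T, (∃ v, p ∈ out v) ∨ ∃ v i, p ∈ θ v i) ∧
      ∀ x, value L x = termValue (out (φ x)) x := by
  classical
  -- the guess of the choice `c`
  obtain ⟨gs, hgs⟩ : ∃ gs : (I → Fin 3) → I → Bool, gs = fun c i => if c i = 0 then σ i else !σ i :=
    ⟨_, rfl⟩
  obtain ⟨T, hT⟩ : ∃ T : (I → Fin 3) → Term k n, T = fun c =>
    out (gs c) ∪ ⋃ i ∈ univ.filter (fun i => c i ≠ 1), θ (gs c) i := ⟨_, rfl⟩
  obtain ⟨s, hs⟩ : ∃ s : (I → Fin 3) → k, s = fun c => ∏ i, if c i = 2 then (-1 : k) else 1 :=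
    ⟨_, rfl⟩
  refine ⟨∑ c : I → Fin 3, Finsupp.single (T c) (s c), ?_, ?_, ?_⟩
  · have h1 : (∑ c : I → Fin 3, Finsupp.single (T c) (s c)).support ⊆ univ.image T := by
      intro t ht
      have h2 := Finsupp.support_finsetSum ht
      obtain ⟨c, -, hc⟩ := mem_biUnion.1 h2
      have h3 := Finsupp.support_single_subset hc
      rw [mem_singleton] at h3
      exact mem_image.2 ⟨c, mem_univ _, h3.symm⟩
    refine (card_le_card h1).trans (card_image_le.trans ?_)
    rw [card_univ, Fintype.card_fun, Fintype.card_fin]
  · intro t ht p hp
    have h2 := Finsupp.support_finsetSum ht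
    obtain ⟨c, -, hc⟩ := mem_biUnion.1 h2
    have h3 := Finsupp.support_single_subset hc
    rw [mem_singleton] at h3
    rw [h3, hT] at hp
    rcases hp with hp | hp
    · exact Or.inl ⟨_, hp⟩
    · obtain ⟨i, hi⟩ := Set.mem_iUnion.1 hp
      obtain ⟨-, hi⟩ := Set.mem_iUnion.1 hi
      exact Or.inr ⟨_, i, hi⟩
  · intro x
    rw [value_sum]
    -- sort by the guess
    have h1 : ∑ c : I → Fin 3, value (Finsupp.single (T c) (s c)) x =
        ∑ v : I → Bool, ∑ c ∈ univ.filter (fun c => gs c = v),
          value (Finsupp.single (T c) (s c)) x := by
      rw [Finset.sum_fiberwise]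
    rw [h1]
    have h2 : ∀ v : I → Bool, ∑ c ∈ univ.filter (fun c => gs c = v),
        value (Finsupp.single (T c) (s c)) x =
        termValue (out v) x * ∏ i, (if v i = σ i then termValue (θ v i) x
          else 1 - termValue (θ v i) x) := by
      intro v
      have h3 : ∀ i, (if v i = σ i then termValue (θ v i) x else 1 - termValue (θ v i) x) =
          ∑ a ∈ (if v i = σ i then ({0} : Finset (Fin 3)) else {1, 2}),
            ((if a = 2 then (-1 : k) else 1) * if a ≠ 1 then termValue (θ v i) x else 1) := by
        intro i
        split_ifs with h
        · rw [sum_singleton]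
          simp
        · rw [sum_pair (by decide)]
          simp
          ring
      have h4 : ∏ i, (if v i = σ i then termValue (θ v i) x else 1 - termValue (θ v i) x) =
          ∑ c ∈ Fintype.piFinset
            (fun i => if v i = σ i then ({0} : Finset (Fin 3)) else {1, 2}),
            ∏ i, ((if c i = 2 then (-1 : k) else 1) *
              if c i ≠ 1 then termValue (θ v i) x else 1) := by
        rw [prod_congr rfl fun i _ => h3 i]
        exact Finset.prod_univ_sum _ _
      rw [h4, mul_sum]
      have h5 : univ.filter (fun c => gs c = v) = Fintype.piFinset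
          (fun i => if v i = σ i then ({0} : Finset (Fin 3)) else {1, 2}) := by
        ext c
        rw [mem_filter, Fintype.mem_piFinset, hgs]
        constructor
        · rintro ⟨-, h⟩ i
          have h6 := congrFun h i
          dsimp only at h6
          by_cases hc : c i = 0
          · rw [if_pos hc] at h6
            rw [if_pos h6.symm, hc]
            exact mem_singleton_self _
          · rw [if_neg hc] at h6
            have h7 : ¬ v i = σ i := by
              rw [← h6]
              cases σ i <;> decide
            rw [if_neg h7, mem_insert, mem_singleton]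
            revert hc
            generalize c i = a
            revert a
            decide
        · intro h
          refine ⟨mem_univ _, funext fun i => ?_⟩
          have h6 := h i
          dsimp only
          split_ifs at h6 with h7
          · rw [mem_singleton] at h6
            rw [if_pos h6, h7]
          · rw [mem_insert, mem_singleton] at h6
            have h8 : ¬ c i = 0 := by
              rcases h6 with h6 | h6 <;> rw [h6] <;> decide
            rw [if_neg h8]
            cases hv : v i <;> cases hσ : σ i <;> simp_all
      rw [h5]
      refine sum_congr rfl fun c hc => ?_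
      rw [← h5, mem_filter] at hc
      have hcv := hc.2
      rw [value_single, hT, hs]
      dsimp only
      rw [hcv, termValue_union, termValue_biUnion, prod_mul_distrib, prod_filter]
      ring
    rw [sum_congr rfl fun v _ => h2 v]
    -- only the right guess survives
    rw [sum_eq_single (φ x)]
    · have h3 : ∀ i, (if φ x i = σ i then termValue (θ (φ x) i) x
          else 1 - termValue (θ (φ x) i) x) = 1 := by
        intro i
        have h4 := hφ x i
        split_ifs with h
        · unfold termValue
          rw [if_pos (h4.1 h)]
        · unfold termValue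
          rw [if_neg fun h5 => h (h4.2 h5), sub_zero]
      rw [prod_congr rfl fun i _ => h3 i, prod_const_one, mul_one]
    · intro v _ hv
      -- the first index where the guess is wrong
      obtain ⟨i, hi, hmin⟩ : ∃ i, v i ≠ φ x i ∧ ∀ j, j < i → v j = φ x j := by
        have h3 : (univ.filter fun i => v i ≠ φ x i).Nonempty := by
          by_contra hne
          rw [not_nonempty_iff_eq_empty, filter_eq_empty_iff] at hne
          exact hv (funext fun i => not_not.1 (hne (mem_univ i)))
        refine ⟨(univ.filter fun i => v i ≠ φ x i).min' h3, ?_, fun j hj => ?_⟩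
        · exact (mem_filter.1 (min'_mem _ h3)).2
        · by_contra hne
          have h4 := min'_le (univ.filter fun i => v i ≠ φ x i) j
            (mem_filter.2 ⟨mem_univ j, hne⟩)
          exact absurd hj (not_lt.2 h4)
      have h3 : (if v i = σ i then termValue (θ v i) x else 1 - termValue (θ v i) x) = 0 := by
        rw [hθ v (φ x) i hmin]
        have h4 := hφ x i
        by_cases h5 : v i = σ i
        · have h6 : ¬ φ x i = σ i := fun h => hi (h5.trans h.symm)
          rw [if_pos h5]
          unfold termValue
          rw [if_neg fun h7 => h6 (h4.2 h7)]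
        · have h6 : φ x i = σ i := by
            cases hv1 : v i <;> cases hσ : σ i <;> cases hf : φ x i <;> simp_all
          rw [if_neg h5]
          unfold termValue
          rw [if_pos (h4.1 h6), sub_self]
      rw [prod_eq_zero (mem_univ i) h3, mul_zero]
    · intro h
      exact absurd (mem_univ _) h

end Pool.Agent.MP_9cec2c_lc.FieldProof
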