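import Pool.Agent.Lib.MP_9cec2c_lc.SFHalf

/-!
A refutation with few lines, each a disjunction of functions of small degree, gives a derivation of
small degree.
-/

set_option autoImplicit false
set_option linter.unusedSectionVars false

namespace Pool.Agent.MP_9cec2c_lc.SizeDeg

open Finset Pool.Agent.MP_9cec2c_lc.ResPoly

variable {n : ℕ} {K : Type} [Field K] {M : ℕ → Submodule K ((Fin n → Bool) → K)}
  {J : Submodule K ((Fin n → Bool) → K)} {D : ℕ}

theorem prod_one_sub_mem {ι : Type*} (Z : Finset ι) {l : ι → (Fin n → Bool) → K}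
    (hl : ∀ v ∈ Z, l v ∈ Pol K n 1) : ∏ v ∈ Z, (1 - l v) ∈ Pol K n Z.card := by
  classical
  induction Z using Finset.induction_on with
  | empty =>
    rw [prod_empty]
    exact one_mem_Pol _
  | insert v Z hv ih =>
    rw [prod_insert hv, card_insert_of_notMem hv, add_comm]
    exact Poly_mul K (Submodule.sub_mem _ (one_mem_Pol _) (hl v (mem_insert_self _ _)))
      (ih fun w hw => hl w (mem_insert_of_mem hw))

/-- Factors `1 - l v` can be removed if `F * l v` is killed. -/
theorem kill_lin (hF : Filt M J D) {a : ℕ} {F : (Fin n → Bool) → K} (hFa : F ∈ M a)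
    {ι : Type*} (Z : Finset ι) {l : ι → (Fin n → Bool) → K} (hl : ∀ v ∈ Z, l v ∈ Pol K n 1)
    (hFl : ∀ v ∈ Z, F * l v ∈ J) (hD : a + Z.card ≤ D) :
    F * ∏ v ∈ Z, (1 - l v) - F ∈ J := by
  classical
  induction Z using Finset.induction_on with
  | empty =>
    rw [prod_empty, mul_one, sub_self]
    exact Submodule.zero_mem _
  | insert v Z hv ih =>
    rw [card_insert_of_notMem hv] at hD
    have h1 : F * ∏ w ∈ insert v Z, (1 - l w) - F =
        (F * ∏ w ∈ Z, (1 - l w) - F) - F * l v * ∏ w ∈ Z, (1 - l w) := by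
      rw [prod_insert hv]
      ring
    rw [h1]
    refine Submodule.sub_mem _ (ih (fun w hw => hl w (mem_insert_of_mem hw))
      (fun w hw => hFl w (mem_insert_of_mem hw)) (by omega)) ?_
    exact hF.closed (a + 1) Z.card _ _ (by omega) (hFl v (mem_insert_self _ _))
      (hF.mul_mem _ _ _ _ (by omega) hFa (hl v (mem_insert_self _ _)))
      (prod_one_sub_mem Z fun w hw => hl w (mem_insert_of_mem hw))

variable [Fintype K]

/-- Factors `cf (q j)` can be removed if `F * q j` is killed. -/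
theorem kill_cf (hF : Filt M J D) {a t : ℕ} {F : (Fin n → Bool) → K} (hFa : F ∈ M a) {k : ℕ}
    {q : Fin k → (Fin n → Bool) → K} (hq : ∀ j, q j ∈ Pol K n t) (hFq : ∀ j, F * q j ∈ J)
    (hD : a + k * ((Fintype.card K - 1) * t) ≤ D) :
    F * ∏ j, cf (q j) - F ∈ J := by
  induction k with
  | zero =>
    rw [Fin.prod_univ_zero, mul_one, sub_self]
    exact Submodule.zero_mem _
  | succ k ih =>
    have hk : (k + 1) * ((Fintype.card K - 1) * t) =
        k * ((Fintype.card K - 1) * t) + (Fintype.card K - 1) * t := by ring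
    have hK := one_lt_K (K := K)
    have hsplit : (Fintype.card K - 1) * t = (Fintype.card K - 2) * t + t := by
      have h6 : Fintype.card K - 1 = Fintype.card K - 2 + 1 := by omega
      rw [h6, add_mul, one_mul]
    obtain ⟨P, hP⟩ : ∃ P, P = ∏ j : Fin k, cf (q j.castSucc) := ⟨_, rfl⟩
    obtain ⟨x, hx⟩ : ∃ x, x = q (Fin.last k) := ⟨_, rfl⟩
    have h1 : F * ∏ j : Fin (k + 1), cf (q j) - F = (F * P - F) -
        F * x * (x ^ (Fintype.card K - 2) * P) := by
      rw [Fin.prod_univ_castSucc, ← hP, ← hx]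
      unfold cf
      have h2 : x ^ (Fintype.card K - 1) = x * x ^ (Fintype.card K - 2) := by
        rw [← pow_succ']
        congr 1
        omega
      rw [h2]
      ring
    rw [h1]
    refine Submodule.sub_mem _ ?_ ?_
    · rw [hP]
      exact ih (fun j => hq _) (fun j => hFq _) (by omega)
    · have hPd : P ∈ Pol K n (k * ((Fintype.card K - 1) * t)) := by
        rw [hP]
        exact prod_cf_mem fun j => hq _
      have hxd : x ∈ Pol K n t := by
        rw [hx]
        exact hq _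
      refine hF.closed (a + t) ((Fintype.card K - 2) * t + k * ((Fintype.card K - 1) * t)) _ _
        (by omega) ?_ (hF.mul_mem _ _ _ _ (by omega) hFa hxd)
        (Poly_mul K (pow_mem_Pol hxd _) hPd)
      rw [hx]
      exact hFq _

/-- The combinations of elements of `L` with coefficients of degree at most `c`. -/
def ideal (c : ℕ) (L : Submodule K ((Fin n → Bool) → K)) : Submodule K ((Fin n → Bool) → K) :=
  Submodule.span K {f | ∃ p ∈ Pol K n c, ∃ l ∈ L, f = p * l}

theorem ideal_kill (hF : Filt M J D) {a t c : ℕ} {F : (Fin n → Bool) → K} (hFa : F ∈ M a)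
    {L : Submodule K ((Fin n → Bool) → K)} (hL : L ≤ Pol K n t) (hFL : ∀ l ∈ L, F * l ∈ J)
    (hD : a + t + c ≤ D) {g : (Fin n → Bool) → K} (hg : g ∈ ideal c L) : F * g ∈ J := by
  unfold ideal at hg
  induction hg using Submodule.span_induction with
  | mem g hg =>
    obtain ⟨p, hp, l, hl, rfl⟩ := hg
    have h1 : F * (p * l) = F * l * p := by ring
    rw [h1]
    exact hF.closed (a + t) c _ _ hD (hFL l hl) (hF.mul_mem _ _ _ _ (by omega) hFa (hL hl)) hp
  | zero =>
    rw [mul_zero]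
    exact Submodule.zero_mem _
  | add g h _ _ hg hh =>
    rw [mul_add]
    exact Submodule.add_mem _ hg hh
  | smul x g _ hg =>
    rw [mul_smul_comm]
    exact Submodule.smul_mem _ _ hg

/-- The soundness of the rules modulo `J`. -/
theorem lines_kill (hF : Filt M J D) {U : Type*} {rel : U → U → Prop} (hwf : WellFounded rel)
    {L : U → Submodule K ((Fin n → Bool) → K)} {d t c k w : ℕ} (hL : ∀ u, L u ≤ Pol K n t)
    {f : (Fin n → Bool) → K} (hf : f ∈ M d) {q : U → Fin k → (Fin n → Bool) → K}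
    (hq : ∀ u j, q u j ∈ L u) (hfL : ∀ u, ∀ l ∈ L u, f * (l * ∏ j, cf (q u j)) ∈ J)
    (hD1 : d + k * ((Fintype.card K - 1) * t) + w ≤ D)
    (hD2 : d + 2 * (k * ((Fintype.card K - 1) * t)) + t + c ≤ D)
    (hrule : ∀ u,
      (∃ (ι : Type) (Z : Finset ι) (l : ι → (Fin n → Bool) → K), Z.card ≤ w ∧
        (∀ v ∈ Z, l v ∈ Pol K n 1) ∧ (∀ v ∈ Z, l v ∈ L u) ∧
        ∀ (a : ℕ) (h : (Fin n → Bool) → K), a + w ≤ D → h ∈ M a →
          h * ∏ v ∈ Z, (1 - l v) ∈ J) ∨
      ∃ (m : ℕ) (j : Fin m → U) (h : Fin m → (Fin n → Bool) → K), (∀ i, rel (j i) u) ∧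
        (∑ i, h i = 1) ∧ (∀ i, h i ∈ Pol K n c) ∧ ∀ i, ∀ a ∈ L (j i), h i * a ∈ ideal c (L u))
    (u : U) : f * ∏ j, cf (q u j) ∈ J := by
  obtain ⟨τ, hτ⟩ : ∃ τ, τ = k * ((Fintype.card K - 1) * t) := ⟨_, rfl⟩
  rw [← hτ] at hD1 hD2
  have hPd : ∀ u, ∏ j, cf (q u j) ∈ Pol K n τ := fun u => by
    rw [hτ]
    exact prod_cf_mem fun j => hL u (hq u j)
  induction u using hwf.induction with
  | _ u ih =>
    obtain ⟨F, hFe⟩ : ∃ F, F = f * ∏ j, cf (q u j) := ⟨_, rfl⟩
    have hFM : F ∈ M (d + τ) := by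
      rw [hFe]
      exact hF.mul_mem _ _ _ _ (by omega) hf (hPd u)
    have hFL : ∀ l ∈ L u, F * l ∈ J := by
      intro l hl
      have h1 : F * l = f * (l * ∏ j, cf (q u j)) := by
        rw [hFe]
        ring
      rw [h1]
      exact hfL u l hl
    rw [← hFe]
    rcases hrule u with ⟨ι, Z, l, hZw, hl1, hlL, hax⟩ | ⟨m, j, h, hrel, hsum, hhc, hh⟩
    · have h1 := kill_lin hF hFM Z hl1 (fun v hv => hFL _ (hlL v hv)) (by omega)
      have h2 := hax (d + τ) F (by omega) hFM
      have h3 : F = F * ∏ v ∈ Z, (1 - l v) - (F * ∏ v ∈ Z, (1 - l v) - F) := by ring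
      rw [h3]
      exact Submodule.sub_mem _ h2 h1
    · have h1 : F = ∑ i, F * h i := by
        rw [← mul_sum, hsum, mul_one]
      rw [h1]
      refine Submodule.sum_mem _ fun i _ => ?_
      have hFh : F * h i ∈ M (d + τ + c) := hF.mul_mem _ _ _ _ (by omega) hFM (hhc i)
      have h2 : ∀ a ∈ L (j i), F * h i * a ∈ J := by
        intro a ha
        rw [mul_assoc]
        exact ideal_kill hF hFM (hL u) hFL (by omega) (hh i a ha)
      have h3 := kill_cf hF hFh (fun l => hL (j i) (hq (j i) l)) (fun l => h2 _ (hq (j i) l))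
        (by rw [← hτ]; omega)
      have h4 : F * h i * ∏ l, cf (q (j i) l) ∈ J := by
        have h5 : F * h i * ∏ l, cf (q (j i) l) =
            f * (∏ l, cf (q (j i) l)) * ((∏ l, cf (q u l)) * h i) := by
          rw [hFe]
          ring
        rw [h5]
        exact hF.closed (d + τ) (τ + c) _ _ (by omega) (ih (j i) (hrel i))
          (hF.mul_mem _ _ _ _ (by omega) hf (hPd (j i))) (Poly_mul K (hPd u) (hhc i))
      have h5 : F * h i = F * h i * (∏ l, cf (q (j i) l)) -
          (F * h i * (∏ l, cf (q (j i) l)) - F * h i) := by ring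
      rw [h5]
      exact Submodule.sub_mem _ h4 h3

/-- **Size and degree.** If `1` is not in `J`, there is no refutation with few lines. -/
theorem no_small_refutation (hJ : Closed J D) (h1J : (1 : (Fin n → Bool) → K) ∉ J)
    {U : Type} [Fintype U] {rel : U → U → Prop} (hwf : WellFounded rel)
    {L : U → Submodule K ((Fin n → Bool) → K)} {e t c k w N : ℕ} (hL : ∀ u, L u ≤ Pol K n t)
    (hN : ∀ u, Module.finrank K (L u) ≤ N)
    (hD1 : e + 2 * t + k * ((Fintype.card K - 1) * t) + w ≤ D)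
    (hD2 : e + 2 * t + 2 * (k * ((Fintype.card K - 1) * t)) + t + c ≤ D)
    (hcount : Fintype.card U * (N * ((e + 1) ^ t + 2 * n ^ t) ^ k) <
      (2 * ((e + 1) ^ t + n ^ t)) ^ k)
    (hrule : ∀ u,
      (∃ (ι : Type) (Z : Finset ι) (l : ι → (Fin n → Bool) → K), Z.card ≤ w ∧
        (∀ v ∈ Z, l v ∈ Pol K n 1) ∧ (∀ v ∈ Z, l v ∈ L u) ∧ ∏ v ∈ Z, (1 - l v) ∈ J) ∨
      ∃ (m : ℕ) (j : Fin m → U) (h : Fin m → (Fin n → Bool) → K), (∀ i, rel (j i) u) ∧
        (∑ i, h i = 1) ∧ (∀ i, h i ∈ Pol K n c) ∧ ∀ i, ∀ a ∈ L (j i), h i * a ∈ ideal c (L u))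
    (hlast : ∃ u, L u = ⊥) : False := by
  classical
  have hF := hJ.filt
  obtain ⟨B, hB⟩ : ∃ B : ∀ u, Module.Basis (Fin (Module.finrank K (L u))) K (L u),
      B = fun u => Module.finBasis K (L u) := ⟨_, rfl⟩
  have hg : ∀ u i, ((B u i : L u) : (Fin n → Bool) → K) ∈ Pol K n t := fun u i =>
    hL u (B u i).2
  have hspan : ∀ u, Submodule.span K (Set.range fun i => ((B u i : L u) : (Fin n → Bool) → K)) =
      L u := by
    intro u
    have h1 : (Set.range fun i => ((B u i : L u) : (Fin n → Bool) → K)) =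
        (L u).subtype '' Set.range (B u) := by
      rw [← Set.range_comp]
      rfl
    rw [h1, ← Submodule.map_span, (B u).span_eq, Submodule.map_top, Submodule.range_subtype]
  obtain ⟨r, hr⟩ : ∃ r, r = (e + 1) ^ t := ⟨_, rfl⟩
  have hr0 : 0 < r := by
    rw [hr]
    exact pow_pos (Nat.succ_pos e) t
  have hap := fun u => exists_prod hF (β := Fin (Module.finrank K (L u))) (t := t) (d := e + t)
    (r := (e + 1) ^ t) (R := (e + 1) ^ t + n ^ t) (c := (e + 1) ^ t + 2 * n ^ t) (E := 0)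
    (by ring) (hg u) k (by omega) (fun s g hgs hD => rf_ratio hJ hgs e t hD)
  choose q hq hrk using hap
  have he2 : e + t + t = e + 2 * t := by ring
  obtain ⟨H, hH⟩ : ∃ H, H = rf (fun d => Pol K n d) J 1 (e + 2 * t) := ⟨_, rfl⟩
  have hH0 : 0 < H := by
    rw [hH]
    unfold rf
    rw [Nat.pos_iff_ne_zero]
    intro h0
    have h1 := Submodule.finrank_eq_zero.1 h0
    have h2 : mq J (1 : (Fin n → Bool) → K) 1 ∈
        (Pol K n (e + 2 * t)).map (mq J (1 : (Fin n → Bool) → K)) :=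
      Submodule.mem_map_of_mem (one_mem_Pol _)
    rw [h1, Submodule.mem_bot, mq_eq_zero, mul_one] at h2
    exact h1J h2
  have hrk2 : ∀ u, (2 * ((e + 1) ^ t + n ^ t)) ^ k *
      ∑ i, rf (fun d => Pol K n d) J (((B u i : L u) : (Fin n → Bool) → K) *
        ∏ j, cf (q u j)) (e + 2 * t) ≤ N * ((e + 1) ^ t + 2 * n ^ t) ^ k * H := by
    intro u
    have h1 := hrk u
    rw [he2, ← hr, mul_zero, mul_zero, add_zero, Fintype.card_fin, ← hH] at h1
    have h2 := Nat.le_of_mul_le_mul_left h1 hr0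
    rw [← hr]
    refine h2.trans ?_
    calc (r + 2 * n ^ t) ^ k * (Module.finrank K (L u) * H) ≤
        (r + 2 * n ^ t) ^ k * (N * H) :=
          Nat.mul_le_mul_left _ (Nat.mul_le_mul_right _ (hN u))
      _ = N * (r + 2 * n ^ t) ^ k * H := by ring
  have hsum : ∑ z : Σ u : U, Fin (Module.finrank K (L u)), rf (fun d => Pol K n d) J
      (((B z.1 z.2 : L z.1) : (Fin n → Bool) → K) * ∏ j, cf (q z.1 j)) (e + 2 * t) < H := by
    refine Nat.lt_of_mul_lt_mul_left (a := (2 * ((e + 1) ^ t + n ^ t)) ^ k) ?_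
    rw [Fintype.sum_sigma, mul_sum]
    calc ∑ u : U, (2 * ((e + 1) ^ t + n ^ t)) ^ k * ∑ i, rf (fun d => Pol K n d) J
          (((B u i : L u) : (Fin n → Bool) → K) * ∏ j, cf (q u j)) (e + 2 * t) ≤
        ∑ _u : U, N * ((e + 1) ^ t + 2 * n ^ t) ^ k * H := sum_le_sum fun u _ => hrk2 u
      _ = Fintype.card U * (N * ((e + 1) ^ t + 2 * n ^ t) ^ k) * H := by
          rw [sum_const, smul_eq_mul, card_univ]
          ring
      _ < (2 * ((e + 1) ^ t + n ^ t)) ^ k * H := Nat.mul_lt_mul_of_pos_right hcount hH0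
  rw [hH] at hsum
  obtain ⟨f, hfM, hfJ, hfe⟩ := exists_multiplier hsum
  have hfL : ∀ u, ∀ l ∈ L u, f * (l * ∏ j, cf (q u j)) ∈ J := by
    intro u l hl
    rw [← hspan u] at hl
    induction hl using Submodule.span_induction with
    | mem l hl =>
      obtain ⟨i, rfl⟩ := hl
      exact hfe ⟨u, i⟩
    | zero =>
      rw [zero_mul, mul_zero]
      exact Submodule.zero_mem _
    | add l l' _ _ hl hl' =>
      rw [add_mul, mul_add]
      exact Submodule.add_mem _ hl hl'
    | smul x l _ hl =>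
      rw [smul_mul_assoc, mul_smul_comm]
      exact Submodule.smul_mem _ _ hl
  have hqL : ∀ u j, q u j ∈ L u := by
    intro u j
    rw [← hspan u]
    exact hq u j
  have hall := lines_kill hF hwf hL hfM hqL hfL hD1 hD2 (fun u => by
    rcases hrule u with ⟨ι, Z, l, h1, h2, h3, h4⟩ | h
    · refine Or.inl ⟨ι, Z, l, h1, h2, h3, fun a h ha hh => ?_⟩
      rw [mul_comm]
      exact hJ w a _ _ (by omega) h4 (Poly_mono K h1 (prod_one_sub_mem Z h2)) hh
    · exact Or.inr h)
  obtain ⟨u, hu⟩ := hlast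
  apply hfJ
  have h1 := hall u
  have h2 : ∏ j, cf (q u j) = 1 := by
    refine prod_eq_one fun j _ => ?_
    have h3 : q u j = 0 := by
      have h4 := hqL u j
      rw [hu, Submodule.mem_bot] at h4
      exact h4
    rw [h3]
    unfold cf
    have hK := one_lt_K (K := K)
    rw [zero_pow (by omega), sub_zero]
  rwa [h2, mul_one] at h1

end Pool.Agent.MP_9cec2c_lc.SizeDeg
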