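import Mathlib

/-!
Characters of `(ZMod q)^n`, functions of few coordinates, and systems of linear equations mod `q`.
-/

set_option autoImplicit false
set_option linter.unusedSectionVars false

namespace Pool.Agent.MP_9cec2c_lc.Sep

open Finset

variable {n q : ℕ} {K : Type} [Field K]

/-- The support of a vector. -/
def supp {ι : Type} [Fintype ι] (a : ι → ZMod q) : Finset ι := univ.filter fun v => a v ≠ 0

/-- The character with exponent vector `a`. -/
def chi (ψ : AddChar (ZMod q) K) (a x : Fin n → ZMod q) : K := ψ (∑ v, a v * x v)

/-- The span of the characters whose exponent vectors satisfy `P`. -/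
def chiSpan (ψ : AddChar (ZMod q) K) (P : (Fin n → ZMod q) → Prop) :
    Submodule K ((Fin n → ZMod q) → K) :=
  Submodule.span K {f | ∃ a, P a ∧ f = chi ψ a}

/-- The functions of degree at most `e`. -/
def Poly (ψ : AddChar (ZMod q) K) (n e : ℕ) : Submodule K ((Fin n → ZMod q) → K) :=
  chiSpan ψ fun a => (supp a).card ≤ e

variable {ι : Type} [Fintype ι] [DecidableEq ι]

/-- The variables that occur in exactly one of the equations in `I`. -/
def bd (Z : ι → Finset (Fin n)) (I : Finset ι) : Finset (Fin n) :=
  (I.biUnion Z).filter fun v => (I.filter fun i => v ∈ Z i).card = 1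

/-- The linear combination of the equations with coefficients `c`. -/
def comb (Z : ι → Finset (Fin n)) (c : ι → ZMod q) (v : Fin n) : ZMod q :=
  ∑ i, if v ∈ Z i then c i else 0

end Pool.Agent.MP_9cec2c_lc.Sep
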