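import Mathlib

/-!
Linear systems mod `q` as CNFs, and semantic refutations.
-/

set_option autoImplicit false
set_option linter.unusedSectionVars false

namespace Pool.Agent.MP_9cec2c_lc.Sep

open Finset

/-- A clause is a set of literals. The literal `(v, true)` says that the variable `v` is true, and
`(v, false)` says that it is false. A clause holds if one of its literals is true. -/
def Holds {V : Type} (C : Finset (V × Bool)) (x : V → Bool) : Prop := ∃ l ∈ C, x l.1 = l.2

/-- The CNF of the system of the equations `∑ v ∈ Z i, y v = b i` mod `q`. The variable `(v, a)`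
says that `y v = a`. Every `y v` has a value, it has only one value, and for each equation and each
assignment that violates it there is the clause that forbids this assignment. -/
def cnf {n m q : ℕ} [NeZero q] (Z : Fin m → Finset (Fin n)) (b : Fin m → ZMod q) :
    Set (Finset ((Fin n × ZMod q) × Bool)) :=
  {C | (∃ v, C = univ.image fun a : ZMod q => ((v, a), true)) ∨
    (∃ v a a', a ≠ a' ∧ C = {((v, a), false), ((v, a'), false)}) ∨
    ∃ i, ∃ y : Fin n → ZMod q, ∑ v ∈ Z i, y v ≠ b i ∧
      C = (Z i).image fun v => ((v, y v), false)}

/-- A semantic refutation of the clauses in `F`. The set `A u` is the set of the assignments for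
which the line `u` holds. Every line follows from a clause of `F` or from at most `b` earlier lines,
and some line never holds. -/
def IsRefutation {V : Type} (F : Set (Finset (V × Bool))) (b : ℕ) {U : Type}
    (earlier : U → U → Prop) (A : U → Set (V → Bool)) : Prop :=
  (∀ u, (∃ C ∈ F, ∀ x, Holds C x → x ∈ A u) ∨
    ∃ s : Finset U, s.card ≤ b ∧ (∀ j ∈ s, earlier j u) ∧ ∀ x, (∀ j ∈ s, x ∈ A j) → x ∈ A u) ∧
  ∃ u, ∀ x, x ∉ A u

/-- The set `A` is given by a disjunction of linear equations over `R`. -/
def IsLin (R : Type) [CommRing R] {V : Type} [Fintype V] (A : Set (V → Bool)) : Prop :=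
  ∃ E : Finset ((V → R) × R), ∀ x, x ∈ A ↔ ∃ e ∈ E, ∑ v, (if x v then e.1 v else 0) = e.2

/-- The functions of degree at most `t` over `K` on the cube: combinations of products of at most
`t` variables. -/
def Deg (K : Type) [Field K] (V : Type) (t : ℕ) : Submodule K ((V → Bool) → K) :=
  Submodule.span K {f | ∃ M : Finset V, M.card ≤ t ∧
    f = fun x => if ∀ v ∈ M, x v = true then 1 else 0}

/-- The term of a set of functions: the indicator function of their common zeros. -/
noncomputable def term {K : Type} [Field K] {V : Type} (G : Set ((V → Bool) → K))
    (x : V → Bool) : K :=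
  open Classical in if ∀ g ∈ G, g x = 0 then 1 else 0

/-- At least `N` terms of functions of degree at most `t` over `K` occur in every refutation of the
clauses in `F` whose lines are equations `Q = 0` for linear combinations `Q` of terms, and where each
line follows from a clause or from at most `b` earlier lines. The number of lines is not
restricted. -/
def NeedsTerms (K : Type) [Field K] (t b N : ℕ) {V : Type} (F : Set (Finset (V × Bool))) : Prop :=
  ∀ (S : ℕ) (G : Fin S → Set ((V → Bool) → K)) (U : Type) (earlier : U → U → Prop)
    (Q : U → (V → Bool) → K), (∀ s, ∀ g ∈ G s, g ∈ Deg K V t) → WellFounded earlier →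
    (∀ u, Q u ∈ Submodule.span K (Set.range fun s => term (G s))) →
    IsRefutation F b earlier (fun u => {x | Q u x = 0}) → N ≤ S

/-- The clauses in `F` have a refutation with `N` lines, each of which is a disjunction of linear
equations over `R` and follows from a clause or from at most `b` earlier lines. -/
def LinRefutes (R : Type) [CommRing R] (b N : ℕ) {V : Type} [Fintype V]
    (F : Set (Finset (V × Bool))) : Prop :=
  ∃ A : Fin N → Set (V → Bool), (∀ i, IsLin R (A i)) ∧ IsRefutation F b (fun i j => i < j) A

/-- The systems of `m` equations mod `q` that have `k` of the `n` variables each, with coefficients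
one: the sets of the variables of the equations, and the right sides. -/
def systems (n m k q : ℕ) [NeZero q] :
    Finset ((Fin m → Finset (Fin n)) × (Fin m → ZMod q)) :=
  (Fintype.piFinset fun _ => powersetCard k univ) ×ˢ univ

end Pool.Agent.MP_9cec2c_lc.Sep
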