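import Pool.Agent.Lib.MP_9cec2c_lc.Mg.G045

/-!
Approximation of a disjunction of functions of small degree by a product, up to a set of points of
small rank, relative to a set of points.
-/

set_option autoImplicit false
set_option linter.unusedSectionVars false

namespace Pool.Agent.MP_9cec2c_lc.ResPoly

open Finset

variable {n : ℕ} (K : Type) [Field K]

theorem rk_mono {E F : Set (Fin n → Bool)} (h : E ⊆ F) (d : ℕ) : rk K E d ≤ rk K F d := by
  have h1 : (Poly K n d).map (cut K E) = ((Poly K n d).map (cut K F)).map (cut K E) := by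
    rw [map_cut_cut, Set.inter_eq_self_of_subset_right h]
  unfold rk
  rw [h1]
  exact Submodule.finrank_map_le _ _

variable [Fintype K]

/-- Combinations of the functions in `G` whose common zeros in `X`, outside the zeros of `G`, have
small rank. -/
theorem exists_cuts_on (X : Set (Fin n → Bool)) {t : ℕ} (e : ℕ) {G : Set ((Fin n → Bool) → K)}
    (hG : ∀ g ∈ G, g ∈ Poly K n t) (k : ℕ) :
    ∃ q : Fin k → (Fin n → Bool) → K, (∀ j, q j ∈ Submodule.span K G) ∧
      (2 * ((e + 1) ^ t + n ^ t)) ^ k *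
          rk K (X ∩ {x | (∃ g ∈ G, g x ≠ 0) ∧ ∀ j, q j x = 0}) (e + 2 * t) ≤
        ((e + 1) ^ t + 2 * n ^ t) ^ k * rk K X (e + 2 * t) := by
  induction k with
  | zero =>
    refine ⟨fun j => j.elim0, fun j => j.elim0, ?_⟩
    rw [pow_zero, pow_zero, one_mul, one_mul]
    exact rk_mono K Set.inter_subset_left _
  | succ k ih =>
    obtain ⟨q, hq, hrk⟩ := ih
    obtain ⟨E, hE⟩ : ∃ E : Set (Fin n → Bool),
      E = X ∩ {x | (∃ g ∈ G, g x ≠ 0) ∧ ∀ j, q j x = 0} := ⟨_, rfl⟩
    rw [← hE] at hrk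
    obtain ⟨p, hp, hp2⟩ := exists_half K E (e + t) G fun x hx => by
      rw [hE] at hx
      exact hx.2.1
    refine ⟨Fin.snoc q p, fun j => ?_, ?_⟩
    · refine Fin.lastCases ?_ (fun j => ?_) j
      · rw [Fin.snoc_last]
        exact hp
      · rw [Fin.snoc_castSucc]
        exact hq j
    · have h1 : X ∩ {x | (∃ g ∈ G, g x ≠ 0) ∧
          ∀ j, (Fin.snoc q p : Fin (k + 1) → _) j x = 0} = E ∩ {x | p x = 0} := by
        rw [hE]
        ext x
        constructor
        · rintro ⟨hX, h2, h3⟩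
          refine ⟨⟨hX, h2, fun j => ?_⟩, ?_⟩
          · have := h3 j.castSucc
            rwa [Fin.snoc_castSucc] at this
          · have := h3 (Fin.last k)
            rwa [Fin.snoc_last] at this
        · rintro ⟨⟨hX, h2, h3⟩, h4⟩
          refine ⟨hX, h2, fun j => ?_⟩
          refine Fin.lastCases ?_ (fun j => ?_) j
          · rw [Fin.snoc_last]
            exact h4
          · rw [Fin.snoc_castSucc]
            exact h3 j
      rw [h1]
      have h2 := rk_split K E (e + t) (span_le_Poly K hG hp)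
      have h3 := rk_ratio K E e t
      have h4 : e + t + t = e + 2 * t := by ring
      rw [h4] at h2
      have h5 : 2 * ((e + 1) ^ t + n ^ t) * rk K (E ∩ {x | p x = 0}) (e + 2 * t) ≤
          ((e + 1) ^ t + 2 * n ^ t) * rk K E (e + 2 * t) := by
        obtain ⟨a, ha⟩ : ∃ a, a = (e + 1) ^ t := ⟨_, rfl⟩
        obtain ⟨b, hb⟩ : ∃ b, b = n ^ t := ⟨_, rfl⟩
        rw [← ha, ← hb] at h3 ⊢
        obtain ⟨r0, hr0⟩ : ∃ r0, r0 = rk K (E ∩ {x | p x = 0}) (e + 2 * t) := ⟨_, rfl⟩
        obtain ⟨r1, hr1⟩ : ∃ r1, r1 = rk K (E ∩ {x | p x ≠ 0}) (e + t) := ⟨_, rfl⟩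
        obtain ⟨r, hr⟩ : ∃ r, r = rk K E (e + 2 * t) := ⟨_, rfl⟩
        obtain ⟨s, hs⟩ : ∃ s, s = rk K E (e + t) := ⟨_, rfl⟩
        rw [← hr0, ← hr1, ← hr] at h2
        rw [← hr, ← hs] at h3
        rw [← hs, ← hr1] at hp2
        rw [← hr0, ← hr]
        have h6 : (a + b) * s ≤ (a + b) * (2 * r1) := Nat.mul_le_mul_left _ hp2
        have h7 : (a + b) * (r0 + r1) ≤ (a + b) * r := Nat.mul_le_mul_left _ h2
        nlinarith
      calc (2 * ((e + 1) ^ t + n ^ t)) ^ (k + 1) * rk K (E ∩ {x | p x = 0}) (e + 2 * t)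
          = (2 * ((e + 1) ^ t + n ^ t)) ^ k *
            (2 * ((e + 1) ^ t + n ^ t) * rk K (E ∩ {x | p x = 0}) (e + 2 * t)) := by ring
        _ ≤ (2 * ((e + 1) ^ t + n ^ t)) ^ k *
            (((e + 1) ^ t + 2 * n ^ t) * rk K E (e + 2 * t)) := Nat.mul_le_mul_left _ h5
        _ = ((e + 1) ^ t + 2 * n ^ t) *
            ((2 * ((e + 1) ^ t + n ^ t)) ^ k * rk K E (e + 2 * t)) := by ring
        _ ≤ ((e + 1) ^ t + 2 * n ^ t) * (((e + 1) ^ t + 2 * n ^ t) ^ k *
            rk K X (e + 2 * t)) := Nat.mul_le_mul_left _ hrk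
        _ = ((e + 1) ^ t + 2 * n ^ t) ^ (k + 1) * rk K X (e + 2 * t) := by ring

/-- The approximation of a disjunction of functions of degree at most `t`. -/
theorem exists_approx_on (X : Set (Fin n → Bool)) {t : ℕ} (e : ℕ)
    {G : Set ((Fin n → Bool) → K)} (hG : ∀ g ∈ G, g ∈ Poly K n t) (k : ℕ) :
    ∃ N ∈ Poly K n (k * ((Fintype.card K - 1) * t)),
      (∀ x, N x = 0 ∨ N x = 1) ∧ (∀ x, (∀ g ∈ G, g x = 0) → N x = 1) ∧
      (2 * ((e + 1) ^ t + n ^ t)) ^ k *
          rk K (X ∩ {x | (∃ g ∈ G, g x ≠ 0) ∧ N x ≠ 0}) (e + 2 * t) ≤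
        ((e + 1) ^ t + 2 * n ^ t) ^ k * rk K X (e + 2 * t) := by
  classical
  obtain ⟨q, hq, hrk⟩ := exists_cuts_on K X e hG k
  have h1 : ∀ x, (∏ j : Fin k, (1 - q j ^ (Fintype.card K - 1))) x =
      if ∀ j, q j x = 0 then 1 else 0 := by
    intro x
    rw [Finset.prod_apply]
    have hcard : Fintype.card K - 1 ≠ 0 := by
      have := Fintype.one_lt_card (α := K)
      omega
    split_ifs with h
    · refine prod_eq_one fun j _ => ?_
      rw [Pi.sub_apply, Pi.pow_apply, Pi.one_apply, h j, zero_pow hcard, sub_zero]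
    · push Not at h
      obtain ⟨j, hj⟩ := h
      refine prod_eq_zero (mem_univ j) ?_
      rw [Pi.sub_apply, Pi.pow_apply, Pi.one_apply, FiniteField.pow_card_sub_one_eq_one _ hj,
        sub_self]
  refine ⟨∏ j : Fin k, (1 - q j ^ (Fintype.card K - 1)), ?_, ?_, ?_, ?_⟩
  · have h2 := Poly_prod K (univ : Finset (Fin k)) (t := (Fintype.card K - 1) * t)
      (q := fun j => 1 - q j ^ (Fintype.card K - 1)) fun j _ =>
        Submodule.sub_mem _ (Poly_one K _) (Poly_pow K (span_le_Poly K hG (hq j)) _)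
    rwa [card_univ, Fintype.card_fin] at h2
  · intro x
    rw [h1]
    split_ifs
    · exact Or.inr rfl
    · exact Or.inl rfl
  · intro x hx
    rw [h1, if_pos]
    intro j
    have h3 : ∀ p ∈ Submodule.span K G, p x = 0 := by
      intro p hp
      induction hp using Submodule.span_induction with
      | mem g hg => exact hx g hg
      | zero => rfl
      | add f g _ _ hf hg => rw [Pi.add_apply, hf, hg, add_zero]
      | smul c f _ hf => rw [Pi.smul_apply, hf, smul_zero]
    exact h3 _ (hq j)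
  · have h4 : {x | (∃ g ∈ G, g x ≠ 0) ∧ (∏ j : Fin k, (1 - q j ^ (Fintype.card K - 1))) x ≠ 0} =
        {x | (∃ g ∈ G, g x ≠ 0) ∧ ∀ j, q j x = 0} := by
      ext x
      constructor
      · rintro ⟨h5, h6⟩
        refine ⟨h5, ?_⟩
        rw [h1] at h6
        by_contra hcon
        exact h6 (if_neg hcon)
      · rintro ⟨h5, h6⟩
        refine ⟨h5, ?_⟩
        rw [h1, if_pos h6]
        exact one_ne_zero
    rw [h4]
    exact hrk

end Pool.Agent.MP_9cec2c_lc.ResPoly
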