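import Pool.Agent.Lib.MP_9cec2c_lc.SEOp
import Pool.Agent.Lib.MP_9cec2c_lc.SERank

/-!
The points of `(ZMod q)^n` as one-hot points of a Boolean cube.
-/

set_option autoImplicit false
set_option linter.unusedSectionVars false

namespace Pool.Agent.MP_9cec2c_lc.Sep

open Finset
open ResPoly (mon rk cut)

variable {n q : ℕ} [NeZero q] {K : Type} [Field K]

/-! ### Counting vectors by their supports -/

theorem card_supp_eq (T : Finset (Fin n)) :
    (univ.filter fun a : Fin n → ZMod q => supp a = T).card = (q - 1) ^ T.card := by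
  classical
  have h : (univ.filter fun a : Fin n → ZMod q => supp a = T) =
      Fintype.piFinset fun v => if v ∈ T then (univ : Finset (ZMod q)).erase 0 else {0} := by
    ext a
    rw [mem_filter, Fintype.mem_piFinset]
    constructor
    · rintro ⟨-, rfl⟩ v
      split_ifs with h
      · exact mem_erase.2 ⟨mem_supp.1 h, mem_univ _⟩
      · rw [mem_singleton]
        by_contra hne
        exact h (mem_supp.2 hne)
    · intro h
      refine ⟨mem_univ _, ?_⟩
      ext v
      have hv := h v
      rw [mem_supp]
      split_ifs at hv with h1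
      · exact ⟨fun _ => h1, fun _ => (mem_erase.1 hv).1⟩
      · rw [mem_singleton] at hv
        exact ⟨fun h2 => absurd hv h2, fun h2 => absurd h2 h1⟩
  rw [h, Fintype.card_piFinset]
  have h1 : ∀ v, (if v ∈ T then (univ : Finset (ZMod q)).erase 0 else {0}).card =
      if v ∈ T then q - 1 else 1 := by
    intro v
    split_ifs
    · rw [card_erase_of_mem (mem_univ _), card_univ, ZMod.card]
    · exact card_singleton _
  rw [prod_congr rfl fun v _ => h1 v, prod_ite, prod_const_one, mul_one, prod_const]
  congr 2
  ext v
  rw [mem_filter]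
  exact and_iff_right (mem_univ v)

theorem card_supp_mem (A : Finset (Finset (Fin n))) {d : ℕ} (hA : ∀ T ∈ A, T.card = d) :
    (univ.filter fun a : Fin n → ZMod q => supp a ∈ A).card = A.card * (q - 1) ^ d := by
  classical
  rw [card_eq_sum_card_fiberwise (f := fun a : Fin n → ZMod q => supp a) (t := A)]
  · rw [← smul_eq_mul, ← sum_const]
    refine sum_congr rfl fun T hT => ?_
    rw [← hA T hT, ← card_supp_eq (q := q) T]
    congr 1
    ext a
    rw [mem_filter, mem_filter, mem_filter]
    constructor
    · rintro ⟨-, h⟩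
      exact ⟨mem_univ _, h⟩
    · rintro ⟨-, h⟩
      exact ⟨⟨mem_univ _, h ▸ hT⟩, h⟩
  · intro a ha
    exact mem_coe.2 (mem_filter.1 (mem_coe.1 ha)).2

theorem card_supp_le (hq : 2 ≤ q) (n d : ℕ) :
    (univ.filter fun a : Fin n → ZMod q => (supp a).card ≤ d).card ≤
      (q - 1) ^ d * ∑ i ∈ range (d + 1), n.choose i := by
  classical
  rw [card_eq_sum_card_fiberwise (f := fun a : Fin n → ZMod q => (supp a).card)
    (t := range (d + 1)), mul_sum]
  · refine sum_le_sum fun i hi => ?_
    have hi' : i ≤ d := Nat.lt_succ_iff.1 (mem_range.1 hi)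
    have h1 := card_supp_mem (q := q) (powersetCard i (univ : Finset (Fin n))) (d := i)
      fun T hT => (mem_powersetCard.1 hT).2
    rw [card_powersetCard, card_univ, Fintype.card_fin] at h1
    have h2 : ((univ.filter fun a : Fin n → ZMod q => (supp a).card ≤ d).filter
        fun a => (supp a).card = i) ⊆ univ.filter fun a : Fin n → ZMod q =>
          supp a ∈ powersetCard i (univ : Finset (Fin n)) := by
      intro a ha
      exact mem_filter.2 ⟨mem_univ _, mem_powersetCard.2 ⟨subset_univ _, (mem_filter.1 ha).2⟩⟩
    refine (card_le_card h2).trans ?_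
    rw [h1, mul_comm]
    exact Nat.mul_le_mul_right _ (Nat.pow_le_pow_right (by omega) hi')
  · intro a ha
    exact mem_coe.2 (mem_range.2 (Nat.lt_succ_of_le (mem_filter.1 (mem_coe.1 ha)).2))

/-! ### One-hot points -/

/-- The variable of the cube that says that the coordinate `v` has the value `a`. -/
def idx (n q : ℕ) [NeZero q] : Fin n × ZMod q ≃ Fin (n * q) :=
  ((Equiv.refl (Fin n)).prodCongr (ZMod.finEquiv q).toEquiv.symm).trans finProdFinEquiv

/-- The one-hot point of a vector. -/
def hot (x : Fin n → ZMod q) (i : Fin (n * q)) : Bool :=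
  decide (x ((idx n q).symm i).1 = ((idx n q).symm i).2)

theorem hot_idx (x : Fin n → ZMod q) (v : Fin n) (a : ZMod q) :
    hot x (idx n q (v, a)) = decide (x v = a) := by
  unfold hot
  rw [Equiv.symm_apply_apply]

theorem hot_inj : Function.Injective (hot : (Fin n → ZMod q) → Fin (n * q) → Bool) := by
  intro x y h
  funext v
  have h1 := congrFun h (idx n q (v, x v))
  rw [hot_idx, hot_idx, decide_eq_true rfl] at h1
  exact (of_decide_eq_true h1.symm).symm

/-- Restriction of functions to the one-hot points. -/
def res (K : Type) [Field K] (n q : ℕ) [NeZero q] :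
    ((Fin (n * q) → Bool) → K) →ₗ[K] ((Fin n → ZMod q) → K) :=
  LinearMap.funLeft K K hot

theorem res_apply (f : (Fin (n * q) → Bool) → K) (x : Fin n → ZMod q) :
    res K n q f x = f (hot x) := rfl

theorem res_mul (f g : (Fin (n * q) → Bool) → K) :
    res K n q (f * g) = res K n q f * res K n q g := rfl

theorem mem_Poly_of_dep {ψ : AddChar (ZMod q) K} (hψ : Function.Injective ψ)
    {S : Finset (Fin n)} {e : ℕ} (hS : S.card ≤ e) {f : (Fin n → ZMod q) → K}
    (hf : ∀ x y : Fin n → ZMod q, (∀ v ∈ S, x v = y v) → f x = f y) : f ∈ Poly ψ n e :=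
  chiSpan_mono (fun _ ha => (card_le_card ha).trans hS) (mem_chiSpan_of_dep hψ hf)

theorem res_mem {ψ : AddChar (ZMod q) K} (hψ : Function.Injective ψ) {e : ℕ}
    {p : (Fin (n * q) → Bool) → K} (hp : p ∈ ResPoly.Poly K (n * q) e) :
    res K n q p ∈ Poly ψ n e := by
  classical
  unfold ResPoly.Poly at hp
  induction hp using Submodule.span_induction with
  | mem f hf =>
    obtain ⟨M, hM, rfl⟩ := hf
    refine mem_Poly_of_dep hψ (S := M.image fun i => ((idx n q).symm i).1)
      (card_image_le.trans hM) fun x y hxy => ?_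
    rw [res_apply, res_apply]
    unfold mon
    congr 1
    apply propext
    have h : ∀ i ∈ M, hot x i = hot y i := by
      intro i hi
      unfold hot
      rw [hxy _ (mem_image_of_mem _ hi)]
    constructor
    · intro h1 i hi
      rw [← h i hi]
      exact h1 i hi
    · intro h1 i hi
      rw [h i hi]
      exact h1 i hi
  | zero =>
    rw [map_zero]
    exact Submodule.zero_mem _
  | add f g _ _ hf hg =>
    rw [map_add]
    exact Submodule.add_mem _ hf hg
  | smul c f _ hf =>
    rw [map_smul]
    exact Submodule.smul_mem _ _ hf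

/-- A function of small degree on the cube that is the character `a` on the one-hot points. -/
noncomputable def lift (ψ : AddChar (ZMod q) K) (a : Fin n → ZMod q) :
    (Fin (n * q) → Bool) → K :=
  ∏ v ∈ supp a, ∑ α : ZMod q, ψ (a v * α) • mon K {idx n q (v, α)}

theorem res_lift (ψ : AddChar (ZMod q) K) (a : Fin n → ZMod q) :
    res K n q (lift ψ a) = chi ψ a := by
  classical
  funext x
  rw [res_apply]
  unfold lift chi
  rw [Finset.prod_apply]
  have h1 : ∀ v, (∑ α : ZMod q, ψ (a v * α) • mon K {idx n q (v, α)}) (hot x) =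
      ψ (a v * x v) := by
    intro v
    rw [Finset.sum_apply, sum_eq_single (x v)]
    · rw [Pi.smul_apply]
      unfold mon
      rw [if_pos, smul_eq_mul, mul_one]
      intro i hi
      rw [mem_singleton.1 hi, hot_idx]
      exact decide_eq_true rfl
    · intro α _ hα
      rw [Pi.smul_apply]
      unfold mon
      rw [if_neg, smul_zero]
      intro h
      have h2 := h _ (mem_singleton_self _)
      rw [hot_idx] at h2
      exact hα (of_decide_eq_true h2).symm
    · intro h
      exact absurd (mem_univ _) h
  have h2 : ∀ s : Finset (Fin n), ∏ v ∈ s, ψ (a v * x v) = ψ (∑ v ∈ s, a v * x v) := by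
    intro s
    induction s using Finset.induction_on with
    | empty => rw [prod_empty, sum_empty, AddChar.map_zero_eq_one]
    | insert v s hv ih => rw [prod_insert hv, sum_insert hv, AddChar.map_add_eq_mul, ih]
  rw [prod_congr rfl fun v _ => h1 v, h2]
  congr 1
  refine (sum_subset (subset_univ _) fun v _ hv => ?_)
  rw [mem_supp, not_not] at hv
  rw [hv, zero_mul]

theorem lift_mem [Fintype K] (ψ : AddChar (ZMod q) K) (a : Fin n → ZMod q) :
    lift ψ a ∈ ResPoly.Poly K (n * q) (supp a).card := by
  unfold lift
  have h := ResPoly.Poly_prod K (supp a) (t := 1)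
    (q := fun v => ∑ α : ZMod q, ψ (a v * α) • mon K {idx n q (v, α)}) fun v _ => by
      refine Submodule.sum_mem _ fun α _ => Submodule.smul_mem _ _ ?_
      exact ResPoly.mon_mem_Poly K (by rw [card_singleton])
  rwa [mul_one] at h

/-- The span of the lifts of the characters with `P`. -/
noncomputable def liftSpan (ψ : AddChar (ZMod q) K) (P : (Fin n → ZMod q) → Prop) :
    Submodule K ((Fin (n * q) → Bool) → K) :=
  Submodule.span K (Set.range fun a : {a // P a} => lift ψ a.1)

theorem lift_linInd {ψ : AddChar (ZMod q) K} (hψ : Function.Injective ψ) :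
    LinearIndependent K (lift ψ : (Fin n → ZMod q) → (Fin (n * q) → Bool) → K) := by
  refine LinearIndependent.of_comp (res K n q) ?_
  have h : (res K n q : _ → _) ∘ (lift ψ : (Fin n → ZMod q) → _) = chi ψ := by
    funext a
    exact res_lift ψ a
  rw [h]
  exact chi_linInd hψ

open Classical in
theorem finrank_liftSpan {ψ : AddChar (ZMod q) K} (hψ : Function.Injective ψ)
    (P : (Fin n → ZMod q) → Prop) :
    Module.finrank K (liftSpan ψ P) = (univ.filter P).card := by
  unfold liftSpan
  have h : LinearIndependent K fun a : {a // P a} => lift ψ a.1 :=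
    (lift_linInd hψ).comp (fun a : {a // P a} => a.1) Subtype.val_injective
  rw [finrank_span_eq_card h, Fintype.card_subtype]

theorem liftSpan_le [Fintype K] (ψ : AddChar (ZMod q) K) {P : (Fin n → ZMod q) → Prop} {d : ℕ}
    (hP : ∀ a, P a → (supp a).card ≤ d) : liftSpan ψ P ≤ ResPoly.Poly K (n * q) d := by
  unfold liftSpan
  rw [Submodule.span_le]
  rintro f ⟨⟨a, ha⟩, rfl⟩
  exact ResPoly.Poly_mono K (hP a ha) (lift_mem ψ a)

theorem res_liftSpan {ψ : AddChar (ZMod q) K} {P : (Fin n → ZMod q) → Prop}
    {f : (Fin (n * q) → Bool) → K} (hf : f ∈ liftSpan ψ P) : res K n q f ∈ chiSpan ψ P := by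
  unfold liftSpan at hf
  induction hf using Submodule.span_induction with
  | mem f hf =>
    obtain ⟨⟨a, ha⟩, rfl⟩ := hf
    exact Submodule.subset_span ⟨a, ha, res_lift ψ a⟩
  | zero =>
    rw [map_zero]
    exact Submodule.zero_mem _
  | add f g _ _ hf hg =>
    rw [map_add]
    exact Submodule.add_mem _ hf hg
  | smul c f _ hf =>
    rw [map_smul]
    exact Submodule.smul_mem _ _ hf

theorem liftSpan_res_inj {ψ : AddChar (ZMod q) K} (hψ : Function.Injective ψ)
    {P : (Fin n → ZMod q) → Prop} {f : (Fin (n * q) → Bool) → K} (hf : f ∈ liftSpan ψ P)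
    (h0 : res K n q f = 0) : f = 0 := by
  have hf' : f ∈ Submodule.span K (Set.range (lift ψ : (Fin n → ZMod q) → _)) := by
    refine Submodule.span_mono ?_ hf
    rintro g ⟨a, rfl⟩
    exact ⟨a.1, rfl⟩
  have h1 : LinearIndependent K ((res K n q : _ → _) ∘ (lift ψ : (Fin n → ZMod q) → _)) := by
    have h : (res K n q : _ → _) ∘ (lift ψ : (Fin n → ZMod q) → _) = chi ψ := by
      funext a
      exact res_lift ψ a
    rw [h]
    exact chi_linInd hψ
  have h2 := Submodule.range_ker_disjoint h1
  exact Submodule.disjoint_def.1 h2 f hf' (LinearMap.mem_ker.2 h0)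

/-- The rank of the one-hot points. -/
theorem rk_hot {ψ : AddChar (ZMod q) K} (hψ : Function.Injective ψ) (hq : 2 ≤ q) (d : ℕ) :
    rk K (Set.range (hot : (Fin n → ZMod q) → Fin (n * q) → Bool)) d ≤
      (q - 1) ^ d * ∑ i ∈ range (d + 1), n.choose i := by
  classical
  let Λ : ((Fin n → ZMod q) → K) →ₗ[K] ((Fin (n * q) → Bool) → K) :=
    { toFun := fun h y => if hy : ∃ x, hot x = y then h hy.choose else 0
      map_add' := by
        intro f g
        funext y
        show (if hy : ∃ x, hot x = y then (f + g) hy.choose else 0) =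
          (if hy : ∃ x, hot x = y then f hy.choose else 0) +
          (if hy : ∃ x, hot x = y then g hy.choose else 0)
        split_ifs
        · rfl
        · rw [add_zero]
      map_smul' := by
        intro c f
        funext y
        show (if hy : ∃ x, hot x = y then (c • f) hy.choose else 0) =
          c • (if hy : ∃ x, hot x = y then f hy.choose else 0)
        split_ifs
        · rfl
        · rw [smul_zero] }
  have h1 : (ResPoly.Poly K (n * q) d).map (cut K (Set.range (hot : (Fin n → ZMod q) → _))) =
      ((ResPoly.Poly K (n * q) d).map (res K n q)).map Λ := by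
    rw [← Submodule.map_comp]
    congr 1
    refine LinearMap.ext fun f => funext fun y => ?_
    rw [LinearMap.comp_apply]
    show cut K _ f y = if hy : ∃ x, hot x = y then res K n q f hy.choose else 0
    split_ifs with hy
    · rw [ResPoly.cut_of_mem K hy, res_apply, hy.choose_spec]
    · rw [ResPoly.cut_of_notMem K hy]
  have h2 : (ResPoly.Poly K (n * q) d).map (res K n q) ≤ Poly ψ n d := by
    rw [Submodule.map_le_iff_le_comap]
    intro p hp
    exact res_mem hψ hp
  have h3 : Module.finrank K (Poly ψ n d) ≤
      (univ.filter fun a : Fin n → ZMod q => (supp a).card ≤ d).card := by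
    have h4 : Poly ψ n d = Submodule.span K
        (((univ.filter fun a : Fin n → ZMod q => (supp a).card ≤ d).image (chi ψ) :
          Finset ((Fin n → ZMod q) → K)) : Set ((Fin n → ZMod q) → K)) := by
      unfold Poly chiSpan
      congr 1
      ext f
      rw [mem_coe, mem_image]
      constructor
      · rintro ⟨a, ha, rfl⟩
        exact ⟨a, mem_filter.2 ⟨mem_univ _, ha⟩, rfl⟩
      · rintro ⟨a, ha, rfl⟩
        exact ⟨a, (mem_filter.1 ha).2, rfl⟩
    rw [h4]
    exact (finrank_span_finset_le_card _).trans card_image_le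
  unfold rk
  rw [h1]
  refine (Submodule.finrank_map_le _ _).trans ((Submodule.finrank_mono h2).trans
    (h3.trans (card_supp_le hq n d)))

end Pool.Agent.MP_9cec2c_lc.Sep
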