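import Pool.Agent.Lib.MP_9cec2c_lc.SEBase

/-!
Almost all sparse systems of linear equations mod `q` expand and have no solution.
-/

set_option autoImplicit false
set_option linter.unusedSectionVars false

namespace Pool.Agent.MP_9cec2c_lc.Sep

open Finset

/-! ### Expansion from large unions -/

section expand

variable {n : ℕ} {ι : Type} [Fintype ι] [DecidableEq ι]

theorem two_un_le (Z : ι → Finset (Fin n)) {k : ℕ} (hZ : ∀ i, (Z i).card = k) (I : Finset ι) :
    2 * (I.biUnion Z).card ≤ (bd Z I).card + k * I.card := by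
  classical
  have h1 : ∑ v ∈ I.biUnion Z, (I.filter fun i => v ∈ Z i).card = k * I.card := by
    have h2 : ∑ v ∈ I.biUnion Z, (I.filter fun i => v ∈ Z i).card =
        ∑ i ∈ I, ((I.biUnion Z).filter fun v => v ∈ Z i).card := by
      simp_rw [card_filter]
      exact sum_comm
    rw [h2, mul_comm, ← smul_eq_mul, ← sum_const]
    refine sum_congr rfl fun i hi => ?_
    rw [← hZ i]
    congr 1
    ext v
    rw [mem_filter]
    exact ⟨fun h => h.2, fun h => ⟨mem_biUnion.2 ⟨i, hi, h⟩, h⟩⟩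
  have h3 : ∀ v ∈ I.biUnion Z, 2 ≤ (I.filter fun i => v ∈ Z i).card +
      if (I.filter fun i => v ∈ Z i).card = 1 then 1 else 0 := by
    intro v hv
    obtain ⟨i, hi, hvi⟩ := mem_biUnion.1 hv
    have h4 : 0 < (I.filter fun i => v ∈ Z i).card := card_pos.2 ⟨i, mem_filter.2 ⟨hi, hvi⟩⟩
    split_ifs with h5
    · omega
    · omega
  have h6 := sum_le_sum h3
  rw [sum_const, smul_eq_mul, sum_add_distrib, h1, ← card_filter] at h6
  unfold bd
  omega

end expand

/-! ### Counting systems -/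

/-- The hypergraphs with `m` edges of size `k`. -/
def hyp (n m k : ℕ) : Finset (Fin m → Finset (Fin n)) :=
  Fintype.piFinset fun _ => powersetCard k univ

theorem card_hyp (n m k : ℕ) : (hyp n m k).card = (n.choose k) ^ m := by
  unfold hyp
  rw [Fintype.card_piFinset, prod_const, card_univ, Fintype.card_fin, card_powersetCard,
    card_univ, Fintype.card_fin]

theorem mem_hyp {n m k : ℕ} {Z : Fin m → Finset (Fin n)} :
    Z ∈ hyp n m k ↔ ∀ i, (Z i).card = k := by
  unfold hyp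
  rw [Fintype.mem_piFinset]
  refine forall_congr' fun i => ?_
  rw [mem_powersetCard]
  exact and_iff_right (subset_univ _)

theorem choose_mul_pow (w n k : ℕ) (hw : w ≤ n) : w.choose k * n ^ k ≤ n.choose k * w ^ k := by
  have h1 : w.descFactorial k * n ^ k ≤ n.descFactorial k * w ^ k := by
    induction k with
    | zero => rw [pow_zero, pow_zero, Nat.descFactorial_zero, Nat.descFactorial_zero]
    | succ k ih =>
      rw [Nat.descFactorial_succ, Nat.descFactorial_succ]
      have h2 : (w - k) * n ≤ (n - k) * w := by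
        rcases Nat.lt_or_ge w k with h | h
        · rw [Nat.sub_eq_zero_of_le h.le, zero_mul]
          exact Nat.zero_le _
        · obtain ⟨a, rfl⟩ := Nat.exists_eq_add_of_le h
          obtain ⟨b, rfl⟩ := Nat.exists_eq_add_of_le hw
          have h3 : k + a + b - k = a + b := by omega
          rw [Nat.add_sub_cancel_left, h3]
          nlinarith [Nat.zero_le (k * b)]
      calc (w - k) * w.descFactorial k * n ^ (k + 1)
          = (w.descFactorial k * n ^ k) * ((w - k) * n) := by ring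
        _ ≤ (n.descFactorial k * w ^ k) * ((n - k) * w) := Nat.mul_le_mul ih h2
        _ = (n - k) * n.descFactorial k * w ^ (k + 1) := by ring
  rw [Nat.descFactorial_eq_factorial_mul_choose, Nat.descFactorial_eq_factorial_mul_choose,
    mul_assoc, mul_assoc] at h1
  exact Nat.le_of_mul_le_mul_left h1 (Nat.factorial_pos k)

theorem card_inside {n m k : ℕ} (I : Finset (Fin m)) (W : Finset (Fin n)) :
    ((hyp n m k).filter fun Z => ∀ i ∈ I, Z i ⊆ W).card * n ^ (k * I.card) ≤
      (n.choose k) ^ m * W.card ^ (k * I.card) := by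
  classical
  have h1 : ((hyp n m k).filter fun Z => ∀ i ∈ I, Z i ⊆ W) =
      Fintype.piFinset fun i => if i ∈ I then powersetCard k W else powersetCard k univ := by
    ext Z
    rw [mem_filter, mem_hyp, Fintype.mem_piFinset]
    constructor
    · rintro ⟨h, h'⟩ i
      split_ifs with hi
      · exact mem_powersetCard.2 ⟨h' i hi, h i⟩
      · exact mem_powersetCard.2 ⟨subset_univ _, h i⟩
    · intro h
      constructor
      · intro i
        have := h i
        split_ifs at this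
        · exact (mem_powersetCard.1 this).2
        · exact (mem_powersetCard.1 this).2
      · intro i hi
        have := h i
        rw [if_pos hi] at this
        exact (mem_powersetCard.1 this).1
  have h2 : ∀ i, (if i ∈ I then powersetCard k W else powersetCard k (univ : Finset (Fin n))).card
      = if i ∈ I then W.card.choose k else n.choose k := by
    intro i
    split_ifs
    · exact card_powersetCard _ _
    · rw [card_powersetCard, card_univ, Fintype.card_fin]
  have hI : I.card ≤ m := by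
    have := card_le_univ I
    rwa [Fintype.card_fin] at this
  rw [h1, Fintype.card_piFinset, prod_congr rfl fun i _ => h2 i, prod_ite, prod_const, prod_const]
  have h3 : (univ.filter fun i => i ∈ I) = I := by
    ext i
    rw [mem_filter]
    exact and_iff_right (mem_univ i)
  have h4 : (univ.filter fun i => ¬ i ∈ I).card = m - I.card := by
    have h5 := card_filter_add_card_filter_not (s := (univ : Finset (Fin m))) (fun i => i ∈ I)
    rw [h3, card_univ, Fintype.card_fin] at h5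
    omega
  rw [h3, h4]
  have hW : W.card ≤ n := by
    have := card_le_univ W
    rwa [Fintype.card_fin] at this
  have h5 := Nat.pow_le_pow_left (choose_mul_pow W.card n k hW) I.card
  rw [mul_pow, mul_pow, ← pow_mul, ← pow_mul] at h5
  calc (W.card.choose k) ^ I.card * (n.choose k) ^ (m - I.card) * n ^ (k * I.card)
      = ((W.card.choose k) ^ I.card * n ^ (k * I.card)) * (n.choose k) ^ (m - I.card) := by ring
    _ ≤ ((n.choose k) ^ I.card * W.card ^ (k * I.card)) * (n.choose k) ^ (m - I.card) :=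
        Nat.mul_le_mul_right _ h5
    _ = ((n.choose k) ^ I.card * (n.choose k) ^ (m - I.card)) * W.card ^ (k * I.card) := by ring
    _ = (n.choose k) ^ m * W.card ^ (k * I.card) := by
        rw [← pow_add, Nat.add_sub_cancel' hI]

theorem choose_le_three {n k : ℕ} (hk : 0 < k) : (n.choose k : ℝ) ≤ (3 * n / k : ℝ) ^ k := by
  have hk' : (0 : ℝ) < k := by exact_mod_cast hk
  have h1 : (n.choose k : ℝ) ≤ (n : ℝ) ^ k / k.factorial := Nat.choose_le_pow_div k n
  have h2 : (k : ℝ) ^ k / k.factorial ≤ 3 ^ k := by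
    refine (Real.pow_div_factorial_le_exp (k : ℝ) hk'.le k).trans ?_
    have h3 : Real.exp (k : ℝ) = Real.exp 1 ^ k := by
      rw [← Real.exp_nat_mul, mul_one]
    rw [h3]
    refine pow_le_pow_left₀ (Real.exp_pos 1).le ?_ _
    have := Real.exp_one_lt_d9
    linarith
  refine h1.trans ?_
  have hf : (0 : ℝ) < k.factorial := by exact_mod_cast Nat.factorial_pos k
  rw [div_pow, mul_pow, div_le_div_iff₀ hf (by positivity)]
  rw [div_le_iff₀ hf] at h2
  have h4 : (0 : ℝ) ≤ (n : ℝ) ^ k := by positivity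
  nlinarith

/-- The numerical estimate for the union bound. -/
theorem union_term {n m c k j w : ℕ} (hc : 1 ≤ c) (hk : 5 ≤ k) (hm : m ≤ c * n) (hj : 1 ≤ j)
    (hw : w = (2 * k - 3) * j / 2) (hA : 16 * (3 ^ (k + 1) * c * k) ^ 2 * k * j ≤ n) :
    (n : ℝ) * ((m.choose j : ℝ) * (n.choose w : ℝ) * ((w : ℝ) / n) ^ (k * j)) ≤
      (16 * (3 ^ (k + 1) * c * k) ^ 2 * k : ℕ) * (1 / 2 : ℝ) ^ j := by
  obtain ⟨B, hB⟩ : ∃ B : ℕ, B = 3 ^ (k + 1) * c * k := ⟨_, rfl⟩
  rw [← hB] at hA ⊢
  have hB1 : 1 ≤ B := by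
    rw [hB]
    exact Nat.mul_pos (Nat.mul_pos (pow_pos (by norm_num) _) (by omega)) (by omega)
  have hw1 : 1 ≤ w := by
    rw [hw]
    have : 2 ≤ (2 * k - 3) * j := by
      calc 2 ≤ 7 * 1 := by norm_num
        _ ≤ (2 * k - 3) * j := Nat.mul_le_mul (by omega) hj
    omega
  obtain ⟨h, hh⟩ : ∃ h, h = (j + 1) / 2 := ⟨_, rfl⟩
  have hwk : w + j + h ≤ k * j := by
    have h1 : 2 * w ≤ (2 * k - 3) * j := by omega
    have h2 : (2 * k - 3) * j + 3 * j = 2 * (k * j) := by
      rw [← add_mul, ← mul_assoc]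
      congr 1
      omega
    omega
  obtain ⟨r, hr⟩ : ∃ r, k * j = w + (j + h + r) := ⟨k * j - w - j - h, by omega⟩
  have hkjn : k * j ≤ n := by
    refine le_trans ?_ hA
    calc k * j = 1 * k * j := by ring
      _ ≤ 16 * B ^ 2 * k * j := by
          refine Nat.mul_le_mul_right _ (Nat.mul_le_mul_right _ ?_)
          have : 1 ≤ B ^ 2 := Nat.one_le_pow _ _ hB1
          omega
  have hn1 : 1 ≤ n := by
    have : 1 ≤ k * j := Nat.mul_pos (by omega) hj
    omega
  have hn' : (0 : ℝ) < n := by exact_mod_cast hn1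
  have hj' : (0 : ℝ) < j := by exact_mod_cast hj
  have hw' : (0 : ℝ) < w := by exact_mod_cast hw1
  have hk' : (0 : ℝ) < k := by
    have : 0 < k := by omega
    exact_mod_cast this
  have hc' : (0 : ℝ) < c := by exact_mod_cast hc
  have hB' : (1 : ℝ) ≤ B := by exact_mod_cast hB1
  have h2 : (m.choose j : ℝ) ≤ (3 * (c * n) / j : ℝ) ^ j := by
    refine (choose_le_three hj).trans ?_
    refine pow_le_pow_left₀ (by positivity) ?_ _
    rw [div_le_div_iff_of_pos_right hj']
    have : (m : ℝ) ≤ c * n := by exact_mod_cast hm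
    linarith
  have h3 := choose_le_three (n := n) hw1
  have hwn1 : (w : ℝ) / n ≤ 1 := by
    rw [div_le_one hn']
    have : w ≤ n := by omega
    exact_mod_cast this
  have hwn2 : (w : ℝ) / n ≤ k * j / n := by
    rw [div_le_div_iff_of_pos_right hn']
    have : w ≤ k * j := by omega
    exact_mod_cast this
  have h4 : (3 * n / w : ℝ) ^ w * ((w : ℝ) / n) ^ (k * j) =
      3 ^ w * ((w : ℝ) / n) ^ (j + h + r) := by
    rw [hr, pow_add, ← mul_assoc, ← mul_pow]
    congr 2
    field_simp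
  have h5 : ((w : ℝ) / n) ^ (j + h + r) ≤ (k * j / n : ℝ) ^ j * (k * j / n : ℝ) ^ h := by
    rw [pow_add, pow_add]
    have h6 : ((w : ℝ) / n) ^ r ≤ 1 := pow_le_one₀ (by positivity) hwn1
    calc ((w : ℝ) / n) ^ j * ((w : ℝ) / n) ^ h * ((w : ℝ) / n) ^ r
        ≤ ((w : ℝ) / n) ^ j * ((w : ℝ) / n) ^ h * 1 := by gcongr
      _ = ((w : ℝ) / n) ^ j * ((w : ℝ) / n) ^ h := mul_one _
      _ ≤ _ := by gcongr
  have h6 : (3 : ℝ) ^ w ≤ (3 ^ k) ^ j := by
    rw [← pow_mul]
    exact pow_le_pow_right₀ (by norm_num) (by omega)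
  have h7 : (3 * (c * n) / j : ℝ) ^ j * ((3 ^ k) ^ j * (k * j / n : ℝ) ^ j) = (B : ℝ) ^ j := by
    rw [← mul_pow, ← mul_pow]
    congr 1
    rw [hB]
    push_cast
    field_simp
    ring
  have hβ : (B ^ 2 * k * j / n : ℝ) ≤ 1 / 16 := by
    rw [div_le_iff₀ hn']
    have h8 : (16 * B ^ 2 * k * j : ℝ) ≤ n := by exact_mod_cast hA
    linarith
  have hh1 : 1 ≤ h := by omega
  have hterm : (m.choose j : ℝ) * (n.choose w : ℝ) * ((w : ℝ) / n) ^ (k * j) ≤
      (B ^ 2 * k * j / n : ℝ) ^ h := by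
    calc (m.choose j : ℝ) * (n.choose w : ℝ) * ((w : ℝ) / n) ^ (k * j)
        ≤ (3 * (c * n) / j : ℝ) ^ j * (3 * n / w : ℝ) ^ w * ((w : ℝ) / n) ^ (k * j) := by gcongr
      _ = (3 * (c * n) / j : ℝ) ^ j * ((3 * n / w : ℝ) ^ w * ((w : ℝ) / n) ^ (k * j)) := by ring
      _ = (3 * (c * n) / j : ℝ) ^ j * (3 ^ w * ((w : ℝ) / n) ^ (j + h + r)) := by rw [h4]
      _ ≤ (3 * (c * n) / j : ℝ) ^ j *
          ((3 ^ k) ^ j * ((k * j / n : ℝ) ^ j * (k * j / n : ℝ) ^ h)) := by gcongr
      _ = ((3 * (c * n) / j : ℝ) ^ j * ((3 ^ k) ^ j * (k * j / n : ℝ) ^ j)) *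
          (k * j / n : ℝ) ^ h := by ring
      _ = (B : ℝ) ^ j * (k * j / n : ℝ) ^ h := by rw [h7]
      _ ≤ (B : ℝ) ^ (2 * h) * (k * j / n : ℝ) ^ h := by
          refine mul_le_mul_of_nonneg_right ?_ (by positivity)
          exact pow_le_pow_right₀ hB' (by omega)
      _ = (B ^ 2 * k * j / n : ℝ) ^ h := by
          rw [pow_mul, ← mul_pow]
          congr 1
          ring
  have hj2 : (j : ℝ) ≤ 2 ^ j := by
    have : j ≤ 2 ^ j := Nat.lt_two_pow_self.le
    exact_mod_cast this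
  have h16 : (1 / 16 : ℝ) ^ (h - 1) ≤ 16 * (1 / 4) ^ j := by
    have h8 : (1 / 16 : ℝ) ^ (h - 1) = 16 * (1 / 4) ^ (2 * h) := by
      have h9 : 2 * h = 2 * (h - 1) + 2 := by omega
      rw [h9, pow_add, pow_mul]
      norm_num
      ring
    rw [h8]
    refine mul_le_mul_of_nonneg_left ?_ (by norm_num)
    exact pow_le_pow_of_le_one (by norm_num) (by norm_num) (by omega)
  calc (n : ℝ) * ((m.choose j : ℝ) * (n.choose w : ℝ) * ((w : ℝ) / n) ^ (k * j))
      ≤ n * (B ^ 2 * k * j / n : ℝ) ^ h := by gcongr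
    _ = n * ((B ^ 2 * k * j / n : ℝ) ^ (h - 1) * (B ^ 2 * k * j / n : ℝ)) := by
        rw [← pow_succ, Nat.sub_add_cancel hh1]
    _ = (B ^ 2 * k * j : ℝ) * (B ^ 2 * k * j / n : ℝ) ^ (h - 1) := by
        field_simp
    _ ≤ (B ^ 2 * k * j : ℝ) * (1 / 16) ^ (h - 1) := by gcongr
    _ ≤ (B ^ 2 * k * j : ℝ) * (16 * (1 / 4) ^ j) := by gcongr
    _ = (16 * B ^ 2 * k : ℝ) * (j * (1 / 4) ^ j) := by ring
    _ ≤ (16 * B ^ 2 * k : ℝ) * (2 ^ j * (1 / 4) ^ j) := by gcongr
    _ = (16 * B ^ 2 * k : ℝ) * (1 / 2 : ℝ) ^ j := by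
        rw [← mul_pow]
        norm_num
    _ = _ := by push_cast; ring

/-- Almost all hypergraphs expand. -/
theorem expand_fail {c k t : ℕ} (hc : 1 ≤ c) (ht : 1 ≤ t) (hk : 2 * t + 3 ≤ k) {n m : ℕ}
    (hm : m ≤ c * n) {A : ℕ} (hA : A = 16 * (3 ^ (k + 1) * c * k) ^ 2 * k) :
    n * ((hyp n m k).filter fun Z => ¬ ∀ I : Finset (Fin m), I.Nonempty → A * I.card ≤ n →
      2 * t * I.card < (bd Z I).card).card ≤ A * (n.choose k) ^ m := by
  classical
  have hA1 : 1 ≤ A := by
    rw [hA]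
    have h1 : 1 ≤ 3 ^ (k + 1) * c * k :=
      Nat.mul_pos (Nat.mul_pos (pow_pos (by norm_num) _) (by omega)) (by omega)
    exact Nat.mul_pos (Nat.mul_pos (by norm_num) (Nat.pow_pos h1)) (by omega)
  have hAk : k ≤ A := by
    rw [hA]
    have h1 : 1 ≤ 3 ^ (k + 1) * c * k :=
      Nat.mul_pos (Nat.mul_pos (pow_pos (by norm_num) _) (by omega)) (by omega)
    exact Nat.le_mul_of_pos_left k (Nat.mul_pos (by norm_num) (Nat.pow_pos h1))
  rcases Nat.eq_zero_or_pos n with hn0 | hn0
  · rw [hn0, zero_mul]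
    exact Nat.zero_le _
  have hn' : (0 : ℝ) < n := by exact_mod_cast hn0
  -- the bad hypergraphs are covered
  have hcover : ((hyp n m k).filter fun Z => ¬ ∀ I : Finset (Fin m), I.Nonempty →
      A * I.card ≤ n → 2 * t * I.card < (bd Z I).card) ⊆
      (Icc 1 (n / A)).biUnion fun j =>
        ((powersetCard j (univ : Finset (Fin m))) ×ˢ
          (powersetCard ((2 * k - 3) * j / 2) (univ : Finset (Fin n)))).biUnion fun p =>
            (hyp n m k).filter fun Z => ∀ i ∈ p.1, Z i ⊆ p.2 := by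
    intro Z hZ
    obtain ⟨hZ1, hZ2⟩ := mem_filter.1 hZ
    push Not at hZ2
    obtain ⟨I, hI, hIA, hI2⟩ := hZ2
    have hj : 1 ≤ I.card := card_pos.2 hI
    have hjn : I.card ≤ n / A := (Nat.le_div_iff_mul_le hA1).2 (by rw [mul_comm]; exact hIA)
    have h1 := two_un_le Z (mem_hyp.1 hZ1) I
    have h2 : (I.biUnion Z).card ≤ (2 * k - 3) * I.card / 2 := by
      rw [Nat.le_div_iff_mul_le (by norm_num)]
      have h3 : 2 * t * I.card + k * I.card ≤ (2 * k - 3) * I.card := by
        rw [← add_mul]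
        exact Nat.mul_le_mul_right _ (by omega)
      omega
    have h3 : (2 * k - 3) * I.card / 2 ≤ (univ : Finset (Fin n)).card := by
      rw [card_univ, Fintype.card_fin]
      have h4 : (2 * k - 3) * I.card ≤ 2 * (k * I.card) := by
        rw [← mul_assoc]
        exact Nat.mul_le_mul_right _ (by omega)
      have h5 : k * I.card ≤ A * I.card := Nat.mul_le_mul_right _ hAk
      omega
    obtain ⟨W, hW1, -, hW2⟩ := exists_subsuperset_card_eq (subset_univ (I.biUnion Z)) h2 h3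
    refine mem_biUnion.2 ⟨I.card, mem_Icc.2 ⟨hj, hjn⟩, mem_biUnion.2 ⟨(I, W), ?_, ?_⟩⟩
    · exact mem_product.2 ⟨mem_powersetCard.2 ⟨subset_univ _, rfl⟩,
        mem_powersetCard.2 ⟨subset_univ _, hW2⟩⟩
    · exact mem_filter.2 ⟨hZ1, fun i hi => (subset_biUnion_of_mem Z hi).trans hW1⟩
  have h1 := card_le_card hcover
  have h2 : (((Icc 1 (n / A)).biUnion fun j =>
        ((powersetCard j (univ : Finset (Fin m))) ×ˢ
          (powersetCard ((2 * k - 3) * j / 2) (univ : Finset (Fin n)))).biUnion fun p =>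
            (hyp n m k).filter fun Z => ∀ i ∈ p.1, Z i ⊆ p.2).card : ℝ) ≤
      ∑ j ∈ Icc 1 (n / A), (m.choose j : ℝ) * (n.choose ((2 * k - 3) * j / 2) : ℝ) *
        ((n.choose k : ℝ) ^ m * ((((2 * k - 3) * j / 2 : ℕ) : ℝ) / n) ^ (k * j)) := by
    have h3 := card_biUnion_le (s := Icc 1 (n / A)) (t := fun j =>
        ((powersetCard j (univ : Finset (Fin m))) ×ˢ
          (powersetCard ((2 * k - 3) * j / 2) (univ : Finset (Fin n)))).biUnion fun p =>
            (hyp n m k).filter fun Z => ∀ i ∈ p.1, Z i ⊆ p.2)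
    refine le_trans (Nat.cast_le.2 h3) ?_
    rw [Nat.cast_sum]
    refine sum_le_sum fun j _ => ?_
    have h4 := card_biUnion_le (s := (powersetCard j (univ : Finset (Fin m))) ×ˢ
          (powersetCard ((2 * k - 3) * j / 2) (univ : Finset (Fin n)))) (t := fun p =>
            (hyp n m k).filter fun Z => ∀ i ∈ p.1, Z i ⊆ p.2)
    refine le_trans (Nat.cast_le.2 h4) ?_
    rw [Nat.cast_sum]
    have h5 : ∀ p ∈ (powersetCard j (univ : Finset (Fin m))) ×ˢ
          (powersetCard ((2 * k - 3) * j / 2) (univ : Finset (Fin n))),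
        (((hyp n m k).filter fun Z => ∀ i ∈ p.1, Z i ⊆ p.2).card : ℝ) ≤
          (n.choose k : ℝ) ^ m * ((((2 * k - 3) * j / 2 : ℕ) : ℝ) / n) ^ (k * j) := by
      rintro ⟨I, W⟩ hp
      obtain ⟨hI, hW⟩ := mem_product.1 hp
      have h6 := card_inside (n := n) (m := m) (k := k) I W
      rw [(mem_powersetCard.1 hI).2, (mem_powersetCard.1 hW).2] at h6
      have h7 : (((hyp n m k).filter fun Z => ∀ i ∈ I, Z i ⊆ W).card : ℝ) * (n : ℝ) ^ (k * j) ≤
          (n.choose k : ℝ) ^ m * (((2 * k - 3) * j / 2 : ℕ) : ℝ) ^ (k * j) := by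
        exact_mod_cast h6
      rw [div_pow, ← mul_div_assoc, le_div_iff₀ (by positivity)]
      exact h7
    refine (sum_le_sum h5).trans ?_
    rw [sum_const, card_product, card_powersetCard, card_powersetCard, card_univ, card_univ,
      Fintype.card_fin, Fintype.card_fin, nsmul_eq_mul, Nat.cast_mul]
  have hgeo : ∀ M : ℕ, ∑ j ∈ Icc 1 M, (1 / 2 : ℝ) ^ j ≤ 1 := by
    intro M
    have h3 : ∑ j ∈ Icc 1 M, (1 / 2 : ℝ) ^ j = 1 - (1 / 2 : ℝ) ^ M := by
      induction M with
      | zero => simp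
      | succ M ih =>
        rw [sum_Icc_succ_top (by omega), ih]
        ring
    rw [h3]
    have : (0 : ℝ) ≤ (1 / 2 : ℝ) ^ M := by positivity
    linarith
  have h3 : (n : ℝ) * ∑ j ∈ Icc 1 (n / A), (m.choose j : ℝ) *
      (n.choose ((2 * k - 3) * j / 2) : ℝ) *
        ((n.choose k : ℝ) ^ m * ((((2 * k - 3) * j / 2 : ℕ) : ℝ) / n) ^ (k * j)) ≤
      A * (n.choose k : ℝ) ^ m := by
    rw [mul_sum]
    calc ∑ j ∈ Icc 1 (n / A), (n : ℝ) * ((m.choose j : ℝ) *
          (n.choose ((2 * k - 3) * j / 2) : ℝ) *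
          ((n.choose k : ℝ) ^ m * ((((2 * k - 3) * j / 2 : ℕ) : ℝ) / n) ^ (k * j)))
        ≤ ∑ j ∈ Icc 1 (n / A), (n.choose k : ℝ) ^ m * (A * (1 / 2 : ℝ) ^ j) := by
          refine sum_le_sum fun j hj => ?_
          rw [mem_Icc] at hj
          have h4 := union_term (n := n) (m := m) (c := c) (k := k) (j := j) hc (by omega) hm hj.1
            rfl (by
              rw [← hA, mul_comm]
              exact (Nat.le_div_iff_mul_le hA1).1 hj.2)
          rw [← hA] at h4
          calc (n : ℝ) * ((m.choose j : ℝ) * (n.choose ((2 * k - 3) * j / 2) : ℝ) *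
              ((n.choose k : ℝ) ^ m * ((((2 * k - 3) * j / 2 : ℕ) : ℝ) / n) ^ (k * j)))
              = (n.choose k : ℝ) ^ m * (n * ((m.choose j : ℝ) *
                (n.choose ((2 * k - 3) * j / 2) : ℝ) *
                ((((2 * k - 3) * j / 2 : ℕ) : ℝ) / n) ^ (k * j))) := by ring
            _ ≤ _ := mul_le_mul_of_nonneg_left h4 (by positivity)
      _ = (n.choose k : ℝ) ^ m * (A * ∑ j ∈ Icc 1 (n / A), (1 / 2 : ℝ) ^ j) := by
          rw [← mul_sum, ← mul_sum]
      _ ≤ (n.choose k : ℝ) ^ m * (A * 1) := by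
          have := hgeo (n / A)
          gcongr
      _ = A * (n.choose k : ℝ) ^ m := by ring
  have h4 : (n : ℝ) * (((hyp n m k).filter fun Z => ¬ ∀ I : Finset (Fin m), I.Nonempty →
      A * I.card ≤ n → 2 * t * I.card < (bd Z I).card).card : ℝ) ≤
      A * (n.choose k : ℝ) ^ m := by
    refine le_trans (mul_le_mul_of_nonneg_left ?_ hn'.le) h3
    exact le_trans (Nat.cast_le.2 h1) h2
  exact_mod_cast h4

/-- Almost all systems have no solution. -/
theorem sat_few {n m k q : ℕ} [NeZero q] (hq : 2 ≤ q) (hm : 2 * n ≤ m) :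
    n * (((hyp n m k) ×ˢ (univ : Finset (Fin m → ZMod q))).filter fun s =>
      ∃ x : Fin n → ZMod q, ∀ i, ∑ v ∈ s.1 i, x v = s.2 i).card ≤
        (n.choose k) ^ m * q ^ m := by
  classical
  have h1 : (((hyp n m k) ×ˢ (univ : Finset (Fin m → ZMod q))).filter fun s =>
      ∃ x : Fin n → ZMod q, ∀ i, ∑ v ∈ s.1 i, x v = s.2 i) ⊆
      ((hyp n m k) ×ˢ (univ : Finset (Fin n → ZMod q))).image fun p =>
        (p.1, fun i => ∑ v ∈ p.1 i, p.2 v) := by
    rintro ⟨Z, b⟩ hs
    obtain ⟨hs1, x, hx⟩ := mem_filter.1 hs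
    refine mem_image.2 ⟨(Z, x), mem_product.2 ⟨(mem_product.1 hs1).1, mem_univ _⟩, ?_⟩
    refine Prod.ext rfl ?_
    funext i
    exact hx i
  have h2 := (card_le_card h1).trans card_image_le
  rw [card_product, card_hyp, card_univ, Fintype.card_fun, ZMod.card, Fintype.card_fin] at h2
  have h3 : n ≤ q ^ n := (Nat.lt_two_pow_self.le).trans (Nat.pow_le_pow_left hq n)
  calc _ ≤ n * ((n.choose k) ^ m * q ^ n) := Nat.mul_le_mul_left _ h2
    _ ≤ q ^ n * ((n.choose k) ^ m * q ^ n) := Nat.mul_le_mul_right _ h3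
    _ = (n.choose k) ^ m * q ^ (2 * n) := by ring
    _ ≤ (n.choose k) ^ m * q ^ m :=
        Nat.mul_le_mul_left _ (Nat.pow_le_pow_right (by omega) hm)

end Pool.Agent.MP_9cec2c_lc.Sep
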