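import Pool.Agent.Lib.MP_9cec2c_lc.SEDefs

/-!
Change of the field, and disjunctions of linear equations as terms.
-/

set_option autoImplicit false
set_option linter.unusedSectionVars false

namespace Pool.Agent.MP_9cec2c_lc.Sep

open Finset

/-- The polynomials of degree at most `T` in the functions `c s`. -/
def polys {K : Type} [Field K] {V : Type} {S : Type} (c : S → (V → Bool) → K) (T : ℕ) :
    Submodule K ((V → Bool) → K) :=
  Submodule.span K {f | ∃ w : Finset S, w.card ≤ T ∧ f = ∏ s ∈ w, c s}

theorem span_le_polys {K : Type} [Field K] {V : Type} {S : Type} (c : S → (V → Bool) → K) :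
    Submodule.span K (Set.range c) ≤ polys c 1 := by
  refine Submodule.span_mono ?_
  rintro f ⟨s, rfl⟩
  exact ⟨{s}, by rw [card_singleton], by rw [prod_singleton]⟩

/-! ### A finite extension with a primitive root of unity -/

theorem exists_ext (q : ℕ) [Fact q.Prime] (K : Type) [Field K] [Fintype K] (hq : (q : K) ≠ 0) :
    ∃ (L : Type) (_ : Field L) (_ : Fintype L) (_ : Algebra K L) (ψ : AddChar (ZMod q) L),
      Function.Injective ψ := by
  have : NeZero ((q : ℕ) : K) := ⟨hq⟩
  have hfd : FiniteDimensional K (CyclotomicField q K) :=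
    IsCyclotomicExtension.finiteDimensional {q} K (CyclotomicField q K)
  have hfin : Finite (CyclotomicField q K) := Module.finite_of_finite K
  have hζ := IsCyclotomicExtension.zeta_spec q K (CyclotomicField q K)
  refine ⟨CyclotomicField q K, inferInstance, Fintype.ofFinite _, inferInstance,
    AddChar.zmodChar q hζ.pow_eq_one, fun a b hab => ?_⟩
  rw [AddChar.zmodChar_apply, AddChar.zmodChar_apply] at hab
  exact ZMod.val_injective q (hζ.pow_inj (ZMod.val_lt a) (ZMod.val_lt b) hab)

section trans

variable {K : Type} [Field K] {V : Type}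

theorem Deg_mono {t t' : ℕ} (h : t ≤ t') : Deg K V t ≤ Deg K V t' := by
  unfold Deg
  refine Submodule.span_mono ?_
  rintro f ⟨M, hM, rfl⟩
  exact ⟨M, hM.trans h, rfl⟩

theorem one_mem_Deg (t : ℕ) : (1 : (V → Bool) → K) ∈ Deg K V t := by
  refine Submodule.subset_span ⟨∅, by rw [card_empty]; exact Nat.zero_le _, ?_⟩
  funext x
  show (1 : K) = if ∀ v ∈ (∅ : Finset V), x v = true then 1 else 0
  rw [if_pos fun v hv => absurd hv (notMem_empty v)]

theorem var_mem_Deg (v : V) {t : ℕ} (ht : 1 ≤ t) :
    (fun x : V → Bool => if x v = true then (1 : K) else 0) ∈ Deg K V t := by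
  refine Submodule.subset_span ⟨{v}, by rw [card_singleton]; exact ht, ?_⟩
  funext x
  by_cases h : x v = true
  · rw [if_pos h, if_pos fun w hw => by rw [mem_singleton.1 hw]; exact h]
  · rw [if_neg h, if_neg fun h' => h (h' v (mem_singleton_self v))]

theorem Deg_mul {t t' : ℕ} {f g : (V → Bool) → K} (hf : f ∈ Deg K V t) (hg : g ∈ Deg K V t') :
    f * g ∈ Deg K V (t + t') := by
  classical
  unfold Deg at hf
  induction hf using Submodule.span_induction with
  | mem f hf =>
    obtain ⟨M, hM, rfl⟩ := hf
    unfold Deg at hg
    induction hg using Submodule.span_induction with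
    | mem g hg =>
      obtain ⟨M', hM', rfl⟩ := hg
      refine Submodule.subset_span ⟨M ∪ M', (card_union_le _ _).trans (by omega), ?_⟩
      funext x
      show (if ∀ v ∈ M, x v = true then (1 : K) else 0) *
        (if ∀ v ∈ M', x v = true then (1 : K) else 0) =
        if ∀ v ∈ M ∪ M', x v = true then (1 : K) else 0
      by_cases h : ∀ v ∈ M, x v = true
      · by_cases h' : ∀ v ∈ M', x v = true
        · rw [if_pos h, if_pos h', if_pos fun v hv => (mem_union.1 hv).elim (h v) (h' v), mul_one]
        · rw [if_neg h', mul_zero, if_neg fun h2 => h' fun v hv => h2 v (mem_union_right _ hv)]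
      · rw [if_neg h, zero_mul, if_neg fun h2 => h fun v hv => h2 v (mem_union_left _ hv)]
    | zero =>
      rw [mul_zero]
      exact Submodule.zero_mem _
    | add g h _ _ hg hh =>
      rw [mul_add]
      exact Submodule.add_mem _ hg hh
    | smul c g _ hg =>
      rw [mul_smul_comm]
      exact Submodule.smul_mem _ _ hg
  | zero =>
    rw [zero_mul]
    exact Submodule.zero_mem _
  | add f h _ _ hf hh =>
    rw [add_mul]
    exact Submodule.add_mem _ hf hh
  | smul c f _ hf =>
    rw [smul_mul_assoc]
    exact Submodule.smul_mem _ _ hf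

theorem Deg_pow {t : ℕ} {f : (V → Bool) → K} (hf : f ∈ Deg K V t) (j : ℕ) :
    f ^ j ∈ Deg K V (j * t) := by
  induction j with
  | zero =>
    rw [pow_zero]
    exact one_mem_Deg _
  | succ j ih =>
    rw [pow_succ, Nat.succ_mul]
    exact Deg_mul ih hf

/-- A disjunction of linear equations over a finite field is a term. -/
theorem IsLin.exists_term [Fintype K] [Fintype V] {A : Set (V → Bool)} (h : IsLin K A) {t : ℕ}
    (ht : Fintype.card K ≤ t + 1) :
    ∃ G : Set ((V → Bool) → K), (∀ g ∈ G, g ∈ Deg K V t) ∧ A = {x | term G x = 0} := by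
  obtain ⟨E, hE⟩ := h
  have hq : 1 < Fintype.card K := Fintype.one_lt_card
  refine ⟨{g | ∃ e ∈ E, g = 1 - ((fun x : V → Bool => ∑ v, (if x v = true then e.1 v else 0)) -
    fun _ => e.2) ^ (Fintype.card K - 1)}, ?_, ?_⟩
  · rintro g ⟨e, -, rfl⟩
    have h1 : ((fun x : V → Bool => ∑ v, (if x v = true then e.1 v else 0)) - fun _ => e.2) ∈
        Deg K V 1 := by
      refine Submodule.sub_mem _ ?_ ?_
      · have h2 : (fun x : V → Bool => ∑ v, (if x v = true then e.1 v else 0)) =
            ∑ v, e.1 v • fun x : V → Bool => if x v = true then (1 : K) else 0 := by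
          funext x
          rw [Finset.sum_apply]
          refine sum_congr rfl fun v _ => ?_
          rw [Pi.smul_apply]
          split_ifs
          · rw [smul_eq_mul, mul_one]
          · rw [smul_zero]
        rw [h2]
        exact Submodule.sum_mem _ fun v _ => Submodule.smul_mem _ _ (var_mem_Deg v le_rfl)
      · have h2 : (fun _ : V → Bool => e.2) = e.2 • (1 : (V → Bool) → K) := by
          funext x
          rw [Pi.smul_apply, Pi.one_apply, smul_eq_mul, mul_one]
        rw [h2]
        exact Submodule.smul_mem _ _ (one_mem_Deg 1)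
    refine Submodule.sub_mem _ (one_mem_Deg t) (Deg_mono ?_ (Deg_pow h1 _))
    omega
  · have key : ∀ (e : (V → K) × K) (x : V → Bool),
        (1 - ((fun x : V → Bool => ∑ v, (if x v = true then e.1 v else 0)) -
          fun _ => e.2) ^ (Fintype.card K - 1) : (V → Bool) → K) x = 0 ↔
        ¬ ∑ v, (if x v = true then e.1 v else 0) = e.2 := by
      intro e x
      rw [Pi.sub_apply, Pi.pow_apply, Pi.sub_apply, Pi.one_apply]
      constructor
      · intro h1 h2
        rw [h2, sub_self, zero_pow (by omega), sub_zero] at h1
        exact one_ne_zero h1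
      · intro h1
        rw [FiniteField.pow_card_sub_one_eq_one _ (sub_ne_zero.2 h1), sub_self]
    ext x
    rw [hE]
    show _ ↔ term _ x = 0
    unfold term
    constructor
    · rintro ⟨e, he, hex⟩
      rw [if_neg]
      intro h1
      exact (key e x).1 (h1 _ ⟨e, he, rfl⟩) hex
    · intro h1
      by_contra hcon
      push Not at hcon
      rw [if_pos] at h1
      · exact one_ne_zero h1
      · rintro g ⟨e, he, rfl⟩
        exact (key e x).2 (hcon e he)

/-! ### Change of the field -/

variable {L : Type} [Field L] [Algebra K L]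

theorem Deg_map {t : ℕ} {g : (V → Bool) → K} (hg : g ∈ Deg K V t) :
    (fun x => algebraMap K L (g x)) ∈ Deg L V t := by
  unfold Deg at hg
  induction hg using Submodule.span_induction with
  | mem f hf =>
    obtain ⟨M, hM, hfM⟩ := hf
    refine Submodule.subset_span ⟨M, hM, ?_⟩
    funext x
    rw [hfM]
    show algebraMap K L (if ∀ v ∈ M, x v = true then 1 else 0) =
      if ∀ v ∈ M, x v = true then 1 else 0
    split_ifs
    · rw [map_one]
    · rw [map_zero]
  | zero =>
    have h1 : (fun x : V → Bool => algebraMap K L ((0 : (V → Bool) → K) x)) = 0 := by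
      funext x
      exact map_zero _
    rw [h1]
    exact Submodule.zero_mem _
  | add f g _ _ hf hg =>
    have h1 : (fun x : V → Bool => algebraMap K L ((f + g) x)) =
        (fun x => algebraMap K L (f x)) + fun x => algebraMap K L (g x) := by
      funext x
      exact map_add _ _ _
    rw [h1]
    exact Submodule.add_mem _ hf hg
  | smul c f _ hf =>
    have h1 : (fun x : V → Bool => algebraMap K L ((c • f) x)) =
        algebraMap K L c • fun x => algebraMap K L (f x) := by
      funext x
      exact map_mul _ _ _
    rw [h1]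
    exact Submodule.smul_mem _ _ hf

theorem term_map (G : Set ((V → Bool) → K)) (x : V → Bool) :
    term {g' : (V → Bool) → L | ∃ g ∈ G, g' = fun x => algebraMap K L (g x)} x =
      algebraMap K L (term G x) := by
  unfold term
  by_cases h : ∀ g ∈ G, g x = 0
  · rw [if_pos h, if_pos, map_one]
    rintro g' ⟨g, hg, rfl⟩
    show algebraMap K L (g x) = 0
    rw [h g hg, map_zero]
  · rw [if_neg h, if_neg, map_zero]
    intro h'
    refine h fun g hg => ?_
    have h1 : algebraMap K L (g x) = 0 := h' _ ⟨g, hg, rfl⟩
    exact (map_eq_zero _).1 h1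

theorem polys_map {S : Type} {G : S → Set ((V → Bool) → K)} {T : ℕ} {Q : (V → Bool) → K}
    (hQ : Q ∈ polys (fun s => term (G s)) T) :
    (fun x => algebraMap K L (Q x)) ∈ polys (fun s =>
      term {g' : (V → Bool) → L | ∃ g ∈ G s, g' = fun x => algebraMap K L (g x)}) T := by
  unfold polys at hQ
  induction hQ using Submodule.span_induction with
  | mem f hf =>
    obtain ⟨w, hw, rfl⟩ := hf
    refine Submodule.subset_span ⟨w, hw, ?_⟩
    funext x
    rw [Finset.prod_apply, Finset.prod_apply, map_prod]
    exact prod_congr rfl fun s _ => (term_map (G s) x).symm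
  | zero =>
    have h1 : (fun x : V → Bool => algebraMap K L ((0 : (V → Bool) → K) x)) = 0 := by
      funext x
      exact map_zero _
    rw [h1]
    exact Submodule.zero_mem _
  | add f g _ _ hf hg =>
    have h1 : (fun x : V → Bool => algebraMap K L ((f + g) x)) =
        (fun x => algebraMap K L (f x)) + fun x => algebraMap K L (g x) := by
      funext x
      exact map_add _ _ _
    rw [h1]
    exact Submodule.add_mem _ hf hg
  | smul c f _ hf =>
    have h1 : (fun x : V → Bool => algebraMap K L ((c • f) x)) =
        algebraMap K L c • fun x => algebraMap K L (f x) := by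
      funext x
      exact map_mul _ _ _
    rw [h1]
    exact Submodule.smul_mem _ _ hf

end trans

end Pool.Agent.MP_9cec2c_lc.Sep
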