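import Pool.Agent.Lib.MP_9cec2c_lc.SEDefs

/-!
An unsolvable sparse system mod `q` has a refutation with a linear number of lines, each of which is
a disjunction of linear equations mod `q`.
-/

set_option autoImplicit false
set_option linter.unusedSectionVars false

namespace Pool.Agent.MP_9cec2c_lc.Sep

open Finset

/-- Lines with a rank can be written in a row. -/
theorem IsRefutation.row {V U : Type} [Fintype U] {F : Set (Finset (V × Bool))} {b : ℕ}
    {rank : U → ℕ} {A : U → Set (V → Bool)}
    (h : IsRefutation F b (fun u v => rank u < rank v) A) :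
    ∃ e : Fin (Fintype.card U) ≃ U, IsRefutation F b (fun i j => i < j) (A ∘ e) := by
  classical
  obtain ⟨N, hN⟩ : ∃ N, N = Fintype.card U := ⟨_, rfl⟩
  obtain ⟨g⟩ : Nonempty (U ≃ Fin (Fintype.card U)) := ⟨Fintype.equivFin U⟩
  obtain ⟨key, hkey⟩ : ∃ key : U → ℕ, key = fun u => rank u * Fintype.card U + (g u : ℕ) :=
    ⟨_, rfl⟩
  have hinj : Function.Injective key := by
    intro u v huv
    rw [hkey] at huv
    have h1 : rank u * Fintype.card U + (g u : ℕ) = rank v * Fintype.card U + (g v : ℕ) := huv
    have h2 := (g u).2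
    have h3 := (g v).2
    have h4 : (g u : ℕ) = (g v : ℕ) := by
      have h5 := congrArg (· % Fintype.card U) h1
      simp only [Nat.mul_add_mod_self_right] at h5
      rwa [Nat.mod_eq_of_lt h2, Nat.mod_eq_of_lt h3] at h5
    exact g.injective (Fin.ext h4)
  have hlt : ∀ u v, rank u < rank v → key u < key v := by
    intro u v huv
    rw [hkey]
    show rank u * Fintype.card U + (g u : ℕ) < rank v * Fintype.card U + (g v : ℕ)
    have h2 := (g u).2
    have h3 : (rank u + 1) * Fintype.card U ≤ rank v * Fintype.card U :=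
      Nat.mul_le_mul_right _ huv
    rw [add_mul, one_mul] at h3
    omega
  have hcard : (univ.image key).card = Fintype.card U := by
    rw [card_image_of_injective _ hinj, card_univ]
  let o := (univ.image key).orderIsoOfFin hcard
  have hex : ∀ i : Fin (Fintype.card U), ∃ u, key u = (o i : ℕ) := by
    intro i
    obtain ⟨u, -, hu⟩ := mem_image.1 (o i).2
    exact ⟨u, hu⟩
  choose e he using hex
  have hebij : Function.Bijective e := by
    rw [Fintype.bijective_iff_injective_and_card]
    refine ⟨fun i j hij => ?_, Fintype.card_fin _⟩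
    have h1 : (o i : ℕ) = (o j : ℕ) := by rw [← he, ← he, hij]
    exact o.injective (Subtype.ext h1)
  have hord : ∀ i j, key (e i) < key (e j) → i < j := by
    intro i j hij
    rw [he, he] at hij
    exact o.lt_iff_lt.1 hij
  refine ⟨Equiv.ofBijective e hebij, ?_, ?_⟩
  · intro i
    rcases h.1 (e i) with h1 | ⟨s, hs1, hs2, hs3⟩
    · exact Or.inl h1
    · refine Or.inr ⟨s.image (Equiv.ofBijective e hebij).symm, card_image_le.trans hs1, ?_, ?_⟩
      · intro j hj
        obtain ⟨u, hu, rfl⟩ := mem_image.1 hj
        apply hord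
        have h2 : e ((Equiv.ofBijective e hebij).symm u) = u :=
          (Equiv.ofBijective e hebij).apply_symm_apply u
        rw [h2]
        exact hlt _ _ (hs2 u hu)
      · intro x hx
        refine hs3 x fun u hu => ?_
        have h2 := hx _ (mem_image_of_mem _ hu)
        have h3 : (Equiv.ofBijective e hebij) ((Equiv.ofBijective e hebij).symm u) = u :=
          (Equiv.ofBijective e hebij).apply_symm_apply u
        rw [Function.comp_apply, h3] at h2
        exact h2
  · obtain ⟨u, hu⟩ := h.2
    refine ⟨(Equiv.ofBijective e hebij).symm u, fun x => ?_⟩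
    have h3 : (Equiv.ofBijective e hebij) ((Equiv.ofBijective e hebij).symm u) = u :=
      (Equiv.ofBijective e hebij).apply_symm_apply u
    rw [Function.comp_apply, h3]
    exact hu x

section upper

variable {n m q : ℕ} [Fact q.Prime]

/-- The value of a variable mod `q`. -/
def value (x : Fin n × ZMod q → Bool) (v : Fin n) : ZMod q := ∑ a, if x (v, a) then a else 0

/-- An unsolvable system has a combination of equations that says `0 = 1`. -/
theorem fredholm {Z : Fin m → Finset (Fin n)} {b : Fin m → ZMod q}
    (h : ¬ ∃ x : Fin n → ZMod q, ∀ i, ∑ v ∈ Z i, x v = b i) :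
    ∃ c : Fin m → ZMod q, (∀ x : Fin n → ZMod q, ∑ i, c i * ∑ v ∈ Z i, x v = 0) ∧
      ∑ i, c i * b i ≠ 0 := by
  classical
  let Λ : (Fin n → ZMod q) →ₗ[ZMod q] (Fin m → ZMod q) :=
    { toFun := fun x i => ∑ v ∈ Z i, x v
      map_add' := by
        intro x y
        funext i
        exact sum_add_distrib
      map_smul' := by
        intro c x
        funext i
        show ∑ v ∈ Z i, c * x v = c * ∑ v ∈ Z i, x v
        rw [mul_sum] }
  have hb : b ∉ LinearMap.range Λ := by
    rintro ⟨x, hx⟩
    exact h ⟨x, fun i => congrFun hx i⟩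
  obtain ⟨f, hf1, hf2⟩ := Submodule.exists_le_ker_of_notMem hb
  have hf : ∀ y : Fin m → ZMod q, f y = ∑ i, f (Pi.single i 1) * y i := by
    intro y
    have h1 : y = ∑ i, y i • (Pi.single i (1 : ZMod q) : Fin m → ZMod q) := by
      funext j
      rw [Finset.sum_apply, sum_eq_single j]
      · rw [Pi.smul_apply, Pi.single_eq_same, smul_eq_mul, mul_one]
      · intro i _ hi
        rw [Pi.smul_apply, Pi.single_eq_of_ne hi.symm, smul_zero]
      · intro h
        exact absurd (mem_univ j) h
    conv_lhs => rw [h1]
    rw [map_sum]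
    refine sum_congr rfl fun i _ => ?_
    rw [map_smul, smul_eq_mul, mul_comm]
  refine ⟨fun i => f (Pi.single i 1), fun x => ?_, ?_⟩
  · have h1 : f (Λ x) = 0 := hf2 (LinearMap.mem_range_self Λ x)
    rw [hf] at h1
    exact h1
  · rw [← hf]
    exact hf1

/-- The lines of the refutation: the branches of the decision trees of the equations, and the
partial sums. -/
def lineOf (Z : Fin m → Finset (Fin n)) (b c : Fin m → ZMod q) {N : ℕ}
    (vars : Fin m → Fin N → Fin n × ZMod q) :
    (Fin m × Fin (N + 1) × (Fin N → Bool)) ⊕ Fin (m + 1) → Set (Fin n × ZMod q → Bool)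
  | Sum.inl (i, s, σ) => {x | ∑ v ∈ Z i, value x v = b i ∨
      ∃ j : Fin N, (j : ℕ) < s ∧ x (vars i j) ≠ σ j}
  | Sum.inr j => {x | ∑ i : Fin m, (if (i : ℕ) < j then c i * ∑ v ∈ Z i, value x v else 0) =
      ∑ i : Fin m, if (i : ℕ) < j then c i * b i else 0}

/-- The ranks of the lines. -/
def rankOf {m N : ℕ} : (Fin m × Fin (N + 1) × (Fin N → Bool)) ⊕ Fin (m + 1) → ℕ
  | Sum.inl (_, s, _) => N - s
  | Sum.inr j => N + 1 + j

theorem sum_value (x : Fin n × ZMod q → Bool) (Y : Finset (Fin n)) :
    ∑ w : Fin n × ZMod q, (if x w then (if w.1 ∈ Y then w.2 else 0) else 0) =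
      ∑ v ∈ Y, value x v := by
  classical
  rw [Fintype.sum_prod_type, ← sum_filter_add_sum_filter_not univ (fun v => v ∈ Y)]
  have h1 : (univ.filter fun v => v ∈ Y) = Y := by
    ext v
    rw [mem_filter]
    exact and_iff_right (mem_univ v)
  have h2 : ∑ v ∈ univ.filter (fun v => ¬ v ∈ Y),
      ∑ a : ZMod q, (if x (v, a) then (if (v, a).1 ∈ Y then (v, a).2 else 0) else 0) = 0 := by
    refine sum_eq_zero fun v hv => sum_eq_zero fun a _ => ?_
    rw [if_neg (mem_filter.1 hv).2, ite_self]
  rw [h1, h2, add_zero]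
  refine sum_congr rfl fun v hv => ?_
  unfold value
  refine sum_congr rfl fun a _ => ?_
  rw [if_pos hv]

theorem sum_single_if (x : Fin n × ZMod q → Bool) (w0 : Fin n × ZMod q) :
    ∑ w : Fin n × ZMod q, (if x w then (if w = w0 then (1 : ZMod q) else 0) else 0) =
      if x w0 then 1 else 0 := by
  classical
  rw [sum_eq_single w0]
  · rw [if_pos rfl]
  · intro w _ hw
    rw [if_neg hw, ite_self]
  · intro h
    exact absurd (mem_univ _) h

theorem isLin_lineOf (Z : Fin m → Finset (Fin n)) (b c : Fin m → ZMod q) {N : ℕ}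
    (vars : Fin m → Fin N → Fin n × ZMod q)
    (u : (Fin m × Fin (N + 1) × (Fin N → Bool)) ⊕ Fin (m + 1)) :
    IsLin (ZMod q) (lineOf Z b c vars u) := by
  classical
  rcases u with ⟨i, s, σ⟩ | j
  · refine ⟨insert (fun w => if w.1 ∈ Z i then w.2 else 0, b i)
      ((univ.filter fun j : Fin N => (j : ℕ) < s).image fun j =>
        (fun w => if w = vars i j then 1 else 0, if σ j then 0 else 1)), fun x => ?_⟩
    constructor
    · rintro (h | ⟨j, hj, hjx⟩)
      · refine ⟨_, mem_insert_self _ _, ?_⟩
        show ∑ w : Fin n × ZMod q, (if x w then (if w.1 ∈ Z i then w.2 else 0) else 0) = b i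
        rw [sum_value]
        exact h
      · refine ⟨_, mem_insert_of_mem (mem_image_of_mem _ (mem_filter.2 ⟨mem_univ j, hj⟩)), ?_⟩
        show ∑ w : Fin n × ZMod q, (if x w then (if w = vars i j then (1 : ZMod q) else 0) else 0)
          = if σ j then 0 else 1
        rw [sum_single_if]
        cases hx : x (vars i j) <;> cases hσ : σ j
        · rw [hx, hσ] at hjx
          exact absurd rfl hjx
        · simp
        · simp
        · rw [hx, hσ] at hjx
          exact absurd rfl hjx
    · rintro ⟨e, he, hex⟩
      rcases mem_insert.1 he with rfl | he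
      · left
        have h1 : ∑ w : Fin n × ZMod q, (if x w then (if w.1 ∈ Z i then w.2 else 0) else 0) =
          b i := hex
        rwa [sum_value] at h1
      · right
        obtain ⟨j, hj, rfl⟩ := mem_image.1 he
        refine ⟨j, (mem_filter.1 hj).2, fun hxj => ?_⟩
        have h1 : ∑ w : Fin n × ZMod q,
          (if x w then (if w = vars i j then (1 : ZMod q) else 0) else 0)
            = if σ j then 0 else 1 := hex
        rw [sum_single_if, hxj] at h1
        cases hσ : σ j
        · rw [hσ] at h1
          simp at h1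
        · rw [hσ] at h1
          simp at h1
  · refine ⟨{(fun w => ∑ i : Fin m, if (i : ℕ) < j then c i * (if w.1 ∈ Z i then w.2 else 0) else 0,
      ∑ i : Fin m, if (i : ℕ) < j then c i * b i else 0)}, fun x => ?_⟩
    have h1 : ∑ w : Fin n × ZMod q, (if x w then
        (∑ i : Fin m, if (i : ℕ) < j then c i * (if w.1 ∈ Z i then w.2 else 0) else 0) else 0) =
        ∑ i : Fin m, (if (i : ℕ) < j then c i * ∑ v ∈ Z i, value x v else 0) := by
      have h2 : ∀ w : Fin n × ZMod q, (if x w then
          (∑ i : Fin m, if (i : ℕ) < j then c i * (if w.1 ∈ Z i then w.2 else 0) else 0) else 0) =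
          ∑ i : Fin m, (if (i : ℕ) < j then
            c i * (if x w then (if w.1 ∈ Z i then w.2 else 0) else 0) else 0) := by
        intro w
        split_ifs with hx
        · rfl
        · symm
          refine sum_eq_zero fun i _ => ?_
          rw [mul_zero, ite_self]
      rw [sum_congr rfl fun w _ => h2 w, sum_comm]
      refine sum_congr rfl fun i _ => ?_
      split_ifs with hij
      · rw [← mul_sum, sum_value]
      · exact sum_const_zero
    constructor
    · intro hx
      refine ⟨_, mem_singleton_self _, ?_⟩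
      show ∑ w : Fin n × ZMod q, (if x w then
        (∑ i : Fin m, if (i : ℕ) < j then c i * (if w.1 ∈ Z i then w.2 else 0) else 0) else 0) = _
      rw [h1]
      exact hx
    · rintro ⟨e, he, hex⟩
      rw [mem_singleton] at he
      subst he
      have h3 : ∑ w : Fin n × ZMod q, (if x w then
        (∑ i : Fin m, if (i : ℕ) < j then c i * (if w.1 ∈ Z i then w.2 else 0) else 0) else 0) =
        ∑ i : Fin m, if (i : ℕ) < j then c i * b i else 0 := hex
      rw [h1] at h3
      exact h3

/-- A point that is not a solution of the equation `i` falsifies a clause in the variables of the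
equation. -/
theorem exists_clause {Z : Fin m → Finset (Fin n)} {b : Fin m → ZMod q} {i : Fin m}
    {x : Fin n × ZMod q → Bool} (hx : ∑ v ∈ Z i, value x v ≠ b i) :
    ∃ C ∈ cnf Z b, ∀ y : Fin n × ZMod q → Bool,
      (∀ v ∈ Z i, ∀ a, y (v, a) = x (v, a)) → ¬ Holds C y := by
  classical
  by_cases h1 : ∃ v ∈ Z i, ∀ a, x (v, a) = false
  · obtain ⟨v, hv, hva⟩ := h1
    refine ⟨_, Or.inl ⟨v, rfl⟩, fun y hy => ?_⟩
    rintro ⟨l, hl, hly⟩
    obtain ⟨a, -, rfl⟩ := mem_image.1 hl
    have h2 : y (v, a) = true := hly
    rw [hy v hv a, hva a] at h2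
    exact absurd h2 (by simp)
  · push Not at h1
    by_cases h2 : ∃ v ∈ Z i, ∃ a a', a ≠ a' ∧ x (v, a) = true ∧ x (v, a') = true
    · obtain ⟨v, hv, a, a', haa, hxa, hxa'⟩ := h2
      refine ⟨_, Or.inr (Or.inl ⟨v, a, a', haa, rfl⟩), fun y hy => ?_⟩
      rintro ⟨l, hl, hly⟩
      rcases mem_insert.1 hl with rfl | hl
      · have h3 : y (v, a) = false := hly
        rw [hy v hv a, hxa] at h3
        exact absurd h3 (by simp)
      · rw [mem_singleton.1 hl] at hly
        have h3 : y (v, a') = false := hly
        rw [hy v hv a', hxa'] at h3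
        exact absurd h3 (by simp)
    · push Not at h2
      have h3 : ∀ v ∈ Z i, x (v, value x v) = true := by
        intro v hv
        obtain ⟨a, ha⟩ := h1 v hv
        have ha' : x (v, a) = true := by
          cases hxa : x (v, a)
          · exact absurd hxa ha
          · rfl
        have h4 : value x v = a := by
          unfold value
          rw [sum_eq_single a]
          · rw [if_pos ha']
          · intro a' _ haa
            rw [if_neg (h2 v hv a a' haa.symm ha')]
          · intro h
            exact absurd (mem_univ _) h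
        rw [h4]
        exact ha'
      refine ⟨_, Or.inr (Or.inr ⟨i, value x, hx, rfl⟩), fun y hy => ?_⟩
      rintro ⟨l, hl, hly⟩
      obtain ⟨v, hv, rfl⟩ := mem_image.1 hl
      have h4 : y (v, value x v) = false := hly
      rw [hy v hv, h3 v hv] at h4
      exact absurd h4 (by simp)

theorem isRefutation_lineOf {Z : Fin m → Finset (Fin n)} {b c : Fin m → ZMod q} {N : ℕ}
    {vars : Fin m → Fin N → Fin n × ZMod q}
    (hvars : ∀ i v a, v ∈ Z i → ∃ j, vars i j = (v, a))
    (hc1 : ∀ x : Fin n → ZMod q, ∑ i, c i * ∑ v ∈ Z i, x v = 0)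
    (hc2 : ∑ i, c i * b i ≠ 0) (hn : 0 < n) :
    IsRefutation (cnf Z b) 2 (fun u v => rankOf u < rankOf v) (lineOf Z b c vars) := by
  classical
  constructor
  · rintro (⟨i, s, σ⟩ | j)
    · by_cases hs : (s : ℕ) < N
      · -- a branching
        right
        refine ⟨{Sum.inl (i, ⟨s + 1, by omega⟩, Function.update σ ⟨s, hs⟩ true),
          Sum.inl (i, ⟨s + 1, by omega⟩, Function.update σ ⟨s, hs⟩ false)}, card_le_two, ?_, ?_⟩
        · intro w hw
          rcases mem_insert.1 hw with rfl | hw
          · show N - (s + 1) < N - s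
            omega
          · rw [mem_singleton.1 hw]
            show N - (s + 1) < N - s
            omega
        · intro x hx
          have h1 : x ∈ lineOf Z b c vars
              (Sum.inl (i, ⟨s + 1, by omega⟩, Function.update σ ⟨s, hs⟩ (x (vars i ⟨s, hs⟩)))) := by
            cases hxs : x (vars i ⟨s, hs⟩)
            · exact hx _ (mem_insert_of_mem (mem_singleton_self _))
            · exact hx _ (mem_insert_self _ _)
          rcases h1 with h1 | ⟨j, hj, hjx⟩
          · exact Or.inl h1
          · right
            by_cases hjs : j = ⟨s, hs⟩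
            · subst hjs
              rw [Function.update_self] at hjx
              exact absurd rfl hjx
            · refine ⟨j, ?_, ?_⟩
              · have h2 : (j : ℕ) < s + 1 := hj
                have h3 : (j : ℕ) ≠ s := fun h => hjs (Fin.ext h)
                omega
              · rwa [Function.update_of_ne hjs] at hjx
      · -- a leaf
        left
        by_cases hall : ∀ x : Fin n × ZMod q → Bool, x ∈ lineOf Z b c vars (Sum.inl (i, s, σ))
        · exact ⟨_, Or.inl ⟨⟨0, hn⟩, rfl⟩, fun x _ => hall x⟩
        · push Not at hall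
          obtain ⟨x, hx⟩ := hall
          have hx' : ¬ (∑ v ∈ Z i, value x v = b i ∨
            ∃ j : Fin N, (j : ℕ) < s ∧ x (vars i j) ≠ σ j) := hx
          push Not at hx'
          obtain ⟨C, hC, hCy⟩ := exists_clause hx'.1
          refine ⟨C, hC, fun y hy => ?_⟩
          by_contra hcon
          have hy' : ¬ (∑ v ∈ Z i, value y v = b i ∨
            ∃ j : Fin N, (j : ℕ) < s ∧ y (vars i j) ≠ σ j) := hcon
          push Not at hy'
          refine hCy y (fun v hv a => ?_) hy
          obtain ⟨j, hj⟩ := hvars i v a hv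
          have hjs : (j : ℕ) < s := by
            have := j.2
            omega
          rw [← hj, hy'.2 j hjs, hx'.2 j hjs]
    · rcases Nat.eq_zero_or_pos (j : ℕ) with hj | hj
      · -- the empty sum
        left
        refine ⟨_, Or.inl ⟨⟨0, hn⟩, rfl⟩, fun x _ => ?_⟩
        show ∑ i : Fin m, (if (i : ℕ) < j then c i * ∑ v ∈ Z i, value x v else 0) =
          ∑ i : Fin m, if (i : ℕ) < j then c i * b i else 0
        rw [hj]
        refine sum_congr rfl fun i _ => ?_
        rw [if_neg (Nat.not_lt_zero _), if_neg (Nat.not_lt_zero _)]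
      · right
        have hjm : (j : ℕ) - 1 < m := by
          have := j.2
          omega
        refine ⟨{Sum.inr ⟨j - 1, by omega⟩, Sum.inl (⟨j - 1, hjm⟩, ⟨0, by omega⟩, fun _ => false)},
          card_le_two, ?_, ?_⟩
        · intro w hw
          rcases mem_insert.1 hw with rfl | hw
          · show N + 1 + (j - 1) < N + 1 + j
            omega
          · rw [mem_singleton.1 hw]
            show N - 0 < N + 1 + j
            omega
        · intro x hx
          have h1 : ∑ i : Fin m, (if (i : ℕ) < j - 1 then c i * ∑ v ∈ Z i, value x v else 0) =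
            ∑ i : Fin m, if (i : ℕ) < j - 1 then c i * b i else 0 :=
            hx _ (mem_insert_self _ _)
          have h2 : ∑ v ∈ Z ⟨j - 1, hjm⟩, value x v = b ⟨j - 1, hjm⟩ := by
            rcases hx _ (mem_insert_of_mem (mem_singleton_self _)) with h | ⟨j', hj', -⟩
            · exact h
            · exact absurd hj' (Nat.not_lt_zero _)
          show ∑ i : Fin m, (if (i : ℕ) < j then c i * ∑ v ∈ Z i, value x v else 0) =
            ∑ i : Fin m, if (i : ℕ) < j then c i * b i else 0
          have h3 : ∀ g : Fin m → ZMod q, ∑ i : Fin m, (if (i : ℕ) < j then g i else 0) =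
              ∑ i : Fin m, (if (i : ℕ) < j - 1 then g i else 0) + g ⟨j - 1, hjm⟩ := by
            intro g
            have h4 : g ⟨j - 1, hjm⟩ = ∑ i : Fin m, if i = ⟨j - 1, hjm⟩ then g i else 0 := by
              rw [sum_ite_eq' univ, if_pos (mem_univ _)]
            rw [h4, ← sum_add_distrib]
            refine sum_congr rfl fun i _ => ?_
            by_cases h5 : i = ⟨j - 1, hjm⟩
            · have h6 : (i : ℕ) = j - 1 := by rw [h5]
              rw [if_pos (by omega), if_neg (by omega), if_pos h5, zero_add]
            · have h6 : (i : ℕ) ≠ j - 1 := fun h => h5 (Fin.ext h)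
              rw [if_neg h5, add_zero]
              by_cases h7 : (i : ℕ) < j
              · rw [if_pos h7, if_pos (by omega)]
              · rw [if_neg h7, if_neg (by omega)]
          rw [h3 fun i => c i * ∑ v ∈ Z i, value x v, h3 fun i => c i * b i, h1]
          show _ + c ⟨j - 1, hjm⟩ * ∑ v ∈ Z ⟨j - 1, hjm⟩, value x v = _
          rw [h2]
  · refine ⟨Sum.inr ⟨m, by omega⟩, fun x hx => ?_⟩
    have h1 : ∑ i : Fin m, (if (i : ℕ) < m then c i * ∑ v ∈ Z i, value x v else 0) =
      ∑ i : Fin m, if (i : ℕ) < m then c i * b i else 0 := hx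
    have h2 : ∀ g : Fin m → ZMod q, ∑ i : Fin m, (if (i : ℕ) < m then g i else 0) =
        ∑ i : Fin m, g i := fun g => sum_congr rfl fun i _ => if_pos i.2
    rw [h2, h2, hc1] at h1
    exact hc2 h1.symm

/-- The upper bound. -/
theorem upper {k : ℕ} {Z : Fin m → Finset (Fin n)} {b : Fin m → ZMod q}
    (hZ : ∀ i, (Z i).card ≤ k) (hn : 0 < n)
    (h : ¬ ∃ x : Fin n → ZMod q, ∀ i, ∑ v ∈ Z i, x v = b i) :
    ∃ N, N ≤ (m + 1) * ((k * q + 1) * 2 ^ (k * q) + 1) ∧
      ∃ A : Fin N → Set (Fin n × ZMod q → Bool), (∀ i, IsLin (ZMod q) (A i)) ∧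
        IsRefutation (cnf Z b) 2 (fun i j => i < j) A := by
  classical
  obtain ⟨c, hc1, hc2⟩ := fredholm h
  have hvars : ∀ i, ∃ f : Fin (k * q) → Fin n × ZMod q, ∀ v a, v ∈ Z i → ∃ j, f j = (v, a) := by
    intro i
    have hcard : Fintype.card ({v // v ∈ Z i} × ZMod q) ≤ Fintype.card (Fin (k * q)) := by
      rw [Fintype.card_prod, Fintype.card_coe, ZMod.card, Fintype.card_fin]
      exact Nat.mul_le_mul_right _ (hZ i)
    obtain ⟨g⟩ := Function.Embedding.nonempty_of_card_le hcard
    refine ⟨fun j => if hj : ∃ w, g w = j then (hj.choose.1.1, hj.choose.2) else (⟨0, hn⟩, 0),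
      fun v a hv => ⟨g (⟨v, hv⟩, a), ?_⟩⟩
    have hex : ∃ w, g w = g (⟨v, hv⟩, a) := ⟨_, rfl⟩
    show (if hj : ∃ w, g w = g (⟨v, hv⟩, a) then ((hj.choose.1 : Fin n), hj.choose.2)
      else (⟨0, hn⟩, 0)) = (v, a)
    rw [dif_pos hex, g.injective hex.choose_spec]
  choose vars hvars using hvars
  obtain ⟨e, he⟩ := (isRefutation_lineOf (vars := vars) hvars hc1 hc2 hn).row
  refine ⟨_, ?_, _, fun i => isLin_lineOf Z b c vars (e i), he⟩
  rw [Fintype.card_sum, Fintype.card_prod, Fintype.card_prod, Fintype.card_fun,
    Fintype.card_bool, Fintype.card_fin, Fintype.card_fin, Fintype.card_fin, Fintype.card_fin]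
  nlinarith [Nat.zero_le m, Nat.zero_le ((k * q + 1) * 2 ^ (k * q))]

end upper

end Pool.Agent.MP_9cec2c_lc.Sep
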