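import Pool.Agent.Lib.MP_9cec2c_lc.SELower
import Pool.Agent.Lib.MP_9cec2c_lc.SERand
import Pool.Agent.Lib.MP_9cec2c_lc.SETrans
import Pool.Agent.Lib.MP_9cec2c_lc.SEUpper

/-!
Almost all sparse linear systems mod `q` are easy for disjunctions of linear equations mod `q` and
exponentially hard for combinations of terms over a finite field of another characteristic.
-/

set_option autoImplicit false
set_option linter.unusedSectionVars false

namespace Pool.Agent.MP_9cec2c_lc.Sep

open Finset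

/-- The CNF of a sparse system has linear size. -/
theorem cnf_size {n m q k : ℕ} [NeZero q] {Z : Fin m → Finset (Fin n)} (b : Fin m → ZMod q)
    (hZ : ∀ i, (Z i).card ≤ k) :
    ∃ F : Finset (Finset ((Fin n × ZMod q) × Bool)),
      (∀ C, C ∈ F ↔ C ∈ cnf Z b) ∧ F.card ≤ n + n * (q * q) + m * q ^ k ∧
      ∀ C ∈ F, C.card ≤ q + 2 + k := by
  classical
  refine ⟨(cnf Z b).toFinset, fun C => Set.mem_toFinset, ?_, ?_⟩
  · have h1 : (cnf Z b).toFinset ⊆
        ((univ : Finset (Fin n)).image fun v => univ.image fun a : ZMod q => ((v, a), true)) ∪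
        ((univ : Finset (Fin n × ZMod q × ZMod q)).image fun p =>
          {((p.1, p.2.1), false), ((p.1, p.2.2), false)}) ∪
        (univ.biUnion fun i => (univ : Finset ({v // v ∈ Z i} → ZMod q)).image fun g =>
          (Z i).attach.image fun v => ((v.1, g v), false)) := by
      intro C hC
      rw [Set.mem_toFinset] at hC
      rw [mem_union, mem_union]
      rcases hC with ⟨v, rfl⟩ | ⟨v, a, a', -, rfl⟩ | ⟨i, y, -, rfl⟩
      · exact Or.inl (Or.inl (mem_image_of_mem _ (mem_univ v)))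
      · exact Or.inl (Or.inr (mem_image.2 ⟨(v, a, a'), mem_univ _, rfl⟩))
      · refine Or.inr (mem_biUnion.2 ⟨i, mem_univ _, mem_image.2 ⟨fun v => y v.1, mem_univ _, ?_⟩⟩)
        ext l
        rw [mem_image, mem_image]
        constructor
        · rintro ⟨v, -, rfl⟩
          exact ⟨v.1, v.2, rfl⟩
        · rintro ⟨v, hv, rfl⟩
          exact ⟨⟨v, hv⟩, mem_attach _ _, rfl⟩
    refine (card_le_card h1).trans ?_
    refine (card_union_le _ _).trans ?_
    refine Nat.add_le_add ((card_union_le _ _).trans (Nat.add_le_add ?_ ?_)) ?_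
    · refine card_image_le.trans ?_
      rw [card_univ, Fintype.card_fin]
    · refine card_image_le.trans ?_
      rw [card_univ, Fintype.card_prod, Fintype.card_prod, ZMod.card, Fintype.card_fin]
    · have h2 := card_biUnion_le_card_mul (univ : Finset (Fin m))
        (fun i => (univ : Finset ({v // v ∈ Z i} → ZMod q)).image fun g =>
          (Z i).attach.image fun v => ((v.1, g v), false)) (q ^ k) (by
          intro i _
          refine card_image_le.trans ?_
          rw [card_univ, Fintype.card_fun, ZMod.card, Fintype.card_coe]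
          exact Nat.pow_le_pow_right (Nat.pos_of_ne_zero (NeZero.ne q)) (hZ i))
      rw [card_univ, Fintype.card_fin] at h2
      exact h2
  · intro C hC
    rw [Set.mem_toFinset] at hC
    rcases hC with ⟨v, rfl⟩ | ⟨v, a, a', -, rfl⟩ | ⟨i, y, -, rfl⟩
    · refine card_image_le.trans ?_
      rw [card_univ, ZMod.card]
      omega
    · refine card_le_two.trans ?_
      omega
    · refine card_image_le.trans ?_
      have := hZ i
      omega

/-- The constants of the lower bound. -/
theorem lower_main (q : ℕ) [Fact q.Prime] (K : Type) [Field K] [Fintype K] (hK : (q : K) ≠ 0)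
    (t fan k c : ℕ) (ht : 1 ≤ t) (hk : 1 ≤ k) {A : ℕ} (hA : 1 ≤ A) :
    ∃ C : ℕ, 1 ≤ C ∧ ∀ n m : ℕ, C ≤ n → m ≤ c * n → ∀ (Z : Fin m → Finset (Fin n))
      (b : Fin m → ZMod q), (∀ i, (Z i).card ≤ k) →
      (∀ I : Finset (Fin m), I.Nonempty → A * I.card ≤ n → 2 * t * I.card < (bd Z I).card) →
      NeedsTerms K t fan (2 ^ (n / C)) (cnf Z b) := by
  classical
  obtain ⟨L, iL1, iL2, iL3, ψ, hψ⟩ := exists_ext q K hK
  obtain ⟨C, hC1, hC⟩ := ResPoly.exists_params_alph q (Fintype.card L) t t k c (2 * A)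
    ((fan + 1) * ((Fintype.card L - 1) * 1)) k ht le_rfl (by omega)
  refine ⟨C, hC1, fun n m hn hm Z b hZ hexp => ?_⟩
  obtain ⟨e, κ, bb, d, hd, hdb, -, hdeg, hcnt, hnum⟩ := hC n m hn hm
  intro S G U rel Q hG hwf hQ href
  by_contra hcon
  rw [not_le] at hcon
  have hq2 : 2 ≤ q := (Fact.out : q.Prime).two_le
  have hinj : ∀ y : K, algebraMap K L y = 0 ↔ y = 0 := fun y => map_eq_zero _
  refine lower_of_expand (K := L) (ψ := ψ) hψ hq2 (Z := Z) (b := b) (k := k) (t := t) (T := 1)
    (fan := fan) (r := n / A) (D := n / (2 * A)) (e := e) (κ := κ) (d := d) (bb := bb) ht hk hZ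
    (fun I hI hIr => hexp I hI ?_) ?_ hd hdb hdeg hcnt (S := S) (hnum S hcon)
    (G := fun s => {g' | ∃ g ∈ G s, g' = fun x => algebraMap K L (g x)}) ?_ hwf
    (Q := fun u x => algebraMap K L (Q u x)) (fun u => polys_map (span_le_polys _ (hQ u))) ?_
  · rw [mul_comm]
    exact (Nat.le_div_iff_mul_le hA).1 hIr
  · rw [mul_comm 2 A, ← Nat.div_div_eq_div_mul]
    exact Nat.mul_div_le _ _
  · rintro s g' ⟨g, hg, rfl⟩
    exact Deg_map (hG s g hg)
  · have h1 : (fun u => {x | algebraMap K L (Q u x) = 0}) = fun u => {x | Q u x = 0} := by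
      funext u
      ext x
      exact hinj _
    rw [h1]
    exact href

/-- Disjunctions of linear equations over `K` are terms. -/
theorem NeedsTerms.lin {K : Type} [Field K] [Fintype K] {t b N M : ℕ} {V : Type} [Fintype V]
    {F : Set (Finset (V × Bool))} (h : NeedsTerms K t b N F) (ht : Fintype.card K ≤ t + 1)
    (hM : LinRefutes K b M F) : N ≤ M := by
  obtain ⟨A, hA, href⟩ := hM
  choose G hG hGA using fun i => (hA i).exists_term ht
  refine h M G (Fin M) (fun i j => i < j) (fun i => term (G i)) hG wellFounded_lt (fun i => ?_) ?_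
  · exact Submodule.subset_span ⟨i, rfl⟩
  · have h1 : (fun i => {x | term (G i) x = 0}) = A := funext fun i => (hGA i).symm
    rw [h1]
    exact href

open Classical in
/-- Almost all sparse linear systems mod `q` have refutations with a linear number of lines that are
disjunctions of linear equations mod `q`, but need exponentially many terms over a finite field of
another characteristic. -/
theorem separation (q : ℕ) [Fact q.Prime] (K : Type) [Field K] [Fintype K] (hK : (q : K) ≠ 0)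
    (t fan k c : ℕ) (ht : 1 ≤ t) (hk : 2 * t + 3 ≤ k) :
    ∃ C : ℕ, 1 ≤ C ∧ ∀ n m : ℕ, C ≤ n → 2 * n ≤ m → m ≤ c * n →
      n * ((systems n m k q).filter fun s => ¬
        ((∃ F : Finset (Finset ((Fin n × ZMod q) × Bool)), (∀ D, D ∈ F ↔ D ∈ cnf s.1 s.2) ∧
            F.card ≤ C * n ∧ ∀ D ∈ F, D.card ≤ C) ∧
          (∃ N ≤ C * n, LinRefutes (ZMod q) 2 N (cnf s.1 s.2)) ∧
          NeedsTerms K t fan (2 ^ (n / C)) (cnf s.1 s.2) ∧
          (Fintype.card K ≤ t + 1 →
            ∀ N, LinRefutes K fan N (cnf s.1 s.2) → 2 ^ (n / C) ≤ N))).card ≤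
        C * (systems n m k q).card := by
  obtain ⟨A, hA⟩ : ∃ A, A = 16 * (3 ^ (k + 1) * (c + 1) * k) ^ 2 * k := ⟨_, rfl⟩
  have hA1 : 1 ≤ A := by
    rw [hA]
    have h1 : 1 ≤ 3 ^ (k + 1) * (c + 1) * k :=
      Nat.mul_pos (Nat.mul_pos (pow_pos (by norm_num) _) (by omega)) (by omega)
    exact Nat.mul_pos (Nat.mul_pos (by norm_num) (Nat.pow_pos h1)) (by omega)
  obtain ⟨C1, hC1, hlow1⟩ := lower_main q K hK t fan k (c + 1) ht (by omega) hA1
  obtain ⟨R1, hR1⟩ : ∃ R1, R1 = (k * q + 1) * 2 ^ (k * q) + 1 := ⟨_, rfl⟩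
  obtain ⟨R2, hR2⟩ : ∃ R2, R2 = 1 + q * q + (c + 1) * q ^ k := ⟨_, rfl⟩
  have hq2 : 2 ≤ q := (Fact.out : q.Prime).two_le
  refine ⟨A + 1 + C1 + (c + 2) * R1 + R2 + (q + 2 + k), by omega, fun n m hn hnm hm => ?_⟩
  obtain ⟨C, hC⟩ : ∃ C, C = A + 1 + C1 + (c + 2) * R1 + R2 + (q + 2 + k) := ⟨_, rfl⟩
  rw [← hC] at hn ⊢
  have hn1 : 1 ≤ n := by omega
  have hm' : m ≤ (c + 1) * n := hm.trans (Nat.mul_le_mul_right _ (by omega))
  -- the two bad events
  obtain ⟨B1, hB1⟩ : ∃ B1 : Finset ((Fin m → Finset (Fin n)) × (Fin m → ZMod q)), B1 =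
    ((hyp n m k).filter fun Z => ¬ ∀ I : Finset (Fin m), I.Nonempty → A * I.card ≤ n →
      2 * t * I.card < (bd Z I).card) ×ˢ univ := ⟨_, rfl⟩
  obtain ⟨B2, hB2⟩ : ∃ B2 : Finset ((Fin m → Finset (Fin n)) × (Fin m → ZMod q)), B2 =
    ((hyp n m k) ×ˢ (univ : Finset (Fin m → ZMod q))).filter fun s =>
      ∃ x : Fin n → ZMod q, ∀ i, ∑ v ∈ s.1 i, x v = s.2 i := ⟨_, rfl⟩
  have hsys : (systems n m k q).card = (n.choose k) ^ m * q ^ m := by
    have h1 : systems n m k q = (hyp n m k) ×ˢ univ := rfl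
    rw [h1, card_product, card_hyp, card_univ, Fintype.card_fun, ZMod.card, Fintype.card_fin]
  have hc1 : n * B1.card ≤ A * (systems n m k q).card := by
    have h1 := expand_fail (c := c + 1) (k := k) (t := t) (by omega) ht hk hm' hA
    rw [hB1, card_product, card_univ, Fintype.card_fun, ZMod.card, Fintype.card_fin, hsys]
    calc n * (_ * q ^ m) = (n * _) * q ^ m := by rw [mul_assoc]
      _ ≤ (A * (n.choose k) ^ m) * q ^ m := Nat.mul_le_mul_right _ h1
      _ = _ := by rw [mul_assoc]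
  have hc2 : n * B2.card ≤ (systems n m k q).card := by
    rw [hB2, hsys]
    exact sat_few hq2 hnm
  refine le_trans (Nat.mul_le_mul_left n (card_le_card (t := B1 ∪ B2) fun s hs => ?_)) ?_
  · obtain ⟨hs1, hs2⟩ := mem_filter.1 hs
    by_contra hcon
    rw [mem_union, not_or] at hcon
    obtain ⟨hcon1, hcon2⟩ := hcon
    have hs3 : s.1 ∈ hyp n m k := (mem_product.1 hs1).1
    have hZ := mem_hyp.1 hs3
    have hexp : ∀ I : Finset (Fin m), I.Nonempty → A * I.card ≤ n →
        2 * t * I.card < (bd s.1 I).card := by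
      by_contra h
      apply hcon1
      rw [hB1]
      exact mem_product.2 ⟨mem_filter.2 ⟨hs3, h⟩, mem_univ _⟩
    have hunsat : ¬ ∃ x : Fin n → ZMod q, ∀ i, ∑ v ∈ s.1 i, x v = s.2 i := by
      intro h
      apply hcon2
      rw [hB2]
      exact mem_filter.2 ⟨mem_product.2 ⟨hs3, mem_univ _⟩, h⟩
    apply hs2
    refine ⟨?_, ?_, ?_, ?_⟩
    · obtain ⟨F, hF1, hF2, hF3⟩ := cnf_size s.2 fun i => (hZ i).le
      refine ⟨F, hF1, hF2.trans ?_, fun D hD => (hF3 D hD).trans (by omega)⟩
      calc n + n * (q * q) + m * q ^ k ≤ n + n * (q * q) + ((c + 1) * n) * q ^ k :=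
            Nat.add_le_add_left (Nat.mul_le_mul_right _ hm') _
        _ = R2 * n := by rw [hR2]; ring
        _ ≤ C * n := Nat.mul_le_mul_right _ (by omega)
    · obtain ⟨N, hN, hN2⟩ := upper (k := k) (b := s.2) (fun i => (hZ i).le) hn1 hunsat
      refine ⟨N, hN.trans ?_, hN2⟩
      rw [← hR1]
      calc (m + 1) * R1 ≤ ((c + 1) * n + n) * R1 :=
            Nat.mul_le_mul_right _ (Nat.add_le_add hm' hn1)
        _ = ((c + 2) * R1) * n := by ring
        _ ≤ C * n := Nat.mul_le_mul_right _ (by omega)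
    · have h1 := hlow1 n m (by omega) hm' s.1 s.2 (fun i => (hZ i).le) hexp
      intro S G U earlier Q h2 h3 h4 h5
      refine le_trans ?_ (h1 S G U earlier Q h2 h3 h4 h5)
      exact Nat.pow_le_pow_right (by norm_num) (Nat.div_le_div_left (by omega) hC1)
    · intro hKt N hN
      have h1 := hlow1 n m (by omega) hm' s.1 s.2 (fun i => (hZ i).le) hexp
      refine le_trans ?_ (h1.lin hKt hN)
      exact Nat.pow_le_pow_right (by norm_num) (Nat.div_le_div_left (by omega) hC1)
  · calc n * (B1 ∪ B2).card ≤ n * (B1.card + B2.card) :=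
          Nat.mul_le_mul_left _ (card_union_le _ _)
      _ = n * B1.card + n * B2.card := mul_add _ _ _
      _ ≤ A * (systems n m k q).card + (systems n m k q).card := Nat.add_le_add hc1 hc2
      _ = (A + 1) * (systems n m k q).card := by ring
      _ ≤ C * (systems n m k q).card := Nat.mul_le_mul_right _ (by omega)

end Pool.Agent.MP_9cec2c_lc.Sep
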