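import Pool.Agent.Lib.MP_9cec2c_lc.RSPar

/-!
The numbers for a larger alphabet.
-/

set_option autoImplicit false
set_option linter.unusedSectionVars false

namespace Pool.Agent.MP_9cec2c_lc.ResPoly

open Finset

/-- The numbers, for an alphabet with `a` letters. -/
theorem exists_params_alph (a F t θ w c A Q k : ℕ) (ht : 1 ≤ t) (hθ : t ≤ θ) (hA : 1 ≤ A) :
    ∃ C : ℕ, 1 ≤ C ∧ ∀ N m : ℕ, C ≤ N → m ≤ c * N → ∃ e κ b d : ℕ,
      d = e + 2 * t ∧ d + b ≤ N ∧ 1 ≤ b ∧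
      d + Q * (κ * ((F - 1) * t)) + k ≤ N / A ∧
      2 * m * (w.choose (θ + 1)) * (d + b) ^ (θ + 1) ≤ (b + 1) * N ^ (θ + 1) ∧
      ∀ S : ℕ, S < 2 ^ (N / C) →
        2 * (d + b).choose d * (S * (((e + 1) ^ t + 2 * (N * a) ^ t) ^ κ *
          ∑ i ∈ range (d + 1), N.choose i)) <
          (2 * ((e + 1) ^ t + (N * a) ^ t)) ^ κ * N.choose d := by
  set R := 2 * c * (w.choose (θ + 1)) * 2 ^ (θ + 1) + 1 with hR
  set β := A * Q * F * t with hβ
  obtain ⟨p, hp1, hp2⟩ := exists_p (3 + β + t + t * a + R + 4 * A) θ R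
  set P := 2 ^ p with hP
  have hPpos : 0 < P := Nat.pow_pos (by norm_num)
  have hR1 : 1 ≤ R := by omega
  -- sizes of `P`
  have hpP : p < P := Nat.lt_two_pow_self
  have hP8 : 8 ≤ P := by
    have : 2 ^ 3 ≤ 2 ^ p := Nat.pow_le_pow_right (by norm_num) (by omega)
    simpa [hP] using this
  have hPA : 4 * A ≤ P := by omega
  have hPR : 1 + R ≤ P := by omega
  have hθ1 : 1 ≤ θ := by omega
  have hPθ : P ≤ P ^ θ := by
    calc P = P ^ 1 := (pow_one P).symm
      _ ≤ P ^ θ := Nat.pow_le_pow_right hPpos hθ1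
  have hPθ1 : P ^ (θ + 1) = P * P ^ θ := by rw [pow_succ]; ring
  set M := 2 ^ (2 + t + t * a + t * p) with hM
  have hM1 : 1 ≤ M := Nat.one_le_two_pow
  have hexp : 3 + β + t + t * a + t * p ≤ p * (θ + 1) := by
    have h1 : t * p + p = p * (t + 1) := by ring
    have h2 : p * (t + 1) ≤ p * (θ + 1) := Nat.mul_le_mul_left _ (by omega)
    omega
  obtain ⟨g, hg⟩ : ∃ g, p * (θ + 1) = 3 + β + t + t * a + t * p + g := ⟨_, (Nat.add_sub_cancel' hexp).symm⟩
  set G := 2 ^ g with hG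
  -- `κ₀ = M * G = 2^(p(θ+1) - 1 - β)`
  have hMG : M * G * 2 ^ (β + 1) = P ^ (θ + 1) := by
    rw [hM, hG, hP, ← pow_mul, ← pow_add, ← pow_add, hg]
    congr 1; ring
  -- `G` is large
  have hGbig : 2 + (3 + p * θ) * R ≤ G := by
    have h1 : p ≤ 3 + β + t + t * a + g := by
      have h1 : t * p + p = p * (t + 1) := by ring
      have h2 : p * (t + 1) ≤ p * (θ + 1) := Nat.mul_le_mul_left _ (by omega)
      omega
    have h2 : 2 ^ p ≤ 2 ^ (3 + β + t + t * a) * G := by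
      rw [hG, ← pow_add]
      exact Nat.pow_le_pow_right (by norm_num) (by omega)
    have h3 : 2 ^ (3 + β + t + t * a) ≤ 2 ^ (3 + β + t + t * a + R + 4 * A) :=
      Nat.pow_le_pow_right (by norm_num) (by omega)
    have h4 : 2 ^ (3 + β + t + t * a) * (2 + (3 + p * θ) * R) ≤ 2 ^ (3 + β + t + t * a) * G :=
      (Nat.mul_le_mul_right _ h3).trans (hp2.trans h2)
    exact Nat.le_of_mul_le_mul_left h4 (Nat.pow_pos (by norm_num))
  -- the constant
  set C := P ^ (θ + 1) * (A * (2 * t + k) + 2 * t + 2 + 2) with hC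
  have hPP : 0 < P ^ (θ + 1) := Nat.pow_pos hPpos
  refine ⟨C, Nat.mul_pos hPP (by omega), ?_⟩
  intro N m hN hm
  set u := N / P ^ (θ + 1) with hu
  have hu0 : A * (2 * t + k) + 2 * t + 2 + 2 ≤ u := by
    rw [hu, Nat.le_div_iff_mul_le hPP, mul_comm]
    exact hN
  have huN : P ^ (θ + 1) * u ≤ N := Nat.mul_div_le N _
  have hNu : N ≤ 2 * (P ^ (θ + 1) * u) := by
    have h1 : N < P ^ (θ + 1) * (u + 1) := by
      rw [hu]
      exact Nat.lt_mul_div_succ N hPP
    have h2 : P ^ (θ + 1) * (u + 1) ≤ P ^ (θ + 1) * (2 * u) :=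
      Nat.mul_le_mul_left _ (by omega)
    have h3 : P ^ (θ + 1) * (2 * u) = 2 * (P ^ (θ + 1) * u) := by ring
    omega
  set e := P ^ θ * u with he
  set κ := M * G * u with hκ
  set b := R * u with hb
  have hu1 : 1 ≤ u := by omega
  have hb1 : 1 ≤ b := by rw [hb]; exact Nat.mul_pos hR1 hu1
  have hub : u ≤ b := by rw [hb]; exact Nat.le_mul_of_pos_left u hR1
  have hdb : e + 2 * t + b ≤ 2 * P ^ θ * u := by
    rw [he, hb]
    have h1 : (1 + R) * u ≤ P ^ θ * u := Nat.mul_le_mul_right _ (hPR.trans hPθ)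
    have h2 : (1 + R) * u = u + R * u := by ring
    have h3 : 2 * P ^ θ * u = P ^ θ * u + P ^ θ * u := by ring
    omega
  have hdbN : e + 2 * t + b ≤ N := by
    refine hdb.trans (le_trans ?_ huN)
    rw [hPθ1]
    exact Nat.mul_le_mul_right _ (Nat.mul_le_mul_right _ (by omega))
  refine ⟨e, κ, b, e + 2 * t, rfl, hdbN, hb1, ?_, ?_, ?_⟩
  · -- the degree
    rw [Nat.le_div_iff_mul_le (by omega)]
    refine le_trans ?_ huN
    -- `A e ≤ P^(θ+1) u / 4`
    have h1 : 4 * (A * e) ≤ P ^ (θ + 1) * u := by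
      rw [he, hPθ1]
      calc 4 * (A * (P ^ θ * u)) = (4 * A) * P ^ θ * u := by ring
        _ ≤ P * P ^ θ * u := Nat.mul_le_mul_right _ (Nat.mul_le_mul_right _ hPA)
    have h2 : 4 * (A * (2 * t + k)) ≤ P ^ (θ + 1) * u := by
      have : A * (2 * t + k) ≤ u := by omega
      have h4 : 4 ≤ P ^ (θ + 1) := by
        rw [hPθ1]
        calc 4 ≤ P := by omega
          _ ≤ P * P ^ θ := Nat.le_mul_of_pos_right _ (Nat.pow_pos hPpos)
      calc 4 * (A * (2 * t + k)) ≤ 4 * u := Nat.mul_le_mul_left _ this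
        _ ≤ P ^ (θ + 1) * u := Nat.mul_le_mul_right _ h4
    have h3 : 2 * (A * (Q * (κ * ((F - 1) * t)))) ≤ P ^ (θ + 1) * u := by
      have h5 : A * Q * (F - 1) * t ≤ β := by
        rw [hβ]
        exact Nat.mul_le_mul_right _ (Nat.mul_le_mul_left _ (Nat.sub_le F 1))
      have h6 : β ≤ 2 ^ β := Nat.lt_two_pow_self.le
      calc 2 * (A * (Q * (κ * ((F - 1) * t)))) = κ * (2 * (A * Q * (F - 1) * t)) := by ring
        _ ≤ κ * (2 * 2 ^ β) := Nat.mul_le_mul_left _ (Nat.mul_le_mul_left _ (h5.trans h6))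
        _ = M * G * 2 ^ (β + 1) * u := by rw [hκ, pow_succ]; ring
        _ = P ^ (θ + 1) * u := by rw [hMG]
    have h7 : (e + 2 * t + Q * (κ * ((F - 1) * t)) + k) * A =
        A * e + A * (2 * t + k) + A * (Q * (κ * ((F - 1) * t))) := by ring
    omega
  · -- the count
    have h1 : (e + 2 * t + b) ^ (θ + 1) ≤ (2 * P ^ θ * u) ^ (θ + 1) := Nat.pow_le_pow_left hdb _
    have h2 : (2 * P ^ θ * u) ^ (θ + 1) = 2 ^ (θ + 1) * ((P ^ (θ + 1) * u) ^ θ * u) := by
      rw [mul_pow, mul_pow, mul_pow, ← pow_mul, ← pow_mul, pow_succ u θ]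
      ring
    have h3 : (P ^ (θ + 1) * u) ^ θ ≤ N ^ θ := Nat.pow_le_pow_left huN _
    calc 2 * m * (w.choose (θ + 1)) * (e + 2 * t + b) ^ (θ + 1)
        ≤ 2 * (c * N) * (w.choose (θ + 1)) * (2 ^ (θ + 1) * ((P ^ (θ + 1) * u) ^ θ * u)) := by
          rw [← h2]
          exact Nat.mul_le_mul (Nat.mul_le_mul_right _ (Nat.mul_le_mul_left _ hm)) h1
      _ ≤ 2 * (c * N) * (w.choose (θ + 1)) * (2 ^ (θ + 1) * (N ^ θ * u)) := by
          exact Nat.mul_le_mul_left _ (Nat.mul_le_mul_left _ (Nat.mul_le_mul_right _ h3))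
      _ = (2 * c * (w.choose (θ + 1)) * 2 ^ (θ + 1)) * u * N ^ (θ + 1) := by ring
      _ ≤ (b + 1) * N ^ (θ + 1) := by
          refine Nat.mul_le_mul_right _ ?_
          rw [hb, hR, Nat.add_mul, one_mul]
          omega
  · intro S hS
    set X := (e + 1) ^ t with hX
    set Y := (N * a) ^ t with hY
    have hNC : N / C ≤ u := by
      have hPC : P ^ (θ + 1) ≤ C := by
        rw [hC]; exact Nat.le_mul_of_pos_right _ (by omega)
      exact Nat.div_le_div_left hPC hPP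
    have hS' : S < 2 ^ u := lt_of_lt_of_le hS (Nat.pow_le_pow_right (by norm_num) hNC)
    -- gain
    have hXY : X + 2 * Y ≤ M * X := by
      have h1 : N ≤ 2 * P * (e + 1) := by
        calc N ≤ 2 * (P ^ (θ + 1) * u) := hNu
          _ = 2 * P * e := by rw [hPθ1, he]; ring
          _ ≤ 2 * P * (e + 1) := Nat.mul_le_mul_left _ (Nat.le_succ _)
      have h1' : N * a ≤ (2 ^ (1 + a) * P) * (e + 1) := by
        calc N * a ≤ (2 * P * (e + 1)) * 2 ^ a := Nat.mul_le_mul h1 Nat.lt_two_pow_self.le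
          _ = (2 ^ (1 + a) * P) * (e + 1) := by rw [pow_add, pow_one]; ring
      have h2 : Y ≤ (2 ^ (1 + a) * P) ^ t * X := by
        rw [hY, hX, ← mul_pow]
        exact Nat.pow_le_pow_left h1' t
      have h3 : M = 4 * (2 ^ (1 + a) * P) ^ t := by
        rw [hM, hP, mul_pow, ← pow_mul, ← pow_mul, show (4 : ℕ) = 2 ^ 2 from rfl, ← pow_add,
          ← pow_add]
        congr 1; ring
      have h4 : 1 ≤ (2 ^ (1 + a) * P) ^ t :=
        Nat.one_le_pow _ _ (Nat.mul_pos (Nat.pow_pos (by norm_num)) hPpos)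
      have h5 : X ≤ (2 ^ (1 + a) * P) ^ t * X := Nat.le_mul_of_pos_left _ h4
      have h6 : 4 * (2 ^ (1 + a) * P) ^ t * X = 4 * ((2 ^ (1 + a) * P) ^ t * X) := by ring
      rw [h3, h6]
      omega
    have hgain : 2 ^ (G * u) * (X + 2 * Y) ^ κ ≤ (2 * (X + Y)) ^ κ := by
      have h1 := Nat.pow_le_pow_left (gain hM1 hXY) (G * u)
      rw [mul_pow, ← pow_mul, ← pow_mul] at h1
      have h2 : M * (G * u) = κ := by rw [hκ]; ring
      rw [h2] at h1
      exact h1
    -- loss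
    have hch : (e + 2 * t + b).choose (e + 2 * t) ≤ 2 ^ ((3 + p * θ) * R * u) := by
      have h1 : e + 2 * t + b ≤ (2 * P ^ θ) * b := by
        exact hdb.trans (Nat.mul_le_mul_left _ hub)
      refine (choose_le_of hb1 h1).trans ?_
      have h2 : 3 * (2 * P ^ θ) ≤ 2 ^ (3 + p * θ) := by
        rw [pow_add, pow_mul, ← hP]
        have : (2 : ℕ) ^ 3 = 8 := by norm_num
        rw [this]
        omega
      calc (3 * (2 * P ^ θ)) ^ b ≤ (2 ^ (3 + p * θ)) ^ b := Nat.pow_le_pow_left h2 b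
        _ = 2 ^ ((3 + p * θ) * R * u) := by rw [← pow_mul, hb]; congr 1; ring
    have hsum : ∑ i ∈ range (e + 2 * t + 1), N.choose i ≤ 2 * N.choose (e + 2 * t) := by
      refine sum_choose_le ?_
      have h1 : 3 * (e + 2 * t) ≤ 6 * P ^ θ * u := by
        have h2 : e + 2 * t ≤ 2 * P ^ θ * u := le_trans (Nat.le_add_right _ _) hdb
        have h3 : 6 * P ^ θ * u = 3 * (2 * P ^ θ * u) := by ring
        omega
      have h2 : 6 * P ^ θ * u ≤ P ^ (θ + 1) * u := by
        rw [hPθ1]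
        exact Nat.mul_le_mul_right _ (Nat.mul_le_mul_right _ (by omega))
      omega
    have hNd : 0 < N.choose (e + 2 * t) := Nat.choose_pos (le_trans (Nat.le_add_right _ _) hdbN)
    have hZ : 0 < X + 2 * Y := by
      have : 0 < X := by rw [hX]; exact Nat.pow_pos (Nat.succ_pos e)
      omega
    have hZk : 0 < (X + 2 * Y) ^ κ := Nat.pow_pos hZ
    have hexp2 : 2 + (3 + p * θ) * R * u + u ≤ G * u := by
      have h1 : (2 + (3 + p * θ) * R) * u ≤ G * u := Nat.mul_le_mul_right _ hGbig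
      have h2 : 2 ≤ u := by omega
      have h3 : (2 + (3 + p * θ) * R) * u = 2 * u + (3 + p * θ) * R * u := by ring
      omega
    calc 2 * (e + 2 * t + b).choose (e + 2 * t) * (S * ((X + 2 * Y) ^ κ *
          ∑ i ∈ range (e + 2 * t + 1), N.choose i))
        ≤ 2 * 2 ^ ((3 + p * θ) * R * u) * (S * ((X + 2 * Y) ^ κ * (2 * N.choose (e + 2 * t)))) := by
          refine Nat.mul_le_mul (Nat.mul_le_mul_left _ hch) ?_
          exact Nat.mul_le_mul_left _ (Nat.mul_le_mul_left _ hsum)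
      _ = S * (2 ^ (2 + (3 + p * θ) * R * u) * (X + 2 * Y) ^ κ * N.choose (e + 2 * t)) := by
          rw [pow_add 2 2]; ring
      _ < 2 ^ u * (2 ^ (2 + (3 + p * θ) * R * u) * (X + 2 * Y) ^ κ * N.choose (e + 2 * t)) := by
          refine Nat.mul_lt_mul_of_pos_right hS' ?_
          positivity
      _ = 2 ^ (2 + (3 + p * θ) * R * u + u) * (X + 2 * Y) ^ κ * N.choose (e + 2 * t) := by
          rw [pow_add 2 _ u]; ring
      _ ≤ 2 ^ (G * u) * (X + 2 * Y) ^ κ * N.choose (e + 2 * t) := by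
          refine Nat.mul_le_mul_right _ (Nat.mul_le_mul_right _ ?_)
          exact Nat.pow_le_pow_right (by norm_num) hexp2
      _ ≤ (2 * (X + Y)) ^ κ * N.choose (e + 2 * t) := Nat.mul_le_mul_right _ hgain

end Pool.Agent.MP_9cec2c_lc.ResPoly
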