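import Pool.Agent.Lib.MP_9cec2c_lc.SETrans
import Pool.Agent.Lib.MP_9cec2c_lc.SEDom
import Pool.Agent.Lib.MP_9cec2c_lc.SENum
import Pool.Agent.Lib.MP_9cec2c_lc.RSInd
import Pool.Agent.Lib.MP_9cec2c_lc.RSGood

/-!
The lower bound for expanding systems, over a field with a primitive `q`-th root of unity.
-/

set_option autoImplicit false
set_option linter.unusedSectionVars false

namespace Pool.Agent.MP_9cec2c_lc.Sep

open Finset
open ResPoly (mon rk cut)

section lower

variable {n m q : ℕ} [NeZero q] {K : Type} [Field K]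

/-- The assignment to the variables `(v, a)` given by a point of the cube. -/
def asg (x : Fin (n * q) → Bool) (w : Fin n × ZMod q) : Bool := x (idx n q w)

theorem asg_hot (x : Fin n → ZMod q) (v : Fin n) (a : ZMod q) :
    asg (hot x) (v, a) = decide (x v = a) := hot_idx x v a

theorem comp_asg_mem {t : ℕ} {g : (Fin n × ZMod q → Bool) → K} (hg : g ∈ Deg K (Fin n × ZMod q) t) :
    (fun x => g (asg x)) ∈ ResPoly.Poly K (n * q) t := by
  classical
  unfold Deg at hg
  induction hg using Submodule.span_induction with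
  | mem f hf =>
    obtain ⟨M, hM, hfM⟩ := hf
    have h1 : (fun x => f (asg x)) = mon K (M.image (idx n q)) := by
      funext x
      rw [hfM]
      unfold mon
      by_cases h : ∀ v ∈ M, asg x v = true
      · have h2 : ∀ i ∈ M.image (idx n q), x i = true := by
          intro i hi
          obtain ⟨w, hw, rfl⟩ := mem_image.1 hi
          exact h w hw
        rw [if_pos h2]
        exact if_pos h
      · have h2 : ¬ ∀ i ∈ M.image (idx n q), x i = true := fun h2 =>
          h fun w hw => h2 _ (mem_image_of_mem _ hw)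
        rw [if_neg h2]
        exact if_neg h
    rw [h1]
    exact ResPoly.mon_mem_Poly K (card_image_le.trans hM)
  | zero => exact Submodule.zero_mem _
  | add f g _ _ hf hg => exact Submodule.add_mem _ hf hg
  | smul c f _ hf => exact Submodule.smul_mem _ c hf

theorem comp_asg_polys {S : Type} {c : S → (Fin n × ZMod q → Bool) → K} {T : ℕ}
    {Q : (Fin n × ZMod q → Bool) → K} (hQ : Q ∈ polys c T) :
    (fun x => Q (asg x)) ∈ ResPoly.tmSpan K (fun s (x : Fin (n * q) → Bool) => c s (asg x)) T := by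
  unfold polys at hQ
  induction hQ using Submodule.span_induction with
  | mem f hf =>
    obtain ⟨w, hw, rfl⟩ := hf
    refine Submodule.subset_span ⟨w, hw, ?_⟩
    funext x
    rw [Finset.prod_apply, Finset.prod_apply]
  | zero => exact Submodule.zero_mem _
  | add f g _ _ hf hg => exact Submodule.add_mem _ hf hg
  | smul c f _ hf => exact Submodule.smul_mem _ c hf

/-- The points that violate an axiom. -/
def axF (Z : Fin m → Finset (Fin n)) (b : Fin m → ZMod q) :
    Option {p : Fin m × (Fin n → ZMod q) // ∑ v ∈ Z p.1, p.2 v ≠ b p.1} →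
      Set (Fin (n * q) → Bool)
  | none => ∅
  | some p => {x | ∀ v ∈ Z p.1.1, x (idx n q (v, p.1.2 v)) = true}

/-- The polynomial of an axiom. -/
def axP (K : Type) [Field K] (Z : Fin m → Finset (Fin n)) (b : Fin m → ZMod q) :
    Option {p : Fin m × (Fin n → ZMod q) // ∑ v ∈ Z p.1, p.2 v ≠ b p.1} →
      (Fin (n * q) → Bool) → K
  | none => 0
  | some p => mon K ((Z p.1.1).image fun v => idx n q (v, p.1.2 v))

theorem axP_deg {Z : Fin m → Finset (Fin n)} {b : Fin m → ZMod q} {k : ℕ}
    (hZ : ∀ i, (Z i).card ≤ k)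
    (o : Option {p : Fin m × (Fin n → ZMod q) // ∑ v ∈ Z p.1, p.2 v ≠ b p.1}) :
    axP K Z b o ∈ ResPoly.Poly K (n * q) k := by
  rcases o with _ | ⟨⟨i, y⟩, hy⟩
  · exact Submodule.zero_mem _
  · exact ResPoly.mon_mem_Poly K (card_image_le.trans (hZ i))

theorem axP_one {Z : Fin m → Finset (Fin n)} {b : Fin m → ZMod q}
    (o : Option {p : Fin m × (Fin n → ZMod q) // ∑ v ∈ Z p.1, p.2 v ≠ b p.1})
    {x : Fin (n * q) → Bool} (hx : x ∈ axF Z b o) : axP K Z b o x = 1 := by
  rcases o with _ | ⟨⟨i, y⟩, hy⟩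
  · exact absurd hx (Set.notMem_empty x)
  · show mon K ((Z i).image fun v => idx n q (v, y v)) x = 1
    unfold mon
    rw [if_pos]
    intro j hj
    obtain ⟨v, hv, rfl⟩ := mem_image.1 hj
    exact hx v hv

theorem axP_mem {ψ : AddChar (ZMod q) K} (hψ : Function.Injective ψ)
    {Z : Fin m → Finset (Fin n)} {b : Fin m → ZMod q} {k r D t : ℕ}
    (hexp : ∀ I : Finset (Fin m), I.Nonempty → I.card ≤ r → 2 * t * I.card < (bd Z I).card)
    (ht : 1 ≤ t) (hD : 2 * D ≤ r) (hD0 : 0 < D) (hZ : ∀ i, (Z i).card ≤ k) (hkD : k ≤ D)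
    (o : Option {p : Fin m × (Fin n → ZMod q) // ∑ v ∈ Z p.1, p.2 v ≠ b p.1}) :
    res K n q (axP K Z b o) ∈ ideal hψ Z b r D := by
  rcases o with _ | ⟨⟨i, y⟩, hy⟩
  · have h1 : res K n q (axP K Z b none) = 0 := map_zero _
    rw [h1]
    exact Submodule.zero_mem _
  · have h1 : ∀ x : Fin n → ZMod q,
        res K n q (mon K ((Z i).image fun v => idx n q (v, y v))) x =
        if ∀ v ∈ Z i, x v = y v then 1 else 0 := by
      intro x
      rw [res_apply]
      unfold mon
      congr 1
      apply propext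
      constructor
      · intro h v hv
        have h2 := h _ (mem_image_of_mem _ hv)
        rw [hot_idx] at h2
        exact of_decide_eq_true h2
      · intro h j hj
        obtain ⟨v, hv, rfl⟩ := mem_image.1 hj
        rw [hot_idx]
        exact decide_eq_true (h v hv)
    refine ideal_fals hψ hexp ht hD hD0 i ((hZ i).trans hkD) (fun x x' hxx => ?_)
      (fun x hx => ?_)
    · show res K n q (mon K ((Z i).image fun v => idx n q (v, y v))) x =
        res K n q (mon K ((Z i).image fun v => idx n q (v, y v))) x'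
      rw [h1, h1]
      congr 1
      apply propext
      constructor
      · intro h v hv
        rw [← hxx v hv]
        exact h v hv
      · intro h v hv
        rw [hxx v hv]
        exact h v hv
    · show res K n q (mon K ((Z i).image fun v => idx n q (v, y v))) x = 0
      rw [h1, if_neg]
      intro h
      exact hy (by rw [← hx]; exact (sum_congr rfl h).symm)

/-- Every one-hot point that satisfies the points outside the violations satisfies the clause. -/
theorem exists_axiom {Z : Fin m → Finset (Fin n)} {b : Fin m → ZMod q}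
    {C : Finset ((Fin n × ZMod q) × Bool)} (hC : C ∈ cnf Z b) :
    ∃ o : Option {p : Fin m × (Fin n → ZMod q) // ∑ v ∈ Z p.1, p.2 v ≠ b p.1},
      ∀ x ∈ Set.range (hot : (Fin n → ZMod q) → Fin (n * q) → Bool), x ∉ axF Z b o →
        Holds C (asg x) := by
  rcases hC with ⟨v, rfl⟩ | ⟨v, a, a', haa, rfl⟩ | ⟨i, y, hy, rfl⟩
  · refine ⟨none, fun x hx _ => ?_⟩
    obtain ⟨y, rfl⟩ := hx
    refine ⟨((v, y v), true), mem_image_of_mem _ (mem_univ _), ?_⟩
    show asg (hot y) (v, y v) = true
    rw [asg_hot]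
    exact decide_eq_true rfl
  · refine ⟨none, fun x hx _ => ?_⟩
    obtain ⟨y, rfl⟩ := hx
    by_cases hya : y v = a
    · refine ⟨((v, a'), false), mem_insert_of_mem (mem_singleton_self _), ?_⟩
      show asg (hot y) (v, a') = false
      rw [asg_hot]
      exact decide_eq_false fun h => haa (hya.symm.trans h)
    · refine ⟨((v, a), false), mem_insert_self _ _, ?_⟩
      show asg (hot y) (v, a) = false
      rw [asg_hot]
      exact decide_eq_false hya
  · refine ⟨some ⟨(i, y), hy⟩, fun x hx hxF => ?_⟩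
    have h1 : ¬ ∀ v ∈ Z i, x (idx n q (v, y v)) = true := hxF
    push Not at h1
    obtain ⟨v, hv, hvx⟩ := h1
    refine ⟨((v, y v), false), mem_image_of_mem _ hv, ?_⟩
    show asg x (v, y v) = false
    unfold asg
    exact Bool.eq_false_iff.2 hvx

variable [Fintype K]

/-- The lower bound for an expanding system. -/
theorem lower_of_expand {ψ : AddChar (ZMod q) K} (hψ : Function.Injective ψ) (hq : 2 ≤ q)
    {Z : Fin m → Finset (Fin n)} {b : Fin m → ZMod q} {k t T fan r D e κ d bb : ℕ} (ht : 1 ≤ t)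
    (hk : 1 ≤ k) (hZ : ∀ i, (Z i).card ≤ k)
    (hexp : ∀ I : Finset (Fin m), I.Nonempty → I.card ≤ r → 2 * t * I.card < (bd Z I).card)
    (hDr : 2 * D ≤ r) (hd : d = e + 2 * t) (hdb : d + bb ≤ n)
    (hdeg : d + ((fan + 1) * ((Fintype.card K - 1) * T)) * (κ * ((Fintype.card K - 1) * t)) + k ≤ D)
    (hcnt : 2 * m * (k.choose (t + 1)) * (d + bb) ^ (t + 1) ≤ (bb + 1) * n ^ (t + 1))
    {S : ℕ} (hnum : 2 * (d + bb).choose d * (S * (((e + 1) ^ t + 2 * (n * q) ^ t) ^ κ *
          ∑ i ∈ range (d + 1), n.choose i)) <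
          (2 * ((e + 1) ^ t + (n * q) ^ t)) ^ κ * n.choose d)
    {G : Fin S → Set ((Fin n × ZMod q → Bool) → K)} (hG : ∀ s, ∀ g ∈ G s, g ∈ Deg K _ t)
    {U : Type} {rel : U → U → Prop} (hwf : WellFounded rel)
    {Q : U → (Fin n × ZMod q → Bool) → K} (hQ : ∀ u, Q u ∈ polys (fun s => term (G s)) T)
    (href : IsRefutation (cnf Z b) fan rel fun u => {x | Q u x = 0}) : False := by
  classical
  obtain ⟨A, hA⟩ : ∃ A : Finset (Finset (Fin n)), A = (powersetCard d univ).filter fun T =>
      ∀ i, (T ∩ Z i).card ≤ t := ⟨_, rfl⟩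
  have hD0 : 0 < D := by omega
  have hkD : k ≤ D := by omega
  have hdD : d ≤ D := by omega
  have hAd : ∀ T ∈ A, T.card = d := by
    intro T hT
    rw [hA, mem_filter, mem_powersetCard] at hT
    exact hT.1.2
  -- the count of the good sets
  have hAc : n.choose d ≤ 2 * (d + bb).choose d * A.card := by
    have h1 := ResPoly.count_theta (V := Fin n) Z (w := k) (t := t) (d := d) (b := bb) hZ
      (by omega) (by rw [Fintype.card_fin]; exact hdb) (by
        rw [Fintype.card_fin, Fintype.card_fin]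
        calc 2 * (m * k.choose (t + 1)) * (d + bb) ^ (t + 1)
            = 2 * m * (k.choose (t + 1)) * (d + bb) ^ (t + 1) := by ring
          _ ≤ _ := hcnt)
    rw [Fintype.card_fin] at h1
    refine h1.trans (Nat.mul_le_mul_left _ (card_le_card fun T hT => ?_))
    rw [hA]
    simp only [mem_filter] at hT ⊢
    exact hT
  -- the ideal and the multipliers
  obtain ⟨J, hJ⟩ : ∃ J : Submodule K ((Fin (n * q) → Bool) → K),
    J = (ideal hψ Z b r D).comap (res K n q) := ⟨_, rfl⟩
  obtain ⟨W, hW⟩ : ∃ W : Submodule K ((Fin (n * q) → Bool) → K),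
    W = liftSpan ψ fun a => supp a ∈ A := ⟨_, rfl⟩
  have hWfin : Module.finrank K W = A.card * (q - 1) ^ d := by
    rw [hW, finrank_liftSpan hψ, ← card_supp_mem (q := q) A hAd]
    refine le_antisymm (card_le_card fun a ha => ?_) (card_le_card fun a ha => ?_)
    · simp only [mem_filter] at ha ⊢
      exact ha
    · simp only [mem_filter] at ha ⊢
      exact ha
  obtain ⟨X, hX⟩ : ∃ X : Set (Fin (n * q) → Bool), X = Set.range hot := ⟨_, rfl⟩
  have hmemX : ∀ x ∈ X, ∃ y : Fin n → ZMod q, hot y = x := by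
    intro x hx
    rw [hX] at hx
    exact hx
  refine ResPoly.no_refutation_of_ideal K (n := n * q) (Dm := X) (J := J) (W := W) (D := D)
    (d := d) (k := k) (b := fan) (T := T) (τ := κ * ((Fintype.card K - 1) * t))
    (A := (2 * ((e + 1) ^ t + (n * q) ^ t)) ^ κ)
    (B := ((e + 1) ^ t + 2 * (n * q) ^ t) ^ κ * rk K X (e + 2 * t))
    hdD ?_ ?_ ?_ ?_
    (axF Z b) (axP K Z b)
    ?_ ?_ ?_ (S := Fin S) (fun s x => term (G s) (asg x)) ?_ ?_ hwf
    (fun u x => Q u (asg x)) (fun u => comp_asg_polys (hQ u)) ?_ ?_ ?_ ?_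
  · intro p _ hp
    rw [hJ, Submodule.mem_comap]
    have h1 : res K n q p = 0 := by
      funext y
      rw [res_apply]
      exact hp _ (by rw [hX]; exact Set.mem_range_self y)
    rw [h1]
    exact Submodule.zero_mem _
  · intro e1 e2 p g he hp hpe hg
    rw [hJ, Submodule.mem_comap] at hp ⊢
    rw [mul_comm p g, res_mul]
    exact ideal_mul hψ b hexp ht hDr he hp (res_mem hψ hpe) (res_mem hψ hg)
  · rw [hW]
    exact liftSpan_le ψ fun a ha => (hAd _ ha).le
  · intro f hf hfJ
    rw [hW] at hf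
    rw [hJ, Submodule.mem_comap] at hfJ
    refine liftSpan_res_inj hψ hf (ideal_good hψ b hexp ?_ hfJ)
    refine chiSpan_mono (fun a ha => ?_) (res_liftSpan hf)
    rw [hA, mem_filter, mem_powersetCard] at ha
    exact ⟨by omega, ha.2⟩
  · intro o
    rw [hJ, Submodule.mem_comap]
    exact axP_mem hψ hexp ht hDr hD0 hZ hkD o
  · exact axP_deg hZ
  · intro o x _ hx
    exact axP_one o hx
  · intro s
    obtain ⟨G', hG'⟩ : ∃ G' : Set ((Fin (n * q) → Bool) → K),
      G' = {g | ∃ g' ∈ G s, g = fun x => g' (asg x)} := ⟨_, rfl⟩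
    obtain ⟨N, hN1, hN2, hN3, hN4⟩ := ResPoly.exists_approx_on K X (t := t) e
      (G := G') (by
        intro g hg
        rw [hG'] at hg
        obtain ⟨g', hg', rfl⟩ := hg
        exact comp_asg_mem (hG s g' hg')) κ
    refine ⟨N, hN1, X ∩ {x | (∃ g ∈ G', g x ≠ 0) ∧ N x ≠ 0}, fun x hxX hx => ?_, hd ▸ hN4⟩
    show N x = term (G s) (asg x)
    unfold term
    split_ifs with h
    · refine hN3 x fun g hg => ?_
      rw [hG'] at hg
      obtain ⟨g', hg', rfl⟩ := hg
      exact h g' hg'
    · push Not at h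
      obtain ⟨g', hg', hgx⟩ := h
      rcases hN2 x with h2 | h2
      · exact h2
      · refine absurd ⟨hxX, ⟨fun x => g' (asg x), ?_, hgx⟩, ?_⟩ hx
        · rw [hG']
          exact ⟨g', hg', rfl⟩
        · rw [h2]
          exact one_ne_zero
  · rw [Fintype.card_fin, hWfin]
    have h1 : rk K X (e + 2 * t) ≤ (q - 1) ^ d * ∑ i ∈ range (d + 1), n.choose i := by
      rw [hX, ← hd]
      exact rk_hot hψ hq d
    have hpos : 0 < 2 * (d + bb).choose d :=
      Nat.mul_pos (by norm_num) (Nat.choose_pos (Nat.le_add_right _ _))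
    have h2 : S * (((e + 1) ^ t + 2 * (n * q) ^ t) ^ κ * ∑ i ∈ range (d + 1), n.choose i) <
        (2 * ((e + 1) ^ t + (n * q) ^ t)) ^ κ * A.card := by
      refine Nat.lt_of_mul_lt_mul_left (a := 2 * (d + bb).choose d) ?_
      refine lt_of_lt_of_le hnum ?_
      calc (2 * ((e + 1) ^ t + (n * q) ^ t)) ^ κ * n.choose d
          ≤ (2 * ((e + 1) ^ t + (n * q) ^ t)) ^ κ * (2 * (d + bb).choose d * A.card) :=
            Nat.mul_le_mul_left _ hAc
        _ = _ := by ring
    have hq1 : 0 < (q - 1) ^ d := Nat.pow_pos (by omega)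
    calc S * (((e + 1) ^ t + 2 * (n * q) ^ t) ^ κ * rk K X (e + 2 * t))
        ≤ S * (((e + 1) ^ t + 2 * (n * q) ^ t) ^ κ *
          ((q - 1) ^ d * ∑ i ∈ range (d + 1), n.choose i)) :=
          Nat.mul_le_mul_left _ (Nat.mul_le_mul_left _ h1)
      _ = (S * (((e + 1) ^ t + 2 * (n * q) ^ t) ^ κ * ∑ i ∈ range (d + 1), n.choose i)) *
          (q - 1) ^ d := by ring
      _ < ((2 * ((e + 1) ^ t + (n * q) ^ t)) ^ κ * A.card) * (q - 1) ^ d :=
          Nat.mul_lt_mul_of_pos_right h2 hq1
      _ = _ := by ring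
  · intro u
    rcases href.1 u with ⟨C, hC, hCu⟩ | ⟨s, hs1, hs2, hs3⟩
    · left
      obtain ⟨o, ho⟩ := exists_axiom hC
      refine ⟨o, fun x hx hxF => hCu _ (ho x ?_ hxF)⟩
      rw [← hX]
      exact hx
    · right
      exact ⟨s, hs1, hs2, fun x _ hx => hs3 (asg x) hx⟩
  · obtain ⟨u, hu⟩ := href.2
    exact ⟨u, fun x _ => hu (asg x)⟩
  · refine le_trans ?_ hdeg
    have h1 : (Fintype.card K - 1) * (T * (κ * ((Fintype.card K - 1) * t))) ≤
        ((fan + 1) * ((Fintype.card K - 1) * T)) * (κ * ((Fintype.card K - 1) * t)) := by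
      calc (Fintype.card K - 1) * (T * (κ * ((Fintype.card K - 1) * t)))
          = 1 * ((Fintype.card K - 1) * T * (κ * ((Fintype.card K - 1) * t))) := by ring
        _ ≤ (fan + 1) * ((Fintype.card K - 1) * T * (κ * ((Fintype.card K - 1) * t))) :=
            Nat.mul_le_mul_right _ (by omega)
        _ = _ := by ring
    omega
  · refine le_trans ?_ hdeg
    have h1 : (fan + 1) * ((Fintype.card K - 1) * (T * (κ * ((Fintype.card K - 1) * t)))) =
        ((fan + 1) * ((Fintype.card K - 1) * T)) * (κ * ((Fintype.card K - 1) * t)) := by ring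
    omega

end lower

end Pool.Agent.MP_9cec2c_lc.Sep
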