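import Pool.Agent.Lib.MP_9cec2c_lc.SEBase

/-!
An ideal-like space that contains the violations of all equations of an expanding linear system
mod `q`, and no nonzero combination of good characters.
-/

set_option autoImplicit false
set_option linter.unusedSectionVars false

namespace Pool.Agent.MP_9cec2c_lc.Sep

open Finset

variable {n q : ℕ} {K : Type} [Field K]

/-! ### Characters -/

theorem mem_supp {ι : Type} [Fintype ι] {a : ι → ZMod q} {v : ι} : v ∈ supp a ↔ a v ≠ 0 := by
  unfold supp
  rw [mem_filter]
  exact and_iff_right (mem_univ v)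

theorem chi_add (ψ : AddChar (ZMod q) K) (a b : Fin n → ZMod q) :
    chi ψ (a + b) = chi ψ a * chi ψ b := by
  funext x
  rw [Pi.mul_apply]
  unfold chi
  rw [← AddChar.map_add_eq_mul, ← sum_add_distrib]
  congr 1
  refine sum_congr rfl fun v _ => ?_
  rw [Pi.add_apply, add_mul]

theorem chi_zero (ψ : AddChar (ZMod q) K) : chi ψ (0 : Fin n → ZMod q) = 1 := by
  funext x
  unfold chi
  have : ∑ v, (0 : Fin n → ZMod q) v * x v = 0 := by
    refine sum_eq_zero fun v _ => ?_
    rw [Pi.zero_apply, zero_mul]
  rw [this, AddChar.map_zero_eq_one]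
  rfl

/-- The character as a monoid homomorphism. -/
def chiHom (ψ : AddChar (ZMod q) K) (a : Fin n → ZMod q) :
    Multiplicative (Fin n → ZMod q) →* K where
  toFun x := chi ψ a (Multiplicative.toAdd x)
  map_one' := by
    show ψ (∑ v, a v * (0 : Fin n → ZMod q) v) = 1
    rw [sum_eq_zero fun v _ => ?_, AddChar.map_zero_eq_one]
    rw [Pi.zero_apply, mul_zero]
  map_mul' x y := by
    show ψ (∑ v, a v * (Multiplicative.toAdd x v + Multiplicative.toAdd y v)) = _
    unfold chi
    rw [← AddChar.map_add_eq_mul, ← sum_add_distrib]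
    congr 1
    refine sum_congr rfl fun v _ => ?_
    rw [mul_add]

theorem chiHom_inj {ψ : AddChar (ZMod q) K} (hψ : Function.Injective ψ) :
    Function.Injective (chiHom (n := n) ψ) := by
  intro a b h
  funext v
  have h1 := DFunLike.congr_fun h (Multiplicative.ofAdd (Pi.single v (1 : ZMod q)))
  have h2 : ∀ a : Fin n → ZMod q,
      chiHom ψ a (Multiplicative.ofAdd (Pi.single v (1 : ZMod q))) = ψ (a v) := by
    intro a
    show ψ (∑ u, a u * (Pi.single v (1 : ZMod q) : Fin n → ZMod q) u) = ψ (a v)
    rw [sum_eq_single v]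
    · rw [Pi.single_eq_same, mul_one]
    · intro u _ hu
      rw [Pi.single_eq_of_ne hu, mul_zero]
    · intro hv
      exact absurd (mem_univ v) hv
  rw [h2, h2] at h1
  exact hψ h1

theorem chi_linInd {ψ : AddChar (ZMod q) K} (hψ : Function.Injective ψ) :
    LinearIndependent K (chi ψ : (Fin n → ZMod q) → (Fin n → ZMod q) → K) :=
  (linearIndependent_monoidHom (Multiplicative (Fin n → ZMod q)) K).comp (chiHom ψ)
    (chiHom_inj hψ)

variable [NeZero q]

/-- The basis of characters. -/
noncomputable def chiBasis {ψ : AddChar (ZMod q) K} (hψ : Function.Injective ψ) (n : ℕ) :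
    Module.Basis (Fin n → ZMod q) K ((Fin n → ZMod q) → K) :=
  basisOfLinearIndependentOfCardEqFinrank (chi_linInd hψ) (by
    rw [Module.finrank_fintype_fun_eq_card])

variable {ψ : AddChar (ZMod q) K} (hψ : Function.Injective ψ)

theorem chiBasis_apply (a : Fin n → ZMod q) : chiBasis hψ n a = chi ψ a := by
  unfold chiBasis
  rw [coe_basisOfLinearIndependentOfCardEqFinrank]

/-- The coefficient of the character `a`. -/
noncomputable def coef (f : (Fin n → ZMod q) → K) (a : Fin n → ZMod q) : K :=
  (chiBasis hψ n).repr f a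

theorem coef_add (f g : (Fin n → ZMod q) → K) (a : Fin n → ZMod q) :
    coef hψ (f + g) a = coef hψ f a + coef hψ g a := by
  unfold coef
  rw [map_add]
  rfl

theorem coef_smul (c : K) (f : (Fin n → ZMod q) → K) (a : Fin n → ZMod q) :
    coef hψ (c • f) a = c * coef hψ f a := by
  unfold coef
  rw [map_smul]
  rfl

theorem coef_zero (a : Fin n → ZMod q) : coef hψ 0 a = 0 := by
  unfold coef
  rw [map_zero]
  rfl

theorem coef_chi (a b : Fin n → ZMod q) : coef hψ (chi ψ b) a = if b = a then 1 else 0 := by
  unfold coef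
  rw [← chiBasis_apply hψ, Module.Basis.repr_self, Finsupp.single_apply]

theorem sum_coef (f : (Fin n → ZMod q) → K) : ∑ a, coef hψ f a • chi ψ a = f := by
  have h := (chiBasis hψ n).sum_repr f
  refine Eq.trans (sum_congr rfl fun a _ => ?_) h
  rw [chiBasis_apply]
  rfl

theorem coef_ext {f : (Fin n → ZMod q) → K} (h : ∀ a, coef hψ f a = 0) : f = 0 := by
  rw [← sum_coef hψ f]
  refine sum_eq_zero fun a _ => ?_
  rw [h, zero_smul]

theorem mem_chiSpan {P : (Fin n → ZMod q) → Prop} {f : (Fin n → ZMod q) → K} :
    f ∈ chiSpan ψ P ↔ ∀ a, coef hψ f a ≠ 0 → P a := by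
  constructor
  · intro hf
    unfold chiSpan at hf
    induction hf using Submodule.span_induction with
    | mem f hf =>
      obtain ⟨b, hb, rfl⟩ := hf
      intro a ha
      rw [coef_chi] at ha
      by_cases hba : b = a
      · rw [← hba]
        exact hb
      · rw [if_neg hba] at ha
        exact absurd rfl ha
    | zero =>
      intro a ha
      exact absurd (coef_zero hψ a) ha
    | add f g _ _ hf hg =>
      intro a ha
      rw [coef_add] at ha
      by_cases h1 : coef hψ f a = 0
      · rw [h1, zero_add] at ha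
        exact hg a ha
      · exact hf a h1
    | smul c f _ hf =>
      intro a ha
      rw [coef_smul] at ha
      exact hf a (right_ne_zero_of_mul ha)
  · intro h
    rw [← sum_coef hψ f]
    refine Submodule.sum_mem _ fun a _ => ?_
    by_cases h1 : coef hψ f a = 0
    · rw [h1, zero_smul]
      exact Submodule.zero_mem _
    · exact Submodule.smul_mem _ _ (Submodule.subset_span ⟨a, h a h1, rfl⟩)

theorem coef_chi_mul (b : Fin n → ZMod q) (f : (Fin n → ZMod q) → K) (a : Fin n → ZMod q) :
    coef hψ (chi ψ b * f) a = coef hψ f (a - b) := by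
  have hf : chi ψ b * f = ∑ a', coef hψ f a' • chi ψ (b + a') := by
    conv_lhs => rw [← sum_coef hψ f]
    rw [mul_sum]
    refine sum_congr rfl fun a' _ => ?_
    rw [chi_add, mul_smul_comm]
  rw [hf]
  unfold coef
  rw [map_sum, Finsupp.finsetSum_apply]
  rw [sum_eq_single (a - b)]
  · have h1 : coef hψ (chi ψ (b + (a - b))) a = 1 := by
      rw [coef_chi, if_pos (by abel)]
    unfold coef at h1
    rw [map_smul, Finsupp.smul_apply, h1, smul_eq_mul, mul_one]
  · intro a' _ hne
    have h1 : coef hψ (chi ψ (b + a')) a = 0 := by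
      rw [coef_chi, if_neg]
      rintro rfl
      apply hne
      abel
    unfold coef at h1
    rw [map_smul, Finsupp.smul_apply, h1, smul_zero]
  · intro h
    exact absurd (mem_univ _) h

/-! ### Supports -/

theorem supp_add_card {a b : Fin n → ZMod q} :
    (supp (a + b)).card ≤ (supp a).card + (supp b).card := by
  refine le_trans (card_le_card ?_) (card_union_le _ _)
  intro v hv
  rw [mem_union, mem_supp, mem_supp]
  by_contra hcon
  rw [not_or, not_not, not_not] at hcon
  rw [mem_supp, Pi.add_apply, hcon.1, hcon.2, add_zero] at hv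
  exact hv rfl

theorem supp_sub {ι : Type} [Fintype ι] [DecidableEq ι] {a b : ι → ZMod q} :
    supp (a - b) ⊆ supp a ∪ supp b := by
  intro v hv
  rw [mem_union, mem_supp, mem_supp]
  by_contra hcon
  rw [not_or, not_not, not_not] at hcon
  rw [mem_supp, Pi.sub_apply, hcon.1, hcon.2, sub_zero] at hv
  exact hv rfl

theorem supp_add {ι : Type} [Fintype ι] [DecidableEq ι] {a b : ι → ZMod q} :
    supp (a + b) ⊆ supp a ∪ supp b := by
  intro v hv
  rw [mem_union, mem_supp, mem_supp]
  by_contra hcon
  rw [not_or, not_not, not_not] at hcon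
  rw [mem_supp, Pi.add_apply, hcon.1, hcon.2, add_zero] at hv
  exact hv rfl

variable {ι : Type} [Fintype ι] [DecidableEq ι]

theorem comb_add (Z : ι → Finset (Fin n)) (c c' : ι → ZMod q) :
    comb Z (c + c') = comb Z c + comb Z c' := by
  funext v
  rw [Pi.add_apply]
  unfold comb
  rw [← sum_add_distrib]
  refine sum_congr rfl fun i _ => ?_
  split_ifs
  · rfl
  · rw [add_zero]

theorem comb_sub (Z : ι → Finset (Fin n)) (c c' : ι → ZMod q) :
    comb Z (c - c') = comb Z c - comb Z c' := by
  have h := comb_add Z (c - c') c'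
  rw [sub_add_cancel] at h
  rw [h, add_sub_cancel_right]

theorem comb_zero (Z : ι → Finset (Fin n)) : comb Z (0 : ι → ZMod q) = 0 := by
  funext v
  unfold comb
  refine sum_eq_zero fun i _ => ?_
  split_ifs <;> rfl

theorem bd_subset_supp (Z : ι → Finset (Fin n)) (c : ι → ZMod q) :
    bd Z (supp c) ⊆ supp (comb Z c) := by
  intro v hv
  unfold bd at hv
  rw [mem_filter] at hv
  obtain ⟨i, hi⟩ := card_eq_one.1 hv.2
  have hi' : i ∈ (supp c).filter fun i => v ∈ Z i := by
    rw [hi]
    exact mem_singleton_self i
  rw [mem_filter] at hi'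
  rw [mem_supp]
  unfold comb
  rw [sum_eq_single i]
  · rw [if_pos hi'.2]
    exact mem_supp.1 hi'.1
  · intro j _ hj
    split_ifs with hvj
    · by_contra hcj
      have : j ∈ (supp c).filter fun i => v ∈ Z i := mem_filter.2 ⟨mem_supp.2 hcj, hvj⟩
      rw [hi, mem_singleton] at this
      exact hj this
    · rfl
  · intro h
    exact absurd (mem_univ i) h

theorem supp_comb_subset (Z : ι → Finset (Fin n)) (c : ι → ZMod q) :
    supp (comb Z c) ⊆ (supp c).biUnion Z := by
  intro v hv
  rw [mem_supp] at hv
  unfold comb at hv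
  obtain ⟨i, _, hi⟩ := exists_ne_zero_of_sum_ne_zero hv
  split_ifs at hi with h
  · exact mem_biUnion.2 ⟨i, mem_supp.2 hi, h⟩
  · exact absurd rfl hi

/-! ### The ideal -/

section Ideal

variable (Z : ι → Finset (Fin n)) (b : ι → ZMod q) (r D t : ℕ)

/-- The small combinations. -/
def small (ι : Type) [Fintype ι] [DecidableEq ι] (q r : ℕ) [NeZero q] : Finset (ι → ZMod q) :=
  univ.filter fun c => (supp c).card ≤ r

/-- The functional attached to the class of `a`. -/
noncomputable def fnl (a : Fin n → ZMod q) (f : (Fin n → ZMod q) → K) : K :=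
  ∑ c ∈ small ι q r, ψ (∑ i, c i * b i) * coef hψ f (a + comb Z c)

/-- The functions of degree at most `D` that vanish modulo the equations. -/
noncomputable def ideal : Submodule K ((Fin n → ZMod q) → K) where
  carrier := {f | f ∈ Poly ψ n D ∧ ∀ a, (supp a).card ≤ D → fnl hψ Z b r a f = 0}
  add_mem' := by
    rintro f g ⟨hf, hf'⟩ ⟨hg, hg'⟩
    refine ⟨Submodule.add_mem _ hf hg, fun a ha => ?_⟩
    have h : fnl hψ Z b r a (f + g) = fnl hψ Z b r a f + fnl hψ Z b r a g := by
      unfold fnl
      rw [← sum_add_distrib]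
      refine sum_congr rfl fun c _ => ?_
      rw [coef_add, mul_add]
    rw [h, hf' a ha, hg' a ha, add_zero]
  zero_mem' := by
    refine ⟨Submodule.zero_mem _, fun a _ => ?_⟩
    unfold fnl
    refine sum_eq_zero fun c _ => ?_
    rw [coef_zero, mul_zero]
  smul_mem' := by
    rintro s f ⟨hf, hf'⟩
    refine ⟨Submodule.smul_mem _ _ hf, fun a ha => ?_⟩
    have h : fnl hψ Z b r a (s • f) = s * fnl hψ Z b r a f := by
      unfold fnl
      rw [mul_sum]
      refine sum_congr rfl fun c _ => ?_
      rw [coef_smul]
      ring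
    rw [h, hf' a ha, mul_zero]

theorem mem_ideal {f : (Fin n → ZMod q) → K} :
    f ∈ ideal hψ Z b r D ↔ f ∈ Poly ψ n D ∧ ∀ a, (supp a).card ≤ D → fnl hψ Z b r a f = 0 :=
  Iff.rfl

variable {Z r D t}

/-- Expansion makes the combinations with small value small. -/
theorem supp_small (hexp : ∀ I : Finset ι, I.Nonempty → I.card ≤ r → 2 * t * I.card < (bd Z I).card)
    (ht : 1 ≤ t) {c : ι → ZMod q} (hc : (supp c).card ≤ r)
    (hu : (supp (comb Z c)).card ≤ 2 * D) : (supp c).card ≤ D ∧ (0 < D → (supp c).card < D) := by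
  by_cases hne : (supp c).Nonempty
  · have h1 := hexp _ hne hc
    have h2 := card_le_card (bd_subset_supp Z c)
    have h3 : 2 * 1 * (supp c).card ≤ 2 * t * (supp c).card :=
      Nat.mul_le_mul_right _ (Nat.mul_le_mul_left _ ht)
    omega
  · rw [not_nonempty_iff_eq_empty] at hne
    rw [hne, card_empty]
    omega

theorem comb_eq_zero (hexp : ∀ I : Finset ι, I.Nonempty → I.card ≤ r →
    2 * t * I.card < (bd Z I).card) {c : ι → ZMod q} (hc : (supp c).card ≤ r)
    (hu : comb Z c = 0) : c = 0 := by
  by_contra hne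
  have hne' : (supp c).Nonempty := by
    rw [nonempty_iff_ne_empty]
    intro hem
    apply hne
    funext i
    by_contra hi
    have : i ∈ supp c := mem_supp.2 hi
    rw [hem] at this
    exact notMem_empty i this
  have h1 := hexp _ hne' hc
  have h2 := card_le_card (bd_subset_supp Z c)
  have h3 : supp (comb Z c) = ∅ := by
    rw [hu]
    ext v
    rw [mem_supp]
    constructor
    · intro h
      exact absurd rfl h
    · intro h
      exact absurd h (notMem_empty v)
  rw [h3, card_empty] at h2
  omega

/-- Closure under multiplication by a character. -/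
theorem ideal_chi_mul (hexp : ∀ I : Finset ι, I.Nonempty → I.card ≤ r →
    2 * t * I.card < (bd Z I).card) (ht : 1 ≤ t) (hD : 2 * D ≤ r) {e e' : ℕ} (hee : e + e' ≤ D)
    {p : (Fin n → ZMod q) → K} (hp : p ∈ ideal hψ Z b r D) (hpe : p ∈ Poly ψ n e)
    {s : Fin n → ZMod q} (hs : (supp s).card ≤ e') : chi ψ s * p ∈ ideal hψ Z b r D := by
  classical
  have hpe' := (mem_chiSpan hψ).1 hpe
  refine (mem_ideal hψ Z b r D).2 ⟨?_, ?_⟩
  · refine (mem_chiSpan hψ).2 fun a ha => ?_
    rw [coef_chi_mul] at ha
    have h1 := hpe' _ ha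
    have h2 : a = (a - s) + s := by abel
    rw [h2]
    have h3 := supp_add_card (a := a - s) (b := s)
    omega
  · intro a ha
    by_cases hall : ∀ c ∈ small ι q r, coef hψ p (a + comb Z c - s) = 0
    · unfold fnl
      refine sum_eq_zero fun c hc => ?_
      rw [coef_chi_mul, hall c hc, mul_zero]
    · push Not at hall
      obtain ⟨c0, hc0, hne⟩ := hall
      have hc0' : (supp c0).card ≤ r := (mem_filter.1 hc0).2
      set a' : Fin n → ZMod q := a + comb Z c0 - s with ha'
      have hwa' : (supp a').card ≤ e := hpe' _ hne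
      have hbase : fnl hψ Z b r a' p = 0 := ((mem_ideal hψ Z b r D).1 hp).2 a' (by omega)
      have hu0 : (supp (comb Z c0)).card ≤ 2 * D := by
        have h1 : comb Z c0 = (a' + s) - a := by
          rw [ha']
          abel
        rw [h1]
        have h2 := card_le_card (supp_sub (a := a' + s) (b := a))
        have h3 := card_union_le (supp (a' + s)) (supp a)
        have h4 := supp_add_card (a := a') (b := s)
        omega
      have hc0D := (supp_small hexp ht hc0' hu0).1
      have hgoal : fnl hψ Z b r a (chi ψ s * p) =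
          ψ (∑ i, c0 i * b i) * fnl hψ Z b r a' p := by
        unfold fnl
        rw [mul_sum]
        rw [← sum_filter_add_sum_filter_not (small ι q r)
          (fun c => coef hψ p (a + comb Z c - s) ≠ 0)]
        rw [← sum_filter_add_sum_filter_not (small ι q r)
          (fun c => coef hψ p (a' + comb Z c) ≠ 0)
          (fun c => ψ (∑ i, c0 i * b i) * (ψ (∑ i, c i * b i) * coef hψ p (a' + comb Z c)))]
        have hz1 : ∑ c ∈ (small ι q r).filter (fun c => ¬ coef hψ p (a + comb Z c - s) ≠ 0),
            ψ (∑ i, c i * b i) * coef hψ (chi ψ s * p) (a + comb Z c) = 0 := by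
          refine sum_eq_zero fun c hc => ?_
          have := (mem_filter.1 hc).2
          rw [not_not] at this
          rw [coef_chi_mul, this, mul_zero]
        have hz2 : ∑ c ∈ (small ι q r).filter (fun c => ¬ coef hψ p (a' + comb Z c) ≠ 0),
            ψ (∑ i, c0 i * b i) * (ψ (∑ i, c i * b i) * coef hψ p (a' + comb Z c)) = 0 := by
          refine sum_eq_zero fun c hc => ?_
          have := (mem_filter.1 hc).2
          rw [not_not] at this
          rw [this, mul_zero, mul_zero]
        rw [hz1, hz2, add_zero, add_zero]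
        refine sum_bij' (fun c _ => c - c0) (fun c _ => c + c0) ?_ ?_ ?_ ?_ ?_
        · intro c hc
          obtain ⟨hc1, hc2⟩ := mem_filter.1 hc
          have hc1' : (supp c).card ≤ r := (mem_filter.1 hc1).2
          have hwa : (supp (a + comb Z c - s)).card ≤ e := hpe' _ hc2
          have hu : (supp (comb Z c)).card ≤ 2 * D := by
            have h1 : comb Z c = ((a + comb Z c - s) + s) - a := by abel
            rw [h1]
            have h2 := card_le_card (supp_sub (a := (a + comb Z c - s) + s) (b := a))
            have h3 := card_union_le (supp ((a + comb Z c - s) + s)) (supp a)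
            have h4 := supp_add_card (a := a + comb Z c - s) (b := s)
            omega
          have hcD := (supp_small hexp ht hc1' hu).1
          have hdiff : (supp (c - c0)).card ≤ r := by
            have h2 := card_le_card (supp_sub (a := c) (b := c0))
            have h3 := card_union_le (supp c) (supp c0)
            omega
          refine mem_filter.2 ⟨mem_filter.2 ⟨mem_univ _, hdiff⟩, ?_⟩
          have h1 : a' + comb Z (c - c0) = a + comb Z c - s := by
            rw [ha', comb_sub]
            abel
          rw [h1]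
          exact hc2
        · intro c hc
          obtain ⟨hc1, hc2⟩ := mem_filter.1 hc
          have hc1' : (supp c).card ≤ r := (mem_filter.1 hc1).2
          have hwa : (supp (a' + comb Z c)).card ≤ e := hpe' _ hc2
          have hu : (supp (comb Z c)).card ≤ 2 * D := by
            have h1 : comb Z c = (a' + comb Z c) - a' := by abel
            rw [h1]
            have h2 := card_le_card (supp_sub (a := a' + comb Z c) (b := a'))
            have h3 := card_union_le (supp (a' + comb Z c)) (supp a')
            omega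
          have hcD := (supp_small hexp ht hc1' hu).1
          have hsum : (supp (c + c0)).card ≤ r := by
            have h2 := card_le_card (supp_add (a := c) (b := c0))
            have h3 := card_union_le (supp c) (supp c0)
            omega
          refine mem_filter.2 ⟨mem_filter.2 ⟨mem_univ _, hsum⟩, ?_⟩
          have h1 : a + comb Z (c + c0) - s = a' + comb Z c := by
            rw [ha', comb_add]
            abel
          rw [h1]
          exact hc2
        · intro c _
          exact sub_add_cancel c c0
        · intro c _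
          exact add_sub_cancel_right c c0
        · intro c _
          rw [coef_chi_mul]
          have h1 : a' + comb Z (c - c0) = a + comb Z c - s := by
            rw [ha', comb_sub]
            abel
          rw [h1, ← mul_assoc, ← AddChar.map_add_eq_mul]
          congr 2
          rw [← sum_add_distrib]
          refine sum_congr rfl fun i _ => ?_
          rw [Pi.sub_apply]
          ring
      rw [hgoal, hbase, mul_zero]

theorem ideal_mul (hexp : ∀ I : Finset ι, I.Nonempty → I.card ≤ r →
    2 * t * I.card < (bd Z I).card) (ht : 1 ≤ t) (hD : 2 * D ≤ r) {e e' : ℕ} (hee : e + e' ≤ D)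
    {p g : (Fin n → ZMod q) → K} (hp : p ∈ ideal hψ Z b r D) (hpe : p ∈ Poly ψ n e)
    (hg : g ∈ Poly ψ n e') : g * p ∈ ideal hψ Z b r D := by
  unfold Poly chiSpan at hg
  induction hg using Submodule.span_induction with
  | mem f hf =>
    obtain ⟨s, hs, rfl⟩ := hf
    exact ideal_chi_mul hψ b hexp ht hD hee hp hpe hs
  | zero =>
    rw [zero_mul]
    exact Submodule.zero_mem _
  | add f g _ _ hf hg =>
    rw [add_mul]
    exact Submodule.add_mem _ hf hg
  | smul c f _ hf =>
    rw [smul_mul_assoc]
    exact Submodule.smul_mem _ _ hf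

/-- The equations hold modulo the ideal. -/
theorem ideal_eq (hexp : ∀ I : Finset ι, I.Nonempty → I.card ≤ r →
    2 * t * I.card < (bd Z I).card) (ht : 1 ≤ t) (hD : 2 * D ≤ r) (i : ι) {s : Fin n → ZMod q}
    (hs : (supp s).card ≤ D) (hs' : (supp (s + comb Z (Pi.single i 1))).card ≤ D) (hD0 : 0 < D) :
    chi ψ (s + comb Z (Pi.single i 1)) - ψ (b i) • chi ψ s ∈ ideal hψ Z b r D := by
  classical
  refine (mem_ideal hψ Z b r D).2 ⟨Submodule.sub_mem _ (Submodule.subset_span ⟨_, hs', rfl⟩)
    (Submodule.smul_mem _ _ (Submodule.subset_span ⟨_, hs, rfl⟩)), fun a ha => ?_⟩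
  have hone : (supp (Pi.single i 1 : ι → ZMod q)).card ≤ 1 := by
    refine le_trans (card_le_card (t := {i}) ?_) (card_singleton i).le
    intro j hj
    rw [mem_singleton]
    by_contra hji
    rw [mem_supp, Pi.single_eq_of_ne hji] at hj
    exact hj rfl
  have h1 : fnl hψ Z b r a (chi ψ (s + comb Z (Pi.single i 1)) - ψ (b i) • chi ψ s) =
      ∑ c ∈ (small ι q r).filter (fun c => s + comb Z (Pi.single i 1) = a + comb Z c),
        ψ (∑ j, c j * b j) -
      ∑ c ∈ (small ι q r).filter (fun c => s = a + comb Z c), ψ (∑ j, c j * b j) * ψ (b i) := by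
    unfold fnl
    rw [sum_filter, sum_filter, ← sum_sub_distrib]
    refine sum_congr rfl fun c _ => ?_
    rw [sub_eq_add_neg, coef_add, ← neg_one_smul K, coef_smul, coef_smul, coef_chi, coef_chi]
    split_ifs <;> ring
  rw [h1, sub_eq_zero]
  refine sum_bij' (fun c _ => c - Pi.single i 1) (fun c _ => c + Pi.single i 1) ?_ ?_ ?_ ?_ ?_
  · intro c hc
    obtain ⟨hc1, hc2⟩ := mem_filter.1 hc
    have hc1' : (supp c).card ≤ r := (mem_filter.1 hc1).2
    have hu : (supp (comb Z c)).card ≤ 2 * D := by
      have h2 : comb Z c = (s + comb Z (Pi.single i 1)) - a := by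
        rw [hc2]
        abel
      rw [h2]
      have h3 := card_le_card (supp_sub (a := s + comb Z (Pi.single i 1)) (b := a))
      have h4 := card_union_le (supp (s + comb Z (Pi.single i 1))) (supp a)
      omega
    have hcD := (supp_small hexp ht hc1' hu).2 hD0
    have hdiff : (supp (c - Pi.single i 1)).card ≤ r := by
      have h2 := card_le_card (supp_sub (a := c) (b := Pi.single i 1))
      have h3 := card_union_le (supp c) (supp (Pi.single i 1 : ι → ZMod q))
      omega
    refine mem_filter.2 ⟨mem_filter.2 ⟨mem_univ _, hdiff⟩, ?_⟩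
    rw [comb_sub]
    have h2 : s = (s + comb Z (Pi.single i 1)) - comb Z (Pi.single i 1) := by abel
    rw [h2, hc2]
    abel
  · intro c hc
    obtain ⟨hc1, hc2⟩ := mem_filter.1 hc
    have hc1' : (supp c).card ≤ r := (mem_filter.1 hc1).2
    have hu : (supp (comb Z c)).card ≤ 2 * D := by
      have h2 : comb Z c = s - a := by
        rw [hc2]
        abel
      rw [h2]
      have h3 := card_le_card (supp_sub (a := s) (b := a))
      have h4 := card_union_le (supp s) (supp a)
      omega
    have hcD := (supp_small hexp ht hc1' hu).2 hD0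
    have hsum : (supp (c + Pi.single i 1)).card ≤ r := by
      have h2 := card_le_card (supp_add (a := c) (b := Pi.single i 1))
      have h3 := card_union_le (supp c) (supp (Pi.single i 1 : ι → ZMod q))
      omega
    refine mem_filter.2 ⟨mem_filter.2 ⟨mem_univ _, hsum⟩, ?_⟩
    rw [comb_add, ← add_assoc, ← hc2]
  · intro c _
    exact sub_add_cancel c _
  · intro c _
    exact add_sub_cancel_right c _
  · intro c _
    rw [← AddChar.map_add_eq_mul]
    congr 1
    have h2 : b i = ∑ j, (Pi.single i 1 : ι → ZMod q) j * b j := by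
      rw [sum_eq_single i]
      · rw [Pi.single_eq_same, one_mul]
      · intro j _ hj
        rw [Pi.single_eq_of_ne hj, zero_mul]
      · intro h
        exact absurd (mem_univ i) h
    conv_rhs => rw [h2]
    rw [← sum_add_distrib]
    refine sum_congr rfl fun j _ => ?_
    rw [Pi.sub_apply]
    ring

/-- Good characters are independent modulo the ideal. -/
theorem ideal_good (hexp : ∀ I : Finset ι, I.Nonempty → I.card ≤ r →
    2 * t * I.card < (bd Z I).card) {f : (Fin n → ZMod q) → K}
    (hf : f ∈ chiSpan ψ fun a => (supp a).card ≤ D ∧ ∀ i, (supp a ∩ Z i).card ≤ t)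
    (hfJ : f ∈ ideal hψ Z b r D) : f = 0 := by
  classical
  have hf' := (mem_chiSpan hψ).1 hf
  refine coef_ext hψ fun a => ?_
  by_contra hne
  obtain ⟨haD, hat⟩ := hf' a hne
  have h0 := ((mem_ideal hψ Z b r D).1 hfJ).2 a haD
  apply hne
  unfold fnl at h0
  rw [sum_eq_single (0 : ι → ZMod q)] at h0
  · rw [comb_zero, add_zero] at h0
    have h1 : ∑ i, (0 : ι → ZMod q) i * b i = 0 := by
      refine sum_eq_zero fun i _ => ?_
      rw [Pi.zero_apply, zero_mul]
    rw [h1, AddChar.map_zero_eq_one, one_mul] at h0
    exact h0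
  · intro c hc hc0
    by_contra hne2
    have hne3 : coef hψ f (a + comb Z c) ≠ 0 := right_ne_zero_of_mul hne2
    obtain ⟨-, hat'⟩ := hf' _ hne3
    have hc' : (supp c).card ≤ r := (mem_filter.1 hc).2
    have hnem : (supp c).Nonempty := by
      rw [nonempty_iff_ne_empty]
      intro hem
      apply hc0
      funext i
      by_contra hi
      have : i ∈ supp c := mem_supp.2 hi
      rw [hem] at this
      exact notMem_empty i this
    have h1 := hexp _ hnem hc'
    have h2 := card_le_card (bd_subset_supp Z c)
    have h3 : supp (comb Z c) ⊆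
        (supp c).biUnion fun i => (supp a ∩ Z i) ∪ (supp (a + comb Z c) ∩ Z i) := by
      intro v hv
      obtain ⟨i, hi, hvi⟩ := mem_biUnion.1 (supp_comb_subset Z c hv)
      refine mem_biUnion.2 ⟨i, hi, ?_⟩
      rw [mem_union, mem_inter, mem_inter]
      by_cases hva : v ∈ supp a
      · exact Or.inl ⟨hva, hvi⟩
      · refine Or.inr ⟨?_, hvi⟩
        rw [mem_supp, Pi.add_apply]
        rw [mem_supp, not_not] at hva
        rw [hva, zero_add]
        exact mem_supp.1 hv
    have h4 : (supp (comb Z c)).card ≤ ∑ i ∈ supp c, (t + t) := by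
      refine le_trans (card_le_card h3) (le_trans card_biUnion_le (sum_le_sum fun i _ => ?_))
      have h5 := card_union_le (supp a ∩ Z i) (supp (a + comb Z c) ∩ Z i)
      have h6 := hat i
      have h7 := hat' i
      omega
    rw [sum_const, smul_eq_mul] at h4
    have h5 : (supp c).card * (t + t) = 2 * t * (supp c).card := by ring
    omega
  · intro h
    refine absurd ?_ h
    refine mem_filter.2 ⟨mem_univ _, ?_⟩
    have h1 : supp (0 : ι → ZMod q) = ∅ := by
      ext v
      rw [mem_supp]
      constructor
      · intro h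
        exact absurd rfl h
      · intro h
        exact absurd h (notMem_empty v)
    rw [h1, card_empty]
    exact Nat.zero_le r

end Ideal

/-! ### Functions of few coordinates -/

theorem coef_shift (f : (Fin n → ZMod q) → K) (y a : Fin n → ZMod q) :
    coef hψ (fun x => f (x + y)) a = chi ψ a y * coef hψ f a := by
  have h1 : (fun x => f (x + y)) = ∑ a', (coef hψ f a' * chi ψ a' y) • chi ψ a' := by
    funext x
    conv_lhs => rw [← sum_coef hψ f]
    rw [Finset.sum_apply, Finset.sum_apply]
    refine sum_congr rfl fun a' _ => ?_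
    rw [Pi.smul_apply, Pi.smul_apply, smul_eq_mul, smul_eq_mul]
    have h2 : chi ψ a' (x + y) = chi ψ a' x * chi ψ a' y := by
      unfold chi
      rw [← AddChar.map_add_eq_mul, ← sum_add_distrib]
      congr 1
      refine sum_congr rfl fun v _ => ?_
      rw [Pi.add_apply, mul_add]
    rw [h2]
    ring
  rw [h1]
  unfold coef
  rw [map_sum, Finsupp.finsetSum_apply, sum_eq_single a]
  · have h1 : coef hψ (chi ψ a) a = 1 := by
      rw [coef_chi, if_pos rfl]
    unfold coef at h1
    rw [map_smul, Finsupp.smul_apply, h1, smul_eq_mul, mul_one, mul_comm]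
  · intro a' _ hne
    have h1 : coef hψ (chi ψ a') a = 0 := by
      rw [coef_chi, if_neg hne]
    unfold coef at h1
    rw [map_smul, Finsupp.smul_apply, h1, smul_zero]
  · intro h
    exact absurd (mem_univ _) h

include hψ in
theorem mem_chiSpan_of_dep {S : Finset (Fin n)} {f : (Fin n → ZMod q) → K}
    (hf : ∀ x y : Fin n → ZMod q, (∀ v ∈ S, x v = y v) → f x = f y) :
    f ∈ chiSpan ψ fun a => supp a ⊆ S := by
  refine (mem_chiSpan hψ).2 fun a ha v hv => ?_
  by_contra hvS
  have h1 : (fun x => f (x + Pi.single v (1 : ZMod q))) = f := by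
    funext x
    refine hf _ _ fun u hu => ?_
    rw [Pi.add_apply, Pi.single_eq_of_ne (ne_of_mem_of_not_mem hu hvS), add_zero]
  have h2 := coef_shift hψ f (Pi.single v (1 : ZMod q)) a
  rw [h1] at h2
  have h3 : chi ψ a (Pi.single v (1 : ZMod q)) = 1 := by
    have h4 : (chi ψ a (Pi.single v (1 : ZMod q)) - 1) * coef hψ f a = 0 := by
      rw [sub_mul, one_mul, ← h2, sub_self]
    rcases mul_eq_zero.1 h4 with h5 | h5
    · exact sub_eq_zero.1 h5
    · exact absurd h5 ha
  have h4 : chi ψ a (Pi.single v (1 : ZMod q)) = ψ (a v) := by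
    unfold chi
    congr 1
    rw [sum_eq_single v]
    · rw [Pi.single_eq_same, mul_one]
    · intro u _ hu
      rw [Pi.single_eq_of_ne hu, mul_zero]
    · intro hv
      exact absurd (mem_univ v) hv
  rw [h4, ← AddChar.map_zero_eq_one ψ] at h3
  exact (mem_supp.1 hv) (hψ h3)

theorem chiSpan_mono {P Q : (Fin n → ZMod q) → Prop} (h : ∀ a, P a → Q a) :
    chiSpan ψ P ≤ chiSpan ψ Q := by
  apply Submodule.span_mono
  rintro f ⟨a, ha, rfl⟩
  exact ⟨a, h a ha, rfl⟩

/-- The violations of the equations lie in the ideal. -/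
theorem ideal_fals {Z : ι → Finset (Fin n)} {b : ι → ZMod q} {r D t : ℕ}
    (hexp : ∀ I : Finset ι, I.Nonempty → I.card ≤ r → 2 * t * I.card < (bd Z I).card)
    (ht : 1 ≤ t) (hD : 2 * D ≤ r) (hD0 : 0 < D) (i : ι) (hZ : (Z i).card ≤ D)
    {f : (Fin n → ZMod q) → K}
    (hf : ∀ x y : Fin n → ZMod q, (∀ v ∈ Z i, x v = y v) → f x = f y)
    (hf0 : ∀ x : Fin n → ZMod q, ∑ v ∈ Z i, x v = b i → f x = 0) :
    f ∈ ideal hψ Z b r D := by
  classical
  -- divide by the nonzero factor
  have hcomb : ∀ v, comb Z (Pi.single i (1 : ZMod q)) v = if v ∈ Z i then 1 else 0 := by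
    intro v
    unfold comb
    rw [sum_eq_single i]
    · rw [Pi.single_eq_same]
    · intro j _ hj
      rw [Pi.single_eq_of_ne hj, ite_self]
    · intro h
      exact absurd (mem_univ i) h
  have hchi : ∀ x, chi ψ (comb Z (Pi.single i (1 : ZMod q))) x = ψ (∑ v ∈ Z i, x v) := by
    intro x
    unfold chi
    congr 1
    rw [← sum_filter_add_sum_filter_not univ (fun v => v ∈ Z i)]
    rw [sum_eq_zero (s := univ.filter fun v => ¬ v ∈ Z i), add_zero]
    · have h1 : (univ.filter fun v => v ∈ Z i) = Z i := by
        ext v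
        rw [mem_filter]
        exact and_iff_right (mem_univ v)
      rw [h1]
      refine sum_congr rfl fun v hv => ?_
      rw [hcomb, if_pos hv, one_mul]
    · intro v hv
      rw [hcomb, if_neg (mem_filter.1 hv).2, zero_mul]
  obtain ⟨g, hg⟩ : ∃ g : (Fin n → ZMod q) → K,
      g = fun x => f x / (ψ (∑ v ∈ Z i, x v) - ψ (b i)) := ⟨_, rfl⟩
  have hgdep : ∀ x y : Fin n → ZMod q, (∀ v ∈ Z i, x v = y v) → g x = g y := by
    intro x y hxy
    rw [hg]
    show f x / _ = f y / _
    rw [hf x y hxy, sum_congr rfl hxy]
  have hfg : f = (chi ψ (comb Z (Pi.single i (1 : ZMod q))) - fun _ => ψ (b i)) * g := by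
    funext x
    rw [Pi.mul_apply, Pi.sub_apply, hchi, hg]
    show f x = (ψ (∑ v ∈ Z i, x v) - ψ (b i)) * (f x / (ψ (∑ v ∈ Z i, x v) - ψ (b i)))
    by_cases hx : ∑ v ∈ Z i, x v = b i
    · rw [hf0 x hx, zero_div, mul_zero]
    · rw [mul_div_cancel₀]
      rw [sub_ne_zero]
      exact fun h => hx (hψ h)
  have hgs := mem_chiSpan_of_dep hψ hgdep
  rw [hfg]
  clear hfg hg hgdep
  unfold chiSpan at hgs
  induction hgs using Submodule.span_induction with
  | mem f' hf' =>
    obtain ⟨s, hs, rfl⟩ := hf'
    have h1 : (chi ψ (comb Z (Pi.single i (1 : ZMod q))) - fun _ => ψ (b i)) * chi ψ s =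
        chi ψ (s + comb Z (Pi.single i 1)) - ψ (b i) • chi ψ s := by
      rw [chi_add]
      funext x
      rw [Pi.mul_apply, Pi.sub_apply, Pi.sub_apply, Pi.mul_apply, Pi.smul_apply, smul_eq_mul]
      ring
    rw [h1]
    refine ideal_eq hψ b hexp ht hD i ((card_le_card hs).trans hZ) ?_ hD0
    refine (card_le_card ?_).trans hZ
    intro v hv
    rcases mem_union.1 (supp_add hv) with h2 | h2
    · exact hs h2
    · rw [mem_supp, hcomb] at h2
      by_contra hvZ
      rw [if_neg hvZ] at h2
      exact h2 rfl
  | zero =>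
    rw [mul_zero]
    exact Submodule.zero_mem _
  | add f' g' _ _ hf' hg' =>
    rw [mul_add]
    exact Submodule.add_mem _ hf' hg'
  | smul c f' _ hf' =>
    rw [mul_smul_comm]
    exact Submodule.smul_mem _ _ hf'

end Pool.Agent.MP_9cec2c_lc.Sep
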