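import Pool.Agent.Lib.MP_9cec2c_lc.Mg.G041

/-!
Approximation of a disjunction by a product, modulo a space `J` that is closed under products of
small degree, for any filtration of a space of functions.
-/

set_option autoImplicit false
set_option linter.unusedSectionVars false

namespace Pool.Agent.MP_9cec2c_lc.SizeDeg

open Finset Pool.Agent.MP_9cec2c_lc.ResPoly

variable {n : ℕ} {K : Type} [Field K]

/-- The functions of degree at most `d`. -/
abbrev Pol (K : Type) [Field K] (n d : ℕ) : Submodule K ((Fin n → Bool) → K) := ResPoly.Poly K n d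

/-- A filtration `M` up to level `D`, and a space `J` that is closed under products up to level
`D`. -/
structure Filt (M : ℕ → Submodule K ((Fin n → Bool) → K)) (J : Submodule K ((Fin n → Bool) → K))
    (D : ℕ) : Prop where
  mul_mem : ∀ (a b : ℕ) (h p : (Fin n → Bool) → K), a + b ≤ D → h ∈ M a → p ∈ Pol K n b →
    h * p ∈ M (a + b)
  closed : ∀ (a b : ℕ) (h p : (Fin n → Bool) → K), a + b ≤ D → h ∈ J → h ∈ M a →
    p ∈ Pol K n b → h * p ∈ J

/-- Multiplication by `e` modulo `J`. -/
noncomputable def mq (J : Submodule K ((Fin n → Bool) → K)) (e : (Fin n → Bool) → K) :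
    ((Fin n → Bool) → K) →ₗ[K] (((Fin n → Bool) → K) ⧸ J) := J.mkQ ∘ₗ LinearMap.mulLeft K e

theorem mq_apply (J : Submodule K ((Fin n → Bool) → K)) (e f : (Fin n → Bool) → K) :
    mq J e f = J.mkQ (e * f) := rfl

theorem mq_eq_zero {J : Submodule K ((Fin n → Bool) → K)} {e f : (Fin n → Bool) → K} :
    mq J e f = 0 ↔ e * f ∈ J := by
  rw [mq_apply, Submodule.mkQ_apply, Submodule.Quotient.mk_eq_zero]

/-- The dimension of the multiples of `e` by functions of level `d`, modulo `J`. -/
noncomputable def rf (M : ℕ → Submodule K ((Fin n → Bool) → K))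
    (J : Submodule K ((Fin n → Bool) → K)) (e : (Fin n → Bool) → K) (d : ℕ) : ℕ :=
  Module.finrank K ((M d).map (mq J e))

theorem one_mem_Pol (d : ℕ) : (1 : (Fin n → Bool) → K) ∈ Pol K n d := by
  have h : (1 : (Fin n → Bool) → K) = mon K ∅ := by
    funext x
    unfold mon
    rw [if_pos fun v hv => absurd hv (notMem_empty v)]
    rfl
  rw [h]
  exact mon_mem_Poly K (by rw [card_empty]; exact Nat.zero_le _)

theorem pow_mem_Pol {t : ℕ} {q : (Fin n → Bool) → K} (hq : q ∈ Pol K n t) (m : ℕ) :
    q ^ m ∈ Pol K n (m * t) := by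
  induction m with
  | zero =>
    rw [pow_zero]
    exact one_mem_Pol _
  | succ m ih =>
    rw [pow_succ, Nat.succ_mul]
    exact Poly_mul K ih hq

variable {M : ℕ → Submodule K ((Fin n → Bool) → K)} {J : Submodule K ((Fin n → Bool) → K)}
  {D : ℕ}

theorem rf_le_one (hF : Filt M J D) {s d : ℕ} {e : (Fin n → Bool) → K} (he : e ∈ Pol K n s)
    (hD : d + s ≤ D) : rf M J e d ≤ rf M J 1 d := by
  refine finrank_map_le_of_ker _ _ _ fun x hx h => ?_
  rw [mq_eq_zero, one_mul] at h
  rw [mq_eq_zero, mul_comm]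
  exact hF.closed d s _ _ hD h hx he

/-- The rank drops when the functions are multiplied by a function that kills `q`. -/
theorem rf_split (hF : Filt M J D) {s a t d : ℕ} {e u q : (Fin n → Bool) → K}
    (he : e ∈ Pol K n s) (hu : u ∈ Pol K n a) (hq : q ∈ Pol K n t) (huq : u * q = 0)
    (hD : s + (d + t) + a ≤ D) :
    rf M J (e * u) (d + t) + rf M J (e * q) d ≤ rf M J e (d + t) := by
  have h1 : (M d).map (mq J (e * q)) = ((M d).map (LinearMap.mulLeft K q)).map (mq J e) := by
    rw [← Submodule.map_comp]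
    congr 1
    apply LinearMap.ext
    intro x
    rw [LinearMap.comp_apply, LinearMap.mulLeft_apply, mq_apply, mq_apply, mul_assoc]
  have h2 : rf M J (e * q) d = Module.finrank K ((M d).map (mq J (e * q))) := rfl
  rw [h2, h1]
  refine finrank_map_add_le _ _ (mq J e) (mq J (e * u)) ?_ ?_ ?_
  · rintro x ⟨y, hy, rfl⟩
    rw [LinearMap.mulLeft_apply, mul_comm]
    exact hF.mul_mem d t _ _ (by omega) hy hq
  · rintro x ⟨y, hy, rfl⟩
    rw [LinearMap.mulLeft_apply, mq_eq_zero]
    have h3 : e * u * (q * y) = 0 := by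
      calc e * u * (q * y) = e * y * (u * q) := by ring
        _ = 0 := by rw [huq, mul_zero]
    rw [h3]
    exact Submodule.zero_mem _
  · intro x hx h
    rw [mq_eq_zero] at h ⊢
    have h3 : e * u * x = x * e * u := by ring
    rw [h3]
    rw [mul_comm] at h
    exact hF.closed (d + t + s) a _ _ (by omega) h (hF.mul_mem _ _ _ _ (by omega) hx he) hu

variable [Fintype K]

/-- The function `1 - q ^ (|K| - 1)`: the indicator function of the zeros of `q`. -/
def cf (q : (Fin n → Bool) → K) : (Fin n → Bool) → K := 1 - q ^ (Fintype.card K - 1)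

omit [Fintype K] in
theorem one_lt_K [Fintype K] : 1 < Fintype.card K := Fintype.one_lt_card

theorem cf_mem {t : ℕ} {q : (Fin n → Bool) → K} (hq : q ∈ Pol K n t) :
    cf q ∈ Pol K n ((Fintype.card K - 1) * t) :=
  Submodule.sub_mem _ (one_mem_Pol _) (pow_mem_Pol hq _)

theorem cf_mul_self (q : (Fin n → Bool) → K) : cf q * q = 0 := by
  funext x
  unfold cf
  rw [Pi.mul_apply, Pi.sub_apply, Pi.one_apply, Pi.pow_apply, Pi.zero_apply]
  by_cases h : q x = 0
  · rw [h, mul_zero]
  · rw [FiniteField.pow_card_sub_one_eq_one _ h, sub_self, zero_mul]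

theorem pow_card_fun (g : (Fin n → Bool) → K) : g ^ Fintype.card K = g := by
  funext x
  rw [Pi.pow_apply, FiniteField.pow_card]

/-- Multiplication by `q` and by `q + g` has rank at least one half on the multiples of `g`. -/
theorem rf_half (hF : Filt M J D) {s t d : ℕ} {e g q : (Fin n → Bool) → K}
    (he : e ∈ Pol K n s) (hg : g ∈ Pol K n t)
    (hD : t + s + t + d + (Fintype.card K - 2) * t ≤ D) :
    rf M J (g * e) d ≤ rf M J (g * e * q) d + rf M J (g * e * (q + g)) d := by
  have h1 : rf M J (g * e) d ≤ rf M J (g * e * g) d := by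
    refine finrank_map_le_of_ker _ _ _ fun x hx h => ?_
    rw [mq_eq_zero] at h ⊢
    rw [mul_comm] at h
    have h2 := hF.closed (d + (t + s + t)) ((Fintype.card K - 2) * t) _
      (g ^ (Fintype.card K - 2)) (by omega) h
      (hF.mul_mem _ _ _ _ (by omega) hx (Poly_mul K (Poly_mul K hg he) hg)) (pow_mem_Pol hg _)
    have h3 : x * (g * e * g) * g ^ (Fintype.card K - 2) = g * e * x := by
      have h4 : g * g * g ^ (Fintype.card K - 2) = g := by
        have h5 := one_lt_K (K := K)
        calc g * g * g ^ (Fintype.card K - 2) = g ^ (Fintype.card K - 2 + 2) := by ring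
          _ = g ^ Fintype.card K := by congr 1; omega
          _ = g := pow_card_fun g
      calc x * (g * e * g) * g ^ (Fintype.card K - 2) =
          (g * g * g ^ (Fintype.card K - 2)) * e * x := by ring
        _ = g * e * x := by rw [h4]
    rwa [h3] at h2
  have h2 : mq J (g * e * g) = mq J (g * e * (q + g)) + mq J (-(g * e * q)) := by
    apply LinearMap.ext
    intro x
    rw [LinearMap.add_apply, mq_apply, mq_apply, mq_apply, ← map_add]
    congr 1
    ring
  have h3 : rf M J (g * e * g) d ≤ rf M J (g * e * (q + g)) d + rf M J (-(g * e * q)) d := by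
    unfold rf
    rw [h2]
    exact finrank_map_add_map _ _ _
  have h4 : rf M J (-(g * e * q)) d ≤ rf M J (g * e * q) d := by
    refine finrank_map_le_of_ker _ _ _ fun x _ h => ?_
    rw [mq_eq_zero] at h ⊢
    rw [neg_mul]
    exact Submodule.neg_mem _ h
  omega

/-- A combination `q` of the functions `g i` for which the ranks drop. -/
theorem exists_step (hF : Filt M J D) {β : Type} [Fintype β] {s t d : ℕ}
    {e : (Fin n → Bool) → K} {g : β → (Fin n → Bool) → K}
    (he : e ∈ Pol K n s) (hg : ∀ i, g i ∈ Pol K n t)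
    (hD : t + s + (d + t) + (Fintype.card K - 1) * t ≤ D) :
    ∃ q ∈ Submodule.span K (Set.range g),
      2 * ∑ i, rf M J (g i * e * cf q) (d + t) + ∑ i, rf M J (g i * e) d ≤
        2 * ∑ i, rf M J (g i * e) (d + t) := by
  classical
  have hsplit : (Fintype.card K - 1) * t = (Fintype.card K - 2) * t + t := by
    have h5 := one_lt_K (K := K)
    have h6 : Fintype.card K - 1 = Fintype.card K - 2 + 1 := by omega
    rw [h6, add_mul, one_mul]
  have hqt : ∀ c : β → K, ∑ i, c i • g i ∈ Pol K n t := fun c =>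
    Submodule.sum_mem _ fun i _ => Submodule.smul_mem _ _ (hg i)
  -- the average over all coefficients
  have h1 : ∀ i : β, Fintype.card (β → K) * rf M J (g i * e) d ≤
      2 * ∑ c : β → K, rf M J (g i * e * ∑ j, c j • g j) d := by
    intro i
    obtain ⟨δ, hδ⟩ : ∃ δ : β → K, δ = Pi.single i 1 := ⟨_, rfl⟩
    have h2 : ∑ c : β → K, rf M J (g i * e * ∑ j, (c + δ) j • g j) d =
        ∑ c : β → K, rf M J (g i * e * ∑ j, c j • g j) d :=
      Fintype.sum_equiv (Equiv.addRight δ) _ _ fun c => rfl
    have h3 : ∀ c : β → K, rf M J (g i * e) d ≤ rf M J (g i * e * ∑ j, c j • g j) d +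
        rf M J (g i * e * ∑ j, (c + δ) j • g j) d := by
      intro c
      have h4 : ∑ j, (c + δ) j • g j = ∑ j, c j • g j + g i := by
        simp only [Pi.add_apply, add_smul, sum_add_distrib]
        congr 1
        rw [hδ, sum_eq_single i]
        · rw [Pi.single_eq_same, one_smul]
        · intro j _ hji
          rw [Pi.single_eq_of_ne hji, zero_smul]
        · intro hi
          exact absurd (mem_univ i) hi
      rw [h4]
      exact rf_half hF he (hg i) (by omega)
    calc Fintype.card (β → K) * rf M J (g i * e) d = ∑ _c : β → K, rf M J (g i * e) d := by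
          rw [sum_const, smul_eq_mul, card_univ]
      _ ≤ ∑ c : β → K, (rf M J (g i * e * ∑ j, c j • g j) d +
          rf M J (g i * e * ∑ j, (c + δ) j • g j) d) := sum_le_sum fun c _ => h3 c
      _ = 2 * ∑ c : β → K, rf M J (g i * e * ∑ j, c j • g j) d := by
          rw [sum_add_distrib, h2, two_mul]
  have h2 : ∃ c : β → K, ∑ i, rf M J (g i * e) d ≤
      2 * ∑ i, rf M J (g i * e * ∑ j, c j • g j) d := by
    by_contra hcon
    push Not at hcon
    have h3 : ∑ c : β → K, (2 * ∑ i, rf M J (g i * e * ∑ j, c j • g j) d) <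
        ∑ _c : β → K, ∑ i, rf M J (g i * e) d :=
      sum_lt_sum_of_nonempty ⟨0, mem_univ _⟩ fun c _ => hcon c
    have h4 : ∑ _c : β → K, ∑ i, rf M J (g i * e) d ≤
        ∑ c : β → K, (2 * ∑ i, rf M J (g i * e * ∑ j, c j • g j) d) := by
      have h5 : ∑ c : β → K, (2 * ∑ i, rf M J (g i * e * ∑ j, c j • g j) d) =
          ∑ i, (2 * ∑ c : β → K, rf M J (g i * e * ∑ j, c j • g j) d) := by
        rw [← mul_sum, ← mul_sum, sum_comm]
      rw [h5, sum_const, smul_eq_mul, card_univ, mul_sum]
      exact sum_le_sum fun i _ => h1 i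
    omega
  obtain ⟨c, hc⟩ := h2
  refine ⟨∑ j, c j • g j, Submodule.sum_mem _ fun j _ =>
    Submodule.smul_mem _ _ (Submodule.subset_span ⟨j, rfl⟩), ?_⟩
  have h3 : ∑ i, rf M J (g i * e * cf (∑ j, c j • g j)) (d + t) +
      ∑ i, rf M J (g i * e * ∑ j, c j • g j) d ≤ ∑ i, rf M J (g i * e) (d + t) := by
    rw [← sum_add_distrib]
    refine sum_le_sum fun i _ => ?_
    exact rf_split hF (Poly_mul K (hg i) he) (cf_mem (hqt c)) (hqt c) (cf_mul_self _) hD
  omega

theorem prod_cf_mem {k t : ℕ} {q : Fin k → (Fin n → Bool) → K} (hq : ∀ j, q j ∈ Pol K n t) :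
    ∏ j, cf (q j) ∈ Pol K n (k * ((Fintype.card K - 1) * t)) := by
  classical
  have h1 : ∀ s : Finset (Fin k), ∏ j ∈ s, cf (q j) ∈
      Pol K n (s.card * ((Fintype.card K - 1) * t)) := by
    intro s
    induction s using Finset.induction_on with
    | empty =>
      rw [prod_empty]
      exact one_mem_Pol _
    | insert j s hj ih =>
      rw [prod_insert hj, card_insert_of_notMem hj, add_mul, one_mul, add_comm]
      exact Poly_mul K (cf_mem (hq j)) ih
  have h2 := h1 univ
  rwa [card_univ, Fintype.card_fin] at h2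

/-- The approximation of a disjunction of the functions `g i` of degree at most `t`, modulo `J`.
The hypothesis `hratio` compares the ranks in the levels `d` and `d + t`, up to an additive
error `E`. -/
theorem exists_prod (hF : Filt M J D) {β : Type} [Fintype β] {t d r R c E : ℕ}
    (hc : c + r = 2 * R) {g : β → (Fin n → Bool) → K} (hg : ∀ i, g i ∈ Pol K n t) (k : ℕ)
    (hD : t + (d + t) + k * ((Fintype.card K - 1) * t) ≤ D)
    (hratio : ∀ (s : ℕ) (e : (Fin n → Bool) → K), e ∈ Pol K n s → s + (d + t) ≤ D →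
      r * rf M J e (d + t) ≤ R * rf M J e d + E) :
    ∃ q : Fin k → (Fin n → Bool) → K, (∀ j, q j ∈ Submodule.span K (Set.range g)) ∧
      r * ((2 * R) ^ k * ∑ i, rf M J (g i * ∏ j, cf (q j)) (d + t)) ≤
        r * (c ^ k * (Fintype.card β * rf M J 1 (d + t))) +
          (2 * R) ^ k * (Fintype.card β * E) := by
  classical
  induction k with
  | zero =>
    refine ⟨fun j => j.elim0, fun j => j.elim0, ?_⟩
    rw [pow_zero, pow_zero, one_mul, one_mul]
    refine le_trans (Nat.mul_le_mul_left r ?_) (Nat.le_add_right _ _)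
    calc ∑ i, rf M J (g i * ∏ j : Fin 0, cf ((fun j => j.elim0 :
          Fin 0 → (Fin n → Bool) → K) j)) (d + t) ≤ ∑ _i : β, rf M J 1 (d + t) := by
          refine sum_le_sum fun i _ => ?_
          rw [Fin.prod_univ_zero, mul_one]
          exact rf_le_one hF (hg i) (by omega)
      _ = Fintype.card β * rf M J 1 (d + t) := by
          rw [sum_const, smul_eq_mul, card_univ]
  | succ k ih =>
    have hk : (k + 1) * ((Fintype.card K - 1) * t) =
        k * ((Fintype.card K - 1) * t) + (Fintype.card K - 1) * t := by ring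
    obtain ⟨q, hq, hrk⟩ := ih (by omega)
    have hLt : Submodule.span K (Set.range g) ≤ Pol K n t := by
      rw [Submodule.span_le]
      rintro x ⟨i, rfl⟩
      exact hg i
    have hP := prod_cf_mem fun j => hLt (hq j)
    obtain ⟨q0, hq0, hstep⟩ := exists_step hF (d := d) hP hg (by omega)
    refine ⟨Fin.snoc q q0, fun j => ?_, ?_⟩
    · refine Fin.lastCases ?_ (fun j => ?_) j
      · rw [Fin.snoc_last]
        exact hq0
      · rw [Fin.snoc_castSucc]
        exact hq j
    · have hprod : ∏ j : Fin (k + 1), cf ((Fin.snoc q q0 : Fin (k + 1) → (Fin n → Bool) → K) j) =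
          (∏ j, cf (q j)) * cf q0 := by
        rw [Fin.prod_univ_castSucc]
        congr 1
        · refine prod_congr rfl fun j _ => ?_
          rw [Fin.snoc_castSucc]
        · rw [Fin.snoc_last]
      rw [hprod]
      have hsum : r * ∑ i, rf M J (g i * ∏ j, cf (q j)) (d + t) ≤
          R * ∑ i, rf M J (g i * ∏ j, cf (q j)) d + Fintype.card β * E := by
        calc r * ∑ i, rf M J (g i * ∏ j, cf (q j)) (d + t)
            = ∑ i, r * rf M J (g i * ∏ j, cf (q j)) (d + t) := mul_sum _ _ _
          _ ≤ ∑ i, (R * rf M J (g i * ∏ j, cf (q j)) d + E) := by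
              refine sum_le_sum fun i _ => ?_
              exact hratio _ _ (Poly_mul K (hg i) hP) (by omega)
          _ = R * ∑ i, rf M J (g i * ∏ j, cf (q j)) d + Fintype.card β * E := by
              rw [sum_add_distrib, ← mul_sum, sum_const, smul_eq_mul, card_univ]
      have hassoc : ∀ i, g i * ((∏ j, cf (q j)) * cf q0) = g i * (∏ j, cf (q j)) * cf q0 :=
        fun i => by rw [mul_assoc]
      simp only [hassoc]
      obtain ⟨X, hX⟩ : ∃ X, X = ∑ i, rf M J (g i * ∏ j, cf (q j)) (d + t) := ⟨_, rfl⟩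
      obtain ⟨Y, hY⟩ : ∃ Y, Y = ∑ i, rf M J (g i * ∏ j, cf (q j)) d := ⟨_, rfl⟩
      obtain ⟨X', hX'⟩ : ∃ X', X' = ∑ i, rf M J (g i * (∏ j, cf (q j)) * cf q0) (d + t) :=
        ⟨_, rfl⟩
      obtain ⟨Z, hZ⟩ : ∃ Z, Z = Fintype.card β * rf M J 1 (d + t) := ⟨_, rfl⟩
      obtain ⟨B, hB⟩ : ∃ B, B = Fintype.card β * E := ⟨_, rfl⟩
      rw [← hX, ← hY, ← hX'] at hstep
      rw [← hX, ← hY, ← hB] at hsum
      rw [← hX, ← hZ, ← hB] at hrk
      rw [← hX', ← hZ, ← hB]
      have h1 : 2 * R * X' ≤ c * X + B := by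
        have h2 : R * (2 * X' + Y) ≤ R * (2 * X) := Nat.mul_le_mul_left _ hstep
        have h3 : (c + r) * X = 2 * R * X := by rw [hc]
        nlinarith
      calc r * ((2 * R) ^ (k + 1) * X') = r * (2 * R) ^ k * (2 * R * X') := by ring
        _ ≤ r * (2 * R) ^ k * (c * X + B) := Nat.mul_le_mul_left _ h1
        _ = c * (r * ((2 * R) ^ k * X)) + r * (2 * R) ^ k * B := by ring
        _ ≤ c * (r * (c ^ k * Z) + (2 * R) ^ k * B) + r * (2 * R) ^ k * B :=
            Nat.add_le_add_right (Nat.mul_le_mul_left _ hrk) _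
        _ = r * (c ^ (k + 1) * Z) + (c + r) * ((2 * R) ^ k * B) := by ring
        _ = r * (c ^ (k + 1) * Z) + (2 * R) ^ (k + 1) * B := by rw [hc]; ring

/-- A multiplier outside of `J` that makes all errors vanish modulo `J`. -/
theorem exists_multiplier {σ : Type} [Fintype σ] {m : ℕ} {e : σ → (Fin n → Bool) → K}
    (h : ∑ i, rf M J (e i) m < rf M J 1 m) :
    ∃ f ∈ M m, f ∉ J ∧ ∀ i, f * e i ∈ J := by
  obtain ⟨f, hf, hf1, hf2⟩ := exists_common_zero univ (M m) (mq J 1) (fun i => mq J (e i)) h
  refine ⟨f, hf, fun hfJ => hf1 ?_, fun i => ?_⟩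
  · rw [mq_eq_zero, one_mul]
    exact hfJ
  · have h1 := hf2 i (mem_univ i)
    rw [mq_eq_zero, mul_comm] at h1
    exact h1

/-! ### The filtration by the degree -/

theorem low_le_Pol (N : Finset (Fin n)) : low K N ≤ Pol K n N.card := by
  unfold low
  rw [Submodule.span_le]
  rintro f ⟨M', hM', rfl⟩
  exact mon_mem_Poly K (card_le_of_key_le hM'.le)

theorem low_mul {N U : Finset (Fin n)} (h : Disjoint U N) {l : (Fin n → Bool) → K}
    (hl : l ∈ low K N) : l * mon K U ∈ low K (U ∪ N) := by
  unfold low at hl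
  induction hl using Submodule.span_induction with
  | mem f hf =>
    obtain ⟨N', hN', rfl⟩ := hf
    rw [mon_mul]
    refine Submodule.subset_span ⟨_, ?_, rfl⟩
    have h2 := key_union_eq h
    have h3 := key_union_le N' U
    omega
  | zero =>
    rw [zero_mul]
    exact Submodule.zero_mem _
  | add f g _ _ hf hg =>
    rw [add_mul]
    exact Submodule.add_mem _ hf hg
  | smul c f _ hf =>
    rw [smul_mul_assoc]
    exact Submodule.smul_mem _ _ hf

/-- The space `J` is closed under products up to degree `D`. -/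
def Closed (J : Submodule K ((Fin n → Bool) → K)) (D : ℕ) : Prop :=
  ∀ (a b : ℕ) (p g : (Fin n → Bool) → K), a + b ≤ D → p ∈ J → p ∈ Pol K n a →
    g ∈ Pol K n b → p * g ∈ J

theorem Closed.filt (hJ : Closed J D) : Filt (fun d => Pol K n d) J D where
  mul_mem _ _ _ _ _ hh hp := Poly_mul K hh hp
  closed a b h p hab hhJ hh hp := hJ a b h p hab hhJ hh hp

/-- The standard monomials form a down-set. -/
theorem down_mq (hJ : Closed J D) {s B : ℕ} {e : (Fin n → Bool) → K} (he : e ∈ Pol K n s)
    (hB : s + B ≤ D) : Down (mq J e) B := by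
  intro N M hNM hMB hM hN
  apply hM
  obtain ⟨l, hl, hle⟩ := hN
  have h1 : mq J e (mon K N - l) = 0 := by rw [map_sub, hle, sub_self]
  rw [mq_eq_zero] at h1
  have hcard : (M \ N).card + N.card = M.card := card_sdiff_add_card_eq_card hNM
  have h2 : e * (mon K N - l) ∈ Pol K n (s + N.card) :=
    Poly_mul K he (Submodule.sub_mem _ (mon_mem_Poly K le_rfl) (low_le_Pol N hl))
  have h3 := hJ (s + N.card) (M \ N).card _ (mon K (M \ N)) (by omega) h1 h2
    (mon_mem_Poly K le_rfl)
  refine ⟨l * mon K (M \ N), ?_, ?_⟩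
  · have h4 := low_mul (U := M \ N) sdiff_disjoint hl
    rwa [sdiff_union_of_subset hNM] at h4
  · rw [← sub_eq_zero, ← map_sub, mq_eq_zero]
    have h5 : e * (l * mon K (M \ N) - mon K M) = -(e * (mon K N - l) * mon K (M \ N)) := by
      have h6 : mon K M = mon K N * mon K (M \ N) := by
        rw [mon_mul, union_sdiff_of_subset hNM]
      rw [h6]
      ring
    rw [h5]
    exact Submodule.neg_mem _ h3

theorem rf_ratio (hJ : Closed J D) {s : ℕ} {g : (Fin n → Bool) → K} (hg : g ∈ Pol K n s)
    (e t : ℕ) (hD : s + (e + t + t) ≤ D) :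
    (e + 1) ^ t * rf (fun d => Pol K n d) J g (e + t + t) ≤
      ((e + 1) ^ t + n ^ t) * rf (fun d => Pol K n d) J g (e + t) + 0 := by
  have h1 := rkm_ratio (down_mq hJ hg hD) e t (by omega)
  have h2 : e + 2 * t = e + t + t := by ring
  rw [h2] at h1
  exact h1

end Pool.Agent.MP_9cec2c_lc.SizeDeg
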