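import Pool.Agent.Lib.MP_9cec2c_lc.SDInd

/-!
A refutation with few lines gives a derivation of small degree: the version for general rules.
-/

set_option autoImplicit false
set_option linter.unusedSectionVars false

namespace Pool.Agent.MP_9cec2c_lc.SizeDeg

open Finset Pool.Agent.MP_9cec2c_lc.ResPoly

variable {n : ℕ} {K : Type} [Field K] {M : ℕ → Submodule K ((Fin n → Bool) → K)}
  {J : Submodule K ((Fin n → Bool) → K)} {D : ℕ} [Fintype K]

/-- The soundness of the rules modulo `J`. -/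
theorem lines_kill2 (hF : Filt M J D) {U : Type*} {rel : U → U → Prop} (hwf : WellFounded rel)
    {L : U → Submodule K ((Fin n → Bool) → K)} {d t c k w : ℕ} (hL : ∀ u, L u ≤ Pol K n t)
    {f : (Fin n → Bool) → K} (hf : f ∈ M d) {q : U → Fin k → (Fin n → Bool) → K}
    (hq : ∀ u j, q u j ∈ L u) (hfL : ∀ u, ∀ l ∈ L u, f * (l * ∏ j, cf (q u j)) ∈ J)
    (hD1 : d + k * ((Fintype.card K - 1) * t) + w ≤ D)
    (hD2 : d + 2 * (k * ((Fintype.card K - 1) * t)) + t + c ≤ D)
    (hrule : ∀ u, ∃ (m : ℕ) (j : Fin m → U) (h : Fin m → (Fin n → Bool) → K)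
      (h0 g : (Fin n → Bool) → K), (∀ i, rel (j i) u) ∧ (∑ i, h i + h0 + g = 1) ∧
        (∀ i, h i ∈ Pol K n c) ∧ (∀ i, ∀ a ∈ L (j i), h i * a ∈ ideal c (L u)) ∧
        h0 ∈ ideal c (L u) ∧
        ∀ (a : ℕ) (y : (Fin n → Bool) → K), a + w ≤ D → y ∈ M a → y * g ∈ J)
    (u : U) : f * ∏ j, cf (q u j) ∈ J := by
  obtain ⟨τ, hτ⟩ : ∃ τ, τ = k * ((Fintype.card K - 1) * t) := ⟨_, rfl⟩
  rw [← hτ] at hD1 hD2
  have hPd : ∀ u, ∏ j, cf (q u j) ∈ Pol K n τ := fun u => by
    rw [hτ]
    exact prod_cf_mem fun j => hL u (hq u j)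
  induction u using hwf.induction with
  | _ u ih =>
    obtain ⟨F, hFe⟩ : ∃ F, F = f * ∏ j, cf (q u j) := ⟨_, rfl⟩
    have hFM : F ∈ M (d + τ) := by
      rw [hFe]
      exact hF.mul_mem _ _ _ _ (by omega) hf (hPd u)
    have hFL : ∀ l ∈ L u, F * l ∈ J := by
      intro l hl
      have h1 : F * l = f * (l * ∏ j, cf (q u j)) := by
        rw [hFe]
        ring
      rw [h1]
      exact hfL u l hl
    rw [← hFe]
    obtain ⟨m, j, h, h0, g, hrel, hsum, hhc, hh, hh0, hg⟩ := hrule u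
    have h1 : F = ∑ i, F * h i + F * h0 + F * g := by
      rw [← mul_sum, ← mul_add, ← mul_add, hsum, mul_one]
    rw [h1]
    refine Submodule.add_mem _ (Submodule.add_mem _ ?_ ?_) ?_
    · refine Submodule.sum_mem _ fun i _ => ?_
      have hFh : F * h i ∈ M (d + τ + c) := hF.mul_mem _ _ _ _ (by omega) hFM (hhc i)
      have h2 : ∀ a ∈ L (j i), F * h i * a ∈ J := by
        intro a ha
        rw [mul_assoc]
        exact ideal_kill hF hFM (hL u) hFL (by omega) (hh i a ha)
      have h3 := kill_cf hF hFh (fun l => hL (j i) (hq (j i) l)) (fun l => h2 _ (hq (j i) l))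
        (by rw [← hτ]; omega)
      have h4 : F * h i * ∏ l, cf (q (j i) l) ∈ J := by
        have h5 : F * h i * ∏ l, cf (q (j i) l) =
            f * (∏ l, cf (q (j i) l)) * ((∏ l, cf (q u l)) * h i) := by
          rw [hFe]
          ring
        rw [h5]
        exact hF.closed (d + τ) (τ + c) _ _ (by omega) (ih (j i) (hrel i))
          (hF.mul_mem _ _ _ _ (by omega) hf (hPd (j i))) (Poly_mul K (hPd u) (hhc i))
      have h5 : F * h i = F * h i * (∏ l, cf (q (j i) l)) -
          (F * h i * (∏ l, cf (q (j i) l)) - F * h i) := by ring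
      rw [h5]
      exact Submodule.sub_mem _ h4 h3
    · exact ideal_kill hF hFM (hL u) hFL (by omega) hh0
    · exact hg (d + τ) F (by omega) hFM

/-- **Size and degree.** If `1` is not in `J`, there is no refutation with few lines. -/
theorem no_small_refutation2 (hJ : Closed J D) (h1J : (1 : (Fin n → Bool) → K) ∉ J)
    {U : Type} [Fintype U] {rel : U → U → Prop} (hwf : WellFounded rel)
    {L : U → Submodule K ((Fin n → Bool) → K)} {e t c k w N : ℕ} (hL : ∀ u, L u ≤ Pol K n t)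
    (hN : ∀ u, Module.finrank K (L u) ≤ N)
    (hD1 : e + 2 * t + k * ((Fintype.card K - 1) * t) + w ≤ D)
    (hD2 : e + 2 * t + 2 * (k * ((Fintype.card K - 1) * t)) + t + c ≤ D)
    (hcount : Fintype.card U * (N * ((e + 1) ^ t + 2 * n ^ t) ^ k) <
      (2 * ((e + 1) ^ t + n ^ t)) ^ k)
    (hrule : ∀ u, ∃ (m : ℕ) (j : Fin m → U) (h : Fin m → (Fin n → Bool) → K)
      (h0 g : (Fin n → Bool) → K), (∀ i, rel (j i) u) ∧ (∑ i, h i + h0 + g = 1) ∧
        (∀ i, h i ∈ Pol K n c) ∧ (∀ i, ∀ a ∈ L (j i), h i * a ∈ ideal c (L u)) ∧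
        h0 ∈ ideal c (L u) ∧ g ∈ J ∧ g ∈ Pol K n w)
    (hlast : ∃ u, L u = ⊥) : False := by
  classical
  have hF := hJ.filt
  obtain ⟨B, hB⟩ : ∃ B : ∀ u, Module.Basis (Fin (Module.finrank K (L u))) K (L u),
      B = fun u => Module.finBasis K (L u) := ⟨_, rfl⟩
  have hg : ∀ u i, ((B u i : L u) : (Fin n → Bool) → K) ∈ Pol K n t := fun u i =>
    hL u (B u i).2
  have hspan : ∀ u, Submodule.span K (Set.range fun i => ((B u i : L u) : (Fin n → Bool) → K)) =
      L u := by
    intro u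
    have h1 : (Set.range fun i => ((B u i : L u) : (Fin n → Bool) → K)) =
        (L u).subtype '' Set.range (B u) := by
      rw [← Set.range_comp]
      rfl
    rw [h1, ← Submodule.map_span, (B u).span_eq, Submodule.map_top, Submodule.range_subtype]
  obtain ⟨r, hr⟩ : ∃ r, r = (e + 1) ^ t := ⟨_, rfl⟩
  have hr0 : 0 < r := by
    rw [hr]
    exact pow_pos (Nat.succ_pos e) t
  have hap := fun u => exists_prod hF (β := Fin (Module.finrank K (L u))) (t := t) (d := e + t)
    (r := (e + 1) ^ t) (R := (e + 1) ^ t + n ^ t) (c := (e + 1) ^ t + 2 * n ^ t) (E := 0)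
    (by ring) (hg u) k (by omega) (fun s g hgs hD => rf_ratio hJ hgs e t hD)
  choose q hq hrk using hap
  have he2 : e + t + t = e + 2 * t := by ring
  obtain ⟨H, hH⟩ : ∃ H, H = rf (fun d => Pol K n d) J 1 (e + 2 * t) := ⟨_, rfl⟩
  have hH0 : 0 < H := by
    rw [hH]
    unfold rf
    rw [Nat.pos_iff_ne_zero]
    intro h0
    have h1 := Submodule.finrank_eq_zero.1 h0
    have h2 : mq J (1 : (Fin n → Bool) → K) 1 ∈
        (Pol K n (e + 2 * t)).map (mq J (1 : (Fin n → Bool) → K)) :=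
      Submodule.mem_map_of_mem (one_mem_Pol _)
    rw [h1, Submodule.mem_bot, mq_eq_zero, mul_one] at h2
    exact h1J h2
  have hrk2 : ∀ u, (2 * ((e + 1) ^ t + n ^ t)) ^ k *
      ∑ i, rf (fun d => Pol K n d) J (((B u i : L u) : (Fin n → Bool) → K) *
        ∏ j, cf (q u j)) (e + 2 * t) ≤ N * ((e + 1) ^ t + 2 * n ^ t) ^ k * H := by
    intro u
    have h1 := hrk u
    rw [he2, ← hr, mul_zero, mul_zero, add_zero, Fintype.card_fin, ← hH] at h1
    have h2 := Nat.le_of_mul_le_mul_left h1 hr0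
    rw [← hr]
    refine h2.trans ?_
    calc (r + 2 * n ^ t) ^ k * (Module.finrank K (L u) * H) ≤
        (r + 2 * n ^ t) ^ k * (N * H) :=
          Nat.mul_le_mul_left _ (Nat.mul_le_mul_right _ (hN u))
      _ = N * (r + 2 * n ^ t) ^ k * H := by ring
  have hsum : ∑ z : Σ u : U, Fin (Module.finrank K (L u)), rf (fun d => Pol K n d) J
      (((B z.1 z.2 : L z.1) : (Fin n → Bool) → K) * ∏ j, cf (q z.1 j)) (e + 2 * t) < H := by
    refine Nat.lt_of_mul_lt_mul_left (a := (2 * ((e + 1) ^ t + n ^ t)) ^ k) ?_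
    rw [Fintype.sum_sigma, mul_sum]
    calc ∑ u : U, (2 * ((e + 1) ^ t + n ^ t)) ^ k * ∑ i, rf (fun d => Pol K n d) J
          (((B u i : L u) : (Fin n → Bool) → K) * ∏ j, cf (q u j)) (e + 2 * t) ≤
        ∑ _u : U, N * ((e + 1) ^ t + 2 * n ^ t) ^ k * H := sum_le_sum fun u _ => hrk2 u
      _ = Fintype.card U * (N * ((e + 1) ^ t + 2 * n ^ t) ^ k) * H := by
          rw [sum_const, smul_eq_mul, card_univ]
          ring
      _ < (2 * ((e + 1) ^ t + n ^ t)) ^ k * H := Nat.mul_lt_mul_of_pos_right hcount hH0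
  rw [hH] at hsum
  obtain ⟨f, hfM, hfJ, hfe⟩ := exists_multiplier hsum
  have hfL : ∀ u, ∀ l ∈ L u, f * (l * ∏ j, cf (q u j)) ∈ J := by
    intro u l hl
    rw [← hspan u] at hl
    induction hl using Submodule.span_induction with
    | mem l hl =>
      obtain ⟨i, rfl⟩ := hl
      exact hfe ⟨u, i⟩
    | zero =>
      rw [zero_mul, mul_zero]
      exact Submodule.zero_mem _
    | add l l' _ _ hl hl' =>
      rw [add_mul, mul_add]
      exact Submodule.add_mem _ hl hl'
    | smul x l _ hl =>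
      rw [smul_mul_assoc, mul_smul_comm]
      exact Submodule.smul_mem _ _ hl
  have hqL : ∀ u j, q u j ∈ L u := by
    intro u j
    rw [← hspan u]
    exact hq u j
  have hall := lines_kill2 hF hwf hL hfM hqL hfL hD1 hD2 (fun u => by
    obtain ⟨m, j, h, h0, g, h1, h2, h3, h4, h5, h6, h7⟩ := hrule u
    refine ⟨m, j, h, h0, g, h1, h2, h3, h4, h5, fun a y ha hy => ?_⟩
    rw [mul_comm]
    exact hJ w a _ _ (by omega) h6 h7 hy)
  obtain ⟨u, hu⟩ := hlast
  apply hfJ
  have h1 := hall u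
  have h2 : ∏ j, cf (q u j) = 1 := by
    refine prod_eq_one fun j _ => ?_
    have h3 : q u j = 0 := by
      have h4 := hqL u j
      rw [hu, Submodule.mem_bot] at h4
      exact h4
    rw [h3]
    unfold cf
    have hK := one_lt_K (K := K)
    rw [zero_pow (by omega), sub_zero]
  rwa [h2, mul_one] at h1

end Pool.Agent.MP_9cec2c_lc.SizeDeg
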