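import Pool.Agent.Lib.MP_9cec2c_lc.SGGen
import Pool.Agent.Lib.MP_9cec2c_lc.Mg.G041

/-!
Local sound rules have certificates of small degree.
-/

set_option autoImplicit false
set_option linter.unusedSectionVars false

namespace Pool.Agent.MP_9cec2c_lc.SizeDeg

open Finset Pool.Agent.MP_9cec2c_lc.ResPoly

variable {n : ℕ} {K : Type} [Field K] [Fintype K]

open Classical in
theorem cf_apply (f : (Fin n → Bool) → K) (x : Fin n → Bool) :
    cf f x = if f x = 0 then 1 else 0 := by
  unfold cf
  rw [Pi.sub_apply, Pi.one_apply, Pi.pow_apply]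
  have h := one_lt_K (K := K)
  split_ifs with h1
  · rw [h1, zero_pow (by omega), sub_zero]
  · rw [FiniteField.pow_card_sub_one_eq_one _ h1, sub_self]

/-- The indicator function of the points where no equation of `A` holds. -/
noncomputable def noneOf (A : Finset ((Fin n → Bool) → K)) : (Fin n → Bool) → K :=
  ∏ f ∈ A, (1 - cf f)

theorem noneOf_of_some {A : Finset ((Fin n → Bool) → K)} {x : Fin n → Bool}
    (h : SomeZero (A : Set ((Fin n → Bool) → K)) x) : noneOf A x = 0 := by
  obtain ⟨f, hf, hx⟩ := h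
  unfold noneOf
  rw [Finset.prod_apply]
  refine prod_eq_zero (mem_coe.1 hf) ?_
  rw [Pi.sub_apply, Pi.one_apply, cf_apply, if_pos hx, sub_self]

theorem noneOf_of_not {A : Finset ((Fin n → Bool) → K)} {x : Fin n → Bool}
    (h : ¬ SomeZero (A : Set ((Fin n → Bool) → K)) x) : noneOf A x = 1 := by
  unfold noneOf
  rw [Finset.prod_apply]
  refine prod_eq_one fun f hf => ?_
  rw [Pi.sub_apply, Pi.one_apply, cf_apply, if_neg, sub_zero]
  exact fun hx => h ⟨f, mem_coe.2 hf, hx⟩

theorem noneOf_mem {A : Finset ((Fin n → Bool) → K)} {t : ℕ} (hA : ∀ f ∈ A, f ∈ Pol K n t) :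
    noneOf A ∈ Pol K n (A.card * ((Fintype.card K - 1) * t)) := by
  classical
  unfold noneOf
  induction A using Finset.induction_on with
  | empty =>
    rw [prod_empty]
    exact one_mem_Pol _
  | insert f A hf ih =>
    rw [prod_insert hf, card_insert_of_notMem hf]
    have h1 : (A.card + 1) * ((Fintype.card K - 1) * t) =
        (Fintype.card K - 1) * t + A.card * ((Fintype.card K - 1) * t) := by ring
    rw [h1]
    exact Poly_mul K (Submodule.sub_mem _ (one_mem_Pol _) (cf_mem (hA f (mem_insert_self _ _))))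
      (ih fun g hg => hA g (mem_insert_of_mem hg))

theorem noneOf_mul_cf {A : Finset ((Fin n → Bool) → K)} {f : (Fin n → Bool) → K} (hf : f ∈ A) :
    noneOf A * cf f = 0 := by
  funext x
  rw [Pi.mul_apply, Pi.zero_apply]
  by_cases h : f x = 0
  · rw [noneOf_of_some ⟨f, mem_coe.2 hf, h⟩, zero_mul]
  · rw [cf_apply, if_neg h, mul_zero]

theorem ideal_deg_mono {c c' : ℕ} (h : c ≤ c') (L : Submodule K ((Fin n → Bool) → K)) :
    ideal c L ≤ ideal c' L := by
  unfold ideal
  refine Submodule.span_mono ?_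
  rintro f ⟨p, hp, l, hl, rfl⟩
  exact ⟨p, Poly_mono K h hp, l, hl, rfl⟩

theorem ideal_deg_mul {c e : ℕ} {L : Submodule K ((Fin n → Bool) → K)} {y g : (Fin n → Bool) → K}
    (hy : y ∈ Pol K n e) (hg : g ∈ ideal c L) : y * g ∈ ideal (e + c) L := by
  unfold ideal at hg
  induction hg using Submodule.span_induction with
  | mem g hg =>
    obtain ⟨p, hp, l, hl, rfl⟩ := hg
    exact Submodule.subset_span ⟨y * p, Poly_mul K hy hp, l, hl, by ring⟩
  | zero =>
    rw [mul_zero]
    exact Submodule.zero_mem _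
  | add g h _ _ hg hh =>
    rw [mul_add]
    exact Submodule.add_mem _ hg hh
  | smul x g _ hg =>
    rw [mul_smul_comm]
    exact Submodule.smul_mem _ _ hg

theorem one_sub_noneOf_mem {B : Finset ((Fin n → Bool) → K)} {t : ℕ}
    {L : Submodule K ((Fin n → Bool) → K)} (hB : ∀ f ∈ B, f ∈ Pol K n t)
    (hL : ∀ f ∈ B, cf f ∈ L) :
    1 - noneOf B ∈ ideal (B.card * ((Fintype.card K - 1) * t)) L := by
  classical
  induction B using Finset.induction_on with
  | empty =>
    unfold noneOf
    rw [prod_empty, sub_self]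
    exact Submodule.zero_mem _
  | insert f B hf ih =>
    have h1 : (1 : (Fin n → Bool) → K) - noneOf (insert f B) =
        1 * cf f + (1 - cf f) * (1 - noneOf B) := by
      unfold noneOf
      rw [prod_insert hf]
      ring
    rw [h1, card_insert_of_notMem hf]
    have h2 : (B.card + 1) * ((Fintype.card K - 1) * t) =
        (Fintype.card K - 1) * t + B.card * ((Fintype.card K - 1) * t) := by ring
    rw [h2]
    refine Submodule.add_mem _ (Submodule.subset_span ⟨1, one_mem_Pol _, _,
      hL f (mem_insert_self _ _), rfl⟩) ?_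
    exact ideal_deg_mul (Submodule.sub_mem _ (one_mem_Pol _) (cf_mem (hB f (mem_insert_self _ _))))
      (ih (fun g hg => hB g (mem_insert_of_mem hg)) fun g hg => hL g (mem_insert_of_mem hg))

theorem mem_ideal_of_mul {B : Finset ((Fin n → Bool) → K)} {t e : ℕ}
    {L : Submodule K ((Fin n → Bool) → K)} (hB : ∀ f ∈ B, f ∈ Pol K n t)
    (hL : ∀ f ∈ B, cf f ∈ L) {y : (Fin n → Bool) → K} (hy : y ∈ Pol K n e)
    (h0 : y * noneOf B = 0) : y ∈ ideal (e + B.card * ((Fintype.card K - 1) * t)) L := by
  have h1 : y = y * (1 - noneOf B) := by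
    rw [mul_sub, h0, mul_one, sub_zero]
  rw [h1]
  exact ideal_deg_mul hy (one_sub_noneOf_mem hB hL)

/-- A partition of unity for the first false premise. -/
theorem exists_partition {σ : Type} {A : σ → Finset ((Fin n → Bool) → K)} {t r : ℕ}
    (P : Finset σ) (hA : ∀ j ∈ P, ∀ f ∈ A j, f ∈ Pol K n t) (hr : ∀ j ∈ P, (A j).card ≤ r) :
    ∃ (m : ℕ) (j : Fin m → σ) (y : Fin m → (Fin n → Bool) → K), (∀ i, j i ∈ P) ∧
      ∑ i, noneOf (A (j i)) * y i + ∏ i ∈ P, (1 - noneOf (A i)) = 1 ∧
      (∀ i, noneOf (A (j i)) * y i ∈ Pol K n (P.card * (r * ((Fintype.card K - 1) * t)))) ∧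
      ∏ i ∈ P, (1 - noneOf (A i)) ∈ Pol K n (P.card * (r * ((Fintype.card K - 1) * t))) := by
  classical
  induction P using Finset.induction_on with
  | empty =>
    refine ⟨0, Fin.elim0, Fin.elim0, fun i => i.elim0, ?_, fun i => i.elim0, ?_⟩
    · rw [Fin.sum_univ_zero, prod_empty, zero_add]
    · rw [prod_empty]
      exact one_mem_Pol _
  | insert a P ha ih =>
    obtain ⟨m, j, y, h1, h2, h3, h4⟩ := ih (fun j hj => hA j (mem_insert_of_mem hj))
      (fun j hj => hr j (mem_insert_of_mem hj))
    have hna : noneOf (A a) ∈ Pol K n (r * ((Fintype.card K - 1) * t)) :=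
      Poly_mono K (Nat.mul_le_mul_right _ (hr a (mem_insert_self _ _)))
        (noneOf_mem (hA a (mem_insert_self _ _)))
    have hcard : ((insert a P).card) * (r * ((Fintype.card K - 1) * t)) =
        r * ((Fintype.card K - 1) * t) + P.card * (r * ((Fintype.card K - 1) * t)) := by
      rw [card_insert_of_notMem ha]
      ring
    refine ⟨m + 1, Fin.snoc j a, Fin.snoc y (∏ i ∈ P, (1 - noneOf (A i))), ?_, ?_, ?_, ?_⟩
    · intro i
      refine Fin.lastCases ?_ (fun i => ?_) i
      · rw [Fin.snoc_last]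
        exact mem_insert_self _ _
      · rw [Fin.snoc_castSucc]
        exact mem_insert_of_mem (h1 i)
    · rw [Fin.sum_univ_castSucc, prod_insert ha]
      simp only [Fin.snoc_last, Fin.snoc_castSucc]
      linear_combination h2
    · intro i
      refine Fin.lastCases ?_ (fun i => ?_) i
      · simp only [Fin.snoc_last]
        rw [hcard]
        exact Poly_mul K hna h4
      · simp only [Fin.snoc_castSucc]
        refine Poly_mono K ?_ (h3 i)
        rw [hcard]
        exact Nat.le_add_left _ _
    · rw [prod_insert ha, hcard]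
      exact Poly_mul K (Submodule.sub_mem _ (one_mem_Pol _) hna) h4

end Pool.Agent.MP_9cec2c_lc.SizeDeg
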