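import Mathlib

/-!
Assignments, clauses and CNFs.
-/

namespace Pool.Agent.MP_9cec2c_lc.ShortLines

/-- A truth assignment to the variables `0, ..., n - 1`. -/
abbrev Cube (n : ℕ) := Fin n → Bool

/-- A literal: a variable and the truth value that makes the literal true. -/
abbrev Lit (n : ℕ) := Fin n × Bool

/-- A clause: a finite set of literals. -/
abbrev Clause (n : ℕ) := Finset (Lit n)

/-- The assignment `x` satisfies the clause `C`. -/
def Holds {n : ℕ} (x : Cube n) (C : Clause n) : Prop := ∃ l ∈ C, x l.1 = l.2

/-- The CNF with the `N` clauses `f i 0 ∨ ... ∨ f i (w - 1)`, `i < N`. -/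
def cnf {n N w : ℕ} (f : Fin N → Fin w → Lit n) : Finset (Clause n) :=
  Finset.univ.image fun i => Finset.univ.image (f i)

end Pool.Agent.MP_9cec2c_lc.ShortLines
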