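import Mathlib
import Pool.Agent.Lib.MP_9cec2c_lc.SLCube

/-!
Shallow refutations with short lines: definitions for the proof.
-/

namespace Pool.Agent.MP_9cec2c_lc.ShortLines

/-- The Boolean functions `L 0, ..., L (S - 1)` are the lines of a refutation of the CNF `F`:
some line is false everywhere, and each line `L i` is implied by a set `P` of at most `m` lines
together with a set `G` of at most `q` clauses of `F`. The numbers `rank i ≤ q` and `level i ≤ D`
bound the paths of inferences below the line `L i`: the rank drops from `L i` to each line in `P`,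
the level never grows, and it drops when `P` has at least two lines. -/
def IsRefutation {n S : ℕ} (F : Finset (Clause n)) (q D m : ℕ) (L : Fin S → Cube n → Bool) :
    Prop :=
  (∃ i, ∀ x, L i x = false) ∧
  ∃ rank level : Fin S → ℕ, (∀ i, rank i ≤ q) ∧ (∀ i, level i ≤ D) ∧
    ∀ i, ∃ (P : Finset (Fin S)) (G : Finset (Clause n)),
      P.card ≤ m ∧ G ⊆ F ∧ G.card ≤ q ∧
      (∀ j ∈ P, rank j < rank i ∧ level j ≤ level i ∧ (1 < P.card → level j < level i)) ∧
      ∀ x, (∀ j ∈ P, L j x = true) → (∀ C ∈ G, Holds x C) → L i x = true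

/-- The CNF `F` is unsatisfiable, and in each refutation of `F` with `S` lines from the set `LL`,
in which each line is implied by at most `m` lines (`2 ≤ m ≤ q`) and at most `q` clauses of `F`,
and each path of inferences has at most `q` inferences and at most `D` inferences from more than
one line, we have `D * log2 (2 * S) * log2 m ≥ δ * n ^ 2`. -/
def Hard {n : ℕ} (LL : Finset (Cube n → Bool)) (q : ℕ) (δ : ℝ) (F : Finset (Clause n)) : Prop :=
  (∀ x, ∃ C ∈ F, ¬ Holds x C) ∧
  ∀ (S D m : ℕ) (L : Fin S → Cube n → Bool), (∀ i, L i ∈ LL) → 2 ≤ m → m ≤ q →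
    IsRefutation F q D m L →
    δ * (n : ℝ) ^ 2 ≤ D * Real.logb 2 (2 * S) * Real.logb 2 m

end Pool.Agent.MP_9cec2c_lc.ShortLines
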