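import Mathlib
import Pool.Agent.Lib.MP_9cec2c_lc.SLDefs

/-!
Short lines: auxiliary definitions for the proof.
-/

namespace Pool.Agent.MP_9cec2c_lc.ShortLines

open Finset

/-- Sets obtained from the whole space by at most `T` steps `B ↦ B ∩ Z`, `B ↦ B \ Z`, `Z ∈ ZZ`. -/
def cuts {X : Type*} [Fintype X] [DecidableEq X] (ZZ : Finset (Finset X)) :
    ℕ → Finset (Finset X)
  | 0 => {univ}
  | T + 1 => cuts ZZ T ∪ (Finset.image₂ (fun B Z => B ∩ Z) (cuts ZZ T) ZZ ∪
      Finset.image₂ (fun B Z => B \ Z) (cuts ZZ T) ZZ)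

/-- The set `A` is heavy for `U`. -/
def Heavy {X : Type*} [DecidableEq X] (t : ℕ) (A U : Finset X) : Prop :=
  U.card < t * (U ∩ A).card

open scoped Classical in
/-- The family `A` of sets behaves like a random one for the sets generated by `ZZ`. -/
structure Good {X ι : Type*} [DecidableEq X] [Fintype X] [Fintype ι] (A : ι → Finset X)
    (ZZ : Finset (Finset X)) (t r₀ r T τ : ℕ) : Prop where
  root : ∀ i, ¬ Heavy t (A i) univ
  peel : ∀ Z ∈ ZZ, ∀ i : ℕ → ι, ∃ j < r₀,
    ¬ (τ ≤ (Z \ ((range j).biUnion fun l => A (i l))).card ∧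
      Heavy t (A (i j)) (Z \ ((range j).biUnion fun l => A (i l))))
  spread : ∀ B ∈ cuts ZZ T, ∀ J : Finset ι, J.card ≤ r₀ → τ ≤ (B \ J.biUnion A).card →
    (univ.filter fun i => Heavy t (A i) (B \ J.biUnion A)).card ≤ r

/-- The set of assignments that falsify all literals `x (C e).1 ≠ (C e).2`, `e < w`. -/
def viol {n w : ℕ} (C : Fin w → Fin n × Bool) : Finset (Cube n) :=
  univ.filter fun x => ∀ e, x (C e).1 = (C e).2

/-- The number of pairs of a variable and a bit on which all points `x a` agree. -/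
def agree {n q : ℕ} (x : Fin q → Cube n) : ℕ :=
  (univ.filter fun l : Fin n × Bool => ∀ a, x a l.1 = l.2).card

section cuts

variable {X : Type*} [Fintype X] [DecidableEq X]

theorem cuts_succ {ZZ : Finset (Finset X)} {T : ℕ} {B : Finset X} (h : B ∈ cuts ZZ T) :
    B ∈ cuts ZZ (T + 1) := by
  rw [cuts]
  exact mem_union_left _ h

theorem cuts_mono {ZZ : Finset (Finset X)} {T T' : ℕ} (hT : T ≤ T') {B : Finset X}
    (h : B ∈ cuts ZZ T) : B ∈ cuts ZZ T' := by
  induction T', hT using Nat.le_induction with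
  | base => exact h
  | succ k _ ih => exact cuts_succ ih

theorem univ_mem_cuts (ZZ : Finset (Finset X)) (T : ℕ) : univ ∈ cuts ZZ T :=
  cuts_mono (Nat.zero_le T) (by rw [cuts]; exact mem_singleton_self _)

theorem inter_mem_cuts {ZZ : Finset (Finset X)} {T : ℕ} {B Z : Finset X}
    (h : B ∈ cuts ZZ T) (hZ : Z ∈ ZZ) : B ∩ Z ∈ cuts ZZ (T + 1) := by
  rw [cuts]
  exact mem_union_right _ (mem_union_left _ (mem_image₂_of_mem h hZ))

theorem sdiff_mem_cuts {ZZ : Finset (Finset X)} {T : ℕ} {B Z : Finset X}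
    (h : B ∈ cuts ZZ T) (hZ : Z ∈ ZZ) : B \ Z ∈ cuts ZZ (T + 1) := by
  rw [cuts]
  exact mem_union_right _ (mem_union_right _ (mem_image₂_of_mem h hZ))

theorem card_cuts_le (ZZ : Finset (Finset X)) (T : ℕ) :
    (cuts ZZ T).card ≤ (1 + 2 * ZZ.card) ^ T := by
  induction T with
  | zero => rw [cuts]; simp
  | succ T ih =>
    rw [cuts]
    refine (card_union_le _ _).trans ?_
    have h1 := card_union_le (Finset.image₂ (fun B Z : Finset X => B ∩ Z) (cuts ZZ T) ZZ)
      (Finset.image₂ (fun B Z : Finset X => B \ Z) (cuts ZZ T) ZZ)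
    have h2 : (Finset.image₂ (fun B Z : Finset X => B ∩ Z) (cuts ZZ T) ZZ).card ≤
      (cuts ZZ T).card * ZZ.card := card_image₂_le _ _ _
    have h3 : (Finset.image₂ (fun B Z : Finset X => B \ Z) (cuts ZZ T) ZZ).card ≤
      (cuts ZZ T).card * ZZ.card := card_image₂_le _ _ _
    rw [pow_succ]
    nlinarith [Nat.mul_le_mul_right (1 + 2 * ZZ.card) ih]

end cuts

end Pool.Agent.MP_9cec2c_lc.ShortLines
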