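import Mathlib
import Pool.Agent.Lib.MP_9cec2c_lc.SLBase

/-!
Short lines: counting functions `Fin N → C` with sequential events.
-/

namespace Pool.Agent.MP_9cec2c_lc.ShortLines

open Finset

open scoped Classical in
theorem count_step {N : ℕ} {C : Type*} [Fintype C] (i : Fin N) (P : (Fin N → C) → Prop)
    (H : (Fin N → C) → C → Prop) (b : ℕ)
    (hP : ∀ f z, P (Function.update f i z) ↔ P f)
    (hH : ∀ f z y, H (Function.update f i z) y ↔ H f y)
    (hb : ∀ f, (univ.filter (H f)).card ≤ b) :
    (univ.filter fun f : Fin N → C => P f ∧ H f (f i)).card * Fintype.card C ≤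
      b * (univ.filter P).card := by
  set A := univ.filter fun f : Fin N → C => P f ∧ H f (f i) with hA
  set S : Finset ((f : Fin N → C) × C) :=
    (univ.filter P).sigma (fun f => univ.filter (H f)) with hS
  have h1 : (A ×ˢ (univ : Finset C)).card ≤ S.card := by
    apply card_le_card_of_injOn (fun p => ⟨Function.update p.1 i p.2, p.1 i⟩)
    · rintro ⟨f, z⟩ hp
      have hf : P f ∧ H f (f i) := by
        have := (mem_product.1 (Finset.mem_coe.1 hp)).1
        rw [hA, mem_filter] at this
        exact this.2
      rw [Finset.mem_coe, hS, mem_sigma, mem_filter, mem_filter]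
      exact ⟨⟨mem_univ _, (hP f z).2 hf.1⟩, mem_univ _, (hH f z _).2 hf.2⟩
    · rintro ⟨f, z⟩ _ ⟨f', z'⟩ _ h
      have h2 : Function.update f i z = Function.update f' i z' := congrArg (fun s => s.1) h
      have h3 : f i = f' i := by
        have := congrArg (fun s : (_ : Fin N → C) × C => s.2) h
        exact this
      have h4 : z = z' := by
        have := congrFun h2 i
        simpa using this
      have h5 : f = f' := by
        funext j
        by_cases hj : j = i
        · rw [hj]; exact h3
        · have := congrFun h2 j
          simpa [Function.update_of_ne hj] using this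
      rw [h4, h5]
  have h2 : S.card ≤ b * (univ.filter P).card := by
    rw [hS, card_sigma, mul_comm]
    calc ∑ f ∈ univ.filter P, (univ.filter (H f)).card ≤ ∑ _f ∈ univ.filter P, b :=
          sum_le_sum fun f _ => hb f
      _ = (univ.filter P).card * b := by rw [sum_const, smul_eq_mul]
  rw [card_product, card_univ] at h1
  exact h1.trans h2

open scoped Classical in
theorem count_seq {N : ℕ} {C : Type*} [Fintype C] (b q : ℕ) (i : ℕ → Fin N)
    (H : ℕ → (Fin N → C) → C → Prop)
    (hb : ∀ j f, (univ.filter (H j f)).card ≤ b)
    (hH : ∀ j l, j ≤ l → l < q → ∀ f z y, H j (Function.update f (i l) z) y ↔ H j f y)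
    (hi : ∀ j l, j < l → l < q → i j ≠ i l) :
    (univ.filter fun f : Fin N → C => ∀ j < q, H j f (f (i j))).card * Fintype.card C ^ q ≤
      b ^ q * Fintype.card C ^ N := by
  induction q with
  | zero =>
    have h1 : (univ.filter fun f : Fin N → C => ∀ j < 0, H j f (f (i j))).card ≤
        Fintype.card C ^ N := by
      refine (card_le_card (subset_univ _)).trans ?_
      rw [card_univ, Fintype.card_fun, Fintype.card_fin]
    rw [pow_zero, pow_zero, mul_one, one_mul]
    convert h1
  | succ q ih =>
    have ih' := ih (fun j l hj hl => hH j l hj (by omega)) (fun j l hj hl => hi j l hj (by omega))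
    have h1 := count_step (i q) (fun f : Fin N → C => ∀ j < q, H j f (f (i j))) (H q) b
      (by
        intro f z
        constructor
        · intro h j hj
          have h2 := h j hj
          rw [hH j q hj.le (by omega), Function.update_of_ne (hi j q hj (by omega))] at h2
          exact h2
        · intro h j hj
          rw [hH j q hj.le (by omega), Function.update_of_ne (hi j q hj (by omega))]
          exact h j hj)
      (fun f z y => hH q q le_rfl (by omega) f z y) (hb q)
    have h2 : (univ.filter fun f : Fin N → C => ∀ j < q + 1, H j f (f (i j))) =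
        (univ.filter fun f : Fin N → C => (∀ j < q, H j f (f (i j))) ∧ H q f (f (i q))) := by
      apply filter_congr
      intro f _
      constructor
      · intro h
        exact ⟨fun j hj => h j (by omega), h q (by omega)⟩
      · rintro ⟨h, h'⟩ j hj
        rcases Nat.lt_succ_iff_lt_or_eq.1 hj with hj' | rfl
        · exact h j hj'
        · exact h'
    rw [h2]
    calc (univ.filter fun f : Fin N → C => (∀ j < q, H j f (f (i j))) ∧ H q f (f (i q))).card *
          Fintype.card C ^ (q + 1)
        = ((univ.filter fun f : Fin N → C => (∀ j < q, H j f (f (i j))) ∧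
            H q f (f (i q))).card * Fintype.card C) * Fintype.card C ^ q := by ring
      _ ≤ (b * (univ.filter fun f : Fin N → C => ∀ j < q, H j f (f (i j))).card) *
            Fintype.card C ^ q := Nat.mul_le_mul_right _ (by convert h1)
      _ = b * ((univ.filter fun f : Fin N → C => ∀ j < q, H j f (f (i j))).card *
            Fintype.card C ^ q) := by ring
      _ ≤ b * (b ^ q * Fintype.card C ^ N) := Nat.mul_le_mul_left _ ih'
      _ = b ^ (q + 1) * Fintype.card C ^ N := by ring

end Pool.Agent.MP_9cec2c_lc.ShortLines
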