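import Mathlib
import Pool.Agent.Lib.MP_9cec2c_lc.SLBase

/-!
A random CNF with `n ^ 2 * 2 ^ w` clauses is unsatisfiable.
-/

namespace Pool.Agent.MP_9cec2c_lc.ShortLines

open Finset

theorem SLUnsat_card_agree {n : ℕ} (x : Cube n) :
    (univ.filter fun l : Fin n × Bool => x l.1 = l.2).card = n := by
  have h : (univ.filter fun l : Fin n × Bool => x l.1 = l.2) =
      univ.image fun j : Fin n => (j, x j) := by
    ext ⟨j, b⟩
    simp only [mem_filter, mem_univ, true_and, mem_image, Prod.mk.injEq]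
    constructor
    · intro h
      exact ⟨j, rfl, h⟩
    · rintro ⟨j', rfl, h⟩
      exact h
  rw [h, card_image_of_injective]
  · simp
  · intro a b hab
    exact (Prod.mk.injEq _ _ _ _ ▸ hab).1

theorem SLUnsat_card_viol {n w : ℕ} (x : Cube n) :
    (univ.filter fun C : Fin w → Fin n × Bool => x ∈ viol C).card = n ^ w := by
  have h : (univ.filter fun C : Fin w → Fin n × Bool => x ∈ viol C) =
      Fintype.piFinset (fun _ : Fin w => univ.filter fun l : Fin n × Bool => x l.1 = l.2) := by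
    ext C
    simp [viol, Fintype.mem_piFinset]
  rw [h, Fintype.card_piFinset]
  simp only [SLUnsat_card_agree, prod_const, card_univ, Fintype.card_fin]

theorem SLUnsat_card_not_viol {n w : ℕ} (x : Cube n) :
    (univ.filter fun C : Fin w → Fin n × Bool => x ∉ viol C).card = (2 * n) ^ w - n ^ w := by
  have h1 : (univ.filter fun C : Fin w → Fin n × Bool => x ∈ viol C).card +
      (univ.filter fun C : Fin w → Fin n × Bool => ¬ x ∈ viol C).card =
      (univ : Finset (Fin w → Fin n × Bool)).card := card_filter_add_card_filter_not _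
  rw [SLUnsat_card_viol] at h1
  have h2 : (univ : Finset (Fin w → Fin n × Bool)).card = (2 * n) ^ w := by
    rw [card_univ]
    simp [mul_comm]
  rw [h2] at h1
  omega

theorem SLUnsat_half (m : ℕ) (hm : 1 ≤ m) : (1 - 1 / (m : ℝ)) ^ m ≤ 1 / 2 := by
  have hm0 : (0 : ℝ) < m := by exact_mod_cast hm
  have h1 : 1 - 1 / (m : ℝ) ≤ Real.exp (-(1 / (m : ℝ))) := by
    have := Real.add_one_le_exp (-(1 / (m : ℝ)))
    linarith
  have h0 : 0 ≤ 1 - 1 / (m : ℝ) := by
    have : 1 / (m : ℝ) ≤ 1 := by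
      rw [div_le_one hm0]
      exact_mod_cast hm
    linarith
  calc (1 - 1 / (m : ℝ)) ^ m ≤ (Real.exp (-(1 / (m : ℝ)))) ^ m := pow_le_pow_left₀ h0 h1 m
    _ = Real.exp (-1) := by
      rw [← Real.exp_nat_mul]
      congr 1
      field_simp
    _ ≤ 1 / 2 := by
      rw [Real.exp_neg, one_div]
      have : (2 : ℝ) ≤ Real.exp 1 := by
        have := Real.add_one_le_exp (1 : ℝ)
        linarith
      exact inv_anti₀ (by norm_num) this

open scoped Classical in
theorem few_satisfiable {n w N : ℕ} (hn : 3 ≤ n) (hN : N = n ^ 2 * 2 ^ w) :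
    (univ.filter fun f : Fin N → Fin w → Fin n × Bool => ∃ x, ∀ i, x ∉ viol (f i)).card *
      (4 * 2 ^ n) ≤ ((2 * n) ^ w) ^ N := by
  have hbad : (univ.filter fun f : Fin N → Fin w → Fin n × Bool => ∃ x, ∀ i, x ∉ viol (f i)).card ≤
      2 ^ n * ((2 * n) ^ w - n ^ w) ^ N := by
    have hsub : (univ.filter fun f : Fin N → Fin w → Fin n × Bool => ∃ x, ∀ i, x ∉ viol (f i)) ⊆
        (univ : Finset (Cube n)).biUnion (fun x =>
          Fintype.piFinset (fun _ : Fin N =>
            univ.filter fun C : Fin w → Fin n × Bool => x ∉ viol C)) := by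
      intro f hf
      obtain ⟨x, hx⟩ := (mem_filter.1 hf).2
      rw [mem_biUnion]
      refine ⟨x, mem_univ _, ?_⟩
      rw [Fintype.mem_piFinset]
      intro i
      exact mem_filter.2 ⟨mem_univ _, hx i⟩
    refine (card_le_card hsub).trans (card_biUnion_le.trans ?_)
    have hx : ∀ x : Cube n, (Fintype.piFinset (fun _ : Fin N =>
        univ.filter fun C : Fin w → Fin n × Bool => x ∉ viol C)).card =
        ((2 * n) ^ w - n ^ w) ^ N := by
      intro x
      rw [Fintype.card_piFinset, prod_const, card_univ, Fintype.card_fin]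
      congr 1
      convert SLUnsat_card_not_viol x
    rw [sum_congr rfl fun x _ => hx x, sum_const, card_univ, smul_eq_mul]
    simp
  have hreal : ((2 ^ n * ((2 * n) ^ w - n ^ w) ^ N * (4 * 2 ^ n) : ℕ) : ℝ) ≤ ((((2 * n) ^ w) ^ N : ℕ) : ℝ) := by
    have hle : n ^ w ≤ (2 * n) ^ w := Nat.pow_le_pow_left (by omega) w
    have hw0 : (0 : ℝ) < 2 ^ w := by positivity
    have hsubc : (((2 * n) ^ w - n ^ w : ℕ) : ℝ) = (2 * (n : ℝ)) ^ w * (1 - 1 / ((2 ^ w : ℕ) : ℝ)) := by
      rw [Nat.cast_sub hle]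
      push_cast
      rw [mul_pow]
      field_simp
    have hhalf := SLUnsat_half (2 ^ w) Nat.one_le_two_pow
    have hnn : 0 ≤ 1 - 1 / ((2 ^ w : ℕ) : ℝ) := by
      have : 1 / ((2 ^ w : ℕ) : ℝ) ≤ 1 := by
        rw [div_le_one (by positivity)]
        exact_mod_cast Nat.one_le_two_pow
      linarith
    have hpow : (1 - 1 / ((2 ^ w : ℕ) : ℝ)) ^ N ≤ (1 / 2) ^ (n ^ 2) := by
      rw [hN, mul_comm, pow_mul]
      exact pow_le_pow_left₀ (by positivity) hhalf _
    have h4 : (2 : ℝ) ^ n * (4 * 2 ^ n) * (1 / 2) ^ (n ^ 2) ≤ 1 := by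
      have h5 : (2 : ℝ) ^ n * (4 * 2 ^ n) = 2 ^ (2 * n + 2) := by rw [pow_add, pow_mul']; ring
      have h6 : 2 * n + 2 ≤ n ^ 2 := by nlinarith
      rw [h5, one_div, inv_pow, ← div_eq_mul_inv, div_le_one (by positivity)]
      exact pow_le_pow_right₀ (by norm_num) h6
    push_cast
    rw [hsubc, mul_pow]
    have h7 : (0 : ℝ) ≤ ((2 * (n : ℝ)) ^ w) ^ N := by positivity
    calc (2 : ℝ) ^ n * (((2 * (n : ℝ)) ^ w) ^ N * (1 - 1 / ((2 ^ w : ℕ) : ℝ)) ^ N) *
          (4 * 2 ^ n)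
        = ((2 * (n : ℝ)) ^ w) ^ N * ((2 : ℝ) ^ n * (4 * 2 ^ n) *
            (1 - 1 / ((2 ^ w : ℕ) : ℝ)) ^ N) := by ring
      _ ≤ ((2 * (n : ℝ)) ^ w) ^ N * ((2 : ℝ) ^ n * (4 * 2 ^ n) * (1 / 2) ^ (n ^ 2)) := by
          apply mul_le_mul_of_nonneg_left _ h7
          exact mul_le_mul_of_nonneg_left hpow (by positivity)
      _ ≤ ((2 * (n : ℝ)) ^ w) ^ N * 1 := mul_le_mul_of_nonneg_left h4 h7
      _ = ((2 * (n : ℝ)) ^ w) ^ N := mul_one _
  have hnat : 2 ^ n * ((2 * n) ^ w - n ^ w) ^ N * (4 * 2 ^ n) ≤ ((2 * n) ^ w) ^ N := by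
    exact_mod_cast hreal
  exact (Nat.mul_le_mul_right _ hbad).trans hnat

end Pool.Agent.MP_9cec2c_lc.ShortLines
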