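import Mathlib
import Pool.Agent.Lib.MP_9cec2c_lc.SLBase
import Pool.Agent.Lib.MP_9cec2c_lc.SLCount
import Pool.Agent.Lib.MP_9cec2c_lc.SLUnsat

/-!
Short lines: existence of a good family of clauses.
-/

namespace Pool.Agent.MP_9cec2c_lc.ShortLines

open Finset

/-- A union bound, with a common factor. -/
theorem SLGood_union {ι Ω : Type*} [DecidableEq Ω] (s : Finset ι) (E : ι → Finset Ω)
    (K W : ℕ) (h : ∀ i ∈ s, (E i).card * K ≤ W) (S : Finset Ω)
    (hS : ∀ f ∈ S, ∃ i ∈ s, f ∈ E i) : S.card * K ≤ s.card * W := by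
  have h1 : S ⊆ s.biUnion E := by
    intro f hf
    obtain ⟨i, hi, hfi⟩ := hS f hf
    exact mem_biUnion.2 ⟨i, hi, hfi⟩
  calc S.card * K ≤ (∑ i ∈ s, (E i).card) * K :=
        Nat.mul_le_mul_right K ((card_le_card h1).trans card_biUnion_le)
    _ = ∑ i ∈ s, (E i).card * K := by rw [sum_mul]
    _ ≤ ∑ _i ∈ s, W := sum_le_sum h
    _ = s.card * W := by rw [sum_const, smul_eq_mul]

/-- The number of small subsets. -/
theorem SLGood_small (N r : ℕ) :
    ((univ : Finset (Finset (Fin N))).filter fun J => J.card ≤ r).card ≤ (N + 1) ^ r := by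
  induction r with
  | zero =>
    rw [pow_zero]
    refine card_le_one.2 ?_
    intro a ha b hb
    have h1 := (mem_filter.1 ha).2
    have h2 := (mem_filter.1 hb).2
    rw [card_eq_zero.1 (Nat.le_zero.1 h1), card_eq_zero.1 (Nat.le_zero.1 h2)]
  | succ r ih =>
    have h1 : ((univ : Finset (Finset (Fin N))).filter fun J => J.card ≤ r + 1) ⊆
        Finset.image₂ (fun (o : Option (Fin N)) (J : Finset (Fin N)) => o.elim J (insert · J))
          univ ((univ : Finset (Finset (Fin N))).filter fun J => J.card ≤ r) := by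
      intro J hJ
      have hJ := (mem_filter.1 hJ).2
      rw [mem_image₂]
      rcases J.eq_empty_or_nonempty with rfl | ⟨a, ha⟩
      · exact ⟨none, mem_univ _, ∅, by simp, rfl⟩
      · refine ⟨some a, mem_univ _, J.erase a, ?_, insert_erase ha⟩
        rw [mem_filter, card_erase_of_mem ha]
        exact ⟨mem_univ _, by omega⟩
    calc _ ≤ _ := card_le_card h1
      _ ≤ (univ : Finset (Option (Fin N))).card *
          ((univ : Finset (Finset (Fin N))).filter fun J => J.card ≤ r).card :=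
          card_image₂_le _ _ _
      _ ≤ (N + 1) * (N + 1) ^ r := by
          rw [card_univ, Fintype.card_option, Fintype.card_fin]
          exact Nat.mul_le_mul_left _ ih
      _ = _ := by rw [pow_succ]; ring

/-- A set which does not meet `U` is not heavy for `U`. -/
theorem SLGood_not_heavy {X : Type*} [DecidableEq X] {t : ℕ} {A U : Finset X}
    (h : ∀ x ∈ A, x ∉ U) : ¬ Heavy t A U := by
  unfold Heavy
  have : U ∩ A = ∅ := by
    rw [Finset.eq_empty_iff_forall_notMem]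
    intro x hx
    exact h x (mem_inter.1 hx).2 (mem_inter.1 hx).1
  rw [this]
  simp

section

variable {n w N t τ : ℕ}

theorem SLGood_card_clause : Fintype.card (Fin w → Fin n × Bool) = (2 * n) ^ w := by
  simp [mul_comm]

/-- The clause `y` is heavy for the set `U`, which is not tiny. -/
def SLGood_H (t τ : ℕ) (U : Finset (Cube n)) (y : Fin w → Fin n × Bool) : Prop :=
  τ ≤ U.card ∧ Heavy t (viol y) U

open scoped Classical in
/-- The basic bound for sequence events. -/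
theorem SLGood_seq (hN : N = n ^ 2 * 2 ^ w) (hn : 3 ≤ n)
    (hfew : ∀ U : Finset (Cube n), τ ≤ U.card →
      (univ.filter fun C : Fin w → Fin n × Bool => Heavy t (viol C) U).card * N ^ 4 ≤
        (2 * n) ^ w)
    (q : ℕ) (i : ℕ → Fin N) (V : ℕ → (Fin N → Fin w → Fin n × Bool) → Finset (Cube n))
    (hV : ∀ j l, j ≤ l → l < q → ∀ f z, V j (Function.update f (i l) z) = V j f)
    (hi : ∀ j l, j < l → l < q → i j ≠ i l) :
    (univ.filter fun f : Fin N → Fin w → Fin n × Bool => ∀ j < q,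
      SLGood_H t τ (V j f) (f (i j))).card * N ^ (4 * q) ≤
      ((2 * n) ^ w) ^ N := by
  have hN0 : 0 < N := by
    rw [hN]
    have : 0 < n := by omega
    positivity
  obtain ⟨b, hb⟩ : ∃ b, b = (2 * n) ^ w / N ^ 4 := ⟨_, rfl⟩
  have h2 : 0 < N ^ 4 := by positivity
  have hb1 : b * N ^ 4 ≤ (2 * n) ^ w := by
    rw [hb]
    exact Nat.div_mul_le_self _ _
  have key := count_seq (N := N) (C := Fin w → Fin n × Bool) b q i
    (fun j f y => SLGood_H t τ (V j f) y) (by
      intro j f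
      by_cases h : τ ≤ (V j f).card
      · have h3 := hfew (V j f) h
        rw [hb, Nat.le_div_iff_mul_le h2]
        refine le_trans (Nat.mul_le_mul_right _ (card_le_card ?_)) h3
        intro y hy
        have hy := (Finset.mem_filter.1 hy).2
        exact Finset.mem_filter.2 ⟨mem_univ _, hy.2⟩
      · refine le_of_eq_of_le (Finset.card_eq_zero.2 ?_) (Nat.zero_le _)
        refine Finset.filter_false_of_mem ?_
        intro y _ hy
        exact h hy.1) (by
      intro j l hjl hl f z y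
      rw [hV j l hjl hl f z]) hi
  rw [SLGood_card_clause] at key
  have hM : 0 < (2 * n) ^ w := by positivity
  obtain ⟨S, hS⟩ : ∃ S, S = (univ.filter fun f : Fin N → Fin w → Fin n × Bool => ∀ j < q,
      SLGood_H t τ (V j f) (f (i j))).card := ⟨_, rfl⟩
  rw [← hS]
  have key' : S * ((2 * n) ^ w) ^ q ≤ b ^ q * ((2 * n) ^ w) ^ N := by
    rw [hS]
    exact key
  have hMq : 0 < ((2 * n) ^ w) ^ q := by positivity
  refine Nat.le_of_mul_le_mul_left ?_ hMq
  calc ((2 * n) ^ w) ^ q * (S * N ^ (4 * q))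
      = (S * ((2 * n) ^ w) ^ q) * (N ^ 4) ^ q := by
        rw [← pow_mul N 4 q]
        ring
    _ ≤ (b ^ q * ((2 * n) ^ w) ^ N) * (N ^ 4) ^ q :=
        Nat.mul_le_mul_right _ key'
    _ = (b * N ^ 4) ^ q * ((2 * n) ^ w) ^ N := by rw [mul_pow]; ring
    _ ≤ ((2 * n) ^ w) ^ q * ((2 * n) ^ w) ^ N :=
        Nat.mul_le_mul_right _ (Nat.pow_le_pow_left hb1 q)

/-- Extension of a finite sequence of indices. -/
def SLGood_ext (hN0 : 0 < N) (q : ℕ) (i : Fin q → Fin N) (l : ℕ) : Fin N :=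
  if h : l < q then i ⟨l, h⟩ else ⟨0, hN0⟩

theorem SLGood_ext_val (hN0 : 0 < N) (q : ℕ) (i : Fin q → Fin N) {l : ℕ} (h : l < q) :
    SLGood_ext hN0 q i l = i ⟨l, h⟩ := dif_pos h

theorem SLGood_ext_restrict (hN0 : 0 < N) (q : ℕ) (i : ℕ → Fin N) {l : ℕ} (h : l < q) :
    SLGood_ext hN0 q (fun k => i k) l = i l := dif_pos h

open scoped Classical in
/-- The root event. -/
theorem SLGood_root (hN : N = n ^ 2 * 2 ^ w) (hn : 3 ≤ n)
    (hτ : τ ≤ 2 ^ n)
    (hfew : ∀ U : Finset (Cube n), τ ≤ U.card →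
      (univ.filter fun C : Fin w → Fin n × Bool => Heavy t (viol C) U).card * N ^ 4 ≤
        (2 * n) ^ w) :
    (univ.filter fun f : Fin N → Fin w → Fin n × Bool =>
      ∃ i, Heavy t (viol (f i)) univ).card * N ^ 4 ≤ N * ((2 * n) ^ w) ^ N := by
  have one : ∀ i : Fin N, (univ.filter fun f : Fin N → Fin w → Fin n × Bool =>
      SLGood_H t τ univ (f i)).card * N ^ 4 ≤ ((2 * n) ^ w) ^ N := by
    intro i
    have h1 := SLGood_seq hN hn hfew 1 (fun _ => i) (fun _ _ => univ)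
      (fun _ _ _ _ _ _ => rfl) (fun j l h1 h2 => by omega)
    refine le_trans (Nat.mul_le_mul_right _ (card_le_card ?_)) h1
    intro f hf
    exact Finset.mem_filter.2 ⟨mem_univ _, fun j _ => (Finset.mem_filter.1 hf).2⟩
  have key := SLGood_union (univ : Finset (Fin N))
    (fun i => univ.filter fun f : Fin N → Fin w → Fin n × Bool => SLGood_H t τ univ (f i))
    (N ^ 4) (((2 * n) ^ w) ^ N) (fun i _ => one i)
    (univ.filter fun f : Fin N → Fin w → Fin n × Bool => ∃ i, Heavy t (viol (f i)) univ) (by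
      intro f hf
      obtain ⟨i, hi⟩ := (Finset.mem_filter.1 hf).2
      refine ⟨i, mem_univ _, Finset.mem_filter.2 ⟨mem_univ _, ?_, hi⟩⟩
      simpa using hτ)
  rw [card_univ, Fintype.card_fin] at key
  exact key

/-- the sets of the peeling process -/
def SLGood_V (Z : Finset (Cube n)) (i : ℕ → Fin N) (j : ℕ)
    (f : Fin N → Fin w → Fin n × Bool) : Finset (Cube n) :=
  Z \ ((range j).biUnion fun l => viol (f (i l)))

theorem SLGood_V_disj (Z : Finset (Cube n)) (i : ℕ → Fin N) {j l : ℕ} (h : l < j)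
    (f : Fin N → Fin w → Fin n × Bool) : ∀ x ∈ viol (f (i l)), x ∉ SLGood_V Z i j f := by
  intro x hx hx2
  unfold SLGood_V at hx2
  rw [mem_sdiff, mem_biUnion] at hx2
  exact hx2.2 ⟨l, mem_range.2 h, hx⟩

open scoped Classical in
/-- One peeling event. -/
theorem SLGood_peel_one (hN : N = n ^ 2 * 2 ^ w) (hn : 3 ≤ n)
    (hfew : ∀ U : Finset (Cube n), τ ≤ U.card →
      (univ.filter fun C : Fin w → Fin n × Bool => Heavy t (viol C) U).card * N ^ 4 ≤
        (2 * n) ^ w) (Z : Finset (Cube n)) (q : ℕ) (i : ℕ → Fin N) :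
    (univ.filter fun f : Fin N → Fin w → Fin n × Bool => ∀ j < q,
      SLGood_H t τ (SLGood_V Z i j f) (f (i j))).card * N ^ (4 * q) ≤
      ((2 * n) ^ w) ^ N := by
  by_cases hi : ∀ j l, j < l → l < q → i j ≠ i l
  · refine SLGood_seq hN hn hfew q i (SLGood_V Z i) ?_ hi
    intro j l hjl hl f z
    unfold SLGood_V
    congr 1
    refine Finset.biUnion_congr rfl ?_
    intro k hk
    have hk := mem_range.1 hk
    rw [Function.update_of_ne (hi k l (by omega) hl)]
  · push Not at hi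
    obtain ⟨j, l, hjl, hl, he⟩ := hi
    rw [Finset.filter_false_of_mem]
    · simp
    · intro f _ hf
      have h1 := (hf l hl).2
      refine SLGood_not_heavy ?_ h1
      rw [← he]
      exact SLGood_V_disj Z i hjl f

open scoped Classical in
/-- The peeling event. -/
theorem SLGood_peel {y : ℕ} (hN : N = n ^ 2 * 2 ^ w) (hn : 3 ≤ n)
    (ZZ : Finset (Finset (Cube n))) (hZZ : ZZ.card ≤ 2 ^ y)
    (hfew : ∀ U : Finset (Cube n), τ ≤ U.card →
      (univ.filter fun C : Fin w → Fin n × Bool => Heavy t (viol C) U).card * N ^ 4 ≤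
        (2 * n) ^ w) (hN0 : 0 < N) (q : ℕ) :
    (univ.filter fun f : Fin N → Fin w → Fin n × Bool => ∃ Z ∈ ZZ, ∃ i : ℕ → Fin N, ∀ j < q,
      SLGood_H t τ (SLGood_V Z i j f) (f (i j))).card * N ^ (4 * q) ≤
      2 ^ y * N ^ q * ((2 * n) ^ w) ^ N := by
  have key := SLGood_union (ZZ ×ˢ (univ : Finset (Fin q → Fin N)))
    (fun a => univ.filter fun f : Fin N → Fin w → Fin n × Bool => ∀ j < q,
      SLGood_H t τ (SLGood_V a.1 (SLGood_ext hN0 q a.2) j f) (f (SLGood_ext hN0 q a.2 j)))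
    (N ^ (4 * q)) (((2 * n) ^ w) ^ N)
    (fun a _ => SLGood_peel_one hN hn hfew a.1 q (SLGood_ext hN0 q a.2))
    (univ.filter fun f : Fin N → Fin w → Fin n × Bool => ∃ Z ∈ ZZ, ∃ i : ℕ → Fin N, ∀ j < q,
      SLGood_H t τ (SLGood_V Z i j f) (f (i j))) (by
      intro f hf
      obtain ⟨Z, hZ, i, hi⟩ := (Finset.mem_filter.1 hf).2
      refine ⟨(Z, fun k => i k), mem_product.2 ⟨hZ, mem_univ _⟩,
        Finset.mem_filter.2 ⟨mem_univ _, fun j hj => ?_⟩⟩
      have h1 : SLGood_V Z (SLGood_ext hN0 q fun k => i k) j f = SLGood_V Z i j f := by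
        unfold SLGood_V
        congr 1
        refine Finset.biUnion_congr rfl ?_
        intro k hk
        have hk := mem_range.1 hk
        rw [SLGood_ext_restrict hN0 q i (by omega)]
      rw [h1, SLGood_ext_restrict hN0 q i hj]
      exact hi j hj)
  refine key.trans (Nat.mul_le_mul_right _ ?_)
  rw [card_product, card_univ, Fintype.card_fun, Fintype.card_fin, Fintype.card_fin]
  exact Nat.mul_le_mul_right _ hZZ

open scoped Classical in
/-- One spreading event. -/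
theorem SLGood_spread_one (hN : N = n ^ 2 * 2 ^ w) (hn : 3 ≤ n)
    (hfew : ∀ U : Finset (Cube n), τ ≤ U.card →
      (univ.filter fun C : Fin w → Fin n × Bool => Heavy t (viol C) U).card * N ^ 4 ≤
        (2 * n) ^ w) (B : Finset (Cube n)) (J : Finset (Fin N)) (q : ℕ) (i : ℕ → Fin N)
    (hi : ∀ j l, j < l → l < q → i j ≠ i l) :
    (univ.filter fun f : Fin N → Fin w → Fin n × Bool => ∀ j < q,
      SLGood_H t τ (B \ J.biUnion fun l => viol (f l)) (f (i j))).card * N ^ (4 * q) ≤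
      ((2 * n) ^ w) ^ N := by
  by_cases hJ : ∀ l < q, i l ∉ J
  · refine SLGood_seq hN hn hfew q i (fun _ f => B \ J.biUnion fun l => viol (f l)) ?_ hi
    intro j l _ hl f z
    congr 1
    refine Finset.biUnion_congr rfl ?_
    intro k hk
    rw [Function.update_of_ne]
    rintro rfl
    exact hJ l hl hk
  · push Not at hJ
    obtain ⟨l, hl, hlJ⟩ := hJ
    rw [Finset.filter_false_of_mem]
    · simp
    · intro f _ hf
      have h1 := (hf l hl).2
      refine SLGood_not_heavy ?_ h1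
      intro x hx hx2
      rw [mem_sdiff, mem_biUnion] at hx2
      exact hx2.2 ⟨i l, hlJ, hx⟩

open scoped Classical in
/-- The spreading event. -/
theorem SLGood_spread {y r₀ r T : ℕ} (hN : N = n ^ 2 * 2 ^ w) (hn : 3 ≤ n)
    (ZZ : Finset (Finset (Cube n))) (hZZ : ZZ.card ≤ 2 ^ y)
    (hfew : ∀ U : Finset (Cube n), τ ≤ U.card →
      (univ.filter fun C : Fin w → Fin n × Bool => Heavy t (viol C) U).card * N ^ 4 ≤
        (2 * n) ^ w) (hN0 : 0 < N) :
    (univ.filter fun f : Fin N → Fin w → Fin n × Bool => ∃ B ∈ cuts ZZ T, ∃ J : Finset (Fin N),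
      J.card ≤ r₀ ∧ τ ≤ (B \ J.biUnion fun l => viol (f l)).card ∧
      r < (univ.filter fun i => Heavy t (viol (f i)) (B \ J.biUnion fun l => viol (f l))).card
      ).card * N ^ (4 * (r + 1)) ≤
      (1 + 2 * 2 ^ y) ^ T * (N + 1) ^ r₀ * N ^ (r + 1) * ((2 * n) ^ w) ^ N := by
  have key := SLGood_union
    ((cuts ZZ T ×ˢ ((univ : Finset (Finset (Fin N))).filter fun J => J.card ≤ r₀)) ×ˢ
      ((univ : Finset (Fin (r + 1) → Fin N)).filter fun i => Function.Injective i))
    (fun a => univ.filter fun f : Fin N → Fin w → Fin n × Bool => ∀ j < r + 1,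
      SLGood_H t τ (a.1.1 \ a.1.2.biUnion fun l => viol (f l))
        (f (SLGood_ext hN0 (r + 1) a.2 j)))
    (N ^ (4 * (r + 1))) (((2 * n) ^ w) ^ N)
    (fun a ha => SLGood_spread_one hN hn hfew a.1.1 a.1.2 (r + 1)
      (SLGood_ext hN0 (r + 1) a.2) (by
        intro j l hjl hl he
        have hinj := (Finset.mem_filter.1 (mem_product.1 ha).2).2
        rw [SLGood_ext_val hN0 (r + 1) a.2 (hjl.trans hl),
          SLGood_ext_val hN0 (r + 1) a.2 hl] at he
        have := congrArg Fin.val (hinj he)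
        simp only at this
        omega))
    (univ.filter fun f : Fin N → Fin w → Fin n × Bool => ∃ B ∈ cuts ZZ T,
      ∃ J : Finset (Fin N), J.card ≤ r₀ ∧ τ ≤ (B \ J.biUnion fun l => viol (f l)).card ∧
      r < (univ.filter fun i => Heavy t (viol (f i))
        (B \ J.biUnion fun l => viol (f l))).card) (by
      intro f hf
      obtain ⟨B, hB, J, hJ, hτ, hr⟩ := (Finset.mem_filter.1 hf).2
      obtain ⟨H, hH1, hH2⟩ := Finset.exists_subset_card_eq (Nat.succ_le_of_lt hr)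
      have e := (H.equivFinOfCardEq hH2).symm
      refine ⟨((B, J), fun k => (e k : Fin N)), mem_product.2 ⟨mem_product.2 ⟨hB,
        Finset.mem_filter.2 ⟨mem_univ _, hJ⟩⟩, Finset.mem_filter.2 ⟨mem_univ _, ?_⟩⟩,
        Finset.mem_filter.2 ⟨mem_univ _, fun j hj => ⟨hτ, ?_⟩⟩⟩
      · intro a b hab
        exact e.injective (Subtype.ext hab)
      · rw [SLGood_ext_val hN0 (r + 1) _ hj]
        exact (Finset.mem_filter.1 (hH1 (e ⟨j, hj⟩).2)).2)
  refine key.trans (Nat.mul_le_mul_right _ ?_)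
  rw [card_product, card_product]
  refine Nat.mul_le_mul (Nat.mul_le_mul ?_ (SLGood_small N r₀)) ?_
  · exact (card_cuts_le ZZ T).trans (Nat.pow_le_pow_left (by omega) T)
  · refine (card_filter_le _ _).trans ?_
    rw [card_univ, Fintype.card_fun, Fintype.card_fin, Fintype.card_fin]

end

open scoped Classical in
theorem few_bad {n w N t r₀ r T τ y : ℕ} (hn : 3 ≤ n) (hN : N = n ^ 2 * 2 ^ w)
    (hτ : τ ≤ 2 ^ n) (hr₀ : y + 1 ≤ r₀) (hr : r₀ + T * (y + 2) ≤ r) (hyN : y ≤ N)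
    (hy2n : y ≤ 2 ^ n)
    (ZZ : Finset (Finset (Cube n))) (hZZ : ZZ.card ≤ 2 ^ y)
    (hfew : ∀ U : Finset (Cube n), τ ≤ U.card →
      (univ.filter fun C : Fin w → Fin n × Bool => Heavy t (viol C) U).card * N ^ 4 ≤
        (2 * n) ^ w) :
    y * (univ.filter fun f : Fin N → Fin w → Fin n × Bool => ¬ ((∀ x, ∃ i, x ∈ viol (f i)) ∧
      Good (fun i => viol (f i)) ZZ t r₀ r T τ)).card ≤ ((2 * n) ^ w) ^ N := by
  have hN2 : 2 ≤ N := by
    have h1 : 2 ^ 2 ≤ n ^ 2 := Nat.pow_le_pow_left (by omega) 2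
    have h2 : 1 ≤ 2 ^ w := Nat.one_le_two_pow
    rw [hN]
    nlinarith
  have hN0 : 0 < N := by omega
  obtain ⟨W, hW⟩ : ∃ W, W = ((2 * n) ^ w) ^ N := ⟨_, rfl⟩
  have hW0 : 0 < W := by
    rw [hW]
    positivity
  have b1 := SLGood_root (t := t) hN hn hτ hfew
  have b2 := SLGood_peel hN hn ZZ hZZ hfew hN0 r₀
  have b3 := SLGood_spread (r₀ := r₀) (r := r) (T := T) hN hn ZZ hZZ hfew hN0
  have b4 := few_satisfiable (w := w) hn hN
  rw [← hW] at b1 b2 b3 b4
  -- the four bad sets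
  obtain ⟨S1, hS1⟩ : ∃ S, S = (univ.filter fun f : Fin N → Fin w → Fin n × Bool =>
      ∃ i, Heavy t (viol (f i)) univ) := ⟨_, rfl⟩
  obtain ⟨S2, hS2⟩ : ∃ S, S = (univ.filter fun f : Fin N → Fin w → Fin n × Bool =>
      ∃ Z ∈ ZZ, ∃ i : ℕ → Fin N, ∀ j < r₀,
      SLGood_H t τ (SLGood_V Z i j f) (f (i j))) := ⟨_, rfl⟩
  obtain ⟨S3, hS3⟩ : ∃ S, S = (univ.filter fun f : Fin N → Fin w → Fin n × Bool =>
      ∃ B ∈ cuts ZZ T, ∃ J : Finset (Fin N),
      J.card ≤ r₀ ∧ τ ≤ (B \ J.biUnion fun l => viol (f l)).card ∧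
      r < (univ.filter fun i => Heavy t (viol (f i))
        (B \ J.biUnion fun l => viol (f l))).card) := ⟨_, rfl⟩
  obtain ⟨S4, hS4⟩ : ∃ S, S = (univ.filter fun f : Fin N → Fin w → Fin n × Bool =>
      ∃ x, ∀ i, x ∉ viol (f i)) := ⟨_, rfl⟩
  rw [← hS1] at b1
  rw [← hS2] at b2
  rw [← hS3] at b3
  rw [← hS4] at b4
  have c1 : S1.card * N ^ 3 ≤ W := by
    refine Nat.le_of_mul_le_mul_left ?_ hN0
    calc N * (S1.card * N ^ 3) = S1.card * N ^ 4 := by ring
      _ ≤ N * W := b1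
  have hy2 : 2 ^ y ≤ N ^ y := Nat.pow_le_pow_left hN2 y
  have c2 : S2.card * N ^ 3 ≤ W := by
    obtain ⟨k, hk⟩ : ∃ k, 4 * r₀ = (y + r₀) + (3 + k) := ⟨4 * r₀ - (y + r₀) - 3, by omega⟩
    have hpos : 0 < N ^ (y + r₀) := Nat.pow_pos hN0
    have h1 : N ^ (y + r₀) * (S2.card * N ^ (3 + k)) ≤ N ^ (y + r₀) * W := by
      calc N ^ (y + r₀) * (S2.card * N ^ (3 + k)) = S2.card * N ^ (4 * r₀) := by
            rw [hk, pow_add N (y + r₀) (3 + k)]
            ring
        _ ≤ 2 ^ y * N ^ r₀ * W := b2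
        _ ≤ N ^ y * N ^ r₀ * W :=
            Nat.mul_le_mul_right _ (Nat.mul_le_mul_right _ hy2)
        _ = N ^ (y + r₀) * W := by rw [pow_add]
    have h2 := Nat.le_of_mul_le_mul_left h1 hpos
    refine le_trans (Nat.mul_le_mul_left _ ?_) h2
    exact Nat.pow_le_pow_right hN0 (by omega)
  have c3 : S3.card * N ^ 3 ≤ W := by
    obtain ⟨e, he⟩ : ∃ e, e = (y + 2) * T + 2 * r₀ + (r + 1) := ⟨_, rfl⟩
    have hTr : (y + 2) * T + r₀ ≤ r := by
      rw [mul_comm]
      omega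
    obtain ⟨k, hk⟩ : ∃ k, 4 * (r + 1) = e + (3 + k) := ⟨4 * (r + 1) - e - 3, by omega⟩
    have hpos : 0 < N ^ e := Nat.pow_pos hN0
    have f1 : (1 + 2 * 2 ^ y) ^ T ≤ N ^ ((y + 2) * T) := by
      rw [pow_mul]
      refine Nat.pow_le_pow_left ?_ T
      have h1 : 1 ≤ 2 ^ y := Nat.one_le_two_pow
      calc 1 + 2 * 2 ^ y ≤ 2 ^ (y + 2) := by rw [pow_add]; omega
        _ ≤ N ^ (y + 2) := Nat.pow_le_pow_left hN2 _
    have f2 : (N + 1) ^ r₀ ≤ N ^ (2 * r₀) := by
      rw [pow_mul]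
      refine Nat.pow_le_pow_left ?_ r₀
      nlinarith
    have h1 : N ^ e * (S3.card * N ^ (3 + k)) ≤ N ^ e * W := by
      calc N ^ e * (S3.card * N ^ (3 + k)) = S3.card * N ^ (4 * (r + 1)) := by
            rw [hk, pow_add N e (3 + k)]
            ring
        _ ≤ (1 + 2 * 2 ^ y) ^ T * (N + 1) ^ r₀ * N ^ (r + 1) * W := b3
        _ ≤ N ^ ((y + 2) * T) * N ^ (2 * r₀) * N ^ (r + 1) * W :=
            Nat.mul_le_mul_right _ (Nat.mul_le_mul_right _ (Nat.mul_le_mul f1 f2))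
        _ = N ^ e * W := by
            rw [he, pow_add N ((y + 2) * T + 2 * r₀) (r + 1), pow_add N ((y + 2) * T) (2 * r₀)]
    have h2 := Nat.le_of_mul_le_mul_left h1 hpos
    refine le_trans (Nat.mul_le_mul_left _ ?_) h2
    exact Nat.pow_le_pow_right hN0 (by omega)
  have hN8 : 4 * y ≤ N ^ 3 := by
    calc 4 * y ≤ 4 * N := Nat.mul_le_mul_left _ hyN
      _ ≤ N ^ 2 * N := Nat.mul_le_mul_right _ (by nlinarith)
      _ = N ^ 3 := by ring
  have d1 : S1.card * (4 * y) ≤ W := (Nat.mul_le_mul_left _ hN8).trans c1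
  have d2 : S2.card * (4 * y) ≤ W := (Nat.mul_le_mul_left _ hN8).trans c2
  have d3 : S3.card * (4 * y) ≤ W := (Nat.mul_le_mul_left _ hN8).trans c3
  have d4 : S4.card * (4 * y) ≤ W :=
    (Nat.mul_le_mul_left _ (Nat.mul_le_mul_left _ hy2n)).trans b4
  have hu : y * (S1 ∪ (S2 ∪ (S3 ∪ S4))).card ≤ W := by
    have h1 := card_union_le S1 (S2 ∪ (S3 ∪ S4))
    have h2 := card_union_le S2 (S3 ∪ S4)
    have h3 := card_union_le S3 S4
    have h4 : y * (S1 ∪ (S2 ∪ (S3 ∪ S4))).card ≤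
        y * (S1.card + (S2.card + (S3.card + S4.card))) := Nat.mul_le_mul_left _ (by omega)
    have h5 : 4 * (y * (S1.card + (S2.card + (S3.card + S4.card)))) =
      S1.card * (4 * y) + S2.card * (4 * y) + S3.card * (4 * y) + S4.card * (4 * y) := by ring
    omega
  rw [← hW]
  refine le_trans (Nat.mul_le_mul_left _ (card_le_card ?_)) hu
  intro f hf0
  have hf1 := (Finset.mem_filter.1 hf0).2
  by_contra hf
  simp only [mem_union, not_or] at hf
  obtain ⟨n1, n2, n3, n4⟩ := hf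
  refine hf1 ⟨?_, ?_⟩
  · intro x
    by_contra hx
    push Not at hx
    refine n4 ?_
    rw [hS4]
    exact Finset.mem_filter.2 ⟨mem_univ _, x, hx⟩
  · refine ⟨?_, ?_, ?_⟩
    · intro i hi
      refine n1 ?_
      rw [hS1]
      exact Finset.mem_filter.2 ⟨mem_univ _, i, hi⟩
    · intro Z hZ i
      by_contra hc
      push Not at hc
      refine n2 ?_
      rw [hS2]
      exact Finset.mem_filter.2 ⟨mem_univ _, Z, hZ, i, hc⟩
    · intro B hB J hJ hB2
      by_contra hc
      push Not at hc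
      refine n3 ?_
      rw [hS3]
      exact Finset.mem_filter.2 ⟨mem_univ _, B, hB, J, hJ, hB2, hc⟩

end Pool.Agent.MP_9cec2c_lc.ShortLines
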