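import Mathlib
import Pool.Agent.Lib.MP_9cec2c_lc.SLBase

namespace Pool.Agent.MP_9cec2c_lc.ShortLines

open Finset

theorem card_viol_all {n w q : ℕ} (x : Fin q → Cube n) :
    (univ.filter fun C : Fin w → Fin n × Bool => ∀ a, x a ∈ viol C).card = agree x ^ w := by
  classical
  have h : (univ.filter fun C : Fin w → Fin n × Bool => ∀ a, x a ∈ viol C) =
      Fintype.piFinset (fun _ : Fin w => univ.filter fun l : Fin n × Bool => ∀ a, x a l.1 = l.2) := by
    ext C
    simp only [mem_filter, mem_univ, true_and, Fintype.mem_piFinset, viol]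
    exact ⟨fun h e a => h a e, fun h a e => h e a⟩
  rw [h, Fintype.card_piFinset]
  simp [agree]

open scoped Classical in
theorem moment {n w q t : ℕ} (U : Finset (Cube n)) :
    (univ.filter fun C : Fin w → Fin n × Bool => Heavy t (viol C) U).card * U.card ^ q ≤
      t ^ q * ∑ x ∈ Fintype.piFinset (fun _ : Fin q => U), agree x ^ w := by
  have h1 : ∑ x ∈ Fintype.piFinset (fun _ : Fin q => U), agree x ^ w =
      ∑ C : Fin w → Fin n × Bool, (U ∩ viol C).card ^ q := by
    have h2 : ∀ x : Fin q → Cube n, agree x ^ w =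
        ∑ C : Fin w → Fin n × Bool, if ∀ a, x a ∈ viol C then 1 else 0 := by
      intro x
      rw [← card_viol_all x, card_filter]
    rw [sum_congr rfl fun x _ => h2 x, sum_comm]
    refine sum_congr rfl fun C _ => ?_
    rw [← card_filter]
    have h3 : (Fintype.piFinset (fun _ : Fin q => U)).filter (fun x => ∀ a, x a ∈ viol C) =
        Fintype.piFinset (fun _ : Fin q => U ∩ viol C) := by
      ext x
      simp only [mem_filter, Fintype.mem_piFinset, mem_inter]
      exact ⟨fun h a => ⟨h.1 a, h.2 a⟩, fun h => ⟨fun a => (h a).1, fun a => (h a).2⟩⟩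
    rw [h3, Fintype.card_piFinset]
    simp
  rw [h1, mul_sum, ← smul_eq_mul, ← sum_const]
  calc ∑ C ∈ univ.filter (fun C : Fin w → Fin n × Bool => Heavy t (viol C) U), U.card ^ q
      ≤ ∑ C ∈ univ.filter (fun C : Fin w → Fin n × Bool => Heavy t (viol C) U),
          t ^ q * (U ∩ viol C).card ^ q := by
        refine sum_le_sum fun C hC => ?_
        rw [← mul_pow]
        exact Nat.pow_le_pow_left (mem_filter.1 hC).2.le q
    _ ≤ _ := sum_le_sum_of_subset (filter_subset _ _)

theorem agree_le {n q : ℕ} (hq : 0 < q) (x : Fin q → Cube n) : agree x ≤ n := by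
  classical
  have h : agree x ≤ (univ.image fun j : Fin n => (j, x ⟨0, hq⟩ j)).card := by
    refine card_le_card fun l hl => ?_
    have := (mem_filter.1 hl).2 ⟨0, hq⟩
    exact mem_image.2 ⟨l.1, mem_univ _, by rw [this]⟩
  refine h.trans (card_image_le.trans ?_)
  simp

theorem SLMoment_agree_eq {n q : ℕ} (x : Fin q → Cube n) :
    agree x = ∑ j : Fin n, (univ.filter fun b : Bool => ∀ a, x a j = b).card := by
  classical
  unfold agree
  rw [card_filter]
  rw [Fintype.sum_prod_type]
  refine sum_congr rfl fun j _ => ?_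
  rw [card_filter]

theorem SLMoment_one {q : ℕ} (hq : 0 < q) :
    ∑ y : Fin q → Bool, 2 ^ (univ.filter fun b : Bool => ∀ a, y a = b).card ≤ 2 ^ q + 2 := by
  classical
  have h1 : ∀ y : Fin q → Bool, 2 ^ (univ.filter fun b : Bool => ∀ a, y a = b).card ≤
      1 + (univ.filter fun b : Bool => ∀ a, y a = b).card := by
    intro y
    have h2 : (univ.filter fun b : Bool => ∀ a, y a = b).card ≤ 1 := by
      rw [card_le_one]
      intro b hb c hc
      rw [← (mem_filter.1 hb).2 ⟨0, hq⟩, ← (mem_filter.1 hc).2 ⟨0, hq⟩]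
    interval_cases (univ.filter fun b : Bool => ∀ a, y a = b).card <;> simp
  refine (sum_le_sum fun y _ => h1 y).trans ?_
  rw [sum_add_distrib]
  have h3 : ∑ y : Fin q → Bool, (univ.filter fun b : Bool => ∀ a, y a = b).card = 2 := by
    simp only [card_filter]
    rw [sum_comm]
    have h4 : ∀ b : Bool, (∑ y : Fin q → Bool, if ∀ a, y a = b then 1 else 0) = 1 := by
      intro b
      rw [sum_eq_single (fun _ => b)]
      · simp
      · intro y _ hy
        rw [if_neg]
        intro h
        exact hy (funext h)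
      · simp
    simp only [h4]
    simp
  rw [h3]
  simp

theorem sum_two_pow_agree {n q : ℕ} (hq : 0 < q) :
    ∑ x : Fin q → Cube n, 2 ^ agree x ≤ (2 ^ q + 2) ^ n := by
  classical
  have h1 : ∀ x : Fin q → Cube n, 2 ^ agree x =
      ∏ j : Fin n, 2 ^ (univ.filter fun b : Bool => ∀ a, x a j = b).card := by
    intro x
    rw [SLMoment_agree_eq, prod_pow_eq_pow_sum]
  rw [sum_congr rfl fun x _ => h1 x]
  have h2 : ∑ x : Fin q → Cube n,
        ∏ j : Fin n, 2 ^ (univ.filter fun b : Bool => ∀ a, x a j = b).card =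
      ∑ z : Fin n → Fin q → Bool,
        ∏ j : Fin n, 2 ^ (univ.filter fun b : Bool => ∀ a, z j a = b).card := by
    refine Fintype.sum_equiv (Equiv.piComm fun _ _ => Bool) _ _ ?_
    intro x
    rfl
  rw [h2]
  have h3 := (Finset.prod_univ_sum (fun _ : Fin n => (univ : Finset (Fin q → Bool)))
    (fun (_ : Fin n) (y : Fin q → Bool) =>
      2 ^ (univ.filter fun b : Bool => ∀ a, y a = b).card)).symm
  rw [Fintype.piFinset_univ] at h3
  rw [h3, prod_const, card_univ, Fintype.card_fin]
  exact Nat.pow_le_pow_left (SLMoment_one hq) n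

open scoped Classical in
/-- For a set `U` that is not tiny there are few heavy clauses. -/
theorem heavy_few {n w t g s e l x Q : ℕ} (hQ : Q = 3 * (e + 1) + x) (ht : t = 2 ^ (e * l))
    (hw : w = (e + 1) * l) (hg1 : 1 ≤ g) (hg : 2 ^ (Q - 3) * g ≤ 2 * n)
    (hnum : n ^ w * (2 ^ Q + 2) ^ n * 2 ^ (Q * s) ≤ 2 ^ (g + 1) * 2 ^ (Q * n))
    (U : Finset (Cube n)) (hU : 2 ^ n ≤ U.card * 2 ^ s) :
    (univ.filter fun C : Fin w → Fin n × Bool => Heavy t (viol C) U).card * 2 ^ (x * l) ≤
      2 * (2 * n) ^ w := by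
  have hQ0 : 0 < Q := by omega
  set Hv := (univ.filter fun C : Fin w → Fin n × Bool => Heavy t (viol C) U).card with hHv
  have hm : Hv * U.card ^ Q ≤ t ^ Q * ∑ x ∈ Fintype.piFinset (fun _ : Fin Q => U), agree x ^ w :=
    moment U
  have hU0 : 0 < U.card := by
    rcases Nat.eq_zero_or_pos U.card with h | h
    · rw [h, zero_mul] at hU
      have := Nat.pos_of_ne_zero (pow_ne_zero n (two_ne_zero (α := ℕ)))
      omega
    · exact h
  -- the set of tuples with large agreement
  set E := (univ.filter fun x : Fin Q → Cube n => g < agree x) with hE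
  have hE1 : E.card * 2 ^ (g + 1) ≤ (2 ^ Q + 2) ^ n := by
    refine le_trans ?_ (sum_two_pow_agree (n := n) (q := Q) hQ0)
    rw [← smul_eq_mul, ← sum_const]
    refine (sum_le_sum fun x hx => ?_).trans
      (sum_le_sum_of_subset (f := fun x : Fin Q → Cube n => 2 ^ agree x) (subset_univ E))
    exact Nat.pow_le_pow_right (by norm_num) (mem_filter.1 hx).2
  have hE2 : n ^ w * E.card ≤ U.card ^ Q := by
    have h1 : n ^ w * E.card * (2 ^ (g + 1) * 2 ^ (Q * s)) ≤
        U.card ^ Q * (2 ^ (g + 1) * 2 ^ (Q * s)) := by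
      calc n ^ w * E.card * (2 ^ (g + 1) * 2 ^ (Q * s))
          = n ^ w * (E.card * 2 ^ (g + 1)) * 2 ^ (Q * s) := by ring
        _ ≤ n ^ w * (2 ^ Q + 2) ^ n * 2 ^ (Q * s) := by gcongr
        _ ≤ 2 ^ (g + 1) * 2 ^ (Q * n) := hnum
        _ = 2 ^ (g + 1) * (2 ^ n) ^ Q := by rw [← pow_mul, mul_comm n Q]
        _ ≤ 2 ^ (g + 1) * (U.card * 2 ^ s) ^ Q := by gcongr
        _ = U.card ^ Q * (2 ^ (g + 1) * 2 ^ (Q * s)) := by
            rw [mul_pow, ← pow_mul, mul_comm s Q]; ring
    exact Nat.le_of_mul_le_mul_right h1 (by positivity)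
  have hsum : ∑ x ∈ Fintype.piFinset (fun _ : Fin Q => U), agree x ^ w ≤
      2 * g ^ w * U.card ^ Q := by
    calc ∑ x ∈ Fintype.piFinset (fun _ : Fin Q => U), agree x ^ w
        ≤ ∑ x ∈ Fintype.piFinset (fun _ : Fin Q => U),
            (g ^ w + if g < agree x then n ^ w else 0) := by
          refine sum_le_sum fun x _ => ?_
          split_ifs with h
          · exact (Nat.pow_le_pow_left (agree_le hQ0 x) w).trans (Nat.le_add_left _ _)
          · exact (Nat.pow_le_pow_left (not_lt.1 h) w).trans (Nat.le_add_right _ _)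
      _ = U.card ^ Q * g ^ w + ∑ x ∈ Fintype.piFinset (fun _ : Fin Q => U),
            (if g < agree x then n ^ w else 0) := by
          rw [sum_add_distrib, sum_const, smul_eq_mul, Fintype.card_piFinset]
          simp
      _ ≤ U.card ^ Q * g ^ w + n ^ w * E.card := by
          gcongr
          refine (sum_le_sum_of_subset (f := fun x : Fin Q → Cube n =>
            if g < agree x then n ^ w else 0) (subset_univ _)).trans ?_
          rw [← sum_filter, sum_const, smul_eq_mul, mul_comm]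
      _ ≤ U.card ^ Q * g ^ w + U.card ^ Q * 1 := by rw [mul_one]; gcongr
      _ ≤ U.card ^ Q * g ^ w + U.card ^ Q * g ^ w := by
          gcongr
          exact Nat.one_le_pow _ _ hg1
      _ = 2 * g ^ w * U.card ^ Q := by ring
  have ht16 : t ^ Q * 2 ^ (x * l) = (2 ^ (Q - 3)) ^ w := by
    rw [ht, hw, ← pow_mul, ← pow_add, ← pow_mul]
    congr 1
    obtain ⟨y, hy⟩ : ∃ y, Q = y + 3 := ⟨Q - 3, by omega⟩
    have hy2 : y = 3 * e + x := by omega
    rw [hy, Nat.add_sub_cancel, hy2]
    ring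
  have hfin : Hv ≤ t ^ Q * (2 * g ^ w) := by
    have h1 : Hv * U.card ^ Q ≤ t ^ Q * (2 * g ^ w) * U.card ^ Q := by
      calc Hv * U.card ^ Q ≤ t ^ Q * ∑ x ∈ Fintype.piFinset (fun _ : Fin Q => U), agree x ^ w := hm
        _ ≤ t ^ Q * (2 * g ^ w * U.card ^ Q) := by gcongr
        _ = t ^ Q * (2 * g ^ w) * U.card ^ Q := by ring
    exact Nat.le_of_mul_le_mul_right h1 (by positivity)
  calc Hv * 2 ^ (x * l) ≤ t ^ Q * (2 * g ^ w) * 2 ^ (x * l) := by gcongr
    _ = 2 * ((t ^ Q * 2 ^ (x * l)) * g ^ w) := by ring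
    _ = 2 * (2 ^ (Q - 3) * g) ^ w := by rw [ht16, ← mul_pow]
    _ ≤ 2 * (2 * n) ^ w := by gcongr

end Pool.Agent.MP_9cec2c_lc.ShortLines
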