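import Pool.Agent.Lib.MP_9cec2c_lc.SLBase

/-! Short lines: two asymptotic inequalities. -/

namespace Pool.Agent.MP_9cec2c_lc.ShortLines

open Filter

theorem SLNum_pow (A B : ℕ) : ∀ᶠ k : ℕ in atTop, A * k ^ 2 + B ≤ 2 ^ (k - 1) := by
  have h2 : Tendsto (fun k : ℕ => (k : ℝ) ^ 2 / (2 : ℝ) ^ k) atTop (nhds 0) :=
    tendsto_pow_const_div_const_pow_of_one_lt 2 (by norm_num)
  have h0 : Tendsto (fun k : ℕ => (k : ℝ) ^ 0 / (2 : ℝ) ^ k) atTop (nhds 0) :=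
    tendsto_pow_const_div_const_pow_of_one_lt 0 (by norm_num)
  have h : Tendsto (fun k : ℕ => (A : ℝ) * ((k : ℝ) ^ 2 / (2 : ℝ) ^ k) +
      (B : ℝ) * ((k : ℝ) ^ 0 / (2 : ℝ) ^ k)) atTop (nhds 0) := by
    have := (h2.const_mul (A : ℝ)).add (h0.const_mul (B : ℝ))
    simpa using this
  filter_upwards [h.eventually (gt_mem_nhds (show (0 : ℝ) < 1 / 2 by norm_num)),
    eventually_ge_atTop 1] with k hk hk1
  have hp : (0 : ℝ) < 2 ^ k := by positivity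
  have h3 : (A : ℝ) * (k : ℝ) ^ 2 + B < 2 ^ k / 2 := by
    have : (A : ℝ) * ((k : ℝ) ^ 2 / (2 : ℝ) ^ k) + (B : ℝ) * ((k : ℝ) ^ 0 / (2 : ℝ) ^ k) =
        ((A : ℝ) * (k : ℝ) ^ 2 + B) / 2 ^ k := by
      field_simp
    rw [this, div_lt_iff₀ hp] at hk
    linarith
  have h4 : (2 : ℝ) ^ k / 2 = 2 ^ (k - 1) := by
    obtain ⟨j, rfl⟩ : ∃ j, k = j + 1 := ⟨k - 1, by omega⟩
    rw [pow_succ]; simp
  rw [h4] at h3
  exact_mod_cast h3.le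

theorem SLNum_clog (A B : ℕ) : ∀ᶠ n : ℕ in atTop, A * Nat.clog 2 n ^ 2 + B ≤ n := by
  obtain ⟨K, hK⟩ := eventually_atTop.mp (SLNum_pow A B)
  filter_upwards [eventually_ge_atTop (2 ^ (K + 1))] with n hn
  have hn1 : 1 < n := lt_of_lt_of_le (Nat.one_lt_two_pow (by omega)) hn
  have hk : K ≤ Nat.clog 2 n := by
    have h1 : 2 ^ (K + 1) ≤ 2 ^ Nat.clog 2 n := hn.trans (Nat.le_pow_clog one_lt_two n)
    have h2 := (Nat.pow_le_pow_iff_right one_lt_two).mp h1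
    omega
  refine (hK _ hk).trans ?_
  have h3 := Nat.pow_pred_clog_lt_self one_lt_two hn1
  exact h3.le

theorem SLNum_sqrt (A B : ℕ) : ∀ᶠ n : ℕ in atTop,
    A * (Nat.sqrt n + 1) * Nat.clog 2 n + B ≤ n := by
  filter_upwards [SLNum_clog ((4 * A) ^ 2) (4 * B), eventually_ge_atTop 1] with n hn hn1
  have h1 : 4 * A * Nat.clog 2 n ≤ Nat.sqrt n := by
    rw [Nat.le_sqrt]
    calc 4 * A * Nat.clog 2 n * (4 * A * Nat.clog 2 n) = (4 * A) ^ 2 * Nat.clog 2 n ^ 2 := by ring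
      _ ≤ n := by omega
  have h2 : 1 ≤ Nat.sqrt n := by
    rw [Nat.le_sqrt]; omega
  have h3 : Nat.sqrt n * Nat.sqrt n ≤ n := Nat.sqrt_le n
  have h4 : 4 * A * Nat.clog 2 n * Nat.sqrt n ≤ n := by
    calc 4 * A * Nat.clog 2 n * Nat.sqrt n ≤ Nat.sqrt n * Nat.sqrt n :=
          Nat.mul_le_mul_right _ h1
      _ ≤ n := h3
  have h5 : 4 * A * Nat.clog 2 n ≤ n := h1.trans (Nat.sqrt_le_self n)
  have h6 : 4 * B ≤ n := by omega
  have h7 : 4 * (A * (Nat.sqrt n + 1) * Nat.clog 2 n + B) =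
      4 * A * Nat.clog 2 n * Nat.sqrt n + 4 * A * Nat.clog 2 n + 4 * B := by ring
  omega

theorem SLNum_exp (R n : ℕ) : (2 ^ R + 1) ^ n ≤ 4 ^ (n / 2 ^ R + 1) * 2 ^ (R * n) := by
  have h1 : ((2 : ℝ) ^ R + 1) ≤ 2 ^ R * Real.exp (1 / 2 ^ R) := by
    have := Real.add_one_le_exp (1 / 2 ^ R : ℝ)
    have hR : (0 : ℝ) < 2 ^ R := by positivity
    calc ((2 : ℝ) ^ R + 1) = 2 ^ R * (1 / 2 ^ R + 1) := by field_simp; ring
      _ ≤ 2 ^ R * Real.exp (1 / 2 ^ R) := mul_le_mul_of_nonneg_left this hR.le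
  have h2 : ((2 : ℝ) ^ R + 1) ^ n ≤ (2 ^ R) ^ n * Real.exp (n * (1 / 2 ^ R)) := by
    calc ((2 : ℝ) ^ R + 1) ^ n ≤ (2 ^ R * Real.exp (1 / 2 ^ R)) ^ n :=
          pow_le_pow_left₀ (by positivity) h1 n
      _ = (2 ^ R) ^ n * Real.exp (n * (1 / 2 ^ R)) := by
          rw [mul_pow, ← Real.exp_nat_mul]
  have h3 : Real.exp (n * (1 / 2 ^ R)) ≤ (4 : ℝ) ^ (n / 2 ^ R + 1) := by
    have hq : (n : ℝ) * (1 / 2 ^ R) ≤ ((n / 2 ^ R + 1 : ℕ) : ℝ) * 1 := by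
      have : n ≤ 2 ^ R * (n / 2 ^ R + 1) := by
        have := Nat.lt_mul_div_succ n (show 0 < 2 ^ R by positivity)
        exact this.le
      have h : (n : ℝ) ≤ 2 ^ R * ((n / 2 ^ R + 1 : ℕ) : ℝ) := by exact_mod_cast this
      have hR : (0 : ℝ) < 2 ^ R := by positivity
      rw [mul_one, mul_one_div, div_le_iff₀ hR]
      linarith
    calc Real.exp (n * (1 / 2 ^ R)) ≤ Real.exp (((n / 2 ^ R + 1 : ℕ) : ℝ) * 1) :=
          Real.exp_le_exp.mpr hq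
      _ = Real.exp 1 ^ (n / 2 ^ R + 1) := Real.exp_nat_mul 1 _
      _ ≤ (4 : ℝ) ^ (n / 2 ^ R + 1) := by
          refine pow_le_pow_left₀ (Real.exp_pos 1).le ?_ _
          have := Real.exp_one_lt_d9
          linarith
  have h4 : ((2 : ℝ) ^ R + 1) ^ n ≤ 4 ^ (n / 2 ^ R + 1) * 2 ^ (R * n) := by
    refine h2.trans ?_
    rw [← pow_mul, mul_comm]
    exact mul_le_mul_of_nonneg_right h3 (by positivity)
  exact_mod_cast h4

/-- The numerical condition of the moment bound. -/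
theorem num_moment (A P : ℕ) : ∀ᶠ n : ℕ in Filter.atTop, ∀ w ≤ A * (Nat.sqrt n + 1),
    n ^ w * (2 ^ (P + 4) + 2) ^ n * 2 ^ ((P + 4) * (2 * (n / 2 ^ (2 * (P + 4))))) ≤
      2 ^ (n / 2 ^ P + 1) * 2 ^ ((P + 4) * n) := by
  filter_upwards [SLNum_sqrt (2 ^ (P + 3) * A) (2 ^ (P + 3))] with n hn w hw
  have h1 : n ^ w ≤ 2 ^ (A * (Nat.sqrt n + 1) * Nat.clog 2 n) := by
    calc n ^ w ≤ (2 ^ Nat.clog 2 n) ^ w :=
          Nat.pow_le_pow_left (Nat.le_pow_clog one_lt_two n) _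
      _ = 2 ^ (w * Nat.clog 2 n) := by rw [← pow_mul]; congr 1; ring
      _ ≤ _ := Nat.pow_le_pow_right (by norm_num) (Nat.mul_le_mul_right _ hw)
  have h2 : (2 ^ (P + 4) + 2) ^ n ≤ 2 ^ (2 * (n / 2 ^ (P + 3) + 1)) * 2 ^ ((P + 4) * n) := by
    have e : (2 ^ (P + 4) + 2) = 2 * (2 ^ (P + 3) + 1) := by ring
    rw [e, mul_pow]
    calc 2 ^ n * (2 ^ (P + 3) + 1) ^ n ≤
          2 ^ n * (4 ^ (n / 2 ^ (P + 3) + 1) * 2 ^ ((P + 3) * n)) :=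
          Nat.mul_le_mul_left _ (SLNum_exp (P + 3) n)
      _ = 2 ^ (2 * (n / 2 ^ (P + 3) + 1)) * 2 ^ ((P + 4) * n) := by
          rw [show (4 : ℕ) = 2 ^ 2 by norm_num, ← pow_mul, ← pow_add, ← pow_add, ← pow_add]
          congr 1; ring
  set M := n / 2 ^ (P + 3) with hM
  have h3 : 8 * M ≤ n / 2 ^ P := by
    rw [Nat.le_div_iff_mul_le (by positivity), hM]
    calc 8 * (n / 2 ^ (P + 3)) * 2 ^ P = n / 2 ^ (P + 3) * 2 ^ (P + 3) := by ring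
      _ ≤ n := Nat.div_mul_le_self _ _
  have h4 : (P + 4) * (2 * (n / 2 ^ (2 * (P + 4)))) ≤ M := by
    have e1 : 2 ^ (2 * (P + 4)) = 2 ^ (P + 3) * 2 ^ (P + 5) := by rw [← pow_add]; congr 1; ring
    rw [e1, ← Nat.div_div_eq_div_mul, ← hM]
    have e2 : (P + 4) * 2 ≤ 2 ^ (P + 5) := by
      have := Nat.lt_two_pow_self (n := P + 4)
      rw [show P + 5 = (P + 4) + 1 by ring, pow_succ]
      omega
    calc (P + 4) * (2 * (M / 2 ^ (P + 5))) = (P + 4) * 2 * (M / 2 ^ (P + 5)) := by ring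
      _ ≤ 2 ^ (P + 5) * (M / 2 ^ (P + 5)) := Nat.mul_le_mul_right _ e2
      _ ≤ M := Nat.mul_div_le _ _
  have h5 : A * (Nat.sqrt n + 1) * Nat.clog 2 n + 1 ≤ M := by
    rw [hM, Nat.le_div_iff_mul_le (by positivity)]
    calc (A * (Nat.sqrt n + 1) * Nat.clog 2 n + 1) * 2 ^ (P + 3)
        = 2 ^ (P + 3) * A * (Nat.sqrt n + 1) * Nat.clog 2 n + 2 ^ (P + 3) := by ring
      _ ≤ n := hn
  calc n ^ w * (2 ^ (P + 4) + 2) ^ n * 2 ^ ((P + 4) * (2 * (n / 2 ^ (2 * (P + 4)))))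
      ≤ 2 ^ (A * (Nat.sqrt n + 1) * Nat.clog 2 n) *
          (2 ^ (2 * (M + 1)) * 2 ^ ((P + 4) * n)) *
          2 ^ ((P + 4) * (2 * (n / 2 ^ (2 * (P + 4))))) :=
        Nat.mul_le_mul_right _ (Nat.mul_le_mul h1 h2)
    _ = 2 ^ (A * (Nat.sqrt n + 1) * Nat.clog 2 n + 2 * (M + 1) +
          (P + 4) * (2 * (n / 2 ^ (2 * (P + 4))))) * 2 ^ ((P + 4) * n) := by
        rw [pow_add, pow_add]; ring
    _ ≤ 2 ^ (n / 2 ^ P + 1) * 2 ^ ((P + 4) * n) :=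
        Nat.mul_le_mul_right _ (Nat.pow_le_pow_right (by norm_num) (by omega))

/-- Low order terms. -/
theorem num_low (R : ℕ) : ∀ᶠ n : ℕ in Filter.atTop,
    4 * (Nat.sqrt n + 6) ≤ n / 2 ^ R := by
  filter_upwards [SLNum_sqrt (2 ^ R * 4) (2 ^ R * 20), eventually_ge_atTop 2] with n hn hn2
  rw [Nat.le_div_iff_mul_le (by positivity)]
  have h1 : 1 ≤ Nat.clog 2 n := Nat.clog_pos (by norm_num) hn2
  calc 4 * (Nat.sqrt n + 6) * 2 ^ R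
      = 2 ^ R * 4 * (Nat.sqrt n + 1) * 1 + 2 ^ R * 20 := by ring
    _ ≤ 2 ^ R * 4 * (Nat.sqrt n + 1) * Nat.clog 2 n + 2 ^ R * 20 :=
        Nat.add_le_add_right (Nat.mul_le_mul_left _ h1) _
    _ ≤ n := hn

end Pool.Agent.MP_9cec2c_lc.ShortLines
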