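import Mathlib
import Pool.Agent.Lib.MP_9cec2c_lc.SLBase

/-!
Short lines: the walk lemma.
-/

namespace Pool.Agent.MP_9cec2c_lc.ShortLines

open Finset

/-- A semantic refutation graph with falsity sets `Z v`, lines `ch v` and clauses `ex v` used in
the inference of `v`. -/
structure Dag {X ι ν : Type*} [DecidableEq X] (A : ι → Finset X) (Z : ν → Finset X) (m q : ℕ)
    (rank level : ν → ℕ) (ch : ν → Finset ν) (ex : ν → Finset ι) : Prop where
  card_ch : ∀ v, (ch v).card ≤ m
  card_ex : ∀ v, (ex v).card ≤ q
  rank_lt : ∀ v, ∀ u ∈ ch v, rank u < rank v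
  level_le : ∀ v, ∀ u ∈ ch v, level u ≤ level v
  level_lt : ∀ v, 1 < (ch v).card → ∀ u ∈ ch v, level u < level v
  cover : ∀ v, Z v ⊆ (ch v).biUnion Z ∪ (ex v).biUnion A

section

variable {X ι ν : Type*} [DecidableEq X] [Fintype ν]

/-- The outcome of a walk: sets `W u` of points that arrive at `u`, with numbers `a u`. -/
structure Walked (A : ι → Finset X) (Z : ν → Finset X) (level : ν → ℕ) (t lv : ℕ) (V : Finset X)
    (W : ν → Finset X) (a : ν → ℕ) : Prop where
  sub : ∀ u, W u ⊆ V
  subZ : ∀ u, W u ⊆ Z u
  lev : ∀ u, (W u).Nonempty → level u ≤ lv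
  light : ∀ u i, t * (W u ∩ A i).card ≤ a u
  sum_le : ∑ u, a u ≤ V.card

theorem card_le_sdiff_biUnion {κ : Type*} [DecidableEq κ] (U : Finset X) (E : Finset κ)
    (A : κ → Finset X) (t M : ℕ) (h : ∀ i, t * (U ∩ A i).card ≤ M) :
    t * U.card ≤ t * (U \ E.biUnion A).card + E.card * M := by
  have h1 : U.card ≤ (U \ E.biUnion A).card + (U ∩ E.biUnion A).card := by
    rw [card_sdiff_add_card_inter]
  have h2 : U ∩ E.biUnion A = E.biUnion fun i => U ∩ A i := by
    ext x
    simp only [mem_inter, mem_biUnion]
    constructor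
    · rintro ⟨hx, i, hi, hxi⟩
      exact ⟨i, hi, hx, hxi⟩
    · rintro ⟨i, hi, hx, hxi⟩
      exact ⟨hx, i, hi, hxi⟩
  have h3 : (U ∩ E.biUnion A).card ≤ ∑ i ∈ E, (U ∩ A i).card := by
    rw [h2]
    exact card_biUnion_le
  have h4 : t * ∑ i ∈ E, (U ∩ A i).card ≤ E.card * M := by
    rw [mul_sum]
    calc ∑ i ∈ E, t * (U ∩ A i).card ≤ ∑ _i ∈ E, M := sum_le_sum fun i _ => h i
      _ = E.card * M := by rw [sum_const, smul_eq_mul]
  calc t * U.card ≤ t * ((U \ E.biUnion A).card + (U ∩ E.biUnion A).card) :=
        Nat.mul_le_mul_left _ h1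
    _ = t * (U \ E.biUnion A).card + t * (U ∩ E.biUnion A).card := by ring
    _ ≤ t * (U \ E.biUnion A).card + t * ∑ i ∈ E, (U ∩ A i).card :=
        Nat.add_le_add_left (Nat.mul_le_mul_left _ h3) _
    _ ≤ _ := Nat.add_le_add_left h4 _

theorem Walked.empty (A : ι → Finset X) (Z : ν → Finset X) (level : ν → ℕ) (t lv : ℕ)
    (V : Finset X) : Walked A Z level t lv V (fun _ => ∅) (fun _ => 0) where
  sub u := empty_subset _
  subZ u := empty_subset _
  lev u h := absurd h (by simp)
  light u i := by simp
  sum_le := by simp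

variable [Fintype X] [Fintype ι] [DecidableEq ν]

theorem split {A : ι → Finset X} {Z : ν → Finset X} {rank level : ν → ℕ}
    {ZZ : Finset (Finset X)} {t r₀ r T τ m q R j d lv Mx : ℕ} (hg : Good A ZZ t r₀ r T τ)
    (hZ : ∀ v, Z v ∈ ZZ) (J : Finset ι) (hJ : J.card ≤ r₀)
    (IH : ∀ (v : ν) (T' : ℕ) (B U : Finset X), rank v < R → B ∈ cuts ZZ T' → T' + m * R ≤ T →
      U ⊆ B \ J.biUnion A → U ⊆ Z v → (∀ i, t * (U ∩ A i).card ≤ (B \ J.biUnion A).card) →
      ∃ (W : ν → Finset X) (a : ν → ℕ),
        Walked A Z (fun u => level u + j) t (level v) (B \ J.biUnion A) W a ∧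
        t * U.card ≤ t * ∑ u, (W u).card + R * (q + m * r) * (B \ J.biUnion A).card +
          t * (R * m ^ j) * τ) :
    ∀ (cs : Finset ν) (T' : ℕ) (B U : Finset X),
      (∀ c ∈ cs, rank c < R ∧ level c + d ≤ lv) → B ∈ cuts ZZ T' →
      T' + cs.card + m * R ≤ T → U ⊆ B \ J.biUnion A → U ⊆ cs.biUnion Z →
      (∀ i, t * (U ∩ A i).card ≤ Mx) →
      ∃ (W : ν → Finset X) (a : ν → ℕ),
        Walked A Z (fun u => level u + (j + d)) t lv (B \ J.biUnion A) W a ∧
        t * U.card ≤ t * ∑ u, (W u).card + cs.card * (r * Mx) +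
          R * (q + m * r) * (B \ J.biUnion A).card + t * (cs.card * (1 + R * m ^ j)) * τ := by
  classical
  intro cs
  induction cs using Finset.induction_on with
  | empty =>
    intro T' B U _ _ _ _ hU _
    refine ⟨fun _ => ∅, fun _ => 0, Walked.empty _ _ _ _ _ _, ?_⟩
    have : U = ∅ := by
      rw [biUnion_empty] at hU
      exact subset_empty.mp hU
    rw [this]
    simp
  | insert c cs hc ih =>
    intro T' B U hcs hB hT hUV hU hUA
    have hB1 : B ∩ Z c ∈ cuts ZZ (T' + 1) := inter_mem_cuts hB (hZ c)
    have hB2 : B \ Z c ∈ cuts ZZ (T' + 1) := sdiff_mem_cuts hB (hZ c)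
    have hcard : (insert c cs).card = cs.card + 1 := card_insert_of_notMem hc
    rw [hcard] at hT ⊢
    -- the two parts
    set V := B \ J.biUnion A with hV
    set V1 := (B ∩ Z c) \ J.biUnion A with hV1
    set V2 := (B \ Z c) \ J.biUnion A with hV2
    have hV12 : V1.card + V2.card = V.card := by
      have e1 : V1 = V ∩ Z c := by
        ext x; simp only [hV1, hV, mem_sdiff, mem_inter]; tauto
      have e2 : V2 = V \ Z c := by
        ext x; simp only [hV2, hV, mem_sdiff]; tauto
      rw [e1, e2, add_comm, card_sdiff_add_card_inter]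
    have hV1V : V1 ⊆ V := by
      intro x; simp only [hV1, hV, mem_sdiff, mem_inter]; tauto
    have hV2V : V2 ⊆ V := by
      intro x; simp only [hV2, hV, mem_sdiff]; tauto
    have hdisj : Disjoint V1 V2 := by
      rw [disjoint_left]
      intro x
      simp only [hV1, hV2, mem_sdiff, mem_inter]; tauto
    have hUsplit : U.card = (U ∩ Z c).card + (U \ Z c).card := by
      rw [add_comm, card_sdiff_add_card_inter]
    -- second part
    obtain ⟨W2, a2, h2, h2'⟩ := ih (T' + 1) (B \ Z c) (U \ Z c)
      (fun c' hc' => hcs c' (mem_insert_of_mem hc')) hB2 (by omega)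
      (by
        intro x hx
        rw [mem_sdiff] at hx
        have := hUV hx.1
        simp only [hV, mem_sdiff] at this ⊢
        exact ⟨⟨this.1, hx.2⟩, this.2⟩)
      (by
        intro x hx
        rw [mem_sdiff] at hx
        have := hU hx.1
        rw [biUnion_insert, mem_union] at this
        exact this.resolve_left hx.2)
      (fun i => (Nat.mul_le_mul_left t (card_le_card (inter_subset_inter_right sdiff_subset))).trans
        (hUA i))
    -- first part
    have key : ∃ (W1 : ν → Finset X) (a1 : ν → ℕ),
        Walked A Z (fun u => level u + (j + d)) t lv V1 W1 a1 ∧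
        t * (U ∩ Z c).card ≤ t * ∑ u, (W1 u).card + r * Mx +
          R * (q + m * r) * V1.card + t * (1 + R * m ^ j) * τ := by
      have hUV1 : U ∩ Z c ⊆ V1 := by
        intro x hx
        rw [mem_inter] at hx
        have := hUV hx.1
        simp only [hV, hV1, mem_sdiff, mem_inter] at this ⊢
        exact ⟨⟨this.1, hx.2⟩, this.2⟩
      by_cases hτ : τ ≤ V1.card
      · -- remove the heavy clauses
        set Hv := univ.filter fun i => Heavy t (A i) V1 with hHv
        have hHcard : Hv.card ≤ r := by
          have := hg.spread (B ∩ Z c) (cuts_mono (by omega) hB1) J hJ hτ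
          convert this
        set U1 := (U ∩ Z c) \ Hv.biUnion A with hU1
        have hU1A : ∀ i, t * (U1 ∩ A i).card ≤ V1.card := by
          intro i
          by_cases hi : i ∈ Hv
          · have : U1 ∩ A i = ∅ := by
              rw [hU1]
              ext x
              simp only [mem_inter, mem_sdiff, mem_biUnion, notMem_empty, iff_false]
              rintro ⟨⟨_, h⟩, hx⟩
              exact h ⟨i, hi, hx⟩
            rw [this]
            simp
          · rw [hHv, mem_filter] at hi
            have hi' : ¬ Heavy t (A i) V1 := fun h => hi ⟨mem_univ _, h⟩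
            unfold Heavy at hi'
            push Not at hi'
            refine le_trans (Nat.mul_le_mul_left t (card_le_card ?_)) hi'
            exact inter_subset_inter_right (sdiff_subset.trans hUV1)
        obtain ⟨W1, a1, h1, h1'⟩ := IH c (T' + 1) (B ∩ Z c) U1
          (hcs c (mem_insert_self _ _)).1 hB1 (by omega) (sdiff_subset.trans hUV1)
          (sdiff_subset.trans inter_subset_right) hU1A
        refine ⟨W1, a1, ⟨h1.sub, h1.subZ, ?_, h1.light, h1.sum_le⟩, ?_⟩
        · intro u hu
          have e1 : level u + j ≤ level c := h1.lev u hu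
          have e2 := (hcs c (mem_insert_self _ _)).2
          change level u + (j + d) ≤ lv
          omega
        · rw [← hV1] at h1'
          have e1 : t * (U ∩ Z c).card ≤ t * U1.card + Hv.card * Mx :=
            card_le_sdiff_biUnion (U ∩ Z c) Hv A t Mx (fun i =>
              (Nat.mul_le_mul_left t
                (card_le_card (inter_subset_inter_right inter_subset_left))).trans (hUA i))
          have e2 : Hv.card * Mx ≤ r * Mx := Nat.mul_le_mul_right _ hHcard
          have e3 : t * (R * m ^ j) * τ ≤ t * (1 + R * m ^ j) * τ :=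
            Nat.mul_le_mul_right _ (Nat.mul_le_mul_left _ (by omega))
          omega
      · refine ⟨fun _ => ∅, fun _ => 0, Walked.empty _ _ _ _ _ _, ?_⟩
        have e1 : (U ∩ Z c).card ≤ τ := (card_le_card hUV1).trans (by omega)
        have e2 : t * (U ∩ Z c).card ≤ t * τ := Nat.mul_le_mul_left _ e1
        have e3 : t * τ ≤ t * (1 + R * m ^ j) * τ := by
          have : t * 1 * τ ≤ t * (1 + R * m ^ j) * τ :=
            Nat.mul_le_mul_right _ (Nat.mul_le_mul_left _ (by omega))
          simpa using this
        omega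
    obtain ⟨W1, a1, h1, h1'⟩ := key
    rw [← hV2] at h2'
    refine ⟨fun u => W1 u ∪ W2 u, fun u => a1 u + a2 u, ⟨?_, ?_, ?_, ?_, ?_⟩, ?_⟩
    · exact fun u => union_subset ((h1.sub u).trans hV1V) ((h2.sub u).trans hV2V)
    · exact fun u => union_subset (h1.subZ u) (h2.subZ u)
    · intro u hu
      rw [union_nonempty] at hu
      exact hu.elim (h1.lev u) (h2.lev u)
    · intro u i
      have e1 : ((W1 u ∪ W2 u) ∩ A i).card ≤ (W1 u ∩ A i).card + (W2 u ∩ A i).card := by
        rw [union_inter_distrib_right]
        exact card_union_le _ _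
      calc t * ((W1 u ∪ W2 u) ∩ A i).card ≤ t * ((W1 u ∩ A i).card + (W2 u ∩ A i).card) :=
            Nat.mul_le_mul_left _ e1
        _ = t * (W1 u ∩ A i).card + t * (W2 u ∩ A i).card := by ring
        _ ≤ a1 u + a2 u := Nat.add_le_add (h1.light u i) (h2.light u i)
    · rw [sum_add_distrib, ← hV12]
      exact Nat.add_le_add h1.sum_le h2.sum_le
    · have e1 : ∑ u, (W1 u ∪ W2 u).card = ∑ u, (W1 u).card + ∑ u, (W2 u).card := by
        rw [← sum_add_distrib]
        refine sum_congr rfl fun u _ => ?_
        rw [card_union_of_disjoint]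
        exact disjoint_of_subset_left (h1.sub u) (disjoint_of_subset_right (h2.sub u) hdisj)
      have e2 : R * (q + m * r) * V.card = R * (q + m * r) * V1.card +
          R * (q + m * r) * V2.card := by
        rw [← hV12]; ring
      have e3 : t * ((cs.card + 1) * (1 + R * m ^ j)) * τ =
          t * (cs.card * (1 + R * m ^ j)) * τ + t * (1 + R * m ^ j) * τ := by ring
      have e4 : (cs.card + 1) * (r * Mx) = cs.card * (r * Mx) + r * Mx := by ring
      rw [e1, e2, e3, e4, hUsplit, mul_add, mul_add]
      omega

theorem walk {A : ι → Finset X} {Z : ν → Finset X} {rank level : ν → ℕ} {ch : ν → Finset ν}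
    {ex : ν → Finset ι} {ZZ : Finset (Finset X)} {t r₀ r T τ m q : ℕ}
    (hg : Good A ZZ t r₀ r T τ) (hd : Dag A Z m q rank level ch ex) (hZ : ∀ v, Z v ∈ ZZ)
    (J : Finset ι) (hJ : J.card ≤ r₀) :
    ∀ (R j : ℕ) (v : ν) (T' : ℕ) (B U : Finset X), rank v < R → B ∈ cuts ZZ T' →
      T' + m * R ≤ T → U ⊆ B \ J.biUnion A → U ⊆ Z v →
      (∀ i, t * (U ∩ A i).card ≤ (B \ J.biUnion A).card) →
      ∃ (W : ν → Finset X) (a : ν → ℕ),
        Walked A Z (fun u => level u + j) t (level v) (B \ J.biUnion A) W a ∧
        t * U.card ≤ t * ∑ u, (W u).card + R * (q + m * r) * (B \ J.biUnion A).card +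
          t * (R * m ^ j) * τ := by
  classical
  intro R
  induction R with
  | zero => intro j v T' B U h; exact absurd h (Nat.not_lt_zero _)
  | succ R IH =>
    intro j v T' B U hR hB hT hUV hUZ hUA
    set V := B \ J.biUnion A with hV
    rcases Nat.eq_zero_or_pos j with hj | hj
    · -- stop
      subst hj
      refine ⟨fun u => if u = v then U else ∅, fun u => if u = v then V.card else 0,
        ⟨?_, ?_, ?_, ?_, ?_⟩, ?_⟩
      · intro u
        by_cases hu : u = v
        · simp only [hu, if_true]; exact hUV
        · simp [hu]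
      · intro u
        by_cases hu : u = v
        · simp only [hu, if_true]; exact hUZ
        · simp [hu]
      · intro u hu
        by_cases h : u = v
        · subst h; simp
        · simp [h] at hu
      · intro u i
        by_cases hu : u = v
        · simp only [hu, if_true]; exact hUA i
        · simp [hu]
      · simp
      · have : ∑ u, (if u = v then U else ∅ : Finset X).card = U.card := by
          rw [sum_eq_single v]
          · simp
          · intro b _ hb; simp [hb]
          · intro h; exact absurd (mem_univ _) h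
        rw [this]
        omega
    · obtain ⟨j', rfl⟩ : ∃ j', j = j' + 1 := ⟨j - 1, by omega⟩
      set U' := U \ (ex v).biUnion A with hU'
      have hU'Z : U' ⊆ (ch v).biUnion Z := by
        intro x hx
        rw [hU', mem_sdiff] at hx
        have := hd.cover v (hUZ hx.1)
        rw [mem_union] at this
        exact this.resolve_right hx.2
      have hU'V : U' ⊆ V := sdiff_subset.trans hUV
      have hU'A : ∀ i, t * (U' ∩ A i).card ≤ V.card := fun i =>
        (Nat.mul_le_mul_left t (card_le_card (inter_subset_inter_right sdiff_subset))).trans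
          (hUA i)
      have hloss : t * U.card ≤ t * U'.card + q * V.card := by
        have e1 := card_le_sdiff_biUnion U (ex v) A t V.card hUA
        have e2 := Nat.mul_le_mul_right V.card (hd.card_ex v)
        exact e1.trans (Nat.add_le_add_left e2 _)
      have hmR : m * (R + 1) = m * R + m := by ring
      rw [hmR] at hT
      have hcm := hd.card_ch v
      by_cases hc : 1 < (ch v).card
      · obtain ⟨W, a, h1, h2⟩ := split (d := 1) (lv := level v) (Mx := V.card) (j := j') (m := m) (q := q)
          (R := R) (rank := rank) (level := level) hg hZ J hJ (IH j') (ch v) T' B U'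
          (fun c hc' => ⟨by have := hd.rank_lt v c hc'; omega, hd.level_lt v hc c hc'⟩) hB
          (by omega) hU'V hU'Z hU'A
        refine ⟨W, a, h1, ?_⟩
        rw [← hV] at h2
        have e1 : (ch v).card * (r * V.card) ≤ m * (r * V.card) := Nat.mul_le_mul_right _ hcm
        have e2 : t * ((ch v).card * (1 + R * m ^ j')) * τ ≤ t * ((R + 1) * m ^ (j' + 1)) * τ := by
          refine Nat.mul_le_mul_right _ (Nat.mul_le_mul_left _ ?_)
          have hm1 : 1 ≤ m := by omega
          have : 1 ≤ m ^ j' := Nat.one_le_pow _ _ hm1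
          calc (ch v).card * (1 + R * m ^ j') ≤ m * (1 + R * m ^ j') := Nat.mul_le_mul_right _ hcm
            _ ≤ m * (m ^ j' + R * m ^ j') := Nat.mul_le_mul_left _ (by omega)
            _ = (R + 1) * m ^ (j' + 1) := by ring
        have e3 : (R + 1) * (q + m * r) * V.card =
            R * (q + m * r) * V.card + q * V.card + m * (r * V.card) := by ring
        rw [e3]
        omega
      · obtain ⟨W, a, h1, h2⟩ := split (d := 0) (lv := level v) (Mx := V.card) (j := j' + 1)
          (m := m) (q := q) (R := R) (rank := rank) (level := level) hg hZ J hJ (IH (j' + 1)) (ch v) T' B U'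
          (fun c hc' => ⟨by have := hd.rank_lt v c hc'; omega, hd.level_le v c hc'⟩) hB
          (by omega) hU'V hU'Z hU'A
        refine ⟨W, a, h1, ?_⟩
        rw [← hV] at h2
        have e1 : (ch v).card * (r * V.card) ≤ m * (r * V.card) := Nat.mul_le_mul_right _ hcm
        have e2 : t * ((ch v).card * (1 + R * m ^ (j' + 1))) * τ ≤
            t * ((R + 1) * m ^ (j' + 1)) * τ := by
          refine Nat.mul_le_mul_right _ (Nat.mul_le_mul_left _ ?_)
          rcases Nat.eq_zero_or_pos (ch v).card with h0 | h0
          · rw [h0]; simp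
          · have hm1 : 1 ≤ m := by omega
            have : 1 ≤ m ^ (j' + 1) := Nat.one_le_pow _ _ hm1
            have h0' : (ch v).card = 1 := by omega
            rw [h0']
            nlinarith
        have e3 : (R + 1) * (q + m * r) * V.card =
            R * (q + m * r) * V.card + q * V.card + m * (r * V.card) := by ring
        rw [e3]
        omega

end

end Pool.Agent.MP_9cec2c_lc.ShortLines
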