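import Mathlib
import Pool.Agent.Lib.MP_9cec2c_lc.SLWalk

/-!
Short lines: restarting the walk.
-/

namespace Pool.Agent.MP_9cec2c_lc.ShortLines

open Finset

section

variable {X ι ν : Type*} [DecidableEq X] [Fintype X]

/-- `Z` keeps a `1 / E` fraction of the space after the removal of any `r₀` sets `A i`. -/
def Rob (A : ι → Finset X) (r₀ E : ℕ) (Z : Finset X) : Prop :=
  ∀ J : Finset ι, J.card ≤ r₀ → Fintype.card X ≤ E * (Z \ J.biUnion A).card

variable [Fintype ι]

theorem exists_peeled {A : ι → Finset X} {ZZ : Finset (Finset X)} {t r₀ r T τ : ℕ}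
    (hg : Good A ZZ t r₀ r T τ) {Z : Finset X} (hZ : Z ∈ ZZ)
    (h : ∀ J : Finset ι, J.card ≤ r₀ → τ ≤ (Z \ J.biUnion A).card) :
    ∃ J : Finset ι, J.card ≤ r₀ ∧ ∀ i, ¬ Heavy t (A i) (Z \ J.biUnion A) := by
  classical
  by_contra hcon
  push Not at hcon
  have step : ∀ q ≤ r₀, ∃ i : ℕ → ι, ∀ j < q,
      (τ ≤ (Z \ ((range j).biUnion fun l => A (i l))).card ∧
        Heavy t (A (i j)) (Z \ ((range j).biUnion fun l => A (i l)))) := by
    intro q
    induction q with
    | zero =>
      intro _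
      obtain ⟨i, _⟩ := hcon ∅ (by simp)
      exact ⟨fun _ => i, fun j hj => absurd hj (Nat.not_lt_zero _)⟩
    | succ q ih =>
      intro hq
      obtain ⟨i, hi⟩ := ih (by omega)
      have hcard : ((range q).image i).card ≤ r₀ := by
        refine card_image_le.trans ?_
        rw [card_range]; omega
      obtain ⟨i', hi'⟩ := hcon ((range q).image i) hcard
      have hU : ∀ j ≤ q, (range j).biUnion (fun l => A (Function.update i q i' l)) =
          (range j).biUnion fun l => A (i l) := by
        intro j hj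
        refine biUnion_congr rfl fun l hl => ?_
        rw [mem_range] at hl
        rw [Function.update_of_ne (by omega)]
      have hJ : ((range q).image i).biUnion A = (range q).biUnion fun l => A (i l) := by
        rw [image_biUnion]
      refine ⟨Function.update i q i', fun j hj => ?_⟩
      rw [hU j (by omega)]
      rcases Nat.lt_succ_iff_lt_or_eq.mp hj with h1 | h1
      · rw [Function.update_of_ne (by omega)]
        exact hi j h1
      · subst h1
        rw [Function.update_self, ← hJ]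
        exact ⟨h _ hcard, hi'⟩
  obtain ⟨i, hi⟩ := step r₀ le_rfl
  obtain ⟨j, hj, hj'⟩ := hg.peel Z hZ i
  exact hj' (hi j hj)

variable [Fintype ν] [DecidableEq ν]

theorem phase {A : ι → Finset X} {Z : ν → Finset X} {rank level : ν → ℕ} {ch : ν → Finset ν}
    {ex : ν → Finset ι} {ZZ : Finset (Finset X)} {t r₀ r T τ m q h k E : ℕ}
    (hg : Good A ZZ t r₀ r T τ) (hd : Dag A Z m q rank level ch ex) (hZ : ∀ v, Z v ∈ ZZ)
    (hR : ∀ v, rank v < h) (hm : 1 ≤ m) (hT : 1 + m * h ≤ T)
    (htpos : 0 < t) (ht : 8 * (r₀ + h * (q + m * r)) ≤ t)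
    (hX : 0 < Fintype.card X) (hτ : 8 * (h * m ^ k) * τ * E ≤ Fintype.card X)
    (v : ν) (hv : Rob A r₀ E (Z v)) :
    ∃ u, level u + k ≤ level v ∧ Rob A r₀ (2 * Fintype.card ν * E) (Z u) := by
  classical
  have hh : 1 ≤ h := by have := hR v; omega
  have hE : 0 < E := by
    have h1 := hv ∅ (by simp)
    rcases Nat.eq_zero_or_pos E with h0 | h0
    · rw [h0] at h1; omega
    · exact h0
  have hhm : 1 ≤ h * m ^ k := Nat.one_le_iff_ne_zero.mpr
    (Nat.mul_ne_zero (by omega) (pow_ne_zero _ (by omega)))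
  have hbig : ∀ J : Finset ι, J.card ≤ r₀ →
      8 * (h * m ^ k) * τ ≤ (Z v \ J.biUnion A).card := by
    intro J hJ
    have h1 := hτ.trans (hv J hJ)
    rw [mul_comm] at h1
    exact Nat.le_of_mul_le_mul_left h1 hE
  have htau : ∀ J : Finset ι, J.card ≤ r₀ → τ ≤ (Z v \ J.biUnion A).card := by
    intro J hJ
    refine le_trans ?_ (hbig J hJ)
    nlinarith
  obtain ⟨J, hJ, hJH⟩ := exists_peeled hg (hZ v) htau
  have hB : Z v ∈ cuts ZZ 1 := by
    have := inter_mem_cuts (univ_mem_cuts ZZ 0) (hZ v)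
    rwa [univ_inter] at this
  obtain ⟨W, a, hW, hsum⟩ := walk hg hd hZ J hJ h k v 1 (Z v) (Z v \ J.biUnion A) (hR v) hB hT
    (Subset.refl _) sdiff_subset (by
      intro i
      have := hJH i
      unfold Heavy at this
      push Not at this
      exact this)
  set Rc := (Z v \ J.biUnion A).card with hRc
  have hRX : Fintype.card X ≤ E * Rc := hv J hJ
  by_contra hcon
  push Not at hcon
  set S := Fintype.card ν with hS
  have hSpos : 0 < S := Fintype.card_pos_iff.mpr ⟨v⟩
  have hu : ∀ u, 2 * S * E * (t * (W u).card) ≤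
      t * Fintype.card X + 2 * S * E * (r₀ * a u) := by
    intro u
    rcases (W u).eq_empty_or_nonempty with h0 | h0
    · rw [h0]; simp
    · have h1 := hW.lev u h0
      have h2 := hcon u h1
      unfold Rob at h2
      push Not at h2
      obtain ⟨J', hJ', hJ''⟩ := h2
      have h3 := card_le_sdiff_biUnion (W u) J' A t (a u) (hW.light u)
      have h4 : (W u \ J'.biUnion A).card ≤ (Z u \ J'.biUnion A).card :=
        card_le_card (sdiff_subset_sdiff (hW.subZ u) (Subset.refl _))
      have h5 : J'.card * a u ≤ r₀ * a u := Nat.mul_le_mul_right _ hJ'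
      calc 2 * S * E * (t * (W u).card)
          ≤ 2 * S * E * (t * (Z u \ J'.biUnion A).card + r₀ * a u) := by
            refine Nat.mul_le_mul_left _ (h3.trans (Nat.add_le_add ?_ h5))
            exact Nat.mul_le_mul_left _ h4
        _ = t * (2 * S * E * (Z u \ J'.biUnion A).card) + 2 * S * E * (r₀ * a u) := by ring
        _ ≤ t * Fintype.card X + 2 * S * E * (r₀ * a u) :=
            Nat.add_le_add_right (Nat.mul_le_mul_left _ hJ''.le) _
  have hsum2 : 2 * S * E * (t * ∑ u, (W u).card) ≤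
      S * (t * Fintype.card X) + 2 * S * E * (r₀ * Rc) := by
    calc 2 * S * E * (t * ∑ u, (W u).card) = ∑ u, 2 * S * E * (t * (W u).card) := by
          rw [mul_sum, mul_sum]
      _ ≤ ∑ u, (t * Fintype.card X + 2 * S * E * (r₀ * a u)) := sum_le_sum fun u _ => hu u
      _ = S * (t * Fintype.card X) + 2 * S * E * (r₀ * ∑ u, a u) := by
          rw [sum_add_distrib, sum_const, smul_eq_mul, card_univ, mul_sum, mul_sum]
      _ ≤ S * (t * Fintype.card X) + 2 * S * E * (r₀ * Rc) :=
          Nat.add_le_add_left (Nat.mul_le_mul_left _ (Nat.mul_le_mul_left _ hW.sum_le)) _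
  have hsum3 : 2 * E * (t * ∑ u, (W u).card) ≤ t * Fintype.card X + 2 * E * (r₀ * Rc) := by
    have : S * (2 * E * (t * ∑ u, (W u).card)) ≤
        S * (t * Fintype.card X + 2 * E * (r₀ * Rc)) := by
      calc S * (2 * E * (t * ∑ u, (W u).card)) = 2 * S * E * (t * ∑ u, (W u).card) := by ring
        _ ≤ _ := hsum2
        _ = _ := by ring
    exact Nat.le_of_mul_le_mul_left this hSpos
  -- final estimate
  have f1 : 2 * E * (t * Rc) ≤ t * Fintype.card X +
      2 * E * ((r₀ + h * (q + m * r)) * Rc) + 2 * E * (t * (h * m ^ k) * τ) := by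
    calc 2 * E * (t * Rc) ≤ 2 * E * (t * ∑ u, (W u).card + h * (q + m * r) * Rc +
          t * (h * m ^ k) * τ) := Nat.mul_le_mul_left _ hsum
      _ = 2 * E * (t * ∑ u, (W u).card) + 2 * E * (h * (q + m * r) * Rc) +
          2 * E * (t * (h * m ^ k) * τ) := by ring
      _ ≤ t * Fintype.card X + 2 * E * (r₀ * Rc) + 2 * E * (h * (q + m * r) * Rc) +
          2 * E * (t * (h * m ^ k) * τ) := by omega
      _ = _ := by ring
  have f2 : 4 * (2 * E * ((r₀ + h * (q + m * r)) * Rc)) ≤ E * t * Rc := by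
    calc 4 * (2 * E * ((r₀ + h * (q + m * r)) * Rc))
        = E * (8 * (r₀ + h * (q + m * r))) * Rc := by ring
      _ ≤ E * t * Rc := Nat.mul_le_mul_right _ (Nat.mul_le_mul_left _ ht)
  have f3 : 4 * (2 * E * (t * (h * m ^ k) * τ)) ≤ t * Fintype.card X := by
    calc 4 * (2 * E * (t * (h * m ^ k) * τ)) = t * (8 * (h * m ^ k) * τ * E) := by ring
      _ ≤ t * Fintype.card X := Nat.mul_le_mul_left _ hτ
  have f4 : t * Fintype.card X ≤ E * t * Rc := by
    calc t * Fintype.card X ≤ t * (E * Rc) := Nat.mul_le_mul_left _ hRX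
      _ = _ := by ring
  have f5 : 0 < t * Fintype.card X := Nat.mul_pos htpos hX
  have f6 : 2 * E * (t * Rc) = 2 * (E * t * Rc) := by ring
  omega

theorem core {A : ι → Finset X} {Z : ν → Finset X} {rank level : ν → ℕ} {ch : ν → Finset ν}
    {ex : ν → Finset ι} {ZZ : Finset (Finset X)} {t r₀ r T τ m q h k D : ℕ}
    (hg : Good A ZZ t r₀ r T τ) (hd : Dag A Z m q rank level ch ex) (hZ : ∀ v, Z v ∈ ZZ)
    (hR : ∀ v, rank v < h) (hD : ∀ v, level v ≤ D) (hm : 1 ≤ m) (hT : 1 + m * h ≤ T)
    (htpos : 0 < t) (ht : 8 * (r₀ + h * (q + m * r)) ≤ t) (hX : 0 < Fintype.card X)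
    (v₀ : ν) (hv₀ : Z v₀ = univ) (p : ℕ)
    (hτ : 8 * (h * m ^ k) * τ * (2 * (2 * Fintype.card ν) ^ p) ≤ Fintype.card X) :
    (p + 1) * k ≤ D := by
  classical
  have hh : 1 ≤ h := by have := hR v₀; omega
  have hSpos : 0 < Fintype.card ν := Fintype.card_pos_iff.mpr ⟨v₀⟩
  have hroot : Rob A r₀ 2 (Z v₀) := by
    intro J hJ
    rw [hv₀]
    have h1 := card_le_sdiff_biUnion univ J A t (Fintype.card X) (fun i => by
      have := hg.root i
      unfold Heavy at this
      push Not at this
      rw [card_univ] at this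
      exact this)
    rw [card_univ] at h1
    have h2 : 2 * (J.card * Fintype.card X) ≤ t * Fintype.card X := by
      rw [← mul_assoc]
      refine Nat.mul_le_mul_right _ ?_
      have : 8 * r₀ ≤ t := le_trans (by omega) ht
      omega
    have h3 : t * Fintype.card X ≤ t * (2 * (univ \ J.biUnion A).card) := by
      have : t * (2 * (univ \ J.biUnion A).card) = 2 * (t * (univ \ J.biUnion A).card) := by ring
      omega
    exact Nat.le_of_mul_le_mul_left h3 htpos
  have main : ∀ q, q ≤ p → ∃ v, level v + (q + 1) * k ≤ D ∧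
      Rob A r₀ (2 * (2 * Fintype.card ν) ^ (q + 1)) (Z v) := by
    intro q
    induction q with
    | zero =>
      intro _
      obtain ⟨u, hu1, hu2⟩ := phase (k := k) (E := 2) hg hd hZ hR hm hT htpos ht hX (by
        refine le_trans ?_ hτ
        refine Nat.mul_le_mul_left _ ?_
        have := Nat.one_le_pow p (2 * Fintype.card ν) (by omega)
        omega) v₀ hroot
      refine ⟨u, ?_, ?_⟩
      · have := hD v₀; omega
      · convert hu2 using 1; ring
    | succ q ih =>
      intro hq
      obtain ⟨v, hv1, hv2⟩ := ih (by omega)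
      obtain ⟨u, hu1, hu2⟩ := phase (k := k) (E := 2 * (2 * Fintype.card ν) ^ (q + 1))
        hg hd hZ hR hm hT htpos ht hX (by
        refine le_trans ?_ hτ
        refine Nat.mul_le_mul_left _ (Nat.mul_le_mul_left _ ?_)
        exact Nat.pow_le_pow_right (by omega) hq) v hv2
      refine ⟨u, ?_, ?_⟩
      · have : (q + 1 + 1) * k = (q + 1) * k + k := by ring
        omega
      · convert hu2 using 1; ring
  obtain ⟨v, hv, _⟩ := main p le_rfl
  omega

end

end Pool.Agent.MP_9cec2c_lc.ShortLines
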