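import Mathlib
import Pool.Agent.Lib.MP_9cec2c_lc.SLPhase
import Pool.Agent.Lib.MP_9cec2c_lc.SLGood
import Pool.Agent.Lib.MP_9cec2c_lc.SLMoment
import Pool.Agent.Lib.MP_9cec2c_lc.SLNum

/-!
Short lines: the final assembly.
-/

namespace Pool.Agent.MP_9cec2c_lc.ShortLines

open Finset

open scoped Classical in
theorem few_bad_family (e : ℕ) (he : 1 ≤ e) : ∀ᶠ n : ℕ in Filter.atTop,
    ∀ q b l T : ℕ, n ≤ q → q ^ (14 * e) ≤ b → b ≤ 2 ^ Nat.sqrt n → b ≤ 2 ^ (e * l) →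
    2 ^ (e * l) ≤ q ^ 6 * b → ∀ ZZ : Finset (Finset (Cube n)), ZZ.card ≤ 2 ^ b →
    b * (univ.filter fun f : Fin (n ^ 2 * 2 ^ ((e + 1) * l)) → Fin ((e + 1) * l) → Fin n × Bool =>
      ¬ ((∀ x, ∃ i, x ∈ viol (f i)) ∧
      Good (fun i => viol (f i)) ZZ (2 ^ (e * l)) (b + 1) (b + 1 + T * (b + 2)) T
        (2 ^ (n - 2 * (n / 2 ^ (2 * (7 * e + 12 + 4))))))).card ≤
      ((2 * n) ^ ((e + 1) * l)) ^ (n ^ 2 * 2 ^ ((e + 1) * l)) := by
  filter_upwards [num_moment 4 (7 * e + 12), Filter.eventually_ge_atTop (2 ^ (7 * e + 12)),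
    Filter.eventually_ge_atTop 3] with n h1 h2 hn q b l T hnq hqb hb hbl hlq ZZ hZZ
  have hq1 : 1 ≤ q := by omega
  have hnl : n ≤ 2 ^ l := by
    have e1 : n ^ e ≤ (2 ^ l) ^ e := by
      calc n ^ e ≤ q ^ e := Nat.pow_le_pow_left hnq e
        _ ≤ q ^ (14 * e) := Nat.pow_le_pow_right hq1 (by omega)
        _ ≤ b := hqb
        _ ≤ 2 ^ (e * l) := hbl
        _ = (2 ^ l) ^ e := by rw [← pow_mul, mul_comm]
    exact (Nat.pow_le_pow_iff_left (by omega)).mp e1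
  have hw : (e + 1) * l ≤ 4 * (Nat.sqrt n + 1) := by
    have e1 : 2 ^ (e * l) ≤ 2 ^ (2 * Nat.sqrt n) := by
      calc 2 ^ (e * l) ≤ q ^ 6 * b := hlq
        _ ≤ q ^ (14 * e) * b := Nat.mul_le_mul_right _ (Nat.pow_le_pow_right hq1 (by omega))
        _ ≤ b * b := Nat.mul_le_mul_right _ hqb
        _ ≤ 2 ^ Nat.sqrt n * 2 ^ Nat.sqrt n := Nat.mul_le_mul hb hb
        _ = 2 ^ (2 * Nat.sqrt n) := by rw [← pow_add]; congr 1; ring
    have e2 : e * l ≤ 2 * Nat.sqrt n := (Nat.pow_le_pow_iff_right (by norm_num)).mp e1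
    have e3 : 1 * l ≤ e * l := Nat.mul_le_mul_right _ he
    rw [add_mul]
    omega
  have hbN : b ≤ n ^ 2 * 2 ^ ((e + 1) * l) := by
    calc b ≤ 2 ^ (e * l) := hbl
      _ ≤ 2 ^ ((e + 1) * l) :=
          Nat.pow_le_pow_right (by norm_num) (Nat.mul_le_mul_right _ (by omega))
      _ ≤ n ^ 2 * 2 ^ ((e + 1) * l) := Nat.le_mul_of_pos_left _ (by positivity)
  have hb2 : b ≤ 2 ^ n :=
    hb.trans (Nat.pow_le_pow_right (by norm_num) (Nat.sqrt_le_self n))
  refine few_bad (y := b) hn rfl (Nat.pow_le_pow_right (by norm_num) (by omega))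
    le_rfl le_rfl hbN hb2 ZZ hZZ ?_
  intro U hU
  have h3 := heavy_few (g := n / 2 ^ (7 * e + 12))
    (s := 2 * (n / 2 ^ (2 * (7 * e + 12 + 4)))) (x := 4 * (e + 1) + 9)
    (Q := 7 * e + 12 + 4) (e := e) (l := l) (t := 2 ^ (e * l)) (w := (e + 1) * l)
    (by ring) rfl rfl ((Nat.one_le_div_iff (by positivity)).mpr h2) (by
      have e1 : 7 * e + 12 + 4 - 3 = (7 * e + 12) + 1 := by omega
      rw [e1, pow_succ]
      have e2 := Nat.mul_div_le n (2 ^ (7 * e + 12))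
      calc 2 ^ (7 * e + 12) * 2 * (n / 2 ^ (7 * e + 12))
          = 2 * (2 ^ (7 * e + 12) * (n / 2 ^ (7 * e + 12))) := by ring
        _ ≤ 2 * n := by omega) (h1 _ hw) U (by
      calc 2 ^ n = 2 ^ (n - 2 * (n / 2 ^ (2 * (7 * e + 12 + 4)))) *
            2 ^ (2 * (n / 2 ^ (2 * (7 * e + 12 + 4)))) := by
            rw [← pow_add]
            congr 1
            have e1 : 2 * (n / 2 ^ (2 * (7 * e + 12 + 4))) ≤ n := by
              have e2 : 2 ≤ 2 ^ (2 * (7 * e + 12 + 4)) := by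
                calc 2 = 2 ^ 1 := rfl
                  _ ≤ _ := Nat.pow_le_pow_right (by norm_num) (by omega)
              calc 2 * (n / 2 ^ (2 * (7 * e + 12 + 4)))
                  ≤ 2 ^ (2 * (7 * e + 12 + 4)) * (n / 2 ^ (2 * (7 * e + 12 + 4))) :=
                    Nat.mul_le_mul_right _ e2
                _ ≤ n := Nat.mul_div_le _ _
            omega
        _ ≤ _ := Nat.mul_le_mul_right _ hU)
  have h4 : 2 * (n ^ 2 * 2 ^ ((e + 1) * l)) ^ 4 ≤ 2 ^ ((4 * (e + 1) + 9) * l) := by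
    have e1 : 2 * n ^ 8 ≤ 2 ^ (9 * l) := by
      calc 2 * n ^ 8 ≤ n * n ^ 8 := Nat.mul_le_mul_right _ (by omega)
        _ = n ^ 9 := by ring
        _ ≤ (2 ^ l) ^ 9 := Nat.pow_le_pow_left hnl 9
        _ = 2 ^ (9 * l) := by rw [← pow_mul, mul_comm]
    calc 2 * (n ^ 2 * 2 ^ ((e + 1) * l)) ^ 4 = (2 * n ^ 8) * 2 ^ (4 * (e + 1) * l) := by
          rw [mul_pow, ← pow_mul, ← pow_mul]
          ring
      _ ≤ 2 ^ (9 * l) * 2 ^ (4 * (e + 1) * l) := Nat.mul_le_mul_right _ e1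
      _ = 2 ^ ((4 * (e + 1) + 9) * l) := by rw [← pow_add]; congr 1; ring
  have h5 := Nat.mul_le_mul_left
    (univ.filter fun C : Fin ((e + 1) * l) → Fin n × Bool => Heavy (2 ^ (e * l)) (viol C) U).card
    h4
  have h6 := h5.trans h3
  refine Nat.le_of_mul_le_mul_left ?_ (show 0 < 2 by norm_num)
  calc _ = _ := by ring
    _ ≤ _ := h6

/-- The clause with falsifying set `viol C`. -/
def cl {n w : ℕ} (C : Fin w → Fin n × Bool) : Clause n :=
  univ.image fun e => ((C e).1, !(C e).2)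

theorem holds_cl {n w : ℕ} (C : Fin w → Fin n × Bool) (x : Cube n) :
    Holds x (cl C) ↔ x ∉ viol C := by
  unfold Holds cl viol
  simp only [mem_image, mem_univ, true_and, mem_filter, not_forall]
  constructor
  · rintro ⟨l, ⟨e, rfl⟩, hl⟩
    refine ⟨e, ?_⟩
    simp only at hl
    rw [hl]
    simp
  · rintro ⟨e, he⟩
    refine ⟨_, ⟨e, rfl⟩, ?_⟩
    simp only
    exact Bool.eq_not_of_ne he

/-- The falsity set of a line. -/
def falsity {n : ℕ} (g : Cube n → Bool) : Finset (Cube n) := univ.filter fun x => g x = false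

/-- Negation of all literals. -/
def neg {n N w : ℕ} (f : Fin N → Fin w → Fin n × Bool) : Fin N → Fin w → Fin n × Bool :=
  fun i e => ((f i e).1, !(f i e).2)

theorem cnf_eq {n N w : ℕ} (f : Fin N → Fin w → Fin n × Bool) :
    cnf f = univ.image fun i => cl (neg f i) := by
  unfold cnf cl neg
  simp

theorem neg_injective {n N w : ℕ} :
    Function.Injective (neg : (Fin N → Fin w → Fin n × Bool) → _) := by
  intro f g h
  funext i e
  have h1 := congrFun (congrFun h i) e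
  unfold neg at h1
  rw [Prod.mk.injEq] at h1
  exact Prod.ext h1.1 (by simpa using h1.2)

theorem exists_dag {n S N w q D m : ℕ} (f : Fin N → Fin w → Fin n × Bool)
    (L : Fin S → Cube n → Bool) (hL : IsRefutation (univ.image fun i => cl (f i)) q D m L) :
    ∃ (rank level : Fin S → ℕ) (ch : Fin S → Finset (Fin S)) (ex : Fin S → Finset (Fin N)),
      Dag (fun i => viol (f i)) (fun v => falsity (L v)) m q rank level ch ex ∧
      (∀ v, rank v < q + 1) ∧ (∀ v, level v ≤ D) ∧ ∃ v, falsity (L v) = univ := by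
  classical
  obtain ⟨⟨v₀, hv₀⟩, rank, level, hrank, hlevel, hinf⟩ := hL
  choose P G hP hGF hG hPl hsem using hinf
  have hidx : ∀ v, ∀ C ∈ G v, ∃ i, cl (f i) = C := by
    intro v C hC
    have := hGF v hC
    rw [mem_image] at this
    obtain ⟨i, _, hi⟩ := this
    exact ⟨i, hi⟩
  choose idx hidx' using hidx
  refine ⟨rank, level, P, fun v => (G v).attach.image fun C => idx v C.1 C.2,
    ⟨hP, ?_, ?_, ?_, ?_, ?_⟩, fun v => Nat.lt_succ_of_le (hrank v), hlevel, v₀, ?_⟩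
  · intro v
    refine card_image_le.trans ?_
    rw [card_attach]
    exact hG v
  · exact fun v u hu => (hPl v u hu).1
  · exact fun v u hu => (hPl v u hu).2.1
  · exact fun v hv u hu => (hPl v u hu).2.2 hv
  · intro v x hx
    rw [falsity, mem_filter] at hx
    rw [mem_union]
    by_contra hcon
    rw [not_or] at hcon
    have h1 := hsem v x (by
      intro j hj
      by_contra hne
      apply hcon.1
      rw [mem_biUnion]
      refine ⟨j, hj, ?_⟩
      rw [falsity, mem_filter]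
      exact ⟨mem_univ _, Bool.eq_false_iff.mpr hne⟩) (by
      intro C hC
      rw [← hidx' v C hC, holds_cl]
      intro hxC
      apply hcon.2
      rw [mem_biUnion]
      refine ⟨idx v C hC, ?_, hxC⟩
      rw [mem_image]
      exact ⟨⟨C, hC⟩, mem_attach _ _, rfl⟩)
    rw [hx.2] at h1
    exact absurd h1 (by simp)
  · rw [falsity, filter_true_of_mem]
    exact fun x _ => hv₀ x

/-- Numerical form of the condition on `t`. -/
theorem t_large {q b m : ℕ} (hq : 2 ≤ q) (hb : 2 ≤ b) (hm : m ≤ q) :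
    8 * (b + 1 + (q + 1) * (q + m * (b + 1 + (1 + q * (q + 1)) * (b + 2)))) ≤
      208 * q ^ 4 * b := by
  have f1 : 1 + q * (q + 1) ≤ 2 * q ^ 2 := by nlinarith
  have f2 : (1 + q * (q + 1)) * (b + 2) ≤ 4 * (q ^ 2 * b) := by
    calc (1 + q * (q + 1)) * (b + 2) ≤ (2 * q ^ 2) * (2 * b) := Nat.mul_le_mul f1 (by omega)
      _ = 4 * (q ^ 2 * b) := by ring
  have f3 : b ≤ q ^ 2 * b := Nat.le_mul_of_pos_left _ (by positivity)
  have f4 : b + 1 + (1 + q * (q + 1)) * (b + 2) ≤ 6 * (q ^ 2 * b) := by omega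
  have f5 : m * (b + 1 + (1 + q * (q + 1)) * (b + 2)) ≤ 6 * (q ^ 3 * b) := by
    calc m * (b + 1 + (1 + q * (q + 1)) * (b + 2)) ≤ q * (6 * (q ^ 2 * b)) :=
          Nat.mul_le_mul hm f4
      _ = 6 * (q ^ 3 * b) := by ring
  have f6 : q ≤ q ^ 3 * b := by
    calc q = q * 1 * 1 := by ring
      _ ≤ q * q ^ 2 * b := Nat.mul_le_mul (Nat.mul_le_mul_left _ (by nlinarith)) (by omega)
      _ = q ^ 3 * b := by ring
  have f7 : (q + 1) * (q + m * (b + 1 + (1 + q * (q + 1)) * (b + 2))) ≤ 14 * (q ^ 4 * b) := by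
    calc (q + 1) * (q + m * (b + 1 + (1 + q * (q + 1)) * (b + 2)))
        ≤ (2 * q) * (7 * (q ^ 3 * b)) := Nat.mul_le_mul (by omega) (by omega)
      _ = 14 * (q ^ 4 * b) := by ring
  have f8 : b ≤ q ^ 4 * b := Nat.le_mul_of_pos_left _ (by positivity)
  have f9 : 208 * q ^ 4 * b = 208 * (q ^ 4 * b) := by ring
  omega

/-- The choice of the parameter `l`. -/
theorem exists_l {e q b : ℕ} (he : 1 ≤ e) (hq : 208 * 2 ^ e ≤ q) (hb : 2 ≤ b) :
    ∃ l, 208 * q ^ 4 * b ≤ 2 ^ (e * l) ∧ 2 ^ (e * l) ≤ q ^ 6 * b := by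
  have h2e : 1 < 2 ^ e := Nat.one_lt_two_pow (by omega)
  have hq0 : 208 ≤ q := by
    have : 208 * 1 ≤ 208 * 2 ^ e := Nat.mul_le_mul_left _ h2e.le
    omega
  have hX : 1 < 208 * q ^ 4 * b := by
    have : 1 ≤ q ^ 4 := Nat.one_le_pow _ _ (by omega)
    nlinarith
  refine ⟨Nat.clog (2 ^ e) (208 * q ^ 4 * b), ?_, ?_⟩
  · rw [pow_mul]
    exact Nat.le_pow_clog h2e _
  · have h1 := Nat.pow_pred_clog_lt_self h2e hX
    have h2 : 0 < Nat.clog (2 ^ e) (208 * q ^ 4 * b) := Nat.clog_pos h2e (by omega)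
    have h3 : 2 ^ (e * Nat.clog (2 ^ e) (208 * q ^ 4 * b)) =
        2 ^ e * (2 ^ e) ^ (Nat.clog (2 ^ e) (208 * q ^ 4 * b)).pred := by
      rw [pow_mul, ← pow_succ']
      congr 1
      exact (Nat.succ_pred_eq_of_pos h2).symm
    rw [h3]
    calc 2 ^ e * (2 ^ e) ^ (Nat.clog (2 ^ e) (208 * q ^ 4 * b)).pred
        ≤ 2 ^ e * (208 * q ^ 4 * b) := Nat.mul_le_mul_left _ h1.le
      _ = (208 * 2 ^ e) * (1 * (q ^ 4 * b)) := by ring
      _ ≤ q * (q * (q ^ 4 * b)) :=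
          Nat.mul_le_mul hq (Nat.mul_le_mul_right _ (by omega))
      _ = q ^ 6 * b := by ring

end Pool.Agent.MP_9cec2c_lc.ShortLines
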