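import Mathlib
import Pool.Agent.Lib.MP_9cec2c_lc.SLFinal

/-!
Short lines: the main theorem.
-/

namespace Pool.Agent.MP_9cec2c_lc.ShortLines

open Finset

theorem final_ineq {n q S D m R : ℕ} (hR1 : 1 ≤ R) (hn : 2 ^ (R + 1) ≤ n)
    (hlow : 4 * (Nat.sqrt n + 6) ≤ n / 2 ^ R) (hm2 : 2 ≤ m) (hm : m ≤ q)
    (hq : q ≤ 2 ^ Nat.sqrt n) (hS : 0 < S)
    (hcore : ∀ k p : ℕ, 8 * ((q + 1) * m ^ k) * 2 ^ (n - 2 * (n / 2 ^ R)) *
      (2 * (2 * S) ^ p) ≤ 2 ^ n → (p + 1) * k ≤ D) :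
    (1 / 2 ^ (2 * R + 4) : ℝ) * (n : ℝ) ^ 2 ≤ D * Real.logb 2 (2 * S) * Real.logb 2 m := by
  set s := n / 2 ^ R with hs
  set e := Nat.sqrt n + 6 with he
  have hm0 : (0 : ℝ) < m := by exact_mod_cast (by omega : 0 < m)
  have hS0 : (0 : ℝ) < 2 * S := by
    have : (0 : ℝ) < S := by exact_mod_cast hS
    linarith
  set x := Real.logb 2 m with hx
  set z := Real.logb 2 (2 * S) with hz
  have hx1 : 1 ≤ x := by
    rw [hx, Real.le_logb_iff_rpow_le (by norm_num) hm0, Real.rpow_one]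
    exact_mod_cast hm2
  have hz1 : 1 ≤ z := by
    rw [hz, Real.le_logb_iff_rpow_le (by norm_num) hS0, Real.rpow_one]
    have : (1 : ℝ) ≤ S := by exact_mod_cast hS
    linarith
  have hx2 : x ≤ Nat.sqrt n := by
    rw [hx, Real.logb_le_iff_le_rpow (by norm_num) hm0, Real.rpow_natCast]
    exact_mod_cast hm.trans hq
  have hes : (4 * e : ℝ) ≤ s := by exact_mod_cast hlow
  have hxs : 4 * x ≤ s := by
    have h2 : (e : ℝ) = Nat.sqrt n + 6 := by rw [he]; push_cast; ring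
    linarith
  set k := ⌊(s : ℝ) / x⌋₊ with hk
  set p := ⌊((s : ℝ) - e) / z⌋₊ with hp
  have hkx : (k : ℝ) * x ≤ s := by
    have : (k : ℝ) ≤ s / x := Nat.floor_le (by positivity)
    rwa [le_div_iff₀ (by linarith)] at this
  have hpz : (p : ℝ) * z ≤ s - e := by
    have he0 : (0 : ℝ) ≤ e := Nat.cast_nonneg _
    have : (p : ℝ) ≤ (s - e) / z := Nat.floor_le (div_nonneg (by linarith) (by linarith))
    rwa [le_div_iff₀ (by linarith)] at this
  have hkx2 : (s : ℝ) - x ≤ k * x := by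
    have : (s : ℝ) / x < k + 1 := Nat.lt_floor_add_one _
    rw [div_lt_iff₀ (by linarith)] at this
    linarith
  have hpz2 : (s : ℝ) - e ≤ (p + 1) * z := by
    have : ((s : ℝ) - e) / z < p + 1 := Nat.lt_floor_add_one _
    rw [div_lt_iff₀ (by linarith)] at this
    linarith
  have hmk : m ^ k ≤ 2 ^ s := by
    have h1 : (m : ℝ) = 2 ^ x := by
      rw [hx, Real.rpow_logb (by norm_num) (by norm_num) hm0]
    have h2 : ((m ^ k : ℕ) : ℝ) ≤ ((2 ^ s : ℕ) : ℝ) := by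
      push_cast
      rw [h1, ← Real.rpow_natCast, ← Real.rpow_mul (by norm_num), ← Real.rpow_natCast 2 s]
      exact Real.rpow_le_rpow_of_exponent_le (by norm_num) (by linarith)
    exact_mod_cast h2
  have hSp : (2 * S) ^ p ≤ 2 ^ (s - e) := by
    have h1 : (2 * S : ℝ) = 2 ^ z := by
      rw [hz, Real.rpow_logb (by norm_num) (by norm_num) hS0]
    have h3 : ((s - e : ℕ) : ℝ) = s - e := Nat.cast_sub (by omega)
    have h2 : (((2 * S) ^ p : ℕ) : ℝ) ≤ ((2 ^ (s - e) : ℕ) : ℝ) := by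
      push_cast
      rw [h1, ← Real.rpow_natCast, ← Real.rpow_mul (by norm_num),
        ← Real.rpow_natCast 2 (s - e), h3]
      exact Real.rpow_le_rpow_of_exponent_le (by norm_num) (by linarith)
    exact_mod_cast h2
  have hsn : 2 * s ≤ n := by
    have e1 : 2 ≤ 2 ^ R := by
      calc 2 = 2 ^ 1 := rfl
        _ ≤ 2 ^ R := Nat.pow_le_pow_right (by norm_num) hR1
    calc 2 * s ≤ 2 ^ R * s := Nat.mul_le_mul_right _ e1
      _ ≤ n := Nat.mul_div_le _ _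
  have hcond : 8 * ((q + 1) * m ^ k) * 2 ^ (n - 2 * s) * (2 * (2 * S) ^ p) ≤ 2 ^ n := by
    have h1 : q + 1 ≤ 2 ^ (Nat.sqrt n + 1) := by
      have : 1 ≤ 2 ^ Nat.sqrt n := Nat.one_le_pow _ _ (by norm_num)
      rw [pow_succ]
      omega
    calc 8 * ((q + 1) * m ^ k) * 2 ^ (n - 2 * s) * (2 * (2 * S) ^ p)
        ≤ 8 * (2 ^ (Nat.sqrt n + 1) * 2 ^ s) * 2 ^ (n - 2 * s) * (2 * 2 ^ (s - e)) := by
          gcongr
      _ = 2 ^ (Nat.sqrt n + 5) * 2 ^ s * 2 ^ (n - 2 * s) * 2 ^ (s - e) := by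
          have : 2 ^ (Nat.sqrt n + 5) = 8 * 2 ^ (Nat.sqrt n + 1) * 2 := by ring
          rw [this]; ring
      _ = 2 ^ (n - 1) := by
          rw [← pow_add, ← pow_add, ← pow_add]
          congr 1
          omega
      _ ≤ 2 ^ n := Nat.pow_le_pow_right (by norm_num) (by omega)
  have hD := hcore k p hcond
  have hDr : ((p : ℝ) + 1) * k ≤ D := by exact_mod_cast hD
  have hsr : (n : ℝ) / 2 ^ (R + 1) ≤ s := by
    have h1 : n ≤ 2 ^ R * (s + 1) := (Nat.lt_mul_div_succ n (show 0 < 2 ^ R by positivity)).le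
    have h0 : 1 ≤ s := (Nat.one_le_div_iff (by positivity)).mpr (by
      rw [pow_succ] at hn; omega)
    have h2 : n ≤ 2 ^ (R + 1) * s := by
      calc n ≤ 2 ^ R * (s + 1) := h1
        _ ≤ 2 ^ R * (2 * s) := Nat.mul_le_mul_left _ (by omega)
        _ = 2 ^ (R + 1) * s := by ring
    have h3 : (n : ℝ) ≤ 2 ^ (R + 1) * s := by exact_mod_cast h2
    rw [div_le_iff₀ (by positivity)]
    linarith
  have hnn : (0 : ℝ) ≤ n := Nat.cast_nonneg _
  have hss : (0 : ℝ) ≤ s := Nat.cast_nonneg _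
  have a1 : (s : ℝ) / 2 ≤ k * x := by linarith
  have a2 : (s : ℝ) / 2 ≤ (p + 1) * z := by linarith
  calc (1 / 2 ^ (2 * R + 4) : ℝ) * (n : ℝ) ^ 2
      = (n / 2 ^ (R + 1) / 2) * (n / 2 ^ (R + 1) / 2) := by
        rw [show 2 * R + 4 = (R + 1) + (R + 1) + 1 + 1 by ring, pow_succ, pow_succ, pow_add]
        field_simp
    _ ≤ ((s : ℝ) / 2) * (s / 2) := by gcongr
    _ ≤ ((p + 1) * z) * (k * x) := by gcongr
    _ = ((p + 1) * k) * (z * x) := by ring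
    _ ≤ D * (z * x) := by gcongr
    _ = D * z * x := by ring

/-- The number of clauses. -/
theorem card_bound {n q b e l : ℕ} (he : 1 ≤ e) (hn1 : 1 ≤ n) (hnq : n ≤ q)
    (hqb : q ^ (14 * e) ≤ b) (hl : 2 ^ (e * l) ≤ q ^ 6 * b) :
    ((n ^ 2 * 2 ^ ((e + 1) * l) : ℕ) : ℝ) ≤ (b : ℝ) ^ (1 + 2 / (e : ℝ)) := by
  have hq1 : 1 ≤ q := by omega
  have h1 : (n ^ 2 * 2 ^ ((e + 1) * l)) ^ e ≤ b ^ (e + 2) := by
    calc (n ^ 2 * 2 ^ ((e + 1) * l)) ^ e = n ^ (2 * e) * (2 ^ (e * l)) ^ (e + 1) := by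
          rw [mul_pow, ← pow_mul, ← pow_mul, ← pow_mul]
          congr 2
          ring
      _ ≤ q ^ (2 * e) * (q ^ 6 * b) ^ (e + 1) :=
          Nat.mul_le_mul (Nat.pow_le_pow_left hnq _) (Nat.pow_le_pow_left hl _)
      _ = q ^ (2 * e + 6 * (e + 1)) * b ^ (e + 1) := by
          rw [mul_pow, ← pow_mul, pow_add]; ring
      _ ≤ q ^ (14 * e) * b ^ (e + 1) :=
          Nat.mul_le_mul_right _ (Nat.pow_le_pow_right hq1 (by omega))
      _ ≤ b * b ^ (e + 1) := Nat.mul_le_mul_right _ hqb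
      _ = b ^ (e + 2) := by ring
  set N := n ^ 2 * 2 ^ ((e + 1) * l) with hN
  have hb0 : (0 : ℝ) ≤ b := Nat.cast_nonneg _
  have he0 : (0 : ℝ) < e := by exact_mod_cast he
  have h2 : ((N : ℝ)) ^ e ≤ (b : ℝ) ^ (e + 2) := by exact_mod_cast h1
  have h3 : (b : ℝ) ^ (e + 2) = ((b : ℝ) ^ (1 + 2 / (e : ℝ))) ^ e := by
    rw [← Real.rpow_natCast ((b : ℝ) ^ (1 + 2 / (e : ℝ))) e, ← Real.rpow_mul hb0,
      ← Real.rpow_natCast (b : ℝ) (e + 2)]
    congr 1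
    push_cast
    field_simp
  rw [h3] at h2
  exact le_of_pow_le_pow_left₀ (by omega) (Real.rpow_nonneg hb0 _) h2

/-- The width of the clauses. -/
theorem width_bound {q b e l : ℕ} (he : 1 ≤ e) (hb : 1 < b)
    (hqb : q ^ (14 * e) ≤ b) (hl : 2 ^ (e * l) ≤ q ^ 6 * b) :
    (((e + 1) * l : ℕ) : ℝ) ≤ (1 + 2 / (e : ℝ)) * Real.logb 2 b := by
  have h1 : 2 ^ (7 * e * (e * l)) ≤ b ^ (7 * e + 3) := by
    calc 2 ^ (7 * e * (e * l)) = (2 ^ (e * l)) ^ (7 * e) := by rw [← pow_mul]; congr 1; ring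
      _ ≤ (q ^ 6 * b) ^ (7 * e) := Nat.pow_le_pow_left hl _
      _ = (q ^ (14 * e)) ^ 3 * b ^ (7 * e) := by
          rw [mul_pow, ← pow_mul, ← pow_mul]; congr 2; ring
      _ ≤ b ^ 3 * b ^ (7 * e) := Nat.mul_le_mul_right _ (Nat.pow_le_pow_left hqb 3)
      _ = b ^ (7 * e + 3) := by rw [← pow_add]; congr 1; ring
  have hb0 : (0 : ℝ) < b := by exact_mod_cast (by omega : 0 < b)
  have he0 : (1 : ℝ) ≤ e := by exact_mod_cast he
  have hlog : 0 ≤ Real.logb 2 b :=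
    Real.logb_nonneg (by norm_num) (by exact_mod_cast (by omega : 1 ≤ b))
  have h2 : (7 * e * (e * l) : ℝ) ≤ (7 * e + 3) * Real.logb 2 b := by
    have h3 : ((7 * e * (e * l) : ℕ) : ℝ) ≤ Real.logb 2 ((b : ℝ) ^ (7 * e + 3)) := by
      rw [Real.le_logb_iff_rpow_le (by norm_num) (by positivity), Real.rpow_natCast]
      exact_mod_cast h1
    rw [← Real.rpow_natCast, Real.logb_rpow_eq_mul_logb_of_pos hb0] at h3
    push_cast at h3
    exact h3
  have h4 : (7 * (e : ℝ) ^ 2) * (((e + 1) * l : ℕ) : ℝ) ≤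
      (7 * (e : ℝ) ^ 2) * ((1 + 2 / (e : ℝ)) * Real.logb 2 b) := by
    push_cast
    calc (7 * (e : ℝ) ^ 2) * ((e + 1) * l) = (e + 1) * (7 * e * (e * l)) := by ring
      _ ≤ (e + 1) * ((7 * e + 3) * Real.logb 2 b) := by gcongr
      _ = ((e + 1) * (7 * e + 3)) * Real.logb 2 b := by ring
      _ ≤ (7 * (e : ℝ) ^ 2 * (1 + 2 / (e : ℝ))) * Real.logb 2 b := by
          refine mul_le_mul_of_nonneg_right ?_ hlog
          have : 7 * (e : ℝ) ^ 2 * (1 + 2 / (e : ℝ)) = 7 * (e : ℝ) ^ 2 + 14 * e := by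
            field_simp
            ring
          rw [this]
          nlinarith
      _ = _ := by ring
  exact le_of_mul_le_mul_left h4 (by positivity)

theorem main : ∀ ε : ℝ, 0 < ε → ∃ (K : ℕ) (δ : ℝ), 0 < δ ∧ ∀ᶠ n : ℕ in Filter.atTop,
    ∀ q b : ℕ, n ≤ q → q ^ K ≤ b → b ≤ 2 ^ Nat.sqrt n →
    ∃ N w : ℕ, (N : ℝ) ≤ (b : ℝ) ^ (1 + ε) ∧ (w : ℝ) ≤ (1 + ε) * Real.logb 2 b ∧
    ∀ LL : Finset (Cube n → Bool), LL.card ≤ 2 ^ b →
      b * {f : Fin N → Fin w → Lit n | ¬ Hard LL q δ (cnf f)}.ncard ≤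
        Fintype.card (Fin N → Fin w → Lit n) := by
  classical
  intro ε hε
  obtain ⟨e, he1, he2⟩ : ∃ e : ℕ, 1 ≤ e ∧ 2 / (e : ℝ) ≤ ε := by
    obtain ⟨e, he⟩ := exists_nat_ge (2 / ε)
    have h1 : 0 < 2 / ε := by positivity
    have h2 : (0 : ℝ) < e := lt_of_lt_of_le h1 he
    refine ⟨e, by exact_mod_cast h2, ?_⟩
    rw [div_le_iff₀ hε] at he
    rw [div_le_iff₀ h2]
    linarith
  set R := 2 * (7 * e + 12 + 4) with hR
  refine ⟨14 * e, 1 / 2 ^ (2 * R + 4), by positivity, ?_⟩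
  filter_upwards [few_bad_family e he1, num_low R, Filter.eventually_ge_atTop (2 ^ (R + 1)),
    Filter.eventually_ge_atTop (208 * 2 ^ e)] with n h1 h2 h3 h4 q b hnq hqb hb
  have hq208 : 208 * 2 ^ e ≤ q := h4.trans hnq
  have hq2 : 208 ≤ q := by
    have : 1 ≤ 2 ^ e := Nat.one_le_pow _ _ (by norm_num)
    nlinarith
  have hqb' : q ≤ b := by
    calc q = q ^ 1 := (pow_one q).symm
      _ ≤ q ^ (14 * e) := Nat.pow_le_pow_right (by omega) (by omega)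
      _ ≤ b := hqb
  obtain ⟨l, hl1, hl2⟩ := exists_l (q := q) (b := b) he1 hq208 (by omega)
  have hn1 : 1 ≤ n := by
    have : 1 ≤ 2 ^ (R + 1) := Nat.one_le_pow _ _ (by norm_num)
    omega
  have hb1 : (1 : ℝ) ≤ b := by exact_mod_cast (by omega : 1 ≤ b)
  have hlogb : 0 ≤ Real.logb 2 b := Real.logb_nonneg (by norm_num) hb1
  refine ⟨n ^ 2 * 2 ^ ((e + 1) * l), (e + 1) * l, ?_, ?_, ?_⟩
  · calc ((n ^ 2 * 2 ^ ((e + 1) * l) : ℕ) : ℝ)
        ≤ (b : ℝ) ^ (1 + 2 / (e : ℝ)) := card_bound he1 hn1 hnq hqb hl2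
      _ ≤ (b : ℝ) ^ (1 + ε) := Real.rpow_le_rpow_of_exponent_le hb1 (by linarith)
  · calc (((e + 1) * l : ℕ) : ℝ)
        ≤ (1 + 2 / (e : ℝ)) * Real.logb 2 b := width_bound he1 (by omega) hqb hl2
      _ ≤ (1 + ε) * Real.logb 2 b := by gcongr
  · intro LL hLL
    have hbad := h1 q b l (1 + q * (q + 1)) hnq hqb hb (by
      refine le_trans ?_ hl1
      have : 1 ≤ 208 * q ^ 4 := by
        have : 1 ≤ q ^ 4 := Nat.one_le_pow _ _ (by omega)
        omega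
      exact Nat.le_mul_of_pos_left _ (by omega)) hl2 (LL.image falsity)
      (card_image_le.trans hLL)
    have hcardf : Fintype.card (Fin (n ^ 2 * 2 ^ ((e + 1) * l)) → Fin ((e + 1) * l) → Lit n) =
        ((2 * n) ^ ((e + 1) * l)) ^ (n ^ 2 * 2 ^ ((e + 1) * l)) := by
      simp [mul_comm]
    rw [hcardf]
    refine le_trans (Nat.mul_le_mul_left _ ?_) hbad
    rw [← Set.ncard_coe_finset]
    refine Set.ncard_le_ncard_of_injOn neg ?_ neg_injective.injOn (Finset.finite_toSet _)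
    intro f hf
    rw [Finset.mem_coe, mem_filter]
    refine ⟨mem_univ _, fun hgood' => hf ?_⟩
    obtain ⟨hunsat, hgood⟩ := hgood'
    rw [cnf_eq]
    refine ⟨?_, ?_⟩
    · intro x
      obtain ⟨i, hi⟩ := hunsat x
      refine ⟨cl (neg f i), mem_image_of_mem _ (mem_univ _), ?_⟩
      rw [holds_cl]
      exact not_not.mpr hi
    · intro S D m L hL hm2 hm href
      obtain ⟨rank, level, ch, ex, hdag, hrank, hlevel, v₀, hv₀⟩ := exists_dag (neg f) L href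
      have hS : 0 < S := Fin.pos v₀
      refine final_ineq (by omega) h3 h2 hm2 hm (hqb'.trans hb) hS fun k p hkp => ?_
      have hcard : Fintype.card (Cube n) = 2 ^ n := by simp
      refine core (k := k) (p := p) hgood hdag (fun v => mem_image_of_mem _ (hL v)) hrank hlevel
        (by omega) ?_ (by positivity) ?_ ?_ v₀ hv₀ ?_
      · exact Nat.add_le_add_left (Nat.mul_le_mul_right _ hm) _
      · exact (t_large (by omega) (by omega) hm).trans hl1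
      · rw [hcard]; positivity
      · rw [hcard, Fintype.card_fin]; exact hkp

end Pool.Agent.MP_9cec2c_lc.ShortLines
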