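import Pool.Agent.Lib.MP_9cec2c_lc.Mg.G057

/-!
The deterministic part of the lower bound.
-/

set_option autoImplicit false

namespace Pool.Agent.MP_9cec2c_lc.SubstRed

open Finset

variable {n k m : ℕ}

/-- The incidence vector modulo 2 of a row. -/
def vec (E : Fin k → Fin n) (v : Fin n) : ZMod 2 := ∑ a, if E a = v then 1 else 0

/-- The value of a row. -/
def rowSum (E : Fin k → Fin n) (y : Fin n → Bool) : ZMod 2 := ∑ a, bz (y (E a))

theorem sum_vec_mul (E : Fin k → Fin n) (y : Fin n → Bool) :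
    ∑ v, vec E v * bz (y v) = rowSum E y := by
  simp only [vec, rowSum, sum_mul, ite_mul, one_mul, zero_mul]
  rw [sum_comm]
  simp

/-- The image vector of a row under a partial map. -/
def gvec (g : Fin n → Option (Fin n)) (E : Fin k → Fin n) (v : Fin n) : ZMod 2 :=
  ∑ a, if g (E a) = some v then 1 else 0

/-- Number of occurrences. -/
def cnt (H : Fin m → Fin k → Fin n) (J : Finset (Fin m)) (v : Fin n) : ℕ :=
  ∑ i ∈ J, ∑ a, if H i a = v then 1 else 0

/-- Variables with exactly one occurrence. -/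
def uniq (H : Fin m → Fin k → Fin n) (J : Finset (Fin m)) : Finset (Fin n) :=
  univ.filter (fun v => cnt H J v = 1)

/-- Variables with some occurrence. -/
def vars (H : Fin m → Fin k → Fin n) (J : Finset (Fin m)) : Finset (Fin n) :=
  univ.filter (fun v => cnt H J v ≠ 0)

theorem sum_vec (H : Fin m → Fin k → Fin n) (J : Finset (Fin m)) (v : Fin n) :
    ∑ i ∈ J, vec (H i) v = (cnt H J v : ZMod 2) := by
  simp [vec, cnt]

theorem mem_uniq {H : Fin m → Fin k → Fin n} {J : Finset (Fin m)} {v : Fin n} :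
    v ∈ uniq H J ↔ cnt H J v = 1 := by simp [uniq]

theorem mem_vars {H : Fin m → Fin k → Fin n} {J : Finset (Fin m)} {v : Fin n} :
    v ∈ vars H J ↔ ∃ i ∈ J, ∃ a, H i a = v := by
  simp [vars, cnt]

theorem cnt_union {H : Fin m → Fin k → Fin n} {I J : Finset (Fin m)} (h : Disjoint I J)
    (v : Fin n) : cnt H (I ∪ J) v = cnt H I v + cnt H J v := by
  simp [cnt, sum_union h]

theorem card_vars_le (H : Fin m → Fin k → Fin n) (J : Finset (Fin m)) :
    (vars H J).card ≤ k * J.card := by
  classical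
  have h1 : vars H J ⊆ J.biUnion (fun i => univ.image (H i)) := by
    intro v hv
    obtain ⟨i, hi, a, ha⟩ := mem_vars.1 hv
    simp only [mem_biUnion, mem_image, mem_univ, true_and]
    exact ⟨i, hi, a, ha⟩
  refine (card_le_card h1).trans ?_
  refine (card_biUnion_le_card_mul _ _ k fun i _ => ?_).trans (by rw [mul_comm])
  exact card_image_le.trans (by simp)

theorem rowSum_congr {E : Fin k → Fin n} {y y' : Fin n → Bool} (h : ∀ a, y (E a) = y' (E a)) :
    rowSum E y = rowSum E y' := by
  simp [rowSum, h]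

/-- The clause excluding the pattern `s` on the row `E`. -/
def rowClause (E : Fin k → Fin n) (s : Fin k → Bool) : Clause n :=
  univ.image (fun a => (E a, !s a))

theorem holds_rowClause {E : Fin k → Fin n} {s : Fin k → Bool} {y : Fin n → Bool} :
    Holds y (rowClause E s) ↔ ∃ a, y (E a) ≠ s a := by
  simp only [Holds, rowClause, mem_image, mem_univ, true_and]
  constructor
  · rintro ⟨l, ⟨a, rfl⟩, h⟩
    refine ⟨a, fun h' => ?_⟩
    simp only at h
    rw [h'] at h
    cases hs : s a <;> simp [hs] at h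
  · rintro ⟨a, h⟩
    refine ⟨(E a, !s a), ⟨a, rfl⟩, ?_⟩
    simp only
    cases hs : s a <;> cases hy : y (E a) <;> simp_all

theorem card_rowClause_le (E : Fin k → Fin n) (s : Fin k → Bool) : (rowClause E s).card ≤ k :=
  card_image_le.trans (by simp)

/-- The formula: all rows, each written as a conjunctive normal form. -/
def cnf (H : Fin m → Fin k → Fin n) (b : Fin m → ZMod 2) : Finset (Clause n) :=
  univ.biUnion (fun i => (univ.filter (fun s : Fin k → Bool => ∑ a, bz (s a) ≠ b i)).image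
    (rowClause (H i)))

theorem mem_cnf {H : Fin m → Fin k → Fin n} {b : Fin m → ZMod 2} {D : Clause n} :
    D ∈ cnf H b ↔ ∃ i, ∃ s : Fin k → Bool, ∑ a, bz (s a) ≠ b i ∧ rowClause (H i) s = D := by
  simp [cnf]

theorem card_cnf_le (H : Fin m → Fin k → Fin n) (b : Fin m → ZMod 2) :
    (cnf H b).card ≤ m * 2 ^ k := by
  classical
  refine (card_biUnion_le_card_mul _ _ (2 ^ k) fun i _ => ?_).trans (by simp)
  refine card_image_le.trans ((card_filter_le _ _).trans ?_)
  simp

theorem holds_of_sat {H : Fin m → Fin k → Fin n} {b : Fin m → ZMod 2} {y : Fin n → Bool}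
    {i : Fin m} (h : rowSum (H i) y = b i) {s : Fin k → Bool} (hs : ∑ a, bz (s a) ≠ b i) :
    Holds y (rowClause (H i) s) := by
  rw [holds_rowClause]
  by_contra hne
  push Not at hne
  refine hs ?_
  rw [← h]
  simp [rowSum, hne]

theorem sat_of_holds {H : Fin m → Fin k → Fin n} {b : Fin m → ZMod 2} {y : Fin n → Bool}
    {i : Fin m} (h : ∀ s : Fin k → Bool, ∑ a, bz (s a) ≠ b i → Holds y (rowClause (H i) s)) :
    rowSum (H i) y = b i := by
  by_contra hne
  have h1 := h (fun a => y (H i a)) hne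
  rw [holds_rowClause] at h1
  obtain ⟨a, ha⟩ := h1
  exact ha rfl

/-- Domain of a restriction. -/
def dom (ρ : Fin n → Option Bool) : Finset (Fin n) := univ.filter (fun v => (ρ v).isSome)

theorem mem_dom {ρ : Fin n → Option Bool} {v : Fin n} : v ∈ dom ρ ↔ ∃ c, ρ v = some c := by
  simp [dom, Option.isSome_iff_exists]

theorem notMem_dom {ρ : Fin n → Option Bool} {v : Fin n} : v ∉ dom ρ ↔ ρ v = none := by
  simp [dom]

/-- The clause is true under the restriction. -/
def RTrue (ρ : Fin n → Option Bool) (D : Clause n) : Prop := ∃ l ∈ D, ρ l.1 = some l.2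

/-- The clause is tautological. -/
def Taut (D : Clause n) : Prop := ∃ l ∈ D, negLit l ∈ D

theorem negLit_negLit (l : Lit n) : negLit (negLit l) = l := by
  simp [negLit]

theorem negLit_ne (l : Lit n) : negLit l ≠ l := by
  intro h
  have := congrArg Prod.snd h
  simp [negLit] at this

theorem lit_or (y : Fin n → Bool) (l : Lit n) : y l.1 = l.2 ∨ y (negLit l).1 = (negLit l).2 := by
  simp only [negLit]
  cases l.2 <;> cases y l.1 <;> simp

theorem not_both (y : Fin n → Bool) (l : Lit n) (h : y l.1 = l.2)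
    (h' : y (negLit l).1 = (negLit l).2) : False := by
  simp only [negLit] at h'
  rw [h] at h'
  cases h2 : l.2 <;> simp [h2] at h'

theorem Taut.holds {D : Clause n} (h : Taut D) (y : Fin n → Bool) : Holds y D := by
  obtain ⟨l, h1, h2⟩ := h
  rcases lit_or y l with h3 | h3
  · exact ⟨l, h1, h3⟩
  · exact ⟨_, h2, h3⟩

theorem RTrue.holds {ρ : Fin n → Option Bool} {D : Clause n} (h : RTrue ρ D)
    {y : Fin n → Bool} (hy : Ext ρ y) : Holds y D := by
  obtain ⟨l, h1, h2⟩ := h
  exact ⟨l, h1, hy _ _ h2⟩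

/-- The restriction extended by the negation of a clause. -/
def negExt (ρ : Fin n → Option Bool) (D : Clause n) : Fin n → Option Bool := fun v =>
  if (ρ v).isSome then ρ v else if (v, true) ∈ D then some false else
    if (v, false) ∈ D then some true else none

theorem negExt_ext {ρ : Fin n → Option Bool} {D : Clause n} {y : Fin n → Bool}
    (h : Ext (negExt ρ D) y) : Ext ρ y := by
  intro v c hv
  refine h v c ?_
  simp [negExt, hv]

theorem negExt_not_holds {ρ : Fin n → Option Bool} {D : Clause n} (h1 : ¬ RTrue ρ D)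
    (h2 : ¬ Taut D) {y : Fin n → Bool} (h : Ext (negExt ρ D) y) : ¬ Holds y D := by
  rintro ⟨⟨v, c⟩, hl, hy⟩
  simp only at hy
  cases hv : ρ v with
  | some d =>
    have h3 := negExt_ext h v d hv
    refine h1 ⟨(v, c), hl, ?_⟩
    simp only
    rw [hv, ← h3, hy]
  | none =>
    cases c with
    | true =>
      have h3 := h v false (by simp [negExt, hv, hl])
      rw [hy] at h3
      exact absurd h3 (by simp)
    | false =>
      have h4 : (v, true) ∉ D := fun h5 => h2 ⟨(v, true), h5, by simpa [negLit] using hl⟩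
      have h3 := h v true (by simp [negExt, hv, hl, h4])
      rw [hy] at h3
      exact absurd h3 (by simp)

theorem ext_negExt {ρ : Fin n → Option Bool} {D : Clause n} {y : Fin n → Bool}
    (hy : Ext ρ y) (hD : ¬ Holds y D) : Ext (negExt ρ D) y := by
  intro v c hv
  unfold negExt at hv
  split_ifs at hv with h1 h2 h3
  · exact hy v c hv
  · have : y v ≠ true := fun h => hD ⟨(v, true), h2, h⟩
    simp only [Option.some.injEq] at hv
    rw [← hv]
    simpa using this
  · have : y v ≠ false := fun h => hD ⟨(v, false), h3, h⟩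
    simp only [Option.some.injEq] at hv
    rw [← hv]
    simpa using this

theorem dom_negExt (ρ : Fin n → Option Bool) (D : Clause n) :
    dom (negExt ρ D) ⊆ dom ρ ∪ D.image Prod.fst := by
  intro v hv
  rw [mem_dom] at hv
  obtain ⟨c, hc⟩ := hv
  unfold negExt at hc
  split_ifs at hc with h1 h2 h3
  · exact mem_union_left _ (mem_dom.2 ⟨c, hc⟩)
  · exact mem_union_right _ (mem_image.2 ⟨_, h2, rfl⟩)
  · exact mem_union_right _ (mem_image.2 ⟨_, h3, rfl⟩)

/-- Every extension of `ρ` satisfying the rows in `J` satisfies `D`. -/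
def Imp (H : Fin m → Fin k → Fin n) (b : Fin m → ZMod 2) (ρ : Fin n → Option Bool)
    (J : Finset (Fin m)) (D : Clause n) : Prop :=
  ∀ y, Ext ρ y → (∀ i ∈ J, rowSum (H i) y = b i) → Holds y D

/-- The invariant. -/
def Inv (H : Fin m → Fin k → Fin n) (b : Fin m → ZMod 2) (ρ : Fin n → Option Bool)
    (R : ℕ) (D : Clause n) : Prop :=
  ∃ J : Finset (Fin m), J.card ≤ R ∧ Imp H b ρ J D

/-- Rigidity of the hypergraph. -/
def Rigid (κ ε1 ε2 : ℕ) (H : Fin m → Fin k → Fin n) : Prop :=
  ∀ K : Finset (Fin n), K.card ≤ κ → ∀ g : Fin n → Option (Fin n),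
    (∀ v u, g v = some u → u ∉ K) →
    (∀ i, (∀ v, gvec g (H i) v = 0) ∨ ∃ j, (∀ v, v ∉ K → gvec g (H i) v = vec (H j) v) ∧
      3 * k < 4 * (univ.filter (fun v => v ∉ K ∧ vec (H j) v ≠ 0)).card) →
    (univ.filter (fun i => ¬ ∀ v, gvec g (H i) v = 0)).card ≤ ε2 ∨
      (univ.filter (fun v => g v ≠ some v)).card ≤ ε1

/-- All the properties used by the deterministic argument. -/
structure Params (R w κ ε1 ε2 θ : ℕ) (H : Fin m → Fin k → Fin n) (b : Fin m → ZMod 2)
    (ρ : Fin n → Option Bool) : Prop where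
  hk : 3 ≤ k
  hkw : k ≤ w
  hR : 2 ≤ R
  hwR : 32 * w ≤ k * R
  exp : ∀ J : Finset (Fin m), J.Nonempty → J.card ≤ 4 * R →
    13 * k * J.card ≤ 16 * (uniq H J \ dom ρ).card
  hκ : (dom ρ).card + 17 * w ≤ κ
  rigid : Rigid κ ε1 ε2 H
  one : ∀ T : Finset (Fin n), T.Nonempty → T.card ≤ ε1 + θ →
    ∃ i, ∃ a, H i a ∈ T ∧ ∀ a', a' ≠ a → H i a' ∉ T
  odd : ∀ B T : Finset (Fin n), B.card ≤ ε1 → θ ≤ T.card → Disjoint B T →
    ∃ i, (∀ a, H i a ∉ B) ∧ (∑ a, if H i a ∈ T then (1 : ZMod 2) else 0) = 1
  unsat : ∀ z : Fin n → Bool, ε2 < (univ.filter (fun i => rowSum (H i) z ≠ b i)).card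

/-- The lines that the restriction has made harmless. -/
def GoodCl (ρ : Fin n → Option Bool) (w : ℕ) (D : Clause n) : Prop :=
  RTrue ρ D ∨ Taut D ∨ D.card ≤ w

section

variable {R w κ ε1 ε2 θ : ℕ} {H : Fin m → Fin k → Fin n} {b : Fin m → ZMod 2}
  {ρ : Fin n → Option Bool}

theorem inv_of_holds {D : Clause n} (h : ∀ y, Ext ρ y → Holds y D) : Inv H b ρ R D :=
  ⟨∅, by simp, fun y hy _ => h y hy⟩

theorem inv_of_RTrue {D : Clause n} (h : RTrue ρ D) : Inv H b ρ R D :=
  inv_of_holds fun _ hy => h.holds hy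

theorem inv_of_Taut {D : Clause n} (h : Taut D) : Inv H b ρ R D :=
  inv_of_holds fun y _ => h.holds y

theorem holds_mono {y : Fin n → Bool} {D D' : Clause n} (h : D ⊆ D') (hD : Holds y D) :
    Holds y D' := by
  obtain ⟨l, hl, hy⟩ := hD
  exact ⟨l, h hl, hy⟩

theorem inv_mono {D D' : Clause n} (h : D ⊆ D') (hD : Inv H b ρ R D) : Inv H b ρ R D' := by
  obtain ⟨J, h1, h2⟩ := hD
  exact ⟨J, h1, fun y hy hJ => holds_mono h (h2 y hy hJ)⟩

theorem uniq_subset_dom {J : Finset (Fin m)} {π : Fin n → Option Bool}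
    (h : ∀ v, π v = none → ∑ i ∈ J, vec (H i) v = 0) : uniq H J ⊆ dom π := by
  intro v hv
  by_contra hne
  rw [notMem_dom] at hne
  have h1 := h v hne
  rw [sum_vec, mem_uniq.1 hv] at h1
  simp at h1

theorem gap (P : Params R w κ ε1 ε2 θ H b ρ) {J : Finset (Fin m)} (hJ : J.card ≤ 4 * R)
    {D : Clause n} (hD : Imp H b ρ J D) (hw : D.card ≤ 4 * w) : Inv H b ρ R D := by
  classical
  by_cases h1 : RTrue ρ D
  · exact inv_of_RTrue h1
  by_cases h2 : Taut D
  · exact inv_of_Taut h2
  obtain ⟨J', hJ', hne, hsum, hunsat⟩ := unsat_restr (fun i => vec (H i)) b J (negExt ρ D) (by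
    intro y hy hall
    simp only [sum_vec_mul] at hall
    exact negExt_not_holds h1 h2 hy (hD y (negExt_ext hy) hall))
  have h3 := uniq_subset_dom hsum
  have h4 : (uniq H J' \ dom ρ).card ≤ 4 * w := by
    have : uniq H J' \ dom ρ ⊆ D.image Prod.fst := by
      intro v hv
      rw [mem_sdiff] at hv
      rcases mem_union.1 (dom_negExt ρ D (h3 hv.1)) with h5 | h5
      · exact absurd h5 hv.2
      · exact h5
    exact (card_le_card this).trans (card_image_le.trans hw)
  have h5 := P.exp J' hne ((card_le_card hJ').trans hJ)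
  have h6 := P.hwR
  have h7 : J'.card ≤ R := by
    have hk : 0 < k := by have := P.hk; omega
    have h8 : 13 * (k * J'.card) ≤ 13 * (k * R) := by
      calc 13 * (k * J'.card) = 13 * k * J'.card := by ring
        _ ≤ 16 * (4 * w) := by omega
        _ ≤ 13 * (k * R) := by omega
    exact Nat.le_of_mul_le_mul_left (Nat.le_of_mul_le_mul_left h8 (by norm_num)) hk
  refine ⟨J', h7, fun y hy hall => ?_⟩
  by_contra hno
  refine hunsat y (ext_negExt hy hno) ?_
  simpa only [sum_vec_mul] using hall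

theorem inv_res (P : Params R w κ ε1 ε2 θ H b ρ) {D D1 D2 : Clause n} (h1 : Inv H b ρ R D1)
    (h2 : Inv H b ρ R D2) (hw : D.card ≤ 4 * w)
    (h : ∀ y, Ext ρ y → Holds y D1 → Holds y D2 → Holds y D) : Inv H b ρ R D := by
  classical
  obtain ⟨J1, hc1, hi1⟩ := h1
  obtain ⟨J2, hc2, hi2⟩ := h2
  refine gap P (J := J1 ∪ J2) ?_ ?_ hw
  · exact (card_union_le _ _).trans (by omega)
  · intro y hy hall
    exact h y hy (hi1 y hy fun i hi => hall i (mem_union_left _ hi))
      (hi2 y hy fun i hi => hall i (mem_union_right _ hi))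

theorem elim_lits (P : Params R w κ ε1 ε2 θ H b ρ) {A B G : Clause n} (hA : A.card ≤ 3 * w)
    (hBA : B ⊆ A) (hG : G.card ≤ w) (hGI : Inv H b ρ R G) (T : Finset (Lit n))
    (hT : ∀ g ∈ T, Inv H b ρ R (insert (negLit g) B)) :
    Inv H b ρ R (A ∪ (G \ T)) := by
  classical
  induction T using Finset.induction_on with
  | empty => exact inv_mono (by simp [subset_union_right]) hGI
  | insert g T hg ih =>
    have h1 := ih fun g' hg' => hT g' (mem_insert_of_mem hg')
    have h2 := hT g (mem_insert_self _ _)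
    refine inv_res P h1 h2 ?_ ?_
    · refine (card_union_le _ _).trans ?_
      have : (G \ insert g T).card ≤ w := (card_le_card sdiff_subset).trans hG
      omega
    · intro y hy hh1 hh2
      obtain ⟨l2, hl2, hy2⟩ := hh2
      rcases mem_insert.1 hl2 with rfl | hl2
      · obtain ⟨l1, hl1, hy1⟩ := hh1
        by_cases h3 : l1 = g
        · subst h3
          exact (not_both y l1 hy1 hy2).elim
        · refine ⟨l1, ?_, hy1⟩
          simp only [mem_union, mem_sdiff, mem_insert] at hl1 ⊢
          tauto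
      · exact ⟨l2, mem_union_left _ (hBA hl2), hy2⟩

theorem up_lemma (P : Params R w κ ε1 ε2 θ H b ρ) {Γ : Set (Clause n)}
    (hΓ : ∀ G ∈ Γ, Inv H b ρ R G ∧ GoodCl ρ w G) {B : Clause n} (hB : B.card ≤ 2 * w)
    {l : Lit n} (h : UnitProp Γ {l | negLit l ∈ B} l) : Inv H b ρ R (insert l B) := by
  classical
  have hk := P.hk
  have hkw := P.hkw
  induction h with
  | init l hl =>
    exact inv_of_Taut ⟨l, mem_insert_self _ _, mem_insert_of_mem hl⟩
  | step G l hG hlG _ ih =>
    obtain ⟨hGI, hgood⟩ := hΓ G hG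
    rcases hgood with ⟨g, hg, hρ⟩ | ⟨g, hg, hg'⟩ | hcard
    · by_cases hgl : g = l
      · subst hgl
        exact inv_of_RTrue ⟨g, mem_insert_self _ _, hρ⟩
      · obtain ⟨J, hJ, hi⟩ := ih g hg hgl
        refine ⟨J, hJ, fun y hy hall => ?_⟩
        obtain ⟨l', hl', hy'⟩ := hi y hy hall
        rcases mem_insert.1 hl' with rfl | hl'
        · exact (not_both y g (hy _ _ hρ) hy').elim
        · exact ⟨l', mem_insert_of_mem hl', hy'⟩
    · by_cases h1 : g = l
      · subst h1
        have := ih (negLit g) hg' (negLit_ne g)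
        rwa [negLit_negLit] at this
      · by_cases h2 : negLit g = l
        · have := ih g hg h1
          rwa [h2] at this
        · refine inv_res P (ih g hg h1) (ih _ hg' h2) ?_ ?_
          · refine (card_insert_le _ _).trans ?_
            omega
          · intro y hy hh1 hh2
            obtain ⟨l1, hl1, hy1⟩ := hh1
            obtain ⟨l2, hl2, hy2⟩ := hh2
            rw [negLit_negLit] at hl2
            rcases mem_insert.1 hl1 with rfl | hl1
            · rcases mem_insert.1 hl2 with rfl | hl2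
              · exact (not_both y _ hy2 hy1).elim
              · exact ⟨l2, mem_insert_of_mem hl2, hy2⟩
            · exact ⟨l1, mem_insert_of_mem hl1, hy1⟩
    · have := elim_lits P (A := insert l B) (B := B) (G := G)
        ((card_insert_le _ _).trans (by omega)) (subset_insert _ _) hcard hGI (G.erase l)
        (fun g hg => ih g (mem_of_mem_erase hg) (ne_of_mem_erase hg))
      refine inv_mono ?_ this
      intro x hx
      simp only [mem_union, mem_insert, mem_sdiff, mem_erase] at hx ⊢
      tauto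

theorem conflict_lemma (P : Params R w κ ε1 ε2 θ H b ρ) {Γ : Set (Clause n)}
    (hΓ : ∀ G ∈ Γ, Inv H b ρ R G ∧ GoodCl ρ w G) {B : Clause n} (hB : B.card ≤ 2 * w)
    (h : RUP Γ B) : Inv H b ρ R B := by
  classical
  have hk := P.hk
  have hkw := P.hkw
  rcases h with ⟨G, hG, hall⟩ | ⟨l, h1, h2⟩
  · have ih : ∀ g ∈ G, Inv H b ρ R (insert (negLit g) B) := fun g hg =>
      up_lemma P hΓ hB (hall g hg)
    obtain ⟨hGI, hgood⟩ := hΓ G hG
    rcases hgood with ⟨g, hg, hρ⟩ | ⟨g, hg, hg'⟩ | hcard
    · obtain ⟨J, hJ, hi⟩ := ih g hg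
      refine ⟨J, hJ, fun y hy hall => ?_⟩
      obtain ⟨l', hl', hy'⟩ := hi y hy hall
      rcases mem_insert.1 hl' with rfl | hl'
      · exact (not_both y g (hy _ _ hρ) hy').elim
      · exact ⟨l', hl', hy'⟩
    · refine inv_res P (ih g hg) (ih _ hg') (by omega) ?_
      intro y hy hh1 hh2
      obtain ⟨l1, hl1, hy1⟩ := hh1
      obtain ⟨l2, hl2, hy2⟩ := hh2
      rw [negLit_negLit] at hl2
      rcases mem_insert.1 hl1 with rfl | hl1
      · rcases mem_insert.1 hl2 with rfl | hl2
        · exact (not_both y _ hy2 hy1).elim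
        · exact ⟨l2, hl2, hy2⟩
      · exact ⟨l1, hl1, hy1⟩
    · have := elim_lits P (A := B) (B := B) (G := G) (by omega) (Subset.refl _) hcard hGI G ih
      refine inv_mono ?_ this
      intro x hx
      simp only [mem_union, mem_sdiff] at hx
      tauto
  · have h3 := up_lemma P hΓ hB h1
    have h4 := up_lemma P hΓ hB h2
    refine inv_res P h3 h4 (by omega) ?_
    intro y hy hh1 hh2
    obtain ⟨l1, hl1, hy1⟩ := hh1
    obtain ⟨l2, hl2, hy2⟩ := hh2
    rcases mem_insert.1 hl1 with rfl | hl1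
    · rcases mem_insert.1 hl2 with rfl | hl2
      · exact (not_both y _ hy1 hy2).elim
      · exact ⟨l2, hl2, hy2⟩
    · exact ⟨l1, hl1, hy1⟩

theorem closure_lemma (P : Params R w κ ε1 ε2 θ H b ρ) (Y : Finset (Fin n))
    (hY : 16 * Y.card ≤ k * R) :
    ∃ I : Finset (Fin m), k * I.card ≤ 16 * Y.card ∧ I.card ≤ R ∧
      ∀ J : Finset (Fin m), J.Nonempty → Disjoint I J → J.card ≤ R →
        3 * k * J.card < 4 * (uniq H J \ (dom ρ ∪ Y ∪ vars H I)).card := by
  classical
  have hk : 0 < k := by have := P.hk; omega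
  let S : Finset (Finset (Fin m)) := univ.filter (fun I => I.card ≤ 2 * R ∧
    4 * (uniq H I \ (dom ρ ∪ Y)).card ≤ 3 * k * I.card)
  have hS : S.Nonempty := by
    refine ⟨∅, ?_⟩
    simp [S, uniq, cnt]
  obtain ⟨I, hI, hmax⟩ := exists_max_image S Finset.card hS
  simp only [S, mem_filter, mem_univ, true_and] at hI hmax
  obtain ⟨hI1, hI2⟩ := hI
  have h1 : k * I.card ≤ 16 * Y.card := by
    rcases I.eq_empty_or_nonempty with rfl | hne
    · simp
    · have h2 := P.exp I hne (by omega)
      have h3 : (uniq H I \ dom ρ).card ≤ (uniq H I \ (dom ρ ∪ Y)).card + Y.card := by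
        refine (card_le_card ?_).trans (card_union_le _ _)
        intro v hv
        simp only [mem_sdiff, mem_union] at hv ⊢
        tauto
      have h4 : 13 * k * I.card = 13 * (k * I.card) := by ring
      have h5 : 3 * k * I.card = 3 * (k * I.card) := by ring
      omega
  have h2 : I.card ≤ R := by
    have : k * I.card ≤ k * R := h1.trans hY
    exact Nat.le_of_mul_le_mul_left this hk
  refine ⟨I, h1, h2, fun J hne hdisj hJ => ?_⟩
  by_contra hcon
  push Not at hcon
  have h3 : (I ∪ J).card = I.card + J.card := card_union_of_disjoint hdisj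
  have h4 := hmax (I ∪ J) (by
    refine ⟨by omega, ?_⟩
    have h5 : uniq H (I ∪ J) \ (dom ρ ∪ Y) ⊆
        (uniq H I \ (dom ρ ∪ Y)) ∪ (uniq H J \ (dom ρ ∪ Y ∪ vars H I)) := by
      intro v hv
      simp only [mem_sdiff, mem_union, mem_uniq, cnt_union hdisj] at hv ⊢
      obtain ⟨hv1, hv2⟩ := hv
      by_cases hv3 : cnt H I v = 0
      · right
        refine ⟨by omega, ?_⟩
        have : v ∉ vars H I := by simp [vars, hv3]
        tauto
      · left
        exact ⟨by omega, hv2⟩
    have h6 := (card_le_card h5).trans (card_union_le _ _)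
    rw [h3]
    have h7 : 3 * k * (I.card + J.card) = 3 * k * I.card + 3 * k * J.card := by ring
    omega)
  have h5 : 0 < J.card := hne.card_pos
  omega

theorem ext_lemma (Y : Finset (Fin n)) (I : Finset (Fin m))
    (hcl : ∀ J : Finset (Fin m), J.Nonempty → Disjoint I J → J.card ≤ R →
        3 * k * J.card < 4 * (uniq H J \ (dom ρ ∪ Y ∪ vars H I)).card)
    (y : Fin n → Bool) (J : Finset (Fin m)) (hJ : Disjoint I J) (hc : J.card ≤ R) :
    ∃ y' : Fin n → Bool, (∀ v ∈ dom ρ ∪ Y ∪ vars H I, y' v = y v) ∧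
      ∀ i ∈ J, rowSum (H i) y' = b i := by
  classical
  let π : Fin n → Option Bool := fun v => if v ∈ dom ρ ∪ Y ∪ vars H I then some (y v) else none
  by_contra hcon
  obtain ⟨J', hJ', hne, hsum, -⟩ := unsat_restr (fun i => vec (H i)) b J π (by
    intro y' hy' hall
    refine hcon ⟨y', fun v hv => hy' v (y v) (by simp only [π, if_pos hv]), ?_⟩
    simpa only [sum_vec_mul] using hall)
  have h1 := uniq_subset_dom hsum
  have h2 : uniq H J' \ (dom ρ ∪ Y ∪ vars H I) = ∅ := by
    rw [sdiff_eq_empty_iff_subset]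
    intro v hv
    have := h1 hv
    rw [mem_dom] at this
    obtain ⟨c, hc⟩ := this
    by_contra hne
    simp only [π, if_neg hne] at hc
    exact absurd hc (by simp)
  have h3 := hcl J' hne (disjoint_of_subset_right hJ' hJ) ((card_le_card hJ').trans hc)
  rw [h2] at h3
  simp at h3

end

end Pool.Agent.MP_9cec2c_lc.SubstRed
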