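import Mathlib

/-!
Numerical estimates.
-/

set_option autoImplicit false

namespace Pool.Agent.MP_9cec2c_lc.SubstRed

theorem pow_big (L : ℕ) (hL : 4000 ≤ L) : 2 ^ 220 * L ^ 2 ≤ 2 ^ (L - 1) := by
  induction L, hL using Nat.le_induction with
  | base =>
    calc 2 ^ 220 * 4000 ^ 2 ≤ 2 ^ 220 * 2 ^ 24 := Nat.mul_le_mul_left _ (by norm_num)
      _ = 2 ^ 244 := by rw [← pow_add]
      _ ≤ 2 ^ (4000 - 1) := Nat.pow_le_pow_right (by norm_num) (by norm_num)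
  | succ L hL ih =>
    have h1 : 2 ^ (L + 1 - 1) = 2 * 2 ^ (L - 1) := by
      rw [← pow_succ']
      congr 1
      omega
    rw [h1]
    have h2 : (L + 1) ^ 2 ≤ 2 * L ^ 2 := by nlinarith
    calc 2 ^ 220 * (L + 1) ^ 2 ≤ 2 ^ 220 * (2 * L ^ 2) := Nat.mul_le_mul_left _ h2
      _ = 2 * (2 ^ 220 * L ^ 2) := by ring
      _ ≤ 2 * 2 ^ (L - 1) := Nat.mul_le_mul_left _ ih

/-- The relation between `n` and `L`. -/
structure Size (n L : ℕ) : Prop where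
  lo : 2 ^ (L - 1) ≤ n
  hi : n < 2 ^ L
  big : 4000 ≤ L

variable {n L : ℕ}

theorem size_log (hn : 2 ^ 4000 ≤ n) : Size n (Nat.log 2 n + 1) := by
  have hn0 : n ≠ 0 := by
    have : 0 < n := lt_of_lt_of_le (by positivity) hn
    omega
  have h1 : 4000 ≤ Nat.log 2 n := Nat.le_log_of_pow_le (by norm_num) hn
  refine ⟨?_, ?_, by omega⟩
  · simpa using Nat.pow_log_le_self 2 hn0
  · exact Nat.lt_pow_succ_log_self (by norm_num) n

theorem Size.sq (h : Size n L) : 2 ^ 220 * L ^ 2 ≤ n := (pow_big L h.big).trans h.lo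

theorem Size.lin (h : Size n L) : 2 ^ 220 * L ≤ n := by
  refine le_trans ?_ h.sq
  have := h.big
  gcongr
  nlinarith

theorem Size.pos (h : Size n L) : 2 ^ 220 ≤ n := by
  refine le_trans ?_ h.lin
  have := h.big
  omega

theorem Size.two_pow (h : Size n L) : 2 ^ L ≤ 2 * n := by
  have h1 := h.lo
  have h2 := h.big
  have h3 : 2 ^ L = 2 * 2 ^ (L - 1) := by
    rw [← pow_succ']
    congr 1
    omega
  omega

theorem Size.half_pow (h : Size n L) : 1 / (2 * (n : ℝ)) ≤ (1 / 2) ^ L := by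
  have h1 : ((2 : ℝ) ^ L) ≤ 2 * n := by exact_mod_cast h.two_pow
  rw [one_div_pow]
  gcongr

theorem Size.n4 (h : Size n L) : ((n ^ 4 : ℕ) : ℝ) ≤ 16 ^ L := by
  have h1 : (n : ℝ) ≤ 2 ^ L := by exact_mod_cast h.hi.le
  push_cast
  calc (n : ℝ) ^ 4 ≤ (2 ^ L) ^ 4 := by gcongr
    _ = 16 ^ L := by
      rw [← pow_mul, mul_comm, pow_mul]
      norm_num

theorem exp_neg_one_le : Real.exp (-1) ≤ 1 / 2 := by
  rw [Real.exp_neg]
  rw [inv_le_comm₀ (Real.exp_pos _) (by norm_num)]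
  have := Real.add_one_le_exp (1 : ℝ)
  norm_num at this ⊢
  linarith

theorem Size.q2 (h : Size n L) : (1 - 1 / 400 : ℝ) ^ (32 * L + 1) +
    2 * ((32 * L + 1 : ℕ) : ℝ) ^ 2 / n ≤ (1 / 16) ^ 48 := by
  have h1 : (1 - 1 / 400 : ℝ) ^ 400 ≤ 1 / 2 := by
    have h2 : (1 - 1 / 400 : ℝ) ≤ Real.exp (-(1 / 400)) := by
      have := Real.add_one_le_exp (-(1 / 400) : ℝ)
      linarith
    calc (1 - 1 / 400 : ℝ) ^ 400 ≤ Real.exp (-(1 / 400)) ^ 400 := by
          gcongr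
      _ = Real.exp (-1) := by
          rw [← Real.exp_nat_mul]
          norm_num
      _ ≤ 1 / 2 := exp_neg_one_le
  have h2 : (1 - 1 / 400 : ℝ) ^ (32 * L + 1) ≤ (1 / 2) ^ 193 := by
    have hb := h.big
    calc (1 - 1 / 400 : ℝ) ^ (32 * L + 1) ≤ (1 - 1 / 400 : ℝ) ^ (400 * 193) := by
          apply pow_le_pow_of_le_one (by norm_num) (by norm_num)
          omega
      _ = ((1 - 1 / 400 : ℝ) ^ 400) ^ 193 := by rw [pow_mul]
      _ ≤ (1 / 2) ^ 193 := by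
          gcongr
  have h3 : 2 * ((32 * L + 1 : ℕ) : ℝ) ^ 2 / n ≤ (1 / 2) ^ 193 := by
    have hn : (0 : ℝ) < n := by
      have := h.pos
      have : 0 < n := by omega
      exact_mod_cast this
    rw [div_le_iff₀ hn]
    have hb := h.big
    have h4 : 2 * (32 * L + 1) ^ 2 * 2 ^ 193 ≤ n := by
      refine le_trans ?_ h.sq
      have h5 : 2 * (32 * L + 1) ^ 2 ≤ 2 ^ 27 * L ^ 2 := by nlinarith
      calc 2 * (32 * L + 1) ^ 2 * 2 ^ 193 ≤ 2 ^ 27 * L ^ 2 * 2 ^ 193 :=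
            Nat.mul_le_mul_right _ h5
        _ = 2 ^ 220 * L ^ 2 := by ring
    have h5 : (2 * ((32 * L + 1 : ℕ) : ℝ) ^ 2) * 2 ^ 193 ≤ (n : ℝ) := by exact_mod_cast h4
    have h6 : ((1 : ℝ) / 2) ^ 193 * 2 ^ 193 = 1 := by
      rw [← mul_pow]
      norm_num
    generalize (2 * ((32 * L + 1 : ℕ) : ℝ) ^ 2) = X at h5
    calc X = (1 / 2) ^ 193 * 2 ^ 193 * X := by rw [h6, one_mul]
      _ = (1 / 2) ^ 193 * (X * 2 ^ 193) := by ring
      _ ≤ (1 / 2) ^ 193 * n := by gcongr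
  have h4 : (1 / 2 : ℝ) ^ 193 + (1 / 2) ^ 193 = (1 / 16) ^ 48 := by norm_num
  linarith

theorem Size.q0 (h : Size n L) (s : ℕ) (hs : 3 * (32 * L + 1) < 4 * s) :
    ((n ^ 4 : ℕ) : ℝ) * (7 / 8) ^ s ≤ (1 / 16) ^ 48 := by
  have hb := h.big
  have h1 : (7 / 8 : ℝ) ^ s ≤ (1 / 24) ^ L := by
    calc (7 / 8 : ℝ) ^ s ≤ (7 / 8) ^ (24 * L) := by
          apply pow_le_pow_of_le_one (by norm_num) (by norm_num)
          omega
      _ = ((7 / 8) ^ 24) ^ L := by rw [pow_mul]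
      _ ≤ (1 / 24) ^ L := by
          gcongr
          norm_num
  calc ((n ^ 4 : ℕ) : ℝ) * (7 / 8) ^ s ≤ 16 ^ L * (1 / 24) ^ L := by
        have := h.n4
        gcongr
    _ = (2 / 3) ^ L := by
        rw [← mul_pow]
        norm_num
    _ ≤ (2 / 3) ^ 4000 := by
        apply pow_le_pow_of_le_one (by norm_num) (by norm_num) hb
    _ = ((2 / 3) ^ 5) ^ 800 := by rw [← pow_mul]
    _ ≤ (1 / 4) ^ 800 := by
        gcongr
        norm_num
    _ = (1 / 16) ^ 400 := by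
        rw [show (1 / 16 : ℝ) = (1 / 4) ^ 2 by norm_num, ← pow_mul]
    _ ≤ (1 / 16) ^ 48 := by
        apply pow_le_pow_of_le_one (by norm_num) (by norm_num) (by norm_num)

theorem Size.expand (h : Size n L) :
    (1 + (3 / 16 : ℝ) ^ (32 * L + 1)) ^ (n ^ 4) - 1 ≤ 1 / 8 := by
  have hb := h.big
  have h1 : (3 / 16 : ℝ) ^ (32 * L + 1) ≤ (1 / 256) ^ L := by
    calc (3 / 16 : ℝ) ^ (32 * L + 1) ≤ (3 / 16) ^ (32 * L) := by
          apply pow_le_pow_of_le_one (by norm_num) (by norm_num)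
          omega
      _ = ((3 / 16) ^ 32) ^ L := by rw [pow_mul]
      _ ≤ (1 / 256) ^ L := by
          gcongr
          norm_num
  have h2 : ((n ^ 4 : ℕ) : ℝ) * (3 / 16 : ℝ) ^ (32 * L + 1) ≤ 1 / 16 := by
    calc ((n ^ 4 : ℕ) : ℝ) * (3 / 16 : ℝ) ^ (32 * L + 1) ≤ 16 ^ L * (1 / 256) ^ L := by
          have := h.n4
          gcongr
      _ = (1 / 16) ^ L := by
          rw [← mul_pow]
          norm_num
      _ ≤ (1 / 16) ^ 1 := by
          apply pow_le_pow_of_le_one (by norm_num) (by norm_num) (by omega)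
      _ = 1 / 16 := by norm_num
  set x := ((n ^ 4 : ℕ) : ℝ) * (3 / 16 : ℝ) ^ (32 * L + 1) with hx
  have hx0 : 0 ≤ x := by positivity
  have h3 : (1 + (3 / 16 : ℝ) ^ (32 * L + 1)) ^ (n ^ 4) ≤ Real.exp x := by
    have h4 := Real.add_one_le_exp ((3 / 16 : ℝ) ^ (32 * L + 1))
    calc (1 + (3 / 16 : ℝ) ^ (32 * L + 1)) ^ (n ^ 4)
        ≤ Real.exp ((3 / 16 : ℝ) ^ (32 * L + 1)) ^ (n ^ 4) := by
          gcongr
          linarith
      _ = Real.exp x := by rw [← Real.exp_nat_mul]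
  have h4 := Real.abs_exp_sub_one_le (x := x) (by rw [abs_of_nonneg hx0]; linarith)
  rw [abs_of_nonneg hx0] at h4
  have h5 := le_abs_self (Real.exp x - 1)
  linarith

theorem Size.rows (h : Size n L) : ((n ^ 4 : ℕ) : ℝ) * (1 / 8) ^ (32 * L + 1) ≤ 1 / 4 := by
  have hb := h.big
  have h1 : (1 / 8 : ℝ) ^ (32 * L + 1) ≤ (1 / 64) ^ L := by
    calc (1 / 8 : ℝ) ^ (32 * L + 1) ≤ (1 / 8) ^ (2 * L) := by
          apply pow_le_pow_of_le_one (by norm_num) (by norm_num)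
          omega
      _ = ((1 / 8) ^ 2) ^ L := by rw [pow_mul]
      _ = (1 / 64) ^ L := by norm_num
  calc ((n ^ 4 : ℕ) : ℝ) * (1 / 8 : ℝ) ^ (32 * L + 1) ≤ 16 ^ L * (1 / 64) ^ L := by
        have := h.n4
        gcongr
    _ = (1 / 4) ^ L := by
        rw [← mul_pow]
        norm_num
    _ ≤ (1 / 4) ^ 1 := by
        apply pow_le_pow_of_le_one (by norm_num) (by norm_num) (by omega)
    _ = 1 / 4 := by norm_num

theorem two_pow_le_exp (n : ℕ) : (2 : ℝ) ^ n ≤ Real.exp n := by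
  have h1 : (2 : ℝ) ≤ Real.exp 1 := by
    have := Real.add_one_le_exp (1 : ℝ)
    linarith
  calc (2 : ℝ) ^ n ≤ Real.exp 1 ^ n := by gcongr
    _ = Real.exp n := by rw [← Real.exp_nat_mul, mul_one]

theorem exp_neg_three : Real.exp (-3) ≤ 1 / 8 := by
  have h1 : Real.exp (-3) = Real.exp (-1) ^ 3 := by
    rw [← Real.exp_nat_mul]
    norm_num
  rw [h1]
  calc Real.exp (-1) ^ 3 ≤ (1 / 2) ^ 3 := by
        gcongr
        exact exp_neg_one_le
    _ = 1 / 8 := by norm_num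

theorem Size.rigid (h : Size n L) :
    (2 : ℝ) ^ n * (n + 1) ^ n * (2 * (1 / 8) ^ (n ^ 4)) ≤ 1 / 8 := by
  have hn := h.pos
  have h1 : ((n : ℝ) + 1) ≤ 2 ^ n := by
    have : n + 1 ≤ 2 ^ n := Nat.lt_two_pow_self
    exact_mod_cast this
  have h2 : n + n * n + 4 ≤ 3 * n ^ 4 := by
    have h3 : n * n ≤ n ^ 4 := by
      rw [← pow_two]
      exact Nat.pow_le_pow_right (by omega) (by norm_num)
    nlinarith
  calc (2 : ℝ) ^ n * (n + 1) ^ n * (2 * (1 / 8) ^ (n ^ 4))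
      ≤ 2 ^ n * (2 ^ n) ^ n * (2 * (1 / 8) ^ (n ^ 4)) := by gcongr
    _ = 2 ^ (n + n * n + 4) * ((1 / 8) ^ (n ^ 4)) * (1 / 8) := by
        rw [pow_add, pow_add, pow_mul]
        ring
    _ ≤ 2 ^ (3 * n ^ 4) * ((1 / 8) ^ (n ^ 4)) * (1 / 8) := by
        gcongr
        norm_num
    _ = 1 / 8 := by
        rw [pow_mul, ← mul_pow]
        norm_num

theorem Size.base (h : Size n L) {t : ℕ} (ht : 132 * t ≤ n) :
    1 / (2 * (n : ℝ)) ≤ (1 - (t : ℝ) / n) ^ (32 * L + 1) := by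
  have hb := h.big
  have hn : (0 : ℝ) < n := by
    have := h.pos
    have : 0 < n := by omega
    exact_mod_cast this
  have h1 : (t : ℝ) / n ≤ 1 / 132 := by
    rw [div_le_div_iff₀ hn (by norm_num)]
    have : (132 * t : ℝ) ≤ n := by exact_mod_cast ht
    linarith
  have h2 : (1 - 1 / 132 : ℝ) ^ 33 ≥ 1 / 2 := by norm_num
  calc 1 / (2 * (n : ℝ)) ≤ (1 / 2) ^ L := h.half_pow
    _ ≤ ((1 - 1 / 132 : ℝ) ^ 33) ^ L := by gcongr
    _ = (1 - 1 / 132 : ℝ) ^ (33 * L) := by rw [pow_mul]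
    _ ≤ (1 - 1 / 132 : ℝ) ^ (32 * L + 1) := by
        apply pow_le_pow_of_le_one (by norm_num) (by norm_num)
        omega
    _ ≤ (1 - (t : ℝ) / n) ^ (32 * L + 1) := by
        have : (0 : ℝ) ≤ 1 - 1 / 132 := by norm_num
        gcongr
  
theorem Size.one (h : Size n L) {t : ℕ} (ht : 132 * t ≤ n) :
    (2 : ℝ) ^ n * Real.exp (-(1 / (n : ℝ) * (1 - (t : ℝ) / n) ^ (32 * L + 1) *
      ((n ^ 4 : ℕ) : ℝ))) ≤ 1 / 8 := by
  have hp := h.pos
  have hn : (0 : ℝ) < n := by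
    have : 0 < n := by omega
    exact_mod_cast this
  have h1 := h.base ht
  have h2 : (n : ℝ) ^ 2 / 2 ≤ 1 / (n : ℝ) * (1 - (t : ℝ) / n) ^ (32 * L + 1) *
      ((n ^ 4 : ℕ) : ℝ) := by
    calc (n : ℝ) ^ 2 / 2 = 1 / n * (1 / (2 * n)) * ((n ^ 4 : ℕ) : ℝ) := by
          push_cast
          field_simp
      _ ≤ _ := by gcongr
  have h3 : (16 : ℝ) ≤ n := by
    have : 16 ≤ n := le_trans (by norm_num) hp
    exact_mod_cast this
  calc (2 : ℝ) ^ n * Real.exp (-(1 / (n : ℝ) * (1 - (t : ℝ) / n) ^ (32 * L + 1) *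
      ((n ^ 4 : ℕ) : ℝ))) ≤ Real.exp n * Real.exp (-((n : ℝ) ^ 2 / 2)) := by
        have := two_pow_le_exp n
        gcongr
    _ = Real.exp (n - (n : ℝ) ^ 2 / 2) := by
        rw [← Real.exp_add]
        congr 1
    _ ≤ Real.exp (-3) := by
        apply Real.exp_le_exp.2
        nlinarith
    _ ≤ 1 / 8 := exp_neg_three

theorem Size.odd (h : Size n L) {t : ℕ} (ht : 132 * t ≤ n) :
    (2 : ℝ) ^ n * 2 ^ n * Real.exp (-(1 / 4 * (1 - (t : ℝ) / n) ^ (32 * L + 1) *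
      ((n ^ 4 : ℕ) : ℝ))) ≤ 1 / 8 := by
  have hp := h.pos
  have hn : (0 : ℝ) < n := by
    have : 0 < n := by omega
    exact_mod_cast this
  have h1 := h.base ht
  have h2 : (n : ℝ) ^ 3 / 8 ≤ 1 / 4 * (1 - (t : ℝ) / n) ^ (32 * L + 1) *
      ((n ^ 4 : ℕ) : ℝ) := by
    calc (n : ℝ) ^ 3 / 8 = 1 / 4 * (1 / (2 * n)) * ((n ^ 4 : ℕ) : ℝ) := by
          push_cast
          field_simp
          norm_num
      _ ≤ _ := by gcongr
  have h3 : (16 : ℝ) ≤ n := by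
    have : 16 ≤ n := le_trans (by norm_num) hp
    exact_mod_cast this
  calc (2 : ℝ) ^ n * 2 ^ n * Real.exp (-(1 / 4 * (1 - (t : ℝ) / n) ^ (32 * L + 1) *
      ((n ^ 4 : ℕ) : ℝ))) ≤ Real.exp n * Real.exp n * Real.exp (-((n : ℝ) ^ 3 / 8)) := by
        have := two_pow_le_exp n
        gcongr
    _ = Real.exp (2 * n - (n : ℝ) ^ 3 / 8) := by
        rw [← Real.exp_add, ← Real.exp_add]
        congr 1
        ring
    _ ≤ Real.exp (-3) := by
        apply Real.exp_le_exp.2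
        have h4 : (n : ℝ) ^ 3 ≥ 256 * n := by
          have h5 : (n : ℝ) ^ 2 ≥ 256 := by nlinarith
          calc (n : ℝ) ^ 3 = (n : ℝ) ^ 2 * (n : ℝ) := by ring
            _ ≥ 256 * (n : ℝ) := by gcongr
        linarith
    _ ≤ 1 / 8 := exp_neg_three

theorem Size.theta (h : Size n L) :
    (1 - 2 * ((n / 264 : ℕ) : ℝ) / n) ^ (32 * L + 1) ≤ 1 / 2 := by
  have hb := h.big
  have hp := h.pos
  have hn : (0 : ℝ) < n := by
    have : 0 < n := by omega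
    exact_mod_cast this
  have h1 : 400 * (n / 264) ≥ n := by omega
  have h1' : (n : ℝ) ≤ 400 * ((n / 264 : ℕ) : ℝ) := by exact_mod_cast h1
  have h2 : (1 : ℝ) / 200 ≤ 2 * ((n / 264 : ℕ) : ℝ) / n := by
    rw [div_le_div_iff₀ (by norm_num) hn]
    linarith
  have h3 : 2 * ((n / 264 : ℕ) : ℝ) / n ≤ 1 := by
    rw [div_le_one hn]
    have : 2 * (n / 264) ≤ n := by omega
    exact_mod_cast this
  calc (1 - 2 * ((n / 264 : ℕ) : ℝ) / n) ^ (32 * L + 1)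
      ≤ (1 - 2 * ((n / 264 : ℕ) : ℝ) / n) ^ 200 := by
        apply pow_le_pow_of_le_one (by linarith) (by linarith)
        omega
    _ ≤ Real.exp (-(1 / 200)) ^ 200 := by
        have := Real.add_one_le_exp (-(1 / 200) : ℝ)
        have h4 : (0 : ℝ) ≤ 1 - 2 * ((n / 264 : ℕ) : ℝ) / n := by linarith
        gcongr
        linarith
    _ = Real.exp (-1) := by
        rw [← Real.exp_nat_mul]
        norm_num
    _ ≤ 1 / 2 := exp_neg_one_le

theorem Size.unsat (h : Size n L) : (2 : ℝ) ^ n * (3 / 4) ^ (n ^ 4) < 1 := by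
  have hp := h.pos
  have h1 : 3 * (n + 1) ≤ n ^ 4 := by
    have h3 : n * n ≤ n ^ 4 := by
      rw [← pow_two]
      exact Nat.pow_le_pow_right (by omega) (by norm_num)
    nlinarith
  calc (2 : ℝ) ^ n * (3 / 4) ^ (n ^ 4) ≤ 2 ^ n * (3 / 4) ^ (3 * (n + 1)) := by
        gcongr 2 ^ n * ?_
        apply pow_le_pow_of_le_one (by norm_num) (by norm_num) h1
    _ ≤ 2 ^ n * (1 / 2) ^ (n + 1) := by
        rw [pow_mul]
        gcongr
        norm_num
    _ = 1 / 2 := by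
        rw [pow_succ, ← mul_assoc, ← mul_pow]
        norm_num
    _ < 1 := by norm_num

theorem Size.lines (h : Size n L) {S : ℕ}
    (hS : (S : ℝ) < 2 ^ (1 / 2 ^ 140 * (n : ℝ))) :
    (S : ℝ) * Real.exp (-(((n / 2 ^ 72 : ℕ) : ℝ) / 2 ^ 65)) ≤ 1 / 4 := by
  have hp := h.pos
  have h1 : n ≤ 2 ^ 73 * (n / 2 ^ 72) := by omega
  have h1' : (n : ℝ) ≤ 2 ^ 73 * ((n / 2 ^ 72 : ℕ) : ℝ) := by exact_mod_cast h1
  have h2 : (2 : ℝ) ^ (1 / 2 ^ 140 * (n : ℝ)) ≤ Real.exp (1 / 2 ^ 140 * n) := by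
    rw [Real.rpow_def_of_pos (by norm_num)]
    apply Real.exp_le_exp.2
    have h3 : Real.log 2 ≤ 1 := by
      have := Real.log_le_sub_one_of_pos (x := 2) (by norm_num)
      linarith
    have h4 : (0 : ℝ) ≤ 1 / 2 ^ 140 * n := by positivity
    nlinarith
  have h3 : (2 ^ 220 : ℝ) ≤ n := by exact_mod_cast hp
  calc (S : ℝ) * Real.exp (-(((n / 2 ^ 72 : ℕ) : ℝ) / 2 ^ 65))
      ≤ Real.exp (1 / 2 ^ 140 * n) * Real.exp (-((n : ℝ) / 2 ^ 138)) := by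
        have h4 : (n : ℝ) / 2 ^ 138 ≤ ((n / 2 ^ 72 : ℕ) : ℝ) / 2 ^ 65 := by
          rw [div_le_div_iff₀ (by positivity) (by positivity)]
          calc (n : ℝ) * 2 ^ 65 ≤ 2 ^ 73 * ((n / 2 ^ 72 : ℕ) : ℝ) * 2 ^ 65 := by gcongr
            _ = ((n / 2 ^ 72 : ℕ) : ℝ) * 2 ^ 138 := by ring
        have h5 := hS.le.trans h2
        gcongr
    _ = Real.exp (-(3 / 2 ^ 140 * n)) := by
        rw [← Real.exp_add]
        congr 1
        ring
    _ ≤ Real.exp (-3) := by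
        apply Real.exp_le_exp.2
        have h4 : (3 : ℝ) ≤ 3 / 2 ^ 140 * n := by
          calc (3 : ℝ) ≤ 3 / 2 ^ 140 * 2 ^ 220 := by norm_num
            _ ≤ 3 / 2 ^ 140 * n := by gcongr
        linarith
    _ ≤ 1 / 8 := exp_neg_three
    _ ≤ 1 / 4 := by norm_num

theorem Size.kw (h : Size n L) : 32 * L + 1 ≤ n / 2 ^ 72 := by
  have h1 := h.lin
  have h2 := h.big
  have h4 : (0 : ℕ) < 2 ^ 72 := by positivity
  refine (Nat.le_div_iff_mul_le h4).2 ?_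
  refine le_trans ?_ h1
  calc (32 * L + 1) * 2 ^ 72 ≤ (33 * L) * 2 ^ 72 := Nat.mul_le_mul_right _ (by omega)
    _ ≤ 2 ^ 220 * L := by
      rw [mul_comm (33 * L), ← mul_assoc]
      exact Nat.mul_le_mul_right _ (by norm_num)

theorem Size.R2 (h : Size n L) : 2 ≤ n / (2 ^ 66 * (32 * L + 1)) := by
  have h1 := h.lin
  have h2 := h.big
  have h4 : (0 : ℕ) < 2 ^ 66 * (32 * L + 1) := by positivity
  refine (Nat.le_div_iff_mul_le h4).2 ?_
  refine le_trans ?_ h1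
  calc 2 * (2 ^ 66 * (32 * L + 1)) ≤ 2 * (2 ^ 66 * (33 * L)) := by
        gcongr
        omega
    _ = (2 * 2 ^ 66 * 33) * L := by ring
    _ ≤ 2 ^ 220 * L := Nat.mul_le_mul_right _ (by norm_num)

theorem Size.wR (h : Size n L) :
    32 * (n / 2 ^ 72) ≤ (32 * L + 1) * (n / (2 ^ 66 * (32 * L + 1))) := by
  have h1 := h.lin
  have h2 := h.big
  have hR' := Nat.lt_mul_div_succ n (show 0 < 2 ^ 66 * (32 * L + 1) by positivity)
  have hw := Nat.div_mul_le_self n (2 ^ 72)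
  have h3 : 2 ^ 67 * (32 * L + 1) ≤ n := by
    refine le_trans ?_ h1
    calc 2 ^ 67 * (32 * L + 1) ≤ 2 ^ 67 * (33 * L) := by
          gcongr
          omega
      _ = (2 ^ 67 * 33) * L := by ring
      _ ≤ 2 ^ 220 * L := Nat.mul_le_mul_right _ (by norm_num)
  generalize n / (2 ^ 66 * (32 * L + 1)) = R at hR' ⊢
  generalize n / 2 ^ 72 = w at hw ⊢
  have h4 : 2 ^ 66 * (32 * L + 1) * (R + 1) = 2 ^ 66 * ((32 * L + 1) * R) +
    2 ^ 66 * (32 * L + 1) := by ring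
  rw [h4] at hR'
  generalize (32 * L + 1) * R = X at hR' ⊢
  clear h1 h4 h
  norm_num at *
  omega

theorem Size.kappa {d : ℕ} (hd : 2000 * d ≤ n) : d + 17 * (n / 2 ^ 72) ≤ n / 1000 := by
  have hw := Nat.div_mul_le_self n (2 ^ 72)
  generalize n / 2 ^ 72 = w at hw ⊢
  rw [Nat.le_div_iff_mul_le (by norm_num)]
  have h5 : w * 4000000 ≤ n := by
    refine le_trans ?_ hw
    exact Nat.mul_le_mul_left _ (by norm_num)
  clear hw
  have h6 : 1000 * d + 17000 * w ≤ n := by omega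
  linarith

end Pool.Agent.MP_9cec2c_lc.SubstRed
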