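import Pool.Agent.Lib.MP_9cec2c_lc.SRExpand

/-!
The random restriction.
-/

set_option autoImplicit false

namespace Pool.Agent.MP_9cec2c_lc.SubstRed

open Finset

variable {n k m : ℕ}

/-- The outcome of one random choice. -/
def code (x : Fin (2 ^ 65)) : Option Bool :=
  if x = 0 then some false else if x = 1 then some true else none

theorem fin_one_ne_zero : (1 : Fin (2 ^ 65)) ≠ 0 := by
  intro h
  have := congrArg Fin.val h
  simp at this

theorem pr_code (c : Bool) : pr (fun x => code x = some c) = 1 / 2 ^ 65 := by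
  classical
  rw [pr_eq, Fintype.card_fin]
  have h : univ.filter (fun x => code x = some c) = {if c then (1 : Fin (2 ^ 65)) else 0} := by
    ext x
    rw [mem_filter, mem_singleton]
    simp only [mem_univ, true_and, code]
    cases c
    · by_cases h0 : x = 0
      · simp [h0]
      · by_cases h1 : x = 1
        · simp [h1]
        · simp [h0, h1]
    · by_cases h0 : x = 0
      · simp only [h0, if_true]
        simp [fin_one_ne_zero.symm]
      · by_cases h1 : x = 1
        · simp [h1]
        · simp [h0, h1]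
  rw [h]
  norm_num

theorem pr_code_isSome : pr (fun x => (code x).isSome) ≤ 1 / 2 ^ 64 := by
  classical
  have h : pr (fun x => (code x).isSome) ≤ pr (fun x => code x = some false ∨
      code x = some true) := by
    refine pr_mono fun x hx => ?_
    obtain ⟨c, hc⟩ := Option.isSome_iff_exists.1 hx
    cases c
    · exact Or.inl hc
    · exact Or.inr hc
  refine h.trans ((pr_or _ _).trans ?_)
  rw [pr_code, pr_code]
  norm_num

/-- The restriction given by the random choices. -/
def restr (ω : Fin n → Fin (2 ^ 65)) : Fin n → Option Bool := fun v => code (ω v)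

theorem pr_subset_dom (W : Finset (Fin n)) :
    pr (fun ω : Fin n → Fin (2 ^ 65) => W ⊆ dom (restr ω)) ≤ (1 / 2 ^ 64) ^ W.card := by
  have h := indep_fixed (ι := Fin n) (α := Fin (2 ^ 65)) W (fun x => (code x).isSome) _
    pr_code_isSome
  refine le_trans (pr_mono ?_) h
  intro ω hω i hi
  obtain ⟨c, hc⟩ := mem_dom.1 (hω hi)
  exact Option.isSome_iff_exists.2 ⟨c, hc⟩

theorem row_restr_bound (H : Fin m → Fin k → Fin n) :
    pr (fun ω : Fin n → Fin (2 ^ 65) => ∃ i, k < 16 * (vars H {i} ∩ dom (restr ω)).card) ≤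
      m * (1 / 8) ^ k := by
  classical
  refine (pr_exists_fintype _).trans ?_
  have h1 : ∀ i, pr (fun ω : Fin n → Fin (2 ^ 65) =>
      k < 16 * (vars H {i} ∩ dom (restr ω)).card) ≤ (1 / 8) ^ k := by
    intro i
    refine le_trans (pr_mono (q := fun ω : Fin n → Fin (2 ^ 65) =>
      ∃ W ∈ (vars H {i}).powerset, k < 16 * W.card ∧ W ⊆ dom (restr ω)) ?_) ?_
    · intro ω hω
      refine ⟨_, ?_, hω, inter_subset_right⟩
      rw [mem_powerset]
      exact inter_subset_left
    · refine (pr_exists _ _).trans ?_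
      have h2 : ∀ W ∈ (vars H {i}).powerset, pr (fun ω : Fin n → Fin (2 ^ 65) =>
          k < 16 * W.card ∧ W ⊆ dom (restr ω)) ≤ (1 / 16) ^ k := by
        intro W _
        by_cases hW : k < 16 * W.card
        · refine (pr_mono fun ω h => h.2).trans ((pr_subset_dom W).trans ?_)
          calc ((1 : ℝ) / 2 ^ 64) ^ W.card = (1 / 16) ^ (16 * W.card) := by
                rw [pow_mul]
                norm_num
            _ ≤ (1 / 16) ^ k := by
                apply pow_le_pow_of_le_one (by norm_num) (by norm_num)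
                omega
        · have : (fun ω : Fin n → Fin (2 ^ 65) => k < 16 * W.card ∧ W ⊆ dom (restr ω)) =
              fun _ => False := by
            funext ω
            simp [hW]
          rw [this, pr_false]
          positivity
      refine (sum_le_sum h2).trans ?_
      rw [sum_const, card_powerset, nsmul_eq_mul]
      push_cast
      have h3 : (vars H {i}).card ≤ k := by
        have := card_vars_le H {i}
        simpa using this
      calc (2 : ℝ) ^ (vars H {i}).card * (1 / 16) ^ k ≤ 2 ^ k * (1 / 16) ^ k := by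
            gcongr
            norm_num
        _ = (1 / 8) ^ k := by
            rw [← mul_pow]
            norm_num
  refine (sum_le_sum fun i _ => h1 i).trans ?_
  rw [sum_const, card_univ, Fintype.card_fin, nsmul_eq_mul]

theorem dom_bound [NeZero n] :
    pr (fun ω : Fin n → Fin (2 ^ 65) => n < 2000 * (dom (restr ω)).card) ≤ 2000 / 2 ^ 64 := by
  classical
  have hn : (0 : ℝ) < n := by exact_mod_cast NeZero.pos n
  have hΩ : (0 : ℝ) < Fintype.card (Fin n → Fin (2 ^ 65)) := by
    exact_mod_cast Fintype.card_pos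
  have h1 : ∑ ω : Fin n → Fin (2 ^ 65), ((dom (restr ω)).card : ℝ) ≤
      n * (1 / 2 ^ 64 * Fintype.card (Fin n → Fin (2 ^ 65))) := by
    have h2 : ∀ ω : Fin n → Fin (2 ^ 65), ((dom (restr ω)).card : ℝ) =
        ∑ v, if v ∈ dom (restr ω) then (1 : ℝ) else 0 := by
      intro ω
      simp
    simp only [h2]
    rw [sum_comm]
    have h3 : ∀ v : Fin n, ∑ ω : Fin n → Fin (2 ^ 65), (if v ∈ dom (restr ω) then (1 : ℝ) else 0)
        ≤ 1 / 2 ^ 64 * Fintype.card (Fin n → Fin (2 ^ 65)) := by
      intro v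
      have h4 := pr_subset_dom (n := n) {v}
      simp only [singleton_subset_iff, card_singleton, pow_one] at h4
      rw [pr_eq, div_le_iff₀ hΩ] at h4
      refine le_trans (le_of_eq ?_) h4
      rw [card_filter]
      push_cast
      rfl
    refine (sum_le_sum fun v _ => h3 v).trans ?_
    rw [sum_const, card_univ, Fintype.card_fin, nsmul_eq_mul]
  have h2 : (n : ℝ) * ((univ.filter (fun ω : Fin n → Fin (2 ^ 65) =>
      n < 2000 * (dom (restr ω)).card)).card : ℝ) ≤
      2000 * ∑ ω : Fin n → Fin (2 ^ 65), ((dom (restr ω)).card : ℝ) := by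
    rw [card_filter]
    push_cast
    rw [mul_sum, mul_sum]
    refine sum_le_sum fun ω _ => ?_
    split_ifs with h
    · rw [mul_one]
      exact_mod_cast le_of_lt h
    · rw [mul_zero]
      positivity
  rw [pr_eq, div_le_iff₀ hΩ]
  have h3 : (n : ℝ) * ((univ.filter (fun ω : Fin n → Fin (2 ^ 65) =>
      n < 2000 * (dom (restr ω)).card)).card : ℝ) ≤
      n * (2000 / 2 ^ 64 * Fintype.card (Fin n → Fin (2 ^ 65))) := by
    refine h2.trans ?_
    calc 2000 * ∑ ω : Fin n → Fin (2 ^ 65), ((dom (restr ω)).card : ℝ)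
        ≤ 2000 * (n * (1 / 2 ^ 64 * Fintype.card (Fin n → Fin (2 ^ 65)))) := by gcongr
      _ = n * (2000 / 2 ^ 64 * Fintype.card (Fin n → Fin (2 ^ 65))) := by ring
  exact le_of_mul_le_mul_left h3 hn

theorem line_bound (w : ℕ) (C : Clause n) :
    pr (fun ω : Fin n → Fin (2 ^ 65) => ¬ GoodCl (restr ω) w C) ≤
      Real.exp (-(w / 2 ^ 65)) := by
  classical
  by_cases hgood : Taut C ∨ C.card ≤ w
  · have : (fun ω : Fin n → Fin (2 ^ 65) => ¬ GoodCl (restr ω) w C) = fun _ => False := by
      funext ω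
      simp only [GoodCl, eq_iff_iff, iff_false, not_not]
      exact Or.inr hgood
    rw [this, pr_false]
    positivity
  · rw [not_or] at hgood
    obtain ⟨hT, hw⟩ := hgood
    push Not at hw
    have hinj : (C.image Prod.fst).card = C.card := by
      refine card_image_of_injOn ?_
      rintro ⟨v, c⟩ h1 ⟨v', c'⟩ h2 (h3 : v = v')
      subst h3
      by_contra hne
      refine hT ⟨(v, c), h1, ?_⟩
      have : (!c) = c' := by
        cases c <;> cases c' <;> simp_all
      simpa [negLit, this] using h2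
    have h1 := indep (ι := Fin n) (α := Fin (2 ^ 65)) (C.image Prod.fst)
      (fun v _ x => ∀ l ∈ C, l.1 = v → code x ≠ some l.2) (1 - 1 / 2 ^ 65)
      (by intro i _ j _ H E x; exact Iff.rfl) (by
      intro v hv ω
      obtain ⟨l, hl, hlv⟩ := mem_image.1 hv
      have h2 : pr (fun x => ¬ code x = some l.2) = 1 - 1 / 2 ^ 65 := by
        rw [pr_not, pr_code]
      rw [← h2]
      exact pr_mono fun x hx => hx l hl hlv)
    have h2 : pr (fun ω : Fin n → Fin (2 ^ 65) => ¬ GoodCl (restr ω) w C) ≤
        (1 - 1 / 2 ^ 65) ^ C.card := by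
      rw [hinj] at h1
      refine le_trans (pr_mono ?_) h1
      intro ω hω v _ l hl hlv heq
      refine hω (Or.inl ⟨l, hl, ?_⟩)
      rw [← hlv] at heq
      exact heq
    refine h2.trans ?_
    have h3 : (1 - 1 / 2 ^ 65 : ℝ) ≤ Real.exp (-(1 / 2 ^ 65)) := by
      have := Real.add_one_le_exp (-(1 / 2 ^ 65 : ℝ))
      linarith
    calc (1 - 1 / 2 ^ 65 : ℝ) ^ C.card ≤ (1 - 1 / 2 ^ 65 : ℝ) ^ w := by
          apply pow_le_pow_of_le_one (by norm_num) (by norm_num) (le_of_lt hw)
      _ ≤ Real.exp (-(1 / 2 ^ 65)) ^ w := by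
          gcongr
      _ = Real.exp (-(w / 2 ^ 65)) := by
          rw [← Real.exp_nat_mul]
          congr 1
          ring

theorem exists_restr [NeZero n] (H : Fin m → Fin k → Fin n) (w : ℕ) {S : ℕ}
    (L : Fin S → Clause n) (h1 : (m : ℝ) * (1 / 8) ^ k ≤ 1 / 4)
    (h2 : (S : ℝ) * Real.exp (-(w / 2 ^ 65)) ≤ 1 / 4) :
    ∃ ρ : Fin n → Option Bool, (∀ i, 16 * (vars H {i} ∩ dom ρ).card ≤ k) ∧
      2000 * (dom ρ).card ≤ n ∧ ∀ s, GoodCl ρ w (L s) := by
  classical
  have h3 : pr (fun ω : Fin n → Fin (2 ^ 65) => ∃ s, ¬ GoodCl (restr ω) w (L s)) ≤ 1 / 4 := by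
    refine (pr_exists_fintype _).trans ((sum_le_sum fun s _ => line_bound w (L s)).trans ?_)
    rw [sum_const, card_univ, Fintype.card_fin, nsmul_eq_mul]
    exact h2
  have h4 := pr_or (fun ω : Fin n → Fin (2 ^ 65) => n < 2000 * (dom (restr ω)).card)
    (fun ω : Fin n → Fin (2 ^ 65) => ∃ s, ¬ GoodCl (restr ω) w (L s))
  have h5 := pr_or (fun ω : Fin n → Fin (2 ^ 65) =>
      ∃ i, k < 16 * (vars H {i} ∩ dom (restr ω)).card)
    (fun ω : Fin n → Fin (2 ^ 65) => n < 2000 * (dom (restr ω)).card ∨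
      ∃ s, ¬ GoodCl (restr ω) w (L s))
  have h6 := row_restr_bound H
  have h7 := dom_bound (n := n)
  have h8 : (2000 : ℝ) / 2 ^ 64 ≤ 1 / 4 := by norm_num
  obtain ⟨ω, hω⟩ := exists_of_pr_lt_one (lt_of_le_of_lt h5 (by linarith))
  rw [not_or, not_or] at hω
  obtain ⟨h9, h10, h11⟩ := hω
  push Not at h9 h10 h11
  exact ⟨restr ω, h9, h10, h11⟩

theorem sum_cnt (H : Fin m → Fin k → Fin n) (J : Finset (Fin m)) :
    ∑ v, cnt H J v = k * J.card := by
  unfold cnt
  rw [sum_comm]
  have h1 : ∀ i ∈ J, ∑ v, ∑ a, (if H i a = v then 1 else 0) = k := by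
    intro i _
    rw [sum_comm]
    simp
  rw [sum_congr rfl h1]
  simp [mul_comm]

/-- Expansion survives the restriction. -/
theorem exp_of_expand {R : ℕ} {H : Fin m → Fin k → Fin n} (hE : Expand R H)
    {ρ : Fin n → Option Bool} (hρ : ∀ i, 16 * (vars H {i} ∩ dom ρ).card ≤ k)
    (J : Finset (Fin m)) (hJ : J.Nonempty) (hJR : J.card ≤ 4 * R) :
    13 * k * J.card ≤ 16 * (uniq H J \ dom ρ).card := by
  classical
  have h1 := hE J hJ hJR
  have h2 : 2 * (vars H J).card ≤ k * J.card + (uniq H J).card := by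
    rw [← sum_cnt H J]
    unfold vars uniq
    rw [card_filter, card_filter, mul_sum, ← sum_add_distrib]
    refine sum_le_sum fun v _ => ?_
    split_ifs <;> omega
  have h3 : 16 * (uniq H J ∩ dom ρ).card ≤ k * J.card := by
    have h4 : uniq H J ∩ dom ρ ⊆ J.biUnion (fun i => vars H {i} ∩ dom ρ) := by
      intro v hv
      rw [mem_inter, mem_uniq] at hv
      have h5 : v ∈ vars H J := by
        simp [vars, hv.1]
      rw [mem_vars] at h5
      obtain ⟨i, hi, a, ha⟩ := h5
      rw [mem_biUnion]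
      refine ⟨i, hi, mem_inter.2 ⟨?_, hv.2⟩⟩
      rw [mem_vars]
      exact ⟨i, mem_singleton_self _, a, ha⟩
    have h5 := (card_le_card h4).trans card_biUnion_le
    have h6 : 16 * ∑ i ∈ J, (vars H {i} ∩ dom ρ).card ≤ J.card * k := by
      rw [mul_sum, ← smul_eq_mul (a := J.card)]
      exact sum_le_card_nsmul _ _ _ fun i _ => hρ i
    rw [mul_comm k]
    omega
  have h7 := card_sdiff_add_card_inter (uniq H J) (dom ρ)
  have h8 : 13 * k * J.card = 13 * (k * J.card) := by ring
  omega

end Pool.Agent.MP_9cec2c_lc.SubstRed
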