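import Pool.Agent.Lib.MP_9cec2c_lc.SRRigid

/-!
Random rows are rigid with high probability.
-/

set_option autoImplicit false

namespace Pool.Agent.MP_9cec2c_lc.SubstRed

open Finset

variable {n k m : ℕ}

/-- The row `E` is mapped to itself off `K`. -/
def Fix (K : Finset (Fin n)) (g : Fin n → Option (Fin n)) (E : Fin k → Fin n) : Prop :=
  ∀ v, v ∉ K → gvec g E v = vec E v

/-- The row `E` is mapped to the row `E'` off `K`, and `E'` is large there. -/
def MapsTo (K : Finset (Fin n)) (g : Fin n → Option (Fin n)) (E E' : Fin k → Fin n) : Prop :=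
  (∀ v, v ∉ K → gvec g E v = vec E' v) ∧
    3 * k < 4 * (univ.filter (fun v => v ∉ K ∧ vec E' v ≠ 0)).card

/-- The bad event for one pair. -/
def BadPair (ε1 ε2 : ℕ) (K : Finset (Fin n)) (g : Fin n → Option (Fin n))
    (H : Fin m → Fin k → Fin n) : Prop :=
  (∀ i, (∀ v, gvec g (H i) v = 0) ∨ ∃ j, MapsTo K g (H i) (H j)) ∧
    ε2 < (univ.filter (fun i => ¬ ∀ v, gvec g (H i) v = 0)).card ∧
    ε1 < (univ.filter (fun v => g v ≠ some v)).card

theorem not_rigid {κ ε1 ε2 : ℕ} {H : Fin m → Fin k → Fin n} (h : ¬ Rigid κ ε1 ε2 H) :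
    ∃ p : Finset (Fin n) × (Fin n → Option (Fin n)), p.1.card ≤ κ ∧
      BadPair ε1 ε2 p.1 p.2 H := by
  unfold Rigid at h
  push Not at h
  obtain ⟨K, hK, g, -, h1, h2, h3⟩ := h
  refine ⟨(K, g), hK, ?_, ?_, h3⟩
  · intro i
    rcases h1 i with h4 | ⟨j, h4, h5⟩
    · exact Or.inl h4
    · exact Or.inr ⟨j, h4, h5⟩
  · simpa using h2

theorem fix_or_maps {ε1 ε2 : ℕ} {K : Finset (Fin n)} {g : Fin n → Option (Fin n)}
    {H : Fin m → Fin k → Fin n} (hε2 : m ≤ 8 * (ε2 + 1)) (h : BadPair ε1 ε2 K g H) :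
    (∃ I : Finset (Fin m), m ≤ 48 * I.card ∧ ∀ i ∈ I, Fix K g (H i)) ∨
      (∃ I : Finset (Fin m), m ≤ 48 * I.card ∧
        ∀ i ∈ I, ∃ j, j ∉ I ∧ MapsTo K g (H i) (H j)) := by
  classical
  obtain ⟨h1, h2, -⟩ := h
  set S := univ.filter (fun i => ¬ ∀ v, gvec g (H i) v = 0) with hS
  let S2 := S.filter (fun i => Fix K g (H i))
  let S3 := S.filter (fun i => ¬ Fix K g (H i))
  have hcard : S2.card + S3.card = S.card := card_filter_add_card_filter_not _
  by_cases h3 : m ≤ 48 * S2.card
  · left
    exact ⟨S2, h3, fun i hi => (mem_filter.1 hi).2⟩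
  · right
    have h4 : ∀ i, ∃ j, i ∈ S → MapsTo K g (H i) (H j) := by
      intro i
      by_cases hi : i ∈ S
      · rcases h1 i with h5 | ⟨j, hj⟩
        · simp only [hS, mem_filter, mem_univ, true_and] at hi
          exact absurd h5 hi
        · exact ⟨j, fun _ => hj⟩
      · exact ⟨i, fun h => absurd h hi⟩
    choose j hj using h4
    obtain ⟨I, hI1, hI2, hI3⟩ := exists_indep_set j S3 (by
      intro i hi heq
      have h5 := hj i (mem_filter.1 hi).1
      rw [heq] at h5
      exact (mem_filter.1 hi).2 h5.1)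
    refine ⟨I, by omega, fun i hi => ⟨j i, hI3 i hi, hj i (mem_filter.1 (hI1 hi)).1⟩⟩

theorem pow_card_le {x : ℝ} (hx0 : 0 ≤ x) (hx : x ≤ (1 / 16) ^ 48) {m c : ℕ}
    (h : m ≤ 48 * c) : x ^ c ≤ (1 / 16) ^ m := by
  calc x ^ c ≤ ((1 / 16) ^ 48) ^ c := by gcongr
    _ = (1 / 16) ^ (48 * c) := by rw [pow_mul]
    _ ≤ (1 / 16) ^ m := by
        apply pow_le_pow_of_le_one _ _ h <;> norm_num

theorem sum_subsets_le {m : ℕ} (p : Finset (Fin m) → ℝ)
    (h : ∀ I, p I ≤ (1 / 16) ^ m) : ∑ I, p I ≤ (1 / 8) ^ m := by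
  calc ∑ I, p I ≤ ∑ _I : Finset (Fin m), (1 / 16 : ℝ) ^ m := sum_le_sum fun I _ => h I
    _ = (1 / 8) ^ m := by
        rw [sum_const, card_univ, Fintype.card_finset, Fintype.card_fin, nsmul_eq_mul]
        push_cast
        rw [← mul_pow]
        norm_num

theorem badPair_bound [NeZero n] {κ ε1 ε2 : ℕ} (hε2 : m ≤ 8 * (ε2 + 1))
    (hε1 : n + 400 * κ ≤ 400 * (ε1 + 1)) (hk : 5 ≤ k)
    (hq2 : (1 - 1 / 400 : ℝ) ^ k + 2 * k ^ 2 / n ≤ (1 / 16) ^ 48)
    (hq0 : ∀ s : ℕ, 3 * k < 4 * s → (m : ℝ) * (7 / 8) ^ s ≤ (1 / 16) ^ 48)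
    (K : Finset (Fin n)) (hK : K.card ≤ κ) (g : Fin n → Option (Fin n)) :
    pr (fun H : Fin m → Fin k → Fin n => BadPair ε1 ε2 K g H) ≤ 2 * (1 / 8) ^ m := by
  classical
  by_cases hB : n ≤ 400 * (univ.filter (fun v => v ∉ K ∧ g v ≠ some v)).card
  · have hfix := q2_bound (k := k) K g hB
    have h2 : pr (fun H : Fin m → Fin k → Fin n =>
        ∃ I : Finset (Fin m), m ≤ 48 * I.card ∧ ∀ i ∈ I, Fix K g (H i)) ≤ (1 / 8) ^ m := by
      refine (pr_exists_fintype _).trans (sum_subsets_le _ fun I => ?_)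
      by_cases hI : m ≤ 48 * I.card
      · refine (pr_mono (q := fun H : Fin m → Fin k → Fin n => ∀ i ∈ I, Fix K g (H i))
          fun H h => h.2).trans ?_
        refine (indep_fixed I (Fix K g) _ (hfix.trans hq2)).trans ?_
        exact pow_card_le (by positivity) (le_refl _) hI
      · have : (fun H : Fin m → Fin k → Fin n => m ≤ 48 * I.card ∧
            ∀ i ∈ I, Fix K g (H i)) = fun _ => False := by
          funext H
          simp [hI]
        rw [this, pr_false]
        positivity
    have h3 : pr (fun H : Fin m → Fin k → Fin n =>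
        ∃ I : Finset (Fin m), m ≤ 48 * I.card ∧
        ∀ i ∈ I, ∃ j, j ∉ I ∧ MapsTo K g (H i) (H j)) ≤ (1 / 8) ^ m := by
      refine (pr_exists_fintype _).trans (sum_subsets_le _ fun I => ?_)
      by_cases hI : m ≤ 48 * I.card
      · refine (pr_mono (q := fun H : Fin m → Fin k → Fin n => ∀ i ∈ I,
          ∃ j, j ∉ I ∧ MapsTo K g (H i) (H j)) fun H h => h.2).trans ?_
        refine (indep (ι := Fin m) (α := Fin k → Fin n) I
          (fun _ H E => ∃ j, j ∉ I ∧ MapsTo K g E (H j)) ((1 / 16) ^ 48) ?_ ?_).trans ?_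
        · intro i _ j' hj' H E x
          constructor
          · rintro ⟨j, hj, h⟩
            refine ⟨j, hj, ?_⟩
            rwa [Function.update_of_ne (by rintro rfl; exact hj hj')] at h
          · rintro ⟨j, hj, h⟩
            refine ⟨j, hj, ?_⟩
            rwa [Function.update_of_ne (by rintro rfl; exact hj hj')]
        · intro i _ H
          have h4 : ∀ j : Fin m, pr (fun E : Fin k → Fin n => j ∉ I ∧ MapsTo K g E (H j)) ≤
              (1 / 16) ^ 48 / m := by
            intro j
            have hm : (0 : ℝ) < m := by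
              have : 0 < m := j.pos
              exact_mod_cast this
            by_cases hlarge : 3 * k < 4 * (univ.filter (fun v => v ∉ K ∧ vec (H j) v ≠ 0)).card
            · have h5 := q0_bound (k := k) g _ hlarge hk
              rw [le_div_iff₀ hm]
              have h6 := hq0 _ hlarge
              rw [mul_comm] at h6
              refine le_trans ?_ h6
              gcongr
              refine le_trans (pr_mono ?_) h5
              rintro E ⟨-, h, -⟩ u hu
              simp only [mem_filter, mem_univ, true_and] at hu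
              rw [h u hu.1]
              exact hu.2
            · have : (fun E : Fin k → Fin n => j ∉ I ∧ MapsTo K g E (H j)) =
                  fun _ => False := by
                funext E
                simp only [MapsTo, eq_iff_iff, iff_false]
                tauto
              rw [this, pr_false]
              positivity
          refine (pr_exists_fintype _).trans ((sum_le_sum fun j _ => h4 j).trans ?_)
          rw [sum_const, card_univ, Fintype.card_fin, nsmul_eq_mul]
          rcases Nat.eq_zero_or_pos m with hm | hm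
          · subst hm
            simp
          · have hm' : (m : ℝ) ≠ 0 := by positivity
            rw [mul_div_cancel₀ _ hm']
        · exact pow_card_le (by positivity) (le_refl _) hI
      · have : (fun H : Fin m → Fin k → Fin n => m ≤ 48 * I.card ∧
            ∀ i ∈ I, ∃ j, j ∉ I ∧ MapsTo K g (H i) (H j)) = fun _ => False := by
          funext H
          simp [hI]
        rw [this, pr_false]
        positivity
    refine (pr_mono fun H h => fix_or_maps hε2 h).trans ((pr_or _ _).trans ?_)
    linarith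
  · have : (fun H : Fin m → Fin k → Fin n => BadPair ε1 ε2 K g H) = fun _ => False := by
      funext H
      simp only [BadPair, eq_iff_iff, iff_false]
      rintro ⟨-, -, h⟩
      have h1 : (univ.filter (fun v => g v ≠ some v)).card ≤
          (univ.filter (fun v => v ∉ K ∧ g v ≠ some v)).card + K.card := by
        refine (card_le_card ?_).trans (card_union_le _ _)
        intro v hv
        simp only [mem_filter, mem_univ, true_and, mem_union] at hv ⊢
        tauto
      omega
    rw [this, pr_false]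
    positivity

theorem rigid_bound [NeZero n] {κ ε1 ε2 : ℕ} (hε2 : m ≤ 8 * (ε2 + 1))
    (hε1 : n + 400 * κ ≤ 400 * (ε1 + 1)) (hk : 5 ≤ k)
    (hq2 : (1 - 1 / 400 : ℝ) ^ k + 2 * k ^ 2 / n ≤ (1 / 16) ^ 48)
    (hq0 : ∀ s : ℕ, 3 * k < 4 * s → (m : ℝ) * (7 / 8) ^ s ≤ (1 / 16) ^ 48) :
    pr (fun H : Fin m → Fin k → Fin n => ¬ Rigid κ ε1 ε2 H) ≤
      2 ^ n * (n + 1) ^ n * (2 * (1 / 8) ^ m) := by
  classical
  refine (pr_mono fun H h => not_rigid h).trans ((pr_exists_fintype _).trans ?_)
  calc _ ≤ ∑ _p : Finset (Fin n) × (Fin n → Option (Fin n)), (2 * (1 / 8 : ℝ) ^ m) := by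
        refine sum_le_sum fun p _ => ?_
        by_cases hp : p.1.card ≤ κ
        · refine (pr_mono fun H h => h.2).trans ?_
          exact badPair_bound hε2 hε1 hk hq2 hq0 p.1 hp p.2
        · have : (fun H : Fin m → Fin k → Fin n => p.1.card ≤ κ ∧
              BadPair ε1 ε2 p.1 p.2 H) = fun _ => False := by
            funext H
            simp [hp]
          rw [this, pr_false]
          positivity
    _ = 2 ^ n * (n + 1) ^ n * (2 * (1 / 8) ^ m) := by
        rw [sum_const, card_univ, nsmul_eq_mul]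
        simp

end Pool.Agent.MP_9cec2c_lc.SubstRed
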