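import Pool.Agent.Lib.MP_9cec2c_lc.SRMain
import Pool.Agent.Lib.MP_9cec2c_lc.SRRigid2
import Pool.Agent.Lib.MP_9cec2c_lc.SRRestr
import Pool.Agent.Lib.MP_9cec2c_lc.SRNum

/-!
Putting the parts together.
-/

set_option autoImplicit false

namespace Pool.Agent.MP_9cec2c_lc.SubstRed

open Finset

variable {n : ℕ}

/-- The rows with all required properties exist. -/
theorem exists_good (n L : ℕ) (h : Size n L) :
    ∃ H : Fin (n ^ 4) → Fin (32 * L + 1) → Fin n, ∃ b : Fin (n ^ 4) → ZMod 2,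
      Expand (n / (2 ^ 66 * (32 * L + 1))) H ∧
      Rigid (n / 1000) (n / 264) (n ^ 4 / 8) H ∧
      (∀ T : Finset (Fin n), T.Nonempty → T.card ≤ n / 264 + n / 264 →
        ∃ i, ∃ a, H i a ∈ T ∧ ∀ a', a' ≠ a → H i a' ∉ T) ∧
      (∀ B T : Finset (Fin n), B.card ≤ n / 264 → n / 264 ≤ T.card → Disjoint B T →
        ∃ i, (∀ a, H i a ∉ B) ∧ (∑ a, if H i a ∈ T then (1 : ZMod 2) else 0) = 1) ∧
      (∀ z : Fin n → Bool, n ^ 4 / 8 <
        (univ.filter (fun i => rowSum (H i) z ≠ b i)).card) := by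
  classical
  have hp := h.pos
  have hb := h.big
  have : NeZero n := ⟨by omega⟩
  -- expansion
  have h1 : pr (fun H : Fin (n ^ 4) → Fin (32 * L + 1) → Fin n =>
      ¬ Expand (n / (2 ^ 66 * (32 * L + 1))) H) ≤ 1 / 8 := by
    refine (expand_bound ?_).trans h.expand
    have := Nat.div_mul_le_self n (2 ^ 66 * (32 * L + 1))
    calc 2 ^ 64 * ((32 * L + 1) * (4 * (n / (2 ^ 66 * (32 * L + 1)))))
        = n / (2 ^ 66 * (32 * L + 1)) * (2 ^ 66 * (32 * L + 1)) := by ring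
      _ ≤ n := this
  -- rigidity
  have h2 : pr (fun H : Fin (n ^ 4) → Fin (32 * L + 1) → Fin n =>
      ¬ Rigid (n / 1000) (n / 264) (n ^ 4 / 8) H) ≤ 1 / 8 := by
    refine (rigid_bound (by omega) (by omega) (by omega) h.q2 h.q0).trans h.rigid
  -- one coordinate
  have h3 : pr (fun H : Fin (n ^ 4) → Fin (32 * L + 1) → Fin n =>
      ∃ T : Finset (Fin n), T.Nonempty ∧ T.card ≤ n / 264 + n / 264 ∧
        ∀ i, ¬ OneIn T (H i)) ≤ 1 / 8 := by
    refine (pr_exists_fintype _).trans ?_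
    have h4 : ∀ T : Finset (Fin n), pr (fun H : Fin (n ^ 4) → Fin (32 * L + 1) → Fin n =>
        T.Nonempty ∧ T.card ≤ n / 264 + n / 264 ∧ ∀ i, ¬ OneIn T (H i)) ≤
        Real.exp (-(1 / (n : ℝ) * (1 - ((n / 264 + n / 264 : ℕ) : ℝ) / n) ^ (32 * L + 1) *
      ((n ^ 4 : ℕ) : ℝ))) := by
      intro T
      by_cases hT : T.Nonempty ∧ T.card ≤ n / 264 + n / 264
      · refine (pr_mono (q := fun H : Fin (n ^ 4) → Fin (32 * L + 1) → Fin n =>
          ∀ i, ¬ OneIn T (H i)) fun H h => h.2.2).trans ?_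
        exact all_fail _ _ (oneIn_pr (by omega) T hT.1 _ hT.2 (by omega))
      · have : (fun H : Fin (n ^ 4) → Fin (32 * L + 1) → Fin n =>
            T.Nonempty ∧ T.card ≤ n / 264 + n / 264 ∧ ∀ i, ¬ OneIn T (H i)) =
            fun _ => False := by
          funext H
          simp only [eq_iff_iff, iff_false]
          tauto
        rw [this, pr_false]
        positivity
    refine (sum_le_sum fun T _ => h4 T).trans ?_
    rw [sum_const, card_univ, Fintype.card_finset, Fintype.card_fin, nsmul_eq_mul]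
    push_cast
    have := h.one (t := n / 264 + n / 264) (by omega)
    push_cast at this
    exact this
  -- odd
  have h4 : pr (fun H : Fin (n ^ 4) → Fin (32 * L + 1) → Fin n =>
      ∃ p : Finset (Fin n) × Finset (Fin n), (p.1.card ≤ n / 264 ∧ n / 264 ≤ p.2.card ∧
        Disjoint p.1 p.2) ∧ ∀ i, ¬ OddIn p.1 p.2 (H i)) ≤ 1 / 8 := by
    refine (pr_exists_fintype _).trans ?_
    have h5 : ∀ p : Finset (Fin n) × Finset (Fin n),
        pr (fun H : Fin (n ^ 4) → Fin (32 * L + 1) → Fin n =>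
        (p.1.card ≤ n / 264 ∧ n / 264 ≤ p.2.card ∧
        Disjoint p.1 p.2) ∧ ∀ i, ¬ OddIn p.1 p.2 (H i)) ≤
        Real.exp (-(1 / 4 * (1 - ((n / 264 : ℕ) : ℝ) / n) ^ (32 * L + 1) *
      ((n ^ 4 : ℕ) : ℝ))) := by
      rintro ⟨B, T⟩
      by_cases hT : B.card ≤ n / 264 ∧ n / 264 ≤ T.card ∧ Disjoint B T
      · refine (pr_mono (q := fun H : Fin (n ^ 4) → Fin (32 * L + 1) → Fin n =>
          ∀ i, ¬ OddIn B T (H i)) fun H h => h.2).trans ?_
        refine all_fail _ _ (oddIn_pr ⟨16 * L, by ring⟩ B T hT.2.2 hT.1 (by omega) hT.2.1 ?_)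
        exact h.theta
      · have : (fun H : Fin (n ^ 4) → Fin (32 * L + 1) → Fin n =>
            (B.card ≤ n / 264 ∧ n / 264 ≤ T.card ∧
        Disjoint B T) ∧ ∀ i, ¬ OddIn B T (H i)) =
            fun _ => False := by
          funext H
          simp only [eq_iff_iff, iff_false]
          exact fun h => hT h.1
        simp only
        rw [this, pr_false]
        positivity
    refine (sum_le_sum fun p _ => h5 p).trans ?_
    rw [sum_const, card_univ, Fintype.card_prod, Fintype.card_finset, Fintype.card_fin,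
      nsmul_eq_mul]
    push_cast
    have := h.odd (t := n / 264) (by omega)
    push_cast at this
    exact this
  -- union bound
  have h5 := pr_or (fun H : Fin (n ^ 4) → Fin (32 * L + 1) → Fin n =>
      ∃ T : Finset (Fin n), T.Nonempty ∧ T.card ≤ n / 264 + n / 264 ∧
        ∀ i, ¬ OneIn T (H i))
    (fun H : Fin (n ^ 4) → Fin (32 * L + 1) → Fin n =>
      ∃ p : Finset (Fin n) × Finset (Fin n), (p.1.card ≤ n / 264 ∧ n / 264 ≤ p.2.card ∧
        Disjoint p.1 p.2) ∧ ∀ i, ¬ OddIn p.1 p.2 (H i))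
  have h6 := pr_or (fun H : Fin (n ^ 4) → Fin (32 * L + 1) → Fin n =>
      ¬ Rigid (n / 1000) (n / 264) (n ^ 4 / 8) H)
    (fun H : Fin (n ^ 4) → Fin (32 * L + 1) → Fin n => (∃ T : Finset (Fin n), T.Nonempty ∧
      T.card ≤ n / 264 + n / 264 ∧ ∀ i, ¬ OneIn T (H i)) ∨
      ∃ p : Finset (Fin n) × Finset (Fin n), (p.1.card ≤ n / 264 ∧ n / 264 ≤ p.2.card ∧
        Disjoint p.1 p.2) ∧ ∀ i, ¬ OddIn p.1 p.2 (H i))
  have h7 := pr_or (fun H : Fin (n ^ 4) → Fin (32 * L + 1) → Fin n =>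
      ¬ Expand (n / (2 ^ 66 * (32 * L + 1))) H)
    (fun H : Fin (n ^ 4) → Fin (32 * L + 1) → Fin n =>
      ¬ Rigid (n / 1000) (n / 264) (n ^ 4 / 8) H ∨ ((∃ T : Finset (Fin n), T.Nonempty ∧
      T.card ≤ n / 264 + n / 264 ∧ ∀ i, ¬ OneIn T (H i)) ∨
      ∃ p : Finset (Fin n) × Finset (Fin n), (p.1.card ≤ n / 264 ∧ n / 264 ≤ p.2.card ∧
        Disjoint p.1 p.2) ∧ ∀ i, ¬ OddIn p.1 p.2 (H i)))
  obtain ⟨H, hH⟩ := exists_of_pr_lt_one (lt_of_le_of_lt h7 (by linarith))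
  rw [not_or, not_or, not_or, not_not, not_not] at hH
  obtain ⟨g1, g2, g3, g4⟩ := hH
  obtain ⟨b, hb'⟩ := exists_of_pr_lt_one
    (lt_of_le_of_lt (unsat_bound H (ε2 := n ^ 4 / 8) (by omega)) h.unsat)
  push Not at hb'
  refine ⟨H, b, g1, g2, ?_, ?_, hb'⟩
  · intro T hT hTc
    by_contra hcon
    refine g3 ⟨T, hT, hTc, fun i hi => hcon ⟨i, hi⟩⟩
  · intro B T hB hT hBT
    by_contra hcon
    refine g4 ⟨(B, T), ⟨hB, hT, hBT⟩, fun i hi => hcon ⟨i, hi⟩⟩

theorem main_bound (n L : ℕ) (h : Size n L) :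
    ∃ F : Finset (Clause n), F.card ≤ n ^ 37 ∧ (∀ C ∈ F, C.card ≤ 32 * L + 1) ∧
      (∀ x : Fin n → Bool, ∃ C ∈ F, ¬ Holds x C) ∧
      ∀ (S : ℕ) (L : Fin S → Clause n), IsRefutation F S L →
        (2 : ℝ) ^ (1 / 2 ^ 140 * (n : ℝ)) ≤ S := by
  classical
  have hp := h.pos
  have hbig := h.big
  have hlin := h.lin
  have : NeZero n := ⟨by omega⟩
  obtain ⟨H, b, g1, g2, g3, g4, g5⟩ := exists_good n L h
  refine ⟨cnf H b, ?_, ?_, ?_, ?_⟩
  · refine (card_cnf_le H b).trans ?_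
    have h2L : 2 ^ (32 * L + 1) = 2 * (2 ^ L) ^ 32 := by
      rw [← pow_mul, ← pow_succ']
      congr 1
      ring
    calc n ^ 4 * 2 ^ (32 * L + 1) = n ^ 4 * (2 * (2 ^ L) ^ 32) := by
          rw [h2L]
      _ ≤ n ^ 4 * (2 * (2 * n) ^ 32) := by
          have := h.two_pow
          gcongr
      _ = 2 ^ 33 * n ^ 36 := by ring
      _ ≤ n * n ^ 36 := by
          gcongr
          exact le_trans (by norm_num) hp
      _ = n ^ 37 := by ring
  · intro C hC
    obtain ⟨i, s, -, rfl⟩ := mem_cnf.1 hC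
    exact card_rowClause_le _ _
  · intro x
    by_contra hcon
    push Not at hcon
    have h1 := g5 x
    have h2 : univ.filter (fun i => rowSum (H i) x ≠ b i) = ∅ := by
      rw [filter_eq_empty_iff]
      intro i _
      rw [not_not]
      exact sat_of_holds fun s hs => hcon _ (mem_cnf.2 ⟨i, s, hs, rfl⟩)
    rw [h2] at h1
    simp at h1
  · intro S Lines hL
    by_contra hcon
    push Not at hcon
    obtain ⟨ρ, h1, h2, h3⟩ := exists_restr H (n / 2 ^ 72) Lines h.rows (h.lines hcon)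
    refine det_main (R := n / (2 ^ 66 * (32 * L + 1))) (w := n / 2 ^ 72) (κ := n / 1000)
      (ε1 := n / 264) (ε2 := n ^ 4 / 8) (θ := n / 264) (ρ := ρ) ?_ hL h3
    exact ⟨by omega, h.kw, h.R2, h.wR, fun J hJ hJR => exp_of_expand g1 h1 J hJ hJR,
      Size.kappa h2, g2, g3, g4, g5⟩

end Pool.Agent.MP_9cec2c_lc.SubstRed
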