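import Pool.Agent.Lib.MP_9cec2c_lc.SRSubst

/-!
The contradiction in the substitution step, and the deterministic theorem.
-/

set_option autoImplicit false

namespace Pool.Agent.MP_9cec2c_lc.SubstRed

open Finset

variable {n k m : ℕ}

section

variable {R w κ ε1 ε2 θ : ℕ} {H : Fin m → Fin k → Fin n} {b : Fin m → ZMod 2}
  {ρ : Fin n → Option Bool}

/-- A linear equation of a single variable and its image that holds under few extra rows
already holds under the closed set. -/
theorem peel_lemma (P : Params R w κ ε1 ε2 θ H b ρ) {C : Clause n}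
    {τ : Subst n} {I : Finset (Fin m)} (S : Step R H b ρ C τ I)
    (J : Finset (Fin m)) (hJ : J.card ≤ 4 * R) (hJI : (J \ I).card ≤ 2) (v : Fin n)
    (h : ∀ y, Ext (negExt ρ C) y → (∀ i ∈ J, rowSum (H i) y = b i) → app τ y v = y v) :
    ∀ y, Ext (negExt ρ C) y → (∀ i ∈ I, rowSum (H i) y = b i) → app τ y v = y v := by
  classical
  have hk := P.hk
  have hR := P.hR
  let lam : Fin n → ZMod 2 := fun u => (if v = u then 1 else 0) +
    (if imgv τ v = some u then 1 else 0)
  have hlam : ∀ y : Fin n → Bool, ∑ u, lam u * bz (y u) + cst τ v =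
      bz (y v) + bz (app τ y v) := by
    intro y
    rw [bz_app]
    simp only [lam, add_mul, sum_add_distrib, ite_mul, one_mul, zero_mul, sum_ite_eq,
      mem_univ, if_true]
    ring
  obtain ⟨J', hJ', hsum, himp⟩ := impl_restr (fun i => vec (H i)) b J (negExt ρ C)
    lam (cst τ v)
    (by
      obtain ⟨y, hy, hall⟩ := S.cons J hJ
      exact ⟨y, hy, by simpa only [sum_vec_mul] using hall⟩)
    (by
      intro y hy hall
      simp only [sum_vec_mul] at hall
      have h1 := h y hy hall
      have h2 := hlam y
      rw [h1, z2_add_self] at h2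
      exact z2_eq_of_add _ _ h2)
  have hJ'I : J' \ I = ∅ := by
    by_contra hne
    have hne' : (J' \ I).Nonempty := nonempty_iff_ne_empty.2 hne
    have h2 : (J' \ I).card ≤ 2 :=
      (card_le_card (sdiff_subset_sdiff hJ' (Subset.refl _))).trans hJI
    have h3 := S.cl (J' \ I) hne' disjoint_sdiff (by omega)
    have h4 : uniq H (J' \ I) \ (dom ρ ∪ C.image Prod.fst ∪ vars H I) ⊆
        insert v (imgv τ v).toFinset := by
      intro u hu
      rw [mem_sdiff, mem_uniq] at hu
      have hu1 : u ∉ dom ρ ∪ C.image Prod.fst := fun h => hu.2 (mem_union_left _ h)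
      have hu2 : u ∉ vars H I := fun h => hu.2 (mem_union_right _ h)
      have hu3 : negExt ρ C u = none := by
        rw [← notMem_dom]
        exact fun h => hu1 (dom_negExt ρ C h)
      have h5 := hsum u hu3
      rw [sum_vec_off hu2, hu.1] at h5
      rw [mem_insert, Option.mem_toFinset, Option.mem_def]
      by_contra hcon
      push Not at hcon
      simp only [lam, if_neg hcon.1.symm, if_neg hcon.2] at h5
      simp at h5
    have h5 : (insert v (imgv τ v).toFinset).card ≤ 2 := by
      refine (card_insert_le _ _).trans ?_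
      have : (imgv τ v).toFinset.card ≤ 1 := by
        cases imgv τ v <;> simp
      omega
    have h6 := (card_le_card h4).trans h5
    have h7 : 0 < (J' \ I).card := hne'.card_pos
    have h8 : 3 * k * 1 ≤ 3 * k * (J' \ I).card := Nat.mul_le_mul_left _ h7
    omega
  intro y hy hall
  have h1 := himp y hy (by
    intro i hi
    rw [sum_vec_mul]
    exact hall i (sdiff_eq_empty_iff_subset.1 hJ'I hi))
  have h2 := hlam y
  rw [h1, z2_add_self] at h2
  exact (bz_inj (z2_eq_of_add _ _ h2.symm)).symm

theorem step_false (P : Params R w κ ε1 ε2 θ H b ρ) {C : Clause n} (hC : C.card ≤ w)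
    {τ : Subst n} {I : Finset (Fin m)} (S : Step R H b ρ C τ I)
    (hI : k * I.card ≤ 16 * w) : False := by
  classical
  have hk := P.hk
  have hR := P.hR
  set K := dom ρ ∪ C.image Prod.fst ∪ vars H I with hK
  have hXc : (C.image Prod.fst).card ≤ w := card_image_le.trans hC
  have hKc : K.card ≤ κ := by
    have h1 := card_vars_le H I
    have h2 := card_union_le (dom ρ ∪ C.image Prod.fst) (vars H I)
    have h3 := card_union_le (dom ρ) (C.image Prod.fst)
    have h4 := P.hκ
    rw [hK]
    omega
  choose Ji hJi1 hJi2 hJi3 hJi4 using row_lemma P hC S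
  let g : Fin n → Option (Fin n) := fun v => (imgv τ v).filter (fun u => decide (u ∉ K))
  have hg : ∀ v u, g v = some u ↔ imgv τ v = some u ∧ u ∉ K := by
    intro v u
    simp [g]
  have hgvec1 : ∀ (E : Fin k → Fin n) v, v ∉ K → gvec g E v = gvec (imgv τ) E v := by
    intro E v hv
    unfold gvec
    refine sum_congr rfl fun a _ => ?_
    simp only [hg, hv, not_false_eq_true, and_true]
  have hgvec2 : ∀ (E : Fin k → Fin n) v, v ∈ K → gvec g E v = 0 := by
    intro E v hv
    unfold gvec
    refine sum_eq_zero fun a _ => ?_
    simp only [hg, hv, not_true_eq_false, and_false, if_false]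
  -- the two alternatives for each row
  have halt : ∀ i, (Ji i ⊆ I ∧ ∀ v, gvec g (H i) v = 0) ∨
      ∃ j, (∀ v, v ∉ K → gvec g (H i) v = vec (H j) v) ∧
      3 * k < 4 * (univ.filter (fun v => v ∉ K ∧ vec (H j) v ≠ 0)).card := by
    intro i
    rcases (Ji i \ I).eq_empty_or_nonempty with h1 | h1
    · left
      refine ⟨sdiff_eq_empty_iff_subset.1 h1, fun v => ?_⟩
      by_cases hv : v ∈ K
      · exact hgvec2 _ _ hv
      · rw [hgvec1 _ _ hv, hJi2 i v hv, h1]
        simp [cnt]
    · right
      have h2 : (Ji i \ I).card = 1 := le_antisymm (hJi3 i) h1.card_pos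
      obtain ⟨j, hj⟩ := card_eq_one.1 h2
      have h3 : ∀ v, (cnt H {j} v : ZMod 2) = vec (H j) v := by
        intro v
        rw [← sum_vec, sum_singleton]
      refine ⟨j, fun v hv => ?_, ?_⟩
      · rw [hgvec1 _ _ hv, hJi2 i v hv, hj, h3]
      · have h4 := S.cl (Ji i \ I) h1 disjoint_sdiff (by omega)
        rw [h2, mul_one, hj, ← hK] at h4
        refine h4.trans_le (Nat.mul_le_mul_left _ (card_le_card ?_))
        intro v hv
        rw [mem_sdiff, mem_uniq] at hv
        rw [mem_filter]
        refine ⟨mem_univ _, hv.2, ?_⟩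
        rw [← h3, hv.1]
        simp
  rcases P.rigid K hKc g (fun v u h => ((hg v u).1 h).2)
    (fun i => (halt i).imp (fun h => h.2) id) with hA | hB
  · -- many rows collapse
    obtain ⟨y0, hy0, hrows⟩ := S.cons I (S.cI.trans (by omega))
    have h1 := P.unsat (app τ y0)
    have h2 : univ.filter (fun i => rowSum (H i) (app τ y0) ≠ b i) ⊆
        univ.filter (fun i => ¬ ∀ v, gvec g (H i) v = 0) := by
      intro i hi
      simp only [mem_filter, mem_univ, true_and] at hi ⊢
      intro h3
      refine hi ?_
      rcases halt i with h4 | ⟨j, h4, h5⟩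
      · exact hJi4 i y0 hy0 fun j hj => hrows j (h4.1 hj)
      · exfalso
        have h6 : univ.filter (fun v => v ∉ K ∧ vec (H j) v ≠ 0) = ∅ := by
          rw [filter_eq_empty_iff]
          rintro v - ⟨hv1, hv2⟩
          exact hv2 (by rw [← h4 v hv1, h3 v])
        rw [h6] at h5
        simp at h5
    have h3 := card_le_card h2
    omega
  · -- almost all variables are fixed up to sign
    set B := univ.filter (fun v => g v ≠ some v) with hBdef
    have hBn : ∀ v, v ∉ B → ∃ s, τ v = Sum.inr (v, s) ∧ v ∉ K := by
      intro v hv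
      simp only [hBdef, mem_filter, mem_univ, true_and, not_not] at hv
      rw [hg] at hv
      obtain ⟨h1, h2⟩ := hv
      unfold imgv at h1
      cases h3 : τ v with
      | inl c => rw [h3] at h1; simp at h1
      | inr p =>
        rw [h3] at h1
        simp only [Option.some.injEq] at h1
        exact ⟨p.2, by rw [← h1], h2⟩
    set T1 := univ.filter (fun v => v ∉ B ∧ τ v = Sum.inr (v, false)) with hT1
    have hT1c : T1.card < θ := by
      by_contra hcon
      push Not at hcon
      obtain ⟨i, hi1, hi2⟩ := P.odd B T1 hB hcon (by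
        rw [disjoint_left]
        intro v hv1 hv2
        simp only [hT1, mem_filter, mem_univ, true_and] at hv2
        exact hv2.1 hv1)
      obtain ⟨y, hy, hrows⟩ := S.cons (insert i (Ji i)) (by
        have := card_insert_le i (Ji i)
        have := hJi1 i
        omega)
      have h1 := hJi4 i y hy fun j hj => hrows j (mem_insert_of_mem hj)
      have h2 := hrows i (mem_insert_self _ _)
      have h3 : rowSum (H i) (app τ y) = rowSum (H i) y +
          ∑ a, if H i a ∈ T1 then (1 : ZMod 2) else 0 := by
        unfold rowSum
        rw [← sum_add_distrib]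
        refine sum_congr rfl fun a _ => ?_
        obtain ⟨s, hs, -⟩ := hBn (H i a) (hi1 a)
        have h4 : H i a ∈ T1 ↔ s = false := by
          simp only [hT1, mem_filter, mem_univ, true_and, hs]
          simp [hi1 a]
        unfold app
        rw [hs]
        simp only [sval, bz_beq, h4]
        cases s <;> simp
      rw [h1, h2, hi2] at h3
      simp at h3
    let T : Finset (Fin n) := univ.filter (fun v => ∃ y, Ext (negExt ρ C) y ∧
      (∀ i ∈ I, rowSum (H i) y = b i) ∧ app τ y v ≠ y v)
    have hTn : ∀ v, v ∉ T → ∀ y, Ext (negExt ρ C) y →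
        (∀ i ∈ I, rowSum (H i) y = b i) → app τ y v = y v := by
      intro v hv y hy hrows
      simp only [T, mem_filter, mem_univ, true_and, not_exists, not_and, not_not] at hv
      exact hv y hy hrows
    have hTc : T.card ≤ ε1 + θ := by
      have h1 : T ⊆ B ∪ T1 := by
        intro v hv
        simp only [T, mem_filter, mem_univ, true_and] at hv
        by_contra hcon
        rw [mem_union, not_or] at hcon
        obtain ⟨s, hs, -⟩ := hBn v hcon.1
        obtain ⟨y, -, -, hne⟩ := hv
        have h4 : s = true := by
          by_contra h5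
          have h6 : s = false := by simpa using h5
          refine hcon.2 ?_
          simp only [hT1, mem_filter, mem_univ, true_and]
          exact ⟨hcon.1, by rw [hs, h6]⟩
        refine hne ?_
        unfold app
        rw [hs, h4]
        simp [sval]
      refine (card_le_card h1).trans ((card_union_le _ _).trans ?_)
      omega
    have hTe : T = ∅ := by
      by_contra hne
      obtain ⟨i, a, ha, hother⟩ := P.one T (nonempty_iff_ne_empty.2 hne) hTc
      have h1 := peel_lemma P S (I ∪ insert i (Ji i)) (by
        refine (card_union_le _ _).trans ?_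
        have := card_insert_le i (Ji i)
        have := hJi1 i
        have := S.cI
        omega) (by
        have h2 : (I ∪ insert i (Ji i)) \ I ⊆ insert i (Ji i \ I) := by
          intro x hx
          simp only [mem_sdiff, mem_union, mem_insert] at hx ⊢
          tauto
        refine (card_le_card h2).trans ((card_insert_le _ _).trans ?_)
        have := hJi3 i
        omega) (H i a) (by
        intro y hy hrows
        have hI' : ∀ j ∈ I, rowSum (H j) y = b j := fun j hj => hrows j (mem_union_left _ hj)
        have h1 := hJi4 i y hy fun j hj =>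
          hrows j (mem_union_right _ (mem_insert_of_mem hj))
        have h2 := hrows i (mem_union_right _ (mem_insert_self _ _))
        have h3 : bz (app τ y (H i a)) + bz (y (H i a)) = 0 := by
          have h4 : ∑ a', (bz (app τ y (H i a')) + bz (y (H i a'))) = 0 := by
            rw [sum_add_distrib]
            change rowSum (H i) (app τ y) + rowSum (H i) y = 0
            rw [h1, h2, z2_add_self]
          rwa [sum_eq_single_of_mem a (mem_univ _)] at h4
          intro a' _ ha'
          rw [hTn _ (hother a' ha') y hy hI', z2_add_self]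
        exact bz_inj (z2_eq_of_add _ _ h3))
      simp only [T, mem_filter, mem_univ, true_and] at ha
      obtain ⟨y, hy, hrows, hne'⟩ := ha
      exact hne' (h1 y hy hrows)
    obtain ⟨J, hJ, himp⟩ := S.img C (Or.inr rfl)
    obtain ⟨y, hy, hrows⟩ := S.cons (I ∪ J) (by
      refine (card_union_le _ _).trans ?_
      have := S.cI
      omega)
    have h1 := himp y hy fun i hi => hrows i (mem_union_right _ hi)
    have h2 : app τ y = y := by
      funext v
      exact hTn v (by simp [hTe]) y hy fun i hi => hrows i (mem_union_left _ hi)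
    rw [h2] at h1
    exact negExt_not_holds S.nrt S.nta hy h1

/-- The redundancy rule keeps the invariant. -/
theorem redundant_lemma (P : Params R w κ ε1 ε2 θ H b ρ) {Γ : Set (Clause n)}
    (hΓ : ∀ G ∈ Γ, Inv H b ρ R G ∧ GoodCl ρ w G) {C : Clause n} (hC : C.card ≤ w)
    (h : Redundant {D | D ∈ cnf H b} Γ C) : Inv H b ρ R C := by
  classical
  by_contra hno
  have hnrt : ¬ RTrue ρ C := fun h => hno (inv_of_RTrue h)
  have hnta : ¬ Taut C := fun h => hno (inv_of_Taut h)
  obtain ⟨τ, hτ⟩ := h
  have hkw := P.hkw
  have hwR := P.hwR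
  obtain ⟨I, hI1, hI2, hI3⟩ := closure_lemma P (C.image Prod.fst) (by
    have : (C.image Prod.fst).card ≤ w := card_image_le.trans hC
    omega)
  have S : Step R H b ρ C τ I := by
    refine ⟨hnrt, hnta, ?_, ?_, hI2, hI3⟩
    · intro J hJ
      by_contra hcon
      refine hno (gap P (J := J) hJ ?_ (by omega))
      intro y hy hrows
      by_contra hD
      exact hcon ⟨y, ext_negExt hy hD, hrows⟩
    · intro D hD
      rcases hτ D hD with h1 | h1
      · exact ⟨∅, by simp, fun y _ _ => holds_app_of_sat h1 y⟩
      · have hDc : D.card ≤ w := by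
          rcases hD with hD | rfl
          · obtain ⟨i, s, -, rfl⟩ := mem_cnf.1 hD
            exact (card_rowClause_le _ _).trans hkw
          · exact hC
        obtain ⟨J, hJ, himp⟩ := conflict_lemma P hΓ (B := C ∪ substClause τ D) (by
          refine (card_union_le _ _).trans ?_
          have := card_substClause_le τ D
          omega) h1
        refine ⟨J, hJ, fun y hy hrows => ?_⟩
        obtain ⟨l, hl, hyl⟩ := himp y (negExt_ext hy) hrows
        rcases mem_union.1 hl with hl | hl
        · exact (negExt_not_holds hnrt hnta hy ⟨l, hl, hyl⟩).elim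
        · exact holds_app_of_holds ⟨l, hl, hyl⟩
  refine step_false P hC S ?_
  have : (C.image Prod.fst).card ≤ w := card_image_le.trans hC
  omega

/-- The deterministic theorem: no refutation all of whose lines are harmless or narrow. -/
theorem det_main (P : Params R w κ ε1 ε2 θ H b ρ) {S : ℕ} {L : Fin S → Clause n}
    (hL : IsRefutation (cnf H b) S L) (hgood : ∀ i, GoodCl ρ w (L i)) : False := by
  classical
  have hkw := P.hkw
  have hR := P.hR
  have hinit : ∀ D ∈ cnf H b, Inv H b ρ R D ∧ GoodCl ρ w D := by
    intro D hD
    obtain ⟨i, s, hs, rfl⟩ := mem_cnf.1 hD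
    refine ⟨⟨{i}, by simp; omega, fun y _ hrows => ?_⟩,
      Or.inr (Or.inr ((card_rowClause_le _ _).trans hkw))⟩
    exact holds_of_sat (hrows i (mem_singleton_self _)) hs
  have hinv : ∀ (t : ℕ) (i : Fin S), i.val = t → Inv H b ρ R (L i) := by
    intro t
    induction t using Nat.strong_induction_on with
    | _ t ih =>
      intro i hi
      have hΓ : ∀ G ∈ {D | D ∈ cnf H b ∨ ∃ j < i, D = L j},
          Inv H b ρ R G ∧ GoodCl ρ w G := by
        rintro G (hG | ⟨j, hj, rfl⟩)
        · exact hinit G hG
        · exact ⟨ih j.val (by rw [← hi]; exact hj) j rfl, hgood j⟩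
      rcases hgood i with h1 | h1 | h1
      · exact inv_of_RTrue h1
      · exact inv_of_Taut h1
      · rcases hL.2 i with h2 | h2
        · exact conflict_lemma P hΓ (by omega) h2
        · exact redundant_lemma P hΓ h1 h2
  obtain ⟨i, hi⟩ := hL.1
  obtain ⟨J, hJ, himp⟩ := hinv i.val i rfl
  rw [hi] at himp
  -- the empty clause is not implied by few rows
  obtain ⟨J', hJ', hne, hsum, -⟩ := unsat_restr (fun i => vec (H i)) b J ρ (by
    intro y hy hall
    simp only [sum_vec_mul] at hall
    obtain ⟨l, hl, -⟩ := himp y hy hall
    simp at hl)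
  have h1 := uniq_subset_dom hsum
  have h2 := P.exp J' hne ((card_le_card hJ').trans (by omega))
  rw [sdiff_eq_empty_iff_subset.2 h1] at h2
  have h3 := hne.card_pos
  have hk := P.hk
  simp only [card_empty, mul_zero] at h2
  have h4 : 0 < 13 * k * J'.card := by positivity
  omega

end

end Pool.Agent.MP_9cec2c_lc.SubstRed
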