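import Pool.Agent.Lib.MP_9cec2c_lc.SRDet
import Pool.Agent.Lib.MP_9cec2c_lc.Mg.G050

/-!
Rigidity of random rows.
-/

set_option autoImplicit false

namespace Pool.Agent.MP_9cec2c_lc.SubstRed

open Finset

variable {n k m : ℕ}

theorem sum_range_desc (k s : ℕ) :
    ∑ i ∈ range s, ((k : ℝ) - i) = s * ((2 * k - s + 1) / 2) := by
  induction s with
  | zero => simp
  | succ s ih =>
    rw [sum_range_succ, ih]
    push_cast
    ring

theorem prod_le_of_sum {ι : Type*} (I : Finset ι) (f : ι → ℝ) (c : ℝ) (hc : 0 < c)
    (hf : ∀ i ∈ I, 0 ≤ f i) (hs : ∑ i ∈ I, f i ≤ I.card * c) :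
    ∏ i ∈ I, f i ≤ c ^ I.card := by
  have h1 : ∀ i ∈ I, f i ≤ c * Real.exp (f i / c - 1) := by
    intro i _
    have := Real.add_one_le_exp (f i / c - 1)
    have h2 : f i / c ≤ Real.exp (f i / c - 1) := by linarith
    calc f i = c * (f i / c) := by field_simp
      _ ≤ c * Real.exp (f i / c - 1) := by gcongr
  calc ∏ i ∈ I, f i ≤ ∏ i ∈ I, (c * Real.exp (f i / c - 1)) := prod_le_prod hf h1
    _ = c ^ I.card * Real.exp (∑ i ∈ I, (f i / c - 1)) := by
        rw [prod_mul_distrib, prod_const, ← Real.exp_sum]
    _ ≤ c ^ I.card * 1 := by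
        gcongr
        rw [Real.exp_le_one_iff, sum_sub_distrib, ← sum_div]
        simp only [sum_const, nsmul_eq_mul, mul_one, sub_nonpos]
        rw [div_le_iff₀ hc]
        exact hs
    _ = c ^ I.card := mul_one _

theorem desc_bound (k s : ℕ) (hs : 3 * k < 4 * s) (hk : 5 ≤ k) :
    ((k.descFactorial s : ℕ) : ℝ) ≤ (7 / 8 * s) ^ s := by
  by_cases hsk : s ≤ k
  · have h0 : (0 : ℝ) < s := by
      have : 0 < s := by omega
      exact_mod_cast this
    have h1 : ((k.descFactorial s : ℕ) : ℝ) = ∏ i ∈ range s, ((k : ℝ) - i) := by
      rw [Nat.descFactorial_eq_prod_range, Nat.cast_prod]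
      refine prod_congr rfl fun i hi => ?_
      rw [Nat.cast_sub]
      have := mem_range.1 hi
      omega
    rw [h1]
    have h2 := prod_le_of_sum (range s) (fun i => ((k : ℝ) - i)) (7 / 8 * s) (by positivity)
      (fun i hi => by
        have h3 := mem_range.1 hi
        have h4 : (i : ℝ) ≤ k := by
          have : i ≤ k := by omega
          exact_mod_cast this
        linarith) (by
        rw [sum_range_desc, card_range]
        have h3 : (16 * k + 8 : ℝ) ≤ 22 * s := by
          have : 16 * k + 8 ≤ 22 * s := by omega
          exact_mod_cast this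
        have h4 : (2 * (k : ℝ) - s + 1) / 2 ≤ 7 / 8 * s := by linarith
        gcongr)
    simpa using h2
  · have : k.descFactorial s = 0 := Nat.descFactorial_eq_zero_iff_lt.2 (by omega)
    rw [this]
    simp only [Nat.cast_zero]
    positivity

/-- Few rows are mapped onto a prescribed vector of large support. -/
theorem q0_bound [NeZero n] (g : Fin n → Option (Fin n)) (W : Finset (Fin n))
    (hW : 3 * k < 4 * W.card) (hk : 5 ≤ k) :
    pr (fun E : Fin k → Fin n => ∀ u ∈ W, gvec g E u ≠ 0) ≤ (7 / 8) ^ W.card := by
  classical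
  set s := W.card with hs
  have h0 : (0 : ℝ) < s := by
    have : 0 < s := by omega
    exact_mod_cast this
  let p : Fin n → ℝ := fun u => pr (fun x : Fin n => g x = some u)
  have hp0 : ∀ u, 0 ≤ p u := fun u => pr_nonneg _
  have hn : (0 : ℝ) < n := by exact_mod_cast NeZero.pos n
  have hpsum : ∑ u ∈ W, p u ≤ 1 := by
    have h1 : ∀ u, p u = ((univ.filter (fun x => g x = some u)).card : ℝ) / n := by
      intro u
      simp only [p]
      rw [pr_eq, Fintype.card_fin]
    simp only [h1]
    rw [← sum_div, div_le_one hn]
    rw [← Nat.cast_sum, ← card_biUnion]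
    · have := card_le_univ (W.biUnion (fun u => univ.filter (fun x => g x = some u)))
      rw [Fintype.card_fin] at this
      exact_mod_cast this
    · intro a _ b _ hab
      rw [Function.onFun, disjoint_left]
      intro x hx hx'
      simp only [mem_filter, mem_univ, true_and] at hx hx'
      rw [hx] at hx'
      exact hab (Option.some.inj hx')
  have hprod : ∏ u ∈ W, p u ≤ (1 / s) ^ s := by
    refine prod_le_of_sum W p (1 / s) (by positivity) (fun u _ => hp0 u) ?_
    rw [← hs]
    rw [mul_one_div_cancel (ne_of_gt h0)]
    exact hpsum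
  -- fixed injection
  have hfix : ∀ e : W ↪ Fin k,
      pr (fun E : Fin k → Fin n => ∀ u : W, g (E (e u)) = some u.1) ≤ (1 / s) ^ s := by
    intro e
    let I : Finset (Fin k) := univ.map e
    let M : Fin k → (Fin k → Fin n) → Fin n → Prop :=
      fun a _ x => ∀ u : W, e u = a → g x = some u.1
    have h1 := indep_prod I M (fun a => pr (fun x => ∀ u : W, e u = a → g x = some u.1))
      (by intro i _ j _ H E x; exact Iff.rfl) (by intro i _ H; exact le_refl _)
    have h2 : ∏ i ∈ I, pr (fun x => ∀ u : W, e u = i → g x = some u.1) = ∏ u ∈ W, p u := by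
      simp only [I, prod_map]
      rw [← prod_coe_sort W]
      refine prod_congr rfl fun u _ => ?_
      simp only [p]
      congr 1
      funext x
      simp only [eq_iff_iff]
      constructor
      · intro h; exact h u rfl
      · intro h u' hu'
        rw [e.injective hu']
        exact h
    rw [h2] at h1
    refine le_trans (pr_mono ?_) (h1.trans hprod)
    intro E hE a _ u hu
    rw [← hu]
    exact hE u
  have hle : pr (fun E : Fin k → Fin n => ∀ u ∈ W, gvec g E u ≠ 0) ≤
      ∑ e : (W ↪ Fin k), pr (fun E : Fin k → Fin n => ∀ u : W, g (E (e u)) = some u.1) := by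
    refine le_trans (pr_mono ?_) (pr_exists_fintype _)
    intro E hE
    have h1 : ∀ u : W, ∃ a, g (E a) = some u.1 := by
      intro u
      by_contra hcon
      push Not at hcon
      refine hE u.1 u.2 ?_
      unfold gvec
      refine sum_eq_zero fun a _ => ?_
      rw [if_neg (hcon a)]
    choose e he using h1
    refine ⟨⟨e, fun u u' h => ?_⟩, he⟩
    have h2 := he u
    rw [h, he u'] at h2
    exact Subtype.ext (Option.some.inj h2).symm
  refine hle.trans ?_
  have hcard : Fintype.card (W ↪ Fin k) = k.descFactorial s := by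
    rw [Fintype.card_embedding_eq]
    simp [hs]
  calc ∑ e : (W ↪ Fin k), pr (fun E : Fin k → Fin n => ∀ u : W, g (E (e u)) = some u.1)
      ≤ ∑ _e : (W ↪ Fin k), (1 / (s : ℝ)) ^ s := sum_le_sum fun e _ => hfix e
    _ = (k.descFactorial s : ℝ) * (1 / s) ^ s := by
        rw [sum_const, card_univ, hcard, nsmul_eq_mul]
    _ ≤ (7 / 8 * s) ^ s * (1 / s) ^ s := by
        gcongr
        exact desc_bound k s hW hk
    _ = (7 / 8) ^ s := by
        rw [← mul_pow]
        congr 1
        field_simp

/-- Few rows are mapped to themselves unless the map is almost the identity. -/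
theorem q2_bound [NeZero n] (K : Finset (Fin n)) (g : Fin n → Option (Fin n))
    (hB : n ≤ 400 * (univ.filter (fun v => v ∉ K ∧ g v ≠ some v)).card) :
    pr (fun E : Fin k → Fin n => ∀ v, v ∉ K → gvec g E v = vec E v) ≤
      (1 - 1 / 400) ^ k + 2 * k ^ 2 / n := by
  classical
  have hn : (0 : ℝ) < n := by exact_mod_cast NeZero.pos n
  set B := univ.filter (fun v => v ∉ K ∧ g v ≠ some v) with hBdef
  have ha : pr (fun E : Fin k → Fin n => ∀ a, E a ∉ B) ≤ (1 - 1 / 400) ^ k := by
    have h1 := indep_fixed (ι := Fin k) (α := Fin n) univ (fun x => x ∉ B) (1 - 1 / 400) (by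
      have h2 : (univ.filter (fun x => x ∉ B)).card + B.card = n := by
        have h3 := card_compl_add_card B
        rw [Fintype.card_fin] at h3
        convert h3 using 2
        congr 1
        ext x
        simp
      rw [pr_eq, Fintype.card_fin, div_le_iff₀ hn]
      have h3 : ((univ.filter (fun x => x ∉ B)).card : ℝ) + B.card = n := by exact_mod_cast h2
      have h4 : (n : ℝ) ≤ 400 * B.card := by exact_mod_cast hB
      linarith)
    simpa using h1
  have hpair : ∀ a a' : Fin k, pr (fun E : Fin k → Fin n => a ≠ a' ∧
      (E a = E a' ∨ g (E a') = some (E a))) ≤ 2 / n := by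
    intro a a'
    by_cases haa : a = a'
    · have : (fun E : Fin k → Fin n => a ≠ a' ∧ (E a = E a' ∨ g (E a') = some (E a))) =
        fun _ => False := by
        funext E
        simp [haa]
      rw [this, pr_false]
      positivity
    · have h1 := resample (ι := Fin k) (α := Fin n) (fun _ => True) a
        (fun E x => x = E a' ∨ g (E a') = some x) (2 / n) (by simp) (by
          intro H E x h
          rwa [Function.update_of_ne (Ne.symm haa)] at h) (by
          intro H _
          refine (pr_or _ _).trans ?_
          have h2 : pr (fun x => x = H a') ≤ 1 / n := by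
            rw [pr_eq, Fintype.card_fin]
            gcongr
            rw [filter_eq' univ (H a')]
            simp
          have h3 : pr (fun x => g (H a') = some x) ≤ 1 / n := by
            rw [pr_eq, Fintype.card_fin]
            gcongr
            have : (univ.filter (fun x => g (H a') = some x)).card ≤ 1 := by
              rw [card_le_one]
              intro x hx y hy
              simp only [mem_filter, mem_univ, true_and] at hx hy
              rw [hx] at hy
              exact Option.some.inj hy
            exact_mod_cast this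
          calc _ ≤ 1 / (n : ℝ) + 1 / n := add_le_add h2 h3
            _ = 2 / n := by ring)
      refine (pr_mono ?_).trans (h1.trans ?_)
      · rintro E ⟨-, h⟩
        exact ⟨trivial, h⟩
      · have := pr_le_one (fun _ : Fin k → Fin n => True)
        have h2 : (0 : ℝ) ≤ 2 / n := by positivity
        nlinarith
  have hb : pr (fun E : Fin k → Fin n => ∃ a a', a ≠ a' ∧
      (E a = E a' ∨ g (E a') = some (E a))) ≤ 2 * k ^ 2 / n := by
    refine (pr_exists_fintype _).trans ?_
    refine (sum_le_sum fun a _ => pr_exists_fintype _).trans ?_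
    refine (sum_le_sum fun a _ => sum_le_sum fun a' _ => hpair a a').trans ?_
    simp only [sum_const, card_univ, Fintype.card_fin, nsmul_eq_mul]
    apply le_of_eq
    ring
  refine le_trans (pr_mono ?_) ((pr_or _ _).trans (add_le_add ha hb))
  intro E hE
  by_contra hcon
  push Not at hcon
  obtain ⟨⟨a, ha'⟩, hdist⟩ := hcon
  simp only [hBdef, mem_filter, mem_univ, true_and] at ha'
  have h1 : vec E (E a) = 1 := by
    unfold vec
    rw [sum_eq_single_of_mem a (mem_univ _)]
    · simp
    · intro a' _ haa
      rw [if_neg]
      exact fun h => (hdist a a' (Ne.symm haa)).1 h.symm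
  have h2 := hE (E a) ha'.1
  rw [h1] at h2
  have h3 : ∃ a', g (E a') = some (E a) := by
    by_contra hno
    push Not at hno
    have : gvec g E (E a) = 0 := by
      unfold gvec
      refine sum_eq_zero fun a' _ => ?_
      rw [if_neg (hno a')]
    rw [this] at h2
    exact zero_ne_one h2
  obtain ⟨a', ha''⟩ := h3
  have haa : a ≠ a' := by
    rintro rfl
    exact ha'.2 ha''
  exact (hdist a a' haa).2 ha''

end Pool.Agent.MP_9cec2c_lc.SubstRed
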