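import Pool.Agent.Lib.MP_9cec2c_lc.SRDet

/-!
The substitution step of the deterministic part.
-/

set_option autoImplicit false

namespace Pool.Agent.MP_9cec2c_lc.SubstRed

open Finset

variable {n k m : ℕ}

/-- Value of the image of a variable. -/
def sval (y : Fin n → Bool) (x : Bool ⊕ Lit n) : Bool :=
  match x with
  | Sum.inl c => c
  | Sum.inr p => y p.1 == p.2

/-- The assignment obtained by applying the substitution. -/
def app (τ : Subst n) (y : Fin n → Bool) : Fin n → Bool := fun v => sval y (τ v)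

/-- Image variable. -/
def imgv (τ : Subst n) (v : Fin n) : Option (Fin n) :=
  match τ v with
  | Sum.inl _ => none
  | Sum.inr p => some p.1

/-- Constant term. -/
def cst (τ : Subst n) (v : Fin n) : ZMod 2 :=
  match τ v with
  | Sum.inl c => bz c
  | Sum.inr p => bz (!p.2)

theorem bz_app (τ : Subst n) (y : Fin n → Bool) (v : Fin n) :
    bz (app τ y v) = (∑ u, (if imgv τ v = some u then 1 else 0) * bz (y u)) + cst τ v := by
  unfold app imgv cst
  cases h : τ v with
  | inl c => simp [sval]
  | inr p =>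
    simp only [sval, bz_beq]
    simp

theorem app_congr {τ : Subst n} {y y' : Fin n → Bool} {v : Fin n}
    (h : ∀ u, imgv τ v = some u → y u = y' u) : app τ y v = app τ y' v := by
  unfold app
  unfold imgv at h
  cases h' : τ v with
  | inl c => simp [sval]
  | inr p =>
    simp only [sval]
    rw [h' ] at h
    rw [h p.1 rfl]

theorem substLit_inl {τ : Subst n} {l : Lit n} {c : Bool} (h : substLit τ l = Sum.inl c)
    (y : Fin n → Bool) : app τ y l.1 = l.2 ↔ c = true := by
  unfold substLit at h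
  unfold app
  cases h' : τ l.1 with
  | inl d =>
    rw [h'] at h
    simp only [Sum.inl.injEq] at h
    simp only [sval]
    rw [← h]
    simp
  | inr p => rw [h'] at h; simp at h

theorem substLit_inr {τ : Subst n} {l p : Lit n} (h : substLit τ l = Sum.inr p)
    (y : Fin n → Bool) : app τ y l.1 = l.2 ↔ y p.1 = p.2 := by
  unfold substLit at h
  unfold app
  cases h' : τ l.1 with
  | inl d => rw [h'] at h; simp at h
  | inr q =>
    rw [h'] at h
    simp only [Sum.inr.injEq] at h
    simp only [sval]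
    obtain ⟨v, c⟩ := l
    obtain ⟨u, d⟩ := q
    subst h
    cases c <;> cases d <;> cases h3 : y u <;> simp [negLit, h3]

theorem holds_app_of_sat {τ : Subst n} {D : Clause n} (h : SubstSat τ D) (y : Fin n → Bool) :
    Holds (app τ y) D := by
  rcases h with ⟨l, hl, h1⟩ | ⟨p, hp, hp'⟩
  · exact ⟨l, hl, (substLit_inl h1 y).2 rfl⟩
  · simp only [substClause, mem_filter, mem_univ, true_and] at hp hp'
    obtain ⟨l, hl, h1⟩ := hp
    obtain ⟨l', hl', h1'⟩ := hp'
    rcases lit_or y p with h2 | h2
    · exact ⟨l, hl, (substLit_inr h1 y).2 h2⟩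
    · exact ⟨l', hl', (substLit_inr h1' y).2 h2⟩

theorem holds_app_of_holds {τ : Subst n} {D : Clause n} {y : Fin n → Bool}
    (h : Holds y (substClause τ D)) : Holds (app τ y) D := by
  obtain ⟨p, hp, hy⟩ := h
  simp only [substClause, mem_filter, mem_univ, true_and] at hp
  obtain ⟨l, hl, h1⟩ := hp
  exact ⟨l, hl, (substLit_inr h1 y).2 hy⟩

theorem card_substClause_le (τ : Subst n) (D : Clause n) :
    (substClause τ D).card ≤ D.card := by
  classical
  let f : Lit n → Lit n := fun l => match substLit τ l with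
    | Sum.inl _ => l
    | Sum.inr p => p
  have : substClause τ D ⊆ D.image f := by
    intro p hp
    simp only [substClause, mem_filter, mem_univ, true_and] at hp
    obtain ⟨l, hl, h1⟩ := hp
    refine mem_image.2 ⟨l, hl, ?_⟩
    simp only [f, h1]
  exact (card_le_card this).trans card_image_le

theorem rowSum_app (τ : Subst n) (E : Fin k → Fin n) (y : Fin n → Bool) :
    rowSum E (app τ y) = (∑ v, gvec (imgv τ) E v * bz (y v)) + ∑ a, cst τ (E a) := by
  simp only [rowSum, bz_app, sum_add_distrib]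
  congr 1
  rw [sum_comm]
  refine sum_congr rfl fun v _ => ?_
  simp only [gvec, sum_mul]

section

variable {R w κ ε1 ε2 θ : ℕ} {H : Fin m → Fin k → Fin n} {b : Fin m → ZMod 2}
  {ρ : Fin n → Option Bool}

theorem cnt_zero_of_notMem {I J : Finset (Fin m)} (hJ : J ⊆ I) {v : Fin n}
    (hv : v ∉ vars H I) : cnt H J v = 0 := by
  by_contra hne
  have : v ∈ vars H J := by simp [vars, hne]
  rw [mem_vars] at this
  obtain ⟨i, hi, a, ha⟩ := this
  exact hv (mem_vars.2 ⟨i, hJ hi, a, ha⟩)

/-- Off the closed set, only the rows outside matter. -/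
theorem sum_vec_off {I J : Finset (Fin m)} {v : Fin n} (hv : v ∉ vars H I) :
    ∑ j ∈ J, vec (H j) v = (cnt H (J \ I) v : ZMod 2) := by
  classical
  have h1 : J = (J \ I) ∪ (J ∩ I) := by rw [sdiff_union_inter]
  have h2 : Disjoint (J \ I) (J ∩ I) := disjoint_sdiff_inter _ _
  conv_lhs => rw [h1]
  rw [sum_union h2, sum_vec, sum_vec, cnt_zero_of_notMem inter_subset_right hv]
  simp

/-- The data fixed in the substitution step. -/
structure Step (R : ℕ) (H : Fin m → Fin k → Fin n) (b : Fin m → ZMod 2)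
    (ρ : Fin n → Option Bool) (C : Clause n) (τ : Subst n) (I : Finset (Fin m)) : Prop where
  nrt : ¬ RTrue ρ C
  nta : ¬ Taut C
  cons : ∀ J : Finset (Fin m), J.card ≤ 4 * R → ∃ y, Ext (negExt ρ C) y ∧
    ∀ i ∈ J, rowSum (H i) y = b i
  img : ∀ D, (D ∈ cnf H b ∨ D = C) → ∃ J : Finset (Fin m), J.card ≤ R ∧
    ∀ y, Ext (negExt ρ C) y → (∀ i ∈ J, rowSum (H i) y = b i) → Holds (app τ y) D
  cI : I.card ≤ R
  cl : ∀ J : Finset (Fin m), J.Nonempty → Disjoint I J → J.card ≤ R →
        3 * k * J.card < 4 * (uniq H J \ (dom ρ ∪ C.image Prod.fst ∪ vars H I)).card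

theorem row_lemma (P : Params R w κ ε1 ε2 θ H b ρ) {C : Clause n} (hC : C.card ≤ w)
    {τ : Subst n} {I : Finset (Fin m)} (S : Step R H b ρ C τ I) (i : Fin m) :
    ∃ Ji : Finset (Fin m), Ji.card ≤ R ∧
      (∀ v, v ∉ dom ρ ∪ C.image Prod.fst ∪ vars H I →
        gvec (imgv τ) (H i) v = (cnt H (Ji \ I) v : ZMod 2)) ∧
      (Ji \ I).card ≤ 1 ∧
      (∀ y, Ext (negExt ρ C) y → (∀ j ∈ Ji, rowSum (H j) y = b j) →
        rowSum (H i) (app τ y) = b i) := by
  classical
  set X := C.image Prod.fst with hX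
  have hXc : X.card ≤ w := card_image_le.trans hC
  let Q : Finset (Fin n) := (univ.image (fun a => imgv τ (H i a))).eraseNone
  have hQc : Q.card ≤ k := by
    refine (card_eraseNone_le _).trans (card_image_le.trans (by simp))
  have hQ : ∀ a u, imgv τ (H i a) = some u → u ∈ Q := by
    intro a u h
    simp only [Q, mem_eraseNone, mem_image, mem_univ, true_and]
    exact ⟨a, h⟩
  have hkw := P.hkw
  have hwR := P.hwR
  have hk := P.hk
  obtain ⟨I', -, hI'R, hI'⟩ := closure_lemma P (X ∪ Q) (by
    have := card_union_le X Q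
    omega)
  have h1 : ∀ D, D ∈ cnf H b → (∃ s, rowClause (H i) s = D) →
      ∀ y, Ext (negExt ρ C) y → (∀ j ∈ I', rowSum (H j) y = b j) → Holds (app τ y) D := by
    rintro D hD ⟨s, hs⟩ y hy hrows
    obtain ⟨J, hJc, hJ⟩ := S.img D (Or.inl hD)
    obtain ⟨y', hy'1, hy'2⟩ := ext_lemma (b := b) (X ∪ Q) I' hI' y (J \ I') disjoint_sdiff
      ((card_le_card sdiff_subset).trans hJc)
    have h2 : Ext (negExt ρ C) y' := by
      intro v c hv
      have h3 : v ∈ dom ρ ∪ X := dom_negExt ρ C (mem_dom.2 ⟨c, hv⟩)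
      rw [hy'1 v (by
        simp only [mem_union] at h3 ⊢
        tauto)]
      exact hy v c hv
    have h4 : ∀ j ∈ J, rowSum (H j) y' = b j := by
      intro j hj
      by_cases hjI : j ∈ I'
      · rw [← hrows j hjI]
        refine rowSum_congr fun a => ?_
        refine hy'1 _ (mem_union_right _ (mem_vars.2 ⟨j, hjI, a, rfl⟩))
      · exact hy'2 j (mem_sdiff.2 ⟨hj, hjI⟩)
    have h5 := hJ y' h2 h4
    rw [← hs, holds_rowClause] at h5 ⊢
    obtain ⟨a, ha⟩ := h5
    refine ⟨a, ?_⟩
    rwa [app_congr (y := y) (y' := y') fun u hu => ?_]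
    refine (hy'1 u ?_).symm
    have := hQ a u hu
    simp only [mem_union]
    tauto
  have h2 : ∀ y, Ext (negExt ρ C) y → (∀ j ∈ I', rowSum (H j) y = b j) →
      rowSum (H i) (app τ y) = b i := by
    intro y hy hrows
    refine sat_of_holds fun s hs => ?_
    exact h1 _ (mem_cnf.2 ⟨i, s, hs, rfl⟩) ⟨s, rfl⟩ y hy hrows
  obtain ⟨Ji, hJi, hsum, himp⟩ := impl_restr (fun i => vec (H i)) b I' (negExt ρ C)
    (gvec (imgv τ) (H i)) (b i + ∑ a, cst τ (H i a))
    (by
      obtain ⟨y, hy, hall⟩ := S.cons I' (by omega)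
      refine ⟨y, hy, ?_⟩
      simpa only [sum_vec_mul] using hall)
    (by
      intro y hy hall
      simp only [sum_vec_mul] at hall
      have h3 := h2 y hy hall
      rw [rowSum_app] at h3
      rw [← h3, add_assoc, z2_add_self, add_zero])
  have hoff : ∀ v, v ∉ dom ρ ∪ X ∪ vars H I →
        gvec (imgv τ) (H i) v = (cnt H (Ji \ I) v : ZMod 2) := by
    intro v hv
    have hv1 : v ∉ dom ρ ∪ X := fun h => hv (mem_union_left _ h)
    have hv2 : v ∉ vars H I := fun h => hv (mem_union_right _ h)
    have hv3 : negExt ρ C v = none := by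
      rw [← notMem_dom]
      exact fun h => hv1 (dom_negExt ρ C h)
    rw [← hsum v hv3, sum_vec_off hv2]
  refine ⟨Ji, (card_le_card hJi).trans hI'R, hoff, ?_, ?_⟩
  · rcases (Ji \ I).eq_empty_or_nonempty with h3 | h3
    · simp [h3]
    · have h4 := S.cl (Ji \ I) h3 disjoint_sdiff
        ((card_le_card (sdiff_subset.trans hJi)).trans hI'R)
      have h5 : uniq H (Ji \ I) \ (dom ρ ∪ X ∪ vars H I) ⊆ Q := by
        intro v hv
        rw [mem_sdiff, mem_uniq] at hv
        have h6 := hoff v hv.2
        rw [hv.1] at h6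
        by_contra hvQ
        have h7 : gvec (imgv τ) (H i) v = 0 := by
          unfold gvec
          refine sum_eq_zero fun a _ => ?_
          rw [if_neg]
          exact fun h => hvQ (hQ a v h)
        rw [h7] at h6
        simp at h6
      have h6 := (card_le_card h5).trans hQc
      by_contra hcon
      have h7 : 2 ≤ (Ji \ I).card := by omega
      have h8 : 3 * k * 2 ≤ 3 * k * (Ji \ I).card := Nat.mul_le_mul_left _ h7
      rw [← hX] at h4
      omega
  · intro y hy hall
    have h3 := himp y hy (by simpa only [sum_vec_mul] using hall)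
    rw [rowSum_app, h3, add_assoc, z2_add_self, add_zero]

end

end Pool.Agent.MP_9cec2c_lc.SubstRed
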