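import Mathlib
import Pool.Agent.Lib.MP_9cec2c_lc.SLCube

/-!
Binary refutations: heavy paths and weighted binary search.
-/

namespace Pool.Agent.MP_9cec2c_lc.Unfolding

open Pool.Agent.MP_9cec2c_lc.ShortLines (Cube Lit Clause Holds cnf)

/-- A refutation in which each line has at most two premises, the heavy one `c1` and the light one
`c2`, with the sizes `t` of the tree unfoldings. -/
structure BinRef {n : ℕ} (F : Finset (Clause n)) (q : ℕ) (ι : Type) where
  L : ι → Cube n → Bool
  t : ι → ℕ
  c1 : ι → Option ι
  c2 : ι → Option ι
  G : ι → Finset (Clause n)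
  ht : ∀ i, 1 + (c1 i).elim 0 t + (c2 i).elim 0 t ≤ t i
  hle : ∀ i, (c2 i).elim 0 t ≤ (c1 i).elim 0 t
  hG : ∀ i, G i ⊆ F ∧ (G i).card ≤ q
  sound : ∀ i x, (∀ j ∈ c1 i, L j x = true) → (∀ j ∈ c2 i, L j x = true) →
    (∀ C ∈ G i, Holds x C) → L i x = true

namespace BinRef

variable {n : ℕ} {F : Finset (Clause n)} {q : ℕ} {ι : Type} (R : BinRef F q ι)

/-- The weight of an optional line. -/
def wt (o : Option ι) : ℕ := o.elim 0 R.t

/-- The value of an optional line. -/
def val (o : Option ι) (x : Cube n) : Bool := o.elim true (fun j => R.L j x)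

@[simp] lemma wt_none : R.wt none = 0 := rfl
@[simp] lemma wt_some (i : ι) : R.wt (some i) = R.t i := rfl
@[simp] lemma val_none (x : Cube n) : R.val none x = true := rfl
@[simp] lemma val_some (i : ι) (x : Cube n) : R.val (some i) x = R.L i x := rfl

lemma t_ge (i : ι) : 1 + R.wt (R.c1 i) + R.wt (R.c2 i) ≤ R.t i := R.ht i

lemma t_pos (i : ι) : 1 ≤ R.t i := by
  have := R.t_ge i
  omega

lemma light_le (i : ι) : R.wt (R.c2 i) ≤ R.wt (R.c1 i) := R.hle i

lemma sound' (i : ι) (x : Cube n) (h1 : R.val (R.c1 i) x = true) (h2 : R.val (R.c2 i) x = true)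
    (h3 : ∀ C ∈ R.G i, Holds x C) : R.L i x = true := by
  refine R.sound i x ?_ ?_ h3
  · intro j hj
    rw [Option.mem_def] at hj
    rw [hj] at h1
    exact h1
  · intro j hj
    rw [Option.mem_def] at hj
    rw [hj] at h2
    exact h2

/-- The heavy path. -/
def path (a : ι) : ℕ → Option ι
  | 0 => some a
  | k + 1 => (path a k).bind R.c1

lemma path_zero (a : ι) : R.path a 0 = some a := rfl

lemma path_succ (a : ι) (k : ℕ) : R.path a (k + 1) = (R.path a k).bind R.c1 := rfl

lemma path_succ_of_some {a : ι} {k : ℕ} {c : ι} (h : R.path a k = some c) :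
    R.path a (k + 1) = R.c1 c := by
  rw [path_succ, h]
  rfl

lemma path_add {a : ι} {k : ℕ} {c : ι} (h : R.path a k = some c) (l : ℕ) :
    R.path a (k + l) = R.path c l := by
  induction l with
  | zero => rw [add_zero, h, path_zero]
  | succ l ih => rw [← add_assoc, path_succ, path_succ, ih]

/-- Weights decrease strictly along the heavy path. -/
lemma wt_path_succ_le (a : ι) (k : ℕ) : R.wt (R.path a (k + 1)) ≤ R.wt (R.path a k) := by
  cases h : R.path a k with
  | none => rw [path_succ, h]; exact le_rfl
  | some c =>
    rw [R.path_succ_of_some h, wt_some]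
    have := R.t_ge c
    omega

lemma wt_path_succ_lt {a : ι} {k : ℕ} (h : 0 < R.wt (R.path a k)) :
    R.wt (R.path a (k + 1)) < R.wt (R.path a k) := by
  cases hk : R.path a k with
  | none => rw [hk, wt_none] at h; omega
  | some c =>
    rw [R.path_succ_of_some hk, wt_some]
    have := R.t_ge c
    omega

lemma wt_path_anti (a : ι) : Antitone fun k => R.wt (R.path a k) :=
  antitone_nat_of_succ_le (R.wt_path_succ_le a)

lemma wt_path_le (a : ι) (k : ℕ) : R.wt (R.path a k) ≤ R.t a - k := by
  induction k with
  | zero => rw [path_zero, wt_some]; omega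
  | succ k ih =>
    rcases Nat.eq_zero_or_pos (R.wt (R.path a k)) with h | h
    · have := R.wt_path_succ_le a k
      omega
    · have := R.wt_path_succ_lt h
      omega

lemma path_end (a : ι) : R.path a (R.t a) = none := by
  have h1 := R.wt_path_le a (R.t a)
  cases h : R.path a (R.t a) with
  | none => rfl
  | some c =>
    rw [h, wt_some] at h1
    have := R.t_pos c
    omega

/-- The states of the search: the line `a` is false, and the line `b` on its heavy path is true
(or it is the end of the heavy path). -/
def Valid (p : ι × Option ι) : Prop := ∃ k, 1 ≤ k ∧ R.path p.1 k = p.2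

/-- The lines of the new refutation. -/
def line (p : ι × Option ι) (x : Cube n) : Bool := R.L p.1 x || !(R.val p.2 x)

/-- The potential. -/
def pot (p : ι × Option ι) : ℕ := Nat.log 2 (R.t p.1) + Nat.log 2 (R.t p.1 - R.wt p.2)

lemma valid_none (a : ι) : R.Valid (a, none) := ⟨R.t a, R.t_pos a, R.path_end a⟩

lemma pot_le (p : ι × Option ι) : R.pot p ≤ 2 * Nat.log 2 (R.t p.1) := by
  unfold pot
  have : Nat.log 2 (R.t p.1 - R.wt p.2) ≤ Nat.log 2 (R.t p.1) :=
    Nat.log_mono_right (Nat.sub_le _ _)
  omega

lemma log_half {a b : ℕ} (ha : 1 ≤ a) (h : 2 * a ≤ b) : Nat.log 2 a + 1 ≤ Nat.log 2 b := by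
  have h1 : Nat.log 2 (a * 2) = Nat.log 2 a + 1 := Nat.log_mul_base (by norm_num) (by omega)
  rw [← h1]
  exact Nat.log_mono_right (by omega)

/-- Weighted binary search: the step. -/
lemma exists_step (p : ι × Option ι) (hp : R.Valid p) :
    ∃ (P : Finset (ι × Option ι)) (G : Finset (Clause n)), P.card ≤ 3 ∧ G ⊆ F ∧ G.card ≤ q ∧
      (∀ p' ∈ P, R.Valid p' ∧ R.t p'.1 ≤ R.t p.1 ∧ R.pot p' < R.pot p) ∧
      ∀ x, (∀ p' ∈ P, R.line p' x = true) → (∀ C ∈ G, Holds x C) → R.line p x = true := by
  classical
  obtain ⟨a, b⟩ := p
  obtain ⟨k, hk1, hk⟩ := hp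
  change R.path a k = b at hk
  set W : ℕ → ℕ := fun s => R.wt (R.path a s) with hW
  have hWanti : Antitone W := R.wt_path_anti a
  have hW0 : W 0 = R.t a := rfl
  have hWk : W k = R.wt b := by
    simp only [hW]
    rw [hk]
  have hkb : R.wt b ≤ R.t a := by
    rw [← hWk, ← hW0]
    exact hWanti (Nat.zero_le k)
  set H : ℕ := R.t a - R.wt b with hH
  -- the split
  set s : ℕ := Nat.findGreatest (fun s => 2 * (R.t a - W s) ≤ H) (k - 1) with hs
  have hsP : 2 * (R.t a - W s) ≤ H := by
    have h0 : 2 * (R.t a - W 0) ≤ H := by rw [hW0]; omega
    exact Nat.findGreatest_spec (P := fun s => 2 * (R.t a - W s) ≤ H) (Nat.zero_le _) h0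
  have hsk : s ≤ k - 1 := Nat.findGreatest_le _
  have hsmax : s + 1 < k → H < 2 * (R.t a - W (s + 1)) := by
    intro hlt
    have h1 := Nat.findGreatest_is_greatest (P := fun s => 2 * (R.t a - W s) ≤ H)
      (n := k - 1) (k := s + 1) (Nat.lt_succ_self s) (by omega)
    exact not_le.mp h1
  have hta := R.t_pos a
  have hWs : W s ≤ R.t a := by
    rw [← hW0]
    exact hWanti (Nat.zero_le s)
  have hWspos : 0 < W s := by omega
  -- the line at the split
  obtain ⟨c, hc⟩ : ∃ c, R.path a s = some c := by
    cases h : R.path a s with
    | none =>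
      have : W s = 0 := by
        simp only [hW]
        rw [h]
        rfl
      omega
    | some c => exact ⟨c, rfl⟩
  have hWc : W s = R.t c := by
    simp only [hW]
    rw [hc]
    rfl
  have hW1 : W (s + 1) = R.wt (R.c1 c) := by
    simp only [hW]
    rw [R.path_succ_of_some hc]
  have hWkk : R.wt b ≤ W (s + 1) := by
    rw [← hWk]
    exact hWanti (by omega)
  have htc := R.t_ge c
  have hlight := R.light_le c
  -- premises
  let PA : Finset (ι × Option ι) := if s = 0 then ∅ else {(a, R.path a s)}
  let PB : Finset (ι × Option ι) := (R.c1 c).elim ∅ fun c' => if s + 1 = k then ∅ else {(c', b)}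
  let PC : Finset (ι × Option ι) := (R.c2 c).elim ∅ fun j => {(j, none)}
  have hPA : PA.card ≤ 1 := by
    change (if s = 0 then (∅ : Finset (ι × Option ι)) else {(a, R.path a s)}).card ≤ 1
    split_ifs <;> simp
  have hPB : PB.card ≤ 1 := by
    change ((R.c1 c).elim (∅ : Finset (ι × Option ι))
      fun c' => if s + 1 = k then ∅ else {(c', b)}).card ≤ 1
    cases R.c1 c with
    | none => simp
    | some c' => simp only [Option.elim_some]; split_ifs <;> simp
  have hPC : PC.card ≤ 1 := by
    change ((R.c2 c).elim (∅ : Finset (ι × Option ι)) fun j => {(j, none)}).card ≤ 1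
    cases R.c2 c with
    | none => simp
    | some c' => simp
  refine ⟨PA ∪ PB ∪ PC, R.G c, ?_, (R.hG c).1, (R.hG c).2, ?_, ?_⟩
  · have h1 := Finset.card_union_le (PA ∪ PB) PC
    have h2 := Finset.card_union_le PA PB
    omega
  · intro p' hp'
    rw [Finset.mem_union, Finset.mem_union] at hp'
    rcases hp' with (hp' | hp') | hp'
    · -- left part
      by_cases hs0 : s = 0
      · have : PA = ∅ := if_pos hs0
        rw [this] at hp'
        exact absurd hp' (Finset.notMem_empty _)
      · have hPAe : PA = {(a, R.path a s)} := if_neg hs0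
        rw [hPAe, Finset.mem_singleton] at hp'
        subst hp'
        refine ⟨⟨s, by omega, rfl⟩, le_rfl, ?_⟩
        have hlt : W s < R.t a := by
          have h1 : W 1 < W 0 := R.wt_path_succ_lt (a := a) (k := 0) (by
            rw [path_zero, wt_some]; exact hta)
          have h2 : W s ≤ W 1 := hWanti (by omega)
          omega
        change Nat.log 2 (R.t a) + Nat.log 2 (R.t a - W s) < Nat.log 2 (R.t a) + Nat.log 2 H
        have := log_half (a := R.t a - W s) (b := H) (by omega) hsP
        omega
    · -- right part
      cases h1 : R.c1 c with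
      | none =>
        have : PB = ∅ := by
          change (R.c1 c).elim (∅ : Finset (ι × Option ι))
            (fun c' => if s + 1 = k then ∅ else {(c', b)}) = ∅
          rw [h1]
          rfl
        rw [this] at hp'
        exact absurd hp' (Finset.notMem_empty _)
      | some c' =>
        by_cases hsk1 : s + 1 = k
        · have : PB = ∅ := by
            change (R.c1 c).elim (∅ : Finset (ι × Option ι))
              (fun c' => if s + 1 = k then ∅ else {(c', b)}) = ∅
            rw [h1]
            exact if_pos hsk1
          rw [this] at hp'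
          exact absurd hp' (Finset.notMem_empty _)
        · have hPBe : PB = {(c', b)} := by
            change (R.c1 c).elim (∅ : Finset (ι × Option ι))
              (fun c' => if s + 1 = k then ∅ else {(c', b)}) = {(c', b)}
            rw [h1]
            exact if_neg hsk1
          rw [hPBe, Finset.mem_singleton] at hp'
          subst hp'
          have hpath : R.path a (s + 1) = some c' := by
            rw [R.path_succ_of_some hc, h1]
          have hlt : s + 1 < k := by omega
          have hmax := hsmax hlt
          have hW1' : W (s + 1) = R.t c' := by rw [hW1, h1]; rfl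
          have hstrict : R.wt b < R.t c' := by
            have h2 : W (s + 2) < W (s + 1) := R.wt_path_succ_lt (a := a) (k := s + 1) (by
              rw [hpath, wt_some]; exact R.t_pos c')
            have h3 : W k ≤ W (s + 2) := hWanti (by omega)
            omega
          have htc' : R.t c' ≤ R.t a := by
            rw [← hW1', ← hW0]
            exact hWanti (Nat.zero_le _)
          refine ⟨⟨k - (s + 1), by omega, ?_⟩, htc', ?_⟩
          · change R.path c' (k - (s + 1)) = b
            rw [← R.path_add hpath, ← hk]
            congr 1
            omega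
          · change Nat.log 2 (R.t c') + Nat.log 2 (R.t c' - R.wt b) <
              Nat.log 2 (R.t a) + Nat.log 2 H
            have h2 := log_half (a := R.t c' - R.wt b) (b := H) (by omega) (by omega)
            have h3 : Nat.log 2 (R.t c') ≤ Nat.log 2 (R.t a) := Nat.log_mono_right htc'
            omega
    · -- light premise
      cases h2 : R.c2 c with
      | none =>
        have : PC = ∅ := by
          change (R.c2 c).elim (∅ : Finset (ι × Option ι)) (fun j => {(j, none)}) = ∅
          rw [h2]
          rfl
        rw [this] at hp'
        exact absurd hp' (Finset.notMem_empty _)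
      | some j =>
        have hPCe : PC = {(j, none)} := by
          change (R.c2 c).elim (∅ : Finset (ι × Option ι)) (fun j => {(j, none)}) = {(j, none)}
          rw [h2]
          rfl
        rw [hPCe, Finset.mem_singleton] at hp'
        subst hp'
        rw [h2, wt_some] at htc hlight
        have hj := R.t_pos j
        refine ⟨R.valid_none j, by change R.t j ≤ R.t a; omega, ?_⟩
        change Nat.log 2 (R.t j) + Nat.log 2 (R.t j - 0) < Nat.log 2 (R.t a) + Nat.log 2 H
        have h3 := log_half (a := R.t j) (b := R.t a) hj (by omega)
        have h4 : Nat.log 2 (R.t j - 0) ≤ Nat.log 2 H := Nat.log_mono_right (by omega)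
        omega
  · intro x hx hG
    change (R.L a x || !(R.val b x)) = true
    by_contra hcon
    have hcon' : (R.L a x || !(R.val b x)) = false := by
      rwa [Bool.not_eq_true] at hcon
    rw [Bool.or_eq_false_iff] at hcon'
    obtain ⟨hLa, hLb'⟩ := hcon'
    have hLb : R.val b x = true := by
      cases h : R.val b x
      · rw [h] at hLb'
        exact absurd hLb' (by decide)
      · rfl
    have hLc : R.L c x = false := by
      by_cases hs0 : s = 0
      · have hac : a = c := by
          rw [hs0, path_zero] at hc
          exact Option.some.inj hc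
        rw [← hac]
        exact hLa
      · have hPAe : PA = {(a, R.path a s)} := if_neg hs0
        have h1 := hx (a, R.path a s) (by
          rw [Finset.mem_union, Finset.mem_union, hPAe]
          exact Or.inl (Or.inl (Finset.mem_singleton_self _)))
        change (R.L a x || !(R.val (R.path a s) x)) = true at h1
        rw [hLa, hc, val_some, Bool.false_or] at h1
        cases h : R.L c x
        · rfl
        · rw [h] at h1
          exact absurd h1 (by decide)
    have hL1 : R.val (R.c1 c) x = true := by
      cases h1 : R.c1 c with
      | none => rfl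
      | some c' =>
        by_cases hsk1 : s + 1 = k
        · have : R.c1 c = b := by
            rw [← hk, ← hsk1, R.path_succ_of_some hc]
          rw [← h1, this]
          exact hLb
        · have hPBe : PB = {(c', b)} := by
            change (R.c1 c).elim (∅ : Finset (ι × Option ι))
              (fun c' => if s + 1 = k then ∅ else {(c', b)}) = {(c', b)}
            rw [h1]
            exact if_neg hsk1
          have h2 := hx (c', b) (by
            rw [Finset.mem_union, Finset.mem_union, hPBe]
            exact Or.inl (Or.inr (Finset.mem_singleton_self _)))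
          change (R.L c' x || !(R.val b x)) = true at h2
          rw [hLb, Bool.not_true, Bool.or_false] at h2
          exact h2
    have hL2 : R.val (R.c2 c) x = true := by
      cases h2 : R.c2 c with
      | none => rfl
      | some j =>
        have hPCe : PC = {(j, none)} := by
          change (R.c2 c).elim (∅ : Finset (ι × Option ι)) (fun j => {(j, none)}) = {(j, none)}
          rw [h2]
          rfl
        have h3 := hx (j, none) (by
          rw [Finset.mem_union, hPCe]
          exact Or.inr (Finset.mem_singleton_self _))
        change (R.L j x || !(R.val none x)) = true at h3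
        rw [val_none, Bool.not_true, Bool.or_false] at h3
        exact h3
    have h4 := R.sound' c x hL1 hL2 hG
    rw [hLc] at h4
    exact absurd h4 (by decide)

end BinRef

end Pool.Agent.MP_9cec2c_lc.Unfolding
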