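import Mathlib
import Pool.Agent.Lib.MP_9cec2c_lc.SLCube

/-!
Size of refutations and size of their tree unfoldings: definitions for the statement.
-/

namespace Pool.Agent.MP_9cec2c_lc.Unfolding

open Pool.Agent.MP_9cec2c_lc.ShortLines (Cube Lit Clause Holds cnf)

/-- The Boolean functions `L 0, ..., L (S - 1)` are the lines of a refutation of the CNF `F` whose
tree unfolding has at most `T` lines: each line `L i` is implied by a set `P` of at most `q` lines
together with a set `G` of at most `s` clauses of `F`; the number `size i` bounds the number of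
lines of the tree which one gets by unfolding the derivation of the line `L i`: it is at least `1`
plus the sum of the numbers `size j` over the lines in `P`; some line `L i` with `size i ≤ T` is
false everywhere. -/
def IsRefutation {n S : ℕ} (F : Finset (Clause n)) (q s T : ℕ) (L : Fin S → Cube n → Bool) :
    Prop :=
  ∃ size : Fin S → ℕ, (∃ i, size i ≤ T ∧ ∀ x, L i x = false) ∧
    ∀ i, ∃ (P : Finset (Fin S)) (G : Finset (Clause n)),
      P.card ≤ q ∧ G ⊆ F ∧ G.card ≤ s ∧ 1 + ∑ j ∈ P, size j ≤ size i ∧
      ∀ x, (∀ j ∈ P, L j x = true) → (∀ C ∈ G, Holds x C) → L i x = true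

/-- The CNF `F` is unsatisfiable, and for each refutation of `F` with `S` lines from the set `LL`,
in which each line is implied by at most `q` lines and at most `s` clauses of `F`, and whose tree
unfolding has at most `T` lines, we have `log2 (2 * S) * log2 (2 * T) ≥ δ * n ^ 2`. -/
def Hard {n : ℕ} (LL : Finset (Cube n → Bool)) (q s : ℕ) (δ : ℝ) (F : Finset (Clause n)) :
    Prop :=
  (∀ x, ∃ C ∈ F, ¬ Holds x C) ∧
  ∀ (S T : ℕ) (L : Fin S → Cube n → Bool), (∀ i, L i ∈ LL) → IsRefutation F q s T L →
    δ * (n : ℝ) ^ 2 ≤ Real.logb 2 (2 * S) * Real.logb 2 (2 * T)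

end Pool.Agent.MP_9cec2c_lc.Unfolding
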