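import Mathlib
import Pool.Agent.Lib.MP_9cec2c_lc.SUDefs
import Pool.Agent.Lib.MP_9cec2c_lc.SUBin

/-!
From refutations with bounded fan-in and small tree unfolding to binary refutations, and from
binary refutations to shallow refutations.
-/

namespace Pool.Agent.MP_9cec2c_lc.Unfolding

open Pool.Agent.MP_9cec2c_lc.ShortLines (Cube Lit Clause Holds cnf)

/-- Refutations of depth at most `D` in which each line is implied by at most three lines and at
most `s` clauses. -/
def Shallow {n S : ℕ} (F : Finset (Clause n)) (s D : ℕ) (L : Fin S → Cube n → Bool) : Prop :=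
  (∃ i, ∀ x, L i x = false) ∧
  ∃ rank : Fin S → ℕ, (∀ i, rank i ≤ D) ∧
    ∀ i, ∃ (P : Finset (Fin S)) (G : Finset (Clause n)),
      P.card ≤ 3 ∧ G ⊆ F ∧ G.card ≤ s ∧ (∀ j ∈ P, rank j < rank i) ∧
      ∀ x, (∀ j ∈ P, L j x = true) → (∀ C ∈ G, Holds x C) → L i x = true

namespace BinRef

variable {n : ℕ} {F : Finset (Clause n)} {q : ℕ} {ι : Type}

/-- The weighted binary search is a shallow refutation. -/
lemma exists_shallow [Fintype ι] (R : BinRef F q ι) (r : ι) (hr : ∀ x, R.L r x = false)
    {T₁ : ℕ} (hT : R.t r ≤ T₁) :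
    ∃ (S' : ℕ) (L' : Fin S' → Cube n → Bool), 0 < S' ∧
      S' ≤ Fintype.card ι * (Fintype.card ι + 1) ∧
      (∀ i, ∃ (a : ι) (b : Option ι), L' i = fun x => R.L a x || !(R.val b x)) ∧
      Shallow F q (2 * Nat.log 2 T₁) L' := by
  classical
  let σ : Type := {p : ι × Option ι // R.Valid p ∧ R.t p.1 ≤ T₁}
  let e : σ ≃ Fin (Fintype.card σ) := Fintype.equivFin σ
  let root : σ := ⟨(r, none), R.valid_none r, hT⟩
  have hpot : ∀ i : Fin (Fintype.card σ), R.pot (e.symm i).1 ≤ 2 * Nat.log 2 T₁ := by
    intro i
    have h1 := R.pot_le (e.symm i).1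
    have h2 : Nat.log 2 (R.t (e.symm i).1.1) ≤ Nat.log 2 T₁ :=
      Nat.log_mono_right (e.symm i).2.2
    omega
  refine ⟨Fintype.card σ, fun i => R.line (e.symm i).1, ?_, ?_, ?_, ?_, ?_⟩
  · exact Fintype.card_pos_iff.mpr ⟨root⟩
  · have h1 : Fintype.card σ ≤ Fintype.card (ι × Option ι) := Fintype.card_subtype_le _
    have h2 : Fintype.card (ι × Option ι) = Fintype.card ι * (Fintype.card ι + 1) := by
      rw [Fintype.card_prod, Fintype.card_option]
    omega
  · intro i
    exact ⟨(e.symm i).1.1, (e.symm i).1.2, rfl⟩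
  · refine ⟨e root, ?_⟩
    intro x
    change R.line (e.symm (e root)).1 x = false
    rw [Equiv.symm_apply_apply]
    change (R.L r x || !(R.val none x)) = false
    rw [hr, val_none]
    rfl
  · refine ⟨fun i => R.pot (e.symm i).1, hpot, ?_⟩
    · intro i
      obtain ⟨P, G, hP, hGF, hGq, hstep, hsound⟩ := R.exists_step (e.symm i).1 (e.symm i).2.1
      let P' : Finset (Fin (Fintype.card σ)) := P.attach.image fun p' =>
        e ⟨p'.1, (hstep p'.1 p'.2).1, (hstep p'.1 p'.2).2.1.trans (e.symm i).2.2⟩
      refine ⟨P', G, ?_, hGF, hGq, ?_, ?_⟩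
      · refine (Finset.card_image_le).trans ?_
        rw [Finset.card_attach]
        exact hP
      · intro j hj
        obtain ⟨p', -, rfl⟩ := Finset.mem_image.mp hj
        have h1 := (hstep p'.1 p'.2).2.2
        have h2 : R.pot (e.symm (e ⟨p'.1, (hstep p'.1 p'.2).1,
            (hstep p'.1 p'.2).2.1.trans (e.symm i).2.2⟩)).1 < R.pot (e.symm i).1 := by
          rw [Equiv.symm_apply_apply]
          exact h1
        exact h2
      · intro x hx hG
        refine hsound x ?_ hG
        intro p' hp'
        have h1 := hx (e ⟨p', (hstep p' hp').1, (hstep p' hp').2.1.trans (e.symm i).2.2⟩)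
          (Finset.mem_image.mpr ⟨⟨p', hp'⟩, Finset.mem_attach _ _, rfl⟩)
        change R.line (e.symm (e ⟨p', (hstep p' hp').1,
          (hstep p' hp').2.1.trans (e.symm i).2.2⟩)).1 x = true at h1
        rw [Equiv.symm_apply_apply] at h1
        exact h1

/-- A binary refutation, without the order of the two premises. -/
def ofUnordered (L : ι → Cube n → Bool) (t : ι → ℕ) (d1 d2 : ι → Option ι)
    (G : ι → Finset (Clause n))
    (ht : ∀ i, 1 + (d1 i).elim 0 t + (d2 i).elim 0 t ≤ t i)
    (hG : ∀ i, G i ⊆ F ∧ (G i).card ≤ q)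
    (sound : ∀ i x, (∀ j ∈ d1 i, L j x = true) → (∀ j ∈ d2 i, L j x = true) →
      (∀ C ∈ G i, Holds x C) → L i x = true) : BinRef F q ι where
  L := L
  t := t
  c1 := fun i => if (d2 i).elim 0 t ≤ (d1 i).elim 0 t then d1 i else d2 i
  c2 := fun i => if (d2 i).elim 0 t ≤ (d1 i).elim 0 t then d2 i else d1 i
  G := G
  ht := by
    intro i
    have := ht i
    split_ifs <;> omega
  hle := by
    intro i
    split_ifs with h
    · exact h
    · omega
  hG := hG
  sound := by
    intro i x h1 h2 h3
    by_cases h : (d2 i).elim 0 t ≤ (d1 i).elim 0 t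
    · rw [if_pos h] at h1 h2
      exact sound i x h1 h2 h3
    · rw [if_neg h] at h1 h2
      exact sound i x h2 h1 h3

end BinRef

/-- The conjunction of the lines in a list. -/
def conj {n S : ℕ} (L : Fin S → Cube n → Bool) (l : List (Fin S)) : Cube n → Bool :=
  fun x => l.all fun j => L j x

lemma conj_nil {n S : ℕ} (L : Fin S → Cube n → Bool) : conj L [] = fun _ => true := rfl

lemma conj_cons {n S : ℕ} (L : Fin S → Cube n → Bool) (j : Fin S) (l : List (Fin S)) :
    conj L (j :: l) = fun x => L j x && conj L l x := rfl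

/-- The lines, and the conjunctions of the final segments of the lists of the premises. -/
abbrev Idx (S : ℕ) : Type := Fin S ⊕ (Fin S × Fin (S + 1))

section

variable {n S : ℕ} (L : Fin S → Cube n → Bool) (size : Fin S → ℕ) (P : Fin S → List (Fin S))
  (G : Fin S → Finset (Clause n))

def line₁ : Idx S → Cube n → Bool
  | Sum.inl c => L c
  | Sum.inr (c, k) => conj L ((P c).drop k)

def size₁ : Idx S → ℕ
  | Sum.inl c => 3 * size c - 1
  | Sum.inr (c, k) => 1 + (((P c).drop k).map fun j => 3 * size j).sum

def first₁ : Idx S → Option (Idx S)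
  | Sum.inl c => some (Sum.inr (c, 0))
  | Sum.inr (c, k) => ((P c).drop k).head?.map Sum.inl

def second₁ : Idx S → Option (Idx S)
  | Sum.inl _ => none
  | Sum.inr (c, k) => if h : (k : ℕ) < (P c).length ∧ (k : ℕ) < S then
      some (Sum.inr (c, ⟨k + 1, by omega⟩)) else none

def clauses₁ : Idx S → Finset (Clause n)
  | Sum.inl c => G c
  | Sum.inr _ => ∅

variable {F : Finset (Clause n)} {q s T : ℕ}

lemma exists_binRef {L : Fin S → Cube n → Bool} (h : IsRefutation F q s T L) :
    ∃ (R : BinRef F s (Idx S)) (r : Idx S), R.t r ≤ 3 * T ∧ (∀ x, R.L r x = false) ∧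
      ∀ i, ∃ l : List (Fin S), l.length ≤ max 1 q ∧ R.L i = conj L l := by
  classical
  obtain ⟨size, ⟨i₀, hi₀T, hi₀⟩, hstep⟩ := h
  choose P G hP hGF hGq hsize hsound using hstep
  let l : Fin S → List (Fin S) := fun c => (P c).toList
  have hlen : ∀ c, (l c).length = (P c).card := fun c => Finset.length_toList _
  have hlenS : ∀ c, (l c).length ≤ S := by
    intro c
    rw [hlen]
    exact (Finset.card_le_univ _).trans (by rw [Fintype.card_fin])
  have hsum : ∀ c, ((l c).map fun j => 3 * size j).sum = 3 * ∑ j ∈ P c, size j := by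
    intro c
    rw [Finset.mul_sum]
    exact Finset.sum_map_toList (P c) (fun j => 3 * size j)
  have hdrop : ∀ (c : Fin S) (k : ℕ) (hk : k < (l c).length),
      (l c).drop k = (l c)[k] :: (l c).drop (k + 1) := by
    intro c k hk
    exact List.drop_eq_getElem_cons hk
  have hsizepos : ∀ c, 1 ≤ size c := by
    intro c
    have := hsize c
    omega
  let R : BinRef F s (Idx S) := BinRef.ofUnordered (line₁ L l) (size₁ size l) (first₁ l)
    (second₁ l) (clauses₁ G) (by
      rintro (c | ⟨c, k⟩)
      · change 1 + (1 + (((l c).drop 0).map fun j => 3 * size j).sum) + 0 ≤ 3 * size c - 1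
        rw [List.drop_zero, hsum]
        have := hsize c
        omega
      · by_cases hk : (k : ℕ) < (l c).length
        · have hkS : (k : ℕ) < S := hk.trans_le (hlenS c)
          have h1 : first₁ l (Sum.inr (c, k)) = some (Sum.inl (l c)[(k : ℕ)]) := by
            change ((l c).drop k).head?.map Sum.inl = _
            rw [hdrop c k hk]
            rfl
          have h2 : second₁ l (Sum.inr (c, k)) = some (Sum.inr (c, ⟨k + 1, by omega⟩)) :=
            dif_pos ⟨hk, hkS⟩
          rw [h1, h2]
          change 1 + (3 * size (l c)[(k : ℕ)] - 1) +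
            (1 + (((l c).drop (k + 1)).map fun j => 3 * size j).sum) ≤
            1 + (((l c).drop k).map fun j => 3 * size j).sum
          rw [hdrop c k hk, List.map_cons, List.sum_cons]
          have := hsizepos (l c)[(k : ℕ)]
          omega
        · have h1 : first₁ l (Sum.inr (c, k)) = none := by
            change ((l c).drop k).head?.map Sum.inl = _
            rw [List.drop_eq_nil_of_le (not_lt.mp hk)]
            rfl
          have h2 : second₁ l (Sum.inr (c, k)) = none :=
            dif_neg fun h => hk h.1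
          rw [h1, h2]
          change 1 + 0 + 0 ≤ 1 + (((l c).drop k).map fun j => 3 * size j).sum
          omega) (by
      rintro (c | ⟨c, k⟩)
      · exact ⟨hGF c, hGq c⟩
      · exact ⟨Finset.empty_subset _, Nat.zero_le _⟩) (by
      rintro (c | ⟨c, k⟩) x h1 h2 h3
      · have h4 := h1 (Sum.inr (c, 0)) rfl
        change ((l c).drop 0).all (fun j => L j x) = true at h4
        rw [List.drop_zero, List.all_eq_true] at h4
        refine hsound c x ?_ h3
        intro j hj
        exact h4 j (Finset.mem_toList.mpr hj)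
      · by_cases hk : (k : ℕ) < (l c).length
        · have hkS : (k : ℕ) < S := hk.trans_le (hlenS c)
          have h1' : first₁ l (Sum.inr (c, k)) = some (Sum.inl (l c)[(k : ℕ)]) := by
            change ((l c).drop k).head?.map Sum.inl = _
            rw [hdrop c k hk]
            rfl
          have h2' : second₁ l (Sum.inr (c, k)) = some (Sum.inr (c, ⟨k + 1, by omega⟩)) :=
            dif_pos ⟨hk, hkS⟩
          have h4 := h1 _ h1'
          have h5 := h2 _ h2'
          change L (l c)[(k : ℕ)] x = true at h4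
          change conj L ((l c).drop (k + 1)) x = true at h5
          change conj L ((l c).drop k) x = true
          rw [hdrop c k hk, conj_cons]
          change (L (l c)[(k : ℕ)] x && conj L ((l c).drop (k + 1)) x) = true
          rw [h4, h5]
          rfl
        · change conj L ((l c).drop k) x = true
          rw [List.drop_eq_nil_of_le (not_lt.mp hk)]
          rfl)
  refine ⟨R, Sum.inl i₀, ?_, hi₀, ?_⟩
  · change 3 * size i₀ - 1 ≤ 3 * T
    omega
  · rintro (c | ⟨c, k⟩)
    · refine ⟨[c], le_max_left _ _, ?_⟩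
      change L c = conj L [c]
      funext x
      change L c x = (L c x && true)
      rw [Bool.and_true]
    · refine ⟨(l c).drop k, ?_, rfl⟩
      rw [List.length_drop]
      have h1 := hlen c
      have h2 := hP c
      exact le_max_of_le_right (by omega)

end

/-- The conjunctions of at most `k` functions from `LL`. -/
noncomputable def conjSet {n : ℕ} (LL : Finset (Cube n → Bool)) : ℕ → Finset (Cube n → Bool)
  | 0 => {fun _ => true}
  | k + 1 => Finset.image₂ (fun f g x => f x && g x) (insert (fun _ => true) LL) (conjSet LL k)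

lemma card_conjSet {n : ℕ} (LL : Finset (Cube n → Bool)) (k : ℕ) :
    (conjSet LL k).card ≤ (LL.card + 1) ^ k := by
  induction k with
  | zero => exact le_of_eq (Finset.card_singleton _)
  | succ k ih =>
    refine (Finset.card_image₂_le _ _ _).trans ?_
    rw [pow_succ, mul_comm]
    exact Nat.mul_le_mul ih (Finset.card_insert_le _ _)

lemma conj_mem_conjSet {n S : ℕ} (LL : Finset (Cube n → Bool)) (L : Fin S → Cube n → Bool)
    (hL : ∀ i, L i ∈ LL) (k : ℕ) (l : List (Fin S)) (hl : l.length ≤ k) :
    conj L l ∈ conjSet LL k := by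
  induction k generalizing l with
  | zero =>
    have : l = [] := List.length_eq_zero_iff.mp (Nat.le_zero.mp hl)
    rw [this, conj_nil]
    exact Finset.mem_singleton_self _
  | succ k ih =>
    cases l with
    | nil =>
      have h := ih [] (Nat.zero_le _)
      rw [conj_nil] at h ⊢
      exact Finset.mem_image₂.mpr ⟨_, Finset.mem_insert_self _ _, _, h, rfl⟩
    | cons j l =>
      have h := ih l (by rw [List.length_cons] at hl; omega)
      rw [conj_cons]
      exact Finset.mem_image₂.mpr ⟨_, Finset.mem_insert_of_mem (hL j), _, h, rfl⟩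

/-- The implications between conjunctions of at most `k` functions from `LL`. -/
noncomputable def implSet {n : ℕ} (LL : Finset (Cube n → Bool)) (k : ℕ) :
    Finset (Cube n → Bool) :=
  Finset.image₂ (fun f g x => f x || !(g x)) (conjSet LL k) (conjSet LL k)

lemma card_implSet {n : ℕ} (LL : Finset (Cube n → Bool)) (k : ℕ) :
    (implSet LL k).card ≤ (LL.card + 1) ^ (2 * k) := by
  refine (Finset.card_image₂_le _ _ _).trans ?_
  rw [two_mul, pow_add]
  exact Nat.mul_le_mul (card_conjSet LL k) (card_conjSet LL k)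

lemma impl_mem_implSet {n S : ℕ} (LL : Finset (Cube n → Bool)) (L : Fin S → Cube n → Bool)
    (hL : ∀ i, L i ∈ LL) (k : ℕ) (l₁ l₂ : List (Fin S)) (h₁ : l₁.length ≤ k)
    (h₂ : l₂.length ≤ k) :
    (fun x => conj L l₁ x || !(conj L l₂ x)) ∈ implSet LL k :=
  Finset.mem_image₂.mpr ⟨_, conj_mem_conjSet LL L hL k l₁ h₁, _,
    conj_mem_conjSet LL L hL k l₂ h₂, rfl⟩

/-- From a refutation with a small tree unfolding to a shallow refutation. -/
lemma exists_shallow {n S q s T : ℕ} {F : Finset (Clause n)} {L : Fin S → Cube n → Bool}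
    (LL : Finset (Cube n → Bool)) (hL : ∀ i, L i ∈ LL) (h : IsRefutation F q s T L)
    (hq1 : 1 ≤ q) :
    ∃ (S' : ℕ) (L' : Fin S' → Cube n → Bool), 0 < S' ∧
      S' ≤ (S ^ 2 + 2 * S) * (S ^ 2 + 2 * S + 1) ∧ (∀ i, L' i ∈ implSet LL q) ∧
      Shallow F s (2 * Nat.log 2 (3 * T)) L' := by
  obtain ⟨R, r, hrT, hr, hlines⟩ := exists_binRef h
  obtain ⟨S', L', hS'0, hS', hL', href⟩ := R.exists_shallow r hr hrT
  have hlines' : ∀ i, ∃ l : List (Fin S), l.length ≤ q ∧ R.L i = conj L l := by
    intro i
    obtain ⟨l, hl, h1⟩ := hlines i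
    rw [max_eq_right hq1] at hl
    exact ⟨l, hl, h1⟩
  refine ⟨S', L', hS'0, ?_, ?_, href⟩
  · have hc : Fintype.card (Idx S) = S ^ 2 + 2 * S := by
      rw [Fintype.card_sum, Fintype.card_prod, Fintype.card_fin, Fintype.card_fin]
      ring
    rw [hc] at hS'
    exact hS'
  · intro i
    obtain ⟨a, b, hab⟩ := hL' i
    obtain ⟨l₁, hl₁, h1⟩ := hlines' a
    rw [hab, h1]
    cases b with
    | none =>
      have h2 : (fun x => conj L l₁ x || !(R.val none x)) =
          fun x => conj L l₁ x || !(conj L [] x) := rfl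
      rw [h2]
      exact impl_mem_implSet LL L hL q l₁ [] hl₁ (Nat.zero_le _)
    | some b =>
      obtain ⟨l₂, hl₂, h2⟩ := hlines' b
      have h3 : (fun x => conj L l₁ x || !(R.val (some b) x)) =
          fun x => conj L l₁ x || !(conj L l₂ x) := by
        funext x
        rw [BinRef.val_some, h2]
      rw [h3]
      exact impl_mem_implSet LL L hL q l₁ l₂ hl₁ hl₂

end Pool.Agent.MP_9cec2c_lc.Unfolding
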