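import Mathlib
import Pool.Agent.Lib.MP_9cec2c_lc.SLFinal

/-!
The family of bad CNFs is small, for all parameters up to exponential size.
-/

namespace Pool.Agent.MP_9cec2c_lc.ShortLines

open Finset

/-- The numerical condition of the moment bound, for larger widths. -/
theorem num_moment' (P : ℕ) : ∀ᶠ n : ℕ in Filter.atTop, ∀ w, w * Nat.clog 2 n * 2 ^ (P + 4) ≤ n →
    n ^ w * (2 ^ (P + 4) + 2) ^ n * 2 ^ ((P + 4) * (2 * (n / 2 ^ (2 * (P + 4))))) ≤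
      2 ^ (n / 2 ^ P + 1) * 2 ^ ((P + 4) * n) := by
  filter_upwards [Filter.eventually_ge_atTop (2 ^ (P + 4))] with n hn w hw
  have h1 : n ^ w ≤ 2 ^ (w * Nat.clog 2 n) := by
    calc n ^ w ≤ (2 ^ Nat.clog 2 n) ^ w :=
          Nat.pow_le_pow_left (Nat.le_pow_clog one_lt_two n) _
      _ = 2 ^ (w * Nat.clog 2 n) := by rw [← pow_mul]; congr 1; ring
  have h2 : (2 ^ (P + 4) + 2) ^ n ≤ 2 ^ (2 * (n / 2 ^ (P + 3) + 1)) * 2 ^ ((P + 4) * n) := by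
    have e : (2 ^ (P + 4) + 2) = 2 * (2 ^ (P + 3) + 1) := by ring
    rw [e, mul_pow]
    calc 2 ^ n * (2 ^ (P + 3) + 1) ^ n ≤
          2 ^ n * (4 ^ (n / 2 ^ (P + 3) + 1) * 2 ^ ((P + 3) * n)) :=
          Nat.mul_le_mul_left _ (SLNum_exp (P + 3) n)
      _ = 2 ^ (2 * (n / 2 ^ (P + 3) + 1)) * 2 ^ ((P + 4) * n) := by
          rw [show (4 : ℕ) = 2 ^ 2 by norm_num, ← pow_mul, ← pow_add, ← pow_add, ← pow_add]
          congr 1; ring
  set M := n / 2 ^ (P + 3) with hM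
  have hM1 : 2 ≤ M := by
    rw [hM, Nat.le_div_iff_mul_le (by positivity)]
    calc 2 * 2 ^ (P + 3) = 2 ^ (P + 4) := by ring
      _ ≤ n := hn
  have h3 : 8 * M ≤ n / 2 ^ P := by
    rw [Nat.le_div_iff_mul_le (by positivity), hM]
    calc 8 * (n / 2 ^ (P + 3)) * 2 ^ P = n / 2 ^ (P + 3) * 2 ^ (P + 3) := by ring
      _ ≤ n := Nat.div_mul_le_self _ _
  have h4 : (P + 4) * (2 * (n / 2 ^ (2 * (P + 4)))) ≤ M := by
    have e1 : 2 ^ (2 * (P + 4)) = 2 ^ (P + 3) * 2 ^ (P + 5) := by rw [← pow_add]; congr 1; ring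
    rw [e1, ← Nat.div_div_eq_div_mul, ← hM]
    have e2 : (P + 4) * 2 ≤ 2 ^ (P + 5) := by
      have := Nat.lt_two_pow_self (n := P + 4)
      rw [show P + 5 = (P + 4) + 1 by ring, pow_succ]
      omega
    calc (P + 4) * (2 * (M / 2 ^ (P + 5))) = (P + 4) * 2 * (M / 2 ^ (P + 5)) := by ring
      _ ≤ 2 ^ (P + 5) * (M / 2 ^ (P + 5)) := Nat.mul_le_mul_right _ e2
      _ ≤ M := Nat.mul_div_le _ _
  have h5 : w * Nat.clog 2 n ≤ M := by
    rw [hM, Nat.le_div_iff_mul_le (by positivity)]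
    refine le_trans (Nat.mul_le_mul_left _ ?_) hw
    exact Nat.pow_le_pow_right (by norm_num) (by omega)
  calc n ^ w * (2 ^ (P + 4) + 2) ^ n * 2 ^ ((P + 4) * (2 * (n / 2 ^ (2 * (P + 4)))))
      ≤ 2 ^ (w * Nat.clog 2 n) *
          (2 ^ (2 * (M + 1)) * 2 ^ ((P + 4) * n)) *
          2 ^ ((P + 4) * (2 * (n / 2 ^ (2 * (P + 4))))) :=
        Nat.mul_le_mul_right _ (Nat.mul_le_mul h1 h2)
    _ = 2 ^ (w * Nat.clog 2 n + 2 * (M + 1) +
          (P + 4) * (2 * (n / 2 ^ (2 * (P + 4))))) * 2 ^ ((P + 4) * n) := by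
        rw [pow_add, pow_add]; ring
    _ ≤ 2 ^ (n / 2 ^ P + 1) * 2 ^ ((P + 4) * n) :=
        Nat.mul_le_mul_right _ (Nat.pow_le_pow_right (by norm_num) (by omega))

open scoped Classical in
theorem few_bad_family' (e : ℕ) (he : 1 ≤ e) : ∀ᶠ n : ℕ in Filter.atTop,
    ∀ q b l T : ℕ, n ≤ q → q ^ (14 * e) ≤ b → b ^ (2 ^ (7 * e + 18) * Nat.clog 2 n) ≤ 2 ^ n →
    b ≤ 2 ^ (e * l) →
    2 ^ (e * l) ≤ q ^ 6 * b → ∀ ZZ : Finset (Finset (Cube n)), ZZ.card ≤ 2 ^ b →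
    b * (univ.filter fun f : Fin (n ^ 2 * 2 ^ ((e + 1) * l)) → Fin ((e + 1) * l) → Fin n × Bool =>
      ¬ ((∀ x, ∃ i, x ∈ viol (f i)) ∧
      Good (fun i => viol (f i)) ZZ (2 ^ (e * l)) (b + 1) (b + 1 + T * (b + 2)) T
        (2 ^ (n - 2 * (n / 2 ^ (2 * (7 * e + 12 + 4))))))).card ≤
      ((2 * n) ^ ((e + 1) * l)) ^ (n ^ 2 * 2 ^ ((e + 1) * l)) := by
  filter_upwards [num_moment' (7 * e + 12), Filter.eventually_ge_atTop (2 ^ (7 * e + 12)),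
    Filter.eventually_ge_atTop 3] with n h1 h2 hn q b l T hnq hqb hb hbl hlq ZZ hZZ
  have hq1 : 1 ≤ q := by omega
  have hc1 : 1 ≤ Nat.clog 2 n := Nat.clog_pos (by norm_num) (by omega)
  have hnl : n ≤ 2 ^ l := by
    have e1 : n ^ e ≤ (2 ^ l) ^ e := by
      calc n ^ e ≤ q ^ e := Nat.pow_le_pow_left hnq e
        _ ≤ q ^ (14 * e) := Nat.pow_le_pow_right hq1 (by omega)
        _ ≤ b := hqb
        _ ≤ 2 ^ (e * l) := hbl
        _ = (2 ^ l) ^ e := by rw [← pow_mul, mul_comm]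
    exact (Nat.pow_le_pow_iff_left (by omega)).mp e1
  have hb1 : 1 ≤ b := le_trans (Nat.one_le_pow _ _ hq1) hqb
  have hw : (e + 1) * l * Nat.clog 2 n * 2 ^ (7 * e + 12 + 4) ≤ n := by
    have e1 : 2 ^ (e * l) ≤ b ^ 2 := by
      calc 2 ^ (e * l) ≤ q ^ 6 * b := hlq
        _ ≤ q ^ (14 * e) * b := Nat.mul_le_mul_right _ (Nat.pow_le_pow_right hq1 (by omega))
        _ ≤ b * b := Nat.mul_le_mul_right _ hqb
        _ = b ^ 2 := by ring
    have e2 : 2 ^ (e * l * (2 ^ (7 * e + 17) * Nat.clog 2 n)) ≤ 2 ^ n := by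
      calc 2 ^ (e * l * (2 ^ (7 * e + 17) * Nat.clog 2 n)) =
            (2 ^ (e * l)) ^ (2 ^ (7 * e + 17) * Nat.clog 2 n) := by rw [pow_mul]
        _ ≤ (b ^ 2) ^ (2 ^ (7 * e + 17) * Nat.clog 2 n) := Nat.pow_le_pow_left e1 _
        _ = b ^ (2 ^ (7 * e + 18) * Nat.clog 2 n) := by
            rw [← pow_mul]; congr 1; ring
        _ ≤ 2 ^ n := hb
    have e3 : e * l * (2 ^ (7 * e + 17) * Nat.clog 2 n) ≤ n :=
      (Nat.pow_le_pow_iff_right (by norm_num)).mp e2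
    calc (e + 1) * l * Nat.clog 2 n * 2 ^ (7 * e + 12 + 4)
        ≤ (2 * e) * l * Nat.clog 2 n * 2 ^ (7 * e + 12 + 4) := by
          refine Nat.mul_le_mul_right _ (Nat.mul_le_mul_right _ (Nat.mul_le_mul_right _ ?_))
          omega
      _ = e * l * (2 ^ (7 * e + 17) * Nat.clog 2 n) := by ring
      _ ≤ n := e3
  have hbN : b ≤ n ^ 2 * 2 ^ ((e + 1) * l) := by
    calc b ≤ 2 ^ (e * l) := hbl
      _ ≤ 2 ^ ((e + 1) * l) :=
          Nat.pow_le_pow_right (by norm_num) (Nat.mul_le_mul_right _ (by omega))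
      _ ≤ n ^ 2 * 2 ^ ((e + 1) * l) := Nat.le_mul_of_pos_left _ (by positivity)
  have hb2 : b ≤ 2 ^ n := by
    calc b = b ^ 1 := (pow_one b).symm
      _ ≤ b ^ (2 ^ (7 * e + 18) * Nat.clog 2 n) :=
          Nat.pow_le_pow_right hb1 (Nat.mul_pos (by positivity) hc1)
      _ ≤ 2 ^ n := hb
  refine few_bad (y := b) hn rfl (Nat.pow_le_pow_right (by norm_num) (by omega))
    le_rfl le_rfl hbN hb2 ZZ hZZ ?_
  intro U hU
  have h3 := heavy_few (g := n / 2 ^ (7 * e + 12))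
    (s := 2 * (n / 2 ^ (2 * (7 * e + 12 + 4)))) (x := 4 * (e + 1) + 9)
    (Q := 7 * e + 12 + 4) (e := e) (l := l) (t := 2 ^ (e * l)) (w := (e + 1) * l)
    (by ring) rfl rfl ((Nat.one_le_div_iff (by positivity)).mpr h2) (by
      have e1 : 7 * e + 12 + 4 - 3 = (7 * e + 12) + 1 := by omega
      rw [e1, pow_succ]
      have e2 := Nat.mul_div_le n (2 ^ (7 * e + 12))
      calc 2 ^ (7 * e + 12) * 2 * (n / 2 ^ (7 * e + 12))
          = 2 * (2 ^ (7 * e + 12) * (n / 2 ^ (7 * e + 12))) := by ring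
        _ ≤ 2 * n := by omega) (h1 _ hw) U (by
      calc 2 ^ n = 2 ^ (n - 2 * (n / 2 ^ (2 * (7 * e + 12 + 4)))) *
            2 ^ (2 * (n / 2 ^ (2 * (7 * e + 12 + 4)))) := by
            rw [← pow_add]
            congr 1
            have e1 : 2 * (n / 2 ^ (2 * (7 * e + 12 + 4))) ≤ n := by
              have e2 : 2 ≤ 2 ^ (2 * (7 * e + 12 + 4)) := by
                calc 2 = 2 ^ 1 := rfl
                  _ ≤ _ := Nat.pow_le_pow_right (by norm_num) (by omega)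
              calc 2 * (n / 2 ^ (2 * (7 * e + 12 + 4)))
                  ≤ 2 ^ (2 * (7 * e + 12 + 4)) * (n / 2 ^ (2 * (7 * e + 12 + 4))) :=
                    Nat.mul_le_mul_right _ e2
                _ ≤ n := Nat.mul_div_le _ _
            omega
        _ ≤ _ := Nat.mul_le_mul_right _ hU)
  have h4 : 2 * (n ^ 2 * 2 ^ ((e + 1) * l)) ^ 4 ≤ 2 ^ ((4 * (e + 1) + 9) * l) := by
    have e1 : 2 * n ^ 8 ≤ 2 ^ (9 * l) := by
      calc 2 * n ^ 8 ≤ n * n ^ 8 := Nat.mul_le_mul_right _ (by omega)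
        _ = n ^ 9 := by ring
        _ ≤ (2 ^ l) ^ 9 := Nat.pow_le_pow_left hnl 9
        _ = 2 ^ (9 * l) := by rw [← pow_mul, mul_comm]
    calc 2 * (n ^ 2 * 2 ^ ((e + 1) * l)) ^ 4 = (2 * n ^ 8) * 2 ^ (4 * (e + 1) * l) := by
          rw [mul_pow, ← pow_mul, ← pow_mul]
          ring
      _ ≤ 2 ^ (9 * l) * 2 ^ (4 * (e + 1) * l) := Nat.mul_le_mul_right _ e1
      _ = 2 ^ ((4 * (e + 1) + 9) * l) := by rw [← pow_add]; congr 1; ring
  have h5 := Nat.mul_le_mul_left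
    (univ.filter fun C : Fin ((e + 1) * l) → Fin n × Bool => Heavy (2 ^ (e * l)) (viol C) U).card
    h4
  have h6 := h5.trans h3
  refine Nat.le_of_mul_le_mul_left ?_ (show 0 < 2 by norm_num)
  calc _ = _ := by ring
    _ ≤ _ := h6

/-- Polynomials are small. -/
theorem sq_le_two_pow_sqrt : ∀ᶠ n : ℕ in Filter.atTop, n ^ 2 ≤ 2 ^ Nat.sqrt n := by
  have h1 : Filter.Tendsto (fun k : ℕ => (k : ℝ) ^ 4 / (2 : ℝ) ^ k) Filter.atTop (nhds 0) :=
    tendsto_pow_const_div_const_pow_of_one_lt 4 (by norm_num)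
  have h2 : ∀ᶠ k : ℕ in Filter.atTop, 16 * k ^ 4 ≤ 2 ^ k := by
    filter_upwards [h1.eventually (gt_mem_nhds (show (0 : ℝ) < 1 / 16 by norm_num))] with k hk
    have hp : (0 : ℝ) < 2 ^ k := by positivity
    rw [div_lt_iff₀ hp] at hk
    have h3 : 16 * (k : ℝ) ^ 4 ≤ 2 ^ k := by linarith
    exact_mod_cast h3
  obtain ⟨K, hK⟩ := Filter.eventually_atTop.mp h2
  filter_upwards [Filter.eventually_ge_atTop ((K + 1) * (K + 1))] with n hn
  have h3 : K + 1 ≤ Nat.sqrt n := Nat.le_sqrt.mpr hn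
  have h4 := hK (Nat.sqrt n) (by omega)
  have h5 : n ≤ (2 * Nat.sqrt n) ^ 2 := by
    have h6 := Nat.sqrt_lt_self (n := n)
    have h7 : n < (Nat.sqrt n + 1) * (Nat.sqrt n + 1) := Nat.lt_succ_sqrt n
    nlinarith
  calc n ^ 2 ≤ ((2 * Nat.sqrt n) ^ 2) ^ 2 := Nat.pow_le_pow_left h5 2
    _ = 16 * Nat.sqrt n ^ 4 := by ring
    _ ≤ 2 ^ Nat.sqrt n := h4

/-- Numerical form of the condition on `t`, for ternary inferences with at most `b` clauses. -/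
theorem t_large' {n b : ℕ} (hn : 2 ≤ n) (hb : 2 ≤ b) :
    8 * (b + 1 + (n ^ 2 + 1) * (b + 3 * (b + 1 + (1 + 3 * (n ^ 2 + 1)) * (b + 2)))) ≤
      208 * (n ^ 2) ^ 4 * b := by
  have g1 : 4 ≤ n ^ 2 := by nlinarith
  generalize n ^ 2 = x at g1 ⊢
  have f1 : 1 + 3 * (x + 1) ≤ 4 * x := by omega
  have f2 : (1 + 3 * (x + 1)) * (b + 2) ≤ 8 * (x * b) := by
    calc (1 + 3 * (x + 1)) * (b + 2) ≤ (4 * x) * (2 * b) := Nat.mul_le_mul f1 (by omega)
      _ = 8 * (x * b) := by ring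
  have f3 : 4 * b ≤ x * b := Nat.mul_le_mul_right _ g1
  have f4 : b + 3 * (b + 1 + (1 + 3 * (x + 1)) * (b + 2)) ≤ 28 * (x * b) := by omega
  have f5 : (x + 1) * (b + 3 * (b + 1 + (1 + 3 * (x + 1)) * (b + 2))) ≤ 56 * (x * (x * b)) := by
    calc (x + 1) * (b + 3 * (b + 1 + (1 + 3 * (x + 1)) * (b + 2)))
        ≤ (2 * x) * (28 * (x * b)) := Nat.mul_le_mul (by omega) f4
      _ = 56 * (x * (x * b)) := by ring
  have f6 : x * b ≤ x * (x * b) := Nat.le_mul_of_pos_left _ (by omega)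
  have f7 : 8 * (b + 1 + (x + 1) * (b + 3 * (b + 1 + (1 + 3 * (x + 1)) * (b + 2)))) ≤
      456 * (x * (x * b)) := by omega
  refine f7.trans ?_
  calc 456 * (x * (x * b)) = (456 * 1) * (x ^ 2 * b) := by ring
    _ ≤ (208 * x ^ 2) * (x ^ 2 * b) := by
        refine Nat.mul_le_mul_right _ ?_
        nlinarith
    _ = 208 * x ^ 4 * b := by ring

end Pool.Agent.MP_9cec2c_lc.ShortLines
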