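import Mathlib
import Pool.Agent.Lib.MP_9cec2c_lc.SLMain
import Pool.Agent.Lib.MP_9cec2c_lc.SUNum
import Pool.Agent.Lib.MP_9cec2c_lc.SUDefs
import Pool.Agent.Lib.MP_9cec2c_lc.SUAsm

/-!
Size of refutations and size of their tree unfoldings: the main theorem.
-/

namespace Pool.Agent.MP_9cec2c_lc.Unfolding

open Pool.Agent.MP_9cec2c_lc.ShortLines
  (Cube Lit Clause Holds cnf cl viol falsity neg Dag holds_cl)

lemma logb_two_mul_ge_one {S : ℕ} (hS : 1 ≤ S) : 1 ≤ Real.logb 2 (2 * (S : ℝ)) := by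
  have h1 : (1 : ℝ) ≤ S := by exact_mod_cast hS
  rw [Real.le_logb_iff_rpow_le (by norm_num) (by positivity), Real.rpow_one]
  linarith

lemma logb_card_le {S S' : ℕ} (hS : 1 ≤ S) (hS'0 : 0 < S')
    (hS' : S' ≤ (S ^ 2 + 2 * S) * (S ^ 2 + 2 * S + 1)) :
    Real.logb 2 (2 * (S' : ℝ)) ≤ 5 * Real.logb 2 (2 * (S : ℝ)) := by
  have h1 : (S ^ 2 + 2 * S) * (S ^ 2 + 2 * S + 1) ≤ 16 * S ^ 5 := by
    have h2 : S ^ 2 + 2 * S ≤ 3 * S ^ 2 := by nlinarith
    have h3 : S ^ 2 + 2 * S + 1 ≤ 4 * S ^ 2 := by nlinarith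
    calc (S ^ 2 + 2 * S) * (S ^ 2 + 2 * S + 1) ≤ (3 * S ^ 2) * (4 * S ^ 2) :=
          Nat.mul_le_mul h2 h3
      _ = 12 * S ^ 4 * 1 := by ring
      _ ≤ 16 * S ^ 4 * S := Nat.mul_le_mul (Nat.mul_le_mul (by norm_num) le_rfl) hS
      _ = 16 * S ^ 5 := by ring
  have h2 : 2 * S' ≤ (2 * S) ^ 5 := by
    calc 2 * S' ≤ 2 * (16 * S ^ 5) := Nat.mul_le_mul le_rfl (hS'.trans h1)
      _ = (2 * S) ^ 5 := by ring
  have h3 : 2 * (S' : ℝ) ≤ (2 * (S : ℝ)) ^ 5 := by exact_mod_cast h2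
  have h4 : (0 : ℝ) < 2 * (S' : ℝ) := by
    have : (0 : ℝ) < S' := by exact_mod_cast hS'0
    positivity
  calc Real.logb 2 (2 * (S' : ℝ)) ≤ Real.logb 2 ((2 * (S : ℝ)) ^ 5) :=
        Real.logb_le_logb_of_le (by norm_num) h4 h3
    _ = 5 * Real.logb 2 (2 * (S : ℝ)) := by
        rw [Real.logb_pow]
        norm_num

lemma natLog_le {T : ℕ} (hT : 1 ≤ T) :
    ((2 * Nat.log 2 (3 * T) : ℕ) : ℝ) ≤ 4 * Real.logb 2 (2 * (T : ℝ)) := by
  have h1 : (Nat.log 2 (3 * T) : ℝ) ≤ Real.logb 2 ((3 * T : ℕ) : ℝ) := Real.natLog_le_logb _ _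
  have h2 : 3 * T ≤ (2 * T) ^ 2 := by nlinarith
  have h3 : ((3 * T : ℕ) : ℝ) ≤ (2 * (T : ℝ)) ^ 2 := by exact_mod_cast h2
  have h4 : (0 : ℝ) < ((3 * T : ℕ) : ℝ) := by
    have : 0 < 3 * T := by omega
    exact_mod_cast this
  have h5 : Real.logb 2 ((3 * T : ℕ) : ℝ) ≤ 2 * Real.logb 2 (2 * (T : ℝ)) := by
    calc Real.logb 2 ((3 * T : ℕ) : ℝ) ≤ Real.logb 2 ((2 * (T : ℝ)) ^ 2) :=
          Real.logb_le_logb_of_le (by norm_num) h4 h3
      _ = 2 * Real.logb 2 (2 * (T : ℝ)) := by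
          rw [Real.logb_pow]
          norm_num
  push_cast
  linarith

lemma logb_two_three_le : Real.logb 2 ((3 : ℕ) : ℝ) ≤ 2 := by
  rw [Real.logb_le_iff_le_rpow (by norm_num) (by norm_num)]
  norm_num

/-- The arithmetic of the reduction. -/
lemma final_bound {n S T S' : ℕ} {δ : ℝ} (hS : 1 ≤ S) (hT : 1 ≤ T) (hS'0 : 0 < S')
    (hS' : S' ≤ (S ^ 2 + 2 * S) * (S ^ 2 + 2 * S + 1))
    (h : 2 * Nat.log 2 (3 * T) ≤ n ^ 2 →
      δ * (n : ℝ) ^ 2 ≤ ((2 * Nat.log 2 (3 * T) : ℕ) : ℝ) * Real.logb 2 (2 * (S' : ℝ)) *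
        Real.logb 2 ((3 : ℕ) : ℝ)) :
    min (δ / 40) (1 / 4) * (n : ℝ) ^ 2 ≤ Real.logb 2 (2 * (S : ℝ)) * Real.logb 2 (2 * (T : ℝ)) := by
  have hlS := logb_two_mul_ge_one hS
  have hlT := logb_two_mul_ge_one hT
  have hDle := natLog_le hT
  have hn2 : (0 : ℝ) ≤ (n : ℝ) ^ 2 := by positivity
  by_cases hD : 2 * Nat.log 2 (3 * T) ≤ n ^ 2
  · have h1 := h hD
    have h2 := logb_card_le hS hS'0 hS'
    have h3 := logb_two_three_le
    have h4 : (0 : ℝ) ≤ Real.logb 2 (2 * (S' : ℝ)) := by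
      have := logb_two_mul_ge_one (S := S') hS'0
      linarith
    have h5 : (0 : ℝ) ≤ Real.logb 2 ((3 : ℕ) : ℝ) :=
      Real.logb_nonneg (by norm_num) (by norm_num)
    have h6 : ((2 * Nat.log 2 (3 * T) : ℕ) : ℝ) * Real.logb 2 (2 * (S' : ℝ)) *
        Real.logb 2 ((3 : ℕ) : ℝ) ≤
        (4 * Real.logb 2 (2 * (T : ℝ))) * (5 * Real.logb 2 (2 * (S : ℝ))) * 2 := by
      apply mul_le_mul _ h3 h5 (by positivity)
      exact mul_le_mul hDle h2 h4 (by positivity)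
    have h7 : δ * (n : ℝ) ^ 2 ≤ 40 * (Real.logb 2 (2 * (S : ℝ)) * Real.logb 2 (2 * (T : ℝ))) := by
      refine (h1.trans h6).trans (le_of_eq ?_)
      ring
    calc min (δ / 40) (1 / 4) * (n : ℝ) ^ 2 ≤ δ / 40 * (n : ℝ) ^ 2 :=
          mul_le_mul_of_nonneg_right (min_le_left _ _) hn2
      _ = δ * (n : ℝ) ^ 2 / 40 := by ring
      _ ≤ Real.logb 2 (2 * (S : ℝ)) * Real.logb 2 (2 * (T : ℝ)) := by
          rw [div_le_iff₀ (by norm_num)]
          linarith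
  · have h1 : n ^ 2 ≤ 2 * Nat.log 2 (3 * T) := (not_le.mp hD).le
    have h3 : (n : ℝ) ^ 2 ≤ ((2 * Nat.log 2 (3 * T) : ℕ) : ℝ) := by exact_mod_cast h1
    have h4 : (n : ℝ) ^ 2 ≤ 4 * Real.logb 2 (2 * (T : ℝ)) := h3.trans hDle
    have h5 : Real.logb 2 (2 * (T : ℝ)) ≤
        Real.logb 2 (2 * (S : ℝ)) * Real.logb 2 (2 * (T : ℝ)) :=
      le_mul_of_one_le_left (by linarith) hlS
    calc min (δ / 40) (1 / 4) * (n : ℝ) ^ 2 ≤ 1 / 4 * (n : ℝ) ^ 2 :=
          mul_le_mul_of_nonneg_right (min_le_right _ _) hn2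
      _ ≤ Real.logb 2 (2 * (S : ℝ)) * Real.logb 2 (2 * (T : ℝ)) := by linarith

/-- The number of lines of the search. -/
lemma card_implSet_le {n : ℕ} {LL : Finset (Cube n → Bool)} {b q s : ℕ} (hb : 1 ≤ b)
    (hbq : b * q ≤ s) (h : LL.card ≤ 2 ^ b) : (implSet LL q).card ≤ 2 ^ (4 * s) := by
  calc (implSet LL q).card ≤ (LL.card + 1) ^ (2 * q) := card_implSet LL q
    _ ≤ (2 ^ (b + 1)) ^ (2 * q) := by
        apply Nat.pow_le_pow_left
        have : 1 ≤ 2 ^ b := Nat.one_le_two_pow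
        rw [pow_succ]
        omega
    _ = 2 ^ ((b + 1) * (2 * q)) := by rw [← pow_mul]
    _ ≤ 2 ^ (4 * s) := by
        apply Nat.pow_le_pow_right (by norm_num)
        calc (b + 1) * (2 * q) ≤ (2 * b) * (2 * q) := Nat.mul_le_mul (by omega) le_rfl
          _ = 4 * (b * q) := by ring
          _ ≤ 4 * s := Nat.mul_le_mul_left _ hbq

/-- A shallow refutation as a graph. -/
theorem exists_dag {n S N w s D : ℕ} (f : Fin N → Fin w → Fin n × Bool)
    (L : Fin S → Cube n → Bool) (hL : Shallow (Finset.univ.image fun i => cl (f i)) s D L) :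
    ∃ (rank : Fin S → ℕ) (ch : Fin S → Finset (Fin S)) (ex : Fin S → Finset (Fin N)),
      Dag (fun i => viol (f i)) (fun v => falsity (L v)) 3 s rank rank ch ex ∧
      (∀ v, rank v ≤ D) ∧ ∃ v, falsity (L v) = Finset.univ := by
  classical
  obtain ⟨⟨v₀, hv₀⟩, rank, hrank, hinf⟩ := hL
  choose P G hP hGF hG hPl hsem using hinf
  have hidx : ∀ v, ∀ C ∈ G v, ∃ i, cl (f i) = C := by
    intro v C hC
    have := hGF v hC
    rw [Finset.mem_image] at this
    obtain ⟨i, _, hi⟩ := this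
    exact ⟨i, hi⟩
  choose idx hidx' using hidx
  refine ⟨rank, P, fun v => (G v).attach.image fun C => idx v C.1 C.2,
    ⟨hP, ?_, ?_, ?_, ?_, ?_⟩, hrank, v₀, ?_⟩
  · intro v
    refine Finset.card_image_le.trans ?_
    rw [Finset.card_attach]
    exact hG v
  · exact fun v u hu => hPl v u hu
  · exact fun v u hu => (hPl v u hu).le
  · exact fun v _ u hu => hPl v u hu
  · intro v x hx
    rw [falsity, Finset.mem_filter] at hx
    rw [Finset.mem_union]
    by_contra hcon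
    rw [not_or] at hcon
    have h1 := hsem v x (by
      intro j hj
      by_contra hne
      apply hcon.1
      rw [Finset.mem_biUnion]
      refine ⟨j, hj, ?_⟩
      rw [falsity, Finset.mem_filter]
      exact ⟨Finset.mem_univ _, Bool.eq_false_iff.mpr hne⟩) (by
      intro C hC
      rw [← hidx' v C hC, holds_cl]
      intro hxC
      apply hcon.2
      rw [Finset.mem_biUnion]
      refine ⟨idx v C hC, ?_, hxC⟩
      rw [Finset.mem_image]
      exact ⟨⟨C, hC⟩, Finset.mem_attach _ _, rfl⟩)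
    rw [hx.2] at h1
    exact absurd h1 (by simp)
  · rw [falsity, Finset.filter_true_of_mem]
    exact fun x _ => hv₀ x

/-- The condition on the size of `s`. -/
lemma pow_le_of_logb {n s M : ℕ} (hn : 2 ≤ n) (hs : 4 ≤ s) {K : ℕ} (hK : 4 * M ≤ K)
    (h : K * Real.logb 2 n * Real.logb 2 s ≤ n) : (4 * s) ^ (M * Nat.clog 2 n) ≤ 2 ^ n := by
  have hnR : (2 : ℝ) ≤ n := by exact_mod_cast hn
  have hsR : (4 : ℝ) ≤ s := by exact_mod_cast hs
  have hln : 1 ≤ Real.logb 2 n := by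
    rw [Real.le_logb_iff_rpow_le (by norm_num) (by linarith), Real.rpow_one]
    exact hnR
  have hls : 2 ≤ Real.logb 2 s := by
    rw [Real.le_logb_iff_rpow_le (by norm_num) (by linarith)]
    norm_num
    exact hs
  have hclog : (Nat.clog 2 n : ℝ) ≤ 2 * Real.logb 2 n := by
    have h1 : (Nat.clog 2 n : ℝ) < Real.logb 2 n + 1 := by
      have h2 := Nat.pow_pred_clog_lt_self (b := 2) (by norm_num) (show 1 < n by omega)
      have hc : 1 ≤ Nat.clog 2 n := Nat.clog_pos (by norm_num) (by omega)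
      have h3 : ((Nat.clog 2 n).pred : ℝ) < Real.logb 2 n := by
        rw [Real.lt_logb_iff_rpow_lt (by norm_num) (by linarith), Real.rpow_natCast]
        exact_mod_cast h2
      have h4 : ((Nat.clog 2 n).pred : ℝ) = (Nat.clog 2 n : ℝ) - 1 := by
        rw [Nat.pred_eq_sub_one, Nat.cast_sub hc, Nat.cast_one]
      rw [h4] at h3
      linarith
    linarith
  have hlog4 : Real.logb 2 ((4 * s : ℕ) : ℝ) ≤ 2 * Real.logb 2 s := by
    have h1 : ((4 * s : ℕ) : ℝ) ≤ (s : ℝ) ^ 2 := by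
      push_cast
      nlinarith
    calc Real.logb 2 ((4 * s : ℕ) : ℝ) ≤ Real.logb 2 ((s : ℝ) ^ 2) :=
          Real.logb_le_logb_of_le (by norm_num) (by push_cast; positivity) h1
      _ = 2 * Real.logb 2 s := by
          rw [Real.logb_pow]
          norm_num
  have hKR : (4 * M : ℝ) ≤ K := by exact_mod_cast hK
  have hM0 : (0 : ℝ) ≤ M := Nat.cast_nonneg M
  have h5 : ((M * Nat.clog 2 n : ℕ) : ℝ) * Real.logb 2 ((4 * s : ℕ) : ℝ) ≤ n := by
    push_cast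
    push_cast at hlog4
    have h6 : (0 : ℝ) ≤ Real.logb 2 (4 * (s : ℝ)) := by
      apply Real.logb_nonneg (by norm_num)
      linarith
    calc (M : ℝ) * (Nat.clog 2 n : ℝ) * Real.logb 2 (4 * (s : ℝ))
        ≤ (M : ℝ) * (2 * Real.logb 2 n) * (2 * Real.logb 2 s) := by
          apply mul_le_mul _ hlog4 h6 (by positivity)
          exact mul_le_mul_of_nonneg_left hclog hM0
      _ = (4 * M) * (Real.logb 2 n * Real.logb 2 s) := by ring
      _ ≤ K * (Real.logb 2 n * Real.logb 2 s) := by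
          apply mul_le_mul_of_nonneg_right hKR
          positivity
      _ = K * Real.logb 2 n * Real.logb 2 s := by ring
      _ ≤ n := h
  have h7 : (0 : ℝ) < ((4 * s : ℕ) : ℝ) := by
    push_cast
    positivity
  have h8 : (((4 * s : ℕ) : ℝ)) ^ (M * Nat.clog 2 n) ≤ (2 : ℝ) ^ n := by
    rw [← Real.rpow_natCast, ← Real.rpow_natCast 2 n]
    calc (((4 * s : ℕ) : ℝ)) ^ ((M * Nat.clog 2 n : ℕ) : ℝ)
        = ((2 : ℝ) ^ Real.logb 2 ((4 * s : ℕ) : ℝ)) ^ ((M * Nat.clog 2 n : ℕ) : ℝ) := by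
          rw [Real.rpow_logb (by norm_num) (by norm_num) h7]
      _ = (2 : ℝ) ^ (((M * Nat.clog 2 n : ℕ) : ℝ) * Real.logb 2 ((4 * s : ℕ) : ℝ)) := by
          rw [← Real.rpow_mul (by norm_num), mul_comm]
      _ ≤ (2 : ℝ) ^ (n : ℝ) := Real.rpow_le_rpow_of_exponent_le (by norm_num) h5
  exact_mod_cast h8

theorem main : ∀ ε : ℝ, 0 < ε → ∃ (K : ℕ) (δ : ℝ), 0 < δ ∧ ∀ᶠ n : ℕ in Filter.atTop,
    ∀ s : ℕ, n ^ K ≤ s → K * Real.logb 2 n * Real.logb 2 s ≤ n →
    ∃ N w : ℕ, (N : ℝ) ≤ (s : ℝ) ^ (1 + ε) ∧ (w : ℝ) ≤ (1 + ε) * Real.logb 2 s ∧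
    ∀ b q : ℕ, 1 ≤ b → 1 ≤ q → b * q ≤ s → ∀ LL : Finset (Cube n → Bool), LL.card ≤ 2 ^ b →
      s * {f : Fin N → Fin w → Lit n | ¬ Hard LL q s δ (cnf f)}.ncard ≤
        Fintype.card (Fin N → Fin w → Lit n) := by
  classical
  intro ε hε
  set e₁ : ℝ := min ε 1 / 3 with he₁
  have he₁0 : 0 < e₁ := by positivity
  have he₁1 : e₁ ≤ 1 / 3 := by
    have := min_le_right ε 1
    rw [he₁]
    linarith
  have he₁2 : 3 * e₁ ≤ ε := by
    have := min_le_left ε 1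
    rw [he₁]
    linarith
  have hee : (1 + e₁) * (1 + e₁) ≤ 1 + ε := by nlinarith
  obtain ⟨e, he1, he2⟩ : ∃ e : ℕ, 1 ≤ e ∧ 2 / (e : ℝ) ≤ e₁ := by
    obtain ⟨e, he⟩ := exists_nat_ge (2 / e₁)
    have h1 : 0 < 2 / e₁ := by positivity
    have h2 : (0 : ℝ) < e := lt_of_lt_of_le h1 he
    refine ⟨e, by exact_mod_cast h2, ?_⟩
    rw [div_le_iff₀ he₁0] at he
    rw [div_le_iff₀ h2]
    linarith
  obtain ⟨R, hR⟩ : ∃ R, R = 2 * (7 * e + 12 + 4) := ⟨_, rfl⟩
  obtain ⟨M, hM⟩ : ∃ M, M = 2 ^ (7 * e + 18) := ⟨_, rfl⟩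
  obtain ⟨K, hK⟩ : ∃ K, K = 28 * e + 4 * M + 1 := ⟨_, rfl⟩
  have hKe : 1 / (K : ℝ) ≤ e₁ := by
    have h1 : (0 : ℝ) < e := by exact_mod_cast he1
    have h2 : (e : ℝ) ≤ K := by
      have : e ≤ K := by omega
      exact_mod_cast this
    calc 1 / (K : ℝ) ≤ 1 / (e : ℝ) := one_div_le_one_div_of_le h1 h2
      _ ≤ 2 / (e : ℝ) := by
          apply div_le_div_of_nonneg_right (by norm_num) h1.le
      _ ≤ e₁ := he2
  refine ⟨K, min (1 / 2 ^ (2 * R + 4) / 40) (1 / 4), by positivity, ?_⟩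
  filter_upwards [ShortLines.few_bad_family' e he1, ShortLines.num_low R,
    ShortLines.sq_le_two_pow_sqrt, Filter.eventually_ge_atTop (2 ^ (R + 1)),
    Filter.eventually_ge_atTop (208 * 2 ^ e)] with n h1 h2 hsq h3 h4 s hsK hslog
  have hn208 : 208 ≤ n := by
    have : 1 ≤ 2 ^ e := Nat.one_le_pow _ _ (by norm_num)
    omega
  have hn1 : 1 ≤ n := by omega
  have hns : n ≤ s := by
    calc n = n ^ 1 := (pow_one n).symm
      _ ≤ n ^ K := Nat.pow_le_pow_right hn1 (by omega)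
      _ ≤ s := hsK
  have hs4 : 4 ≤ s := by omega
  -- the parameter `b = 4 s`
  obtain ⟨b', hb'⟩ : ∃ b', b' = 4 * s := ⟨_, rfl⟩
  obtain ⟨q', hq'⟩ : ∃ q', q' = n ^ 2 := ⟨_, rfl⟩
  have hnq' : n ≤ q' := by
    rw [hq']
    exact Nat.le_self_pow (by norm_num) n
  have hq'b' : q' ^ (14 * e) ≤ b' := by
    rw [hq', ← pow_mul]
    calc n ^ (2 * (14 * e)) ≤ n ^ K := Nat.pow_le_pow_right hn1 (by omega)
      _ ≤ s := hsK
      _ ≤ b' := by omega
  have hb'pow : b' ^ (2 ^ (7 * e + 18) * Nat.clog 2 n) ≤ 2 ^ n := by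
    rw [hb', ← hM]
    exact pow_le_of_logb (by omega) hs4 (by omega) hslog
  obtain ⟨l, hl1, hl2⟩ := ShortLines.exists_l (q := q') (b := b') he1 (h4.trans hnq') (by omega)
  have hsR : (1 : ℝ) ≤ s := by exact_mod_cast (by omega : 1 ≤ s)
  have hb1 : (1 : ℝ) ≤ b' := by exact_mod_cast (by omega : 1 ≤ b')
  have hlogs : 0 ≤ Real.logb 2 s := Real.logb_nonneg (by norm_num) hsR
  have hb's : (b' : ℝ) ≤ (s : ℝ) ^ (1 + e₁) := by
    have hnR : (0 : ℝ) ≤ n := Nat.cast_nonneg n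
    have hK0 : (0 : ℝ) < K := by
      have : 0 < K := by omega
      exact_mod_cast this
    have h5 : (4 : ℝ) ≤ (s : ℝ) ^ (1 / (K : ℝ)) := by
      have h6 : (4 : ℝ) ≤ n := by
        have : 4 ≤ n := by omega
        exact_mod_cast this
      have h7 : ((n : ℝ) ^ K) ≤ s := by exact_mod_cast hsK
      calc (4 : ℝ) ≤ n := h6
        _ = ((n : ℝ) ^ (K : ℝ)) ^ (1 / (K : ℝ)) := by
            rw [← Real.rpow_mul hnR, mul_one_div_cancel hK0.ne', Real.rpow_one]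
        _ ≤ (s : ℝ) ^ (1 / (K : ℝ)) := by
            rw [Real.rpow_natCast]
            exact Real.rpow_le_rpow (by positivity) h7 (by positivity)
    have h8 : (4 : ℝ) ≤ (s : ℝ) ^ e₁ :=
      h5.trans (Real.rpow_le_rpow_of_exponent_le hsR hKe)
    calc (b' : ℝ) = s * 4 := by rw [hb']; push_cast; ring
      _ ≤ s * (s : ℝ) ^ e₁ := mul_le_mul_of_nonneg_left h8 (by linarith)
      _ = (s : ℝ) ^ (1 + e₁) := by
          rw [Real.rpow_add (by linarith), Real.rpow_one]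
  refine ⟨n ^ 2 * 2 ^ ((e + 1) * l), (e + 1) * l, ?_, ?_, ?_⟩
  · calc ((n ^ 2 * 2 ^ ((e + 1) * l) : ℕ) : ℝ)
        ≤ (b' : ℝ) ^ (1 + 2 / (e : ℝ)) := ShortLines.card_bound he1 hn1 hnq' hq'b' hl2
      _ ≤ (b' : ℝ) ^ (1 + e₁) := Real.rpow_le_rpow_of_exponent_le hb1 (by linarith)
      _ ≤ ((s : ℝ) ^ (1 + e₁)) ^ (1 + e₁) :=
          Real.rpow_le_rpow (by linarith) hb's (by linarith)
      _ = (s : ℝ) ^ ((1 + e₁) * (1 + e₁)) := by
          rw [← Real.rpow_mul (by linarith)]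
      _ ≤ (s : ℝ) ^ (1 + ε) := Real.rpow_le_rpow_of_exponent_le hsR hee
  · have hlb : Real.logb 2 b' ≤ (1 + e₁) * Real.logb 2 s := by
      calc Real.logb 2 b' ≤ Real.logb 2 ((s : ℝ) ^ (1 + e₁)) :=
            Real.logb_le_logb_of_le (by norm_num) (by linarith) hb's
        _ = (1 + e₁) * Real.logb 2 s := Real.logb_rpow_eq_mul_logb_of_pos (by linarith)
    have hlb0 : 0 ≤ Real.logb 2 b' := Real.logb_nonneg (by norm_num) hb1
    calc (((e + 1) * l : ℕ) : ℝ)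
        ≤ (1 + 2 / (e : ℝ)) * Real.logb 2 b' :=
          ShortLines.width_bound he1 (by omega) hq'b' hl2
      _ ≤ (1 + e₁) * Real.logb 2 b' := mul_le_mul_of_nonneg_right (by linarith) hlb0
      _ ≤ (1 + e₁) * ((1 + e₁) * Real.logb 2 s) :=
          mul_le_mul_of_nonneg_left hlb (by linarith)
      _ = ((1 + e₁) * (1 + e₁)) * Real.logb 2 s := by ring
      _ ≤ (1 + ε) * Real.logb 2 s := mul_le_mul_of_nonneg_right hee hlogs
  · intro b q hb1' hq1 hbq LL hLL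
    have hcardZ : ((implSet LL q).image falsity).card ≤ 2 ^ b' := by
      rw [hb']
      exact Finset.card_image_le.trans (card_implSet_le hb1' hbq hLL)
    have hbad := h1 q' b' l (1 + 3 * (q' + 1)) hnq' hq'b' hb'pow (by
      refine le_trans ?_ hl1
      have : 1 ≤ 208 * q' ^ 4 := by
        have : 1 ≤ q' ^ 4 := Nat.one_le_pow _ _ (by omega)
        omega
      exact Nat.le_mul_of_pos_left _ (by omega)) hl2 ((implSet LL q).image falsity) hcardZ
    have hcardf : Fintype.card (Fin (n ^ 2 * 2 ^ ((e + 1) * l)) → Fin ((e + 1) * l) → Lit n) =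
        ((2 * n) ^ ((e + 1) * l)) ^ (n ^ 2 * 2 ^ ((e + 1) * l)) := by
      simp [mul_comm]
    rw [hcardf]
    refine le_trans (Nat.mul_le_mul (show s ≤ b' by omega) ?_) hbad
    rw [← Set.ncard_coe_finset]
    refine Set.ncard_le_ncard_of_injOn neg ?_ ShortLines.neg_injective.injOn
      (Finset.finite_toSet _)
    intro f hf
    rw [Finset.mem_coe, Finset.mem_filter]
    refine ⟨Finset.mem_univ _, fun hgood' => hf ?_⟩
    obtain ⟨hunsat, hgood⟩ := hgood'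
    rw [ShortLines.cnf_eq]
    refine ⟨?_, ?_⟩
    · intro x
      obtain ⟨i, hi⟩ := hunsat x
      refine ⟨cl (neg f i), Finset.mem_image_of_mem _ (Finset.mem_univ _), ?_⟩
      rw [holds_cl]
      exact not_not.mpr hi
    · intro S T L hL href
      have hST : 1 ≤ S ∧ 1 ≤ T := by
        obtain ⟨size, ⟨i, hi, -⟩, hsize⟩ := href
        obtain ⟨P, G, -, -, -, h1, -⟩ := hsize i
        have h2 := i.2
        omega
      obtain ⟨hS, hT⟩ := hST
      obtain ⟨S', L', hS'0, hS', hL', href'⟩ := exists_shallow LL hL href hq1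
      refine final_bound hS hT hS'0 hS' fun hD => ?_
      obtain ⟨rank, ch, ex, hdag, hrank, v₀, hv₀⟩ := exists_dag (neg f) L' href'
      have hq'sq : q' ≤ 2 ^ Nat.sqrt n := by
        rw [hq']
        exact hsq
      refine ShortLines.final_ineq (q := q') (m := 3) (by omega) h3 h2 (by norm_num)
        (by omega) hq'sq hS'0 fun k p hkp => ?_
      have hcard : Fintype.card (Cube n) = 2 ^ n := by simp
      refine ShortLines.core (k := k) (p := p) (h := q' + 1) hgood hdag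
        (fun v => Finset.mem_image_of_mem _ (hL' v)) ?_ hrank
        (by omega) ?_ (by positivity) ?_ ?_ v₀ hv₀ ?_
      · intro v
        have := hrank v
        rw [hq']
        omega
      · exact le_rfl
      · have h5 := ShortLines.t_large' (n := n) (b := b') (by omega) (by omega)
        rw [← hq'] at h5
        refine le_trans ?_ (h5.trans hl1)
        have h6 : s ≤ b' := by omega
        gcongr
      · rw [hcard]; positivity
      · rw [hcard, Fintype.card_fin, ← hR]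
        exact hkp

end Pool.Agent.MP_9cec2c_lc.Unfolding
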