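import Mathlib

/-!
Substitution redundancy with a bounded number of extension variables: the public definitions.
-/

set_option autoImplicit false

namespace Pool.Agent.MP_9cec2c_lc.SubstExt

/-- A literal over the set `V` of variables.  The literal `(v, b)` is true under the
assignment `x` exactly when `x v = b`; so `(v, true)` is the variable itself and
`(v, false)` its negation. -/
abbrev Lit (V : Type) := V × Bool

/-- The negation of a literal. -/
def negLit {V : Type} (l : Lit V) : Lit V := (l.1, !l.2)

/-- A clause is a finite set of literals, read as their disjunction. -/
abbrev Clause (V : Type) := Finset (Lit V)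

/-- The assignment `x` satisfies the clause `C`. -/
def Holds {V : Type} (x : V → Bool) (C : Clause V) : Prop := ∃ l ∈ C, x l.1 = l.2

/-- `UnitProp Γ A l`: the literal `l` is obtained by unit propagation from the clauses in `Γ`
and the literals in `A` (taken as assumptions): either `l` is an assumption, or some clause
`G` of `Γ` contains `l` and the negations of all its other literals have been obtained. -/
inductive UnitProp {V : Type} (Γ : Set (Clause V)) (A : Set (Lit V)) : Lit V → Prop
  | init (l : Lit V) : l ∈ A → UnitProp Γ A l
  | step (G : Clause V) (l : Lit V) : G ∈ Γ → l ∈ G →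
      (∀ g ∈ G, g ≠ l → UnitProp Γ A (negLit g)) → UnitProp Γ A l

/-- `RUP Γ C`: the clause `C` has a reverse unit propagation proof from `Γ`, that is, unit
propagation from `Γ` and the negation of `C` reaches a conflict: a clause of `Γ` all
of whose literals are refuted, or a literal obtained together with its negation. -/
def RUP {V : Type} (Γ : Set (Clause V)) (C : Clause V) : Prop :=
  (∃ G ∈ Γ, ∀ g ∈ G, UnitProp Γ {l | negLit l ∈ C} (negLit g)) ∨
    ∃ l, UnitProp Γ {l | negLit l ∈ C} l ∧ UnitProp Γ {l | negLit l ∈ C} (negLit l)

/-- A substitution sends each variable to a truth value or to a literal. -/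
abbrev Subst (V : Type) := V → Bool ⊕ Lit V

/-- The image of a literal under a substitution: a truth value or a literal. -/
def substLit {V : Type} (τ : Subst V) (l : Lit V) : Bool ⊕ Lit V :=
  match τ l.1 with
  | Sum.inl c => Sum.inl (c == l.2)
  | Sum.inr p => Sum.inr (if l.2 then p else negLit p)

/-- The clause `C|τ`: all literals that are images of literals of `C` (images that are truth
values are left out). -/
def substClause {V : Type} [Fintype V] [DecidableEq V] (τ : Subst V) (C : Clause V) :
    Clause V :=
  Finset.univ.filter (fun p => ∃ l ∈ C, substLit τ l = Sum.inr p)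

/-- The substitution satisfies the clause: it sends a literal of `C` to true, or it sends two
literals of `C` to complementary literals. -/
def SubstSat {V : Type} [Fintype V] [DecidableEq V] (τ : Subst V) (C : Clause V) : Prop :=
  (∃ l ∈ C, substLit τ l = Sum.inl true) ∨
    ∃ p, p ∈ substClause τ C ∧ negLit p ∈ substClause τ C

/-- `Redundant Δ Γ C`: for some substitution `τ`, each clause `D` of `Δ` and also `C` itself is
either satisfied by `τ`, or the clause `C ∨ D|τ` has a reverse unit propagation proof from
`Γ`.  (The usual rule of substitution redundancy is the case `Δ = Γ`.) -/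
def Redundant {V : Type} [Fintype V] [DecidableEq V] (Δ Γ : Set (Clause V))
    (C : Clause V) : Prop :=
  ∃ τ : Subst V, ∀ D : Clause V, (D ∈ Δ ∨ D = C) →
    SubstSat τ D ∨ RUP Γ (C ∪ substClause τ D)

/-- The variables of a refutation with `e` extension variables: the `n` variables of the
formula and the extension variables `0, …, e - 1`. -/
abbrev Var (n e : ℕ) := Fin n ⊕ Fin e

/-- The variable is a variable of the formula, or one of the first `t` extension variables. -/
def Avail {n e : ℕ} (t : ℕ) (v : Var n e) : Prop := ∀ j : Fin e, v = Sum.inr j → j.val < t

/-- A clause over the variables of the formula, as a clause over all variables. -/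
def lift {n : ℕ} (e : ℕ) (C : Clause (Fin n)) : Clause (Var n e) :=
  C.image (fun l => (Sum.inl l.1, l.2))

/-- The three clauses that define the extension variable `j` as the conjunction of the two
literals `(d j).1` and `(d j).2`. -/
def defClauses {n e : ℕ} (d : Fin e → Lit (Var n e) × Lit (Var n e)) (j : Fin e) :
    Finset (Clause (Var n e)) :=
  {{(Sum.inr j, false), (d j).1}, {(Sum.inr j, false), (d j).2},
    {(Sum.inr j, true), negLit (d j).1, negLit (d j).2}}

/-- The clauses of `F` together with the definitions of the first `t` extension variables. -/
def base {n e : ℕ} (F : Finset (Clause (Fin n)))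
    (d : Fin e → Lit (Var n e) × Lit (Var n e)) (t : ℕ) : Set (Clause (Var n e)) :=
  {D | (∃ C ∈ F, D = lift e C) ∨ ∃ j : Fin e, j.val < t ∧ D ∈ defClauses d j}

/-- A refutation of `F` with the `S` lines `L 0, …, L (S - 1)` and `e` extension variables.
The extension variable `j` is defined as the conjunction of two literals of older variables;
at line `i` the first `t i` extension variables have been introduced.  One of the lines is
the empty clause.  The line `L i` uses only variables that have been introduced, and it has a
reverse unit propagation proof from, or is redundant over, the clauses of `F`, the definitions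
introduced so far and the earlier lines; the redundancy rule has to preserve only the clauses
of `F` and the definitions introduced so far. -/
def IsRefutation {n e S : ℕ} (F : Finset (Clause (Fin n)))
    (L : Fin S → Clause (Var n e)) : Prop :=
  ∃ (d : Fin e → Lit (Var n e) × Lit (Var n e)) (t : Fin S → ℕ),
    (∀ j : Fin e, Avail j.val (d j).1.1 ∧ Avail j.val (d j).2.1) ∧ Monotone t ∧
    (∃ i, L i = ∅) ∧
    ∀ i : Fin S, (∀ l ∈ L i, Avail (t i) l.1) ∧
      (RUP {D | D ∈ base F d (t i) ∨ ∃ j < i, D = L j} (L i) ∨
        Redundant (base F d (t i)) {D | D ∈ base F d (t i) ∨ ∃ j < i, D = L j} (L i))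

end Pool.Agent.MP_9cec2c_lc.SubstExt
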