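import Pool.Agent.Lib.MP_9cec2c_lc.SXDefs
import Pool.Agent.Lib.MP_9cec2c_lc.SRDet

/-!
The deterministic part of the lower bound with extension variables: invariants and unit
propagation.
-/

set_option autoImplicit false

namespace Pool.Agent.MP_9cec2c_lc.SubstExt

open Finset
open Pool.Agent.MP_9cec2c_lc.SubstRed (bz bz_inj bz_beq bz_ne z2_add_self z2_eq_of_add z2_ne
  unsat_restr impl_restr Ext exists_ext vec rowSum sum_vec_mul gvec cnt uniq vars sum_vec
  mem_uniq mem_vars cnt_union card_vars_le rowSum_congr dom mem_dom notMem_dom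
  uniq_subset_dom)

variable {n k m e : ℕ}

/-- The total assignment with values `y` on the variables of the formula and `ζ` on the
extension variables. -/
def full (ζ : Fin e → Bool) (y : Fin n → Bool) : Var n e → Bool := Sum.elim y ζ

@[simp] theorem full_inl (ζ : Fin e → Bool) (y : Fin n → Bool) (v : Fin n) :
    full ζ y (Sum.inl v) = y v := rfl

@[simp] theorem full_inr (ζ : Fin e → Bool) (y : Fin n → Bool) (j : Fin e) :
    full ζ y (Sum.inr j) = ζ j := rfl

/-- The literal is true under the partial assignment. -/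
def PTrue (ρ : Fin n → Option Bool) (ζ : Fin e → Bool) (l : Lit (Var n e)) : Prop :=
  (∃ v, l.1 = Sum.inl v ∧ ρ v = some l.2) ∨ ∃ j, l.1 = Sum.inr j ∧ ζ j = l.2

theorem PTrue.true {ρ : Fin n → Option Bool} {ζ : Fin e → Bool} {l : Lit (Var n e)}
    (h : PTrue ρ ζ l) {y : Fin n → Bool} (hy : Ext ρ y) : full ζ y l.1 = l.2 := by
  rcases h with ⟨v, h1, h2⟩ | ⟨j, h1, h2⟩
  · rw [h1, full_inl]
    exact hy v _ h2
  · rw [h1, full_inr]
    exact h2

/-- The clause is true under the partial assignment. -/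
def RTrue (ρ : Fin n → Option Bool) (ζ : Fin e → Bool) (D : Clause (Var n e)) : Prop :=
  ∃ l ∈ D, PTrue ρ ζ l

/-- The clause is tautological. -/
def Taut {V : Type} (D : Clause V) : Prop := ∃ l ∈ D, negLit l ∈ D

theorem negLit_negLit {V : Type} (l : Lit V) : negLit (negLit l) = l := by
  simp [negLit]

theorem negLit_ne {V : Type} (l : Lit V) : negLit l ≠ l := by
  intro h
  have := congrArg Prod.snd h
  simp [negLit] at this

theorem lit_or {V : Type} (y : V → Bool) (l : Lit V) :
    y l.1 = l.2 ∨ y (negLit l).1 = (negLit l).2 := by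
  simp only [negLit]
  cases l.2 <;> cases y l.1 <;> simp

theorem not_both {V : Type} (y : V → Bool) (l : Lit V) (h : y l.1 = l.2)
    (h' : y (negLit l).1 = (negLit l).2) : False := by
  simp only [negLit] at h'
  rw [h] at h'
  cases h2 : l.2 <;> simp [h2] at h'

theorem Taut.holds {V : Type} {D : Clause V} (h : Taut D) (y : V → Bool) : Holds y D := by
  obtain ⟨l, h1, h2⟩ := h
  rcases lit_or y l with h3 | h3
  · exact ⟨l, h1, h3⟩
  · exact ⟨_, h2, h3⟩

theorem RTrue.holds {ρ : Fin n → Option Bool} {ζ : Fin e → Bool} {D : Clause (Var n e)}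
    (h : RTrue ρ ζ D) {y : Fin n → Bool} (hy : Ext ρ y) : Holds (full ζ y) D := by
  obtain ⟨l, h1, h2⟩ := h
  exact ⟨l, h1, h2.true hy⟩

/-- The variables of the formula that occur in the clause. -/
def xvars (D : Clause (Var n e)) : Finset (Fin n) :=
  univ.filter (fun v => (Sum.inl v, true) ∈ D ∨ (Sum.inl v, false) ∈ D)

theorem card_xvars_le (D : Clause (Var n e)) : (xvars D).card ≤ D.card := by
  classical
  have h : (xvars D).image (Sum.inl : Fin n → Var n e) ⊆ D.image Prod.fst := by
    intro x hx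
    obtain ⟨v, hv, rfl⟩ := mem_image.1 hx
    simp only [xvars, mem_filter, mem_univ, true_and] at hv
    rcases hv with hv | hv
    · exact mem_image.2 ⟨_, hv, rfl⟩
    · exact mem_image.2 ⟨_, hv, rfl⟩
  have h1 := card_image_of_injective (xvars D) (Sum.inl_injective (α := Fin n) (β := Fin e))
  rw [← h1]
  exact (card_le_card h).trans card_image_le

/-- The restriction extended by the negation of a clause. -/
def negExt (ρ : Fin n → Option Bool) (D : Clause (Var n e)) : Fin n → Option Bool := fun v =>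
  if (ρ v).isSome then ρ v else if (Sum.inl v, true) ∈ D then some false else
    if (Sum.inl v, false) ∈ D then some true else none

theorem negExt_ext {ρ : Fin n → Option Bool} {D : Clause (Var n e)} {y : Fin n → Bool}
    (h : Ext (negExt ρ D) y) : Ext ρ y := by
  intro v c hv
  refine h v c ?_
  simp [negExt, hv]

theorem negExt_not_holds {ρ : Fin n → Option Bool} {ζ : Fin e → Bool}
    {D : Clause (Var n e)} (h1 : ¬ RTrue ρ ζ D)
    (h2 : ¬ Taut D) {y : Fin n → Bool} (h : Ext (negExt ρ D) y) :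
    ¬ Holds (full ζ y) D := by
  rintro ⟨⟨x, c⟩, hl, hy⟩
  simp only at hy
  rcases x with v | j
  · rw [full_inl] at hy
    cases hv : ρ v with
    | some d =>
      have h3 := negExt_ext h v d hv
      refine h1 ⟨(Sum.inl v, c), hl, Or.inl ⟨v, rfl, ?_⟩⟩
      simp only
      rw [hv, ← h3, hy]
    | none =>
      cases c with
      | true =>
        have h3 := h v false (by simp [negExt, hv, hl])
        rw [hy] at h3
        exact absurd h3 (by simp)
      | false =>
        have h4 : (Sum.inl v, true) ∉ D := fun h5 =>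
          h2 ⟨(Sum.inl v, true), h5, by simpa [negLit] using hl⟩
        have h3 := h v true (by simp [negExt, hv, hl, h4])
        rw [hy] at h3
        exact absurd h3 (by simp)
  · rw [full_inr] at hy
    exact h1 ⟨(Sum.inr j, c), hl, Or.inr ⟨j, rfl, hy⟩⟩

theorem ext_negExt {ρ : Fin n → Option Bool} {ζ : Fin e → Bool} {D : Clause (Var n e)}
    {y : Fin n → Bool}
    (hy : Ext ρ y) (hD : ¬ Holds (full ζ y) D) : Ext (negExt ρ D) y := by
  intro v c hv
  unfold negExt at hv
  split_ifs at hv with h1 h2 h3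
  · exact hy v c hv
  · have : y v ≠ true := fun h => hD ⟨(Sum.inl v, true), h2, h⟩
    simp only [Option.some.injEq] at hv
    rw [← hv]
    simpa using this
  · have : y v ≠ false := fun h => hD ⟨(Sum.inl v, false), h3, h⟩
    simp only [Option.some.injEq] at hv
    rw [← hv]
    simpa using this

theorem dom_negExt (ρ : Fin n → Option Bool) (D : Clause (Var n e)) :
    dom (negExt ρ D) ⊆ dom ρ ∪ xvars D := by
  intro v hv
  rw [mem_dom] at hv
  obtain ⟨c, hc⟩ := hv
  unfold negExt at hc
  split_ifs at hc with h1 h2 h3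
  · exact mem_union_left _ (mem_dom.2 ⟨c, hc⟩)
  · exact mem_union_right _ (by simp [xvars, h2])
  · exact mem_union_right _ (by simp [xvars, h3])

/-- All rows in `J` hold. -/
def Rows (H : Fin m → Fin k → Fin n) (b : Fin m → ZMod 2) (J : Finset (Fin m))
    (y : Fin n → Bool) : Prop := ∀ i ∈ J, rowSum (H i) y = b i

/-- Every extension of `ρ` satisfying the rows in `J` satisfies `D`. -/
def Imp (H : Fin m → Fin k → Fin n) (b : Fin m → ZMod 2) (ρ : Fin n → Option Bool)
    (ζ : Fin e → Bool) (J : Finset (Fin m)) (D : Clause (Var n e)) : Prop :=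
  ∀ y, Ext ρ y → Rows H b J y → Holds (full ζ y) D

/-- The invariant. -/
def Inv (H : Fin m → Fin k → Fin n) (b : Fin m → ZMod 2) (ρ : Fin n → Option Bool)
    (ζ : Fin e → Bool) (R : ℕ) (D : Clause (Var n e)) : Prop :=
  ∃ J : Finset (Fin m), J.card ≤ R ∧ Imp H b ρ ζ J D

/-- All the properties used by the deterministic argument. -/
structure Params (R w κ ε1 ε2 θ : ℕ) (H : Fin m → Fin k → Fin n) (b : Fin m → ZMod 2)
    (ρ : Fin n → Option Bool) (I0 : Finset (Fin m)) : Prop where
  hk : 3 ≤ k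
  hkw : k ≤ w
  hR : 2 ≤ R
  hwR : 32 * w ≤ k * R
  sat0 : ∀ y, Ext ρ y → Rows H b I0 y
  exp : ∀ J : Finset (Fin m), J.Nonempty → Disjoint I0 J → J.card ≤ 4 * R →
    13 * k * J.card ≤ 16 * (uniq H J \ dom ρ).card
  hκ : (dom ρ).card + 17 * w ≤ κ
  rigid : SubstRed.Rigid κ ε1 ε2 H
  one : ∀ T : Finset (Fin n), T.Nonempty → T.card ≤ ε1 + θ →
    ∃ i, ∃ a, H i a ∈ T ∧ ∀ a', a' ≠ a → H i a' ∉ T
  odd : ∀ B T : Finset (Fin n), B.card ≤ ε1 → θ ≤ T.card → Disjoint B T →
    ∃ i, (∀ a, H i a ∉ B) ∧ (∑ a, if H i a ∈ T then (1 : ZMod 2) else 0) = 1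
  unsat : ∀ z : Fin n → Bool, ε2 < (univ.filter (fun i => rowSum (H i) z ≠ b i)).card

/-- The lines that the restriction has made harmless. -/
def GoodCl (ρ : Fin n → Option Bool) (ζ : Fin e → Bool) (w : ℕ) (D : Clause (Var n e)) :
    Prop :=
  RTrue ρ ζ D ∨ Taut D ∨ D.card ≤ w

section

variable {R w κ ε1 ε2 θ : ℕ} {H : Fin m → Fin k → Fin n} {b : Fin m → ZMod 2}
  {ρ : Fin n → Option Bool} {ζ : Fin e → Bool} {I0 : Finset (Fin m)}

theorem Rows.mono {I J : Finset (Fin m)} (h : I ⊆ J) {y : Fin n → Bool}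
    (hy : Rows H b J y) : Rows H b I y := fun i hi => hy i (h hi)

theorem rows_union {I J : Finset (Fin m)} {y : Fin n → Bool}
    (hI : Rows H b I y) (hJ : Rows H b J y) : Rows H b (I ∪ J) y := by
  intro i hi
  rcases mem_union.1 hi with hi | hi
  · exact hI i hi
  · exact hJ i hi

/-- Rows in `I0` come for free. -/
theorem rows_of_sdiff (P : Params R w κ ε1 ε2 θ H b ρ I0) {J : Finset (Fin m)}
    {y : Fin n → Bool} (hy : Ext ρ y) (h : Rows H b (J \ I0) y) : Rows H b J y := by
  intro i hi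
  by_cases hi0 : i ∈ I0
  · exact P.sat0 y hy i hi0
  · exact h i (mem_sdiff.2 ⟨hi, hi0⟩)

theorem inv_of_holds {D : Clause (Var n e)} (h : ∀ y, Ext ρ y → Holds (full ζ y) D) :
    Inv H b ρ ζ R D :=
  ⟨∅, by simp, fun y hy _ => h y hy⟩

theorem inv_of_RTrue {D : Clause (Var n e)} (h : RTrue ρ ζ D) : Inv H b ρ ζ R D :=
  inv_of_holds fun _ hy => h.holds hy

theorem inv_of_Taut {D : Clause (Var n e)} (h : Taut D) : Inv H b ρ ζ R D :=
  inv_of_holds fun y _ => h.holds (full ζ y)

theorem holds_mono {V : Type} {y : V → Bool} {D D' : Clause V} (h : D ⊆ D')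
    (hD : Holds y D) : Holds y D' := by
  obtain ⟨l, hl, hy⟩ := hD
  exact ⟨l, h hl, hy⟩

theorem inv_mono {D D' : Clause (Var n e)} (h : D ⊆ D') (hD : Inv H b ρ ζ R D) :
    Inv H b ρ ζ R D' := by
  obtain ⟨J, h1, h2⟩ := hD
  exact ⟨J, h1, fun y hy hJ => holds_mono h (h2 y hy hJ)⟩

theorem gap (P : Params R w κ ε1 ε2 θ H b ρ I0) {J : Finset (Fin m)} (hJ : J.card ≤ 4 * R)
    {D : Clause (Var n e)} (hD : Imp H b ρ ζ J D) (hw : D.card ≤ 4 * w) :
    Inv H b ρ ζ R D := by
  classical
  by_cases h1 : RTrue ρ ζ D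
  · exact inv_of_RTrue h1
  by_cases h2 : Taut D
  · exact inv_of_Taut h2
  obtain ⟨J', hJ', hne, hsum, hunsat⟩ := unsat_restr (fun i => vec (H i)) b (J \ I0)
    (negExt ρ D) (by
    intro y hy hall
    simp only [sum_vec_mul] at hall
    exact negExt_not_holds h1 h2 hy (hD y (negExt_ext hy)
      (rows_of_sdiff P (negExt_ext hy) hall)))
  have h3 := uniq_subset_dom hsum
  have h4 : (uniq H J' \ dom ρ).card ≤ 4 * w := by
    have : uniq H J' \ dom ρ ⊆ xvars D := by
      intro v hv
      rw [mem_sdiff] at hv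
      rcases mem_union.1 (dom_negExt ρ D (h3 hv.1)) with h5 | h5
      · exact absurd h5 hv.2
      · exact h5
    exact (card_le_card this).trans ((card_xvars_le D).trans hw)
  have h5 := P.exp J' hne (disjoint_of_subset_right hJ' disjoint_sdiff)
    ((card_le_card (hJ'.trans sdiff_subset)).trans hJ)
  have h6 := P.hwR
  have h7 : J'.card ≤ R := by
    have hk : 0 < k := by have := P.hk; omega
    have h8 : 13 * (k * J'.card) ≤ 13 * (k * R) := by
      calc 13 * (k * J'.card) = 13 * k * J'.card := by ring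
        _ ≤ 16 * (4 * w) := by omega
        _ ≤ 13 * (k * R) := by omega
    exact Nat.le_of_mul_le_mul_left (Nat.le_of_mul_le_mul_left h8 (by norm_num)) hk
  refine ⟨J', h7, fun y hy hall => ?_⟩
  by_contra hno
  refine hunsat y (ext_negExt hy hno) ?_
  intro i hi
  rw [sum_vec_mul]
  exact hall i hi

theorem inv_res (P : Params R w κ ε1 ε2 θ H b ρ I0) {D D1 D2 : Clause (Var n e)}
    (h1 : Inv H b ρ ζ R D1)
    (h2 : Inv H b ρ ζ R D2) (hw : D.card ≤ 4 * w)
    (h : ∀ y, Ext ρ y → Holds (full ζ y) D1 → Holds (full ζ y) D2 → Holds (full ζ y) D) :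
    Inv H b ρ ζ R D := by
  classical
  obtain ⟨J1, hc1, hi1⟩ := h1
  obtain ⟨J2, hc2, hi2⟩ := h2
  refine gap P (J := J1 ∪ J2) ?_ ?_ hw
  · exact (card_union_le _ _).trans (by omega)
  · intro y hy hall
    exact h y hy (hi1 y hy (hall.mono subset_union_left))
      (hi2 y hy (hall.mono subset_union_right))

theorem elim_lits (P : Params R w κ ε1 ε2 θ H b ρ I0) {A B G : Clause (Var n e)}
    (hA : A.card ≤ 3 * w)
    (hBA : B ⊆ A) (hG : G.card ≤ w) (hGI : Inv H b ρ ζ R G) (T : Finset (Lit (Var n e)))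
    (hT : ∀ g ∈ T, Inv H b ρ ζ R (insert (negLit g) B)) :
    Inv H b ρ ζ R (A ∪ (G \ T)) := by
  classical
  induction T using Finset.induction_on with
  | empty => exact inv_mono (by simp [subset_union_right]) hGI
  | insert g T hg ih =>
    have h1 := ih fun g' hg' => hT g' (mem_insert_of_mem hg')
    have h2 := hT g (mem_insert_self _ _)
    refine inv_res P h1 h2 ?_ ?_
    · refine (card_union_le _ _).trans ?_
      have : (G \ insert g T).card ≤ w := (card_le_card sdiff_subset).trans hG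
      omega
    · intro y hy hh1 hh2
      obtain ⟨l2, hl2, hy2⟩ := hh2
      rcases mem_insert.1 hl2 with rfl | hl2
      · obtain ⟨l1, hl1, hy1⟩ := hh1
        by_cases h3 : l1 = g
        · subst h3
          exact (not_both _ l1 hy1 hy2).elim
        · refine ⟨l1, ?_, hy1⟩
          simp only [mem_union, mem_sdiff, mem_insert] at hl1 ⊢
          tauto
      · exact ⟨l2, mem_union_left _ (hBA hl2), hy2⟩

theorem up_lemma (P : Params R w κ ε1 ε2 θ H b ρ I0) {Γ : Set (Clause (Var n e))}
    (hΓ : ∀ G ∈ Γ, Inv H b ρ ζ R G ∧ GoodCl ρ ζ w G) {B : Clause (Var n e)}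
    (hB : B.card ≤ 2 * w)
    {l : Lit (Var n e)} (h : UnitProp Γ {l | negLit l ∈ B} l) :
    Inv H b ρ ζ R (insert l B) := by
  classical
  have hk := P.hk
  have hkw := P.hkw
  induction h with
  | init l hl =>
    exact inv_of_Taut ⟨l, mem_insert_self _ _, mem_insert_of_mem hl⟩
  | step G l hG hlG _ ih =>
    obtain ⟨hGI, hgood⟩ := hΓ G hG
    rcases hgood with ⟨g, hg, hρ⟩ | ⟨g, hg, hg'⟩ | hcard
    · by_cases hgl : g = l
      · subst hgl
        exact inv_of_RTrue ⟨g, mem_insert_self _ _, hρ⟩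
      · obtain ⟨J, hJ, hi⟩ := ih g hg hgl
        refine ⟨J, hJ, fun y hy hall => ?_⟩
        obtain ⟨l', hl', hy'⟩ := hi y hy hall
        rcases mem_insert.1 hl' with rfl | hl'
        · exact (not_both _ g (hρ.true hy) hy').elim
        · exact ⟨l', mem_insert_of_mem hl', hy'⟩
    · by_cases h1 : g = l
      · subst h1
        have := ih (negLit g) hg' (negLit_ne g)
        rwa [negLit_negLit] at this
      · by_cases h2 : negLit g = l
        · have := ih g hg h1
          rwa [h2] at this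
        · refine inv_res P (ih g hg h1) (ih _ hg' h2) ?_ ?_
          · refine (card_insert_le _ _).trans ?_
            omega
          · intro y hy hh1 hh2
            obtain ⟨l1, hl1, hy1⟩ := hh1
            obtain ⟨l2, hl2, hy2⟩ := hh2
            rw [negLit_negLit] at hl2
            rcases mem_insert.1 hl1 with rfl | hl1
            · rcases mem_insert.1 hl2 with rfl | hl2
              · exact (not_both _ _ hy2 hy1).elim
              · exact ⟨l2, mem_insert_of_mem hl2, hy2⟩
            · exact ⟨l1, mem_insert_of_mem hl1, hy1⟩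
    · have := elim_lits P (A := insert l B) (B := B) (G := G)
        ((card_insert_le _ _).trans (by omega)) (subset_insert _ _) hcard hGI (G.erase l)
        (fun g hg => ih g (mem_of_mem_erase hg) (ne_of_mem_erase hg))
      refine inv_mono ?_ this
      intro x hx
      simp only [mem_union, mem_insert, mem_sdiff, mem_erase] at hx ⊢
      tauto

theorem conflict_lemma (P : Params R w κ ε1 ε2 θ H b ρ I0) {Γ : Set (Clause (Var n e))}
    (hΓ : ∀ G ∈ Γ, Inv H b ρ ζ R G ∧ GoodCl ρ ζ w G) {B : Clause (Var n e)}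
    (hB : B.card ≤ 2 * w)
    (h : RUP Γ B) : Inv H b ρ ζ R B := by
  classical
  have hk := P.hk
  have hkw := P.hkw
  rcases h with ⟨G, hG, hall⟩ | ⟨l, h1, h2⟩
  · have ih : ∀ g ∈ G, Inv H b ρ ζ R (insert (negLit g) B) := fun g hg =>
      up_lemma P hΓ hB (hall g hg)
    obtain ⟨hGI, hgood⟩ := hΓ G hG
    rcases hgood with ⟨g, hg, hρ⟩ | ⟨g, hg, hg'⟩ | hcard
    · obtain ⟨J, hJ, hi⟩ := ih g hg
      refine ⟨J, hJ, fun y hy hall => ?_⟩
      obtain ⟨l', hl', hy'⟩ := hi y hy hall
      rcases mem_insert.1 hl' with rfl | hl'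
      · exact (not_both _ g (hρ.true hy) hy').elim
      · exact ⟨l', hl', hy'⟩
    · refine inv_res P (ih g hg) (ih _ hg') (by omega) ?_
      intro y hy hh1 hh2
      obtain ⟨l1, hl1, hy1⟩ := hh1
      obtain ⟨l2, hl2, hy2⟩ := hh2
      rw [negLit_negLit] at hl2
      rcases mem_insert.1 hl1 with rfl | hl1
      · rcases mem_insert.1 hl2 with rfl | hl2
        · exact (not_both _ _ hy2 hy1).elim
        · exact ⟨l2, hl2, hy2⟩
      · exact ⟨l1, hl1, hy1⟩
    · have := elim_lits P (A := B) (B := B) (G := G) (by omega) (Subset.refl _) hcard hGI G ih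
      refine inv_mono ?_ this
      intro x hx
      simp only [mem_union, mem_sdiff] at hx
      tauto
  · have h3 := up_lemma P hΓ hB h1
    have h4 := up_lemma P hΓ hB h2
    refine inv_res P h3 h4 (by omega) ?_
    intro y hy hh1 hh2
    obtain ⟨l1, hl1, hy1⟩ := hh1
    obtain ⟨l2, hl2, hy2⟩ := hh2
    rcases mem_insert.1 hl1 with rfl | hl1
    · rcases mem_insert.1 hl2 with rfl | hl2
      · exact (not_both _ _ hy1 hy2).elim
      · exact ⟨l2, hl2, hy2⟩
    · exact ⟨l1, hl1, hy1⟩

theorem closure_lemma (P : Params R w κ ε1 ε2 θ H b ρ I0) (Y : Finset (Fin n))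
    (hY : 16 * Y.card ≤ k * R) :
    ∃ I : Finset (Fin m), Disjoint I0 I ∧ k * I.card ≤ 16 * Y.card ∧ I.card ≤ R ∧
      ∀ J : Finset (Fin m), J.Nonempty → Disjoint I0 J → Disjoint I J → J.card ≤ R →
        3 * k * J.card < 4 * (uniq H J \ (dom ρ ∪ Y ∪ vars H I)).card := by
  classical
  have hk : 0 < k := by have := P.hk; omega
  let S : Finset (Finset (Fin m)) := univ.filter (fun I => Disjoint I0 I ∧ I.card ≤ 2 * R ∧
    4 * (uniq H I \ (dom ρ ∪ Y)).card ≤ 3 * k * I.card)
  have hS : S.Nonempty := by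
    refine ⟨∅, ?_⟩
    simp [S, uniq, cnt]
  obtain ⟨I, hI, hmax⟩ := exists_max_image S Finset.card hS
  simp only [S, mem_filter, mem_univ, true_and] at hI hmax
  obtain ⟨hI0, hI1, hI2⟩ := hI
  have h1 : k * I.card ≤ 16 * Y.card := by
    rcases I.eq_empty_or_nonempty with rfl | hne
    · simp
    · have h2 := P.exp I hne hI0 (by omega)
      have h3 : (uniq H I \ dom ρ).card ≤ (uniq H I \ (dom ρ ∪ Y)).card + Y.card := by
        refine (card_le_card ?_).trans (card_union_le _ _)
        intro v hv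
        simp only [mem_sdiff, mem_union] at hv ⊢
        tauto
      have h4 : 13 * k * I.card = 13 * (k * I.card) := by ring
      have h5 : 3 * k * I.card = 3 * (k * I.card) := by ring
      omega
  have h2 : I.card ≤ R := by
    have : k * I.card ≤ k * R := h1.trans hY
    exact Nat.le_of_mul_le_mul_left this hk
  refine ⟨I, hI0, h1, h2, fun J hne hdisj0 hdisj hJ => ?_⟩
  by_contra hcon
  push Not at hcon
  have h3 : (I ∪ J).card = I.card + J.card := card_union_of_disjoint hdisj
  have h4 := hmax (I ∪ J) (by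
    refine ⟨disjoint_union_right.2 ⟨hI0, hdisj0⟩, by omega, ?_⟩
    have h5 : uniq H (I ∪ J) \ (dom ρ ∪ Y) ⊆
        (uniq H I \ (dom ρ ∪ Y)) ∪ (uniq H J \ (dom ρ ∪ Y ∪ vars H I)) := by
      intro v hv
      simp only [mem_sdiff, mem_union, mem_uniq, cnt_union hdisj] at hv ⊢
      obtain ⟨hv1, hv2⟩ := hv
      by_cases hv3 : cnt H I v = 0
      · right
        refine ⟨by omega, ?_⟩
        have : v ∉ vars H I := by simp [vars, hv3]
        tauto
      · left
        exact ⟨by omega, hv2⟩
    have h6 := (card_le_card h5).trans (card_union_le _ _)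
    rw [h3]
    have h7 : 3 * k * (I.card + J.card) = 3 * k * I.card + 3 * k * J.card := by ring
    omega)
  have h5 : 0 < J.card := hne.card_pos
  omega

theorem ext_lemma (Y : Finset (Fin n)) (I : Finset (Fin m))
    (hcl : ∀ J : Finset (Fin m), J.Nonempty → Disjoint I0 J → Disjoint I J → J.card ≤ R →
        3 * k * J.card < 4 * (uniq H J \ (dom ρ ∪ Y ∪ vars H I)).card)
    (y : Fin n → Bool) (J : Finset (Fin m)) (hJ0 : Disjoint I0 J) (hJ : Disjoint I J)
    (hc : J.card ≤ R) :
    ∃ y' : Fin n → Bool, (∀ v ∈ dom ρ ∪ Y ∪ vars H I, y' v = y v) ∧ Rows H b J y' := by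
  classical
  let π : Fin n → Option Bool := fun v => if v ∈ dom ρ ∪ Y ∪ vars H I then some (y v) else none
  by_contra hcon
  obtain ⟨J', hJ', hne, hsum, -⟩ := unsat_restr (fun i => vec (H i)) b J π (by
    intro y' hy' hall
    refine hcon ⟨y', fun v hv => hy' v (y v) (by simp only [π, if_pos hv]), ?_⟩
    intro i hi
    rw [← sum_vec_mul]
    exact hall i hi)
  have h1 := uniq_subset_dom hsum
  have h2 : uniq H J' \ (dom ρ ∪ Y ∪ vars H I) = ∅ := by
    rw [sdiff_eq_empty_iff_subset]
    intro v hv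
    have := h1 hv
    rw [mem_dom] at this
    obtain ⟨c, hc⟩ := this
    by_contra hne
    simp only [π, if_neg hne] at hc
    exact absurd hc (by simp)
  have h3 := hcl J' hne (disjoint_of_subset_right hJ' hJ0) (disjoint_of_subset_right hJ' hJ)
    ((card_le_card hJ').trans hc)
  rw [h2] at h3
  simp at h3

end

end Pool.Agent.MP_9cec2c_lc.SubstExt
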