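import Pool.Agent.Lib.MP_9cec2c_lc.SXMain

/-!
Fixing the extension variables by a small restriction.
-/

set_option autoImplicit false

namespace Pool.Agent.MP_9cec2c_lc.SubstExt

open Finset
open Pool.Agent.MP_9cec2c_lc.SubstRed (bz bz_inj bz_beq bz_ne z2_add_self z2_eq_of_add z2_ne
  unsat_restr impl_restr Ext exists_ext vec rowSum sum_vec_mul gvec cnt uniq vars sum_vec
  mem_uniq mem_vars cnt_union card_vars_le rowSum_congr dom mem_dom notMem_dom
  uniq_subset_dom)

variable {n k m e : ℕ}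

/-- `ρ'` extends `ρ`. -/
def Le (ρ ρ' : Fin n → Option Bool) : Prop := ∀ v c, ρ v = some c → ρ' v = some c

theorem Le.refl (ρ : Fin n → Option Bool) : Le ρ ρ := fun _ _ h => h

theorem Le.trans {ρ ρ' ρ'' : Fin n → Option Bool} (h : Le ρ ρ') (h' : Le ρ' ρ'') :
    Le ρ ρ'' := fun v c hv => h' v c (h v c hv)

theorem PTrue.mono {ρ ρ' : Fin n → Option Bool} (h : Le ρ ρ') {ζ : Fin e → Bool}
    {l : Lit (Var n e)} (hl : PTrue ρ ζ l) : PTrue ρ' ζ l := by
  rcases hl with ⟨v, h1, h2⟩ | ⟨j, h1, h2⟩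
  · exact Or.inl ⟨v, h1, h v _ h2⟩
  · exact Or.inr ⟨j, h1, h2⟩

theorem PTrue.update {ρ : Fin n → Option Bool} {ζ : Fin e → Bool} {j : Fin e} {c : Bool}
    {l : Lit (Var n e)} (hav : Avail j.val l.1) (hl : PTrue ρ ζ l) :
    PTrue ρ (Function.update ζ j c) l := by
  rcases hl with ⟨v, h1, h2⟩ | ⟨i, h1, h2⟩
  · exact Or.inl ⟨v, h1, h2⟩
  · refine Or.inr ⟨i, h1, ?_⟩
    have h3 : i.val < j.val := hav i h1
    rw [Function.update_of_ne (by
      intro h4
      rw [h4] at h3
      exact lt_irrefl _ h3)]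
    exact h2

section

variable {H : Fin m → Fin k → Fin n} {b : Fin m → ZMod 2}

/-- Every few rows are consistent with the restriction. -/
def Cons (H : Fin m → Fin k → Fin n) (b : Fin m → ZMod 2) (N : ℕ)
    (ρ : Fin n → Option Bool) : Prop :=
  ∀ J : Finset (Fin m), J.card ≤ N → ∃ y, Ext ρ y ∧ Rows H b J y

theorem small_unsat {M : ℕ} {ρ0 ρ : Fin n → Option Bool} (hk : 0 < k)
    (exp0 : ∀ J : Finset (Fin m), J.Nonempty → J.card ≤ 2 * M →
      15 * k * J.card ≤ 16 * (uniq H J \ dom ρ0).card)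
    {J : Finset (Fin m)} (hJ : J.card ≤ 2 * M)
    (hB : 16 * (dom ρ \ dom ρ0).card ≤ 15 * k * M)
    (h : ¬ ∃ y, Ext ρ y ∧ Rows H b J y) :
    ∃ J' ⊆ J, J'.card ≤ M ∧ ¬ ∃ y, Ext ρ y ∧ Rows H b J' y := by
  classical
  obtain ⟨J', hJ', hne, hsum, hun⟩ := unsat_restr (fun i => vec (H i)) b J ρ (by
    intro y hy hall
    refine h ⟨y, hy, fun i hi => ?_⟩
    rw [← sum_vec_mul]
    exact hall i hi)
  refine ⟨J', hJ', ?_, ?_⟩
  · have h1 := exp0 J' hne ((card_le_card hJ').trans hJ)
    have h2 : uniq H J' \ dom ρ0 ⊆ dom ρ \ dom ρ0 :=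
      sdiff_subset_sdiff (uniq_subset_dom hsum) (Subset.refl _)
    have h3 := card_le_card h2
    have h4 : 15 * (k * J'.card) ≤ 15 * (k * M) := by
      calc 15 * (k * J'.card) = 15 * k * J'.card := by ring
        _ ≤ 15 * k * M := by omega
        _ = 15 * (k * M) := by ring
    exact Nat.le_of_mul_le_mul_left (Nat.le_of_mul_le_mul_left h4 (by norm_num)) hk
  · rintro ⟨y, hy, hrows⟩
    refine hun y hy fun i hi => ?_
    rw [sum_vec_mul]
    exact hrows i hi

theorem cons_init {M : ℕ} {ρ0 : Fin n → Option Bool} (hk : 0 < k)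
    (exp0 : ∀ J : Finset (Fin m), J.Nonempty → J.card ≤ 2 * M →
      15 * k * J.card ≤ 16 * (uniq H J \ dom ρ0).card) : Cons H b (2 * M) ρ0 := by
  classical
  intro J hJ
  by_contra hcon
  obtain ⟨J', hJ', hne, hsum, hun⟩ := unsat_restr (fun i => vec (H i)) b J ρ0 (by
    intro y hy hall
    refine hcon ⟨y, hy, fun i hi => ?_⟩
    rw [← sum_vec_mul]
    exact hall i hi)
  have h1 := exp0 J' hne ((card_le_card hJ').trans hJ)
  rw [sdiff_eq_empty_iff_subset.2 (uniq_subset_dom hsum)] at h1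
  have h2 := hne.card_pos
  simp only [card_empty, mul_zero] at h1
  have h4 : 0 < 15 * k * J'.card := by positivity
  omega

theorem le_update {ρ : Fin n → Option Bool} {v : Fin n} (hv : ρ v = none) (c : Bool) :
    Le ρ (Function.update ρ v (some c)) := by
  intro u c' hu
  rw [Function.update_of_ne (by
    rintro rfl
    rw [hv] at hu
    exact absurd hu (by simp))]
  exact hu

theorem dom_update {ρ : Fin n → Option Bool} {v : Fin n} (c : Bool) :
    dom (Function.update ρ v (some c)) ⊆ insert v (dom ρ) := by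
  intro u hu
  rw [mem_dom] at hu
  obtain ⟨c', hc'⟩ := hu
  by_cases huv : u = v
  · rw [huv]
    exact mem_insert_self _ _
  · rw [Function.update_of_ne huv] at hc'
    exact mem_insert_of_mem (mem_dom.2 ⟨c', hc'⟩)

theorem card_dom_update {ρ ρ0 : Fin n → Option Bool} {v : Fin n} (c : Bool) :
    (dom (Function.update ρ v (some c)) \ dom ρ0).card ≤ (dom ρ \ dom ρ0).card + 1 := by
  have h : dom (Function.update ρ v (some c)) \ dom ρ0 ⊆ insert v (dom ρ \ dom ρ0) := by
    intro u hu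
    rw [mem_sdiff] at hu
    rcases mem_insert.1 (dom_update c hu.1) with h1 | h1
    · rw [h1]
      exact mem_insert_self _ _
    · exact mem_insert_of_mem (mem_sdiff.2 ⟨h1, hu.2⟩)
  exact (card_le_card h).trans (card_insert_le _ _)

theorem ext_update {ρ : Fin n → Option Bool} {v : Fin n} {c : Bool} {y : Fin n → Bool}
    (hy : Ext ρ y) (hv : y v = c) : Ext (Function.update ρ v (some c)) y := by
  intro u c' hu
  by_cases huv : u = v
  · rw [huv] at hu ⊢
    rw [Function.update_self] at hu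
    rw [hv]
    exact Option.some.inj hu
  · rw [Function.update_of_ne huv] at hu
    exact hy u c' hu

theorem cons_step {M : ℕ} {ρ0 ρ : Fin n → Option Bool} (hk : 0 < k)
    (exp0 : ∀ J : Finset (Fin m), J.Nonempty → J.card ≤ 2 * M →
      15 * k * J.card ≤ 16 * (uniq H J \ dom ρ0).card)
    (hρ : Cons H b (2 * M) ρ) (hB : 16 * ((dom ρ \ dom ρ0).card + 1) ≤ 15 * k * M)
    (v : Fin n) : ∃ c, Cons H b (2 * M) (Function.update ρ v (some c)) := by
  classical
  by_contra hcon
  push Not at hcon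
  have h1 := hcon true
  have h2 := hcon false
  unfold Cons at h1 h2
  push Not at h1 h2
  obtain ⟨J1, hJ1, hu1⟩ := h1
  obtain ⟨J2, hJ2, hu2⟩ := h2
  obtain ⟨J1', -, hc1, hu1'⟩ := small_unsat (b := b)
    (ρ := Function.update ρ v (some true)) hk exp0 hJ1 (by
    have := card_dom_update (ρ := ρ) (ρ0 := ρ0) (v := v) true
    omega) (by
    rintro ⟨y, hy, hr⟩
    exact hu1 y hy hr)
  obtain ⟨J2', -, hc2, hu2'⟩ := small_unsat (b := b)
    (ρ := Function.update ρ v (some false)) hk exp0 hJ2 (by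
    have := card_dom_update (ρ := ρ) (ρ0 := ρ0) (v := v) false
    omega) (by
    rintro ⟨y, hy, hr⟩
    exact hu2 y hy hr)
  obtain ⟨y, hy, hr⟩ := hρ (J1' ∪ J2') ((card_union_le _ _).trans (by omega))
  cases hyv : y v with
  | true => exact hu1' ⟨y, ext_update hy hyv, hr.mono subset_union_left⟩
  | false => exact hu2' ⟨y, ext_update hy hyv, hr.mono subset_union_right⟩

/-- One literal can be decided at the cost of one variable. -/
theorem decide_lit {M : ℕ} {ρ0 ρ : Fin n → Option Bool} (hk : 0 < k)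
    (exp0 : ∀ J : Finset (Fin m), J.Nonempty → J.card ≤ 2 * M →
      15 * k * J.card ≤ 16 * (uniq H J \ dom ρ0).card)
    (hρ : Cons H b (2 * M) ρ) (hB : 16 * ((dom ρ \ dom ρ0).card + 1) ≤ 15 * k * M)
    (ζ : Fin e → Bool) (l : Lit (Var n e)) :
    ∃ ρ', Le ρ ρ' ∧ Cons H b (2 * M) ρ' ∧
      (dom ρ' \ dom ρ0).card ≤ (dom ρ \ dom ρ0).card + 1 ∧
      (PTrue ρ' ζ l ∨ PTrue ρ' ζ (negLit l)) := by
  classical
  obtain ⟨x, c⟩ := l
  rcases x with v | j
  · have hcase : ∀ ρ' : Fin n → Option Bool, ∀ c', ρ' v = some c' →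
        (PTrue ρ' ζ ((Sum.inl v, c) : Lit (Var n e)) ∨
          PTrue ρ' ζ (negLit ((Sum.inl v, c) : Lit (Var n e)))) := by
      intro ρ' c' h
      by_cases hcc : c' = c
      · left
        exact Or.inl ⟨v, rfl, by rw [h, hcc]⟩
      · right
        refine Or.inl ⟨v, rfl, ?_⟩
        simp only [negLit]
        rw [h]
        cases c <;> cases c' <;> simp_all
    cases hv : ρ v with
    | some c' => exact ⟨ρ, Le.refl _, hρ, by omega, hcase ρ c' hv⟩
    | none =>
      obtain ⟨c', hc'⟩ := cons_step hk exp0 hρ hB v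
      exact ⟨_, le_update hv c', hc', card_dom_update c', hcase _ c' (by simp)⟩
  · refine ⟨ρ, Le.refl _, hρ, by omega, ?_⟩
    by_cases hz : ζ j = c
    · left
      exact Or.inr ⟨j, rfl, hz⟩
    · right
      refine Or.inr ⟨j, rfl, ?_⟩
      simp only [negLit]
      cases c <;> cases h : ζ j <;> simp_all

theorem kill_aux {M : ℕ} {ρ0 : Fin n → Option Bool} (hk : 0 < k)
    (exp0 : ∀ J : Finset (Fin m), J.Nonempty → J.card ≤ 2 * M →
      15 * k * J.card ≤ 16 * (uniq H J \ dom ρ0).card)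
    (hM : 16 * e ≤ k * M)
    (d : Fin e → Lit (Var n e) × Lit (Var n e))
    (hav : ∀ j : Fin e, Avail j.val (d j).1.1 ∧ Avail j.val (d j).2.1) :
    ∀ s ≤ e, ∃ (ρ : Fin n → Option Bool) (ζ : Fin e → Bool), Le ρ0 ρ ∧
      Cons H b (2 * M) ρ ∧ (dom ρ \ dom ρ0).card ≤ 2 * s ∧
      ∀ j : Fin e, j.val < s →
        ((ζ j = false ∧ (PTrue ρ ζ (negLit (d j).1) ∨ PTrue ρ ζ (negLit (d j).2))) ∨
        (ζ j = true ∧ PTrue ρ ζ (d j).1 ∧ PTrue ρ ζ (d j).2)) := by
  classical
  intro s
  induction s with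
  | zero =>
    intro _
    exact ⟨ρ0, fun _ => false, Le.refl _, cons_init hk exp0, by simp, by simp⟩
  | succ s ih =>
    intro hs
    obtain ⟨ρ, ζ, h1, h2, h3, h4⟩ := ih (by omega)
    let j : Fin e := ⟨s, by omega⟩
    have hbound : ∀ t, t ≤ 2 * e → 16 * t ≤ 15 * k * M := by
      intro t ht
      have : 15 * k * M = 15 * (k * M) := by ring
      omega
    obtain ⟨ρ1, g1, g2, g3, g4⟩ := decide_lit hk exp0 h2 (hbound _ (by omega)) ζ (d j).1
    obtain ⟨ρ2, f1, f2, f3, f4⟩ := decide_lit hk exp0 g2 (hbound _ (by omega)) ζ (d j).2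
    have g4' : PTrue ρ2 ζ (d j).1 ∨ PTrue ρ2 ζ (negLit (d j).1) :=
      g4.imp (PTrue.mono f1) (PTrue.mono f1)
    have hle : Le ρ ρ2 := g1.trans f1
    -- the value of the new variable
    have hval : ∃ c, (c = false ∧ (PTrue ρ2 ζ (negLit (d j).1) ∨
        PTrue ρ2 ζ (negLit (d j).2))) ∨
        (c = true ∧ PTrue ρ2 ζ (d j).1 ∧ PTrue ρ2 ζ (d j).2) := by
      rcases g4' with g4' | g4'
      · rcases f4 with f4 | f4
        · exact ⟨true, Or.inr ⟨rfl, g4', f4⟩⟩
        · exact ⟨false, Or.inl ⟨rfl, Or.inr f4⟩⟩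
      · exact ⟨false, Or.inl ⟨rfl, Or.inl g4'⟩⟩
    obtain ⟨c, hc⟩ := hval
    refine ⟨ρ2, Function.update ζ j c, h1.trans hle, f2, by omega, ?_⟩
    intro i hi
    rcases Nat.lt_succ_iff_lt_or_eq.1 hi with hi | hi
    · have hij : i ≠ j := by
        intro h
        rw [h] at hi
        exact lt_irrefl _ hi
      have havi := hav i
      have hup : ∀ l : Lit (Var n e), Avail i.val l.1 → PTrue ρ ζ l →
          PTrue ρ2 (Function.update ζ j c) l := by
        intro l hl hp
        refine PTrue.update ?_ (hp.mono hle)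
        intro i' hi'
        have := hl i' hi'
        change i'.val < s
        omega
      rw [Function.update_of_ne hij]
      rcases h4 i hi with ⟨h5, h6⟩ | ⟨h5, h6, h7⟩
      · left
        refine ⟨h5, h6.imp (hup _ havi.1) (hup _ havi.2)⟩
      · right
        exact ⟨h5, hup _ havi.1 h6, hup _ havi.2 h7⟩
    · have hij : i = j := Fin.ext hi
      rw [hij, Function.update_self]
      have hup : ∀ l : Lit (Var n e), Avail j.val l.1 → PTrue ρ2 ζ l →
          PTrue ρ2 (Function.update ζ j c) l := fun l hl hp => PTrue.update hl hp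
      rcases hc with ⟨h5, h6⟩ | ⟨h5, h6, h7⟩
      · left
        exact ⟨h5, h6.imp (hup _ (hav j).1) (hup _ (hav j).2)⟩
      · right
        exact ⟨h5, hup _ (hav j).1 h6, hup _ (hav j).2 h7⟩

theorem kill {M R : ℕ} {ρ0 : Fin n → Option Bool} (hk : 0 < k)
    (exp0 : ∀ J : Finset (Fin m), J.Nonempty → J.card ≤ 2 * M →
      15 * k * J.card ≤ 16 * (uniq H J \ dom ρ0).card)
    (hM : 16 * e ≤ k * M) (hRM : 4 * R ≤ M)
    (d : Fin e → Lit (Var n e) × Lit (Var n e))
    (hav : ∀ j : Fin e, Avail j.val (d j).1.1 ∧ Avail j.val (d j).2.1) :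
    ∃ (ρ : Fin n → Option Bool) (ζ : Fin e → Bool) (I0 : Finset (Fin m)), Le ρ0 ρ ∧
      (dom ρ).card ≤ (dom ρ0).card + 18 * e ∧ Determined ρ ζ d ∧
      (∀ y, Ext ρ y → Rows H b I0 y) ∧
      ∀ J : Finset (Fin m), J.Nonempty → Disjoint I0 J → J.card ≤ 4 * R →
        13 * k * J.card ≤ 16 * (uniq H J \ dom ρ).card := by
  classical
  obtain ⟨ρ1, ζ, h1, h2, h3, h4⟩ := kill_aux (b := b) hk exp0 hM d hav e (le_refl _)
  let S : Finset (Finset (Fin m)) := univ.filter (fun I => I.card ≤ 2 * M ∧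
    16 * (uniq H I \ dom ρ1).card ≤ 13 * k * I.card)
  have hS : S.Nonempty := by
    refine ⟨∅, ?_⟩
    simp [S, uniq, cnt]
  obtain ⟨I0, hI0, hmax⟩ := exists_max_image S Finset.card hS
  simp only [S, mem_filter, mem_univ, true_and] at hI0 hmax
  obtain ⟨hI1, hI2⟩ := hI0
  have h5 : k * I0.card ≤ 16 * e := by
    rcases I0.eq_empty_or_nonempty with rfl | hne
    · simp
    · have h6 := exp0 I0 hne hI1
      have h7 : (uniq H I0 \ dom ρ0).card ≤ (uniq H I0 \ dom ρ1).card +
          (dom ρ1 \ dom ρ0).card := by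
        refine (card_le_card ?_).trans (card_union_le _ _)
        intro v hv
        simp only [mem_sdiff, mem_union] at hv ⊢
        tauto
      have h8 : 15 * k * I0.card = 15 * (k * I0.card) := by ring
      have h9 : 13 * k * I0.card = 13 * (k * I0.card) := by ring
      omega
  have h6 : I0.card ≤ M := by
    have : k * I0.card ≤ k * M := h5.trans hM
    exact Nat.le_of_mul_le_mul_left this hk
  obtain ⟨y, hy, hrows⟩ := h2 I0 hI1
  let ρ2 : Fin n → Option Bool := fun v =>
    if (ρ1 v).isSome then ρ1 v else if v ∈ vars H I0 then some (y v) else none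
  have hle : Le ρ1 ρ2 := by
    intro v c hv
    simp [ρ2, hv]
  have hdom : dom ρ2 = dom ρ1 ∪ vars H I0 := by
    ext v
    rw [mem_union, mem_dom, mem_dom]
    cases hv : ρ1 v with
    | some c => simp [ρ2, hv]
    | none =>
      by_cases hv' : v ∈ vars H I0 <;> simp [ρ2, hv, hv']
  have hy2 : ∀ y', Ext ρ2 y' → ∀ v ∈ vars H I0, y' v = y v := by
    intro y' hy' v hv
    cases hv1 : ρ1 v with
    | some c => rw [hy' v c (hle v c hv1), hy v c hv1]
    | none => exact hy' v (y v) (by simp [ρ2, hv1, hv])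
  refine ⟨ρ2, ζ, I0, h1.trans hle, ?_, ?_, ?_, ?_⟩
  · rw [hdom]
    have h7 := card_union_le (dom ρ1) (vars H I0)
    have h8 := card_vars_le H I0
    have h9 : (dom ρ1).card ≤ (dom ρ0).card + (dom ρ1 \ dom ρ0).card := by
      refine (card_le_card ?_).trans (card_union_le _ _)
      intro v hv
      simp only [mem_sdiff, mem_union]
      tauto
    omega
  · intro j
    rcases h4 j j.isLt with ⟨h7, h8⟩ | ⟨h7, h8, h9⟩
    · left
      exact ⟨h7, h8.imp (PTrue.mono hle) (PTrue.mono hle)⟩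
    · right
      exact ⟨h7, h8.mono hle, h9.mono hle⟩
  · intro y' hy' i hi
    rw [← hrows i hi]
    refine rowSum_congr fun a => ?_
    exact hy2 y' hy' _ (mem_vars.2 ⟨i, hi, a, rfl⟩)
  · intro J hne hdisj hJ
    by_contra hcon
    push Not at hcon
    have h7 : (I0 ∪ J).card = I0.card + J.card := card_union_of_disjoint hdisj
    have h8 := hmax (I0 ∪ J) (by
      refine ⟨by omega, ?_⟩
      have h9 : uniq H (I0 ∪ J) \ dom ρ1 ⊆
          (uniq H I0 \ dom ρ1) ∪ (uniq H J \ dom ρ2) := by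
        intro v hv
        rw [hdom]
        simp only [mem_sdiff, mem_union, mem_uniq, cnt_union hdisj] at hv ⊢
        obtain ⟨hv1, hv2⟩ := hv
        by_cases hv3 : cnt H I0 v = 0
        · right
          refine ⟨by omega, ?_⟩
          have : v ∉ vars H I0 := by simp [vars, hv3]
          tauto
        · left
          exact ⟨by omega, hv2⟩
      have h10 := (card_le_card h9).trans (card_union_le _ _)
      rw [h7]
      have h11 : 13 * k * (I0.card + J.card) = 13 * k * I0.card + 13 * k * J.card := by ring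
      omega)
    have h9 : 0 < J.card := hne.card_pos
    omega

end

end Pool.Agent.MP_9cec2c_lc.SubstExt
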