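import Pool.Agent.Lib.MP_9cec2c_lc.SRExpand
import Pool.Agent.Lib.MP_9cec2c_lc.SXKill

/-!
Stronger expansion, and the random restriction, for the version with extension variables.
-/

set_option autoImplicit false

namespace Pool.Agent.MP_9cec2c_lc.SubstExt

open Finset
open Pool.Agent.MP_9cec2c_lc.SubstRed (Ext cnt uniq vars mem_uniq mem_vars card_vars_le
  dom mem_dom notMem_dom pr pr_eq pr_nonneg pr_mono pr_le_one exists_of_pr_lt_one pr_or
  pr_exists pr_exists_fintype pr_false indep indep_fixed sum_pow_card pr_mem_le pr_not)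

variable {n k m e : ℕ}

/-- Strong vertex expansion of small sets of rows. -/
def Expand (N : ℕ) (H : Fin m → Fin k → Fin n) : Prop :=
  ∀ J : Finset (Fin m), J.Nonempty → J.card ≤ N → 63 * (k * J.card) < 64 * (vars H J).card

theorem choose_bound (n D e : ℕ) (hn : 0 < n) (hD : 64 * D ≤ 63 * e)
    (he : 2 ^ 256 * e ≤ n) :
    (n.choose D : ℝ) * ((D : ℝ) / n) ^ e ≤ (3 / 16) ^ e := by
  have hn' : (0 : ℝ) < n := by exact_mod_cast hn
  have hDe : D ≤ e := by omega
  have h1 : (n.choose D : ℝ) * ((D : ℝ) / n) ^ D ≤ 3 ^ e := by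
    have h2 : (n.choose D : ℝ) ≤ (n : ℝ) ^ D / (D.factorial : ℝ) := Nat.choose_le_pow_div D n
    have h3 : (D : ℝ) ^ D / (D.factorial : ℝ) ≤ Real.exp D :=
      Real.pow_div_factorial_le_exp _ (by positivity) D
    have h4 : Real.exp D ≤ 3 ^ D := by
      have h5 : Real.exp (D : ℝ) = Real.exp 1 ^ D := by
        rw [← Real.exp_nat_mul, mul_one]
      rw [h5]
      have := Real.exp_one_lt_three
      gcongr
    calc (n.choose D : ℝ) * ((D : ℝ) / n) ^ D ≤
        ((n : ℝ) ^ D / (D.factorial : ℝ)) * ((D : ℝ) / n) ^ D := by gcongr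
      _ = (D : ℝ) ^ D / (D.factorial : ℝ) := by
          rw [div_pow]
          field_simp
      _ ≤ 3 ^ D := h3.trans h4
      _ ≤ 3 ^ e := pow_le_pow_right₀ (by norm_num) hDe
  have h2 : ((D : ℝ) / n) ^ (e - D) ≤ (1 / 16) ^ e := by
    have h3 : (D : ℝ) / n ≤ (1 / 16) ^ 64 := by
      rw [div_le_iff₀ hn']
      have h4 : (2 ^ 256 * D : ℝ) ≤ n := by
        have : 2 ^ 256 * D ≤ n := (Nat.mul_le_mul_left _ hDe).trans he
        exact_mod_cast this
      have h5 : ((1 : ℝ) / 16) ^ 64 * 2 ^ 256 = 1 := by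
        rw [show ((2 : ℝ) ^ 256) = 16 ^ 64 by norm_num, ← mul_pow]
        norm_num
      calc (D : ℝ) = (1 / 16) ^ 64 * 2 ^ 256 * D := by rw [h5, one_mul]
        _ = (1 / 16) ^ 64 * (2 ^ 256 * D) := by ring
        _ ≤ (1 / 16) ^ 64 * n := by gcongr
    calc ((D : ℝ) / n) ^ (e - D) ≤ ((1 / 16) ^ 64) ^ (e - D) := by gcongr
      _ = (1 / 16) ^ (64 * (e - D)) := by rw [pow_mul]
      _ ≤ (1 / 16) ^ e := by
          apply pow_le_pow_of_le_one (by norm_num) (by norm_num)
          omega
  calc (n.choose D : ℝ) * ((D : ℝ) / n) ^ e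
      = ((n.choose D : ℝ) * ((D : ℝ) / n) ^ D) * ((D : ℝ) / n) ^ (e - D) := by
        rw [mul_assoc, ← pow_add]
        congr 3
        omega
    _ ≤ 3 ^ e * (1 / 16) ^ e := by gcongr
    _ = (3 / 16) ^ e := by
        rw [← mul_pow]
        norm_num

theorem expand_bound_one [NeZero n] (J : Finset (Fin m)) (hJ : 2 ^ 256 * (k * J.card) ≤ n) :
    pr (fun H : Fin m → Fin k → Fin n => 64 * (vars H J).card ≤ 63 * (k * J.card)) ≤
      (3 / 16) ^ (k * J.card) := by
  classical
  rcases Nat.eq_zero_or_pos n with hn | hn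
  · exact absurd hn (NeZero.ne n)
  set e := k * J.card with he
  let D := 63 * e / 64
  have hD : 64 * D ≤ 63 * e := Nat.mul_div_le _ _
  have hDn : D ≤ n := by
    have : e ≤ 2 ^ 256 * e := Nat.le_mul_of_pos_left _ (by positivity)
    omega
  have hn' : (0 : ℝ) < n := by exact_mod_cast hn
  refine le_trans (pr_mono (q := fun H : Fin m → Fin k → Fin n =>
    ∃ W ∈ powersetCard D (univ : Finset (Fin n)), ∀ i ∈ J, ∀ a, H i a ∈ W) ?_) ?_
  · intro H hH
    have h1 : (vars H J).card ≤ D := by
      change _ ≤ 63 * e / 64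
      omega
    obtain ⟨W, hW1, -, hW3⟩ := exists_subsuperset_card_eq (subset_univ (vars H J)) h1
      (by rw [card_univ, Fintype.card_fin]; exact hDn)
    refine ⟨W, by simp [hW3], fun i hi a => hW1 (mem_vars.2 ⟨i, hi, a, rfl⟩)⟩
  · refine (pr_exists _ _).trans ?_
    have h1 : ∀ W ∈ powersetCard D (univ : Finset (Fin n)),
        pr (fun H : Fin m → Fin k → Fin n => ∀ i ∈ J, ∀ a, H i a ∈ W) ≤
          ((D : ℝ) / n) ^ e := by
      intro W hW
      rw [mem_powersetCard] at hW
      have h2 : pr (fun E : Fin k → Fin n => ∀ a, E a ∈ W) ≤ ((D : ℝ) / n) ^ k := by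
        have := indep_fixed (ι := Fin k) (α := Fin n) univ (fun x => x ∈ W) ((D : ℝ) / n) (by
          rw [pr_mem_le, hW.2])
        simpa using this
      have h3 := indep_fixed (ι := Fin m) (α := Fin k → Fin n) J (fun E => ∀ a, E a ∈ W) _ h2
      rw [← pow_mul, ← he] at h3
      exact h3
    refine (sum_le_sum h1).trans ?_
    rw [sum_const, card_powersetCard, card_univ, Fintype.card_fin, nsmul_eq_mul]
    exact choose_bound n D e hn hD hJ

theorem expand_bound [NeZero n] {N : ℕ} (hN : 2 ^ 256 * (k * N) ≤ n) :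
    pr (fun H : Fin m → Fin k → Fin n => ¬ Expand N H) ≤ (1 + (3 / 16) ^ k) ^ m - 1 := by
  classical
  have h1 : pr (fun H : Fin m → Fin k → Fin n => ¬ Expand N H) ≤
      ∑ J ∈ univ.erase (∅ : Finset (Fin m)), ((3 / 16 : ℝ) ^ k) ^ J.card := by
    refine le_trans (pr_mono (q := fun H : Fin m → Fin k → Fin n =>
      ∃ J ∈ univ.erase (∅ : Finset (Fin m)), J.card ≤ N ∧
        64 * (vars H J).card ≤ 63 * (k * J.card)) ?_) ?_
    · intro H hH
      unfold Expand at hH
      push Not at hH
      obtain ⟨J, h1, h2, h3⟩ := hH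
      exact ⟨J, by simp [h1.ne_empty], h2, h3⟩
    · refine (pr_exists _ _).trans (sum_le_sum fun J _ => ?_)
      by_cases hJ : J.card ≤ N
      · refine (pr_mono fun H h => h.2).trans ?_
        refine (expand_bound_one J ?_).trans (by rw [pow_mul])
        refine le_trans ?_ hN
        gcongr
      · have : (fun H : Fin m → Fin k → Fin n => J.card ≤ N ∧
              64 * (vars H J).card ≤ 63 * (k * J.card)) = fun _ => False := by
          funext H
          simp [hJ]
        rw [this, pr_false]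
        positivity
  refine h1.trans ?_
  have h2 := sum_pow_card (ι := Fin m) ((3 / 16 : ℝ) ^ k)
  rw [Fintype.card_fin, ← add_sum_erase univ _ (mem_univ ∅)] at h2
  simp only [card_empty, pow_zero] at h2
  linarith

/-- The outcome of one random choice. -/
def code (x : Fin (2 ^ 129)) : Option Bool :=
  if x = 0 then some false else if x = 1 then some true else none

theorem fin_one_ne_zero : (1 : Fin (2 ^ 129)) ≠ 0 := by
  intro h
  have := congrArg Fin.val h
  simp at this

theorem pr_code (c : Bool) : pr (fun x => code x = some c) = 1 / 2 ^ 129 := by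
  classical
  rw [pr_eq, Fintype.card_fin]
  have h : univ.filter (fun x => code x = some c) = {if c then (1 : Fin (2 ^ 129)) else 0} := by
    ext x
    rw [mem_filter, mem_singleton]
    simp only [mem_univ, true_and, code]
    cases c
    · by_cases h0 : x = 0
      · simp [h0]
      · by_cases h1 : x = 1
        · simp [h1]
        · simp [h0, h1]
    · by_cases h0 : x = 0
      · simp only [h0, if_true]
        simp [fin_one_ne_zero.symm]
      · by_cases h1 : x = 1
        · simp [h1]
        · simp [h0, h1]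
  rw [h]
  norm_num

theorem pr_code_isSome : pr (fun x => (code x).isSome) ≤ 1 / 2 ^ 128 := by
  classical
  have h : pr (fun x => (code x).isSome) ≤ pr (fun x => code x = some false ∨
      code x = some true) := by
    refine pr_mono fun x hx => ?_
    obtain ⟨c, hc⟩ := Option.isSome_iff_exists.1 hx
    cases c
    · exact Or.inl hc
    · exact Or.inr hc
  refine h.trans ((pr_or _ _).trans ?_)
  rw [pr_code, pr_code]
  norm_num

/-- The restriction given by the random choices. -/
def restr (ω : Fin n → Fin (2 ^ 129)) : Fin n → Option Bool := fun v => code (ω v)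

theorem pr_subset_dom (W : Finset (Fin n)) :
    pr (fun ω : Fin n → Fin (2 ^ 129) => W ⊆ dom (restr ω)) ≤ (1 / 2 ^ 128) ^ W.card := by
  have h := indep_fixed (ι := Fin n) (α := Fin (2 ^ 129)) W (fun x => (code x).isSome) _
    pr_code_isSome
  refine le_trans (pr_mono ?_) h
  intro ω hω i hi
  obtain ⟨c, hc⟩ := mem_dom.1 (hω hi)
  exact Option.isSome_iff_exists.2 ⟨c, hc⟩

theorem row_restr_bound (H : Fin m → Fin k → Fin n) :
    pr (fun ω : Fin n → Fin (2 ^ 129) => ∃ i, k < 32 * (vars H {i} ∩ dom (restr ω)).card) ≤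
      m * (1 / 8) ^ k := by
  classical
  refine (pr_exists_fintype _).trans ?_
  have h1 : ∀ i, pr (fun ω : Fin n → Fin (2 ^ 129) =>
      k < 32 * (vars H {i} ∩ dom (restr ω)).card) ≤ (1 / 8) ^ k := by
    intro i
    refine le_trans (pr_mono (q := fun ω : Fin n → Fin (2 ^ 129) =>
      ∃ W ∈ (vars H {i}).powerset, k < 32 * W.card ∧ W ⊆ dom (restr ω)) ?_) ?_
    · intro ω hω
      refine ⟨_, ?_, hω, inter_subset_right⟩
      rw [mem_powerset]
      exact inter_subset_left
    · refine (pr_exists _ _).trans ?_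
      have h2 : ∀ W ∈ (vars H {i}).powerset, pr (fun ω : Fin n → Fin (2 ^ 129) =>
          k < 32 * W.card ∧ W ⊆ dom (restr ω)) ≤ (1 / 16) ^ k := by
        intro W _
        by_cases hW : k < 32 * W.card
        · refine (pr_mono fun ω h => h.2).trans ((pr_subset_dom W).trans ?_)
          calc ((1 : ℝ) / 2 ^ 128) ^ W.card = (1 / 16) ^ (32 * W.card) := by
                rw [pow_mul]
                norm_num
            _ ≤ (1 / 16) ^ k := by
                apply pow_le_pow_of_le_one (by norm_num) (by norm_num)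
                omega
        · have : (fun ω : Fin n → Fin (2 ^ 129) => k < 32 * W.card ∧ W ⊆ dom (restr ω)) =
              fun _ => False := by
            funext ω
            simp [hW]
          rw [this, pr_false]
          positivity
      refine (sum_le_sum h2).trans ?_
      rw [sum_const, card_powerset, nsmul_eq_mul]
      push_cast
      have h3 : (vars H {i}).card ≤ k := by
        have := card_vars_le H {i}
        simpa using this
      calc (2 : ℝ) ^ (vars H {i}).card * (1 / 16) ^ k ≤ 2 ^ k * (1 / 16) ^ k := by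
            gcongr
            norm_num
        _ = (1 / 8) ^ k := by
            rw [← mul_pow]
            norm_num
  refine (sum_le_sum fun i _ => h1 i).trans ?_
  rw [sum_const, card_univ, Fintype.card_fin, nsmul_eq_mul]

theorem dom_bound [NeZero n] :
    pr (fun ω : Fin n → Fin (2 ^ 129) => n < 2000 * (dom (restr ω)).card) ≤
      2000 / 2 ^ 128 := by
  classical
  have hn : (0 : ℝ) < n := by exact_mod_cast NeZero.pos n
  have hΩ : (0 : ℝ) < Fintype.card (Fin n → Fin (2 ^ 129)) := by
    exact_mod_cast Fintype.card_pos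
  have h1 : ∑ ω : Fin n → Fin (2 ^ 129), ((dom (restr ω)).card : ℝ) ≤
      n * (1 / 2 ^ 128 * Fintype.card (Fin n → Fin (2 ^ 129))) := by
    have h2 : ∀ ω : Fin n → Fin (2 ^ 129), ((dom (restr ω)).card : ℝ) =
        ∑ v, if v ∈ dom (restr ω) then (1 : ℝ) else 0 := by
      intro ω
      simp
    simp only [h2]
    rw [sum_comm]
    have h3 : ∀ v : Fin n, ∑ ω : Fin n → Fin (2 ^ 129), (if v ∈ dom (restr ω) then (1 : ℝ) else 0)
        ≤ 1 / 2 ^ 128 * Fintype.card (Fin n → Fin (2 ^ 129)) := by
      intro v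
      have h4 := pr_subset_dom (n := n) {v}
      simp only [singleton_subset_iff, card_singleton, pow_one] at h4
      rw [pr_eq, div_le_iff₀ hΩ] at h4
      refine le_trans (le_of_eq ?_) h4
      rw [card_filter]
      push_cast
      rfl
    refine (sum_le_sum fun v _ => h3 v).trans ?_
    rw [sum_const, card_univ, Fintype.card_fin, nsmul_eq_mul]
  have h2 : (n : ℝ) * ((univ.filter (fun ω : Fin n → Fin (2 ^ 129) =>
      n < 2000 * (dom (restr ω)).card)).card : ℝ) ≤
      2000 * ∑ ω : Fin n → Fin (2 ^ 129), ((dom (restr ω)).card : ℝ) := by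
    rw [card_filter]
    push_cast
    rw [mul_sum, mul_sum]
    refine sum_le_sum fun ω _ => ?_
    split_ifs with h
    · rw [mul_one]
      exact_mod_cast le_of_lt h
    · rw [mul_zero]
      positivity
  rw [pr_eq, div_le_iff₀ hΩ]
  have h3 : (n : ℝ) * ((univ.filter (fun ω : Fin n → Fin (2 ^ 129) =>
      n < 2000 * (dom (restr ω)).card)).card : ℝ) ≤
      n * (2000 / 2 ^ 128 * Fintype.card (Fin n → Fin (2 ^ 129))) := by
    refine h2.trans ?_
    calc 2000 * ∑ ω : Fin n → Fin (2 ^ 129), ((dom (restr ω)).card : ℝ)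
        ≤ 2000 * (n * (1 / 2 ^ 128 * Fintype.card (Fin n → Fin (2 ^ 129)))) := by gcongr
      _ = n * (2000 / 2 ^ 128 * Fintype.card (Fin n → Fin (2 ^ 129))) := by ring
  exact le_of_mul_le_mul_left h3 hn

/-- The line is satisfied by the random restriction, tautological, or narrow. -/
def GoodX (ρ : Fin n → Option Bool) (w : ℕ) (C : Clause (Var n e)) : Prop :=
  (∃ l ∈ C, ∃ v, l.1 = Sum.inl v ∧ ρ v = some l.2) ∨ Taut C ∨ C.card ≤ w

/-- A non-tautological clause has many different variables of the formula. -/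
theorem card_le_xvars {C : Clause (Var n e)} (hT : ¬ Taut C) :
    C.card ≤ (xvars C).card + e := by
  classical
  have h1 : (C.image Prod.fst).card = C.card := by
    refine card_image_of_injOn ?_
    rintro ⟨v, c⟩ h1 ⟨v', c'⟩ h2 (h3 : v = v')
    subst h3
    by_contra hne
    refine hT ⟨(v, c), h1, ?_⟩
    have : (!c) = c' := by
      cases c <;> cases c' <;> simp_all
    simpa [negLit, this] using h2
  rw [← h1]
  have h2 : C.image Prod.fst ⊆ (xvars C).image Sum.inl ∪
      (univ : Finset (Fin e)).image Sum.inr := by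
    intro x hx
    obtain ⟨⟨y, c⟩, hl, rfl⟩ := mem_image.1 hx
    rcases y with v | j
    · refine mem_union_left _ (mem_image.2 ⟨v, ?_, rfl⟩)
      simp only [xvars, mem_filter, mem_univ, true_and]
      cases c
      · exact Or.inr hl
      · exact Or.inl hl
    · exact mem_union_right _ (mem_image.2 ⟨j, mem_univ _, rfl⟩)
  refine (card_le_card h2).trans ((card_union_le _ _).trans ?_)
  have h3 := card_image_le (s := xvars C) (f := (Sum.inl : Fin n → Var n e))
  have h4 := card_image_le (s := (univ : Finset (Fin e))) (f := (Sum.inr : Fin e → Var n e))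
  rw [card_univ, Fintype.card_fin] at h4
  omega

theorem line_bound (w : ℕ) (he : 2 * e ≤ w) (C : Clause (Var n e)) :
    pr (fun ω : Fin n → Fin (2 ^ 129) => ¬ GoodX (restr ω) w C) ≤
      Real.exp (-((w : ℝ) / 2 / 2 ^ 129)) := by
  classical
  by_cases hgood : Taut C ∨ C.card ≤ w
  · have : (fun ω : Fin n → Fin (2 ^ 129) => ¬ GoodX (restr ω) w C) = fun _ => False := by
      funext ω
      simp only [GoodX, eq_iff_iff, iff_false, not_not]
      exact Or.inr hgood
    rw [this, pr_false]
    positivity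
  · rw [not_or] at hgood
    obtain ⟨hT, hw⟩ := hgood
    push Not at hw
    have hX := card_le_xvars hT
    have h1 := indep (ι := Fin n) (α := Fin (2 ^ 129)) (xvars C)
      (fun v _ x => ∀ l ∈ C, l.1 = Sum.inl v → code x ≠ some l.2) (1 - 1 / 2 ^ 129)
      (by intro i _ j _ H E x; exact Iff.rfl) (by
      intro v hv ω
      have h2 : ∃ c, (Sum.inl v, c) ∈ C := by
        simp only [xvars, mem_filter, mem_univ, true_and] at hv
        rcases hv with hv | hv
        · exact ⟨_, hv⟩
        · exact ⟨_, hv⟩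
      obtain ⟨c, hc⟩ := h2
      have h2 : pr (fun x => ¬ code x = some c) = 1 - 1 / 2 ^ 129 := by
        rw [pr_not, pr_code]
      rw [← h2]
      exact pr_mono fun x hx => hx _ hc rfl)
    have h2 : pr (fun ω : Fin n → Fin (2 ^ 129) => ¬ GoodX (restr ω) w C) ≤
        (1 - 1 / 2 ^ 129) ^ (xvars C).card := by
      refine le_trans (pr_mono ?_) h1
      intro ω hω v _ l hl hlv heq
      refine hω (Or.inl ⟨l, hl, v, hlv, heq⟩)
    refine h2.trans ?_
    have h3 : (1 - 1 / 2 ^ 129 : ℝ) ≤ Real.exp (-(1 / 2 ^ 129)) := by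
      have := Real.add_one_le_exp (-(1 / 2 ^ 129 : ℝ))
      linarith
    have h4 : (w : ℝ) / 2 ≤ (xvars C).card := by
      have : w ≤ 2 * (xvars C).card := by omega
      have : (w : ℝ) ≤ 2 * (xvars C).card := by exact_mod_cast this
      linarith
    calc (1 - 1 / 2 ^ 129 : ℝ) ^ (xvars C).card
        ≤ Real.exp (-(1 / 2 ^ 129)) ^ (xvars C).card := by
          have : (0 : ℝ) ≤ 1 - 1 / 2 ^ 129 := by norm_num
          gcongr
      _ = Real.exp (-((xvars C).card / 2 ^ 129)) := by
          rw [← Real.exp_nat_mul]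
          congr 1
          ring
      _ ≤ Real.exp (-((w : ℝ) / 2 / 2 ^ 129)) := by
          apply Real.exp_le_exp.2
          apply neg_le_neg
          gcongr

theorem exists_restr [NeZero n] (H : Fin m → Fin k → Fin n) (w : ℕ) (he : 2 * e ≤ w) {S : ℕ}
    (L : Fin S → Clause (Var n e)) (h1 : (m : ℝ) * (1 / 8) ^ k ≤ 1 / 4)
    (h2 : (S : ℝ) * Real.exp (-((w : ℝ) / 2 / 2 ^ 129)) ≤ 1 / 4) :
    ∃ ρ : Fin n → Option Bool, (∀ i, 32 * (vars H {i} ∩ dom ρ).card ≤ k) ∧
      2000 * (dom ρ).card ≤ n ∧ ∀ s, GoodX ρ w (L s) := by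
  classical
  have h3 : pr (fun ω : Fin n → Fin (2 ^ 129) => ∃ s, ¬ GoodX (restr ω) w (L s)) ≤ 1 / 4 := by
    refine (pr_exists_fintype _).trans ((sum_le_sum fun s _ => line_bound w he (L s)).trans ?_)
    rw [sum_const, card_univ, Fintype.card_fin, nsmul_eq_mul]
    exact h2
  have h4 := pr_or (fun ω : Fin n → Fin (2 ^ 129) => n < 2000 * (dom (restr ω)).card)
    (fun ω : Fin n → Fin (2 ^ 129) => ∃ s, ¬ GoodX (restr ω) w (L s))
  have h5 := pr_or (fun ω : Fin n → Fin (2 ^ 129) =>
      ∃ i, k < 32 * (vars H {i} ∩ dom (restr ω)).card)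
    (fun ω : Fin n → Fin (2 ^ 129) => n < 2000 * (dom (restr ω)).card ∨
      ∃ s, ¬ GoodX (restr ω) w (L s))
  have h6 := row_restr_bound H
  have h7 := dom_bound (n := n)
  have h8 : (2000 : ℝ) / 2 ^ 128 ≤ 1 / 4 := by norm_num
  obtain ⟨ω, hω⟩ := exists_of_pr_lt_one (lt_of_le_of_lt h5 (by linarith))
  rw [not_or, not_or] at hω
  obtain ⟨h9, h10, h11⟩ := hω
  push Not at h9 h10 h11
  exact ⟨restr ω, h9, h10, h11⟩

/-- Expansion survives the restriction. -/
theorem exp_of_expand {N : ℕ} {H : Fin m → Fin k → Fin n} (hE : Expand N H)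
    {ρ : Fin n → Option Bool} (hρ : ∀ i, 32 * (vars H {i} ∩ dom ρ).card ≤ k)
    (J : Finset (Fin m)) (hJ : J.Nonempty) (hJN : J.card ≤ N) :
    15 * k * J.card ≤ 16 * (uniq H J \ dom ρ).card := by
  classical
  have h1 := hE J hJ hJN
  have hsum : ∑ v, cnt H J v = k * J.card := by
    unfold cnt
    rw [sum_comm]
    have h1 : ∀ i ∈ J, ∑ v, ∑ a, (if H i a = v then 1 else 0) = k := by
      intro i _
      rw [sum_comm]
      simp
    rw [sum_congr rfl h1]
    simp [mul_comm]
  have h2 : 2 * (vars H J).card ≤ k * J.card + (uniq H J).card := by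
    rw [← hsum]
    unfold vars uniq
    rw [card_filter, card_filter, mul_sum, ← sum_add_distrib]
    refine sum_le_sum fun v _ => ?_
    split_ifs <;> omega
  have h3 : 32 * (uniq H J ∩ dom ρ).card ≤ k * J.card := by
    have h4 : uniq H J ∩ dom ρ ⊆ J.biUnion (fun i => vars H {i} ∩ dom ρ) := by
      intro v hv
      rw [mem_inter, mem_uniq] at hv
      have h5 : v ∈ vars H J := by
        simp [vars, hv.1]
      rw [mem_vars] at h5
      obtain ⟨i, hi, a, ha⟩ := h5
      rw [mem_biUnion]
      refine ⟨i, hi, mem_inter.2 ⟨?_, hv.2⟩⟩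
      rw [mem_vars]
      exact ⟨i, mem_singleton_self _, a, ha⟩
    have h5 := (card_le_card h4).trans card_biUnion_le
    have h6 : 32 * ∑ i ∈ J, (vars H {i} ∩ dom ρ).card ≤ J.card * k := by
      rw [mul_sum, ← smul_eq_mul (a := J.card)]
      exact sum_le_card_nsmul _ _ _ fun i _ => hρ i
    rw [mul_comm k]
    omega
  have h7 := card_sdiff_add_card_inter (uniq H J) (dom ρ)
  have h8 : 15 * k * J.card = 15 * (k * J.card) := by ring
  omega

end Pool.Agent.MP_9cec2c_lc.SubstExt
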