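import Pool.Agent.Lib.MP_9cec2c_lc.SXExpand
import Pool.Agent.Lib.MP_9cec2c_lc.SRRigid2
import Pool.Agent.Lib.MP_9cec2c_lc.SRNum

/-!
Putting the parts together, with extension variables.
-/

set_option autoImplicit false
set_option exponentiation.threshold 2000

namespace Pool.Agent.MP_9cec2c_lc.SubstExt

open Finset
open Pool.Agent.MP_9cec2c_lc.SubstRed (Ext cnt uniq vars mem_uniq mem_vars card_vars_le
  dom mem_dom notMem_dom pr pr_eq pr_nonneg pr_mono pr_le_one exists_of_pr_lt_one pr_or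
  pr_exists pr_exists_fintype pr_false rowSum OneIn OddIn oneIn_pr oddIn_pr all_fail
  unsat_bound rigid_bound Size cnf mem_cnf card_rowClause_le sat_of_holds card_cnf_le
  exp_neg_three)

variable {n L : ℕ}

theorem pow_big (L : ℕ) (hL : 4000 ≤ L) : 2 ^ 500 * L ^ 2 ≤ 2 ^ (L - 1) := by
  induction L, hL using Nat.le_induction with
  | base =>
    calc 2 ^ 500 * 4000 ^ 2 ≤ 2 ^ 500 * 2 ^ 24 := Nat.mul_le_mul_left _ (by norm_num)
      _ = 2 ^ 524 := by rw [← pow_add]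
      _ ≤ 2 ^ (4000 - 1) := Nat.pow_le_pow_right (by norm_num) (by norm_num)
  | succ L hL ih =>
    have h1 : 2 ^ (L + 1 - 1) = 2 * 2 ^ (L - 1) := by
      rw [← pow_succ']
      congr 1
      omega
    rw [h1]
    have h2 : (L + 1) ^ 2 ≤ 2 * L ^ 2 := by nlinarith
    calc 2 ^ 500 * (L + 1) ^ 2 ≤ 2 ^ 500 * (2 * L ^ 2) := Nat.mul_le_mul_left _ h2
      _ = 2 * (2 ^ 500 * L ^ 2) := by ring
      _ ≤ 2 * 2 ^ (L - 1) := Nat.mul_le_mul_left _ ih

theorem big_lin (h : Size n L) : 2 ^ 500 * L ≤ n := by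
  refine le_trans ?_ ((pow_big L h.big).trans h.lo)
  have := h.big
  gcongr
  nlinarith

theorem big_pos (h : Size n L) : 2 ^ 500 ≤ n := by
  refine le_trans ?_ (big_lin h)
  have := h.big
  exact Nat.le_mul_of_pos_right _ (by omega)

theorem num_kw (h : Size n L) : 32 * L + 1 ≤ n / 2 ^ 266 := by
  have h1 := big_lin h
  have h2 := h.big
  refine (Nat.le_div_iff_mul_le (by positivity)).2 ?_
  refine le_trans ?_ h1
  calc (32 * L + 1) * 2 ^ 266 ≤ (33 * L) * 2 ^ 266 := Nat.mul_le_mul_right _ (by omega)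
    _ ≤ 2 ^ 500 * L := by
      rw [mul_comm (33 * L), ← mul_assoc]
      exact Nat.mul_le_mul_right _ (by norm_num)

theorem num_R2 (h : Size n L) : 2 ≤ n / (2 ^ 260 * (32 * L + 1)) := by
  have h1 := big_lin h
  have h2 := h.big
  refine (Nat.le_div_iff_mul_le (by positivity)).2 ?_
  refine le_trans ?_ h1
  calc 2 * (2 ^ 260 * (32 * L + 1)) ≤ 2 * (2 ^ 260 * (33 * L)) := by
        gcongr
        omega
    _ = (2 * 2 ^ 260 * 33) * L := by ring
    _ ≤ 2 ^ 500 * L := Nat.mul_le_mul_right _ (by norm_num)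

theorem num_wR (h : Size n L) :
    32 * (n / 2 ^ 266) ≤ (32 * L + 1) * (n / (2 ^ 260 * (32 * L + 1))) := by
  have h1 := big_lin h
  have h2 := h.big
  have hR' := Nat.lt_mul_div_succ n (show 0 < 2 ^ 260 * (32 * L + 1) by positivity)
  have hw := Nat.div_mul_le_self n (2 ^ 266)
  have h3 : 2 ^ 261 * (32 * L + 1) ≤ n := by
    refine le_trans ?_ h1
    calc 2 ^ 261 * (32 * L + 1) ≤ 2 ^ 261 * (33 * L) := by
          gcongr
          omega
      _ = (2 ^ 261 * 33) * L := by ring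
      _ ≤ 2 ^ 500 * L := Nat.mul_le_mul_right _ (by norm_num)
  generalize n / (2 ^ 260 * (32 * L + 1)) = R at hR' ⊢
  generalize n / 2 ^ 266 = w at hw ⊢
  have h4 : 2 ^ 260 * (32 * L + 1) * (R + 1) = 2 ^ 260 * ((32 * L + 1) * R) +
    2 ^ 260 * (32 * L + 1) := by ring
  rw [h4] at hR'
  generalize (32 * L + 1) * R = X at hR' ⊢
  clear h1 h4 h
  norm_num at *
  omega

theorem num_RM (n L : ℕ) :
    4 * (n / (2 ^ 260 * (32 * L + 1))) ≤ n / (2 ^ 257 * (32 * L + 1)) := by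
  refine (Nat.le_div_iff_mul_le (by positivity)).2 ?_
  have := Nat.div_mul_le_self n (2 ^ 260 * (32 * L + 1))
  refine le_trans ?_ this
  calc 4 * (n / (2 ^ 260 * (32 * L + 1))) * (2 ^ 257 * (32 * L + 1))
      = 4 * 2 ^ 257 * ((n / (2 ^ 260 * (32 * L + 1))) * (32 * L + 1)) := by ring
    _ ≤ 2 ^ 260 * ((n / (2 ^ 260 * (32 * L + 1))) * (32 * L + 1)) :=
        Nat.mul_le_mul_right _ (by norm_num)
    _ = n / (2 ^ 260 * (32 * L + 1)) * (2 ^ 260 * (32 * L + 1)) := by ring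

theorem num_eM (h : Size n L) {e : ℕ} (he : 2 ^ 400 * e ≤ n) :
    16 * e ≤ (32 * L + 1) * (n / (2 ^ 257 * (32 * L + 1))) := by
  have h1 := big_lin h
  have h2 := h.big
  have hR' := Nat.lt_mul_div_succ n (show 0 < 2 ^ 257 * (32 * L + 1) by positivity)
  have h3 : 2 ^ 258 * (32 * L + 1) ≤ n := by
    refine le_trans ?_ h1
    calc 2 ^ 258 * (32 * L + 1) ≤ 2 ^ 258 * (33 * L) := by
          gcongr
          omega
      _ = (2 ^ 258 * 33) * L := by ring
      _ ≤ 2 ^ 500 * L := Nat.mul_le_mul_right _ (by norm_num)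
  generalize n / (2 ^ 257 * (32 * L + 1)) = R at hR' ⊢
  have h4 : 2 ^ 257 * (32 * L + 1) * (R + 1) = 2 ^ 257 * ((32 * L + 1) * R) +
    2 ^ 257 * (32 * L + 1) := by ring
  rw [h4] at hR'
  generalize (32 * L + 1) * R = X at hR' ⊢
  clear h1 h4 h
  norm_num at *
  omega

theorem num_ew {e : ℕ} (he : 2 ^ 400 * e ≤ n) : 2 * e ≤ n / 2 ^ 266 := by
  refine (Nat.le_div_iff_mul_le (by positivity)).2 ?_
  refine le_trans ?_ he
  calc 2 * e * 2 ^ 266 = 2 * 2 ^ 266 * e := by ring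
    _ ≤ 2 ^ 400 * e := Nat.mul_le_mul_right _ (by norm_num)

theorem num_kappa {d e D : ℕ} (hd : 2000 * d ≤ n) (he : 2 ^ 400 * e ≤ n)
    (hD : D ≤ d + 18 * e) : D + 17 * (n / 2 ^ 266) ≤ n / 1000 := by
  have hw := Nat.div_mul_le_self n (2 ^ 266)
  generalize n / 2 ^ 266 = w at hw ⊢
  rw [Nat.le_div_iff_mul_le (by norm_num)]
  have h5 : w * 4000000 ≤ n := by
    refine le_trans ?_ hw
    exact Nat.mul_le_mul_left _ (by norm_num)
  have h6 : 4000000 * e ≤ n := by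
    refine le_trans ?_ he
    exact Nat.mul_le_mul_right _ (by norm_num)
  clear hw he
  have h7 : 1000 * D + 17000 * w ≤ n := by omega
  linarith

theorem num_lines (h : Size n L) {S : ℕ}
    (hS : (S : ℝ) < 2 ^ (1 / 2 ^ 400 * (n : ℝ))) :
    (S : ℝ) * Real.exp (-(((n / 2 ^ 266 : ℕ) : ℝ) / 2 / 2 ^ 129)) ≤ 1 / 4 := by
  have hp := big_pos h
  have h1 : n ≤ 2 ^ 267 * (n / 2 ^ 266) := by
    have h2 := Nat.lt_mul_div_succ n (show 0 < 2 ^ 266 by positivity)
    have h3 : 1 ≤ n / 2 ^ 266 := (Nat.le_div_iff_mul_le (by positivity)).2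
      (le_trans (by norm_num) hp)
    generalize n / 2 ^ 266 = w at h2 h3 ⊢
    calc n ≤ 2 ^ 266 * (w + 1) := h2.le
      _ ≤ 2 ^ 266 * (w + w) := Nat.mul_le_mul_left _ (by omega)
      _ = 2 ^ 267 * w := by ring
  have h1' : (n : ℝ) ≤ 2 ^ 267 * ((n / 2 ^ 266 : ℕ) : ℝ) := by exact_mod_cast h1
  have h2 : (2 : ℝ) ^ (1 / 2 ^ 400 * (n : ℝ)) ≤ Real.exp (1 / 2 ^ 400 * n) := by
    rw [Real.rpow_def_of_pos (by norm_num)]
    apply Real.exp_le_exp.2
    have h3 : Real.log 2 ≤ 1 := by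
      have := Real.log_le_sub_one_of_pos (x := 2) (by norm_num)
      linarith
    have h4 : (0 : ℝ) ≤ 1 / 2 ^ 400 * n := by positivity
    nlinarith
  have h3 : (2 ^ 500 : ℝ) ≤ n := by exact_mod_cast hp
  calc (S : ℝ) * Real.exp (-(((n / 2 ^ 266 : ℕ) : ℝ) / 2 / 2 ^ 129))
      ≤ Real.exp (1 / 2 ^ 400 * n) * Real.exp (-((n : ℝ) / 2 ^ 397)) := by
        have h4 : (n : ℝ) / 2 ^ 397 ≤ ((n / 2 ^ 266 : ℕ) : ℝ) / 2 / 2 ^ 129 := by
          rw [div_div, div_le_div_iff₀ (by positivity) (by positivity)]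
          calc (n : ℝ) * (2 * 2 ^ 129) ≤ 2 ^ 267 * ((n / 2 ^ 266 : ℕ) : ℝ) * (2 * 2 ^ 129) := by
                gcongr
            _ = ((n / 2 ^ 266 : ℕ) : ℝ) * 2 ^ 397 := by ring
        have h5 := hS.le.trans h2
        gcongr
    _ = Real.exp (-(7 / 2 ^ 400 * n)) := by
        rw [← Real.exp_add]
        congr 1
        ring
    _ ≤ Real.exp (-3) := by
        apply Real.exp_le_exp.2
        have h4 : (3 : ℝ) ≤ 7 / 2 ^ 400 * n := by
          calc (3 : ℝ) ≤ 7 / 2 ^ 400 * 2 ^ 500 := by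
                rw [show ((2 : ℝ) ^ 500) = 2 ^ 400 * 2 ^ 100 by rw [← pow_add]]
                rw [← mul_assoc, div_mul_cancel₀ _ (by positivity)]
                norm_num
            _ ≤ 7 / 2 ^ 400 * n := by gcongr
        linarith
    _ ≤ 1 / 8 := exp_neg_three
    _ ≤ 1 / 4 := by norm_num

/-- The rows with all required properties exist. -/
theorem exists_good (n L : ℕ) (h : Size n L) :
    ∃ H : Fin (n ^ 4) → Fin (32 * L + 1) → Fin n, ∃ b : Fin (n ^ 4) → ZMod 2,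
      Expand (2 * (n / (2 ^ 257 * (32 * L + 1)))) H ∧
      SubstRed.Rigid (n / 1000) (n / 264) (n ^ 4 / 8) H ∧
      (∀ T : Finset (Fin n), T.Nonempty → T.card ≤ n / 264 + n / 264 →
        ∃ i, ∃ a, H i a ∈ T ∧ ∀ a', a' ≠ a → H i a' ∉ T) ∧
      (∀ B T : Finset (Fin n), B.card ≤ n / 264 → n / 264 ≤ T.card → Disjoint B T →
        ∃ i, (∀ a, H i a ∉ B) ∧ (∑ a, if H i a ∈ T then (1 : ZMod 2) else 0) = 1) ∧
      (∀ z : Fin n → Bool, n ^ 4 / 8 <
        (univ.filter (fun i => rowSum (H i) z ≠ b i)).card) := by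
  classical
  have hp := h.pos
  have hb := h.big
  have : NeZero n := ⟨by omega⟩
  -- expansion
  have h1 : pr (fun H : Fin (n ^ 4) → Fin (32 * L + 1) → Fin n =>
      ¬ Expand (2 * (n / (2 ^ 257 * (32 * L + 1)))) H) ≤ 1 / 8 := by
    refine (expand_bound ?_).trans h.expand
    have := Nat.div_mul_le_self n (2 ^ 257 * (32 * L + 1))
    calc 2 ^ 256 * ((32 * L + 1) * (2 * (n / (2 ^ 257 * (32 * L + 1)))))
        = n / (2 ^ 257 * (32 * L + 1)) * (2 ^ 257 * (32 * L + 1)) := by ring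
      _ ≤ n := this
  -- rigidity
  have h2 : pr (fun H : Fin (n ^ 4) → Fin (32 * L + 1) → Fin n =>
      ¬ SubstRed.Rigid (n / 1000) (n / 264) (n ^ 4 / 8) H) ≤ 1 / 8 := by
    refine (rigid_bound (by omega) (by omega) (by omega) h.q2 h.q0).trans h.rigid
  -- one coordinate
  have h3 : pr (fun H : Fin (n ^ 4) → Fin (32 * L + 1) → Fin n =>
      ∃ T : Finset (Fin n), T.Nonempty ∧ T.card ≤ n / 264 + n / 264 ∧
        ∀ i, ¬ OneIn T (H i)) ≤ 1 / 8 := by
    refine (pr_exists_fintype _).trans ?_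
    have h4 : ∀ T : Finset (Fin n), pr (fun H : Fin (n ^ 4) → Fin (32 * L + 1) → Fin n =>
        T.Nonempty ∧ T.card ≤ n / 264 + n / 264 ∧ ∀ i, ¬ OneIn T (H i)) ≤
        Real.exp (-(1 / (n : ℝ) * (1 - ((n / 264 + n / 264 : ℕ) : ℝ) / n) ^ (32 * L + 1) *
      ((n ^ 4 : ℕ) : ℝ))) := by
      intro T
      by_cases hT : T.Nonempty ∧ T.card ≤ n / 264 + n / 264
      · refine (pr_mono (q := fun H : Fin (n ^ 4) → Fin (32 * L + 1) → Fin n =>
          ∀ i, ¬ OneIn T (H i)) fun H h => h.2.2).trans ?_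
        exact all_fail _ _ (oneIn_pr (by omega) T hT.1 _ hT.2 (by omega))
      · have : (fun H : Fin (n ^ 4) → Fin (32 * L + 1) → Fin n =>
            T.Nonempty ∧ T.card ≤ n / 264 + n / 264 ∧ ∀ i, ¬ OneIn T (H i)) =
            fun _ => False := by
          funext H
          simp only [eq_iff_iff, iff_false]
          tauto
        rw [this, pr_false]
        positivity
    refine (sum_le_sum fun T _ => h4 T).trans ?_
    rw [sum_const, card_univ, Fintype.card_finset, Fintype.card_fin, nsmul_eq_mul]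
    push_cast
    have := h.one (t := n / 264 + n / 264) (by omega)
    push_cast at this
    exact this
  -- odd
  have h4 : pr (fun H : Fin (n ^ 4) → Fin (32 * L + 1) → Fin n =>
      ∃ p : Finset (Fin n) × Finset (Fin n), (p.1.card ≤ n / 264 ∧ n / 264 ≤ p.2.card ∧
        Disjoint p.1 p.2) ∧ ∀ i, ¬ OddIn p.1 p.2 (H i)) ≤ 1 / 8 := by
    refine (pr_exists_fintype _).trans ?_
    have h5 : ∀ p : Finset (Fin n) × Finset (Fin n),
        pr (fun H : Fin (n ^ 4) → Fin (32 * L + 1) → Fin n =>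
        (p.1.card ≤ n / 264 ∧ n / 264 ≤ p.2.card ∧
        Disjoint p.1 p.2) ∧ ∀ i, ¬ OddIn p.1 p.2 (H i)) ≤
        Real.exp (-(1 / 4 * (1 - ((n / 264 : ℕ) : ℝ) / n) ^ (32 * L + 1) *
      ((n ^ 4 : ℕ) : ℝ))) := by
      rintro ⟨B, T⟩
      by_cases hT : B.card ≤ n / 264 ∧ n / 264 ≤ T.card ∧ Disjoint B T
      · refine (pr_mono (q := fun H : Fin (n ^ 4) → Fin (32 * L + 1) → Fin n =>
          ∀ i, ¬ OddIn B T (H i)) fun H h => h.2).trans ?_
        refine all_fail _ _ (oddIn_pr ⟨16 * L, by ring⟩ B T hT.2.2 hT.1 (by omega) hT.2.1 ?_)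
        exact h.theta
      · have : (fun H : Fin (n ^ 4) → Fin (32 * L + 1) → Fin n =>
            (B.card ≤ n / 264 ∧ n / 264 ≤ T.card ∧
        Disjoint B T) ∧ ∀ i, ¬ OddIn B T (H i)) =
            fun _ => False := by
          funext H
          simp only [eq_iff_iff, iff_false]
          exact fun h => hT h.1
        simp only
        rw [this, pr_false]
        positivity
    refine (sum_le_sum fun p _ => h5 p).trans ?_
    rw [sum_const, card_univ, Fintype.card_prod, Fintype.card_finset, Fintype.card_fin,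
      nsmul_eq_mul]
    push_cast
    have := h.odd (t := n / 264) (by omega)
    push_cast at this
    exact this
  -- union bound
  have h5 := pr_or (fun H : Fin (n ^ 4) → Fin (32 * L + 1) → Fin n =>
      ∃ T : Finset (Fin n), T.Nonempty ∧ T.card ≤ n / 264 + n / 264 ∧
        ∀ i, ¬ OneIn T (H i))
    (fun H : Fin (n ^ 4) → Fin (32 * L + 1) → Fin n =>
      ∃ p : Finset (Fin n) × Finset (Fin n), (p.1.card ≤ n / 264 ∧ n / 264 ≤ p.2.card ∧
        Disjoint p.1 p.2) ∧ ∀ i, ¬ OddIn p.1 p.2 (H i))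
  have h6 := pr_or (fun H : Fin (n ^ 4) → Fin (32 * L + 1) → Fin n =>
      ¬ SubstRed.Rigid (n / 1000) (n / 264) (n ^ 4 / 8) H)
    (fun H : Fin (n ^ 4) → Fin (32 * L + 1) → Fin n => (∃ T : Finset (Fin n), T.Nonempty ∧
      T.card ≤ n / 264 + n / 264 ∧ ∀ i, ¬ OneIn T (H i)) ∨
      ∃ p : Finset (Fin n) × Finset (Fin n), (p.1.card ≤ n / 264 ∧ n / 264 ≤ p.2.card ∧
        Disjoint p.1 p.2) ∧ ∀ i, ¬ OddIn p.1 p.2 (H i))
  have h7 := pr_or (fun H : Fin (n ^ 4) → Fin (32 * L + 1) → Fin n =>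
      ¬ Expand (2 * (n / (2 ^ 257 * (32 * L + 1)))) H)
    (fun H : Fin (n ^ 4) → Fin (32 * L + 1) → Fin n =>
      ¬ SubstRed.Rigid (n / 1000) (n / 264) (n ^ 4 / 8) H ∨
      ((∃ T : Finset (Fin n), T.Nonempty ∧
      T.card ≤ n / 264 + n / 264 ∧ ∀ i, ¬ OneIn T (H i)) ∨
      ∃ p : Finset (Fin n) × Finset (Fin n), (p.1.card ≤ n / 264 ∧ n / 264 ≤ p.2.card ∧
        Disjoint p.1 p.2) ∧ ∀ i, ¬ OddIn p.1 p.2 (H i)))
  obtain ⟨H, hH⟩ := exists_of_pr_lt_one (lt_of_le_of_lt h7 (by linarith))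
  rw [not_or, not_or, not_or, not_not, not_not] at hH
  obtain ⟨g1, g2, g3, g4⟩ := hH
  obtain ⟨b, hb'⟩ := exists_of_pr_lt_one
    (lt_of_le_of_lt (unsat_bound H (ε2 := n ^ 4 / 8) (by omega)) h.unsat)
  push Not at hb'
  refine ⟨H, b, g1, g2, ?_, ?_, hb'⟩
  · intro T hT hTc
    by_contra hcon
    refine g3 ⟨T, hT, hTc, fun i hi => hcon ⟨i, hi⟩⟩
  · intro B T hB hT hBT
    by_contra hcon
    refine g4 ⟨(B, T), ⟨hB, hT, hBT⟩, fun i hi => hcon ⟨i, hi⟩⟩

theorem main_bound (n L : ℕ) (h : Size n L) :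
    ∃ F : Finset (Clause (Fin n)), F.card ≤ n ^ 37 ∧ (∀ C ∈ F, C.card ≤ 32 * L + 1) ∧
      (∀ x : Fin n → Bool, ∃ C ∈ F, ¬ Holds x C) ∧
      ∀ (e S : ℕ) (L : Fin S → Clause (Var n e)), (e : ℝ) ≤ 1 / 2 ^ 400 * (n : ℝ) →
        IsRefutation F L → (2 : ℝ) ^ (1 / 2 ^ 400 * (n : ℝ)) ≤ S := by
  classical
  have hp := h.pos
  have hbig := h.big
  have : NeZero n := ⟨by omega⟩
  obtain ⟨H, b, g1, g2, g3, g4, g5⟩ := exists_good n L h
  refine ⟨cnf H b, ?_, ?_, ?_, ?_⟩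
  · refine (card_cnf_le H b).trans ?_
    have h2L : 2 ^ (32 * L + 1) = 2 * (2 ^ L) ^ 32 := by
      rw [← pow_mul, ← pow_succ']
      congr 1
      ring
    calc n ^ 4 * 2 ^ (32 * L + 1) = n ^ 4 * (2 * (2 ^ L) ^ 32) := by
          rw [h2L]
      _ ≤ n ^ 4 * (2 * (2 * n) ^ 32) := by
          have := h.two_pow
          gcongr
      _ = 2 ^ 33 * n ^ 36 := by ring
      _ ≤ n * n ^ 36 := by
          gcongr
          exact le_trans (by norm_num) hp
      _ = n ^ 37 := by ring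
  · intro C hC
    obtain ⟨i, s, -, rfl⟩ := mem_cnf.1 hC
    exact card_rowClause_le _ _
  · intro x
    by_contra hcon
    push Not at hcon
    have h1 := g5 x
    have h2 : univ.filter (fun i => rowSum (H i) x ≠ b i) = ∅ := by
      rw [filter_eq_empty_iff]
      intro i _
      rw [not_not]
      exact sat_of_holds fun s hs => hcon _ (mem_cnf.2 ⟨i, s, hs, rfl⟩)
    rw [h2] at h1
    simp at h1
  · intro e S Lines he hL
    by_contra hcon
    push Not at hcon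
    have he' : 2 ^ 400 * e ≤ n := by
      have h1 : (2 : ℝ) ^ 400 * e ≤ n := by
        have h2 : (2 : ℝ) ^ 400 * (1 / 2 ^ 400 * (n : ℝ)) = n := by
          rw [← mul_assoc, mul_one_div_cancel (by positivity), one_mul]
        calc (2 : ℝ) ^ 400 * (e : ℝ) ≤ (2 : ℝ) ^ 400 * (1 / 2 ^ 400 * (n : ℝ)) := by gcongr
          _ = (n : ℝ) := h2
      exact_mod_cast h1
    obtain ⟨d, t, hav, -, hempty, hlines⟩ := hL
    obtain ⟨ρ0, h1, h2, h3⟩ := exists_restr H (n / 2 ^ 266) (num_ew he') Lines h.rows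
      (num_lines h hcon)
    obtain ⟨ρ, ζ, I0, k1, k2, k3, k4, k5⟩ := kill (b := b) (R := n / (2 ^ 260 * (32 * L + 1)))
      (M := n / (2 ^ 257 * (32 * L + 1))) (by omega)
      (fun J hJ hJN => exp_of_expand g1 h1 J hJ hJN) (num_eM h he') (num_RM n L) d hav
    refine det_main (R := n / (2 ^ 260 * (32 * L + 1))) (w := n / 2 ^ 266) (κ := n / 1000)
      (ε1 := n / 264) (ε2 := n ^ 4 / 8) (θ := n / 264) (ρ := ρ) (ζ := ζ) (I0 := I0)
      ?_ k3 hav hempty hlines ?_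
    · exact ⟨by omega, num_kw h, num_R2 h, num_wR h, k4, k5,
        num_kappa h2 he' k2, g2, g3, g4, g5⟩
    · intro i
      rcases h3 i with ⟨l, hl, v, hv, hρ⟩ | hT | hw
      · exact Or.inl ⟨l, hl, Or.inl ⟨v, hv, k1 v _ hρ⟩⟩
      · exact Or.inr (Or.inl hT)
      · exact Or.inr (Or.inr hw)

end Pool.Agent.MP_9cec2c_lc.SubstExt
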