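import Pool.Agent.Lib.MP_9cec2c_lc.SXSubst

/-!
The contradiction in the substitution step, and the deterministic theorem, with extension
variables.
-/

set_option autoImplicit false

namespace Pool.Agent.MP_9cec2c_lc.SubstExt

open Finset
open Pool.Agent.MP_9cec2c_lc.SubstRed (bz bz_inj bz_beq bz_ne z2_add_self z2_eq_of_add z2_ne
  unsat_restr impl_restr Ext exists_ext vec rowSum sum_vec_mul gvec cnt uniq vars sum_vec
  mem_uniq mem_vars cnt_union card_vars_le rowSum_congr dom mem_dom notMem_dom
  uniq_subset_dom rowClause holds_rowClause cnf mem_cnf sat_of_holds card_rowClause_le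
  holds_of_sat)

variable {n k m e : ℕ}

section

variable {R w κ ε1 ε2 θ : ℕ} {H : Fin m → Fin k → Fin n} {b : Fin m → ZMod 2}
  {ρ : Fin n → Option Bool} {ζ : Fin e → Bool} {I0 : Finset (Fin m)}

/-- The substitution is the identity on the variables of the formula, on the closed set. -/
theorem xpart (P : Params R w κ ε1 ε2 θ H b ρ I0) {C : Clause (Var n e)} (hC : C.card ≤ w)
    {Δ : Set (Clause (Var n e))}
    {τ : Subst (Var n e)} {I : Finset (Fin m)} (S : Step R H b ρ ζ I0 Δ C τ I)
    (hI : k * I.card ≤ 16 * w) :
    ∀ v : Fin n, ∀ y, Ext (negExt ρ C) y → Rows H b I y → appx τ ζ y v = y v := by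
  classical
  have hk := P.hk
  have hR := P.hR
  set K := dom ρ ∪ xvars C ∪ vars H I with hK
  have hXc : (xvars C).card ≤ w := (card_xvars_le C).trans hC
  have hKc : K.card ≤ κ := by
    have h1 := card_vars_le H I
    have h2 := card_union_le (dom ρ ∪ xvars C) (vars H I)
    have h3 := card_union_le (dom ρ) (xvars C)
    have h4 := P.hκ
    rw [hK]
    omega
  choose Ji hJi1 hJi0 hJi2 hJi3 hJi4 using row_lemma P hC S
  let im : Fin n → Option (Fin n) := fun v => imgv τ (Sum.inl v)
  let g : Fin n → Option (Fin n) := fun v => (im v).filter (fun u => decide (u ∉ K))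
  have hg : ∀ v u, g v = some u ↔ im v = some u ∧ u ∉ K := by
    intro v u
    simp [g]
  have hgvec1 : ∀ (E : Fin k → Fin n) v, v ∉ K → gvec g E v = gvec im E v := by
    intro E v hv
    unfold gvec
    refine sum_congr rfl fun a _ => ?_
    simp only [hg, hv, not_false_eq_true, and_true]
  have hgvec2 : ∀ (E : Fin k → Fin n) v, v ∈ K → gvec g E v = 0 := by
    intro E v hv
    unfold gvec
    refine sum_eq_zero fun a _ => ?_
    simp only [hg, hv, not_true_eq_false, and_false, if_false]
  -- the two alternatives for each row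
  have halt : ∀ i, (Ji i ⊆ I ∧ ∀ v, gvec g (H i) v = 0) ∨
      ∃ j, (∀ v, v ∉ K → gvec g (H i) v = vec (H j) v) ∧
      3 * k < 4 * (univ.filter (fun v => v ∉ K ∧ vec (H j) v ≠ 0)).card := by
    intro i
    rcases (Ji i \ I).eq_empty_or_nonempty with h1 | h1
    · left
      refine ⟨sdiff_eq_empty_iff_subset.1 h1, fun v => ?_⟩
      by_cases hv : v ∈ K
      · exact hgvec2 _ _ hv
      · rw [hgvec1 _ _ hv]
        have := hJi2 i v hv
        rw [h1] at this
        change gvec (fun v => imgv τ (Sum.inl v)) (H i) v = 0
        rw [this]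
        simp [cnt]
    · right
      have h2 : (Ji i \ I).card = 1 := le_antisymm (hJi3 i) h1.card_pos
      obtain ⟨j, hj⟩ := card_eq_one.1 h2
      have h3 : ∀ v, (cnt H {j} v : ZMod 2) = vec (H j) v := by
        intro v
        rw [← sum_vec, sum_singleton]
      refine ⟨j, fun v hv => ?_, ?_⟩
      · rw [hgvec1 _ _ hv, ← h3, ← hj]
        exact hJi2 i v hv
      · have h4 := S.cl (Ji i \ I) h1 (disjoint_of_subset_right sdiff_subset (hJi0 i))
          disjoint_sdiff (by omega)
        rw [h2, mul_one, hj, ← hK] at h4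
        refine h4.trans_le (Nat.mul_le_mul_left _ (card_le_card ?_))
        intro v hv
        rw [mem_sdiff, mem_uniq] at hv
        rw [mem_filter]
        refine ⟨mem_univ _, hv.2, ?_⟩
        rw [← h3, hv.1]
        simp
  rcases P.rigid K hKc g (fun v u h => ((hg v u).1 h).2)
    (fun i => (halt i).imp (fun h => h.2) id) with hA | hB
  · -- many rows collapse
    exfalso
    obtain ⟨y0, hy0, hrows⟩ := S.cons I (S.cI.trans (by omega))
    have h1 := P.unsat (appx τ ζ y0)
    have h2 : univ.filter (fun i => rowSum (H i) (appx τ ζ y0) ≠ b i) ⊆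
        univ.filter (fun i => ¬ ∀ v, gvec g (H i) v = 0) := by
      intro i hi
      simp only [mem_filter, mem_univ, true_and] at hi ⊢
      intro h3
      refine hi ?_
      rcases halt i with h4 | ⟨j, h4, h5⟩
      · exact hJi4 i y0 hy0 fun j hj => hrows j (h4.1 hj)
      · exfalso
        have h6 : univ.filter (fun v => v ∉ K ∧ vec (H j) v ≠ 0) = ∅ := by
          rw [filter_eq_empty_iff]
          rintro v - ⟨hv1, hv2⟩
          exact hv2 (by rw [← h4 v hv1, h3 v])
        rw [h6] at h5
        simp at h5
    have h3 := card_le_card h2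
    omega
  · -- almost all variables are fixed up to sign
    set B := univ.filter (fun v => g v ≠ some v) with hBdef
    have hBn : ∀ v, v ∉ B → ∃ s, τ (Sum.inl v) = Sum.inr (Sum.inl v, s) ∧ v ∉ K := by
      intro v hv
      simp only [hBdef, mem_filter, mem_univ, true_and, not_not] at hv
      rw [hg] at hv
      obtain ⟨h1, h2⟩ := hv
      simp only [im, imgv] at h1
      rcases h3 : τ (Sum.inl v) with c | ⟨u | j, s⟩
      · rw [h3] at h1; simp at h1
      · rw [h3] at h1
        simp only [Option.some.injEq] at h1
        exact ⟨s, by rw [h1], h2⟩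
      · rw [h3] at h1; simp at h1
    set T1 := univ.filter (fun v => v ∉ B ∧ τ (Sum.inl v) = Sum.inr (Sum.inl v, false))
      with hT1
    have hT1c : T1.card < θ := by
      by_contra hcon
      push Not at hcon
      obtain ⟨i, hi1, hi2⟩ := P.odd B T1 hB hcon (by
        rw [disjoint_left]
        intro v hv1 hv2
        simp only [hT1, mem_filter, mem_univ, true_and] at hv2
        exact hv2.1 hv1)
      obtain ⟨y, hy, hrows⟩ := S.cons (insert i (Ji i)) (by
        have := card_insert_le i (Ji i)
        have := hJi1 i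
        omega)
      have h1 := hJi4 i y hy (hrows.mono (subset_insert _ _))
      have h2 := hrows i (mem_insert_self _ _)
      have h3 : rowSum (H i) (appx τ ζ y) = rowSum (H i) y +
          ∑ a, if H i a ∈ T1 then (1 : ZMod 2) else 0 := by
        unfold rowSum
        rw [← sum_add_distrib]
        refine sum_congr rfl fun a _ => ?_
        obtain ⟨s, hs, -⟩ := hBn (H i a) (hi1 a)
        have h4 : H i a ∈ T1 ↔ s = false := by
          simp only [hT1, mem_filter, mem_univ, true_and, hs]
          simp [hi1 a]
        unfold appx app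
        rw [hs]
        simp only [sval, bz_beq, h4, full_inl]
        cases s <;> simp
      rw [h1, h2, hi2] at h3
      simp at h3
    let T : Finset (Fin n) := univ.filter (fun v => ∃ y, Ext (negExt ρ C) y ∧
      Rows H b I y ∧ appx τ ζ y v ≠ y v)
    have hTn : ∀ v, v ∉ T → ∀ y, Ext (negExt ρ C) y →
        Rows H b I y → appx τ ζ y v = y v := by
      intro v hv y hy hrows
      simp only [T, mem_filter, mem_univ, true_and, not_exists, not_and, not_not] at hv
      exact hv y hy hrows
    have hTc : T.card ≤ ε1 + θ := by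
      have h1 : T ⊆ B ∪ T1 := by
        intro v hv
        simp only [T, mem_filter, mem_univ, true_and] at hv
        by_contra hcon
        rw [mem_union, not_or] at hcon
        obtain ⟨s, hs, -⟩ := hBn v hcon.1
        obtain ⟨y, -, -, hne⟩ := hv
        have h4 : s = true := by
          by_contra h5
          have h6 : s = false := by simpa using h5
          refine hcon.2 ?_
          simp only [hT1, mem_filter, mem_univ, true_and]
          exact ⟨hcon.1, by rw [hs, h6]⟩
        refine hne ?_
        unfold appx app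
        rw [hs, h4]
        simp [sval]
      refine (card_le_card h1).trans ((card_union_le _ _).trans ?_)
      omega
    have hTe : T = ∅ := by
      by_contra hne
      obtain ⟨i, a, ha, hother⟩ := P.one T (nonempty_iff_ne_empty.2 hne) hTc
      have h1 := peel_lemma P S (I ∪ insert i (Ji i)) (by
        refine (card_union_le _ _).trans ?_
        have := card_insert_le i (Ji i)
        have := hJi1 i
        have := S.cI
        omega) (by
        have h2 : (I ∪ insert i (Ji i)) \ I ⊆ insert i (Ji i \ I) := by
          intro x hx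
          simp only [mem_sdiff, mem_union, mem_insert] at hx ⊢
          tauto
        refine (card_le_card h2).trans ((card_insert_le _ _).trans ?_)
        have := hJi3 i
        omega) (Sum.inl (H i a)) (by
        intro y hy hrows
        have hI' : Rows H b I y := hrows.mono subset_union_left
        have h1 := hJi4 i y hy fun j hj =>
          hrows j (mem_union_right _ (mem_insert_of_mem hj))
        have h2 := hrows i (mem_union_right _ (mem_insert_self _ _))
        have h3 : bz (appx τ ζ y (H i a)) + bz (y (H i a)) = 0 := by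
          have h4 : ∑ a', (bz (appx τ ζ y (H i a')) + bz (y (H i a'))) = 0 := by
            rw [sum_add_distrib]
            change rowSum (H i) (appx τ ζ y) + rowSum (H i) y = 0
            rw [h1, h2, z2_add_self]
          rwa [sum_eq_single_of_mem a (mem_univ _)] at h4
          intro a' _ ha'
          rw [hTn _ (hother a' ha') y hy hI', z2_add_self]
        exact bz_inj (z2_eq_of_add _ _ h3))
      simp only [T, mem_filter, mem_univ, true_and] at ha
      obtain ⟨y, hy, hrows, hne'⟩ := ha
      exact hne' (h1 y hy hrows)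
    intro v
    exact hTn v (by simp [hTe])

/-- The restriction determines the extension variables. -/
def Determined (ρ : Fin n → Option Bool) (ζ : Fin e → Bool)
    (d : Fin e → Lit (Var n e) × Lit (Var n e)) : Prop :=
  ∀ j, (ζ j = false ∧ (PTrue ρ ζ (negLit (d j).1) ∨ PTrue ρ ζ (negLit (d j).2))) ∨
    (ζ j = true ∧ PTrue ρ ζ (d j).1 ∧ PTrue ρ ζ (d j).2)

theorem mem_base_def {F : Finset (Clause (Fin n))}
    {d : Fin e → Lit (Var n e) × Lit (Var n e)} {t : ℕ} {j : Fin e} (hj : j.val < t)
    {D : Clause (Var n e)} (hD : D ∈ defClauses d j) : D ∈ base F d t :=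
  Or.inr ⟨j, hj, hD⟩

/-- The definitions hold under the restriction. -/
theorem RTrue_def {d : Fin e → Lit (Var n e) × Lit (Var n e)} (hd : Determined ρ ζ d)
    {j : Fin e} {D : Clause (Var n e)} (hD : D ∈ defClauses d j) : RTrue ρ ζ D := by
  simp only [defClauses, mem_insert, mem_singleton] at hD
  have hz : ∀ c, ζ j = c → PTrue ρ ζ ((Sum.inr j, c) : Lit (Var n e)) := fun c hc =>
    Or.inr ⟨j, rfl, hc⟩
  rcases hd j with ⟨h0, h1⟩ | ⟨h0, h1, h2⟩
  · rcases hD with rfl | rfl | rfl
    · exact ⟨_, mem_insert_self _ _, hz _ h0⟩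
    · exact ⟨_, mem_insert_self _ _, hz _ h0⟩
    · rcases h1 with h1 | h1
      · exact ⟨_, by simp, h1⟩
      · exact ⟨negLit (d j).2, by simp, h1⟩
  · rcases hD with rfl | rfl | rfl
    · exact ⟨(d j).1, by simp, h1⟩
    · exact ⟨(d j).2, by simp, h2⟩
    · exact ⟨(Sum.inr j, true), by simp, hz _ h0⟩

theorem card_def_le {d : Fin e → Lit (Var n e) × Lit (Var n e)} {j : Fin e}
    {D : Clause (Var n e)} (hD : D ∈ defClauses d j) : D.card ≤ 3 := by
  simp only [defClauses, mem_insert, mem_singleton] at hD
  rcases hD with rfl | rfl | rfl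
  · exact card_le_two.trans (by norm_num)
  · exact card_le_two.trans (by norm_num)
  · exact card_le_three

theorem zpart (P : Params R w κ ε1 ε2 θ H b ρ I0) {C : Clause (Var n e)}
    {d : Fin e → Lit (Var n e) × Lit (Var n e)} {t : ℕ}
    (hd : Determined ρ ζ d)
    (hav : ∀ j : Fin e, Avail j.val (d j).1.1 ∧ Avail j.val (d j).2.1)
    {τ : Subst (Var n e)} {I : Finset (Fin m)}
    (S : Step R H b ρ ζ I0 (base (cnf H b) d t) C τ I)
    (hx : ∀ v : Fin n, ∀ y, Ext (negExt ρ C) y → Rows H b I y → appx τ ζ y v = y v) :
    ∀ (s : ℕ) (j : Fin e), j.val = s → j.val < t → ∀ y, Ext (negExt ρ C) y →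
      Rows H b I y → app τ (full ζ y) (Sum.inr j) = ζ j := by
  classical
  have hR := P.hR
  intro s
  induction s using Nat.strong_induction_on with
  | _ s ih =>
    intro j hjs hjt
    -- the substitution is the identity on older literals
    have hold : ∀ l : Lit (Var n e), Avail j.val l.1 → ∀ y, Ext (negExt ρ C) y →
        Rows H b I y → app τ (full ζ y) l.1 = full ζ y l.1 := by
      rintro ⟨x, c⟩ hl y hy hrows
      rcases x with v | i
      · exact hx v y hy hrows
      · have hij : i.val < j.val := hl i rfl
        exact ih i.val (by omega) i rfl (by omega) y hy hrows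
    -- a false literal stays false
    have hfalse : ∀ l : Lit (Var n e), Avail j.val l.1 → PTrue ρ ζ (negLit l) →
        ∀ y, Ext (negExt ρ C) y → Rows H b I y → app τ (full ζ y) l.1 ≠ l.2 := by
      intro l hl hp y hy hrows h1
      rw [hold l hl y hy hrows] at h1
      exact not_both _ l h1 (hp.true (negExt_ext hy))
    have key : ∀ D : Clause (Var n e), D ∈ defClauses d j →
        (∀ y, Ext (negExt ρ C) y → Rows H b I y → ∀ l ∈ D, l ≠ (Sum.inr j, ζ j) →
          app τ (full ζ y) l.1 ≠ l.2) →
        ∀ y, Ext (negExt ρ C) y → Rows H b I y → app τ (full ζ y) (Sum.inr j) = ζ j := by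
      intro D hD hno
      obtain ⟨J, hJ, himp⟩ := S.img D (Or.inl (mem_base_def hjt hD))
      refine peel_lemma P S (I ∪ J) ?_ ?_ (Sum.inr j) ?_
      · refine (card_union_le _ _).trans ?_
        have := S.cI
        omega
      · refine (card_le_card ?_).trans hJ
        intro x hx
        simp only [mem_sdiff, mem_union] at hx
        tauto
      · intro y hy hrows
        obtain ⟨l, hl, hyl⟩ := himp y hy (hrows.mono subset_union_right)
        by_cases h1 : l = (Sum.inr j, ζ j)
        · rw [h1] at hyl
          exact hyl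
        · exact absurd hyl (hno y hy (hrows.mono subset_union_left) l hl h1)
    rcases hd j with ⟨h0, h1⟩ | ⟨h0, h1, h2⟩
    · rcases h1 with h1 | h1
      · refine key {(Sum.inr j, false), (d j).1} (by simp [defClauses]) ?_
        intro y hy hrows l hl hne
        rw [mem_insert, mem_singleton, ← h0] at hl
        rcases hl with rfl | rfl
        · exact absurd rfl hne
        · exact hfalse _ (hav j).1 h1 y hy hrows
      · refine key {(Sum.inr j, false), (d j).2} (by simp [defClauses]) ?_
        intro y hy hrows l hl hne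
        rw [mem_insert, mem_singleton, ← h0] at hl
        rcases hl with rfl | rfl
        · exact absurd rfl hne
        · exact hfalse _ (hav j).2 h1 y hy hrows
    · refine key {(Sum.inr j, true), negLit (d j).1, negLit (d j).2}
        (by simp [defClauses]) ?_
      intro y hy hrows l hl hne
      rw [mem_insert, mem_insert, mem_singleton, ← h0] at hl
      rcases hl with rfl | rfl | rfl
      · exact absurd rfl hne
      · exact hfalse (negLit (d j).1) (hav j).1 (by rwa [negLit_negLit]) y hy hrows
      · exact hfalse (negLit (d j).2) (hav j).2 (by rwa [negLit_negLit]) y hy hrows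

/-- The redundancy rule keeps the invariant. -/
theorem redundant_lemma (P : Params R w κ ε1 ε2 θ H b ρ I0) {Γ : Set (Clause (Var n e))}
    (hΓ : ∀ G ∈ Γ, Inv H b ρ ζ R G ∧ GoodCl ρ ζ w G) {C : Clause (Var n e)}
    {d : Fin e → Lit (Var n e) × Lit (Var n e)} {t : ℕ}
    (hd : Determined ρ ζ d)
    (hav : ∀ j : Fin e, Avail j.val (d j).1.1 ∧ Avail j.val (d j).2.1)
    (hCav : ∀ l ∈ C, Avail t l.1)
    (hC : C.card ≤ w)
    (h : Redundant (base (cnf H b) d t) Γ C) : Inv H b ρ ζ R C := by
  classical
  by_contra hno
  have hnrt : ¬ RTrue ρ ζ C := fun h => hno (inv_of_RTrue h)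
  have hnta : ¬ Taut C := fun h => hno (inv_of_Taut h)
  obtain ⟨τ, hτ⟩ := h
  have hk := P.hk
  have hkw := P.hkw
  have hwR := P.hwR
  have hXc : (xvars C).card ≤ w := (card_xvars_le C).trans hC
  obtain ⟨I, hI0, hI1, hI2, hI3⟩ := closure_lemma P (xvars C) (by omega)
  have S : Step R H b ρ ζ I0 (base (cnf H b) d t) C τ I := by
    refine ⟨hnrt, hnta, ?_, ?_, ?_, hI2, hI0, hI3⟩
    · intro J hJ
      by_contra hcon
      refine hno (gap P (J := J) hJ ?_ (by omega))
      intro y hy hrows
      by_contra hD
      exact hcon ⟨y, ext_negExt hy hD, hrows⟩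
    · intro D hD
      exact Or.inl ⟨D, hD, rfl⟩
    · intro D hD
      rcases hτ D hD with h1 | h1
      · exact ⟨∅, by simp, fun y _ _ => holds_app_of_sat h1 _⟩
      · have hDc : D.card ≤ w := by
          rcases hD with hD | rfl
          · rcases hD with ⟨D', hD', rfl⟩ | ⟨j, -, hD'⟩
            · obtain ⟨i, s, -, rfl⟩ := mem_cnf.1 hD'
              exact (card_lift_le _).trans ((card_rowClause_le _ _).trans hkw)
            · exact (card_def_le hD').trans (by omega)
          · exact hC
        obtain ⟨J, hJ, himp⟩ := conflict_lemma P hΓ (B := C ∪ substClause τ D) (by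
          refine (card_union_le _ _).trans ?_
          have := card_substClause_le τ D
          omega) h1
        refine ⟨J, hJ, fun y hy hrows => ?_⟩
        obtain ⟨l, hl, hyl⟩ := himp y (negExt_ext hy) hrows
        rcases mem_union.1 hl with hl | hl
        · exact (negExt_not_holds hnrt hnta hy ⟨l, hl, hyl⟩).elim
        · exact holds_app_of_holds ⟨l, hl, hyl⟩
  have hx := xpart P hC S (by omega)
  have hz := zpart P hd hav S hx
  obtain ⟨J, hJ, himp⟩ := S.img C (Or.inr rfl)
  obtain ⟨y, hy, hrows⟩ := S.cons (I ∪ J) (by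
    refine (card_union_le _ _).trans ?_
    have := S.cI
    omega)
  obtain ⟨l, hl, hyl⟩ := himp y hy (hrows.mono subset_union_right)
  have hyI := hrows.mono (subset_union_left (s₁ := I) (s₂ := J))
  have h1 : app τ (full ζ y) l.1 = full ζ y l.1 := by
    have h2 := hCav l hl
    rcases h3 : l.1 with v | j
    · exact hx v y hy hyI
    · rw [h3] at h2
      exact hz j.val j rfl (h2 j rfl) y hy hyI
  rw [h1] at hyl
  exact negExt_not_holds S.nrt S.nta hy ⟨l, hl, hyl⟩

/-- The deterministic theorem: no refutation all of whose lines are harmless or narrow. -/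
theorem det_main (P : Params R w κ ε1 ε2 θ H b ρ I0) {S : ℕ} {L : Fin S → Clause (Var n e)}
    {d : Fin e → Lit (Var n e) × Lit (Var n e)} {t : Fin S → ℕ}
    (hd : Determined ρ ζ d)
    (hav : ∀ j : Fin e, Avail j.val (d j).1.1 ∧ Avail j.val (d j).2.1)
    (hempty : ∃ i, L i = ∅)
    (hL : ∀ i : Fin S, (∀ l ∈ L i, Avail (t i) l.1) ∧
      (RUP {D | D ∈ base (cnf H b) d (t i) ∨ ∃ j < i, D = L j} (L i) ∨
        Redundant (base (cnf H b) d (t i))
          {D | D ∈ base (cnf H b) d (t i) ∨ ∃ j < i, D = L j} (L i)))
    (hgood : ∀ i, GoodCl ρ ζ w (L i)) : False := by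
  classical
  have hkw := P.hkw
  have hR := P.hR
  have hk := P.hk
  have hinit : ∀ s : ℕ, ∀ D ∈ base (cnf H b) d s, Inv H b ρ ζ R D ∧ GoodCl ρ ζ w D := by
    intro s D hD
    rcases hD with ⟨D', hD', rfl⟩ | ⟨j, -, hD'⟩
    · obtain ⟨i, s, hs, rfl⟩ := mem_cnf.1 hD'
      refine ⟨⟨{i}, by simp; omega, fun y _ hrows => ?_⟩,
        Or.inr (Or.inr ((card_lift_le _).trans ((card_rowClause_le _ _).trans hkw)))⟩
      rw [holds_lift]
      exact holds_of_sat (hrows i (mem_singleton_self _)) hs
    · exact ⟨inv_of_RTrue (RTrue_def hd hD'), Or.inl (RTrue_def hd hD')⟩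
  have hinv : ∀ (s : ℕ) (i : Fin S), i.val = s → Inv H b ρ ζ R (L i) := by
    intro s
    induction s using Nat.strong_induction_on with
    | _ s ih =>
      intro i hi
      have hΓ : ∀ G ∈ {D | D ∈ base (cnf H b) d (t i) ∨ ∃ j < i, D = L j},
          Inv H b ρ ζ R G ∧ GoodCl ρ ζ w G := by
        rintro G (hG | ⟨j, hj, rfl⟩)
        · exact hinit _ G hG
        · exact ⟨ih j.val (by rw [← hi]; exact hj) j rfl, hgood j⟩
      rcases hgood i with h1 | h1 | h1
      · exact inv_of_RTrue h1
      · exact inv_of_Taut h1
      · obtain ⟨h2, h3⟩ := hL i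
        rcases h3 with h3 | h3
        · exact conflict_lemma P hΓ (by omega) h3
        · exact redundant_lemma P hΓ hd hav h2 h1 h3
  obtain ⟨i, hi⟩ := hempty
  obtain ⟨J, hJ, himp⟩ := hinv i.val i rfl
  rw [hi] at himp
  -- the empty clause is not implied by few rows
  obtain ⟨J', hJ', hne, hsum, -⟩ := unsat_restr (fun i => vec (H i)) b (J \ I0) ρ (by
    intro y hy hall
    simp only [sum_vec_mul] at hall
    obtain ⟨l, hl, -⟩ := himp y hy (rows_of_sdiff P hy hall)
    simp at hl)
  have h1 := uniq_subset_dom hsum
  have h2 := P.exp J' hne (disjoint_of_subset_right hJ' disjoint_sdiff)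
    ((card_le_card (hJ'.trans sdiff_subset)).trans (by omega))
  rw [sdiff_eq_empty_iff_subset.2 h1] at h2
  have h3 := hne.card_pos
  simp only [card_empty, mul_zero] at h2
  have h4 : 0 < 13 * k * J'.card := by positivity
  omega

end

end Pool.Agent.MP_9cec2c_lc.SubstExt
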