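import Pool.Agent.Lib.MP_9cec2c_lc.SXDet

/-!
The substitution step, with extension variables.
-/

set_option autoImplicit false

namespace Pool.Agent.MP_9cec2c_lc.SubstExt

open Finset
open Pool.Agent.MP_9cec2c_lc.SubstRed (bz bz_inj bz_beq bz_ne z2_add_self z2_eq_of_add z2_ne
  unsat_restr impl_restr Ext exists_ext vec rowSum sum_vec_mul gvec cnt uniq vars sum_vec
  mem_uniq mem_vars cnt_union card_vars_le rowSum_congr dom mem_dom notMem_dom
  uniq_subset_dom rowClause holds_rowClause cnf mem_cnf sat_of_holds card_rowClause_le)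

variable {n k m e : ℕ}

/-- Value of the image of a variable. -/
def sval {V : Type} (y : V → Bool) (x : Bool ⊕ Lit V) : Bool :=
  match x with
  | Sum.inl c => c
  | Sum.inr p => y p.1 == p.2

/-- The assignment obtained by applying the substitution. -/
def app {V : Type} (τ : Subst V) (y : V → Bool) : V → Bool := fun v => sval y (τ v)

/-- Image variable, if it is a variable of the formula. -/
def imgv (τ : Subst (Var n e)) (x : Var n e) : Option (Fin n) :=
  match τ x with
  | Sum.inl _ => none
  | Sum.inr (Sum.inl v, _) => some v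
  | Sum.inr (Sum.inr _, _) => none

/-- Constant term. -/
def cst (τ : Subst (Var n e)) (ζ : Fin e → Bool) (x : Var n e) : ZMod 2 :=
  match τ x with
  | Sum.inl c => bz c
  | Sum.inr (Sum.inl _, s) => bz (!s)
  | Sum.inr (Sum.inr j, s) => bz (ζ j == s)

theorem bz_app (τ : Subst (Var n e)) (ζ : Fin e → Bool) (y : Fin n → Bool) (x : Var n e) :
    bz (app τ (full ζ y) x) =
      (∑ u, (if imgv τ x = some u then 1 else 0) * bz (y u)) + cst τ ζ x := by
  unfold app imgv cst
  rcases h : τ x with c | ⟨v | j, s⟩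
  · simp [sval]
  · simp only [sval, full_inl, bz_beq]
    simp
  · simp [sval]

theorem app_congr {τ : Subst (Var n e)} {ζ : Fin e → Bool} {y y' : Fin n → Bool}
    {x : Var n e}
    (h : ∀ u, imgv τ x = some u → y u = y' u) :
    app τ (full ζ y) x = app τ (full ζ y') x := by
  unfold app
  unfold imgv at h
  rcases h' : τ x with c | ⟨v | j, s⟩
  · simp [sval]
  · rw [h'] at h
    simp only [sval, full_inl]
    rw [h v rfl]
  · simp [sval]

theorem substLit_inl {V : Type} {τ : Subst V} {l : Lit V} {c : Bool}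
    (h : substLit τ l = Sum.inl c)
    (y : V → Bool) : app τ y l.1 = l.2 ↔ c = true := by
  unfold substLit at h
  unfold app
  cases h' : τ l.1 with
  | inl d =>
    rw [h'] at h
    simp only [Sum.inl.injEq] at h
    simp only [sval]
    rw [← h]
    simp
  | inr p => rw [h'] at h; simp at h

theorem substLit_inr {V : Type} {τ : Subst V} {l p : Lit V} (h : substLit τ l = Sum.inr p)
    (y : V → Bool) : app τ y l.1 = l.2 ↔ y p.1 = p.2 := by
  unfold substLit at h
  unfold app
  cases h' : τ l.1 with
  | inl d => rw [h'] at h; simp at h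
  | inr q =>
    rw [h'] at h
    simp only [Sum.inr.injEq] at h
    simp only [sval]
    obtain ⟨v, c⟩ := l
    obtain ⟨u, d⟩ := q
    subst h
    cases c <;> cases d <;> cases h3 : y u <;> simp [negLit, h3]

theorem holds_app_of_sat {V : Type} [Fintype V] [DecidableEq V] {τ : Subst V}
    {D : Clause V} (h : SubstSat τ D) (y : V → Bool) :
    Holds (app τ y) D := by
  rcases h with ⟨l, hl, h1⟩ | ⟨p, hp, hp'⟩
  · exact ⟨l, hl, (substLit_inl h1 y).2 rfl⟩
  · simp only [substClause, mem_filter, mem_univ, true_and] at hp hp'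
    obtain ⟨l, hl, h1⟩ := hp
    obtain ⟨l', hl', h1'⟩ := hp'
    rcases lit_or y p with h2 | h2
    · exact ⟨l, hl, (substLit_inr h1 y).2 h2⟩
    · exact ⟨l', hl', (substLit_inr h1' y).2 h2⟩

theorem holds_app_of_holds {V : Type} [Fintype V] [DecidableEq V] {τ : Subst V}
    {D : Clause V} {y : V → Bool}
    (h : Holds y (substClause τ D)) : Holds (app τ y) D := by
  obtain ⟨p, hp, hy⟩ := h
  simp only [substClause, mem_filter, mem_univ, true_and] at hp
  obtain ⟨l, hl, h1⟩ := hp
  exact ⟨l, hl, (substLit_inr h1 y).2 hy⟩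

theorem card_substClause_le {V : Type} [Fintype V] [DecidableEq V] (τ : Subst V)
    (D : Clause V) : (substClause τ D).card ≤ D.card := by
  classical
  let f : Lit V → Lit V := fun l => match substLit τ l with
    | Sum.inl _ => l
    | Sum.inr p => p
  have : substClause τ D ⊆ D.image f := by
    intro p hp
    simp only [substClause, mem_filter, mem_univ, true_and] at hp
    obtain ⟨l, hl, h1⟩ := hp
    refine mem_image.2 ⟨l, hl, ?_⟩
    simp only [f, h1]
  exact (card_le_card this).trans card_image_le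

/-- The new values of the variables of the formula. -/
def appx (τ : Subst (Var n e)) (ζ : Fin e → Bool) (y : Fin n → Bool) : Fin n → Bool :=
  fun v => app τ (full ζ y) (Sum.inl v)

theorem rowSum_app (τ : Subst (Var n e)) (ζ : Fin e → Bool) (E : Fin k → Fin n)
    (y : Fin n → Bool) :
    rowSum E (appx τ ζ y) = (∑ v, gvec (fun v => imgv τ (Sum.inl v)) E v * bz (y v)) +
      ∑ a, cst τ ζ (Sum.inl (E a)) := by
  simp only [rowSum, appx, bz_app, sum_add_distrib]
  congr 1
  rw [sum_comm]
  refine sum_congr rfl fun v _ => ?_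
  simp only [gvec, sum_mul]

theorem holds_lift {C : Clause (Fin n)} {Y : Var n e → Bool} :
    Holds Y (lift e C) ↔ Holds (fun v => Y (Sum.inl v)) C := by
  simp only [Holds, lift, mem_image]
  constructor
  · rintro ⟨l, ⟨l', h1, rfl⟩, h2⟩
    exact ⟨l', h1, h2⟩
  · rintro ⟨l, h1, h2⟩
    exact ⟨_, ⟨l, h1, rfl⟩, h2⟩

theorem card_lift_le (C : Clause (Fin n)) : (lift e C).card ≤ C.card := card_image_le

section

variable {R w κ ε1 ε2 θ : ℕ} {H : Fin m → Fin k → Fin n} {b : Fin m → ZMod 2}
  {ρ : Fin n → Option Bool} {ζ : Fin e → Bool} {I0 : Finset (Fin m)}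

theorem cnt_zero_of_notMem {I J : Finset (Fin m)} (hJ : J ⊆ I) {v : Fin n}
    (hv : v ∉ vars H I) : cnt H J v = 0 := by
  by_contra hne
  have : v ∈ vars H J := by simp [vars, hne]
  rw [mem_vars] at this
  obtain ⟨i, hi, a, ha⟩ := this
  exact hv (mem_vars.2 ⟨i, hJ hi, a, ha⟩)

/-- Off the closed set, only the rows outside matter. -/
theorem sum_vec_off {I J : Finset (Fin m)} {v : Fin n} (hv : v ∉ vars H I) :
    ∑ j ∈ J, vec (H j) v = (cnt H (J \ I) v : ZMod 2) := by
  classical
  have h1 : J = (J \ I) ∪ (J ∩ I) := by rw [sdiff_union_inter]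
  have h2 : Disjoint (J \ I) (J ∩ I) := disjoint_sdiff_inter _ _
  conv_lhs => rw [h1]
  rw [sum_union h2, sum_vec, sum_vec, cnt_zero_of_notMem inter_subset_right hv]
  simp

/-- The data fixed in the substitution step. -/
structure Step (R : ℕ) (H : Fin m → Fin k → Fin n) (b : Fin m → ZMod 2)
    (ρ : Fin n → Option Bool) (ζ : Fin e → Bool) (I0 : Finset (Fin m))
    (Δ : Set (Clause (Var n e))) (C : Clause (Var n e)) (τ : Subst (Var n e))
    (I : Finset (Fin m)) : Prop where
  nrt : ¬ RTrue ρ ζ C
  nta : ¬ Taut C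
  cons : ∀ J : Finset (Fin m), J.card ≤ 4 * R → ∃ y, Ext (negExt ρ C) y ∧ Rows H b J y
  sub : ∀ D ∈ cnf H b, lift e D ∈ Δ
  img : ∀ D, (D ∈ Δ ∨ D = C) → ∃ J : Finset (Fin m), J.card ≤ R ∧
    ∀ y, Ext (negExt ρ C) y → Rows H b J y → Holds (app τ (full ζ y)) D
  cI : I.card ≤ R
  dI : Disjoint I0 I
  cl : ∀ J : Finset (Fin m), J.Nonempty → Disjoint I0 J → Disjoint I J → J.card ≤ R →
        3 * k * J.card < 4 * (uniq H J \ (dom ρ ∪ xvars C ∪ vars H I)).card

theorem row_lemma (P : Params R w κ ε1 ε2 θ H b ρ I0) {C : Clause (Var n e)}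
    (hC : C.card ≤ w) {Δ : Set (Clause (Var n e))}
    {τ : Subst (Var n e)} {I : Finset (Fin m)} (S : Step R H b ρ ζ I0 Δ C τ I) (i : Fin m) :
    ∃ Ji : Finset (Fin m), Ji.card ≤ R ∧ Disjoint I0 Ji ∧
      (∀ v, v ∉ dom ρ ∪ xvars C ∪ vars H I →
        gvec (fun v => imgv τ (Sum.inl v)) (H i) v = (cnt H (Ji \ I) v : ZMod 2)) ∧
      (Ji \ I).card ≤ 1 ∧
      (∀ y, Ext (negExt ρ C) y → Rows H b Ji y → rowSum (H i) (appx τ ζ y) = b i) := by
  classical
  set X := xvars C with hX
  have hXc : X.card ≤ w := (card_xvars_le C).trans hC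
  let Q : Finset (Fin n) := (univ.image (fun a => imgv τ (Sum.inl (H i a)))).eraseNone
  have hQc : Q.card ≤ k := by
    refine (card_eraseNone_le _).trans (card_image_le.trans (by simp))
  have hQ : ∀ a u, imgv τ (Sum.inl (H i a)) = some u → u ∈ Q := by
    intro a u h
    simp only [Q, mem_eraseNone, mem_image, mem_univ, true_and]
    exact ⟨a, h⟩
  have hkw := P.hkw
  have hwR := P.hwR
  have hk := P.hk
  obtain ⟨I', hI'0, -, hI'R, hI'⟩ := closure_lemma P (X ∪ Q) (by
    have := card_union_le X Q
    omega)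
  have h1 : ∀ s : Fin k → Bool, rowClause (H i) s ∈ cnf H b →
      ∀ y, Ext (negExt ρ C) y → Rows H b I' y →
        Holds (appx τ ζ y) (rowClause (H i) s) := by
    intro s hs y hy hrows
    obtain ⟨J, hJc, hJ⟩ := S.img _ (Or.inl (S.sub _ hs))
    obtain ⟨y', hy'1, hy'2⟩ := ext_lemma (b := b) (X ∪ Q) I' hI' y ((J \ I0) \ I')
      (disjoint_of_subset_right sdiff_subset disjoint_sdiff) disjoint_sdiff
      ((card_le_card (sdiff_subset.trans sdiff_subset)).trans hJc)
    have h2 : Ext (negExt ρ C) y' := by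
      intro v c hv
      have h3 : v ∈ dom ρ ∪ X := dom_negExt ρ C (mem_dom.2 ⟨c, hv⟩)
      rw [hy'1 v (by
        simp only [mem_union] at h3 ⊢
        tauto)]
      exact hy v c hv
    have h4 : Rows H b J y' := by
      refine rows_of_sdiff P (negExt_ext h2) ?_
      intro j hj
      by_cases hjI : j ∈ I'
      · rw [← hrows j hjI]
        refine rowSum_congr fun a => ?_
        refine hy'1 _ (mem_union_right _ (mem_vars.2 ⟨j, hjI, a, rfl⟩))
      · exact hy'2 j (mem_sdiff.2 ⟨hj, hjI⟩)
    have h5 := holds_lift.1 (hJ y' h2 h4)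
    change Holds (appx τ ζ y') (rowClause (H i) s) at h5
    have h6 := holds_rowClause.1 h5
    obtain ⟨a, ha⟩ := h6
    refine holds_rowClause.2 ⟨a, ?_⟩
    have h7 : appx τ ζ y (H i a) = appx τ ζ y' (H i a) := by
      refine app_congr fun u hu => ?_
      refine (hy'1 u ?_).symm
      have := hQ a u hu
      simp only [mem_union]
      tauto
    rwa [h7]
  have h2 : ∀ y, Ext (negExt ρ C) y → Rows H b I' y →
      rowSum (H i) (appx τ ζ y) = b i := by
    intro y hy hrows
    refine sat_of_holds fun s hs => ?_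
    exact h1 s (mem_cnf.2 ⟨i, s, hs, rfl⟩) y hy hrows
  obtain ⟨Ji, hJi, hsum, himp⟩ := impl_restr (fun i => vec (H i)) b I' (negExt ρ C)
    (gvec (fun v => imgv τ (Sum.inl v)) (H i)) (b i + ∑ a, cst τ ζ (Sum.inl (H i a)))
    (by
      obtain ⟨y, hy, hall⟩ := S.cons I' (by omega)
      refine ⟨y, hy, fun i hi => ?_⟩
      rw [sum_vec_mul]
      exact hall i hi)
    (by
      intro y hy hall
      simp only [sum_vec_mul] at hall
      have h3 := h2 y hy hall
      rw [rowSum_app] at h3
      rw [← h3, add_assoc, z2_add_self, add_zero])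
  have hoff : ∀ v, v ∉ dom ρ ∪ X ∪ vars H I →
        gvec (fun v => imgv τ (Sum.inl v)) (H i) v = (cnt H (Ji \ I) v : ZMod 2) := by
    intro v hv
    have hv1 : v ∉ dom ρ ∪ X := fun h => hv (mem_union_left _ h)
    have hv2 : v ∉ vars H I := fun h => hv (mem_union_right _ h)
    have hv3 : negExt ρ C v = none := by
      rw [← notMem_dom]
      exact fun h => hv1 (dom_negExt ρ C h)
    rw [← hsum v hv3, sum_vec_off hv2]
  have hJi0 : Disjoint I0 Ji := disjoint_of_subset_right hJi hI'0
  refine ⟨Ji, (card_le_card hJi).trans hI'R, hJi0, hoff, ?_, ?_⟩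
  · rcases (Ji \ I).eq_empty_or_nonempty with h3 | h3
    · simp [h3]
    · have h4 := S.cl (Ji \ I) h3 (disjoint_of_subset_right sdiff_subset hJi0) disjoint_sdiff
        ((card_le_card (sdiff_subset.trans hJi)).trans hI'R)
      have h5 : uniq H (Ji \ I) \ (dom ρ ∪ X ∪ vars H I) ⊆ Q := by
        intro v hv
        rw [mem_sdiff, mem_uniq] at hv
        have h6 := hoff v hv.2
        rw [hv.1] at h6
        by_contra hvQ
        have h7 : gvec (fun v => imgv τ (Sum.inl v)) (H i) v = 0 := by
          unfold gvec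
          refine sum_eq_zero fun a _ => ?_
          rw [if_neg]
          exact fun h => hvQ (hQ a v h)
        rw [h7] at h6
        simp at h6
      have h6 := (card_le_card h5).trans hQc
      by_contra hcon
      have h7 : 2 ≤ (Ji \ I).card := by omega
      have h8 : 3 * k * 2 ≤ 3 * k * (Ji \ I).card := Nat.mul_le_mul_left _ h7
      rw [← hX] at h4
      omega
  · intro y hy hall
    have h3 := himp y hy (by
      intro i hi
      rw [sum_vec_mul]
      exact hall i hi)
    rw [rowSum_app, h3, add_assoc, z2_add_self, add_zero]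

/-- A statement about the image of one variable that holds under few extra rows
already holds under the closed set. -/
theorem peel_lemma (P : Params R w κ ε1 ε2 θ H b ρ I0) {C : Clause (Var n e)}
    {Δ : Set (Clause (Var n e))}
    {τ : Subst (Var n e)} {I : Finset (Fin m)} (S : Step R H b ρ ζ I0 Δ C τ I)
    (J : Finset (Fin m)) (hJ : J.card ≤ 4 * R) (hJI : (J \ I).card ≤ R) (x : Var n e)
    (h : ∀ y, Ext (negExt ρ C) y → Rows H b J y → app τ (full ζ y) x = full ζ y x) :
    ∀ y, Ext (negExt ρ C) y → Rows H b I y → app τ (full ζ y) x = full ζ y x := by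
  classical
  have hk := P.hk
  have hR := P.hR
  let lam0 : Fin n → ZMod 2 := fun u => if x = Sum.inl u then 1 else 0
  let c0 : ZMod 2 := match x with
    | Sum.inl _ => 0
    | Sum.inr j => bz (ζ j)
  let lam : Fin n → ZMod 2 := fun u => lam0 u + (if imgv τ x = some u then 1 else 0)
  have hlam0 : ∀ y : Fin n → Bool, ∑ u, lam0 u * bz (y u) + c0 = bz (full ζ y x) := by
    intro y
    rcases x with v | j
    · simp [lam0, c0]
    · simp [lam0, c0]
  have hlam : ∀ y : Fin n → Bool, ∑ u, lam u * bz (y u) + (cst τ ζ x + c0) =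
      bz (full ζ y x) + bz (app τ (full ζ y) x) := by
    intro y
    rw [bz_app, ← hlam0]
    simp only [lam, add_mul, sum_add_distrib]
    ring
  have hfree : ∀ y, Ext (negExt ρ C) y → Rows H b (J \ I0) y →
      app τ (full ζ y) x = full ζ y x := fun y hy hr =>
    h y hy (rows_of_sdiff P (negExt_ext hy) hr)
  obtain ⟨J', hJ', hsum, himp⟩ := impl_restr (fun i => vec (H i)) b (J \ I0) (negExt ρ C)
    lam (cst τ ζ x + c0)
    (by
      obtain ⟨y, hy, hall⟩ := S.cons J hJ
      refine ⟨y, hy, fun i hi => ?_⟩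
      rw [sum_vec_mul]
      exact hall i (mem_sdiff.1 hi).1)
    (by
      intro y hy hall
      simp only [sum_vec_mul] at hall
      have h1 := hfree y hy hall
      have h2 := hlam y
      rw [h1, z2_add_self] at h2
      exact z2_eq_of_add _ _ h2)
  have hJ'I : J' \ I = ∅ := by
    by_contra hne
    have hne' : (J' \ I).Nonempty := nonempty_iff_ne_empty.2 hne
    have h2 : (J' \ I).card ≤ R :=
      (card_le_card (sdiff_subset_sdiff (hJ'.trans sdiff_subset) (Subset.refl _))).trans hJI
    have h3 := S.cl (J' \ I) hne' (disjoint_of_subset_right (sdiff_subset.trans hJ')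
      disjoint_sdiff) disjoint_sdiff h2
    let X1 : Finset (Fin n) := univ.filter (fun u => x = Sum.inl u)
    have hX1 : X1.card ≤ 1 := by
      rw [card_le_one]
      intro u hu u' hu'
      simp only [X1, mem_filter, mem_univ, true_and] at hu hu'
      rw [hu] at hu'
      exact Sum.inl.inj hu'
    have h4 : uniq H (J' \ I) \ (dom ρ ∪ xvars C ∪ vars H I) ⊆
        X1 ∪ (imgv τ x).toFinset := by
      intro u hu
      rw [mem_sdiff, mem_uniq] at hu
      have hu1 : u ∉ dom ρ ∪ xvars C := fun h => hu.2 (mem_union_left _ h)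
      have hu2 : u ∉ vars H I := fun h => hu.2 (mem_union_right _ h)
      have hu3 : negExt ρ C u = none := by
        rw [← notMem_dom]
        exact fun h => hu1 (dom_negExt ρ C h)
      have h5 := hsum u hu3
      rw [sum_vec_off hu2, hu.1] at h5
      rw [mem_union, Option.mem_toFinset, Option.mem_def]
      by_contra hcon
      push Not at hcon
      simp only [X1, mem_filter, mem_univ, true_and] at hcon
      simp only [lam, lam0, if_neg hcon.1, if_neg hcon.2] at h5
      simp at h5
    have h5 : (X1 ∪ (imgv τ x).toFinset).card ≤ 2 := by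
      refine (card_union_le _ _).trans ?_
      have : (imgv τ x).toFinset.card ≤ 1 := by
        cases imgv τ x <;> simp
      omega
    have h6 := (card_le_card h4).trans h5
    have h7 : 0 < (J' \ I).card := hne'.card_pos
    have h8 : 3 * k * 1 ≤ 3 * k * (J' \ I).card := Nat.mul_le_mul_left _ h7
    omega
  intro y hy hall
  have h1 := himp y hy (by
    intro i hi
    rw [sum_vec_mul]
    exact hall i (sdiff_eq_empty_iff_subset.1 hJ'I hi))
  have h2 := hlam y
  rw [h1, z2_add_self] at h2
  exact (bz_inj (z2_eq_of_add _ _ h2.symm)).symm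

end

end Pool.Agent.MP_9cec2c_lc.SubstExt
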