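import Pool.Agent.Lib.MP_9cec2c_lc.SYGate

/-!
The extension variables: prefix parities of a list of vectors.
-/

set_option autoImplicit false
set_option linter.unusedSectionVars false

namespace Pool.Agent.MP_9cec2c_lc.SubstExt

open Finset

section

variable {V : Type} [DecidableEq V]

/-- The defining clauses of `p` as the conjunction of `a` and `b`. -/
def AndCl (Γ : Set (Clause V)) (p a b : Lit V) : Prop :=
  {negLit p, a} ∈ Γ ∧ {negLit p, b} ∈ Γ ∧ {p, negLit a, negLit b} ∈ Γ

theorem and_true {Γ : Set (Clause V)} {A : Set (Lit V)} {p a b : Lit V} (h : AndCl Γ p a b)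
    (ha : UnitProp Γ A a) (hb : UnitProp Γ A b) : UnitProp Γ A p := by
  refine UnitProp.step _ _ h.2.2 (by simp) ?_
  intro g hg hne
  simp only [Finset.mem_insert, Finset.mem_singleton] at hg
  rcases hg with rfl | rfl | rfl
  · exact absurd rfl hne
  · rw [neg_neg]; exact ha
  · rw [neg_neg]; exact hb

theorem and_left {Γ : Set (Clause V)} {A : Set (Lit V)} {p a b : Lit V} (h : AndCl Γ p a b)
    (ha : UnitProp Γ A (negLit a)) : UnitProp Γ A (negLit p) := by
  refine UnitProp.step _ _ h.1 (by simp) ?_
  intro g hg hne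
  simp only [Finset.mem_insert, Finset.mem_singleton] at hg
  rcases hg with rfl | rfl
  · exact absurd rfl hne
  · exact ha

theorem and_right {Γ : Set (Clause V)} {A : Set (Lit V)} {p a b : Lit V} (h : AndCl Γ p a b)
    (hb : UnitProp Γ A (negLit b)) : UnitProp Γ A (negLit p) := by
  refine UnitProp.step _ _ h.2.1 (by simp) ?_
  intro g hg hne
  simp only [Finset.mem_insert, Finset.mem_singleton] at hg
  rcases hg with rfl | rfl
  · exact absurd rfl hne
  · exact hb

/-- The parity of two literals from three conjunctions. -/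
theorem xor_gate {Γ : Set (Clause V)} {p q z a y : Lit V} (hp : AndCl Γ p a y)
    (hq : AndCl Γ q (negLit a) (negLit y)) (hz : AndCl Γ z (negLit p) (negLit q)) :
    Der Γ 8 (xor3 a y z) := by
  classical
  have hpat : ∀ α β γ : Bool, (α ^^ β ^^ γ) = true → RUP Γ (xcl a y z α β γ) := by
    intro α β γ h
    have h1 : litv a (!α) ∈ xcl a y z α β γ := by simp [xcl]
    have h2 : litv y (!β) ∈ xcl a y z α β γ := by simp [xcl]
    have h3 : litv z (!γ) ∈ xcl a y z α β γ := by simp [xcl]
    have k1 := up_assume (Γ := Γ) h1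
    have k2 := up_assume (Γ := Γ) h2
    have k3 := up_assume (Γ := Γ) h3
    refine conflict (l := z) (c := γ) k3 ?_
    have hγ : (!γ) = (α ^^ β) := by
      revert h; cases α <;> cases β <;> cases γ <;> simp
    rw [hγ]
    clear hγ k3 h3
    cases α
    · cases β
      · -- both false
        have hq1 := and_true hq k1 k2
        refine and_right hz ?_
        rw [neg_neg]
        exact hq1
      · have hp1 := and_left hp k1
        have hq1 := and_right hq (by rw [neg_neg]; exact k2)
        exact and_true hz hp1 hq1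
    · cases β
      · have hp1 := and_right hp k2
        have hq1 := and_left hq (by rw [neg_neg]; exact k1)
        exact and_true hz hp1 hq1
      · have hp1 := and_true hp k1 k2
        refine and_left hz ?_
        rw [neg_neg]
        exact hp1
  have hall := Der.all (Γ := Γ) (N := 1) (univ : Finset (Bool × Bool × Bool))
    (fun t => if (t.1 ^^ t.2.1 ^^ t.2.2) = true then {xcl a y z t.1 t.2.1 t.2.2} else ∅)
    (by
      rintro ⟨α, β, γ⟩ -
      by_cases h : (α ^^ β ^^ γ) = true
      · simp only [h, if_true]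
        exact Der.single (hpat α β γ h)
      · simp only [h]
        exact Der.empty _ _)
  refine hall.mono (Set.Subset.refl _) (by decide) ?_
  rintro D ⟨α, β, γ, h, rfl⟩
  refine ⟨(α, β, γ), Finset.mem_univ _, ?_⟩
  simp [h]

end

section

variable (n W : ℕ)

/-- The number of extension variables. -/
def numE : ℕ := 3 * (W * n) + 1

instance : NeZero (numE n W) := ⟨Nat.succ_ne_zero _⟩

variable {n W}

/-- The positive literal of the extension variable `j`. -/
def ev (j : ℕ) : Lit (Var n (numE n W)) := (Sum.inr (Fin.ofNat (numE n W) j), true)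

/-- The literal of the prefix parity of the vector `w` up to `v`. -/
def PL (w v : ℕ) : Lit (Var n (numE n W)) := if v = 0 then ev 0 else ev (3 * (w * n + v))

/-- The next summand: the variable `v` if it occurs in the vector `w`, and otherwise false. -/
def YL (T : ℕ → Fin n → Bool) (w : ℕ) (v : Fin n) : Lit (Var n (numE n W)) :=
  if T w v then (Sum.inl v, true) else ev 0

/-- The definitions of the extension variables. -/
def dl (hn : 0 < n) (T : ℕ → Fin n → Bool) (j : Fin (numE n W)) :
    Lit (Var n (numE n W)) × Lit (Var n (numE n W)) :=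
  if j.val = 0 then ((Sum.inl ⟨0, hn⟩, true), (Sum.inl ⟨0, hn⟩, false))
  else if (j.val - 1) % 3 = 0 then
    (PL ((j.val - 1) / 3 / n) ((j.val - 1) / 3 % n),
      YL T ((j.val - 1) / 3 / n) ⟨(j.val - 1) / 3 % n, Nat.mod_lt _ hn⟩)
  else if (j.val - 1) % 3 = 1 then
    (negLit (PL ((j.val - 1) / 3 / n) ((j.val - 1) / 3 % n)),
      negLit (YL T ((j.val - 1) / 3 / n) ⟨(j.val - 1) / 3 % n, Nat.mod_lt _ hn⟩))
  else (negLit (ev (j.val - 2)), negLit (ev (j.val - 1)))

theorem ev_val {j : ℕ} (hj : j < numE n W) : (Fin.ofNat (numE n W) j).val = j := by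
  rw [Fin.val_ofNat]
  exact Nat.mod_eq_of_lt hj

theorem avail_ev {j t : ℕ} (hj : j < numE n W) (h : j < t) :
    Avail t (ev (n := n) (W := W) j).1 := by
  intro i hi
  have h1 : Fin.ofNat (numE n W) j = i := Sum.inr_injective hi
  rw [← h1, ev_val hj]
  exact h

theorem avail_inl {t : ℕ} (v : Fin n) : Avail t (Sum.inl v : Var n (numE n W)) := by
  intro i hi
  exact absurd hi (by simp)

theorem dl_avail (hn : 0 < n) (T : ℕ → Fin n → Bool) (j : Fin (numE n W)) :
    Avail j.val (dl hn T j).1.1 ∧ Avail j.val (dl hn T j).2.1 := by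
  have hj := j.isLt
  have hq : (j.val - 1) / 3 / n * n + (j.val - 1) / 3 % n = (j.val - 1) / 3 := by
    rw [mul_comm]
    exact Nat.div_add_mod _ _
  by_cases h0 : j.val = 0
  · simp only [dl, h0, if_true]
    exact ⟨avail_inl _, avail_inl _⟩
  · have hP : Avail j.val
        (PL (n := n) (W := W) ((j.val - 1) / 3 / n) ((j.val - 1) / 3 % n)).1 := by
      unfold PL
      by_cases hv : (j.val - 1) / 3 % n = 0
      · rw [if_pos hv]
        exact avail_ev (by omega) (by omega)
      · rw [if_neg hv, hq]
        exact avail_ev (by omega) (by omega)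
    have hY : Avail j.val (YL (W := W) T ((j.val - 1) / 3 / n)
        ⟨(j.val - 1) / 3 % n, Nat.mod_lt _ hn⟩).1 := by
      unfold YL
      split_ifs
      · exact avail_inl _
      · exact avail_ev (by omega) (by omega)
    by_cases h1 : (j.val - 1) % 3 = 0
    · simp only [dl, h0, h1, if_true, if_false]
      exact ⟨hP, hY⟩
    · by_cases h2 : (j.val - 1) % 3 = 1
      · simp only [dl, h0, h2, if_true, if_false]
        exact ⟨hP, hY⟩
      · simp only [dl, h0, h1, h2, if_false]
        exact ⟨avail_ev (by omega) (by omega), avail_ev (by omega) (by omega)⟩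

variable {F : Finset (Clause (Fin n))} (hn : 0 < n) (T : ℕ → Fin n → Bool)

theorem andCl_base (d : Fin (numE n W) → Lit (Var n (numE n W)) × Lit (Var n (numE n W)))
    (j : ℕ) (hj : j < numE n W) (a b : Lit (Var n (numE n W)))
    (h : d ⟨j, hj⟩ = (a, b)) : AndCl (base F d (numE n W)) (ev j) a b := by
  have hev : (ev j : Lit (Var n (numE n W))) = (Sum.inr ⟨j, hj⟩, true) := by
    unfold ev
    congr 2
    exact Fin.ext (ev_val hj)
  have key : ∀ D ∈ defClauses d ⟨j, hj⟩, D ∈ base F d (numE n W) :=
    fun D hD => Or.inr ⟨⟨j, hj⟩, hj, hD⟩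
  rw [hev]
  refine ⟨key _ ?_, key _ ?_, key _ ?_⟩
  · simp [defClauses, h, negLit]
  · simp [defClauses, h, negLit]
  · simp [defClauses, h, negLit]

theorem numE_lt {w v : ℕ} (hw : w < W) (hv : v < n) : 3 * (w * n + v) + 3 < numE n W := by
  have h1 : (w + 1) * n ≤ W * n := Nat.mul_le_mul_right n hw
  have h2 : (w + 1) * n = w * n + n := by ring
  unfold numE
  omega

/-- The unit clause for the constant false. -/
theorem der_zero : Der (base F (dl (W := W) hn T) (numE n W)) 1 {{litv (ev 0) false}} := by
  have h := andCl_base (F := F) (dl (W := W) hn T) 0 (Nat.succ_pos _)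
    (Sum.inl ⟨0, hn⟩, true) (Sum.inl ⟨0, hn⟩, false) (by simp [dl])
  refine Der.single ?_
  have hmem : litv (ev 0 : Lit (Var n (numE n W))) (!true) ∈
      ({litv (ev 0) false} : Clause (Var n (numE n W))) := by simp
  have h0 := up_assume (Γ := base F (dl (W := W) hn T) (numE n W)) hmem
  have key : ∀ b : Lit (Var n (numE n W)),
      ({negLit (ev 0), b} : Clause (Var n (numE n W))) ∈ base F (dl (W := W) hn T) (numE n W) →
      UnitProp (base F (dl (W := W) hn T) (numE n W))
        {l | negLit l ∈ ({litv (ev 0) false} : Clause (Var n (numE n W)))} b := by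
    intro b hb
    refine UnitProp.step _ _ hb (by simp) ?_
    intro g hg hne
    simp only [Finset.mem_insert, Finset.mem_singleton] at hg
    rcases hg with rfl | rfl
    · rw [neg_neg]; exact h0
    · exact absurd rfl hne
  exact Or.inr ⟨_, key _ h.1, key _ h.2.1⟩

/-- The parity constraint between consecutive prefix parities. -/
theorem der_gate {w : ℕ} (hw : w < W) (v : Fin n) :
    Der (base F (dl (W := W) hn T) (numE n W)) 8 (xor3 (PL w v) (YL T w v) (PL w (v + 1))) := by
  have hlt := numE_lt hw v.isLt
  set q := w * n + v.val with hq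
  have hqn : q / n = w := by
    rw [hq, Nat.mul_comm, Nat.mul_add_div hn, Nat.div_eq_of_lt v.isLt, add_zero]
  have hqm : q % n = v.val := by
    rw [hq, Nat.mul_comm, Nat.mul_add_mod, Nat.mod_eq_of_lt v.isLt]
  have e0 : (3 * q + 1 - 1) % 3 = 0 := by omega
  have e1 : (3 * q + 1 - 1) / 3 = q := by omega
  have e2 : (3 * q + 2 - 1) / 3 = q := by omega
  have e3 : (3 * q + 2 - 1) % 3 = 1 := by omega
  have e4 : (3 * q + 3 - 1) % 3 = 2 := by omega
  have h1 := andCl_base (F := F) (dl (W := W) hn T) (3 * q + 1) (by omega)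
    (PL w v) (YL T w v) (by
      simp only [dl, e0, e1, hqn, hqm, if_true]
      rw [if_neg (by omega)])
  have h2 := andCl_base (F := F) (dl (W := W) hn T) (3 * q + 2) (by omega)
    (negLit (PL w v)) (negLit (YL T w v)) (by
      simp only [dl, e3, e2, hqn, hqm, if_true]
      rw [if_neg (by omega), if_neg (by norm_num)])
  have h3 := andCl_base (F := F) (dl (W := W) hn T) (3 * q + 3) (by omega)
    (negLit (ev (3 * q + 1))) (negLit (ev (3 * q + 2))) (by
      simp only [dl, e4]
      rw [if_neg (by omega), if_neg (by norm_num), if_neg (by norm_num)]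
      rfl)
  have h4 : (PL w (v + 1) : Lit (Var n (numE n W))) = ev (3 * q + 3) := by
    unfold PL
    rw [if_neg (by omega), hq]
    congr 1
  rw [h4]
  exact xor_gate h1 h2 h3

/-- All parity constraints of the circuit. -/
theorem der_circuit : Der (base F (dl (W := W) hn T) (numE n W)) (1 + W * (n * 8))
    ({{litv (ev 0) false}} ∪
      {D | ∃ w < W, ∃ v : Fin n, D ∈ xor3 (PL w v) (YL T w v) (PL w (v + 1))}) := by
  classical
  refine (der_zero (F := F) hn T).union ?_
  have h1 : ∀ w ∈ range W, Der (base F (dl (W := W) hn T) (numE n W)) (n * 8)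
      {D | ∃ v : Fin n, D ∈ xor3 (PL w v) (YL T w v) (PL w (v + 1))} := by
    intro w hw
    have h2 := Der.all (univ : Finset (Fin n)) (fun v => xor3 (PL w v) (YL T w v) (PL w (v + 1)))
      (fun v _ => der_gate (F := F) hn T (mem_range.1 hw) v)
    rw [card_univ, Fintype.card_fin] at h2
    refine h2.mono (Set.Subset.refl _) le_rfl ?_
    rintro D ⟨v, hD⟩
    exact ⟨v, mem_univ _, hD⟩
  have h2 := Der.all (range W) _ h1
  rw [card_range] at h2
  refine h2.mono (Set.Subset.refl _) le_rfl ?_
  rintro D ⟨w, hw, v, hD⟩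
  exact ⟨w, mem_range.2 hw, v, hD⟩

end

end Pool.Agent.MP_9cec2c_lc.SubstExt
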