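import Pool.Agent.Lib.MP_9cec2c_lc.SXDefs

/-!
Extended resolution, written with reverse unit propagation.
-/

set_option autoImplicit false

namespace Pool.Agent.MP_9cec2c_lc.SubstExt

/-- A refutation of `F` in extended resolution with the `S` lines `L 0, …, L (S - 1)` and `e`
extension variables: the extension variable `j` is defined as the conjunction of two literals
of older variables; each line has a reverse unit propagation proof from the clauses of `F`,
the definitions and the earlier lines; one of the lines is the empty clause. -/
def IsExtRefutation {n e S : ℕ} (F : Finset (Clause (Fin n)))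
    (L : Fin S → Clause (Var n e)) : Prop :=
  ∃ d : Fin e → Lit (Var n e) × Lit (Var n e),
    (∀ j : Fin e, Avail j.val (d j).1.1 ∧ Avail j.val (d j).2.1) ∧ (∃ i, L i = ∅) ∧
    ∀ i : Fin S, RUP {D | D ∈ base F d e ∨ ∃ j < i, D = L j} (L i)

end Pool.Agent.MP_9cec2c_lc.SubstExt
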