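import Pool.Agent.Lib.MP_9cec2c_lc.SYDefs

/-!
Extended resolution, written with reverse unit propagation: derivations and their lengths.
-/

set_option autoImplicit false

namespace Pool.Agent.MP_9cec2c_lc.SubstExt

open Finset

variable {V : Type}

theorem neg_neg (l : Lit V) : negLit (negLit l) = l := by
  simp [negLit]

theorem UnitProp.mono {Γ Γ' : Set (Clause V)} {A A' : Set (Lit V)} (h : Γ ⊆ Γ') (hA : A ⊆ A')
    {l : Lit V} (hl : UnitProp Γ A l) : UnitProp Γ' A' l := by
  induction hl with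
  | init l hl => exact UnitProp.init l (hA hl)
  | step G l hG hl _ ih => exact UnitProp.step G l (h hG) hl ih

theorem RUP.mono {Γ Γ' : Set (Clause V)} (h : Γ ⊆ Γ') {C : Clause V} (hC : RUP Γ C) :
    RUP Γ' C := by
  rcases hC with ⟨G, hG, h1⟩ | ⟨l, h1, h2⟩
  · exact Or.inl ⟨G, h hG, fun g hg => (h1 g hg).mono h (Set.Subset.refl _)⟩
  · exact Or.inr ⟨l, h1.mono h (Set.Subset.refl _), h2.mono h (Set.Subset.refl _)⟩

/-- Each line of the list (the last line comes first) has a reverse unit propagation proof from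
`Γ` and the lines before it. -/
def Deriv (Γ : Set (Clause V)) : List (Clause V) → Prop
  | [] => True
  | C :: ls => Deriv Γ ls ∧ RUP {D | D ∈ Γ ∨ D ∈ ls} C

theorem Deriv.mono {Γ Γ' : Set (Clause V)} (h : Γ ⊆ Γ') {ls : List (Clause V)}
    (hl : Deriv Γ ls) : Deriv Γ' ls := by
  induction ls with
  | nil => trivial
  | cons C ls ih =>
    refine ⟨ih hl.1, hl.2.mono ?_⟩
    rintro D (hD | hD)
    · exact Or.inl (h hD)
    · exact Or.inr hD

theorem Deriv.append {Γ : Set (Clause V)} {ls ls' : List (Clause V)} (h : Deriv Γ ls)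
    (h' : Deriv {D | D ∈ Γ ∨ D ∈ ls} ls') : Deriv Γ (ls' ++ ls) := by
  induction ls' with
  | nil => exact h
  | cons C ls' ih =>
    refine ⟨ih h'.1, h'.2.mono ?_⟩
    rintro D ((hD | hD) | hD)
    · exact Or.inl hD
    · exact Or.inr (List.mem_append_right _ hD)
    · exact Or.inr (List.mem_append_left _ hD)

/-- All clauses of `X` occur in `Γ` or in one derivation from `Γ` with at most `N` lines. -/
def Der (Γ : Set (Clause V)) (N : ℕ) (X : Set (Clause V)) : Prop :=
  ∃ ls : List (Clause V), Deriv Γ ls ∧ ls.length ≤ N ∧ ∀ D ∈ X, D ∈ Γ ∨ D ∈ ls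

theorem Der.empty (Γ : Set (Clause V)) (N : ℕ) : Der Γ N ∅ :=
  ⟨[], trivial, Nat.zero_le _, fun D hD => absurd hD (Set.notMem_empty D)⟩

theorem Der.single {Γ : Set (Clause V)} {C : Clause V} (h : RUP Γ C) : Der Γ 1 {C} := by
  refine ⟨[C], ⟨trivial, h.mono fun D hD => Or.inl hD⟩, le_refl _, ?_⟩
  intro D hD
  rw [Set.mem_singleton_iff.1 hD]
  exact Or.inr List.mem_cons_self

theorem Der.mono {Γ Γ' : Set (Clause V)} {N N' : ℕ} {X X' : Set (Clause V)} (h : Γ ⊆ Γ')
    (hN : N ≤ N') (hX : X' ⊆ X) (hd : Der Γ N X) : Der Γ' N' X' := by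
  obtain ⟨ls, h1, h2, h3⟩ := hd
  refine ⟨ls, h1.mono h, h2.trans hN, fun D hD => ?_⟩
  rcases h3 D (hX hD) with h4 | h4
  · exact Or.inl (h h4)
  · exact Or.inr h4

theorem Der.trans {Γ : Set (Clause V)} {N M : ℕ} {X Y : Set (Clause V)} (h : Der Γ N X)
    (h' : Der (Γ ∪ X) M Y) : Der Γ (N + M) (X ∪ Y) := by
  obtain ⟨ls, h1, h2, h3⟩ := h
  obtain ⟨ls', k1, k2, k3⟩ := h'
  have hsub : Γ ∪ X ⊆ {D | D ∈ Γ ∨ D ∈ ls} := by
    rintro D (hD | hD)
    · exact Or.inl hD
    · exact h3 D hD
  refine ⟨ls' ++ ls, h1.append (k1.mono hsub), ?_, ?_⟩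
  · rw [List.length_append]; omega
  · rintro D (hD | hD)
    · rcases h3 D hD with h4 | h4
      · exact Or.inl h4
      · exact Or.inr (List.mem_append_right _ h4)
    · rcases k3 D hD with h4 | h4
      · rcases hsub h4 with h5 | h5
        · exact Or.inl h5
        · exact Or.inr (List.mem_append_right _ h5)
      · exact Or.inr (List.mem_append_left _ h4)

theorem Der.union {Γ : Set (Clause V)} {N M : ℕ} {X Y : Set (Clause V)} (h : Der Γ N X)
    (h' : Der Γ M Y) : Der Γ (N + M) (X ∪ Y) :=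
  h.trans (h'.mono Set.subset_union_left le_rfl (Set.Subset.refl _))

/-- Finitely many independent derivations. -/
theorem Der.all {ι : Type} {Γ : Set (Clause V)} {N : ℕ} (s : Finset ι)
    (X : ι → Set (Clause V)) (h : ∀ i ∈ s, Der Γ N (X i)) :
    Der Γ (s.card * N) {D | ∃ i ∈ s, D ∈ X i} := by
  classical
  induction s using Finset.induction_on with
  | empty =>
    refine (Der.empty Γ _).mono (Set.Subset.refl _) le_rfl ?_
    rintro D ⟨i, hi, -⟩
    exact absurd hi (Finset.notMem_empty i)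
  | insert a s ha ih =>
    have h1 := ih fun i hi => h i (Finset.mem_insert_of_mem hi)
    have h2 := h a (Finset.mem_insert_self a s)
    refine (h1.union h2).mono (Set.Subset.refl _) ?_ ?_
    · rw [Finset.card_insert_of_notMem ha]
      exact le_of_eq (by ring)
    · rintro D ⟨i, hi, hD⟩
      rcases Finset.mem_insert.1 hi with rfl | hi
      · exact Or.inr hD
      · exact Or.inl ⟨i, hi, hD⟩

/-- Successive derivations. -/
theorem Der.steps {Γ : Set (Clause V)} {N : ℕ} (X : ℕ → Set (Clause V)) (M : ℕ)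
    (h : ∀ i < M, Der (Γ ∪ {D | ∃ j < i, D ∈ X j}) N (X i)) :
    Der Γ (M * N) {D | ∃ j < M, D ∈ X j} := by
  induction M with
  | zero =>
    refine (Der.empty Γ _).mono (Set.Subset.refl _) le_rfl ?_
    rintro D ⟨i, hi, -⟩
    exact absurd hi (Nat.not_lt_zero i)
  | succ M ih =>
    have h1 := ih fun i hi => h i (Nat.lt_succ_of_lt hi)
    have h2 := h1.trans (h M (Nat.lt_succ_self M))
    refine h2.mono (Set.Subset.refl _) (le_of_eq (by ring)) ?_
    rintro D ⟨i, hi, hD⟩
    rcases Nat.lt_succ_iff_lt_or_eq.1 hi with h3 | rfl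
    · exact Or.inl ⟨i, h3, hD⟩
    · exact Or.inr hD

theorem IsExtRefutation.isRefutation {n e S : ℕ} {F : Finset (Clause (Fin n))}
    {L : Fin S → Clause (Var n e)} (h : IsExtRefutation F L) : IsRefutation F L := by
  obtain ⟨d, h1, h2, h3⟩ := h
  refine ⟨d, fun _ => e, h1, monotone_const, h2, fun i => ⟨fun l _ j _ => j.isLt, ?_⟩⟩
  exact Or.inl (h3 i)

theorem deriv_get {Γ : Set (Clause V)} {ls : List (Clause V)} (h : Deriv Γ ls) :
    ∀ (i : ℕ) (hi : i < ls.length),
      RUP {D | D ∈ Γ ∨ ∃ j, ∃ hj : j < ls.length, i < j ∧ D = ls[j]} ls[i] := by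
  induction ls with
  | nil => intro i hi; exact absurd hi (Nat.not_lt_zero i)
  | cons C ls ih =>
    intro i hi
    rcases i with _ | i
    · refine h.2.mono ?_
      rintro D (hD | hD)
      · exact Or.inl hD
      · obtain ⟨j, hj, rfl⟩ := List.getElem_of_mem hD
        exact Or.inr ⟨j + 1, by simpa using hj, Nat.succ_pos j, by simp⟩
    · have hi' : i < ls.length := by simpa using hi
      have h1 := ih h.1 i hi'
      have h2 : (C :: ls)[i + 1] = ls[i] := by simp
      rw [h2]
      refine h1.mono ?_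
      rintro D (hD | ⟨j, hj, hij, rfl⟩)
      · exact Or.inl hD
      · exact Or.inr ⟨j + 1, by simpa using hj, by omega, by simp⟩

/-- A derivation of the empty clause is a refutation in extended resolution. -/
theorem exists_refutation {n e N : ℕ} {F : Finset (Clause (Fin n))}
    (d : Fin e → Lit (Var n e) × Lit (Var n e))
    (hd : ∀ j : Fin e, Avail j.val (d j).1.1 ∧ Avail j.val (d j).2.1)
    {X : Set (Clause (Var n e))} (h : Der (base F d e) N X) (h' : RUP (base F d e ∪ X) ∅) :
    ∃ S : ℕ, S ≤ N + 1 ∧ ∃ L : Fin S → Clause (Var n e), IsExtRefutation F L := by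
  obtain ⟨ls', h1', h2', h3'⟩ := h
  have h1 : Deriv (base F d e) (∅ :: ls') := by
    refine ⟨h1', h'.mono ?_⟩
    rintro D (hD | hD)
    · exact Or.inl hD
    · exact h3' D hD
  have h4 : (∅ : Clause (Var n e)) ∈ (∅ :: ls' : List (Clause (Var n e))) :=
    List.mem_cons_self
  have h2 : (∅ :: ls' : List (Clause (Var n e))).length ≤ N + 1 := by
    rw [List.length_cons]; omega
  generalize (∅ :: ls' : List (Clause (Var n e))) = ls at h1 h2 h4
  refine ⟨ls.length, h2, fun i => ls[ls.length - 1 - i.val]'(by omega), d, hd, ?_, ?_⟩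
  · obtain ⟨j, hj, hje⟩ := List.getElem_of_mem h4
    refine ⟨⟨ls.length - 1 - j, by omega⟩, ?_⟩
    simp only
    rw [← hje]
    congr 1
    omega
  · intro i
    refine (deriv_get h1 (ls.length - 1 - i.val) (by omega)).mono ?_
    rintro D (hD | ⟨j, hj, hij, rfl⟩)
    · exact Or.inl hD
    · refine Or.inr ⟨⟨ls.length - 1 - j, by omega⟩, ?_, ?_⟩
      · rw [Fin.lt_def]
        simp only
        omega
      · simp only
        congr 1
        omega

end Pool.Agent.MP_9cec2c_lc.SubstExt
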