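import Pool.Agent.Lib.MP_9cec2c_lc.SYRow

/-!
A short refutation, in extended resolution, of an inconsistent system of parity equations:
the final count.
-/

set_option autoImplicit false
set_option linter.unusedSectionVars false

namespace Pool.Agent.MP_9cec2c_lc.SubstExt

open Finset
open Pool.Agent.MP_9cec2c_lc.SubstRed (bz bz_inj bz_beq bz_ne z2_add_self z2_eq_of_add z2_ne
  vec rowSum sum_vec_mul rowClause cnf mem_cnf unsat_cert bz_surj z2_cases holds_of_sat)

variable {n m k : ℕ}

/-- The row `i`, or zero if it is not used. -/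
def Rv (H : Fin m → Fin k → Fin n) (J : Finset (Fin m)) (i : ℕ) (u : Fin n) : ZMod 2 :=
  if h : i < m then (if ⟨i, h⟩ ∈ J then vec (H ⟨i, h⟩) u else 0) else 0

/-- The right-hand side of the row `i`, or zero if it is not used. -/
def Bv (b : Fin m → ZMod 2) (J : Finset (Fin m)) (i : ℕ) : ZMod 2 :=
  if h : i < m then (if ⟨i, h⟩ ∈ J then b ⟨i, h⟩ else 0) else 0

/-- The vectors of the circuit: partial sums and rows. -/
noncomputable def TT (H : Fin m → Fin k → Fin n) (J : Finset (Fin m)) (w : ℕ) (u : Fin n) :
    Bool :=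
  if w % 2 = 0 then decide (∑ i ∈ range (w / 2), Rv H J i u = 1) else
    decide (Rv H J (w / 2) u = 1)

theorem bz_decide (x : ZMod 2) : bz (decide (x = 1)) = x := by
  rcases z2_cases x with rfl | rfl <;> decide

theorem TT_even (H : Fin m → Fin k → Fin n) (J : Finset (Fin m)) (i : ℕ) (u : Fin n) :
    bz (TT H J (2 * i) u) = ∑ i' ∈ range i, Rv H J i' u := by
  unfold TT
  rw [if_pos (by omega), bz_decide]
  congr 2
  omega

theorem TT_odd (H : Fin m → Fin k → Fin n) (J : Finset (Fin m)) (i : ℕ) (u : Fin n) :
    bz (TT H J (2 * i + 1) u) = Rv H J i u := by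
  unfold TT
  rw [if_neg (by omega), bz_decide]
  congr 1
  omega

theorem bool_of_bz {a b c : Bool} (h : bz c = bz a + bz b) : (a ^^ b ^^ c) = false := by
  revert h
  cases a <;> cases b <;> cases c <;> decide

/-- The number of lines. -/
def numS (n m k : ℕ) : ℕ :=
  1 + (2 * m + 1) * (n * 8) + m * ((n + 1) * 24) + m * ((k + 1) * 2 ^ k + 1) + 1

theorem upper (hn : 0 < n) (H : Fin m → Fin k → Fin n) (b : Fin m → ZMod 2)
    (hun : ∀ x : Fin n → Bool, ∃ C ∈ cnf H b, ¬ Holds x C) :
    ∃ S : ℕ, S ≤ numS n m k ∧ ∃ L : Fin S → Clause (Var n (numE n (2 * m + 1))),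
      IsExtRefutation (cnf H b) L := by
  classical
  obtain ⟨J, -, hJ1, hJ2⟩ := unsat_cert (fun i => vec (H i)) b univ (by
    intro y hy
    choose z hz using fun v => bz_surj (y v)
    obtain ⟨C, hC, hne⟩ := hun z
    obtain ⟨i, s, hs, rfl⟩ := mem_cnf.1 hC
    refine hne (holds_of_sat (b := b) (i := i) ?_ hs)
    rw [← sum_vec_mul, ← hy i (mem_univ i)]
    refine sum_congr rfl fun v _ => ?_
    rw [hz])
  set W := 2 * m + 1 with hW
  set T := TT H J with hTdef
  have hsumT : ∀ v, ∑ i ∈ range m, Rv H J i v = 0 := by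
    intro v
    rw [sum_range]
    have h1 : ∀ i : Fin m, Rv H J i v = if i ∈ J then vec (H i) v else 0 := by
      intro i
      simp [Rv]
    simp only [h1]
    rw [sum_ite_mem, univ_inter]
    exact hJ1 v
  have hsumB : ∑ i ∈ range m, Bv b J i = 1 := by
    rw [sum_range]
    have h1 : ∀ i : Fin m, Bv b J i = if i ∈ J then b i else 0 := by
      intro i
      simp [Bv]
    simp only [h1]
    rw [sum_ite_mem, univ_inter]
    exact hJ2
  let Γ := base (cnf H b) (dl (W := W) hn T) (numE n W)
  -- the circuit
  have d1 := der_circuit (F := cnf H b) (W := W) hn T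
  set X1 : Set (Clause (Var n (numE n W))) := {{litv (ev 0) false}} ∪
      {D | ∃ w < W, ∃ v : Fin n, D ∈ xor3 (PL w v) (YL T w v) (PL w (v + 1))} with hX1
  have hc1 : HasCirc T W (Γ ∪ X1) := by
    refine ⟨Or.inr (Or.inl rfl), fun w hw v D hD => Or.inr (Or.inr ⟨w, hw, v, hD⟩)⟩
  -- the sums
  have hxor : ∀ i < m, ∀ v, (T (2 * i) v ^^ T (2 * i + 1) v ^^ T (2 * i + 2) v) = false := by
    intro i _ v
    refine bool_of_bz ?_
    have e1 : 2 * i + 2 = 2 * (i + 1) := by ring
    rw [hTdef, e1, TT_even, TT_even, TT_odd, sum_range_succ]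
  have d2 := Der.all (Γ := Γ ∪ X1) (N := (n + 1) * 24) (range m)
    (fun i => {D | ∃ v < n + 1, D ∈ xor3 (PL (2 * i) v) (PL (2 * i + 1) v)
      (PL (2 * i + 2) v)}) (by
      intro i hi
      have hi' := mem_range.1 hi
      exact der_sum T hc1 (by omega) (by omega) (by omega) (hxor i hi'))
  rw [card_range] at d2
  set X2 : Set (Clause (Var n (numE n W))) := {D | ∃ i ∈ range m, D ∈
    {D | ∃ v < n + 1, D ∈ xor3 (PL (2 * i) v) (PL (2 * i + 1) v) (PL (2 * i + 2) v)}} with hX2
  -- the rows
  choose β hβ using fun i => bz_surj (Bv b J i)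
  have d3 := Der.all (Γ := Γ ∪ X1) (N := (k + 1) * 2 ^ k + 1) (range m)
    (fun i => {{litv (PL (2 * i + 1) n) (β i)}}) (by
      intro i hi
      have hi' := mem_range.1 hi
      by_cases hJi : (⟨i, hi'⟩ : Fin m) ∈ J
      · refine (der_row (H := H) (b := b) (d := dl (W := W) hn T) T Set.subset_union_left hc1
          (w := 2 * i + 1) (by omega) ⟨i, hi'⟩ ?_ ?_).mono (Set.Subset.refl _) (by omega)
          (Set.Subset.refl _)
        · intro v
          rw [hTdef, TT_odd]
          simp [Rv, hi', hJi]
        · rw [hβ]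
          simp [Bv, hi', hJi]
      · have hβ0 : β i = false := by
          have h1 := hβ i
          have h2 : Bv b J i = 0 := by simp [Bv, hi', hJi]
          rw [h2] at h1
          revert h1
          cases β i <;> decide
        rw [hβ0]
        refine (Der.single (Γ := Γ ∪ X1) (C := {litv (PL (2 * i + 1) n) false}) ?_).mono
          (Set.Subset.refl _) (by omega) (Set.Subset.refl _)
        have hT0 : ∀ v, T (2 * i + 1) v = false := by
          intro v
          have h1 := TT_odd H J i v
          have h2 : Rv H J i v = 0 := by simp [Rv, hi', hJi]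
          rw [h2] at h1
          rw [hTdef]
          revert h1
          cases TT H J (2 * i + 1) v <;> decide
        have h1 := up_par T hc1 (w := 2 * i + 1) (by omega) (fun _ => false)
          (A := {l | negLit l ∈ ({litv (PL (2 * i + 1) n) false} :
            Clause (Var n (numE n W)))}) (by
            intro v hv
            rw [hT0 v] at hv
            exact absurd hv (by decide)) n le_rfl
        have h2 : par T (2 * i + 1) (fun _ => false) n = false := by
          refine bz_inj ?_
          rw [bz_par]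
          simp only [hT0]
          simp [bz]
        rw [h2] at h1
        refine conflict h1 (up_assume ?_)
        simp)
  rw [card_range] at d3
  set X3 : Set (Clause (Var n (numE n W))) := {D | ∃ i ∈ range m, D ∈
    ({{litv (PL (2 * i + 1) n) (β i)}} : Set (Clause (Var n (numE n W))))} with hX3
  have dall := d1.trans (d2.union d3)
  have hfin : RUP (Γ ∪ (X1 ∪ (X2 ∪ X3))) ∅ := by
    have hc : HasCirc T W (Γ ∪ (X1 ∪ (X2 ∪ X3))) := by
      refine HasCirc.mono T ?_ hc1
      rintro D (hD | hD)
      · exact Or.inl hD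
      · exact Or.inr (Or.inl hD)
    have hzero : ∀ w < W, (∀ v, T w v = false) →
        UnitProp (Γ ∪ (X1 ∪ (X2 ∪ X3))) {l | negLit l ∈ (∅ : Clause (Var n (numE n W)))}
          (litv (PL w n) false) := by
      intro w hw hT0
      have h1 := up_par T hc hw (fun _ => false)
        (A := {l | negLit l ∈ (∅ : Clause (Var n (numE n W)))}) (by
          intro v hv
          rw [hT0 v] at hv
          exact absurd hv (by decide)) n le_rfl
      have h2 : par T w (fun _ => false) n = false := by
        refine bz_inj ?_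
        rw [bz_par]
        simp only [hT0]
        simp [bz]
      rw [h2] at h1
      exact h1
    -- the partial sums
    have hsum : ∀ i ≤ m, ∃ γ : Bool, bz γ = ∑ i' ∈ range i, Bv b J i' ∧
        UnitProp (Γ ∪ (X1 ∪ (X2 ∪ X3))) {l | negLit l ∈ (∅ : Clause (Var n (numE n W)))}
          (litv (PL (2 * i) n) γ) := by
      intro i
      induction i with
      | zero =>
        intro _
        refine ⟨false, by simp [bz], hzero _ (by omega) ?_⟩
        intro v
        have h1 := TT_even H J 0 v
        rw [hTdef]
        revert h1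
        simp only [mul_zero, range_zero, sum_empty]
        cases TT H J 0 v <;> decide
      | succ i ih =>
        intro hi
        obtain ⟨γ, h1, h2⟩ := ih (by omega)
        refine ⟨γ ^^ β i, ?_, ?_⟩
        · rw [bz_xor, h1, hβ, sum_range_succ]
        · have h3 : UnitProp (Γ ∪ (X1 ∪ (X2 ∪ X3)))
              {l | negLit l ∈ (∅ : Clause (Var n (numE n W)))}
              (litv (PL (2 * i + 1) n) (β i)) := by
            refine up_unit (Or.inr (Or.inr (Or.inr ⟨i, mem_range.2 (by omega), ?_⟩)))
            exact rfl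
          have h4 : xor3 (PL (2 * i) n) (PL (2 * i + 1) n) (PL (2 * i + 2) n) ⊆
              (Γ ∪ (X1 ∪ (X2 ∪ X3))) := by
            intro D hD
            exact Or.inr (Or.inr (Or.inl ⟨i, mem_range.2 (by omega), n, by omega, hD⟩))
          have h5 := up_xor h4 h2 h3
          have e1 : 2 * (i + 1) = 2 * i + 2 := by ring
          rw [e1]
          exact h5
    obtain ⟨γ, h1, h2⟩ := hsum m le_rfl
    have hγ : γ = true := by
      rw [hsumB] at h1
      revert h1
      cases γ <;> decide
    rw [hγ] at h2
    refine conflict h2 (hzero _ (by omega) ?_)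
    intro v
    have h3 := TT_even H J m v
    rw [hsumT v] at h3
    rw [hTdef]
    revert h3
    cases TT H J (2 * m) v <;> decide
  obtain ⟨S, hS, L, hL⟩ := exists_refutation (dl (W := W) hn T) (dl_avail hn T) dall hfin
  refine ⟨S, hS.trans (le_of_eq ?_), L, hL⟩
  unfold numS
  ring

end Pool.Agent.MP_9cec2c_lc.SubstExt
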