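import Pool.Agent.Lib.MP_9cec2c_lc.SXFinal
import Pool.Agent.Lib.MP_9cec2c_lc.SYUpper

/-!
The exponential separation.
-/

set_option autoImplicit false
set_option exponentiation.threshold 2000

namespace Pool.Agent.MP_9cec2c_lc.SubstExt

open Finset
open Pool.Agent.MP_9cec2c_lc.SubstRed (Ext cnt uniq vars mem_uniq mem_vars card_vars_le
  dom mem_dom notMem_dom pr pr_eq pr_nonneg pr_mono pr_le_one exists_of_pr_lt_one pr_or
  pr_exists pr_exists_fintype pr_false rowSum OneIn OddIn oneIn_pr oddIn_pr all_fail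
  unsat_bound rigid_bound Size cnf mem_cnf card_rowClause_le sat_of_holds card_cnf_le
  exp_neg_three)

theorem numE_le {n : ℕ} (hn : 2 ^ 500 ≤ n) : numE n (2 * n ^ 4 + 1) ≤ n ^ 40 := by
  have h1 : 100 ≤ n := le_trans (by norm_num) hn
  have h0 : 1 ≤ n := by omega
  unfold numE
  have h2 : n ^ 6 ≤ n ^ 40 := Nat.pow_le_pow_right h0 (by norm_num)
  have h3 : n ^ 5 * 100 ≤ n ^ 6 := by
    rw [pow_succ n 5]
    exact Nat.mul_le_mul_left _ h1
  have h4 : n ≤ n ^ 5 := by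
    calc n = n ^ 1 := (pow_one n).symm
      _ ≤ n ^ 5 := Nat.pow_le_pow_right h0 (by norm_num)
  have h5 : 3 * ((2 * n ^ 4 + 1) * n) + 1 = 6 * n ^ 5 + 3 * n + 1 := by ring
  omega

theorem numS_le {n L : ℕ} (h : Size n L) : numS n (n ^ 4) (32 * L + 1) ≤ n ^ 40 := by
  have hp := h.pos
  have hbig := big_pos h
  have hlin := big_lin h
  have h0 : 1 ≤ n := by
    have : 1 ≤ 2 ^ 500 := Nat.one_le_two_pow
    omega
  have h100 : 2 ^ 40 ≤ n := le_trans (by norm_num) hbig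
  have hk : 32 * L + 1 + 1 ≤ n := by
    have h1 : 2 ^ 500 * L ≤ n := hlin
    have h2 : 34 * L ≤ 2 ^ 500 * L := Nat.mul_le_mul_right L (by norm_num)
    have h3 := h.big
    omega
  have h2k : 2 ^ (32 * L + 1) ≤ 2 ^ 33 * n ^ 32 := by
    have h2L : 2 ^ (32 * L + 1) = 2 * (2 ^ L) ^ 32 := by
      rw [← pow_mul, ← pow_succ']
      congr 1
      ring
    rw [h2L]
    calc 2 * (2 ^ L) ^ 32 ≤ 2 * (2 * n) ^ 32 := by
          have := h.two_pow
          gcongr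
      _ = 2 ^ 33 * n ^ 32 := by ring
  have h3 : (32 * L + 1 + 1) * 2 ^ (32 * L + 1) ≤ 2 ^ 33 * n ^ 33 := by
    calc (32 * L + 1 + 1) * 2 ^ (32 * L + 1) ≤ n * (2 ^ 33 * n ^ 32) :=
          Nat.mul_le_mul hk h2k
      _ = 2 ^ 33 * n ^ 33 := by ring
  have h4 : n ^ 4 * ((32 * L + 1 + 1) * 2 ^ (32 * L + 1) + 1) ≤
      2 ^ 33 * n ^ 37 + n ^ 4 := by
    calc n ^ 4 * ((32 * L + 1 + 1) * 2 ^ (32 * L + 1) + 1) ≤ n ^ 4 * (2 ^ 33 * n ^ 33 + 1) :=
          Nat.mul_le_mul_left _ (by omega)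
      _ = 2 ^ 33 * n ^ 37 + n ^ 4 := by ring
  have p1 : n ≤ n ^ 5 := by
    calc n = n ^ 1 := (pow_one n).symm
      _ ≤ n ^ 5 := Nat.pow_le_pow_right h0 (by norm_num)
  have p2 : n ^ 4 ≤ n ^ 5 := Nat.pow_le_pow_right h0 (by norm_num)
  have p3 : n ^ 5 ≤ n ^ 37 := Nat.pow_le_pow_right h0 (by norm_num)
  have p4 : n ^ 37 * 2 ^ 40 ≤ n ^ 38 := by
    rw [pow_succ n 37]
    exact Nat.mul_le_mul_left _ h100
  have p5 : n ^ 38 ≤ n ^ 40 := Nat.pow_le_pow_right h0 (by norm_num)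
  have p6 : 1 ≤ n ^ 5 := Nat.one_le_pow _ _ h0
  unfold numS
  have e1 : 1 + (2 * n ^ 4 + 1) * (n * 8) + n ^ 4 * ((n + 1) * 24) =
      40 * n ^ 5 + 24 * n ^ 4 + 8 * n + 1 := by ring
  rw [e1]
  have e2 : (2 : ℕ) ^ 33 * n ^ 37 + n ^ 4 + (40 * n ^ 5 + 24 * n ^ 4 + 8 * n + 1) + 1 ≤
      n ^ 37 * 2 ^ 40 := by
    have : (2 : ℕ) ^ 33 * n ^ 37 = n ^ 37 * 2 ^ 33 := by ring
    rw [this]
    have e3 : n ^ 37 * 2 ^ 33 + n ^ 37 * 100 ≤ n ^ 37 * 2 ^ 40 := by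
      rw [← Nat.mul_add]
      exact Nat.mul_le_mul_left _ (by norm_num)
    refine le_trans ?_ e3
    generalize n ^ 37 * 2 ^ 33 = A
    linarith
  refine le_trans ?_ (p4.trans p5)
  refine le_trans ?_ e2
  generalize (2 : ℕ) ^ 33 * n ^ 37 = A at h4 ⊢
  linarith

/-- The exponential separation, for one formula. -/
theorem main_sep (n L : ℕ) (h : Size n L) :
    ∃ F : Finset (Clause (Fin n)), F.card ≤ n ^ 40 ∧ (∀ C ∈ F, C.card ≤ 32 * L + 1) ∧
      (∀ x : Fin n → Bool, ∃ C ∈ F, ¬ Holds x C) ∧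
      (∀ (e S : ℕ) (L : Fin S → Clause (Var n e)), (e : ℝ) ≤ 1 / 2 ^ 400 * (n : ℝ) →
        IsRefutation F L → (2 : ℝ) ^ (1 / 2 ^ 400 * (n : ℝ)) ≤ S) ∧
      ∃ (e S : ℕ) (L : Fin S → Clause (Var n e)), e ≤ n ^ 40 ∧ S ≤ n ^ 40 ∧
        IsExtRefutation F L := by
  classical
  have hp := h.pos
  have hbig := h.big
  have : NeZero n := ⟨by omega⟩
  obtain ⟨H, b, g1, g2, g3, g4, g5⟩ := exists_good n L h
  have hunsat : ∀ x : Fin n → Bool, ∃ C ∈ cnf H b, ¬ Holds x C := by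
    intro x
    by_contra hcon
    push Not at hcon
    have h1 := g5 x
    have h2 : univ.filter (fun i => rowSum (H i) x ≠ b i) = ∅ := by
      rw [filter_eq_empty_iff]
      intro i _
      rw [not_not]
      exact sat_of_holds fun s hs => hcon _ (mem_cnf.2 ⟨i, s, hs, rfl⟩)
    rw [h2] at h1
    simp at h1
  refine ⟨cnf H b, ?_, ?_, hunsat, ?_, ?_⟩
  · refine (card_cnf_le H b).trans ?_
    have h2L : 2 ^ (32 * L + 1) = 2 * (2 ^ L) ^ 32 := by
      rw [← pow_mul, ← pow_succ']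
      congr 1
      ring
    calc n ^ 4 * 2 ^ (32 * L + 1) = n ^ 4 * (2 * (2 ^ L) ^ 32) := by
          rw [h2L]
      _ ≤ n ^ 4 * (2 * (2 * n) ^ 32) := by
          have := h.two_pow
          gcongr
      _ = 2 ^ 33 * n ^ 36 := by ring
      _ ≤ n * n ^ 36 := by
          gcongr
          exact le_trans (by norm_num) hp
      _ = n ^ 37 := by ring
      _ ≤ n ^ 40 := Nat.pow_le_pow_right (by omega) (by norm_num)
  · intro C hC
    obtain ⟨i, s, -, rfl⟩ := mem_cnf.1 hC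
    exact card_rowClause_le _ _
  · intro e S Lines he hL
    by_contra hcon
    push Not at hcon
    have he' : 2 ^ 400 * e ≤ n := by
      have h1 : (2 : ℝ) ^ 400 * e ≤ n := by
        have h2 : (2 : ℝ) ^ 400 * (1 / 2 ^ 400 * (n : ℝ)) = n := by
          rw [← mul_assoc, mul_one_div_cancel (by positivity), one_mul]
        calc (2 : ℝ) ^ 400 * (e : ℝ) ≤ (2 : ℝ) ^ 400 * (1 / 2 ^ 400 * (n : ℝ)) := by gcongr
          _ = (n : ℝ) := h2
      exact_mod_cast h1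
    obtain ⟨d, t, hav, -, hempty, hlines⟩ := hL
    obtain ⟨ρ0, h1, h2, h3⟩ := exists_restr H (n / 2 ^ 266) (num_ew he') Lines h.rows
      (num_lines h hcon)
    obtain ⟨ρ, ζ, I0, k1, k2, k3, k4, k5⟩ := kill (b := b) (R := n / (2 ^ 260 * (32 * L + 1)))
      (M := n / (2 ^ 257 * (32 * L + 1))) (by omega)
      (fun J hJ hJN => exp_of_expand g1 h1 J hJ hJN) (num_eM h he') (num_RM n L) d hav
    refine det_main (R := n / (2 ^ 260 * (32 * L + 1))) (w := n / 2 ^ 266) (κ := n / 1000)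
      (ε1 := n / 264) (ε2 := n ^ 4 / 8) (θ := n / 264) (ρ := ρ) (ζ := ζ) (I0 := I0)
      ?_ k3 hav hempty hlines ?_
    · exact ⟨by omega, num_kw h, num_R2 h, num_wR h, k4, k5,
        num_kappa h2 he' k2, g2, g3, g4, g5⟩
    · intro i
      rcases h3 i with ⟨l, hl, v, hv, hρ⟩ | hT | hw
      · exact Or.inl ⟨l, hl, Or.inl ⟨v, hv, k1 v _ hρ⟩⟩
      · exact Or.inr (Or.inl hT)
      · exact Or.inr (Or.inr hw)
  · obtain ⟨S, hS, Ls, hLs⟩ := upper (by omega) H b hunsat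
    exact ⟨_, S, Ls, numE_le (big_pos h), hS.trans (numS_le h), hLs⟩

end Pool.Agent.MP_9cec2c_lc.SubstExt
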