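import Pool.Agent.Lib.MP_9cec2c_lc.SYDerive

/-!
Unit propagation through parity constraints on three literals, and through the definitions of
extension variables.
-/

set_option autoImplicit false

namespace Pool.Agent.MP_9cec2c_lc.SubstExt

open Finset

variable {V : Type}

/-- The literal saying that `l` has the value `c`. -/
def litv (l : Lit V) (c : Bool) : Lit V := if c then l else negLit l

theorem neg_litv (l : Lit V) (c : Bool) : negLit (litv l c) = litv l (!c) := by
  cases c <;> simp [litv, neg_neg]

theorem litv_true (l : Lit V) : litv l true = l := rfl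

theorem litv_false (l : Lit V) : litv l false = negLit l := rfl

variable [DecidableEq V]
set_option linter.unusedSectionVars false

/-- The clause excluding the values `α, β, γ` of the literals `a, b, c`. -/
def xcl (a b c : Lit V) (α β γ : Bool) : Clause V :=
  {litv a (!α), litv b (!β), litv c (!γ)}

/-- The clauses saying that the values of `a, b, c` have an even sum. -/
def xor3 (a b c : Lit V) : Set (Clause V) :=
  {D | ∃ α β γ : Bool, (α ^^ β ^^ γ) = true ∧ D = xcl a b c α β γ}

theorem xor3_comm {a b c : Lit V} {Γ : Set (Clause V)} (h : xor3 a b c ⊆ Γ) :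
    xor3 b a c ⊆ Γ := by
  rintro D ⟨α, β, γ, h1, rfl⟩
  refine h ⟨β, α, γ, ?_, ?_⟩
  · cases α <;> cases β <;> cases γ <;> simp_all
  · simp only [xcl]
    exact Finset.insert_comm _ _ _

theorem xor3_rot {a b c : Lit V} {Γ : Set (Clause V)} (h : xor3 a b c ⊆ Γ) :
    xor3 b c a ⊆ Γ := by
  rintro D ⟨β, γ, α, h1, rfl⟩
  refine h ⟨α, β, γ, ?_, ?_⟩
  · cases α <;> cases β <;> cases γ <;> simp_all
  · simp only [xcl]
    ext l
    simp only [Finset.mem_insert, Finset.mem_singleton]
    tauto

/-- The third value follows from two values. -/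
theorem up_xor {Γ : Set (Clause V)} {A : Set (Lit V)} {a b c : Lit V} (h : xor3 a b c ⊆ Γ)
    {α β : Bool} (ha : UnitProp Γ A (litv a α)) (hb : UnitProp Γ A (litv b β)) :
    UnitProp Γ A (litv c (α ^^ β)) := by
  have hmem : xcl a b c α β (!(α ^^ β)) ∈ Γ := by
    refine h ⟨α, β, !(α ^^ β), ?_, rfl⟩
    cases α <;> cases β <;> rfl
  refine UnitProp.step _ _ hmem ?_ ?_
  · simp [xcl]
  · intro g hg hne
    simp only [xcl, Finset.mem_insert, Finset.mem_singleton, Bool.not_not] at hg
    rcases hg with rfl | rfl | rfl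
    · rw [neg_litv, Bool.not_not]; exact ha
    · rw [neg_litv, Bool.not_not]; exact hb
    · exact absurd rfl hne

/-- Two values of one literal are a conflict. -/
theorem conflict {Γ : Set (Clause V)} {C : Clause V} {l : Lit V} {c : Bool}
    (h1 : UnitProp Γ {l | negLit l ∈ C} (litv l c))
    (h2 : UnitProp Γ {l | negLit l ∈ C} (litv l (!c))) : RUP Γ C := by
  refine Or.inr ⟨litv l c, h1, ?_⟩
  rw [neg_litv]
  exact h2

/-- The negation of a literal of the clause is assumed. -/
theorem up_assume {Γ : Set (Clause V)} {C : Clause V} {l : Lit V} {c : Bool}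
    (h : litv l (!c) ∈ C) : UnitProp Γ {l | negLit l ∈ C} (litv l c) := by
  refine UnitProp.init _ ?_
  change negLit (litv l c) ∈ C
  rw [neg_litv]
  exact h

/-- A unit clause. -/
theorem up_unit {Γ : Set (Clause V)} {A : Set (Lit V)} {l : Lit V} (h : {l} ∈ Γ) :
    UnitProp Γ A l := by
  refine UnitProp.step _ _ h (Finset.mem_singleton_self l) ?_
  intro g hg hne
  exact absurd (Finset.mem_singleton.1 hg) hne

/-- Case distinction on a literal. -/
theorem rup_split {Γ : Set (Clause V)} {D : Clause V} (l : Lit V)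
    (h1 : insert (litv l true) D ∈ Γ) (h2 : insert (litv l false) D ∈ Γ) : RUP Γ D := by
  have key : ∀ c : Bool, insert (litv l c) D ∈ Γ →
      UnitProp Γ {l | negLit l ∈ D} (litv l c) := by
    intro c hc
    refine UnitProp.step _ _ hc (Finset.mem_insert_self _ _) ?_
    intro g hg hne
    rcases Finset.mem_insert.1 hg with h | h
    · exact absurd h hne
    · refine UnitProp.init _ ?_
      change negLit (negLit g) ∈ D
      rw [neg_neg]
      exact h
  exact conflict (key true h1) (key false h2)

/-- From `P(w,v)` to `P(w,v+1)`: the inductive step of an even relation between three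
sequences of prefix parities. -/
theorem step_xor {Γ : Set (Clause V)} {z x a b c a' b' c' ya yb yc : Lit V}
    (hz : {litv z false} ∈ Γ) (habc : xor3 a b c ⊆ Γ)
    (ha : xor3 a ya a' ⊆ Γ) (hb : xor3 b yb b' ⊆ Γ) (hc : xor3 c yc c' ⊆ Γ)
    (ηa ηb ηc : Bool) (hη : (ηa ^^ ηb ^^ ηc) = false)
    (hya : ya = if ηa then x else z) (hyb : yb = if ηb then x else z)
    (hyc : yc = if ηc then x else z) :
    Der Γ 24 (xor3 a' b' c') := by
  classical
  -- the value of a `y` literal once `x` has the value `ξ`
  have hy : ∀ (C : Clause V) (ξ : Bool), litv x (!ξ) ∈ C → ∀ (η : Bool) (y : Lit V),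
      (y = if η then x else z) → UnitProp Γ {l | negLit l ∈ C} (litv y (η && ξ)) := by
    intro C ξ hC η y hy
    cases η
    · rw [hy]
      simp only [Bool.false_and, Bool.false_eq_true, if_false]
      exact up_unit hz
    · rw [hy]
      simp only [Bool.true_and, if_true]
      exact up_assume hC
  have hback : ∀ (C : Clause V) (p y p' : Lit V) (π υ : Bool), xor3 p y p' ⊆ Γ →
      UnitProp Γ {l | negLit l ∈ C} (litv y υ) → UnitProp Γ {l | negLit l ∈ C} (litv p' π) →
      UnitProp Γ {l | negLit l ∈ C} (litv p (υ ^^ π)) := by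
    intro C p y p' π υ h h1 h2
    exact up_xor (xor3_rot h) h1 h2
  have hpat : ∀ α β γ : Bool, (α ^^ β ^^ γ) = true → ∀ ξ : Bool,
      RUP Γ (insert (litv x (!ξ)) (xcl a' b' c' α β γ)) := by
    intro α β γ h ξ
    set C := insert (litv x (!ξ)) (xcl a' b' c' α β γ) with hC
    have hx : litv x (!ξ) ∈ C := by rw [hC]; exact Finset.mem_insert_self _ _
    have h1 : litv a' (!α) ∈ C := by rw [hC]; simp [xcl]
    have h2 : litv b' (!β) ∈ C := by rw [hC]; simp [xcl]
    have h3 : litv c' (!γ) ∈ C := by rw [hC]; simp [xcl]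
    have k1 := hback C a ya a' α (ηa && ξ) ha (hy C ξ hx ηa ya hya) (up_assume h1)
    have k2 := hback C b yb b' β (ηb && ξ) hb (hy C ξ hx ηb yb hyb) (up_assume h2)
    have k3 := hback C c yc c' γ (ηc && ξ) hc (hy C ξ hx ηc yc hyc) (up_assume h3)
    have k4 := up_xor habc k1 k2
    have h5 : (ηa && ξ ^^ α ^^ (ηb && ξ ^^ β)) = !(ηc && ξ ^^ γ) := by
      revert h hη
      cases α <;> cases β <;> cases γ <;> cases ηa <;> cases ηb <;> cases ηc <;> cases ξ <;>
        simp
    rw [h5] at k4
    exact conflict k3 k4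
  have hstep : ∀ α β γ : Bool, (α ^^ β ^^ γ) = true → Der Γ 3 {xcl a' b' c' α β γ} := by
    intro α β γ h
    have d1 := (Der.single (hpat α β γ h true)).union (Der.single (hpat α β γ h false))
    refine (d1.trans (Y := {xcl a' b' c' α β γ}) (M := 1) (Der.single ?_)).mono
      (Set.Subset.refl _) (by norm_num) Set.subset_union_right
    refine rup_split x ?_ ?_
    · refine Or.inr (Or.inr ?_)
      simp
    · refine Or.inr (Or.inl ?_)
      simp
  have hall := Der.all (Γ := Γ) (N := 3) (univ : Finset (Bool × Bool × Bool))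
    (fun t => if (t.1 ^^ t.2.1 ^^ t.2.2) = true then {xcl a' b' c' t.1 t.2.1 t.2.2} else ∅)
    (by
      rintro ⟨α, β, γ⟩ -
      by_cases h : (α ^^ β ^^ γ) = true
      · simp only [h, if_true]
        exact hstep α β γ h
      · simp only [h]
        exact Der.empty _ _)
  refine hall.mono (Set.Subset.refl _) (by decide) ?_
  rintro D ⟨α, β, γ, h, rfl⟩
  refine ⟨(α, β, γ), Finset.mem_univ _, ?_⟩
  simp [h]

end Pool.Agent.MP_9cec2c_lc.SubstExt
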