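import Pool.Agent.Lib.MP_9cec2c_lc.SYFinal

/-!
The exponential separation for almost all systems of parity equations.
-/

set_option autoImplicit false
set_option exponentiation.threshold 2000

namespace Pool.Agent.MP_9cec2c_lc.SubstExt

open Finset
open Pool.Agent.MP_9cec2c_lc.SubstRed (Ext cnt uniq vars mem_uniq mem_vars card_vars_le
  dom mem_dom notMem_dom pr pr_eq pr_nonneg pr_mono pr_le_one exists_of_pr_lt_one pr_or
  pr_exists pr_exists_fintype pr_false rowSum OneIn OddIn oneIn_pr oddIn_pr all_fail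
  unsat_bound rigid_bound Size cnf mem_cnf card_rowClause_le sat_of_holds card_cnf_le
  exp_neg_three two_pow_le_exp)

variable {n L : ℕ}

theorem exp_le_inv (h : Size n L) {x : ℝ} (hx : 8 * (n : ℝ) ≤ x) :
    Real.exp (-x) ≤ 1 / (8 * (n : ℝ)) := by
  have hn : (0 : ℝ) < n := by
    have := h.pos
    have : 0 < n := by omega
    exact_mod_cast this
  have h1 : 8 * (n : ℝ) ≤ Real.exp x := by
    have := Real.add_one_le_exp x
    linarith
  rw [Real.exp_neg, ← one_div]
  exact one_div_le_one_div_of_le (by positivity) h1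

theorem half_pow_le (h : Size n L) : (1 / 2 : ℝ) ^ n ≤ 1 / (n : ℝ) := by
  have hn : (0 : ℝ) < n := by
    have := h.pos
    have : 0 < n := by omega
    exact_mod_cast this
  have h1 : (n : ℝ) ≤ 2 ^ n := by
    have : n ≤ 2 ^ n := Nat.lt_two_pow_self.le
    exact_mod_cast this
  rw [div_pow, one_pow]
  exact one_div_le_one_div_of_le hn h1

theorem size_expand (h : Size n L) :
    (1 + (3 / 16 : ℝ) ^ (32 * L + 1)) ^ (n ^ 4) - 1 ≤ 1 / (8 * (n : ℝ)) := by
  have hb := h.big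
  have hn : (0 : ℝ) < n := by
    have := h.pos
    have : 0 < n := by omega
    exact_mod_cast this
  have h1 : (3 / 16 : ℝ) ^ (32 * L + 1) ≤ (1 / 4096) ^ L := by
    calc (3 / 16 : ℝ) ^ (32 * L + 1) ≤ (3 / 16) ^ (32 * L) := by
          apply pow_le_pow_of_le_one (by norm_num) (by norm_num)
          omega
      _ = ((3 / 16) ^ 32) ^ L := by rw [pow_mul]
      _ ≤ (1 / 4096) ^ L := by
          gcongr
          norm_num
  have h2 : ((n ^ 4 : ℕ) : ℝ) * (3 / 16 : ℝ) ^ (32 * L + 1) ≤ 1 / (16 * (n : ℝ)) := by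
    calc ((n ^ 4 : ℕ) : ℝ) * (3 / 16 : ℝ) ^ (32 * L + 1) ≤ 16 ^ L * (1 / 4096) ^ L := by
          have := h.n4
          gcongr
      _ = (1 / 256) ^ L := by
          rw [← mul_pow]
          norm_num
      _ = (1 / 16) ^ L * (1 / 16) ^ L := by
          rw [← mul_pow]
          norm_num
      _ ≤ (1 / 16) ^ 1 * (1 / 2) ^ L := by
          gcongr ?_ * ?_
          · apply pow_le_pow_of_le_one (by norm_num) (by norm_num) (by omega)
          · gcongr
            norm_num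
      _ ≤ 1 / 16 * (1 / n) := by
          rw [pow_one]
          gcongr
          have h3 : (n : ℝ) ≤ 2 ^ L := by exact_mod_cast h.hi.le
          rw [div_pow, one_pow]
          exact one_div_le_one_div_of_le hn h3
      _ = 1 / (16 * (n : ℝ)) := by
          field_simp
  set x := ((n ^ 4 : ℕ) : ℝ) * (3 / 16 : ℝ) ^ (32 * L + 1) with hx
  have hx0 : 0 ≤ x := by positivity
  have hx1 : x ≤ 1 := by
    refine h2.trans ?_
    rw [div_le_one (by positivity)]
    have : (1 : ℝ) ≤ n := by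
      have := h.pos
      have : 1 ≤ n := by omega
      exact_mod_cast this
    linarith
  have h3 : (1 + (3 / 16 : ℝ) ^ (32 * L + 1)) ^ (n ^ 4) ≤ Real.exp x := by
    have h4 := Real.add_one_le_exp ((3 / 16 : ℝ) ^ (32 * L + 1))
    calc (1 + (3 / 16 : ℝ) ^ (32 * L + 1)) ^ (n ^ 4)
        ≤ Real.exp ((3 / 16 : ℝ) ^ (32 * L + 1)) ^ (n ^ 4) := by
          gcongr
          linarith
      _ = Real.exp x := by rw [← Real.exp_nat_mul]
  have h4 := Real.abs_exp_sub_one_le (x := x) (by rw [abs_of_nonneg hx0]; exact hx1)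
  rw [abs_of_nonneg hx0] at h4
  have h5 := le_abs_self (Real.exp x - 1)
  have h6 : 1 / (8 * (n : ℝ)) = 2 * (1 / (16 * (n : ℝ))) := by
    field_simp
    norm_num
  linarith

theorem size_rigid (h : Size n L) :
    (2 : ℝ) ^ n * (n + 1) ^ n * (2 * (1 / 8) ^ (n ^ 4)) ≤ 1 / (8 * (n : ℝ)) := by
  have hn := h.pos
  have hn' : (0 : ℝ) < n := by
    have : 0 < n := by omega
    exact_mod_cast this
  have h1 : ((n : ℝ) + 1) ≤ 2 ^ n := by
    have : n + 1 ≤ 2 ^ n := Nat.lt_two_pow_self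
    exact_mod_cast this
  have h2 : n + n * n + 4 + n ≤ 3 * n ^ 4 := by
    have h3 : n * n ≤ n ^ 4 := by
      rw [← pow_two]
      exact Nat.pow_le_pow_right (by omega) (by norm_num)
    have h4 : 4 ≤ n := by omega
    nlinarith
  calc (2 : ℝ) ^ n * (n + 1) ^ n * (2 * (1 / 8) ^ (n ^ 4))
      ≤ 2 ^ n * (2 ^ n) ^ n * (2 * (1 / 8) ^ (n ^ 4)) := by gcongr
    _ = 2 ^ (n + n * n + 4 + n) * ((1 / 8) ^ (n ^ 4)) * (1 / 8 * (1 / 2) ^ n) := by
        have e1 : (2 : ℝ) ^ n * (1 / 2) ^ n = 1 := by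
          rw [← mul_pow]
          norm_num
        calc 2 ^ n * ((2 : ℝ) ^ n) ^ n * (2 * (1 / 8) ^ (n ^ 4)) =
            2 ^ n * ((2 : ℝ) ^ n) ^ n * (2 * (1 / 8) ^ (n ^ 4)) * (2 ^ n * (1 / 2) ^ n) := by
              rw [e1, mul_one]
          _ = _ := by
              rw [pow_add, pow_add, pow_add, pow_mul]
              ring
    _ ≤ 2 ^ (3 * n ^ 4) * ((1 / 8) ^ (n ^ 4)) * (1 / 8 * (1 / 2) ^ n) := by
        gcongr
        norm_num
    _ = 1 / 8 * (1 / 2) ^ n := by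
        rw [pow_mul, ← mul_pow]
        norm_num
    _ ≤ 1 / 8 * (1 / n) := by
        have := half_pow_le h
        gcongr
    _ = 1 / (8 * (n : ℝ)) := by
        field_simp

theorem size_one (h : Size n L) {t : ℕ} (ht : 132 * t ≤ n) :
    (2 : ℝ) ^ n * Real.exp (-(1 / (n : ℝ) * (1 - (t : ℝ) / n) ^ (32 * L + 1) *
      ((n ^ 4 : ℕ) : ℝ))) ≤ 1 / (8 * (n : ℝ)) := by
  have hp := h.pos
  have hn : (0 : ℝ) < n := by
    have : 0 < n := by omega
    exact_mod_cast this
  have h1 := h.base ht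
  have h2 : (n : ℝ) ^ 2 / 2 ≤ 1 / (n : ℝ) * (1 - (t : ℝ) / n) ^ (32 * L + 1) *
      ((n ^ 4 : ℕ) : ℝ) := by
    calc (n : ℝ) ^ 2 / 2 = 1 / n * (1 / (2 * n)) * ((n ^ 4 : ℕ) : ℝ) := by
          push_cast
          field_simp
      _ ≤ _ := by gcongr
  have h3 : (18 : ℝ) ≤ n := by
    have : 18 ≤ n := le_trans (by norm_num) hp
    exact_mod_cast this
  calc (2 : ℝ) ^ n * Real.exp (-(1 / (n : ℝ) * (1 - (t : ℝ) / n) ^ (32 * L + 1) *
      ((n ^ 4 : ℕ) : ℝ))) ≤ Real.exp n * Real.exp (-((n : ℝ) ^ 2 / 2)) := by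
        have := two_pow_le_exp n
        gcongr
    _ = Real.exp (-((n : ℝ) ^ 2 / 2 - n)) := by
        rw [← Real.exp_add]
        congr 1
        ring
    _ ≤ 1 / (8 * (n : ℝ)) := by
        refine exp_le_inv h ?_
        nlinarith

theorem size_odd (h : Size n L) {t : ℕ} (ht : 132 * t ≤ n) :
    (2 : ℝ) ^ n * 2 ^ n * Real.exp (-(1 / 4 * (1 - (t : ℝ) / n) ^ (32 * L + 1) *
      ((n ^ 4 : ℕ) : ℝ))) ≤ 1 / (8 * (n : ℝ)) := by
  have hp := h.pos
  have hn : (0 : ℝ) < n := by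
    have : 0 < n := by omega
    exact_mod_cast this
  have h1 := h.base ht
  have h2 : (n : ℝ) ^ 3 / 8 ≤ 1 / 4 * (1 - (t : ℝ) / n) ^ (32 * L + 1) *
      ((n ^ 4 : ℕ) : ℝ) := by
    calc (n : ℝ) ^ 3 / 8 = 1 / 4 * (1 / (2 * n)) * ((n ^ 4 : ℕ) : ℝ) := by
          push_cast
          field_simp
          norm_num
      _ ≤ _ := by gcongr
  have h3 : (16 : ℝ) ≤ n := by
    have : 16 ≤ n := le_trans (by norm_num) hp
    exact_mod_cast this
  calc (2 : ℝ) ^ n * 2 ^ n * Real.exp (-(1 / 4 * (1 - (t : ℝ) / n) ^ (32 * L + 1) *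
      ((n ^ 4 : ℕ) : ℝ))) ≤ Real.exp n * Real.exp n * Real.exp (-((n : ℝ) ^ 3 / 8)) := by
        have := two_pow_le_exp n
        gcongr
    _ = Real.exp (-((n : ℝ) ^ 3 / 8 - 2 * n)) := by
        rw [← Real.exp_add, ← Real.exp_add]
        congr 1
        ring
    _ ≤ 1 / (8 * (n : ℝ)) := by
        refine exp_le_inv h ?_
        have h4 : (n : ℝ) ^ 3 ≥ 256 * n := by
          have h5 : (n : ℝ) ^ 2 ≥ 256 := by nlinarith
          calc (n : ℝ) ^ 3 = (n : ℝ) ^ 2 * (n : ℝ) := by ring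
            _ ≥ 256 * (n : ℝ) := by gcongr
        linarith

theorem size_unsat (h : Size n L) : (2 : ℝ) ^ n * (3 / 4) ^ (n ^ 4) ≤ 1 / (8 * (n : ℝ)) := by
  have hp := h.pos
  have hn : (0 : ℝ) < n := by
    have : 0 < n := by omega
    exact_mod_cast this
  have h1 : 3 * (2 * n + 3) ≤ n ^ 4 := by
    have h3 : n * n ≤ n ^ 4 := by
      rw [← pow_two]
      exact Nat.pow_le_pow_right (by omega) (by norm_num)
    have h4 : 9 ≤ n := by omega
    nlinarith
  calc (2 : ℝ) ^ n * (3 / 4) ^ (n ^ 4) ≤ 2 ^ n * (3 / 4) ^ (3 * (2 * n + 3)) := by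
        gcongr 2 ^ n * ?_
        apply pow_le_pow_of_le_one (by norm_num) (by norm_num) h1
    _ ≤ 2 ^ n * (1 / 2) ^ (2 * n + 3) := by
        rw [pow_mul]
        gcongr
        norm_num
    _ = 1 / 8 * (1 / 2) ^ n := by
        rw [pow_add, two_mul, pow_add]
        have e1 : (2 : ℝ) ^ n * (1 / 2) ^ n = 1 := by
          rw [← mul_pow]
          norm_num
        calc (2 : ℝ) ^ n * ((1 / 2) ^ n * (1 / 2) ^ n * (1 / 2) ^ 3) =
            (2 ^ n * (1 / 2) ^ n) * ((1 / 2) ^ n * (1 / 2) ^ 3) := by ring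
          _ = _ := by
              rw [e1]
              ring
    _ ≤ 1 / 8 * (1 / n) := by
        have := half_pow_le h
        gcongr
    _ = 1 / (8 * (n : ℝ)) := by
        field_simp

theorem pr_fst {A B : Type} [Fintype A] [Fintype B] [Nonempty B] (P : A → Prop) :
    pr (fun p : A × B => P p.1) = pr P := by
  classical
  rw [pr_eq, pr_eq]
  have h1 : (univ.filter (fun p : A × B => P p.1)) = (univ.filter P) ×ˢ (univ : Finset B) := by
    ext p
    simp
  rw [h1, card_product, card_univ, Fintype.card_prod]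
  have hB : (0 : ℝ) < Fintype.card B := by
    have : 0 < Fintype.card B := Fintype.card_pos
    exact_mod_cast this
  push_cast
  rw [mul_div_mul_right _ _ hB.ne']

theorem pr_snd_le {A B : Type} [Fintype A] [Fintype B] [Nonempty A] [Nonempty B]
    (Q : A → B → Prop) (q : ℝ) (hq : ∀ a, pr (Q a) ≤ q) :
    pr (fun p : A × B => Q p.1 p.2) ≤ q := by
  classical
  rw [pr_eq]
  have hA : (0 : ℝ) < Fintype.card A := by
    have : 0 < Fintype.card A := Fintype.card_pos
    exact_mod_cast this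
  have hB : (0 : ℝ) < Fintype.card B := by
    have : 0 < Fintype.card B := Fintype.card_pos
    exact_mod_cast this
  have h1 : ((univ.filter (fun p : A × B => Q p.1 p.2)).card : ℝ) =
      ∑ a, ((univ.filter (Q a)).card : ℝ) := by
    rw [← Nat.cast_sum, Finset.card_filter, Fintype.sum_prod_type]
    congr 1
    refine sum_congr rfl fun a _ => ?_
    rw [Finset.card_filter]
  rw [h1, Fintype.card_prod]
  push_cast
  rw [div_le_iff₀ (by positivity)]
  calc ∑ a, ((univ.filter (Q a)).card : ℝ) ≤ ∑ _a : A, q * (Fintype.card B : ℝ) := by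
        refine sum_le_sum fun a _ => ?_
        have h2 := hq a
        rw [pr_eq, div_le_iff₀ hB] at h2
        exact h2
    _ = q * ((Fintype.card A : ℝ) * Fintype.card B) := by
        rw [sum_const, card_univ, nsmul_eq_mul]
        ring

/-- The union bound over two independent choices. -/
theorem pr_pair {A B : Type} [Fintype A] [Fintype B] [Nonempty A] [Nonempty B]
    (P : A → Prop) (Q : A → B → Prop) (q : ℝ) (hq : ∀ a, pr (Q a) ≤ q) :
    pr (fun p : A × B => P p.1 ∨ Q p.1 p.2) ≤ pr P + q := by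
  refine (pr_or _ _).trans ?_
  rw [pr_fst]
  have := pr_snd_le Q q hq
  linarith

/-- The properties of the rows. -/
def GoodRows (n L : ℕ) (H : Fin (n ^ 4) → Fin (32 * L + 1) → Fin n) : Prop :=
  Expand (2 * (n / (2 ^ 257 * (32 * L + 1)))) H ∧
      SubstRed.Rigid (n / 1000) (n / 264) (n ^ 4 / 8) H ∧
      (∀ T : Finset (Fin n), T.Nonempty → T.card ≤ n / 264 + n / 264 →
        ∃ i, ∃ a, H i a ∈ T ∧ ∀ a', a' ≠ a → H i a' ∉ T) ∧
      (∀ B T : Finset (Fin n), B.card ≤ n / 264 → n / 264 ≤ T.card → Disjoint B T →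
        ∃ i, (∀ a, H i a ∉ B) ∧ (∑ a, if H i a ∈ T then (1 : ZMod 2) else 0) = 1)

/-- The property of the right-hand sides. -/
def GoodRhs (n L : ℕ) (H : Fin (n ^ 4) → Fin (32 * L + 1) → Fin n)
    (b : Fin (n ^ 4) → ZMod 2) : Prop :=
  ∀ z : Fin n → Bool, n ^ 4 / 8 < (univ.filter (fun i => rowSum (H i) z ≠ b i)).card

/-- Almost all rows are good. -/
theorem pr_rows (n L : ℕ) (h : Size n L) :
    pr (fun H : Fin (n ^ 4) → Fin (32 * L + 1) → Fin n => ¬ GoodRows n L H) ≤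
      4 * (1 / (8 * (n : ℝ))) := by
  classical
  have hp := h.pos
  have hb := h.big
  have : NeZero n := ⟨by omega⟩
  -- expansion
  have h1 : pr (fun H : Fin (n ^ 4) → Fin (32 * L + 1) → Fin n =>
      ¬ Expand (2 * (n / (2 ^ 257 * (32 * L + 1)))) H) ≤ 1 / (8 * (n : ℝ)) := by
    refine (expand_bound ?_).trans (size_expand h)
    have := Nat.div_mul_le_self n (2 ^ 257 * (32 * L + 1))
    calc 2 ^ 256 * ((32 * L + 1) * (2 * (n / (2 ^ 257 * (32 * L + 1)))))
        = n / (2 ^ 257 * (32 * L + 1)) * (2 ^ 257 * (32 * L + 1)) := by ring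
      _ ≤ n := this
  -- rigidity
  have h2 : pr (fun H : Fin (n ^ 4) → Fin (32 * L + 1) → Fin n =>
      ¬ SubstRed.Rigid (n / 1000) (n / 264) (n ^ 4 / 8) H) ≤ 1 / (8 * (n : ℝ)) := by
    refine (rigid_bound (by omega) (by omega) (by omega) h.q2 h.q0).trans (size_rigid h)
  -- one coordinate
  have h3 : pr (fun H : Fin (n ^ 4) → Fin (32 * L + 1) → Fin n =>
      ∃ T : Finset (Fin n), T.Nonempty ∧ T.card ≤ n / 264 + n / 264 ∧
        ∀ i, ¬ OneIn T (H i)) ≤ 1 / (8 * (n : ℝ)) := by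
    refine (pr_exists_fintype _).trans ?_
    have h4 : ∀ T : Finset (Fin n), pr (fun H : Fin (n ^ 4) → Fin (32 * L + 1) → Fin n =>
        T.Nonempty ∧ T.card ≤ n / 264 + n / 264 ∧ ∀ i, ¬ OneIn T (H i)) ≤
        Real.exp (-(1 / (n : ℝ) * (1 - ((n / 264 + n / 264 : ℕ) : ℝ) / n) ^ (32 * L + 1) *
      ((n ^ 4 : ℕ) : ℝ))) := by
      intro T
      by_cases hT : T.Nonempty ∧ T.card ≤ n / 264 + n / 264
      · refine (pr_mono (q := fun H : Fin (n ^ 4) → Fin (32 * L + 1) → Fin n =>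
          ∀ i, ¬ OneIn T (H i)) fun H h => h.2.2).trans ?_
        exact all_fail _ _ (oneIn_pr (by omega) T hT.1 _ hT.2 (by omega))
      · have : (fun H : Fin (n ^ 4) → Fin (32 * L + 1) → Fin n =>
            T.Nonempty ∧ T.card ≤ n / 264 + n / 264 ∧ ∀ i, ¬ OneIn T (H i)) =
            fun _ => False := by
          funext H
          simp only [eq_iff_iff, iff_false]
          tauto
        rw [this, pr_false]
        positivity
    refine (sum_le_sum fun T _ => h4 T).trans ?_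
    rw [sum_const, card_univ, Fintype.card_finset, Fintype.card_fin, nsmul_eq_mul]
    push_cast
    have := size_one h (t := n / 264 + n / 264) (by omega)
    push_cast at this
    exact this
  -- odd
  have h4 : pr (fun H : Fin (n ^ 4) → Fin (32 * L + 1) → Fin n =>
      ∃ p : Finset (Fin n) × Finset (Fin n), (p.1.card ≤ n / 264 ∧ n / 264 ≤ p.2.card ∧
        Disjoint p.1 p.2) ∧ ∀ i, ¬ OddIn p.1 p.2 (H i)) ≤ 1 / (8 * (n : ℝ)) := by
    refine (pr_exists_fintype _).trans ?_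
    have h5 : ∀ p : Finset (Fin n) × Finset (Fin n),
        pr (fun H : Fin (n ^ 4) → Fin (32 * L + 1) → Fin n =>
        (p.1.card ≤ n / 264 ∧ n / 264 ≤ p.2.card ∧
        Disjoint p.1 p.2) ∧ ∀ i, ¬ OddIn p.1 p.2 (H i)) ≤
        Real.exp (-(1 / 4 * (1 - ((n / 264 : ℕ) : ℝ) / n) ^ (32 * L + 1) *
      ((n ^ 4 : ℕ) : ℝ))) := by
      rintro ⟨B, T⟩
      by_cases hT : B.card ≤ n / 264 ∧ n / 264 ≤ T.card ∧ Disjoint B T
      · refine (pr_mono (q := fun H : Fin (n ^ 4) → Fin (32 * L + 1) → Fin n =>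
          ∀ i, ¬ OddIn B T (H i)) fun H h => h.2).trans ?_
        refine all_fail _ _ (oddIn_pr ⟨16 * L, by ring⟩ B T hT.2.2 hT.1 (by omega) hT.2.1 ?_)
        exact h.theta
      · have : (fun H : Fin (n ^ 4) → Fin (32 * L + 1) → Fin n =>
            (B.card ≤ n / 264 ∧ n / 264 ≤ T.card ∧
        Disjoint B T) ∧ ∀ i, ¬ OddIn B T (H i)) =
            fun _ => False := by
          funext H
          simp only [eq_iff_iff, iff_false]
          exact fun h => hT h.1
        simp only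
        rw [this, pr_false]
        positivity
    refine (sum_le_sum fun p _ => h5 p).trans ?_
    rw [sum_const, card_univ, Fintype.card_prod, Fintype.card_finset, Fintype.card_fin,
      nsmul_eq_mul]
    push_cast
    have := size_odd h (t := n / 264) (by omega)
    push_cast at this
    exact this
  have h5 := pr_or (fun H : Fin (n ^ 4) → Fin (32 * L + 1) → Fin n =>
      ∃ T : Finset (Fin n), T.Nonempty ∧ T.card ≤ n / 264 + n / 264 ∧
        ∀ i, ¬ OneIn T (H i))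
    (fun H : Fin (n ^ 4) → Fin (32 * L + 1) → Fin n =>
      ∃ p : Finset (Fin n) × Finset (Fin n), (p.1.card ≤ n / 264 ∧ n / 264 ≤ p.2.card ∧
        Disjoint p.1 p.2) ∧ ∀ i, ¬ OddIn p.1 p.2 (H i))
  have h6 := pr_or (fun H : Fin (n ^ 4) → Fin (32 * L + 1) → Fin n =>
      ¬ SubstRed.Rigid (n / 1000) (n / 264) (n ^ 4 / 8) H)
    (fun H : Fin (n ^ 4) → Fin (32 * L + 1) → Fin n => (∃ T : Finset (Fin n), T.Nonempty ∧
      T.card ≤ n / 264 + n / 264 ∧ ∀ i, ¬ OneIn T (H i)) ∨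
      ∃ p : Finset (Fin n) × Finset (Fin n), (p.1.card ≤ n / 264 ∧ n / 264 ≤ p.2.card ∧
        Disjoint p.1 p.2) ∧ ∀ i, ¬ OddIn p.1 p.2 (H i))
  have h7 := pr_or (fun H : Fin (n ^ 4) → Fin (32 * L + 1) → Fin n =>
      ¬ Expand (2 * (n / (2 ^ 257 * (32 * L + 1)))) H)
    (fun H : Fin (n ^ 4) → Fin (32 * L + 1) → Fin n =>
      ¬ SubstRed.Rigid (n / 1000) (n / 264) (n ^ 4 / 8) H ∨
      ((∃ T : Finset (Fin n), T.Nonempty ∧
      T.card ≤ n / 264 + n / 264 ∧ ∀ i, ¬ OneIn T (H i)) ∨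
      ∃ p : Finset (Fin n) × Finset (Fin n), (p.1.card ≤ n / 264 ∧ n / 264 ≤ p.2.card ∧
        Disjoint p.1 p.2) ∧ ∀ i, ¬ OddIn p.1 p.2 (H i)))
  refine le_trans (pr_mono ?_) (h7.trans (by linarith))
  intro H hH
  by_contra hcon
  rw [not_or, not_or, not_or, not_not, not_not] at hcon
  obtain ⟨g1, g2, g3, g4⟩ := hcon
  refine hH ⟨g1, g2, ?_, ?_⟩
  · intro T hT hTc
    by_contra hcon
    refine g3 ⟨T, hT, hTc, fun i hi => hcon ⟨i, hi⟩⟩
  · intro B T hB hT hBT
    by_contra hcon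
    refine g4 ⟨(B, T), ⟨hB, hT, hBT⟩, fun i hi => hcon ⟨i, hi⟩⟩

/-- Almost all right-hand sides are good. -/
theorem pr_rhs (n L : ℕ) (h : Size n L) (H : Fin (n ^ 4) → Fin (32 * L + 1) → Fin n) :
    pr (fun b : Fin (n ^ 4) → ZMod 2 => ¬ GoodRhs n L H b) ≤ 1 / (8 * (n : ℝ)) := by
  classical
  refine le_trans (pr_mono ?_) ((unsat_bound H (ε2 := n ^ 4 / 8) (by omega)).trans
    (size_unsat h))
  intro b hb
  unfold GoodRhs at hb
  push Not at hb
  exact hb

/-- The exponential separation for the formula `F` in `n` variables. -/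
def Separated (c : ℝ) (a : ℕ) {n : ℕ} (F : Finset (Clause (Fin n))) : Prop :=
  F.card ≤ n ^ a ∧ (∀ C ∈ F, C.card ≤ a * Nat.log 2 n) ∧
    (∀ x : Fin n → Bool, ∃ C ∈ F, ¬ Holds x C) ∧
    (∀ (e S : ℕ) (L : Fin S → Clause (Var n e)), (e : ℝ) ≤ c * (n : ℝ) →
      IsRefutation F L → (2 : ℝ) ^ (c * (n : ℝ)) ≤ (S : ℝ)) ∧
    ∃ (e S : ℕ) (L : Fin S → Clause (Var n e)), e ≤ n ^ a ∧ S ≤ n ^ a ∧ IsExtRefutation F L

/-- The exponential separation for a good system. -/
theorem good_separated (n L : ℕ) (h : Size n L) (hL : L = Nat.log 2 n + 1)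
    (H : Fin (n ^ 4) → Fin (32 * L + 1) → Fin n) (b : Fin (n ^ 4) → ZMod 2)
    (hH : GoodRows n L H) (g5 : GoodRhs n L H b) :
    Separated (1 / 2 ^ 400) 40 (cnf H b) := by
  classical
  have hp := h.pos
  have hbig := h.big
  have : NeZero n := ⟨by omega⟩
  obtain ⟨g1, g2, g3, g4⟩ := hH
  have hunsat : ∀ x : Fin n → Bool, ∃ C ∈ cnf H b, ¬ Holds x C := by
    intro x
    by_contra hcon
    push Not at hcon
    have h1 := g5 x
    have h2 : univ.filter (fun i => rowSum (H i) x ≠ b i) = ∅ := by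
      rw [filter_eq_empty_iff]
      intro i _
      rw [not_not]
      exact sat_of_holds fun s hs => hcon _ (mem_cnf.2 ⟨i, s, hs, rfl⟩)
    rw [h2] at h1
    simp at h1
  refine ⟨?_, ?_, hunsat, ?_, ?_⟩
  · refine (card_cnf_le H b).trans ?_
    have h2L : 2 ^ (32 * L + 1) = 2 * (2 ^ L) ^ 32 := by
      rw [← pow_mul, ← pow_succ']
      congr 1
      ring
    calc n ^ 4 * 2 ^ (32 * L + 1) = n ^ 4 * (2 * (2 ^ L) ^ 32) := by
          rw [h2L]
      _ ≤ n ^ 4 * (2 * (2 * n) ^ 32) := by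
          have := h.two_pow
          gcongr
      _ = 2 ^ 33 * n ^ 36 := by ring
      _ ≤ n * n ^ 36 := by
          gcongr
          exact le_trans (by norm_num) hp
      _ = n ^ 37 := by ring
      _ ≤ n ^ 40 := Nat.pow_le_pow_right (by omega) (by norm_num)
  · intro C hC
    obtain ⟨i, s, -, rfl⟩ := mem_cnf.1 hC
    refine (card_rowClause_le _ _).trans ?_
    rw [hL] at hbig ⊢
    generalize Nat.log 2 n = l at hbig ⊢
    omega
  · intro e S Lines he hL
    by_contra hcon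
    push Not at hcon
    have he' : 2 ^ 400 * e ≤ n := by
      have h1 : (2 : ℝ) ^ 400 * e ≤ n := by
        have h2 : (2 : ℝ) ^ 400 * (1 / 2 ^ 400 * (n : ℝ)) = n := by
          rw [← mul_assoc, mul_one_div_cancel (by positivity), one_mul]
        calc (2 : ℝ) ^ 400 * (e : ℝ) ≤ (2 : ℝ) ^ 400 * (1 / 2 ^ 400 * (n : ℝ)) := by gcongr
          _ = (n : ℝ) := h2
      exact_mod_cast h1
    obtain ⟨d, t, hav, -, hempty, hlines⟩ := hL
    obtain ⟨ρ0, h1, h2, h3⟩ := exists_restr H (n / 2 ^ 266) (num_ew he') Lines h.rows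
      (num_lines h hcon)
    obtain ⟨ρ, ζ, I0, k1, k2, k3, k4, k5⟩ := kill (b := b) (R := n / (2 ^ 260 * (32 * L + 1)))
      (M := n / (2 ^ 257 * (32 * L + 1))) (by omega)
      (fun J hJ hJN => exp_of_expand g1 h1 J hJ hJN) (num_eM h he') (num_RM n L) d hav
    refine det_main (R := n / (2 ^ 260 * (32 * L + 1))) (w := n / 2 ^ 266) (κ := n / 1000)
      (ε1 := n / 264) (ε2 := n ^ 4 / 8) (θ := n / 264) (ρ := ρ) (ζ := ζ) (I0 := I0)
      ?_ k3 hav hempty hlines ?_
    · exact ⟨by omega, num_kw h, num_R2 h, num_wR h, k4, k5,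
        num_kappa h2 he' k2, g2, g3, g4, g5⟩
    · intro i
      rcases h3 i with ⟨l, hl, v, hv, hρ⟩ | hT | hw
      · exact Or.inl ⟨l, hl, Or.inl ⟨v, hv, k1 v _ hρ⟩⟩
      · exact Or.inr (Or.inl hT)
      · exact Or.inr (Or.inr hw)
  · obtain ⟨S, hS, Ls, hLs⟩ := upper (by omega) H b hunsat
    exact ⟨_, S, Ls, numE_le (big_pos h), hS.trans (numS_le h), hLs⟩

/-- The exponential separation for almost all systems. -/
theorem almost_all (n L : ℕ) (h : Size n L) (hL : L = Nat.log 2 n + 1) :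
    pr (fun p : (Fin (n ^ 4) → Fin (32 * L + 1) → Fin n) × (Fin (n ^ 4) → ZMod 2) =>
      ¬ Separated (1 / 2 ^ 400) 40 (cnf p.1 p.2)) ≤ 1 / (n : ℝ) := by
  have hp := h.pos
  have : NeZero n := ⟨by omega⟩
  have hn : (0 : ℝ) < n := by
    have : 0 < n := by omega
    exact_mod_cast this
  have h1 := pr_pair (fun H => ¬ GoodRows n L H) (fun H b => ¬ GoodRhs n L H b)
    (1 / (8 * (n : ℝ))) (pr_rhs n L h)
  have h2 := pr_rows n L h
  refine (pr_mono ?_).trans (h1.trans ?_)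
  · rintro ⟨H, b⟩ hne
    by_contra hcon
    rw [not_or, not_not, not_not] at hcon
    exact hne (good_separated n L h hL H b hcon.1 hcon.2)
  · have e1 : 1 / (n : ℝ) = 8 * (1 / (8 * (n : ℝ))) := by
      field_simp
    have e2 : 0 ≤ 1 / (8 * (n : ℝ)) := by positivity
    linarith

end Pool.Agent.MP_9cec2c_lc.SubstExt
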