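import Pool.Agent.Lib.MP_9cec2c_lc.SYCirc
import Pool.Agent.Lib.MP_9cec2c_lc.SRDet

/-!
A short refutation, in extended resolution, of an inconsistent system of parity equations.
-/

set_option autoImplicit false
set_option linter.unusedSectionVars false

namespace Pool.Agent.MP_9cec2c_lc.SubstExt

open Finset
open Pool.Agent.MP_9cec2c_lc.SubstRed (bz bz_inj bz_beq bz_ne z2_add_self z2_eq_of_add z2_ne
  vec rowSum sum_vec_mul rowClause cnf mem_cnf unsat_cert bz_surj z2_cases)

section

variable {n W : ℕ} (T : ℕ → Fin n → Bool)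

/-- `Γ` contains all parity constraints of the circuit and the unit clause for false. -/
def HasCirc (T : ℕ → Fin n → Bool) (W : ℕ) (Γ : Set (Clause (Var n (numE n W)))) : Prop :=
  {litv (ev 0) false} ∈ Γ ∧
    ∀ w < W, ∀ v : Fin n, xor3 (PL w v) (YL T w v) (PL w (v + 1)) ⊆ Γ

theorem HasCirc.mono {Γ Γ' : Set (Clause (Var n (numE n W)))} (h : Γ ⊆ Γ')
    (hc : HasCirc T W Γ) : HasCirc T W Γ' :=
  ⟨h hc.1, fun w hw v => (hc.2 w hw v).trans h⟩

/-- The even relation between the prefix parities of three vectors with sum zero. -/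
theorem der_sum {Γ : Set (Clause (Var n (numE n W)))} (hc : HasCirc T W Γ) {w1 w2 w3 : ℕ}
    (h1 : w1 < W) (h2 : w2 < W) (h3 : w3 < W)
    (hT : ∀ v, (T w1 v ^^ T w2 v ^^ T w3 v) = false) :
    Der Γ ((n + 1) * 24) {D | ∃ v < n + 1, D ∈ xor3 (PL w1 v) (PL w2 v) (PL w3 v)} := by
  classical
  refine Der.steps (fun v => xor3 (PL w1 v) (PL w2 v) (PL w3 v)) (n + 1) ?_
  intro v hv
  rcases v with _ | v
  · have hP : ∀ w, (PL w 0 : Lit (Var n (numE n W))) = ev 0 := fun w => rfl
    simp only [hP]
    have hpat : ∀ t ∈ (univ : Finset (Bool × Bool × Bool)),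
        Der (Γ ∪ {D | ∃ j < 0, D ∈ xor3 (PL w1 j) (PL w2 j) (PL w3 j)}) 1
        (if (t.1 ^^ t.2.1 ^^ t.2.2) = true then
          {xcl (ev 0 : Lit (Var n (numE n W))) (ev 0) (ev 0) t.1 t.2.1 t.2.2} else ∅) := by
      rintro ⟨α, β, γ⟩ -
      by_cases h : (α ^^ β ^^ γ) = true
      · simp only [h, if_true]
        refine Der.single ?_
        have hex : litv (ev 0 : Lit (Var n (numE n W))) (!true) ∈
            xcl (ev 0 : Lit (Var n (numE n W))) (ev 0) (ev 0) α β γ := by
          revert h
          cases α <;> cases β <;> cases γ <;> simp [xcl]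
        exact conflict (up_assume hex) (up_unit (Or.inl hc.1))
      · simp only [h]
        exact Der.empty _ _
    have hall := Der.all _ _ hpat
    refine hall.mono (Set.Subset.refl _) (by decide) ?_
    rintro D ⟨α, β, γ, h, rfl⟩
    refine ⟨(α, β, γ), mem_univ _, ?_⟩
    simp [h]
  · have hvn : v < n := by omega
    have hin : Γ ⊆ Γ ∪ {D | ∃ j < v + 1, D ∈ xor3 (PL w1 j) (PL w2 j) (PL w3 j)} :=
      Set.subset_union_left
    refine step_xor (z := ev 0) (x := (Sum.inl ⟨v, hvn⟩, true)) (hin hc.1) ?_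
      ((hc.2 w1 h1 ⟨v, hvn⟩).trans hin) ((hc.2 w2 h2 ⟨v, hvn⟩).trans hin)
      ((hc.2 w3 h3 ⟨v, hvn⟩).trans hin) (T w1 ⟨v, hvn⟩) (T w2 ⟨v, hvn⟩) (T w3 ⟨v, hvn⟩)
      (hT ⟨v, hvn⟩) rfl rfl rfl
    intro D hD
    exact Or.inr ⟨v, Nat.lt_succ_self v, hD⟩

/-- The prefix parity of the vector `w` of the circuit, for given values of the variables. -/
def par (w : ℕ) (ξ : Fin n → Bool) : ℕ → Bool
  | 0 => false
  | v + 1 => par w ξ v ^^ (if h : v < n then T w ⟨v, h⟩ && ξ ⟨v, h⟩ else false)

/-- Unit propagation computes the prefix parities. -/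
theorem up_par {Γ : Set (Clause (Var n (numE n W)))} {A : Set (Lit (Var n (numE n W)))}
    (hc : HasCirc T W Γ) {w : ℕ} (hw : w < W) (ξ : Fin n → Bool)
    (hξ : ∀ v, T w v = true → UnitProp Γ A (litv (Sum.inl v, true) (ξ v))) :
    ∀ v ≤ n, UnitProp Γ A (litv (PL w v) (par T w ξ v)) := by
  intro v
  induction v with
  | zero => intro _; exact up_unit hc.1
  | succ v ih =>
    intro hv
    have hvn : v < n := by omega
    have h1 := ih (by omega)
    have h2 : UnitProp Γ A (litv (YL T w ⟨v, hvn⟩) (T w ⟨v, hvn⟩ && ξ ⟨v, hvn⟩)) := by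
      unfold YL
      by_cases h : T w ⟨v, hvn⟩ = true
      · rw [if_pos h, h, Bool.true_and]
        exact hξ _ h
      · rw [if_neg h, Bool.eq_false_iff.2 h, Bool.false_and]
        exact up_unit hc.1
    have h3 := up_xor (hc.2 w hw ⟨v, hvn⟩) h1 h2
    simp only [par, hvn, dif_pos]
    exact h3

theorem bz_xor (a c : Bool) : bz (a ^^ c) = bz a + bz c := by
  cases a <;> cases c <;> decide

theorem bz_par (w : ℕ) (ξ : Fin n → Bool) :
    bz (par T w ξ n) = ∑ v, bz (T w v) * bz (ξ v) := by
  have key : ∀ v ≤ n, bz (par T w ξ v) =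
      ∑ u ∈ range v, if h : u < n then bz (T w ⟨u, h⟩) * bz (ξ ⟨u, h⟩) else 0 := by
    intro v
    induction v with
    | zero => intro _; simp [par, bz]
    | succ v ih =>
      intro hv
      have hvn : v < n := by omega
      rw [sum_range_succ, ← ih (by omega)]
      simp only [par, hvn, dif_pos, bz_xor]
      congr 1
      cases T w ⟨v, hvn⟩ <;> cases ξ ⟨v, hvn⟩ <;> decide
  rw [key n le_rfl, sum_range]
  refine sum_congr rfl fun v _ => ?_
  simp

end

section

variable {n W m k : ℕ} (T : ℕ → Fin n → Bool)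

/-- The clause of level `a` in the derivation of the parity of a row: the first `a` variables
of the row do not have the values `s`, or the parity of the row is `β`. -/
def KC (W w : ℕ) (β : Bool) (E : Fin k → Fin n) (a : ℕ) (s : Fin k → Bool) :
    Clause (Var n (numE n W)) :=
  insert (litv (PL w n) β)
    ((univ.filter (fun i : Fin k => i.val < a)).image
      (fun i => litv ((Sum.inl (E i), true) : Lit (Var n (numE n W))) (!s i)))

theorem litv_inl (v : Fin n) (c : Bool) :
    litv ((Sum.inl v, true) : Lit (Var n (numE n W))) c = (Sum.inl v, c) := by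
  cases c <;> simp [litv, negLit]

/-- Level `k`. -/
theorem rup_top {H : Fin m → Fin k → Fin n} {b : Fin m → ZMod 2}
    {d : Fin (numE n W) → Lit (Var n (numE n W)) × Lit (Var n (numE n W))}
    {Γ : Set (Clause (Var n (numE n W)))} (hb : base (cnf H b) d (numE n W) ⊆ Γ)
    (hc : HasCirc T W Γ) {w : ℕ} (hw : w < W) (i : Fin m)
    (hT : ∀ v, bz (T w v) = vec (H i) v) {β : Bool} (hβ : bz β = b i) (s : Fin k → Bool) :
    RUP Γ (KC W w β (H i) k s) := by
  classical
  set C := KC W w β (H i) k s with hC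
  have hlit : ∀ a : Fin k, UnitProp Γ {l | negLit l ∈ C}
      (litv ((Sum.inl (H i a), true) : Lit (Var n (numE n W))) (s a)) := by
    intro a
    refine up_assume ?_
    rw [hC]
    refine mem_insert_of_mem (mem_image.2 ⟨a, ?_, rfl⟩)
    simp
  have hR : UnitProp Γ {l | negLit l ∈ C} (litv (PL w n) (!β)) := by
    refine up_assume ?_
    rw [hC, Bool.not_not]
    exact mem_insert_self _ _
  by_cases hcons : ∀ a a' : Fin k, H i a = H i a' → s a = s a'
  · let ξ : Fin n → Bool := fun u => decide (∃ a, H i a = u ∧ s a = true)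
    have hξ : ∀ a, ξ (H i a) = s a := by
      intro a
      by_cases h : s a = true
      · rw [h]
        exact decide_eq_true ⟨a, rfl, h⟩
      · rw [Bool.eq_false_iff.2 h]
        refine decide_eq_false ?_
        rintro ⟨a', h1, h2⟩
        exact h ((hcons a' a h1) ▸ h2)
    have h1 := up_par T hc hw ξ (A := {l | negLit l ∈ C}) (by
      intro v hv
      have h2 : vec (H i) v ≠ 0 := by
        rw [← hT v, hv]
        decide
      have h3 : ∃ a, H i a = v := by
        by_contra hne
        push Not at hne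
        refine h2 ?_
        simp [vec, hne]
      obtain ⟨a, rfl⟩ := h3
      rw [hξ a]
      exact hlit a) n le_rfl
    by_cases hp : par T w ξ n = β
    · rw [hp] at h1
      exact conflict h1 hR
    · have h4 : bz (par T w ξ n) = ∑ a, bz (s a) := by
        rw [bz_par]
        simp only [hT]
        rw [sum_vec_mul]
        simp [rowSum, hξ]
      have h5 : ∑ a, bz (s a) ≠ b i := by
        rw [← h4, ← hβ]
        exact fun h => hp (bz_inj h)
      have h6 : lift (numE n W) (rowClause (H i) s) ∈ Γ :=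
        hb (Or.inl ⟨_, mem_cnf.2 ⟨i, s, h5, rfl⟩, rfl⟩)
      refine Or.inl ⟨_, h6, ?_⟩
      intro g hg
      simp only [lift, rowClause, mem_image, mem_univ, true_and] at hg
      obtain ⟨l, ⟨a, rfl⟩, rfl⟩ := hg
      have h7 := hlit a
      rw [litv_inl] at h7
      simpa [negLit] using h7
  · push Not at hcons
    obtain ⟨a, a', h1, h2⟩ := hcons
    have h3 := hlit a'
    rw [← h1] at h3
    have h4 : s a' = !s a := by
      revert h2
      cases s a <;> cases s a' <;> simp
    rw [h4] at h3
    exact conflict (hlit a) h3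

theorem KC_succ {w : ℕ} {β : Bool} {E : Fin k → Fin n} {a : ℕ} (ha : a < k) (s : Fin k → Bool)
    (c : Bool) : KC W w β E (a + 1) (Function.update s ⟨a, ha⟩ c) =
      insert (litv ((Sum.inl (E ⟨a, ha⟩), true) : Lit (Var n (numE n W))) (!c))
        (KC W w β E a s) := by
  unfold KC
  rw [Finset.insert_comm]
  congr 1
  have h1 : (univ.filter (fun i : Fin k => i.val < a + 1)) =
      insert ⟨a, ha⟩ (univ.filter (fun i : Fin k => i.val < a)) := by
    ext i
    simp only [mem_filter, mem_univ, true_and, mem_insert, Fin.ext_iff]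
    omega
  rw [h1, image_insert, Function.update_self]
  congr 1
  refine image_congr ?_
  intro i hi
  have h2 : i.val < a := by simpa using hi
  have h3 : i ≠ ⟨a, ha⟩ := by
    intro h
    rw [h] at h2
    exact lt_irrefl _ h2
  simp only [Function.update_of_ne h3]

/-- The parity of a row. -/
theorem der_row {H : Fin m → Fin k → Fin n} {b : Fin m → ZMod 2}
    {d : Fin (numE n W) → Lit (Var n (numE n W)) × Lit (Var n (numE n W))}
    {Γ : Set (Clause (Var n (numE n W)))} (hb : base (cnf H b) d (numE n W) ⊆ Γ)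
    (hc : HasCirc T W Γ) {w : ℕ} (hw : w < W) (i : Fin m)
    (hT : ∀ v, bz (T w v) = vec (H i) v) {β : Bool} (hβ : bz β = b i) :
    Der Γ ((k + 1) * 2 ^ k) {{litv (PL w n) β}} := by
  classical
  have h := Der.steps (Γ := Γ) (N := 2 ^ k)
    (fun t => {D | ∃ s : Fin k → Bool, D = KC W w β (H i) (k - t) s}) (k + 1) (by
      intro t ht
      have h1 := Der.all (Γ := Γ ∪ {D | ∃ j < t, D ∈
          {D | ∃ s : Fin k → Bool, D = KC W w β (H i) (k - j) s}}) (N := 1)
        (univ : Finset (Fin k → Bool)) (fun s => {KC W w β (H i) (k - t) s}) (by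
          intro s _
          refine Der.single ?_
          rcases Nat.eq_zero_or_pos t with rfl | h0
          · rw [Nat.sub_zero]
            exact (rup_top T hb hc hw i hT hβ s).mono Set.subset_union_left
          · have hlt : k - t < k := by omega
            have hsucc : k - (t - 1) = k - t + 1 := by omega
            refine rup_split (Sum.inl (H i ⟨k - t, hlt⟩), true) ?_ ?_
            · refine Or.inr ⟨t - 1, by omega, Function.update s ⟨k - t, hlt⟩ false, ?_⟩
              rw [hsucc, KC_succ hlt]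
              rfl
            · refine Or.inr ⟨t - 1, by omega, Function.update s ⟨k - t, hlt⟩ true, ?_⟩
              rw [hsucc, KC_succ hlt]
              rfl)
      rw [card_univ, Fintype.card_fun, Fintype.card_bool, Fintype.card_fin, mul_one] at h1
      refine h1.mono (Set.Subset.refl _) le_rfl ?_
      rintro D ⟨s, rfl⟩
      exact ⟨s, mem_univ _, rfl⟩)
  refine h.mono (Set.Subset.refl _) le_rfl ?_
  rintro D hD
  rw [Set.mem_singleton_iff] at hD
  refine ⟨k, Nat.lt_succ_self k, fun _ => true, ?_⟩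
  rw [hD, Nat.sub_self]
  simp [KC]

end

end Pool.Agent.MP_9cec2c_lc.SubstExt
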