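import Mathlib
import Pool.Agent.Lib.MP_9cec2c_lc.Circuit
import Pool.Agent.Lib.MP_9cec2c_lc.KSatDef
import Pool.Agent.Lib.MP_9cec2c_lc.Verify

set_option autoImplicit false
set_option linter.unusedSectionVars false
set_option linter.unusedSimpArgs false
set_option linter.unusedVariables false

/-!
Satisfiability of a `k`-CNF on `v` variables has certificates of `v` bits checked by a CNF-like circuit of
depth two without modular gates.
-/

namespace Pool.Agent.Lib.MP_9cec2c_lc

open Finset

lemma card_clause (k v : ℕ) : Fintype.card (Clause k v) = (2 * v) ^ k := by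
  simp only [Clause, Fintype.card_fun, Fintype.card_prod, Fintype.card_fin, Fintype.card_bool]
  rw [mul_comm]

/-- enumeration of the clauses -/
noncomputable def clauseEquiv (k v : ℕ) : Clause k v ≃ Fin ((2 * v) ^ k) :=
  Fintype.equivFinOfCardEq (card_clause k v)

/-- the verifier circuit for satisfiability -/
noncomputable def satCircuit (k v : ℕ) : Circuit (Clause k v ⊕ Fin v ⊕ Fin 0) ((2 * v) ^ k + 1) where
  kind g := if g.val < (2 * v) ^ k then GateKind.or else GateKind.and
  arity g := if g.val < (2 * v) ^ k then k + 1 else (2 * v) ^ k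
  wire g i :=
    if h : g.val < (2 * v) ^ k then
      (if hi : i.val < k then
        (Sum.inl (Sum.inr (Sum.inl ((clauseEquiv k v).symm ⟨g.val, h⟩ ⟨i.val, hi⟩).1)),
          !((clauseEquiv k v).symm ⟨g.val, h⟩ ⟨i.val, hi⟩).2)
      else (Sum.inl (Sum.inl ((clauseEquiv k v).symm ⟨g.val, h⟩)), true))
    else (Sum.inr ⟨i.val, by
      have h1 : i.val < (2 * v) ^ k := lt_of_lt_of_eq i.isLt (if_neg h)
      omega⟩, false)
  out := (Sum.inr ⟨(2 * v) ^ k, by omega⟩, false)

lemma satCircuit_val_clause (p k v : ℕ) (x : Clause k v ⊕ Fin v ⊕ Fin 0 → Bool)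
    (n : ℕ) (hn : n < (2 * v) ^ k) :
    (satCircuit k v).val p x ⟨n, by omega⟩ = true ↔
      (x (Sum.inl ((clauseEquiv k v).symm ⟨n, hn⟩)) = true →
        ∃ j, x (Sum.inr (Sum.inl ((clauseEquiv k v).symm ⟨n, hn⟩ j).1)) =
          ((clauseEquiv k v).symm ⟨n, hn⟩ j).2) := by
  have hkind : (satCircuit k v).kind ⟨n, by omega⟩ = GateKind.or := by
    simp [satCircuit, hn]
  have har : (satCircuit k v).arity ⟨n, by omega⟩ = k + 1 := by
    simp [satCircuit, hn]
  rw [Circuit.val, hkind]
  simp only [GateKind.eval, decide_eq_true_eq]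
  constructor
  · rintro ⟨i, hi⟩ hx
    by_cases hik : i.val < k
    · refine ⟨⟨i.val, hik⟩, ?_⟩
      simp only [satCircuit, hn, hik, dif_pos] at hi
      revert hi
      cases x (Sum.inr (Sum.inl ((clauseEquiv k v).symm ⟨n, hn⟩ ⟨i.val, hik⟩).1)) <;>
        cases ((clauseEquiv k v).symm ⟨n, hn⟩ ⟨i.val, hik⟩).2 <;> simp
    · simp only [satCircuit, hn, hik, dif_pos, dif_neg, not_false_eq_true] at hi
      rw [hx] at hi
      simp at hi
  · intro h
    by_cases hx : x (Sum.inl ((clauseEquiv k v).symm ⟨n, hn⟩)) = true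
    · obtain ⟨j, hj⟩ := h hx
      refine ⟨⟨j.val, by rw [har]; omega⟩, ?_⟩
      simp only [satCircuit, hn, j.isLt, dif_pos]
      rw [hj]
      cases ((clauseEquiv k v).symm ⟨n, hn⟩ j).2 <;> simp
    · refine ⟨⟨k, by rw [har]; omega⟩, ?_⟩
      simp only [satCircuit, hn, lt_irrefl, dif_pos, dif_neg, not_false_eq_true]
      rw [Bool.not_eq_true] at hx
      rw [hx]
      rfl

lemma satCircuit_eval (p k v : ℕ) (φ : Clause k v → Bool) (z : Fin v → Bool) (s : Fin 0 → Bool) :
    (satCircuit k v).eval p (Sum.elim φ (Sum.elim z s)) = true ↔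
      ∀ c : Clause k v, φ c = true → ∃ j, z (c j).1 = (c j).2 := by
  have hout : (satCircuit k v).out = (Sum.inr ⟨(2 * v) ^ k, by omega⟩, false) := rfl
  unfold Circuit.eval
  rw [hout]
  simp only [Bool.false_xor]
  have hkind : (satCircuit k v).kind ⟨(2 * v) ^ k, by omega⟩ = GateKind.and := by
    simp [satCircuit]
  have har : (satCircuit k v).arity ⟨(2 * v) ^ k, by omega⟩ = (2 * v) ^ k := by
    simp [satCircuit]
  rw [Circuit.val, hkind]
  simp only [GateKind.eval, decide_eq_true_eq]
  constructor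
  · intro h c hc
    have h1 := h ⟨(clauseEquiv k v c).val, by rw [har]; exact (clauseEquiv k v c).isLt⟩
    simp only [satCircuit, lt_irrefl, dif_neg, not_false_eq_true, Bool.false_xor] at h1
    have h2 := (satCircuit_val_clause p k v (Sum.elim φ (Sum.elim z s)) (clauseEquiv k v c).val
      (clauseEquiv k v c).isLt).mp h1
    simp only [Fin.eta, Equiv.symm_apply_apply, Sum.elim_inl, Sum.elim_inr] at h2
    exact h2 hc
  · intro h i
    have hi : i.val < (2 * v) ^ k := lt_of_lt_of_eq i.isLt har
    simp only [satCircuit, lt_irrefl, dif_neg, not_false_eq_true, Bool.false_xor]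
    refine (satCircuit_val_clause p k v (Sum.elim φ (Sum.elim z s)) i.val hi).mpr ?_
    simp only [Sum.elim_inl, Sum.elim_inr]
    exact h _

lemma satCircuit_depth (k v : ℕ) : (satCircuit k v).depth ≤ 2 := by
  have h1 : ∀ (n : ℕ) (hn : n < (2 * v) ^ k),
      (satCircuit k v).depthAt ⟨n, by omega⟩ ≤ 1 := by
    intro n hn
    rw [Circuit.depthAt]
    apply Nat.succ_le_succ
    apply Finset.sup_le
    intro i _
    by_cases hik : i.val < k
    · simp [satCircuit, hn, hik]
    · simp [satCircuit, hn, hik]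
  have hout : (satCircuit k v).out = (Sum.inr ⟨(2 * v) ^ k, by omega⟩, false) := rfl
  unfold Circuit.depth
  rw [hout]
  simp only
  rw [Circuit.depthAt]
  apply Nat.succ_le_succ
  apply Finset.sup_le
  intro i _
  have har : (satCircuit k v).arity ⟨(2 * v) ^ k, by omega⟩ = (2 * v) ^ k := by
    simp [satCircuit]
  have hi : i.val < (2 * v) ^ k := lt_of_lt_of_eq i.isLt har
  simp only [satCircuit, lt_irrefl, dif_neg, not_false_eq_true]
  exact h1 i.val hi

theorem sat_side (k v p : ℕ) :
    ∃ C : Circuit (Clause k v ⊕ Fin v ⊕ Fin 0) ((2 * v) ^ k + 1),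
      C.depth ≤ 2 ∧ (∀ g, C.kind g ≠ GateKind.mod) ∧
      Verifies p C (fun φ : Clause k v → Bool => Satisfiable φ) := by
  refine ⟨satCircuit k v, satCircuit_depth k v, ?_, ?_⟩
  · intro g
    by_cases hg : g.val < (2 * v) ^ k
    · simp [satCircuit, hg]
    · simp [satCircuit, hg]
  · intro φ
    constructor
    · rintro ⟨a, ha⟩
      refine ⟨a, ?_⟩
      have h1 : (Finset.univ.filter fun s : Fin 0 → Bool =>
          (satCircuit k v).eval p (Sum.elim φ (Sum.elim a s)) = true) = Finset.univ := by
        apply Finset.filter_true_of_mem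
        intro s _
        exact (satCircuit_eval p k v φ a s).mpr ha
      rw [h1]
      simp
    · intro hns z
      have h1 : (Finset.univ.filter fun s : Fin 0 → Bool =>
          (satCircuit k v).eval p (Sum.elim φ (Sum.elim z s)) = true) = ∅ := by
        apply Finset.filter_eq_empty_iff.mpr
        intro s _ h
        exact hns ⟨z, (satCircuit_eval p k v φ z s).mp h⟩
      rw [h1]
      simp

end Pool.Agent.Lib.MP_9cec2c_lc
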