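import Pool.Agent.Lib.MP_9cec2c_lc.PSNum
import Pool.Agent.Lib.MP_9cec2c_lc.Mg.G055

/-!
The choice of the numbers.
-/

set_option autoImplicit false

namespace Pool.Agent.MP_9cec2c_lc.SumProd

open Finset
open Pool.Agent.MP_9cec2c_lc.SubstRed
open Pool.Agent.MP_9cec2c_lc.FormulaLines (choose_le_three)

/-- The numbers are in the right order. -/
theorem const_order {n w c A A2 Q M K κ D d b r : ℕ} (hc : 1 ≤ c) (hA : 1 ≤ A)
    (hA2 : A2 = 512 * A) (hQ : Q = 8192 * A2 ^ 2) (hM : M = 2 * (768 * c * Q) ^ 16)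
    (hK : M * Q ≤ K) (hw : 3 ≤ w) (hn : K * w ≤ n) (hr : r = n / (A * w)) (hD : D = n / (32 * A))
    (hκ : κ = n / A2) (hd : d = n / M) (hb : b = d / Q) :
    (1 ≤ r ∧ 16 * D ≤ w * r ∧ A * (w * r) ≤ n) ∧ (d + 3 * κ ≤ D ∧ w + (d + κ) ≤ D ∧ κ ≤ n) ∧
      (d + b ≤ n ∧ d ≤ 2 * Q * b ∧ b ≤ d ∧ 2 * d ≤ n - κ) ∧
      ((d + b : ℕ) : ℝ) / n ≤ (1 / (768 * c * Q) : ℝ) ^ 16 ∧ Q ≤ d ∧ n ≤ 2 * (M * d) ∧
      n ≤ 2 * (A2 * κ) := by
  have hA21 : 512 ≤ A2 := by omega
  have hA2sq : A2 ≤ A2 ^ 2 := Nat.le_self_pow (by norm_num) _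
  have hQ1 : 8192 * A2 ≤ Q := by omega
  have hP : Q ≤ (768 * c * Q) ^ 16 := by
    calc Q = 1 * Q := (one_mul _).symm
      _ ≤ 768 * c * Q := Nat.mul_le_mul_right _ (by omega)
      _ ≤ (768 * c * Q) ^ 16 := Nat.le_self_pow (by norm_num) _
  obtain ⟨P, hPe⟩ : ∃ P, P = (768 * c * Q) ^ 16 := ⟨_, rfl⟩
  have hPR : (P : ℝ) = (768 * c * Q) ^ 16 := by
    rw [hPe]
    push_cast
    ring
  rw [← hPe] at hM hP
  clear hPe
  have hQM : Q ≤ M := by omega
  have hKn : K ≤ n := le_trans (Nat.le_mul_of_pos_right _ (by omega)) hn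
  have hMQn : M * Q ≤ n := hK.trans hKn
  have hMn : M ≤ n := le_trans (Nat.le_mul_of_pos_right _ (by omega)) hMQn
  have hMpos : 0 < M := by omega
  have hQd : Q ≤ d := by
    rw [hd, Nat.le_div_iff_mul_le hMpos, mul_comm]
    exact hMQn
  have hdM : M * d ≤ n := by
    rw [hd]
    exact Nat.mul_div_le _ _
  have hdM2 : n < M * (d + 1) := by
    rw [hd]
    exact Nat.lt_mul_div_succ n hMpos
  have hn2Md : n ≤ 2 * (M * d) := by
    have h1 : M * (d + 1) = M * d + M := by ring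
    have h2 : M ≤ M * d := Nat.le_mul_of_pos_right _ (by omega)
    omega
  have hbQ : Q * b ≤ d := by
    rw [hb]
    exact Nat.mul_div_le _ _
  have hbQ2 : d < Q * (b + 1) := by
    rw [hb]
    exact Nat.lt_mul_div_succ d (by omega)
  have hb1 : 1 ≤ b := by
    rw [hb, Nat.le_div_iff_mul_le (by omega)]
    omega
  have hbd : b ≤ d := by
    rw [hb]
    exact Nat.div_le_self _ _
  have h2b : d ≤ 2 * Q * b := by
    have h1 : Q * (b + 1) = Q * b + Q := by ring
    have h2 : Q ≤ Q * b := Nat.le_mul_of_pos_right _ hb1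
    have h3 : 2 * Q * b = 2 * (Q * b) := by ring
    omega
  -- the parameter κ
  have hκ1 : A2 * κ ≤ n := by
    rw [hκ]
    exact Nat.mul_div_le _ _
  have hκ2 : n < A2 * (κ + 1) := by
    rw [hκ]
    exact Nat.lt_mul_div_succ n (by omega)
  have hdκ : d ≤ κ := by
    rw [hκ, Nat.le_div_iff_mul_le (by omega), mul_comm]
    refine le_trans (Nat.mul_le_mul_right _ (by omega)) hdM
  have hn2κ : n ≤ 2 * (A2 * κ) := by
    have h1 : A2 * (κ + 1) = A2 * κ + A2 := by ring
    have h2 : A2 ≤ A2 * κ := Nat.le_mul_of_pos_right _ (by omega)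
    omega
  have hwκ : w ≤ κ := by
    rw [hκ, Nat.le_div_iff_mul_le (by omega), mul_comm]
    refine le_trans (Nat.mul_le_mul_right _ ?_) hn
    refine le_trans ?_ hK
    calc A2 ≤ Q := by omega
      _ ≤ M * Q := Nat.le_mul_of_pos_left _ hMpos
  have h4κ : 4 * κ ≤ D := by
    rw [hD, Nat.le_div_iff_mul_le (by omega)]
    calc 4 * κ * (32 * A) = 128 * (A * κ) := by ring
      _ ≤ 512 * (A * κ) := by omega
      _ = A2 * κ := by
        rw [hA2]
        ring
      _ ≤ n := hκ1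
  have hκn : 512 * κ ≤ n := le_trans (Nat.mul_le_mul_right _ hA21) hκ1
  -- the radius
  have h2Aw : 2 * (A * w) ≤ n := by
    calc 2 * (A * w) = (2 * A) * w := by ring
      _ ≤ K * w := by
        refine Nat.mul_le_mul_right _ (le_trans ?_ hK)
        calc 2 * A ≤ Q := by omega
          _ ≤ M * Q := Nat.le_mul_of_pos_left _ hMpos
      _ ≤ n := hn
  have hAw : 0 < A * w := Nat.mul_pos (by omega) (by omega)
  have hr1 : 1 ≤ r := by
    rw [hr, Nat.le_div_iff_mul_le hAw]
    omega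
  have hrn : A * w * r ≤ n := by
    rw [hr]
    exact Nat.mul_div_le _ _
  have hrn2 : n < A * w * (r + 1) := by
    rw [hr]
    exact Nat.lt_mul_div_succ n hAw
  have hn2r : n ≤ 2 * (A * (w * r)) := by
    have h1 : A * w * (r + 1) = A * (w * r) + A * w := by ring
    have h2 : A * w ≤ A * (w * r) := Nat.mul_le_mul_left _ (Nat.le_mul_of_pos_right _ hr1)
    omega
  have h16 : 16 * D ≤ w * r := by
    have h1 : D * (32 * A) ≤ n := by
      rw [hD]
      exact Nat.div_mul_le_self _ _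
    have h2 : A * (16 * D) ≤ A * (w * r) := by
      have h3 : D * (32 * A) = 2 * (A * (16 * D)) := by ring
      omega
    exact Nat.le_of_mul_le_mul_left h2 (by omega)
  refine ⟨⟨hr1, h16, by rwa [← mul_assoc]⟩, ⟨by omega, by omega, by omega⟩,
    ⟨by omega, h2b, hbd, by omega⟩, ?_, hQd, hn2Md, hn2κ⟩
  have hn0 : (0 : ℝ) < n := by exact_mod_cast (by omega : 0 < n)
  have hP0 : (0 : ℝ) < P := by exact_mod_cast (by omega : 0 < P)
  rw [div_pow, one_pow, ← hPR, div_le_div_iff₀ hn0 hP0]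
  have h1 : (d + b) * P ≤ 1 * n := by
    calc (d + b) * P ≤ (d + d) * P := Nat.mul_le_mul_right _ (by omega)
      _ = M * d := by
        rw [hM]
        ring
      _ ≤ 1 * n := by omega
  exact_mod_cast h1

/-- The final inequality. -/
theorem const_ineq {n c A2 Q M K κ d b S : ℕ} (hA2 : 1 ≤ A2)
    (hQ : Q = 8192 * A2 ^ 2) (hK : M * Q ≤ K) (hM : 1 ≤ M) (hκn : κ ≤ n) (hn0 : 0 < n)
    (hQd : Q ≤ d) (hb : b = d / Q) (hdb : b ≤ d) (h2b : d ≤ 2 * Q * b) (hnM : n ≤ 2 * (M * d))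
    (hnκ : n ≤ 2 * (A2 * κ)) (hdn : d ≤ n) (hS : S ≤ 2 ^ (n / K)) :
    2 * ((d + b).choose d) * (S * ((d + 1) * (n - κ).choose d)) < n.choose d := by
  have hA2' : (1 : ℝ) ≤ A2 := by exact_mod_cast hA2
  have hA20 : (0 : ℝ) < A2 := by linarith
  have hQ' : (Q : ℝ) = 8192 * A2 ^ 2 := by
    rw [hQ]
    push_cast
    ring
  have hA2sq : A2 ≤ A2 ^ 2 := Nat.le_self_pow (by norm_num) _
  have hQ1 : 1 ≤ Q := by omega
  have hQ0 : (0 : ℝ) < Q := by exact_mod_cast hQ1
  have hd0 : (0 : ℝ) < d := by exact_mod_cast (by omega : 0 < d)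
  have hQd' : (8192 * A2 ^ 2 : ℝ) ≤ d := by
    rw [← hQ']
    exact_mod_cast hQd
  have hbQ : Q * b ≤ d := by
    rw [hb]
    exact Nat.mul_div_le _ _
  have hb1 : 1 ≤ b := by
    rw [hb, Nat.le_div_iff_mul_le (by omega)]
    omega
  have hb0 : (0 : ℝ) < b := by exact_mod_cast hb1
  obtain ⟨y, hy⟩ : ∃ y : ℝ, y = d / (16 * A2) := ⟨_, rfl⟩
  have hy0 : 0 < y := by
    rw [hy]
    positivity
  have hyA : 16 * A2 * y = d := by
    rw [hy]
    field_simp
  have hy512 : 512 * A2 ≤ y := by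
    rw [hy, le_div_iff₀ (by positivity)]
    nlinarith
  have hy1 : 1 ≤ y := by nlinarith
  -- the four factors
  have f1 : (2 : ℝ) ≤ Real.exp y := by
    have := Real.add_one_le_exp y
    linarith
  have f2 : ((d : ℝ) + 1) ≤ Real.exp y := by
    have h1 := Real.quadratic_le_exp_of_nonneg hy0.le
    nlinarith
  have f3 : ((d + b).choose d : ℝ) ≤ Real.exp y := by
    have h1 : (d + b).choose d = (d + b).choose b := by
      rw [Nat.choose_symm_add]
    rw [h1]
    refine (choose_le_three (by omega)).trans ?_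
    have h2 : (3 * ((d + b : ℕ) : ℝ) / b) ≤ 9 * Q := by
      rw [div_le_iff₀ hb0]
      have h3 : 3 * (d + b) ≤ 9 * Q * b := by
        have h4 : 2 * Q * b = 2 * (Q * b) := by ring
        have h5 : 9 * Q * b = 9 * (Q * b) := by ring
        have h6 : b ≤ Q * b := Nat.le_mul_of_pos_left _ hQ1
        omega
      exact_mod_cast h3
    have h3 : (9 * Q : ℝ) ≤ Real.exp (512 * A2) := by
      have h4 := Real.quadratic_le_exp_of_nonneg (x := 512 * (A2 : ℝ)) (by positivity)
      rw [hQ']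
      nlinarith
    calc (3 * ((d + b : ℕ) : ℝ) / b) ^ b ≤ (Real.exp (512 * A2)) ^ b :=
          pow_le_pow_left₀ (by positivity) (h2.trans h3) _
      _ = Real.exp (b * (512 * A2)) := (Real.exp_nat_mul _ _).symm
      _ ≤ Real.exp y := by
          refine Real.exp_le_exp.2 ?_
          have h4 : (Q * b : ℝ) ≤ d := by exact_mod_cast hbQ
          rw [hQ', ← hyA] at h4
          have h5 : 16 * A2 * (b * (512 * A2)) ≤ 16 * A2 * y := by
            calc (16 * A2 * (b * (512 * A2)) : ℝ) = 8192 * A2 ^ 2 * b := by ring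
              _ ≤ 16 * A2 * y := h4
          exact le_of_mul_le_mul_left h5 (by positivity)
  have f4 : (S : ℝ) ≤ Real.exp y := by
    have hKpos : (0 : ℝ) < K := by
      have : 0 < M * Q := Nat.mul_pos hM hQ1
      exact_mod_cast (by omega : 0 < K)
    have h1 : (S : ℝ) ≤ 2 ^ (n / K) := by exact_mod_cast hS
    have h2 : ((n / K : ℕ) : ℝ) ≤ y := by
      refine Nat.cast_div_le.trans ?_
      rw [div_le_iff₀ hKpos]
      have h3 : (n : ℝ) ≤ 2 * (M * d) := by exact_mod_cast hnM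
      have h4 : (M * Q : ℝ) ≤ K := by exact_mod_cast hK
      have hM' : (1 : ℝ) ≤ M := by exact_mod_cast hM
      calc (n : ℝ) ≤ 2 * (M * d) := h3
        _ = 2 * M * (16 * A2 * y) := by
            rw [hyA]
            ring
        _ = y * (M * (32 * A2)) := by ring
        _ ≤ y * (M * Q) := by
            have : (32 * A2 : ℝ) ≤ Q := by
              rw [hQ']
              nlinarith
            gcongr
        _ ≤ y * K := by gcongr
    have h5 : (2 : ℝ) ≤ Real.exp 1 := by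
      have := Real.add_one_le_exp (1 : ℝ)
      linarith
    calc (S : ℝ) ≤ 2 ^ (n / K) := h1
      _ ≤ (Real.exp 1) ^ (n / K) := by gcongr
      _ = Real.exp ((n / K : ℕ) * 1) := (Real.exp_nat_mul _ _).symm
      _ ≤ Real.exp y := by
          rw [mul_one]
          exact Real.exp_le_exp.2 h2
  -- the gain
  have hn' : (0 : ℝ) < n := by exact_mod_cast hn0
  have hgain : ((n - κ : ℕ) : ℝ) ^ d * Real.exp (8 * y) ≤ (n : ℝ) ^ d := by
    have h1 : ((n - κ : ℕ) : ℝ) ≤ n * Real.exp (-(1 / (2 * A2))) := by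
      rw [Nat.cast_sub hκn]
      have h2 := Real.add_one_le_exp (-(1 / (2 * A2) : ℝ))
      have h3 : (n : ℝ) ≤ 2 * (A2 * κ) := by exact_mod_cast hnκ
      have h4 : (n : ℝ) * (1 / (2 * A2)) ≤ κ := by
        rw [mul_one_div, div_le_iff₀ (by positivity)]
        linarith
      calc (n : ℝ) - κ ≤ n - n * (1 / (2 * A2)) := by linarith
        _ = n * (-(1 / (2 * A2)) + 1) := by ring
        _ ≤ n * Real.exp (-(1 / (2 * A2))) := by gcongr
    calc ((n - κ : ℕ) : ℝ) ^ d * Real.exp (8 * y)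
        ≤ (n * Real.exp (-(1 / (2 * A2)))) ^ d * Real.exp (8 * y) := by gcongr
      _ = n ^ d * (Real.exp (d * -(1 / (2 * A2))) * Real.exp (8 * y)) := by
          rw [mul_pow, ← Real.exp_nat_mul]
          ring
      _ = n ^ d := by
          rw [← Real.exp_add, ← hyA]
          have : 16 * A2 * y * -(1 / (2 * A2)) + 8 * y = 0 := by
            field_simp
            ring
          rw [this, Real.exp_zero, mul_one]
  have hX : (2 * ((d + b).choose d) * S * (d + 1) : ℝ) < Real.exp (8 * y) := by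
    calc (2 * ((d + b).choose d) * S * (d + 1) : ℝ)
        ≤ Real.exp y * Real.exp y * Real.exp y * Real.exp y := by gcongr
      _ = Real.exp (4 * y) := by
          rw [← Real.exp_add, ← Real.exp_add, ← Real.exp_add]
          congr 1
          ring
      _ < Real.exp (8 * y) := Real.exp_lt_exp.2 (by linarith)
  have hCpos : (0 : ℝ) < n.choose d := by exact_mod_cast Nat.choose_pos hdn
  have hrat : ((n - κ).choose d : ℝ) * n ^ d ≤ n.choose d * ((n - κ : ℕ) : ℝ) ^ d := by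
    exact_mod_cast ParTrade.choose_ratio (Nat.sub_le n κ) d
  have hnd : (0 : ℝ) < (n : ℝ) ^ d := by positivity
  have hfin : ((2 * ((d + b).choose d) * (S * ((d + 1) * (n - κ).choose d)) : ℕ) : ℝ) <
      (n.choose d : ℝ) := by
    push_cast
    refine lt_of_mul_lt_mul_right ?_ hnd.le
    calc (2 * ((d + b).choose d) * (S * ((d + 1) * (n - κ).choose d)) : ℝ) * n ^ d
        = (2 * ((d + b).choose d) * S * (d + 1)) * ((n - κ).choose d * n ^ d) := by ring
      _ ≤ (2 * ((d + b).choose d) * S * (d + 1)) * (n.choose d * ((n - κ : ℕ) : ℝ) ^ d) := by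
          gcongr
      _ = n.choose d * (((n - κ : ℕ) : ℝ) ^ d * (2 * ((d + b).choose d) * S * (d + 1))) := by
          ring
      _ < n.choose d * n ^ d := by
          refine mul_lt_mul_of_pos_left ?_ hCpos
          rcases (by positivity : (0 : ℝ) ≤ ((n - κ : ℕ) : ℝ) ^ d).eq_or_lt with h0 | h0
          · rw [← h0, zero_mul]
            exact hnd
          · exact (mul_lt_mul_of_pos_left hX h0).trans_le hgain
  exact_mod_cast hfin

end Pool.Agent.MP_9cec2c_lc.SumProd
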