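import Pool.Agent.Lib.MP_9cec2c_lc.XPTerm

/-!
A function of small degree that vanishes at rare terms turns a refutation into a derivation of
small degree.
-/

set_option autoImplicit false
set_option linter.unusedSectionVars false

namespace Pool.Agent.MP_9cec2c_lc.SumProd

open Finset
open Pool.Agent.MP_9cec2c_lc.ParTrade (IsAff binSum few_points)
open Pool.Agent.MP_9cec2c_lc.ResPoly

variable {n : ℕ}

/-- A nonzero combination of given monomials that vanishes on given points. -/
theorem exists_comb (TT : Finset (Finset (Fin n))) (P : Finset (Fin n → Bool))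
    (h : P.card < TT.card) : ∃ f : (Fin n → Bool) → ZMod 2, f ≠ 0 ∧ (∀ x ∈ P, f x = 0) ∧
      f ∈ Submodule.span (ZMod 2) {g | ∃ M ∈ TT, g = mon (ZMod 2) M} := by
  classical
  obtain ⟨a, a', haa', heq⟩ := Fintype.exists_ne_map_eq_of_card_lt
    (fun (a : {M // M ∈ TT} → ZMod 2) (x : {x // x ∈ P}) =>
      ∑ M, a M * mon (ZMod 2) M.1 x.1) (by
      rw [Fintype.card_fun, Fintype.card_fun, ZMod.card, Fintype.card_coe, Fintype.card_coe]
      exact Nat.pow_lt_pow_right (by norm_num) h)
  obtain ⟨f, hf⟩ : ∃ f : (Fin n → Bool) → ZMod 2,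
      f = ∑ M, (a M - a' M) • mon (ZMod 2) M.1 := ⟨_, rfl⟩
  refine ⟨f, fun hf0 => ?_, fun x hx => ?_, ?_⟩
  · have hli : LinearIndependent (ZMod 2) fun M : {M // M ∈ TT} =>
        (mon (ZMod 2) M.1 : (Fin n → Bool) → ZMod 2) :=
      (mon_linInd (n := n) (ZMod 2)).comp (fun M : {M // M ∈ TT} => M.1)
        Subtype.val_injective
    rw [Fintype.linearIndependent_iff] at hli
    refine haa' (funext fun M => sub_eq_zero.1 (hli (fun M => a M - a' M) ?_ M))
    rw [← hf, hf0]
  · have h1 := congrFun heq ⟨x, hx⟩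
    have h2 : f x = ∑ M, (a M - a' M) * mon (ZMod 2) M.1 x := by
      rw [hf, Finset.sum_apply]
      rfl
    rw [h2]
    simp only [sub_mul, sum_sub_distrib]
    exact sub_eq_zero.2 h1
  · rw [hf]
    exact Submodule.sum_mem _ fun M _ => Submodule.smul_mem _ _
      (Submodule.subset_span ⟨M.1, M.2, rfl⟩)

/-- The value of a line: the number of true terms modulo 2. -/
noncomputable def val (L : Finset (Term (Fin n))) : (Fin n → Bool) → ZMod 2 := ∑ t ∈ L, ind t

theorem sat_iff (L : Finset (Term (Fin n))) (x : Fin n → Bool) : Sat x L ↔ val L x = 0 := by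
  classical
  have h1 : val L x = ((L.filter fun t => IsTrue x t).card : ZMod 2) := by
    unfold val ind
    rw [Finset.sum_apply, card_filter]
    push_cast
    rfl
  have h2 : {t | t ∈ L ∧ IsTrue x t}.ncard = (L.filter fun t => IsTrue x t).card := by
    rw [← Set.ncard_coe_finset]
    congr 1
    ext t
    rw [mem_coe, mem_filter]
    rfl
  unfold Sat
  rw [h1, h2, ZMod.natCast_eq_zero_iff_even]

/-- The main argument. -/
theorem terms_bound {ι : Type} [Fintype ι] [DecidableEq ι] {Z : ι → Finset (Fin n)}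
    {a : ι → Fin n → Bool} {r D d κ w : ℕ} (hZ : Tight Z r D) (hr1 : 1 ≤ r)
    (hw : ∀ i, (Z i).card ≤ w) (hD : d + 3 * κ ≤ D) (hD' : w + (d + κ) ≤ D) (hκ : κ ≤ n)
    {TT : Finset (Finset (Fin n))} (hTT : ∀ M ∈ TT, M.card ≤ d)
    (hgood : ∀ M ∈ TT, ∀ I : Finset ι, I.card ≤ r → bd Z I ⊆ M → I = ∅)
    {l : ℕ} (L : Fin l → Finset (Term (Fin n))) (hroot : ∃ i, ∀ x, ¬ Sat x (L i))
    (hstep : ∀ i, (∃ c, ∀ x, (∃ v ∈ Z c, x v ≠ a c v) → Sat x (L i)) ∨
      ∃ j k, j < i ∧ k < i ∧ ∀ x, Sat x (L j) → Sat x (L k) → Sat x (L i)) :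
    TT.card ≤ {t | ∃ i, t ∈ L i}.ncard * binSum (n - κ) (d + 1) := by
  classical
  by_contra hcon
  rw [not_le] at hcon
  obtain ⟨J, hJ1, hJ2, hJ3⟩ := exists_ideal (ZMod 2) a hZ hr1 fun i => (hw i).trans (by omega)
  -- the terms that are rarely true
  have hts : {t | ∃ i, t ∈ L i}.ncard = (univ.biUnion L).card := by
    rw [← Set.ncard_coe_finset]
    congr 1
    ext t
    rw [mem_coe, mem_biUnion]
    simp
  rw [hts] at hcon
  obtain ⟨Q, hQ⟩ : ∃ Q, Q = (univ.biUnion L).filter fun t =>
      ¬ 2 ^ n ≤ (pts t).card * 2 ^ κ := ⟨_, rfl⟩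
  have hE : ∀ t, ∃ E : Finset (Fin n → Bool), t ∈ Q → E.card ≤ binSum (n - κ) (d + 1) ∧
      ∀ f : (Fin n → Bool) → ZMod 2, ParTrade.Deg (d + 1) f → (∀ z ∈ E, f z = 0) →
        ∀ z ∈ pts t, f z = 0 := by
    intro t
    by_cases h : t ∈ Q
    · rw [hQ, mem_filter, not_le] at h
      have h1 : (pts t).card ≤ 2 ^ (n - κ) := by
        have h2 : 2 ^ n = 2 ^ (n - κ) * 2 ^ κ := by
          rw [← pow_add]
          congr 1
          omega
        rw [h2] at h
        exact (Nat.lt_of_mul_lt_mul_right h.2).le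
      obtain ⟨E, -, h3, h4⟩ := few_points (n - κ) (d + 1) (pts t) (aff_pts t) h1
      exact ⟨E, fun _ => ⟨h3, h4⟩⟩
    · exact ⟨∅, fun h' => absurd h' h⟩
  choose E hE using hE
  have hPc : (Q.biUnion E).card < TT.card := by
    refine lt_of_le_of_lt ?_ hcon
    refine (card_biUnion_le_card_mul _ _ _ fun t ht => (hE t ht).1).trans ?_
    refine Nat.mul_le_mul_right _ (card_le_card ?_)
    rw [hQ]
    exact filter_subset _ _
  obtain ⟨f, hf0, hfP, hfs⟩ := exists_comb TT (Q.biUnion E) hPc
  have hfd : f ∈ ResPoly.Poly (ZMod 2) n d := by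
    refine Submodule.span_mono ?_ hfs
    rintro g ⟨M, hM, rfl⟩
    exact ⟨M, hTT M hM, rfl⟩
  have hfQ : ∀ t ∈ Q, f * ind t = 0 := by
    intro t ht
    funext x
    rw [Pi.mul_apply, Pi.zero_apply]
    unfold ind
    by_cases hx : IsTrue x t
    · rw [(hE t ht).2 f (deg_of_Poly hfd) (fun z hz => hfP z (mem_biUnion.2 ⟨t, ht, hz⟩)) x
        (mem_pts.2 hx), zero_mul]
    · rw [if_neg hx, mul_zero]
  -- approximations of the lines
  have happ : ∀ i, ∃ g ∈ ResPoly.Poly (ZMod 2) n κ, f * val (L i) = f * g := by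
    intro i
    refine ⟨∑ t ∈ (L i).filter (fun t => t ∉ Q), ind t, ?_, ?_⟩
    · refine Submodule.sum_mem _ fun t ht => ?_
      rw [mem_filter, hQ, mem_filter, not_and, not_not] at ht
      exact ind_mem (ht.2 (mem_biUnion.2 ⟨i, mem_univ _, ht.1⟩))
    · unfold val
      rw [← sum_filter_add_sum_filter_not (L i) (fun t => t ∉ Q), mul_add]
      have h1 : f * ∑ t ∈ (L i).filter (fun t => ¬ t ∉ Q), ind t = 0 := by
        rw [mul_sum]
        refine sum_eq_zero fun t ht => ?_
        rw [mem_filter, not_not] at ht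
        exact hfQ t ht.2
      rw [h1, add_zero]
  choose g hg hfg using happ
  have hmain : ∀ i, f * val (L i) ∈ J := by
    intro i
    induction i using WellFoundedLT.induction with
    | ind i ih =>
      rcases hstep i with ⟨c, hc⟩ | ⟨j, k, hj, hk, hjk⟩
      · have h1 : f * val (L i) = Fals (ZMod 2) Z a c * (f * g i) := by
          rw [← hfg i]
          funext x
          rw [Pi.mul_apply, Pi.mul_apply, Pi.mul_apply]
          unfold Fals
          by_cases hx : ∀ v ∈ Z c, x v = a c v
          · rw [if_pos hx, one_mul]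
          · rw [if_neg hx, zero_mul]
            push Not at hx
            rw [(sat_iff (L i) x).1 (hc x hx), mul_zero]
        rw [h1]
        refine hJ2 w (d + κ) _ _ hD' (hJ1 c) ?_ (Poly_mul _ hfd (hg i))
        have h3 := mem_span_of_depends (ZMod 2) (Z c) (f := Fals (ZMod 2) Z a c)
          (fun x y hxy => by
            unfold Fals
            congr 1
            apply propext
            constructor
            · intro h v hv
              rw [← hxy v hv]
              exact h v hv
            · intro h v hv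
              rw [hxy v hv]
              exact h v hv)
        refine Submodule.span_mono ?_ h3
        rintro g ⟨M, hM, rfl⟩
        exact ⟨M, (card_le_card hM).trans (hw c), rfl⟩
      · have h2 : ∀ a : ZMod 2, a = 0 ∨ a = 1 := by decide
        have h3 : ∀ x, f x * val (L i) x * val (L j) x = f x * g i x * val (L j) x := by
          intro x
          have := congrFun (hfg i) x
          rw [Pi.mul_apply, Pi.mul_apply] at this
          rw [this]
        have h1 : f * val (L i) = (f * val (L j)) * g i +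
            (f * val (L k)) * (g i * (1 + g j)) := by
          funext x
          have ei := congrFun (hfg i) x
          have ej := congrFun (hfg j) x
          have ek := hjk x
          rw [sat_iff, sat_iff, sat_iff] at ek
          rw [Pi.mul_apply, Pi.mul_apply] at ei ej
          rw [Pi.add_apply, Pi.mul_apply, Pi.mul_apply, Pi.mul_apply, Pi.mul_apply, Pi.mul_apply,
            Pi.mul_apply, Pi.add_apply, Pi.one_apply]
          generalize val (L i) x = vi at *
          generalize val (L j) x = vj at *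
          generalize val (L k) x = vk at *
          generalize g i x = gi at *
          generalize g j x = gj at *
          generalize f x = fx at *
          revert vi vj vk gi gj fx
          decide
        rw [h1]
        refine Submodule.add_mem _ ?_ ?_
        · rw [hfg j]
          refine hJ2 (d + κ) κ _ _ (by omega) ?_ (Poly_mul _ hfd (hg j)) (hg i)
          rw [← hfg j]
          exact ih j hj
        · rw [hfg k]
          refine hJ2 (d + κ) (κ + κ) _ _ (by omega) ?_ (Poly_mul _ hfd (hg k))
            (Poly_mul _ (hg i) (Submodule.add_mem _ (one_mem_Poly κ) (hg j)))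
          rw [← hfg k]
          exact ih k hk
  obtain ⟨i, hi⟩ := hroot
  have hval : f * val (L i) = f := by
    funext x
    rw [Pi.mul_apply]
    have h1 := hi x
    rw [sat_iff] at h1
    have h2 : ∀ a : ZMod 2, a ≠ 0 → a = 1 := by decide
    rw [h2 _ h1, mul_one]
  have h1 := hmain i
  rw [hval] at h1
  refine hf0 (hJ3 f ?_ h1)
  refine Submodule.span_mono ?_ hfs
  rintro g ⟨M, hM, rfl⟩
  exact ⟨M, hgood M hM, rfl⟩

end Pool.Agent.MP_9cec2c_lc.SumProd
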