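import Pool.Agent.Lib.MP_9cec2c_lc.XPRand
import Pool.Agent.Lib.MP_9cec2c_lc.XPLines
import Pool.Agent.Lib.MP_9cec2c_lc.XPConst

/-!
Random CNFs and proofs with sums modulo 2 of products of linear forms.
-/

set_option autoImplicit false
set_option linter.unusedSectionVars false

namespace Pool.Agent.MP_9cec2c_lc.SumProd

open Finset
open Pool.Agent.MP_9cec2c_lc.LovSch (pr_sat nonempty_emb emb_pr)
open Pool.Agent.MP_9cec2c_lc.SubstRed
open Pool.Agent.MP_9cec2c_lc.FormulaLines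
open Pool.Agent.MP_9cec2c_lc.ParTrade (binSum binSum_le)
open Pool.Agent.MP_9cec2c_lc.ResPoly

variable {n m w : ℕ}

open scoped Classical in
/-- The pattern that falsifies the clause `i`. -/
noncomputable def fpat (f : ClauseList n m w) (i : Fin m) (v : Fin n) : Bool :=
  decide (∃ e, (f i).1 e = v ∧ (f i).2 e = false)

theorem holds_iff (f : ClauseList n m w) (i : Fin m) (x : Fin n → Bool) :
    Holds x (univ.image fun e => ((f i).1 e, (f i).2 e)) ↔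
      ∃ v ∈ cvars f i, x v ≠ fpat f i v := by
  have hpat : ∀ e, fpat f i ((f i).1 e) = !(f i).2 e := by
    intro e
    unfold fpat
    cases h2 : (f i).2 e
    · rw [decide_eq_true ⟨e, rfl, h2⟩]
      rfl
    · rw [decide_eq_false]
      · rfl
      · rintro ⟨e', he', he''⟩
        have := (f i).1.injective he'
        rw [this, h2] at he''
        exact absurd he'' (by simp)
  unfold Holds cvars
  constructor
  · rintro ⟨l, hl, hx⟩
    obtain ⟨e, -, rfl⟩ := mem_image.1 hl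
    refine ⟨(f i).1 e, mem_image_of_mem _ (mem_univ e), ?_⟩
    rw [hpat e]
    simp only at hx
    rw [hx]
    cases (f i).2 e <;> simp
  · rintro ⟨v, hv, hx⟩
    obtain ⟨e, -, rfl⟩ := mem_image.1 hv
    refine ⟨((f i).1 e, (f i).2 e), mem_image_of_mem _ (mem_univ e), ?_⟩
    rw [hpat e] at hx
    simp only
    revert hx
    cases x ((f i).1 e) <;> cases (f i).2 e <;> simp

/-- The expansion of the boundary. -/
theorem tight_of_fine {c θ r D : ℕ} (hw : 0 < w) {f : ClauseList n m w} (hf : Fine c θ r f)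
    (hD : 16 * D ≤ w * r) : Tight (cvars f) r D := by
  intro I hI hb
  have h1 := hf.1 I hI
  have h2 := two_un (cvars f) (fun i => (card_cvars f i).le) I
  have h5 : 5 * w * I.card = 5 * (w * I.card) := by ring
  have h6 : w * (4 * I.card) = 4 * (w * I.card) := by ring
  have h7 : w * (4 * I.card) ≤ w * r := by omega
  exact Nat.le_of_mul_le_mul_left h7 hw

/-- The lower bound for fine lists. -/
theorem det_bound {c A A2 Q M K θ r : ℕ} (hc : 1 ≤ c) (hA : 1 ≤ A)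
    (hA2 : A2 = 512 * A) (hQ : Q = 8192 * A2 ^ 2) (hM : M = 2 * (768 * c * Q) ^ 16)
    (hK : M * Q ≤ K) (hw : 3 ≤ w) (hn : K * w ≤ n) (hr : r = n / (A * w)) (hm : m ≤ n * c ^ w)
    (hθ : θ < w) (hθ1 : w ≤ 16 * θ) {f : ClauseList n m w} (hf : Fine c θ r f)
    {l : ℕ} {L : Fin l → Finset (Term (Fin n))} (href : IsRefutation (toCNF f) L) :
    2 ^ (n / K) ≤ {t | ∃ i, t ∈ L i}.ncard := by
  classical
  by_contra hcon
  rw [not_le] at hcon
  obtain ⟨D, hD⟩ : ∃ D, D = n / (32 * A) := ⟨_, rfl⟩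
  obtain ⟨κ, hκ⟩ : ∃ κ, κ = n / A2 := ⟨_, rfl⟩
  obtain ⟨d, hd⟩ : ∃ d, d = n / M := ⟨_, rfl⟩
  obtain ⟨b, hb⟩ : ∃ b, b = d / Q := ⟨_, rfl⟩
  obtain ⟨⟨hr1, h16, -⟩, ⟨hD1, hD2, hκn⟩, ⟨hdb, h2b, hbd, h2d⟩, hδ, hQd, hnM, hnκ⟩ :=
    const_order hc hA hA2 hQ hM hK hw hn hr hD hκ hd hb
  have hA2sq : A2 ≤ A2 ^ 2 := Nat.le_self_pow (by norm_num) _
  have hQ1 : 1 ≤ Q := by omega
  have hP1 : 1 ≤ (768 * c * Q) ^ 16 :=
    Nat.one_le_pow _ _ (Nat.mul_pos (by omega) (by omega))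
  have hM1 : 1 ≤ M := by
    rw [hM]
    exact Nat.mul_pos (by norm_num) hP1
  clear hP1
  clear hM
  have hn0 : 0 < n := by omega
  obtain ⟨TT, hTT, hcount⟩ := count_free (Z := cvars f) (θ := θ) (r := r) (c := c) (Q := Q)
    (d := d) (b := b) (card_cvars f) hw hθ hθ1 hf.1 hm hc hQ1 hf.2 hn0 hdb h2b hbd hδ
  have hT := terms_bound (Z := cvars f) (a := fpat f) (r := r) (D := D) (d := d) (κ := κ)
    (w := w) (tight_of_fine (by omega) hf h16) hr1 (fun i => (card_cvars f i).le) hD1 hD2 hκn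
    (fun T hT => (hTT T hT).1.le) (fun T hT => (hTT T hT).2) L href.1 (fun i => by
      rcases href.2 i with ⟨C, hC, hi⟩ | h
      · left
        obtain ⟨j, -, rfl⟩ := mem_image.1 hC
        exact ⟨j, fun x hx => hi x ((holds_iff f j x).2 hx)⟩
      · exact Or.inr h)
  obtain ⟨S, hS⟩ : ∃ S, S = {t | ∃ i, t ∈ L i}.ncard := ⟨_, rfl⟩
  rw [← hS] at hcon hT
  have hbs := binSum_le h2d
  have hlt := const_ineq (n := n) (c := c) (by omega) hQ hK hM1 hκn hn0 hQd hb hbd h2b hnM hnκ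
    (by omega) hcon.le
  have h1 : (2 * ((d + b).choose d) * TT.card : ℝ) ≤
      ((2 * ((d + b).choose d) * (S * ((d + 1) * (n - κ).choose d)) : ℕ) : ℝ) := by
    have h2 : TT.card ≤ S * ((d + 1) * (n - κ).choose d) :=
      hT.trans (Nat.mul_le_mul_left _ hbs)
    have h3 : (TT.card : ℝ) ≤ ((S * ((d + 1) * (n - κ).choose d) : ℕ) : ℝ) := by
      exact_mod_cast h2
    push_cast at h3 ⊢
    gcongr
  have h4 : ((2 * ((d + b).choose d) * (S * ((d + 1) * (n - κ).choose d)) : ℕ) : ℝ) <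
      (n.choose d : ℝ) := by exact_mod_cast hlt
  linarith

/-- The probability that a random CNF is not hard. -/
theorem pr_not_needs {c A A2 Q M K B : ℕ} (hc : 1 ≤ c) (hA : 1 ≤ A)
    (hA2 : A2 = 512 * A) (hQ : Q = 8192 * A2 ^ 2) (hM : M = 2 * (768 * c * Q) ^ 16)
    (hK : M * Q ≤ K) (hw : 3 ≤ w) (hn : K * w ≤ n) (hwn : w ≤ n) (hn16 : 16 ≤ n)
    (hm1 : n * 2 ^ w ≤ m) (hm2 : m ≤ n * c ^ w)
    (hfine : ∀ θ r : ℕ, θ + 2 ≤ w → A * (w * r) ≤ n →
      (n : ℝ) * pr (fun f : ClauseList n m w => ¬ Fine c θ r f) ≤ B) :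
    (n : ℝ) * pr (fun f : ClauseList n m w => ¬ Needs (2 ^ (n / K)) (toCNF f)) ≤ B + 1 := by
  classical
  have hne := nonempty_emb hwn
  have hn' : (0 : ℝ) < n := by exact_mod_cast (by omega : 0 < n)
  obtain ⟨r, hr⟩ : ∃ r, r = n / (A * w) := ⟨_, rfl⟩
  obtain ⟨θ, hθ⟩ : ∃ θ, θ = w / 16 + 1 := ⟨_, rfl⟩
  have hmain : pr (fun f : ClauseList n m w => ¬ Needs (2 ^ (n / K)) (toCNF f)) ≤
      (3 / 4) ^ n + pr (fun f : ClauseList n m w => ¬ Fine c θ r f) := by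
    refine le_trans (pr_mono (q := fun f : ClauseList n m w =>
      (∃ x : Fin n → Bool, ∀ i, ¬ ∀ e, x ((f i).1 e) ≠ (f i).2 e) ∨ ¬ Fine c θ r f)
      fun f hf => ?_) ((pr_or _ _).trans (add_le_add (pr_sat hwn hm1) le_rfl))
    by_contra hcon
    rw [not_or] at hcon
    obtain ⟨h1, h2⟩ := hcon
    push Not at h1 h2
    refine hf ⟨fun x => ?_, fun l L href => ?_⟩
    · obtain ⟨i, hi⟩ := h1 x
      refine ⟨_, mem_image_of_mem _ (mem_univ i), ?_⟩
      rintro ⟨l, hl, hl'⟩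
      obtain ⟨e, -, rfl⟩ := mem_image.1 hl
      exact hi e hl'
    · exact det_bound hc hA hA2 hQ hM hK hw hn hr hm2 (by omega) (by omega) h2 href
  have hfin := hfine θ r (by omega) (by
    rw [← mul_assoc, hr]
    exact Nat.mul_div_le _ _)
  have hsat : (n : ℝ) * (3 / 4) ^ n ≤ 1 / 2 := by
    have key : ∀ k : ℕ, ((k + 16 : ℕ) : ℝ) * (3 / 4) ^ (k + 16) ≤ 1 / 2 := by
      intro k
      induction k with
      | zero => norm_num
      | succ k ih =>
        have h1 : (0 : ℝ) < (3 / 4) ^ (k + 16) := by positivity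
        have h2 : (3 / 4 : ℝ) ^ (k + 1 + 16) = (3 / 4) ^ (k + 16) * (3 / 4) := by
          rw [← pow_succ]
        rw [h2]
        push_cast at ih ⊢
        nlinarith
    obtain ⟨k, hk⟩ : ∃ k, n = k + 16 := ⟨n - 16, by omega⟩
    rw [hk]
    exact key k
  have h1 := mul_le_mul_of_nonneg_left hmain hn'.le
  rw [mul_add] at h1
  linarith

/-- The main result. -/
theorem parity_sums_main (c : ℕ) : ∃ K : ℕ, 0 < K ∧ ∀ n w m : ℕ, 3 ≤ w → K * w ≤ n →
    n * 2 ^ w ≤ m → m ≤ n * c ^ w →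
    n * {f : ClauseList n m w | ¬ Needs (2 ^ (n / K)) (toCNF f)}.ncard ≤
      K * Fintype.card (ClauseList n m w) := by
  classical
  obtain ⟨A, hA⟩ : ∃ A, A = (96 * (c + 1)) ^ 192 := ⟨_, rfl⟩
  obtain ⟨B, hB⟩ : ∃ B : ℕ, B = 2 ^ 7 * (14 * (12 * (c + 1)) ^ 21) + 1 := ⟨_, rfl⟩
  have hA1 : 1 ≤ A := by
    rw [hA]
    exact Nat.one_le_pow _ _ (by omega)
  have hfine : ∀ {n m w : ℕ}, w ≤ n → 3 ≤ w → m ≤ n * (c + 1) ^ w → ∀ θ r : ℕ, θ + 2 ≤ w →
      A * (w * r) ≤ n →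
      (n : ℝ) * pr (fun f : ClauseList n m w => ¬ Fine (c + 1) θ r f) ≤ B := by
    intro n m w hw hw3 hm θ r hθ hr
    rw [hA] at hr
    have h := pr_not_fine (c := c + 1) hw hw3 hθ (by omega) hm hr
    rw [hB]
    have h7 : (2 : ℝ) ^ 7 = 128 := by norm_num
    push_cast at h ⊢
    rw [h7] at h
    exact h
  clear hA hB
  obtain ⟨A2, hA2⟩ : ∃ A2, A2 = 512 * A := ⟨_, rfl⟩
  obtain ⟨Q, hQ⟩ : ∃ Q, Q = 8192 * A2 ^ 2 := ⟨_, rfl⟩
  obtain ⟨M, hM⟩ : ∃ M, M = 2 * (768 * (c + 1) * Q) ^ 16 := ⟨_, rfl⟩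
  obtain ⟨K, hK⟩ : ∃ K, K = M * Q + B + 16 := ⟨_, rfl⟩
  refine ⟨K, by omega, fun n w m hw hn hm1 hm2 => ?_⟩
  have hm2' : m ≤ n * (c + 1) ^ w :=
    hm2.trans (Nat.mul_le_mul_left _ (Nat.pow_le_pow_left (by omega) _))
  have hwn : w ≤ n := le_trans (Nat.le_mul_of_pos_left _ (by omega)) hn
  have hKn : K ≤ n := le_trans (Nat.le_mul_of_pos_right _ (by omega)) hn
  have h := pr_not_needs (c := c + 1) (B := B) (K := K) (by omega) hA1 hA2 hQ hM (by omega) hw hn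
    hwn (by omega) hm1 hm2' (hfine hwn hw hm2')
  have hne := nonempty_emb hwn
  have h1 : {f : ClauseList n m w | ¬ Needs (2 ^ (n / K)) (toCNF f)}.ncard =
      (univ.filter fun f : ClauseList n m w => ¬ Needs (2 ^ (n / K)) (toCNF f)).card := by
    rw [Set.ncard_eq_toFinset_card']
    congr 1
    ext f
    simp
  rw [h1]
  have hpos : (0 : ℝ) < Fintype.card (ClauseList n m w) := by exact_mod_cast Fintype.card_pos
  have hBK : (B : ℝ) + 1 ≤ K := by exact_mod_cast (by omega : B + 1 ≤ K)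
  have h2 := h.trans hBK
  rw [pr_eq, ← mul_div_assoc, div_le_iff₀ hpos] at h2
  exact_mod_cast h2


end Pool.Agent.MP_9cec2c_lc.SumProd
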