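import Pool.Agent.Lib.MP_9cec2c_lc.TLStep

/-!
Chains of triangles, and the lower bound for the length of a chain that contains everything.
-/

set_option autoImplicit false
set_option linter.unusedSectionVars false
set_option linter.unusedVariables false

namespace Pool.Agent.MP_9cec2c_lc.ThresholdLines

open Finset

section TriDef

variable {X Y : Type}

/-- A triangle. -/
def IsTri (T : Set (X × Y)) : Prop :=
  ∃ (a : X → EReal) (b : Y → EReal), T = {p | b p.2 < a p.1}

end TriDef

variable {P I C : Type} [Fintype P] [DecidableEq P] [Fintype I] [DecidableEq I]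
  [Fintype C] [DecidableEq C]

/-- A set of pairs that agree on two nodes. -/
def IsLeaf (T : Set ((P → I) × (P × I → C))) : Prop :=
  ∃ w₁ w₂ : P × I, w₁ ≠ w₂ ∧ ∀ p ∈ T, p.1 w₁.1 = w₁.2 ∧ p.1 w₂.1 = w₂.2 ∧ p.2 w₁ = p.2 w₂

/-- The set `T` is covered by at most `ar` members of `l`. -/
def Cov {α : Type} (ar : ℕ) (l : List (Set α)) (T : Set α) : Prop :=
  ∃ k ≤ ar, ∃ f : Fin k → Set α, (∀ i, f i ∈ l) ∧ ∀ p ∈ T, ∃ i, p ∈ f i

/-- A chain of triangles, the newest one first. -/
inductive Chain (ar : ℕ) : List (Set ((P → I) × (P × I → C))) → Prop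
  | nil : Chain ar []
  | cons (T : Set ((P → I) × (P × I → C))) (l : List (Set ((P → I) × (P × I → C)))) :
      Chain ar l → IsTri T → (IsLeaf T ∨ Cov ar l T) → Chain ar (T :: l)

/-- The terms for a leaf. -/
theorem leaf_approx {L : ℕ} (hL : 1 ≤ L) {T : Set ((P → I) × (P × I → C))} (hT : IsLeaf T)
    (a : (P → I) → EReal) (b : (P × I → C) → EReal) (hab : T = {p | b p.2 < a p.1}) :
    ∃ (D : Finset (Finset (P × I))) (d : Finset (P × I) → EReal),
      (∀ t ∈ D, t.card ≤ 2 * L) ∧ Pos D d a ∅ ∧ Neg D d b ∅ := by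
  classical
  obtain ⟨w₁, w₂, hne, hT⟩ := hT
  have hmem : ∀ x y, b y < a x → Sub {w₁, w₂} x ∧ y w₁ = y w₂ := by
    intro x y hxy
    have hp : ((x, y) : (P → I) × (P × I → C)) ∈ T := by rw [hab]; exact hxy
    obtain ⟨h1, h2, h3⟩ := hT _ hp
    refine ⟨?_, h3⟩
    intro w hw
    rw [mem_insert, mem_singleton] at hw
    rcases hw with rfl | rfl
    · exact h1
    · exact h2
  refine ⟨{∅, {w₁, w₂}}, fun t => if t = ∅ then
    (univ.filter fun x : P → I => ¬ Sub {w₁, w₂} x).sup a else univ.sup a, ?_, ?_, ?_⟩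
  · intro t ht
    rw [mem_insert, mem_singleton] at ht
    rcases ht with rfl | rfl
    · simp
    · exact (card_insert_le _ _).trans (by rw [card_singleton]; omega)
  · intro x _
    by_cases hx : Sub {w₁, w₂} x
    · refine ⟨{w₁, w₂}, by simp, hx, ?_⟩
      beta_reduce
      rw [if_neg (insert_ne_empty _ _)]
      exact le_sup (f := a) (mem_univ x)
    · refine ⟨∅, by simp, fun w hw => absurd hw (notMem_empty _), ?_⟩
      beta_reduce
      rw [if_pos rfl]
      exact le_sup (f := a) (mem_filter.2 ⟨mem_univ x, hx⟩)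
  · intro y _ t ht hinj
    rw [mem_insert, mem_singleton] at ht
    rcases ht with rfl | rfl
    · beta_reduce
      rw [if_pos rfl, Finset.sup_le_iff]
      intro x hx
      rw [mem_filter] at hx
      by_contra hcon
      rw [not_le] at hcon
      exact hx.2 (hmem x y hcon).1
    · beta_reduce
      rw [if_neg (insert_ne_empty _ _), Finset.sup_le_iff]
      intro x _
      by_contra hcon
      rw [not_le] at hcon
      exact hne (hinj (by simp) (by simp) (hmem x y hcon).2)

theorem chain_approx {ar L : ℕ} (hL : 1 ≤ L) (hI : 1 ≤ Fintype.card I)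
    {l : List (Set ((P → I) × (P × I → C)))} (hl : Chain ar l) :
    ∃ (Ex : Finset (P → I)) (Ey : Finset (P × I → C)),
      Ex.card * Fintype.card I ^ L ≤ l.length * (((2 * L) ^ 2) ^ L * Fintype.card (P → I)) ∧
      Ey.card * Fintype.card C ^ L ≤
        l.length * ((ar * (2 * L) ^ 2) ^ L * Fintype.card (P × I → C)) ∧
      ∀ T ∈ l, ∃ (a : (P → I) → EReal) (b : (P × I → C) → EReal)
        (D : Finset (Finset (P × I))) (d : Finset (P × I) → EReal),
          T = {p | b p.2 < a p.1} ∧ (∀ t ∈ D, t.card ≤ 2 * L) ∧ Pos D d a Ex ∧ Neg D d b Ey := by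
  classical
  have mono : ∀ (D : Finset (Finset (P × I))) (d : Finset (P × I) → EReal)
      (a : (P → I) → EReal) (b : (P × I → C) → EReal) (Ex Ex' : Finset (P → I))
      (Ey Ey' : Finset (P × I → C)), Ex ⊆ Ex' → Ey ⊆ Ey' → Pos D d a Ex → Neg D d b Ey →
      Pos D d a Ex' ∧ Neg D d b Ey' := by
    intro D d a b Ex Ex' Ey Ey' h1 h2 h3 h4
    exact ⟨fun x hx => h3 x fun h => hx (h1 h), fun y hy => h4 y fun h => hy (h2 h)⟩
  induction hl with
  | nil => exact ⟨∅, ∅, by simp, by simp, fun T hT => absurd hT List.not_mem_nil⟩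
  | cons T l hl hT hc ih =>
    obtain ⟨Ex, Ey, hEx, hEy, hall⟩ := ih
    obtain ⟨a₀, b₀, hab₀⟩ := hT
    rcases hc with hc | hc
    · refine ⟨Ex, Ey, ?_, ?_, ?_⟩
      · refine hEx.trans (Nat.mul_le_mul_right _ ?_)
        rw [List.length_cons]; omega
      · refine hEy.trans (Nat.mul_le_mul_right _ ?_)
        rw [List.length_cons]; omega
      · intro T' hT'
        rw [List.mem_cons] at hT'
        rcases hT' with rfl | hT'
        · obtain ⟨D, d, h1, h2, h3⟩ := leaf_approx hL hc a₀ b₀ hab₀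
          obtain ⟨h4, h5⟩ := mono D d a₀ b₀ ∅ Ex ∅ Ey (empty_subset _) (empty_subset _) h2 h3
          exact ⟨a₀, b₀, D, d, hab₀, h1, h4, h5⟩
        · exact hall T' hT'
    · obtain ⟨k, hk, f, hf, hcov⟩ := hc
      -- the children
      choose ai bi D d h1 h2 h3 h4 using fun i => hall (f i) (hf i)
      obtain ⟨D', d', Ex', Ey', e1, e2, e3, e4, e5⟩ := approx_step D d L ar
        (by rw [Fintype.card_fin]; exact hk) hI a₀ b₀ ai bi h2 Ex Ey h3 h4 (by
          intro x y hxy
          have hp : ((x, y) : (P → I) × (P × I → C)) ∈ T := by rw [hab₀]; exact hxy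
          obtain ⟨i, hi⟩ := hcov _ hp
          rw [h1 i] at hi
          exact ⟨i, hi⟩)
      refine ⟨Ex ∪ Ex', Ey ∪ Ey', ?_, ?_, ?_⟩
      · rw [List.length_cons, add_mul, one_mul]
        refine le_trans (Nat.mul_le_mul_right _ (card_union_le _ _)) ?_
        rw [add_mul]
        exact Nat.add_le_add hEx e4
      · rw [List.length_cons, add_mul, one_mul]
        refine le_trans (Nat.mul_le_mul_right _ (card_union_le _ _)) ?_
        rw [add_mul]
        exact Nat.add_le_add hEy e5
      · intro T' hT'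
        rw [List.mem_cons] at hT'
        rcases hT' with rfl | hT'
        · exact ⟨a₀, b₀, D', d', hab₀, e1, e2 _ subset_union_left subset_union_right,
            e3 _ subset_union_left subset_union_right⟩
        · obtain ⟨a, b, D₁, d₁, g1, g2, g3, g4⟩ := hall T' hT'
          obtain ⟨g5, g6⟩ := mono D₁ d₁ a b Ex (Ex ∪ Ex') Ey (Ey ∪ Ey') subset_union_left
            subset_union_left g3 g4
          exact ⟨a, b, D₁, d₁, g1, g2, g5, g6⟩

open scoped Classical in
theorem eq_count {W : Type} [Fintype W] [DecidableEq W] {u v : W} (huv : u ≠ v) :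
    (univ.filter fun y : W → C => y u = y v).card * Fintype.card C ≤
      Fintype.card (W → C) := by
  have h1 := mrg_count (C := C) (π := (id : W → W)) (fun _ => rfl) (u := u) (v := v) huv
  have h2 : (univ.filter fun y : W → C => y u = y v) ⊆
      univ.filter fun y : W → C => Resp (mrg id u v) y := by
    intro y hy
    rw [mem_filter] at hy ⊢
    refine ⟨mem_univ _, mrg_resp (fun _ => rfl) (fun _ => rfl) hy.2⟩
  calc _ ≤ _ := Nat.mul_le_mul_right _ (card_le_card h2)
    _ ≤ _ := h1
    _ ≤ _ := by rw [← card_univ (α := W → C)]; exact card_filter_le _ _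

open scoped Classical in
theorem noninj_count {W : Type} [Fintype W] [DecidableEq W] (t : Finset W) (s : ℕ)
    (ht : t.card ≤ s) :
    (univ.filter fun y : W → C => ¬ Set.InjOn y (t : Set W)).card * Fintype.card C ≤
      s ^ 2 * Fintype.card (W → C) := by
  have h1 : (univ.filter fun y : W → C => ¬ Set.InjOn y (t : Set W)) ⊆
      ((t ×ˢ t).filter fun p => p.1 ≠ p.2).biUnion
        fun p => univ.filter fun y : W → C => y p.1 = y p.2 := by
    intro y hy
    rw [mem_filter] at hy
    have := hy.2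
    rw [Set.InjOn] at this
    push Not at this
    obtain ⟨u, hu, v, hv, he, hne⟩ := this
    rw [mem_biUnion]
    exact ⟨(u, v), mem_filter.2 ⟨mem_product.2 ⟨hu, hv⟩, hne⟩, mem_filter.2 ⟨mem_univ _, he⟩⟩
  calc _ ≤ (((t ×ˢ t).filter fun p => p.1 ≠ p.2).biUnion
        fun p => univ.filter fun y : W → C => y p.1 = y p.2).card * Fintype.card C :=
        Nat.mul_le_mul_right _ (card_le_card h1)
    _ ≤ (∑ p ∈ (t ×ˢ t).filter fun p => p.1 ≠ p.2,
          (univ.filter fun y : W → C => y p.1 = y p.2).card) * Fintype.card C :=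
        Nat.mul_le_mul_right _ card_biUnion_le
    _ = ∑ p ∈ (t ×ˢ t).filter fun p => p.1 ≠ p.2,
          (univ.filter fun y : W → C => y p.1 = y p.2).card * Fintype.card C := sum_mul _ _ _
    _ ≤ ∑ _p ∈ (t ×ˢ t).filter fun p => p.1 ≠ p.2, Fintype.card (W → C) :=
        sum_le_sum fun p hp => eq_count (mem_filter.1 hp).2
    _ = ((t ×ˢ t).filter fun p => p.1 ≠ p.2).card * Fintype.card (W → C) := by
        rw [sum_const, smul_eq_mul]
    _ ≤ s ^ 2 * Fintype.card (W → C) := by
        refine Nat.mul_le_mul_right _ ((card_filter_le _ _).trans ?_)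
        rw [card_product, sq]
        exact Nat.mul_le_mul ht ht

/-- The lower bound for chains. -/
theorem chain_bound {ar L : ℕ} (hL : 1 ≤ L) (har : 1 ≤ ar)
    (hI : 8 * L ^ 2 ≤ Fintype.card I) (hC : 8 * ar * L ^ 2 ≤ Fintype.card C)
    {l : List (Set ((P → I) × (P × I → C)))} (hl : Chain ar l) (huniv : Set.univ ∈ l) :
    2 ^ L ≤ 2 * l.length := by
  classical
  have hL2 : 1 ≤ L ^ 2 := Nat.one_le_pow _ _ hL
  have hI1 : 1 ≤ Fintype.card I := le_trans (by omega) hI
  have hC1 : 1 ≤ Fintype.card C := by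
    refine le_trans ?_ hC
    have : 1 * 1 ≤ ar * L ^ 2 := Nat.mul_le_mul har hL2
    nlinarith
  have : Nonempty I := Fintype.card_pos_iff.1 hI1
  have : Nonempty C := Fintype.card_pos_iff.1 hC1
  obtain ⟨Ex, Ey, hEx, hEy, hall⟩ := chain_approx hL hI1 hl
  obtain ⟨a, b, D, d, hab, hD, hP, hN⟩ := hall _ huniv
  by_cases hx : ∃ x, x ∉ Ex
  · obtain ⟨x, hx⟩ := hx
    obtain ⟨t, ht, hsub, hle⟩ := hP x hx
    have hcover : (univ : Finset (P × I → C)) ⊆
        Ey ∪ univ.filter fun y : P × I → C => ¬ Set.InjOn y (t : Set (P × I)) := by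
      intro y _
      rw [mem_union, mem_filter]
      by_contra hcon
      push Not at hcon
      have h1 := hN y hcon.1 t ht (hcon.2 (mem_univ _))
      have h2 : ((x, y) : (P → I) × (P × I → C)) ∈ (Set.univ : Set _) := Set.mem_univ _
      rw [hab] at h2
      exact absurd (h2.trans_le (hle.trans h1)) (lt_irrefl _)
    have h3 := (card_le_card hcover).trans (card_union_le _ _)
    rw [card_univ] at h3
    have h4 := noninj_count (C := C) t (2 * L) (hD t ht)
    set Y := Fintype.card (P × I → C) with hY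
    have hYpos : 0 < Y := Fintype.card_pos
    set n := (univ.filter fun y : P × I → C => ¬ Set.InjOn y (t : Set (P × I))).card with hn
    -- at most half of the colourings are not injective on `t`
    have h5 : 2 * n ≤ Y := by
      have : n * (8 * L ^ 2) ≤ (2 * L) ^ 2 * Y := by
        refine le_trans (Nat.mul_le_mul_left _ ?_) h4
        refine le_trans ?_ hC
        have : 8 * L ^ 2 * 1 ≤ 8 * L ^ 2 * ar := Nat.mul_le_mul_left _ har
        nlinarith
      have h6 : (4 * L ^ 2) * (2 * n) ≤ (4 * L ^ 2) * Y := by nlinarith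
      exact Nat.le_of_mul_le_mul_left h6 (by omega)
    have h6 : Y ≤ 2 * Ey.card := by omega
    have h7 : 0 < (ar * (2 * L) ^ 2) ^ L * Y := by positivity
    have h8 : 2 ^ L * ((ar * (2 * L) ^ 2) ^ L * Y) ≤ 2 * l.length * ((ar * (2 * L) ^ 2) ^ L * Y) := by
      calc 2 ^ L * ((ar * (2 * L) ^ 2) ^ L * Y) = (8 * ar * L ^ 2) ^ L * Y := by
            rw [← mul_assoc, ← mul_pow]
            congr 2
            ring
        _ ≤ Fintype.card C ^ L * Y := Nat.mul_le_mul_right _ (Nat.pow_le_pow_left hC _)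
        _ ≤ Fintype.card C ^ L * (2 * Ey.card) := Nat.mul_le_mul_left _ h6
        _ = 2 * (Ey.card * Fintype.card C ^ L) := by ring
        _ ≤ 2 * (l.length * ((ar * (2 * L) ^ 2) ^ L * Y)) := Nat.mul_le_mul_left _ hEy
        _ = _ := by ring
    exact Nat.le_of_mul_le_mul_right h8 h7
  · push Not at hx
    have h1 : Ex.card = Fintype.card (P → I) := by
      rw [← card_univ, (eq_univ_iff_forall.2 hx : Ex = univ)]
    rw [h1] at hEx
    set X := Fintype.card (P → I) with hX
    have hXpos : 0 < X := Fintype.card_pos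
    have h7 : 0 < ((2 * L) ^ 2) ^ L * X := by positivity
    have h8 : 2 ^ L * (((2 * L) ^ 2) ^ L * X) ≤ l.length * (((2 * L) ^ 2) ^ L * X) := by
      calc 2 ^ L * (((2 * L) ^ 2) ^ L * X) = (8 * L ^ 2) ^ L * X := by
            rw [← mul_assoc, ← mul_pow]
            congr 2
            ring
        _ ≤ Fintype.card I ^ L * X := Nat.mul_le_mul_right _ (Nat.pow_le_pow_left hI _)
        _ = X * Fintype.card I ^ L := by ring
        _ ≤ _ := hEx
    have := Nat.le_of_mul_le_mul_right h8 h7
    omega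

end Pool.Agent.MP_9cec2c_lc.ThresholdLines
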