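import Mathlib

/-!
Iterated branching, and two counting lemmas.
-/

set_option autoImplicit false

set_option linter.unusedSectionVars false
set_option linter.unusedVariables false

namespace Pool.Agent.MP_9cec2c_lc.ThresholdLines

open Finset

section Levels

variable {S X : Type} [DecidableEq S]

/-- The states that are reached from `s0` in exactly `j` steps. -/
def lev (N : S → Finset S) (s0 : S) : ℕ → Finset S
  | 0 => {s0}
  | j + 1 => (lev N s0 j).biUnion N

theorem lev_inv (N : S → Finset S) (s0 : S) (Inv : ℕ → S → Prop) (h0 : Inv 0 s0)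
    (hs : ∀ j s, Inv j s → ∀ s' ∈ N s, Inv (j + 1) s') : ∀ j, ∀ s ∈ lev N s0 j, Inv j s := by
  intro j
  induction j with
  | zero =>
    intro s hs'
    rw [lev, mem_singleton] at hs'
    rw [hs']
    exact h0
  | succ j ih =>
    intro s hs'
    rw [lev, mem_biUnion] at hs'
    obtain ⟨a, ha, hsa⟩ := hs'
    exact hs j a (ih a ha) s hsa

theorem lev_card (N : S → Finset S) (s0 : S) (B r : ℕ)
    (hB : ∀ j < r, ∀ s ∈ lev N s0 j, (N s).card ≤ B) : ∀ j ≤ r, (lev N s0 j).card ≤ B ^ j := by
  intro j
  induction j with
  | zero => intro _; simp [lev]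
  | succ j ih =>
    intro hj
    rw [lev]
    have h1 := card_biUnion_le_card_mul (lev N s0 j) N B (hB j (by omega))
    calc _ ≤ (lev N s0 j).card * B := h1
      _ ≤ B ^ j * B := Nat.mul_le_mul_right _ (ih (by omega))
      _ = B ^ (j + 1) := (pow_succ _ _).symm

theorem lev_alt (N : S → Finset S) (s0 : S) (cons stop : S → Prop) (h0 : cons s0) (r : ℕ)
    (hstep : ∀ j < r, ∀ s ∈ lev N s0 j, cons s → ¬ stop s → ∃ s' ∈ N s, cons s') :
    (∃ j < r, ∃ s ∈ lev N s0 j, cons s ∧ stop s) ∨ ∃ s ∈ lev N s0 r, cons s := by
  induction r with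
  | zero => exact Or.inr ⟨s0, by simp [lev], h0⟩
  | succ r ih =>
    rcases ih (fun j hj => hstep j (by omega)) with ⟨j, hj, h⟩ | ⟨s, hs, hc⟩
    · exact Or.inl ⟨j, by omega, h⟩
    · by_cases hst : stop s
      · exact Or.inl ⟨r, by omega, s, hs, hc, hst⟩
      · obtain ⟨s', hs', hc'⟩ := hstep r (by omega) s hs hc hst
        exact Or.inr ⟨s', mem_biUnion.2 ⟨s, hs, hs'⟩, hc'⟩

open scoped Classical in
theorem lev_measure [Fintype X] (N : S → Finset S) (s0 : S) (cons : S → X → Prop) (B q r : ℕ)
    (hB : ∀ j < r, ∀ s ∈ lev N s0 j, (N s).card ≤ B)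
    (hq : ∀ s ∈ lev N s0 r, (univ.filter fun x : X => cons s x).card * q ≤ Fintype.card X) :
    (univ.filter fun x : X => ∃ s ∈ lev N s0 r, cons s x).card * q ≤
      B ^ r * Fintype.card X := by
  have h1 : (univ.filter fun x : X => ∃ s ∈ lev N s0 r, cons s x) ⊆
      (lev N s0 r).biUnion fun s => univ.filter fun x : X => cons s x := by
    intro x hx
    rw [mem_filter] at hx
    obtain ⟨s, hs, hc⟩ := hx.2
    exact mem_biUnion.2 ⟨s, hs, mem_filter.2 ⟨mem_univ _, hc⟩⟩
  calc _ ≤ ((lev N s0 r).biUnion fun s => univ.filter fun x : X => cons s x).card * q :=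
        Nat.mul_le_mul_right _ (card_le_card h1)
    _ ≤ (∑ s ∈ lev N s0 r, (univ.filter fun x : X => cons s x).card) * q :=
        Nat.mul_le_mul_right _ card_biUnion_le
    _ = ∑ s ∈ lev N s0 r, (univ.filter fun x : X => cons s x).card * q := sum_mul _ _ _
    _ ≤ ∑ _s ∈ lev N s0 r, Fintype.card X := sum_le_sum hq
    _ = (lev N s0 r).card * Fintype.card X := by rw [sum_const, smul_eq_mul]
    _ ≤ B ^ r * Fintype.card X := Nat.mul_le_mul_right _ (lev_card N s0 B r hB r le_rfl)

end Levels

section Counts

variable {P I C : Type} [Fintype P] [DecidableEq P] [Fintype I] [DecidableEq I]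
  [Fintype C] [DecidableEq C]

/-- The graph of `x` contains the set `t`. -/
def Sub (t : Finset (P × I)) (x : P → I) : Prop := ∀ w ∈ t, x w.1 = w.2

open scoped Classical in
theorem sub_count (t : Finset (P × I)) :
    (univ.filter fun x : P → I => Sub t x).card * Fintype.card I ^ t.card ≤
      Fintype.card (P → I) := by
  by_cases hex : ∃ x0 : P → I, Sub t x0
  · obtain ⟨x0, hx0⟩ := hex
    have hinj : Set.InjOn Prod.fst (t : Set (P × I)) := by
      rintro ⟨p, i⟩ h1 ⟨p', i'⟩ h2 h
      have e1 := hx0 _ h1
      have e2 := hx0 _ h2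
      simp only at h e1 e2
      subst h
      rw [← e1, ← e2]
    have h1 : (univ.filter fun x : P → I => Sub t x) ⊆
        Fintype.piFinset fun p => if p ∈ t.image Prod.fst then {x0 p} else univ := by
      intro x hx
      rw [mem_filter] at hx
      rw [Fintype.mem_piFinset]
      intro p
      split_ifs with hp
      · obtain ⟨w, hw, rfl⟩ := mem_image.1 hp
        rw [mem_singleton, hx.2 w hw, hx0 w hw]
      · exact mem_univ _
    have h2 : (Fintype.piFinset fun p => if p ∈ t.image Prod.fst then {x0 p} else
        (univ : Finset I)).card * Fintype.card I ^ t.card = Fintype.card (P → I) := by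
      rw [Fintype.card_piFinset]
      have h3 : ∀ p, (if p ∈ t.image Prod.fst then {x0 p} else (univ : Finset I)).card =
          if p ∈ t.image Prod.fst then 1 else Fintype.card I := by
        intro p
        split_ifs <;> simp
      simp only [h3]
      rw [prod_ite, prod_const_one, one_mul, prod_const, Fintype.card_fun, ← pow_add]
      congr 1
      rw [← card_image_of_injOn hinj]
      have h4 : (univ.filter fun x => x ∉ t.image Prod.fst) = univ \ t.image Prod.fst := by
        ext p; simp
      rw [h4, card_sdiff_add_card_eq_card (subset_univ _), card_univ]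
    calc _ ≤ _ := Nat.mul_le_mul_right _ (card_le_card h1)
      _ = _ := h2
  · have h1 : (univ.filter fun x : P → I => Sub t x) = ∅ := by
      rw [filter_eq_empty_iff]
      intro x _ hx
      exact hex ⟨x, hx⟩
    rw [h1, card_empty, zero_mul]
    exact Nat.zero_le _

variable {W : Type} [Fintype W] [DecidableEq W]

/-- The labelling `y` is constant on the classes of `π`. -/
def Resp (π : W → W) (y : W → C) : Prop := ∀ w, y (π w) = y w

/-- Merge the classes of `u` and `v`. -/
def mrg (π : W → W) (u v : W) : W → W := fun w => if π w = π v then π u else π w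

theorem mrg_idem {π : W → W} (hπ : ∀ w, π (π w) = π w) {u v : W} (huv : π u ≠ π v) (w : W) :
    mrg π u v (mrg π u v w) = mrg π u v w := by
  by_cases h : π w = π v
  · have e : mrg π u v w = π u := if_pos h
    rw [e]
    unfold mrg
    rw [hπ, if_neg huv]
  · have e : mrg π u v w = π w := if_neg h
    rw [e]
    unfold mrg
    rw [hπ, if_neg h]

theorem mrg_resp {π : W → W} (hπ : ∀ w, π (π w) = π w) {u v : W} {y : W → C}
    (hy : Resp π y) (huv : y u = y v) : Resp (mrg π u v) y := by
  intro w
  unfold mrg
  split_ifs with h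
  · rw [hy u, huv, ← hy v, ← h, hy w]
  · exact hy w

open scoped Classical in
theorem mrg_count {π : W → W} (hπ : ∀ w, π (π w) = π w) {u v : W} (huv : π u ≠ π v) :
    (univ.filter fun y : W → C => Resp (mrg π u v) y).card * Fintype.card C ≤
      (univ.filter fun y : W → C => Resp π y).card := by
  rw [← card_univ (α := C), ← card_product]
  apply card_le_card_of_injOn (fun q : (W → C) × C => fun w => if π w = π v then q.2 else q.1 w)
  · rintro ⟨y, c⟩ hq
    rw [mem_coe, mem_product, mem_filter] at hq
    rw [mem_coe, mem_filter]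
    refine ⟨mem_univ _, fun w => ?_⟩
    have h1 : Resp (mrg π u v) y := hq.1.2
    by_cases h : π w = π v
    · simp only [hπ, h, if_true]
    · simp only [hπ, h, if_false]
      have := h1 w
      rwa [mrg, if_neg h] at this
  · rintro ⟨y, c⟩ hq ⟨y', c'⟩ hq' h
    rw [mem_coe, mem_product, mem_filter] at hq hq'
    have h1 : Resp (mrg π u v) y := hq.1.2
    have h1' : Resp (mrg π u v) y' := hq'.1.2
    have hc : c = c' := by
      have := congrFun h v
      simpa using this
    have hne : ∀ w, π w ≠ π v → y w = y' w := by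
      intro w hw
      have := congrFun h w
      simpa [hw] using this
    have hy : y = y' := by
      funext w
      by_cases hw : π w = π v
      · have e1 := h1 w
        have e2 := h1' w
        rw [mrg, if_pos hw] at e1 e2
        rw [← e1, ← e2]
        apply hne
        rw [hπ]
        exact huv
      · exact hne w hw
    rw [hy, hc]

end Counts

end Pool.Agent.MP_9cec2c_lc.ThresholdLines
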