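import Pool.Agent.Lib.MP_9cec2c_lc.TLLevels

/-!
One step of the approximation method for triangles: vectors of pigeons against colourings.
-/

set_option autoImplicit false
set_option linter.unusedSectionVars false
set_option linter.unusedVariables false

namespace Pool.Agent.MP_9cec2c_lc.ThresholdLines

open Finset

variable {P I C : Type} [Fintype P] [DecidableEq P] [Fintype I] [DecidableEq I]
  [Fintype C] [DecidableEq C]

/-- Correctness of a valued list of terms on the side of the maps `x`. -/
def Pos (D : Finset (Finset (P × I))) (d : Finset (P × I) → EReal) (a : (P → I) → EReal)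
    (Ex : Finset (P → I)) : Prop :=
  ∀ x ∉ Ex, ∃ t ∈ D, Sub t x ∧ a x ≤ d t

/-- Correctness of a valued list of terms on the side of the colourings `y`. -/
def Neg (D : Finset (Finset (P × I))) (d : Finset (P × I) → EReal) (b : (P × I → C) → EReal)
    (Ey : Finset (P × I → C)) : Prop :=
  ∀ y ∉ Ey, ∀ t ∈ D, Set.InjOn y (t : Set (P × I)) → d t ≤ b y

section Step

variable {ι : Type} [Fintype ι] (D : ι → Finset (Finset (P × I)))
  (d : ι → Finset (P × I) → EReal)

open scoped Classical in
/-- The terms compatible with a partition. -/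
noncomputable def compat (i : ι) (π : P × I → P × I) : Finset (Finset (P × I)) :=
  (D i).filter fun t => Set.InjOn π (t : Set (P × I))

/-- The largest value of a compatible term. -/
noncomputable def Dst (i : ι) (π : P × I → P × I) : EReal := (compat D i π).sup (d i)

theorem exists_tst (i : ι) (π : P × I → P × I) : ∃ t : Finset (P × I),
    Set.InjOn π (t : Set (P × I)) ∧ ((compat D i π).Nonempty → t ∈ D i ∧ Dst D d i π = d i t) ∧
      (¬ (compat D i π).Nonempty → t = ∅) := by
  by_cases h : (compat D i π).Nonempty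
  · obtain ⟨t, ht, he⟩ := exists_mem_eq_sup _ h (d i)
    have ht' := mem_filter.1 ht
    exact ⟨t, ht'.2, fun _ => ⟨ht'.1, he⟩, fun h' => absurd h h'⟩
  · exact ⟨∅, by simp, fun h' => absurd h' h, fun _ => rfl⟩

/-- A compatible term with the largest value. -/
noncomputable def tst (i : ι) (π : P × I → P × I) : Finset (P × I) :=
  (exists_tst D d i π).choose

theorem tst_inj (i : ι) (π : P × I → P × I) : Set.InjOn π (tst D d i π : Set (P × I)) :=
  (exists_tst D d i π).choose_spec.1

theorem tst_mem (i : ι) (π : P × I → P × I) (h : (compat D i π).Nonempty) :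
    tst D d i π ∈ D i ∧ Dst D d i π = d i (tst D d i π) :=
  (exists_tst D d i π).choose_spec.2.1 h

theorem tst_card (L : ℕ) (hD : ∀ i, ∀ t ∈ D i, t.card ≤ 2 * L) (i : ι) (π : P × I → P × I) :
    (tst D d i π).card ≤ 2 * L := by
  by_cases h : (compat D i π).Nonempty
  · exact hD i _ (tst_mem D d i π h).1
  · rw [tst, (exists_tst D d i π).choose_spec.2.2 h, card_empty]
    exact Nat.zero_le _

open scoped Classical in
/-- The successors of a clause state. -/
noncomputable def NC (s : (P × I → P × I) × Finset (P × I)) :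
    Finset ((P × I → P × I) × Finset (P × I)) :=
  (univ : Finset ι).biUnion fun i =>
    (((tst D d i s.1) ×ˢ (tst D d i s.1)).filter fun p => s.1 p.1 ≠ s.1 p.2).image
      fun p => (mrg s.1 p.1 p.2, insert p.1 (insert p.2 s.2))

theorem NC_card (L ar : ℕ) (har : Fintype.card ι ≤ ar) (hD : ∀ i, ∀ t ∈ D i, t.card ≤ 2 * L)
    (s : (P × I → P × I) × Finset (P × I)) : (NC D d s).card ≤ ar * (2 * L) ^ 2 := by
  classical
  unfold NC
  refine (card_biUnion_le_card_mul _ _ ((2 * L) ^ 2) fun i _ => ?_).trans ?_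
  · refine card_image_le.trans ((card_filter_le _ _).trans ?_)
    rw [card_product, sq]
    exact Nat.mul_le_mul (tst_card D d L hD i _) (tst_card D d L hD i _)
  · rw [card_univ]
    exact Nat.mul_le_mul_right _ har

open scoped Classical in
/-- The invariant of clause states. -/
def InvC (C : Type) [Fintype C] (j : ℕ) (s : (P × I → P × I) × Finset (P × I)) : Prop :=
  (∀ w, s.1 (s.1 w) = s.1 w) ∧ (∀ w w', w ≠ w' → s.1 w = s.1 w' → w ∈ s.2 ∧ w' ∈ s.2) ∧
    s.2.card ≤ 2 * j ∧
    (univ.filter fun y : P × I → C => Resp s.1 y).card * Fintype.card C ^ j ≤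
      Fintype.card (P × I → C)

theorem invC_step (j : ℕ) (s : (P × I → P × I) × Finset (P × I)) (hs : InvC C j s) :
    ∀ s' ∈ NC D d s, InvC C (j + 1) s' := by
  classical
  intro s' hs'
  unfold NC at hs'
  rw [mem_biUnion] at hs'
  obtain ⟨i, -, hi⟩ := hs'
  rw [mem_image] at hi
  obtain ⟨⟨u, v⟩, huv, rfl⟩ := hi
  rw [mem_filter] at huv
  have hne : s.1 u ≠ s.1 v := huv.2
  obtain ⟨h1, h2, h3, h4⟩ := hs
  refine ⟨mrg_idem h1 hne, ?_, ?_, ?_⟩
  · intro w w' hw he
    have key : ∀ z, (∃ z', z ≠ z' ∧ s.1 z = s.1 z') ∨ z = u ∨ z = v →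
        z ∈ insert u (insert v s.2) := by
      rintro z (⟨z', hz, hz'⟩ | rfl | rfl)
      · exact mem_insert_of_mem (mem_insert_of_mem (h2 z z' hz hz').1)
      · exact mem_insert_self _ _
      · exact mem_insert_of_mem (mem_insert_self _ _)
    simp only [mrg] at he
    by_cases hsame : s.1 w = s.1 w'
    · exact ⟨key w (Or.inl ⟨w', hw, hsame⟩), key w' (Or.inl ⟨w, hw.symm, hsame.symm⟩)⟩
    · split_ifs at he with e1 e2 e2
      · exact absurd (e1.trans e2.symm) hsame
      · refine ⟨key w ?_, key w' ?_⟩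
        · by_cases hwv : w = v
          · exact Or.inr (Or.inr hwv)
          · exact Or.inl ⟨v, hwv, e1⟩
        · by_cases hwu : w' = u
          · exact Or.inr (Or.inl hwu)
          · exact Or.inl ⟨u, hwu, he.symm⟩
      · refine ⟨key w ?_, key w' ?_⟩
        · by_cases hwu : w = u
          · exact Or.inr (Or.inl hwu)
          · exact Or.inl ⟨u, hwu, he⟩
        · by_cases hwv : w' = v
          · exact Or.inr (Or.inr hwv)
          · exact Or.inl ⟨v, hwv, e2⟩
      · exact absurd he hsame
  · have e1 := card_insert_le u (insert v s.2)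
    have e2 := card_insert_le v s.2
    simp only
    omega
  · have e1 := mrg_count (C := C) h1 hne
    calc _ = ((univ.filter fun y : P × I → C => Resp (mrg s.1 u v) y).card *
          Fintype.card C) * Fintype.card C ^ j := by ring
      _ ≤ (univ.filter fun y : P × I → C => Resp s.1 y).card * Fintype.card C ^ j :=
          Nat.mul_le_mul_right _ e1
      _ ≤ _ := h4

open scoped Classical in
/-- The upper bound given by a clause state. -/
noncomputable def eC (a : (P → I) → EReal) (ai : ι → (P → I) → EReal)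
    (π : P × I → P × I) : EReal :=
  (univ.filter fun x : P → I => ∀ i, ai i x ≤ Dst D d i π).sup a

open scoped Classical in
/-- The list of clause states. -/
noncomputable def CC (L : ℕ) : Finset ((P × I → P × I) × Finset (P × I)) :=
  (range L).biUnion (lev (NC D d) (id, ∅))

theorem invC_lev (j : ℕ) : ∀ s ∈ lev (NC D d) (id, ∅) j, InvC C j s := by
  classical
  refine lev_inv (NC D d) (id, ∅) (InvC C) ?_ (invC_step D d) j
  refine ⟨fun w => rfl, fun w w' h h' => absurd h' h, by simp, ?_⟩
  rw [pow_zero, mul_one]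
  exact (card_filter_le _ _).trans (by rw [card_univ])

/-- Correctness of the clause states. -/
theorem clause_ok (L : ℕ) (a : (P → I) → EReal) (b : (P × I → C) → EReal)
    (ai : ι → (P → I) → EReal) (bi : ι → (P × I → C) → EReal) (Ey : Finset (P × I → C))
    (hN : ∀ i, Neg (D i) (d i) (bi i) Ey)
    (hcov : ∀ x y, b y < a x → ∃ i, bi i y < ai i x) (y : P × I → C) (hy : y ∉ Ey)
    (hy' : ¬ ∃ s ∈ lev (NC D d) (id, ∅) L, Resp s.1 y) :
    ∃ s ∈ CC D d L, Resp s.1 y ∧ eC D d a ai s.1 ≤ b y := by
  classical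
  have halt := lev_alt (NC D d) (id, ∅) (fun s => Resp s.1 y)
    (fun s => ∀ i, Set.InjOn y (tst D d i s.1 : Set (P × I))) (fun w => rfl) L (by
      intro j hj s hs hr hst
      push Not at hst
      obtain ⟨i, hi⟩ := hst
      rw [Set.InjOn] at hi
      push Not at hi
      obtain ⟨u, hu, v, hv, huv, hne⟩ := hi
      have hinv := invC_lev (C := C) D d j s hs
      have hπ : s.1 u ≠ s.1 v := fun h => hne (tst_inj D d i s.1 hu hv h)
      refine ⟨(mrg s.1 u v, insert u (insert v s.2)), ?_, ?_⟩
      · unfold NC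
        rw [mem_biUnion]
        exact ⟨i, mem_univ _,
          mem_image.2 ⟨(u, v), mem_filter.2 ⟨mem_product.2 ⟨hu, hv⟩, hπ⟩, rfl⟩⟩
      · exact mrg_resp hinv.1 hr huv)
  rcases halt with h | h
  · obtain ⟨j, hj, s, hs, hr, hst⟩ := h
    refine ⟨s, mem_biUnion.2 ⟨j, mem_range.2 hj, hs⟩, hr, ?_⟩
    unfold eC
    rw [Finset.sup_le_iff]
    intro x hx
    rw [mem_filter] at hx
    by_contra hcon
    push Not at hcon
    obtain ⟨i, hi⟩ := hcov x y hcon
    have h1 := hi.trans_le (hx.2 i)
    by_cases hne : (compat D i s.1).Nonempty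
    · obtain ⟨e1, e2⟩ := tst_mem D d i s.1 hne
      have := hN i y hy _ e1 (hst i)
      rw [e2] at h1
      exact absurd h1 (not_lt.2 this)
    · rw [not_nonempty_iff_eq_empty] at hne
      rw [Dst, hne, sup_empty] at h1
      exact not_lt_bot h1
  · exact absurd h hy'

section Terms

variable (a : (P → I) → EReal) (ai : ι → (P → I) → EReal) (L : ℕ)

open scoped Classical in
/-- The clause states compatible with a term. -/
noncomputable def ccom (t : Finset (P × I)) : Finset ((P × I → P × I) × Finset (P × I)) :=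
  (CC D d L).filter fun s => Set.InjOn s.1 (t : Set (P × I))

/-- The value of a term. -/
noncomputable def dd (t : Finset (P × I)) : EReal :=
  (ccom D d L t).inf fun s => eC D d a ai s.1

theorem exists_cst (t : Finset (P × I)) : ∃ s : (P × I → P × I) × Finset (P × I),
    s.2.card ≤ 2 * L ∧ (∀ w w', w ≠ w' → s.1 w = s.1 w' → w ∈ s.2 ∧ w' ∈ s.2) ∧
      Set.InjOn s.1 (t : Set (P × I)) ∧
      ((ccom D d L t).Nonempty → dd D d a ai L t = eC D d a ai s.1) := by
  classical
  by_cases h : (ccom D d L t).Nonempty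
  · obtain ⟨s, hs, he⟩ := exists_mem_eq_inf _ h fun s => eC D d a ai s.1
    have hs' := mem_filter.1 hs
    obtain ⟨j, hj, hsj⟩ := mem_biUnion.1 hs'.1
    have hinv := invC_lev (C := P) D d j s hsj
    rw [mem_range] at hj
    exact ⟨s, hinv.2.2.1.trans (by omega), hinv.2.1, hs'.2, fun _ => he⟩
  · exact ⟨(id, ∅), by simp, fun w w' h h' => absurd h' h, fun w _ w' _ h => h,
      fun h' => absurd h' h⟩

/-- A compatible clause state with the smallest value. -/
noncomputable def cst (t : Finset (P × I)) : (P × I → P × I) × Finset (P × I) :=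
  (exists_cst D d a ai L t).choose

open scoped Classical in
/-- The successors of a term. -/
noncomputable def ND (t : Finset (P × I)) : Finset (Finset (P × I)) :=
  (((cst D d a ai L t).2 ×ˢ (cst D d a ai L t).2).filter fun p =>
    p.1 ≠ p.2 ∧ (cst D d a ai L t).1 p.1 = (cst D d a ai L t).1 p.2).image
      fun p => insert p.1 (insert p.2 t)

theorem ND_card (t : Finset (P × I)) : (ND D d a ai L t).card ≤ (2 * L) ^ 2 := by
  classical
  unfold ND
  refine card_image_le.trans ((card_filter_le _ _).trans ?_)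
  rw [card_product, sq]
  have := (exists_cst D d a ai L t).choose_spec.1
  exact Nat.mul_le_mul this this

theorem invD_lev (j : ℕ) : ∀ t ∈ lev (ND D d a ai L) ∅ j, t.card ≤ 2 * j ∧ j ≤ t.card := by
  classical
  refine lev_inv (ND D d a ai L) ∅ (fun j t => t.card ≤ 2 * j ∧ j ≤ t.card) (by simp) ?_ j
  intro j t ht t' ht'
  unfold ND at ht'
  obtain ⟨⟨u, v⟩, huv, rfl⟩ := mem_image.1 ht'
  rw [mem_filter] at huv
  obtain ⟨-, hne, he⟩ := huv
  simp only at hne he
  have hinj := (exists_cst D d a ai L t).choose_spec.2.2.1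
  simp only
  constructor
  · have e1 := card_insert_le u (insert v t)
    have e2 := card_insert_le v t
    omega
  · by_cases hv : v ∈ t
    · have hu : u ∉ t := fun hu => hne (hinj hu hv he)
      rw [insert_eq_of_mem hv, card_insert_of_notMem hu]
      omega
    · have e1 : (insert v t).card = t.card + 1 := card_insert_of_notMem hv
      have e2 : (insert v t).card ≤ (insert u (insert v t)).card :=
        card_le_card (subset_insert _ _)
      omega

end Terms

/-- One step of the approximation method. -/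
theorem approx_step (L ar : ℕ) (har : Fintype.card ι ≤ ar) (hI : 1 ≤ Fintype.card I)
    (a : (P → I) → EReal) (b : (P × I → C) → EReal)
    (ai : ι → (P → I) → EReal) (bi : ι → (P × I → C) → EReal)
    (hD : ∀ i, ∀ t ∈ D i, t.card ≤ 2 * L)
    (Ex : Finset (P → I)) (Ey : Finset (P × I → C))
    (hP : ∀ i, Pos (D i) (d i) (ai i) Ex) (hN : ∀ i, Neg (D i) (d i) (bi i) Ey)
    (hcov : ∀ x y, b y < a x → ∃ i, bi i y < ai i x) :
    ∃ (D' : Finset (Finset (P × I))) (d' : Finset (P × I) → EReal) (Ex' : Finset (P → I))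
      (Ey' : Finset (P × I → C)), (∀ t ∈ D', t.card ≤ 2 * L) ∧
      (∀ Ex₁, Ex ⊆ Ex₁ → Ex' ⊆ Ex₁ → Pos D' d' a Ex₁) ∧
      (∀ Ey₁, Ey ⊆ Ey₁ → Ey' ⊆ Ey₁ → Neg D' d' b Ey₁) ∧
      Ex'.card * Fintype.card I ^ L ≤ ((2 * L) ^ 2) ^ L * Fintype.card (P → I) ∧
      Ey'.card * Fintype.card C ^ L ≤ (ar * (2 * L) ^ 2) ^ L * Fintype.card (P × I → C) := by
  classical
  refine ⟨(range L).biUnion (lev (ND D d a ai L) ∅), dd D d a ai L,
    univ.filter fun x : P → I => ∃ t ∈ lev (ND D d a ai L) ∅ L, Sub t x,
    univ.filter fun y : P × I → C => ∃ s ∈ lev (NC D d) (id, ∅) L, Resp s.1 y, ?_, ?_, ?_, ?_, ?_⟩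
  · intro t ht
    obtain ⟨j, hj, htj⟩ := mem_biUnion.1 ht
    rw [mem_range] at hj
    exact (invD_lev D d a ai L j t htj).1.trans (by omega)
  · intro Ex₁ h1 h2 x hx
    have hx1 : x ∉ Ex := fun h => hx (h1 h)
    have hx2 : ¬ ∃ t ∈ lev (ND D d a ai L) ∅ L, Sub t x := fun h =>
      hx (h2 (mem_filter.2 ⟨mem_univ _, h⟩))
    have halt := lev_alt (ND D d a ai L) ∅ (fun t => Sub t x)
      (fun t => ∀ p p', (cst D d a ai L t).1 (p, x p) = (cst D d a ai L t).1 (p', x p') → p = p')
      (fun w hw => absurd hw (notMem_empty _)) L (by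
        intro j hj t ht hs hst
        push Not at hst
        obtain ⟨p, p', he, hne⟩ := hst
        have hne' : ((p, x p) : P × I) ≠ (p', x p') := fun h => hne (congrArg Prod.fst h)
        have hA := (exists_cst D d a ai L t).choose_spec.2.1 _ _ hne' he
        refine ⟨insert (p, x p) (insert (p', x p') t), ?_, ?_⟩
        · unfold ND
          rw [mem_image]
          exact ⟨((p, x p), (p', x p')),
            mem_filter.2 ⟨mem_product.2 hA, hne', he⟩, rfl⟩
        · intro w hw
          rw [mem_insert, mem_insert] at hw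
          rcases hw with rfl | rfl | hw
          · rfl
          · rfl
          · exact hs w hw)
    rcases halt with h | h
    · obtain ⟨j, hj, t, ht, hs, hst⟩ := h
      refine ⟨t, mem_biUnion.2 ⟨j, mem_range.2 hj, ht⟩, hs, ?_⟩
      by_cases hne : (ccom D d L t).Nonempty
      · have e1 := (exists_cst D d a ai L t).choose_spec.2.2.2 hne
        rw [e1]
        change a x ≤ eC D d a ai (cst D d a ai L t).1
        unfold eC
        apply Finset.le_sup (f := a)
        rw [mem_filter]
        refine ⟨mem_univ _, fun i => ?_⟩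
        obtain ⟨ti, hti, hsub, hle⟩ := hP i x hx1
        refine hle.trans ?_
        unfold Dst
        apply Finset.le_sup (f := d i)
        unfold compat
        rw [mem_filter]
        refine ⟨hti, ?_⟩
        rintro ⟨p, c⟩ hw ⟨p', c'⟩ hw' he
        have e2 := hsub _ hw
        have e3 := hsub _ hw'
        simp only at e2 e3
        rw [← e2, ← e3] at he
        have := hst p p' he
        rw [← e2, ← e3, this]
      · rw [not_nonempty_iff_eq_empty] at hne
        unfold dd
        rw [hne, inf_empty]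
        exact le_top
    · exact absurd h hx2
  · intro Ey₁ h1 h2 y hy t ht hinj
    have hy1 : y ∉ Ey := fun h => hy (h1 h)
    have hy2 : ¬ ∃ s ∈ lev (NC D d) (id, ∅) L, Resp s.1 y := fun h =>
      hy (h2 (mem_filter.2 ⟨mem_univ _, h⟩))
    obtain ⟨s, hs, hr, he⟩ := clause_ok D d L a b ai bi Ey hN hcov y hy1 hy2
    refine le_trans ?_ he
    unfold dd
    apply Finset.inf_le (f := fun s : (P × I → P × I) × Finset (P × I) => eC D d a ai s.1)
    unfold ccom
    rw [mem_filter]
    refine ⟨hs, fun w hw w' hw' h => ?_⟩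
    apply hinj hw hw'
    rw [← hr w, ← hr w', h]
  · refine lev_measure (ND D d a ai L) ∅ (fun t x => Sub t x) _ _ L
      (fun j _ t _ => ND_card D d a ai L t) ?_
    intro t ht
    have h1 := (invD_lev D d a ai L L t ht).2
    calc _ ≤ (univ.filter fun x : P → I => Sub t x).card * Fintype.card I ^ t.card :=
          Nat.mul_le_mul_left _ (Nat.pow_le_pow_right hI h1)
      _ ≤ _ := sub_count t
  · refine lev_measure (NC D d) (id, ∅) (fun s y => Resp s.1 y) _ _ L
      (fun j _ s _ => NC_card D d L ar har hD s) ?_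
    intro s hs
    exact (invC_lev D d L s hs).2.2.2

end Step

end Pool.Agent.MP_9cec2c_lc.ThresholdLines
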