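import Pool.Agent.Lib.MP_9cec2c_lc.TLChain

/-!
Sets that split into triangles by trees of one-sided queries, and refutations made of them.
-/

set_option autoImplicit false
set_option linter.unusedSectionVars false
set_option linter.unusedVariables false

namespace Pool.Agent.MP_9cec2c_lc.ThresholdLines

open Finset

section Trees

variable {X Y : Type}

/-- A query that depends on one side only. -/
def OneSided (f : X × Y → Bool) : Prop :=
  (∃ g : X → Bool, ∀ p, f p = g p.1) ∨ ∃ g : Y → Bool, ∀ p, f p = g p.2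

/-- The region `T` splits by at most `q` one-sided queries into regions with `φ`. -/
inductive Split (φ : Set (X × Y) → Prop) : ℕ → Set (X × Y) → Prop
  | leaf (q : ℕ) (T : Set (X × Y)) : φ T → Split φ q T
  | node (q : ℕ) (T : Set (X × Y)) (f : X × Y → Bool) : OneSided f →
      Split φ q (T ∩ {p | f p = true}) → Split φ q (T ∩ {p | f p = false}) → Split φ (q + 1) T

theorem Split.mono {φ ψ : Set (X × Y) → Prop} (h : ∀ T, φ T → ψ T) {q q' : ℕ}
    {T : Set (X × Y)} (hT : Split φ q T) (hq : q ≤ q') : Split ψ q' T := by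
  induction hT generalizing q' with
  | leaf q T hφ => exact Split.leaf _ _ (h T hφ)
  | node q T f hf _ _ ih1 ih2 =>
    obtain ⟨r, rfl⟩ : ∃ r, q' = r + 1 := ⟨q' - 1, by omega⟩
    exact Split.node r T f hf (ih1 (by omega)) (ih2 (by omega))

theorem Split.bind {φ ψ : Set (X × Y) → Prop} {q r : ℕ} {T : Set (X × Y)}
    (hT : Split φ q T) (h : ∀ T', φ T' → Split ψ r T') : Split ψ (q + r) T := by
  induction hT with
  | leaf q T hφ => exact (h T hφ).mono (fun _ h => h) (Nat.le_add_left _ _)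
  | node q T f hf _ _ ih1 ih2 =>
    rw [Nat.add_right_comm]
    exact Split.node _ T f hf ih1 ih2

theorem Split.restrict {θ : Set (X × Y) → Prop} {q : ℕ} {U : Set (X × Y)}
    (hU : Split θ q U) (T : Set (X × Y)) :
    Split (fun T' => T' ⊆ T ∧ ∃ R, θ R ∧ T' ⊆ R) q (T ∩ U) := by
  induction hU with
  | leaf q U hθ => exact Split.leaf _ _ ⟨Set.inter_subset_left, U, hθ, Set.inter_subset_right⟩
  | node q U f hf _ _ ih1 ih2 =>
    refine Split.node _ _ f hf ?_ ?_
    · rw [Set.inter_assoc]; exact ih1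
    · rw [Set.inter_assoc]; exact ih2

theorem IsTri.inter {T : Set (X × Y)} (hT : IsTri T) {f : X × Y → Bool} (hf : OneSided f)
    (c : Bool) : IsTri (T ∩ {p | f p = c}) := by
  classical
  obtain ⟨a, b, rfl⟩ := hT
  rcases hf with ⟨g, hg⟩ | ⟨g, hg⟩
  · refine ⟨fun x => if g x = c then a x else ⊥, b, ?_⟩
    ext ⟨x, y⟩
    simp only [Set.mem_inter_iff, Set.mem_ofPred_eq, hg]
    by_cases h : g x = c
    · simp [h]
    · simp [h]
  · refine ⟨a, fun y => if g y = c then b y else ⊤, ?_⟩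
    ext ⟨x, y⟩
    simp only [Set.mem_inter_iff, Set.mem_ofPred_eq, hg]
    by_cases h : g y = c
    · simp [h]
    · simp [h]

end Trees

variable {P I C : Type} [Fintype P] [DecidableEq P] [Fintype I] [DecidableEq I]
  [Fintype C] [DecidableEq C]

theorem Cov.mono {α : Type} {ar : ℕ} {l l' : List (Set α)} {T : Set α} (h : Cov ar l T)
    (hl : ∀ Q ∈ l, Q ∈ l') : Cov ar l' T := by
  obtain ⟨k, hk, f, hf, hc⟩ := h
  exact ⟨k, hk, f, fun i => hl _ (hf i), hc⟩

theorem adder {ar : ℕ} (har : 2 ≤ ar) {q : ℕ} {T : Set ((P → I) × (P × I → C))}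
    {l₀ : List (Set ((P → I) × (P × I → C)))} (hT : Split (Cov ar l₀) q T) :
    IsTri T → ∀ l₁, Chain ar (l₁ ++ l₀) →
      ∃ l', Chain ar (l' ++ (l₁ ++ l₀)) ∧ T ∈ l' ∧ l'.length + 1 ≤ 2 ^ (q + 1) := by
  induction hT with
  | leaf q T hc =>
    intro htri l₁ hl₁
    refine ⟨[T], ?_, by simp, ?_⟩
    · exact Chain.cons T _ hl₁ htri
        (Or.inr (hc.mono fun Q (hQ : Q ∈ l₀) => List.mem_append_right l₁ hQ))
    · rw [List.length_singleton, pow_succ]
      have := Nat.one_le_two_pow (n := q)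
      omega
  | node q T f hf _ _ ih1 ih2 =>
    intro htri l₁ hl₁
    obtain ⟨l2, h1, h2, h3⟩ := ih1 (htri.inter hf true) l₁ hl₁
    obtain ⟨l3, g1, g2, g3⟩ := ih2 (htri.inter hf false) (l2 ++ l₁) (by
      rw [List.append_assoc]; exact h1)
    rw [List.append_assoc] at g1
    refine ⟨T :: (l3 ++ l2), ?_, by simp, ?_⟩
    · rw [List.cons_append, List.append_assoc]
      refine Chain.cons T _ g1 htri (Or.inr ⟨2, har,
        ![T ∩ {p | f p = true}, T ∩ {p | f p = false}], ?_, ?_⟩)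
      · intro i
        fin_cases i
        · exact List.mem_append_right _ (List.mem_append_left _ h2)
        · exact List.mem_append_left _ g2
      · intro p hp
        cases hfp : f p
        · exact ⟨1, hp, hfp⟩
        · exact ⟨0, hp, hfp⟩
    · rw [List.length_cons, List.length_append, pow_succ]
      omega

/-- Every region can be split into pieces on which `Z` is contained in a member of `l`. -/
def Avail {X Y : Type} (q : ℕ) (l : List (Set (X × Y))) (Z : Set (X × Y)) : Prop :=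
  ∀ T, Split (fun T' => T' ⊆ T ∧ ∃ Q ∈ l, T' ∩ Z ⊆ Q) q T

theorem Avail.mono {X Y : Type} {q : ℕ} {l l' : List (Set (X × Y))} {Z : Set (X × Y)}
    (h : Avail q l Z) (hl : ∀ Q ∈ l, Q ∈ l') : Avail q l' Z := by
  intro T
  refine (h T).mono ?_ le_rfl
  rintro T' ⟨h1, Q, hQ, h2⟩
  exact ⟨h1, Q, hl Q hQ, h2⟩

theorem avail_many {X Y : Type} {q : ℕ} {l : List (Set (X × Y))} {k : ℕ}
    (Z : Fin k → Set (X × Y)) (hZ : ∀ i, Avail q l (Z i)) (T : Set (X × Y)) :
    Split (fun T' => T' ⊆ T ∧ ∃ f : Fin k → Set (X × Y), (∀ i, f i ∈ l) ∧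
      ∀ i, T' ∩ Z i ⊆ f i) (k * q) T := by
  induction k with
  | zero => exact Split.leaf _ _ ⟨subset_rfl, fun i => i.elim0, fun i => i.elim0,
      fun i => i.elim0⟩
  | succ k ih =>
    rw [Nat.succ_mul]
    refine (ih (fun i => Z i.castSucc) (fun i => hZ _)).bind ?_
    rintro T' ⟨h1, f, hf, hc⟩
    refine (hZ (Fin.last k) T').mono ?_ le_rfl
    rintro T'' ⟨g1, Q, hQ, g2⟩
    refine ⟨g1.trans h1, Fin.snoc f Q, ?_, ?_⟩
    · intro i
      refine Fin.lastCases ?_ (fun i => ?_) i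
      · rw [Fin.snoc_last]; exact hQ
      · rw [Fin.snoc_castSucc]; exact hf i
    · intro i
      refine Fin.lastCases ?_ (fun i => ?_) i
      · rw [Fin.snoc_last]; exact g2
      · rw [Fin.snoc_castSucc]
        exact (Set.inter_subset_inter_left _ g1).trans (hc i)

theorem process {ar K : ℕ} {Z : Set ((P → I) × (P × I → C))}
    {l₀ : List (Set ((P → I) × (P × I → C)))}
    (hadd : ∀ T ⊆ Z, IsTri T → ∀ l₁, Chain ar (l₁ ++ l₀) →
      ∃ l', Chain ar (l' ++ (l₁ ++ l₀)) ∧ T ∈ l' ∧ l'.length ≤ K) {q : ℕ}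
    {U : Set ((P → I) × (P × I → C))} (hU : Split (fun R => IsTri (R ∩ Z)) q U) :
    ∀ l₁, Chain ar (l₁ ++ l₀) → ∃ l', Chain ar (l' ++ (l₁ ++ l₀)) ∧
      Split (fun R => ∃ Q ∈ l', R ∩ Z ⊆ Q) q U ∧ l'.length ≤ 2 ^ q * K := by
  induction hU with
  | leaf q U htri =>
    intro l₁ hl₁
    obtain ⟨l', h1, h2, h3⟩ := hadd _ Set.inter_subset_right htri l₁ hl₁
    refine ⟨l', h1, Split.leaf _ _ ⟨_, h2, subset_rfl⟩, h3.trans ?_⟩
    exact Nat.le_mul_of_pos_left _ (Nat.two_pow_pos q)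
  | node q U f hf _ _ ih1 ih2 =>
    intro l₁ hl₁
    obtain ⟨l2, h1, h2, h3⟩ := ih1 l₁ hl₁
    obtain ⟨l3, g1, g2, g3⟩ := ih2 (l2 ++ l₁) (by rw [List.append_assoc]; exact h1)
    refine ⟨l3 ++ l2, ?_, ?_, ?_⟩
    · rw [List.append_assoc]
      rw [List.append_assoc] at g1
      exact g1
    · refine Split.node _ _ f hf (h2.mono ?_ le_rfl) (g2.mono ?_ le_rfl)
      · rintro T ⟨Q, hQ, hs⟩
        exact ⟨Q, List.mem_append_right _ hQ, hs⟩
      · rintro T ⟨Q, hQ, hs⟩
        exact ⟨Q, List.mem_append_left _ hQ, hs⟩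
    · rw [List.length_append, pow_succ]
      calc _ ≤ 2 ^ q * K + 2 ^ q * K := Nat.add_le_add g3 h3
        _ = _ := by ring

/-- The lower bound for refutations whose lines split into triangles. -/
theorem tree_bound {ar L q S : ℕ} (hL : 1 ≤ L) (har : 2 ≤ ar)
    (hI : 8 * L ^ 2 ≤ Fintype.card I) (hC : 8 * ar * L ^ 2 ≤ Fintype.card C)
    (Z : Fin S → Set ((P → I) × (P × I → C)))
    (hZ : ∀ i, Split (fun R => IsTri (R ∩ Z i)) q Set.univ)
    (hlines : ∀ i, IsLeaf (Z i) ∨ ∃ k ≤ ar, ∃ f : Fin k → Fin S, (∀ a, f a < i) ∧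
      ∀ p ∈ Z i, ∃ a, p ∈ Z (f a))
    (hroot : ∃ i, Z i = Set.univ) :
    2 ^ L ≤ (S + 1) * 2 ^ ((ar + 1) * q + 2) := by
  classical
  have key : ∀ s ≤ S, ∃ l : List (Set ((P → I) × (P × I → C))), Chain ar l ∧
      (∀ i : Fin S, (i : ℕ) < s → Avail q l (Z i)) ∧
      l.length ≤ s * (2 ^ q * 2 ^ (ar * q + 1)) := by
    intro s
    induction s with
    | zero => intro _; exact ⟨[], Chain.nil, fun i hi => absurd hi (Nat.not_lt_zero _), by simp⟩
    | succ s ih =>
      intro hs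
      obtain ⟨l, hl, hav, hlen⟩ := ih (by omega)
      set i : Fin S := ⟨s, by omega⟩ with hi
      have hadd : ∀ T ⊆ Z i, IsTri T → ∀ l₁, Chain ar (l₁ ++ l) →
          ∃ l', Chain ar (l' ++ (l₁ ++ l)) ∧ T ∈ l' ∧ l'.length ≤ 2 ^ (ar * q + 1) := by
        intro T hT htri l₁ hl₁
        rcases hlines i with hleaf | ⟨k, hk, f, hf, hcov⟩
        · refine ⟨[T], Chain.cons T _ hl₁ htri (Or.inl ?_), by simp, ?_⟩
          · obtain ⟨w₁, w₂, hne, hw⟩ := hleaf
            exact ⟨w₁, w₂, hne, fun p hp => hw p (hT hp)⟩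
          · rw [List.length_singleton]
            exact Nat.one_le_two_pow
        · have h1 : Split (Cov ar l) (ar * q) T := by
            refine (avail_many (fun a => Z (f a)) (fun a => hav _ ?_) T).mono ?_
              (Nat.mul_le_mul_right _ hk)
            · have := hf a
              rw [hi, Fin.lt_def] at this
              exact this
            · rintro T' ⟨g1, g, g2, g3⟩
              refine ⟨k, hk, g, g2, fun p hp => ?_⟩
              obtain ⟨a, ha⟩ := hcov p (hT (g1 hp))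
              exact ⟨a, g3 a ⟨hp, ha⟩⟩
          obtain ⟨l', e1, e2, e3⟩ := adder har h1 htri l₁ hl₁
          exact ⟨l', e1, e2, by omega⟩
      obtain ⟨l', e1, e2, e3⟩ := process hadd (hZ i) [] hl
      refine ⟨l' ++ l, e1, ?_, ?_⟩
      · intro j hj
        by_cases hjs : (j : ℕ) < s
        · exact (hav j hjs).mono fun Q hQ => List.mem_append_right _ hQ
        · have hji : j = i := Fin.ext (by rw [hi]; simp only; omega)
          rw [hji]
          intro T
          have h2 := e2.restrict T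
          rw [Set.inter_univ] at h2
          refine h2.mono ?_ le_rfl
          rintro T' ⟨g1, R, ⟨Q, hQ, g2⟩, g3⟩
          exact ⟨g1, Q, List.mem_append_left _ hQ,
            (Set.inter_subset_inter_left _ g3).trans g2⟩
      · rw [List.length_append, Nat.succ_mul]
        omega
  obtain ⟨l, hl, hav, hlen⟩ := key S le_rfl
  obtain ⟨i, hi⟩ := hroot
  have h1 : Split (Cov ar l) q Set.univ := by
    refine (hav i i.2 Set.univ).mono ?_ le_rfl
    rintro T' ⟨-, Q, hQ, g⟩
    rw [hi, Set.inter_univ] at g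
    exact ⟨1, by omega, fun _ => Q, fun _ => hQ, fun p hp => ⟨0, g hp⟩⟩
  have huniv : IsTri (Set.univ : Set ((P → I) × (P × I → C))) :=
    ⟨fun _ => ⊤, fun _ => ⊥, by ext p; simp⟩
  obtain ⟨l', e1, e2, e3⟩ := adder har h1 huniv [] hl
  have h2 := chain_bound hL (by omega) hI hC e1 (List.mem_append_left _ e2)
  rw [List.nil_append, List.length_append] at h2
  have h3 : 2 ^ (q + 1) ≤ 2 ^ q * 2 ^ (ar * q + 1) := by
    rw [pow_succ]
    refine Nat.mul_le_mul_left _ ?_
    rw [pow_succ]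
    have := Nat.one_le_two_pow (n := ar * q)
    omega
  have h4 : l'.length + l.length ≤ (S + 1) * (2 ^ q * 2 ^ (ar * q + 1)) := by
    rw [Nat.succ_mul]
    omega
  calc 2 ^ L ≤ 2 * (l'.length + l.length) := h2
    _ ≤ 2 * ((S + 1) * (2 ^ q * 2 ^ (ar * q + 1))) := Nat.mul_le_mul_left _ h4
    _ = (S + 1) * 2 ^ ((ar + 1) * q + 2) := by
        rw [← pow_add, show (ar + 1) * q + 2 = (q + (ar * q + 1)) + 1 by ring, pow_succ]
        ring

end Pool.Agent.MP_9cec2c_lc.ThresholdLines
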