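import Pool.Agent.Lib.MP_9cec2c_lc.TTDefs

/-!
Chains on a multigraph and their boundaries, connected sets.
-/

set_option autoImplicit false
set_option linter.unusedSectionVars false

namespace Pool.Agent.MP_9cec2c_lc.TT

open Finset

variable {V E : Type} [Fintype V] [Fintype E] [DecidableEq V] [DecidableEq E]

/-- The boundary of the chain `f`. -/
def bd (src tgt : E → V) {R : Type} [Ring R] (f : E → R) (v : V) : R :=
  ∑ e, ((if src e = v then 1 else 0) - (if tgt e = v then 1 else 0)) * f e

/-- Adjacent vertices of `Z`. -/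
def Adj (src tgt : E → V) (Z : Finset V) (u v : V) : Prop :=
  u ∈ Z ∧ v ∈ Z ∧ ∃ e, (src e = u ∧ tgt e = v) ∨ (src e = v ∧ tgt e = u)

/-- The vertex `v` can be reached from `u` inside `Z`. -/
def Reach (src tgt : E → V) (Z : Finset V) : V → V → Prop :=
  Relation.ReflTransGen (Adj src tgt Z)

/-- The set `Z` is connected. -/
def ConnOn (src tgt : E → V) (Z : Finset V) : Prop := ∀ u ∈ Z, ∀ v ∈ Z, Reach src tgt Z u v

variable {src tgt : E → V}

theorem adj_symm {Z : Finset V} {u v : V} (h : Adj src tgt Z u v) : Adj src tgt Z v u := by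
  obtain ⟨hu, hv, e, he⟩ := h
  exact ⟨hv, hu, e, he.symm⟩

theorem reach_symm {Z : Finset V} {u v : V} (h : Reach src tgt Z u v) : Reach src tgt Z v u := by
  unfold Reach at h ⊢
  induction h with
  | refl => exact Relation.ReflTransGen.refl
  | tail _ h1 ih => exact Relation.ReflTransGen.head (adj_symm h1) ih

theorem reach_mono {Z Z' : Finset V} (hZ : Z ⊆ Z') {u v : V} (h : Reach src tgt Z u v) :
    Reach src tgt Z' u v := by
  unfold Reach at h ⊢
  induction h with
  | refl => exact Relation.ReflTransGen.refl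
  | tail _ h1 ih => exact ih.tail ⟨hZ h1.1, hZ h1.2.1, h1.2.2⟩

theorem bd_add {R : Type} [Ring R] (f g : E → R) (v : V) :
    bd src tgt (fun e => f e + g e) v = bd src tgt f v + bd src tgt g v := by
  unfold bd
  rw [← sum_add_distrib]
  exact sum_congr rfl fun e _ => mul_add _ _ _

theorem bd_neg {R : Type} [Ring R] (f : E → R) (v : V) :
    bd src tgt (fun e => - f e) v = - bd src tgt f v := by
  unfold bd
  rw [← sum_neg_distrib]
  exact sum_congr rfl fun e _ => mul_neg _ _

theorem bd_zero {R : Type} [Ring R] (v : V) : bd src tgt (fun _ : E => (0 : R)) v = 0 := by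
  unfold bd
  exact sum_eq_zero fun e _ => mul_zero _

theorem bd_single (e₀ : E) (v : V) : bd src tgt (fun e => if e = e₀ then (1 : ℤ) else 0) v =
    (if src e₀ = v then 1 else 0) - (if tgt e₀ = v then 1 else 0) := by
  unfold bd
  rw [sum_eq_single e₀]
  · simp only [if_true, mul_one]
  · intro e _ he
    simp only [if_neg he, mul_zero]
  · intro h
    exact absurd (mem_univ _) h

/-- A path inside `Z` as a chain. -/
theorem exists_chain {Z : Finset V} {u v : V} (h : Reach src tgt Z u v) :
    ∃ f : E → ℤ, (∀ e, f e ≠ 0 → src e ∈ Z ∧ tgt e ∈ Z) ∧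
      ∀ z, bd src tgt f z = (if u = z then 1 else 0) - (if v = z then 1 else 0) := by
  unfold Reach at h
  induction h with
  | refl => exact ⟨fun _ => 0, fun e he => absurd rfl he, fun z => by rw [bd_zero, sub_self]⟩
  | @tail b c _ h1 ih =>
    obtain ⟨f, hf, hf'⟩ := ih
    obtain ⟨hb, hc, e₀, he₀⟩ := h1
    rcases he₀ with ⟨h2, h3⟩ | ⟨h2, h3⟩
    · refine ⟨fun e => f e + if e = e₀ then 1 else 0, fun e he => ?_, fun z => ?_⟩
      · by_cases h4 : e = e₀
        · rw [h4, h2, h3]
          exact ⟨hb, hc⟩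
        · simp only [if_neg h4, add_zero] at he
          exact hf e he
      · rw [bd_add, hf', bd_single, h2, h3]
        ring
    · refine ⟨fun e => f e + -(if e = e₀ then 1 else 0), fun e he => ?_, fun z => ?_⟩
      · by_cases h4 : e = e₀
        · rw [h4, h2, h3]
          exact ⟨hc, hb⟩
        · simp only [if_neg h4, neg_zero, add_zero] at he
          exact hf e he
      · rw [bd_add, hf', bd_neg, bd_single, h2, h3]
        ring

/-- A connected graph is connected by paths. -/
theorem connOn_univ (h : Connected src tgt) : ConnOn src tgt (univ : Finset V) := by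
  classical
  intro u _ v _
  by_contra hv
  obtain ⟨U, hU⟩ : ∃ U : Finset V, U = univ.filter fun z => Reach src tgt univ u z := ⟨_, rfl⟩
  have hmem : ∀ z, z ∈ U ↔ Reach src tgt univ u z := by
    intro z
    rw [hU, mem_filter]
    exact ⟨fun h => h.2, fun h => ⟨mem_univ _, h⟩⟩
  have h1 : U.Nonempty := ⟨u, (hmem u).2 Relation.ReflTransGen.refl⟩
  have h2 : U ≠ univ := by
    intro h3
    exact hv ((hmem v).1 (h3 ▸ mem_univ v))
  obtain ⟨e, he⟩ := h U h1 h2
  unfold cut at he
  rw [mem_filter] at he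
  refine he.2 ⟨fun h3 => ?_, fun h3 => ?_⟩
  · exact (hmem _).2 (((hmem _).1 h3).tail ⟨mem_univ _, mem_univ _, e, Or.inl ⟨rfl, rfl⟩⟩)
  · exact (hmem _).2 (((hmem _).1 h3).tail ⟨mem_univ _, mem_univ _, e, Or.inr ⟨rfl, rfl⟩⟩)

/-- The cast of the boundary. -/
theorem bd_cast (r : ℕ) (f : E → ℤ) (v : V) :
    bd src tgt (fun e => (f e : ZMod r)) v = ((bd src tgt f v : ℤ) : ZMod r) := by
  unfold bd
  rw [Int.cast_sum]
  refine sum_congr rfl fun e _ => ?_
  push_cast
  split_ifs <;> simp

/-- Every function with sum zero is a boundary. -/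
theorem exists_pot {r : ℕ} (h : Connected src tgt) (τ : V → ZMod r) (hτ : ∑ v, τ v = 0) :
    ∃ g : E → ZMod r, ∀ v, bd src tgt g v = τ v := by
  classical
  rcases isEmpty_or_nonempty V with hV | ⟨⟨v₀⟩⟩
  · exact ⟨fun _ => 0, fun v => (hV.false v).elim⟩
  have h1 : ∀ v, ∃ f : E → ℤ, ∀ z, bd src tgt f z = (if v = z then 1 else 0) -
      (if v₀ = z then 1 else 0) := by
    intro v
    obtain ⟨f, -, hf⟩ := exists_chain (connOn_univ h v (mem_univ _) v₀ (mem_univ _))
    exact ⟨f, hf⟩
  choose f hf using h1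
  refine ⟨fun e => ∑ v, τ v * (f v e : ZMod r), fun z => ?_⟩
  have h2 : bd src tgt (fun e => ∑ v, τ v * (f v e : ZMod r)) z =
      ∑ v, τ v * bd src tgt (fun e => (f v e : ZMod r)) z := by
    unfold bd
    simp only [mul_sum]
    rw [sum_comm]
    refine sum_congr rfl fun v _ => sum_congr rfl fun e _ => ?_
    ring
  rw [h2]
  have h3 : ∀ v, τ v * bd src tgt (fun e => (f v e : ZMod r)) z =
      (if v = z then τ v else 0) - τ v * (if v₀ = z then 1 else 0) := by
    intro v
    rw [bd_cast, hf v z]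
    push_cast
    split_ifs <;> simp
  rw [sum_congr rfl fun v _ => h3 v, sum_sub_distrib, ← sum_mul, hτ, zero_mul, sub_zero,
    sum_ite_eq' univ z τ, if_pos (mem_univ _)]

end Pool.Agent.MP_9cec2c_lc.TT
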