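import Pool.Agent.Lib.MP_9cec2c_lc.TTChain

/-!
Many disjoint connected sets, each with many vertices of a given set.
-/

set_option autoImplicit false
set_option linter.unusedSectionVars false

namespace Pool.Agent.MP_9cec2c_lc.TT

open Finset

variable {V E : Type} [Fintype V] [Fintype E] [DecidableEq V] [DecidableEq E] {src tgt : E → V}

/-- TASK TTSplit (1). Some edge joins a part `X` of a connected set `Y` to the rest.

PROOF. Take `u ∈ X`, `v ∈ Y \ X`; `hY u _ v _ : Reach src tgt Y u v`; induction on the path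
(`Relation.ReflTransGen.head_induction_on` or `tail` induction): there is a step `Adj src tgt Y x y` with
`x ∈ X` and `y ∉ X`. -/
theorem exists_cross {Y X : Finset V} (hY : ConnOn src tgt Y) (hXY : X ⊆ Y) (hX : X.Nonempty)
    (hYX : (Y \ X).Nonempty) : ∃ x ∈ X, ∃ y ∈ Y \ X, Adj src tgt Y x y := by
  obtain ⟨u, hu⟩ := hX
  obtain ⟨v, hv⟩ := hYX
  have h1 : ∀ w, Reach src tgt Y u w →
      w ∈ X ∨ ∃ x ∈ X, ∃ y ∈ Y \ X, Adj src tgt Y x y := by
    intro w hw
    unfold Reach at hw
    induction hw with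
    | refl => exact Or.inl hu
    | @tail b c _ hbc ih =>
      rcases ih with hb | h2
      · by_cases hc : c ∈ X
        · exact Or.inl hc
        · exact Or.inr ⟨b, hb, c, mem_sdiff.2 ⟨hbc.2.1, hc⟩, hbc⟩
      · exact Or.inr h2
  rcases h1 v (hY u (hXY hu) v (mem_sdiff.1 hv).1) with h2 | h2
  · exact absurd h2 (mem_sdiff.1 hv).2
  · exact h2

/-- The component of `z` in `Z`. -/
noncomputable def TTSplit_K (src tgt : E → V) (Z : Finset V) (z : V) : Finset V := by
  classical
  exact Z.filter fun w => Reach src tgt Z z w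

theorem TTSplit_mem {Z : Finset V} {z w : V} :
    w ∈ TTSplit_K src tgt Z z ↔ w ∈ Z ∧ Reach src tgt Z z w := by
  classical
  unfold TTSplit_K
  rw [mem_filter]

theorem TTSplit_conn (Z : Finset V) (z : V) : ConnOn src tgt (TTSplit_K src tgt Z z) := by
  have h1 : ∀ w, Reach src tgt Z z w → Reach src tgt (TTSplit_K src tgt Z z) z w := by
    intro w hw
    unfold Reach at hw
    induction hw with
    | refl => exact Relation.ReflTransGen.refl
    | @tail b c hb hbc ih =>
      exact Relation.ReflTransGen.tail ih ⟨TTSplit_mem.2 ⟨hbc.1, hb⟩,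
        TTSplit_mem.2 ⟨hbc.2.1, Relation.ReflTransGen.tail hb hbc⟩, hbc.2.2⟩
  intro u hu v hv
  exact Relation.ReflTransGen.trans (reach_symm (h1 u (TTSplit_mem.1 hu).2))
    (h1 v (TTSplit_mem.1 hv).2)

theorem TTSplit_compl {Y X : Finset V} (hXY : X ⊆ Y) (hX : ConnOn src tgt X)
    (hYX : ConnOn src tgt (Y \ X)) {x : V} (hx : x ∈ X)
    (hx2 : Y \ X = ∅ ∨ ∃ y ∈ Y \ X, Adj src tgt Y x y) (z : V) :
    ConnOn src tgt (Y \ TTSplit_K src tgt (X.erase x) z) := by
  have hKX : ∀ w, w ∈ TTSplit_K src tgt (X.erase x) z → w ∈ X ∧ w ≠ x := fun w hw => by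
    have h1 := (TTSplit_mem.1 hw).1
    exact ⟨mem_of_mem_erase h1, ne_of_mem_erase h1⟩
  have hxK : x ∈ Y \ TTSplit_K src tgt (X.erase x) z :=
    mem_sdiff.2 ⟨hXY hx, fun h => (hKX x h).2 rfl⟩
  have key : ∀ w, Reach src tgt X w x → w ∉ TTSplit_K src tgt (X.erase x) z →
      Reach src tgt (Y \ TTSplit_K src tgt (X.erase x) z) w x := by
    intro w hw
    unfold Reach at hw
    induction hw using Relation.ReflTransGen.head_induction_on with
    | refl => exact fun _ => Relation.ReflTransGen.refl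
    | @head w c hwc _ ih =>
      intro hwK
      have hwm : w ∈ Y \ TTSplit_K src tgt (X.erase x) z := mem_sdiff.2 ⟨hXY hwc.1, hwK⟩
      by_cases hwx : w = x
      · rw [hwx]
        exact Relation.ReflTransGen.refl
      by_cases hcx : c = x
      · rw [hcx] at hwc
        exact Relation.ReflTransGen.single ⟨hwm, hxK, hwc.2.2⟩
      · have hcK : c ∉ TTSplit_K src tgt (X.erase x) z := by
          intro hc
          apply hwK
          have h3 : w ∈ X.erase x := mem_erase.2 ⟨hwx, hwc.1⟩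
          have h4 : c ∈ X.erase x := mem_erase.2 ⟨hcx, hwc.2.1⟩
          exact TTSplit_mem.2 ⟨h3, Relation.ReflTransGen.tail (TTSplit_mem.1 hc).2
            (adj_symm ⟨h3, h4, hwc.2.2⟩)⟩
        exact Relation.ReflTransGen.head
          ⟨hwm, mem_sdiff.2 ⟨hXY hwc.2.1, hcK⟩, hwc.2.2⟩ (ih hcK)
  have key2 : ∀ w ∈ Y \ TTSplit_K src tgt (X.erase x) z,
      Reach src tgt (Y \ TTSplit_K src tgt (X.erase x) z) w x := by
    intro w hw
    rw [mem_sdiff] at hw
    by_cases hwX : w ∈ X
    · exact key w (hX w hwX x hx) hw.2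
    · have hwm : w ∈ Y \ X := mem_sdiff.2 ⟨hw.1, hwX⟩
      rcases hx2 with h5 | ⟨y, hy, hxy⟩
      · rw [h5] at hwm
        exact absurd hwm (notMem_empty w)
      · have hsub : Y \ X ⊆ Y \ TTSplit_K src tgt (X.erase x) z := by
          intro v hv
          rw [mem_sdiff] at hv ⊢
          exact ⟨hv.1, fun h => hv.2 (hKX v h).1⟩
        exact Relation.ReflTransGen.tail (reach_mono hsub (hYX w hwm y hy))
          (adj_symm ⟨hxK, hsub hy, hxy.2.2⟩)
  intro u hu v hv
  exact Relation.ReflTransGen.trans (key2 u hu) (reach_symm (key2 v hv))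

/-- The other end point. -/
def TTSplit_o (src tgt : E → V) (x : V) (e : E) : V := if src e = x then tgt e else src e

theorem TTSplit_cover {X : Finset V} {x : V} {w : V} (hw : Reach src tgt X w x)
    (hwx : w ∈ X.erase x) : ∃ e ∈ inc src tgt x,
      w ∈ TTSplit_K src tgt (X.erase x) (TTSplit_o src tgt x e) := by
  revert hwx
  unfold Reach at hw
  induction hw using Relation.ReflTransGen.head_induction_on with
  | refl => exact fun h => absurd rfl (ne_of_mem_erase h)
  | @head w c hwc _ ih =>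
    intro hwx
    have hne := ne_of_mem_erase hwx
    by_cases hcx : c = x
    · rw [hcx] at hwc
      obtain ⟨e, he⟩ := hwc.2.2
      refine ⟨e, ?_, ?_⟩
      · unfold inc
        rw [mem_filter]
        refine ⟨mem_univ _, ?_⟩
        rcases he with he | he
        · exact Or.inr he.2
        · exact Or.inl he.1
      · have h6 : TTSplit_o src tgt x e = w := by
          unfold TTSplit_o
          rcases he with he | he
          · rw [if_neg (by rw [he.1]; exact hne), he.1]
          · rw [if_pos he.1, he.2]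
        rw [h6]
        exact TTSplit_mem.2 ⟨hwx, Relation.ReflTransGen.refl⟩
    · have hc : c ∈ X.erase x := mem_erase.2 ⟨hcx, hwc.2.1⟩
      obtain ⟨e, he, hce⟩ := ih hc
      exact ⟨e, he, TTSplit_mem.2 ⟨hwx, Relation.ReflTransGen.tail (TTSplit_mem.1 hce).2
        (adj_symm ⟨hwx, hc, hwc.2.2⟩)⟩⟩

/-- TASK TTSplit (2). A connected set `Y` splits in two connected sets `X` and `Y \ X`, where `X`
has at least `s` and at most `Δ * s` points of `T`.

PROOF. Among all `X ⊆ Y` with `ConnOn X`, `ConnOn (Y \ X)`, `s ≤ (T ∩ X).card` (for instance `Y`; `ConnOn ∅` is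
trivial) take one with the least `X.card` (`Finset.exists_min_image` on a filter of `Y.powerset`). Then
`X` is not empty. Choose `x ∈ X`: if `Y \ X` is not empty let `x` be adjacent (in `Y`) to a `y₀ ∈ Y \ X`
(`exists_cross`), otherwise let `x` be any point of `X`.
Let `X' = X \ {x}` (`X.erase x`). For `z ∈ X'` let `K z = {z' ∈ X' | Reach X' z z'}`. For every edge `e ∈ inc x` let
`o e` be its other end point (if `src e = x` then `tgt e` else `src e`) and `Kₑ = K (o e)` if `o e ∈ X'`, and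
`Kₑ = ∅` otherwise.
(i) Every `z ∈ X'` lies in some `Kₑ`, `e ∈ inc x`: take `Reach X z x` (`X` connected) and use
`head_induction_on`: if the first step goes to `x` then it is along an edge `e ∈ inc x` with `o e = z`; if the
first step goes to `z' ≠ x` then `z' ∈ Kₑ` by induction, and `z`, `z'` are adjacent in `X'`.
(ii) `ConnOn (K z)`: `Reach X' z w` implies `Reach (K z) z w` (induction on the path: all points of the path
are in `K z`); then `reach_symm` and transitivity.
(iii) `ConnOn (Y \ Kₑ)`: every `w ∈ Y \ Kₑ` is connected to `x` inside `Y \ Kₑ`: if `w = x` trivial; if `w ∉ X`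
then `Reach (Y \ X) w y₀` (`reach_mono`) and `y₀`, `x` are adjacent; if `w ∈ X'`, `w ∉ Kₑ`, then `w ∈ Kₑ'` for some
`e'` by (i), all of `K w` is outside `Kₑ` (otherwise `w ∈ Kₑ` by transitivity and symmetry), so by (ii)
`Reach (K w) w (o e')`, and `o e'` is adjacent to `x`.
(iv) `Kₑ ⊆ X'` has fewer points than `X`, so by minimality `(T ∩ Kₑ).card < s`, i.e. `≤ s - 1`.
(v) `T ∩ X ⊆ {x} ∪ ⋃_{e ∈ inc x} (T ∩ Kₑ)`, so `(T ∩ X).card ≤ 1 + Δ * (s - 1) ≤ Δ * s`. -/
theorem exists_split {Y T : Finset V} (hY : ConnOn src tgt Y) {Δ s : ℕ}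
    (hΔ : ∀ v, (inc src tgt v).card ≤ Δ) (hΔ1 : 1 ≤ Δ) (hs : 1 ≤ s) (hT : s ≤ (T ∩ Y).card) :
    ∃ X ⊆ Y, ConnOn src tgt X ∧ ConnOn src tgt (Y \ X) ∧ s ≤ (T ∩ X).card ∧
      (T ∩ X).card ≤ Δ * s := by
  classical
  let cand := Y.powerset.filter fun X =>
    ConnOn src tgt X ∧ ConnOn src tgt (Y \ X) ∧ s ≤ (T ∩ X).card
  have hcand : cand.Nonempty := by
    refine ⟨Y, mem_filter.2 ⟨mem_powerset.2 (Subset.refl Y), hY, ?_, hT⟩⟩
    rw [sdiff_self]
    intro u hu
    exact absurd hu (notMem_empty u)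
  obtain ⟨X, hXc, hmin⟩ := exists_min_image cand Finset.card hcand
  rw [mem_filter, mem_powerset] at hXc
  obtain ⟨hXY, hX, hYX, hsX⟩ := hXc
  refine ⟨X, hXY, hX, hYX, hsX, ?_⟩
  have hXne : X.Nonempty := by
    have h1 : 0 < (T ∩ X).card := by omega
    obtain ⟨v, hv⟩ := card_pos.1 h1
    exact ⟨v, (mem_inter.1 hv).2⟩
  obtain ⟨x, hx, hx2⟩ : ∃ x ∈ X, Y \ X = ∅ ∨ ∃ y ∈ Y \ X, Adj src tgt Y x y := by
    rcases (Y \ X).eq_empty_or_nonempty with h1 | h1
    · obtain ⟨x, hx⟩ := hXne
      exact ⟨x, hx, Or.inl h1⟩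
    · obtain ⟨x, hx, y, hy, hxy⟩ := exists_cross hY hXY hXne h1
      exact ⟨x, hx, Or.inr ⟨y, hy, hxy⟩⟩
  have hKsub : ∀ z, TTSplit_K src tgt (X.erase x) z ⊆ X.erase x := fun z w hw =>
    (TTSplit_mem.1 hw).1
  have hKs : ∀ z, (T ∩ TTSplit_K src tgt (X.erase x) z).card ≤ s - 1 := by
    intro z
    by_contra hcon
    have h2 : s ≤ (T ∩ TTSplit_K src tgt (X.erase x) z).card := by omega
    have h3 := hmin (TTSplit_K src tgt (X.erase x) z) (mem_filter.2
      ⟨mem_powerset.2 ((hKsub z).trans ((erase_subset x X).trans hXY)),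
        TTSplit_conn _ _, TTSplit_compl hXY hX hYX hx hx2 z, h2⟩)
    have h4 := card_le_card (hKsub z)
    have h5 := card_erase_lt_of_mem hx
    omega
  have hcov : T ∩ X ⊆ insert x ((inc src tgt x).biUnion fun e =>
      T ∩ TTSplit_K src tgt (X.erase x) (TTSplit_o src tgt x e)) := by
    intro w hw
    rw [mem_inter] at hw
    rw [mem_insert]
    by_cases hwx : w = x
    · exact Or.inl hwx
    · obtain ⟨e, he, hwe⟩ := TTSplit_cover (hX w hw.2 x hx) (mem_erase.2 ⟨hwx, hw.2⟩)
      exact Or.inr (mem_biUnion.2 ⟨e, he, mem_inter.2 ⟨hw.1, hwe⟩⟩)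
  have h6 : (T ∩ X).card ≤ 1 + (inc src tgt x).card * (s - 1) := by
    refine (card_le_card hcov).trans ((card_insert_le _ _).trans ?_)
    have h7 := card_biUnion_le_card_mul (inc src tgt x) (fun e =>
      T ∩ TTSplit_K src tgt (X.erase x) (TTSplit_o src tgt x e)) (s - 1) (fun e _ => hKs _)
    omega
  have h8 : (inc src tgt x).card * (s - 1) ≤ Δ * (s - 1) := Nat.mul_le_mul_right _ (hΔ x)
  have h9 : Δ * s = Δ * (s - 1) + Δ := by
    obtain ⟨s', rfl⟩ : ∃ s', s = s' + 1 := ⟨s - 1, by omega⟩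
    rw [Nat.add_sub_cancel]
    ring
  omega

end Pool.Agent.MP_9cec2c_lc.TT
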