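import Pool.Agent.Lib.MP_9cec2c_lc.TTCnf
import Pool.Agent.Lib.MP_9cec2c_lc.CQSize

/-!
From a world of the Tseitin contradiction on the complete graph to a world of the Tseitin formula
of a graph in which the complete graph is a multiflow with small congestion.
-/

set_option autoImplicit false
set_option linter.unusedSectionVars false

namespace Pool.Agent.MP_9cec2c_lc.TT

open Finset Frege
open Flat (TVar tseitinMod valueClauses eqClauses forbid2)
open FG (listCNF mem_listCNF fals)
open CP (nodeSum)
open CQ (TQ tsrc ttgt tchg tinc card_tinc dec dec_congr tse_kill Holds Kills pull pull_apply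
  pull_world Narrow act_eq_zero fals_toList)

variable {V E : Type} [Fintype V] [Fintype E] [DecidableEq V] [DecidableEq E] {src tgt : E → V}

section val

variable {X Q : Type} [Fintype X] [Fintype Q] [DecidableEq X] [DecidableEq Q] {r r' : ℕ}

/-- The value of an edge: the superposition of the flows with the values `z i`, shifted by `g`. -/
def val (f : X → E → ℤ) (g : E → ZMod r) (ι : ZMod r' →+ ZMod r) (z : X → ZMod r') (e : E) :
    ZMod r := g e + ∑ i, (f i e : ZMod r) * ι (z i)

theorem val_congr {f : X → E → ℤ} {g : E → ZMod r} {ι : ZMod r' →+ ZMod r} {z z' : X → ZMod r'}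
    {e : E} (h : ∀ i, f i e ≠ 0 → z i = z' i) : val f g ι z e = val f g ι z' e := by
  unfold val
  congr 1
  refine sum_congr rfl fun i _ => ?_
  by_cases hi : f i e = 0
  · rw [hi, Int.cast_zero, zero_mul, zero_mul]
  · rw [h i hi]

/-- The boundary of the superposition. -/
theorem bd_val {φ : Q → V} {a b : X → Q} {f : X → E → ℤ}
    (hf : ∀ i v, bd src tgt (f i) v = (if φ (a i) = v then 1 else 0) - (if φ (b i) = v then 1 else 0))
    (g : E → ZMod r) (ι : ZMod r' →+ ZMod r) (z : X → ZMod r') (v : V) :
    bd src tgt (val f g ι z) v = bd src tgt g v +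
      ∑ q, if φ q = v then ι (nodeSum a b z q) else 0 := by
  have h1 : bd src tgt (val f g ι z) v = bd src tgt g v +
      ∑ i, ι (z i) * ((bd src tgt (f i) v : ℤ) : ZMod r) := by
    unfold val
    rw [bd_add g (fun e => ∑ i, (f i e : ZMod r) * ι (z i)) v]
    congr 1
    have h2 : ∀ i, ι (z i) * ((bd src tgt (f i) v : ℤ) : ZMod r) =
        ∑ e, ((if src e = v then 1 else 0) - (if tgt e = v then 1 else 0)) *
          ((f i e : ZMod r) * ι (z i)) := by
      intro i
      rw [← bd_cast]
      unfold bd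
      rw [mul_sum]
      exact sum_congr rfl fun e _ => by ring
    rw [sum_congr rfl fun i _ => h2 i, sum_comm]
    unfold bd
    exact sum_congr rfl fun e _ => by rw [mul_sum]
  rw [h1]
  congr 1
  have h3 : ∀ i, ι (z i) * ((bd src tgt (f i) v : ℤ) : ZMod r) =
      ∑ q, if φ q = v then ((if a i = q then ι (z i) else 0) - if b i = q then ι (z i) else 0)
        else 0 := by
    intro i
    rw [hf i v]
    have h4 : ∀ q, (if φ q = v then ((if a i = q then ι (z i) else 0) -
        if b i = q then ι (z i) else 0) else 0) =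
        (if a i = q then (if φ q = v then ι (z i) else 0) else 0) -
        (if b i = q then (if φ q = v then ι (z i) else 0) else 0) := by
      intro q
      split_ifs <;> simp
    rw [sum_congr rfl fun q _ => h4 q, sum_sub_distrib, sum_ite_eq, sum_ite_eq,
      if_pos (mem_univ _), if_pos (mem_univ _)]
    push_cast
    split_ifs <;> simp
  rw [sum_congr rfl fun i _ => h3 i, sum_comm]
  refine sum_congr rfl fun q _ => ?_
  by_cases hq : φ q = v
  · simp only [if_pos hq]
    unfold nodeSum
    rw [map_sum]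
    refine sum_congr rfl fun i _ => ?_
    rw [map_sub]
    split_ifs <;> simp
  · simp only [if_neg hq, sum_const_zero]

end val

variable {K W : Type} [Field K] [AddCommGroup W] [Module K W] {N r' : ℕ} [NeZero r']
  {M : ℕ → Submodule K W} {act : Fun K (TVar N × ZMod r') →ₗ[K] W →ₗ[K] W} {A : ℕ}

/-- **The world of the Tseitin formula of a graph.** -/
theorem graph_world (hW : World M act A) {b : Fin N → ZMod r'}
    (hF : Kills M act (tseitinMod N r' b : Set (CQ.Clause (TVar N × ZMod r')))) {r : ℕ} [NeZero r]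
    (ι : ZMod r' →+ ZMod r) {φ : TQ N → V} (hφ : Function.Injective φ) {f : TVar N → E → ℤ}
    (hf : ∀ i v, bd src tgt (f i) v =
      (if φ (tsrc i) = v then 1 else 0) - (if φ (ttgt i) = v then 1 else 0)) {k : ℕ}
    (hk : ∀ e, (univ.filter fun i => f i e ≠ 0).card ≤ k) (g : E → ZMod r) {s : V → ZMod r}
    (hg : ∀ v, bd src tgt g v + ∑ q, (if φ q = v then ι (tchg b q) else 0) = s v) {Δ : ℕ}
    (hΔ : ∀ v, (inc src tgt v).card ≤ Δ) (hA : 2 * ((Δ * k + 3) * r') ≤ A) :
    ∃ act' : Fun K (E × ZMod r) →ₗ[K] W →ₗ[K] W,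
      World (fun a => M (k * r' * a)) act' (A / (k * r')) ∧
      ∀ D ∈ tseitinCNF src tgt r s, ∀ u ∈ M (k * r' * 0), act' (fals K D) u = 0 := by
  classical
  obtain ⟨ρ, hρ⟩ : ∃ ρ : (TVar N × ZMod r' → Bool) → (E × ZMod r → Bool),
      ρ = fun y u => decide (val f g ι (dec y) u.1 = u.2) := ⟨_, rfl⟩
  have hdec : ∀ (Z : Finset (TVar N)) (y y' : TVar N × ZMod r' → Bool),
      (∀ u ∈ Z ×ˢ (univ : Finset (ZMod r')), y u = y' u) → ∀ i ∈ Z, dec y i = dec y' i := by
    intro Z y y' h i hi
    exact dec_congr fun c => h _ (mem_product.2 ⟨hi, mem_univ _⟩)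
  have hn : Narrow (k * r') ρ := by
    intro u
    refine ⟨(univ.filter fun i => f i u.1 ≠ 0) ×ˢ (univ : Finset (ZMod r')), ?_, ?_⟩
    · rw [card_product, card_univ, ZMod.card]
      exact Nat.mul_le_mul_right _ (hk u.1)
    · intro x y hxy
      rw [hρ]
      show decide (val f g ι (dec x) u.1 = u.2) = decide (val f g ι (dec y) u.1 = u.2)
      rw [val_congr (z' := dec y) fun i hi => hdec _ x y hxy i (mem_filter.2 ⟨mem_univ _, hi⟩)]
  refine ⟨act.comp (pull ρ), pull_world hW hn, ?_⟩
  intro D hD u hu
  rw [mul_zero] at hu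
  unfold tseitinCNF at hD
  obtain ⟨C, hC, rfl⟩ := mem_listCNF.1 hD
  rw [LinearMap.comp_apply, fals_toList]
  have hρl : ∀ (y : TVar N × ZMod r' → Bool) (l : (E × ZMod r) × Bool),
      ρ y l.1 = l.2 ↔ decide (val f g ι (dec y) l.1.1 = l.1.2) = l.2 := by
    intro y l
    rw [hρ]
  rcases mem_tseitin.1 hC with ⟨e, he⟩ | ⟨v, hv⟩
  · have h1 : pull ρ (fun x => if Holds x C then (0 : K) else 1) = 0 := by
      funext y
      rw [pull_apply, if_pos]
      · rfl
      obtain ⟨l, hl, hl'⟩ := holds_value (val f g ι (dec y)) e C he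
      exact ⟨l, hl, (hρl y l).2 hl'⟩
    rw [h1, map_zero, LinearMap.zero_apply]
  · obtain ⟨ZT, hZT⟩ : ∃ ZT : Finset (TVar N),
        ZT = ((inc src tgt v).biUnion fun e => univ.filter fun i => f i e ≠ 0) ∪
          ((univ.filter fun q => φ q = v).biUnion fun q => tinc q) := ⟨_, rfl⟩
    have hcardZ : (ZT ×ˢ (univ : Finset (ZMod r'))).card ≤ (Δ * k + 3) * r' := by
      rw [card_product, card_univ, ZMod.card]
      refine Nat.mul_le_mul_right _ ?_
      rw [hZT]
      refine (card_union_le _ _).trans (add_le_add ?_ ?_)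
      · refine card_biUnion_le.trans ?_
        refine (sum_le_card_nsmul _ _ k fun e _ => hk e).trans ?_
        rw [smul_eq_mul]
        exact Nat.mul_le_mul_right _ (hΔ v)
      · refine card_biUnion_le.trans ?_
        refine (sum_le_card_nsmul _ _ 3 fun q _ => card_tinc q).trans ?_
        rw [smul_eq_mul]
        have h2 : (univ.filter fun q => φ q = v).card ≤ 1 := by
          rw [card_le_one]
          intro q hq q' hq'
          exact hφ ((mem_filter.1 hq).2.trans (mem_filter.1 hq').2.symm)
        omega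
    refine act_eq_zero hW hF (ZT ×ˢ (univ : Finset (ZMod r'))) _ ?_ ?_ (by omega) hu
    · intro x y hxy
      have h3 : Holds (ρ x) C ↔ Holds (ρ y) C := by
        have h4 : ∀ l ∈ C, ρ x l.1 = ρ y l.1 := by
          intro l hl
          have h5 : l.1.1 ∈ inc src tgt v := CQ.vars_eqClauses hv l hl
          rw [hρ]
          show decide (val f g ι (dec x) l.1.1 = l.1.2) = decide (val f g ι (dec y) l.1.1 = l.1.2)
          rw [val_congr (z' := dec y) fun i hi => hdec _ x y hxy i ?_]
          rw [hZT]
          exact mem_union_left _ (mem_biUnion.2 ⟨l.1.1, h5, mem_filter.2 ⟨mem_univ _, hi⟩⟩)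
        constructor
        · rintro ⟨l, hl, hl'⟩
          exact ⟨l, hl, by rw [← h4 l hl]; exact hl'⟩
        · rintro ⟨l, hl, hl'⟩
          exact ⟨l, hl, by rw [h4 l hl]; exact hl'⟩
      rw [pull_apply, pull_apply]
      simp only [h3]
    · intro y hy
      rw [pull_apply] at hy
      have h3 : ¬ Holds (ρ y) C := by
        intro h4
        rw [if_pos h4] at hy
        exact hy rfl
      have h4 : bd src tgt (val f g ι (dec y)) v ≠ s v := by
        intro h5
        obtain ⟨l, hl, hl'⟩ := holds_eq h5 C hv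
        exact h3 ⟨l, hl, (hρl y l).2 hl'⟩
      have h5 : ∃ q, φ q = v ∧ nodeSum tsrc ttgt (dec y) q ≠ tchg b q := by
        by_contra hcon
        push Not at hcon
        apply h4
        rw [bd_val hf, ← hg v]
        congr 1
        refine sum_congr rfl fun q _ => ?_
        by_cases hq : φ q = v
        · rw [if_pos hq, if_pos hq, hcon q hq]
        · rw [if_neg hq, if_neg hq]
      obtain ⟨q, hq, hq'⟩ := h5
      obtain ⟨C', hC', h6, h7⟩ := tse_kill b q y hq'
      refine ⟨C', hC', fun l hl => ?_, h7⟩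
      rw [hZT]
      exact mem_product.2 ⟨mem_union_right _ (mem_biUnion.2 ⟨q, mem_filter.2 ⟨mem_univ _, hq⟩,
        h6 l hl⟩), mem_univ _⟩

end Pool.Agent.MP_9cec2c_lc.TT
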