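import Pool.Agent.Lib.MP_9cec2c_lc.TTChain
import Pool.Agent.Lib.MP_9cec2c_lc.FGFinal

/-!
The trivial lower bound: the number of vertices.
-/

set_option autoImplicit false
set_option linter.unusedSectionVars false

namespace Pool.Agent.MP_9cec2c_lc.TT

open Finset
open FG

/-- TASK TTTriv (1). Derivations by sound rules are sound.

PROOF. Strong induction on `i` (`Fin`, well founded): unfold `IsDerivation`, `Rule.Derives`; if `L i ∈ Φ`: `hx`;
otherwise `(hS R hR) V σ τ x` applied to the premises (which are earlier lines) and `φ = L i ∈ [L i]`. -/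
theorem sound_lines {V : Type} {p : ℕ} {S : Set Rule} (hS : ∀ R ∈ S, R.Sound p) {d l : ℕ}
    {Φ : Set (Form V)} {L : Fin l → Form V} (hL : IsDerivation S d Φ L) {x : V → Bool}
    (hx : ∀ i, L i ∈ Φ → (L i).eval p x) : ∀ i, (L i).eval p x := by
  have key : ∀ n : ℕ, ∀ i : Fin l, (i : ℕ) = n → (L i).eval p x := by
    intro n
    induction n using Nat.strong_induction_on with
    | _ n ih =>
      intro i hi
      rcases (hL i).2 with h | ⟨R, hR, σ, τ, h1, h2⟩
      · exact hx i h
      · refine hS R hR V σ τ x (fun P hP ψ hψ => ?_) (L i) ?_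
        · obtain ⟨j, hj, rfl⟩ := h1 P hP ψ hψ
          exact ih j (by rw [← hi]; exact hj) j rfl
        · rw [h2]
          exact List.mem_singleton.2 rfl
  exact fun i => key i i rfl

/-- TASK TTTriv (2). Different lists of literals give different clauses.

PROOF. `clause C = disjL (C.map lit) = .disj (C.map lit).length (C.map lit).get`; equality of the constructors
gives equal lengths and (`HEq`) equal `get`, so equal lists (`List.ext_get`), and `lit` is injective. -/
theorem clause_injective {V : Type} : Function.Injective (clause : List (V × Bool) → Form V) := by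
  have h1 : ∀ Λ Λ' : List (Form V), disjL Λ = disjL Λ' → Λ = Λ' := by
    intro Λ Λ' h
    let g : Form V → List (Form V) := fun φ =>
      match φ with
      | .disj _ F => List.ofFn F
      | _ => []
    have h2 : List.ofFn Λ.get = List.ofFn Λ'.get := congrArg g h
    rwa [List.ofFn_get, List.ofFn_get] at h2
  have h3 : Function.Injective (lit : V × Bool → Form V) := by
    rintro ⟨v, b⟩ ⟨v', b'⟩ h
    cases b <;> cases b' <;> simp [lit] at h ⊢ <;> exact h
  intro C C' h
  exact List.map_injective_iff.2 h3 (h1 _ _ h)

private theorem TTTriv_card {V : Type} {Q : Type} [Fintype Q] [DecidableEq Q]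
    {R : Q → List (V × Bool) → Prop}
    (hR : ∀ D, ∃ A : Finset Q, A.card ≤ 2 ∧ ∀ q, R q D → q ∈ A)
    {D : Q → List (V × Bool)} (hD : ∀ q, R q (D q)) {P : Finset (Form V)}
    (hP : ∀ q, clause (D q) ∈ P) : Fintype.card Q ≤ 2 * P.card := by
  classical
  have h1 : (Finset.univ : Finset Q).card ≤
      2 * (Finset.univ.image fun q => clause (D q)).card := by
    refine Finset.card_le_mul_card_image _ 2 fun φ hφ => ?_
    obtain ⟨q0, -, rfl⟩ := Finset.mem_image.1 hφ
    obtain ⟨A, hA, hA'⟩ := hR (D q0)
    refine le_trans (Finset.card_le_card fun q hq => ?_) hA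
    rw [Finset.mem_filter] at hq
    have h2 : D q = D q0 := clause_injective hq.2
    exact hA' q (h2 ▸ hD q)
  have h2 : (Finset.univ.image fun q => clause (D q)).card ≤ P.card := by
    refine Finset.card_le_card fun φ hφ => ?_
    obtain ⟨q, -, rfl⟩ := Finset.mem_image.1 hφ
    exact hP q
  rw [Finset.card_univ] at h1
  omega

/-- TASK TTTriv (3). If every point `q : Q` needs a clause of its own, up to multiplicity 2, then
the size is at least half the number of points. `R q D` means that the clause `D` belongs to `q`.

PROOF. First case of `Refutes` (a derivation of `falsum` from the clauses): for every `q` some line is a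
`clause D`, `D ∈ F`, `R q D`: otherwise, for the `x` of `hx q`, all lines in `{φ | ∃ D ∈ F, φ = clause D}` are true (if
`L i = clause D`, `D ∈ F`, then `¬ R q D`, `eval_clause`), so by `sound_lines` all lines are true, but `falsum` is not.
(`falsum.eval p x ↔ ∃ i : Fin 0, ..`.) Choose `j q : Fin l` and `D q` with `L (j q) = clause (D q)`, `R q (D q)`. If
`j q = j q'` then `D q = D q'` (`clause_injective`), so the fibres of `j` have at most 2 elements (`hR`), and
`card Q ≤ 2 * l ≤ 2 * size L` (`Finset.card_le_mul_card_image` or `card_eq_sum_card_fiberwise`).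
Second case (a derivation of `.neg (cnf F)` from `∅`): for every `q` there is `D q ∈ F` with `R q (D q)`: otherwise
`x` of `hx q` satisfies all clauses, `(cnf F).eval p x` by `eval_cnf`, but `(.neg (cnf F)).eval p x` by `sound_lines`. The
formulas `clause (D q)` are subformulas of the line `.neg (cnf F)` (`Form.parts`; `cnf F = conjL (F.map clause)`), so
`q ↦ clause (D q)` maps into the finite set `{ψ | ∃ i, ψ ∈ (L i).parts}` (`parts_set_finite` in FGNum) with fibres of
at most 2 elements. -/
theorem card_le_size {V : Type} {p : ℕ} {S : Set Rule} (hS : ∀ R ∈ S, R.Sound p) {Q : Type}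
    [Fintype Q] [DecidableEq Q] {F : List (List (V × Bool))} {R : Q → List (V × Bool) → Prop}
    (hR : ∀ D, ∃ A : Finset Q, A.card ≤ 2 ∧ ∀ q, R q D → q ∈ A)
    (hx : ∀ q, ∃ x : V → Bool, ∀ D ∈ F, ¬ R q D → ∃ l ∈ D, x l.1 = l.2) {d l : ℕ}
    {L : Fin l → Form V} (hL : Refutes S d F L) : Fintype.card Q ≤ 2 * size L := by
  classical
  rcases hL with ⟨hL, i0, hi0⟩ | ⟨hL, i0, hi0⟩
  · have h1 : ∀ q, ∃ D, R q D ∧ ∃ j, L j = clause D := by
      intro q
      by_contra hcon
      push Not at hcon
      obtain ⟨x, hx'⟩ := hx q
      have h2 := sound_lines (p := p) hS hL (x := x) (fun i hi => by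
        obtain ⟨D, hD, hD'⟩ := hi
        rw [hD']
        exact (eval_clause p x D).2 (hx' D hD fun hR' => hcon D hR' i hD')) i0
      rw [hi0] at h2
      obtain ⟨i, -⟩ := h2
      exact i.elim0
    choose D hD j hj using h1
    have h2 := TTTriv_card hR hD (P := Finset.univ.image L) fun q => by
      rw [← hj q]
      exact Finset.mem_image_of_mem _ (Finset.mem_univ _)
    have h3 : (Finset.univ.image L).card ≤ l := by
      refine le_trans Finset.card_image_le ?_
      rw [Finset.card_univ, Fintype.card_fin]
    unfold size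
    omega
  · have h1 : ∀ q, ∃ D, R q D ∧ D ∈ F := by
      intro q
      by_contra hcon
      push Not at hcon
      obtain ⟨x, hx'⟩ := hx q
      have h2 := sound_lines (p := p) hS hL (x := x)
        (fun i hi => absurd hi (Set.notMem_empty _)) i0
      rw [hi0] at h2
      exact h2 ((eval_cnf p x F).2 fun D hD => hx' D hD fun hR' => hcon D hR' hD)
    choose D hD hF using h1
    have h2 := TTTriv_card hR hD (P := (parts_set_finite L).toFinset) fun q => by
      rw [Set.Finite.mem_toFinset]
      refine ⟨i0, ?_⟩
      rw [hi0]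
      refine Set.mem_insert_of_mem _ ?_
      obtain ⟨k, hk⟩ := List.get_of_mem
        (List.mem_map.2 ⟨D q, hF q, rfl⟩ : clause (D q) ∈ F.map clause)
      refine Set.mem_insert_of_mem _ (Set.mem_iUnion.2 ⟨k, ?_⟩)
      rw [hk]
      exact self_mem_parts _
    rw [← Set.ncard_eq_toFinset_card _ (parts_set_finite L)] at h2
    unfold size
    omega

end Pool.Agent.MP_9cec2c_lc.TT
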