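import Pool.Agent.Lib.MP_9cec2c_lc.TUSub

/-!
A derivation after a substitution, where the axioms are derived from other axioms.
-/

set_option autoImplicit false
set_option linter.unusedSectionVars false

namespace Pool.Agent.MP_9cec2c_lc.TU

open FG CE

variable {U V : Type}

/-- TASK TUAsm (1). A larger depth and more axioms. -/
theorem Lin_mono {S : Set Rule} {d d' : ℕ} {Φ Φ' : Set (Form V)} {Ls : List (Form V)}
    (h : Lin S d Φ Ls) (hd : d ≤ d') (hΦ : Φ ⊆ Φ') : Lin S d' Φ' Ls := by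
  induction h with
  | nil => exact Lin.nil
  | cons φ Ls h hdφ hr ih =>
    exact Lin.cons φ Ls ih (hdφ.trans hd) (hr.imp (fun h' => hΦ h') id)

/-- TASK TUAsm (2). The axioms used in `A` are derived in `B`.

PROOF. Induction on `hA`: if the new line `φ` of `A` is in `Ψ` then it is in `B`, and `C` stays the same; otherwise `φ`
is added to `C`. Start with `C = B`. -/
theorem Lin_cut {S : Set Rule} {d : ℕ} {Φ Ψ : Set (Form V)} {A B : List (Form V)}
    (hA : Lin S d Ψ A) (hB : Lin S d Φ B) (h : ∀ φ ∈ A, φ ∈ Ψ → φ ∈ B) :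
    ∃ C, Lin S d Φ C ∧ (∀ φ ∈ A, φ ∈ C) ∧ C.length ≤ A.length + B.length ∧
      ∀ φ ∈ C, φ ∈ A ∨ φ ∈ B := by
  have key : ∃ C, Lin S d Φ C ∧ (∀ φ ∈ A, φ ∈ C) ∧ C.length ≤ A.length + B.length ∧
      (∀ φ ∈ C, φ ∈ A ∨ φ ∈ B) ∧ ∀ φ ∈ B, φ ∈ C := by
    induction hA with
    | nil => exact ⟨B, hB, fun φ hφ => absurd hφ List.not_mem_nil, by simp, fun φ hφ => Or.inr hφ,
        fun φ hφ => hφ⟩
    | cons φ Ls hL hd hr ih =>
      obtain ⟨C, h1, h2, h3, h4, h5⟩ := ih fun ψ hψ => h ψ (List.mem_cons_of_mem _ hψ)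
      rcases hr with hr | ⟨R, hR, hr⟩
      · refine ⟨C, h1, fun ψ hψ => ?_, ?_, fun ψ hψ => ?_, h5⟩
        · rcases List.mem_cons.1 hψ with rfl | hψ
          · exact h5 _ (h _ List.mem_cons_self hr)
          · exact h2 ψ hψ
        · rw [List.length_cons]
          omega
        · exact (h4 ψ hψ).imp (List.mem_cons_of_mem _) id
      · refine ⟨φ :: C, Lin.cons φ C h1 hd (Or.inr ⟨R, hR, hr.mono fun ψ hψ => h2 ψ hψ⟩),
          fun ψ hψ => ?_, ?_, fun ψ hψ => ?_, fun ψ hψ => List.mem_cons_of_mem _ (h5 ψ hψ)⟩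
        · rcases List.mem_cons.1 hψ with rfl | hψ
          · exact List.mem_cons_self
          · exact List.mem_cons_of_mem _ (h2 ψ hψ)
        · rw [List.length_cons, List.length_cons]
          omega
        · rcases List.mem_cons.1 hψ with rfl | hψ
          · exact Or.inl List.mem_cons_self
          · exact (h4 ψ hψ).imp (List.mem_cons_of_mem _) id
  obtain ⟨C, h1, h2, h3, h4, -⟩ := key
  exact ⟨C, h1, h2, h3, h4⟩

/-- TASK TUAsm (3). Several derivations. -/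
theorem DN_collect {p P n : ℕ} {Φ : Set (Form V)} (Ts : List (Form V))
    (h : ∀ φ ∈ Ts, DN p P Φ n φ) :
    ∃ B, Lin (ceRules p) 3 Φ B ∧ (∀ φ ∈ Ts, φ ∈ B) ∧ B.length ≤ Ts.length * n ∧
      ∀ φ ∈ B, wt φ ≤ P := by
  induction Ts with
  | nil => exact ⟨[], Lin.nil, fun φ hφ => hφ, by simp, fun φ hφ => absurd hφ List.not_mem_nil⟩
  | cons ψ Ts ih =>
    obtain ⟨B, h1, h2, h3, h4⟩ := ih fun φ hφ => h φ (List.mem_cons_of_mem _ hφ)
    obtain ⟨Ls, g1, g2, g3, g4⟩ := h ψ List.mem_cons_self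
    refine ⟨Ls ++ B, g1.append h1, fun φ hφ => ?_, ?_, fun φ hφ => ?_⟩
    · rcases List.mem_cons.1 hφ with rfl | hφ
      · exact List.mem_append.2 (Or.inl g2)
      · exact List.mem_append.2 (Or.inr (h2 φ hφ))
    · rw [List.length_append, List.length_cons, Nat.add_mul, one_mul]
      omega
    · rcases List.mem_append.1 hφ with hφ | hφ
      · exact g4 φ hφ
      · exact h4 φ hφ

/-- TASK TUAsm (4). A refutation after a substitution.

PROOF. `Lin_subst` for the derivation of `falsum`, `DN_collect` for the list `axs.map (subst ψ)`, `Lin_mono` to depth `4`,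
`Lin_cut`, `subst_falsum`, `wt_subst`. -/
theorem main_subst {p P P' W n n' : ℕ} {ψ : U → Form V} (hψ : ∀ u, (ψ u).depth ≤ 1)
    (hW : ∀ u, wt (ψ u) ≤ W) (hW1 : 1 ≤ W) {Φ : Set (Form V)} {Ψ : Set (Form U)}
    (axs : List (Form U)) (haxs : ∀ φ ∈ Ψ, φ ∈ axs) (h : DN p P Ψ n falsum)
    (hax : ∀ φ ∈ axs, DN p P' Φ n' (subst ψ φ)) :
    ∃ Ls, Lin (ceRules p) 4 Φ Ls ∧ falsum ∈ Ls ∧ Ls.length ≤ n + axs.length * n' ∧
      ∀ φ ∈ Ls, wt φ ≤ P * W + P' := by
  obtain ⟨Ls, h1, h2, h3, h4⟩ := h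
  have h5 : Lin (ceRules p) 4 (subst ψ '' Ψ) (Ls.map (subst ψ)) := Lin_subst h1 hψ
  obtain ⟨B, b1, b2, b3, b4⟩ := DN_collect (Φ := Φ) (axs.map (subst ψ)) (by
    intro φ hφ
    obtain ⟨χ, hχ, rfl⟩ := List.mem_map.1 hφ
    exact hax χ hχ)
  have b5 : Lin (ceRules p) 4 Φ B := Lin_mono b1 (by norm_num) subset_rfl
  obtain ⟨C, c1, c2, c3, c4⟩ := Lin_cut h5 b5 (by
    rintro φ - ⟨χ, hχ, rfl⟩
    exact b2 _ (List.mem_map.2 ⟨χ, haxs χ hχ, rfl⟩))
  refine ⟨C, c1, ?_, ?_, fun φ hφ => ?_⟩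
  · refine c2 _ (List.mem_map.2 ⟨falsum, h2, subst_falsum ψ⟩)
  · rw [List.length_map] at c3 b3
    omega
  · rcases c4 φ hφ with h6 | h6
    · obtain ⟨χ, hχ, rfl⟩ := List.mem_map.1 h6
      exact ((wt_subst hW hW1 χ).trans (Nat.mul_le_mul_right W (h4 χ hχ))).trans
        (Nat.le_add_right _ _)
    · exact (b4 φ h6).trans (Nat.le_add_left _ _)

/-- The axiom scheme `¬ φ₁ ∨ ... ∨ ¬ φ_k ∨ (φ₁ ∧ ... ∧ φ_k)`. -/
def kN : Rule := ⟨[], orS [.neg (g 0), andS [g 0]]⟩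

/-- TASK TUAsm (5). `snd0`, as in the proof of `ceRules_sound`. -/
theorem kN_sound (p : ℕ) : kN.Sound p := by
  refine snd0 fun V σ τ x => ?_
  simp only [inst_orS, inst_andS, List.flatMap_cons, List.flatMap_nil, i_list, i_neg,
    List.mem_singleton, forall_eq, eval_disjL, List.mem_append, List.append_nil]
  by_cases h : ∀ φ ∈ τ 0, φ.eval p x
  · exact ⟨_, Or.inr rfl, (eval_conjL x _).2 h⟩
  · push Not at h
    obtain ⟨φ, hφ, h1⟩ := h
    exact ⟨.neg φ, Or.inl (List.mem_map.2 ⟨φ, hφ, rfl⟩), h1⟩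

/-- The instances. -/
def kNs (V : Type) : Set (Form V) := {φ | ∃ Λ : List (Form V), φ = disjL (Λ.map .neg ++ [conjL Λ])}

/-- TASK TUAsm (6). The instances of the axiom scheme are lines of a derivation. Induction on `h`. -/
theorem Lin_kN {S : Set Rule} {d : ℕ} {Φ : Set (Form V)} {Ls : List (Form V)}
    (h : Lin S d (Φ ∪ kNs V) Ls) : Lin (insert kN S) d Φ Ls := by
  induction h with
  | nil => exact Lin.nil
  | cons φ Ls h hd hr ih =>
    refine Lin.cons φ Ls ih hd ?_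
    rcases hr with (hr | ⟨Λ, hr⟩) | ⟨R, hR, hr⟩
    · exact Or.inl hr
    · refine Or.inr ⟨kN, Set.mem_insert _ _, fun _ => falsum, fun _ => Λ,
        fun P hP => absurd hP List.not_mem_nil, ?_⟩
      rw [hr]
      show (orS [.neg (g 0), andS [g 0]]).inst _ _ = _
      rw [inst_orS]
      simp only [List.flatMap_cons, List.flatMap_nil, i_neg, i_list, inst_andS, List.append_nil]
    · exact Or.inr ⟨R, Set.mem_insert_of_mem _ hR, hr⟩

/-- TASK TUAsm (7). From lists to sequences, as in `CE.DN.exists` (copy the proof). -/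
theorem Lin_exists {S : Set Rule} {d P n : ℕ} {Φ : Set (Form V)} {φ : Form V}
    {Ls : List (Form V)} (h : Lin S d Φ Ls) (hφ : φ ∈ Ls) (hn : Ls.length ≤ n)
    (hP : ∀ ψ ∈ Ls, wt ψ ≤ P) :
    ∃ (l : ℕ) (L : Fin l → Form V), (IsDerivation S d Φ L ∧ ∃ i, L i = φ) ∧
      size L ≤ n * (P + 1) := by
  refine ⟨Ls.length, fun i => Ls.get i.rev, ⟨fun i => ?_, ?_⟩, ?_⟩
  · obtain ⟨h3, h4⟩ := h.get i.rev
    refine ⟨h3, ?_⟩
    rcases h4 with h4 | ⟨R, hR, h4⟩
    · exact Or.inl h4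
    · refine Or.inr ⟨R, hR, h4.mono ?_⟩
      rintro ψ ⟨j, hj, hj'⟩
      refine ⟨j.rev, Fin.rev_lt_iff.1 hj, ?_⟩
      show Ls.get (Fin.rev (Fin.rev j)) = ψ
      rw [Fin.rev_rev]
      exact hj'
  · obtain ⟨i, hi⟩ := List.get_of_mem hφ
    refine ⟨i.rev, ?_⟩
    show Ls.get (Fin.rev (Fin.rev i)) = φ
    rw [Fin.rev_rev]
    exact hi
  · unfold size
    have h5 : {ψ | ∃ i : Fin Ls.length, ψ ∈ (Ls.get i.rev).parts} =
        ⋃ i : Fin Ls.length, (Ls.get i.rev).parts := by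
      ext ψ
      simp
    rw [h5]
    have h6 := ncard_iUnion_le (fun i : Fin Ls.length => Ls.get i.rev) fun i => parts_le_wt _
    have h7 : ∑ i : Fin Ls.length, wt (Ls.get i.rev) ≤ Ls.length * P := by
      have := Finset.sum_le_card_nsmul Finset.univ (fun i : Fin Ls.length => wt (Ls.get i.rev)) P
        fun i _ => hP _ (List.get_mem Ls _)
      simpa using this
    calc Ls.length + (⋃ i : Fin Ls.length, (Ls.get i.rev).parts).ncard ≤
          Ls.length + Ls.length * P := Nat.add_le_add_left (h6.trans h7) _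
      _ = Ls.length * (P + 1) := by ring
      _ ≤ n * (P + 1) := Nat.mul_le_mul_right _ hn

end Pool.Agent.MP_9cec2c_lc.TU
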