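import Pool.Agent.Lib.MP_9cec2c_lc.TUAsm

/-!
Local derivations: the clauses of a partition principle after the substitution of conjunctions of
variables for the variables.
-/

set_option autoImplicit false
set_option linter.unusedSectionVars false

namespace Pool.Agent.MP_9cec2c_lc.TU

open FG CE

/-- TASK TULoc (1). Weakening and exchange.

PROOF. `CE.elim` with `Δ = Λ`: for `φ ∈ Λ`, `φ ∈ Γ` the formula `disjL (.neg φ :: Γ)` is an instance of `CE.r_em`
(`List.append_of_mem`). `ok_disj` for all side conditions. -/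
theorem d_sub {V : Type} {p P n : ℕ} {Φ : Set (Form V)} {Λ Γ : List (Form V)}
    (h : DN p P Φ n (disjL Λ)) (hs : ∀ φ ∈ Λ, φ ∈ Γ) (hd : ∀ φ ∈ Γ, φ.depth ≤ 2)
    (hw : wtL Λ + wtL Γ + 2 ≤ P) : DN p P Φ (n + 1 + Λ.length * 2) (disjL Γ) := by
  have hwt : ∀ φ ∈ Λ, wt φ ≤ wtL Λ := by
    intro φ hφ
    obtain ⟨L₁, L₂, hL⟩ := List.append_of_mem hφ
    rw [hL, wtL_append, wtL_cons]
    omega
  refine elim (m := 1) h (fun φ hφ => ?_) (ok_disj ?_ ?_)
  · have hok : Ok P (disjL (.neg φ :: Γ)) := by
      refine ok_disj ?_ ?_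
      · intro ψ hψ
        rcases List.mem_cons.1 hψ with rfl | hψ
        · exact dp_neg (hd φ (hs φ hφ))
        · exact hd ψ hψ
      · rw [wtL_cons, wt_neg]
        have := hwt φ hφ
        omega
    obtain ⟨L₁, L₂, hL⟩ := List.append_of_mem (hs φ hφ)
    rw [hL] at hok ⊢
    exact r_em hok
  · intro φ hφ
    rcases List.mem_append.1 hφ with hφ | hφ
    · exact hd φ (hs φ hφ)
    · exact hd φ hφ
  · rw [wtL_append]
    omega

variable {E : Type} [DecidableEq E] {r : ℕ}

/-- The cost of the distinction of the values of `k` edges. -/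
def costB (r m : ℕ) : ℕ → ℕ
  | 0 => m
  | k + 1 => 2 + r * (costB r m k + 1)

/-- TASK TULoc (2). Distinction of the values of some edges.

PROOF. Induction on `I`, for all `Γ`. `I = []`: `h` with `Δ = Γ`. `I = e :: I'`: `CE.elim` with the clause of `hval e` (as
`DN.ax`, one line), where for `c ∈ D` the formula `disjL (.neg (.var (e, c)) :: Γ)` is derived by the induction hypothesis
for `Γ' = .neg (.var (e, c)) :: Γ`; its hypothesis for `α`, `Δ` is `h` for `Function.update α e c`, `Δ` (`e ∉ I'`). Side
conditions: `ok_disj`; `wt (.neg (.var _)) = 2`, `wtL (D.map ..) = D.length` (as in `CE.wtL_vars`). -/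
theorem d_branch {p P m W : ℕ} {Φ : Set (Form (E × ZMod r))} (I : List E) (hI : I.Nodup)
    (hval : ∀ e ∈ I, ∃ D : List (ZMod r), D.length ≤ r ∧
      disjL (D.map fun c => Form.var (e, c)) ∈ Φ) (Γ : List (Form (E × ZMod r)))
    (hd : ∀ φ ∈ Γ, φ.depth ≤ 1) (hw : wtL Γ + 2 * I.length ≤ W) (hP : W + r + 3 ≤ P)
    (h : ∀ (α : E → ZMod r) (Δ : List (Form (E × ZMod r))),
      (∀ e ∈ I, Form.neg (.var (e, α e)) ∈ Δ) → (∀ φ ∈ Γ, φ ∈ Δ) → (∀ φ ∈ Δ, φ.depth ≤ 1) →
        wtL Δ ≤ W → DN p P Φ m (disjL Δ)) :
    DN p P Φ (costB r m I.length) (disjL Γ) := by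
  induction I generalizing Γ with
  | nil =>
    refine h (fun _ => 0) Γ (fun e he => absurd he List.not_mem_nil) (fun φ hφ => hφ) hd ?_
    omega
  | cons e I ih =>
    rw [List.length_cons] at hw ⊢
    obtain ⟨D, hD1, hD2⟩ := hval e List.mem_cons_self
    have hwD : wtL (D.map fun c => Form.var (e, c)) = D.length := by
      have : ∀ D : List (ZMod r), wtL (D.map fun c => Form.var (e, c)) = D.length := by
        intro D
        induction D with
        | nil => rfl
        | cons c D ih =>
          rw [List.map_cons, wtL_cons, ih, List.length_cons]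
          show 1 + D.length = D.length + 1
          omega
      exact this D
    have hdD : ∀ φ ∈ D.map fun c => Form.var (e, c), φ.depth ≤ 2 := by
      intro φ hφ
      obtain ⟨c, -, rfl⟩ := List.mem_map.1 hφ
      exact Nat.zero_le 2
    have hok : Ok P (disjL (D.map fun c => Form.var (e, c))) :=
      ok_disj hdD (by rw [hwD]; omega)
    have h1 := elim (p := p) (m := costB r m I.length) (Γ := Γ) (DN.ax hD2 hok)
      (fun φ hφ => ?_) (ok_disj ?_ ?_)
    · refine h1.mono ?_
      rw [List.length_map]
      have h2 : D.length * (costB r m I.length + 1) ≤ r * (costB r m I.length + 1) :=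
        Nat.mul_le_mul_right _ hD1
      show _ ≤ 2 + r * (costB r m I.length + 1)
      omega
    · obtain ⟨c, -, rfl⟩ := List.mem_map.1 hφ
      refine ih (List.nodup_cons.1 hI).2 (fun e' he' => hval e' (List.mem_cons_of_mem _ he')) _
        ?_ ?_ ?_
      · intro ψ hψ
        rcases List.mem_cons.1 hψ with rfl | hψ
        · exact Nat.zero_le 1
        · exact hd ψ hψ
      · rw [wtL_cons, wt_neg]
        show 1 + 1 + wtL Γ + 2 * I.length ≤ W
        omega
      · intro α Δ h1 h2 h3 h4
        refine h (Function.update α e c) Δ ?_ (fun φ hφ => h2 φ (List.mem_cons_of_mem _ hφ)) h3 h4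
        intro e' he'
        by_cases hee : e' = e
        · subst hee
          rw [Function.update_self]
          exact h2 _ List.mem_cons_self
        · rw [Function.update_of_ne hee]
          rcases List.mem_cons.1 he' with h5 | h5
          · exact absurd h5 hee
          · exact h1 e' h5
    · intro φ hφ
      rcases List.mem_append.1 hφ with hφ | hφ
      · exact hdD φ hφ
      · exact (hd φ hφ).trans (by omega)
    · rw [wtL_append, hwD]
      omega

end Pool.Agent.MP_9cec2c_lc.TU
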