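import Pool.Agent.Lib.MP_9cec2c_lc.TULoc

/-!
Local derivations: the clauses of a partition principle after the substitution of conjunctions of
variables for the variables.
-/

set_option autoImplicit false
set_option linter.unusedSectionVars false

namespace Pool.Agent.MP_9cec2c_lc.TU

open FG CE

variable {E : Type} [DecidableEq E] {r : ℕ}

/-- The formulas which are substituted for the variables. -/
def psi {X U : Type} (lits : U → List X) (u : U) : Form X := conjL ((lits u).map Form.var)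

private theorem TULoc2_dp {X U : Type} (lits : U → List X) (u : U) :
    (psi lits u).depth ≤ 1 := by
  unfold psi
  refine dp_conj (e := 0) fun φ hφ => ?_
  obtain ⟨v, -, rfl⟩ := List.mem_map.1 hφ
  exact le_rfl

private theorem TULoc2_wt {X U : Type} (lits : U → List X) (u : U) :
    wt (psi lits u) = (lits u).length + 1 := by
  unfold psi
  rw [wt_conjL]
  have : ∀ D : List X, wtL (D.map Form.var) = D.length := by
    intro D
    induction D with
    | nil => rfl
    | cons v D ih =>
      rw [List.map_cons, wtL_cons, ih, List.length_cons]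
      show 1 + D.length = D.length + 1
      omega
  rw [this]

private theorem TULoc2_cost {r : ℕ} (hr : 1 ≤ r) (m : ℕ) {k l : ℕ} (h : k ≤ l) :
    costB r m k ≤ costB r m l := by
  induction l with
  | zero =>
    rw [Nat.le_zero.1 h]
  | succ l ih =>
    rcases Nat.lt_or_ge k (l + 1) with h1 | h1
    · refine (ih (by omega)).trans ?_
      have h2 : 1 * (costB r m l + 1) ≤ r * (costB r m l + 1) := Nat.mul_le_mul_right _ hr
      show _ ≤ 2 + r * (costB r m l + 1)
      omega
    · rw [show k = l + 1 by omega]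

/-- TASK TULoc2 (1). The pairs. `CE.r_pr`, after `CE.r_sw` in the second case (2 lines more); `List.append_of_mem`. -/
theorem d_pr {U : Type} {lits : U → List (E × ZMod r)} {p P : ℕ} {Φ : Set (Form (E × ZMod r))}
    (hpair : ∀ e, ∀ a a' : ZMod r, a ≠ a' →
      disjL [.neg (.var (e, a)), .neg (.var (e, a'))] ∈ Φ ∨
      disjL [.neg (.var (e, a')), .neg (.var (e, a))] ∈ Φ) {u u' : U} {e : E} {a a' : ZMod r}
    (haa : a ≠ a') (hu : (e, a) ∈ lits u) (hu' : (e, a') ∈ lits u')
    (hP : (lits u).length + (lits u').length + 10 ≤ P) :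
    DN p P Φ 3 (disjL [.neg (psi lits u), .neg (psi lits u')]) := by
  have hdv : ∀ a a' : ZMod r, Ok P
      (disjL [Form.neg (.var (e, a)), Form.neg (.var (e, a'))] : Form (E × ZMod r)) := by
    intro a a'
    refine ok_disj ?_ ?_
    · intro φ hφ
      simp only [List.mem_cons, List.not_mem_nil, or_false] at hφ
      rcases hφ with rfl | rfl
      · exact Nat.zero_le 2
      · exact Nat.zero_le 2
    · rw [wtL_cons, wtL_cons, wtL_nil, wt_neg, wt_neg]
      show 1 + 1 + (1 + 1 + 0) + 1 ≤ P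
      omega
  have h1 : DN p P Φ 2 (disjL [.neg (.var (e, a)), .neg (.var (e, a'))]) := by
    rcases hpair e a a' haa with h | h
    · exact (DN.ax h (hdv a a')).mono (by omega)
    · exact r_sw (DN.ax h (hdv a' a)) (hdv a a')
  have hok : Ok P (disjL [Form.neg (psi lits u), Form.neg (psi lits u')]) := by
    refine ok_disj ?_ ?_
    · intro φ hφ
      simp only [List.mem_cons, List.not_mem_nil, or_false] at hφ
      rcases hφ with rfl | rfl
      · exact dp_neg ((TULoc2_dp lits u).trans (by omega))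
      · exact dp_neg ((TULoc2_dp lits u').trans (by omega))
    · rw [wtL_cons, wtL_cons, wtL_nil, wt_neg, wt_neg, TULoc2_wt, TULoc2_wt]
      omega
  obtain ⟨L₁, L₂, hL⟩ := List.append_of_mem hu
  obtain ⟨L₁', L₂', hL'⟩ := List.append_of_mem hu'
  have e1 : psi lits u = conjL (L₁.map Form.var ++ Form.var (e, a) :: L₂.map Form.var) := by
    unfold psi
    rw [hL, List.map_append, List.map_cons]
  have e2 : psi lits u' = conjL (L₁'.map Form.var ++ Form.var (e, a') :: L₂'.map Form.var) := by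
    unfold psi
    rw [hL', List.map_append, List.map_cons]
  rw [e1, e2] at hok ⊢
  exact r_pr h1 hok

/-- TASK TULoc2 (2). The points.

PROOF. `d_branch` with `Γ = D.map (psi lits)`, `m = 1 + 1 + (b + 1) * 2` and `W = wtL Γ + 2 * b`. For `α`, `Δ` use `hB α`:
in the first case `d_sub` for the axiom `disjL Λ`; in the second case `d_sub` for the axiom
`disjL (((lits u).map .var).map .neg ++ [psi lits u])`, which is in `kNs`; all its members are in `Δ`. -/
theorem d_pt (hr : 1 ≤ r) {U : Type} {lits : U → List (E × ZMod r)} {p P b w : ℕ}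
    {Φ : Set (Form (E × ZMod r))} (hkN : kNs (E × ZMod r) ⊆ Φ) (I : List E) (hI : I.Nodup)
    (hIb : I.length ≤ b)
    (hval : ∀ e ∈ I, ∃ D : List (ZMod r), D.length ≤ r ∧
      disjL (D.map fun c => Form.var (e, c)) ∈ Φ)
    (D : List U) (hlen : ∀ u ∈ D, (lits u).length ≤ b) (hD : D.length ≤ w)
    (hB : ∀ α : E → ZMod r,
      (∃ Λ : List (Form (E × ZMod r)), disjL Λ ∈ Φ ∧ Λ.length ≤ b ∧
        ∀ φ ∈ Λ, ∃ e ∈ I, φ = .neg (.var (e, α e))) ∨
      ∃ u ∈ D, ∀ l ∈ lits u, l.1 ∈ I ∧ l.2 = α l.1)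
    (hP : w * (b + 1) + 6 * b + r + 10 ≤ P) :
    DN p P Φ (costB r (2 + (b + 1) * 2) b) (disjL (D.map (psi lits))) := by
  have hwG : wtL (D.map (psi lits)) ≤ w * (b + 1) := by
    refine (wtL_le (w := b + 1) fun φ hφ => ?_).trans ?_
    · obtain ⟨u, hu, rfl⟩ := List.mem_map.1 hφ
      rw [TULoc2_wt]
      have := hlen u hu
      omega
    · rw [List.length_map]
      exact Nat.mul_le_mul_right _ hD
  have hdG : ∀ φ ∈ D.map (psi lits), φ.depth ≤ 1 := by
    intro φ hφ
    obtain ⟨u, -, rfl⟩ := List.mem_map.1 hφ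
    exact TULoc2_dp lits u
  refine (d_branch (m := 2 + (b + 1) * 2) (W := wtL (D.map (psi lits)) + 2 * b) I hI hval
    (D.map (psi lits)) hdG (by omega) (by omega) ?_).mono (TULoc2_cost hr _ hIb)
  intro α Δ h1 h2 h3 h4
  have h3' : ∀ φ ∈ Δ, φ.depth ≤ 2 := fun φ hφ => (h3 φ hφ).trans (by omega)
  rcases hB α with ⟨Λ, hΛ, hΛb, hΛ2⟩ | ⟨u, hu, hu2⟩
  · have hwΛ : wtL Λ ≤ 2 * b := by
      refine (wtL_le (w := 2) fun φ hφ => ?_).trans (by omega)
      obtain ⟨e, -, rfl⟩ := hΛ2 φ hφ
      exact le_of_eq rfl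
    have hΛd : ∀ φ ∈ Λ, φ ∈ Δ := by
      intro φ hφ
      obtain ⟨e, he, rfl⟩ := hΛ2 φ hφ
      exact h1 e he
    have hok : Ok P (disjL Λ) := ok_disj (fun φ hφ => h3' φ (hΛd φ hφ)) (by omega)
    exact (d_sub (DN.ax hΛ hok) hΛd h3' (by omega)).mono (by omega)
  · obtain ⟨Λ, hΛ⟩ : ∃ Λ : List (Form (E × ZMod r)),
        Λ = ((lits u).map Form.var).map .neg ++ [psi lits u] := ⟨_, rfl⟩
    have hΛΦ : disjL Λ ∈ Φ := hkN ⟨(lits u).map Form.var, by rw [hΛ]; rfl⟩
    have hlu := hlen u hu
    have hwΛ : wtL Λ ≤ 3 * b + 1 := by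
      rw [hΛ, wtL_append, wtL_cons, wtL_nil, TULoc2_wt]
      have h5 : wtL (((lits u).map Form.var).map Form.neg) ≤
          (((lits u).map Form.var).map Form.neg).length * 2 := wtL_le fun φ hφ => by
        obtain ⟨ψ, hψ, rfl⟩ := List.mem_map.1 hφ
        obtain ⟨l, -, rfl⟩ := List.mem_map.1 hψ
        exact le_of_eq rfl
      rw [List.length_map, List.length_map] at h5
      omega
    have hΛl : Λ.length ≤ b + 1 := by
      rw [hΛ, List.length_append, List.length_map, List.length_map, List.length_singleton]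
      omega
    have hΛd : ∀ φ ∈ Λ, φ ∈ Δ := by
      intro φ hφ
      rw [hΛ] at hφ
      rcases List.mem_append.1 hφ with hφ | hφ
      · obtain ⟨ψ, hψ, rfl⟩ := List.mem_map.1 hφ
        obtain ⟨l, hl, rfl⟩ := List.mem_map.1 hψ
        obtain ⟨h5, h6⟩ := hu2 l hl
        have h7 := h1 l.1 h5
        rw [← h6] at h7
        exact h7
      · rw [List.mem_singleton.1 hφ]
        exact h2 _ (List.mem_map.2 ⟨u, hu, rfl⟩)
    have hok : Ok P (disjL Λ) := ok_disj (fun φ hφ => h3' φ (hΛd φ hφ)) (by omega)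
    exact (d_sub (DN.ax hΛΦ hok) hΛd h3' (by omega)).mono (by omega)

end Pool.Agent.MP_9cec2c_lc.TU
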