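import Pool.Agent.Lib.MP_9cec2c_lc.CEFinal

/-!
The substitution of formulas for the variables of a derivation.
-/

set_option autoImplicit false
set_option linter.unusedSectionVars false

namespace Pool.Agent.MP_9cec2c_lc.TU

open FG CE

variable {U V : Type}

/-- The substitution of formulas for the variables. -/
def subst (ψ : U → Form V) : Form U → Form V
  | .var u => ψ u
  | .neg φ => .neg (subst ψ φ)
  | .conj m F => .conj m fun i => subst ψ (F i)
  | .disj m F => .disj m fun i => subst ψ (F i)
  | .count r m F => .count r m fun i => subst ψ (F i)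

private theorem TUSub_ofFn {A B : Type} (f : A → B) (Λ : List A) :
    (List.ofFn fun i => f (Λ.get i)) = Λ.map f := by
  conv_rhs => rw [← List.ofFn_get Λ, List.map_ofFn]
  rfl

/-- TASK TUSub (1). -/
theorem subst_conjL (ψ : U → Form V) (Λ : List (Form U)) :
    subst ψ (conjL Λ) = conjL (Λ.map (subst ψ)) := by
  have h : subst ψ (conjL Λ) = .conj Λ.length fun i => subst ψ (Λ.get i) := rfl
  rw [h, conj_eq, TUSub_ofFn]

/-- TASK TUSub (2). -/
theorem subst_disjL (ψ : U → Form V) (Λ : List (Form U)) :
    subst ψ (disjL Λ) = disjL (Λ.map (subst ψ)) := by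
  have h : subst ψ (disjL Λ) = .disj Λ.length fun i => subst ψ (Λ.get i) := rfl
  rw [h, disj_eq, TUSub_ofFn]

/-- TASK TUSub (3). -/
theorem subst_countL (ψ : U → Form V) (r : ℕ) (Λ : List (Form U)) :
    subst ψ (countL r Λ) = countL r (Λ.map (subst ψ)) := by
  have h : subst ψ (countL r Λ) = .count r Λ.length fun i => subst ψ (Λ.get i) := rfl
  rw [h, count_eq, TUSub_ofFn]

/-- TASK TUSub (4). -/
theorem subst_falsum (ψ : U → Form V) : subst ψ falsum = falsum := by
  unfold falsum
  simp only [subst]
  congr 1
  funext i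
  exact i.elim0

/-- TASK TUSub (5). Instances of schemes. Induction on `P`, with `subst_conjL` etc. -/
theorem subst_inst (ψ : U → Form V) (σ : ℕ → Form U) (τ : ℕ → List (Form U)) (P : Scheme) :
    P.inst (fun i => subst ψ (σ i)) (fun i => (τ i).map (subst ψ)) =
      (P.inst σ τ).map (subst ψ) := by
  induction P with
  | form i => rfl
  | list i => rfl
  | neg P ih =>
    simp only [Scheme.inst, ih, List.map_map]
    rfl
  | conj m P ih =>
    simp only [Scheme.inst, ih, List.map_cons, List.map_nil, subst_conjL, List.map_flatMap]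
  | disj m P ih =>
    simp only [Scheme.inst, ih, List.map_cons, List.map_nil, subst_disjL, List.map_flatMap]
  | count r m P ih =>
    simp only [Scheme.inst, ih, List.map_cons, List.map_nil, subst_countL, List.map_flatMap]

private theorem TUSub_isConj {ψ : U → Form V} {φ : Form U} (h : φ.IsConj) :
    (subst ψ φ).IsConj := by
  cases φ <;> first | exact False.elim h | exact trivial

private theorem TUSub_isDisj {ψ : U → Form V} {φ : Form U} (h : φ.IsDisj) :
    (subst ψ φ).IsDisj := by
  cases φ <;> first | exact False.elim h | exact trivial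

/-- TASK TUSub (6). The depth. Induction on `φ` (`Form.depth` is defined with a classical
`if (F i).IsConj then 0 else 1`: if `F i` is a conjunction then so is `subst ψ (F i)`). -/
theorem depth_subst {ψ : U → Form V} {e : ℕ} (hψ : ∀ u, (ψ u).depth ≤ e) (φ : Form U) :
    (subst ψ φ).depth ≤ φ.depth + e := by
  classical
  induction φ with
  | var u =>
    simp only [subst, Form.depth]
    exact (hψ u).trans (Nat.le_add_left _ _)
  | neg φ ih =>
    simp only [subst, Form.depth]
    exact ih
  | conj m F ih =>
    have h0 : (subst ψ (.conj m F)).depth = Finset.univ.sup fun i =>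
      (subst ψ (F i)).depth + if (subst ψ (F i)).IsConj then 0 else 1 := rfl
    rw [h0]
    refine Finset.sup_le fun i _ => ?_
    have h1 : (F i).depth + (if (F i).IsConj then 0 else 1) ≤ (Form.conj m F).depth :=
      Finset.le_sup (f := fun i => (F i).depth + if (F i).IsConj then 0 else 1)
        (Finset.mem_univ i)
    have h2 := ih i
    by_cases h3 : (F i).IsConj
    · rw [if_pos h3] at h1
      rw [if_pos (TUSub_isConj h3)]
      omega
    · rw [if_neg h3] at h1
      split_ifs <;> omega
  | disj m F ih =>
    have h0 : (subst ψ (.disj m F)).depth = Finset.univ.sup fun i =>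
      (subst ψ (F i)).depth + if (subst ψ (F i)).IsDisj then 0 else 1 := rfl
    rw [h0]
    refine Finset.sup_le fun i _ => ?_
    have h1 : (F i).depth + (if (F i).IsDisj then 0 else 1) ≤ (Form.disj m F).depth :=
      Finset.le_sup (f := fun i => (F i).depth + if (F i).IsDisj then 0 else 1)
        (Finset.mem_univ i)
    have h2 := ih i
    by_cases h3 : (F i).IsDisj
    · rw [if_pos h3] at h1
      rw [if_pos (TUSub_isDisj h3)]
      omega
    · rw [if_neg h3] at h1
      split_ifs <;> omega
  | count r m F ih =>
    have h0 : (subst ψ (.count r m F)).depth = Finset.univ.sup fun i =>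
      (subst ψ (F i)).depth + 1 := rfl
    rw [h0]
    refine Finset.sup_le fun i _ => ?_
    have h1 : (F i).depth + 1 ≤ (Form.count r m F).depth :=
      Finset.le_sup (f := fun i => (F i).depth + 1) (Finset.mem_univ i)
    have h2 := ih i
    omega

/-- TASK TUSub (7). The number of nodes. -/
theorem wt_subst {ψ : U → Form V} {W : ℕ} (hψ : ∀ u, wt (ψ u) ≤ W) (hW : 1 ≤ W) (φ : Form U) :
    wt (subst ψ φ) ≤ wt φ * W := by
  have key : ∀ (m : ℕ) (F : Fin m → Form U), (∀ i, wt (subst ψ (F i)) ≤ wt (F i) * W) →
      (∑ i, wt (subst ψ (F i))) + 1 ≤ ((∑ i, wt (F i)) + 1) * W := by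
    intro m F h
    have h1 := Finset.sum_le_sum fun i (_ : i ∈ Finset.univ) => h i
    rw [← Finset.sum_mul] at h1
    rw [add_mul, one_mul]
    omega
  induction φ with
  | var u =>
    simp only [subst, wt, one_mul]
    exact hψ u
  | neg φ ih =>
    simp only [subst, wt]
    rw [add_mul, one_mul]
    omega
  | conj m F ih => exact key m F ih
  | disj m F ih => exact key m F ih
  | count r m F ih => exact key m F ih

/-- TASK TUSub (8). Derivations. Induction on `h`; `Rule.Derives` with `subst_inst`. -/
theorem Lin_subst {S : Set Rule} {d e : ℕ} {Φ : Set (Form U)} {Ls : List (Form U)}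
    (h : Lin S d Φ Ls) {ψ : U → Form V} (hψ : ∀ u, (ψ u).depth ≤ e) :
    Lin S (d + e) (subst ψ '' Φ) (Ls.map (subst ψ)) := by
  induction h with
  | nil => exact Lin.nil
  | cons φ Ls h hd hr ih =>
    rw [List.map_cons]
    refine Lin.cons _ _ ih ((depth_subst hψ φ).trans (Nat.add_le_add_right hd e)) ?_
    rcases hr with hr | ⟨R, hR, σ, τ, h1, h2⟩
    · exact Or.inl ⟨φ, hr, rfl⟩
    · refine Or.inr ⟨R, hR, fun i => subst ψ (σ i), fun i => (τ i).map (subst ψ), ?_, ?_⟩
      · intro P hP χ hχ
        rw [subst_inst] at hχ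
        obtain ⟨χ', hχ', rfl⟩ := List.mem_map.1 hχ
        exact List.mem_map.2 ⟨χ', h1 P hP χ' hχ', rfl⟩
      · rw [subst_inst, h2]
        rfl

end Pool.Agent.MP_9cec2c_lc.TU
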