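import Pool.Agent.Lib.MP_9cec2c_lc.TTChain

/-!
Brambles: in a tree decomposition some bag meets all sets of a family of connected sets, any two of
which have a common vertex.
-/

set_option autoImplicit false
set_option linter.unusedSectionVars false

namespace Pool.Agent.MP_9cec2c_lc.TT

open Finset

section tree

variable {I : Type} {par : I → Option I} {rank : I → ℕ}

/-- One step up inside the set of nodes `T`. -/
def Up (par : I → Option I) (T : I → Prop) (x y : I) : Prop := par x = some y ∧ T y

/-- The node `y` is reached from `x` by going up inside `T` as long as possible. -/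
def Top (par : I → Option I) (T : I → Prop) (x y : I) : Prop :=
  Relation.ReflTransGen (Up par T) x y ∧ ∀ z, par y = some z → ¬ T z

/-- TASK TVBram (1). Induction on `rank x`: if `par x = some z` with `T z` then continue with `z`, otherwise `y = x`. -/
theorem exists_top (hr : ∀ i j, par i = some j → rank j < rank i) {T : I → Prop} (x : I)
    (hx : T x) : ∃ y, Top par T x y ∧ T y := by
  induction hn : rank x using Nat.strong_induction_on generalizing x with
  | _ n ih =>
    by_cases h : ∃ z, par x = some z ∧ T z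
    · obtain ⟨z, hz, hT⟩ := h
      obtain ⟨y, hy, hTy⟩ := ih (rank z) (hn ▸ hr x z hz) z hT rfl
      exact ⟨y, ⟨Relation.ReflTransGen.head ⟨hz, hT⟩ hy.1, hy.2⟩, hTy⟩
    · exact ⟨x, ⟨Relation.ReflTransGen.refl, fun z hz hT => h ⟨z, hz, hT⟩⟩, hx⟩

/-- TASK TVBram (2). Going up is deterministic. Induction on the first path (`Relation.ReflTransGen.head_induction_on`). -/
theorem top_unique {T : I → Prop} {x y z : I} (h : Top par T x y) (h' : Top par T x z) :
    y = z := by
  obtain ⟨h1, h2⟩ := h
  obtain ⟨h3, h4⟩ := h'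
  induction h1 using Relation.ReflTransGen.head_induction_on with
  | refl =>
    rcases Relation.ReflTransGen.cases_head h3 with h5 | ⟨c, h5, _⟩
    · exact h5
    · exact absurd h5.2 (h2 c h5.1)
  | @head a c h5 _ ih =>
    rcases Relation.ReflTransGen.cases_head h3 with h6 | ⟨d, h6, h7⟩
    · subst h6
      exact absurd h5.2 (h4 c h5.1)
    · have h8 : c = d := Option.some.inj (h5.1.symm.trans h6.1)
      subst h8
      exact ih h7

/-- Going up does not increase the rank. -/
private theorem TVBram_rank_le (hr : ∀ i j, par i = some j → rank j < rank i) {T : I → Prop}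
    {x y : I} (h : Relation.ReflTransGen (Up par T) x y) : rank y ≤ rank x := by
  induction h with
  | refl => exact le_rfl
  | @tail b c _ h1 ih => exact (hr b c h1.1).le.trans ih

/-- TASK TVBram (3). Two sets of nodes: from a common node `x` one goes up to the top `y` of `T` and to the top `z` of `T'`. The
first one that is reached is in the other set, so if `rank z ≤ rank y` then `y ∈ T'`.

PROOF. Induction on the path from `x` to `y` (head induction), for `x ∈ T`, `x ∈ T'`. If `x = y` then `T' x`. Otherwise `par x = some x₁`,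
`T x₁`; if `T' x₁` then the path from `x` to `z` also goes through `x₁` (if `x = z` then `Top` says `¬ T' x₁`, a contradiction), so
induction; if `¬ T' x₁` then `z = x` (the first step of a nontrivial path from `x` to `z` would be `x₁` with `T' x₁`), and
`rank y ≤ rank x₁ < rank x = rank z` (ranks decrease going up), a contradiction. -/
theorem top_mem (hr : ∀ i j, par i = some j → rank j < rank i) {T T' : I → Prop} {x y z : I}
    (hxT : T x) (hxT' : T' x) (h : Top par T x y) (h' : Top par T' x z)
    (hyz : rank z ≤ rank y) : T' y := by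
  obtain ⟨h1, h2⟩ := h
  obtain ⟨h3, h4⟩ := h'
  induction h1 using Relation.ReflTransGen.head_induction_on with
  | refl => exact hxT'
  | @head a c h5 h9 ih =>
    by_cases hc : T' c
    · rcases Relation.ReflTransGen.cases_head h3 with h6 | ⟨d, h6, h7⟩
      · subst h6
        exact absurd hc (h4 c h5.1)
      · have h8 : c = d := Option.some.inj (h5.1.symm.trans h6.1)
        subst h8
        exact ih h5.2 hc h7
    · rcases Relation.ReflTransGen.cases_head h3 with h6 | ⟨d, h6, h7⟩
      · have h10 := TVBram_rank_le hr h9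
        have h11 := hr a c h5.1
        rw [← h6] at hyz
        omega
      · have h8 : c = d := Option.some.inj (h5.1.symm.trans h6.1)
        exact absurd (h8 ▸ h6.2) hc

end tree

variable {V E : Type} [Fintype V] [Fintype E] [DecidableEq V] [DecidableEq E] {src tgt : E → V}

/-- TASK TVBram (4). The nodes whose bags meet a connected set `B` have only one top.

PROOF. Let `T i ↔ (bag i ∩ B).Nonempty`. It is enough: for all `u, v ∈ B`, nodes `i ∋ u`, `j ∋ v` (i.e. `u ∈ bag i`, `v ∈ bag j`) and
`y`, `z` with `Top par T i y`, `Top par T j z` we have `y = z`. (a) `u = v`: let `T_v k ↔ v ∈ bag k`, which implies `T k`. By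
`exists_top` for `T_v` there are `i'`, `j'` with `Top par T_v i i'`, `Top par T_v j j'`, and `i' = j'` by `hsub`. The path from `i` to
`i'` is a path in `T`, so if `Top par T i' y'` then `Top par T i y'`, hence `y = y'` (`top_unique`), and the same for `j`. (b) `u`, `v` adjacent in
`B`: some bag `x` contains both (`hedge`); compare `i` and `x` via `u` by (a), and `x` and `j` via `v`. (c) in general: induction on
the path from `u` to `v` in `B` (`ConnOn`), choosing a node for every vertex (`hcov`). -/
theorem top_conn {I : Type} {par : I → Option I} {rank : I → ℕ} {bag : I → Finset V}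
    (hr : ∀ i j, par i = some j → rank j < rank i) (hcov : ∀ v, ∃ i, v ∈ bag i)
    (hedge : ∀ e, ∃ i, src e ∈ bag i ∧ tgt e ∈ bag i)
    (hsub : ∀ v i j, v ∈ bag i → v ∈ bag j → (∀ i', par i = some i' → v ∉ bag i') →
      (∀ j', par j = some j' → v ∉ bag j') → i = j) {B : Finset V} (hB : ConnOn src tgt B)
    {i j y z : I} (hi : (bag i ∩ B).Nonempty) (hj : (bag j ∩ B).Nonempty)
    (hy : Top par (fun k => (bag k ∩ B).Nonempty) i y)
    (hz : Top par (fun k => (bag k ∩ B).Nonempty) j z) : y = z := by
  have hmono : ∀ v ∈ B, ∀ a b, Relation.ReflTransGen (Up par (fun k => v ∈ bag k)) a b →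
      Relation.ReflTransGen (Up par (fun k => (bag k ∩ B).Nonempty)) a b := by
    intro v hv a b h
    induction h with
    | refl => exact Relation.ReflTransGen.refl
    | @tail c d _ hcd ih => exact ih.tail ⟨hcd.1, ⟨v, mem_inter.2 ⟨hcd.2, hv⟩⟩⟩
  have hA : ∀ v ∈ B, ∀ i j y z, v ∈ bag i → v ∈ bag j →
      Top par (fun k => (bag k ∩ B).Nonempty) i y →
      Top par (fun k => (bag k ∩ B).Nonempty) j z → y = z := by
    intro v hv i j y z hi hj hy hz
    obtain ⟨i', hi1, hi2⟩ := exists_top hr (T := fun k => v ∈ bag k) i hi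
    obtain ⟨j', hj1, hj2⟩ := exists_top hr (T := fun k => v ∈ bag k) j hj
    have hij : i' = j' := hsub v i' j' hi2 hj2 hi1.2 hj1.2
    obtain ⟨w, hw1, -⟩ := exists_top hr (T := fun k => (bag k ∩ B).Nonempty) i'
      ⟨v, mem_inter.2 ⟨hi2, hv⟩⟩
    have h1 : y = w := top_unique hy ⟨(hmono v hv _ _ hi1.1).trans hw1.1, hw1.2⟩
    have h2 : z = w := by
      refine top_unique hz ⟨(hmono v hv _ _ hj1.1).trans ?_, hw1.2⟩
      rw [← hij]
      exact hw1.1
    rw [h1, h2]
  have hB' : ∀ u v, Adj src tgt B u v → ∀ i j y z, u ∈ bag i → v ∈ bag j →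
      Top par (fun k => (bag k ∩ B).Nonempty) i y →
      Top par (fun k => (bag k ∩ B).Nonempty) j z → y = z := by
    intro u v huv i j y z hi hj hy hz
    obtain ⟨hu, hv, e, he⟩ := huv
    obtain ⟨x, hx1, hx2⟩ := hedge e
    have hx : u ∈ bag x ∧ v ∈ bag x := by
      rcases he with ⟨h1, h2⟩ | ⟨h1, h2⟩
      · rw [h1] at hx1
        rw [h2] at hx2
        exact ⟨hx1, hx2⟩
      · rw [h1] at hx1
        rw [h2] at hx2
        exact ⟨hx2, hx1⟩
    obtain ⟨w, hw1, -⟩ := exists_top hr (T := fun k => (bag k ∩ B).Nonempty) x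
      ⟨u, mem_inter.2 ⟨hx.1, hu⟩⟩
    rw [hA u hu i x y w hi hx.1 hy hw1, hA v hv j x z w hj hx.2 hz hw1]
  obtain ⟨u, hu⟩ := hi
  obtain ⟨v, hv⟩ := hj
  rw [mem_inter] at hu hv
  have hreach := hB u hu.2 v hv.2
  unfold Reach at hreach
  have hC : ∀ j z, v ∈ bag j → Top par (fun k => (bag k ∩ B).Nonempty) j z → y = z := by
    clear hz hv
    induction hreach with
    | refl => exact fun j z hj hz => hA u hu.2 i j y z hu.1 hj hy hz
    | @tail b c _ h1 ih =>
      intro j z hj hz
      obtain ⟨k, hk⟩ := hcov b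
      obtain ⟨w, hw1, -⟩ := exists_top hr (T := fun k => (bag k ∩ B).Nonempty) k
        ⟨b, mem_inter.2 ⟨hk, h1.1⟩⟩
      rw [ih k w hk hw1]
      exact hB' b c h1 k j w z hk hj hw1 hz
  exact hC j z hv.1 hz

/-- TASK TVBram (5). Brambles.

PROOF. Let `T a i ↔ (bag i ∩ B a).Nonempty`. For every `a` some node is in `T a` (`hcov`), so there is a top `y a ∈ T a` (`exists_top`), and
by `top_conn` every node of `T a` leads to `y a`. Choose `a` with the largest `rank (y a)` (`Finite.exists_max`). `X = bag (y a)`: for `b`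
take `v ∈ B a ∩ B b` and `x` with `v ∈ bag x`; then `x ∈ T a`, `x ∈ T b`, `Top par (T a) x (y a)`, `Top par (T b) x (y b)`, and
`rank (y b) ≤ rank (y a)`, so `y a ∈ T b` by `top_mem`. -/
theorem bramble {k : ℕ} (h : HasTreeDec src tgt k) {L : Type} [Finite L] [Nonempty L]
    (B : L → Finset V) (hconn : ∀ a, ConnOn src tgt (B a))
    (hint : ∀ a b, (B a ∩ B b).Nonempty) :
    ∃ X : Finset V, X.card ≤ k ∧ ∀ a, (X ∩ B a).Nonempty := by
  obtain ⟨I, _, par, rank, bag, hr, -, hk, hcov, hedge, hsub⟩ := h
  have h1 : ∀ a, ∃ y, (bag y ∩ B a).Nonempty ∧ ∀ x, (bag x ∩ B a).Nonempty →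
      Top par (fun k => (bag k ∩ B a).Nonempty) x y := by
    intro a
    obtain ⟨v, hv⟩ := hint a a
    rw [mem_inter] at hv
    obtain ⟨i, hi⟩ := hcov v
    have hia : (bag i ∩ B a).Nonempty := ⟨v, mem_inter.2 ⟨hi, hv.1⟩⟩
    obtain ⟨y, hy, hy'⟩ := exists_top hr (T := fun k => (bag k ∩ B a).Nonempty) i hia
    refine ⟨y, hy', fun x hx => ?_⟩
    obtain ⟨z, hz, -⟩ := exists_top hr (T := fun k => (bag k ∩ B a).Nonempty) x hx
    have h2 := top_conn hr hcov hedge hsub (hconn a) hia hx hy hz
    rw [h2]
    exact hz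
  choose y hy hy' using h1
  obtain ⟨a, ha⟩ := Finite.exists_max (fun a => rank (y a))
  refine ⟨bag (y a), hk _, fun b => ?_⟩
  obtain ⟨v, hv⟩ := hint a b
  rw [mem_inter] at hv
  obtain ⟨x, hx⟩ := hcov v
  have hxa : (bag x ∩ B a).Nonempty := ⟨v, mem_inter.2 ⟨hx, hv.1⟩⟩
  have hxb : (bag x ∩ B b).Nonempty := ⟨v, mem_inter.2 ⟨hx, hv.2⟩⟩
  exact top_mem hr (T := fun k => (bag k ∩ B a).Nonempty)
    (T' := fun k => (bag k ∩ B b).Nonempty) hxa hxb (hy' a x hxa) (hy' b x hxb) (ha b)

end Pool.Agent.MP_9cec2c_lc.TT
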