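import Pool.Agent.Lib.MP_9cec2c_lc.Mg.G027
import Pool.Agent.Lib.MP_9cec2c_lc.TVGrid

/-!
Larger depth helps: the Tseitin formulas of tori.
-/

set_option autoImplicit false
set_option linter.unusedSectionVars false

namespace Pool.Agent.MP_9cec2c_lc.TY

open Finset FG
open TT (cut inc coef tseitin tseitinCNF HasTreeDec Connected torusSrc torusTgt torus_deg torus_conn
  torus_tw)
open MX (CountFree IsMixed MixedRefutes)

/-- All vertices in one bag. -/
theorem treeDec_triv {V E : Type} [Fintype V] [Fintype E] [DecidableEq V] [DecidableEq E]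
    (src tgt : E → V) : HasTreeDec src tgt (Fintype.card V) := by
  refine ⟨Unit, inferInstance, fun _ => none, fun _ => 0, fun _ => univ, ?_, ?_, ?_, ?_, ?_, ?_⟩
  · intro i j h
    exact absurd h (by simp)
  · exact fun _ _ _ _ => rfl
  · exact fun _ => le_rfl
  · exact fun v => ⟨(), mem_univ _⟩
  · exact fun e => ⟨(), mem_univ _, mem_univ _⟩
  · exact fun _ _ _ _ _ _ _ => rfl

/-- A small power of `N`, to the power `K`, is smaller than a given power. -/
theorem exists_large {c γ : ℝ} (hc : 0 < c) (hγ : 0 < γ) (M K : ℕ) : ∃ D : ℕ, 1 ≤ D ∧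
    ∃ N₀ : ℕ, 2 ≤ N₀ ∧ ∀ N : ℕ, N₀ ≤ N →
      ((M : ℝ) * D * (N : ℝ) ^ ((3 : ℝ) / D)) ^ K ≤ c * (((N - 1 : ℕ) : ℝ)) ^ γ := by
  obtain ⟨D, hD⟩ : ∃ D : ℕ, (3 * K : ℝ) / γ < D := exists_nat_gt _
  have hD0 : (0 : ℝ) < D := lt_of_le_of_lt (by positivity) hD
  have hexp : 0 < γ - 3 / D * K := by
    rw [div_lt_iff₀ hγ] at hD
    have h1 : (3 : ℝ) / D * K = 3 * K / D := by ring
    rw [h1, sub_pos, div_lt_iff₀ hD0]
    linarith
  have ht := (tendsto_rpow_atTop hexp).comp (tendsto_natCast_atTop_atTop (R := ℝ))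
  have hev := ht.eventually_ge_atTop (((M : ℝ) * D) ^ K / (c * (1 / 2) ^ γ))
  obtain ⟨N₀, hN₀⟩ := Filter.eventually_atTop.1 hev
  refine ⟨D, by exact_mod_cast hD0, max 2 N₀, le_max_left _ _, fun N hN => ?_⟩
  have hN2 : 2 ≤ N := (le_max_left _ _).trans hN
  have hNR : (2 : ℝ) ≤ N := by exact_mod_cast hN2
  have h1 := hN₀ N ((le_max_right _ _).trans hN)
  have h2 : ((M : ℝ) * D) ^ K / (c * (1 / 2) ^ γ) ≤ (N : ℝ) ^ (γ - 3 / D * K) := h1
  have h3 : 0 < c * (1 / 2 : ℝ) ^ γ := by positivity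
  rw [div_le_iff₀ h3] at h2
  have h4 : (1 / 2 * (N : ℝ)) ≤ ((N - 1 : ℕ) : ℝ) := by
    rw [Nat.cast_sub (by omega)]
    push_cast
    linarith
  have h5 : (1 / 2 : ℝ) ^ γ * (N : ℝ) ^ γ ≤ (((N - 1 : ℕ) : ℝ)) ^ γ := by
    rw [← Real.mul_rpow (by norm_num) (by linarith)]
    exact Real.rpow_le_rpow (by positivity) h4 hγ.le
  have h6 : ((N : ℝ) ^ ((3 : ℝ) / D)) ^ K = (N : ℝ) ^ (3 / D * K : ℝ) := by
    rw [Real.rpow_mul (by linarith), Real.rpow_natCast]
  have h7 : (N : ℝ) ^ (γ - 3 / D * K) * (N : ℝ) ^ (3 / D * K : ℝ) = (N : ℝ) ^ γ := by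
    rw [← Real.rpow_add (by linarith)]
    congr 1
    ring
  calc ((M : ℝ) * D * (N : ℝ) ^ ((3 : ℝ) / D)) ^ K
      = ((M : ℝ) * D) ^ K * (N : ℝ) ^ (3 / D * K : ℝ) := by rw [mul_pow, h6]
    _ ≤ (N : ℝ) ^ (γ - 3 / D * K) * (c * (1 / 2) ^ γ) * (N : ℝ) ^ (3 / D * K : ℝ) :=
        mul_le_mul_of_nonneg_right h2 (by positivity)
    _ = c * ((1 / 2) ^ γ * ((N : ℝ) ^ (γ - 3 / D * K) * (N : ℝ) ^ (3 / D * K : ℝ))) := by ring
    _ = c * ((1 / 2) ^ γ * (N : ℝ) ^ γ) := by rw [h7]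
    _ ≤ c * (((N - 1 : ℕ) : ℝ)) ^ γ := mul_le_mul_of_nonneg_left h5 hc.le

/-- The logarithm of the size of the short refutations. -/
theorem torus_short (r : ℕ) [NeZero r] : ∃ M : ℕ, ∀ D : ℕ, 1 ≤ D → ∀ (N : ℕ) [NeZero N], 2 ≤ N →
    ∀ s : ZMod N × ZMod N → ZMod r, ∑ v, s v ≠ 0 →
    ∃ (l : ℕ) (L : Fin l → Form (((ZMod N × ZMod N) × Bool) × ZMod r)),
      IsDerivation tyRules (2 * D + 1)
        {φ | ∃ C ∈ tseitinCNF (torusSrc N) (torusTgt N) r s, φ = clause C} L ∧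
      (∃ i, L i = falsum) ∧ (∀ i, CountFree (L i)) ∧
      Real.log (size L) ≤ M * D * (N : ℝ) ^ ((3 : ℝ) / D) := by
  obtain ⟨C, hC⟩ := easy_tw r 4
  refine ⟨7 * C, fun D hD N _ hN s hs => ?_⟩
  obtain ⟨l, L, h1, h2, h3, h4⟩ := hC _ _ (torusSrc N) (torusTgt N) torus_deg _
    (treeDec_triv _ _) s hs D hD
  refine ⟨l, L, h1, h2, h3, ?_⟩
  have hcV : Fintype.card (ZMod N × ZMod N) = N * N := by
    rw [Fintype.card_prod, ZMod.card]
  have hcE : Fintype.card ((ZMod N × ZMod N) × Bool) = N * N * 2 := by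
    rw [Fintype.card_prod, Fintype.card_prod, ZMod.card, Fintype.card_bool]
  rw [hcE, hcV] at h4
  have hNR : (2 : ℝ) ≤ N := by exact_mod_cast hN
  have hDR : (1 : ℝ) ≤ D := by exact_mod_cast hD
  obtain ⟨n, hn⟩ : ∃ n, n = N * N + N * N * 2 + 2 := ⟨_, rfl⟩
  rw [← hn] at h4
  have hn0 : (0 : ℝ) < n := by
    have : 0 < n := by omega
    exact_mod_cast this
  have hn5 : (n : ℝ) ≤ 5 * (N : ℝ) ^ (2 : ℝ) := by
    rw [hn]
    push_cast
    rw [Real.rpow_two]
    nlinarith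
  have hlogn : Real.log n ≤ 5 * D * (N : ℝ) ^ ((3 : ℝ) / D) := by
    have h5 : Real.log n ≤ (n : ℝ) ^ ((1 : ℝ) / D) / ((1 : ℝ) / D) :=
      Real.log_le_rpow_div hn0.le (by positivity)
    have h6 : (n : ℝ) ^ ((1 : ℝ) / D) ≤ 5 * (N : ℝ) ^ ((3 : ℝ) / D) := by
      calc (n : ℝ) ^ ((1 : ℝ) / D) ≤ (5 * (N : ℝ) ^ (2 : ℝ)) ^ ((1 : ℝ) / D) :=
            Real.rpow_le_rpow hn0.le hn5 (by positivity)
        _ = 5 ^ ((1 : ℝ) / D) * (N : ℝ) ^ ((2 : ℝ) / D) := by
            rw [Real.mul_rpow (by norm_num) (by positivity), ← Real.rpow_mul (by linarith)]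
            congr 2
            ring
        _ ≤ 5 * (N : ℝ) ^ ((3 : ℝ) / D) := by
            refine mul_le_mul ?_ ?_ (by positivity) (by norm_num)
            · calc (5 : ℝ) ^ ((1 : ℝ) / D) ≤ 5 ^ (1 : ℝ) := by
                    refine Real.rpow_le_rpow_of_exponent_le (by norm_num) ?_
                    rw [div_le_one (by linarith)]
                    exact hDR
                _ = 5 := Real.rpow_one _
            · refine Real.rpow_le_rpow_of_exponent_le (by linarith) ?_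
              exact div_le_div_of_nonneg_right (by norm_num) (by linarith)
    calc Real.log n ≤ (n : ℝ) ^ ((1 : ℝ) / D) / ((1 : ℝ) / D) := h5
      _ = D * (n : ℝ) ^ ((1 : ℝ) / D) := by
          rw [one_div, div_inv_eq_mul, mul_comm]
      _ ≤ D * (5 * (N : ℝ) ^ ((3 : ℝ) / D)) := mul_le_mul_of_nonneg_left h6 (by linarith)
      _ = 5 * D * (N : ℝ) ^ ((3 : ℝ) / D) := by ring
  have hX1 : 1 ≤ (N : ℝ) ^ ((3 : ℝ) / D) := Real.one_le_rpow (by linarith) (by positivity)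
  have hlog2 : Real.log ((N * N : ℕ) + 2 : ℝ) ≤ N := by
    have h5 : ((N * N : ℕ) + 2 : ℝ) ≤ Real.exp N := by
      have h6 := Real.quadratic_le_exp_of_nonneg (show (0 : ℝ) ≤ N by linarith)
      have h7 : ∀ m : ℕ, 2 ≤ m → ((m * m : ℕ) + 2 : ℝ) ≤ Real.exp m := by
        intro m hm
        induction m, hm using Nat.le_induction with
        | base =>
          have h8 := Real.exp_one_gt_d9
          have h9 : Real.exp ((2 : ℕ) : ℝ) = Real.exp 1 * Real.exp 1 := by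
            rw [← Real.exp_add]
            norm_num
          rw [h9]
          push_cast
          nlinarith
        | succ m hm ih =>
          have h8 := Real.exp_one_gt_d9
          have hm' : (2 : ℝ) ≤ m := by exact_mod_cast hm
          have h9 : Real.exp ((m + 1 : ℕ) : ℝ) = Real.exp m * Real.exp 1 := by
            rw [← Real.exp_add]
            push_cast
            rfl
          rw [h9]
          push_cast at ih ⊢
          nlinarith
      exact h7 N hN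
    calc Real.log ((N * N : ℕ) + 2 : ℝ) ≤ Real.log (Real.exp N) :=
          Real.log_le_log (by positivity) h5
      _ = N := Real.log_exp _
  have hX : ((N * N : ℕ) * Real.log ((N * N : ℕ) + 2 : ℝ)) ^ ((1 : ℝ) / D) ≤
      (N : ℝ) ^ ((3 : ℝ) / D) := by
    have h5 : (0 : ℝ) ≤ Real.log ((N * N : ℕ) + 2 : ℝ) := by
      refine Real.log_nonneg ?_
      have : (0 : ℝ) ≤ ((N * N : ℕ) : ℝ) := Nat.cast_nonneg _
      linarith
    calc ((N * N : ℕ) * Real.log ((N * N : ℕ) + 2 : ℝ)) ^ ((1 : ℝ) / D)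
        ≤ ((N : ℝ) ^ (3 : ℝ)) ^ ((1 : ℝ) / D) := by
          refine Real.rpow_le_rpow (by positivity) ?_ (by positivity)
          have h6 : (N : ℝ) ^ (3 : ℝ) = ((N * N : ℕ) : ℝ) * N := by
            rw [show (3 : ℝ) = ((3 : ℕ) : ℝ) by norm_num, Real.rpow_natCast]
            push_cast
            ring
          rw [h6]
          exact mul_le_mul_of_nonneg_left hlog2 (Nat.cast_nonneg _)
      _ = (N : ℝ) ^ ((3 : ℝ) / D) := by
          rw [← Real.rpow_mul (by linarith)]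
          congr 1
          ring
  have hC0 : (0 : ℝ) ≤ C := Nat.cast_nonneg _
  have hsz : (0 : ℝ) < size L := by
    obtain ⟨i, -⟩ := h2
    have : 0 < size L := by
      unfold size
      have := i.pos
      omega
    exact_mod_cast this
  have h5 : Real.log (size L) ≤ C * Real.log n + C * (D + (N : ℝ) ^ ((3 : ℝ) / D)) := by
    calc Real.log (size L) ≤ Real.log ((n : ℝ) ^ C * Real.exp (C * (D +
          ((N * N : ℕ) * Real.log ((N * N : ℕ) + 2 : ℝ)) ^ ((1 : ℝ) / D)))) :=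
          Real.log_le_log hsz h4
      _ = C * Real.log n + C * (D +
          ((N * N : ℕ) * Real.log ((N * N : ℕ) + 2 : ℝ)) ^ ((1 : ℝ) / D)) := by
          rw [Real.log_mul (by positivity) (by positivity), Real.log_pow, Real.log_exp]
      _ ≤ C * Real.log n + C * (D + (N : ℝ) ^ ((3 : ℝ) / D)) :=
          add_le_add_right (mul_le_mul_of_nonneg_left (add_le_add_right hX _) hC0) _
  refine h5.trans ?_
  push_cast
  have h6 : (D : ℝ) ≤ D * (N : ℝ) ^ ((3 : ℝ) / D) := by nlinarith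
  have h7 : (N : ℝ) ^ ((3 : ℝ) / D) ≤ D * (N : ℝ) ^ ((3 : ℝ) / D) := by nlinarith
  calc C * Real.log n + C * (D + (N : ℝ) ^ ((3 : ℝ) / D))
      ≤ C * (5 * D * (N : ℝ) ^ ((3 : ℝ) / D)) +
        C * (D * (N : ℝ) ^ ((3 : ℝ) / D) + D * (N : ℝ) ^ ((3 : ℝ) / D)) :=
        add_le_add (mul_le_mul_of_nonneg_left hlogn hC0)
          (mul_le_mul_of_nonneg_left (add_le_add h6 h7) hC0)
    _ = 7 * C * D * (N : ℝ) ^ ((3 : ℝ) / D) := by ring

/-- **Larger depth helps.** For all `d` and `K` there is `d'` such that the Tseitin formulas of large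
tori have refutations without counting gates of depth `d'` and some size `n`, but mixed refutations of
depth `d` only of size at least `exp ((log n) ^ K)`. -/
theorem hierarchy (Q : Finset ℕ) (hQ : ∀ q ∈ Q, q.Prime)
    (hR : ∀ r', 2 ≤ r' → Flat.RMT2 r') {S : ℕ → Set Rule} (hS : ∀ q ∈ Q, (S q).Finite)
    (hsound : ∀ q ∈ Q, ∀ R ∈ S q, R.Sound q) (r : ℕ) [NeZero r] (d K : ℕ) :
    ∃ d' N₀ : ℕ, ∀ (N : ℕ) [NeZero N], N₀ ≤ N → ∀ s : ZMod N × ZMod N → ZMod r,
      ∑ v, s v ≠ 0 → (∀ q ∈ Q, Nat.Coprime q (addOrderOf (∑ v, s v))) →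
      ∃ (l : ℕ) (L : Fin l → Form (((ZMod N × ZMod N) × Bool) × ZMod r)),
        IsDerivation tyRules d'
          {φ | ∃ C ∈ tseitinCNF (torusSrc N) (torusTgt N) r s, φ = clause C} L ∧
        (∃ i, L i = falsum) ∧ (∀ i, CountFree (L i)) ∧
        ∀ (l' : ℕ) (τ : Fin l' → ℕ) (L' : Fin l' → Form (((ZMod N × ZMod N) × Bool) × ZMod r)),
          MixedRefutes Q S d (tseitinCNF (torusSrc N) (torusTgt N) r s) τ L' →
          Real.exp (Real.log (size L) ^ K) ≤ size L' := by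
  obtain ⟨M, hM⟩ := torus_short r
  obtain ⟨c, hc, hlow⟩ := MX.mx_allF Q hQ r 4 (max r 4) hR hS hsound
  obtain ⟨D, hD, N₀, hN₀, hlarge⟩ := exists_large hc (show 0 < c / ((d : ℝ) + 1) by positivity) M K
  refine ⟨2 * D + 1, N₀, fun N _ hN s hs hcop => ?_⟩
  obtain ⟨l, L, h1, h2, h3, h4⟩ := hM D hD N (hN₀.trans hN) s hs
  refine ⟨l, L, h1, h2, h3, fun l' τ L' hL' => ?_⟩
  have hr : 2 ≤ r := by
    by_contra h6
    have h7 : r = 1 := by
      have := Nat.one_le_iff_ne_zero.2 (NeZero.ne r)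
      omega
    subst h7
    exact hs (Subsingleton.elim _ _)
  have h5 := hlow _ _ (torusSrc N) (torusTgt N) torus_conn torus_deg (N - 1) torus_tw s hs hcop _ id
    Function.injective_id _ (TT.above_self hr torus_deg s) d l' τ L' hL'
  refine (Real.exp_le_exp.2 ?_).trans h5
  exact (pow_le_pow_left₀ (Real.log_natCast_nonneg _) h4 K).trans (hlarge N hN)

end Pool.Agent.MP_9cec2c_lc.TY
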