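import Pool.Agent.Lib.MP_9cec2c_lc.XPNum

/-!
The numbers for the expansion of random lists of clauses.
-/

set_option autoImplicit false

namespace Pool.Agent.MP_9cec2c_lc.SumProd

/-- The union bound for the expansion. -/
theorem num_expand_gen {n m w k z c N : ℕ} (hw : 3 ≤ w) (hk : 2 ≤ k) (hz1 : 1 ≤ z)
    (hN : N * (z + k) + (w * k + 1) ≤ N * (w * k))
    (hc : 1 ≤ c) (hm : m ≤ n * c ^ w) (hn : (96 * c) ^ (2 * N) * (w * k) ≤ n) :
    (n : ℝ) * ((3 * m / k : ℝ) ^ k * (3 * n / z : ℝ) ^ z * (((z : ℝ) / n) ^ w) ^ k) ≤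
      (2 * N * (24 * c) ^ (2 * N)) * (1 / 2) ^ k := by
  have h6 : 6 ≤ w * k := by
    calc 6 = 3 * 2 := by norm_num
      _ ≤ w * k := Nat.mul_le_mul hw hk
  have hzk : z + k < w * k := by
    refine Nat.lt_of_mul_lt_mul_left (a := N) ?_
    omega
  have hc' : (1 : ℝ) ≤ c := by exact_mod_cast hc
  have hpow1 : 1 ≤ (96 * c) ^ (2 * N) := Nat.one_le_pow _ _ (by omega)
  have hwkn : w * k ≤ n := le_trans (Nat.le_mul_of_pos_left _ hpow1) hn
  have hn0 : (0 : ℝ) < n := by exact_mod_cast (by omega : 0 < n)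
  have hk' : (0 : ℝ) < k := by exact_mod_cast (by omega : 0 < k)
  have hw' : (0 : ℝ) < w := by exact_mod_cast (by omega : 0 < w)
  obtain ⟨e, he⟩ : ∃ e, w * k = z + k + (e + 1) := ⟨w * k - (z + k) - 1, by omega⟩
  have heN : w * k + 1 ≤ N * (e + 1) := by
    have h1 : N * (w * k) = N * (z + k) + N * (e + 1) := by rw [he, ← mul_add]
    omega
  obtain ⟨y, hy⟩ : ∃ y : ℝ, y = (w * k) / n := ⟨_, rfl⟩
  have hy0 : 0 < y := by
    rw [hy]
    positivity
  have hzy : (z : ℝ) / n ≤ y := by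
    rw [hy]
    have h1 : (z : ℝ) ≤ ((w * k : ℕ) : ℝ) := by exact_mod_cast (by omega : z ≤ w * k)
    push_cast at h1
    gcongr
  have hyp : y ≤ (1 / (96 * c : ℝ)) ^ (2 * N) := by
    rw [hy, one_div, inv_pow, ← one_div, div_le_div_iff₀ hn0 (by positivity)]
    have h1 : (((96 * c) ^ (2 * N) * (w * k) : ℕ) : ℝ) ≤ (n : ℝ) := by exact_mod_cast hn
    push_cast at h1
    nlinarith
  have hp1 : (1 / (96 * c : ℝ)) ≤ 1 := by
    rw [div_le_one (by positivity)]
    linarith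
  have hp0 : (0 : ℝ) < 1 / (96 * c : ℝ) := by positivity
  have hy1 : y ≤ 1 := hyp.trans (pow_le_one₀ hp0.le hp1)
  have hny : (n : ℝ) * y = w * k := by
    rw [hy]
    field_simp
  have hB : 3 * (n * y / k) * 3 ^ w ≤ (4 : ℝ) ^ w * 3 ^ w := by
    rw [hny]
    have h1 : (w * k / k : ℝ) = w := by field_simp
    rw [h1]
    have h2 := three_mul_le w
    gcongr
  have hzn : z ≤ n := by omega
  have hmain := num_base (m := m) (e := e + 1) (by omega) hz1 hzn (by omega) hc hm hzy hy1 he hB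
  have h12 : ((4 : ℝ) ^ w * 3 ^ w * c ^ w) ^ k = (12 * c) ^ (w * k) := by
    rw [← mul_pow, ← mul_pow, ← pow_mul]
    norm_num
  rw [h12] at hmain
  have hstep : (n : ℝ) * ((3 * m / k : ℝ) ^ k * (3 * n / z : ℝ) ^ z * (((z : ℝ) / n) ^ w) ^ k) ≤
      (w * k) * ((12 * c) ^ (w * k) * y ^ e) := by
    calc (n : ℝ) * ((3 * m / k : ℝ) ^ k * (3 * n / z : ℝ) ^ z * (((z : ℝ) / n) ^ w) ^ k)
        ≤ n * ((12 * c) ^ (w * k) * y ^ (e + 1)) := by gcongr
      _ = (n * y) * ((12 * c) ^ (w * k) * y ^ e) := by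
          rw [pow_succ]
          ring
      _ = _ := by rw [hny]
  refine hstep.trans ?_
  have hN1 : 1 ≤ N := by
    by_contra hcon
    have h1 : N = 0 := by omega
    rw [h1, zero_mul] at heN
    omega
  have hN' : (1 : ℝ) ≤ N := by exact_mod_cast hN1
  by_cases hcase : w * k ≤ 2 * N * e
  · have h1 : y ^ e ≤ (1 / (96 * c : ℝ)) ^ (w * k) := by
      calc y ^ e ≤ ((1 / (96 * c : ℝ)) ^ (2 * N)) ^ e := by gcongr
        _ = (1 / (96 * c : ℝ)) ^ (2 * N * e) := (pow_mul _ _ _).symm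
        _ ≤ (1 / (96 * c : ℝ)) ^ (w * k) := pow_le_pow_of_le_one hp0.le hp1 hcase
    have h2 : (w * k : ℝ) ≤ 2 ^ (w * k) := by
      exact_mod_cast (Nat.lt_two_pow_self (n := w * k)).le
    calc (w * k) * ((12 * c) ^ (w * k) * y ^ e)
        ≤ 2 ^ (w * k) * ((12 * c) ^ (w * k) * (1 / (96 * c : ℝ)) ^ (w * k)) := by
          gcongr
      _ = (1 / 4) ^ (w * k) := by
          rw [← mul_pow, ← mul_pow]
          congr 1
          field_simp
          norm_num
      _ ≤ (1 / 4) ^ k := by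
          refine pow_le_pow_of_le_one (by norm_num) (by norm_num) ?_
          omega
      _ ≤ (1 / 2) ^ k := by
          gcongr
          norm_num
      _ ≤ (2 * N * (24 * c) ^ (2 * N)) * (1 / 2) ^ k := by
          have h3 : (1 : ℝ) ≤ 2 * N * (24 * c) ^ (2 * N) := by
            have : (1 : ℝ) ≤ (24 * c) ^ (2 * N) := one_le_pow₀ (by linarith)
            nlinarith
          have h4 : (0 : ℝ) < (1 / 2 : ℝ) ^ k := by positivity
          nlinarith
  · rw [not_le] at hcase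
    have hwk : w * k ≤ 2 * N := by
      have h1 : 2 * N * e = 2 * (N * e) := by ring
      have h2 : N * (e + 1) = N * e + N := by ring
      omega
    have h1 : y ^ e ≤ 1 := pow_le_one₀ hy0.le hy1
    have h2 : (w * k : ℝ) ≤ 2 * N := by exact_mod_cast hwk
    have h3 : (12 * c : ℝ) ^ (w * k) ≤ (12 * c) ^ (2 * N) :=
      pow_le_pow_right₀ (by linarith) hwk
    have hk2 : k ≤ 2 * N := by omega
    calc (w * k) * ((12 * c) ^ (w * k) * y ^ e)
        ≤ (2 * N) * ((12 * c) ^ (2 * N) * 1) := by gcongr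
      _ = (2 * N * (24 * c) ^ (2 * N)) * (1 / 2) ^ (2 * N) := by
          have h4 : (24 * c : ℝ) ^ (2 * N) * (1 / 2) ^ (2 * N) = (12 * c) ^ (2 * N) := by
            rw [← mul_pow]
            congr 1
            ring
          rw [mul_assoc (2 * (N : ℝ)), h4, mul_one]
      _ ≤ (2 * N * (24 * c) ^ (2 * N)) * (1 / 2) ^ k := by
          refine mul_le_mul_of_nonneg_left ?_ (by positivity)
          exact pow_le_pow_of_le_one (by norm_num) (by norm_num) hk2

end Pool.Agent.MP_9cec2c_lc.SumProd
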