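import Mathlib

/-!
The numbers for the random model.
-/

set_option autoImplicit false

namespace Pool.Agent.MP_9cec2c_lc.SumProd

/-- The expected number of sets of `j` clauses with at most `z` variables. -/
theorem num_base {n m w j z c : ℕ} (hj : 1 ≤ j) (hz : 1 ≤ z) (hzn : z ≤ n) (hzw : z + j ≤ w * j)
    (hc : 1 ≤ c) (hm : m ≤ n * c ^ w) {y : ℝ} (hy : (z : ℝ) / n ≤ y) (hy1 : y ≤ 1) {e : ℕ}
    (he : w * j = z + j + e) {B : ℝ} (hB : 3 * (n * y / j) * 3 ^ w ≤ B) :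
    (3 * m / j : ℝ) ^ j * (3 * n / z : ℝ) ^ z * (((z : ℝ) / n) ^ w) ^ j ≤
      (B * c ^ w) ^ j * y ^ e := by
  have hn : (0 : ℝ) < n := by exact_mod_cast (by omega : 0 < n)
  have hj' : (0 : ℝ) < j := by exact_mod_cast (by omega : 0 < j)
  have hz' : (0 : ℝ) < z := by exact_mod_cast (by omega : 0 < z)
  have hc' : (1 : ℝ) ≤ c := by exact_mod_cast hc
  have hy0 : 0 < y := lt_of_lt_of_le (by positivity) hy
  have h1 : (3 * n / z : ℝ) ^ z * (((z : ℝ) / n) ^ w) ^ j ≤ (3 ^ w) ^ j * y ^ (j + e) := by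
    rw [← pow_mul ((z : ℝ) / n) w j, he, add_assoc, pow_add, ← mul_assoc, ← mul_pow]
    have e1 : (3 * n / z : ℝ) * ((z : ℝ) / n) = 3 := by field_simp
    rw [e1]
    have e2 : (3 : ℝ) ^ z ≤ (3 ^ w) ^ j := by
      rw [← pow_mul]
      exact pow_le_pow_right₀ (by norm_num) (by omega)
    gcongr
  have h2 : (3 * m / j : ℝ) ^ j ≤ (3 * (n * c ^ w) / j : ℝ) ^ j := by
    have h3 : (m : ℝ) ≤ n * c ^ w := by exact_mod_cast hm
    gcongr
  calc (3 * m / j : ℝ) ^ j * (3 * n / z : ℝ) ^ z * (((z : ℝ) / n) ^ w) ^ j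
      = (3 * m / j : ℝ) ^ j * ((3 * n / z : ℝ) ^ z * (((z : ℝ) / n) ^ w) ^ j) := by ring
    _ ≤ (3 * (n * c ^ w) / j : ℝ) ^ j * ((3 ^ w) ^ j * y ^ (j + e)) := by gcongr
    _ = (3 * (n * y / j) * 3 ^ w * c ^ w) ^ j * y ^ e := by
        rw [pow_add, ← mul_assoc, ← mul_assoc, ← mul_pow, ← mul_pow]
        congr 2
        field_simp
    _ ≤ (B * c ^ w) ^ j * y ^ e := by gcongr

theorem three_mul_le (w : ℕ) : (3 * w : ℝ) ≤ 4 ^ w := by
  induction w with
  | zero => norm_num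
  | succ w ih =>
    rcases Nat.eq_zero_or_pos w with rfl | hw
    · norm_num
    · have : (1 : ℝ) ≤ w := by exact_mod_cast hw
      rw [pow_succ]
      push_cast
      nlinarith

/-- Dense sets of clauses. -/
theorem num_dense {n m w j z c θ : ℕ} (hw : 3 ≤ w) (hj : 2 ≤ j) (hθ : θ + 2 ≤ w)
    (hz : z = (w + θ) * j / 2) (hzn : z ≤ n) (hc : 1 ≤ c) (hm : m ≤ n * c ^ w) :
    (3 * m / j : ℝ) ^ j * (3 * n / z : ℝ) ^ z * (((z : ℝ) / n) ^ w) ^ j ≤
      ((12 * c : ℝ) ^ w) ^ j := by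
  have h6 : 6 ≤ w * j := by
    calc 6 = 3 * 2 := by norm_num
      _ ≤ w * j := Nat.mul_le_mul hw hj
  have hz2 : 2 * z ≤ (w + θ) * j := by
    rw [hz]
    exact Nat.mul_div_le _ 2
  have hz3 : (w + θ) * j < 2 * z + 2 := by
    rw [hz]
    omega
  have h1 : (w + θ + 2) * j ≤ 2 * w * j := Nat.mul_le_mul_right _ (by omega)
  have h2 : (w + θ + 2) * j = (w + θ) * j + 2 * j := by ring
  have h3 : 2 * w * j = 2 * (w * j) := by ring
  have h4 : w * j ≤ (w + θ) * j := Nat.mul_le_mul_right _ (by omega)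
  have hzw : z + j ≤ w * j := by omega
  have hz1 : 1 ≤ z := by omega
  have hn : (0 : ℝ) < n := by exact_mod_cast (by omega : 0 < n)
  have hj' : (0 : ℝ) < j := by exact_mod_cast (by omega : 0 < j)
  have hc' : (1 : ℝ) ≤ c := by exact_mod_cast hc
  have hy1 : (z : ℝ) / n ≤ 1 := by
    rw [div_le_one hn]
    exact_mod_cast hzn
  obtain ⟨e, he⟩ : ∃ e, w * j = z + j + e := ⟨w * j - (z + j), by omega⟩
  have hB : 3 * (n * ((z : ℝ) / n) / j) * 3 ^ w ≤ (3 * w : ℝ) * 3 ^ w := by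
    have h5 : n * ((z : ℝ) / n) / j ≤ w := by
      rw [mul_div_cancel₀ _ hn.ne', div_le_iff₀ hj']
      exact_mod_cast (by omega : z ≤ w * j)
    gcongr
  refine (num_base (by omega) hz1 hzn hzw hc hm le_rfl hy1 he hB).trans ?_
  have h5 : ((z : ℝ) / n) ^ e ≤ 1 := pow_le_one₀ (by positivity) hy1
  calc (3 * w * 3 ^ w * c ^ w : ℝ) ^ j * ((z : ℝ) / n) ^ e
      ≤ (4 ^ w * 3 ^ w * c ^ w : ℝ) ^ j * 1 := by
        have := three_mul_le w
        gcongr
    _ = ((12 * c : ℝ) ^ w) ^ j := by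
        rw [mul_one, ← mul_pow, ← mul_pow]
        norm_num

/-- The union bound for the expansion. -/
theorem num_expand {n m w k z c : ℕ} (hw : 3 ≤ w) (hk : 2 ≤ k) (hz : z = (5 * w * k - 1) / 8)
    (hc : 1 ≤ c) (hm : m ≤ n * c ^ w) (hn : (96 * c) ^ 192 * (w * k) ≤ n) :
    (n : ℝ) * ((3 * m / k : ℝ) ^ k * (3 * n / z : ℝ) ^ z * (((z : ℝ) / n) ^ w) ^ k) ≤
      (2 ^ 7 * (14 * (12 * c) ^ 21)) * (1 / 2) ^ k := by
  have h6 : 6 ≤ w * k := by
    calc 6 = 3 * 2 := by norm_num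
      _ ≤ w * k := Nat.mul_le_mul hw hk
  have h5 : 5 * w * k = 5 * (w * k) := by ring
  have hzw : 8 * z + 1 ≤ 5 * (w * k) := by omega
  have hzw2 : 5 * (w * k) ≤ 8 * z + 8 := by omega
  have hz1 : 1 ≤ z := by omega
  have h3k : 3 * k ≤ w * k := Nat.mul_le_mul_right _ hw
  have hc' : (1 : ℝ) ≤ c := by exact_mod_cast hc
  have hpow1 : 1 ≤ (96 * c) ^ 192 := Nat.one_le_pow _ _ (by omega)
  have hwkn : w * k ≤ n := le_trans (Nat.le_mul_of_pos_left _ hpow1) hn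
  have hn0 : (0 : ℝ) < n := by exact_mod_cast (by omega : 0 < n)
  have hk' : (0 : ℝ) < k := by exact_mod_cast (by omega : 0 < k)
  have hw' : (0 : ℝ) < w := by exact_mod_cast (by omega : 0 < w)
  obtain ⟨e, he⟩ : ∃ e, w * k = z + k + (e + 1) := ⟨w * k - (z + k) - 1, by omega⟩
  obtain ⟨y, hy⟩ : ∃ y : ℝ, y = 5 * (w * k) / (8 * n) := ⟨_, rfl⟩
  have hy0 : 0 < y := by
    rw [hy]
    positivity
  have hzy : (z : ℝ) / n ≤ y := by
    rw [hy, div_le_div_iff₀ hn0 (by positivity)]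
    have h1 : ((8 * z : ℕ) : ℝ) ≤ ((5 * (w * k) : ℕ) : ℝ) := by
      exact_mod_cast (by omega : 8 * z ≤ 5 * (w * k))
    push_cast at h1
    nlinarith
  have hyp : y ≤ (1 / (96 * c : ℝ)) ^ 192 := by
    rw [hy, one_div, inv_pow, ← one_div, div_le_div_iff₀ (by positivity) (by positivity)]
    have h1 : (((96 * c) ^ 192 * (w * k) : ℕ) : ℝ) ≤ (n : ℝ) := by exact_mod_cast hn
    push_cast at h1
    nlinarith
  have hp1 : (1 / (96 * c : ℝ)) ≤ 1 := by
    rw [div_le_one (by positivity)]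
    linarith
  have hp0 : (0 : ℝ) < 1 / (96 * c : ℝ) := by positivity
  have hy1 : y ≤ 1 := hyp.trans (pow_le_one₀ hp0.le hp1)
  have hny : (n : ℝ) * y = 5 * (w * k) / 8 := by
    rw [hy]
    field_simp
  have hB : 3 * (n * y / k) * 3 ^ w ≤ (4 : ℝ) ^ w * 3 ^ w := by
    rw [hny]
    have h1 : (5 * (w * k) / 8 / k : ℝ) ≤ w := by
      rw [div_div, div_le_iff₀ (by positivity)]
      nlinarith [mul_pos hw' hk']
    have h2 := three_mul_le w
    have h3 : 3 * (5 * (w * k) / 8 / k : ℝ) ≤ 4 ^ w := by linarith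
    gcongr
  have hzn : z ≤ n := by omega
  have hmain := num_base (m := m) (e := e + 1) (by omega) hz1 hzn (by omega) hc hm hzy hy1 he hB
  have h12 : ((4 : ℝ) ^ w * 3 ^ w * c ^ w) ^ k = (12 * c) ^ (w * k) := by
    rw [← mul_pow, ← mul_pow, ← pow_mul]
    norm_num
  rw [h12] at hmain
  have hstep : (n : ℝ) * ((3 * m / k : ℝ) ^ k * (3 * n / z : ℝ) ^ z * (((z : ℝ) / n) ^ w) ^ k) ≤
      5 * (w * k) / 8 * ((12 * c) ^ (w * k) * y ^ e) := by
    calc (n : ℝ) * ((3 * m / k : ℝ) ^ k * (3 * n / z : ℝ) ^ z * (((z : ℝ) / n) ^ w) ^ k)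
        ≤ n * ((12 * c) ^ (w * k) * y ^ (e + 1)) := by gcongr
      _ = (n * y) * ((12 * c) ^ (w * k) * y ^ e) := by
          rw [pow_succ]
          ring
      _ = _ := by rw [hny]
  refine hstep.trans ?_
  by_cases hcase : w * k ≤ 192 * e
  · have h1 : y ^ e ≤ (1 / (96 * c : ℝ)) ^ (w * k) := by
      calc y ^ e ≤ ((1 / (96 * c : ℝ)) ^ 192) ^ e := by gcongr
        _ = (1 / (96 * c : ℝ)) ^ (192 * e) := (pow_mul _ _ _).symm
        _ ≤ (1 / (96 * c : ℝ)) ^ (w * k) := pow_le_pow_of_le_one hp0.le hp1 hcase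
    have h2 : (w * k : ℝ) ≤ 2 ^ (w * k) := by
      exact_mod_cast (Nat.lt_two_pow_self (n := w * k)).le
    calc 5 * (w * k) / 8 * ((12 * c) ^ (w * k) * y ^ e)
        ≤ 2 ^ (w * k) * ((12 * c) ^ (w * k) * (1 / (96 * c : ℝ)) ^ (w * k)) := by
          have h3 : (5 * (w * k) / 8 : ℝ) ≤ 2 ^ (w * k) := by
            have : (0 : ℝ) ≤ w * k := by positivity
            linarith
          gcongr
      _ = (1 / 4) ^ (w * k) := by
          rw [← mul_pow, ← mul_pow]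
          congr 1
          field_simp
          norm_num
      _ ≤ (1 / 4) ^ k := by
          refine pow_le_pow_of_le_one (by norm_num) (by norm_num) ?_
          omega
      _ ≤ (1 / 2) ^ k := by
          gcongr
          norm_num
      _ ≤ (2 ^ 7 * (14 * (12 * c) ^ 21)) * (1 / 2) ^ k := by
          have h3 : (1 : ℝ) ≤ 2 ^ 7 * (14 * (12 * c) ^ 21) := by
            have : (1 : ℝ) ≤ (12 * c) ^ 21 := one_le_pow₀ (by linarith)
            nlinarith
          have h4 : (0 : ℝ) < (1 / 2 : ℝ) ^ k := by positivity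
          nlinarith
  · rw [not_le] at hcase
    have hw3 : w = 3 := by
      by_contra hne
      have h1 : 4 * k ≤ w * k := Nat.mul_le_mul_right _ (by omega)
      omega
    subst hw3
    have hk7 : k ≤ 7 := by omega
    have h1 : y ^ e ≤ 1 := pow_le_one₀ hy0.le hy1
    have h2 : ((3 : ℕ) : ℝ) * k ≤ 21 := by
      have : (k : ℝ) ≤ 7 := by exact_mod_cast hk7
      push_cast
      linarith
    have h3 : (12 * c : ℝ) ^ (3 * k) ≤ (12 * c) ^ 21 :=
      pow_le_pow_right₀ (by linarith) (by omega)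
    calc 5 * (((3 : ℕ) : ℝ) * k) / 8 * ((12 * c) ^ (3 * k) * y ^ e)
        ≤ 14 * ((12 * c) ^ 21 * 1) := by
          have h4 : 5 * (((3 : ℕ) : ℝ) * k) / 8 ≤ 14 := by
            push_cast at h2 ⊢
            linarith
          gcongr
      _ = (2 ^ 7 * (14 * (12 * c) ^ 21)) * (1 / 2) ^ 7 := by ring
      _ ≤ (2 ^ 7 * (14 * (12 * c) ^ 21)) * (1 / 2) ^ k := by
          refine mul_le_mul_of_nonneg_left ?_ (by positivity)
          exact pow_le_pow_of_le_one (by norm_num) (by norm_num) hk7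

end Pool.Agent.MP_9cec2c_lc.SumProd
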