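import Pool.Agent.Lib.MP_9cec2c_lc.XPGood
import Pool.Agent.Lib.MP_9cec2c_lc.XPNum
import Pool.Agent.Lib.MP_9cec2c_lc.Mg.G046
import Pool.Agent.Lib.MP_9cec2c_lc.LRHalf

/-!
Random lists of clauses.
-/

set_option autoImplicit false
set_option linter.unusedSectionVars false

namespace Pool.Agent.MP_9cec2c_lc.SumProd

open Finset
open Pool.Agent.MP_9cec2c_lc.LovSch (pr_sat nonempty_emb emb_pr)
open Pool.Agent.MP_9cec2c_lc.SubstRed
open Pool.Agent.MP_9cec2c_lc.FormulaLines

variable {n m w : ℕ}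

/-- The variables of the clause `i`. -/
def cvars (f : ClauseList n m w) (i : Fin m) : Finset (Fin n) := univ.image (f i).1

theorem card_cvars (f : ClauseList n m w) (i : Fin m) : (cvars f i).card = w := by
  unfold cvars
  rw [card_image_of_injective _ (f i).1.injective, card_univ, Fintype.card_fin]

/-- The probability that given clauses have few variables. -/
theorem pr_few (hw : w ≤ n) (I : Finset (Fin m)) {z : ℕ} (hz : 0 < z) (hzn : z ≤ n) :
    pr (fun f : ClauseList n m w => (I.biUnion (cvars f)).card ≤ z) ≤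
      (3 * n / z : ℝ) ^ z * (((z : ℝ) / n) ^ w) ^ I.card := by
  classical
  have hne := nonempty_emb hw
  refine le_trans (pr_mono (q := fun f : ClauseList n m w =>
      ∃ Y ∈ powersetCard z (univ : Finset (Fin n)), ∀ i ∈ I, ∀ e, (f i).1 e ∈ Y)
      fun f hf => ?_) ?_
  · obtain ⟨Y, hY1, hY2⟩ := exists_superset_card_eq (s := I.biUnion (cvars f)) (n := z) hf
      (by rwa [Fintype.card_fin])
    refine ⟨Y, mem_powersetCard.2 ⟨subset_univ _, hY2⟩, fun i hi e => ?_⟩
    exact hY1 (mem_biUnion.2 ⟨i, hi, mem_image_of_mem _ (mem_univ e)⟩)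
  refine (pr_exists _ _).trans ?_
  have h1 : ∀ Y ∈ powersetCard z (univ : Finset (Fin n)),
      pr (fun f : ClauseList n m w => ∀ i ∈ I, ∀ e, (f i).1 e ∈ Y) ≤
        (((z : ℝ) / n) ^ w) ^ I.card := by
    intro Y hY
    rw [mem_powersetCard] at hY
    have h0 : pr (fun c : (Fin w ↪ Fin n) × (Fin w → Bool) => ∀ e, c.1 e ∈ Y) ≤
        ((Y.card : ℝ) / n) ^ w := by
      have e1 := emb_pr hw (univ : Finset (Fin w)) Y
      rw [card_univ, Fintype.card_fin] at e1
      rw [pr_fst (Ω' := Fin w → Bool) (fun g : Fin w ↪ Fin n => ∀ e, g e ∈ Y)]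
      simpa using e1
    have h2 := indep_fixed (ι := Fin m) I (fun c : (Fin w ↪ Fin n) × (Fin w → Bool) =>
      ∀ e, c.1 e ∈ Y) _ h0
    rw [hY.2] at h2
    exact h2
  refine (sum_le_sum h1).trans ?_
  rw [sum_const, card_powersetCard, card_univ, Fintype.card_fin, nsmul_eq_mul]
  have h3 : (n.choose z : ℝ) ≤ (3 * n / z : ℝ) ^ z := choose_le_three hz
  gcongr

/-- The sum over all sets of `j` clauses. -/
theorem sum_few (hw : w ≤ n) {j z : ℕ} (hj : 0 < j) (hz : 0 < z) (hzn : z ≤ n) :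
    ∑ I ∈ powersetCard j (univ : Finset (Fin m)),
      pr (fun f : ClauseList n m w => (I.biUnion (cvars f)).card ≤ z) ≤
      (3 * m / j : ℝ) ^ j * (3 * n / z : ℝ) ^ z * (((z : ℝ) / n) ^ w) ^ j := by
  have h1 : ∀ I ∈ powersetCard j (univ : Finset (Fin m)),
      pr (fun f : ClauseList n m w => (I.biUnion (cvars f)).card ≤ z) ≤
      (3 * n / z : ℝ) ^ z * (((z : ℝ) / n) ^ w) ^ j := by
    intro I hI
    rw [mem_powersetCard] at hI
    have := pr_few (m := m) hw I hz hzn
    rwa [hI.2] at this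
  refine (sum_le_sum h1).trans ?_
  rw [sum_const, card_powersetCard, card_univ, Fintype.card_fin, nsmul_eq_mul, ← mul_assoc]
  have h3 : (m.choose j : ℝ) ≤ (3 * m / j : ℝ) ^ j := choose_le_three hj
  gcongr

/-- Markov's inequality for the number of events. -/
theorem pr_many {Ω T : Type*} [Fintype Ω] [Nonempty Ω] (s : Finset T) (P : T → Ω → Prop)
    [∀ x, DecidablePred fun t => P t x] {a : ℝ} (ha : 0 < a) :
    pr (fun x => a < ((s.filter fun t => P t x).card : ℝ)) ≤ (∑ t ∈ s, pr (P t)) / a := by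
  classical
  have hΩ : (0 : ℝ) < Fintype.card Ω := by exact_mod_cast Fintype.card_pos
  have h1 : ∀ t, pr (P t) = ((univ.filter (P t)).card : ℝ) / Fintype.card Ω := fun t => pr_eq _
  rw [pr_eq]
  simp only [h1]
  rw [← sum_div, le_div_iff₀ ha, div_mul_eq_mul_div]
  refine div_le_div_of_nonneg_right ?_ hΩ.le
  calc ((univ.filter fun x : Ω => a < ((s.filter fun t => P t x).card : ℝ)).card : ℝ) * a
      = ∑ x ∈ univ.filter (fun x : Ω => a < ((s.filter fun t => P t x).card : ℝ)), a := by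
        rw [sum_const, nsmul_eq_mul]
    _ ≤ ∑ x ∈ univ.filter (fun x : Ω => a < ((s.filter fun t => P t x).card : ℝ)),
        ((s.filter fun t => P t x).card : ℝ) :=
        sum_le_sum fun x hx => (mem_filter.1 hx).2.le
    _ ≤ ∑ x : Ω, ((s.filter fun t => P t x).card : ℝ) :=
        sum_le_sum_of_subset_of_nonneg (subset_univ _) fun _ _ _ => by positivity
    _ = ∑ t ∈ s, ((univ.filter (P t)).card : ℝ) := by
        simp only [card_filter]
        push_cast
        rw [sum_comm]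

/-- All small sets of clauses have many variables, and few are dense. -/
def Fine (c θ r : ℕ) (f : ClauseList n m w) : Prop :=
  (∀ I : Finset (Fin m), I.card ≤ r → 5 * w * I.card ≤ 8 * (I.biUnion (cvars f)).card) ∧
    ∀ j, 2 ≤ j → j ≤ r →
      ((dense (cvars f) w θ j).card : ℝ) ≤ n * (2 * (12 * c : ℝ) ^ w) ^ j

theorem sum_half (r : ℕ) : ∑ j ∈ Icc 2 r, (1 / 2 : ℝ) ^ j ≤ 1 / 2 := by
  have hgeo : ∀ r : ℕ, 1 ≤ r → ∑ i ∈ Icc 2 r, (1 / 2 : ℝ) ^ i = 1 / 2 - (1 / 2 : ℝ) ^ r := by
    intro r hr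
    induction r, hr using Nat.le_induction with
    | base => norm_num
    | succ r hr ih =>
      rw [sum_Icc_succ_top (by omega), ih, pow_succ]
      ring
  rcases Nat.eq_zero_or_pos r with rfl | hr
  · simp
  · rw [hgeo r hr]
    have : (0 : ℝ) < (1 / 2 : ℝ) ^ r := by positivity
    linarith

theorem pr_not_fine_aux {c θ r A : ℕ} {B : ℝ} (hB0 : 0 ≤ B) (hw : w ≤ n) (hw3 : 3 ≤ w)
    (hθ : θ + 2 ≤ w) (hc : 1 ≤ c) (hm : m ≤ n * c ^ w) (hA1 : 1 ≤ A) (hr : A * (w * r) ≤ n)
    (hnum : ∀ k z : ℕ, 2 ≤ k → z = (5 * w * k - 1) / 8 → A * (w * k) ≤ n →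
      (n : ℝ) * ((3 * m / k : ℝ) ^ k * (3 * n / z : ℝ) ^ z * (((z : ℝ) / n) ^ w) ^ k) ≤
      B * (1 / 2) ^ k) :
    (n : ℝ) * pr (fun f : ClauseList n m w => ¬ Fine c θ r f) ≤ B + 1 := by
  classical
  have hne := nonempty_emb hw
  have hn0 : 0 < n := by omega
  have hn' : (0 : ℝ) < n := by exact_mod_cast hn0
  have hc' : (1 : ℝ) ≤ c := by exact_mod_cast hc
  have hwr : w * r ≤ n := le_trans (Nat.le_mul_of_pos_left _ hA1) hr
  have hsplit : pr (fun f : ClauseList n m w => ¬ Fine c θ r f) ≤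
      (∑ k ∈ Icc 2 r, ∑ I ∈ powersetCard k (univ : Finset (Fin m)),
        pr (fun f : ClauseList n m w => (I.biUnion (cvars f)).card ≤ (5 * w * k - 1) / 8)) +
      ∑ j ∈ Icc 2 r, (∑ I ∈ powersetCard j (univ : Finset (Fin m)),
        pr (fun f : ClauseList n m w => 2 * (I.biUnion (cvars f)).card ≤ (w + θ) * j)) /
          (n * (2 * (12 * c : ℝ) ^ w) ^ j) := by
    refine le_trans (pr_mono (q := fun f : ClauseList n m w =>
      (∃ k ∈ Icc 2 r, ∃ I ∈ powersetCard k (univ : Finset (Fin m)),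
        (I.biUnion (cvars f)).card ≤ (5 * w * k - 1) / 8) ∨
      ∃ j ∈ Icc 2 r, (n * (2 * (12 * c : ℝ) ^ w) ^ j : ℝ) <
        (((powersetCard j (univ : Finset (Fin m))).filter fun I =>
          2 * (I.biUnion (cvars f)).card ≤ (w + θ) * j).card : ℝ)) fun f hf => ?_) ?_
    · unfold Fine at hf
      rw [not_and_or] at hf
      rcases hf with hf | hf
      · left
        push Not at hf
        obtain ⟨I, hI, hlt⟩ := hf
        have h5 : 5 * w * I.card = 5 * (w * I.card) := by ring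
        refine ⟨I.card, mem_Icc.2 ⟨?_, hI⟩, I, mem_powersetCard.2 ⟨subset_univ _, rfl⟩, by
          omega⟩
        by_contra hcon
        have h1 : I.card = 1 ∨ I.card = 0 := by omega
        rcases h1 with h1 | h1
        · obtain ⟨i, rfl⟩ := card_eq_one.1 h1
          rw [singleton_biUnion, card_cvars, card_singleton] at hlt
          omega
        · rw [h1] at hlt
          omega
      · right
        push Not at hf
        obtain ⟨j, hj2, hjr, hlt⟩ := hf
        exact ⟨j, mem_Icc.2 ⟨hj2, hjr⟩, hlt⟩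
    · refine (pr_or _ _).trans (add_le_add ?_ ?_)
      · refine (pr_exists _ _).trans (sum_le_sum fun k _ => ?_)
        exact pr_exists _ _
      · refine (pr_exists _ _).trans (sum_le_sum fun j _ => ?_)
        have hpos : (0 : ℝ) < n * (2 * (12 * c : ℝ) ^ w) ^ j := by positivity
        generalize (n * (2 * (12 * c : ℝ) ^ w) ^ j : ℝ) = a at hpos ⊢
        exact pr_many (Ω := ClauseList n m w) (powersetCard j (univ : Finset (Fin m)))
          (fun I f => 2 * (I.biUnion (cvars f)).card ≤ (w + θ) * j) hpos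
  have hA : (n : ℝ) * ∑ k ∈ Icc 2 r, ∑ I ∈ powersetCard k (univ : Finset (Fin m)),
      pr (fun f : ClauseList n m w => (I.biUnion (cvars f)).card ≤ (5 * w * k - 1) / 8) ≤
        B * (1 / 2) := by
    rw [mul_sum]
    refine le_trans (sum_le_sum (g := fun k => B * (1 / 2 : ℝ) ^ k) fun k hk => ?_) ?_
    · rw [mem_Icc] at hk
      have h6 : 6 ≤ w * k := by
        calc 6 = 3 * 2 := by norm_num
          _ ≤ w * k := Nat.mul_le_mul hw3 hk.1
      have h5 : 5 * w * k = 5 * (w * k) := by ring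
      have h7 : w * k ≤ w * r := Nat.mul_le_mul_left _ hk.2
      refine le_trans (mul_le_mul_of_nonneg_left (sum_few hw (by omega) (by omega)
        (by omega)) hn'.le) ?_
      exact hnum k _ hk.1 rfl (le_trans (Nat.mul_le_mul_left _ h7) hr)
    · rw [← mul_sum]
      exact mul_le_mul_of_nonneg_left (sum_half r) hB0
  have hB : (n : ℝ) * ∑ j ∈ Icc 2 r, (∑ I ∈ powersetCard j (univ : Finset (Fin m)),
        pr (fun f : ClauseList n m w => 2 * (I.biUnion (cvars f)).card ≤ (w + θ) * j)) /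
          (n * (2 * (12 * c : ℝ) ^ w) ^ j) ≤ 1 / 2 := by
    rw [mul_sum]
    refine le_trans (sum_le_sum (g := fun j => (1 / 2 : ℝ) ^ j) fun j hj => ?_) (sum_half r)
    rw [mem_Icc] at hj
    have h6 : 6 ≤ w * j := by
      calc 6 = 3 * 2 := by norm_num
        _ ≤ w * j := Nat.mul_le_mul hw3 hj.1
    have h7 : w * j ≤ w * r := Nat.mul_le_mul_left _ hj.2
    have h8 : (w + θ) * j ≤ 2 * (w * j) := by
      calc (w + θ) * j ≤ (2 * w) * j := Nat.mul_le_mul_right _ (by omega)
        _ = 2 * (w * j) := by ring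
    have h9 : w * j ≤ (w + θ) * j := Nat.mul_le_mul_right _ (by omega)
    have h1 : ∑ I ∈ powersetCard j (univ : Finset (Fin m)),
        pr (fun f : ClauseList n m w => 2 * (I.biUnion (cvars f)).card ≤ (w + θ) * j) ≤
          ((12 * c : ℝ) ^ w) ^ j := by
      refine le_trans (sum_le_sum fun I _ => pr_mono (q := fun f : ClauseList n m w =>
        (I.biUnion (cvars f)).card ≤ (w + θ) * j / 2) fun f hf => by omega) ?_
      refine (sum_few hw (by omega) (by omega) (by omega)).trans ?_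
      exact num_dense hw3 hj.1 hθ rfl (by omega) hc hm
    rw [← mul_div_assoc, div_le_iff₀ (by positivity)]
    calc (n : ℝ) * ∑ I ∈ powersetCard j (univ : Finset (Fin m)),
        pr (fun f : ClauseList n m w => 2 * (I.biUnion (cvars f)).card ≤ (w + θ) * j)
        ≤ n * ((12 * c : ℝ) ^ w) ^ j := mul_le_mul_of_nonneg_left h1 hn'.le
      _ = (1 / 2) ^ j * (n * (2 * (12 * c : ℝ) ^ w) ^ j) := by
          rw [mul_pow 2 ((12 * (c : ℝ)) ^ w) j]
          have h2 : (1 / 2 : ℝ) ^ j * 2 ^ j = 1 := by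
            rw [← mul_pow]
            norm_num
          linear_combination (-(n : ℝ) * ((12 * c : ℝ) ^ w) ^ j) * h2
  have h1 := mul_le_mul_of_nonneg_left hsplit hn'.le
  rw [mul_add] at h1
  linarith

/-- The probability that a random list is not fine. -/
theorem pr_not_fine {c θ r : ℕ} (hw : w ≤ n) (hw3 : 3 ≤ w) (hθ : θ + 2 ≤ w) (hc : 1 ≤ c)
    (hm : m ≤ n * c ^ w) (hr : (96 * c) ^ 192 * (w * r) ≤ n) :
    (n : ℝ) * pr (fun f : ClauseList n m w => ¬ Fine c θ r f) ≤
      2 ^ 7 * (14 * (12 * c) ^ 21) + 1 :=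
  pr_not_fine_aux (by positivity) hw hw3 hθ hc hm (Nat.one_le_pow _ _ (by omega)) hr
    fun _ _ hk hz h => num_expand hw3 hk hz hc hm h

end Pool.Agent.MP_9cec2c_lc.SumProd
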