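import Pool.Agent.Lib.MP_9cec2c_lc.XGNum
import Pool.Agent.Lib.MP_9cec2c_lc.XPRand

/-!
Random lists of clauses have almost optimal expansion.
-/

set_option autoImplicit false
set_option linter.unusedSectionVars false

namespace Pool.Agent.MP_9cec2c_lc.SumProd

open Finset
open Pool.Agent.MP_9cec2c_lc.LovSch (pr_sat nonempty_emb emb_pr)
open Pool.Agent.MP_9cec2c_lc.SubstRed
open Pool.Agent.MP_9cec2c_lc.FormulaLines

variable {n m w : ℕ}

/-- All small sets of clauses have many variables, and few are dense. -/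
def Fair (N c θ r : ℕ) (f : ClauseList n m w) : Prop :=
  (∀ I : Finset (Fin m), I.card ≤ r →
    N * (w * I.card) ≤ N * (I.biUnion (cvars f)).card + N * I.card + w * I.card) ∧
    ∀ j, 2 ≤ j → j ≤ r →
      ((dense (cvars f) w θ j).card : ℝ) ≤ n * (2 * (12 * c : ℝ) ^ w) ^ j

/-- The probability that a random list is not fair. -/
theorem pr_not_fair_aux {c θ r A N : ℕ} {B : ℝ} (hB0 : 0 ≤ B) (hw : w ≤ n) (hw3 : 3 ≤ w)
    (hθ : θ + 2 ≤ w) (hc : 1 ≤ c) (hm : m ≤ n * c ^ w) (hA1 : 1 ≤ A) (hr : A * (w * r) ≤ n)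
    (hN : 16 ≤ N)
    (hnum : ∀ k z : ℕ, 2 ≤ k → 1 ≤ z → N * (z + k) + (w * k + 1) ≤ N * (w * k) →
      A * (w * k) ≤ n →
      (n : ℝ) * ((3 * m / k : ℝ) ^ k * (3 * n / z : ℝ) ^ z * (((z : ℝ) / n) ^ w) ^ k) ≤
      B * (1 / 2) ^ k) :
    (n : ℝ) * pr (fun f : ClauseList n m w => ¬ Fair N c θ r f) ≤ B + 1 := by
  classical
  have hne := nonempty_emb hw
  have hn0 : 0 < n := by omega
  have hn' : (0 : ℝ) < n := by exact_mod_cast hn0
  have hc' : (1 : ℝ) ≤ c := by exact_mod_cast hc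
  have hwr : w * r ≤ n := le_trans (Nat.le_mul_of_pos_left _ hA1) hr
  obtain ⟨z, hz⟩ : ∃ z : ℕ → ℕ, z = fun k => (N * (w * k) - N * k - w * k - 1) / N := ⟨_, rfl⟩
  have hzk : ∀ k, 2 ≤ k → 1 ≤ z k ∧ N * (z k + k) + (w * k + 1) ≤ N * (w * k) := by
    intro k hk
    have h3k : 3 * k ≤ w * k := Nat.mul_le_mul_right _ hw3
    obtain ⟨p, hp⟩ : ∃ p, w * k = k + 1 + p := ⟨w * k - k - 1, by omega⟩
    have h1 : N * (w * k) = N * k + N + N * p := by
      rw [hp]
      ring
    have h2 : 16 * p ≤ N * p := Nat.mul_le_mul_right _ hN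
    have h3 : N * z k ≤ N * (w * k) - N * k - w * k - 1 := by
      rw [hz]
      exact Nat.mul_div_le _ _
    refine ⟨?_, ?_⟩
    · rw [hz]
      show 1 ≤ (N * (w * k) - N * k - w * k - 1) / N
      rw [Nat.le_div_iff_mul_le (by omega)]
      omega
    · rw [mul_add]
      omega
  have hsplit : pr (fun f : ClauseList n m w => ¬ Fair N c θ r f) ≤
      (∑ k ∈ Icc 2 r, ∑ I ∈ powersetCard k (univ : Finset (Fin m)),
        pr (fun f : ClauseList n m w => (I.biUnion (cvars f)).card ≤ z k)) +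
      ∑ j ∈ Icc 2 r, (∑ I ∈ powersetCard j (univ : Finset (Fin m)),
        pr (fun f : ClauseList n m w => 2 * (I.biUnion (cvars f)).card ≤ (w + θ) * j)) /
          (n * (2 * (12 * c : ℝ) ^ w) ^ j) := by
    refine le_trans (pr_mono (q := fun f : ClauseList n m w =>
      (∃ k ∈ Icc 2 r, ∃ I ∈ powersetCard k (univ : Finset (Fin m)),
        (I.biUnion (cvars f)).card ≤ z k) ∨
      ∃ j ∈ Icc 2 r, (n * (2 * (12 * c : ℝ) ^ w) ^ j : ℝ) <
        (((powersetCard j (univ : Finset (Fin m))).filter fun I =>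
          2 * (I.biUnion (cvars f)).card ≤ (w + θ) * j).card : ℝ)) fun f hf => ?_) ?_
    · unfold Fair at hf
      rw [not_and_or] at hf
      rcases hf with hf | hf
      · left
        push Not at hf
        obtain ⟨I, hI, hlt⟩ := hf
        refine ⟨I.card, mem_Icc.2 ⟨?_, hI⟩, I, mem_powersetCard.2 ⟨subset_univ _, rfl⟩, ?_⟩
        · by_contra hcon
          have h1 : I.card = 1 ∨ I.card = 0 := by omega
          rcases h1 with h1 | h1
          · obtain ⟨i, rfl⟩ := card_eq_one.1 h1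
            rw [singleton_biUnion, card_cvars, card_singleton] at hlt
            simp only [mul_one] at hlt
            omega
          · rw [h1, mul_zero, mul_zero] at hlt
            omega
        · rw [hz]
          show (I.biUnion (cvars f)).card ≤ (N * (w * I.card) - N * I.card - w * I.card - 1) / N
          rw [Nat.le_div_iff_mul_le (by omega), mul_comm]
          omega
      · right
        push Not at hf
        obtain ⟨j, hj2, hjr, hlt⟩ := hf
        exact ⟨j, mem_Icc.2 ⟨hj2, hjr⟩, hlt⟩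
    · refine (pr_or _ _).trans (add_le_add ?_ ?_)
      · refine (pr_exists _ _).trans (sum_le_sum fun k _ => ?_)
        exact pr_exists _ _
      · refine (pr_exists _ _).trans (sum_le_sum fun j _ => ?_)
        have hpos : (0 : ℝ) < n * (2 * (12 * c : ℝ) ^ w) ^ j := by positivity
        generalize (n * (2 * (12 * c : ℝ) ^ w) ^ j : ℝ) = a at hpos ⊢
        exact pr_many (Ω := ClauseList n m w) (powersetCard j (univ : Finset (Fin m)))
          (fun I f => 2 * (I.biUnion (cvars f)).card ≤ (w + θ) * j) hpos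
  have hA : (n : ℝ) * ∑ k ∈ Icc 2 r, ∑ I ∈ powersetCard k (univ : Finset (Fin m)),
      pr (fun f : ClauseList n m w => (I.biUnion (cvars f)).card ≤ z k) ≤ B * (1 / 2) := by
    rw [mul_sum]
    refine le_trans (sum_le_sum (g := fun k => B * (1 / 2 : ℝ) ^ k) fun k hk => ?_) ?_
    · rw [mem_Icc] at hk
      obtain ⟨hz1, hz2⟩ := hzk k hk.1
      have h7 : w * k ≤ w * r := Nat.mul_le_mul_left _ hk.2
      have hzn : z k ≤ n := by
        have h8 : N * (z k + k) ≤ N * (w * k) := by omega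
        have h9 := Nat.le_of_mul_le_mul_left h8 (by omega)
        omega
      refine le_trans (mul_le_mul_of_nonneg_left (sum_few hw (by omega) hz1 hzn) hn'.le) ?_
      exact hnum k _ hk.1 hz1 hz2 (le_trans (Nat.mul_le_mul_left _ h7) hr)
    · rw [← mul_sum]
      exact mul_le_mul_of_nonneg_left (sum_half r) hB0
  have hB : (n : ℝ) * ∑ j ∈ Icc 2 r, (∑ I ∈ powersetCard j (univ : Finset (Fin m)),
        pr (fun f : ClauseList n m w => 2 * (I.biUnion (cvars f)).card ≤ (w + θ) * j)) /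
          (n * (2 * (12 * c : ℝ) ^ w) ^ j) ≤ 1 / 2 := by
    rw [mul_sum]
    refine le_trans (sum_le_sum (g := fun j => (1 / 2 : ℝ) ^ j) fun j hj => ?_) (sum_half r)
    rw [mem_Icc] at hj
    have h6 : 6 ≤ w * j := by
      calc 6 = 3 * 2 := by norm_num
        _ ≤ w * j := Nat.mul_le_mul hw3 hj.1
    have h7 : w * j ≤ w * r := Nat.mul_le_mul_left _ hj.2
    have h8 : (w + θ) * j ≤ 2 * (w * j) := by
      calc (w + θ) * j ≤ (2 * w) * j := Nat.mul_le_mul_right _ (by omega)
        _ = 2 * (w * j) := by ring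
    have h9 : w * j ≤ (w + θ) * j := Nat.mul_le_mul_right _ (by omega)
    have h1 : ∑ I ∈ powersetCard j (univ : Finset (Fin m)),
        pr (fun f : ClauseList n m w => 2 * (I.biUnion (cvars f)).card ≤ (w + θ) * j) ≤
          ((12 * c : ℝ) ^ w) ^ j := by
      refine le_trans (sum_le_sum fun I _ => pr_mono (q := fun f : ClauseList n m w =>
        (I.biUnion (cvars f)).card ≤ (w + θ) * j / 2) fun f hf => by omega) ?_
      refine (sum_few hw (by omega) (by omega) (by omega)).trans ?_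
      exact num_dense hw3 hj.1 hθ rfl (by omega) hc hm
    rw [← mul_div_assoc, div_le_iff₀ (by positivity)]
    calc (n : ℝ) * ∑ I ∈ powersetCard j (univ : Finset (Fin m)),
        pr (fun f : ClauseList n m w => 2 * (I.biUnion (cvars f)).card ≤ (w + θ) * j)
        ≤ n * ((12 * c : ℝ) ^ w) ^ j := mul_le_mul_of_nonneg_left h1 hn'.le
      _ = (1 / 2) ^ j * (n * (2 * (12 * c : ℝ) ^ w) ^ j) := by
          rw [mul_pow 2 ((12 * (c : ℝ)) ^ w) j]
          have h2 : (1 / 2 : ℝ) ^ j * 2 ^ j = 1 := by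
            rw [← mul_pow]
            norm_num
          linear_combination (-(n : ℝ) * ((12 * c : ℝ) ^ w) ^ j) * h2
  have h1 := mul_le_mul_of_nonneg_left hsplit hn'.le
  rw [mul_add] at h1
  linarith

/-- The probability that a random list is not fair. -/
theorem pr_not_fair {c θ r N : ℕ} (hw : w ≤ n) (hw3 : 3 ≤ w) (hθ : θ + 2 ≤ w) (hc : 1 ≤ c)
    (hm : m ≤ n * c ^ w) (hN : 16 ≤ N) (hr : (96 * c) ^ (2 * N) * (w * r) ≤ n) :
    (n : ℝ) * pr (fun f : ClauseList n m w => ¬ Fair N c θ r f) ≤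
      2 * N * (24 * c) ^ (2 * N) + 1 :=
  pr_not_fair_aux (by positivity) hw hw3 hθ hc hm (Nat.one_le_pow _ _ (by omega)) hr hN
    fun _ _ hk hz1 hz h => num_expand_gen hw3 hk hz1 hz hc hm h

end Pool.Agent.MP_9cec2c_lc.SumProd
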