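import Pool.Agent.Lib.MP_9cec2c_lc.Mg.G046
import Pool.Agent.Lib.MP_9cec2c_lc.RSOp

/-!
Many sets of variables contain no boundary.
-/

set_option autoImplicit false
set_option linter.unusedSectionVars false

namespace Pool.Agent.MP_9cec2c_lc.SumProd

open Finset
open Pool.Agent.MP_9cec2c_lc.ResPoly (bd mem_bd)

variable {n m : ℕ}

theorem bd_subset_un (Z : Fin m → Finset (Fin n)) (I : Finset (Fin m)) : bd Z I ⊆ I.biUnion Z := by
  intro v hv
  obtain ⟨i, hi, hvi, -⟩ := mem_bd.1 hv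
  exact mem_biUnion.2 ⟨i, hi, hvi⟩

theorem two_un (Z : Fin m → Finset (Fin n)) {w : ℕ} (hw : ∀ i, (Z i).card ≤ w)
    (I : Finset (Fin m)) : 2 * (I.biUnion Z).card ≤ w * I.card + (bd Z I).card := by
  classical
  have h1 : ∑ i ∈ I, (Z i).card ≤ w * I.card := by
    rw [mul_comm, ← smul_eq_mul]
    exact sum_le_card_nsmul _ _ _ fun i _ => hw i
  have h2 : ∑ i ∈ I, (Z i).card = ∑ v ∈ I.biUnion Z, (I.filter fun i => v ∈ Z i).card := by
    have h3 : ∀ i ∈ I, (Z i).card = ∑ v ∈ I.biUnion Z, if v ∈ Z i then 1 else 0 := by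
      intro i hi
      rw [← card_filter]
      congr 1
      ext v
      rw [mem_filter, mem_biUnion]
      exact ⟨fun h => ⟨⟨i, hi, h⟩, h⟩, fun h => h.2⟩
    rw [sum_congr rfl h3, sum_comm]
    refine sum_congr rfl fun v _ => ?_
    rw [card_filter]
  have h3 : (bd Z I).card = ∑ v ∈ I.biUnion Z, if v ∈ bd Z I then 1 else 0 := by
    rw [← card_filter]
    congr 1
    ext v
    rw [mem_filter]
    exact ⟨fun h => ⟨bd_subset_un Z I h, h⟩, fun h => h.2⟩
  have h4 : 2 * (I.biUnion Z).card ≤ ∑ v ∈ I.biUnion Z, ((I.filter fun i => v ∈ Z i).card +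
      if v ∈ bd Z I then 1 else 0) := by
    rw [mul_comm, ← smul_eq_mul]
    refine card_nsmul_le_sum _ _ _ fun v hv => ?_
    obtain ⟨i, hi, hvi⟩ := mem_biUnion.1 hv
    have h5 : 0 < (I.filter fun i => v ∈ Z i).card :=
      card_pos.2 ⟨i, mem_filter.2 ⟨hi, hvi⟩⟩
    by_cases hb : v ∈ bd Z I
    · rw [if_pos hb]
      omega
    · rw [if_neg hb]
      by_contra hcon
      have h6 : (I.filter fun i => v ∈ Z i).card = 1 := by omega
      obtain ⟨i', hi'⟩ := card_eq_one.1 h6
      refine hb (mem_bd.2 ⟨i, hi, hvi, fun j hj hvj => ?_⟩)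
      have h7 : j ∈ I.filter fun i => v ∈ Z i := mem_filter.2 ⟨hj, hvj⟩
      have h8 : i ∈ I.filter fun i => v ∈ Z i := mem_filter.2 ⟨hi, hvi⟩
      rw [hi', mem_singleton] at h7 h8
      rw [h7, h8]
  rw [sum_add_distrib, ← h2, ← h3] at h4
  omega

/-- Sets of clauses with few variables. -/
def dense (Z : Fin m → Finset (Fin n)) (w θ j : ℕ) : Finset (Finset (Fin m)) :=
  (powersetCard j univ).filter fun I => 2 * (I.biUnion Z).card ≤ (w + θ) * j

/-- A set that avoids the traps contains no boundary. -/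
theorem good_of_avoid {Z : Fin m → Finset (Fin n)} {w θ r : ℕ} (hZ : ∀ i, (Z i).card = w)
    (hw : 0 < w) (hθ : θ < w)
    (hexp : ∀ I : Finset (Fin m), I.card ≤ r → 5 * w * I.card ≤ 8 * (I.biUnion Z).card)
    {T1 T : Finset (Fin n)} (hT : T ⊆ T1)
    (h1 : ∀ i, ∀ Y ⊆ Z i, Y.card = θ + 1 → Y ⊆ T1 → Disjoint T (Z i))
    (h2 : ∀ I : Finset (Fin m), 2 ≤ I.card → I.card ≤ r → I ∈ dense Z w θ I.card →
      bd Z I ⊆ T1 → Disjoint T (I.biUnion Z))
    (I : Finset (Fin m)) (hI : I.card ≤ r) (hb : bd Z I ⊆ T) : I = ∅ := by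
  classical
  by_contra hne
  have hpos : 0 < I.card := card_pos.2 (nonempty_iff_ne_empty.2 hne)
  have h3 : ∀ i, (T ∩ Z i).card ≤ θ := by
    intro i
    by_cases h4 : θ + 1 ≤ (T1 ∩ Z i).card
    · obtain ⟨Y, hY, hYc⟩ := exists_subset_card_eq h4
      have h5 := h1 i Y (hY.trans inter_subset_right) hYc (hY.trans inter_subset_left)
      rw [disjoint_iff_inter_eq_empty.1 h5, card_empty]
      exact Nat.zero_le _
    · have h5 : (T ∩ Z i).card ≤ (T1 ∩ Z i).card :=
        card_le_card (inter_subset_inter hT (Subset.refl _))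
      omega
  have h4 : (bd Z I).card ≤ θ * I.card := by
    have h5 : bd Z I ⊆ I.biUnion fun i => T ∩ Z i := by
      intro v hv
      obtain ⟨i, hi, hvi, -⟩ := mem_bd.1 hv
      exact mem_biUnion.2 ⟨i, hi, mem_inter.2 ⟨hb hv, hvi⟩⟩
    refine (card_le_card h5).trans (card_biUnion_le.trans ?_)
    rw [mul_comm, ← smul_eq_mul]
    exact sum_le_card_nsmul _ _ _ fun i _ => h3 i
  have h5 := two_un Z (fun i => (hZ i).le) I
  have h6 := hexp I hI
  have hc2 : 2 ≤ I.card := by
    by_contra hcon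
    have h7 : I.card = 1 := by omega
    obtain ⟨i, rfl⟩ := card_eq_one.1 h7
    have h8 : bd Z {i} = Z i := by
      ext v
      rw [mem_bd]
      constructor
      · rintro ⟨j, hj, hvj, -⟩
        rw [mem_singleton] at hj
        rwa [← hj]
      · intro hv
        refine ⟨i, mem_singleton_self i, hv, fun j hj _ => ?_⟩
        rwa [mem_singleton] at hj
    rw [h8, hZ i, card_singleton, mul_one] at h4
    omega
  have h7 : I ∈ dense Z w θ I.card := by
    unfold dense
    rw [mem_filter, mem_powersetCard]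
    refine ⟨⟨subset_univ _, rfl⟩, h5.trans ?_⟩
    rw [add_mul]
    omega
  have h8 := h2 I hc2 hI h7 (hb.trans hT)
  have h9 : bd Z I = ∅ := by
    rw [eq_empty_iff_forall_notMem]
    intro v hv
    exact disjoint_left.1 h8 (hb hv) (bd_subset_un Z I hv)
  rw [h9, card_empty, add_zero] at h5
  have h10 : 0 < w * I.card := Nat.mul_pos hw hpos
  have h11 : 5 * w * I.card = 5 * (w * I.card) := by ring
  omega

/-- Many sets of variables contain no boundary. -/
theorem count_free {Z : Fin m → Finset (Fin n)} {w θ r c Q d b : ℕ} (hZ : ∀ i, (Z i).card = w)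
    (hw : 3 ≤ w) (hθ : θ < w) (hθ1 : w ≤ 16 * θ)
    (hexp : ∀ I : Finset (Fin m), I.card ≤ r → 5 * w * I.card ≤ 8 * (I.biUnion Z).card)
    (hm : m ≤ n * c ^ w) (hc : 1 ≤ c) (hQ : 1 ≤ Q)
    (hdense : ∀ j, 2 ≤ j → j ≤ r → ((dense Z w θ j).card : ℝ) ≤ n * (2 * (12 * c : ℝ) ^ w) ^ j)
    (hn : 0 < n) (hdb : d + b ≤ n) (hb : d ≤ 2 * Q * b) (hbd : b ≤ d)
    (hδ : ((d + b : ℕ) : ℝ) / n ≤ (1 / (768 * c * Q) : ℝ) ^ 16) :
    ∃ TT : Finset (Finset (Fin n)), (∀ T ∈ TT, T.card = d ∧
      ∀ I : Finset (Fin m), I.card ≤ r → bd Z I ⊆ T → I = ∅) ∧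
      (n.choose d : ℝ) ≤ 2 * ((d + b).choose d) * TT.card := by
  classical
  obtain ⟨q, hq⟩ : ∃ q : ℝ, q = 1 / (768 * c * Q) := ⟨_, rfl⟩
  obtain ⟨δ, hδ'⟩ : ∃ δ : ℝ, δ = ((d + b : ℕ) : ℝ) / n := ⟨_, rfl⟩
  rw [← hq, ← hδ'] at hδ
  have hc' : (1 : ℝ) ≤ c := by exact_mod_cast hc
  have hQ' : (1 : ℝ) ≤ Q := by exact_mod_cast hQ
  have hn' : (0 : ℝ) < n := by exact_mod_cast hn
  have hq0 : 0 < q := by
    rw [hq]
    positivity
  have hq1 : 12 * c * q * (64 * Q) = 1 := by
    rw [hq]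
    field_simp
    norm_num
  have hδ0 : 0 ≤ δ := by
    rw [hδ']
    positivity
  obtain ⟨u, hu⟩ : ∃ u : ℝ, u = 12 * c * q := ⟨_, rfl⟩
  have hu0 : 0 < u := by
    rw [hu]
    positivity
  have huQ : u * (64 * Q) = 1 := by rw [hu, hq1]
  have hu1 : u ≤ 1 / 64 := by nlinarith
  -- the traps
  obtain ⟨tr1, htr1⟩ : ∃ tr1 : Finset (Fin m × Finset (Fin n)), tr1 =
      (univ : Finset (Fin m)).biUnion fun i =>
        ((Z i).powersetCard (θ + 1)).image fun Y => (i, Y) := ⟨_, rfl⟩
  obtain ⟨tr2, htr2⟩ : ∃ tr2 : Finset (Finset (Fin m)), tr2 =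
      (Icc 2 r).biUnion fun j => dense Z w θ j := ⟨_, rfl⟩
  have htr1c : (tr1.card : ℝ) ≤ n * c ^ w * 2 ^ w := by
    have h1 : tr1.card ≤ m * 2 ^ w := by
      rw [htr1]
      refine (card_biUnion_le_card_mul _ _ (2 ^ w) fun i _ => ?_).trans (by
        rw [card_univ, Fintype.card_fin])
      refine card_image_le.trans ?_
      rw [card_powersetCard, hZ i]
      exact Nat.choose_le_two_pow _ _
    calc (tr1.card : ℝ) ≤ ((m * 2 ^ w : ℕ) : ℝ) := by exact_mod_cast h1
      _ ≤ ((n * c ^ w * 2 ^ w : ℕ) : ℝ) := by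
          exact_mod_cast Nat.mul_le_mul_right _ hm
      _ = n * c ^ w * 2 ^ w := by push_cast; ring
  have hwpow : ∀ k : ℕ, (k : ℝ) ≤ 2 ^ k := fun k => by exact_mod_cast Nat.lt_two_pow_self.le
  have hsum1 : ∑ k ∈ tr1, ((Z k.1).card : ℝ) * δ ^ k.2.card ≤ n * δ * u := by
    have h1 : ∀ k ∈ tr1, ((Z k.1).card : ℝ) * δ ^ k.2.card ≤ w * (δ * q ^ w) := by
      intro k hk
      rw [htr1, mem_biUnion] at hk
      obtain ⟨i, -, hk⟩ := hk
      obtain ⟨Y, hY, rfl⟩ := mem_image.1 hk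
      rw [mem_powersetCard] at hY
      rw [hZ, hY.2, pow_succ, mul_comm (δ ^ θ) δ]
      have h2 : δ ^ θ ≤ q ^ w := by
        calc δ ^ θ ≤ (q ^ 16) ^ θ := by gcongr
          _ = q ^ (16 * θ) := (pow_mul _ _ _).symm
          _ ≤ q ^ w := pow_le_pow_of_le_one hq0.le (by nlinarith) hθ1
      gcongr
    calc ∑ k ∈ tr1, ((Z k.1).card : ℝ) * δ ^ k.2.card ≤ ∑ k ∈ tr1, (w * (δ * q ^ w) : ℝ) :=
          sum_le_sum h1
      _ = tr1.card * (w * (δ * q ^ w)) := by rw [sum_const, nsmul_eq_mul]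
      _ ≤ (n * c ^ w * 2 ^ w) * (2 ^ w * (δ * q ^ w)) := by
          have h2 := hwpow w
          gcongr
      _ = n * δ * (4 * c * q) ^ w := by
          rw [mul_pow, mul_pow, show (4 : ℝ) = 2 * 2 by norm_num, mul_pow]
          ring
      _ ≤ n * δ * u := by
          refine mul_le_mul_of_nonneg_left ?_ (by positivity)
          have h2 : 4 * c * q ≤ u := by
            rw [hu]
            nlinarith [mul_pos (by linarith : (0 : ℝ) < c) hq0]
          calc (4 * c * q) ^ w ≤ (4 * c * q) ^ 1 :=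
                pow_le_pow_of_le_one (by positivity) (by linarith) (by omega)
            _ ≤ u := by rwa [pow_one]
  have hsum2 : ∑ I ∈ tr2, ((I.biUnion Z).card : ℝ) * δ ^ (bd Z I).card ≤ n * δ * (4 * u) := by
    have h1 : ∑ I ∈ tr2, ((I.biUnion Z).card : ℝ) * δ ^ (bd Z I).card ≤
        ∑ j ∈ Icc 2 r, ∑ I ∈ dense Z w θ j, ((I.biUnion Z).card : ℝ) * δ ^ (bd Z I).card := by
      rw [htr2, sum_biUnion]
      intro j _ j' _ hjj'
      refine disjoint_left.2 fun I hI hI' => hjj' ?_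
      unfold dense at hI hI'
      rw [mem_filter, mem_powersetCard] at hI hI'
      rw [← hI.1.2, hI'.1.2]
    refine h1.trans ?_
    have h2 : ∀ j ∈ Icc 2 r, ∑ I ∈ dense Z w θ j,
        ((I.biUnion Z).card : ℝ) * δ ^ (bd Z I).card ≤ n * δ * (8 * u * (1 / 2) ^ j) := by
      intro j hj
      rw [mem_Icc] at hj
      have h3 : ∀ I ∈ dense Z w θ j, ((I.biUnion Z).card : ℝ) * δ ^ (bd Z I).card ≤
          ((w * j : ℕ) : ℝ) * (δ * q ^ (w * j)) := by
        intro I hI
        unfold dense at hI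
        rw [mem_filter, mem_powersetCard] at hI
        obtain ⟨⟨-, hIj⟩, -⟩ := hI
        have e1 : (I.biUnion Z).card ≤ w * j := by
          refine card_biUnion_le.trans ?_
          rw [← hIj, mul_comm, ← smul_eq_mul]
          exact sum_le_card_nsmul _ _ _ fun i _ => (hZ i).le
        have e2 := hexp I (by omega)
        have e3 := two_un Z (fun i => (hZ i).le) I
        rw [hIj] at e2 e3
        have e4 : 5 * w * j = 5 * (w * j) := by ring
        have e5 : 6 ≤ w * j := by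
          calc 6 = 3 * 2 := by norm_num
            _ ≤ w * j := Nat.mul_le_mul hw hj.1
        obtain ⟨e, he⟩ : ∃ e, (bd Z I).card = e + 1 := ⟨(bd Z I).card - 1, by omega⟩
        have e6 : w * j ≤ 16 * e := by omega
        have e7 : δ ^ (bd Z I).card ≤ δ * q ^ (w * j) := by
          rw [he, pow_succ, mul_comm]
          refine mul_le_mul_of_nonneg_left ?_ hδ0
          calc δ ^ e ≤ (q ^ 16) ^ e := by gcongr
            _ = q ^ (16 * e) := (pow_mul _ _ _).symm
            _ ≤ q ^ (w * j) := pow_le_pow_of_le_one hq0.le (by nlinarith) e6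
        have e8 : ((I.biUnion Z).card : ℝ) ≤ ((w * j : ℕ) : ℝ) := by exact_mod_cast e1
        gcongr
      calc ∑ I ∈ dense Z w θ j, ((I.biUnion Z).card : ℝ) * δ ^ (bd Z I).card
          ≤ ∑ I ∈ dense Z w θ j, ((w * j : ℕ) : ℝ) * (δ * q ^ (w * j)) := sum_le_sum h3
        _ = (dense Z w θ j).card * (((w * j : ℕ) : ℝ) * (δ * q ^ (w * j))) := by
            rw [sum_const, nsmul_eq_mul]
        _ ≤ (n * (2 * (12 * c : ℝ) ^ w) ^ j) * (2 ^ (w * j) * (δ * q ^ (w * j))) := by
            have e1 := hdense j hj.1 hj.2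
            have e2 := hwpow (w * j)
            gcongr
        _ = n * δ * (2 * (2 * u) ^ w) ^ j := by
            rw [hu, pow_mul 2 w j, pow_mul q w j, mul_pow 2 ((2 * (12 * c * q)) ^ w) j,
              mul_pow 2 ((12 * (c : ℝ)) ^ w) j, mul_pow 2 (12 * c * q) w,
              mul_pow (12 * (c : ℝ)) q w, mul_pow (2 ^ w) ((12 * (c : ℝ)) ^ w * q ^ w) j,
              mul_pow ((12 * (c : ℝ)) ^ w) (q ^ w) j]
            ring
        _ ≤ n * δ * (8 * u * (1 / 2) ^ j) := by
            refine mul_le_mul_of_nonneg_left ?_ (by positivity)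
            have e1 : 2 * (2 * u) ^ w ≤ 4 * u := by
              have : (2 * u) ^ w ≤ (2 * u) ^ 1 :=
                pow_le_pow_of_le_one (by positivity) (by linarith) (by omega)
              rw [pow_one] at this
              linarith
            obtain ⟨i, rfl⟩ : ∃ i, j = i + 1 := ⟨j - 1, by omega⟩
            calc (2 * (2 * u) ^ w) ^ (i + 1) ≤ (4 * u) ^ (i + 1) := by gcongr
              _ = (4 * u) ^ i * (4 * u) := pow_succ _ _
              _ ≤ (1 / 2) ^ i * (4 * u) := by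
                  gcongr
                  linarith
              _ = 8 * u * (1 / 2) ^ (i + 1) := by
                  rw [pow_succ]
                  ring
    refine (sum_le_sum h2).trans ?_
    rw [← mul_sum, ← mul_sum]
    refine mul_le_mul_of_nonneg_left ?_ (by positivity)
    have h3 : ∑ j ∈ Icc 2 r, (1 / 2 : ℝ) ^ j ≤ 1 / 2 := by
      have hgeo : ∀ r : ℕ, 1 ≤ r → ∑ i ∈ Icc 2 r, (1 / 2 : ℝ) ^ i = 1 / 2 - (1 / 2 : ℝ) ^ r := by
        intro r hr
        induction r, hr using Nat.le_induction with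
        | base => norm_num
        | succ r hr ih =>
          rw [sum_Icc_succ_top (by omega), ih, pow_succ]
          ring
      rcases Nat.eq_zero_or_pos r with rfl | hr
      · simp
      · rw [hgeo r hr]
        have : (0 : ℝ) < (1 / 2 : ℝ) ^ r := by positivity
        linarith
    nlinarith
  obtain ⟨BB, hBB⟩ : ∃ BB : (Fin m × Finset (Fin n)) ⊕ Finset (Fin m) → Finset (Fin n),
      BB = Sum.elim (fun k => k.2) fun I => bd Z I := ⟨_, rfl⟩
  obtain ⟨RR, hRR⟩ : ∃ RR : (Fin m × Finset (Fin n)) ⊕ Finset (Fin m) → Finset (Fin n),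
      RR = Sum.elim (fun k => Z k.1) fun I => I.biUnion Z := ⟨_, rfl⟩
  have hcount := count_good (n := n) (d := d) (b := b) (tr1.disjSum tr2) BB RR
    (fun T => ∀ I : Finset (Fin m), I.card ≤ r → bd Z I ⊆ T → I = ∅)
    (fun T1 T _ hT havoid => by
      refine good_of_avoid hZ (by omega) hθ hexp hT (fun i Y hY hYc hYT => ?_)
        fun I hI2 hIr hId hbT => ?_
      · have h1 := havoid (Sum.inl (i, Y)) (inl_mem_disjSum.2 (by
          rw [htr1, mem_biUnion]
          exact ⟨i, mem_univ _, mem_image_of_mem _ (mem_powersetCard.2 ⟨hY, hYc⟩)⟩)) (by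
          rw [hBB]
          exact hYT)
        rw [hRR] at h1
        exact h1
      · have h1 := havoid (Sum.inr I) (inr_mem_disjSum.2 (by
          rw [htr2, mem_biUnion]
          exact ⟨I.card, mem_Icc.2 ⟨hI2, hIr⟩, hId⟩)) (by
          rw [hBB]
          exact hbT)
        rw [hRR] at h1
        exact h1)
    hdb hn (by
      rw [sum_disjSum, hBB, hRR, ← hδ']
      simp only [Sum.elim_inl, Sum.elim_inr]
      have h1 : 2 * (n * δ * u + n * δ * (4 * u)) ≤ b := by
        have h2 : (n : ℝ) * δ = d + b := by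
          rw [hδ']
          push_cast
          field_simp
        rw [h2]
        have h3 : (d : ℝ) ≤ 2 * Q * b := by exact_mod_cast hb
        have h4 : (b : ℝ) ≤ d := by exact_mod_cast hbd
        have h5 : u = 1 / (64 * Q) := by
          rw [eq_div_iff (by positivity)]
          exact huQ
        rw [h5]
        have h6 : 2 * (((d : ℝ) + b) * (1 / (64 * Q)) + (d + b) * (4 * (1 / (64 * Q)))) =
            10 * (d + b) / (64 * Q) := by
          field_simp
          ring
        rw [h6, div_le_iff₀ (by positivity)]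
        nlinarith
      linarith)
  refine ⟨(powersetCard d (univ : Finset (Fin n))).filter
    (fun T => ∀ I : Finset (Fin m), I.card ≤ r → bd Z I ⊆ T → I = ∅), fun T hT => ?_, hcount⟩
  rw [mem_filter, mem_powersetCard] at hT
  exact ⟨hT.1.2, hT.2⟩

end Pool.Agent.MP_9cec2c_lc.SumProd
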