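import Pool.Agent.Lib.MP_9cec2c_lc.Mg.G046
import Pool.Agent.Lib.MP_9cec2c_lc.RSOp
import Pool.Agent.Lib.MP_9cec2c_lc.Mg.G044
import Pool.Agent.Lib.MP_9cec2c_lc.PTDet

/-!
The degree of a term.
-/

set_option autoImplicit false
set_option linter.unusedSectionVars false

namespace Pool.Agent.MP_9cec2c_lc.SumProd

open Finset
open Pool.Agent.MP_9cec2c_lc.ParTrade (parity parity_add3 parity_odd add3 add3_inj IsAff)
open Pool.Agent.MP_9cec2c_lc.ResPoly

variable {n : ℕ}

open scoped Classical in
/-- The points at which a term is true. -/
noncomputable def pts (t : Term (Fin n)) : Finset (Fin n → Bool) := univ.filter fun x => IsTrue x t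

theorem mem_pts {t : Term (Fin n)} {x : Fin n → Bool} : x ∈ pts t ↔ IsTrue x t := by
  classical
  unfold pts
  rw [mem_filter, and_iff_right (mem_univ x)]

theorem aff_pts (t : Term (Fin n)) : IsAff (pts t) := by
  intro x hx y hy z hz
  rw [mem_pts] at *
  intro e he
  have hx' := hx e he
  have hy' := hy e he
  have hz' := hz e he
  rw [parity_odd] at hx' hy' hz' ⊢
  rw [parity_add3]
  revert hx' hy' hz'
  generalize parity e.1 x = a
  generalize parity e.1 y = b
  generalize parity e.1 z = c
  generalize e.2 = d
  revert a b c d
  decide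

theorem pts_insert (e : Finset (Fin n) × Bool) (t : Term (Fin n)) :
    pts (insert e t) = pts {e} ∩ pts t := by
  ext x
  rw [mem_inter, mem_pts, mem_pts, mem_pts]
  unfold IsTrue
  rw [forall_mem_insert]
  refine and_congr_left fun _ => ?_
  constructor
  · intro h e' he'
    rw [mem_singleton] at he'
    rwa [he']
  · exact fun h => h e (mem_singleton_self e)

/-- An affine set is contained in a term with one equation, disjoint from it, or cut in half. -/
theorem cut_one (A : Finset (Fin n → Bool)) (hA : IsAff A) (e : Finset (Fin n) × Bool) :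
    A ⊆ pts {e} ∨ pts {e} ∩ A = ∅ ∨ 2 * (pts {e} ∩ A).card = A.card := by
  by_cases h1 : ∃ q ∈ A, q ∉ pts {e}
  · by_cases h2 : ∃ p ∈ A, p ∈ pts {e}
    · right; right
      obtain ⟨q, hq, hqe⟩ := h1
      obtain ⟨p, hp, hpe⟩ := h2
      have key : ∀ x y z : Fin n → Bool, (add3 x y z ∈ pts {e} ↔
          ((x ∈ pts {e} ↔ (y ∈ pts {e} ↔ z ∈ pts {e})))) := by
        intro x y z
        have h3 : ∀ x : Fin n → Bool, x ∈ pts {e} ↔ (parity e.1 x = 1 ↔ e.2 = true) := by
          intro x
          rw [mem_pts]
          unfold IsTrue
          rw [← parity_odd]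
          constructor
          · exact fun h => h e (mem_singleton_self e)
          · intro h e' he'
            rw [mem_singleton] at he'
            rwa [he']
        rw [h3, h3, h3, h3, parity_add3]
        generalize parity e.1 x = a
        generalize parity e.1 y = b
        generalize parity e.1 z = c
        generalize e.2 = d
        revert a b c d
        decide
      have h3 : (pts {e} ∩ A).card ≤ (A \ (pts {e} ∩ A)).card := by
        refine card_le_card_of_injOn (fun y => add3 y p q) (fun y hy => ?_) (add3_inj p q).injOn
        have hy' := mem_inter.1 (mem_coe.1 hy)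
        have h4 := hA y hy'.2 p hp q hq
        refine mem_coe.2 (mem_sdiff.2 ⟨h4, fun hcon => ?_⟩)
        have h5 := (key y p q).1 (mem_inter.1 hcon).1
        exact hqe ((h5.1 hy'.1).1 hpe)
      have h4 : (A \ (pts {e} ∩ A)).card ≤ (pts {e} ∩ A).card := by
        refine card_le_card_of_injOn (fun y => add3 y p q) (fun y hy => ?_) (add3_inj p q).injOn
        have hy' := mem_sdiff.1 (mem_coe.1 hy)
        have hye : y ∉ pts {e} := fun h => hy'.2 (mem_inter.2 ⟨h, hy'.1⟩)
        refine mem_coe.2 (mem_inter.2 ⟨(key y p q).2 ?_, hA y hy'.1 p hp q hq⟩)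
        constructor
        · exact fun h => absurd h hye
        · exact fun h => absurd (h.1 hpe) hqe
      have h5 := card_sdiff_add_card_eq_card (inter_subset_right : pts {e} ∩ A ⊆ A)
      omega
    · right; left
      push Not at h2
      rw [eq_empty_iff_forall_notMem]
      intro x hx
      exact h2 x (mem_inter.1 hx).2 (mem_inter.1 hx).1
  · left
    push Not at h1
    exact h1

/-- Independent equations. -/
theorem exists_indep (t : Term (Fin n)) : pts t = ∅ ∨
    ∃ t' : Term (Fin n), pts t' = pts t ∧ 2 ^ t'.card * (pts t).card = 2 ^ n := by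
  classical
  induction t using Finset.induction_on with
  | empty =>
    right
    refine ⟨∅, rfl, ?_⟩
    have h1 : pts (∅ : Term (Fin n)) = univ := by
      rw [eq_univ_iff_forall]
      intro x
      rw [mem_pts]
      intro e he
      exact absurd he (notMem_empty e)
    rw [h1, card_univ, Fintype.card_fun, Fintype.card_bool, Fintype.card_fin, card_empty,
      pow_zero, one_mul]
  | insert e t he ih =>
    rw [pts_insert]
    rcases ih with h1 | ⟨t', h1, h2⟩
    · left
      rw [h1, inter_empty]
    · rcases cut_one (pts t) (aff_pts t) e with h3 | h3 | h3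
      · right
        refine ⟨t', ?_, ?_⟩
        · rw [h1, inter_eq_right.2 h3]
        · rw [inter_eq_right.2 h3, h2]
      · left
        exact h3
      · right
        refine ⟨insert e t', ?_, ?_⟩
        · rw [pts_insert, h1]
        · have h4 : e ∉ t' := by
            intro hcon
            have h5 : pts t ⊆ pts {e} := by
              rw [← h1, ← insert_eq_of_mem hcon, pts_insert]
              exact inter_subset_left
            rw [inter_eq_right.2 h5] at h3
            have h6 : (pts t).card = 0 := by omega
            rw [h6, mul_zero] at h2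
            have h7 : 0 < 2 ^ n := by positivity
            omega
          rw [card_insert_of_notMem h4, pow_succ, mul_assoc, h3, h2]

open scoped Classical in
/-- The indicator function of a term. -/
noncomputable def ind (t : Term (Fin n)) (x : Fin n → Bool) : ZMod 2 := if IsTrue x t then 1 else 0

theorem one_mem_Poly (d : ℕ) : (1 : (Fin n → Bool) → ZMod 2) ∈ Poly (ZMod 2) n d := by
  have h1 : (1 : (Fin n → Bool) → ZMod 2) = mon (ZMod 2) ∅ := by
    funext x
    unfold mon
    rw [if_pos (by simp)]
    rfl
  rw [h1]
  exact mon_mem_Poly _ (by simp)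

theorem parity_mem (I : Finset (Fin n)) : (parity I : (Fin n → Bool) → ZMod 2) ∈
    Poly (ZMod 2) n 1 := by
  have h1 : (parity I : (Fin n → Bool) → ZMod 2) = ∑ v ∈ I, mon (ZMod 2) {v} := by
    funext x
    unfold parity
    rw [Finset.sum_apply]
    refine sum_congr rfl fun v _ => ?_
    unfold mon
    congr 1
    apply propext
    constructor
    · intro h u hu
      rw [mem_singleton] at hu
      rwa [hu]
    · exact fun h => h v (mem_singleton_self v)
  rw [h1]
  exact Submodule.sum_mem _ fun v _ => mon_mem_Poly _ (by simp)

theorem ind_single (e : Finset (Fin n) × Bool) : ind {e} ∈ Poly (ZMod 2) n 1 := by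
  have h1 : (ind {e} : (Fin n → Bool) → ZMod 2) =
      parity e.1 + (if e.2 then 0 else 1 : ZMod 2) • (1 : (Fin n → Bool) → ZMod 2) := by
    funext x
    rw [Pi.add_apply, Pi.smul_apply, Pi.one_apply, smul_eq_mul, mul_one]
    unfold ind
    have h2 : IsTrue x {e} ↔ (parity e.1 x = 1 ↔ e.2 = true) := by
      unfold IsTrue
      rw [← parity_odd]
      constructor
      · exact fun h => h e (mem_singleton_self e)
      · intro h e' he'
        rw [mem_singleton] at he'
        rwa [he']
    by_cases h3 : IsTrue x {e}
    · rw [if_pos h3]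
      rw [h2] at h3
      revert h3
      generalize parity e.1 x = a
      generalize e.2 = d
      revert a d
      decide
    · rw [if_neg h3]
      rw [h2] at h3
      revert h3
      generalize parity e.1 x = a
      generalize e.2 = d
      revert a d
      decide
  rw [h1]
  exact Submodule.add_mem _ (parity_mem _) (Submodule.smul_mem _ _ (one_mem_Poly 1))

theorem ind_insert (e : Finset (Fin n) × Bool) (t : Term (Fin n)) :
    (ind (insert e t) : (Fin n → Bool) → ZMod 2) = ind {e} * ind t := by
  funext x
  rw [Pi.mul_apply]
  unfold ind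
  have h1 : IsTrue x (insert e t) ↔ IsTrue x {e} ∧ IsTrue x t := by
    rw [← mem_pts, pts_insert, mem_inter, mem_pts, mem_pts]
  by_cases h2 : IsTrue x {e} <;> by_cases h3 : IsTrue x t
  · rw [if_pos (h1.2 ⟨h2, h3⟩), if_pos h2, if_pos h3, mul_one]
  · rw [if_neg (fun h => h3 (h1.1 h).2), if_neg h3, mul_zero]
  · rw [if_neg (fun h => h2 (h1.1 h).1), if_neg h2, zero_mul]
  · rw [if_neg (fun h => h2 (h1.1 h).1), if_neg h2, zero_mul]

theorem ind_card (t : Term (Fin n)) : ind t ∈ Poly (ZMod 2) n t.card := by
  classical
  induction t using Finset.induction_on with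
  | empty =>
    have h1 : (ind ∅ : (Fin n → Bool) → ZMod 2) = 1 := by
      funext x
      unfold ind
      rw [if_pos (show IsTrue x ∅ from fun e he => absurd he (notMem_empty e))]
      rfl
    rw [h1]
    exact one_mem_Poly _
  | insert e t he ih =>
    rw [ind_insert, card_insert_of_notMem he, add_comm]
    exact Poly_mul _ (ind_single e) ih

/-- A term that is true at many points has small degree. -/
theorem ind_mem {t : Term (Fin n)} {κ : ℕ} (h : 2 ^ n ≤ (pts t).card * 2 ^ κ) :
    ind t ∈ Poly (ZMod 2) n κ := by
  rcases exists_indep t with h1 | ⟨t', h1, h2⟩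
  · rw [h1, card_empty, zero_mul] at h
    have : 0 < 2 ^ n := by positivity
    omega
  · have h3 : (ind t : (Fin n → Bool) → ZMod 2) = ind t' := by
      funext x
      unfold ind
      congr 1
      apply propext
      rw [← mem_pts, ← mem_pts, h1]
    rw [h3]
    refine Poly_mono _ ?_ (ind_card t')
    have h4 : 0 < (pts t).card := by
      rw [Nat.pos_iff_ne_zero]
      intro h5
      rw [h5, zero_mul] at h
      have : 0 < 2 ^ n := by positivity
      omega
    rw [← h2, mul_comm] at h
    exact ParTrade.pow_le (Nat.le_of_mul_le_mul_left h h4)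

/-- Polynomials and differences. -/
theorem deg_of_Poly {d : ℕ} {f : (Fin n → Bool) → ZMod 2} (hf : f ∈ Poly (ZMod 2) n d) :
    ParTrade.Deg (d + 1) f := by
  unfold ResPoly.Poly at hf
  induction hf using Submodule.span_induction with
  | mem f hf =>
    obtain ⟨M, hM, rfl⟩ := hf
    have h1 : (mon (ZMod 2) M : (Fin n → Bool) → ZMod 2) = ParTrade.mon M := by
      funext x
      unfold mon ParTrade.mon
      by_cases h : ∀ v ∈ M, x v = true
      · rw [if_pos h, prod_eq_one]
        intro v hv
        rw [h v hv]
        rfl
      · rw [if_neg h]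
        push Not at h
        obtain ⟨v, hv, hvx⟩ := h
        have hvx' : x v = false := by simpa using hvx
        rw [prod_eq_zero hv]
        rw [hvx']
        rfl
    rw [h1]
    exact ParTrade.deg_mono (by omega) (ParTrade.deg_mon M)
  | zero => exact ParTrade.deg_zero _
  | add f g _ _ hf hg => exact ParTrade.deg_add _ hf hg
  | smul c f _ hf => exact ParTrade.deg_const _ c hf

end Pool.Agent.MP_9cec2c_lc.SumProd
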